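import Pool.Agent.Strip051.G.I72727_7625.Gn
import Pool.Agent.Strip051.PB.Corns
import Pool.Agent.Strip051.PB.CornW

/-! # Certificates of the aligned corners (generated) -/

set_option linter.all false

namespace Pool.Agent.Strip051.G.I72727_7625.Tab.CG

open Pool.Agent.Strip051.PB

def A011E_000 :
    ∃ t, chk3 (onCell 0 67108864 0 1073741824 780900216 37827925 (corT true 1 c0B cA011E gB0q0 gB0q1 gB0q1 gB1q1 true false)) t 1 1 1 = true :=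
  ⟨(T.l 1), by decide +kernel⟩

def A011L_002 :
    ∃ t, chk3 (onCell 0 67108864 0 1073741824 780900216 37827925 (corT true 1 c0B cA011L gB0q0 gB0q1 gB2q1 gB3q1 false true)) t 1 1 1 = true :=
  ⟨(T.l 2), by decide +kernel⟩

def A011L_003 :
    ∃ t, chk3 (onCell 0 67108864 0 1073741824 780900216 37827925 (corT true 1 c0B cA011L gB0q0 gB0q1 gB3q1 gB4q1 true true)) t 1 1 1 = true :=
  ⟨(T.l 2), by decide +kernel⟩

def A011L_004 :
    ∃ t, chk3 (onCell 0 67108864 0 1073741824 780900216 37827925 (corT true 1 c0B cA011L gB0q0 gB0q1 gB4q1 gB5q1 true true)) t 1 1 1 = true :=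
  ⟨(T.l 2), by decide +kernel⟩

def A011R_030 :
    ∃ t, chk3 (onCell 0 67108864 0 1073741824 780900216 37827925 (corT true 1 c0B cA011R gB0q0 gB3q1 gB0q1 gB1q1 true false)) t 1 1 1 = true :=
  ⟨(T.b (T.b (T.b (T.b (T.a (T.l 204) (T.a (T.l 204) (T.a (T.l 204) (T.l 204)))) (T.b (T.b (T.a (T.l 204) (T.a (T.l 204) (T.a (T.l 204) (T.l 204)))) (T.l 1)) (T.l 1))) (T.l 1)) (T.l 1)) (T.l 1)), by decide +kernel⟩

def A011R_040 :
    ∃ t, chk3 (onCell 0 67108864 0 1073741824 780900216 37827925 (corT true 1 c0B cA011R gB0q0 gB4q1 gB0q1 gB1q1 true false)) t 1 1 1 = true :=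
  ⟨(T.b (T.b (T.a (T.b (T.l 204) (T.b (T.l 204) (T.b (T.b (T.a (T.l 204) (T.l 204)) (T.l 1)) (T.l 1)))) (T.a (T.b (T.l 204) (T.b (T.l 204) (T.b (T.b (T.l 204) (T.l 1)) (T.l 1)))) (T.b (T.l 204) (T.b (T.a (T.l 204) (T.l 204)) (T.b (T.b (T.a (T.l 204) (T.l 204)) (T.l 1)) (T.l 1)))))) (T.l 1)) (T.l 1)), by decide +kernel⟩

def A011R_050 :
    ∃ t, chk3 (onCell 0 67108864 0 1073741824 780900216 37827925 (corX 1 c0B cA011R tA011R gB0q0 gB5q1 gB0q1 gB1q1 gB0q1 true false)) t 1 1 1 = true :=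
  ⟨(T.b (T.b (T.b (T.l 0) (T.l 3)) (T.b (T.l 3) (T.l 1))) (T.l 1)), by decide +kernel⟩

def A011R_130 :
    ∃ t, chk3 (onCell 0 67108864 0 1073741824 780900216 37827925 (corT true 1 c0B cA011R gB1q0 gB3q1 gB0q1 gB1q1 true false)) t 1 1 1 = true :=
  ⟨(T.l 1), by decide +kernel⟩

def A011R_140 :
    ∃ t, chk3 (onCell 0 67108864 0 1073741824 780900216 37827925 (corT true 1 c0B cA011R gB1q0 gB4q1 gB0q1 gB1q1 true false)) t 1 1 1 = true :=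
  ⟨(T.b (T.b (T.b (T.a (T.l 0) (T.l 0)) (T.l 1)) (T.l 1)) (T.l 1)), by decide +kernel⟩

def A011R_150 :
    ∃ t, chk3 (onCell 0 67108864 0 1073741824 780900216 37827925 (corT true 1 c0B cA011R gB1q0 gB5q1 gB0q1 gB1q1 true false)) t 1 1 1 = true :=
  ⟨(T.b (T.b (T.a (T.l 816) (T.b (T.l 816) (T.l 816))) (T.l 1)) (T.l 1)), by decide +kernel⟩

def A011R_230 :
    ∃ t, chk3 (onCell 0 67108864 0 1073741824 780900216 37827925 (corT true 1 c0B cA011R gB2q0 gB3q1 gB0q1 gB1q1 true false)) t 1 1 1 = true :=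
  ⟨(T.l 1), by decide +kernel⟩

def A011R_240 :
    ∃ t, chk3 (onCell 0 67108864 0 1073741824 780900216 37827925 (corT true 1 c0B cA011R gB2q0 gB4q1 gB0q1 gB1q1 true false)) t 1 1 1 = true :=
  ⟨(T.l 1), by decide +kernel⟩

def A011R_250 :
    ∃ t, chk3 (onCell 0 67108864 0 1073741824 780900216 37827925 (corT true 1 c0B cA011R gB2q0 gB5q1 gB0q1 gB1q1 true false)) t 1 1 1 = true :=
  ⟨(T.l 1), by decide +kernel⟩

def A012E_000_1_2_1 :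
    ∃ t, chk3 (onCell 0 67108864 0 1073741824 780900216 37827925 (corX 1 c0B cA012E tA012E gB0q0 gB0q1 gB0q2 gB1q2 gB0q2 true true)) t 1 2 1 = true :=
  ⟨(T.b (T.l 1) (T.b (T.l 1) (T.b (T.l 1) (T.b (T.l 1) (T.a (T.b (T.l 1) (T.a (T.b (T.l 1) (T.a (T.c (T.l 3) (T.l 3)) (T.c (T.l 207) (T.l 207)))) (T.a (T.c (T.l 207) (T.l 207)) (T.c (T.l 207) (T.l 207))))) (T.a (T.b (T.b (T.l 1) (T.a (T.l 1) (T.c (T.l 207) (T.l 207)))) (T.a (T.c (T.l 207) (T.l 207)) (T.c (T.l 207) (T.l 207)))) (T.b (T.b (T.a (T.l 1) (T.c (T.l 207) (T.l 207))) (T.a (T.c (T.l 207) (T.l 207)) (T.c (T.l 207) (T.l 207)))) (T.a (T.c (T.l 463) (T.l 207)) (T.a (T.l 207) (T.a (T.l 207) (T.b (T.l 207) (T.b (T.l 207) (T.a (T.l 207) (T.c (T.c (T.l 204) (T.l 204)) (T.l 204))))))))))))))), by decide +kernel⟩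

def A012E_000_1_3_1 :
    ∃ t, chk3 (onCell 0 67108864 0 1073741824 780900216 37827925 (corX 1 c0B cA012E tA012E gB0q0 gB0q1 gB0q2 gB1q2 gB0q2 true true)) t 1 3 1 = true :=
  ⟨(T.b (T.b (T.b (T.a (T.a (T.a (T.a (T.l 3) (T.l 3)) (T.a (T.l 207) (T.b (T.l 207) (T.l 207)))) (T.a (T.a (T.b (T.l 207) (T.l 207)) (T.b (T.l 207) (T.l 207))) (T.a (T.b (T.l 207) (T.l 207)) (T.b (T.l 207) (T.l 207))))) (T.b (T.a (T.a (T.a (T.l 207) (T.l 207)) (T.a (T.l 207) (T.l 463))) (T.a (T.a (T.l 463) (T.l 463)) (T.a (T.l 463) (T.b (T.a (T.b (T.l 207) (T.a (T.l 207) (T.c (T.c (T.l 204) (T.l 204)) (T.l 204)))) (T.c (T.b (T.c (T.a (T.l 460) (T.l 204)) (T.c (T.l 204) (T.l 204))) (T.c (T.c (T.l 204) (T.l 204)) (T.l 460))) (T.b (T.c (T.c (T.l 204) (T.l 204)) (T.l 204)) (T.c (T.l 204) (T.l 204))))) (T.a (T.c (T.b (T.c (T.l 460) (T.l 204)) (T.c (T.l 204) (T.l 204))) (T.b (T.c (T.l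 204) (T.l 204)) (T.l 204))) (T.b (T.c (T.l 204) (T.l 204)) (T.c (T.l 204) (T.l 204)))))))) (T.b (T.a (T.a (T.c (T.l 207) (T.l 207)) (T.c (T.l 207) (T.l 207))) (T.b (T.a (T.l 207) (T.a (T.a (T.l 207) (T.c (T.c (T.l 204) (T.l 204)) (T.l 204))) (T.a (T.c (T.c (T.l 204) (T.l 204)) (T.l 204)) (T.l 460)))) (T.l 2))) (T.l 2)))) (T.l 2)) (T.l 2)) (T.l 2)), by decide +kernel⟩

theorem A012E_000 :
    ∃ t, chk3 (onCell 0 67108864 0 1073741824 780900216 37827925 (corX 1 c0B cA012E tA012E gB0q0 gB0q1 gB0q2 gB1q2 gB0q2 true true)) t 1 1 1 = true :=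
  ex3_b A012E_000_1_2_1 A012E_000_1_3_1

def A012E_001_1_2_1 :
    ∃ t, chk3 (onCell 0 67108864 0 1073741824 780900216 37827925 (corT true 1 c0B cA012E gB0q0 gB0q1 gB1q2 gB2q2 true true)) t 1 2 1 = true :=
  ⟨(T.l 1), by decide +kernel⟩

def A012E_001_1_12_1 :
    ∃ t, chk3 (onCell 0 67108864 0 1073741824 780900216 37827925 (corT true 1 c0B cA012E gB0q0 gB0q1 gB1q2 gB2q2 true true)) t 1 12 1 = true :=
  ⟨(T.b (T.b (T.a (T.l 1) (T.l 1)) (T.a (T.b (T.a (T.l 1) (T.b (T.l 1) (T.a (T.l 1) (T.b (T.l 1) (T.c (T.a (T.b (T.l 1) (T.l 204)) (T.l 204)) (T.c (T.l 204) (T.l 204))))))) (T.a (T.b (T.b (T.a (T.l 1) (T.a (T.l 1) (T.b (T.l 1) (T.b (T.l 1) (T.l 204))))) (T.a (T.b (T.a (T.l 1) (T.a (T.l 1) (T.a (T.l 1) (T.l 460)))) (T.a (T.a (T.l 1) (T.c (T.l 0) (T.l 204))) (T.l 0))) (T.c (T.c (T.l 0) (T.l 0)) (T.l 0)))) (T.c (T.a (T.c (T.l 0) (T.l 0)) (T.l 0)) (T.a (T.c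 (T.l 0) (T.l 0)) (T.l 0)))) (T.b (T.a (T.b (T.c (T.a (T.c (T.a (T.b (T.l 1) (T.l 204)) (T.l 204)) (T.l 204)) (T.l 204)) (T.l 204)) (T.l 0)) (T.c (T.l 0) (T.l 0))) (T.c (T.l 0) (T.l 0))))) (T.a (T.b (T.b (T.a (T.l 1) (T.b (T.l 1) (T.a (T.l 1) (T.b (T.l 1) (T.l 204))))) (T.a (T.b (T.b (T.l 1) (T.c (T.a (T.l 460) (T.l 204)) (T.l 204))) (T.l 204)) (T.c (T.l 0) (T.l 204)))) (T.c (T.l 0) (T.l 0))) (T.b (T.a (T.b (T.b (T.l 1) (T.c (T.l 204) (T.l 204))) (T.l 0)) (T.c (T.a (T.c (T.l 256) (T.l 0)) (T.l 0)) (T.l 204))) (T.c (T.l 0) (T.l 0)))))) (T.a (T.b (T.a (T.c (T.b (T.a (T.l 816) (T.l 816)) (T.l 816)) (T.b (T.c (T.l 816) (T.l 816)) (T.a (T.l 816) (T.l 816)))) (T.c (T.a (T.l 816) (T.l 816)) (T.a (T.l 0) (T.l 0)))) (T.a (T.c (T.a (T.l 816) (T.l 816)) (T.b (T.l 816) (T.l 816))) (T.c (T.l 816) (T.a (T.l 816) (T.l 816))))) (T.b (T.a (T.c (T.l 816) (T.l 0)) (T.c (T.l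 816) (T.l 0))) (T.a (T.c (T.l 816) (T.l 816)) (T.c (T.l 816) (T.l 816)))))), by decide +kernel⟩

def A012E_001_1_13_1 :
    ∃ t, chk3 (onCell 0 67108864 0 1073741824 780900216 37827925 (corT true 1 c0B cA012E gB0q0 gB0q1 gB1q2 gB2q2 true true)) t 1 13 1 = true :=
  ⟨(T.b (T.a (T.b (T.c (T.a (T.l 816) (T.l 816)) (T.a (T.a (T.l 816) (T.l 816)) (T.l 880))) (T.b (T.c (T.l 880) (T.a (T.l 816) (T.l 816))) (T.l 2))) (T.b (T.a (T.c (T.l 816) (T.a (T.l 816) (T.l 816))) (T.c (T.a (T.l 816) (T.l 816)) (T.a (T.l 816) (T.l 816)))) (T.a (T.a (T.c (T.l 816) (T.l 816)) (T.l 2)) (T.l 2)))) (T.l 2)), by decide +kernel⟩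

def A012E_001_1_7_1 :
    ∃ t, chk3 (onCell 0 67108864 0 1073741824 780900216 37827925 (corT true 1 c0B cA012E gB0q0 gB0q1 gB1q2 gB2q2 true true)) t 1 7 1 = true :=
  ⟨(T.l 2), by decide +kernel⟩

theorem A012E_001_1_6_1 :
    ∃ t, chk3 (onCell 0 67108864 0 1073741824 780900216 37827925 (corT true 1 c0B cA012E gB0q0 gB0q1 gB1q2 gB2q2 true true)) t 1 6 1 = true :=
  ex3_b A012E_001_1_12_1 A012E_001_1_13_1
theorem A012E_001_1_3_1 :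
    ∃ t, chk3 (onCell 0 67108864 0 1073741824 780900216 37827925 (corT true 1 c0B cA012E gB0q0 gB0q1 gB1q2 gB2q2 true true)) t 1 3 1 = true :=
  ex3_b A012E_001_1_6_1 A012E_001_1_7_1
theorem A012E_001 :
    ∃ t, chk3 (onCell 0 67108864 0 1073741824 780900216 37827925 (corT true 1 c0B cA012E gB0q0 gB0q1 gB1q2 gB2q2 true true)) t 1 1 1 = true :=
  ex3_b A012E_001_1_2_1 A012E_001_1_3_1

def A012E_002 :
    ∃ t, chk3 (onCell 0 67108864 0 1073741824 780900216 37827925 (corT true 1 c0B cA012E gB0q0 gB0q1 gB2q2 gB3q2 true false)) t 1 1 1 = true :=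
  ⟨(T.b (T.l 1) (T.b (T.b (T.l 1) (T.a (T.b (T.b (T.a (T.l 1) (T.a (T.l 1) (T.l 1))) (T.c (T.l 816) (T.a (T.l 816) (T.l 816)))) (T.b (T.a (T.l 816) (T.l 816)) (T.a (T.l 816) (T.l 816)))) (T.b (T.b (T.b (T.l 1) (T.c (T.l 816) (T.a (T.l 816) (T.l 816)))) (T.c (T.a (T.l 816) (T.l 816)) (T.a (T.l 816) (T.l 816)))) (T.b (T.a (T.l 816) (T.c (T.l 816) (T.l 816))) (T.a (T.l 816) (T.l 816)))))) (T.a (T.b (T.b (T.a (T.l 816) (T.l 816)) (T.a (T.l 816) (T.l 816))) (T.b (T.a (T.l 816) (T.l 816)) (T.l 816))) (T.a (T.b (T.b (T.b (T.l 816) (T.l 816)) (T.l 816)) (T.b (T.l 816) (T.l 816))) (T.b (T.b (T.b (T.l 816) (T.l 816)) (T.b (T.l 816) (T.l 816))) (T.b (T.l 816) (T.a (T.l 816) (T.a (T.l 816) (T.b (T.l 816) (T.l 816)))))))))), by decide +kernel⟩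

def A012L_004 :
    ∃ t, chk3 (onCell 0 67108864 0 1073741824 780900216 37827925 (corT true 1 c0B cA012L gB0q0 gB0q1 gB4q2 gB5q2 false true)) t 1 1 1 = true :=
  ⟨(T.l 2), by decide +kernel⟩

def A012R_030 :
    ∃ t, chk3 (onCell 0 67108864 0 1073741824 780900216 37827925 (corT true 1 c0B cA012R gB0q0 gB3q1 gB0q2 gB1q2 true true)) t 1 1 1 = true :=
  ⟨(T.b (T.l 2) (T.l 2)), by decide +kernel⟩

def A012R_031 :
    ∃ t, chk3 (onCell 0 67108864 0 1073741824 780900216 37827925 (corT true 1 c0B cA012R gB0q0 gB3q1 gB1q2 gB2q2 true true)) t 1 1 1 = true :=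
  ⟨(T.b (T.l 2) (T.l 2)), by decide +kernel⟩

def A012R_032 :
    ∃ t, chk3 (onCell 0 67108864 0 1073741824 780900216 37827925 (corT true 1 c0B cA012R gB0q0 gB3q1 gB2q2 gB3q2 true false)) t 1 1 1 = true :=
  ⟨(T.a (T.b (T.b (T.l 0) (T.l 816)) (T.l 816)) (T.a (T.b (T.b (T.l 0) (T.l 816)) (T.l 816)) (T.a (T.b (T.b (T.l 0) (T.l 816)) (T.l 816)) (T.b (T.b (T.b (T.l 0) (T.l 0)) (T.l 816)) (T.b (T.l 816) (T.b (T.l 816) (T.l 816))))))), by decide +kernel⟩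

def A012R_040 :
    ∃ t, chk3 (onCell 0 67108864 0 1073741824 780900216 37827925 (corT true 1 c0B cA012R gB0q0 gB4q1 gB0q2 gB1q2 true true)) t 1 1 1 = true :=
  ⟨(T.l 2), by decide +kernel⟩

def A012R_041 :
    ∃ t, chk3 (onCell 0 67108864 0 1073741824 780900216 37827925 (corT true 1 c0B cA012R gB0q0 gB4q1 gB1q2 gB2q2 true true)) t 1 1 1 = true :=
  ⟨(T.l 2), by decide +kernel⟩

def A012R_042 :
    ∃ t, chk3 (onCell 0 67108864 0 1073741824 780900216 37827925 (corT true 1 c0B cA012R gB0q0 gB4q1 gB2q2 gB3q2 true false)) t 1 1 1 = true :=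
  ⟨(T.a (T.b (T.l 0) (T.l 816)) (T.a (T.b (T.l 0) (T.l 816)) (T.a (T.b (T.l 0) (T.l 816)) (T.b (T.b (T.l 0) (T.l 816)) (T.b (T.l 816) (T.b (T.l 816) (T.l 816))))))), by decide +kernel⟩

def A012R_050 :
    ∃ t, chk3 (onCell 0 67108864 0 1073741824 780900216 37827925 (corT true 1 c0B cA012R gB0q0 gB5q1 gB0q2 gB1q2 true true)) t 1 1 1 = true :=
  ⟨(T.l 2), by decide +kernel⟩

def A012R_051 :
    ∃ t, chk3 (onCell 0 67108864 0 1073741824 780900216 37827925 (corT true 1 c0B cA012R gB0q0 gB5q1 gB1q2 gB2q2 true true)) t 1 1 1 = true :=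
  ⟨(T.l 2), by decide +kernel⟩

def A012R_052 :
    ∃ t, chk3 (onCell 0 67108864 0 1073741824 780900216 37827925 (corT true 1 c0B cA012R gB0q0 gB5q1 gB2q2 gB3q2 true false)) t 1 1 1 = true :=
  ⟨(T.b (T.b (T.l 0) (T.l 816)) (T.b (T.l 816) (T.a (T.l 816) (T.a (T.l 816) (T.b (T.l 816) (T.b (T.l 816) (T.l 816))))))), by decide +kernel⟩

def A012R_130 :
    ∃ t, chk3 (onCell 0 67108864 0 1073741824 780900216 37827925 (corT true 1 c0B cA012R gB1q0 gB3q1 gB0q2 gB1q2 true true)) t 1 1 1 = true :=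
  ⟨(T.b (T.b (T.b (T.a (T.l 1) (T.b (T.l 1) (T.l 0))) (T.a (T.l 816) (T.l 816))) (T.l 2)) (T.l 2)), by decide +kernel⟩

def A012R_131 :
    ∃ t, chk3 (onCell 0 67108864 0 1073741824 780900216 37827925 (corT true 1 c0B cA012R gB1q0 gB3q1 gB1q2 gB2q2 true true)) t 1 1 1 = true :=
  ⟨(T.b (T.b (T.b (T.l 1) (T.a (T.l 816) (T.l 816))) (T.a (T.l 816) (T.l 816))) (T.l 2)), by decide +kernel⟩

def A012R_132 :
    ∃ t, chk3 (onCell 0 67108864 0 1073741824 780900216 37827925 (corT true 1 c0B cA012R gB1q0 gB3q1 gB2q2 gB3q2 true false)) t 1 1 1 = true :=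
  ⟨(T.a (T.l 0) (T.a (T.l 0) (T.a (T.l 0) (T.b (T.b (T.l 0) (T.l 816)) (T.b (T.l 816) (T.l 816)))))), by decide +kernel⟩

def A012R_140 :
    ∃ t, chk3 (onCell 0 67108864 0 1073741824 780900216 37827925 (corT true 1 c0B cA012R gB1q0 gB4q1 gB0q2 gB1q2 true true)) t 1 1 1 = true :=
  ⟨(T.b (T.b (T.a (T.l 0) (T.l 2)) (T.l 2)) (T.l 2)), by decide +kernel⟩

def A012R_141 :
    ∃ t, chk3 (onCell 0 67108864 0 1073741824 780900216 37827925 (corT true 1 c0B cA012R gB1q0 gB4q1 gB1q2 gB2q2 true true)) t 1 1 1 = true :=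
  ⟨(T.b (T.b (T.a (T.l 0) (T.l 2)) (T.l 2)) (T.l 2)), by decide +kernel⟩

def A012R_142 :
    ∃ t, chk3 (onCell 0 67108864 0 1073741824 780900216 37827925 (corT true 1 c0B cA012R gB1q0 gB4q1 gB2q2 gB3q2 true false)) t 1 1 1 = true :=
  ⟨(T.a (T.l 0) (T.a (T.l 0) (T.a (T.l 0) (T.b (T.l 0) (T.b (T.l 816) (T.l 816)))))), by decide +kernel⟩

def A012R_150 :
    ∃ t, chk3 (onCell 0 67108864 0 1073741824 780900216 37827925 (corT true 1 c0B cA012R gB1q0 gB5q1 gB0q2 gB1q2 true true)) t 1 1 1 = true :=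
  ⟨(T.l 2), by decide +kernel⟩

def A012R_151 :
    ∃ t, chk3 (onCell 0 67108864 0 1073741824 780900216 37827925 (corT true 1 c0B cA012R gB1q0 gB5q1 gB1q2 gB2q2 true true)) t 1 1 1 = true :=
  ⟨(T.l 2), by decide +kernel⟩

def A012R_152 :
    ∃ t, chk3 (onCell 0 67108864 0 1073741824 780900216 37827925 (corT true 1 c0B cA012R gB1q0 gB5q1 gB2q2 gB3q2 true false)) t 1 1 1 = true :=
  ⟨(T.a (T.l 0) (T.b (T.l 0) (T.b (T.l 816) (T.a (T.l 816) (T.b (T.l 816) (T.l 816)))))), by decide +kernel⟩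

def A012R_230 :
    ∃ t, chk3 (onCell 0 67108864 0 1073741824 780900216 37827925 (corT true 1 c0B cA012R gB2q0 gB3q1 gB0q2 gB1q2 true true)) t 1 1 1 = true :=
  ⟨(T.b (T.b (T.l 1) (T.a (T.l 816) (T.b (T.l 1) (T.a (T.l 816) (T.l 816))))) (T.b (T.a (T.l 816) (T.b (T.a (T.l 816) (T.b (T.l 816) (T.l 2))) (T.l 2))) (T.l 2))), by decide +kernel⟩

def A012R_231 :
    ∃ t, chk3 (onCell 0 67108864 0 1073741824 780900216 37827925 (corT true 1 c0B cA012R gB2q0 gB3q1 gB1q2 gB2q2 true true)) t 1 1 1 = true :=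
  ⟨(T.b (T.b (T.l 1) (T.a (T.l 1) (T.l 816))) (T.a (T.l 816) (T.b (T.l 816) (T.b (T.l 816) (T.b (T.l 2) (T.l 2)))))), by decide +kernel⟩

def A012R_232 :
    ∃ t, chk3 (onCell 0 67108864 0 1073741824 780900216 37827925 (corT true 1 c0B cA012R gB2q0 gB3q1 gB2q2 gB3q2 true false)) t 1 1 1 = true :=
  ⟨(T.b (T.l 1) (T.a (T.l 816) (T.b (T.l 1) (T.a (T.l 816) (T.l 816))))), by decide +kernel⟩

def A012R_240 :
    ∃ t, chk3 (onCell 0 67108864 0 1073741824 780900216 37827925 (corT true 1 c0B cA012R gB2q0 gB4q1 gB0q2 gB1q2 true true)) t 1 1 1 = true :=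
  ⟨(T.b (T.b (T.l 1) (T.a (T.l 816) (T.b (T.l 816) (T.b (T.l 816) (T.l 2))))) (T.b (T.a (T.l 816) (T.l 2)) (T.l 2))), by decide +kernel⟩

def A012R_241 :
    ∃ t, chk3 (onCell 0 67108864 0 1073741824 780900216 37827925 (corT true 1 c0B cA012R gB2q0 gB4q1 gB1q2 gB2q2 true true)) t 1 1 1 = true :=
  ⟨(T.b (T.b (T.l 1) (T.a (T.l 816) (T.l 816))) (T.a (T.l 816) (T.b (T.l 816) (T.b (T.l 816) (T.l 2))))), by decide +kernel⟩

def A012R_242 :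
    ∃ t, chk3 (onCell 0 67108864 0 1073741824 780900216 37827925 (corT true 1 c0B cA012R gB2q0 gB4q1 gB2q2 gB3q2 true false)) t 1 1 1 = true :=
  ⟨(T.b (T.l 1) (T.a (T.l 816) (T.b (T.l 816) (T.a (T.l 816) (T.l 816))))), by decide +kernel⟩

def A012R_250 :
    ∃ t, chk3 (onCell 0 67108864 0 1073741824 780900216 37827925 (corT true 1 c0B cA012R gB2q0 gB5q1 gB0q2 gB1q2 true true)) t 1 1 1 = true :=
  ⟨(T.b (T.b (T.a (T.l 816) (T.l 816)) (T.a (T.l 816) (T.b (T.l 816) (T.l 2)))) (T.b (T.l 2) (T.l 2))), by decide +kernel⟩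

def A012R_251 :
    ∃ t, chk3 (onCell 0 67108864 0 1073741824 780900216 37827925 (corT true 1 c0B cA012R gB2q0 gB5q1 gB1q2 gB2q2 true true)) t 1 1 1 = true :=
  ⟨(T.a (T.l 0) (T.b (T.l 816) (T.b (T.l 816) (T.b (T.l 2) (T.l 2))))), by decide +kernel⟩

def A012R_252 :
    ∃ t, chk3 (onCell 0 67108864 0 1073741824 780900216 37827925 (corT true 1 c0B cA012R gB2q0 gB5q1 gB2q2 gB3q2 true false)) t 1 1 1 = true :=
  ⟨(T.a (T.l 816) (T.b (T.l 1) (T.b (T.l 816) (T.a (T.l 816) (T.l 816))))), by decide +kernel⟩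

def A022E_000 :
    ∃ t, chk3 (onCell 0 67108864 0 1073741824 780900216 37827925 (corT true 1 c0B cA022E gB0q0 gB0q2 gB0q2 gB1q2 true true)) t 1 1 1 = true :=
  ⟨(T.l 2), by decide +kernel⟩

def A022E_001 :
    ∃ t, chk3 (onCell 0 67108864 0 1073741824 780900216 37827925 (corT true 1 c0B cA022E gB0q0 gB0q2 gB1q2 gB2q2 true true)) t 1 1 1 = true :=
  ⟨(T.l 2), by decide +kernel⟩

def A022E_002 :
    ∃ t, chk3 (onCell 0 67108864 0 1073741824 780900216 37827925 (corT true 1 c0B cA022E gB0q0 gB0q2 gB2q2 gB3q2 true false)) t 1 1 1 = true :=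
  ⟨(T.b (T.a (T.a (T.b (T.b (T.l 204) (T.l 204)) (T.l 204)) (T.b (T.a (T.l 204) (T.b (T.b (T.l 204) (T.l 204)) (T.l 204))) (T.l 0))) (T.b (T.a (T.a (T.b (T.a (T.l 204) (T.l 204)) (T.l 204)) (T.b (T.b (T.l 204) (T.l 204)) (T.b (T.l 204) (T.l 204)))) (T.a (T.b (T.l 204) (T.l 204)) (T.b (T.l 204) (T.l 204)))) (T.a (T.b (T.b (T.l 204) (T.l 204)) (T.l 0)) (T.b (T.a (T.l 0) (T.l 0)) (T.b (T.l 0) (T.l 0)))))) (T.a (T.b (T.l 0) (T.b (T.l 816) (T.l 816))) (T.a (T.b (T.l 0) (T.b (T.l 816) (T.l 816))) (T.b (T.b (T.b (T.l 0) (T.l 0)) (T.l 0)) (T.a (T.l 816) (T.b (T.l 816) (T.l 816))))))), by decide +kernel⟩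

def A022E_010 :
    ∃ t, chk3 (onCell 0 67108864 0 1073741824 780900216 37827925 (corT true 1 c0B cA022E gB0q0 gB1q2 gB0q2 gB1q2 true true)) t 1 1 1 = true :=
  ⟨(T.l 2), by decide +kernel⟩

def A022E_011 :
    ∃ t, chk3 (onCell 0 67108864 0 1073741824 780900216 37827925 (corT true 1 c0B cA022E gB0q0 gB1q2 gB1q2 gB2q2 true true)) t 1 1 1 = true :=
  ⟨(T.l 2), by decide +kernel⟩

def A022E_012 :
    ∃ t, chk3 (onCell 0 67108864 0 1073741824 780900216 37827925 (corT true 1 c0B cA022E gB0q0 gB1q2 gB2q2 gB3q2 true false)) t 1 1 1 = true :=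
  ⟨(T.a (T.b (T.a (T.l 204) (T.b (T.l 204) (T.l 204))) (T.b (T.l 0) (T.b (T.l 0) (T.l 816)))) (T.a (T.b (T.b (T.l 204) (T.l 204)) (T.b (T.l 0) (T.l 816))) (T.b (T.b (T.a (T.l 204) (T.b (T.b (T.l 204) (T.l 204)) (T.l 204))) (T.l 0)) (T.b (T.l 0) (T.a (T.l 816) (T.b (T.l 816) (T.l 816))))))), by decide +kernel⟩

def A022E_020 :
    ∃ t, chk3 (onCell 0 67108864 0 1073741824 780900216 37827925 (corT true 1 c0B cA022E gB0q0 gB2q2 gB0q2 gB1q2 true true)) t 1 1 1 = true :=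
  ⟨(T.l 2), by decide +kernel⟩

def A022E_021 :
    ∃ t, chk3 (onCell 0 67108864 0 1073741824 780900216 37827925 (corT true 1 c0B cA022E gB0q0 gB2q2 gB1q2 gB2q2 true true)) t 1 1 1 = true :=
  ⟨(T.l 2), by decide +kernel⟩

def A022E_022 :
    ∃ t, chk3 (onCell 0 67108864 0 1073741824 780900216 37827925 (corT true 1 c0B cA022E gB0q0 gB2q2 gB2q2 gB3q2 true false)) t 1 1 1 = true :=
  ⟨(T.a (T.b (T.b (T.l 204) (T.l 0)) (T.b (T.l 0) (T.b (T.l 0) (T.l 816)))) (T.a (T.b (T.l 0) (T.b (T.l 0) (T.l 816))) (T.b (T.b (T.a (T.l 204) (T.b (T.l 204) (T.l 204))) (T.l 0)) (T.b (T.l 0) (T.a (T.l 816) (T.b (T.l 816) (T.l 816))))))), by decide +kernel⟩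

def A022E_110 :
    ∃ t, chk3 (onCell 0 67108864 0 1073741824 780900216 37827925 (corT true 1 c0B cA022E gB1q0 gB1q2 gB0q2 gB1q2 true true)) t 1 1 1 = true :=
  ⟨(T.l 2), by decide +kernel⟩

def A022E_111 :
    ∃ t, chk3 (onCell 0 67108864 0 1073741824 780900216 37827925 (corT true 1 c0B cA022E gB1q0 gB1q2 gB1q2 gB2q2 true true)) t 1 1 1 = true :=
  ⟨(T.l 2), by decide +kernel⟩

def A022E_112 :
    ∃ t, chk3 (onCell 0 67108864 0 1073741824 780900216 37827925 (corT true 1 c0B cA022E gB1q0 gB1q2 gB2q2 gB3q2 true false)) t 1 1 1 = true :=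
  ⟨(T.a (T.b (T.a (T.l 0) (T.l 0)) (T.l 0)) (T.a (T.b (T.b (T.l 204) (T.l 0)) (T.l 0)) (T.b (T.b (T.a (T.l 204) (T.b (T.b (T.l 204) (T.l 204)) (T.l 204))) (T.l 0)) (T.b (T.l 0) (T.b (T.l 816) (T.l 816)))))), by decide +kernel⟩

def A022E_120 :
    ∃ t, chk3 (onCell 0 67108864 0 1073741824 780900216 37827925 (corT true 1 c0B cA022E gB1q0 gB2q2 gB0q2 gB1q2 true true)) t 1 1 1 = true :=
  ⟨(T.l 2), by decide +kernel⟩

def A022E_121 :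
    ∃ t, chk3 (onCell 0 67108864 0 1073741824 780900216 37827925 (corT true 1 c0B cA022E gB1q0 gB2q2 gB1q2 gB2q2 true true)) t 1 1 1 = true :=
  ⟨(T.l 2), by decide +kernel⟩

def A022E_122 :
    ∃ t, chk3 (onCell 0 67108864 0 1073741824 780900216 37827925 (corT true 1 c0B cA022E gB1q0 gB2q2 gB2q2 gB3q2 true false)) t 1 1 1 = true :=
  ⟨(T.a (T.b (T.b (T.l 204) (T.l 0)) (T.l 0)) (T.a (T.b (T.l 0) (T.l 0)) (T.b (T.b (T.a (T.l 204) (T.b (T.l 204) (T.l 204))) (T.l 0)) (T.b (T.l 0) (T.l 880))))), by decide +kernel⟩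

def A022E_220 :
    ∃ t, chk3 (onCell 0 67108864 0 1073741824 780900216 37827925 (corT true 1 c0B cA022E gB2q0 gB2q2 gB0q2 gB1q2 true true)) t 1 1 1 = true :=
  ⟨(T.l 2), by decide +kernel⟩

def A022E_221 :
    ∃ t, chk3 (onCell 0 67108864 0 1073741824 780900216 37827925 (corT true 1 c0B cA022E gB2q0 gB2q2 gB1q2 gB2q2 true true)) t 1 1 1 = true :=
  ⟨(T.l 2), by decide +kernel⟩

def A022E_222 :
    ∃ t, chk3 (onCell 0 67108864 0 1073741824 780900216 37827925 (corT true 1 c0B cA022E gB2q0 gB2q2 gB2q2 gB3q2 true false)) t 1 1 1 = true :=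
  ⟨(T.a (T.b (T.b (T.l 204) (T.l 0)) (T.l 0)) (T.a (T.b (T.l 0) (T.l 0)) (T.b (T.b (T.a (T.l 204) (T.b (T.l 204) (T.l 204))) (T.l 0)) (T.b (T.l 0) (T.l 816))))), by decide +kernel⟩

def A022L_004 :
    ∃ t, chk3 (onCell 0 67108864 0 1073741824 780900216 37827925 (corX 1 c0B cA022L tA022L gB0q0 gB0q2 gB4q2 gB5q2 gB5q2 false true)) t 1 1 1 = true :=
  ⟨(T.b (T.a (T.a (T.b (T.a (T.l 207) (T.l 207)) (T.a (T.l 207) (T.l 207))) (T.b (T.a (T.l 207) (T.b (T.a (T.l 207) (T.b (T.l 204) (T.l 207))) (T.l 207))) (T.b (T.l 207) (T.l 207)))) (T.b (T.a (T.a (T.b (T.a (T.b (T.l 204) (T.l 204)) (T.b (T.l 204) (T.l 204))) (T.a (T.l 207) (T.b (T.l 204) (T.l 204)))) (T.b (T.a (T.b (T.l 204) (T.l 204)) (T.b (T.l 204) (T.l 204))) (T.b (T.b (T.l 204) (T.l 204)) (T.b (T.l 204) (T.l 204))))) (T.b (T.a (T.b (T.b (T.l 204) (T.l 204)) (T.b (T.l 204) (T.l 204))) (T.b (T.b (T.l 204)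 (T.l 204)) (T.b (T.l 204) (T.l 204)))) (T.a (T.b (T.l 220) (T.l 220)) (T.b (T.l 204) (T.l 204))))) (T.a (T.b (T.a (T.l 207) (T.b (T.b (T.l 204) (T.l 204)) (T.b (T.l 204) (T.l 207)))) (T.l 207)) (T.b (T.a (T.b (T.b (T.l 204) (T.l 204)) (T.b (T.l 204) (T.l 204))) (T.b (T.l 204) (T.l 220))) (T.b (T.a (T.b (T.l 204) (T.l 204)) (T.b (T.l 204) (T.l 204))) (T.a (T.l 207) (T.b (T.l 204) (T.l 204)))))))) (T.b (T.a (T.a (T.a (T.l 207) (T.l 207)) (T.b (T.l 207) (T.l 207))) (T.b (T.a (T.l 207) (T.b (T.a (T.l 207) (T.b (T.l 204) (T.l 207))) (T.l 207))) (T.b (T.l 207) (T.l 2)))) (T.l 2))), by decide +kernel⟩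

def A022L_014 :
    ∃ t, chk3 (onCell 0 67108864 0 1073741824 780900216 37827925 (corT true 1 c0B cA022L gB0q0 gB1q2 gB4q2 gB5q2 false true)) t 1 1 1 = true :=
  ⟨(T.b (T.b (T.b (T.a (T.l 204) (T.a (T.l 204) (T.b (T.l 204) (T.l 204)))) (T.l 204)) (T.b (T.l 204) (T.l 16))) (T.b (T.b (T.b (T.l 0) (T.a (T.l 0) (T.l 0))) (T.l 2)) (T.l 2))), by decide +kernel⟩

def A022L_024 :
    ∃ t, chk3 (onCell 0 67108864 0 1073741824 780900216 37827925 (corT true 1 c0B cA022L gB0q0 gB2q2 gB4q2 gB5q2 false true)) t 1 1 1 = true :=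
  ⟨(T.b (T.b (T.b (T.a (T.l 204) (T.a (T.l 204) (T.l 0))) (T.l 204)) (T.b (T.l 204) (T.l 2))) (T.l 2)), by decide +kernel⟩

def A022L_114 :
    ∃ t, chk3 (onCell 0 67108864 0 1073741824 780900216 37827925 (corT true 1 c0B cA022L gB1q0 gB1q2 gB4q2 gB5q2 false true)) t 1 1 1 = true :=
  ⟨(T.b (T.b (T.b (T.a (T.l 204) (T.a (T.l 204) (T.l 0))) (T.l 204)) (T.l 0)) (T.b (T.l 2) (T.l 2))), by decide +kernel⟩

def A022L_124 :
    ∃ t, chk3 (onCell 0 67108864 0 1073741824 780900216 37827925 (corT true 1 c0B cA022L gB1q0 gB2q2 gB4q2 gB5q2 false true)) t 1 1 1 = true :=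
  ⟨(T.b (T.b (T.b (T.a (T.l 204) (T.a (T.l 204) (T.l 0))) (T.l 204)) (T.l 0)) (T.l 2)), by decide +kernel⟩

def A022L_224 :
    ∃ t, chk3 (onCell 0 67108864 0 1073741824 780900216 37827925 (corT true 1 c0B cA022L gB2q0 gB2q2 gB4q2 gB5q2 false true)) t 1 1 1 = true :=
  ⟨(T.b (T.b (T.b (T.a (T.l 204) (T.a (T.l 204) (T.l 0))) (T.l 0)) (T.l 2)) (T.l 2)), by decide +kernel⟩

def A022R_050 :
    ∃ t, chk3 (onCell 0 67108864 0 1073741824 780900216 37827925 (corT true 1 c0B cA022R gB0q0 gB5q2 gB0q2 gB1q2 true true)) t 1 1 1 = true :=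
  ⟨(T.l 2), by decide +kernel⟩

def A022R_051 :
    ∃ t, chk3 (onCell 0 67108864 0 1073741824 780900216 37827925 (corT true 1 c0B cA022R gB0q0 gB5q2 gB1q2 gB2q2 true true)) t 1 1 1 = true :=
  ⟨(T.l 2), by decide +kernel⟩

def A022R_052 :
    ∃ t, chk3 (onCell 0 67108864 0 1073741824 780900216 37827925 (corT true 1 c0B cA022R gB0q0 gB5q2 gB2q2 gB3q2 true false)) t 1 1 1 = true :=
  ⟨(T.a (T.b (T.l 0) (T.l 816)) (T.a (T.l 0) (T.b (T.l 0) (T.l 816)))), by decide +kernel⟩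

def A022R_150 :
    ∃ t, chk3 (onCell 0 67108864 0 1073741824 780900216 37827925 (corT true 1 c0B cA022R gB1q0 gB5q2 gB0q2 gB1q2 true true)) t 1 1 1 = true :=
  ⟨(T.l 2), by decide +kernel⟩

def A022R_151 :
    ∃ t, chk3 (onCell 0 67108864 0 1073741824 780900216 37827925 (corT true 1 c0B cA022R gB1q0 gB5q2 gB1q2 gB2q2 true true)) t 1 1 1 = true :=
  ⟨(T.l 2), by decide +kernel⟩

def A022R_152 :
    ∃ t, chk3 (onCell 0 67108864 0 1073741824 780900216 37827925 (corT true 1 c0B cA022R gB1q0 gB5q2 gB2q2 gB3q2 true false)) t 1 1 1 = true :=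
  ⟨(T.a (T.l 0) (T.b (T.l 0) (T.a (T.l 816) (T.b (T.l 816) (T.l 816))))), by decide +kernel⟩

def A022R_250 :
    ∃ t, chk3 (onCell 0 67108864 0 1073741824 780900216 37827925 (corT true 1 c0B cA022R gB2q0 gB5q2 gB0q2 gB1q2 true true)) t 1 1 1 = true :=
  ⟨(T.l 2), by decide +kernel⟩

def A022R_251 :
    ∃ t, chk3 (onCell 0 67108864 0 1073741824 780900216 37827925 (corT true 1 c0B cA022R gB2q0 gB5q2 gB1q2 gB2q2 true true)) t 1 1 1 = true :=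
  ⟨(T.a (T.l 0) (T.l 2)), by decide +kernel⟩

def A022R_252 :
    ∃ t, chk3 (onCell 0 67108864 0 1073741824 780900216 37827925 (corT true 1 c0B cA022R gB2q0 gB5q2 gB2q2 gB3q2 true false)) t 1 1 1 = true :=
  ⟨(T.a (T.l 0) (T.b (T.l 0) (T.a (T.l 816) (T.b (T.l 816) (T.l 816))))), by decide +kernel⟩

def A101E_000 :
    ∃ t, chk3 (onCell 0 67108864 0 1073741824 780900216 37827925 (corT true 1 c0B cA101E gB0q1 gB0q0 gB0q1 gB1q1 true false)) t 1 1 1 = true :=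
  ⟨(T.l 1), by decide +kernel⟩

def A101E_010 :
    ∃ t, chk3 (onCell 0 67108864 0 1073741824 780900216 37827925 (corT true 1 c0B cA101E gB0q1 gB1q0 gB0q1 gB1q1 true false)) t 1 1 1 = true :=
  ⟨(T.l 1), by decide +kernel⟩

def A101E_020 :
    ∃ t, chk3 (onCell 0 67108864 0 1073741824 780900216 37827925 (corT true 1 c0B cA101E gB0q1 gB2q0 gB0q1 gB1q1 true false)) t 1 1 1 = true :=
  ⟨(T.l 1), by decide +kernel⟩

def A101R_002 :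
    ∃ t, chk3 (onCell 0 67108864 0 1073741824 780900216 37827925 (corT true 1 c0B cA101R gB0q1 gB0q0 gB2q1 gB3q1 false true)) t 1 1 1 = true :=
  ⟨(T.l 2), by decide +kernel⟩

def A101R_003 :
    ∃ t, chk3 (onCell 0 67108864 0 1073741824 780900216 37827925 (corT true 1 c0B cA101R gB0q1 gB0q0 gB3q1 gB4q1 true true)) t 1 1 1 = true :=
  ⟨(T.l 2), by decide +kernel⟩

def A101R_004 :
    ∃ t, chk3 (onCell 0 67108864 0 1073741824 780900216 37827925 (corT true 1 c0B cA101R gB0q1 gB0q0 gB4q1 gB5q1 true true)) t 1 1 1 = true :=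
  ⟨(T.l 2), by decide +kernel⟩

def A101R_012 :
    ∃ t, chk3 (onCell 0 67108864 0 1073741824 780900216 37827925 (corT true 1 c0B cA101R gB0q1 gB1q0 gB2q1 gB3q1 false true)) t 1 1 1 = true :=
  ⟨(T.l 2), by decide +kernel⟩

def A101R_013 :
    ∃ t, chk3 (onCell 0 67108864 0 1073741824 780900216 37827925 (corT true 1 c0B cA101R gB0q1 gB1q0 gB3q1 gB4q1 true true)) t 1 1 1 = true :=
  ⟨(T.l 2), by decide +kernel⟩

def A101R_014 :
    ∃ t, chk3 (onCell 0 67108864 0 1073741824 780900216 37827925 (corT true 1 c0B cA101R gB0q1 gB1q0 gB4q1 gB5q1 true true)) t 1 1 1 = true :=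
  ⟨(T.l 2), by decide +kernel⟩

def A101R_022 :
    ∃ t, chk3 (onCell 0 67108864 0 1073741824 780900216 37827925 (corT true 1 c0B cA101R gB0q1 gB2q0 gB2q1 gB3q1 false true)) t 1 1 1 = true :=
  ⟨(T.l 2), by decide +kernel⟩

def A101R_023 :
    ∃ t, chk3 (onCell 0 67108864 0 1073741824 780900216 37827925 (corT true 1 c0B cA101R gB0q1 gB2q0 gB3q1 gB4q1 true true)) t 1 1 1 = true :=
  ⟨(T.l 2), by decide +kernel⟩

def A101R_024 :
    ∃ t, chk3 (onCell 0 67108864 0 1073741824 780900216 37827925 (corT true 1 c0B cA101R gB0q1 gB2q0 gB4q1 gB5q1 true true)) t 1 1 1 = true :=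
  ⟨(T.l 2), by decide +kernel⟩

def A102E_000_1_2_1 :
    ∃ t, chk3 (onCell 0 67108864 0 1073741824 780900216 37827925 (corX 1 c0B cA102E tA102E gB0q1 gB0q0 gB0q2 gB1q2 gB0q2 true true)) t 1 2 1 = true :=
  ⟨(T.b (T.l 2) (T.b (T.l 2) (T.b (T.l 2) (T.a (T.a (T.b (T.a (T.a (T.l 3) (T.l 3)) (T.a (T.l 819) (T.l 819))) (T.a (T.a (T.l 3) (T.l 3)) (T.a (T.l 819) (T.l 819)))) (T.b (T.a (T.a (T.l 819) (T.l 819)) (T.a (T.l 819) (T.l 819))) (T.a (T.a (T.c (T.l 819) (T.l 819)) (T.c (T.l 819) (T.l 819))) (T.a (T.c (T.l 819) (T.l 819)) (T.c (T.l 819) (T.l 819)))))) (T.b (T.b (T.l 2) (T.a (T.a (T.c (T.l 819) (T.l 819)) (T.c (T.l 819) (T.l 819))) (T.b (T.l 2) (T.a (T.c (T.l 819) (T.l 819)) (T.a (T.a (T.l 819) (T.c (T.c (T.l 816) (T.l 816)) (T.l 816))) (T.a (T.c (T.c (T.l 816) (T.l 816)) (T.l 816)) (T.l 820))))))) (T.a (T.a (T.a (T.c (T.l 819) (T.l 819)) (T.c (T.l 819)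 (T.l 819))) (T.a (T.c (T.l 819) (T.l 819)) (T.c (T.l 819) (T.l 819)))) (T.a (T.a (T.c (T.l 819) (T.l 819)) (T.c (T.l 819) (T.l 819))) (T.a (T.c (T.l 819) (T.l 819)) (T.b (T.a (T.c (T.b (T.c (T.l 816) (T.l 816)) (T.c (T.l 820) (T.l 816))) (T.b (T.l 816) (T.c (T.l 816) (T.l 816)))) (T.b (T.c (T.l 816) (T.l 816)) (T.c (T.l 816) (T.l 816)))) (T.a (T.b (T.a (T.l 819) (T.c (T.c (T.l 816) (T.l 816)) (T.l 816))) (T.l 819)) (T.c (T.b (T.c (T.c (T.l 816) (T.l 816)) (T.l 820)) (T.c (T.a (T.l 820) (T.l 816)) (T.c (T.l 816) (T.l 816)))) (T.b (T.c (T.l 816) (T.l 816)) (T.c (T.c (T.l 816) (T.l 816)) (T.l 816)))))))))))))), by decide +kernel⟩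

def A102E_000_1_3_1 :
    ∃ t, chk3 (onCell 0 67108864 0 1073741824 780900216 37827925 (corX 1 c0B cA102E tA102E gB0q1 gB0q0 gB0q2 gB1q2 gB0q2 true true)) t 1 3 1 = true :=
  ⟨(T.b (T.b (T.b (T.b (T.a (T.b (T.a (T.b (T.a (T.c (T.l 3) (T.l 3)) (T.c (T.l 819) (T.l 819))) (T.l 1)) (T.a (T.a (T.l 819) (T.l 819)) (T.a (T.l 819) (T.l 819)))) (T.l 1)) (T.a (T.b (T.a (T.a (T.l 819) (T.l 819)) (T.a (T.l 823) (T.l 823))) (T.b (T.a (T.l 1) (T.a (T.l 819) (T.l 819))) (T.l 1))) (T.b (T.a (T.a (T.l 823) (T.c (T.l 819) (T.l 819))) (T.a (T.c (T.l 819) (T.l 819)) (T.a (T.l 819) (T.b (T.b (T.a (T.l 819) (T.c (T.c (T.l 816) (T.l 816)) (T.l 816))) (T.l 819)) (T.l 819))))) (T.b (T.a (T.a (T.l 819) (T.l 819)) (T.a (T.l 819) (T.l 819))) (T.a (T.l 1) (T.a (T.l 1) (T.l 823))))))) (T.l 1)) (T.l 1)) (T.l 1)) (T.l 1)), by decide +kernel⟩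

theorem A102E_000 :
    ∃ t, chk3 (onCell 0 67108864 0 1073741824 780900216 37827925 (corX 1 c0B cA102E tA102E gB0q1 gB0q0 gB0q2 gB1q2 gB0q2 true true)) t 1 1 1 = true :=
  ex3_b A102E_000_1_2_1 A102E_000_1_3_1

def A102E_001_1_4_1 :
    ∃ t, chk3 (onCell 0 67108864 0 1073741824 780900216 37827925 (corT true 1 c0B cA102E gB0q1 gB0q0 gB1q2 gB2q2 true true)) t 1 4 1 = true :=
  ⟨(T.l 2), by decide +kernel⟩

def A102E_001_1_10_1 :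
    ∃ t, chk3 (onCell 0 67108864 0 1073741824 780900216 37827925 (corT true 1 c0B cA102E gB0q1 gB0q0 gB1q2 gB2q2 true true)) t 1 10 1 = true :=
  ⟨(T.b (T.l 2) (T.a (T.b (T.b (T.l 2) (T.c (T.l 220) (T.a (T.l 204) (T.l 204)))) (T.c (T.a (T.l 204) (T.l 204)) (T.a (T.a (T.l 204) (T.l 204)) (T.a (T.l 204) (T.l 204))))) (T.b (T.a (T.a (T.c (T.l 204) (T.l 204)) (T.l 2)) (T.l 2)) (T.a (T.c (T.l 204) (T.a (T.l 204) (T.l 204))) (T.c (T.a (T.l 204) (T.l 204)) (T.a (T.l 204) (T.l 220))))))), by decide +kernel⟩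

def A102E_001_1_11_1 :
    ∃ t, chk3 (onCell 0 67108864 0 1073741824 780900216 37827925 (corT true 1 c0B cA102E gB0q1 gB0q0 gB1q2 gB2q2 true true)) t 1 11 1 = true :=
  ⟨(T.b (T.a (T.b (T.a (T.c (T.a (T.l 204) (T.l 204)) (T.b (T.l 204) (T.l 204))) (T.c (T.l 204) (T.a (T.l 204) (T.l 204)))) (T.a (T.c (T.b (T.l 204) (T.a (T.l 204) (T.l 204))) (T.b (T.a (T.l 204) (T.l 204)) (T.a (T.c (T.l 204) (T.l 204)) (T.l 204)))) (T.c (T.a (T.l 204) (T.l 204)) (T.a (T.l 0) (T.l 0))))) (T.b (T.a (T.c (T.l 204) (T.l 204)) (T.c (T.l 204) (T.l 204))) (T.a (T.c (T.l 204) (T.l 0)) (T.c (T.l 204) (T.l 0))))) (T.b (T.a (T.b (T.a (T.b (T.a (T.c (T.c (T.l 0) (T.l 0)) (T.c (T.l 0) (T.l 0))) (T.c (T.l 0) (T.l 0))) (T.b (T.a (T.b (T.a (T.a (T.l 1) (T.c (T.l 0) (T.l 816))) (T.l 0)) (T.a (T.l 1) (T.a (T.l 1) (T.a (T.l 1) (T.l 820))))) (T.c (T.c (T.l 0) (T.l 0)) (T.l 0))) (T.a (T.l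 1) (T.a (T.l 1) (T.b (T.b (T.l 816) (T.l 1)) (T.l 1)))))) (T.b (T.c (T.l 0) (T.l 0)) (T.a (T.b (T.l 0) (T.c (T.a (T.c (T.a (T.b (T.l 816) (T.l 1)) (T.l 816)) (T.l 816)) (T.l 816)) (T.l 816))) (T.c (T.l 0) (T.l 0))))) (T.a (T.l 1) (T.b (T.a (T.l 1) (T.b (T.c (T.a (T.b (T.l 816) (T.l 1)) (T.l 816)) (T.c (T.l 816) (T.l 816))) (T.l 1))) (T.l 1)))) (T.b (T.a (T.b (T.l 0) (T.c (T.l 0) (T.l 0))) (T.c (T.l 0) (T.l 0))) (T.a (T.b (T.a (T.b (T.l 816) (T.b (T.c (T.a (T.l 820) (T.l 816)) (T.l 816)) (T.l 1))) (T.c (T.l 0) (T.l 816))) (T.a (T.l 1) (T.b (T.a (T.l 1) (T.b (T.l 816) (T.l 1))) (T.l 1)))) (T.a (T.b (T.l 0) (T.b (T.c (T.l 816) (T.l 816)) (T.l 1))) (T.c (T.a (T.c (T.l 4) (T.l 0)) (T.l 0)) (T.l 816)))))) (T.a (T.l 1) (T.l 1)))), by decide +kernel⟩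

def A102E_001_1_3_1 :
    ∃ t, chk3 (onCell 0 67108864 0 1073741824 780900216 37827925 (corT true 1 c0B cA102E gB0q1 gB0q0 gB1q2 gB2q2 true true)) t 1 3 1 = true :=
  ⟨(T.l 1), by decide +kernel⟩

theorem A102E_001_1_5_1 :
    ∃ t, chk3 (onCell 0 67108864 0 1073741824 780900216 37827925 (corT true 1 c0B cA102E gB0q1 gB0q0 gB1q2 gB2q2 true true)) t 1 5 1 = true :=
  ex3_b A102E_001_1_10_1 A102E_001_1_11_1
theorem A102E_001_1_2_1 :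
    ∃ t, chk3 (onCell 0 67108864 0 1073741824 780900216 37827925 (corT true 1 c0B cA102E gB0q1 gB0q0 gB1q2 gB2q2 true true)) t 1 2 1 = true :=
  ex3_b A102E_001_1_4_1 A102E_001_1_5_1
theorem A102E_001 :
    ∃ t, chk3 (onCell 0 67108864 0 1073741824 780900216 37827925 (corT true 1 c0B cA102E gB0q1 gB0q0 gB1q2 gB2q2 true true)) t 1 1 1 = true :=
  ex3_b A102E_001_1_2_1 A102E_001_1_3_1

def A102E_002 :
    ∃ t, chk3 (onCell 0 67108864 0 1073741824 780900216 37827925 (corT true 1 c0B cA102E gB0q1 gB0q0 gB2q2 gB3q2 true false)) t 1 1 1 = true :=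
  ⟨(T.b (T.b (T.b (T.a (T.b (T.l 204) (T.a (T.l 204) (T.l 204))) (T.a (T.b (T.l 204) (T.l 204)) (T.b (T.a (T.l 204) (T.b (T.l 204) (T.l 204))) (T.l 204)))) (T.a (T.b (T.a (T.l 204) (T.l 204)) (T.a (T.l 204) (T.l 204))) (T.b (T.a (T.l 204) (T.b (T.l 204) (T.l 204))) (T.a (T.b (T.l 204) (T.l 204)) (T.b (T.l 204) (T.l 204)))))) (T.b (T.b (T.a (T.b (T.a (T.l 204) (T.l 204)) (T.a (T.l 204) (T.l 204))) (T.b (T.a (T.l 204) (T.l 204)) (T.a (T.l 204) (T.l 220)))) (T.a (T.b (T.c (T.l 204) (T.a (T.l 204) (T.l 204))) (T.a (T.l 1) (T.a (T.l 1) (T.l 1)))) (T.b (T.c (T.a (T.l 204) (T.l 204)) (T.a (T.l 204) (T.l 204))) (T.b (T.c (T.l 204) (T.a (T.l 204) (T.l 204))) (T.l 1))))) (T.l 1))) (T.l 1)), by decide +kernel⟩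

def A102E_010 :
    ∃ t, chk3 (onCell 0 67108864 0 1073741824 780900216 37827925 (corT true 1 c0B cA102E gB0q1 gB1q0 gB0q2 gB1q2 true true)) t 1 1 1 = true :=
  ⟨(T.b (T.l 2) (T.b (T.b (T.b (T.b (T.l 2) (T.a (T.l 204) (T.a (T.l 204) (T.l 2)))) (T.b (T.a (T.a (T.c (T.l 204) (T.l 204)) (T.l 204)) (T.a (T.l 204) (T.a (T.l 204) (T.l 204)))) (T.b (T.a (T.a (T.c (T.b (T.l 204) (T.b (T.a (T.l 204) (T.l 204)) (T.l 1))) (T.l 204)) (T.c (T.l 204) (T.l 204))) (T.a (T.l 204) (T.a (T.l 204) (T.l 204)))) (T.a (T.l 1) (T.b (T.a (T.l 204) (T.a (T.l 204) (T.c (T.l 204) (T.l 204)))) (T.l 1)))))) (T.l 1)) (T.l 1))), by decide +kernel⟩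

def A102E_011 :
    ∃ t, chk3 (onCell 0 67108864 0 1073741824 780900216 37827925 (corT true 1 c0B cA102E gB0q1 gB1q0 gB1q2 gB2q2 true true)) t 1 1 1 = true :=
  ⟨(T.b (T.b (T.l 2) (T.b (T.l 2) (T.a (T.l 204) (T.b (T.l 2) (T.l 204))))) (T.b (T.b (T.b (T.a (T.l 204) (T.a (T.l 204) (T.l 204))) (T.b (T.b (T.a (T.l 1) (T.a (T.l 204) (T.l 204))) (T.l 1)) (T.l 1))) (T.l 1)) (T.l 1))), by decide +kernel⟩

def A102E_012 :
    ∃ t, chk3 (onCell 0 67108864 0 1073741824 780900216 37827925 (corT true 1 c0B cA102E gB0q1 gB1q0 gB2q2 gB3q2 true false)) t 1 1 1 = true :=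
  ⟨(T.b (T.a (T.b (T.l 204) (T.l 204)) (T.b (T.a (T.l 204) (T.b (T.b (T.l 204) (T.l 204)) (T.l 204))) (T.a (T.l 204) (T.l 204)))) (T.b (T.l 1) (T.l 1))), by decide +kernel⟩

def A102E_020 :
    ∃ t, chk3 (onCell 0 67108864 0 1073741824 780900216 37827925 (corT true 1 c0B cA102E gB0q1 gB2q0 gB0q2 gB1q2 true true)) t 1 1 1 = true :=
  ⟨(T.b (T.l 2) (T.b (T.b (T.l 2) (T.b (T.l 2) (T.a (T.l 204) (T.b (T.l 2) (T.a (T.a (T.l 204) (T.l 204)) (T.a (T.l 204) (T.l 204))))))) (T.b (T.b (T.b (T.b (T.a (T.l 204) (T.b (T.b (T.b (T.a (T.a (T.l 204) (T.l 204)) (T.a (T.l 204) (T.l 204))) (T.a (T.a (T.l 204) (T.l 204)) (T.a (T.l 204) (T.l 204)))) (T.a (T.l 1) (T.a (T.l 204) (T.l 204)))) (T.l 1))) (T.l 1)) (T.l 1)) (T.l 1)) (T.l 1)))), by decide +kernel⟩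

def A102E_021 :
    ∃ t, chk3 (onCell 0 67108864 0 1073741824 780900216 37827925 (corT true 1 c0B cA102E gB0q1 gB2q0 gB1q2 gB2q2 true true)) t 1 1 1 = true :=
  ⟨(T.b (T.l 2) (T.b (T.b (T.l 2) (T.b (T.a (T.l 204) (T.a (T.l 204) (T.l 204))) (T.a (T.l 204) (T.a (T.a (T.l 204) (T.l 204)) (T.a (T.l 204) (T.l 204)))))) (T.l 1))), by decide +kernel⟩

def A102E_022 :
    ∃ t, chk3 (onCell 0 67108864 0 1073741824 780900216 37827925 (corT true 1 c0B cA102E gB0q1 gB2q0 gB2q2 gB3q2 true false)) t 1 1 1 = true :=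
  ⟨(T.b (T.a (T.l 204) (T.b (T.a (T.l 204) (T.b (T.l 204) (T.l 204))) (T.l 204))) (T.b (T.a (T.b (T.l 204) (T.l 204)) (T.b (T.a (T.l 204) (T.l 204)) (T.b (T.a (T.l 204) (T.l 204)) (T.l 1)))) (T.l 1))), by decide +kernel⟩

def A102R_004 :
    ∃ t, chk3 (onCell 0 67108864 0 1073741824 780900216 37827925 (corT true 1 c0B cA102R gB0q1 gB0q0 gB4q2 gB5q2 false true)) t 1 1 1 = true :=
  ⟨(T.l 2), by decide +kernel⟩

def A102R_014 :
    ∃ t, chk3 (onCell 0 67108864 0 1073741824 780900216 37827925 (corT true 1 c0B cA102R gB0q1 gB1q0 gB4q2 gB5q2 false true)) t 1 1 1 = true :=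
  ⟨(T.l 2), by decide +kernel⟩

def A102R_024 :
    ∃ t, chk3 (onCell 0 67108864 0 1073741824 780900216 37827925 (corT true 1 c0B cA102R gB0q1 gB2q0 gB4q2 gB5q2 false true)) t 1 1 1 = true :=
  ⟨(T.l 2), by decide +kernel⟩

def A202E_000 :
    ∃ t, chk3 (onCell 0 67108864 0 1073741824 780900216 37827925 (corT true 1 c0B cA202E gB0q2 gB0q0 gB0q2 gB1q2 true true)) t 1 1 1 = true :=
  ⟨(T.l 2), by decide +kernel⟩

def A202E_001 :
    ∃ t, chk3 (onCell 0 67108864 0 1073741824 780900216 37827925 (corT true 1 c0B cA202E gB0q2 gB0q0 gB1q2 gB2q2 true true)) t 1 1 1 = true :=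
  ⟨(T.l 2), by decide +kernel⟩

def A202E_002 :
    ∃ t, chk3 (onCell 0 67108864 0 1073741824 780900216 37827925 (corT true 1 c0B cA202E gB0q2 gB0q0 gB2q2 gB3q2 true false)) t 1 1 1 = true :=
  ⟨(T.b (T.a (T.b (T.b (T.l 204) (T.l 204)) (T.l 0)) (T.a (T.b (T.b (T.l 204) (T.l 204)) (T.l 0)) (T.b (T.b (T.a (T.l 204) (T.l 204)) (T.l 204)) (T.b (T.l 0) (T.b (T.l 0) (T.l 0)))))) (T.a (T.a (T.b (T.l 816) (T.b (T.l 816) (T.l 816))) (T.b (T.l 0) (T.a (T.l 816) (T.b (T.l 816) (T.a (T.l 816) (T.l 816)))))) (T.b (T.a (T.b (T.l 0) (T.b (T.l 816) (T.l 816))) (T.b (T.b (T.l 0) (T.l 64)) (T.a (T.l 0) (T.l 0)))) (T.a (T.a (T.b (T.l 816) (T.a (T.l 816) (T.l 816))) (T.b (T.b (T.l 816) (T.l 816)) (T.b (T.l 816) (T.l 816)))) (T.a (T.b (T.l 816) (T.b (T.l 816) (T.l 816))) (T.b (T.l 816) (T.b (T.l 816) (T.l 816)))))))), by decide +kernel⟩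

def A202E_010 :
    ∃ t, chk3 (onCell 0 67108864 0 1073741824 780900216 37827925 (corT true 1 c0B cA202E gB0q2 gB1q0 gB0q2 gB1q2 true true)) t 1 1 1 = true :=
  ⟨(T.l 2), by decide +kernel⟩

def A202E_011 :
    ∃ t, chk3 (onCell 0 67108864 0 1073741824 780900216 37827925 (corT true 1 c0B cA202E gB0q2 gB1q0 gB1q2 gB2q2 true true)) t 1 1 1 = true :=
  ⟨(T.l 2), by decide +kernel⟩

def A202E_012 :
    ∃ t, chk3 (onCell 0 67108864 0 1073741824 780900216 37827925 (corT true 1 c0B cA202E gB0q2 gB1q0 gB2q2 gB3q2 true false)) t 1 1 1 = true :=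
  ⟨(T.a (T.b (T.b (T.l 204) (T.l 0)) (T.a (T.b (T.l 0) (T.b (T.l 816) (T.l 816))) (T.b (T.l 0) (T.a (T.l 816) (T.b (T.l 816) (T.a (T.l 816) (T.l 816))))))) (T.b (T.a (T.l 0) (T.b (T.b (T.l 204) (T.l 204)) (T.b (T.l 204) (T.l 0)))) (T.b (T.a (T.b (T.l 0) (T.b (T.l 816) (T.l 816))) (T.b (T.b (T.l 0) (T.l 0)) (T.b (T.l 0) (T.l 0)))) (T.a (T.b (T.a (T.l 816) (T.l 816)) (T.a (T.a (T.l 816) (T.l 816)) (T.b (T.l 816) (T.l 816)))) (T.b (T.a (T.l 816) (T.l 0)) (T.a (T.b (T.l 816) (T.l 816)) (T.b (T.l 816) (T.l 816)))))))), by decide +kernel⟩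

def A202E_020 :
    ∃ t, chk3 (onCell 0 67108864 0 1073741824 780900216 37827925 (corT true 1 c0B cA202E gB0q2 gB2q0 gB0q2 gB1q2 true true)) t 1 1 1 = true :=
  ⟨(T.l 2), by decide +kernel⟩

def A202E_021 :
    ∃ t, chk3 (onCell 0 67108864 0 1073741824 780900216 37827925 (corT true 1 c0B cA202E gB0q2 gB2q0 gB1q2 gB2q2 true true)) t 1 1 1 = true :=
  ⟨(T.l 2), by decide +kernel⟩

def A202E_022 :
    ∃ t, chk3 (onCell 0 67108864 0 1073741824 780900216 37827925 (corT true 1 c0B cA202E gB0q2 gB2q0 gB2q2 gB3q2 true false)) t 1 1 1 = true :=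
  ⟨(T.b (T.a (T.l 0) (T.a (T.l 204) (T.b (T.l 204) (T.b (T.l 204) (T.l 204))))) (T.a (T.a (T.b (T.l 0) (T.b (T.l 816) (T.l 816))) (T.b (T.l 0) (T.a (T.l 816) (T.b (T.l 816) (T.a (T.l 816) (T.l 816)))))) (T.b (T.a (T.b (T.l 0) (T.l 0)) (T.b (T.l 0) (T.b (T.l 0) (T.l 0)))) (T.a (T.b (T.a (T.l 816) (T.l 0)) (T.a (T.a (T.l 816) (T.l 816)) (T.b (T.l 816) (T.l 816)))) (T.b (T.b (T.l 0) (T.l 0)) (T.a (T.b (T.l 816) (T.l 816)) (T.b (T.l 816) (T.l 816)))))))), by decide +kernel⟩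

def A202E_110 :
    ∃ t, chk3 (onCell 0 67108864 0 1073741824 780900216 37827925 (corT true 1 c0B cA202E gB1q2 gB1q0 gB0q2 gB1q2 true true)) t 1 1 1 = true :=
  ⟨(T.l 2), by decide +kernel⟩

def A202E_111 :
    ∃ t, chk3 (onCell 0 67108864 0 1073741824 780900216 37827925 (corT true 1 c0B cA202E gB1q2 gB1q0 gB1q2 gB2q2 true true)) t 1 1 1 = true :=
  ⟨(T.l 2), by decide +kernel⟩

def A202E_112 :
    ∃ t, chk3 (onCell 0 67108864 0 1073741824 780900216 37827925 (corT true 1 c0B cA202E gB1q2 gB1q0 gB2q2 gB3q2 true false)) t 1 1 1 = true :=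
  ⟨(T.a (T.b (T.l 0) (T.a (T.l 64) (T.b (T.l 0) (T.l 816)))) (T.a (T.b (T.l 0) (T.b (T.l 0) (T.l 816))) (T.b (T.b (T.b (T.l 204) (T.l 204)) (T.l 0)) (T.b (T.l 0) (T.a (T.l 816) (T.b (T.l 816) (T.b (T.l 816) (T.l 880)))))))), by decide +kernel⟩

def A202E_120 :
    ∃ t, chk3 (onCell 0 67108864 0 1073741824 780900216 37827925 (corT true 1 c0B cA202E gB1q2 gB2q0 gB0q2 gB1q2 true true)) t 1 1 1 = true :=
  ⟨(T.l 2), by decide +kernel⟩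

def A202E_121 :
    ∃ t, chk3 (onCell 0 67108864 0 1073741824 780900216 37827925 (corT true 1 c0B cA202E gB1q2 gB2q0 gB1q2 gB2q2 true true)) t 1 1 1 = true :=
  ⟨(T.l 2), by decide +kernel⟩

def A202E_122 :
    ∃ t, chk3 (onCell 0 67108864 0 1073741824 780900216 37827925 (corT true 1 c0B cA202E gB1q2 gB2q0 gB2q2 gB3q2 true false)) t 1 1 1 = true :=
  ⟨(T.a (T.b (T.l 0) (T.b (T.l 0) (T.b (T.l 816) (T.l 816)))) (T.a (T.b (T.l 0) (T.b (T.l 0) (T.l 816))) (T.b (T.b (T.l 204) (T.l 0)) (T.b (T.l 0) (T.a (T.l 816) (T.b (T.l 816) (T.a (T.l 816) (T.l 816)))))))), by decide +kernel⟩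

def A202E_220 :
    ∃ t, chk3 (onCell 0 67108864 0 1073741824 780900216 37827925 (corT true 1 c0B cA202E gB2q2 gB2q0 gB0q2 gB1q2 true true)) t 1 1 1 = true :=
  ⟨(T.l 2), by decide +kernel⟩

def A202E_221 :
    ∃ t, chk3 (onCell 0 67108864 0 1073741824 780900216 37827925 (corT true 1 c0B cA202E gB2q2 gB2q0 gB1q2 gB2q2 true true)) t 1 1 1 = true :=
  ⟨(T.l 2), by decide +kernel⟩

def A202E_222 :
    ∃ t, chk3 (onCell 0 67108864 0 1073741824 780900216 37827925 (corT true 1 c0B cA202E gB2q2 gB2q0 gB2q2 gB3q2 true false)) t 1 1 1 = true :=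
  ⟨(T.a (T.b (T.l 0) (T.b (T.l 0) (T.l 816))) (T.a (T.b (T.l 0) (T.b (T.l 0) (T.l 816))) (T.b (T.b (T.l 204) (T.l 0)) (T.b (T.l 0) (T.a (T.l 816) (T.b (T.l 816) (T.l 816))))))), by decide +kernel⟩

def A202R_004 :
    ∃ t, chk3 (onCell 0 67108864 0 1073741824 780900216 37827925 (corX 1 c0B cA202R tA202R gB0q2 gB0q0 gB4q2 gB5q2 gB5q2 false true)) t 1 1 1 = true :=
  ⟨(T.b (T.b (T.l 2) (T.a (T.a (T.a (T.l 819) (T.l 819)) (T.b (T.l 819) (T.l 819))) (T.b (T.b (T.l 2) (T.l 819)) (T.a (T.l 819) (T.b (T.l 819) (T.a (T.l 819) (T.b (T.l 819) (T.l 816)))))))) (T.a (T.a (T.a (T.a (T.l 819) (T.l 819)) (T.a (T.l 819) (T.l 819))) (T.b (T.a (T.l 819) (T.l 819)) (T.a (T.b (T.l 819) (T.l 819)) (T.b (T.l 819) (T.a (T.l 819) (T.b (T.l 819) (T.l 816))))))) (T.b (T.a (T.b (T.l 819) (T.a (T.l 819) (T.b (T.b (T.l 819) (T.l 816)) (T.b (T.l 816) (T.l 816))))) (T.b (T.b (T.a (T.l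 819) (T.b (T.l 816) (T.l 816))) (T.a (T.b (T.l 816) (T.l 816)) (T.b (T.l 816) (T.l 816)))) (T.a (T.b (T.b (T.l 816) (T.l 816)) (T.b (T.l 816) (T.l 816))) (T.b (T.b (T.l 816) (T.l 816)) (T.l 880))))) (T.a (T.a (T.b (T.a (T.l 819) (T.b (T.l 816) (T.l 816))) (T.a (T.b (T.l 816) (T.l 816)) (T.b (T.l 816) (T.l 816)))) (T.b (T.b (T.b (T.l 816) (T.l 816)) (T.b (T.l 816) (T.l 816))) (T.a (T.b (T.l 816) (T.l 816)) (T.b (T.l 816) (T.l 816))))) (T.b (T.a (T.b (T.b (T.l 816) (T.l 816)) (T.b (T.l 816) (T.l 816))) (T.b (T.l 880) (T.b (T.l 816) (T.l 816)))) (T.a (T.b (T.b (T.l 816) (T.l 816)) (T.b (T.l 816) (T.l 816))) (T.b (T.b (T.l 816) (T.l 816)) (T.a (T.l 816) (T.l 816))))))))), by decide +kernel⟩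

def A202R_014 :
    ∃ t, chk3 (onCell 0 67108864 0 1073741824 780900216 37827925 (corT true 1 c0B cA202R gB0q2 gB1q0 gB4q2 gB5q2 false true)) t 1 1 1 = true :=
  ⟨(T.b (T.b (T.l 2) (T.b (T.l 2) (T.b (T.l 204) (T.b (T.l 0) (T.a (T.l 0) (T.a (T.l 0) (T.l 0))))))) (T.b (T.a (T.l 0) (T.a (T.b (T.l 0) (T.a (T.l 816) (T.l 816))) (T.b (T.b (T.l 0) (T.l 0)) (T.b (T.l 0) (T.l 816))))) (T.a (T.b (T.b (T.l 816) (T.l 816)) (T.a (T.b (T.l 816) (T.l 816)) (T.a (T.l 816) (T.a (T.l 816) (T.b (T.l 816) (T.l 816)))))) (T.a (T.b (T.a (T.b (T.l 816) (T.l 816)) (T.b (T.l 816) (T.l 816))) (T.a (T.b (T.l 816) (T.a (T.l 816) (T.l 816))) (T.b (T.l 816) (T.b (T.l 816) (T.l 816))))) (T.b (T.a (T.b (T.l 816) (T.l 816)) (T.b (T.l 816) (T.l 816))) (T.a (T.b (T.l 816) (T.b (T.l 816) (T.l 816))) (T.b (T.l 816) (T.a (T.l 816) (T.l 816))))))))), by decide +kernel⟩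

def A202R_024 :
    ∃ t, chk3 (onCell 0 67108864 0 1073741824 780900216 37827925 (corT true 1 c0B cA202R gB0q2 gB2q0 gB4q2 gB5q2 false true)) t 1 1 1 = true :=
  ⟨(T.b (T.l 2) (T.b (T.a (T.l 0) (T.a (T.b (T.l 0) (T.b (T.l 0) (T.l 816))) (T.b (T.l 0) (T.b (T.l 0) (T.l 0))))) (T.b (T.a (T.l 816) (T.a (T.a (T.l 816) (T.l 0)) (T.b (T.l 0) (T.l 816)))) (T.a (T.a (T.b (T.l 816) (T.l 816)) (T.a (T.l 816) (T.a (T.l 816) (T.b (T.l 816) (T.l 816))))) (T.a (T.a (T.b (T.l 816) (T.a (T.l 816) (T.l 816))) (T.b (T.l 816) (T.b (T.l 816) (T.l 816)))) (T.a (T.b (T.l 816) (T.b (T.l 816) (T.l 816))) (T.b (T.l 816) (T.a (T.l 816) (T.l 816))))))))), by decide +kernel⟩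

def A202R_114 :
    ∃ t, chk3 (onCell 0 67108864 0 1073741824 780900216 37827925 (corT true 1 c0B cA202R gB1q2 gB1q0 gB4q2 gB5q2 false true)) t 1 1 1 = true :=
  ⟨(T.b (T.b (T.l 2) (T.l 2)) (T.b (T.l 0) (T.b (T.l 816) (T.a (T.l 816) (T.a (T.l 816) (T.l 0)))))), by decide +kernel⟩

def A202R_124 :
    ∃ t, chk3 (onCell 0 67108864 0 1073741824 780900216 37827925 (corT true 1 c0B cA202R gB1q2 gB2q0 gB4q2 gB5q2 false true)) t 1 1 1 = true :=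
  ⟨(T.b (T.l 2) (T.b (T.l 0) (T.b (T.l 0) (T.a (T.l 816) (T.a (T.l 816) (T.l 0)))))), by decide +kernel⟩

def A202R_224 :
    ∃ t, chk3 (onCell 0 67108864 0 1073741824 780900216 37827925 (corT true 1 c0B cA202R gB2q2 gB2q0 gB4q2 gB5q2 false true)) t 1 1 1 = true :=
  ⟨(T.b (T.l 2) (T.b (T.l 2) (T.b (T.l 0) (T.a (T.l 816) (T.a (T.l 816) (T.l 0)))))), by decide +kernel⟩

def B011E_000 :
    ∃ t, chk3 (onCell 0 67108864 0 1073741824 780900216 37827925 (corT true 1 c0B cB011E gB0q0 gB0q1 gB0q1 gB1q1 true false)) t 1 1 1 = true :=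
  ⟨(T.l 1), by decide +kernel⟩

def B011E_100 :
    ∃ t, chk3 (onCell 0 67108864 0 1073741824 780900216 37827925 (corT true 1 c0B cB011E gB1q0 gB0q1 gB0q1 gB1q1 true false)) t 1 1 1 = true :=
  ⟨(T.l 1), by decide +kernel⟩

def B011E_200 :
    ∃ t, chk3 (onCell 0 67108864 0 1073741824 780900216 37827925 (corT true 1 c0B cB011E gB2q0 gB0q1 gB0q1 gB1q1 true false)) t 1 1 1 = true :=
  ⟨(T.l 1), by decide +kernel⟩

def B011L_030 :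
    ∃ t, chk3 (onCell 0 67108864 0 1073741824 780900216 37827925 (corT true 1 c0B cB011L gB0q0 gB3q1 gB0q1 gB1q1 true false)) t 1 1 1 = true :=
  ⟨(T.l 1), by decide +kernel⟩

def B011L_040 :
    ∃ t, chk3 (onCell 0 67108864 0 1073741824 780900216 37827925 (corT true 1 c0B cB011L gB0q0 gB4q1 gB0q1 gB1q1 true false)) t 1 1 1 = true :=
  ⟨(T.l 1), by decide +kernel⟩

def B011L_050 :
    ∃ t, chk3 (onCell 0 67108864 0 1073741824 780900216 37827925 (corT true 1 c0B cB011L gB0q0 gB5q1 gB0q1 gB1q1 true false)) t 1 1 1 = true :=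
  ⟨(T.l 1), by decide +kernel⟩

def B011L_130 :
    ∃ t, chk3 (onCell 0 67108864 0 1073741824 780900216 37827925 (corT true 1 c0B cB011L gB1q0 gB3q1 gB0q1 gB1q1 true false)) t 1 1 1 = true :=
  ⟨(T.l 1), by decide +kernel⟩

def B011L_140 :
    ∃ t, chk3 (onCell 0 67108864 0 1073741824 780900216 37827925 (corT true 1 c0B cB011L gB1q0 gB4q1 gB0q1 gB1q1 true false)) t 1 1 1 = true :=
  ⟨(T.l 1), by decide +kernel⟩

def B011L_150 :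
    ∃ t, chk3 (onCell 0 67108864 0 1073741824 780900216 37827925 (corT true 1 c0B cB011L gB1q0 gB5q1 gB0q1 gB1q1 true false)) t 1 1 1 = true :=
  ⟨(T.l 1), by decide +kernel⟩

def B011L_230 :
    ∃ t, chk3 (onCell 0 67108864 0 1073741824 780900216 37827925 (corT true 1 c0B cB011L gB2q0 gB3q1 gB0q1 gB1q1 true false)) t 1 1 1 = true :=
  ⟨(T.l 1), by decide +kernel⟩

def B011L_240 :
    ∃ t, chk3 (onCell 0 67108864 0 1073741824 780900216 37827925 (corT true 1 c0B cB011L gB2q0 gB4q1 gB0q1 gB1q1 true false)) t 1 1 1 = true :=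
  ⟨(T.l 1), by decide +kernel⟩

def B011L_250 :
    ∃ t, chk3 (onCell 0 67108864 0 1073741824 780900216 37827925 (corT true 1 c0B cB011L gB2q0 gB5q1 gB0q1 gB1q1 true false)) t 1 1 1 = true :=
  ⟨(T.l 1), by decide +kernel⟩

def B011R_002 :
    ∃ t, chk3 (onCell 0 67108864 0 1073741824 780900216 37827925 (corT true 1 c0B cB011R gB0q0 gB0q1 gB2q1 gB3q1 false true)) t 1 1 1 = true :=
  ⟨(T.b (T.b (T.b (T.a (T.b (T.l 204) (T.l 204)) (T.a (T.l 204) (T.a (T.l 204) (T.b (T.l 204) (T.l 204))))) (T.l 2)) (T.l 2)) (T.l 2)), by decide +kernel⟩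

def B011R_003 :
    ∃ t, chk3 (onCell 0 67108864 0 1073741824 780900216 37827925 (corT true 1 c0B cB011R gB0q0 gB0q1 gB3q1 gB4q1 true true)) t 1 1 1 = true :=
  ⟨(T.b (T.b (T.b (T.b (T.l 1) (T.a (T.l 220) (T.a (T.l 204) (T.a (T.l 204) (T.c (T.l 204) (T.l 204)))))) (T.a (T.b (T.b (T.l 204) (T.a (T.l 204) (T.l 204))) (T.b (T.a (T.l 204) (T.l 204)) (T.l 2))) (T.a (T.b (T.l 204) (T.b (T.l 204) (T.l 2))) (T.a (T.b (T.l 204) (T.l 204)) (T.a (T.b (T.l 204) (T.l 204)) (T.c (T.b (T.l 204) (T.l 204)) (T.a (T.l 204) (T.l 204)))))))) (T.l 2)) (T.l 2)), by decide +kernel⟩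

def B011R_004 :
    ∃ t, chk3 (onCell 0 67108864 0 1073741824 780900216 37827925 (corX 1 c0B cB011R tB011R gB0q0 gB0q1 gB4q1 gB5q1 gB5q1 true true)) t 1 1 1 = true :=
  ⟨(T.b (T.a (T.a (T.b (T.b (T.l 1) (T.l 207)) (T.b (T.l 207) (T.l 2))) (T.a (T.l 207) (T.l 207))) (T.a (T.a (T.l 207) (T.l 207)) (T.a (T.l 207) (T.a (T.l 207) (T.l 207))))) (T.l 2)), by decide +kernel⟩

def B011R_102 :
    ∃ t, chk3 (onCell 0 67108864 0 1073741824 780900216 37827925 (corT true 1 c0B cB011R gB1q0 gB0q1 gB2q1 gB3q1 false true)) t 1 1 1 = true :=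
  ⟨(T.l 2), by decide +kernel⟩

def B011R_103 :
    ∃ t, chk3 (onCell 0 67108864 0 1073741824 780900216 37827925 (corT true 1 c0B cB011R gB1q0 gB0q1 gB3q1 gB4q1 true true)) t 1 1 1 = true :=
  ⟨(T.b (T.b (T.b (T.a (T.l 0) (T.a (T.l 0) (T.l 0))) (T.l 2)) (T.l 2)) (T.l 2)), by decide +kernel⟩

def B011R_104 :
    ∃ t, chk3 (onCell 0 67108864 0 1073741824 780900216 37827925 (corT true 1 c0B cB011R gB1q0 gB0q1 gB4q1 gB5q1 true true)) t 1 1 1 = true :=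
  ⟨(T.b (T.b (T.a (T.l 0) (T.a (T.l 0) (T.b (T.l 0) (T.l 816)))) (T.l 2)) (T.l 2)), by decide +kernel⟩

def B011R_202 :
    ∃ t, chk3 (onCell 0 67108864 0 1073741824 780900216 37827925 (corT true 1 c0B cB011R gB2q0 gB0q1 gB2q1 gB3q1 false true)) t 1 1 1 = true :=
  ⟨(T.l 2), by decide +kernel⟩

def B011R_203 :
    ∃ t, chk3 (onCell 0 67108864 0 1073741824 780900216 37827925 (corT true 1 c0B cB011R gB2q0 gB0q1 gB3q1 gB4q1 true true)) t 1 1 1 = true :=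
  ⟨(T.l 2), by decide +kernel⟩

def B011R_204 :
    ∃ t, chk3 (onCell 0 67108864 0 1073741824 780900216 37827925 (corT true 1 c0B cB011R gB2q0 gB0q1 gB4q1 gB5q1 true true)) t 1 1 1 = true :=
  ⟨(T.l 2), by decide +kernel⟩

def B012E_000 :
    ∃ t, chk3 (onCell 0 67108864 0 1073741824 780900216 37827925 (corX 1 c0B cB012E tB012E gB0q0 gB0q2 gB0q1 gB1q1 gB0q1 true false)) t 1 1 1 = true :=
  ⟨(T.b (T.b (T.l 1) (T.b (T.l 1) (T.b (T.l 1) (T.b (T.l 1) (T.a (T.a (T.l 3) (T.l 3)) (T.a (T.l 3) (T.a (T.l 3) (T.b (T.l 819) (T.a (T.l 819) (T.b (T.l 819) (T.l 0))))))))))) (T.a (T.a (T.a (T.b (T.l 3) (T.l 3)) (T.b (T.l 3) (T.l 3))) (T.b (T.b (T.l 3) (T.l 3)) (T.a (T.l 3) (T.b (T.l 3) (T.a (T.l 3) (T.b (T.l 3) (T.l 0))))))) (T.b (T.a (T.b (T.l 3) (T.a (T.l 3) (T.b (T.b (T.l 3) (T.l 0)) (T.b (T.l 0) (T.l 0))))) (T.b (T.b (T.a (T.l 3) (T.b (T.a (T.l 819) (T.c (T.l 0)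 (T.l 0))) (T.c (T.l 0) (T.l 0)))) (T.a (T.b (T.c (T.l 0) (T.l 816)) (T.l 0)) (T.b (T.l 0) (T.l 0)))) (T.a (T.b (T.b (T.l 0) (T.l 0)) (T.b (T.l 0) (T.l 0))) (T.b (T.b (T.l 0) (T.l 0)) (T.l 0))))) (T.a (T.a (T.b (T.a (T.l 3) (T.b (T.l 0) (T.l 0))) (T.a (T.b (T.l 0) (T.l 0)) (T.b (T.l 0) (T.l 0)))) (T.b (T.b (T.b (T.l 0) (T.l 0)) (T.b (T.l 0) (T.l 0))) (T.b (T.b (T.l 0) (T.l 0)) (T.b (T.l 0) (T.l 0))))) (T.b (T.a (T.b (T.l 0) (T.l 0)) (T.b (T.l 0) (T.l 0))) (T.a (T.b (T.l 0) (T.l 0)) (T.b (T.l 0) (T.l 0)))))))), by decide +kernel⟩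

def B012E_010 :
    ∃ t, chk3 (onCell 0 67108864 0 1073741824 780900216 37827925 (corT true 1 c0B cB012E gB0q0 gB1q2 gB0q1 gB1q1 true false)) t 1 1 1 = true :=
  ⟨(T.b (T.l 1) (T.b (T.b (T.b (T.b (T.a (T.l 1) (T.l 1)) (T.a (T.b (T.a (T.l 1) (T.b (T.l 1) (T.a (T.l 1) (T.b (T.l 1) (T.a (T.b (T.l 1) (T.l 204)) (T.l 204)))))) (T.a (T.b (T.b (T.a (T.l 1) (T.a (T.l 1) (T.b (T.l 1) (T.c (T.l 204) (T.l 204))))) (T.a (T.b (T.a (T.l 1) (T.a (T.l 1) (T.l 204))) (T.a (T.a (T.l 1) (T.l 0)) (T.l 204))) (T.c (T.l 204) (T.l 204)))) (T.a (T.c (T.l 0) (T.l 0)) (T.l 204))) (T.a (T.b (T.a (T.c (T.c (T.l 204) (T.l 204)) (T.l 204)) (T.l 204)) (T.l 204)) (T.l 204)))) (T.b (T.a (T.b (T.a (T.l 1) (T.b (T.l 1) (T.a (T.l 1) (T.b (T.l 1) (T.l 204))))) (T.a (T.b (T.b (T.l 1) (T.c (T.c (T.l 204) (T.l 204)) (T.l 204))) (T.l 204)) (T.c (T.l 204) (T.l 204)))) (T.b (T.a (T.b (T.l 1)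 (T.c (T.l 204) (T.l 204))) (T.c (T.c (T.l 204) (T.l 204)) (T.l 204))) (T.l 460))) (T.a (T.l 204) (T.l 204))))) (T.a (T.b (T.a (T.c (T.l 0) (T.l 0)) (T.l 0)) (T.l 0)) (T.b (T.a (T.l 204) (T.l 204)) (T.l 0)))) (T.b (T.a (T.l 0) (T.l 0)) (T.l 0))) (T.a (T.b (T.l 0) (T.l 0)) (T.a (T.b (T.l 0) (T.l 0)) (T.b (T.l 0) (T.a (T.l 0) (T.b (T.l 0) (T.l 0)))))))), by decide +kernel⟩

def B012E_020 :
    ∃ t, chk3 (onCell 0 67108864 0 1073741824 780900216 37827925 (corT true 1 c0B cB012E gB0q0 gB2q2 gB0q1 gB1q1 true false)) t 1 1 1 = true :=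
  ⟨(T.b (T.l 1) (T.b (T.b (T.l 1) (T.b (T.b (T.b (T.l 1) (T.a (T.a (T.l 1) (T.l 1)) (T.a (T.b (T.l 1) (T.c (T.l 816) (T.l 816))) (T.c (T.l 880) (T.a (T.l 880) (T.l 816)))))) (T.a (T.b (T.c (T.l 816) (T.a (T.l 816) (T.l 816))) (T.l 816)) (T.a (T.c (T.l 816) (T.l 816)) (T.l 880)))) (T.b (T.a (T.l 816) (T.l 816)) (T.l 816)))) (T.b (T.b (T.l 816) (T.l 816)) (T.a (T.l 816) (T.a (T.l 816) (T.b (T.l 816) (T.l 0))))))), by decide +kernel⟩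

def B012E_100 :
    ∃ t, chk3 (onCell 0 67108864 0 1073741824 780900216 37827925 (corT true 1 c0B cB012E gB1q0 gB0q2 gB0q1 gB1q1 true false)) t 1 1 1 = true :=
  ⟨(T.b (T.b (T.l 1) (T.b (T.l 1) (T.a (T.b (T.b (T.b (T.l 1) (T.a (T.b (T.b (T.l 1) (T.a (T.c (T.b (T.l 1) (T.c (T.l 816) (T.l 816))) (T.l 816)) (T.l 816))) (T.c (T.l 816) (T.l 816))) (T.c (T.a (T.l 944) (T.l 816)) (T.l 816)))) (T.l 816)) (T.l 816)) (T.a (T.b (T.b (T.b (T.b (T.l 1) (T.a (T.l 1) (T.l 816))) (T.l 816)) (T.l 816)) (T.l 816)) (T.b (T.a (T.b (T.b (T.c (T.l 944) (T.l 824)) (T.l 816)) (T.l 816)) (T.b (T.b (T.b (T.l 1) (T.l 824)) (T.l 816)) (T.l 816))) (T.b (T.l 816) (T.l 816))))))) (T.a (T.b (T.b (T.l 0) (T.l 0)) (T.b (T.l 0) (T.a (T.l 0) (T.a (T.l 816) (T.l 816))))) (T.b (T.a (T.b (T.l 816) (T.b (T.l 816) (T.l 816))) (T.b (T.b (T.l 816) (T.l 0)) (T.b (T.l 0) (T.l 0)))) (T.a (T.b (T.b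 (T.l 816) (T.l 0)) (T.a (T.l 0) (T.l 0))) (T.b (T.b (T.l 0) (T.l 0)) (T.b (T.l 0) (T.l 0))))))), by decide +kernel⟩

def B012E_110 :
    ∃ t, chk3 (onCell 0 67108864 0 1073741824 780900216 37827925 (corT true 1 c0B cB012E gB1q0 gB1q2 gB0q1 gB1q1 true false)) t 1 1 1 = true :=
  ⟨(T.b (T.b (T.l 1) (T.b (T.l 1) (T.b (T.b (T.l 1) (T.b (T.l 1) (T.a (T.l 1) (T.a (T.l 816) (T.l 816))))) (T.a (T.l 816) (T.a (T.l 816) (T.l 816)))))) (T.a (T.b (T.l 0) (T.l 0)) (T.b (T.b (T.l 816) (T.l 816)) (T.a (T.l 0) (T.b (T.l 816) (T.l 0)))))), by decide +kernel⟩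

def B012E_120 :
    ∃ t, chk3 (onCell 0 67108864 0 1073741824 780900216 37827925 (corT true 1 c0B cB012E gB1q0 gB2q2 gB0q1 gB1q1 true false)) t 1 1 1 = true :=
  ⟨(T.b (T.b (T.l 1) (T.l 1)) (T.a (T.b (T.b (T.l 816) (T.l 816)) (T.l 816)) (T.b (T.a (T.l 816) (T.l 816)) (T.a (T.l 816) (T.b (T.l 816) (T.l 0)))))), by decide +kernel⟩

def B012E_200 :
    ∃ t, chk3 (onCell 0 67108864 0 1073741824 780900216 37827925 (corT true 1 c0B cB012E gB2q0 gB0q2 gB0q1 gB1q1 true false)) t 1 1 1 = true :=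
  ⟨(T.b (T.b (T.b (T.l 1) (T.b (T.l 1) (T.b (T.l 1) (T.b (T.l 1) (T.a (T.l 816) (T.b (T.l 1) (T.b (T.a (T.l 1) (T.a (T.l 816) (T.l 816))) (T.a (T.a (T.l 816) (T.l 816)) (T.a (T.l 816) (T.l 816)))))))))) (T.a (T.b (T.b (T.l 816) (T.l 816)) (T.l 816)) (T.b (T.a (T.a (T.l 816) (T.b (T.l 816) (T.l 816))) (T.b (T.a (T.l 816) (T.l 824)) (T.l 816))) (T.a (T.l 816) (T.b (T.l 816) (T.l 816)))))) (T.a (T.b (T.l 0) (T.b (T.l 816) (T.a (T.l 816) (T.b (T.l 816) (T.l 816))))) (T.b (T.a (T.b (T.l 816) (T.l 816)) (T.b (T.l 0) (T.l 0))) (T.a (T.b (T.l 0) (T.l 0)) (T.b (T.l 0) (T.l 0)))))), by decide +kernel⟩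

def B012E_210 :
    ∃ t, chk3 (onCell 0 67108864 0 1073741824 780900216 37827925 (corT true 1 c0B cB012E gB2q0 gB1q2 gB0q1 gB1q1 true false)) t 1 1 1 = true :=
  ⟨(T.b (T.b (T.l 1) (T.a (T.b (T.l 816) (T.l 816)) (T.b (T.a (T.a (T.l 816) (T.b (T.l 816) (T.l 816))) (T.b (T.a (T.l 816) (T.l 816)) (T.l 816))) (T.a (T.l 816) (T.l 816))))) (T.a (T.b (T.l 816) (T.l 0)) (T.b (T.l 816) (T.a (T.l 816) (T.b (T.l 816) (T.l 0)))))), by decide +kernel⟩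

def B012E_220 :
    ∃ t, chk3 (onCell 0 67108864 0 1073741824 780900216 37827925 (corT true 1 c0B cB012E gB2q0 gB2q2 gB0q1 gB1q1 true false)) t 1 1 1 = true :=
  ⟨(T.b (T.b (T.l 1) (T.a (T.b (T.b (T.l 1) (T.l 816)) (T.l 816)) (T.b (T.b (T.l 1) (T.a (T.l 816) (T.l 816))) (T.a (T.l 816) (T.l 816))))) (T.a (T.l 0) (T.b (T.l 816) (T.a (T.l 816) (T.l 0))))), by decide +kernel⟩

def B012L_050 :
    ∃ t, chk3 (onCell 0 67108864 0 1073741824 780900216 37827925 (corT true 1 c0B cB012L gB0q0 gB5q2 gB0q1 gB1q1 true false)) t 1 1 1 = true :=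
  ⟨(T.l 1), by decide +kernel⟩

def B012L_150 :
    ∃ t, chk3 (onCell 0 67108864 0 1073741824 780900216 37827925 (corT true 1 c0B cB012L gB1q0 gB5q2 gB0q1 gB1q1 true false)) t 1 1 1 = true :=
  ⟨(T.l 1), by decide +kernel⟩

def B012L_250 :
    ∃ t, chk3 (onCell 0 67108864 0 1073741824 780900216 37827925 (corT true 1 c0B cB012L gB2q0 gB5q2 gB0q1 gB1q1 true false)) t 1 1 1 = true :=
  ⟨(T.l 1), by decide +kernel⟩

def B012R_002 :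
    ∃ t, chk3 (onCell 0 67108864 0 1073741824 780900216 37827925 (corT true 1 c0B cB012R gB0q0 gB0q2 gB2q1 gB3q1 false true)) t 1 1 1 = true :=
  ⟨(T.b (T.a (T.b (T.b (T.l 204) (T.l 0)) (T.l 0)) (T.a (T.b (T.b (T.l 204) (T.l 0)) (T.l 0)) (T.b (T.b (T.a (T.l 204) (T.b (T.b (T.l 204) (T.l 204)) (T.l 204))) (T.l 0)) (T.b (T.l 0) (T.b (T.l 816) (T.l 816)))))) (T.b (T.a (T.l 816) (T.a (T.b (T.l 816) (T.b (T.l 816) (T.l 820))) (T.b (T.b (T.l 816) (T.l 816)) (T.a (T.l 816) (T.l 816))))) (T.b (T.a (T.l 816) (T.a (T.a (T.l 816) (T.b (T.l 816) (T.l 816))) (T.a (T.l 816) (T.l 816)))) (T.a (T.a (T.l 816) (T.a (T.l 816) (T.b (T.l 816) (T.l 816)))) (T.a (T.a (T.b (T.l 816) (T.l 816)) (T.l 816)) (T.a (T.l 816) (T.b (T.l 816) (T.l 816)))))))), by decide +kernel⟩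

def B012R_003 :
    ∃ t, chk3 (onCell 0 67108864 0 1073741824 780900216 37827925 (corT true 1 c0B cB012R gB0q0 gB0q2 gB3q1 gB4q1 true true)) t 1 1 1 = true :=
  ⟨(T.b (T.l 1) (T.l 1)), by decide +kernel⟩

def B012R_004 :
    ∃ t, chk3 (onCell 0 67108864 0 1073741824 780900216 37827925 (corT true 1 c0B cB012R gB0q0 gB0q2 gB4q1 gB5q1 true true)) t 1 1 1 = true :=
  ⟨(T.b (T.l 1) (T.l 1)), by decide +kernel⟩

def B012R_012 :
    ∃ t, chk3 (onCell 0 67108864 0 1073741824 780900216 37827925 (corT true 1 c0B cB012R gB0q0 gB1q2 gB2q1 gB3q1 false true)) t 1 1 1 = true :=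
  ⟨(T.a (T.b (T.b (T.b (T.l 204) (T.l 0)) (T.l 816)) (T.l 816)) (T.a (T.b (T.b (T.l 0) (T.l 816)) (T.l 816)) (T.a (T.b (T.b (T.l 0) (T.l 816)) (T.l 816)) (T.b (T.b (T.b (T.b (T.b (T.l 204) (T.l 204)) (T.l 204)) (T.l 0)) (T.l 816)) (T.b (T.l 816) (T.b (T.l 816) (T.l 816))))))), by decide +kernel⟩

def B012R_013 :
    ∃ t, chk3 (onCell 0 67108864 0 1073741824 780900216 37827925 (corT true 1 c0B cB012R gB0q0 gB1q2 gB3q1 gB4q1 true true)) t 1 1 1 = true :=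
  ⟨(T.b (T.l 1) (T.l 1)), by decide +kernel⟩

def B012R_014 :
    ∃ t, chk3 (onCell 0 67108864 0 1073741824 780900216 37827925 (corT true 1 c0B cB012R gB0q0 gB1q2 gB4q1 gB5q1 true true)) t 1 1 1 = true :=
  ⟨(T.l 1), by decide +kernel⟩

def B012R_022 :
    ∃ t, chk3 (onCell 0 67108864 0 1073741824 780900216 37827925 (corT true 1 c0B cB012R gB0q0 gB2q2 gB2q1 gB3q1 false true)) t 1 1 1 = true :=
  ⟨(T.a (T.b (T.b (T.b (T.l 204) (T.l 0)) (T.l 816)) (T.l 816)) (T.a (T.b (T.b (T.l 0) (T.l 816)) (T.l 816)) (T.a (T.b (T.b (T.l 0) (T.l 816)) (T.l 816)) (T.b (T.b (T.b (T.b (T.b (T.l 204) (T.l 204)) (T.l 204)) (T.l 0)) (T.l 816)) (T.b (T.l 816) (T.l 816)))))), by decide +kernel⟩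

def B012R_023 :
    ∃ t, chk3 (onCell 0 67108864 0 1073741824 780900216 37827925 (corT true 1 c0B cB012R gB0q0 gB2q2 gB3q1 gB4q1 true true)) t 1 1 1 = true :=
  ⟨(T.b (T.l 1) (T.l 1)), by decide +kernel⟩

def B012R_024 :
    ∃ t, chk3 (onCell 0 67108864 0 1073741824 780900216 37827925 (corT true 1 c0B cB012R gB0q0 gB2q2 gB4q1 gB5q1 true true)) t 1 1 1 = true :=
  ⟨(T.l 1), by decide +kernel⟩

def B012R_102 :
    ∃ t, chk3 (onCell 0 67108864 0 1073741824 780900216 37827925 (corT true 1 c0B cB012R gB1q0 gB0q2 gB2q1 gB3q1 false true)) t 1 1 1 = true :=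
  ⟨(T.b (T.a (T.l 0) (T.a (T.l 0) (T.b (T.l 0) (T.b (T.l 816) (T.l 816))))) (T.b (T.a (T.l 816) (T.a (T.b (T.l 816) (T.l 816)) (T.b (T.l 816) (T.l 816)))) (T.b (T.a (T.l 816) (T.a (T.b (T.l 816) (T.l 816)) (T.l 816))) (T.a (T.a (T.l 816) (T.a (T.l 816) (T.l 816))) (T.a (T.b (T.l 816) (T.l 816)) (T.l 820)))))), by decide +kernel⟩

def B012R_103 :
    ∃ t, chk3 (onCell 0 67108864 0 1073741824 780900216 37827925 (corT true 1 c0B cB012R gB1q0 gB0q2 gB3q1 gB4q1 true true)) t 1 1 1 = true :=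
  ⟨(T.b (T.b (T.a (T.l 0) (T.b (T.a (T.l 0) (T.l 0)) (T.l 816))) (T.l 1)) (T.l 1)), by decide +kernel⟩

def B012R_104 :
    ∃ t, chk3 (onCell 0 67108864 0 1073741824 780900216 37827925 (corT true 1 c0B cB012R gB1q0 gB0q2 gB4q1 gB5q1 true true)) t 1 1 1 = true :=
  ⟨(T.b (T.b (T.a (T.l 0) (T.l 1)) (T.l 1)) (T.l 1)), by decide +kernel⟩

def B012R_112 :
    ∃ t, chk3 (onCell 0 67108864 0 1073741824 780900216 37827925 (corT true 1 c0B cB012R gB1q0 gB1q2 gB2q1 gB3q1 false true)) t 1 1 1 = true :=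
  ⟨(T.a (T.l 0) (T.a (T.l 0) (T.a (T.l 0) (T.b (T.b (T.l 0) (T.l 816)) (T.b (T.l 816) (T.l 816)))))), by decide +kernel⟩

def B012R_113 :
    ∃ t, chk3 (onCell 0 67108864 0 1073741824 780900216 37827925 (corT true 1 c0B cB012R gB1q0 gB1q2 gB3q1 gB4q1 true true)) t 1 1 1 = true :=
  ⟨(T.b (T.b (T.a (T.l 0) (T.b (T.a (T.l 0) (T.l 0)) (T.l 816))) (T.l 1)) (T.l 1)), by decide +kernel⟩

def B012R_114 :
    ∃ t, chk3 (onCell 0 67108864 0 1073741824 780900216 37827925 (corT true 1 c0B cB012R gB1q0 gB1q2 gB4q1 gB5q1 true true)) t 1 1 1 = true :=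
  ⟨(T.b (T.b (T.a (T.l 0) (T.l 1)) (T.l 1)) (T.l 1)), by decide +kernel⟩

def B012R_122 :
    ∃ t, chk3 (onCell 0 67108864 0 1073741824 780900216 37827925 (corT true 1 c0B cB012R gB1q0 gB2q2 gB2q1 gB3q1 false true)) t 1 1 1 = true :=
  ⟨(T.a (T.l 0) (T.a (T.l 0) (T.a (T.l 0) (T.b (T.b (T.l 0) (T.l 816)) (T.b (T.l 816) (T.l 816)))))), by decide +kernel⟩

def B012R_123 :
    ∃ t, chk3 (onCell 0 67108864 0 1073741824 780900216 37827925 (corT true 1 c0B cB012R gB1q0 gB2q2 gB3q1 gB4q1 true true)) t 1 1 1 = true :=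
  ⟨(T.b (T.a (T.l 0) (T.b (T.b (T.a (T.l 0) (T.l 0)) (T.l 816)) (T.l 816))) (T.l 1)), by decide +kernel⟩

def B012R_124 :
    ∃ t, chk3 (onCell 0 67108864 0 1073741824 780900216 37827925 (corT true 1 c0B cB012R gB1q0 gB2q2 gB4q1 gB5q1 true true)) t 1 1 1 = true :=
  ⟨(T.b (T.b (T.a (T.l 0) (T.l 1)) (T.l 1)) (T.l 1)), by decide +kernel⟩

def B012R_202 :
    ∃ t, chk3 (onCell 0 67108864 0 1073741824 780900216 37827925 (corT true 1 c0B cB012R gB2q0 gB0q2 gB2q1 gB3q1 false true)) t 1 1 1 = true :=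
  ⟨(T.b (T.b (T.l 2) (T.a (T.l 816) (T.b (T.l 2) (T.b (T.l 816) (T.l 816))))) (T.b (T.a (T.l 816) (T.a (T.l 820) (T.b (T.l 816) (T.l 816)))) (T.b (T.a (T.l 816) (T.a (T.l 816) (T.l 816))) (T.a (T.a (T.l 816) (T.l 816)) (T.a (T.l 816) (T.l 816)))))), by decide +kernel⟩

def B012R_203 :
    ∃ t, chk3 (onCell 0 67108864 0 1073741824 780900216 37827925 (corT true 1 c0B cB012R gB2q0 gB0q2 gB3q1 gB4q1 true true)) t 1 1 1 = true :=
  ⟨(T.b (T.b (T.l 2) (T.a (T.l 816) (T.b (T.l 816) (T.b (T.l 816) (T.l 1))))) (T.b (T.b (T.l 1) (T.l 1)) (T.l 1))), by decide +kernel⟩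

def B012R_204 :
    ∃ t, chk3 (onCell 0 67108864 0 1073741824 780900216 37827925 (corT true 1 c0B cB012R gB2q0 gB0q2 gB4q1 gB5q1 true true)) t 1 1 1 = true :=
  ⟨(T.b (T.b (T.a (T.l 816) (T.b (T.l 2) (T.l 816))) (T.a (T.l 816) (T.b (T.l 816) (T.l 1)))) (T.b (T.l 1) (T.l 1))), by decide +kernel⟩

def B012R_212 :
    ∃ t, chk3 (onCell 0 67108864 0 1073741824 780900216 37827925 (corT true 1 c0B cB012R gB2q0 gB1q2 gB2q1 gB3q1 false true)) t 1 1 1 = true :=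
  ⟨(T.a (T.l 816) (T.a (T.l 816) (T.a (T.l 816) (T.b (T.l 64) (T.b (T.l 816) (T.l 816)))))), by decide +kernel⟩

def B012R_213 :
    ∃ t, chk3 (onCell 0 67108864 0 1073741824 780900216 37827925 (corT true 1 c0B cB012R gB2q0 gB1q2 gB3q1 gB4q1 true true)) t 1 1 1 = true :=
  ⟨(T.b (T.b (T.l 2) (T.a (T.l 816) (T.l 816))) (T.a (T.l 816) (T.b (T.l 816) (T.l 1)))), by decide +kernel⟩

def B012R_214 :
    ∃ t, chk3 (onCell 0 67108864 0 1073741824 780900216 37827925 (corT true 1 c0B cB012R gB2q0 gB1q2 gB4q1 gB5q1 true true)) t 1 1 1 = true :=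
  ⟨(T.b (T.a (T.l 816) (T.b (T.b (T.l 2) (T.l 816)) (T.l 816))) (T.a (T.l 816) (T.b (T.l 1) (T.l 1)))), by decide +kernel⟩

def B012R_222 :
    ∃ t, chk3 (onCell 0 67108864 0 1073741824 780900216 37827925 (corT true 1 c0B cB012R gB2q0 gB2q2 gB2q1 gB3q1 false true)) t 1 1 1 = true :=
  ⟨(T.b (T.l 2) (T.a (T.l 816) (T.b (T.l 2) (T.a (T.l 816) (T.l 816))))), by decide +kernel⟩

def B012R_223 :
    ∃ t, chk3 (onCell 0 67108864 0 1073741824 780900216 37827925 (corT true 1 c0B cB012R gB2q0 gB2q2 gB3q1 gB4q1 true true)) t 1 1 1 = true :=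
  ⟨(T.b (T.l 2) (T.a (T.l 816) (T.b (T.l 816) (T.a (T.l 816) (T.l 816))))), by decide +kernel⟩

def B012R_224 :
    ∃ t, chk3 (onCell 0 67108864 0 1073741824 780900216 37827925 (corT true 1 c0B cB012R gB2q0 gB2q2 gB4q1 gB5q1 true true)) t 1 1 1 = true :=
  ⟨(T.a (T.l 0) (T.b (T.l 2) (T.b (T.l 816) (T.b (T.l 816) (T.l 1))))), by decide +kernel⟩

def B022E_000 :
    ∃ t, chk3 (onCell 0 67108864 0 1073741824 780900216 37827925 (corT true 1 c0B cB022E gB0q0 gB0q2 gB0q2 gB1q2 true true)) t 1 1 1 = true :=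
  ⟨(T.l 2), by decide +kernel⟩

def B022E_001 :
    ∃ t, chk3 (onCell 0 67108864 0 1073741824 780900216 37827925 (corT true 1 c0B cB022E gB0q0 gB0q2 gB1q2 gB2q2 true true)) t 1 1 1 = true :=
  ⟨(T.l 2), by decide +kernel⟩

def B022E_002 :
    ∃ t, chk3 (onCell 0 67108864 0 1073741824 780900216 37827925 (corT true 1 c0B cB022E gB0q0 gB0q2 gB2q2 gB3q2 true false)) t 1 1 1 = true :=
  ⟨(T.a (T.a (T.b (T.b (T.b (T.l 204) (T.l 204)) (T.l 204)) (T.b (T.l 0) (T.b (T.l 816) (T.l 816)))) (T.a (T.b (T.b (T.l 204) (T.l 204)) (T.b (T.l 0) (T.l 816))) (T.b (T.b (T.l 204) (T.l 0)) (T.b (T.l 0) (T.c (T.l 816) (T.l 820)))))) (T.a (T.b (T.a (T.b (T.l 204) (T.l 0)) (T.b (T.l 204) (T.l 0))) (T.a (T.b (T.l 0) (T.b (T.l 816) (T.l 816))) (T.b (T.l 0) (T.b (T.l 816) (T.l 816))))) (T.b (T.b (T.a (T.l 204) (T.b (T.l 204) (T.l 204))) (T.l 0)) (T.b (T.l 0) (T.a (T.l 816) (T.l 816)))))),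 by decide +kernel⟩

def B022E_010 :
    ∃ t, chk3 (onCell 0 67108864 0 1073741824 780900216 37827925 (corT true 1 c0B cB022E gB0q0 gB1q2 gB0q2 gB1q2 true true)) t 1 1 1 = true :=
  ⟨(T.l 2), by decide +kernel⟩

def B022E_011 :
    ∃ t, chk3 (onCell 0 67108864 0 1073741824 780900216 37827925 (corT true 1 c0B cB022E gB0q0 gB1q2 gB1q2 gB2q2 true true)) t 1 1 1 = true :=
  ⟨(T.l 2), by decide +kernel⟩

def B022E_012 :
    ∃ t, chk3 (onCell 0 67108864 0 1073741824 780900216 37827925 (corT true 1 c0B cB022E gB0q0 gB1q2 gB2q2 gB3q2 true false)) t 1 1 1 = true :=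
  ⟨(T.a (T.b (T.b (T.a (T.l 204) (T.l 204)) (T.l 204)) (T.b (T.l 0) (T.l 0))) (T.b (T.a (T.b (T.b (T.l 204) (T.l 204)) (T.l 204)) (T.b (T.a (T.l 204) (T.b (T.a (T.l 204) (T.l 204)) (T.l 204))) (T.l 0))) (T.a (T.b (T.l 0) (T.l 816)) (T.b (T.l 0) (T.l 4))))), by decide +kernel⟩

def B022E_020 :
    ∃ t, chk3 (onCell 0 67108864 0 1073741824 780900216 37827925 (corT true 1 c0B cB022E gB0q0 gB2q2 gB0q2 gB1q2 true true)) t 1 1 1 = true :=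
  ⟨(T.l 2), by decide +kernel⟩

def B022E_021 :
    ∃ t, chk3 (onCell 0 67108864 0 1073741824 780900216 37827925 (corT true 1 c0B cB022E gB0q0 gB2q2 gB1q2 gB2q2 true true)) t 1 1 1 = true :=
  ⟨(T.l 2), by decide +kernel⟩

def B022E_022 :
    ∃ t, chk3 (onCell 0 67108864 0 1073741824 780900216 37827925 (corT true 1 c0B cB022E gB0q0 gB2q2 gB2q2 gB3q2 true false)) t 1 1 1 = true :=
  ⟨(T.a (T.b (T.b (T.b (T.l 204) (T.l 204)) (T.l 0)) (T.b (T.l 0) (T.l 0))) (T.b (T.a (T.b (T.l 204) (T.l 0)) (T.b (T.a (T.l 204) (T.b (T.l 204) (T.l 204))) (T.l 0))) (T.a (T.b (T.l 0) (T.l 816)) (T.b (T.l 0) (T.l 0))))), by decide +kernel⟩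

def B022E_100 :
    ∃ t, chk3 (onCell 0 67108864 0 1073741824 780900216 37827925 (corT true 1 c0B cB022E gB1q0 gB0q2 gB0q2 gB1q2 true true)) t 1 1 1 = true :=
  ⟨(T.l 2), by decide +kernel⟩

def B022E_101 :
    ∃ t, chk3 (onCell 0 67108864 0 1073741824 780900216 37827925 (corT true 1 c0B cB022E gB1q0 gB0q2 gB1q2 gB2q2 true true)) t 1 1 1 = true :=
  ⟨(T.l 2), by decide +kernel⟩

def B022E_102 :
    ∃ t, chk3 (onCell 0 67108864 0 1073741824 780900216 37827925 (corT true 1 c0B cB022E gB1q0 gB0q2 gB2q2 gB3q2 true false)) t 1 1 1 = true :=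
  ⟨(T.a (T.a (T.b (T.a (T.l 0) (T.l 0)) (T.l 0)) (T.a (T.b (T.b (T.l 204) (T.l 0)) (T.l 0)) (T.b (T.b (T.l 204) (T.l 0)) (T.l 0)))) (T.a (T.b (T.a (T.b (T.l 204) (T.l 0)) (T.b (T.l 204) (T.l 0))) (T.b (T.l 0) (T.l 816))) (T.b (T.b (T.a (T.l 204) (T.b (T.l 204) (T.l 204))) (T.l 0)) (T.b (T.l 0) (T.l 816))))), by decide +kernel⟩

def B022E_110 :
    ∃ t, chk3 (onCell 0 67108864 0 1073741824 780900216 37827925 (corT true 1 c0B cB022E gB1q0 gB1q2 gB0q2 gB1q2 true true)) t 1 1 1 = true :=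
  ⟨(T.l 2), by decide +kernel⟩

def B022E_111 :
    ∃ t, chk3 (onCell 0 67108864 0 1073741824 780900216 37827925 (corT true 1 c0B cB022E gB1q0 gB1q2 gB1q2 gB2q2 true true)) t 1 1 1 = true :=
  ⟨(T.l 2), by decide +kernel⟩

def B022E_112 :
    ∃ t, chk3 (onCell 0 67108864 0 1073741824 780900216 37827925 (corT true 1 c0B cB022E gB1q0 gB1q2 gB2q2 gB3q2 true false)) t 1 1 1 = true :=
  ⟨(T.a (T.b (T.b (T.b (T.l 220) (T.l 204)) (T.l 0)) (T.l 0)) (T.a (T.b (T.b (T.b (T.l 204) (T.l 204)) (T.l 0)) (T.l 0)) (T.b (T.b (T.a (T.l 204) (T.b (T.a (T.l 204) (T.l 204)) (T.l 204))) (T.l 0)) (T.b (T.l 0) (T.l 816))))), by decide +kernel⟩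

def B022E_120 :
    ∃ t, chk3 (onCell 0 67108864 0 1073741824 780900216 37827925 (corT true 1 c0B cB022E gB1q0 gB2q2 gB0q2 gB1q2 true true)) t 1 1 1 = true :=
  ⟨(T.l 2), by decide +kernel⟩

def B022E_121 :
    ∃ t, chk3 (onCell 0 67108864 0 1073741824 780900216 37827925 (corT true 1 c0B cB022E gB1q0 gB2q2 gB1q2 gB2q2 true true)) t 1 1 1 = true :=
  ⟨(T.l 2), by decide +kernel⟩

def B022E_122 :
    ∃ t, chk3 (onCell 0 67108864 0 1073741824 780900216 37827925 (corT true 1 c0B cB022E gB1q0 gB2q2 gB2q2 gB3q2 true false)) t 1 1 1 = true :=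
  ⟨(T.a (T.b (T.b (T.l 220) (T.l 0)) (T.l 0)) (T.a (T.b (T.b (T.l 204) (T.l 0)) (T.l 0)) (T.b (T.b (T.a (T.l 204) (T.b (T.l 204) (T.l 204))) (T.l 0)) (T.b (T.l 0) (T.l 816))))), by decide +kernel⟩

def B022E_200 :
    ∃ t, chk3 (onCell 0 67108864 0 1073741824 780900216 37827925 (corT true 1 c0B cB022E gB2q0 gB0q2 gB0q2 gB1q2 true true)) t 1 1 1 = true :=
  ⟨(T.l 2), by decide +kernel⟩

def B022E_201 :
    ∃ t, chk3 (onCell 0 67108864 0 1073741824 780900216 37827925 (corT true 1 c0B cB022E gB2q0 gB0q2 gB1q2 gB2q2 true true)) t 1 1 1 = true :=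
  ⟨(T.l 2), by decide +kernel⟩

def B022E_202 :
    ∃ t, chk3 (onCell 0 67108864 0 1073741824 780900216 37827925 (corT true 1 c0B cB022E gB2q0 gB0q2 gB2q2 gB3q2 true false)) t 1 1 1 = true :=
  ⟨(T.a (T.a (T.b (T.a (T.l 0) (T.l 0)) (T.l 0)) (T.b (T.a (T.b (T.l 204) (T.l 0)) (T.b (T.l 204) (T.l 0))) (T.l 0))) (T.a (T.b (T.a (T.b (T.l 204) (T.l 0)) (T.b (T.l 0) (T.l 0))) (T.l 0)) (T.b (T.b (T.a (T.l 0) (T.b (T.l 204) (T.l 204))) (T.l 0)) (T.b (T.l 816) (T.l 816))))), by decide +kernel⟩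

def B022E_210 :
    ∃ t, chk3 (onCell 0 67108864 0 1073741824 780900216 37827925 (corT true 1 c0B cB022E gB2q0 gB1q2 gB0q2 gB1q2 true true)) t 1 1 1 = true :=
  ⟨(T.l 2), by decide +kernel⟩

def B022E_211 :
    ∃ t, chk3 (onCell 0 67108864 0 1073741824 780900216 37827925 (corT true 1 c0B cB022E gB2q0 gB1q2 gB1q2 gB2q2 true true)) t 1 1 1 = true :=
  ⟨(T.l 2), by decide +kernel⟩

def B022E_212 :
    ∃ t, chk3 (onCell 0 67108864 0 1073741824 780900216 37827925 (corT true 1 c0B cB022E gB2q0 gB1q2 gB2q2 gB3q2 true false)) t 1 1 1 = true :=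
  ⟨(T.a (T.b (T.b (T.b (T.l 220) (T.l 204)) (T.l 0)) (T.l 0)) (T.a (T.b (T.b (T.b (T.l 204) (T.l 204)) (T.l 0)) (T.l 0)) (T.b (T.b (T.a (T.l 204) (T.b (T.a (T.l 204) (T.l 204)) (T.l 204))) (T.l 0)) (T.b (T.l 0) (T.l 816))))), by decide +kernel⟩

def B022E_220 :
    ∃ t, chk3 (onCell 0 67108864 0 1073741824 780900216 37827925 (corT true 1 c0B cB022E gB2q0 gB2q2 gB0q2 gB1q2 true true)) t 1 1 1 = true :=
  ⟨(T.l 2), by decide +kernel⟩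

def B022E_221 :
    ∃ t, chk3 (onCell 0 67108864 0 1073741824 780900216 37827925 (corT true 1 c0B cB022E gB2q0 gB2q2 gB1q2 gB2q2 true true)) t 1 1 1 = true :=
  ⟨(T.l 2), by decide +kernel⟩

def B022E_222 :
    ∃ t, chk3 (onCell 0 67108864 0 1073741824 780900216 37827925 (corT true 1 c0B cB022E gB2q0 gB2q2 gB2q2 gB3q2 true false)) t 1 1 1 = true :=
  ⟨(T.a (T.b (T.b (T.b (T.l 204) (T.l 204)) (T.l 0)) (T.l 0)) (T.a (T.b (T.b (T.l 204) (T.l 0)) (T.l 0)) (T.b (T.b (T.a (T.l 204) (T.b (T.l 204) (T.l 204))) (T.l 0)) (T.b (T.l 0) (T.l 816))))), by decide +kernel⟩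

def B022L_050 :
    ∃ t, chk3 (onCell 0 67108864 0 1073741824 780900216 37827925 (corX 1 c0B cB022L tB022L gB0q0 gB5q2 gB0q2 gB1q2 gB0q2 true true)) t 1 1 1 = true :=
  ⟨(T.b (T.b (T.l 2) (T.l 2)) (T.b (T.b (T.b (T.l 2) (T.a (T.l 3) (T.l 3))) (T.a (T.l 3) (T.l 3))) (T.l 1))), by decide +kernel⟩

def B022L_051 :
    ∃ t, chk3 (onCell 0 67108864 0 1073741824 780900216 37827925 (corT true 1 c0B cB022L gB0q0 gB5q2 gB1q2 gB2q2 true true)) t 1 1 1 = true :=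
  ⟨(T.b (T.b (T.l 2) (T.b (T.l 0) (T.l 0))) (T.b (T.b (T.b (T.l 0) (T.b (T.l 0) (T.a (T.l 1) (T.l 0)))) (T.l 1)) (T.l 1))), by decide +kernel⟩

def B022L_052 :
    ∃ t, chk3 (onCell 0 67108864 0 1073741824 780900216 37827925 (corT true 1 c0B cB022L gB0q0 gB5q2 gB2q2 gB3q2 true false)) t 1 1 1 = true :=
  ⟨(T.b (T.b (T.b (T.a (T.l 204) (T.a (T.l 204) (T.l 0))) (T.l 204)) (T.b (T.l 204) (T.l 1))) (T.l 1)), by decide +kernel⟩

def B022L_150 :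
    ∃ t, chk3 (onCell 0 67108864 0 1073741824 780900216 37827925 (corT true 1 c0B cB022L gB1q0 gB5q2 gB0q2 gB1q2 true true)) t 1 1 1 = true :=
  ⟨(T.b (T.b (T.l 2) (T.b (T.l 2) (T.a (T.l 0) (T.a (T.l 816) (T.b (T.l 2) (T.b (T.l 2) (T.l 816))))))) (T.b (T.b (T.a (T.l 0) (T.b (T.a (T.l 816) (T.l 816)) (T.l 816))) (T.l 1)) (T.l 1))), by decide +kernel⟩

def B022L_151 :
    ∃ t, chk3 (onCell 0 67108864 0 1073741824 780900216 37827925 (corT true 1 c0B cB022L gB1q0 gB5q2 gB1q2 gB2q2 true true)) t 1 1 1 = true :=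
  ⟨(T.b (T.b (T.b (T.l 2) (T.l 0)) (T.l 0)) (T.b (T.l 1) (T.l 1))), by decide +kernel⟩

def B022L_152 :
    ∃ t, chk3 (onCell 0 67108864 0 1073741824 780900216 37827925 (corT true 1 c0B cB022L gB1q0 gB5q2 gB2q2 gB3q2 true false)) t 1 1 1 = true :=
  ⟨(T.b (T.b (T.b (T.a (T.l 204) (T.b (T.l 0) (T.l 204))) (T.l 0)) (T.l 0)) (T.l 1)), by decide +kernel⟩

def B022L_250 :
    ∃ t, chk3 (onCell 0 67108864 0 1073741824 780900216 37827925 (corT true 1 c0B cB022L gB2q0 gB5q2 gB0q2 gB1q2 true true)) t 1 1 1 = true :=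
  ⟨(T.b (T.b (T.l 2) (T.a (T.b (T.l 0) (T.l 816)) (T.b (T.b (T.l 2) (T.a (T.b (T.l 2) (T.l 816)) (T.l 2))) (T.b (T.a (T.l 816) (T.l 0)) (T.a (T.l 816) (T.l 816)))))) (T.l 1)), by decide +kernel⟩

def B022L_251 :
    ∃ t, chk3 (onCell 0 67108864 0 1073741824 780900216 37827925 (corT true 1 c0B cB022L gB2q0 gB5q2 gB1q2 gB2q2 true true)) t 1 1 1 = true :=
  ⟨(T.b (T.b (T.b (T.l 2) (T.l 0)) (T.l 0)) (T.l 1)), by decide +kernel⟩

def B022L_252 :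
    ∃ t, chk3 (onCell 0 67108864 0 1073741824 780900216 37827925 (corT true 1 c0B cB022L gB2q0 gB5q2 gB2q2 gB3q2 true false)) t 1 1 1 = true :=
  ⟨(T.b (T.b (T.b (T.a (T.l 204) (T.b (T.l 0) (T.l 204))) (T.l 0)) (T.l 1)) (T.l 1)), by decide +kernel⟩

def B022R_004 :
    ∃ t, chk3 (onCell 0 67108864 0 1073741824 780900216 37827925 (corT true 1 c0B cB022R gB0q0 gB0q2 gB4q2 gB5q2 false true)) t 1 1 1 = true :=
  ⟨(T.a (T.a (T.b (T.b (T.b (T.l 204) (T.l 204)) (T.l 0)) (T.l 816)) (T.a (T.b (T.b (T.l 204) (T.l 0)) (T.l 816)) (T.b (T.a (T.l 0) (T.b (T.l 204) (T.l 0))) (T.l 816)))) (T.a (T.a (T.b (T.b (T.l 220) (T.l 0)) (T.l 816)) (T.b (T.b (T.l 204) (T.l 0)) (T.l 816))) (T.b (T.b (T.a (T.b (T.l 204) (T.l 204)) (T.b (T.l 204) (T.l 204))) (T.l 0)) (T.a (T.l 816) (T.l 816))))), by decide +kernel⟩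

def B022R_014 :
    ∃ t, chk3 (onCell 0 67108864 0 1073741824 780900216 37827925 (corT true 1 c0B cB022R gB0q0 gB1q2 gB4q2 gB5q2 false true)) t 1 1 1 = true :=
  ⟨(T.a (T.b (T.l 0) (T.l 816)) (T.a (T.b (T.l 0) (T.l 816)) (T.b (T.l 0) (T.l 816)))), by decide +kernel⟩

def B022R_024 :
    ∃ t, chk3 (onCell 0 67108864 0 1073741824 780900216 37827925 (corT true 1 c0B cB022R gB0q0 gB2q2 gB4q2 gB5q2 false true)) t 1 1 1 = true :=
  ⟨(T.a (T.b (T.l 0) (T.l 816)) (T.a (T.l 0) (T.b (T.l 0) (T.l 816)))), by decide +kernel⟩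

def B022R_104 :
    ∃ t, chk3 (onCell 0 67108864 0 1073741824 780900216 37827925 (corT true 1 c0B cB022R gB1q0 gB0q2 gB4q2 gB5q2 false true)) t 1 1 1 = true :=
  ⟨(T.b (T.a (T.a (T.b (T.b (T.l 204) (T.l 204)) (T.l 0)) (T.a (T.b (T.l 204) (T.l 0)) (T.a (T.l 0) (T.l 16)))) (T.a (T.a (T.b (T.l 204) (T.l 0)) (T.b (T.l 204) (T.l 0))) (T.b (T.a (T.l 220) (T.b (T.l 204) (T.l 204))) (T.l 0)))) (T.a (T.a (T.l 816) (T.l 816)) (T.a (T.l 816) (T.b (T.l 816) (T.l 816))))), by decide +kernel⟩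

def B022R_114 :
    ∃ t, chk3 (onCell 0 67108864 0 1073741824 780900216 37827925 (corT true 1 c0B cB022R gB1q0 gB1q2 gB4q2 gB5q2 false true)) t 1 1 1 = true :=
  ⟨(T.a (T.b (T.l 0) (T.l 816)) (T.b (T.a (T.l 0) (T.l 0)) (T.a (T.l 816) (T.l 820)))), by decide +kernel⟩

def B022R_124 :
    ∃ t, chk3 (onCell 0 67108864 0 1073741824 780900216 37827925 (corT true 1 c0B cB022R gB1q0 gB2q2 gB4q2 gB5q2 false true)) t 1 1 1 = true :=
  ⟨(T.a (T.l 0) (T.a (T.l 0) (T.b (T.l 0) (T.b (T.l 816) (T.l 816))))), by decide +kernel⟩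

def B022R_204 :
    ∃ t, chk3 (onCell 0 67108864 0 1073741824 780900216 37827925 (corT true 1 c0B cB022R gB2q0 gB0q2 gB4q2 gB5q2 false true)) t 1 1 1 = true :=
  ⟨(T.a (T.a (T.b (T.b (T.b (T.l 204) (T.l 0)) (T.l 0)) (T.l 816)) (T.a (T.b (T.b (T.l 0) (T.l 0)) (T.l 816)) (T.b (T.a (T.l 0) (T.b (T.l 0) (T.l 0))) (T.l 816)))) (T.a (T.b (T.a (T.b (T.b (T.l 204) (T.l 0)) (T.l 0)) (T.b (T.l 0) (T.l 0))) (T.l 816)) (T.b (T.b (T.a (T.b (T.l 204) (T.l 0)) (T.b (T.l 204) (T.l 0))) (T.l 0)) (T.b (T.l 816) (T.l 816))))), by decide +kernel⟩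

def B022R_214 :
    ∃ t, chk3 (onCell 0 67108864 0 1073741824 780900216 37827925 (corT true 1 c0B cB022R gB2q0 gB1q2 gB4q2 gB5q2 false true)) t 1 1 1 = true :=
  ⟨(T.a (T.b (T.l 0) (T.l 816)) (T.a (T.b (T.l 0) (T.l 816)) (T.b (T.l 0) (T.b (T.l 816) (T.l 816))))), by decide +kernel⟩

def B022R_224 :
    ∃ t, chk3 (onCell 0 67108864 0 1073741824 780900216 37827925 (corT true 1 c0B cB022R gB2q0 gB2q2 gB4q2 gB5q2 false true)) t 1 1 1 = true :=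
  ⟨(T.a (T.l 0) (T.b (T.b (T.l 0) (T.l 0)) (T.a (T.l 816) (T.b (T.l 816) (T.l 816))))), by decide +kernel⟩

def B101E_000 :
    ∃ t, chk3 (onCell 0 53687091 0 1073741824 780900216 37827925 (corT true 1 c0B cB101E gB0q1 gB0q1 gB0q0 gB1q0 true true)) t 1 1 1 = true :=
  ⟨(T.l 2), by decide +kernel⟩

def B101E_001 :
    ∃ t, chk3 (onCell 0 53687091 0 1073741824 780900216 37827925 (corT true 1 c0B cB101E gB0q1 gB0q1 gB1q0 gB2q0 true true)) t 1 1 1 = true :=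
  ⟨(T.l 2), by decide +kernel⟩

def B101E_002 :
    ∃ t, chk3 (onCell 0 53687091 0 1073741824 780900216 37827925 (corT true 1 c0B cB101E gB0q1 gB0q1 gB2q0 gB3q0 true false)) t 1 1 1 = true :=
  ⟨(T.a (T.b (T.b (T.b (T.a (T.l 816) (T.l 816)) (T.b (T.l 816) (T.l 816))) (T.b (T.l 0) (T.l 0))) (T.b (T.b (T.l 0) (T.l 204)) (T.b (T.b (T.l 204) (T.l 204)) (T.b (T.l 204) (T.a (T.l 204) (T.l 204)))))) (T.b (T.b (T.a (T.a (T.b (T.l 816) (T.l 816)) (T.b (T.b (T.l 816) (T.l 816)) (T.l 816))) (T.b (T.a (T.b (T.l 816) (T.l 816)) (T.b (T.l 816) (T.l 816))) (T.a (T.l 816) (T.l 816)))) (T.a (T.b (T.l 0) (T.l 0)) (T.b (T.l 0) (T.l 0)))) (T.a (T.b (T.b (T.l 0) (T.l 204)) (T.a (T.b (T.l 204) (T.l 204)) (T.b (T.l 204) (T.b (T.l 204) (T.l 204))))) (T.b (T.b (T.l 0) (T.l 204)) (T.b (T.l 204) (T.b (T.l 204) (T.a (T.l 204) (T.l 204)))))))), by decide +kernel⟩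

def B101L_300 :
    ∃ t, chk3 (onCell 0 67108864 0 1073741824 780900216 37827925 (corT true 1 c0B cB101L gB3q1 gB0q1 gB0q0 gB1q0 true true)) t 1 1 1 = true :=
  ⟨(T.b (T.l 1) (T.b (T.l 1) (T.b (T.l 1) (T.b (T.b (T.l 1) (T.b (T.l 1) (T.b (T.l 1) (T.a (T.l 816) (T.a (T.l 816) (T.a (T.l 816) (T.l 816))))))) (T.a (T.l 816) (T.a (T.l 816) (T.a (T.l 816) (T.l 816)))))))), by decide +kernel⟩

def B101L_301 :
    ∃ t, chk3 (onCell 0 67108864 0 1073741824 780900216 37827925 (corT true 1 c0B cB101L gB3q1 gB0q1 gB1q0 gB2q0 true true)) t 1 1 1 = true :=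
  ⟨(T.l 1), by decide +kernel⟩

def B101L_302 :
    ∃ t, chk3 (onCell 0 67108864 0 1073741824 780900216 37827925 (corT true 1 c0B cB101L gB3q1 gB0q1 gB2q0 gB3q0 true false)) t 1 1 1 = true :=
  ⟨(T.l 1), by decide +kernel⟩

def B101L_400 :
    ∃ t, chk3 (onCell 0 67108864 0 1073741824 780900216 37827925 (corT true 1 c0B cB101L gB4q1 gB0q1 gB0q0 gB1q0 true true)) t 1 1 1 = true :=
  ⟨(T.b (T.l 1) (T.b (T.l 1) (T.b (T.b (T.b (T.l 1) (T.b (T.l 1) (T.a (T.b (T.b (T.b (T.l 1) (T.l 816)) (T.l 816)) (T.l 816)) (T.a (T.l 816) (T.a (T.l 816) (T.c (T.l 816) (T.l 816))))))) (T.a (T.l 816) (T.a (T.l 816) (T.l 816)))) (T.a (T.l 0) (T.b (T.l 816) (T.l 0)))))), by decide +kernel⟩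

def B101L_401 :
    ∃ t, chk3 (onCell 0 67108864 0 1073741824 780900216 37827925 (corT true 1 c0B cB101L gB4q1 gB0q1 gB1q0 gB2q0 true true)) t 1 1 1 = true :=
  ⟨(T.b (T.l 1) (T.b (T.l 1) (T.b (T.l 1) (T.a (T.l 0) (T.b (T.l 1) (T.l 0)))))), by decide +kernel⟩

def B101L_402 :
    ∃ t, chk3 (onCell 0 67108864 0 1073741824 780900216 37827925 (corT true 1 c0B cB101L gB4q1 gB0q1 gB2q0 gB3q0 true false)) t 1 1 1 = true :=
  ⟨(T.l 1), by decide +kernel⟩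

def B101L_500 :
    ∃ t, chk3 (onCell 0 67108864 0 1073741824 780900216 37827925 (corX 1 c0B cB101L tB101L gB5q1 gB0q1 gB0q0 gB1q0 gB0q0 true true)) t 1 1 1 = true :=
  ⟨(T.b (T.l 1) (T.b (T.l 3) (T.b (T.l 207) (T.l 2)))), by decide +kernel⟩

def B101L_501 :
    ∃ t, chk3 (onCell 0 67108864 0 1073741824 780900216 37827925 (corT true 1 c0B cB101L gB5q1 gB0q1 gB1q0 gB2q0 true true)) t 1 1 1 = true :=
  ⟨(T.b (T.l 1) (T.b (T.l 1) (T.b (T.l 0) (T.a (T.l 204) (T.b (T.l 204) (T.l 204)))))), by decide +kernel⟩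

def B101L_502 :
    ∃ t, chk3 (onCell 0 67108864 0 1073741824 780900216 37827925 (corT true 1 c0B cB101L gB5q1 gB0q1 gB2q0 gB3q0 true false)) t 1 1 1 = true :=
  ⟨(T.l 1), by decide +kernel⟩

def B101R_030 :
    ∃ t, chk3 (onCell 0 67108864 0 1073741824 780900216 37827925 (corT true 1 c0B cB101R gB0q1 gB3q1 gB0q0 gB1q0 true true)) t 1 1 1 = true :=
  ⟨(T.l 1), by decide +kernel⟩

def B101R_031 :
    ∃ t, chk3 (onCell 0 67108864 0 1073741824 780900216 37827925 (corT true 1 c0B cB101R gB0q1 gB3q1 gB1q0 gB2q0 true true)) t 1 1 1 = true :=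
  ⟨(T.l 1), by decide +kernel⟩

def B101R_032 :
    ∃ t, chk3 (onCell 0 67108864 0 1073741824 780900216 37827925 (corT true 1 c0B cB101R gB0q1 gB3q1 gB2q0 gB3q0 true false)) t 1 1 1 = true :=
  ⟨(T.l 1), by decide +kernel⟩

def B101R_040 :
    ∃ t, chk3 (onCell 0 67108864 0 1073741824 780900216 37827925 (corT true 1 c0B cB101R gB0q1 gB4q1 gB0q0 gB1q0 true true)) t 1 1 1 = true :=
  ⟨(T.l 1), by decide +kernel⟩

def B101R_041 :
    ∃ t, chk3 (onCell 0 67108864 0 1073741824 780900216 37827925 (corT true 1 c0B cB101R gB0q1 gB4q1 gB1q0 gB2q0 true true)) t 1 1 1 = true :=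
  ⟨(T.l 1), by decide +kernel⟩

def B101R_042 :
    ∃ t, chk3 (onCell 0 67108864 0 1073741824 780900216 37827925 (corT true 1 c0B cB101R gB0q1 gB4q1 gB2q0 gB3q0 true false)) t 1 1 1 = true :=
  ⟨(T.l 1), by decide +kernel⟩

def B101R_050 :
    ∃ t, chk3 (onCell 0 67108864 0 1073741824 780900216 37827925 (corT true 1 c0B cB101R gB0q1 gB5q1 gB0q0 gB1q0 true true)) t 1 1 1 = true :=
  ⟨(T.l 1), by decide +kernel⟩

def B101R_051 :
    ∃ t, chk3 (onCell 0 67108864 0 1073741824 780900216 37827925 (corT true 1 c0B cB101R gB0q1 gB5q1 gB1q0 gB2q0 true true)) t 1 1 1 = true :=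
  ⟨(T.l 1), by decide +kernel⟩

def B101R_052 :
    ∃ t, chk3 (onCell 0 67108864 0 1073741824 780900216 37827925 (corT true 1 c0B cB101R gB0q1 gB5q1 gB2q0 gB3q0 true false)) t 1 1 1 = true :=
  ⟨(T.l 1), by decide +kernel⟩

def B102E_000 :
    ∃ t, chk3 (onCell 0 67108864 0 1073741824 780900216 37827925 (corX 1 c0B cB102E tB102E gB0q1 gB0q2 gB0q0 gB1q0 gB0q0 true true)) t 1 1 1 = true :=
  ⟨(T.b (T.b (T.l 1) (T.b (T.l 1) (T.a (T.b (T.l 1) (T.a (T.b (T.l 1) (T.l 207)) (T.l 1))) (T.l 1)))) (T.b (T.b (T.a (T.a (T.a (T.b (T.l 207) (T.l 207)) (T.l 207)) (T.b (T.l 207) (T.l 207))) (T.a (T.l 207) (T.b (T.a (T.l 207) (T.a (T.l 207) (T.a (T.l 207) (T.b (T.b (T.l 1) (T.l 207)) (T.b (T.l 207) (T.l 716)))))) (T.a (T.b (T.l 207) (T.l 204)) (T.b (T.a (T.c (T.l 204) (T.l 204)) (T.c (T.l 716) (T.l 716))) (T.a (T.l 204) (T.l 716))))))) (T.l 2)) (T.l 2))), by decide +kernel⟩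

def B102E_001 :
    ∃ t, chk3 (onCell 0 67108864 0 1073741824 780900216 37827925 (corT true 1 c0B cB102E gB0q1 gB0q2 gB1q0 gB2q0 true true)) t 1 1 1 = true :=
  ⟨(T.b (T.l 1) (T.b (T.b (T.b (T.l 1) (T.b (T.l 1) (T.a (T.a (T.c (T.a (T.l 204) (T.l 204)) (T.l 204)) (T.c (T.l 204) (T.l 204))) (T.a (T.l 204) (T.a (T.l 204) (T.a (T.l 204) (T.l 716))))))) (T.a (T.b (T.a (T.l 236) (T.l 204)) (T.l 204)) (T.a (T.a (T.l 236) (T.b (T.l 204) (T.b (T.l 204) (T.l 204)))) (T.a (T.b (T.b (T.l 716) (T.l 204)) (T.b (T.l 204) (T.l 204))) (T.b (T.a (T.b (T.l 204) (T.l 204)) (T.b (T.l 204) (T.l 204))) (T.a (T.l 204) (T.l 716))))))) (T.b (T.b (T.a (T.l 204) (T.b (T.b (T.b (T.b (T.b (T.a (T.a (T.l 204) (T.l 204)) (T.a (T.l 204) (T.l 204))) (T.a (T.a (T.l 204) (T.l 204)) (T.a (T.l 204) (T.l 204)))) (T.a (T.l 2) (T.a (T.l 204) (T.l 204)))) (T.l 2)) (T.l 2)) (T.l 2))) (T.l 2))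 (T.l 2)))), by decide +kernel⟩

def B102E_002 :
    ∃ t, chk3 (onCell 0 67108864 0 1073741824 780900216 37827925 (corT true 1 c0B cB102E gB0q1 gB0q2 gB2q0 gB3q0 true false)) t 1 1 1 = true :=
  ⟨(T.b (T.l 1) (T.b (T.b (T.l 1) (T.b (T.l 1) (T.a (T.a (T.l 204) (T.l 1)) (T.l 1)))) (T.a (T.b (T.b (T.l 204) (T.l 204)) (T.b (T.a (T.l 204) (T.l 204)) (T.a (T.l 204) (T.l 204)))) (T.a (T.b (T.a (T.l 204) (T.b (T.b (T.l 204) (T.l 204)) (T.l 204))) (T.a (T.b (T.b (T.l 204) (T.l 204)) (T.a (T.l 204) (T.l 204))) (T.b (T.b (T.l 204) (T.l 204)) (T.a (T.l 204) (T.l 204))))) (T.b (T.a (T.b (T.b (T.l 204) (T.l 204)) (T.l 204)) (T.b (T.b (T.l 716) (T.l 204)) (T.l 716))) (T.a (T.b (T.l 236) (T.a (T.l 204) (T.l 204))) (T.b (T.b (T.l 204) (T.l 204)) (T.a (T.l 204) (T.l 236))))))))), by decide +kernel⟩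

def B102E_010_1_4_1 :
    ∃ t, chk3 (onCell 0 67108864 0 1073741824 780900216 37827925 (corT true 1 c0B cB102E gB0q1 gB1q2 gB0q0 gB1q0 true true)) t 1 4 1 = true :=
  ⟨(T.l 1), by decide +kernel⟩

def B102E_010_1_10_1 :
    ∃ t, chk3 (onCell 0 67108864 0 1073741824 780900216 37827925 (corT true 1 c0B cB102E gB0q1 gB1q2 gB0q0 gB1q0 true true)) t 1 10 1 = true :=
  ⟨(T.l 1), by decide +kernel⟩

def B102E_010_1_22_1 :
    ∃ t, chk3 (onCell 0 67108864 0 1073741824 780900216 37827925 (corT true 1 c0B cB102E gB0q1 gB1q2 gB0q0 gB1q0 true true)) t 1 22 1 = true :=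
  ⟨(T.l 1), by decide +kernel⟩

def B102E_010_2_23_1 :
    ∃ t, chk3 (onCell 0 67108864 0 1073741824 780900216 37827925 (corT true 1 c0B cB102E gB0q1 gB1q2 gB0q0 gB1q0 true true)) t 2 23 1 = true :=
  ⟨(T.b (T.b (T.b (T.a (T.a (T.a (T.b (T.l 1) (T.b (T.l 1) (T.b (T.l 1) (T.a (T.l 0) (T.a (T.l 816) (T.l 1)))))) (T.l 1)) (T.l 1)) (T.l 1)) (T.a (T.a (T.b (T.a (T.l 0) (T.b (T.b (T.a (T.c (T.l 816) (T.l 816)) (T.l 1)) (T.l 0)) (T.l 0))) (T.l 0)) (T.b (T.b (T.l 1) (T.a (T.a (T.l 816) (T.a (T.l 816) (T.b (T.l 1) (T.l 816)))) (T.b (T.l 1) (T.a (T.l 816) (T.l 1))))) (T.c (T.l 0) (T.l 0)))) (T.b (T.l 1) (T.a (T.b (T.a (T.b (T.a (T.a (T.l 816) (T.l 1)) (T.l 1)) (T.c (T.c (T.l 816) (T.l 816)) (T.l 816))) (T.l 1)) (T.a (T.l 816) (T.a (T.l 816) (T.b (T.l 1) (T.l 816))))) (T.a (T.a (T.a (T.b (T.l 1) (T.b (T.l 1) (T.l 816))) (T.l 1)) (T.l 1)) (T.l 1)))))) (T.a (T.l 0)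 (T.b (T.a (T.l 0) (T.b (T.a (T.c (T.c (T.l 816) (T.l 816)) (T.l 816)) (T.b (T.b (T.l 1) (T.a (T.l 816) (T.l 1))) (T.l 816))) (T.l 0))) (T.l 0)))) (T.l 0)), by decide +kernel⟩

def B102E_010_3_23_1 :
    ∃ t, chk3 (onCell 0 67108864 0 1073741824 780900216 37827925 (corT true 1 c0B cB102E gB0q1 gB1q2 gB0q0 gB1q0 true true)) t 3 23 1 = true :=
  ⟨(T.b (T.b (T.l 1) (T.a (T.b (T.b (T.a (T.a (T.b (T.l 1) (T.b (T.a (T.a (T.l 816) (T.l 1)) (T.l 1)) (T.c (T.l 816) (T.l 816)))) (T.l 1)) (T.l 1)) (T.a (T.a (T.l 816) (T.a (T.l 816) (T.b (T.b (T.l 1) (T.l 816)) (T.l 816)))) (T.b (T.a (T.a (T.b (T.l 1) (T.a (T.l 816) (T.l 1))) (T.l 1)) (T.l 1)) (T.a (T.c (T.l 816) (T.l 816)) (T.b (T.l 1) (T.a (T.l 816) (T.l 1))))))) (T.a (T.l 0) (T.c (T.l 0) (T.l 0)))) (T.b (T.l 1) (T.a (T.b (T.b (T.a (T.b (T.a (T.a (T.l 816) (T.l 1)) (T.l 1)) (T.c (T.l 816) (T.l 816))) (T.l 1)) (T.a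 (T.l 816) (T.c (T.a (T.l 816) (T.b (T.l 1) (T.l 816))) (T.l 816)))) (T.l 816)) (T.b (T.a (T.a (T.b (T.l 1) (T.a (T.b (T.l 1) (T.l 816)) (T.l 1))) (T.l 1)) (T.l 1)) (T.a (T.c (T.l 820) (T.l 816)) (T.b (T.b (T.l 1) (T.a (T.l 816) (T.l 1))) (T.l 816)))))))) (T.a (T.l 0) (T.a (T.l 0) (T.c (T.l 0) (T.l 0))))), by decide +kernel⟩

def B102E_010_1_3_1 :
    ∃ t, chk3 (onCell 0 67108864 0 1073741824 780900216 37827925 (corT true 1 c0B cB102E gB0q1 gB1q2 gB0q0 gB1q0 true true)) t 1 3 1 = true :=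
  ⟨(T.b (T.b (T.a (T.b (T.l 204) (T.l 204)) (T.a (T.l 204) (T.a (T.l 204) (T.b (T.l 204) (T.l 204))))) (T.l 2)) (T.l 2)), by decide +kernel⟩

theorem B102E_010_1_23_1 :
    ∃ t, chk3 (onCell 0 67108864 0 1073741824 780900216 37827925 (corT true 1 c0B cB102E gB0q1 gB1q2 gB0q0 gB1q0 true true)) t 1 23 1 = true :=
  ex3_a B102E_010_2_23_1 B102E_010_3_23_1
theorem B102E_010_1_11_1 :
    ∃ t, chk3 (onCell 0 67108864 0 1073741824 780900216 37827925 (corT true 1 c0B cB102E gB0q1 gB1q2 gB0q0 gB1q0 true true)) t 1 11 1 = true :=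
  ex3_b B102E_010_1_22_1 B102E_010_1_23_1
theorem B102E_010_1_5_1 :
    ∃ t, chk3 (onCell 0 67108864 0 1073741824 780900216 37827925 (corT true 1 c0B cB102E gB0q1 gB1q2 gB0q0 gB1q0 true true)) t 1 5 1 = true :=
  ex3_b B102E_010_1_10_1 B102E_010_1_11_1
theorem B102E_010_1_2_1 :
    ∃ t, chk3 (onCell 0 67108864 0 1073741824 780900216 37827925 (corT true 1 c0B cB102E gB0q1 gB1q2 gB0q0 gB1q0 true true)) t 1 2 1 = true :=
  ex3_b B102E_010_1_4_1 B102E_010_1_5_1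
theorem B102E_010 :
    ∃ t, chk3 (onCell 0 67108864 0 1073741824 780900216 37827925 (corT true 1 c0B cB102E gB0q1 gB1q2 gB0q0 gB1q0 true true)) t 1 1 1 = true :=
  ex3_b B102E_010_1_2_1 B102E_010_1_3_1

def B102E_011 :
    ∃ t, chk3 (onCell 0 67108864 0 1073741824 780900216 37827925 (corT true 1 c0B cB102E gB0q1 gB1q2 gB1q0 gB2q0 true true)) t 1 1 1 = true :=
  ⟨(T.b (T.l 1) (T.b (T.b (T.a (T.b (T.l 204) (T.l 204)) (T.a (T.l 204) (T.b (T.l 1) (T.b (T.l 204) (T.l 204))))) (T.a (T.l 204) (T.a (T.a (T.l 204) (T.l 204)) (T.a (T.l 204) (T.b (T.l 204) (T.l 204)))))) (T.l 2))), by decide +kernel⟩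

def B102E_012 :
    ∃ t, chk3 (onCell 0 67108864 0 1073741824 780900216 37827925 (corT true 1 c0B cB102E gB0q1 gB1q2 gB2q0 gB3q0 true false)) t 1 1 1 = true :=
  ⟨(T.b (T.l 1) (T.b (T.b (T.l 1) (T.a (T.l 204) (T.b (T.l 1) (T.b (T.l 1) (T.a (T.l 716) (T.c (T.l 204) (T.l 204))))))) (T.a (T.b (T.b (T.l 204) (T.l 204)) (T.b (T.l 204) (T.a (T.l 204) (T.l 204)))) (T.a (T.b (T.a (T.l 204) (T.b (T.l 204) (T.l 204))) (T.a (T.b (T.l 204) (T.a (T.l 204) (T.l 204))) (T.b (T.b (T.l 204) (T.l 204)) (T.a (T.l 204) (T.l 204))))) (T.b (T.a (T.b (T.l 204) (T.l 204)) (T.b (T.l 204) (T.l 204))) (T.a (T.b (T.l 204) (T.a (T.l 204) (T.l 204))) (T.b (T.l 236) (T.a (T.l 204) (T.l 236))))))))), by decide +kernel⟩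

def B102E_020 :
    ∃ t, chk3 (onCell 0 67108864 0 1073741824 780900216 37827925 (corT true 1 c0B cB102E gB0q1 gB2q2 gB0q0 gB1q0 true true)) t 1 1 1 = true :=
  ⟨(T.b (T.b (T.l 1) (T.a (T.b (T.b (T.l 1) (T.b (T.b (T.l 1) (T.b (T.a (T.b (T.l 1) (T.c (T.l 204) (T.a (T.l 204) (T.l 204)))) (T.l 1)) (T.a (T.l 204) (T.c (T.l 204) (T.a (T.l 204) (T.b (T.l 1) (T.l 204))))))) (T.a (T.l 204) (T.l 204)))) (T.b (T.l 204) (T.l 204))) (T.b (T.b (T.l 1) (T.b (T.a (T.a (T.b (T.l 1) (T.a (T.b (T.l 1) (T.b (T.l 1) (T.l 204))) (T.l 1))) (T.l 1)) (T.l 1)) (T.a (T.b (T.c (T.l 204) (T.a (T.l 204) (T.c (T.l 204) (T.l 220)))) (T.l 204)) (T.b (T.b (T.a (T.b (T.l 1) (T.c (T.l 204) (T.l 204))) (T.l 1)) (T.a (T.l 204) (T.c (T.l 204) (T.l 204)))) (T.l 204))))) (T.a (T.l 204) (T.b (T.l 204) (T.l 204)))))) (T.b (T.l 2) (T.l 2))), by decide +kernel⟩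

def B102E_021 :
    ∃ t, chk3 (onCell 0 67108864 0 1073741824 780900216 37827925 (corT true 1 c0B cB102E gB0q1 gB2q2 gB1q0 gB2q0 true true)) t 1 1 1 = true :=
  ⟨(T.b (T.b (T.l 1) (T.b (T.l 1) (T.b (T.l 1) (T.a (T.l 204) (T.a (T.l 204) (T.l 204)))))) (T.b (T.a (T.l 204) (T.b (T.a (T.l 204) (T.b (T.l 204) (T.l 204))) (T.b (T.a (T.l 204) (T.l 204)) (T.l 2)))) (T.l 2))), by decide +kernel⟩

def B102E_022 :
    ∃ t, chk3 (onCell 0 67108864 0 1073741824 780900216 37827925 (corT true 1 c0B cB102E gB0q1 gB2q2 gB2q0 gB3q0 true false)) t 1 1 1 = true :=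
  ⟨(T.b (T.l 1) (T.a (T.b (T.l 204) (T.b (T.l 204) (T.b (T.l 204) (T.a (T.l 204) (T.l 204))))) (T.b (T.b (T.l 1) (T.a (T.b (T.l 204) (T.l 204)) (T.b (T.l 204) (T.l 204)))) (T.a (T.b (T.a (T.l 204) (T.l 204)) (T.a (T.b (T.l 204) (T.a (T.l 204) (T.l 204))) (T.b (T.l 236) (T.a (T.l 204) (T.l 204))))) (T.b (T.a (T.l 204) (T.l 236)) (T.a (T.b (T.l 204) (T.a (T.l 204) (T.l 204))) (T.b (T.l 204) (T.a (T.l 204) (T.l 236))))))))), by decide +kernel⟩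

def B102L_300 :
    ∃ t, chk3 (onCell 0 67108864 0 1073741824 780900216 37827925 (corT true 1 c0B cB102L gB3q1 gB0q2 gB0q0 gB1q0 true true)) t 1 1 1 = true :=
  ⟨(T.b (T.l 2) (T.b (T.l 2) (T.a (T.l 0) (T.a (T.l 0) (T.b (T.l 204) (T.b (T.l 0) (T.l 0))))))), by decide +kernel⟩

def B102L_301 :
    ∃ t, chk3 (onCell 0 67108864 0 1073741824 780900216 37827925 (corT true 1 c0B cB102L gB3q1 gB0q2 gB1q0 gB2q0 true true)) t 1 1 1 = true :=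
  ⟨(T.b (T.b (T.l 2) (T.b (T.l 2) (T.l 2))) (T.b (T.a (T.l 204) (T.b (T.b (T.l 2) (T.l 204)) (T.l 204))) (T.a (T.l 0) (T.b (T.l 204) (T.b (T.l 0) (T.l 1)))))), by decide +kernel⟩

def B102L_302 :
    ∃ t, chk3 (onCell 0 67108864 0 1073741824 780900216 37827925 (corT true 1 c0B cB102L gB3q1 gB0q2 gB2q0 gB3q0 true false)) t 1 1 1 = true :=
  ⟨(T.b (T.b (T.b (T.a (T.a (T.l 204) (T.l 204)) (T.a (T.l 204) (T.l 204))) (T.a (T.l 204) (T.a (T.l 204) (T.l 204)))) (T.a (T.l 204) (T.a (T.l 204) (T.b (T.l 204) (T.l 204))))) (T.b (T.a (T.l 204) (T.b (T.b (T.l 204) (T.l 204)) (T.l 1))) (T.l 1))), by decide +kernel⟩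

def B102L_310 :
    ∃ t, chk3 (onCell 0 67108864 0 1073741824 780900216 37827925 (corT true 1 c0B cB102L gB3q1 gB1q2 gB0q0 gB1q0 true true)) t 1 1 1 = true :=
  ⟨(T.b (T.l 2) (T.b (T.l 2) (T.a (T.l 0) (T.a (T.l 0) (T.b (T.l 204) (T.l 0)))))), by decide +kernel⟩

def B102L_311 :
    ∃ t, chk3 (onCell 0 67108864 0 1073741824 780900216 37827925 (corT true 1 c0B cB102L gB3q1 gB1q2 gB1q0 gB2q0 true true)) t 1 1 1 = true :=
  ⟨(T.b (T.a (T.l 204) (T.b (T.l 2) (T.l 204))) (T.a (T.l 0) (T.b (T.l 204) (T.b (T.l 204) (T.l 1))))), by decide +kernel⟩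

def B102L_312 :
    ∃ t, chk3 (onCell 0 67108864 0 1073741824 780900216 37827925 (corT true 1 c0B cB102L gB3q1 gB1q2 gB2q0 gB3q0 true false)) t 1 1 1 = true :=
  ⟨(T.b (T.a (T.l 204) (T.b (T.a (T.l 204) (T.l 204)) (T.l 204))) (T.b (T.a (T.l 1) (T.l 204)) (T.l 1))), by decide +kernel⟩

def B102L_320 :
    ∃ t, chk3 (onCell 0 67108864 0 1073741824 780900216 37827925 (corT true 1 c0B cB102L gB3q1 gB2q2 gB0q0 gB1q0 true true)) t 1 1 1 = true :=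
  ⟨(T.b (T.l 2) (T.a (T.l 0) (T.b (T.l 204) (T.a (T.l 0) (T.b (T.l 204) (T.l 0)))))), by decide +kernel⟩

def B102L_321 :
    ∃ t, chk3 (onCell 0 67108864 0 1073741824 780900216 37827925 (corT true 1 c0B cB102L gB3q1 gB2q2 gB1q0 gB2q0 true true)) t 1 1 1 = true :=
  ⟨(T.b (T.a (T.l 204) (T.b (T.a (T.l 204) (T.l 204)) (T.l 204))) (T.a (T.l 0) (T.b (T.l 204) (T.b (T.l 204) (T.l 1))))), by decide +kernel⟩

def B102L_322 :
    ∃ t, chk3 (onCell 0 67108864 0 1073741824 780900216 37827925 (corT true 1 c0B cB102L gB3q1 gB2q2 gB2q0 gB3q0 true false)) t 1 1 1 = true :=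
  ⟨(T.b (T.a (T.l 204) (T.b (T.a (T.l 204) (T.l 204)) (T.l 1))) (T.l 1)), by decide +kernel⟩

def B102L_400 :
    ∃ t, chk3 (onCell 0 67108864 0 1073741824 780900216 37827925 (corT true 1 c0B cB102L gB4q1 gB0q2 gB0q0 gB1q0 true true)) t 1 1 1 = true :=
  ⟨(T.b (T.l 2) (T.b (T.l 2) (T.a (T.l 0) (T.l 2)))), by decide +kernel⟩

def B102L_401 :
    ∃ t, chk3 (onCell 0 67108864 0 1073741824 780900216 37827925 (corT true 1 c0B cB102L gB4q1 gB0q2 gB1q0 gB2q0 true true)) t 1 1 1 = true :=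
  ⟨(T.b (T.b (T.l 2) (T.l 2)) (T.a (T.l 0) (T.a (T.l 0) (T.b (T.b (T.l 2) (T.l 204)) (T.l 0))))), by decide +kernel⟩

def B102L_402 :
    ∃ t, chk3 (onCell 0 67108864 0 1073741824 780900216 37827925 (corT true 1 c0B cB102L gB4q1 gB0q2 gB2q0 gB3q0 true false)) t 1 1 1 = true :=
  ⟨(T.b (T.b (T.b (T.a (T.a (T.l 204) (T.l 204)) (T.a (T.l 204) (T.l 204))) (T.a (T.l 204) (T.a (T.l 204) (T.l 204)))) (T.a (T.l 204) (T.a (T.l 204) (T.b (T.l 204) (T.l 204))))) (T.b (T.a (T.l 204) (T.b (T.b (T.l 204) (T.l 204)) (T.l 204))) (T.l 1))), by decide +kernel⟩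

def B102L_410 :
    ∃ t, chk3 (onCell 0 67108864 0 1073741824 780900216 37827925 (corT true 1 c0B cB102L gB4q1 gB1q2 gB0q0 gB1q0 true true)) t 1 1 1 = true :=
  ⟨(T.b (T.l 2) (T.b (T.l 2) (T.a (T.l 0) (T.l 2)))), by decide +kernel⟩

def B102L_411 :
    ∃ t, chk3 (onCell 0 67108864 0 1073741824 780900216 37827925 (corT true 1 c0B cB102L gB4q1 gB1q2 gB1q0 gB2q0 true true)) t 1 1 1 = true :=
  ⟨(T.a (T.l 0) (T.b (T.b (T.l 2) (T.l 2)) (T.a (T.l 0) (T.b (T.l 204) (T.l 0))))), by decide +kernel⟩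

def B102L_412 :
    ∃ t, chk3 (onCell 0 67108864 0 1073741824 780900216 37827925 (corT true 1 c0B cB102L gB4q1 gB1q2 gB2q0 gB3q0 true false)) t 1 1 1 = true :=
  ⟨(T.a (T.l 64) (T.a (T.l 0) (T.a (T.l 0) (T.b (T.b (T.l 204) (T.l 204)) (T.b (T.l 204) (T.l 1)))))), by decide +kernel⟩

def B102L_420 :
    ∃ t, chk3 (onCell 0 67108864 0 1073741824 780900216 37827925 (corT true 1 c0B cB102L gB4q1 gB2q2 gB0q0 gB1q0 true true)) t 1 1 1 = true :=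
  ⟨(T.b (T.l 2) (T.b (T.l 2) (T.a (T.l 0) (T.l 2)))), by decide +kernel⟩

end Pool.Agent.Strip051.G.I72727_7625.Tab.CG
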