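import Pool.Agent.Strip051.G.I72727_7625.Gn
import Pool.Agent.Strip051.PB.Corns
import Pool.Agent.Strip051.PB.CornW

/-! # Certificates of the aligned corners (generated) -/

set_option linter.all false

namespace Pool.Agent.Strip051.G.I72727_7625.Tab.CW

open Pool.Agent.Strip051.PB

def A011E_000 :
    ∃ t, chk3 (onCell 0 67108864 0 1073741824 780900216 37827925 (corW 3 c0B eng mog cA011E gB0q0 gB0q1 gB0q1 gB1q1 dB0q0 dB0q1 dB0q1 dB1q1 true false)) t 1 1 1 = true :=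
  ⟨(T.l 1), by decide +kernel⟩

def A011L_002 :
    ∃ t, chk3 (onCell 0 67108864 0 1073741824 780900216 37827925 (corW 3 c0B eng mog cA011L gB0q0 gB0q1 gB2q1 gB3q1 dB0q0 dB0q1 dB2q1 dB3q1 false true)) t 1 1 1 = true :=
  ⟨(T.l 2), by decide +kernel⟩

def A011L_003 :
    ∃ t, chk3 (onCell 0 67108864 0 1073741824 780900216 37827925 (corW 3 c0B eng mog cA011L gB0q0 gB0q1 gB3q1 gB4q1 dB0q0 dB0q1 dB3q1 dB4q1 true true)) t 1 1 1 = true :=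
  ⟨(T.l 2), by decide +kernel⟩

def A011L_004 :
    ∃ t, chk3 (onCell 0 67108864 0 1073741824 780900216 37827925 (corW 3 c0B eng mog cA011L gB0q0 gB0q1 gB4q1 gB5q1 dB0q0 dB0q1 dB4q1 dB5q1 true true)) t 1 1 1 = true :=
  ⟨(T.l 2), by decide +kernel⟩

def A011R_030 :
    ∃ t, chk3 (onCell 0 67108864 0 1073741824 780900216 37827925 (corW 3 c0B eng mog cA011R gB0q0 gB3q1 gB0q1 gB1q1 dB0q0 dB3q1 dB0q1 dB1q1 true false)) t 1 1 1 = true :=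
  ⟨(T.b (T.b (T.b (T.b (T.a (T.l 204) (T.a (T.l 204) (T.l 220))) (T.b (T.a (T.l 204) (T.a (T.l 204) (T.a (T.l 204) (T.l 204)))) (T.l 1))) (T.l 1)) (T.l 1)) (T.l 1)), by decide +kernel⟩

def A011R_040 :
    ∃ t, chk3 (onCell 0 67108864 0 1073741824 780900216 37827925 (corW 3 c0B eng mog cA011R gB0q0 gB4q1 gB0q1 gB1q1 dB0q0 dB4q1 dB0q1 dB1q1 true false)) t 1 1 1 = true :=
  ⟨(T.b (T.b (T.a (T.b (T.l 204) (T.b (T.l 204) (T.b (T.b (T.l 204) (T.l 1)) (T.l 1)))) (T.a (T.b (T.l 204) (T.b (T.l 204) (T.b (T.l 204) (T.l 1)))) (T.b (T.l 204) (T.b (T.l 204) (T.b (T.a (T.l 204) (T.l 204)) (T.l 1)))))) (T.l 1)) (T.l 1)), by decide +kernel⟩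

def A011R_050 :
    ∃ t, chk3 (onCell 0 67108864 0 1073741824 780900216 37827925 (corW 3 c0B eng mog cA011R gB0q0 gB5q1 gB0q1 gB1q1 dB0q0 dB5q1 dB0q1 dB1q1 true false)) t 1 1 1 = true :=
  ⟨(T.b (T.b (T.b (T.l 0) (T.a (T.l 0) (T.l 0))) (T.b (T.b (T.b (T.l 0) (T.a (T.l 0) (T.l 0))) (T.b (T.b (T.a (T.a (T.c (T.l 0) (T.l 0)) (T.l 0)) (T.l 0)) (T.a (T.a (T.b (T.b (T.c (T.l 0) (T.l 0)) (T.a (T.c (T.a (T.b (T.a (T.b (T.l 0) (T.b (T.l 0) (T.b (T.c (T.l 0) (T.l 0)) (T.l 1)))) (T.l 0)) (T.l 1)) (T.b (T.l 0) (T.b (T.b (T.a (T.l 1) (T.l 0)) (T.l 1)) (T.l 1)))) (T.a (T.b (T.b (T.l 0) (T.a (T.b (T.l 0) (T.a (T.l 1) (T.b (T.l 0) (T.l 1)))) (T.l 0))) (T.l 1)) (T.b (T.l 0) (T.b (T.b (T.a (T.l 1) (T.l 0)) (T.l 1)) (T.l 1))))) (T.b (T.l 0) (T.c (T.a (T.b (T.a (T.b (T.l 0) (T.l 1)) (T.l 0)) (T.l 1)) (T.b (T.l 0) (T.a (T.l 1) (T.b (T.l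 0) (T.l 1))))) (T.a (T.b (T.a (T.b (T.l 0) (T.l 1)) (T.l 0)) (T.l 1)) (T.b (T.l 0) (T.a (T.l 1) (T.b (T.l 0) (T.l 1))))))))) (T.l 1)) (T.a (T.b (T.b (T.l 0) (T.a (T.b (T.l 0) (T.a (T.b (T.l 0) (T.b (T.l 0) (T.l 1))) (T.l 0))) (T.l 0))) (T.a (T.l 1) (T.a (T.l 1) (T.l 1)))) (T.b (T.l 0) (T.b (T.b (T.b (T.a (T.c (T.l 0) (T.l 0)) (T.l 0)) (T.l 1)) (T.l 1)) (T.l 1))))) (T.b (T.a (T.l 0) (T.l 0)) (T.a (T.b (T.a (T.b (T.c (T.l 0) (T.l 0)) (T.l 1)) (T.b (T.l 0) (T.b (T.c (T.l 0) (T.l 0)) (T.l 1)))) (T.l 1)) (T.b (T.c (T.l 0) (T.a (T.l 0) (T.l 0))) (T.a (T.l 1) (T.a (T.l 1) (T.b (T.b (T.l 0) (T.l 1)) (T.l 1))))))))) (T.l 1))) (T.l 1))) (T.l 1)), by decide +kernel⟩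

def A011R_130 :
    ∃ t, chk3 (onCell 0 67108864 0 1073741824 780900216 37827925 (corW 3 c0B eng mog cA011R gB1q0 gB3q1 gB0q1 gB1q1 dB1q0 dB3q1 dB0q1 dB1q1 true false)) t 1 1 1 = true :=
  ⟨(T.l 1), by decide +kernel⟩

def A011R_140 :
    ∃ t, chk3 (onCell 0 67108864 0 1073741824 780900216 37827925 (corW 3 c0B eng mog cA011R gB1q0 gB4q1 gB0q1 gB1q1 dB1q0 dB4q1 dB0q1 dB1q1 true false)) t 1 1 1 = true :=
  ⟨(T.b (T.b (T.b (T.a (T.l 0) (T.l 0)) (T.l 1)) (T.l 1)) (T.l 1)), by decide +kernel⟩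

def A011R_150 :
    ∃ t, chk3 (onCell 0 67108864 0 1073741824 780900216 37827925 (corW 3 c0B eng mog cA011R gB1q0 gB5q1 gB0q1 gB1q1 dB1q0 dB5q1 dB0q1 dB1q1 true false)) t 1 1 1 = true :=
  ⟨(T.b (T.b (T.a (T.l 816) (T.b (T.l 816) (T.l 816))) (T.l 1)) (T.l 1)), by decide +kernel⟩

def A011R_230 :
    ∃ t, chk3 (onCell 0 67108864 0 1073741824 780900216 37827925 (corW 3 c0B eng mog cA011R gB2q0 gB3q1 gB0q1 gB1q1 dB2q0 dB3q1 dB0q1 dB1q1 true false)) t 1 1 1 = true :=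
  ⟨(T.l 1), by decide +kernel⟩

def A011R_240 :
    ∃ t, chk3 (onCell 0 67108864 0 1073741824 780900216 37827925 (corW 3 c0B eng mog cA011R gB2q0 gB4q1 gB0q1 gB1q1 dB2q0 dB4q1 dB0q1 dB1q1 true false)) t 1 1 1 = true :=
  ⟨(T.l 1), by decide +kernel⟩

def A011R_250 :
    ∃ t, chk3 (onCell 0 67108864 0 1073741824 780900216 37827925 (corW 3 c0B eng mog cA011R gB2q0 gB5q1 gB0q1 gB1q1 dB2q0 dB5q1 dB0q1 dB1q1 true false)) t 1 1 1 = true :=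
  ⟨(T.l 1), by decide +kernel⟩

def A012E_000_1_4_1 :
    ∃ t, chk3 (onCell 0 67108864 0 1073741824 780900216 37827925 (corW 3 c0B eng mog cA012E gB0q0 gB0q1 gB0q2 gB1q2 dB0q0 dB0q1 dB0q2 dB1q2 true true)) t 1 4 1 = true :=
  ⟨(T.l 1), by decide +kernel⟩

def A012E_000_1_5_1 :
    ∃ t, chk3 (onCell 0 67108864 0 1073741824 780900216 37827925 (corW 3 c0B eng mog cA012E gB0q0 gB0q1 gB0q2 gB1q2 dB0q0 dB0q1 dB0q2 dB1q2 true true)) t 1 5 1 = true :=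
  ⟨(T.b (T.l 1) (T.b (T.l 1) (T.b (T.l 1) (T.a (T.b (T.l 1) (T.a (T.b (T.l 1) (T.a (T.b (T.l 1) (T.a (T.b (T.l 1) (T.c (T.c (T.a (T.b (T.l 1) (T.a (T.b (T.l 1) (T.l 0)) (T.l 0))) (T.a (T.b (T.a (T.l 1) (T.l 0)) (T.l 0)) (T.l 0))) (T.a (T.b (T.l 1) (T.a (T.b (T.l 1) (T.l 0)) (T.l 0))) (T.a (T.b (T.a (T.l 1) (T.l 0)) (T.l 0)) (T.l 0)))) (T.c (T.a (T.b (T.l 1) (T.c (T.l 0) (T.l 0))) (T.a (T.b (T.a (T.l 1) (T.l 0)) (T.l 0)) (T.l 0))) (T.a (T.b (T.l 1) (T.l 0)) (T.c (T.c (T.l 0) (T.l 0)) (T.l 0)))))) (T.b (T.c (T.b (T.a (T.l 1) (T.a (T.l 1) (T.l 0))) (T.a (T.a (T.l 1) (T.l 0)) (T.l 0))) (T.b (T.a (T.l 1) (T.a (T.l 1) (T.l 0))) (T.a (T.a (T.l 1) (T.l 0)) (T.l 0)))) (T.l 0)))) (T.b (T.b (T.a (T.l 1) (T.a (T.l 1) (T.b (T.l 1) (T.l 0)))) (T.a (T.a (T.l 1) (T.b (T.l 1) (T.l 0))) (T.c (T.l 0) (T.l 0)))) (T.c (T.l 0) (T.l 0)))))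 (T.a (T.b (T.b (T.l 1) (T.a (T.l 1) (T.b (T.l 1) (T.c (T.l 0) (T.l 0))))) (T.a (T.c (T.l 0) (T.c (T.l 0) (T.l 0))) (T.l 0))) (T.b (T.b (T.a (T.l 1) (T.a (T.l 1) (T.b (T.l 1) (T.l 0)))) (T.a (T.a (T.b (T.l 1) (T.l 0)) (T.l 0)) (T.l 0))) (T.l 0))))) (T.a (T.b (T.b (T.l 1) (T.a (T.l 1) (T.b (T.l 1) (T.b (T.a (T.l 1) (T.l 0)) (T.l 0))))) (T.a (T.b (T.a (T.b (T.b (T.l 1) (T.l 0)) (T.l 0)) (T.l 0)) (T.l 0)) (T.l 0))) (T.b (T.b (T.a (T.l 1) (T.a (T.l 1) (T.b (T.l 1) (T.l 0)))) (T.a (T.b (T.a (T.l 1) (T.l 0)) (T.l 0)) (T.l 0))) (T.a (T.l 0) (T.c (T.l 0) (T.l 0))))))))), by decide +kernel⟩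

def A012E_000_1_3_1 :
    ∃ t, chk3 (onCell 0 67108864 0 1073741824 780900216 37827925 (corW 3 c0B eng mog cA012E gB0q0 gB0q1 gB0q2 gB1q2 dB0q0 dB0q1 dB0q2 dB1q2 true true)) t 1 3 1 = true :=
  ⟨(T.b (T.b (T.b (T.a (T.a (T.b (T.b (T.a (T.c (T.c (T.l 0) (T.l 0)) (T.c (T.l 0) (T.l 0))) (T.c (T.l 0) (T.l 0))) (T.a (T.c (T.l 0) (T.l 0)) (T.l 0))) (T.a (T.c (T.l 0) (T.l 0)) (T.c (T.l 0) (T.l 0)))) (T.b (T.b (T.c (T.l 0) (T.l 0)) (T.c (T.l 0) (T.l 0))) (T.a (T.c (T.l 0) (T.l 0)) (T.l 0)))) (T.a (T.b (T.b (T.c (T.l 0) (T.l 0)) (T.l 0)) (T.c (T.l 0) (T.l 0))) (T.a (T.b (T.l 0) (T.l 204)) (T.b (T.a (T.l 204) (T.c (T.l 204) (T.l 204))) (T.b (T.c (T.l 204) (T.l 204)) (T.l 2)))))) (T.l 2)) (T.l 2)) (T.l 2)), by decide +kernel⟩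

theorem A012E_000_1_2_1 :
    ∃ t, chk3 (onCell 0 67108864 0 1073741824 780900216 37827925 (corW 3 c0B eng mog cA012E gB0q0 gB0q1 gB0q2 gB1q2 dB0q0 dB0q1 dB0q2 dB1q2 true true)) t 1 2 1 = true :=
  ex3_b A012E_000_1_4_1 A012E_000_1_5_1
theorem A012E_000 :
    ∃ t, chk3 (onCell 0 67108864 0 1073741824 780900216 37827925 (corW 3 c0B eng mog cA012E gB0q0 gB0q1 gB0q2 gB1q2 dB0q0 dB0q1 dB0q2 dB1q2 true true)) t 1 1 1 = true :=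
  ex3_b A012E_000_1_2_1 A012E_000_1_3_1

def A012E_001 :
    ∃ t, chk3 (onCell 0 67108864 0 1073741824 780900216 37827925 (corW 3 c0B eng mog cA012E gB0q0 gB0q1 gB1q2 gB2q2 dB0q0 dB0q1 dB1q2 dB2q2 true true)) t 1 1 1 = true :=
  ⟨(T.b (T.l 1) (T.b (T.b (T.b (T.b (T.a (T.l 1) (T.l 1)) (T.a (T.b (T.a (T.l 1) (T.b (T.l 1) (T.c (T.l 204) (T.l 204)))) (T.a (T.c (T.a (T.l 0) (T.l 0)) (T.l 0)) (T.l 0))) (T.a (T.c (T.a (T.l 0) (T.l 0)) (T.l 0)) (T.l 0)))) (T.a (T.c (T.a (T.b (T.l 0) (T.l 816)) (T.b (T.l 0) (T.l 816))) (T.b (T.l 0) (T.l 816))) (T.c (T.a (T.l 0) (T.l 0)) (T.a (T.l 0) (T.l 0))))) (T.b (T.a (T.c (T.a (T.c (T.b (T.l 816) (T.l 816)) (T.l 816)) (T.b (T.l 816) (T.l 816))) (T.b (T.l 816) (T.l 816))) (T.b (T.a (T.c (T.l 816) (T.l 816)) (T.l 880)) (T.a (T.c (T.l 816) (T.l 816)) (T.l 2)))) (T.l 2))) (T.l 2))), by decide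 +kernel⟩

def A012E_002 :
    ∃ t, chk3 (onCell 0 67108864 0 1073741824 780900216 37827925 (corW 3 c0B eng mog cA012E gB0q0 gB0q1 gB2q2 gB3q2 dB0q0 dB0q1 dB2q2 dB3q2 true false)) t 1 1 1 = true :=
  ⟨(T.b (T.l 1) (T.b (T.b (T.l 1) (T.a (T.b (T.b (T.a (T.l 1) (T.c (T.l 816) (T.l 816))) (T.c (T.a (T.a (T.l 816) (T.l 816)) (T.l 816)) (T.l 816))) (T.c (T.a (T.b (T.l 816) (T.l 816)) (T.l 880)) (T.l 816))) (T.b (T.c (T.a (T.l 816) (T.l 816)) (T.l 816)) (T.c (T.a (T.l 816) (T.l 816)) (T.l 816))))) (T.b (T.a (T.c (T.b (T.a (T.l 816) (T.l 816)) (T.a (T.l 816) (T.l 816))) (T.b (T.l 816) (T.l 816))) (T.c (T.b (T.a (T.l 816) (T.l 816)) (T.a (T.l 816) (T.l 816))) (T.b (T.l 816) (T.l 816)))) (T.a (T.c (T.a (T.b (T.l 816) (T.l 816)) (T.b (T.l 816) (T.l 816))) (T.b (T.l 816) (T.l 816))) (T.a (T.c (T.b (T.l 816) (T.l 816)) (T.l 880))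 (T.a (T.c (T.b (T.l 816) (T.l 816)) (T.l 816)) (T.b (T.b (T.l 816) (T.l 816)) (T.a (T.l 816) (T.c (T.b (T.l 816) (T.l 816)) (T.l 816)))))))))), by decide +kernel⟩

def A012L_004 :
    ∃ t, chk3 (onCell 0 67108864 0 1073741824 780900216 37827925 (corW 3 c0B eng mog cA012L gB0q0 gB0q1 gB4q2 gB5q2 dB0q0 dB0q1 dB4q2 dB5q2 false true)) t 1 1 1 = true :=
  ⟨(T.l 2), by decide +kernel⟩

def A012R_030 :
    ∃ t, chk3 (onCell 0 67108864 0 1073741824 780900216 37827925 (corW 3 c0B eng mog cA012R gB0q0 gB3q1 gB0q2 gB1q2 dB0q0 dB3q1 dB0q2 dB1q2 true true)) t 1 1 1 = true :=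
  ⟨(T.b (T.l 2) (T.l 2)), by decide +kernel⟩

def A012R_031 :
    ∃ t, chk3 (onCell 0 67108864 0 1073741824 780900216 37827925 (corW 3 c0B eng mog cA012R gB0q0 gB3q1 gB1q2 gB2q2 dB0q0 dB3q1 dB1q2 dB2q2 true true)) t 1 1 1 = true :=
  ⟨(T.b (T.l 2) (T.l 2)), by decide +kernel⟩

def A012R_032 :
    ∃ t, chk3 (onCell 0 67108864 0 1073741824 780900216 37827925 (corW 3 c0B eng mog cA012R gB0q0 gB3q1 gB2q2 gB3q2 dB0q0 dB3q1 dB2q2 dB3q2 true false)) t 1 1 1 = true :=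
  ⟨(T.a (T.b (T.b (T.l 0) (T.l 816)) (T.b (T.l 816) (T.l 816))) (T.a (T.b (T.b (T.l 0) (T.l 816)) (T.b (T.l 816) (T.l 816))) (T.a (T.b (T.b (T.l 0) (T.l 816)) (T.l 816)) (T.b (T.b (T.b (T.l 0) (T.l 0)) (T.l 816)) (T.b (T.l 816) (T.b (T.l 816) (T.l 816))))))), by decide +kernel⟩

def A012R_040 :
    ∃ t, chk3 (onCell 0 67108864 0 1073741824 780900216 37827925 (corW 3 c0B eng mog cA012R gB0q0 gB4q1 gB0q2 gB1q2 dB0q0 dB4q1 dB0q2 dB1q2 true true)) t 1 1 1 = true :=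
  ⟨(T.l 2), by decide +kernel⟩

def A012R_041 :
    ∃ t, chk3 (onCell 0 67108864 0 1073741824 780900216 37827925 (corW 3 c0B eng mog cA012R gB0q0 gB4q1 gB1q2 gB2q2 dB0q0 dB4q1 dB1q2 dB2q2 true true)) t 1 1 1 = true :=
  ⟨(T.l 2), by decide +kernel⟩

def A012R_042 :
    ∃ t, chk3 (onCell 0 67108864 0 1073741824 780900216 37827925 (corW 3 c0B eng mog cA012R gB0q0 gB4q1 gB2q2 gB3q2 dB0q0 dB4q1 dB2q2 dB3q2 true false)) t 1 1 1 = true :=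
  ⟨(T.a (T.b (T.l 0) (T.b (T.l 816) (T.l 816))) (T.a (T.b (T.l 0) (T.b (T.l 816) (T.l 816))) (T.a (T.b (T.l 0) (T.l 816)) (T.b (T.b (T.l 0) (T.l 816)) (T.b (T.l 816) (T.b (T.l 816) (T.l 816))))))), by decide +kernel⟩

def A012R_050 :
    ∃ t, chk3 (onCell 0 67108864 0 1073741824 780900216 37827925 (corW 3 c0B eng mog cA012R gB0q0 gB5q1 gB0q2 gB1q2 dB0q0 dB5q1 dB0q2 dB1q2 true true)) t 1 1 1 = true :=
  ⟨(T.l 2), by decide +kernel⟩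

def A012R_051 :
    ∃ t, chk3 (onCell 0 67108864 0 1073741824 780900216 37827925 (corW 3 c0B eng mog cA012R gB0q0 gB5q1 gB1q2 gB2q2 dB0q0 dB5q1 dB1q2 dB2q2 true true)) t 1 1 1 = true :=
  ⟨(T.l 2), by decide +kernel⟩

def A012R_052 :
    ∃ t, chk3 (onCell 0 67108864 0 1073741824 780900216 37827925 (corW 3 c0B eng mog cA012R gB0q0 gB5q1 gB2q2 gB3q2 dB0q0 dB5q1 dB2q2 dB3q2 true false)) t 1 1 1 = true :=
  ⟨(T.b (T.b (T.l 0) (T.l 816)) (T.b (T.b (T.l 816) (T.l 816)) (T.a (T.l 816) (T.a (T.l 816) (T.b (T.l 816) (T.b (T.l 816) (T.l 816))))))), by decide +kernel⟩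

def A012R_130 :
    ∃ t, chk3 (onCell 0 67108864 0 1073741824 780900216 37827925 (corW 3 c0B eng mog cA012R gB1q0 gB3q1 gB0q2 gB1q2 dB1q0 dB3q1 dB0q2 dB1q2 true true)) t 1 1 1 = true :=
  ⟨(T.b (T.b (T.b (T.a (T.l 1) (T.b (T.l 1) (T.l 0))) (T.a (T.l 816) (T.l 816))) (T.l 2)) (T.l 2)), by decide +kernel⟩

def A012R_131 :
    ∃ t, chk3 (onCell 0 67108864 0 1073741824 780900216 37827925 (corW 3 c0B eng mog cA012R gB1q0 gB3q1 gB1q2 gB2q2 dB1q0 dB3q1 dB1q2 dB2q2 true true)) t 1 1 1 = true :=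
  ⟨(T.b (T.b (T.b (T.l 1) (T.a (T.l 816) (T.l 816))) (T.a (T.l 816) (T.l 816))) (T.l 2)), by decide +kernel⟩

def A012R_132 :
    ∃ t, chk3 (onCell 0 67108864 0 1073741824 780900216 37827925 (corW 3 c0B eng mog cA012R gB1q0 gB3q1 gB2q2 gB3q2 dB1q0 dB3q1 dB2q2 dB3q2 true false)) t 1 1 1 = true :=
  ⟨(T.a (T.b (T.l 0) (T.l 816)) (T.a (T.b (T.l 0) (T.l 816)) (T.a (T.l 64) (T.b (T.b (T.l 0) (T.l 816)) (T.b (T.l 816) (T.l 816)))))), by decide +kernel⟩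

def A012R_140 :
    ∃ t, chk3 (onCell 0 67108864 0 1073741824 780900216 37827925 (corW 3 c0B eng mog cA012R gB1q0 gB4q1 gB0q2 gB1q2 dB1q0 dB4q1 dB0q2 dB1q2 true true)) t 1 1 1 = true :=
  ⟨(T.b (T.b (T.a (T.l 0) (T.l 2)) (T.l 2)) (T.l 2)), by decide +kernel⟩

def A012R_141 :
    ∃ t, chk3 (onCell 0 67108864 0 1073741824 780900216 37827925 (corW 3 c0B eng mog cA012R gB1q0 gB4q1 gB1q2 gB2q2 dB1q0 dB4q1 dB1q2 dB2q2 true true)) t 1 1 1 = true :=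
  ⟨(T.b (T.b (T.a (T.l 0) (T.l 2)) (T.l 2)) (T.l 2)), by decide +kernel⟩

def A012R_142 :
    ∃ t, chk3 (onCell 0 67108864 0 1073741824 780900216 37827925 (corW 3 c0B eng mog cA012R gB1q0 gB4q1 gB2q2 gB3q2 dB1q0 dB4q1 dB2q2 dB3q2 true false)) t 1 1 1 = true :=
  ⟨(T.a (T.b (T.l 0) (T.l 816)) (T.a (T.l 64) (T.a (T.l 0) (T.b (T.l 0) (T.b (T.l 816) (T.l 816)))))), by decide +kernel⟩

def A012R_150 :
    ∃ t, chk3 (onCell 0 67108864 0 1073741824 780900216 37827925 (corW 3 c0B eng mog cA012R gB1q0 gB5q1 gB0q2 gB1q2 dB1q0 dB5q1 dB0q2 dB1q2 true true)) t 1 1 1 = true :=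
  ⟨(T.l 2), by decide +kernel⟩

def A012R_151 :
    ∃ t, chk3 (onCell 0 67108864 0 1073741824 780900216 37827925 (corW 3 c0B eng mog cA012R gB1q0 gB5q1 gB1q2 gB2q2 dB1q0 dB5q1 dB1q2 dB2q2 true true)) t 1 1 1 = true :=
  ⟨(T.l 2), by decide +kernel⟩

def A012R_152 :
    ∃ t, chk3 (onCell 0 67108864 0 1073741824 780900216 37827925 (corW 3 c0B eng mog cA012R gB1q0 gB5q1 gB2q2 gB3q2 dB1q0 dB5q1 dB2q2 dB3q2 true false)) t 1 1 1 = true :=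
  ⟨(T.a (T.b (T.l 0) (T.l 816)) (T.b (T.l 0) (T.b (T.l 816) (T.a (T.l 816) (T.b (T.l 816) (T.l 816)))))), by decide +kernel⟩

def A012R_230 :
    ∃ t, chk3 (onCell 0 67108864 0 1073741824 780900216 37827925 (corW 3 c0B eng mog cA012R gB2q0 gB3q1 gB0q2 gB1q2 dB2q0 dB3q1 dB0q2 dB1q2 true true)) t 1 1 1 = true :=
  ⟨(T.b (T.b (T.l 1) (T.a (T.l 816) (T.b (T.l 1) (T.a (T.l 816) (T.l 816))))) (T.b (T.a (T.l 816) (T.b (T.a (T.l 816) (T.b (T.l 816) (T.l 2))) (T.l 2))) (T.l 2))), by decide +kernel⟩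

def A012R_231 :
    ∃ t, chk3 (onCell 0 67108864 0 1073741824 780900216 37827925 (corW 3 c0B eng mog cA012R gB2q0 gB3q1 gB1q2 gB2q2 dB2q0 dB3q1 dB1q2 dB2q2 true true)) t 1 1 1 = true :=
  ⟨(T.b (T.b (T.l 1) (T.a (T.l 1) (T.l 816))) (T.a (T.l 816) (T.b (T.l 816) (T.b (T.l 816) (T.b (T.l 2) (T.l 2)))))), by decide +kernel⟩

def A012R_232 :
    ∃ t, chk3 (onCell 0 67108864 0 1073741824 780900216 37827925 (corW 3 c0B eng mog cA012R gB2q0 gB3q1 gB2q2 gB3q2 dB2q0 dB3q1 dB2q2 dB3q2 true false)) t 1 1 1 = true :=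
  ⟨(T.b (T.l 1) (T.a (T.l 816) (T.b (T.l 1) (T.a (T.l 816) (T.l 816))))), by decide +kernel⟩

def A012R_240 :
    ∃ t, chk3 (onCell 0 67108864 0 1073741824 780900216 37827925 (corW 3 c0B eng mog cA012R gB2q0 gB4q1 gB0q2 gB1q2 dB2q0 dB4q1 dB0q2 dB1q2 true true)) t 1 1 1 = true :=
  ⟨(T.b (T.b (T.l 1) (T.a (T.l 816) (T.b (T.l 816) (T.b (T.l 816) (T.l 2))))) (T.b (T.a (T.l 816) (T.l 2)) (T.l 2))), by decide +kernel⟩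

def A012R_241 :
    ∃ t, chk3 (onCell 0 67108864 0 1073741824 780900216 37827925 (corW 3 c0B eng mog cA012R gB2q0 gB4q1 gB1q2 gB2q2 dB2q0 dB4q1 dB1q2 dB2q2 true true)) t 1 1 1 = true :=
  ⟨(T.b (T.b (T.l 1) (T.a (T.l 816) (T.l 816))) (T.a (T.l 816) (T.b (T.l 816) (T.b (T.l 816) (T.l 2))))), by decide +kernel⟩

def A012R_242 :
    ∃ t, chk3 (onCell 0 67108864 0 1073741824 780900216 37827925 (corW 3 c0B eng mog cA012R gB2q0 gB4q1 gB2q2 gB3q2 dB2q0 dB4q1 dB2q2 dB3q2 true false)) t 1 1 1 = true :=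
  ⟨(T.b (T.l 1) (T.a (T.l 816) (T.b (T.l 816) (T.a (T.l 816) (T.l 816))))), by decide +kernel⟩

def A012R_250 :
    ∃ t, chk3 (onCell 0 67108864 0 1073741824 780900216 37827925 (corW 3 c0B eng mog cA012R gB2q0 gB5q1 gB0q2 gB1q2 dB2q0 dB5q1 dB0q2 dB1q2 true true)) t 1 1 1 = true :=
  ⟨(T.b (T.b (T.a (T.l 816) (T.l 816)) (T.a (T.l 816) (T.b (T.l 816) (T.l 2)))) (T.b (T.l 2) (T.l 2))), by decide +kernel⟩

def A012R_251 :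
    ∃ t, chk3 (onCell 0 67108864 0 1073741824 780900216 37827925 (corW 3 c0B eng mog cA012R gB2q0 gB5q1 gB1q2 gB2q2 dB2q0 dB5q1 dB1q2 dB2q2 true true)) t 1 1 1 = true :=
  ⟨(T.a (T.l 0) (T.b (T.l 816) (T.b (T.l 816) (T.b (T.l 2) (T.l 2))))), by decide +kernel⟩

def A012R_252 :
    ∃ t, chk3 (onCell 0 67108864 0 1073741824 780900216 37827925 (corW 3 c0B eng mog cA012R gB2q0 gB5q1 gB2q2 gB3q2 dB2q0 dB5q1 dB2q2 dB3q2 true false)) t 1 1 1 = true :=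
  ⟨(T.a (T.l 816) (T.b (T.l 1) (T.b (T.l 816) (T.a (T.l 816) (T.l 816))))), by decide +kernel⟩

def A022E_000 :
    ∃ t, chk3 (onCell 0 67108864 0 1073741824 780900216 37827925 (corW 3 c0B eng mog cA022E gB0q0 gB0q2 gB0q2 gB1q2 dB0q0 dB0q2 dB0q2 dB1q2 true true)) t 1 1 1 = true :=
  ⟨(T.l 2), by decide +kernel⟩

def A022E_001 :
    ∃ t, chk3 (onCell 0 67108864 0 1073741824 780900216 37827925 (corW 3 c0B eng mog cA022E gB0q0 gB0q2 gB1q2 gB2q2 dB0q0 dB0q2 dB1q2 dB2q2 true true)) t 1 1 1 = true :=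
  ⟨(T.l 2), by decide +kernel⟩

def A022E_002 :
    ∃ t, chk3 (onCell 0 67108864 0 1073741824 780900216 37827925 (corW 3 c0B eng mog cA022E gB0q0 gB0q2 gB2q2 gB3q2 dB0q0 dB0q2 dB2q2 dB3q2 true false)) t 1 1 1 = true :=
  ⟨(T.b (T.a (T.a (T.b (T.b (T.c (T.l 204) (T.l 204)) (T.l 204)) (T.l 204)) (T.b (T.a (T.l 204) (T.b (T.b (T.l 204) (T.l 204)) (T.l 204))) (T.l 0))) (T.b (T.a (T.a (T.b (T.a (T.l 204) (T.l 204)) (T.l 204)) (T.b (T.b (T.l 204) (T.l 204)) (T.b (T.l 204) (T.l 204)))) (T.a (T.b (T.l 204) (T.l 204)) (T.b (T.l 204) (T.l 204)))) (T.a (T.b (T.b (T.l 204) (T.l 204)) (T.l 0)) (T.b (T.b (T.l 0) (T.l 16)) (T.b (T.l 0) (T.l 0)))))) (T.a (T.b (T.l 0) (T.b (T.l 816) (T.b (T.l 816) (T.a (T.l 816) (T.l 816))))) (T.a (T.b (T.l 0) (T.b (T.l 816) (T.b (T.l 816) (T.l 816)))) (T.b (T.b (T.l 0) (T.l 0)) (T.b (T.l 816) (T.a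 (T.l 880) (T.c (T.l 816) (T.l 816)))))))), by decide +kernel⟩

def A022E_010 :
    ∃ t, chk3 (onCell 0 67108864 0 1073741824 780900216 37827925 (corW 3 c0B eng mog cA022E gB0q0 gB1q2 gB0q2 gB1q2 dB0q0 dB1q2 dB0q2 dB1q2 true true)) t 1 1 1 = true :=
  ⟨(T.l 2), by decide +kernel⟩

def A022E_011 :
    ∃ t, chk3 (onCell 0 67108864 0 1073741824 780900216 37827925 (corW 3 c0B eng mog cA022E gB0q0 gB1q2 gB1q2 gB2q2 dB0q0 dB1q2 dB1q2 dB2q2 true true)) t 1 1 1 = true :=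
  ⟨(T.l 2), by decide +kernel⟩

def A022E_012 :
    ∃ t, chk3 (onCell 0 67108864 0 1073741824 780900216 37827925 (corW 3 c0B eng mog cA022E gB0q0 gB1q2 gB2q2 gB3q2 dB0q0 dB1q2 dB2q2 dB3q2 true false)) t 1 1 1 = true :=
  ⟨(T.a (T.b (T.b (T.a (T.c (T.l 204) (T.l 220)) (T.b (T.l 204) (T.l 204))) (T.l 204)) (T.b (T.l 0) (T.b (T.l 0) (T.a (T.l 816) (T.b (T.l 816) (T.l 816)))))) (T.a (T.b (T.b (T.b (T.l 204) (T.l 204)) (T.l 204)) (T.b (T.l 0) (T.b (T.l 816) (T.b (T.l 816) (T.l 816))))) (T.b (T.b (T.a (T.l 204) (T.b (T.b (T.l 204) (T.l 204)) (T.l 204))) (T.l 0)) (T.b (T.l 0) (T.b (T.l 816) (T.a (T.l 816) (T.c (T.l 816) (T.l 816)))))))), by decide +kernel⟩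

def A022E_020 :
    ∃ t, chk3 (onCell 0 67108864 0 1073741824 780900216 37827925 (corW 3 c0B eng mog cA022E gB0q0 gB2q2 gB0q2 gB1q2 dB0q0 dB2q2 dB0q2 dB1q2 true true)) t 1 1 1 = true :=
  ⟨(T.l 2), by decide +kernel⟩

def A022E_021 :
    ∃ t, chk3 (onCell 0 67108864 0 1073741824 780900216 37827925 (corW 3 c0B eng mog cA022E gB0q0 gB2q2 gB1q2 gB2q2 dB0q0 dB2q2 dB1q2 dB2q2 true true)) t 1 1 1 = true :=
  ⟨(T.l 2), by decide +kernel⟩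

def A022E_022 :
    ∃ t, chk3 (onCell 0 67108864 0 1073741824 780900216 37827925 (corW 3 c0B eng mog cA022E gB0q0 gB2q2 gB2q2 gB3q2 dB0q0 dB2q2 dB2q2 dB3q2 true false)) t 1 1 1 = true :=
  ⟨(T.a (T.b (T.b (T.c (T.l 220) (T.b (T.l 204) (T.l 204))) (T.l 0)) (T.b (T.l 0) (T.b (T.l 0) (T.a (T.l 816) (T.b (T.l 816) (T.l 816)))))) (T.a (T.b (T.b (T.l 204) (T.l 0)) (T.b (T.l 0) (T.b (T.l 816) (T.b (T.l 816) (T.l 816))))) (T.b (T.b (T.a (T.l 204) (T.b (T.l 204) (T.l 204))) (T.l 0)) (T.b (T.l 0) (T.b (T.l 816) (T.a (T.l 880) (T.c (T.l 816) (T.l 816)))))))), by decide +kernel⟩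

def A022E_110 :
    ∃ t, chk3 (onCell 0 67108864 0 1073741824 780900216 37827925 (corW 3 c0B eng mog cA022E gB1q0 gB1q2 gB0q2 gB1q2 dB1q0 dB1q2 dB0q2 dB1q2 true true)) t 1 1 1 = true :=
  ⟨(T.l 2), by decide +kernel⟩

def A022E_111 :
    ∃ t, chk3 (onCell 0 67108864 0 1073741824 780900216 37827925 (corW 3 c0B eng mog cA022E gB1q0 gB1q2 gB1q2 gB2q2 dB1q0 dB1q2 dB1q2 dB2q2 true true)) t 1 1 1 = true :=
  ⟨(T.l 2), by decide +kernel⟩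

def A022E_112 :
    ∃ t, chk3 (onCell 0 67108864 0 1073741824 780900216 37827925 (corW 3 c0B eng mog cA022E gB1q0 gB1q2 gB2q2 gB3q2 dB1q0 dB1q2 dB2q2 dB3q2 true false)) t 1 1 1 = true :=
  ⟨(T.a (T.b (T.b (T.b (T.a (T.c (T.l 204) (T.l 204)) (T.l 204)) (T.l 204)) (T.l 0)) (T.l 0)) (T.a (T.b (T.b (T.b (T.l 204) (T.l 204)) (T.l 0)) (T.l 0)) (T.b (T.b (T.a (T.l 204) (T.b (T.b (T.l 204) (T.l 204)) (T.l 204))) (T.l 0)) (T.b (T.l 0) (T.l 816))))), by decide +kernel⟩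

def A022E_120 :
    ∃ t, chk3 (onCell 0 67108864 0 1073741824 780900216 37827925 (corW 3 c0B eng mog cA022E gB1q0 gB2q2 gB0q2 gB1q2 dB1q0 dB2q2 dB0q2 dB1q2 true true)) t 1 1 1 = true :=
  ⟨(T.l 2), by decide +kernel⟩

def A022E_121 :
    ∃ t, chk3 (onCell 0 67108864 0 1073741824 780900216 37827925 (corW 3 c0B eng mog cA022E gB1q0 gB2q2 gB1q2 gB2q2 dB1q0 dB2q2 dB1q2 dB2q2 true true)) t 1 1 1 = true :=
  ⟨(T.l 2), by decide +kernel⟩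

def A022E_122 :
    ∃ t, chk3 (onCell 0 67108864 0 1073741824 780900216 37827925 (corW 3 c0B eng mog cA022E gB1q0 gB2q2 gB2q2 gB3q2 dB1q0 dB2q2 dB2q2 dB3q2 true false)) t 1 1 1 = true :=
  ⟨(T.a (T.b (T.b (T.c (T.l 204) (T.b (T.l 204) (T.l 204))) (T.l 0)) (T.l 0)) (T.a (T.b (T.b (T.l 204) (T.l 0)) (T.l 0)) (T.b (T.b (T.a (T.l 204) (T.b (T.l 204) (T.l 204))) (T.l 0)) (T.b (T.l 0) (T.l 816))))), by decide +kernel⟩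

def A022E_220 :
    ∃ t, chk3 (onCell 0 67108864 0 1073741824 780900216 37827925 (corW 3 c0B eng mog cA022E gB2q0 gB2q2 gB0q2 gB1q2 dB2q0 dB2q2 dB0q2 dB1q2 true true)) t 1 1 1 = true :=
  ⟨(T.l 2), by decide +kernel⟩

def A022E_221 :
    ∃ t, chk3 (onCell 0 67108864 0 1073741824 780900216 37827925 (corW 3 c0B eng mog cA022E gB2q0 gB2q2 gB1q2 gB2q2 dB2q0 dB2q2 dB1q2 dB2q2 true true)) t 1 1 1 = true :=
  ⟨(T.l 2), by decide +kernel⟩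

def A022E_222 :
    ∃ t, chk3 (onCell 0 67108864 0 1073741824 780900216 37827925 (corW 3 c0B eng mog cA022E gB2q0 gB2q2 gB2q2 gB3q2 dB2q0 dB2q2 dB2q2 dB3q2 true false)) t 1 1 1 = true :=
  ⟨(T.a (T.b (T.b (T.a (T.b (T.l 204) (T.l 204)) (T.l 204)) (T.l 0)) (T.l 0)) (T.a (T.b (T.b (T.l 204) (T.l 0)) (T.l 0)) (T.b (T.b (T.a (T.l 204) (T.b (T.l 204) (T.l 204))) (T.l 0)) (T.b (T.l 0) (T.l 816))))), by decide +kernel⟩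

def A022L_004_1_2_1 :
    ∃ t, chk3 (onCell 0 67108864 0 1073741824 780900216 37827925 (corW 3 c0B eng mog cA022L gB0q0 gB0q2 gB4q2 gB5q2 dB0q0 dB0q2 dB4q2 dB5q2 false true)) t 1 2 1 = true :=
  ⟨(T.b (T.a (T.a (T.b (T.l 204) (T.l 204)) (T.a (T.l 204) (T.b (T.a (T.l 204) (T.l 204)) (T.l 204)))) (T.a (T.a (T.b (T.a (T.l 204) (T.b (T.l 204) (T.l 204))) (T.b (T.l 204) (T.l 204))) (T.b (T.b (T.l 204) (T.l 204)) (T.b (T.l 204) (T.l 204)))) (T.b (T.a (T.b (T.l 204) (T.l 204)) (T.b (T.l 204) (T.l 204))) (T.a (T.b (T.l 204) (T.l 204)) (T.b (T.l 204) (T.l 204)))))) (T.a (T.b (T.a (T.b (T.l 204) (T.l 204)) (T.l 204)) (T.a (T.b (T.l 204) (T.l 204)) (T.b (T.l 204) (T.l 204)))) (T.a (T.b (T.a (T.l 204) (T.b (T.l 204) (T.l 204))) (T.b (T.l 204) (T.l 204))) (T.b (T.a (T.b (T.l 204) (T.l 204)) (T.b (T.l 204) (T.l 204))) (T.b (T.a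 (T.l 204) (T.b (T.l 204) (T.l 204))) (T.a (T.l 204) (T.l 204))))))), by decide +kernel⟩

def A022L_004_1_3_1 :
    ∃ t, chk3 (onCell 0 67108864 0 1073741824 780900216 37827925 (corW 3 c0B eng mog cA022L gB0q0 gB0q2 gB4q2 gB5q2 dB0q0 dB0q2 dB4q2 dB5q2 false true)) t 1 3 1 = true :=
  ⟨(T.b (T.b (T.a (T.b (T.a (T.b (T.l 204) (T.l 204)) (T.l 220)) (T.a (T.b (T.c (T.l 204) (T.l 204)) (T.c (T.l 204) (T.l 204))) (T.b (T.l 204) (T.c (T.l 204) (T.l 204))))) (T.a (T.b (T.l 204) (T.b (T.l 204) (T.l 204))) (T.b (T.a (T.l 204) (T.b (T.l 204) (T.l 204))) (T.b (T.l 204) (T.l 204))))) (T.b (T.b (T.a (T.a (T.c (T.a (T.b (T.l 204) (T.l 204)) (T.l 204)) (T.a (T.l 204) (T.l 204))) (T.c (T.a (T.l 204) (T.l 204)) (T.l 204))) (T.a (T.c (T.l 204) (T.l 204)) (T.l 204))) (T.b (T.a (T.b (T.a (T.c (T.a (T.l 204) (T.l 204)) (T.l 204)) (T.c (T.l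 204) (T.l 204))) (T.b (T.a (T.a (T.b (T.c (T.l 204) (T.l 204)) (T.b (T.c (T.c (T.a (T.l 0) (T.l 204)) (T.l 0)) (T.l 0)) (T.a (T.a (T.l 2) (T.b (T.c (T.b (T.l 0) (T.l 2)) (T.l 0)) (T.l 2))) (T.b (T.c (T.l 0) (T.l 0)) (T.a (T.l 2) (T.b (T.l 0) (T.l 2))))))) (T.c (T.c (T.l 0) (T.l 0)) (T.l 0))) (T.c (T.l 0) (T.l 0))) (T.a (T.a (T.l 2) (T.b (T.b (T.b (T.a (T.a (T.l 2) (T.a (T.l 2) (T.l 0))) (T.l 0)) (T.l 2)) (T.l 2)) (T.l 2))) (T.b (T.a (T.b (T.c (T.l 0) (T.l 0)) (T.a (T.l 2) (T.b (T.l 0) (T.l 2)))) (T.c (T.l 0) (T.l 0))) (T.a (T.l 2) (T.a (T.l 2) (T.b (T.b (T.l 0) (T.l 2)) (T.l 2)))))))) (T.a (T.b (T.l 204) (T.b (T.l 204) (T.a (T.b (T.l 0) (T.b (T.l 0) (T.a (T.l 2) (T.c (T.l 0) (T.l 0))))) (T.l 0)))) (T.c (T.l 0) (T.l 0)))) (T.a (T.l 2) (T.b (T.b (T.b (T.a (T.a (T.l 2) (T.a (T.l 2) (T.b (T.l 0) (T.l 2)))) (T.a (T.b (T.l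 0) (T.a (T.l 2) (T.l 0))) (T.l 0))) (T.l 2)) (T.l 2)) (T.l 2))))) (T.l 2))) (T.l 2)), by decide +kernel⟩

theorem A022L_004 :
    ∃ t, chk3 (onCell 0 67108864 0 1073741824 780900216 37827925 (corW 3 c0B eng mog cA022L gB0q0 gB0q2 gB4q2 gB5q2 dB0q0 dB0q2 dB4q2 dB5q2 false true)) t 1 1 1 = true :=
  ex3_b A022L_004_1_2_1 A022L_004_1_3_1

def A022L_014 :
    ∃ t, chk3 (onCell 0 67108864 0 1073741824 780900216 37827925 (corW 3 c0B eng mog cA022L gB0q0 gB1q2 gB4q2 gB5q2 dB0q0 dB1q2 dB4q2 dB5q2 false true)) t 1 1 1 = true :=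
  ⟨(T.b (T.b (T.a (T.l 204) (T.a (T.l 204) (T.b (T.l 0) (T.l 204)))) (T.b (T.l 204) (T.l 0))) (T.b (T.b (T.b (T.l 0) (T.a (T.l 0) (T.l 0))) (T.l 2)) (T.l 2))), by decide +kernel⟩

def A022L_024 :
    ∃ t, chk3 (onCell 0 67108864 0 1073741824 780900216 37827925 (corW 3 c0B eng mog cA022L gB0q0 gB2q2 gB4q2 gB5q2 dB0q0 dB2q2 dB4q2 dB5q2 false true)) t 1 1 1 = true :=
  ⟨(T.b (T.b (T.b (T.a (T.l 204) (T.a (T.l 204) (T.l 0))) (T.l 204)) (T.b (T.l 204) (T.l 2))) (T.l 2)), by decide +kernel⟩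

def A022L_114 :
    ∃ t, chk3 (onCell 0 67108864 0 1073741824 780900216 37827925 (corW 3 c0B eng mog cA022L gB1q0 gB1q2 gB4q2 gB5q2 dB1q0 dB1q2 dB4q2 dB5q2 false true)) t 1 1 1 = true :=
  ⟨(T.b (T.b (T.a (T.l 204) (T.a (T.l 204) (T.b (T.l 0) (T.l 204)))) (T.l 0)) (T.b (T.l 2) (T.l 2))), by decide +kernel⟩

def A022L_124 :
    ∃ t, chk3 (onCell 0 67108864 0 1073741824 780900216 37827925 (corW 3 c0B eng mog cA022L gB1q0 gB2q2 gB4q2 gB5q2 dB1q0 dB2q2 dB4q2 dB5q2 false true)) t 1 1 1 = true :=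
  ⟨(T.b (T.b (T.b (T.a (T.l 204) (T.a (T.l 204) (T.l 0))) (T.l 204)) (T.l 0)) (T.l 2)), by decide +kernel⟩

def A022L_224 :
    ∃ t, chk3 (onCell 0 67108864 0 1073741824 780900216 37827925 (corW 3 c0B eng mog cA022L gB2q0 gB2q2 gB4q2 gB5q2 dB2q0 dB2q2 dB4q2 dB5q2 false true)) t 1 1 1 = true :=
  ⟨(T.b (T.b (T.b (T.a (T.l 204) (T.a (T.l 204) (T.l 0))) (T.l 0)) (T.l 2)) (T.l 2)), by decide +kernel⟩

def A022R_050 :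
    ∃ t, chk3 (onCell 0 67108864 0 1073741824 780900216 37827925 (corW 3 c0B eng mog cA022R gB0q0 gB5q2 gB0q2 gB1q2 dB0q0 dB5q2 dB0q2 dB1q2 true true)) t 1 1 1 = true :=
  ⟨(T.l 2), by decide +kernel⟩

def A022R_051 :
    ∃ t, chk3 (onCell 0 67108864 0 1073741824 780900216 37827925 (corW 3 c0B eng mog cA022R gB0q0 gB5q2 gB1q2 gB2q2 dB0q0 dB5q2 dB1q2 dB2q2 true true)) t 1 1 1 = true :=
  ⟨(T.l 2), by decide +kernel⟩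

def A022R_052 :
    ∃ t, chk3 (onCell 0 67108864 0 1073741824 780900216 37827925 (corW 3 c0B eng mog cA022R gB0q0 gB5q2 gB2q2 gB3q2 dB0q0 dB5q2 dB2q2 dB3q2 true false)) t 1 1 1 = true :=
  ⟨(T.a (T.b (T.l 0) (T.b (T.l 816) (T.l 816))) (T.a (T.b (T.l 0) (T.l 816)) (T.b (T.l 0) (T.b (T.l 816) (T.l 816))))), by decide +kernel⟩

def A022R_150 :
    ∃ t, chk3 (onCell 0 67108864 0 1073741824 780900216 37827925 (corW 3 c0B eng mog cA022R gB1q0 gB5q2 gB0q2 gB1q2 dB1q0 dB5q2 dB0q2 dB1q2 true true)) t 1 1 1 = true :=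
  ⟨(T.l 2), by decide +kernel⟩

def A022R_151 :
    ∃ t, chk3 (onCell 0 67108864 0 1073741824 780900216 37827925 (corW 3 c0B eng mog cA022R gB1q0 gB5q2 gB1q2 gB2q2 dB1q0 dB5q2 dB1q2 dB2q2 true true)) t 1 1 1 = true :=
  ⟨(T.l 2), by decide +kernel⟩

def A022R_152 :
    ∃ t, chk3 (onCell 0 67108864 0 1073741824 780900216 37827925 (corW 3 c0B eng mog cA022R gB1q0 gB5q2 gB2q2 gB3q2 dB1q0 dB5q2 dB2q2 dB3q2 true false)) t 1 1 1 = true :=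
  ⟨(T.a (T.l 0) (T.b (T.l 16) (T.a (T.l 816) (T.b (T.l 816) (T.l 816))))), by decide +kernel⟩

def A022R_250 :
    ∃ t, chk3 (onCell 0 67108864 0 1073741824 780900216 37827925 (corW 3 c0B eng mog cA022R gB2q0 gB5q2 gB0q2 gB1q2 dB2q0 dB5q2 dB0q2 dB1q2 true true)) t 1 1 1 = true :=
  ⟨(T.l 2), by decide +kernel⟩

def A022R_251 :
    ∃ t, chk3 (onCell 0 67108864 0 1073741824 780900216 37827925 (corW 3 c0B eng mog cA022R gB2q0 gB5q2 gB1q2 gB2q2 dB2q0 dB5q2 dB1q2 dB2q2 true true)) t 1 1 1 = true :=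
  ⟨(T.a (T.l 16) (T.l 2)), by decide +kernel⟩

def A022R_252 :
    ∃ t, chk3 (onCell 0 67108864 0 1073741824 780900216 37827925 (corW 3 c0B eng mog cA022R gB2q0 gB5q2 gB2q2 gB3q2 dB2q0 dB5q2 dB2q2 dB3q2 true false)) t 1 1 1 = true :=
  ⟨(T.a (T.l 0) (T.b (T.b (T.l 0) (T.l 0)) (T.a (T.l 816) (T.b (T.l 816) (T.l 816))))), by decide +kernel⟩

def A101E_000 :
    ∃ t, chk3 (onCell 0 67108864 0 1073741824 780900216 37827925 (corW 3 c0B eng mog cA101E gB0q1 gB0q0 gB0q1 gB1q1 dB0q1 dB0q0 dB0q1 dB1q1 true false)) t 1 1 1 = true :=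
  ⟨(T.l 1), by decide +kernel⟩

def A101E_010 :
    ∃ t, chk3 (onCell 0 67108864 0 1073741824 780900216 37827925 (corW 3 c0B eng mog cA101E gB0q1 gB1q0 gB0q1 gB1q1 dB0q1 dB1q0 dB0q1 dB1q1 true false)) t 1 1 1 = true :=
  ⟨(T.l 1), by decide +kernel⟩

def A101E_020 :
    ∃ t, chk3 (onCell 0 67108864 0 1073741824 780900216 37827925 (corW 3 c0B eng mog cA101E gB0q1 gB2q0 gB0q1 gB1q1 dB0q1 dB2q0 dB0q1 dB1q1 true false)) t 1 1 1 = true :=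
  ⟨(T.l 1), by decide +kernel⟩

def A101R_002 :
    ∃ t, chk3 (onCell 0 67108864 0 1073741824 780900216 37827925 (corW 3 c0B eng mog cA101R gB0q1 gB0q0 gB2q1 gB3q1 dB0q1 dB0q0 dB2q1 dB3q1 false true)) t 1 1 1 = true :=
  ⟨(T.l 2), by decide +kernel⟩

def A101R_003 :
    ∃ t, chk3 (onCell 0 67108864 0 1073741824 780900216 37827925 (corW 3 c0B eng mog cA101R gB0q1 gB0q0 gB3q1 gB4q1 dB0q1 dB0q0 dB3q1 dB4q1 true true)) t 1 1 1 = true :=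
  ⟨(T.l 2), by decide +kernel⟩

def A101R_004 :
    ∃ t, chk3 (onCell 0 67108864 0 1073741824 780900216 37827925 (corW 3 c0B eng mog cA101R gB0q1 gB0q0 gB4q1 gB5q1 dB0q1 dB0q0 dB4q1 dB5q1 true true)) t 1 1 1 = true :=
  ⟨(T.l 2), by decide +kernel⟩

def A101R_012 :
    ∃ t, chk3 (onCell 0 67108864 0 1073741824 780900216 37827925 (corW 3 c0B eng mog cA101R gB0q1 gB1q0 gB2q1 gB3q1 dB0q1 dB1q0 dB2q1 dB3q1 false true)) t 1 1 1 = true :=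
  ⟨(T.l 2), by decide +kernel⟩

def A101R_013 :
    ∃ t, chk3 (onCell 0 67108864 0 1073741824 780900216 37827925 (corW 3 c0B eng mog cA101R gB0q1 gB1q0 gB3q1 gB4q1 dB0q1 dB1q0 dB3q1 dB4q1 true true)) t 1 1 1 = true :=
  ⟨(T.l 2), by decide +kernel⟩

def A101R_014 :
    ∃ t, chk3 (onCell 0 67108864 0 1073741824 780900216 37827925 (corW 3 c0B eng mog cA101R gB0q1 gB1q0 gB4q1 gB5q1 dB0q1 dB1q0 dB4q1 dB5q1 true true)) t 1 1 1 = true :=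
  ⟨(T.l 2), by decide +kernel⟩

def A101R_022 :
    ∃ t, chk3 (onCell 0 67108864 0 1073741824 780900216 37827925 (corW 3 c0B eng mog cA101R gB0q1 gB2q0 gB2q1 gB3q1 dB0q1 dB2q0 dB2q1 dB3q1 false true)) t 1 1 1 = true :=
  ⟨(T.l 2), by decide +kernel⟩

def A101R_023 :
    ∃ t, chk3 (onCell 0 67108864 0 1073741824 780900216 37827925 (corW 3 c0B eng mog cA101R gB0q1 gB2q0 gB3q1 gB4q1 dB0q1 dB2q0 dB3q1 dB4q1 true true)) t 1 1 1 = true :=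
  ⟨(T.l 2), by decide +kernel⟩

def A101R_024 :
    ∃ t, chk3 (onCell 0 67108864 0 1073741824 780900216 37827925 (corW 3 c0B eng mog cA101R gB0q1 gB2q0 gB4q1 gB5q1 dB0q1 dB2q0 dB4q1 dB5q1 true true)) t 1 1 1 = true :=
  ⟨(T.l 2), by decide +kernel⟩

def A102E_000_1_2_1 :
    ∃ t, chk3 (onCell 0 67108864 0 1073741824 780900216 37827925 (corW 3 c0B eng mog cA102E gB0q1 gB0q0 gB0q2 gB1q2 dB0q1 dB0q0 dB0q2 dB1q2 true true)) t 1 2 1 = true :=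
  ⟨(T.b (T.l 2) (T.b (T.l 2) (T.b (T.l 2) (T.a (T.a (T.b (T.a (T.c (T.l 0) (T.l 0)) (T.c (T.l 0) (T.l 0))) (T.a (T.b (T.c (T.l 0) (T.l 0)) (T.c (T.a (T.l 0) (T.l 0)) (T.c (T.l 0) (T.l 0)))) (T.b (T.l 0) (T.c (T.l 0) (T.l 0))))) (T.b (T.a (T.l 0) (T.l 0)) (T.a (T.c (T.l 0) (T.l 0)) (T.c (T.l 0) (T.l 0))))) (T.a (T.b (T.c (T.l 0) (T.l 0)) (T.a (T.l 0) (T.l 0))) (T.a (T.b (T.l 816) (T.l 0)) (T.b (T.b (T.l 2) (T.c (T.l 816) (T.l 816))) (T.a (T.l 816) (T.l 820))))))))), by decide +kernel⟩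

def A102E_000_1_12_1 :
    ∃ t, chk3 (onCell 0 67108864 0 1073741824 780900216 37827925 (corW 3 c0B eng mog cA102E gB0q1 gB0q0 gB0q2 gB1q2 dB0q1 dB0q0 dB0q2 dB1q2 true true)) t 1 12 1 = true :=
  ⟨(T.b (T.b (T.a (T.b (T.a (T.b (T.a (T.b (T.a (T.b (T.c (T.c (T.a (T.b (T.a (T.b (T.l 0) (T.l 1)) (T.l 0)) (T.l 1)) (T.a (T.b (T.l 0) (T.a (T.l 1) (T.l 0))) (T.l 0))) (T.a (T.b (T.a (T.b (T.l 0) (T.l 1)) (T.l 0)) (T.l 1)) (T.a (T.b (T.l 0) (T.a (T.l 1) (T.l 0))) (T.l 0)))) (T.c (T.a (T.b (T.c (T.l 0) (T.l 0)) (T.l 1)) (T.a (T.b (T.l 0) (T.a (T.l 1) (T.l 0))) (T.l 0))) (T.a (T.b (T.l 0) (T.l 1)) (T.c (T.c (T.l 0) (T.l 0)) (T.l 0))))) (T.l 1)) (T.b (T.l 0) (T.c (T.b (T.a (T.a (T.l 1) (T.l 0)) (T.l 0)) (T.a (T.l 1) (T.a (T.l 1) (T.l 0)))) (T.b (T.a (T.a (T.l 1) (T.l 0)) (T.l 0)) (T.a (T.l 1) (T.a (T.l 1) (T.l 0))))))) (T.l 1))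 (T.b (T.c (T.l 0) (T.l 0)) (T.b (T.a (T.a (T.l 1) (T.b (T.l 0) (T.l 1))) (T.c (T.l 0) (T.l 0))) (T.a (T.l 1) (T.a (T.l 1) (T.b (T.l 0) (T.l 1))))))) (T.l 1)) (T.b (T.a (T.a (T.c (T.l 0) (T.c (T.l 0) (T.l 0))) (T.l 0)) (T.l 0)) (T.b (T.a (T.a (T.l 1) (T.b (T.c (T.l 0) (T.l 0)) (T.l 1))) (T.a (T.a (T.b (T.l 0) (T.l 1)) (T.l 0)) (T.l 0))) (T.a (T.l 1) (T.a (T.l 1) (T.a (T.l 1) (T.b (T.l 0) (T.l 1)))))))) (T.l 1)) (T.a (T.b (T.a (T.a (T.b (T.l 0) (T.a (T.b (T.l 0) (T.b (T.l 0) (T.l 1))) (T.l 0))) (T.l 0)) (T.l 0)) (T.b (T.a (T.l 1) (T.b (T.b (T.l 0) (T.a (T.l 1) (T.l 0))) (T.l 1))) (T.l 1))) (T.b (T.a (T.l 0) (T.c (T.l 0) (T.l 0))) (T.b (T.a (T.a (T.b (T.l 0) (T.l 1)) (T.l 0)) (T.l 0)) (T.a (T.l 1) (T.a (T.l 1) (T.b (T.l 0) (T.l 1)))))))) (T.l 1)) (T.l 1)), by decide +kernel⟩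

def A102E_000_1_13_1 :
    ∃ t, chk3 (onCell 0 67108864 0 1073741824 780900216 37827925 (corW 3 c0B eng mog cA102E gB0q1 gB0q0 gB0q2 gB1q2 dB0q1 dB0q0 dB0q2 dB1q2 true true)) t 1 13 1 = true :=
  ⟨(T.l 1), by decide +kernel⟩

def A102E_000_1_7_1 :
    ∃ t, chk3 (onCell 0 67108864 0 1073741824 780900216 37827925 (corW 3 c0B eng mog cA102E gB0q1 gB0q0 gB0q2 gB1q2 dB0q1 dB0q0 dB0q2 dB1q2 true true)) t 1 7 1 = true :=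
  ⟨(T.l 1), by decide +kernel⟩

theorem A102E_000_1_6_1 :
    ∃ t, chk3 (onCell 0 67108864 0 1073741824 780900216 37827925 (corW 3 c0B eng mog cA102E gB0q1 gB0q0 gB0q2 gB1q2 dB0q1 dB0q0 dB0q2 dB1q2 true true)) t 1 6 1 = true :=
  ex3_b A102E_000_1_12_1 A102E_000_1_13_1
theorem A102E_000_1_3_1 :
    ∃ t, chk3 (onCell 0 67108864 0 1073741824 780900216 37827925 (corW 3 c0B eng mog cA102E gB0q1 gB0q0 gB0q2 gB1q2 dB0q1 dB0q0 dB0q2 dB1q2 true true)) t 1 3 1 = true :=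
  ex3_b A102E_000_1_6_1 A102E_000_1_7_1
theorem A102E_000 :
    ∃ t, chk3 (onCell 0 67108864 0 1073741824 780900216 37827925 (corW 3 c0B eng mog cA102E gB0q1 gB0q0 gB0q2 gB1q2 dB0q1 dB0q0 dB0q2 dB1q2 true true)) t 1 1 1 = true :=
  ex3_b A102E_000_1_2_1 A102E_000_1_3_1

def A102E_001 :
    ∃ t, chk3 (onCell 0 67108864 0 1073741824 780900216 37827925 (corW 3 c0B eng mog cA102E gB0q1 gB0q0 gB1q2 gB2q2 dB0q1 dB0q0 dB1q2 dB2q2 true true)) t 1 1 1 = true :=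
  ⟨(T.b (T.b (T.l 2) (T.b (T.b (T.l 2) (T.a (T.c (T.a (T.b (T.a (T.l 204) (T.l 204)) (T.l 220)) (T.b (T.l 204) (T.l 204))) (T.b (T.l 204) (T.l 204))) (T.b (T.a (T.c (T.l 204) (T.l 204)) (T.l 2)) (T.a (T.l 220) (T.l 204))))) (T.b (T.a (T.a (T.c (T.b (T.l 204) (T.l 0)) (T.b (T.l 204) (T.l 0))) (T.b (T.l 220) (T.l 0))) (T.b (T.a (T.l 204) (T.l 204)) (T.a (T.l 0) (T.l 0)))) (T.b (T.a (T.b (T.a (T.c (T.a (T.l 0) (T.l 0)) (T.l 0)) (T.l 0)) (T.a (T.l 1) (T.b (T.l 0) (T.l 1)))) (T.a (T.c (T.l 4) (T.l 0)) (T.l 0))) (T.a (T.l 1) (T.l 1)))))) (T.l 1)), by decide +kernel⟩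

def A102E_002 :
    ∃ t, chk3 (onCell 0 67108864 0 1073741824 780900216 37827925 (corW 3 c0B eng mog cA102E gB0q1 gB0q0 gB2q2 gB3q2 dB0q1 dB0q0 dB2q2 dB3q2 true false)) t 1 1 1 = true :=
  ⟨(T.b (T.b (T.a (T.b (T.a (T.b (T.l 204) (T.l 204)) (T.b (T.l 204) (T.l 220))) (T.b (T.c (T.a (T.l 204) (T.l 204)) (T.l 204)) (T.c (T.a (T.l 204) (T.l 204)) (T.l 204)))) (T.a (T.b (T.c (T.b (T.l 204) (T.l 204)) (T.l 204)) (T.c (T.b (T.l 204) (T.l 204)) (T.l 204))) (T.b (T.a (T.b (T.l 204) (T.l 204)) (T.b (T.a (T.l 204) (T.b (T.l 204) (T.l 204))) (T.l 204))) (T.b (T.b (T.l 204) (T.l 204)) (T.l 220))))) (T.b (T.a (T.b (T.c (T.b (T.l 204) (T.a (T.l 204) (T.l 204))) (T.l 204)) (T.b (T.c (T.a (T.l 204) (T.l 204)) (T.l 204)) (T.a (T.l 1) (T.c (T.l 204) (T.l 204))))) (T.b (T.a (T.b (T.l 204) (T.l 204)) (T.l 220)) (T.c (T.a (T.l 204) (T.l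 204)) (T.l 204)))) (T.l 1))) (T.l 1)), by decide +kernel⟩

def A102E_010 :
    ∃ t, chk3 (onCell 0 67108864 0 1073741824 780900216 37827925 (corW 3 c0B eng mog cA102E gB0q1 gB1q0 gB0q2 gB1q2 dB0q1 dB1q0 dB0q2 dB1q2 true true)) t 1 1 1 = true :=
  ⟨(T.b (T.l 2) (T.b (T.b (T.b (T.a (T.l 204) (T.a (T.l 204) (T.l 2))) (T.a (T.b (T.l 204) (T.b (T.l 204) (T.l 1))) (T.a (T.b (T.l 204) (T.l 716)) (T.b (T.l 204) (T.a (T.l 204) (T.c (T.l 204) (T.l 716))))))) (T.l 1)) (T.l 1))), by decide +kernel⟩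

def A102E_011 :
    ∃ t, chk3 (onCell 0 67108864 0 1073741824 780900216 37827925 (corW 3 c0B eng mog cA102E gB0q1 gB1q0 gB1q2 gB2q2 dB0q1 dB1q0 dB1q2 dB2q2 true true)) t 1 1 1 = true :=
  ⟨(T.b (T.b (T.l 2) (T.a (T.b (T.l 2) (T.l 204)) (T.b (T.l 2) (T.l 204)))) (T.b (T.b (T.b (T.a (T.l 204) (T.a (T.l 204) (T.l 204))) (T.b (T.a (T.l 204) (T.a (T.l 204) (T.l 204))) (T.l 1))) (T.l 1)) (T.l 1))), by decide +kernel⟩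

def A102E_012 :
    ∃ t, chk3 (onCell 0 67108864 0 1073741824 780900216 37827925 (corW 3 c0B eng mog cA102E gB0q1 gB1q0 gB2q2 gB3q2 dB0q1 dB1q0 dB2q2 dB3q2 true false)) t 1 1 1 = true :=
  ⟨(T.b (T.a (T.b (T.l 204) (T.l 204)) (T.b (T.a (T.l 204) (T.b (T.b (T.l 204) (T.l 204)) (T.l 204))) (T.b (T.l 204) (T.l 204)))) (T.b (T.l 1) (T.l 1))), by decide +kernel⟩

def A102E_020 :
    ∃ t, chk3 (onCell 0 67108864 0 1073741824 780900216 37827925 (corW 3 c0B eng mog cA102E gB0q1 gB2q0 gB0q2 gB1q2 dB0q1 dB2q0 dB0q2 dB1q2 true true)) t 1 1 1 = true :=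
  ⟨(T.b (T.l 2) (T.b (T.b (T.l 2) (T.b (T.l 2) (T.a (T.l 204) (T.b (T.l 2) (T.a (T.c (T.l 204) (T.l 204)) (T.a (T.l 204) (T.l 204))))))) (T.b (T.b (T.b (T.b (T.a (T.l 204) (T.b (T.a (T.c (T.l 204) (T.l 204)) (T.c (T.l 204) (T.l 716))) (T.l 1))) (T.l 1)) (T.l 1)) (T.l 1)) (T.l 1)))), by decide +kernel⟩

def A102E_021 :
    ∃ t, chk3 (onCell 0 67108864 0 1073741824 780900216 37827925 (corW 3 c0B eng mog cA102E gB0q1 gB2q0 gB1q2 gB2q2 dB0q1 dB2q0 dB1q2 dB2q2 true true)) t 1 1 1 = true :=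
  ⟨(T.b (T.l 2) (T.b (T.b (T.l 2) (T.b (T.a (T.l 204) (T.a (T.l 204) (T.l 204))) (T.a (T.l 204) (T.a (T.b (T.l 204) (T.l 716)) (T.a (T.l 204) (T.l 204)))))) (T.l 1))), by decide +kernel⟩

def A102E_022 :
    ∃ t, chk3 (onCell 0 67108864 0 1073741824 780900216 37827925 (corW 3 c0B eng mog cA102E gB0q1 gB2q0 gB2q2 gB3q2 dB0q1 dB2q0 dB2q2 dB3q2 true false)) t 1 1 1 = true :=
  ⟨(T.b (T.a (T.l 204) (T.b (T.a (T.l 204) (T.b (T.l 204) (T.l 204))) (T.l 204))) (T.b (T.a (T.b (T.l 204) (T.l 204)) (T.b (T.a (T.l 204) (T.l 204)) (T.b (T.a (T.l 204) (T.l 204)) (T.l 1)))) (T.l 1))), by decide +kernel⟩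

def A102R_004 :
    ∃ t, chk3 (onCell 0 67108864 0 1073741824 780900216 37827925 (corW 3 c0B eng mog cA102R gB0q1 gB0q0 gB4q2 gB5q2 dB0q1 dB0q0 dB4q2 dB5q2 false true)) t 1 1 1 = true :=
  ⟨(T.l 2), by decide +kernel⟩

def A102R_014 :
    ∃ t, chk3 (onCell 0 67108864 0 1073741824 780900216 37827925 (corW 3 c0B eng mog cA102R gB0q1 gB1q0 gB4q2 gB5q2 dB0q1 dB1q0 dB4q2 dB5q2 false true)) t 1 1 1 = true :=
  ⟨(T.l 2), by decide +kernel⟩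

def A102R_024 :
    ∃ t, chk3 (onCell 0 67108864 0 1073741824 780900216 37827925 (corW 3 c0B eng mog cA102R gB0q1 gB2q0 gB4q2 gB5q2 dB0q1 dB2q0 dB4q2 dB5q2 false true)) t 1 1 1 = true :=
  ⟨(T.l 2), by decide +kernel⟩

def A202E_000 :
    ∃ t, chk3 (onCell 0 67108864 0 1073741824 780900216 37827925 (corW 3 c0B eng mog cA202E gB0q2 gB0q0 gB0q2 gB1q2 dB0q2 dB0q0 dB0q2 dB1q2 true true)) t 1 1 1 = true :=
  ⟨(T.l 2), by decide +kernel⟩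

def A202E_001 :
    ∃ t, chk3 (onCell 0 67108864 0 1073741824 780900216 37827925 (corW 3 c0B eng mog cA202E gB0q2 gB0q0 gB1q2 gB2q2 dB0q2 dB0q0 dB1q2 dB2q2 true true)) t 1 1 1 = true :=
  ⟨(T.l 2), by decide +kernel⟩

def A202E_002 :
    ∃ t, chk3 (onCell 0 67108864 0 1073741824 780900216 37827925 (corW 3 c0B eng mog cA202E gB0q2 gB0q0 gB2q2 gB3q2 dB0q2 dB0q0 dB2q2 dB3q2 true false)) t 1 1 1 = true :=
  ⟨(T.b (T.a (T.b (T.b (T.a (T.l 204) (T.b (T.l 204) (T.l 204))) (T.l 204)) (T.l 0)) (T.a (T.b (T.b (T.b (T.l 204) (T.l 204)) (T.l 204)) (T.l 0)) (T.b (T.b (T.a (T.l 204) (T.c (T.l 204) (T.l 204))) (T.l 204)) (T.b (T.l 0) (T.l 256))))) (T.a (T.a (T.b (T.l 816) (T.b (T.l 816) (T.a (T.b (T.l 816) (T.l 816)) (T.l 816)))) (T.b (T.l 0) (T.a (T.b (T.l 816) (T.l 816)) (T.b (T.l 816) (T.b (T.l 816) (T.l 816)))))) (T.b (T.a (T.b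 (T.l 0) (T.b (T.l 816) (T.l 816))) (T.b (T.b (T.l 0) (T.l 0)) (T.a (T.l 0) (T.l 0)))) (T.a (T.a (T.b (T.l 816) (T.a (T.l 816) (T.l 816))) (T.b (T.b (T.l 816) (T.l 816)) (T.b (T.l 816) (T.l 816)))) (T.b (T.a (T.l 816) (T.l 816)) (T.a (T.b (T.l 816) (T.l 816)) (T.b (T.l 816) (T.l 816)))))))), by decide +kernel⟩

def A202E_010 :
    ∃ t, chk3 (onCell 0 67108864 0 1073741824 780900216 37827925 (corW 3 c0B eng mog cA202E gB0q2 gB1q0 gB0q2 gB1q2 dB0q2 dB1q0 dB0q2 dB1q2 true true)) t 1 1 1 = true :=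
  ⟨(T.l 2), by decide +kernel⟩

def A202E_011 :
    ∃ t, chk3 (onCell 0 67108864 0 1073741824 780900216 37827925 (corW 3 c0B eng mog cA202E gB0q2 gB1q0 gB1q2 gB2q2 dB0q2 dB1q0 dB1q2 dB2q2 true true)) t 1 1 1 = true :=
  ⟨(T.l 2), by decide +kernel⟩

def A202E_012 :
    ∃ t, chk3 (onCell 0 67108864 0 1073741824 780900216 37827925 (corW 3 c0B eng mog cA202E gB0q2 gB1q0 gB2q2 gB3q2 dB0q2 dB1q0 dB2q2 dB3q2 true false)) t 1 1 1 = true :=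
  ⟨(T.a (T.b (T.b (T.l 204) (T.l 0)) (T.a (T.b (T.l 0) (T.b (T.l 816) (T.a (T.l 816) (T.l 816)))) (T.b (T.l 0) (T.a (T.l 816) (T.b (T.l 816) (T.b (T.l 816) (T.l 816))))))) (T.b (T.a (T.l 0) (T.b (T.l 204) (T.b (T.l 204) (T.l 0)))) (T.b (T.a (T.b (T.l 0) (T.l 816)) (T.b (T.l 0) (T.b (T.l 0) (T.l 0)))) (T.a (T.b (T.a (T.l 816) (T.l 816)) (T.a (T.a (T.l 816) (T.l 816)) (T.b (T.l 816) (T.l 816)))) (T.b (T.a (T.l 816) (T.l 0)) (T.a (T.b (T.l 816) (T.l 816)) (T.b (T.l 816) (T.l 816)))))))), by decide +kernel⟩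

def A202E_020 :
    ∃ t, chk3 (onCell 0 67108864 0 1073741824 780900216 37827925 (corW 3 c0B eng mog cA202E gB0q2 gB2q0 gB0q2 gB1q2 dB0q2 dB2q0 dB0q2 dB1q2 true true)) t 1 1 1 = true :=
  ⟨(T.l 2), by decide +kernel⟩

def A202E_021 :
    ∃ t, chk3 (onCell 0 67108864 0 1073741824 780900216 37827925 (corW 3 c0B eng mog cA202E gB0q2 gB2q0 gB1q2 gB2q2 dB0q2 dB2q0 dB1q2 dB2q2 true true)) t 1 1 1 = true :=
  ⟨(T.l 2), by decide +kernel⟩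

def A202E_022 :
    ∃ t, chk3 (onCell 0 67108864 0 1073741824 780900216 37827925 (corW 3 c0B eng mog cA202E gB0q2 gB2q0 gB2q2 gB3q2 dB0q2 dB2q0 dB2q2 dB3q2 true false)) t 1 1 1 = true :=
  ⟨(T.b (T.a (T.l 0) (T.b (T.a (T.l 204) (T.l 204)) (T.a (T.l 204) (T.b (T.l 204) (T.l 204))))) (T.a (T.a (T.b (T.l 0) (T.b (T.l 816) (T.a (T.l 880) (T.l 816)))) (T.b (T.l 0) (T.a (T.b (T.l 816) (T.l 816)) (T.b (T.l 816) (T.b (T.l 816) (T.l 816)))))) (T.b (T.a (T.b (T.l 0) (T.l 0)) (T.b (T.l 0) (T.l 0))) (T.a (T.b (T.a (T.l 816) (T.l 0)) (T.a (T.a (T.l 816) (T.l 816)) (T.b (T.l 816) (T.l 816)))) (T.b (T.b (T.l 0) (T.l 0)) (T.a (T.b (T.l 816) (T.l 816)) (T.b (T.l 816) (T.l 816)))))))), by decide +kernel⟩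

def A202E_110 :
    ∃ t, chk3 (onCell 0 67108864 0 1073741824 780900216 37827925 (corW 3 c0B eng mog cA202E gB1q2 gB1q0 gB0q2 gB1q2 dB1q2 dB1q0 dB0q2 dB1q2 true true)) t 1 1 1 = true :=
  ⟨(T.l 2), by decide +kernel⟩

def A202E_111 :
    ∃ t, chk3 (onCell 0 67108864 0 1073741824 780900216 37827925 (corW 3 c0B eng mog cA202E gB1q2 gB1q0 gB1q2 gB2q2 dB1q2 dB1q0 dB1q2 dB2q2 true true)) t 1 1 1 = true :=
  ⟨(T.l 2), by decide +kernel⟩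

def A202E_112 :
    ∃ t, chk3 (onCell 0 67108864 0 1073741824 780900216 37827925 (corW 3 c0B eng mog cA202E gB1q2 gB1q0 gB2q2 gB3q2 dB1q2 dB1q0 dB2q2 dB3q2 true false)) t 1 1 1 = true :=
  ⟨(T.a (T.b (T.l 0) (T.b (T.l 0) (T.b (T.l 816) (T.a (T.c (T.l 816) (T.l 816)) (T.b (T.l 816) (T.l 816)))))) (T.a (T.b (T.l 0) (T.b (T.l 0) (T.b (T.l 816) (T.l 816)))) (T.b (T.b (T.l 204) (T.l 0)) (T.b (T.l 0) (T.a (T.l 816) (T.b (T.l 816) (T.b (T.l 816) (T.l 816)))))))), by decide +kernel⟩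

def A202E_120 :
    ∃ t, chk3 (onCell 0 67108864 0 1073741824 780900216 37827925 (corW 3 c0B eng mog cA202E gB1q2 gB2q0 gB0q2 gB1q2 dB1q2 dB2q0 dB0q2 dB1q2 true true)) t 1 1 1 = true :=
  ⟨(T.l 2), by decide +kernel⟩

def A202E_121 :
    ∃ t, chk3 (onCell 0 67108864 0 1073741824 780900216 37827925 (corW 3 c0B eng mog cA202E gB1q2 gB2q0 gB1q2 gB2q2 dB1q2 dB2q0 dB1q2 dB2q2 true true)) t 1 1 1 = true :=
  ⟨(T.l 2), by decide +kernel⟩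

def A202E_122 :
    ∃ t, chk3 (onCell 0 67108864 0 1073741824 780900216 37827925 (corW 3 c0B eng mog cA202E gB1q2 gB2q0 gB2q2 gB3q2 dB1q2 dB2q0 dB2q2 dB3q2 true false)) t 1 1 1 = true :=
  ⟨(T.a (T.b (T.l 0) (T.b (T.l 0) (T.b (T.l 816) (T.b (T.l 816) (T.a (T.b (T.l 816) (T.l 816)) (T.l 816)))))) (T.a (T.b (T.l 0) (T.b (T.l 0) (T.b (T.l 816) (T.l 816)))) (T.b (T.b (T.l 204) (T.l 0)) (T.b (T.l 0) (T.a (T.l 816) (T.b (T.l 816) (T.b (T.l 816) (T.l 816)))))))), by decide +kernel⟩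

def A202E_220 :
    ∃ t, chk3 (onCell 0 67108864 0 1073741824 780900216 37827925 (corW 3 c0B eng mog cA202E gB2q2 gB2q0 gB0q2 gB1q2 dB2q2 dB2q0 dB0q2 dB1q2 true true)) t 1 1 1 = true :=
  ⟨(T.l 2), by decide +kernel⟩

def A202E_221 :
    ∃ t, chk3 (onCell 0 67108864 0 1073741824 780900216 37827925 (corW 3 c0B eng mog cA202E gB2q2 gB2q0 gB1q2 gB2q2 dB2q2 dB2q0 dB1q2 dB2q2 true true)) t 1 1 1 = true :=
  ⟨(T.l 2), by decide +kernel⟩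

def A202E_222 :
    ∃ t, chk3 (onCell 0 67108864 0 1073741824 780900216 37827925 (corW 3 c0B eng mog cA202E gB2q2 gB2q0 gB2q2 gB3q2 dB2q2 dB2q0 dB2q2 dB3q2 true false)) t 1 1 1 = true :=
  ⟨(T.a (T.b (T.l 0) (T.b (T.l 0) (T.a (T.b (T.l 816) (T.l 816)) (T.l 880)))) (T.a (T.b (T.l 0) (T.b (T.l 0) (T.l 816))) (T.b (T.b (T.l 204) (T.l 0)) (T.b (T.l 0) (T.a (T.l 816) (T.b (T.l 816) (T.b (T.l 816) (T.l 816)))))))), by decide +kernel⟩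

def A202R_004_1_4_1 :
    ∃ t, chk3 (onCell 0 67108864 0 1073741824 780900216 37827925 (corW 3 c0B eng mog cA202R gB0q2 gB0q0 gB4q2 gB5q2 dB0q2 dB0q0 dB4q2 dB5q2 false true)) t 1 4 1 = true :=
  ⟨(T.l 2), by decide +kernel⟩

def A202R_004_1_5_1 :
    ∃ t, chk3 (onCell 0 67108864 0 1073741824 780900216 37827925 (corW 3 c0B eng mog cA202R gB0q2 gB0q0 gB4q2 gB5q2 dB0q2 dB0q0 dB4q2 dB5q2 false true)) t 1 5 1 = true :=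
  ⟨(T.b (T.b (T.l 2) (T.b (T.b (T.a (T.l 2) (T.b (T.l 2) (T.b (T.l 2) (T.b (T.l 2) (T.a (T.a (T.l 2) (T.a (T.l 2) (T.b (T.l 2) (T.l 0)))) (T.a (T.b (T.a (T.l 2) (T.l 0)) (T.l 0)) (T.l 0))))))) (T.a (T.b (T.b (T.a (T.a (T.l 2) (T.b (T.l 2) (T.b (T.l 2) (T.b (T.l 2) (T.a (T.a (T.l 2) (T.a (T.l 2) (T.l 0))) (T.l 0)))))) (T.b (T.a (T.l 2) (T.a (T.l 2) (T.b (T.l 2) (T.b (T.l 2) (T.l 0))))) (T.a (T.b (T.a (T.l 2) (T.b (T.l 2) (T.l 0))) (T.c (T.l 0) (T.l 0))) (T.c (T.l 0) (T.l 0))))) (T.a (T.a (T.b (T.b (T.a (T.a (T.l 2) (T.b (T.l 2) (T.c (T.b (T.l 2) (T.l 0)) (T.l 0)))) (T.b (T.a (T.l 2) (T.b (T.l 2) (T.l 0))) (T.c (T.l 0) (T.l 0)))) (T.c (T.c (T.a (T.l 0) (T.l 816)) (T.l 0)) (T.l 0))) (T.c (T.l 816) (T.l 816))) (T.c (T.c (T.l 0) (T.l 0)) (T.l 0))) (T.c (T.l 0) (T.l 0)))) (T.a (T.c (T.a (T.l 816) (T.l 816)) (T.l 816)) (T.c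 (T.l 816) (T.l 816)))) (T.a (T.b (T.b (T.a (T.b (T.b (T.a (T.l 2) (T.c (T.l 0) (T.l 0))) (T.l 0)) (T.l 0)) (T.l 0)) (T.l 816)) (T.l 816)) (T.c (T.l 0) (T.l 0))))) (T.a (T.a (T.c (T.a (T.b (T.l 816) (T.l 816)) (T.l 816)) (T.a (T.l 816) (T.l 816))) (T.b (T.c (T.l 816) (T.l 816)) (T.l 816))) (T.a (T.c (T.l 816) (T.l 816)) (T.l 880))))) (T.a (T.b (T.a (T.b (T.a (T.c (T.l 816) (T.l 816)) (T.l 816)) (T.c (T.l 816) (T.l 816))) (T.b (T.c (T.l 816) (T.l 816)) (T.l 816))) (T.a (T.b (T.l 816) (T.l 816)) (T.b (T.l 816) (T.l 816)))) (T.a (T.b (T.b (T.l 816) (T.l 816)) (T.l 816)) (T.b (T.b (T.l 816) (T.l 816)) (T.a (T.l 816) (T.b (T.l 816) (T.l 816))))))), by decide +kernel⟩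

def A202R_004_1_3_1 :
    ∃ t, chk3 (onCell 0 67108864 0 1073741824 780900216 37827925 (corW 3 c0B eng mog cA202R gB0q2 gB0q0 gB4q2 gB5q2 dB0q2 dB0q0 dB4q2 dB5q2 false true)) t 1 3 1 = true :=
  ⟨(T.b (T.a (T.b (T.a (T.b (T.b (T.l 816) (T.l 816)) (T.l 816)) (T.b (T.l 816) (T.l 816))) (T.a (T.b (T.l 816) (T.l 816)) (T.b (T.l 816) (T.l 816)))) (T.a (T.b (T.b (T.l 816) (T.l 816)) (T.a (T.l 816) (T.b (T.l 816) (T.l 816)))) (T.b (T.b (T.a (T.l 816) (T.l 816)) (T.a (T.l 816) (T.b (T.l 816) (T.l 816)))) (T.a (T.b (T.l 816) (T.l 816)) (T.b (T.l 816) (T.l 816)))))) (T.a (T.a (T.b (T.b (T.l 816) (T.l 816)) (T.l 816)) (T.a (T.b (T.l 816) (T.l 816)) (T.b (T.l 816) (T.a (T.l 816) (T.l 816))))) (T.a (T.a (T.b (T.b (T.l 816) (T.l 816)) (T.a (T.l 816) (T.b (T.l 816) (T.l 816)))) (T.b (T.b (T.l 816) (T.l 816)) (T.b (T.l 816) (T.l 816))))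 (T.b (T.a (T.b (T.l 816) (T.l 816)) (T.b (T.l 816) (T.l 816))) (T.a (T.b (T.l 816) (T.l 816)) (T.b (T.l 816) (T.l 816))))))), by decide +kernel⟩

theorem A202R_004_1_2_1 :
    ∃ t, chk3 (onCell 0 67108864 0 1073741824 780900216 37827925 (corW 3 c0B eng mog cA202R gB0q2 gB0q0 gB4q2 gB5q2 dB0q2 dB0q0 dB4q2 dB5q2 false true)) t 1 2 1 = true :=
  ex3_b A202R_004_1_4_1 A202R_004_1_5_1
theorem A202R_004 :
    ∃ t, chk3 (onCell 0 67108864 0 1073741824 780900216 37827925 (corW 3 c0B eng mog cA202R gB0q2 gB0q0 gB4q2 gB5q2 dB0q2 dB0q0 dB4q2 dB5q2 false true)) t 1 1 1 = true :=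
  ex3_b A202R_004_1_2_1 A202R_004_1_3_1

def A202R_014 :
    ∃ t, chk3 (onCell 0 67108864 0 1073741824 780900216 37827925 (corW 3 c0B eng mog cA202R gB0q2 gB1q0 gB4q2 gB5q2 dB0q2 dB1q0 dB4q2 dB5q2 false true)) t 1 1 1 = true :=
  ⟨(T.b (T.b (T.l 2) (T.b (T.l 2) (T.b (T.l 204) (T.a (T.l 0) (T.a (T.l 0) (T.l 0)))))) (T.b (T.a (T.l 0) (T.a (T.b (T.l 0) (T.b (T.l 816) (T.l 816))) (T.b (T.b (T.l 0) (T.l 0)) (T.b (T.l 0) (T.l 816))))) (T.a (T.a (T.b (T.l 816) (T.l 816)) (T.a (T.l 816) (T.b (T.l 816) (T.a (T.l 816) (T.l 816))))) (T.a (T.b (T.a (T.l 816) (T.b (T.l 816) (T.l 816))) (T.a (T.a (T.l 816) (T.b (T.l 816) (T.l 816))) (T.b (T.l 816) (T.l 816)))) (T.b (T.a (T.l 816) (T.l 816)) (T.a (T.b (T.l 816) (T.l 816)) (T.b (T.l 816) (T.l 816)))))))), by decide +kernel⟩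

def A202R_024 :
    ∃ t, chk3 (onCell 0 67108864 0 1073741824 780900216 37827925 (corW 3 c0B eng mog cA202R gB0q2 gB2q0 gB4q2 gB5q2 dB0q2 dB2q0 dB4q2 dB5q2 false true)) t 1 1 1 = true :=
  ⟨(T.b (T.l 2) (T.b (T.a (T.l 0) (T.a (T.b (T.l 0) (T.l 0)) (T.b (T.l 0) (T.l 0)))) (T.b (T.a (T.l 816) (T.a (T.a (T.l 816) (T.l 0)) (T.b (T.l 0) (T.l 816)))) (T.a (T.a (T.l 816) (T.a (T.l 816) (T.a (T.l 816) (T.l 816)))) (T.a (T.a (T.a (T.l 816) (T.b (T.l 816) (T.l 816))) (T.b (T.l 816) (T.l 816))) (T.a (T.b (T.l 816) (T.l 816)) (T.b (T.l 816) (T.l 816)))))))), by decide +kernel⟩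

def A202R_114 :
    ∃ t, chk3 (onCell 0 67108864 0 1073741824 780900216 37827925 (corW 3 c0B eng mog cA202R gB1q2 gB1q0 gB4q2 gB5q2 dB1q2 dB1q0 dB4q2 dB5q2 false true)) t 1 1 1 = true :=
  ⟨(T.b (T.b (T.l 2) (T.l 2)) (T.b (T.l 0) (T.a (T.l 816) (T.a (T.l 816) (T.b (T.l 816) (T.l 0)))))), by decide +kernel⟩

def A202R_124 :
    ∃ t, chk3 (onCell 0 67108864 0 1073741824 780900216 37827925 (corW 3 c0B eng mog cA202R gB1q2 gB2q0 gB4q2 gB5q2 dB1q2 dB2q0 dB4q2 dB5q2 false true)) t 1 1 1 = true :=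
  ⟨(T.b (T.l 2) (T.b (T.l 0) (T.a (T.l 0) (T.a (T.l 816) (T.b (T.l 816) (T.l 0)))))), by decide +kernel⟩

def A202R_224 :
    ∃ t, chk3 (onCell 0 67108864 0 1073741824 780900216 37827925 (corW 3 c0B eng mog cA202R gB2q2 gB2q0 gB4q2 gB5q2 dB2q2 dB2q0 dB4q2 dB5q2 false true)) t 1 1 1 = true :=
  ⟨(T.b (T.l 2) (T.b (T.l 2) (T.b (T.l 0) (T.a (T.l 816) (T.a (T.l 816) (T.l 0)))))), by decide +kernel⟩

def B011E_000 :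
    ∃ t, chk3 (onCell 0 67108864 0 1073741824 780900216 37827925 (corW 3 c0B eng mog cB011E gB0q0 gB0q1 gB0q1 gB1q1 dB0q0 dB0q1 dB0q1 dB1q1 true false)) t 1 1 1 = true :=
  ⟨(T.l 1), by decide +kernel⟩

def B011E_100 :
    ∃ t, chk3 (onCell 0 67108864 0 1073741824 780900216 37827925 (corW 3 c0B eng mog cB011E gB1q0 gB0q1 gB0q1 gB1q1 dB1q0 dB0q1 dB0q1 dB1q1 true false)) t 1 1 1 = true :=
  ⟨(T.l 1), by decide +kernel⟩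

def B011E_200 :
    ∃ t, chk3 (onCell 0 67108864 0 1073741824 780900216 37827925 (corW 3 c0B eng mog cB011E gB2q0 gB0q1 gB0q1 gB1q1 dB2q0 dB0q1 dB0q1 dB1q1 true false)) t 1 1 1 = true :=
  ⟨(T.l 1), by decide +kernel⟩

def B011L_030 :
    ∃ t, chk3 (onCell 0 67108864 0 1073741824 780900216 37827925 (corW 3 c0B eng mog cB011L gB0q0 gB3q1 gB0q1 gB1q1 dB0q0 dB3q1 dB0q1 dB1q1 true false)) t 1 1 1 = true :=
  ⟨(T.l 1), by decide +kernel⟩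

def B011L_040 :
    ∃ t, chk3 (onCell 0 67108864 0 1073741824 780900216 37827925 (corW 3 c0B eng mog cB011L gB0q0 gB4q1 gB0q1 gB1q1 dB0q0 dB4q1 dB0q1 dB1q1 true false)) t 1 1 1 = true :=
  ⟨(T.l 1), by decide +kernel⟩

def B011L_050 :
    ∃ t, chk3 (onCell 0 67108864 0 1073741824 780900216 37827925 (corW 3 c0B eng mog cB011L gB0q0 gB5q1 gB0q1 gB1q1 dB0q0 dB5q1 dB0q1 dB1q1 true false)) t 1 1 1 = true :=
  ⟨(T.l 1), by decide +kernel⟩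

def B011L_130 :
    ∃ t, chk3 (onCell 0 67108864 0 1073741824 780900216 37827925 (corW 3 c0B eng mog cB011L gB1q0 gB3q1 gB0q1 gB1q1 dB1q0 dB3q1 dB0q1 dB1q1 true false)) t 1 1 1 = true :=
  ⟨(T.l 1), by decide +kernel⟩

def B011L_140 :
    ∃ t, chk3 (onCell 0 67108864 0 1073741824 780900216 37827925 (corW 3 c0B eng mog cB011L gB1q0 gB4q1 gB0q1 gB1q1 dB1q0 dB4q1 dB0q1 dB1q1 true false)) t 1 1 1 = true :=
  ⟨(T.l 1), by decide +kernel⟩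

def B011L_150 :
    ∃ t, chk3 (onCell 0 67108864 0 1073741824 780900216 37827925 (corW 3 c0B eng mog cB011L gB1q0 gB5q1 gB0q1 gB1q1 dB1q0 dB5q1 dB0q1 dB1q1 true false)) t 1 1 1 = true :=
  ⟨(T.l 1), by decide +kernel⟩

def B011L_230 :
    ∃ t, chk3 (onCell 0 67108864 0 1073741824 780900216 37827925 (corW 3 c0B eng mog cB011L gB2q0 gB3q1 gB0q1 gB1q1 dB2q0 dB3q1 dB0q1 dB1q1 true false)) t 1 1 1 = true :=
  ⟨(T.l 1), by decide +kernel⟩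

def B011L_240 :
    ∃ t, chk3 (onCell 0 67108864 0 1073741824 780900216 37827925 (corW 3 c0B eng mog cB011L gB2q0 gB4q1 gB0q1 gB1q1 dB2q0 dB4q1 dB0q1 dB1q1 true false)) t 1 1 1 = true :=
  ⟨(T.l 1), by decide +kernel⟩

def B011L_250 :
    ∃ t, chk3 (onCell 0 67108864 0 1073741824 780900216 37827925 (corW 3 c0B eng mog cB011L gB2q0 gB5q1 gB0q1 gB1q1 dB2q0 dB5q1 dB0q1 dB1q1 true false)) t 1 1 1 = true :=
  ⟨(T.l 1), by decide +kernel⟩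

def B011R_002 :
    ∃ t, chk3 (onCell 0 67108864 0 1073741824 780900216 37827925 (corW 3 c0B eng mog cB011R gB0q0 gB0q1 gB2q1 gB3q1 dB0q0 dB0q1 dB2q1 dB3q1 false true)) t 1 1 1 = true :=
  ⟨(T.b (T.b (T.b (T.a (T.l 220) (T.a (T.l 204) (T.a (T.l 204) (T.l 204)))) (T.l 2)) (T.l 2)) (T.l 2)), by decide +kernel⟩

def B011R_003 :
    ∃ t, chk3 (onCell 0 67108864 0 1073741824 780900216 37827925 (corW 3 c0B eng mog cB011R gB0q0 gB0q1 gB3q1 gB4q1 dB0q0 dB0q1 dB3q1 dB4q1 true true)) t 1 1 1 = true :=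
  ⟨(T.b (T.b (T.b (T.b (T.l 1) (T.a (T.l 204) (T.a (T.l 204) (T.a (T.l 204) (T.l 204))))) (T.a (T.b (T.l 204) (T.a (T.l 204) (T.l 204))) (T.a (T.b (T.l 204) (T.l 204)) (T.a (T.l 204) (T.a (T.l 204) (T.b (T.l 204) (T.l 204))))))) (T.l 2)) (T.l 2)), by decide +kernel⟩

def B011R_004_1_4_1 :
    ∃ t, chk3 (onCell 0 67108864 0 1073741824 780900216 37827925 (corW 3 c0B eng mog cB011R gB0q0 gB0q1 gB4q1 gB5q1 dB0q0 dB0q1 dB4q1 dB5q1 true true)) t 1 4 1 = true :=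
  ⟨(T.b (T.l 1) (T.b (T.l 1) (T.a (T.a (T.l 204) (T.l 204)) (T.a (T.l 204) (T.a (T.l 204) (T.l 204)))))), by decide +kernel⟩

def B011R_004_1_5_1 :
    ∃ t, chk3 (onCell 0 67108864 0 1073741824 780900216 37827925 (corW 3 c0B eng mog cB011R gB0q0 gB0q1 gB4q1 gB5q1 dB0q0 dB0q1 dB4q1 dB5q1 true true)) t 1 5 1 = true :=
  ⟨(T.b (T.b (T.a (T.b (T.a (T.l 204) (T.l 204)) (T.a (T.c (T.a (T.l 204) (T.l 204)) (T.l 204)) (T.c (T.l 204) (T.l 204)))) (T.a (T.b (T.l 204) (T.l 204)) (T.a (T.l 220) (T.a (T.l 204) (T.b (T.l 204) (T.l 204)))))) (T.b (T.b (T.a (T.a (T.c (T.a (T.l 204) (T.l 204)) (T.a (T.l 204) (T.l 204))) (T.c (T.l 204) (T.l 204))) (T.a (T.l 204) (T.a (T.l 204) (T.c (T.l 204) (T.l 220))))) (T.b (T.a (T.a (T.b (T.c (T.l 0) (T.l 0)) (T.b (T.a (T.a (T.b (T.l 0) (T.b (T.l 0) (T.a (T.a (T.l 2) (T.b (T.l 0) (T.l 2))) (T.b (T.l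 0) (T.a (T.l 2) (T.l 0)))))) (T.l 0)) (T.l 0)) (T.a (T.a (T.l 2) (T.b (T.b (T.a (T.l 2) (T.c (T.l 0) (T.l 0))) (T.l 2)) (T.l 2))) (T.b (T.a (T.b (T.l 0) (T.a (T.l 2) (T.c (T.l 0) (T.l 0)))) (T.l 0)) (T.a (T.l 2) (T.a (T.l 2) (T.b (T.l 0) (T.l 2)))))))) (T.a (T.b (T.l 204) (T.a (T.b (T.l 204) (T.a (T.b (T.l 0) (T.b (T.l 0) (T.l 2))) (T.l 0))) (T.l 0))) (T.l 0))) (T.a (T.l 0) (T.a (T.l 204) (T.a (T.l 204) (T.l 204))))) (T.a (T.a (T.l 2) (T.b (T.b (T.a (T.l 2) (T.b (T.a (T.b (T.l 0) (T.l 2)) (T.l 0)) (T.l 2))) (T.l 2)) (T.l 2))) (T.b (T.a (T.b (T.a (T.a (T.a (T.c (T.l 0) (T.c (T.l 0) (T.l 0))) (T.l 0)) (T.l 0)) (T.l 0)) (T.a (T.l 2) (T.b (T.c (T.l 0) (T.c (T.l 0) (T.l 0))) (T.l 2)))) (T.a (T.c (T.l 0) (T.c (T.l 0) (T.l 0))) (T.a (T.l 0) (T.l 0)))) (T.a (T.l 2) (T.a (T.l 2) (T.a (T.l 2) (T.b (T.b (T.a (T.l 0) (T.l 0)) (T.l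 2)) (T.l 2))))))))) (T.l 2))) (T.l 2)), by decide +kernel⟩

def B011R_004_1_3_1 :
    ∃ t, chk3 (onCell 0 67108864 0 1073741824 780900216 37827925 (corW 3 c0B eng mog cB011R gB0q0 gB0q1 gB4q1 gB5q1 dB0q0 dB0q1 dB4q1 dB5q1 true true)) t 1 3 1 = true :=
  ⟨(T.l 2), by decide +kernel⟩

theorem B011R_004_1_2_1 :
    ∃ t, chk3 (onCell 0 67108864 0 1073741824 780900216 37827925 (corW 3 c0B eng mog cB011R gB0q0 gB0q1 gB4q1 gB5q1 dB0q0 dB0q1 dB4q1 dB5q1 true true)) t 1 2 1 = true :=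
  ex3_b B011R_004_1_4_1 B011R_004_1_5_1
theorem B011R_004 :
    ∃ t, chk3 (onCell 0 67108864 0 1073741824 780900216 37827925 (corW 3 c0B eng mog cB011R gB0q0 gB0q1 gB4q1 gB5q1 dB0q0 dB0q1 dB4q1 dB5q1 true true)) t 1 1 1 = true :=
  ex3_b B011R_004_1_2_1 B011R_004_1_3_1

def B011R_102 :
    ∃ t, chk3 (onCell 0 67108864 0 1073741824 780900216 37827925 (corW 3 c0B eng mog cB011R gB1q0 gB0q1 gB2q1 gB3q1 dB1q0 dB0q1 dB2q1 dB3q1 false true)) t 1 1 1 = true :=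
  ⟨(T.l 2), by decide +kernel⟩

def B011R_103 :
    ∃ t, chk3 (onCell 0 67108864 0 1073741824 780900216 37827925 (corW 3 c0B eng mog cB011R gB1q0 gB0q1 gB3q1 gB4q1 dB1q0 dB0q1 dB3q1 dB4q1 true true)) t 1 1 1 = true :=
  ⟨(T.b (T.b (T.b (T.a (T.l 0) (T.a (T.l 0) (T.l 0))) (T.l 2)) (T.l 2)) (T.l 2)), by decide +kernel⟩

def B011R_104 :
    ∃ t, chk3 (onCell 0 67108864 0 1073741824 780900216 37827925 (corW 3 c0B eng mog cB011R gB1q0 gB0q1 gB4q1 gB5q1 dB1q0 dB0q1 dB4q1 dB5q1 true true)) t 1 1 1 = true :=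
  ⟨(T.b (T.b (T.a (T.l 0) (T.a (T.l 0) (T.l 0))) (T.l 2)) (T.l 2)), by decide +kernel⟩

def B011R_202 :
    ∃ t, chk3 (onCell 0 67108864 0 1073741824 780900216 37827925 (corW 3 c0B eng mog cB011R gB2q0 gB0q1 gB2q1 gB3q1 dB2q0 dB0q1 dB2q1 dB3q1 false true)) t 1 1 1 = true :=
  ⟨(T.l 2), by decide +kernel⟩

def B011R_203 :
    ∃ t, chk3 (onCell 0 67108864 0 1073741824 780900216 37827925 (corW 3 c0B eng mog cB011R gB2q0 gB0q1 gB3q1 gB4q1 dB2q0 dB0q1 dB3q1 dB4q1 true true)) t 1 1 1 = true :=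
  ⟨(T.l 2), by decide +kernel⟩

def B011R_204 :
    ∃ t, chk3 (onCell 0 67108864 0 1073741824 780900216 37827925 (corW 3 c0B eng mog cB011R gB2q0 gB0q1 gB4q1 gB5q1 dB2q0 dB0q1 dB4q1 dB5q1 true true)) t 1 1 1 = true :=
  ⟨(T.l 2), by decide +kernel⟩

def B012E_000_1_4_1 :
    ∃ t, chk3 (onCell 0 67108864 0 1073741824 780900216 37827925 (corW 3 c0B eng mog cB012E gB0q0 gB0q2 gB0q1 gB1q1 dB0q0 dB0q2 dB0q1 dB1q1 true false)) t 1 4 1 = true :=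
  ⟨(T.l 1), by decide +kernel⟩

def B012E_000_1_10_1 :
    ∃ t, chk3 (onCell 0 67108864 0 1073741824 780900216 37827925 (corW 3 c0B eng mog cB012E gB0q0 gB0q2 gB0q1 gB1q1 dB0q0 dB0q2 dB0q1 dB1q1 true false)) t 1 10 1 = true :=
  ⟨(T.l 1), by decide +kernel⟩

def B012E_000_1_22_1 :
    ∃ t, chk3 (onCell 0 67108864 0 1073741824 780900216 37827925 (corW 3 c0B eng mog cB012E gB0q0 gB0q2 gB0q1 gB1q1 dB0q0 dB0q2 dB0q1 dB1q1 true false)) t 1 22 1 = true :=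
  ⟨(T.l 1), by decide +kernel⟩

def B012E_000_1_46_1 :
    ∃ t, chk3 (onCell 0 67108864 0 1073741824 780900216 37827925 (corW 3 c0B eng mog cB012E gB0q0 gB0q2 gB0q1 gB1q1 dB0q0 dB0q2 dB0q1 dB1q1 true false)) t 1 46 1 = true :=
  ⟨(T.l 1), by decide +kernel⟩

def B012E_000_2_47_1 :
    ∃ t, chk3 (onCell 0 67108864 0 1073741824 780900216 37827925 (corW 3 c0B eng mog cB012E gB0q0 gB0q2 gB0q1 gB1q1 dB0q0 dB0q2 dB0q1 dB1q1 true false)) t 2 47 1 = true :=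
  ⟨(T.b (T.l 1) (T.a (T.b (T.l 1) (T.a (T.b (T.l 1) (T.c (T.a (T.b (T.l 1) (T.c (T.a (T.b (T.l 1) (T.c (T.c (T.a (T.c (T.l 0) (T.l 0)) (T.l 0)) (T.l 0)) (T.l 0))) (T.a (T.b (T.a (T.l 1) (T.l 0)) (T.l 0)) (T.l 0))) (T.a (T.b (T.l 1) (T.c (T.l 0) (T.l 0))) (T.a (T.c (T.c (T.l 0) (T.l 0)) (T.l 0)) (T.l 0))))) (T.b (T.b (T.a (T.l 1) (T.a (T.l 1) (T.l 0))) (T.a (T.a (T.l 1) (T.l 0)) (T.l 0))) (T.l 0))) (T.a (T.b (T.l 1) (T.a (T.b (T.l 1) (T.c (T.l 0) (T.l 0))) (T.c (T.c (T.l 0) (T.l 0)) (T.l 0)))) (T.b (T.b (T.a (T.l 1) (T.a (T.l 1) (T.l 0))) (T.a (T.a (T.l 1) (T.l 0)) (T.l 0))) (T.l 0))))) (T.c (T.b (T.b (T.a (T.l 1) (T.a (T.l 1) (T.b (T.l 1) (T.l 0)))) (T.a (T.a (T.l 1) (T.b (T.l 1) (T.l 0))) (T.l 0))) (T.c (T.l 0) (T.l 0))) (T.b (T.b (T.a (T.l 1) (T.a (T.l 1) (T.a (T.l 1) (T.l 0)))) (T.a (T.a (T.l 1) (T.b (T.l 1) (T.l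 0))) (T.l 0))) (T.l 0))))) (T.a (T.b (T.a (T.l 1) (T.b (T.l 1) (T.b (T.l 1) (T.c (T.l 0) (T.l 0))))) (T.a (T.c (T.c (T.l 0) (T.l 0)) (T.l 0)) (T.l 0))) (T.b (T.b (T.a (T.l 1) (T.a (T.l 1) (T.b (T.l 1) (T.l 0)))) (T.a (T.c (T.c (T.l 0) (T.l 0)) (T.l 0)) (T.l 0))) (T.l 0))))), by decide +kernel⟩

def B012E_000_3_47_1 :
    ∃ t, chk3 (onCell 0 67108864 0 1073741824 780900216 37827925 (corW 3 c0B eng mog cB012E gB0q0 gB0q2 gB0q1 gB1q1 dB0q0 dB0q2 dB0q1 dB1q1 true false)) t 3 47 1 = true :=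
  ⟨(T.a (T.b (T.b (T.l 1) (T.a (T.l 1) (T.b (T.l 1) (T.b (T.a (T.l 1) (T.l 0)) (T.l 0))))) (T.a (T.b (T.a (T.b (T.b (T.l 1) (T.l 0)) (T.l 0)) (T.l 0)) (T.l 0)) (T.l 0))) (T.b (T.b (T.a (T.l 1) (T.a (T.l 1) (T.a (T.l 1) (T.b (T.l 1) (T.l 0))))) (T.a (T.b (T.a (T.l 1) (T.l 0)) (T.l 0)) (T.l 0))) (T.a (T.l 0) (T.l 0)))), by decide +kernel⟩

def B012E_000_1_3_1 :
    ∃ t, chk3 (onCell 0 67108864 0 1073741824 780900216 37827925 (corW 3 c0B eng mog cB012E gB0q0 gB0q2 gB0q1 gB1q1 dB0q0 dB0q2 dB0q1 dB1q1 true false)) t 1 3 1 = true :=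
  ⟨(T.a (T.b (T.b (T.b (T.a (T.b (T.b (T.a (T.c (T.b (T.c (T.l 0) (T.l 0)) (T.l 0)) (T.c (T.l 0) (T.l 0))) (T.c (T.l 0) (T.l 0))) (T.c (T.a (T.l 0) (T.l 0)) (T.l 0))) (T.c (T.a (T.l 0) (T.l 0)) (T.l 0))) (T.b (T.b (T.c (T.l 0) (T.l 0)) (T.l 0)) (T.c (T.l 0) (T.l 0)))) (T.a (T.b (T.c (T.l 16) (T.l 0)) (T.c (T.l 0) (T.l 0))) (T.b (T.l 0) (T.l 0)))) (T.b (T.a (T.b (T.l 0) (T.l 0)) (T.l 0)) (T.a (T.b (T.l 0) (T.l 0)) (T.l 0)))) (T.b (T.a (T.b (T.l 0) (T.l 0)) (T.b (T.l 0) (T.l 0))) (T.a (T.b (T.l 0) (T.l 0)) (T.a (T.l 0) (T.b (T.l 0) (T.l 0)))))) (T.b (T.a (T.b (T.b (T.b (T.c (T.l 0) (T.l 0)) (T.l 0)) (T.l 16)) (T.a (T.l 0) (T.b (T.l 0) (T.l 0)))) (T.b (T.b (T.a (T.l 0) (T.b (T.l 0) (T.l 0))) (T.a (T.l 0) (T.b (T.l 0) (T.l 0)))) (T.a (T.b (T.l 0) (T.l 0)) (T.b (T.l 0) (T.l 0))))) (T.a (T.b (T.a (T.b (T.l 0) (T.l 0)) (T.b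 (T.l 0) (T.l 0))) (T.a (T.a (T.l 0) (T.b (T.l 0) (T.l 0))) (T.b (T.l 0) (T.l 0)))) (T.b (T.a (T.b (T.l 0) (T.l 0)) (T.b (T.l 0) (T.l 0))) (T.a (T.b (T.l 0) (T.l 0)) (T.b (T.l 0) (T.l 0))))))), by decide +kernel⟩

theorem B012E_000_1_47_1 :
    ∃ t, chk3 (onCell 0 67108864 0 1073741824 780900216 37827925 (corW 3 c0B eng mog cB012E gB0q0 gB0q2 gB0q1 gB1q1 dB0q0 dB0q2 dB0q1 dB1q1 true false)) t 1 47 1 = true :=
  ex3_a B012E_000_2_47_1 B012E_000_3_47_1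
theorem B012E_000_1_23_1 :
    ∃ t, chk3 (onCell 0 67108864 0 1073741824 780900216 37827925 (corW 3 c0B eng mog cB012E gB0q0 gB0q2 gB0q1 gB1q1 dB0q0 dB0q2 dB0q1 dB1q1 true false)) t 1 23 1 = true :=
  ex3_b B012E_000_1_46_1 B012E_000_1_47_1
theorem B012E_000_1_11_1 :
    ∃ t, chk3 (onCell 0 67108864 0 1073741824 780900216 37827925 (corW 3 c0B eng mog cB012E gB0q0 gB0q2 gB0q1 gB1q1 dB0q0 dB0q2 dB0q1 dB1q1 true false)) t 1 11 1 = true :=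
  ex3_b B012E_000_1_22_1 B012E_000_1_23_1
theorem B012E_000_1_5_1 :
    ∃ t, chk3 (onCell 0 67108864 0 1073741824 780900216 37827925 (corW 3 c0B eng mog cB012E gB0q0 gB0q2 gB0q1 gB1q1 dB0q0 dB0q2 dB0q1 dB1q1 true false)) t 1 5 1 = true :=
  ex3_b B012E_000_1_10_1 B012E_000_1_11_1
theorem B012E_000_1_2_1 :
    ∃ t, chk3 (onCell 0 67108864 0 1073741824 780900216 37827925 (corW 3 c0B eng mog cB012E gB0q0 gB0q2 gB0q1 gB1q1 dB0q0 dB0q2 dB0q1 dB1q1 true false)) t 1 2 1 = true :=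
  ex3_b B012E_000_1_4_1 B012E_000_1_5_1
theorem B012E_000 :
    ∃ t, chk3 (onCell 0 67108864 0 1073741824 780900216 37827925 (corW 3 c0B eng mog cB012E gB0q0 gB0q2 gB0q1 gB1q1 dB0q0 dB0q2 dB0q1 dB1q1 true false)) t 1 1 1 = true :=
  ex3_b B012E_000_1_2_1 B012E_000_1_3_1

def B012E_010 :
    ∃ t, chk3 (onCell 0 67108864 0 1073741824 780900216 37827925 (corW 3 c0B eng mog cB012E gB0q0 gB1q2 gB0q1 gB1q1 dB0q0 dB1q2 dB0q1 dB1q1 true false)) t 1 1 1 = true :=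
  ⟨(T.b (T.l 1) (T.b (T.b (T.b (T.b (T.a (T.l 1) (T.l 1)) (T.a (T.b (T.a (T.l 1) (T.b (T.l 1) (T.l 204))) (T.a (T.c (T.l 0) (T.l 0)) (T.l 204))) (T.a (T.c (T.l 204) (T.l 204)) (T.l 204)))) (T.a (T.a (T.l 0) (T.l 0)) (T.a (T.l 0) (T.l 0)))) (T.a (T.b (T.l 0) (T.l 0)) (T.b (T.l 0) (T.l 0)))) (T.a (T.b (T.l 0) (T.l 0)) (T.a (T.b (T.l 0) (T.l 0)) (T.b (T.l 0) (T.a (T.l 0) (T.l 0))))))), by decide +kernel⟩

def B012E_020 :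
    ∃ t, chk3 (onCell 0 67108864 0 1073741824 780900216 37827925 (corW 3 c0B eng mog cB012E gB0q0 gB2q2 gB0q1 gB1q1 dB0q0 dB2q2 dB0q1 dB1q1 true false)) t 1 1 1 = true :=
  ⟨(T.b (T.l 1) (T.b (T.b (T.l 1) (T.b (T.a (T.b (T.a (T.l 1) (T.a (T.l 1) (T.l 1))) (T.c (T.a (T.b (T.c (T.a (T.b (T.l 1) (T.l 816)) (T.l 816)) (T.l 816)) (T.l 816)) (T.l 816)) (T.l 816))) (T.b (T.b (T.l 1) (T.c (T.a (T.l 880) (T.l 816)) (T.l 816))) (T.a (T.l 816) (T.l 816)))) (T.a (T.a (T.l 816) (T.l 816)) (T.l 816)))) (T.a (T.b (T.b (T.l 816) (T.l 816)) (T.l 816)) (T.a (T.b (T.l 816) (T.l 816)) (T.b (T.l 816) (T.b (T.l 816) (T.l 0))))))), by decide +kernel⟩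

def B012E_100 :
    ∃ t, chk3 (onCell 0 67108864 0 1073741824 780900216 37827925 (corW 3 c0B eng mog cB012E gB1q0 gB0q2 gB0q1 gB1q1 dB1q0 dB0q2 dB0q1 dB1q1 true false)) t 1 1 1 = true :=
  ⟨(T.b (T.b (T.l 1) (T.b (T.l 1) (T.a (T.b (T.b (T.b (T.l 1) (T.l 816)) (T.l 816)) (T.l 816)) (T.a (T.b (T.b (T.c (T.l 944) (T.l 816)) (T.l 816)) (T.l 816)) (T.b (T.b (T.a (T.l 816) (T.c (T.l 816) (T.l 816))) (T.l 816)) (T.l 816)))))) (T.a (T.b (T.l 0) (T.b (T.l 0) (T.a (T.l 0) (T.b (T.l 816) (T.l 816))))) (T.b (T.a (T.b (T.l 816) (T.l 816)) (T.b (T.b (T.l 816) (T.l 0)) (T.b (T.l 0) (T.l 0)))) (T.a (T.b (T.b (T.l 816) (T.l 0)) (T.b (T.l 0) (T.l 0))) (T.b (T.l 0) (T.l 0)))))), by decide +kernel⟩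

def B012E_110 :
    ∃ t, chk3 (onCell 0 67108864 0 1073741824 780900216 37827925 (corW 3 c0B eng mog cB012E gB1q0 gB1q2 gB0q1 gB1q1 dB1q0 dB1q2 dB0q1 dB1q1 true false)) t 1 1 1 = true :=
  ⟨(T.b (T.b (T.l 1) (T.b (T.l 1) (T.b (T.b (T.l 1) (T.a (T.l 816) (T.a (T.l 816) (T.l 816)))) (T.a (T.l 816) (T.a (T.l 816) (T.l 816)))))) (T.a (T.b (T.l 0) (T.l 0)) (T.b (T.b (T.l 816) (T.l 816)) (T.a (T.l 0) (T.b (T.l 816) (T.l 0)))))), by decide +kernel⟩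

def B012E_120 :
    ∃ t, chk3 (onCell 0 67108864 0 1073741824 780900216 37827925 (corW 3 c0B eng mog cB012E gB1q0 gB2q2 gB0q1 gB1q1 dB1q0 dB2q2 dB0q1 dB1q1 true false)) t 1 1 1 = true :=
  ⟨(T.b (T.b (T.l 1) (T.l 1)) (T.a (T.b (T.b (T.l 816) (T.l 816)) (T.l 816)) (T.b (T.b (T.l 816) (T.l 816)) (T.a (T.l 816) (T.b (T.l 816) (T.l 0)))))), by decide +kernel⟩

def B012E_200 :
    ∃ t, chk3 (onCell 0 67108864 0 1073741824 780900216 37827925 (corW 3 c0B eng mog cB012E gB2q0 gB0q2 gB0q1 gB1q1 dB2q0 dB0q2 dB0q1 dB1q1 true false)) t 1 1 1 = true :=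
  ⟨(T.b (T.b (T.b (T.l 1) (T.b (T.l 1) (T.b (T.l 1) (T.b (T.l 1) (T.a (T.l 816) (T.b (T.l 1) (T.a (T.c (T.l 816) (T.l 816)) (T.c (T.l 816) (T.l 824))))))))) (T.a (T.b (T.b (T.l 816) (T.l 816)) (T.l 816)) (T.b (T.a (T.a (T.l 816) (T.b (T.l 816) (T.l 816))) (T.b (T.a (T.l 816) (T.l 816)) (T.l 816))) (T.a (T.l 816) (T.l 816))))) (T.a (T.b (T.l 0) (T.a (T.l 816) (T.b (T.l 816) (T.l 816)))) (T.b (T.a (T.b (T.l 816) (T.l 816)) (T.b (T.l 0) (T.l 0))) (T.a (T.b (T.l 0) (T.l 0)) (T.b (T.l 0) (T.l 0)))))), by decide +kernel⟩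

def B012E_210 :
    ∃ t, chk3 (onCell 0 67108864 0 1073741824 780900216 37827925 (corW 3 c0B eng mog cB012E gB2q0 gB1q2 gB0q1 gB1q1 dB2q0 dB1q2 dB0q1 dB1q1 true false)) t 1 1 1 = true :=
  ⟨(T.b (T.b (T.l 1) (T.a (T.b (T.b (T.l 816) (T.l 816)) (T.l 816)) (T.b (T.a (T.a (T.l 816) (T.b (T.l 816) (T.l 816))) (T.b (T.a (T.l 816) (T.l 824)) (T.l 816))) (T.b (T.l 816) (T.l 816))))) (T.a (T.b (T.l 816) (T.l 0)) (T.b (T.l 816) (T.a (T.l 816) (T.l 0))))), by decide +kernel⟩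

def B012E_220 :
    ∃ t, chk3 (onCell 0 67108864 0 1073741824 780900216 37827925 (corW 3 c0B eng mog cB012E gB2q0 gB2q2 gB0q1 gB1q1 dB2q0 dB2q2 dB0q1 dB1q1 true false)) t 1 1 1 = true :=
  ⟨(T.b (T.b (T.l 1) (T.a (T.b (T.b (T.l 1) (T.l 816)) (T.l 816)) (T.b (T.b (T.l 1) (T.a (T.l 816) (T.l 816))) (T.a (T.l 816) (T.l 816))))) (T.a (T.b (T.l 816) (T.l 816)) (T.b (T.l 816) (T.a (T.l 816) (T.l 0))))), by decide +kernel⟩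

def B012L_050 :
    ∃ t, chk3 (onCell 0 67108864 0 1073741824 780900216 37827925 (corW 3 c0B eng mog cB012L gB0q0 gB5q2 gB0q1 gB1q1 dB0q0 dB5q2 dB0q1 dB1q1 true false)) t 1 1 1 = true :=
  ⟨(T.l 1), by decide +kernel⟩

def B012L_150 :
    ∃ t, chk3 (onCell 0 67108864 0 1073741824 780900216 37827925 (corW 3 c0B eng mog cB012L gB1q0 gB5q2 gB0q1 gB1q1 dB1q0 dB5q2 dB0q1 dB1q1 true false)) t 1 1 1 = true :=
  ⟨(T.l 1), by decide +kernel⟩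

def B012L_250 :
    ∃ t, chk3 (onCell 0 67108864 0 1073741824 780900216 37827925 (corW 3 c0B eng mog cB012L gB2q0 gB5q2 gB0q1 gB1q1 dB2q0 dB5q2 dB0q1 dB1q1 true false)) t 1 1 1 = true :=
  ⟨(T.l 1), by decide +kernel⟩

def B012R_002 :
    ∃ t, chk3 (onCell 0 67108864 0 1073741824 780900216 37827925 (corW 3 c0B eng mog cB012R gB0q0 gB0q2 gB2q1 gB3q1 dB0q0 dB0q2 dB2q1 dB3q1 false true)) t 1 1 1 = true :=
  ⟨(T.b (T.a (T.b (T.b (T.l 204) (T.l 0)) (T.l 0)) (T.a (T.b (T.l 0) (T.l 0)) (T.b (T.b (T.a (T.l 204) (T.b (T.l 204) (T.l 204))) (T.l 0)) (T.b (T.l 0) (T.l 816))))) (T.b (T.a (T.l 816) (T.a (T.b (T.l 816) (T.b (T.l 816) (T.l 816))) (T.b (T.b (T.l 816) (T.l 816)) (T.b (T.l 816) (T.l 816))))) (T.b (T.a (T.l 816) (T.a (T.a (T.l 816) (T.l 816)) (T.b (T.l 816) (T.l 816)))) (T.a (T.a (T.l 816) (T.a (T.l 816) (T.l 816))) (T.a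 (T.a (T.b (T.l 816) (T.l 816)) (T.l 816)) (T.a (T.l 816) (T.l 816))))))), by decide +kernel⟩

def B012R_003 :
    ∃ t, chk3 (onCell 0 67108864 0 1073741824 780900216 37827925 (corW 3 c0B eng mog cB012R gB0q0 gB0q2 gB3q1 gB4q1 dB0q0 dB0q2 dB3q1 dB4q1 true true)) t 1 1 1 = true :=
  ⟨(T.b (T.l 1) (T.l 1)), by decide +kernel⟩

def B012R_004 :
    ∃ t, chk3 (onCell 0 67108864 0 1073741824 780900216 37827925 (corW 3 c0B eng mog cB012R gB0q0 gB0q2 gB4q1 gB5q1 dB0q0 dB0q2 dB4q1 dB5q1 true true)) t 1 1 1 = true :=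
  ⟨(T.b (T.l 1) (T.l 1)), by decide +kernel⟩

def B012R_012 :
    ∃ t, chk3 (onCell 0 67108864 0 1073741824 780900216 37827925 (corW 3 c0B eng mog cB012R gB0q0 gB1q2 gB2q1 gB3q1 dB0q0 dB1q2 dB2q1 dB3q1 false true)) t 1 1 1 = true :=
  ⟨(T.a (T.b (T.b (T.l 16) (T.l 816)) (T.b (T.l 816) (T.l 816))) (T.a (T.b (T.b (T.l 0) (T.l 816)) (T.l 816)) (T.a (T.b (T.b (T.l 0) (T.l 816)) (T.l 816)) (T.b (T.b (T.b (T.b (T.l 204) (T.l 204)) (T.l 0)) (T.l 816)) (T.b (T.l 816) (T.b (T.l 816) (T.l 816))))))), by decide +kernel⟩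

def B012R_013 :
    ∃ t, chk3 (onCell 0 67108864 0 1073741824 780900216 37827925 (corW 3 c0B eng mog cB012R gB0q0 gB1q2 gB3q1 gB4q1 dB0q0 dB1q2 dB3q1 dB4q1 true true)) t 1 1 1 = true :=
  ⟨(T.b (T.l 1) (T.l 1)), by decide +kernel⟩

def B012R_014 :
    ∃ t, chk3 (onCell 0 67108864 0 1073741824 780900216 37827925 (corW 3 c0B eng mog cB012R gB0q0 gB1q2 gB4q1 gB5q1 dB0q0 dB1q2 dB4q1 dB5q1 true true)) t 1 1 1 = true :=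
  ⟨(T.l 1), by decide +kernel⟩

def B012R_022 :
    ∃ t, chk3 (onCell 0 67108864 0 1073741824 780900216 37827925 (corW 3 c0B eng mog cB012R gB0q0 gB2q2 gB2q1 gB3q1 dB0q0 dB2q2 dB2q1 dB3q1 false true)) t 1 1 1 = true :=
  ⟨(T.a (T.b (T.b (T.l 16) (T.l 816)) (T.l 816)) (T.a (T.b (T.b (T.l 0) (T.l 816)) (T.l 816)) (T.a (T.b (T.b (T.l 0) (T.l 816)) (T.l 816)) (T.b (T.b (T.b (T.b (T.l 204) (T.l 204)) (T.l 0)) (T.l 816)) (T.b (T.l 816) (T.b (T.l 816) (T.l 816))))))), by decide +kernel⟩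

def B012R_023 :
    ∃ t, chk3 (onCell 0 67108864 0 1073741824 780900216 37827925 (corW 3 c0B eng mog cB012R gB0q0 gB2q2 gB3q1 gB4q1 dB0q0 dB2q2 dB3q1 dB4q1 true true)) t 1 1 1 = true :=
  ⟨(T.b (T.l 1) (T.l 1)), by decide +kernel⟩

def B012R_024 :
    ∃ t, chk3 (onCell 0 67108864 0 1073741824 780900216 37827925 (corW 3 c0B eng mog cB012R gB0q0 gB2q2 gB4q1 gB5q1 dB0q0 dB2q2 dB4q1 dB5q1 true true)) t 1 1 1 = true :=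
  ⟨(T.l 1), by decide +kernel⟩

def B012R_102 :
    ∃ t, chk3 (onCell 0 67108864 0 1073741824 780900216 37827925 (corW 3 c0B eng mog cB012R gB1q0 gB0q2 gB2q1 gB3q1 dB1q0 dB0q2 dB2q1 dB3q1 false true)) t 1 1 1 = true :=
  ⟨(T.b (T.a (T.l 0) (T.a (T.l 0) (T.b (T.l 0) (T.b (T.l 816) (T.l 816))))) (T.b (T.a (T.l 816) (T.a (T.b (T.l 816) (T.l 816)) (T.b (T.l 816) (T.l 816)))) (T.b (T.a (T.l 816) (T.a (T.b (T.l 816) (T.l 816)) (T.l 816))) (T.a (T.a (T.l 816) (T.b (T.l 816) (T.l 816))) (T.a (T.b (T.l 816) (T.l 816)) (T.l 816)))))), by decide +kernel⟩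

def B012R_103 :
    ∃ t, chk3 (onCell 0 67108864 0 1073741824 780900216 37827925 (corW 3 c0B eng mog cB012R gB1q0 gB0q2 gB3q1 gB4q1 dB1q0 dB0q2 dB3q1 dB4q1 true true)) t 1 1 1 = true :=
  ⟨(T.b (T.b (T.a (T.l 0) (T.b (T.a (T.l 0) (T.l 0)) (T.l 816))) (T.l 1)) (T.l 1)), by decide +kernel⟩

def B012R_104 :
    ∃ t, chk3 (onCell 0 67108864 0 1073741824 780900216 37827925 (corW 3 c0B eng mog cB012R gB1q0 gB0q2 gB4q1 gB5q1 dB1q0 dB0q2 dB4q1 dB5q1 true true)) t 1 1 1 = true :=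
  ⟨(T.b (T.b (T.a (T.l 0) (T.l 1)) (T.l 1)) (T.l 1)), by decide +kernel⟩

def B012R_112 :
    ∃ t, chk3 (onCell 0 67108864 0 1073741824 780900216 37827925 (corW 3 c0B eng mog cB012R gB1q0 gB1q2 gB2q1 gB3q1 dB1q0 dB1q2 dB2q1 dB3q1 false true)) t 1 1 1 = true :=
  ⟨(T.a (T.l 0) (T.a (T.l 0) (T.a (T.l 0) (T.b (T.b (T.l 0) (T.l 816)) (T.b (T.l 816) (T.l 816)))))), by decide +kernel⟩

def B012R_113 :
    ∃ t, chk3 (onCell 0 67108864 0 1073741824 780900216 37827925 (corW 3 c0B eng mog cB012R gB1q0 gB1q2 gB3q1 gB4q1 dB1q0 dB1q2 dB3q1 dB4q1 true true)) t 1 1 1 = true :=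
  ⟨(T.b (T.b (T.a (T.l 0) (T.b (T.a (T.l 0) (T.l 0)) (T.l 816))) (T.l 1)) (T.l 1)), by decide +kernel⟩

def B012R_114 :
    ∃ t, chk3 (onCell 0 67108864 0 1073741824 780900216 37827925 (corW 3 c0B eng mog cB012R gB1q0 gB1q2 gB4q1 gB5q1 dB1q0 dB1q2 dB4q1 dB5q1 true true)) t 1 1 1 = true :=
  ⟨(T.b (T.b (T.a (T.l 0) (T.l 1)) (T.l 1)) (T.l 1)), by decide +kernel⟩

def B012R_122 :
    ∃ t, chk3 (onCell 0 67108864 0 1073741824 780900216 37827925 (corW 3 c0B eng mog cB012R gB1q0 gB2q2 gB2q1 gB3q1 dB1q0 dB2q2 dB2q1 dB3q1 false true)) t 1 1 1 = true :=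
  ⟨(T.a (T.l 0) (T.a (T.l 0) (T.a (T.l 0) (T.b (T.b (T.l 0) (T.l 816)) (T.b (T.l 816) (T.l 816)))))), by decide +kernel⟩

def B012R_123 :
    ∃ t, chk3 (onCell 0 67108864 0 1073741824 780900216 37827925 (corW 3 c0B eng mog cB012R gB1q0 gB2q2 gB3q1 gB4q1 dB1q0 dB2q2 dB3q1 dB4q1 true true)) t 1 1 1 = true :=
  ⟨(T.b (T.a (T.l 0) (T.b (T.b (T.a (T.l 0) (T.l 0)) (T.l 816)) (T.l 816))) (T.l 1)), by decide +kernel⟩

def B012R_124 :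
    ∃ t, chk3 (onCell 0 67108864 0 1073741824 780900216 37827925 (corW 3 c0B eng mog cB012R gB1q0 gB2q2 gB4q1 gB5q1 dB1q0 dB2q2 dB4q1 dB5q1 true true)) t 1 1 1 = true :=
  ⟨(T.b (T.b (T.a (T.l 0) (T.l 1)) (T.l 1)) (T.l 1)), by decide +kernel⟩

def B012R_202 :
    ∃ t, chk3 (onCell 0 67108864 0 1073741824 780900216 37827925 (corW 3 c0B eng mog cB012R gB2q0 gB0q2 gB2q1 gB3q1 dB2q0 dB0q2 dB2q1 dB3q1 false true)) t 1 1 1 = true :=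
  ⟨(T.b (T.b (T.l 2) (T.a (T.l 816) (T.b (T.l 2) (T.l 816)))) (T.b (T.a (T.l 816) (T.a (T.l 816) (T.b (T.l 816) (T.l 816)))) (T.b (T.a (T.l 816) (T.a (T.l 816) (T.l 816))) (T.a (T.a (T.l 816) (T.l 816)) (T.a (T.l 816) (T.l 816)))))), by decide +kernel⟩

def B012R_203 :
    ∃ t, chk3 (onCell 0 67108864 0 1073741824 780900216 37827925 (corW 3 c0B eng mog cB012R gB2q0 gB0q2 gB3q1 gB4q1 dB2q0 dB0q2 dB3q1 dB4q1 true true)) t 1 1 1 = true :=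
  ⟨(T.b (T.b (T.l 2) (T.a (T.l 816) (T.b (T.l 816) (T.l 816)))) (T.b (T.b (T.l 1) (T.l 1)) (T.l 1))), by decide +kernel⟩

def B012R_204 :
    ∃ t, chk3 (onCell 0 67108864 0 1073741824 780900216 37827925 (corW 3 c0B eng mog cB012R gB2q0 gB0q2 gB4q1 gB5q1 dB2q0 dB0q2 dB4q1 dB5q1 true true)) t 1 1 1 = true :=
  ⟨(T.b (T.b (T.a (T.l 816) (T.b (T.l 2) (T.l 816))) (T.a (T.l 816) (T.b (T.l 816) (T.l 1)))) (T.b (T.l 1) (T.l 1))), by decide +kernel⟩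

def B012R_212 :
    ∃ t, chk3 (onCell 0 67108864 0 1073741824 780900216 37827925 (corW 3 c0B eng mog cB012R gB2q0 gB1q2 gB2q1 gB3q1 dB2q0 dB1q2 dB2q1 dB3q1 false true)) t 1 1 1 = true :=
  ⟨(T.a (T.l 816) (T.a (T.l 816) (T.a (T.l 816) (T.b (T.l 0) (T.b (T.l 816) (T.l 816)))))), by decide +kernel⟩

def B012R_213 :
    ∃ t, chk3 (onCell 0 67108864 0 1073741824 780900216 37827925 (corW 3 c0B eng mog cB012R gB2q0 gB1q2 gB3q1 gB4q1 dB2q0 dB1q2 dB3q1 dB4q1 true true)) t 1 1 1 = true :=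
  ⟨(T.b (T.b (T.l 2) (T.a (T.l 816) (T.l 816))) (T.a (T.l 816) (T.b (T.l 816) (T.l 1)))), by decide +kernel⟩

def B012R_214 :
    ∃ t, chk3 (onCell 0 67108864 0 1073741824 780900216 37827925 (corW 3 c0B eng mog cB012R gB2q0 gB1q2 gB4q1 gB5q1 dB2q0 dB1q2 dB4q1 dB5q1 true true)) t 1 1 1 = true :=
  ⟨(T.b (T.a (T.l 816) (T.b (T.b (T.l 2) (T.l 816)) (T.l 816))) (T.a (T.l 816) (T.b (T.l 1) (T.l 1)))), by decide +kernel⟩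

def B012R_222 :
    ∃ t, chk3 (onCell 0 67108864 0 1073741824 780900216 37827925 (corW 3 c0B eng mog cB012R gB2q0 gB2q2 gB2q1 gB3q1 dB2q0 dB2q2 dB2q1 dB3q1 false true)) t 1 1 1 = true :=
  ⟨(T.b (T.l 2) (T.a (T.l 816) (T.b (T.l 2) (T.a (T.l 816) (T.l 816))))), by decide +kernel⟩

def B012R_223 :
    ∃ t, chk3 (onCell 0 67108864 0 1073741824 780900216 37827925 (corW 3 c0B eng mog cB012R gB2q0 gB2q2 gB3q1 gB4q1 dB2q0 dB2q2 dB3q1 dB4q1 true true)) t 1 1 1 = true :=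
  ⟨(T.b (T.l 2) (T.a (T.l 816) (T.b (T.l 816) (T.a (T.l 816) (T.l 816))))), by decide +kernel⟩

def B012R_224 :
    ∃ t, chk3 (onCell 0 67108864 0 1073741824 780900216 37827925 (corW 3 c0B eng mog cB012R gB2q0 gB2q2 gB4q1 gB5q1 dB2q0 dB2q2 dB4q1 dB5q1 true true)) t 1 1 1 = true :=
  ⟨(T.a (T.l 0) (T.b (T.l 2) (T.b (T.l 816) (T.b (T.l 816) (T.l 1))))), by decide +kernel⟩

def B022E_000 :
    ∃ t, chk3 (onCell 0 67108864 0 1073741824 780900216 37827925 (corW 3 c0B eng mog cB022E gB0q0 gB0q2 gB0q2 gB1q2 dB0q0 dB0q2 dB0q2 dB1q2 true true)) t 1 1 1 = true :=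
  ⟨(T.l 2), by decide +kernel⟩

def B022E_001 :
    ∃ t, chk3 (onCell 0 67108864 0 1073741824 780900216 37827925 (corW 3 c0B eng mog cB022E gB0q0 gB0q2 gB1q2 gB2q2 dB0q0 dB0q2 dB1q2 dB2q2 true true)) t 1 1 1 = true :=
  ⟨(T.l 2), by decide +kernel⟩

def B022E_002 :
    ∃ t, chk3 (onCell 0 67108864 0 1073741824 780900216 37827925 (corW 3 c0B eng mog cB022E gB0q0 gB0q2 gB2q2 gB3q2 dB0q0 dB0q2 dB2q2 dB3q2 true false)) t 1 1 1 = true :=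
  ⟨(T.a (T.a (T.b (T.b (T.b (T.c (T.l 204) (T.l 204)) (T.l 204)) (T.l 204)) (T.b (T.l 0) (T.b (T.l 816) (T.c (T.l 816) (T.b (T.l 816) (T.l 816)))))) (T.b (T.a (T.b (T.l 204) (T.l 204)) (T.b (T.b (T.l 204) (T.l 204)) (T.l 0))) (T.a (T.b (T.l 0) (T.b (T.l 816) (T.b (T.l 816) (T.l 816)))) (T.b (T.l 0) (T.b (T.l 816) (T.a (T.l 816) (T.b (T.l 816) (T.l 816)))))))) (T.a (T.b (T.a (T.b (T.b (T.l 204) (T.l 204)) (T.l 0)) (T.b (T.l 204) (T.l 0))) (T.b (T.c (T.l 0) (T.l 0)) (T.a (T.b (T.l 816) (T.a (T.l 820) (T.b (T.l 816) (T.l 816)))) (T.b (T.l 816) (T.a (T.l 820) (T.l 816)))))) (T.b (T.b (T.a (T.l 204) (T.b (T.l 204) (T.l 204))) (T.l 0)) (T.b (T.l 0) (T.b (T.l 816) (T.a (T.b (T.l 816) (T.l 816)) (T.l 816))))))), by decide +kernel⟩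

def B022E_010 :
    ∃ t, chk3 (onCell 0 67108864 0 1073741824 780900216 37827925 (corW 3 c0B eng mog cB022E gB0q0 gB1q2 gB0q2 gB1q2 dB0q0 dB1q2 dB0q2 dB1q2 true true)) t 1 1 1 = true :=
  ⟨(T.l 2), by decide +kernel⟩

def B022E_011 :
    ∃ t, chk3 (onCell 0 67108864 0 1073741824 780900216 37827925 (corW 3 c0B eng mog cB022E gB0q0 gB1q2 gB1q2 gB2q2 dB0q0 dB1q2 dB1q2 dB2q2 true true)) t 1 1 1 = true :=
  ⟨(T.l 2), by decide +kernel⟩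

def B022E_012 :
    ∃ t, chk3 (onCell 0 67108864 0 1073741824 780900216 37827925 (corW 3 c0B eng mog cB022E gB0q0 gB1q2 gB2q2 gB3q2 dB0q0 dB1q2 dB2q2 dB3q2 true false)) t 1 1 1 = true :=
  ⟨(T.a (T.b (T.b (T.a (T.b (T.c (T.l 204) (T.l 204)) (T.l 204)) (T.b (T.b (T.l 204) (T.l 204)) (T.l 204))) (T.b (T.l 204) (T.l 204))) (T.b (T.l 0) (T.b (T.l 816) (T.l 816)))) (T.b (T.a (T.b (T.c (T.l 220) (T.l 204)) (T.l 204)) (T.b (T.b (T.a (T.l 204) (T.b (T.l 204) (T.l 204))) (T.l 204)) (T.l 0))) (T.a (T.b (T.l 0) (T.l 816)) (T.b (T.l 0) (T.b (T.l 816) (T.l 816)))))), by decide +kernel⟩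

def B022E_020 :
    ∃ t, chk3 (onCell 0 67108864 0 1073741824 780900216 37827925 (corW 3 c0B eng mog cB022E gB0q0 gB2q2 gB0q2 gB1q2 dB0q0 dB2q2 dB0q2 dB1q2 true true)) t 1 1 1 = true :=
  ⟨(T.l 2), by decide +kernel⟩

def B022E_021 :
    ∃ t, chk3 (onCell 0 67108864 0 1073741824 780900216 37827925 (corW 3 c0B eng mog cB022E gB0q0 gB2q2 gB1q2 gB2q2 dB0q0 dB2q2 dB1q2 dB2q2 true true)) t 1 1 1 = true :=
  ⟨(T.l 2), by decide +kernel⟩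

def B022E_022 :
    ∃ t, chk3 (onCell 0 67108864 0 1073741824 780900216 37827925 (corW 3 c0B eng mog cB022E gB0q0 gB2q2 gB2q2 gB3q2 dB0q0 dB2q2 dB2q2 dB3q2 true false)) t 1 1 1 = true :=
  ⟨(T.a (T.b (T.b (T.b (T.a (T.l 204) (T.l 204)) (T.l 204)) (T.l 0)) (T.b (T.l 0) (T.b (T.l 816) (T.l 880)))) (T.b (T.a (T.b (T.b (T.l 204) (T.l 204)) (T.l 0)) (T.b (T.a (T.l 204) (T.b (T.b (T.l 204) (T.l 204)) (T.l 204))) (T.l 0))) (T.a (T.b (T.l 0) (T.b (T.l 816) (T.l 816))) (T.b (T.l 0) (T.c (T.l 816) (T.l 0)))))), by decide +kernel⟩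

def B022E_100 :
    ∃ t, chk3 (onCell 0 67108864 0 1073741824 780900216 37827925 (corW 3 c0B eng mog cB022E gB1q0 gB0q2 gB0q2 gB1q2 dB1q0 dB0q2 dB0q2 dB1q2 true true)) t 1 1 1 = true :=
  ⟨(T.l 2), by decide +kernel⟩

def B022E_101 :
    ∃ t, chk3 (onCell 0 67108864 0 1073741824 780900216 37827925 (corW 3 c0B eng mog cB022E gB1q0 gB0q2 gB1q2 gB2q2 dB1q0 dB0q2 dB1q2 dB2q2 true true)) t 1 1 1 = true :=
  ⟨(T.l 2), by decide +kernel⟩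

def B022E_102 :
    ∃ t, chk3 (onCell 0 67108864 0 1073741824 780900216 37827925 (corW 3 c0B eng mog cB022E gB1q0 gB0q2 gB2q2 gB3q2 dB1q0 dB0q2 dB2q2 dB3q2 true false)) t 1 1 1 = true :=
  ⟨(T.a (T.a (T.b (T.b (T.b (T.c (T.l 204) (T.l 204)) (T.l 204)) (T.l 0)) (T.l 0)) (T.b (T.a (T.b (T.l 204) (T.l 0)) (T.b (T.b (T.l 204) (T.l 204)) (T.l 0))) (T.b (T.l 0) (T.l 816)))) (T.a (T.b (T.b (T.a (T.l 220) (T.l 204)) (T.l 0)) (T.b (T.l 0) (T.l 816))) (T.b (T.b (T.a (T.l 204) (T.b (T.l 204) (T.l 204))) (T.l 0)) (T.b (T.l 0) (T.l 816))))), by decide +kernel⟩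

def B022E_110 :
    ∃ t, chk3 (onCell 0 67108864 0 1073741824 780900216 37827925 (corW 3 c0B eng mog cB022E gB1q0 gB1q2 gB0q2 gB1q2 dB1q0 dB1q2 dB0q2 dB1q2 true true)) t 1 1 1 = true :=
  ⟨(T.l 2), by decide +kernel⟩

def B022E_111 :
    ∃ t, chk3 (onCell 0 67108864 0 1073741824 780900216 37827925 (corW 3 c0B eng mog cB022E gB1q0 gB1q2 gB1q2 gB2q2 dB1q0 dB1q2 dB1q2 dB2q2 true true)) t 1 1 1 = true :=
  ⟨(T.l 2), by decide +kernel⟩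

def B022E_112 :
    ∃ t, chk3 (onCell 0 67108864 0 1073741824 780900216 37827925 (corW 3 c0B eng mog cB022E gB1q0 gB1q2 gB2q2 gB3q2 dB1q0 dB1q2 dB2q2 dB3q2 true false)) t 1 1 1 = true :=
  ⟨(T.a (T.b (T.b (T.b (T.a (T.c (T.l 204) (T.l 204)) (T.b (T.l 204) (T.l 204))) (T.l 204)) (T.l 0)) (T.l 0)) (T.a (T.b (T.b (T.b (T.l 204) (T.l 204)) (T.l 0)) (T.l 0)) (T.b (T.b (T.a (T.l 204) (T.b (T.b (T.l 204) (T.l 204)) (T.l 204))) (T.l 0)) (T.b (T.l 0) (T.l 816))))), by decide +kernel⟩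

def B022E_120 :
    ∃ t, chk3 (onCell 0 67108864 0 1073741824 780900216 37827925 (corW 3 c0B eng mog cB022E gB1q0 gB2q2 gB0q2 gB1q2 dB1q0 dB2q2 dB0q2 dB1q2 true true)) t 1 1 1 = true :=
  ⟨(T.l 2), by decide +kernel⟩

def B022E_121 :
    ∃ t, chk3 (onCell 0 67108864 0 1073741824 780900216 37827925 (corW 3 c0B eng mog cB022E gB1q0 gB2q2 gB1q2 gB2q2 dB1q0 dB2q2 dB1q2 dB2q2 true true)) t 1 1 1 = true :=
  ⟨(T.l 2), by decide +kernel⟩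

def B022E_122 :
    ∃ t, chk3 (onCell 0 67108864 0 1073741824 780900216 37827925 (corW 3 c0B eng mog cB022E gB1q0 gB2q2 gB2q2 gB3q2 dB1q0 dB2q2 dB2q2 dB3q2 true false)) t 1 1 1 = true :=
  ⟨(T.a (T.b (T.b (T.b (T.a (T.l 204) (T.l 204)) (T.l 204)) (T.l 0)) (T.l 0)) (T.a (T.b (T.b (T.l 204) (T.l 0)) (T.l 0)) (T.b (T.b (T.a (T.l 204) (T.b (T.b (T.l 204) (T.l 204)) (T.l 204))) (T.l 0)) (T.b (T.l 0) (T.l 816))))), by decide +kernel⟩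

def B022E_200 :
    ∃ t, chk3 (onCell 0 67108864 0 1073741824 780900216 37827925 (corW 3 c0B eng mog cB022E gB2q0 gB0q2 gB0q2 gB1q2 dB2q0 dB0q2 dB0q2 dB1q2 true true)) t 1 1 1 = true :=
  ⟨(T.l 2), by decide +kernel⟩

def B022E_201 :
    ∃ t, chk3 (onCell 0 67108864 0 1073741824 780900216 37827925 (corW 3 c0B eng mog cB022E gB2q0 gB0q2 gB1q2 gB2q2 dB2q0 dB0q2 dB1q2 dB2q2 true true)) t 1 1 1 = true :=
  ⟨(T.l 2), by decide +kernel⟩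

def B022E_202 :
    ∃ t, chk3 (onCell 0 67108864 0 1073741824 780900216 37827925 (corW 3 c0B eng mog cB022E gB2q0 gB0q2 gB2q2 gB3q2 dB2q0 dB0q2 dB2q2 dB3q2 true false)) t 1 1 1 = true :=
  ⟨(T.a (T.a (T.b (T.b (T.b (T.c (T.l 204) (T.l 204)) (T.l 204)) (T.l 0)) (T.l 0)) (T.b (T.a (T.b (T.l 204) (T.l 0)) (T.b (T.b (T.l 204) (T.l 204)) (T.l 0))) (T.l 0))) (T.a (T.b (T.b (T.a (T.b (T.l 204) (T.l 204)) (T.l 0)) (T.l 0)) (T.l 0)) (T.b (T.b (T.a (T.l 0) (T.b (T.l 204) (T.l 204))) (T.l 0)) (T.b (T.l 816) (T.l 816))))), by decide +kernel⟩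

def B022E_210 :
    ∃ t, chk3 (onCell 0 67108864 0 1073741824 780900216 37827925 (corW 3 c0B eng mog cB022E gB2q0 gB1q2 gB0q2 gB1q2 dB2q0 dB1q2 dB0q2 dB1q2 true true)) t 1 1 1 = true :=
  ⟨(T.l 2), by decide +kernel⟩

def B022E_211 :
    ∃ t, chk3 (onCell 0 67108864 0 1073741824 780900216 37827925 (corW 3 c0B eng mog cB022E gB2q0 gB1q2 gB1q2 gB2q2 dB2q0 dB1q2 dB1q2 dB2q2 true true)) t 1 1 1 = true :=
  ⟨(T.l 2), by decide +kernel⟩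

def B022E_212 :
    ∃ t, chk3 (onCell 0 67108864 0 1073741824 780900216 37827925 (corW 3 c0B eng mog cB022E gB2q0 gB1q2 gB2q2 gB3q2 dB2q0 dB1q2 dB2q2 dB3q2 true false)) t 1 1 1 = true :=
  ⟨(T.a (T.b (T.b (T.b (T.b (T.a (T.b (T.l 204) (T.l 204)) (T.l 204)) (T.l 204)) (T.l 204)) (T.l 0)) (T.l 0)) (T.a (T.b (T.b (T.c (T.l 220) (T.l 204)) (T.l 0)) (T.l 0)) (T.b (T.b (T.b (T.a (T.l 204) (T.b (T.l 204) (T.l 204))) (T.l 204)) (T.l 0)) (T.b (T.l 0) (T.l 816))))), by decide +kernel⟩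

def B022E_220 :
    ∃ t, chk3 (onCell 0 67108864 0 1073741824 780900216 37827925 (corW 3 c0B eng mog cB022E gB2q0 gB2q2 gB0q2 gB1q2 dB2q0 dB2q2 dB0q2 dB1q2 true true)) t 1 1 1 = true :=
  ⟨(T.l 2), by decide +kernel⟩

def B022E_221 :
    ∃ t, chk3 (onCell 0 67108864 0 1073741824 780900216 37827925 (corW 3 c0B eng mog cB022E gB2q0 gB2q2 gB1q2 gB2q2 dB2q0 dB2q2 dB1q2 dB2q2 true true)) t 1 1 1 = true :=
  ⟨(T.l 2), by decide +kernel⟩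

def B022E_222 :
    ∃ t, chk3 (onCell 0 67108864 0 1073741824 780900216 37827925 (corW 3 c0B eng mog cB022E gB2q0 gB2q2 gB2q2 gB3q2 dB2q0 dB2q2 dB2q2 dB3q2 true false)) t 1 1 1 = true :=
  ⟨(T.a (T.b (T.b (T.b (T.a (T.l 204) (T.l 204)) (T.l 204)) (T.l 0)) (T.l 0)) (T.a (T.b (T.b (T.b (T.l 204) (T.l 204)) (T.l 0)) (T.l 0)) (T.b (T.b (T.a (T.l 204) (T.b (T.b (T.l 204) (T.l 204)) (T.l 204))) (T.l 0)) (T.b (T.l 0) (T.l 816))))), by decide +kernel⟩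

def B022L_050 :
    ∃ t, chk3 (onCell 0 67108864 0 1073741824 780900216 37827925 (corW 3 c0B eng mog cB022L gB0q0 gB5q2 gB0q2 gB1q2 dB0q0 dB5q2 dB0q2 dB1q2 true true)) t 1 1 1 = true :=
  ⟨(T.b (T.b (T.l 2) (T.l 2)) (T.b (T.b (T.b (T.l 2) (T.a (T.a (T.l 0) (T.l 0)) (T.a (T.l 0) (T.l 0)))) (T.b (T.b (T.a (T.a (T.c (T.l 0) (T.l 0)) (T.l 0)) (T.a (T.l 0) (T.l 0))) (T.a (T.b (T.a (T.b (T.c (T.l 0) (T.l 0)) (T.a (T.b (T.b (T.l 0) (T.c (T.a (T.b (T.l 0) (T.a (T.l 1) (T.b (T.b (T.l 0) (T.l 1)) (T.l 1)))) (T.b (T.l 0) (T.b (T.l 0) (T.a (T.l 1) (T.a (T.l 1) (T.l 0)))))) (T.b (T.l 0) (T.a (T.a (T.l 1) (T.b (T.l 0) (T.l 1))) (T.c (T.l 0) (T.l 0)))))) (T.l 1)) (T.c (T.b (T.c (T.l 0) (T.l 0)) (T.b (T.b (T.b (T.a (T.a (T.l 1) (T.l 0)) (T.l 0)) (T.l 1)) (T.l 1)) (T.l 1))) (T.b (T.l 0) (T.b (T.b (T.a (T.b (T.l 0) (T.l 1)) (T.l 0))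 (T.l 1)) (T.l 1)))))) (T.b (T.l 0) (T.b (T.l 0) (T.a (T.b (T.c (T.b (T.l 0) (T.a (T.l 1) (T.b (T.l 0) (T.l 1)))) (T.a (T.b (T.l 0) (T.l 1)) (T.l 0))) (T.l 1)) (T.b (T.l 0) (T.a (T.l 1) (T.b (T.c (T.l 0) (T.l 0)) (T.l 1)))))))) (T.l 1)) (T.b (T.a (T.b (T.l 0) (T.a (T.b (T.l 0) (T.b (T.l 0) (T.a (T.b (T.l 0) (T.l 1)) (T.l 0)))) (T.l 0))) (T.c (T.l 0) (T.l 0))) (T.b (T.b (T.b (T.a (T.a (T.l 1) (T.a (T.l 1) (T.b (T.l 0) (T.l 1)))) (T.a (T.c (T.c (T.l 0) (T.l 0)) (T.l 0)) (T.l 0))) (T.l 1)) (T.l 1)) (T.l 1))))) (T.l 1))) (T.l 1))), by decide +kernel⟩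

def B022L_051 :
    ∃ t, chk3 (onCell 0 67108864 0 1073741824 780900216 37827925 (corW 3 c0B eng mog cB022L gB0q0 gB5q2 gB1q2 gB2q2 dB0q0 dB5q2 dB1q2 dB2q2 true true)) t 1 1 1 = true :=
  ⟨(T.b (T.b (T.l 2) (T.b (T.l 0) (T.l 0))) (T.b (T.b (T.b (T.l 0) (T.a (T.b (T.l 0) (T.l 1)) (T.l 0))) (T.l 1)) (T.l 1))), by decide +kernel⟩

def B022L_052 :
    ∃ t, chk3 (onCell 0 67108864 0 1073741824 780900216 37827925 (corW 3 c0B eng mog cB022L gB0q0 gB5q2 gB2q2 gB3q2 dB0q0 dB5q2 dB2q2 dB3q2 true false)) t 1 1 1 = true :=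
  ⟨(T.b (T.b (T.b (T.a (T.l 204) (T.a (T.l 204) (T.l 0))) (T.l 204)) (T.b (T.l 204) (T.l 1))) (T.l 1)), by decide +kernel⟩

def B022L_150 :
    ∃ t, chk3 (onCell 0 67108864 0 1073741824 780900216 37827925 (corW 3 c0B eng mog cB022L gB1q0 gB5q2 gB0q2 gB1q2 dB1q0 dB5q2 dB0q2 dB1q2 true true)) t 1 1 1 = true :=
  ⟨(T.b (T.b (T.l 2) (T.b (T.l 2) (T.a (T.l 0) (T.a (T.l 816) (T.b (T.l 2) (T.l 816)))))) (T.b (T.b (T.a (T.l 0) (T.a (T.l 816) (T.b (T.l 816) (T.l 816)))) (T.l 1)) (T.l 1))), by decide +kernel⟩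

def B022L_151 :
    ∃ t, chk3 (onCell 0 67108864 0 1073741824 780900216 37827925 (corW 3 c0B eng mog cB022L gB1q0 gB5q2 gB1q2 gB2q2 dB1q0 dB5q2 dB1q2 dB2q2 true true)) t 1 1 1 = true :=
  ⟨(T.b (T.b (T.b (T.l 2) (T.l 0)) (T.l 0)) (T.b (T.l 1) (T.l 1))), by decide +kernel⟩

def B022L_152 :
    ∃ t, chk3 (onCell 0 67108864 0 1073741824 780900216 37827925 (corW 3 c0B eng mog cB022L gB1q0 gB5q2 gB2q2 gB3q2 dB1q0 dB5q2 dB2q2 dB3q2 true false)) t 1 1 1 = true :=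
  ⟨(T.b (T.b (T.b (T.a (T.l 204) (T.a (T.l 204) (T.l 0))) (T.l 0)) (T.l 0)) (T.l 1)), by decide +kernel⟩

def B022L_250 :
    ∃ t, chk3 (onCell 0 67108864 0 1073741824 780900216 37827925 (corW 3 c0B eng mog cB022L gB2q0 gB5q2 gB0q2 gB1q2 dB2q0 dB5q2 dB0q2 dB1q2 true true)) t 1 1 1 = true :=
  ⟨(T.b (T.b (T.l 2) (T.a (T.l 0) (T.b (T.b (T.l 2) (T.a (T.l 816) (T.l 2))) (T.a (T.l 816) (T.b (T.l 0) (T.l 816)))))) (T.l 1)), by decide +kernel⟩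

def B022L_251 :
    ∃ t, chk3 (onCell 0 67108864 0 1073741824 780900216 37827925 (corW 3 c0B eng mog cB022L gB2q0 gB5q2 gB1q2 gB2q2 dB2q0 dB5q2 dB1q2 dB2q2 true true)) t 1 1 1 = true :=
  ⟨(T.b (T.b (T.b (T.l 2) (T.l 0)) (T.l 0)) (T.l 1)), by decide +kernel⟩

def B022L_252 :
    ∃ t, chk3 (onCell 0 67108864 0 1073741824 780900216 37827925 (corW 3 c0B eng mog cB022L gB2q0 gB5q2 gB2q2 gB3q2 dB2q0 dB5q2 dB2q2 dB3q2 true false)) t 1 1 1 = true :=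
  ⟨(T.b (T.b (T.b (T.a (T.l 204) (T.a (T.l 204) (T.l 0))) (T.l 0)) (T.l 1)) (T.l 1)), by decide +kernel⟩

def B022R_004 :
    ∃ t, chk3 (onCell 0 67108864 0 1073741824 780900216 37827925 (corW 3 c0B eng mog cB022R gB0q0 gB0q2 gB4q2 gB5q2 dB0q0 dB0q2 dB4q2 dB5q2 false true)) t 1 1 1 = true :=
  ⟨(T.a (T.a (T.b (T.b (T.l 204) (T.l 0)) (T.l 816)) (T.a (T.b (T.b (T.l 204) (T.l 0)) (T.l 816)) (T.b (T.b (T.l 204) (T.l 0)) (T.l 816)))) (T.a (T.b (T.a (T.b (T.l 204) (T.l 0)) (T.b (T.l 204) (T.l 0))) (T.a (T.l 816) (T.l 816))) (T.b (T.b (T.a (T.l 204) (T.l 204)) (T.l 0)) (T.a (T.l 816) (T.l 816))))), by decide +kernel⟩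

def B022R_014 :
    ∃ t, chk3 (onCell 0 67108864 0 1073741824 780900216 37827925 (corW 3 c0B eng mog cB022R gB0q0 gB1q2 gB4q2 gB5q2 dB0q0 dB1q2 dB4q2 dB5q2 false true)) t 1 1 1 = true :=
  ⟨(T.a (T.b (T.l 0) (T.b (T.l 816) (T.l 816))) (T.a (T.b (T.l 0) (T.l 816)) (T.b (T.l 0) (T.l 820)))), by decide +kernel⟩

def B022R_024 :
    ∃ t, chk3 (onCell 0 67108864 0 1073741824 780900216 37827925 (corW 3 c0B eng mog cB022R gB0q0 gB2q2 gB4q2 gB5q2 dB0q0 dB2q2 dB4q2 dB5q2 false true)) t 1 1 1 = true :=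
  ⟨(T.a (T.b (T.l 0) (T.b (T.l 816) (T.l 816))) (T.a (T.b (T.l 0) (T.l 816)) (T.b (T.l 0) (T.l 816)))), by decide +kernel⟩

def B022R_104 :
    ∃ t, chk3 (onCell 0 67108864 0 1073741824 780900216 37827925 (corW 3 c0B eng mog cB022R gB1q0 gB0q2 gB4q2 gB5q2 dB1q0 dB0q2 dB4q2 dB5q2 false true)) t 1 1 1 = true :=
  ⟨(T.b (T.a (T.a (T.b (T.l 204) (T.l 0)) (T.a (T.l 0) (T.b (T.l 204) (T.l 0)))) (T.a (T.a (T.b (T.l 204) (T.l 0)) (T.b (T.l 204) (T.l 0))) (T.b (T.a (T.l 204) (T.l 204)) (T.l 0)))) (T.a (T.a (T.l 816) (T.l 816)) (T.a (T.l 816) (T.b (T.l 816) (T.l 816))))), by decide +kernel⟩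

def B022R_114 :
    ∃ t, chk3 (onCell 0 67108864 0 1073741824 780900216 37827925 (corW 3 c0B eng mog cB022R gB1q0 gB1q2 gB4q2 gB5q2 dB1q0 dB1q2 dB4q2 dB5q2 false true)) t 1 1 1 = true :=
  ⟨(T.a (T.b (T.l 0) (T.l 816)) (T.b (T.a (T.l 0) (T.l 0)) (T.a (T.l 816) (T.l 820)))), by decide +kernel⟩

def B022R_124 :
    ∃ t, chk3 (onCell 0 67108864 0 1073741824 780900216 37827925 (corW 3 c0B eng mog cB022R gB1q0 gB2q2 gB4q2 gB5q2 dB1q0 dB2q2 dB4q2 dB5q2 false true)) t 1 1 1 = true :=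
  ⟨(T.a (T.b (T.l 0) (T.l 816)) (T.a (T.l 0) (T.b (T.l 0) (T.b (T.l 816) (T.l 816))))), by decide +kernel⟩

def B022R_204 :
    ∃ t, chk3 (onCell 0 67108864 0 1073741824 780900216 37827925 (corW 3 c0B eng mog cB022R gB2q0 gB0q2 gB4q2 gB5q2 dB2q0 dB0q2 dB4q2 dB5q2 false true)) t 1 1 1 = true :=
  ⟨(T.a (T.a (T.b (T.b (T.l 0) (T.l 0)) (T.l 816)) (T.b (T.a (T.b (T.l 0) (T.l 0)) (T.b (T.l 0) (T.l 0))) (T.l 816))) (T.a (T.b (T.b (T.a (T.l 0) (T.l 0)) (T.l 0)) (T.l 816)) (T.b (T.b (T.a (T.l 0) (T.l 0)) (T.l 0)) (T.b (T.l 816) (T.l 816))))), by decide +kernel⟩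

def B022R_214 :
    ∃ t, chk3 (onCell 0 67108864 0 1073741824 780900216 37827925 (corW 3 c0B eng mog cB022R gB2q0 gB1q2 gB4q2 gB5q2 dB2q0 dB1q2 dB4q2 dB5q2 false true)) t 1 1 1 = true :=
  ⟨(T.a (T.b (T.l 0) (T.l 816)) (T.b (T.a (T.l 0) (T.l 0)) (T.a (T.l 816) (T.b (T.l 816) (T.l 816))))), by decide +kernel⟩

def B022R_224 :
    ∃ t, chk3 (onCell 0 67108864 0 1073741824 780900216 37827925 (corW 3 c0B eng mog cB022R gB2q0 gB2q2 gB4q2 gB5q2 dB2q0 dB2q2 dB4q2 dB5q2 false true)) t 1 1 1 = true :=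
  ⟨(T.a (T.b (T.l 0) (T.l 816)) (T.b (T.a (T.l 0) (T.l 0)) (T.a (T.l 816) (T.b (T.l 816) (T.l 816))))), by decide +kernel⟩

def B101E_000 :
    ∃ t, chk3 (onCell 0 53687091 0 1073741824 780900216 37827925 (corW 3 c0B eng mog cB101E gB0q1 gB0q1 gB0q0 gB1q0 dB0q1 dB0q1 dB0q0 dB1q0 true true)) t 1 1 1 = true :=
  ⟨(T.l 2), by decide +kernel⟩

def B101E_001 :
    ∃ t, chk3 (onCell 0 53687091 0 1073741824 780900216 37827925 (corW 3 c0B eng mog cB101E gB0q1 gB0q1 gB1q0 gB2q0 dB0q1 dB0q1 dB1q0 dB2q0 true true)) t 1 1 1 = true :=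
  ⟨(T.l 2), by decide +kernel⟩

def B101E_002 :
    ∃ t, chk3 (onCell 0 53687091 0 1073741824 780900216 37827925 (corW 3 c0B eng mog cB101E gB0q1 gB0q1 gB2q0 gB3q0 dB0q1 dB0q1 dB2q0 dB3q0 true false)) t 1 1 1 = true :=
  ⟨(T.a (T.b (T.b (T.b (T.l 816) (T.l 816)) (T.l 0)) (T.b (T.b (T.l 0) (T.l 204)) (T.b (T.l 204) (T.b (T.l 204) (T.l 204))))) (T.b (T.b (T.a (T.b (T.l 816) (T.l 816)) (T.b (T.b (T.l 816) (T.l 816)) (T.l 0))) (T.a (T.l 0) (T.b (T.l 0) (T.l 0)))) (T.a (T.b (T.l 0) (T.b (T.l 204) (T.a (T.l 204) (T.l 204)))) (T.b (T.l 0) (T.b (T.l 204) (T.a (T.l 204) (T.b (T.l 204) (T.l 204)))))))), by decide +kernel⟩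

def B101L_300 :
    ∃ t, chk3 (onCell 0 67108864 0 1073741824 780900216 37827925 (corW 3 c0B eng mog cB101L gB3q1 gB0q1 gB0q0 gB1q0 dB3q1 dB0q1 dB0q0 dB1q0 true true)) t 1 1 1 = true :=
  ⟨(T.b (T.l 1) (T.b (T.l 1) (T.b (T.l 1) (T.b (T.b (T.l 1) (T.b (T.l 1) (T.b (T.l 1) (T.a (T.l 816) (T.a (T.l 816) (T.c (T.l 816) (T.l 816))))))) (T.a (T.l 816) (T.a (T.l 816) (T.b (T.l 816) (T.l 816)))))))), by decide +kernel⟩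

def B101L_301 :
    ∃ t, chk3 (onCell 0 67108864 0 1073741824 780900216 37827925 (corW 3 c0B eng mog cB101L gB3q1 gB0q1 gB1q0 gB2q0 dB3q1 dB0q1 dB1q0 dB2q0 true true)) t 1 1 1 = true :=
  ⟨(T.l 1), by decide +kernel⟩

def B101L_302 :
    ∃ t, chk3 (onCell 0 67108864 0 1073741824 780900216 37827925 (corW 3 c0B eng mog cB101L gB3q1 gB0q1 gB2q0 gB3q0 dB3q1 dB0q1 dB2q0 dB3q0 true false)) t 1 1 1 = true :=
  ⟨(T.l 1), by decide +kernel⟩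

def B101L_400 :
    ∃ t, chk3 (onCell 0 67108864 0 1073741824 780900216 37827925 (corW 3 c0B eng mog cB101L gB4q1 gB0q1 gB0q0 gB1q0 dB4q1 dB0q1 dB0q0 dB1q0 true true)) t 1 1 1 = true :=
  ⟨(T.b (T.l 1) (T.b (T.l 1) (T.b (T.b (T.b (T.l 1) (T.b (T.l 1) (T.a (T.l 816) (T.a (T.l 816) (T.l 816))))) (T.a (T.l 816) (T.a (T.l 816) (T.l 816)))) (T.a (T.l 0) (T.b (T.l 816) (T.l 0)))))), by decide +kernel⟩

def B101L_401 :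
    ∃ t, chk3 (onCell 0 67108864 0 1073741824 780900216 37827925 (corW 3 c0B eng mog cB101L gB4q1 gB0q1 gB1q0 gB2q0 dB4q1 dB0q1 dB1q0 dB2q0 true true)) t 1 1 1 = true :=
  ⟨(T.b (T.l 1) (T.b (T.l 1) (T.b (T.l 1) (T.a (T.l 0) (T.b (T.l 1) (T.l 0)))))), by decide +kernel⟩

def B101L_402 :
    ∃ t, chk3 (onCell 0 67108864 0 1073741824 780900216 37827925 (corW 3 c0B eng mog cB101L gB4q1 gB0q1 gB2q0 gB3q0 dB4q1 dB0q1 dB2q0 dB3q0 true false)) t 1 1 1 = true :=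
  ⟨(T.l 1), by decide +kernel⟩

def B101L_500 :
    ∃ t, chk3 (onCell 0 67108864 0 1073741824 780900216 37827925 (corW 3 c0B eng mog cB101L gB5q1 gB0q1 gB0q0 gB1q0 dB5q1 dB0q1 dB0q0 dB1q0 true true)) t 1 1 1 = true :=
  ⟨(T.b (T.l 1) (T.b (T.b (T.l 1) (T.b (T.b (T.l 1) (T.b (T.b (T.a (T.a (T.l 1) (T.b (T.l 1) (T.b (T.l 1) (T.a (T.l 1) (T.b (T.l 1) (T.a (T.b (T.l 1) (T.l 0)) (T.l 0))))))) (T.b (T.a (T.l 1) (T.a (T.l 1) (T.a (T.l 1) (T.b (T.l 1) (T.b (T.l 1) (T.l 0)))))) (T.a (T.b (T.a (T.l 1) (T.b (T.l 1) (T.a (T.b (T.l 1) (T.l 0)) (T.l 0)))) (T.a (T.a (T.b (T.b (T.l 1) (T.l 0)) (T.l 0)) (T.l 0)) (T.l 0))) (T.a (T.a (T.b (T.b (T.b (T.l 1) (T.l 0)) (T.l 0)) (T.l 204)) (T.l 0)) (T.l 0))))) (T.a (T.b (T.a (T.b (T.a (T.a (T.l 1) (T.b (T.l 1) (T.b (T.l 1) (T.a (T.l 1) (T.b (T.l 1) (T.l 0)))))) (T.b (T.a (T.l 1) (T.a (T.l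 1) (T.a (T.l 1) (T.b (T.l 1) (T.l 0))))) (T.a (T.b (T.a (T.l 1) (T.b (T.l 1) (T.l 0))) (T.l 0)) (T.l 0)))) (T.a (T.b (T.a (T.b (T.a (T.a (T.l 1) (T.b (T.l 1) (T.b (T.l 1) (T.l 0)))) (T.b (T.a (T.l 1) (T.c (T.l 0) (T.l 0))) (T.l 0))) (T.c (T.l 0) (T.l 0))) (T.c (T.l 0) (T.l 0))) (T.l 0)) (T.l 0))) (T.a (T.b (T.a (T.b (T.b (T.a (T.l 1) (T.a (T.l 1) (T.l 0))) (T.l 0)) (T.l 0)) (T.l 0)) (T.l 204)) (T.l 0))) (T.a (T.l 0) (T.l 204))) (T.a (T.l 0) (T.l 204)))) (T.a (T.l 0) (T.l 204)))) (T.a (T.l 0) (T.l 0)))) (T.b (T.l 0) (T.l 2)))), by decide +kernel⟩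

def B101L_501 :
    ∃ t, chk3 (onCell 0 67108864 0 1073741824 780900216 37827925 (corW 3 c0B eng mog cB101L gB5q1 gB0q1 gB1q0 gB2q0 dB5q1 dB0q1 dB1q0 dB2q0 true true)) t 1 1 1 = true :=
  ⟨(T.b (T.l 1) (T.b (T.l 1) (T.b (T.l 0) (T.a (T.l 204) (T.b (T.l 204) (T.l 204)))))), by decide +kernel⟩

def B101L_502 :
    ∃ t, chk3 (onCell 0 67108864 0 1073741824 780900216 37827925 (corW 3 c0B eng mog cB101L gB5q1 gB0q1 gB2q0 gB3q0 dB5q1 dB0q1 dB2q0 dB3q0 true false)) t 1 1 1 = true :=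
  ⟨(T.l 1), by decide +kernel⟩

def B101R_030 :
    ∃ t, chk3 (onCell 0 67108864 0 1073741824 780900216 37827925 (corW 3 c0B eng mog cB101R gB0q1 gB3q1 gB0q0 gB1q0 dB0q1 dB3q1 dB0q0 dB1q0 true true)) t 1 1 1 = true :=
  ⟨(T.l 1), by decide +kernel⟩

def B101R_031 :
    ∃ t, chk3 (onCell 0 67108864 0 1073741824 780900216 37827925 (corW 3 c0B eng mog cB101R gB0q1 gB3q1 gB1q0 gB2q0 dB0q1 dB3q1 dB1q0 dB2q0 true true)) t 1 1 1 = true :=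
  ⟨(T.l 1), by decide +kernel⟩

def B101R_032 :
    ∃ t, chk3 (onCell 0 67108864 0 1073741824 780900216 37827925 (corW 3 c0B eng mog cB101R gB0q1 gB3q1 gB2q0 gB3q0 dB0q1 dB3q1 dB2q0 dB3q0 true false)) t 1 1 1 = true :=
  ⟨(T.l 1), by decide +kernel⟩

def B101R_040 :
    ∃ t, chk3 (onCell 0 67108864 0 1073741824 780900216 37827925 (corW 3 c0B eng mog cB101R gB0q1 gB4q1 gB0q0 gB1q0 dB0q1 dB4q1 dB0q0 dB1q0 true true)) t 1 1 1 = true :=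
  ⟨(T.l 1), by decide +kernel⟩

def B101R_041 :
    ∃ t, chk3 (onCell 0 67108864 0 1073741824 780900216 37827925 (corW 3 c0B eng mog cB101R gB0q1 gB4q1 gB1q0 gB2q0 dB0q1 dB4q1 dB1q0 dB2q0 true true)) t 1 1 1 = true :=
  ⟨(T.l 1), by decide +kernel⟩

def B101R_042 :
    ∃ t, chk3 (onCell 0 67108864 0 1073741824 780900216 37827925 (corW 3 c0B eng mog cB101R gB0q1 gB4q1 gB2q0 gB3q0 dB0q1 dB4q1 dB2q0 dB3q0 true false)) t 1 1 1 = true :=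
  ⟨(T.l 1), by decide +kernel⟩

def B101R_050 :
    ∃ t, chk3 (onCell 0 67108864 0 1073741824 780900216 37827925 (corW 3 c0B eng mog cB101R gB0q1 gB5q1 gB0q0 gB1q0 dB0q1 dB5q1 dB0q0 dB1q0 true true)) t 1 1 1 = true :=
  ⟨(T.l 1), by decide +kernel⟩

def B101R_051 :
    ∃ t, chk3 (onCell 0 67108864 0 1073741824 780900216 37827925 (corW 3 c0B eng mog cB101R gB0q1 gB5q1 gB1q0 gB2q0 dB0q1 dB5q1 dB1q0 dB2q0 true true)) t 1 1 1 = true :=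
  ⟨(T.l 1), by decide +kernel⟩

def B101R_052 :
    ∃ t, chk3 (onCell 0 67108864 0 1073741824 780900216 37827925 (corW 3 c0B eng mog cB101R gB0q1 gB5q1 gB2q0 gB3q0 dB0q1 dB5q1 dB2q0 dB3q0 true false)) t 1 1 1 = true :=
  ⟨(T.l 1), by decide +kernel⟩

end Pool.Agent.Strip051.G.I72727_7625.Tab.CW
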