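import Pool.Agent.Strip051.G.I72727_7625.DgP

/-! # The corner (1, 1, 2): certificates of the degenerate charts (generated) -/

set_option linter.all false

namespace Pool.Agent.Strip051.G.I72727_7625.Tab.DG

open Pool.Agent.Strip051.PB Pool.Agent.Strip051.PB.Dg Pool.Agent.StripNear Pool.Agent.Strip051.LC

theorem cFA2 : ∃ t, chk3 (onCell 0 232471925 0 1073741824 780900216 37827925 (fdAx false pF (ndUL pF ndF2) (ndUR ndF3) (thLo (ndUL pF ndF2) (ndUR ndF3)))) t 1 1 1 = true :=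
  ⟨(T.b (T.a (T.b (T.b (T.c (T.b (T.a (T.a (T.l 0) (T.l 0)) (T.a (T.l 0) (T.l 0))) (T.a (T.l 0) (T.l 0))) (T.b (T.a (T.a (T.l 0) (T.l 0)) (T.a (T.l 0) (T.l 0))) (T.a (T.l 0) (T.l 0)))) (T.c (T.b (T.a (T.l 0) (T.l 0)) (T.l 0)) (T.b (T.a (T.l 0) (T.l 0)) (T.l 0)))) (T.l 3)) (T.b (T.b (T.b (T.a (T.b (T.l 1) (T.a (T.l 0) (T.l 1))) (T.l 1)) (T.c (T.a (T.l 0) (T.l 0)) (T.a (T.l 0) (T.l 0)))) (T.c (T.b (T.l 0) (T.l 0)) (T.a (T.l 0) (T.l 0)))) (T.b (T.b (T.a (T.l 0) (T.l 0)) (T.l 3)) (T.l 3)))) (T.l 3)), by decide +kernel⟩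
theorem cFA3 : ∃ t, chk3 (onCell 0 232471925 0 1073741824 780900216 37827925 (fdAx false pF (ndUR ndF3) (ndUR ndF4) (thLo (ndUR ndF3) (ndUR ndF4)))) t 1 1 1 = true :=
  ⟨(T.a (T.a (T.b (T.b (T.b (T.l 2) (T.l 0)) (T.b (T.a (T.l 0) (T.l 0)) (T.b (T.l 0) (T.l 0)))) (T.b (T.b (T.c (T.a (T.l 0) (T.l 0)) (T.b (T.l 0) (T.c (T.l 0) (T.a (T.l 0) (T.l 0))))) (T.l 3)) (T.l 3))) (T.b (T.b (T.b (T.l 2) (T.l 0)) (T.b (T.l 0) (T.a (T.l 0) (T.l 0)))) (T.b (T.b (T.c (T.l 0) (T.a (T.l 0) (T.l 0))) (T.l 3)) (T.l 3)))) (T.b (T.a (T.b (T.b (T.l 2) (T.l 0)) (T.b (T.l 0) (T.l 0))) (T.b (T.l 2) (T.b (T.a (T.l 0) (T.l 0)) (T.a (T.l 0) (T.l 0))))) (T.b (T.c (T.a (T.b (T.a (T.l 0) (T.l 0)) (T.b (T.a (T.l 0) (T.a (T.l 0) (T.l 0))) (T.l 3))) (T.b (T.a (T.a (T.l 0) (T.l 0)) (T.l 0)) (T.b (T.b (T.a (T.l 0) (T.l 0))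 (T.l 3)) (T.l 3)))) (T.a (T.b (T.a (T.l 0) (T.l 0)) (T.b (T.a (T.l 0) (T.a (T.l 0) (T.l 0))) (T.l 3))) (T.b (T.a (T.a (T.l 0) (T.l 0)) (T.a (T.l 0) (T.l 0))) (T.b (T.a (T.l 0) (T.l 0)) (T.l 3))))) (T.l 3)))), by decide +kernel⟩
theorem cFA4 : ∃ t, chk3 (onCell 0 232471925 0 1073741824 780900216 37827925 (fdAx true pF (ndUR ndF4) (dgSC pF) (thUp (ndUR ndF4) (dgSC pF)))) t 1 1 1 = true :=
  ⟨(T.b (T.l 2) (T.a (T.a (T.b (T.c (T.l 1088) (T.a (T.l 1088) (T.l 1088))) (T.a (T.c (T.l 349520) (T.l 349520)) (T.l 349520))) (T.a (T.a (T.l 349520) (T.l 349520)) (T.a (T.l 349520) (T.b (T.a (T.l 17472) (T.l 17472)) (T.a (T.l 349520) (T.b (T.l 1088) (T.l 349520))))))) (T.b (T.b (T.a (T.a (T.b (T.l 2) (T.b (T.l 2) (T.b (T.l 2) (T.a (T.l 96) (T.l 96))))) (T.l 2)) (T.l 2)) (T.c (T.b (T.a (T.a (T.a (T.l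 0) (T.l 0)) (T.a (T.l 0) (T.l 1024))) (T.a (T.a (T.l 1024) (T.l 1024)) (T.a (T.l 1088) (T.l 1088)))) (T.a (T.a (T.a (T.l 1024) (T.l 1088)) (T.a (T.l 1088) (T.l 1088))) (T.a (T.a (T.l 1088) (T.l 1088)) (T.a (T.a (T.l 0) (T.l 0)) (T.l 1088))))) (T.b (T.a (T.a (T.a (T.l 64) (T.l 64)) (T.a (T.l 64) (T.l 64))) (T.a (T.a (T.l 64) (T.l 64)) (T.a (T.a (T.l 0) (T.l 0)) (T.a (T.l 0) (T.l 0))))) (T.a (T.a (T.a (T.l 64) (T.l 64)) (T.a (T.l 1088) (T.l 1088))) (T.a (T.a (T.l 1088) (T.l 1088)) (T.a (T.a (T.l 64) (T.l 64)) (T.l 1088))))))) (T.b (T.b (T.c (T.a (T.a (T.a (T.l 1088) (T.l 1088)) (T.a (T.l 1088) (T.l 1088))) (T.a (T.a (T.l 1088) (T.l 1088)) (T.a (T.l 1088) (T.l 1088)))) (T.a (T.a (T.a (T.l 64) (T.l 1120)) (T.a (T.l 1088) (T.l 1088))) (T.a (T.a (T.l 1088) (T.l 1088)) (T.a (T.a (T.l 64) (T.l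 64)) (T.a (T.l 64) (T.l 64)))))) (T.c (T.a (T.a (T.a (T.l 1088) (T.l 1088)) (T.a (T.l 1088) (T.l 1088))) (T.a (T.a (T.l 1088) (T.l 1088)) (T.a (T.a (T.l 1088) (T.l 1088)) (T.a (T.l 1088) (T.l 4))))) (T.a (T.a (T.a (T.l 1088) (T.l 1088)) (T.a (T.l 1088) (T.l 1120))) (T.a (T.a (T.l 1088) (T.l 1088)) (T.a (T.a (T.l 1088) (T.l 1088)) (T.a (T.l 1088) (T.l 4))))))) (T.b (T.c (T.a (T.a (T.a (T.a (T.l 1088) (T.l 1088)) (T.l 279888)) (T.a (T.a (T.l 1088) (T.l 1088)) (T.l 279888))) (T.a (T.a (T.l 279888) (T.l 279888)) (T.a (T.a (T.l 1088) (T.l 4)) (T.l 4)))) (T.a (T.a (T.a (T.l 279888) (T.l 279888)) (T.a (T.a (T.l 1088) (T.l 1088)) (T.l 279888))) (T.a (T.a (T.l 279920) (T.l 279920)) (T.a (T.a (T.l 1120) (T.l 4)) (T.l 4))))) (T.c (T.a (T.a (T.a (T.l 349520) (T.a (T.l 349520) (T.l 349520))) (T.a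 (T.a (T.l 349520) (T.l 349520)) (T.a (T.l 349520) (T.l 349520)))) (T.a (T.a (T.a (T.l 349520) (T.l 349520)) (T.a (T.l 349520) (T.l 4))) (T.l 4))) (T.a (T.a (T.a (T.l 349520) (T.l 349552)) (T.a (T.l 349552) (T.a (T.l 349520) (T.l 349520)))) (T.a (T.a (T.a (T.l 349520) (T.l 349552)) (T.a (T.l 349552) (T.l 4))) (T.l 4))))))))), by decide +kernel⟩
theorem cFB3 : ∃ t, chk3 (onCell 0 232471925 0 2684354560 780900216 37827925 (fdB true false pF (ndUR ndF3))) t 1 1 1 = true :=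
  ⟨(T.b (T.b (T.a (T.b (T.b (T.l 2) (T.l 0)) (T.l 4)) (T.b (T.b (T.l 2) (T.l 0)) (T.a (T.l 4) (T.l 4)))) (T.l 4)) (T.a (T.l 4) (T.b (T.l 4) (T.a (T.l 4) (T.l 4))))), by decide +kernel⟩
theorem cFB4 : ∃ t, chk3 (onCell 0 232471925 0 2684354560 780900216 37827925 (fdB true false pF (ndUR ndF4))) t 1 1 1 = true :=
  ⟨(T.b (T.b (T.a (T.b (T.l 2) (T.b (T.l 2) (T.b (T.l 2) (T.b (T.l 2) (T.c (T.l 0) (T.a (T.l 0) (T.l 0))))))) (T.a (T.a (T.b (T.l 2) (T.b (T.l 2) (T.b (T.l 2) (T.l 0)))) (T.l 2)) (T.l 2))) (T.a (T.a (T.b (T.b (T.a (T.l 32) (T.l 32)) (T.l 4)) (T.l 4)) (T.b (T.b (T.b (T.a (T.l 32) (T.l 0)) (T.l 4)) (T.l 4)) (T.l 4))) (T.b (T.b (T.a (T.b (T.a (T.a (T.l 0) (T.l 0)) (T.a (T.l 0) (T.l 0))) (T.l 4)) (T.b (T.a (T.a (T.l 0) (T.l 0)) (T.a (T.l 0) (T.l 0))) (T.a (T.l 139296) (T.l 139296))))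 (T.l 4)) (T.l 4)))) (T.a (T.l 4) (T.b (T.l 4) (T.a (T.l 4) (T.l 4))))), by decide +kernel⟩
theorem cFB5 : ∃ t, chk3 (onCell 0 232471925 0 2684354560 780900216 37827925 (fdB true true pF (dgSC pF))) t 1 1 1 = true :=
  ⟨(T.b (T.b (T.l 2) (T.a (T.a (T.l 349520) (T.b (T.l 2) (T.a (T.l 349520) (T.l 349520)))) (T.b (T.l 2) (T.a (T.a (T.a (T.l 349520) (T.l 349520)) (T.b (T.l 349520) (T.l 349520))) (T.a (T.b (T.l 349520) (T.l 6)) (T.l 6)))))) (T.b (T.a (T.l 4) (T.a (T.l 4) (T.l 4))) (T.a (T.l 4) (T.a (T.l 4) (T.l 5))))), by decide +kernel⟩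
theorem cFP3 : ∃ t, chk3 (onCell 0 232471925 0 1073741824 780900216 37827925 (fdP true false pF (ndUR ndF3))) t 1 1 1 = true :=
  ⟨(T.b (T.a (T.b (T.b (T.l 0) (T.l 0)) (T.l 2)) (T.b (T.b (T.l 32) (T.l 0)) (T.b (T.a (T.l 0) (T.l 0)) (T.l 2)))) (T.l 2)), by decide +kernel⟩
theorem cFP4 : ∃ t, chk3 (onCell 0 232471925 0 1073741824 780900216 37827925 (fdP true false pF (ndUR ndF4))) t 1 1 1 = true :=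
  ⟨(T.a (T.a (T.b (T.l 544) (T.b (T.b (T.b (T.l 32) (T.c (T.l 0) (T.l 0))) (T.l 2)) (T.l 2))) (T.b (T.a (T.l 544) (T.l 544)) (T.b (T.b (T.b (T.l 0) (T.l 0)) (T.l 2)) (T.l 2)))) (T.b (T.b (T.l 544) (T.a (T.l 544) (T.l 8736))) (T.b (T.b (T.a (T.a (T.l 0) (T.a (T.l 0) (T.l 0))) (T.b (T.l 544) (T.a (T.l 0) (T.l 0)))) (T.b (T.b (T.a (T.a (T.l 0) (T.l 0)) (T.a (T.l 0) (T.l 0))) (T.l 2)) (T.l 2))) (T.l 2)))), by decide +kernel⟩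
theorem cFP5 : ∃ t, chk3 (onCell 0 232471925 0 1073741824 780900216 37827925 (fdP true true pF (dgSC pF))) t 1 1 1 = true :=
  ⟨(T.a (T.a (T.l 349520) (T.l 349520)) (T.b (T.l 349520) (T.a (T.l 349520) (T.l 349520)))), by decide +kernel⟩
theorem cFC1 : ∃ t, chk3 (onCell 0 232471925 0 1073741824 780900216 37827925 (fdU pF ndF2 (thLo (ndUL pF ndF2) (ndUR ndF3)) cvF1 (ndUR ndF3))) t 1 1 1 = true :=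
  ⟨(T.a (T.b (T.b (T.b (T.a (T.a (T.l 0) (T.l 0)) (T.a (T.l 0) (T.l 0))) (T.l 1)) (T.l 1)) (T.l 1)) (T.b (T.b (T.b (T.b (T.a (T.a (T.l 0) (T.l 0)) (T.a (T.l 0) (T.l 0))) (T.a (T.l 2048) (T.a (T.l 43008) (T.l 34816)))) (T.l 1)) (T.l 1)) (T.a (T.a (T.l 1) (T.l 3)) (T.l 3)))), by decide +kernel⟩
theorem cFC2 : ∃ t, chk3 (onCell 0 232471925 0 1073741824 780900216 37827925 (fdU pF ndF2 (thLo (ndUL pF ndF2) (ndUR ndF3)) cvF2 (ndUR ndF3))) t 1 1 1 = true :=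
  ⟨(T.a (T.b (T.b (T.b (T.b (T.b (T.a (T.a (T.l 0) (T.l 0)) (T.l 0)) (T.l 32)) (T.l 32)) (T.l 1)) (T.l 1)) (T.l 1)) (T.b (T.b (T.b (T.b (T.b (T.a (T.l 0) (T.l 0)) (T.l 32)) (T.a (T.l 0) (T.l 32))) (T.l 1)) (T.l 1)) (T.a (T.a (T.l 1) (T.l 3)) (T.l 3)))), by decide +kernel⟩
theorem cNA2 : ∃ t, chk3 (onCell 0 232471925 0 1073741824 780900216 37827925 (fdAW pN qN (ndUL pN ndN2) (ndUR ndN3) (thLo (ndUL pN ndN2) (ndUR ndN3)) (tuLo (ndUL pN ndN2) (ndUR ndN3) (suL qN ndN2) (suR ndN3)))) t 1 1 1 = true :=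
  ⟨(T.b (T.a (T.b (T.b (T.c (T.a (T.b (T.a (T.l 0) (T.l 0)) (T.l 0)) (T.b (T.a (T.l 0) (T.l 0)) (T.l 0))) (T.a (T.l 0) (T.l 0))) (T.c (T.c (T.a (T.l 0) (T.l 0)) (T.l 0)) (T.a (T.a (T.l 0) (T.l 0)) (T.l 0)))) (T.l 3)) (T.a (T.b (T.b (T.c (T.b (T.b (T.l 1) (T.l 0)) (T.l 0)) (T.a (T.l 0) (T.l 0))) (T.c (T.l 0) (T.l 0))) (T.b (T.b (T.a (T.l 0) (T.l 0)) (T.l 3)) (T.l 3))) (T.b (T.b (T.b (T.l 1) (T.c (T.l 0) (T.l 0))) (T.c (T.l 0) (T.l 0))) (T.b (T.b (T.l 0) (T.l 3)) (T.l 3))))) (T.l 3)), by decide +kernel⟩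
theorem cNA3 : ∃ t, chk3 (onCell 0 232471925 0 1073741824 780900216 37827925 (fdAW pN qN (ndUR ndN3) (ndUR ndN4) (thLo (ndUR ndN3) (ndUR ndN4)) (tuLo (ndUR ndN3) (ndUR ndN4) (suR ndN3) (suR ndN4)))) t 1 1 1 = true :=
  ⟨(T.a (T.a (T.b (T.b (T.b (T.l 2) (T.b (T.l 2) (T.l 0))) (T.b (T.a (T.l 0) (T.l 0)) (T.a (T.l 0) (T.l 0)))) (T.b (T.b (T.a (T.l 0) (T.l 0)) (T.l 3)) (T.l 3))) (T.a (T.b (T.b (T.b (T.l 2) (T.a (T.l 0) (T.l 0))) (T.b (T.l 0) (T.l 0))) (T.b (T.b (T.l 0) (T.l 3)) (T.l 3))) (T.b (T.b (T.b (T.l 2) (T.a (T.l 0) (T.l 0))) (T.b (T.l 0) (T.l 0))) (T.b (T.b (T.l 0) (T.l 3)) (T.l 3))))) (T.b (T.a (T.b (T.b (T.l 2) (T.b (T.l 2) (T.l 0))) (T.b (T.l 0) (T.l 0))) (T.b (T.l 2) (T.b (T.a (T.l 0) (T.l 0)) (T.a (T.l 0) (T.l 0))))) (T.b (T.a (T.b (T.a (T.l 0) (T.l 0)) (T.a (T.l 0) (T.b (T.l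 0) (T.l 3)))) (T.b (T.a (T.a (T.l 0) (T.l 0)) (T.a (T.l 0) (T.l 0))) (T.b (T.a (T.l 0) (T.l 0)) (T.l 3)))) (T.l 3)))), by decide +kernel⟩
theorem cNA4 : ∃ t, chk3 (onCell 0 232471925 0 1073741824 780900216 37827925 (fdAW pN qN (ndUR ndN4) (dgSC pN) (thUp (ndUR ndN4) (dgSC pN)) (tuUp (ndUR ndN4) (dgSC pN) (suR ndN4) (suC qN)))) t 1 1 1 = true :=
  ⟨(T.b (T.l 2) (T.a (T.a (T.b (T.c (T.l 0) (T.b (T.l 0) (T.l 0))) (T.b (T.l 0) (T.l 0))) (T.a (T.b (T.b (T.l 0) (T.l 0)) (T.b (T.l 0) (T.l 0))) (T.b (T.a (T.b (T.l 0) (T.l 0)) (T.c (T.l 0) (T.a (T.l 0) (T.l 0)))) (T.a (T.b (T.l 0) (T.l 0)) (T.b (T.l 0) (T.a (T.l 0) (T.l 0))))))) (T.b (T.b (T.a (T.a (T.b (T.l 2) (T.a (T.l 0) (T.l 0))) (T.l 2)) (T.l 2)) (T.a (T.a (T.a (T.a (T.l 0) (T.l 0)) (T.a (T.l 0) (T.l 0))) (T.a (T.b (T.l 0) (T.l 0)) (T.b (T.l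 0) (T.l 0)))) (T.a (T.a (T.b (T.l 0) (T.l 0)) (T.b (T.l 0) (T.l 0))) (T.a (T.c (T.l 0) (T.l 32)) (T.c (T.l 0) (T.l 32)))))) (T.a (T.a (T.a (T.b (T.a (T.l 0) (T.l 0)) (T.a (T.l 0) (T.l 0))) (T.b (T.a (T.l 0) (T.l 0)) (T.b (T.l 0) (T.l 0)))) (T.b (T.a (T.b (T.l 0) (T.l 0)) (T.b (T.l 0) (T.l 0))) (T.a (T.c (T.a (T.l 0) (T.l 0)) (T.l 174760)) (T.c (T.a (T.l 0) (T.l 0)) (T.l 174760))))) (T.a (T.b (T.a (T.c (T.l 0) (T.l 32)) (T.c (T.a (T.l 0) (T.l 0)) (T.l 32))) (T.a (T.c (T.a (T.l 0) (T.l 0)) (T.l 174760)) (T.c (T.a (T.l 0) (T.l 0)) (T.l 174760)))) (T.b (T.a (T.c (T.a (T.l 0) (T.l 0)) (T.l 8736)) (T.b (T.a (T.l 0) (T.l 0)) (T.a (T.l 0) (T.l 4)))) (T.a (T.b (T.a (T.l 0) (T.l 4)) (T.l 4)) (T.l 4)))))))), by decide +kernel⟩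
theorem cNB3 : ∃ t, chk3 (onCell 0 232471925 0 2684354560 780900216 37827925 (fdBW pN qN (ndUR ndN3) (suR ndN3))) t 1 1 1 = true :=
  ⟨(T.b (T.b (T.a (T.b (T.b (T.l 2) (T.a (T.l 0) (T.l 0))) (T.l 4)) (T.b (T.b (T.l 2) (T.l 0)) (T.a (T.l 4) (T.l 4)))) (T.l 4)) (T.a (T.l 4) (T.b (T.l 4) (T.a (T.l 4) (T.l 4))))), by decide +kernel⟩
theorem cNB4 : ∃ t, chk3 (onCell 0 232471925 0 2684354560 780900216 37827925 (fdBW pN qN (ndUR ndN4) (suR ndN4))) t 1 1 1 = true :=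
  ⟨(T.b (T.b (T.a (T.b (T.l 2) (T.b (T.l 2) (T.l 0))) (T.a (T.a (T.b (T.l 2) (T.b (T.l 2) (T.l 0))) (T.l 2)) (T.l 2))) (T.b (T.a (T.b (T.a (T.l 0) (T.l 0)) (T.l 4)) (T.b (T.a (T.b (T.a (T.l 0) (T.l 0)) (T.l 4)) (T.b (T.a (T.l 0) (T.l 0)) (T.a (T.l 0) (T.l 8224)))) (T.l 4))) (T.l 4))) (T.a (T.l 4) (T.b (T.l 4) (T.a (T.l 4) (T.l 4))))), by decide +kernel⟩
theorem cNB5 : ∃ t, chk3 (onCell 0 232471925 0 2684354560 780900216 37827925 (fdBW pN qN (dgSC pN) (suC qN))) t 1 1 1 = true :=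
  ⟨(T.b (T.b (T.l 2) (T.b (T.l 2) (T.a (T.a (T.b (T.b (T.l 0) (T.l 34816)) (T.l 174216)) (T.b (T.a (T.b (T.l 0) (T.l 34816)) (T.b (T.a (T.l 0) (T.l 0)) (T.a (T.l 34952) (T.l 174216)))) (T.b (T.a (T.l 34952) (T.l 174760)) (T.l 4)))) (T.a (T.b (T.a (T.b (T.a (T.l 0) (T.l 0)) (T.a (T.l 174760) (T.l 174760))) (T.b (T.b (T.l 2) (T.a (T.l 0) (T.l 0))) (T.b (T.a (T.l 34952) (T.l 174216)) (T.l 174760)))) (T.b (T.a (T.l 174760) (T.a (T.l 174760) (T.l 174760))) (T.l 4))) (T.a (T.b (T.a (T.b (T.a (T.l 0) (T.l 0)) (T.a (T.l 174216) (T.l 174728))) (T.a (T.b (T.l 0) (T.l 6)) (T.l 6))) (T.l 6)) (T.l 6)))))) (T.b (T.a (T.l 4) (T.a (T.l 4) (T.l 4))) (T.a (T.l 4) (T.a (T.l 4) (T.l 5))))), by decide +kernel⟩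
theorem cNP3 : ∃ t, chk3 (onCell 0 232471925 0 1073741824 780900216 37827925 (fdPW pN qN (ndUR ndN3) (suR ndN3))) t 1 1 1 = true :=
  ⟨(T.b (T.a (T.b (T.b (T.l 0) (T.l 0)) (T.l 2)) (T.b (T.b (T.l 0) (T.l 0)) (T.a (T.b (T.l 0) (T.l 2)) (T.b (T.a (T.l 0) (T.l 0)) (T.l 2))))) (T.l 2)), by decide +kernel⟩
theorem cNP4 : ∃ t, chk3 (onCell 0 232471925 0 1073741824 780900216 37827925 (fdPW pN qN (ndUR ndN4) (suR ndN4))) t 1 1 1 = true :=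
  ⟨(T.a (T.a (T.b (T.a (T.l 8736) (T.l 8736)) (T.b (T.b (T.l 0) (T.l 2)) (T.l 2))) (T.b (T.a (T.l 139808) (T.l 139808)) (T.b (T.b (T.l 0) (T.l 2)) (T.l 2)))) (T.b (T.b (T.l 544) (T.a (T.l 32) (T.l 139808))) (T.b (T.b (T.a (T.a (T.l 0) (T.l 0)) (T.a (T.a (T.l 0) (T.l 0)) (T.l 0))) (T.b (T.a (T.a (T.l 0) (T.l 0)) (T.a (T.l 0) (T.l 0))) (T.l 2))) (T.l 2)))), by decide +kernel⟩
theorem cNP5 : ∃ t, chk3 (onCell 0 232471925 0 1073741824 780900216 37827925 (fdPW pN qN (dgSC pN) (suC qN))) t 1 1 1 = true :=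
  ⟨(T.a (T.a (T.b (T.l 139808) (T.b (T.l 544) (T.a (T.l 0) (T.l 0)))) (T.a (T.b (T.l 139808) (T.b (T.l 0) (T.l 0))) (T.b (T.l 139808) (T.b (T.l 139808) (T.a (T.l 0) (T.b (T.l 0) (T.a (T.l 0) (T.l 0)))))))) (T.b (T.a (T.l 174760) (T.l 174760)) (T.b (T.a (T.a (T.l 139808) (T.l 174760)) (T.a (T.l 139944) (T.l 174760))) (T.a (T.a (T.b (T.l 139944) (T.b (T.l 174760) (T.a (T.l 0) (T.l 0)))) (T.b (T.l 174760) (T.b (T.l 174760) (T.a (T.l 0) (T.l 0))))) (T.b (T.a (T.l 174760) (T.l 174760)) (T.a (T.b (T.l 174760) (T.a (T.l 0) (T.a (T.l 0) (T.l 3)))) (T.b (T.l 174760) (T.l 3)))))))), by decide +kernel⟩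

end Pool.Agent.Strip051.G.I72727_7625.Tab.DG
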