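import Pool.Agent.Strip051.G.I72727_7625.DgP

/-! # The corner (1, 1, 2): certificates of the degenerate charts (generated) -/

set_option linter.all false

namespace Pool.Agent.Strip051.G.I72727_7625.Tab.DG

open Pool.Agent.Strip051.PB Pool.Agent.Strip051.PB.Dg Pool.Agent.StripNear Pool.Agent.Strip051.LC

theorem cNC1 : ∃ t, chk3 (onCell 0 232471925 0 1073741824 780900216 37827925 (fdCW pN qN ndN2 (thLo (ndUL pN ndN2) (ndUR ndN3)) (tuLo (ndUL pN ndN2) (ndUR ndN3) (suL qN ndN2) (suR ndN3)) cvN1 cFsDD1 (ndUR ndN3))) t 1 1 1 = true :=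
  ⟨(T.a (T.b (T.b (T.b (T.a (T.a (T.l 0) (T.l 0)) (T.a (T.l 0) (T.l 0))) (T.l 1)) (T.l 1)) (T.l 1)) (T.b (T.b (T.b (T.b (T.a (T.l 0) (T.l 0)) (T.a (T.l 0) (T.a (T.l 0) (T.l 0)))) (T.l 1)) (T.l 1)) (T.a (T.a (T.l 1) (T.l 3)) (T.l 3)))), by decide +kernel⟩
theorem cNC2 : ∃ t, chk3 (onCell 0 232471925 0 1073741824 780900216 37827925 (fdCW pN qN ndN2 (thLo (ndUL pN ndN2) (ndUR ndN3)) (tuLo (ndUL pN ndN2) (ndUR ndN3) (suL qN ndN2) (suR ndN3)) cvN2 cFsDD2 (ndUR ndN3))) t 1 1 1 = true :=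
  ⟨(T.a (T.b (T.b (T.b (T.c (T.a (T.l 0) (T.l 0)) (T.l 0)) (T.l 1)) (T.l 1)) (T.l 1)) (T.b (T.b (T.b (T.b (T.a (T.l 0) (T.l 0)) (T.a (T.l 0) (T.a (T.l 0) (T.l 0)))) (T.l 1)) (T.l 1)) (T.a (T.a (T.l 1) (T.l 3)) (T.l 3)))), by decide +kernel⟩

end Pool.Agent.Strip051.G.I72727_7625.Tab.DG
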