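import Pool.Agent.Strip051.G.I72727_7625.DgQ
import Pool.Agent.Strip051.G.I72727_7625.DgX0
import Pool.Agent.Strip051.G.I72727_7625.DgX1

/-! # The corner (1, 1, 2): the degenerate instances (generated) -/

set_option linter.all false

namespace Pool.Agent.Strip051.G.I72727_7625.Tab.DG

open Pool.Agent.Strip051.PB Pool.Agent.Strip051.PB.Dg Pool.Agent.StripNear Pool.Agent.Strip051.LC

theorem ctFA2 {x : ℝ} (hx : ((780900216 : ℕ) : ℝ) / S ≤ x) (hx' : x ≤ (((780900216 : ℕ) : ℝ) + (37827925 : ℕ)) / S) : CtAx PP tK tL false pF (ndUL pF ndF2) (ndUR ndF3) (thLo (ndUL pF ndF2) (ndUR ndF3)) 2 67108864 16777216 232471925 1073741824 780900216 37827925 x :=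
  ⟨sdF2, sdF3, thLo_ok sdF2 sdF3, btF, svF, by norm_num, by norm_num, hx, hx', cFA2⟩
theorem ctFA3 {x : ℝ} (hx : ((780900216 : ℕ) : ℝ) / S ≤ x) (hx' : x ≤ (((780900216 : ℕ) : ℝ) + (37827925 : ℕ)) / S) : CtAx PP tK tL false pF (ndUR ndF3) (ndUR ndF4) (thLo (ndUR ndF3) (ndUR ndF4)) 3 67108864 16777216 232471925 1073741824 780900216 37827925 x :=
  ⟨sdF3, sdF4, thLo_ok sdF3 sdF4, btF, svF, by norm_num, by norm_num, hx, hx', cFA3⟩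
theorem ctFA4 {x : ℝ} (hx : ((780900216 : ℕ) : ℝ) / S ≤ x) (hx' : x ≤ (((780900216 : ℕ) : ℝ) + (37827925 : ℕ)) / S) : CtAx PP tK tL true pF (ndUR ndF4) (dgSC pF) (thUp (ndUR ndF4) (dgSC pF)) 4 67108864 16777216 232471925 1073741824 780900216 37827925 x :=
  ⟨sdF4, sdFC, thUp_ok' sdF4 sdFC rfl, tgpF.btU klF, svF, by norm_num, by norm_num, hx, hx', cFA4⟩
theorem ctFB3 {x : ℝ} (hx : ((780900216 : ℕ) : ℝ) / S ≤ x) (hx' : x ≤ (((780900216 : ℕ) : ℝ) + (37827925 : ℕ)) / S) : CtB PP tK tL true false pF (ndUR ndF3) 3 0 67108864 16777216 232471925 2684354560 780900216 37827925 x :=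
  ⟨sdF3, cvokF1, btF, rfl, by show rh 1 ≤ 1; simp [rh]; try norm_num, svF, by norm_num, by norm_num, hx, hx', cFB3⟩
theorem ctFB4 {x : ℝ} (hx : ((780900216 : ℕ) : ℝ) / S ≤ x) (hx' : x ≤ (((780900216 : ℕ) : ℝ) + (37827925 : ℕ)) / S) : CtB PP tK tL true false pF (ndUR ndF4) 4 0 67108864 16777216 232471925 2684354560 780900216 37827925 x :=
  ⟨sdF4, cvokF1, btF, rfl, by show rh 1 ≤ 1; simp [rh]; try norm_num, svF, by norm_num, by norm_num, hx, hx', cFB4⟩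
theorem ctFB5 {x : ℝ} (hx : ((780900216 : ℕ) : ℝ) / S ≤ x) (hx' : x ≤ (((780900216 : ℕ) : ℝ) + (37827925 : ℕ)) / S) : CtB PP tK tL true true pF (dgSC pF) 5 0 67108864 16777216 232471925 2684354560 780900216 37827925 x :=
  ⟨sdFC, cvokF1, tgpF.btN klF, rfl, by show rh 1 ≤ 1; simp [rh]; try norm_num, svF, by norm_num, by norm_num, hx, hx', cFB5⟩
theorem ctFP3 {x : ℝ} (hx : ((780900216 : ℕ) : ℝ) / S ≤ x) (hx' : x ≤ (((780900216 : ℕ) : ℝ) + (37827925 : ℕ)) / S) : CtP PP tK tL true false pF (ndUR ndF3) 3 0 67108864 16777216 232471925 1073741824 780900216 37827925 x :=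
  ⟨sdF3, p1okF, btF, rfl, svF, by norm_num, by norm_num, hx, hx', cFP3⟩
theorem ctFP4 {x : ℝ} (hx : ((780900216 : ℕ) : ℝ) / S ≤ x) (hx' : x ≤ (((780900216 : ℕ) : ℝ) + (37827925 : ℕ)) / S) : CtP PP tK tL true false pF (ndUR ndF4) 4 0 67108864 16777216 232471925 1073741824 780900216 37827925 x :=
  ⟨sdF4, p1okF, btF, rfl, svF, by norm_num, by norm_num, hx, hx', cFP4⟩
theorem ctFP5 {x : ℝ} (hx : ((780900216 : ℕ) : ℝ) / S ≤ x) (hx' : x ≤ (((780900216 : ℕ) : ℝ) + (37827925 : ℕ)) / S) : CtP PP tK tL true true pF (dgSC pF) 5 0 67108864 16777216 232471925 1073741824 780900216 37827925 x :=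
  ⟨sdFC, p1okF, tgpF.btN klF, rfl, svF, by norm_num, by norm_num, hx, hx', cFP5⟩
theorem ctFC1 {x : ℝ} (hx : ((780900216 : ℕ) : ℝ) / S ≤ x) (hx' : x ≤ (((780900216 : ℕ) : ℝ) + (37827925 : ℕ)) / S) : CtU PP tK tL pF ndF2 (thLo (ndUL pF ndF2) (ndUR ndF3)) cvF1 (ndUR ndF3) 1 2 67108864 16777216 232471925 1073741824 780900216 37827925 x :=
  ⟨nlF2, sdF3, grLo _ _, cvokF1, by show rh 1 ≤ 1; simp [rh]; try norm_num, svF, by norm_num, by norm_num, hx, hx', cFC1⟩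
theorem ctFC2 {x : ℝ} (hx : ((780900216 : ℕ) : ℝ) / S ≤ x) (hx' : x ≤ (((780900216 : ℕ) : ℝ) + (37827925 : ℕ)) / S) : CtU PP tK tL pF ndF2 (thLo (ndUL pF ndF2) (ndUR ndF3)) cvF2 (ndUR ndF3) 2 2 67108864 16777216 232471925 1073741824 780900216 37827925 x :=
  ⟨nlF2, sdF3, grLo _ _, cvokF2, by show rh 2 ≤ 1; simp [rh]; try norm_num, svF, by norm_num, by norm_num, hx, hx', cFC2⟩
theorem ctNA2 {x : ℝ} (hx : ((780900216 : ℕ) : ℝ) / S ≤ x) (hx' : x ≤ (((780900216 : ℕ) : ℝ) + (37827925 : ℕ)) / S) : CtAW PP tK tL tU (eng.v x) pN qN (ndUL pN ndN2) (ndUR ndN3) (thLo (ndUL pN ndN2) (ndUR ndN3)) (tuLo (ndUL pN ndN2) (ndUR ndN3) (suL qN ndN2) (suR ndN3)) 2 67108864 16777216 232471925 1073741824 780900216 37827925 x :=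
  ⟨sdN2, sdN3, thLo_ok sdN2 sdN3, tuLo_ok sdN2 sdN3 suN2 suN3, svN, by norm_num, by norm_num, hx, hx', cNA2⟩
theorem ctNA3 {x : ℝ} (hx : ((780900216 : ℕ) : ℝ) / S ≤ x) (hx' : x ≤ (((780900216 : ℕ) : ℝ) + (37827925 : ℕ)) / S) : CtAW PP tK tL tU (eng.v x) pN qN (ndUR ndN3) (ndUR ndN4) (thLo (ndUR ndN3) (ndUR ndN4)) (tuLo (ndUR ndN3) (ndUR ndN4) (suR ndN3) (suR ndN4)) 3 67108864 16777216 232471925 1073741824 780900216 37827925 x :=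
  ⟨sdN3, sdN4, thLo_ok sdN3 sdN4, tuLo_ok sdN3 sdN4 suN3 suN4, svN, by norm_num, by norm_num, hx, hx', cNA3⟩
theorem ctNA4 {x : ℝ} (hx : ((780900216 : ℕ) : ℝ) / S ≤ x) (hx' : x ≤ (((780900216 : ℕ) : ℝ) + (37827925 : ℕ)) / S) : CtAW PP tK tL tU (eng.v x) pN qN (ndUR ndN4) (dgSC pN) (thUp (ndUR ndN4) (dgSC pN)) (tuUp (ndUR ndN4) (dgSC pN) (suR ndN4) (suC qN)) 4 67108864 16777216 232471925 1073741824 780900216 37827925 x :=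
  ⟨sdN4, sdNC, thUp_ok' sdN4 sdNC rfl, tuUp_ok sdN4 sdNC suN4 suNC rfl, svN, by norm_num, by norm_num, hx, hx', cNA4⟩
theorem ctNB3 {x : ℝ} (hx : ((780900216 : ℕ) : ℝ) / S ≤ x) (hx' : x ≤ (((780900216 : ℕ) : ℝ) + (37827925 : ℕ)) / S) : CtBW PP tK tL tU (eng.v x) pN qN (ndUR ndN3) (suR ndN3) 3 0 67108864 16777216 232471925 2684354560 780900216 37827925 x :=
  ⟨sdN3, suN3, cvokN1, cvu1, rfl, by show rh 1 ≤ 1; simp [rh]; try norm_num, svN, by norm_num, by norm_num, hx, hx', cNB3⟩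
theorem ctNB4 {x : ℝ} (hx : ((780900216 : ℕ) : ℝ) / S ≤ x) (hx' : x ≤ (((780900216 : ℕ) : ℝ) + (37827925 : ℕ)) / S) : CtBW PP tK tL tU (eng.v x) pN qN (ndUR ndN4) (suR ndN4) 4 0 67108864 16777216 232471925 2684354560 780900216 37827925 x :=
  ⟨sdN4, suN4, cvokN1, cvu1, rfl, by show rh 1 ≤ 1; simp [rh]; try norm_num, svN, by norm_num, by norm_num, hx, hx', cNB4⟩
theorem ctNB5 {x : ℝ} (hx : ((780900216 : ℕ) : ℝ) / S ≤ x) (hx' : x ≤ (((780900216 : ℕ) : ℝ) + (37827925 : ℕ)) / S) : CtBW PP tK tL tU (eng.v x) pN qN (dgSC pN) (suC qN) 5 0 67108864 16777216 232471925 2684354560 780900216 37827925 x :=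
  ⟨sdNC, suNC, cvokN1, cvu1, rfl, by show rh 1 ≤ 1; simp [rh]; try norm_num, svN, by norm_num, by norm_num, hx, hx', cNB5⟩
theorem ctNP3 {x : ℝ} (hx : ((780900216 : ℕ) : ℝ) / S ≤ x) (hx' : x ≤ (((780900216 : ℕ) : ℝ) + (37827925 : ℕ)) / S) : CtPW PP tK tL tU (eng.v x) pN qN (ndUR ndN3) (suR ndN3) 3 0 67108864 16777216 232471925 1073741824 780900216 37827925 x :=
  ⟨sdN3, suN3, p1okN, p1u, rfl, svN, by norm_num, by norm_num, hx, hx', cNP3⟩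
theorem ctNP4 {x : ℝ} (hx : ((780900216 : ℕ) : ℝ) / S ≤ x) (hx' : x ≤ (((780900216 : ℕ) : ℝ) + (37827925 : ℕ)) / S) : CtPW PP tK tL tU (eng.v x) pN qN (ndUR ndN4) (suR ndN4) 4 0 67108864 16777216 232471925 1073741824 780900216 37827925 x :=
  ⟨sdN4, suN4, p1okN, p1u, rfl, svN, by norm_num, by norm_num, hx, hx', cNP4⟩
theorem ctNP5 {x : ℝ} (hx : ((780900216 : ℕ) : ℝ) / S ≤ x) (hx' : x ≤ (((780900216 : ℕ) : ℝ) + (37827925 : ℕ)) / S) : CtPW PP tK tL tU (eng.v x) pN qN (dgSC pN) (suC qN) 5 0 67108864 16777216 232471925 1073741824 780900216 37827925 x :=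
  ⟨sdNC, suNC, p1okN, p1u, rfl, svN, by norm_num, by norm_num, hx, hx', cNP5⟩
theorem ctNC1 {x : ℝ} (hx : ((780900216 : ℕ) : ℝ) / S ≤ x) (hx' : x ≤ (((780900216 : ℕ) : ℝ) + (37827925 : ℕ)) / S) : CtCW PP tK tL tU (eng.v x) pN qN ndN2 (thLo (ndUL pN ndN2) (ndUR ndN3)) (tuLo (ndUL pN ndN2) (ndUR ndN3) (suL qN ndN2) (suR ndN3)) cvN1 cFsDD1 (ndUR ndN3) (suR ndN3) 1 2 67108864 16777216 232471925 1073741824 780900216 37827925 x :=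
  ⟨nlN2, nc2, sdN3, suN3, grLo _ _, guLo _ _ _ _, cvokN1, cvu1, by show rh 1 ≤ 1; simp [rh]; try norm_num, svN, by norm_num, by norm_num, hx, hx', cNC1⟩
theorem ctNC2 {x : ℝ} (hx : ((780900216 : ℕ) : ℝ) / S ≤ x) (hx' : x ≤ (((780900216 : ℕ) : ℝ) + (37827925 : ℕ)) / S) : CtCW PP tK tL tU (eng.v x) pN qN ndN2 (thLo (ndUL pN ndN2) (ndUR ndN3)) (tuLo (ndUL pN ndN2) (ndUR ndN3) (suL qN ndN2) (suR ndN3)) cvN2 cFsDD2 (ndUR ndN3) (suR ndN3) 2 2 67108864 16777216 232471925 1073741824 780900216 37827925 x :=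
  ⟨nlN2, nc2, sdN3, suN3, grLo _ _, guLo _ _ _ _, cvokN2, cvu2, by show rh 2 ≤ 1; simp [rh]; try norm_num, svN, by norm_num, by norm_num, hx, hx', cNC2⟩
theorem thd {x : ℝ} (hx : ((780900216 : ℕ) : ℝ) / S ≤ x) (hx' : x ≤ (((780900216 : ℕ) : ℝ) + (37827925 : ℕ)) / S) : ThrD PP tC tU pd esg 3 (mog.v x) (1 / 20) x :=
  ⟨thU (pinU hx hx'), fun j q y => tbF_sc j q y x, (esg_rng (xr hx hx').1.le (xr hx hx').2.le).1, mo_v x⟩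
theorem dgB_A123_01 {κ x : ℝ} {f : ℝ → ℝ} (hκ : κ * h0 = ken x) (hx : ((780900216 : ℕ) : ℝ) / S ≤ x) (hx' : x ≤ (((780900216 : ℕ) : ℝ) + (37827925 : ℕ)) / S) :
    SgA (VEA 3 κ (eng.v x) (1 / 20) f PP tK tL tC pcB (scP esg pd) 1 2 0 1) PP tK tL pcB 1 2 0 1 true 2 67108864 16777216 x :=
  (sgC1W (bsN hx hx') (ctNC1 hx hx')).ve rfl (Or.inl rfl) (Or.inr rfl) (sideB hx hx') hκ (thd hx hx') (sgU1 (bsF hx hx') (ctFC1 hx hx'))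
theorem dgB_A123_02 {κ x : ℝ} {f : ℝ → ℝ} (hκ : κ * h0 = ken x) (hx : ((780900216 : ℕ) : ℝ) / S ≤ x) (hx' : x ≤ (((780900216 : ℕ) : ℝ) + (37827925 : ℕ)) / S) :
    SgA (VEA 3 κ (eng.v x) (1 / 20) f PP tK tL tC pcB (scP esg pd) 1 2 0 2) PP tK tL pcB 1 2 0 2 true 2 67108864 16777216 x :=
  (sgC1W (bsN hx hx') (ctNC2 hx hx')).ve rfl (Or.inl rfl) (Or.inr rfl) (sideB hx hx') hκ (thd hx hx') (sgU1 (bsF hx hx') (ctFC2 hx hx'))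
theorem dgB_B123_03p {κ x : ℝ} {f : ℝ → ℝ} (hκ : κ * h0 = ken x) (hx : ((780900216 : ℕ) : ℝ) / S ≤ x) (hx' : x ≤ (((780900216 : ℕ) : ℝ) + (37827925 : ℕ)) / S) :
    SgBl (VEB 3 κ (eng.v x) (1 / 20) f PP tK tL tC pcB (scP esg pd) 1 2 0 3 true) PP tK tL pcB .npn 1 2 0 3 true 0 67108864 16777216 x :=
  Sg12BlW.ve rfl (Or.inl rfl) (Or.inr rfl) (sideB hx hx') hκ (thd hx hx') (sgB1W (bsN hx hx') (ctNB3 hx hx')) (sgB1 (bsF hx hx') (ctFB3 hx hx'))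
theorem dgB_B213_03m {κ x : ℝ} {f : ℝ → ℝ} (hκ : κ * h0 = ken x) (hx : ((780900216 : ℕ) : ℝ) / S ≤ x) (hx' : x ≤ (((780900216 : ℕ) : ℝ) + (37827925 : ℕ)) / S) :
    SgB (VEB 3 κ (eng.v x) (1 / 20) f PP tK tL tC pcB (scP esg pd) 2 1 0 3 false) PP tK tL pcB 2 1 0 3 false 0 67108864 16777216 x :=
  (sgP1W (bsN hx hx') (ctNP3 hx hx')).ve rfl (Or.inr rfl) (Or.inl rfl) (sideB hx hx') hκ (thd hx hx') (sgP1 (bsF hx hx') (ctFP3 hx hx'))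
theorem dgB_B123_04p {κ x : ℝ} {f : ℝ → ℝ} (hκ : κ * h0 = ken x) (hx : ((780900216 : ℕ) : ℝ) / S ≤ x) (hx' : x ≤ (((780900216 : ℕ) : ℝ) + (37827925 : ℕ)) / S) :
    SgBl (VEB 3 κ (eng.v x) (1 / 20) f PP tK tL tC pcB (scP esg pd) 1 2 0 4 true) PP tK tL pcB .npn 1 2 0 4 true 0 67108864 16777216 x :=
  Sg12BlW.ve rfl (Or.inl rfl) (Or.inr rfl) (sideB hx hx') hκ (thd hx hx') (sgB1W (bsN hx hx') (ctNB4 hx hx')) (sgB1 (bsF hx hx') (ctFB4 hx hx'))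
theorem dgB_B213_04m {κ x : ℝ} {f : ℝ → ℝ} (hκ : κ * h0 = ken x) (hx : ((780900216 : ℕ) : ℝ) / S ≤ x) (hx' : x ≤ (((780900216 : ℕ) : ℝ) + (37827925 : ℕ)) / S) :
    SgB (VEB 3 κ (eng.v x) (1 / 20) f PP tK tL tC pcB (scP esg pd) 2 1 0 4 false) PP tK tL pcB 2 1 0 4 false 0 67108864 16777216 x :=
  (sgP1W (bsN hx hx') (ctNP4 hx hx')).ve rfl (Or.inr rfl) (Or.inl rfl) (sideB hx hx') hκ (thd hx hx') (sgP1 (bsF hx hx') (ctFP4 hx hx'))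
theorem dgB_B123_05p {κ x : ℝ} {f : ℝ → ℝ} (hκ : κ * h0 = ken x) (hx : ((780900216 : ℕ) : ℝ) / S ≤ x) (hx' : x ≤ (((780900216 : ℕ) : ℝ) + (37827925 : ℕ)) / S) :
    SgBl (VEB 3 κ (eng.v x) (1 / 20) f PP tK tL tC pcB (scP esg pd) 1 2 0 5 true) PP tK tL pcB .npn 1 2 0 5 true 0 67108864 16777216 x :=
  Sg12BlW.ve rfl (Or.inl rfl) (Or.inr rfl) (sideB hx hx') hκ (thd hx hx') (sgB1W (bsN hx hx') (ctNB5 hx hx')) (sgB1 (bsF hx hx') (ctFB5 hx hx'))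
theorem dgB_B213_05m {κ x : ℝ} {f : ℝ → ℝ} (hκ : κ * h0 = ken x) (hx : ((780900216 : ℕ) : ℝ) / S ≤ x) (hx' : x ≤ (((780900216 : ℕ) : ℝ) + (37827925 : ℕ)) / S) :
    SgB (VEB 3 κ (eng.v x) (1 / 20) f PP tK tL tC pcB (scP esg pd) 2 1 0 5 false) PP tK tL pcB 2 1 0 5 false 0 67108864 16777216 x :=
  (sgP1W (bsN hx hx') (ctNP5 hx hx')).ve rfl (Or.inr rfl) (Or.inl rfl) (sideB hx hx') hκ (thd hx hx') (sgP1 (bsF hx hx') (ctFP5 hx hx'))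
theorem alt12B_A123_00 {κ x : ℝ} {f : ℝ → ℝ} (hκ : κ * h0 = ken x) (hx : ((780900216 : ℕ) : ℝ) / S ≤ x) (hx' : x ≤ (((780900216 : ℕ) : ℝ) + (37827925 : ℕ)) / S) :
    AltEA 3 κ (eng.v x) (1 / 20) f PP tK tL tC pcB (scP esg pd) [⟨0, 1, 0, 67108864⟩, ⟨1, 1, 0, 67108864⟩, ⟨2, 2, 0, 16777216⟩] 1 2 3 0 0 (sgb true) (sgb false) x := by
  refine altEA12 (altA12 (loc123 (m := 2) (by show rh 2 ≤ 1; simp [rh]; try norm_num) (by show rh 0 ≤ 1; simp [rh]; try norm_num) (fun i hi => ?_)))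
  fin_cases i
  · exact absurd hi (by decide)
  · exact absurd hi (by decide)
  · exact (sgA1W (bsN hx hx') (ctNA2 hx hx')).ve rfl (Or.inl rfl) (Or.inr rfl) (sideB hx hx') hκ (thd hx hx') (sgA1x (bsF hx hx') (ctFA2 hx hx'))
  · exact (sgA1W (bsN hx hx') (ctNA3 hx hx')).ve rfl (Or.inl rfl) (Or.inr rfl) (sideB hx hx') hκ (thd hx hx') (sgA1x (bsF hx hx') (ctFA3 hx hx'))
  · exact (sgA1W (bsN hx hx') (ctNA4 hx hx')).ve rfl (Or.inl rfl) (Or.inr rfl) (sideB hx hx') hκ (thd hx hx') (sgA1x (bsF hx hx') (ctFA4 hx hx'))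
theorem alt12B_A213_00 {κ x : ℝ} {f : ℝ → ℝ} (hκ : κ * h0 = ken x) (hx : ((780900216 : ℕ) : ℝ) / S ≤ x) (hx' : x ≤ (((780900216 : ℕ) : ℝ) + (37827925 : ℕ)) / S) :
    AltEA 3 κ (eng.v x) (1 / 20) f PP tK tL tC pcB (scP esg pd) [⟨0, 1, 0, 67108864⟩, ⟨1, 1, 0, 67108864⟩, ⟨2, 2, 0, 16777216⟩] 2 1 3 0 0 (sgb true) (sgb false) x := by
  refine altEA12 (altA12 (loc213 (m := 2) (by show rh 2 ≤ 1; simp [rh]; try norm_num) (by show rh 0 ≤ 1; simp [rh]; try norm_num) (fun i hi => ?_)))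
  fin_cases i
  · exact absurd hi (by decide)
  · exact absurd hi (by decide)
  · exact (sgA2W (bsN hx hx') (ctNA2 hx hx')).ve rfl (Or.inr rfl) (Or.inl rfl) (sideB hx hx') hκ (thd hx hx') (sgA2x (bsF hx hx') (ctFA2 hx hx'))
  · exact (sgA2W (bsN hx hx') (ctNA3 hx hx')).ve rfl (Or.inr rfl) (Or.inl rfl) (sideB hx hx') hκ (thd hx hx') (sgA2x (bsF hx hx') (ctFA3 hx hx'))
  · exact (sgA2W (bsN hx hx') (ctNA4 hx hx')).ve rfl (Or.inr rfl) (Or.inl rfl) (sideB hx hx') hκ (thd hx hx') (sgA2x (bsF hx hx') (ctFA4 hx hx'))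

end Pool.Agent.Strip051.G.I72727_7625.Tab.DG
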