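import Pool.Agent.Strip051.PB.Cuts

/-! # Tables I72727_7625 (generated) -/

namespace Pool.Agent.Strip051.G.I72727_7625.Tab

open Pool.Agent.Strip051.PB

noncomputable def c1g : Fn1 := ⟨_, _, fun h1 => (enc_sqrtg (enc_sub (enc_pnc _ 1) (enc_scale 3 4 (enc_sq h1))))⟩
noncomputable def kcg_3 : Fn2 := ⟨_, _, fun h1 h2 => (enc_subr 148977 200000 h2)⟩
noncomputable def kcg_6 : Fn2 := ⟨_, _, fun h1 h2 => (enc_add h1 (enc_rat _ 7 25))⟩
noncomputable def kcg_9 : Fn2 := ⟨_, _, fun h1 h2 => (enc_add h1 (enc_rat _ 77 200))⟩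
noncomputable def kcg_12 : Fn2 := ⟨_, _, fun h1 h2 => (enc_add h1 (enc_rat _ 7 16))⟩
noncomputable def kcg_13 : Fn2 := ⟨_, _, fun h1 h2 => (enc_scale 19707 10000 h1)⟩
noncomputable def kcg_16 : Fn2 := ⟨_, _, fun h1 h2 => (enc_scale 2643 1000 h1)⟩
noncomputable def kcg_22 : Fn2 := ⟨_, _, fun h1 h2 => (enc_scale 5157 20000 h1)⟩
noncomputable def kcg_27 : Fn2 := ⟨_, _, fun h1 h2 => (enc_scale 1061 250 h1)⟩
noncomputable def kcg_38 : Fn2 := ⟨_, _, fun h1 h2 => (enc_sub (enc_rat _ 42448571 1000000) (enc_scale 762381 25000 (kcg_3.enc h1 h2)))⟩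
noncomputable def kcg_46 : Fn2 := ⟨_, _, fun h1 h2 => (enc_add h1 (enc_rat _ 83 250))⟩
noncomputable def kcg_47 : Fn2 := ⟨_, _, fun h1 h2 => (enc_scale 30549 20000 h1)⟩
noncomputable def kcg_52 : Fn2 := ⟨_, _, fun h1 h2 => (enc_scale 11691 2000 h1)⟩
noncomputable def kcg_60 : Fn2 := ⟨_, _, fun h1 h2 => (enc_neg (enc_scale 943 100000 (kcg_3.enc h1 h2)))⟩
noncomputable def kcg_63 : Fn2 := ⟨_, _, fun h1 h2 => (enc_subr 4523349 250000 (kcg_60.enc h1 h2))⟩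
noncomputable def kcg_68 : Fn2 := ⟨_, _, fun h1 h2 => (enc_scale 1313 4000 h1)⟩
noncomputable def kcg_73 : Fn2 := ⟨_, _, fun h1 h2 => (enc_scale 786 125 h1)⟩
noncomputable def kcg_84 : Fn2 := ⟨_, _, fun h1 h2 => (enc_subr 144381 31250 (enc_neg (enc_scale 17 2 (kcg_3.enc h1 h2))))⟩
noncomputable def kcg_93 : Fn2 := ⟨_, _, fun h1 h2 => (enc_add h1 (enc_rat _ 16 125))⟩
noncomputable def kcg_97 : Fn2 := ⟨_, _, fun h1 h2 => (enc_scale 13963 20000 h1)⟩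
noncomputable def kcg_101 : Fn2 := ⟨_, _, fun h1 h2 => (enc_scale 13461 2000 h1)⟩
noncomputable def kcg_108 : Fn2 := ⟨_, _, fun h1 h2 => (enc_subr 14833019 1000000 (kcg_60.enc h1 h2))⟩
noncomputable def kcg_113 : Fn2 := ⟨_, _, fun h1 h2 => (enc_scale 14843 10000 h1)⟩
noncomputable def kcg_117 : Fn2 := ⟨_, _, fun h1 h2 => (enc_scale 6731 1000 h1)⟩
noncomputable def kcg_126 : Fn2 := ⟨_, _, fun h1 h2 => (enc_scale 5043 2500 h1)⟩
noncomputable def kcg_130 : Fn2 := ⟨_, _, fun h1 h2 => (enc_scale 4657 2000 h1)⟩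
noncomputable def kcg_139 : Fn2 := ⟨_, _, fun h1 h2 => (enc_subr 4067939 500000 (enc_scale 3360687 50000 (kcg_3.enc h1 h2)))⟩
noncomputable def kcg_144 : Fn2 := ⟨_, _, fun h1 h2 => (enc_scale 25501 10000 h1)⟩
noncomputable def kcg_148 : Fn2 := ⟨_, _, fun h1 h2 => (enc_mul (enc_norm (kcg_3.enc h1 h2)) (enc_scale 1037 500 h1))⟩
noncomputable def kcg_155 : Fn2 := ⟨_, _, fun h1 h2 => (enc_sub (enc_rat _ 7 25) h1)⟩
noncomputable def kcg_156 : Fn2 := ⟨_, _, fun h1 h2 => (enc_sub (enc_rat _ 77 200) h1)⟩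
noncomputable def kcg_157 : Fn2 := ⟨_, _, fun h1 h2 => (enc_sub (enc_rat _ 7 16) h1)⟩
noncomputable def kcg_174 : Fn2 := ⟨_, _, fun h1 h2 => (enc_sub (enc_rat _ 83 250) h1)⟩
noncomputable def kcg_195 : Fn2 := ⟨_, _, fun h1 h2 => (enc_sub (enc_rat _ 16 125) h1)⟩
noncomputable def kcg : Fn2 := ⟨_, _, fun h1 h2 => (enc_norm (enc_case h1 (enc_case (kcg_6.enc h1 h2) (enc_case (kcg_9.enc h1 h2) (enc_case (kcg_12.enc h1 h2) (enc_add (enc_add (kcg_13.enc h1 h2) (enc_rat _ 19931469 40000000)) (enc_mul (enc_norm (kcg_3.enc h1 h2)) (enc_norm (enc_subr 2997049 4000000 (kcg_16.enc h1 h2))))) (enc_add (enc_add (enc_subr 4767039 10000000 (enc_neg (kcg_22.enc h1 h2))) (enc_mul (enc_norm (kcg_3.enc h1 h2)) (enc_norm (enc_subr 195299 4000000 (kcg_27.enc h1 h2))))) (enc_mul (enc_norm (kcg_38.enc h1 h2)) (enc_norm (enc_mul (enc_norm (kcg_12.enc h1 h2)) (enc_norm (enc_sub (enc_neg (enc_rat _ 77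 200)) h1))))))) (enc_case (kcg_46.enc h1 h2) (enc_add (enc_add (enc_subr 9654999 10000000 (enc_neg (kcg_47.enc h1 h2))) (enc_mul (enc_norm (kcg_3.enc h1 h2)) (enc_norm (enc_add (kcg_52.enc h1 h2) (enc_rat _ 2271011 4000000))))) (enc_mul (enc_norm (kcg_63.enc h1 h2)) (enc_norm (enc_mul (enc_norm (kcg_9.enc h1 h2)) (enc_norm (enc_sub (enc_neg (enc_rat _ 83 250)) h1)))))) (enc_add (enc_add (enc_subr 1134731 2000000 (enc_neg (kcg_68.enc h1 h2))) (enc_mul (enc_norm (kcg_3.enc h1 h2)) (enc_norm (enc_add (kcg_73.enc h1 h2) (enc_rat _ 2858651 4000000))))) (enc_mul (enc_norm (kcg_84.enc h1 h2)) (enc_norm (enc_mul (enc_norm (kcg_46.enc h1 h2)) (enc_norm (enc_sub (enc_neg (enc_rat _ 7 25)) h1)))))))) (enc_case (kcg_93.enc h1 h2) (enc_case (enc_add h1 (enc_rat _ 227 1000)) (enc_add (enc_add (enc_subr 559947 2000000 (kcg_97.enc h1 h2)) (enc_mul (enc_norm (kcg_3.enc h1 h2)) (enc_norm (enc_add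 (kcg_101.enc h1 h2) (enc_rat _ 3354251 4000000))))) (enc_mul (enc_norm (kcg_108.enc h1 h2)) (enc_norm (enc_mul (enc_norm (kcg_6.enc h1 h2)) (enc_norm (enc_sub (enc_neg (enc_rat _ 227 1000)) h1)))))) (enc_add (enc_subr 2030349 20000000 (kcg_113.enc h1 h2)) (enc_mul (enc_norm (kcg_3.enc h1 h2)) (enc_norm (enc_add (kcg_117.enc h1 h2) (enc_rat _ 670941 800000)))))) (enc_case (enc_add h1 (enc_rat _ 1 16)) (enc_add (enc_add (enc_subr 5329 160000 (kcg_126.enc h1 h2)) (enc_mul (enc_norm (kcg_3.enc h1 h2)) (enc_norm (enc_add (kcg_130.enc h1 h2) (enc_rat _ 1761 6400))))) (enc_mul (enc_norm (kcg_139.enc h1 h2)) (enc_norm (enc_mul (enc_norm (kcg_93.enc h1 h2)) (enc_norm (enc_sub (enc_neg (enc_rat _ 1 16)) h1)))))) (enc_sub (kcg_144.enc h1 h2) (kcg_148.enc h1 h2))))) (enc_neg (enc_case (kcg_155.enc h1 h2) (enc_case (kcg_156.enc h1 h2) (enc_case (kcg_157.enc h1 h2) (enc_add (enc_sub (enc_rat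 _ 19931469 40000000) (kcg_13.enc h1 h2)) (enc_mul (enc_norm (kcg_3.enc h1 h2)) (enc_norm (enc_subr 2997049 4000000 (enc_neg (kcg_16.enc h1 h2)))))) (enc_add (enc_add (enc_subr 4767039 10000000 (kcg_22.enc h1 h2)) (enc_mul (enc_norm (kcg_3.enc h1 h2)) (enc_norm (enc_subr 195299 4000000 (enc_neg (kcg_27.enc h1 h2)))))) (enc_mul (enc_norm (kcg_38.enc h1 h2)) (enc_norm (enc_mul (enc_norm (kcg_157.enc h1 h2)) (enc_norm (enc_subr 77 200 h1))))))) (enc_case (kcg_174.enc h1 h2) (enc_add (enc_add (enc_subr 9654999 10000000 (kcg_47.enc h1 h2)) (enc_mul (enc_norm (kcg_3.enc h1 h2)) (enc_norm (enc_sub (enc_rat _ 2271011 4000000) (kcg_52.enc h1 h2))))) (enc_mul (enc_norm (kcg_63.enc h1 h2)) (enc_norm (enc_mul (enc_norm (kcg_156.enc h1 h2)) (enc_norm (enc_subr 83 250 h1)))))) (enc_add (enc_add (enc_subr 1134731 2000000 (kcg_68.enc h1 h2)) (enc_mul (enc_norm (kcg_3.enc h1 h2)) (enc_norm (enc_sub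 (enc_rat _ 2858651 4000000) (kcg_73.enc h1 h2))))) (enc_mul (enc_norm (kcg_84.enc h1 h2)) (enc_norm (enc_mul (enc_norm (kcg_174.enc h1 h2)) (enc_norm (enc_subr 7 25 h1)))))))) (enc_case (kcg_195.enc h1 h2) (enc_case (enc_sub (enc_rat _ 227 1000) h1) (enc_add (enc_add (enc_subr 559947 2000000 (enc_neg (kcg_97.enc h1 h2))) (enc_mul (enc_norm (kcg_3.enc h1 h2)) (enc_norm (enc_sub (enc_rat _ 3354251 4000000) (kcg_101.enc h1 h2))))) (enc_mul (enc_norm (kcg_108.enc h1 h2)) (enc_norm (enc_mul (enc_norm (kcg_155.enc h1 h2)) (enc_norm (enc_subr 227 1000 h1)))))) (enc_add (enc_subr 2030349 20000000 (enc_neg (kcg_113.enc h1 h2))) (enc_mul (enc_norm (kcg_3.enc h1 h2)) (enc_norm (enc_sub (enc_rat _ 670941 800000) (kcg_117.enc h1 h2)))))) (enc_case (enc_sub (enc_rat _ 1 16) h1) (enc_add (enc_add (enc_subr 5329 160000 (enc_neg (kcg_126.enc h1 h2))) (enc_mul (enc_norm (kcg_3.enc h1 h2)) (enc_norm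 (enc_sub (enc_rat _ 1761 6400) (kcg_130.enc h1 h2))))) (enc_mul (enc_norm (kcg_139.enc h1 h2)) (enc_norm (enc_mul (enc_norm (kcg_195.enc h1 h2)) (enc_norm (enc_subr 1 16 h1)))))) (enc_sub (kcg_148.enc h1 h2) (kcg_144.enc h1 h2))))))))⟩
noncomputable def kf0q0_9 : Fn2 := ⟨_, _, fun h1 h2 => (enc_scale 3 2 h1)⟩
noncomputable def kf0q0_12 : Fn2 := ⟨_, _, fun h1 h2 => (enc_add (enc_pnc _ 1) (c1g.enc h1))⟩
noncomputable def kf0q0 : Fn2 := ⟨_, _, fun h1 h2 => (enc_norm (enc_add (enc_mul (enc_norm (enc_mul (enc_norm (enc_sub (c1g.enc h1) (kf0q0_9.enc h1 h2))) (enc_norm (kf0q0_12.enc h1 h2)))) (enc_inv (enc_sub (kf0q0_12.enc h1 h2) (kf0q0_9.enc h1 h2)))) (enc_mul h1 (kcg.enc (enc_norm (enc_sub (enc_scale 3 4 h1) (enc_half (c1g.enc h1)))) h2))))⟩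
noncomputable def txg_4 : Fn3 := ⟨_, _, fun h1 h2 h3 => (enc_subr 148977 200000 h3)⟩
noncomputable def txg_6 : Fn3 := ⟨_, _, fun h1 h2 h3 => (enc_add h1 (enc_half h2))⟩
noncomputable def txg_26 : Fn3 := ⟨_, _, fun h1 h2 h3 => (enc_add h1 (enc_rat _ 1 4))⟩
noncomputable def txg_29 : Fn3 := ⟨_, _, fun h1 h2 h3 => (enc_add h1 (enc_rat _ 2 5))⟩
noncomputable def txg_32 : Fn3 := ⟨_, _, fun h1 h2 h3 => (enc_add h1 (enc_rat _ 9 20))⟩
noncomputable def txg_72 : Fn3 := ⟨_, _, fun h1 h2 h3 => (enc_add h1 (enc_rat _ 7 20))⟩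
noncomputable def txg_94 : Fn3 := ⟨_, _, fun h1 h2 h3 => (enc_add h1 (enc_rat _ 3 10))⟩
noncomputable def txg_137 : Fn3 := ⟨_, _, fun h1 h2 h3 => (enc_add h1 (enc_rat _ 3 20))⟩
noncomputable def txg_140 : Fn3 := ⟨_, _, fun h1 h2 h3 => (enc_add h1 (enc_rat _ 1 5))⟩
noncomputable def txg_178 : Fn3 := ⟨_, _, fun h1 h2 h3 => (enc_add h1 (enc_rat _ 1 10))⟩
noncomputable def txg_198 : Fn3 := ⟨_, _, fun h1 h2 h3 => (enc_subr 1 10 h1)⟩
noncomputable def txg_228 : Fn3 := ⟨_, _, fun h1 h2 h3 => (enc_sq (enc_norm (txg_4.enc h1 h2 h3)))⟩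
noncomputable def txg_251 : Fn3 := ⟨_, _, fun h1 h2 h3 => (enc_subr 71 313 h1)⟩
noncomputable def txg_252 : Fn3 := ⟨_, _, fun h1 h2 h3 => (enc_subr 7 20 h1)⟩
noncomputable def txg_253 : Fn3 := ⟨_, _, fun h1 h2 h3 => (enc_subr 1 4 h1)⟩
noncomputable def txg_283 : Fn3 := ⟨_, _, fun h1 h2 h3 => (enc_subr 3 10 h1)⟩
noncomputable def txg_322 : Fn3 := ⟨_, _, fun h1 h2 h3 => (enc_subr 2 5 h1)⟩
noncomputable def txg_343 : Fn3 := ⟨_, _, fun h1 h2 h3 => (enc_subr 9 20 h1)⟩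
noncomputable def txg : Fn3 := ⟨_, _, fun h1 h2 h3 => (enc_case (enc_subr 181 1406 h1) (enc_case (txg_26.enc h1 h2 h3) (enc_case (txg_29.enc h1 h2 h3) (enc_case (txg_32.enc h1 h2 h3) (enc_add (enc_add (enc_add (enc_scale 12399 62500 h1) (enc_rat _ 12399 125000)) (enc_mul (enc_norm (txg_4.enc h1 h2 h3)) (enc_norm (enc_add (enc_scale 23593 25000 h1) (enc_rat _ 23593 50000))))) (enc_mul (enc_norm (enc_subr 71937 50000 (enc_scale 8472 625 (txg_4.enc h1 h2 h3)))) (enc_norm (enc_mul (enc_norm (enc_add h1 (enc_rat _ 1 2))) (enc_norm (enc_sub (enc_neg (enc_rat _ 9 20)) h1)))))) (enc_add (enc_add (enc_add (enc_scale 113297 500000 h1) (enc_rat _ 223773 2000000)) (enc_mul (enc_norm (txg_4.enc h1 h2 h3)) (enc_norm (enc_add (enc_scale 283 12500 h1) (enc_rat _ 28687 500000))))) (enc_mul (enc_norm (enc_add (enc_scale 24331 5000 (txg_4.enc h1 h2 h3)) (enc_rat _ 2733 3125))) (enc_norm (enc_mul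 (enc_norm (txg_32.enc h1 h2 h3)) (enc_norm (enc_sub (enc_neg (enc_rat _ 2 5)) h1))))))) (enc_case (txg_72.enc h1 h2 h3) (enc_add (enc_add (enc_add (enc_scale 18819 100000 h1) (enc_rat _ 965249 10000000)) (enc_mul (enc_norm (txg_4.enc h1 h2 h3)) (enc_norm (enc_add (enc_scale 15347 25000 h1) (enc_rat _ 29387 100000))))) (enc_mul (enc_norm (enc_subr 2661 25000 (enc_neg (enc_scale 20863 1250 (txg_4.enc h1 h2 h3))))) (enc_norm (enc_mul (enc_norm (txg_29.enc h1 h2 h3)) (enc_norm (enc_sub (enc_neg (enc_rat _ 7 20)) h1)))))) (enc_case (txg_94.enc h1 h2 h3) (enc_add (enc_add (enc_add (enc_scale 22771 100000 h1) (enc_rat _ 1103569 10000000)) (enc_mul (enc_norm (txg_4.enc h1 h2 h3)) (enc_norm (enc_add (enc_scale 5823 25000 h1) (enc_rat _ 80267 500000))))) (enc_mul (enc_norm (enc_subr 34201 50000 (enc_scale 15193 625 (txg_4.enc h1 h2 h3)))) (enc_norm (enc_mul (enc_norm (txg_72.enc h1 h2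 h3)) (enc_norm (enc_sub (enc_neg (enc_rat _ 3 10)) h1)))))) (enc_add (enc_add (enc_add (enc_scale 7311 25000 h1) (enc_rat _ 1297759 10000000)) (enc_mul (enc_norm (txg_4.enc h1 h2 h3)) (enc_norm (enc_sub (enc_rat _ 1303 100000) (enc_scale 6469 25000 h1))))) (enc_mul (enc_norm (enc_subr 1908 3125 (enc_neg (enc_scale 18093 1250 (txg_4.enc h1 h2 h3))))) (enc_norm (enc_mul (enc_norm (txg_94.enc h1 h2 h3)) (enc_norm (enc_sub (enc_neg (enc_rat _ 1 4)) h1))))))))) (enc_case (txg_137.enc h1 h2 h3) (enc_case (txg_140.enc h1 h2 h3) (enc_add (enc_add (enc_add (enc_scale 162753 500000 h1) (enc_rat _ 172553 1250000)) (enc_mul (enc_norm (txg_4.enc h1 h2 h3)) (enc_norm (enc_add (enc_scale 20731 50000 h1) (enc_rat _ 1451 8000))))) (enc_mul (enc_norm (enc_subr 1269 25000 (enc_scale 503 500 (txg_4.enc h1 h2 h3)))) (enc_norm (enc_mul (enc_norm (txg_26.enc h1 h2 h3)) (enc_norm (enc_sub (enc_neg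 (enc_rat _ 1 5)) h1)))))) (enc_add (enc_add (enc_add (enc_scale 65129 250000 h1) (enc_rat _ 312611 2500000)) (enc_mul (enc_norm (txg_4.enc h1 h2 h3)) (enc_norm (enc_sub (enc_rat _ 39011 1000000) (enc_scale 743 2500 h1))))) (enc_mul (enc_norm (enc_add (enc_scale 13231 1000 (txg_4.enc h1 h2 h3)) (enc_rat _ 8441 6250))) (enc_norm (enc_mul (enc_norm (txg_140.enc h1 h2 h3)) (enc_norm (enc_sub (enc_neg (enc_rat _ 3 20)) h1))))))) (enc_case (txg_178.enc h1 h2 h3) (enc_add (enc_add (enc_add (enc_scale 4441 20000 h1) (enc_rat _ 238549 2000000)) (enc_mul (enc_norm (txg_4.enc h1 h2 h3)) (enc_norm (enc_add (enc_scale 1919 12500 h1) (enc_rat _ 106619 1000000))))) (enc_mul (enc_norm (enc_subr 14531 25000 (enc_neg (enc_scale 222457 10000 (txg_4.enc h1 h2 h3))))) (enc_norm (enc_mul (enc_norm (txg_137.enc h1 h2 h3)) (enc_norm (enc_sub (enc_neg (enc_rat _ 1 10)) h1)))))) (enc_case (txg_198.enc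 h1 h2 h3) (enc_add (enc_add (enc_add (enc_scale 5363 40000 h1) (enc_rat _ 110477 1000000)) (enc_mul (enc_norm (txg_4.enc h1 h2 h3)) (enc_norm (enc_add (enc_scale 5369 200000 h1) (enc_rat _ 187903 2000000))))) (enc_mul (enc_norm (enc_add (enc_scale 15487 2500 (txg_4.enc h1 h2 h3)) (enc_rat _ 29259 50000))) (enc_norm (enc_mul (enc_norm (txg_178.enc h1 h2 h3)) (enc_norm (enc_sub (enc_rat _ 1 10) h1)))))) (enc_add (enc_add (enc_add (enc_add (enc_scale 300818737864574207 9983021800000000000 h1) (enc_rat _ 12066597903956425793 99830218000000000000)) (enc_mul (enc_norm (txg_4.enc h1 h2 h3)) (enc_norm (enc_sub (enc_rat _ 543988651167781863 3993208720000000000) (enc_scale 158100933301861863 399320872000000000 h1))))) (enc_mul (txg_228.enc h1 h2 h3) (enc_norm (enc_subr 798296727 28401200000 (enc_scale 798296727 2840120000 h1))))) (enc_mul (enc_norm (enc_subr 45571 100000 (enc_mul (enc_norm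 (enc_subr 284059 10000 (enc_neg (enc_scale 4891 500 (txg_4.enc h1 h2 h3))))) (enc_norm (txg_4.enc h1 h2 h3))))) (enc_norm (enc_mul (enc_norm (txg_198.enc h1 h2 h3)) (enc_norm (enc_sub (enc_rat _ 181 1406) h1)))))))))) (enc_case (txg_251.enc h1 h2 h3) (enc_sub (enc_mul (enc_norm (enc_sub (enc_pnc _ 1) h2)) (enc_norm (enc_subn 1 (enc_nat 2 h2)))) (enc_mul (enc_norm (enc_nat 2 (enc_sub (enc_scale 4 3 (txg_6.enc h1 h2 h3)) h3))) (enc_norm (enc_mul (enc_norm (enc_subn 1 (enc_add (enc_scale 2 3 (txg_6.enc h1 h2 h3)) h2))) (kcg.enc h1 h3))))) (enc_case (txg_252.enc h1 h2 h3) (enc_case (txg_253.enc h1 h2 h3) (enc_add (enc_add (enc_add (enc_sub (enc_rat _ 927278216195045643 5682202000000000000) (enc_scale 274418776304045643 1420550500000000000 h1)) (enc_mul (enc_norm (txg_4.enc h1 h2 h3)) (enc_norm (enc_sub (enc_rat _ 37779657807353813 227288080000000000) (enc_scale 16183426309993813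 56822020000000000 h1))))) (enc_mul (txg_228.enc h1 h2 h3) (enc_norm (enc_sub (enc_rat _ 6720334413 3630800000) (enc_scale 6720334413 907700000 h1))))) (enc_mul (enc_norm (enc_add (enc_mul (enc_norm (enc_sub (enc_rat _ 91899 10000) (enc_scale 63927 200 (txg_4.enc h1 h2 h3)))) (enc_norm (txg_4.enc h1 h2 h3))) (enc_rat _ 84583 50000))) (enc_norm (enc_mul (enc_norm (txg_251.enc h1 h2 h3)) (enc_norm (enc_sub (enc_rat _ 1 4) h1)))))) (enc_case (txg_283.enc h1 h2 h3) (enc_add (enc_add (enc_sub (enc_rat _ 190697 1000000) (enc_scale 151603 500000 h1)) (enc_mul (enc_norm (txg_4.enc h1 h2 h3)) (enc_norm (enc_add (enc_scale 1123 10000 h1) (enc_rat _ 33471 500000))))) (enc_mul (enc_norm (enc_sub (enc_rat _ 141691 100000) (enc_scale 12199 1000 (txg_4.enc h1 h2 h3)))) (enc_norm (enc_mul (enc_norm (txg_253.enc h1 h2 h3)) (enc_norm (enc_sub (enc_rat _ 3 10) h1)))))) (enc_add (enc_add (enc_sub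 (enc_rat _ 71593 312500) (enc_scale 53901 125000 h1)) (enc_mul (enc_norm (txg_4.enc h1 h2 h3)) (enc_norm (enc_add (enc_scale 14773 50000 h1) (enc_rat _ 5997 500000))))) (enc_mul (enc_norm (enc_add (enc_scale 21339 2500 (txg_4.enc h1 h2 h3)) (enc_rat _ 14289 12500))) (enc_norm (enc_mul (enc_norm (txg_283.enc h1 h2 h3)) (enc_norm (enc_sub (enc_rat _ 7 20) h1)))))))) (enc_case (txg_322.enc h1 h2 h3) (enc_add (enc_add (enc_sub (enc_rat _ 2623581 10000000) (enc_scale 263119 500000 h1)) (enc_mul (enc_norm (txg_4.enc h1 h2 h3)) (enc_norm (enc_sub (enc_rat _ 141949 1000000) (enc_scale 237 3125 h1))))) (enc_mul (enc_norm (enc_sub (enc_rat _ 18937 25000) (enc_scale 5549 5000 (txg_4.enc h1 h2 h3)))) (enc_norm (enc_mul (enc_norm (txg_252.enc h1 h2 h3)) (enc_norm (enc_sub (enc_rat _ 2 5) h1)))))) (enc_case (txg_343.enc h1 h2 h3) (enc_add (enc_add (enc_sub (enc_rat _ 2725653 10000000) (enc_scale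 137939 250000 h1)) (enc_mul (enc_norm (txg_4.enc h1 h2 h3)) (enc_norm (enc_sub (enc_rat _ 295757 1000000) (enc_scale 11509 25000 h1))))) (enc_mul (enc_norm (enc_subr 3089 12500 (enc_scale 44003 5000 (txg_4.enc h1 h2 h3)))) (enc_norm (enc_mul (enc_norm (txg_322.enc h1 h2 h3)) (enc_norm (enc_sub (enc_rat _ 9 20) h1)))))) (enc_add (enc_add (enc_sub (enc_rat _ 242751 1000000) (enc_scale 242751 500000 h1)) (enc_mul (enc_norm (txg_4.enc h1 h2 h3)) (enc_norm (enc_sub (enc_rat _ 17719 20000) (enc_scale 17719 10000 h1))))) (enc_mul (enc_norm (enc_subr 26949 25000 (enc_scale 1743 100 (txg_4.enc h1 h2 h3)))) (enc_norm (enc_mul (enc_norm (txg_343.enc h1 h2 h3)) (enc_norm (enc_sub (enc_rat _ 1 2) h1)))))))))))⟩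
noncomputable def l0q0 : Fn2 := ⟨_, _, fun h1 h2 => (enc_norm (txg.enc (enc_norm (enc_sub (enc_scale 3 4 h1) (enc_half (c1g.enc h1)))) (c1g.enc h1) h2))⟩
noncomputable def kc0q0_3 : Fn2 := ⟨_, _, fun h1 h2 => (enc_subr 148977 200000 h2)⟩
noncomputable def kc0q0_8 : Fn2 := ⟨_, _, fun h1 h2 => (enc_sub (enc_scale 3 4 h1) (enc_half (c1g.enc h1)))⟩
noncomputable def kc0q0 : Fn2 := ⟨_, _, fun h1 h2 => (enc_norm (enc_case (enc_add (kc0q0_8.enc h1 h2) (enc_rat _ 167 1000)) (enc_case (enc_add (kc0q0_8.enc h1 h2) (enc_rat _ 333 1000)) (enc_add (enc_add (enc_scale 9373 1670 (kc0q0_8.enc h1 h2)) (enc_rat _ 9373 3340)) (enc_mul (enc_norm (kc0q0_3.enc h1 h2)) (enc_norm (enc_subr 2277 334 (enc_neg (enc_scale 2277 167 (kc0q0_8.enc h1 h2))))))) (enc_add (enc_add (enc_scale 9317 1660 (kc0q0_8.enc h1 h2)) (enc_rat _ 4658479 1660000)) (enc_mul (enc_norm (kc0q0_3.enc h1 h2)) (enc_norm (enc_subr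 22787037 83000 (enc_neg (enc_scale 67862 83 (kc0q0_8.enc h1 h2)))))))) (enc_case (kc0q0_8.enc h1 h2) (enc_add (enc_sub (enc_rat _ 8713 5000) (enc_scale 632 835 (kc0q0_8.enc h1 h2))) (enc_mul (enc_norm (kc0q0_3.enc h1 h2)) (enc_norm (enc_add (enc_scale 142817 167 (kc0q0_8.enc h1 h2)) (enc_rat _ 602 125))))) (enc_add (enc_sub (enc_rat _ 8713 5000) (enc_scale 684501849223 905000000000 (kc0q0_8.enc h1 h2))) (enc_mul (enc_norm (kc0q0_3.enc h1 h2)) (enc_norm (enc_sub (enc_rat _ 602 125) (enc_scale 17165301486289 452500000000 (kc0q0_8.enc h1 h2)))))))))⟩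
noncomputable def kf0q1_10 : Fn2 := ⟨_, _, fun h1 h2 => (enc_scale 3 2 h1)⟩
noncomputable def kf0q1 : Fn2 := ⟨_, _, fun h1 h2 => (enc_norm (enc_add (enc_mul (enc_norm (enc_mul (enc_norm (enc_add (enc_pnc _ 1) (enc_nat 2 (c1g.enc h1)))) (enc_norm (enc_sub (kf0q1_10.enc h1 h2) (c1g.enc h1))))) (enc_inv (enc_nat 2 (enc_sub (enc_add (enc_pnc _ 1) (kf0q1_10.enc h1 h2)) (c1g.enc h1))))) (enc_mul (enc_norm (enc_subn 1 h1)) (kcg.enc (enc_norm (enc_sub (enc_scale 3 4 h1) (enc_half (c1g.enc h1)))) h2))))⟩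
noncomputable def l0q1 : Fn2 := ⟨_, _, fun h1 h2 => (enc_norm (txg.enc (enc_norm (enc_sub (enc_scale 3 4 h1) (enc_half (c1g.enc h1)))) (c1g.enc h1) h2))⟩
noncomputable def gsg : Fn1 := ⟨_, _, fun h1 => (enc_sqrt (enc_sub (enc_pnc _ 1) (enc_scale 3 4 (enc_sq h1))))⟩
noncomputable def gug : Fn1 := ⟨_, _, fun h1 => (enc_norm (enc_add (enc_scale 3 4 h1) (enc_scale 3 2 (enc_sub (enc_pnc _ 1) (gsg.enc h1)))))⟩
noncomputable def kc0q1_3 : Fn2 := ⟨_, _, fun h1 h2 => (enc_subr 148977 200000 h2)⟩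
noncomputable def kc0q1_9 : Fn2 := ⟨_, _, fun h1 h2 => (enc_sub (enc_scale 3 4 h1) (enc_half (c1g.enc h1)))⟩
noncomputable def kc0q1 : Fn2 := ⟨_, _, fun h1 h2 => (enc_norm (enc_case (enc_subr 181 1406 (kc0q1_9.enc h1 h2)) (enc_case (enc_add (kc0q1_9.enc h1 h2) (enc_rat _ 167 1000)) (enc_case (enc_add (kc0q1_9.enc h1 h2) (enc_rat _ 333 1000)) (enc_add (enc_add (enc_scale 9373 1670 (kc0q1_9.enc h1 h2)) (enc_rat _ 9373 3340)) (enc_mul (enc_norm (kc0q1_3.enc h1 h2)) (enc_norm (enc_subr 2277 334 (enc_neg (enc_scale 2277 167 (kc0q1_9.enc h1 h2))))))) (enc_add (enc_add (enc_scale 9317 1660 (kc0q1_9.enc h1 h2)) (enc_rat _ 4658479 1660000)) (enc_mul (enc_norm (kc0q1_3.enc h1 h2)) (enc_norm (enc_subr 22787037 83000 (enc_neg (enc_scale 67862 83 (kc0q1_9.enc h1 h2)))))))) (enc_case (kc0q1_9.enc h1 h2) (enc_add (enc_sub (enc_rat _ 8713 5000) (enc_scale 632 835 (kc0q1_9.enc h1 h2))) (enc_mul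 (enc_norm (kc0q1_3.enc h1 h2)) (enc_norm (enc_add (enc_scale 142817 167 (kc0q1_9.enc h1 h2)) (enc_rat _ 602 125))))) (enc_add (enc_sub (enc_rat _ 8713 5000) (enc_scale 684501849223 905000000000 (kc0q1_9.enc h1 h2))) (enc_mul (enc_norm (kc0q1_3.enc h1 h2)) (enc_norm (enc_sub (enc_rat _ 602 125) (enc_scale 17165301486289 452500000000 (kc0q1_9.enc h1 h2)))))))) (enc_case (enc_subr 71 313 (kc0q1_9.enc h1 h2)) (enc_sub (enc_add (enc_add (enc_rat _ 3 4) (enc_scale 3 2 h1)) (enc_scale 3 4 (enc_mul (enc_norm (enc_mul h1 (enc_inv (c1g.enc h1)))) (gug.enc h1)))) (enc_mul (kcg.enc (enc_norm (kc0q1_9.enc h1 h2)) h2) (enc_norm (enc_add (gug.enc h1) (enc_nat 2 (c1g.enc h1)))))) (enc_case (enc_subr 333 1000 (kc0q1_9.enc h1 h2)) (enc_add (enc_sub (enc_rat _ 1445169960751919 332290000000000) (enc_scale 3931621987243 332290000000 (kc0q1_9.enc h1 h2))) (enc_mul (enc_norm (kc0q1_3.enc h1 h2)) (enc_norm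 (enc_subr 4519329935136763 83072500000000 (enc_scale 19304062800711 83072500000 (kc0q1_9.enc h1 h2)))))) (enc_add (enc_sub (enc_rat _ 4091 3340) (enc_scale 4091 1670 (kc0q1_9.enc h1 h2))) (enc_mul (enc_norm (kc0q1_3.enc h1 h2)) (enc_norm (enc_sub (enc_rat _ 22979 334) (enc_scale 22979 167 (kc0q1_9.enc h1 h2))))))))))⟩
noncomputable def yag : Fn1 := ⟨_, _, fun h1 => (enc_sqrt (enc_scale 4 3 (enc_sub (enc_pnc _ 1) (enc_sq h1))))⟩
noncomputable def kfc02 : Fn2 := ⟨_, _, fun h1 h2 => (enc_norm (enc_add h1 (enc_mul (enc_norm (enc_subn 1 (yag.enc h1))) (kcg.enc (enc_neg h1) h2))))⟩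
noncomputable def lc02_7 : Fn2 := ⟨_, _, fun h1 h2 => (enc_scale 3 4 (yag.enc h1))⟩
noncomputable def lc02_8 : Fn2 := ⟨_, _, fun h1 h2 => (enc_half h1)⟩
noncomputable def lc02 : Fn2 := ⟨_, _, fun h1 h2 => (enc_norm (enc_sub (txg.enc (enc_neg h1) (enc_norm (enc_add (lc02_7.enc h1 h2) (lc02_8.enc h1 h2))) h2) (txg.enc h1 (enc_norm (enc_sub (lc02_7.enc h1 h2) (lc02_8.enc h1 h2))) h2)))⟩
noncomputable def kcc02 : Fn2 := ⟨_, _, fun h1 h2 => (enc_pnc _ 0)⟩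
noncomputable def swg : Fn1 := ⟨_, _, fun h1 => (enc_sqrt (enc_sub (enc_pnc _ 1) (enc_scale 3 4 (enc_sq (enc_norm (enc_subn 1 h1))))))⟩
noncomputable def cv1m : Fn1 := ⟨_, _, fun h1 => (enc_norm (enc_add (enc_scale 4 5 (c1g.enc h1)) (enc_scale 1 5 (enc_add (swg.enc h1) (enc_rat _ 1 2)))))⟩
noncomputable def bf1q0_3 : Fn2 := ⟨_, _, fun h1 h2 => (enc_subr 148977 200000 h2)⟩
noncomputable def bf1q0 : Fn2 := ⟨_, _, fun h1 h2 => (enc_norm (enc_case (enc_subr 159 1000 h1) (enc_case (enc_subr 53 500 h1) (enc_sub (enc_sub (enc_pnc _ 1) (enc_scale 315 212 h1)) (enc_mul (enc_norm (bf1q0_3.enc h1 h2)) (enc_scale 108 53 h1))) (enc_add (enc_sub (enc_rat _ 10137 10000) (enc_scale 428 265 h1)) (enc_mul (enc_norm (bf1q0_3.enc h1 h2)) (enc_norm (enc_subr 29 500 (enc_neg (enc_scale 79 53 h1))))))) (enc_case (enc_subr 149 500 h1) (enc_add (enc_sub (enc_rat _ 74793 69500) (enc_scale 2791 1390 h1))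 (enc_mul (enc_norm (bf1q0_3.enc h1 h2)) (enc_norm (enc_subr 24557 69500 (enc_scale 51 139 h1))))) (enc_add (enc_sub (enc_rat _ 273891 252500) (enc_scale 2057 1010 h1)) (enc_mul (enc_norm (bf1q0_3.enc h1 h2)) (enc_norm (enc_subr 80817 101000 (enc_scale 377 202 h1))))))))⟩
noncomputable def kf1q0 : Fn2 := ⟨_, _, fun h1 h2 => (enc_norm (enc_mul (cv1m.enc h1) (bf1q0.enc h1 h2)))⟩
noncomputable def bx1q0_3 : Fn2 := ⟨_, _, fun h1 h2 => (enc_subr 148977 200000 h2)⟩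
noncomputable def bx1q0 : Fn2 := ⟨_, _, fun h1 h2 => (enc_norm (enc_case (enc_subr 1 16 h1) (enc_add (enc_scale 31 125 h1) (enc_mul (enc_norm (bx1q0_3.enc h1 h2)) (enc_scale 104 125 h1))) (enc_case (enc_subr 159 1000 h1) (enc_add (enc_add (enc_scale 239 965 h1) (enc_rat _ 1 48250)) (enc_mul (enc_norm (bx1q0_3.enc h1 h2)) (enc_norm (enc_add (enc_scale 24 193 h1) (enc_rat _ 1067 24125))))) (enc_add (enc_add (enc_scale 593 3410 h1) (enc_rat _ 40067 3410000)) (enc_mul (enc_norm (bx1q0_3.enc h1 h2)) (enc_norm (enc_add (enc_scale 40 341 h1) (enc_rat _ 1933 42625))))))))⟩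
noncomputable def l1q0 : Fn2 := ⟨_, _, fun h1 h2 => (enc_norm (enc_mul (cv1m.enc h1) (bx1q0.enc h1 h2)))⟩
noncomputable def bd1q0_3 : Fn2 := ⟨_, _, fun h1 h2 => (enc_subr 148977 200000 h2)⟩
noncomputable def bd1q0 : Fn2 := ⟨_, _, fun h1 h2 => (enc_norm (enc_case (enc_subr 53 250 h1) (enc_sub (enc_scale 103 530 h1) (enc_mul (enc_norm (bd1q0_3.enc h1 h2)) (enc_scale 1217 212 h1))) (enc_add (enc_subr 56377 120000 (enc_scale 1157 480 h1)) (enc_mul (enc_norm (bd1q0_3.enc h1 h2)) (enc_norm (enc_sub (enc_rat _ 94417 12000) (enc_scale 2057 48 h1)))))))⟩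
noncomputable def kc1q0 : Fn2 := ⟨_, _, fun h1 h2 => (enc_norm (enc_mul (cv1m.enc h1) (bd1q0.enc h1 h2)))⟩
noncomputable def bf1q1 : Fn2 := ⟨_, _, fun h1 h2 => (enc_norm (enc_add (enc_subr 2009 2500 (enc_scale 8269 5000 h1)) (enc_mul (enc_norm (enc_subr 148977 200000 h2)) (enc_norm (enc_subr 111 125 (enc_scale 151 125 h1))))))⟩
noncomputable def kf1q1 : Fn2 := ⟨_, _, fun h1 h2 => (enc_norm (enc_mul (cv1m.enc h1) (bf1q1.enc h1 h2)))⟩
noncomputable def bx1q1_3 : Fn2 := ⟨_, _, fun h1 h2 => (enc_subr 148977 200000 h2)⟩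
noncomputable def bx1q1_11 : Fn2 := ⟨_, _, fun h1 h2 => (enc_scale 7 55 h1)⟩
noncomputable def bx1q1 : Fn2 := ⟨_, _, fun h1 h2 => (enc_norm (enc_case (enc_subr 609 1000 h1) (enc_case (enc_subr 111 200 h1) (enc_add (enc_add (enc_scale 19 110 h1) (enc_rat _ 1357 110000)) (enc_mul (enc_norm (bx1q1_3.enc h1 h2)) (enc_norm (enc_add (bx1q1_11.enc h1 h2) (enc_rat _ 111 2750))))) (enc_add (enc_add (enc_scale 47 270 h1) (enc_rat _ 1043 90000)) (enc_mul (enc_norm (bx1q1_3.enc h1 h2)) (enc_norm (enc_add (enc_scale 1 9 h1) (enc_rat _ 37 750)))))) (enc_case (enc_subr 83 125 h1) (enc_add (enc_add (enc_scale 29 550 h1) (enc_rat _ 47019 550000)) (enc_mul (enc_norm (bx1q1_3.enc h1 h2)) (enc_norm (enc_add (bx1q1_11.enc h1 h2) (enc_rat _ 543 13750))))) (enc_add (enc_add (enc_scale 59 1120 h1) (enc_rat _ 11973 140000)) (enc_mul (enc_norm (bx1q1_3.enc h1 h2)) (enc_norm (enc_sub (enc_rat _ 26041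 42000) (enc_scale 251 336 h1))))))))⟩
noncomputable def l1q1 : Fn2 := ⟨_, _, fun h1 h2 => (enc_norm (enc_mul (cv1m.enc h1) (bx1q1.enc h1 h2)))⟩
noncomputable def bd1q1 : Fn2 := ⟨_, _, fun h1 h2 => (enc_norm (enc_add (enc_subr 10473 10000 (enc_scale 17827 5000 h1)) (enc_mul (enc_norm (enc_subr 148977 200000 h2)) (enc_norm (enc_subr 17883 500 (enc_scale 22207 500 h1))))))⟩
noncomputable def kc1q1 : Fn2 := ⟨_, _, fun h1 h2 => (enc_norm (enc_mul (cv1m.enc h1) (bd1q1.enc h1 h2)))⟩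
noncomputable def xc12a : Fn1 := ⟨_, _, fun h1 => (enc_norm (enc_add (enc_scale 4 5 h1) (enc_scale 1 5 (enc_subr 1 2 (swg.enc (yag.enc h1))))))⟩
noncomputable def bf1q2_3 : Fn2 := ⟨_, _, fun h1 h2 => (enc_subr 148977 200000 h2)⟩
noncomputable def bf1q2 : Fn2 := ⟨_, _, fun h1 h2 => (enc_norm (enc_case (enc_subr 277 250 h1) (enc_case (enc_subr 17 16 h1) (enc_add (enc_sub (enc_rat _ 1421 625) (enc_scale 796 625 h1)) (enc_mul (enc_norm (bf1q2_3.enc h1 h2)) (enc_norm (enc_sub (enc_rat _ 524 125) (enc_scale 524 125 h1))))) (enc_add (enc_sub (enc_rat _ 521277 130000) (enc_scale 189 65 h1)) (enc_mul (enc_norm (bf1q2_3.enc h1 h2)) (enc_norm (enc_sub (enc_rat _ 382033 91000) (enc_scale 382 91 h1)))))) (enc_case (enc_subr 577 500 h1) (enc_add (enc_sub (enc_rat _ 295745079 57500000) (enc_scale 904077 230000 h1)) (enc_mul (enc_norm (bf1q2_3.enc h1 h2)) (enc_norm (enc_subr 27395399 1437500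 (enc_scale 193099 11500 h1))))) (enc_case (enc_subr 231 200 h1) (enc_add (enc_sub (enc_rat _ 35501 10000) (enc_scale 25501 10000 h1)) (enc_mul (enc_norm (bf1q2_3.enc h1 h2)) (enc_norm (enc_subr 1037 500 (enc_scale 1037 500 h1))))) (enc_add (enc_sub (enc_rat _ 87581 18400) (enc_scale 827423 230000 h1)) (enc_mul (enc_norm (bf1q2_3.enc h1 h2)) (enc_norm (enc_subr 1512473 23000 (enc_scale 657951 11500 h1)))))))))⟩
noncomputable def kfc12a : Fn2 := ⟨_, _, fun h1 h2 => (enc_norm (enc_mul (enc_norm (enc_add (enc_scale 4 5 h1) (enc_scale 1 5 (enc_subr 1 2 (swg.enc (yag.enc h1)))))) (bf1q2.enc (yag.enc h1) h2)))⟩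
noncomputable def bx1q2_3 : Fn2 := ⟨_, _, fun h1 h2 => (enc_subr 148977 200000 h2)⟩
noncomputable def bx1q2 : Fn2 := ⟨_, _, fun h1 h2 => (enc_norm (enc_case (enc_subr 577 500 h1) (enc_case (enc_subr 17 16 h1) (enc_add (enc_sub (enc_rat _ 507 625) (enc_scale 507 625 h1)) (enc_mul (enc_norm (bx1q2_3.enc h1 h2)) (enc_norm (enc_sub (enc_rat _ 276 125) (enc_scale 276 125 h1))))) (enc_case (enc_subr 277 250 h1) (enc_add (enc_sub (enc_rat _ 2406113 910000) (enc_scale 1154 455 h1)) (enc_mul (enc_norm (bx1q2_3.enc h1 h2)) (enc_norm (enc_subr 53029 45500 (enc_scale 88 91 h1))))) (enc_add (enc_sub (enc_rat _ 263577 115000) (enc_scale 2041 920 h1)) (enc_mul (enc_norm (bx1q2_3.enc h1 h2)) (enc_norm (enc_subr 1224687 1150000 (enc_scale 4031 4600 h1))))))) (enc_case (enc_subr 231 200 h1) (enc_sub (enc_neg (enc_rat _ 5363 20000)) (enc_scale 5369 100000 (bx1q2_3.enc h1 h2))) (enc_case (enc_subr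 1213 1000 h1) (enc_add (enc_subr 2294189 1160000 (enc_scale 1717 1160 h1)) (enc_mul (enc_norm (bx1q2_3.enc h1 h2)) (enc_norm (enc_subr 391097 5800000 (enc_scale 69 5800 h1))))) (enc_add (enc_subr 405517 205000 (enc_scale 607 410 h1)) (enc_mul (enc_norm (bx1q2_3.enc h1 h2)) (enc_norm (enc_subr 63207 57400 (enc_scale 248 287 h1)))))))))⟩
noncomputable def lc12a : Fn2 := ⟨_, _, fun h1 h2 => (enc_norm (enc_mul (enc_norm (enc_add (enc_scale 4 5 h1) (enc_scale 1 5 (enc_subr 1 2 (swg.enc (yag.enc h1)))))) (bx1q2.enc (yag.enc h1) h2)))⟩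
noncomputable def bd1q2 : Fn2 := ⟨_, _, fun h1 h2 => (enc_norm (enc_case (enc_subr 577 500 h1) (enc_pnc _ 0) (enc_case (enc_subr 231 200 h1) (enc_pnc _ 0) (enc_add (enc_subr 2758371 230000 (enc_scale 11941 1150 h1)) (enc_mul (enc_norm (enc_subr 148977 200000 h2)) (enc_norm (enc_sub (enc_rat _ 11473 11500) (enc_scale 298 345 h1))))))))⟩
noncomputable def kcc12a : Fn2 := ⟨_, _, fun h1 h2 => (enc_norm (enc_mul (enc_norm (enc_add (enc_scale 4 5 h1) (enc_scale 1 5 (enc_subr 1 2 (swg.enc (yag.enc h1)))))) (bd1q2.enc (yag.enc h1) h2)))⟩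
noncomputable def xc12b : Fn1 := ⟨_, _, fun h1 => (enc_norm (enc_scale 1 5 (enc_subr 1 2 (swg.enc h1))))⟩
noncomputable def kfc12b : Fn2 := ⟨_, _, fun h1 h2 => (enc_norm (enc_mul (enc_norm (enc_scale 1 5 (enc_subr 1 2 (swg.enc h1)))) (bf1q2.enc h1 h2)))⟩
noncomputable def lc12b : Fn2 := ⟨_, _, fun h1 h2 => (enc_norm (enc_mul (enc_norm (enc_scale 1 5 (enc_subr 1 2 (swg.enc h1)))) (bx1q2.enc h1 h2)))⟩
noncomputable def kcc12b : Fn2 := ⟨_, _, fun h1 h2 => (enc_norm (enc_mul (enc_norm (enc_scale 1 5 (enc_subr 1 2 (swg.enc h1)))) (bd1q2.enc h1 h2)))⟩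
noncomputable def cv1r : Fn1 := ⟨_, _, fun h1 => (enc_norm (enc_scale 1 5 (enc_subr 1 2 (swg.enc h1))))⟩
noncomputable def c3g : Fn1 := ⟨_, _, fun h1 => (enc_sqrtg (enc_sub (enc_pnc _ 3) (enc_scale 3 4 (enc_sq h1))))⟩
noncomputable def kf1q3_4 : Fn2 := ⟨_, _, fun h1 h2 => (enc_subr 148977 200000 h2)⟩
noncomputable def kf1q3 : Fn2 := ⟨_, _, fun h1 h2 => (enc_norm (enc_mul (cv1r.enc h1) (enc_norm (enc_case (enc_subr 851 500 h1) (enc_add (enc_subr 1226143 505000 (enc_scale 3009 2020 h1)) (enc_mul (enc_norm (kf1q3_4.enc h1 h2)) (enc_norm (enc_subr 658923 5050 (enc_scale 7509 101 h1))))) (enc_case (enc_subr 447 250 h1) (enc_add (enc_subr 1043141 430000 (enc_scale 64 43 h1)) (enc_mul (enc_norm (kf1q3_4.enc h1 h2)) (enc_norm (enc_subr 28054 215 (enc_scale 3197 43 h1))))) (enc_add (enc_subr 227 5000 (enc_scale 280700000 776074739 (c3g.enc h1))) (enc_mul (enc_norm (kf1q3_4.enc h1 h2))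 (enc_norm (enc_subr 2961 100 (enc_scale 32062000000 776074739 (c3g.enc h1)))))))))))⟩
noncomputable def l1q3_4 : Fn2 := ⟨_, _, fun h1 h2 => (enc_subr 148977 200000 h2)⟩
noncomputable def l1q3 : Fn2 := ⟨_, _, fun h1 h2 => (enc_norm (enc_mul (cv1r.enc h1) (enc_norm (enc_case (enc_subr 851 500 h1) (enc_add (enc_subr 998737 505000 (enc_scale 299 202 h1)) (enc_mul (enc_norm (l1q3_4.enc h1 h2)) (enc_norm (enc_subr 22161 20200 (enc_scale 87 101 h1))))) (enc_case (enc_subr 447 250 h1) (enc_add (enc_subr 170087 86000 (enc_scale 1273 860 h1)) (enc_mul (enc_norm (l1q3_4.enc h1 h2)) (enc_norm (enc_subr 23979 21500 (enc_scale 75 86 h1))))) (enc_add (enc_sub (enc_rat _ 3631 5000) (enc_scale 57300000 776074739 (c3g.enc h1))) (enc_mul (enc_norm (l1q3_4.enc h1 h2)) (enc_norm (enc_sub (enc_rat _ 4797 500) (enc_scale 9150000000 776074739 (c3g.enc h1)))))))))))⟩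
noncomputable def kc1q3_4 : Fn2 := ⟨_, _, fun h1 h2 => (enc_subr 148977 200000 h2)⟩
noncomputable def kc1q3 : Fn2 := ⟨_, _, fun h1 h2 => (enc_norm (enc_mul (cv1r.enc h1) (enc_norm (enc_case (enc_subr 851 500 h1) (enc_add (enc_subr 12113127 1010000 (enc_scale 4195 404 h1)) (enc_mul (enc_norm (kc1q3_4.enc h1 h2)) (enc_norm (enc_sub (enc_rat _ 50201 50500) (enc_scale 87 101 h1))))) (enc_case (enc_subr 447 250 h1) (enc_add (enc_subr 1289279 107500 (enc_scale 893 86 h1)) (enc_mul (enc_norm (kc1q3_4.enc h1 h2)) (enc_norm (enc_sub (enc_rat _ 43529 43000) (enc_scale 75 86 h1))))) (enc_add (enc_subr 241 250 (enc_scale 7536800000 776074739 (c3g.enc h1))) (enc_mul (enc_norm (kc1q3_4.enc h1 h2)) (enc_norm (enc_sub (enc_rat _ 21391 250) (enc_scale 86111000000 776074739 (c3g.enc h1)))))))))))⟩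
noncomputable def cv2m : Fn1 := ⟨_, _, fun h1 => (enc_norm (enc_add (enc_half (c1g.enc h1)) (enc_half (enc_add (swg.enc h1) (enc_rat _ 1 2)))))⟩
noncomputable def bf2q0_3 : Fn2 := ⟨_, _, fun h1 h2 => (enc_subr 148977 200000 h2)⟩
noncomputable def bf2q0 : Fn2 := ⟨_, _, fun h1 h2 => (enc_norm (enc_case (enc_subr 159 1000 h1) (enc_sub (enc_sub (enc_pnc _ 1) (enc_scale 1013 530 h1)) (enc_mul (enc_norm (bf2q0_3.enc h1 h2)) (enc_scale 340 159 h1))) (enc_add (enc_sub (enc_rat _ 3608813 3410000) (enc_scale 3884 1705 h1)) (enc_mul (enc_norm (bf2q0_3.enc h1 h2)) (enc_norm (enc_subr 97243 170500 (enc_scale 494 341 h1)))))))⟩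
noncomputable def kf2q0 : Fn2 := ⟨_, _, fun h1 h2 => (enc_norm (enc_mul (cv2m.enc h1) (bf2q0.enc h1 h2)))⟩
noncomputable def bx2q0_3 : Fn2 := ⟨_, _, fun h1 h2 => (enc_subr 148977 200000 h2)⟩
noncomputable def bx2q0 : Fn2 := ⟨_, _, fun h1 h2 => (enc_norm (enc_case (enc_subr 159 1000 h1) (enc_case (enc_subr 1 16 h1) (enc_add (enc_scale 243 625 h1) (enc_mul (enc_norm (bx2q0_3.enc h1 h2)) (enc_scale 144 125 h1))) (enc_add (enc_add (enc_scale 361 965 h1) (enc_rat _ 887 965000)) (enc_mul (enc_norm (bx2q0_3.enc h1 h2)) (enc_norm (enc_add (enc_scale 18 193 h1) (enc_rat _ 12771 193000)))))) (enc_case (enc_subr 53 250 h1) (enc_add (enc_add (enc_scale 61 530 h1) (enc_rat _ 421 10000)) (enc_mul (enc_norm (bx2q0_3.enc h1 h2)) (enc_norm (enc_sub (enc_rat _ 24 125) (enc_scale 37 53 h1))))) (enc_add (enc_add (enc_scale 5 96 h1) (enc_rat _ 1331 24000)) (enc_mul (enc_norm (bx2q0_3.enc h1 h2))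 (enc_norm (enc_add (enc_scale 7 48 h1) (enc_rat _ 157 12000))))))))⟩
noncomputable def l2q0 : Fn2 := ⟨_, _, fun h1 h2 => (enc_norm (enc_mul (cv2m.enc h1) (bx2q0.enc h1 h2)))⟩
noncomputable def bd2q0_3 : Fn2 := ⟨_, _, fun h1 h2 => (enc_subr 148977 200000 h2)⟩
noncomputable def bd2q0 : Fn2 := ⟨_, _, fun h1 h2 => (enc_norm (enc_case (enc_subr 149 500 h1) (enc_sub (enc_mul (enc_norm (bd2q0_3.enc h1 h2)) (enc_scale 159 149 h1)) (enc_scale 14233 2980 h1)) (enc_add (enc_subr 546707 202000 (enc_scale 4349 1010 h1)) (enc_mul (enc_norm (bd2q0_3.enc h1 h2)) (enc_norm (enc_sub (enc_rat _ 112429 101000) (enc_scale 539 202 h1)))))))⟩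
noncomputable def kc2q0 : Fn2 := ⟨_, _, fun h1 h2 => (enc_norm (enc_mul (cv2m.enc h1) (bd2q0.enc h1 h2)))⟩
noncomputable def bf2q1 : Fn2 := ⟨_, _, fun h1 h2 => (enc_norm (enc_add (enc_subr 1097 2500 (enc_scale 6627 5000 h1)) (enc_mul (enc_norm (enc_subr 148977 200000 h2)) (enc_norm (enc_subr 1899 1000 (enc_scale 1321 500 h1))))))⟩
noncomputable def kf2q1 : Fn2 := ⟨_, _, fun h1 h2 => (enc_norm (enc_mul (cv2m.enc h1) (bf2q1.enc h1 h2)))⟩
noncomputable def bx2q1_3 : Fn2 := ⟨_, _, fun h1 h2 => (enc_subr 148977 200000 h2)⟩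
noncomputable def bx2q1_19 : Fn2 := ⟨_, _, fun h1 h2 => (enc_scale 8 55 h1)⟩
noncomputable def bx2q1 : Fn2 := ⟨_, _, fun h1 h2 => (enc_norm (enc_case (enc_subr 719 1000 h1) (enc_case (enc_subr 83 125 h1) (enc_add (enc_add (enc_scale 17 328 h1) (enc_rat _ 2279 41000)) (enc_mul (enc_norm (bx2q1_3.enc h1 h2)) (enc_norm (enc_add (enc_scale 23 164 h1) (enc_rat _ 651 41000))))) (enc_add (enc_add (enc_scale 2 55 h1) (enc_rat _ 1811 27500)) (enc_mul (enc_norm (bx2q1_3.enc h1 h2)) (enc_norm (enc_add (bx2q1_19.enc h1 h2) (enc_rat _ 683 55000)))))) (enc_case (enc_subr 773 1000 h1) (enc_add (enc_sub (enc_rat _ 126613 540000) (enc_scale 107 540 h1)) (enc_mul (enc_norm (bx2q1_3.enc h1 h2)) (enc_norm (enc_add (enc_scale 4 27 h1) (enc_rat _ 283 27000))))) (enc_case (enc_subr 207 250 h1) (enc_add (enc_sub (enc_rat _ 154481 550000) (enc_scale 71 275 h1)) (enc_mul (enc_norm (bx2q1_3.enc h1 h2))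 (enc_norm (enc_add (bx2q1_19.enc h1 h2) (enc_rat _ 691 55000))))) (enc_add (enc_sub (enc_rat _ 14291 43000) (enc_scale 551 1720 h1)) (enc_mul (enc_norm (bx2q1_3.enc h1 h2)) (enc_norm (enc_add (enc_scale 6 43 h1) (enc_rat _ 751 43000)))))))))⟩
noncomputable def l2q1 : Fn2 := ⟨_, _, fun h1 h2 => (enc_norm (enc_mul (cv2m.enc h1) (bx2q1.enc h1 h2)))⟩
noncomputable def bd2q1 : Fn2 := ⟨_, _, fun h1 h2 => (enc_norm (enc_add (enc_subr 13533 5000 (enc_scale 21531 5000 h1)) (enc_mul (enc_norm (enc_subr 148977 200000 h2)) (enc_norm (enc_sub (enc_rat _ 139 125) (enc_scale 1333 500 h1))))))⟩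
noncomputable def kc2q1 : Fn2 := ⟨_, _, fun h1 h2 => (enc_norm (enc_mul (cv2m.enc h1) (bd2q1.enc h1 h2)))⟩
noncomputable def xc22a : Fn1 := ⟨_, _, fun h1 => (enc_norm (enc_add (enc_half h1) (enc_half (enc_subr 1 2 (swg.enc (yag.enc h1))))))⟩
noncomputable def bf2q2_3 : Fn2 := ⟨_, _, fun h1 h2 => (enc_subr 148977 200000 h2)⟩
noncomputable def bf2q2 : Fn2 := ⟨_, _, fun h1 h2 => (enc_norm (enc_case (enc_subr 277 250 h1) (enc_case (enc_subr 17 16 h1) (enc_add (enc_sub (enc_rat _ 1402 625) (enc_scale 777 625 h1)) (enc_mul (enc_norm (bf2q2_3.enc h1 h2)) (enc_norm (enc_sub (enc_rat _ 1692 125) (enc_scale 1692 125 h1))))) (enc_add (enc_sub (enc_rat _ 4502793 910000) (enc_scale 1724 455 h1)) (enc_mul (enc_norm (bf2q2_3.enc h1 h2)) (enc_norm (enc_sub (enc_rat _ 88001 6500) (enc_scale 176 13 h1)))))) (enc_case (enc_subr 231 200 h1) (enc_add (enc_sub (enc_rat _ 2571777 470000) (enc_scale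 2003 470 h1)) (enc_mul (enc_norm (bf2q2_3.enc h1 h2)) (enc_norm (enc_subr 1455367 23500 (enc_scale 2565 47 h1))))) (enc_add (enc_sub (enc_rat _ 103239 23000) (enc_scale 1961 575 h1)) (enc_mul (enc_norm (bf2q2_3.enc h1 h2)) (enc_norm (enc_subr 356039 5750 (enc_scale 1255 23 h1))))))))⟩
noncomputable def kfc22a : Fn2 := ⟨_, _, fun h1 h2 => (enc_norm (enc_mul (enc_norm (enc_add (enc_half h1) (enc_half (enc_subr 1 2 (swg.enc (yag.enc h1)))))) (bf2q2.enc (yag.enc h1) h2)))⟩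
noncomputable def bx2q2_3 : Fn2 := ⟨_, _, fun h1 h2 => (enc_subr 148977 200000 h2)⟩
noncomputable def bx2q2 : Fn2 := ⟨_, _, fun h1 h2 => (enc_norm (enc_case (enc_subr 277 250 h1) (enc_case (enc_subr 17 16 h1) (enc_add (enc_sub (enc_rat _ 62 125) (enc_scale 62 125 h1)) (enc_mul (enc_norm (bx2q2_3.enc h1 h2)) (enc_norm (enc_sub (enc_rat _ 566 125) (enc_scale 566 125 h1))))) (enc_add (enc_sub (enc_rat _ 28127 45500) (enc_scale 278 455 h1)) (enc_mul (enc_norm (bx2q2_3.enc h1 h2)) (enc_norm (enc_sub (enc_rat _ 207061 45500) (enc_scale 414 91 h1)))))) (enc_case (enc_subr 231 200 h1) (enc_add (enc_sub (enc_rat _ 200833 58750) (enc_scale 295 94 h1)) (enc_mul (enc_norm (bx2q2_3.enc h1 h2)) (enc_norm (enc_subr 256937 23500 (enc_scale 443 47 h1))))) (enc_case (enc_subr 166 125 h1) (enc_add (enc_subr 3052669 1730000 (enc_scale 1167 865 h1)) (enc_mul (enc_norm (bx2q2_3.enc h1 h2)) (enc_norm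 (enc_sub (enc_rat _ 1285469 173000) (enc_scale 1120 173 h1))))) (enc_add (enc_subr 758587 430000 (enc_scale 58 43 h1)) (enc_mul (enc_norm (bx2q2_3.enc h1 h2)) (enc_norm (enc_subr 773941 43000 (enc_scale 545 43 h1)))))))))⟩
noncomputable def lc22a : Fn2 := ⟨_, _, fun h1 h2 => (enc_norm (enc_mul (enc_norm (enc_add (enc_half h1) (enc_half (enc_subr 1 2 (swg.enc (yag.enc h1)))))) (bx2q2.enc (yag.enc h1) h2)))⟩
noncomputable def bd2q2_3 : Fn2 := ⟨_, _, fun h1 h2 => (enc_subr 148977 200000 h2)⟩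
noncomputable def bd2q2 : Fn2 := ⟨_, _, fun h1 h2 => (enc_norm (enc_case (enc_subr 231 200 h1) (enc_add (enc_subr 239 1550 (enc_scale 239 1550 h1)) (enc_mul (enc_norm (bd2q2_3.enc h1 h2)) (enc_norm (enc_subr 1 31 (enc_scale 1 31 h1))))) (enc_add (enc_subr 136019 11500 (enc_scale 35401 3450 h1)) (enc_mul (enc_norm (bd2q2_3.enc h1 h2)) (enc_norm (enc_subr 501 23000 (enc_scale 8 345 h1)))))))⟩
noncomputable def kcc22a : Fn2 := ⟨_, _, fun h1 h2 => (enc_norm (enc_mul (enc_norm (enc_add (enc_half h1) (enc_half (enc_subr 1 2 (swg.enc (yag.enc h1)))))) (bd2q2.enc (yag.enc h1) h2)))⟩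
noncomputable def xc22b : Fn1 := ⟨_, _, fun h1 => (enc_norm (enc_half (enc_subr 1 2 (swg.enc h1))))⟩
noncomputable def kfc22b : Fn2 := ⟨_, _, fun h1 h2 => (enc_norm (enc_mul (enc_norm (enc_half (enc_subr 1 2 (swg.enc h1)))) (bf2q2.enc h1 h2)))⟩
noncomputable def lc22b : Fn2 := ⟨_, _, fun h1 h2 => (enc_norm (enc_mul (enc_norm (enc_half (enc_subr 1 2 (swg.enc h1)))) (bx2q2.enc h1 h2)))⟩
noncomputable def kcc22b : Fn2 := ⟨_, _, fun h1 h2 => (enc_norm (enc_mul (enc_norm (enc_half (enc_subr 1 2 (swg.enc h1)))) (bd2q2.enc h1 h2)))⟩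
noncomputable def cv2r : Fn1 := ⟨_, _, fun h1 => (enc_norm (enc_half (enc_subr 1 2 (swg.enc h1))))⟩
noncomputable def kf2q3_4 : Fn2 := ⟨_, _, fun h1 h2 => (enc_subr 148977 200000 h2)⟩
noncomputable def kf2q3 : Fn2 := ⟨_, _, fun h1 h2 => (enc_norm (enc_mul (cv2r.enc h1) (enc_norm (enc_case (enc_subr 851 500 h1) (enc_add (enc_subr 1226143 505000 (enc_scale 3009 2020 h1)) (enc_mul (enc_norm (kf2q3_4.enc h1 h2)) (enc_norm (enc_subr 658923 5050 (enc_scale 7509 101 h1))))) (enc_case (enc_subr 447 250 h1) (enc_add (enc_subr 1043141 430000 (enc_scale 64 43 h1)) (enc_mul (enc_norm (kf2q3_4.enc h1 h2)) (enc_norm (enc_subr 28054 215 (enc_scale 3197 43 h1))))) (enc_add (enc_subr 227 5000 (enc_scale 280700000 776074739 (c3g.enc h1))) (enc_mul (enc_norm (kf2q3_4.enc h1 h2)) (enc_norm (enc_subr 29609 1000 (enc_scale 32061000000 776074739 (c3g.enc h1)))))))))))⟩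
noncomputable def l2q3_4 : Fn2 := ⟨_, _, fun h1 h2 => (enc_subr 148977 200000 h2)⟩
noncomputable def l2q3 : Fn2 := ⟨_, _, fun h1 h2 => (enc_norm (enc_mul (cv2r.enc h1) (enc_norm (enc_case (enc_subr 851 500 h1) (enc_add (enc_subr 1814309 1010000 (enc_scale 692 505 h1)) (enc_mul (enc_norm (l2q3_4.enc h1 h2)) (enc_norm (enc_sub (enc_rat _ 467563 101000) (enc_scale 487 202 h1))))) (enc_case (enc_subr 447 250 h1) (enc_add (enc_subr 193223 107500 (enc_scale 1179 860 h1)) (enc_mul (enc_norm (l2q3_4.enc h1 h2)) (enc_norm (enc_sub (enc_rat _ 7951 1720) (enc_scale 207 86 h1))))) (enc_add (enc_sub (enc_rat _ 7411 10000) (enc_scale 87300000 776074739 (c3g.enc h1))) (enc_mul (enc_norm (l2q3_4.enc h1 h2)) (enc_norm (enc_sub (enc_rat _ 2429 250) (enc_scale 9397000000 776074739 (c3g.enc h1)))))))))))⟩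
noncomputable def kc2q3_4 : Fn2 := ⟨_, _, fun h1 h2 => (enc_subr 148977 200000 h2)⟩
noncomputable def kc2q3 : Fn2 := ⟨_, _, fun h1 h2 => (enc_norm (enc_mul (cv2r.enc h1) (enc_norm (enc_case (enc_subr 851 500 h1) (enc_add (enc_subr 615843 50500 (enc_scale 10611 1010 h1)) (enc_mul (enc_norm (kc2q3_4.enc h1 h2)) (enc_norm (enc_sub (enc_rat _ 1065563 101000) (enc_scale 1419 202 h1))))) (enc_case (enc_subr 447 250 h1) (enc_add (enc_subr 5243719 430000 (enc_scale 1807 172 h1)) (enc_mul (enc_norm (kc2q3_4.enc h1 h2)) (enc_norm (enc_sub (enc_rat _ 454397 43000) (enc_scale 605 86 h1))))) (enc_add (enc_subr 5291 5000 (enc_scale 7647900000 776074739 (c3g.enc h1))) (enc_mul (enc_norm (kc2q3_4.enc h1 h2)) (enc_norm (enc_sub (enc_rat _ 9373 100) (enc_scale 95741000000 776074739 (c3g.enc h1)))))))))))⟩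
noncomputable def cv3m : Fn1 := ⟨_, _, fun h1 => (enc_norm (enc_add (enc_scale 4 5 (enc_add (swg.enc h1) (enc_rat _ 1 2))) (enc_scale 1 5 (c3g.enc h1))))⟩
noncomputable def esg : Fn1 := ⟨_, _, fun h1 => (enc_norm (enc_subn 1 (enc_add (enc_half h1) (gsg.enc h1))))⟩
noncomputable def kf3q0_4 : Fn2 := ⟨_, _, fun h1 h2 => (enc_subr 148977 200000 h2)⟩
noncomputable def kf3q0_42 : Fn2 := ⟨_, _, fun h1 h2 => (enc_sub (enc_pnc _ 1) h1)⟩
noncomputable def kf3q0_43 : Fn2 := ⟨_, _, fun h1 h2 => (gsg.enc (enc_norm (kf3q0_42.enc h1 h2)))⟩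
noncomputable def kf3q0_46 : Fn2 := ⟨_, _, fun h1 h2 => (enc_sub (enc_scale 3 4 (kf3q0_42.enc h1 h2)) (enc_half (kf3q0_43.enc h1 h2)))⟩
noncomputable def kf3q0_64 : Fn2 := ⟨_, _, fun h1 h2 => (enc_mul (cv2m.enc h1) (bf2q0.enc h1 h2))⟩
noncomputable def kf3q0 : Fn2 := ⟨_, _, fun h1 h2 => (enc_norm (enc_case (enc_subr 53 250 h1) (enc_mul (cv3m.enc h1) (enc_norm (enc_case (enc_subr 159 1000 h1) (enc_add (enc_sub (enc_rat _ 863 1000) (enc_scale 3739 1590 h1)) (enc_mul (enc_norm (kf3q0_4.enc h1 h2)) (enc_norm (enc_subr 339 1000 (enc_scale 7 159 h1))))) (enc_add (enc_sub (enc_rat _ 2157384001 2500000000) (enc_scale 311544667 132500000 h1)) (enc_mul (enc_norm (kf3q0_4.enc h1 h2)) (enc_norm (enc_subr 1266584471 1000000000 (enc_scale 311528157 53000000 h1)))))))) (enc_case (enc_subr 149 500 h1) (enc_add (kf3q0_64.enc h1 h2) (enc_mul (enc_norm (enc_mul (enc_norm (enc_sub (enc_mul h1 (enc_norm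 (enc_sub (enc_mul (enc_norm (enc_sub (kf3q0_46.enc h1 h2) (enc_sub (enc_rat _ 1 4) (enc_scale 3 8 (enc_mul (enc_norm (kf3q0_42.enc h1 h2)) (enc_inv (kf3q0_43.enc h1 h2))))))) (enc_inv (esg.enc (enc_norm (kf3q0_42.enc h1 h2))))) (kcg.enc (enc_norm (kf3q0_46.enc h1 h2)) h2)))) (kf3q0_64.enc h1 h2))) (enc_norm (enc_sub (cv3m.enc h1) (cv2m.enc h1))))) (enc_inv (enc_sub (enc_add (swg.enc h1) (enc_rat _ 1 2)) (cv2m.enc h1))))) (enc_mul (cv3m.enc h1) (enc_norm (enc_add (enc_sub (enc_rat _ 4368974261 4040000000) (enc_scale 5833878261 2020000000 h1)) (enc_mul (enc_norm (kf3q0_4.enc h1 h2)) (enc_norm (enc_subr 14402379 101000000 (enc_scale 32178379 50500000 h1))))))))))⟩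
noncomputable def qsg : Fn1 := ⟨_, _, fun h1 => (enc_norm (enc_mul (enc_norm (enc_sub (enc_pnc _ 1) (gsg.enc h1))) (enc_norm (enc_subn 1 (enc_nat 2 (gsg.enc h1))))))⟩
noncomputable def l3q0_4 : Fn2 := ⟨_, _, fun h1 h2 => (enc_subr 148977 200000 h2)⟩
noncomputable def l3q0_40 : Fn2 := ⟨_, _, fun h1 h2 => (enc_sq (enc_norm (l3q0_4.enc h1 h2)))⟩
noncomputable def l3q0_78 : Fn2 := ⟨_, _, fun h1 h2 => (enc_sub (enc_pnc _ 1) h1)⟩
noncomputable def l3q0_93 : Fn2 := ⟨_, _, fun h1 h2 => (enc_mul (cv2m.enc h1) (bx2q0.enc h1 h2))⟩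
noncomputable def l3q0 : Fn2 := ⟨_, _, fun h1 h2 => (enc_norm (enc_case (enc_subr 53 250 h1) (enc_mul (cv3m.enc h1) (enc_norm (enc_case (enc_subr 53 500 h1) (enc_add (enc_add (enc_scale 31 106 h1) (enc_rat _ 159 2000)) (enc_mul (enc_norm (l3q0_4.enc h1 h2)) (enc_norm (enc_sub (enc_rat _ 191 1000) (enc_scale 49 106 h1))))) (enc_case (enc_subr 159 1000 h1) (enc_add (enc_add (enc_scale 28 265 h1) (enc_rat _ 993 10000)) (enc_mul (enc_norm (l3q0_4.enc h1 h2)) (enc_norm (enc_sub (enc_rat _ 24 125) (enc_scale 25 53 h1))))) (enc_add (enc_add (enc_add (enc_scale 12645543 530000000 h1) (enc_rat _ 1123063371 10000000000)) (enc_mul (enc_norm (l3q0_4.enc h1 h2)) (enc_norm (enc_sub (enc_rat _ 5745807 40000000) (enc_scale 355269 2120000 h1))))) (enc_mul (l3q0_40.enc h1 h2) (enc_norm (enc_subr 343431 500000 (enc_scale 114477 26500 h1))))))))) (enc_case (enc_subr 149 500 h1) (enc_add (l3q0_93.enc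 h1 h2) (enc_mul (enc_norm (enc_mul (enc_norm (enc_sub (enc_sub (qsg.enc (enc_norm (l3q0_78.enc h1 h2))) (enc_mul (enc_norm (enc_nat 2 (enc_sub (l3q0_78.enc h1 h2) h2))) (enc_norm (enc_mul (esg.enc (enc_norm (l3q0_78.enc h1 h2))) (kcg.enc (enc_norm (enc_sub (enc_scale 3 4 (l3q0_78.enc h1 h2)) (enc_half (gsg.enc (enc_norm (l3q0_78.enc h1 h2)))))) h2))))) (l3q0_93.enc h1 h2))) (enc_norm (enc_sub (cv3m.enc h1) (cv2m.enc h1))))) (enc_inv (enc_sub (enc_add (swg.enc h1) (enc_rat _ 1 2)) (cv2m.enc h1))))) (enc_mul (cv3m.enc h1) (enc_norm (enc_case (enc_subr 181 500 h1) (enc_add (enc_add (enc_sub (enc_rat _ 39939004469 320000000000) (enc_scale 38027649 640000000 h1)) (enc_mul (enc_norm (l3q0_4.enc h1 h2)) (enc_norm (enc_sub (enc_rat _ 2152529741 6400000000) (enc_scale 11432761 12800000 h1))))) (enc_mul (l3q0_40.enc h1 h2) (enc_norm (enc_sub (enc_rat _ 475849 8000000) (enc_scale 2629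 16000 h1))))) (enc_add (enc_sub (enc_rat _ 14323 115000) (enc_scale 27 460 h1)) (enc_mul (enc_norm (l3q0_4.enc h1 h2)) (enc_norm (enc_subr 6701 34500 (enc_scale 79 138 h1)))))))))))⟩
noncomputable def kc3q0_4 : Fn2 := ⟨_, _, fun h1 h2 => (enc_subr 148977 200000 h2)⟩
noncomputable def kc3q0_29 : Fn2 := ⟨_, _, fun h1 h2 => (enc_sub (enc_pnc _ 1) h1)⟩
noncomputable def kc3q0_30 : Fn2 := ⟨_, _, fun h1 h2 => (gsg.enc (enc_norm (kc3q0_29.enc h1 h2)))⟩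
noncomputable def kc3q0_34 : Fn2 := ⟨_, _, fun h1 h2 => (esg.enc (enc_norm (kc3q0_29.enc h1 h2)))⟩
noncomputable def kc3q0_38 : Fn2 := ⟨_, _, fun h1 h2 => (gug.enc (enc_norm (kc3q0_29.enc h1 h2)))⟩
noncomputable def kc3q0_40 : Fn2 := ⟨_, _, fun h1 h2 => (enc_mul (enc_norm (kc3q0_29.enc h1 h2)) (enc_inv (kc3q0_30.enc h1 h2)))⟩
noncomputable def kc3q0_41 : Fn2 := ⟨_, _, fun h1 h2 => (enc_scale 3 4 (kc3q0_40.enc h1 h2))⟩
noncomputable def kc3q0_70 : Fn2 := ⟨_, _, fun h1 h2 => (enc_mul (cv2m.enc h1) (bd2q0.enc h1 h2))⟩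
noncomputable def kc3q0 : Fn2 := ⟨_, _, fun h1 h2 => (enc_norm (enc_case (enc_subr 53 250 h1) (enc_mul (cv3m.enc h1) (enc_norm (enc_add (enc_subr 10801 10000 (enc_neg (enc_scale 6157390059 1060000000 h1))) (enc_mul (enc_norm (kc3q0_4.enc h1 h2)) (enc_norm (enc_add (enc_scale 2205355901 212000000 h1) (enc_rat _ 203 250))))))) (enc_case (enc_subr 149 500 h1) (enc_add (kc3q0_70.enc h1 h2) (enc_mul (enc_norm (enc_mul (enc_norm (enc_sub (enc_add (enc_sub (enc_neg (enc_add (enc_add (enc_rat _ 3 4) (enc_scale 3 2 (kc3q0_29.enc h1 h2))) (enc_scale 3 4 (enc_mul (enc_norm (kc3q0_40.enc h1 h2)) (kc3q0_38.enc h1 h2))))) (enc_mul (enc_norm (enc_sub (enc_mul (enc_norm (enc_mul (enc_norm (kc3q0_41.enc h1 h2)) (enc_norm (enc_subn 3 (enc_nat 4 (kc3q0_30.enc h1 h2)))))) (kc3q0_34.enc h1 h2)) (enc_mul (qsg.enc (enc_norm (kc3q0_29.enc h1 h2))) (enc_norm (enc_sub (enc_rat _ 1 2) (kc3q0_41.enc h1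 h2)))))) (enc_inv (enc_mul (enc_nat 2 (kc3q0_34.enc h1 h2)) (kc3q0_34.enc h1 h2))))) (enc_mul (kcg.enc (enc_norm (enc_sub (enc_scale 3 4 (kc3q0_29.enc h1 h2)) (enc_half (kc3q0_30.enc h1 h2)))) h2) (enc_norm (enc_add (enc_pnc _ 1) (enc_add (kc3q0_38.enc h1 h2) (enc_nat 2 (kc3q0_30.enc h1 h2))))))) (kc3q0_70.enc h1 h2))) (enc_norm (enc_sub (cv3m.enc h1) (cv2m.enc h1))))) (enc_inv (enc_sub (enc_add (swg.enc h1) (enc_rat _ 1 2)) (cv2m.enc h1))))) (enc_mul (cv3m.enc h1) (enc_norm (enc_add (enc_subr 1314423211 505000000 (enc_scale 644439711 252500000 h1)) (enc_mul (enc_norm (kc3q0_4.enc h1 h2)) (enc_norm (enc_subr 480156141 202000000 (enc_scale 802548141 101000000 h1))))))))))⟩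
noncomputable def bf3q1_3 : Fn2 := ⟨_, _, fun h1 h2 => (enc_subr 148977 200000 h2)⟩
noncomputable def bf3q1 : Fn2 := ⟨_, _, fun h1 h2 => (enc_norm (enc_case (enc_subr 883 1000 h1) (enc_add (enc_subr 592377 3830000 (enc_scale 2232 1915 h1)) (enc_mul (enc_norm (bf3q1_3.enc h1 h2)) (enc_norm (enc_subr 60557 76600 (enc_scale 303 383 h1))))) (enc_case (enc_subr 15 16 h1) (enc_add (enc_subr 127587 1090000 (enc_scale 612 545 h1)) (enc_mul (enc_norm (bf3q1_3.enc h1 h2)) (enc_norm (enc_subr 42983 54500 (enc_scale 86 109 h1))))) (enc_add (enc_subr 18 625 (enc_scale 643 625 h1)) (enc_mul (enc_norm (bf3q1_3.enc h1 h2)) (enc_norm (enc_subr 98 125 (enc_scale 98 125 h1))))))))⟩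
noncomputable def kf3q1 : Fn2 := ⟨_, _, fun h1 h2 => (enc_norm (enc_mul (cv3m.enc h1) (bf3q1.enc h1 h2)))⟩
noncomputable def bx3q1_3 : Fn2 := ⟨_, _, fun h1 h2 => (enc_subr 148977 200000 h2)⟩
noncomputable def bx3q1 : Fn2 := ⟨_, _, fun h1 h2 => (enc_norm (enc_case (enc_subr 719 1000 h1) (enc_case (enc_subr 111 200 h1) (enc_add (enc_sub (enc_rat _ 413 2500) (enc_scale 7 50 h1)) (enc_mul (enc_norm (bx3q1_3.enc h1 h2)) (enc_norm (enc_add (enc_scale 6 55 h1) (enc_rat _ 103 2750))))) (enc_add (enc_sub (enc_rat _ 64553 328000) (enc_scale 323 1640 h1)) (enc_mul (enc_norm (bx3q1_3.enc h1 h2)) (enc_norm (enc_add (enc_scale 17 164 h1) (enc_rat _ 6637 164000)))))) (enc_case (enc_subr 15 16 h1) (enc_add (enc_sub (enc_rat _ 214891 1092500) (enc_scale 86 437 h1)) (enc_mul (enc_norm (bx3q1_3.enc h1 h2)) (enc_norm (enc_sub (enc_rat _ 84767 437000) (enc_scale 48 437 h1))))) (enc_add (enc_sub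 (enc_rat _ 122 625) (enc_scale 122 625 h1)) (enc_mul (enc_norm (bx3q1_3.enc h1 h2)) (enc_norm (enc_sub (enc_rat _ 182 125) (enc_scale 182 125 h1))))))))⟩
noncomputable def l3q1 : Fn2 := ⟨_, _, fun h1 h2 => (enc_norm (enc_mul (cv3m.enc h1) (bx3q1.enc h1 h2)))⟩
noncomputable def bd3q1 : Fn2 := ⟨_, _, fun h1 h2 => (enc_norm (enc_add (enc_subr 13267 5000 (enc_scale 13267 5000 h1)) (enc_mul (enc_norm (enc_subr 148977 200000 h2)) (enc_norm (enc_sub (enc_rat _ 399 125) (enc_scale 399 125 h1))))))⟩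
noncomputable def kc3q1 : Fn2 := ⟨_, _, fun h1 h2 => (enc_norm (enc_mul (cv3m.enc h1) (bd3q1.enc h1 h2)))⟩
noncomputable def cv3p : Fn1 := ⟨_, _, fun h1 => (enc_norm (enc_add (enc_scale 4 5 (enc_subr 1 2 (swg.enc h1))) (enc_scale 1 5 (c3g.enc h1))))⟩
noncomputable def bf3q2_3 : Fn2 := ⟨_, _, fun h1 h2 => (enc_subr 148977 200000 h2)⟩
noncomputable def bf3q2 : Fn2 := ⟨_, _, fun h1 h2 => (enc_norm (enc_case (enc_subr 1213 1000 h1) (enc_case (enc_subr 277 250 h1) (enc_add (enc_sub (enc_rat _ 323171 270000) (enc_scale 221 1080 h1)) (enc_mul (enc_norm (bf3q2_3.enc h1 h2)) (enc_norm (enc_sub (enc_rat _ 369517 27000) (enc_scale 1411 108 h1))))) (enc_add (enc_sub (enc_rat _ 548721 175000) (enc_scale 342 175 h1)) (enc_mul (enc_norm (bf3q2_3.enc h1 h2)) (enc_norm (enc_subr 22157 2100 (enc_scale 185 21 h1)))))) (enc_case (enc_subr 127 100 h1) (enc_add (enc_sub (enc_rat _ 446833 142500)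 (enc_scale 557 285 h1)) (enc_mul (enc_norm (bf3q2_3.enc h1 h2)) (enc_norm (enc_subr 337751 9500 (enc_scale 559 19 h1))))) (enc_add (enc_sub (enc_rat _ 720939 230000) (enc_scale 4493 2300 h1)) (enc_mul (enc_norm (bf3q2_3.enc h1 h2)) (enc_norm (enc_subr 1117199 23000 (enc_scale 1825 46 h1))))))))⟩
noncomputable def kf3q2 : Fn2 := ⟨_, _, fun h1 h2 => (enc_norm (enc_mul (cv3p.enc h1) (bf3q2.enc h1 h2)))⟩
noncomputable def bx3q2_3 : Fn2 := ⟨_, _, fun h1 h2 => (enc_subr 148977 200000 h2)⟩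
noncomputable def bx3q2_50 : Fn2 := ⟨_, _, fun h1 h2 => (enc_scale 46 19 h1)⟩
noncomputable def bx3q2 : Fn2 := ⟨_, _, fun h1 h2 => (enc_norm (enc_case (enc_subr 1213 1000 h1) (enc_case (enc_subr 17 16 h1) (enc_add (enc_sub (enc_rat _ 843 5000) (enc_scale 34 625 h1)) (enc_mul (enc_norm (bx3q2_3.enc h1 h2)) (enc_norm (enc_sub (enc_rat _ 11341 1000) (enc_scale 54 5 h1))))) (enc_case (enc_subr 577 500 h1) (enc_add (enc_sub (enc_rat _ 103713 610000) (enc_scale 17 305 h1)) (enc_mul (enc_norm (bx3q2_3.enc h1 h2)) (enc_norm (enc_subr 1553 7625 (enc_scale 4 61 h1))))) (enc_add (enc_sub (enc_rat _ 190457 590000) (enc_scale 111 590 h1)) (enc_mul (enc_norm (bx3q2_3.enc h1 h2)) (enc_norm (enc_subr 287503 14750 (enc_scale 990 59 h1))))))) (enc_case (enc_subr 166 125 h1) (enc_case (enc_subr 127 100 h1) (enc_add (enc_sub (enc_rat _ 183713 570000) (enc_scale 107 570 h1)) (enc_mul (enc_norm (bx3q2_3.enc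 h1 h2)) (enc_norm (enc_subr 1971 950 (bx3q2_50.enc h1 h2))))) (enc_add (enc_subr 38317 145000 (enc_scale 159 580 h1)) (enc_mul (enc_norm (bx3q2_3.enc h1 h2)) (enc_norm (enc_subr 12107 5800 (enc_scale 141 58 h1)))))) (enc_case (enc_subr 1443 1000 h1) (enc_add (enc_subr 402767 575000 (enc_scale 693 1150 h1)) (enc_mul (enc_norm (bx3q2_3.enc h1 h2)) (enc_norm (enc_subr 239297 115000 (enc_scale 279 115 h1))))) (enc_add (enc_subr 158347 190000 (enc_scale 66 95 h1)) (enc_mul (enc_norm (bx3q2_3.enc h1 h2)) (enc_norm (enc_subr 19699 9500 (bx3q2_50.enc h1 h2)))))))))⟩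
noncomputable def l3q2 : Fn2 := ⟨_, _, fun h1 h2 => (enc_norm (enc_mul (cv3p.enc h1) (bx3q2.enc h1 h2)))⟩
noncomputable def bd3q2_3 : Fn2 := ⟨_, _, fun h1 h2 => (enc_subr 148977 200000 h2)⟩
noncomputable def bd3q2 : Fn2 := ⟨_, _, fun h1 h2 => (enc_norm (enc_case (enc_subr 231 200 h1) (enc_add (enc_subr 564529 310000 (enc_scale 2767 1550 h1)) (enc_mul (enc_norm (bd3q2_3.enc h1 h2)) (enc_norm (enc_subr 272287 7750 (enc_scale 6297 155 h1))))) (enc_add (enc_subr 514619 115000 (enc_scale 7043 1725 h1)) (enc_mul (enc_norm (bd3q2_3.enc h1 h2)) (enc_norm (enc_sub (enc_rat _ 15971 920) (enc_scale 1664 345 h1)))))))⟩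
noncomputable def kc3q2 : Fn2 := ⟨_, _, fun h1 h2 => (enc_norm (enc_mul (cv3p.enc h1) (bd3q2.enc h1 h2)))⟩
noncomputable def ycg : Fn1 := ⟨_, _, fun h1 => (enc_sqrtg (enc_scale 4 3 (enc_sub (enc_pnc _ 3) (enc_sq h1))))⟩
noncomputable def xc33 : Fn1 := ⟨_, _, fun h1 => (enc_norm (enc_add (enc_scale 4 5 (enc_subr 1 2 (swg.enc (ycg.enc h1)))) (enc_scale 1 5 h1)))⟩
noncomputable def kfc33_6 : Fn2 := ⟨_, _, fun h1 h2 => (enc_subr 1 2 (swg.enc (ycg.enc h1)))⟩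
noncomputable def kfc33_9 : Fn2 := ⟨_, _, fun h1 h2 => (enc_add (enc_scale 4 5 (kfc33_6.enc h1 h2)) (enc_scale 1 5 h1))⟩
noncomputable def kfc33_11 : Fn2 := ⟨_, _, fun h1 h2 => (enc_subr 148977 200000 h2)⟩
noncomputable def kfc33_34 : Fn2 := ⟨_, _, fun h1 h2 => (enc_subn 1 (ycg.enc h1))⟩
noncomputable def kfc33_35 : Fn2 := ⟨_, _, fun h1 h2 => (gsg.enc (enc_norm (kfc33_34.enc h1 h2)))⟩
noncomputable def kfc33_36 : Fn2 := ⟨_, _, fun h1 h2 => (enc_scale 3 4 (kfc33_34.enc h1 h2))⟩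
noncomputable def kfc33_37 : Fn2 := ⟨_, _, fun h1 h2 => (enc_half (kfc33_35.enc h1 h2))⟩
noncomputable def kfc33_54 : Fn2 := ⟨_, _, fun h1 h2 => (cv2r.enc (ycg.enc h1))⟩
noncomputable def kfc33_56 : Fn2 := ⟨_, _, fun h1 h2 => (enc_subr 851 500 (ycg.enc h1))⟩
noncomputable def kfc33_68 : Fn2 := ⟨_, _, fun h1 h2 => (enc_subr 447 250 (ycg.enc h1))⟩
noncomputable def kfc33_91 : Fn2 := ⟨_, _, fun h1 h2 => (enc_mul (kfc33_54.enc h1 h2) (enc_norm (enc_case (kfc33_56.enc h1 h2) (enc_add (enc_subr 1226143 505000 (enc_scale 3009 2020 (ycg.enc h1))) (enc_mul (enc_norm (kfc33_11.enc h1 h2)) (enc_norm (enc_subr 658923 5050 (enc_scale 7509 101 (ycg.enc h1)))))) (enc_case (kfc33_68.enc h1 h2) (enc_add (enc_subr 1043141 430000 (enc_scale 64 43 (ycg.enc h1))) (enc_mul (enc_norm (kfc33_11.enc h1 h2)) (enc_norm (enc_subr 28054 215 (enc_scale 3197 43 (ycg.enc h1)))))) (enc_add (enc_subr 227 5000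 (enc_scale 280700000 776074739 h1)) (enc_mul (enc_norm (kfc33_11.enc h1 h2)) (enc_norm (enc_subr 29609 1000 (enc_scale 32061000000 776074739 h1)))))))))⟩
noncomputable def kfc33 : Fn2 := ⟨_, _, fun h1 h2 => (enc_norm (enc_case (kfc33_56.enc h1 h2) (enc_mul (enc_norm (kfc33_9.enc h1 h2)) (enc_norm (enc_add (enc_subr 380211417 252500000 (enc_scale 112950639 126250000 (ycg.enc h1))) (enc_mul (enc_norm (kfc33_11.enc h1 h2)) (enc_norm (enc_subr 24810551163 202000000 (enc_scale 7355123721 101000000 (ycg.enc h1)))))))) (enc_case (kfc33_68.enc h1 h2) (enc_add (kfc33_91.enc h1 h2) (enc_mul (enc_norm (enc_mul (enc_norm (enc_sub (enc_mul (enc_norm (enc_subn 2 (ycg.enc h1))) (enc_norm (enc_add (enc_mul (enc_norm (enc_sub (enc_sub (kfc33_37.enc h1 h2) (kfc33_36.enc h1 h2)) (enc_sub (enc_rat _ 1 4) (enc_scale 3 8 (enc_mul (enc_norm (kfc33_34.enc h1 h2)) (enc_inv (kfc33_35.enc h1 h2)))))))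 (enc_inv (esg.enc (enc_norm (kfc33_34.enc h1 h2))))) (kcg.enc (enc_norm (enc_sub (kfc33_36.enc h1 h2) (kfc33_37.enc h1 h2))) h2)))) (kfc33_91.enc h1 h2))) (enc_norm (enc_sub (kfc33_9.enc h1 h2) (kfc33_54.enc h1 h2))))) (enc_inv (enc_sub (kfc33_6.enc h1 h2) (kfc33_54.enc h1 h2))))) (enc_mul (enc_norm (kfc33_9.enc h1 h2)) (enc_norm (enc_sub (enc_sub (enc_rat _ 1 2) (enc_scale 825998779 1552149478 h1)) (enc_mul (enc_norm (kfc33_11.enc h1 h2)) (enc_scale 1609855507 776074739 h1))))))))⟩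
noncomputable def lc33_6 : Fn2 := ⟨_, _, fun h1 h2 => (enc_subr 1 2 (swg.enc (ycg.enc h1)))⟩
noncomputable def lc33_9 : Fn2 := ⟨_, _, fun h1 h2 => (enc_add (enc_scale 4 5 (lc33_6.enc h1 h2)) (enc_scale 1 5 h1))⟩
noncomputable def lc33_11 : Fn2 := ⟨_, _, fun h1 h2 => (enc_subr 148977 200000 h2)⟩
noncomputable def lc33_50 : Fn2 := ⟨_, _, fun h1 h2 => (enc_sq (enc_norm (lc33_11.enc h1 h2)))⟩
noncomputable def lc33_99 : Fn2 := ⟨_, _, fun h1 h2 => (enc_subn 1 (ycg.enc h1))⟩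
noncomputable def lc33_112 : Fn2 := ⟨_, _, fun h1 h2 => (cv2r.enc (ycg.enc h1))⟩
noncomputable def lc33_114 : Fn2 := ⟨_, _, fun h1 h2 => (enc_subr 851 500 (ycg.enc h1))⟩
noncomputable def lc33_126 : Fn2 := ⟨_, _, fun h1 h2 => (enc_subr 447 250 (ycg.enc h1))⟩
noncomputable def lc33_149 : Fn2 := ⟨_, _, fun h1 h2 => (enc_mul (lc33_112.enc h1 h2) (enc_norm (enc_case (lc33_114.enc h1 h2) (enc_add (enc_subr 1814309 1010000 (enc_scale 692 505 (ycg.enc h1))) (enc_mul (enc_norm (lc33_11.enc h1 h2)) (enc_norm (enc_sub (enc_rat _ 467563 101000) (enc_scale 487 202 (ycg.enc h1)))))) (enc_case (lc33_126.enc h1 h2) (enc_add (enc_subr 193223 107500 (enc_scale 1179 860 (ycg.enc h1))) (enc_mul (enc_norm (lc33_11.enc h1 h2)) (enc_norm (enc_sub (enc_rat _ 7951 1720) (enc_scale 207 86 (ycg.enc h1)))))) (enc_add (enc_sub (enc_rat _ 7411 10000) (enc_scale 87300000 776074739 h1)) (enc_mul (enc_norm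 (lc33_11.enc h1 h2)) (enc_norm (enc_sub (enc_rat _ 2429 250) (enc_scale 9397000000 776074739 h1)))))))))⟩
noncomputable def lc33 : Fn2 := ⟨_, _, fun h1 h2 => (enc_norm (enc_case (lc33_114.enc h1 h2) (enc_mul (enc_norm (lc33_9.enc h1 h2)) (enc_norm (enc_case (enc_subr 1601 1000 (ycg.enc h1)) (enc_add (enc_subr 1160213 1010000 (enc_scale 457 505 (ycg.enc h1))) (enc_mul (enc_norm (lc33_11.enc h1 h2)) (enc_norm (enc_sub (enc_rat _ 665179 50500) (enc_scale 782 101 (ycg.enc h1)))))) (enc_case (enc_subr 413 250 (ycg.enc h1)) (enc_add (enc_subr 195537 170000 (enc_scale 77 85 (ycg.enc h1))) (enc_mul (enc_norm (lc33_11.enc h1 h2)) (enc_norm (enc_sub (enc_rat _ 158089 10200) (enc_scale 469 51 (ycg.enc h1)))))) (enc_add (enc_add (enc_subr 143725776037 125000000000 (enc_scale 452816649 500000000 (ycg.enc h1))) (enc_mul (enc_norm (lc33_11.enc h1 h2)) (enc_norm (enc_sub (enc_rat _ 39026401363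 12500000000) (enc_scale 85203151 50000000 (ycg.enc h1)))))) (enc_mul (lc33_50.enc h1 h2) (enc_norm (enc_subr 17448011 12500000 (enc_scale 42247 50000 (ycg.enc h1)))))))))) (enc_case (lc33_126.enc h1 h2) (enc_add (lc33_149.enc h1 h2) (enc_mul (enc_norm (enc_mul (enc_norm (enc_sub (enc_sub (qsg.enc (enc_norm (lc33_99.enc h1 h2))) (enc_mul (enc_norm (enc_nat 2 (enc_sub (lc33_99.enc h1 h2) h2))) (enc_norm (enc_mul (esg.enc (enc_norm (lc33_99.enc h1 h2))) (kcg.enc (enc_norm (enc_sub (enc_scale 3 4 (lc33_99.enc h1 h2)) (enc_half (gsg.enc (enc_norm (lc33_99.enc h1 h2)))))) h2))))) (lc33_149.enc h1 h2))) (enc_norm (enc_sub (lc33_9.enc h1 h2) (lc33_112.enc h1 h2))))) (enc_inv (enc_sub (lc33_6.enc h1 h2) (lc33_112.enc h1 h2))))) (enc_mul (enc_norm (lc33_9.enc h1 h2)) (enc_norm (enc_case (enc_sub (enc_rat _ 676785971 1000000000) h1) (enc_add (enc_add (enc_sub (enc_rat _ 442154423308714283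 496443840000000000) (enc_scale 266450473 496443840 h1)) (enc_mul (enc_norm (lc33_11.enc h1 h2)) (enc_norm (enc_sub (enc_rat _ 56663985661361711 49644384000000000) (enc_scale 42353941 49644384 h1))))) (enc_mul (lc33_50.enc h1 h2) (enc_norm (enc_subr 109503293321829 16548128000000 (enc_scale 20224875 2068516 h1))))) (enc_case (enc_sub (enc_rat _ 556392847 1000000000) h1) (enc_add (enc_sub (enc_rat _ 372296331639 601965620000) (enc_scale 4050000 30098281 h1)) (enc_mul (enc_norm (lc33_11.enc h1 h2)) (enc_norm (enc_sub (enc_rat _ 220178565411 120393124000) (enc_scale 56250000 30098281 h1))))) (enc_add (enc_add (enc_scale 175219500 556392847 h1) (enc_rat _ 736761 2000000)) (enc_mul (enc_norm (lc33_11.enc h1 h2)) (enc_norm (enc_sub (enc_rat _ 91633 50000) (enc_scale 1043660000 556392847 h1))))))))))))⟩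
noncomputable def kcc33_6 : Fn2 := ⟨_, _, fun h1 h2 => (enc_subr 1 2 (swg.enc (ycg.enc h1)))⟩
noncomputable def kcc33_9 : Fn2 := ⟨_, _, fun h1 h2 => (enc_add (enc_scale 4 5 (kcc33_6.enc h1 h2)) (enc_scale 1 5 h1))⟩
noncomputable def kcc33_11 : Fn2 := ⟨_, _, fun h1 h2 => (enc_subr 148977 200000 h2)⟩
noncomputable def kcc33_34 : Fn2 := ⟨_, _, fun h1 h2 => (enc_subn 1 (ycg.enc h1))⟩
noncomputable def kcc33_35 : Fn2 := ⟨_, _, fun h1 h2 => (gsg.enc (enc_norm (kcc33_34.enc h1 h2)))⟩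
noncomputable def kcc33_39 : Fn2 := ⟨_, _, fun h1 h2 => (esg.enc (enc_norm (kcc33_34.enc h1 h2)))⟩
noncomputable def kcc33_44 : Fn2 := ⟨_, _, fun h1 h2 => (gug.enc (enc_norm (kcc33_34.enc h1 h2)))⟩
noncomputable def kcc33_46 : Fn2 := ⟨_, _, fun h1 h2 => (enc_mul (enc_norm (kcc33_34.enc h1 h2)) (enc_inv (kcc33_35.enc h1 h2)))⟩
noncomputable def kcc33_47 : Fn2 := ⟨_, _, fun h1 h2 => (enc_scale 3 4 (kcc33_46.enc h1 h2))⟩
noncomputable def kcc33_72 : Fn2 := ⟨_, _, fun h1 h2 => (cv2r.enc (ycg.enc h1))⟩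
noncomputable def kcc33_74 : Fn2 := ⟨_, _, fun h1 h2 => (enc_subr 851 500 (ycg.enc h1))⟩
noncomputable def kcc33_86 : Fn2 := ⟨_, _, fun h1 h2 => (enc_subr 447 250 (ycg.enc h1))⟩
noncomputable def kcc33_109 : Fn2 := ⟨_, _, fun h1 h2 => (enc_mul (kcc33_72.enc h1 h2) (enc_norm (enc_case (kcc33_74.enc h1 h2) (enc_add (enc_subr 615843 50500 (enc_scale 10611 1010 (ycg.enc h1))) (enc_mul (enc_norm (kcc33_11.enc h1 h2)) (enc_norm (enc_sub (enc_rat _ 1065563 101000) (enc_scale 1419 202 (ycg.enc h1)))))) (enc_case (kcc33_86.enc h1 h2) (enc_add (enc_subr 5243719 430000 (enc_scale 1807 172 (ycg.enc h1))) (enc_mul (enc_norm (kcc33_11.enc h1 h2)) (enc_norm (enc_sub (enc_rat _ 454397 43000) (enc_scale 605 86 (ycg.enc h1)))))) (enc_add (enc_subr 5291 5000 (enc_scale 7647900000 776074739 h1)) (enc_mul (enc_norm (kcc33_11.enc h1 h2)) (enc_norm (enc_sub (enc_rat _ 9373 100) (enc_scale 95741000000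 776074739 h1)))))))))⟩
noncomputable def kcc33 : Fn2 := ⟨_, _, fun h1 h2 => (enc_norm (enc_case (kcc33_74.enc h1 h2) (enc_mul (enc_norm (kcc33_9.enc h1 h2)) (enc_norm (enc_add (enc_subr 34470494067 4040000000 (enc_scale 13711356689 2020000000 (ycg.enc h1))) (enc_mul (enc_norm (kcc33_11.enc h1 h2)) (enc_norm (enc_sub (enc_rat _ 3384258117 40400000) (enc_scale 991736039 20200000 (ycg.enc h1)))))))) (enc_case (kcc33_86.enc h1 h2) (enc_add (kcc33_109.enc h1 h2) (enc_mul (enc_norm (enc_mul (enc_norm (enc_sub (enc_add (enc_sub (enc_add (enc_add (enc_rat _ 3 4) (enc_scale 3 2 (kcc33_34.enc h1 h2))) (enc_scale 3 4 (enc_mul (enc_norm (kcc33_46.enc h1 h2)) (kcc33_44.enc h1 h2)))) (enc_mul (enc_norm (enc_sub (enc_mul (enc_norm (enc_mul (enc_norm (kcc33_47.enc h1 h2)) (enc_norm (enc_subn 3 (enc_nat 4 (kcc33_35.enc h1 h2)))))) (kcc33_39.enc h1 h2)) (enc_mul (qsg.enc (enc_norm (kcc33_34.enc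 h1 h2))) (enc_norm (enc_sub (enc_rat _ 1 2) (kcc33_47.enc h1 h2)))))) (enc_inv (enc_mul (enc_nat 2 (kcc33_39.enc h1 h2)) (kcc33_39.enc h1 h2))))) (enc_mul (kcg.enc (enc_norm (enc_sub (enc_scale 3 4 (kcc33_34.enc h1 h2)) (enc_half (kcc33_35.enc h1 h2)))) h2) (enc_norm (enc_sub (enc_pnc _ 1) (enc_add (kcc33_44.enc h1 h2) (enc_nat 2 (kcc33_35.enc h1 h2))))))) (kcc33_109.enc h1 h2))) (enc_norm (enc_sub (kcc33_9.enc h1 h2) (kcc33_72.enc h1 h2))))) (enc_inv (enc_sub (kcc33_6.enc h1 h2) (kcc33_72.enc h1 h2))))) (enc_mul (enc_norm (kcc33_9.enc h1 h2)) (enc_norm (enc_add (enc_add (enc_scale 2604674218491 648022407065 h1) (enc_rat _ 1951 1670)) (enc_mul (enc_norm (kcc33_11.enc h1 h2)) (enc_norm (enc_sub (enc_rat _ 18451 167) (enc_scale 19288171317968 129604481413 h1))))))))))⟩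
noncomputable def cv4m : Fn1 := ⟨_, _, fun h1 => (enc_norm (enc_add (enc_scale 2 5 (enc_add (swg.enc h1) (enc_rat _ 1 2))) (enc_scale 3 5 (c3g.enc h1))))⟩
noncomputable def bf4q0_3 : Fn2 := ⟨_, _, fun h1 h2 => (enc_subr 148977 200000 h2)⟩
noncomputable def bf4q0 : Fn2 := ⟨_, _, fun h1 h2 => (enc_norm (enc_case (enc_subr 149 500 h1) (enc_add (enc_sub (enc_rat _ 519 1250) (enc_scale 1951 1490 h1)) (enc_mul (enc_norm (bf4q0_3.enc h1 h2)) (enc_norm (enc_subr 173 1000 (enc_scale 203 298 h1))))) (enc_case (enc_subr 181 500 h1) (enc_add (enc_sub (enc_rat _ 184863 320000) (enc_scale 1187 640 h1)) (enc_mul (enc_norm (bf4q0_3.enc h1 h2)) (enc_norm (enc_subr 923 4000 (enc_scale 7 8 h1))))) (enc_add (enc_sub (enc_rat _ 127777 172500) (enc_scale 3181 1380 h1)) (enc_mul (enc_norm (bf4q0_3.enc h1 h2)) (enc_norm (enc_subr 4037 17250 (enc_scale 61 69 h1))))))))⟩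
noncomputable def kf4q0 : Fn2 := ⟨_, _, fun h1 h2 => (enc_norm (enc_mul (cv4m.enc h1) (bf4q0.enc h1 h2)))⟩
noncomputable def bx4q0_3 : Fn2 := ⟨_, _, fun h1 h2 => (enc_subr 148977 200000 h2)⟩
noncomputable def bx4q0 : Fn2 := ⟨_, _, fun h1 h2 => (enc_norm (enc_case (enc_subr 149 500 h1) (enc_add (enc_sub (enc_rat _ 1647 10000) (enc_scale 407 2980 h1)) (enc_mul (enc_norm (bx4q0_3.enc h1 h2)) (enc_norm (enc_sub (enc_rat _ 197 1000) (enc_scale 145 298 h1))))) (enc_case (enc_subr 181 500 h1) (enc_add (enc_sub (enc_rat _ 52643 320000) (enc_scale 87 640 h1)) (enc_mul (enc_norm (bx4q0_3.enc h1 h2)) (enc_norm (enc_sub (enc_rat _ 2769 16000) (enc_scale 13 32 h1))))) (enc_add (enc_sub (enc_rat _ 6952 43125) (enc_scale 35 276 h1)) (enc_mul (enc_norm (bx4q0_3.enc h1 h2)) (enc_norm (enc_subr 7799 69000 (enc_scale 53 138 h1))))))))⟩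
noncomputable def l4q0 : Fn2 := ⟨_, _, fun h1 h2 => (enc_norm (enc_mul (cv4m.enc h1) (bx4q0.enc h1 h2)))⟩
noncomputable def bd4q0_3 : Fn2 := ⟨_, _, fun h1 h2 => (enc_subr 148977 200000 h2)⟩
noncomputable def bd4q0 : Fn2 := ⟨_, _, fun h1 h2 => (enc_norm (enc_case (enc_subr 53 250 h1) (enc_add (enc_subr 1339 500 (enc_scale 45 53 h1)) (enc_mul (enc_norm (bd4q0_3.enc h1 h2)) (enc_norm (enc_sub (enc_rat _ 727 250) (enc_scale 154 53 h1))))) (enc_add (enc_subr 2431751 720000 (enc_scale 11947 2880 h1)) (enc_mul (enc_norm (bd4q0_3.enc h1 h2)) (enc_norm (enc_sub (enc_rat _ 104719 36000) (enc_scale 419 144 h1)))))))⟩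
noncomputable def kc4q0 : Fn2 := ⟨_, _, fun h1 h2 => (enc_norm (enc_mul (cv4m.enc h1) (bd4q0.enc h1 h2)))⟩
noncomputable def bf4q1_3 : Fn2 := ⟨_, _, fun h1 h2 => (enc_subr 148977 200000 h2)⟩
noncomputable def bf4q1 : Fn2 := ⟨_, _, fun h1 h2 => (enc_norm (enc_case (enc_subr 773 1000 h1) (enc_add (enc_subr 277559 2730000 (enc_scale 1538 1365 h1)) (enc_mul (enc_norm (bf4q1_3.enc h1 h2)) (enc_norm (enc_subr 173599 273000 (enc_scale 149 273 h1))))) (enc_case (enc_subr 207 250 h1) (enc_add (enc_subr 42231 550000 (enc_scale 301 275 h1)) (enc_mul (enc_norm (bf4q1_3.enc h1 h2)) (enc_norm (enc_subr 45009 55000 (enc_scale 43 55 h1))))) (enc_add (enc_add (enc_scale 341 344 h1) (enc_rat _ 3 344)) (enc_mul (enc_norm (bf4q1_3.enc h1 h2)) (enc_norm (enc_subr 171 172 (enc_scale 171 172 h1))))))))⟩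
noncomputable def kf4q1 : Fn2 := ⟨_, _, fun h1 h2 => (enc_norm (enc_mul (cv4m.enc h1) (bf4q1.enc h1 h2)))⟩
noncomputable def bx4q1_3 : Fn2 := ⟨_, _, fun h1 h2 => (enc_subr 148977 200000 h2)⟩
noncomputable def bx4q1 : Fn2 := ⟨_, _, fun h1 h2 => (enc_norm (enc_case (enc_subr 719 1000 h1) (enc_case (enc_subr 111 200 h1) (enc_add (enc_sub (enc_rat _ 8829 55000) (enc_scale 69 550 h1)) (enc_mul (enc_norm (bx4q1_3.enc h1 h2)) (enc_norm (enc_subr 1231 11000 (enc_scale 21 55 h1))))) (enc_add (enc_sub (enc_rat _ 160563 820000) (enc_scale 31 164 h1)) (enc_mul (enc_norm (bx4q1_3.enc h1 h2)) (enc_norm (enc_add (enc_scale 13 164 h1) (enc_rat _ 1837 32800)))))) (enc_case (enc_subr 15 16 h1) (enc_add (enc_sub (enc_rat _ 946251 4370000) (enc_scale 476 2185 h1)) (enc_mul (enc_norm (bx4q1_3.enc h1 h2)) (enc_norm (enc_sub (enc_rat _ 81017 437000) (enc_scale 44 437 h1))))) (enc_add (enc_sub (enc_rat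 _ 123 625) (enc_scale 123 625 h1)) (enc_mul (enc_norm (bx4q1_3.enc h1 h2)) (enc_norm (enc_sub (enc_rat _ 182 125) (enc_scale 182 125 h1))))))))⟩
noncomputable def l4q1 : Fn2 := ⟨_, _, fun h1 h2 => (enc_norm (enc_mul (cv4m.enc h1) (bx4q1.enc h1 h2)))⟩
noncomputable def bd4q1 : Fn2 := ⟨_, _, fun h1 h2 => (enc_norm (enc_add (enc_subr 13033 5000 (enc_scale 13033 5000 h1)) (enc_mul (enc_norm (enc_subr 148977 200000 h2)) (enc_norm (enc_sub (enc_rat _ 727 250) (enc_scale 727 250 h1))))))⟩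
noncomputable def kc4q1 : Fn2 := ⟨_, _, fun h1 h2 => (enc_norm (enc_mul (cv4m.enc h1) (bd4q1.enc h1 h2)))⟩
noncomputable def cv4p : Fn1 := ⟨_, _, fun h1 => (enc_norm (enc_add (enc_scale 2 5 (enc_subr 1 2 (swg.enc h1))) (enc_scale 3 5 (c3g.enc h1))))⟩
noncomputable def bf4q2_3 : Fn2 := ⟨_, _, fun h1 h2 => (enc_subr 148977 200000 h2)⟩
noncomputable def bf4q2 : Fn2 := ⟨_, _, fun h1 h2 => (enc_norm (enc_case (enc_subr 231 200 h1) (enc_add (enc_sub (enc_rat _ 338133 310000) (enc_scale 129 775 h1)) (enc_mul (enc_norm (bf4q2_3.enc h1 h2)) (enc_norm (enc_sub (enc_rat _ 235929 31000) (enc_scale 1062 155 h1))))) (enc_case (enc_subr 1213 1000 h1) (enc_add (enc_sub (enc_rat _ 133887 58000) (enc_scale 177 145 h1)) (enc_mul (enc_norm (bf4q2_3.enc h1 h2)) (enc_norm (enc_subr 31887 29000 (enc_scale 20 29 h1))))) (enc_add (enc_sub (enc_rat _ 3816927 1435000) (enc_scale 867 574 h1)) (enc_mul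 (enc_norm (bf4q2_3.enc h1 h2)) (enc_norm (enc_subr 79738 5125 (enc_scale 517 41 h1))))))))⟩
noncomputable def kf4q2 : Fn2 := ⟨_, _, fun h1 h2 => (enc_norm (enc_mul (cv4p.enc h1) (bf4q2.enc h1 h2)))⟩
noncomputable def bx4q2_3 : Fn2 := ⟨_, _, fun h1 h2 => (enc_subr 148977 200000 h2)⟩
noncomputable def bx4q2 : Fn2 := ⟨_, _, fun h1 h2 => (enc_norm (enc_case (enc_subr 127 100 h1) (enc_case (enc_subr 17 16 h1) (enc_add (enc_sub (enc_rat _ 5301 10000) (enc_scale 327 625 h1)) (enc_mul (enc_norm (bx4q2_3.enc h1 h2)) (enc_norm (enc_subr 251 125 (enc_scale 258 125 h1))))) (enc_case (enc_subr 277 250 h1) (enc_add (enc_sub (enc_rat _ 76397 910000) (enc_scale 47 455 h1)) (enc_mul (enc_norm (bx4q2_3.enc h1 h2)) (enc_norm (enc_subr 36583 18200 (enc_scale 188 91 h1))))) (enc_add (enc_subr 48707 162000 (enc_scale 79 324 h1)) (enc_mul (enc_norm (bx4q2_3.enc h1 h2)) (enc_norm (enc_subr 162991 81000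 (enc_scale 335 162 h1))))))) (enc_case (enc_subr 277 200 h1) (enc_add (enc_subr 1381 4600 (enc_scale 28 115 h1)) (enc_mul (enc_norm (bx4q2_3.enc h1 h2)) (enc_norm (enc_sub (enc_rat _ 13411 11500) (enc_scale 10 23 h1))))) (enc_case (enc_subr 1443 1000 h1) (enc_add (enc_subr 46953 116000 (enc_scale 37 116 h1)) (enc_mul (enc_norm (bx4q2_3.enc h1 h2)) (enc_norm (enc_sub (enc_rat _ 67337 58000) (enc_scale 25 58 h1))))) (enc_add (enc_subr 38369 47500 (enc_scale 341 570 h1)) (enc_mul (enc_norm (bx4q2_3.enc h1 h2)) (enc_norm (enc_sub (enc_rat _ 11133 9500) (enc_scale 25 57 h1)))))))))⟩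
noncomputable def l4q2 : Fn2 := ⟨_, _, fun h1 h2 => (enc_norm (enc_mul (cv4p.enc h1) (bx4q2.enc h1 h2)))⟩
noncomputable def bd4q2 : Fn2 := ⟨_, _, fun h1 h2 => (enc_norm (enc_add (enc_subr 1547 625 (enc_scale 12271 5000 h1)) (enc_mul (enc_norm (enc_subr 148977 200000 h2)) (enc_norm (enc_subr 283 20 (enc_scale 9173 500 h1))))))⟩
noncomputable def kc4q2 : Fn2 := ⟨_, _, fun h1 h2 => (enc_norm (enc_mul (cv4p.enc h1) (bd4q2.enc h1 h2)))⟩
noncomputable def xc43 : Fn1 := ⟨_, _, fun h1 => (enc_norm (enc_add (enc_scale 2 5 (enc_subr 1 2 (swg.enc (ycg.enc h1)))) (enc_scale 3 5 h1)))⟩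
noncomputable def kfc43_11 : Fn2 := ⟨_, _, fun h1 h2 => (enc_subr 148977 200000 h2)⟩
noncomputable def kfc43 : Fn2 := ⟨_, _, fun h1 h2 => (enc_norm (enc_mul (enc_norm (enc_add (enc_scale 2 5 (enc_subr 1 2 (swg.enc (ycg.enc h1)))) (enc_scale 3 5 h1))) (enc_norm (enc_case (enc_subr 447 250 (ycg.enc h1)) (enc_case (enc_subr 851 500 (ycg.enc h1)) (enc_add (enc_subr 1029267 505000 (enc_scale 239 202 (ycg.enc h1))) (enc_mul (enc_norm (kfc43_11.enc h1 h2)) (enc_norm (enc_subr 1348979 50500 (enc_scale 3071 202 (ycg.enc h1)))))) (enc_add (enc_subr 875959 430000 (enc_scale 1017 860 (ycg.enc h1))) (enc_mul (enc_norm (kfc43_11.enc h1 h2)) (enc_norm (enc_subr 143531 5375 (enc_scale 1307 86 (ycg.enc h1))))))) (enc_case (enc_sub (enc_rat _ 429616471 1000000000) h1) (enc_add (enc_sub (enc_rat _ 797450022427 1732291340000) (enc_scale 42750000 86614567 h1)) (enc_mul (enc_norm (kfc43_11.enc h1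 h2)) (enc_norm (enc_sub (enc_rat _ 1029710869423 346458268000) (enc_scale 279250000 86614567 h1))))) (enc_add (enc_sub (enc_rat _ 1 2) (enc_scale 251700000 429616471 h1)) (enc_mul (enc_norm (kfc43_11.enc h1 h2)) (enc_scale 69000000 18678977 h1))))))))⟩
noncomputable def lc43_11 : Fn2 := ⟨_, _, fun h1 h2 => (enc_subr 148977 200000 h2)⟩
noncomputable def lc43 : Fn2 := ⟨_, _, fun h1 h2 => (enc_norm (enc_mul (enc_norm (enc_add (enc_scale 2 5 (enc_subr 1 2 (swg.enc (ycg.enc h1)))) (enc_scale 3 5 h1))) (enc_norm (enc_case (enc_subr 447 250 (ycg.enc h1)) (enc_case (enc_subr 851 500 (ycg.enc h1)) (enc_add (enc_subr 408877 505000 (enc_scale 1211 2020 (ycg.enc h1))) (enc_mul (enc_norm (lc43_11.enc h1 h2)) (enc_norm (enc_sub (enc_rat _ 154957 50500) (enc_scale 172 101 (ycg.enc h1)))))) (enc_add (enc_subr 21729 26875 (enc_scale 103 172 (ycg.enc h1))) (enc_mul (enc_norm (lc43_11.enc h1 h2))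 (enc_norm (enc_sub (enc_rat _ 132407 43000) (enc_scale 147 86 (ycg.enc h1))))))) (enc_case (enc_sub (enc_rat _ 556392847 1000000000) h1) (enc_add (enc_sub (enc_rat _ 445653808031 439363784000) (enc_scale 53225000 54920473 h1)) (enc_mul (enc_norm (lc43_11.enc h1 h2)) (enc_norm (enc_sub (enc_rat _ 112927072237 219681892000) (enc_scale 34750000 54920473 h1))))) (enc_case (enc_sub (enc_rat _ 429616471 1000000000) h1) (enc_add (enc_sub (enc_rat _ 230260341683 422587920000) (enc_scale 662500 5282349 h1)) (enc_mul (enc_norm (lc43_11.enc h1 h2)) (enc_norm (enc_sub (enc_rat _ 4258358909 3961761750) (enc_scale 26000000 15847047 h1))))) (enc_add (enc_add (enc_scale 122619500 429616471 h1) (enc_rat _ 736761 2000000)) (enc_mul (enc_norm (lc43_11.enc h1 h2)) (enc_norm (enc_sub (enc_rat _ 91633 50000) (enc_scale 1462660000 429616471 h1)))))))))))⟩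
noncomputable def kcc43_11 : Fn2 := ⟨_, _, fun h1 h2 => (enc_subr 148977 200000 h2)⟩
noncomputable def kcc43 : Fn2 := ⟨_, _, fun h1 h2 => (enc_norm (enc_mul (enc_norm (enc_add (enc_scale 2 5 (enc_subr 1 2 (swg.enc (ycg.enc h1)))) (enc_scale 3 5 h1))) (enc_norm (enc_case (enc_subr 851 500 (ycg.enc h1)) (enc_add (enc_subr 2500339 1010000 (enc_scale 2479 1010 (ycg.enc h1))) (enc_mul (enc_norm (kcc43_11.enc h1 h2)) (enc_norm (enc_subr 1429231 101000 (enc_scale 1853 101 (ycg.enc h1)))))) (enc_case (enc_subr 447 250 (ycg.enc h1)) (enc_add (enc_subr 266161 107500 (enc_scale 2111 860 (ycg.enc h1))) (enc_mul (enc_norm (kcc43_11.enc h1 h2)) (enc_norm (enc_subr 608653 43000 (enc_scale 789 43 (ycg.enc h1)))))) (enc_add (enc_add (enc_scale 124371000000 129604481413 h1) (enc_rat _ 1951 1670)) (enc_mul (enc_norm (kcc43_11.enc h1 h2)) (enc_norm (enc_sub (enc_rat _ 18451 167) (enc_scale 15335949000000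 129604481413 h1))))))))))⟩
noncomputable def kf5q0 : Fn2 := ⟨_, _, fun h1 h2 => (enc_norm (enc_sub (enc_mul h1 (kcg.enc (enc_half h1) h2)) (enc_mul (enc_norm (enc_mul (enc_sq h1) (enc_norm (enc_add (c3g.enc h1) (enc_rat _ 3 2))))) (enc_inv (enc_mul (enc_norm (enc_sub (enc_pnc _ 1) h1)) (enc_norm (enc_add (enc_pnc _ 1) h1)))))))⟩
noncomputable def l5q0_6 : Fn2 := ⟨_, _, fun h1 h2 => (enc_half h1)⟩
noncomputable def l5q0_7 : Fn2 := ⟨_, _, fun h1 h2 => (enc_half (c3g.enc h1))⟩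
noncomputable def l5q0_8 : Fn2 := ⟨_, _, fun h1 h2 => (enc_scale 1 4 h1)⟩
noncomputable def l5q0 : Fn2 := ⟨_, _, fun h1 h2 => (enc_norm (enc_add (txg.enc (l5q0_6.enc h1 h2) (enc_norm (enc_sub (l5q0_7.enc h1 h2) (l5q0_8.enc h1 h2))) h2) (txg.enc (enc_neg (l5q0_6.enc h1 h2)) (enc_norm (enc_add (l5q0_7.enc h1 h2) (l5q0_8.enc h1 h2))) h2)))⟩
noncomputable def kc5q0_3 : Fn2 := ⟨_, _, fun h1 h2 => (enc_subr 148977 200000 h2)⟩
noncomputable def kc5q0_6 : Fn2 := ⟨_, _, fun h1 h2 => (enc_half h1)⟩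
noncomputable def kc5q0 : Fn2 := ⟨_, _, fun h1 h2 => (enc_norm (enc_case (enc_subr 167 1000 (kc5q0_6.enc h1 h2)) (enc_add (enc_subr 64987 10000 (enc_scale 27791 3340 h1)) (enc_mul (enc_norm (kc5q0_3.enc h1 h2)) (enc_norm (enc_sub (enc_rat _ 6917 1000) (enc_scale 2777 334 h1))))) (enc_case (enc_subr 333 1000 (kc5q0_6.enc h1 h2)) (enc_add (enc_subr 337117 51875 (enc_scale 3453 415 h1)) (enc_mul (enc_norm (kc5q0_3.enc h1 h2)) (enc_norm (enc_sub (enc_rat _ 14352 2075) (enc_scale 690 83 h1))))) (enc_add (enc_subr 2393 835 (enc_scale 2393 835 h1)) (enc_mul (enc_norm (kc5q0_3.enc h1 h2)) (enc_norm (enc_sub (enc_rat _ 690 167) (enc_scale 690 167 h1))))))))⟩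
noncomputable def kf5q1 : Fn2 := ⟨_, _, fun h1 h2 => (enc_norm (enc_add (enc_mul (enc_norm (enc_mul h1 (enc_norm (enc_add (c3g.enc h1) (enc_rat _ 3 2))))) (enc_inv (enc_add (enc_pnc _ 1) h1))) (enc_mul (enc_norm (enc_subn 1 h1)) (kcg.enc (enc_half h1) h2))))⟩
noncomputable def l5q1_7 : Fn2 := ⟨_, _, fun h1 h2 => (enc_half h1)⟩
noncomputable def l5q1_8 : Fn2 := ⟨_, _, fun h1 h2 => (enc_half (c3g.enc h1))⟩
noncomputable def l5q1_9 : Fn2 := ⟨_, _, fun h1 h2 => (enc_scale 1 4 h1)⟩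
noncomputable def l5q1 : Fn2 := ⟨_, _, fun h1 h2 => (enc_norm (enc_add (txg.enc (l5q1_7.enc h1 h2) (enc_norm (enc_sub (l5q1_8.enc h1 h2) (l5q1_9.enc h1 h2))) h2) (txg.enc (enc_neg (l5q1_7.enc h1 h2)) (enc_norm (enc_add (l5q1_8.enc h1 h2) (l5q1_9.enc h1 h2))) h2)))⟩
noncomputable def kc5q1_3 : Fn2 := ⟨_, _, fun h1 h2 => (enc_subr 148977 200000 h2)⟩
noncomputable def kc5q1_7 : Fn2 := ⟨_, _, fun h1 h2 => (enc_half h1)⟩
noncomputable def kc5q1 : Fn2 := ⟨_, _, fun h1 h2 => (enc_norm (enc_case (enc_subr 167 1000 (kc5q1_7.enc h1 h2)) (enc_add (enc_subr 64987 10000 (enc_scale 27791 3340 h1)) (enc_mul (enc_norm (kc5q1_3.enc h1 h2)) (enc_norm (enc_sub (enc_rat _ 6917 1000) (enc_scale 2777 334 h1))))) (enc_case (enc_subr 333 1000 (kc5q1_7.enc h1 h2)) (enc_add (enc_subr 337117 51875 (enc_scale 3453 415 h1)) (enc_mul (enc_norm (kc5q1_3.enc h1 h2)) (enc_norm (enc_sub (enc_rat _ 14352 2075)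 (enc_scale 690 83 h1))))) (enc_add (enc_subr 2393 835 (enc_scale 2393 835 h1)) (enc_mul (enc_norm (kc5q1_3.enc h1 h2)) (enc_norm (enc_sub (enc_rat _ 690 167) (enc_scale 690 167 h1))))))))⟩
noncomputable def kf5q2 : Fn2 := ⟨_, _, fun h1 h2 => (enc_norm (enc_add (enc_mul (enc_norm (enc_mul (enc_norm (enc_sub (enc_nat 2 (c3g.enc h1)) h1)) (enc_norm (enc_sub (enc_add (c3g.enc h1) (enc_pnc _ 3)) (enc_scale 3 2 h1))))) (enc_inv (enc_nat 4 (enc_sub (enc_pnc _ 2) h1)))) (enc_mul (enc_norm (enc_subn 1 h1)) (kcg.enc (enc_norm (enc_sub (enc_scale 1 4 h1) (enc_half (c3g.enc h1)))) h2))))⟩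
noncomputable def l5q2_7 : Fn2 := ⟨_, _, fun h1 h2 => (enc_half (c3g.enc h1))⟩
noncomputable def l5q2_8 : Fn2 := ⟨_, _, fun h1 h2 => (enc_scale 1 4 h1)⟩
noncomputable def l5q2_9 : Fn2 := ⟨_, _, fun h1 h2 => (enc_sub (l5q2_7.enc h1 h2) (l5q2_8.enc h1 h2))⟩
noncomputable def l5q2_12 : Fn2 := ⟨_, _, fun h1 h2 => (enc_add (enc_scale 1 4 (c3g.enc h1)) (enc_scale 3 8 h1))⟩
noncomputable def l5q2_14 : Fn2 := ⟨_, _, fun h1 h2 => (enc_half (l5q2_9.enc h1 h2))⟩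
noncomputable def l5q2 : Fn2 := ⟨_, _, fun h1 h2 => (enc_norm (enc_sub (enc_nat 2 (txg.enc (enc_norm (enc_sub (l5q2_8.enc h1 h2) (l5q2_7.enc h1 h2))) (enc_norm (enc_add (l5q2_12.enc h1 h2) (l5q2_14.enc h1 h2))) h2)) (txg.enc (enc_norm (l5q2_9.enc h1 h2)) (enc_norm (enc_sub (l5q2_12.enc h1 h2) (l5q2_14.enc h1 h2))) h2)))⟩
noncomputable def kc5q2_3 : Fn2 := ⟨_, _, fun h1 h2 => (enc_subr 148977 200000 h2)⟩
noncomputable def kc5q2_9 : Fn2 := ⟨_, _, fun h1 h2 => (enc_sub (enc_half (c3g.enc h1)) (enc_scale 1 4 h1))⟩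
noncomputable def kc5q2_25 : Fn2 := ⟨_, _, fun h1 h2 => (enc_scale 508 415 (kc5q2_9.enc h1 h2))⟩
noncomputable def kc5q2_28 : Fn2 := ⟨_, _, fun h1 h2 => (enc_scale 3041 83 (kc5q2_9.enc h1 h2))⟩
noncomputable def kc5q2 : Fn2 := ⟨_, _, fun h1 h2 => (enc_norm (enc_case (kc5q2_9.enc h1 h2) (enc_case (enc_add (kc5q2_9.enc h1 h2) (enc_rat _ 333 1000)) (enc_add (enc_add (enc_scale 1951 835 (kc5q2_9.enc h1 h2)) (enc_rat _ 1951 1670)) (enc_mul (enc_norm (kc5q2_3.enc h1 h2)) (enc_norm (enc_add (enc_scale 36902 167 (kc5q2_9.enc h1 h2)) (enc_rat _ 18451 167))))) (enc_case (enc_add (kc5q2_9.enc h1 h2) (enc_rat _ 167 1000)) (enc_add (enc_add (kc5q2_25.enc h1 h2) (enc_rat _ 331097 415000)) (enc_mul (enc_norm (kc5q2_3.enc h1 h2)) (enc_norm (enc_sub (enc_rat _ 2050213 83000) (kc5q2_28.enc h1 h2))))) (enc_add (enc_add (enc_scale 409 334 (kc5q2_9.enc h1 h2)) (enc_rat _ 7979 10000)) (enc_mul (enc_norm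 (kc5q2_3.enc h1 h2)) (enc_norm (enc_sub (enc_rat _ 12351 500) (enc_scale 6118 167 (kc5q2_9.enc h1 h2)))))))) (enc_case (enc_subr 167 1000 (kc5q2_9.enc h1 h2)) (enc_add (enc_add (enc_scale 1022 835 (kc5q2_9.enc h1 h2)) (enc_rat _ 7979 10000)) (enc_mul (enc_norm (kc5q2_3.enc h1 h2)) (enc_norm (enc_sub (enc_rat _ 12351 500) (enc_scale 6119 167 (kc5q2_9.enc h1 h2)))))) (enc_case (enc_subr 333 1000 (kc5q2_9.enc h1 h2)) (enc_add (enc_add (kc5q2_25.enc h1 h2) (enc_rat _ 662237 830000)) (enc_mul (enc_norm (kc5q2_3.enc h1 h2)) (enc_norm (enc_sub (enc_rat _ 512559 20750) (kc5q2_28.enc h1 h2))))) (enc_add (enc_sub (enc_rat _ 2411 668) (enc_scale 2411 334 (kc5q2_9.enc h1 h2))) (enc_mul (enc_norm (kc5q2_3.enc h1 h2)) (enc_norm (enc_sub (enc_rat _ 12501 334) (enc_scale 12501 167 (kc5q2_9.enc h1 h2))))))))))⟩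
noncomputable def kfc53 : Fn2 := ⟨_, _, fun h1 h2 => (enc_norm (enc_sub (enc_mul (enc_norm (enc_subn 2 (ycg.enc h1))) (kcg.enc (enc_norm (enc_sub (enc_scale 1 4 (ycg.enc h1)) (enc_half h1))) h2)) (enc_mul (enc_norm (enc_mul (enc_norm (enc_sub (enc_nat 2 h1) (ycg.enc h1))) (enc_norm (enc_sub (enc_add h1 (enc_pnc _ 3)) (enc_scale 3 2 (ycg.enc h1)))))) (enc_inv (enc_nat 4 (enc_subn 1 (ycg.enc h1)))))))⟩
noncomputable def lc53_7 : Fn2 := ⟨_, _, fun h1 h2 => (enc_half h1)⟩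
noncomputable def lc53_8 : Fn2 := ⟨_, _, fun h1 h2 => (enc_scale 1 4 (ycg.enc h1))⟩
noncomputable def lc53_9 : Fn2 := ⟨_, _, fun h1 h2 => (enc_sub (lc53_7.enc h1 h2) (lc53_8.enc h1 h2))⟩
noncomputable def lc53_12 : Fn2 := ⟨_, _, fun h1 h2 => (enc_add (enc_scale 1 4 h1) (enc_scale 3 8 (ycg.enc h1)))⟩
noncomputable def lc53_14 : Fn2 := ⟨_, _, fun h1 h2 => (enc_half (lc53_9.enc h1 h2))⟩
noncomputable def lc53 : Fn2 := ⟨_, _, fun h1 h2 => (enc_norm (enc_sub (enc_nat 2 (txg.enc (enc_norm (enc_sub (lc53_8.enc h1 h2) (lc53_7.enc h1 h2))) (enc_norm (enc_add (lc53_12.enc h1 h2) (lc53_14.enc h1 h2))) h2)) (txg.enc (enc_norm (lc53_9.enc h1 h2)) (enc_norm (enc_sub (lc53_12.enc h1 h2) (lc53_14.enc h1 h2))) h2)))⟩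
noncomputable def kcc53_4 : Fn2 := ⟨_, _, fun h1 h2 => (enc_subr 148977 200000 h2)⟩
noncomputable def kcc53_9 : Fn2 := ⟨_, _, fun h1 h2 => (enc_sub (enc_half h1) (enc_scale 1 4 (ycg.enc h1)))⟩
noncomputable def kcc53_25 : Fn2 := ⟨_, _, fun h1 h2 => (enc_scale 508 415 (kcc53_9.enc h1 h2))⟩
noncomputable def kcc53_28 : Fn2 := ⟨_, _, fun h1 h2 => (enc_scale 3041 83 (kcc53_9.enc h1 h2))⟩
noncomputable def kcc53 : Fn2 := ⟨_, _, fun h1 h2 => (enc_norm (enc_case (kcc53_9.enc h1 h2) (enc_case (enc_add (kcc53_9.enc h1 h2) (enc_rat _ 333 1000)) (enc_add (enc_add (enc_scale 1951 835 (kcc53_9.enc h1 h2)) (enc_rat _ 1951 1670)) (enc_mul (enc_norm (kcc53_4.enc h1 h2)) (enc_norm (enc_add (enc_scale 36902 167 (kcc53_9.enc h1 h2)) (enc_rat _ 18451 167))))) (enc_case (enc_add (kcc53_9.enc h1 h2) (enc_rat _ 167 1000)) (enc_add (enc_add (kcc53_25.enc h1 h2) (enc_rat _ 331097 415000)) (enc_mul (enc_norm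 (kcc53_4.enc h1 h2)) (enc_norm (enc_sub (enc_rat _ 2050213 83000) (kcc53_28.enc h1 h2))))) (enc_add (enc_add (enc_scale 409 334 (kcc53_9.enc h1 h2)) (enc_rat _ 7979 10000)) (enc_mul (enc_norm (kcc53_4.enc h1 h2)) (enc_norm (enc_sub (enc_rat _ 12351 500) (enc_scale 6118 167 (kcc53_9.enc h1 h2)))))))) (enc_case (enc_subr 167 1000 (kcc53_9.enc h1 h2)) (enc_add (enc_add (enc_scale 1022 835 (kcc53_9.enc h1 h2)) (enc_rat _ 7979 10000)) (enc_mul (enc_norm (kcc53_4.enc h1 h2)) (enc_norm (enc_sub (enc_rat _ 12351 500) (enc_scale 6119 167 (kcc53_9.enc h1 h2)))))) (enc_case (enc_subr 333 1000 (kcc53_9.enc h1 h2)) (enc_add (enc_add (kcc53_25.enc h1 h2) (enc_rat _ 662237 830000)) (enc_mul (enc_norm (kcc53_4.enc h1 h2)) (enc_norm (enc_sub (enc_rat _ 512559 20750) (kcc53_28.enc h1 h2))))) (enc_add (enc_sub (enc_rat _ 2411 668) (enc_scale 2411 334 (kcc53_9.enc h1 h2))) (enc_mul (enc_norm (kcc53_4.enc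 h1 h2)) (enc_norm (enc_sub (enc_rat _ 12501 334) (enc_scale 12501 167 (kcc53_9.enc h1 h2))))))))))⟩
noncomputable def lm4m : Fn2 := ⟨_, _, fun h1 h2 => (enc_lam (enc_norm (enc_sub h1 (cv4m.enc h2))) (enc_sub (c3g.enc h2) (cv4m.enc h2)))⟩
noncomputable def lm3m : Fn2 := ⟨_, _, fun h1 h2 => (enc_lam (enc_norm (enc_sub h1 (cv3m.enc h2))) (enc_sub (cv4m.enc h2) (cv3m.enc h2)))⟩
noncomputable def bf3q0_3 : Fn2 := ⟨_, _, fun h1 h2 => (enc_subr 148977 200000 h2)⟩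
noncomputable def bf3q0 : Fn2 := ⟨_, _, fun h1 h2 => (enc_norm (enc_case (enc_subr 51 200 h1) (enc_case (enc_subr 159 1000 h1) (enc_add (enc_sub (enc_rat _ 863 1000) (enc_scale 3739 1590 h1)) (enc_mul (enc_norm (bf3q0_3.enc h1 h2)) (enc_norm (enc_subr 339 1000 (enc_scale 7 159 h1))))) (enc_add (enc_sub (enc_rat _ 2157384001 2500000000) (enc_scale 311544667 132500000 h1)) (enc_mul (enc_norm (bf3q0_3.enc h1 h2)) (enc_norm (enc_subr 1266584471 1000000000 (enc_scale 311528157 53000000 h1)))))) (enc_add (enc_sub (enc_rat _ 4368974261 4040000000) (enc_scale 5833878261 2020000000 h1)) (enc_mul (enc_norm (bf3q0_3.enc h1 h2)) (enc_norm (enc_subr 14402379 101000000 (enc_scale 32178379 50500000 h1)))))))⟩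
noncomputable def lm2m : Fn2 := ⟨_, _, fun h1 h2 => (enc_lam (enc_norm (enc_sub h1 (cv2m.enc h2))) (enc_sub (cv3m.enc h2) (cv2m.enc h2)))⟩
noncomputable def lm1m : Fn2 := ⟨_, _, fun h1 h2 => (enc_lam (enc_norm (enc_sub h1 (cv1m.enc h2))) (enc_sub (cv2m.enc h2) (cv1m.enc h2)))⟩
noncomputable def lm0m : Fn2 := ⟨_, _, fun h1 h2 => (enc_lam (enc_norm (enc_sub h1 (c1g.enc h2))) (enc_sub (cv1m.enc h2) (c1g.enc h2)))⟩
noncomputable def rkbq0_36 : Fn3 := ⟨_, _, fun h1 h2 h3 => (enc_add (enc_mul h1 (bf3q0.enc h2 h3)) (enc_mul (enc_norm (enc_mul (enc_norm (enc_sub (enc_pnc _ 1) (lm2m.enc h1 h2))) (cv2m.enc h2))) (enc_norm (enc_sub (bf2q0.enc h2 h3) (bf3q0.enc h2 h3)))))⟩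
noncomputable def rkbq0_38 : Fn3 := ⟨_, _, fun h1 h2 h3 => (enc_sub (enc_pnc _ 1) h2)⟩
noncomputable def rkbq0_39 : Fn3 := ⟨_, _, fun h1 h2 h3 => (gsg.enc (enc_norm (rkbq0_38.enc h1 h2 h3)))⟩
noncomputable def rkbq0_42 : Fn3 := ⟨_, _, fun h1 h2 h3 => (enc_sub (enc_scale 3 4 (rkbq0_38.enc h1 h2 h3)) (enc_half (rkbq0_39.enc h1 h2 h3)))⟩
noncomputable def rkbq0_62 : Fn3 := ⟨_, _, fun h1 h2 h3 => (enc_sub h1 (cv2m.enc h2))⟩
noncomputable def rkbq0 : Fn3 := ⟨_, _, fun h1 h2 h3 => (enc_case (enc_sub h1 (cv1m.enc h2)) (enc_add (enc_mul h1 (bf1q0.enc h2 h3)) (enc_mul (enc_norm (enc_sub (enc_pnc _ 1) (lm0m.enc h1 h2))) (enc_norm (enc_sub (kf0q0.enc h2 h3) (enc_mul (c1g.enc h2) (bf1q0.enc h2 h3)))))) (enc_case (rkbq0_62.enc h1 h2 h3) (enc_add (enc_mul h1 (bf2q0.enc h2 h3)) (enc_mul (enc_norm (enc_mul (enc_norm (enc_sub (enc_pnc _ 1) (lm1m.enc h1 h2))) (cv1m.enc h2))) (enc_norm (enc_sub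 (bf1q0.enc h2 h3) (bf2q0.enc h2 h3))))) (enc_case (enc_sub h1 (cv3m.enc h2)) (enc_case (enc_subr 53 250 h2) (rkbq0_36.enc h1 h2 h3) (enc_case (enc_subr 149 500 h2) (enc_add (kf2q0.enc h2 h3) (enc_mul (enc_norm (enc_mul (enc_norm (rkbq0_62.enc h1 h2 h3)) (enc_inv (enc_sub (enc_add (swg.enc h2) (enc_rat _ 1 2)) (cv2m.enc h2))))) (enc_norm (enc_sub (enc_mul h2 (enc_norm (enc_sub (enc_mul (enc_norm (enc_sub (rkbq0_42.enc h1 h2 h3) (enc_sub (enc_rat _ 1 4) (enc_scale 3 8 (enc_mul (enc_norm (rkbq0_38.enc h1 h2 h3)) (enc_inv (rkbq0_39.enc h1 h2 h3))))))) (enc_inv (esg.enc (enc_norm (rkbq0_38.enc h1 h2 h3))))) (kcg.enc (enc_norm (rkbq0_42.enc h1 h2 h3)) h3)))) (kf2q0.enc h2 h3))))) (rkbq0_36.enc h1 h2 h3))) (enc_case (enc_sub h1 (cv4m.enc h2)) (enc_add (enc_mul h1 (bf4q0.enc h2 h3)) (enc_mul (enc_norm (enc_sub (enc_pnc _ 1) (lm3m.enc h1 h2))) (enc_norm (enc_sub (kf3q0.enc h2 h3) (enc_mul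 (cv3m.enc h2) (bf4q0.enc h2 h3)))))) (enc_add (kf4q0.enc h2 h3) (enc_mul (lm4m.enc h1 h2) (enc_norm (enc_sub (kf5q0.enc h2 h3) (kf4q0.enc h2 h3)))))))))⟩
noncomputable def rsbq0 : Fn3 := ⟨_, _, fun h1 h2 h3 => (enc_case h1 (enc_neg (rkbq0.enc (enc_neg h1) h2 h3)) (rkbq0.enc h1 h2 h3))⟩
noncomputable def rkbq1 : Fn3 := ⟨_, _, fun h1 h2 h3 => (enc_case (enc_sub h1 (cv1m.enc h2)) (enc_add (enc_mul h1 (bf1q1.enc h2 h3)) (enc_mul (enc_norm (enc_sub (enc_pnc _ 1) (lm0m.enc h1 h2))) (enc_norm (enc_sub (kf0q1.enc h2 h3) (enc_mul (c1g.enc h2) (bf1q1.enc h2 h3)))))) (enc_case (enc_sub h1 (cv2m.enc h2)) (enc_add (enc_mul h1 (bf2q1.enc h2 h3)) (enc_mul (enc_norm (enc_mul (enc_norm (enc_sub (enc_pnc _ 1) (lm1m.enc h1 h2))) (cv1m.enc h2))) (enc_norm (enc_sub (bf1q1.enc h2 h3) (bf2q1.enc h2 h3))))) (enc_case (enc_sub h1 (cv3m.enc h2)) (enc_add (enc_mul h1 (bf3q1.enc h2 h3)) (enc_mul (enc_norm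 (enc_mul (enc_norm (enc_sub (enc_pnc _ 1) (lm2m.enc h1 h2))) (cv2m.enc h2))) (enc_norm (enc_sub (bf2q1.enc h2 h3) (bf3q1.enc h2 h3))))) (enc_case (enc_sub h1 (cv4m.enc h2)) (enc_add (enc_mul h1 (bf4q1.enc h2 h3)) (enc_mul (enc_norm (enc_mul (enc_norm (enc_sub (enc_pnc _ 1) (lm3m.enc h1 h2))) (cv3m.enc h2))) (enc_norm (enc_sub (bf3q1.enc h2 h3) (bf4q1.enc h2 h3))))) (enc_add (kf4q1.enc h2 h3) (enc_mul (lm4m.enc h1 h2) (enc_norm (enc_sub (kf5q1.enc h2 h3) (kf4q1.enc h2 h3)))))))))⟩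
noncomputable def rsbq1 : Fn3 := ⟨_, _, fun h1 h2 h3 => (enc_case h1 (enc_neg (rkbq1.enc (enc_neg h1) h2 h3)) (rkbq1.enc h1 h2 h3))⟩
noncomputable def cv1p : Fn1 := ⟨_, _, fun h1 => (enc_norm (enc_add (enc_scale 4 5 (c1g.enc h1)) (enc_scale 1 5 (enc_subr 1 2 (swg.enc h1)))))⟩
noncomputable def cv2p : Fn1 := ⟨_, _, fun h1 => (enc_norm (enc_add (enc_half (c1g.enc h1)) (enc_half (enc_subr 1 2 (swg.enc h1)))))⟩
noncomputable def lm4p : Fn2 := ⟨_, _, fun h1 h2 => (enc_lam (enc_norm (enc_sub h1 (cv4p.enc h2))) (enc_sub (c3g.enc h2) (cv4p.enc h2)))⟩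
noncomputable def lm3p : Fn2 := ⟨_, _, fun h1 h2 => (enc_lam (enc_norm (enc_sub h1 (cv3p.enc h2))) (enc_sub (cv4p.enc h2) (cv3p.enc h2)))⟩
noncomputable def lm2p : Fn2 := ⟨_, _, fun h1 h2 => (enc_lam (enc_norm (enc_sub h1 (cv2p.enc h2))) (enc_sub (cv3p.enc h2) (cv2p.enc h2)))⟩
noncomputable def lm1p : Fn2 := ⟨_, _, fun h1 h2 => (enc_lam (enc_norm (enc_sub h1 (cv1p.enc h2))) (enc_sub (cv2p.enc h2) (cv1p.enc h2)))⟩
noncomputable def kf0q2 : Fn2 := ⟨_, _, fun h1 h2 => (enc_norm (enc_add (c1g.enc h1) (enc_mul (enc_norm (enc_subn 1 h1)) (kcg.enc (enc_neg (c1g.enc h1)) h2))))⟩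
noncomputable def lm0p : Fn2 := ⟨_, _, fun h1 h2 => (enc_lam (enc_norm (enc_sub h1 (c1g.enc h2))) (enc_sub (cv1p.enc h2) (c1g.enc h2)))⟩
noncomputable def n0b : Fn2 := ⟨_, _, fun h1 h2 => (enc_norm (enc_sub (enc_pnc _ 1) (enc_mul (enc_norm (enc_subn 1 h1)) (enc_norm (enc_sub (enc_rat _ 25501 10000) (enc_scale 1037 500 (enc_subr 148977 200000 h2)))))))⟩
noncomputable def rkbq2_51 : Fn3 := ⟨_, _, fun h1 h2 h3 => (enc_mul h1 (bf1q2.enc h2 h3))⟩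
noncomputable def rkbq2_53 : Fn3 := ⟨_, _, fun h1 h2 h3 => (enc_sub (enc_pnc _ 1) (lm0p.enc h1 h2))⟩
noncomputable def rkbq2 : Fn3 := ⟨_, _, fun h1 h2 h3 => (enc_case (enc_sub h1 (cv1p.enc h2)) (enc_case (enc_subr 1153 1000 h2) (enc_add (rkbq2_51.enc h1 h2 h3) (enc_mul (enc_norm (rkbq2_53.enc h1 h2 h3)) (enc_norm (enc_sub (kf0q2.enc h2 h3) (enc_mul (c1g.enc h2) (bf1q2.enc h2 h3)))))) (enc_case (enc_subr 2887 2500 h2) (enc_add (rkbq2_51.enc h1 h2 h3) (enc_mul (enc_norm (rkbq2_53.enc h1 h2 h3)) (enc_norm (enc_mul (c1g.enc h2) (enc_norm (enc_sub (n0b.enc h2 h3) (bf1q2.enc h2 h3))))))) (rkbq2_51.enc h1 h2 h3))) (enc_case (enc_sub h1 (cv2p.enc h2)) (enc_add (enc_mul h1 (bf2q2.enc h2 h3)) (enc_mul (enc_norm (enc_mul (enc_norm (enc_sub (enc_pnc _ 1) (lm1p.enc h1 h2))) (cv1p.enc h2))) (enc_norm (enc_sub (bf1q2.enc h2 h3) (bf2q2.enc h2 h3))))) (enc_case (enc_sub h1 (cv3p.enc h2)) (enc_add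 (enc_mul h1 (bf3q2.enc h2 h3)) (enc_mul (enc_norm (enc_mul (enc_norm (enc_sub (enc_pnc _ 1) (lm2p.enc h1 h2))) (cv2p.enc h2))) (enc_norm (enc_sub (bf2q2.enc h2 h3) (bf3q2.enc h2 h3))))) (enc_case (enc_sub h1 (cv4p.enc h2)) (enc_add (enc_mul h1 (bf4q2.enc h2 h3)) (enc_mul (enc_norm (enc_mul (enc_norm (enc_sub (enc_pnc _ 1) (lm3p.enc h1 h2))) (cv3p.enc h2))) (enc_norm (enc_sub (bf3q2.enc h2 h3) (bf4q2.enc h2 h3))))) (enc_add (kf4q2.enc h2 h3) (enc_mul (lm4p.enc h1 h2) (enc_norm (enc_sub (kf5q2.enc h2 h3) (kf4q2.enc h2 h3)))))))))⟩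
noncomputable def rsbq2 : Fn3 := ⟨_, _, fun h1 h2 h3 => (enc_case h1 (enc_neg (rkbq2.enc (enc_neg h1) h2 h3)) (rkbq2.enc h1 h2 h3))⟩
noncomputable def cv3r : Fn1 := ⟨_, _, fun h1 => (enc_norm (enc_add (enc_scale 4 5 (enc_subr 1 2 (swg.enc h1))) (enc_scale 1 5 (c3g.enc h1))))⟩
noncomputable def cv4r : Fn1 := ⟨_, _, fun h1 => (enc_norm (enc_add (enc_scale 2 5 (enc_subr 1 2 (swg.enc h1))) (enc_scale 3 5 (c3g.enc h1))))⟩
noncomputable def kf4q3_4 : Fn2 := ⟨_, _, fun h1 h2 => (enc_subr 148977 200000 h2)⟩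
noncomputable def kf4q3 : Fn2 := ⟨_, _, fun h1 h2 => (enc_norm (enc_mul (cv4r.enc h1) (enc_norm (enc_case (enc_subr 447 250 h1) (enc_case (enc_subr 851 500 h1) (enc_add (enc_subr 1029267 505000 (enc_scale 239 202 h1)) (enc_mul (enc_norm (kf4q3_4.enc h1 h2)) (enc_norm (enc_subr 1348979 50500 (enc_scale 3071 202 h1))))) (enc_add (enc_subr 875959 430000 (enc_scale 1017 860 h1)) (enc_mul (enc_norm (kf4q3_4.enc h1 h2)) (enc_norm (enc_subr 143531 5375 (enc_scale 1307 86 h1)))))) (enc_case (enc_sub (enc_rat _ 429616471 1000000000) (c3g.enc h1)) (enc_add (enc_sub (enc_rat _ 797450022427 1732291340000) (enc_scale 42750000 86614567 (c3g.enc h1))) (enc_mul (enc_norm (kf4q3_4.enc h1 h2)) (enc_norm (enc_sub (enc_rat _ 1029710869423 346458268000) (enc_scale 279250000 86614567 (c3g.enc h1)))))) (enc_add (enc_sub (enc_rat _ 1 2) (enc_scale 251700000 429616471 (c3g.enc h1))) (enc_mul (enc_norm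 (kf4q3_4.enc h1 h2)) (enc_scale 69000000 18678977 (c3g.enc h1)))))))))⟩
noncomputable def kf5q3 : Fn2 := ⟨_, _, fun h1 h2 => (enc_norm (enc_sub (enc_mul (enc_norm (enc_subn 2 h1)) (kcg.enc (enc_norm (enc_sub (enc_scale 1 4 h1) (enc_half (c3g.enc h1)))) h2)) (enc_mul (enc_norm (enc_mul (enc_norm (enc_sub (enc_nat 2 (c3g.enc h1)) h1)) (enc_norm (enc_sub (enc_add (c3g.enc h1) (enc_pnc _ 3)) (enc_scale 3 2 h1))))) (enc_inv (enc_nat 4 (enc_subn 1 h1))))))⟩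
noncomputable def lm4r : Fn2 := ⟨_, _, fun h1 h2 => (enc_lam (enc_norm (enc_sub h1 (cv4r.enc h2))) (enc_sub (c3g.enc h2) (cv4r.enc h2)))⟩
noncomputable def bf4q3_3 : Fn2 := ⟨_, _, fun h1 h2 => (enc_subr 148977 200000 h2)⟩
noncomputable def bf4q3 : Fn2 := ⟨_, _, fun h1 h2 => (enc_norm (enc_case (enc_subr 447 250 h1) (enc_case (enc_subr 851 500 h1) (enc_add (enc_subr 1029267 505000 (enc_scale 239 202 h1)) (enc_mul (enc_norm (bf4q3_3.enc h1 h2)) (enc_norm (enc_subr 1348979 50500 (enc_scale 3071 202 h1))))) (enc_add (enc_subr 875959 430000 (enc_scale 1017 860 h1)) (enc_mul (enc_norm (bf4q3_3.enc h1 h2)) (enc_norm (enc_subr 143531 5375 (enc_scale 1307 86 h1)))))) (enc_case (enc_sub (enc_rat _ 429616471 1000000000) (c3g.enc h1)) (enc_add (enc_sub (enc_rat _ 797450022427 1732291340000) (enc_scale 42750000 86614567 (c3g.enc h1))) (enc_mul (enc_norm (bf4q3_3.enc h1 h2)) (enc_norm (enc_sub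 (enc_rat _ 1029710869423 346458268000) (enc_scale 279250000 86614567 (c3g.enc h1)))))) (enc_add (enc_sub (enc_rat _ 1 2) (enc_scale 251700000 429616471 (c3g.enc h1))) (enc_mul (enc_norm (bf4q3_3.enc h1 h2)) (enc_scale 69000000 18678977 (c3g.enc h1)))))))⟩
noncomputable def lm3r : Fn2 := ⟨_, _, fun h1 h2 => (enc_lam (enc_norm (enc_sub h1 (cv3r.enc h2))) (enc_sub (cv4r.enc h2) (cv3r.enc h2)))⟩
noncomputable def kf3q3_4 : Fn2 := ⟨_, _, fun h1 h2 => (enc_subr 148977 200000 h2)⟩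
noncomputable def kf3q3_29 : Fn2 := ⟨_, _, fun h1 h2 => (enc_subn 1 h1)⟩
noncomputable def kf3q3_30 : Fn2 := ⟨_, _, fun h1 h2 => (gsg.enc (enc_norm (kf3q3_29.enc h1 h2)))⟩
noncomputable def kf3q3_31 : Fn2 := ⟨_, _, fun h1 h2 => (enc_scale 3 4 (kf3q3_29.enc h1 h2))⟩
noncomputable def kf3q3_32 : Fn2 := ⟨_, _, fun h1 h2 => (enc_half (kf3q3_30.enc h1 h2))⟩
noncomputable def kf3q3_51 : Fn2 := ⟨_, _, fun h1 h2 => (enc_subr 851 500 h1)⟩
noncomputable def kf3q3_63 : Fn2 := ⟨_, _, fun h1 h2 => (enc_subr 447 250 h1)⟩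
noncomputable def kf3q3_86 : Fn2 := ⟨_, _, fun h1 h2 => (enc_mul (cv2r.enc h1) (enc_norm (enc_case (kf3q3_51.enc h1 h2) (enc_add (enc_subr 1226143 505000 (enc_scale 3009 2020 h1)) (enc_mul (enc_norm (kf3q3_4.enc h1 h2)) (enc_norm (enc_subr 658923 5050 (enc_scale 7509 101 h1))))) (enc_case (kf3q3_63.enc h1 h2) (enc_add (enc_subr 1043141 430000 (enc_scale 64 43 h1)) (enc_mul (enc_norm (kf3q3_4.enc h1 h2)) (enc_norm (enc_subr 28054 215 (enc_scale 3197 43 h1))))) (enc_add (enc_subr 227 5000 (enc_scale 280700000 776074739 (c3g.enc h1))) (enc_mul (enc_norm (kf3q3_4.enc h1 h2)) (enc_norm (enc_subr 29609 1000 (enc_scale 32061000000 776074739 (c3g.enc h1))))))))))⟩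
noncomputable def kf3q3 : Fn2 := ⟨_, _, fun h1 h2 => (enc_norm (enc_case (kf3q3_51.enc h1 h2) (enc_mul (cv3r.enc h1) (enc_norm (enc_add (enc_subr 380211417 252500000 (enc_scale 112950639 126250000 h1)) (enc_mul (enc_norm (kf3q3_4.enc h1 h2)) (enc_norm (enc_subr 24810551163 202000000 (enc_scale 7355123721 101000000 h1))))))) (enc_case (kf3q3_63.enc h1 h2) (enc_add (kf3q3_86.enc h1 h2) (enc_mul (enc_norm (enc_mul (enc_norm (enc_sub (enc_mul (enc_norm (enc_subn 2 h1)) (enc_norm (enc_add (enc_mul (enc_norm (enc_sub (enc_sub (kf3q3_32.enc h1 h2) (kf3q3_31.enc h1 h2)) (enc_sub (enc_rat _ 1 4) (enc_scale 3 8 (enc_mul (enc_norm (kf3q3_29.enc h1 h2)) (enc_inv (kf3q3_30.enc h1 h2))))))) (enc_inv (esg.enc (enc_norm (kf3q3_29.enc h1 h2))))) (kcg.enc (enc_norm (enc_sub (kf3q3_31.enc h1 h2) (kf3q3_32.enc h1 h2))) h2)))) (kf3q3_86.enc h1 h2))) (enc_norm (enc_sub (cv3r.enc h1) (cv2r.enc h1)))))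 (enc_inv (enc_sub (enc_subr 1 2 (swg.enc h1)) (cv2r.enc h1))))) (enc_mul (cv3r.enc h1) (enc_norm (enc_sub (enc_sub (enc_rat _ 1 2) (enc_scale 825998779 1552149478 (c3g.enc h1))) (enc_mul (enc_norm (kf3q3_4.enc h1 h2)) (enc_scale 1609855507 776074739 (c3g.enc h1)))))))))⟩
noncomputable def bf3q3_3 : Fn2 := ⟨_, _, fun h1 h2 => (enc_subr 148977 200000 h2)⟩
noncomputable def bf3q3 : Fn2 := ⟨_, _, fun h1 h2 => (enc_norm (enc_case (enc_subr 349 200 h1) (enc_add (enc_subr 380211417 252500000 (enc_scale 112950639 126250000 h1)) (enc_mul (enc_norm (bf3q3_3.enc h1 h2)) (enc_norm (enc_subr 24810551163 202000000 (enc_scale 7355123721 101000000 h1))))) (enc_sub (enc_sub (enc_rat _ 1 2) (enc_scale 825998779 1552149478 (c3g.enc h1))) (enc_mul (enc_norm (bf3q3_3.enc h1 h2)) (enc_scale 1609855507 776074739 (c3g.enc h1))))))⟩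
noncomputable def lm2r : Fn2 := ⟨_, _, fun h1 h2 => (enc_lam (enc_norm (enc_sub h1 (cv2r.enc h2))) (enc_sub (cv3r.enc h2) (cv2r.enc h2)))⟩
noncomputable def bf2q3_3 : Fn2 := ⟨_, _, fun h1 h2 => (enc_subr 148977 200000 h2)⟩
noncomputable def bf2q3 : Fn2 := ⟨_, _, fun h1 h2 => (enc_norm (enc_case (enc_subr 851 500 h1) (enc_add (enc_subr 1226143 505000 (enc_scale 3009 2020 h1)) (enc_mul (enc_norm (bf2q3_3.enc h1 h2)) (enc_norm (enc_subr 658923 5050 (enc_scale 7509 101 h1))))) (enc_case (enc_subr 447 250 h1) (enc_add (enc_subr 1043141 430000 (enc_scale 64 43 h1)) (enc_mul (enc_norm (bf2q3_3.enc h1 h2)) (enc_norm (enc_subr 28054 215 (enc_scale 3197 43 h1))))) (enc_add (enc_subr 227 5000 (enc_scale 280700000 776074739 (c3g.enc h1))) (enc_mul (enc_norm (bf2q3_3.enc h1 h2)) (enc_norm (enc_subr 29609 1000 (enc_scale 32061000000 776074739 (c3g.enc h1)))))))))⟩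
noncomputable def lm1r : Fn2 := ⟨_, _, fun h1 h2 => (enc_lam (enc_norm (enc_sub h1 (cv1r.enc h2))) (enc_sub (cv2r.enc h2) (cv1r.enc h2)))⟩
noncomputable def bf1q3_3 : Fn2 := ⟨_, _, fun h1 h2 => (enc_subr 148977 200000 h2)⟩
noncomputable def bf1q3 : Fn2 := ⟨_, _, fun h1 h2 => (enc_norm (enc_case (enc_subr 851 500 h1) (enc_add (enc_subr 1226143 505000 (enc_scale 3009 2020 h1)) (enc_mul (enc_norm (bf1q3_3.enc h1 h2)) (enc_norm (enc_subr 658923 5050 (enc_scale 7509 101 h1))))) (enc_case (enc_subr 447 250 h1) (enc_add (enc_subr 1043141 430000 (enc_scale 64 43 h1)) (enc_mul (enc_norm (bf1q3_3.enc h1 h2)) (enc_norm (enc_subr 28054 215 (enc_scale 3197 43 h1))))) (enc_add (enc_subr 227 5000 (enc_scale 280700000 776074739 (c3g.enc h1))) (enc_mul (enc_norm (bf1q3_3.enc h1 h2)) (enc_norm (enc_subr 2961 100 (enc_scale 32062000000 776074739 (c3g.enc h1)))))))))⟩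
noncomputable def rkbq3_36 : Fn3 := ⟨_, _, fun h1 h2 h3 => (enc_add (enc_mul h1 (bf3q3.enc h2 h3)) (enc_mul (enc_norm (enc_mul (enc_norm (enc_sub (enc_pnc _ 1) (lm2r.enc h1 h2))) (cv2r.enc h2))) (enc_norm (enc_sub (bf2q3.enc h2 h3) (bf3q3.enc h2 h3)))))⟩
noncomputable def rkbq3_37 : Fn3 := ⟨_, _, fun h1 h2 h3 => (enc_subn 1 h2)⟩
noncomputable def rkbq3_38 : Fn3 := ⟨_, _, fun h1 h2 h3 => (gsg.enc (enc_norm (rkbq3_37.enc h1 h2 h3)))⟩
noncomputable def rkbq3_39 : Fn3 := ⟨_, _, fun h1 h2 h3 => (enc_scale 3 4 (rkbq3_37.enc h1 h2 h3))⟩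
noncomputable def rkbq3_40 : Fn3 := ⟨_, _, fun h1 h2 h3 => (enc_half (rkbq3_38.enc h1 h2 h3))⟩
noncomputable def rkbq3_62 : Fn3 := ⟨_, _, fun h1 h2 h3 => (enc_sub h1 (cv2r.enc h2))⟩
noncomputable def rkbq3 : Fn3 := ⟨_, _, fun h1 h2 h3 => (enc_case (enc_sub h1 (cv1r.enc h2)) (enc_mul h1 (bf1q3.enc h2 h3)) (enc_case (rkbq3_62.enc h1 h2 h3) (enc_add (enc_mul h1 (bf2q3.enc h2 h3)) (enc_mul (enc_norm (enc_mul (enc_norm (enc_sub (enc_pnc _ 1) (lm1r.enc h1 h2))) (cv1r.enc h2))) (enc_norm (enc_sub (bf1q3.enc h2 h3) (bf2q3.enc h2 h3))))) (enc_case (enc_sub h1 (cv3r.enc h2)) (enc_case (enc_subr 851 500 h2) (rkbq3_36.enc h1 h2 h3) (enc_case (enc_subr 447 250 h2) (enc_add (kf2q3.enc h2 h3) (enc_mul (enc_norm (enc_mul (enc_norm (rkbq3_62.enc h1 h2 h3)) (enc_inv (enc_sub (enc_subr 1 2 (swg.enc h2)) (cv2r.enc h2))))) (enc_norm (enc_sub (enc_mul (enc_norm (enc_subn 2 h2)) (enc_norm (enc_add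 (enc_mul (enc_norm (enc_sub (enc_sub (rkbq3_40.enc h1 h2 h3) (rkbq3_39.enc h1 h2 h3)) (enc_sub (enc_rat _ 1 4) (enc_scale 3 8 (enc_mul (enc_norm (rkbq3_37.enc h1 h2 h3)) (enc_inv (rkbq3_38.enc h1 h2 h3))))))) (enc_inv (esg.enc (enc_norm (rkbq3_37.enc h1 h2 h3))))) (kcg.enc (enc_norm (enc_sub (rkbq3_39.enc h1 h2 h3) (rkbq3_40.enc h1 h2 h3))) h3)))) (kf2q3.enc h2 h3))))) (rkbq3_36.enc h1 h2 h3))) (enc_case (enc_sub h1 (cv4r.enc h2)) (enc_add (enc_mul h1 (bf4q3.enc h2 h3)) (enc_mul (enc_norm (enc_sub (enc_pnc _ 1) (lm3r.enc h1 h2))) (enc_norm (enc_sub (kf3q3.enc h2 h3) (enc_mul (cv3r.enc h2) (bf4q3.enc h2 h3)))))) (enc_add (kf4q3.enc h2 h3) (enc_mul (lm4r.enc h1 h2) (enc_norm (enc_sub (kf5q3.enc h2 h3) (kf4q3.enc h2 h3)))))))))⟩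
noncomputable def rsbq3 : Fn3 := ⟨_, _, fun h1 h2 h3 => (enc_case h1 (enc_neg (rkbq3.enc (enc_neg h1) h2 h3)) (rkbq3.enc h1 h2 h3))⟩
noncomputable def bx3q0_3 : Fn2 := ⟨_, _, fun h1 h2 => (enc_subr 148977 200000 h2)⟩
noncomputable def bx3q0_39 : Fn2 := ⟨_, _, fun h1 h2 => (enc_sq (enc_norm (bx3q0_3.enc h1 h2)))⟩
noncomputable def bx3q0 : Fn2 := ⟨_, _, fun h1 h2 => (enc_norm (enc_case (enc_subr 51 200 h1) (enc_case (enc_subr 53 500 h1) (enc_add (enc_add (enc_scale 31 106 h1) (enc_rat _ 159 2000)) (enc_mul (enc_norm (bx3q0_3.enc h1 h2)) (enc_norm (enc_sub (enc_rat _ 191 1000) (enc_scale 49 106 h1))))) (enc_case (enc_subr 159 1000 h1) (enc_add (enc_add (enc_scale 28 265 h1) (enc_rat _ 993 10000)) (enc_mul (enc_norm (bx3q0_3.enc h1 h2)) (enc_norm (enc_sub (enc_rat _ 24 125) (enc_scale 25 53 h1))))) (enc_add (enc_add (enc_add (enc_scale 12645543 530000000 h1) (enc_rat _ 1123063371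 10000000000)) (enc_mul (enc_norm (bx3q0_3.enc h1 h2)) (enc_norm (enc_sub (enc_rat _ 5745807 40000000) (enc_scale 355269 2120000 h1))))) (enc_mul (bx3q0_39.enc h1 h2) (enc_norm (enc_subr 343431 500000 (enc_scale 114477 26500 h1))))))) (enc_case (enc_subr 181 500 h1) (enc_add (enc_add (enc_sub (enc_rat _ 39939004469 320000000000) (enc_scale 38027649 640000000 h1)) (enc_mul (enc_norm (bx3q0_3.enc h1 h2)) (enc_norm (enc_sub (enc_rat _ 2152529741 6400000000) (enc_scale 11432761 12800000 h1))))) (enc_mul (bx3q0_39.enc h1 h2) (enc_norm (enc_sub (enc_rat _ 475849 8000000) (enc_scale 2629 16000 h1))))) (enc_add (enc_sub (enc_rat _ 14323 115000) (enc_scale 27 460 h1)) (enc_mul (enc_norm (bx3q0_3.enc h1 h2)) (enc_norm (enc_subr 6701 34500 (enc_scale 79 138 h1))))))))⟩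
noncomputable def rxq0_36 : Fn3 := ⟨_, _, fun h1 h2 h3 => (enc_add (enc_mul h1 (bx3q0.enc h2 h3)) (enc_mul (enc_norm (enc_mul (enc_norm (enc_sub (enc_pnc _ 1) (lm2m.enc h1 h2))) (cv2m.enc h2))) (enc_norm (enc_sub (bx2q0.enc h2 h3) (bx3q0.enc h2 h3)))))⟩
noncomputable def rxq0_38 : Fn3 := ⟨_, _, fun h1 h2 h3 => (enc_sub (enc_pnc _ 1) h2)⟩
noncomputable def rxq0_55 : Fn3 := ⟨_, _, fun h1 h2 h3 => (enc_sub h1 (cv2m.enc h2))⟩
noncomputable def rxq0 : Fn3 := ⟨_, _, fun h1 h2 h3 => (enc_case (enc_sub h1 (cv1m.enc h2)) (enc_add (enc_mul h1 (bx1q0.enc h2 h3)) (enc_mul (enc_norm (enc_sub (enc_pnc _ 1) (lm0m.enc h1 h2))) (enc_norm (enc_sub (l0q0.enc h2 h3) (enc_mul (c1g.enc h2) (bx1q0.enc h2 h3)))))) (enc_case (rxq0_55.enc h1 h2 h3) (enc_add (enc_mul h1 (bx2q0.enc h2 h3)) (enc_mul (enc_norm (enc_mul (enc_norm (enc_sub (enc_pnc _ 1) (lm1m.enc h1 h2))) (cv1m.enc h2))) (enc_norm (enc_sub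 (bx1q0.enc h2 h3) (bx2q0.enc h2 h3))))) (enc_case (enc_sub h1 (cv3m.enc h2)) (enc_case (enc_subr 53 250 h2) (rxq0_36.enc h1 h2 h3) (enc_case (enc_subr 149 500 h2) (enc_add (l2q0.enc h2 h3) (enc_mul (enc_norm (enc_mul (enc_norm (rxq0_55.enc h1 h2 h3)) (enc_inv (enc_sub (enc_add (swg.enc h2) (enc_rat _ 1 2)) (cv2m.enc h2))))) (enc_norm (enc_sub (enc_sub (qsg.enc (enc_norm (rxq0_38.enc h1 h2 h3))) (enc_mul (enc_norm (enc_nat 2 (enc_sub (rxq0_38.enc h1 h2 h3) h3))) (enc_norm (enc_mul (esg.enc (enc_norm (rxq0_38.enc h1 h2 h3))) (kcg.enc (enc_norm (enc_sub (enc_scale 3 4 (rxq0_38.enc h1 h2 h3)) (enc_half (gsg.enc (enc_norm (rxq0_38.enc h1 h2 h3)))))) h3))))) (l2q0.enc h2 h3))))) (rxq0_36.enc h1 h2 h3))) (enc_case (enc_sub h1 (cv4m.enc h2)) (enc_add (enc_mul h1 (bx4q0.enc h2 h3)) (enc_mul (enc_norm (enc_sub (enc_pnc _ 1) (lm3m.enc h1 h2))) (enc_norm (enc_sub (l3q0.enc h2 h3) (enc_mul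 (cv3m.enc h2) (bx4q0.enc h2 h3)))))) (enc_add (l4q0.enc h2 h3) (enc_mul (lm4m.enc h1 h2) (enc_norm (enc_sub (l5q0.enc h2 h3) (l4q0.enc h2 h3)))))))))⟩
noncomputable def rlq0 : Fn3 := ⟨_, _, fun h1 h2 h3 => (enc_case h1 (enc_neg (rxq0.enc (enc_neg h1) h2 h3)) (rxq0.enc h1 h2 h3))⟩
noncomputable def rxq1 : Fn3 := ⟨_, _, fun h1 h2 h3 => (enc_case (enc_sub h1 (cv1m.enc h2)) (enc_add (enc_mul h1 (bx1q1.enc h2 h3)) (enc_mul (enc_norm (enc_sub (enc_pnc _ 1) (lm0m.enc h1 h2))) (enc_norm (enc_sub (l0q1.enc h2 h3) (enc_mul (c1g.enc h2) (bx1q1.enc h2 h3)))))) (enc_case (enc_sub h1 (cv2m.enc h2)) (enc_add (enc_mul h1 (bx2q1.enc h2 h3)) (enc_mul (enc_norm (enc_mul (enc_norm (enc_sub (enc_pnc _ 1) (lm1m.enc h1 h2))) (cv1m.enc h2))) (enc_norm (enc_sub (bx1q1.enc h2 h3) (bx2q1.enc h2 h3))))) (enc_case (enc_sub h1 (cv3m.enc h2)) (enc_add (enc_mul h1 (bx3q1.enc h2 h3)) (enc_mul (enc_norm (enc_mul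 (enc_norm (enc_sub (enc_pnc _ 1) (lm2m.enc h1 h2))) (cv2m.enc h2))) (enc_norm (enc_sub (bx2q1.enc h2 h3) (bx3q1.enc h2 h3))))) (enc_case (enc_sub h1 (cv4m.enc h2)) (enc_add (enc_mul h1 (bx4q1.enc h2 h3)) (enc_mul (enc_norm (enc_mul (enc_norm (enc_sub (enc_pnc _ 1) (lm3m.enc h1 h2))) (cv3m.enc h2))) (enc_norm (enc_sub (bx3q1.enc h2 h3) (bx4q1.enc h2 h3))))) (enc_add (l4q1.enc h2 h3) (enc_mul (lm4m.enc h1 h2) (enc_norm (enc_sub (l5q1.enc h2 h3) (l4q1.enc h2 h3)))))))))⟩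
noncomputable def rlq1 : Fn3 := ⟨_, _, fun h1 h2 h3 => (enc_case h1 (enc_neg (rxq1.enc (enc_neg h1) h2 h3)) (rxq1.enc h1 h2 h3))⟩
noncomputable def l0q2_7 : Fn2 := ⟨_, _, fun h1 h2 => (enc_scale 3 4 h1)⟩
noncomputable def l0q2_8 : Fn2 := ⟨_, _, fun h1 h2 => (enc_half (c1g.enc h1))⟩
noncomputable def l0q2 : Fn2 := ⟨_, _, fun h1 h2 => (enc_norm (enc_sub (txg.enc (enc_neg (c1g.enc h1)) (enc_norm (enc_add (l0q2_7.enc h1 h2) (l0q2_8.enc h1 h2))) h2) (txg.enc (c1g.enc h1) (enc_norm (enc_sub (l0q2_7.enc h1 h2) (l0q2_8.enc h1 h2))) h2)))⟩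
noncomputable def n0x : Fn2 := ⟨_, _, fun h1 h2 => (enc_norm (enc_subr 5363 20000 (enc_neg (enc_scale 5369 100000 (enc_subr 148977 200000 h2)))))⟩
noncomputable def rxq2_51 : Fn3 := ⟨_, _, fun h1 h2 h3 => (enc_mul h1 (bx1q2.enc h2 h3))⟩
noncomputable def rxq2_53 : Fn3 := ⟨_, _, fun h1 h2 h3 => (enc_sub (enc_pnc _ 1) (lm0p.enc h1 h2))⟩
noncomputable def rxq2 : Fn3 := ⟨_, _, fun h1 h2 h3 => (enc_case (enc_sub h1 (cv1p.enc h2)) (enc_case (enc_subr 1149 1000 h2) (enc_add (rxq2_51.enc h1 h2 h3) (enc_mul (enc_norm (rxq2_53.enc h1 h2 h3)) (enc_norm (enc_sub (l0q2.enc h2 h3) (enc_mul (c1g.enc h2) (bx1q2.enc h2 h3)))))) (enc_case (enc_subr 2887 2500 h2) (enc_add (rxq2_51.enc h1 h2 h3) (enc_mul (enc_norm (rxq2_53.enc h1 h2 h3)) (enc_norm (enc_mul (c1g.enc h2) (enc_norm (enc_sub (n0x.enc h2 h3) (bx1q2.enc h2 h3))))))) (rxq2_51.enc h1 h2 h3))) (enc_case (enc_sub h1 (cv2p.enc h2)) (enc_add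 (enc_mul h1 (bx2q2.enc h2 h3)) (enc_mul (enc_norm (enc_mul (enc_norm (enc_sub (enc_pnc _ 1) (lm1p.enc h1 h2))) (cv1p.enc h2))) (enc_norm (enc_sub (bx1q2.enc h2 h3) (bx2q2.enc h2 h3))))) (enc_case (enc_sub h1 (cv3p.enc h2)) (enc_add (enc_mul h1 (bx3q2.enc h2 h3)) (enc_mul (enc_norm (enc_mul (enc_norm (enc_sub (enc_pnc _ 1) (lm2p.enc h1 h2))) (cv2p.enc h2))) (enc_norm (enc_sub (bx2q2.enc h2 h3) (bx3q2.enc h2 h3))))) (enc_case (enc_sub h1 (cv4p.enc h2)) (enc_add (enc_mul h1 (bx4q2.enc h2 h3)) (enc_mul (enc_norm (enc_mul (enc_norm (enc_sub (enc_pnc _ 1) (lm3p.enc h1 h2))) (cv3p.enc h2))) (enc_norm (enc_sub (bx3q2.enc h2 h3) (bx4q2.enc h2 h3))))) (enc_add (l4q2.enc h2 h3) (enc_mul (lm4p.enc h1 h2) (enc_norm (enc_sub (l5q2.enc h2 h3) (l4q2.enc h2 h3)))))))))⟩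
noncomputable def rlq2 : Fn3 := ⟨_, _, fun h1 h2 h3 => (enc_case h1 (enc_neg (rxq2.enc (enc_neg h1) h2 h3)) (rxq2.enc h1 h2 h3))⟩
noncomputable def l4q3_4 : Fn2 := ⟨_, _, fun h1 h2 => (enc_subr 148977 200000 h2)⟩
noncomputable def l4q3 : Fn2 := ⟨_, _, fun h1 h2 => (enc_norm (enc_mul (cv4r.enc h1) (enc_norm (enc_case (enc_subr 447 250 h1) (enc_case (enc_subr 851 500 h1) (enc_add (enc_subr 408877 505000 (enc_scale 1211 2020 h1)) (enc_mul (enc_norm (l4q3_4.enc h1 h2)) (enc_norm (enc_sub (enc_rat _ 154957 50500) (enc_scale 172 101 h1))))) (enc_add (enc_subr 21729 26875 (enc_scale 103 172 h1)) (enc_mul (enc_norm (l4q3_4.enc h1 h2)) (enc_norm (enc_sub (enc_rat _ 132407 43000) (enc_scale 147 86 h1)))))) (enc_case (enc_sub (enc_rat _ 556392847 1000000000) (c3g.enc h1)) (enc_add (enc_sub (enc_rat _ 445653808031 439363784000) (enc_scale 53225000 54920473 (c3g.enc h1))) (enc_mul (enc_norm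 (l4q3_4.enc h1 h2)) (enc_norm (enc_sub (enc_rat _ 112927072237 219681892000) (enc_scale 34750000 54920473 (c3g.enc h1)))))) (enc_case (enc_sub (enc_rat _ 429616471 1000000000) (c3g.enc h1)) (enc_add (enc_sub (enc_rat _ 230260341683 422587920000) (enc_scale 662500 5282349 (c3g.enc h1))) (enc_mul (enc_norm (l4q3_4.enc h1 h2)) (enc_norm (enc_sub (enc_rat _ 4258358909 3961761750) (enc_scale 26000000 15847047 (c3g.enc h1)))))) (enc_add (enc_add (enc_scale 122619500 429616471 (c3g.enc h1)) (enc_rat _ 736761 2000000)) (enc_mul (enc_norm (l4q3_4.enc h1 h2)) (enc_norm (enc_sub (enc_rat _ 91633 50000) (enc_scale 1462660000 429616471 (c3g.enc h1))))))))))))⟩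
noncomputable def l5q3_7 : Fn2 := ⟨_, _, fun h1 h2 => (enc_half (c3g.enc h1))⟩
noncomputable def l5q3_8 : Fn2 := ⟨_, _, fun h1 h2 => (enc_scale 1 4 h1)⟩
noncomputable def l5q3_9 : Fn2 := ⟨_, _, fun h1 h2 => (enc_sub (l5q3_7.enc h1 h2) (l5q3_8.enc h1 h2))⟩
noncomputable def l5q3_12 : Fn2 := ⟨_, _, fun h1 h2 => (enc_add (enc_scale 1 4 (c3g.enc h1)) (enc_scale 3 8 h1))⟩
noncomputable def l5q3_14 : Fn2 := ⟨_, _, fun h1 h2 => (enc_half (l5q3_9.enc h1 h2))⟩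
noncomputable def l5q3 : Fn2 := ⟨_, _, fun h1 h2 => (enc_norm (enc_sub (enc_nat 2 (txg.enc (enc_norm (enc_sub (l5q3_8.enc h1 h2) (l5q3_7.enc h1 h2))) (enc_norm (enc_add (l5q3_12.enc h1 h2) (l5q3_14.enc h1 h2))) h2)) (txg.enc (enc_norm (l5q3_9.enc h1 h2)) (enc_norm (enc_sub (l5q3_12.enc h1 h2) (l5q3_14.enc h1 h2))) h2)))⟩
noncomputable def bx4q3_3 : Fn2 := ⟨_, _, fun h1 h2 => (enc_subr 148977 200000 h2)⟩
noncomputable def bx4q3 : Fn2 := ⟨_, _, fun h1 h2 => (enc_norm (enc_case (enc_subr 447 250 h1) (enc_case (enc_subr 851 500 h1) (enc_add (enc_subr 408877 505000 (enc_scale 1211 2020 h1)) (enc_mul (enc_norm (bx4q3_3.enc h1 h2)) (enc_norm (enc_sub (enc_rat _ 154957 50500) (enc_scale 172 101 h1))))) (enc_add (enc_subr 21729 26875 (enc_scale 103 172 h1)) (enc_mul (enc_norm (bx4q3_3.enc h1 h2)) (enc_norm (enc_sub (enc_rat _ 132407 43000) (enc_scale 147 86 h1)))))) (enc_case (enc_sub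 (enc_rat _ 556392847 1000000000) (c3g.enc h1)) (enc_add (enc_sub (enc_rat _ 445653808031 439363784000) (enc_scale 53225000 54920473 (c3g.enc h1))) (enc_mul (enc_norm (bx4q3_3.enc h1 h2)) (enc_norm (enc_sub (enc_rat _ 112927072237 219681892000) (enc_scale 34750000 54920473 (c3g.enc h1)))))) (enc_case (enc_sub (enc_rat _ 429616471 1000000000) (c3g.enc h1)) (enc_add (enc_sub (enc_rat _ 230260341683 422587920000) (enc_scale 662500 5282349 (c3g.enc h1))) (enc_mul (enc_norm (bx4q3_3.enc h1 h2)) (enc_norm (enc_sub (enc_rat _ 4258358909 3961761750) (enc_scale 26000000 15847047 (c3g.enc h1)))))) (enc_add (enc_add (enc_scale 122619500 429616471 (c3g.enc h1)) (enc_rat _ 736761 2000000)) (enc_mul (enc_norm (bx4q3_3.enc h1 h2)) (enc_norm (enc_sub (enc_rat _ 91633 50000) (enc_scale 1462660000 429616471 (c3g.enc h1))))))))))⟩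
noncomputable def l3q3_4 : Fn2 := ⟨_, _, fun h1 h2 => (enc_subr 148977 200000 h2)⟩
noncomputable def l3q3_43 : Fn2 := ⟨_, _, fun h1 h2 => (enc_sq (enc_norm (l3q3_4.enc h1 h2)))⟩
noncomputable def l3q3_93 : Fn2 := ⟨_, _, fun h1 h2 => (enc_subn 1 h1)⟩
noncomputable def l3q3_108 : Fn2 := ⟨_, _, fun h1 h2 => (enc_subr 851 500 h1)⟩
noncomputable def l3q3_120 : Fn2 := ⟨_, _, fun h1 h2 => (enc_subr 447 250 h1)⟩
noncomputable def l3q3_143 : Fn2 := ⟨_, _, fun h1 h2 => (enc_mul (cv2r.enc h1) (enc_norm (enc_case (l3q3_108.enc h1 h2) (enc_add (enc_subr 1814309 1010000 (enc_scale 692 505 h1)) (enc_mul (enc_norm (l3q3_4.enc h1 h2)) (enc_norm (enc_sub (enc_rat _ 467563 101000) (enc_scale 487 202 h1))))) (enc_case (l3q3_120.enc h1 h2) (enc_add (enc_subr 193223 107500 (enc_scale 1179 860 h1)) (enc_mul (enc_norm (l3q3_4.enc h1 h2)) (enc_norm (enc_sub (enc_rat _ 7951 1720) (enc_scale 207 86 h1)))))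 (enc_add (enc_sub (enc_rat _ 7411 10000) (enc_scale 87300000 776074739 (c3g.enc h1))) (enc_mul (enc_norm (l3q3_4.enc h1 h2)) (enc_norm (enc_sub (enc_rat _ 2429 250) (enc_scale 9397000000 776074739 (c3g.enc h1))))))))))⟩
noncomputable def l3q3 : Fn2 := ⟨_, _, fun h1 h2 => (enc_norm (enc_case (l3q3_108.enc h1 h2) (enc_mul (cv3r.enc h1) (enc_norm (enc_case (enc_subr 1601 1000 h1) (enc_add (enc_subr 1160213 1010000 (enc_scale 457 505 h1)) (enc_mul (enc_norm (l3q3_4.enc h1 h2)) (enc_norm (enc_sub (enc_rat _ 665179 50500) (enc_scale 782 101 h1))))) (enc_case (enc_subr 413 250 h1) (enc_add (enc_subr 195537 170000 (enc_scale 77 85 h1)) (enc_mul (enc_norm (l3q3_4.enc h1 h2)) (enc_norm (enc_sub (enc_rat _ 158089 10200) (enc_scale 469 51 h1))))) (enc_add (enc_add (enc_subr 143725776037 125000000000 (enc_scale 452816649 500000000 h1)) (enc_mul (enc_norm (l3q3_4.enc h1 h2)) (enc_norm (enc_sub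 (enc_rat _ 39026401363 12500000000) (enc_scale 85203151 50000000 h1))))) (enc_mul (l3q3_43.enc h1 h2) (enc_norm (enc_subr 17448011 12500000 (enc_scale 42247 50000 h1))))))))) (enc_case (l3q3_120.enc h1 h2) (enc_add (l3q3_143.enc h1 h2) (enc_mul (enc_norm (enc_mul (enc_norm (enc_sub (enc_sub (qsg.enc (enc_norm (l3q3_93.enc h1 h2))) (enc_mul (enc_norm (enc_nat 2 (enc_sub (l3q3_93.enc h1 h2) h2))) (enc_norm (enc_mul (esg.enc (enc_norm (l3q3_93.enc h1 h2))) (kcg.enc (enc_norm (enc_sub (enc_scale 3 4 (l3q3_93.enc h1 h2)) (enc_half (gsg.enc (enc_norm (l3q3_93.enc h1 h2)))))) h2))))) (l3q3_143.enc h1 h2))) (enc_norm (enc_sub (cv3r.enc h1) (cv2r.enc h1))))) (enc_inv (enc_sub (enc_subr 1 2 (swg.enc h1)) (cv2r.enc h1))))) (enc_mul (cv3r.enc h1) (enc_norm (enc_case (enc_sub (enc_rat _ 676785971 1000000000) (c3g.enc h1)) (enc_add (enc_add (enc_sub (enc_rat _ 442154423308714283 496443840000000000)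 (enc_scale 266450473 496443840 (c3g.enc h1))) (enc_mul (enc_norm (l3q3_4.enc h1 h2)) (enc_norm (enc_sub (enc_rat _ 56663985661361711 49644384000000000) (enc_scale 42353941 49644384 (c3g.enc h1)))))) (enc_mul (l3q3_43.enc h1 h2) (enc_norm (enc_subr 109503293321829 16548128000000 (enc_scale 20224875 2068516 (c3g.enc h1)))))) (enc_case (enc_sub (enc_rat _ 556392847 1000000000) (c3g.enc h1)) (enc_add (enc_sub (enc_rat _ 372296331639 601965620000) (enc_scale 4050000 30098281 (c3g.enc h1))) (enc_mul (enc_norm (l3q3_4.enc h1 h2)) (enc_norm (enc_sub (enc_rat _ 220178565411 120393124000) (enc_scale 56250000 30098281 (c3g.enc h1)))))) (enc_add (enc_add (enc_scale 175219500 556392847 (c3g.enc h1)) (enc_rat _ 736761 2000000)) (enc_mul (enc_norm (l3q3_4.enc h1 h2)) (enc_norm (enc_sub (enc_rat _ 91633 50000) (enc_scale 1043660000 556392847 (c3g.enc h1)))))))))))))⟩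
noncomputable def bx3q3_3 : Fn2 := ⟨_, _, fun h1 h2 => (enc_subr 148977 200000 h2)⟩
noncomputable def bx3q3_42 : Fn2 := ⟨_, _, fun h1 h2 => (enc_sq (enc_norm (bx3q3_3.enc h1 h2)))⟩
noncomputable def bx3q3 : Fn2 := ⟨_, _, fun h1 h2 => (enc_norm (enc_case (enc_subr 349 200 h1) (enc_case (enc_subr 1601 1000 h1) (enc_add (enc_subr 1160213 1010000 (enc_scale 457 505 h1)) (enc_mul (enc_norm (bx3q3_3.enc h1 h2)) (enc_norm (enc_sub (enc_rat _ 665179 50500) (enc_scale 782 101 h1))))) (enc_case (enc_subr 413 250 h1) (enc_add (enc_subr 195537 170000 (enc_scale 77 85 h1)) (enc_mul (enc_norm (bx3q3_3.enc h1 h2)) (enc_norm (enc_sub (enc_rat _ 158089 10200) (enc_scale 469 51 h1))))) (enc_add (enc_add (enc_subr 143725776037 125000000000 (enc_scale 452816649 500000000 h1)) (enc_mul (enc_norm (bx3q3_3.enc h1 h2)) (enc_norm (enc_sub (enc_rat _ 39026401363 12500000000) (enc_scale 85203151 50000000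 h1))))) (enc_mul (bx3q3_42.enc h1 h2) (enc_norm (enc_subr 17448011 12500000 (enc_scale 42247 50000 h1))))))) (enc_case (enc_sub (enc_rat _ 676785971 1000000000) (c3g.enc h1)) (enc_add (enc_add (enc_sub (enc_rat _ 442154423308714283 496443840000000000) (enc_scale 266450473 496443840 (c3g.enc h1))) (enc_mul (enc_norm (bx3q3_3.enc h1 h2)) (enc_norm (enc_sub (enc_rat _ 56663985661361711 49644384000000000) (enc_scale 42353941 49644384 (c3g.enc h1)))))) (enc_mul (bx3q3_42.enc h1 h2) (enc_norm (enc_subr 109503293321829 16548128000000 (enc_scale 20224875 2068516 (c3g.enc h1)))))) (enc_case (enc_sub (enc_rat _ 556392847 1000000000) (c3g.enc h1)) (enc_add (enc_sub (enc_rat _ 372296331639 601965620000) (enc_scale 4050000 30098281 (c3g.enc h1))) (enc_mul (enc_norm (bx3q3_3.enc h1 h2)) (enc_norm (enc_sub (enc_rat _ 220178565411 120393124000) (enc_scale 56250000 30098281 (c3g.enc h1))))))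 (enc_add (enc_add (enc_scale 175219500 556392847 (c3g.enc h1)) (enc_rat _ 736761 2000000)) (enc_mul (enc_norm (bx3q3_3.enc h1 h2)) (enc_norm (enc_sub (enc_rat _ 91633 50000) (enc_scale 1043660000 556392847 (c3g.enc h1))))))))))⟩
noncomputable def bx2q3_3 : Fn2 := ⟨_, _, fun h1 h2 => (enc_subr 148977 200000 h2)⟩
noncomputable def bx2q3 : Fn2 := ⟨_, _, fun h1 h2 => (enc_norm (enc_case (enc_subr 851 500 h1) (enc_add (enc_subr 1814309 1010000 (enc_scale 692 505 h1)) (enc_mul (enc_norm (bx2q3_3.enc h1 h2)) (enc_norm (enc_sub (enc_rat _ 467563 101000) (enc_scale 487 202 h1))))) (enc_case (enc_subr 447 250 h1) (enc_add (enc_subr 193223 107500 (enc_scale 1179 860 h1)) (enc_mul (enc_norm (bx2q3_3.enc h1 h2)) (enc_norm (enc_sub (enc_rat _ 7951 1720) (enc_scale 207 86 h1))))) (enc_add (enc_sub (enc_rat _ 7411 10000) (enc_scale 87300000 776074739 (c3g.enc h1))) (enc_mul (enc_norm (bx2q3_3.enc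 h1 h2)) (enc_norm (enc_sub (enc_rat _ 2429 250) (enc_scale 9397000000 776074739 (c3g.enc h1)))))))))⟩
noncomputable def bx1q3_3 : Fn2 := ⟨_, _, fun h1 h2 => (enc_subr 148977 200000 h2)⟩
noncomputable def bx1q3 : Fn2 := ⟨_, _, fun h1 h2 => (enc_norm (enc_case (enc_subr 851 500 h1) (enc_add (enc_subr 998737 505000 (enc_scale 299 202 h1)) (enc_mul (enc_norm (bx1q3_3.enc h1 h2)) (enc_norm (enc_subr 22161 20200 (enc_scale 87 101 h1))))) (enc_case (enc_subr 447 250 h1) (enc_add (enc_subr 170087 86000 (enc_scale 1273 860 h1)) (enc_mul (enc_norm (bx1q3_3.enc h1 h2)) (enc_norm (enc_subr 23979 21500 (enc_scale 75 86 h1))))) (enc_add (enc_sub (enc_rat _ 3631 5000) (enc_scale 57300000 776074739 (c3g.enc h1))) (enc_mul (enc_norm (bx1q3_3.enc h1 h2)) (enc_norm (enc_sub (enc_rat _ 4797 500) (enc_scale 9150000000 776074739 (c3g.enc h1)))))))))⟩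
noncomputable def rxq3_36 : Fn3 := ⟨_, _, fun h1 h2 h3 => (enc_add (enc_mul h1 (bx3q3.enc h2 h3)) (enc_mul (enc_norm (enc_mul (enc_norm (enc_sub (enc_pnc _ 1) (lm2r.enc h1 h2))) (cv2r.enc h2))) (enc_norm (enc_sub (bx2q3.enc h2 h3) (bx3q3.enc h2 h3)))))⟩
noncomputable def rxq3_37 : Fn3 := ⟨_, _, fun h1 h2 h3 => (enc_subn 1 h2)⟩
noncomputable def rxq3_55 : Fn3 := ⟨_, _, fun h1 h2 h3 => (enc_sub h1 (cv2r.enc h2))⟩
noncomputable def rxq3 : Fn3 := ⟨_, _, fun h1 h2 h3 => (enc_case (enc_sub h1 (cv1r.enc h2)) (enc_mul h1 (bx1q3.enc h2 h3)) (enc_case (rxq3_55.enc h1 h2 h3) (enc_add (enc_mul h1 (bx2q3.enc h2 h3)) (enc_mul (enc_norm (enc_mul (enc_norm (enc_sub (enc_pnc _ 1) (lm1r.enc h1 h2))) (cv1r.enc h2))) (enc_norm (enc_sub (bx1q3.enc h2 h3) (bx2q3.enc h2 h3))))) (enc_case (enc_sub h1 (cv3r.enc h2)) (enc_case (enc_subr 851 500 h2) (rxq3_36.enc h1 h2 h3) (enc_case (enc_subr 447 250 h2)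 (enc_add (l2q3.enc h2 h3) (enc_mul (enc_norm (enc_mul (enc_norm (rxq3_55.enc h1 h2 h3)) (enc_inv (enc_sub (enc_subr 1 2 (swg.enc h2)) (cv2r.enc h2))))) (enc_norm (enc_sub (enc_sub (qsg.enc (enc_norm (rxq3_37.enc h1 h2 h3))) (enc_mul (enc_norm (enc_nat 2 (enc_sub (rxq3_37.enc h1 h2 h3) h3))) (enc_norm (enc_mul (esg.enc (enc_norm (rxq3_37.enc h1 h2 h3))) (kcg.enc (enc_norm (enc_sub (enc_scale 3 4 (rxq3_37.enc h1 h2 h3)) (enc_half (gsg.enc (enc_norm (rxq3_37.enc h1 h2 h3)))))) h3))))) (l2q3.enc h2 h3))))) (rxq3_36.enc h1 h2 h3))) (enc_case (enc_sub h1 (cv4r.enc h2)) (enc_add (enc_mul h1 (bx4q3.enc h2 h3)) (enc_mul (enc_norm (enc_sub (enc_pnc _ 1) (lm3r.enc h1 h2))) (enc_norm (enc_sub (l3q3.enc h2 h3) (enc_mul (cv3r.enc h2) (bx4q3.enc h2 h3)))))) (enc_add (l4q3.enc h2 h3) (enc_mul (lm4r.enc h1 h2) (enc_norm (enc_sub (l5q3.enc h2 h3) (l4q3.enc h2 h3)))))))))⟩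
noncomputable def rlq3 : Fn3 := ⟨_, _, fun h1 h2 h3 => (enc_case h1 (enc_neg (rxq3.enc (enc_neg h1) h2 h3)) (rxq3.enc h1 h2 h3))⟩
noncomputable def bd3q0_3 : Fn2 := ⟨_, _, fun h1 h2 => (enc_subr 148977 200000 h2)⟩
noncomputable def bd3q0 : Fn2 := ⟨_, _, fun h1 h2 => (enc_norm (enc_case (enc_subr 51 200 h1) (enc_add (enc_subr 10801 10000 (enc_neg (enc_scale 6157390059 1060000000 h1))) (enc_mul (enc_norm (bd3q0_3.enc h1 h2)) (enc_norm (enc_add (enc_scale 2205355901 212000000 h1) (enc_rat _ 203 250))))) (enc_add (enc_subr 1314423211 505000000 (enc_scale 644439711 252500000 h1)) (enc_mul (enc_norm (bd3q0_3.enc h1 h2)) (enc_norm (enc_subr 480156141 202000000 (enc_scale 802548141 101000000 h1)))))))⟩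
noncomputable def rcq0_36 : Fn3 := ⟨_, _, fun h1 h2 h3 => (enc_add (enc_mul h1 (bd3q0.enc h2 h3)) (enc_mul (enc_norm (enc_mul (enc_norm (enc_sub (enc_pnc _ 1) (lm2m.enc h1 h2))) (cv2m.enc h2))) (enc_norm (enc_sub (bd2q0.enc h2 h3) (bd3q0.enc h2 h3)))))⟩
noncomputable def rcq0_38 : Fn3 := ⟨_, _, fun h1 h2 h3 => (enc_sub (enc_pnc _ 1) h2)⟩
noncomputable def rcq0_39 : Fn3 := ⟨_, _, fun h1 h2 h3 => (gsg.enc (enc_norm (rcq0_38.enc h1 h2 h3)))⟩
noncomputable def rcq0_43 : Fn3 := ⟨_, _, fun h1 h2 h3 => (esg.enc (enc_norm (rcq0_38.enc h1 h2 h3)))⟩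
noncomputable def rcq0_47 : Fn3 := ⟨_, _, fun h1 h2 h3 => (gug.enc (enc_norm (rcq0_38.enc h1 h2 h3)))⟩
noncomputable def rcq0_49 : Fn3 := ⟨_, _, fun h1 h2 h3 => (enc_mul (enc_norm (rcq0_38.enc h1 h2 h3)) (enc_inv (rcq0_39.enc h1 h2 h3)))⟩
noncomputable def rcq0_50 : Fn3 := ⟨_, _, fun h1 h2 h3 => (enc_scale 3 4 (rcq0_49.enc h1 h2 h3))⟩
noncomputable def rcq0_80 : Fn3 := ⟨_, _, fun h1 h2 h3 => (enc_sub h1 (cv2m.enc h2))⟩
noncomputable def rcq0 : Fn3 := ⟨_, _, fun h1 h2 h3 => (enc_case (enc_sub h1 (cv1m.enc h2)) (enc_add (enc_mul h1 (bd1q0.enc h2 h3)) (enc_mul (enc_norm (enc_sub (enc_pnc _ 1) (lm0m.enc h1 h2))) (enc_norm (enc_sub (kc0q0.enc h2 h3) (enc_mul (c1g.enc h2) (bd1q0.enc h2 h3)))))) (enc_case (rcq0_80.enc h1 h2 h3) (enc_add (enc_mul h1 (bd2q0.enc h2 h3)) (enc_mul (enc_norm (enc_mul (enc_norm (enc_sub (enc_pnc _ 1) (lm1m.enc h1 h2))) (cv1m.enc h2))) (enc_norm (enc_sub (bd1q0.enc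 h2 h3) (bd2q0.enc h2 h3))))) (enc_case (enc_sub h1 (cv3m.enc h2)) (enc_case (enc_subr 53 250 h2) (rcq0_36.enc h1 h2 h3) (enc_case (enc_subr 149 500 h2) (enc_add (kc2q0.enc h2 h3) (enc_mul (enc_norm (enc_mul (enc_norm (rcq0_80.enc h1 h2 h3)) (enc_inv (enc_sub (enc_add (swg.enc h2) (enc_rat _ 1 2)) (cv2m.enc h2))))) (enc_norm (enc_sub (enc_add (enc_sub (enc_neg (enc_add (enc_add (enc_rat _ 3 4) (enc_scale 3 2 (rcq0_38.enc h1 h2 h3))) (enc_scale 3 4 (enc_mul (enc_norm (rcq0_49.enc h1 h2 h3)) (rcq0_47.enc h1 h2 h3))))) (enc_mul (enc_norm (enc_sub (enc_mul (enc_norm (enc_mul (enc_norm (rcq0_50.enc h1 h2 h3)) (enc_norm (enc_subn 3 (enc_nat 4 (rcq0_39.enc h1 h2 h3)))))) (rcq0_43.enc h1 h2 h3)) (enc_mul (qsg.enc (enc_norm (rcq0_38.enc h1 h2 h3))) (enc_norm (enc_sub (enc_rat _ 1 2) (rcq0_50.enc h1 h2 h3)))))) (enc_inv (enc_mul (enc_nat 2 (rcq0_43.enc h1 h2 h3)) (rcq0_43.enc h1 h2 h3)))))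 (enc_mul (kcg.enc (enc_norm (enc_sub (enc_scale 3 4 (rcq0_38.enc h1 h2 h3)) (enc_half (rcq0_39.enc h1 h2 h3)))) h3) (enc_norm (enc_add (enc_pnc _ 1) (enc_add (rcq0_47.enc h1 h2 h3) (enc_nat 2 (rcq0_39.enc h1 h2 h3))))))) (kc2q0.enc h2 h3))))) (rcq0_36.enc h1 h2 h3))) (enc_case (enc_sub h1 (cv4m.enc h2)) (enc_add (enc_mul h1 (bd4q0.enc h2 h3)) (enc_mul (enc_norm (enc_sub (enc_pnc _ 1) (lm3m.enc h1 h2))) (enc_norm (enc_sub (kc3q0.enc h2 h3) (enc_mul (cv3m.enc h2) (bd4q0.enc h2 h3)))))) (enc_add (kc4q0.enc h2 h3) (enc_mul (lm4m.enc h1 h2) (enc_norm (enc_sub (kc5q0.enc h2 h3) (kc4q0.enc h2 h3)))))))))⟩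
noncomputable def pd0 : Fn3 := ⟨_, _, fun h1 h2 h3 => (enc_case h1 (enc_neg (rcq0.enc (enc_neg h1) h2 h3)) (rcq0.enc h1 h2 h3))⟩
noncomputable def rcq1 : Fn3 := ⟨_, _, fun h1 h2 h3 => (enc_case (enc_sub h1 (cv1m.enc h2)) (enc_add (enc_mul h1 (bd1q1.enc h2 h3)) (enc_mul (enc_norm (enc_sub (enc_pnc _ 1) (lm0m.enc h1 h2))) (enc_norm (enc_sub (kc0q1.enc h2 h3) (enc_mul (c1g.enc h2) (bd1q1.enc h2 h3)))))) (enc_case (enc_sub h1 (cv2m.enc h2)) (enc_add (enc_mul h1 (bd2q1.enc h2 h3)) (enc_mul (enc_norm (enc_mul (enc_norm (enc_sub (enc_pnc _ 1) (lm1m.enc h1 h2))) (cv1m.enc h2))) (enc_norm (enc_sub (bd1q1.enc h2 h3) (bd2q1.enc h2 h3))))) (enc_case (enc_sub h1 (cv3m.enc h2)) (enc_add (enc_mul h1 (bd3q1.enc h2 h3)) (enc_mul (enc_norm (enc_mul (enc_norm (enc_sub (enc_pnc _ 1) (lm2m.enc h1 h2))) (cv2m.enc h2))) (enc_norm (enc_sub (bd2q1.enc h2 h3) (bd3q1.enc h2 h3))))) (enc_case (enc_sub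 h1 (cv4m.enc h2)) (enc_add (enc_mul h1 (bd4q1.enc h2 h3)) (enc_mul (enc_norm (enc_mul (enc_norm (enc_sub (enc_pnc _ 1) (lm3m.enc h1 h2))) (cv3m.enc h2))) (enc_norm (enc_sub (bd3q1.enc h2 h3) (bd4q1.enc h2 h3))))) (enc_add (kc4q1.enc h2 h3) (enc_mul (lm4m.enc h1 h2) (enc_norm (enc_sub (kc5q1.enc h2 h3) (kc4q1.enc h2 h3)))))))))⟩
noncomputable def pd1 : Fn3 := ⟨_, _, fun h1 h2 h3 => (enc_case h1 (enc_neg (rcq1.enc (enc_neg h1) h2 h3)) (rcq1.enc h1 h2 h3))⟩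
noncomputable def kc0q2 : Fn2 := ⟨_, _, fun h1 h2 => (enc_pnc _ 0)⟩
noncomputable def n0d : Fn2 := ⟨_, _, fun h1 h2 => (enc_pnc _ 0)⟩
noncomputable def rcq2_51 : Fn3 := ⟨_, _, fun h1 h2 h3 => (enc_mul h1 (bd1q2.enc h2 h3))⟩
noncomputable def rcq2_53 : Fn3 := ⟨_, _, fun h1 h2 h3 => (enc_sub (enc_pnc _ 1) (lm0p.enc h1 h2))⟩
noncomputable def rcq2 : Fn3 := ⟨_, _, fun h1 h2 h3 => (enc_case (enc_sub h1 (cv1p.enc h2)) (enc_case (enc_subr 1149 1000 h2) (enc_add (rcq2_51.enc h1 h2 h3) (enc_mul (enc_norm (rcq2_53.enc h1 h2 h3)) (enc_norm (enc_sub (kc0q2.enc h2 h3) (enc_mul (c1g.enc h2) (bd1q2.enc h2 h3)))))) (enc_case (enc_subr 2887 2500 h2) (enc_add (rcq2_51.enc h1 h2 h3) (enc_mul (enc_norm (rcq2_53.enc h1 h2 h3)) (enc_norm (enc_mul (c1g.enc h2) (enc_norm (enc_sub (n0d.enc h2 h3) (bd1q2.enc h2 h3))))))) (rcq2_51.enc h1 h2 h3))) (enc_case (enc_sub h1 (cv2p.enc h2)) (enc_add (enc_mul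 h1 (bd2q2.enc h2 h3)) (enc_mul (enc_norm (enc_mul (enc_norm (enc_sub (enc_pnc _ 1) (lm1p.enc h1 h2))) (cv1p.enc h2))) (enc_norm (enc_sub (bd1q2.enc h2 h3) (bd2q2.enc h2 h3))))) (enc_case (enc_sub h1 (cv3p.enc h2)) (enc_add (enc_mul h1 (bd3q2.enc h2 h3)) (enc_mul (enc_norm (enc_mul (enc_norm (enc_sub (enc_pnc _ 1) (lm2p.enc h1 h2))) (cv2p.enc h2))) (enc_norm (enc_sub (bd2q2.enc h2 h3) (bd3q2.enc h2 h3))))) (enc_case (enc_sub h1 (cv4p.enc h2)) (enc_add (enc_mul h1 (bd4q2.enc h2 h3)) (enc_mul (enc_norm (enc_mul (enc_norm (enc_sub (enc_pnc _ 1) (lm3p.enc h1 h2))) (cv3p.enc h2))) (enc_norm (enc_sub (bd3q2.enc h2 h3) (bd4q2.enc h2 h3))))) (enc_add (kc4q2.enc h2 h3) (enc_mul (lm4p.enc h1 h2) (enc_norm (enc_sub (kc5q2.enc h2 h3) (kc4q2.enc h2 h3)))))))))⟩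
noncomputable def pd2 : Fn3 := ⟨_, _, fun h1 h2 h3 => (enc_case h1 (enc_neg (rcq2.enc (enc_neg h1) h2 h3)) (rcq2.enc h1 h2 h3))⟩
noncomputable def kc4q3_4 : Fn2 := ⟨_, _, fun h1 h2 => (enc_subr 148977 200000 h2)⟩
noncomputable def kc4q3 : Fn2 := ⟨_, _, fun h1 h2 => (enc_norm (enc_mul (cv4r.enc h1) (enc_norm (enc_case (enc_subr 851 500 h1) (enc_add (enc_subr 2500339 1010000 (enc_scale 2479 1010 h1)) (enc_mul (enc_norm (kc4q3_4.enc h1 h2)) (enc_norm (enc_subr 1429231 101000 (enc_scale 1853 101 h1))))) (enc_case (enc_subr 447 250 h1) (enc_add (enc_subr 266161 107500 (enc_scale 2111 860 h1)) (enc_mul (enc_norm (kc4q3_4.enc h1 h2)) (enc_norm (enc_subr 608653 43000 (enc_scale 789 43 h1))))) (enc_add (enc_add (enc_scale 124371000000 129604481413 (c3g.enc h1)) (enc_rat _ 1951 1670)) (enc_mul (enc_norm (kc4q3_4.enc h1 h2)) (enc_norm (enc_sub (enc_rat _ 18451 167) (enc_scale 15335949000000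 129604481413 (c3g.enc h1)))))))))))⟩
noncomputable def kc5q3_3 : Fn2 := ⟨_, _, fun h1 h2 => (enc_subr 148977 200000 h2)⟩
noncomputable def kc5q3_9 : Fn2 := ⟨_, _, fun h1 h2 => (enc_sub (enc_half (c3g.enc h1)) (enc_scale 1 4 h1))⟩
noncomputable def kc5q3_25 : Fn2 := ⟨_, _, fun h1 h2 => (enc_scale 508 415 (kc5q3_9.enc h1 h2))⟩
noncomputable def kc5q3_28 : Fn2 := ⟨_, _, fun h1 h2 => (enc_scale 3041 83 (kc5q3_9.enc h1 h2))⟩
noncomputable def kc5q3 : Fn2 := ⟨_, _, fun h1 h2 => (enc_norm (enc_case (kc5q3_9.enc h1 h2) (enc_case (enc_add (kc5q3_9.enc h1 h2) (enc_rat _ 333 1000)) (enc_add (enc_add (enc_scale 1951 835 (kc5q3_9.enc h1 h2)) (enc_rat _ 1951 1670)) (enc_mul (enc_norm (kc5q3_3.enc h1 h2)) (enc_norm (enc_add (enc_scale 36902 167 (kc5q3_9.enc h1 h2)) (enc_rat _ 18451 167))))) (enc_case (enc_add (kc5q3_9.enc h1 h2) (enc_rat _ 167 1000)) (enc_add (enc_add (kc5q3_25.enc h1 h2)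 (enc_rat _ 331097 415000)) (enc_mul (enc_norm (kc5q3_3.enc h1 h2)) (enc_norm (enc_sub (enc_rat _ 2050213 83000) (kc5q3_28.enc h1 h2))))) (enc_add (enc_add (enc_scale 409 334 (kc5q3_9.enc h1 h2)) (enc_rat _ 7979 10000)) (enc_mul (enc_norm (kc5q3_3.enc h1 h2)) (enc_norm (enc_sub (enc_rat _ 12351 500) (enc_scale 6118 167 (kc5q3_9.enc h1 h2)))))))) (enc_case (enc_subr 167 1000 (kc5q3_9.enc h1 h2)) (enc_add (enc_add (enc_scale 1022 835 (kc5q3_9.enc h1 h2)) (enc_rat _ 7979 10000)) (enc_mul (enc_norm (kc5q3_3.enc h1 h2)) (enc_norm (enc_sub (enc_rat _ 12351 500) (enc_scale 6119 167 (kc5q3_9.enc h1 h2)))))) (enc_case (enc_subr 333 1000 (kc5q3_9.enc h1 h2)) (enc_add (enc_add (kc5q3_25.enc h1 h2) (enc_rat _ 662237 830000)) (enc_mul (enc_norm (kc5q3_3.enc h1 h2)) (enc_norm (enc_sub (enc_rat _ 512559 20750) (kc5q3_28.enc h1 h2))))) (enc_add (enc_sub (enc_rat _ 2411 668) (enc_scale 2411 334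 (kc5q3_9.enc h1 h2))) (enc_mul (enc_norm (kc5q3_3.enc h1 h2)) (enc_norm (enc_sub (enc_rat _ 12501 334) (enc_scale 12501 167 (kc5q3_9.enc h1 h2))))))))))⟩
noncomputable def bd4q3_3 : Fn2 := ⟨_, _, fun h1 h2 => (enc_subr 148977 200000 h2)⟩
noncomputable def bd4q3 : Fn2 := ⟨_, _, fun h1 h2 => (enc_norm (enc_case (enc_subr 851 500 h1) (enc_add (enc_subr 2500339 1010000 (enc_scale 2479 1010 h1)) (enc_mul (enc_norm (bd4q3_3.enc h1 h2)) (enc_norm (enc_subr 1429231 101000 (enc_scale 1853 101 h1))))) (enc_case (enc_subr 447 250 h1) (enc_add (enc_subr 266161 107500 (enc_scale 2111 860 h1)) (enc_mul (enc_norm (bd4q3_3.enc h1 h2)) (enc_norm (enc_subr 608653 43000 (enc_scale 789 43 h1))))) (enc_add (enc_add (enc_scale 124371000000 129604481413 (c3g.enc h1)) (enc_rat _ 1951 1670)) (enc_mul (enc_norm (bd4q3_3.enc h1 h2)) (enc_norm (enc_sub (enc_rat _ 18451 167) (enc_scale 15335949000000 129604481413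 (c3g.enc h1)))))))))⟩
noncomputable def kc3q3_4 : Fn2 := ⟨_, _, fun h1 h2 => (enc_subr 148977 200000 h2)⟩
noncomputable def kc3q3_28 : Fn2 := ⟨_, _, fun h1 h2 => (enc_subn 1 h1)⟩
noncomputable def kc3q3_29 : Fn2 := ⟨_, _, fun h1 h2 => (gsg.enc (enc_norm (kc3q3_28.enc h1 h2)))⟩
noncomputable def kc3q3_33 : Fn2 := ⟨_, _, fun h1 h2 => (esg.enc (enc_norm (kc3q3_28.enc h1 h2)))⟩
noncomputable def kc3q3_38 : Fn2 := ⟨_, _, fun h1 h2 => (gug.enc (enc_norm (kc3q3_28.enc h1 h2)))⟩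
noncomputable def kc3q3_40 : Fn2 := ⟨_, _, fun h1 h2 => (enc_mul (enc_norm (kc3q3_28.enc h1 h2)) (enc_inv (kc3q3_29.enc h1 h2)))⟩
noncomputable def kc3q3_41 : Fn2 := ⟨_, _, fun h1 h2 => (enc_scale 3 4 (kc3q3_40.enc h1 h2))⟩
noncomputable def kc3q3_69 : Fn2 := ⟨_, _, fun h1 h2 => (enc_subr 851 500 h1)⟩
noncomputable def kc3q3_81 : Fn2 := ⟨_, _, fun h1 h2 => (enc_subr 447 250 h1)⟩
noncomputable def kc3q3_104 : Fn2 := ⟨_, _, fun h1 h2 => (enc_mul (cv2r.enc h1) (enc_norm (enc_case (kc3q3_69.enc h1 h2) (enc_add (enc_subr 615843 50500 (enc_scale 10611 1010 h1)) (enc_mul (enc_norm (kc3q3_4.enc h1 h2)) (enc_norm (enc_sub (enc_rat _ 1065563 101000) (enc_scale 1419 202 h1))))) (enc_case (kc3q3_81.enc h1 h2) (enc_add (enc_subr 5243719 430000 (enc_scale 1807 172 h1)) (enc_mul (enc_norm (kc3q3_4.enc h1 h2)) (enc_norm (enc_sub (enc_rat _ 454397 43000) (enc_scale 605 86 h1))))) (enc_add (enc_subr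 5291 5000 (enc_scale 7647900000 776074739 (c3g.enc h1))) (enc_mul (enc_norm (kc3q3_4.enc h1 h2)) (enc_norm (enc_sub (enc_rat _ 9373 100) (enc_scale 95741000000 776074739 (c3g.enc h1))))))))))⟩
noncomputable def kc3q3 : Fn2 := ⟨_, _, fun h1 h2 => (enc_norm (enc_case (kc3q3_69.enc h1 h2) (enc_mul (cv3r.enc h1) (enc_norm (enc_add (enc_subr 34470494067 4040000000 (enc_scale 13711356689 2020000000 h1)) (enc_mul (enc_norm (kc3q3_4.enc h1 h2)) (enc_norm (enc_sub (enc_rat _ 3384258117 40400000) (enc_scale 991736039 20200000 h1))))))) (enc_case (kc3q3_81.enc h1 h2) (enc_add (kc3q3_104.enc h1 h2) (enc_mul (enc_norm (enc_mul (enc_norm (enc_sub (enc_add (enc_sub (enc_add (enc_add (enc_rat _ 3 4) (enc_scale 3 2 (kc3q3_28.enc h1 h2))) (enc_scale 3 4 (enc_mul (enc_norm (kc3q3_40.enc h1 h2)) (kc3q3_38.enc h1 h2)))) (enc_mul (enc_norm (enc_sub (enc_mul (enc_norm (enc_mul (enc_norm (kc3q3_41.enc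 h1 h2)) (enc_norm (enc_subn 3 (enc_nat 4 (kc3q3_29.enc h1 h2)))))) (kc3q3_33.enc h1 h2)) (enc_mul (qsg.enc (enc_norm (kc3q3_28.enc h1 h2))) (enc_norm (enc_sub (enc_rat _ 1 2) (kc3q3_41.enc h1 h2)))))) (enc_inv (enc_mul (enc_nat 2 (kc3q3_33.enc h1 h2)) (kc3q3_33.enc h1 h2))))) (enc_mul (kcg.enc (enc_norm (enc_sub (enc_scale 3 4 (kc3q3_28.enc h1 h2)) (enc_half (kc3q3_29.enc h1 h2)))) h2) (enc_norm (enc_sub (enc_pnc _ 1) (enc_add (kc3q3_38.enc h1 h2) (enc_nat 2 (kc3q3_29.enc h1 h2))))))) (kc3q3_104.enc h1 h2))) (enc_norm (enc_sub (cv3r.enc h1) (cv2r.enc h1))))) (enc_inv (enc_sub (enc_subr 1 2 (swg.enc h1)) (cv2r.enc h1))))) (enc_mul (cv3r.enc h1) (enc_norm (enc_add (enc_add (enc_scale 2604674218491 648022407065 (c3g.enc h1)) (enc_rat _ 1951 1670)) (enc_mul (enc_norm (kc3q3_4.enc h1 h2)) (enc_norm (enc_sub (enc_rat _ 18451 167) (enc_scale 19288171317968 129604481413 (c3g.enc h1)))))))))))⟩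
noncomputable def bd3q3_3 : Fn2 := ⟨_, _, fun h1 h2 => (enc_subr 148977 200000 h2)⟩
noncomputable def bd3q3 : Fn2 := ⟨_, _, fun h1 h2 => (enc_norm (enc_case (enc_subr 349 200 h1) (enc_add (enc_subr 34470494067 4040000000 (enc_scale 13711356689 2020000000 h1)) (enc_mul (enc_norm (bd3q3_3.enc h1 h2)) (enc_norm (enc_sub (enc_rat _ 3384258117 40400000) (enc_scale 991736039 20200000 h1))))) (enc_add (enc_add (enc_scale 2604674218491 648022407065 (c3g.enc h1)) (enc_rat _ 1951 1670)) (enc_mul (enc_norm (bd3q3_3.enc h1 h2)) (enc_norm (enc_sub (enc_rat _ 18451 167) (enc_scale 19288171317968 129604481413 (c3g.enc h1))))))))⟩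
noncomputable def bd2q3_3 : Fn2 := ⟨_, _, fun h1 h2 => (enc_subr 148977 200000 h2)⟩
noncomputable def bd2q3 : Fn2 := ⟨_, _, fun h1 h2 => (enc_norm (enc_case (enc_subr 851 500 h1) (enc_add (enc_subr 615843 50500 (enc_scale 10611 1010 h1)) (enc_mul (enc_norm (bd2q3_3.enc h1 h2)) (enc_norm (enc_sub (enc_rat _ 1065563 101000) (enc_scale 1419 202 h1))))) (enc_case (enc_subr 447 250 h1) (enc_add (enc_subr 5243719 430000 (enc_scale 1807 172 h1)) (enc_mul (enc_norm (bd2q3_3.enc h1 h2)) (enc_norm (enc_sub (enc_rat _ 454397 43000) (enc_scale 605 86 h1))))) (enc_add (enc_subr 5291 5000 (enc_scale 7647900000 776074739 (c3g.enc h1))) (enc_mul (enc_norm (bd2q3_3.enc h1 h2)) (enc_norm (enc_sub (enc_rat _ 9373 100) (enc_scale 95741000000 776074739 (c3g.enc h1)))))))))⟩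
noncomputable def bd1q3_3 : Fn2 := ⟨_, _, fun h1 h2 => (enc_subr 148977 200000 h2)⟩
noncomputable def bd1q3 : Fn2 := ⟨_, _, fun h1 h2 => (enc_norm (enc_case (enc_subr 851 500 h1) (enc_add (enc_subr 12113127 1010000 (enc_scale 4195 404 h1)) (enc_mul (enc_norm (bd1q3_3.enc h1 h2)) (enc_norm (enc_sub (enc_rat _ 50201 50500) (enc_scale 87 101 h1))))) (enc_case (enc_subr 447 250 h1) (enc_add (enc_subr 1289279 107500 (enc_scale 893 86 h1)) (enc_mul (enc_norm (bd1q3_3.enc h1 h2)) (enc_norm (enc_sub (enc_rat _ 43529 43000) (enc_scale 75 86 h1))))) (enc_add (enc_subr 241 250 (enc_scale 7536800000 776074739 (c3g.enc h1))) (enc_mul (enc_norm (bd1q3_3.enc h1 h2)) (enc_norm (enc_sub (enc_rat _ 21391 250) (enc_scale 86111000000 776074739 (c3g.enc h1)))))))))⟩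
noncomputable def rcq3_36 : Fn3 := ⟨_, _, fun h1 h2 h3 => (enc_add (enc_mul h1 (bd3q3.enc h2 h3)) (enc_mul (enc_norm (enc_mul (enc_norm (enc_sub (enc_pnc _ 1) (lm2r.enc h1 h2))) (cv2r.enc h2))) (enc_norm (enc_sub (bd2q3.enc h2 h3) (bd3q3.enc h2 h3)))))⟩
noncomputable def rcq3_37 : Fn3 := ⟨_, _, fun h1 h2 h3 => (enc_subn 1 h2)⟩
noncomputable def rcq3_38 : Fn3 := ⟨_, _, fun h1 h2 h3 => (gsg.enc (enc_norm (rcq3_37.enc h1 h2 h3)))⟩
noncomputable def rcq3_42 : Fn3 := ⟨_, _, fun h1 h2 h3 => (esg.enc (enc_norm (rcq3_37.enc h1 h2 h3)))⟩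
noncomputable def rcq3_47 : Fn3 := ⟨_, _, fun h1 h2 h3 => (gug.enc (enc_norm (rcq3_37.enc h1 h2 h3)))⟩
noncomputable def rcq3_49 : Fn3 := ⟨_, _, fun h1 h2 h3 => (enc_mul (enc_norm (rcq3_37.enc h1 h2 h3)) (enc_inv (rcq3_38.enc h1 h2 h3)))⟩
noncomputable def rcq3_50 : Fn3 := ⟨_, _, fun h1 h2 h3 => (enc_scale 3 4 (rcq3_49.enc h1 h2 h3))⟩
noncomputable def rcq3_80 : Fn3 := ⟨_, _, fun h1 h2 h3 => (enc_sub h1 (cv2r.enc h2))⟩
noncomputable def rcq3 : Fn3 := ⟨_, _, fun h1 h2 h3 => (enc_case (enc_sub h1 (cv1r.enc h2)) (enc_mul h1 (bd1q3.enc h2 h3)) (enc_case (rcq3_80.enc h1 h2 h3) (enc_add (enc_mul h1 (bd2q3.enc h2 h3)) (enc_mul (enc_norm (enc_mul (enc_norm (enc_sub (enc_pnc _ 1) (lm1r.enc h1 h2))) (cv1r.enc h2))) (enc_norm (enc_sub (bd1q3.enc h2 h3) (bd2q3.enc h2 h3))))) (enc_case (enc_sub h1 (cv3r.enc h2)) (enc_case (enc_subr 851 500 h2) (rcq3_36.enc h1 h2 h3) (enc_case (enc_subr 447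 250 h2) (enc_add (kc2q3.enc h2 h3) (enc_mul (enc_norm (enc_mul (enc_norm (rcq3_80.enc h1 h2 h3)) (enc_inv (enc_sub (enc_subr 1 2 (swg.enc h2)) (cv2r.enc h2))))) (enc_norm (enc_sub (enc_add (enc_sub (enc_add (enc_add (enc_rat _ 3 4) (enc_scale 3 2 (rcq3_37.enc h1 h2 h3))) (enc_scale 3 4 (enc_mul (enc_norm (rcq3_49.enc h1 h2 h3)) (rcq3_47.enc h1 h2 h3)))) (enc_mul (enc_norm (enc_sub (enc_mul (enc_norm (enc_mul (enc_norm (rcq3_50.enc h1 h2 h3)) (enc_norm (enc_subn 3 (enc_nat 4 (rcq3_38.enc h1 h2 h3)))))) (rcq3_42.enc h1 h2 h3)) (enc_mul (qsg.enc (enc_norm (rcq3_37.enc h1 h2 h3))) (enc_norm (enc_sub (enc_rat _ 1 2) (rcq3_50.enc h1 h2 h3)))))) (enc_inv (enc_mul (enc_nat 2 (rcq3_42.enc h1 h2 h3)) (rcq3_42.enc h1 h2 h3))))) (enc_mul (kcg.enc (enc_norm (enc_sub (enc_scale 3 4 (rcq3_37.enc h1 h2 h3)) (enc_half (rcq3_38.enc h1 h2 h3)))) h3) (enc_norm (enc_sub (enc_pnc _ 1) (enc_add (rcq3_47.enc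 h1 h2 h3) (enc_nat 2 (rcq3_38.enc h1 h2 h3))))))) (kc2q3.enc h2 h3))))) (rcq3_36.enc h1 h2 h3))) (enc_case (enc_sub h1 (cv4r.enc h2)) (enc_add (enc_mul h1 (bd4q3.enc h2 h3)) (enc_mul (enc_norm (enc_sub (enc_pnc _ 1) (lm3r.enc h1 h2))) (enc_norm (enc_sub (kc3q3.enc h2 h3) (enc_mul (cv3r.enc h2) (bd4q3.enc h2 h3)))))) (enc_add (kc4q3.enc h2 h3) (enc_mul (lm4r.enc h1 h2) (enc_norm (enc_sub (kc5q3.enc h2 h3) (kc4q3.enc h2 h3)))))))))⟩
noncomputable def pd3 : Fn3 := ⟨_, _, fun h1 h2 h3 => (enc_case h1 (enc_neg (rcq3.enc (enc_neg h1) h2 h3)) (rcq3.enc h1 h2 h3))⟩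
noncomputable def mug3 : Fn1 := ⟨_, _, fun h1 => (enc_inv (enc_add (enc_nat 2 (gsg.enc h1)) (enc_pnc _ 3)))⟩
noncomputable def eng : Fn1 := ⟨_, _, fun h1 => (enc_norm (enc_add (enc_pnc _ 1) (enc_mul (mug3.enc h1) (gug.enc h1))))⟩
noncomputable def mog : Fn1 := ⟨_, _, fun h1 => (enc_norm (enc_scale 1 20 (enc_mul (mug3.enc h1) (esg.enc h1))))⟩
noncomputable def kf1q2 : Fn2 := ⟨_, _, fun h1 h2 => (enc_norm (enc_mul (cv1p.enc h1) (bf1q2.enc h1 h2)))⟩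
noncomputable def l1q2 : Fn2 := ⟨_, _, fun h1 h2 => (enc_norm (enc_mul (cv1p.enc h1) (bx1q2.enc h1 h2)))⟩
noncomputable def kc1q2 : Fn2 := ⟨_, _, fun h1 h2 => (enc_norm (enc_mul (cv1p.enc h1) (bd1q2.enc h1 h2)))⟩
noncomputable def kf2q2 : Fn2 := ⟨_, _, fun h1 h2 => (enc_norm (enc_mul (cv2p.enc h1) (bf2q2.enc h1 h2)))⟩
noncomputable def l2q2 : Fn2 := ⟨_, _, fun h1 h2 => (enc_norm (enc_mul (cv2p.enc h1) (bx2q2.enc h1 h2)))⟩
noncomputable def kc2q2 : Fn2 := ⟨_, _, fun h1 h2 => (enc_norm (enc_mul (cv2p.enc h1) (bd2q2.enc h1 h2)))⟩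

noncomputable def ndB0q0 : Node := ⟨idf, c1g, kf0q0, l0q0⟩
noncomputable def cd0q0 : Fn2 := kc0q0
noncomputable def ndB0q1 : Node := ⟨idf, c1g, kf0q1, l0q1⟩
noncomputable def cd0q1 : Fn2 := kc0q1
noncomputable def ndB0q2 : Node := ⟨yag, idf, kfc02, lc02⟩
noncomputable def cd0q2 : Fn2 := kcc02
noncomputable def ndB1q0 : Node := ⟨idf, cv1m, kf1q0, l1q0⟩
noncomputable def cd1q0 : Fn2 := kc1q0
noncomputable def ndB1q1 : Node := ⟨idf, cv1m, kf1q1, l1q1⟩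
noncomputable def cd1q1 : Fn2 := kc1q1
noncomputable def ndB1q2a : Node := ⟨yag, xc12a, kfc12a, lc12a⟩
noncomputable def cd1q2a : Fn2 := kcc12a
noncomputable def ndB1q2b : Node := ⟨idf, xc12b, kfc12b, lc12b⟩
noncomputable def cd1q2b : Fn2 := kcc12b
noncomputable def ndB1q3 : Node := ⟨idf, cv1r, kf1q3, l1q3⟩
noncomputable def cd1q3 : Fn2 := kc1q3
noncomputable def ndB2q0 : Node := ⟨idf, cv2m, kf2q0, l2q0⟩
noncomputable def cd2q0 : Fn2 := kc2q0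
noncomputable def ndB2q1 : Node := ⟨idf, cv2m, kf2q1, l2q1⟩
noncomputable def cd2q1 : Fn2 := kc2q1
noncomputable def ndB2q2a : Node := ⟨yag, xc22a, kfc22a, lc22a⟩
noncomputable def cd2q2a : Fn2 := kcc22a
noncomputable def ndB2q2b : Node := ⟨idf, xc22b, kfc22b, lc22b⟩
noncomputable def cd2q2b : Fn2 := kcc22b
noncomputable def ndB2q3 : Node := ⟨idf, cv2r, kf2q3, l2q3⟩
noncomputable def cd2q3 : Fn2 := kc2q3
noncomputable def ndB3q0 : Node := ⟨idf, cv3m, kf3q0, l3q0⟩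
noncomputable def cd3q0 : Fn2 := kc3q0
noncomputable def ndB3q1 : Node := ⟨idf, cv3m, kf3q1, l3q1⟩
noncomputable def cd3q1 : Fn2 := kc3q1
noncomputable def ndB3q2 : Node := ⟨idf, cv3p, kf3q2, l3q2⟩
noncomputable def cd3q2 : Fn2 := kc3q2
noncomputable def ndB3q3 : Node := ⟨ycg, xc33, kfc33, lc33⟩
noncomputable def cd3q3 : Fn2 := kcc33
noncomputable def ndB4q0 : Node := ⟨idf, cv4m, kf4q0, l4q0⟩
noncomputable def cd4q0 : Fn2 := kc4q0
noncomputable def ndB4q1 : Node := ⟨idf, cv4m, kf4q1, l4q1⟩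
noncomputable def cd4q1 : Fn2 := kc4q1
noncomputable def ndB4q2 : Node := ⟨idf, cv4p, kf4q2, l4q2⟩
noncomputable def cd4q2 : Fn2 := kc4q2
noncomputable def ndB4q3 : Node := ⟨ycg, xc43, kfc43, lc43⟩
noncomputable def cd4q3 : Fn2 := kcc43
noncomputable def ndB5q0 : Node := ⟨idf, c3g, kf5q0, l5q0⟩
noncomputable def cd5q0 : Fn2 := kc5q0
noncomputable def ndB5q1 : Node := ⟨idf, c3g, kf5q1, l5q1⟩
noncomputable def cd5q1 : Fn2 := kc5q1
noncomputable def ndB5q2 : Node := ⟨idf, c3g, kf5q2, l5q2⟩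
noncomputable def cd5q2 : Fn2 := kc5q2
noncomputable def ndB5q3 : Node := ⟨ycg, idf, kfc53, lc53⟩
noncomputable def cd5q3 : Fn2 := kcc53
noncomputable def pcB0 : Piece := ⟨rsbq0, rlq0⟩
noncomputable def pcB1 : Piece := ⟨rsbq1, rlq1⟩
noncomputable def pcB2 : Piece := ⟨rsbq2, rlq2⟩
noncomputable def pcB3 : Piece := ⟨rsbq3, rlq3⟩
noncomputable def ndB1q2 : Node := ⟨idf, cv1p, kf1q2, l1q2⟩
noncomputable def cd1q2 : Fn2 := kc1q2
noncomputable def ndB2q2 : Node := ⟨idf, cv2p, kf2q2, l2q2⟩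
noncomputable def cd2q2 : Fn2 := kc2q2
end Pool.Agent.Strip051.G.I72727_7625.Tab
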