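import Pool.Agent.Strip051.G.I72727_7625.MolD

/-! # The tight charts of a table: certificates (generated) -/

set_option linter.all false
set_option maxRecDepth 100000

namespace Pool.Agent.Strip051.G.I72727_7625.Tab.Mo

open Pool.Agent.Strip051.PB Pool.Agent.Strip051.PB.Mol Pool.Agent.Strip051.PB.T
open Pool.Agent.Strip051.G.I72727_7625.Tab

noncomputable def f0Ap : ℕ → ℕ → ℕ → ℕ → Bool :=
  onCell 0 52428800 0 33554432 780900216 37827925 (c0_Ap.row false 26214400)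

theorem h0_0Ap : ∃ t, chk3 f0Ap t 1 1 1 = true :=
  ⟨(b (a (c (a (l 8) (l 10)) (a (l 8) (l 10))) (c (a (l 10) (l 2)) (b (a (l 10) (l 2)) (a (l 2) (c (l 2) (l 2)))))) (a (c (a (c (l 10) (l 10)) (c (l 10) (l 10))) (a (c (l 10) (l 10)) (c (l 10) (b (l 10) (l 10))))) (a (c (c (l 2) (l 2)) (b (c (l 2) (l 2)) (c (l 2) (a (l 2) (l 1))))) (l 1)))), by decide +kernel⟩

theorem ct_0Ap : ∃ t, chk3 f0Ap t 1 1 1 = true := h0_0Ap

noncomputable def f0Apk1 : ℕ → ℕ → ℕ → ℕ → Bool :=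
  onCell 0 52428800 0 33554432 780900216 37827925 (c0_Apk1.row false 26214400)

theorem h0_0Apk1 : ∃ t, chk3 f0Apk1 t 1 1 1 = true :=
  ⟨(a (b (c (l 10) (l 10)) (c (a (l 10) (l 10)) (b (l 10) (a (l 10) (l 10))))) (b (c (l 10) (a (l 10) (l 2))) (a (c (l 2) (l 2)) (l 1)))), by decide +kernel⟩

theorem ct_0Apk1 : ∃ t, chk3 f0Apk1 t 1 1 1 = true := h0_0Apk1

noncomputable def f0Apk2 : ℕ → ℕ → ℕ → ℕ → Bool :=
  onCell 0 52428800 0 33554432 780900216 37827925 (c0_Apk2.row false 26214400)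

theorem h0_0Apk2 : ∃ t, chk3 f0Apk2 t 1 1 1 = true :=
  ⟨(a (b (l 10) (c (l 10) (l 10))) (b (c (l 10) (l 10)) (c (l 2) (l 2)))), by decide +kernel⟩

theorem ct_0Apk2 : ∃ t, chk3 f0Apk2 t 1 1 1 = true := h0_0Apk2

noncomputable def f0Am : ℕ → ℕ → ℕ → ℕ → Bool :=
  onCell 0 52428800 0 33554432 780900216 37827925 (c0_Am.row true 26214400)

theorem h0_0Am : ∃ t, chk3 f0Am t 1 1 1 = true :=
  ⟨(b (a (c (a (l 8) (l 10)) (a (l 8) (l 10))) (c (a (l 10) (l 2)) (a (l 10) (l 2)))) (a (a (l 3) (c (l 8) (l 8))) (c (a (l 10) (c (l 10) (l 10))) (b (a (l 10) (l 10)) (a (l 8) (l 10)))))), by decide +kernel⟩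

theorem ct_0Am : ∃ t, chk3 f0Am t 1 1 1 = true := h0_0Am

noncomputable def f0Bp : ℕ → ℕ → ℕ → ℕ → Bool :=
  onCell 0 52428800 0 33554432 780900216 37827925 (c0_Bp.row false 26214400)

theorem h0_0Bp : ∃ t, chk3 f0Bp t 1 1 1 = true :=
  ⟨(a (b (b (c (a (l 8) (l 10)) (a (l 8) (l 10))) (c (a (l 8) (l 8)) (a (l 8) (l 8)))) (a (l 3) (c (c (l 8) (l 8)) (b (l 8) (c (l 8) (l 8)))))) (b (b (c (a (l 10) (l 2)) (a (l 10) (l 2))) (c (a (l 10) (l 2)) (a (c (l 10) (l 10)) (c (l 2) (l 2))))) (c (b (a (l 10) (c (l 10) (l 10))) (a (c (l 10) (l 10)) (c (l 10) (a (l 10) (l 10))))) (b (a (c (l 10) (l 10)) (a (c (l 10) (l 10)) (l 2))) (a (c (l 10) (l 10)) (c (a (l 10) (l 10)) (a (l 10) (l 10)))))))), by decide +kernel⟩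

theorem ct_0Bp : ∃ t, chk3 f0Bp t 1 1 1 = true := h0_0Bp

noncomputable def f0Bpk1 : ℕ → ℕ → ℕ → ℕ → Bool :=
  onCell 0 52428800 0 33554432 780900216 37827925 (c0_Bpk1.row false 26214400)

theorem h0_0Bpk1 : ∃ t, chk3 f0Bpk1 t 1 1 1 = true :=
  ⟨(a (b (b (c (l 10) (l 10)) (c (l 8) (l 8))) (a (l 3) (c (l 8) (l 8)))) (b (b (c (a (l 10) (l 2)) (a (l 10) (l 2))) (c (a (l 10) (l 2)) (a (l 10) (l 2)))) (c (b (a (l 10) (l 10)) (a (l 10) (l 10))) (b (a (l 10) (l 10)) (a (l 10) (c (l 10) (l 10))))))), by decide +kernel⟩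

theorem ct_0Bpk1 : ∃ t, chk3 f0Bpk1 t 1 1 1 = true := h0_0Bpk1

noncomputable def f0Bpk2 : ℕ → ℕ → ℕ → ℕ → Bool :=
  onCell 0 52428800 0 33554432 780900216 37827925 (c0_Bpk2.row false 26214400)

theorem h0_0Bpk2 : ∃ t, chk3 f0Bpk2 t 1 1 1 = true :=
  ⟨(a (b (c (l 10) (l 10)) (c (l 8) (a (l 3) (l 8)))) (b (b (c (l 10) (l 10)) (c (l 10) (l 10))) (c (a (l 10) (l 10)) (a (l 10) (l 10))))), by decide +kernel⟩

theorem ct_0Bpk2 : ∃ t, chk3 f0Bpk2 t 1 1 1 = true := h0_0Bpk2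

noncomputable def f0Bm : ℕ → ℕ → ℕ → ℕ → Bool :=
  onCell 0 52428800 0 33554432 780900216 37827925 (c0_Bm.row true 26214400)

theorem h0_0Bm : ∃ t, chk3 f0Bm t 1 1 1 = true :=
  ⟨(a (b (c (b (a (l 8) (l 10)) (a (l 8) (l 10))) (b (a (l 8) (l 10)) (a (l 8) (l 10)))) (c (b (a (l 8) (l 10)) (a (l 10) (c (l 10) (l 10)))) (b (a (l 8) (l 10)) (a (c (l 10) (l 10)) (c (l 10) (l 10)))))) (b (c (b (a (l 10) (l 2)) (a (l 2) (l 2))) (b (a (l 10) (l 2)) (a (l 2) (l 2)))) (a (c (c (l 2) (l 2)) (c (l 2) (l 2))) (l 1)))), by decide +kernel⟩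

theorem ct_0Bm : ∃ t, chk3 f0Bm t 1 1 1 = true := h0_0Bm

end Pool.Agent.Strip051.G.I72727_7625.Tab.Mo
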