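import Pool.Agent.Strip051.PB.StripC
import Pool.Agent.Strip051.G.I72727_7625.Fact

/-! # Facts about the strips of a table (generated) -/

set_option linter.all false
set_option maxRecDepth 4000

namespace Pool.Agent.Strip051.G.I72727_7625.Tab.St

open Pool.Agent.Strip051.PB Pool.Agent.StripNear Pool.Agent.Strip051.LC
open Pool.Agent.Strip051.G.I72727_7625.Tab

noncomputable def sl1 : Fn1 := ⟨_, _, fun h1 => (enc_norm (enc_add (enc_scale 2643 1000 (enc_subr 148977 200000 h1)) (enc_rat _ 19707 10000)))⟩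
noncomputable def sv1 : Fn1 := ⟨_, _, fun h1 => (enc_norm (enc_sub (enc_rat _ 19931469 40000000) (enc_scale 2997049 4000000 (enc_subr 148977 200000 h1))))⟩
noncomputable def sl2 : Fn1 := ⟨_, _, fun h1 => (enc_norm (enc_subr 14068719859 400000000 (enc_scale 293263349 10000000 (enc_subr 148977 200000 h1))))⟩
noncomputable def sv2 : Fn1 := ⟨_, _, fun h1 => (enc_norm (enc_subr 24405232249 3200000000 (enc_scale 407017379 80000000 (enc_subr 148977 200000 h1))))⟩
noncomputable def sw2 : Fn1 := ⟨_, _, fun h1 => (enc_norm (enc_subr 42448571 1000000 (enc_scale 762381 25000 (enc_subr 148977 200000 h1))))⟩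
noncomputable def sl3 : Fn1 := ⟨_, _, fun h1 => (enc_norm (enc_add (enc_scale 585226131 100000000 (enc_subr 148977 200000 h1)) (enc_rat _ 2861378733 250000000)))⟩
noncomputable def sv3 : Fn1 := ⟨_, _, fun h1 => (enc_norm (enc_add (enc_scale 2844790463 5000000000 (enc_subr 148977 200000 h1)) (enc_rat _ 16839974709 12500000000)))⟩
noncomputable def sw3 : Fn1 := ⟨_, _, fun h1 => (enc_norm (enc_add (enc_scale 943 100000 (enc_subr 148977 200000 h1)) (enc_rat _ 4523349 250000)))⟩
noncomputable def sl4 : Fn1 := ⟨_, _, fun h1 => (enc_norm (enc_add (enc_scale 1149 100 (enc_subr 148977 200000 h1)) (enc_rat _ 156206719 62500000)))⟩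
noncomputable def sv4 : Fn1 := ⟨_, _, fun h1 => (enc_norm (enc_subr 861702823 6250000000 (enc_scale 6019291 4000000 (enc_subr 148977 200000 h1))))⟩
noncomputable def sw4 : Fn1 := ⟨_, _, fun h1 => (enc_norm (enc_add (enc_scale 17 2 (enc_subr 148977 200000 h1)) (enc_rat _ 144381 31250)))⟩
noncomputable def sl5 : Fn1 := ⟨_, _, fun h1 => (enc_norm (enc_add (enc_scale 673528101 100000000 (enc_subr 148977 200000 h1)) (enc_rat _ 8218490633 1000000000)))⟩
noncomputable def sv5 : Fn1 := ⟨_, _, fun h1 => (enc_norm (enc_add (enc_scale 1048952651 1250000000 (enc_subr 148977 200000 h1)) (enc_rat _ 16570329691 25000000000)))⟩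
noncomputable def sw5 : Fn1 := ⟨_, _, fun h1 => (enc_norm (enc_add (enc_scale 943 100000 (enc_subr 148977 200000 h1)) (enc_rat _ 14833019 1000000)))⟩
noncomputable def sl6 : Fn1 := ⟨_, _, fun h1 => (enc_norm (enc_add (enc_scale 6731 1000 (enc_subr 148977 200000 h1)) (enc_rat _ 14843 10000)))⟩
noncomputable def sv6 : Fn1 := ⟨_, _, fun h1 => (enc_norm (enc_subr 2030349 20000000 (enc_scale 670941 800000 (enc_subr 148977 200000 h1))))⟩
noncomputable def sl7 : Fn1 := ⟨_, _, fun h1 => (enc_norm (enc_sub (enc_rat _ 3567084759 1000000000) (enc_scale 1047571747 100000000 (enc_subr 148977 200000 h1))))⟩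
noncomputable def sv7 : Fn1 := ⟨_, _, fun h1 => (enc_norm (enc_sub (enc_rat _ 15890387 500000000) (enc_scale 26255367 100000000 (enc_subr 148977 200000 h1))))⟩
noncomputable def sw7 : Fn1 := ⟨_, _, fun h1 => (enc_norm (enc_sub (enc_rat _ 4067939 500000) (enc_scale 3360687 50000 (enc_subr 148977 200000 h1))))⟩
noncomputable def sl8 : Fn1 := ⟨_, _, fun h1 => (enc_norm (enc_sub (enc_rat _ 25501 10000) (enc_scale 1037 500 (enc_subr 148977 200000 h1))))⟩
noncomputable def sv8 : Fn1 := ⟨_, _, fun h1 => (enc_pnc _ 0)⟩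
noncomputable def sl9 : Fn1 := ⟨_, _, fun h1 => (enc_norm (enc_sub (enc_rat _ 3567084759 1000000000) (enc_scale 1047571747 100000000 (enc_subr 148977 200000 h1))))⟩
noncomputable def sv9 : Fn1 := ⟨_, _, fun h1 => (enc_norm (enc_subr 15890387 500000000 (enc_scale 26255367 100000000 (enc_subr 148977 200000 h1))))⟩
noncomputable def sw9 : Fn1 := ⟨_, _, fun h1 => (enc_norm (enc_subr 4067939 500000 (enc_scale 3360687 50000 (enc_subr 148977 200000 h1))))⟩
noncomputable def sl10 : Fn1 := ⟨_, _, fun h1 => (enc_norm (enc_add (enc_scale 6731 1000 (enc_subr 148977 200000 h1)) (enc_rat _ 14843 10000)))⟩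
noncomputable def sv10 : Fn1 := ⟨_, _, fun h1 => (enc_norm (enc_sub (enc_rat _ 2030349 20000000) (enc_scale 670941 800000 (enc_subr 148977 200000 h1))))⟩
noncomputable def sl11 : Fn1 := ⟨_, _, fun h1 => (enc_norm (enc_add (enc_scale 673528101 100000000 (enc_subr 148977 200000 h1)) (enc_rat _ 8218490633 1000000000)))⟩
noncomputable def sv11 : Fn1 := ⟨_, _, fun h1 => (enc_norm (enc_subr 16570329691 25000000000 (enc_neg (enc_scale 1048952651 1250000000 (enc_subr 148977 200000 h1)))))⟩
noncomputable def sw11 : Fn1 := ⟨_, _, fun h1 => (enc_norm (enc_subr 14833019 1000000 (enc_neg (enc_scale 943 100000 (enc_subr 148977 200000 h1)))))⟩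
noncomputable def sl12 : Fn1 := ⟨_, _, fun h1 => (enc_norm (enc_add (enc_scale 1149 100 (enc_subr 148977 200000 h1)) (enc_rat _ 156206719 62500000)))⟩
noncomputable def sv12 : Fn1 := ⟨_, _, fun h1 => (enc_norm (enc_sub (enc_rat _ 861702823 6250000000) (enc_scale 6019291 4000000 (enc_subr 148977 200000 h1))))⟩
noncomputable def sw12 : Fn1 := ⟨_, _, fun h1 => (enc_norm (enc_subr 144381 31250 (enc_neg (enc_scale 17 2 (enc_subr 148977 200000 h1)))))⟩
noncomputable def sl13 : Fn1 := ⟨_, _, fun h1 => (enc_norm (enc_add (enc_scale 585226131 100000000 (enc_subr 148977 200000 h1)) (enc_rat _ 2861378733 250000000)))⟩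
noncomputable def sv13 : Fn1 := ⟨_, _, fun h1 => (enc_norm (enc_subr 16839974709 12500000000 (enc_neg (enc_scale 2844790463 5000000000 (enc_subr 148977 200000 h1)))))⟩
noncomputable def sw13 : Fn1 := ⟨_, _, fun h1 => (enc_norm (enc_subr 4523349 250000 (enc_neg (enc_scale 943 100000 (enc_subr 148977 200000 h1)))))⟩
noncomputable def sl14 : Fn1 := ⟨_, _, fun h1 => (enc_norm (enc_subr 14068719859 400000000 (enc_scale 293263349 10000000 (enc_subr 148977 200000 h1))))⟩
noncomputable def sv14 : Fn1 := ⟨_, _, fun h1 => (enc_norm (enc_sub (enc_rat _ 24405232249 3200000000) (enc_scale 407017379 80000000 (enc_subr 148977 200000 h1))))⟩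
noncomputable def sw14 : Fn1 := ⟨_, _, fun h1 => (enc_norm (enc_sub (enc_rat _ 42448571 1000000) (enc_scale 762381 25000 (enc_subr 148977 200000 h1))))⟩
noncomputable def sl15 : Fn1 := ⟨_, _, fun h1 => (enc_norm (enc_add (enc_scale 2643 1000 (enc_subr 148977 200000 h1)) (enc_rat _ 19707 10000)))⟩
noncomputable def sv15 : Fn1 := ⟨_, _, fun h1 => (enc_norm (enc_subr 19931469 40000000 (enc_scale 2997049 4000000 (enc_subr 148977 200000 h1))))⟩
noncomputable def sl30 : Fn1 := ⟨_, _, fun h1 => (enc_norm (enc_sub (enc_rat _ 1565187 1000000) (enc_scale 298343 25000 (enc_subr 148977 200000 h1))))⟩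
noncomputable def sv30 : Fn1 := ⟨_, _, fun h1 => (enc_norm (enc_sub (enc_rat _ 845817 2000000) (enc_scale 128903 50000 (enc_subr 148977 200000 h1))))⟩
noncomputable def sw30 : Fn1 := ⟨_, _, fun h1 => (enc_norm (enc_sub (enc_rat _ 71937 50000) (enc_scale 8472 625 (enc_subr 148977 200000 h1))))⟩
noncomputable def sl31 : Fn1 := ⟨_, _, fun h1 => (enc_norm (enc_subr 258391 500000 (enc_neg (enc_scale 411363 100000 (enc_subr 148977 200000 h1)))))⟩
noncomputable def sv31 : Fn1 := ⟨_, _, fun h1 => (enc_norm (enc_subr 455343 10000000 (enc_neg (enc_scale 409271 500000 (enc_subr 148977 200000 h1)))))⟩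
noncomputable def sw31 : Fn1 := ⟨_, _, fun h1 => (enc_norm (enc_subr 2733 3125 (enc_neg (enc_scale 24331 5000 (enc_subr 148977 200000 h1)))))⟩
noncomputable def sl32 : Fn1 := ⟨_, _, fun h1 => (enc_norm (enc_add (enc_scale 82073 6250 (enc_subr 148977 200000 h1)) (enc_rat _ 13401 50000)))⟩
noncomputable def sv32 : Fn1 := ⟨_, _, fun h1 => (enc_norm (enc_add (enc_scale 1315263 500000 (enc_subr 148977 200000 h1)) (enc_rat _ 222853 2000000)))⟩
noncomputable def sw32 : Fn1 := ⟨_, _, fun h1 => (enc_norm (enc_add (enc_scale 20863 1250 (enc_subr 148977 200000 h1)) (enc_rat _ 2661 25000)))⟩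
noncomputable def sl33 : Fn1 := ⟨_, _, fun h1 => (enc_norm (enc_sub (enc_rat _ 672323 1000000) (enc_scale 77839 5000 (enc_subr 148977 200000 h1))))⟩
noncomputable def sv33 : Fn1 := ⟨_, _, fun h1 => (enc_norm (enc_sub (enc_rat _ 182179 1000000) (enc_scale 239189 100000 (enc_subr 148977 200000 h1))))⟩
noncomputable def sw33 : Fn1 := ⟨_, _, fun h1 => (enc_norm (enc_sub (enc_rat _ 34201 50000) (enc_scale 15193 625 (enc_subr 148977 200000 h1))))⟩
noncomputable def sl34 : Fn1 := ⟨_, _, fun h1 => (enc_norm (enc_add (enc_scale 96277 12500 (enc_subr 148977 200000 h1)) (enc_rat _ 78531 125000)))⟩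
noncomputable def sv34 : Fn1 := ⟨_, _, fun h1 => (enc_norm (enc_add (enc_scale 109861 100000 (enc_subr 148977 200000 h1)) (enc_rat _ 1755679 10000000)))⟩
noncomputable def sw34 : Fn1 := ⟨_, _, fun h1 => (enc_norm (enc_add (enc_scale 18093 1250 (enc_subr 148977 200000 h1)) (enc_rat _ 1908 3125)))⟩
noncomputable def sl35 : Fn1 := ⟨_, _, fun h1 => (enc_norm (enc_sub (enc_rat _ 87087 250000) (enc_scale 119 3125 (enc_subr 148977 200000 h1))))⟩
noncomputable def sv35 : Fn1 := ⟨_, _, fun h1 => (enc_norm (enc_add (enc_scale 5243 40000 (enc_subr 148977 200000 h1)) (enc_rat _ 351451 2500000)))⟩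
noncomputable def sw35 : Fn1 := ⟨_, _, fun h1 => (enc_norm (enc_sub (enc_rat _ 1269 25000) (enc_scale 503 500 (enc_subr 148977 200000 h1))))⟩
noncomputable def sl36 : Fn1 := ⟨_, _, fun h1 => (enc_norm (enc_subr 10609 50000 (enc_neg (enc_scale 98561 20000 (enc_subr 148977 200000 h1)))))⟩
noncomputable def sv36 : Fn1 := ⟨_, _, fun h1 => (enc_norm (enc_sub (enc_rat _ 211319 2500000) (enc_scale 357919 1000000 (enc_subr 148977 200000 h1))))⟩
noncomputable def sw36 : Fn1 := ⟨_, _, fun h1 => (enc_norm (enc_subr 8441 6250 (enc_neg (enc_scale 13231 1000 (enc_subr 148977 200000 h1)))))⟩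
noncomputable def sl37 : Fn1 := ⟨_, _, fun h1 => (enc_norm (enc_add (enc_scale 1142989 200000 (enc_subr 148977 200000 h1)) (enc_rat _ 1148 3125)))⟩
noncomputable def sv37 : Fn1 := ⟨_, _, fun h1 => (enc_norm (enc_add (enc_scale 880609 2000000 (enc_subr 148977 200000 h1)) (enc_rat _ 1279931 10000000)))⟩
noncomputable def sw37 : Fn1 := ⟨_, _, fun h1 => (enc_norm (enc_add (enc_scale 222457 10000 (enc_subr 148977 200000 h1)) (enc_rat _ 14531 25000)))⟩
noncomputable def sl38 : Fn1 := ⟨_, _, fun h1 => (enc_norm (enc_add (enc_scale 5369 200000 (enc_subr 148977 200000 h1)) (enc_rat _ 5363 40000)))⟩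
noncomputable def sv38 : Fn1 := ⟨_, _, fun h1 => (enc_norm (enc_add (enc_scale 311799 2000000 (enc_subr 148977 200000 h1)) (enc_rat _ 145411 1250000)))⟩
noncomputable def sw38 : Fn1 := ⟨_, _, fun h1 => (enc_norm (enc_subr 29259 50000 (enc_neg (enc_scale 15487 2500 (enc_subr 148977 200000 h1)))))⟩
noncomputable def sl39_2 : Fn1 := ⟨_, _, fun h1 => (enc_subr 148977 200000 h1)⟩
noncomputable def sl39 : Fn1 := ⟨_, _, fun h1 => (enc_norm (enc_sub (enc_subr 739775214636225793 9983021800000000000 (enc_neg (enc_scale 2752646390311141863 399320872000000000 (sl39_2.enc h1)))) (enc_scale 5556403497 2840120000 (enc_sq (enc_norm (sl39_2.enc h1))))))⟩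
noncomputable def sv39_2 : Fn1 := ⟨_, _, fun h1 => (enc_subr 148977 200000 h1)⟩
noncomputable def sv39 : Fn1 := ⟨_, _, fun h1 => (enc_norm (enc_add (enc_add (enc_scale 2004227232382581863 3993208720000000000 (sv39_2.enc h1)) (enc_rat _ 12652255570009425793 99830218000000000000)) (enc_scale 2778198113 28401200000 (enc_sq (enc_norm (sv39_2.enc h1))))))⟩
noncomputable def sw39_2 : Fn1 := ⟨_, _, fun h1 => (enc_subr 148977 200000 h1)⟩
noncomputable def sw39 : Fn1 := ⟨_, _, fun h1 => (enc_norm (enc_add (enc_add (enc_scale 284059 10000 (sw39_2.enc h1)) (enc_rat _ 45571 100000)) (enc_scale 4891 500 (enc_sq (enc_norm (sw39_2.enc h1))))))⟩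
noncomputable def sl41_2 : Fn1 := ⟨_, _, fun h1 => (enc_subr 148977 200000 h1)⟩
noncomputable def sl41 : Fn1 := ⟨_, _, fun h1 => (enc_norm (enc_sub (enc_add (enc_scale 232815489755506187 56822020000000000 (sl41_2.enc h1)) (enc_rat _ 871462861013454357 1420550500000000000)) (enc_scale 18133294161 113462500 (enc_sq (enc_norm (sl41_2.enc h1))))))⟩
noncomputable def sv41_2 : Fn1 := ⟨_, _, fun h1 => (enc_subr 148977 200000 h1)⟩
noncomputable def sv41 : Fn1 := ⟨_, _, fun h1 => (enc_norm (enc_add (enc_sub (enc_rat _ 382168693585045643 5682202000000000000) (enc_scale 80672087858646187 227288080000000000 (sv41_2.enc h1))) (enc_scale 72533180913 3630800000 (enc_sq (enc_norm (sv41_2.enc h1))))))⟩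
noncomputable def sw41_2 : Fn1 := ⟨_, _, fun h1 => (enc_subr 148977 200000 h1)⟩
noncomputable def sw41 : Fn1 := ⟨_, _, fun h1 => (enc_norm (enc_add (enc_subr 84583 50000 (enc_neg (enc_scale 91899 10000 (sw41_2.enc h1)))) (enc_scale 63927 200 (enc_sq (enc_norm (sw41_2.enc h1))))))⟩
noncomputable def sl42 : Fn1 := ⟨_, _, fun h1 => (enc_norm (enc_sub (enc_rat _ 952189 2000000) (enc_scale 131943 20000 (enc_subr 148977 200000 h1))))⟩
noncomputable def sv42 : Fn1 := ⟨_, _, fun h1 => (enc_norm (enc_add (enc_scale 981867 1000000 (enc_subr 148977 200000 h1)) (enc_rat _ 67543 800000)))⟩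
noncomputable def sw42 : Fn1 := ⟨_, _, fun h1 => (enc_norm (enc_subr 141691 100000 (enc_scale 12199 1000 (enc_subr 148977 200000 h1))))⟩
noncomputable def sl43 : Fn1 := ⟨_, _, fun h1 => (enc_norm (enc_add (enc_scale 14609 2500 (enc_subr 148977 200000 h1)) (enc_rat _ 15591 50000)))⟩
noncomputable def sv43 : Fn1 := ⟨_, _, fun h1 => (enc_norm (enc_sub (enc_rat _ 10907 100000) (enc_scale 221061 250000 (enc_subr 148977 200000 h1))))⟩
noncomputable def sw43 : Fn1 := ⟨_, _, fun h1 => (enc_norm (enc_subr 14289 12500 (enc_neg (enc_scale 21339 2500 (enc_subr 148977 200000 h1)))))⟩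
noncomputable def sl44 : Fn1 := ⟨_, _, fun h1 => (enc_norm (enc_sub (enc_rat _ 2617 62500) (enc_scale 90819 100000 (enc_subr 148977 200000 h1))))⟩
noncomputable def sv44 : Fn1 := ⟨_, _, fun h1 => (enc_norm (enc_add (enc_scale 297321 1000000 (enc_subr 148977 200000 h1)) (enc_rat _ 1563109 10000000)))⟩
noncomputable def sw44 : Fn1 := ⟨_, _, fun h1 => (enc_norm (enc_subr 18937 25000 (enc_scale 5549 5000 (enc_subr 148977 200000 h1))))⟩
noncomputable def sl45 : Fn1 := ⟨_, _, fun h1 => (enc_norm (enc_subr 47613 62500 (enc_scale 140403 20000 (enc_subr 148977 200000 h1))))⟩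
noncomputable def sv45 : Fn1 := ⟨_, _, fun h1 => (enc_norm (enc_sub (enc_rat _ 3170469 10000000) (enc_scale 1288351 1000000 (enc_subr 148977 200000 h1))))⟩
noncomputable def sw45 : Fn1 := ⟨_, _, fun h1 => (enc_norm (enc_sub (enc_rat _ 3089 12500) (enc_scale 44003 5000 (enc_subr 148977 200000 h1))))⟩
noncomputable def sl46 : Fn1 := ⟨_, _, fun h1 => (enc_norm (enc_subr 377391 250000 (enc_scale 73933 5000 (enc_subr 148977 200000 h1))))⟩
noncomputable def sv46 : Fn1 := ⟨_, _, fun h1 => (enc_norm (enc_sub (enc_rat _ 121323 250000) (enc_scale 15179 5000 (enc_subr 148977 200000 h1))))⟩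
noncomputable def sw46 : Fn1 := ⟨_, _, fun h1 => (enc_norm (enc_sub (enc_rat _ 26949 25000) (enc_scale 1743 100 (enc_subr 148977 200000 h1))))⟩
noncomputable def skf0 : Fn2 := ⟨_, _, fun h1 h2 => (enc_norm (enc_add (bf1q0.enc h1 h2) (enc_mul (enc_norm (enc_sub (enc_mul (c1g.enc h1) (bf1q0.enc h1 h2)) (kf0q0.enc h1 h2))) (enc_inv (enc_sub (cv1m.enc h1) (c1g.enc h1))))))⟩
noncomputable def sxf0 : Fn2 := ⟨_, _, fun h1 h2 => (enc_norm (enc_mul (enc_norm (enc_sub (l1q0.enc h1 h2) (l0q0.enc h1 h2))) (enc_inv (enc_sub (cv1m.enc h1) (c1g.enc h1)))))⟩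
noncomputable def skl0 : Fn2 := ⟨_, _, fun h1 h2 => (enc_norm (enc_add (bf4q0.enc h1 h2) (enc_mul (enc_norm (enc_sub (kf5q0.enc h1 h2) (enc_mul (c3g.enc h1) (bf4q0.enc h1 h2)))) (enc_inv (enc_sub (c3g.enc h1) (cv4m.enc h1))))))⟩
noncomputable def sxl0 : Fn2 := ⟨_, _, fun h1 h2 => (enc_norm (enc_mul (enc_norm (enc_sub (l5q0.enc h1 h2) (l4q0.enc h1 h2))) (enc_inv (enc_sub (c3g.enc h1) (cv4m.enc h1)))))⟩
noncomputable def skf1 : Fn2 := ⟨_, _, fun h1 h2 => (enc_norm (enc_add (bf1q1.enc h1 h2) (enc_mul (enc_norm (enc_sub (enc_mul (c1g.enc h1) (bf1q1.enc h1 h2)) (kf0q1.enc h1 h2))) (enc_inv (enc_sub (cv1m.enc h1) (c1g.enc h1))))))⟩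
noncomputable def sxf1 : Fn2 := ⟨_, _, fun h1 h2 => (enc_norm (enc_mul (enc_norm (enc_sub (l1q1.enc h1 h2) (l0q1.enc h1 h2))) (enc_inv (enc_sub (cv1m.enc h1) (c1g.enc h1)))))⟩
noncomputable def skl1 : Fn2 := ⟨_, _, fun h1 h2 => (enc_norm (enc_add (bf4q1.enc h1 h2) (enc_mul (enc_norm (enc_sub (kf5q1.enc h1 h2) (enc_mul (c3g.enc h1) (bf4q1.enc h1 h2)))) (enc_inv (enc_sub (c3g.enc h1) (cv4m.enc h1))))))⟩
noncomputable def sxl1 : Fn2 := ⟨_, _, fun h1 h2 => (enc_norm (enc_mul (enc_norm (enc_sub (l5q1.enc h1 h2) (l4q1.enc h1 h2))) (enc_inv (enc_sub (c3g.enc h1) (cv4m.enc h1)))))⟩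
noncomputable def skf2 : Fn2 := ⟨_, _, fun h1 h2 => (enc_norm (enc_add (bf1q2.enc h1 h2) (enc_mul (enc_norm (enc_add (enc_mul (c1g.enc h1) (enc_norm (enc_subn 1 (bf1q2.enc h1 h2)))) (enc_mul (enc_norm (enc_subn 1 h1)) (kcg.enc (c1g.enc h1) h2)))) (enc_inv (enc_sub (cv1p.enc h1) (c1g.enc h1))))))⟩
noncomputable def sxf2 : Fn2 := ⟨_, _, fun h1 h2 => (enc_norm (enc_mul (enc_norm (enc_sub (l1q2.enc h1 h2) (l0q2.enc h1 h2))) (enc_inv (enc_sub (cv1p.enc h1) (c1g.enc h1)))))⟩
noncomputable def skl2 : Fn2 := ⟨_, _, fun h1 h2 => (enc_norm (enc_add (bf4q2.enc h1 h2) (enc_mul (enc_norm (enc_sub (kf5q2.enc h1 h2) (enc_mul (c3g.enc h1) (bf4q2.enc h1 h2)))) (enc_inv (enc_sub (c3g.enc h1) (cv4p.enc h1))))))⟩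
noncomputable def sxl2 : Fn2 := ⟨_, _, fun h1 h2 => (enc_norm (enc_mul (enc_norm (enc_sub (l5q2.enc h1 h2) (l4q2.enc h1 h2))) (enc_inv (enc_sub (c3g.enc h1) (cv4p.enc h1)))))⟩
noncomputable def skl3 : Fn2 := ⟨_, _, fun h1 h2 => (enc_norm (enc_add (bf4q3.enc h1 h2) (enc_mul (enc_norm (enc_sub (kf5q3.enc h1 h2) (enc_mul (c3g.enc h1) (bf4q3.enc h1 h2)))) (enc_inv (enc_sub (c3g.enc h1) (cv4r.enc h1))))))⟩
noncomputable def sxl3 : Fn2 := ⟨_, _, fun h1 h2 => (enc_norm (enc_mul (enc_norm (enc_sub (l5q3.enc h1 h2) (l4q3.enc h1 h2))) (enc_inv (enc_sub (c3g.enc h1) (cv4r.enc h1)))))⟩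
noncomputable def rhk : Fn2 := ⟨_, _, fun h1 h2 => (enc_norm (enc_mul (enc_norm (enc_sub (bf1q2.enc h1 h2) (n0b.enc h1 h2))) (enc_norm (enc_mul (cv1p.enc h1) (enc_inv (enc_sub (cv1p.enc h1) (c1g.enc h1)))))))⟩
noncomputable def rhx : Fn2 := ⟨_, _, fun h1 h2 => (enc_norm (enc_mul (enc_norm (enc_sub (bx1q2.enc h1 h2) (n0x.enc h1 h2))) (enc_norm (enc_mul (cv1p.enc h1) (enc_inv (enc_sub (cv1p.enc h1) (c1g.enc h1)))))))⟩
noncomputable def sbk : Fn1 := ⟨_, _, fun h1 => (enc_norm (enc_subr 2409 2300 (enc_scale 6341 115 (enc_subr 148977 200000 h1))))⟩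
noncomputable def sbx : Fn1 := ⟨_, _, fun h1 => (enc_norm (enc_add (enc_scale 69 5800 (enc_subr 148977 200000 h1)) (enc_rat _ 1717 1160)))⟩
noncomputable def k0c : Fn1 := ⟨_, _, fun h1 => (enc_norm (enc_sub (enc_rat _ 25501 10000) (enc_scale 1037 500 (enc_subr 148977 200000 h1))))⟩
noncomputable def m0c : Fn1 := ⟨_, _, fun h1 => (enc_norm (enc_subr 5363 20000 (enc_neg (enc_scale 5369 100000 (enc_subr 148977 200000 h1)))))⟩
noncomputable def sl63_2 : Fn1 := ⟨_, _, fun h1 => (enc_subr 148977 200000 h1)⟩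
noncomputable def sl63 : Fn1 := ⟨_, _, fun h1 => (enc_norm (enc_add (enc_subr 250640378141774207 9983021800000000000 (enc_scale 491989107096781863 399320872000000000 (sl63_2.enc h1))) (enc_scale 5556403497 2840120000 (enc_sq (enc_norm (sl63_2.enc h1))))))⟩
noncomputable def sv63_2 : Fn1 := ⟨_, _, fun h1 => (enc_subr 148977 200000 h1)⟩
noncomputable def sv63 : Fn1 := ⟨_, _, fun h1 => (enc_norm (enc_add (enc_subr 125323505486374207 99830218000000000000 (enc_scale 245999463527341863 3993208720000000000 (sv63_2.enc h1))) (enc_scale 2778198113 28401200000 (enc_sq (enc_norm (sv63_2.enc h1))))))⟩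
noncomputable def sw63_2 : Fn1 := ⟨_, _, fun h1 => (enc_subr 148977 200000 h1)⟩
noncomputable def sw63 : Fn1 := ⟨_, _, fun h1 => (enc_norm (enc_add (enc_subr 12553 100000 (enc_scale 30801 5000 (sw63_2.enc h1))) (enc_scale 4891 500 (enc_sq (enc_norm (sw63_2.enc h1))))))⟩
noncomputable def sl64 : Fn1 := ⟨_, _, fun h1 => (enc_pnc _ 0)⟩
noncomputable def sv64 : Fn1 := ⟨_, _, fun h1 => (enc_pnc _ 0)⟩
noncomputable def sl65_2 : Fn1 := ⟨_, _, fun h1 => (enc_subr 148977 200000 h1)⟩
noncomputable def sl65 : Fn1 := ⟨_, _, fun h1 => (enc_norm (enc_add (enc_subr 250640378141774207 9983021800000000000 (enc_scale 491989107096781863 399320872000000000 (sl65_2.enc h1))) (enc_scale 5556403497 2840120000 (enc_sq (enc_norm (sl65_2.enc h1))))))⟩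
noncomputable def sv65_2 : Fn1 := ⟨_, _, fun h1 => (enc_subr 148977 200000 h1)⟩
noncomputable def sv65 : Fn1 := ⟨_, _, fun h1 => (enc_norm (enc_sub (enc_sub (enc_rat _ 125323505486374207 99830218000000000000) (enc_scale 245999463527341863 3993208720000000000 (sv65_2.enc h1))) (enc_scale 2778198113 28401200000 (enc_sq (enc_norm (sv65_2.enc h1))))))⟩
noncomputable def sw65_2 : Fn1 := ⟨_, _, fun h1 => (enc_subr 148977 200000 h1)⟩
noncomputable def sw65 : Fn1 := ⟨_, _, fun h1 => (enc_norm (enc_sub (enc_sub (enc_rat _ 12553 100000) (enc_scale 30801 5000 (sw65_2.enc h1))) (enc_scale 4891 500 (enc_sq (enc_norm (sw65_2.enc h1))))))⟩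
noncomputable def kqf : Fn2 := ⟨_, _, fun h1 h2 => (enc_norm (enc_mul (enc_norm (enc_subn 1 h1)) (enc_norm (enc_case (enc_subr 1 16 (c1g.enc h1)) (enc_sub (enc_rat _ 25501 10000) (enc_scale 1037 500 (enc_subr 148977 200000 h2))) (enc_mul (kcg.enc (c1g.enc h1) h2) (enc_inv (c1g.enc h1)))))))⟩
noncomputable def skm : Fn2 := ⟨_, _, fun h1 h2 => (enc_norm (enc_sub (enc_mul (enc_norm (enc_mul (cv1p.enc h1) (enc_inv (enc_sub (cv1p.enc h1) (c1g.enc h1))))) (enc_norm (enc_add (enc_subn 1 (bf1q2.enc h1 h2)) (kqf.enc h1 h2)))) (kqf.enc h1 h2)))⟩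
noncomputable def dt1 : DT := .lin sl1 sv1
noncomputable def dt2 : DT := .quad sw2 sl2 sv2
noncomputable def dt3 : DT := .quad sw3 sl3 sv3
noncomputable def dt4 : DT := .quad sw4 sl4 sv4
noncomputable def dt5 : DT := .quad sw5 sl5 sv5
noncomputable def dt6 : DT := .lin sl6 sv6
noncomputable def dt7 : DT := .quad sw7 sl7 sv7
noncomputable def dt8 : DT := .lin sl8 sv8
noncomputable def dt9 : DT := .quad sw9 sl9 sv9
noncomputable def dt10 : DT := .lin sl10 sv10
noncomputable def dt11 : DT := .quad sw11 sl11 sv11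
noncomputable def dt12 : DT := .quad sw12 sl12 sv12
noncomputable def dt13 : DT := .quad sw13 sl13 sv13
noncomputable def dt14 : DT := .quad sw14 sl14 sv14
noncomputable def dt15 : DT := .lin sl15 sv15
noncomputable def dt16 : DT := .node ((Cn.rt 77 200).ng) dt2 dt3
noncomputable def dt17 : DT := .node ((Cn.rt 7 16).ng) dt1 dt16
noncomputable def dt18 : DT := .node ((Cn.rt 7 25).ng) dt4 dt5
noncomputable def dt19 : DT := .node ((Cn.rt 16 125).ng) dt6 dt7
noncomputable def dt20 : DT := .node ((Cn.rt 227 1000).ng) dt18 dt19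
noncomputable def dt21 : DT := .node ((Cn.rt 83 250).ng) dt17 dt20
noncomputable def dt22 : DT := .node (Cn.rt 1 16) dt8 dt9
noncomputable def dt23 : DT := .node (Cn.rt 227 1000) dt10 dt11
noncomputable def dt24 : DT := .node (Cn.rt 16 125) dt22 dt23
noncomputable def dt25 : DT := .node (Cn.rt 83 250) dt12 dt13
noncomputable def dt26 : DT := .node (Cn.rt 7 16) dt14 dt15
noncomputable def dt27 : DT := .node (Cn.rt 77 200) dt25 dt26
noncomputable def dt28 : DT := .node (Cn.rt 7 25) dt24 dt27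
noncomputable def dt29 : DT := .node ((Cn.rt 1 16).ng) dt21 dt28
noncomputable def dt30 : DT := .quad sw30 sl30 sv30
noncomputable def dt31 : DT := .quad sw31 sl31 sv31
noncomputable def dt32 : DT := .quad sw32 sl32 sv32
noncomputable def dt33 : DT := .quad sw33 sl33 sv33
noncomputable def dt34 : DT := .quad sw34 sl34 sv34
noncomputable def dt35 : DT := .quad sw35 sl35 sv35
noncomputable def dt36 : DT := .quad sw36 sl36 sv36
noncomputable def dt37 : DT := .quad sw37 sl37 sv37
noncomputable def dt38 : DT := .quad sw38 sl38 sv38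
noncomputable def dt39 : DT := .quad sw39 sl39 sv39
noncomputable def dt40 : DT := .clo
noncomputable def dt41 : DT := .quad sw41 sl41 sv41
noncomputable def dt42 : DT := .quad sw42 sl42 sv42
noncomputable def dt43 : DT := .quad sw43 sl43 sv43
noncomputable def dt44 : DT := .quad sw44 sl44 sv44
noncomputable def dt45 : DT := .quad sw45 sl45 sv45
noncomputable def dt46 : DT := .quad sw46 sl46 sv46
noncomputable def dt47 : DT := .node ((Cn.rt 9 20).ng) dt30 dt31
noncomputable def dt48 : DT := .node ((Cn.rt 7 20).ng) dt32 dt33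
noncomputable def dt49 : DT := .node ((Cn.rt 2 5).ng) dt47 dt48
noncomputable def dt50 : DT := .node ((Cn.rt 1 4).ng) dt34 dt35
noncomputable def dt51 : DT := .node ((Cn.rt 3 20).ng) dt36 dt37
noncomputable def dt52 : DT := .node ((Cn.rt 1 5).ng) dt50 dt51
noncomputable def dt53 : DT := .node ((Cn.rt 3 10).ng) dt49 dt52
noncomputable def dt54 : DT := .node (Cn.rt 1 10) dt38 dt39
noncomputable def dt55 : DT := .node (Cn.rt 71 313) dt40 dt41
noncomputable def dt56 : DT := .node (Cn.rt 181 1406) dt54 dt55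
noncomputable def dt57 : DT := .node (Cn.rt 3 10) dt42 dt43
noncomputable def dt58 : DT := .node (Cn.rt 9 20) dt45 dt46
noncomputable def dt59 : DT := .node (Cn.rt 2 5) dt44 dt58
noncomputable def dt60 : DT := .node (Cn.rt 7 20) dt57 dt59
noncomputable def dt61 : DT := .node (Cn.rt 1 4) dt56 dt60
noncomputable def dt62 : DT := .node ((Cn.rt 1 10).ng) dt53 dt61
noncomputable def dt63 : DT := .quad sw63 sl63 sv63
noncomputable def dt64 : DT := .lin sl64 sv64
noncomputable def dt65 : DT := .quad sw65 sl65 sv65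
noncomputable def dt66 : DT := .node (Cn.rt 1 10) dt64 dt65
noncomputable def dt67 : DT := .node ((Cn.rt 1 10).ng) dt63 dt66
noncomputable def dd : SDat := ⟨dt29, kcg, dt62, Kh.T⟩
noncomputable def gf0 : Sg := ⟨cv1m, skf0, sxf0⟩
noncomputable def gf1 : Sg := ⟨cv1m, skf1, sxf1⟩
noncomputable def gf2 : Sg := ⟨cv1p, skf2, sxf2⟩
noncomputable def gf3 : Sg := ⟨cv1r, skf2, sxf2⟩
noncomputable def gl0 : Sg := ⟨cv4m, skl0, sxl0⟩
noncomputable def gl1 : Sg := ⟨cv4m, skl1, sxl1⟩
noncomputable def gl2 : Sg := ⟨cv4p, skl2, sxl2⟩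
noncomputable def gl3 : Sg := ⟨cv4r, skl3, sxl3⟩
noncomputable def vv : Vt := ⟨(Cn.rt 1 16), (Cn.rt 577 500), (Cn.rt 231 200), (Cn.rt 1213 1000), k0c, m0c, sbk, sbx, rhk, rhx, bf1q2, bx1q2, (Cn.rt 181 1406), (Cn.rt 577 500), skm, dt67⟩
noncomputable def ff (q : ℕ) : Sg := match q with
  | 0 => gf0
  | 1 => gf1
  | 2 => gf2
  | _ => gf3
noncomputable def fl (q : ℕ) : Sg := match q with
  | 0 => gl0
  | 1 => gl1
  | 2 => gl2
  | _ => gl3
noncomputable def tt : STab 5 := ⟨dd, 0, 4, ff, fl, vv⟩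
theorem kcl0 {p x : ℝ} (h1 : -1 / 2 ≤ p) (h2 : p ≤ -7 / 16) : kcg.v p x = (19931469 / 40000000 + (x - 148977 / 200000) * (-2997049 / 4000000)) + (19707 / 10000 + (x - 148977 / 200000) * (2643 / 1000)) * p := by
  simp only [kcg, kcg_3, kcg_6, kcg_9, kcg_12, kcg_13, kcg_16, kcg_22, kcg_27, kcg_38, kcg_46, kcg_47, kcg_52, kcg_60, kcg_63, kcg_68, kcg_73, kcg_84, kcg_93, kcg_97, kcg_101, kcg_108, kcg_113, kcg_117, kcg_126, kcg_130, kcg_139, kcg_144, kcg_148, kcg_155, kcg_156, kcg_157, kcg_174, kcg_195]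
  rcases eq_or_lt_of_le h1 with h | h1
  · subst h
    ((try push_cast); (repeat first | rw [if_pos (by linarith)] | rw [if_neg (by linarith)] | erw [if_pos (by linarith)] | erw [if_neg (by linarith)]); (try push_cast); (try ring1))
  rcases eq_or_lt_of_le h2 with h | h2
  · subst h
    ((try push_cast); (repeat first | rw [if_pos (by linarith)] | rw [if_neg (by linarith)] | erw [if_pos (by linarith)] | erw [if_neg (by linarith)]); (try push_cast); (try ring1))
  · ((try push_cast); (repeat first | rw [if_pos (by linarith)] | rw [if_neg (by linarith)] | erw [if_pos (by linarith)] | erw [if_neg (by linarith)]); (try push_cast); (try ring1))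
theorem kcl1 {p x : ℝ} (h1 : -7 / 16 ≤ p) (h2 : p ≤ -77 / 200) : kcg.v p x = (-24405232249 / 3200000000 + (x - 148977 / 200000) * (407017379 / 80000000)) + (-14068719859 / 400000000 + (x - 148977 / 200000) * (293263349 / 10000000)) * p + (-42448571 / 1000000 + (x - 148977 / 200000) * (762381 / 25000)) * p ^ 2 := by
  simp only [kcg, kcg_3, kcg_6, kcg_9, kcg_12, kcg_13, kcg_16, kcg_22, kcg_27, kcg_38, kcg_46, kcg_47, kcg_52, kcg_60, kcg_63, kcg_68, kcg_73, kcg_84, kcg_93, kcg_97, kcg_101, kcg_108, kcg_113, kcg_117, kcg_126, kcg_130, kcg_139, kcg_144, kcg_148, kcg_155, kcg_156, kcg_157, kcg_174, kcg_195]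
  rcases eq_or_lt_of_le h1 with h | h1
  · subst h
    ((try push_cast); (repeat first | rw [if_pos (by linarith)] | rw [if_neg (by linarith)] | erw [if_pos (by linarith)] | erw [if_neg (by linarith)]); (try push_cast); (try ring1))
  rcases eq_or_lt_of_le h2 with h | h2
  · subst h
    ((try push_cast); (repeat first | rw [if_pos (by linarith)] | rw [if_neg (by linarith)] | erw [if_pos (by linarith)] | erw [if_neg (by linarith)]); (try push_cast); (try ring1))
  · ((try push_cast); (repeat first | rw [if_pos (by linarith)] | rw [if_neg (by linarith)] | erw [if_pos (by linarith)] | erw [if_neg (by linarith)]); (try push_cast); (try ring1))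
theorem kcl2 {p x : ℝ} (h1 : -77 / 200 ≤ p) (h2 : p ≤ -83 / 250) : kcg.v p x = (16839974709 / 12500000000 + (x - 148977 / 200000) * (2844790463 / 5000000000)) + (2861378733 / 250000000 + (x - 148977 / 200000) * (585226131 / 100000000)) * p + (4523349 / 250000 + (x - 148977 / 200000) * (943 / 100000)) * p ^ 2 := by
  simp only [kcg, kcg_3, kcg_6, kcg_9, kcg_12, kcg_13, kcg_16, kcg_22, kcg_27, kcg_38, kcg_46, kcg_47, kcg_52, kcg_60, kcg_63, kcg_68, kcg_73, kcg_84, kcg_93, kcg_97, kcg_101, kcg_108, kcg_113, kcg_117, kcg_126, kcg_130, kcg_139, kcg_144, kcg_148, kcg_155, kcg_156, kcg_157, kcg_174, kcg_195]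
  rcases eq_or_lt_of_le h1 with h | h1
  · subst h
    ((try push_cast); (repeat first | rw [if_pos (by linarith)] | rw [if_neg (by linarith)] | erw [if_pos (by linarith)] | erw [if_neg (by linarith)]); (try push_cast); (try ring1))
  rcases eq_or_lt_of_le h2 with h | h2
  · subst h
    ((try push_cast); (repeat first | rw [if_pos (by linarith)] | rw [if_neg (by linarith)] | erw [if_pos (by linarith)] | erw [if_neg (by linarith)]); (try push_cast); (try ring1))
  · ((try push_cast); (repeat first | rw [if_pos (by linarith)] | rw [if_neg (by linarith)] | erw [if_pos (by linarith)] | erw [if_neg (by linarith)]); (try push_cast); (try ring1))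
theorem kcl3 {p x : ℝ} (h1 : -83 / 250 ≤ p) (h2 : p ≤ -7 / 25) : kcg.v p x = (-861702823 / 6250000000 + (x - 148977 / 200000) * (6019291 / 4000000)) + (156206719 / 62500000 + (x - 148977 / 200000) * (1149 / 100)) * p + (144381 / 31250 + (x - 148977 / 200000) * (17 / 2)) * p ^ 2 := by
  simp only [kcg, kcg_3, kcg_6, kcg_9, kcg_12, kcg_13, kcg_16, kcg_22, kcg_27, kcg_38, kcg_46, kcg_47, kcg_52, kcg_60, kcg_63, kcg_68, kcg_73, kcg_84, kcg_93, kcg_97, kcg_101, kcg_108, kcg_113, kcg_117, kcg_126, kcg_130, kcg_139, kcg_144, kcg_148, kcg_155, kcg_156, kcg_157, kcg_174, kcg_195]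
  rcases eq_or_lt_of_le h1 with h | h1
  · subst h
    ((try push_cast); (repeat first | rw [if_pos (by linarith)] | rw [if_neg (by linarith)] | erw [if_pos (by linarith)] | erw [if_neg (by linarith)]); (try push_cast); (try ring1))
  rcases eq_or_lt_of_le h2 with h | h2
  · subst h
    ((try push_cast); (repeat first | rw [if_pos (by linarith)] | rw [if_neg (by linarith)] | erw [if_pos (by linarith)] | erw [if_neg (by linarith)]); (try push_cast); (try ring1))
  · ((try push_cast); (repeat first | rw [if_pos (by linarith)] | rw [if_neg (by linarith)] | erw [if_pos (by linarith)] | erw [if_neg (by linarith)]); (try push_cast); (try ring1))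
theorem kcl4 {p x : ℝ} (h1 : -7 / 25 ≤ p) (h2 : p ≤ -227 / 1000) : kcg.v p x = (16570329691 / 25000000000 + (x - 148977 / 200000) * (1048952651 / 1250000000)) + (8218490633 / 1000000000 + (x - 148977 / 200000) * (673528101 / 100000000)) * p + (14833019 / 1000000 + (x - 148977 / 200000) * (943 / 100000)) * p ^ 2 := by
  simp only [kcg, kcg_3, kcg_6, kcg_9, kcg_12, kcg_13, kcg_16, kcg_22, kcg_27, kcg_38, kcg_46, kcg_47, kcg_52, kcg_60, kcg_63, kcg_68, kcg_73, kcg_84, kcg_93, kcg_97, kcg_101, kcg_108, kcg_113, kcg_117, kcg_126, kcg_130, kcg_139, kcg_144, kcg_148, kcg_155, kcg_156, kcg_157, kcg_174, kcg_195]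
  rcases eq_or_lt_of_le h1 with h | h1
  · subst h
    ((try push_cast); (repeat first | rw [if_pos (by linarith)] | rw [if_neg (by linarith)] | erw [if_pos (by linarith)] | erw [if_neg (by linarith)]); (try push_cast); (try ring1))
  rcases eq_or_lt_of_le h2 with h | h2
  · subst h
    ((try push_cast); (repeat first | rw [if_pos (by linarith)] | rw [if_neg (by linarith)] | erw [if_pos (by linarith)] | erw [if_neg (by linarith)]); (try push_cast); (try ring1))
  · ((try push_cast); (repeat first | rw [if_pos (by linarith)] | rw [if_neg (by linarith)] | erw [if_pos (by linarith)] | erw [if_neg (by linarith)]); (try push_cast); (try ring1))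
theorem kcl5 {p x : ℝ} (h1 : -227 / 1000 ≤ p) (h2 : p ≤ -16 / 125) : kcg.v p x = (-2030349 / 20000000 + (x - 148977 / 200000) * (670941 / 800000)) + (14843 / 10000 + (x - 148977 / 200000) * (6731 / 1000)) * p := by
  simp only [kcg, kcg_3, kcg_6, kcg_9, kcg_12, kcg_13, kcg_16, kcg_22, kcg_27, kcg_38, kcg_46, kcg_47, kcg_52, kcg_60, kcg_63, kcg_68, kcg_73, kcg_84, kcg_93, kcg_97, kcg_101, kcg_108, kcg_113, kcg_117, kcg_126, kcg_130, kcg_139, kcg_144, kcg_148, kcg_155, kcg_156, kcg_157, kcg_174, kcg_195]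
  rcases eq_or_lt_of_le h1 with h | h1
  · subst h
    ((try push_cast); (repeat first | rw [if_pos (by linarith)] | rw [if_neg (by linarith)] | erw [if_pos (by linarith)] | erw [if_neg (by linarith)]); (try push_cast); (try ring1))
  rcases eq_or_lt_of_le h2 with h | h2
  · subst h
    ((try push_cast); (repeat first | rw [if_pos (by linarith)] | rw [if_neg (by linarith)] | erw [if_pos (by linarith)] | erw [if_neg (by linarith)]); (try push_cast); (try ring1))
  · ((try push_cast); (repeat first | rw [if_pos (by linarith)] | rw [if_neg (by linarith)] | erw [if_pos (by linarith)] | erw [if_neg (by linarith)]); (try push_cast); (try ring1))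
theorem kcl6 {p x : ℝ} (h1 : -16 / 125 ≤ p) (h2 : p ≤ -1 / 16) : kcg.v p x = (15890387 / 500000000 + (x - 148977 / 200000) * (-26255367 / 100000000)) + (3567084759 / 1000000000 + (x - 148977 / 200000) * (-1047571747 / 100000000)) * p + (4067939 / 500000 + (x - 148977 / 200000) * (-3360687 / 50000)) * p ^ 2 := by
  simp only [kcg, kcg_3, kcg_6, kcg_9, kcg_12, kcg_13, kcg_16, kcg_22, kcg_27, kcg_38, kcg_46, kcg_47, kcg_52, kcg_60, kcg_63, kcg_68, kcg_73, kcg_84, kcg_93, kcg_97, kcg_101, kcg_108, kcg_113, kcg_117, kcg_126, kcg_130, kcg_139, kcg_144, kcg_148, kcg_155, kcg_156, kcg_157, kcg_174, kcg_195]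
  rcases eq_or_lt_of_le h1 with h | h1
  · subst h
    ((try push_cast); (repeat first | rw [if_pos (by linarith)] | rw [if_neg (by linarith)] | erw [if_pos (by linarith)] | erw [if_neg (by linarith)]); (try push_cast); (try ring1))
  rcases eq_or_lt_of_le h2 with h | h2
  · subst h
    ((try push_cast); (repeat first | rw [if_pos (by linarith)] | rw [if_neg (by linarith)] | erw [if_pos (by linarith)] | erw [if_neg (by linarith)]); (try push_cast); (try ring1))
  · ((try push_cast); (repeat first | rw [if_pos (by linarith)] | rw [if_neg (by linarith)] | erw [if_pos (by linarith)] | erw [if_neg (by linarith)]); (try push_cast); (try ring1))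
theorem kcl7 {p x : ℝ} (h1 : -1 / 16 ≤ p) (h2 : p ≤ 1 / 16) : kcg.v p x = (0) + (25501 / 10000 + (x - 148977 / 200000) * (-1037 / 500)) * p := by
  simp only [kcg, kcg_3, kcg_6, kcg_9, kcg_12, kcg_13, kcg_16, kcg_22, kcg_27, kcg_38, kcg_46, kcg_47, kcg_52, kcg_60, kcg_63, kcg_68, kcg_73, kcg_84, kcg_93, kcg_97, kcg_101, kcg_108, kcg_113, kcg_117, kcg_126, kcg_130, kcg_139, kcg_144, kcg_148, kcg_155, kcg_156, kcg_157, kcg_174, kcg_195]
  rcases eq_or_lt_of_le h1 with h | h1
  · subst h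
    ((try push_cast); (repeat first | rw [if_pos (by linarith)] | rw [if_neg (by linarith)] | erw [if_pos (by linarith)] | erw [if_neg (by linarith)]); (try push_cast); (try ring1))
  rcases eq_or_lt_of_le h2 with h | h2
  · subst h
    ((try push_cast); (repeat first | rw [if_pos (by linarith)] | rw [if_neg (by linarith)] | erw [if_pos (by linarith)] | erw [if_neg (by linarith)]); (try push_cast); (try ring1))
  rcases lt_trichotomy p 0 with h | h | h
  · ((try push_cast); (repeat first | rw [if_pos (by linarith)] | rw [if_neg (by linarith)] | erw [if_pos (by linarith)] | erw [if_neg (by linarith)]); (try push_cast); (try ring1))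
  · subst h
    ((try push_cast); (repeat first | rw [if_pos (by linarith)] | rw [if_neg (by linarith)] | erw [if_pos (by linarith)] | erw [if_neg (by linarith)]); (try push_cast); (try ring1))
  · ((try push_cast); (repeat first | rw [if_pos (by linarith)] | rw [if_neg (by linarith)] | erw [if_pos (by linarith)] | erw [if_neg (by linarith)]); (try push_cast); (try ring1))
theorem kcl8 {p x : ℝ} (h1 : 1 / 16 ≤ p) (h2 : p ≤ 16 / 125) : kcg.v p x = (-15890387 / 500000000 + (x - 148977 / 200000) * (26255367 / 100000000)) + (3567084759 / 1000000000 + (x - 148977 / 200000) * (-1047571747 / 100000000)) * p + (-4067939 / 500000 + (x - 148977 / 200000) * (3360687 / 50000)) * p ^ 2 := by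
  simp only [kcg, kcg_3, kcg_6, kcg_9, kcg_12, kcg_13, kcg_16, kcg_22, kcg_27, kcg_38, kcg_46, kcg_47, kcg_52, kcg_60, kcg_63, kcg_68, kcg_73, kcg_84, kcg_93, kcg_97, kcg_101, kcg_108, kcg_113, kcg_117, kcg_126, kcg_130, kcg_139, kcg_144, kcg_148, kcg_155, kcg_156, kcg_157, kcg_174, kcg_195]
  rcases eq_or_lt_of_le h1 with h | h1
  · subst h
    ((try push_cast); (repeat first | rw [if_pos (by linarith)] | rw [if_neg (by linarith)] | erw [if_pos (by linarith)] | erw [if_neg (by linarith)]); (try push_cast); (try ring1))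
  rcases eq_or_lt_of_le h2 with h | h2
  · subst h
    ((try push_cast); (repeat first | rw [if_pos (by linarith)] | rw [if_neg (by linarith)] | erw [if_pos (by linarith)] | erw [if_neg (by linarith)]); (try push_cast); (try ring1))
  · ((try push_cast); (repeat first | rw [if_pos (by linarith)] | rw [if_neg (by linarith)] | erw [if_pos (by linarith)] | erw [if_neg (by linarith)]); (try push_cast); (try ring1))
theorem kcl9 {p x : ℝ} (h1 : 16 / 125 ≤ p) (h2 : p ≤ 227 / 1000) : kcg.v p x = (2030349 / 20000000 + (x - 148977 / 200000) * (-670941 / 800000)) + (14843 / 10000 + (x - 148977 / 200000) * (6731 / 1000)) * p := by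
  simp only [kcg, kcg_3, kcg_6, kcg_9, kcg_12, kcg_13, kcg_16, kcg_22, kcg_27, kcg_38, kcg_46, kcg_47, kcg_52, kcg_60, kcg_63, kcg_68, kcg_73, kcg_84, kcg_93, kcg_97, kcg_101, kcg_108, kcg_113, kcg_117, kcg_126, kcg_130, kcg_139, kcg_144, kcg_148, kcg_155, kcg_156, kcg_157, kcg_174, kcg_195]
  rcases eq_or_lt_of_le h1 with h | h1
  · subst h
    ((try push_cast); (repeat first | rw [if_pos (by linarith)] | rw [if_neg (by linarith)] | erw [if_pos (by linarith)] | erw [if_neg (by linarith)]); (try push_cast); (try ring1))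
  rcases eq_or_lt_of_le h2 with h | h2
  · subst h
    ((try push_cast); (repeat first | rw [if_pos (by linarith)] | rw [if_neg (by linarith)] | erw [if_pos (by linarith)] | erw [if_neg (by linarith)]); (try push_cast); (try ring1))
  · ((try push_cast); (repeat first | rw [if_pos (by linarith)] | rw [if_neg (by linarith)] | erw [if_pos (by linarith)] | erw [if_neg (by linarith)]); (try push_cast); (try ring1))
theorem kcl10 {p x : ℝ} (h1 : 227 / 1000 ≤ p) (h2 : p ≤ 7 / 25) : kcg.v p x = (-16570329691 / 25000000000 + (x - 148977 / 200000) * (-1048952651 / 1250000000)) + (8218490633 / 1000000000 + (x - 148977 / 200000) * (673528101 / 100000000)) * p + (-14833019 / 1000000 + (x - 148977 / 200000) * (-943 / 100000)) * p ^ 2 := by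
  simp only [kcg, kcg_3, kcg_6, kcg_9, kcg_12, kcg_13, kcg_16, kcg_22, kcg_27, kcg_38, kcg_46, kcg_47, kcg_52, kcg_60, kcg_63, kcg_68, kcg_73, kcg_84, kcg_93, kcg_97, kcg_101, kcg_108, kcg_113, kcg_117, kcg_126, kcg_130, kcg_139, kcg_144, kcg_148, kcg_155, kcg_156, kcg_157, kcg_174, kcg_195]
  rcases eq_or_lt_of_le h1 with h | h1
  · subst h
    ((try push_cast); (repeat first | rw [if_pos (by linarith)] | rw [if_neg (by linarith)] | erw [if_pos (by linarith)] | erw [if_neg (by linarith)]); (try push_cast); (try ring1))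
  rcases eq_or_lt_of_le h2 with h | h2
  · subst h
    ((try push_cast); (repeat first | rw [if_pos (by linarith)] | rw [if_neg (by linarith)] | erw [if_pos (by linarith)] | erw [if_neg (by linarith)]); (try push_cast); (try ring1))
  · ((try push_cast); (repeat first | rw [if_pos (by linarith)] | rw [if_neg (by linarith)] | erw [if_pos (by linarith)] | erw [if_neg (by linarith)]); (try push_cast); (try ring1))
theorem kcl11 {p x : ℝ} (h1 : 7 / 25 ≤ p) (h2 : p ≤ 83 / 250) : kcg.v p x = (861702823 / 6250000000 + (x - 148977 / 200000) * (-6019291 / 4000000)) + (156206719 / 62500000 + (x - 148977 / 200000) * (1149 / 100)) * p + (-144381 / 31250 + (x - 148977 / 200000) * (-17 / 2)) * p ^ 2 := by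
  simp only [kcg, kcg_3, kcg_6, kcg_9, kcg_12, kcg_13, kcg_16, kcg_22, kcg_27, kcg_38, kcg_46, kcg_47, kcg_52, kcg_60, kcg_63, kcg_68, kcg_73, kcg_84, kcg_93, kcg_97, kcg_101, kcg_108, kcg_113, kcg_117, kcg_126, kcg_130, kcg_139, kcg_144, kcg_148, kcg_155, kcg_156, kcg_157, kcg_174, kcg_195]
  rcases eq_or_lt_of_le h1 with h | h1
  · subst h
    ((try push_cast); (repeat first | rw [if_pos (by linarith)] | rw [if_neg (by linarith)] | erw [if_pos (by linarith)] | erw [if_neg (by linarith)]); (try push_cast); (try ring1))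
  rcases eq_or_lt_of_le h2 with h | h2
  · subst h
    ((try push_cast); (repeat first | rw [if_pos (by linarith)] | rw [if_neg (by linarith)] | erw [if_pos (by linarith)] | erw [if_neg (by linarith)]); (try push_cast); (try ring1))
  · ((try push_cast); (repeat first | rw [if_pos (by linarith)] | rw [if_neg (by linarith)] | erw [if_pos (by linarith)] | erw [if_neg (by linarith)]); (try push_cast); (try ring1))
theorem kcl12 {p x : ℝ} (h1 : 83 / 250 ≤ p) (h2 : p ≤ 77 / 200) : kcg.v p x = (-16839974709 / 12500000000 + (x - 148977 / 200000) * (-2844790463 / 5000000000)) + (2861378733 / 250000000 + (x - 148977 / 200000) * (585226131 / 100000000)) * p + (-4523349 / 250000 + (x - 148977 / 200000) * (-943 / 100000)) * p ^ 2 := by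
  simp only [kcg, kcg_3, kcg_6, kcg_9, kcg_12, kcg_13, kcg_16, kcg_22, kcg_27, kcg_38, kcg_46, kcg_47, kcg_52, kcg_60, kcg_63, kcg_68, kcg_73, kcg_84, kcg_93, kcg_97, kcg_101, kcg_108, kcg_113, kcg_117, kcg_126, kcg_130, kcg_139, kcg_144, kcg_148, kcg_155, kcg_156, kcg_157, kcg_174, kcg_195]
  rcases eq_or_lt_of_le h1 with h | h1
  · subst h
    ((try push_cast); (repeat first | rw [if_pos (by linarith)] | rw [if_neg (by linarith)] | erw [if_pos (by linarith)] | erw [if_neg (by linarith)]); (try push_cast); (try ring1))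
  rcases eq_or_lt_of_le h2 with h | h2
  · subst h
    ((try push_cast); (repeat first | rw [if_pos (by linarith)] | rw [if_neg (by linarith)] | erw [if_pos (by linarith)] | erw [if_neg (by linarith)]); (try push_cast); (try ring1))
  · ((try push_cast); (repeat first | rw [if_pos (by linarith)] | rw [if_neg (by linarith)] | erw [if_pos (by linarith)] | erw [if_neg (by linarith)]); (try push_cast); (try ring1))
theorem kcl13 {p x : ℝ} (h1 : 77 / 200 ≤ p) (h2 : p ≤ 7 / 16) : kcg.v p x = (24405232249 / 3200000000 + (x - 148977 / 200000) * (-407017379 / 80000000)) + (-14068719859 / 400000000 + (x - 148977 / 200000) * (293263349 / 10000000)) * p + (42448571 / 1000000 + (x - 148977 / 200000) * (-762381 / 25000)) * p ^ 2 := by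
  simp only [kcg, kcg_3, kcg_6, kcg_9, kcg_12, kcg_13, kcg_16, kcg_22, kcg_27, kcg_38, kcg_46, kcg_47, kcg_52, kcg_60, kcg_63, kcg_68, kcg_73, kcg_84, kcg_93, kcg_97, kcg_101, kcg_108, kcg_113, kcg_117, kcg_126, kcg_130, kcg_139, kcg_144, kcg_148, kcg_155, kcg_156, kcg_157, kcg_174, kcg_195]
  rcases eq_or_lt_of_le h1 with h | h1
  · subst h
    ((try push_cast); (repeat first | rw [if_pos (by linarith)] | rw [if_neg (by linarith)] | erw [if_pos (by linarith)] | erw [if_neg (by linarith)]); (try push_cast); (try ring1))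
  rcases eq_or_lt_of_le h2 with h | h2
  · subst h
    ((try push_cast); (repeat first | rw [if_pos (by linarith)] | rw [if_neg (by linarith)] | erw [if_pos (by linarith)] | erw [if_neg (by linarith)]); (try push_cast); (try ring1))
  · ((try push_cast); (repeat first | rw [if_pos (by linarith)] | rw [if_neg (by linarith)] | erw [if_pos (by linarith)] | erw [if_neg (by linarith)]); (try push_cast); (try ring1))
theorem kcl14 {p x : ℝ} (h1 : 7 / 16 ≤ p) (h2 : p ≤ 1 / 2) : kcg.v p x = (-19931469 / 40000000 + (x - 148977 / 200000) * (2997049 / 4000000)) + (19707 / 10000 + (x - 148977 / 200000) * (2643 / 1000)) * p := by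
  simp only [kcg, kcg_3, kcg_6, kcg_9, kcg_12, kcg_13, kcg_16, kcg_22, kcg_27, kcg_38, kcg_46, kcg_47, kcg_52, kcg_60, kcg_63, kcg_68, kcg_73, kcg_84, kcg_93, kcg_97, kcg_101, kcg_108, kcg_113, kcg_117, kcg_126, kcg_130, kcg_139, kcg_144, kcg_148, kcg_155, kcg_156, kcg_157, kcg_174, kcg_195]
  rcases eq_or_lt_of_le h1 with h | h1
  · subst h
    ((try push_cast); (repeat first | rw [if_pos (by linarith)] | rw [if_neg (by linarith)] | erw [if_pos (by linarith)] | erw [if_neg (by linarith)]); (try push_cast); (try ring1))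
  rcases eq_or_lt_of_le h2 with h | h2
  · subst h
    ((try push_cast); (repeat first | rw [if_pos (by linarith)] | rw [if_neg (by linarith)] | erw [if_pos (by linarith)] | erw [if_neg (by linarith)]); (try push_cast); (try ring1))
  · ((try push_cast); (repeat first | rw [if_pos (by linarith)] | rw [if_neg (by linarith)] | erw [if_pos (by linarith)] | erw [if_neg (by linarith)]); (try push_cast); (try ring1))
theorem kvh0 {p x : ℝ} (h2 : p ≤ -7 / 16) : dt29.kv p x = (19931469 / 40000000 + (x - 148977 / 200000) * (-2997049 / 4000000)) + (19707 / 10000 + (x - 148977 / 200000) * (2643 / 1000)) * p := by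
  refine (DT.kv_le (by simp only [Cn.rt_v, Cn.ng_v]; push_cast; linarith)).trans ?_
  refine (DT.kv_le (by simp only [Cn.rt_v, Cn.ng_v]; push_cast; linarith)).trans ?_
  refine (DT.kv_le (by simp only [Cn.rt_v, Cn.ng_v]; push_cast; linarith)).trans ?_
  simp only [dt1, DT.kv, sl1, sv1]
  ((try push_cast); ring1)
theorem kvh1 {p x : ℝ} (h1 : -7 / 16 < p) (h2 : p ≤ -77 / 200) : dt29.kv p x = (-24405232249 / 3200000000 + (x - 148977 / 200000) * (407017379 / 80000000)) + (-14068719859 / 400000000 + (x - 148977 / 200000) * (293263349 / 10000000)) * p + (-42448571 / 1000000 + (x - 148977 / 200000) * (762381 / 25000)) * p ^ 2 := by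
  refine (DT.kv_le (by simp only [Cn.rt_v, Cn.ng_v]; push_cast; linarith)).trans ?_
  refine (DT.kv_le (by simp only [Cn.rt_v, Cn.ng_v]; push_cast; linarith)).trans ?_
  refine (DT.kv_gt (by simp only [Cn.rt_v, Cn.ng_v]; push_cast; linarith)).trans ?_
  refine (DT.kv_le (by simp only [Cn.rt_v, Cn.ng_v]; push_cast; linarith)).trans ?_
  simp only [dt2, DT.kv, sw2, sl2, sv2]
  ((try push_cast); ring1)
theorem kvh2 {p x : ℝ} (h1 : -77 / 200 < p) (h2 : p ≤ -83 / 250) : dt29.kv p x = (16839974709 / 12500000000 + (x - 148977 / 200000) * (2844790463 / 5000000000)) + (2861378733 / 250000000 + (x - 148977 / 200000) * (585226131 / 100000000)) * p + (4523349 / 250000 + (x - 148977 / 200000) * (943 / 100000)) * p ^ 2 := by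
  refine (DT.kv_le (by simp only [Cn.rt_v, Cn.ng_v]; push_cast; linarith)).trans ?_
  refine (DT.kv_le (by simp only [Cn.rt_v, Cn.ng_v]; push_cast; linarith)).trans ?_
  refine (DT.kv_gt (by simp only [Cn.rt_v, Cn.ng_v]; push_cast; linarith)).trans ?_
  refine (DT.kv_gt (by simp only [Cn.rt_v, Cn.ng_v]; push_cast; linarith)).trans ?_
  simp only [dt3, DT.kv, sw3, sl3, sv3]
  ((try push_cast); ring1)
theorem kvh3 {p x : ℝ} (h1 : -83 / 250 < p) (h2 : p ≤ -7 / 25) : dt29.kv p x = (-861702823 / 6250000000 + (x - 148977 / 200000) * (6019291 / 4000000)) + (156206719 / 62500000 + (x - 148977 / 200000) * (1149 / 100)) * p + (144381 / 31250 + (x - 148977 / 200000) * (17 / 2)) * p ^ 2 := by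
  refine (DT.kv_le (by simp only [Cn.rt_v, Cn.ng_v]; push_cast; linarith)).trans ?_
  refine (DT.kv_gt (by simp only [Cn.rt_v, Cn.ng_v]; push_cast; linarith)).trans ?_
  refine (DT.kv_le (by simp only [Cn.rt_v, Cn.ng_v]; push_cast; linarith)).trans ?_
  refine (DT.kv_le (by simp only [Cn.rt_v, Cn.ng_v]; push_cast; linarith)).trans ?_
  simp only [dt4, DT.kv, sw4, sl4, sv4]
  ((try push_cast); ring1)
theorem kvh4 {p x : ℝ} (h1 : -7 / 25 < p) (h2 : p ≤ -227 / 1000) : dt29.kv p x = (16570329691 / 25000000000 + (x - 148977 / 200000) * (1048952651 / 1250000000)) + (8218490633 / 1000000000 + (x - 148977 / 200000) * (673528101 / 100000000)) * p + (14833019 / 1000000 + (x - 148977 / 200000) * (943 / 100000)) * p ^ 2 := by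
  refine (DT.kv_le (by simp only [Cn.rt_v, Cn.ng_v]; push_cast; linarith)).trans ?_
  refine (DT.kv_gt (by simp only [Cn.rt_v, Cn.ng_v]; push_cast; linarith)).trans ?_
  refine (DT.kv_le (by simp only [Cn.rt_v, Cn.ng_v]; push_cast; linarith)).trans ?_
  refine (DT.kv_gt (by simp only [Cn.rt_v, Cn.ng_v]; push_cast; linarith)).trans ?_
  simp only [dt5, DT.kv, sw5, sl5, sv5]
  ((try push_cast); ring1)
theorem kvh5 {p x : ℝ} (h1 : -227 / 1000 < p) (h2 : p ≤ -16 / 125) : dt29.kv p x = (-2030349 / 20000000 + (x - 148977 / 200000) * (670941 / 800000)) + (14843 / 10000 + (x - 148977 / 200000) * (6731 / 1000)) * p := by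
  refine (DT.kv_le (by simp only [Cn.rt_v, Cn.ng_v]; push_cast; linarith)).trans ?_
  refine (DT.kv_gt (by simp only [Cn.rt_v, Cn.ng_v]; push_cast; linarith)).trans ?_
  refine (DT.kv_gt (by simp only [Cn.rt_v, Cn.ng_v]; push_cast; linarith)).trans ?_
  refine (DT.kv_le (by simp only [Cn.rt_v, Cn.ng_v]; push_cast; linarith)).trans ?_
  simp only [dt6, DT.kv, sl6, sv6]
  ((try push_cast); ring1)
theorem kvh6 {p x : ℝ} (h1 : -16 / 125 < p) (h2 : p ≤ -1 / 16) : dt29.kv p x = (15890387 / 500000000 + (x - 148977 / 200000) * (-26255367 / 100000000)) + (3567084759 / 1000000000 + (x - 148977 / 200000) * (-1047571747 / 100000000)) * p + (4067939 / 500000 + (x - 148977 / 200000) * (-3360687 / 50000)) * p ^ 2 := by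
  refine (DT.kv_le (by simp only [Cn.rt_v, Cn.ng_v]; push_cast; linarith)).trans ?_
  refine (DT.kv_gt (by simp only [Cn.rt_v, Cn.ng_v]; push_cast; linarith)).trans ?_
  refine (DT.kv_gt (by simp only [Cn.rt_v, Cn.ng_v]; push_cast; linarith)).trans ?_
  refine (DT.kv_gt (by simp only [Cn.rt_v, Cn.ng_v]; push_cast; linarith)).trans ?_
  simp only [dt7, DT.kv, sw7, sl7, sv7]
  ((try push_cast); ring1)
theorem kvh7 {p x : ℝ} (h1 : -1 / 16 < p) (h2 : p ≤ 1 / 16) : dt29.kv p x = (0) + (25501 / 10000 + (x - 148977 / 200000) * (-1037 / 500)) * p := by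
  refine (DT.kv_gt (by simp only [Cn.rt_v, Cn.ng_v]; push_cast; linarith)).trans ?_
  refine (DT.kv_le (by simp only [Cn.rt_v, Cn.ng_v]; push_cast; linarith)).trans ?_
  refine (DT.kv_le (by simp only [Cn.rt_v, Cn.ng_v]; push_cast; linarith)).trans ?_
  refine (DT.kv_le (by simp only [Cn.rt_v, Cn.ng_v]; push_cast; linarith)).trans ?_
  simp only [dt8, DT.kv, sl8, sv8]
  ((try push_cast); ring1)
theorem kvh8 {p x : ℝ} (h1 : 1 / 16 < p) (h2 : p ≤ 16 / 125) : dt29.kv p x = (-15890387 / 500000000 + (x - 148977 / 200000) * (26255367 / 100000000)) + (3567084759 / 1000000000 + (x - 148977 / 200000) * (-1047571747 / 100000000)) * p + (-4067939 / 500000 + (x - 148977 / 200000) * (3360687 / 50000)) * p ^ 2 := by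
  refine (DT.kv_gt (by simp only [Cn.rt_v, Cn.ng_v]; push_cast; linarith)).trans ?_
  refine (DT.kv_le (by simp only [Cn.rt_v, Cn.ng_v]; push_cast; linarith)).trans ?_
  refine (DT.kv_le (by simp only [Cn.rt_v, Cn.ng_v]; push_cast; linarith)).trans ?_
  refine (DT.kv_gt (by simp only [Cn.rt_v, Cn.ng_v]; push_cast; linarith)).trans ?_
  simp only [dt9, DT.kv, sw9, sl9, sv9]
  ((try push_cast); ring1)
theorem kvh9 {p x : ℝ} (h1 : 16 / 125 < p) (h2 : p ≤ 227 / 1000) : dt29.kv p x = (2030349 / 20000000 + (x - 148977 / 200000) * (-670941 / 800000)) + (14843 / 10000 + (x - 148977 / 200000) * (6731 / 1000)) * p := by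
  refine (DT.kv_gt (by simp only [Cn.rt_v, Cn.ng_v]; push_cast; linarith)).trans ?_
  refine (DT.kv_le (by simp only [Cn.rt_v, Cn.ng_v]; push_cast; linarith)).trans ?_
  refine (DT.kv_gt (by simp only [Cn.rt_v, Cn.ng_v]; push_cast; linarith)).trans ?_
  refine (DT.kv_le (by simp only [Cn.rt_v, Cn.ng_v]; push_cast; linarith)).trans ?_
  simp only [dt10, DT.kv, sl10, sv10]
  ((try push_cast); ring1)
theorem kvh10 {p x : ℝ} (h1 : 227 / 1000 < p) (h2 : p ≤ 7 / 25) : dt29.kv p x = (-16570329691 / 25000000000 + (x - 148977 / 200000) * (-1048952651 / 1250000000)) + (8218490633 / 1000000000 + (x - 148977 / 200000) * (673528101 / 100000000)) * p + (-14833019 / 1000000 + (x - 148977 / 200000) * (-943 / 100000)) * p ^ 2 := by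
  refine (DT.kv_gt (by simp only [Cn.rt_v, Cn.ng_v]; push_cast; linarith)).trans ?_
  refine (DT.kv_le (by simp only [Cn.rt_v, Cn.ng_v]; push_cast; linarith)).trans ?_
  refine (DT.kv_gt (by simp only [Cn.rt_v, Cn.ng_v]; push_cast; linarith)).trans ?_
  refine (DT.kv_gt (by simp only [Cn.rt_v, Cn.ng_v]; push_cast; linarith)).trans ?_
  simp only [dt11, DT.kv, sw11, sl11, sv11]
  ((try push_cast); ring1)
theorem kvh11 {p x : ℝ} (h1 : 7 / 25 < p) (h2 : p ≤ 83 / 250) : dt29.kv p x = (861702823 / 6250000000 + (x - 148977 / 200000) * (-6019291 / 4000000)) + (156206719 / 62500000 + (x - 148977 / 200000) * (1149 / 100)) * p + (-144381 / 31250 + (x - 148977 / 200000) * (-17 / 2)) * p ^ 2 := by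
  refine (DT.kv_gt (by simp only [Cn.rt_v, Cn.ng_v]; push_cast; linarith)).trans ?_
  refine (DT.kv_gt (by simp only [Cn.rt_v, Cn.ng_v]; push_cast; linarith)).trans ?_
  refine (DT.kv_le (by simp only [Cn.rt_v, Cn.ng_v]; push_cast; linarith)).trans ?_
  refine (DT.kv_le (by simp only [Cn.rt_v, Cn.ng_v]; push_cast; linarith)).trans ?_
  simp only [dt12, DT.kv, sw12, sl12, sv12]
  ((try push_cast); ring1)
theorem kvh12 {p x : ℝ} (h1 : 83 / 250 < p) (h2 : p ≤ 77 / 200) : dt29.kv p x = (-16839974709 / 12500000000 + (x - 148977 / 200000) * (-2844790463 / 5000000000)) + (2861378733 / 250000000 + (x - 148977 / 200000) * (585226131 / 100000000)) * p + (-4523349 / 250000 + (x - 148977 / 200000) * (-943 / 100000)) * p ^ 2 := by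
  refine (DT.kv_gt (by simp only [Cn.rt_v, Cn.ng_v]; push_cast; linarith)).trans ?_
  refine (DT.kv_gt (by simp only [Cn.rt_v, Cn.ng_v]; push_cast; linarith)).trans ?_
  refine (DT.kv_le (by simp only [Cn.rt_v, Cn.ng_v]; push_cast; linarith)).trans ?_
  refine (DT.kv_gt (by simp only [Cn.rt_v, Cn.ng_v]; push_cast; linarith)).trans ?_
  simp only [dt13, DT.kv, sw13, sl13, sv13]
  ((try push_cast); ring1)
theorem kvh13 {p x : ℝ} (h1 : 77 / 200 < p) (h2 : p ≤ 7 / 16) : dt29.kv p x = (24405232249 / 3200000000 + (x - 148977 / 200000) * (-407017379 / 80000000)) + (-14068719859 / 400000000 + (x - 148977 / 200000) * (293263349 / 10000000)) * p + (42448571 / 1000000 + (x - 148977 / 200000) * (-762381 / 25000)) * p ^ 2 := by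
  refine (DT.kv_gt (by simp only [Cn.rt_v, Cn.ng_v]; push_cast; linarith)).trans ?_
  refine (DT.kv_gt (by simp only [Cn.rt_v, Cn.ng_v]; push_cast; linarith)).trans ?_
  refine (DT.kv_gt (by simp only [Cn.rt_v, Cn.ng_v]; push_cast; linarith)).trans ?_
  refine (DT.kv_le (by simp only [Cn.rt_v, Cn.ng_v]; push_cast; linarith)).trans ?_
  simp only [dt14, DT.kv, sw14, sl14, sv14]
  ((try push_cast); ring1)
theorem kvh14 {p x : ℝ} (h1 : 7 / 16 < p) (h2 : p ≤ 1 / 2) : dt29.kv p x = (-19931469 / 40000000 + (x - 148977 / 200000) * (2997049 / 4000000)) + (19707 / 10000 + (x - 148977 / 200000) * (2643 / 1000)) * p := by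
  refine (DT.kv_gt (by simp only [Cn.rt_v, Cn.ng_v]; push_cast; linarith)).trans ?_
  refine (DT.kv_gt (by simp only [Cn.rt_v, Cn.ng_v]; push_cast; linarith)).trans ?_
  refine (DT.kv_gt (by simp only [Cn.rt_v, Cn.ng_v]; push_cast; linarith)).trans ?_
  refine (DT.kv_gt (by simp only [Cn.rt_v, Cn.ng_v]; push_cast; linarith)).trans ?_
  simp only [dt15, DT.kv, sl15, sv15]
  ((try push_cast); ring1)
theorem kvl0 {p x : ℝ} (h1 : -1 / 2 ≤ p) (h2 : p ≤ -7 / 16) : dt29.kv p x = (19931469 / 40000000 + (x - 148977 / 200000) * (-2997049 / 4000000)) + (19707 / 10000 + (x - 148977 / 200000) * (2643 / 1000)) * p := by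
  exact kvh0 h2
theorem kvl1 {p x : ℝ} (h1 : -7 / 16 ≤ p) (h2 : p ≤ -77 / 200) : dt29.kv p x = (-24405232249 / 3200000000 + (x - 148977 / 200000) * (407017379 / 80000000)) + (-14068719859 / 400000000 + (x - 148977 / 200000) * (293263349 / 10000000)) * p + (-42448571 / 1000000 + (x - 148977 / 200000) * (762381 / 25000)) * p ^ 2 := by
  rcases eq_or_lt_of_le h1 with h | h1
  · subst h
    rw [kvh0 (by norm_num)]
    ring1
  · exact kvh1 h1 h2
theorem kvl2 {p x : ℝ} (h1 : -77 / 200 ≤ p) (h2 : p ≤ -83 / 250) : dt29.kv p x = (16839974709 / 12500000000 + (x - 148977 / 200000) * (2844790463 / 5000000000)) + (2861378733 / 250000000 + (x - 148977 / 200000) * (585226131 / 100000000)) * p + (4523349 / 250000 + (x - 148977 / 200000) * (943 / 100000)) * p ^ 2 := by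
  rcases eq_or_lt_of_le h1 with h | h1
  · subst h
    rw [kvh1 (by norm_num) (by norm_num)]
    ring1
  · exact kvh2 h1 h2
theorem kvl3 {p x : ℝ} (h1 : -83 / 250 ≤ p) (h2 : p ≤ -7 / 25) : dt29.kv p x = (-861702823 / 6250000000 + (x - 148977 / 200000) * (6019291 / 4000000)) + (156206719 / 62500000 + (x - 148977 / 200000) * (1149 / 100)) * p + (144381 / 31250 + (x - 148977 / 200000) * (17 / 2)) * p ^ 2 := by
  rcases eq_or_lt_of_le h1 with h | h1
  · subst h
    rw [kvh2 (by norm_num) (by norm_num)]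
    ring1
  · exact kvh3 h1 h2
theorem kvl4 {p x : ℝ} (h1 : -7 / 25 ≤ p) (h2 : p ≤ -227 / 1000) : dt29.kv p x = (16570329691 / 25000000000 + (x - 148977 / 200000) * (1048952651 / 1250000000)) + (8218490633 / 1000000000 + (x - 148977 / 200000) * (673528101 / 100000000)) * p + (14833019 / 1000000 + (x - 148977 / 200000) * (943 / 100000)) * p ^ 2 := by
  rcases eq_or_lt_of_le h1 with h | h1
  · subst h
    rw [kvh3 (by norm_num) (by norm_num)]
    ring1
  · exact kvh4 h1 h2
theorem kvl5 {p x : ℝ} (h1 : -227 / 1000 ≤ p) (h2 : p ≤ -16 / 125) : dt29.kv p x = (-2030349 / 20000000 + (x - 148977 / 200000) * (670941 / 800000)) + (14843 / 10000 + (x - 148977 / 200000) * (6731 / 1000)) * p := by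
  rcases eq_or_lt_of_le h1 with h | h1
  · subst h
    rw [kvh4 (by norm_num) (by norm_num)]
    ring1
  · exact kvh5 h1 h2
theorem kvl6 {p x : ℝ} (h1 : -16 / 125 ≤ p) (h2 : p ≤ -1 / 16) : dt29.kv p x = (15890387 / 500000000 + (x - 148977 / 200000) * (-26255367 / 100000000)) + (3567084759 / 1000000000 + (x - 148977 / 200000) * (-1047571747 / 100000000)) * p + (4067939 / 500000 + (x - 148977 / 200000) * (-3360687 / 50000)) * p ^ 2 := by
  rcases eq_or_lt_of_le h1 with h | h1
  · subst h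
    rw [kvh5 (by norm_num) (by norm_num)]
    ring1
  · exact kvh6 h1 h2
theorem kvl7 {p x : ℝ} (h1 : -1 / 16 ≤ p) (h2 : p ≤ 1 / 16) : dt29.kv p x = (0) + (25501 / 10000 + (x - 148977 / 200000) * (-1037 / 500)) * p := by
  rcases eq_or_lt_of_le h1 with h | h1
  · subst h
    rw [kvh6 (by norm_num) (by norm_num)]
    ring1
  · exact kvh7 h1 h2
theorem kvl8 {p x : ℝ} (h1 : 1 / 16 ≤ p) (h2 : p ≤ 16 / 125) : dt29.kv p x = (-15890387 / 500000000 + (x - 148977 / 200000) * (26255367 / 100000000)) + (3567084759 / 1000000000 + (x - 148977 / 200000) * (-1047571747 / 100000000)) * p + (-4067939 / 500000 + (x - 148977 / 200000) * (3360687 / 50000)) * p ^ 2 := by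
  rcases eq_or_lt_of_le h1 with h | h1
  · subst h
    rw [kvh7 (by norm_num) (by norm_num)]
    ring1
  · exact kvh8 h1 h2
theorem kvl9 {p x : ℝ} (h1 : 16 / 125 ≤ p) (h2 : p ≤ 227 / 1000) : dt29.kv p x = (2030349 / 20000000 + (x - 148977 / 200000) * (-670941 / 800000)) + (14843 / 10000 + (x - 148977 / 200000) * (6731 / 1000)) * p := by
  rcases eq_or_lt_of_le h1 with h | h1
  · subst h
    rw [kvh8 (by norm_num) (by norm_num)]
    ring1
  · exact kvh9 h1 h2
theorem kvl10 {p x : ℝ} (h1 : 227 / 1000 ≤ p) (h2 : p ≤ 7 / 25) : dt29.kv p x = (-16570329691 / 25000000000 + (x - 148977 / 200000) * (-1048952651 / 1250000000)) + (8218490633 / 1000000000 + (x - 148977 / 200000) * (673528101 / 100000000)) * p + (-14833019 / 1000000 + (x - 148977 / 200000) * (-943 / 100000)) * p ^ 2 := by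
  rcases eq_or_lt_of_le h1 with h | h1
  · subst h
    rw [kvh9 (by norm_num) (by norm_num)]
    ring1
  · exact kvh10 h1 h2
theorem kvl11 {p x : ℝ} (h1 : 7 / 25 ≤ p) (h2 : p ≤ 83 / 250) : dt29.kv p x = (861702823 / 6250000000 + (x - 148977 / 200000) * (-6019291 / 4000000)) + (156206719 / 62500000 + (x - 148977 / 200000) * (1149 / 100)) * p + (-144381 / 31250 + (x - 148977 / 200000) * (-17 / 2)) * p ^ 2 := by
  rcases eq_or_lt_of_le h1 with h | h1
  · subst h
    rw [kvh10 (by norm_num) (by norm_num)]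
    ring1
  · exact kvh11 h1 h2
theorem kvl12 {p x : ℝ} (h1 : 83 / 250 ≤ p) (h2 : p ≤ 77 / 200) : dt29.kv p x = (-16839974709 / 12500000000 + (x - 148977 / 200000) * (-2844790463 / 5000000000)) + (2861378733 / 250000000 + (x - 148977 / 200000) * (585226131 / 100000000)) * p + (-4523349 / 250000 + (x - 148977 / 200000) * (-943 / 100000)) * p ^ 2 := by
  rcases eq_or_lt_of_le h1 with h | h1
  · subst h
    rw [kvh11 (by norm_num) (by norm_num)]
    ring1
  · exact kvh12 h1 h2
theorem kvl13 {p x : ℝ} (h1 : 77 / 200 ≤ p) (h2 : p ≤ 7 / 16) : dt29.kv p x = (24405232249 / 3200000000 + (x - 148977 / 200000) * (-407017379 / 80000000)) + (-14068719859 / 400000000 + (x - 148977 / 200000) * (293263349 / 10000000)) * p + (42448571 / 1000000 + (x - 148977 / 200000) * (-762381 / 25000)) * p ^ 2 := by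
  rcases eq_or_lt_of_le h1 with h | h1
  · subst h
    rw [kvh12 (by norm_num) (by norm_num)]
    ring1
  · exact kvh13 h1 h2
theorem kvl14 {p x : ℝ} (h1 : 7 / 16 ≤ p) (h2 : p ≤ 1 / 2) : dt29.kv p x = (-19931469 / 40000000 + (x - 148977 / 200000) * (2997049 / 4000000)) + (19707 / 10000 + (x - 148977 / 200000) * (2643 / 1000)) * p := by
  rcases eq_or_lt_of_le h1 with h | h1
  · subst h
    rw [kvh13 (by norm_num) (by norm_num)]
    ring1
  · exact kvh14 h1 h2
theorem kfe {x p : ℝ} (h : |p| ≤ 1 / 2) : kcg.v p x = dt29.kv p x := by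
  obtain ⟨h1, h2⟩ := abs_le.1 h
  rcases le_total p (-7 / 16) with g0 | g1000
  · rw [kcl0 (by linarith) g0, kvl0 (by linarith) g0]
  rcases le_total p (-77 / 200) with g1 | g1001
  · rw [kcl1 g1000 g1, kvl1 g1000 g1]
  rcases le_total p (-83 / 250) with g2 | g1002
  · rw [kcl2 g1001 g2, kvl2 g1001 g2]
  rcases le_total p (-7 / 25) with g3 | g1003
  · rw [kcl3 g1002 g3, kvl3 g1002 g3]
  rcases le_total p (-227 / 1000) with g4 | g1004
  · rw [kcl4 g1003 g4, kvl4 g1003 g4]
  rcases le_total p (-16 / 125) with g5 | g1005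
  · rw [kcl5 g1004 g5, kvl5 g1004 g5]
  rcases le_total p (-1 / 16) with g6 | g1006
  · rw [kcl6 g1005 g6, kvl6 g1005 g6]
  rcases le_total p (1 / 16) with g7 | g1007
  · rw [kcl7 g1006 g7, kvl7 g1006 g7]
  rcases le_total p (16 / 125) with g8 | g1008
  · rw [kcl8 g1007 g8, kvl8 g1007 g8]
  rcases le_total p (227 / 1000) with g9 | g1009
  · rw [kcl9 g1008 g9, kvl9 g1008 g9]
  rcases le_total p (7 / 25) with g10 | g1010
  · rw [kcl10 g1009 g10, kvl10 g1009 g10]
  rcases le_total p (83 / 250) with g11 | g1011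
  · rw [kcl11 g1010 g11, kvl11 g1010 g11]
  rcases le_total p (77 / 200) with g12 | g1012
  · rw [kcl12 g1011 g12, kvl12 g1011 g12]
  rcases le_total p (7 / 16) with g13 | g1013
  · rw [kcl13 g1012 g13, kvl13 g1012 g13]
  · rw [kcl14 g1013 (by linarith), kvl14 g1013 (by linarith)]
theorem odd {x p : ℝ} (h : |p| ≤ 1 / 2) : kcg.v (-p) x = -kcg.v p x := by
  obtain ⟨h1, h2⟩ := abs_le.1 h
  rcases le_total p (-7 / 16) with g0 | g1000
  · rw [kcl0 (by linarith) g0, kcl14 (p := -p) (by linarith) (by linarith)]; ring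
  rcases le_total p (-77 / 200) with g1 | g1001
  · rw [kcl1 g1000 g1, kcl13 (p := -p) (by linarith) (by linarith)]; ring
  rcases le_total p (-83 / 250) with g2 | g1002
  · rw [kcl2 g1001 g2, kcl12 (p := -p) (by linarith) (by linarith)]; ring
  rcases le_total p (-7 / 25) with g3 | g1003
  · rw [kcl3 g1002 g3, kcl11 (p := -p) (by linarith) (by linarith)]; ring
  rcases le_total p (-227 / 1000) with g4 | g1004
  · rw [kcl4 g1003 g4, kcl10 (p := -p) (by linarith) (by linarith)]; ring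
  rcases le_total p (-16 / 125) with g5 | g1005
  · rw [kcl5 g1004 g5, kcl9 (p := -p) (by linarith) (by linarith)]; ring
  rcases le_total p (-1 / 16) with g6 | g1006
  · rw [kcl6 g1005 g6, kcl8 (p := -p) (by linarith) (by linarith)]; ring
  rcases le_total p (1 / 16) with g7 | g1007
  · rw [kcl7 g1006 g7, kcl7 (p := -p) (by linarith) (by linarith)]; ring
  rcases le_total p (16 / 125) with g8 | g1008
  · rw [kcl8 g1007 g8, kcl6 (p := -p) (by linarith) (by linarith)]; ring
  rcases le_total p (227 / 1000) with g9 | g1009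
  · rw [kcl9 g1008 g9, kcl5 (p := -p) (by linarith) (by linarith)]; ring
  rcases le_total p (7 / 25) with g10 | g1010
  · rw [kcl10 g1009 g10, kcl4 (p := -p) (by linarith) (by linarith)]; ring
  rcases le_total p (83 / 250) with g11 | g1011
  · rw [kcl11 g1010 g11, kcl3 (p := -p) (by linarith) (by linarith)]; ring
  rcases le_total p (77 / 200) with g12 | g1012
  · rw [kcl12 g1011 g12, kcl2 (p := -p) (by linarith) (by linarith)]; ring
  rcases le_total p (7 / 16) with g13 | g1013
  · rw [kcl13 g1012 g13, kcl1 (p := -p) (by linarith) (by linarith)]; ring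
  · rw [kcl14 g1013 (by linarith), kcl0 (p := -p) (by linarith) (by linarith)]; ring
theorem ctA : cT (181 / 1406) = 1117 / 1406 := by
  unfold cT
  rw [show (3 / 4 * (1 - (181 / 1406 : ℝ) ^ 2)) = (2415 / 2812) ^ 2 by norm_num, Real.sqrt_sq (by norm_num)]
  norm_num
theorem ctB : cT (71 / 313) = 457 / 626 := by
  unfold cT
  rw [show (3 / 4 * (1 - (71 / 313 : ℝ) ^ 2)) = (264 / 313) ^ 2 by norm_num, Real.sqrt_sq (by norm_num)]
  norm_num
theorem kgA {x : ℝ} : kcg.v (181 / 1406) x = (4113918347 / 14060000000 + (x - 148977 / 200000) * (15652877 / 562400000)) := by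
  rw [kcl9 (by norm_num) (by norm_num)]
  ring
theorem kgB {x : ℝ} : kcg.v (71 / 313) x = (2743205237 / 6260000000 + (x - 148977 / 200000) * (172316267 / 250400000)) := by
  rw [kcl9 (by norm_num) (by norm_num)]
  ring
theorem ka_dt1 (x : ℝ) : dt1.kv (-1 / 2) x = (-19482531 / 40000000 + (x - 148977 / 200000) * (-8283049 / 4000000)) := by
  simp only [dt1, DT.kv, sl1, sv1]
  ((try push_cast); ring1)
theorem kb_dt1 (x : ℝ) : dt1.kv (-7 / 16) x = (-14555781 / 40000000 + (x - 148977 / 200000) * (-7622299 / 4000000)) := by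
  simp only [dt1, DT.kv, sl1, sv1]
  ((try push_cast); ring1)
theorem ka_dt2 (x : ℝ) : dt2.kv (-7 / 16) x = (-14555781 / 40000000 + (x - 148977 / 200000) * (-7622299 / 4000000)) := by
  simp only [dt2, DT.kv, sw2, sl2, sv2]
  ((try push_cast); ring1)
theorem kb_dt2 (x : ℝ) : dt2.kv (-77 / 200) x = (-7548633 / 20000000 + (x - 148977 / 200000) * (-6731059 / 4000000)) := by
  simp only [dt2, DT.kv, sw2, sl2, sv2]
  ((try push_cast); ring1)
theorem ka_dt3 (x : ℝ) : dt3.kv (-77 / 200) x = (-7548633 / 20000000 + (x - 148977 / 200000) * (-6731059 / 4000000)) := by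
  simp only [dt3, DT.kv, sw3, sl3, sv3]
  ((try push_cast); ring1)
theorem kb_dt3 (x : ℝ) : dt3.kv (-83 / 250) x = (-916773 / 2000000 + (x - 148977 / 200000) * (-5491813 / 4000000)) := by
  simp only [dt3, DT.kv, sw3, sl3, sv3]
  ((try push_cast); ring1)
theorem ka_dt16 (x : ℝ) : dt16.kv (-7 / 16) x = (-14555781 / 40000000 + (x - 148977 / 200000) * (-7622299 / 4000000)) :=
  (DT.kv_le (by simp only [Cn.rt_v, Cn.ng_v]; norm_num)).trans (ka_dt2 x)
theorem kb_dt16 (x : ℝ) : dt16.kv (-83 / 250) x = (-916773 / 2000000 + (x - 148977 / 200000) * (-5491813 / 4000000)) :=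
  (DT.kv_gt (by simp only [Cn.rt_v, Cn.ng_v]; norm_num)).trans (kb_dt3 x)
theorem ka_dt17 (x : ℝ) : dt17.kv (-1 / 2) x = (-19482531 / 40000000 + (x - 148977 / 200000) * (-8283049 / 4000000)) :=
  (DT.kv_le (by simp only [Cn.rt_v, Cn.ng_v]; norm_num)).trans (ka_dt1 x)
theorem kb_dt17 (x : ℝ) : dt17.kv (-83 / 250) x = (-916773 / 2000000 + (x - 148977 / 200000) * (-5491813 / 4000000)) :=
  (DT.kv_gt (by simp only [Cn.rt_v, Cn.ng_v]; norm_num)).trans (kb_dt16 x)
theorem ka_dt4 (x : ℝ) : dt4.kv (-83 / 250) x = (-916773 / 2000000 + (x - 148977 / 200000) * (-5491813 / 4000000)) := by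
  simp only [dt4, DT.kv, sw4, sl4, sv4]
  ((try push_cast); ring1)
theorem kb_dt4 (x : ℝ) : dt4.kv (-7 / 25) x = (-950911 / 2000000 + (x - 148977 / 200000) * (-4183909 / 4000000)) := by
  simp only [dt4, DT.kv, sw4, sl4, sv4]
  ((try push_cast); ring1)
theorem ka_dt5 (x : ℝ) : dt5.kv (-7 / 25) x = (-950911 / 2000000 + (x - 148977 / 200000) * (-4183909 / 4000000)) := by
  simp only [dt5, DT.kv, sw5, sl5, sv5]
  ((try push_cast); ring1)
theorem kb_dt5 (x : ℝ) : dt5.kv (-227 / 1000) x = (-8769071 / 20000000 + (x - 148977 / 200000) * (-2757043 / 4000000)) := by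
  simp only [dt5, DT.kv, sw5, sl5, sv5]
  ((try push_cast); ring1)
theorem ka_dt18 (x : ℝ) : dt18.kv (-83 / 250) x = (-916773 / 2000000 + (x - 148977 / 200000) * (-5491813 / 4000000)) :=
  (DT.kv_le (by simp only [Cn.rt_v, Cn.ng_v]; norm_num)).trans (ka_dt4 x)
theorem kb_dt18 (x : ℝ) : dt18.kv (-227 / 1000) x = (-8769071 / 20000000 + (x - 148977 / 200000) * (-2757043 / 4000000)) :=
  (DT.kv_gt (by simp only [Cn.rt_v, Cn.ng_v]; norm_num)).trans (kb_dt5 x)
theorem ka_dt6 (x : ℝ) : dt6.kv (-227 / 1000) x = (-8769071 / 20000000 + (x - 148977 / 200000) * (-2757043 / 4000000)) := by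
  simp only [dt6, DT.kv, sl6, sv6]
  ((try push_cast); ring1)
theorem kb_dt6 (x : ℝ) : dt6.kv (-16 / 125) x = (-5830157 / 20000000 + (x - 148977 / 200000) * (-91567 / 4000000)) := by
  simp only [dt6, DT.kv, sl6, sv6]
  ((try push_cast); ring1)
theorem ka_dt7 (x : ℝ) : dt7.kv (-16 / 125) x = (-5830157 / 20000000 + (x - 148977 / 200000) * (-91567 / 4000000)) := by
  simp only [dt7, DT.kv, sw7, sl7, sv7]
  ((try push_cast); ring1)
theorem kb_dt7 (x : ℝ) : dt7.kv (-1 / 16) x = (-25501 / 160000 + (x - 148977 / 200000) * (1037 / 8000)) := by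
  simp only [dt7, DT.kv, sw7, sl7, sv7]
  ((try push_cast); ring1)
theorem ka_dt19 (x : ℝ) : dt19.kv (-227 / 1000) x = (-8769071 / 20000000 + (x - 148977 / 200000) * (-2757043 / 4000000)) :=
  (DT.kv_le (by simp only [Cn.rt_v, Cn.ng_v]; norm_num)).trans (ka_dt6 x)
theorem kb_dt19 (x : ℝ) : dt19.kv (-1 / 16) x = (-25501 / 160000 + (x - 148977 / 200000) * (1037 / 8000)) :=
  (DT.kv_gt (by simp only [Cn.rt_v, Cn.ng_v]; norm_num)).trans (kb_dt7 x)
theorem ka_dt20 (x : ℝ) : dt20.kv (-83 / 250) x = (-916773 / 2000000 + (x - 148977 / 200000) * (-5491813 / 4000000)) :=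
  (DT.kv_le (by simp only [Cn.rt_v, Cn.ng_v]; norm_num)).trans (ka_dt18 x)
theorem kb_dt20 (x : ℝ) : dt20.kv (-1 / 16) x = (-25501 / 160000 + (x - 148977 / 200000) * (1037 / 8000)) :=
  (DT.kv_gt (by simp only [Cn.rt_v, Cn.ng_v]; norm_num)).trans (kb_dt19 x)
theorem ka_dt21 (x : ℝ) : dt21.kv (-1 / 2) x = (-19482531 / 40000000 + (x - 148977 / 200000) * (-8283049 / 4000000)) :=
  (DT.kv_le (by simp only [Cn.rt_v, Cn.ng_v]; norm_num)).trans (ka_dt17 x)
theorem kb_dt21 (x : ℝ) : dt21.kv (-1 / 16) x = (-25501 / 160000 + (x - 148977 / 200000) * (1037 / 8000)) :=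
  (DT.kv_gt (by simp only [Cn.rt_v, Cn.ng_v]; norm_num)).trans (kb_dt20 x)
theorem ka_dt8 (x : ℝ) : dt8.kv (-1 / 16) x = (-25501 / 160000 + (x - 148977 / 200000) * (1037 / 8000)) := by
  simp only [dt8, DT.kv, sl8, sv8]
  ((try push_cast); ring1)
theorem kb_dt8 (x : ℝ) : dt8.kv (1 / 16) x = (25501 / 160000 + (x - 148977 / 200000) * (-1037 / 8000)) := by
  simp only [dt8, DT.kv, sl8, sv8]
  ((try push_cast); ring1)
theorem ka_dt9 (x : ℝ) : dt9.kv (1 / 16) x = (25501 / 160000 + (x - 148977 / 200000) * (-1037 / 8000)) := by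
  simp only [dt9, DT.kv, sw9, sl9, sv9]
  ((try push_cast); ring1)
theorem kb_dt9 (x : ℝ) : dt9.kv (16 / 125) x = (5830157 / 20000000 + (x - 148977 / 200000) * (91567 / 4000000)) := by
  simp only [dt9, DT.kv, sw9, sl9, sv9]
  ((try push_cast); ring1)
theorem ka_dt22 (x : ℝ) : dt22.kv (-1 / 16) x = (-25501 / 160000 + (x - 148977 / 200000) * (1037 / 8000)) :=
  (DT.kv_le (by simp only [Cn.rt_v, Cn.ng_v]; norm_num)).trans (ka_dt8 x)
theorem kb_dt22 (x : ℝ) : dt22.kv (16 / 125) x = (5830157 / 20000000 + (x - 148977 / 200000) * (91567 / 4000000)) :=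
  (DT.kv_gt (by simp only [Cn.rt_v, Cn.ng_v]; norm_num)).trans (kb_dt9 x)
theorem ka_dt10 (x : ℝ) : dt10.kv (16 / 125) x = (5830157 / 20000000 + (x - 148977 / 200000) * (91567 / 4000000)) := by
  simp only [dt10, DT.kv, sl10, sv10]
  ((try push_cast); ring1)
theorem kb_dt10 (x : ℝ) : dt10.kv (227 / 1000) x = (8769071 / 20000000 + (x - 148977 / 200000) * (2757043 / 4000000)) := by
  simp only [dt10, DT.kv, sl10, sv10]
  ((try push_cast); ring1)
theorem ka_dt11 (x : ℝ) : dt11.kv (227 / 1000) x = (8769071 / 20000000 + (x - 148977 / 200000) * (2757043 / 4000000)) := by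
  simp only [dt11, DT.kv, sw11, sl11, sv11]
  ((try push_cast); ring1)
theorem kb_dt11 (x : ℝ) : dt11.kv (7 / 25) x = (950911 / 2000000 + (x - 148977 / 200000) * (4183909 / 4000000)) := by
  simp only [dt11, DT.kv, sw11, sl11, sv11]
  ((try push_cast); ring1)
theorem ka_dt23 (x : ℝ) : dt23.kv (16 / 125) x = (5830157 / 20000000 + (x - 148977 / 200000) * (91567 / 4000000)) :=
  (DT.kv_le (by simp only [Cn.rt_v, Cn.ng_v]; norm_num)).trans (ka_dt10 x)
theorem kb_dt23 (x : ℝ) : dt23.kv (7 / 25) x = (950911 / 2000000 + (x - 148977 / 200000) * (4183909 / 4000000)) :=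
  (DT.kv_gt (by simp only [Cn.rt_v, Cn.ng_v]; norm_num)).trans (kb_dt11 x)
theorem ka_dt24 (x : ℝ) : dt24.kv (-1 / 16) x = (-25501 / 160000 + (x - 148977 / 200000) * (1037 / 8000)) :=
  (DT.kv_le (by simp only [Cn.rt_v, Cn.ng_v]; norm_num)).trans (ka_dt22 x)
theorem kb_dt24 (x : ℝ) : dt24.kv (7 / 25) x = (950911 / 2000000 + (x - 148977 / 200000) * (4183909 / 4000000)) :=
  (DT.kv_gt (by simp only [Cn.rt_v, Cn.ng_v]; norm_num)).trans (kb_dt23 x)
theorem ka_dt12 (x : ℝ) : dt12.kv (7 / 25) x = (950911 / 2000000 + (x - 148977 / 200000) * (4183909 / 4000000)) := by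
  simp only [dt12, DT.kv, sw12, sl12, sv12]
  ((try push_cast); ring1)
theorem kb_dt12 (x : ℝ) : dt12.kv (83 / 250) x = (916773 / 2000000 + (x - 148977 / 200000) * (5491813 / 4000000)) := by
  simp only [dt12, DT.kv, sw12, sl12, sv12]
  ((try push_cast); ring1)
theorem ka_dt13 (x : ℝ) : dt13.kv (83 / 250) x = (916773 / 2000000 + (x - 148977 / 200000) * (5491813 / 4000000)) := by
  simp only [dt13, DT.kv, sw13, sl13, sv13]
  ((try push_cast); ring1)
theorem kb_dt13 (x : ℝ) : dt13.kv (77 / 200) x = (7548633 / 20000000 + (x - 148977 / 200000) * (6731059 / 4000000)) := by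
  simp only [dt13, DT.kv, sw13, sl13, sv13]
  ((try push_cast); ring1)
theorem ka_dt25 (x : ℝ) : dt25.kv (7 / 25) x = (950911 / 2000000 + (x - 148977 / 200000) * (4183909 / 4000000)) :=
  (DT.kv_le (by simp only [Cn.rt_v, Cn.ng_v]; norm_num)).trans (ka_dt12 x)
theorem kb_dt25 (x : ℝ) : dt25.kv (77 / 200) x = (7548633 / 20000000 + (x - 148977 / 200000) * (6731059 / 4000000)) :=
  (DT.kv_gt (by simp only [Cn.rt_v, Cn.ng_v]; norm_num)).trans (kb_dt13 x)
theorem ka_dt14 (x : ℝ) : dt14.kv (77 / 200) x = (7548633 / 20000000 + (x - 148977 / 200000) * (6731059 / 4000000)) := by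
  simp only [dt14, DT.kv, sw14, sl14, sv14]
  ((try push_cast); ring1)
theorem kb_dt14 (x : ℝ) : dt14.kv (7 / 16) x = (14555781 / 40000000 + (x - 148977 / 200000) * (7622299 / 4000000)) := by
  simp only [dt14, DT.kv, sw14, sl14, sv14]
  ((try push_cast); ring1)
theorem ka_dt15 (x : ℝ) : dt15.kv (7 / 16) x = (14555781 / 40000000 + (x - 148977 / 200000) * (7622299 / 4000000)) := by
  simp only [dt15, DT.kv, sl15, sv15]
  ((try push_cast); ring1)
theorem kb_dt15 (x : ℝ) : dt15.kv (1 / 2) x = (19482531 / 40000000 + (x - 148977 / 200000) * (8283049 / 4000000)) := by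
  simp only [dt15, DT.kv, sl15, sv15]
  ((try push_cast); ring1)
theorem ka_dt26 (x : ℝ) : dt26.kv (77 / 200) x = (7548633 / 20000000 + (x - 148977 / 200000) * (6731059 / 4000000)) :=
  (DT.kv_le (by simp only [Cn.rt_v, Cn.ng_v]; norm_num)).trans (ka_dt14 x)
theorem kb_dt26 (x : ℝ) : dt26.kv (1 / 2) x = (19482531 / 40000000 + (x - 148977 / 200000) * (8283049 / 4000000)) :=
  (DT.kv_gt (by simp only [Cn.rt_v, Cn.ng_v]; norm_num)).trans (kb_dt15 x)
theorem ka_dt27 (x : ℝ) : dt27.kv (7 / 25) x = (950911 / 2000000 + (x - 148977 / 200000) * (4183909 / 4000000)) :=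
  (DT.kv_le (by simp only [Cn.rt_v, Cn.ng_v]; norm_num)).trans (ka_dt25 x)
theorem kb_dt27 (x : ℝ) : dt27.kv (1 / 2) x = (19482531 / 40000000 + (x - 148977 / 200000) * (8283049 / 4000000)) :=
  (DT.kv_gt (by simp only [Cn.rt_v, Cn.ng_v]; norm_num)).trans (kb_dt26 x)
theorem ka_dt28 (x : ℝ) : dt28.kv (-1 / 16) x = (-25501 / 160000 + (x - 148977 / 200000) * (1037 / 8000)) :=
  (DT.kv_le (by simp only [Cn.rt_v, Cn.ng_v]; norm_num)).trans (ka_dt24 x)
theorem kb_dt28 (x : ℝ) : dt28.kv (1 / 2) x = (19482531 / 40000000 + (x - 148977 / 200000) * (8283049 / 4000000)) :=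
  (DT.kv_gt (by simp only [Cn.rt_v, Cn.ng_v]; norm_num)).trans (kb_dt27 x)
theorem ka_dt29 (x : ℝ) : dt29.kv (-1 / 2) x = (-19482531 / 40000000 + (x - 148977 / 200000) * (-8283049 / 4000000)) :=
  (DT.kv_le (by simp only [Cn.rt_v, Cn.ng_v]; norm_num)).trans (ka_dt21 x)
theorem kb_dt29 (x : ℝ) : dt29.kv (1 / 2) x = (19482531 / 40000000 + (x - 148977 / 200000) * (8283049 / 4000000)) :=
  (DT.kv_gt (by simp only [Cn.rt_v, Cn.ng_v]; norm_num)).trans (kb_dt28 x)
theorem ko_dt1 (x : ℝ) : dt1.KOk x := trivial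
theorem ko_dt2 (x : ℝ) : dt2.KOk x := trivial
theorem ko_dt3 (x : ℝ) : dt3.KOk x := trivial
theorem ko_dt16 (x : ℝ) : dt16.KOk x :=
  DT.kOk_node (v := -77 / 200) (by simp only [Cn.rt_v, Cn.ng_v]; norm_num) (kb_dt2 x) (ka_dt3 x) (by ring1) (ko_dt2 x) (ko_dt3 x)
theorem ko_dt17 (x : ℝ) : dt17.KOk x :=
  DT.kOk_node (v := -7 / 16) (by simp only [Cn.rt_v, Cn.ng_v]; norm_num) (kb_dt1 x) (ka_dt16 x) (by ring1) (ko_dt1 x) (ko_dt16 x)
theorem ko_dt4 (x : ℝ) : dt4.KOk x := trivial
theorem ko_dt5 (x : ℝ) : dt5.KOk x := trivial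
theorem ko_dt18 (x : ℝ) : dt18.KOk x :=
  DT.kOk_node (v := -7 / 25) (by simp only [Cn.rt_v, Cn.ng_v]; norm_num) (kb_dt4 x) (ka_dt5 x) (by ring1) (ko_dt4 x) (ko_dt5 x)
theorem ko_dt6 (x : ℝ) : dt6.KOk x := trivial
theorem ko_dt7 (x : ℝ) : dt7.KOk x := trivial
theorem ko_dt19 (x : ℝ) : dt19.KOk x :=
  DT.kOk_node (v := -16 / 125) (by simp only [Cn.rt_v, Cn.ng_v]; norm_num) (kb_dt6 x) (ka_dt7 x) (by ring1) (ko_dt6 x) (ko_dt7 x)
theorem ko_dt20 (x : ℝ) : dt20.KOk x :=
  DT.kOk_node (v := -227 / 1000) (by simp only [Cn.rt_v, Cn.ng_v]; norm_num) (kb_dt18 x) (ka_dt19 x) (by ring1) (ko_dt18 x) (ko_dt19 x)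
theorem ko_dt21 (x : ℝ) : dt21.KOk x :=
  DT.kOk_node (v := -83 / 250) (by simp only [Cn.rt_v, Cn.ng_v]; norm_num) (kb_dt17 x) (ka_dt20 x) (by ring1) (ko_dt17 x) (ko_dt20 x)
theorem ko_dt8 (x : ℝ) : dt8.KOk x := trivial
theorem ko_dt9 (x : ℝ) : dt9.KOk x := trivial
theorem ko_dt22 (x : ℝ) : dt22.KOk x :=
  DT.kOk_node (v := 1 / 16) (by simp only [Cn.rt_v, Cn.ng_v]; norm_num) (kb_dt8 x) (ka_dt9 x) (by ring1) (ko_dt8 x) (ko_dt9 x)
theorem ko_dt10 (x : ℝ) : dt10.KOk x := trivial
theorem ko_dt11 (x : ℝ) : dt11.KOk x := trivial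
theorem ko_dt23 (x : ℝ) : dt23.KOk x :=
  DT.kOk_node (v := 227 / 1000) (by simp only [Cn.rt_v, Cn.ng_v]; norm_num) (kb_dt10 x) (ka_dt11 x) (by ring1) (ko_dt10 x) (ko_dt11 x)
theorem ko_dt24 (x : ℝ) : dt24.KOk x :=
  DT.kOk_node (v := 16 / 125) (by simp only [Cn.rt_v, Cn.ng_v]; norm_num) (kb_dt22 x) (ka_dt23 x) (by ring1) (ko_dt22 x) (ko_dt23 x)
theorem ko_dt12 (x : ℝ) : dt12.KOk x := trivial
theorem ko_dt13 (x : ℝ) : dt13.KOk x := trivial
theorem ko_dt25 (x : ℝ) : dt25.KOk x :=
  DT.kOk_node (v := 83 / 250) (by simp only [Cn.rt_v, Cn.ng_v]; norm_num) (kb_dt12 x) (ka_dt13 x) (by ring1) (ko_dt12 x) (ko_dt13 x)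
theorem ko_dt14 (x : ℝ) : dt14.KOk x := trivial
theorem ko_dt15 (x : ℝ) : dt15.KOk x := trivial
theorem ko_dt26 (x : ℝ) : dt26.KOk x :=
  DT.kOk_node (v := 7 / 16) (by simp only [Cn.rt_v, Cn.ng_v]; norm_num) (kb_dt14 x) (ka_dt15 x) (by ring1) (ko_dt14 x) (ko_dt15 x)
theorem ko_dt27 (x : ℝ) : dt27.KOk x :=
  DT.kOk_node (v := 77 / 200) (by simp only [Cn.rt_v, Cn.ng_v]; norm_num) (kb_dt25 x) (ka_dt26 x) (by ring1) (ko_dt25 x) (ko_dt26 x)
theorem ko_dt28 (x : ℝ) : dt28.KOk x :=
  DT.kOk_node (v := 7 / 25) (by simp only [Cn.rt_v, Cn.ng_v]; norm_num) (kb_dt24 x) (ka_dt27 x) (by ring1) (ko_dt24 x) (ko_dt27 x)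
theorem ko_dt29 (x : ℝ) : dt29.KOk x :=
  DT.kOk_node (v := -1 / 16) (by simp only [Cn.rt_v, Cn.ng_v]; norm_num) (kb_dt21 x) (ka_dt28 x) (by ring1) (ko_dt21 x) (ko_dt28 x)
theorem txl0 {p c x : ℝ} (h1 : -1 / 2 ≤ p) (h2 : p ≤ -9 / 20) : txg.v p c x = dt62.val (fun p x => kcg.v p x) p c x := by
  symm
  refine (DT.val_le (by simp only [Cn.rt_v, Cn.ng_v]; push_cast; linarith)).trans ?_
  refine (DT.val_le (by simp only [Cn.rt_v, Cn.ng_v]; push_cast; linarith)).trans ?_
  refine (DT.val_le (by simp only [Cn.rt_v, Cn.ng_v]; push_cast; linarith)).trans ?_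
  refine (DT.val_le (by simp only [Cn.rt_v, Cn.ng_v]; push_cast; linarith)).trans ?_
  simp only [dt30, DT.val, cloR, sw30, sl30, sv30, txg, txg_4, txg_6, txg_26, txg_29, txg_32, txg_72, txg_94, txg_137, txg_140, txg_178, txg_198, txg_228, txg_251, txg_252, txg_253, txg_283, txg_322, txg_343]
  rcases eq_or_lt_of_le h1 with h | h1
  · subst h
    ((try push_cast); (repeat first | rw [if_pos (by linarith)] | rw [if_neg (by linarith)] | erw [if_pos (by linarith)] | erw [if_neg (by linarith)]); (try push_cast); (try ring1))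
  rcases eq_or_lt_of_le h2 with h | h2
  · subst h
    ((try push_cast); (repeat first | rw [if_pos (by linarith)] | rw [if_neg (by linarith)] | erw [if_pos (by linarith)] | erw [if_neg (by linarith)]); (try push_cast); (try ring1))
  · ((try push_cast); (repeat first | rw [if_pos (by linarith)] | rw [if_neg (by linarith)] | erw [if_pos (by linarith)] | erw [if_neg (by linarith)]); (try push_cast); (try ring1))
theorem txl1 {p c x : ℝ} (h1 : -9 / 20 < p) (h2 : p ≤ -2 / 5) : txg.v p c x = dt62.val (fun p x => kcg.v p x) p c x := by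
  symm
  refine (DT.val_le (by simp only [Cn.rt_v, Cn.ng_v]; push_cast; linarith)).trans ?_
  refine (DT.val_le (by simp only [Cn.rt_v, Cn.ng_v]; push_cast; linarith)).trans ?_
  refine (DT.val_le (by simp only [Cn.rt_v, Cn.ng_v]; push_cast; linarith)).trans ?_
  refine (DT.val_gt (by simp only [Cn.rt_v, Cn.ng_v]; push_cast; linarith)).trans ?_
  simp only [dt31, DT.val, cloR, sw31, sl31, sv31, txg, txg_4, txg_6, txg_26, txg_29, txg_32, txg_72, txg_94, txg_137, txg_140, txg_178, txg_198, txg_228, txg_251, txg_252, txg_253, txg_283, txg_322, txg_343]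
  rcases eq_or_lt_of_le h2 with h | h2
  · subst h
    ((try push_cast); (repeat first | rw [if_pos (by linarith)] | rw [if_neg (by linarith)] | erw [if_pos (by linarith)] | erw [if_neg (by linarith)]); (try push_cast); (try ring1))
  · ((try push_cast); (repeat first | rw [if_pos (by linarith)] | rw [if_neg (by linarith)] | erw [if_pos (by linarith)] | erw [if_neg (by linarith)]); (try push_cast); (try ring1))
theorem txl2 {p c x : ℝ} (h1 : -2 / 5 < p) (h2 : p ≤ -7 / 20) : txg.v p c x = dt62.val (fun p x => kcg.v p x) p c x := by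
  symm
  refine (DT.val_le (by simp only [Cn.rt_v, Cn.ng_v]; push_cast; linarith)).trans ?_
  refine (DT.val_le (by simp only [Cn.rt_v, Cn.ng_v]; push_cast; linarith)).trans ?_
  refine (DT.val_gt (by simp only [Cn.rt_v, Cn.ng_v]; push_cast; linarith)).trans ?_
  refine (DT.val_le (by simp only [Cn.rt_v, Cn.ng_v]; push_cast; linarith)).trans ?_
  simp only [dt32, DT.val, cloR, sw32, sl32, sv32, txg, txg_4, txg_6, txg_26, txg_29, txg_32, txg_72, txg_94, txg_137, txg_140, txg_178, txg_198, txg_228, txg_251, txg_252, txg_253, txg_283, txg_322, txg_343]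
  rcases eq_or_lt_of_le h2 with h | h2
  · subst h
    ((try push_cast); (repeat first | rw [if_pos (by linarith)] | rw [if_neg (by linarith)] | erw [if_pos (by linarith)] | erw [if_neg (by linarith)]); (try push_cast); (try ring1))
  · ((try push_cast); (repeat first | rw [if_pos (by linarith)] | rw [if_neg (by linarith)] | erw [if_pos (by linarith)] | erw [if_neg (by linarith)]); (try push_cast); (try ring1))
theorem txl3 {p c x : ℝ} (h1 : -7 / 20 < p) (h2 : p ≤ -3 / 10) : txg.v p c x = dt62.val (fun p x => kcg.v p x) p c x := by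
  symm
  refine (DT.val_le (by simp only [Cn.rt_v, Cn.ng_v]; push_cast; linarith)).trans ?_
  refine (DT.val_le (by simp only [Cn.rt_v, Cn.ng_v]; push_cast; linarith)).trans ?_
  refine (DT.val_gt (by simp only [Cn.rt_v, Cn.ng_v]; push_cast; linarith)).trans ?_
  refine (DT.val_gt (by simp only [Cn.rt_v, Cn.ng_v]; push_cast; linarith)).trans ?_
  simp only [dt33, DT.val, cloR, sw33, sl33, sv33, txg, txg_4, txg_6, txg_26, txg_29, txg_32, txg_72, txg_94, txg_137, txg_140, txg_178, txg_198, txg_228, txg_251, txg_252, txg_253, txg_283, txg_322, txg_343]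
  rcases eq_or_lt_of_le h2 with h | h2
  · subst h
    ((try push_cast); (repeat first | rw [if_pos (by linarith)] | rw [if_neg (by linarith)] | erw [if_pos (by linarith)] | erw [if_neg (by linarith)]); (try push_cast); (try ring1))
  · ((try push_cast); (repeat first | rw [if_pos (by linarith)] | rw [if_neg (by linarith)] | erw [if_pos (by linarith)] | erw [if_neg (by linarith)]); (try push_cast); (try ring1))
theorem txl4 {p c x : ℝ} (h1 : -3 / 10 < p) (h2 : p ≤ -1 / 4) : txg.v p c x = dt62.val (fun p x => kcg.v p x) p c x := by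
  symm
  refine (DT.val_le (by simp only [Cn.rt_v, Cn.ng_v]; push_cast; linarith)).trans ?_
  refine (DT.val_gt (by simp only [Cn.rt_v, Cn.ng_v]; push_cast; linarith)).trans ?_
  refine (DT.val_le (by simp only [Cn.rt_v, Cn.ng_v]; push_cast; linarith)).trans ?_
  refine (DT.val_le (by simp only [Cn.rt_v, Cn.ng_v]; push_cast; linarith)).trans ?_
  simp only [dt34, DT.val, cloR, sw34, sl34, sv34, txg, txg_4, txg_6, txg_26, txg_29, txg_32, txg_72, txg_94, txg_137, txg_140, txg_178, txg_198, txg_228, txg_251, txg_252, txg_253, txg_283, txg_322, txg_343]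
  rcases eq_or_lt_of_le h2 with h | h2
  · subst h
    ((try push_cast); (repeat first | rw [if_pos (by linarith)] | rw [if_neg (by linarith)] | erw [if_pos (by linarith)] | erw [if_neg (by linarith)]); (try push_cast); (try ring1))
  · ((try push_cast); (repeat first | rw [if_pos (by linarith)] | rw [if_neg (by linarith)] | erw [if_pos (by linarith)] | erw [if_neg (by linarith)]); (try push_cast); (try ring1))
theorem txl5 {p c x : ℝ} (h1 : -1 / 4 < p) (h2 : p ≤ -1 / 5) : txg.v p c x = dt62.val (fun p x => kcg.v p x) p c x := by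
  symm
  refine (DT.val_le (by simp only [Cn.rt_v, Cn.ng_v]; push_cast; linarith)).trans ?_
  refine (DT.val_gt (by simp only [Cn.rt_v, Cn.ng_v]; push_cast; linarith)).trans ?_
  refine (DT.val_le (by simp only [Cn.rt_v, Cn.ng_v]; push_cast; linarith)).trans ?_
  refine (DT.val_gt (by simp only [Cn.rt_v, Cn.ng_v]; push_cast; linarith)).trans ?_
  simp only [dt35, DT.val, cloR, sw35, sl35, sv35, txg, txg_4, txg_6, txg_26, txg_29, txg_32, txg_72, txg_94, txg_137, txg_140, txg_178, txg_198, txg_228, txg_251, txg_252, txg_253, txg_283, txg_322, txg_343]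
  rcases eq_or_lt_of_le h2 with h | h2
  · subst h
    ((try push_cast); (repeat first | rw [if_pos (by linarith)] | rw [if_neg (by linarith)] | erw [if_pos (by linarith)] | erw [if_neg (by linarith)]); (try push_cast); (try ring1))
  · ((try push_cast); (repeat first | rw [if_pos (by linarith)] | rw [if_neg (by linarith)] | erw [if_pos (by linarith)] | erw [if_neg (by linarith)]); (try push_cast); (try ring1))
theorem txl6 {p c x : ℝ} (h1 : -1 / 5 < p) (h2 : p ≤ -3 / 20) : txg.v p c x = dt62.val (fun p x => kcg.v p x) p c x := by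
  symm
  refine (DT.val_le (by simp only [Cn.rt_v, Cn.ng_v]; push_cast; linarith)).trans ?_
  refine (DT.val_gt (by simp only [Cn.rt_v, Cn.ng_v]; push_cast; linarith)).trans ?_
  refine (DT.val_gt (by simp only [Cn.rt_v, Cn.ng_v]; push_cast; linarith)).trans ?_
  refine (DT.val_le (by simp only [Cn.rt_v, Cn.ng_v]; push_cast; linarith)).trans ?_
  simp only [dt36, DT.val, cloR, sw36, sl36, sv36, txg, txg_4, txg_6, txg_26, txg_29, txg_32, txg_72, txg_94, txg_137, txg_140, txg_178, txg_198, txg_228, txg_251, txg_252, txg_253, txg_283, txg_322, txg_343]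
  rcases eq_or_lt_of_le h2 with h | h2
  · subst h
    ((try push_cast); (repeat first | rw [if_pos (by linarith)] | rw [if_neg (by linarith)] | erw [if_pos (by linarith)] | erw [if_neg (by linarith)]); (try push_cast); (try ring1))
  · ((try push_cast); (repeat first | rw [if_pos (by linarith)] | rw [if_neg (by linarith)] | erw [if_pos (by linarith)] | erw [if_neg (by linarith)]); (try push_cast); (try ring1))
theorem txl7 {p c x : ℝ} (h1 : -3 / 20 < p) (h2 : p ≤ -1 / 10) : txg.v p c x = dt62.val (fun p x => kcg.v p x) p c x := by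
  symm
  refine (DT.val_le (by simp only [Cn.rt_v, Cn.ng_v]; push_cast; linarith)).trans ?_
  refine (DT.val_gt (by simp only [Cn.rt_v, Cn.ng_v]; push_cast; linarith)).trans ?_
  refine (DT.val_gt (by simp only [Cn.rt_v, Cn.ng_v]; push_cast; linarith)).trans ?_
  refine (DT.val_gt (by simp only [Cn.rt_v, Cn.ng_v]; push_cast; linarith)).trans ?_
  simp only [dt37, DT.val, cloR, sw37, sl37, sv37, txg, txg_4, txg_6, txg_26, txg_29, txg_32, txg_72, txg_94, txg_137, txg_140, txg_178, txg_198, txg_228, txg_251, txg_252, txg_253, txg_283, txg_322, txg_343]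
  rcases eq_or_lt_of_le h2 with h | h2
  · subst h
    ((try push_cast); (repeat first | rw [if_pos (by linarith)] | rw [if_neg (by linarith)] | erw [if_pos (by linarith)] | erw [if_neg (by linarith)]); (try push_cast); (try ring1))
  · ((try push_cast); (repeat first | rw [if_pos (by linarith)] | rw [if_neg (by linarith)] | erw [if_pos (by linarith)] | erw [if_neg (by linarith)]); (try push_cast); (try ring1))
theorem txl8 {p c x : ℝ} (h1 : -1 / 10 < p) (h2 : p ≤ 1 / 10) : txg.v p c x = dt62.val (fun p x => kcg.v p x) p c x := by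
  symm
  refine (DT.val_gt (by simp only [Cn.rt_v, Cn.ng_v]; push_cast; linarith)).trans ?_
  refine (DT.val_le (by simp only [Cn.rt_v, Cn.ng_v]; push_cast; linarith)).trans ?_
  refine (DT.val_le (by simp only [Cn.rt_v, Cn.ng_v]; push_cast; linarith)).trans ?_
  refine (DT.val_le (by simp only [Cn.rt_v, Cn.ng_v]; push_cast; linarith)).trans ?_
  simp only [dt38, DT.val, cloR, sw38, sl38, sv38, txg, txg_4, txg_6, txg_26, txg_29, txg_32, txg_72, txg_94, txg_137, txg_140, txg_178, txg_198, txg_228, txg_251, txg_252, txg_253, txg_283, txg_322, txg_343]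
  rcases eq_or_lt_of_le h2 with h | h2
  · subst h
    ((try push_cast); (repeat first | rw [if_pos (by linarith)] | rw [if_neg (by linarith)] | erw [if_pos (by linarith)] | erw [if_neg (by linarith)]); (try push_cast); (try ring1))
  · ((try push_cast); (repeat first | rw [if_pos (by linarith)] | rw [if_neg (by linarith)] | erw [if_pos (by linarith)] | erw [if_neg (by linarith)]); (try push_cast); (try ring1))
theorem txl9 {p c x : ℝ} (h1 : 1 / 10 < p) (h2 : p ≤ 181 / 1406) : txg.v p c x = dt62.val (fun p x => kcg.v p x) p c x := by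
  symm
  refine (DT.val_gt (by simp only [Cn.rt_v, Cn.ng_v]; push_cast; linarith)).trans ?_
  refine (DT.val_le (by simp only [Cn.rt_v, Cn.ng_v]; push_cast; linarith)).trans ?_
  refine (DT.val_le (by simp only [Cn.rt_v, Cn.ng_v]; push_cast; linarith)).trans ?_
  refine (DT.val_gt (by simp only [Cn.rt_v, Cn.ng_v]; push_cast; linarith)).trans ?_
  simp only [dt39, DT.val, cloR, sw39, sw39_2, sl39, sl39_2, sv39, sv39_2, txg, txg_4, txg_6, txg_26, txg_29, txg_32, txg_72, txg_94, txg_137, txg_140, txg_178, txg_198, txg_228, txg_251, txg_252, txg_253, txg_283, txg_322, txg_343]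
  rcases eq_or_lt_of_le h2 with h | h2
  · subst h
    ((try push_cast); (repeat first | rw [if_pos (by linarith)] | rw [if_neg (by linarith)] | erw [if_pos (by linarith)] | erw [if_neg (by linarith)]); (try push_cast); (try ring1))
  · ((try push_cast); (repeat first | rw [if_pos (by linarith)] | rw [if_neg (by linarith)] | erw [if_pos (by linarith)] | erw [if_neg (by linarith)]); (try push_cast); (try ring1))
theorem txl10 {p c x : ℝ} (h1 : 181 / 1406 < p) (h2 : p ≤ 71 / 313) : txg.v p c x = dt62.val (fun p x => kcg.v p x) p c x := by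
  symm
  refine (DT.val_gt (by simp only [Cn.rt_v, Cn.ng_v]; push_cast; linarith)).trans ?_
  refine (DT.val_le (by simp only [Cn.rt_v, Cn.ng_v]; push_cast; linarith)).trans ?_
  refine (DT.val_gt (by simp only [Cn.rt_v, Cn.ng_v]; push_cast; linarith)).trans ?_
  refine (DT.val_le (by simp only [Cn.rt_v, Cn.ng_v]; push_cast; linarith)).trans ?_
  simp only [dt40, DT.val, cloR, txg, txg_4, txg_6, txg_26, txg_29, txg_32, txg_72, txg_94, txg_137, txg_140, txg_178, txg_198, txg_228, txg_251, txg_252, txg_253, txg_283, txg_322, txg_343]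
  rcases eq_or_lt_of_le h2 with h | h2
  · subst h
    ((try push_cast); (repeat first | rw [if_pos (by linarith)] | rw [if_neg (by linarith)] | erw [if_pos (by linarith)] | erw [if_neg (by linarith)]); (try push_cast); (try ring1))
  · ((try push_cast); (repeat first | rw [if_pos (by linarith)] | rw [if_neg (by linarith)] | erw [if_pos (by linarith)] | erw [if_neg (by linarith)]); (try push_cast); (try ring1))
theorem txl11 {p c x : ℝ} (h1 : 71 / 313 < p) (h2 : p ≤ 1 / 4) : txg.v p c x = dt62.val (fun p x => kcg.v p x) p c x := by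
  symm
  refine (DT.val_gt (by simp only [Cn.rt_v, Cn.ng_v]; push_cast; linarith)).trans ?_
  refine (DT.val_le (by simp only [Cn.rt_v, Cn.ng_v]; push_cast; linarith)).trans ?_
  refine (DT.val_gt (by simp only [Cn.rt_v, Cn.ng_v]; push_cast; linarith)).trans ?_
  refine (DT.val_gt (by simp only [Cn.rt_v, Cn.ng_v]; push_cast; linarith)).trans ?_
  simp only [dt41, DT.val, cloR, sw41, sw41_2, sl41, sl41_2, sv41, sv41_2, txg, txg_4, txg_6, txg_26, txg_29, txg_32, txg_72, txg_94, txg_137, txg_140, txg_178, txg_198, txg_228, txg_251, txg_252, txg_253, txg_283, txg_322, txg_343]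
  rcases eq_or_lt_of_le h2 with h | h2
  · subst h
    ((try push_cast); (repeat first | rw [if_pos (by linarith)] | rw [if_neg (by linarith)] | erw [if_pos (by linarith)] | erw [if_neg (by linarith)]); (try push_cast); (try ring1))
  · ((try push_cast); (repeat first | rw [if_pos (by linarith)] | rw [if_neg (by linarith)] | erw [if_pos (by linarith)] | erw [if_neg (by linarith)]); (try push_cast); (try ring1))
theorem txl12 {p c x : ℝ} (h1 : 1 / 4 < p) (h2 : p ≤ 3 / 10) : txg.v p c x = dt62.val (fun p x => kcg.v p x) p c x := by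
  symm
  refine (DT.val_gt (by simp only [Cn.rt_v, Cn.ng_v]; push_cast; linarith)).trans ?_
  refine (DT.val_gt (by simp only [Cn.rt_v, Cn.ng_v]; push_cast; linarith)).trans ?_
  refine (DT.val_le (by simp only [Cn.rt_v, Cn.ng_v]; push_cast; linarith)).trans ?_
  refine (DT.val_le (by simp only [Cn.rt_v, Cn.ng_v]; push_cast; linarith)).trans ?_
  simp only [dt42, DT.val, cloR, sw42, sl42, sv42, txg, txg_4, txg_6, txg_26, txg_29, txg_32, txg_72, txg_94, txg_137, txg_140, txg_178, txg_198, txg_228, txg_251, txg_252, txg_253, txg_283, txg_322, txg_343]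
  rcases eq_or_lt_of_le h2 with h | h2
  · subst h
    ((try push_cast); (repeat first | rw [if_pos (by linarith)] | rw [if_neg (by linarith)] | erw [if_pos (by linarith)] | erw [if_neg (by linarith)]); (try push_cast); (try ring1))
  · ((try push_cast); (repeat first | rw [if_pos (by linarith)] | rw [if_neg (by linarith)] | erw [if_pos (by linarith)] | erw [if_neg (by linarith)]); (try push_cast); (try ring1))
theorem txl13 {p c x : ℝ} (h1 : 3 / 10 < p) (h2 : p ≤ 7 / 20) : txg.v p c x = dt62.val (fun p x => kcg.v p x) p c x := by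
  symm
  refine (DT.val_gt (by simp only [Cn.rt_v, Cn.ng_v]; push_cast; linarith)).trans ?_
  refine (DT.val_gt (by simp only [Cn.rt_v, Cn.ng_v]; push_cast; linarith)).trans ?_
  refine (DT.val_le (by simp only [Cn.rt_v, Cn.ng_v]; push_cast; linarith)).trans ?_
  refine (DT.val_gt (by simp only [Cn.rt_v, Cn.ng_v]; push_cast; linarith)).trans ?_
  simp only [dt43, DT.val, cloR, sw43, sl43, sv43, txg, txg_4, txg_6, txg_26, txg_29, txg_32, txg_72, txg_94, txg_137, txg_140, txg_178, txg_198, txg_228, txg_251, txg_252, txg_253, txg_283, txg_322, txg_343]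
  rcases eq_or_lt_of_le h2 with h | h2
  · subst h
    ((try push_cast); (repeat first | rw [if_pos (by linarith)] | rw [if_neg (by linarith)] | erw [if_pos (by linarith)] | erw [if_neg (by linarith)]); (try push_cast); (try ring1))
  · ((try push_cast); (repeat first | rw [if_pos (by linarith)] | rw [if_neg (by linarith)] | erw [if_pos (by linarith)] | erw [if_neg (by linarith)]); (try push_cast); (try ring1))
theorem txl14 {p c x : ℝ} (h1 : 7 / 20 < p) (h2 : p ≤ 2 / 5) : txg.v p c x = dt62.val (fun p x => kcg.v p x) p c x := by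
  symm
  refine (DT.val_gt (by simp only [Cn.rt_v, Cn.ng_v]; push_cast; linarith)).trans ?_
  refine (DT.val_gt (by simp only [Cn.rt_v, Cn.ng_v]; push_cast; linarith)).trans ?_
  refine (DT.val_gt (by simp only [Cn.rt_v, Cn.ng_v]; push_cast; linarith)).trans ?_
  refine (DT.val_le (by simp only [Cn.rt_v, Cn.ng_v]; push_cast; linarith)).trans ?_
  simp only [dt44, DT.val, cloR, sw44, sl44, sv44, txg, txg_4, txg_6, txg_26, txg_29, txg_32, txg_72, txg_94, txg_137, txg_140, txg_178, txg_198, txg_228, txg_251, txg_252, txg_253, txg_283, txg_322, txg_343]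
  rcases eq_or_lt_of_le h2 with h | h2
  · subst h
    ((try push_cast); (repeat first | rw [if_pos (by linarith)] | rw [if_neg (by linarith)] | erw [if_pos (by linarith)] | erw [if_neg (by linarith)]); (try push_cast); (try ring1))
  · ((try push_cast); (repeat first | rw [if_pos (by linarith)] | rw [if_neg (by linarith)] | erw [if_pos (by linarith)] | erw [if_neg (by linarith)]); (try push_cast); (try ring1))
theorem txl15 {p c x : ℝ} (h1 : 2 / 5 < p) (h2 : p ≤ 9 / 20) : txg.v p c x = dt62.val (fun p x => kcg.v p x) p c x := by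
  symm
  refine (DT.val_gt (by simp only [Cn.rt_v, Cn.ng_v]; push_cast; linarith)).trans ?_
  refine (DT.val_gt (by simp only [Cn.rt_v, Cn.ng_v]; push_cast; linarith)).trans ?_
  refine (DT.val_gt (by simp only [Cn.rt_v, Cn.ng_v]; push_cast; linarith)).trans ?_
  refine (DT.val_gt (by simp only [Cn.rt_v, Cn.ng_v]; push_cast; linarith)).trans ?_
  refine (DT.val_le (by simp only [Cn.rt_v, Cn.ng_v]; push_cast; linarith)).trans ?_
  simp only [dt45, DT.val, cloR, sw45, sl45, sv45, txg, txg_4, txg_6, txg_26, txg_29, txg_32, txg_72, txg_94, txg_137, txg_140, txg_178, txg_198, txg_228, txg_251, txg_252, txg_253, txg_283, txg_322, txg_343]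
  rcases eq_or_lt_of_le h2 with h | h2
  · subst h
    ((try push_cast); (repeat first | rw [if_pos (by linarith)] | rw [if_neg (by linarith)] | erw [if_pos (by linarith)] | erw [if_neg (by linarith)]); (try push_cast); (try ring1))
  · ((try push_cast); (repeat first | rw [if_pos (by linarith)] | rw [if_neg (by linarith)] | erw [if_pos (by linarith)] | erw [if_neg (by linarith)]); (try push_cast); (try ring1))
theorem txl16 {p c x : ℝ} (h1 : 9 / 20 < p) (h2 : p ≤ 1 / 2) : txg.v p c x = dt62.val (fun p x => kcg.v p x) p c x := by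
  symm
  refine (DT.val_gt (by simp only [Cn.rt_v, Cn.ng_v]; push_cast; linarith)).trans ?_
  refine (DT.val_gt (by simp only [Cn.rt_v, Cn.ng_v]; push_cast; linarith)).trans ?_
  refine (DT.val_gt (by simp only [Cn.rt_v, Cn.ng_v]; push_cast; linarith)).trans ?_
  refine (DT.val_gt (by simp only [Cn.rt_v, Cn.ng_v]; push_cast; linarith)).trans ?_
  refine (DT.val_gt (by simp only [Cn.rt_v, Cn.ng_v]; push_cast; linarith)).trans ?_
  simp only [dt46, DT.val, cloR, sw46, sl46, sv46, txg, txg_4, txg_6, txg_26, txg_29, txg_32, txg_72, txg_94, txg_137, txg_140, txg_178, txg_198, txg_228, txg_251, txg_252, txg_253, txg_283, txg_322, txg_343]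
  rcases eq_or_lt_of_le h2 with h | h2
  · subst h
    ((try push_cast); (repeat first | rw [if_pos (by linarith)] | rw [if_neg (by linarith)] | erw [if_pos (by linarith)] | erw [if_neg (by linarith)]); (try push_cast); (try ring1))
  · ((try push_cast); (repeat first | rw [if_pos (by linarith)] | rw [if_neg (by linarith)] | erw [if_pos (by linarith)] | erw [if_neg (by linarith)]); (try push_cast); (try ring1))
theorem txe {x : ℝ} (p c : ℝ) (h : |p| ≤ 1 / 2) : txg.v p c x = dt62.val (fun p x => kcg.v p x) p c x := by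
  obtain ⟨h1, h2⟩ := abs_le.1 h
  rcases le_or_gt p (-9 / 20) with g0 | g1000
  · exact txl0 (by linarith) g0
  rcases le_or_gt p (-2 / 5) with g1 | g1001
  · exact txl1 g1000 g1
  rcases le_or_gt p (-7 / 20) with g2 | g1002
  · exact txl2 g1001 g2
  rcases le_or_gt p (-3 / 10) with g3 | g1003
  · exact txl3 g1002 g3
  rcases le_or_gt p (-1 / 4) with g4 | g1004
  · exact txl4 g1003 g4
  rcases le_or_gt p (-1 / 5) with g5 | g1005
  · exact txl5 g1004 g5
  rcases le_or_gt p (-3 / 20) with g6 | g1006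
  · exact txl6 g1005 g6
  rcases le_or_gt p (-1 / 10) with g7 | g1007
  · exact txl7 g1006 g7
  rcases le_or_gt p (1 / 10) with g8 | g1008
  · exact txl8 g1007 g8
  rcases le_or_gt p (181 / 1406) with g9 | g1009
  · exact txl9 g1008 g9
  rcases le_or_gt p (71 / 313) with g10 | g1010
  · exact txl10 g1009 g10
  rcases le_or_gt p (1 / 4) with g11 | g1011
  · exact txl11 g1010 g11
  rcases le_or_gt p (3 / 10) with g12 | g1012
  · exact txl12 g1011 g12
  rcases le_or_gt p (7 / 20) with g13 | g1013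
  · exact txl13 g1012 g13
  rcases le_or_gt p (2 / 5) with g14 | g1014
  · exact txl14 g1013 g14
  rcases le_or_gt p (9 / 20) with g15 | g1015
  · exact txl15 g1014 g15
  · exact txl16 g1015 (by linarith)
theorem ta_dt30 (x : ℝ) : dt30.val (fun p x => kcg.v p x) (-1 / 2) (cT (-1 / 2)) x = (0) := by
  simp only [dt30, DT.val, sw30, sl30, sv30]
  ((try push_cast); ring1)
theorem tb_dt30 (x : ℝ) : dt30.val (fun p x => kcg.v p x) (-9 / 20) (cT (-9 / 20)) x = (12399 / 1250000 + (x - 148977 / 200000) * (23593 / 500000)) := by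
  simp only [dt30, DT.val, sw30, sl30, sv30]
  ((try push_cast); ring1)
theorem ta_dt31 (x : ℝ) : dt31.val (fun p x => kcg.v p x) (-9 / 20) (cT (-9 / 20)) x = (12399 / 1250000 + (x - 148977 / 200000) * (23593 / 500000)) := by
  simp only [dt31, DT.val, sw31, sl31, sv31]
  ((try push_cast); ring1)
theorem tb_dt31 (x : ℝ) : dt31.val (fun p x => kcg.v p x) (-2 / 5) (cT (-2 / 5)) x = (212489 / 10000000 + (x - 148977 / 200000) * (24159 / 500000)) := by
  simp only [dt31, DT.val, sw31, sl31, sv31]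
  ((try push_cast); ring1)
theorem ta_dt47 (x : ℝ) : dt47.val (fun p x => kcg.v p x) (-1 / 2) (cT (-1 / 2)) x = (0) :=
  (DT.val_le (by simp only [Cn.rt_v, Cn.ng_v]; norm_num)).trans (ta_dt30 x)
theorem tb_dt47 (x : ℝ) : dt47.val (fun p x => kcg.v p x) (-2 / 5) (cT (-2 / 5)) x = (212489 / 10000000 + (x - 148977 / 200000) * (24159 / 500000)) :=
  (DT.val_gt (by simp only [Cn.rt_v, Cn.ng_v]; norm_num)).trans (tb_dt31 x)
theorem ta_dt32 (x : ℝ) : dt32.val (fun p x => kcg.v p x) (-2 / 5) (cT (-2 / 5)) x = (212489 / 10000000 + (x - 148977 / 200000) * (24159 / 500000)) := by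
  simp only [dt32, DT.val, sw32, sl32, sv32]
  ((try push_cast); ring1)
theorem tb_dt32 (x : ℝ) : dt32.val (fun p x => kcg.v p x) (-7 / 20) (cT (-7 / 20)) x = (38323 / 1250000 + (x - 148977 / 200000) * (19753 / 250000)) := by
  simp only [dt32, DT.val, sw32, sl32, sv32]
  ((try push_cast); ring1)
theorem ta_dt33 (x : ℝ) : dt33.val (fun p x => kcg.v p x) (-7 / 20) (cT (-7 / 20)) x = (38323 / 1250000 + (x - 148977 / 200000) * (19753 / 250000)) := by
  simp only [dt33, DT.val, sw33, sl33, sv33]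
  ((try push_cast); ring1)
theorem tb_dt33 (x : ℝ) : dt33.val (fun p x => kcg.v p x) (-3 / 10) (cT (-3 / 10)) x = (420439 / 10000000 + (x - 148977 / 200000) * (45329 / 500000)) := by
  simp only [dt33, DT.val, sw33, sl33, sv33]
  ((try push_cast); ring1)
theorem ta_dt48 (x : ℝ) : dt48.val (fun p x => kcg.v p x) (-2 / 5) (cT (-2 / 5)) x = (212489 / 10000000 + (x - 148977 / 200000) * (24159 / 500000)) :=
  (DT.val_le (by simp only [Cn.rt_v, Cn.ng_v]; norm_num)).trans (ta_dt32 x)
theorem tb_dt48 (x : ℝ) : dt48.val (fun p x => kcg.v p x) (-3 / 10) (cT (-3 / 10)) x = (420439 / 10000000 + (x - 148977 / 200000) * (45329 / 500000)) :=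
  (DT.val_gt (by simp only [Cn.rt_v, Cn.ng_v]; norm_num)).trans (tb_dt33 x)
theorem ta_dt49 (x : ℝ) : dt49.val (fun p x => kcg.v p x) (-1 / 2) (cT (-1 / 2)) x = (0) :=
  (DT.val_le (by simp only [Cn.rt_v, Cn.ng_v]; norm_num)).trans (ta_dt47 x)
theorem tb_dt49 (x : ℝ) : dt49.val (fun p x => kcg.v p x) (-3 / 10) (cT (-3 / 10)) x = (420439 / 10000000 + (x - 148977 / 200000) * (45329 / 500000)) :=
  (DT.val_gt (by simp only [Cn.rt_v, Cn.ng_v]; norm_num)).trans (tb_dt48 x)
theorem ta_dt34 (x : ℝ) : dt34.val (fun p x => kcg.v p x) (-3 / 10) (cT (-3 / 10)) x = (420439 / 10000000 + (x - 148977 / 200000) * (45329 / 500000)) := by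
  simp only [dt34, DT.val, sw34, sl34, sv34]
  ((try push_cast); ring1)
theorem tb_dt34 (x : ℝ) : dt34.val (fun p x => kcg.v p x) (-1 / 4) (cT (-1 / 4)) x = (566659 / 10000000 + (x - 148977 / 200000) * (1943 / 25000)) := by
  simp only [dt34, DT.val, sw34, sl34, sv34]
  ((try push_cast); ring1)
theorem ta_dt35 (x : ℝ) : dt35.val (fun p x => kcg.v p x) (-1 / 4) (cT (-1 / 4)) x = (566659 / 10000000 + (x - 148977 / 200000) * (1943 / 25000)) := by
  simp only [dt35, DT.val, sw35, sl35, sv35]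
  ((try push_cast); ring1)
theorem tb_dt35 (x : ℝ) : dt35.val (fun p x => kcg.v p x) (-1 / 5) (cT (-1 / 5)) x = (182353 / 2500000 + (x - 148977 / 200000) * (98451 / 1000000)) := by
  simp only [dt35, DT.val, sw35, sl35, sv35]
  ((try push_cast); ring1)
theorem ta_dt50 (x : ℝ) : dt50.val (fun p x => kcg.v p x) (-3 / 10) (cT (-3 / 10)) x = (420439 / 10000000 + (x - 148977 / 200000) * (45329 / 500000)) :=
  (DT.val_le (by simp only [Cn.rt_v, Cn.ng_v]; norm_num)).trans (ta_dt34 x)
theorem tb_dt50 (x : ℝ) : dt50.val (fun p x => kcg.v p x) (-1 / 5) (cT (-1 / 5)) x = (182353 / 2500000 + (x - 148977 / 200000) * (98451 / 1000000)) :=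
  (DT.val_gt (by simp only [Cn.rt_v, Cn.ng_v]; norm_num)).trans (tb_dt35 x)
theorem ta_dt36 (x : ℝ) : dt36.val (fun p x => kcg.v p x) (-1 / 5) (cT (-1 / 5)) x = (182353 / 2500000 + (x - 148977 / 200000) * (98451 / 1000000)) := by
  simp only [dt36, DT.val, sw36, sl36, sv36]
  ((try push_cast); ring1)
theorem tb_dt36 (x : ℝ) : dt36.val (fun p x => kcg.v p x) (-3 / 20) (cT (-3 / 20)) x = (85967 / 1000000 + (x - 148977 / 200000) * (83591 / 1000000)) := by
  simp only [dt36, DT.val, sw36, sl36, sv36]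
  ((try push_cast); ring1)
theorem ta_dt37 (x : ℝ) : dt37.val (fun p x => kcg.v p x) (-3 / 20) (cT (-3 / 20)) x = (85967 / 1000000 + (x - 148977 / 200000) * (83591 / 1000000)) := by
  simp only [dt37, DT.val, sw37, sl37, sv37]
  ((try push_cast); ring1)
theorem tb_dt37 (x : ℝ) : dt37.val (fun p x => kcg.v p x) (-1 / 10) (cT (-1 / 10)) x = (194139 / 2000000 + (x - 148977 / 200000) * (91267 / 1000000)) := by
  simp only [dt37, DT.val, sw37, sl37, sv37]
  ((try push_cast); ring1)
theorem ta_dt51 (x : ℝ) : dt51.val (fun p x => kcg.v p x) (-1 / 5) (cT (-1 / 5)) x = (182353 / 2500000 + (x - 148977 / 200000) * (98451 / 1000000)) :=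
  (DT.val_le (by simp only [Cn.rt_v, Cn.ng_v]; norm_num)).trans (ta_dt36 x)
theorem tb_dt51 (x : ℝ) : dt51.val (fun p x => kcg.v p x) (-1 / 10) (cT (-1 / 10)) x = (194139 / 2000000 + (x - 148977 / 200000) * (91267 / 1000000)) :=
  (DT.val_gt (by simp only [Cn.rt_v, Cn.ng_v]; norm_num)).trans (tb_dt37 x)
theorem ta_dt52 (x : ℝ) : dt52.val (fun p x => kcg.v p x) (-3 / 10) (cT (-3 / 10)) x = (420439 / 10000000 + (x - 148977 / 200000) * (45329 / 500000)) :=
  (DT.val_le (by simp only [Cn.rt_v, Cn.ng_v]; norm_num)).trans (ta_dt50 x)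
theorem tb_dt52 (x : ℝ) : dt52.val (fun p x => kcg.v p x) (-1 / 10) (cT (-1 / 10)) x = (194139 / 2000000 + (x - 148977 / 200000) * (91267 / 1000000)) :=
  (DT.val_gt (by simp only [Cn.rt_v, Cn.ng_v]; norm_num)).trans (tb_dt51 x)
theorem ta_dt53 (x : ℝ) : dt53.val (fun p x => kcg.v p x) (-1 / 2) (cT (-1 / 2)) x = (0) :=
  (DT.val_le (by simp only [Cn.rt_v, Cn.ng_v]; norm_num)).trans (ta_dt49 x)
theorem tb_dt53 (x : ℝ) : dt53.val (fun p x => kcg.v p x) (-1 / 10) (cT (-1 / 10)) x = (194139 / 2000000 + (x - 148977 / 200000) * (91267 / 1000000)) :=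
  (DT.val_gt (by simp only [Cn.rt_v, Cn.ng_v]; norm_num)).trans (tb_dt52 x)
theorem ta_dt38 (x : ℝ) : dt38.val (fun p x => kcg.v p x) (-1 / 10) (cT (-1 / 10)) x = (194139 / 2000000 + (x - 148977 / 200000) * (91267 / 1000000)) := by
  simp only [dt38, DT.val, sw38, sl38, sv38]
  ((try push_cast); ring1)
theorem tb_dt38 (x : ℝ) : dt38.val (fun p x => kcg.v p x) (1 / 10) (cT (1 / 10)) x = (247769 / 2000000 + (x - 148977 / 200000) * (24159 / 250000)) := by
  simp only [dt38, DT.val, sw38, sl38, sv38]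
  ((try push_cast); ring1)
theorem ta_dt39 (x : ℝ) : dt39.val (fun p x => kcg.v p x) (1 / 10) (cT (1 / 10)) x = (247769 / 2000000 + (x - 148977 / 200000) * (24159 / 250000)) := by
  simp only [dt39, DT.val, sw39, sw39_2, sl39, sl39_2, sv39, sv39_2]
  ((try push_cast); ring1)
theorem tb_dt39 (x : ℝ) : dt39.val (fun p x => kcg.v p x) (181 / 1406) (1117 / 1406) x = (43341877644796074207 / 347428927000000000000 + (x - 148977 / 200000) * (1184864738281018137 / 13897157080000000000) + (x - 148977 / 200000) ^ 2 * (798296727 / 98841800000)) := by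
  simp only [dt39, DT.val, sw39, sw39_2, sl39, sl39_2, sv39, sv39_2]
  ((try push_cast); ring1)
theorem ta_dt54 (x : ℝ) : dt54.val (fun p x => kcg.v p x) (-1 / 10) (cT (-1 / 10)) x = (194139 / 2000000 + (x - 148977 / 200000) * (91267 / 1000000)) :=
  (DT.val_le (by simp only [Cn.rt_v, Cn.ng_v]; norm_num)).trans (ta_dt38 x)
theorem tb_dt54 (x : ℝ) : dt54.val (fun p x => kcg.v p x) (181 / 1406) (1117 / 1406) x = (43341877644796074207 / 347428927000000000000 + (x - 148977 / 200000) * (1184864738281018137 / 13897157080000000000) + (x - 148977 / 200000) ^ 2 * (798296727 / 98841800000)) :=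
  (DT.val_gt (by simp only [Cn.rt_v, Cn.ng_v]; norm_num)).trans (tb_dt39 x)
theorem ta_dt40 (x : ℝ) : dt40.val (fun p x => kcg.v p x) (181 / 1406) (1117 / 1406) x = (43341877644796074207 / 347428927000000000000 + (x - 148977 / 200000) * (1184864738281018137 / 13897157080000000000) + (x - 148977 / 200000) ^ 2 * (798296727 / 98841800000)) := by
  simp only [dt40, DT.val, cloR, kgA]
  ring1
theorem tb_dt40 (x : ℝ) : dt40.val (fun p x => kcg.v p x) (71 / 313) (457 / 626) x = (7320798248231045643 / 61328594000000000000 + (x - 148977 / 200000) * (249273786953913813 / 2453143760000000000) + (x - 148977 / 200000) ^ 2 * (6720334413 / 39187600000)) := by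
  simp only [dt40, DT.val, cloR, kgB]
  ring1
theorem ta_dt41 (x : ℝ) : dt41.val (fun p x => kcg.v p x) (71 / 313) (457 / 626) x = (7320798248231045643 / 61328594000000000000 + (x - 148977 / 200000) * (249273786953913813 / 2453143760000000000) + (x - 148977 / 200000) ^ 2 * (6720334413 / 39187600000)) := by
  simp only [dt41, DT.val, sw41, sw41_2, sl41, sl41_2, sv41, sv41_2]
  ((try push_cast); ring1)
theorem tb_dt41 (x : ℝ) : dt41.val (fun p x => kcg.v p x) (1 / 4) (cT (1 / 4)) x = (229791 / 2000000 + (x - 148977 / 200000) * (95017 / 1000000)) := by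
  simp only [dt41, DT.val, sw41, sw41_2, sl41, sl41_2, sv41, sv41_2]
  ((try push_cast); ring1)
theorem ta_dt55 (x : ℝ) : dt55.val (fun p x => kcg.v p x) (181 / 1406) (1117 / 1406) x = (43341877644796074207 / 347428927000000000000 + (x - 148977 / 200000) * (1184864738281018137 / 13897157080000000000) + (x - 148977 / 200000) ^ 2 * (798296727 / 98841800000)) :=
  (DT.val_le (by simp only [Cn.rt_v, Cn.ng_v]; norm_num)).trans (ta_dt40 x)
theorem tb_dt55 (x : ℝ) : dt55.val (fun p x => kcg.v p x) (1 / 4) (cT (1 / 4)) x = (229791 / 2000000 + (x - 148977 / 200000) * (95017 / 1000000)) :=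
  (DT.val_gt (by simp only [Cn.rt_v, Cn.ng_v]; norm_num)).trans (tb_dt41 x)
theorem ta_dt56 (x : ℝ) : dt56.val (fun p x => kcg.v p x) (-1 / 10) (cT (-1 / 10)) x = (194139 / 2000000 + (x - 148977 / 200000) * (91267 / 1000000)) :=
  (DT.val_le (by simp only [Cn.rt_v, Cn.ng_v]; norm_num)).trans (ta_dt54 x)
theorem tb_dt56 (x : ℝ) : dt56.val (fun p x => kcg.v p x) (1 / 4) (cT (1 / 4)) x = (229791 / 2000000 + (x - 148977 / 200000) * (95017 / 1000000)) :=
  (DT.val_gt (by simp only [Cn.rt_v, Cn.ng_v]; norm_num)).trans (tb_dt55 x)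
theorem ta_dt42 (x : ℝ) : dt42.val (fun p x => kcg.v p x) (1 / 4) (cT (1 / 4)) x = (229791 / 2000000 + (x - 148977 / 200000) * (95017 / 1000000)) := by
  simp only [dt42, DT.val, sw42, sl42, sv42]
  ((try push_cast); ring1)
theorem tb_dt42 (x : ℝ) : dt42.val (fun p x => kcg.v p x) (3 / 10) (cT (3 / 10)) x = (124669 / 1250000 + (x - 148977 / 200000) * (12579 / 125000)) := by
  simp only [dt42, DT.val, sw42, sl42, sv42]
  ((try push_cast); ring1)
theorem ta_dt43 (x : ℝ) : dt43.val (fun p x => kcg.v p x) (3 / 10) (cT (3 / 10)) x = (124669 / 1250000 + (x - 148977 / 200000) * (12579 / 125000)) := by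
  simp only [dt43, DT.val, sw43, sl43, sv43]
  ((try push_cast); ring1)
theorem tb_dt43 (x : ℝ) : dt43.val (fun p x => kcg.v p x) (7 / 20) (cT (7 / 20)) x = (195437 / 2500000 + (x - 148977 / 200000) * (23081 / 200000)) := by
  simp only [dt43, DT.val, sw43, sl43, sv43]
  ((try push_cast); ring1)
theorem ta_dt57 (x : ℝ) : dt57.val (fun p x => kcg.v p x) (1 / 4) (cT (1 / 4)) x = (229791 / 2000000 + (x - 148977 / 200000) * (95017 / 1000000)) :=
  (DT.val_le (by simp only [Cn.rt_v, Cn.ng_v]; norm_num)).trans (ta_dt42 x)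
theorem tb_dt57 (x : ℝ) : dt57.val (fun p x => kcg.v p x) (7 / 20) (cT (7 / 20)) x = (195437 / 2500000 + (x - 148977 / 200000) * (23081 / 200000)) :=
  (DT.val_gt (by simp only [Cn.rt_v, Cn.ng_v]; norm_num)).trans (tb_dt43 x)
theorem ta_dt44 (x : ℝ) : dt44.val (fun p x => kcg.v p x) (7 / 20) (cT (7 / 20)) x = (195437 / 2500000 + (x - 148977 / 200000) * (23081 / 200000)) := by
  simp only [dt44, DT.val, sw44, sl44, sv44]
  ((try push_cast); ring1)
theorem tb_dt44 (x : ℝ) : dt44.val (fun p x => kcg.v p x) (2 / 5) (cT (2 / 5)) x = (518629 / 10000000 + (x - 148977 / 200000) * (111613 / 1000000)) := by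
  simp only [dt44, DT.val, sw44, sl44, sv44]
  ((try push_cast); ring1)
theorem ta_dt45 (x : ℝ) : dt45.val (fun p x => kcg.v p x) (2 / 5) (cT (2 / 5)) x = (518629 / 10000000 + (x - 148977 / 200000) * (111613 / 1000000)) := by
  simp only [dt45, DT.val, sw45, sl45, sv45]
  ((try push_cast); ring1)
theorem tb_dt45 (x : ℝ) : dt45.val (fun p x => kcg.v p x) (9 / 20) (cT (9 / 20)) x = (242751 / 10000000 + (x - 148977 / 200000) * (17719 / 200000)) := by
  simp only [dt45, DT.val, sw45, sl45, sv45]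
  ((try push_cast); ring1)
theorem ta_dt46 (x : ℝ) : dt46.val (fun p x => kcg.v p x) (9 / 20) (cT (9 / 20)) x = (242751 / 10000000 + (x - 148977 / 200000) * (17719 / 200000)) := by
  simp only [dt46, DT.val, sw46, sl46, sv46]
  ((try push_cast); ring1)
theorem tb_dt46 (x : ℝ) : dt46.val (fun p x => kcg.v p x) (1 / 2) (cT (1 / 2)) x = (0) := by
  simp only [dt46, DT.val, sw46, sl46, sv46]
  ((try push_cast); ring1)
theorem ta_dt58 (x : ℝ) : dt58.val (fun p x => kcg.v p x) (2 / 5) (cT (2 / 5)) x = (518629 / 10000000 + (x - 148977 / 200000) * (111613 / 1000000)) :=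
  (DT.val_le (by simp only [Cn.rt_v, Cn.ng_v]; norm_num)).trans (ta_dt45 x)
theorem tb_dt58 (x : ℝ) : dt58.val (fun p x => kcg.v p x) (1 / 2) (cT (1 / 2)) x = (0) :=
  (DT.val_gt (by simp only [Cn.rt_v, Cn.ng_v]; norm_num)).trans (tb_dt46 x)
theorem ta_dt59 (x : ℝ) : dt59.val (fun p x => kcg.v p x) (7 / 20) (cT (7 / 20)) x = (195437 / 2500000 + (x - 148977 / 200000) * (23081 / 200000)) :=
  (DT.val_le (by simp only [Cn.rt_v, Cn.ng_v]; norm_num)).trans (ta_dt44 x)
theorem tb_dt59 (x : ℝ) : dt59.val (fun p x => kcg.v p x) (1 / 2) (cT (1 / 2)) x = (0) :=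
  (DT.val_gt (by simp only [Cn.rt_v, Cn.ng_v]; norm_num)).trans (tb_dt58 x)
theorem ta_dt60 (x : ℝ) : dt60.val (fun p x => kcg.v p x) (1 / 4) (cT (1 / 4)) x = (229791 / 2000000 + (x - 148977 / 200000) * (95017 / 1000000)) :=
  (DT.val_le (by simp only [Cn.rt_v, Cn.ng_v]; norm_num)).trans (ta_dt57 x)
theorem tb_dt60 (x : ℝ) : dt60.val (fun p x => kcg.v p x) (1 / 2) (cT (1 / 2)) x = (0) :=
  (DT.val_gt (by simp only [Cn.rt_v, Cn.ng_v]; norm_num)).trans (tb_dt59 x)
theorem ta_dt61 (x : ℝ) : dt61.val (fun p x => kcg.v p x) (-1 / 10) (cT (-1 / 10)) x = (194139 / 2000000 + (x - 148977 / 200000) * (91267 / 1000000)) :=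
  (DT.val_le (by simp only [Cn.rt_v, Cn.ng_v]; norm_num)).trans (ta_dt56 x)
theorem tb_dt61 (x : ℝ) : dt61.val (fun p x => kcg.v p x) (1 / 2) (cT (1 / 2)) x = (0) :=
  (DT.val_gt (by simp only [Cn.rt_v, Cn.ng_v]; norm_num)).trans (tb_dt60 x)
theorem ta_dt62 (x : ℝ) : dt62.val (fun p x => kcg.v p x) (-1 / 2) (cT (-1 / 2)) x = (0) :=
  (DT.val_le (by simp only [Cn.rt_v, Cn.ng_v]; norm_num)).trans (ta_dt53 x)
theorem tb_dt62 (x : ℝ) : dt62.val (fun p x => kcg.v p x) (1 / 2) (cT (1 / 2)) x = (0) :=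
  (DT.val_gt (by simp only [Cn.rt_v, Cn.ng_v]; norm_num)).trans (tb_dt61 x)
theorem to_dt30 (x : ℝ) : dt30.Ok (fun p x => kcg.v p x) x := trivial
theorem to_dt31 (x : ℝ) : dt31.Ok (fun p x => kcg.v p x) x := trivial
theorem to_dt47 (x : ℝ) : dt47.Ok (fun p x => kcg.v p x) x :=
  DT.ok_node (v := -9 / 20) (by simp only [Cn.rt_v, Cn.ng_v]; norm_num) (by rw [abs_le]; constructor <;> norm_num) rfl (tb_dt30 x) (ta_dt31 x) (by ring1) (to_dt30 x) (to_dt31 x)
theorem to_dt32 (x : ℝ) : dt32.Ok (fun p x => kcg.v p x) x := trivial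
theorem to_dt33 (x : ℝ) : dt33.Ok (fun p x => kcg.v p x) x := trivial
theorem to_dt48 (x : ℝ) : dt48.Ok (fun p x => kcg.v p x) x :=
  DT.ok_node (v := -7 / 20) (by simp only [Cn.rt_v, Cn.ng_v]; norm_num) (by rw [abs_le]; constructor <;> norm_num) rfl (tb_dt32 x) (ta_dt33 x) (by ring1) (to_dt32 x) (to_dt33 x)
theorem to_dt49 (x : ℝ) : dt49.Ok (fun p x => kcg.v p x) x :=
  DT.ok_node (v := -2 / 5) (by simp only [Cn.rt_v, Cn.ng_v]; norm_num) (by rw [abs_le]; constructor <;> norm_num) rfl (tb_dt47 x) (ta_dt48 x) (by ring1) (to_dt47 x) (to_dt48 x)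
theorem to_dt34 (x : ℝ) : dt34.Ok (fun p x => kcg.v p x) x := trivial
theorem to_dt35 (x : ℝ) : dt35.Ok (fun p x => kcg.v p x) x := trivial
theorem to_dt50 (x : ℝ) : dt50.Ok (fun p x => kcg.v p x) x :=
  DT.ok_node (v := -1 / 4) (by simp only [Cn.rt_v, Cn.ng_v]; norm_num) (by rw [abs_le]; constructor <;> norm_num) rfl (tb_dt34 x) (ta_dt35 x) (by ring1) (to_dt34 x) (to_dt35 x)
theorem to_dt36 (x : ℝ) : dt36.Ok (fun p x => kcg.v p x) x := trivial
theorem to_dt37 (x : ℝ) : dt37.Ok (fun p x => kcg.v p x) x := trivial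
theorem to_dt51 (x : ℝ) : dt51.Ok (fun p x => kcg.v p x) x :=
  DT.ok_node (v := -3 / 20) (by simp only [Cn.rt_v, Cn.ng_v]; norm_num) (by rw [abs_le]; constructor <;> norm_num) rfl (tb_dt36 x) (ta_dt37 x) (by ring1) (to_dt36 x) (to_dt37 x)
theorem to_dt52 (x : ℝ) : dt52.Ok (fun p x => kcg.v p x) x :=
  DT.ok_node (v := -1 / 5) (by simp only [Cn.rt_v, Cn.ng_v]; norm_num) (by rw [abs_le]; constructor <;> norm_num) rfl (tb_dt50 x) (ta_dt51 x) (by ring1) (to_dt50 x) (to_dt51 x)
theorem to_dt53 (x : ℝ) : dt53.Ok (fun p x => kcg.v p x) x :=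
  DT.ok_node (v := -3 / 10) (by simp only [Cn.rt_v, Cn.ng_v]; norm_num) (by rw [abs_le]; constructor <;> norm_num) rfl (tb_dt49 x) (ta_dt52 x) (by ring1) (to_dt49 x) (to_dt52 x)
theorem to_dt38 (x : ℝ) : dt38.Ok (fun p x => kcg.v p x) x := trivial
theorem to_dt39 (x : ℝ) : dt39.Ok (fun p x => kcg.v p x) x := trivial
theorem to_dt54 (x : ℝ) : dt54.Ok (fun p x => kcg.v p x) x :=
  DT.ok_node (v := 1 / 10) (by simp only [Cn.rt_v, Cn.ng_v]; norm_num) (by rw [abs_le]; constructor <;> norm_num) rfl (tb_dt38 x) (ta_dt39 x) (by ring1) (to_dt38 x) (to_dt39 x)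
theorem to_dt40 (x : ℝ) : dt40.Ok (fun p x => kcg.v p x) x := trivial
theorem to_dt41 (x : ℝ) : dt41.Ok (fun p x => kcg.v p x) x := trivial
theorem to_dt55 (x : ℝ) : dt55.Ok (fun p x => kcg.v p x) x :=
  DT.ok_node (v := 71 / 313) (by simp only [Cn.rt_v, Cn.ng_v]; norm_num) (by rw [abs_le]; constructor <;> norm_num) ctB (tb_dt40 x) (ta_dt41 x) (by ring1) (to_dt40 x) (to_dt41 x)
theorem to_dt56 (x : ℝ) : dt56.Ok (fun p x => kcg.v p x) x :=
  DT.ok_node (v := 181 / 1406) (by simp only [Cn.rt_v, Cn.ng_v]; norm_num) (by rw [abs_le]; constructor <;> norm_num) ctA (tb_dt54 x) (ta_dt55 x) (by ring1) (to_dt54 x) (to_dt55 x)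
theorem to_dt42 (x : ℝ) : dt42.Ok (fun p x => kcg.v p x) x := trivial
theorem to_dt43 (x : ℝ) : dt43.Ok (fun p x => kcg.v p x) x := trivial
theorem to_dt57 (x : ℝ) : dt57.Ok (fun p x => kcg.v p x) x :=
  DT.ok_node (v := 3 / 10) (by simp only [Cn.rt_v, Cn.ng_v]; norm_num) (by rw [abs_le]; constructor <;> norm_num) rfl (tb_dt42 x) (ta_dt43 x) (by ring1) (to_dt42 x) (to_dt43 x)
theorem to_dt44 (x : ℝ) : dt44.Ok (fun p x => kcg.v p x) x := trivial
theorem to_dt45 (x : ℝ) : dt45.Ok (fun p x => kcg.v p x) x := trivial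
theorem to_dt46 (x : ℝ) : dt46.Ok (fun p x => kcg.v p x) x := trivial
theorem to_dt58 (x : ℝ) : dt58.Ok (fun p x => kcg.v p x) x :=
  DT.ok_node (v := 9 / 20) (by simp only [Cn.rt_v, Cn.ng_v]; norm_num) (by rw [abs_le]; constructor <;> norm_num) rfl (tb_dt45 x) (ta_dt46 x) (by ring1) (to_dt45 x) (to_dt46 x)
theorem to_dt59 (x : ℝ) : dt59.Ok (fun p x => kcg.v p x) x :=
  DT.ok_node (v := 2 / 5) (by simp only [Cn.rt_v, Cn.ng_v]; norm_num) (by rw [abs_le]; constructor <;> norm_num) rfl (tb_dt44 x) (ta_dt58 x) (by ring1) (to_dt44 x) (to_dt58 x)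
theorem to_dt60 (x : ℝ) : dt60.Ok (fun p x => kcg.v p x) x :=
  DT.ok_node (v := 7 / 20) (by simp only [Cn.rt_v, Cn.ng_v]; norm_num) (by rw [abs_le]; constructor <;> norm_num) rfl (tb_dt57 x) (ta_dt59 x) (by ring1) (to_dt57 x) (to_dt59 x)
theorem to_dt61 (x : ℝ) : dt61.Ok (fun p x => kcg.v p x) x :=
  DT.ok_node (v := 1 / 4) (by simp only [Cn.rt_v, Cn.ng_v]; norm_num) (by rw [abs_le]; constructor <;> norm_num) rfl (tb_dt56 x) (ta_dt60 x) (by ring1) (to_dt56 x) (to_dt60 x)
theorem to_dt62 (x : ℝ) : dt62.Ok (fun p x => kcg.v p x) x :=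
  DT.ok_node (v := -1 / 10) (by simp only [Cn.rt_v, Cn.ng_v]; norm_num) (by rw [abs_le]; constructor <;> norm_num) rfl (tb_dt53 x) (ta_dt61 x) (by ring1) (to_dt53 x) (to_dt61 x)
theorem dok (x : ℝ) : dd.Ok x := ⟨ko_dt29 x, fun p h => kfe h, to_dt62 x⟩
theorem K0_ (x : ℝ) : ∀ q y, OnC (0 : Fin 6) q y → TightK (tyO q) q (fun p => dd.kf.v p x) (c1n y) y (tK 0 q y x) := by
  refine K0_of (R := fun q y => tK 0 q y x) (kc := fun p => kcg.v p x) ?_ ?_ ?_
  · intro y h
    show tK 0 0 y x = _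
    ·
      rw [← (atB00 h).K]
      show kf0q0.v y x = _
      simp only [kf0q0, kf0q0_9, kf0q0_12, c1g_v]
      ((try push_cast); (try simp only [mul_inv]); (try ring_nf))
  · intro y h
    show tK 0 1 y x = _
    ·
      rw [← (atB01 h).K]
      show kf0q1.v y x = _
      simp only [kf0q1, kf0q1_10, c1g_v]
      ((try push_cast); (try simp only [mul_inv]); (try ring_nf))
  · intro y h
    show tK 0 2 y x = _
    ·
      have ey := yag_v h.1.nonneg (h.2 rfl)
      rw [← (atB02 h).K]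
      show kfc02.v (c1n y) x = _
      simp only [kfc02, c1g_v, ey]
      ((try push_cast); (try simp only [mul_inv]); (try ring_nf))
theorem L0_ (x : ℝ) : ∀ q y, OnC (0 : Fin 6) q y → TightL (tyO q) (fun p c => dd.TX.val dd.kf.v p c x) (c1n y) y (tL 0 q y x) := by
  refine L0_of (R := fun q y => tL 0 q y x) (tx := fun p c => txg.v p c x) txe ?_ ?_ ?_
  · intro y h
    show tL 0 0 y x = _
    ·
      rw [← (atB00 h).L]
      show l0q0.v y x = _
      simp only [l0q0, c1g_v]
      ((try push_cast); (try simp only [mul_inv]); (try ring_nf))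
  · intro y h
    show tL 0 1 y x = _
    ·
      rw [← (atB01 h).L]
      show l0q1.v y x = _
      simp only [l0q1, c1g_v]
      ((try push_cast); (try simp only [mul_inv]); (try ring_nf))
  · intro y h
    show tL 0 2 y x = _
    ·
      have ey := yag_v h.1.nonneg (h.2 rfl)
      rw [← (atB02 h).L]
      show lc02.v (c1n y) x = _
      simp only [lc02, lc02_7, lc02_8, c1g_v, ey]
      ((try push_cast); (try simp only [mul_inv]); (try ring_nf))
theorem Kn_ (x : ℝ) : ∀ q y, InQ q y → TightK (tyN q) q (fun p => dd.kf.v p x) (c3n y) y (tK (Fin.last 5) q y x) := by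
  refine Kn_of (R := fun q y => tK 5 q y x) (kc := fun p => kcg.v p x) ?_ ?_ ?_ ?_
  · intro y h
    show tK 5 0 y x = _
    ·
      rw [← (atB50 (onc h (by decide))).K]
      show kf5q0.v y x = _
      simp only [kf5q0, c3g_v]
      ((try push_cast); (try simp only [mul_inv]); (try ring_nf))
  · intro y h
    show tK 5 1 y x = _
    ·
      rw [← (atB51 (onc h (by decide))).K]
      show kf5q1.v y x = _
      simp only [kf5q1, c3g_v]
      ((try push_cast); (try simp only [mul_inv]); (try ring_nf))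
  · intro y h
    show tK 5 2 y x = _
    ·
      rw [← (atB52 (onc h (by decide))).K]
      show kf5q2.v y x = _
      simp only [kf5q2, c3g_v]
      ((try push_cast); (try simp only [mul_inv]); (try ring_nf))
  · intro y h
    show tK 5 3 y x = _
    ·
      have ey := ycg_v h.nonneg h.le_two
      rw [← (atB53 (onc h (by decide))).K]
      show kfc53.v (c3n y) x = _
      simp only [kfc53, c3g_v, ey]
      ((try push_cast); (try simp only [mul_inv]); (try ring_nf))
theorem Ln_ (x : ℝ) : ∀ q y, InQ q y → TightL (tyN q) (fun p c => dd.TX.val dd.kf.v p c x) (c3n y) y (tL (Fin.last 5) q y x) := by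
  refine Ln_of (R := fun q y => tL 5 q y x) (tx := fun p c => txg.v p c x) txe ?_ ?_ ?_ ?_
  · intro y h
    show tL 5 0 y x = _
    ·
      rw [← (atB50 (onc h (by decide))).L]
      show l5q0.v y x = _
      simp only [l5q0, l5q0_6, l5q0_7, l5q0_8, c3g_v]
      ((try push_cast); (try simp only [mul_inv]); (try ring_nf))
  · intro y h
    show tL 5 1 y x = _
    ·
      rw [← (atB51 (onc h (by decide))).L]
      show l5q1.v y x = _
      simp only [l5q1, l5q1_7, l5q1_8, l5q1_9, c3g_v]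
      ((try push_cast); (try simp only [mul_inv]); (try ring_nf))
  · intro y h
    show tL 5 2 y x = _
    ·
      rw [← (atB52 (onc h (by decide))).L]
      show l5q2.v y x = _
      simp only [l5q2, l5q2_7, l5q2_8, l5q2_9, l5q2_12, l5q2_14, c3g_v]
      ((try push_cast); (try simp only [mul_inv]); (try ring_nf))
  · intro y h
    show tL 5 3 y x = _
    ·
      have ey := ycg_v h.nonneg h.le_two
      rw [← (atB53 (onc h (by decide))).L]
      show lc53.v (c3n y) x = _
      simp only [lc53, lc53_7, lc53_8, lc53_9, lc53_12, lc53_14, c3g_v, ey]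
      ((try push_cast); (try simp only [mul_inv]); (try ring_nf))
theorem f0_ : ∀ q y, InQ q y → (ff q).f.v y = crv PP 1 q y
  | 0, y, _ => ecv1q0.symm
  | 1, y, _ => ecv1q1.symm
  | 2, y, _ => ecv1q2.symm
  | 3, y, h => (ecv1q3 h.1).symm
theorem fn_ : ∀ q y, InQ q y → (fl q).f.v y = crv PP 4 q y
  | 0, y, _ => ecv4q0.symm
  | 1, y, _ => ecv4q1.symm
  | 2, y, _ => ecv4q2.symm
  | 3, y, h => (ecv4q3 h.1).symm
theorem yK00 {y x : ℝ} (h : OnC (0 : Fin 6) 0 y) : tK 0 0 y x = kf0q0.v y x := (atB00 h).K.symm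
theorem yK10 {y x : ℝ} (h : InQ 0 y) : tK 1 0 y x = kf1q0.v y x := (atB10 (onc h (by decide))).K.symm
theorem yK01 {y x : ℝ} (h : OnC (0 : Fin 6) 1 y) : tK 0 1 y x = kf0q1.v y x := (atB01 h).K.symm
theorem yK11 {y x : ℝ} (h : InQ 1 y) : tK 1 1 y x = kf1q1.v y x := (atB11 (onc h (by decide))).K.symm
theorem yK02 {y x : ℝ} (h : OnC (0 : Fin 6) 2 y) : tK 0 2 y x = kf0q2.v y x := by
  rw [← (atB02 h).K]
  show kfc02.v (c1n y) x = _
  have ey := yag_v h.1.nonneg (h.2 rfl)
  simp only [kfc02, kf0q2, ey, c1g_v, c3g_v, swg_v]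
  ((try push_cast); (try ring_nf))
theorem yK12 {y x : ℝ} (h : InQ 2 y) : tK 1 2 y x = kf1q2.v y x := (atB12 (onc h (by decide))).K.symm
theorem yK50 {y x : ℝ} (h : InQ 0 y) : tK 5 0 y x = kf5q0.v y x := (atB50 (onc h (by decide))).K.symm
theorem yK40 {y x : ℝ} (h : InQ 0 y) : tK 4 0 y x = kf4q0.v y x := (atB40 (onc h (by decide))).K.symm
theorem yK51 {y x : ℝ} (h : InQ 1 y) : tK 5 1 y x = kf5q1.v y x := (atB51 (onc h (by decide))).K.symm
theorem yK41 {y x : ℝ} (h : InQ 1 y) : tK 4 1 y x = kf4q1.v y x := (atB41 (onc h (by decide))).K.symm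
theorem yK52 {y x : ℝ} (h : InQ 2 y) : tK 5 2 y x = kf5q2.v y x := (atB52 (onc h (by decide))).K.symm
theorem yK42 {y x : ℝ} (h : InQ 2 y) : tK 4 2 y x = kf4q2.v y x := (atB42 (onc h (by decide))).K.symm
theorem yK53 {y x : ℝ} (h : InQ 3 y) : tK 5 3 y x = kf5q3.v y x := by
  rw [← (atB53 (onc h (by decide))).K]
  show kfc53.v (c3n y) x = _
  have ey := ycg_v h.nonneg h.le_two
  simp only [kfc53, kf5q3, ey, c1g_v, c3g_v, swg_v]
  ((try push_cast); (try ring_nf))
theorem yK43 {y x : ℝ} (h : InQ 3 y) : tK 4 3 y x = kf4q3.v y x := by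
  rw [← (atB43 (onc h (by decide))).K]
  show kfc43.v (c3n y) x = _
  have ey := ycg_v h.nonneg h.le_two
  simp only [kfc43, kfc43_11, kf4q3, kf4q3_4, cv4r, ey, c1g_v, c3g_v, swg_v]
  ((try push_cast); (try ring_nf))
theorem yL00 {y x : ℝ} (h : OnC (0 : Fin 6) 0 y) : tL 0 0 y x = l0q0.v y x := (atB00 h).L.symm
theorem yL10 {y x : ℝ} (h : InQ 0 y) : tL 1 0 y x = l1q0.v y x := (atB10 (onc h (by decide))).L.symm
theorem yL01 {y x : ℝ} (h : OnC (0 : Fin 6) 1 y) : tL 0 1 y x = l0q1.v y x := (atB01 h).L.symm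
theorem yL11 {y x : ℝ} (h : InQ 1 y) : tL 1 1 y x = l1q1.v y x := (atB11 (onc h (by decide))).L.symm
theorem yL02 {y x : ℝ} (h : OnC (0 : Fin 6) 2 y) : tL 0 2 y x = l0q2.v y x := by
  rw [← (atB02 h).L]
  show lc02.v (c1n y) x = _
  have ey := yag_v h.1.nonneg (h.2 rfl)
  simp only [lc02, lc02_7, lc02_8, l0q2, l0q2_7, l0q2_8, ey, c1g_v, c3g_v, swg_v]
  ((try push_cast); (try ring_nf))
theorem yL12 {y x : ℝ} (h : InQ 2 y) : tL 1 2 y x = l1q2.v y x := (atB12 (onc h (by decide))).L.symm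
theorem yL50 {y x : ℝ} (h : InQ 0 y) : tL 5 0 y x = l5q0.v y x := (atB50 (onc h (by decide))).L.symm
theorem yL40 {y x : ℝ} (h : InQ 0 y) : tL 4 0 y x = l4q0.v y x := (atB40 (onc h (by decide))).L.symm
theorem yL51 {y x : ℝ} (h : InQ 1 y) : tL 5 1 y x = l5q1.v y x := (atB51 (onc h (by decide))).L.symm
theorem yL41 {y x : ℝ} (h : InQ 1 y) : tL 4 1 y x = l4q1.v y x := (atB41 (onc h (by decide))).L.symm
theorem yL52 {y x : ℝ} (h : InQ 2 y) : tL 5 2 y x = l5q2.v y x := (atB52 (onc h (by decide))).L.symm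
theorem yL42 {y x : ℝ} (h : InQ 2 y) : tL 4 2 y x = l4q2.v y x := (atB42 (onc h (by decide))).L.symm
theorem yL53 {y x : ℝ} (h : InQ 3 y) : tL 5 3 y x = l5q3.v y x := by
  rw [← (atB53 (onc h (by decide))).L]
  show lc53.v (c3n y) x = _
  have ey := ycg_v h.nonneg h.le_two
  simp only [lc53, lc53_7, lc53_8, lc53_9, lc53_12, lc53_14, l5q3, l5q3_7, l5q3_8, l5q3_9, l5q3_12, l5q3_14, ey, c1g_v, c3g_v, swg_v]
  ((try push_cast); (try ring_nf))
theorem yL43 {y x : ℝ} (h : InQ 3 y) : tL 4 3 y x = l4q3.v y x := by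
  rw [← (atB43 (onc h (by decide))).L]
  show lc43.v (c3n y) x = _
  have ey := ycg_v h.nonneg h.le_two
  simp only [lc43, lc43_11, l4q3, l4q3_4, cv4r, ey, c1g_v, c3g_v, swg_v]
  ((try push_cast); (try ring_nf))
theorem sK0_ (x : ℝ) : ∀ q y, OnC (0 : Fin 6) q y → c1n y < crv PP 1 q y →
    (ff q).SK.v y x * (crv PP 1 q y - c1n y) = tK 1 q y x - tK 0 q y x := by
  intro q y h hlt
  rcases onC_q h with rfl | rfl | rfl
  · rw [yK10 h.1, yK00 h]
    rw [ecv1q0, ← c1g_v] at hlt ⊢
    have hd : 0 < cv1m.v y - c1g.v y := sub_pos.2 hlt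
    have hi := inv_mul_cancel₀ hd.ne'
    show skf0.v y x * _ = _
    simp only [skf0, kf1q0]
    (try push_cast)
    linear_combination (c1g.v y * bf1q0.v y x - kf0q0.v y x) * hi
  · rw [yK11 h.1, yK01 h]
    rw [ecv1q1, ← c1g_v] at hlt ⊢
    have hd : 0 < cv1m.v y - c1g.v y := sub_pos.2 hlt
    have hi := inv_mul_cancel₀ hd.ne'
    show skf1.v y x * _ = _
    simp only [skf1, kf1q1]
    (try push_cast)
    linear_combination (c1g.v y * bf1q1.v y x - kf0q1.v y x) * hi
  · rw [yK12 h.1, yK02 h]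
    rw [ecv1q2, ← c1g_v] at hlt ⊢
    have hd : 0 < cv1p.v y - c1g.v y := sub_pos.2 hlt
    have hi := inv_mul_cancel₀ hd.ne'
    have hb : |c1g.v y| ≤ 1 / 2 := by rw [c1g_v]; exact bnd_O h
    have eo := odd (x := x) hb
    show skf2.v y x * _ = _
    simp only [skf2, kf1q2, kf0q2, eo]
    (try push_cast)
    linear_combination (c1g.v y * (bf1q2.v y x - 1) + (y - 1) * kcg.v (c1g.v y) x) * hi
theorem sX0_ (x : ℝ) : ∀ q y, OnC (0 : Fin 6) q y → c1n y < crv PP 1 q y →
    (ff q).SX.v y x * (crv PP 1 q y - c1n y) = tL 1 q y x - tL 0 q y x := by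
  intro q y h hlt
  rcases onC_q h with rfl | rfl | rfl
  · rw [yL10 h.1, yL00 h]
    rw [ecv1q0, ← c1g_v] at hlt ⊢
    have hd : 0 < cv1m.v y - c1g.v y := sub_pos.2 hlt
    have hi := inv_mul_cancel₀ hd.ne'
    show sxf0.v y x * _ = _
    simp only [sxf0]
    (try push_cast)
    linear_combination (l1q0.v y x - l0q0.v y x) * hi
  · rw [yL11 h.1, yL01 h]
    rw [ecv1q1, ← c1g_v] at hlt ⊢
    have hd : 0 < cv1m.v y - c1g.v y := sub_pos.2 hlt
    have hi := inv_mul_cancel₀ hd.ne'
    show sxf1.v y x * _ = _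
    simp only [sxf1]
    (try push_cast)
    linear_combination (l1q1.v y x - l0q1.v y x) * hi
  · rw [yL12 h.1, yL02 h]
    rw [ecv1q2, ← c1g_v] at hlt ⊢
    have hd : 0 < cv1p.v y - c1g.v y := sub_pos.2 hlt
    have hi := inv_mul_cancel₀ hd.ne'
    show sxf2.v y x * _ = _
    simp only [sxf2]
    (try push_cast)
    linear_combination (l1q2.v y x - l0q2.v y x) * hi
theorem sKn_ (x : ℝ) : ∀ q y, InQ q y → crv PP 4 q y < c3n y →
    (fl q).SK.v y x * (c3n y - crv PP 4 q y) = tK 5 q y x - tK 4 q y x := by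
  intro q y h hlt
  match q, h with
  | 0, h =>
    rw [yK50 h, yK40 h]
    rw [ecv4q0, ← c3g_v] at hlt ⊢
    have hd : 0 < c3g.v y - cv4m.v y := sub_pos.2 hlt
    have hi := inv_mul_cancel₀ hd.ne'
    show skl0.v y x * _ = _
    simp only [skl0, kf4q0]
    (try push_cast)
    linear_combination (kf5q0.v y x - c3g.v y * bf4q0.v y x) * hi
  | 1, h =>
    rw [yK51 h, yK41 h]
    rw [ecv4q1, ← c3g_v] at hlt ⊢
    have hd : 0 < c3g.v y - cv4m.v y := sub_pos.2 hlt
    have hi := inv_mul_cancel₀ hd.ne'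
    show skl1.v y x * _ = _
    simp only [skl1, kf4q1]
    (try push_cast)
    linear_combination (kf5q1.v y x - c3g.v y * bf4q1.v y x) * hi
  | 2, h =>
    rw [yK52 h, yK42 h]
    rw [ecv4q2, ← c3g_v] at hlt ⊢
    have hd : 0 < c3g.v y - cv4p.v y := sub_pos.2 hlt
    have hi := inv_mul_cancel₀ hd.ne'
    show skl2.v y x * _ = _
    simp only [skl2, kf4q2]
    (try push_cast)
    linear_combination (kf5q2.v y x - c3g.v y * bf4q2.v y x) * hi
  | 3, h =>
    rw [yK53 h, yK43 h]
    rw [ecv4q3 h.1, ← c3g_v] at hlt ⊢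
    have hd : 0 < c3g.v y - cv4r.v y := sub_pos.2 hlt
    have hi := inv_mul_cancel₀ hd.ne'
    have hB : kf4q3.v y x = cv4r.v y * bf4q3.v y x := by
      simp only [kf4q3, kf4q3_4, bf4q3, bf4q3_3]
    show skl3.v y x * _ = _
    simp only [skl3, hB]
    (try push_cast)
    linear_combination (kf5q3.v y x - c3g.v y * bf4q3.v y x) * hi
theorem sXn_ (x : ℝ) : ∀ q y, InQ q y → crv PP 4 q y < c3n y →
    (fl q).SX.v y x * (c3n y - crv PP 4 q y) = tL 5 q y x - tL 4 q y x := by
  intro q y h hlt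
  match q, h with
  | 0, h =>
    rw [yL50 h, yL40 h]
    rw [ecv4q0, ← c3g_v] at hlt ⊢
    have hd : 0 < c3g.v y - cv4m.v y := sub_pos.2 hlt
    have hi := inv_mul_cancel₀ hd.ne'
    show sxl0.v y x * _ = _
    simp only [sxl0]
    (try push_cast)
    linear_combination (l5q0.v y x - l4q0.v y x) * hi
  | 1, h =>
    rw [yL51 h, yL41 h]
    rw [ecv4q1, ← c3g_v] at hlt ⊢
    have hd : 0 < c3g.v y - cv4m.v y := sub_pos.2 hlt
    have hi := inv_mul_cancel₀ hd.ne'
    show sxl1.v y x * _ = _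
    simp only [sxl1]
    (try push_cast)
    linear_combination (l5q1.v y x - l4q1.v y x) * hi
  | 2, h =>
    rw [yL52 h, yL42 h]
    rw [ecv4q2, ← c3g_v] at hlt ⊢
    have hd : 0 < c3g.v y - cv4p.v y := sub_pos.2 hlt
    have hi := inv_mul_cancel₀ hd.ne'
    show sxl2.v y x * _ = _
    simp only [sxl2]
    (try push_cast)
    linear_combination (l5q2.v y x - l4q2.v y x) * hi
  | 3, h =>
    rw [yL53 h, yL43 h]
    rw [ecv4q3 h.1, ← c3g_v] at hlt ⊢
    have hd : 0 < c3g.v y - cv4r.v y := sub_pos.2 hlt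
    have hi := inv_mul_cancel₀ hd.ne'
    show sxl3.v y x * _ = _
    simp only [sxl3]
    (try push_cast)
    linear_combination (l5q3.v y x - l4q3.v y x) * hi
theorem kn_ (x : ℝ) : ∀ X, |X| ≤ vv.k1.v → kcg.v (-X) x = -(k0c.v x * X) := by
  intro X h
  have h : |X| ≤ 1 / 16 := by
    refine h.trans_eq ?_
    show (Cn.rt 1 16).v = _
    rw [Cn.rt_v]
    norm_num
  obtain ⟨h1, h2⟩ := abs_le.1 h
  rw [kcl7 (p := -X) (by linarith) (by linarith)]
  simp only [k0c]
  push_cast
  ring
theorem tvm {p c x : ℝ} (h1 : -1 / 10 ≤ p) (h2 : p ≤ 1 / 10) : dt62.val (fun p x => kcg.v p x) p c x = (145411 / 1250000 + (x - 148977 / 200000) * (311799 / 2000000)) + (5363 / 40000 + (x - 148977 / 200000) * (5369 / 200000)) * p + (-29259 / 50000 + (x - 148977 / 200000) * (-15487 / 2500)) * p ^ 2 := by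
  rcases eq_or_lt_of_le h1 with h | h1
  · subst h
    refine (DT.val_le (by simp only [Cn.rt_v, Cn.ng_v]; push_cast; linarith)).trans ?_
    refine (DT.val_gt (by simp only [Cn.rt_v, Cn.ng_v]; push_cast; linarith)).trans ?_
    refine (DT.val_gt (by simp only [Cn.rt_v, Cn.ng_v]; push_cast; linarith)).trans ?_
    refine (DT.val_gt (by simp only [Cn.rt_v, Cn.ng_v]; push_cast; linarith)).trans ?_
    simp only [dt37, DT.val, sw37, sl37, sv37]
    ((try push_cast); ring1)
  ·
    refine (DT.val_gt (by simp only [Cn.rt_v, Cn.ng_v]; push_cast; linarith)).trans ?_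
    refine (DT.val_le (by simp only [Cn.rt_v, Cn.ng_v]; push_cast; linarith)).trans ?_
    refine (DT.val_le (by simp only [Cn.rt_v, Cn.ng_v]; push_cast; linarith)).trans ?_
    refine (DT.val_le (by simp only [Cn.rt_v, Cn.ng_v]; push_cast; linarith)).trans ?_
    simp only [dt38, DT.val, sw38, sl38, sv38]
    ((try push_cast); ring1)
theorem tn_ (x : ℝ) : ∀ X, |X| ≤ vv.k1.v → dd.tF x (-X) - dd.tF x X = m0c.v x * X := by
  intro X h
  have h : |X| ≤ 1 / 16 := by
    refine h.trans_eq ?_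
    show (Cn.rt 1 16).v = _
    rw [Cn.rt_v]
    norm_num
  obtain ⟨h1, h2⟩ := abs_le.1 h
  show dt62.val (fun p x => kcg.v p x) (-X) (cT (-X)) x - dt62.val (fun p x => kcg.v p x) X (cT X) x = _
  rw [tvm (by linarith) (by linarith), tvm (by linarith) (by linarith)]
  simp only [m0c]
  push_cast
  ring
theorem vK_ (x : ℝ) : ∀ y, InQ 2 y → tK 1 2 y x = crv PP 1 2 y * bf1q2.v y x := by
  intro y h
  rw [yK12 h, ecv1q2]
  simp only [kf1q2]
theorem vX_ (x : ℝ) : ∀ y, InQ 2 y → tL 1 2 y x = crv PP 1 2 y * bx1q2.v y x := by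
  intro y h
  rw [yL12 h, ecv1q2]
  simp only [l1q2]
theorem n0_rK (y x : ℝ) : n0b.v y x = (1 - (y - 1) * k0c.v x) := by
  simp only [n0b, k0c]
  all_goals (try push_cast)
  all_goals (try ring)
theorem rK_ (x : ℝ) : ∀ y, OnC (0 : Fin 6) 2 y → c1n y < crv PP 1 2 y →
    rhk.v y x * (crv PP 1 2 y - c1n y) = crv PP 1 2 y * (bf1q2.v y x - (1 - (y - 1) * k0c.v x)) := by
  intro y h hlt
  rw [ecv1q2, ← c1g_v] at hlt ⊢
  have hd : 0 < cv1p.v y - c1g.v y := sub_pos.2 hlt
  have hi := inv_mul_cancel₀ hd.ne'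
  rw [← n0_rK]
  simp only [rhk]
  linear_combination ((bf1q2.v y x - n0b.v y x) * cv1p.v y) * hi
theorem n0_rX (y x : ℝ) : n0x.v y x = m0c.v x := by
  simp only [n0x, m0c]
  all_goals (try push_cast)
  all_goals (try ring)
theorem rX_ (x : ℝ) : ∀ y, OnC (0 : Fin 6) 2 y → c1n y < crv PP 1 2 y →
    rhx.v y x * (crv PP 1 2 y - c1n y) = crv PP 1 2 y * (bx1q2.v y x - m0c.v x) := by
  intro y h hlt
  rw [ecv1q2, ← c1g_v] at hlt ⊢
  have hd : 0 < cv1p.v y - c1g.v y := sub_pos.2 hlt
  have hi := inv_mul_cancel₀ hd.ne'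
  rw [← n0_rX]
  simp only [rhx]
  linear_combination ((bx1q2.v y x - n0x.v y x) * cv1p.v y) * hi
theorem flat_ (x : ℝ) : ∀ y, InQ 2 y → vv.ya.v ≤ y → y ≤ vv.yb.v → bf1q2.v y x = 1 - (y - 1) * k0c.v x ∧ bx1q2.v y x = m0c.v x := by
  intro y h h1 h2
  have ea : vv.ya.v = 577 / 500 := by
    show (Cn.rt 577 500).v = _
    rw [Cn.rt_v]
    norm_num
  have eb : vv.yb.v = 231 / 200 := by
    show (Cn.rt 231 200).v = _
    rw [Cn.rt_v]
    norm_num
  rw [ea] at h1
  rw [eb] at h2
  constructor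
  · simp only [bf1q2, bf1q2_3, k0c]
    rcases eq_or_lt_of_le h1 with g | h1
    · subst g
      ((try push_cast); (repeat first | rw [if_pos (by linarith)] | rw [if_neg (by linarith)] | erw [if_pos (by linarith)] | erw [if_neg (by linarith)]); (try push_cast); (try ring1))
    rcases eq_or_lt_of_le h2 with g | h2
    · subst g
      ((try push_cast); (repeat first | rw [if_pos (by linarith)] | rw [if_neg (by linarith)] | erw [if_pos (by linarith)] | erw [if_neg (by linarith)]); (try push_cast); (try ring1))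
    · ((try push_cast); (repeat first | rw [if_pos (by linarith)] | rw [if_neg (by linarith)] | erw [if_pos (by linarith)] | erw [if_neg (by linarith)]); (try push_cast); (try ring1))
  · simp only [bx1q2, bx1q2_3, m0c]
    rcases eq_or_lt_of_le h1 with g | h1
    · subst g
      ((try push_cast); (repeat first | rw [if_pos (by linarith)] | rw [if_neg (by linarith)] | erw [if_pos (by linarith)] | erw [if_neg (by linarith)]); (try push_cast); (try ring1))
    rcases eq_or_lt_of_le h2 with g | h2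
    · subst g
      ((try push_cast); (repeat first | rw [if_pos (by linarith)] | rw [if_neg (by linarith)] | erw [if_pos (by linarith)] | erw [if_neg (by linarith)]); (try push_cast); (try ring1))
    · ((try push_cast); (repeat first | rw [if_pos (by linarith)] | rw [if_neg (by linarith)] | erw [if_pos (by linarith)] | erw [if_neg (by linarith)]); (try push_cast); (try ring1))
theorem abk_ (x : ℝ) : ∀ y, InQ 2 y → vv.yb.v ≤ y → y ≤ vv.yk.v → bf1q2.v y x = 1 - (y - 1) * k0c.v x + sbk.v x * (y - vv.yb.v) ∧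
    bx1q2.v y x = m0c.v x + sbx.v x * (y - vv.yb.v) := by
  intro y h h1 h2
  have eb : vv.yb.v = 231 / 200 := by
    show (Cn.rt 231 200).v = _
    rw [Cn.rt_v]
    norm_num
  have ek : vv.yk.v = 1213 / 1000 := by
    show (Cn.rt 1213 1000).v = _
    rw [Cn.rt_v]
    norm_num
  rw [eb] at h1 ⊢
  rw [ek] at h2
  constructor
  · simp only [bf1q2, bf1q2_3, k0c, sbk]
    rcases eq_or_lt_of_le h1 with g | h1
    · subst g
      ((try push_cast); (repeat first | rw [if_pos (by linarith)] | rw [if_neg (by linarith)] | erw [if_pos (by linarith)] | erw [if_neg (by linarith)]); (try push_cast); (try ring1))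
    rcases eq_or_lt_of_le h2 with g | h2
    · subst g
      ((try push_cast); (repeat first | rw [if_pos (by linarith)] | rw [if_neg (by linarith)] | erw [if_pos (by linarith)] | erw [if_neg (by linarith)]); (try push_cast); (try ring1))
    · ((try push_cast); (repeat first | rw [if_pos (by linarith)] | rw [if_neg (by linarith)] | erw [if_pos (by linarith)] | erw [if_neg (by linarith)]); (try push_cast); (try ring1))
  · simp only [bx1q2, bx1q2_3, m0c, sbx]
    rcases eq_or_lt_of_le h1 with g | h1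
    · subst g
      ((try push_cast); (repeat first | rw [if_pos (by linarith)] | rw [if_neg (by linarith)] | erw [if_pos (by linarith)] | erw [if_neg (by linarith)]); (try push_cast); (try ring1))
    rcases eq_or_lt_of_le h2 with g | h2
    · subst g
      ((try push_cast); (repeat first | rw [if_pos (by linarith)] | rw [if_neg (by linarith)] | erw [if_pos (by linarith)] | erw [if_neg (by linarith)]); (try push_cast); (try ring1))
    · ((try push_cast); (repeat first | rw [if_pos (by linarith)] | rw [if_neg (by linarith)] | erw [if_pos (by linarith)] | erw [if_neg (by linarith)]); (try push_cast); (try ring1))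
theorem ka_dt63 (x : ℝ) : dt63.kv (-181 / 1406) x = (-36001913792625793 / 347428927000000000000 + (x - 148977 / 200000) * (70672837227058137 / 13897157080000000000) + (x - 148977 / 200000) ^ 2 * (798296727 / 98841800000)) := by
  simp only [dt63, DT.kv, sw63, sw63_2, sl63, sl63_2, sv63, sv63_2]
  ((try push_cast); ring1)
theorem kb_dt63 (x : ℝ) : dt63.kv (-1 / 10) x = (0) := by
  simp only [dt63, DT.kv, sw63, sw63_2, sl63, sl63_2, sv63, sv63_2]
  ((try push_cast); ring1)
theorem ka_dt64 (x : ℝ) : dt64.kv (-1 / 10) x = (0) := by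
  simp only [dt64, DT.kv, sl64, sv64]
  ((try push_cast); ring1)
theorem kb_dt64 (x : ℝ) : dt64.kv (1 / 10) x = (0) := by
  simp only [dt64, DT.kv, sl64, sv64]
  ((try push_cast); ring1)
theorem ka_dt65 (x : ℝ) : dt65.kv (1 / 10) x = (0) := by
  simp only [dt65, DT.kv, sw65, sw65_2, sl65, sl65_2, sv65, sv65_2]
  ((try push_cast); ring1)
theorem kb_dt65 (x : ℝ) : dt65.kv (181 / 1406) x = (36001913792625793 / 347428927000000000000 + (x - 148977 / 200000) * (-70672837227058137 / 13897157080000000000) + (x - 148977 / 200000) ^ 2 * (-798296727 / 98841800000)) := by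
  simp only [dt65, DT.kv, sw65, sw65_2, sl65, sl65_2, sv65, sv65_2]
  ((try push_cast); ring1)
theorem ka_dt66 (x : ℝ) : dt66.kv (-1 / 10) x = (0) :=
  (DT.kv_le (by simp only [Cn.rt_v, Cn.ng_v]; norm_num)).trans (ka_dt64 x)
theorem kb_dt66 (x : ℝ) : dt66.kv (181 / 1406) x = (36001913792625793 / 347428927000000000000 + (x - 148977 / 200000) * (-70672837227058137 / 13897157080000000000) + (x - 148977 / 200000) ^ 2 * (-798296727 / 98841800000)) :=
  (DT.kv_gt (by simp only [Cn.rt_v, Cn.ng_v]; norm_num)).trans (kb_dt65 x)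
theorem ka_dt67 (x : ℝ) : dt67.kv (-181 / 1406) x = (-36001913792625793 / 347428927000000000000 + (x - 148977 / 200000) * (70672837227058137 / 13897157080000000000) + (x - 148977 / 200000) ^ 2 * (798296727 / 98841800000)) :=
  (DT.kv_le (by simp only [Cn.rt_v, Cn.ng_v]; norm_num)).trans (ka_dt63 x)
theorem kb_dt67 (x : ℝ) : dt67.kv (181 / 1406) x = (36001913792625793 / 347428927000000000000 + (x - 148977 / 200000) * (-70672837227058137 / 13897157080000000000) + (x - 148977 / 200000) ^ 2 * (-798296727 / 98841800000)) :=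
  (DT.kv_gt (by simp only [Cn.rt_v, Cn.ng_v]; norm_num)).trans (kb_dt66 x)
theorem ko_dt63 (x : ℝ) : dt63.KOk x := trivial
theorem ko_dt64 (x : ℝ) : dt64.KOk x := trivial
theorem ko_dt65 (x : ℝ) : dt65.KOk x := trivial
theorem ko_dt66 (x : ℝ) : dt66.KOk x :=
  DT.kOk_node (v := 1 / 10) (by simp only [Cn.rt_v, Cn.ng_v]; norm_num) (kb_dt64 x) (ka_dt65 x) (by ring1) (ko_dt64 x) (ko_dt65 x)
theorem ko_dt67 (x : ℝ) : dt67.KOk x :=
  DT.kOk_node (v := -1 / 10) (by simp only [Cn.rt_v, Cn.ng_v]; norm_num) (kb_dt63 x) (ka_dt66 x) (by ring1) (ko_dt63 x) (ko_dt66 x)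
theorem phl0 {p x : ℝ} (h2 : p ≤ -1 / 10) : dt67.kv p x = (-125323505486374207 / 99830218000000000000 + (x - 148977 / 200000) * (245999463527341863 / 3993208720000000000) + (x - 148977 / 200000) ^ 2 * (2778198113 / 28401200000)) + (-250640378141774207 / 9983021800000000000 + (x - 148977 / 200000) * (491989107096781863 / 399320872000000000) + (x - 148977 / 200000) ^ 2 * (5556403497 / 2840120000)) * p + (-12553 / 100000 + (x - 148977 / 200000) * (30801 / 5000) + (x - 148977 / 200000) ^ 2 * (4891 / 500)) * p ^ 2 := by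
  refine (DT.kv_le (by simp only [Cn.rt_v, Cn.ng_v]; push_cast; linarith)).trans ?_
  simp only [dt63, DT.kv, sw63, sw63_2, sl63, sl63_2, sv63, sv63_2]
  ((try push_cast); ring1)
theorem phl1 {p x : ℝ} (h1 : -1 / 10 < p) (h2 : p ≤ 1 / 10) : dt67.kv p x = (0) + (0) * p := by
  refine (DT.kv_gt (by simp only [Cn.rt_v, Cn.ng_v]; push_cast; linarith)).trans ?_
  refine (DT.kv_le (by simp only [Cn.rt_v, Cn.ng_v]; push_cast; linarith)).trans ?_
  simp only [dt64, DT.kv, sl64, sv64]
  ((try push_cast); ring1)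
theorem phl2 {p x : ℝ} (h1 : 1 / 10 < p) (h2 : p ≤ 181 / 1406) : dt67.kv p x = (125323505486374207 / 99830218000000000000 + (x - 148977 / 200000) * (-245999463527341863 / 3993208720000000000) + (x - 148977 / 200000) ^ 2 * (-2778198113 / 28401200000)) + (-250640378141774207 / 9983021800000000000 + (x - 148977 / 200000) * (491989107096781863 / 399320872000000000) + (x - 148977 / 200000) ^ 2 * (5556403497 / 2840120000)) * p + (12553 / 100000 + (x - 148977 / 200000) * (-30801 / 5000) + (x - 148977 / 200000) ^ 2 * (-4891 / 500)) * p ^ 2 := by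
  refine (DT.kv_gt (by simp only [Cn.rt_v, Cn.ng_v]; push_cast; linarith)).trans ?_
  refine (DT.kv_gt (by simp only [Cn.rt_v, Cn.ng_v]; push_cast; linarith)).trans ?_
  simp only [dt65, DT.kv, sw65, sw65_2, sl65, sl65_2, sv65, sv65_2]
  ((try push_cast); ring1)
theorem tvc7 {p x : ℝ} (h1 : -3 / 20 ≤ p) (h2 : p ≤ -1 / 10) : dt62.val (fun p x => kcg.v p x) p (cT p) x = (1279931 / 10000000 + (x - 148977 / 200000) * (880609 / 2000000)) + (1148 / 3125 + (x - 148977 / 200000) * (1142989 / 200000)) * p + (14531 / 25000 + (x - 148977 / 200000) * (222457 / 10000)) * p ^ 2 := by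
  rcases eq_or_lt_of_le h1 with h | h1
  · subst h
    refine (DT.val_le (by simp only [Cn.rt_v, Cn.ng_v]; push_cast; linarith)).trans ?_
    refine (DT.val_gt (by simp only [Cn.rt_v, Cn.ng_v]; push_cast; linarith)).trans ?_
    refine (DT.val_gt (by simp only [Cn.rt_v, Cn.ng_v]; push_cast; linarith)).trans ?_
    refine (DT.val_le (by simp only [Cn.rt_v, Cn.ng_v]; push_cast; linarith)).trans ?_
    simp only [dt36, DT.val, sw36, sl36, sv36]
    ((try push_cast); ring1)
  ·
    refine (DT.val_le (by simp only [Cn.rt_v, Cn.ng_v]; push_cast; linarith)).trans ?_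
    refine (DT.val_gt (by simp only [Cn.rt_v, Cn.ng_v]; push_cast; linarith)).trans ?_
    refine (DT.val_gt (by simp only [Cn.rt_v, Cn.ng_v]; push_cast; linarith)).trans ?_
    refine (DT.val_gt (by simp only [Cn.rt_v, Cn.ng_v]; push_cast; linarith)).trans ?_
    simp only [dt37, DT.val, sw37, sl37, sv37]
    ((try push_cast); ring1)
theorem tvc8 {p x : ℝ} (h1 : -1 / 10 ≤ p) (h2 : p ≤ 1 / 10) : dt62.val (fun p x => kcg.v p x) p (cT p) x = (145411 / 1250000 + (x - 148977 / 200000) * (311799 / 2000000)) + (5363 / 40000 + (x - 148977 / 200000) * (5369 / 200000)) * p + (-29259 / 50000 + (x - 148977 / 200000) * (-15487 / 2500)) * p ^ 2 := by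
  rcases eq_or_lt_of_le h1 with h | h1
  · subst h
    refine (DT.val_le (by simp only [Cn.rt_v, Cn.ng_v]; push_cast; linarith)).trans ?_
    refine (DT.val_gt (by simp only [Cn.rt_v, Cn.ng_v]; push_cast; linarith)).trans ?_
    refine (DT.val_gt (by simp only [Cn.rt_v, Cn.ng_v]; push_cast; linarith)).trans ?_
    refine (DT.val_gt (by simp only [Cn.rt_v, Cn.ng_v]; push_cast; linarith)).trans ?_
    simp only [dt37, DT.val, sw37, sl37, sv37]
    ((try push_cast); ring1)
  ·
    refine (DT.val_gt (by simp only [Cn.rt_v, Cn.ng_v]; push_cast; linarith)).trans ?_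
    refine (DT.val_le (by simp only [Cn.rt_v, Cn.ng_v]; push_cast; linarith)).trans ?_
    refine (DT.val_le (by simp only [Cn.rt_v, Cn.ng_v]; push_cast; linarith)).trans ?_
    refine (DT.val_le (by simp only [Cn.rt_v, Cn.ng_v]; push_cast; linarith)).trans ?_
    simp only [dt38, DT.val, sw38, sl38, sv38]
    ((try push_cast); ring1)
theorem tvc9 {p x : ℝ} (h1 : 1 / 10 ≤ p) (h2 : p ≤ 181 / 1406) : dt62.val (fun p x => kcg.v p x) p (cT p) x = (12652255570009425793 / 99830218000000000000 + (x - 148977 / 200000) * (2004227232382581863 / 3993208720000000000) + (x - 148977 / 200000) ^ 2 * (2778198113 / 28401200000)) + (-739775214636225793 / 9983021800000000000 + (x - 148977 / 200000) * (-2752646390311141863 / 399320872000000000) + (x - 148977 / 200000) ^ 2 * (-5556403497 / 2840120000)) * p + (45571 / 100000 + (x - 148977 / 200000) * (284059 / 10000) + (x - 148977 / 200000) ^ 2 * (4891 / 500)) * p ^ 2 := by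
  rcases eq_or_lt_of_le h1 with h | h1
  · subst h
    refine (DT.val_gt (by simp only [Cn.rt_v, Cn.ng_v]; push_cast; linarith)).trans ?_
    refine (DT.val_le (by simp only [Cn.rt_v, Cn.ng_v]; push_cast; linarith)).trans ?_
    refine (DT.val_le (by simp only [Cn.rt_v, Cn.ng_v]; push_cast; linarith)).trans ?_
    refine (DT.val_le (by simp only [Cn.rt_v, Cn.ng_v]; push_cast; linarith)).trans ?_
    simp only [dt38, DT.val, sw38, sl38, sv38]
    ((try push_cast); ring1)
  ·
    refine (DT.val_gt (by simp only [Cn.rt_v, Cn.ng_v]; push_cast; linarith)).trans ?_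
    refine (DT.val_le (by simp only [Cn.rt_v, Cn.ng_v]; push_cast; linarith)).trans ?_
    refine (DT.val_le (by simp only [Cn.rt_v, Cn.ng_v]; push_cast; linarith)).trans ?_
    refine (DT.val_gt (by simp only [Cn.rt_v, Cn.ng_v]; push_cast; linarith)).trans ?_
    simp only [dt39, DT.val, sw39, sw39_2, sl39, sl39_2, sv39, sv39_2]
    ((try push_cast); ring1)
theorem ph_ (x : ℝ) : ∀ u, |u| ≤ vv.k2.v → dd.tF x (-u) - dd.tF x u = m0c.v x * u + dt67.kv u x := by
  intro u h
  have h : |u| ≤ 181 / 1406 := by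
    refine h.trans_eq ?_
    show (Cn.rt 181 1406).v = _
    rw [Cn.rt_v]
    norm_num
  obtain ⟨h1, h2⟩ := abs_le.1 h
  show dt62.val (fun p x => kcg.v p x) (-u) (cT (-u)) x - dt62.val (fun p x => kcg.v p x) u (cT u) x = _
  rcases le_or_gt u (-1 / 10) with g0 | g1000
  ·
    rw [tvc9 (p := -u) (by linarith) (by linarith), tvc7 (p := u) (by linarith) (by linarith), phl0 g0]
    simp only [m0c]
    push_cast
    ring
  rcases le_or_gt u (1 / 10) with g1 | g1001
  ·
    rw [tvc8 (p := -u) (by linarith) (by linarith), tvc8 (p := u) (by linarith) (by linarith), phl1 g1000 g1]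
    simp only [m0c]
    push_cast
    ring
  ·
    rw [tvc7 (p := -u) (by linarith) (by linarith), tvc9 (p := u) (by linarith) (by linarith), phl2 g1001 (by linarith)]
    simp only [m0c]
    push_cast
    ring
theorem kqf_ {y : ℝ} (x : ℝ) (h : OnC (0 : Fin 6) 2 y) : kqf.v y x * c1g.v y = (y - 1) * kcg.v (c1g.v y) x := by
  have h0 : 0 ≤ c1g.v y := by rw [c1g_v]; exact c1n_nn y
  simp only [kqf]
  (try push_cast)
  split_ifs with hh
  · rw [kcl7 (p := c1g.v y) (by linarith) (by linarith)]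
    ring
  · have hc : c1g.v y ≠ 0 := by
      intro e
      rw [e] at hh
      exact hh (by norm_num)
    have hi := inv_mul_cancel₀ hc
    linear_combination ((y - 1) * kcg.v (c1g.v y) x) * hi
theorem sM_ (x : ℝ) : ∀ y, OnC (0 : Fin 6) 2 y → c1n y < crv PP 1 2 y →
    (1 + skm.v y x) * (crv PP 1 2 y - c1n y) = tK 1 2 y x - tK 0 2 y x := by
  intro y h hlt
  rw [yK12 h.1, yK02 h]
  rw [ecv1q2, ← c1g_v] at hlt ⊢
  have hd : 0 < cv1p.v y - c1g.v y := sub_pos.2 hlt
  have hi := inv_mul_cancel₀ hd.ne'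
  have hb : |c1g.v y| ≤ 1 / 2 := by rw [c1g_v]; exact bnd_O h
  have eo := odd (x := x) hb
  have hk := kqf_ x h
  simp only [skm, kf1q2, kf0q2, eo]
  (try push_cast)
  linear_combination (cv1p.v y * ((bf1q2.v y x - 1) + kqf.v y x)) * hi + hk
theorem ok (x : ℝ) : tt.Ok PP tK tL x where
  i0 := rfl
  il := rfl
  rl := by
    show 1 < PP.ρ 4
    have e : PP.ρ 4 = 8 / 5 := rfl
    rw [e]
    norm_num
  ok := dok x
  kh := rfl
  odd := fun p h => odd h
  K0 := K0_ x
  L0 := L0_ x
  Kn := Kn_ x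
  Ln := Ln_ x
  f0 := f0_
  fn := fn_
  sK0 := sK0_ x
  sX0 := sX0_ x
  sKn := sKn_ x
  sXn := sXn_ x
  k1 := by
    show 0 ≤ (Cn.rt 1 16).v ∧ (Cn.rt 1 16).v ≤ 1 / 2
    rw [Cn.rt_v]
    constructor <;> norm_num
  kn := kn_ x
  tn := tn_ x
  vK := vK_ x
  vX := vX_ x
  rK := rK_ x
  rX := rX_ x
  yb := by
    show 0 ≤ (Cn.rt 231 200).v ∧ 1 ≤ 3 / 4 * (Cn.rt 231 200).v ^ 2
    rw [Cn.rt_v]
    constructor <;> norm_num
  flat := flat_ x
  abk := abk_ x
  phk := ko_dt67 x
  ph := ph_ x
  sM := sM_ x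
  yz := by
    show (Cn.rt 577 500).v ≤ (Cn.rt 577 500).v ∧ 0 ≤ (Cn.rt 577 500).v ∧ 1 ≤ 3 / 4 * (Cn.rt 577 500).v ^ 2 + (Cn.rt 1 16).v ^ 2
    simp only [Cn.rt_v]
    refine ⟨?_, ?_, ?_⟩ <;> norm_num
theorem okx {x : ℝ} (hx : ((780900216 : ℕ) : ℝ) / S ≤ x) (hx' : x ≤ (((780900216 : ℕ) : ℝ) + (37827925 : ℕ)) / S) : tt.Ok PP tK tL x := ok x

end Pool.Agent.Strip051.G.I72727_7625.Tab.St
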