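import Pool.Agent.Strip051.G.I72727_7625.StH
import Pool.Agent.Strip051.G.I72727_7625.StF

/-! # Unit strips 1 (generated) -/

set_option linter.all false
set_option maxRecDepth 100000

namespace Pool.Agent.Strip051.G.I72727_7625.Tab.St.C

open Pool.Agent.Strip051.PB Pool.Agent.Strip051.PB.T Pool.Agent.StripNear Pool.Agent.Strip051.LC
open Pool.Agent.Strip051.G.I72727_7625.Tab Pool.Agent.Strip051.G.I72727_7625.Tab.St

noncomputable def cut_A00pm_012_s1 : Cut := Cut.of [[⟨4, 0, 0, 1449551462⟩], [⟨0, 0, 0, 67108864⟩, ⟨1, 1, 0, 67108864⟩, ⟨2, 1, 0, 67108864⟩]]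

noncomputable def xt_A00pm_012_s1 : Ext := strExt dd true true false .u0 .u0m .u2 .pnp 0 1 2 rfl rfl gf2 vv ndB0q0 ndB0q1

noncomputable def f_A00pm_012_s1 : ℕ → ℕ → ℕ → ℕ → Bool := onCell 1073741824 536870912 536870912 536870912 780900216 37827925
    (rowF 2 true true false .pnp 0 1 2 (qsf 0 536870912 536870912 536870912 2) ndB0q0 ndB0q1 pcB2 cut_A00pm_012_s1 xt_A00pm_012_s1)

def k0_A00pm_012_s1 : ∃ t, chk3 f_A00pm_012_s1 t 4 2 1 = true :=
  ⟨(a (l 3) (l 3)), by decide +kernel⟩

def k1_A00pm_012_s1 : ∃ t, chk3 f_A00pm_012_s1 t 8 6 1 = true :=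
  ⟨(l 3), by decide +kernel⟩

def k2_A00pm_012_s1 : ∃ t, chk3 f_A00pm_012_s1 t 18 12 1 = true :=
  ⟨(l 3), by decide +kernel⟩

def k3_A00pm_012_s1 : ∃ t, chk3 f_A00pm_012_s1 t 38 12 1 = true :=
  ⟨(l 3), by decide +kernel⟩

def k4_A00pm_012_s1 : ∃ t, chk3 f_A00pm_012_s1 t 39 24 1 = true :=
  ⟨(l 3), by decide +kernel⟩

def k5_A00pm_012_s1 : ∃ t, chk3 f_A00pm_012_s1 t 78 25 1 = true :=
  ⟨(a (l 3) (a (l 3) (b (l 3) (b (l 3) (b (l 3) (b (l 3) (l 531442047))))))), by decide +kernel⟩

def k6_A00pm_012_s1 : ∃ t, chk3 f_A00pm_012_s1 t 158 50 1 = true :=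
  ⟨(l 3), by decide +kernel⟩

def k7_A00pm_012_s1 : ∃ t, chk3 f_A00pm_012_s1 t 159 100 1 = true :=
  ⟨(c (b (l 3) (a (l 3) (a (l 3) (b (l 3) (a (l 3) (b (a (l 3) (l 531684735)) (a (a (a (l 3) (a (l 3) (l 531689855))) (l 531689599)) (l 531688575)))))))) (a (l 3) (b (l 3) (b (l 3) (a (l 3) (a (l 3) (b (a (l 3) (l 531706495)) (a (a (a (l 3) (a (l 3) (l 531708799))) (l 531709055)) (l 531709055))))))))), by decide +kernel⟩

def k8_A00pm_012_s1 : ∃ t, chk3 f_A00pm_012_s1 t 159 101 1 = true :=
  ⟨(a (a (l 3) (b (l 3) (c (c (l 531608191) (l 531621247)) (c (l 531626879) (l 531624319))))) (c (c (a (b (a (b (l 3) (l 531642751)) (c (l 531651711) (l 531662207))) (l 531617151)) (b (b (c (a (l 531805567) (b (a (c (l 531671823) (l 531678223)) (l 531673615)) (l 531665167))) (a (l 531816719) (b (b (a (l 531687183) (l 531685759)) (l 531683087)) (l 531676175)))) (a (l 531652223) (a (l 531655551) (l 531657087)))) (a (l 531623807) (l 531628159)))) (a (b (a (b (l 3) (l 531658367)) (c (l 531670399) (l 531676287)))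 (l 531630719)) (b (a (b (b (c (l 531693695) (l 531700351)) (l 531683967)) (l 531668095)) (b (c (b (a (c (l 531693583) (l 531697679)) (l 531695119)) (l 531684879)) (b (b (a (l 531770383) (l 531702911)) (l 531698959)) (l 531691279))) (a (l 531671679) (l 531673471)))) (a (l 531637631) (l 531641983))))) (a (c (b (a (b (l 3) (l 531665535)) (c (l 531680383) (l 531681919))) (l 531635583)) (b (c (l 531679103) (l 531676799)) (l 531632255))) (b (c (a (b (b (c (l 531704703) (l 531707007)) (l 531691903)) (l 531675007)) (b (c (b (b (a (l 531707663) (l 531707775)) (l 531703567)) (l 531695375)) (b (b (a (l 531709967) (l 531710335)) (l 531705615)) (l 531697167))) (a (l 531678591) (l 531680639)))) (a (b (c (l 531704447) (l 531702143)) (l 531672959)) (b (c (b (a (b (l 531709711) (l 531704447)) (l 531709711)) (l 531696399)) (b (b (l 531707919) (l 531702911)) (l 531693695))) (c (l 531678735) (l 531674895))))) (c (a (l 531642239) (l 531646591)) (a (l 531638143) (l 531642239))))))), by decide +kernel⟩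

def k9_A00pm_012_s1 : ∃ t, chk3 f_A00pm_012_s1 t 79 51 1 = true :=
  ⟨(a (c (b (a (l 3) (a (b (l 3) (b (l 3) (l 531515663))) (c (l 531541119) (l 531550079)))) (c (a (b (a (l 3) (l 531483775)) (c (l 531454479) (l 531457295))) (b (l 531494783) (l 531469583))) (a (b (a (l 3) (l 531489407)) (a (l 531456639) (l 531463039))) (b (l 531500159) (l 531472767))))) (b (a (l 3) (c (b (l 531566863) (l 531531903)) (l 531545727))) (c (a (b (a (l 3) (l 531490175)) (l 531458831)) (b (l 531499647) (l 531469951))) (a (b (l 531483663) (l 531453199)) (l 531476495))))) (c (b (a (c (l 531553295) (l 531562511)) (a (c (l 531565695) (l 531574911)) (c (l 531573631) (l 531583103)))) (a (c (l 531496063) (l 531499903)) (c (l 531510143) (l 531514239)))) (b (a (c (l 531564159) (l 531558527)) (a (l 531573007) (c (l 531583615) (l 531575423)))) (a (c (l 531496575) (l 531486079)) (c (l 531509631) (l 531496831)))))), by decide +kernel⟩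

def k10_A00pm_012_s1 : ∃ t, chk3 f_A00pm_012_s1 t 18 13 1 = true :=
  ⟨(a (l 3) (b (l 3) (a (l 3) (b (l 3) (a (l 3) (l 531401087)))))), by decide +kernel⟩

def k11_A00pm_012_s1 : ∃ t, chk3 f_A00pm_012_s1 t 38 26 1 = true :=
  ⟨(b (l 3) (a (l 3) (a (b (l 3) (l 531392127)) (a (l 531613455) (l 531738895))))), by decide +kernel⟩

def k12_A00pm_012_s1 : ∃ t, chk3 f_A00pm_012_s1 t 76 27 1 = true :=
  ⟨(b (a (b (l 3) (l 531407743)) (b (c (l 531457551) (l 531456271)) (l 531523855))) (a (b (l 531457151) (l 531506047)) (a (l 531830399) (b (l 531599743) (l 531653503))))), by decide +kernel⟩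

def k13_A00pm_012_s1 : ∃ t, chk3 f_A00pm_012_s1 t 77 54 1 = true :=
  ⟨(a (b (a (l 531456527) (l 531439999)) (a (l 531516431) (b (l 531482495) (l 531511679)))) (b (a (l 531422079) (l 531409791)) (a (b (l 531462271) (l 531489663)) (b (l 531447935) (l 531205759))))), by decide +kernel⟩

def k14_A00pm_012_s1 : ∃ t, chk3 f_A00pm_012_s1 t 154 55 1 = true :=
  ⟨(a (b (l 531579007) (b (l 531627903) (l 531661327))) (b (a (l 531562367) (l 531550591)) (b (l 531603215) (a (l 531641983) (l 531628415))))), by decide +kernel⟩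

def k15_A00pm_012_s1 : ∃ t, chk3 f_A00pm_012_s1 t 155 55 1 = true :=
  ⟨(a (b (b (l 531517823) (l 531546639)) (c (c (b (l 531561599) (a (l 531597695) (b (l 16756288) (b (l 16755352) (a (l 16755064) (b (a (l 16754704) (l 16754352)) (l 16754208))))))) (a (l 531592319) (b (l 531564415) (b (l 16756328) (b (a (l 16755728) (l 16755040)) (a (l 16755104) (b (a (l 16754744) (l 16754392)) (l 16754248)))))))) (a (l 531612943) (b (l 531582335) (b (l 531605119) (a (b (l 16755808) (b (l 16755336) (a (l 16755200) (l 16754856)))) (a (b (l 16755288) (b (l 16754824) (b (l 16754584) (l 16754432)))) (b (l 16754944) (b (b (l 16754552) (l 16754400)) (l 16754176)))))))))) (b (a (l 531782671) (l 531784063)) (b (a (a (l 531559039) (l 531554943)) (a (l 531557247) (b (l 16755792) (b (l 16754864) (a (b (l 16754560) (c (l 16754232) (l 16754288))) (b (c (l 16754216) (l 16754264)) (a (l 16754008) (l 16753848)))))))) (a (b (b (l 531843599) (a (c (l 16754960) (l 16755040)) (a (a (b (l 16754712) (c (l 16754368) (l 16754448)))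 (b (l 16754544) (b (l 16754312) (l 16754160)))) (b (c (l 16754272) (a (l 16754432) (l 16754264))) (c (l 16753952) (l 16754048)))))) (a (b (a (b (l 16754696) (b (a (l 16754552) (l 16754376)) (l 16754304))) (b (c (l 16754312) (b (l 16754480) (l 16754320))) (l 16754040))) (c (l 16753688) (l 16753824))) (a (c (b (l 16753808) (l 16753176)) (b (l 16753920) (l 16753328))) (c (l 16753160) (l 16753304))))) (b (b (a (a (b (l 16754600) (c (l 16754256) (a (l 16754416) (l 16754248)))) (b (c (l 16754248) (l 16754312)) (c (l 16753928) (l 16754008)))) (c (a (l 16753760) (l 16753432)) (a (l 16753840) (l 16753520)))) (c (c (l 16755896) (l 16755936)) (a (c (l 16753688) (l 16753760)) (l 16753088)))) (c (c (l 16752320) (l 16752384)) (l 16752520))))))), by decide +kernel⟩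

def k16_A00pm_012_s1 : ∃ t, chk3 f_A00pm_012_s1 t 39 26 1 = true :=
  ⟨(a (b (a (b (l 3) (l 531091327)) (a (l 531653903) (l 531662351))) (a (b (l 531070847) (l 531478143)) (b (l 531080575) (a (l 531079039) (l 531349631))))) (b (a (c (a (b (c (l 531424527) (l 531425407)) (l 531390591)) (c (l 531685759) (l 531415167))) (a (c (l 531399183) (l 531388943)) (b (l 531425295) (l 531380351)))) (a (c (c (l 531428879) (l 531425807)) (b (l 531433743) (l 531386495))) (c (b (l 531461903) (l 16763504)) (b (l 531443215) (l 531394175))))) (a (a (b (l 531357199) (b (l 16761344) (l 531366671))) (b (b (l 16763088) (l 531357967)) (c (l 531372927) (l 531339903)))) (b (c (a (l 16759232) (l 16756480)) (a (l 531350911) (l 531356943))) (b (c (a (l 16755840) (a (l 16748536) (a (l 16747504) (l 16749432)))) (a (l 16755696) (a (l 16753608) (b (l 16752792) (l 16751640))))) (a (a (b (l 16754776) (l 16748400)) (b (l 16748152) (c (l 16749712) (l 16749528)))) (b (a (a (l 16752352) (l 16751656)) (l 16750632)) (c (l 16750272)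 (l 16750096))))))))), by decide +kernel⟩

def k17_A00pm_012_s1 : ∃ t, chk3 f_A00pm_012_s1 t 78 54 1 = true :=
  ⟨(b (a (l 531447055) (a (l 531411071) (l 531408255))) (c (a (a (l 531462527) (l 531467903)) (a (b (l 16757752) (b (l 16755992) (a (l 16755488) (a (l 16754480) (l 16751184))))) (b (b (l 16755608) (a (l 16755128) (b (l 16754056) (l 16750856)))) (a (b (a (l 16754296) (l 16751000)) (a (b (l 16753416) (l 16752824)) (l 16752448))) (a (b (b (l 16753232) (l 16752648)) (l 16751776)) (l 16756920)))))) (a (a (l 531468927) (l 531464831)) (b (a (l 531445375) (b (l 16755528) (a (l 16755056) (b (l 16753960) (l 16750760))))) (a (b (l 16755944) (a (l 16755448) (a (l 16754416) (l 16751120)))) (a (b (b (l 16754176) (l 16750968)) (a (b (l 16753344) (l 16752760)) (l 16752376))) (a (b (l 16750224) (l 16751712)) (l 16756856)))))))), by decide +kernel⟩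

def k18_A00pm_012_s1 : ∃ t, chk3 f_A00pm_012_s1 t 156 55 1 = true :=
  ⟨(b (a (a (l 531518735) (a (l 531520383) (b (l 531507583) (b (l 16755584) (b (l 16754664) (a (l 16754224) (b (l 16754048) (l 16753736)))))))) (b (a (l 531508351) (b (l 16755640) (a (l 16754776) (b (l 16754400) (a (l 16753968) (l 16751008)))))) (c (a (b (a (l 16754912) (b (l 16754544) (l 16751320))) (a (b (a (l 16754168) (l 16753832)) (l 16753384)) (l 16755648))) (b (a (b (l 16753880) (l 16753272)) (l 16755528)) (l 16752040))) (b (a (a (l 16754912) (b (l 16754536) (l 16751312))) (a (b (l 16753864) (l 16753264)) (b (l 16753192) (l 16752616)))) (a (a (b (a (l 16754168) (l 16753832)) (l 16756024)) (a (l 16755824) (l 16752888))) (a (l 16752400) (l 16751752))))))) (a (b (a (a (b (l 16755128) (a (b (c (l 16754352) (l 16754400)) (c (l 16753728) (l 16753792))) (b (b (c (l 16754176) (l 16754216)) (a (l 16753968) (l 16753808))) (l 16753432)))) (b (b (l 16754776) (a (b (l 16754480) (l 16754176)) (b (l 16754152) (a (l 16753920) (l 16753760)))))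 (c (b (l 16756144) (l 16752904)) (c (l 16755888) (l 16755928))))) (c (b (a (b (a (l 16754272) (l 16753936)) (l 16756104)) (b (l 16756056) (l 16752824))) (a (l 16752560) (l 16751904))) (b (a (b (a (l 16754296) (b (l 16754112) (l 16753808))) (l 16756144)) (b (l 16756088) (l 16752888))) (a (l 16752648) (l 16752008))))) (c (a (b (c (l 16752280) (l 16752328)) (l 16751048)) (b (l 16750992) (l 16749752))) (a (a (l 16752160) (l 16751520)) (l 16750568)))) (b (c (c (a (l 16756760) (l 16750192)) (l 16756136)) (c (l 16756192) (l 16756256))) (c (l 16748416) (l 16748648))))), by decide +kernel⟩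

def k19_A00pm_012_s1 : ∃ t, chk3 f_A00pm_012_s1 t 157 55 1 = true :=
  ⟨(b (c (a (b (a (b (a (l 16754640) (l 16751352)) (a (b (l 16753744) (l 16753144)) (l 16755392))) (b (a (b (l 16753592) (l 16752992)) (l 16752616)) (l 16751768))) (a (b (l 16751912) (l 16750712)) (b (l 16750576) (l 16749384)))) (b (l 16755592) (l 16747984))) (a (b (a (b (a (l 16754600) (l 16751304)) (a (b (l 16753704) (l 16753112)) (b (l 16753032) (l 16752456)))) (b (a (b (l 16753536) (l 16752944)) (l 16752568)) (l 16751760))) (c (l 16750680) (l 16750704))) (b (l 16750344) (l 16748056)))) (a (c (l 16752264) (l 16752464)) (c (l 16744400) (l 16744616)))), by decide +kernel⟩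

def k20_A00pm_012_s1 : ∃ t, chk3 f_A00pm_012_s1 t 79 27 1 = true :=
  ⟨(b (a (b (b (a (l 531392015) (a (l 16754728) (b (l 16753904) (a (l 16753128) (a (l 16752600) (l 16752256)))))) (a (a (l 531420287) (b (l 16754416) (a (l 16753624) (a (l 16753104) (l 16750136))))) (a (b (a (l 16753384) (a (l 16752864) (l 16752512))) (a (b (l 16752528) (l 16751960)) (l 16751560))) (a (c (l 16756736) (l 16751352)) (l 16756000))))) (a (b (a (b (c (a (l 16753896) (l 16753216)) (l 16750832)) (a (b (l 16750360) (l 16752408)) (l 16752016))) (b (a (b (l 16752760) (l 16752192)) (l 16751800)) (l 16756248))) (c (l 16749992) (l 16755176))) (c (l 16751048) (l 16750976)))) (c (b (a (b (a (b (a (l 16752936) (l 16752240)) (l 16751464)) (l 16750648)) (l 16754336)) (l 16747472)) (l 16749600)) (b (a (b (a (b (a (l 16752768) (l 16752064)) (l 16751304)) (l 16750488)) (a (l 16749648) (l 16748280))) (b (l 16748432) (l 16746224))) (l 16749528)))) (a (a (b (b (l 16747672) (l 16745360)) (l 16741872)) (b (l 16743840) (l 16739240)))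 (b (l 16745072) (l 16735288)))), by decide +kernel⟩

def k21_A00pm_012_s1 : ∃ t, chk3 f_A00pm_012_s1 t 8 14 1 = true :=
  ⟨(b (l 3) (b (l 3) (a (l 3) (b (a (l 3) (a (l 3) (a (a (l 3) (l 531174671)) (a (a (l 531767679) (l 531564927)) (a (l 531904383) (b (a (l 531964799) (l 532003967)) (l 531981951))))))) (a (l 3) (a (a (l 3) (l 531179647)) (a (a (l 531569791) (l 531404559)) (a (a (l 531765263) (b (l 531833727) (l 531837055))) (b (a (l 531905919) (a (l 531963519) (l 532003455))) (a (l 531909759) (l 532256015))))))))))), by decide +kernel⟩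

def k22_A00pm_012_s1 : ∃ t, chk3 f_A00pm_012_s1 t 16 15 1 = true :=
  ⟨(b (b (l 3) (a (l 3) (a (l 3) (b (l 3) (a (l 3) (c (b (l 3) (b (a (l 3) (b (a (l 3) (a (l 3) (l 531756559))) (a (c (l 531801215) (l 531775359)) (l 531903759)))) (b (a (l 3) (a (l 531931519) (l 531778575))) (a (l 14) (a (l 531806335) (l 531787903)))))) (b (l 3) (b (a (l 3) (a (l 531731071) (b (l 531707663) (l 531717247)))) (a (a (l 3) (l 531769471)) (a (l 531749759) (l 531730303))))))))))) (b (a (l 14) (b (a (l 14) (a (l 14) (b (b (a (l 14) (a (l 14) (c (l 532068623) (l 531748991)))) (l 14)) (l 14)))) (l 14))) (l 14))), by decide +kernel⟩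

def k23_A00pm_012_s1 : ∃ t, chk3 f_A00pm_012_s1 t 34 60 1 = true :=
  ⟨(a (l 3) (b (l 3) (a (a (l 3) (b (l 3) (a (l 531402623) (l 531386495)))) (a (a (l 531901567) (l 531357055)) (l 531888767))))), by decide +kernel⟩

def k24_A00pm_012_s1 : ∃ t, chk3 f_A00pm_012_s1 t 68 122 1 = true :=
  ⟨(b (b (l 3) (a (l 3) (a (l 3) (a (a (l 3) (l 531783551)) (l 531493647))))) (a (a (l 3) (a (l 3) (a (l 3) (b (l 3) (l 531602559))))) (a (a (b (l 3) (a (l 531593087) (l 531583359))) (b (l 531818511) (l 531568255))) (a (c (l 531838079) (l 531506815)) (a (l 531798031) (l 531514639)))))), by decide +kernel⟩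

def k25_A00pm_012_s1 : ∃ t, chk3 f_A00pm_012_s1 t 136 123 1 = true :=
  ⟨(b (c (a (b (l 3) (a (c (l 531741567) (l 531714175)) (l 531977487))) (a (b (l 531941135) (l 531690623)) (b (l 531654271) (l 531672191)))) (a (b (l 3) (a (l 531673471) (l 531653759))) (b (a (l 531615359) (l 531595903)) (l 532158479)))) (c (a (b (a (b (l 531876111) (l 531750927)) (c (l 531741055) (l 531713407))) (a (c (l 531777039) (l 531750527)) (b (l 531741567) (l 531750783)))) (b (a (l 531977087) (l 531690111)) (a (l 531726719) (l 531708287)))) (a (a (b (l 531691791) (l 531710591)) (b (l 531672447) (l 531691135))) (b (a (l 531652735) (l 531633023)) (a (l 531671679) (l 531651967)))))), by decide +kernel⟩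

def k26_A00pm_012_s1 : ∃ t, chk3 f_A00pm_012_s1 t 137 246 1 = true :=
  ⟨(a (a (b (l 531874063) (l 531624063)) (a (l 531867519) (l 531589759))) (a (c (l 531605119) (l 531543935)) (l 532092031))), by decide +kernel⟩

def k27_A00pm_012_s1 : ∃ t, chk3 f_A00pm_012_s1 t 274 247 1 = true :=
  ⟨(a (c (b (l 531671679) (b (l 531686015) (b (a (l 16769144) (a (l 16768648) (b (l 16768456) (l 16768288)))) (a (a (l 16768776) (b (l 16768584) (l 16768424))) (a (b (l 16768352) (l 16768280)) (l 16768192)))))) (b (l 531613567) (b (l 531628415) (a (b (l 16769056) (a (l 16768680) (b (l 16768488) (l 16768312)))) (b (a (l 16768552) (b (l 16768352) (l 16768176))) (a (l 16768200) (l 16768016))))))) (c (b (l 531652991) (a (b (b (l 16768880) (a (l 16768520) (b (l 16768320) (l 16768152)))) (b (a (b (l 16768216) (l 16768144)) (l 16768048)) (l 16768024))) (b (b (a (l 16768384) (b (l 16768192) (l 16768016))) (a (b (l 16768080) (l 16768000)) (l 16767912))) (b (l 16767880) (l 16767792))))) (b (l 531593855) (b (a (b (l 16768784)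 (a (l 16768416) (b (l 16768224) (l 16768032)))) (b (a (l 16768280) (b (l 16768080) (l 16767896))) (a (l 16767928) (l 16767736)))) (b (a (a (l 16768064) (l 16767880)) (l 16767648)) (a (l 16767792) (l 16767488))))))), by decide +kernel⟩

def k28_A00pm_012_s1 : ∃ t, chk3 f_A00pm_012_s1 t 275 247 1 = true :=
  ⟨(b (b (a (l 531600255) (b (a (l 16768280) (a (l 16767776) (c (l 16767552) (l 16767424)))) (a (a (l 16767920) (b (l 16767720) (l 16767536))) (c (a (l 16767496) (l 16767344)) (l 16767280))))) (b (a (a (l 16768560) (a (l 16768056) (c (b (l 16767912) (l 16767736)) (l 16767712)))) (c (a (a (l 16767640) (l 16767488)) (l 16767320)) (a (l 16767424) (l 16767080)))) (a (a (a (l 16768200) (c (b (l 16768048) (l 16767872)) (l 16767856))) (c (a (l 16767776) (l 16767632)) (l 16767568))) (a (c (l 16767464) (l 16767224)) (l 16767080))))) (b (a (a (a (b (c (b (l 16767944) (l 16767864)) (l 16767784)) (l 16767696)) (c (l 16767728) (l 16767512))) (c (b (l 16767600) (l 16767512)) (l 16767288))) (c (l 16767216)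 (l 16766824))) (c (a (c (l 16767592) (l 16767408)) (l 16766424)) (a (l 16767104) (l 16766488))))), by decide +kernel⟩

def k29_A00pm_012_s1 : ∃ t, chk3 f_A00pm_012_s1 t 69 122 1 = true :=
  ⟨(b (b (a (a (c (l 531477119) (l 531410303)) (l 531403903)) (a (l 531381631) (l 531377023))) (b (a (a (l 531986815) (l 531410815)) (a (l 531388799) (l 531384959))) (a (a (l 531991423) (l 531415423)) (a (l 531393919) (a (l 16767600) (l 16766248)))))) (a (b (a (a (l 531746943) (l 531455359)) (l 531426175)) (a (a (l 531506815) (l 531483519)) (l 531451519))) (a (b (l 531404159) (b (a (l 16767184) (a (b (l 16766424) (l 16765968)) (c (l 16765824) (l 16765640)))) (a (a (b (l 16766744) (c (l 16766352) (l 16766200))) (b (l 16768744) (l 16765872))) (c (l 16763040) (l 16765384))))) (b (a (b (l 16766560) (a (b (l 16766120) (l 16765672)) (c (l 16765544) (l 16765352)))) (b (a (b (l 16765808) (l 16765392)) (l 16762552)) (c (l 16765104) (l 16764808)))) (c (a (l 16765280) (l 16764808)) (l 16764608)))))), by decide +kernel⟩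

def k30_A00pm_012_s1 : ∃ t, chk3 f_A00pm_012_s1 t 69 246 1 = true :=
  ⟨(a (a (a (a (b (l 531533183) (b (l 16768776) (b (l 16767992) (a (l 16767632) (c (l 16767408) (l 16767280)))))) (b (l 531522943) (b (l 16768104) (b (a (l 16767480) (a (l 16767248) (l 16767128))) (c (l 16767152) (l 16766992)))))) (b (l 531507071) (a (b (b (l 16767696) (a (l 16767336) (c (l 16767112) (l 16766976)))) (b (c (l 16767008) (l 16766840)) (l 16766768))) (a (b (b (l 16767184) (l 16766848)) (l 16766624)) (b (b (l 16766896) (l 16766680)) (l 16763872)))))) (b (a (b (l 531483007) (a (b (l 16767384) (a (l 16767024) (l 16766744))) (b (c (l 16766808) (l 16766664)) (c (l 16766568) (l 16766392))))) (a (b (a (l 16766968) (b (l 16766896) (l 16766440))) (c (l 16766376) (l 16766160))) (b (b (c (l 16766504) (l 16766352)) (l 16768800)) (l 16763344)))) (c (a (b (a (b (l 16766712) (l 16766600)) (l 16766408)) (l 16766352)) (l 16765968)) (a (b (a (l 16766464) (l 16766112)) (l 16765944)) (l 16765480))))) (a (b (b (a (c (a (l 16766080)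 (l 16765816)) (l 16763072)) (l 16765256)) (c (l 16765520) (l 16765016))) (c (b (l 16765000) (l 16763576)) (a (l 16764848) (l 16764176)))) (c (b (l 16763976) (c (b (l 16761696) (l 16760248)) (l 16761360))) (b (l 16763912) (a (l 16762736) (l 16761296)))))), by decide +kernel⟩

def k31_A00pm_012_s1 : ∃ t, chk3 f_A00pm_012_s1 t 69 247 1 = true :=
  ⟨(a (a (b (b (a (a (b (a (a (l 16767320) (l 16767232)) (l 16767112)) (l 16767056)) (b (l 16766912) (l 16764168))) (c (l 16766640) (l 16766240))) (a (c (l 16766928) (l 16766536)) (c (l 16766192) (l 16765912)))) (c (a (b (l 16766312) (l 16764840)) (b (l 16764736) (a (l 16761032) (l 16762864)))) (a (b (l 16766200) (l 16765448)) (c (l 16764488) (l 16764856))))) (c (b (b (l 16765280) (a (l 16764616) (l 16763040))) (b (a (c (l 16762992) (l 16763328)) (l 16764200)) (a (l 16764304) (l 16760104)))) (b (a (l 16765448) (l 16764440)) (a (c (l 16763000) (l 16763440)) (c (b (l 16762208) (l 16760832)) (l 16762032)))))) (c (a (a (b (b (l 16762920) (a (l 16761864) (l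 16761080))) (b (l 16760008) (l 16758536))) (b (b (l 16756112) (l 16759904)) (b (l 16758440) (l 16756976)))) (b (a (b (l 16759792) (l 16758344)) (b (l 16758232) (l 16756784))) (b (l 16758720) (l 16754632)))) (a (b (c (b (l 16762720) (l 16761360)) (l 16762512)) (b (c (a (l 16760728) (l 16759256)) (l 16760576)) (a (c (l 16759352) (l 16759976)) (l 16760832)))) (b (c (a (l 16754584) (l 16758360)) (b (l 16760352) (l 16753824))) (a (b (l 16760736) (l 16756776)) (a (l 16758992) (l 16758272))))))), by decide +kernel⟩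

def k32_A00pm_012_s1 : ∃ t, chk3 f_A00pm_012_s1 t 70 60 1 = true :=
  ⟨(b (a (a (l 531350143) (l 531378047)) (l 531987839)) (a (b (l 531639679) (a (l 531375999) (a (l 531399295) (b (l 16767624) (b (l 16766112) (l 16765088)))))) (b (b (l 531468671) (b (l 531474047) (a (l 16767184) (a (l 16765288) (a (l 16764352) (b (l 16764008) (l 16763696))))))) (b (a (a (l 16766328) (b (l 16765560) (a (l 16764880) (l 16764296)))) (b (a (b (l 16764544) (l 16769376)) (b (l 16768912) (l 16763456))) (c (l 16763672) (l 16763392)))) (a (a (b (l 16770072) (a (l 16764328) (l 16763984))) (b (a (l 16764104) (l 16763776)) (l 16763592))) (l 16763000)))))), by decide +kernel⟩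

def k33_A00pm_012_s1 : ∃ t, chk3 f_A00pm_012_s1 t 71 120 1 = true :=
  ⟨(a (a (l 531577215) (b (l 531682687) (b (l 531690367) (a (b (l 16765256) (l 16766944)) (b (a (l 16764408) (a (l 16763984) (l 16766328))) (a (b (l 16763712) (l 16763400)) (b (l 16763336) (l 16763128)))))))) (b (b (a (l 531807359) (a (l 531915647) (l 531993983))) (a (l 531811711) (b (a (l 531919231) (a (a (c (l 16763856) (l 16763816)) (b (l 16763808) (b (l 16763488) (c (l 16763352) (l 16763304))))) (b (b (a (l 16763664) (c (a (l 16763496) (l 16763400)) (l 16763416))) (a (a (l 16763512) (l 16763400)) (c (l 16763328) (l 16763280)))) (b (a (c (l 16763344) (l 16763288)) (l 16763200)) (l 16763160))))) (a (b (a (l 16764080) (a (l 16763696) (b (l 16763552) (c (l 16763392) (l 16763336))))) (c (a (l 16763672) (a (b (l 16763416) (l 16763296)) (l 16763248))) (a (l 16763608) (a (l 16763304) (l 16763152))))) (a (a (b (b (c (l 16763376) (l 16763320)) (l 16763232)) (l 16763096)) (l 16763088)) (b (l 16763024) (l 16762848))))))) (b (a (b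 (a (l 16764832) (a (l 16764024) (b (l 16763712) (a (a (l 16763472) (l 16763376)) (l 16763272))))) (a (a (l 16764208) (b (l 16763888) (b (l 16763552) (l 16763392)))) (a (b (a (l 16763496) (l 16763320)) (l 16763176)) (l 16763040)))) (a (b (a (b (a (a (l 16763416) (l 16763328)) (l 16763232)) (l 16763096)) (l 16762984)) (l 16762736)) (c (l 16762072) (l 16762320)))) (a (a (b (a (b (l 16766168) (l 16763280)) (b (l 16763224) (l 16763032))) (l 16762888)) (b (l 16762800) (l 16762456))) (a (l 16764288) (l 16760024)))))), by decide +kernel⟩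

def k34_A00pm_012_s1 : ∃ t, chk3 f_A00pm_012_s1 t 71 121 1 = true :=
  ⟨(a (a (b (b (a (l 16765264) (b (l 16764552) (a (l 16766536) (a (l 16763584) (l 16763424))))) (a (b (a (l 16764120) (b (l 16763800) (l 16763528))) (b (l 16768736) (l 16763296))) (a (l 16763208) (l 16762960)))) (b (l 16762664) (l 16761408))) (b (b (a (a (b (b (l 16763912) (l 16763536)) (l 16763216)) (b (b (l 16763464) (l 16763240)) (l 16762992))) (l 16762824)) (l 16765000)) (c (l 16759072) (l 16759800)))) (c (b (a (b (l 16761704) (l 16759368)) (l 16762456)) (b (l 16755360) (l 16752968))) (b (c (l 16764560) (l 16764904)) (l 16752560)))), by decide +kernel⟩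

def k35_A00pm_012_s1 : ∃ t, chk3 f_A00pm_012_s1 t 35 122 1 = true :=
  ⟨(a (a (b (b (a (a (l 16770128) (c (l 16768856) (l 16766088))) (a (b (l 16765368) (c (l 16764752) (l 16764552))) (b (a (l 16764560) (l 16764200)) (l 16764000)))) (a (a (b (l 16765952) (a (l 16762704) (l 16764920))) (b (c (l 16762376) (l 16764800)) (l 16764456))) (c (l 16764048) (l 16763568)))) (a (c (b (l 16764512) (l 16763584)) (b (l 16764056) (l 16763344))) (c (b (l 16763104) (l 16760432)) (b (l 16762824) (l 16761296))))) (b (a (c (l 16763384) (l 16762744)) (c (l 16760600) (l 16761336))) (c (a (b (l 16759928) (c (l 16757048) (l 16752288))) (b (l 16756752) (l 16759368))) (b (a (l 16760784) (l 16757832)) (a (l 16758368) (l 16755432)))))) (a (b (c (a (l 16754768) (a (l 16744488) (l 16742880))) (b (l 16757968) (l 16755696))) (c (b (a (l 16753576) (l 16750392)) (a (l 16750968) (l 16747808))) (a (b (l 16754864) (a (l 16753224) (l 16751752))) (c (l 16750280) (l 16745944))))) (b (c (a (a (l 16751752) (l 16750144)) (l 16747720))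 (a (l 16741824) (l 16738784))) (c (b (l 16750856) (l 16748296)) (b (a (l 16748904) (l 16745904)) (a (l 16746576) (l 16743600))))))), by decide +kernel⟩

def k36_A00pm_012_s1 : ∃ t, chk3 f_A00pm_012_s1 t 70 123 1 = true :=
  ⟨(a (b (c (b (a (a (l 16761624) (l 16760056)) (c (l 16757472) (l 16752712))) (c (a (l 16763048) (l 16754632)) (a (a (l 16759056) (l 16757528)) (l 16755224)))) (a (b (l 16761704) (c (l 16758840) (l 16759456))) (b (l 16758800) (c (l 16750648) (l 16751392))))) (c (b (a (b (l 16755896) (l 16754456)) (b (l 16752792) (l 16751352))) (a (b (l 16752992) (l 16751528)) (b (l 16749904) (l 16748432)))) (c (b (a (l 16758784) (l 16753232)) (a (l 16756056) (l 16750512))) (a (b (a (l 16752368) (l 16756208)) (a (l 16755016) (l 16753624))) (a (b (l 16754808) (l 16752232)) (b (l 16753408) (l 16750840))))))) (b (b (c (a (l 16759816) (l 16751432)) (a (c (l 16755536) (l 16751032)) (a (l 16748464) (l 16752248)))) (c (a (l 16757048) (l 16748680)) (a (c (l 16752944) (l 16748576)) (c (l 16749984) (l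 16750984))))) (c (b (a (b (l 16749688) (l 16748256)) (l 16745872)) (a (b (l 16746816) (l 16745352)) (b (l 16743728) (l 16742272)))) (c (a (b (l 16750296) (l 16747592)) (b (l 16747360) (l 16744672))) (b (a (l 16751312) (l 16748496)) (a (l 16748752) (b (l 16746600) (l 16745320)))))))), by decide +kernel⟩

def k37_A00pm_012_s1 : ∃ t, chk3 f_A00pm_012_s1 t 71 123 1 = true :=
  ⟨(b (a (c (b (a (l 16748296) (l 16745152)) (a (l 16745568) (l 16742440))) (b (a (c (l 16749576) (l 16750568)) (l 16747128)) (a (b (l 16748200) (l 16746944)) (l 16749904)))) (a (c (b (l 16742008) (l 16739312)) (c (l 16742344) (b (l 16744816) (l 16742448)))) (b (b (l 16745848) (l 16744584)) (c (b (l 16736856) (l 16735504)) (b (l 16739416) (l 16738104)))))) (a (b (c (a (l 16742776) (b (l 16740368) (l 16738960))) (a (b (l 16745672) (l 16744392)) (b (l 16742776) (a (l 16742224) (l 16740744))))) (c (a (b (l 16740632) (a (l 16739960) (l 16738416))) (b (l 16737536) (l 16736064))) (a (b (a (l 16743808) (l 16742360)) (a (l 16742464)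 (l 16740936))) (a (b (l 16740864) (l 16739352)) (l 16738528))))) (a (a (b (b (l 16744472) (l 16743080)) (l 16740848)) (b (b (l 16742936) (l 16736240)) (l 16739256))) (c (l 16731936) (b (l 16735928) (l 16732920)))))), by decide +kernel⟩

def k38_A00pm_012_s1 : ∃ t, chk3 f_A00pm_012_s1 t 136 124 1 = true :=
  ⟨(b (a (a (b (c (l 531781903) (l 531729535)) (l 14)) (b (c (l 531763583) (l 531710079)) (b (a (l 14) (b (a (l 14) (a (l 14) (b (l 16769104) (l 14)))) (l 14))) (l 14)))) (b (a (b (l 531713919) (c (b (a (l 16769640) (a (b (l 16769288) (l 16769032)) (b (l 16768968) (l 16768824)))) (a (a (b (l 16769408) (l 16769152)) (b (l 16769096) (l 16768952))) (a (b (l 16768888) (l 16768824)) (l 16768736)))) (a (b (l 16769560) (a (l 16769192) (b (l 16769000) (l 16768848)))) (a (b (l 16769064) (l 16768744)) (b (b (l 16768880) (l 16768712)) (l 16768568)))))) (b (b (a (l 16769352) (a (c (l 16768904) (l 16768808)) (c (b (l 16768712) (l 16768560)) (b (l 16768616) (l 16768448))))) (c (a (a (b (l 16769168) (l 16768904))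 (b (l 16768840) (l 16768688))) (a (b (l 16768624) (l 16768552)) (l 16768464))) (a (a (l 16768936) (b (l 16768752) (l 16768584))) (a (l 16768472) (l 16768296))))) (a (b (c (a (b (l 16768760) (l 16768688)) (l 16768600)) (a (l 16768608) (l 16768432))) (c (l 16768568) (l 16768344))) (c (b (l 16768432) (l 16768352)) (l 16768120))))) (c (a (b (a (b (a (b (l 16769016) (l 16768960)) (l 16768872)) (l 16768840)) (b (l 16768704) (l 16768624))) (c (l 16768320) (l 16768480))) (b (c (l 16768240) (l 16768240)) (c (l 16766688) (l 16766912)))) (a (b (a (b (a (l 16768872) (l 16768704)) (l 16768608)) (l 16768392)) (c (l 16768312) (l 16768104))) (c (b (l 16768040) (l 16767152)) (l 16767648)))))) (b (b (b (a (l 14) (a (l 14) (a (l 14) (c (l 16765248) (l 16765872))))) (l 14)) (l 14)) (l 14))), by decide +kernel⟩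

def k39_A00pm_012_s1 : ∃ t, chk3 f_A00pm_012_s1 t 137 248 1 = true :=
  ⟨(a (b (b (a (a (b (a (b (a (l 16768472) (l 16768376)) (l 16768344)) (l 16768240)) (c (l 16768296) (l 16768064))) (c (b (l 16768160) (l 16768072)) (b (l 16767928) (l 16767760)))) (c (c (l 16767864) (l 16767688)) (l 16767392))) (c (a (c (l 16768144) (l 16767968)) (c (l 16766520) (l 16766744))) (c (l 16767488) (l 16767232)))) (c (a (b (c (l 16766608) (l 16766832)) (c (l 16767680) (a (l 16765728) (l 16764944)))) (b (c (a (l 16765392) (l 16764576)) (l 16765264)) (b (l 16763976) (l 16763216)))) (a (b (l 16767200) (c (l 16765648) (l 16765992))) (b (c (l 16765568) (l 16765904)) (c (a (l 16764520) (l 16763776)) (l 16764568)))))) (a (b (c (b (l 16766536) (c (a (l 16765304) (l 16764496)) (l 16765176))) (b (l 16766776) (l 16765648))) (c (b (a (l 16763928) (l 16763128)) (l 16764624)) (c (b (l 16761448) (l 16762656)) (b (l 16764488) (l 16760520))))) (b (a (c (b (l 16765336) (l 16763840)) (b (l 16765912) (l 16764552))) (c (b (l 16764544)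 (l 16763048)) (b (l 16765184) (l 16763824)))) (c (b (l 16764560) (l 16760416)) (b (c (l 16762576) (a (l 16763416) (l 16762712))) (c (l 16761160) (l 16761720))))))), by decide +kernel⟩

def k40_A00pm_012_s1 : ∃ t, chk3 f_A00pm_012_s1 t 137 249 1 = true :=
  ⟨(c (b (a (a (b (b (l 16764048) (l 16763280)) (b (l 16762504) (l 14))) (b (l 16764688) (l 16760520))) (b (a (l 16760472) (l 16758888)) (a (l 16758928) (l 16757344)))) (a (b (a (l 14) (l 16758960)) (l 14)) (b (a (l 16757376) (l 16755784)) (a (l 16755808) (l 16754216))))) (a (a (b (b (c (a (l 16764592) (l 16763840)) (l 16764640)) (a (l 14) (b (l 16763008) (l 14)))) (l 14)) (a (b (b (c (l 16763096) (l 16763568)) (l 16764544)) (l 14)) (b (b (b (l 16762944) (l 16762248)) (l 16761192)) (b (l 16759784) (l 14))))) (b (b (a (c (l 16761224) (l 16761792)) (b (l 16760392) (l 16759696))) (a (b (l 16760448) (l 16759744)) (b (l 16758992) (l 16758288)))) (c (b (l 16757584) (a (l 16756872) (l 16755384))) (b (a (l 16759056) (l 16757640)) (a (l 16757680) (l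 16756264))))))), by decide +kernel⟩

def k41_A00pm_012_s1 : ∃ t, chk3 f_A00pm_012_s1 t 68 125 1 = true :=
  ⟨(b (a (l 14) (b (a (l 14) (a (l 14) (a (l 14) (b (c (l 16752240) (l 16754016)) (l 14))))) (l 14))) (l 14)), by decide +kernel⟩

def k42_A00pm_012_s1 : ∃ t, chk3 f_A00pm_012_s1 t 69 248 1 = true :=
  ⟨(a (c (a (b (b (a (a (l 16763752) (l 16762960)) (l 16764400)) (a (l 16764480) (l 16760280))) (b (a (l 16760352) (l 16758768)) (a (l 16758832) (l 16757256)))) (b (a (b (l 16760200) (l 16758704)) (b (l 16758624) (l 16757128))) (b (a (l 16757192) (l 16755624)) (a (l 16755680) (l 16754104))))) (a (a (b (b (l 16764096) (a (l 16763096) (l 16759752))) (b (c (l 16761088) (l 16761648)) (b (l 16760328) (l 16759632)))) (b (b (c (l 16762408) (l 16762888)) (c (l 16761008) (l 16761568))) (b (b (l 16760256) (l 16759568)) (l 16761152)))) (a (b (b (c (l 16760928) (l 16761480)) (c (l 16759528) (l 16760152))) (b (l 16761080) (l 16759704))) (b (b (c (l 16759448) (l 16760064)) (l 16761008)) (b (l 16759640) (l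 16755640)))))) (c (c (a (b (b (l 16755992) (l 16754464)) (b (l 16752936) (l 16751384))) (b (l 16752056) (l 16748992))) (a (b (b (l 16756576) (l 16755112)) (b (l 16753632) (l 16752152))) (b (l 16752776) (b (l 16750568) (l 16749088))))) (b (b (a (a (l 16760928) (l 16756864)) (a (l 16755424) (l 16753992))) (a (a (l 16759568) (l 16755504)) (a (l 16754064) (l 16752632)))) (c (a (b (l 16754424) (l 16753008)) (b (l 16751488) (l 16750072))) (a (b (l 16755304) (l 16753960)) (b (l 16752504) (l 16751160))))))), by decide +kernel⟩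

def k43_A00pm_012_s1 : ∃ t, chk3 f_A00pm_012_s1 t 69 249 1 = true :=
  ⟨(a (b (a (c (b (a (l 16757304) (l 16755720)) (a (l 16755760) (l 16754176))) (c (b (l 16757496) (l 16756056)) (b (a (l 16758952) (l 16757544)) (a (l 16757592) (l 16756184))))) (c (b (a (l 16754144) (l 16752576)) (a (l 16752608) (l 16751032))) (b (a (l 16758312) (l 16754248)) (c (l 16753096) (a (l 16754768) (l 16753360)))))) (c (a (b (a (l 16754200) (l 16752624)) (a (l 16752640) (l 16751056))) (a (b (l 16751048) (l 16749488)) (b (l 16749480) (c (l 16747456) (l 16748392))))) (c (a (b (l 16754608) (l 16753152)) (b (l 16751648) (a (l 16750928) (l 16749440)))) (a (b (a (l 16756224) (l 16754816)) (a (l 16754848) (l 16753432))) (b (a (l 16753400) (l 16751992)) (a (l 16752024) (b (l 16750960) (l 16750256)))))))) (b (c (a (b (a (l 16751008) (l 16749448)) (a (l 16749472) (l 16747904))) (b (a (l 16747888) (l 16746336)) (a (b (l 16746736) (l 16745960)) (b (l 16745176) (l 16744416))))) (a (b (a (l 16755424) (l 16753984)) (c (l 16750144)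 (a (l 16751960) (l 16750552)))) (b (a (l 16752552) (l 16751120)) (a (b (l 16748880) (a (l 16748544) (l 16747816))) (b (a (l 16747808) (l 16747072)) (a (l 16747072) (l 16746296))))))) (c (a (b (a (l 16747920) (b (l 16746744) (l 16745968))) (a (b (a (l 16747136) (l 16746360)) (l 16745968)) (l 16744800))) (a (b (b (l 16745192) (l 16744408)) (l 16743240)) (l 16742464))) (a (b (a (c (l 16749432) (l 16750592)) (b (a (l 16749272) (l 16748552)) (a (l 16748552) (l 16747800)))) (a (b (a (l 16749288) (l 16748544)) (a (l 16748528) (l 16747744))) (l 16749592))) (b (a (b (a (l 16747816) (l 16747048)) (l 16746624)) (l 16745464)) (a (l 16745400) (l 16743824))))))), by decide +kernel⟩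

def k44_A00pm_012_s1 : ∃ t, chk3 f_A00pm_012_s1 t 69 125 1 = true :=
  ⟨(b (a (b (c (a (b (a (l 16751056) (b (l 16749880) (l 16749080))) (a (b (l 16749864) (l 14)) (c (l 16747464) (l 16748376)))) (a (b (b (l 16748304) (l 16747520)) (l 16746336)) (c (l 16745120) (l 16746048)))) (a (b (a (c (l 16752424) (l 16753464)) (b (l 16751840) (a (l 16751480) (l 16750760)))) (a (b (a (l 14) (l 16751488)) (l 14)) (b (a (l 16753368) (l 16749992)) (l 16749560)))) (b (a (b (a (l 16750752) (l 16750024)) (a (l 16752632) (l 16749240))) (a (b (l 16749272) (l 16748456)) (l 16748080))) (a (l 16751016) (l 16749440))))) (c (a (a (l 14) (l 16750760)) (c (l 16742752) (l 16743608))) (b (a (a (l 14) (l 16750936)) (a (l 16746736) (l 16745152))) (a (l 14) (a (l 16745056) (l 16743480)))))) (c (a (b (c (l 16742776) (l 16748928)) (c (l 16739624) (l 16740464))) (b (c (l 16739656) (l 16740552)) (l 16742136))) (c (a (b (l 16747344) (l 16741424)) (b (l 16741576) (l 16738264))) (b (a (a (l 16746664) (l 16745088)) (l 16745344)) (a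 (l 16745120) (l 16739336)))))) (b (a (a (l 14) (a (l 14) (c (l 16739160) (l 16740936)))) (a (c (l 16742040) (c (l 16738072) (l 16739072))) (c (l 16733648) (c (l 16734904) (l 16735896))))) (a (l 14) (c (a (l 16733512) (l 16730352)) (a (c (l 16734672) (l 16735592)) (l 16737176)))))), by decide +kernel⟩

def k45_A00pm_012_s1 : ∃ t, chk3 f_A00pm_012_s1 t 70 124 1 = true :=
  ⟨(b (a (b (c (a (b (l 16750048) (l 16748552)) (b (l 16746960) (l 16745464))) (c (a (l 16750656) (l 16747744)) (a (b (l 16752360) (l 16751040)) (b (l 16749576) (l 16748256))))) (c (a (b (l 16747048) (a (l 16746312) (l 16744760))) (b (a (l 16744736) (l 16743184)) (a (b (l 16743592) (l 16742840)) (l 16741680)))) (b (a (a (l 16749832) (l 16748400)) (a (l 16746976) (b (l 16745896) (l 16745192)))) (a (a (l 16748456) (b (l 16747376) (l 16746680))) (a (b (l 16745936) (l 16747824)) (l 16746664)))))) (c (b (a (b (l 16743880) (a (l 16743160) (l 16741624))) (b (a (l 16741568) (l 16740040)) (a (l 16740088) (l 16738536)))) (a (a (b (l 16741656)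 (l 16740120)) (l 16739344)) (l 16737024))) (b (b (a (a (l 16746856) (l 16745440)) (a (l 16744000) (l 16745144))) (a (a (l 16745504) (b (l 16744416) (l 16743696))) (a (l 16742544) (l 16740976)))) (a (a (b (b (l 16744448) (l 16743680)) (l 16742480)) (l 16741720)) (b (l 16745408) (l 16738568)))))) (a (b (c (a (b (a (b (l 16745168) (l 16744400)) (b (l 16743624) (l 16742848))) (a (l 16743248) (l 16741688))) (c (l 16739648) (l 16740648))) (c (a (b (a (l 16746432) (l 16744928)) (l 16744120)) (l 16741792)) (a (b (a (b (l 16748056) (l 16747352)) (b (l 16746616) (l 16745832))) (a (l 16746176) (l 16744600))) (l 16745688)))) (c (a (c (l 16739664) (l 16740616)) (l 16742248)) (c (a (l 16741696) (l 16738560)) (a (l 16745528) (l 16739760))))) (c (a (b (l 16742272) (l 16733896)) (b (l 16733928) (l 16730776))) (a (b (b (l 16745328) (l 16743704)) (c (l 16735416) (l 16736608))) (b (c (l 16735528) (l 16736776)) (l 16738088)))))), by decide +kernel⟩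

def k46_A00pm_012_s1 : ∃ t, chk3 f_A00pm_012_s1 t 71 124 1 = true :=
  ⟨(a (c (b (a (b (l 16736952) (l 16733912)) (b (l 16733832) (l 16730792))) (a (b (l 16730816) (l 16727664)) (l 16731368))) (b (a (b (c (l 16738728) (l 16740104)) (l 16741472)) (b (l 16741472) (l 16733064))) (a (b (l 16738232) (l 16729696)) (b (l 16729840) (l 16726544))))) (c (b (a (l 16734424) (l 16726024)) (a (l 16723000) (l 16719864))) (b (a (b (l 16733040) (l 16729888)) (b (l 16729840) (l 16726696))) (a (b (l 16726664) (l 16723376)) (b (l 16723480) (l 16720200)))))), by decide +kernel⟩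

def k47_A00pm_012_s1 : ∃ t, chk3 f_A00pm_012_s1 t 35 125 1 = true :=
  ⟨(a (a (b (b (a (c (l 16742208) (c (l 16738424) (l 16739560))) (c (l 16733840) (c (l 16735280) (l 16736400)))) (a (c (l 16733752) (c (l 16735104) (l 16736168))) (c (l 16730616) (l 16737696)))) (b (c (a (l 16730496) (l 16727352)) (a (l 16737456) (l 16729040))) (c (a (l 16727192) (l 16724032)) (a (l 16728752) (l 16725568))))) (a (b (c (c (l 16728712) (l 16729520)) (b (l 16737912) (l 16729288))) (c (l 16727784) (c (l 16723680) (l 16724600)))) (b (c (l 16731208) (b (l 16729504) (l 16726120))) (c (l 16719392) (c (l 16720504) (l 16721416)))))) (a (b (c (a (l 16728080) (l 16719712)) (a (b (l 16726352) (l 16722952)) (b (l 16723192) (l 16719784)))) (c (c (l 16714376) (l 16714984)) (c (l 16720984) (a (l 16718224) (l 16715040))))) (a (b (c (l 16716576) (b (l 16720024) (l 16716616))) (c (l 16709936) (l 16711392))) (b (c (l 16713440) (l 16720392)) (c (l 16706800) (l 16708216)))))), by decide +kernel⟩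

def k48_A00pm_012_s1 : ∃ t, chk3 f_A00pm_012_s1 t 17 63 1 = true :=
  ⟨(a (b (a (l 14) (b (a (l 14) (a (l 14) (a (l 14) (b (l 16732112) (l 14))))) (l 14))) (l 14)) (b (a (b (a (c (c (l 16730792) (l 16726080)) (a (c (l 16723088) (l 16723864)) (c (l 16719888) (l 16720664)))) (c (c (l 16713968) (l 16714472)) (a (c (l 16716696) (l 16717456)) (l 16719104)))) (b (a (c (l 16715392) (c (l 16716144) (l 16716792))) (c (l 16709000) (l 16715264))) (a (l 14) (c (l 16705464) (l 16706320))))) (c (a (b (c (l 16707640) (l 16708104)) (l 16711336)) (b (l 16712000) (l 16694464))) (a (b (c (l 16708704) (l 16714688)) (c (l 16701464) (l 16702032))) (b (c (l 16702320) (l 16703024)) (c (l 16695032) (l 16695584)))))) (a (a (l 14) (a (l 14) (a (l 14) (b (l 16697880) (l 14))))) (c (b (a (l 16693632) (l 16687200)) (a (l 16686200) (l 16679728))) (b (a (c (l 16694000) (l 16694400)) (c (l 16687528) (l 16687920))) (a (c (l 16686312) (l 16686544)) (c (l 16679808) (l 16680024)))))))), by decide +kernel⟩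

def k49_A00pm_012_s1 : ∃ t, chk3 f_A00pm_012_s1 t 36 28 1 = true :=
  ⟨(a (l 3) (b (l 3) (a (a (l 3) (l 531359871)) (a (l 531350655) (l 531085183))))), by decide +kernel⟩

def k50_A00pm_012_s1 : ∃ t, chk3 f_A00pm_012_s1 t 37 56 1 = true :=
  ⟨(b (a (l 3) (a (a (l 531114879) (l 531442191)) (b (l 531467135) (l 531498511)))) (a (a (a (l 3) (a (l 3) (l 531328527))) (a (l 531353471) (l 531392127))) (a (a (l 531435135) (l 531480591)) (a (l 531659391) (l 531563279))))), by decide +kernel⟩

def k51_A00pm_012_s1 : ∃ t, chk3 f_A00pm_012_s1 t 74 57 1 = true :=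
  ⟨(a (a (b (l 531347071) (l 531394687)) (b (a (l 531363967) (l 531377423)) (l 531416191))) (b (a (c (l 531692303) (l 531375375)) (b (l 531426943) (l 531448591))) (a (a (l 531437439) (l 531452943)) (c (a (l 531493759) (l 531780479)) (l 531453967))))), by decide +kernel⟩

def k52_A00pm_012_s1 : ∃ t, chk3 f_A00pm_012_s1 t 75 114 1 = true :=
  ⟨(a (a (b (l 531468159) (l 531757071)) (b (l 531512447) (l 531800079))) (a (b (l 531825535) (a (l 531565439) (l 531587711))) (b (l 531868687) (c (a (l 531631231) (b (l 531649151) (b (a (l 16757584) (b (l 16757160) (a (l 16756952) (b (l 16756736) (l 16756576))))) (a (b (l 16757040) (a (l 16756832) (l 16756576))) (a (b (b (l 16756680) (l 16756536)) (l 16756320)) (l 16756232)))))) (a (l 531587199) (a (b (l 16758504) (b (l 16757424) (b (l 16756872) (a (l 16756656) (b (l 16756456) (l 16756296)))))) (b (l 531612031) (b (b (l 16756992) (a (l 16756784) (b (l 16756560) (l 16756400)))) (b (a (b (l 16756512) (l 16756352)) (l 16756152)) (l 16755952)))))))))), by decide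 +kernel⟩

def k53_A00pm_012_s1 : ∃ t, chk3 f_A00pm_012_s1 t 150 115 1 = true :=
  ⟨(a (a (c (l 531531023) (l 531483519)) (a (l 531657231) (a (l 531530767) (b (l 531527295) (b (l 531541887) (b (l 16758208) (b (l 16757632) (c (l 16757336) (l 16757152))))))))) (b (c (l 531573007) (l 531527039)) (c (b (a (l 531577471) (b (a (l 16758096) (b (l 16757664) (a (l 16757440) (l 16757128)))) (a (b (l 16757528) (a (l 16757304) (b (l 16757096) (l 16756944)))) (b (a (b (l 16757152) (l 16756992)) (l 16756824)) (a (l 16756776) (l 16756544)))))) (a (b (a (l 16757824) (b (a (l 16757544) (l 16757232)) (a (b (l 16757256) (l 16757096)) (l 16756928)))) (a (b (a (l 16757400) (b (l 16757192) (l 16757048))) (a (l 16757080) (l 16756832))) (b (l 16756768) (l 16756496)))) (b (a (b (a (l 16756976) (l 16756728)) (l 16756576)) (l 16758872)) (l 16755936)))) (a (b (l 531530623) (b (a (l 16757648) (b (l 16757200) (a (l 16756992) (l 16756720)))) (a (a (b (l 16757224) (l 16756880)) (b (l 16756936) (l 16756592))) (l 16756360))))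 (a (b (b (l 16757928) (b (l 16757352) (a (l 16757120) (l 16756832)))) (b (b (a (l 16756776) (l 16756496)) (l 16756304)) (l 16755808))) (a (b (b (l 16757456) (b (l 16756888) (l 16756560))) (l 16755728)) (b (b (l 16757128) (b (l 16756616) (l 16756280))) (l 16755456)))))))), by decide +kernel⟩

def k54_A00pm_012_s1 : ∃ t, chk3 f_A00pm_012_s1 t 151 230 1 = true :=
  ⟨(a (c (b (a (l 531601535) (b (l 16758280) (b (l 16757728) (a (l 16757672) (a (l 16757208) (l 16756904)))))) (a (b (l 16758040) (a (l 16757608) (b (a (l 16757328) (l 16757016)) (a (b (l 16757048) (l 16756880)) (l 16756720))))) (b (a (b (l 16757304) (a (l 16757080) (b (l 16756872) (l 16756728)))) (b (a (b (l 16756928) (l 16756768)) (l 16756608)) (a (l 16756560) (l 16756320)))) (a (b (a (l 16756760) (l 16756512)) (l 16756360)) (l 16756032))))) (a (a (l 531554943) (a (b (l 16758832) (b (l 16757720) (b (l 16757160) (l 16756784)))) (b (l 16758520) (b (l 16757408) (b (l 16756840) (l 16756512)))))) (a (b (l 16758056) (b (b (l 16757128) (a (l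 16756904) (l 16756616))) (b (a (l 16756568) (l 16756280)) (l 16756088)))) (b (b (l 16757808) (b (l 16757256) (a (l 16757040) (l 16756720)))) (b (b (a (l 16756672) (l 16756400)) (l 16756200)) (l 16755696)))))) (b (a (b (a (c (l 16757360) (l 16757192)) (b (a (l 16757000) (c (l 16756784) (l 16756600))) (a (b (l 16756728) (c (l 16756656) (l 16756472))) (c (l 16756488) (l 16756280))))) (a (b (c (a (l 16756960) (b (l 16756760) (l 16756616))) (a (l 16756784) (b (l 16756576) (l 16756424)))) (a (c (l 16756648) (l 16756456)) (l 16756288))) (c (l 16756184) (l 16755912)))) (c (b (a (a (b (l 16756528) (l 16756248)) (l 16756144)) (l 16755792)) (l 16755480)) (b (a (b (a (l 16756336) (l 16756040)) (l 16755856)) (c (l 16755552) (l 16755368))) (l 16755072)))) (c (a (c (l 16755688) (l 16755504)) (l 16754648)) (c (a (l 16755304) (l 16754232)) (a (b (l 16755432) (l 16754736)) (l 16751296)))))), by decide +kernel⟩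

def k55_A00pm_012_s1 : ∃ t, chk3 f_A00pm_012_s1 t 151 231 1 = true :=
  ⟨(a (a (b (b (a (a (b (l 16757112) (b (a (l 16756912) (l 16756776)) (l 16756688))) (b (c (b (l 16756984) (l 16756840)) (l 16756728)) (l 16756512))) (b (c (a (l 16756672) (l 16756432)) (l 16756312)) (c (l 16756280) (l 16755976)))) (c (l 16756104) (a (l 16756032) (l 16755480)))) (c (l 16755280) (l 16754760))) (b (a (b (a (l 16755904) (l 16755648)) (l 16755176)) (b (l 16755272) (l 16754664))) (c (l 16754336) (l 16753648)))) (c (c (l 16755576) (l 16755800)) (c (l 16755472) (l 16755016)))), by decide +kernel⟩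

def k56_A00pm_012_s1 : ∃ t, chk3 f_A00pm_012_s1 t 36 58 1 = true :=
  ⟨(a (b (a (l 3) (a (l 531561087) (l 531501951))) (b (a (a (l 3) (a (l 3) (l 531654015))) (l 531025535)) (a (a (a (a (l 3) (l 531933567)) (l 531846527)) (a (l 531743103) (l 531667983))) (l 531840783)))) (b (a (l 531445887) (l 531154959)) (a (l 530676351) (a (l 531192447) (b (l 531459199) (b (a (l 16761280) (c (l 16760016) (l 16759856))) (b (a (l 16760000) (c (l 16756224) (l 16758640))) (a (c (l 16759240) (l 16759048)) (c (l 16758248) (l 16757960)))))))))), by decide +kernel⟩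

def k57_A00pm_012_s1 : ∃ t, chk3 f_A00pm_012_s1 t 72 59 1 = true :=
  ⟨(b (a (a (a (b (l 531960591) (l 531960191)) (l 531843455)) (l 531833983)) (c (l 531541007) (l 531499791))) (a (a (a (b (l 532096895) (l 532236559)) (b (l 531850623) (a (l 531884671) (b (l 531831423) (b (l 16763720) (b (l 16763072) (a (l 16762832) (l 16762472)))))))) (b (l 531709055) (b (a (l 531759999) (b (l 16762824) (a (l 16762312) (b (l 16761784) (l 16761464))))) (a (b (a (l 16762960) (b (l 16762416) (l 16762040))) (a (b (l 16764960) (l 16762064)) (l 16759048))) (b (a (b (l 16761752) (l 16761488)) (l 16761104)) (l 16760920)))))) (b (a (a (l 531598719) (b (l 16762968) (b (l 16761616) (a (l 16761136) (l 16760576))))) (a (b (c (l 16766816) (l 16766656)) (b (a (l 16760616) (l 16760080)) (l 16759808))) (b (b (l 16760544) (l 16759904)) (l 16759088)))) (a (b (a (a (b (l 16761704) (l 16761088)) (b (l 16761096) (l 16760568))) (l 16760072)) (l 16759632)) (c (l 16758440) (l 16757672)))))), by decide +kernel⟩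

def k58_A00pm_012_s1 : ∃ t, chk3 f_A00pm_012_s1 t 73 59 1 = true :=
  ⟨(b (a (b (a (l 531464831) (a (l 531453311) (b (l 16761824) (c (l 16754856) (l 16759904))))) (a (b (a (l 16762288) (l 16760872)) (a (b (l 16760928) (l 16760080)) (c (l 16759520) (l 16759248)))) (b (a (c (l 16754512) (l 16754288)) (b (l 16753664) (l 16758280))) (l 16757880)))) (b (b (b (a (a (l 16760920) (l 16756944)) (c (l 16758184) (a (l 16758360) (l 16757288)))) (a (a (l 16760008) (c (l 16758960) (l 16758736))) (l 16757392))) (a (b (a (a (l 16759456) (l 16758928)) (l 16758200)) (l 16758088)) (l 16756488))) (a (c (l 16756928) (l 16756192)) (c (l 16755136) (l 16754064))))) (a (b (a (c (l 16758464) (l 16757888)) (c (l 16756608) (l 16755672))) (a (c (l 16756520) (l 16755392)) (c (l 16754320) (l 16753048)))) (b (c (a (l 16754728) (l 16752448)) (a (l 16753440) (l 16751192))) (c (l 16750496) (a (l 16750664) (l 16748248)))))), by decide +kernel⟩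

def k59_A00pm_012_s1 : ∃ t, chk3 f_A00pm_012_s1 t 74 116 1 = true :=
  ⟨(a (a (l 531438463) (l 531726719)) (b (c (b (a (l 531496063) (l 531529087)) (c (a (l 531517567) (a (l 16759104) (b (a (l 16758544) (b (l 16758112) (l 16757720))) (a (b (l 16757952) (a (l 16757720) (l 16757472))) (b (l 16757408) (l 16757128)))))) (a (l 531494271) (a (l 16759024) (a (b (l 16758464) (b (l 16757864) (l 16757512))) (b (l 16757816) (l 16757176))))))) (b (a (l 531447167) (l 531480447)) (a (l 531457151) (a (l 16758896) (a (b (l 16758328) (b (l 16757728) (l 16757360))) (b (l 16757672) (a (l 16757128) (l 16756848)))))))) (a (c (a (a (b (l 16760360) (b (l 16759160) (l 16758344))) (b (l 16759720) (b (l 16758520) (b (l 16757944) (l 16757648))))) (b (b (l 16759152) (b (l 16758560) (a (l 16758480) (l 16757856)))) (b (a (b (l 16758072) (l 16757744)) (a (l 16757536) (l 16757288))) (a (l 16757320) (l 16756880))))) (b (a (l 16759880) (b (l 16758984) (b (l 16758384) (l 16755344)))) (a (a (l 16758560) (b (l 16758344) (l 16757600)))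 (b (a (c (l 16757768) (l 16757664)) (l 16757184)) (l 16756776))))) (b (b (a (c (a (l 16758184) (b (a (l 16757920) (l 16757616)) (l 16757456))) (a (l 16758008) (a (l 16757544) (l 16757280)))) (c (a (b (l 16757264) (l 16756984)) (l 16756672)) (a (l 16756872) (l 16756320)))) (a (a (a (b (l 16757680) (l 16757360)) (b (l 16757416) (l 16757112))) (c (l 16757040) (l 16756736))) (l 16756160))) (c (a (l 16756472) (l 16755568)) (l 16755496)))))), by decide +kernel⟩

def k60_A00pm_012_s1 : ∃ t, chk3 f_A00pm_012_s1 t 74 117 1 = true :=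
  ⟨(a (b (a (a (l 531466367) (b (l 16760632) (b (l 16759392) (a (l 16758880) (b (l 16758448) (l 16758128)))))) (a (a (b (l 16759648) (c (b (l 16758512) (l 16757912)) (b (l 16758320) (l 16757656)))) (b (c (l 16759064) (l 16758888)) (c (b (l 16758008) (l 16757464)) (l 16754864)))) (b (a (b (l 16758752) (c (b (l 16758240) (l 16757936)) (l 16757896))) (c (b (b (l 16758384) (l 16758032)) (l 16757616)) (b (l 16758016) (l 16757352)))) (l 16756864)))) (a (a (b (a (c (b (l 16759464) (l 16758680)) (l 16756248)) (b (l 16756096) (l 16758080))) (l 16757432)) (b (c (l 16757840) (b (l 16755216) (l 16757152))) (l 16756480))) (c (b (l 16756480) (l 16755416)) (a (l 16755784) (l 16754712))))) (b (a (a (b (a (b (c (l 16757720) (l 16757480)) (l 16757000)) (l 16756808)) (l 16755896)) (b (c (l 16756320) (l 16753192)) (l 16754912))) (c (b (l 16754960) (l 16753664)) (b (l 16754192) (l 16752872)))) (a (c (l 16756528) (l 16755696)) (c (l 16751144) (l 16750840))))), by decide +kernel⟩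

def k61_A00pm_012_s1 : ∃ t, chk3 f_A00pm_012_s1 t 75 116 1 = true :=
  ⟨(a (b (a (c (c (b (b (a (l 16758520) (a (b (l 16757776) (a (l 16757544) (l 16757272))) (b (a (l 16757320) (l 16757080)) (l 16756920)))) (a (a (l 16758064) (b (l 16757624) (a (l 16757416) (l 16757184)))) (a (b (l 16757120) (l 16756848)) (l 16756536)))) (b (a (a (b (a (l 16757632) (l 16757368)) (l 16757216)) (l 16756896)) (l 16756248)) (l 16756176))) (b (b (a (l 16758440) (a (b (l 16757688) (a (l 16757456) (l 16757176))) (b (a (l 16757232) (l 16756984)) (l 16756808)))) (a (a (l 16757976) (b (l 16757536) (l 16757216))) (a (l 16756880) (l 16756384)))) (a (b (a (b (l 16757416) (l 16757112)) (l 16756768)) (l 16756440)) (l 16755776)))) (c (a (b (a (l 16758280) (b (l 16758040) (b (l 16757440) (l 16757112)))) (b (a (b (l 16757320) (l 16757000)) (l 16756624)) (l 16756264))) (a (b (b (b (l 16757600) (l 16757224)) (l 16756752)) (l 16755800)) (b (b (b (l 16757016) (l 16756680)) (l 16756216)) (l 16755280)))) (a (b (b (l 16758264) (a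 (l 16757800) (b (l 16757344) (l 16757000)))) (b (a (b (l 16757216) (l 16756880)) (l 16756472)) (l 16756064))) (b (b (a (b (l 16757512) (l 16757120)) (b (l 16756904) (l 16756552))) (a (l 16756624) (l 16756032))) (l 16755280))))) (c (b (a (b (l 16756320) (l 16755776)) (l 16755120)) (l 16757112)) (a (b (b (a (l 16756240) (l 16755696)) (l 16755312)) (l 16754320)) (b (l 16754544) (l 16753208))))) (c (a (b (a (l 16755728) (l 16754800)) (l 16754176)) (c (l 16752112) (l 16752408))) (a (a (a (l 16754800) (l 16754256)) (l 16756048)) (c (l 16752040) (l 16751448))))) (a (b (c (c (l 16752568) (l 16752832)) (c (l 16752448) (l 16754552))) (c (l 16749488) (l 16749464))) (b (c (l 16749928) (l 16752528)) (a (l 16747912) (l 16746592))))), by decide +kernel⟩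

def k62_A00pm_012_s1 : ∃ t, chk3 f_A00pm_012_s1 t 75 117 1 = true :=
  ⟨(b (c (a (a (l 16756960) (l 16748968)) (l 16750136)) (a (a (l 16753928) (l 16749024)) (c (l 16745816) (l 16744936)))) (a (c (l 16752296) (c (l 16747896) (l 16746864))) (c (l 16741696) (l 16742624)))), by decide +kernel⟩

def k63_A00pm_012_s1 : ∃ t, chk3 f_A00pm_012_s1 t 37 59 1 = true :=
  ⟨(a (c (b (b (a (a (l 16755584) (l 16753384)) (a (l 16750640) (l 16747928))) (a (a (l 16752920) (l 16750200)) (l 16751432))) (a (b (l 16751096) (l 16745424)) (c (l 16746608) (l 16747560)))) (b (a (b (a (l 16754704) (l 16752528)) (a (l 16751872) (l 16749616))) (a (b (l 16750280) (l 16747304)) (b (l 16747984) (l 16744944)))) (a (a (b (l 16748880) (l 16745800)) (b (l 16746536) (l 16743352))) (a (b (l 16744160) (l 16740864)) (a (l 16745920) (l 16739424)))))) (a (b (c (b (l 16743920) (l 16740944)) (c (l 16748864) (c (l 16747784) (l 16747024)))) (c (l 16747232) (c (l 16737328) (l 16740512)))) (b (c (l 16742440) (c (l 16738768) (l 16737064)))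 (c (l 16731776) (c (l 16732392) (l 16729976)))))), by decide +kernel⟩

def k64_A00pm_012_s1 : ∃ t, chk3 f_A00pm_012_s1 t 76 112 1 = true :=
  ⟨(a (a (l 531668607) (l 531749135)) (a (b (l 531624319) (l 531652991)) (b (l 531689087) (a (l 531699583) (l 531733375))))), by decide +kernel⟩

def k65_A00pm_012_s1 : ∃ t, chk3 f_A00pm_012_s1 t 152 113 1 = true :=
  ⟨(a (b (l 531590015) (l 531620623)) (b (l 531634959) (a (l 531656831) (l 531749759)))), by decide +kernel⟩

def k66_A00pm_012_s1 : ∃ t, chk3 f_A00pm_012_s1 t 153 226 1 = true :=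
  ⟨(a (c (l 531707519) (l 531666559)) (b (a (l 531724671) (a (l 531748991) (b (l 16756832) (b (l 16756336) (a (l 16756168) (c (l 16755760) (b (l 16755928) (l 16755784)))))))) (c (a (b (l 16757080) (a (l 16756744) (b (l 16756256) (a (l 16756080) (l 16755736))))) (b (a (b (l 16756256) (a (l 16756088) (l 16755752))) (b (l 16755576) (l 16755232))) (a (b (l 16755568) (l 16755216)) (l 16754704)))) (a (b (l 16756952) (a (l 16756600) (b (a (l 16756328) (l 16756024)) (a (l 16755992) (l 16755720))))) (b (a (b (l 16756240) (a (l 16756064) (b (l 16755864) (l 16755712)))) (b (a (b (l 16755896) (l 16755744)) (l 16755528)) (l 16755344))) (a (b (a (l 16755760) (l 16755456)) (l 16755272)) (l 16754856))))))), by decide +kernel⟩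

def k67_A00pm_012_s1 : ∃ t, chk3 f_A00pm_012_s1 t 153 227 1 = true :=
  ⟨(a (b (a (l 531701887) (a (a (l 531719551) (b (l 16757056) (b (l 16756560) (c (l 16756304) (l 16756136))))) (b (c (l 16756680) (l 16756520)) (c (b (a (l 16756336) (l 16756040)) (l 16755856)) (b (a (l 16756176) (c (l 16755952) (l 16755848))) (a (l 16755864) (l 16755568))))))) (a (a (b (l 16757056) (a (b (l 16756704) (b (l 16756448) (l 16756280))) (b (l 16756400) (c (l 16756176) (l 16756000))))) (a (b (l 16756616) (b (c (l 16756208) (c (l 16756080) (b (l 16756056) (l 16755904)))) (l 16755816))) (b (b (l 16756488) (c (l 16756240) (l 16756064))) (c (l 16755808) (l 16755576))))) (b (a (a (b (c (l 16756272) (l 16756104)) (c (l 16755984) (l 16755792))) (c (l 16755832) (b (l 16755832) (l 16755488)))) (c (l 16755320) (l 16755224))) (c (l 16754944) (a (l 16755144) (l 16754560)))))) (a (c (b (b (a (b (a (l 16756400) (l 16756072)) (a (l 16756056) (l 16755712))) (l 16755376)) (l 16755000)) (l 16753920)) (b (b (a (b (a (l 16756256)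 (c (l 16756008) (l 16755912))) (a (c (l 16755976) (l 16755880)) (l 16755640))) (b (l 16755536) (l 16755200))) (a (l 16755296) (l 16754712))) (c (l 16754136) (l 16753880)))) (c (c (l 16755824) (l 16755960)) (c (l 16756120) (l 16755968))))), by decide +kernel⟩

def k68_A00pm_012_s1 : ∃ t, chk3 f_A00pm_012_s1 t 154 112 1 = true :=
  ⟨(b (a (a (l 531701887) (l 531688575)) (c (a (l 531659647) (b (l 531639167) (a (b (l 16755928) (b (l 16755456) (a (l 16755304) (l 16754960)))) (a (b (l 16755416) (b (l 16754936) (l 16754608))) (b (b (l 16755232) (l 16754912)) (l 16754424)))))) (a (l 531692927) (b (l 16756656) (a (b (l 16756056) (b (c (l 16755544) (l 16755624)) (a (l 16755440) (b (l 16755176) (l 16755016))))) (b (b (l 16755528) (a (l 16755384) (b (l 16755120) (l 16754960)))) (b (a (b (l 16755152) (l 16754992)) (l 16754736)) (l 16754592)))))))) (a (a (a (l 531731583) (b (l 531719807) (a (l 531731327) (b (l 16756632) (c (l 16755912) (l 16756072)))))) (b (l 531709567) (a (a (b (l 16756296) (b (l 16755816)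 (c (l 16755400) (l 16755560)))) (b (l 16755968) (b (a (l 16755560) (l 16755384)) (l 16755144)))) (a (b (b (l 16755784) (b (l 16755544) (l 16755376))) (l 16754968)) (b (b (b (l 16755536) (l 16755368)) (l 16755120)) (l 16754624)))))) (b (a (a (b (l 16756072) (b (a (l 16755760) (b (l 16755504) (l 16755336))) (a (b (l 16755520) (l 16755352)) (l 16755088)))) (a (b (b (l 16755720) (b (l 16755480) (l 16755320))) (b (l 16755072) (l 16754752))) (b (b (l 16755384) (c (l 16754992) (l 16755136))) (l 16754576)))) (a (a (b (b (c (l 16754976) (c (l 16755080) (b (l 16755240) (l 16755080)))) (l 16754720)) (l 16754232)) (b (l 16754544) (l 16753896))) (b (l 16754032) (l 16753384)))) (c (a (b (a (b (a (l 16755032) (l 16754688)) (l 16754528)) (l 16754000)) (a (l 16754016) (l 16753328))) (b (l 16750336) (l 16752288))) (a (a (b (l 16754872) (l 16754240)) (l 16753896)) (l 16752904)))))), by decide +kernel⟩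

def k69_A00pm_012_s1 : ∃ t, chk3 f_A00pm_012_s1 t 154 113 1 = true :=
  ⟨(c (b (b (a (a (b (a (b (l 16756256) (l 16755928)) (b (a (l 16755752) (l 16755408)) (l 16755240))) (a (b (a (l 16755760) (l 16755408)) (l 16755240)) (l 16754720))) (b (l 16754376) (l 16753680))) (l 16751960)) (a (c (l 16755896) (l 16756016)) (l 16750576))) (a (c (l 16751120) (l 16751296)) (l 16748472))) (b (a (b (a (b (a (b (l 16756392) (a (l 16756216) (l 16755920))) (b (a (l 16755912) (l 16755568)) (a (l 16755576) (l 16755256)))) (a (b (a (b (l 16755968) (l 16755816)) (l 16755584)) (l 16755424)) (l 16754928))) (c (l 16754200) (b (l 16754656) (l 16754000)))) (c (l 16756160) (c (l 16756264) (l 16756120)))) (c (l 16754160) (l 16754392))) (a (c (l 16754136) (l 16754112)) (l 16749048)))), by decide +kernel⟩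

def k70_A00pm_012_s1 : ∃ t, chk3 f_A00pm_012_s1 t 155 56 1 = true :=
  ⟨(b (c (a (b (b (a (b (a (l 16755824) (b (l 16755296) (a (l 16755152) (l 16754808)))) (a (b (l 16755352) (a (l 16755208) (l 16754864))) (b (a (l 16754840) (l 16754488)) (l 16754344)))) (b (a (b (a (l 16754784) (l 16754432)) (a (l 16754464) (l 16754112))) (l 16753752)) (a (l 16753808) (l 16753112)))) (b (a (a (b (a (l 16754888) (l 16754544)) (l 16754392)) (l 16753864)) (l 16752816)) (a (a (l 16753904) (l 16753208)) (l 16752168)))) (b (a (c (l 16752528) (l 16752624)) (l 16751192)) (a (l 16751240) (l 16749864)))) (b (a (a (b (l 16752736) (l 16751456)) (b (l 16752056) (l 16750776))) (b (l 16751088) (l 16749816))) (b (l 16749168) (l 16747856)))) (a (b (a (b (b (a (l 16755936) (b (l 16755408) (a (l 16755264) (b (l 16755000) (l 16754840))))) (a (b (l 16755472) (a (l 16755328) (b (l 16755064) (l 16754904)))) (b (a (l 16754952) (l 16754608)) (a (l 16754640) (l 16754312))))) (b (a (b (a (b (l 16755096) (l 16754936)) (l 16754680))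 (a (l 16754704) (l 16754376))) (c (l 16753976) (l 16754080))) (l 16753752))) (b (b (a (b (a (l 16754888) (b (l 16754616) (l 16754472))) (a (l 16754576) (l 16754248))) (l 16753896)) (a (l 16753960) (l 16753296))) (l 16752728))) (c (a (l 16752120) (l 16750784)) (l 16754280))) (a (b (b (a (b (l 16753224) (l 16752632)) (l 16752280)) (l 16751408)) (l 16749584)) (b (l 16750736) (l 16748328))))) (a (b (c (l 16748520) (l 16749040)) (l 16751320)) (c (l 16749720) (b (l 16746472) (l 16743928))))), by decide +kernel⟩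

def k71_A00pm_012_s1 : ∃ t, chk3 f_A00pm_012_s1 t 152 228 1 = true :=
  ⟨(a (a (l 531635071) (a (l 531653247) (b (l 531659647) (b (l 531669119) (b (c (l 16756864) (l 16756704)) (a (c (l 16756664) (l 16756496)) (c (l 16756392) (b (l 16756288) (l 16756136))))))))) (b (a (b (l 531675263) (a (l 16757400) (c (l 16756872) (b (l 16756896) (a (l 16756696) (l 16756392)))))) (a (a (b (l 16757040) (b (l 16756528) (c (l 16756288) (b (l 16756184) (l 16756032))))) (b (l 16756744) (b (b (l 16756312) (a (l 16756232) (l 16756096))) (l 16755936)))) (b (c (b (l 16756536) (a (l 16756360) (l 16756112))) (b (a (l 16756536) (c (l 16756272) (l 16756176))) (a (b (l 16756272) (a (l 16756176) (l 16756040))) (l 16755920)))) (c (l 16755816) (b (l 16755728) (l 16755392)))))) (a (c (b (a (b (l 16756960) (a (l 16756768) (l 16756472))) (b (a (l 16756512) (l 16756256)) (l 16756104))) (a (b (a (l 16756432) (l 16756184)) (l 16756024)) (l 16755680))) (b (a (b (l 16756800) (a (l 16756600) (b (l 16756384) (l 16756216)))) (b (b (a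 (l 16756440) (l 16756144)) (a (l 16756264) (l 16755984))) (b (a (l 16756104) (l 16755816)) (l 16755792)))) (a (b (a (b (l 16756336) (l 16756176)) (b (l 16756056) (l 16755888))) (a (l 16755920) (l 16755640))) (l 16755376)))) (a (c (b (l 16755744) (l 16755128)) (b (l 16755472) (l 16754808))) (c (l 16754808) (l 16754568)))))), by decide +kernel⟩

def k72_A00pm_012_s1 : ∃ t, chk3 f_A00pm_012_s1 t 152 229 1 = true :=
  ⟨(a (b (a (b (l 531649919) (a (b (l 16757184) (c (l 16756904) (l 16756736))) (a (b (l 16756736) (c (b (l 16756552) (l 16756408)) (b (l 16756384) (l 16756224)))) (b (c (b (l 16756600) (l 16756448)) (b (l 16756424) (l 16756272))) (l 16756128))))) (b (a (b (a (l 16756840) (c (l 16756616) (l 16756440))) (b (a (l 16756568) (c (l 16756384) (l 16756200))) (c (l 16756376) (a (l 16756312) (l 16756032))))) (c (b (l 16756240) (l 16755952)) (b (a (b (l 16756248) (l 16756080)) (l 16755880)) (l 16755688)))) (b (a (c (l 16756160) (a (l 16756072) (l 16755784))) (l 16755528)) (c (l 16755640) (l 16755312)))))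 (a (b (b (a (a (c (l 16756704) (l 16756528)) (b (c (l 16756512) (l 16756336)) (l 16756272))) (c (l 16756080) (l 16755824))) (a (a (c (l 16756408) (l 16756208)) (l 16756048)) (l 16755656))) (c (l 16755632) (a (c (l 16755640) (l 16755472)) (l 16752376)))) (c (l 16757568) (b (l 16754816) (l 16754144))))) (a (b (a (c (l 16755328) (a (l 16755096) (l 16754816))) (c (l 16754712) (l 16754384))) (c (l 16753560) (l 16753336))) (c (l 16755544) (a (l 16755768) (l 16755184))))), by decide +kernel⟩

def k73_A00pm_012_s1 : ∃ t, chk3 f_A00pm_012_s1 t 153 114 1 = true :=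
  ⟨(c (b (a (c (b (a (b (a (l 16755896) (l 16755200)) (l 16754808)) (l 16753784)) (l 16752992)) (a (b (b (a (l 16755840) (l 16755304)) (l 16754928)) (l 16753840)) (l 16753200))) (c (l 16750960) (l 16751160))) (a (c (l 16750744) (l 16750968)) (l 16748112))) (b (a (a (b (b (a (a (b (l 16755960) (l 16755616)) (l 16755496)) (l 16755064)) (a (l 16754984) (l 16754400))) (l 16756320)) (c (l 16755984) (l 16755648))) (c (l 16754024) (l 16753808))) (a (c (l 16751240) (l 16753456)) (l 16748728)))), by decide +kernel⟩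

def k74_A00pm_012_s1 : ∃ t, chk3 f_A00pm_012_s1 t 76 115 1 = true :=
  ⟨(c (a (b (a (a (b (l 16754800) (l 16753296)) (l 16755296)) (l 16755840)) (c (l 16754008) (l 16754336))) (b (l 16751736) (l 16743480))) (a (b (a (b (a (a (l 16754568) (l 16754000)) (l 16753144)) (l 16754992)) (c (l 16751016) (l 16750440))) (a (c (l 16750648) (l 16750008)) (l 16747992))) (b (c (l 16747112) (l 16751984)) (l 16749640)))), by decide +kernel⟩

def k75_A00pm_012_s1 : ∃ t, chk3 f_A00pm_012_s1 t 77 57 1 = true :=
  ⟨(a (b (c (b (l 16752208) (l 16744040)) (b (c (l 16752712) (l 16752672)) (l 16750216))) (c (l 16739600) (c (l 16740544) (l 16740224)))) (a (b (c (l 16741464) (l 16742504)) (c (l 16735616) (l 16737160))) (c (b (l 16738856) (l 16733048)) (b (l 16740008) (l 16734608))))), by decide +kernel⟩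

def k76_A00pm_012_s1 : ∃ t, chk3 f_A00pm_012_s1 t 39 28 1 = true :=
  ⟨(b (a (c (a (b (a (b (l 16748520) (l 16745960)) (l 16744680)) (l 16740736)) (b (l 16740840) (l 16735752))) (a (b (b (a (l 16748848) (l 16746304)) (l 16750432)) (l 16746728)) (b (l 16741280) (l 16736400)))) (a (b (c (l 16735720) (l 16736088)) (l 16731016)) (b (l 16730696) (l 16725928)))) (a (a (b (c (l 16735224) (l 16736192)) (c (l 16734784) (l 16730616))) (c (b (l 16730408) (l 16724856)) (b (l 16730952) (l 16725448)))) (a (b (l 16725920) (l 16710144)) (b (l 16710448) (a (l 16716992) (c (l 16714208) (l 16714488))))))), by decide +kernel⟩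

def k77_A00pm_012_s1 : ∃ t, chk3 f_A00pm_012_s1 t 19 29 1 = true :=
  ⟨(a (b (a (a (b (a (c (l 16750856) (a (l 16752016) (l 16750832))) (c (l 16742912) (l 16749032))) (c (l 16748464) (c (l 16739288) (l 16738392)))) (b (c (l 16738904) (c (l 16740008) (l 16739376))) (c (l 16732760) (l 16734224)))) (a (b (b (l 16725432) (l 16722568)) (b (l 16719696) (l 16716896))) (c (b (a (l 16729696) (a (l 16727760) (l 16726600))) (a (l 16723760) (a (l 16721864) (l 16720736)))) (b (l 16730056) (l 16723984))))) (a (b (a (c (l 16732072) (l 16743448)) (c (l 16727016) (l 16727840))) (a (b (l 16729616) (c (l 16725504) (l 16724464))) (b (c (l 16723056) (l 16722840)) (c (l 16719904) (l 16720808))))) (b (c (b (a (l 16723328) (a (l 16719560) (a (a (l 16717968) (l 16717328)) (l 16716392)))) (a (a (l 16721968) (l 16719328)) (a (l 16716448) (l 16713352)))) (a (l 16733320) (a (l 16719496) (l 16728280)))) (c (a (c (l 16719960) (l 16716272)) (c (b (l 16731264) (l 16706408)) (l 16709784))) (a (l 16718944) (l 16712416))))))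 (a (b (a (c (b (l 16729000) (b (l 16719424) (a (l 16717656) (l 16715256)))) (b (l 16724872) (b (l 16720392) (l 16717720)))) (b (l 16719984) (b (a (l 16717008) (l 16714344)) (l 16711936)))) (a (b (c (a (l 16717632) (l 16709464)) (l 16713600)) (l 16704200)) (b (l 16705760) (c (l 16697160) (l 16677616))))) (b (b (b (a (l 16716592) (a (l 16712744) (l 16709736))) (a (a (l 16714960) (l 16712152)) (l 16707312))) (a (a (l 16709200) (l 16705928)) (b (l 16703096) (l 16677872)))) (a (b (a (l 16700880) (l 16697592)) (c (l 16691128) (l 16691560))) (b (c (l 16692760) (l 16703024)) (a (l 16686344) (l 16683016))))))), by decide +kernel⟩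

def k78_A00pm_012_s1 : ∃ t, chk3 f_A00pm_012_s1 t 36 60 1 = true :=
  ⟨(a (a (b (b (a (b (a (b (a (l 532004223) (b (l 16763736) (a (l 16763504) (l 16763120)))) (a (b (a (l 16763848) (l 16763464)) (a (b (l 16763536) (a (l 16763416) (c (l 16763280) (l 16763240)))) (b (a (l 16763248) (l 16763104)) (l 16763056)))) (b (a (b (l 16763184) (a (l 16763088) (l 16762944))) (b (l 16762864) (l 16762752))) (a (l 16762856) (l 16762616))))) (b (a (a (b (l 16763168) (b (l 16762848) (l 16762712))) (b (l 16762792) (l 16762512))) (b (a (l 16762480) (l 16762208)) (l 16762136))) (a (l 16762336) (l 16761840)))) (a (b (a (b (a (b (a (l 16763280) (l 16763152)) (l 16763120)) (l 16762920)) (l 16762864)) (l 16762456)) (a (l 16762584) (l 16762064))) (l 16764120))) (b (a (l 16761288) (l 16760264)) (l 16765112))) (b (a (a (c (l 16760592) (l 16760976)) (l 16759592)) (l 16757848)) (a (a (l 16758632) (l 16757496)) (l 16755816)))) (b (a (c (b (l 16755528) (l 16753264)) (l 16755336)) (c (l 16741664) (l 16753376))) (c (a (l 16749824)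 (l 16747744)) (l 16745048)))) (b (b (a (c (l 16758136) (l 16757744)) (l 16750792)) (a (l 16754592) (l 16747152))) (b (c (l 16748848) (l 16745272)) (c (a (l 16745704) (l 16733208)) (l 16741576))))) (c (b (a (b (l 16751984) (l 16748304)) (b (l 16747168) (l 16743784))) (a (b (l 16744560) (l 16740720)) (b (l 16740336) (l 16736760)))) (b (a (b (a (l 16752904) (l 16750408)) (a (l 16750392) (l 16747736))) (b (a (l 16747864) (l 16745304)) (c (l 16744536) (l 16742816)))) (a (b (c (l 16746200) (l 16745640)) (c (l 16742712) (l 16742880))) (b (c (l 16741792) (l 16739760)) (a (l 16739400) (l 16726008))))))), by decide +kernel⟩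

def k79_A00pm_012_s1 : ∃ t, chk3 f_A00pm_012_s1 t 36 61 1 = true :=
  ⟨(b (a (b (a (c (b (l 16745336) (l 16743000)) (a (l 16736448) (l 16745352))) (c (a (l 16741352) (l 16739504)) (a (l 16743792) (l 16742272)))) (b (a (c (l 16740616) (c (l 16742304) (l 16733128))) (c (l 16742352) (a (l 16740808) (l 16739336)))) (a (a (l 16745392) (c (l 16737328) (l 16745312))) (c (l 16739952) (c (l 16742160) (l 16736000)))))) (a (a (b (b (l 16740088) (l 16732896)) (c (l 16733112) (l 16736344))) (b (c (l 16735768) (l 16728600)) (l 16732624))) (a (b (a (l 16730696) (l 16724432)) (l 16730528)) (b (l 16733272) (l 16728344))))) (a (a (b (b (c (a (l 16736456) (l 16734808)) (a (l 16744328) (l 16742888))) (a (a (l 16740688) (l 16734632)) (l 16743864))) (a (c (l 16729528) (l 16737288)) (a (l 16739968) (l 16739128)))) (b (c (l 16730744) (a (l 16739824) (c (l 16731976) (l 16733656)))) (a (l 16737832) (l 16736032)))) (c (a (b (l 16726872) (l 16721360)) (l 16730488)) (b (a (l 16729960) (l 16725896)) (a (l 16734728) (l 16720248)))))),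 by decide +kernel⟩

def k80_A00pm_012_s1 : ∃ t, chk3 f_A00pm_012_s1 t 37 30 1 = true :=
  ⟨(b (a (b (a (c (b (l 16742400) (l 16739304)) (a (b (l 16742712) (l 16739608)) (b (l 16740104) (l 16736864)))) (c (l 16746648) (b (l 16741456) (l 16732744)))) (a (b (c (l 16736128) (a (l 16736504) (l 16733640))) (c (l 16732504) (a (l 16723352) (l 16731496)))) (b (a (a (l 16723648) (l 16711976)) (l 16720880)) (l 16729384)))) (b (a (b (c (l 16732832) (l 16730960)) (c (l 16730016) (a (l 16728776) (l 16726560)))) (b (b (l 16708384) (l 16707048)) (l 16705440))) (a (b (l 16707296) (l 16724040)) (l 16720384)))) (a (b (a (c (l 16725712) (l 16729248)) (c (l 16720824) (l 16724384))) (a (c (l 16726064) (l 16713512)) (c (l 16710856) (l 16714080)))) (b (a (l 16717312) (l 16711808)) (c (a (l 16705848) (l 16700560)) (b (l 16709112) (l 16682800)))))), by decide +kernel⟩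

def k81_A00pm_012_s1 : ∃ t, chk3 f_A00pm_012_s1 t 18 31 1 = true :=
  ⟨(b (b (a (a (a (a (b (c (l 16723640) (l 16731152)) (c (l 16717488) (l 16719496))) (b (c (l 16721968) (l 16724336)) (c (l 16715832) (l 16717944)))) (b (c (l 16719336) (l 16732320)) (b (l 16726336) (l 16723144)))) (a (b (l 16727288) (l 16721096)) (b (l 16723296) (l 16706664)))) (a (a (a (l 16717080) (l 16714880)) (a (l 16723088) (l 16720744))) (a (l 16706600) (l 16711952)))) (b (a (a (a (a (c (l 16711080) (l 16712816)) (c (l 16709432) (l 16711272))) (c (l 16706832) (l 16708816))) (a (l 16714608) (l 16700216))) (a (b (l 16716432) (l 16713168)) (l 16705320))) (a (a (a (c (l 16708840) (a (l 16705872) (l 16704320))) (c (l 16700184) (l 16701880))) (a (l 16707832) (l 16693472))) (a (a (l 16689328) (l 16684904)) (l 16698744))))) (b (a (a (c (a (b (l 16707200) (l 16689600)) (b (l 16693256) (l 16686104))) (a (b (a (l 16698688) (l 16697120)) (a (l 16691288) (l 16689688))) (b (l 16694656) (l 16687192)))) (b (a (l 16700768) (l 16686432))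 (a (l 16682936) (l 16679088)))) (a (a (a (l 16679728) (l 16677608)) (l 16695280)) (b (l 16691840) (l 16663632)))) (a (a (a (c (b (l 16682280) (l 16674744)) (b (a (l 16683672) (l 16682032)) (l 16685472))) (c (b (l 16678704) (l 16671096)) (b (l 16679472) (l 16671528)))) (b (c (l 16673000) (l 16684496)) (c (l 16665304) (l 16676472)))) (a (a (c (l 16662968) (l 16664016)) (l 16680056)) (c (l 16651608) (l 16673848)))))), by decide +kernel⟩

def k82_A00pm_012_s1 : ∃ t, chk3 f_A00pm_012_s1 t 19 15 1 = true :=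
  ⟨(b (a (b (b (a (a (a (l 16713248) (l 16720640)) (l 16715888)) (c (a (l 16686800) (l 16722240)) (l 16707888))) (a (c (l 16709600) (l 16713168)) (a (l 16701544) (a (l 16696536) (l 16651288))))) (a (b (a (l 16706000) (l 16699816)) (c (l 16713064) (l 16695224))) (a (b (l 16693432) (l 16684352)) (b (a (l 16688440) (l 16685152)) (l 16698816))))) (a (a (b (b (l 16696392) (l 16688576)) (b (l 16680544) (l 16671848))) (b (b (c (l 16689504) (l 16690720)) (l 16682288)) (b (l 16674344) (l 16665808)))) (b (a (b (l 16694056) (l 16675888)) (b (a (l 16678648) (l 16675328)) (a (l 16671008) (l 16667712)))) (b (a (l 16668024) (a (l 16663200) (l 16659944))) (a (l 16659568) (a (l 16654816) (l 16651608))))))) (a (b (a (b (c (l 16681456) (l 16705224)) (a (l 16673296) (l 16667752))) (b (a (l 16673848) (l 16667624)) (a (l 16661936) (l 16655920)))) (a (b (a (l 16659664) (l 16654264)) (c (l 16641480) (l 16642808))) (b (a (l 16648600) (l 16642760)) (a (l 16633824) (l 16628136))))) (b (a (b (a (l 16661928) (l 16656144))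 (a (l 16650552) (l 16645200))) (b (a (l 16650208) (a (l 16645576) (l 16642440))) (a (l 16639592) (a (l 16635216) (l 16632176))))) (a (b (a (l 16637712) (l 16632720)) (a (l 16623392) (l 16618760))) (b (a (l 16627488) (c (l 16623240) (l 16620832))) (a (l 16613896) (c (l 16610248) (l 16607400)))))))), by decide +kernel⟩

def k83_A00pm_012_s1 : ∃ t, chk3 f_A00pm_012_s1 t 40 2 1 = true :=
  ⟨(b (l 3) (b (l 3) (a (l 3) (b (l 3) (b (a (l 3) (a (l 3) (a (l 531339135) (l 531347583)))) (a (a (l 3) (a (l 531438719) (l 531437951))) (a (l 531441791) (l 531319167)))))))), by decide +kernel⟩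

def k84_A00pm_012_s1 : ∃ t, chk3 f_A00pm_012_s1 t 41 4 1 = true :=
  ⟨(l 2), by decide +kernel⟩

def k85_A00pm_012_s1 : ∃ t, chk3 f_A00pm_012_s1 t 41 20 1 = true :=
  ⟨(a (l 3) (c (b (l 2) (a (a (l 3) (a (a (l 3) (l 533171071)) (a (l 533242239) (l 533572479)))) (a (b (l 2) (a (a (a (l 533241215) (l 533260927)) (l 533278335)) (a (l 533291647) (a (l 533297791) (l 533303167))))) (b (l 2) (b (l 2) (a (l 16773552) (l 16772592))))))) (b (l 2) (a (a (l 3) (a (a (l 3) (l 532977535)) (a (l 533026431) (l 533873791)))) (a (b (l 2) (a (a (a (l 533009279) (l 533022591)) (l 533035135)) (a (l 533045375) (a (l 533051007) (l 533055359))))) (b (l 2) (b (l 2) (a (l 16773304) (l 16772280))))))))), by decide +kernel⟩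

def k86_A00pm_012_s1 : ∃ t, chk3 f_A00pm_012_s1 t 82 21 2 = true :=
  ⟨(b (l 3) (a (l 3) (a (l 3) (b (a (l 3) (a (l 3) (l 531967359))) (a (a (l 3) (l 531652223)) (l 531780735)))))), by decide +kernel⟩

def k87_A00pm_012_s1 : ∃ t, chk3 f_A00pm_012_s1 t 83 42 2 = true :=
  ⟨(a (a (a (a (l 3) (l 532406911)) (a (l 532497023) (l 532583807))) (a (a (l 532666495) (l 532744831)) (a (l 532818559) (a (l 532867967) (l 532900479))))) (b (b (a (a (a (l 533099791) (l 533134463)) (l 16774056)) (a (l 16773080) (l 16772104))) (a (a (a (l 532996879) (l 533035391)) (l 16773560)) (a (l 16772568) (l 16771576)))) (b (a (a (a (l 532893455) (l 16773768)) (l 16773016)) (a (l 16772016) (l 16771008))) (a (a (a (l 16773696) (l 16773192)) (l 16772424)) (a (l 16771416) (l 16770392)))))), by decide +kernel⟩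

def k88_A00pm_012_s1 : ∃ t, chk3 f_A00pm_012_s1 t 166 43 2 = true :=
  ⟨(a (a (a (l 531973247) (l 532054655)) (a (l 532133503) (l 532209791))) (a (a (l 532283519) (l 532354175)) (a (l 532689791) (a (l 532467071) (l 532497791))))), by decide +kernel⟩

def k89_A00pm_012_s1 : ∃ t, chk3 f_A00pm_012_s1 t 167 43 2 = true :=
  ⟨(a (a (a (a (l 532526719) (l 532552575)) (b (l 532684159) (l 532489599))) (b (b (l 16771792) (l 16771112)) (b (l 16770384) (l 16769608)))) (a (a (c (c (b (a (l 16770912) (a (l 16770728) (b (b (l 16771112) (b (l 16770864) (a (a (l 16770736) (l 16770704)) (l 16770648)))) (a (a (l 16770288) (a (a (a (l 16770256) (l 16770224)) (l 16770200)) (l 16770184))) (l 16770152))))) (a (l 16769440) (b (a (l 16772248) (a (a (l 16769496) (l 16769376)) (l 16769288))) (a (a (l 16768872) (l 16768744)) (l 16768496))))) (b (a (l 16770848) (a (l 16770656) (b (b (l 16771040) (b (l 16770792) (a (a (l 16770664) (l 16770632)) (l 16770584)))) (a (a (l 16770224) (a (a (a (l 16770192) (l 16770160)) (l 16770136))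 (l 16770128))) (l 16770088))))) (a (l 16769376) (b (a (l 16772184) (a (a (l 16769432) (l 16769320)) (l 16769240))) (a (a (l 16768808) (l 16768688)) (l 16768456)))))) (c (b (a (l 16770784) (a (l 16770584) (a (a (b (l 16770848) (l 16770152)) (b (b (l 16770984) (l 16770648)) (a (a (a (l 16770120) (l 16770096)) (l 16770072)) (l 16770064)))) (b (l 16770768) (l 16770024))))) (a (l 16769312) (a (b (l 16772112) (a (l 16768744) (l 16768632))) (b (a (a (l 16769368) (l 16769272)) (l 16769192)) (l 16768408))))) (b (a (l 16770712) (a (l 16770520) (a (a (b (l 16770776) (l 16770080)) (b (b (l 16770912) (l 16770576)) (b (b (l 16770312) (l 16770128)) (l 16769832)))) (b (l 16770696) (l 16769952))))) (a (l 16769248) (a (b (l 16772048) (a (l 16768680) (l 16768568))) (b (a (a (l 16769304) (l 16769216)) (l 16769136)) (l 16768360))))))) (b (b (l 16770512) (l 16769768)) (l 16768480))) (b (b (l 16769736) (l 16768984)) (l 16767696)))), by decide +kernel⟩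

def k90_A00pm_012_s1 : ∃ t, chk3 f_A00pm_012_s1 t 82 21 3 = true :=
  ⟨(b (l 3) (a (l 3) (a (l 3) (a (a (l 3) (l 532120959)) (a (l 531913599) (l 531973503)))))), by decide +kernel⟩

def k91_A00pm_012_s1 : ∃ t, chk3 f_A00pm_012_s1 t 83 42 3 = true :=
  ⟨(a (a (a (a (l 3) (l 532388479)) (a (l 532451199) (l 532511359))) (a (a (l 532568447) (l 532622719)) (a (l 532673151) (a (l 532706943) (l 532729215))))) (a (a (a (a (l 532749695) (l 532767103)) (l 533323391)) (b (b (l 16776480) (l 16773352)) (b (l 16772800) (l 16772208)))) (a (a (b (b (l 16773080) (l 16772560)) (b (l 16772000) (l 16771392))) (a (a (b (b (l 16772752) (l 16772232)) (b (l 16771664) (l 16771056))) (a (b (b (l 16772656) (l 16772128)) (b (l 16771568) (l 16770960))) (a (b (b (l 16772608) (l 16772080)) (b (l 16771512) (l 16770904))) (b (b (l 16772576) (l 16772048)) (b (l 16771480) (l 16770872)))))) (b (b (l 16772432) (l 16771904)) (b (l 16771328) (l 16770720))))) (b (b (l 16771776) (l 16771240)) (b (l 16770664) (l 16770048)))))), by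 decide +kernel⟩

def k92_A00pm_012_s1 : ∃ t, chk3 f_A00pm_012_s1 t 83 43 3 = true :=
  ⟨(a (a (a (a (l 532031615) (l 532087935)) (a (l 532142719) (l 532195455))) (a (a (l 532246143) (l 532294783)) (a (l 532340863) (a (l 532371839) (l 532392831))))) (a (a (a (a (l 532412543) (l 532430207)) (b (l 532535167) (l 532372607))) (b (b (l 16771568) (l 16770888)) (b (l 16770160) (l 16769392)))) (a (a (c (c (b (a (l 16770648) (a (l 16770448) (a (a (b (l 16770704) (l 16770008)) (b (b (l 16770840) (l 16770504)) (b (b (l 16770240) (l 16770056)) (l 16769768)))) (b (l 16770624) (l 16769888))))) (a (l 16769184) (a (b (l 16771976) (a (l 16768608) (l 16768504))) (b (a (a (l 16769240) (l 16769152)) (l 16769080)) (l 16768312))))) (b (a (l 16770576) (a (l 16770376) (a (a (b (l 16770632) (l 16769936)) (b (b (l 16770768) (l 16770432)) (b (b (l 16770168) (l 16769984)) (l 16769696)))) (b (l 16770544) (l 16769824))))) (a (l 16769112) (a (b (l 16771912) (a (l 16768544) (l 16768440))) (b (a (a (l 16769176) (l 16769096))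 (l 16769024)) (l 16768256)))))) (b (a (l 16773096) (a (l 16770264) (b (b (l 16770640) (b (l 16770384) (a (a (l 16770272) (l 16770232)) (l 16770176)))) (a (a (l 16769824) (b (b (l 16770056) (l 16769872)) (l 16769592))) (l 16769712))))) (a (l 16769008) (a (b (a (l 16769224) (l 16769144)) (a (l 16768440) (l 16768344))) (b (a (a (l 16769072) (l 16769000)) (l 16768936)) (l 16768176)))))) (b (b (l 16770200) (l 16769480)) (l 16768264))) (b (b (l 16769384) (l 16768656)) (l 16767432))))), by decide +kernel⟩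

def k93_A00pm_012_s1 : ∃ t, chk3 f_A00pm_012_s1 t 164 22 1 = true :=
  ⟨(b (l 3) (b (a (l 3) (a (l 531237759) (l 530725391))) (a (a (l 3) (a (l 531278607) (l 531287935))) (l 530777615)))), by decide +kernel⟩

def k94_A00pm_012_s1 : ∃ t, chk3 f_A00pm_012_s1 t 165 22 1 = true :=
  ⟨(b (a (b (a (l 3) (a (l 3) (c (l 531371903) (l 531575167)))) (a (b (a (l 3) (a (l 3) (l 531300479))) (a (b (l 3) (b (b (l 3) (l 531240207)) (l 531246863))) (b (c (a (a (b (l 3) (l 531100031)) (l 531109759)) (l 531136895)) (a (a (a (l 3) (b (l 3) (l 531360127))) (l 531367551)) (l 531386239))) (c (a (l 531118607) (b (l 531135103) (l 531141247))) (a (a (c (l 531314559) (l 531420687)) (b (b (l 531368975) (l 531372303)) (l 531377791))) (b (c (l 531329407) (l 531432719)) (l 531387919))))))) (b (a (c (l 531223679) (l 531454847)) (l 531412863)) (b (a (c (l 531192703) (l 531424895)) (l 531380095)) (a (c (a (l 531168127) (l 531201151)) (a (l 531674751) (l 531428991))) (c (l 531249023) (l 531460223))))))) (b (a (a (l 531550335)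 (l 531616127)) (a (l 531680895) (l 531744127))) (b (a (a (l 531475583) (l 531537023)) (l 531894799)) (a (a (b (l 531440511) (l 531421199)) (l 531489407)) (a (l 531547007) (l 531603327)))))) (a (a (b (a (l 531285263) (a (c (l 531169407) (a (l 531404927) (l 531408767))) (b (b (c (l 531154559) (l 531396991)) (l 531301759)) (l 531325567)))) (a (l 531349887) (l 531366783))) (b (b (a (c (b (l 531193471) (l 531206783)) (b (a (l 531413887) (l 531433599)) (l 531433087))) (c (l 531256959) (l 531467391))) (a (c (l 531230079) (l 531448959)) (c (l 531276927) (l 531480959)))) (b (a (l 531376511) (l 531409791)) (l 531417359)))) (b (a (c (a (l 531589903) (l 531380863)) (b (a (l 531509119) (l 531551615)) (l 531534607))) (b (a (l 531526527) (l 531577983)) (a (l 531524479) (l 531571327)))) (a (a (a (l 531446911) (l 531465343)) (l 531493647)) (b (l 531550223) (l 16769256)))))), by decide +kernel⟩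

def k95_A00pm_012_s1 : ∃ t, chk3 f_A00pm_012_s1 t 82 23 1 = true :=
  ⟨(a (b (a (a (b (b (b (l 3) (l 531323263)) (l 531345791)) (l 531388543)) (b (c (b (l 531211647) (l 531246095)) (b (l 531429903) (a (l 531450639) (l 531458431)))) (a (l 531398527) (c (l 531302015) (l 531492735))))) (b (a (b (l 531350655) (l 530841871)) (l 530850575)) (a (b (l 530870031) (l 530897167)) (b (l 530893695) (l 530920063))))) (a (a (l 531467135) (a (l 531476607) (l 530947199))) (a (b (c (l 531381631) (l 531546383)) (l 530983695)) (b (c (l 531405951) (l 531564159)) (a (l 531534719) (l 531544591)))))) (b (a (a (b (a (l 531408511) (l 531423871)) (a (l 531462015) (l 531476351))) (b (b (l 531442703) (l 531467535)) (b (l 531491343) (l 531246095)))) (a (b (b (l 16769536) (l 16768480)) (b (l 16767392) (l 16766288))) (b (c (l 16767576) (l 531630607)) (a (b (l 16766424) (l 16765328)) (b (l 16765792) (l 16764696)))))) (a (a (a (b (l 531510911) (l 531555599)) (b (l 531523855) (a (l 531564671) (l 531571071)))) (b (a (l 531538959)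 (l 531556367)) (a (c (l 531512447) (l 531634559)) (b (l 531586943) (l 531605519))))) (c (a (b (a (l 531505279) (l 531530367)) (a (l 531550847) (l 531571471))) (a (b (l 531556735) (b (l 16761704) (l 16760496))) (b (l 531583247) (b (l 16761088) (l 16759880))))) (b (a (b (l 16765288) (l 16764128)) (b (l 16764000) (l 16762848))) (a (b (l 16762952) (l 16761736)) (b (l 16761672) (b (l 16760768) (l 16760160))))))))), by decide +kernel⟩

def k96_A00pm_012_s1 : ∃ t, chk3 f_A00pm_012_s1 t 332 11 1 = true :=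
  ⟨(b (b (a (b (a (l 531805823) (l 531865983)) (a (l 531685759) (l 531740543))) (a (c (l 531825535) (l 531876991)) (c (l 531890303) (l 531921535)))) (a (b (a (b (l 531628415) (l 16772896)) (b (l 16773216) (l 16769648))) (c (l 531842063) (l 531679759))) (b (b (c (l 16769608) (l 16769704)) (l 16771344)) (b (l 16767752) (l 16766760))))) (b (a (b (c (b (l 16766856) (l 16765800)) (b (l 16767056) (l 16766016))) (a (b (l 16765168) (l 16764072)) (b (l 16764544) (l 16763448)))) (b (b (l 16765744) (l 16764696)) (a (b (l 16763936) (l 16762840)) (b (l 16763328) (l 16762232))))) (b (b (a (c (l 16762496) (l 16762736)) (c (l 16761296) (l 16761496))) (c (a (b (l 16761640) (l 16761056)) (a (l 16760448) (b (l 16760144) (a (l 16759704) (l 16759392))))) (a (l 16761592) (b (l 16760640) (a (l 16760368) (a (l 16759904) (l 16759584))))))) (c (a (b (a (l 16760472) (l 16759872)) (b (a (l 16759576) (a (l 16759120) (l 16758816))) (a (l 16758968) (a (b (l 16758664) (l 16758344)) (b (l 16758336) (l 16757992)))))) (b (a (b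 (l 16759568) (a (l 16759120) (b (l 16758960) (l 16758632)))) (b (a (b (l 16759256) (l 16758944)) (l 16758744)) (l 16758256))) (a (b (a (b (l 16758656) (l 16758320)) (l 16758128)) (l 16757624)) (l 16757240)))) (a (b (b (l 16760712) (l 16760112)) (a (l 16759520) (b (a (l 16759352) (l 16759040)) (a (l 16758736) (l 16758408))))) (b (a (b (l 16759776) (a (l 16759336) (l 16759008))) (b (a (l 16759296) (l 16758960)) (l 16758496))) (a (b (a (l 16758712) (l 16758368)) (l 16757888)) (l 16757528)))))))), by decide +kernel⟩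

def k97_A00pm_012_s1 : ∃ t, chk3 f_A00pm_012_s1 t 333 11 1 = true :=
  ⟨(b (b (a (a (c (l 531953279) (l 531964543)) (b (l 532088447) (l 532480895))) (a (c (b (l 16773408) (l 16771616)) (l 532582015)) (a (b (l 532172671) (l 532020095)) (b (l 532195455) (l 532041087))))) (a (b (b (l 16768464) (l 16767520)) (b (l 16766552) (l 16765560))) (b (b (l 16767296) (l 16766344)) (b (l 16765376) (l 16764384))))) (b (b (a (b (l 16764544) (l 16763496)) (b (l 16763360) (a (l 16762608) (c (b (l 16762240) (l 16761688)) (l 16762024))))) (b (a (c (l 16762344) (l 16762480)) (a (c (b (l 16761752) (l 16761192)) (l 16761560)) (c (a (l 16763608) (l 16760616)) (l 16760904)))) (a (a (l 16761632) (b (l 16761312) (c (l 16760664) (l 16760800)))) (a (c (a (b (l 16760784) (l 16760168)) (l 16760112)) (a (l 16760600) (l 16760256))) (l 16759656))))) (b (a (a (b (b (l 16760792) (c (a (l 16760272) (l 16759968)) (l 16760280))) (c (b (a (l 16759680) (l 16759336)) (l 16758864)) (b (a (l 16759856) (l 16759520)) (l 16759072)))) (b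 (b (a (a (l 16760416) (l 16760256)) (l 16760000)) (c (l 16759440) (l 16759616))) (c (l 16758456) (l 16758688)))) (b (c (l 16761256) (l 16758864)) (a (l 16757872) (l 16757144)))) (b (a (a (b (l 16758344) (l 16757688)) (l 16757304)) (a (l 16756584) (l 16755856))) (a (a (l 16756704) (l 16755992)) (l 16754912)))))), by decide +kernel⟩

def k98_A00pm_012_s1 : ∃ t, chk3 f_A00pm_012_s1 t 334 11 1 = true :=
  ⟨(a (b (a (b (a (b (l 532216959) (l 532060799)) (l 532155775)) (b (b (l 16766424) (l 16765472)) (b (l 16764504) (l 16763504)))) (b (b (l 532263295) (l 532103807)) (c (b (l 16765400) (b (l 16763920) (a (l 16763040) (l 16762688)))) (b (l 16765320) (b (l 16763872) (l 16762848)))))) (c (b (b (a (b (a (l 16762600) (l 16762272)) (l 16763896)) (b (l 16761696) (l 16760488))) (a (l 16762024) (l 16758616))) (b (l 16761680) (l 16753800))) (b (b (a (b (l 16762448) (l 16761352)) (l 16761192)) (l 16764480)) (b (l 16756824) (l 16754320))))) (a (b (b (a (b (l 532285823) (l 532125567)) (b (l 532299135) (l 532138623)))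 (b (b (c (l 16765312) (l 16765192)) (c (a (l 16764480) (l 16764136)) (l 16766832))) (b (a (c (l 16763432) (l 16763384)) (l 16763032)) (l 16762112)))) (b (b (c (l 16760272) (l 16760456)) (l 16758000)) (b (l 16755528) (l 16742496)))) (a (a (b (b (b (l 532308351) (l 532147839)) (b (b (l 16767496) (l 16763816)) (l 16762176))) (b (b (l 16759888) (l 16757512)) (b (l 16755040) (l 16752496)))) (a (b (b (b (l 532312703) (b (l 16766728) (l 16765760))) (b (b (l 16764728) (l 16763664)) (l 16762024))) (b (b (l 16759736) (l 16757360)) (b (l 16754888) (l 16752352)))) (a (b (b (b (l 532315007) (b (l 16766672) (l 16765704))) (b (b (l 16764656) (l 16763584)) (l 16761944))) (b (b (l 16759664) (l 16757280)) (b (l 16754816) (l 16752272)))) (b (b (b (l 532317055) (b (l 16766640) (l 16765664))) (b (b (l 16764608) (l 16763536)) (l 16761896))) (b (b (l 16759608) (l 16757232)) (b (l 16754768) (l 16752224))))))) (b (b (b (l 532862079) (b (b (l 16766712) (l 16768848)) (b (l 16765712) (l 16765184)))) (b (b (l 16764376)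 (l 16763304)) (l 16761656))) (b (b (l 16759376) (l 16751752)) (b (l 16749296) (l 16752000))))))), by decide +kernel⟩

def k99_A00pm_012_s1 : ∃ t, chk3 f_A00pm_012_s1 t 1340 22 1 = true :=
  ⟨(b (a (b (b (a (l 16768064) (b (l 16768136) (l 16767696))) (a (b (l 16767408) (l 16766944)) (l 16769608))) (b (a (l 16766200) (l 16765968)) (l 16765016))) (b (b (a (a (l 16767768) (l 16767632)) (b (l 16767656) (l 16767176))) (a (l 16766728) (a (a (l 16766520) (l 16766416)) (l 16766336)))) (a (b (l 16765704) (l 16764640)) (b (a (a (l 16765496) (c (l 16765360) (l 16765392))) (l 16765304)) (a (a (l 16764424) (b (l 16764592) (c (l 16763960) (l 16764088)))) (l 16764232)))))) (a (b (b (l 16763936) (l 16762856)) (b (l 16761768) (l 16760648))) (b (a (b (l 16763552) (a (l 16762552) (l 16762400))) (b (a (a (b (l 16763608) (l 16763064)) (b (c (l 16763392) (l 16763568)) (c (l 16762824) (l 16763040)))) (b (l 16763416) (l 16762872))) (b (a (a (l 16762520) (c (b (l 16762400) (l 16762112)) (l 16762520))) (l 16762328)) (a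 (a (l 16761976) (a (a (a (l 16761904) (c (l 16761688) (l 16762000))) (l 16761840)) (l 16761824))) (l 16761784))))) (a (b (a (l 16761456) (l 16761304)) (a (l 16760344) (l 16760192))) (b (b (a (a (l 16761432) (a (a (a (l 16761360) (c (l 16761112) (l 16761472))) (l 16761296)) (l 16761280))) (l 16761240)) (a (a (l 16760880) (a (a (a (l 16760808) (c (l 16760536) (l 16760944))) (l 16760744)) (l 16760728))) (l 16760688))) (a (a (c (l 16759800) (l 16760224)) (c (a (a (a (l 16759712) (b (l 16759960) (l 16759368))) (l 16759632)) (l 16759616)) (b (b (l 16760536) (l 16760264)) (b (l 16759992) (l 16759720))))) (b (l 16760128) (l 16759568)))))))), by decide +kernel⟩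

def k100_A00pm_012_s1 : ∃ t, chk3 f_A00pm_012_s1 t 1340 23 1 = true :=
  ⟨(b (a (b (b (l 16759504) (l 16758344)) (b (l 16757160) (l 16755952))) (b (a (b (a (l 16759200) (l 16759048)) (a (l 16758040) (l 16757888))) (b (a (a (b (l 16759192) (l 16758616)) (a (a (c (a (l 16758528) (b (l 16758776) (l 16758184))) (a (l 16759064) (b (l 16759312) (l 16758760)))) (b (l 16759056) (l 16758480))) (b (l 16759040) (l 16758472)))) (b (l 16759000) (l 16758424))) (a (a (b (l 16758040) (l 16757456)) (c (b (b (l 16757736) (l 16757432)) (l 16756976)) (b (l 16758192) (l 16757624)))) (b (l 16757848) (l 16757264))))) (a (b (a (l 16756856) (l 16756704)) (l 16755568)) (b (c (a (a (l 16756192) (b (l 16756368) (l 16755752))) (l 16755976)) (a (a (l 16756856) (l 16756768)) (l 16756696))) (a (a (c (l 16754952) (l 16755688)) (c (b (l 16755136) (l 16754512)) (l 16755608))) (l 16752560)))))) (a (b (b (l 16754728) (l 16753480)) (l 16751576)) (b (c (a (b (l 16753928) (l 16752648)) (a (a (b (l 16753696) (l 16752424)) (b (l 16753576)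 (l 16752304))) (b (l 16753488) (l 16752216)))) (a (l 16754072) (b (l 16757048) (l 16753224)))) (a (l 16751216) (b (l 16748968) (l 16750320)))))), by decide +kernel⟩

def k101_A00pm_012_s1 : ∃ t, chk3 f_A00pm_012_s1 t 2682 11 1 = true :=
  ⟨(a (b (b (b (b (l 16767216) (l 16766232)) (b (l 16765208) (l 16764128))) (b (b (b (l 16763312) (l 16762768)) (b (l 16762224) (l 16761680))) (b (b (l 16761136) (l 16760584)) (b (l 16760024) (l 16759464))))) (b (b (b (b (l 16758896) (l 16758320)) (b (l 16757744) (l 16757160))) (b (b (l 16756576) (l 16755976)) (l 16755080))) (b (b (l 16753864) (l 16752632)) (l 16750752)))) (a (b (b (b (b (l 16767112) (l 16766136)) (b (l 16765104) (l 16764032))) (b (b (l 16762936) (b (l 16762120) (l 16761576))) (b (b (l 16761032) (l 16760480)) (b (l 16759920) (l 16759360))))) (b (b (b (b (l 16758792) (l 16758216)) (b (l 16757640) (l 16757056))) (b (l 16756168) (l 16754976))) (b (b (l 16753760) (l 16752528)) (l 16750648)))) (a (b (b (b (b (l 16767064) (l 16766088)) (b (l 16765056)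 (l 16763976))) (b (b (l 16762888) (b (l 16762072) (l 16761528))) (b (b (l 16760984) (l 16760432)) (b (l 16759872) (l 16759312))))) (b (b (b (b (l 16758744) (l 16758168)) (b (l 16757592) (l 16757008))) (b (l 16756120) (l 16754920))) (b (b (l 16753712) (l 16752472)) (l 16750592)))) (b (b (b (b (l 16767032) (l 16766048)) (b (l 16765024) (l 16763944))) (b (b (l 16762848) (b (l 16762032) (l 16761496))) (b (b (l 16760944) (l 16760392)) (b (l 16759840) (l 16759272))))) (b (b (b (b (l 16758704) (l 16758136)) (l 16757264)) (b (l 16756088) (l 16754888))) (b (b (l 16753672) (l 16752440)) (l 16750552))))))), by decide +kernel⟩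

def k102_A00pm_012_s1 : ∃ t, chk3 f_A00pm_012_s1 t 2683 11 1 = true :=
  ⟨(b (b (b (b (l 16766880) (l 16765896)) (b (l 16764864) (l 16763792))) (b (b (b (l 16762968) (l 16762424)) (b (l 16761880) (l 16761336))) (b (c (l 16760312) (l 16760664)) (c (l 16759144) (l 16759592))))) (b (b (b (b (l 16758552) (l 16757976)) (b (l 16757400) (l 16756816))) (b (b (l 16756224) (l 16755632)) (l 16754728))) (b (b (l 16753520) (l 16752280)) (l 16750400)))), by decide +kernel⟩

def k103_A00pm_012_s1 : ∃ t, chk3 f_A00pm_012_s1 t 671 11 1 = true :=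
  ⟨(b (b (b (b (l 16766200) (l 16765216)) (b (l 16764184) (c (l 16763056) (l 16763112)))) (b (b (c (l 16761912) (l 16762056)) (c (l 16760776) (l 16761000))) (b (c (l 16759632) (l 16759944)) (c (l 16758472) (l 16758872))))) (b (b (b (c (l 16757288) (l 16757776)) (c (l 16756080) (l 16756656))) (b (c (l 16754856) (l 16755512)) (c (l 16753616) (l 16754344)))) (b (b (l 16750192) (c (l 16751088) (l 16751952))) (l 16749688)))), by decide +kernel⟩

def k104_A00pm_012_s1 : ∃ t, chk3 f_A00pm_012_s1 t 21 4 1 = true :=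
  ⟨(l 2), by decide +kernel⟩

def k105_A00pm_012_s1 : ∃ t, chk3 f_A00pm_012_s1 t 21 10 1 = true :=
  ⟨(a (b (a (a (b (l 2) (a (b (l 2) (b (l 2) (l 16770952))) (l 2))) (l 2)) (l 2)) (a (b (b (a (a (b (l 16770440) (l 16769880)) (l 16773400)) (l 16770432)) (a (a (b (l 16769288) (l 16768648)) (l 16766904)) (l 16769088))) (b (c (a (b (l 16772392) (l 16771624)) (l 16773160)) (a (b (l 16771912) (l 16771160)) (l 16772464))) (a (a (a (l 16771736) (l 16765408)) (l 16769040)) (b (l 16761048) (l 16760112))))) (b (b (l 16769904) (l 16768352)) (b (a (l 16768696) (l 16754160)) (a (l 16756368) (l 16752216)))))) (b (l 2) (b (a (c (l 16772832) (l 16771240)) (l 2)) (a (b (l 16748240) (l 16767104)) (b (l 16740664) (l 16738296)))))), by decide +kernel⟩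

def k106_A00pm_012_s1 : ∃ t, chk3 f_A00pm_012_s1 t 21 22 1 = true :=
  ⟨(b (a (a (b (a (b (a (l 16764560) (l 16762384)) (c (l 16767824) (l 16762336))) (b (l 16759128) (l 16768576))) (a (a (b (c (l 16762568) (l 16762456)) (c (l 16761432) (l 16761400))) (b (l 16760312) (c (l 16759264) (l 16759112)))) (b (c (l 16757168) (l 16756784)) (c (l 16755992) (l 16755680))))) (b (a (c (l 16754624) (l 16753912)) (l 16750032)) (a (b (l 16752608) (l 16751432)) (b (l 16748280) (l 16747048))))) (a (b (a (l 16745856) (l 16741752)) (a (l 16743376) (l 16739160))) (b (l 16735744) (l 16732984)))) (a (a (b (a (a (c (b (l 16760288) (a (l 16759688) (l 16758592))) (b (l 16760336) (l 16759272))) (b (c (l 16758096) (l 16758032)) (c (l 16756936) (l 16756952)))) (b (a (l 16755840) (l 16753592)) (a (l 16754712) (l 16752448)))) (a (a (b (c (a (l 16758544) (l 16757440)) (l 16760840)) (c (a (l 16757384) (l 16756280)) (l 16757144))) (b (c (l 16755784) (l 16755888)) (c (l 16754616) (l 16754808)))) (c (b (l 16752440) (l 16751264))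 (b (l 16752376) (l 16751288))))) (a (b (c (l 16755056) (l 16749408)) (c (b (l 16747992) (l 16746776)) (l 16752376))) (b (c (l 16745472) (l 16744840)) (c (l 16742944) (l 16742488))))) (a (b (a (l 16740800) (l 16736480)) (c (a (l 16738560) (l 16734232)) (l 16746104))) (b (a (l 16732232) (l 16728056)) (a (l 16729496) (l 16725216)))))), by decide +kernel⟩

def k107_A00pm_012_s1 : ∃ t, chk3 f_A00pm_012_s1 t 21 23 1 = true :=
  ⟨(a (b (b (c (a (a (a (b (l 16758272) (l 16757064)) (b (l 16753432) (l 16752224))) (b (l 16755312) (l 16748864))) (a (b (l 16745568) (l 16744344)) (l 16740448))) (a (a (b (a (l 16756048) (l 16753712)) (c (l 16758936) (l 16759056))) (a (l 16756048) (l 16748432))) (a (l 16750128) (l 16740168)))) (a (a (c (b (c (l 16757160) (l 16752272)) (c (l 16750640) (l 16751048))) (b (a (l 16753776) (l 16751440)) (l 16756688))) (c (c (l 16752088) (l 16757608)) (b (l 16747912) (l 16746728)))) (a (c (l 16752952) (l 16742576)) (c (l 16737912) (l 16737808))))) (c (b (a (b (a (c (l 16749352) (l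 16749800)) (l 16745088)) (c (l 16745808) (l 16751504))) (c (l 16747936) (l 16748184))) (a (a (l 16746344) (l 16747032)) (c (l 16745200) (l 16735056)))) (a (a (b (b (l 16750248) (l 16749032)) (b (l 16747784) (l 16746528))) (b (l 16750152) (l 16742400))) (b (c (l 16748272) (l 16748200)) (a (l 16737616) (l 16732832)))))) (b (a (b (c (a (l 16735960) (l 16731544)) (l 16743640)) (c (a (l 16733384) (l 16728888)) (l 16741208))) (b (a (l 16726808) (l 16722416)) (a (l 16724152) (l 16719664)))) (a (a (b (l 16741264) (l 16728136)) (b (l 16726120) (l 16723472))) (c (b (l 16719440) (l 16716600)) (b (l 16718816) (l 16716160)))))), by decide +kernel⟩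

def k108_A00pm_012_s1 : ∃ t, chk3 f_A00pm_012_s1 t 11 2 1 = true :=
  ⟨(b (l 2) (b (a (a (b (l 2) (a (b (l 2) (l 16753064)) (l 2))) (l 2)) (l 2)) (b (a (a (b (a (b (l 16728008) (l 16725016)) (b (l 16720624) (l 16717376))) (a (b (l 16721944) (l 16718928)) (b (l 16714072) (l 16710824)))) (a (b (l 16711768) (l 16725728)) (b (l 2) (l 16697480)))) (a (b (l 2) (a (l 16690408) (l 2))) (l 2))) (b (a (a (a (b (l 16736944) (l 16723552)) (b (l 16707648) (l 16704528))) (a (b (l 16699640) (l 16696288)) (l 16711104))) (a (a (l 16682648) (l 16675544)) (a (l 16668664) (l 2)))) (b (a (a (a (l 16720680) (l 16701448)) (a (l 16692992) (l 16684848))) (a (l 16694200) (l 16658912))) (a (a (a (l 16728328) (l 16698408)) (a (l 16689744) (l 16681384))) (a (a (l 16673328) (l 16665592)) (l 16654592)))))))), by decide +kernel⟩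

def k109_A00pm_012_s1 : ∃ t, chk3 f_A00pm_012_s1 t 80 24 1 = true :=
  ⟨(a (b (l 3) (b (l 3) (a (l 3) (b (a (l 3) (a (b (l 3) (l 531647247)) (c (l 531603327) (l 531667071)))) (a (a (b (l 3) (l 531667071)) (l 531661327)) (l 531658511)))))) (a (b (l 3) (b (b (a (l 3) (b (l 3) (a (c (l 531555599) (l 531639423)) (l 531601935)))) (a (a (a (l 3) (b (l 3) (l 531625855))) (c (l 531575423) (l 531651455))) (a (l 531617551) (l 531615871)))) (a (a (l 531513359) (l 531646079)) (l 531643407)))) (b (b (l 3) (b (a (l 3) (a (l 3) (l 531549567))) (a (a (l 3) (c (a (l 531517311) (l 531515519)) (l 531617151))) (l 531235343)))) (a (b (a (c (l 531554175) (l 531641727)) (b (c (a (l 531540239) (l 531538815)) (l 531633167)) (l 531612543))) (l 531641215)) (b (b (a (l 531457551) (l 531590527)) (l 531610639)) (l 531370879)))))), by decide +kernel⟩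

def k110_A00pm_012_s1 : ∃ t, chk3 f_A00pm_012_s1 t 80 25 1 = true :=
  ⟨(b (a (b (a (b (a (b (l 3) (a (l 3) (c (l 531665535) (l 531697535)))) (a (c (l 531657855) (l 531694463)) (l 531679871))) (a (a (c (l 531680639) (l 531705471)) (l 531696767)) (l 531694975))) (a (b (l 531677455) (l 531692671)) (l 531682687))) (c (a (a (c (b (a (b (b (l 531677455) (l 531671167)) (l 531657999)) (b (l 531674127) (l 531658367))) (l 531631631)) (b (b (b (l 531697167) (a (l 531690367) (l 531691391))) (a (l 531675407) (l 531677567))) (l 531646991))) (b (b (c (l 531669631) (l 531694207)) (l 531670287)) (c (l 531634303) (l 531652223)))) (b (c (l 531660815) (l 531958143)) (a (l 531647615) (l 531650175)))) (a (a (c (b (b (b (l 531708943) (l 531700751)) (a (l 531683455) (l 531686783))) (l 531652623)) (b (b (b (l 531710735) (l 531701519)) (a (l 531681663) (l 531686015))) (l 531648527))) (b (b (c (l 531708287) (l 531712127)) (l 531693071)) (c (l 531659903) (l 531657599)))) (b (c (l 531707007) (l 531713151)) (l 531671567)))))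 (b (a (l 531411071) (l 531676543)) (c (a (b (l 531669631) (l 531653503)) (l 531667071)) (a (b (l 531713919) (l 531686527)) (l 531714575))))) (a (c (c (b (a (b (l 531599375) (l 531567487)) (l 531859583)) (a (l 531523199) (l 531534207))) (b (a (a (l 531590783) (l 531597439)) (l 531606399)) (a (l 531528319) (l 531541631)))) (b (a (a (c (l 531591551) (l 531582847)) (c (l 531599231) (l 531591295))) (b (l 531629439) (l 531588879))) (a (c (l 531523455) (l 531509375)) (l 531532815)))) (a (c (b (l 531609215) (l 16763608)) (b (l 531625087) (l 531548687))) (b (b (l 16763120) (l 16761248)) (b (l 16759320) (l 16757336)))))), by decide +kernel⟩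

def k111_A00pm_012_s1 : ∃ t, chk3 f_A00pm_012_s1 t 81 12 1 = true :=
  ⟨(b (a (b (a (a (c (l 531266687) (l 531588735)) (l 531533695)) (l 531533439)) (a (b (a (l 531363599) (l 531597695)) (l 531637263)) (b (l 531598463) (l 531638911)))) (b (a (l 531537535) (l 531278607)) (a (l 531622159) (a (l 531629439) (l 531635583))))) (b (b (a (a (l 531675775) (l 531677311)) (a (l 531682175) (b (l 16759128) (l 16757600)))) (a (a (b (l 16766584) (l 16762272)) (a (l 16761128) (l 16759808))) (a (b (l 16758664) (l 16754384)) (b (a (l 16756688) (a (l 16755704) (l 16755048))) (a (a (l 16755360) (l 16754704)) (l 16753704)))))) (a (b (a (a (l 16760208) (l 16758888)) (b (l 16757848) (a (l 16756624) (l 16755312)))) (a (b (l 16756664) (a (l 16755336) (b (l 16754504) (l 16748248)))) (b (a (l 16754680) (l 16753360)) (a (l 16752672) (l 16751344))))) (b (b (a (a (l 16755880) (l 16754568)) (l 16752584)) (a (a (l 16754000) (l 16752680)) (l 16750704))) (a (b (l 16751376) (l 16749360)) (l 16747744)))))), by decide +kernel⟩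

def k112_A00pm_012_s1 : ∃ t, chk3 f_A00pm_012_s1 t 40 13 1 = true :=
  ⟨(b (a (b (a (a (c (b (l 531474447) (l 16758144)) (b (l 531454591) (l 531403535))) (b (a (l 16760312) (l 16758960)) (b (l 16751224) (a (l 16754976) (b (l 16754160) (l 16747816)))))) (b (b (a (l 16752736) (c (l 16750040) (l 16750008))) (a (l 16750648) (a (b (l 16754400) (l 16748096)) (b (l 16747808) (l 16751992))))) (a (b (a (l 16749192) (c (l 16747864) (l 16747760))) (a (b (a (l 16753144) (l 16752464)) (l 16751696)) (l 16750896))) (b (a (b (l 16749648) (l 16751192)) (l 16750384)) (a (l 16749544) (l 16748200)))))) (a (b (a (b (a (l 16755488) (l 16748880)) (a (c (l 16748056) (l 16747888)) (b (a (l 16752768) (l 16752080)) (l 16751288)))) (b (a (b (l 16748072) (a (l 16752528) (l 16751848))) (c (l 16751448) (l 16751280))) (a (l 16750496) (l 16749128)))) (a (b (a (b (a (l 16751864) (l 16751176)) (l 16750392)) (l 16749592)) (a (l 16748704) (l 16747336))) (l 16749032))) (a (b (c (a (l 16759440) (l 16758088)) (b (l 16749248) (l 16746984)))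 (l 16743680)) (b (l 16745504) (l 16740960))))) (b (a (a (b (b (a (b (l 16748560) (l 16747520)) (b (l 16752464) (l 16751424))) (a (l 16751184) (l 16749848))) (l 16749896)) (b (b (l 16749952) (l 16742600)) (l 16744592))) (b (a (l 16746232) (l 16743584)) (l 16745824))) (a (b (l 16746696) (l 16736896)) (b (l 16736072) (l 16731488))))) (a (b (a (b (a (l 16744672) (l 16741928)) (l 16744120)) (b (l 16737832) (l 16733424))) (a (b (l 16734448) (l 16729976)) (b (l 16729048) (l 16724648)))) (b (a (b (l 16732392) (l 16727976)) (b (l 16721720) (c (l 16722688) (l 16711776)))) (a (b (l 16713136) (a (l 16720624) (l 16717944))) (a (b (l 16719544) (l 16704768)) (b (l 16711584) (c (l 16707552) (l 16701688)))))))), by decide +kernel⟩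

def k113_A00pm_012_s1 : ∃ t, chk3 f_A00pm_012_s1 t 164 24 1 = true :=
  ⟨(b (a (a (l 531560831) (c (l 531502463) (l 531625855))) (a (b (l 531028239) (l 531069711)) (b (c (l 531515007) (l 531635071)) (a (l 531618175) (l 531626623))))) (b (b (a (a (l 16762960) (l 531624575)) (a (l 531099775) (c (l 531598207) (l 16759120)))) (c (a (l 16760712) (a (l 531603583) (a (l 16757744) (l 16757096)))) (a (l 531678223) (a (l 16759032) (a (l 16758048) (l 16757400)))))) (a (a (l 531662975) (l 531268991)) (c (a (b (l 531625855) (b (l 16753584) (a (l 16755800) (l 16755136)))) (b (a (b (l 16756680) (l 16755952)) (b (a (l 16756192) (l 16755864)) (l 16755280))) (l 16754488))) (b (a (l 16757600) (b (a (l 16756984) (l 16756328)) (a (l 16756256) (l 16755600)))) (a (b (l 16756504) (a (l 16756096) (l 16755440))) (b (l 16755184) (l 16754432)))))))), by decide +kernel⟩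

def k114_A00pm_012_s1 : ∃ t, chk3 f_A00pm_012_s1 t 330 48 1 = true :=
  ⟨(c (c (b (a (l 531770495) (b (l 16761368) (l 16760096))) (b (a (l 16760088) (l 531569167)) (a (l 16758760) (b (l 16757816) (a (l 16757464) (l 16756816)))))) (b (a (l 531572495) (b (l 16761576) (l 16760304))) (a (l 531614479) (b (l 16759008) (a (l 16758000) (b (l 16757704) (l 16757024))))))) (c (a (b (l 531628559) (l 531661839)) (b (b (l 16761728) (l 16760456)) (b (l 16759160) (a (l 16758160) (b (l 16757848) (l 16757176)))))) (a (b (l 531668751) (l 531694095)) (b (b (l 16761840) (l 16760568)) (b (l 16759264) (a (l 16758256) (b (l 16757944) (l 16757264)))))))), by decide +kernel⟩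

def k115_A00pm_012_s1 : ∃ t, chk3 f_A00pm_012_s1 t 331 48 1 = true :=
  ⟨(b (b (c (a (a (l 16760520) (l 16759888)) (b (l 16759272) (a (l 16758952) (a (l 16758496) (l 16758184))))) (a (a (l 16760824) (l 16760184)) (b (l 16759544) (a (l 16759232) (b (l 16758760) (l 16758440)))))) (b (a (a (l 16759752) (l 16759112)) (b (a (l 16758648) (a (l 16758176) (c (l 16757696) (l 16757960)))) (a (l 16758328) (a (c (l 16757696) (l 16757960)) (l 16757512))))) (c (a (l 16758624) (a (a (l 16757840) (b (l 16757688) (l 16757352))) (a (l 16757176) (l 16756816)))) (a (l 16758912) (a (a (l 16758120) (b (l 16757960) (l 16757632))) (a (l 16757456) (l 16757112))))))) (a (c (b (b (a (l 16758288) (c (l 16757552) (l 16757752))) (a (l 16757632) (a (b (l 16757328) (l 16756984)) (l 16756816)))) (a (b (a (l 16757128) (b (l 16756976) (l 16756624))) (a (l 16756432) (l 16756080))) (b (l 16756272) (l 16755552)))) (b (b (a (l 16758584) (a (l 16758104) (l 16757784))) (a (l 16757928) (a (b (l 16757616) (l 16757280)) (l 16757112))))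 (a (b (a (l 16757424) (b (l 16757264) (l 16756920))) (l 16756568)) (b (l 16756584) (l 16755888))))) (b (a (b (a (b (c (l 16757352) (l 16757624)) (l 16757168)) (c (l 16756824) (l 16757120))) (c (l 16756288) (l 16756600))) (c (l 16755928) (l 16756264))) (a (b (l 16755768) (l 16755056)) (l 16752096))))), by decide +kernel⟩

def k116_A00pm_012_s1 : ∃ t, chk3 f_A00pm_012_s1 t 165 49 1 = true :=
  ⟨(a (b (a (a (c (b (l 16757832) (b (l 16756800) (b (l 16756264) (l 16755904)))) (b (l 16758144) (b (l 16757104) (l 16756392)))) (b (b (l 16757712) (c (l 16756848) (l 16757152))) (b (b (a (l 16756672) (l 16756336)) (a (l 16756312) (l 16755976))) (c (l 16755400) (l 16755720))))) (b (c (b (a (a (l 16757056) (l 16756728)) (a (l 16756400) (l 16756048))) (a (a (l 16756360) (l 16756016)) (l 16755488))) (a (b (l 16757192) (a (l 16756664) (l 16756328))) (b (a (l 16756704) (l 16756368)) (l 16755824)))) (c (c (l 16754600) (l 16754840)) (b (l 16755440) (l 16754712))))) (b (a (c (c (l 16754496) (l 16754728)) (l 16757576))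 (c (l 16747992) (l 16753616))) (a (l 16753320) (l 16751968)))) (b (c (b (a (b (l 16755176) (l 16754440)) (l 16753400)) (l 16752632)) (a (b (l 16757784) (l 16753728)) (b (l 16753808) (l 16752376)))) (b (l 16751408) (l 16749928)))), by decide +kernel⟩

def k117_A00pm_012_s1 : ∃ t, chk3 f_A00pm_012_s1 t 82 25 1 = true :=
  ⟨(a (b (b (a (a (b (l 16757152) (a (l 16755952) (l 16755296))) (a (b (l 16756168) (l 16754632)) (b (b (l 16755888) (l 16755128)) (l 16753960)))) (b (a (c (l 16754320) (b (l 16755016) (l 16754248))) (l 16753152)) (a (l 16752952) (l 16751608)))) (a (b (a (l 16754048) (l 16752712)) (l 16751712)) (b (l 16750704) (l 16749048)))) (b (c (l 16752744) (l 16747800)) (a (l 16745104) (l 16742472)))) (b (b (a (b (l 16751128) (l 16749592)) (l 16747656)) (a (l 16747192) (l 16744520))) (b (l 16747640) (l 16738536)))), by decide +kernel⟩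

def k118_A00pm_012_s1 : ∃ t, chk3 f_A00pm_012_s1 t 82 26 1 = true :=
  ⟨(b (a (b (l 16739616) (l 16735256)) (b (l 16734368) (l 16724720))) (a (b (l 16730720) (c (l 16726200) (l 16715400))) (b (c (l 16725400) (l 16714752)) (c (l 16710360) (l 16710016))))), by decide +kernel⟩

def k119_A00pm_012_s1 : ∃ t, chk3 f_A00pm_012_s1 t 82 54 1 = true :=
  ⟨(a (a (b (l 16722904) (l 16713216)) (b (l 16720216) (b (l 16716864) (l 16709416)))) (b (c (a (l 16717688) (l 16709768)) (a (l 16717184) (l 16703984))) (a (c (b (l 16714384) (l 16712208)) (b (l 16713760) (l 16711504))) (b (c (l 16706464) (l 16711024)) (a (c (l 16707576) (l 16709440)) (c (b (l 16706784) (a (c (l 16708720) (l 16708536)) (c (b (l 16708312) (l 16707736)) (l 16707816)))) (b (l 16708632) (a (l 16707848) (l 16707088))))))))), by decide +kernel⟩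

def k120_A00pm_012_s1 : ∃ t, chk3 f_A00pm_012_s1 t 164 55 1 = true :=
  ⟨(b (a (c (l 16703872) (l 16703240)) (c (b (l 16712736) (l 16705368)) (b (l 16712048) (l 16709856)))) (a (c (b (l 16711184) (a (l 16709752) (a (l 16703512) (b (l 16708624) (c (l 16707632) (l 16702136)))))) (b (l 16710480) (b (l 16708872) (a (l 16708488) (a (l 16707440) (b (l 16707008) (l 16706384))))))) (b (a (c (l 16709184) (l 16708392)) (b (c (c (l 16708456) (l 16708224)) (l 16707536)) (c (a (c (l 16707736) (b (l 16707784) (l 16707224))) (c (l 16707000) (l 16706728))) (a (b (l 16707080) (l 16706496)) (l 16705968))))) (a (a (b (c (l 16705320) (l 16707120)) (c (l 16706760) (l 16705848))) (c (b (b (l 16704904) (l 16706928)) (l 16705944)) (b (b (l 16706672) (l 16706024)) (l 16704928)))) (c (c (l 16705520) (l 16705160)) (l 16704272)))))), by decide +kernel⟩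

def k121_A00pm_012_s1 : ∃ t, chk3 f_A00pm_012_s1 t 165 55 1 = true :=
  ⟨(b (a (b (c (c (l 16704888) (l 16709936)) (a (l 16709968) (l 16708592))) (a (c (b (l 16709136) (a (l 16708416) (c (l 16705200) (l 16707584)))) (b (l 16708320) (a (l 16707576) (l 16706856)))) (a (c (b (c (l 16708208) (l 16707992)) (c (b (l 16707392) (l 16706800)) (l 16706832))) (b (l 16707272) (l 16706056))) (c (b (c (b (l 16707800) (l 16707232)) (b (l 16707568) (l 16706976))) (l 16706184)) (b (b (l 16706840) (l 16706208)) (l 16705152)))))) (b (b (a (c (a (l 16708920) (c (l 16708312) (l 16708112))) (a (l 16708112) (l 16707400))) (a (c (b (c (l 16707896) (l 16707688)) (l 16707224)) (l 16706624)) (c (l 16706736) (l 16705736)))) (a (c (a (b (l 16705496) (c (l 16707640) (l 16707416))) (c (l 16707184) (l 16706928))) (a (b (l 16707272) (l 16706672)) (l 16706144))) (c (l 16705880) (l 16704776)))) (c (a (c (l 16705744) (l 16705400)) (l 16703952)) (a (l 16704488) (l 16702624))))) (a (b (c (a (b (b (a (a (l 16707792) (l 16704824))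 (l 16706864)) (c (l 16706744) (l 16706464))) (l 16705672)) (c (l 16704840) (l 16704440))) (a (b (a (b (l 16706744) (l 16706120)) (l 16705568)) (l 16704600)) (l 16703464))) (c (c (l 16703080) (l 16702584)) (l 16701472))) (b (c (c (l 16702408) (l 16701856)) (l 16700640)) (l 16703904)))), by decide +kernel⟩

def k122_A00pm_012_s1 : ∃ t, chk3 f_A00pm_012_s1 t 166 12 1 = true :=
  ⟨(b (a (b (b (c (a (a (b (b (a (l 16758504) (b (l 16758352) (l 16758024))) (a (b (l 16758024) (l 16757688)) (l 16757504))) (b (l 16756984) (l 16756280))) (b (b (a (l 16757840) (l 16757480)) (l 16756968)) (l 16755920))) (b (a (l 16756592) (l 16755864)) (l 16754840))) (a (b (a (b (a (l 16758752) (b (l 16758592) (l 16758272))) (a (b (l 16758280) (l 16757952)) (l 16757776))) (b (a (l 16758096) (l 16757752)) (l 16757264))) (c (l 16756536) (l 16756640))) (b (l 16756560) (l 16755224)))) (a (b (c (l 16754864) (l 16755240)) (a (l 16754032) (l 16753336))) (b (a (l 16754040) (l 16753336)) (l 16747048)))) (b (a (l 16751544) (l 16750160))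 (l 16747936))) (b (b (a (b (l 16752392) (l 16753656)) (c (l 16763088) (l 16753128))) (a (l 16751592) (l 16750176))) (b (l 16748064) (l 16745184)))) (b (b (a (l 16744952) (l 16742224)) (a (l 16741840) (l 16739144))) (b (a (l 16738416) (l 16735752)) (a (l 16734600) (l 16731968))))), by decide +kernel⟩

def k123_A00pm_012_s1 : ∃ t, chk3 f_A00pm_012_s1 t 167 12 1 = true :=
  ⟨(b (a (b (a (b (l 16751464) (l 16748744)) (b (l 16749952) (l 16747264))) (a (l 16749768) (a (l 16743464) (l 16747968)))) (a (a (b (a (b (l 16748976) (l 16746312)) (b (a (l 16748632) (b (l 16749032) (l 16747728))) (a (l 16745976) (l 16745736)))) (a (l 16747408) (b (a (l 16743248) (l 16743024)) (l 16740344)))) (a (a (b (b (l 16748184) (l 16745544)) (b (l 16742840) (l 16740056))) (a (b (b (l 16748072) (l 16745440)) (b (l 16742728) (l 16739944))) (a (b (b (l 16748024) (l 16745384)) (b (l 16742672) (l 16739888))) (b (b (l 16747984) (l 16745344)) (l 16746480))))) (b (b (l 16747824) (l 16745184)) (b (l 16742464) (l 16739680))))) (b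 (b (l 16747104) (l 16744456)) (b (l 16741728) (l 16738936))))) (a (b (a (l 16743912) (l 16742520)) (b (l 16733056) (l 16729312))) (b (a (a (a (l 16736392) (b (l 16737480) (l 16734480))) (l 16735496)) (l 16734584)) (a (a (a (l 16729712) (a (l 16729448) (l 16718784))) (l 16728864)) (l 16727928))))), by decide +kernel⟩

def k124_A00pm_012_s1 : ∃ t, chk3 f_A00pm_012_s1 t 166 13 1 = true :=
  ⟨(b (a (b (b (l 16730432) (l 16726016)) (b (l 16710944) (c (l 16716840) (l 16716472)))) (b (b (l 16727816) (l 16723392)) (a (b (l 16719448) (c (l 16714840) (l 16714464))) (b (l 16707648) (b (l 16709376) (c (a (l 16712720) (b (l 16712616) (l 16711472))) (a (l 16712272) (l 16711552)))))))) (b (b (a (b (c (l 16713464) (l 16712936)) (a (c (l 16711904) (l 16711280)) (c (b (l 16711128) (a (l 16710352) (c (l 16709696) (l 16709584)))) (b (l 16710504) (l 16709320))))) (a (a (b (c (l 16711800) (l 16711248)) (c (b (c (l 16710128) (l 16710040)) (l 16708952)) (b (l 16709456) (l 16708168)))) (b (c (b (l 16711696) (l 16705320))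 (l 16710544)) (c (l 16708792) (l 16707960)))) (c (b (a (b (l 16711016) (l 16709840)) (l 16709696)) (l 16707624)) (b (a (l 16709776) (l 16708904)) (l 16706568))))) (a (b (a (c (b (l 16710248) (a (l 16709488) (c (b (l 16709136) (l 16708576)) (l 16708696)))) (b (l 16709552) (a (l 16708744) (l 16708024)))) (c (b (a (c (l 16709272) (l 16709136)) (l 16708504)) (c (l 16707760) (l 16707528))) (b (a (l 16708496) (l 16707688)) (l 16706744)))) (c (a (b (a (c (b (l 16708720) (l 16708160)) (l 16708256)) (l 16707624)) (l 16706784)) (l 16705800)) (a (b (a (l 16707552) (l 16706720)) (l 16705768)) (l 16704632)))) (c (a (b (l 16706712) (l 16704176)) (l 16703800)) (a (l 16704184) (l 16702248))))) (a (b (c (c (a (l 16703800) (l 16702184)) (l 16707696)) (a (l 16712672) (l 16700280))) (a (l 16697352) (l 16695472))) (b (a (l 16699376) (l 16697472)) (l 16692536))))), by decide +kernel⟩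

def k125_A00pm_012_s1 : ∃ t, chk3 f_A00pm_012_s1 t 167 26 1 = true :=
  ⟨(a (a (b (b (l 16725856) (l 16721432)) (b (b (l 16718000) (a (l 16715984) (l 16704832))) (b (a (c (l 16713656) (l 16713320)) (c (l 16712992) (l 16712560))) (c (a (l 16711344) (l 16710624)) (l 16715536))))) (a (b (b (l 16724880) (l 16720456)) (b (b (l 16717016) (c (l 16714640) (l 16714360))) (l 16710808))) (a (a (b (b (l 16724464) (l 16720048)) (b (b (l 16716600) (l 16714152)) (l 16710264))) (a (b (b (l 16724344) (l 16719920)) (b (l 16715248) (l 16710096))) (a (b (b (l 16724280) (l 16719864)) (b (l 16715176) (l 16710008))) (b (b (l 16724240) (l 16719824)) (b (l 16715128) (l 16709952)))))) (b (b (l 16724056) (b (l 16720768) (l 16718504))) (b (l 16714904) (l 16709680)))))) (a (b (a (a (b (l 16723728) (b (l 16720448) (l 16718176))) (a (b (l 16723496) (l 16719080)) (b (a (a (l 16723408) (l 16723400)) (l 16723344)) (l 16718904)))) (a (l 16731464) (l 16731136))) (b (a (a (l 16714488) (a (l 16714120) (l 16713832))) (l 16713360))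 (a (a (l 16709152) (a (l 16708680) (l 16708304))) (l 16707784)))) (b (b (l 16722024) (l 16717528)) (b (l 16712376) (l 16706784))))), by decide +kernel⟩

def k126_A00pm_012_s1 : ∃ t, chk3 f_A00pm_012_s1 t 167 27 1 = true :=
  ⟨(a (b (a (b (c (l 16707288) (l 16706072)) (l 16701264)) (b (l 16704888) (l 16699160))) (a (l 16713424) (a (l 16690784) (l 16689520)))) (a (a (b (a (l 16711080) (a (b (l 16702960) (l 16697016)) (b (b (l 16703984) (l 16701024)) (a (a (l 16696632) (l 16696416)) (l 16696280))))) (b (a (l 16691560) (a (l 16690864) (a (a (l 16690432) (b (l 16691776) (l 16688616))) (l 16690048)))) (a (l 16685280) (a (l 16684520) (a (a (l 16684056) (b (l 16685416) (l 16682176))) (l 16683640)))))) (a (a (b (b (l 16702200) (l 16696152)) (b (l 16689920) (l 16683512))) (a (b (b (l 16702072) (l 16696032)) (b (l 16689792) (l 16683384))) (a (b (b (l 16702016) (l 16695968)) (b (l 16689728) (l 16683320))) (b (b (l 16701968) (l 16695920)) (b (l 16689688) (l 16683272)))))) (b (b (l 16701784) (l 16695728))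 (b (l 16689488) (l 16683080))))) (b (b (l 16700936) (l 16694872)) (b (l 16688624) (b (l 16683824) (l 16680576)))))), by decide +kernel⟩

def k127_A00pm_012_s1 : ∃ t, chk3 f_A00pm_012_s1 t 21 6 1 = true :=
  ⟨(b (b (b (a (a (b (a (c (l 16743672) (l 16755072)) (c (l 16739072) (l 16739800))) (c (l 16738616) (l 16739528))) (b (a (c (l 16734448) (l 16734992)) (l 16730104)) (c (l 16739776) (l 16729840)))) (b (a (c (l 16722880) (l 16722968)) (c (l 16713712) (l 16713440))) (a (a (l 16722560) (l 16717840)) (l 16721280)))) (a (a (b (c (l 16735800) (l 16736768)) (l 16738776)) (b (l 16726816) (l 16723880))) (a (b (a (l 16719648) (l 16714888)) (l 16709008)) (b (l 16707792) (l 16704712))))) (a (a (b (c (l 16738968) (l 16729456)) (b (l 16724168) (l 16720400))) (b (b (l 16720864) (l 16717712)) (b (l 16714248) (l 16710392)))) (a (b (l 16709576) (l 16702456)) (b (b (l 16701544) (l 16698248)) (l 16692656))))) (b (b (a (b (a (b (l 16717352) (l 16715248)) (l 16706200)) (a (l 16711744) (l 16701592))) (a (b (l 16696168)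 (l 16691528)) (b (l 16644296) (l 16681560)))) (a (b (a (a (l 16709104) (l 16703944)) (a (l 16698816) (l 16693752))) (a (a (l 16703456) (l 16698192)) (a (l 16693000) (l 16687904)))) (b (a (l 16686232) (l 16676288)) (a (l 16680336) (l 16670432))))) (a (b (a (b (a (l 16697560) (l 16692216)) (a (b (l 16693000) (l 16689904)) (l 16686040))) (b (a (l 16686952) (l 16681760)) (a (l 16680704) (l 16675440)))) (a (c (b (a (l 16686936) (l 16681592)) (a (b (l 16682304) (l 16679168)) (l 16675352))) (b (a (l 16683176) (l 16677536)) (a (b (l 16678160) (l 16674760)) (l 16670744)))) (a (b (l 16679528) (a (l 16669064) (l 16666352))) (b (l 16668952) (l 16662320))))) (b (b (a (l 16674152) (l 16664160)) (a (a (l 16670248) (l 16665128)) (l 16657640))) (b (a (a (l 16663696) (l 16658512)) (l 16650880)) (a (a (l 16657000) (l 16651752)) (a (l 16646576) (l 16641472)))))))), by decide +kernel⟩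

def k128_A00pm_012_s1 : ∃ t, chk3 f_A00pm_012_s1 t 11 6 1 = true :=
  ⟨(b (b (a (b (a (a (b (l 16725424) (l 16701504)) (b (l 16695392) (l 16692328))) (c (a (l 16685384) (l 16676856)) (a (l 16684136) (l 16675248)))) (a (a (b (l 16698440) (l 16695280)) (b (l 16689208) (l 16685984))) (c (c (l 16695176) (l 16716088)) (b (l 16674856) (l 16671536))))) (a (a (b (l 16688840) (l 16681728)) (b (l 16659792) (l 16652240))) (b (c (l 16649488) (l 16646632)) (c (l 16640952) (l 16638632))))) (a (b (a (a (b (l 16692048) (l 16688672)) (b (l 16682672) (l 16679224))) (c (b (l 16669024) (l 16665392)) (l 16708424))) (a (c (a (l 16682808) (l 16673328)) (l 16719672)) (c (l 16680328) (l 16658608)))) (b (a (b (l 16672008) (l 16668232)) (c (l 16674624) (l 16630824))) (a (c (l 16641256) (l 16640088)) (c (l 16623792) (l 16622176)))))) (b (a (b (a (c (l 16674656) (b (l 16670952) (l 16665888))) (b (l 16652456) (a (l 16652288) (l 16642776)))) (a (a (b (l 16666440) (l 16660624)) (l 16653856)) (a (l 16644232) (l 16634720))))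 (b (a (a (l 16635976) (l 16626800)) (c (l 16613760) (l 16612024))) (a (c (l 16621712) (l 16618784)) (c (l 16603328) (l 16600416))))) (a (b (a (a (a (l 16653536) (l 16648672)) (l 16641496)) (a (l 16631968) (l 16622536))) (a (a (b (l 16641000) (l 16633968)) (b (l 16631328) (l 16624256))) (a (l 16639280) (l 16609024)))) (b (a (a (l 16613216) (l 16604008)) (c (l 16592528) (l 16587352))) (a (a (l 16599816) (l 16590712)) (a (l 16581712) (l 16572824))))))), by decide +kernel⟩

def k129_A00pm_012_s1 : ∃ t, chk3 f_A00pm_012_s1 t 40 28 1 = true :=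
  ⟨(a (b (a (b (l 16725472) (l 16710304)) (b (l 16709728) (c (l 16715664) (l 16705048)))) (a (b (c (l 16715792) (l 16716008)) (a (b (l 16713344) (l 16710272)) (b (c (l 16710528) (l 16710624)) (l 16707008)))) (b (a (a (l 16707448) (b (l 16712680) (l 16704784))) (b (a (l 16711384) (c (l 16710008) (l 16709840))) (a (l 16703248) (l 16706808)))) (a (a (l 16701144) (l 16699448)) (b (l 16698776) (l 16700216)))))) (b (a (b (c (l 16704592) (l 16704208)) (a (a (l 16701880) (b (l 16712216) (b (l 16710488) (l 16703992)))) (b (c (l 16705144) (a (l 16710632) (l 16704000))) (a (b (l 16703880) (l 16707680)) (c (l 16707080) (b (l 16707224) (l 16705536))))))) (b (a (b (l 16701544) (a (l 16710512) (c (l 16704176) (l 16703544)))) (a (b (l 16704784) (b (c (l 16708656) (l 16702720)) (a (b (l 16702624) (l 16707168)) (l 16701440)))) (b (a (l 16703776) (c (l 16703376) (b (l 16708448) (l 16707328)))) (b (c (l 16701952) (a (l 16706816) (l 16705936))) (c (l 16705784) (l 16704832)))))) (a (b (a (b (c (l 16709048) (l 16708448))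 (c (l 16707744) (l 16701824))) (b (c (l 16707592) (a (l 16702072) (l 16706440))) (l 16700512))) (c (l 16704616) (a (l 16704568) (l 16702728)))) (c (b (l 16704392) (l 16701296)) (b (a (l 16704248) (l 16702408)) (l 16699952)))))) (c (a (b (a (b (a (l 16708688) (l 16707136)) (l 16704576)) (b (l 16704680) (l 16701296))) (a (b (l 16701048) (l 16697368)) (l 16695928))) (b (a (c (l 16699968) (l 16709880)) (l 16706824)) (a (l 16692592) (l 16689208)))) (a (a (b (b (b (a (l 16709096) (l 16707432)) (l 16706560)) (l 16703824)) (l 16708568)) (b (c (b (l 16704064) (l 16700480)) (l 16712176)) (l 16704880))) (a (b (a (l 16709728) (l 16697384)) (l 16690672)) (b (l 16705064) (l 16686904))))))), by decide +kernel⟩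

def k130_A00pm_012_s1 : ∃ t, chk3 f_A00pm_012_s1 t 40 29 1 = true :=
  ⟨(b (a (a (b (a (l 16699144) (b (l 16703072) (l 16698984))) (c (l 16705136) (a (l 16695744) (l 16692144)))) (b (a (c (l 16698064) (l 16697208)) (c (l 16694840) (l 16693576))) (c (a (l 16689872) (l 16686648)) (a (l 16688528) (l 16684888))))) (b (a (c (a (l 16691576) (l 16688264)) (a (l 16689912) (l 16686208))) (c (b (l 16685192) (l 16681216)) (b (l 16682672) (l 16678432)))) (a (c (b (l 16683824) (l 16679648)) (b (l 16681576) (l 16677152))) (c (b (l 16677112) (l 16672952)) (b (l 16674064) (l 16669648)))))) (a (a (b (c (l 16686480) (a (l 16687160) (l 16683552))) (c (l 16678712) (b (l 16679240) (l 16675272)))) (b (c (a (l 16681696) (l 16678464)) (b (l 16680192) (l 16676008))) (c (a (l 16673928) (l 16670696)) (a (l 16671776) (l 16668104))))) (b (a (c (b (l 16675560) (l 16671568)) (b (l 16672824) (l 16668616))) (c (b (l 16668856) (l 16664864)) (b (l 16665304) (l 16661096)))) (a (c (b (l 16667680) (l 16663880)) (b (l 16664536)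 (l 16660552))) (c (b (l 16660968) (l 16657160)) (b (l 16656984) (l 16652992))))))), by decide +kernel⟩

def k131_A00pm_012_s1 : ∃ t, chk3 f_A00pm_012_s1 t 82 14 1 = true :=
  ⟨(b (b (a (b (a (b (a (a (b (l 16702968) (c (l 16707344) (l 16706528))) (b (c (l 16702576) (l 16704392)) (c (l 16706544) (l 16705632)))) (c (b (b (l 16704368) (l 16706328)) (l 16705304)) (c (l 16710560) (l 16709896)))) (c (c (l 16704216) (l 16703792)) (l 16708096))) (c (c (b (l 16703704) (l 16700944)) (b (l 16708488) (l 16700344))) (b (l 16712712) (l 16699120)))) (c (a (c (l 16697192) (l 16709656)) (l 16706592)) (a (l 16708408) (l 16704616)))) (a (b (c (c (l 16709520) (l 16698320)) (l 16707376)) (c (l 16692632) (l 16690264))) (b (b (l 16695736) (l 16692680)) (l 16687784)))) (a (b (c (c (l 16702176) (l 16701160)) (c (l 16699992) (l 16698664))) (c (l 16694504) (a (l 16683080) (l 16679192)))) (b (a (l 16695064) (l 16680752)) (a (l 16677048) (l 16673168))))) (b (a (b (c (l 16686776) (a (l 16674824) (l 16670912))) (c (b (l 16670184)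 (l 16666016)) (b (l 16666336) (l 16661912)))) (b (a (l 16669008) (l 16665096)) (a (l 16665760) (l 16656584)))) (a (a (b (b (l 16661696) (l 16657592)) (b (l 16653584) (l 16649664))) (b (b (l 16657976) (l 16653872)) (b (l 16649856) (l 16645936)))) (b (a (b (l 16654160) (l 16650056)) (l 16648152)) (a (b (l 16646040) (l 16642120)) (l 16640128)))))), by decide +kernel⟩

def k132_A00pm_012_s1 : ∃ t, chk3 f_A00pm_012_s1 t 83 14 1 = true :=
  ⟨(b (a (b (b (a (l 16690400) (l 16686384)) (a (l 16683888) (l 16679768))) (a (b (l 16676784) (l 16669144)) (b (l 16672568) (l 16664864)))) (a (b (b (l 16692256) (l 16674992)) (a (l 16665304) (l 16683552))) (a (a (b (a (b (l 16678792) (l 16671912)) (a (b (l 16677984) (l 16671056)) (b (a (a (l 16677488) (b (l 16678888) (l 16675520))) (l 16677040)) (a (a (l 16670528) (b (l 16672032) (l 16668416))) (l 16680544))))) (a (l 16681544) (a (b (l 16663608) (l 16655680)) (b (a (a (l 16663056) (b (l 16664664) (l 16660800))) (l 16662560)) (a (a (l 16655104) (b (l 16656816) (l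 16652728))) (l 16654592)))))) (a (a (b (b (l 16676912) (l 16669928)) (b (l 16662432) (l 16654472))) (a (b (b (l 16676784) (l 16669800)) (b (l 16662304) (l 16654344))) (a (b (b (l 16676720) (l 16669736)) (b (l 16662240) (l 16654280))) (b (b (l 16676680) (l 16669696)) (b (l 16662200) (l 16654240)))))) (b (b (l 16676480) (l 16669496)) (b (l 16662000) (l 16654040))))) (b (b (b (l 16677280) (l 16673904)) (l 16679096)) (b (l 16671608) (l 16653168)))))) (a (b (b (a (l 16661024) (l 16656688)) (a (l 16652488) (l 16648112))) (b (a (l 16644040) (l 16639640)) (a (l 16636008) (l 16631608)))) (b (b (a (l 16651592) (a (a (a (l 16648272) (a (l 16647328) (b (l 16669656) (l 16644400)))) (l 16645832)) (l 16644792))) (a (l 16642952) (a (a (a (l 16639576) (a (l 16638608) (b (l 16640016) (l 16635608)))) (l 16637088)) (l 16636056)))) (b (a (l 16634424) (a (a (a (l 16631016) (a (l 16630032) (l 16629208))) (l 16628488)) (l 16627472))) (a (l 16626368) (a (a (a (l 16622936) (l 16642504)) (l 16620384)) (l 16619376))))))),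 by decide +kernel⟩

def k133_A00pm_012_s1 : ∃ t, chk3 f_A00pm_012_s1 t 21 14 1 = true :=
  ⟨(b (b (a (a (b (a (c (b (l 16675976) (l 16672720)) (b (l 16671328) (l 16667824))) (c (l 16668928) (l 16663792))) (a (c (l 16678088) (b (l 16664208) (l 16660472))) (c (l 16662168) (l 16656520)))) (b (c (a (l 16663568) (l 16658272)) (a (l 16658088) (l 16652456))) (a (c (l 16656792) (l 16650768)) (l 16658888)))) (a (b (c (l 16650448) (l 16644168)) (c (l 16643568) (l 16636680))) (b (c (l 16640232) (l 16633392)) (c (l 16633280) (l 16625760))))) (a (a (b (a (c (l 16660384) (l 16654640)) (c (l 16654984) (l 16648824))) (a (c (l 16652704) (l 16646456)) (l 16654608))) (b (c (l 16667896) (a (l 16643040) (l 16637320))) (c (l 16639352) (l 16632064)))) (a (b (c (l 16636352) (l 16628872)) (c (l 16628776) (l 16620704))) (b (c (l 16625968) (l 16617800)) (c (l 16618384) (l 16609592)))))) (b (a (a (b (a (l 16662304) (l 16635816)) (a (l 16632632) (l 16627160))) (b (c (l 16631376) (l 16623552)) (a (l 16621720) (l 16616304))))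 (a (b (c (l 16620888) (l 16612248)) (l 16608232)) (b (l 16605992) (l 16597568)))) (a (b (a (a (l 16624080) (l 16618664)) (l 16610592)) (a (l 16613352) (l 16602696))) (b (a (l 16599912) (l 16589336)) (a (l 16592128) (l 16581656)))))), by decide +kernel⟩

def k134_A00pm_012_s1 : ∃ t, chk3 f_A00pm_012_s1 t 11 14 1 = true :=
  ⟨(a (b (a (a (b (b (l 16626840) (l 16619432)) (b (l 16611688) (l 16603672))) (b (b (l 16616960) (l 16609432)) (c (l 16602136) (l 16592424)))) (b (a (b (l 16607416) (l 16599728)) (c (l 16598312) (l 16589448))) (a (c (l 16592488) (l 16582272)) (c (l 16583112) (l 16572424))))) (a (b (c (b (l 16595320) (l 16587168)) (b (l 16626808) (l 16576048))) (b (c (l 16579312) (l 16567592)) (c (l 16572056) (l 16559816)))) (a (b (c (l 16576360) (l 16564600)) (l 16575528)) (b (c (l 16566848) (l 16554496)) (c (l 16551280) (l 16537504)))))) (b (a (b (a (l 16585056) (l 16576112)) (a (l 16568888) (l 16559816))) (b (a (l 16567240) (l 16558472)) (a (l 16551024) (l 16542432)))) (a (b (c (l 16553128)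 (l 16581816)) (c (l 16537376) (l 16522456))) (b (c (l 16535728) (l 16521584)) (b (l 16516072) (l 16508288)))))), by decide +kernel⟩

def k135_A00pm_012_s1 : ∃ t, chk3 f_A00pm_012_s1 t 40 15 1 = true :=
  ⟨(b (a (b (a (b (a (l 16671984) (l 16668608)) (a (l 16664392) (l 16661032))) (b (a (b (l 16667112) (l 16663320)) (b (l 16663664) (l 16659880))) (a (b (l 16659544) (l 16655752)) (b (l 16656112) (l 16652336))))) (a (b (a (l 16656656) (l 16653328)) (a (l 16648360) (l 16645072))) (b (a (b (l 16651928) (l 16648000)) (b (l 16648520) (l 16644608))) (a (l 16647000) (b (l 16640520) (l 16636232)))))) (b (a (b (c (a (l 16659936) (l 16656624)) (a (l 16656584) (l 16652840))) (a (b (l 16652648) (l 16648872)) (b (l 16649136) (l 16645376)))) (b (c (b (l 16653416) (l 16649720)) (b (l 16649080) (l 16645224))) (c (b (l 16646048) (l 16642368)) (b (l 16641392) (l 16637568))))) (a (b (a (b (l 16645072) (l 16641176)) (b (l 16641584) (l 16637696))) (a (b (l 16637104) (l 16632840)) (b (l 16633648) (l 16629400)))) (b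 (c (b (l 16638656) (l 16634856)) (b (l 16633728) (l 16629800))) (c (b (l 16630896) (l 16626752)) (b (l 16625704) (l 16621424))))))) (b (a (a (b (a (l 16639216) (l 16635992)) (a (l 16629128) (l 16626000))) (a (b (l 16632720) (l 16633296)) (b (b (l 16631744) (l 16627040)) (b (l 16622112) (l 16616960))))) (a (b (a (b (l 16628376) (l 16623696)) (b (l 16624960) (l 16620312))) (c (b (l 16619528) (l 16614496)) (b (l 16614656) (l 16609472)))) (b (c (b (l 16622416) (l 16617872)) (b (l 16616944) (l 16612256))) (c (b (l 16613128) (l 16608160)) (b (l 16607360) (l 16602240)))))) (a (b (a (c (l 16617968) (l 16614568)) (b (l 16613080) (l 16607264))) (a (c (l 16605352) (l 16601528)) (c (l 16600160) (l 16595416)))) (b (b (a (c (l 16609240) (l 16604056)) (c (l 16602968) (l 16596888))) (a (l 16603632) (c (l 16597544) (l 16591304)))) (a (b (l 16595024) (l 16588632)) (b (l 16588632) (l 16582472))))))), by decide +kernel⟩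

def k136_A00pm_012_s1 : ∃ t, chk3 f_A00pm_012_s1 t 41 15 1 = true :=
  ⟨(b (a (b (a (b (c (a (l 16646392) (l 16642848)) (a (l 16641344) (l 16637392))) (c (a (l 16639040) (l 16635504)) (a (l 16633688) (l 16629736)))) (b (a (b (l 16638264) (l 16634480)) (l 16632408)) (a (b (l 16630728) (l 16626992)) (l 16624896)))) (b (a (c (a (l 16631632) (l 16628104)) (b (l 16625968) (l 16622064))) (a (b (l 16623240) (l 16619408)) (l 16622624))) (a (a (b (l 16622944) (l 16618752)) (b (l 16619232) (l 16615056))) (a (b (l 16615424) (l 16611272)) (l 16614680))))) (a (b (b (a (l 16628296) (l 16623872)) (a (l 16620768) (l 16616336))) (b (a (l 16613256) (l 16608824)) (a (l 16605328) (l 16600912)))) (a (b (a (l 16616448) (l 16613520)) (b (l 16603536) (l 16606120))) (b (a (b (b (l 16636896) (l 16612080)) (l 16627368)) (l 16607760)) (b (b (l 16600128) (l 16596320)) (b (l 16613352) (l 16609256))))))) (a (b (b (a (c (b (l 16615624) (l 16611136)) (b (l 16609304) (l 16604664))) (a (b (l 16606928) (l 16602400)) (l 16611272)))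 (a (c (b (l 16606448) (l 16601544)) (b (l 16599824) (l 16594768))) (a (b (l 16597672) (l 16592736)) (l 16591376)))) (b (a (c (l 16604248) (b (l 16589488) (l 16583968))) (c (l 16607824) (a (l 16581032) (l 16577056)))) (a (b (l 16592392) (l 16575912)) (b (l 16574720) (l 16568888))))) (a (b (b (a (l 16596712) (l 16592336)) (a (l 16587360) (l 16583024))) (b (a (l 16577184) (l 16572928)) (a (l 16566136) (l 16561960)))) (a (b (b (l 16597576) (l 16577840)) (b (l 16567816) (l 16577928))) (b (a (a (a (l 16579080) (b (l 16582208) (l 16573000))) (l 16576504)) (l 16575544)) (a (a (a (l 16559112) (b (l 16563048) (l 16552280))) (l 16556608)) (l 16555680))))))), by decide +kernel⟩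

def k137_A00pm_012_s1 : ∃ t, chk3 f_A00pm_012_s1 t 21 15 1 = true :=
  ⟨(b (b (a (b (a (l 16605640) (l 16595144)) (l 16634864)) (b (l 16621472) (l 16572344))) (a (b (l 16585480) (l 16577632)) (b (l 16565072) (l 16557488)))) (b (a (b (l 16611168) (l 16602120)) (a (l 16591680) (l 16581912))) (a (b (l 16550424) (l 16539904)) (b (l 16572776) (l 16562560))))), by decide +kernel⟩

def k138_A00pm_012_s1 : ∃ t, chk3 f_A00pm_012_s1 t 11 15 1 = true :=
  ⟨(a (a (b (b (c (l 16561752) (l 16548832)) (b (l 16545152) (l 16537832))) (b (b (l 16529792) (l 16563120)) (b (c (l 16519232) (l 16504072)) (c (l 16509416) (l 16493824))))) (a (b (b (l 16540480) (l 16526848)) (b (c (l 16519040) (l 16503216)) (b (l 16497976) (l 16488152)))) (b (b (l 16530592) (c (l 16524832) (l 16509000))) (b (c (l 16510120) (l 16493360)) (b (l 16488896) (l 16479200)))))) (a (b (b (c (l 16523944) (l 16507696)) (b (l 16548280) (c (l 16508032) (l 16490368)))) (b (c (b (l 16500904) (l 16493160)) (b (l 16482672) (l 16474344))) (b (c (l 16484760)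 (l 16465352)) (c (l 16475672) (l 16455648))))) (b (b (b (l 16501112) (l 16536296)) (b (c (l 16496888) (l 16478008)) (c (l 16490464) (l 16470880)))) (b (b (c (l 16483584) (l 16463296)) (c (l 16476184) (l 16455184))) (b (c (l 16468136) (l 16446408)) (l 6)))))), by decide +kernel⟩

def k139_A00pm_012_s1 : ∃ t, chk3 f_A00pm_012_s1 t 3 2 1 = true :=
  ⟨(a (b (l 2) (b (l 2) (a (b (l 2) (a (a (b (l 2) (l 16685312)) (l 2)) (l 2))) (l 2)))) (l 2)), by decide +kernel⟩

def k140_A00pm_012_s1 : ∃ t, chk3 f_A00pm_012_s1 t 3 3 1 = true :=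
  ⟨(b (a (b (a (a (b (a (b (c (l 16635688) (l 16632112)) (c (l 16626104) (l 16623144))) (b (l 16663024) (c (l 16612616) (l 16609016)))) (a (b (c (l 16616864) (l 16614448)) (c (l 16607232) (l 16605168))) (b (c (l 16602320) (l 16599352)) (c (l 16591704) (l 16589184))))) (b (a (b (l 2) (l 16598432)) (l 2)) (a (b (c (l 16589112) (l 16585616)) (c (l 16577424) (l 16574480))) (b (l 16575416) (l 16605248))))) (a (a (b (l 2) (b (l 2) (l 16551264))) (l 2)) (l 2))) (a (b (a (a (b (c (l 16596520) (l 16594464)) (c (l 16627448) (l 16582616))) (a (b (l 16583544) (l 16592616)) (b (l 16575536) (l 16563304)))) (a (b (c (l 16564904) (l 16562200)) (c (l 16594000) (l 16549104))) (b (l 16591896) (c (l 16536840) (l 16533816))))) (b (a (a (l 16614648) (l 16597472)) (a (l 16580824) (c (l 16524560) (l 16520032)))) (a (a (l 16559720) (l 16542672)) (a (l 16526152) (l 16510184))))) (a (a (b (b (l 16579040) (l 16564000)) (b (c (l 16509360) (l 16505168)) (l 6))) (l 6)) (l 6)))) (l 6)) (a (a (b (b (a (b (a (l 16545536) (l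 16528672)) (a (l 16529696) (l 16513080))) (b (a (l 16512312) (l 16496496)) (c (l 16578528) (l 16566008)))) (a (b (a (l 16554088) (b (l 16500392) (l 16491584))) (a (b (l 16499120) (l 16491240)) (b (l 16483032) (l 16475072)))) (b (a (l 16480024) (l 6)) (l 6)))) (a (b (b (a (b (l 16483816) (l 16518880)) (b (l 16509616) (l 6))) (a (b (a (l 16474560) (l 16466064)) (a (l 16467768) (l 6))) (l 6))) (l 6)) (l 6))) (b (l 6) (l 6))) (l 6))), by decide +kernel⟩

theorem t141_A00pm_012_s1 : ∃ t, chk3 f_A00pm_012_s1 t 3 1 1 = true := ex3_b k139_A00pm_012_s1 k140_A00pm_012_s1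

theorem t142_A00pm_012_s1 : ∃ t, chk3 f_A00pm_012_s1 t 20 15 1 = true := ex3_a k135_A00pm_012_s1 k136_A00pm_012_s1

theorem t143_A00pm_012_s1 : ∃ t, chk3 f_A00pm_012_s1 t 10 15 1 = true := ex3_a t142_A00pm_012_s1 k137_A00pm_012_s1

theorem t144_A00pm_012_s1 : ∃ t, chk3 f_A00pm_012_s1 t 5 15 1 = true := ex3_a t143_A00pm_012_s1 k138_A00pm_012_s1

theorem t145_A00pm_012_s1 : ∃ t, chk3 f_A00pm_012_s1 t 41 14 1 = true := ex3_a k131_A00pm_012_s1 k132_A00pm_012_s1

theorem t146_A00pm_012_s1 : ∃ t, chk3 f_A00pm_012_s1 t 40 14 1 = true := ex3_b k129_A00pm_012_s1 k130_A00pm_012_s1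

theorem t147_A00pm_012_s1 : ∃ t, chk3 f_A00pm_012_s1 t 20 14 1 = true := ex3_a t146_A00pm_012_s1 t145_A00pm_012_s1

theorem t148_A00pm_012_s1 : ∃ t, chk3 f_A00pm_012_s1 t 10 14 1 = true := ex3_a t147_A00pm_012_s1 k133_A00pm_012_s1

theorem t149_A00pm_012_s1 : ∃ t, chk3 f_A00pm_012_s1 t 5 14 1 = true := ex3_a t148_A00pm_012_s1 k134_A00pm_012_s1

theorem t150_A00pm_012_s1 : ∃ t, chk3 f_A00pm_012_s1 t 5 7 1 = true := ex3_b t149_A00pm_012_s1 t144_A00pm_012_s1

theorem t151_A00pm_012_s1 : ∃ t, chk3 f_A00pm_012_s1 t 167 13 1 = true := ex3_b k125_A00pm_012_s1 k126_A00pm_012_s1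

theorem t152_A00pm_012_s1 : ∃ t, chk3 f_A00pm_012_s1 t 83 13 1 = true := ex3_a k124_A00pm_012_s1 t151_A00pm_012_s1

theorem t153_A00pm_012_s1 : ∃ t, chk3 f_A00pm_012_s1 t 83 12 1 = true := ex3_a k122_A00pm_012_s1 k123_A00pm_012_s1

theorem t154_A00pm_012_s1 : ∃ t, chk3 f_A00pm_012_s1 t 83 6 1 = true := ex3_b t153_A00pm_012_s1 t152_A00pm_012_s1

theorem t155_A00pm_012_s1 : ∃ t, chk3 f_A00pm_012_s1 t 82 55 1 = true := ex3_a k120_A00pm_012_s1 k121_A00pm_012_s1

theorem t156_A00pm_012_s1 : ∃ t, chk3 f_A00pm_012_s1 t 82 27 1 = true := ex3_b k119_A00pm_012_s1 t155_A00pm_012_s1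

theorem t157_A00pm_012_s1 : ∃ t, chk3 f_A00pm_012_s1 t 82 13 1 = true := ex3_b k118_A00pm_012_s1 t156_A00pm_012_s1

theorem t158_A00pm_012_s1 : ∃ t, chk3 f_A00pm_012_s1 t 165 48 1 = true := ex3_a k114_A00pm_012_s1 k115_A00pm_012_s1

theorem t159_A00pm_012_s1 : ∃ t, chk3 f_A00pm_012_s1 t 165 24 1 = true := ex3_b t158_A00pm_012_s1 k116_A00pm_012_s1

theorem t160_A00pm_012_s1 : ∃ t, chk3 f_A00pm_012_s1 t 82 24 1 = true := ex3_a k113_A00pm_012_s1 t159_A00pm_012_s1

theorem t161_A00pm_012_s1 : ∃ t, chk3 f_A00pm_012_s1 t 82 12 1 = true := ex3_b t160_A00pm_012_s1 k117_A00pm_012_s1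

theorem t162_A00pm_012_s1 : ∃ t, chk3 f_A00pm_012_s1 t 82 6 1 = true := ex3_b t161_A00pm_012_s1 t157_A00pm_012_s1

theorem t163_A00pm_012_s1 : ∃ t, chk3 f_A00pm_012_s1 t 41 6 1 = true := ex3_a t162_A00pm_012_s1 t154_A00pm_012_s1

theorem t164_A00pm_012_s1 : ∃ t, chk3 f_A00pm_012_s1 t 80 12 1 = true := ex3_b k109_A00pm_012_s1 k110_A00pm_012_s1

theorem t165_A00pm_012_s1 : ∃ t, chk3 f_A00pm_012_s1 t 40 12 1 = true := ex3_a t164_A00pm_012_s1 k111_A00pm_012_s1

theorem t166_A00pm_012_s1 : ∃ t, chk3 f_A00pm_012_s1 t 40 6 1 = true := ex3_b t165_A00pm_012_s1 k112_A00pm_012_s1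

theorem t167_A00pm_012_s1 : ∃ t, chk3 f_A00pm_012_s1 t 20 6 1 = true := ex3_a t166_A00pm_012_s1 t163_A00pm_012_s1

theorem t168_A00pm_012_s1 : ∃ t, chk3 f_A00pm_012_s1 t 10 6 1 = true := ex3_a t167_A00pm_012_s1 k127_A00pm_012_s1

theorem t169_A00pm_012_s1 : ∃ t, chk3 f_A00pm_012_s1 t 5 6 1 = true := ex3_a t168_A00pm_012_s1 k128_A00pm_012_s1

theorem t170_A00pm_012_s1 : ∃ t, chk3 f_A00pm_012_s1 t 5 3 1 = true := ex3_b t169_A00pm_012_s1 t150_A00pm_012_s1

theorem t171_A00pm_012_s1 : ∃ t, chk3 f_A00pm_012_s1 t 21 11 1 = true := ex3_b k106_A00pm_012_s1 k107_A00pm_012_s1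

theorem t172_A00pm_012_s1 : ∃ t, chk3 f_A00pm_012_s1 t 21 5 1 = true := ex3_b k105_A00pm_012_s1 t171_A00pm_012_s1

theorem t173_A00pm_012_s1 : ∃ t, chk3 f_A00pm_012_s1 t 21 2 1 = true := ex3_b k104_A00pm_012_s1 t172_A00pm_012_s1

theorem t174_A00pm_012_s1 : ∃ t, chk3 f_A00pm_012_s1 t 1341 11 1 = true := ex3_a k101_A00pm_012_s1 k102_A00pm_012_s1

theorem t175_A00pm_012_s1 : ∃ t, chk3 f_A00pm_012_s1 t 1340 11 1 = true := ex3_b k99_A00pm_012_s1 k100_A00pm_012_s1

theorem t176_A00pm_012_s1 : ∃ t, chk3 f_A00pm_012_s1 t 670 11 1 = true := ex3_a t175_A00pm_012_s1 t174_A00pm_012_s1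

theorem t177_A00pm_012_s1 : ∃ t, chk3 f_A00pm_012_s1 t 335 11 1 = true := ex3_a t176_A00pm_012_s1 k103_A00pm_012_s1

theorem t178_A00pm_012_s1 : ∃ t, chk3 f_A00pm_012_s1 t 167 11 1 = true := ex3_a k98_A00pm_012_s1 t177_A00pm_012_s1

theorem t179_A00pm_012_s1 : ∃ t, chk3 f_A00pm_012_s1 t 166 11 1 = true := ex3_a k96_A00pm_012_s1 k97_A00pm_012_s1

theorem t180_A00pm_012_s1 : ∃ t, chk3 f_A00pm_012_s1 t 83 11 1 = true := ex3_a t179_A00pm_012_s1 t178_A00pm_012_s1

theorem t181_A00pm_012_s1 : ∃ t, chk3 f_A00pm_012_s1 t 82 22 1 = true := ex3_a k93_A00pm_012_s1 k94_A00pm_012_s1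

theorem t182_A00pm_012_s1 : ∃ t, chk3 f_A00pm_012_s1 t 82 11 1 = true := ex3_b t181_A00pm_012_s1 k95_A00pm_012_s1

theorem t183_A00pm_012_s1 : ∃ t, chk3 f_A00pm_012_s1 t 41 11 1 = true := ex3_a t182_A00pm_012_s1 t180_A00pm_012_s1

theorem t184_A00pm_012_s1 : ∃ t, chk3 f_A00pm_012_s1 t 83 21 3 = true := ex3_b k91_A00pm_012_s1 k92_A00pm_012_s1

theorem t185_A00pm_012_s1 : ∃ t, chk3 f_A00pm_012_s1 t 41 21 3 = true := ex3_a k90_A00pm_012_s1 t184_A00pm_012_s1

theorem t186_A00pm_012_s1 : ∃ t, chk3 f_A00pm_012_s1 t 83 43 2 = true := ex3_a k88_A00pm_012_s1 k89_A00pm_012_s1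

theorem t187_A00pm_012_s1 : ∃ t, chk3 f_A00pm_012_s1 t 83 21 2 = true := ex3_b k87_A00pm_012_s1 t186_A00pm_012_s1

theorem t188_A00pm_012_s1 : ∃ t, chk3 f_A00pm_012_s1 t 41 21 2 = true := ex3_a k86_A00pm_012_s1 t187_A00pm_012_s1

theorem t189_A00pm_012_s1 : ∃ t, chk3 f_A00pm_012_s1 t 41 21 1 = true := ex3_c t188_A00pm_012_s1 t185_A00pm_012_s1

theorem t190_A00pm_012_s1 : ∃ t, chk3 f_A00pm_012_s1 t 41 10 1 = true := ex3_b k85_A00pm_012_s1 t189_A00pm_012_s1

theorem t191_A00pm_012_s1 : ∃ t, chk3 f_A00pm_012_s1 t 41 5 1 = true := ex3_b t190_A00pm_012_s1 t183_A00pm_012_s1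

theorem t192_A00pm_012_s1 : ∃ t, chk3 f_A00pm_012_s1 t 41 2 1 = true := ex3_b k84_A00pm_012_s1 t191_A00pm_012_s1

theorem t193_A00pm_012_s1 : ∃ t, chk3 f_A00pm_012_s1 t 20 2 1 = true := ex3_a k83_A00pm_012_s1 t192_A00pm_012_s1

theorem t194_A00pm_012_s1 : ∃ t, chk3 f_A00pm_012_s1 t 10 2 1 = true := ex3_a t193_A00pm_012_s1 t173_A00pm_012_s1

theorem t195_A00pm_012_s1 : ∃ t, chk3 f_A00pm_012_s1 t 5 2 1 = true := ex3_a t194_A00pm_012_s1 k108_A00pm_012_s1

theorem t196_A00pm_012_s1 : ∃ t, chk3 f_A00pm_012_s1 t 5 1 1 = true := ex3_b t195_A00pm_012_s1 t170_A00pm_012_s1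

theorem t197_A00pm_012_s1 : ∃ t, chk3 f_A00pm_012_s1 t 36 30 1 = true := ex3_b k78_A00pm_012_s1 k79_A00pm_012_s1

theorem t198_A00pm_012_s1 : ∃ t, chk3 f_A00pm_012_s1 t 18 30 1 = true := ex3_a t197_A00pm_012_s1 k80_A00pm_012_s1

theorem t199_A00pm_012_s1 : ∃ t, chk3 f_A00pm_012_s1 t 18 15 1 = true := ex3_b t198_A00pm_012_s1 k81_A00pm_012_s1

theorem t200_A00pm_012_s1 : ∃ t, chk3 f_A00pm_012_s1 t 9 15 1 = true := ex3_a t199_A00pm_012_s1 k82_A00pm_012_s1

theorem t201_A00pm_012_s1 : ∃ t, chk3 f_A00pm_012_s1 t 152 114 1 = true := ex3_b k71_A00pm_012_s1 k72_A00pm_012_s1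

theorem t202_A00pm_012_s1 : ∃ t, chk3 f_A00pm_012_s1 t 76 114 1 = true := ex3_a t201_A00pm_012_s1 k73_A00pm_012_s1

theorem t203_A00pm_012_s1 : ∃ t, chk3 f_A00pm_012_s1 t 76 57 1 = true := ex3_b t202_A00pm_012_s1 k74_A00pm_012_s1

theorem t204_A00pm_012_s1 : ∃ t, chk3 f_A00pm_012_s1 t 38 57 1 = true := ex3_a t203_A00pm_012_s1 k75_A00pm_012_s1

theorem t205_A00pm_012_s1 : ∃ t, chk3 f_A00pm_012_s1 t 154 56 1 = true := ex3_b k68_A00pm_012_s1 k69_A00pm_012_s1

theorem t206_A00pm_012_s1 : ∃ t, chk3 f_A00pm_012_s1 t 77 56 1 = true := ex3_a t205_A00pm_012_s1 k70_A00pm_012_s1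

theorem t207_A00pm_012_s1 : ∃ t, chk3 f_A00pm_012_s1 t 153 113 1 = true := ex3_b k66_A00pm_012_s1 k67_A00pm_012_s1

theorem t208_A00pm_012_s1 : ∃ t, chk3 f_A00pm_012_s1 t 76 113 1 = true := ex3_a k65_A00pm_012_s1 t207_A00pm_012_s1

theorem t209_A00pm_012_s1 : ∃ t, chk3 f_A00pm_012_s1 t 76 56 1 = true := ex3_b k64_A00pm_012_s1 t208_A00pm_012_s1

theorem t210_A00pm_012_s1 : ∃ t, chk3 f_A00pm_012_s1 t 38 56 1 = true := ex3_a t209_A00pm_012_s1 t206_A00pm_012_s1

theorem t211_A00pm_012_s1 : ∃ t, chk3 f_A00pm_012_s1 t 38 28 1 = true := ex3_b t210_A00pm_012_s1 t204_A00pm_012_s1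

theorem t212_A00pm_012_s1 : ∃ t, chk3 f_A00pm_012_s1 t 19 28 1 = true := ex3_a t211_A00pm_012_s1 k76_A00pm_012_s1

theorem t213_A00pm_012_s1 : ∃ t, chk3 f_A00pm_012_s1 t 19 14 1 = true := ex3_b t212_A00pm_012_s1 k77_A00pm_012_s1

theorem t214_A00pm_012_s1 : ∃ t, chk3 f_A00pm_012_s1 t 75 58 1 = true := ex3_b k61_A00pm_012_s1 k62_A00pm_012_s1

theorem t215_A00pm_012_s1 : ∃ t, chk3 f_A00pm_012_s1 t 74 58 1 = true := ex3_b k59_A00pm_012_s1 k60_A00pm_012_s1

theorem t216_A00pm_012_s1 : ∃ t, chk3 f_A00pm_012_s1 t 37 58 1 = true := ex3_a t215_A00pm_012_s1 t214_A00pm_012_s1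

theorem t217_A00pm_012_s1 : ∃ t, chk3 f_A00pm_012_s1 t 37 29 1 = true := ex3_b t216_A00pm_012_s1 k63_A00pm_012_s1

theorem t218_A00pm_012_s1 : ∃ t, chk3 f_A00pm_012_s1 t 36 59 1 = true := ex3_a k57_A00pm_012_s1 k58_A00pm_012_s1

theorem t219_A00pm_012_s1 : ∃ t, chk3 f_A00pm_012_s1 t 36 29 1 = true := ex3_b k56_A00pm_012_s1 t218_A00pm_012_s1

theorem t220_A00pm_012_s1 : ∃ t, chk3 f_A00pm_012_s1 t 18 29 1 = true := ex3_a t219_A00pm_012_s1 t217_A00pm_012_s1

theorem t221_A00pm_012_s1 : ∃ t, chk3 f_A00pm_012_s1 t 151 115 1 = true := ex3_b k54_A00pm_012_s1 k55_A00pm_012_s1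

theorem t222_A00pm_012_s1 : ∃ t, chk3 f_A00pm_012_s1 t 75 115 1 = true := ex3_a k53_A00pm_012_s1 t221_A00pm_012_s1

theorem t223_A00pm_012_s1 : ∃ t, chk3 f_A00pm_012_s1 t 75 57 1 = true := ex3_b k52_A00pm_012_s1 t222_A00pm_012_s1

theorem t224_A00pm_012_s1 : ∃ t, chk3 f_A00pm_012_s1 t 37 57 1 = true := ex3_a k51_A00pm_012_s1 t223_A00pm_012_s1

theorem t225_A00pm_012_s1 : ∃ t, chk3 f_A00pm_012_s1 t 37 28 1 = true := ex3_b k50_A00pm_012_s1 t224_A00pm_012_s1

theorem t226_A00pm_012_s1 : ∃ t, chk3 f_A00pm_012_s1 t 18 28 1 = true := ex3_a k49_A00pm_012_s1 t225_A00pm_012_s1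

theorem t227_A00pm_012_s1 : ∃ t, chk3 f_A00pm_012_s1 t 18 14 1 = true := ex3_b t226_A00pm_012_s1 t220_A00pm_012_s1

theorem t228_A00pm_012_s1 : ∃ t, chk3 f_A00pm_012_s1 t 9 14 1 = true := ex3_a t227_A00pm_012_s1 t213_A00pm_012_s1

theorem t229_A00pm_012_s1 : ∃ t, chk3 f_A00pm_012_s1 t 9 7 1 = true := ex3_b t228_A00pm_012_s1 t200_A00pm_012_s1

theorem t230_A00pm_012_s1 : ∃ t, chk3 f_A00pm_012_s1 t 35 124 1 = true := ex3_a k45_A00pm_012_s1 k46_A00pm_012_s1

theorem t231_A00pm_012_s1 : ∃ t, chk3 f_A00pm_012_s1 t 35 62 1 = true := ex3_b t230_A00pm_012_s1 k47_A00pm_012_s1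

theorem t232_A00pm_012_s1 : ∃ t, chk3 f_A00pm_012_s1 t 69 124 1 = true := ex3_b k42_A00pm_012_s1 k43_A00pm_012_s1

theorem t233_A00pm_012_s1 : ∃ t, chk3 f_A00pm_012_s1 t 69 62 1 = true := ex3_b t232_A00pm_012_s1 k44_A00pm_012_s1

theorem t234_A00pm_012_s1 : ∃ t, chk3 f_A00pm_012_s1 t 137 124 1 = true := ex3_b k39_A00pm_012_s1 k40_A00pm_012_s1

theorem t235_A00pm_012_s1 : ∃ t, chk3 f_A00pm_012_s1 t 68 124 1 = true := ex3_a k38_A00pm_012_s1 t234_A00pm_012_s1

theorem t236_A00pm_012_s1 : ∃ t, chk3 f_A00pm_012_s1 t 68 62 1 = true := ex3_b t235_A00pm_012_s1 k41_A00pm_012_s1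

theorem t237_A00pm_012_s1 : ∃ t, chk3 f_A00pm_012_s1 t 34 62 1 = true := ex3_a t236_A00pm_012_s1 t233_A00pm_012_s1

theorem t238_A00pm_012_s1 : ∃ t, chk3 f_A00pm_012_s1 t 17 62 1 = true := ex3_a t237_A00pm_012_s1 t231_A00pm_012_s1

theorem t239_A00pm_012_s1 : ∃ t, chk3 f_A00pm_012_s1 t 17 31 1 = true := ex3_b t238_A00pm_012_s1 k48_A00pm_012_s1

theorem t240_A00pm_012_s1 : ∃ t, chk3 f_A00pm_012_s1 t 35 123 1 = true := ex3_a k36_A00pm_012_s1 k37_A00pm_012_s1

theorem t241_A00pm_012_s1 : ∃ t, chk3 f_A00pm_012_s1 t 35 61 1 = true := ex3_b k35_A00pm_012_s1 t240_A00pm_012_s1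

theorem t242_A00pm_012_s1 : ∃ t, chk3 f_A00pm_012_s1 t 71 60 1 = true := ex3_b k33_A00pm_012_s1 k34_A00pm_012_s1

theorem t243_A00pm_012_s1 : ∃ t, chk3 f_A00pm_012_s1 t 35 60 1 = true := ex3_a k32_A00pm_012_s1 t242_A00pm_012_s1

theorem t244_A00pm_012_s1 : ∃ t, chk3 f_A00pm_012_s1 t 35 30 1 = true := ex3_b t243_A00pm_012_s1 t241_A00pm_012_s1

theorem t245_A00pm_012_s1 : ∃ t, chk3 f_A00pm_012_s1 t 69 123 1 = true := ex3_b k30_A00pm_012_s1 k31_A00pm_012_s1

theorem t246_A00pm_012_s1 : ∃ t, chk3 f_A00pm_012_s1 t 69 61 1 = true := ex3_b k29_A00pm_012_s1 t245_A00pm_012_s1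

theorem t247_A00pm_012_s1 : ∃ t, chk3 f_A00pm_012_s1 t 137 247 1 = true := ex3_a k27_A00pm_012_s1 k28_A00pm_012_s1

theorem t248_A00pm_012_s1 : ∃ t, chk3 f_A00pm_012_s1 t 137 123 1 = true := ex3_b k26_A00pm_012_s1 t247_A00pm_012_s1

theorem t249_A00pm_012_s1 : ∃ t, chk3 f_A00pm_012_s1 t 68 123 1 = true := ex3_a k25_A00pm_012_s1 t248_A00pm_012_s1

theorem t250_A00pm_012_s1 : ∃ t, chk3 f_A00pm_012_s1 t 68 61 1 = true := ex3_b k24_A00pm_012_s1 t249_A00pm_012_s1

theorem t251_A00pm_012_s1 : ∃ t, chk3 f_A00pm_012_s1 t 34 61 1 = true := ex3_a t250_A00pm_012_s1 t246_A00pm_012_s1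

theorem t252_A00pm_012_s1 : ∃ t, chk3 f_A00pm_012_s1 t 34 30 1 = true := ex3_b k23_A00pm_012_s1 t251_A00pm_012_s1

theorem t253_A00pm_012_s1 : ∃ t, chk3 f_A00pm_012_s1 t 17 30 1 = true := ex3_a t252_A00pm_012_s1 t244_A00pm_012_s1

theorem t254_A00pm_012_s1 : ∃ t, chk3 f_A00pm_012_s1 t 17 15 1 = true := ex3_b t253_A00pm_012_s1 t239_A00pm_012_s1

theorem t255_A00pm_012_s1 : ∃ t, chk3 f_A00pm_012_s1 t 8 15 1 = true := ex3_a k22_A00pm_012_s1 t254_A00pm_012_s1

theorem t256_A00pm_012_s1 : ∃ t, chk3 f_A00pm_012_s1 t 8 7 1 = true := ex3_b k21_A00pm_012_s1 t255_A00pm_012_s1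

theorem t257_A00pm_012_s1 : ∃ t, chk3 f_A00pm_012_s1 t 4 7 1 = true := ex3_a t256_A00pm_012_s1 t229_A00pm_012_s1

theorem t258_A00pm_012_s1 : ∃ t, chk3 f_A00pm_012_s1 t 78 55 1 = true := ex3_a k18_A00pm_012_s1 k19_A00pm_012_s1

theorem t259_A00pm_012_s1 : ∃ t, chk3 f_A00pm_012_s1 t 78 27 1 = true := ex3_b k17_A00pm_012_s1 t258_A00pm_012_s1

theorem t260_A00pm_012_s1 : ∃ t, chk3 f_A00pm_012_s1 t 39 27 1 = true := ex3_a t259_A00pm_012_s1 k20_A00pm_012_s1

theorem t261_A00pm_012_s1 : ∃ t, chk3 f_A00pm_012_s1 t 39 13 1 = true := ex3_b k16_A00pm_012_s1 t260_A00pm_012_s1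

theorem t262_A00pm_012_s1 : ∃ t, chk3 f_A00pm_012_s1 t 77 55 1 = true := ex3_a k14_A00pm_012_s1 k15_A00pm_012_s1

theorem t263_A00pm_012_s1 : ∃ t, chk3 f_A00pm_012_s1 t 77 27 1 = true := ex3_b k13_A00pm_012_s1 t262_A00pm_012_s1

theorem t264_A00pm_012_s1 : ∃ t, chk3 f_A00pm_012_s1 t 38 27 1 = true := ex3_a k12_A00pm_012_s1 t263_A00pm_012_s1

theorem t265_A00pm_012_s1 : ∃ t, chk3 f_A00pm_012_s1 t 38 13 1 = true := ex3_b k11_A00pm_012_s1 t264_A00pm_012_s1

theorem t266_A00pm_012_s1 : ∃ t, chk3 f_A00pm_012_s1 t 19 13 1 = true := ex3_a t265_A00pm_012_s1 t261_A00pm_012_s1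

theorem t267_A00pm_012_s1 : ∃ t, chk3 f_A00pm_012_s1 t 9 13 1 = true := ex3_a k10_A00pm_012_s1 t266_A00pm_012_s1

theorem t268_A00pm_012_s1 : ∃ t, chk3 f_A00pm_012_s1 t 159 50 1 = true := ex3_b k7_A00pm_012_s1 k8_A00pm_012_s1

theorem t269_A00pm_012_s1 : ∃ t, chk3 f_A00pm_012_s1 t 79 50 1 = true := ex3_a k6_A00pm_012_s1 t268_A00pm_012_s1

theorem t270_A00pm_012_s1 : ∃ t, chk3 f_A00pm_012_s1 t 79 25 1 = true := ex3_b t269_A00pm_012_s1 k9_A00pm_012_s1

theorem t271_A00pm_012_s1 : ∃ t, chk3 f_A00pm_012_s1 t 39 25 1 = true := ex3_a k5_A00pm_012_s1 t270_A00pm_012_s1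

theorem t272_A00pm_012_s1 : ∃ t, chk3 f_A00pm_012_s1 t 39 12 1 = true := ex3_b k4_A00pm_012_s1 t271_A00pm_012_s1

theorem t273_A00pm_012_s1 : ∃ t, chk3 f_A00pm_012_s1 t 19 12 1 = true := ex3_a k3_A00pm_012_s1 t272_A00pm_012_s1

theorem t274_A00pm_012_s1 : ∃ t, chk3 f_A00pm_012_s1 t 9 12 1 = true := ex3_a k2_A00pm_012_s1 t273_A00pm_012_s1

theorem t275_A00pm_012_s1 : ∃ t, chk3 f_A00pm_012_s1 t 9 6 1 = true := ex3_b t274_A00pm_012_s1 t267_A00pm_012_s1

theorem t276_A00pm_012_s1 : ∃ t, chk3 f_A00pm_012_s1 t 4 6 1 = true := ex3_a k1_A00pm_012_s1 t275_A00pm_012_s1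

theorem t277_A00pm_012_s1 : ∃ t, chk3 f_A00pm_012_s1 t 4 3 1 = true := ex3_b t276_A00pm_012_s1 t257_A00pm_012_s1

theorem t278_A00pm_012_s1 : ∃ t, chk3 f_A00pm_012_s1 t 4 1 1 = true := ex3_b k0_A00pm_012_s1 t277_A00pm_012_s1

theorem t279_A00pm_012_s1 : ∃ t, chk3 f_A00pm_012_s1 t 2 1 1 = true := ex3_a t278_A00pm_012_s1 t196_A00pm_012_s1

theorem t280_A00pm_012_s1 : ∃ t, chk3 f_A00pm_012_s1 t 1 1 1 = true := ex3_a t279_A00pm_012_s1 t141_A00pm_012_s1

theorem c_A00pm_012_s1 : CertF 0 536870912 536870912 536870912 780900216 37827925 true true false .pnp 0 1 2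
    ndB0q0 ndB0q1 pcB2 cut_A00pm_012_s1 xt_A00pm_012_s1 :=
  certF2 (fam := true) (s1 := true) (s2 := false) (a := 0) (b := 1) (c := 2) (cn := .pnp) (n1 := ndB0q0) (n2 := ndB0q1) (pc := pcB2) (cut := cut_A00pm_012_s1) (xt := xt_A00pm_012_s1) (P1 := 0) (W1 := 536870912) (P2 := 536870912) (W2 := 536870912) (P3 := 780900216) (W3 := 37827925)
    rfl (fun _ => rfl) t280_A00pm_012_s1

theorem s_A00pm_012_s1 {κ x : ℝ} (hκ : κ * h0 = ken x) (hx : ((780900216 : ℕ) : ℝ) / S ≤ x)
    (hx' : x ≤ (((780900216 : ℕ) : ℝ) + (37827925 : ℕ)) / S)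
    (H : CutA (VFD κ) PP tK tL pcB (Cut.of [[⟨0, 0, 0, 67108864⟩, ⟨1, 1, 0, 67108864⟩, ⟨2, 1, 0, 67108864⟩]]) 0 1 2 0 0 (sgb true) (sgb false) x) :
    AltA (VFD κ) PP tK tL pcB [⟨3, 0, 0, 1449551462⟩] 0 1 2 0 0 (sgb true) (sgb false) x :=
  strip_altAD (m := 1449551462) true rfl hκ (SH.κ0 hκ (SH.hx1 hx).le (SH.hx2 hx').le) (SH.hx1 hx).le (SH.hx2 hx') (covB00).cov (covB01).cov hx hx' c_A00pm_012_s1 H ((okx hx hx').extA (T := tt) (sideB hx hx') hκ rfl rfl (.O 0 true) (.O 1 false) rfl)

end Pool.Agent.Strip051.G.I72727_7625.Tab.St.C
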