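import Pool.Agent.Strip051.G.I72727_7625.StH
import Pool.Agent.Strip051.G.I72727_7625.StF

/-! # Unit strips 3 (generated) -/

set_option linter.all false
set_option maxRecDepth 100000

namespace Pool.Agent.Strip051.G.I72727_7625.Tab.St.C

open Pool.Agent.Strip051.PB Pool.Agent.Strip051.PB.T Pool.Agent.StripNear Pool.Agent.Strip051.LC
open Pool.Agent.Strip051.G.I72727_7625.Tab Pool.Agent.Strip051.G.I72727_7625.Tab.St

noncomputable def cut_A00pm_102_s1 : Cut := Cut.of [[⟨4, 0, 0, 1449551462⟩], [⟨0, 1, 0, 67108864⟩, ⟨1, 0, 0, 67108864⟩, ⟨2, 1, 0, 67108864⟩]]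

noncomputable def xt_A00pm_102_s1 : Ext := strExt dd true true false .u0 .u0m .u2 .npp 1 0 2 rfl rfl gf2 vv ndB0q1 ndB0q0

noncomputable def f_A00pm_102_s1 : ℕ → ℕ → ℕ → ℕ → Bool := onCell 536870912 536870912 1073741824 536870912 780900216 37827925
    (rowF 1 true true false .npp 1 0 2 (qsf 536870912 536870912 0 536870912 2) ndB0q1 ndB0q0 pcB2 cut_A00pm_102_s1 xt_A00pm_102_s1)

def k0_A00pm_102_s1 : ∃ t, chk3 f_A00pm_102_s1 t 2 4 1 = true :=
  ⟨(b (l 3) (l 3)), by decide +kernel⟩

def k1_A00pm_102_s1 : ∃ t, chk3 f_A00pm_102_s1 t 2 40 1 = true :=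
  ⟨(a (l 3) (a (l 3) (b (l 3) (a (l 3) (b (b (l 3) (a (l 3) (b (l 531169935) (l 531437711)))) (a (b (l 3) (a (a (l 3) (l 531331471)) (l 531374223))) (b (l 531441295) (b (l 531447951) (l 531455887))))))))), by decide +kernel⟩

def k2_A00pm_102_s1 : ∃ t, chk3 f_A00pm_102_s1 t 4 41 1 = true :=
  ⟨(l 2), by decide +kernel⟩

def k3_A00pm_102_s1 : ∃ t, chk3 f_A00pm_102_s1 t 20 41 1 = true :=
  ⟨(b (l 3) (c (a (l 2) (b (b (l 3) (b (b (l 3) (l 533170575)) (b (l 533241743) (l 533840527)))) (b (a (l 2) (b (b (b (l 533240975) (l 533260687)) (l 533278351)) (a (l 2) (a (l 16774624) (l 16774400))))) (a (l 2) (a (l 2) (b (l 16773552) (l 16772592))))))) (a (l 2) (b (b (l 3) (b (b (l 3) (l 532977295)) (b (l 533026191) (l 534410383)))) (b (a (l 2) (b (b (b (l 533009039) (l 533022607)) (l 533035151)) (a (l 2) (a (l 16774448) (l 16774216))))) (a (l 2) (a (l 2) (b (l 16773304) (l 16772280))))))))), by decide +kernel⟩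

def k4_A00pm_102_s1 : ∃ t, chk3 f_A00pm_102_s1 t 21 82 2 = true :=
  ⟨(a (l 3) (b (l 3) (b (l 3) (a (b (l 3) (b (l 3) (l 531967375))) (b (b (l 3) (l 531651983)) (l 531780751)))))), by decide +kernel⟩

def k5_A00pm_102_s1 : ∃ t, chk3 f_A00pm_102_s1 t 42 83 2 = true :=
  ⟨(b (b (b (b (l 3) (l 532406415)) (b (l 532496527) (l 532583311))) (b (b (l 532665999) (l 532744335)) (b (l 532818063) (b (l 532867471) (l 532899983))))) (a (a (b (b (b (l 533099807) (l 533134479)) (l 16774056)) (b (l 16773080) (l 16772104))) (b (b (b (l 532996895) (l 533035407)) (l 16773560)) (b (l 16772568) (l 16771576)))) (a (b (b (b (l 532893471) (l 16773768)) (l 16773016)) (b (l 16772016) (l 16771008))) (b (b (b (l 16773696) (l 16773192)) (l 16772424)) (b (l 16771416) (l 16770392)))))), by decide +kernel⟩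

def k6_A00pm_102_s1 : ∃ t, chk3 f_A00pm_102_s1 t 43 166 2 = true :=
  ⟨(b (b (b (a (l 532054159) (l 531898255)) (a (l 532138639) (l 531976335))) (b (l 532133007) (l 532209295))) (b (b (l 532283023) (l 532353423)) (b (a (l 532517519) (l 532329871)) (b (l 532466575) (l 532497039))))), by decide +kernel⟩

def k7_A00pm_102_s1 : ∃ t, chk3 f_A00pm_102_s1 t 43 167 2 = true :=
  ⟨(b (a (a (b (b (l 16773080) (l 16772568)) (l 16771792)) (b (b (l 16772416) (l 16771896)) (l 16771112))) (b (b (b (l 16774080) (l 16773816)) (l 532489615)) (a (l 16770384) (l 16769608)))) (b (b (c (c (a (b (l 16770912) (b (l 16770728) (a (a (l 16771112) (a (l 16770864) (b (b (l 16770736) (l 16770704)) (l 16770648)))) (b (b (l 16770288) (a (a (a (l 16770568) (l 16770480)) (l 16770328)) (l 16770024))) (l 16770152))))) (b (l 16769440) (a (b (l 16772248) (b (b (l 16769496) (l 16769376)) (l 16769288))) (b (b (l 16768872) (l 16768744)) (l 16768496))))) (a (b (l 16770848) (b (l 16770656) (a (a (l 16771040) (a (l 16770792) (b (b (l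 16770664) (l 16770632)) (l 16770584)))) (b (b (l 16770224) (a (a (a (l 16770496) (l 16770408)) (l 16770264)) (l 16769960))) (l 16770088))))) (b (l 16769376) (a (b (l 16772184) (b (b (l 16769432) (l 16769320)) (l 16769240))) (b (b (l 16768808) (l 16768688)) (l 16768456)))))) (c (a (b (l 16770784) (b (l 16770584) (b (b (a (l 16770848) (l 16770152)) (a (a (l 16770984) (l 16770648)) (a (a (a (l 16770432) (l 16770336)) (l 16770192)) (l 16769896)))) (a (l 16770768) (l 16770024))))) (b (l 16769312) (b (a (l 16772112) (b (l 16768744) (l 16768632))) (a (b (b (l 16769368) (l 16769272)) (l 16769192)) (l 16768408))))) (a (b (l 16770712) (b (l 16770520) (b (b (a (l 16770776) (l 16770080)) (a (a (l 16770912) (l 16770576)) (a (a (l 16770312) (l 16770128)) (l 16769832)))) (a (l 16770696) (l 16769952))))) (b (l 16769248) (b (a (l 16772048) (b (l 16768680) (l 16768568))) (a (b (b (l 16769304) (l 16769216)) (l 16769136)) (l 16768360))))))) (a (a (l 16770512) (l 16769768)) (l 16768480))) (a (a (l 16769736) (l 16768984))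 (l 16767696)))), by decide +kernel⟩

def k8_A00pm_102_s1 : ∃ t, chk3 f_A00pm_102_s1 t 21 82 3 = true :=
  ⟨(a (l 3) (b (l 3) (b (l 3) (b (a (l 3) (l 531767439)) (b (l 531913359) (l 531973007)))))), by decide +kernel⟩

def k9_A00pm_102_s1 : ∃ t, chk3 f_A00pm_102_s1 t 42 83 3 = true :=
  ⟨(b (b (b (b (l 3) (l 532387983)) (b (l 532450703) (l 532510863))) (b (b (l 532568207) (l 532622223)) (b (l 532672911) (b (l 532706447) (l 532728719))))) (b (b (b (b (l 532749455) (l 532766607)) (a (l 532871055) (l 532702607))) (a (a (l 16776480) (l 16773352)) (a (l 16772800) (l 16772208)))) (b (b (a (a (l 16773080) (l 16772560)) (a (l 16772000) (l 16771392))) (b (b (a (a (l 16772752) (l 16772232)) (a (l 16771664) (l 16771056))) (b (a (a (l 16772656) (l 16772128)) (a (l 16771568) (l 16770960))) (b (a (a (l 16772608) (l 16772080)) (a (l 16771512) (l 16770904))) (a (a (l 16772576) (l 16772048)) (a (l 16771480) (l 16770872)))))) (a (a (l 16772432) (l 16771904)) (a (l 16771328) (l 16770720))))) (a (a (l 16771776) (l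 16771240)) (a (l 16770664) (l 16770048)))))), by decide +kernel⟩

def k10_A00pm_102_s1 : ∃ t, chk3 f_A00pm_102_s1 t 43 83 3 = true :=
  ⟨(b (b (b (b (l 532031119) (l 532087439)) (b (l 532142223) (l 532194959))) (b (b (l 532245647) (l 532294287)) (b (a (l 532421519) (l 532263823)) (b (l 532371343) (l 532392335))))) (b (a (a (b (b (l 16772936) (l 16772392)) (l 16771568)) (b (b (l 16772272) (l 16771720)) (l 16770888))) (b (b (a (l 16771560) (l 16770808)) (l 532372623)) (a (l 16770160) (l 16769392)))) (b (b (c (c (a (b (l 16770648) (b (l 16770448) (b (b (a (l 16770704) (l 16770008)) (a (a (l 16770840) (l 16770504)) (a (a (l 16770240) (l 16770056)) (l 16769768)))) (a (l 16770624) (l 16769888))))) (b (l 16769184) (b (a (l 16771976) (b (l 16768608) (l 16768504))) (a (b (b (l 16769240) (l 16769152)) (l 16769080)) (l 16768312))))) (a (b (l 16770576) (b (l 16770376) (b (b (a (l 16770632) (l 16769936)) (a (a (l 16770768) (l 16770432)) (a (a (l 16770168) (l 16769984)) (l 16769696)))) (a (l 16770544) (l 16769824)))))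 (b (l 16769112) (b (a (l 16771912) (b (l 16768544) (l 16768440))) (a (b (b (l 16769176) (l 16769096)) (l 16769024)) (l 16768256)))))) (a (b (l 16773096) (b (l 16770264) (a (a (l 16770640) (a (l 16770384) (b (b (l 16770272) (l 16770232)) (l 16770176)))) (b (b (l 16769824) (a (a (l 16770056) (l 16769872)) (l 16769592))) (l 16769712))))) (b (l 16769008) (b (a (b (l 16769224) (l 16769144)) (b (l 16768440) (l 16768344))) (a (b (b (l 16769072) (l 16769000)) (l 16768936)) (l 16768176)))))) (a (a (l 16770200) (l 16769480)) (l 16768264))) (a (a (l 16769384) (l 16768656)) (l 16767432))))), by decide +kernel⟩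

def k11_A00pm_102_s1 : ∃ t, chk3 f_A00pm_102_s1 t 22 164 1 = true :=
  ⟨(a (l 3) (a (b (l 3) (b (l 530969231) (l 530523935))) (b (b (l 3) (c (l 531155343) (l 531392143))) (l 530777631)))), by decide +kernel⟩

def k12_A00pm_102_s1 : ∃ t, chk3 f_A00pm_102_s1 t 22 165 1 = true :=
  ⟨(a (b (a (b (l 3) (b (l 3) (c (l 531371663) (l 531574927)))) (b (a (b (l 3) (b (l 3) (l 531300495))) (a (b (l 3) (c (b (a (l 3) (b (l 531100815) (l 531106959))) (l 531928207)) (b (a (l 3) (b (c (l 531437087) (a (l 3) (l 531412623))) (l 531364239))) (a (l 531390607) (l 531376271))))) (b (a (a (l 3) (l 531240223)) (l 531246879)) (c (c (b (l 531042447) (l 531063951)) (b (l 531190159) (l 531342367))) (b (c (b (l 531314575) (l 531319183)) (b (l 531420815) (a (b (l 531420047) (l 531422351)) (l 531427471)))) (a (b (l 531377807) (l 531388303)) (l 531388047))))))) (b (a (c (l 531223695) (l 531454863)) (c (a (l 531191951) (b (l 531167887) (l 531201167))) (a (l 531423631) (b (l 531406223) (l 531429007))))) (a (l 531412879) (a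 (l 531377807) (c (l 531252879) (l 531464335))))))) (a (b (b (l 531550095) (l 531616143)) (b (l 531680655) (l 531743887))) (b (a (b (l 531475599) (l 531537039)) (c (b (l 531327887) (l 531396751)) (b (l 531516303) (l 531563663)))) (a (b (l 531597455) (l 531656335)) (c (l 531497503) (l 531632415)))))) (b (b (a (b (a (l 531269263) (l 531302799)) (a (c (b (l 531149711) (l 531164047)) (b (b (l 531391375) (l 531395215)) (a (l 531397007) (l 531410063)))) (b (l 531315087) (l 531325583)))) (b (l 531349903) (l 531366543))) (b (a (b (a (c (l 531186319) (l 531419023)) (l 531340175)) (a (c (l 531212943) (l 531437199)) (l 531357839))) (l 531390095)) (a (a (a (l 531368479) (l 531374623)) (c (l 531276943) (l 531480975))) (l 531421071)))) (b (b (a (a (c (l 531318415) (l 531509135)) (l 531432079)) (l 531456399)) (a (a (l 531474831) (l 531477647)) (l 531494287))) (a (a (b (l 531526543) (l 531577999)) (b (l 531524495) (l 531571087))) (a (l 531550239) (l 16769256)))))), by decide +kernel⟩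

def k13_A00pm_102_s1 : ∃ t, chk3 f_A00pm_102_s1 t 23 82 1 = true :=
  ⟨(b (a (b (a (b (a (a (l 3) (l 531323279)) (l 531345807)) (a (c (l 531211663) (a (l 531424655) (l 531437199))) (b (b (l 531353999) (l 531358095)) (l 531096207)))) (b (l 531388303) (b (l 531398543) (l 531406735)))) (a (b (a (a (l 531343247) (l 531358351)) (c (l 531269263) (l 531471503))) (a (l 531374735) (l 531403151))) (b (c (l 531318927) (a (l 531494543) (l 531516303))) (a (l 530893711) (l 530920079))))) (b (b (l 531466639) (c (l 531122319) (l 531551887))) (b (c (l 531141519) (b (l 531561615) (l 531569039))) (a (a (l 530944031) (l 530969231)) (c (l 531462543) (l 531601039)))))) (b (a (c (a (b (l 531310623) (a (l 16770760) (l 16769680))) (b (l 531510671) (l 531415839))) (b (a (a (l 531492495) (l 16771280)) (l 531544607)) (a (l 531534111) (l 531572511)))) (b (b (a (l 531510927) (l 531555983)) (a (a (l 16767472) (l 16766304)) (c (l 531495823) (l 531623567)))) (a (b (a (l 16766800) (l 531550351)) (a (l 531546511) (l 531567247)))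 (c (b (l 531512207) (l 531530639)) (a (l 16764248) (l 16763032)))))) (a (a (b (a (l 16769536) (l 16768480)) (c (l 16767576) (a (l 16768328) (l 16767288)))) (b (a (l 16767392) (l 16766288)) (c (a (l 16765968) (l 16764856)) (a (l 16766216) (l 16765120))))) (c (b (a (b (l 531505039) (l 531530127)) (b (l 531550607) (a (l 16762336) (l 16761128)))) (a (a (l 16763728) (a (l 16762864) (l 16762280))) (b (a (l 16761704) (l 16760496)) (a (l 16761088) (l 16759880))))) (a (b (a (l 16765288) (l 16764128)) (a (l 16764000) (l 16762848))) (b (a (l 16762952) (l 16761736)) (a (l 16761672) (a (l 16760768) (l 16760160))))))))), by decide +kernel⟩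

def k14_A00pm_102_s1 : ∃ t, chk3 f_A00pm_102_s1 t 11 332 1 = true :=
  ⟨(a (a (b (a (b (l 531805839) (l 531865999)) (b (a (l 531714191) (l 531654799)) (a (l 531770511) (l 531707791)))) (a (b (l 531924367) (l 531981199)) (b (a (l 16774448) (l 16770912)) (a (l 16771216) (l 16770296))))) (b (a (b (a (l 531628431) (l 16772896)) (a (l 16773216) (l 16769648))) (c (a (l 16768896) (l 16767888)) (l 531679775))) (a (a (c (l 16769608) (l 16769704)) (l 16771344)) (a (l 16767752) (l 16766760))))) (a (b (a (c (a (l 16766856) (l 16765800)) (a (l 16767056) (l 16766016))) (b (a (l 16765168) (l 16764072)) (a (l 16764544) (l 16763448)))) (a (a (l 16765744) (l 16764696)) (b (a (l 16763936) (l 16762840)) (a (l 16763328) (l 16762232))))) (a (a (b (c (l 16762496) (l 16762736)) (c (l 16761296) (l 16761496))) (c (b (a (l 16761640) (l 16761056)) (b (l 16760448) (a (l 16760144) (b (l 16759704) (l 16759392))))) (b (l 16761592) (a (l 16760640) (b (l 16760368) (b (l 16759904) (l 16759584))))))) (c (b (a (b (l 16760472) (l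 16759872)) (a (b (l 16759576) (b (l 16759120) (l 16758816))) (b (l 16758968) (b (a (l 16758664) (l 16758344)) (a (l 16758336) (l 16757992)))))) (a (b (a (l 16759568) (b (l 16759120) (a (l 16758960) (l 16758632)))) (a (b (a (l 16759256) (l 16758944)) (l 16758744)) (l 16758256))) (b (a (b (a (l 16758656) (l 16758320)) (l 16758128)) (l 16757624)) (l 16757240)))) (b (a (a (l 16760712) (l 16760112)) (b (l 16759520) (a (b (l 16759352) (l 16759040)) (b (l 16758736) (l 16758408))))) (a (b (a (l 16759776) (b (l 16759336) (l 16759008))) (a (b (l 16759296) (l 16758960)) (l 16758496))) (b (a (b (l 16758712) (l 16758368)) (l 16757888)) (l 16757528)))))))), by decide +kernel⟩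

def k15_A00pm_102_s1 : ∃ t, chk3 f_A00pm_102_s1 t 11 333 1 = true :=
  ⟨(a (a (b (a (b (l 532035727) (l 532088463)) (a (l 16772952) (l 16772024))) (a (b (l 532138639) (a (l 16770624) (l 16769784))) (b (a (l 16769456) (l 16768528)) (c (l 16771064) (l 16773632))))) (b (a (a (l 16768464) (l 16767520)) (a (l 16766552) (l 16765560))) (a (a (l 16767296) (l 16766344)) (a (l 16765376) (l 16764384))))) (a (a (a (b (l 16764544) (l 16763360)) (b (l 16763496) (b (l 16762608) (c (a (l 16762240) (l 16761688)) (l 16762024))))) (a (b (c (l 16762344) (l 16762480)) (b (c (a (l 16761752) (l 16761192)) (l 16761560)) (c (b (l 16763608) (l 16760616)) (l 16760904)))) (b (b (l 16761632) (a (l 16761312) (c (l 16760664) (l 16760800)))) (b (c (b (a (l 16760784) (l 16760168)) (l 16760112)) (b (l 16760600) (l 16760256))) (l 16759656))))) (a (b (b (a (a (l 16760792) (c (b (l 16760272) (l 16759968)) (l 16760280))) (c (a (b (l 16759680) (l 16759336)) (l 16758864)) (a (b (l 16759856) (l 16759520)) (l 16759072)))) (a (a (b (a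 (l 16760488) (l 16760192)) (l 16760000)) (c (l 16759440) (l 16759616))) (c (l 16758456) (l 16758688)))) (a (c (l 16761256) (l 16758864)) (a (l 16757824) (l 16757184)))) (a (b (b (a (l 16758344) (l 16757688)) (l 16757304)) (b (l 16756584) (l 16755856))) (b (b (l 16756704) (l 16755992)) (l 16754912)))))), by decide +kernel⟩

def k16_A00pm_102_s1 : ∃ t, chk3 f_A00pm_102_s1 t 11 668 1 = true :=
  ⟨(a (b (a (a (a (l 16770072) (l 16769224)) (c (l 16770512) (l 16773048))) (a (a (l 16766424) (l 16765472)) (a (l 16764504) (l 16763504)))) (a (a (l 532263055) (a (l 16767760) (l 16766808))) (c (a (l 16765400) (a (l 16763920) (b (l 16763040) (l 16762688)))) (a (l 16765320) (a (l 16763872) (l 16762848)))))) (c (a (a (b (a (b (l 16762600) (l 16762272)) (l 16763896)) (a (l 16761696) (l 16760488))) (b (l 16762024) (l 16758616))) (a (l 16761680) (l 16753800))) (a (a (b (a (l 16762448) (l 16761352)) (l 16761192)) (l 16764480)) (a (l 16756824) (l 16754320))))), by decide +kernel⟩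

def k17_A00pm_102_s1 : ∃ t, chk3 f_A00pm_102_s1 t 11 669 1 = true :=
  ⟨(b (a (a (a (c (l 16771248) (l 16771056)) (c (l 16769408) (l 16766624))) (a (a (c (l 16765312) (l 16765192)) (c (b (l 16764480) (l 16764136)) (l 16766832))) (a (b (c (l 16763432) (l 16763384)) (l 16763032)) (l 16762112)))) (a (a (c (l 16760272) (l 16760456)) (l 16758000)) (a (l 16755528) (l 16742496)))) (b (b (a (a (a (l 532308111) (a (l 16766832) (l 16765872))) (a (a (l 16767496) (l 16763816)) (l 16762176))) (a (a (l 16759888) (l 16757512)) (a (l 16755040) (l 16752496)))) (b (a (a (a (l 532312719) (a (l 16766728) (l 16765760))) (a (a (l 16764728) (l 16763664)) (l 16762024))) (a (a (l 16759736) (l 16757360)) (a (l 16754888) (l 16752352)))) (b (a (a (a (l 532315023) (a (l 16766672) (l 16765704))) (a (a (l 16764656) (l 16763584)) (l 16761944))) (a (a (l 16759664) (l 16757280)) (a (l 16754816) (l 16752272)))) (a (a (a (l 532316815) (a (l 16766640) (l 16765664))) (a (a (l 16764608) (l 16763536)) (l 16761896))) (a (a (l 16759608)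 (l 16757232)) (a (l 16754768) (l 16752224))))))) (a (a (c (a (l 16767944) (a (b (l 16766640) (l 16766480)) (l 16768136))) (a (l 16767720) (a (l 16766360) (l 16765368)))) (a (a (l 16764376) (l 16763304)) (l 16761656))) (a (a (l 16759376) (l 16751752)) (a (l 16749296) (l 16752000)))))), by decide +kernel⟩

def k18_A00pm_102_s1 : ∃ t, chk3 f_A00pm_102_s1 t 22 1340 1 = true :=
  ⟨(a (b (a (a (b (l 16768064) (a (l 16768136) (l 16767696))) (b (a (l 16767408) (l 16766944)) (l 16769608))) (a (b (l 16766200) (l 16765968)) (l 16765016))) (a (a (a (b (l 16767928) (l 16767656)) (b (l 16767456) (l 16767176))) (b (l 16766728) (b (b (l 16766520) (l 16766416)) (l 16766336)))) (b (a (l 16765704) (l 16764640)) (a (b (b (l 16765496) (c (l 16765360) (l 16765392))) (l 16765304)) (b (b (l 16764424) (a (l 16764592) (c (l 16763960) (l 16764088)))) (l 16764232)))))) (b (a (a (l 16763936) (l 16762856)) (a (l 16761768) (l 16760648))) (a (b (a (l 16763552) (b (l 16762552) (l 16762400))) (a (b (b (a (l 16763608) (l 16763064))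 (a (c (l 16763392) (l 16763568)) (c (l 16762824) (l 16763040)))) (a (l 16763416) (l 16762872))) (a (b (b (l 16762520) (c (a (l 16762400) (l 16762112)) (l 16762520))) (l 16762328)) (b (b (l 16761976) (b (b (b (l 16761904) (c (l 16761688) (l 16762000))) (l 16761840)) (l 16761824))) (l 16761784))))) (b (a (b (l 16761456) (l 16761304)) (b (l 16760344) (l 16760192))) (a (a (b (b (l 16761432) (b (b (b (l 16761360) (c (l 16761112) (l 16761472))) (l 16761296)) (l 16761280))) (l 16761240)) (b (b (l 16760880) (b (b (b (l 16760808) (c (l 16760536) (l 16760944))) (l 16760744)) (l 16760728))) (l 16760688))) (b (b (c (l 16759800) (l 16760224)) (c (b (b (b (l 16759712) (a (l 16759960) (l 16759368))) (l 16759632)) (l 16759616)) (a (a (l 16760536) (l 16760264)) (a (l 16759992) (l 16759720))))) (a (l 16760128) (l 16759568)))))))), by decide +kernel⟩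

def k19_A00pm_102_s1 : ∃ t, chk3 f_A00pm_102_s1 t 23 1340 1 = true :=
  ⟨(a (b (a (a (l 16759504) (l 16758344)) (a (l 16757160) (l 16755952))) (a (b (a (b (l 16759200) (l 16759048)) (b (l 16758040) (l 16757888))) (a (b (b (a (l 16759192) (l 16758616)) (b (b (c (b (l 16758528) (a (l 16758776) (l 16758184))) (b (l 16759064) (a (l 16759312) (l 16758760)))) (a (l 16759056) (l 16758480))) (a (l 16759040) (l 16758472)))) (a (l 16759000) (l 16758424))) (b (b (a (l 16758040) (l 16757456)) (c (a (a (l 16757736) (l 16757432)) (l 16756976)) (a (l 16758192) (l 16757624)))) (a (l 16757848) (l 16757264))))) (b (a (b (l 16756856) (l 16756704)) (l 16755568)) (a (c (b (b (l 16756192) (a (l 16756368) (l 16755752))) (l 16755976)) (b (b (l 16756856) (l 16756768)) (l 16756696))) (b (b (c (l 16754952) (l 16755688)) (c (a (l 16755136) (l 16754512)) (l 16755608))) (l 16752560)))))) (b (a (a (l 16754728) (l 16753480)) (l 16751576)) (a (c (b (a (l 16753928) (l 16752648)) (b (a (b (l 16753696) (l 16753576)) (b (l 16752424)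 (l 16752304))) (a (l 16753488) (l 16752216)))) (b (l 16754072) (a (l 16757048) (l 16753224)))) (b (l 16751216) (a (l 16748968) (l 16750320)))))), by decide +kernel⟩

def k20_A00pm_102_s1 : ∃ t, chk3 f_A00pm_102_s1 t 11 2682 1 = true :=
  ⟨(b (a (a (a (a (l 16767216) (l 16766232)) (a (l 16765208) (l 16764128))) (a (a (a (l 16763312) (l 16762768)) (a (l 16762224) (l 16761680))) (a (a (l 16761136) (l 16760584)) (a (l 16760024) (l 16759464))))) (a (a (a (a (l 16758896) (l 16758320)) (a (l 16757744) (l 16757160))) (a (a (l 16756576) (l 16755976)) (l 16755080))) (a (a (l 16753864) (l 16752632)) (l 16750752)))) (b (a (a (a (a (l 16767112) (l 16766136)) (a (l 16765104) (l 16764032))) (a (a (l 16762936) (a (l 16762120) (l 16761576))) (a (a (l 16761032) (l 16760480)) (a (l 16759920) (l 16759360))))) (a (a (a (a (l 16758792) (l 16758216)) (a (l 16757640) (l 16757056))) (a (l 16756168) (l 16754976))) (a (a (l 16753760) (l 16752528)) (l 16750648)))) (b (a (a (a (a (l 16767064) (l 16766088)) (a (l 16765056)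 (l 16763976))) (a (a (l 16762888) (a (l 16762072) (l 16761528))) (a (a (l 16760984) (l 16760432)) (a (l 16759872) (l 16759312))))) (a (a (a (a (l 16758744) (l 16758168)) (a (l 16757592) (l 16757008))) (a (l 16756120) (l 16754920))) (a (a (l 16753712) (l 16752472)) (l 16750592)))) (a (a (a (a (l 16767032) (l 16766048)) (a (l 16765024) (l 16763944))) (a (a (l 16762848) (a (l 16762032) (l 16761496))) (a (a (l 16760944) (l 16760392)) (a (l 16759840) (l 16759272))))) (a (a (a (a (l 16758704) (l 16758136)) (l 16757264)) (a (l 16756088) (l 16754888))) (a (a (l 16753672) (l 16752440)) (l 16750552))))))), by decide +kernel⟩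

def k21_A00pm_102_s1 : ∃ t, chk3 f_A00pm_102_s1 t 11 2683 1 = true :=
  ⟨(a (a (a (a (l 16766880) (l 16765896)) (a (l 16764864) (l 16763792))) (a (a (a (l 16762968) (l 16762424)) (a (l 16761880) (l 16761336))) (a (c (l 16760312) (l 16760664)) (c (l 16759144) (l 16759592))))) (a (a (a (a (l 16758552) (l 16757976)) (a (l 16757400) (l 16756816))) (a (a (l 16756224) (l 16755632)) (l 16754728))) (a (a (l 16753520) (l 16752280)) (l 16750400)))), by decide +kernel⟩

def k22_A00pm_102_s1 : ∃ t, chk3 f_A00pm_102_s1 t 11 671 1 = true :=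
  ⟨(a (a (a (a (l 16766200) (l 16765216)) (a (l 16764184) (c (l 16763056) (l 16763112)))) (a (a (c (l 16761912) (l 16762056)) (c (l 16760776) (l 16761000))) (a (c (l 16759632) (l 16759944)) (c (l 16758472) (l 16758872))))) (a (a (a (c (l 16757288) (l 16757776)) (c (l 16756080) (l 16756656))) (a (c (l 16754856) (l 16755512)) (c (l 16753616) (l 16754344)))) (a (a (l 16750192) (c (l 16751088) (l 16751952))) (l 16749688)))), by decide +kernel⟩

def k23_A00pm_102_s1 : ∃ t, chk3 f_A00pm_102_s1 t 4 21 1 = true :=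
  ⟨(l 2), by decide +kernel⟩

def k24_A00pm_102_s1 : ∃ t, chk3 f_A00pm_102_s1 t 10 21 1 = true :=
  ⟨(b (a (b (b (a (l 2) (a (l 2) (a (l 2) (a (l 2) (l 16769840))))) (l 2)) (l 2)) (b (a (a (b (b (a (l 16770440) (l 16769880)) (l 16773400)) (l 16770432)) (b (b (a (l 16769288) (l 16768648)) (l 16766904)) (l 16769088))) (a (c (b (a (l 16772392) (l 16771624)) (l 16773160)) (b (a (l 16771912) (l 16771160)) (l 16772464))) (b (b (a (l 16766392) (l 16765504)) (l 16769040)) (a (l 16761048) (l 16760112))))) (a (a (l 16769904) (l 16768352)) (a (b (l 16768696) (l 16754160)) (b (l 16756368) (l 16752216)))))) (a (l 2) (a (b (c (l 16772832) (l 16771240)) (l 2)) (b (a (l 16748240) (l 16767104)) (a (l 16740664) (l 16738296)))))), by decide +kernel⟩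

def k25_A00pm_102_s1 : ∃ t, chk3 f_A00pm_102_s1 t 22 21 1 = true :=
  ⟨(a (b (b (a (b (a (b (l 16764560) (l 16762384)) (c (l 16767824) (l 16762336))) (a (l 16759128) (l 16768576))) (b (b (a (c (l 16762568) (l 16762456)) (c (l 16761432) (l 16761400))) (a (l 16760312) (c (l 16759264) (l 16759112)))) (a (c (l 16757168) (l 16756784)) (c (l 16755992) (l 16755680))))) (a (b (c (l 16754624) (l 16753912)) (l 16750032)) (b (a (l 16752608) (l 16751432)) (a (l 16748280) (l 16747048))))) (b (a (b (l 16745856) (l 16741752)) (b (l 16743376) (l 16739160))) (a (l 16735744) (l 16732984)))) (b (b (a (b (b (c (a (l 16760288) (b (l 16759688) (l 16758592))) (a (l 16760336) (l 16759272))) (a (c (l 16758096) (l 16758032)) (c (l 16756936) (l 16756952)))) (a (b (l 16755840) (l 16753592)) (b (l 16754712) (l 16752448)))) (b (b (a (c (b (l 16758544) (l 16757440)) (l 16760840)) (c (b (l 16757384) (l 16756280)) (l 16757144))) (a (c (l 16755784) (l 16755888)) (c (l 16754616) (l 16754808)))) (c (a (l 16752440) (l 16751264))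 (a (l 16752376) (l 16751288))))) (b (a (c (l 16755056) (l 16749408)) (c (a (l 16747992) (l 16746776)) (l 16752376))) (a (c (l 16745472) (l 16744840)) (c (l 16742944) (l 16742488))))) (b (a (b (l 16740800) (l 16736480)) (c (b (l 16738560) (l 16734232)) (l 16746104))) (a (b (l 16732232) (l 16728056)) (b (l 16729496) (l 16725216)))))), by decide +kernel⟩

def k26_A00pm_102_s1 : ∃ t, chk3 f_A00pm_102_s1 t 23 21 1 = true :=
  ⟨(b (a (a (c (b (b (a (b (l 16758272) (l 16753432)) (c (l 16758416) (l 16758720))) (a (l 16755312) (l 16748864))) (b (a (l 16745568) (l 16744344)) (l 16740448))) (b (b (a (b (l 16756048) (l 16753712)) (c (l 16758936) (l 16759056))) (b (l 16756048) (l 16748432))) (b (l 16750128) (l 16740168)))) (b (b (c (a (c (l 16757160) (l 16752272)) (c (l 16750640) (l 16751048))) (a (b (l 16753776) (l 16751440)) (l 16756688))) (c (c (l 16752088) (l 16757608)) (a (l 16747912) (l 16746728)))) (b (c (l 16752952) (l 16742576)) (c (l 16737912) (l 16737808))))) (c (a (b (a (b (c (l 16749352) (l 16749800))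 (l 16745088)) (c (l 16745808) (l 16751504))) (c (l 16747936) (l 16748184))) (b (b (l 16746344) (l 16747032)) (c (l 16745200) (l 16735056)))) (b (b (a (a (l 16750248) (l 16749032)) (a (l 16747784) (l 16746528))) (a (l 16750152) (l 16742400))) (a (c (l 16748272) (l 16748200)) (b (l 16737616) (l 16732832)))))) (a (b (a (c (b (l 16735960) (l 16731544)) (l 16743640)) (c (b (l 16733384) (l 16728888)) (l 16741208))) (a (b (l 16726808) (l 16722416)) (b (l 16724152) (l 16719664)))) (b (a (b (l 16741264) (l 16726120)) (c (l 16725728) (l 16725664))) (c (a (l 16719440) (l 16716600)) (a (l 16718816) (l 16716160)))))), by decide +kernel⟩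

def k27_A00pm_102_s1 : ∃ t, chk3 f_A00pm_102_s1 t 2 11 1 = true :=
  ⟨(a (l 2) (a (b (b (a (l 2) (b (a (l 2) (l 16753064)) (l 2))) (l 2)) (l 2)) (a (b (b (a (b (a (l 16728008) (l 16725016)) (a (l 16720624) (l 16717376))) (b (a (l 16721944) (l 16718928)) (a (l 16714072) (l 16710824)))) (b (a (l 16711768) (l 16725728)) (a (l 2) (l 16697480)))) (b (a (l 2) (b (l 16690408) (l 2))) (l 2))) (a (b (b (b (a (l 16736944) (l 16723552)) (a (l 16707648) (l 16704528))) (b (a (l 16699640) (l 16696288)) (l 16711104))) (b (b (l 16682648) (l 16675544)) (b (l 16668664) (l 2)))) (a (b (b (b (l 16720680) (l 16701448)) (b (l 16692992) (l 16684848))) (b (l 16694200) (l 16658912))) (b (b (b (l 16728328) (l 16698408)) (b (l 16689744) (l 16681384))) (b (b (l 16673328) (l 16665592)) (l 16654592)))))))), by decide +kernel⟩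

def k28_A00pm_102_s1 : ∃ t, chk3 f_A00pm_102_s1 t 2 3 1 = true :=
  ⟨(a (l 2) (b (a (l 2) (b (a (l 2) (b (b (a (l 2) (l 16685312)) (l 2)) (l 2))) (l 2))) (l 2))), by decide +kernel⟩

def k29_A00pm_102_s1 : ∃ t, chk3 f_A00pm_102_s1 t 6 8 1 = true :=
  ⟨(l 3), by decide +kernel⟩

def k30_A00pm_102_s1 : ∃ t, chk3 f_A00pm_102_s1 t 12 18 1 = true :=
  ⟨(l 3), by decide +kernel⟩

def k31_A00pm_102_s1 : ∃ t, chk3 f_A00pm_102_s1 t 12 38 1 = true :=
  ⟨(l 3), by decide +kernel⟩

def k32_A00pm_102_s1 : ∃ t, chk3 f_A00pm_102_s1 t 24 39 1 = true :=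
  ⟨(l 3), by decide +kernel⟩

def k33_A00pm_102_s1 : ∃ t, chk3 f_A00pm_102_s1 t 25 78 1 = true :=
  ⟨(b (l 3) (b (l 3) (a (l 3) (a (l 3) (a (l 3) (a (l 3) (l 531442063))))))), by decide +kernel⟩

def k34_A00pm_102_s1 : ∃ t, chk3 f_A00pm_102_s1 t 50 79 2 = true :=
  ⟨(b (l 3) (a (b (l 3) (a (l 3) (b (l 3) (a (l 3) (b (l 3) (a (b (l 3) (l 531684751)) (b (b (b (l 3) (b (l 3) (l 531689871))) (l 531689615)) (l 531688591)))))))) (b (a (l 3) (b (l 3) (c (l 531607951) (l 531621263)))) (a (b (c (a (a (l 3) (c (l 531654287) (l 531664783))) (l 531645071)) (a (a (l 3) (c (l 531673231) (l 531679375))) (l 531660943))) (c (b (b (a (a (l 3) (l 531665807)) (l 531650959)) (a (c (l 531667343) (l 531678351)) (l 531653263))) (c (c (b (l 531857551) (l 531656847)) (b (l 531662223) (l 531662991))) (c (b (l 531667599) (l 531668367)) (b (l 531672463) (l 531673487))))) (b (c (c (l 531673487) (l 531677071)) (c (l 531679887) (l 531682447))) (c (c (b (l 531810703) (l 531946383)) (a (b (l 531690895) (l 531692175)) (l 531670671)))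 (c (a (b (l 531694223) (l 531695503)) (l 531673743)) (a (b (l 531696783) (l 531698319)) (l 531676047))))))) (c (b (l 531617167) (b (l 531623823) (l 531627919))) (b (l 531630735) (b (l 531637647) (l 531641999)))))))), by decide +kernel⟩

def k35_A00pm_102_s1 : ∃ t, chk3 f_A00pm_102_s1 t 50 79 3 = true :=
  ⟨(a (b (l 3) (a (l 3) (a (l 3) (b (l 3) (b (l 3) (b (l 3) (a (b (l 3) (l 531706511)) (b (b (b (l 3) (b (l 3) (l 531708815))) (l 531709071)) (l 531709071))))))))) (b (l 3) (b (a (l 3) (b (l 3) (c (l 531626639) (l 531624335)))) (a (c (b (a (a (l 3) (c (l 531683471) (l 531685263))) (l 531667855)) (b (a (c (a (l 531702159) (l 531690895)) (l 531698319)) (l 531675023)) (c (c (a (b (l 531699087) (l 531700623)) (l 531677839)) (b (l 531957647) (l 531959439))) (c (b (l 531689871) (l 531691663)) (b (l 531690127) (l 531691919)))))) (b (a (a (l 3) (l 531684239)) (l 531666575)) (c (b (l 531686031) (b (b (l 531688847) (l 531689871)) (b (l 531690895) (l 531960207)))) (b (l 531682959) (a (b (b (l 531698063)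 (l 531699087)) (l 531700623)) (l 531675279)))))) (c (b (l 531635599) (b (l 531642255) (l 531646607))) (b (l 531632271) (b (l 531638159) (l 531642255)))))))), by decide +kernel⟩

def k36_A00pm_102_s1 : ∃ t, chk3 f_A00pm_102_s1 t 51 79 1 = true :=
  ⟨(b (b (a (l 3) (c (b (a (l 3) (c (l 531452815) (l 531456655))) (a (l 531487007) (c (l 531459471) (l 531463055)))) (a (b (l 3) (l 531488655)) (c (l 531458959) (l 531453327))))) (a (c (a (a (l 3) (c (l 531679119) (l 531554447))) (c (l 531522447) (l 531530127))) (c (a (l 531566879) (l 531531919)) (l 531545743))) (c (a (c (l 531494799) (l 531500175)) (c (l 531469711) (l 531472783))) (a (l 531497103) (c (l 531469967) (l 531461007)))))) (c (a (b (c (a (l 531569551) (l 531538319)) (l 531830927)) (b (c (l 531565455) (l 531574671)) (c (l 531573391) (l 531583119)))) (b (a (l 531512975) (c (l 531483535) (l 531486095))) (c (l 531509903) (l 531513999)))) (a (b (c (l 531563919) (l 531558287)) (b (l 531841423) (c (l 531583631) (l 531575183)))) (a (b (l 531508879)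 (l 531521423)) (b (l 531476623) (l 531488143)))))), by decide +kernel⟩

def k37_A00pm_102_s1 : ∃ t, chk3 f_A00pm_102_s1 t 13 18 1 = true :=
  ⟨(b (l 3) (a (l 3) (b (l 3) (a (l 3) (b (l 3) (a (l 3) (l 531428751))))))), by decide +kernel⟩

def k38_A00pm_102_s1 : ∃ t, chk3 f_A00pm_102_s1 t 26 38 1 = true :=
  ⟨(b (l 3) (a (l 3) (b (a (l 3) (l 531391887)) (a (b (l 3) (l 531324559)) (l 531365519))))), by decide +kernel⟩

def k39_A00pm_102_s1 : ∃ t, chk3 f_A00pm_102_s1 t 27 76 1 = true :=
  ⟨(a (a (b (l 3) (c (l 531457423) (l 531458191))) (b (l 531407759) (b (l 531491471) (l 531533967)))) (c (b (l 531765647) (a (l 531587727) (l 531638927))) (b (a (l 531434127) (l 531482255)) (a (l 531552655) (l 531867279))))), by decide +kernel⟩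

def k40_A00pm_102_s1 : ∃ t, chk3 f_A00pm_102_s1 t 54 77 1 = true :=
  ⟨(b (b (a (a (l 531442063) (l 531471503)) (a (l 531501455) (l 531531919))) (a (l 531439759) (a (l 531482511) (l 531511439)))) (a (b (l 531421839) (l 531141007)) (b (a (l 531462031) (l 531489679)) (a (l 531447951) (l 531205775))))), by decide +kernel⟩

def k41_A00pm_102_s1 : ∃ t, chk3 f_A00pm_102_s1 t 110 77 1 = true :=
  ⟨(b (b (l 531578511) (a (l 531541391) (l 531571855))) (b (a (l 531249295) (b (l 531553167) (l 531540111))) (a (b (l 531500687) (l 531501967)) (b (l 531528335) (l 531529615))))), by decide +kernel⟩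

def k42_A00pm_102_s1 : ∃ t, chk3 f_A00pm_102_s1 t 111 154 1 = true :=
  ⟨(b (a (l 531627919) (l 531661199)) (a (l 531603087) (b (l 531641999) (l 531628175)))), by decide +kernel⟩

def k43_A00pm_102_s1 : ∃ t, chk3 f_A00pm_102_s1 t 111 155 1 = true :=
  ⟨(b (c (c (a (l 531561615) (b (l 531597711) (a (l 16756288) (a (l 16755352) (b (l 16755064) (a (b (l 16754704) (l 16754352)) (l 16754208))))))) (b (l 531591823) (a (l 531564175) (a (l 16756328) (a (b (l 16755728) (l 16755040)) (b (l 16755104) (a (b (l 16754744) (l 16754392)) (l 16754248)))))))) (b (a (l 531597711) (l 531628943)) (a (l 531582351) (a (l 531605135) (b (a (l 16755808) (a (l 16755336) (b (l 16755200) (l 16754856)))) (b (a (l 16755288) (a (l 16754824) (a (l 16754584) (l 16754432)))) (a (l 16754944) (a (a (l 16754552) (l 16754400)) (l 16754176))))))))) (a (b (b (l 531558799) (l 531554703)) (b (l 531557007) (a (l 16755792) (a (l 16754864) (b (a (l 16754560) (c (l 16754232) (l 16754288))) (a (c (l 16754216) (l 16754264)) (b (l 16754008)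 (l 16753848)))))))) (b (a (b (a (l 16755616) (c (l 16754960) (l 16755040))) (a (l 16754936) (b (b (a (l 16754712) (c (l 16754368) (l 16754448))) (a (l 16754544) (a (l 16754312) (l 16754160)))) (a (c (l 16754272) (b (l 16754432) (l 16754264))) (c (l 16753952) (l 16754048)))))) (b (a (a (b (l 16754696) (c (l 16754312) (a (l 16754480) (l 16754320)))) (b (c (l 16754344) (a (l 16754512) (l 16754360))) (l 16754040))) (c (l 16753688) (l 16753824))) (b (c (a (l 16753808) (l 16753176)) (a (l 16753920) (l 16753328))) (c (l 16753160) (l 16753304))))) (a (a (b (b (a (l 16754600) (c (l 16754256) (b (l 16754416) (l 16754248)))) (a (c (l 16754248) (l 16754312)) (c (l 16753928) (l 16754008)))) (c (b (l 16753760) (l 16753432)) (b (l 16753840) (l 16753520)))) (c (c (l 16755896) (l 16755936)) (b (c (l 16753688) (l 16753760)) (l 16753088)))) (c (c (l 16752320) (l 16752384)) (l 16752520)))))), by decide +kernel⟩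

def k44_A00pm_102_s1 : ∃ t, chk3 f_A00pm_102_s1 t 26 39 1 = true :=
  ⟨(b (a (b (a (l 3) (l 531091343)) (a (b (l 531404431) (l 531413903)) (b (l 531370383) (l 531377551)))) (b (a (l 531323535) (l 531363215)) (a (l 531080335) (l 531359631)))) (a (a (b (c (c (b (l 531424399) (l 531436431)) (b (l 531425167) (l 531436431))) (b (c (l 531421071) (l 531412623)) (a (l 531438223) (l 531413135)))) (c (b (l 531449487) (l 531461775)) (b (l 531433359) (l 531443087)))) (b (b (c (l 531390351) (l 531375247)) (c (l 531400335) (l 531380111))) (c (b (l 531410831) (l 16763504)) (b (l 531386255) (l 531393935))))) (b (b (a (l 531357071) (a (l 16761344) (l 531366543))) (a (a (l 16763088) (l 531357839)) (c (l 531372431) (l 531339407)))) (a (c (b (l 16759232) (l 16756480)) (b (l 531350671) (l 531356559))) (a (c (b (l 16755840) (b (l 16748536) (b (l 16747504) (l 16749432)))) (b (l 16755696) (b (l 16753608) (a (l 16752792) (l 16751640))))) (b (b (a (l 16754776) (l 16748400)) (a (l 16748152) (c (l 16749712) (l 16749528))))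 (a (b (b (l 16752352) (l 16751656)) (l 16750632)) (c (l 16750272) (l 16750096))))))))), by decide +kernel⟩

def k45_A00pm_102_s1 : ∃ t, chk3 f_A00pm_102_s1 t 54 78 1 = true :=
  ⟨(a (b (b (l 531412879) (l 531412879)) (b (l 531410831) (l 531139471))) (c (a (b (l 531183247) (b (l 16757752) (a (l 16755608) (b (l 16755128) (a (l 16754056) (l 16750856)))))) (b (b (l 531476367) (l 16758112)) (b (a (l 16755992) (b (l 16755488) (b (l 16754480) (l 16751184)))) (b (a (b (l 16754296) (l 16751000)) (b (a (l 16753416) (l 16752824)) (l 16752448))) (b (a (a (l 16753232) (l 16752648)) (l 16751776)) (l 16756920)))))) (a (a (b (l 531446927) (l 531165839)) (b (l 531191695) (b (l 16757128) (b (l 16755056) (a (l 16753960) (l 16750760)))))) (b (b (l 531482255) (l 531478671)) (b (a (l 16755944) (b (l 16755448) (b (l 16754416) (l 16751120)))) (b (a (a (l 16754176) (l 16750968)) (b (a (l 16753344) (l 16752760)) (l 16752376))) (b (a (l 16750224) (l 16751712)) (l 16756856)))))))), by decide +kernel⟩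

def k46_A00pm_102_s1 : ∃ t, chk3 f_A00pm_102_s1 t 55 156 1 = true :=
  ⟨(a (b (b (a (l 531505039) (l 531532943)) (a (l 531507087) (a (l 16755912) (a (l 16755000) (b (l 16754720) (b (l 16754224) (a (l 16754048) (l 16753736)))))))) (a (a (l 531501455) (b (l 16755784) (b (l 16754776) (a (l 16754400) (b (l 16753968) (l 16751008)))))) (c (b (a (b (l 16754912) (a (l 16754544) (l 16751320))) (b (a (b (l 16754168) (l 16753832)) (l 16753384)) (l 16755648))) (a (b (a (l 16753880) (l 16753272)) (l 16755528)) (l 16752040))) (a (b (b (l 16754912) (a (l 16754536) (l 16751312))) (b (a (l 16753864) (l 16753264)) (a (l 16753192) (l 16752616)))) (b (b (a (b (l 16754168) (l 16753832)) (l 16756024)) (b (l 16755824) (l 16752888))) (b (l 16752400) (l 16751752))))))) (b (a (b (b (a (l 16755128) (b (a (c (l 16754352) (l 16754400)) (c (l 16753728) (l 16753792))) (a (a (c (l 16754176) (l 16754216)) (b (l 16753968) (l 16753808))) (l 16753432)))) (a (a (l 16754776) (b (a (l 16754480) (l 16754176)) (a (l 16754152) (b (l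 16753920) (l 16753760))))) (c (a (l 16756144) (l 16752904)) (c (l 16755888) (l 16755928))))) (c (a (b (a (b (l 16754272) (l 16753936)) (l 16756104)) (a (l 16756056) (l 16752824))) (b (l 16752560) (l 16751904))) (a (b (a (b (l 16754296) (a (l 16754112) (l 16753808))) (l 16756144)) (a (l 16756088) (l 16752888))) (b (l 16752648) (l 16752008))))) (c (b (a (c (l 16752280) (l 16752328)) (l 16751048)) (a (l 16750992) (l 16749752))) (a (c (l 16751752) (l 16751848)) (l 16750616)))) (a (c (c (a (l 16756712) (l 16750240)) (l 16756136)) (c (l 16756192) (l 16756256))) (c (l 16748416) (l 16748648))))), by decide +kernel⟩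

def k47_A00pm_102_s1 : ∃ t, chk3 f_A00pm_102_s1 t 55 157 1 = true :=
  ⟨(a (c (b (a (b (a (b (l 16754640) (l 16751352)) (b (a (l 16753744) (l 16753144)) (l 16755392))) (a (b (a (l 16753592) (l 16752992)) (l 16752616)) (l 16751768))) (b (a (l 16751912) (l 16750712)) (a (l 16750576) (l 16749384)))) (a (l 16755592) (l 16747984))) (b (a (b (a (b (l 16754600) (l 16751304)) (b (a (l 16753704) (l 16753112)) (a (l 16753032) (l 16752456)))) (a (b (a (l 16753536) (l 16752944)) (l 16752568)) (l 16751760))) (c (l 16750680) (l 16750704))) (a (l 16750344) (l 16748056)))) (b (c (l 16752264) (l 16752464)) (c (l 16744400) (l 16744616)))), by decide +kernel⟩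

def k48_A00pm_102_s1 : ∃ t, chk3 f_A00pm_102_s1 t 27 79 1 = true :=
  ⟨(a (b (a (a (b (l 531392031) (a (l 16754600) (b (l 16754168) (b (l 16753128) (a (l 16752712) (l 16752144)))))) (b (a (l 16752496) (b (l 16754656) (b (l 16753624) (a (l 16753216) (l 16752648))))) (b (a (b (l 16753384) (a (l 16752976) (l 16752400))) (b (a (l 16752528) (l 16751960)) (l 16751560))) (a (c (l 16751712) (l 16751568)) (l 16750536))))) (b (a (b (a (c (b (l 16753896) (l 16753216)) (l 16750832)) (b (a (l 16750360) (l 16752408)) (l 16752016))) (a (b (a (l 16752760) (l 16752192)) (l 16751800)) (l 16756248))) (c (l 16749992) (l 16755176))) (c (l 16751048) (l 16750976)))) (c (a (b (a (b (a (b (l 16752936) (l 16752240)) (l 16751464)) (l 16750648)) (l 16754336)) (l 16747472)) (l 16749600)) (a (b (a (b (a (b (l 16752768) (l 16752064)) (l 16751304)) (l 16750488)) (b (l 16749648) (l 16748280))) (a (l 16748432) (l 16746224))) (l 16749528)))) (b (a (a (b (l 16747672) (l 16744992)) (l 16749280)) (c (l 16740472) (l 16740672))) (a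 (l 16745072) (l 16735288)))), by decide +kernel⟩

def k49_A00pm_102_s1 : ∃ t, chk3 f_A00pm_102_s1 t 14 8 1 = true :=
  ⟨(a (l 3) (b (l 3) (b (l 3) (b (a (l 3) (a (l 3) (b (l 3) (b (l 531419279) (l 531482255))))) (a (l 3) (b (a (b (l 3) (a (l 3) (l 531677839))) (b (l 531296911) (a (l 531675279) (l 531676559)))) (a (b (a (l 3) (b (l 531767183) (l 531833231))) (a (b (l 531907471) (a (l 531985551) (l 531983759))) (b (a (l 531906191) (l 531905679)) (a (l 531982735) (l 532116623))))) (b (a (a (l 532068239) (l 531800463)) (b (l 531768207) (l 531835535))) (a (b (a (l 531905935) (l 531906959)) (a (l 532251535) (l 531984527))) (a (b (l 531908751) (l 531986575)) (b (l 531911567) (l 531989647)))))))))))), by decide +kernel⟩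

def k50_A00pm_102_s1 : ∃ t, chk3 f_A00pm_102_s1 t 15 16 1 = true :=
  ⟨(a (a (l 3) (b (l 3) (b (l 3) (a (l 3) (a (l 3) (b (l 3) (a (b (l 3) (c (a (b (l 3) (c (a (l 3) (l 531776911)) (l 531747471))) (b (c (l 531801231) (l 531775631)) (c (l 531783055) (l 531756687)))) (a (b (l 3) (l 531976335)) (b (l 531736975) (l 531717263))))) (a (b (l 3) (b (c (c (l 531810191) (l 531784591)) (l 531746447)) (b (l 532026255) (l 531748239)))) (b (l 14) (b (b (l 14) (l 532045199)) (b (l 531767183) (l 531757455)))))))))))) (a (b (l 14) (a (b (l 14) (b (l 14) (b (l 14) (b (l 14) (a (a (a (b (l 14) (l 531766671)) (l 14)) (l 14)) (l 14)))))) (l 14))) (l 14))), by decide +kernel⟩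

def k51_A00pm_102_s1 : ∃ t, chk3 f_A00pm_102_s1 t 60 34 1 = true :=
  ⟨(b (l 3) (b (a (l 3) (a (l 3) (b (l 3) (a (l 531391375) (l 531397007))))) (a (l 3) (a (b (c (l 531392143) (l 531324303)) (l 531350927)) (b (c (l 531402127) (l 531332751)) (l 531361679)))))), by decide +kernel⟩

def k52_A00pm_102_s1 : ∃ t, chk3 f_A00pm_102_s1 t 122 68 1 = true :=
  ⟨(b (b (l 3) (b (l 3) (a (l 3) (a (l 3) (c (a (l 3) (l 531641743)) (l 531576719)))))) (b (a (l 3) (a (a (l 3) (b (l 3) (l 531555471))) (a (b (l 531852175) (l 531564431)) (b (l 531592847) (l 531573647))))) (a (a (l 3) (a (b (l 3) (l 531492239)) (c (b (l 531550095) (l 531530383)) (b (l 531486607) (l 531465615))))) (c (a (b (l 531562127) (l 531541135)) (b (l 531579791) (l 531560847))) (a (b (l 531499151) (l 531476879)) (l 532041615)))))), by decide +kernel⟩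

def k53_A00pm_102_s1 : ∃ t, chk3 f_A00pm_102_s1 t 123 136 1 = true :=
  ⟨(a (c (b (b (a (l 3) (a (l 3) (l 531733135))) (a (l 3) (a (l 531705743) (l 531714703)))) (a (b (a (l 531669135) (l 531678095)) (a (l 531650447) (l 531659407))) (a (b (l 531687055) (l 531668367)) (b (l 531696015) (l 531677327))))) (b (a (l 3) (a (l 531658383) (l 531667599))) (a (a (l 531600527) (l 531609743)) (a (l 531618959) (l 531628431))))) (a (a (c (b (b (a (l 531740303) (l 531744911)) (l 531723663)) (b (l 531704975) (l 531686543))) (b (b (l 531688335) (l 531668623)) (l 531637647))) (c (b (b (a (l 531749519) (l 531753871)) (l 531732623)) (b (l 531713935) (l 531695503))) (b (b (l 531697551) (l 531678095)) (l 531647119)))) (b (c (a (b (c (l 531773583) (l 531746959)) (l 531741583)) (b (l 531769231) (l 531750799))) (a (b (l 531707023) (l 531687311)) (b (l 531716495) (l 531696783)))) (b (a (l 531963791) (l 531973007)) (a (l 531676303) (l 531685519)))))), by decide +kernel⟩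

def k54_A00pm_102_s1 : ∃ t, chk3 f_A00pm_102_s1 t 246 137 1 = true :=
  ⟨(b (c (a (b (a (l 531631759) (l 531640719)) (l 531616143)) (a (l 531639439) (l 531648399))) (a (b (l 531575439) (l 531555727)) (a (l 531579791) (l 531589263)))) (a (b (l 531835023) (l 531547279)) (b (l 531853199) (l 531565711)))), by decide +kernel⟩

def k55_A00pm_102_s1 : ∃ t, chk3 f_A00pm_102_s1 t 247 274 1 = true :=
  ⟨(b (c (c (a (a (l 531682703) (l 531691663)) (a (l 531700623) (b (a (l 16769160) (b (l 16768800) (a (l 16768608) (l 16768448)))) (a (b (l 16768672) (a (l 16768480) (l 16768312))) (b (l 16768360) (l 16768232)))))) (a (l 531655823) (a (l 531671439) (b (a (l 16769120) (b (l 16768752) (a (l 16768560) (l 16768392)))) (a (b (l 16768624) (a (l 16768432) (l 16768256))) (b (l 16768296) (l 16768144))))))) (a (l 531612303) (a (l 531628431) (b (a (l 16769056) (b (l 16768680) (a (l 16768488) (l 16768312)))) (a (b (l 16768552) (a (l 16768352) (l 16768176))) (b (l 16768200) (l 16768016))))))) (c (b (b (c (a (l 531673999)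 (a (l 16768800) (a (l 16768224) (l 16768128)))) (a (l 531644559) (a (l 16768752) (a (l 16768160) (l 16768024))))) (a (l 531654543) (a (a (l 16768720) (a (l 16768320) (l 16768152))) (l 16768008)))) (b (a (l 531649935) (a (a (l 16768384) (a (l 16768080) (l 16768000))) (l 16767896))) (a (l 531645327) (a (a (a (l 16768192) (l 16768016)) (l 16767912)) (l 16767784))))) (b (b (a (l 531600527) (a (l 16768680) (a (l 16768064) (l 16767864)))) (a (l 531595663) (a (a (l 16768624) (a (l 16768224) (l 16768032))) (l 16767800)))) (a (l 531587983) (a (a (b (l 16768280) (a (l 16768080) (l 16767896))) (b (l 16767928) (l 16767736))) (a (l 16767648) (l 16767488))))))), by decide +kernel⟩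

def k56_A00pm_102_s1 : ∃ t, chk3 f_A00pm_102_s1 t 247 275 1 = true :=
  ⟨(a (a (a (b (l 531598479) (b (l 16768280) (b (l 16767776) (c (l 16767552) (l 16767424))))) (b (l 531603087) (a (b (l 16767880) (c (l 16767464) (l 16767320))) (b (b (l 16767784) (l 16767536)) (l 16767296))))) (a (b (b (l 16768560) (b (l 16768056) (c (a (l 16767912) (l 16767736)) (l 16767712)))) (c (b (b (l 16767640) (l 16767488)) (l 16767320)) (b (l 16767424) (l 16767080)))) (b (b (b (l 16768200) (c (a (l 16768048) (l 16767872)) (l 16767856))) (c (b (l 16767776) (l 16767632)) (l 16767568))) (b (c (l 16767464) (l 16767224)) (l 16767080))))) (a (b (b (b (a (c (a (l 16767944) (l 16767864)) (l 16767784)) (l 16767696)) (c (l 16767728) (l 16767512))) (c (a (l 16767600) (l 16767512)) (l 16767288))) (c (l 16767216) (l 16766824))) (c (b (c (l 16767592) (l 16767408)) (l 16766424)) (b (l 16767104) (l 16766488))))), by decide +kernel⟩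

def k57_A00pm_102_s1 : ∃ t, chk3 f_A00pm_102_s1 t 122 69 1 = true :=
  ⟨(a (b (a (b (c (l 531477391) (l 531410575)) (l 531404175)) (b (a (l 531719055) (b (l 531462543) (l 531444623))) (l 531412623))) (b (a (l 531381647) (l 531390863)) (a (l 531377039) (b (l 531387023) (c (l 16769456) (l 16766696)))))) (b (a (b (b (c (l 531517839) (l 531452047)) (l 531458191)) (b (l 531436687) (l 531420047))) (b (b (l 531506063) (l 531483023)) (l 531720591))) (b (a (l 531404175) (a (b (l 16767184) (b (a (l 16766424) (l 16765968)) (c (l 16765824) (l 16765640)))) (b (a (b (l 16766744) (l 16768744)) (b (c (l 16766352) (l 16766200)) (l 16765872))) (c (l 16763040) (l 16765384))))) (a (b (a (l 16766560) (b (a (l 16766120) (l 16765672)) (c (l 16765544) (l 16765352)))) (a (b (a (l 16765808) (l 16765392)) (l 16762552)) (c (l 16765104) (l 16764808)))) (c (b (l 16765280) (l 16764808)) (l 16764608)))))), by decide +kernel⟩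

def k58_A00pm_102_s1 : ∃ t, chk3 f_A00pm_102_s1 t 246 69 1 = true :=
  ⟨(b (b (b (a (l 531526543) (a (l 531542927) (a (b (l 16767992) (b (l 16767480) (c (l 16767264) (l 16767128)))) (b (b (l 16767632) (c (l 16767408) (l 16767280))) (c (l 16767152) (l 16766992)))))) (a (l 531506319) (b (a (a (l 16767696) (b (l 16767336) (c (l 16767112) (l 16766976)))) (a (c (l 16767008) (l 16766840)) (l 16766768))) (b (a (a (l 16767184) (l 16766848)) (l 16766624)) (a (a (l 16766896) (l 16766680)) (l 16763872)))))) (a (b (a (l 531483023) (a (b (l 16767384) (c (l 16766808) (l 16766664))) (b (b (l 16767024) (l 16766744)) (c (l 16766568) (l 16766392))))) (b (a (a (l 16767064) (a (l 16766672) (l 16766480))) (c (l 16766376) (l 16766160))) (a (a (c (l 16766504) (l 16766352)) (l 16768800)) (l 16763344)))) (c (b (a (b (a (l 16766712) (l 16766600)) (l 16766408)) (l 16766352)) (l 16765968)) (b (a (b (l 16766464) (l 16766112)) (l 16765944)) (l 16765480))))) (b (a (a (b (c (b (l 16766080) (l 16765816)) (l 16763072)) (l 16765256))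 (c (l 16765520) (l 16765016))) (c (a (l 16765000) (l 16763576)) (b (l 16764848) (l 16764176)))) (c (a (l 16763976) (c (a (l 16761696) (l 16760248)) (l 16761360))) (a (l 16763912) (b (l 16762736) (l 16761296)))))), by decide +kernel⟩

def k59_A00pm_102_s1 : ∃ t, chk3 f_A00pm_102_s1 t 247 69 1 = true :=
  ⟨(b (b (a (a (b (b (a (a (b (l 16767320) (l 16767144)) (l 16767152)) (l 16767056)) (a (l 16766912) (l 16764168))) (c (l 16766640) (l 16766240))) (b (c (l 16766928) (l 16766536)) (c (l 16766192) (l 16765912)))) (c (a (b (l 16766312) (l 16764736)) (b (l 16764840) (b (l 16761032) (l 16762864)))) (b (a (l 16766200) (l 16765448)) (c (l 16764488) (l 16764856))))) (c (a (a (l 16765280) (b (l 16764616) (l 16763040))) (a (b (c (l 16762992) (l 16763328)) (l 16764200)) (b (l 16764304) (l 16760104)))) (a (b (l 16765448) (l 16764440)) (b (c (l 16763000) (l 16763440)) (c (a (l 16762208) (l 16760832)) (l 16762032)))))) (c (b (b (a (a (l 16762920) (b (l 16761864) (l 16761080))) (a (l 16760008) (l 16758536)))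 (a (a (l 16756112) (l 16759904)) (a (l 16758440) (l 16756976)))) (a (b (a (l 16759792) (l 16758344)) (a (l 16758232) (l 16756784))) (a (l 16758720) (l 16754632)))) (b (a (c (a (l 16762720) (l 16761360)) (l 16762512)) (a (c (b (l 16760728) (l 16759256)) (l 16760576)) (b (c (l 16759352) (l 16759976)) (l 16760832)))) (a (c (b (l 16754584) (l 16758360)) (a (l 16760352) (l 16753824))) (a (b (l 16760736) (l 16756680)) (a (l 16759016) (l 16758344))))))), by decide +kernel⟩

def k60_A00pm_102_s1 : ∃ t, chk3 f_A00pm_102_s1 t 60 70 1 = true :=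
  ⟨(a (a (b (l 531898255) (l 531454095)) (b (l 532169615) (l 531459983))) (b (a (l 532177551) (a (l 531384463) (a (l 531391119) (b (l 531384719) (b (l 16766400) (l 16765088)))))) (a (a (l 531469967) (a (l 531475599) (b (l 16767184) (b (l 16765288) (b (l 16764352) (a (l 16764008) (l 16763696))))))) (a (b (b (l 16766328) (a (l 16765560) (b (l 16764880) (l 16764296)))) (a (b (a (l 16764544) (l 16769376)) (a (l 16768912) (l 16763456))) (c (l 16763672) (l 16763392)))) (b (b (a (l 16770072) (b (l 16764328) (l 16763984))) (a (b (l 16764104) (l 16763776)) (l 16763592))) (l 16763000)))))), by decide +kernel⟩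

def k61_A00pm_102_s1 : ∃ t, chk3 f_A00pm_102_s1 t 120 71 1 = true :=
  ⟨(b (b (a (l 531576463) (l 531584143)) (a (l 531681679) (a (l 531690383) (b (a (l 16765256) (l 16766944)) (a (b (l 16764408) (b (l 16763984) (l 16766328))) (b (a (l 16763712) (l 16763400)) (a (l 16763336) (l 16763128)))))))) (a (a (b (l 531807375) (b (l 531915407) (l 532262287))) (b (l 531811727) (a (b (l 531919247) (b (b (c (l 16763856) (l 16763816)) (a (l 16763808) (a (l 16763488) (c (l 16763352) (l 16763304))))) (a (a (b (l 16763664) (c (b (l 16763496) (l 16763400)) (l 16763416))) (b (b (l 16763512) (l 16763400)) (c (l 16763328) (l 16763280)))) (a (b (c (l 16763344) (l 16763288)) (l 16763200)) (l 16763160))))) (b (a (b (l 16764080) (b (l 16763696) (a (l 16763552) (c (l 16763392) (l 16763336))))) (c (b (l 16763672) (b (a (l 16763416) (l 16763296)) (l 16763248))) (b (l 16763608) (b (l 16763304) (l 16763152))))) (b (b (a (a (c (l 16763376) (l 16763320)) (l 16763232)) (l 16763096)) (l 16763088)) (a (l 16763024) (l 16762848)))))))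 (a (b (a (b (l 16764832) (b (l 16764024) (a (l 16763712) (b (a (l 16763520) (l 16763344)) (l 16763272))))) (b (b (l 16764208) (a (l 16763888) (a (l 16763552) (l 16763392)))) (b (a (b (l 16763496) (l 16763320)) (l 16763176)) (l 16763040)))) (b (a (b (a (b (a (l 16763448) (l 16763296)) (l 16763232)) (l 16763096)) (l 16762984)) (l 16762736)) (c (l 16762072) (l 16762320)))) (b (b (a (b (a (l 16766168) (l 16763280)) (a (l 16763224) (l 16763032))) (l 16762888)) (a (l 16762800) (l 16762456))) (b (l 16764288) (l 16760024)))))), by decide +kernel⟩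

def k62_A00pm_102_s1 : ∃ t, chk3 f_A00pm_102_s1 t 121 71 1 = true :=
  ⟨(b (b (a (a (b (l 16765264) (a (l 16764552) (b (l 16766536) (a (l 16763616) (l 16763376))))) (b (a (b (l 16764120) (a (l 16763800) (l 16763528))) (a (l 16768736) (l 16763296))) (b (l 16763208) (l 16762960)))) (a (l 16762664) (l 16761408))) (a (a (b (b (a (a (l 16763912) (l 16763536)) (l 16763216)) (a (a (l 16763464) (l 16763240)) (l 16762992))) (l 16762824)) (l 16765000)) (c (l 16759072) (l 16759800)))) (c (a (b (a (l 16761704) (l 16759368)) (l 16762456)) (a (l 16755360) (l 16752968))) (a (c (l 16764560) (l 16764904)) (l 16752560)))), by decide +kernel⟩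

def k63_A00pm_102_s1 : ∃ t, chk3 f_A00pm_102_s1 t 122 35 1 = true :=
  ⟨(b (b (a (a (b (b (l 16770128) (c (l 16768856) (l 16766088))) (b (a (l 16765368) (c (l 16764752) (l 16764552))) (a (b (l 16764560) (l 16764200)) (l 16764000)))) (b (b (a (l 16765952) (b (l 16762704) (l 16764920))) (a (c (l 16762376) (l 16764800)) (l 16764456))) (c (l 16764048) (l 16763568)))) (b (c (a (l 16764512) (l 16763584)) (a (l 16764056) (l 16763344))) (c (a (l 16763104) (l 16760432)) (a (l 16762824) (l 16761296))))) (a (b (c (l 16763384) (l 16762744)) (c (l 16760600) (l 16761336))) (c (b (a (l 16759928) (c (l 16757048) (l 16752288))) (a (l 16756752) (l 16759368))) (a (b (l 16760784) (l 16757832)) (b (l 16758368) (l 16755432)))))) (b (a (c (b (l 16754768) (b (l 16744488) (l 16742880))) (a (l 16757968) (l 16755696))) (c (a (b (l 16753576) (l 16750392)) (b (l 16750968) (l 16747808))) (b (a (l 16754864) (b (l 16753224) (l 16751752))) (c (l 16750280) (l 16745944))))) (a (c (b (b (l 16751752) (l 16750144)) (l 16747720))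 (b (l 16741824) (l 16738784))) (c (a (l 16750856) (l 16748296)) (a (b (l 16748904) (l 16745904)) (b (l 16746576) (l 16743600))))))), by decide +kernel⟩

def k64_A00pm_102_s1 : ∃ t, chk3 f_A00pm_102_s1 t 123 70 1 = true :=
  ⟨(b (a (c (a (b (b (l 16761624) (l 16760056)) (c (l 16757472) (l 16752712))) (c (b (l 16763048) (l 16754632)) (b (b (l 16759056) (l 16757528)) (l 16755224)))) (b (a (l 16761704) (c (l 16758840) (l 16759456))) (a (l 16758800) (c (l 16750648) (l 16751392))))) (c (a (b (a (l 16755896) (l 16754456)) (a (l 16752792) (l 16751352))) (b (a (l 16752992) (l 16751528)) (a (l 16749904) (l 16748432)))) (c (a (b (l 16758784) (l 16753232)) (b (l 16756056) (l 16750512))) (b (a (b (l 16752368) (l 16756208)) (b (l 16755016) (l 16753624))) (b (a (l 16754808) (l 16752232)) (a (l 16753408) (l 16750840))))))) (a (a (c (b (l 16759816) (l 16751432)) (b (c (l 16755536) (l 16751032)) (b (l 16748464) (l 16752248)))) (c (b (l 16757048) (l 16748680)) (b (c (l 16752944) (l 16748576)) (c (l 16749984) (l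 16750984))))) (c (a (b (a (l 16749688) (l 16748256)) (l 16745872)) (b (a (l 16746816) (l 16745352)) (a (l 16743728) (l 16742272)))) (c (b (a (l 16750296) (l 16747592)) (a (l 16747360) (l 16744672))) (a (b (l 16751312) (l 16748496)) (b (l 16748752) (a (l 16746600) (l 16745320)))))))), by decide +kernel⟩

def k65_A00pm_102_s1 : ∃ t, chk3 f_A00pm_102_s1 t 123 71 1 = true :=
  ⟨(a (b (c (a (b (l 16748296) (l 16745152)) (b (l 16745568) (l 16742440))) (a (b (c (l 16749576) (l 16750568)) (l 16747128)) (b (a (l 16748200) (l 16746944)) (l 16749904)))) (b (c (a (l 16742008) (l 16739312)) (c (l 16742344) (a (l 16744816) (l 16742448)))) (a (a (l 16745848) (l 16744584)) (c (a (l 16736856) (l 16735504)) (a (l 16739416) (l 16738104)))))) (b (a (c (b (l 16742776) (a (l 16740368) (l 16738960))) (b (a (l 16745672) (l 16744392)) (a (l 16742776) (b (l 16742224) (l 16740744))))) (c (b (a (l 16740632) (b (l 16739960) (l 16738416))) (a (l 16737536) (l 16736064))) (b (a (b (l 16743808) (l 16742360)) (b (l 16742464)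 (l 16740936))) (b (a (l 16740864) (l 16739352)) (l 16738528))))) (b (a (a (b (l 16744472) (l 16742936)) (b (l 16743080) (l 16736240))) (c (l 16733648) (l 16736136))) (c (l 16731936) (a (l 16735928) (l 16732920)))))), by decide +kernel⟩

def k66_A00pm_102_s1 : ∃ t, chk3 f_A00pm_102_s1 t 248 272 1 = true :=
  ⟨(b (b (a (a (l 531757199) (l 14)) (l 14)) (c (b (c (a (a (l 531789711) (l 14)) (l 14)) (a (l 532033935) (l 14))) (a (a (l 531771791) (l 531781007)) (l 14))) (a (l 531991951) (l 14)))) (c (a (a (l 531759759) (l 531768975)) (b (l 14) (a (a (b (l 14) (a (l 16769216) (l 14))) (l 14)) (l 14)))) (a (a (l 531706255) (l 531715727)) (a (a (b (l 14) (b (l 14) (a (l 16769128) (l 14)))) (l 14)) (l 14))))), by decide +kernel⟩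

def k67_A00pm_102_s1 : ∃ t, chk3 f_A00pm_102_s1 t 248 273 1 = true :=
  ⟨(a (b (a (l 531713935) (c (a (b (l 16769640) (b (a (l 16769288) (l 16769032)) (a (l 16768968) (l 16768824)))) (b (b (a (l 16769408) (l 16769152)) (a (l 16769096) (l 16768952))) (b (a (l 16768888) (l 16768824)) (l 16768736)))) (b (a (l 16769560) (b (l 16769192) (a (l 16769000) (l 16768848)))) (b (a (l 16769064) (l 16768744)) (a (a (l 16768880) (l 16768712)) (l 16768568)))))) (a (a (b (l 16769352) (b (c (l 16768904) (l 16768808)) (c (a (l 16768712) (l 16768560)) (a (l 16768616) (l 16768448))))) (c (b (b (a (l 16769168) (l 16768904)) (a (l 16768840) (l 16768688))) (b (a (l 16768624) (l 16768552)) (l 16768464))) (b (b (l 16768936) (a (l 16768752) (l 16768584))) (b (l 16768472) (l 16768296))))) (b (a (c (b (a (l 16768760) (l 16768688)) (l 16768600)) (b (l 16768608) (l 16768432))) (c (l 16768568) (l 16768344))) (c (a (l 16768432) (l 16768352)) (l 16768120))))) (c (b (a (b (a (b (a (l 16769016) (l 16768960)) (l 16768872)) (l 16768840))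 (a (l 16768704) (l 16768624))) (c (l 16768320) (l 16768480))) (a (c (l 16768240) (l 16768240)) (c (l 16766688) (l 16766912)))) (b (a (b (a (b (l 16768872) (l 16768704)) (l 16768608)) (l 16768392)) (c (l 16768312) (l 16768104))) (c (a (l 16768040) (l 16767152)) (l 16767648))))), by decide +kernel⟩

def k68_A00pm_102_s1 : ∃ t, chk3 f_A00pm_102_s1 t 249 136 1 = true :=
  ⟨(a (a (a (b (l 14) (b (l 14) (b (l 14) (c (l 16765248) (l 16765872))))) (l 14)) (l 14)) (l 14)), by decide +kernel⟩

def k69_A00pm_102_s1 : ∃ t, chk3 f_A00pm_102_s1 t 248 137 1 = true :=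
  ⟨(b (a (a (b (b (a (b (a (b (l 16768472) (l 16768376)) (l 16768344)) (l 16768240)) (c (l 16768296) (l 16768064))) (c (a (l 16768160) (l 16768072)) (a (l 16767928) (l 16767760)))) (c (c (l 16767864) (l 16767688)) (l 16767392))) (c (b (c (l 16768144) (l 16767968)) (c (l 16766520) (l 16766744))) (c (l 16767488) (l 16767232)))) (c (b (a (c (l 16766608) (l 16766832)) (c (l 16767680) (b (l 16765728) (l 16764944)))) (a (c (b (l 16765392) (l 16764576)) (l 16765264)) (a (l 16763976) (l 16763216)))) (b (a (l 16767200) (c (l 16765648) (l 16765992))) (a (c (l 16765568) (l 16765904)) (c (b (l 16764520) (l 16763776)) (l 16764568)))))) (b (a (c (a (l 16766536) (c (b (l 16765304) (l 16764496)) (l 16765176))) (a (l 16766776) (l 16765648))) (c (a (b (l 16763928) (l 16763128)) (l 16764624)) (c (a (l 16761448) (l 16762656)) (a (l 16764488) (l 16760520))))) (a (b (c (a (l 16765336) (l 16763840)) (a (l 16765912) (l 16764552))) (c (a (l 16764544) (l 16763048)) (a (l 16765184) (l 16763824)))) (c (a (l 16764560) (l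 16760416)) (a (c (l 16762576) (b (l 16763416) (l 16762712))) (c (l 16761160) (l 16761720))))))), by decide +kernel⟩

def k70_A00pm_102_s1 : ∃ t, chk3 f_A00pm_102_s1 t 249 137 1 = true :=
  ⟨(c (a (b (b (a (a (l 16764048) (l 16763280)) (a (l 16762504) (l 14))) (a (l 16764688) (l 16760520))) (a (b (l 16760472) (l 16758888)) (b (l 16758928) (l 16757344)))) (b (a (b (l 14) (l 16758960)) (l 14)) (a (b (l 16757376) (l 16755784)) (b (l 16755808) (l 16754216))))) (b (b (a (a (c (b (l 16764592) (l 16763840)) (l 16764640)) (b (l 14) (a (l 16763008) (l 14)))) (l 14)) (b (a (a (c (l 16763096) (l 16763568)) (l 16764544)) (l 14)) (a (a (a (l 16762944) (l 16762248)) (l 16761192)) (a (l 16759784) (l 14))))) (a (a (b (c (l 16761224) (l 16761792)) (a (l 16760392) (l 16759696))) (b (a (l 16760448) (l 16759744)) (a (l 16758992) (l 16758288)))) (c (a (l 16757584) (b (l 16756872) (l 16755384))) (a (b (l 16759056) (l 16757640)) (b (l 16757680) (l 16756264))))))), by decide +kernel⟩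

def k71_A00pm_102_s1 : ∃ t, chk3 f_A00pm_102_s1 t 125 68 1 = true :=
  ⟨(a (b (l 14) (a (b (l 14) (a (a (b (l 14) (c (l 16753032) (l 16754736))) (l 14)) (l 14))) (l 14))) (l 14)), by decide +kernel⟩

def k72_A00pm_102_s1 : ∃ t, chk3 f_A00pm_102_s1 t 248 69 1 = true :=
  ⟨(b (c (b (a (a (b (b (l 16763752) (l 16762960)) (l 16764400)) (b (l 16764480) (l 16760280))) (a (b (l 16760352) (l 16758768)) (b (l 16758832) (l 16757256)))) (a (b (a (l 16760200) (l 16758704)) (a (l 16758624) (l 16757128))) (a (b (l 16757192) (l 16755624)) (b (l 16755680) (l 16754104))))) (b (b (a (a (l 16764096) (b (l 16763096) (l 16759752))) (a (c (l 16761088) (l 16761648)) (a (l 16760328) (l 16759632)))) (a (a (c (l 16762408) (l 16762888)) (c (l 16761008) (l 16761568))) (a (a (l 16760256) (l 16759568)) (l 16761152)))) (b (a (a (c (l 16760928) (l 16761480)) (c (l 16759528) (l 16760152))) (a (l 16761080) (l 16759704))) (a (a (c (l 16759448) (l 16760064)) (l 16761008)) (a (l 16759640) (l 16755640)))))) (c (c (b (a (a (l 16755992)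 (l 16754464)) (a (l 16752936) (l 16751384))) (a (l 16752056) (l 16748992))) (b (a (a (l 16756576) (l 16755112)) (a (l 16753632) (l 16752152))) (a (l 16752776) (a (l 16750568) (l 16749088))))) (a (a (b (b (l 16760928) (l 16756864)) (b (l 16755424) (l 16753992))) (b (b (l 16759568) (l 16755504)) (b (l 16754064) (l 16752632)))) (c (b (a (l 16754424) (l 16753008)) (a (l 16751488) (l 16750072))) (b (a (l 16755304) (l 16753960)) (a (l 16752504) (l 16751160))))))), by decide +kernel⟩

def k73_A00pm_102_s1 : ∃ t, chk3 f_A00pm_102_s1 t 249 69 1 = true :=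
  ⟨(b (a (b (c (a (b (l 16757304) (l 16755720)) (b (l 16755760) (l 16754176))) (c (a (l 16757496) (l 16756056)) (a (b (l 16758952) (l 16757544)) (b (l 16757592) (l 16756184))))) (c (a (b (l 16754144) (l 16752576)) (b (l 16752608) (l 16751032))) (a (b (l 16758312) (l 16754248)) (c (l 16753096) (a (l 16754408) (l 16753728)))))) (c (b (a (b (l 16754200) (l 16752624)) (b (l 16752640) (l 16751056))) (a (b (l 16751048) (l 16749480)) (b (l 16749488) (c (l 16747456) (l 16748392))))) (c (b (a (l 16754608) (l 16753152)) (a (l 16751648) (b (l 16750928) (l 16749440)))) (b (a (b (l 16756224) (l 16754816)) (b (l 16754848) (l 16753432))) (a (b (l 16753400) (l 16751992)) (b (l 16752024) (a (l 16750960) (l 16750256)))))))) (a (c (b (a (b (l 16751008) (l 16749448)) (b (l 16749472) (l 16747904))) (a (b (l 16747888) (l 16746336)) (b (a (l 16746736) (l 16745960)) (a (l 16745176) (l 16744416))))) (b (a (b (l 16755424) (l 16753984)) (c (l 16750144) (b (l 16751960) (l 16750552)))) (a (b (l 16752552) (l 16751120)) (b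 (a (l 16748880) (b (l 16748544) (l 16747816))) (a (b (l 16747808) (l 16747072)) (b (l 16747072) (l 16746296))))))) (c (b (a (b (l 16747920) (a (l 16746744) (l 16745968))) (b (a (b (l 16747136) (l 16746360)) (l 16745968)) (l 16744800))) (b (a (a (l 16745192) (l 16744408)) (l 16743240)) (l 16742464))) (b (a (b (c (l 16749432) (l 16750592)) (a (b (l 16749272) (l 16748552)) (b (l 16748552) (l 16747800)))) (b (a (b (l 16749288) (l 16748544)) (b (l 16748528) (l 16747744))) (l 16749592))) (a (b (a (b (l 16747816) (l 16747048)) (l 16746624)) (l 16745464)) (b (l 16745400) (l 16743824))))))), by decide +kernel⟩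

def k74_A00pm_102_s1 : ∃ t, chk3 f_A00pm_102_s1 t 125 69 1 = true :=
  ⟨(a (b (a (c (b (a (b (l 16751056) (a (l 16749880) (l 16749080))) (b (a (l 16749864) (l 14)) (c (l 16747464) (l 16748376)))) (b (a (a (l 16748304) (l 16747520)) (l 16746336)) (c (l 16745120) (l 16746048)))) (b (a (b (c (l 16752424) (l 16753464)) (a (l 16751840) (b (l 16751480) (l 16750760)))) (b (a (b (l 14) (l 16751488)) (l 14)) (a (b (l 16753368) (l 16749992)) (l 16749560)))) (a (b (a (b (l 16750752) (l 16750024)) (b (l 16752632) (l 16749240))) (b (a (l 16749272) (l 16748456)) (l 16748080))) (b (l 16751016) (l 16749440))))) (c (b (b (l 14) (l 16750760)) (c (l 16742752) (l 16743608))) (a (b (b (l 14) (l 16750936)) (b (l 16746736) (l 16745152))) (b (l 14) (b (l 16745056) (l 16743480)))))) (c (b (a (c (l 16742776) (l 16748928)) (c (l 16739624) (l 16740464))) (a (c (l 16739656) (l 16740552)) (l 16742136))) (c (b (a (l 16747344) (l 16741424)) (a (l 16741576) (l 16738264))) (a (b (b (l 16746664) (l 16745088)) (l 16745344)) (b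 (l 16745120) (l 16739336)))))) (a (b (b (l 14) (b (l 14) (c (l 16739160) (l 16740936)))) (b (c (l 16742040) (c (l 16738072) (l 16739072))) (c (l 16733648) (c (l 16734904) (l 16735896))))) (b (l 14) (c (b (l 16733512) (l 16730352)) (b (c (l 16734672) (l 16735592)) (l 16737176)))))), by decide +kernel⟩

def k75_A00pm_102_s1 : ∃ t, chk3 f_A00pm_102_s1 t 124 70 1 = true :=
  ⟨(a (b (a (c (b (a (l 16750048) (l 16748552)) (a (l 16746960) (l 16745464))) (c (b (l 16750656) (l 16747744)) (b (a (l 16752360) (l 16751040)) (a (l 16749576) (l 16748256))))) (c (b (a (l 16747048) (b (l 16746312) (l 16744760))) (a (b (l 16744736) (l 16743184)) (b (a (l 16743592) (l 16742840)) (l 16741680)))) (a (b (b (l 16749832) (l 16748400)) (b (l 16746976) (a (l 16745896) (l 16745192)))) (b (b (l 16748456) (a (l 16747376) (l 16746680))) (b (a (l 16745936) (l 16747824)) (l 16746664)))))) (c (a (b (a (l 16743880) (b (l 16743160) (l 16741624))) (a (b (l 16741568) (l 16740040)) (b (l 16740088) (l 16738536)))) (b (b (a (l 16741656)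 (l 16740120)) (l 16739344)) (l 16737024))) (a (a (b (b (l 16746856) (l 16745440)) (b (l 16744000) (l 16745144))) (b (b (l 16745504) (a (l 16744416) (l 16743696))) (b (l 16742544) (l 16740976)))) (b (b (a (a (l 16744448) (l 16743680)) (l 16742480)) (l 16741720)) (a (l 16745408) (l 16738568)))))) (b (a (c (b (a (b (a (l 16745168) (l 16744400)) (a (l 16743624) (l 16742848))) (b (l 16743248) (l 16741688))) (c (l 16739648) (l 16740648))) (c (b (a (b (l 16746432) (l 16744928)) (l 16744120)) (l 16741792)) (b (a (b (a (l 16748056) (l 16747352)) (a (l 16746616) (l 16745832))) (b (l 16746176) (l 16744600))) (l 16745688)))) (c (b (c (l 16739664) (l 16740616)) (l 16742248)) (c (b (l 16741696) (l 16738560)) (b (l 16745528) (l 16739760))))) (c (b (a (l 16742272) (l 16733896)) (a (l 16733928) (l 16730776))) (b (a (a (l 16745328) (l 16743704)) (c (l 16735416) (l 16736608))) (a (c (l 16735528) (l 16736776)) (l 16738088)))))), by decide +kernel⟩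

def k76_A00pm_102_s1 : ∃ t, chk3 f_A00pm_102_s1 t 124 71 1 = true :=
  ⟨(b (c (a (b (a (l 16736952) (l 16733912)) (a (l 16733832) (l 16730792))) (b (a (l 16730816) (l 16727664)) (l 16731368))) (a (b (a (c (l 16738728) (l 16740104)) (l 16741472)) (a (l 16741472) (l 16733064))) (b (a (l 16738232) (l 16729696)) (a (l 16729840) (l 16726544))))) (c (a (b (l 16734424) (l 16726024)) (b (l 16723000) (l 16719864))) (a (b (a (l 16733040) (l 16729888)) (a (l 16729840) (l 16726696))) (b (a (l 16726664) (l 16723376)) (a (l 16723480) (l 16720200)))))), by decide +kernel⟩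

def k77_A00pm_102_s1 : ∃ t, chk3 f_A00pm_102_s1 t 125 35 1 = true :=
  ⟨(b (b (a (a (b (c (l 16742208) (c (l 16738424) (l 16739560))) (c (l 16733840) (c (l 16735280) (l 16736400)))) (b (c (l 16733752) (c (l 16735104) (l 16736168))) (c (l 16730616) (l 16737696)))) (a (c (b (l 16730496) (l 16727352)) (b (l 16737456) (l 16729040))) (c (b (l 16727192) (l 16724032)) (b (l 16728752) (l 16725568))))) (b (a (c (c (l 16728712) (l 16729520)) (a (l 16737912) (l 16729288))) (c (l 16727784) (c (l 16723680) (l 16724600)))) (a (c (l 16731208) (a (l 16729504) (l 16726120))) (c (l 16719392) (c (l 16720504) (l 16721416)))))) (b (a (c (b (l 16728080) (l 16719712)) (b (a (l 16726352) (l 16722952)) (a (l 16723192) (l 16719784)))) (c (c (l 16714376) (l 16714984)) (c (l 16720984) (b (l 16718224) (l 16715040))))) (b (a (c (l 16716576) (a (l 16720024) (l 16716616))) (c (l 16709936) (l 16711392))) (a (c (l 16713440) (l 16720392)) (c (l 16706800) (l 16708216)))))), by decide +kernel⟩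

def k78_A00pm_102_s1 : ∃ t, chk3 f_A00pm_102_s1 t 63 17 1 = true :=
  ⟨(b (a (b (l 14) (a (a (b (l 14) (b (l 14) (b (l 14) (l 16732112)))) (l 14)) (l 14))) (l 14)) (a (b (a (b (c (c (l 16730792) (l 16726080)) (b (c (l 16723088) (l 16723864)) (c (l 16719888) (l 16720664)))) (c (c (l 16713968) (l 16714472)) (b (c (l 16716696) (l 16717456)) (l 16719104)))) (a (b (c (l 16715392) (c (l 16716144) (l 16716792))) (c (l 16709000) (l 16715264))) (b (l 14) (c (l 16705464) (l 16706320))))) (c (b (a (c (l 16707640) (l 16708104)) (l 16711336)) (a (l 16712000) (l 16694464))) (b (a (c (l 16708704) (l 16714688)) (c (l 16701464) (l 16702032))) (a (c (l 16702320) (l 16703024)) (c (l 16695032) (l 16695584)))))) (b (a (a (b (l 14) (b (l 14) (l 16700552))) (l 14)) (l 14)) (c (a (b (l 16693632) (l 16687200)) (b (l 16686200) (l 16679728))) (a (b (c (l 16694000) (l 16694400)) (c (l 16687528) (l 16687920))) (b (c (l 16686312) (l 16686544)) (c (l 16679808) (l 16680024)))))))), by decide +kernel⟩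

def k79_A00pm_102_s1 : ∃ t, chk3 f_A00pm_102_s1 t 28 36 1 = true :=
  ⟨(b (l 3) (a (l 3) (b (a (l 3) (l 531129487)) (a (l 530790943) (l 530840351))))), by decide +kernel⟩

def k80_A00pm_102_s1 : ∃ t, chk3 f_A00pm_102_s1 t 56 37 1 = true :=
  ⟨(a (b (l 3) (a (b (l 531402895) (b (l 531468431) (l 531476367))) (b (l 531424911) (b (l 531217295) (l 531249551))))) (b (b (a (l 3) (c (b (l 3) (l 531358351)) (l 531296655))) (b (l 531352463) (l 531390863))) (b (b (l 531165583) (a (l 531471503) (l 531492239))) (b (a (l 531514255) (l 531536271)) (a (l 531550607) (l 531308687)))))), by decide +kernel⟩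

def k81_A00pm_102_s1 : ∃ t, chk3 f_A00pm_102_s1 t 57 74 1 = true :=
  ⟨(b (a (b (l 531345807) (c (a (l 531382671) (l 531406479)) (l 531344015))) (b (l 531392911) (c (l 531437967) (l 531389583)))) (a (c (a (b (l 531413647) (l 531450255)) (b (l 531436431) (l 531472015))) (b (a (l 531365263) (l 531388047)) (a (l 531402127) (l 531423887)))) (a (b (l 531435151) (c (l 531493007) (l 531445135))) (b (l 531724687) (c (l 531513487) (l 531465359)))))), by decide +kernel⟩

def k82_A00pm_102_s1 : ∃ t, chk3 f_A00pm_102_s1 t 114 75 1 = true :=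
  ⟨(b (a (b (c (l 531490959) (l 531443855)) (c (l 531534479) (l 531488399))) (b (c (l 531511695) (l 531464591)) (c (l 531554191) (l 531508111)))) (a (b (b (l 531545999) (l 531567503)) (a (l 531863695) (l 531740191))) (b (c (a (l 531593615) (l 531603343)) (l 531821455)) (c (b (l 531630735) (a (l 531649167) (a (b (l 16757584) (a (l 16757160) (b (l 16756952) (a (l 16756736) (l 16756576))))) (b (a (l 16757040) (b (l 16756832) (l 16756576))) (b (a (a (l 16756680) (l 16756536)) (l 16756320)) (l 16756232)))))) (b (l 531586959) (b (a (l 16758504) (a (l 16757424) (a (l 16756872) (b (l 16756656) (a (l 16756456) (l 16756296)))))) (a (l 531611791) (a (a (l 16756992) (b (l 16756784) (a (l 16756560) (l 16756400)))) (a (b (a (l 16756512) (l 16756352)) (l 16756152)) (l 16755952)))))))))), by decide +kernel⟩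

def k83_A00pm_102_s1 : ∃ t, chk3 f_A00pm_102_s1 t 115 150 1 = true :=
  ⟨(b (b (a (l 531498639) (l 531518095)) (b (a (l 531513743) (l 531532943)) (a (l 531524239) (a (l 531539087) (a (l 16758368) (a (l 16757792) (a (l 16757504) (c (l 16757392) (l 16757208))))))))) (a (c (b (l 531562639) (l 531583887)) (l 531795343)) (c (a (b (l 531577487) (a (b (l 16758096) (a (l 16757664) (b (l 16757440) (l 16757128)))) (b (a (l 16757528) (b (l 16757304) (a (l 16757096) (l 16756944)))) (a (b (a (l 16757152) (l 16756992)) (l 16756824)) (b (l 16756776) (l 16756544)))))) (b (a (b (l 16757824) (a (b (l 16757544) (l 16757232)) (b (a (l 16757256) (l 16757096)) (l 16756928)))) (b (a (b (l 16757400) (a (l 16757192) (l 16757048))) (b (l 16757080) (l 16756832))) (a (l 16756768) (l 16756496)))) (a (b (a (b (l 16756976) (l 16756728)) (l 16756576)) (l 16758872)) (l 16755936)))) (b (a (l 531530639) (a (b (l 16757648) (a (l 16757200) (b (l 16756992) (l 16756720)))) (b (a (a (l 16757160) (l 16756984)) (a (l 16756832) (l 16756656)))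 (l 16756360)))) (b (a (a (l 16757928) (a (l 16757352) (b (l 16757120) (l 16756832)))) (a (a (b (l 16756776) (l 16756496)) (l 16756304)) (l 16755808))) (b (a (a (l 16757456) (a (l 16756888) (l 16756560))) (l 16755728)) (a (a (l 16757128) (a (l 16756616) (l 16756280))) (l 16755456)))))))), by decide +kernel⟩

def k84_A00pm_102_s1 : ∃ t, chk3 f_A00pm_102_s1 t 230 151 1 = true :=
  ⟨(b (c (a (a (l 531610511) (b (l 16758776) (a (l 16757728) (b (l 16757672) (b (l 16757208) (l 16756904)))))) (b (a (l 16758040) (b (l 16757608) (a (b (l 16757328) (l 16757016)) (b (a (l 16757048) (l 16756880)) (l 16756720))))) (a (b (a (l 16757304) (b (l 16757080) (a (l 16756872) (l 16756728)))) (a (b (a (l 16756928) (l 16756768)) (l 16756608)) (b (l 16756560) (l 16756320)))) (b (a (b (l 16756760) (l 16756512)) (l 16756360)) (l 16756032))))) (a (a (l 531565455) (b (l 16758616) (a (l 16757560) (b (l 16757504) (b (l 16757040) (l 16756720)))))) (b (a (l 16757872) (b (l 16757432) (a (b (l 16757160) (l 16756840)) (b (l 16756784)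 (l 16756512))))) (b (a (a (l 16757128) (b (l 16756904) (l 16756616))) (a (b (l 16756568) (l 16756280)) (l 16756088))) (a (a (b (l 16756672) (l 16756400)) (l 16756200)) (l 16755696)))))) (a (b (a (b (c (l 16757360) (l 16757192)) (a (b (l 16757000) (c (l 16756784) (l 16756600))) (b (a (l 16756728) (c (l 16756656) (l 16756472))) (c (l 16756488) (l 16756280))))) (b (a (c (b (l 16756960) (a (l 16756760) (l 16756616))) (b (l 16756784) (a (l 16756576) (l 16756424)))) (b (c (l 16756648) (l 16756456)) (l 16756288))) (c (l 16756184) (l 16755912)))) (c (a (b (b (a (l 16756528) (l 16756248)) (l 16756144)) (l 16755792)) (l 16755480)) (a (b (a (b (l 16756336) (l 16756040)) (l 16755856)) (c (l 16755552) (l 16755368))) (l 16755072)))) (c (b (c (l 16755688) (l 16755504)) (l 16754648)) (c (b (l 16755304) (l 16754232)) (b (a (l 16755432) (l 16754736)) (l 16751296)))))), by decide +kernel⟩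

def k85_A00pm_102_s1 : ∃ t, chk3 f_A00pm_102_s1 t 231 151 1 = true :=
  ⟨(b (b (a (a (b (b (a (l 16757112) (a (a (l 16756880) (l 16756808)) (l 16756688))) (a (c (a (l 16756984) (l 16756840)) (l 16756728)) (l 16756512))) (a (c (b (l 16756672) (l 16756432)) (l 16756312)) (c (l 16756280) (l 16755976)))) (c (l 16756104) (b (l 16756032) (l 16755480)))) (c (l 16755280) (l 16754760))) (a (a (b (a (l 16755928) (l 16755624)) (l 16755272)) (a (l 16755072) (l 16754768))) (c (l 16754336) (l 16753648)))) (c (c (l 16755576) (l 16755800)) (c (l 16755472) (l 16755016)))), by decide +kernel⟩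

def k86_A00pm_102_s1 : ∃ t, chk3 f_A00pm_102_s1 t 58 36 1 = true :=
  ⟨(b (a (b (l 3) (b (l 531290767) (l 531499919))) (a (b (b (l 3) (b (l 3) (a (l 3) (l 531657103)))) (l 531026063)) (b (b (b (b (l 3) (l 531932815)) (l 531846031)) (l 531901327)) (b (l 531576719) (l 531534223))))) (a (b (l 531176335) (b (l 531423631) (l 531424655))) (a (b (l 531480463) (l 531725711)) (b (l 531496335) (b (l 531470479) (a (a (l 16761032) (b (l 16760856) (l 16759512))) (a (b (l 16760000) (c (l 16756224) (l 16758640))) (b (c (l 16759240) (l 16759048)) (c (l 16758248) (l 16757960)))))))))), by decide +kernel⟩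

def k87_A00pm_102_s1 : ∃ t, chk3 f_A00pm_102_s1 t 59 72 1 = true :=
  ⟨(a (b (b (a (b (a (l 531961743) (l 531960719)) (l 531575951)) (b (a (l 531960463) (l 532095119)) (l 531845519))) (a (b (l 531742863) (l 531655823)) (l 531165071))) (b (a (l 531565711) (l 531562895)) (l 530943375))) (b (b (b (a (a (l 532230543) (l 531964047)) (a (l 531967119) (l 532239247))) (a (l 531581071) (b (l 531883151) (a (l 531830927) (a (l 16763720) (a (l 16763072) (b (l 16762832) (l 16762472)))))))) (a (l 531440015) (a (b (l 531759759) (a (l 16762824) (b (l 16762312) (a (l 16761784) (l 16761464))))) (b (a (b (l 16762960) (a (l 16762416) (l 16762040))) (b (a (l 16764960) (l 16762064)) (l 16759048))) (a (b (a (l 16761752) (l 16761488)) (l 16761104)) (l 16760920)))))) (a (b (b (l 531597711) (a (l 16762968) (a (l 16761616) (b (l 16761136) (l 16760576))))) (b (a (c (l 16766816) (l 16766656)) (a (b (l 16760616) (l 16760080)) (l 16759808))) (a (a (l 16760544) (l 16759904)) (l 16759088)))) (b (a (b (a (b (l 16761704) (l 16761096))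 (b (l 16761088) (l 16760568))) (l 16760072)) (l 16759632)) (c (l 16758440) (l 16757672)))))), by decide +kernel⟩

def k88_A00pm_102_s1 : ∃ t, chk3 f_A00pm_102_s1 t 59 73 1 = true :=
  ⟨(a (b (a (a (l 531466639) (b (l 16758168) (b (l 16761360) (c (l 16754856) (l 16759904))))) (b (a (b (l 16762288) (l 16760872)) (b (a (l 16760928) (l 16760080)) (c (l 16759520) (l 16759248)))) (a (b (c (l 16754512) (l 16754288)) (a (l 16753664) (l 16758280))) (l 16757880)))) (a (a (a (b (b (l 16760920) (l 16756944)) (c (l 16758184) (b (l 16758360) (l 16757288)))) (b (b (l 16760008) (c (l 16758960) (l 16758736))) (l 16757392))) (b (a (b (a (l 16759368) (l 16759024)) (l 16758200)) (l 16758088)) (l 16756488))) (b (c (l 16756928) (l 16756192)) (c (l 16755136) (l 16754064))))) (b (a (b (c (l 16758464) (l 16757888)) (c (l 16756608) (l 16755672))) (b (c (l 16756520) (l 16755392)) (c (l 16754320) (l 16753048)))) (a (c (b (l 16754728) (l 16752448)) (b (l 16753440) (l 16751192))) (c (l 16750496) (a (l 16750176) (l 16748744)))))),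 by decide +kernel⟩

def k89_A00pm_102_s1 : ∃ t, chk3 f_A00pm_102_s1 t 116 74 1 = true :=
  ⟨(b (a (b (l 531429007) (l 531449231)) (b (l 531449743) (l 531469199))) (a (c (a (b (l 531496079) (l 531529103)) (c (b (l 531517839) (b (l 16759104) (a (b (l 16758544) (a (l 16758112) (l 16757720))) (b (a (l 16757952) (b (l 16757720) (l 16757472))) (a (l 16757408) (l 16757128)))))) (b (l 531494287) (b (l 16759024) (b (a (l 16758464) (a (l 16757864) (l 16757512))) (a (l 16757816) (l 16757176))))))) (a (b (l 531447439) (l 531480463)) (b (l 531457167) (b (l 16758896) (b (a (l 16758328) (a (l 16757728) (l 16757360))) (a (l 16757672) (a (l 16757152) (l 16756808)))))))) (b (c (b (b (a (l 16760360) (a (l 16759160) (l 16758344))) (a (l 16759720) (a (l 16758520) (a (l 16757944) (l 16757648))))) (a (a (l 16759152) (a (l 16758560) (b (l 16758480) (l 16757856)))) (a (a (b (l 16758072) (l 16757552)) (b (l 16757744) (l 16757272))) (b (l 16757320) (l 16756880))))) (a (b (l 16759880) (a (l 16758984) (a (l 16758384) (l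 16755344)))) (b (a (l 16758672) (b (l 16758160) (l 16757600))) (a (b (c (l 16757768) (l 16757664)) (l 16757184)) (l 16756776))))) (a (a (b (c (b (l 16758184) (a (b (l 16757920) (l 16757616)) (l 16757456))) (b (l 16758008) (a (l 16757576) (l 16757248)))) (c (b (a (l 16757264) (l 16756984)) (l 16756672)) (b (l 16756872) (l 16756320)))) (b (b (a (b (l 16757680) (l 16757416)) (a (l 16757312) (l 16757160))) (c (l 16757040) (l 16756736))) (l 16756160))) (c (b (l 16756472) (l 16755568)) (l 16755496)))))), by decide +kernel⟩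

def k90_A00pm_102_s1 : ∃ t, chk3 f_A00pm_102_s1 t 117 74 1 = true :=
  ⟨(b (a (b (b (l 531465615) (a (l 16760632) (a (l 16759392) (b (l 16758880) (a (l 16758448) (l 16758128)))))) (a (b (c (a (l 16759808) (l 16758976)) (l 16759208)) (b (a (l 16758752) (c (a (l 16758240) (l 16757936)) (l 16757896))) (c (a (a (l 16758384) (l 16758032)) (l 16757616)) (a (l 16758016) (l 16757352))))) (b (b (c (a (l 16758512) (l 16757912)) (a (l 16758320) (l 16757656))) (c (a (l 16758008) (l 16757464)) (l 16754864))) (l 16756864)))) (b (b (a (a (b (l 16759384) (l 16756096)) (b (a (l 16758744) (l 16758408)) (l 16758080))) (l 16757432)) (a (c (l 16757840) (a (l 16755216) (l 16757152))) (l 16756480))) (c (a (l 16756480) (l 16755416)) (b (l 16755784) (l 16754712))))) (a (b (b (a (a (b (c (l 16757720) (l 16757480)) (l 16757088)) (l 16756760)) (l 16755896)) (a (c (l 16756320) (l 16753192)) (l 16754912))) (c (a (l 16754960) (l 16753664)) (a (l 16754192) (l 16752872)))) (b (c (l 16756528) (l 16755696)) (c (l 16751144) (l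 16750840))))), by decide +kernel⟩

def k91_A00pm_102_s1 : ∃ t, chk3 f_A00pm_102_s1 t 116 75 1 = true :=
  ⟨(b (a (b (c (c (a (a (b (l 16758520) (b (a (l 16757776) (b (l 16757544) (l 16757272))) (a (b (l 16757320) (l 16757080)) (l 16756920)))) (b (b (l 16758064) (a (l 16757624) (b (l 16757416) (l 16757184)))) (b (a (l 16757120) (l 16756848)) (l 16756536)))) (a (b (b (a (b (l 16757632) (l 16757368)) (l 16757216)) (l 16756896)) (l 16756248)) (l 16756176))) (a (a (b (l 16758440) (b (a (l 16757688) (b (l 16757456) (l 16757176))) (a (b (l 16757232) (l 16756984)) (l 16756808)))) (b (b (l 16757976) (a (l 16757536) (l 16757216))) (b (l 16756880) (l 16756384)))) (b (a (b (a (l 16757416) (l 16757112)) (l 16756768)) (l 16756440)) (l 16755776)))) (c (b (a (b (l 16758280) (a (l 16758040) (a (l 16757440) (l 16757112)))) (a (b (a (l 16757320) (l 16757000)) (l 16756624)) (l 16756264))) (b (a (a (a (l 16757600) (l 16757224)) (l 16756752)) (l 16755800)) (a (a (a (l 16757016) (l 16756680)) (l 16756216)) (l 16755280))))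 (b (a (a (l 16758264) (b (l 16757800) (a (l 16757344) (l 16757000)))) (a (b (a (l 16757216) (l 16756880)) (l 16756472)) (l 16756064))) (a (a (b (a (l 16757512) (l 16757120)) (a (l 16756904) (l 16756552))) (b (l 16756624) (l 16756032))) (l 16755280))))) (c (a (b (a (l 16756320) (l 16755776)) (l 16755120)) (l 16757112)) (b (a (a (b (l 16756240) (l 16755696)) (l 16755312)) (l 16754320)) (a (l 16754544) (l 16753208))))) (c (b (a (b (l 16755728) (l 16754800)) (l 16754176)) (c (l 16752112) (l 16752408))) (a (b (a (l 16754968) (l 16754312)) (l 16752424)) (b (l 16753312) (l 16751072))))) (b (a (c (c (l 16752568) (l 16752832)) (c (l 16752448) (l 16754552))) (c (l 16749488) (l 16749464))) (a (c (l 16749928) (l 16752528)) (a (l 16748016) (l 16746488))))), by decide +kernel⟩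

def k92_A00pm_102_s1 : ∃ t, chk3 f_A00pm_102_s1 t 117 75 1 = true :=
  ⟨(a (c (b (b (l 16756960) (l 16748968)) (l 16750136)) (b (b (l 16753928) (l 16749024)) (c (l 16745816) (l 16744936)))) (b (c (l 16752296) (c (l 16747896) (l 16746864))) (c (l 16741696) (l 16742624)))), by decide +kernel⟩

def k93_A00pm_102_s1 : ∃ t, chk3 f_A00pm_102_s1 t 59 37 1 = true :=
  ⟨(b (c (a (a (b (b (l 16755584) (l 16753384)) (b (l 16750640) (l 16747928))) (b (b (l 16752920) (l 16750200)) (l 16751432))) (a (b (l 16751096) (l 16743240)) (b (l 16745424) (l 16740408)))) (a (b (a (b (l 16754704) (l 16752528)) (b (l 16751872) (l 16749616))) (b (a (l 16750280) (l 16747304)) (a (l 16747984) (l 16744944)))) (b (a (c (l 16748288) (l 16747112)) (a (l 16745368) (l 16743784))) (a (c (l 16743704) (l 16742168)) (a (l 16740456) (l 16738760)))))) (a (c (b (a (l 16743920) (l 16740944)) (l 16742440)) (b (c (l 16748864) (c (l 16747784) (l 16747024))) (c (l 16738768) (l 16737064)))) (b (c (l 16747232) (c (l 16737328) (l 16740512)))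 (c (l 16731776) (c (l 16732392) (l 16729976)))))), by decide +kernel⟩

def k94_A00pm_102_s1 : ∃ t, chk3 f_A00pm_102_s1 t 112 76 1 = true :=
  ⟨(b (a (b (l 531510671) (l 531567759)) (b (l 531553423) (l 531598223))) (a (b (l 531624335) (c (l 531700367) (l 531667855))) (b (c (l 531672975) (l 531630479)) (c (l 531726735) (l 531695247))))), by decide +kernel⟩

def k95_A00pm_102_s1 : ∃ t, chk3 f_A00pm_102_s1 t 113 152 1 = true :=
  ⟨(b (a (l 531590031) (c (l 531372687) (l 531598223))) (a (c (l 531655823) (l 531344527)) (c (l 531689103) (b (l 531634575) (l 531660687))))), by decide +kernel⟩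

def k96_A00pm_102_s1 : ∃ t, chk3 f_A00pm_102_s1 t 226 153 1 = true :=
  ⟨(b (c (l 531707535) (l 531733647)) (a (b (l 531724431) (b (l 531749007) (a (l 16756832) (a (l 16756336) (b (l 16756168) (c (l 16755760) (a (l 16755928) (l 16755784)))))))) (c (b (a (l 16757080) (b (l 16756744) (a (l 16756256) (b (l 16756080) (l 16755736))))) (a (b (a (l 16756256) (b (l 16756088) (l 16755752))) (a (l 16755576) (l 16755232))) (b (a (l 16755568) (l 16755216)) (l 16754704)))) (b (a (l 16756952) (b (l 16756600) (a (b (l 16756328) (l 16756024)) (b (l 16755992) (l 16755720))))) (a (b (a (l 16756240) (b (l 16756064) (a (l 16755864) (l 16755712)))) (a (b (a (l 16755896) (l 16755744)) (l 16755528)) (l 16755344))) (b (a (b (l 16755760) (l 16755456)) (l 16755272)) (l 16754856))))))), by decide +kernel⟩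

def k97_A00pm_102_s1 : ∃ t, chk3 f_A00pm_102_s1 t 227 153 1 = true :=
  ⟨(b (a (b (l 531701647) (b (b (l 531719311) (a (l 16757056) (a (l 16756560) (c (l 16756304) (l 16756136))))) (a (c (l 16756680) (l 16756520)) (c (a (b (l 16756336) (l 16756040)) (l 16755856)) (a (b (l 16756176) (c (l 16755952) (l 16755848))) (b (l 16755864) (l 16755568))))))) (b (b (a (l 16757056) (b (a (l 16756704) (a (l 16756448) (l 16756280))) (a (l 16756400) (c (l 16756176) (l 16756000))))) (b (a (l 16756616) (a (c (l 16756208) (c (l 16756080) (a (l 16756056) (l 16755904)))) (l 16755816))) (a (a (l 16756488) (c (l 16756240) (l 16756064))) (c (l 16755808) (l 16755576))))) (a (b (b (a (c (l 16756272) (l 16756104)) (c (l 16755984) (l 16755792))) (c (l 16755832) (a (l 16755832) (l 16755488)))) (c (l 16755320) (l 16755224))) (c (l 16754944) (b (l 16755144) (l 16754560)))))) (b (c (a (a (b (a (b (l 16756400) (l 16756072)) (b (l 16756056) (l 16755712))) (l 16755376)) (l 16755000)) (l 16753920)) (a (a (b (a (b (l 16756256) (c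 (l 16756008) (l 16755912))) (b (c (l 16755976) (l 16755880)) (l 16755640))) (a (l 16755536) (l 16755200))) (b (l 16755296) (l 16754712))) (c (l 16754136) (l 16753880)))) (c (c (l 16755824) (l 16755960)) (c (l 16756120) (l 16755968))))), by decide +kernel⟩

def k98_A00pm_102_s1 : ∃ t, chk3 f_A00pm_102_s1 t 224 154 1 = true :=
  ⟨(b (b (l 531701903) (l 531688591)) (c (c (a (l 531639183) (b (l 531660943) (a (a (l 16755720) (b (l 16755744) (b (l 16755240) (l 16754888)))) (b (a (l 16755432) (b (l 16755280) (l 16754928))) (a (l 16754736) (l 16754408)))))) (a (l 531652239) (b (l 16756656) (a (b (l 16755960) (a (l 16755432) (b (l 16755288) (l 16754944)))) (b (a (l 16755480) (b (l 16755336) (l 16754984))) (a (l 16754792) (l 16754472))))))) (b (l 531692687) (a (l 16756656) (b (a (l 16756056) (a (c (l 16755544) (l 16755624)) (b (l 16755440) (a (l 16755176) (l 16755016))))) (a (a (l 16755528) (b (l 16755384) (a (l 16755120) (l 16754960)))) (a (b (a (l 16755152) (l 16754992)) (l 16754736)) (l 16754592)))))))),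 by decide +kernel⟩

def k99_A00pm_102_s1 : ∃ t, chk3 f_A00pm_102_s1 t 225 154 1 = true :=
  ⟨(b (b (b (l 531731343) (a (l 531719567) (a (l 16756800) (a (l 16756312) (c (l 16755920) (l 16756072)))))) (a (l 531709583) (b (b (a (l 16756296) (a (l 16755816) (c (l 16755400) (l 16755560)))) (a (l 16755968) (a (a (l 16755552) (l 16755384)) (l 16755144)))) (b (a (a (l 16755784) (a (l 16755544) (l 16755376))) (l 16754968)) (a (a (a (l 16755536) (l 16755368)) (l 16755120)) (l 16754624)))))) (a (b (b (a (l 16756072) (a (b (l 16755760) (a (l 16755504) (l 16755336))) (b (a (l 16755520) (l 16755352)) (l 16755088)))) (b (a (a (l 16755720) (a (l 16755480) (l 16755320))) (a (l 16755072) (l 16754752))) (a (a (l 16755384) (c (l 16754992) (l 16755136))) (l 16754576)))) (a (a (b (b (c (l 16754976) (c (l 16755080) (a (l 16755240) (l 16755080)))) (l 16754704)) (l 16754192)) (b (l 16754552) (l 16753872))) (b (l 16754064) (l 16753384)))) (c (b (a (b (a (b (l 16755032) (l 16754688)) (l 16754528)) (l 16754000)) (b (l 16754016)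 (l 16753328))) (a (l 16750336) (l 16752288))) (b (a (b (l 16754872) (l 16754208)) (l 16753912)) (l 16752904))))), by decide +kernel⟩

def k100_A00pm_102_s1 : ∃ t, chk3 f_A00pm_102_s1 t 113 154 1 = true :=
  ⟨(c (a (a (b (b (a (b (a (l 16756256) (l 16755928)) (a (b (l 16755752) (l 16755408)) (l 16755240))) (b (a (b (l 16755760) (l 16755408)) (l 16755240)) (l 16754720))) (a (l 16754376) (l 16753680))) (l 16751960)) (b (c (l 16755896) (l 16756016)) (l 16750576))) (b (c (l 16751120) (l 16751296)) (l 16748472))) (a (b (a (b (a (b (a (l 16756392) (b (l 16756216) (l 16755920))) (a (b (l 16755912) (l 16755568)) (b (l 16755576) (l 16755256)))) (b (a (b (a (l 16755968) (l 16755816)) (l 16755584)) (l 16755424)) (l 16754928))) (c (l 16754200) (a (l 16754656) (l 16754000)))) (c (l 16756160) (c (l 16756264) (l 16756120)))) (c (l 16754160) (l 16754392))) (b (c (l 16754136) (l 16754112)) (l 16749048)))), by decide +kernel⟩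

def k101_A00pm_102_s1 : ∃ t, chk3 f_A00pm_102_s1 t 56 155 1 = true :=
  ⟨(a (c (b (a (a (b (a (b (l 16755824) (a (l 16755296) (b (l 16755152) (l 16754808)))) (b (a (l 16755352) (b (l 16755208) (l 16754864))) (a (b (l 16754840) (l 16754488)) (l 16754344)))) (a (b (a (b (l 16754784) (l 16754432)) (b (l 16754464) (l 16754112))) (l 16753752)) (b (l 16753808) (l 16753112)))) (a (b (b (a (b (l 16754888) (l 16754544)) (l 16754392)) (l 16753864)) (l 16752816)) (b (b (l 16753904) (l 16753208)) (l 16752168)))) (a (b (c (l 16752528) (l 16752624)) (l 16751192)) (b (l 16751240) (l 16749864)))) (a (b (a (b (l 16752736) (l 16752056)) (b (l 16751456) (l 16750776))) (a (l 16751088) (l 16749816))) (a (l 16749168) (l 16747856)))) (b (a (b (a (a (b (l 16755936) (a (l 16755408) (b (l 16755264) (a (l 16755000) (l 16754840))))) (b (a (l 16755472) (b (l 16755328) (a (l 16755064) (l 16754904)))) (a (b (l 16754952) (l 16754608)) (b (l 16754640) (l 16754312))))) (a (b (a (b (a (l 16755096) (l 16754936)) (l 16754680))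 (b (l 16754704) (l 16754376))) (c (l 16753976) (l 16754080))) (l 16753752))) (a (a (b (a (b (l 16754888) (a (l 16754616) (l 16754472))) (b (l 16754576) (l 16754248))) (l 16753896)) (b (l 16753960) (l 16753296))) (l 16752728))) (c (b (l 16752120) (l 16750784)) (l 16754280))) (b (a (a (b (a (l 16753224) (l 16752632)) (l 16752280)) (l 16751408)) (l 16749584)) (a (l 16750736) (l 16748328))))) (b (a (c (l 16748520) (l 16749040)) (l 16751320)) (c (l 16749720) (a (l 16746472) (l 16743928))))), by decide +kernel⟩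

def k102_A00pm_102_s1 : ∃ t, chk3 f_A00pm_102_s1 t 228 152 1 = true :=
  ⟨(b (c (b (l 531655055) (a (l 531673231) (b (l 16757640) (a (l 16757384) (a (l 16756864) (b (l 16756664) (l 16756392))))))) (a (l 531619215) (a (l 531628687) (b (l 16758040) (b (l 16757128) (a (l 16756704) (b (l 16756496) (a (l 16756288) (l 16756136))))))))) (a (b (a (l 531675279) (b (l 16757400) (c (l 16756872) (a (l 16756896) (b (l 16756696) (l 16756392)))))) (b (b (a (l 16757040) (a (l 16756528) (c (l 16756288) (a (l 16756184) (l 16756032))))) (a (l 16756744) (a (a (l 16756312) (a (l 16756200) (l 16756128))) (l 16755936)))) (a (c (a (l 16756536) (b (l 16756360) (l 16756112))) (a (b (l 16756536) (c (l 16756272) (l 16756176))) (b (a (l 16756272) (b (l 16756176) (l 16756040))) (l 16755920)))) (c (l 16755816) (a (l 16755728) (l 16755392)))))) (b (c (a (b (a (l 16756960) (b (l 16756768) (l 16756472))) (a (b (l 16756512) (l 16756256)) (l 16756104))) (b (a (b (l 16756432) (l 16756184)) (l 16756024)) (l 16755680))) (a (b (a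 (l 16756800) (b (l 16756600) (a (l 16756384) (l 16756216)))) (a (a (b (l 16756440) (l 16756144)) (b (l 16756264) (l 16755984))) (a (b (l 16756104) (l 16755816)) (l 16755792)))) (b (a (b (a (l 16756336) (l 16756176)) (a (l 16756056) (l 16755888))) (b (l 16755920) (l 16755640))) (l 16755376)))) (a (c (b (l 16755744) (l 16755176)) (b (l 16755472) (l 16754896))) (c (l 16754784) (l 16754520)))))), by decide +kernel⟩

def k103_A00pm_102_s1 : ∃ t, chk3 f_A00pm_102_s1 t 229 152 1 = true :=
  ⟨(b (a (b (a (l 531649935) (b (a (l 16757184) (c (l 16756904) (l 16756736))) (b (a (l 16756736) (c (a (l 16756552) (l 16756408)) (a (l 16756384) (l 16756224)))) (a (c (a (l 16756600) (l 16756448)) (a (l 16756424) (l 16756272))) (l 16756128))))) (a (b (a (b (l 16756840) (c (l 16756616) (l 16756440))) (a (b (l 16756568) (c (l 16756384) (l 16756200))) (c (l 16756376) (b (l 16756312) (l 16756032))))) (c (a (l 16756240) (l 16755952)) (a (b (a (l 16756248) (l 16756080)) (l 16755880)) (l 16755688)))) (a (b (c (l 16756160)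 (b (l 16756072) (l 16755784))) (l 16755528)) (c (l 16755640) (l 16755312))))) (b (a (a (b (b (c (l 16756704) (l 16756528)) (a (c (l 16756512) (l 16756336)) (l 16756272))) (c (l 16756080) (l 16755824))) (b (b (c (l 16756408) (l 16756208)) (l 16756048)) (l 16755656))) (c (l 16755632) (b (c (l 16755640) (l 16755472)) (l 16752376)))) (c (l 16757568) (a (l 16754816) (l 16754144))))) (a (b (a (c (l 16755368) (a (l 16755168) (l 16754832))) (c (l 16754680) (l 16754336))) (c (l 16753664) (l 16753520))) (c (l 16755488) (c (l 16752952) (l 16752552))))), by decide +kernel⟩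

def k104_A00pm_102_s1 : ∃ t, chk3 f_A00pm_102_s1 t 114 153 1 = true :=
  ⟨(c (a (b (c (a (b (a (b (l 16755896) (l 16755200)) (l 16754808)) (l 16753784)) (l 16752992)) (b (a (a (b (l 16755840) (l 16755304)) (l 16754928)) (l 16753840)) (l 16753200))) (c (l 16750960) (l 16751160))) (b (c (l 16750744) (l 16750968)) (l 16748112))) (a (b (b (a (a (b (a (b (l 16755960) (l 16755664)) (l 16755472)) (l 16755064)) (b (l 16754984) (l 16754400))) (l 16756320)) (c (l 16755984) (l 16755648))) (c (l 16754024) (l 16753808))) (b (c (l 16751240) (l 16753456)) (l 16748728)))), by decide +kernel⟩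

def k105_A00pm_102_s1 : ∃ t, chk3 f_A00pm_102_s1 t 115 76 1 = true :=
  ⟨(c (b (a (b (a (b (l 16754800) (l 16753432)) (l 16752608)) (l 16755840)) (c (l 16754008) (l 16754336))) (a (l 16751736) (l 16743480))) (b (a (b (a (b (a (l 16754616) (l 16753952)) (l 16753144)) (l 16754992)) (c (l 16751016) (l 16750440))) (b (c (l 16750648) (l 16750008)) (l 16747992))) (a (c (l 16747112) (l 16751984)) (l 16749640)))), by decide +kernel⟩

def k106_A00pm_102_s1 : ∃ t, chk3 f_A00pm_102_s1 t 57 77 1 = true :=
  ⟨(b (a (c (a (l 16752208) (l 16744040)) (a (c (l 16752712) (l 16752672)) (l 16750216))) (c (l 16739600) (c (l 16740544) (l 16740224)))) (b (a (c (l 16741464) (l 16742504)) (c (l 16735616) (l 16737160))) (c (a (l 16738856) (l 16733048)) (a (l 16740008) (l 16734608))))), by decide +kernel⟩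

def k107_A00pm_102_s1 : ∃ t, chk3 f_A00pm_102_s1 t 28 39 1 = true :=
  ⟨(a (b (c (b (a (b (a (l 16748520) (l 16745960)) (l 16744680)) (l 16740736)) (a (l 16740840) (l 16735752))) (b (a (a (b (l 16748848) (l 16746304)) (l 16750432)) (l 16746728)) (a (l 16741280) (l 16736400)))) (b (a (c (l 16735720) (l 16736088)) (l 16731016)) (a (l 16730696) (l 16725928)))) (b (b (a (c (l 16735224) (l 16736192)) (c (l 16734784) (l 16730616))) (c (a (l 16730408) (l 16724856)) (a (l 16730952) (l 16725448)))) (b (a (l 16725920) (l 16710144)) (a (l 16710448) (b (l 16716992) (c (l 16714208) (l 16714488))))))), by decide +kernel⟩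

def k108_A00pm_102_s1 : ∃ t, chk3 f_A00pm_102_s1 t 29 19 1 = true :=
  ⟨(b (a (b (b (a (b (c (l 16750856) (b (l 16752016) (l 16750832))) (c (l 16742912) (l 16749032))) (c (l 16748464) (c (l 16739288) (l 16738392)))) (a (c (l 16738904) (c (l 16740008) (l 16739376))) (c (l 16732760) (l 16734224)))) (b (a (a (l 16725432) (l 16722568)) (a (l 16719696) (l 16716896))) (c (a (b (l 16729696) (a (l 16728656) (l 16725712))) (b (l 16723760) (a (l 16722760) (l 16719872)))) (a (l 16730056) (l 16723984))))) (b (a (b (c (l 16732072) (l 16743448)) (c (l 16727016) (l 16727840))) (b (a (l 16729616) (c (l 16725504) (l 16724464))) (a (c (l 16723056) (l 16722840)) (c (l 16719904) (l 16720808))))) (a (c (a (b (l 16723328) (b (l 16719560) (a (l 16717808) (a (l 16716712) (l 16715840))))) (b (a (l 16721368) (l 16719944)) (b (l 16716448) (l 16713352)))) (b (l 16733320) (b (l 16719496) (l 16728280)))) (c (b (c (l 16719960) (l 16716272)) (c (a (l 16731264) (l 16706408)) (l 16709784))) (b (l 16718944) (l 16712416))))))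 (b (a (b (c (a (l 16729000) (a (l 16719424) (a (l 16717256) (l 16720912)))) (a (l 16724872) (a (l 16720392) (l 16717720)))) (a (l 16719984) (a (a (l 16716504) (l 16714864)) (l 16711936)))) (b (a (c (b (l 16717632) (l 16709464)) (l 16713600)) (l 16704200)) (a (l 16705760) (c (l 16697160) (l 16677616))))) (a (a (a (b (l 16716592) (b (l 16712744) (l 16709736))) (b (b (l 16714960) (l 16712152)) (l 16707312))) (a (b (l 16709680) (l 16703096)) (b (l 16705448) (l 16677872)))) (b (a (b (l 16700880) (l 16697592)) (c (l 16691128) (l 16691560))) (a (c (l 16692760) (l 16703024)) (b (l 16686344) (l 16683016))))))), by decide +kernel⟩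

def k109_A00pm_102_s1 : ∃ t, chk3 f_A00pm_102_s1 t 60 36 1 = true :=
  ⟨(b (b (a (a (b (a (b (a (b (l 532003983) (a (l 16763736) (b (l 16763504) (l 16763120)))) (b (a (b (l 16763848) (l 16763464)) (b (a (l 16763536) (b (l 16763416) (c (l 16763280) (l 16763240)))) (a (b (l 16763248) (l 16763104)) (l 16763056)))) (a (b (a (l 16763184) (b (l 16763088) (l 16762944))) (a (l 16762864) (l 16762752))) (b (l 16762856) (l 16762616))))) (a (b (b (a (l 16763168) (a (l 16762848) (l 16762712))) (a (l 16762792) (l 16762512))) (a (b (l 16762480) (l 16762208)) (l 16762136))) (b (l 16762336) (l 16761840)))) (b (a (b (a (b (a (b (l 16763280) (l 16763152)) (l 16763120)) (l 16762920)) (l 16762864)) (l 16762456)) (b (l 16762584) (l 16762064))) (l 16764120))) (a (b (l 16761288) (l 16760264)) (l 16765112))) (a (b (b (c (l 16760592) (l 16760976)) (l 16759592)) (l 16757848)) (b (b (l 16758632) (l 16757496)) (l 16755816)))) (a (b (c (a (l 16755528) (l 16753264)) (l 16755336)) (c (l 16741664) (l 16753376))) (c (b (l 16749824)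 (l 16747744)) (l 16745048)))) (a (a (b (c (l 16758136) (l 16757744)) (l 16750792)) (b (l 16754592) (l 16747152))) (a (c (l 16748848) (l 16745272)) (c (b (l 16745704) (l 16733208)) (l 16741576))))) (c (a (b (a (l 16751984) (l 16748304)) (a (l 16747168) (l 16743784))) (b (a (l 16744560) (l 16740720)) (a (l 16740336) (l 16736760)))) (a (b (a (b (l 16752904) (l 16750408)) (b (l 16750392) (l 16747736))) (a (b (l 16747864) (l 16745304)) (c (l 16744536) (l 16742816)))) (b (a (c (l 16746200) (l 16745640)) (c (l 16742712) (l 16742880))) (a (c (l 16741792) (l 16739760)) (b (l 16739400) (l 16726008))))))), by decide +kernel⟩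

def k110_A00pm_102_s1 : ∃ t, chk3 f_A00pm_102_s1 t 61 36 1 = true :=
  ⟨(a (b (a (b (c (a (l 16745336) (l 16743000)) (b (l 16736448) (l 16745352))) (c (b (l 16741352) (l 16739504)) (b (l 16743792) (l 16742272)))) (a (b (c (l 16740616) (c (l 16742304) (l 16733128))) (c (l 16742352) (b (l 16740808) (l 16739336)))) (b (b (l 16745392) (c (l 16737328) (l 16745312))) (c (l 16739952) (c (l 16742160) (l 16736000)))))) (b (b (a (a (l 16740088) (l 16732896)) (c (l 16733112) (l 16736344))) (a (c (l 16735768) (l 16728600)) (l 16732624))) (a (a (b (l 16726064) (l 16734464)) (l 16733184)) (c (l 16727848) (l 16731232))))) (b (b (a (a (c (b (l 16736456) (l 16734808)) (b (l 16744328) (l 16742888))) (b (b (l 16740688) (l 16734632)) (l 16743864))) (b (c (l 16729528) (l 16737288)) (b (l 16739968) (l 16739128)))) (a (c (l 16730744) (b (l 16739824) (c (l 16731976) (l 16733656)))) (b (l 16737832) (l 16736032)))) (c (b (a (l 16726872) (l 16721360)) (l 16730488)) (a (b (l 16729960) (l 16725896)) (b (l 16734728) (l 16720248)))))),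 by decide +kernel⟩

def k111_A00pm_102_s1 : ∃ t, chk3 f_A00pm_102_s1 t 30 37 1 = true :=
  ⟨(a (b (a (b (c (a (l 16742400) (l 16739304)) (a (a (l 16742200) (l 16740616)) (a (l 16739032) (l 16737440)))) (c (l 16746648) (a (l 16741456) (l 16732744)))) (b (a (c (l 16736128) (a (l 16735856) (l 16734256))) (c (l 16732504) (b (l 16723352) (l 16731496)))) (a (b (a (l 16734128) (l 16732920)) (l 16720880)) (l 16729384)))) (a (b (a (c (l 16732832) (l 16730960)) (c (l 16730016) (b (l 16728776) (l 16726560)))) (a (a (l 16708384) (l 16707048)) (l 16705440))) (b (a (l 16707296) (l 16724040)) (l 16720384)))) (b (a (b (c (l 16725712) (l 16729248)) (c (l 16720824) (l 16724384))) (b (c (l 16726064) (l 16713512)) (c (l 16710856) (l 16714080)))) (a (b (l 16717312) (l 16711808)) (c (b (l 16705848) (l 16700560)) (a (l 16709112) (l 16682800)))))), by decide +kernel⟩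

def k112_A00pm_102_s1 : ∃ t, chk3 f_A00pm_102_s1 t 31 18 1 = true :=
  ⟨(a (a (b (b (b (b (a (c (l 16723640) (l 16731152)) (c (l 16717488) (l 16719496))) (a (c (l 16721968) (l 16724336)) (c (l 16715832) (l 16717944)))) (a (c (l 16719336) (l 16732320)) (a (l 16726336) (l 16723144)))) (b (a (l 16727288) (l 16721096)) (a (l 16723296) (l 16706664)))) (b (b (b (l 16717080) (l 16714880)) (b (l 16723088) (l 16720744))) (b (l 16706600) (l 16711952)))) (a (b (b (b (b (c (l 16711080) (l 16712816)) (c (l 16709432) (l 16711272))) (c (l 16706832) (l 16708816))) (b (l 16714608) (l 16700216))) (b (a (l 16716432) (l 16713168)) (l 16705320))) (b (b (b (c (l 16708840) (b (l 16705872) (l 16704320))) (c (l 16700184) (l 16701880))) (b (l 16707832) (l 16693472))) (b (b (l 16689328) (l 16684904)) (l 16698744))))) (a (b (b (c (b (a (l 16707200) (l 16689600)) (a (l 16693256) (l 16686104))) (b (a (b (l 16698688) (l 16697120)) (b (l 16691288) (l 16689688))) (a (l 16694656) (l 16687192)))) (a (b (l 16700768) (l 16686432))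 (b (l 16682936) (l 16679088)))) (b (b (a (l 16682312) (l 16674992)) (l 16695280)) (a (l 16691840) (l 16663632)))) (b (a (b (b (c (l 16682280) (b (l 16683672) (l 16682032))) (c (l 16678704) (l 16679472))) (c (l 16673000) (l 16684496))) (b (c (b (l 16674744) (l 16671096)) (b (l 16685472) (l 16671528))) (c (l 16665304) (l 16676472)))) (b (b (c (l 16662968) (l 16664016)) (l 16680056)) (c (l 16651608) (l 16673848)))))), by decide +kernel⟩

def k113_A00pm_102_s1 : ∃ t, chk3 f_A00pm_102_s1 t 15 19 1 = true :=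
  ⟨(a (b (a (a (b (a (c (l 16729664) (l 16710768)) (l 16717128)) (c (b (l 16686800) (l 16722240)) (l 16707888))) (b (c (l 16709600) (l 16713168)) (b (l 16701544) (a (l 16696872) (l 16692904))))) (b (a (a (l 16705080) (l 16700752)) (c (l 16713064) (l 16695224))) (b (a (l 16693432) (l 16684352)) (a (b (l 16688440) (l 16685152)) (l 16698816))))) (b (b (a (a (l 16696392) (l 16688576)) (a (l 16680544) (l 16671848))) (a (a (c (l 16689504) (l 16690720)) (l 16682288)) (a (l 16674344) (l 16665808)))) (a (b (a (l 16694056) (l 16675888)) (a (b (l 16678648) (l 16675328)) (b (l 16671008) (l 16667712)))) (a (b (l 16668024) (b (l 16663200) (l 16659944))) (b (l 16659568) (b (l 16654816) (l 16651608))))))) (b (a (b (a (c (l 16681456) (l 16705224)) (b (l 16673296) (l 16667752))) (a (b (l 16673848) (l 16667624)) (b (l 16661936) (l 16655920)))) (b (a (b (l 16659664) (l 16654264)) (c (l 16641480) (l 16642808))) (a (b (l 16648600) (l 16642760)) (b (l 16633824) (l 16628136))))) (a (b (a (b (l 16661928) (l 16656144))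 (b (l 16650552) (l 16645200))) (a (b (l 16650208) (b (l 16645576) (l 16642440))) (b (l 16639592) (b (l 16635216) (l 16632176))))) (b (a (b (l 16637712) (l 16632720)) (b (l 16623392) (l 16618760))) (a (b (l 16627488) (c (l 16623240) (l 16620832))) (b (l 16613896) (c (l 16610248) (l 16607400)))))))), by decide +kernel⟩

def k114_A00pm_102_s1 : ∃ t, chk3 f_A00pm_102_s1 t 24 80 1 = true :=
  ⟨(b (a (l 3) (a (l 3) (b (l 3) (a (b (l 3) (b (a (l 3) (l 531647263)) (c (l 531603343) (l 531667087)))) (b (b (a (l 3) (l 531667087)) (l 531661087)) (b (l 531659407) (l 531657871))))))) (b (a (l 3) (a (a (b (l 3) (a (l 3) (b (c (l 531555615) (l 531639439)) (l 531467919)))) (b (b (a (l 3) (a (l 3) (l 531628687))) (c (l 531575439) (l 531651471))) (b (l 531483535) (l 531615887)))) (b (c (l 531607951) (l 531672975)) (l 531643423)))) (a (a (l 3) (a (b (l 3) (b (l 3) (l 531549583))) (b (b (l 3) (c (b (l 531449887) (l 531515535)) (l 531617167))) (b (l 531571855) (l 531570319))))) (a (b (a (b (a (c (l 531537295) (l 531629967))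 (l 531600015)) (a (c (b (l 531534735) (l 531533199)) (l 531629455)) (l 531598223))) (b (l 531614095) (l 531612559))) (a (b (a (l 531452815) (l 531596687)) (l 531590543)) (l 531342111))) (b (l 531640975) (l 531639183)))))), by decide +kernel⟩

def k115_A00pm_102_s1 : ∃ t, chk3 f_A00pm_102_s1 t 25 80 1 = true :=
  ⟨(a (b (a (b (a (b (a (l 3) (b (l 3) (c (l 531665551) (l 531697551)))) (b (c (l 531657871) (l 531694479)) (l 531679887))) (b (b (c (l 531680399) (l 531705487)) (l 531696783)) (l 531694991))) (b (a (l 531677471) (l 531692687)) (l 531682447))) (c (c (b (a (a (b (b (a (l 531778335) (l 531671183)) (l 531672719)) (l 531669903)) (b (b (l 531658127) (l 531658383)) (l 531658383))) (b (l 531631759) (l 531634319))) (a (b (l 531661199) (l 531658127)) (l 531636367))) (b (a (b (a (b (a (l 531698319) (l 531690383)) (l 531694735)) (b (l 531675535) (l 531677583))) (a (l 531694479) (l 531680143))) (b (l 531647119) (l 531652239))) (a (l 531955999) (l 531658895)))) (c (b (a (b (a (b (a (l 531709071) (l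 531699855)) (l 531706511)) (b (l 531683471) (l 531686799))) (a (l 531708815) (l 531691407))) (b (l 531652751) (l 531659919))) (a (l 531973519) (l 531670159))) (b (a (b (a (b (a (l 531710351) (l 531699855)) (l 531708303)) (b (l 531681679) (l 531686031))) (a (l 531712655) (l 531692687))) (b (l 531648655) (l 531657615))) (a (l 531979663) (l 531670671)))))) (a (b (l 531410831) (l 531676559)) (b (c (a (l 531672719) (l 531653775)) (a (l 531717775) (l 531686543))) (c (l 531663759) (l 530905487))))) (b (c (a (b (c (b (l 531580303) (l 531585167)) (b (l 531590543) (l 531597199))) (c (l 531591055) (l 531606159))) (b (a (l 531541903) (l 16768016)) (a (l 16764648) (l 16762696)))) (b (a (c (b (l 531591311) (l 531599247)) (b (l 531582863) (l 531591055))) (c (l 531523471) (l 531509135))) (a (c (l 531610511) (l 531604111)) (l 531532687)))) (c (a (b (a (l 16768344) (l 16763872)) (l 531618191)) (b (l 16763608) (l 16758304))) (b (a (b (l 531620751) (l 531628943)) (l 531548559)) (a (l 531640719) (a (l 16759312) (l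 16757304))))))), by decide +kernel⟩

def k116_A00pm_102_s1 : ∃ t, chk3 f_A00pm_102_s1 t 12 81 1 = true :=
  ⟨(b (a (a (b (b (c (l 531333263) (l 531588239)) (l 531533199)) (l 531264399)) (b (a (b (a (l 531589007) (l 531608975)) (l 531597711)) (l 531503759)) (a (l 531598479) (l 531638927)))) (a (a (b (l 531675535) (l 531677327)) (b (a (l 16766584) (l 16762272)) (b (l 16761128) (l 16759808)))) (a (a (b (l 16760480) (l 16757848)) (b (l 16758600) (b (l 16756624) (l 16755312)))) (b (a (l 16756664) (b (l 16755336) (a (l 16754504) (l 16748248)))) (a (b (l 16754680) (l 16753360)) (b (l 16752672) (l 16751344))))))) (a (a (b (l 531537039) (b (l 531543695) (l 531551119))) (b (a (l 531603087) (l 531643535)) (a (b (l 531609487) (l 531615887)) (l 531383583)))) (a (a (b (l 531682191) (a (l 16759128) (l 16757600))) (b (a (l 16758664) (l 16754384)) (a (b (l 16756688) (a (l 16755776) (l 16754976))) (b (a (l 16755456) (l 16754600)) (l 16753704))))) (a (a (b (b (l 16755880) (l 16754568)) (l 16752584)) (b (b (l 16754000)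 (l 16752680)) (l 16750704))) (b (a (l 16751376) (l 16749360)) (l 16747744)))))), by decide +kernel⟩

def k117_A00pm_102_s1 : ∃ t, chk3 f_A00pm_102_s1 t 13 40 1 = true :=
  ⟨(a (b (a (b (a (c (b (l 531474319) (l 16759656)) (b (l 531454351) (l 531736207))) (a (b (l 16753952) (l 16751224)) (b (l 16751784) (b (l 16754976) (a (l 16754160) (l 16747816)))))) (a (a (b (l 16752736) (c (l 16750040) (l 16750008))) (b (l 16750648) (b (a (l 16754400) (l 16748096)) (a (l 16747808) (l 16751992))))) (b (a (b (l 16749192) (c (l 16747864) (l 16747760))) (b (a (b (l 16753144) (l 16752464)) (l 16751696)) (l 16750896))) (a (b (a (l 16749648) (l 16751192)) (l 16750384)) (b (l 16749544) (l 16748200)))))) (b (a (b (a (b (l 16755488) (l 16748880)) (b (c (l 16748056) (l 16747888)) (a (b (l 16752768) (l 16752080)) (l 16751288)))) (a (b (a (l 16748072) (b (l 16752528) (l 16751848))) (c (l 16751448) (l 16751280))) (b (l 16750496) (l 16749128)))) (b (a (b (a (b (l 16751864) (l 16751176)) (l 16750392)) (l 16749592)) (b (l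 16748704) (l 16747336))) (l 16749032))) (b (a (c (b (l 16759440) (l 16758088)) (a (l 16749248) (l 16746984))) (l 16743680)) (a (l 16745504) (l 16740960))))) (a (b (b (a (a (b (a (l 16748560) (l 16747520)) (a (l 16752464) (l 16751424))) (b (l 16751184) (l 16749848))) (l 16749896)) (a (a (l 16749952) (l 16742600)) (l 16744592))) (a (a (l 16745968) (l 16743848)) (l 16745824))) (b (a (l 16746696) (l 16736896)) (a (l 16736072) (l 16731488))))) (b (a (b (a (b (l 16744672) (l 16741928)) (l 16744120)) (a (l 16737832) (l 16733424))) (b (a (l 16734448) (l 16729976)) (a (l 16729048) (l 16724648)))) (a (b (a (l 16732392) (l 16727976)) (a (l 16721720) (c (l 16722688) (l 16711776)))) (b (a (l 16713136) (b (l 16720624) (l 16717944))) (a (c (l 16707896) (l 16707400)) (b (l 16704768) (c (l 16707552) (l 16701688)))))))), by decide +kernel⟩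

def k118_A00pm_102_s1 : ∃ t, chk3 f_A00pm_102_s1 t 24 164 1 = true :=
  ⟨(a (b (b (l 531560335) (c (l 531233423) (l 531625359))) (c (b (l 531250063) (a (l 531514767) (l 531563663))) (b (l 531905167) (b (l 531646095) (l 531653263))))) (a (a (b (b (l 16762960) (l 531624591)) (b (l 531233935) (c (l 531598223) (l 16759120)))) (c (b (l 16760712) (b (l 531603599) (a (l 16757768) (l 16757064)))) (b (l 531678239) (b (l 16759032) (b (l 16758048) (l 16757400)))))) (b (b (l 531662735) (a (l 16758792) (l 16757328))) (c (b (a (l 531625615) (a (l 16753584) (b (l 16755800) (l 16755136)))) (a (b (a (l 16756680) (l 16755952)) (a (b (l 16756192) (l 16755864)) (l 16755280))) (l 16754488))) (a (b (l 16757600) (a (b (l 16756984) (l 16756328)) (b (l 16756256) (l 16755600)))) (b (a (l 16756504) (b (l 16756096) (l 16755440))) (a (l 16755184) (l 16754432)))))))), by decide +kernel⟩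

def k119_A00pm_102_s1 : ∃ t, chk3 f_A00pm_102_s1 t 48 165 1 = true :=
  ⟨(b (c (c (a (b (l 531501967) (a (l 16761368) (l 16760096))) (a (b (l 16760088) (l 531569183)) (b (l 16758760) (a (l 16757816) (b (l 16757464) (l 16756816)))))) (a (b (l 531573391) (a (l 16761576) (l 16760304))) (b (l 531614495) (a (l 16759008) (b (l 16758000) (a (l 16757704) (l 16757024))))))) (b (b (l 531660687) (a (l 531655055) (l 531683727))) (a (b (l 531664271) (l 531674511)) (b (l 531691663) (a (l 16758896) (a (l 16757904) (b (l 16757392) (l 16757064)))))))) (a (a (c (b (b (l 16760520) (l 16759888)) (a (l 16759272) (b (l 16758952) (b (l 16758496) (l 16758184))))) (b (b (l 16760824) (l 16760184)) (a (l 16759544) (b (l 16759232) (a (l 16758760) (l 16758440)))))) (a (b (b (l 16759752) (l 16759112)) (a (b (l 16758648) (b (l 16758176) (c (l 16757696) (l 16757960)))) (b (l 16758328) (b (c (l 16757696) (l 16757960)) (l 16757512))))) (c (b (l 16758624) (b (b (l 16757840) (a (l 16757688) (l 16757352))) (b (l 16757176) (l 16756816))))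 (b (l 16758912) (b (b (l 16758120) (a (l 16757960) (l 16757632))) (b (l 16757456) (l 16757112))))))) (b (c (a (a (b (l 16758288) (c (l 16757552) (l 16757752))) (b (l 16757632) (b (a (l 16757328) (l 16756984)) (l 16756816)))) (b (a (b (l 16757128) (a (l 16756976) (l 16756624))) (b (l 16756432) (l 16756080))) (a (l 16756272) (l 16755552)))) (a (a (b (l 16758584) (b (l 16758104) (l 16757784))) (b (l 16757928) (b (a (l 16757616) (l 16757280)) (l 16757112)))) (b (a (b (l 16757424) (a (l 16757264) (l 16756920))) (l 16756568)) (a (l 16756584) (l 16755888))))) (a (b (a (b (a (c (l 16757352) (l 16757624)) (l 16757168)) (c (l 16756824) (l 16757120))) (c (l 16756288) (l 16756600))) (c (l 16755928) (l 16756264))) (b (a (l 16755768) (l 16755056)) (l 16752096)))))), by decide +kernel⟩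

def k120_A00pm_102_s1 : ∃ t, chk3 f_A00pm_102_s1 t 49 165 1 = true :=
  ⟨(b (a (b (b (c (a (l 16757832) (a (l 16756800) (a (l 16756264) (l 16755904)))) (a (l 16758144) (a (l 16757104) (l 16756392)))) (a (a (l 16757712) (c (l 16756848) (l 16757152))) (a (a (b (l 16756672) (l 16756336)) (b (l 16756312) (l 16755976))) (c (l 16755400) (l 16755720))))) (a (c (a (b (b (l 16757056) (l 16756728)) (b (l 16756400) (l 16756048))) (b (b (l 16756360) (l 16756016)) (l 16755488))) (b (a (l 16757192) (b (l 16756664) (l 16756328))) (a (b (l 16756704) (l 16756368)) (l 16755824)))) (c (c (l 16754600) (l 16754840)) (a (l 16755440) (l 16754712))))) (a (b (c (c (l 16754496) (l 16754728)) (l 16757576)) (c (l 16747992) (l 16753616))) (b (l 16753320) (l 16751968)))) (a (c (a (b (a (l 16755176) (l 16754440)) (l 16753400)) (l 16752632)) (b (a (l 16757784) (l 16753728)) (a (l 16753808) (l 16752376)))) (a (l 16751408) (l 16749928)))), by decide +kernel⟩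

def k121_A00pm_102_s1 : ∃ t, chk3 f_A00pm_102_s1 t 25 82 1 = true :=
  ⟨(b (a (a (b (b (a (l 16757152) (a (l 16756008) (l 16755240))) (a (b (l 16756168) (a (l 16755888) (l 16755128))) (a (l 16754688) (l 16753904)))) (a (b (c (l 16754320) (a (l 16755016) (l 16754248))) (l 16753152)) (b (l 16752952) (l 16751608)))) (b (a (b (l 16754048) (l 16752712)) (l 16751712)) (a (l 16750704) (l 16749048)))) (a (c (l 16752744) (l 16747800)) (b (l 16745104) (l 16742472)))) (a (a (b (a (l 16751128) (l 16749592)) (l 16747656)) (b (l 16747192) (l 16744520))) (a (l 16747640) (l 16738536)))), by decide +kernel⟩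

def k122_A00pm_102_s1 : ∃ t, chk3 f_A00pm_102_s1 t 26 82 1 = true :=
  ⟨(a (b (a (l 16739616) (l 16735256)) (a (l 16734368) (l 16724720))) (b (a (l 16730720) (c (l 16726200) (l 16715400))) (a (c (l 16725400) (l 16714752)) (c (l 16710360) (l 16710016))))), by decide +kernel⟩

def k123_A00pm_102_s1 : ∃ t, chk3 f_A00pm_102_s1 t 54 82 1 = true :=
  ⟨(b (a (c (l 16721712) (l 16710784)) (b (l 16713216) (a (l 16716864) (l 16709416)))) (a (c (b (l 16717688) (l 16709768)) (b (l 16717184) (l 16703984))) (b (c (a (l 16714384) (l 16712208)) (a (l 16713760) (l 16711504))) (a (c (l 16706464) (l 16711024)) (b (c (l 16707576) (l 16709440)) (c (a (l 16706784) (b (c (l 16708720) (l 16708536)) (c (a (l 16708312) (l 16707736)) (l 16707816)))) (a (l 16708632) (b (l 16707848) (l 16707088))))))))), by decide +kernel⟩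

def k124_A00pm_102_s1 : ∃ t, chk3 f_A00pm_102_s1 t 55 164 1 = true :=
  ⟨(a (b (c (l 16703872) (l 16703240)) (c (a (l 16712736) (l 16705368)) (a (l 16712048) (l 16709856)))) (b (c (a (l 16711184) (b (l 16709752) (b (l 16703512) (a (l 16708624) (c (l 16707632) (l 16702136)))))) (a (l 16710480) (a (l 16708872) (b (l 16708488) (b (l 16707440) (a (l 16707008) (l 16706384))))))) (a (b (c (l 16709184) (l 16708392)) (a (c (c (l 16708456) (l 16708224)) (l 16707536)) (c (b (c (l 16707736) (a (l 16707784) (l 16707224))) (c (l 16707000) (l 16706728))) (b (a (l 16707080) (l 16706496)) (l 16705968))))) (b (b (a (c (l 16705320) (l 16707120)) (c (l 16706760) (l 16705848))) (c (a (a (l 16704904) (l 16706928)) (l 16705944)) (a (a (l 16706672) (l 16706024)) (l 16704928)))) (c (c (l 16705520) (l 16705160)) (l 16704272)))))), by decide +kernel⟩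

def k125_A00pm_102_s1 : ∃ t, chk3 f_A00pm_102_s1 t 55 165 1 = true :=
  ⟨(a (b (a (c (c (l 16704888) (l 16709936)) (b (l 16709968) (l 16708592))) (b (c (a (l 16709136) (b (l 16708416) (c (l 16705200) (l 16707584)))) (a (l 16708320) (b (l 16707576) (l 16706856)))) (b (c (a (c (l 16708208) (l 16707992)) (c (a (l 16707392) (l 16706800)) (l 16706832))) (a (l 16707272) (l 16706056))) (c (a (c (a (l 16707800) (l 16707232)) (a (l 16707568) (l 16706976))) (l 16706184)) (a (a (l 16706840) (l 16706208)) (l 16705152)))))) (a (a (b (c (b (l 16708920) (c (l 16708312) (l 16708112))) (b (l 16708112) (l 16707400))) (b (c (a (c (l 16707896) (l 16707688)) (l 16707224)) (l 16706624)) (c (l 16706736) (l 16705736)))) (b (c (b (a (l 16705496) (c (l 16707640) (l 16707416))) (c (l 16707184) (l 16706928))) (b (a (l 16707272) (l 16706672)) (l 16706144))) (c (l 16705880) (l 16704776)))) (c (b (c (l 16705744) (l 16705400)) (l 16703952)) (b (l 16704488) (l 16702624))))) (b (a (c (b (a (a (b (a (l 16707760) (l 16704856))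 (l 16706864)) (c (l 16706744) (l 16706464))) (l 16705672)) (c (l 16704840) (l 16704440))) (b (a (b (a (l 16706744) (l 16706120)) (l 16705568)) (l 16704600)) (l 16703464))) (c (c (l 16703080) (l 16702584)) (l 16701472))) (a (c (c (l 16702408) (l 16701856)) (l 16700640)) (l 16703904)))), by decide +kernel⟩

def k126_A00pm_102_s1 : ∃ t, chk3 f_A00pm_102_s1 t 12 166 1 = true :=
  ⟨(a (b (a (a (c (b (b (a (a (b (l 16758504) (a (l 16758352) (l 16758024))) (b (a (l 16758024) (l 16757688)) (l 16757504))) (a (l 16756984) (l 16756280))) (a (a (b (l 16757840) (l 16757480)) (l 16756968)) (l 16755920))) (a (b (l 16756592) (l 16755864)) (l 16754840))) (b (a (b (a (b (l 16758752) (a (l 16758592) (l 16758272))) (b (a (l 16758280) (l 16757952)) (l 16757776))) (a (b (l 16758096) (l 16757752)) (l 16757264))) (c (l 16756536) (l 16756640))) (a (l 16756560) (l 16755224)))) (b (a (c (l 16754864) (l 16755240)) (b (l 16754032) (l 16753336))) (a (b (l 16754040) (l 16753336)) (l 16747048)))) (a (a (l 16751568) (l 16750128))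 (l 16747936))) (a (a (a (b (l 16752392) (l 16753584)) (b (l 16753656) (l 16752232))) (b (l 16751592) (l 16750176))) (a (l 16748064) (l 16745184)))) (a (a (b (l 16744952) (l 16742224)) (b (l 16741840) (l 16739144))) (a (b (l 16738416) (l 16735752)) (b (l 16734600) (l 16731968))))), by decide +kernel⟩

def k127_A00pm_102_s1 : ∃ t, chk3 f_A00pm_102_s1 t 12 167 1 = true :=
  ⟨(a (b (a (a (b (l 16751464) (l 16749952)) (a (l 16748656) (l 16747288))) (b (l 16749768) (b (l 16743464) (l 16747968)))) (b (b (a (b (a (l 16748976) (l 16746312)) (a (b (l 16748632) (a (l 16749032) (l 16747728))) (b (l 16745976) (l 16745736)))) (b (l 16747408) (a (b (l 16743248) (l 16743024)) (l 16740344)))) (b (b (a (a (l 16748184) (l 16745544)) (a (l 16742840) (l 16740056))) (b (a (a (l 16748072) (l 16745440)) (a (l 16742728) (l 16739944))) (b (a (a (l 16748024) (l 16745384)) (a (l 16742672) (l 16739888))) (a (a (l 16747984) (l 16745344)) (l 16746480))))) (a (a (l 16747824) (l 16745184)) (a (l 16742464) (l 16739680))))) (a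 (a (l 16747104) (l 16744456)) (a (l 16741728) (l 16738936))))) (b (a (b (l 16743912) (l 16742520)) (a (l 16733056) (l 16729312))) (a (b (b (b (l 16736392) (a (l 16737480) (l 16734480))) (l 16735496)) (l 16734584)) (b (b (b (l 16729712) (b (l 16729448) (l 16718784))) (l 16728864)) (l 16727928))))), by decide +kernel⟩

def k128_A00pm_102_s1 : ∃ t, chk3 f_A00pm_102_s1 t 13 166 1 = true :=
  ⟨(a (b (a (a (l 16730432) (l 16726016)) (a (l 16710944) (c (l 16716840) (l 16716472)))) (a (a (l 16727816) (l 16723392)) (b (a (l 16719448) (c (l 16714840) (l 16714464))) (a (l 16707648) (a (l 16709376) (c (b (l 16712720) (a (l 16712616) (l 16711472))) (b (l 16712272) (l 16711552)))))))) (a (a (b (a (c (l 16713464) (l 16712936)) (b (c (l 16711904) (l 16711280)) (c (a (l 16711128) (b (l 16710352) (c (l 16709696) (l 16709584)))) (a (l 16710504) (l 16709320))))) (b (b (a (c (l 16711800) (l 16711248)) (c (a (c (l 16710128) (l 16710040)) (l 16708952)) (a (l 16709456) (l 16708168)))) (a (c (a (l 16711696) (l 16705320))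 (l 16710544)) (c (l 16708792) (l 16707960)))) (c (a (b (a (l 16711016) (l 16709840)) (l 16709696)) (l 16707624)) (a (b (l 16709776) (l 16708904)) (l 16706568))))) (b (a (b (c (a (l 16710248) (b (l 16709488) (c (a (l 16709136) (l 16708576)) (l 16708696)))) (a (l 16709552) (b (l 16708744) (l 16708024)))) (c (a (b (c (l 16709272) (l 16709136)) (l 16708504)) (c (l 16707760) (l 16707528))) (a (b (l 16708496) (l 16707688)) (l 16706744)))) (c (b (a (b (c (a (l 16708720) (l 16708160)) (l 16708256)) (l 16707624)) (l 16706784)) (l 16705800)) (b (a (b (l 16707552) (l 16706720)) (l 16705768)) (l 16704632)))) (c (b (a (l 16706712) (l 16704176)) (l 16703800)) (b (l 16704184) (l 16702248))))) (b (a (c (c (b (l 16703800) (l 16702184)) (l 16707696)) (b (l 16712672) (l 16700280))) (b (l 16697352) (l 16695472))) (a (b (l 16699376) (l 16697472)) (l 16692536))))), by decide +kernel⟩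

def k129_A00pm_102_s1 : ∃ t, chk3 f_A00pm_102_s1 t 26 167 1 = true :=
  ⟨(b (b (a (a (l 16725856) (l 16721432)) (a (a (l 16718000) (b (l 16715984) (l 16704832))) (a (b (c (l 16713656) (l 16713320)) (c (l 16712992) (l 16712560))) (c (b (l 16711344) (l 16710624)) (l 16715536))))) (b (a (a (l 16724880) (l 16720456)) (a (a (l 16717016) (c (l 16714640) (l 16714360))) (l 16710808))) (b (b (a (a (l 16724464) (l 16720048)) (a (a (l 16716600) (l 16714152)) (l 16710264))) (b (a (a (l 16724344) (l 16719920)) (a (l 16715248) (l 16710096))) (b (a (a (l 16724280) (l 16719864)) (a (l 16715176) (l 16710008))) (a (a (l 16724240) (l 16719824)) (a (l 16715128) (l 16709952)))))) (a (a (l 16724056) (a (l 16720768) (l 16718504))) (a (l 16714904) (l 16709680)))))) (b (a (b (b (a (l 16723728) (a (l 16720448) (l 16718176))) (b (a (l 16723496) (l 16719080)) (a (b (b (l 16723408) (l 16723400)) (l 16723344)) (l 16718904)))) (b (l 16731464) (l 16731136))) (a (b (b (l 16714488) (b (l 16714120) (l 16713832))) (l 16713360))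 (b (b (l 16709152) (b (l 16708680) (l 16708304))) (l 16707784)))) (a (a (l 16722024) (l 16717528)) (a (l 16712376) (l 16706784))))), by decide +kernel⟩

def k130_A00pm_102_s1 : ∃ t, chk3 f_A00pm_102_s1 t 27 167 1 = true :=
  ⟨(b (a (a (b (c (l 16707288) (l 16706072)) (l 16704888)) (b (l 16701264) (l 16699160))) (b (l 16713424) (b (l 16690784) (l 16689520)))) (b (b (a (b (l 16711080) (b (a (l 16702960) (l 16697016)) (a (a (l 16703984) (l 16701024)) (b (b (l 16696632) (l 16696416)) (l 16696280))))) (a (b (l 16691560) (b (l 16690864) (b (b (l 16690432) (a (l 16691776) (l 16688616))) (l 16690048)))) (b (l 16685280) (b (l 16684520) (b (b (l 16684056) (a (l 16685416) (l 16682176))) (l 16683640)))))) (b (b (a (a (l 16702200) (l 16696152)) (a (l 16689920) (l 16683512))) (b (a (a (l 16702072) (l 16696032)) (a (l 16689792) (l 16683384))) (b (a (a (l 16702016) (l 16695968)) (a (l 16689728) (l 16683320))) (a (a (l 16701968) (l 16695920)) (a (l 16689688) (l 16683272)))))) (a (a (l 16701784) (l 16695728))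 (a (l 16689488) (l 16683080))))) (a (a (l 16700936) (l 16694872)) (a (l 16688624) (a (l 16683824) (l 16680576)))))), by decide +kernel⟩

def k131_A00pm_102_s1 : ∃ t, chk3 f_A00pm_102_s1 t 6 21 1 = true :=
  ⟨(a (a (a (b (b (a (b (c (l 16743672) (l 16755072)) (c (l 16739072) (l 16739800))) (c (l 16738616) (l 16739528))) (a (b (c (l 16734448) (l 16734992)) (l 16730104)) (c (l 16739776) (l 16729840)))) (a (b (c (l 16722880) (l 16722968)) (c (l 16713712) (l 16713440))) (b (b (l 16722560) (l 16717840)) (l 16721280)))) (b (a (b (c (l 16735800) (l 16736768)) (l 16726816)) (b (l 16738776) (l 16723880))) (b (a (b (l 16719648) (l 16714888)) (l 16709008)) (a (l 16707792) (l 16704712))))) (a (a (b (c (l 16735656) (l 16726024)) (a (l 16707136) (l 16705552))) (b (b (l 16727536) (l 16717712)) (l 16703088))) (a (b (b (l 16724168) (l 16714248)) (l 16699504)) (b (b (l 16720400) (l 16710392)) (l 16695520))))) (a (a (b (a (b (a (l 16717352) (l 16715248)) (l 16706200)) (b (l 16711744) (l 16701592))) (a (b (l 16696168)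 (l 16644296)) (a (l 16687752) (l 16685288)))) (b (a (b (b (l 16709104) (l 16703944)) (b (l 16698816) (l 16693752))) (b (b (l 16703456) (l 16698192)) (b (l 16693000) (l 16687904)))) (a (b (l 16686232) (l 16676288)) (b (l 16680336) (l 16670432))))) (b (a (b (a (b (l 16697560) (l 16692216)) (b (a (l 16693000) (l 16689904)) (l 16686040))) (a (b (l 16686952) (l 16681760)) (b (l 16680704) (l 16675440)))) (b (c (a (b (l 16686936) (l 16681592)) (b (a (l 16682304) (l 16679168)) (l 16675352))) (a (b (l 16683176) (l 16677536)) (b (a (l 16678160) (l 16674760)) (l 16670744)))) (a (b (l 16679528) (l 16668952)) (b (a (l 16669376) (l 16666048)) (l 16662320))))) (a (a (b (l 16674152) (l 16664160)) (b (b (l 16670248) (l 16665128)) (l 16657640))) (a (b (b (l 16663696) (l 16658512)) (l 16650880)) (b (b (l 16657000) (l 16651752)) (b (l 16646576) (l 16641472)))))))), by decide +kernel⟩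

def k132_A00pm_102_s1 : ∃ t, chk3 f_A00pm_102_s1 t 6 11 1 = true :=
  ⟨(a (a (b (a (b (a (b (l 16725424) (l 16695392)) (b (l 16701504) (l 16692328))) (c (b (l 16685384) (l 16676856)) (b (l 16684136) (l 16675248)))) (b (b (a (l 16698440) (l 16695280)) (a (l 16689208) (l 16685984))) (c (c (l 16695176) (l 16716088)) (a (l 16674856) (l 16671536))))) (b (a (b (l 16688840) (l 16659792)) (b (l 16681728) (l 16652240))) (a (c (l 16649488) (l 16646632)) (c (l 16640952) (l 16638632))))) (b (a (b (b (a (l 16692048) (l 16688672)) (a (l 16682672) (l 16679224))) (c (a (l 16669024) (l 16665392)) (l 16708424))) (b (c (b (l 16682808) (l 16673328)) (l 16719672)) (c (l 16680328) (l 16658608)))) (a (a (b (l 16672008) (l 16634048)) (b (l 16668232) (l 16630024))) (b (c (l 16641256) (l 16640088)) (c (l 16623792) (l 16622176)))))) (a (b (a (b (c (l 16674656) (a (l 16670952) (l 16665888))) (a (l 16652456) (b (l 16652288) (l 16642776)))) (b (b (a (l 16666440) (l 16660624)) (l 16653856)) (b (l 16644232) (l 16634720))))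 (a (b (b (l 16635976) (l 16626800)) (c (l 16613760) (l 16612024))) (b (c (l 16621712) (l 16618784)) (c (l 16603328) (l 16600416))))) (b (a (b (b (a (l 16654400) (l 16647808)) (l 16641496)) (b (l 16631968) (l 16622536))) (b (b (a (l 16641000) (l 16633968)) (a (l 16631328) (l 16624256))) (b (l 16639280) (l 16609024)))) (a (b (b (l 16613216) (l 16604008)) (c (l 16592528) (l 16587352))) (b (b (l 16599816) (l 16590712)) (b (l 16581712) (l 16572824))))))), by decide +kernel⟩

def k133_A00pm_102_s1 : ∃ t, chk3 f_A00pm_102_s1 t 28 40 1 = true :=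
  ⟨(b (a (b (a (l 16725472) (l 16710304)) (a (l 16709728) (c (l 16715664) (l 16705048)))) (b (a (c (l 16715792) (l 16716008)) (b (a (l 16713344) (l 16710272)) (a (c (l 16710528) (l 16710624)) (l 16707008)))) (a (b (a (l 16713320) (a (l 16711456) (l 16704784))) (a (b (l 16711384) (c (l 16710008) (l 16709840))) (b (l 16703248) (l 16706808)))) (a (b (l 16707424) (l 16698776)) (b (l 16703632) (l 16700216)))))) (a (b (a (c (l 16704592) (l 16704208)) (b (b (l 16701880) (a (l 16712216) (a (l 16710488) (l 16703992)))) (a (c (l 16705144) (b (l 16710632) (l 16704000))) (a (b (l 16703880) (a (l 16702744) (l 16707200))) (b (l 16707680) (l 16705968)))))) (a (b (a (l 16701544) (b (l 16710512) (c (l 16704176) (l 16703544)))) (b (a (l 16704784) (a (c (l 16708656) (l 16702720)) (a (b (l 16702624) (l 16707064)) (l 16701496)))) (a (a (l 16703976) (a (l 16703176) (c (l 16708144) (l 16702160)))) (a (c (l 16701952) (b (l 16706816) (l 16705936))) (c (l 16705784) (l 16704832)))))) (b (a (b (a (c (l 16709048) (l 16708448))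 (c (l 16707744) (l 16701824))) (a (c (l 16707592) (b (l 16702072) (l 16706440))) (l 16700512))) (c (l 16704616) (b (l 16704568) (l 16702728)))) (c (a (l 16704392) (l 16701296)) (a (b (l 16704248) (l 16702408)) (l 16699952)))))) (c (b (a (b (a (b (l 16708688) (l 16707136)) (l 16704576)) (a (l 16704680) (l 16701296))) (b (a (l 16701048) (l 16697368)) (l 16695928))) (a (b (c (l 16699968) (l 16709880)) (l 16706824)) (b (l 16692592) (l 16689208)))) (b (b (a (a (a (b (l 16709096) (l 16707432)) (l 16706560)) (l 16703824)) (l 16708568)) (a (c (a (l 16704064) (l 16700480)) (l 16712176)) (l 16704880))) (a (a (b (l 16700136) (l 16696416)) (l 16705072)) (a (l 16690760) (l 16686784))))))), by decide +kernel⟩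

def k134_A00pm_102_s1 : ∃ t, chk3 f_A00pm_102_s1 t 29 40 1 = true :=
  ⟨(a (b (b (a (b (l 16699144) (a (l 16703072) (l 16698984))) (c (l 16705136) (b (l 16695744) (l 16692144)))) (a (b (c (l 16698064) (l 16697208)) (c (l 16694840) (l 16693576))) (c (b (l 16689872) (l 16686648)) (b (l 16688528) (l 16684888))))) (a (b (c (b (l 16691576) (l 16688264)) (b (l 16689912) (l 16686208))) (c (a (l 16685192) (l 16681216)) (a (l 16682672) (l 16678432)))) (b (c (a (l 16683824) (l 16679648)) (a (l 16681576) (l 16677152))) (c (a (l 16677112) (l 16672952)) (a (l 16674064) (l 16669648)))))) (b (b (a (c (l 16686480) (b (l 16687160) (l 16683552))) (c (l 16678712) (a (l 16679240) (l 16675272)))) (a (c (b (l 16681696) (l 16678464)) (a (l 16680192) (l 16676008))) (c (b (l 16673928) (l 16670696)) (b (l 16671776) (l 16668104))))) (a (b (c (a (l 16675560) (l 16671568)) (a (l 16672824) (l 16668616))) (c (a (l 16668856) (l 16664864)) (a (l 16665304) (l 16661096)))) (b (c (a (l 16667680) (l 16663880)) (a (l 16664536) (l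 16660552))) (c (a (l 16660968) (l 16657160)) (a (l 16656984) (l 16652992))))))), by decide +kernel⟩

def k135_A00pm_102_s1 : ∃ t, chk3 f_A00pm_102_s1 t 14 82 1 = true :=
  ⟨(a (a (b (a (b (a (b (b (a (l 16702968) (c (l 16707344) (l 16706528))) (a (c (l 16702576) (l 16704392)) (c (l 16706544) (l 16705632)))) (c (a (a (l 16704368) (l 16706328)) (l 16705304)) (c (l 16710560) (l 16709896)))) (c (c (l 16704216) (l 16703792)) (l 16708096))) (c (c (a (l 16703704) (l 16700944)) (a (l 16708488) (l 16700344))) (a (l 16712712) (l 16699120)))) (c (b (c (l 16697192) (l 16709656)) (l 16706592)) (b (l 16708408) (l 16704616)))) (b (a (c (c (l 16709520) (l 16698320)) (l 16707376)) (c (l 16692632) (l 16690264))) (a (a (l 16695736) (l 16692680)) (l 16687784)))) (b (a (c (c (l 16702176) (l 16701160)) (c (l 16699992) (l 16698664))) (c (l 16694504) (b (l 16683080) (l 16679192)))) (a (b (l 16695064) (l 16680752)) (b (l 16677048) (l 16673168))))) (a (b (a (c (l 16686776) (b (l 16674824) (l 16670912))) (c (a (l 16670184)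 (l 16666016)) (a (l 16666336) (l 16661912)))) (a (b (l 16669008) (l 16665096)) (b (l 16665760) (l 16656584)))) (b (b (a (a (l 16661696) (l 16657592)) (a (l 16653584) (l 16649664))) (a (a (l 16657976) (l 16653872)) (a (l 16649856) (l 16645936)))) (a (b (a (l 16654160) (l 16650056)) (l 16648152)) (b (a (l 16646040) (l 16642120)) (l 16640128)))))), by decide +kernel⟩

def k136_A00pm_102_s1 : ∃ t, chk3 f_A00pm_102_s1 t 14 83 1 = true :=
  ⟨(a (b (a (a (b (l 16690400) (l 16686384)) (b (l 16683888) (l 16679768))) (b (a (l 16676784) (l 16669144)) (a (l 16672568) (l 16664864)))) (b (a (a (l 16692256) (l 16674992)) (b (l 16665304) (l 16683552))) (b (b (a (b (a (l 16678792) (l 16671912)) (b (a (l 16677984) (l 16671056)) (a (b (b (l 16677488) (a (l 16678888) (l 16675520))) (l 16677040)) (b (b (l 16670528) (a (l 16672032) (l 16668416))) (l 16680544))))) (b (l 16681544) (b (a (l 16663608) (l 16655680)) (a (b (b (l 16663056) (a (l 16664664) (l 16660800))) (l 16662560)) (b (b (l 16655104) (a (l 16656816) (l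 16652728))) (l 16654592)))))) (b (b (a (a (l 16676912) (l 16669928)) (a (l 16662432) (l 16654472))) (b (a (a (l 16676784) (l 16669800)) (a (l 16662304) (l 16654344))) (b (a (a (l 16676720) (l 16669736)) (a (l 16662240) (l 16654280))) (a (a (l 16676680) (l 16669696)) (a (l 16662200) (l 16654240)))))) (a (a (l 16676480) (l 16669496)) (a (l 16662000) (l 16654040))))) (a (a (a (l 16677280) (l 16673904)) (l 16679096)) (a (l 16671608) (l 16653168)))))) (b (a (a (b (l 16661024) (l 16656688)) (b (l 16652488) (l 16648112))) (a (b (l 16644040) (l 16639640)) (b (l 16636008) (l 16631608)))) (a (a (b (l 16651592) (b (b (b (l 16648272) (b (l 16647328) (a (l 16669656) (l 16644400)))) (l 16645832)) (l 16644792))) (b (l 16642952) (b (b (b (l 16639576) (b (l 16638608) (a (l 16640016) (l 16635608)))) (l 16637088)) (l 16636056)))) (a (b (l 16634424) (b (b (b (l 16631016) (b (l 16630032) (l 16629208))) (l 16628488)) (l 16627472))) (b (l 16626368) (b (b (b (l 16622936) (l 16642504)) (l 16620384)) (l 16619376))))))),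 by decide +kernel⟩

def k137_A00pm_102_s1 : ∃ t, chk3 f_A00pm_102_s1 t 14 21 1 = true :=
  ⟨(a (a (b (b (a (b (c (a (l 16675976) (l 16672720)) (a (l 16671328) (l 16667824))) (c (l 16668928) (l 16663792))) (b (c (l 16678088) (a (l 16664208) (l 16660472))) (c (l 16662168) (l 16656520)))) (a (c (b (l 16663568) (l 16658272)) (b (l 16658088) (l 16652456))) (b (c (l 16656792) (l 16650768)) (l 16658888)))) (b (a (c (l 16650448) (l 16644168)) (c (l 16643568) (l 16636680))) (a (c (l 16640232) (l 16633392)) (c (l 16633280) (l 16625760))))) (b (b (a (b (c (l 16660384) (l 16654640)) (c (l 16654984) (l 16648824))) (b (c (l 16652704) (l 16646456)) (l 16654608))) (a (c (l 16667896) (b (l 16643040) (l 16637320))) (c (l 16639352) (l 16632064)))) (b (a (c (l 16636352) (l 16628872)) (c (l 16628776) (l 16620704))) (a (c (l 16625968) (l 16617800)) (c (l 16618384) (l 16609592)))))) (a (b (b (a (b (l 16662304) (l 16635816)) (b (l 16632632) (l 16627160))) (a (c (l 16631376) (l 16623552)) (b (l 16621720) (l 16616304))))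 (b (a (c (l 16620888) (l 16612248)) (l 16608232)) (a (l 16605992) (l 16597568)))) (b (a (b (b (l 16624080) (l 16618664)) (l 16610592)) (b (l 16613352) (l 16602696))) (a (b (l 16599912) (l 16589336)) (b (l 16592128) (l 16581656)))))), by decide +kernel⟩

def k138_A00pm_102_s1 : ∃ t, chk3 f_A00pm_102_s1 t 14 11 1 = true :=
  ⟨(b (a (b (b (a (a (l 16626840) (l 16619432)) (a (l 16611688) (l 16603672))) (a (a (l 16616960) (l 16609432)) (c (l 16602136) (l 16592424)))) (a (b (a (l 16607416) (l 16599728)) (c (l 16598312) (l 16589448))) (b (c (l 16592488) (l 16582272)) (c (l 16583112) (l 16572424))))) (b (a (c (a (l 16595320) (l 16587168)) (a (l 16626808) (l 16576048))) (a (c (l 16579312) (l 16567592)) (c (l 16572056) (l 16559816)))) (b (a (c (l 16576360) (l 16564600)) (l 16575528)) (a (c (l 16566848) (l 16554496)) (c (l 16551280) (l 16537504)))))) (a (b (a (b (l 16585056) (l 16576112)) (b (l 16568888) (l 16559816))) (a (b (l 16567240) (l 16558472)) (b (l 16551024) (l 16542432)))) (b (a (c (l 16553128)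 (l 16581816)) (c (l 16537376) (l 16522456))) (a (c (l 16535728) (l 16521584)) (a (l 16516072) (l 16508288)))))), by decide +kernel⟩

def k139_A00pm_102_s1 : ∃ t, chk3 f_A00pm_102_s1 t 15 40 1 = true :=
  ⟨(a (b (a (b (a (b (l 16671984) (l 16668608)) (b (l 16664392) (l 16661032))) (a (b (a (l 16667112) (l 16663320)) (a (l 16663664) (l 16659880))) (b (a (l 16659544) (l 16655752)) (a (l 16656112) (l 16652336))))) (b (a (b (l 16656656) (l 16653328)) (b (l 16648360) (l 16645072))) (a (b (a (l 16651928) (l 16648000)) (a (l 16648520) (l 16644608))) (b (l 16647000) (a (l 16640520) (l 16636232)))))) (a (b (a (c (b (l 16659936) (l 16656624)) (b (l 16656584) (l 16652840))) (b (a (l 16652648) (l 16648872)) (a (l 16649136) (l 16645376)))) (a (c (a (l 16653416) (l 16649720)) (a (l 16649080) (l 16645224))) (c (a (l 16646048) (l 16642368)) (a (l 16641392) (l 16637568))))) (b (a (b (a (l 16645072) (l 16641176)) (a (l 16641584) (l 16637696))) (b (a (l 16637104) (l 16632840)) (a (l 16633648) (l 16629400)))) (a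 (c (a (l 16638656) (l 16634856)) (a (l 16633728) (l 16629800))) (c (a (l 16630896) (l 16626752)) (a (l 16625704) (l 16621424))))))) (a (b (b (a (b (l 16639216) (l 16635992)) (b (l 16629128) (l 16626000))) (b (a (l 16632720) (l 16633296)) (a (a (l 16631744) (l 16627040)) (a (l 16622112) (l 16616960))))) (b (a (b (a (l 16628376) (l 16623696)) (a (l 16624960) (l 16620312))) (c (a (l 16619528) (l 16614496)) (a (l 16614656) (l 16609472)))) (a (c (a (l 16622416) (l 16617872)) (a (l 16616944) (l 16612256))) (c (a (l 16613128) (l 16608160)) (a (l 16607360) (l 16602240)))))) (b (a (a (b (l 16619240) (l 16613080)) (b (l 16613200) (l 16607264))) (b (c (l 16605352) (l 16601528)) (c (l 16600160) (l 16595416)))) (a (a (b (c (l 16609240) (l 16604056)) (c (l 16602968) (l 16596888))) (b (l 16603632) (c (l 16597544) (l 16591304)))) (a (b (l 16595024) (l 16588632)) (b (l 16588632) (l 16582472))))))), by decide +kernel⟩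

def k140_A00pm_102_s1 : ∃ t, chk3 f_A00pm_102_s1 t 15 41 1 = true :=
  ⟨(a (b (a (b (a (c (b (l 16646392) (l 16642848)) (b (l 16641344) (l 16637392))) (c (b (l 16639040) (l 16635504)) (b (l 16633688) (l 16629736)))) (a (b (a (l 16638264) (l 16634480)) (l 16632408)) (b (a (l 16630728) (l 16626992)) (l 16624896)))) (a (b (c (b (l 16631632) (l 16628104)) (a (l 16625968) (l 16622064))) (b (a (l 16623240) (l 16619408)) (l 16622624))) (b (b (a (l 16622944) (l 16618752)) (a (l 16619232) (l 16615056))) (b (a (l 16615424) (l 16611272)) (l 16614680))))) (b (a (a (b (l 16628296) (l 16623872)) (b (l 16620768) (l 16616336))) (a (b (l 16613256) (l 16608824)) (b (l 16605328) (l 16600912)))) (b (a (b (l 16616448) (l 16613520)) (a (l 16603536) (l 16606120))) (a (b (a (a (l 16636896) (l 16612080)) (l 16627368)) (l 16607760)) (a (a (l 16600128) (l 16596320)) (a (l 16613352) (l 16609256))))))) (b (a (a (b (c (a (l 16615624) (l 16611136)) (a (l 16609304) (l 16604664))) (b (a (l 16606928) (l 16602400)) (l 16611272)))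 (b (c (a (l 16606448) (l 16601544)) (a (l 16599824) (l 16594768))) (b (a (l 16597672) (l 16592736)) (l 16591376)))) (a (b (c (l 16604248) (a (l 16589488) (l 16583968))) (c (l 16607824) (b (l 16581032) (l 16577056)))) (a (b (l 16592392) (l 16574720)) (b (l 16575912) (l 16568888))))) (b (a (a (b (l 16596712) (l 16592336)) (b (l 16587360) (l 16583024))) (a (b (l 16577184) (l 16572928)) (b (l 16566136) (l 16561960)))) (b (a (a (l 16597576) (l 16577840)) (a (l 16567816) (l 16577928))) (a (b (b (b (l 16579080) (a (l 16582208) (l 16573000))) (l 16576504)) (l 16575544)) (b (b (b (l 16559112) (a (l 16563048) (l 16552280))) (l 16556608)) (l 16555680))))))), by decide +kernel⟩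

def k141_A00pm_102_s1 : ∃ t, chk3 f_A00pm_102_s1 t 15 21 1 = true :=
  ⟨(a (a (b (a (b (l 16605640) (l 16595144)) (l 16634864)) (a (l 16621472) (l 16572344))) (b (a (l 16585480) (l 16577632)) (a (l 16565072) (l 16557488)))) (a (b (a (l 16611168) (l 16602120)) (b (l 16591680) (l 16581912))) (b (a (l 16550424) (l 16539904)) (a (l 16572776) (l 16562560))))), by decide +kernel⟩

def k142_A00pm_102_s1 : ∃ t, chk3 f_A00pm_102_s1 t 15 11 1 = true :=
  ⟨(b (b (a (a (c (l 16561752) (l 16548832)) (a (l 16545152) (l 16537832))) (a (a (l 16529792) (l 16563120)) (a (c (l 16519232) (l 16504072)) (c (l 16509416) (l 16493824))))) (b (a (a (l 16540480) (l 16526848)) (a (c (l 16519040) (l 16503216)) (a (l 16497976) (l 16488152)))) (a (a (l 16530592) (c (l 16524832) (l 16509000))) (a (c (l 16510120) (l 16493360)) (a (l 16488896) (l 16479200)))))) (b (a (a (c (l 16523944) (l 16507696)) (a (l 16548280) (c (l 16508032) (l 16490368)))) (a (c (a (l 16500904) (l 16493160)) (a (l 16482672) (l 16474344))) (a (c (l 16484760)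 (l 16465352)) (c (l 16475672) (l 16455648))))) (a (a (a (l 16501112) (l 16536296)) (a (c (l 16496888) (l 16478008)) (c (l 16490464) (l 16470880)))) (a (a (c (l 16483584) (l 16463296)) (c (l 16476184) (l 16455184))) (a (c (l 16468136) (l 16446408)) (l 6)))))), by decide +kernel⟩

def k143_A00pm_102_s1 : ∃ t, chk3 f_A00pm_102_s1 t 3 3 1 = true :=
  ⟨(a (b (a (b (b (a (b (a (c (l 16635688) (l 16632112)) (c (l 16626104) (l 16623144))) (a (l 16663024) (c (l 16612616) (l 16609016)))) (b (a (c (l 16616864) (l 16614448)) (c (l 16607232) (l 16605168))) (a (c (l 16602320) (l 16599352)) (c (l 16591704) (l 16589184))))) (a (b (a (l 2) (l 16598432)) (l 2)) (b (a (c (l 16589112) (l 16585616)) (c (l 16577424) (l 16574480))) (a (l 16575416) (l 16605248))))) (a (l 2) (a (l 2) (b (b (l 16551264) (l 2)) (l 2))))) (b (a (b (b (a (c (l 16596520) (l 16594464)) (c (l 16627448) (l 16582616))) (a (c (l 16580192) (l 16577816)) (a (l 16570440) (l 16564432)))) (b (a (c (l 16564904) (l 16562200)) (c (l 16594000) (l 16549104)))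 (a (l 16591896) (c (l 16536840) (l 16533816))))) (a (b (b (l 16614648) (l 16597472)) (b (l 16580824) (c (l 16524560) (l 16520032)))) (b (b (l 16559720) (l 16542672)) (b (l 16526152) (l 16510184))))) (b (b (a (a (l 16579040) (l 16564000)) (a (c (l 16509360) (l 16505168)) (l 6))) (l 6)) (l 6)))) (l 6)) (b (a (b (a (b (a (b (l 16545536) (l 16528672)) (b (l 16529696) (l 16513080))) (a (b (l 16512312) (l 16496496)) (c (l 16578528) (l 16566008)))) (b (a (b (l 16554088) (a (l 16500392) (l 16491584))) (b (a (l 16499120) (l 16491240)) (a (l 16483032) (l 16475072)))) (a (b (l 16480024) (l 6)) (l 6)))) (l 6)) (b (b (a (a (b (a (l 16483816) (l 16518880)) (a (l 16509616) (l 6))) (b (a (b (l 16474560) (l 16466064)) (b (l 16467768) (l 6))) (l 6))) (l 6)) (l 6)) (l 6))) (l 6))), by decide +kernel⟩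

theorem t144_A00pm_102_s1 : ∃ t, chk3 f_A00pm_102_s1 t 15 20 1 = true := ex3_b k139_A00pm_102_s1 k140_A00pm_102_s1

theorem t145_A00pm_102_s1 : ∃ t, chk3 f_A00pm_102_s1 t 15 10 1 = true := ex3_b t144_A00pm_102_s1 k141_A00pm_102_s1

theorem t146_A00pm_102_s1 : ∃ t, chk3 f_A00pm_102_s1 t 15 5 1 = true := ex3_b t145_A00pm_102_s1 k142_A00pm_102_s1

theorem t147_A00pm_102_s1 : ∃ t, chk3 f_A00pm_102_s1 t 14 41 1 = true := ex3_b k135_A00pm_102_s1 k136_A00pm_102_s1

theorem t148_A00pm_102_s1 : ∃ t, chk3 f_A00pm_102_s1 t 14 40 1 = true := ex3_a k133_A00pm_102_s1 k134_A00pm_102_s1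

theorem t149_A00pm_102_s1 : ∃ t, chk3 f_A00pm_102_s1 t 14 20 1 = true := ex3_b t148_A00pm_102_s1 t147_A00pm_102_s1

theorem t150_A00pm_102_s1 : ∃ t, chk3 f_A00pm_102_s1 t 14 10 1 = true := ex3_b t149_A00pm_102_s1 k137_A00pm_102_s1

theorem t151_A00pm_102_s1 : ∃ t, chk3 f_A00pm_102_s1 t 14 5 1 = true := ex3_b t150_A00pm_102_s1 k138_A00pm_102_s1

theorem t152_A00pm_102_s1 : ∃ t, chk3 f_A00pm_102_s1 t 7 5 1 = true := ex3_a t151_A00pm_102_s1 t146_A00pm_102_s1

theorem t153_A00pm_102_s1 : ∃ t, chk3 f_A00pm_102_s1 t 13 167 1 = true := ex3_a k129_A00pm_102_s1 k130_A00pm_102_s1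

theorem t154_A00pm_102_s1 : ∃ t, chk3 f_A00pm_102_s1 t 13 83 1 = true := ex3_b k128_A00pm_102_s1 t153_A00pm_102_s1

theorem t155_A00pm_102_s1 : ∃ t, chk3 f_A00pm_102_s1 t 12 83 1 = true := ex3_b k126_A00pm_102_s1 k127_A00pm_102_s1

theorem t156_A00pm_102_s1 : ∃ t, chk3 f_A00pm_102_s1 t 6 83 1 = true := ex3_a t155_A00pm_102_s1 t154_A00pm_102_s1

theorem t157_A00pm_102_s1 : ∃ t, chk3 f_A00pm_102_s1 t 55 82 1 = true := ex3_b k124_A00pm_102_s1 k125_A00pm_102_s1

theorem t158_A00pm_102_s1 : ∃ t, chk3 f_A00pm_102_s1 t 27 82 1 = true := ex3_a k123_A00pm_102_s1 t157_A00pm_102_s1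

theorem t159_A00pm_102_s1 : ∃ t, chk3 f_A00pm_102_s1 t 13 82 1 = true := ex3_a k122_A00pm_102_s1 t158_A00pm_102_s1

theorem t160_A00pm_102_s1 : ∃ t, chk3 f_A00pm_102_s1 t 24 165 1 = true := ex3_a k119_A00pm_102_s1 k120_A00pm_102_s1

theorem t161_A00pm_102_s1 : ∃ t, chk3 f_A00pm_102_s1 t 24 82 1 = true := ex3_b k118_A00pm_102_s1 t160_A00pm_102_s1

theorem t162_A00pm_102_s1 : ∃ t, chk3 f_A00pm_102_s1 t 12 82 1 = true := ex3_a t161_A00pm_102_s1 k121_A00pm_102_s1

theorem t163_A00pm_102_s1 : ∃ t, chk3 f_A00pm_102_s1 t 6 82 1 = true := ex3_a t162_A00pm_102_s1 t159_A00pm_102_s1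

theorem t164_A00pm_102_s1 : ∃ t, chk3 f_A00pm_102_s1 t 6 41 1 = true := ex3_b t163_A00pm_102_s1 t156_A00pm_102_s1

theorem t165_A00pm_102_s1 : ∃ t, chk3 f_A00pm_102_s1 t 12 80 1 = true := ex3_a k114_A00pm_102_s1 k115_A00pm_102_s1

theorem t166_A00pm_102_s1 : ∃ t, chk3 f_A00pm_102_s1 t 12 40 1 = true := ex3_b t165_A00pm_102_s1 k116_A00pm_102_s1

theorem t167_A00pm_102_s1 : ∃ t, chk3 f_A00pm_102_s1 t 6 40 1 = true := ex3_a t166_A00pm_102_s1 k117_A00pm_102_s1

theorem t168_A00pm_102_s1 : ∃ t, chk3 f_A00pm_102_s1 t 6 20 1 = true := ex3_b t167_A00pm_102_s1 t164_A00pm_102_s1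

theorem t169_A00pm_102_s1 : ∃ t, chk3 f_A00pm_102_s1 t 6 10 1 = true := ex3_b t168_A00pm_102_s1 k131_A00pm_102_s1

theorem t170_A00pm_102_s1 : ∃ t, chk3 f_A00pm_102_s1 t 6 5 1 = true := ex3_b t169_A00pm_102_s1 k132_A00pm_102_s1

theorem t171_A00pm_102_s1 : ∃ t, chk3 f_A00pm_102_s1 t 3 5 1 = true := ex3_a t170_A00pm_102_s1 t152_A00pm_102_s1

theorem t172_A00pm_102_s1 : ∃ t, chk3 f_A00pm_102_s1 t 30 36 1 = true := ex3_a k109_A00pm_102_s1 k110_A00pm_102_s1

theorem t173_A00pm_102_s1 : ∃ t, chk3 f_A00pm_102_s1 t 30 18 1 = true := ex3_b t172_A00pm_102_s1 k111_A00pm_102_s1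

theorem t174_A00pm_102_s1 : ∃ t, chk3 f_A00pm_102_s1 t 15 18 1 = true := ex3_a t173_A00pm_102_s1 k112_A00pm_102_s1

theorem t175_A00pm_102_s1 : ∃ t, chk3 f_A00pm_102_s1 t 15 9 1 = true := ex3_b t174_A00pm_102_s1 k113_A00pm_102_s1

theorem t176_A00pm_102_s1 : ∃ t, chk3 f_A00pm_102_s1 t 114 152 1 = true := ex3_a k102_A00pm_102_s1 k103_A00pm_102_s1

theorem t177_A00pm_102_s1 : ∃ t, chk3 f_A00pm_102_s1 t 114 76 1 = true := ex3_b t176_A00pm_102_s1 k104_A00pm_102_s1

theorem t178_A00pm_102_s1 : ∃ t, chk3 f_A00pm_102_s1 t 57 76 1 = true := ex3_a t177_A00pm_102_s1 k105_A00pm_102_s1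

theorem t179_A00pm_102_s1 : ∃ t, chk3 f_A00pm_102_s1 t 57 38 1 = true := ex3_b t178_A00pm_102_s1 k106_A00pm_102_s1

theorem t180_A00pm_102_s1 : ∃ t, chk3 f_A00pm_102_s1 t 112 154 1 = true := ex3_a k98_A00pm_102_s1 k99_A00pm_102_s1

theorem t181_A00pm_102_s1 : ∃ t, chk3 f_A00pm_102_s1 t 56 154 1 = true := ex3_a t180_A00pm_102_s1 k100_A00pm_102_s1

theorem t182_A00pm_102_s1 : ∃ t, chk3 f_A00pm_102_s1 t 56 77 1 = true := ex3_b t181_A00pm_102_s1 k101_A00pm_102_s1

theorem t183_A00pm_102_s1 : ∃ t, chk3 f_A00pm_102_s1 t 113 153 1 = true := ex3_a k96_A00pm_102_s1 k97_A00pm_102_s1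

theorem t184_A00pm_102_s1 : ∃ t, chk3 f_A00pm_102_s1 t 113 76 1 = true := ex3_b k95_A00pm_102_s1 t183_A00pm_102_s1

theorem t185_A00pm_102_s1 : ∃ t, chk3 f_A00pm_102_s1 t 56 76 1 = true := ex3_a k94_A00pm_102_s1 t184_A00pm_102_s1

theorem t186_A00pm_102_s1 : ∃ t, chk3 f_A00pm_102_s1 t 56 38 1 = true := ex3_b t185_A00pm_102_s1 t182_A00pm_102_s1

theorem t187_A00pm_102_s1 : ∃ t, chk3 f_A00pm_102_s1 t 28 38 1 = true := ex3_a t186_A00pm_102_s1 t179_A00pm_102_s1

theorem t188_A00pm_102_s1 : ∃ t, chk3 f_A00pm_102_s1 t 28 19 1 = true := ex3_b t187_A00pm_102_s1 k107_A00pm_102_s1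

theorem t189_A00pm_102_s1 : ∃ t, chk3 f_A00pm_102_s1 t 14 19 1 = true := ex3_a t188_A00pm_102_s1 k108_A00pm_102_s1

theorem t190_A00pm_102_s1 : ∃ t, chk3 f_A00pm_102_s1 t 58 75 1 = true := ex3_a k91_A00pm_102_s1 k92_A00pm_102_s1

theorem t191_A00pm_102_s1 : ∃ t, chk3 f_A00pm_102_s1 t 58 74 1 = true := ex3_a k89_A00pm_102_s1 k90_A00pm_102_s1

theorem t192_A00pm_102_s1 : ∃ t, chk3 f_A00pm_102_s1 t 58 37 1 = true := ex3_b t191_A00pm_102_s1 t190_A00pm_102_s1

theorem t193_A00pm_102_s1 : ∃ t, chk3 f_A00pm_102_s1 t 29 37 1 = true := ex3_a t192_A00pm_102_s1 k93_A00pm_102_s1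

theorem t194_A00pm_102_s1 : ∃ t, chk3 f_A00pm_102_s1 t 59 36 1 = true := ex3_b k87_A00pm_102_s1 k88_A00pm_102_s1

theorem t195_A00pm_102_s1 : ∃ t, chk3 f_A00pm_102_s1 t 29 36 1 = true := ex3_a k86_A00pm_102_s1 t194_A00pm_102_s1

theorem t196_A00pm_102_s1 : ∃ t, chk3 f_A00pm_102_s1 t 29 18 1 = true := ex3_b t195_A00pm_102_s1 t193_A00pm_102_s1

theorem t197_A00pm_102_s1 : ∃ t, chk3 f_A00pm_102_s1 t 115 151 1 = true := ex3_a k84_A00pm_102_s1 k85_A00pm_102_s1

theorem t198_A00pm_102_s1 : ∃ t, chk3 f_A00pm_102_s1 t 115 75 1 = true := ex3_b k83_A00pm_102_s1 t197_A00pm_102_s1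

theorem t199_A00pm_102_s1 : ∃ t, chk3 f_A00pm_102_s1 t 57 75 1 = true := ex3_a k82_A00pm_102_s1 t198_A00pm_102_s1

theorem t200_A00pm_102_s1 : ∃ t, chk3 f_A00pm_102_s1 t 57 37 1 = true := ex3_b k81_A00pm_102_s1 t199_A00pm_102_s1

theorem t201_A00pm_102_s1 : ∃ t, chk3 f_A00pm_102_s1 t 28 37 1 = true := ex3_a k80_A00pm_102_s1 t200_A00pm_102_s1

theorem t202_A00pm_102_s1 : ∃ t, chk3 f_A00pm_102_s1 t 28 18 1 = true := ex3_b k79_A00pm_102_s1 t201_A00pm_102_s1

theorem t203_A00pm_102_s1 : ∃ t, chk3 f_A00pm_102_s1 t 14 18 1 = true := ex3_a t202_A00pm_102_s1 t196_A00pm_102_s1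

theorem t204_A00pm_102_s1 : ∃ t, chk3 f_A00pm_102_s1 t 14 9 1 = true := ex3_b t203_A00pm_102_s1 t189_A00pm_102_s1

theorem t205_A00pm_102_s1 : ∃ t, chk3 f_A00pm_102_s1 t 7 9 1 = true := ex3_a t204_A00pm_102_s1 t175_A00pm_102_s1

theorem t206_A00pm_102_s1 : ∃ t, chk3 f_A00pm_102_s1 t 124 35 1 = true := ex3_b k75_A00pm_102_s1 k76_A00pm_102_s1

theorem t207_A00pm_102_s1 : ∃ t, chk3 f_A00pm_102_s1 t 62 35 1 = true := ex3_a t206_A00pm_102_s1 k77_A00pm_102_s1

theorem t208_A00pm_102_s1 : ∃ t, chk3 f_A00pm_102_s1 t 124 69 1 = true := ex3_a k72_A00pm_102_s1 k73_A00pm_102_s1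

theorem t209_A00pm_102_s1 : ∃ t, chk3 f_A00pm_102_s1 t 62 69 1 = true := ex3_a t208_A00pm_102_s1 k74_A00pm_102_s1

theorem t210_A00pm_102_s1 : ∃ t, chk3 f_A00pm_102_s1 t 124 137 1 = true := ex3_a k69_A00pm_102_s1 k70_A00pm_102_s1

theorem t211_A00pm_102_s1 : ∃ t, chk3 f_A00pm_102_s1 t 248 136 1 = true := ex3_b k66_A00pm_102_s1 k67_A00pm_102_s1

theorem t212_A00pm_102_s1 : ∃ t, chk3 f_A00pm_102_s1 t 124 136 1 = true := ex3_a t211_A00pm_102_s1 k68_A00pm_102_s1

theorem t213_A00pm_102_s1 : ∃ t, chk3 f_A00pm_102_s1 t 124 68 1 = true := ex3_b t212_A00pm_102_s1 t210_A00pm_102_s1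

theorem t214_A00pm_102_s1 : ∃ t, chk3 f_A00pm_102_s1 t 62 68 1 = true := ex3_a t213_A00pm_102_s1 k71_A00pm_102_s1

theorem t215_A00pm_102_s1 : ∃ t, chk3 f_A00pm_102_s1 t 62 34 1 = true := ex3_b t214_A00pm_102_s1 t209_A00pm_102_s1

theorem t216_A00pm_102_s1 : ∃ t, chk3 f_A00pm_102_s1 t 62 17 1 = true := ex3_b t215_A00pm_102_s1 t207_A00pm_102_s1

theorem t217_A00pm_102_s1 : ∃ t, chk3 f_A00pm_102_s1 t 31 17 1 = true := ex3_a t216_A00pm_102_s1 k78_A00pm_102_s1

theorem t218_A00pm_102_s1 : ∃ t, chk3 f_A00pm_102_s1 t 123 35 1 = true := ex3_b k64_A00pm_102_s1 k65_A00pm_102_s1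

theorem t219_A00pm_102_s1 : ∃ t, chk3 f_A00pm_102_s1 t 61 35 1 = true := ex3_a k63_A00pm_102_s1 t218_A00pm_102_s1

theorem t220_A00pm_102_s1 : ∃ t, chk3 f_A00pm_102_s1 t 60 71 1 = true := ex3_a k61_A00pm_102_s1 k62_A00pm_102_s1

theorem t221_A00pm_102_s1 : ∃ t, chk3 f_A00pm_102_s1 t 60 35 1 = true := ex3_b k60_A00pm_102_s1 t220_A00pm_102_s1

theorem t222_A00pm_102_s1 : ∃ t, chk3 f_A00pm_102_s1 t 30 35 1 = true := ex3_a t221_A00pm_102_s1 t219_A00pm_102_s1

theorem t223_A00pm_102_s1 : ∃ t, chk3 f_A00pm_102_s1 t 123 69 1 = true := ex3_a k58_A00pm_102_s1 k59_A00pm_102_s1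

theorem t224_A00pm_102_s1 : ∃ t, chk3 f_A00pm_102_s1 t 61 69 1 = true := ex3_a k57_A00pm_102_s1 t223_A00pm_102_s1

theorem t225_A00pm_102_s1 : ∃ t, chk3 f_A00pm_102_s1 t 247 137 1 = true := ex3_b k55_A00pm_102_s1 k56_A00pm_102_s1

theorem t226_A00pm_102_s1 : ∃ t, chk3 f_A00pm_102_s1 t 123 137 1 = true := ex3_a k54_A00pm_102_s1 t225_A00pm_102_s1

theorem t227_A00pm_102_s1 : ∃ t, chk3 f_A00pm_102_s1 t 123 68 1 = true := ex3_b k53_A00pm_102_s1 t226_A00pm_102_s1

theorem t228_A00pm_102_s1 : ∃ t, chk3 f_A00pm_102_s1 t 61 68 1 = true := ex3_a k52_A00pm_102_s1 t227_A00pm_102_s1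

theorem t229_A00pm_102_s1 : ∃ t, chk3 f_A00pm_102_s1 t 61 34 1 = true := ex3_b t228_A00pm_102_s1 t224_A00pm_102_s1

theorem t230_A00pm_102_s1 : ∃ t, chk3 f_A00pm_102_s1 t 30 34 1 = true := ex3_a k51_A00pm_102_s1 t229_A00pm_102_s1

theorem t231_A00pm_102_s1 : ∃ t, chk3 f_A00pm_102_s1 t 30 17 1 = true := ex3_b t230_A00pm_102_s1 t222_A00pm_102_s1

theorem t232_A00pm_102_s1 : ∃ t, chk3 f_A00pm_102_s1 t 15 17 1 = true := ex3_a t231_A00pm_102_s1 t217_A00pm_102_s1

theorem t233_A00pm_102_s1 : ∃ t, chk3 f_A00pm_102_s1 t 15 8 1 = true := ex3_b k50_A00pm_102_s1 t232_A00pm_102_s1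

theorem t234_A00pm_102_s1 : ∃ t, chk3 f_A00pm_102_s1 t 7 8 1 = true := ex3_a k49_A00pm_102_s1 t233_A00pm_102_s1

theorem t235_A00pm_102_s1 : ∃ t, chk3 f_A00pm_102_s1 t 7 4 1 = true := ex3_b t234_A00pm_102_s1 t205_A00pm_102_s1

theorem t236_A00pm_102_s1 : ∃ t, chk3 f_A00pm_102_s1 t 55 78 1 = true := ex3_b k46_A00pm_102_s1 k47_A00pm_102_s1

theorem t237_A00pm_102_s1 : ∃ t, chk3 f_A00pm_102_s1 t 27 78 1 = true := ex3_a k45_A00pm_102_s1 t236_A00pm_102_s1

theorem t238_A00pm_102_s1 : ∃ t, chk3 f_A00pm_102_s1 t 27 39 1 = true := ex3_b t237_A00pm_102_s1 k48_A00pm_102_s1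

theorem t239_A00pm_102_s1 : ∃ t, chk3 f_A00pm_102_s1 t 13 39 1 = true := ex3_a k44_A00pm_102_s1 t238_A00pm_102_s1

theorem t240_A00pm_102_s1 : ∃ t, chk3 f_A00pm_102_s1 t 111 77 1 = true := ex3_b k42_A00pm_102_s1 k43_A00pm_102_s1

theorem t241_A00pm_102_s1 : ∃ t, chk3 f_A00pm_102_s1 t 55 77 1 = true := ex3_a k41_A00pm_102_s1 t240_A00pm_102_s1

theorem t242_A00pm_102_s1 : ∃ t, chk3 f_A00pm_102_s1 t 27 77 1 = true := ex3_a k40_A00pm_102_s1 t241_A00pm_102_s1

theorem t243_A00pm_102_s1 : ∃ t, chk3 f_A00pm_102_s1 t 27 38 1 = true := ex3_b k39_A00pm_102_s1 t242_A00pm_102_s1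

theorem t244_A00pm_102_s1 : ∃ t, chk3 f_A00pm_102_s1 t 13 38 1 = true := ex3_a k38_A00pm_102_s1 t243_A00pm_102_s1

theorem t245_A00pm_102_s1 : ∃ t, chk3 f_A00pm_102_s1 t 13 19 1 = true := ex3_b t244_A00pm_102_s1 t239_A00pm_102_s1

theorem t246_A00pm_102_s1 : ∃ t, chk3 f_A00pm_102_s1 t 13 9 1 = true := ex3_b k37_A00pm_102_s1 t245_A00pm_102_s1

theorem t247_A00pm_102_s1 : ∃ t, chk3 f_A00pm_102_s1 t 50 79 1 = true := ex3_c k34_A00pm_102_s1 k35_A00pm_102_s1

theorem t248_A00pm_102_s1 : ∃ t, chk3 f_A00pm_102_s1 t 25 79 1 = true := ex3_a t247_A00pm_102_s1 k36_A00pm_102_s1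

theorem t249_A00pm_102_s1 : ∃ t, chk3 f_A00pm_102_s1 t 25 39 1 = true := ex3_b k33_A00pm_102_s1 t248_A00pm_102_s1

theorem t250_A00pm_102_s1 : ∃ t, chk3 f_A00pm_102_s1 t 12 39 1 = true := ex3_a k32_A00pm_102_s1 t249_A00pm_102_s1

theorem t251_A00pm_102_s1 : ∃ t, chk3 f_A00pm_102_s1 t 12 19 1 = true := ex3_b k31_A00pm_102_s1 t250_A00pm_102_s1

theorem t252_A00pm_102_s1 : ∃ t, chk3 f_A00pm_102_s1 t 12 9 1 = true := ex3_b k30_A00pm_102_s1 t251_A00pm_102_s1

theorem t253_A00pm_102_s1 : ∃ t, chk3 f_A00pm_102_s1 t 6 9 1 = true := ex3_a t252_A00pm_102_s1 t246_A00pm_102_s1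

theorem t254_A00pm_102_s1 : ∃ t, chk3 f_A00pm_102_s1 t 6 4 1 = true := ex3_b k29_A00pm_102_s1 t253_A00pm_102_s1

theorem t255_A00pm_102_s1 : ∃ t, chk3 f_A00pm_102_s1 t 3 4 1 = true := ex3_a t254_A00pm_102_s1 t235_A00pm_102_s1

theorem t256_A00pm_102_s1 : ∃ t, chk3 f_A00pm_102_s1 t 3 2 1 = true := ex3_b t255_A00pm_102_s1 t171_A00pm_102_s1

theorem t257_A00pm_102_s1 : ∃ t, chk3 f_A00pm_102_s1 t 3 1 1 = true := ex3_b t256_A00pm_102_s1 k143_A00pm_102_s1

theorem t258_A00pm_102_s1 : ∃ t, chk3 f_A00pm_102_s1 t 11 21 1 = true := ex3_a k25_A00pm_102_s1 k26_A00pm_102_s1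

theorem t259_A00pm_102_s1 : ∃ t, chk3 f_A00pm_102_s1 t 5 21 1 = true := ex3_a k24_A00pm_102_s1 t258_A00pm_102_s1

theorem t260_A00pm_102_s1 : ∃ t, chk3 f_A00pm_102_s1 t 2 21 1 = true := ex3_a k23_A00pm_102_s1 t259_A00pm_102_s1

theorem t261_A00pm_102_s1 : ∃ t, chk3 f_A00pm_102_s1 t 11 1341 1 = true := ex3_b k20_A00pm_102_s1 k21_A00pm_102_s1

theorem t262_A00pm_102_s1 : ∃ t, chk3 f_A00pm_102_s1 t 11 1340 1 = true := ex3_a k18_A00pm_102_s1 k19_A00pm_102_s1

theorem t263_A00pm_102_s1 : ∃ t, chk3 f_A00pm_102_s1 t 11 670 1 = true := ex3_b t262_A00pm_102_s1 t261_A00pm_102_s1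

theorem t264_A00pm_102_s1 : ∃ t, chk3 f_A00pm_102_s1 t 11 335 1 = true := ex3_b t263_A00pm_102_s1 k22_A00pm_102_s1

theorem t265_A00pm_102_s1 : ∃ t, chk3 f_A00pm_102_s1 t 11 334 1 = true := ex3_b k16_A00pm_102_s1 k17_A00pm_102_s1

theorem t266_A00pm_102_s1 : ∃ t, chk3 f_A00pm_102_s1 t 11 167 1 = true := ex3_b t265_A00pm_102_s1 t264_A00pm_102_s1

theorem t267_A00pm_102_s1 : ∃ t, chk3 f_A00pm_102_s1 t 11 166 1 = true := ex3_b k14_A00pm_102_s1 k15_A00pm_102_s1

theorem t268_A00pm_102_s1 : ∃ t, chk3 f_A00pm_102_s1 t 11 83 1 = true := ex3_b t267_A00pm_102_s1 t266_A00pm_102_s1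

theorem t269_A00pm_102_s1 : ∃ t, chk3 f_A00pm_102_s1 t 22 82 1 = true := ex3_b k11_A00pm_102_s1 k12_A00pm_102_s1

theorem t270_A00pm_102_s1 : ∃ t, chk3 f_A00pm_102_s1 t 11 82 1 = true := ex3_a t269_A00pm_102_s1 k13_A00pm_102_s1

theorem t271_A00pm_102_s1 : ∃ t, chk3 f_A00pm_102_s1 t 11 41 1 = true := ex3_b t270_A00pm_102_s1 t268_A00pm_102_s1

theorem t272_A00pm_102_s1 : ∃ t, chk3 f_A00pm_102_s1 t 21 83 3 = true := ex3_a k9_A00pm_102_s1 k10_A00pm_102_s1

theorem t273_A00pm_102_s1 : ∃ t, chk3 f_A00pm_102_s1 t 21 41 3 = true := ex3_b k8_A00pm_102_s1 t272_A00pm_102_s1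

theorem t274_A00pm_102_s1 : ∃ t, chk3 f_A00pm_102_s1 t 43 83 2 = true := ex3_b k6_A00pm_102_s1 k7_A00pm_102_s1

theorem t275_A00pm_102_s1 : ∃ t, chk3 f_A00pm_102_s1 t 21 83 2 = true := ex3_a k5_A00pm_102_s1 t274_A00pm_102_s1

theorem t276_A00pm_102_s1 : ∃ t, chk3 f_A00pm_102_s1 t 21 41 2 = true := ex3_b k4_A00pm_102_s1 t275_A00pm_102_s1

theorem t277_A00pm_102_s1 : ∃ t, chk3 f_A00pm_102_s1 t 21 41 1 = true := ex3_c t276_A00pm_102_s1 t273_A00pm_102_s1

theorem t278_A00pm_102_s1 : ∃ t, chk3 f_A00pm_102_s1 t 10 41 1 = true := ex3_a k3_A00pm_102_s1 t277_A00pm_102_s1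

theorem t279_A00pm_102_s1 : ∃ t, chk3 f_A00pm_102_s1 t 5 41 1 = true := ex3_a t278_A00pm_102_s1 t271_A00pm_102_s1

theorem t280_A00pm_102_s1 : ∃ t, chk3 f_A00pm_102_s1 t 2 41 1 = true := ex3_a k2_A00pm_102_s1 t279_A00pm_102_s1

theorem t281_A00pm_102_s1 : ∃ t, chk3 f_A00pm_102_s1 t 2 20 1 = true := ex3_b k1_A00pm_102_s1 t280_A00pm_102_s1

theorem t282_A00pm_102_s1 : ∃ t, chk3 f_A00pm_102_s1 t 2 10 1 = true := ex3_b t281_A00pm_102_s1 t260_A00pm_102_s1

theorem t283_A00pm_102_s1 : ∃ t, chk3 f_A00pm_102_s1 t 2 5 1 = true := ex3_b t282_A00pm_102_s1 k27_A00pm_102_s1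

theorem t284_A00pm_102_s1 : ∃ t, chk3 f_A00pm_102_s1 t 2 2 1 = true := ex3_b k0_A00pm_102_s1 t283_A00pm_102_s1

theorem t285_A00pm_102_s1 : ∃ t, chk3 f_A00pm_102_s1 t 2 1 1 = true := ex3_b t284_A00pm_102_s1 k28_A00pm_102_s1

theorem t286_A00pm_102_s1 : ∃ t, chk3 f_A00pm_102_s1 t 1 1 1 = true := ex3_a t285_A00pm_102_s1 t257_A00pm_102_s1

theorem c_A00pm_102_s1 : CertF 536870912 536870912 0 536870912 780900216 37827925 true true false .npp 1 0 2
    ndB0q1 ndB0q0 pcB2 cut_A00pm_102_s1 xt_A00pm_102_s1 :=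
  certF1 (fam := true) (s1 := true) (s2 := false) (a := 1) (b := 0) (c := 2) (cn := .npp) (n1 := ndB0q1) (n2 := ndB0q0) (pc := pcB2) (cut := cut_A00pm_102_s1) (xt := xt_A00pm_102_s1) (P1 := 536870912) (W1 := 536870912) (P2 := 0) (W2 := 536870912) (P3 := 780900216) (W3 := 37827925)
    rfl (fun _ => rfl) t286_A00pm_102_s1

theorem s_A00pm_102_s1 {κ x : ℝ} (hκ : κ * h0 = ken x) (hx : ((780900216 : ℕ) : ℝ) / S ≤ x)
    (hx' : x ≤ (((780900216 : ℕ) : ℝ) + (37827925 : ℕ)) / S)
    (H : CutA (VFD κ) PP tK tL pcB (Cut.of [[⟨0, 1, 0, 67108864⟩, ⟨1, 0, 0, 67108864⟩, ⟨2, 1, 0, 67108864⟩]]) 1 0 2 0 0 (sgb true) (sgb false) x) :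
    AltA (VFD κ) PP tK tL pcB [⟨3, 0, 0, 1449551462⟩] 1 0 2 0 0 (sgb true) (sgb false) x :=
  strip_altAD (m := 1449551462) true rfl hκ (SH.κ0 hκ (SH.hx1 hx).le (SH.hx2 hx').le) (SH.hx1 hx).le (SH.hx2 hx') (covB01).cov (covB00).cov hx hx' c_A00pm_102_s1 H ((okx hx hx').extA (T := tt) (sideB hx hx') hκ rfl rfl (.O 1 true) (.O 0 false) rfl)

end Pool.Agent.Strip051.G.I72727_7625.Tab.St.C
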