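import Pool.Agent.Strip051.G.I72727_7625.StH
import Pool.Agent.Strip051.G.I72727_7625.StF

/-! # Unit strips 4 (generated) -/

set_option linter.all false
set_option maxRecDepth 100000

namespace Pool.Agent.Strip051.G.I72727_7625.Tab.St.C

open Pool.Agent.Strip051.PB Pool.Agent.Strip051.PB.T Pool.Agent.StripNear Pool.Agent.Strip051.LC
open Pool.Agent.Strip051.G.I72727_7625.Tab Pool.Agent.Strip051.G.I72727_7625.Tab.St

noncomputable def cut_A00pm_102_s3 : Cut := Cut.of [[⟨3, 0, 0, 2845415833⟩], [⟨0, 1, 0, 67108864⟩, ⟨1, 0, 0, 67108864⟩, ⟨2, 1, 0, 67108864⟩]]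

noncomputable def f_A00pm_102_s3 : ℕ → ℕ → ℕ → ℕ → Bool := onCell 536870912 536870912 0 536870912 780900216 37827925
    (rowF 0 true true false .npp 1 0 2 (qsf 536870912 536870912 0 536870912 2) ndB0q1 ndB0q0 pcB2 cut_A00pm_102_s3 Ext.none)

def k0_A00pm_102_s3 : ∃ t, chk3 f_A00pm_102_s3 t 1 1 1 = true :=
  ⟨(l 6), by decide +kernel⟩

theorem c_A00pm_102_s3 : CertF 536870912 536870912 0 536870912 780900216 37827925 true true false .npp 1 0 2
    ndB0q1 ndB0q0 pcB2 cut_A00pm_102_s3 Ext.none :=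
  certF0 (fam := true) (s1 := true) (s2 := false) (a := 1) (b := 0) (c := 2) (cn := .npp) (n1 := ndB0q1) (n2 := ndB0q0) (pc := pcB2) (cut := cut_A00pm_102_s3) (xt := Ext.none) (P1 := 536870912) (W1 := 536870912) (P2 := 0) (W2 := 536870912) (P3 := 780900216) (W3 := 37827925)
    rfl k0_A00pm_102_s3

theorem s_A00pm_102_s3 {κ x : ℝ} (hκ : κ * h0 = ken x) (hx : ((780900216 : ℕ) : ℝ) / S ≤ x)
    (hx' : x ≤ (((780900216 : ℕ) : ℝ) + (37827925 : ℕ)) / S)
    (H : CutA (VFD κ) PP tK tL pcB (Cut.of [[⟨0, 1, 0, 67108864⟩, ⟨1, 0, 0, 67108864⟩, ⟨2, 1, 0, 67108864⟩]]) 1 0 2 0 0 (sgb true) (sgb false) x) :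
    AltA (VFD κ) PP tK tL pcB [⟨4, 0, 0, 2845415833⟩] 1 0 2 0 0 (sgb true) (sgb false) x :=
  strip_altAD (m := 2845415833) false rfl hκ (SH.κ0 hκ (SH.hx1 hx).le (SH.hx2 hx').le) (SH.hx1 hx).le (SH.hx2 hx') (covB01).cov (covB00).cov hx hx' c_A00pm_102_s3 H (noExt_A)

noncomputable def cut_A00pm_112_s1 : Cut := Cut.of [[⟨4, 0, 0, 1449551462⟩]]

noncomputable def xt_A00pm_112_s1 : Ext := strExt dd true true false .u0 .u0m .u2 .dn 1 1 2 rfl rfl gf2 vv ndB0q1 ndB0q1

noncomputable def f_A00pm_112_s1 : ℕ → ℕ → ℕ → ℕ → Bool := onCell 536870912 536870912 1073741824 536870912 780900216 37827925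
    (rowF 1 true true false .dn 1 1 2 (qsf 536870912 536870912 536870912 536870912 2) ndB0q1 ndB0q1 pcB2 cut_A00pm_112_s1 xt_A00pm_112_s1)

def k0_A00pm_112_s1 : ∃ t, chk3 f_A00pm_112_s1 t 2 4 1 = true :=
  ⟨(b (l 3) (l 3)), by decide +kernel⟩

def k1_A00pm_112_s1 : ∃ t, chk3 f_A00pm_112_s1 t 2 40 1 = true :=
  ⟨(a (l 3) (a (l 3) (l 1))), by decide +kernel⟩

def k2_A00pm_112_s1 : ∃ t, chk3 f_A00pm_112_s1 t 4 82 1 = true :=
  ⟨(l 3), by decide +kernel⟩

def k3_A00pm_112_s1 : ∃ t, chk3 f_A00pm_112_s1 t 4 166 1 = true :=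
  ⟨(b (l 3) (c (a (a (a (b (l 3) (a (b (l 533262719) (l 533310847)) (b (l 3) (b (l 533505663) (a (l 533465471) (l 533556351)))))) (l 3)) (l 3)) (l 3)) (a (a (a (b (l 3) (b (a (l 533043583) (l 3)) (a (l 533074303) (b (l 533242751) (a (l 533203327) (l 533280127)))))) (l 3)) (l 3)) (l 3)))), by decide +kernel⟩

def k4_A00pm_112_s1 : ∃ t, chk3 f_A00pm_112_s1 t 8 167 1 = true :=
  ⟨(a (a (b (a (b (b (b (l 533214591) (l 533222783)) (b (l 533225599) (l 533226111))) (b (b (l 533225599) (l 533224063)) (b (l 533222271) (l 533221503)))) (b (b (b (a (l 533618447) (l 534226047)) (a (l 533347455) (l 533419647))) (a (l 533345407) (l 533417599))) (b (a (l 533340543) (l 533414015)) (b (l 533389695) (l 533388671))))) (b (b (a (a (l 16773872) (c (l 16774392) (l 16774184))) (a (a (l 16774584) (l 16774768)) (a (l 16774944) (l 16775104)))) (b (b (a (a (l 16773528) (l 16773960)) (a (l 16774352) (l 16774704))) (b (a (a (l 16773424) (l 16773856)) (a (l 16774248) (l 16774608))) (b (a (a (l 16773376)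 (l 16773808)) (a (l 16774200) (l 16774560))) (a (a (l 16773344) (l 16773776)) (a (l 16774168) (l 16774528)))))) (a (a (l 16773184) (l 16773624)) (a (l 16774016) (l 16774384))))) (b (a (a (l 16772768) (l 16773216)) (a (l 16773624) (l 16774000))) (a (a (l 16772216) (l 16772672)) (a (l 16773096) (l 16773480)))))) (b (b (l 533461055) (l 533457215)) (b (b (l 533456431) (b (b (l 533456943) (b (l 533457199) (b (l 533457199) (a (a (l 16774840) (l 16775104)) (a (l 16775360) (l 16775592)))))) (l 533450847))) (a (a (l 16774064) (l 16774336)) (l 533466975))))) (b (b (l 3) (l 533523775)) (b (b (l 533524015) (b (b (l 533524783) (b (l 533524783) (b (l 533525039) (a (a (a (l 16775800) (l 16775992)) (a (l 16776160) (a (l 16776280) (l 16776352)))) (a (a (a (l 16776424) (l 16776488)) (a (l 16776544) (l 16776600))) (a (a (l 16776648) (l 16776696)) (a (l 16776736) (l 16776776)))))))) (l 533523039))) (l 533524319)))), by decide +kernel⟩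

def k5_A00pm_112_s1 : ∃ t, chk3 f_A00pm_112_s1 t 9 167 1 = true :=
  ⟨(b (a (l 3) (b (l 3) (l 533517903))) (b (b (l 533539887) (b (b (l 533541167) (b (l 533541423) (b (l 533541679) (a (a (a (a (a (l 16776808) (l 16776832)) (a (l 16776856) (l 16776880))) (a (a (l 16776896) (l 16776904)) (a (l 16776912) (l 16776920)))) (a (a (a (l 16776912) (l 16776912)) (a (l 16776896) (l 16776888))) (a (a (l 16776864) (l 16776848)) (a (l 16776816) (l 16776784))))) (a (a (a (a (l 16776752) (l 16776712)) (a (l 16776664) (l 16776616))) (a (a (l 16776568) (l 16776512)) (a (l 16776448) (l 16776376)))) (a (a (a (l 16776312) (l 16776232)) (l 16776112)) (a (l 16775936) (l 16775736)))))))) (a (l 533558879) (l 533519967)))) (a (l 533560671) (l 533522527)))), by decide +kernel⟩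

def k6_A00pm_112_s1 : ∃ t, chk3 f_A00pm_112_s1 t 20 82 1 = true :=
  ⟨(l 3), by decide +kernel⟩

def k7_A00pm_112_s1 : ∃ t, chk3 f_A00pm_112_s1 t 20 83 2 = true :=
  ⟨(a (b (b (l 3) (a (l 3) (b (l 3) (a (l 3) (b (l 3) (l 533807903)))))) (b (a (l 533601871) (a (l 533579343) (b (b (b (l 533560975) (l 533561487)) (l 533563023)) (b (l 533564047) (l 533564815))))) (b (b (a (l 533601839) (a (l 16775544) (l 16775272))) (b (b (a (l 533603375) (a (l 16775264) (l 16775000))) (b (a (l 533603631) (a (l 16775184) (l 16774912))) (b (a (l 533603887) (a (l 16775136) (l 16774872))) (a (a (l 16775584) (l 16775360)) (a (l 16775112) (l 16774840)))))) (a (l 533594463) (a (l 16774984) (l 16774712))))) (a (l 533597535) (a (l 16774416) (l 16774152)))))) (b (b (l 3) (b (b (l 3) (l 533170575)) (b (l 533241743) (l 534108815)))) (b (b (b (b (a (l 533434255) (l 533240975)) (a (l 533444495) (l 533260687))) (a (b (l 533452431) (l 533455759)) (l 533278351))) (b (a (l 533459087) (a (l 16775168) (l 16774752)))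 (b (b (l 533380495) (l 533381775)) (a (l 533464463) (l 533303183))))) (a (a (b (b (l 16774968) (l 16774512)) (l 16773824)) (b (b (l 16774608) (l 16774152)) (l 16773448))) (a (b (l 16776608) (l 16773040)) (b (l 16776176) (l 16772592))))))), by decide +kernel⟩

def k8_A00pm_112_s1 : ∃ t, chk3 f_A00pm_112_s1 t 20 83 3 = true :=
  ⟨(a (b (b (l 3) (a (l 3) (b (l 3) (a (l 3) (b (l 3) (l 533269023)))))) (b (a (l 533323855) (b (a (l 533301839) (b (b (l 533283215) (l 533284495)) (l 533286799))) (b (l 533310095) (b (l 533311375) (l 533312911))))) (b (a (a (b (l 533333295) (l 16775432)) (b (l 16775672) (l 16775184))) (a (b (l 16775408) (l 16774920)) (b (l 16775112) (l 16774632)))) (a (l 533330015) (a (l 16774192) (l 16773904)))))) (b (b (l 3) (b (b (l 3) (l 532977039)) (b (l 533025935) (b (l 533056655) (l 533075855))))) (b (b (b (b (a (l 533173135) (l 533009039)) (a (l 533180559) (l 533022607))) (a (b (l 533186191) (l 533189519)) (l 533035151))) (b (a (l 533193103) (a (l 16775024)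 (l 16774592))) (b (b (l 533123727) (l 533125007)) (a (l 533198991) (l 533055119))))) (b (a (a (b (l 16774792) (l 16774296)) (b (l 16774416) (l 16773912))) (a (l 16776376) (l 16775928))) (a (a (l 16773560) (l 16773168)) (a (l 16772744) (l 16772280))))))), by decide +kernel⟩

def k9_A00pm_112_s1 : ∃ t, chk3 f_A00pm_112_s1 t 21 41 1 = true :=
  ⟨(a (a (a (b (l 1) (b (l 1) (a (b (l 1) (l 64458059831)) (l 1)))) (l 1)) (l 1)) (l 1)), by decide +kernel⟩

def k10_A00pm_112_s1 : ∃ t, chk3 f_A00pm_112_s1 t 11 41 1 = true :=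
  ⟨(l 1), by decide +kernel⟩

def k11_A00pm_112_s1 : ∃ t, chk3 f_A00pm_112_s1 t 2 21 1 = true :=
  ⟨(a (a (b (b (a (b (a (a (b (a (l 16770824) (l 16771312)) (l 16774104)) (a (b (l 16771768) (l 16769624)) (b (l 16772184) (l 16770088)))) (c (a (a (l 16776968) (l 16777280)) (l 533601887)) (a (a (l 16776536) (l 16776864)) (l 533335135)))) (a (a (l 16770736) (l 16771896)) (a (l 16772824) (l 16773504)))) (l 533531743)) (a (a (a (a (l 16758256) (l 16759016)) (l 16770576)) (a (l 16771816) (l 16772704))) (l 535152751))) (a (a (b (a (l 16749216) (l 16751072)) (a (l 16739472) (l 16741736))) (b (c (l 16775160) (l 16773504)) (l 16744640))) (a (b (l 533526383) (l 16747256)) (l 533589343)))) (a (l 533603679) (a (l 533599839) (l 533571167)))) (a (b (a (b (b (a (c (a (l 533609567) (a (l 16772168) (l 16771888))) (a (l 533341791) (a (l 16771760) (l 16771472)))) (c (a (a (l 16776792) (l 16771152)) (a (l 16770696) (l 16770208))) (a (a (l 16776360) (l 16775944)) (a (l 16770232) (l 16769736)))))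 (a (l 533750623) (a (l 16772624) (l 16771632)))) (a (l 533509727) (a (l 16772320) (l 16771232)))) (b (a (a (b (a (a (l 16769576) (l 16769304)) (l 58015606727)) (l 16770432)) (b (l 1) (l 16769096))) (l 1)) (a (a (a (l 16759768) (l 16759024)) (l 51036273351)) (a (l 57478720919) (l 1))))) (a (a (l 533565791) (a (l 16771888) (l 16770760))) (a (b (a (l 16751928) (l 16750208)) (l 16764704)) (b (a (l 16748248) (l 16767112)) (a (l 16740672) (l 16738296)))))) (a (b (l 1) (a (b (l 1) (l 51573118199)) (l 1))) (l 1)))), by decide +kernel⟩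

def k12_A00pm_112_s1 : ∃ t, chk3 f_A00pm_112_s1 t 2 11 1 = true :=
  ⟨(a (a (b (a (b (b (a (a (l 16729400) (l 16732080)) (l 16735592)) (a (l 16741448) (l 16726224))) (b (a (l 16751976) (l 16716544)) (a (l 16699336) (l 16706448)))) (a (b (l 16755760) (l 16717056)) (b (l 16758096) (l 16721048)))) (a (a (b (a (l 16680960) (l 16684960)) (c (l 16662672) (l 16658888))) (b (a (l 16689032) (l 16692856)) (l 16669592))) (b (a (l 16697904) (l 16703744)) (a (l 16677896) (l 16685024))))) (b (a (b (l 533670239) (l 533701743)) (b (l 533679455) (l 533735279))) (a (b (l 533719407) (a (l 16690944) (l 16694936))) (l 534880623)))) (a (a (a (b (l 533936239) (l 16787952)) (b (b (l 16778144) (l 16722480)) (l 16786520))) (a (b (b (l 16775032) (l 16719296)) (l 16741456)) (b (b (b (l 16753064) (l 16724920)) (l 16714544)) (b (l 16701160) (l 16688336))))) (b (a (a (b (b (l 53720586151) (l 40835669335)) (c (l 16751800) (l 16748456))) (b (a (l 49962493703) (l 1)) (a (l 16723912) (l 49962456311))))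 (b (l 1) (a (b (l 1) (l 49425546135)) (l 1)))) (a (b (a (l 16694712) (b (l 16690416) (l 16683632))) (a (l 16681752) (l 16673872))) (b (b (a (l 16682656) (l 1)) (a (l 16675552) (l 16667536))) (a (b (l 16668664) (l 16662072)) (b (l 16660232) (l 16653312)))))))), by decide +kernel⟩

def k13_A00pm_112_s1 : ∃ t, chk3 f_A00pm_112_s1 t 2 3 1 = true :=
  ⟨(a (b (b (a (a (b (b (a (c (l 16640384) (l 16636440)) (l 16647976)) (a (c (l 16617680) (l 16613696)) (l 16626032))) (a (b (c (l 16594688) (l 16590816)) (c (l 16570640) (l 16566936))) (b (l 16603744) (l 16623192)))) (b (b (a (l 16656992) (l 16665488)) (a (l 16635800) (l 16645080))) (a (b (l 16614272) (l 16592392)) (b (l 16624384) (l 16603328))))) (a (b (a (l 16747112) (l 16753384)) (a (b (l 16633856) (l 16613728)) (b (l 16642584) (l 16623344)))) (b (a (l 16674680) (l 16677224)) (a (l 16640936) (l 16646928))))) (b (a (a (a (b (c (l 16545352) (l 16541864)) (l 6)) (b (l 16599656) (l 16532936))) (a (b (l 16570288) (l 16547120)) (b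 (l 16581912) (l 16560256)))) (a (a (b (l 16593224) (l 16572344)) (b (l 16603848) (l 16584000))) (a (l 16604056) (l 16613384)))) (a (l 6) (l 6)))) (l 6)) (b (a (b (a (b (l 534448239) (a (l 16651488) (l 16652872))) (b (a (l 16674752) (l 16670056)) (a (l 16651600) (l 16647840)))) (b (a (a (l 16620904) (l 16625872)) (l 16711032)) (l 6))) (b (a (b (a (l 16663432) (b (l 16661368) (l 16649536))) (a (l 16641120) (l 16632992))) (b (b (a (l 16652616) (c (l 16645336) (l 16641032))) (a (l 16640592) (l 16631040))) (a (b (l 16629280) (l 16618704)) (b (l 16619464) (l 16608672))))) (b (a (a (l 16621112) (l 16613656)) (a (l 16604216) (l 16677896))) (l 6)))) (l 6))), by decide +kernel⟩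

def k14_A00pm_112_s1 : ∃ t, chk3 f_A00pm_112_s1 t 3 1 1 = true :=
  ⟨(b (a (b (l 1) (b (l 1) (a (b (l 1) (a (b (l 1) (a (c (l 16691448) (l 16646648)) (l 1))) (l 1))) (l 1)))) (l 1)) (a (b (b (a (b (a (b (a (c (l 16635704) (l 16632128)) (c (l 16626120) (l 16623160))) (a (l 16663024) (c (l 16612624) (l 16609032)))) (a (b (l 1) (c (l 16602336) (l 16599376))) (l 1))) (b (a (a (l 16609128) (l 16598432)) (a (c (l 16589120) (l 16585624)) (l 40835405143))) (a (a (l 16597992) (l 16586856)) (a (l 16575416) (l 25802993319))))) (a (b (l 1) (b (l 1) (a (l 29561063015) (l 1)))) (l 1))) (b (b (a (a (a (l 16587712) (l 16576144)) (a (l 16564200) (l 16593208))) (a (a (l 19360489959) (l 44056521847)) (l 1))) (a (a (a (l 16578328) (l 16566360)) (a (l 16553896) (l 16540376))) (l 6))) (l 6))) (l 6)) (b (a (b (l 1) (l 6)) (l 1)) (l 6)))), by decide +kernel⟩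

theorem t15_A00pm_112_s1 : ∃ t, chk3 f_A00pm_112_s1 t 20 83 1 = true := ex3_c k7_A00pm_112_s1 k8_A00pm_112_s1

theorem t16_A00pm_112_s1 : ∃ t, chk3 f_A00pm_112_s1 t 20 41 1 = true := ex3_b k6_A00pm_112_s1 t15_A00pm_112_s1

theorem t17_A00pm_112_s1 : ∃ t, chk3 f_A00pm_112_s1 t 10 41 1 = true := ex3_a t16_A00pm_112_s1 k9_A00pm_112_s1

theorem t18_A00pm_112_s1 : ∃ t, chk3 f_A00pm_112_s1 t 5 41 1 = true := ex3_a t17_A00pm_112_s1 k10_A00pm_112_s1

theorem t19_A00pm_112_s1 : ∃ t, chk3 f_A00pm_112_s1 t 4 167 1 = true := ex3_a k4_A00pm_112_s1 k5_A00pm_112_s1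

theorem t20_A00pm_112_s1 : ∃ t, chk3 f_A00pm_112_s1 t 4 83 1 = true := ex3_b k3_A00pm_112_s1 t19_A00pm_112_s1

theorem t21_A00pm_112_s1 : ∃ t, chk3 f_A00pm_112_s1 t 4 41 1 = true := ex3_b k2_A00pm_112_s1 t20_A00pm_112_s1

theorem t22_A00pm_112_s1 : ∃ t, chk3 f_A00pm_112_s1 t 2 41 1 = true := ex3_a t21_A00pm_112_s1 t18_A00pm_112_s1

theorem t23_A00pm_112_s1 : ∃ t, chk3 f_A00pm_112_s1 t 2 20 1 = true := ex3_b k1_A00pm_112_s1 t22_A00pm_112_s1

theorem t24_A00pm_112_s1 : ∃ t, chk3 f_A00pm_112_s1 t 2 10 1 = true := ex3_b t23_A00pm_112_s1 k11_A00pm_112_s1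

theorem t25_A00pm_112_s1 : ∃ t, chk3 f_A00pm_112_s1 t 2 5 1 = true := ex3_b t24_A00pm_112_s1 k12_A00pm_112_s1

theorem t26_A00pm_112_s1 : ∃ t, chk3 f_A00pm_112_s1 t 2 2 1 = true := ex3_b k0_A00pm_112_s1 t25_A00pm_112_s1

theorem t27_A00pm_112_s1 : ∃ t, chk3 f_A00pm_112_s1 t 2 1 1 = true := ex3_b t26_A00pm_112_s1 k13_A00pm_112_s1

theorem t28_A00pm_112_s1 : ∃ t, chk3 f_A00pm_112_s1 t 1 1 1 = true := ex3_a t27_A00pm_112_s1 k14_A00pm_112_s1

theorem c_A00pm_112_s1 : CertF 536870912 536870912 536870912 536870912 780900216 37827925 true true false .dn 1 1 2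
    ndB0q1 ndB0q1 pcB2 cut_A00pm_112_s1 xt_A00pm_112_s1 :=
  certF1 (fam := true) (s1 := true) (s2 := false) (a := 1) (b := 1) (c := 2) (cn := .dn) (n1 := ndB0q1) (n2 := ndB0q1) (pc := pcB2) (cut := cut_A00pm_112_s1) (xt := xt_A00pm_112_s1) (P1 := 536870912) (W1 := 536870912) (P2 := 536870912) (W2 := 536870912) (P3 := 780900216) (W3 := 37827925)
    rfl (fun _ => rfl) t28_A00pm_112_s1

theorem s_A00pm_112_s1 {κ x : ℝ} (hκ : κ * h0 = ken x) (hx : ((780900216 : ℕ) : ℝ) / S ≤ x)
    (hx' : x ≤ (((780900216 : ℕ) : ℝ) + (37827925 : ℕ)) / S) :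
    AltA (VFD κ) PP tK tL pcB [⟨3, 0, 0, 1449551462⟩] 1 1 2 0 0 (sgb true) (sgb false) x :=
  strip_altAD (m := 1449551462) true rfl hκ (SH.κ0 hκ (SH.hx1 hx).le (SH.hx2 hx').le) (SH.hx1 hx).le (SH.hx2 hx') (covB01).cov (covB01).cov hx hx' c_A00pm_112_s1 cutA_nil ((okx hx hx').extA (T := tt) (sideB hx hx') hκ rfl rfl (.O 1 true) (.O 1 false) rfl)

noncomputable def cut_A00pm_112_s3 : Cut := Cut.of [[⟨3, 0, 0, 2845415833⟩]]

noncomputable def f_A00pm_112_s3 : ℕ → ℕ → ℕ → ℕ → Bool := onCell 536870912 536870912 1073741824 536870912 780900216 37827925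
    (rowF 1 true true false .dn 1 1 2 (qsf 536870912 536870912 536870912 536870912 2) ndB0q1 ndB0q1 pcB2 cut_A00pm_112_s3 Ext.none)

def k0_A00pm_112_s3 : ∃ t, chk3 f_A00pm_112_s3 t 1 1 1 = true :=
  ⟨(l 6), by decide +kernel⟩

theorem c_A00pm_112_s3 : CertF 536870912 536870912 536870912 536870912 780900216 37827925 true true false .dn 1 1 2
    ndB0q1 ndB0q1 pcB2 cut_A00pm_112_s3 Ext.none :=
  certF1 (fam := true) (s1 := true) (s2 := false) (a := 1) (b := 1) (c := 2) (cn := .dn) (n1 := ndB0q1) (n2 := ndB0q1) (pc := pcB2) (cut := cut_A00pm_112_s3) (xt := Ext.none) (P1 := 536870912) (W1 := 536870912) (P2 := 536870912) (W2 := 536870912) (P3 := 780900216) (W3 := 37827925)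
    rfl (fun _ => rfl) k0_A00pm_112_s3

theorem s_A00pm_112_s3 {κ x : ℝ} (hκ : κ * h0 = ken x) (hx : ((780900216 : ℕ) : ℝ) / S ≤ x)
    (hx' : x ≤ (((780900216 : ℕ) : ℝ) + (37827925 : ℕ)) / S) :
    AltA (VFD κ) PP tK tL pcB [⟨4, 0, 0, 2845415833⟩] 1 1 2 0 0 (sgb true) (sgb false) x :=
  strip_altAD (m := 2845415833) false rfl hκ (SH.κ0 hκ (SH.hx1 hx).le (SH.hx2 hx').le) (SH.hx1 hx).le (SH.hx2 hx') (covB01).cov (covB01).cov hx hx' c_A00pm_112_s3 cutA_nil (noExt_A)

noncomputable def cut_A00pm_113_s1 : Cut := Cut.of [[⟨4, 0, 0, 1449551462⟩], [⟨0, 1, 0, 67108864⟩, ⟨1, 1, 0, 67108864⟩, ⟨2, 2, 0, 16777216⟩], [⟨0, 0, 1, 26214400⟩, ⟨1, 1, 0, 33554432⟩, ⟨2, 1, 1, 26214400⟩], [⟨0, 1, 0, 33554432⟩, ⟨1, 0, 1, 26214400⟩, ⟨2, 1, 1, 26214400⟩]]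

noncomputable def f_A00pm_113_s1 : ℕ → ℕ → ℕ → ℕ → Bool := onCell 536870912 536870912 1610612736 536870912 780900216 37827925
    (rowF 1 true true false .nn 1 1 3 (qsf 536870912 536870912 536870912 536870912 3) ndB0q1 ndB0q1 pcB3 cut_A00pm_113_s1 Ext.none)

def k0_A00pm_113_s1 : ∃ t, chk3 f_A00pm_113_s1 t 1 1 1 = true :=
  ⟨(b (a (b (l 6) (l 6)) (l 6)) (l 6)), by decide +kernel⟩

theorem c_A00pm_113_s1 : CertF 536870912 536870912 536870912 536870912 780900216 37827925 true true false .nn 1 1 3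
    ndB0q1 ndB0q1 pcB3 cut_A00pm_113_s1 Ext.none :=
  certF1 (fam := true) (s1 := true) (s2 := false) (a := 1) (b := 1) (c := 3) (cn := .nn) (n1 := ndB0q1) (n2 := ndB0q1) (pc := pcB3) (cut := cut_A00pm_113_s1) (xt := Ext.none) (P1 := 536870912) (W1 := 536870912) (P2 := 536870912) (W2 := 536870912) (P3 := 780900216) (W3 := 37827925)
    rfl (fun _ => rfl) k0_A00pm_113_s1

theorem s_A00pm_113_s1 {κ x : ℝ} (hκ : κ * h0 = ken x) (hx : ((780900216 : ℕ) : ℝ) / S ≤ x)
    (hx' : x ≤ (((780900216 : ℕ) : ℝ) + (37827925 : ℕ)) / S)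
    (H : CutA (VFD κ) PP tK tL pcB (Cut.of [[⟨0, 1, 0, 67108864⟩, ⟨1, 1, 0, 67108864⟩, ⟨2, 2, 0, 16777216⟩], [⟨0, 0, 1, 26214400⟩, ⟨1, 1, 0, 33554432⟩, ⟨2, 1, 1, 26214400⟩], [⟨0, 1, 0, 33554432⟩, ⟨1, 0, 1, 26214400⟩, ⟨2, 1, 1, 26214400⟩]]) 1 1 3 0 0 (sgb true) (sgb false) x) :
    AltA (VFD κ) PP tK tL pcB [⟨3, 0, 0, 1449551462⟩] 1 1 3 0 0 (sgb true) (sgb false) x :=
  strip_altAD (m := 1449551462) true rfl hκ (SH.κ0 hκ (SH.hx1 hx).le (SH.hx2 hx').le) (SH.hx1 hx).le (SH.hx2 hx') (covB01).cov (covB01).cov hx hx' c_A00pm_113_s1 H (noExt_A)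

noncomputable def cut_A00pm_113_s3 : Cut := Cut.of [[⟨3, 0, 0, 2845415833⟩], [⟨0, 1, 0, 67108864⟩, ⟨1, 1, 0, 67108864⟩, ⟨2, 2, 0, 16777216⟩], [⟨0, 0, 1, 26214400⟩, ⟨1, 1, 0, 33554432⟩, ⟨2, 1, 1, 26214400⟩], [⟨0, 1, 0, 33554432⟩, ⟨1, 0, 1, 26214400⟩, ⟨2, 1, 1, 26214400⟩]]

noncomputable def f_A00pm_113_s3 : ℕ → ℕ → ℕ → ℕ → Bool := onCell 536870912 536870912 536870912 536870912 780900216 37827925
    (rowF 0 true true false .nn 1 1 3 (qsf 536870912 536870912 536870912 536870912 3) ndB0q1 ndB0q1 pcB3 cut_A00pm_113_s3 Ext.none)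

def k0_A00pm_113_s3 : ∃ t, chk3 f_A00pm_113_s3 t 2 1 1 = true :=
  ⟨(l 6), by decide +kernel⟩

def k1_A00pm_113_s3 : ∃ t, chk3 f_A00pm_113_s3 t 3 2 1 = true :=
  ⟨(l 6), by decide +kernel⟩

def k2_A00pm_113_s3 : ∃ t, chk3 f_A00pm_113_s3 t 6 3 1 = true :=
  ⟨(b (l 6) (b (l 6) (a (l 6) (b (l 6) (b (l 6) (a (l 6) (b (l 6) (b (l 6) (a (l 6) (a (l 6) (a (l 16743472) (l 16747000)))))))))))), by decide +kernel⟩

def k3_A00pm_113_s3 : ∃ t, chk3 f_A00pm_113_s3 t 7 6 1 = true :=
  ⟨(a (l 6) (b (l 6) (a (l 6) (a (l 6) (b (l 6) (a (l 6) (a (l 6) (b (l 6) (b (l 6) (b (l 16743472) (l 16747000))))))))))), by decide +kernel⟩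

def k4_A00pm_113_s3 : ∃ t, chk3 f_A00pm_113_s3 t 14 7 1 = true :=
  ⟨(b (l 6) (b (a (l 6) (b (a (l 6) (l 16881568)) (a (c (l 16843512) (l 16802352)) (c (l 16769456) (l 16813416))))) (b (b (a (a (l 6) (c (l 16810920) (l 16768376))) (a (a (l 16779624) (l 16828160)) (c (l 16833000) (l 16806016)))) (a (a (l 6) (c (l 16798680) (l 16798088))) (a (c (l 16810736) (l 16813144)) (c (b (l 16822752) (l 16815664)) (a (l 16821976) (l 16783992)))))) (a (a (b (c (l 16773432) (l 16738240)) (c (a (l 16757744) (l 16763848)) (b (l 16723352) (a (l 16749664) (l 16756728))))) (a (b (l 16750416) (c (l 16769720) (b (l 16770744) (l 16763552)))) (b (l 16767512) (c (l 16775280) (b (l 16777536) (l 16770024)))))) (a (b (c (l 16755176) (b (l 16760368) (l 16773824))) (c (a (l 16780440) (l 16785120)) (a (l 16748536) (l 16764688)))) (b (c (l 16794320) (b (l 16791608) (l 16793936))) (c (a (l 16788664) (l 16790696)) (a (b (l 16794320) (l 16785832)) (b (l 16797272) (l 16788472)))))))))), by decide +kernel⟩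

def k5_A00pm_113_s3 : ∃ t, chk3 f_A00pm_113_s3 t 15 14 1 = true :=
  ⟨(a (b (l 6) (a (b (l 6) (l 16881568)) (b (c (l 16843512) (l 16802352)) (c (l 16769456) (l 16813416))))) (a (a (b (b (l 6) (c (l 16810920) (l 16768376))) (b (b (l 16779624) (l 16828160)) (c (l 16833000) (l 16806016)))) (b (b (l 6) (c (l 16798680) (l 16798088))) (b (c (l 16810736) (l 16813144)) (c (a (l 16822752) (l 16815664)) (b (l 16821976) (l 16783992)))))) (b (b (a (c (l 16773432) (l 16738240)) (c (b (l 16757744) (l 16763848)) (a (l 16723352) (b (l 16749664) (l 16756728))))) (b (a (l 16750416) (c (l 16769720) (a (l 16770744) (l 16763552)))) (a (l 16767512) (c (l 16775280) (a (l 16777536) (l 16770024)))))) (b (a (c (l 16755176) (a (l 16760368) (l 16773824))) (c (b (l 16780440) (l 16785120)) (b (l 16748536) (l 16764688)))) (a (c (l 16794320) (a (l 16791608) (l 16793936))) (c (b (l 16788664) (l 16790696)) (b (a (l 16794320) (l 16785832)) (a (l 16797272) (l 16788472))))))))), by decide +kernel⟩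

def k6_A00pm_113_s3 : ∃ t, chk3 f_A00pm_113_s3 t 30 15 1 = true :=
  ⟨(b (a (b (l 16885672) (c (l 16856824) (l 16816600))) (b (c (l 16856824) (l 16816600)) (c (l 16814192) (l 16813976)))) (b (a (b (c (l 16835944) (l 16840304)) (b (a (l 16786328) (l 16786296)) (c (l 16818472) (a (l 16824632) (l 16825192))))) (b (c (l 16834840) (l 16837312)) (a (b (l 16827064) (l 16820712)) (b (l 16825288) (l 16818880))))) (a (b (b (a (l 16813432) (c (l 16811032) (l 16817432))) (c (l 16782384) (a (l 16807736) (l 16808568)))) (b (a (c (l 16795440) (l 16798872)) (c (l 16795384) (l 16799408))) (a (c (l 16787560) (l 16789760)) (c (l 16787336) (l 16774256))))) (b (c (a (b (l 16810544) (l 16802736)) (b (l 16788552) (c (l 16800560) (l 16803440)))) (a (b (c (l 16815536) (l 16798232)) (l 16808616)) (b (a (l 16795360) (l 16815096)) (b (a (l 16810792) (l 16789448)) (l 16805952))))) (a (c (b (l 16794672) (b (l 16788520) (l 16784368))) (b (c (l 16797952) (l 16800408)) (c (l 16788616) (l 16779792))))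 (c (b (a (l 16793984) (l 16793552)) (b (l 16787488) (a (l 16783520) (l 16782984)))) (b (b (l 16790576) (l 16790864)) (a (b (l 16791288) (l 16786248)) (b (l 16790880) (l 16785760)))))))))), by decide +kernel⟩

def k7_A00pm_113_s3 : ∃ t, chk3 f_A00pm_113_s3 t 31 30 1 = true :=
  ⟨(a (b (a (c (l 16835944) (l 16840304)) (a (b (l 16786328) (l 16786296)) (c (l 16818472) (b (l 16824632) (l 16825192))))) (a (c (l 16834840) (l 16837312)) (b (a (l 16827064) (l 16820712)) (a (l 16825288) (l 16818880))))) (b (a (a (b (l 16813432) (c (l 16811032) (l 16817432))) (c (l 16782384) (b (l 16807736) (l 16808568)))) (a (b (c (l 16795440) (l 16798872)) (c (l 16795384) (l 16799408))) (b (c (l 16787560) (l 16789760)) (c (l 16787336) (l 16774256))))) (a (c (a (b (l 16810544) (l 16788552)) (b (l 16802736) (c (l 16800560) (l 16803440)))) (b (a (c (l 16815536) (l 16798232)) (l 16808616)) (a (b (l 16795360) (l 16815096)) (a (b (l 16810792) (l 16789448)) (l 16805952))))) (b (c (a (l 16794672) (a (l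 16788520) (l 16784368))) (a (c (l 16797952) (l 16800408)) (c (l 16788616) (l 16779792)))) (c (a (b (l 16793984) (l 16793552)) (a (l 16787488) (b (l 16783520) (l 16782984)))) (a (a (l 16790576) (l 16790864)) (b (a (l 16791288) (l 16786248)) (a (l 16790880) (l 16785760))))))))), by decide +kernel⟩

def k8_A00pm_113_s3 : ∃ t, chk3 f_A00pm_113_s3 t 31 62 1 = true :=
  ⟨(a (c (a (l 16794448) (c (l 16775952) (l 16776496))) (a (b (l 16832976) (l 16821120)) (c (l 16798064) (l 16798704)))) (a (a (c (b (l 16808200) (l 16806720)) (b (l 16812672) (l 16808856))) (b (c (c (l 16778720) (l 16786576)) (c (b (l 16784792) (l 16783736)) (b (a (l 16811040) (l 16807304)) (l 16797152)))) (c (c (l 16777768) (l 16784744)) (a (l 16804760) (b (l 16803128) (l 16801016)))))) (a (b (b (c (l 16793152) (c (l 16796808) (l 16799512))) (c (c (l 16791632) (l 16783456)) (a (a (l 16801704) (l 16799112)) (l 16795240)))) (c (b (a (l 16804968) (l 16790272)) (c (a (l 16792848) (l 16788896)) (a (l 16794904) (a (l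 16792104) (l 16789848))))) (c (a (b (l 16787872) (l 16797120)) (b (l 16793648) (b (l 16793352) (l 16782592)))) (b (a (a (l 16802360) (l 16800248)) (l 16796128)) (a (l 16799512) (a (l 16796976) (l 16794304))))))) (b (a (c (b (l 16786776) (l 16786328)) (b (l 16790464) (l 16795264))) (b (c (l 16782464) (l 16790504)) (c (l 16781976) (a (l 16786064) (l 16783408))))) (c (a (b (l 16785912) (a (l 16786632) (l 16784416))) (b (a (l 16782616) (l 16780400)) (a (l 16782192) (b (l 16780064) (l 16779848))))) (b (c (a (l 16788592) (l 16783472)) (a (l 16790576) (b (l 16785096) (l 16784800)))) (c (a (b (l 16788248) (l 16788016)) (b (l 16783072) (l 16782800))) (a (b (l 16790192) (l 16789920)) (b (l 16784496) (a (l 16785616) (l 16782728))))))))))), by decide +kernel⟩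

def k9_A00pm_113_s3 : ∃ t, chk3 f_A00pm_113_s3 t 62 63 1 = true :=
  ⟨(b (b (c (a (l 16808200) (l 16806720)) (a (l 16812672) (l 16808856))) (a (c (c (l 16778720) (l 16786576)) (c (a (l 16784792) (l 16783736)) (a (b (l 16811040) (l 16807304)) (l 16797152)))) (c (c (l 16777768) (l 16784744)) (b (l 16804760) (a (l 16803128) (l 16801016)))))) (b (a (a (c (l 16793152) (c (l 16796808) (l 16799512))) (c (c (l 16791632) (l 16783456)) (b (b (l 16801704) (l 16799112)) (l 16795240)))) (c (a (b (l 16804968) (l 16790272)) (c (b (l 16792848) (l 16788896)) (b (l 16794904) (b (l 16792104) (l 16789848))))) (c (b (a (l 16787872) (l 16797120)) (a (l 16793648) (a (l 16793352) (l 16782592)))) (a (b (b (l 16802360) (l 16800248)) (l 16796128)) (b (l 16799512) (b (l 16796976) (l 16794304))))))) (a (b (c (a (l 16786776) (l 16786328)) (a (l 16790464) (l 16795264))) (a (c (l 16782464) (l 16790504)) (c (l 16781976) (b (l 16786064) (l 16783408))))) (c (b (a (l 16785912) (b (l 16786632) (l 16784416)))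 (a (b (l 16782616) (l 16780400)) (b (l 16782192) (a (l 16780064) (l 16779848))))) (a (c (b (l 16788592) (l 16783472)) (b (l 16790576) (a (l 16785096) (l 16784800)))) (c (b (a (l 16788248) (l 16788016)) (a (l 16783072) (l 16782800))) (b (a (l 16790192) (l 16789920)) (a (l 16784496) (b (l 16785616) (l 16782728)))))))))), by decide +kernel⟩

def k10_A00pm_113_s3 : ∃ t, chk3 f_A00pm_113_s3 t 63 126 1 = true :=
  ⟨(a (a (b (l 16805504) (b (l 16800744) (l 16792360))) (c (a (l 16778768) (l 16785680)) (c (l 16798568) (l 16788536)))) (a (c (a (b (l 16793032) (l 16792144)) (b (c (l 16788504) (a (l 16791224) (l 16778864))) (b (c (l 16788168) (l 16778992)) (l 16788352)))) (a (b (l 16796088) (l 16793536)) (a (b (b (l 16794704) (l 16793552)) (l 16791608)) (b (c (c (l 16780320) (l 16791824)) (b (l 16793880) (l 16793120))) (b (l 16791016) (l 14)))))) (a (a (a (c (b (b (l 16786928) (l 16786776)) (b (l 16786536) (l 14))) (b (c (l 16789640) (l 16791672)) (b (l 16787288) (l 14)))) (b (c (l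 16785736) (c (l 16788312) (l 16790208))) (l 14))) (b (c (b (l 16784136) (l 16783968)) (c (l 16786344) (b (l 16788192) (l 16787872)))) (l 14))) (b (a (c (b (l 16781896) (l 16781704)) (b (l 16784552) (a (l 16784944) (l 14)))) (b (c (l 16779632) (a (l 16782472) (l 16781080))) (l 14))) (l 14))))), by decide +kernel⟩

def k11_A00pm_113_s3 : ∃ t, chk3 f_A00pm_113_s3 t 63 127 1 = true :=
  ⟨(a (b (c (b (a (l 16793032) (l 16792144)) (a (c (l 16788504) (b (l 16791224) (l 16778864))) (a (c (l 16788168) (l 16778992)) (l 16788352)))) (b (a (l 16796088) (l 16793536)) (b (a (a (l 16794704) (l 16793552)) (l 16791608)) (a (c (c (l 16780320) (l 16791824)) (a (l 16793880) (l 16793120))) (a (l 16791016) (l 14)))))) (b (b (b (c (a (a (l 16786928) (l 16786776)) (a (l 16786536) (l 14))) (a (c (l 16789640) (l 16791672)) (a (l 16787288) (l 14)))) (a (c (l 16785736) (c (l 16788312) (l 16790208))) (l 14))) (a (c (a (l 16784136) (l 16783968)) (c (l 16786344) (a (l 16788192) (l 16787872)))) (l 14)))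 (a (b (c (a (l 16781896) (l 16781704)) (a (l 16784552) (b (l 16784944) (l 14)))) (a (c (l 16779632) (b (l 16782472) (l 16781080))) (l 14))) (l 14)))) (b (b (a (a (l 16791456) (l 14)) (l 14)) (l 14)) (l 14))), by decide +kernel⟩

theorem t12_A00pm_113_s3 : ∃ t, chk3 f_A00pm_113_s3 t 63 63 1 = true := ex3_b k10_A00pm_113_s3 k11_A00pm_113_s3

theorem t13_A00pm_113_s3 : ∃ t, chk3 f_A00pm_113_s3 t 31 63 1 = true := ex3_a k9_A00pm_113_s3 t12_A00pm_113_s3

theorem t14_A00pm_113_s3 : ∃ t, chk3 f_A00pm_113_s3 t 31 31 1 = true := ex3_b k8_A00pm_113_s3 t13_A00pm_113_s3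

theorem t15_A00pm_113_s3 : ∃ t, chk3 f_A00pm_113_s3 t 31 15 1 = true := ex3_b k7_A00pm_113_s3 t14_A00pm_113_s3

theorem t16_A00pm_113_s3 : ∃ t, chk3 f_A00pm_113_s3 t 15 15 1 = true := ex3_a k6_A00pm_113_s3 t15_A00pm_113_s3

theorem t17_A00pm_113_s3 : ∃ t, chk3 f_A00pm_113_s3 t 15 7 1 = true := ex3_b k5_A00pm_113_s3 t16_A00pm_113_s3

theorem t18_A00pm_113_s3 : ∃ t, chk3 f_A00pm_113_s3 t 7 7 1 = true := ex3_a k4_A00pm_113_s3 t17_A00pm_113_s3

theorem t19_A00pm_113_s3 : ∃ t, chk3 f_A00pm_113_s3 t 7 3 1 = true := ex3_b k3_A00pm_113_s3 t18_A00pm_113_s3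

theorem t20_A00pm_113_s3 : ∃ t, chk3 f_A00pm_113_s3 t 3 3 1 = true := ex3_a k2_A00pm_113_s3 t19_A00pm_113_s3

theorem t21_A00pm_113_s3 : ∃ t, chk3 f_A00pm_113_s3 t 3 1 1 = true := ex3_b k1_A00pm_113_s3 t20_A00pm_113_s3

theorem t22_A00pm_113_s3 : ∃ t, chk3 f_A00pm_113_s3 t 1 1 1 = true := ex3_a k0_A00pm_113_s3 t21_A00pm_113_s3

theorem c_A00pm_113_s3 : CertF 536870912 536870912 536870912 536870912 780900216 37827925 true true false .nn 1 1 3
    ndB0q1 ndB0q1 pcB3 cut_A00pm_113_s3 Ext.none :=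
  certF0 (fam := true) (s1 := true) (s2 := false) (a := 1) (b := 1) (c := 3) (cn := .nn) (n1 := ndB0q1) (n2 := ndB0q1) (pc := pcB3) (cut := cut_A00pm_113_s3) (xt := Ext.none) (P1 := 536870912) (W1 := 536870912) (P2 := 536870912) (W2 := 536870912) (P3 := 780900216) (W3 := 37827925)
    rfl t22_A00pm_113_s3

theorem s_A00pm_113_s3 {κ x : ℝ} (hκ : κ * h0 = ken x) (hx : ((780900216 : ℕ) : ℝ) / S ≤ x)
    (hx' : x ≤ (((780900216 : ℕ) : ℝ) + (37827925 : ℕ)) / S)
    (H : CutA (VFD κ) PP tK tL pcB (Cut.of [[⟨0, 1, 0, 67108864⟩, ⟨1, 1, 0, 67108864⟩, ⟨2, 2, 0, 16777216⟩], [⟨0, 0, 1, 26214400⟩, ⟨1, 1, 0, 33554432⟩, ⟨2, 1, 1, 26214400⟩], [⟨0, 1, 0, 33554432⟩, ⟨1, 0, 1, 26214400⟩, ⟨2, 1, 1, 26214400⟩]]) 1 1 3 0 0 (sgb true) (sgb false) x) :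
    AltA (VFD κ) PP tK tL pcB [⟨4, 0, 0, 2845415833⟩] 1 1 3 0 0 (sgb true) (sgb false) x :=
  strip_altAD (m := 2845415833) false rfl hκ (SH.κ0 hκ (SH.hx1 hx).le (SH.hx2 hx').le) (SH.hx1 hx).le (SH.hx2 hx') (covB01).cov (covB01).cov hx hx' c_A00pm_113_s3 H (noExt_A)

noncomputable def cut_A00pm_123_s1 : Cut := Cut.of [[⟨4, 0, 0, 1449551462⟩], [⟨0, 1, 0, 67108864⟩, ⟨1, 1, 0, 67108864⟩, ⟨2, 2, 0, 16777216⟩], [⟨0, 0, 1, 26214400⟩, ⟨1, 1, 0, 33554432⟩, ⟨2, 1, 1, 26214400⟩]]

noncomputable def f_A00pm_123_s1 : ℕ → ℕ → ℕ → ℕ → Bool := onCell 536870912 536870912 0 536870912 780900216 37827925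
    (rowF 0 true true false .npn 1 2 3 (qsf 536870912 536870912 0 536870912 3) ndB0q1 ndB0q2 pcB3 cut_A00pm_123_s1 Ext.none)

def k0_A00pm_123_s1 : ∃ t, chk3 f_A00pm_123_s1 t 1 1 1 = true :=
  ⟨(l 6), by decide +kernel⟩

theorem c_A00pm_123_s1 : CertF 536870912 536870912 0 536870912 780900216 37827925 true true false .npn 1 2 3
    ndB0q1 ndB0q2 pcB3 cut_A00pm_123_s1 Ext.none :=
  certF0 (fam := true) (s1 := true) (s2 := false) (a := 1) (b := 2) (c := 3) (cn := .npn) (n1 := ndB0q1) (n2 := ndB0q2) (pc := pcB3) (cut := cut_A00pm_123_s1) (xt := Ext.none) (P1 := 536870912) (W1 := 536870912) (P2 := 0) (W2 := 536870912) (P3 := 780900216) (W3 := 37827925)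
    rfl k0_A00pm_123_s1

theorem s_A00pm_123_s1 {κ x : ℝ} (hκ : κ * h0 = ken x) (hx : ((780900216 : ℕ) : ℝ) / S ≤ x)
    (hx' : x ≤ (((780900216 : ℕ) : ℝ) + (37827925 : ℕ)) / S)
    (H : CutA (VFD κ) PP tK tL pcB (Cut.of [[⟨0, 1, 0, 67108864⟩, ⟨1, 1, 0, 67108864⟩, ⟨2, 2, 0, 16777216⟩], [⟨0, 0, 1, 26214400⟩, ⟨1, 1, 0, 33554432⟩, ⟨2, 1, 1, 26214400⟩]]) 1 2 3 0 0 (sgb true) (sgb false) x) :
    AltA (VFD κ) PP tK tL pcB [⟨3, 0, 0, 1449551462⟩] 1 2 3 0 0 (sgb true) (sgb false) x :=
  strip_altAD (m := 1449551462) true rfl hκ (SH.κ0 hκ (SH.hx1 hx).le (SH.hx2 hx').le) (SH.hx1 hx).le (SH.hx2 hx') (covB01).cov (covB02).cov hx hx' c_A00pm_123_s1 H (noExt_A)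

noncomputable def cut_A00pm_123_s3 : Cut := Cut.of [[⟨3, 0, 0, 2845415833⟩], [⟨0, 1, 0, 67108864⟩, ⟨1, 1, 0, 67108864⟩, ⟨2, 2, 0, 16777216⟩], [⟨0, 0, 1, 26214400⟩, ⟨1, 1, 0, 33554432⟩, ⟨2, 1, 1, 26214400⟩]]

noncomputable def xt_A00pm_123_s3 : Ext := strExt dd true true false .u0 .u2 .s2 .npn 1 2 3 rfl rfl gl3 vv ndB0q1 ndB0q2

noncomputable def f_A00pm_123_s3 : ℕ → ℕ → ℕ → ℕ → Bool := onCell 1610612736 536870912 0 536870912 780900216 37827925
    (rowF 2 true true false .npn 1 2 3 (qsf 536870912 536870912 0 536870912 3) ndB0q1 ndB0q2 pcB3 cut_A00pm_123_s3 xt_A00pm_123_s3)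

def k0_A00pm_123_s3 : ∃ t, chk3 f_A00pm_123_s3 t 2 1 1 = true :=
  ⟨(a (b (b (l 1) (l 6)) (l 6)) (b (b (a (b (a (l 534857231) (l 534920975)) (a (a (l 1) (l 16678352)) (a (l 16687976) (l 16697376)))) (b (a (l 534969871) (l 535042831)) (a (b (l 535016463) (l 16745072)) (b (l 535080207) (a (l 16717656) (l 16727360)))))) (a (b (a (b (l 16646064) (l 6)) (a (l 16650824) (l 16660248))) (l 6)) (a (b (b (l 16726176) (l 16664696)) (b (a (l 6) (l 16650224)) (l 6))) (b (b (a (l 16699256) (l 16709480)) (a (l 16680392) (l 16691264))) (b (a (l 16661432) (l 16673168)) (a (l 16642056) (l 16654864))))))) (b (a (l 6) (l 6)) (l 6)))), by decide +kernel⟩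

def k1_A00pm_123_s3 : ∃ t, chk3 f_A00pm_123_s3 t 6 4 1 = true :=
  ⟨(b (a (a (l 535157007) (b (l 4) (a (l 535345679) (l 4)))) (l 4)) (a (a (b (a (l 535174159) (l 535218447)) (a (l 535085839) (b (l 535159055) (l 535111951)))) (b (a (l 535288847) (l 535425807)) (a (b (l 535223823) (a (l 16749416) (l 16754280))) (b (l 535368207) (a (l 16759208) (l 535381007)))))) (a (b (a (a (l 535561999) (l 4)) (l 4)) (a (b (a (l 535513359) (l 535578383)) (a (b (l 535488015) (l 535471119)) (l 535545871))) (b (b (l 4) (l 535680015)) (l 535657231)))) (b (l 4) (l 4))))), by decide +kernel⟩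

def k2_A00pm_123_s3 : ∃ t, chk3 f_A00pm_123_s3 t 12 5 1 = true :=
  ⟨(a (b (b (a (l 16719808) (b (l 16734144) (l 16725816))) (a (l 16702424) (a (l 16710864) (l 16716648)))) (b (a (l 16685200) (a (l 16694768) (l 16701344))) (a (b (l 16672568) (l 16663920)) (b (l 16686648) (a (l 16675064) (l 16683152)))))) (c (b (b (a (b (l 535286543) (l 535260687)) (b (l 535472911) (l 16751840))) (a (a (l 16727352) (l 16734088)) (a (l 16741104) (l 16746656)))) (b (a (a (l 16714832) (l 16723000)) (a (l 16731440) (l 16737672))) (a (a (b (l 16706312) (l 16700904)) (l 16692568)) (a (l 16722688) (l 16729856))))) (a (b (b (b (a (l 16738736) (l 16744120)) (l 534947855)) (a (l 16717992) (l 16724536))) (b (a (l 16702104) (l 16709760)) (a (b (l 16690656) (l 16683008)) (b (l 16699296) (l 16692408))))) (b (b (b (l 535114767) (l 16745280)) (a (l 16731504) (l 16738496))) (b (a (l 16718040) (l 16726472)) (b (l 16713560) (l 16708032))))))), by decide +kernel⟩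

def k3_A00pm_123_s3 : ∃ t, chk3 f_A00pm_123_s3 t 13 5 1 = true :=
  ⟨(a (b (a (b (b (a (l 535448335) (l 535517199)) (a (l 16756856) (l 535518479))) (a (l 16749224) (b (l 16756464) (l 16751976)))) (b (b (a (b (l 535595023) (l 535591183)) (b (l 535664911) (l 535681295))) (a (l 535603727) (l 535709967))) (a (b (l 16761032) (l 16757024)) (b (l 535744271) (l 16761624))))) (a (b (a (l 16740064) (l 16746080)) (b (l 16737352) (l 16733520))) (b (a (l 16751664) (l 16756816)) (a (l 16745216) (l 16750880))))) (b (a (b (b (a (a (l 535748879) (l 535796751)) (l 535868943)) (a (l 535809551) (l 535905807))) (a (b (l 535845135) (l 16765632)) (b (l 535941391) (l 535975183)))) (b (b (l 4) (a (l 535999503) (l 4))) (a (l 536053007) (l 536145423)))) (b (a (a (b (l 16762560) (l 16759744)) (l 536022543)) (b (l 536150543) (l 536180495))) (a (b (a (l 16757144) (l 16761392)) (l 16735712)) (b (a (l 16765104) (l 16768304)) (a (l 16762816) (l 16766264))))))), by decide +kernel⟩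

def k4_A00pm_123_s3 : ∃ t, chk3 f_A00pm_123_s3 t 14 4 1 = true :=
  ⟨(l 4), by decide +kernel⟩

def k5_A00pm_123_s3 : ∃ t, chk3 f_A00pm_123_s3 t 28 5 1 = true :=
  ⟨(b (b (l 4) (a (l 536285967) (l 4))) (b (a (b (l 536333583) (l 535558159)) (a (b (l 536464399) (a (l 536470287) (l 536514831))) (b (a (l 536529935) (l 4)) (l 536314639)))) (b (a (a (l 536341263) (l 536430607)) (a (b (l 536513807) (l 536523279)) (b (l 536602895) (a (l 536587279) (c (l 536906767) (l 536350991)))))) (a (a (l 16769208) (a (l 16771088) (l 16772192))) (c (a (l 536761359) (a (l 536825103) (l 536864271))) (a (l 536233231) (a (l 536274447) (l 536297743)))))))), by decide +kernel⟩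

def k6_A00pm_123_s3 : ∃ t, chk3 f_A00pm_123_s3 t 29 10 1 = true :=
  ⟨(l 4), by decide +kernel⟩

def k7_A00pm_123_s3 : ∃ t, chk3 f_A00pm_123_s3 t 58 11 1 = true :=
  ⟨(b (a (a (b (l 4) (l 536648463)) (l 4)) (l 4)) (c (a (b (a (b (l 536948239) (l 536690191)) (b (a (l 536987407) (c (l 536882959) (a (l 536863503) (l 536604431)))) (c (a (l 537128463) (b (l 536888847) (l 537136655))) (a (l 536842767) (b (l 536599823) (l 536845839)))))) (a (b (l 536919823) (l 536873487)) (c (b (l 536824335) (l 537052175)) (b (l 536532751) (l 536757007))))) (b (b (l 4) (c (a (l 536923407) (a (l 536971791) (l 4))) (a (l 536627215) (b (l 4) (l 536673295))))) (c (a (l 536861711) (b (l 537216527) (l 537177871))) (a (b (l 536849935) (l 536806415)) (b (l 536639759) (l 536865551)))))) (a (b (a (b (l 536382991) (a (l 536381455) (l 536392207))) (b (b (a (l 536407567) (l 4)) (a (l 536412431) (c (l 536307215) (l 536007951)))) (c (a (l 536550927) (a (l 536287759) (l 536296975))) (a (l 536253199) (a (l 535986703)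 (l 535993871)))))) (a (b (l 536341007) (l 536286735)) (a (c (l 536201999) (l 535897871)) (c (l 536487183) (l 536178703))))) (a (b (b (l 4) (c (b (l 536337423) (l 536580367)) (b (l 536029967) (l 536270863)))) (b (c (l 536543503) (l 536230671)) (l 536069647))) (b (b (l 4) (b (l 4) (c (l 536428047) (l 536109327)))) (b (c (l 536324367) (l 536069647)) (c (l 536546063) (l 536219663)))))))), by decide +kernel⟩

def k8_A00pm_123_s3 : ∃ t, chk3 f_A00pm_123_s3 t 59 11 1 = true :=
  ⟨(b (l 4) (b (l 4) (a (c (a (c (b (a (l 537270031) (l 4)) (b (l 536992271) (l 537107983))) (b (a (l 536686607) (l 4)) (c (l 536742927) (l 536580623)))) (b (l 4) (a (b (l 4) (a (c (l 537290767) (l 536963087)) (a (c (l 537306127) (l 536976655)) (l 4)))) (l 4)))) (a (c (b (a (l 536431631) (l 4)) (b (l 536411663) (a (l 536575503) (l 536604943)))) (b (a (b (l 4) (l 536291087)) (l 4)) (b (l 536009999) (a (l 536241167) (l 536265743))))) (b (l 4) (a (b (l 4) (a (c (l 536627727) (l 536284943)) (a (c (l 536639503)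 (l 536294927)) (l 4)))) (l 4))))) (l 4)))), by decide +kernel⟩

def k9_A00pm_123_s3 : ∃ t, chk3 f_A00pm_123_s3 t 15 2 1 = true :=
  ⟨(l 4), by decide +kernel⟩

def k10_A00pm_123_s3 : ∃ t, chk3 f_A00pm_123_s3 t 12 3 1 = true :=
  ⟨(b (b (a (b (a (a (l 16645768) (l 16653936)) (a (l 16662680) (b (l 16675736) (l 16668288)))) (a (l 6) (a (l 6) (b (l 16661008) (l 6))))) (a (b (b (a (b (a (l 16684360) (l 16689120)) (l 16683496)) (b (l 16697280) (l 16694448))) (a (a (l 16676040) (l 16681424)) (l 16690488))) (a (b (a (l 16669632) (l 16675640)) (l 16667336)) (b (l 16685608) (l 16681688)))) (b (b (a (l 16707696) (l 16717736)) (a (l 16703352) (l 16712488))) (b (l 16703216) (l 16698088))))) (a (l 6) (b (a (a (l 6) (l 16678320)) (b (l 16693104) (l 16688648))) (a (l 6) (l 16681688))))) (l 6)), by decide +kernel⟩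

def k11_A00pm_123_s3 : ∃ t, chk3 f_A00pm_123_s3 t 13 6 1 = true :=
  ⟨(a (b (a (b (b (l 16729160) (a (l 16720464) (l 16728088))) (b (l 16719080) (l 16713880))) (b (b (l 16742576) (l 16738152)) (b (l 16733136) (l 16727912)))) (b (a (b (l 16708832) (l 16703960)) (l 16678384)) (a (l 16696640) (l 16710000)))) (b (a (b (b (l 16753352) (l 16749432)) (b (l 16745296) (l 16740112))) (b (b (l 16740808) (l 16758336)) (a (l 16750728) (l 16755040)))) (a (b (l 16732560) (l 16721904)) (b (b (l 16745648) (l 16740296)) (a (l 16729824) (l 16735080)))))), by decide +kernel⟩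

def k12_A00pm_123_s3 : ∃ t, chk3 f_A00pm_123_s3 t 13 7 1 = true :=
  ⟨(b (b (a (b (a (l 16688952) (l 16701992)) (a (l 6) (l 16655912))) (a (b (l 16713528) (l 16688496)) (b (l 16704016) (c (l 16683592) (l 16675232))))) (a (b (a (l 6) (b (l 16653904) (l 6))) (l 6)) (b (a (a (l 16673184) (l 16668792)) (a (l 16685760) (l 16692416))) (a (b (a (b (l 16704312) (l 16704488)) (l 16669080)) (a (a (l 6) (b (l 16706448) (l 6))) (a (c (l 16712392) (l 16707976)) (b (l 16713296) (l 16713832))))) (b (a (l 16717840) (l 16724784)) (a (c (l 16721312) (l 16674600)) (a (l 16724184) (l 16727760)))))))) (a (l 6) (b (a (a (l 6) (b (b (b (c (a (l 16713040) (l 16716584)) (a (l 16709008) (l 16712512))) (c (l 16715688) (l 16711448))) (c (l 16717168) (b (l 16712144) (l 16712872)))) (b (c (l 16719288) (l 16714112)) (l 6)))) (b (b (c (a (a (l 16720640) (l 16724240)) (b (l 16729304) (l 16730048))) (a (b (a (l 16716040) (l 16719584)) (l 16718704)) (b (l 16724928) (a (l 16724120) (l 16727688))))) (a (c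 (l 16724528) (b (l 16719616) (l 16720512))) (c (l 16731672) (l 16727416)))) (b (a (c (l 16726760) (l 16721912)) (c (l 16733960) (l 16729448))) (c (a (l 16729032) (l 16736168)) (a (l 16723784) (l 16731376)))))) (a (l 6) (a (b (c (l 16732416) (b (l 16725592) (l 16727336))) (l 6)) (b (c (l 16739432) (b (l 16733240) (l 16735040))) (c (b (l 16742408) (l 16744320)) (b (l 16736744) (l 16738352))))))))), by decide +kernel⟩

def k13_A00pm_123_s3 : ∃ t, chk3 f_A00pm_123_s3 t 28 6 1 = true :=
  ⟨(a (b (b (b (a (l 16766728) (l 16769392)) (l 16744136)) (b (l 16761744) (a (l 16756712) (l 16759968)))) (b (a (b (l 16763216) (l 16747816)) (b (b (l 16757688) (a (l 16755016) (l 16762456))) (b (l 16756496) (l 16751480)))) (a (b (l 16742640) (l 16737816)) (b (l 16748008) (l 16722632))))) (a (b (b (b (a (l 16771080) (l 16772048)) (l 16747832)) (b (l 16765816) (b (l 16763624) (l 16762264)))) (a (b (b (b (l 16760216) (a (l 16758648) (l 16759552))) (b (a (b (l 16757496) (l 16756432)) (b (b (l 16769448)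 (a (l 16758232) (l 16769320))) (l 16768216))) (a (l 16754744) (l 16766568)))) (b (b (l 16774184) (l 16751064)) (l 16737568))) (b (b (b (l 16761936) (l 16771448)) (b (b (a (b (l 16759920) (l 16770208)) (l 16760816)) (b (a (l 16759264) (l 16771008)) (l 16769872))) (c (l 16765816) (l 16750192)))) (b (b (l 16756000) (l 16753944)) (l 16740576))))) (c (b (b (b (a (l 16775936) (l 16765880)) (l 16774704)) (b (l 16773072) (l 16771824))) (b (b (l 16771080) (b (a (b (l 16769976) (a (l 16769456) (l 16770376))) (l 16771720)) (a (b (l 16769152) (l 16768072)) (b (l 16766472) (l 16770896))))) (b (b (l 16767760) (l 16765416)) (l 16751680)))) (b (b (b (a (l 16769800) (l 536195599)) (l 16756424)) (b (l 16763248) (l 16759944))) (b (b (l 16757112) (b (a (b (l 16754440) (l 16753928)) (l 16756448)) (a (b (l 16753072) (l 16752368)) (b (l 16755736) (l 16754928))))) (b (b (l 16752544) (l 16751040)) (l 16749040))))))), by decide +kernel⟩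

def k14_A00pm_123_s3 : ∃ t, chk3 f_A00pm_123_s3 t 58 6 1 = true :=
  ⟨(b (b (a (c (b (a (b (l 16776912) (l 16776456)) (c (l 536728847) (l 536427535))) (a (l 16775648) (l 536776463))) (b (a (b (l 16772536) (l 16771096)) (c (l 536119311) (l 535804175))) (a (l 16768784) (l 536143119)))) (c (b (a (c (l 536787983) (l 536478223)) (b (c (l 537141775) (l 536825359)) (l 536949263))) (a (l 536836111) (b (l 536916751) (l 16777336)))) (b (a (c (l 536161295) (l 535837199)) (b (c (l 536501775) (l 536171023)) (l 536159247))) (a (l 536185103) (b (l 536252431) (l 16772144)))))) (a (b (a (l 16770088) (b (l 16771784) (l 16770896))) (b (l 16769384) (l 16768648))) (b (c (a (l 16776336) (l 536859919)) (a (l 16768800) (l 535904783))) (a (l 16771320) (b (l 16772944) (l 16772536)))))) (b (b (a (b (l 16768032) (l 16767544)) (b (l 16771424) (l 16771192))) (a (a (b (l 16766200) (b (l 16765936) (a (l 16767728) (l 16766352)))) (c (l 16764824) (l 16750208))) (b (l 16771136) (a (l 16770040) (l 16772048)))))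 (b (b (c (a (a (l 16772176) (b (l 16770232) (l 16774680))) (a (b (l 16777496) (l 16772200)) (l 16779344))) (a (a (l 16756568) (b (l 16749200) (l 16759032))) (a (b (l 16762184) (l 16756568)) (l 16764456)))) (a (a (l 16762760) (l 16765736)) (a (c (l 16776136) (l 16760920)) (b (c (a (l 16778792) (l 16780064)) (a (l 16763240) (l 16764624))) (l 16773728))))) (a (b (c (l 16769416) (l 16755432)) (l 16771336)) (b (a (l 16766968) (l 16772432)) (c (l 16773328) (l 16759824))))))), by decide +kernel⟩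

def k15_A00pm_123_s3 : ∃ t, chk3 f_A00pm_123_s3 t 59 12 1 = true :=
  ⟨(b (a (b (c (a (b (b (c (l 537224719) (l 536900623)) (a (l 537026831) (c (l 537226767) (l 536898319)))) (c (a (l 537163535) (l 537202959)) (a (l 536836879) (l 536871439)))) (b (a (c (b (c (l 537365263) (l 537201935)) (l 537267215)) (b (c (l 537036559) (l 536869135)) (l 536934415))) (b (c (l 537325839) (l 536990479)) (l 537141775))) (a (a (l 537066767) (l 537086479)) (l 537117199)))) (a (b (b (c (l 536568847) (l 536229647)) (a (l 536363791) (c (l 536562191) (l 536218383)))) (c (a (l 536502031) (l 536531983)) (a (l 536159503) (l 536184847)))) (a (b (c (b (c (l 536699663) (l 536528399)) (l 536593423)) (b (a (l 536261135) (l 536274703)) (l 536245007))) (a (l 536380943) (l 536395791))) (b (b (c (l 536646927) (l 536295695)) (l 536450575)) (l 536419343))))) (c (a (c (l 537007119) (l 536671759)) (a (b (l 537046031) (l 537018383)) (l 537073167))) (a (c (l 536327951) (l 535942415)) (a (b (l 536348943) (l 536312335))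 (l 536361743))))) (a (c (b (b (b (l 4) (a (l 537183247) (l 4))) (a (l 537158927) (l 537202703))) (b (l 537152015) (l 537125391))) (b (a (b (b (l 4) (l 536482319)) (l 536451343)) (b (l 4) (l 536753423))) (b (l 536161807) (l 536394511)))) (b (b (l 4) (a (b (l 4) (c (l 537240335) (l 536510223))) (l 4))) (c (b (a (l 537218831) (l 537266447)) (a (l 537193231) (l 537241359))) (b (a (l 536482063) (l 536519183)) (l 536466703)))))) (a (b (a (c (l 536935951) (l 536230671)) (b (a (l 536645647) (l 536683023)) (l 536659983))) (a (b (l 16774208) (l 16773936)) (b (l 536666639) (l 16775216)))) (b (a (b (a (l 536722191) (l 536763151)) (l 536743951)) (b (a (l 536806159) (l 536851471)) (a (l 536812047) (l 536861967)))) (b (a (l 536755983) (a (l 536829199) (l 536882191))) (a (l 536775439) (l 536878095)))))), by decide +kernel⟩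

def k16_A00pm_123_s3 : ∃ t, chk3 f_A00pm_123_s3 t 59 13 1 = true :=
  ⟨(a (c (b (b (l 16768952) (l 16780688)) (b (b (l 16781608) (a (b (l 16781328) (a (l 16780600) (a (l 16781584) (l 16782112)))) (b (l 16782672) (l 16777752)))) (a (b (l 16779800) (l 16777568)) (b (b (a (l 16779648) (b (l 16783512) (l 16783344))) (l 16781968)) (l 16780272))))) (b (b (b (l 16769784) (l 16769232)) (l 16768592)) (b (b (l 16767856) (a (b (l 16766352) (a (l 16765264) (l 16766600))) (b (l 16768488) (l 16768256)))) (a (b (l 16765056) (l 16763776)) (b (b (a (l 16767176) (b (l 16768552) (l 16768288))) (l 16767240)) (l 16766280)))))) (b (b (a (l 536005391) (c (l 16770912) (l 16773720))) (a (l 16756024) (b (l 16778008) (l 16778296)))) (b (b (c (l 16783808) (l 16771744)) (c (c (l 16782392) (l 16770768)) (c (l 16764176) (l 16757360)))) (c (a (b (b (b (l 16784352) (l 16781920)) (a (b (l 16781472) (l 16783664)) (b (l 16784952) (a (l 16784560) (l 16785112))))) (b (l 16783448) (l 16782288))) (b (b (l 16785392)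 (a (b (l 16785416) (l 16785600)) (l 16785928))) (b (a (b (a (l 16785240) (b (l 16785824) (l 16785720))) (l 16785040)) (b (a (l 16786096) (l 16786272)) (a (b (l 16786032) (l 16785816)) (b (l 16786416) (a (l 16786232) (l 16786488)))))) (c (l 16788160) (l 16781336))))) (b (a (b (a (l 16769512) (l 16770432)) (a (b (l 16769168) (l 16768896)) (b (l 16770272) (a (l 16769728) (l 16770328))))) (a (c (l 16774912) (l 16767616)) (l 16777368))) (a (b (l 16769000) (l 16768336)) (b (a (b (a (l 16770552) (b (l 16771200) (l 16771056))) (l 16770560)) (c (b (l 16775528) (a (l 16775072) (l 16778248))) (b (l 16768096) (a (l 16767552) (l 16768136))))) (a (l 16770064) (l 16776424))))))))), by decide +kernel⟩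

def k17_A00pm_123_s3 : ∃ t, chk3 f_A00pm_123_s3 t 14 14 1 = true :=
  ⟨(a (b (a (b (a (l 16733552) (a (l 16738160) (l 16741288))) (a (l 16699408) (b (l 16737696) (l 16737192)))) (b (a (a (l 16728704) (l 16726664)) (a (l 16729816) (l 16732936))) (a (a (b (l 16742584) (l 16742120)) (b (l 16745824) (l 16745384))) (a (l 16727792) (l 16730880))))) (a (b (a (b (l 16730440) (l 16730912)) (b (l 16737208) (a (l 16736024) (l 16739400)))) (a (b (l 16689848) (c (l 16735680) (l 16730472))) (b (c (l 16741784) (l 16735504)) (a (l 16738144) (l 16741424))))) (b (b (a (a (l 16742192) (l 16745408)) (l 16750064)) (a (a (l 16742672) (l 16745840)) (l 16750432))) (a (a (b (l 16743488) (c (l 16747368) (l 16741864))) (b (l 16746616) (l 16747672))) (c (l 16718080) (b (l 16747808) (l 16749264))))))) (b (a (b (a (a (l 16746496) (l 16749456)) (c (b (l 16771200) (l 16769168)) (l 16747552))) (a (a (l 16733864) (l 16736752)) (b (l 16762216) (l 16761560)))) (b (c (a (b (l 16776728) (l 16774600)) (a (b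 (l 16780592) (l 16778392)) (b (c (l 16786240) (l 16779792)) (l 16786040)))) (a (b (l 16763776) (l 16762592)) (a (b (l 16767376) (l 16766152)) (b (b (l 16775208) (l 16769312)) (l 16778880))))) (a (c (b (l 16772864) (l 16771656)) (b (l 16761800) (l 16761560))) (a (b (l 16781536) (l 16770240)) (c (b (l 16778928) (l 16777616)) (b (l 16767520) (l 16767224))))))) (a (b (a (c (l 16760128) (l 16751912)) (c (l 16765616) (l 16757200))) (a (b (l 16756784) (l 16757640)) (b (l 16762008) (l 16762776)))) (a (b (c (b (l 16770856) (l 16770480)) (b (l 16761744) (l 16762368))) (b (l 16766944) (l 16767688))) (b (a (b (l 16769904) (l 16770000)) (b (l 16761696) (l 16772320))) (b (a (l 16770488) (l 16772832)) (a (l 16771288) (l 16773640)))))))), by decide +kernel⟩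

def k18_A00pm_123_s3 : ∃ t, chk3 f_A00pm_123_s3 t 28 15 1 = true :=
  ⟨(b (a (c (b (b (a (b (l 16736440) (l 16736992)) (l 16743408)) (a (l 16738496) (b (l 16744304) (l 16745328)))) (b (a (l 16740688) (l 16746944)) (l 16756504))) (b (b (a (b (l 16731880) (l 16732856)) (a (l 16737304) (l 16740488))) (a (l 16734408) (b (l 16740312) (l 16741392)))) (a (b (l 16736472) (l 16738472)) (b (l 16743008) (l 16745064))))) (c (b (a (b (a (l 16748160) (l 16751200)) (a (l 16749320) (l 16752176))) (b (l 16755576) (a (l 16754944) (l 16757600)))) (b (a (l 16752712) (l 16757992)) (a (l 16754656) (l 16759952)))) (b (a (b (a (l 16743560) (l 16746544)) (a (l 16745392) (l 16748296))) (b (l 16750832) (a (l 16751096) (l 16753760)))) (a (b (l 16749032) (l 16751096)) (b (l 16754528) (l 16756744)))))) (c (b (a (a (l 16745960) (l 16762424)) (a (b (l 16756576) (l 16758456)) (l 16762880))) (a (b (a (l 16748720) (l 16754656)) (a (l 16750552) (l 16756432))) (a (b (l 16760272) (l 16762104)) (b (l 16765664)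 (l 16767496))))) (a (b (a (b (l 16740392) (l 16742216)) (b (l 16747024) (l 16748848))) (b (a (l 16743888) (l 16750632)) (a (l 16745536) (l 16752360)))) (b (a (b (l 16753128) (l 16755120)) (b (l 16758896) (l 16761064))) (b (a (l 16757024) (l 16763184)) (a (l 16758952) (l 16765232))))))), by decide +kernel⟩

def k19_A00pm_123_s3 : ∃ t, chk3 f_A00pm_123_s3 t 29 15 1 = true :=
  ⟨(b (a (b (a (b (l 16716632) (c (l 16761528) (l 16757688))) (c (l 16729784) (l 16730584))) (a (b (l 16761248) (l 16763464)) (b (l 16724168) (l 16768408)))) (b (b (a (l 16768632) (l 16752456)) (a (l 16769608) (c (l 16776376) (l 16772352)))) (a (b (l 16739368) (l 16773016)) (b (c (l 16776816) (l 16773880)) (l 16777216))))) (a (b (a (b (l 16765648) (l 16767776)) (b (l 16770664) (l 16772824))) (a (c (l 16771712) (b (l 16768992) (l 16771096))) (b (l 16774848) (a (l 16775592) (l 16777840))))) (b (a (b (l 16775304) (l 16777568)) (c (l 16781080) (l 16759128))) (a (b (l 16800336) (c (l 16780680) (l 16780800)))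 (b (c (l 16782736) (l 16782808)) (c (l 16783056) (l 16783776))))))), by decide +kernel⟩

def k20_A00pm_123_s3 : ∃ t, chk3 f_A00pm_123_s3 t 60 24 1 = true :=
  ⟨(a (b (l 4) (a (b (b (l 4) (a (c (l 537298191) (l 536546575)) (a (c (l 537319439) (l 536572943)) (l 4)))) (c (a (l 537280271) (b (l 537314831) (l 537296143))) (a (l 536253199) (b (l 536565519) (l 536407567))))) (a (b (l 4) (b (a (c (l 537337103) (l 536593167)) (l 4)) (a (c (l 537187855) (l 536304911)) (c (b (l 537344271) (l 537340431)) (b (l 536600079) (l 536593935)))))) (b (l 4) (a (b (l 4) (b (l 4) (c (l 537354767) (l 536612111)))) (l 4)))))) (l 4)), by decide +kernel⟩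

def k21_A00pm_123_s3 : ∃ t, chk3 f_A00pm_123_s3 t 120 25 1 = true :=
  ⟨(b (c (a (b (a (l 537273103) (l 537307919)) (a (l 537292047) (l 537330959))) (b (a (b (l 537339407) (l 537348367)) (b (a (l 537361423) (l 537376015)) (l 537378319))) (a (l 537362959) (l 537393167)))) (a (b (a (l 536505359) (l 536278543)) (a (l 536515087) (l 536561167))) (b (a (b (l 536453647) (l 536592399)) (b (a (l 536615439) (l 536633871)) (l 536630031))) (a (l 536600335) (l 536369679))))) (a (b (a (l 536928783) (l 536967183)) (c (l 537357583) (l 536566287))) (b (a (b (l 536998927) (l 537007119)) (b (l 537032207) (l 537040399))) (a (l 537019919) (l 537036559))))), by decide +kernel⟩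

def k22_A00pm_123_s3 : ∃ t, chk3 f_A00pm_123_s3 t 121 25 1 = true :=
  ⟨(b (a (b (a (b (l 4) (c (a (l 537400079) (l 537347599)) (a (l 536657423) (l 536810255)))) (l 4)) (c (a (b (l 537283087) (l 537427215)) (b (a (l 537438991) (b (l 4) (l 537456143))) (l 537389583))) (a (b (l 536672271) (l 536677647)) (b (a (l 536700175) (b (l 4) (l 536720399))) (a (l 536705551) (l 536724495)))))) (b (l 4) (a (b (l 4) (a (c (l 537478415) (l 536743695)) (b (l 4) (c (l 537495823) (l 536764175))))) (l 4)))) (a (c (b (b (a (l 537437199) (l 537466895)) (a (l 537447439) (l 537477135))) (a (l 537463567) (l 537493519))) (b (b (a (l 536683279) (l 536721167)) (a (l 536689167) (l 536727055))) (a (l 536698639) (l 536468239)))) (b (c (a (b (a (l 537488655) (l 537503759)) (a (l 537499151) (l 537513999))) (b (a (b (l 537516047) (l 537521167)) (b (l 4) (a (l 537532175) (l 4)))) (a (b (l 537526287) (l 537531663)) (l 537409807)))) (a (b (a (l 536749327) (l 536768527)) (a (l 536755471) (l 536774671))) (b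 (a (b (l 536786447) (l 536789263)) (b (l 4) (a (l 536803855) (l 4)))) (a (b (l 536792335) (l 536795407)) (l 536813583))))) (c (a (b (l 537383439) (l 537528591)) (a (l 537276943) (l 537560591))) (a (b (l 536503311) (l 536778255)) (a (l 536535311) (l 536555023))))))), by decide +kernel⟩

def k23_A00pm_123_s3 : ∃ t, chk3 f_A00pm_123_s3 t 61 12 1 = true :=
  ⟨(b (l 4) (a (b (l 4) (a (a (b (b (l 4) (a (c (l 537559055) (l 536833295)) (a (c (l 537570319) (l 536847887)) (l 4)))) (b (c (a (l 537570063) (l 537585167)) (a (l 536839695) (l 536859407))) (c (l 537589007) (l 536588047)))) (b (l 4) (b (c (a (l 537331727) (b (l 4) (l 537618191))) (a (b (l 536877583) (l 536880911)) (b (l 4) (l 536632591)))) (c (a (l 537611279) (l 537626639)) (a (l 536886031) (l 536637711)))))) (b (l 4) (a (a (b (l 4) (b (l 4) (c (l 537644559) (l 536928015)))) (l 4)) (l 4))))) (l 4))), by decide +kernel⟩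

def k24_A00pm_123_s3 : ∃ t, chk3 f_A00pm_123_s3 t 60 13 1 = true :=
  ⟨(b (a (b (a (b (l 536986127) (l 537005327)) (b (a (l 537037327) (l 537070863)) (a (l 16768160) (l 537089551)))) (a (b (l 16757776) (l 16779096)) (b (l 536825359) (l 16758536)))) (b (c (a (b (a (l 537485839) (l 537515791)) (l 537525775)) (b (a (l 537545999) (l 537576207)) (a (l 537569295) (l 537599759)))) (a (b (a (l 536711951) (l 536750095)) (l 536746767)) (b (a (l 536788751) (l 536559375)) (a (l 536803087) (l 536842255))))) (a (b (a (l 16768768) (l 537177615)) (l 536100367)) (b (a (l 537212175) (l 536710415)) (a (l 16769256) (l 536988175)))))) (a (b (a (b (c (l 16784480) (l 16774056)) (c (l 16785224) (l 16773680))) (c (l 16784672) (l 16775120))) (c (a (b (a (l 16785952) (l 16785896)) (a (b (c (l 16789792) (l 16783096)) (b (a (b (a (l 16786488) (l 16786632)) (l 16786328)) (b (l 16786664) (a (l 16786576) (l 16786712)))) (l 16786088))) (b (l 16786400) (b (l 16786656) (a (b (l 16786704) (l 16786504)) (b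 (l 16786760) (l 16786776))))))) (b (l 16785720) (a (l 16786488) (l 16786344)))) (a (b (a (l 16772912) (l 16773608)) (b (a (c (l 16776152) (l 16768968)) (l 16773280)) (a (b (a (b (a (l 16772072) (l 16772328)) (l 16772056)) (b (l 16772616) (l 16772520))) (l 16772048)) (b (l 16773120) (a (b (l 16772840) (l 16772688)) (l 16773216)))))) (b (l 16774552) (a (l 16773856) (l 16774480)))))) (c (b (a (l 16763288) (b (l 16783200) (l 16784008))) (a (b (l 16785336) (l 16786040)) (l 16774696))) (b (a (l 16765616) (b (l 16776912) (l 16776728))) (a (b (l 16775632) (l 16775296)) (l 16776408)))))), by decide +kernel⟩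

def k25_A00pm_123_s3 : ∃ t, chk3 f_A00pm_123_s3 t 122 26 1 = true :=
  ⟨(b (c (a (b (a (l 537338127) (b (l 537630991) (l 537642511))) (a (l 537630223) (l 537661199))) (b (a (b (a (l 537653263) (l 537668623)) (l 537673487)) (b (a (l 537415695) (l 4)) (a (l 537695759) (l 537711375)))) (a (l 537088015) (b (l 537716239) (l 537728783))))) (a (b (a (b (l 536863503) (l 536870671)) (b (a (l 536892943) (l 536913167)) (l 536642319))) (a (l 536613647) (b (l 536918287) (l 536925967)))) (b (a (b (a (l 536933391) (l 536685327)) (a (l 536940559) (l 536961039))) (b (a (b (l 4) (l 536707599)) (l 4)) (a (l 536713231) (b (l 536732175) (l 537004303))))) (a (b (l 536690447) (l 536966671)) (b (a (l 536989199) (l 537010191)) (l 536739855)))))) (a (b (a (l 536477199) (b (l 537044495) (l 537053711))) (a (l 536753423) (l 536518671))) (b (a (b (l 536543503) (l 536821007)) (b (a (l 537106703) (l 536856591)) (l 536320015))) (a (b (l 537090063) (l 537353487)) (b (l 536586767) (l 536847375)))))), by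 decide +kernel⟩

def k26_A00pm_123_s3 : ∃ t, chk3 f_A00pm_123_s3 t 123 26 1 = true :=
  ⟨(b (c (b (a (b (l 4) (a (a (l 537726735) (l 4)) (l 4))) (l 4)) (a (a (b (l 537210639) (l 537760015)) (b (l 4) (l 537522703))) (l 4))) (a (b (a (b (l 4) (a (b (l 4) (l 536756751)) (l 4))) (l 4)) (a (b (a (l 536762639) (b (l 4) (l 537053967))) (a (l 537038863) (l 536791567))) (b (l 4) (a (l 536813071) (b (l 4) (l 537104911)))))) (l 4))) (a (b (a (b (a (l 536875023) (l 536624911)) (a (l 536882959) (l 536900879))) (b (a (l 536375055) (c (l 537810959) (l 537111055))) (a (l 536649999) (c (l 537816847) (l 537112335))))) (c (a (l 537237007) (l 536990479)) (a (b (l 536787215) (l 537041423)) (b (a (l 537080847) (l 537097487)) (l 536807439))))) (b (c (a (b (a (l 537831439) (l 537849871)) (l 537838351)) (b (l 4) (l 537875983))) (b (a (a (b (l 537130511) (l 536868367)) (b (l 4) (l 536892687))) (l 4)) (a (a (l 536861455) (l 537153551)) (a (l 536910351) (l 4))))) (a (b (a (l 536670479) (l 536690959))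 (c (l 537825295) (l 536850703))) (a (b (l 536713231) (l 536973583)) (b (l 536467727) (l 536996623))))))), by decide +kernel⟩

def k27_A00pm_123_s3 : ∃ t, chk3 f_A00pm_123_s3 t 61 27 1 = true :=
  ⟨(a (a (b (b (a (l 537013775) (l 536775439)) (a (l 16759400) (l 16769784))) (c (l 16774032) (b (l 16777160) (l 16777024)))) (b (b (a (l 536267279) (b (l 537105167) (l 537362959))) (a (l 536517391) (l 536009999))) (b (a (l 16770048) (l 536539151)) (c (l 16784096) (l 16777672))))) (b (a (b (a (b (l 536864527) (l 536855823)) (b (l 536358927) (l 536620815))) (a (c (l 16776296) (l 536734991)) (b (l 536884495) (l 536881167)))) (a (b (b (c (l 537820431) (l 536840463)) (l 536123663)) (b (l 536656655) (l 536654351))) (c (b (l 537053199) (l 537319695)) (b (b (l 536891663) (l 536883983)) (b (l 537145871) (l 537141007)))))) (a (b (a (l 536037135) (c (l 16771496) (l 536768015))) (a (l 16770320) (l 536079119))) (a (b (c (l 16776192) (l 536279567)) (c (l 16782472) (l 16778384))) (b (b (l 536699919)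 (l 536969487)) (c (l 16771432) (l 536332559))))))), by decide +kernel⟩

def k28_A00pm_123_s3 : ∃ t, chk3 f_A00pm_123_s3 t 60 14 1 = true :=
  ⟨(b (b (a (c (b (a (b (a (l 16785208) (l 16785944)) (l 16784432)) (b (a (b (a (l 16786696) (l 16786888)) (l 16786360)) (b (l 16786768) (l 16786856))) (a (l 16785552) (l 16786168)))) (a (b (l 16783288) (l 16782216)) (l 16779032))) (a (b (b (c (l 16775456) (l 16768440)) (l 16771384)) (l 16775680)) (b (b (a (b (a (l 16773344) (l 16773800)) (l 16773240)) (b (l 16774232) (a (l 16773928) (l 16774336)))) (a (l 16772792) (l 16773624))) (l 16772336)))) (b (c (a (b (l 16786576) (a (b (l 16786912) (l 16786544)) (l 16786920))) (l 16786312)) (a (b (l 16775056) (a (b (l 16774680) (l 16774336)) (l 16775296))) (l 16776056))) (c (a (b (a (l 16785840) (l 16786376)) (l 16785200)) (b (a (b (l 16787008) (l 16786784)) (l 16786928)) (a (l 16786248) (b (l 16786944) (l 16786704))))) (a (b (a (l 16773960) (l 16774736)) (l 16773888)) (b (a (b (l 16775760) (l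 16775496)) (l 16776312)) (a (l 16775240) (b (l 16776136) (l 16776016)))))))) (c (b (a (a (l 16780904) (l 16782504)) (a (l 16784040) (l 16785488))) (a (a (l 16779624) (l 16781336)) (l 16778504))) (a (b (a (l 16769584) (l 16771520)) (a (l 16769312) (l 16771320))) (b (a (l 16773416) (l 16775256)) (l 16768984))))) (b (c (a (b (l 16769296) (l 16779504)) (b (l 16772720) (l 16783064))) (a (b (l 16760136) (l 16771360)) (b (l 16764136) (l 16775432)))) (a (b (a (l 16775040) (l 16777072)) (a (l 16775864) (l 16777928))) (b (a (l 16779024) (l 16780872)) (a (l 16779904) (l 16781760)))))), by decide +kernel⟩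

def k29_A00pm_123_s3 : ∃ t, chk3 f_A00pm_123_s3 t 61 14 1 = true :=
  ⟨(b (a (b (a (c (b (l 16785752) (b (l 16786456) (a (b (l 16787032) (l 16787136)) (l 16786888)))) (b (l 16776968) (b (l 16776976) (a (b (l 16776816) (l 16776808)) (l 16777320))))) (b (c (l 16785064) (l 16777736)) (c (l 16786120) (l 16777896)))) (a (b (b (a (l 16781784) (c (b (l 16787344) (l 16787168)) (b (l 16777504) (l 16777376)))) (l 16781840)) (c (l 16785928) (l 16776976))) (b (a (b (c (l 16787400) (l 16778160)) (c (l 16787320) (l 16767584))) (b (l 16782824) (c (b (l 16787696) (l 16787784)) (b (l 16778888) (l 16778920))))) (c (l 16787232) (l 16778688))))) (b (b (a (c (l 16784240) (l 16778320)) (a (l 16770648) (c (l 16783008) (l 16778768)))) (a (c (l 16785352) (l 16778584)) (c (l 16773928) (l 16768568)))) (b (c (a (a (l 16787096) (l 16786648)) (l 16775464)) (a (a (l 16779136) (l 16779424)) (l 16779816))) (b (c (a (a (b (l 16788104) (l 16788072)) (l 16788192)) (l 16787424)) (a (a (b (l 16779728) (l 16779760))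 (l 16769920)) (l 16780728))) (a (a (l 16784064) (c (l 16788352) (l 16770096))) (a (b (c (l 16788576) (l 16781240)) (a (l 16774616) (l 16774880))) (l 16774552))))))) (a (b (b (c (l 16786192) (l 16773056)) (a (l 16771440) (l 16783512))) (b (a (l 16782608) (l 16763304)) (a (l 16783560) (l 16785080)))) (b (a (b (c (l 16788088) (l 16780776)) (b (l 16784800) (l 16785144))) (b (b (a (l 16774872) (b (a (l 16775216) (l 16764856)) (a (l 16785864) (l 16775560)))) (l 16775360)) (c (l 16789224) (l 16783104)))) (b (a (l 16785656) (c (l 16789400) (l 16784032))) (a (l 16786344) (l 16787168)))))), by decide +kernel⟩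

def k30_A00pm_123_s3 : ∃ t, chk3 f_A00pm_123_s3 t 30 15 1 = true :=
  ⟨(b (a (b (a (b (l 16756888) (l 16757792)) (b (a (l 16780848) (l 16782752)) (l 16761696))) (a (b (a (l 16778496) (l 16780536)) (l 16759896)) (b (l 16762080) (l 16767744)))) (b (a (b (a (l 16784392) (l 16785760)) (a (l 16784936) (l 16785952))) (b (a (l 16786696) (l 16766272)) (a (l 16786600) (l 16786912)))) (a (b (l 16774816) (a (l 16784488) (l 16784848))) (a (b (l 16786008) (l 16784968)) (b (l 16786104) (l 16784872)))))) (a (b (a (b (l 16782552) (l 16783920)) (b (l 16784408) (c (l 16785080) (l 16784968)))) (a (b (c (l 16784328) (l 16784800)) (c (l 16783976) (l 16785176))) (b (c (l 16784712) (l 16785448)) (c (l 16783872) (a (l 16785432) (l 16785312)))))) (a (b (b (l 16769016) (c (l 16784936) (l 16784880))) (b (c (l 16784168) (a (l 16785216) (l 16784800))) (c (a (l 16783232) (l 16782696)) (a (l 16784952) (l 16784496))))) (b (b (a (l 16763304) (b (l 16783840) (l 16783672))) (a (l 16794672) (b (l 16783576)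 (l 16783384)))) (b (c (a (l 16783288) (l 16782616)) (a (l 16784184) (l 16783480))) (c (a (l 16782096) (b (l 16781752) (l 16781152))) (a (b (l 16784000) (l 16783808)) (b (l 16783360) (l 16783248))))))))), by decide +kernel⟩

def k31_A00pm_123_s3 : ∃ t, chk3 f_A00pm_123_s3 t 31 6 1 = true :=
  ⟨(b (l 4) (a (b (a (a (a (b (l 4) (a (b (l 4) (b (c (l 537897743) (l 537219343)) (l 536751631))) (b (l 4) (b (l 4) (l 536775951))))) (l 4)) (l 4)) (l 4)) (a (b (a (b (a (b (c (l 537900303) (l 536945935)) (c (l 537897999) (l 536938511))) (a (b (l 537062927) (l 536789775)) (b (l 4) (c (l 537950991) (l 537277711))))) (a (b (c (l 537897231) (l 536932367)) (c (l 537897999) (l 536927759))) (a (b (l 536786703) (l 537590543)) (b (l 537081103) (l 537079567))))) (b (a (a (a (b (l 4) (l 537103119)) (l 4)) (l 4)) (l 4)) (a (b (c (l 537986831) (l 537050639)) (l 536316175)) (b (l 4) (c (l 538036239) (l 537379343)))))) (b (a (a (b (l 536211727) (l 536481551)) (a (c (l 537934351) (l 536966671)) (l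 536275983))) (a (b (l 536585231) (l 536587279)) (b (c (l 538039567) (l 537377295)) (l 536375567)))) (b (a (a (l 536753167) (l 536536591)) (a (l 536591119) (l 536379663))) (a (a (l 536758031) (l 536810255)) (a (l 536865039) (l 536653839)))))) (b (l 4) (a (a (b (c (l 537020175) (b (l 537176335) (l 537176335))) (c (l 537034511) (b (l 537446415) (l 537449743)))) (b (l 4) (a (a (l 537014543) (l 537030159)) (a (l 537046031) (l 537061903))))) (a (a (a (b (l 4) (l 537078031)) (l 4)) (l 4)) (l 4)))))) (l 4))), by decide +kernel⟩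

def k32_A00pm_123_s3 : ∃ t, chk3 f_A00pm_123_s3 t 124 28 1 = true :=
  ⟨(b (a (b (a (c (l 16771936) (l 16773592)) (b (l 536816911) (l 536825359))) (a (c (l 16783592) (l 16768768)) (c (l 16772480) (l 16779288)))) (a (b (b (l 536872207) (l 536880911)) (b (l 536891919) (l 536648719))) (b (a (l 536649743) (l 536410639)) (b (l 536681999) (c (l 16776592) (l 16779256)))))) (a (b (a (c (l 16785144) (l 16780072)) (c (l 16784536) (l 16780144))) (c (c (l 16788168) (l 16785576)) (c (l 16782864) (l 16780032)))) (b (c (a (l 16773368) (l 16777856)) (a (l 16780128) (l 16774784))) (a (b (l 16772800) (l 16773784)) (c (l 16774672) (l 16776216)))))), by decide +kernel⟩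

def k33_A00pm_123_s3 : ∃ t, chk3 f_A00pm_123_s3 t 125 28 1 = true :=
  ⟨(b (a (b (b (a (l 536453391) (a (l 537839631) (l 537871375))) (a (l 536463119) (c (l 537920271) (l 537265935)))) (a (b (l 536206607) (a (l 16774936) (l 537596175))) (c (b (l 537398543) (l 538247183)) (b (l 537007375) (l 536509455))))) (b (b (a (c (l 537694991) (l 537065999)) (l 4)) (a (c (l 538245135) (l 537073935)) (a (l 537444879) (l 4)))) (b (b (a (c (l 537986831) (l 537616655)) (a (l 537990671) (l 536932367))) (a (c (l 538257679) (l 537347599)) (a (l 537210383) (l 537234703)))) (a (a (l 537985295) (l 537762575)) (a (c (l 538384655) (l 537758479)) (c (l 538405391) (l 537790223))))))) (a (b (a (b (c (l 16781808) (l 16774280)) (c (l 16782736) (l 16780152))) (a (b (l 537979919) (l 537806351)) (b (l 538028047) (l 537853455)))) (a (c (c (l 16784968) (l 16778272)) (c (l 16776752) (l 16780400))) (c (b (c (l 16783280) (l 16776960)) (l 16778480)) (a (l 16775720) (c (l 16781304) (l 16774872)))))) (b (b (a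 (a (l 537808655) (l 537586703)) (a (c (l 538470159) (l 537841423)) (c (l 538488591) (l 537065743)))) (a (a (l 537562639) (c (l 538521103) (l 537879055))) (a (c (l 538550543) (l 537113871)) (c (l 538298895) (b (l 537927695) (l 537964559)))))) (b (a (a (c (l 16781904) (l 16780088)) (c (l 16778664) (l 537149199))) (a (c (l 538625551) (a (l 16776872) (l 537997583))) (c (b (l 538622735) (l 538658831)) (a (l 538010639) (l 537217039))))) (a (a (c (l 16782832) (l 16780744)) (c (l 538671887) (c (l 16780864) (l 16779920)))) (c (a (a (l 16781680) (l 16778704)) (a (l 16778344) (l 538712591))) (a (c (l 16777768) (l 16776984)) (a (l 537271567) (b (l 538072079) (l 16779600)))))))))), by decide +kernel⟩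

def k34_A00pm_123_s3 : ∃ t, chk3 f_A00pm_123_s3 t 124 29 1 = true :=
  ⟨(b (a (b (b (a (c (l 16789096) (l 16782808)) (l 16775176)) (a (a (l 16775984) (b (l 16776152) (l 16786848))) (b (l 16776032) (a (l 16776480) (l 16776536))))) (a (l 16776472) (a (l 16776784) (c (l 16779464) (l 16779152))))) (b (a (b (l 16774808) (l 16775872)) (c (l 16787416) (l 16772624))) (a (b (b (a (l 16776824) (l 16766024)) (a (l 16776936) (l 16776992))) (l 16777056)) (b (l 16776280) (b (a (l 16777080) (l 16776856)) (b (a (l 16787680) (l 16777128)) (l 16777104))))))) (a (b (b (l 16776896) (l 16777000)) (c (l 16789696) (l 16785360))) (b (a (l 16777184) (l 16777192)) (a (l 16777152) (l 16777072))))), by decide +kernel⟩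

def k35_A00pm_123_s3 : ∃ t, chk3 f_A00pm_123_s3 t 125 58 1 = true :=
  ⟨(a (c (a (b (l 16781152) (a (l 16788920) (l 16788216))) (b (c (l 16780688) (l 16779272)) (l 16782000))) (c (a (b (l 16783704) (b (l 16784968) (l 16785920))) (b (l 16777792) (l 16779384))) (c (a (b (l 16782288) (l 16778648)) (b (l 16776624) (l 16783248))) (a (b (l 16781312) (l 16777520)) (b (l 16775824) (l 16782296)))))) (a (b (c (a (l 16779032) (b (l 16777864) (l 16784048))) (b (a (l 16781424) (c (l 16781584) (l 16780504))) (a (l 16782112) (l 16776480)))) (c (a (l 16780960) (l 16780224)) (b (c (l 16778080) (l 16776632)) (l 16778056)))) (b (b (a (c (a (l 16782584) (l 16782216)) (c (l 16781096) (l 16777552))) (a (c (l 16779224) (l 16777680)) (c (l 16778848) (c (l 16780432) (l 16779696))))) (c (a (a (l 16783504) (l 16783128)) (a (l 16780120) (l 16779728))) (a (c (l 16781816) (l 16780760)) (c (c (l 16781488) (l 16781048)) (l 16777744))))) (b (c (a (l 16778984) (a (l 16783640) (l 16778000))) (a (l 16776712)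 (c (c (l 16782232) (l 16781728)) (l 16778320)))) (c (a (l 16785144) (l 16779096)) (a (l 16777376) (c (l 16782696) (l 16781528)))))))), by decide +kernel⟩

def k36_A00pm_123_s3 : ∃ t, chk3 f_A00pm_123_s3 t 125 59 1 = true :=
  ⟨(a (b (a (b (a (a (l 16777104) (b (l 16777072) (l 16787608))) (b (l 16776920) (l 16776960))) (l 16777048)) (b (a (c (l 16789160) (l 16779824)) (l 16776040)) (a (b (l 16776824) (l 16787352)) (b (a (l 16776744) (l 16776560)) (l 16776640))))) (a (l 16776904) (b (l 16776696) (l 16776528)))) (b (c (a (a (b (l 16787624) (b (l 16788320) (l 16788736))) (l 16782080)) (b (a (l 16786056) (l 16779976)) (l 16781000))) (c (a (b (l 16779576) (a (l 16780664) (l 16785280))) (a (l 16779128) (l 16778520))) (a (b (l 16783104) (a (b (l 16783720) (l 16778784)) (l 16783512))) (b (a (l 16782536) (l 16782112)) (l 16777656))))) (a (b (a (c (l 16788608) (l 16774504)) (b (a (b (l 16776296) (l 16776272)) (l 16776104)) (l 16776136))) (l 16776160)) (b (a (b (l 16775552) (a (b (l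 16775992) (l 16775968)) (l 16781032))) (l 16780280)) (a (a (l 16775888) (l 16775712)) (b (a (b (l 16780896) (l 16775616)) (l 16780672)) (l 16780688))))))), by decide +kernel⟩

def k37_A00pm_123_s3 : ∃ t, chk3 f_A00pm_123_s3 t 62 15 1 = true :=
  ⟨(b (a (a (b (b (l 16776952) (l 16776424)) (b (l 16785944) (l 16784584))) (b (b (a (l 16787360) (l 16776720)) (c (l 16788024) (l 16785152))) (b (l 16775064) (l 16773632)))) (b (c (b (a (l 16788368) (b (l 16777152) (l 16787208))) (a (l 16787360) (a (l 16786696) (l 16786160)))) (a (b (l 16785192) (l 16774208)) (b (c (l 16785304) (l 16778544)) (b (l 16773672) (l 16783784))))) (a (b (a (l 16785104) (l 16774264)) (a (l 16783648) (l 16783312))) (b (a (b (l 16784648) (l 16784008)) (b (l 16784184) (l 16783568))) (a (l 16777720) (b (l 16782912) (l 16782232))))))) (a (b (b (a (b (l 16783368) (l 16782864)) (b (l 16782816) (l 16771616))) (a (b (l 16782760) (l 16782600)) (b (l 16781888) (l 16781776)))) (b (a (b (l 16782376) (c (l 16781648) (l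 16782712))) (b (c (l 16781440) (l 16781888)) (c (l 16781000) (l 16781984)))) (c (a (b (l 16781136) (l 16780592)) (b (l 16780544) (l 16780048))) (a (b (l 16782712) (l 16782680)) (b (l 16782056) (a (l 16782232) (l 16781928))))))) (b (c (b (a (l 16772056) (l 16776672)) (a (b (l 16781416) (l 16781096)) (b (l 16780744) (l 16780368)))) (b (a (a (l 16781408) (l 16781080)) (l 16775432)) (a (b (l 16780608) (l 16780864)) (b (a (l 16779976) (l 16779680)) (l 16779968))))) (b (a (c (b (l 16780752) (l 16780376)) (b (l 16781072) (l 16781240))) (b (a (l 16785568) (c (l 16779920) (l 16780032))) (c (a (l 16779912) (l 16779616)) (a (l 16780664) (l 16780272))))) (a (c (b (l 16785208) (a (l 16779656) (l 16779400))) (b (a (l 16781544) (l 16781192)) (a (l 16781616) (l 16781304)))) (c (b (a (l 16779552) (l 16779280)) (a (l 16779160) (b (l 16779008) (l 16778816)))) (b (a (l 16780840) (l 16780480)) (a (b (l 16780944) (l 16781008)) (b (l 16780608) (l 16780680)))))))))), by decide +kernel⟩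

def k38_A00pm_123_s3 : ∃ t, chk3 f_A00pm_123_s3 t 252 56 1 = true :=
  ⟨(a (a (b (l 4) (b (l 4) (c (l 538416399) (a (l 537805583) (l 537815823))))) (l 4)) (l 4)), by decide +kernel⟩

def k39_A00pm_123_s3 : ∃ t, chk3 f_A00pm_123_s3 t 504 57 1 = true :=
  ⟨(b (c (a (b (a (l 538495503) (l 538499855)) (a (l 538574095) (l 538578703))) (a (b (l 538503439) (b (l 538562575) (l 538600719))) (b (b (l 4) (l 538525967)) (b (l 538565391) (l 538603535))))) (a (b (a (l 537886223) (l 537896463)) (b (l 537949711) (a (l 537979919) (l 537990159)))) (b (a (l 537905679) (b (l 4) (l 537933583))) (a (b (l 537962767) (l 537999375)) (b (l 537971471) (l 538008335)))))) (b (b (a (c (l 538365199) (a (l 538015503) (l 538025487))) (c (a (l 538637839) (l 538372111)) (a (l 538034959) (l 538043663)))) (a (c (a (l 538665743) (l 538670095)) (a (l 538049807) (l 538059791))) (c (a (l 538673935) (c (l 538817039) (l 538532623))) (a (l 538069263) (a (l 538075407) (l 538079503)))))) (a (a (c (b (l 538700559)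 (l 538734095)) (b (l 538082831) (l 538114575))) (c (b (l 538704911) (l 538738447)) (b (l 538093071) (l 538124815)))) (a (c (b (l 538708495) (l 538473743)) (b (l 538102287) (l 538134287))) (c (b (c (l 538852111) (l 538566927)) (l 538275343)) (b (a (l 538108431) (l 538112527)) (a (l 538140175) (l 538144271)))))))), by decide +kernel⟩

def k40_A00pm_123_s3 : ∃ t, chk3 f_A00pm_123_s3 t 505 114 1 = true :=
  ⟨(a (b (l 4) (a (c (b (c (l 538436879) (l 538425615)) (b (l 538059023) (l 538077711))) (b (l 537979407) (a (l 538013711) (l 538017551)))) (b (l 4) (c (c (a (l 538742799) (l 538473999)) (a (l 538465039) (l 538466063))) (a (l 538021135) (b (l 4) (l 538033423))))))) (l 4)), by decide +kernel⟩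

def k41_A00pm_123_s3 : ∃ t, chk3 f_A00pm_123_s3 t 1010 115 1 = true :=
  ⟨(b (a (c (b (c (l 538781199) (a (l 538499087) (l 538500367))) (a (c (l 538816783) (l 538534671)) (b (l 538132495) (l 538150159)))) (b (a (l 538049295) (l 538053135)) (a (l 538083599) (b (l 538078735) (l 538095631))))) (b (c (c (b (l 538502671) (a (l 538789391) (l 538520335))) (a (l 538501647) (b (l 538493455) (l 538511631)))) (a (b (l 538047759) (l 538065167)) (b (l 538051087) (a (l 538067727) (l 538069263))))) (c (c (a (b (l 538807567) (l 538825231)) (b (l 538538511) (l 538824975))) (a (b (l 538528271) (l 538545935)) (b (l 538529295) (l 538546959)))) (a (b (l 538082319) (l 538099215)) (b (a (l 538084879) (l 538086415)) (a (l 538101519) (l 538103311))))))) (a (a (c (b (l 538443791) (l 538477583)) (b (l 538116623) (l 538148367))) (c (b (c (l 538851855) (l 538570511)) (c (l 538885903) (l 538603791))) (b (b (l 538112015) (l 538128399)) (b (l 538144271) (l 538159631))))) (b (c (c (a (l 538851599) (l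 538616335)) (a (l 538571791) (b (l 538564111) (l 538581007)))) (a (b (l 538115599) (l 538131983)) (b (l 538119183) (l 538135311)))) (b (a (c (l 538470415) (l 538147855)) (c (l 538202127) (l 538151183))) (c (c (l 538894095) (l 538345487)) (a (l 538163215) (l 538166799))))))), by decide +kernel⟩

def k42_A00pm_123_s3 : ∃ t, chk3 f_A00pm_123_s3 t 1011 115 1 = true :=
  ⟨(b (a (c (a (b (b (a (c (l 538769679) (l 538493967)) (l 4)) (c (c (l 538720527) (l 538720527)) (a (l 538512143) (l 538512399)))) (c (b (c (l 538873103) (l 538738703)) (l 538555663)) (b (l 538462991) (l 538547727)))) (b (l 4) (c (b (l 538536975) (l 538554639)) (b (l 538530831) (l 538548239))))) (b (a (b (a (l 538053391) (l 4)) (a (b (l 538066703) (l 538075151)) (b (l 538068239) (l 538076687)))) (l 4)) (a (b (a (l 538020879) (l 538089743)) (a (l 538104847) (l 538106383))) (b (a (l 538091279) (l 538092559)) (a (l 538107919) (l 538109455)))))) (b (l 4) (b (l 4) (a (c (c (l 538553615) (l 538548751)) (a (l 538110991)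 (l 538112271))) (l 4))))) (a (b (b (c (c (a (l 538841615) (l 538840847)) (a (l 538564879) (l 538565647))) (a (a (l 538121487) (l 538123023)) (a (l 538124559) (l 538125839)))) (c (a (c (l 538859023) (l 538581775)) (c (l 538857999) (l 538582543))) (a (l 538138639) (l 538141455)))) (c (c (a (l 538616079) (l 538615055)) (a (b (l 538598415) (l 538614799)) (b (l 538598927) (l 538615311)))) (a (b (l 538154511) (l 538169871)) (b (l 538157327) (l 538172943))))) (b (c (c (b (a (l 538571023) (l 538569743)) (a (l 538856719) (l 538586895))) (a (b (l 538565903) (l 538582799)) (b (l 538566159) (l 538583055)))) (a (b (a (l 538127375) (l 538128655)) (a (l 538143503) (l 538145039))) (b (a (l 538130191) (l 538131471)) (a (l 538146319) (l 538147599))))) (a (c (c (l 538614031) (b (l 538599439) (l 538615823))) (b (l 538160399) (l 538175759))) (c (b (c (l 538872335) (l 538599439)) (c (l 538889231) (l 538615823))) (b (a (l 538162191) (l 538163471)) (l 538111503))))))), by decide +kernel⟩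

def k43_A00pm_123_s3 : ∃ t, chk3 f_A00pm_123_s3 t 253 28 1 = true :=
  ⟨(b (l 4) (a (b (l 4) (a (b (l 4) (c (c (b (a (a (b (l 4) (l 538585359)) (l 4)) (l 4)) (b (a (a (l 538870799) (l 538600207)) (l 4)) (a (a (l 538887439) (l 538885391)) (a (l 538614799) (l 4))))) (a (a (b (b (l 4) (l 538582799)) (b (l 538599439) (l 538615823))) (b (l 4) (b (l 538599183) (l 538615567)))) (b (l 4) (a (b (l 4) (l 538615055)) (l 4))))) (a (b (a (b (l 4) (a (l 538148879) (l 538149903))) (l 4)) (c (a (b (l 538313743) (l 538329615)) (b (l 538315023) (l 538330895))) (a (b (l 538013455) (l 538028815)) (b (l 538016783) (l 538031887))))) (a (b (l 4) (b (l 4) (a (l 538184719) (l 538185487)))) (l 4))))) (l 4))) (l 4))), by decide +kernel⟩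

def k44_A00pm_123_s3 : ∃ t, chk3 f_A00pm_123_s3 t 504 58 1 = true :=
  ⟨(b (a (b (a (c (c (l 16778752) (l 16778160)) (b (l 538145295) (l 16777352))) (c (b (l 538770959) (l 538802191)) (b (l 538155279) (l 538184463)))) (a (c (l 16779328) (c (l 16780840) (l 16780048))) (b (c (l 16778712) (l 538212367)) (c (l 16779144) (l 16777720))))) (a (b (c (b (l 538774543) (l 538805775)) (b (l 537896207) (l 537657103))) (b (c (l 538835727) (l 537685007)) (c (l 538864655) (l 537711631)))) (b (b (c (l 538240527) (a (l 538170639) (l 538174991))) (c (l 538271759) (a (l 538200079) (l 538204175)))) (b (c (l 538570255) (a (l 538227983) (l 538232079))) (c (l 538598927) (c (l 16780104) (l 16779504))))))) (a (c (b (a (l 16780208) (l 16779800)) (c (l 16780704) (l 16780424))) (c (b (c (l 16778976) (l 16778544)) (c (l 16782328) (l 16781840))) (b (a (l 16780616) (l 16780392)) (l 16778456)))) (b (a (b (c (l 16779168) (l 537736975)) (c (l 16779592) (l 16778080))) (b (c (l 538895119) (c (l 16780440)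 (l 16779776))) (c (l 16779176) (c (l 16780776) (l 16780056))))) (c (a (l 16780240) (l 16779808)) (c (b (l 16778656) (l 16778992)) (a (l 16780720) (l 16780472))))))), by decide +kernel⟩

def k45_A00pm_123_s3 : ∃ t, chk3 f_A00pm_123_s3 t 1010 116 1 = true :=
  ⟨(b (a (a (c (b (l 538509839) (l 538541071)) (b (l 538178831) (l 538208015))) (b (c (l 538107919) (b (l 538174991) (l 538189839))) (c (l 538541839) (l 538077711)))) (b (c (a (l 538376975) (c (l 538917903) (l 538369551))) (a (b (l 538178575) (l 538193423)) (b (l 538181903) (l 538197007)))) (c (b (l 538333967) (l 538416399)) (c (a (l 538370063) (l 538372623)) (a (l 538056975) (l 538061327)))))) (a (b (c (c (l 538981391) (l 538695951)) (a (l 538235919) (l 537971215))) (c (l 538332431) (a (l 538262543) (l 537997839)))) (b (c (a (l 538572303) (l 538572815)) (c (a (l 538398479) (l 538401039)) (a (l 538084111) (l 538088463)))) (c (a (l 538869775) (l 538601487)) (a (l 537732879) (c (l 16779400) (l 538114319))))))), by decide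 +kernel⟩

def k46_A00pm_123_s3 : ∃ t, chk3 f_A00pm_123_s3 t 1011 116 1 = true :=
  ⟨(b (c (c (a (b (a (l 538917391) (l 538916367)) (b (l 538941199) (l 538956815))) (b (a (l 538915087) (l 538645263)) (a (l 538946831) (l 538945551)))) (b (a (a (l 538370319) (l 538370831)) (a (b (l 538631695) (l 538647311)) (b (l 538631951) (l 538647567)))) (a (b (l 538394383) (l 538409487)) (a (l 538402063) (l 538267919))))) (a (c (b (a (l 538076687) (l 538078991)) (a (l 538106639) (l 538108687))) (b (a (l 537768207) (l 537772047)) (a (l 537796879) (l 537800719)))) (c (b (a (l 538215183) (b (l 538343439) (l 538358543))) (b (l 538238991) (l 538119439))) (b (b (a (l 538036751) (l 538040335)) (a (l 538051343) (l 538054927))) (b (l 537866767) (l 537813519)))))) (a (b (c (a (l 538304271) (l 538304271)) (a (b (l 538242831) (l 538256655)) (b (l 538245903) (l 538259471)))) (c (a (l 538601487) (l 538601487)) (a (b (l 538269711) (l 538282767)) (b (l 538272783) (l 538285839))))) (b (c (b (c (l 538969615)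 (l 538425103)) (l 538378511)) (a (b (l 538248719) (l 538262287)) (b (l 538251279) (l 538265103)))) (c (a (l 538600975) (l 538331919)) (a (b (l 538275599) (l 538288655)) (b (l 538278159) (l 538291215))))))), by decide +kernel⟩

def k47_A00pm_123_s3 : ∃ t, chk3 f_A00pm_123_s3 t 505 117 1 = true :=
  ⟨(a (a (b (b (c (l 538628623) (c (l 538179599) (l 537860367))) (c (l 538654991) (c (l 16780456) (l 16779808)))) (b (c (l 16779168) (c (l 16780792) (l 16780080))) (l 14))) (b (b (c (l 538361103) (a (l 538026767) (l 537761551))) (c (l 538387471) (a (l 538050575) (l 538053903)))) (l 14))) (a (b (a (b (c (l 538897679) (c (l 16779560) (l 16779096))) (c (l 538924047) (l 537788687))) (b (c (l 538628879) (b (l 538298383) (l 538310671))) (l 14))) (l 14)) (b (a (b (c (l 538628623) (b (l 538301199) (l 538313487))) (l 14)) (b (c (l 538627855) (b (l 538303759) (l 538316047))) (l 14))) (l 14)))), by decide +kernel⟩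

def k48_A00pm_123_s3 : ∃ t, chk3 f_A00pm_123_s3 t 1012 232 1 = true :=
  ⟨(c (c (a (a (b (l 538643727) (l 538943759)) (b (a (l 538910479) (l 538640911)) (l 538673423))) (a (b (a (l 538639887) (l 538638607)) (l 538671119)) (b (b (l 538897167) (l 538913295)) (b (l 538929167) (l 538944783))))) (b (a (a (b (l 538631695) (l 538647567)) (b (l 538631439) (l 538647311))) (a (b (l 538630927) (l 538646543)) (b (l 538630159) (l 538645775)))) (a (b (a (l 538662927) (l 538662671)) (a (l 538678031) (l 538677775))) (b (a (l 538662159) (l 538661391)) (a (l 538677007) (l 538676239)))))) (c (a (b (a (b (l 538344975) (l 538360335)) (b (l 538346511) (l 538361615))) (a (b (l 538375183) (l 538389775)) (b (l 538376463) (l 538391055)))) (b (a (b (l 538347535) (l 538362895)) (b (l 538348559) (l 538363919))) (a (b (l 538377743) (l 538392335)) (b (l 538378767) (l 538393103))))) (a (b (a (b (l 538043663) (l 538058255)) (b (l 538046735) (l 538061327))) (b (a (l 538072591) (l 538075663)) (a (l 538086415)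 (l 538089487)))) (b (a (b (l 538049807) (l 538064399)) (b (l 538052623) (l 538067215))) (a (b (l 538078735) (l 538092559)) (b (l 538081551) (l 538095375))))))), by decide +kernel⟩

def k49_A00pm_123_s3 : ∃ t, chk3 f_A00pm_123_s3 t 1012 233 1 = true :=
  ⟨(c (b (a (a (c (l 538974223) (l 538163215)) (c (l 538972431) (l 538297103))) (a (b (l 538560527) (l 538575375)) (b (l 538424847) (l 538573839)))) (a (a (l 538465295) (a (l 538598415) (l 538597903))) (a (b (l 538589711) (l 538603791)) (b (l 538588175) (l 538602255))))) (c (a (b (b (a (l 538403855) (l 538405391)) (l 538285071)) (b (l 538164239) (l 538446095))) (b (a (b (l 538406415) (l 538420495)) (b (l 538407439) (l 538421263))) (a (b (l 538434063) (l 538447119)) (b (l 538434831) (l 538448143))))) (a (b (b (a (l 538099983) (l 538103055)) (l 537981199)) (b (l 537860111) (l 537872655))) (b (a (b (l 538106127) (l 538119439)) (b (l 538108943) (l 538122255))) (a (b (l 538132239) (l 538144783)) (b (l 538135055) (l 538147599))))))),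 by decide +kernel⟩

def k50_A00pm_123_s3 : ∃ t, chk3 f_A00pm_123_s3 t 1013 116 1 = true :=
  ⟨(b (c (c (a (a (b (b (l 4) (l 538910735)) (b (l 538926607) (l 538941967))) (b (l 4) (b (l 538923535) (l 538939151)))) (a (b (l 4) (b (l 4) (l 538935823))) (l 4))) (a (a (b (b (l 4) (l 538644751)) (b (l 538660367) (l 538675471))) (b (l 4) (b (l 538390543) (l 538674191)))) (b (l 4) (a (b (l 4) (c (l 538739727) (l 538604559))) (l 4))))) (c (a (b (a (b (l 4) (l 538364687)) (l 4)) (a (b (l 538379535) (l 538393871)) (b (l 538380047) (l 538394639)))) (a (b (l 4) (b (l 4) (l 538260751))) (l 4))) (a (b (a (b (l 4) (l 538069775)) (l 4)) (a (b (l 538084111) (l 538097935)) (b (l 538086415) (l 538100495)))) (b (l 4) (a (b (l 4) (l 537834255)) (l 4)))))) (c (b (a (a (b (c (l 538957327) (l 538690063)) (l 538437647)) (b (c (l 538954255) (l 538688783)) (l 538469135))) (a (b (c (l 538951183) (l 538418959)) (c (l 538966031) (l 538433295))) (b (c (l 538947599) (c (l 538752527) (l 538617871))) (c (l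 538962447) (l 538431759))))) (a (b (a (l 538586383) (l 538449935)) (l 14)) (l 14))) (c (b (a (a (b (l 538408207) (l 538422031)) (b (l 538408719) (l 538422543))) (a (b (l 538408975) (l 538423055)) (b (l 538275087) (l 538423055)))) (a (b (a (l 538435599) (l 538436111)) (l 14)) (l 14))) (a (b (a (b (l 538111503) (l 538124815)) (b (l 538114063) (l 538127119))) (b (a (l 538137615) (l 538140175)) (l 14))) (b (a (b (l 538116367) (l 538129423)) (b (l 537916943) (l 538131471))) (l 14)))))), by decide +kernel⟩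

def k51_A00pm_123_s3 : ∃ t, chk3 f_A00pm_123_s3 t 506 117 1 = true :=
  ⟨(a (a (b (b (b (c (l 538486031) (a (l 538306319) (l 538308367))) (l 14)) (l 14)) (l 14)) (l 14)) (l 14)), by decide +kernel⟩

def k52_A00pm_123_s3 : ∃ t, chk3 f_A00pm_123_s3 t 507 58 1 = true :=
  ⟨(b (a (b (l 4) (c (a (b (b (l 4) (l 14)) (l 14)) (l 4)) (a (b (b (l 4) (l 14)) (l 14)) (l 4)))) (l 4)) (l 14)), by decide +kernel⟩

def k53_A00pm_123_s3 : ∃ t, chk3 f_A00pm_123_s3 t 126 59 1 = true :=
  ⟨(a (a (c (c (a (a (b (l 16784328) (b (l 16785056) (b (l 16785400) (l 16785776)))) (l 14)) (l 14)) (a (a (b (l 16784472) (b (l 16785648) (b (l 16786216) (l 16786432)))) (l 14)) (l 14))) (c (c (a (a (b (l 16778352) (b (l 16784640) (b (l 16785144) (l 16785336)))) (l 14)) (l 14)) (a (a (b (l 16782992) (b (l 16783944) (b (l 16784408) (l 16784584)))) (l 14)) (l 14))) (c (a (a (b (l 16782376) (b (l 16783232) (b (l 16783648) (l 16778568)))) (l 14)) (l 14)) (a (a (b (l 16781744) (b (l 16782504) (b (l 16782864) (b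 (l 16783056) (l 16783024))))) (l 14)) (l 14))))) (l 14)) (l 14)), by decide +kernel⟩

def k54_A00pm_123_s3 : ∃ t, chk3 f_A00pm_123_s3 t 126 15 1 = true :=
  ⟨(b (a (a (a (a (b (b (b (l 16775120) (l 16785296)) (b (l 16784896) (l 16784424))) (b (l 16783592) (l 16782344))) (l 14)) (l 14)) (l 14)) (l 14)) (a (a (a (a (b (b (l 16781000) (b (l 16779944) (l 16779704))) (b (b (l 16779720) (l 16779704)) (b (b (l 16779664) (l 16779624)) (c (l 16778768) (l 16780440))))) (l 14)) (l 14)) (l 14)) (l 14))), by decide +kernel⟩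

def k55_A00pm_123_s3 : ∃ t, chk3 f_A00pm_123_s3 t 127 7 1 = true :=
  ⟨(b (b (l 4) (b (b (l 4) (l 14)) (l 14))) (l 14)), by decide +kernel⟩

theorem t56_A00pm_123_s3 : ∃ t, chk3 f_A00pm_123_s3 t 1012 116 1 = true := ex3_b k48_A00pm_123_s3 k49_A00pm_123_s3

theorem t57_A00pm_123_s3 : ∃ t, chk3 f_A00pm_123_s3 t 506 116 1 = true := ex3_a t56_A00pm_123_s3 k50_A00pm_123_s3

theorem t58_A00pm_123_s3 : ∃ t, chk3 f_A00pm_123_s3 t 506 58 1 = true := ex3_b t57_A00pm_123_s3 k51_A00pm_123_s3

theorem t59_A00pm_123_s3 : ∃ t, chk3 f_A00pm_123_s3 t 253 58 1 = true := ex3_a t58_A00pm_123_s3 k52_A00pm_123_s3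

theorem t60_A00pm_123_s3 : ∃ t, chk3 f_A00pm_123_s3 t 505 116 1 = true := ex3_a k45_A00pm_123_s3 k46_A00pm_123_s3

theorem t61_A00pm_123_s3 : ∃ t, chk3 f_A00pm_123_s3 t 505 58 1 = true := ex3_b t60_A00pm_123_s3 k47_A00pm_123_s3

theorem t62_A00pm_123_s3 : ∃ t, chk3 f_A00pm_123_s3 t 252 58 1 = true := ex3_a k44_A00pm_123_s3 t61_A00pm_123_s3

theorem t63_A00pm_123_s3 : ∃ t, chk3 f_A00pm_123_s3 t 126 58 1 = true := ex3_a t62_A00pm_123_s3 t59_A00pm_123_s3

theorem t64_A00pm_123_s3 : ∃ t, chk3 f_A00pm_123_s3 t 126 29 1 = true := ex3_b t63_A00pm_123_s3 k53_A00pm_123_s3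

theorem t65_A00pm_123_s3 : ∃ t, chk3 f_A00pm_123_s3 t 505 115 1 = true := ex3_a k41_A00pm_123_s3 k42_A00pm_123_s3

theorem t66_A00pm_123_s3 : ∃ t, chk3 f_A00pm_123_s3 t 505 57 1 = true := ex3_b k40_A00pm_123_s3 t65_A00pm_123_s3

theorem t67_A00pm_123_s3 : ∃ t, chk3 f_A00pm_123_s3 t 252 57 1 = true := ex3_a k39_A00pm_123_s3 t66_A00pm_123_s3

theorem t68_A00pm_123_s3 : ∃ t, chk3 f_A00pm_123_s3 t 252 28 1 = true := ex3_b k38_A00pm_123_s3 t67_A00pm_123_s3

theorem t69_A00pm_123_s3 : ∃ t, chk3 f_A00pm_123_s3 t 126 28 1 = true := ex3_a t68_A00pm_123_s3 k43_A00pm_123_s3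

theorem t70_A00pm_123_s3 : ∃ t, chk3 f_A00pm_123_s3 t 126 14 1 = true := ex3_b t69_A00pm_123_s3 t64_A00pm_123_s3

theorem t71_A00pm_123_s3 : ∃ t, chk3 f_A00pm_123_s3 t 126 7 1 = true := ex3_b t70_A00pm_123_s3 k54_A00pm_123_s3

theorem t72_A00pm_123_s3 : ∃ t, chk3 f_A00pm_123_s3 t 63 7 1 = true := ex3_a t71_A00pm_123_s3 k55_A00pm_123_s3

theorem t73_A00pm_123_s3 : ∃ t, chk3 f_A00pm_123_s3 t 125 29 1 = true := ex3_b k35_A00pm_123_s3 k36_A00pm_123_s3

theorem t74_A00pm_123_s3 : ∃ t, chk3 f_A00pm_123_s3 t 62 29 1 = true := ex3_a k34_A00pm_123_s3 t73_A00pm_123_s3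

theorem t75_A00pm_123_s3 : ∃ t, chk3 f_A00pm_123_s3 t 62 28 1 = true := ex3_a k32_A00pm_123_s3 k33_A00pm_123_s3

theorem t76_A00pm_123_s3 : ∃ t, chk3 f_A00pm_123_s3 t 62 14 1 = true := ex3_b t75_A00pm_123_s3 t74_A00pm_123_s3

theorem t77_A00pm_123_s3 : ∃ t, chk3 f_A00pm_123_s3 t 62 7 1 = true := ex3_b t76_A00pm_123_s3 k37_A00pm_123_s3

theorem t78_A00pm_123_s3 : ∃ t, chk3 f_A00pm_123_s3 t 31 7 1 = true := ex3_a t77_A00pm_123_s3 t72_A00pm_123_s3

theorem t79_A00pm_123_s3 : ∃ t, chk3 f_A00pm_123_s3 t 31 3 1 = true := ex3_b k31_A00pm_123_s3 t78_A00pm_123_s3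

theorem t80_A00pm_123_s3 : ∃ t, chk3 f_A00pm_123_s3 t 30 14 1 = true := ex3_a k28_A00pm_123_s3 k29_A00pm_123_s3

theorem t81_A00pm_123_s3 : ∃ t, chk3 f_A00pm_123_s3 t 30 7 1 = true := ex3_b t80_A00pm_123_s3 k30_A00pm_123_s3

theorem t82_A00pm_123_s3 : ∃ t, chk3 f_A00pm_123_s3 t 61 26 1 = true := ex3_a k25_A00pm_123_s3 k26_A00pm_123_s3

theorem t83_A00pm_123_s3 : ∃ t, chk3 f_A00pm_123_s3 t 61 13 1 = true := ex3_b t82_A00pm_123_s3 k27_A00pm_123_s3

theorem t84_A00pm_123_s3 : ∃ t, chk3 f_A00pm_123_s3 t 30 13 1 = true := ex3_a k24_A00pm_123_s3 t83_A00pm_123_s3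

theorem t85_A00pm_123_s3 : ∃ t, chk3 f_A00pm_123_s3 t 60 25 1 = true := ex3_a k21_A00pm_123_s3 k22_A00pm_123_s3

theorem t86_A00pm_123_s3 : ∃ t, chk3 f_A00pm_123_s3 t 60 12 1 = true := ex3_b k20_A00pm_123_s3 t85_A00pm_123_s3

theorem t87_A00pm_123_s3 : ∃ t, chk3 f_A00pm_123_s3 t 30 12 1 = true := ex3_a t86_A00pm_123_s3 k23_A00pm_123_s3

theorem t88_A00pm_123_s3 : ∃ t, chk3 f_A00pm_123_s3 t 30 6 1 = true := ex3_b t87_A00pm_123_s3 t84_A00pm_123_s3

theorem t89_A00pm_123_s3 : ∃ t, chk3 f_A00pm_123_s3 t 30 3 1 = true := ex3_b t88_A00pm_123_s3 t81_A00pm_123_s3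

theorem t90_A00pm_123_s3 : ∃ t, chk3 f_A00pm_123_s3 t 15 3 1 = true := ex3_a t89_A00pm_123_s3 t79_A00pm_123_s3

theorem t91_A00pm_123_s3 : ∃ t, chk3 f_A00pm_123_s3 t 14 15 1 = true := ex3_a k18_A00pm_123_s3 k19_A00pm_123_s3

theorem t92_A00pm_123_s3 : ∃ t, chk3 f_A00pm_123_s3 t 14 7 1 = true := ex3_b k17_A00pm_123_s3 t91_A00pm_123_s3

theorem t93_A00pm_123_s3 : ∃ t, chk3 f_A00pm_123_s3 t 59 6 1 = true := ex3_b k15_A00pm_123_s3 k16_A00pm_123_s3

theorem t94_A00pm_123_s3 : ∃ t, chk3 f_A00pm_123_s3 t 29 6 1 = true := ex3_a k14_A00pm_123_s3 t93_A00pm_123_s3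

theorem t95_A00pm_123_s3 : ∃ t, chk3 f_A00pm_123_s3 t 14 6 1 = true := ex3_a k13_A00pm_123_s3 t94_A00pm_123_s3

theorem t96_A00pm_123_s3 : ∃ t, chk3 f_A00pm_123_s3 t 14 3 1 = true := ex3_b t95_A00pm_123_s3 t92_A00pm_123_s3

theorem t97_A00pm_123_s3 : ∃ t, chk3 f_A00pm_123_s3 t 7 3 1 = true := ex3_a t96_A00pm_123_s3 t90_A00pm_123_s3

theorem t98_A00pm_123_s3 : ∃ t, chk3 f_A00pm_123_s3 t 13 3 1 = true := ex3_b k11_A00pm_123_s3 k12_A00pm_123_s3

theorem t99_A00pm_123_s3 : ∃ t, chk3 f_A00pm_123_s3 t 6 3 1 = true := ex3_a k10_A00pm_123_s3 t98_A00pm_123_s3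

theorem t100_A00pm_123_s3 : ∃ t, chk3 f_A00pm_123_s3 t 3 3 1 = true := ex3_a t99_A00pm_123_s3 t97_A00pm_123_s3

theorem t101_A00pm_123_s3 : ∃ t, chk3 f_A00pm_123_s3 t 29 11 1 = true := ex3_a k7_A00pm_123_s3 k8_A00pm_123_s3

theorem t102_A00pm_123_s3 : ∃ t, chk3 f_A00pm_123_s3 t 29 5 1 = true := ex3_b k6_A00pm_123_s3 t101_A00pm_123_s3

theorem t103_A00pm_123_s3 : ∃ t, chk3 f_A00pm_123_s3 t 14 5 1 = true := ex3_a k5_A00pm_123_s3 t102_A00pm_123_s3

theorem t104_A00pm_123_s3 : ∃ t, chk3 f_A00pm_123_s3 t 14 2 1 = true := ex3_b k4_A00pm_123_s3 t103_A00pm_123_s3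

theorem t105_A00pm_123_s3 : ∃ t, chk3 f_A00pm_123_s3 t 7 2 1 = true := ex3_a t104_A00pm_123_s3 k9_A00pm_123_s3

theorem t106_A00pm_123_s3 : ∃ t, chk3 f_A00pm_123_s3 t 6 5 1 = true := ex3_a k2_A00pm_123_s3 k3_A00pm_123_s3

theorem t107_A00pm_123_s3 : ∃ t, chk3 f_A00pm_123_s3 t 6 2 1 = true := ex3_b k1_A00pm_123_s3 t106_A00pm_123_s3

theorem t108_A00pm_123_s3 : ∃ t, chk3 f_A00pm_123_s3 t 3 2 1 = true := ex3_a t107_A00pm_123_s3 t105_A00pm_123_s3

theorem t109_A00pm_123_s3 : ∃ t, chk3 f_A00pm_123_s3 t 3 1 1 = true := ex3_b t108_A00pm_123_s3 t100_A00pm_123_s3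

theorem t110_A00pm_123_s3 : ∃ t, chk3 f_A00pm_123_s3 t 1 1 1 = true := ex3_a k0_A00pm_123_s3 t109_A00pm_123_s3

theorem c_A00pm_123_s3 : CertF 536870912 536870912 0 536870912 780900216 37827925 true true false .npn 1 2 3
    ndB0q1 ndB0q2 pcB3 cut_A00pm_123_s3 xt_A00pm_123_s3 :=
  certF2 (fam := true) (s1 := true) (s2 := false) (a := 1) (b := 2) (c := 3) (cn := .npn) (n1 := ndB0q1) (n2 := ndB0q2) (pc := pcB3) (cut := cut_A00pm_123_s3) (xt := xt_A00pm_123_s3) (P1 := 536870912) (W1 := 536870912) (P2 := 0) (W2 := 536870912) (P3 := 780900216) (W3 := 37827925)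
    rfl (fun _ => rfl) t110_A00pm_123_s3

theorem s_A00pm_123_s3 {κ x : ℝ} (hκ : κ * h0 = ken x) (hx : ((780900216 : ℕ) : ℝ) / S ≤ x)
    (hx' : x ≤ (((780900216 : ℕ) : ℝ) + (37827925 : ℕ)) / S)
    (H : CutA (VFD κ) PP tK tL pcB (Cut.of [[⟨0, 1, 0, 67108864⟩, ⟨1, 1, 0, 67108864⟩, ⟨2, 2, 0, 16777216⟩], [⟨0, 0, 1, 26214400⟩, ⟨1, 1, 0, 33554432⟩, ⟨2, 1, 1, 26214400⟩]]) 1 2 3 0 0 (sgb true) (sgb false) x) :
    AltA (VFD κ) PP tK tL pcB [⟨4, 0, 0, 2845415833⟩] 1 2 3 0 0 (sgb true) (sgb false) x :=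
  strip_altAD (m := 2845415833) false rfl hκ (SH.κ0 hκ (SH.hx1 hx).le (SH.hx2 hx').le) (SH.hx1 hx).le (SH.hx2 hx') (covB01).cov (covB02).cov hx hx' c_A00pm_123_s3 H ((okx hx hx').extA (T := tt) (sideB hx hx') hκ rfl rfl (.O 1 true) (.O 2 false) (Or.inr rfl))

end Pool.Agent.Strip051.G.I72727_7625.Tab.St.C
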