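import Pool.Agent.Strip051.G.I72727_7625.StH
import Pool.Agent.Strip051.G.I72727_7625.StF

/-! # Unit strips 5 (generated) -/

set_option linter.all false
set_option maxRecDepth 100000

namespace Pool.Agent.Strip051.G.I72727_7625.Tab.St.C

open Pool.Agent.Strip051.PB Pool.Agent.Strip051.PB.T Pool.Agent.StripNear Pool.Agent.Strip051.LC
open Pool.Agent.Strip051.G.I72727_7625.Tab Pool.Agent.Strip051.G.I72727_7625.Tab.St

noncomputable def cut_A00pm_202_s1 : Cut := Cut.of [[⟨4, 0, 0, 1449551462⟩], [⟨0, 1, 0, 67108864⟩, ⟨1, 0, 0, 67108864⟩, ⟨2, 1, 0, 67108864⟩]]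

noncomputable def f_A00pm_202_s1 : ℕ → ℕ → ℕ → ℕ → Bool := onCell 0 536870912 1073741824 536870912 780900216 37827925
    (rowF 1 true true false .pp 2 0 2 (qsf 0 536870912 0 536870912 2) ndB0q2 ndB0q0 pcB2 cut_A00pm_202_s1 Ext.none)

def k0_A00pm_202_s1 : ∃ t, chk3 f_A00pm_202_s1 t 2 4 1 = true :=
  ⟨(b (l 1) (l 6)), by decide +kernel⟩

def k1_A00pm_202_s1 : ∃ t, chk3 f_A00pm_202_s1 t 3 8 1 = true :=
  ⟨(a (l 1) (a (b (l 1) (a (b (l 1) (a (l 1) (b (l 1) (c (l 16661336) (l 16611480))))) (b (l 14) (b (l 14) (b (l 14) (a (l 16638104) (l 16658928))))))) (b (l 14) (b (l 14) (b (l 14) (b (l 14) (b (l 14) (b (l 14) (a (a (l 16679392) (l 16685288)) (a (l 16681968) (a (l 16678256) (l 16675144)))))))))))), by decide +kernel⟩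

def k2_A00pm_202_s1 : ∃ t, chk3 f_A00pm_202_s1 t 3 9 1 = true :=
  ⟨(a (a (b (l 1) (l 6)) (b (a (b (l 1) (b (l 16528168) (l 16575488))) (b (b (l 1) (a (l 16553064) (l 16574272))) (a (l 52646529831) (l 16620128)))) (a (b (a (l 96669913575) (l 16591024)) (l 6)) (b (a (l 16565936) (l 16583248)) (l 16572904))))) (a (b (a (b (a (b (l 16636456) (l 16595808)) (b (l 16637784) (l 16616784))) (a (b (l 16597192) (l 16598632)) (l 16617032))) (a (b (b (l 16658744) (l 16636440)) (l 16634888)) (b (b (l 16657704) (l 16655072)) (l 16651736)))) (b (a (b (l 16609056) (l 16609944)) (b (l 16641520) (l 16631736))) (a (l 16604736) (l 16642640)))) (b (a (b (b (a (l 16677248) (l 16648968)) (a (l 16672840) (l 16671896))) (a (l 16658696) (a (l 16658432) (l 16657720)))) (a (b (c (b (l 16676192) (l 16667896)) (b (l 16678632) (l 16670640))) (b (l 16660416) (l 16651136))) (b (a (b (l 16694744) (l 16665904)) (c (b (a (l 16671264) (l 16669832)) (l 16662736)) (b (b (l 16683376) (l 16669336))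 (l 16674128)))) (a (b (l 16657368) (l 16648216)) (b (a (l 16655448) (l 16653984)) (l 16666568)))))) (a (b (a (c (l 16635856) (l 16641504)) (b (l 16643344) (l 16633024))) (a (l 16622424) (l 16579416))) (a (b (b (l 16641248) (l 16672712)) (b (l 16622264) (l 16614312))) (b (b (a (l 16638344) (l 16635648)) (b (l 16629080) (l 16644552))) (b (b (l 16619192) (l 16614968)) (a (l 16610008) (b (l 16608648) (l 16603856)))))))))), by decide +kernel⟩

def k3_A00pm_202_s1 : ∃ t, chk3 f_A00pm_202_s1 t 1 5 1 = true :=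
  ⟨(a (l 6) (a (b (a (l 6) (b (b (a (l 6) (l 16565856)) (l 6)) (l 6))) (l 6)) (b (b (a (b (a (l 16595640) (l 16609288)) (b (a (l 16589608) (l 16598824)) (a (b (l 16587120) (l 16586104)) (b (l 16592624) (l 16587464))))) (a (b (a (l 16524360) (l 16563704)) (b (a (l 16595712) (l 16591576)) (b (l 16585864) (b (l 16580848) (l 16577224))))) (b (a (b (l 16605552) (l 16595864)) (b (a (l 16600496) (b (l 16598832) (l 16593544))) (a (l 16589944) (a (l 16586336) (b (l 16586664) (l 16580696)))))) (a (b (l 16584896) (b (l 16575448) (b (l 16569488) (l 16565168)))) (b (a (l 16578000) (b (a (l 16577280) (l 16574352)) (a (l 16570624) (l 16567496)))) (b (a (l 16567720) (a (l 16563152) (l 16559848))) (c (b (l 16562280) (a (l 16560664) (l 16554528))) (b (l 16553736) (a (l 16552328) (l 16545024)))))))))) (a (a (l 16576016) (l 16572240)) (a (a (l 16480392) (b (l 16564360) (l 16548040))) (a (b (l 16554496) (l 16536672)) (b (a (l 16545296) (l 16538112)) (a (l 16526672) (l 16519208)))))))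 (a (l 6) (a (b (b (l 16578184) (l 6)) (l 6)) (a (b (b (l 16519128) (l 16543968)) (l 6)) (b (b (a (l 16508544) (l 16500720)) (a (l 16490992) (c (l 16491144) (l 16474032)))) (b (a (l 6) (c (l 16475040) (l 16455320))) (l 6))))))))), by decide +kernel⟩

def k4_A00pm_202_s1 : ∃ t, chk3 f_A00pm_202_s1 t 1 3 1 = true :=
  ⟨(a (l 6) (l 6)), by decide +kernel⟩

theorem t5_A00pm_202_s1 : ∃ t, chk3 f_A00pm_202_s1 t 3 4 1 = true := ex3_b k1_A00pm_202_s1 k2_A00pm_202_s1

theorem t6_A00pm_202_s1 : ∃ t, chk3 f_A00pm_202_s1 t 1 4 1 = true := ex3_a k0_A00pm_202_s1 t5_A00pm_202_s1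

theorem t7_A00pm_202_s1 : ∃ t, chk3 f_A00pm_202_s1 t 1 2 1 = true := ex3_b t6_A00pm_202_s1 k3_A00pm_202_s1

theorem t8_A00pm_202_s1 : ∃ t, chk3 f_A00pm_202_s1 t 1 1 1 = true := ex3_b t7_A00pm_202_s1 k4_A00pm_202_s1

theorem c_A00pm_202_s1 : CertF 0 536870912 0 536870912 780900216 37827925 true true false .pp 2 0 2
    ndB0q2 ndB0q0 pcB2 cut_A00pm_202_s1 Ext.none :=
  certF1 (fam := true) (s1 := true) (s2 := false) (a := 2) (b := 0) (c := 2) (cn := .pp) (n1 := ndB0q2) (n2 := ndB0q0) (pc := pcB2) (cut := cut_A00pm_202_s1) (xt := Ext.none) (P1 := 0) (W1 := 536870912) (P2 := 0) (W2 := 536870912) (P3 := 780900216) (W3 := 37827925)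
    rfl (fun _ => rfl) t8_A00pm_202_s1

theorem s_A00pm_202_s1 {κ x : ℝ} (hκ : κ * h0 = ken x) (hx : ((780900216 : ℕ) : ℝ) / S ≤ x)
    (hx' : x ≤ (((780900216 : ℕ) : ℝ) + (37827925 : ℕ)) / S)
    (H : CutA (VFD κ) PP tK tL pcB (Cut.of [[⟨0, 1, 0, 67108864⟩, ⟨1, 0, 0, 67108864⟩, ⟨2, 1, 0, 67108864⟩]]) 2 0 2 0 0 (sgb true) (sgb false) x) :
    AltA (VFD κ) PP tK tL pcB [⟨3, 0, 0, 1449551462⟩] 2 0 2 0 0 (sgb true) (sgb false) x :=
  strip_altAD (m := 1449551462) true rfl hκ (SH.κ0 hκ (SH.hx1 hx).le (SH.hx2 hx').le) (SH.hx1 hx).le (SH.hx2 hx') (covB02).cov (covB00).cov hx hx' c_A00pm_202_s1 H (noExt_A)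

noncomputable def cut_A00pm_202_s3 : Cut := Cut.of [[⟨3, 0, 0, 2845415833⟩], [⟨0, 1, 0, 67108864⟩, ⟨1, 0, 0, 67108864⟩, ⟨2, 1, 0, 67108864⟩]]

noncomputable def f_A00pm_202_s3 : ℕ → ℕ → ℕ → ℕ → Bool := onCell 0 536870912 1073741824 536870912 780900216 37827925
    (rowF 1 true true false .pp 2 0 2 (qsf 0 536870912 0 536870912 2) ndB0q2 ndB0q0 pcB2 cut_A00pm_202_s3 Ext.none)

def k0_A00pm_202_s3 : ∃ t, chk3 f_A00pm_202_s3 t 1 1 1 = true :=
  ⟨(b (l 6) (a (l 6) (l 6))), by decide +kernel⟩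

theorem c_A00pm_202_s3 : CertF 0 536870912 0 536870912 780900216 37827925 true true false .pp 2 0 2
    ndB0q2 ndB0q0 pcB2 cut_A00pm_202_s3 Ext.none :=
  certF1 (fam := true) (s1 := true) (s2 := false) (a := 2) (b := 0) (c := 2) (cn := .pp) (n1 := ndB0q2) (n2 := ndB0q0) (pc := pcB2) (cut := cut_A00pm_202_s3) (xt := Ext.none) (P1 := 0) (W1 := 536870912) (P2 := 0) (W2 := 536870912) (P3 := 780900216) (W3 := 37827925)
    rfl (fun _ => rfl) k0_A00pm_202_s3

theorem s_A00pm_202_s3 {κ x : ℝ} (hκ : κ * h0 = ken x) (hx : ((780900216 : ℕ) : ℝ) / S ≤ x)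
    (hx' : x ≤ (((780900216 : ℕ) : ℝ) + (37827925 : ℕ)) / S)
    (H : CutA (VFD κ) PP tK tL pcB (Cut.of [[⟨0, 1, 0, 67108864⟩, ⟨1, 0, 0, 67108864⟩, ⟨2, 1, 0, 67108864⟩]]) 2 0 2 0 0 (sgb true) (sgb false) x) :
    AltA (VFD κ) PP tK tL pcB [⟨4, 0, 0, 2845415833⟩] 2 0 2 0 0 (sgb true) (sgb false) x :=
  strip_altAD (m := 2845415833) false rfl hκ (SH.κ0 hκ (SH.hx1 hx).le (SH.hx2 hx').le) (SH.hx1 hx).le (SH.hx2 hx') (covB02).cov (covB00).cov hx hx' c_A00pm_202_s3 H (noExt_A)

noncomputable def cut_A00pm_203_s1 : Cut := Cut.of [[⟨4, 0, 0, 1449551462⟩]]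

noncomputable def f_A00pm_203_s1 : ℕ → ℕ → ℕ → ℕ → Bool := onCell 0 536870912 1610612736 536870912 780900216 37827925
    (rowF 1 true true false .up 2 0 3 (qsf 0 536870912 0 536870912 3) ndB0q2 ndB0q0 pcB3 cut_A00pm_203_s1 Ext.none)

def k0_A00pm_203_s1 : ∃ t, chk3 f_A00pm_203_s1 t 1 1 1 = true :=
  ⟨(l 6), by decide +kernel⟩

theorem c_A00pm_203_s1 : CertF 0 536870912 0 536870912 780900216 37827925 true true false .up 2 0 3
    ndB0q2 ndB0q0 pcB3 cut_A00pm_203_s1 Ext.none :=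
  certF1 (fam := true) (s1 := true) (s2 := false) (a := 2) (b := 0) (c := 3) (cn := .up) (n1 := ndB0q2) (n2 := ndB0q0) (pc := pcB3) (cut := cut_A00pm_203_s1) (xt := Ext.none) (P1 := 0) (W1 := 536870912) (P2 := 0) (W2 := 536870912) (P3 := 780900216) (W3 := 37827925)
    rfl (fun _ => rfl) k0_A00pm_203_s1

theorem s_A00pm_203_s1 {κ x : ℝ} (hκ : κ * h0 = ken x) (hx : ((780900216 : ℕ) : ℝ) / S ≤ x)
    (hx' : x ≤ (((780900216 : ℕ) : ℝ) + (37827925 : ℕ)) / S) :
    AltA (VFD κ) PP tK tL pcB [⟨3, 0, 0, 1449551462⟩] 2 0 3 0 0 (sgb true) (sgb false) x :=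
  strip_altAD (m := 1449551462) true rfl hκ (SH.κ0 hκ (SH.hx1 hx).le (SH.hx2 hx').le) (SH.hx1 hx).le (SH.hx2 hx') (covB02).cov (covB00).cov hx hx' c_A00pm_203_s1 cutA_nil (noExt_A)

noncomputable def cut_A00pm_203_s3 : Cut := Cut.of [[⟨3, 0, 0, 2845415833⟩]]

noncomputable def xt_A00pm_203_s3 : Ext := strExt dd true true false .u2 .u0m .s2m .up 2 0 3 rfl rfl gl3 vv ndB0q2 ndB0q0

noncomputable def f_A00pm_203_s3 : ℕ → ℕ → ℕ → ℕ → Bool := onCell 0 536870912 0 536870912 780900216 37827925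
    (rowF 0 true true false .up 2 0 3 (qsf 0 536870912 0 536870912 3) ndB0q2 ndB0q0 pcB3 cut_A00pm_203_s3 xt_A00pm_203_s3)

def k0_A00pm_203_s3 : ∃ t, chk3 f_A00pm_203_s3 t 1 1 1 = true :=
  ⟨(a (b (l 1) (b (a (b (l 1) (a (b (l 1) (c (l 16610488) (l 16616592))) (l 6))) (l 6)) (a (a (b (b (c (l 16640176) (l 16642856)) (a (l 16671216) (l 16655424))) (b (a (l 16772960) (l 16672512)) (b (l 16698720) (l 534877455)))) (b (l 6) (b (a (l 16655656) (l 6)) (b (l 16663440) (l 16673920))))) (a (l 6) (l 6))))) (l 6)), by decide +kernel⟩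

theorem c_A00pm_203_s3 : CertF 0 536870912 0 536870912 780900216 37827925 true true false .up 2 0 3
    ndB0q2 ndB0q0 pcB3 cut_A00pm_203_s3 xt_A00pm_203_s3 :=
  certF0 (fam := true) (s1 := true) (s2 := false) (a := 2) (b := 0) (c := 3) (cn := .up) (n1 := ndB0q2) (n2 := ndB0q0) (pc := pcB3) (cut := cut_A00pm_203_s3) (xt := xt_A00pm_203_s3) (P1 := 0) (W1 := 536870912) (P2 := 0) (W2 := 536870912) (P3 := 780900216) (W3 := 37827925)
    rfl k0_A00pm_203_s3

theorem s_A00pm_203_s3 {κ x : ℝ} (hκ : κ * h0 = ken x) (hx : ((780900216 : ℕ) : ℝ) / S ≤ x)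
    (hx' : x ≤ (((780900216 : ℕ) : ℝ) + (37827925 : ℕ)) / S) :
    AltA (VFD κ) PP tK tL pcB [⟨4, 0, 0, 2845415833⟩] 2 0 3 0 0 (sgb true) (sgb false) x :=
  strip_altAD (m := 2845415833) false rfl hκ (SH.κ0 hκ (SH.hx1 hx).le (SH.hx2 hx').le) (SH.hx1 hx).le (SH.hx2 hx') (covB02).cov (covB00).cov hx hx' c_A00pm_203_s3 cutA_nil ((okx hx hx').extA (T := tt) (sideB hx hx') hκ rfl rfl (.O 2 true) (.O 0 false) (Or.inr rfl))

noncomputable def cut_A00pm_213_s1 : Cut := Cut.of [[⟨4, 0, 0, 1449551462⟩], [⟨0, 1, 0, 67108864⟩, ⟨1, 1, 0, 67108864⟩, ⟨2, 2, 0, 16777216⟩], [⟨0, 1, 0, 33554432⟩, ⟨1, 0, 1, 26214400⟩, ⟨2, 1, 1, 26214400⟩]]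

noncomputable def f_A00pm_213_s1 : ℕ → ℕ → ℕ → ℕ → Bool := onCell 0 536870912 536870912 536870912 780900216 37827925
    (rowF 0 true true false .pnn 2 1 3 (qsf 0 536870912 536870912 536870912 3) ndB0q2 ndB0q1 pcB3 cut_A00pm_213_s1 Ext.none)

def k0_A00pm_213_s1 : ∃ t, chk3 f_A00pm_213_s1 t 1 1 1 = true :=
  ⟨(l 6), by decide +kernel⟩

theorem c_A00pm_213_s1 : CertF 0 536870912 536870912 536870912 780900216 37827925 true true false .pnn 2 1 3
    ndB0q2 ndB0q1 pcB3 cut_A00pm_213_s1 Ext.none :=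
  certF0 (fam := true) (s1 := true) (s2 := false) (a := 2) (b := 1) (c := 3) (cn := .pnn) (n1 := ndB0q2) (n2 := ndB0q1) (pc := pcB3) (cut := cut_A00pm_213_s1) (xt := Ext.none) (P1 := 0) (W1 := 536870912) (P2 := 536870912) (W2 := 536870912) (P3 := 780900216) (W3 := 37827925)
    rfl k0_A00pm_213_s1

theorem s_A00pm_213_s1 {κ x : ℝ} (hκ : κ * h0 = ken x) (hx : ((780900216 : ℕ) : ℝ) / S ≤ x)
    (hx' : x ≤ (((780900216 : ℕ) : ℝ) + (37827925 : ℕ)) / S)
    (H : CutA (VFD κ) PP tK tL pcB (Cut.of [[⟨0, 1, 0, 67108864⟩, ⟨1, 1, 0, 67108864⟩, ⟨2, 2, 0, 16777216⟩], [⟨0, 1, 0, 33554432⟩, ⟨1, 0, 1, 26214400⟩, ⟨2, 1, 1, 26214400⟩]]) 2 1 3 0 0 (sgb true) (sgb false) x) :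
    AltA (VFD κ) PP tK tL pcB [⟨3, 0, 0, 1449551462⟩] 2 1 3 0 0 (sgb true) (sgb false) x :=
  strip_altAD (m := 1449551462) true rfl hκ (SH.κ0 hκ (SH.hx1 hx).le (SH.hx2 hx').le) (SH.hx1 hx).le (SH.hx2 hx') (covB02).cov (covB01).cov hx hx' c_A00pm_213_s1 H (noExt_A)

noncomputable def cut_A00pm_213_s3 : Cut := Cut.of [[⟨3, 0, 0, 2845415833⟩], [⟨0, 1, 0, 67108864⟩, ⟨1, 1, 0, 67108864⟩, ⟨2, 2, 0, 16777216⟩], [⟨0, 1, 0, 33554432⟩, ⟨1, 0, 1, 26214400⟩, ⟨2, 1, 1, 26214400⟩]]

noncomputable def xt_A00pm_213_s3 : Ext := strExt dd true true false .u2 .u0m .s2m .pnn 2 1 3 rfl rfl gl3 vv ndB0q2 ndB0q1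

noncomputable def f_A00pm_213_s3 : ℕ → ℕ → ℕ → ℕ → Bool := onCell 0 536870912 1610612736 536870912 780900216 37827925
    (rowF 1 true true false .pnn 2 1 3 (qsf 0 536870912 536870912 536870912 3) ndB0q2 ndB0q1 pcB3 cut_A00pm_213_s3 xt_A00pm_213_s3)

def k0_A00pm_213_s3 : ∃ t, chk3 f_A00pm_213_s3 t 2 2 1 = true :=
  ⟨(b (a (l 1) (l 6)) (a (b (a (b (b (l 1) (l 16742640)) (a (l 534894095) (l 534946063))) (b (b (l 1) (l 16678352)) (b (l 16687976) (l 16697376)))) (a (b (a (l 534945807) (l 534992399)) (a (l 535020303) (l 535063567))) (a (b (b (l 16715504) (l 16724952)) (b (l 16734352) (l 535101711))) (b (l 16745072) (b (l 16717656) (l 16727360)))))) (b (a (b (a (l 16646064) (l 6)) (b (l 16650824) (l 16660248))) (l 6)) (b (a (a (l 16726176) (l 16664696)) (a (b (l 6) (l 16650224)) (l 6))) (a (c (a (l 16748848) (l 16689112)) (a (l 16733128) (l 16682328))) (a (b (l 16661432) (l 16673168)) (b (l 16642056) (l 16654864)))))))), by decide +kernel⟩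

def k1_A00pm_213_s3 : ∃ t, chk3 f_A00pm_213_s3 t 4 3 1 = true :=
  ⟨(b (b (a (b (a (l 535134223) (b (l 535143439) (l 535215119))) (b (a (l 4) (b (l 535282447) (l 535347727))) (l 4))) (b (a (b (a (l 535159823) (l 16748968)) (a (l 535225103) (l 535200527))) (b (a (l 16741048) (l 16732736)) (a (l 535158799) (b (l 16739984) (l 16744744))))) (a (b (a (b (l 535294223) (l 535356431)) (b (l 535248399) (l 535295247))) (l 535425807)) (b (a (b (l 535201551) (l 535250191)) (b (l 16749416) (l 16754280))) (a (a (l 535377423) (l 535358479)) (b (l 16759208) (a (l 16765456) (l 16762352)))))))) (a (l 4) (b (a (b (b (l 535562255) (l 4)) (l 4)) (b (b (a (a (l 535521551) (c (l 535631887) (l 535320079))) (a (l 535488015) (l 535470863))) (a (a (c (l 535720463) (l 535448847)) (b (l 535553295) (l 535587343))) (b (l 535528463) (l 535563023)))) (a (a (l 4) (l 535679247)) (l 535656463)))) (a (l 4) (l 4))))) (l 4)), by decide +kernel⟩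

def k2_A00pm_213_s3 : ∃ t, chk3 f_A00pm_213_s3 t 5 24 1 = true :=
  ⟨(a (a (b (l 16719808) (a (l 16734144) (l 16725816))) (b (l 16702424) (b (l 16710864) (l 16716648)))) (a (b (l 16685200) (b (l 16694768) (l 16701344))) (b (a (l 16672568) (l 16663920)) (a (l 16686648) (b (l 16675064) (l 16683152)))))), by decide +kernel⟩

def k3_A00pm_213_s3 : ∃ t, chk3 f_A00pm_213_s3 t 5 25 1 = true :=
  ⟨(c (c (c (c (a (a (a (b (l 535426831) (l 16758968)) (b (l 16743776) (l 16753664))) (b (b (l 16731688) (l 16738408)) (l 16746456))) (a (b (b (l 16720728) (l 16728464)) (l 16737896)) (b (b (l 16711392) (l 16719664)) (l 16730552)))) (c (a (a (a (b (l 535396367) (l 16758656)) (b (l 16743056) (l 16753272))) (b (b (l 16730744) (l 16737560)) (l 16745936))) (a (b (b (l 16719448) (l 16727736)) (l 16737192)) (b (b (l 16709712) (l 16718744)) (l 16729648)))) (b (a (a (b (l 16743048) (l 16748528)) (b (l 16730120) (l 16736920))) (a (b (l 16718600) (l 16726928)) (b (l 16708592)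 (l 16718136)))) (a (a (a (l 16758456) (l 16753016)) (l 16745592)) (a (l 16736720) (l 16729048)))))) (b (a (a (b (l 16741976) (l 16747464)) (b (l 16728576) (l 16735336))) (a (b (l 16716496) (l 16724728)) (b (l 16705832) (l 16715848)))) (a (a (b (l 16753024) (l 16757496)) (l 16744720)) (a (l 16735544) (l 16727536))))) (b (a (a (b (l 16739456) (l 16744976)) (b (l 16724936) (l 16731616))) (a (b (l 16711552) (l 16719584)) (a (l 16706856) (l 16701320)))) (a (a (a (b (l 16753728) (l 16758904)) (l 16750376)) (l 16742128)) (a (l 16732456) (b (l 16719392) (l 16727432)))))) (c (b (a (a (b (l 16736208) (l 16741768)) (b (l 16720264) (l 16726840))) (a (b (l 16705192) (l 16712960)) (b (a (l 16694456) (l 16687352)) (l 16700168)))) (a (a (a (b (l 16751032) (l 16756432)) (l 16746944)) (l 16737328)) (a (l 16725584) (b (l 16710208) (l 16720544))))) (b (a (a (b (l 16733088) (l 16738704)) (b (l 16715776) (l 16722280))) (a (b (l 16699080) (l 16706632)) (b (a (l 16686936) (l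 16678752)) (a (l 16695400) (l 16687928))))) (a (a (a (b (l 16748456) (l 16754040)) (l 16743664)) (l 16732752)) (a (l 16719008) (b (l 16701416) (l 16711432))))))), by decide +kernel⟩

def k4_A00pm_213_s3 : ∃ t, chk3 f_A00pm_213_s3 t 5 13 1 = true :=
  ⟨(a (b (b (a (a (b (b (l 16761384) (l 16763464)) (a (l 535521551) (l 16765104))) (b (l 16756856) (b (l 16760200) (l 16762352)))) (b (l 16749224) (a (l 16756464) (l 16751976)))) (a (a (b (a (l 535594767) (l 535591183)) (a (a (l 535676175) (b (l 535650831) (l 535692559))) (b (l 535654927) (l 535431695)))) (b (b (l 16764424) (l 16766416)) (a (l 535694863) (l 535712527)))) (a (b (l 16761032) (l 535740687)) (b (l 16757024) (l 16761624))))) (a (b (a (b (a (b (a (b (l 535727631) (l 535749135)) (l 535468303)) (a (l 4) (l 535791375))) (b (l 535755791) (l 535805711))) (a (l 4) (l 535877391))) (b (b (l 535784975) (l 535833615)) (l 535905551))) (a (l 4) (b (l 535999503) (l 4)))) (b (b (a (l 535845135) (l 16765632))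 (a (l 535941391) (l 535975183))) (a (l 536083471) (l 536117519))))) (b (a (b (b (l 16740064) (l 16746080)) (b (l 16751664) (l 16756816))) (b (b (l 16732112) (l 16738856)) (b (l 16745216) (l 16750880)))) (a (b (a (b (l 16762560) (l 16766240)) (b (l 16759744) (l 16763704))) (a (l 536149775) (b (l 16767152) (l 536223503)))) (a (b (b (l 16757144) (l 16761392)) (b (l 16765104) (l 16768304))) (b (l 16735712) (b (l 16762816) (l 16766264))))))), by decide +kernel⟩

def k5_A00pm_213_s3 : ∃ t, chk3 f_A00pm_213_s3 t 10 14 1 = true :=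
  ⟨(b (a (l 4) (b (a (l 536266255) (l 536300303)) (l 4))) (l 4)), by decide +kernel⟩

def k6_A00pm_213_s3 : ∃ t, chk3 f_A00pm_213_s3 t 11 28 1 = true :=
  ⟨(a (b (a (b (l 536284687) (l 536374799)) (b (l 536314639) (l 536404495))) (b (a (l 535927311) (b (l 536470287) (l 536514831))) (a (b (l 535724815) (l 4)) (b (l 536559375) (l 536603919))))) (a (b (a (l 536114191) (b (l 16770576) (l 16762368))) (a (b (l 536513551) (l 536602639)) (a (b (l 536522255) (c (l 536881167) (l 536334351))) (b (l 536521999) (c (l 536878607) (l 536060431)))))) (b (b (l 16769208) (b (l 16771088) (l 16772192))) (b (b (l 16762696) (a (l 16774408) (l 16773584))) (b (a (b (l 16774960) (l 16775296)) (l 16763872)) (a (b (l 16770352) (a (l 16770768) (l 16775704))) (a (l 16769960) (l 16774800)))))))), by decide +kernel⟩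

def k7_A00pm_213_s3 : ∃ t, chk3 f_A00pm_213_s3 t 22 58 1 = true :=
  ⟨(b (b (a (l 4) (a (l 4) (l 536655119))) (l 4)) (l 4)), by decide +kernel⟩

def k8_A00pm_213_s3 : ∃ t, chk3 f_A00pm_213_s3 t 23 58 2 = true :=
  ⟨(b (a (a (b (l 536948239) (b (l 536987407) (a (l 4) (a (b (l 537008911) (l 4)) (b (l 537012751) (c (l 536901391) (c (l 536953871) (l 536807951)))))))) (c (b (a (l 537090831) (l 537087759)) (b (a (a (l 537135375) (l 537134095)) (l 537120015)) (a (c (b (l 537229839) (l 536973839)) (b (l 537087503) (l 536830479))) (b (l 537132303) (l 537142543))))) (b (a (l 536811791) (l 536807183)) (b (a (a (l 536850959) (l 536848655)) (l 536833295)) (a (c (a (l 536680975) (l 536679439)) (a (l 536535055) (l 536533263))) (b (l 536842767) (l 536850703))))))) (b (a (c (l 536791823) (l 536508431)) (b (l 16777192) (l 16777272))) (a (c (b (l 537084687) (l 537104399)) (b (l 536795151) (l 536811023))) (c (l 537051663) (l 536756239))))) (a (a (l 4) (a (b (b (c (a (c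 (l 536997647) (l 536853007)) (l 537181199)) (a (c (l 536706575) (l 536558863)) (l 536887567))) (l 4)) (l 4)) (b (c (l 537180943) (l 536883983)) (a (l 4) (c (l 537241871) (l 536667407)))))) (c (a (b (l 537149711) (b (l 537198607) (l 536965135))) (b (l 537110287) (l 536909327))) (a (b (l 536849935) (a (l 536650511) (l 536897039))) (b (l 536806415) (l 536597007)))))), by decide +kernel⟩

def k9_A00pm_213_s3 : ∃ t, chk3 f_A00pm_213_s3 t 23 58 3 = true :=
  ⟨(a (b (a (b (l 536382991) (b (l 536410127) (a (l 4) (b (l 536426255) (a (l 4) (b (l 536434191) (b (b (l 536437263) (l 4)) (l 4)))))))) (c (b (a (l 536526607) (l 536520463)) (b (a (a (l 536560399) (l 536557327)) (l 536540431)) (a (b (c (l 536382479) (l 536234255)) (a (c (l 536661263) (l 536243727)) (l 536305167))) (b (l 536546831) (l 536552719))))) (b (a (l 535967759) (l 536228111)) (a (b (a (l 536264207) (l 536260111)) (c (b (l 536084239) (a (l 536092943) (l 536347407))) (b (l 535932943) (a (l 535940879)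 (l 536194575))))) (b (l 536241935) (b (l 536244751) (l 536248591))))))) (a (l 4) (b (c (a (a (a (a (l 4) (l 536613903)) (l 536609039)) (l 536599311)) (l 536580367)) (a (a (a (a (l 4) (l 536306959)) (l 536301839)) (l 536291343)) (l 536270863))) (a (l 4) (b (c (l 536616207) (l 536299791)) (l 4)))))) (b (b (a (c (l 536218895) (l 535923471)) (b (l 16773624) (l 16774048))) (c (a (b (l 536499471) (l 536510991)) (l 536454415)) (a (b (l 536197647) (l 536204815)) (l 536145935)))) (c (a (b (l 536274959) (c (l 536403727) (l 536244495))) (b (l 536495887) (l 536344591))) (a (b (l 535962127) (c (l 536083471) (l 535920911))) (b (l 536178703) (l 536018191)))))), by decide +kernel⟩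

def k10_A00pm_213_s3 : ∃ t, chk3 f_A00pm_213_s3 t 11 59 1 = true :=
  ⟨(a (l 4) (a (l 4) (c (b (b (a (a (l 4) (b (c (l 537260047) (l 536944143)) (l 4))) (a (c (b (l 537241103) (l 537279247)) (b (l 536923151) (l 536755727))) (c (c (l 537321487) (l 537162255)) (c (l 537001231) (l 536838415))))) (b (a (l 4) (a (l 4) (c (c (b (l 537371663) (a (l 4) (l 537388303))) (b (l 537209615) (l 537229583))) (b (c (l 537045775) (l 536879887)) (a (l 4) (c (l 537059855) (l 536892431))))))) (l 4))) (l 4)) (b (b (c (a (b (c (l 536445711) (l 536282895)) (l 4)) (c (a (l 536695311) (l 536673551)) (a (l 536529935) (l 536506895)))) (a (b (a (l 4) (l 536291087)) (l 4)) (a (b (l 536265743) (l 536290319)) (c (l 536338447) (l 536168463))))) (b (a (l 4) (a (l 4) (c (b (c (l 536712207) (l 536542735)) (a (l 4) (c (l 536723471) (l 536552463)))) (b (c (l 536371471) (l 536198159)) (a (l 4) (c (l 536379407) (l 536204815))))))) (l 4))) (l 4))))), by decide +kernel⟩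

def k11_A00pm_213_s3 : ∃ t, chk3 f_A00pm_213_s3 t 5 15 1 = true :=
  ⟨(l 4), by decide +kernel⟩

def k12_A00pm_213_s3 : ∃ t, chk3 f_A00pm_213_s3 t 3 2 1 = true :=
  ⟨(b (l 6) (a (b (l 6) (l 6)) (l 6))), by decide +kernel⟩

def k13_A00pm_213_s3 : ∃ t, chk3 f_A00pm_213_s3 t 6 6 1 = true :=
  ⟨(b (a (b (a (b (b (l 16645768) (l 16653936)) (b (l 16662680) (a (l 16675736) (l 16668288)))) (b (l 6) (b (l 6) (a (l 16661008) (l 6))))) (b (a (a (b (a (b (l 16684360) (l 16689120)) (l 16683496)) (a (l 16697280) (l 16694448))) (b (b (l 16676040) (l 16681424)) (l 16690488))) (b (a (b (l 16669632) (l 16675640)) (l 16667336)) (a (l 16685608) (l 16681688)))) (a (a (b (l 16707696) (l 16717736)) (b (l 16703352) (l 16712488))) (a (l 16703216) (l 16698088))))) (b (l 6) (a (b (b (l 6) (l 16678320)) (a (l 16693104) (l 16688648))) (b (l 6) (l 16681688))))) (b (a (b (a (a (l 16729160) (b (l 16720464) (l 16728088))) (a (l 16719080) (l 16713880))) (a (a (l 16742576) (l 16738152))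 (a (l 16733136) (l 16727912)))) (a (b (a (l 16708832) (l 16703960)) (l 16678384)) (b (l 16696640) (l 16710000)))) (a (a (b (b (l 16748928) (l 16753824)) (a (l 16740808) (l 16758336))) (b (a (l 16745296) (l 16740112)) (b (l 16750728) (l 16755040)))) (b (a (l 16732560) (l 16721904)) (a (a (l 16745648) (l 16740296)) (b (l 16729824) (l 16735080))))))), by decide +kernel⟩

def k14_A00pm_213_s3 : ∃ t, chk3 f_A00pm_213_s3 t 6 28 1 = true :=
  ⟨(b (a (a (a (b (l 16766728) (l 16769392)) (l 16744136)) (a (l 16761744) (b (l 16756712) (l 16759968)))) (a (b (a (l 16763216) (l 16747816)) (a (a (l 16757688) (b (l 16755016) (l 16762456))) (a (l 16756496) (l 16751480)))) (b (a (l 16742640) (l 16737816)) (a (l 16748008) (l 16722632))))) (b (a (a (a (b (l 16771080) (l 16772048)) (l 16747832)) (a (l 16765816) (a (l 16763624) (l 16762264)))) (b (a (a (a (l 16760216) (b (l 16758648) (l 16759552))) (a (b (a (l 16757496) (l 16756432)) (a (a (l 16769448) (b (l 16758232) (l 16769320)))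 (l 16768216))) (b (l 16754744) (l 16766568)))) (a (a (l 16774184) (l 16751064)) (l 16737568))) (a (c (a (l 16758248) (a (a (b (l 16767816) (l 16768664)) (a (l 16778344) (l 16767344))) (l 16765816))) (a (l 16754000) (a (a (l 16752264) (c (l 16755504) (l 16747208))) (l 16750192)))) (a (a (l 16756000) (l 16753944)) (l 16740576))))) (c (a (a (a (b (l 16775936) (l 16765880)) (l 16774704)) (a (l 16773072) (l 16771824))) (a (a (l 16771080) (a (b (a (l 16769976) (b (l 16769456) (l 16770376))) (l 16771720)) (b (a (l 16769152) (l 16768072)) (a (l 16766472) (l 16770896))))) (a (a (l 16767760) (l 16765416)) (l 16751680)))) (a (a (a (b (l 16769800) (a (l 16771560) (l 16770032))) (l 16756424)) (a (l 16763248) (l 16759944))) (a (a (l 16757112) (a (b (a (l 16754440) (l 16753928)) (l 16756448)) (b (a (l 16753072) (l 16752368)) (a (l 16755736) (l 16754928))))) (a (a (l 16752544) (l 16751040)) (l 16749040))))))), by decide +kernel⟩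

def k15_A00pm_213_s3 : ∃ t, chk3 f_A00pm_213_s3 t 12 58 1 = true :=
  ⟨(a (b (b (a (c (a (l 16776912) (l 16776456)) (a (l 16772536) (l 16771096))) (a (l 16772792) (l 16771696))) (a (c (a (b (l 16777112) (l 16777256)) (l 16776896)) (c (a (l 536407567) (l 16773416)) (a (l 536094735) (l 16771040)))) (a (b (l 16773480) (l 16773944)) (l 16772760)))) (a (c (c (a (b (l 537073167) (a (l 537150223) (l 537132815))) (b (l 16778248) (l 537108239))) (a (b (l 536765711) (a (l 536834831) (l 536815631))) (b (l 536727567) (l 536787983)))) (c (a (b (l 536450831) (a (l 536512271) (l 536490767))) (b (l 536408591) (l 536460047))) (a (b (l 536129039) (a (l 536182543) (l 536158991))) (b (l 536082191) (l 536124687))))) (c (a (b (l 16777064) (b (l 16777408) (l 16777592))) (b (l 16776752) (l 16777336))) (a (b (l 16772136) (b (l 16773056) (l 16773648))) (b (l 16770792) (l 16772144)))))) (b (a (b (l 16770088) (a (l 16771784) (l 16770896))) (a (l 16769384) (l 16768648))) (b (a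 (a (l 16772968) (l 16772216)) (l 16771320)) (a (a (b (l 16773808) (l 16774336)) (l 16773456)) (a (l 16772944) (l 16772536)))))), by decide +kernel⟩

def k16_A00pm_213_s3 : ∃ t, chk3 f_A00pm_213_s3 t 13 58 1 = true :=
  ⟨(a (a (b (a (l 16768032) (l 16767544)) (a (l 16771424) (l 16771192))) (a (b (b (l 16766200) (l 16768184)) (l 16771136)) (c (b (b (a (l 16773568) (l 16768320)) (l 16775432)) (l 16778032)) (b (b (a (l 16758072) (l 16747168)) (l 16760280)) (l 16763880))))) (a (a (c (b (b (l 16772176) (a (l 16770232) (l 16774680))) (b (a (l 16777496) (l 16772200)) (l 16779344))) (b (b (l 16756568) (a (l 16749200) (l 16759032))) (b (a (l 16762184) (l 16756568)) (l 16764456)))) (b (b (l 16762760) (l 16765736)) (b (c (l 16776136) (l 16760920)) (a (c (b (l 16778792) (l 16780064)) (b (l 16763240) (l 16764624))) (l 16773728))))) (b (a (c (l 16769416) (l 16755432)) (l 16771336)) (a (b (l 16766968) (l 16772432)) (c (l 16773328) (l 16759824)))))), by decide +kernel⟩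

def k17_A00pm_213_s3 : ∃ t, chk3 f_A00pm_213_s3 t 24 59 2 = true :=
  ⟨(b (a (b (c (a (c (a (l 537304335) (l 537287951)) (a (l 537144335) (l 537126927))) (b (l 537163535) (l 537202959))) (a (c (a (l 536982287) (l 536963855)) (a (b (l 536801295) (l 536834319)) (l 536798735))) (a (l 536863247) (l 536845839)))) (a (a (c (c (b (b (l 537354511) (l 537375759)) (l 537408527)) (b (b (l 537191695) (l 537211663)) (l 537242639))) (c (b (b (l 537026831) (l 537045775)) (l 537074959)) (b (b (l 536860175) (l 536877839)) (l 536905231)))) (b (b (c (l 537256719) (l 536924943)) (l 537044239)) (l 537141775))) (b (b (l 536999695) (l 537086479)) (l 537117199)))) (b (a (b (l 536969487) (l 537006863)) (l 536960271)) (a (b (l 537046031) (l 537086735)) (l 537039631)))) (a (a (b (a (l 4) (b (l 537183247) (l 4))) (l 4)) (b (a (b (l 537166863) (l 537210383)) (l 537173519)) (a (l 4) (b (l 537240079) (l 4))))) (a (b (a (l 537158671) (l 537144591)) (a (b (l 537225743) (l 537273103))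 (l 537236495))) (b (l 537125391) (a (l 537223695) (l 537211919)))))), by decide +kernel⟩

def k18_A00pm_213_s3 : ∃ t, chk3 f_A00pm_213_s3 t 24 59 3 = true :=
  ⟨(b (a (b (a (c (c (a (b (l 536636687) (l 536667407)) (l 536631823)) (a (b (l 536470031) (l 536498447)) (l 536462863))) (a (b (l 536351247) (c (l 536327695) (l 536155151))) (b (l 536193295) (l 536218383)))) (c (a (l 536527119) (l 536507407)) (a (l 536183567) (l 536161551)))) (a (a (c (c (b (b (l 536691215) (l 536707855)) (l 536733455)) (b (b (l 536520719) (l 536536079)) (l 536559887))) (c (b (b (l 536348175) (l 536362255)) (l 536384271)) (b (b (l 536173839) (l 536186639)) (l 536206607)))) (b (b (c (l 536585231) (l 536238095)) (l 536427535)) (l 536450575))) (b (b (l 536246799) (l 536395791)) (l 536419087)))) (b (a (b (l 536291087) (l 536319247)) (l 536000015)) (a (b (l 536348943) (l 536379919)) (l 536060175)))) (a (a (b (a (l 4) (b (l 536482319) (l 4))) (l 4)) (b (a (b (l 536461327) (l 536494863))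 (l 536324367)) (a (l 4) (b (l 536510223) (l 4))))) (a (b (a (l 536439055) (l 536420623)) (a (b (l 536491023) (l 536528143)) (l 536223503))) (b (l 536394511) (a (l 536474639) (l 536457999)))))), by decide +kernel⟩

def k19_A00pm_213_s3 : ∃ t, chk3 f_A00pm_213_s3 t 25 59 1 = true :=
  ⟨(b (a (b (c (a (l 16777744) (l 16777800)) (a (l 16772312) (l 16771296))) (a (b (l 536645647) (l 536683023)) (c (l 16778368) (l 16772720)))) (b (a (l 16774208) (l 16773936)) (a (a (l 16775384) (l 16775296)) (l 16775216)))) (a (a (b (a (l 536745999) (l 536741647)) (c (a (l 537204751) (l 537206287)) (a (l 536446223) (l 536443151)))) (b (a (l 536742159) (l 536745743)) (c (l 537217807) (l 536448015)))) (a (b (l 536755983) (c (l 537241103) (l 536462351))) (b (l 536775695) (c (l 16780216) (l 16774208)))))), by decide +kernel⟩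

def k20_A00pm_213_s3 : ∃ t, chk3 f_A00pm_213_s3 t 13 118 1 = true :=
  ⟨(c (a (a (l 16768952) (l 16780688)) (a (a (l 16781608) (b (a (l 16781328) (b (l 16780600) (a (l 16781880) (l 16781744)))) (a (l 16782672) (l 16777752)))) (b (a (l 16779800) (l 16777568)) (a (a (b (l 16779648) (a (l 16783512) (l 16783344))) (l 16781968)) (l 16780272))))) (a (a (a (l 16769784) (l 16769232)) (l 16768592)) (a (a (l 16767856) (a (b (l 16766352) (l 16768488)) (b (a (l 16760872) (l 16765744)) (l 16768256)))) (b (a (l 16765056) (l 16763776)) (a (a (b (l 16767176) (a (l 16768552) (l 16768288))) (l 16767240)) (l 16766280)))))), by decide +kernel⟩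

def k21_A00pm_213_s3 : ∃ t, chk3 f_A00pm_213_s3 t 13 119 1 = true :=
  ⟨(c (a (a (b (l 16780792) (l 16770912)) (a (l 16782288) (l 16783088))) (c (a (a (l 16786704) (l 16782392)) (a (b (a (l 16787928) (b (l 16782096) (a (l 16788464) (l 16788336)))) (b (l 16783528) (l 16789040))) (b (l 16786272) (a (b (a (b (l 16788752) (l 16789264)) (l 16788504)) (a (l 16789632) (b (l 16789352) (a (l 16789872) (l 16789808))))) (l 16788160))))) (a (a (l 16780864) (l 16770768)) (a (b (a (l 16780944) (b (l 16780176) (a (l 16781376) (l 16781192)))) (b (l 16781960) (l 16782448))) (b (l 16779424) (a (b (a (b (l 16781664) (l 16782208)) (l 16781520)) (a (l 16782704) (b (l 16782344) (a (l 16782904) (l 16782808))))) (l 16781336))))))) (b (a (a (l 16772184) (l 16771496)) (a (a (l 16770848) (l 16770360)) (a (a (b (l 16769512) (l 16770432)) (b (a (l 16769168) (l 16768896)) (a (l 16770272) (b (l 16769728) (l 16770328))))) (a (l 16769000) (l 16768336))))) (a (a (l 16773720) (l 16773152))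 (a (a (l 16772592) (l 16772160)) (a (b (c (l 16774912) (l 16767616)) (l 16777368)) (a (b (a (b (l 16770552) (a (l 16771200) (l 16771056))) (l 16770560)) (c (a (l 16775528) (b (l 16775072) (l 16778248))) (a (l 16768096) (b (l 16767552) (l 16768136))))) (b (l 16770064) (l 16776424)))))))), by decide +kernel⟩

def k22_A00pm_213_s3 : ∃ t, chk3 f_A00pm_213_s3 t 24 60 1 = true :=
  ⟨(a (l 4) (b (b (a (a (l 4) (c (b (l 537298191) (b (l 537319439) (l 4))) (b (l 536546575) (b (l 536572943) (l 4))))) (c (b (a (l 537285647) (l 537274383)) (a (l 537314831) (l 537303567))) (b (a (l 536529423) (l 536513295)) (a (l 536666127) (l 536415247))))) (b (a (l 4) (a (b (c (l 537303567) (l 536727311)) (l 4)) (b (c (l 537326095) (l 536443151)) (a (c (l 537343503) (l 536599567)) (c (a (l 537339919) (l 537339151)) (a (l 536594191) (l 536592143))))))) (a (l 4) (a (l 4) (a (l 4) (a (l 4) (b (b (l 537119247) (l 4)) (l 4)))))))) (l 4))), by decide +kernel⟩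

def k23_A00pm_213_s3 : ∃ t, chk3 f_A00pm_213_s3 t 25 120 1 = true :=
  ⟨(a (b (a (c (a (b (l 537269263) (l 537297679)) (b (l 537275151) (l 537312527))) (a (b (l 536503567) (l 536270607)) (b (l 536504847) (l 536549135)))) (b (a (l 536903695) (l 536913679)) (a (l 536945167) (l 536954127)))) (a (c (b (a (b (l 537332495) (l 537346575)) (l 537348367)) (a (b (l 537361423) (a (l 537373711) (l 537378319))) (l 537311247))) (b (a (b (l 536579343) (l 536597007)) (l 536592399)) (a (b (l 536615439) (a (l 536632591) (l 536635151))) (l 536764175)))) (c (b (l 537363471) (a (l 537387791) (l 537397775))) (b (l 536332303) (a (l 536635151) (l 536640527)))))) (a (b (b (l 536928783) (a (l 536962575) (l 536971279))) (a (b (l 536998927) (l 537032207)) (b (l 537006863) (l 537040399)))) (b (c (l 537357583) (l 536566287)) (c (a (l 537414671) (l 537425423)) (a (l 536640015) (l 536646415)))))), by decide +kernel⟩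

def k24_A00pm_213_s3 : ∃ t, chk3 f_A00pm_213_s3 t 25 121 1 = true :=
  ⟨(a (b (a (b (a (l 4) (a (b (c (l 537397519) (l 536656143)) (l 4)) (c (l 537342735) (l 536735247)))) (l 4)) (c (b (a (l 537383695) (l 537426959)) (a (b (l 537371919) (a (l 4) (l 537456143))) (b (l 537448975) (l 537463567)))) (b (a (b (l 536662543) (l 536681231)) (l 536677647)) (a (b (l 536700175) (a (l 4) (l 536720399))) (b (l 536705551) (l 536724495)))))) (b (a (l 4) (a (l 4) (b (c (l 537411343) (l 536810767)) (a (l 4) (c (l 537495823) (l 536764175)))))) (l 4))) (c (b (a (a (b (l 537437199) (l 537332495)) (b (l 537447439) (l 537477135))) (b (a (l 537457935) (l 537468687)) (a (l 537487887) (l 537498639)))) (a (b (a (a (l 537493775) (b (l 537491215) (l 537506063))) (b (l 537499151) (a (l 537511439) (l 537516559)))) (a (b (a (l 537515791) (a (l 537519887) (l 537522447))) (a (l 4) (b (a (l 537530895) (l 537533455)) (l 4)))) (b (a (l 537526287) (l 537531663)) (a (l 537541391) (l 537546767)))))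 (b (a (l 537517583) (l 537528591)) (a (b (l 537539855) (l 537554959)) (l 537558799))))) (b (a (a (b (l 536683279) (l 536519695)) (b (l 536689167) (l 536727055))) (b (l 536564495) (a (l 536733199) (l 536739599)))) (a (a (b (a (l 536757775) (b (l 536750863) (l 536770063))) (b (a (l 536786447) (a (l 536788495) (l 536790031))) (a (l 4) (b (a (l 536803087) (l 536804623)) (l 4))))) (b (b (l 536755471) (a (l 536773135) (l 536776207))) (b (a (l 536792335) (l 536795407)) (a (l 536811791) (l 536815119))))) (b (a (l 536503311) (l 536777999)) (a (b (l 536800271) (l 536819983)) (l 536548623))))))), by decide +kernel⟩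

def k25_A00pm_213_s3 : ∃ t, chk3 f_A00pm_213_s3 t 12 61 1 = true :=
  ⟨(a (l 4) (b (a (l 4) (a (a (l 4) (b (b (c (b (l 537424911) (a (l 4) (l 537576975))) (b (a (l 536831503) (l 536834575)) (a (l 4) (l 536854543)))) (l 4)) (l 4))) (b (c (b (a (b (l 537570063) (l 537316623)) (l 537589007)) (a (b (a (l 537597455) (l 537602831)) (a (l 4) (l 537618191))) (b (l 537611279) (l 537358095)))) (b (a (b (l 536839439) (l 536590863)) (l 536655119)) (a (b (a (l 536877583) (l 536880911)) (a (l 4) (l 536632591))) (b (l 536617487) (a (l 536904207) (l 536907791)))))) (b (b (a (l 4) (a (l 4) (c (l 537644559) (l 536928015)))) (l 4)) (l 4))))) (l 4))), by decide +kernel⟩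

def k26_A00pm_213_s3 : ∃ t, chk3 f_A00pm_213_s3 t 13 60 1 = true :=
  ⟨(a (a (c (b (b (a (l 16775784) (l 16781880)) (a (b (l 16780776) (l 16775296)) (l 16776312))) (b (a (b (l 537485839) (l 537515791)) (l 536720399)) (a (b (l 537277455) (a (l 537570063) (l 537581583))) (b (l 537569295) (l 537599759))))) (b (b (a (l 536579855) (l 16774784)) (a (l 536388367) (l 536670735))) (b (a (b (l 536711695) (l 536481551)) (b (l 16776320) (l 536764175))) (a (b (l 536520207) (a (l 536823823) (l 536830991))) (b (l 536534543) (l 536573967)))))) (b (a (b (l 16757776) (b (l 16779048) (l 16768688))) (b (l 16779096) (l 16758536))) (b (a (b (l 16768768) (l 536640783)) (b (l 16779680) (l 16769248))) (a (b (c (l 16781536) (l 16776912)) (c (l 16775912) (l 536857615))) (b (l 16769256) (l 536182799)))))) (b (a (b (a (c (l 16784480) (l 16774056)) (c (l 16785224) (l 16773680))) (c (l 16784672) (l 16775120))) (c (b (a (b (l 16785952) (l 16785896)) (b (a (c (l 16789792) (l 16783096))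 (a (b (a (b (l 16786488) (l 16786632)) (l 16786328)) (a (l 16786664) (b (l 16786576) (l 16786712)))) (l 16786088))) (a (l 16786400) (a (l 16786656) (b (a (l 16786704) (l 16786504)) (a (l 16786760) (l 16786776))))))) (a (l 16785720) (a (l 16786232) (l 16783960)))) (b (a (b (l 16772912) (l 16773608)) (a (b (c (l 16776152) (l 16768968)) (l 16773280)) (b (a (b (a (b (l 16772072) (l 16772328)) (l 16772056)) (a (l 16772616) (l 16772520))) (l 16772048)) (a (l 16773120) (b (a (l 16772840) (l 16772688)) (l 16773216)))))) (a (l 16774552) (a (l 16774256) (l 16774064)))))) (b (a (a (l 16769576) (l 16759368)) (a (c (l 16785336) (l 16775632)) (c (l 16786040) (l 16775296)))) (a (a (b (l 16759152) (l 16769616)) (c (l 16784008) (l 16776728))) (c (l 16774696) (l 16776408)))))), by decide +kernel⟩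

def k27_A00pm_213_s3 : ∃ t, chk3 f_A00pm_213_s3 t 52 61 1 = true :=
  ⟨(b (c (a (b (b (a (l 537600527) (l 537612047)) (a (l 537630991) (l 537642511))) (b (a (b (l 537653263) (l 537400335)) (l 537404943)) (a (b (l 537415695) (l 4)) (a (l 537701135) (l 537707023))))) (b (a (b (l 537623823) (l 537654543)) (l 537116431)) (a (b (l 537685263) (l 537447951)) (b (l 537697551) (l 537728783))))) (b (a (b (a (l 536594959) (l 536870671)) (a (b (l 536892943) (l 536913167)) (l 536642319))) (b (a (l 536877839) (l 536885519)) (a (l 536918031) (l 536925967)))) (a (b (a (b (l 536664847) (a (l 536683535) (l 536955407))) (b (l 536940559) (l 536692751))) (a (b (a (l 4) (l 536707599)) (l 4)) (b (a (l 536979727) (l 536983567)) (a (l 536732175) (l 537004303))))) (b (a (l 536690447) (l 536698383)) (a (b (l 536720911) (l 536741647)) (b (l 536997135) (l 537017871))))))) (c (b (a (a (l 4) (b (b (l 537458447) (l 4)) (l 4))) (a (b (a (l 537744143) (l 537750287)) (l 4)) (b (l 537759759)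 (l 537254415)))) (l 4)) (b (a (a (l 4) (b (b (a (l 4) (l 536756751)) (l 4)) (l 4))) (a (b (b (a (l 537028879) (l 537032975)) (a (l 4) (l 537053967))) (l 4)) (b (b (l 536770575) (l 536791567)) (b (a (l 537079311) (l 537083407)) (a (l 4) (l 537104655)))))) (l 4)))), by decide +kernel⟩

def k28_A00pm_213_s3 : ∃ t, chk3 f_A00pm_213_s3 t 53 61 1 = true :=
  ⟨(b (a (b (b (a (l 537008655) (l 537286671)) (a (l 536775951) (l 536785167))) (a (b (b (l 537339151) (l 537088783)) (a (l 536308495) (l 536582159))) (b (l 536552463) (c (l 537752079) (l 536753935))))) (b (b (a (l 537289999) (l 16769216)) (a (l 537055759) (l 537321487))) (b (a (l 536821519) (l 537085199)) (a (l 536318223) (l 536579087))))) (b (b (a (a (b (l 536606479) (a (l 536890383) (l 537164303))) (b (l 536614415) (l 536363791))) (a (b (l 536878607) (l 536893967)) (l 536070159))) (b (a (a (c (l 537795343) (l 536821263)) (c (l 537804047) (l 536825359))) (a (l 536639503) (l 537164303))) (a (a (c (l 537810959)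 (l 536842767)) (a (l 536667663) (l 536931599))) (a (l 536653839) (l 536911887))))) (c (a (a (b (b (l 537826575) (l 537844495)) (l 4)) (b (b (l 537835535) (l 537846031)) (l 537875983))) (a (b (l 537831695) (l 537868815)) (b (l 537825039) (l 537863439)))) (a (a (b (b (a (l 537130511) (l 537134863)) (a (l 4) (l 536889871))) (l 4)) (b (b (a (l 537137167) (l 537124111)) (l 536885007)) (a (l 4) (l 536920591)))) (b (a (a (l 536865039) (l 536859151)) (l 536581903)) (a (a (l 536914447) (l 536908815)) (b (l 537155343) (l 537181711)))))))), by decide +kernel⟩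

def k29_A00pm_213_s3 : ∃ t, chk3 f_A00pm_213_s3 t 27 61 1 = true :=
  ⟨(a (b (a (a (b (b (l 16769432) (l 537315599)) (b (l 537077007) (l 536836367))) (b (l 535685135) (b (l 537335567) (l 537094671)))) (b (b (l 16759400) (l 16769784)) (a (b (l 16769528) (l 537086479)) (b (l 16769728) (l 16769568))))) (a (b (a (b (l 536595983) (l 536090639)) (b (l 536587535) (l 536352271))) (c (a (b (l 537820431) (l 537859343)) (b (l 537817615) (l 537856783))) (a (b (l 536840463) (l 536891663)) (b (l 536832271) (l 536883983))))) (a (b (b (l 536849423) (l 536615951)) (b (l 536119823) (c (l 537855759) (l 536877583)))) (b (b (l 537113359) (l 536612879)) (b (l 536385807) (c (l 537856271) (l 536872719))))))) (c (b (b (l 16774032) (a (l 16772696) (l 16784096))) (a (a (b (l 16776728) (l 536769039)) (b (l 16771976) (l 537041167))) (b (l 16772728) (b (l 16782472) (l 16771432))))) (b (a (b (l 16777160) (b (l 16777552) (l 16777768))) (b (l 16777024) (l 16777672))) (a (b (b (l 16777944)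 (a (l 16778032) (l 16778104))) (a (b (l 16778104) (l 537137935)) (b (l 16778208) (l 16773008)))) (b (b (l 16778048) (l 16778240)) (b (l 16778384) (a (l 16773144) (l 16778528)))))))), by decide +kernel⟩

def k30_A00pm_213_s3 : ∃ t, chk3 f_A00pm_213_s3 t 6 31 1 = true :=
  ⟨(a (l 4) (b (a (b (a (l 4) (a (l 4) (b (b (a (c (l 537909263) (b (l 536950799) (l 4))) (b (l 536483087) (l 536507407))) (l 4)) (l 4)))) (l 4)) (b (a (b (a (b (a (c (l 537900303) (l 536677647)) (a (l 536754447) (c (l 537897231) (l 537204751)))) (a (b (l 536794383) (l 4)) (c (l 537672975) (a (l 536997135) (l 536993807))))) (c (b (a (l 537897231) (l 537897999)) (a (l 537941007) (l 537942031))) (b (a (a (l 537201679) (l 537199119)) (l 536927759)) (a (b (l 537242383) (l 537271823)) (l 536449039))))) (b (a (a (l 4) (c (l 537718287) (a (l 4) (l 537322511)))) (c (l 536914447) (a (l 537050639) (l 537046799)))) (a (l 4) (a (l 4) (c (l 538036239) (l 537379087)))))) (b (a (b (a (c (l 537900559)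 (l 536924943)) (l 536481551)) (a (c (l 537944847) (l 536983311)) (l 536264719))) (a (b (l 536753167) (l 536536591)) (b (l 536758031) (l 536541711)))) (a (a (b (l 536316687) (a (l 537177359) (l 537178127))) (b (l 536587279) (l 536375567))) (a (b (l 536591119) (l 536379663)) (b (l 536596495) (l 536385551)))))) (a (l 4) (b (b (b (a (a (l 537488399) (l 537490959)) (a (l 537495311) (l 537501455))) (a (a (l 4) (l 537521167)) (a (l 537525519) (l 537531919)))) (a (l 4) (a (c (l 538155791) (l 537249295)) (c (l 537896463) (l 537253135))))) (b (a (l 4) (a (l 4) (a (l 4) (l 537111311)))) (l 4)))))) (l 4))), by decide +kernel⟩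

def k31_A00pm_213_s3 : ∃ t, chk3 f_A00pm_213_s3 t 7 6 1 = true :=
  ⟨(b (l 6) (a (a (b (a (b (l 16688952) (l 16701992)) (b (l 6) (l 16655912))) (b (a (l 16713528) (l 16688496)) (a (l 16704016) (c (l 16683592) (l 16675232))))) (b (a (b (l 6) (a (l 16653904) (l 6))) (l 6)) (a (b (b (l 16673184) (l 16668792)) (b (l 16685760) (l 16692416))) (b (a (b (a (l 16704312) (l 16704488)) (l 16669080)) (b (a (b (l 6) (l 16706448)) (l 6)) (a (l 16674880) (b (a (l 16710192) (l 16710456)) (l 16713832))))) (a (b (l 16717840) (l 16724784)) (b (c (l 16721312) (l 16674600)) (b (l 16724184) (l 16727760)))))))) (b (l 6) (a (b (b (l 6) (a (a (a (c (b (l 16713040) (l 16716584)) (b (l 16709008) (l 16712512))) (c (l 16715688) (l 16711448))) (c (l 16717168) (a (l 16712144) (l 16712872)))) (a (c (l 16719288) (l 16714112)) (l 6)))) (a (a (c (b (b (l 16720640) (l 16724240)) (a (l 16729304) (l 16730048))) (b (a (b (l 16716040) (l 16719584)) (l 16718704)) (a (l 16724928) (b (l 16724120)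 (l 16727688))))) (b (c (l 16724528) (a (l 16719616) (l 16720512))) (c (l 16731672) (l 16727416)))) (a (b (c (l 16726760) (l 16721912)) (c (l 16733960) (l 16729448))) (c (b (l 16729032) (l 16736168)) (b (l 16723784) (l 16731376)))))) (b (l 6) (b (a (c (l 16732416) (a (l 16725592) (l 16727336))) (l 6)) (a (c (l 16739432) (a (l 16733240) (l 16735040))) (c (a (l 16742408) (l 16744320)) (a (l 16736744) (l 16738352)))))))))), by decide +kernel⟩

def k32_A00pm_213_s3 : ∃ t, chk3 f_A00pm_213_s3 t 14 14 1 = true :=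
  ⟨(b (a (b (a (b (l 16733552) (b (l 16738160) (l 16741288))) (b (l 16699408) (a (l 16737696) (l 16737192)))) (a (b (b (l 16728704) (l 16726664)) (b (l 16729816) (l 16732936))) (b (b (a (l 16742584) (l 16742120)) (a (l 16745824) (l 16745384))) (b (l 16727792) (l 16730880))))) (b (a (b (a (l 16730440) (l 16730912)) (a (l 16737208) (b (l 16736024) (l 16739400)))) (b (a (l 16689848) (c (l 16735680) (l 16730472))) (a (c (l 16741784) (l 16735504)) (b (l 16738144) (l 16741424))))) (a (a (b (b (l 16742192) (l 16745408)) (l 16750064)) (b (b (l 16742672) (l 16745840)) (l 16750432))) (b (b (a (l 16743488) (c (l 16747368) (l 16741864))) (a (l 16746616) (l 16747672))) (c (l 16718080) (a (l 16747808) (l 16749264))))))) (a (b (a (b (b (l 16746496) (l 16749456)) (c (a (l 16771200) (l 16769168)) (l 16747552))) (a (b (l 16756600) (l 16762216)) (b (l 16756024) (l 16761560)))) (a (c (b (a (l 16776728) (l 16774600)) (a (b (l 16780592) (c (l 16786240) (l 16779792))) (b (l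 16778392) (l 16786040)))) (b (a (l 16763776) (l 16762592)) (a (b (l 16767376) (a (l 16775208) (l 16769312))) (b (l 16766152) (l 16778880))))) (b (c (a (l 16772864) (l 16771656)) (a (l 16761800) (l 16761560))) (b (a (l 16781536) (l 16770240)) (c (a (l 16778928) (l 16777616)) (a (l 16767520) (l 16767224))))))) (b (a (b (c (l 16760128) (l 16751912)) (c (l 16765616) (l 16757200))) (b (a (l 16756784) (l 16757640)) (a (l 16762008) (l 16762776)))) (b (a (c (a (l 16770856) (l 16770480)) (a (l 16761744) (l 16762368))) (a (l 16766944) (l 16767688))) (a (b (a (l 16769904) (l 16770000)) (a (l 16761696) (l 16772320))) (a (b (l 16770488) (l 16772832)) (b (l 16771288) (l 16773640)))))))), by decide +kernel⟩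

def k33_A00pm_213_s3 : ∃ t, chk3 f_A00pm_213_s3 t 15 28 1 = true :=
  ⟨(a (b (c (a (a (b (a (l 16736440) (l 16736992)) (l 16743408)) (b (l 16738496) (a (l 16744304) (l 16745328)))) (a (b (l 16740688) (l 16746944)) (l 16756504))) (a (a (b (a (l 16731880) (l 16732856)) (b (l 16737304) (l 16740488))) (b (l 16734408) (a (l 16740312) (l 16741392)))) (b (a (l 16736472) (l 16738472)) (a (l 16743008) (l 16745064))))) (c (a (b (a (b (l 16748160) (l 16751200)) (b (l 16749320) (l 16752176))) (a (l 16755576) (b (l 16754944) (l 16757600)))) (a (b (l 16752712) (l 16757992)) (b (l 16754656) (l 16759952)))) (a (b (a (b (l 16743560) (l 16746544)) (b (l 16745392) (l 16748296))) (a (l 16750832) (b (l 16751096) (l 16753760)))) (b (a (l 16749032) (l 16751096)) (a (l 16754528) (l 16756744)))))) (c (a (b (b (l 16745960) (l 16762424)) (b (a (l 16756576) (l 16758456)) (l 16762880))) (b (a (b (l 16748720) (l 16754656)) (b (l 16750552) (l 16756432))) (b (a (l 16760272) (l 16762104))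 (a (l 16765664) (l 16767496))))) (b (a (b (a (l 16740392) (l 16742216)) (a (l 16747024) (l 16748848))) (a (b (l 16743888) (l 16750632)) (b (l 16745536) (l 16752360)))) (a (b (a (l 16753128) (l 16755120)) (a (l 16758896) (l 16761064))) (a (b (l 16757024) (l 16763184)) (b (l 16758952) (l 16765232))))))), by decide +kernel⟩

def k34_A00pm_213_s3 : ∃ t, chk3 f_A00pm_213_s3 t 15 29 1 = true :=
  ⟨(a (b (a (b (a (l 16716632) (c (l 16761528) (l 16757688))) (c (l 16729784) (l 16730584))) (a (b (l 16761248) (l 16724168)) (b (l 16763464) (l 16768408)))) (a (a (b (l 16768632) (l 16752456)) (b (l 16769608) (c (l 16776376) (l 16772352)))) (b (a (l 16739368) (l 16773016)) (a (c (l 16776816) (l 16773880)) (l 16777216))))) (b (a (a (b (l 16765648) (l 16770664)) (b (l 16767776) (l 16772824))) (b (c (l 16771712) (a (l 16768992) (l 16771096))) (a (l 16774848) (a (l 16776312) (l 16777128))))) (a (a (b (l 16775304) (l 16779512)) (b (l 16777568) (l 16781344))) (b (a (l 16800336)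 (c (l 16780680) (l 16780800))) (a (c (l 16782736) (l 16782808)) (c (l 16783056) (l 16783776))))))), by decide +kernel⟩

def k35_A00pm_213_s3 : ∃ t, chk3 f_A00pm_213_s3 t 14 60 1 = true :=
  ⟨(a (a (b (c (a (b (a (b (l 16785208) (l 16785944)) (l 16784432)) (a (b (a (b (l 16786696) (l 16786888)) (l 16786360)) (a (l 16786768) (l 16786856))) (b (l 16785552) (l 16786168)))) (b (a (l 16783288) (l 16782216)) (l 16779032))) (b (a (a (c (l 16775456) (l 16768440)) (l 16771384)) (l 16775680)) (a (a (b (a (b (l 16773344) (l 16773800)) (l 16773240)) (a (l 16774232) (b (l 16773928) (l 16774336)))) (b (l 16772792) (l 16773624))) (l 16772336)))) (a (c (b (a (l 16786576) (b (a (l 16786912) (l 16786544)) (l 16786920))) (l 16786312)) (b (a (l 16775056) (b (a (l 16774680) (l 16774336)) (l 16775296))) (l 16776056))) (c (b (a (b (l 16785840) (l 16786376)) (l 16785200)) (a (b (a (l 16787008) (l 16786784)) (l 16786928)) (b (l 16786248) (a (l 16786944) (l 16786704))))) (b (a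 (b (l 16773960) (l 16774736)) (l 16773888)) (a (b (a (l 16775760) (l 16775496)) (l 16776312)) (b (l 16775240) (a (l 16776136) (l 16776016)))))))) (c (a (b (b (l 16780904) (l 16782504)) (b (l 16784040) (l 16785488))) (b (b (l 16779624) (l 16781336)) (l 16778504))) (b (a (b (l 16769584) (l 16771520)) (b (l 16769312) (l 16771320))) (a (b (l 16773416) (l 16775256)) (l 16768984))))) (a (c (b (a (l 16769296) (l 16779504)) (a (l 16772720) (l 16783064))) (b (a (l 16760136) (l 16771360)) (a (l 16764136) (l 16775432)))) (b (a (b (l 16775040) (l 16777072)) (b (l 16775864) (l 16777928))) (a (b (l 16779024) (l 16780872)) (b (l 16779904) (l 16781760)))))), by decide +kernel⟩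

def k36_A00pm_213_s3 : ∃ t, chk3 f_A00pm_213_s3 t 14 61 1 = true :=
  ⟨(a (b (a (a (b (b (l 16781424) (l 16781472)) (a (l 16770832) (l 16771112))) (c (b (a (l 16786456) (b (a (l 16787032) (l 16787136)) (l 16786888))) (l 16786120)) (b (a (l 16776976) (b (a (l 16776816) (l 16776808)) (l 16777320))) (l 16777896)))) (b (a (a (b (l 16781784) (c (a (l 16787344) (l 16787168)) (a (l 16777504) (l 16777376)))) (l 16781840)) (c (l 16785928) (l 16776976))) (a (b (a (c (l 16787400) (l 16778160)) (c (l 16787320) (l 16767584))) (a (l 16782824) (c (a (l 16787696) (l 16787784)) (a (l 16778888) (l 16778920))))) (c (l 16787232) (l 16778688))))) (a (a (b (c (l 16784240) (l 16778320)) (b (l 16770648) (c (l 16783008) (l 16778768)))) (b (c (l 16785352) (l 16778584)) (c (l 16773928) (l 16768568)))) (a (c (b (b (l 16787096) (l 16786648)) (l 16775464)) (b (b (l 16779136) (l 16779424)) (l 16779816))) (a (c (b (b (a (l 16788104) (l 16788072)) (l 16788192)) (l 16787424)) (b (b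 (a (l 16779728) (l 16779760)) (l 16769920)) (l 16780728))) (b (b (l 16784064) (c (l 16788352) (l 16770096))) (b (a (c (l 16788576) (l 16781240)) (b (l 16774616) (l 16774880))) (l 16774552))))))) (b (a (a (c (l 16786192) (l 16773056)) (b (l 16771440) (l 16783512))) (a (b (l 16782608) (l 16763304)) (b (l 16783560) (l 16785080)))) (a (b (a (c (l 16788088) (l 16780776)) (a (l 16784800) (l 16785144))) (a (a (b (l 16774872) (a (b (l 16775216) (l 16764856)) (b (l 16785864) (l 16775560)))) (l 16775360)) (c (l 16789224) (l 16783104)))) (a (b (l 16785656) (c (l 16789400) (l 16784032))) (b (l 16786344) (l 16787168)))))), by decide +kernel⟩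

def k37_A00pm_213_s3 : ∃ t, chk3 f_A00pm_213_s3 t 15 30 1 = true :=
  ⟨(a (b (a (b (a (l 16756888) (l 16757792)) (a (b (l 16780848) (l 16782752)) (l 16761696))) (b (a (b (l 16778496) (l 16780536)) (l 16759896)) (a (l 16762080) (l 16767744)))) (a (b (a (b (l 16784392) (l 16785760)) (b (l 16784936) (l 16785952))) (a (b (l 16786696) (l 16766272)) (b (l 16786600) (l 16786912)))) (b (a (l 16774816) (b (l 16784488) (l 16784848))) (b (a (l 16786008) (l 16784968)) (a (l 16786104) (l 16784872)))))) (b (a (b (a (l 16782552) (l 16783920)) (a (l 16784408) (c (l 16785080) (l 16784968)))) (b (a (c (l 16784328) (l 16784800)) (c (l 16783976) (l 16785176))) (a (c (l 16784712) (l 16785448)) (c (l 16783872) (b (l 16785432) (l 16785312)))))) (a (b (a (l 16769016) (c (l 16784936) (l 16784880))) (a (b (l 16763304) (a (l 16783840) (l 16783672))) (b (l 16794672) (a (l 16783576) (l 16783384))))) (b (a (c (l 16784168) (b (l 16785216) (l 16784800))) (c (b (l 16783232) (l 16782696))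 (b (l 16784952) (l 16784496)))) (a (c (b (l 16783288) (l 16782616)) (b (l 16784184) (l 16783480))) (c (b (l 16782096) (a (l 16781752) (l 16781152))) (b (a (l 16784000) (l 16783808)) (a (l 16783360) (l 16783248))))))))), by decide +kernel⟩

def k38_A00pm_213_s3 : ∃ t, chk3 f_A00pm_213_s3 t 28 124 1 = true :=
  ⟨(a (b (a (a (b (l 536764431) (l 536548623)) (b (l 16770352) (l 536557071))) (a (b (l 16770744) (l 16770432)) (b (l 16771208) (l 16770912)))) (b (a (a (l 536603663) (l 536612623)) (c (l 16777032) (c (l 16769528) (l 16773192)))) (a (a (l 536392975) (l 536670735)) (a (l 536413711) (c (l 16776592) (l 16779256)))))) (c (a (b (c (l 16775464) (l 16783696)) (b (l 16773368) (l 16777856))) (b (c (l 16788168) (l 16785576)) (b (l 16785928) (l 16774672)))) (a (b (c (l 16770840) (l 16768368)) (b (l 16780128) (l 16774784))) (b (c (l 16782864) (l 16780032)) (b (l 16781552) (l 16776216)))))), by decide +kernel⟩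

def k39_A00pm_213_s3 : ∃ t, chk3 f_A00pm_213_s3 t 56 125 1 = true :=
  ⟨(b (b (a (a (l 536453391) (l 536463119)) (a (a (l 537276175) (l 537283343)) (a (l 537300495) (l 537058831)))) (a (a (l 536248079) (a (l 537059855) (l 537333775))) (c (a (l 537398543) (l 538247183)) (a (l 537007375) (b (l 16778784) (l 16775968)))))) (a (a (b (c (l 537694991) (l 537065999)) (l 4)) (b (c (l 538244879) (l 537073679)) (b (l 537176335) (l 4)))) (b (c (a (l 538261263) (b (l 538279439) (l 538343951))) (a (b (l 537600015) (l 537636879)) (b (l 537629967) (l 537706255)))) (a (b (a (l 537990415) (l 537196047)) (a (l 537213711) (c (l 537798671) (l 537721871)))) (b (c (l 538388239) (l 537225231)) (c (l 538405135) (l 537253135))))))), by decide +kernel⟩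

def k40_A00pm_213_s3 : ∃ t, chk3 f_A00pm_213_s3 t 57 125 1 = true :=
  ⟨(b (b (a (a (c (l 16781808) (l 16774280)) (c (l 16782736) (l 16780152))) (a (c (l 16783736) (l 16780848)) (c (l 16784792) (l 16781608)))) (b (a (a (l 537711631) (c (l 16782048) (l 16779920))) (a (l 16776600) (l 16777448))) (a (a (l 537760015) (c (l 16781552) (l 16779720))) (a (c (l 16782480) (l 16780368)) (c (l 16783440) (l 16781048)))))) (a (b (a (b (l 537540367) (c (l 538435855) (l 537796111))) (b (c (l 16781000) (l 16776848)) (c (l 538521103) (l 537073679)))) (c (b (a (l 538469903) (l 538550543)) (a (l 538488591) (a (l 538547471) (l 538585615)))) (a (b (l 537304591) (a (l 537850639) (l 537889807))) (b (a (l 537899791) (l 537937167)) (a (l 537927695) (l 537964559)))))) (b (a (a (b (l 537958927) (l 537728783)) (b (l 537997583) (l 537631503))) (b (c (l 16782832) (l 16780744)) (c (b (l 16782352) (l 16782024)) (c (l 16780864) (l 16779920))))) (b (a (a (a (l 538019855) (l 537903631))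 (a (l 537787151) (l 537804815))) (a (c (l 16778656) (l 16777224)) (c (l 16779104) (l 16777536)))) (a (a (c (l 538622735) (l 538000143)) (c (l 538658831) (l 538034447))) (a (c (l 538693647) (l 537530639)) (c (l 538727183) (b (l 16779832) (l 16779600))))))))), by decide +kernel⟩

def k41_A00pm_213_s3 : ∃ t, chk3 f_A00pm_213_s3 t 29 124 1 = true :=
  ⟨(a (b (a (a (b (c (l 16789096) (l 16782808)) (l 16775176)) (b (b (l 16775984) (a (l 16776152) (l 16786848))) (a (l 16776032) (b (l 16776480) (l 16776536))))) (a (b (l 16765896) (c (l 16779440) (l 16773664))) (l 16776760))) (a (a (b (l 16774808) (l 16774320)) (b (l 16775872) (l 16775304))) (b (a (a (b (l 16776824) (l 16766024)) (b (l 16776936) (l 16776992))) (l 16777056)) (a (l 16776280) (a (b (l 16777080) (l 16776856)) (a (b (l 16787680) (l 16777128)) (l 16777104))))))) (b (a (a (l 16776896) (l 16777000)) (c (l 16789696) (l 16785360))) (a (b (l 16777184) (l 16777192)) (b (l 16777152) (l 16777072))))), by decide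 +kernel⟩

def k42_A00pm_213_s3 : ∃ t, chk3 f_A00pm_213_s3 t 58 125 1 = true :=
  ⟨(b (c (a (b (l 16781152) (c (l 16780688) (l 16779272))) (b (b (l 16788920) (l 16788216)) (l 16782000))) (c (a (b (l 16783704) (l 16777792)) (b (a (l 16784968) (l 16785920)) (l 16779384))) (c (a (b (l 16782288) (l 16776624)) (b (l 16778648) (l 16783248))) (a (b (l 16781312) (l 16775824)) (b (l 16777520) (l 16782296)))))) (a (c (b (b (l 16779032) (a (l 16777864) (l 16784048))) (a (b (b (l 16782584) (l 16782216)) (b (l 16779224) (l 16778848))) (b (b (l 16783504) (l 16783128)) (b (l 16780120) (l 16779728))))) (b (a (b (l 16781424) (c (l 16781584) (l 16780504))) (b (l 16782112) (l 16776480))) (a (b (c (l 16781096) (l 16777552)) (b (l 16777680) (a (l 16779912) (l 16780224)))) (c (b (l 16781816) (c (l 16781488) (l 16781048))) (b (l 16780760) (l 16777744)))))) (c (b (b (l 16780960) (l 16780224)) (a (b (l 16778984) (b (l 16783640) (l 16778000))) (b (l 16785144) (l 16779096)))) (b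 (a (c (l 16778080) (l 16776632)) (l 16778056)) (b (a (l 16776712) (l 16777376)) (a (c (c (l 16782232) (l 16781728)) (l 16778320)) (c (l 16782696) (l 16781528)))))))), by decide +kernel⟩

def k43_A00pm_213_s3 : ∃ t, chk3 f_A00pm_213_s3 t 59 125 1 = true :=
  ⟨(b (a (b (a (b (b (l 16777104) (a (l 16777072) (l 16787608))) (a (l 16776920) (l 16776960))) (l 16777048)) (a (b (c (l 16789160) (l 16779824)) (l 16776040)) (a (b (l 16776824) (b (l 16776744) (l 16776560))) (b (l 16787352) (l 16776640))))) (b (l 16776904) (a (l 16776696) (l 16776528)))) (a (c (a (b (l 16781992) (b (l 16786056) (l 16779976))) (b (b (a (l 16788320) (l 16788736)) (l 16787704)) (l 16781000))) (c (b (a (l 16779576) (b (l 16780664) (l 16785280))) (b (l 16779128) (l 16778520))) (a (b (l 16783104) (b (l 16782536) (l 16782112))) (b (b (a (l 16783720) (l 16778784)) (l 16783512)) (l 16777656))))) (b (a (b (c (l 16788608) (l 16774504)) (a (b (a (l 16776296) (l 16776272)) (l 16776104)) (l 16776136)))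 (l 16776160)) (a (b (a (l 16775552) (a (l 16781112) (b (l 16775968) (l 16775832)))) (l 16780280)) (b (b (l 16775888) (l 16775712)) (a (b (a (l 16780896) (l 16775616)) (l 16780672)) (l 16780688))))))), by decide +kernel⟩

def k44_A00pm_213_s3 : ∃ t, chk3 f_A00pm_213_s3 t 15 62 1 = true :=
  ⟨(a (b (b (a (a (l 16776952) (l 16776424)) (a (l 16785944) (l 16784584))) (a (a (b (l 16787360) (l 16776720)) (c (l 16788024) (l 16785152))) (a (l 16775064) (l 16773632)))) (a (c (a (b (l 16788368) (a (l 16777152) (l 16787208))) (b (l 16787360) (b (l 16786696) (l 16786160)))) (b (a (l 16785192) (l 16774208)) (a (c (l 16785304) (l 16778544)) (a (l 16773672) (l 16783784))))) (b (a (b (l 16785104) (l 16774264)) (b (l 16783648) (l 16783312))) (a (b (a (l 16784648) (l 16784008)) (a (l 16784184) (l 16783568))) (b (l 16777720) (a (l 16782912) (l 16782232))))))) (b (a (a (b (a (l 16783368) (l 16782864)) (a (l 16782816) (l 16771616))) (b (a (l 16782760) (l 16782600)) (a (l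 16781888) (l 16781776)))) (a (b (a (l 16782376) (c (l 16781648) (l 16782712))) (a (c (l 16781440) (l 16781888)) (c (l 16781000) (l 16781984)))) (c (b (a (l 16781136) (l 16780592)) (a (l 16780544) (l 16780048))) (b (a (l 16782712) (l 16782680)) (a (l 16782056) (b (l 16782232) (l 16781928))))))) (a (c (a (b (l 16772056) (l 16776672)) (b (a (l 16781416) (l 16781096)) (a (l 16780744) (l 16780368)))) (a (b (b (l 16781408) (l 16781080)) (l 16775432)) (b (a (l 16780608) (l 16780864)) (a (b (l 16779976) (l 16779680)) (l 16779968))))) (a (b (c (a (l 16780752) (l 16780376)) (a (l 16781072) (l 16781240))) (a (b (l 16785568) (c (l 16779920) (l 16780032))) (c (b (l 16779912) (l 16779616)) (b (l 16780664) (l 16780272))))) (b (c (a (l 16785208) (b (l 16779656) (l 16779400))) (a (b (l 16781544) (l 16781192)) (b (l 16781616) (l 16781304)))) (c (a (b (l 16779552) (l 16779280)) (b (l 16779160) (a (l 16779008) (l 16778816)))) (a (b (l 16780840) (l 16780480)) (b (a (l 16780944)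 (l 16781008)) (a (l 16780608) (l 16780680)))))))))), by decide +kernel⟩

def k45_A00pm_213_s3 : ∃ t, chk3 f_A00pm_213_s3 t 56 126 1 = true :=
  ⟨(b (b (a (l 4) (a (l 4) (b (c (l 538147855) (a (l 537790735) (l 537832207))) (l 4)))) (l 4)) (l 4)), by decide +kernel⟩

def k46_A00pm_213_s3 : ∃ t, chk3 f_A00pm_213_s3 t 114 252 1 = true :=
  ⟨(b (a (a (b (b (l 537640719) (l 537379599)) (b (c (l 538482703) (l 537885711)) (l 4))) (b (c (l 538518799) (l 537911823)) (c (b (l 538523151) (l 538257423)) (b (l 537924879) (l 537933583))))) (a (b (c (l 538558223) (l 537949711)) (c (b (l 538562575) (l 538565391)) (b (l 537962767) (l 537971471)))) (b (c (l 538596623) (l 537986575)) (c (b (l 538600719) (l 538469391)) (b (l 537999375) (l 538008079)))))) (a (l 4) (b (a (b (c (c (l 538436879) (l 538425615)) (l 537979407)) (l 4)) (c (b (a (l 538327311) (l 538077711)) (a (c (l 538733583) (l 538456335)) (c (l 538483983) (l 538475023)))) (b (b (l 538013711) (l 538017551)) (b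 (l 538021135) (a (l 4) (l 538033423)))))) (l 4)))), by decide +kernel⟩

def k47_A00pm_213_s3 : ∃ t, chk3 f_A00pm_213_s3 t 115 504 1 = true :=
  ⟨(a (b (a (c (l 538365199) (b (l 538015503) (l 538025487))) (c (b (l 538665743) (l 538670095)) (b (l 538049807) (l 538059791)))) (a (c (b (l 538637839) (c (l 538780687) (l 538496783))) (b (l 538034959) (a (l 538034703) (l 538052111)))) (c (b (l 538405391) (c (l 538817039) (l 538264079))) (b (l 538069263) (a (l 538069263) (l 538086159)))))) (b (a (c (b (l 538700559) (l 538704911)) (b (l 538082831) (l 538093071))) (c (b (l 538734095) (l 538738447)) (b (l 538114575) (l 538124815)))) (a (c (b (l 538440207) (c (l 538852111) (l 538298383))) (b (a (l 538094095) (l 538110223)) (a (l 538102799) (l 538118927)))) (c (b (l 538473743) (c (l 538885903) (l 538331663))) (b (a (l 538126095) (l 538141711)) (a (l 538134799) (l 538150415))))))), by decide +kernel⟩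

def k48_A00pm_213_s3 : ∃ t, chk3 f_A00pm_213_s3 t 115 1010 1 = true :=
  ⟨(a (a (c (b (a (l 538096399) (c (l 538790159) (l 538509071))) (c (a (l 538502671) (b (l 538789391) (l 538520335))) (a (l 538493455) (b (l 538510607) (l 538511631))))) (b (a (l 538042639) (l 538060303)) (a (b (l 538047759) (l 538051087)) (b (l 538065167) (a (l 538064143) (l 538072847)))))) (b (c (a (b (l 538400015) (l 538132495)) (b (l 538417679) (l 538150159))) (a (l 538010127) (b (l 538091791) (l 538095631)))) (c (c (a (b (l 538807567) (b (l 538807055) (l 538538255))) (b (l 538825231) (l 538556431))) (b (a (l 538528271) (l 538545935)) (a (l 538462223) (l 538546959)))) (a (b (l 538082319) (b (l 538084879) (l 537952271))) (b (l 538099215) (b (l 538101519) (l 538103311))))))) (b (a (c (b (c (l 538851855) (l 538568975)) (c (l 538851855) (l 538301967))) (a (b (l 538108431) (l 538112015)) (b (l 538124559) (l 538128399)))) (c (b (l 538309647) (a (l 538469903) (l 538486287))) (a (b (l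 538140431) (l 538144271)) (b (l 538156047) (l 538159631))))) (a (c (a (c (b (l 538842895) (l 538842383)) (b (l 538563087) (l 538564111))) (c (l 538457871) (l 538513935))) (b (a (l 538115599) (l 538131983)) (a (l 538119183) (l 538135311)))) (c (a (c (l 538877455) (l 538597647)) (c (l 538894095) (l 538614031))) (a (b (l 538147855) (l 538151183)) (b (l 538163215) (l 538166799))))))), by decide +kernel⟩

def k49_A00pm_213_s3 : ∃ t, chk3 f_A00pm_213_s3 t 115 1011 1 = true :=
  ⟨(a (a (a (b (b (b (c (c (l 538769679) (l 538493967)) (l 538053391)) (l 4)) (l 4)) (l 4)) (b (b (a (c (c (l 538917647) (l 538507791)) (b (l 538066703) (l 538001167))) (c (c (c (l 538859279) (l 538725135)) (l 538516751)) (b (l 538075151) (l 538009615)))) (l 4)) (l 4))) (b (c (b (c (a (b (l 538537999) (l 538537487)) (l 538555663)) (a (b (l 538529807) (l 538530319)) (l 538547727))) (a (c (l 538536975) (l 538530831)) (c (l 538554639) (l 538548239)))) (b (a (b (a (l 538083855) (l 538092303))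 (l 538022415)) (b (l 538104847) (l 538106383))) (a (a (l 538020623) (l 538096143)) (a (l 538104591) (l 538113039))))) (b (a (l 4) (c (c (l 538553615) (l 538548751)) (a (l 538040335) (l 538115855)))) (l 4)))) (c (c (b (b (a (a (l 538841615) (l 538859023)) (l 538616079)) (a (a (l 538840847) (l 538857999)) (l 538598415))) (a (a (b (l 538571023) (l 538569743)) (a (l 538583823) (l 538592527))) (a (l 538638863) (l 538621967)))) (a (b (b (a (l 538564879) (l 538581775)) (a (l 538565647) (l 538582543))) (a (b (l 538565903) (l 538566159)) (b (l 538582799) (l 538583055)))) (b (a (b (l 538598415) (l 538598927)) (b (l 538614799) (l 538615311))) (a (b (l 538599439) (l 538599439)) (b (l 538615823) (l 538615823)))))) (a (c (b (a (b (l 538273551) (l 538275599)) (b (l 538289935) (l 538292239))) (a (b (l 538277647) (l 538279439)) (b (l 538294287) (l 538296079)))) (b (a (b (l 537967631) (l 537971471)) (b (l 537983503) (l 537987343))) (a (b (l 537975055) (l 537978639)) (b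 (l 537990927) (l 537994511))))) (c (b (a (l 538206991) (l 538189327)) (a (b (l 538310415) (l 538312207)) (b (l 538326031) (l 538327823)))) (b (a (b (l 537999119) (l 538002959)) (l 537781775)) (a (b (l 538006543) (l 538010127)) (b (l 538021903) (l 538025487)))))))), by decide +kernel⟩

def k50_A00pm_213_s3 : ∃ t, chk3 f_A00pm_213_s3 t 57 253 1 = true :=
  ⟨(a (l 4) (b (a (l 4) (b (c (c (a (b (a (l 4) (b (l 538585359) (l 4))) (l 4)) (a (b (b (l 538870799) (l 538600207)) (l 4)) (b (a (l 538748687) (l 538622735)) (b (l 538614799) (l 4))))) (b (a (a (l 4) (b (l 538582799) (l 4))) (a (b (l 538599439) (l 538599183)) (b (l 538615823) (l 538615567)))) (a (l 4) (a (l 4) (b (l 538615055) (l 4)))))) (a (b (a (l 4) (b (b (l 538148879) (l 538149903)) (l 4))) (l 4)) (c (b (a (b (l 538313743) (l 538315023)) (b (l 538329615) (l 538330895))) (a (l 4) (b (l 538332175) (l 4)))) (b (a (b (l 538013455) (l 538016527)) (b (l 538028815) (l 538031887))) (a (l 4) (b (l 538034959)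 (l 4))))))) (l 4))) (l 4))), by decide +kernel⟩

def k51_A00pm_213_s3 : ∃ t, chk3 f_A00pm_213_s3 t 116 504 1 = true :=
  ⟨(a (c (a (b (b (l 538766351) (l 538770959)) (b (l 538506255) (a (l 538500879) (l 538785039)))) (b (b (l 16778672) (l 538802191)) (b (l 538537487) (l 538271759)))) (a (b (b (l 538145295) (l 538155279)) (b (a (l 538157071) (l 538171919)) (a (l 538165775) (l 538180623)))) (b (b (l 16777352) (l 537916175)) (b (c (l 16779736) (l 16779192)) (a (l 538195215) (l 538209551)))))) (a (b (c (b (l 16781728) (l 16778712)) (b (l 16780288) (l 537944079))) (b (c (l 538567439) (c (l 16780072) (l 16779464))) (c (l 538301711) (a (l 538223375) (l 538237199))))) (b (c (b (l 16782168) (l 16779144)) (b (l 16780600) (l 16777720))) (b (c (l 538864655) (c (l 16780408) (l 16779736))) (c (l 538598927) (c (l 16780104) (l 16779504))))))), by decide +kernel⟩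

def k52_A00pm_213_s3 : ∃ t, chk3 f_A00pm_213_s3 t 116 505 1 = true :=
  ⟨(a (b (a (a (c (b (l 538234383) (c (l 538910479) (l 538629903))) (b (l 538039311) (b (l 538178575) (l 538181903)))) (c (b (l 538518543) (b (l 538519055) (l 538519311))) (b (l 538054415) (b (l 538193423) (l 538197007))))) (a (c (b (l 538534159) (l 538401039)) (b (l 538069007) (b (l 538208015) (l 538211599)))) (b (c (l 538549519) (l 538217487)) (c (l 538416399) (b (l 538222351) (l 538225679)))))) (c (b (b (a (a (l 538503439) (l 538519311)) (a (l 538534927) (l 538550287))) (a (a (l 538234639) (l 538519055)) (a (l 538534671) (l 538550031)))) (a (a (c (l 538906895) (b (l 538631695) (l 538631951))) (c (l 538923023) (l 538379791))) (a (c (l 538938895) (l 538395151)) (c (l 538954255) (l 538410255))))) (a (c (b (a (l 538070799) (l 538085903)) (a (l 538209039) (l 538224143))) (b (a (l 537763343) (l 537777935)) (a (l 537837839) (l 537852431)))) (c (b (a (l 538100751) (l 538383887)) (a (l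 538104847) (l 538119439))) (b (a (l 537792271) (l 538074639)) (a (l 537799695) (l 537813519))))))) (b (a (a (c (b (l 538832911) (l 538565647)) (b (l 538231311) (b (l 538236431) (l 538239759)))) (b (c (l 538847759) (l 538245135)) (c (l 538580239) (b (l 538249999) (l 538253327))))) (a (b (c (l 538862095) (l 538258447)) (c (l 538594831) (b (l 538263311) (l 538266639)))) (b (c (l 538876175) (l 538271247)) (c (l 538877199) (b (l 538276111) (l 538279439)))))) (c (b (a (a (l 538431503) (l 538580495)) (b (l 538333199) (l 538332943))) (a (a (c (l 538969615) (l 538425103)) (l 538445583)) (a (l 538325775) (l 538608143)))) (a (b (b (a (l 538242831) (l 538256655)) (a (l 538245903) (l 538259471))) (b (a (l 538248719) (l 538262287)) (a (l 538251279) (l 538265103)))) (b (a (b (l 538269711) (l 538272783)) (b (l 538282767) (l 538285839))) (a (b (l 538275599) (l 538278159)) (b (l 538288655) (l 538291215)))))))), by decide +kernel⟩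

def k53_A00pm_213_s3 : ∃ t, chk3 f_A00pm_213_s3 t 117 252 1 = true :=
  ⟨(b (a (c (b (b (l 16780208) (l 16779800)) (b (a (l 16779168) (l 16779592)) (a (l 538626575) (l 16779176)))) (c (b (c (l 16778976) (l 16778544)) (b (l 16778304) (c (l 16778160) (l 16780440)))) (b (c (l 16778104) (l 16777656)) (b (l 16777536) (c (l 16780096) (l 16779736)))))) (c (b (c (l 16780704) (l 16780424)) (b (l 16780240) (l 16779808))) (c (b (c (l 16782328) (l 16781840)) (a (l 16778656) (l 16778992))) (b (l 16778456) (b (l 16780720) (l 16780472)))))) (a (b (a (a (b (c (l 538889999) (l 538284047)) (c (l 538891023) (l 538022671))) (b (c (l 538903567) (l 538296335)) (c (l 538904591) (l 538034959)))) (a (b (c (l 538916623) (l 538308111)) (c (l 538917647) (l 538046991))) (b (c (l 16778848) (l 538319887)) (c (l 538930703) (l 538058511))))) (c (b (a (a (l 538622735) (l 538904847)) (a (l 538917903) (l 14))) (a (b (l 538360079) (l 538426639)) (l 14))) (a (b (a (c (l 538451727) (l 538139407))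 (c (l 538464527) (l 538151183))) (a (c (l 538455823) (l 538146575)) (c (l 538468367) (l 538158607)))) (b (a (c (l 538476815) (l 538162703)) (l 14)) (l 14))))) (a (b (b (c (l 16779168) (c (l 16780792) (l 16780080))) (l 14)) (l 14)) (l 14)))), by decide +kernel⟩

def k54_A00pm_213_s3 : ∃ t, chk3 f_A00pm_213_s3 t 232 1012 1 = true :=
  ⟨(c (c (b (b (a (a (l 538903823) (l 538919951)) (l 538675215)) (a (a (l 538901775) (l 538917903)) (a (l 538933775) (l 538949391)))) (b (a (a (l 538899727) (l 538915855)) (a (l 538931727) (l 538947343))) (a (a (l 538628879) (l 538913295)) (a (l 538929167) (l 538944783))))) (b (a (a (c (l 538433039) (l 538293775)) (b (l 538647567) (l 538647311))) (a (b (l 538662927) (l 538662671)) (l 538275855))) (b (a (a (l 538630927) (l 538646543)) (a (l 538662159) (l 538677007))) (a (a (l 538630159) (l 538645775)) (a (l 538661391) (l 538676239)))))) (c (a (b (a (b (l 538344975) (l 538346511)) (b (l 538360335) (l 538361615))) (a (b (l 538347535)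 (l 538348559)) (b (l 538362895) (l 538363919)))) (b (a (b (l 538375183) (l 538376463)) (l 538256911)) (a (b (l 538377743) (l 538378767)) (b (l 538392335) (l 538393103))))) (a (b (a (b (l 538043663) (l 538046735)) (b (l 538058255) (l 538061327))) (a (b (l 538049807) (l 538052623)) (b (l 538064399) (l 538067215)))) (b (a (b (l 538072591) (l 538075663)) (l 537920783)) (a (b (l 538078735) (l 538081551)) (b (l 538092559) (l 538095375))))))), by decide +kernel⟩

def k55_A00pm_213_s3 : ∃ t, chk3 f_A00pm_213_s3 t 232 1013 1 = true :=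
  ⟨(c (a (a (l 4) (b (b (c (l 538910735) (l 538644751)) (l 4)) (l 4))) (a (b (c (a (l 538787343) (l 538661135)) (b (l 538660367) (c (l 538726415) (l 538590479)))) (l 4)) (b (a (b (l 538471183) (l 538435343)) (b (l 538545935) (l 538476559))) (b (c (l 538935823) (c (l 538739727) (l 538604559))) (l 4))))) (c (a (b (a (l 4) (b (l 538364687) (l 4))) (l 4)) (b (a (b (l 538379535) (l 538514191)) (b (l 538393871) (l 538394639))) (a (l 4) (b (l 538260751) (l 4))))) (a (b (a (l 4) (b (l 538069775) (l 4))) (l 4)) (b (a (b (l 538084111) (l 537818127)) (b (l 538097935) (l 538100495))) (a (l 4) (b (l 537867791) (l 4))))))), by decide +kernel⟩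

def k56_A00pm_213_s3 : ∃ t, chk3 f_A00pm_213_s3 t 233 506 1 = true :=
  ⟨(b (c (a (a (b (c (l 538966287) (l 538424847)) (b (l 538560527) (l 538424847))) (b (c (l 538981391) (l 538439439)) (b (l 538575375) (l 538573839)))) (a (b (b (l 538592271) (l 538591247)) (c (l 538971151) (l 538318351))) (b (l 538472207) (c (l 538956815) (l 538198031))))) (a (b (b (a (l 538253839) (l 538267407)) (a (l 538256143) (l 538269711))) (b (a (l 538191119) (l 538271759)) (a (a (l 538256399) (l 538263311)) (a (l 538270223) (l 538276879))))) (b (a (c (l 538432783) (l 537860111)) (c (l 538446095) (l 537872655))) (a (b (l 538285071) (l 538219791)) (c (l 538180111) (l 538012687)))))) (c (b (b (a (a (c (l 538957327) (l 538690063)) (l 538437647)) (a (l 538586383) (l 14))) (a (a (c (l 538954255) (l 538688783)) (c (l 538969359) (l 538703375))) (a (l 538449935) (l 14)))) (a (a (b (c (l 538951183) (l 538418959)) (c (l 538947599) (c (l 538752527) (l 538617871)))) (c (a (l 538692879)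 (l 538700303)) (b (l 538433295) (l 538431759)))) (l 14))) (c (a (b (a (b (l 538408207) (l 538408719)) (b (l 538422031) (l 538422543))) (a (b (l 538408975) (l 538275087)) (b (l 538423055) (l 538154767)))) (a (b (a (l 538164751) (l 538171407)) (l 14)) (l 14))) (a (b (a (b (l 538111503) (l 538114063)) (b (l 538124815) (l 538127119))) (a (b (l 538116367) (l 537916943)) (b (l 538129423) (l 537863183)))) (b (a (b (l 538137615) (l 538140175)) (l 14)) (l 14)))))), by decide +kernel⟩

def k57_A00pm_213_s3 : ∃ t, chk3 f_A00pm_213_s3 t 116 507 1 = true :=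
  ⟨(a (l 4) (a (a (l 4) (l 14)) (l 14))), by decide +kernel⟩

def k58_A00pm_213_s3 : ∃ t, chk3 f_A00pm_213_s3 t 117 253 1 = true :=
  ⟨(b (a (a (a (b (b (c (l 538351887) (c (l 538458895) (l 537884943))) (l 14)) (l 14)) (l 14)) (l 14)) (l 14)) (l 14)), by decide +kernel⟩

def k59_A00pm_213_s3 : ∃ t, chk3 f_A00pm_213_s3 t 59 126 1 = true :=
  ⟨(b (b (c (c (b (b (a (l 16784328) (a (l 16785056) (a (l 16785400) (l 16785776)))) (l 14)) (l 14)) (b (b (a (l 16784472) (a (l 16785648) (a (l 16786216) (l 16786432)))) (l 14)) (l 14))) (c (c (b (b (a (l 16778352) (a (l 16784640) (a (l 16785144) (l 16785336)))) (l 14)) (l 14)) (b (b (a (l 16782992) (a (l 16783944) (a (l 16784408) (l 16784584)))) (l 14)) (l 14))) (c (b (b (a (l 16782376) (a (l 16783232) (a (l 16783648) (l 16778568)))) (l 14)) (l 14)) (b (b (a (l 16781744) (a (l 16782504) (a (l 16782864) (a (l 16783056) (l 16783024))))) (l 14)) (l 14))))) (l 14)) (l 14)), by decide +kernel⟩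

def k60_A00pm_213_s3 : ∃ t, chk3 f_A00pm_213_s3 t 15 126 1 = true :=
  ⟨(a (b (b (b (b (a (a (a (l 16775120) (l 16785296)) (a (l 16784896) (l 16784424))) (a (l 16783592) (l 16782344))) (l 14)) (l 14)) (l 14)) (l 14)) (b (b (b (b (a (a (l 16781000) (a (l 16779944) (l 16779704))) (a (a (l 16779720) (l 16779704)) (a (a (l 16779664) (l 16779624)) (c (l 16778768) (l 16780440))))) (l 14)) (l 14)) (l 14)) (l 14))), by decide +kernel⟩

def k61_A00pm_213_s3 : ∃ t, chk3 f_A00pm_213_s3 t 7 127 1 = true :=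
  ⟨(a (a (l 4) (a (a (l 4) (l 14)) (l 14))) (l 14)), by decide +kernel⟩

theorem t62_A00pm_213_s3 : ∃ t, chk3 f_A00pm_213_s3 t 232 506 1 = true := ex3_b k54_A00pm_213_s3 k55_A00pm_213_s3

theorem t63_A00pm_213_s3 : ∃ t, chk3 f_A00pm_213_s3 t 116 506 1 = true := ex3_a t62_A00pm_213_s3 k56_A00pm_213_s3

theorem t64_A00pm_213_s3 : ∃ t, chk3 f_A00pm_213_s3 t 116 253 1 = true := ex3_b t63_A00pm_213_s3 k57_A00pm_213_s3

theorem t65_A00pm_213_s3 : ∃ t, chk3 f_A00pm_213_s3 t 58 253 1 = true := ex3_a t64_A00pm_213_s3 k58_A00pm_213_s3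

theorem t66_A00pm_213_s3 : ∃ t, chk3 f_A00pm_213_s3 t 116 252 1 = true := ex3_b k51_A00pm_213_s3 k52_A00pm_213_s3

theorem t67_A00pm_213_s3 : ∃ t, chk3 f_A00pm_213_s3 t 58 252 1 = true := ex3_a t66_A00pm_213_s3 k53_A00pm_213_s3

theorem t68_A00pm_213_s3 : ∃ t, chk3 f_A00pm_213_s3 t 58 126 1 = true := ex3_b t67_A00pm_213_s3 t65_A00pm_213_s3

theorem t69_A00pm_213_s3 : ∃ t, chk3 f_A00pm_213_s3 t 29 126 1 = true := ex3_a t68_A00pm_213_s3 k59_A00pm_213_s3

theorem t70_A00pm_213_s3 : ∃ t, chk3 f_A00pm_213_s3 t 115 505 1 = true := ex3_b k48_A00pm_213_s3 k49_A00pm_213_s3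

theorem t71_A00pm_213_s3 : ∃ t, chk3 f_A00pm_213_s3 t 115 252 1 = true := ex3_b k47_A00pm_213_s3 t70_A00pm_213_s3

theorem t72_A00pm_213_s3 : ∃ t, chk3 f_A00pm_213_s3 t 57 252 1 = true := ex3_a k46_A00pm_213_s3 t71_A00pm_213_s3

theorem t73_A00pm_213_s3 : ∃ t, chk3 f_A00pm_213_s3 t 57 126 1 = true := ex3_b t72_A00pm_213_s3 k50_A00pm_213_s3

theorem t74_A00pm_213_s3 : ∃ t, chk3 f_A00pm_213_s3 t 28 126 1 = true := ex3_a k45_A00pm_213_s3 t73_A00pm_213_s3

theorem t75_A00pm_213_s3 : ∃ t, chk3 f_A00pm_213_s3 t 14 126 1 = true := ex3_a t74_A00pm_213_s3 t69_A00pm_213_s3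

theorem t76_A00pm_213_s3 : ∃ t, chk3 f_A00pm_213_s3 t 7 126 1 = true := ex3_a t75_A00pm_213_s3 k60_A00pm_213_s3

theorem t77_A00pm_213_s3 : ∃ t, chk3 f_A00pm_213_s3 t 7 63 1 = true := ex3_b t76_A00pm_213_s3 k61_A00pm_213_s3

theorem t78_A00pm_213_s3 : ∃ t, chk3 f_A00pm_213_s3 t 29 125 1 = true := ex3_a k42_A00pm_213_s3 k43_A00pm_213_s3

theorem t79_A00pm_213_s3 : ∃ t, chk3 f_A00pm_213_s3 t 29 62 1 = true := ex3_b k41_A00pm_213_s3 t78_A00pm_213_s3

theorem t80_A00pm_213_s3 : ∃ t, chk3 f_A00pm_213_s3 t 28 125 1 = true := ex3_a k39_A00pm_213_s3 k40_A00pm_213_s3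

theorem t81_A00pm_213_s3 : ∃ t, chk3 f_A00pm_213_s3 t 28 62 1 = true := ex3_b k38_A00pm_213_s3 t80_A00pm_213_s3

theorem t82_A00pm_213_s3 : ∃ t, chk3 f_A00pm_213_s3 t 14 62 1 = true := ex3_a t81_A00pm_213_s3 t79_A00pm_213_s3

theorem t83_A00pm_213_s3 : ∃ t, chk3 f_A00pm_213_s3 t 7 62 1 = true := ex3_a t82_A00pm_213_s3 k44_A00pm_213_s3

theorem t84_A00pm_213_s3 : ∃ t, chk3 f_A00pm_213_s3 t 7 31 1 = true := ex3_b t83_A00pm_213_s3 t77_A00pm_213_s3

theorem t85_A00pm_213_s3 : ∃ t, chk3 f_A00pm_213_s3 t 14 30 1 = true := ex3_b k35_A00pm_213_s3 k36_A00pm_213_s3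

theorem t86_A00pm_213_s3 : ∃ t, chk3 f_A00pm_213_s3 t 7 30 1 = true := ex3_a t85_A00pm_213_s3 k37_A00pm_213_s3

theorem t87_A00pm_213_s3 : ∃ t, chk3 f_A00pm_213_s3 t 7 15 1 = true := ex3_b t86_A00pm_213_s3 t84_A00pm_213_s3

theorem t88_A00pm_213_s3 : ∃ t, chk3 f_A00pm_213_s3 t 15 14 1 = true := ex3_b k33_A00pm_213_s3 k34_A00pm_213_s3

theorem t89_A00pm_213_s3 : ∃ t, chk3 f_A00pm_213_s3 t 7 14 1 = true := ex3_a k32_A00pm_213_s3 t88_A00pm_213_s3

theorem t90_A00pm_213_s3 : ∃ t, chk3 f_A00pm_213_s3 t 7 7 1 = true := ex3_b t89_A00pm_213_s3 t87_A00pm_213_s3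

theorem t91_A00pm_213_s3 : ∃ t, chk3 f_A00pm_213_s3 t 7 3 1 = true := ex3_b k31_A00pm_213_s3 t90_A00pm_213_s3

theorem t92_A00pm_213_s3 : ∃ t, chk3 f_A00pm_213_s3 t 26 61 1 = true := ex3_a k27_A00pm_213_s3 k28_A00pm_213_s3

theorem t93_A00pm_213_s3 : ∃ t, chk3 f_A00pm_213_s3 t 13 61 1 = true := ex3_a t92_A00pm_213_s3 k29_A00pm_213_s3

theorem t94_A00pm_213_s3 : ∃ t, chk3 f_A00pm_213_s3 t 13 30 1 = true := ex3_b k26_A00pm_213_s3 t93_A00pm_213_s3

theorem t95_A00pm_213_s3 : ∃ t, chk3 f_A00pm_213_s3 t 25 60 1 = true := ex3_b k23_A00pm_213_s3 k24_A00pm_213_s3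

theorem t96_A00pm_213_s3 : ∃ t, chk3 f_A00pm_213_s3 t 12 60 1 = true := ex3_a k22_A00pm_213_s3 t95_A00pm_213_s3

theorem t97_A00pm_213_s3 : ∃ t, chk3 f_A00pm_213_s3 t 12 30 1 = true := ex3_b t96_A00pm_213_s3 k25_A00pm_213_s3

theorem t98_A00pm_213_s3 : ∃ t, chk3 f_A00pm_213_s3 t 6 30 1 = true := ex3_a t97_A00pm_213_s3 t94_A00pm_213_s3

theorem t99_A00pm_213_s3 : ∃ t, chk3 f_A00pm_213_s3 t 6 15 1 = true := ex3_b t98_A00pm_213_s3 k30_A00pm_213_s3

theorem t100_A00pm_213_s3 : ∃ t, chk3 f_A00pm_213_s3 t 13 59 1 = true := ex3_b k20_A00pm_213_s3 k21_A00pm_213_s3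

theorem t101_A00pm_213_s3 : ∃ t, chk3 f_A00pm_213_s3 t 24 59 1 = true := ex3_c k17_A00pm_213_s3 k18_A00pm_213_s3

theorem t102_A00pm_213_s3 : ∃ t, chk3 f_A00pm_213_s3 t 12 59 1 = true := ex3_a t101_A00pm_213_s3 k19_A00pm_213_s3

theorem t103_A00pm_213_s3 : ∃ t, chk3 f_A00pm_213_s3 t 6 59 1 = true := ex3_a t102_A00pm_213_s3 t100_A00pm_213_s3

theorem t104_A00pm_213_s3 : ∃ t, chk3 f_A00pm_213_s3 t 6 58 1 = true := ex3_a k15_A00pm_213_s3 k16_A00pm_213_s3

theorem t105_A00pm_213_s3 : ∃ t, chk3 f_A00pm_213_s3 t 6 29 1 = true := ex3_b t104_A00pm_213_s3 t103_A00pm_213_s3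

theorem t106_A00pm_213_s3 : ∃ t, chk3 f_A00pm_213_s3 t 6 14 1 = true := ex3_b k14_A00pm_213_s3 t105_A00pm_213_s3

theorem t107_A00pm_213_s3 : ∃ t, chk3 f_A00pm_213_s3 t 6 7 1 = true := ex3_b t106_A00pm_213_s3 t99_A00pm_213_s3

theorem t108_A00pm_213_s3 : ∃ t, chk3 f_A00pm_213_s3 t 6 3 1 = true := ex3_b k13_A00pm_213_s3 t107_A00pm_213_s3

theorem t109_A00pm_213_s3 : ∃ t, chk3 f_A00pm_213_s3 t 3 3 1 = true := ex3_a t108_A00pm_213_s3 t91_A00pm_213_s3

theorem t110_A00pm_213_s3 : ∃ t, chk3 f_A00pm_213_s3 t 3 1 1 = true := ex3_b k12_A00pm_213_s3 t109_A00pm_213_s3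

theorem t111_A00pm_213_s3 : ∃ t, chk3 f_A00pm_213_s3 t 23 58 1 = true := ex3_c k8_A00pm_213_s3 k9_A00pm_213_s3

theorem t112_A00pm_213_s3 : ∃ t, chk3 f_A00pm_213_s3 t 11 58 1 = true := ex3_a k7_A00pm_213_s3 t111_A00pm_213_s3

theorem t113_A00pm_213_s3 : ∃ t, chk3 f_A00pm_213_s3 t 11 29 1 = true := ex3_b t112_A00pm_213_s3 k10_A00pm_213_s3

theorem t114_A00pm_213_s3 : ∃ t, chk3 f_A00pm_213_s3 t 11 14 1 = true := ex3_b k6_A00pm_213_s3 t113_A00pm_213_s3

theorem t115_A00pm_213_s3 : ∃ t, chk3 f_A00pm_213_s3 t 5 14 1 = true := ex3_a k5_A00pm_213_s3 t114_A00pm_213_s3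

theorem t116_A00pm_213_s3 : ∃ t, chk3 f_A00pm_213_s3 t 5 7 1 = true := ex3_b t115_A00pm_213_s3 k11_A00pm_213_s3

theorem t117_A00pm_213_s3 : ∃ t, chk3 f_A00pm_213_s3 t 5 12 1 = true := ex3_b k2_A00pm_213_s3 k3_A00pm_213_s3

theorem t118_A00pm_213_s3 : ∃ t, chk3 f_A00pm_213_s3 t 5 6 1 = true := ex3_b t117_A00pm_213_s3 k4_A00pm_213_s3

theorem t119_A00pm_213_s3 : ∃ t, chk3 f_A00pm_213_s3 t 5 3 1 = true := ex3_b t118_A00pm_213_s3 t116_A00pm_213_s3

theorem t120_A00pm_213_s3 : ∃ t, chk3 f_A00pm_213_s3 t 2 3 1 = true := ex3_a k1_A00pm_213_s3 t119_A00pm_213_s3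

theorem t121_A00pm_213_s3 : ∃ t, chk3 f_A00pm_213_s3 t 2 1 1 = true := ex3_b k0_A00pm_213_s3 t120_A00pm_213_s3

theorem t122_A00pm_213_s3 : ∃ t, chk3 f_A00pm_213_s3 t 1 1 1 = true := ex3_a t121_A00pm_213_s3 t110_A00pm_213_s3

theorem c_A00pm_213_s3 : CertF 0 536870912 536870912 536870912 780900216 37827925 true true false .pnn 2 1 3
    ndB0q2 ndB0q1 pcB3 cut_A00pm_213_s3 xt_A00pm_213_s3 :=
  certF1 (fam := true) (s1 := true) (s2 := false) (a := 2) (b := 1) (c := 3) (cn := .pnn) (n1 := ndB0q2) (n2 := ndB0q1) (pc := pcB3) (cut := cut_A00pm_213_s3) (xt := xt_A00pm_213_s3) (P1 := 0) (W1 := 536870912) (P2 := 536870912) (W2 := 536870912) (P3 := 780900216) (W3 := 37827925)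
    rfl (fun _ => rfl) t122_A00pm_213_s3

theorem s_A00pm_213_s3 {κ x : ℝ} (hκ : κ * h0 = ken x) (hx : ((780900216 : ℕ) : ℝ) / S ≤ x)
    (hx' : x ≤ (((780900216 : ℕ) : ℝ) + (37827925 : ℕ)) / S)
    (H : CutA (VFD κ) PP tK tL pcB (Cut.of [[⟨0, 1, 0, 67108864⟩, ⟨1, 1, 0, 67108864⟩, ⟨2, 2, 0, 16777216⟩], [⟨0, 1, 0, 33554432⟩, ⟨1, 0, 1, 26214400⟩, ⟨2, 1, 1, 26214400⟩]]) 2 1 3 0 0 (sgb true) (sgb false) x) :
    AltA (VFD κ) PP tK tL pcB [⟨4, 0, 0, 2845415833⟩] 2 1 3 0 0 (sgb true) (sgb false) x :=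
  strip_altAD (m := 2845415833) false rfl hκ (SH.κ0 hκ (SH.hx1 hx).le (SH.hx2 hx').le) (SH.hx1 hx).le (SH.hx2 hx') (covB02).cov (covB01).cov hx hx' c_A00pm_213_s3 H ((okx hx hx').extA (T := tt) (sideB hx hx') hκ rfl rfl (.O 2 true) (.O 1 false) (Or.inr rfl))

noncomputable def cut_A00mm_001_s1 : Cut := Cut.of [[⟨4, 0, 0, 1449551462⟩]]

noncomputable def f_A00mm_001_s1 : ℕ → ℕ → ℕ → ℕ → Bool := onCell 0 536870912 0 536870912 780900216 37827925
    (rowF 0 true false false .up 0 0 1 (qsf 0 536870912 0 536870912 1) ndB0q0 ndB0q0 pcB1 cut_A00mm_001_s1 Ext.none)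

def k0_A00mm_001_s1 : ∃ t, chk3 f_A00mm_001_s1 t 1 1 1 = true :=
  ⟨(l 4), by decide +kernel⟩

theorem c_A00mm_001_s1 : CertF 0 536870912 0 536870912 780900216 37827925 true false false .up 0 0 1
    ndB0q0 ndB0q0 pcB1 cut_A00mm_001_s1 Ext.none :=
  certF0 (fam := true) (s1 := false) (s2 := false) (a := 0) (b := 0) (c := 1) (cn := .up) (n1 := ndB0q0) (n2 := ndB0q0) (pc := pcB1) (cut := cut_A00mm_001_s1) (xt := Ext.none) (P1 := 0) (W1 := 536870912) (P2 := 0) (W2 := 536870912) (P3 := 780900216) (W3 := 37827925)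
    rfl k0_A00mm_001_s1

theorem s_A00mm_001_s1 {κ x : ℝ} (hκ : κ * h0 = ken x) (hx : ((780900216 : ℕ) : ℝ) / S ≤ x)
    (hx' : x ≤ (((780900216 : ℕ) : ℝ) + (37827925 : ℕ)) / S) :
    AltA (VFD κ) PP tK tL pcB [⟨3, 0, 0, 1449551462⟩] 0 0 1 0 0 (sgb false) (sgb false) x :=
  strip_altAD (m := 1449551462) true rfl hκ (SH.κ0 hκ (SH.hx1 hx).le (SH.hx2 hx').le) (SH.hx1 hx).le (SH.hx2 hx') (covB00).cov (covB00).cov hx hx' c_A00mm_001_s1 cutA_nil (noExt_A)

noncomputable def cut_A00mm_001_s3 : Cut := Cut.of [[⟨3, 0, 0, 2845415833⟩]]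

noncomputable def f_A00mm_001_s3 : ℕ → ℕ → ℕ → ℕ → Bool := onCell 0 536870912 0 536870912 780900216 37827925
    (rowF 0 true false false .up 0 0 1 (qsf 0 536870912 0 536870912 1) ndB0q0 ndB0q0 pcB1 cut_A00mm_001_s3 Ext.none)

def k0_A00mm_001_s3 : ∃ t, chk3 f_A00mm_001_s3 t 1 1 1 = true :=
  ⟨(l 4), by decide +kernel⟩

theorem c_A00mm_001_s3 : CertF 0 536870912 0 536870912 780900216 37827925 true false false .up 0 0 1
    ndB0q0 ndB0q0 pcB1 cut_A00mm_001_s3 Ext.none :=
  certF0 (fam := true) (s1 := false) (s2 := false) (a := 0) (b := 0) (c := 1) (cn := .up) (n1 := ndB0q0) (n2 := ndB0q0) (pc := pcB1) (cut := cut_A00mm_001_s3) (xt := Ext.none) (P1 := 0) (W1 := 536870912) (P2 := 0) (W2 := 536870912) (P3 := 780900216) (W3 := 37827925)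
    rfl k0_A00mm_001_s3

theorem s_A00mm_001_s3 {κ x : ℝ} (hκ : κ * h0 = ken x) (hx : ((780900216 : ℕ) : ℝ) / S ≤ x)
    (hx' : x ≤ (((780900216 : ℕ) : ℝ) + (37827925 : ℕ)) / S) :
    AltA (VFD κ) PP tK tL pcB [⟨4, 0, 0, 2845415833⟩] 0 0 1 0 0 (sgb false) (sgb false) x :=
  strip_altAD (m := 2845415833) false rfl hκ (SH.κ0 hκ (SH.hx1 hx).le (SH.hx2 hx').le) (SH.hx1 hx).le (SH.hx2 hx') (covB00).cov (covB00).cov hx hx' c_A00mm_001_s3 cutA_nil (noExt_A)

noncomputable def cut_A00mm_011_s1 : Cut := Cut.of [[⟨4, 0, 0, 1449551462⟩]]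

noncomputable def f_A00mm_011_s1 : ℕ → ℕ → ℕ → ℕ → Bool := onCell 0 536870912 536870912 536870912 780900216 37827925
    (rowF 0 true false false .pnn 0 1 1 (qsf 0 536870912 536870912 536870912 1) ndB0q0 ndB0q1 pcB1 cut_A00mm_011_s1 Ext.none)

def k0_A00mm_011_s1 : ∃ t, chk3 f_A00mm_011_s1 t 1 1 1 = true :=
  ⟨(l 6), by decide +kernel⟩

theorem c_A00mm_011_s1 : CertF 0 536870912 536870912 536870912 780900216 37827925 true false false .pnn 0 1 1
    ndB0q0 ndB0q1 pcB1 cut_A00mm_011_s1 Ext.none :=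
  certF0 (fam := true) (s1 := false) (s2 := false) (a := 0) (b := 1) (c := 1) (cn := .pnn) (n1 := ndB0q0) (n2 := ndB0q1) (pc := pcB1) (cut := cut_A00mm_011_s1) (xt := Ext.none) (P1 := 0) (W1 := 536870912) (P2 := 536870912) (W2 := 536870912) (P3 := 780900216) (W3 := 37827925)
    rfl k0_A00mm_011_s1

theorem s_A00mm_011_s1 {κ x : ℝ} (hκ : κ * h0 = ken x) (hx : ((780900216 : ℕ) : ℝ) / S ≤ x)
    (hx' : x ≤ (((780900216 : ℕ) : ℝ) + (37827925 : ℕ)) / S) :
    AltA (VFD κ) PP tK tL pcB [⟨3, 0, 0, 1449551462⟩] 0 1 1 0 0 (sgb false) (sgb false) x :=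
  strip_altAD (m := 1449551462) true rfl hκ (SH.κ0 hκ (SH.hx1 hx).le (SH.hx2 hx').le) (SH.hx1 hx).le (SH.hx2 hx') (covB00).cov (covB01).cov hx hx' c_A00mm_011_s1 cutA_nil (noExt_A)

noncomputable def cut_A00mm_011_s3 : Cut := Cut.of [[⟨3, 0, 0, 2845415833⟩]]

noncomputable def f_A00mm_011_s3 : ℕ → ℕ → ℕ → ℕ → Bool := onCell 0 536870912 536870912 536870912 780900216 37827925
    (rowF 0 true false false .pnn 0 1 1 (qsf 0 536870912 536870912 536870912 1) ndB0q0 ndB0q1 pcB1 cut_A00mm_011_s3 Ext.none)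

def k0_A00mm_011_s3 : ∃ t, chk3 f_A00mm_011_s3 t 1 1 1 = true :=
  ⟨(b (l 4) (l 5)), by decide +kernel⟩

theorem c_A00mm_011_s3 : CertF 0 536870912 536870912 536870912 780900216 37827925 true false false .pnn 0 1 1
    ndB0q0 ndB0q1 pcB1 cut_A00mm_011_s3 Ext.none :=
  certF0 (fam := true) (s1 := false) (s2 := false) (a := 0) (b := 1) (c := 1) (cn := .pnn) (n1 := ndB0q0) (n2 := ndB0q1) (pc := pcB1) (cut := cut_A00mm_011_s3) (xt := Ext.none) (P1 := 0) (W1 := 536870912) (P2 := 536870912) (W2 := 536870912) (P3 := 780900216) (W3 := 37827925)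
    rfl k0_A00mm_011_s3

theorem s_A00mm_011_s3 {κ x : ℝ} (hκ : κ * h0 = ken x) (hx : ((780900216 : ℕ) : ℝ) / S ≤ x)
    (hx' : x ≤ (((780900216 : ℕ) : ℝ) + (37827925 : ℕ)) / S) :
    AltA (VFD κ) PP tK tL pcB [⟨4, 0, 0, 2845415833⟩] 0 1 1 0 0 (sgb false) (sgb false) x :=
  strip_altAD (m := 2845415833) false rfl hκ (SH.κ0 hκ (SH.hx1 hx).le (SH.hx2 hx').le) (SH.hx1 hx).le (SH.hx2 hx') (covB00).cov (covB01).cov hx hx' c_A00mm_011_s3 cutA_nil (noExt_A)

noncomputable def cut_A00mm_012_s1 : Cut := Cut.of [[⟨4, 0, 0, 1449551462⟩]]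

noncomputable def f_A00mm_012_s1 : ℕ → ℕ → ℕ → ℕ → Bool := onCell 0 536870912 536870912 536870912 780900216 37827925
    (rowF 0 true false false .pnp 0 1 2 (qsf 0 536870912 536870912 536870912 2) ndB0q0 ndB0q1 pcB2 cut_A00mm_012_s1 Ext.none)

def k0_A00mm_012_s1 : ∃ t, chk3 f_A00mm_012_s1 t 1 1 1 = true :=
  ⟨(l 6), by decide +kernel⟩

theorem c_A00mm_012_s1 : CertF 0 536870912 536870912 536870912 780900216 37827925 true false false .pnp 0 1 2
    ndB0q0 ndB0q1 pcB2 cut_A00mm_012_s1 Ext.none :=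
  certF0 (fam := true) (s1 := false) (s2 := false) (a := 0) (b := 1) (c := 2) (cn := .pnp) (n1 := ndB0q0) (n2 := ndB0q1) (pc := pcB2) (cut := cut_A00mm_012_s1) (xt := Ext.none) (P1 := 0) (W1 := 536870912) (P2 := 536870912) (W2 := 536870912) (P3 := 780900216) (W3 := 37827925)
    rfl k0_A00mm_012_s1

theorem s_A00mm_012_s1 {κ x : ℝ} (hκ : κ * h0 = ken x) (hx : ((780900216 : ℕ) : ℝ) / S ≤ x)
    (hx' : x ≤ (((780900216 : ℕ) : ℝ) + (37827925 : ℕ)) / S) :
    AltA (VFD κ) PP tK tL pcB [⟨3, 0, 0, 1449551462⟩] 0 1 2 0 0 (sgb false) (sgb false) x :=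
  strip_altAD (m := 1449551462) true rfl hκ (SH.κ0 hκ (SH.hx1 hx).le (SH.hx2 hx').le) (SH.hx1 hx).le (SH.hx2 hx') (covB00).cov (covB01).cov hx hx' c_A00mm_012_s1 cutA_nil (noExt_A)

noncomputable def cut_A00mm_012_s3 : Cut := Cut.of [[⟨3, 0, 0, 2845415833⟩]]

noncomputable def f_A00mm_012_s3 : ℕ → ℕ → ℕ → ℕ → Bool := onCell 0 536870912 536870912 536870912 780900216 37827925
    (rowF 0 true false false .pnp 0 1 2 (qsf 0 536870912 536870912 536870912 2) ndB0q0 ndB0q1 pcB2 cut_A00mm_012_s3 Ext.none)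

def k0_A00mm_012_s3 : ∃ t, chk3 f_A00mm_012_s3 t 1 1 1 = true :=
  ⟨(b (l 4) (l 5)), by decide +kernel⟩

theorem c_A00mm_012_s3 : CertF 0 536870912 536870912 536870912 780900216 37827925 true false false .pnp 0 1 2
    ndB0q0 ndB0q1 pcB2 cut_A00mm_012_s3 Ext.none :=
  certF0 (fam := true) (s1 := false) (s2 := false) (a := 0) (b := 1) (c := 2) (cn := .pnp) (n1 := ndB0q0) (n2 := ndB0q1) (pc := pcB2) (cut := cut_A00mm_012_s3) (xt := Ext.none) (P1 := 0) (W1 := 536870912) (P2 := 536870912) (W2 := 536870912) (P3 := 780900216) (W3 := 37827925)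
    rfl k0_A00mm_012_s3

theorem s_A00mm_012_s3 {κ x : ℝ} (hκ : κ * h0 = ken x) (hx : ((780900216 : ℕ) : ℝ) / S ≤ x)
    (hx' : x ≤ (((780900216 : ℕ) : ℝ) + (37827925 : ℕ)) / S) :
    AltA (VFD κ) PP tK tL pcB [⟨4, 0, 0, 2845415833⟩] 0 1 2 0 0 (sgb false) (sgb false) x :=
  strip_altAD (m := 2845415833) false rfl hκ (SH.κ0 hκ (SH.hx1 hx).le (SH.hx2 hx').le) (SH.hx1 hx).le (SH.hx2 hx') (covB00).cov (covB01).cov hx hx' c_A00mm_012_s3 cutA_nil (noExt_A)

noncomputable def cut_A00mm_022_s1 : Cut := Cut.of [[⟨4, 0, 0, 1449551462⟩]]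

noncomputable def f_A00mm_022_s1 : ℕ → ℕ → ℕ → ℕ → Bool := onCell 0 536870912 0 536870912 780900216 37827925
    (rowF 0 true false false .pp 0 2 2 (qsf 0 536870912 0 536870912 2) ndB0q0 ndB0q2 pcB2 cut_A00mm_022_s1 Ext.none)

def k0_A00mm_022_s1 : ∃ t, chk3 f_A00mm_022_s1 t 1 1 1 = true :=
  ⟨(l 5), by decide +kernel⟩

theorem c_A00mm_022_s1 : CertF 0 536870912 0 536870912 780900216 37827925 true false false .pp 0 2 2
    ndB0q0 ndB0q2 pcB2 cut_A00mm_022_s1 Ext.none :=
  certF0 (fam := true) (s1 := false) (s2 := false) (a := 0) (b := 2) (c := 2) (cn := .pp) (n1 := ndB0q0) (n2 := ndB0q2) (pc := pcB2) (cut := cut_A00mm_022_s1) (xt := Ext.none) (P1 := 0) (W1 := 536870912) (P2 := 0) (W2 := 536870912) (P3 := 780900216) (W3 := 37827925)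
    rfl k0_A00mm_022_s1

theorem s_A00mm_022_s1 {κ x : ℝ} (hκ : κ * h0 = ken x) (hx : ((780900216 : ℕ) : ℝ) / S ≤ x)
    (hx' : x ≤ (((780900216 : ℕ) : ℝ) + (37827925 : ℕ)) / S) :
    AltA (VFD κ) PP tK tL pcB [⟨3, 0, 0, 1449551462⟩] 0 2 2 0 0 (sgb false) (sgb false) x :=
  strip_altAD (m := 1449551462) true rfl hκ (SH.κ0 hκ (SH.hx1 hx).le (SH.hx2 hx').le) (SH.hx1 hx).le (SH.hx2 hx') (covB00).cov (covB02).cov hx hx' c_A00mm_022_s1 cutA_nil (noExt_A)

noncomputable def cut_A00mm_022_s3 : Cut := Cut.of [[⟨3, 0, 0, 2845415833⟩]]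

noncomputable def f_A00mm_022_s3 : ℕ → ℕ → ℕ → ℕ → Bool := onCell 0 536870912 0 536870912 780900216 37827925
    (rowF 0 true false false .pp 0 2 2 (qsf 0 536870912 0 536870912 2) ndB0q0 ndB0q2 pcB2 cut_A00mm_022_s3 Ext.none)

def k0_A00mm_022_s3 : ∃ t, chk3 f_A00mm_022_s3 t 1 1 1 = true :=
  ⟨(l 5), by decide +kernel⟩

theorem c_A00mm_022_s3 : CertF 0 536870912 0 536870912 780900216 37827925 true false false .pp 0 2 2
    ndB0q0 ndB0q2 pcB2 cut_A00mm_022_s3 Ext.none :=
  certF0 (fam := true) (s1 := false) (s2 := false) (a := 0) (b := 2) (c := 2) (cn := .pp) (n1 := ndB0q0) (n2 := ndB0q2) (pc := pcB2) (cut := cut_A00mm_022_s3) (xt := Ext.none) (P1 := 0) (W1 := 536870912) (P2 := 0) (W2 := 536870912) (P3 := 780900216) (W3 := 37827925)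
    rfl k0_A00mm_022_s3

theorem s_A00mm_022_s3 {κ x : ℝ} (hκ : κ * h0 = ken x) (hx : ((780900216 : ℕ) : ℝ) / S ≤ x)
    (hx' : x ≤ (((780900216 : ℕ) : ℝ) + (37827925 : ℕ)) / S) :
    AltA (VFD κ) PP tK tL pcB [⟨4, 0, 0, 2845415833⟩] 0 2 2 0 0 (sgb false) (sgb false) x :=
  strip_altAD (m := 2845415833) false rfl hκ (SH.κ0 hκ (SH.hx1 hx).le (SH.hx2 hx').le) (SH.hx1 hx).le (SH.hx2 hx') (covB00).cov (covB02).cov hx hx' c_A00mm_022_s3 cutA_nil (noExt_A)

noncomputable def cut_A00mm_023_s1 : Cut := Cut.of [[⟨4, 0, 0, 1449551462⟩]]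

noncomputable def f_A00mm_023_s1 : ℕ → ℕ → ℕ → ℕ → Bool := onCell 0 536870912 0 536870912 780900216 37827925
    (rowF 0 true false false .up 0 2 3 (qsf 0 536870912 0 536870912 3) ndB0q0 ndB0q2 pcB3 cut_A00mm_023_s1 Ext.none)

def k0_A00mm_023_s1 : ∃ t, chk3 f_A00mm_023_s1 t 1 1 1 = true :=
  ⟨(l 5), by decide +kernel⟩

theorem c_A00mm_023_s1 : CertF 0 536870912 0 536870912 780900216 37827925 true false false .up 0 2 3
    ndB0q0 ndB0q2 pcB3 cut_A00mm_023_s1 Ext.none :=
  certF0 (fam := true) (s1 := false) (s2 := false) (a := 0) (b := 2) (c := 3) (cn := .up) (n1 := ndB0q0) (n2 := ndB0q2) (pc := pcB3) (cut := cut_A00mm_023_s1) (xt := Ext.none) (P1 := 0) (W1 := 536870912) (P2 := 0) (W2 := 536870912) (P3 := 780900216) (W3 := 37827925)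
    rfl k0_A00mm_023_s1

theorem s_A00mm_023_s1 {κ x : ℝ} (hκ : κ * h0 = ken x) (hx : ((780900216 : ℕ) : ℝ) / S ≤ x)
    (hx' : x ≤ (((780900216 : ℕ) : ℝ) + (37827925 : ℕ)) / S) :
    AltA (VFD κ) PP tK tL pcB [⟨3, 0, 0, 1449551462⟩] 0 2 3 0 0 (sgb false) (sgb false) x :=
  strip_altAD (m := 1449551462) true rfl hκ (SH.κ0 hκ (SH.hx1 hx).le (SH.hx2 hx').le) (SH.hx1 hx).le (SH.hx2 hx') (covB00).cov (covB02).cov hx hx' c_A00mm_023_s1 cutA_nil (noExt_A)

noncomputable def cut_A00mm_023_s3 : Cut := Cut.of [[⟨3, 0, 0, 2845415833⟩]]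

noncomputable def f_A00mm_023_s3 : ℕ → ℕ → ℕ → ℕ → Bool := onCell 0 536870912 0 536870912 780900216 37827925
    (rowF 0 true false false .up 0 2 3 (qsf 0 536870912 0 536870912 3) ndB0q0 ndB0q2 pcB3 cut_A00mm_023_s3 Ext.none)

def k0_A00mm_023_s3 : ∃ t, chk3 f_A00mm_023_s3 t 1 1 1 = true :=
  ⟨(l 5), by decide +kernel⟩

theorem c_A00mm_023_s3 : CertF 0 536870912 0 536870912 780900216 37827925 true false false .up 0 2 3
    ndB0q0 ndB0q2 pcB3 cut_A00mm_023_s3 Ext.none :=
  certF0 (fam := true) (s1 := false) (s2 := false) (a := 0) (b := 2) (c := 3) (cn := .up) (n1 := ndB0q0) (n2 := ndB0q2) (pc := pcB3) (cut := cut_A00mm_023_s3) (xt := Ext.none) (P1 := 0) (W1 := 536870912) (P2 := 0) (W2 := 536870912) (P3 := 780900216) (W3 := 37827925)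
    rfl k0_A00mm_023_s3

theorem s_A00mm_023_s3 {κ x : ℝ} (hκ : κ * h0 = ken x) (hx : ((780900216 : ℕ) : ℝ) / S ≤ x)
    (hx' : x ≤ (((780900216 : ℕ) : ℝ) + (37827925 : ℕ)) / S) :
    AltA (VFD κ) PP tK tL pcB [⟨4, 0, 0, 2845415833⟩] 0 2 3 0 0 (sgb false) (sgb false) x :=
  strip_altAD (m := 2845415833) false rfl hκ (SH.κ0 hκ (SH.hx1 hx).le (SH.hx2 hx').le) (SH.hx1 hx).le (SH.hx2 hx') (covB00).cov (covB02).cov hx hx' c_A00mm_023_s3 cutA_nil (noExt_A)

noncomputable def cut_A00mm_101_s1 : Cut := Cut.of [[⟨4, 0, 0, 1449551462⟩], [⟨0, 1, 0, 67108864⟩, ⟨1, 0, 0, 67108864⟩, ⟨2, 1, 0, 67108864⟩]]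

noncomputable def f_A00mm_101_s1 : ℕ → ℕ → ℕ → ℕ → Bool := onCell 536870912 536870912 0 536870912 780900216 37827925
    (rowF 0 true false false .npn 1 0 1 (qsf 536870912 536870912 0 536870912 1) ndB0q1 ndB0q0 pcB1 cut_A00mm_101_s1 Ext.none)

def k0_A00mm_101_s1 : ∃ t, chk3 f_A00mm_101_s1 t 1 1 1 = true :=
  ⟨(l 6), by decide +kernel⟩

theorem c_A00mm_101_s1 : CertF 536870912 536870912 0 536870912 780900216 37827925 true false false .npn 1 0 1
    ndB0q1 ndB0q0 pcB1 cut_A00mm_101_s1 Ext.none :=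
  certF0 (fam := true) (s1 := false) (s2 := false) (a := 1) (b := 0) (c := 1) (cn := .npn) (n1 := ndB0q1) (n2 := ndB0q0) (pc := pcB1) (cut := cut_A00mm_101_s1) (xt := Ext.none) (P1 := 536870912) (W1 := 536870912) (P2 := 0) (W2 := 536870912) (P3 := 780900216) (W3 := 37827925)
    rfl k0_A00mm_101_s1

theorem s_A00mm_101_s1 {κ x : ℝ} (hκ : κ * h0 = ken x) (hx : ((780900216 : ℕ) : ℝ) / S ≤ x)
    (hx' : x ≤ (((780900216 : ℕ) : ℝ) + (37827925 : ℕ)) / S)
    (H : CutA (VFD κ) PP tK tL pcB (Cut.of [[⟨0, 1, 0, 67108864⟩, ⟨1, 0, 0, 67108864⟩, ⟨2, 1, 0, 67108864⟩]]) 1 0 1 0 0 (sgb false) (sgb false) x) :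
    AltA (VFD κ) PP tK tL pcB [⟨3, 0, 0, 1449551462⟩] 1 0 1 0 0 (sgb false) (sgb false) x :=
  strip_altAD (m := 1449551462) true rfl hκ (SH.κ0 hκ (SH.hx1 hx).le (SH.hx2 hx').le) (SH.hx1 hx).le (SH.hx2 hx') (covB01).cov (covB00).cov hx hx' c_A00mm_101_s1 H (noExt_A)

noncomputable def cut_A00mm_101_s3 : Cut := Cut.of [[⟨3, 0, 0, 2845415833⟩], [⟨0, 1, 0, 67108864⟩, ⟨1, 0, 0, 67108864⟩, ⟨2, 1, 0, 67108864⟩]]

noncomputable def f_A00mm_101_s3 : ℕ → ℕ → ℕ → ℕ → Bool := onCell 536870912 536870912 0 536870912 780900216 37827925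
    (rowF 0 true false false .npn 1 0 1 (qsf 536870912 536870912 0 536870912 1) ndB0q1 ndB0q0 pcB1 cut_A00mm_101_s3 Ext.none)

def k0_A00mm_101_s3 : ∃ t, chk3 f_A00mm_101_s3 t 1 1 1 = true :=
  ⟨(a (l 4) (b (a (l 4) (b (a (l 4) (b (a (l 4) (b (l 14) (l 4))) (l 4))) (l 4))) (l 4))), by decide +kernel⟩

theorem c_A00mm_101_s3 : CertF 536870912 536870912 0 536870912 780900216 37827925 true false false .npn 1 0 1
    ndB0q1 ndB0q0 pcB1 cut_A00mm_101_s3 Ext.none :=
  certF0 (fam := true) (s1 := false) (s2 := false) (a := 1) (b := 0) (c := 1) (cn := .npn) (n1 := ndB0q1) (n2 := ndB0q0) (pc := pcB1) (cut := cut_A00mm_101_s3) (xt := Ext.none) (P1 := 536870912) (W1 := 536870912) (P2 := 0) (W2 := 536870912) (P3 := 780900216) (W3 := 37827925)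
    rfl k0_A00mm_101_s3

theorem s_A00mm_101_s3 {κ x : ℝ} (hκ : κ * h0 = ken x) (hx : ((780900216 : ℕ) : ℝ) / S ≤ x)
    (hx' : x ≤ (((780900216 : ℕ) : ℝ) + (37827925 : ℕ)) / S)
    (H : CutA (VFD κ) PP tK tL pcB (Cut.of [[⟨0, 1, 0, 67108864⟩, ⟨1, 0, 0, 67108864⟩, ⟨2, 1, 0, 67108864⟩]]) 1 0 1 0 0 (sgb false) (sgb false) x) :
    AltA (VFD κ) PP tK tL pcB [⟨4, 0, 0, 2845415833⟩] 1 0 1 0 0 (sgb false) (sgb false) x :=
  strip_altAD (m := 2845415833) false rfl hκ (SH.κ0 hκ (SH.hx1 hx).le (SH.hx2 hx').le) (SH.hx1 hx).le (SH.hx2 hx') (covB01).cov (covB00).cov hx hx' c_A00mm_101_s3 H (noExt_A)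

noncomputable def cut_A00mm_102_s1 : Cut := Cut.of [[⟨4, 0, 0, 1449551462⟩], [⟨0, 1, 0, 67108864⟩, ⟨1, 0, 0, 67108864⟩, ⟨2, 1, 0, 67108864⟩]]

noncomputable def f_A00mm_102_s1 : ℕ → ℕ → ℕ → ℕ → Bool := onCell 536870912 536870912 0 536870912 780900216 37827925
    (rowF 0 true false false .npp 1 0 2 (qsf 536870912 536870912 0 536870912 2) ndB0q1 ndB0q0 pcB2 cut_A00mm_102_s1 Ext.none)

def k0_A00mm_102_s1 : ∃ t, chk3 f_A00mm_102_s1 t 1 1 1 = true :=
  ⟨(l 6), by decide +kernel⟩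

theorem c_A00mm_102_s1 : CertF 536870912 536870912 0 536870912 780900216 37827925 true false false .npp 1 0 2
    ndB0q1 ndB0q0 pcB2 cut_A00mm_102_s1 Ext.none :=
  certF0 (fam := true) (s1 := false) (s2 := false) (a := 1) (b := 0) (c := 2) (cn := .npp) (n1 := ndB0q1) (n2 := ndB0q0) (pc := pcB2) (cut := cut_A00mm_102_s1) (xt := Ext.none) (P1 := 536870912) (W1 := 536870912) (P2 := 0) (W2 := 536870912) (P3 := 780900216) (W3 := 37827925)
    rfl k0_A00mm_102_s1

theorem s_A00mm_102_s1 {κ x : ℝ} (hκ : κ * h0 = ken x) (hx : ((780900216 : ℕ) : ℝ) / S ≤ x)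
    (hx' : x ≤ (((780900216 : ℕ) : ℝ) + (37827925 : ℕ)) / S)
    (H : CutA (VFD κ) PP tK tL pcB (Cut.of [[⟨0, 1, 0, 67108864⟩, ⟨1, 0, 0, 67108864⟩, ⟨2, 1, 0, 67108864⟩]]) 1 0 2 0 0 (sgb false) (sgb false) x) :
    AltA (VFD κ) PP tK tL pcB [⟨3, 0, 0, 1449551462⟩] 1 0 2 0 0 (sgb false) (sgb false) x :=
  strip_altAD (m := 1449551462) true rfl hκ (SH.κ0 hκ (SH.hx1 hx).le (SH.hx2 hx').le) (SH.hx1 hx).le (SH.hx2 hx') (covB01).cov (covB00).cov hx hx' c_A00mm_102_s1 H (noExt_A)

noncomputable def cut_A00mm_102_s3 : Cut := Cut.of [[⟨3, 0, 0, 2845415833⟩], [⟨0, 1, 0, 67108864⟩, ⟨1, 0, 0, 67108864⟩, ⟨2, 1, 0, 67108864⟩]]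

noncomputable def f_A00mm_102_s3 : ℕ → ℕ → ℕ → ℕ → Bool := onCell 536870912 536870912 0 536870912 780900216 37827925
    (rowF 0 true false false .npp 1 0 2 (qsf 536870912 536870912 0 536870912 2) ndB0q1 ndB0q0 pcB2 cut_A00mm_102_s3 Ext.none)

def k0_A00mm_102_s3 : ∃ t, chk3 f_A00mm_102_s3 t 1 1 1 = true :=
  ⟨(a (l 4) (b (a (l 4) (b (a (l 4) (a (l 4) (b (b (l 14) (l 4)) (l 4)))) (l 4))) (l 4))), by decide +kernel⟩

theorem c_A00mm_102_s3 : CertF 536870912 536870912 0 536870912 780900216 37827925 true false false .npp 1 0 2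
    ndB0q1 ndB0q0 pcB2 cut_A00mm_102_s3 Ext.none :=
  certF0 (fam := true) (s1 := false) (s2 := false) (a := 1) (b := 0) (c := 2) (cn := .npp) (n1 := ndB0q1) (n2 := ndB0q0) (pc := pcB2) (cut := cut_A00mm_102_s3) (xt := Ext.none) (P1 := 536870912) (W1 := 536870912) (P2 := 0) (W2 := 536870912) (P3 := 780900216) (W3 := 37827925)
    rfl k0_A00mm_102_s3

theorem s_A00mm_102_s3 {κ x : ℝ} (hκ : κ * h0 = ken x) (hx : ((780900216 : ℕ) : ℝ) / S ≤ x)
    (hx' : x ≤ (((780900216 : ℕ) : ℝ) + (37827925 : ℕ)) / S)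
    (H : CutA (VFD κ) PP tK tL pcB (Cut.of [[⟨0, 1, 0, 67108864⟩, ⟨1, 0, 0, 67108864⟩, ⟨2, 1, 0, 67108864⟩]]) 1 0 2 0 0 (sgb false) (sgb false) x) :
    AltA (VFD κ) PP tK tL pcB [⟨4, 0, 0, 2845415833⟩] 1 0 2 0 0 (sgb false) (sgb false) x :=
  strip_altAD (m := 2845415833) false rfl hκ (SH.κ0 hκ (SH.hx1 hx).le (SH.hx2 hx').le) (SH.hx1 hx).le (SH.hx2 hx') (covB01).cov (covB00).cov hx hx' c_A00mm_102_s3 H (noExt_A)

noncomputable def cut_A00mm_112_s1 : Cut := Cut.of [[⟨4, 0, 0, 1449551462⟩]]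

noncomputable def f_A00mm_112_s1 : ℕ → ℕ → ℕ → ℕ → Bool := onCell 536870912 536870912 536870912 536870912 780900216 37827925
    (rowF 0 true false false .dn 1 1 2 (qsf 536870912 536870912 536870912 536870912 2) ndB0q1 ndB0q1 pcB2 cut_A00mm_112_s1 Ext.none)

def k0_A00mm_112_s1 : ∃ t, chk3 f_A00mm_112_s1 t 1 1 1 = true :=
  ⟨(l 4), by decide +kernel⟩

theorem c_A00mm_112_s1 : CertF 536870912 536870912 536870912 536870912 780900216 37827925 true false false .dn 1 1 2
    ndB0q1 ndB0q1 pcB2 cut_A00mm_112_s1 Ext.none :=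
  certF0 (fam := true) (s1 := false) (s2 := false) (a := 1) (b := 1) (c := 2) (cn := .dn) (n1 := ndB0q1) (n2 := ndB0q1) (pc := pcB2) (cut := cut_A00mm_112_s1) (xt := Ext.none) (P1 := 536870912) (W1 := 536870912) (P2 := 536870912) (W2 := 536870912) (P3 := 780900216) (W3 := 37827925)
    rfl k0_A00mm_112_s1

theorem s_A00mm_112_s1 {κ x : ℝ} (hκ : κ * h0 = ken x) (hx : ((780900216 : ℕ) : ℝ) / S ≤ x)
    (hx' : x ≤ (((780900216 : ℕ) : ℝ) + (37827925 : ℕ)) / S) :
    AltA (VFD κ) PP tK tL pcB [⟨3, 0, 0, 1449551462⟩] 1 1 2 0 0 (sgb false) (sgb false) x :=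
  strip_altAD (m := 1449551462) true rfl hκ (SH.κ0 hκ (SH.hx1 hx).le (SH.hx2 hx').le) (SH.hx1 hx).le (SH.hx2 hx') (covB01).cov (covB01).cov hx hx' c_A00mm_112_s1 cutA_nil (noExt_A)

noncomputable def cut_A00mm_112_s3 : Cut := Cut.of [[⟨3, 0, 0, 2845415833⟩]]

noncomputable def f_A00mm_112_s3 : ℕ → ℕ → ℕ → ℕ → Bool := onCell 536870912 536870912 536870912 536870912 780900216 37827925
    (rowF 0 true false false .dn 1 1 2 (qsf 536870912 536870912 536870912 536870912 2) ndB0q1 ndB0q1 pcB2 cut_A00mm_112_s3 Ext.none)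

def k0_A00mm_112_s3 : ∃ t, chk3 f_A00mm_112_s3 t 1 1 1 = true :=
  ⟨(l 4), by decide +kernel⟩

theorem c_A00mm_112_s3 : CertF 536870912 536870912 536870912 536870912 780900216 37827925 true false false .dn 1 1 2
    ndB0q1 ndB0q1 pcB2 cut_A00mm_112_s3 Ext.none :=
  certF0 (fam := true) (s1 := false) (s2 := false) (a := 1) (b := 1) (c := 2) (cn := .dn) (n1 := ndB0q1) (n2 := ndB0q1) (pc := pcB2) (cut := cut_A00mm_112_s3) (xt := Ext.none) (P1 := 536870912) (W1 := 536870912) (P2 := 536870912) (W2 := 536870912) (P3 := 780900216) (W3 := 37827925)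
    rfl k0_A00mm_112_s3

theorem s_A00mm_112_s3 {κ x : ℝ} (hκ : κ * h0 = ken x) (hx : ((780900216 : ℕ) : ℝ) / S ≤ x)
    (hx' : x ≤ (((780900216 : ℕ) : ℝ) + (37827925 : ℕ)) / S) :
    AltA (VFD κ) PP tK tL pcB [⟨4, 0, 0, 2845415833⟩] 1 1 2 0 0 (sgb false) (sgb false) x :=
  strip_altAD (m := 2845415833) false rfl hκ (SH.κ0 hκ (SH.hx1 hx).le (SH.hx2 hx').le) (SH.hx1 hx).le (SH.hx2 hx') (covB01).cov (covB01).cov hx hx' c_A00mm_112_s3 cutA_nil (noExt_A)

noncomputable def cut_A00mm_113_s1 : Cut := Cut.of [[⟨4, 0, 0, 1449551462⟩]]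

noncomputable def f_A00mm_113_s1 : ℕ → ℕ → ℕ → ℕ → Bool := onCell 536870912 536870912 536870912 536870912 780900216 37827925
    (rowF 0 true false false .nn 1 1 3 (qsf 536870912 536870912 536870912 536870912 3) ndB0q1 ndB0q1 pcB3 cut_A00mm_113_s1 Ext.none)

def k0_A00mm_113_s1 : ∃ t, chk3 f_A00mm_113_s1 t 1 1 1 = true :=
  ⟨(l 4), by decide +kernel⟩

theorem c_A00mm_113_s1 : CertF 536870912 536870912 536870912 536870912 780900216 37827925 true false false .nn 1 1 3
    ndB0q1 ndB0q1 pcB3 cut_A00mm_113_s1 Ext.none :=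
  certF0 (fam := true) (s1 := false) (s2 := false) (a := 1) (b := 1) (c := 3) (cn := .nn) (n1 := ndB0q1) (n2 := ndB0q1) (pc := pcB3) (cut := cut_A00mm_113_s1) (xt := Ext.none) (P1 := 536870912) (W1 := 536870912) (P2 := 536870912) (W2 := 536870912) (P3 := 780900216) (W3 := 37827925)
    rfl k0_A00mm_113_s1

theorem s_A00mm_113_s1 {κ x : ℝ} (hκ : κ * h0 = ken x) (hx : ((780900216 : ℕ) : ℝ) / S ≤ x)
    (hx' : x ≤ (((780900216 : ℕ) : ℝ) + (37827925 : ℕ)) / S) :
    AltA (VFD κ) PP tK tL pcB [⟨3, 0, 0, 1449551462⟩] 1 1 3 0 0 (sgb false) (sgb false) x :=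
  strip_altAD (m := 1449551462) true rfl hκ (SH.κ0 hκ (SH.hx1 hx).le (SH.hx2 hx').le) (SH.hx1 hx).le (SH.hx2 hx') (covB01).cov (covB01).cov hx hx' c_A00mm_113_s1 cutA_nil (noExt_A)

noncomputable def cut_A00mm_113_s3 : Cut := Cut.of [[⟨3, 0, 0, 2845415833⟩]]

noncomputable def f_A00mm_113_s3 : ℕ → ℕ → ℕ → ℕ → Bool := onCell 536870912 536870912 536870912 536870912 780900216 37827925
    (rowF 0 true false false .nn 1 1 3 (qsf 536870912 536870912 536870912 536870912 3) ndB0q1 ndB0q1 pcB3 cut_A00mm_113_s3 Ext.none)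

def k0_A00mm_113_s3 : ∃ t, chk3 f_A00mm_113_s3 t 1 1 1 = true :=
  ⟨(l 4), by decide +kernel⟩

theorem c_A00mm_113_s3 : CertF 536870912 536870912 536870912 536870912 780900216 37827925 true false false .nn 1 1 3
    ndB0q1 ndB0q1 pcB3 cut_A00mm_113_s3 Ext.none :=
  certF0 (fam := true) (s1 := false) (s2 := false) (a := 1) (b := 1) (c := 3) (cn := .nn) (n1 := ndB0q1) (n2 := ndB0q1) (pc := pcB3) (cut := cut_A00mm_113_s3) (xt := Ext.none) (P1 := 536870912) (W1 := 536870912) (P2 := 536870912) (W2 := 536870912) (P3 := 780900216) (W3 := 37827925)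
    rfl k0_A00mm_113_s3

theorem s_A00mm_113_s3 {κ x : ℝ} (hκ : κ * h0 = ken x) (hx : ((780900216 : ℕ) : ℝ) / S ≤ x)
    (hx' : x ≤ (((780900216 : ℕ) : ℝ) + (37827925 : ℕ)) / S) :
    AltA (VFD κ) PP tK tL pcB [⟨4, 0, 0, 2845415833⟩] 1 1 3 0 0 (sgb false) (sgb false) x :=
  strip_altAD (m := 2845415833) false rfl hκ (SH.κ0 hκ (SH.hx1 hx).le (SH.hx2 hx').le) (SH.hx1 hx).le (SH.hx2 hx') (covB01).cov (covB01).cov hx hx' c_A00mm_113_s3 cutA_nil (noExt_A)

noncomputable def cut_A00mm_123_s1 : Cut := Cut.of [[⟨4, 0, 0, 1449551462⟩]]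

noncomputable def f_A00mm_123_s1 : ℕ → ℕ → ℕ → ℕ → Bool := onCell 536870912 536870912 0 536870912 780900216 37827925
    (rowF 0 true false false .npn 1 2 3 (qsf 536870912 536870912 0 536870912 3) ndB0q1 ndB0q2 pcB3 cut_A00mm_123_s1 Ext.none)

def k0_A00mm_123_s1 : ∃ t, chk3 f_A00mm_123_s1 t 1 1 1 = true :=
  ⟨(l 6), by decide +kernel⟩

theorem c_A00mm_123_s1 : CertF 536870912 536870912 0 536870912 780900216 37827925 true false false .npn 1 2 3
    ndB0q1 ndB0q2 pcB3 cut_A00mm_123_s1 Ext.none :=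
  certF0 (fam := true) (s1 := false) (s2 := false) (a := 1) (b := 2) (c := 3) (cn := .npn) (n1 := ndB0q1) (n2 := ndB0q2) (pc := pcB3) (cut := cut_A00mm_123_s1) (xt := Ext.none) (P1 := 536870912) (W1 := 536870912) (P2 := 0) (W2 := 536870912) (P3 := 780900216) (W3 := 37827925)
    rfl k0_A00mm_123_s1

theorem s_A00mm_123_s1 {κ x : ℝ} (hκ : κ * h0 = ken x) (hx : ((780900216 : ℕ) : ℝ) / S ≤ x)
    (hx' : x ≤ (((780900216 : ℕ) : ℝ) + (37827925 : ℕ)) / S) :
    AltA (VFD κ) PP tK tL pcB [⟨3, 0, 0, 1449551462⟩] 1 2 3 0 0 (sgb false) (sgb false) x :=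
  strip_altAD (m := 1449551462) true rfl hκ (SH.κ0 hκ (SH.hx1 hx).le (SH.hx2 hx').le) (SH.hx1 hx).le (SH.hx2 hx') (covB01).cov (covB02).cov hx hx' c_A00mm_123_s1 cutA_nil (noExt_A)

noncomputable def cut_A00mm_123_s3 : Cut := Cut.of [[⟨3, 0, 0, 2845415833⟩]]

noncomputable def f_A00mm_123_s3 : ℕ → ℕ → ℕ → ℕ → Bool := onCell 536870912 536870912 0 536870912 780900216 37827925
    (rowF 0 true false false .npn 1 2 3 (qsf 536870912 536870912 0 536870912 3) ndB0q1 ndB0q2 pcB3 cut_A00mm_123_s3 Ext.none)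

def k0_A00mm_123_s3 : ∃ t, chk3 f_A00mm_123_s3 t 1 1 1 = true :=
  ⟨(a (l 5) (l 4)), by decide +kernel⟩

theorem c_A00mm_123_s3 : CertF 536870912 536870912 0 536870912 780900216 37827925 true false false .npn 1 2 3
    ndB0q1 ndB0q2 pcB3 cut_A00mm_123_s3 Ext.none :=
  certF0 (fam := true) (s1 := false) (s2 := false) (a := 1) (b := 2) (c := 3) (cn := .npn) (n1 := ndB0q1) (n2 := ndB0q2) (pc := pcB3) (cut := cut_A00mm_123_s3) (xt := Ext.none) (P1 := 536870912) (W1 := 536870912) (P2 := 0) (W2 := 536870912) (P3 := 780900216) (W3 := 37827925)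
    rfl k0_A00mm_123_s3

theorem s_A00mm_123_s3 {κ x : ℝ} (hκ : κ * h0 = ken x) (hx : ((780900216 : ℕ) : ℝ) / S ≤ x)
    (hx' : x ≤ (((780900216 : ℕ) : ℝ) + (37827925 : ℕ)) / S) :
    AltA (VFD κ) PP tK tL pcB [⟨4, 0, 0, 2845415833⟩] 1 2 3 0 0 (sgb false) (sgb false) x :=
  strip_altAD (m := 2845415833) false rfl hκ (SH.κ0 hκ (SH.hx1 hx).le (SH.hx2 hx').le) (SH.hx1 hx).le (SH.hx2 hx') (covB01).cov (covB02).cov hx hx' c_A00mm_123_s3 cutA_nil (noExt_A)

noncomputable def cut_A00mm_202_s1 : Cut := Cut.of [[⟨4, 0, 0, 1449551462⟩], [⟨0, 1, 0, 67108864⟩, ⟨1, 0, 0, 67108864⟩, ⟨2, 1, 0, 67108864⟩]]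

noncomputable def f_A00mm_202_s1 : ℕ → ℕ → ℕ → ℕ → Bool := onCell 0 536870912 0 536870912 780900216 37827925
    (rowF 0 true false false .pp 2 0 2 (qsf 0 536870912 0 536870912 2) ndB0q2 ndB0q0 pcB2 cut_A00mm_202_s1 Ext.none)

def k0_A00mm_202_s1 : ∃ t, chk3 f_A00mm_202_s1 t 1 1 1 = true :=
  ⟨(l 6), by decide +kernel⟩

theorem c_A00mm_202_s1 : CertF 0 536870912 0 536870912 780900216 37827925 true false false .pp 2 0 2
    ndB0q2 ndB0q0 pcB2 cut_A00mm_202_s1 Ext.none :=
  certF0 (fam := true) (s1 := false) (s2 := false) (a := 2) (b := 0) (c := 2) (cn := .pp) (n1 := ndB0q2) (n2 := ndB0q0) (pc := pcB2) (cut := cut_A00mm_202_s1) (xt := Ext.none) (P1 := 0) (W1 := 536870912) (P2 := 0) (W2 := 536870912) (P3 := 780900216) (W3 := 37827925)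
    rfl k0_A00mm_202_s1

theorem s_A00mm_202_s1 {κ x : ℝ} (hκ : κ * h0 = ken x) (hx : ((780900216 : ℕ) : ℝ) / S ≤ x)
    (hx' : x ≤ (((780900216 : ℕ) : ℝ) + (37827925 : ℕ)) / S)
    (H : CutA (VFD κ) PP tK tL pcB (Cut.of [[⟨0, 1, 0, 67108864⟩, ⟨1, 0, 0, 67108864⟩, ⟨2, 1, 0, 67108864⟩]]) 2 0 2 0 0 (sgb false) (sgb false) x) :
    AltA (VFD κ) PP tK tL pcB [⟨3, 0, 0, 1449551462⟩] 2 0 2 0 0 (sgb false) (sgb false) x :=
  strip_altAD (m := 1449551462) true rfl hκ (SH.κ0 hκ (SH.hx1 hx).le (SH.hx2 hx').le) (SH.hx1 hx).le (SH.hx2 hx') (covB02).cov (covB00).cov hx hx' c_A00mm_202_s1 H (noExt_A)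

end Pool.Agent.Strip051.G.I72727_7625.Tab.St.C
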