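import Pool.Agent.Strip051.G.I72727_7625.StH
import Pool.Agent.Strip051.G.I72727_7625.StF

/-! # Unit strips 6 (generated) -/

set_option linter.all false
set_option maxRecDepth 100000

namespace Pool.Agent.Strip051.G.I72727_7625.Tab.St.C

open Pool.Agent.Strip051.PB Pool.Agent.Strip051.PB.T Pool.Agent.StripNear Pool.Agent.Strip051.LC
open Pool.Agent.Strip051.G.I72727_7625.Tab Pool.Agent.Strip051.G.I72727_7625.Tab.St

noncomputable def cut_A00mm_202_s3 : Cut := Cut.of [[⟨3, 0, 0, 2845415833⟩], [⟨0, 1, 0, 67108864⟩, ⟨1, 0, 0, 67108864⟩, ⟨2, 1, 0, 67108864⟩]]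

noncomputable def xt_A00mm_202_s3 : Ext := strExt dd true false false .u2 .u0m .s2m .pp 2 0 2 rfl rfl gl2 vv ndB0q2 ndB0q0

noncomputable def f_A00mm_202_s3 : ℕ → ℕ → ℕ → ℕ → Bool := onCell 0 536870912 0 536870912 780900216 37827925
    (rowF 0 true false false .pp 2 0 2 (qsf 0 536870912 0 536870912 2) ndB0q2 ndB0q0 pcB2 cut_A00mm_202_s3 xt_A00mm_202_s3)

def k0_A00mm_202_s3 : ∃ t, chk3 f_A00mm_202_s3 t 2 2 1 = true :=
  ⟨(b (a (l 6) (b (l 6) (a (l 6) (a (l 6) (b (b (l 6) (a (l 6) (b (l 6) (l 16568880)))) (b (a (l 16561856) (b (l 16573616) (l 16578392))) (a (l 16572088) (l 16628272)))))))) (a (b (l 6) (a (l 6) (b (l 6) (l 16668520)))) (b (a (a (l 6) (b (l 6) (b (l 16569104) (l 16584648)))) (b (a (b (l 16606008) (l 16620224)) (b (a (l 16584184) (l 16629992)) (a (l 16640448) (a (l 16609240) (l 16658552))))) (a (b (a (l 16587280) (l 16600376)) (a (l 16602984) (l 16616136))) (a (b (l 16656112) (b (l 16626040) (l 16633968)))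 (b (a (l 16624952) (l 16674304)) (c (l 16644408) (l 16686872))))))) (a (b (a (l 16584872) (l 16628480)) (a (l 16614032) (b (l 16545840) (l 16644464)))) (a (b (a (l 16626080) (a (l 16635960) (l 16663768))) (b (l 16697192) (l 16691112))) (b (a (b (b (l 16641832) (l 16649600)) (b (l 16657256) (l 16664800))) (b (b (l 16656480) (l 16706248)) (a (l 533296655) (l 533254415)))) (a (b (l 16676064) (l 16691080)) (b (a (l 533303823) (l 16694760)) (l 532755471))))))))), by decide +kernel⟩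

def k1_A00mm_202_s3 : ∃ t, chk3 f_A00mm_202_s3 t 12 8 1 = true :=
  ⟨(b (a (l 6) (a (l 6) (b (b (l 6) (a (l 6) (l 16548616))) (b (a (l 6) (l 16559224)) (a (l 16563360) (l 16569512)))))) (a (a (l 6) (b (l 6) (b (l 16568512) (l 16574696)))) (a (b (b (l 16564160) (l 16594384)) (b (a (l 16578400) (l 16605920)) (l 16588408))) (b (b (a (l 16573160) (l 16579408)) (b (l 16583424) (l 16588048))) (b (a (b (l 16589336) (l 16593624)) (l 16598008)) (a (l 16598992) (b (l 16604360) (l 16607944)))))))), by decide +kernel⟩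

def k2_A00mm_202_s3 : ∃ t, chk3 f_A00mm_202_s3 t 13 16 1 = true :=
  ⟨(b (a (b (a (a (l 16564840) (a (l 16548624) (l 16551864))) (b (a (l 16554040) (l 16560808)) (a (l 16559640) (l 16566432)))) (a (b (l 16576296) (l 16581712)) (b (a (l 16565160) (l 16571976)) (a (l 16570616) (l 16577448))))) (a (b (b (a (l 16578200) (c (l 16575952) (l 16573656))) (a (l 16573360) (l 16590936))) (a (b (l 16578928) (l 16584432)) (b (l 16586048) (l 16591568)))) (a (b (b (c (l 16583168) (l 16580952)) (c (l 16588824) (l 16586672))) (b (c (l 16594408) (l 16592320)) (l 16609376))) (b (b (c (l 16590600) (l 16588464)) (c (l 16596280) (l 16594208))) (b (c (l 16601888) (l 16599872)) (c (l 16607432) (l 16605472))))))) (a (a (b (b (l 16587056) (l 16571360)) (b (l 16597528) (l 16602640))) (b (b (a (l 16575992) (l 16582856)) (a (l 16581296) (l 16588184))) (a (b (l 16586536) (l 16591704)) (b (l 16593448) (l 16598640))))) (a (b (a (b (l 16589856) (l 16595216))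 (b (l 16597024) (l 16602400))) (a (b (l 16600504) (l 16605720)) (b (l 16607720) (l 16612968)))) (a (b (b (l 16604368) (l 16609784)) (a (l 532722959) (l 532680719))) (b (a (a (l 532598287) (l 532575759)) (a (l 532552975) (l 532529679))) (b (a (l 16620800) (l 16624664)) (l 16638528))))))), by decide +kernel⟩

def k3_A00mm_202_s3 : ∃ t, chk3 f_A00mm_202_s3 t 13 17 1 = true :=
  ⟨(a (a (b (b (b (l 16607672) (l 16612600)) (b (l 16617432) (l 16622160))) (b (b (l 16626792) (l 16620832)) (a (b (l 16611288) (l 16636264)) (b (l 16618224) (l 16643520))))) (b (b (a (b (l 16596792) (l 16601800)) (b (l 16603768) (l 16608816))) (a (b (l 16606712) (l 16611520)) (b (l 16613784) (l 16618648)))) (a (b (b (l 16616232) (l 16620848)) (b (l 16625360) (l 16629768))) (b (b (l 16623416) (l 16628080)) (b (l 16632656) (l 16637128)))))) (a (a (b (b (b (l 16610880) (l 16615968)) (a (l 16632112) (l 532933135))) (b (a (l 16641728) (l 532973839)) (a (l 533041423)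 (l 533008911)))) (b (b (a (l 532850447) (l 532811791)) (a (l 532896527) (l 532858383))) (b (a (l 532938511) (l 532901647)) (a (l 532974863) (l 532939791))))) (b (a (b (a (l 532771343) (l 532729359)) (a (l 532818703) (l 532777487))) (b (a (l 532686095) (l 532641039)) (a (l 532734479) (l 532689935)))) (a (a (b (l 532863503) (l 532902927)) (b (l 532823567) (l 532864527))) (a (b (l 532781839) (l 532824335)) (b (l 532738063) (l 532782095))))))), by decide +kernel⟩

def k4_A00mm_202_s3 : ∃ t, chk3 f_A00mm_202_s3 t 12 9 1 = true :=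
  ⟨(a (b (b (a (l 16569816) (b (l 16580672) (l 16586432))) (a (l 16580408) (b (l 16591960) (l 16597360)))) (a (b (b (l 16588024) (l 16593008)) (a (l 16597296) (l 16625776))) (b (b (a (l 16599024) (l 16606488)) (l 16639560)) (b (l 16655440) (l 16640280))))) (b (b (a (b (l 16594680) (l 16600728)) (b (l 16609232) (l 16615592))) (a (b (l 16606544) (l 16612232)) (b (l 16642680) (l 16648680)))) (b (b (a (l 16617936) (l 16654688)) (a (a (l 16619680) (l 16648552)) (l 16650256))) (a (a (c (l 16649816) (l 16648480)) (b (l 16654344) (l 16660296))) (a (b (l 533072143) (l 16663408)) (b (b (l 16669472) (l 16672560)) (a (l 16675040) (l 16668880)))))))), by decide +kernel⟩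

def k5_A00mm_202_s3 : ∃ t, chk3 f_A00mm_202_s3 t 26 9 1 = true :=
  ⟨(b (b (a (a (b (l 16620488) (l 16627088)) (b (b (l 16636928) (l 16629920)) (l 16634976))) (a (b (a (l 533172239) (l 533149455)) (l 16643016)) (b (a (l 533124623) (l 533097487)) (b (l 16659904) (l 16652912))))) (a (a (b (l 16633456) (l 16639696)) (b (l 16641504) (l 16647912))) (a (b (l 16649720) (l 16656296)) (b (l 16668536) (l 16670048))))) (a (b (a (b (l 16645944) (l 16652240)) (b (l 16654336) (l 16660792))) (a (b (a (l 533013775) (l 16660760)) (a (l 532956943) (l 532940303))) (b (l 16677816) (a (l 532923919) (l 532907535))))) (b (a (b (l 16668128) (b (l 16667848) (l 16671184))) (b (b (l 16669872) (l 16673264)) (b (l 16676664) (l 16680088)))) (a (a (b (l 16673968) (l 532891407)) (b (l 16678456) (l 532875023))) (b (b (l 16683528) (l 16686992)) (b (l 16695728) (l 16699248))))))), by decide +kernel⟩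

def k6_A00mm_202_s3 : ∃ t, chk3 f_A00mm_202_s3 t 27 9 1 = true :=
  ⟨(b (a (a (a (b (b (l 533067791) (l 533072143)) (b (l 16664344) (l 16671240))) (b (b (l 533036815) (l 533047567)) (b (l 16668584) (l 16675568)))) (b (b (b (l 16656752) (l 16671640)) (a (l 533020431) (l 532990991))) (a (b (l 16672848) (l 16679920)) (b (l 16677136) (l 16689552))))) (b (a (a (b (l 532935183) (l 532958479)) (b (l 532898575) (l 532923407))) (a (b (l 532859919) (l 532886287)) (b (l 532819471) (l 532847631)))) (a (b (a (l 532952847) (l 532925199)) (b (l 16689112) (l 16692776))) (b (a (l 532894735) (l 533128975)) (a (l 532869135) (l 532840719)))))) (a (b (a (b (c (l 16686032) (l 16685160)) (b (l 16685600) (l 16694352))) (a (b (l 16692256) (l 532884751)) (b (l 532906255) (l 532864015)))) (a (b (b (l 16697888) (l 533121551)) (a (l 532822799) (l 532804623))) (b (a (l 532837391) (l 532817167)) (a (l 532785935) (l 532766479))))) (b (a (a (b (l 532883471)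 (l 532841999)) (b (l 532859407) (l 532818703))) (a (b (l 532833807) (l 532794383)) (b (l 532806671) (l 532768015)))) (a (b (a (l 532796175) (l 532774159)) (a (l 532746255) (l 532725007))) (a (b (l 532750607) (l 532702735)) (b (l 532994063) (l 532947471))))))), by decide +kernel⟩

def k7_A00mm_202_s3 : ∃ t, chk3 f_A00mm_202_s3 t 28 16 1 = true :=
  ⟨(a (a (c (b (b (b (l 16598280) (l 16603984)) (b (l 16609616) (l 16615176))) (b (b (l 16620672) (l 16626096)) (b (l 16631456) (l 16636752)))) (b (b (b (l 16596216) (l 16601976)) (b (l 16607672) (l 16613288))) (b (b (l 16618840) (l 16624328)) (b (l 16629744) (l 16635104))))) (c (b (b (b (l 16606256) (l 16611984)) (b (l 16617632) (l 16623224))) (b (b (l 16628736) (l 16634184)) (b (l 16639568) (l 16644888)))) (b (b (b (l 16604272) (l 16610048)) (b (l 16615752) (l 16621392))) (b (b (l 16626968) (l 16632472)) (b (l 16637912) (l 16643296)))))) (b (a (b (a (b (b (l 16610144) (l 16613040))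 (l 16617360)) (b (b (l 16614616) (l 16617520)) (l 16621840))) (a (a (l 532255247) (l 532230671)) (b (l 16627536) (l 16633168)))) (b (a (b (b (l 14) (l 16622168)) (b (l 16625048) (l 16627920))) (b (l 14) (b (l 16629864) (l 16632728)))) (a (b (l 16632184) (l 16637816)) (b (l 16637000) (l 16642632))))) (a (b (a (a (l 532306447) (l 532282127)) (a (l 532257807) (l 532233999))) (a (a (l 532357135) (l 532332559)) (a (l 532308239) (l 532284175)))) (b (a (a (l 532210447) (l 532187151)) (b (l 16648200) (l 16653696))) (a (a (l 532260367) (l 532237071)) (b (l 16659136) (l 16664512))))))), by decide +kernel⟩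

def k8_A00mm_202_s3 : ∃ t, chk3 f_A00mm_202_s3 t 29 16 1 = true :=
  ⟨(a (b (a (b (b (l 14) (c (l 16639656) (l 16638064))) (a (a (l 532069391) (l 532047887)) (a (l 532026639) (l 532006159)))) (b (l 14) (a (b (l 16652392) (l 532256271)) (a (l 531946511) (l 531927311))))) (a (b (a (b (l 16653168) (l 16658672)) (b (l 16658296) (l 16663792))) (a (b (l 16664104) (l 16669480)) (b (l 16669224) (l 16674592)))) (b (a (b (l 16663568) (l 16669056)) (b (l 16668984) (l 16674472))) (a (b (l 16674488) (l 16679856)) (b (l 16679888) (l 16685256)))))) (b (a (b (l 14) (a (b (l 14) (l 16668992)) (l 14))) (l 14)) (a (b (a (a (l 531957775) (l 531939599)) (a (l 531921935) (l 531904783))) (a (b (l 16685432) (l 16690784)) (b (l 16696344) (l 16701688)))) (a (b (a (l 531887887) (l 531871759)) (a (l 531934991) (l 531918863))) (b (a (l 531856143) (l 531841295)) (a (l 531903247) (l 531888143))))))), by decide +kernel⟩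

def k9_A00mm_202_s3 : ∃ t, chk3 f_A00mm_202_s3 t 15 16 1 = true :=
  ⟨(b (l 14) (b (a (l 14) (l 14)) (a (a (a (a (a (l 531873807) (l 531859215)) (a (l 531844879) (l 531830287))) (b (l 14) (a (a (l 531827215) (l 531812623)) (a (l 531798031) (l 14))))) (l 14)) (l 14)))), by decide +kernel⟩

def k10_A00mm_202_s3 : ∃ t, chk3 f_A00mm_202_s3 t 28 17 1 = true :=
  ⟨(a (b (a (b (a (a (l 532606479) (l 532582671)) (a (l 532558351) (l 532533519))) (a (l 532643599) (l 532863759))) (b (a (a (l 532508431) (l 532482831)) (a (l 532457231) (l 532431887))) (a (a (l 532557839) (l 532532239)) (a (l 532506639) (l 532481295))))) (a (a (b (l 532692239) (l 532737807)) (b (l 532912655) (l 532691215))) (a (b (a (l 532606735) (l 532581135)) (l 532910351)) (b (l 532811279) (l 532859919))))) (b (a (b (a (a (l 532406799) (l 532382223)) (a (l 532357647) (l 532333583))) (a (a (l 532456207) (l 532431375)) (a (l 532406799) (l 532382735)))) (b (a (a (l 532309775)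 (l 532286479)) (b (l 16669824) (l 16675072))) (a (a (l 532358671) (l 532335119)) (b (l 16680264) (l 16685400))))) (a (a (b (l 532760847) (l 532809999)) (b (a (l 532455695) (l 532431375)) (a (l 532504591) (l 532480271)))) (a (b (a (l 532407311) (l 532383503)) (l 532779279)) (b (a (l 532359951) (l 532336655)) (l 532664591)))))), by decide +kernel⟩

def k11_A00mm_202_s3 : ∃ t, chk3 f_A00mm_202_s3 t 29 17 1 = true :=
  ⟨(a (b (a (c (b (b (l 16677976) (l 16683192)) (b (l 16688360) (l 16693464))) (b (b (l 16676736) (l 16682016)) (a (l 532494351) (l 532450063)))) (b (a (b (l 16685160) (l 16690408)) (b (l 16690552) (l 16701040))) (a (a (l 532178959) (l 532157967)) (a (l 532137743) (l 532117775))))) (a (a (b (a (l 532313615) (l 532291087)) (l 532618255)) (b (a (l 532268815) (l 532247055)) (l 532572943))) (a (b (a (l 532225295) (l 532204303)) (a (l 532271887) (l 532250383))) (b (a (l 532183567) (l 532163087)) (a (l 532229135) (l 532208399))))))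 (a (b (a (b (a (l 532052495) (l 532033807)) (a (l 532098319) (l 532079119))) (b (a (l 532015631) (l 531997967)) (a (l 532060687) (l 532042767)))) (a (b (a (l 532143375) (l 532123919)) (a (l 532187919) (l 532167951))) (b (a (l 532104975) (l 532086799)) (a (l 532148751) (l 532129807))))) (b (a (b (a (l 531980815) (l 531964431)) (a (l 532025615) (l 532008975))) (b (a (l 531948815) (l 531933711)) (a (l 531993103) (l 531977743)))) (a (b (a (l 532069135) (l 532052239)) (a (l 532111631) (l 532094223))) (b (a (l 532035855) (l 532020751)) (a (l 532077839) (l 532062223))))))), by decide +kernel⟩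

def k12_A00mm_202_s3 : ∃ t, chk3 f_A00mm_202_s3 t 15 17 1 = true :=
  ⟨(b (a (a (a (a (b (a (l 531919119) (l 531904783)) (a (l 531963407) (l 531949071))) (b (a (l 531890447) (l 531876111)) (a (l 531934735) (l 531920399)))) (a (b (a (l 531861519) (l 531846927)) (a (l 531905807) (l 531891215))) (b (a (l 531832335) (l 532086031)) (a (l 531876623) (l 531862031))))) (b (a (b (a (a (l 531791375) (l 531776783)) (l 14)) (a (a (l 531813903) (l 531799311)) (a (l 531784463) (l 532037903)))) (a (a (a (l 531747599) (l 531740175)) (a (l 531732751) (l 14))) (l 14))) (a (a (a (l 532115727) (a (l 531836687) (l 531829263))) (a (a (l 531821839) (l 531814415)) (a (l 531806991) (l 531799567)))) (a (a (a (l 531792143) (l 531784719)) (a (l 531777295) (l 531769871))) (a (a (l 531762447) (l 531754767)) (a (l 531747343) (l 531739919))))))) (b (l 14) (a (b (b (l 14) (b (l 14) (l 4))) (l 4)) (l 4)))) (a (a (a (a (b (a (l 532006159) (l 531992079)) (a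 (l 532047887) (l 532033551))) (b (a (l 531977487) (l 531963151)) (a (l 532019215) (l 532004879)))) (a (b (a (l 531948815) (l 531934223)) (a (l 531990287) (a (l 531979791) (l 531972623)))) (a (b (l 531919631) (l 531961359)) (b (l 531905039) (l 531946767))))) (b (a (a (a (l 531890447) (l 532144143)) (a (a (l 531865103) (l 531857679)) (a (l 531850255) (l 531842831)))) (a (a (a (l 531835407) (l 531827983)) (a (l 531820559) (l 531813135))) (l 4))) (a (a (a (l 531932175) (l 531917583)) (a (l 532439567) (l 4))) (l 4)))) (l 4))), by decide +kernel⟩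

def k13_A00mm_202_s3 : ∃ t, chk3 f_A00mm_202_s3 t 14 18 1 = true :=
  ⟨(a (a (a (b (a (b (l 532776719) (l 532806671)) (b (l 532731663) (l 532763151))) (a (b (l 533091343) (l 533078799)) (b (l 532781327) (b (l 532783119) (l 16713200))))) (b (a (b (l 532952591) (l 532717071)) (b (l 532635151) (l 532669455))) (a (b (l 532736271) (a (l 532748815) (l 532728335))) (b (l 532689935) (l 532964623))))) (a (b (a (b (l 532855055) (l 532622351)) (b (l 532807183) (l 532576015))) (a (b (l 532643855) (l 532921871)) (b (l 532598799) (l 532609295)))) (b (a (b (l 532759823) (l 532530447)) (b (l 532712975) (l 532485135))) (a (b (l 532553999) (l 532565263)) (b (l 532509967) (l 532521999)))))) (a (a (b (a (b (l 532666639) (l 532440847)) (b (l 532889359) (l 532397071))) (a (b (l 532466959) (l 532478991)) (b (l 532424463) (l 532437007)))) (a (b (b (a (l 532318991) (l 532296719)) (l 532622095)) (b (l 532382735) (l 532395791))) (b (b (a (l 532275215)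 (l 532253711)) (l 532579343)) (b (l 532610319) (l 532355087))))) (a (a (b (b (a (l 532232719) (l 532212239)) (a (l 532279567) (l 532258575))) (b (l 532838671) (l 532315407))) (a (b (b (l 532192271) (l 532237583)) (b (l 532272911) (l 532286735))) (b (b (l 532172559) (l 532216847)) (b (l 532253199) (l 532267535))))) (b (a (b (a (l 532153871) (l 532135695)) (a (l 532196623) (l 532176911))) (b (a (l 532118543) (l 532102415)) (a (l 532158991) (l 532143375)))) (a (b (a (l 532232463) (l 532213775)) (l 532775439)) (b (a (l 532747791) (b (l 532169487) (l 532183567))) (a (l 532211471) (l 4)))))))), by decide +kernel⟩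

def k14_A00mm_202_s3 : ∃ t, chk3 f_A00mm_202_s3 t 15 18 1 = true :=
  ⟨(a (a (b (a (a (b (a (l 532088079) (l 532073743)) (a (l 532126991) (l 532112655))) (b (a (l 532059407) (l 532045071)) (a (l 532098319) (l 532084239)))) (a (b (a (l 532030735) (l 532016143)) (a (l 532069647) (l 4))) (b (a (a (l 532005647) (l 531998479)) (b (l 531977231) (l 4))) (l 4)))) (a (b (a (b (l 532415759) (l 4)) (l 4)) (l 4)) (l 4))) (l 4)) (l 4)), by decide +kernel⟩

def k15_A00mm_202_s3 : ∃ t, chk3 f_A00mm_202_s3 t 7 19 1 = true :=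
  ⟨(a (a (a (a (b (a (b (l 532777231) (l 533008143)) (b (l 532745487) (a (l 532717071) (l 532700687)))) (a (b (a (l 532705551) (l 532691471)) (a (l 532660239) (l 532646671))) (b (a (l 532676623) (l 532660751)) (a (l 532632335) (l 532617231))))) (b (a (b (l 532978703) (a (l 532683791) (l 532665615))) (b (l 532942095) (a (l 532647439) (l 532629263)))) (b (a (a (l 532644111) (l 532626191)) (a (l 532608271) (l 532590351))) (a (a (l 532601103) (l 532583439)) (a (l 532565519) (l 532547855)))))) (a (b (a (b (a (l 532646671) (l 532628751)) (a (l 532611599) (l 532593679))) (b (a (l 532610575) (l 532592399)) (a (l 532576271) (l 532558863)))) (a (b (a (l 532572687) (l 532555023)) (a (l 532530447) (l 532513039))) (b (a (l 532537615) (l 532520463)) (a (b (l 532506383) (l 532484623)) (b (l 532489231) (l 532467471)))))) (b (a (b (a (l 532573711) (l 532554511)) (l 532801295)) (b (l 532793103) (l 532498959))) (a (b (a (l 532503311) (l 532486159))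 (a (l 532461583) (l 532444687))) (b (l 532729359) (a (l 532427791) (l 532411407))))))) (a (b (a (a (b (l 532753167) (l 532734479)) (b (l 532443919) (l 532700943))) (a (b (l 532402703) (l 532934671)) (b (l 532362511) (l 532898831)))) (a (a (b (l 532696335) (a (l 532395023) (l 532378639))) (b (l 532664079) (l 4))) (a (b (l 532632591) (l 4)) (l 4)))) (b (a (a (a (l 532603407) (l 532583951)) (b (l 532552719) (l 4))) (l 4)) (l 4)))) (l 4)), by decide +kernel⟩

def k16_A00mm_202_s3 : ∃ t, chk3 f_A00mm_202_s3 t 12 5 1 = true :=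
  ⟨(b (a (b (b (a (a (l 16651560) (l 533417999)) (b (l 16646560) (a (l 16628408) (l 16636328)))) (a (b (l 16666088) (l 16673856)) (a (a (l 533091599) (l 533070607)) (a (l 533049615) (l 533028111))))) (b (a (b (l 16660808) (l 16668776)) (a (l 533084175) (b (l 16680600) (l 16688664)))) (a (b (l 16676784) (l 16684808)) (a (l 533096719) (l 533052943))))) (b (a (b (a (b (l 16637536) (l 16665384)) (b (l 16666728) (l 532974351))) (a (b (l 16672848) (l 16680768)) (b (l 532954639) (l 532950287)))) (b (a (b (l 533238031) (l 533201167)) (b (c (l 16684272) (l 16683280)) (a (l 532901903) (l 532881167)))) (a (b (l 533179663) (l 532906255)) (b (a (l 532878607) (l 532856847)) (a (l 532872975) (l 532850959)))))) (a (b (a (b (l 532995087) (l 532998671)) (b (l 532950799) (l 532953615))) (a (l 533276431) (b (l 532959247) (l 532966927)))) (b (a (b (l 532905999) (l 532908559)) (b (l 533129487) (l 532862991))) (a (b (l 532913679) (l 532921103))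 (b (l 532867599) (l 532874767))))))) (a (b (a (b (a (l 533201167) (l 533158927)) (a (l 533211663) (l 533169167))) (b (a (l 533115919) (l 533072143)) (a (l 533126415) (l 533083663)))) (a (b (a (l 533215247) (l 533170959)) (a (l 533222415) (l 533176335))) (b (a (l 533127183) (l 533083407)) (a (l 533130767) (l 533085967))))) (b (a (b (a (l 533027599) (l 533250831)) (a (l 533040399) (l 532996879))) (b (a (b (l 532930575) (l 532942095)) (b (l 532883983) (l 532895247))) (a (l 533221391) (b (l 532907023) (l 532909327))))) (a (b (a (l 533040143) (l 533264911)) (a (b (l 533041423) (l 533043215)) (b (l 532997647) (l 532999183)))) (a (b (l 532952591) (a (l 532965135) (l 532942863))) (b (l 532908047) (l 532909327))))))), by decide +kernel⟩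

def k17_A00mm_202_s3 : ∃ t, chk3 f_A00mm_202_s3 t 26 10 1 = true :=
  ⟨(b (a (b (a (b (a (l 532903183) (l 532884751)) (a (l 532860943) (l 532840463))) (b (a (l 532866575) (l 532848911)) (a (l 532820495) (l 532800783)))) (a (b (a (l 532835087) (l 532813583)) (a (l 532828687) (l 532806671))) (b (a (l 532792079) (l 532770831)) (a (l 532784655) (l 532762895))))) (b (a (b (a (l 532831759) (l 532815119)) (a (l 532781327) (l 532762127))) (b (a (l 533067023) (l 533050383)) (a (l 532743183) (l 532992527)))) (a (b (a (c (l 532765967) (l 532734479)) (l 532997135)) (a (l 532741135) (c (l 532733711) (l 532707087)))) (b (a (c (l 532725007) (l 532691471)) (c (l 532704271) (l 532669711))) (a (l 532698127) (l 532676111)))))) (a (b (a (b (a (l 532827407) (l 532805135)) (a (l 532828943) (l 532806159))) (b (a (l 532782607) (l 532760335)) (a (l 532783631) (l 532760847)))) (a (b (a (l 532833295) (l 532810255)) (l 532828175)) (b (a (l 532787215)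 (l 532764175)) (a (l 532793359) (l 532770063))))) (a (b (b (a (l 532738319) (l 532917775)) (a (l 532738575) (c (l 532724751) (l 532710159)))) (b (a (l 532741391) (l 532987151)) (a (l 532746767) (l 532723983)))) (b (a (b (c (l 532706319) (l 532684815)) (c (l 532702991) (l 532687375))) (b (l 532940815) (c (l 532680719) (l 532664335)))) (b (a (c (l 532702479) (l 532692751)) (c (l 532679951) (l 532669199))) (a (b (l 532699407) (l 532702479)) (b (l 532676367) (l 532679183)))))))), by decide +kernel⟩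

def k18_A00mm_202_s3 : ∃ t, chk3 f_A00mm_202_s3 t 27 10 1 = true :=
  ⟨(b (a (b (a (b (a (b (l 532780815) (l 532749839)) (b (l 16709432) (l 532732943))) (a (l 532973583) (l 532954895))) (b (a (b (l 16714248) (l 532715535)) (l 532711183)) (a (b (l 532683535) (l 532653327)) (b (l 532665871) (l 532634127))))) (a (b (a (b (l 532672271) (l 532659983)) (b (l 532651023) (l 532637711))) (a (l 532922383) (l 532631567))) (b (a (b (l 532629775) (l 532615439)) (b (l 532608527) (l 532592911))) (a (l 532609039) (l 532586255))))) (b (a (b (a (l 532691983) (l 532940303)) (a (b (l 532647951) (l 532615439)) (b (l 532628751) (l 532596751)))) (b (a (b (l 532664079) (l 532636943)) (b (l 532641551) (l 532615183))) (a (b (l 532608527) (l 532578063)) (b (l 532587535) (l 532558351))))) (b (a (a (b (l 532587279) (l 532570127)) (b (l 532566287) (l 532547087))) (a (b (l 532545807) (l 532523791)) (b (l 532525839) (l 532500495)))) (a (a (l 532562959)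 (l 532539407)) (a (l 532515599) (l 532491535)))))) (a (a (b (a (b (l 532918287) (c (l 532658447) (l 532641039))) (b (l 532895759) (l 532894223))) (a (b (c (l 532657423) (l 532645647)) (b (c (l 532658191) (l 532651023)) (c (l 532659471) (l 532655119)))) (a (b (l 532632847) (a (l 532639759) (l 532633871))) (b (l 532621071) (l 532624911))))) (b (a (b (l 532604175) (l 532602383)) (b (l 532581135) (l 532579087))) (a (b (l 532603407) (l 532606991)) (b (l 532579855) (l 532583183))))) (a (b (a (b (l 532557583) (l 532555279)) (b (l 532534031) (l 532531471))) (b (a (l 532555791) (l 532531727)) (l 4))) (b (a (b (l 532509967) (l 532507151)) (b (l 532485647) (l 532482831))) (l 4))))), by decide +kernel⟩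

def k19_A00mm_202_s3 : ∃ t, chk3 f_A00mm_202_s3 t 13 11 1 = true :=
  ⟨(a (b (a (b (a (b (l 532837135) (l 532848143)) (b (a (l 532801807) (l 532778255)) (a (l 532812559) (l 532788751)))) (a (b (l 532861199) (l 532864783)) (b (a (l 532825871) (b (l 532797967) (l 532805135))) (l 532819471)))) (a (b (b (a (l 532754703) (l 532731407)) (a (l 532764943) (l 532741391))) (b (a (l 532775951) (l 532753423)) (a (b (l 533323535) (l 532785679)) (b (l 532762895) (l 4))))) (b (b (a (l 532708111) (b (l 532682767) (l 532686863))) (a (l 532717839) (l 532694031))) (b (a (l 532729359) (l 532705295)) (l 4))))) (a (b (a (l 533131791) (b (l 532818447) (l 532818191))) (a (l 532864527) (l 4))) (l 4))) (b (a (c (b (a (b (a (b (l 532661519) (l 532664079)) (b (a (l 532644111) (l 532632335)) (a (l 532646671) (l 4)))) (a (l 532669199) (l 4))) (b (b (l 532871183) (l 4)) (l 4))) (l 4)) (b (a (b (a (b (l 532659983) (l 532665615)) (b (l 532635919) (l 532641039)))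 (a (l 532674575) (l 4))) (b (b (l 532598799) (l 4)) (l 4))) (l 4))) (l 4)) (l 4))), by decide +kernel⟩

def k20_A00mm_202_s3 : ∃ t, chk3 f_A00mm_202_s3 t 7 5 1 = true :=
  ⟨(b (a (a (b (a (b (a (a (b (a (l 532610831) (l 532598287)) (a (l 532825359) (l 532814095))) (b (a (l 532584719) (l 532570383)) (a (l 532801807) (l 532788751)))) (a (b (a (l 532554767) (l 532537615)) (a (l 532774159) (l 532488975))) (b (b (l 532522767) (l 532499215)) (a (l 532471567) (l 532454159))))) (a (b (a (b (b (l 532514831) (l 532498447)) (b (l 532482575) (l 532473103))) (b (a (l 532491279) (l 532479759)) (b (a (l 532467215) (l 532456975)) (l 532449295)))) (a (l 532735503) (a (l 532448783) (l 532436239)))) (c (b (b (a (a (a (l 532494351) (l 532487439)) (l 532475407)) (l 532450575)) (a (a (b (a (l 532473871) (l 532466447)) (a (l 532460303) (b (l 532459535) (l 532442383)))) (b (l 532456207) (l 532442895))) (l 532693775))) (a (a (l 532446479) (l 4))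 (l 4))) (b (a (a (b (a (l 532446479) (l 532439055)) (b (a (l 532425231) (l 532417551)) (a (l 532411919) (b (l 532410639) (l 532392975))))) (b (l 532425999) (b (l 532406031) (l 532661263)))) (b (l 532398607) (a (l 532381967) (l 4)))) (a (a (l 532401679) (l 4)) (l 4)))))) (b (a (b (a (b (l 532487695) (l 532464399)) (b (a (l 532462095) (l 532444943)) (a (l 532438799) (l 532421903)))) (a (a (l 532436751) (l 532419855)) (a (l 532402703) (l 532385807)))) (a (b (a (b (l 532428047) (l 532405007)) (b (l 532411407) (l 4))) (l 4)) (b (b (l 532386063) (l 4)) (l 4)))) (b (b (a (a (l 532390415) (l 4)) (l 4)) (l 4)) (l 4)))) (a (a (b (a (b (l 532729615) (l 4)) (l 4)) (l 4)) (l 4)) (l 4))) (l 4)) (l 4)) (l 4)), by decide +kernel⟩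

def k21_A00mm_202_s3 : ∃ t, chk3 f_A00mm_202_s3 t 1 3 1 = true :=
  ⟨(b (a (a (a (b (b (l 6) (l 16692744)) (b (l 16716928) (a (l 16646864) (l 16662296)))) (a (b (b (l 16604160) (l 16632168)) (b (l 16657168) (l 16763464))) (b (b (l 16622408) (l 16734720)) (b (b (l 16670368) (l 16682336)) (c (l 16740808) (l 16742184)))))) (a (b (b (a (l 16727256) (b (l 16659248) (l 16674152))) (a (b (l 16665200) (l 16679120)) (b (l 16688872) (l 16744984)))) (a (b (b (l 16692360) (l 16704744)) (a (l 534083599) (l 534024207))) (b (b (l 533914127) (l 533933071)) (l 533931279)))) (b (a (b (a (b (l 16678256) (l 16693224)) (b (l 16691808) (l 16706808))) (a (b (l 16708040) (l 16764272)) (b (l 16742624) (l 533664783)))) (b (a (b (l 16727024) (b (l 16717288) (l 16724800))) (b (l 532503311) (l 532535055))) (a (b (b (l 16753216) (l 16755280)) (a (l 533591055) (l 533534735))) (c (b (l 533366543) (l 533421583)) (l 533453839))))) (a (b (b (a (l 533803023)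 (a (l 533743375) (l 533701135))) (a (l 533831183) (l 533757455))) (a (l 533831951) (l 533763343))) (b (b (a (c (l 533596431) (l 533658383)) (l 533507087)) (a (c (l 533658895) (l 533719567)) (l 4))) (a (a (l 533710095) (l 4)) (l 4))))))) (a (a (b (a (b (a (b (l 533210127) (l 533237519)) (b (a (l 533137935) (l 532288015)) (a (l 533132047) (l 533101583)))) (a (b (l 533281295) (c (l 533306383) (l 533368079))) (b (l 533171215) (l 4)))) (b (a (b (a (l 533047055) (l 533003023)) (b (l 533029903) (l 4))) (b (a (b (l 532957199) (l 4)) (l 4)) (l 4))) (l 4))) (l 4)) (l 4)) (l 4))) (a (a (l 2) (a (l 2) (a (l 2) (l 4)))) (l 4))), by decide +kernel⟩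

theorem t22_A00mm_202_s3 : ∃ t, chk3 f_A00mm_202_s3 t 13 10 1 = true := ex3_a k17_A00mm_202_s3 k18_A00mm_202_s3

theorem t23_A00mm_202_s3 : ∃ t, chk3 f_A00mm_202_s3 t 13 5 1 = true := ex3_b t22_A00mm_202_s3 k19_A00mm_202_s3

theorem t24_A00mm_202_s3 : ∃ t, chk3 f_A00mm_202_s3 t 6 5 1 = true := ex3_a k16_A00mm_202_s3 t23_A00mm_202_s3

theorem t25_A00mm_202_s3 : ∃ t, chk3 f_A00mm_202_s3 t 3 5 1 = true := ex3_a t24_A00mm_202_s3 k20_A00mm_202_s3

theorem t26_A00mm_202_s3 : ∃ t, chk3 f_A00mm_202_s3 t 7 18 1 = true := ex3_a k13_A00mm_202_s3 k14_A00mm_202_s3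

theorem t27_A00mm_202_s3 : ∃ t, chk3 f_A00mm_202_s3 t 7 9 1 = true := ex3_b t26_A00mm_202_s3 k15_A00mm_202_s3

theorem t28_A00mm_202_s3 : ∃ t, chk3 f_A00mm_202_s3 t 14 17 1 = true := ex3_a k10_A00mm_202_s3 k11_A00mm_202_s3

theorem t29_A00mm_202_s3 : ∃ t, chk3 f_A00mm_202_s3 t 7 17 1 = true := ex3_a t28_A00mm_202_s3 k12_A00mm_202_s3

theorem t30_A00mm_202_s3 : ∃ t, chk3 f_A00mm_202_s3 t 14 16 1 = true := ex3_a k7_A00mm_202_s3 k8_A00mm_202_s3

theorem t31_A00mm_202_s3 : ∃ t, chk3 f_A00mm_202_s3 t 7 16 1 = true := ex3_a t30_A00mm_202_s3 k9_A00mm_202_s3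

theorem t32_A00mm_202_s3 : ∃ t, chk3 f_A00mm_202_s3 t 7 8 1 = true := ex3_b t31_A00mm_202_s3 t29_A00mm_202_s3

theorem t33_A00mm_202_s3 : ∃ t, chk3 f_A00mm_202_s3 t 7 4 1 = true := ex3_b t32_A00mm_202_s3 t27_A00mm_202_s3

theorem t34_A00mm_202_s3 : ∃ t, chk3 f_A00mm_202_s3 t 13 9 1 = true := ex3_a k5_A00mm_202_s3 k6_A00mm_202_s3

theorem t35_A00mm_202_s3 : ∃ t, chk3 f_A00mm_202_s3 t 6 9 1 = true := ex3_a k4_A00mm_202_s3 t34_A00mm_202_s3

theorem t36_A00mm_202_s3 : ∃ t, chk3 f_A00mm_202_s3 t 13 8 1 = true := ex3_b k2_A00mm_202_s3 k3_A00mm_202_s3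

theorem t37_A00mm_202_s3 : ∃ t, chk3 f_A00mm_202_s3 t 6 8 1 = true := ex3_a k1_A00mm_202_s3 t36_A00mm_202_s3

theorem t38_A00mm_202_s3 : ∃ t, chk3 f_A00mm_202_s3 t 6 4 1 = true := ex3_b t37_A00mm_202_s3 t35_A00mm_202_s3

theorem t39_A00mm_202_s3 : ∃ t, chk3 f_A00mm_202_s3 t 3 4 1 = true := ex3_a t38_A00mm_202_s3 t33_A00mm_202_s3

theorem t40_A00mm_202_s3 : ∃ t, chk3 f_A00mm_202_s3 t 3 2 1 = true := ex3_b t39_A00mm_202_s3 t25_A00mm_202_s3

theorem t41_A00mm_202_s3 : ∃ t, chk3 f_A00mm_202_s3 t 1 2 1 = true := ex3_a k0_A00mm_202_s3 t40_A00mm_202_s3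

theorem t42_A00mm_202_s3 : ∃ t, chk3 f_A00mm_202_s3 t 1 1 1 = true := ex3_b t41_A00mm_202_s3 k21_A00mm_202_s3

theorem c_A00mm_202_s3 : CertF 0 536870912 0 536870912 780900216 37827925 true false false .pp 2 0 2
    ndB0q2 ndB0q0 pcB2 cut_A00mm_202_s3 xt_A00mm_202_s3 :=
  certF0 (fam := true) (s1 := false) (s2 := false) (a := 2) (b := 0) (c := 2) (cn := .pp) (n1 := ndB0q2) (n2 := ndB0q0) (pc := pcB2) (cut := cut_A00mm_202_s3) (xt := xt_A00mm_202_s3) (P1 := 0) (W1 := 536870912) (P2 := 0) (W2 := 536870912) (P3 := 780900216) (W3 := 37827925)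
    rfl t42_A00mm_202_s3

theorem s_A00mm_202_s3 {κ x : ℝ} (hκ : κ * h0 = ken x) (hx : ((780900216 : ℕ) : ℝ) / S ≤ x)
    (hx' : x ≤ (((780900216 : ℕ) : ℝ) + (37827925 : ℕ)) / S)
    (H : CutA (VFD κ) PP tK tL pcB (Cut.of [[⟨0, 1, 0, 67108864⟩, ⟨1, 0, 0, 67108864⟩, ⟨2, 1, 0, 67108864⟩]]) 2 0 2 0 0 (sgb false) (sgb false) x) :
    AltA (VFD κ) PP tK tL pcB [⟨4, 0, 0, 2845415833⟩] 2 0 2 0 0 (sgb false) (sgb false) x :=
  strip_altAD (m := 2845415833) false rfl hκ (SH.κ0 hκ (SH.hx1 hx).le (SH.hx2 hx').le) (SH.hx1 hx).le (SH.hx2 hx') (covB02).cov (covB00).cov hx hx' c_A00mm_202_s3 H ((okx hx hx').extA (T := tt) (sideB hx hx') hκ rfl rfl (.O 2 false) (.O 0 false) (Or.inl rfl))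

noncomputable def cut_A00mm_203_s1 : Cut := Cut.of [[⟨4, 0, 0, 1449551462⟩]]

noncomputable def f_A00mm_203_s1 : ℕ → ℕ → ℕ → ℕ → Bool := onCell 0 536870912 0 536870912 780900216 37827925
    (rowF 0 true false false .up 2 0 3 (qsf 0 536870912 0 536870912 3) ndB0q2 ndB0q0 pcB3 cut_A00mm_203_s1 Ext.none)

def k0_A00mm_203_s1 : ∃ t, chk3 f_A00mm_203_s1 t 1 1 1 = true :=
  ⟨(l 6), by decide +kernel⟩

theorem c_A00mm_203_s1 : CertF 0 536870912 0 536870912 780900216 37827925 true false false .up 2 0 3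
    ndB0q2 ndB0q0 pcB3 cut_A00mm_203_s1 Ext.none :=
  certF0 (fam := true) (s1 := false) (s2 := false) (a := 2) (b := 0) (c := 3) (cn := .up) (n1 := ndB0q2) (n2 := ndB0q0) (pc := pcB3) (cut := cut_A00mm_203_s1) (xt := Ext.none) (P1 := 0) (W1 := 536870912) (P2 := 0) (W2 := 536870912) (P3 := 780900216) (W3 := 37827925)
    rfl k0_A00mm_203_s1

theorem s_A00mm_203_s1 {κ x : ℝ} (hκ : κ * h0 = ken x) (hx : ((780900216 : ℕ) : ℝ) / S ≤ x)
    (hx' : x ≤ (((780900216 : ℕ) : ℝ) + (37827925 : ℕ)) / S) :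
    AltA (VFD κ) PP tK tL pcB [⟨3, 0, 0, 1449551462⟩] 2 0 3 0 0 (sgb false) (sgb false) x :=
  strip_altAD (m := 1449551462) true rfl hκ (SH.κ0 hκ (SH.hx1 hx).le (SH.hx2 hx').le) (SH.hx1 hx).le (SH.hx2 hx') (covB02).cov (covB00).cov hx hx' c_A00mm_203_s1 cutA_nil (noExt_A)

noncomputable def cut_A00mm_203_s3 : Cut := Cut.of [[⟨3, 0, 0, 2845415833⟩]]

noncomputable def xt_A00mm_203_s3 : Ext := strExt dd true false false .u2 .u0m .s2m .up 2 0 3 rfl rfl gl3 vv ndB0q2 ndB0q0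

noncomputable def f_A00mm_203_s3 : ℕ → ℕ → ℕ → ℕ → Bool := onCell 0 536870912 1610612736 536870912 780900216 37827925
    (rowF 1 true false false .up 2 0 3 (qsf 0 536870912 0 536870912 3) ndB0q2 ndB0q0 pcB3 cut_A00mm_203_s3 xt_A00mm_203_s3)

def k0_A00mm_203_s3 : ∃ t, chk3 f_A00mm_203_s3 t 1 1 1 = true :=
  ⟨(a (b (b (a (b (a (b (b (l 16640992) (l 16655496)) (b (l 16752696) (l 16764928))) (a (b (b (l 16671432) (l 16685240)) (b (l 16698112) (l 16752152))) (b (b (l 16779704) (l 16751192)) (a (b (l 16715472) (l 16727544)) (b (l 16770400) (l 534087695)))))) (a (b (a (l 16772728) (b (l 16701352) (l 16712136))) (a (b (l 16703480) (l 16714056)) (b (l 16764416) (l 534513935)))) (b (a (b (l 16763664) (c (l 16775088) (l 16774496))) (a (b (l 534169103) (l 534157071)) (b (l 534084111) (l 534042895)))) (a (c (b (l 534339087) (l 534327823)) (b (l 534322959) (l 534386191))) (a (b (l 534140687) (l 534186767)) (l 534048271)))))) (a (a (b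 (b (a (l 533961999) (l 533902095)) (a (b (l 534013455) (l 534023951)) (b (l 533954575) (l 533966351)))) (b (c (a (l 533997583) (l 533943823)) (a (l 533992719) (l 533939471))) (l 4))) (b (b (l 533808655) (l 533870863)) (l 4))) (b (a (b (a (l 533710863) (l 4)) (l 4)) (l 4)) (l 4)))) (a (b (a (b (a (b (l 16725640) (l 16778456)) (a (l 534660879) (l 534588431))) (l 2)) (b (a (b (l 534416655) (l 534501903)) (c (l 534202127) (a (l 534343439) (l 4)))) (l 2))) (l 2)) (l 4))) (l 2)) (b (l 4) (l 2))), by decide +kernel⟩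

theorem c_A00mm_203_s3 : CertF 0 536870912 0 536870912 780900216 37827925 true false false .up 2 0 3
    ndB0q2 ndB0q0 pcB3 cut_A00mm_203_s3 xt_A00mm_203_s3 :=
  certF1 (fam := true) (s1 := false) (s2 := false) (a := 2) (b := 0) (c := 3) (cn := .up) (n1 := ndB0q2) (n2 := ndB0q0) (pc := pcB3) (cut := cut_A00mm_203_s3) (xt := xt_A00mm_203_s3) (P1 := 0) (W1 := 536870912) (P2 := 0) (W2 := 536870912) (P3 := 780900216) (W3 := 37827925)
    rfl (fun _ => rfl) k0_A00mm_203_s3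

theorem s_A00mm_203_s3 {κ x : ℝ} (hκ : κ * h0 = ken x) (hx : ((780900216 : ℕ) : ℝ) / S ≤ x)
    (hx' : x ≤ (((780900216 : ℕ) : ℝ) + (37827925 : ℕ)) / S) :
    AltA (VFD κ) PP tK tL pcB [⟨4, 0, 0, 2845415833⟩] 2 0 3 0 0 (sgb false) (sgb false) x :=
  strip_altAD (m := 2845415833) false rfl hκ (SH.κ0 hκ (SH.hx1 hx).le (SH.hx2 hx').le) (SH.hx1 hx).le (SH.hx2 hx') (covB02).cov (covB00).cov hx hx' c_A00mm_203_s3 cutA_nil ((okx hx hx').extA (T := tt) (sideB hx hx') hκ rfl rfl (.O 2 false) (.O 0 false) (Or.inr rfl))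

noncomputable def cut_A00mm_213_s1 : Cut := Cut.of [[⟨4, 0, 0, 1449551462⟩]]

noncomputable def f_A00mm_213_s1 : ℕ → ℕ → ℕ → ℕ → Bool := onCell 0 536870912 536870912 536870912 780900216 37827925
    (rowF 0 true false false .pnn 2 1 3 (qsf 0 536870912 536870912 536870912 3) ndB0q2 ndB0q1 pcB3 cut_A00mm_213_s1 Ext.none)

def k0_A00mm_213_s1 : ∃ t, chk3 f_A00mm_213_s1 t 1 1 1 = true :=
  ⟨(l 6), by decide +kernel⟩

theorem c_A00mm_213_s1 : CertF 0 536870912 536870912 536870912 780900216 37827925 true false false .pnn 2 1 3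
    ndB0q2 ndB0q1 pcB3 cut_A00mm_213_s1 Ext.none :=
  certF0 (fam := true) (s1 := false) (s2 := false) (a := 2) (b := 1) (c := 3) (cn := .pnn) (n1 := ndB0q2) (n2 := ndB0q1) (pc := pcB3) (cut := cut_A00mm_213_s1) (xt := Ext.none) (P1 := 0) (W1 := 536870912) (P2 := 536870912) (W2 := 536870912) (P3 := 780900216) (W3 := 37827925)
    rfl k0_A00mm_213_s1

theorem s_A00mm_213_s1 {κ x : ℝ} (hκ : κ * h0 = ken x) (hx : ((780900216 : ℕ) : ℝ) / S ≤ x)
    (hx' : x ≤ (((780900216 : ℕ) : ℝ) + (37827925 : ℕ)) / S) :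
    AltA (VFD κ) PP tK tL pcB [⟨3, 0, 0, 1449551462⟩] 2 1 3 0 0 (sgb false) (sgb false) x :=
  strip_altAD (m := 1449551462) true rfl hκ (SH.κ0 hκ (SH.hx1 hx).le (SH.hx2 hx').le) (SH.hx1 hx).le (SH.hx2 hx') (covB02).cov (covB01).cov hx hx' c_A00mm_213_s1 cutA_nil (noExt_A)

noncomputable def cut_A00mm_213_s3 : Cut := Cut.of [[⟨3, 0, 0, 2845415833⟩]]

noncomputable def xt_A00mm_213_s3 : Ext := strExt dd true false false .u2 .u0m .s2m .pnn 2 1 3 rfl rfl gl3 vv ndB0q2 ndB0q1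

noncomputable def f_A00mm_213_s3 : ℕ → ℕ → ℕ → ℕ → Bool := onCell 0 536870912 536870912 536870912 780900216 37827925
    (rowF 0 true false false .pnn 2 1 3 (qsf 0 536870912 536870912 536870912 3) ndB0q2 ndB0q1 pcB3 cut_A00mm_213_s3 xt_A00mm_213_s3)

def k0_A00mm_213_s3 : ∃ t, chk3 f_A00mm_213_s3 t 1 1 1 = true :=
  ⟨(a (b (b (a (b (a (b (a (l 534819343) (b (l 534736655) (l 534759439))) (l 534845711)) (a (b (b (l 534559503) (l 4)) (l 4)) (l 4))) (a (b (l 534922511) (l 4)) (l 4))) (l 4)) (l 4)) (l 4)) (l 4)), by decide +kernel⟩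

theorem c_A00mm_213_s3 : CertF 0 536870912 536870912 536870912 780900216 37827925 true false false .pnn 2 1 3
    ndB0q2 ndB0q1 pcB3 cut_A00mm_213_s3 xt_A00mm_213_s3 :=
  certF0 (fam := true) (s1 := false) (s2 := false) (a := 2) (b := 1) (c := 3) (cn := .pnn) (n1 := ndB0q2) (n2 := ndB0q1) (pc := pcB3) (cut := cut_A00mm_213_s3) (xt := xt_A00mm_213_s3) (P1 := 0) (W1 := 536870912) (P2 := 536870912) (W2 := 536870912) (P3 := 780900216) (W3 := 37827925)
    rfl k0_A00mm_213_s3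

theorem s_A00mm_213_s3 {κ x : ℝ} (hκ : κ * h0 = ken x) (hx : ((780900216 : ℕ) : ℝ) / S ≤ x)
    (hx' : x ≤ (((780900216 : ℕ) : ℝ) + (37827925 : ℕ)) / S) :
    AltA (VFD κ) PP tK tL pcB [⟨4, 0, 0, 2845415833⟩] 2 1 3 0 0 (sgb false) (sgb false) x :=
  strip_altAD (m := 2845415833) false rfl hκ (SH.κ0 hκ (SH.hx1 hx).le (SH.hx2 hx').le) (SH.hx1 hx).le (SH.hx2 hx') (covB02).cov (covB01).cov hx hx' c_A00mm_213_s3 cutA_nil ((okx hx hx').extA (T := tt) (sideB hx hx') hκ rfl rfl (.O 2 false) (.O 1 false) (Or.inr rfl))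

noncomputable def cut_A05pp_001_s1 : Cut := Cut.of [[⟨4, 0, 0, 1449551462⟩]]

noncomputable def f_A05pp_001_s1 : ℕ → ℕ → ℕ → ℕ → Bool := onCell 0 536870912 0 536870912 780900216 37827925
    (rowF 0 true true true .up 0 0 1 (qsf 0 536870912 0 536870912 1) ndB0q0 ndB5q0 pcB1 cut_A05pp_001_s1 Ext.none)

def k0_A05pp_001_s1 : ∃ t, chk3 f_A05pp_001_s1 t 1 1 1 = true :=
  ⟨(l 4), by decide +kernel⟩

theorem c_A05pp_001_s1 : CertF 0 536870912 0 536870912 780900216 37827925 true true true .up 0 0 1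
    ndB0q0 ndB5q0 pcB1 cut_A05pp_001_s1 Ext.none :=
  certF0 (fam := true) (s1 := true) (s2 := true) (a := 0) (b := 0) (c := 1) (cn := .up) (n1 := ndB0q0) (n2 := ndB5q0) (pc := pcB1) (cut := cut_A05pp_001_s1) (xt := Ext.none) (P1 := 0) (W1 := 536870912) (P2 := 0) (W2 := 536870912) (P3 := 780900216) (W3 := 37827925)
    rfl k0_A05pp_001_s1

theorem s_A05pp_001_s1 {κ x : ℝ} (hκ : κ * h0 = ken x) (hx : ((780900216 : ℕ) : ℝ) / S ≤ x)
    (hx' : x ≤ (((780900216 : ℕ) : ℝ) + (37827925 : ℕ)) / S) :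
    AltA (VFD κ) PP tK tL pcB [⟨3, 0, 0, 1449551462⟩] 0 0 1 0 5 (sgb true) (sgb true) x :=
  strip_altAD (m := 1449551462) true rfl hκ (SH.κ0 hκ (SH.hx1 hx).le (SH.hx2 hx').le) (SH.hx1 hx).le (SH.hx2 hx') (covB00).cov (covB50).cov hx hx' c_A05pp_001_s1 cutA_nil (noExt_A)

noncomputable def cut_A05pp_011_s1 : Cut := Cut.of [[⟨4, 0, 0, 1449551462⟩]]

noncomputable def f_A05pp_011_s1 : ℕ → ℕ → ℕ → ℕ → Bool := onCell 0 536870912 536870912 536870912 780900216 37827925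
    (rowF 0 true true true .pnn 0 1 1 (qsf 0 536870912 536870912 536870912 1) ndB0q0 ndB5q1 pcB1 cut_A05pp_011_s1 Ext.none)

def k0_A05pp_011_s1 : ∃ t, chk3 f_A05pp_011_s1 t 1 1 1 = true :=
  ⟨(l 4), by decide +kernel⟩

theorem c_A05pp_011_s1 : CertF 0 536870912 536870912 536870912 780900216 37827925 true true true .pnn 0 1 1
    ndB0q0 ndB5q1 pcB1 cut_A05pp_011_s1 Ext.none :=
  certF0 (fam := true) (s1 := true) (s2 := true) (a := 0) (b := 1) (c := 1) (cn := .pnn) (n1 := ndB0q0) (n2 := ndB5q1) (pc := pcB1) (cut := cut_A05pp_011_s1) (xt := Ext.none) (P1 := 0) (W1 := 536870912) (P2 := 536870912) (W2 := 536870912) (P3 := 780900216) (W3 := 37827925)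
    rfl k0_A05pp_011_s1

theorem s_A05pp_011_s1 {κ x : ℝ} (hκ : κ * h0 = ken x) (hx : ((780900216 : ℕ) : ℝ) / S ≤ x)
    (hx' : x ≤ (((780900216 : ℕ) : ℝ) + (37827925 : ℕ)) / S) :
    AltA (VFD κ) PP tK tL pcB [⟨3, 0, 0, 1449551462⟩] 0 1 1 0 5 (sgb true) (sgb true) x :=
  strip_altAD (m := 1449551462) true rfl hκ (SH.κ0 hκ (SH.hx1 hx).le (SH.hx2 hx').le) (SH.hx1 hx).le (SH.hx2 hx') (covB00).cov (covB51).cov hx hx' c_A05pp_011_s1 cutA_nil (noExt_A)

noncomputable def cut_A05pp_012_s1 : Cut := Cut.of [[⟨4, 0, 0, 1449551462⟩]]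

noncomputable def f_A05pp_012_s1 : ℕ → ℕ → ℕ → ℕ → Bool := onCell 0 536870912 536870912 536870912 780900216 37827925
    (rowF 0 true true true .pnp 0 1 2 (qsf 0 536870912 536870912 536870912 2) ndB0q0 ndB5q1 pcB2 cut_A05pp_012_s1 Ext.none)

def k0_A05pp_012_s1 : ∃ t, chk3 f_A05pp_012_s1 t 1 1 1 = true :=
  ⟨(l 4), by decide +kernel⟩

theorem c_A05pp_012_s1 : CertF 0 536870912 536870912 536870912 780900216 37827925 true true true .pnp 0 1 2
    ndB0q0 ndB5q1 pcB2 cut_A05pp_012_s1 Ext.none :=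
  certF0 (fam := true) (s1 := true) (s2 := true) (a := 0) (b := 1) (c := 2) (cn := .pnp) (n1 := ndB0q0) (n2 := ndB5q1) (pc := pcB2) (cut := cut_A05pp_012_s1) (xt := Ext.none) (P1 := 0) (W1 := 536870912) (P2 := 536870912) (W2 := 536870912) (P3 := 780900216) (W3 := 37827925)
    rfl k0_A05pp_012_s1

theorem s_A05pp_012_s1 {κ x : ℝ} (hκ : κ * h0 = ken x) (hx : ((780900216 : ℕ) : ℝ) / S ≤ x)
    (hx' : x ≤ (((780900216 : ℕ) : ℝ) + (37827925 : ℕ)) / S) :
    AltA (VFD κ) PP tK tL pcB [⟨3, 0, 0, 1449551462⟩] 0 1 2 0 5 (sgb true) (sgb true) x :=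
  strip_altAD (m := 1449551462) true rfl hκ (SH.κ0 hκ (SH.hx1 hx).le (SH.hx2 hx').le) (SH.hx1 hx).le (SH.hx2 hx') (covB00).cov (covB51).cov hx hx' c_A05pp_012_s1 cutA_nil (noExt_A)

noncomputable def cut_A05pp_022_s1 : Cut := Cut.of [[⟨4, 0, 0, 1449551462⟩]]

noncomputable def f_A05pp_022_s1 : ℕ → ℕ → ℕ → ℕ → Bool := onCell 0 536870912 1073741824 536870912 780900216 37827925
    (rowF 0 true true true .pp 0 2 2 (qsf 0 536870912 1073741824 536870912 2) ndB0q0 ndB5q2 pcB2 cut_A05pp_022_s1 Ext.none)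

def k0_A05pp_022_s1 : ∃ t, chk3 f_A05pp_022_s1 t 1 1 1 = true :=
  ⟨(l 4), by decide +kernel⟩

theorem c_A05pp_022_s1 : CertF 0 536870912 1073741824 536870912 780900216 37827925 true true true .pp 0 2 2
    ndB0q0 ndB5q2 pcB2 cut_A05pp_022_s1 Ext.none :=
  certF0 (fam := true) (s1 := true) (s2 := true) (a := 0) (b := 2) (c := 2) (cn := .pp) (n1 := ndB0q0) (n2 := ndB5q2) (pc := pcB2) (cut := cut_A05pp_022_s1) (xt := Ext.none) (P1 := 0) (W1 := 536870912) (P2 := 1073741824) (W2 := 536870912) (P3 := 780900216) (W3 := 37827925)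
    rfl k0_A05pp_022_s1

theorem s_A05pp_022_s1 {κ x : ℝ} (hκ : κ * h0 = ken x) (hx : ((780900216 : ℕ) : ℝ) / S ≤ x)
    (hx' : x ≤ (((780900216 : ℕ) : ℝ) + (37827925 : ℕ)) / S) :
    AltA (VFD κ) PP tK tL pcB [⟨3, 0, 0, 1449551462⟩] 0 2 2 0 5 (sgb true) (sgb true) x :=
  strip_altAD (m := 1449551462) true rfl hκ (SH.κ0 hκ (SH.hx1 hx).le (SH.hx2 hx').le) (SH.hx1 hx).le (SH.hx2 hx') (covB00).cov (covB52).cov hx hx' c_A05pp_022_s1 cutA_nil (noExt_A)

noncomputable def cut_A05pp_023_s1 : Cut := Cut.of [[⟨4, 0, 0, 1449551462⟩]]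

noncomputable def f_A05pp_023_s1 : ℕ → ℕ → ℕ → ℕ → Bool := onCell 0 536870912 1073741824 536870912 780900216 37827925
    (rowF 0 true true true .up 0 2 3 (qsf 0 536870912 1073741824 536870912 3) ndB0q0 ndB5q2 pcB3 cut_A05pp_023_s1 Ext.none)

def k0_A05pp_023_s1 : ∃ t, chk3 f_A05pp_023_s1 t 1 1 1 = true :=
  ⟨(l 4), by decide +kernel⟩

theorem c_A05pp_023_s1 : CertF 0 536870912 1073741824 536870912 780900216 37827925 true true true .up 0 2 3
    ndB0q0 ndB5q2 pcB3 cut_A05pp_023_s1 Ext.none :=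
  certF0 (fam := true) (s1 := true) (s2 := true) (a := 0) (b := 2) (c := 3) (cn := .up) (n1 := ndB0q0) (n2 := ndB5q2) (pc := pcB3) (cut := cut_A05pp_023_s1) (xt := Ext.none) (P1 := 0) (W1 := 536870912) (P2 := 1073741824) (W2 := 536870912) (P3 := 780900216) (W3 := 37827925)
    rfl k0_A05pp_023_s1

theorem s_A05pp_023_s1 {κ x : ℝ} (hκ : κ * h0 = ken x) (hx : ((780900216 : ℕ) : ℝ) / S ≤ x)
    (hx' : x ≤ (((780900216 : ℕ) : ℝ) + (37827925 : ℕ)) / S) :
    AltA (VFD κ) PP tK tL pcB [⟨3, 0, 0, 1449551462⟩] 0 2 3 0 5 (sgb true) (sgb true) x :=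
  strip_altAD (m := 1449551462) true rfl hκ (SH.κ0 hκ (SH.hx1 hx).le (SH.hx2 hx').le) (SH.hx1 hx).le (SH.hx2 hx') (covB00).cov (covB52).cov hx hx' c_A05pp_023_s1 cutA_nil (noExt_A)

noncomputable def cut_A05pp_033_s1 : Cut := Cut.of [[⟨4, 0, 0, 1449551462⟩]]

noncomputable def f_A05pp_033_s1 : ℕ → ℕ → ℕ → ℕ → Bool := onCell 0 536870912 0 1230186008 780900216 37827925
    (rowF 0 true true true .pnn 0 3 3 (qsf 0 536870912 0 1230186008 3) ndB0q0 ndB5q3 pcB3 cut_A05pp_033_s1 Ext.none)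

def k0_A05pp_033_s1 : ∃ t, chk3 f_A05pp_033_s1 t 1 1 1 = true :=
  ⟨(l 4), by decide +kernel⟩

theorem c_A05pp_033_s1 : CertF 0 536870912 0 1230186008 780900216 37827925 true true true .pnn 0 3 3
    ndB0q0 ndB5q3 pcB3 cut_A05pp_033_s1 Ext.none :=
  certF0 (fam := true) (s1 := true) (s2 := true) (a := 0) (b := 3) (c := 3) (cn := .pnn) (n1 := ndB0q0) (n2 := ndB5q3) (pc := pcB3) (cut := cut_A05pp_033_s1) (xt := Ext.none) (P1 := 0) (W1 := 536870912) (P2 := 0) (W2 := 1230186008) (P3 := 780900216) (W3 := 37827925)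
    rfl k0_A05pp_033_s1

theorem s_A05pp_033_s1 {κ x : ℝ} (hκ : κ * h0 = ken x) (hx : ((780900216 : ℕ) : ℝ) / S ≤ x)
    (hx' : x ≤ (((780900216 : ℕ) : ℝ) + (37827925 : ℕ)) / S) :
    AltA (VFD κ) PP tK tL pcB [⟨3, 0, 0, 1449551462⟩] 0 3 3 0 5 (sgb true) (sgb true) x :=
  strip_altAD (m := 1449551462) true rfl hκ (SH.κ0 hκ (SH.hx1 hx).le (SH.hx2 hx').le) (SH.hx1 hx).le (SH.hx2 hx') (covB00).cov (covB53).cov hx hx' c_A05pp_033_s1 cutA_nil (noExt_A)

noncomputable def cut_A05pp_101_s1 : Cut := Cut.of [[⟨4, 0, 0, 1449551462⟩]]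

noncomputable def f_A05pp_101_s1 : ℕ → ℕ → ℕ → ℕ → Bool := onCell 536870912 536870912 0 536870912 780900216 37827925
    (rowF 0 true true true .npn 1 0 1 (qsf 536870912 536870912 0 536870912 1) ndB0q1 ndB5q0 pcB1 cut_A05pp_101_s1 Ext.none)

def k0_A05pp_101_s1 : ∃ t, chk3 f_A05pp_101_s1 t 1 1 1 = true :=
  ⟨(l 4), by decide +kernel⟩

theorem c_A05pp_101_s1 : CertF 536870912 536870912 0 536870912 780900216 37827925 true true true .npn 1 0 1
    ndB0q1 ndB5q0 pcB1 cut_A05pp_101_s1 Ext.none :=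
  certF0 (fam := true) (s1 := true) (s2 := true) (a := 1) (b := 0) (c := 1) (cn := .npn) (n1 := ndB0q1) (n2 := ndB5q0) (pc := pcB1) (cut := cut_A05pp_101_s1) (xt := Ext.none) (P1 := 536870912) (W1 := 536870912) (P2 := 0) (W2 := 536870912) (P3 := 780900216) (W3 := 37827925)
    rfl k0_A05pp_101_s1

theorem s_A05pp_101_s1 {κ x : ℝ} (hκ : κ * h0 = ken x) (hx : ((780900216 : ℕ) : ℝ) / S ≤ x)
    (hx' : x ≤ (((780900216 : ℕ) : ℝ) + (37827925 : ℕ)) / S) :
    AltA (VFD κ) PP tK tL pcB [⟨3, 0, 0, 1449551462⟩] 1 0 1 0 5 (sgb true) (sgb true) x :=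
  strip_altAD (m := 1449551462) true rfl hκ (SH.κ0 hκ (SH.hx1 hx).le (SH.hx2 hx').le) (SH.hx1 hx).le (SH.hx2 hx') (covB01).cov (covB50).cov hx hx' c_A05pp_101_s1 cutA_nil (noExt_A)

noncomputable def cut_A05pp_102_s1 : Cut := Cut.of [[⟨4, 0, 0, 1449551462⟩]]

noncomputable def f_A05pp_102_s1 : ℕ → ℕ → ℕ → ℕ → Bool := onCell 536870912 536870912 0 536870912 780900216 37827925
    (rowF 0 true true true .npp 1 0 2 (qsf 536870912 536870912 0 536870912 2) ndB0q1 ndB5q0 pcB2 cut_A05pp_102_s1 Ext.none)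

def k0_A05pp_102_s1 : ∃ t, chk3 f_A05pp_102_s1 t 1 1 1 = true :=
  ⟨(l 4), by decide +kernel⟩

theorem c_A05pp_102_s1 : CertF 536870912 536870912 0 536870912 780900216 37827925 true true true .npp 1 0 2
    ndB0q1 ndB5q0 pcB2 cut_A05pp_102_s1 Ext.none :=
  certF0 (fam := true) (s1 := true) (s2 := true) (a := 1) (b := 0) (c := 2) (cn := .npp) (n1 := ndB0q1) (n2 := ndB5q0) (pc := pcB2) (cut := cut_A05pp_102_s1) (xt := Ext.none) (P1 := 536870912) (W1 := 536870912) (P2 := 0) (W2 := 536870912) (P3 := 780900216) (W3 := 37827925)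
    rfl k0_A05pp_102_s1

theorem s_A05pp_102_s1 {κ x : ℝ} (hκ : κ * h0 = ken x) (hx : ((780900216 : ℕ) : ℝ) / S ≤ x)
    (hx' : x ≤ (((780900216 : ℕ) : ℝ) + (37827925 : ℕ)) / S) :
    AltA (VFD κ) PP tK tL pcB [⟨3, 0, 0, 1449551462⟩] 1 0 2 0 5 (sgb true) (sgb true) x :=
  strip_altAD (m := 1449551462) true rfl hκ (SH.κ0 hκ (SH.hx1 hx).le (SH.hx2 hx').le) (SH.hx1 hx).le (SH.hx2 hx') (covB01).cov (covB50).cov hx hx' c_A05pp_102_s1 cutA_nil (noExt_A)

noncomputable def cut_A05pp_112_s1 : Cut := Cut.of [[⟨4, 0, 0, 1449551462⟩]]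

noncomputable def f_A05pp_112_s1 : ℕ → ℕ → ℕ → ℕ → Bool := onCell 536870912 536870912 536870912 536870912 780900216 37827925
    (rowF 0 true true true .dn 1 1 2 (qsf 536870912 536870912 536870912 536870912 2) ndB0q1 ndB5q1 pcB2 cut_A05pp_112_s1 Ext.none)

def k0_A05pp_112_s1 : ∃ t, chk3 f_A05pp_112_s1 t 1 1 1 = true :=
  ⟨(l 4), by decide +kernel⟩

theorem c_A05pp_112_s1 : CertF 536870912 536870912 536870912 536870912 780900216 37827925 true true true .dn 1 1 2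
    ndB0q1 ndB5q1 pcB2 cut_A05pp_112_s1 Ext.none :=
  certF0 (fam := true) (s1 := true) (s2 := true) (a := 1) (b := 1) (c := 2) (cn := .dn) (n1 := ndB0q1) (n2 := ndB5q1) (pc := pcB2) (cut := cut_A05pp_112_s1) (xt := Ext.none) (P1 := 536870912) (W1 := 536870912) (P2 := 536870912) (W2 := 536870912) (P3 := 780900216) (W3 := 37827925)
    rfl k0_A05pp_112_s1

theorem s_A05pp_112_s1 {κ x : ℝ} (hκ : κ * h0 = ken x) (hx : ((780900216 : ℕ) : ℝ) / S ≤ x)
    (hx' : x ≤ (((780900216 : ℕ) : ℝ) + (37827925 : ℕ)) / S) :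
    AltA (VFD κ) PP tK tL pcB [⟨3, 0, 0, 1449551462⟩] 1 1 2 0 5 (sgb true) (sgb true) x :=
  strip_altAD (m := 1449551462) true rfl hκ (SH.κ0 hκ (SH.hx1 hx).le (SH.hx2 hx').le) (SH.hx1 hx).le (SH.hx2 hx') (covB01).cov (covB51).cov hx hx' c_A05pp_112_s1 cutA_nil (noExt_A)

noncomputable def cut_A05pp_113_s1 : Cut := Cut.of [[⟨4, 0, 0, 1449551462⟩]]

noncomputable def f_A05pp_113_s1 : ℕ → ℕ → ℕ → ℕ → Bool := onCell 536870912 536870912 536870912 536870912 780900216 37827925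
    (rowF 0 true true true .nn 1 1 3 (qsf 536870912 536870912 536870912 536870912 3) ndB0q1 ndB5q1 pcB3 cut_A05pp_113_s1 Ext.none)

def k0_A05pp_113_s1 : ∃ t, chk3 f_A05pp_113_s1 t 1 1 1 = true :=
  ⟨(l 4), by decide +kernel⟩

theorem c_A05pp_113_s1 : CertF 536870912 536870912 536870912 536870912 780900216 37827925 true true true .nn 1 1 3
    ndB0q1 ndB5q1 pcB3 cut_A05pp_113_s1 Ext.none :=
  certF0 (fam := true) (s1 := true) (s2 := true) (a := 1) (b := 1) (c := 3) (cn := .nn) (n1 := ndB0q1) (n2 := ndB5q1) (pc := pcB3) (cut := cut_A05pp_113_s1) (xt := Ext.none) (P1 := 536870912) (W1 := 536870912) (P2 := 536870912) (W2 := 536870912) (P3 := 780900216) (W3 := 37827925)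
    rfl k0_A05pp_113_s1

theorem s_A05pp_113_s1 {κ x : ℝ} (hκ : κ * h0 = ken x) (hx : ((780900216 : ℕ) : ℝ) / S ≤ x)
    (hx' : x ≤ (((780900216 : ℕ) : ℝ) + (37827925 : ℕ)) / S) :
    AltA (VFD κ) PP tK tL pcB [⟨3, 0, 0, 1449551462⟩] 1 1 3 0 5 (sgb true) (sgb true) x :=
  strip_altAD (m := 1449551462) true rfl hκ (SH.κ0 hκ (SH.hx1 hx).le (SH.hx2 hx').le) (SH.hx1 hx).le (SH.hx2 hx') (covB01).cov (covB51).cov hx hx' c_A05pp_113_s1 cutA_nil (noExt_A)

noncomputable def cut_A05pp_123_s1 : Cut := Cut.of [[⟨4, 0, 0, 1449551462⟩]]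

noncomputable def f_A05pp_123_s1 : ℕ → ℕ → ℕ → ℕ → Bool := onCell 536870912 536870912 1073741824 536870912 780900216 37827925
    (rowF 0 true true true .npn 1 2 3 (qsf 536870912 536870912 1073741824 536870912 3) ndB0q1 ndB5q2 pcB3 cut_A05pp_123_s1 Ext.none)

def k0_A05pp_123_s1 : ∃ t, chk3 f_A05pp_123_s1 t 1 1 1 = true :=
  ⟨(l 4), by decide +kernel⟩

theorem c_A05pp_123_s1 : CertF 536870912 536870912 1073741824 536870912 780900216 37827925 true true true .npn 1 2 3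
    ndB0q1 ndB5q2 pcB3 cut_A05pp_123_s1 Ext.none :=
  certF0 (fam := true) (s1 := true) (s2 := true) (a := 1) (b := 2) (c := 3) (cn := .npn) (n1 := ndB0q1) (n2 := ndB5q2) (pc := pcB3) (cut := cut_A05pp_123_s1) (xt := Ext.none) (P1 := 536870912) (W1 := 536870912) (P2 := 1073741824) (W2 := 536870912) (P3 := 780900216) (W3 := 37827925)
    rfl k0_A05pp_123_s1

theorem s_A05pp_123_s1 {κ x : ℝ} (hκ : κ * h0 = ken x) (hx : ((780900216 : ℕ) : ℝ) / S ≤ x)
    (hx' : x ≤ (((780900216 : ℕ) : ℝ) + (37827925 : ℕ)) / S) :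
    AltA (VFD κ) PP tK tL pcB [⟨3, 0, 0, 1449551462⟩] 1 2 3 0 5 (sgb true) (sgb true) x :=
  strip_altAD (m := 1449551462) true rfl hκ (SH.κ0 hκ (SH.hx1 hx).le (SH.hx2 hx').le) (SH.hx1 hx).le (SH.hx2 hx') (covB01).cov (covB52).cov hx hx' c_A05pp_123_s1 cutA_nil (noExt_A)

noncomputable def cut_A05pp_133_s1 : Cut := Cut.of [[⟨4, 0, 0, 1449551462⟩]]

noncomputable def f_A05pp_133_s1 : ℕ → ℕ → ℕ → ℕ → Bool := onCell 536870912 536870912 0 1230186008 780900216 37827925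
    (rowF 0 true true true .dn 1 3 3 (qsf 536870912 536870912 0 1230186008 3) ndB0q1 ndB5q3 pcB3 cut_A05pp_133_s1 Ext.none)

def k0_A05pp_133_s1 : ∃ t, chk3 f_A05pp_133_s1 t 1 1 1 = true :=
  ⟨(l 4), by decide +kernel⟩

theorem c_A05pp_133_s1 : CertF 536870912 536870912 0 1230186008 780900216 37827925 true true true .dn 1 3 3
    ndB0q1 ndB5q3 pcB3 cut_A05pp_133_s1 Ext.none :=
  certF0 (fam := true) (s1 := true) (s2 := true) (a := 1) (b := 3) (c := 3) (cn := .dn) (n1 := ndB0q1) (n2 := ndB5q3) (pc := pcB3) (cut := cut_A05pp_133_s1) (xt := Ext.none) (P1 := 536870912) (W1 := 536870912) (P2 := 0) (W2 := 1230186008) (P3 := 780900216) (W3 := 37827925)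
    rfl k0_A05pp_133_s1

theorem s_A05pp_133_s1 {κ x : ℝ} (hκ : κ * h0 = ken x) (hx : ((780900216 : ℕ) : ℝ) / S ≤ x)
    (hx' : x ≤ (((780900216 : ℕ) : ℝ) + (37827925 : ℕ)) / S) :
    AltA (VFD κ) PP tK tL pcB [⟨3, 0, 0, 1449551462⟩] 1 3 3 0 5 (sgb true) (sgb true) x :=
  strip_altAD (m := 1449551462) true rfl hκ (SH.κ0 hκ (SH.hx1 hx).le (SH.hx2 hx').le) (SH.hx1 hx).le (SH.hx2 hx') (covB01).cov (covB53).cov hx hx' c_A05pp_133_s1 cutA_nil (noExt_A)

noncomputable def cut_A05pp_202_s1 : Cut := Cut.of [[⟨4, 0, 0, 1449551462⟩]]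

noncomputable def f_A05pp_202_s1 : ℕ → ℕ → ℕ → ℕ → Bool := onCell 0 536870912 0 536870912 780900216 37827925
    (rowF 0 true true true .pp 2 0 2 (qsf 0 536870912 0 536870912 2) ndB0q2 ndB5q0 pcB2 cut_A05pp_202_s1 Ext.none)

def k0_A05pp_202_s1 : ∃ t, chk3 f_A05pp_202_s1 t 1 1 1 = true :=
  ⟨(l 4), by decide +kernel⟩

theorem c_A05pp_202_s1 : CertF 0 536870912 0 536870912 780900216 37827925 true true true .pp 2 0 2
    ndB0q2 ndB5q0 pcB2 cut_A05pp_202_s1 Ext.none :=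
  certF0 (fam := true) (s1 := true) (s2 := true) (a := 2) (b := 0) (c := 2) (cn := .pp) (n1 := ndB0q2) (n2 := ndB5q0) (pc := pcB2) (cut := cut_A05pp_202_s1) (xt := Ext.none) (P1 := 0) (W1 := 536870912) (P2 := 0) (W2 := 536870912) (P3 := 780900216) (W3 := 37827925)
    rfl k0_A05pp_202_s1

theorem s_A05pp_202_s1 {κ x : ℝ} (hκ : κ * h0 = ken x) (hx : ((780900216 : ℕ) : ℝ) / S ≤ x)
    (hx' : x ≤ (((780900216 : ℕ) : ℝ) + (37827925 : ℕ)) / S) :
    AltA (VFD κ) PP tK tL pcB [⟨3, 0, 0, 1449551462⟩] 2 0 2 0 5 (sgb true) (sgb true) x :=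
  strip_altAD (m := 1449551462) true rfl hκ (SH.κ0 hκ (SH.hx1 hx).le (SH.hx2 hx').le) (SH.hx1 hx).le (SH.hx2 hx') (covB02).cov (covB50).cov hx hx' c_A05pp_202_s1 cutA_nil (noExt_A)

noncomputable def cut_A05pp_203_s1 : Cut := Cut.of [[⟨4, 0, 0, 1449551462⟩]]

noncomputable def f_A05pp_203_s1 : ℕ → ℕ → ℕ → ℕ → Bool := onCell 0 536870912 0 536870912 780900216 37827925
    (rowF 0 true true true .up 2 0 3 (qsf 0 536870912 0 536870912 3) ndB0q2 ndB5q0 pcB3 cut_A05pp_203_s1 Ext.none)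

def k0_A05pp_203_s1 : ∃ t, chk3 f_A05pp_203_s1 t 1 1 1 = true :=
  ⟨(l 4), by decide +kernel⟩

theorem c_A05pp_203_s1 : CertF 0 536870912 0 536870912 780900216 37827925 true true true .up 2 0 3
    ndB0q2 ndB5q0 pcB3 cut_A05pp_203_s1 Ext.none :=
  certF0 (fam := true) (s1 := true) (s2 := true) (a := 2) (b := 0) (c := 3) (cn := .up) (n1 := ndB0q2) (n2 := ndB5q0) (pc := pcB3) (cut := cut_A05pp_203_s1) (xt := Ext.none) (P1 := 0) (W1 := 536870912) (P2 := 0) (W2 := 536870912) (P3 := 780900216) (W3 := 37827925)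
    rfl k0_A05pp_203_s1

theorem s_A05pp_203_s1 {κ x : ℝ} (hκ : κ * h0 = ken x) (hx : ((780900216 : ℕ) : ℝ) / S ≤ x)
    (hx' : x ≤ (((780900216 : ℕ) : ℝ) + (37827925 : ℕ)) / S) :
    AltA (VFD κ) PP tK tL pcB [⟨3, 0, 0, 1449551462⟩] 2 0 3 0 5 (sgb true) (sgb true) x :=
  strip_altAD (m := 1449551462) true rfl hκ (SH.κ0 hκ (SH.hx1 hx).le (SH.hx2 hx').le) (SH.hx1 hx).le (SH.hx2 hx') (covB02).cov (covB50).cov hx hx' c_A05pp_203_s1 cutA_nil (noExt_A)

noncomputable def cut_A05pp_213_s1 : Cut := Cut.of [[⟨4, 0, 0, 1449551462⟩]]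

noncomputable def f_A05pp_213_s1 : ℕ → ℕ → ℕ → ℕ → Bool := onCell 0 536870912 536870912 536870912 780900216 37827925
    (rowF 0 true true true .pnn 2 1 3 (qsf 0 536870912 536870912 536870912 3) ndB0q2 ndB5q1 pcB3 cut_A05pp_213_s1 Ext.none)

def k0_A05pp_213_s1 : ∃ t, chk3 f_A05pp_213_s1 t 1 1 1 = true :=
  ⟨(l 4), by decide +kernel⟩

theorem c_A05pp_213_s1 : CertF 0 536870912 536870912 536870912 780900216 37827925 true true true .pnn 2 1 3
    ndB0q2 ndB5q1 pcB3 cut_A05pp_213_s1 Ext.none :=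
  certF0 (fam := true) (s1 := true) (s2 := true) (a := 2) (b := 1) (c := 3) (cn := .pnn) (n1 := ndB0q2) (n2 := ndB5q1) (pc := pcB3) (cut := cut_A05pp_213_s1) (xt := Ext.none) (P1 := 0) (W1 := 536870912) (P2 := 536870912) (W2 := 536870912) (P3 := 780900216) (W3 := 37827925)
    rfl k0_A05pp_213_s1

theorem s_A05pp_213_s1 {κ x : ℝ} (hκ : κ * h0 = ken x) (hx : ((780900216 : ℕ) : ℝ) / S ≤ x)
    (hx' : x ≤ (((780900216 : ℕ) : ℝ) + (37827925 : ℕ)) / S) :
    AltA (VFD κ) PP tK tL pcB [⟨3, 0, 0, 1449551462⟩] 2 1 3 0 5 (sgb true) (sgb true) x :=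
  strip_altAD (m := 1449551462) true rfl hκ (SH.κ0 hκ (SH.hx1 hx).le (SH.hx2 hx').le) (SH.hx1 hx).le (SH.hx2 hx') (covB02).cov (covB51).cov hx hx' c_A05pp_213_s1 cutA_nil (noExt_A)

noncomputable def cut_A05pm_001_s1 : Cut := Cut.of [[⟨4, 0, 0, 1449551462⟩]]

noncomputable def xt_A05pm_001_s1 : Ext := strExt dd true true false .u0 .s0m .u0m .up 0 0 1 rfl rfl gf1 vv ndB0q0 ndB5q0

noncomputable def f_A05pm_001_s1 : ℕ → ℕ → ℕ → ℕ → Bool := onCell 0 536870912 536870912 536870912 780900216 37827925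
    (rowF 1 true true false .up 0 0 1 (qsf 0 536870912 0 536870912 1) ndB0q0 ndB5q0 pcB1 cut_A05pm_001_s1 xt_A05pm_001_s1)

def k0_A05pm_001_s1 : ∃ t, chk3 f_A05pm_001_s1 t 1 1 1 = true :=
  ⟨(a (b (l 3) (b (b (l 3) (l 2)) (l 2))) (b (b (l 3) (a (l 3) (a (b (l 3) (b (b (l 3) (l 521141007)) (l 521444111))) (b (a (b (l 3) (a (l 3) (l 522391055))) (b (b (l 3) (l 524530703)) (a (l 523249167) (l 524039439)))) (a (b (a (b (l 520848143) (l 520933647)) (b (l 521339151) (l 521135119))) (a (l 521271055) (l 521362703))) (b (b (l 522731023) (l 522114831)) (a (l 521512975) (l 16688152)))))))) (a (b (a (b (b (l 3) (a (l 3) (b (l 3) (a (l 3) (l 521502991))))) (a (l 2) (b (c (l 521498895) (l 521391119)) (l 2)))) (b (a (b (l 3) (b (c (a (l 521909263) (l 522052111)) (a (l 521857039) (l 521983759))) (a (l 521713167) (c (l 521985551) (l 521882639))))) (b (l 521839119) (b (b (l 522042639) (l 522090255)) (a (l 523706383) (l 16730296))))) (a (b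 (a (b (l 521686799) (l 521729295)) (c (l 521963535) (l 521822991))) (a (l 2) (l 522394895))) (b (b (a (l 16721800) (l 16653096)) (a (l 16644096) (l 16617560))) (a (l 16675384) (l 16649144)))))) (a (l 2) (b (b (a (l 2) (l 46808154983)) (l 2)) (l 2)))) (b (b (a (b (l 522090255) (b (l 522088975) (l 522223631))) (a (b (b (l 16681496) (l 16678520)) (l 16616464)) (b (a (l 16564320) (l 16533384)) (l 16563752)))) (a (b (a (a (l 16670792) (l 16663784)) (l 16620176)) (a (l 16640328) (l 16552880))) (a (b (l 16475296) (l 16409616)) (b (l 16412792) (l 16348496))))) (a (b (b (a (l 16543976) (l 16405784)) (b (l 16514600) (l 16487624))) (b (a (l 2) (l 16299864)) (l 2))) (b (a (b (l 16348600) (l 16294280)) (b (l 16289248) (l 16235016))) (b (a (l 16243280) (l 16182040)) (l 16330352)))))))), by decide +kernel⟩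

theorem c_A05pm_001_s1 : CertF 0 536870912 0 536870912 780900216 37827925 true true false .up 0 0 1
    ndB0q0 ndB5q0 pcB1 cut_A05pm_001_s1 xt_A05pm_001_s1 :=
  certF1 (fam := true) (s1 := true) (s2 := false) (a := 0) (b := 0) (c := 1) (cn := .up) (n1 := ndB0q0) (n2 := ndB5q0) (pc := pcB1) (cut := cut_A05pm_001_s1) (xt := xt_A05pm_001_s1) (P1 := 0) (W1 := 536870912) (P2 := 0) (W2 := 536870912) (P3 := 780900216) (W3 := 37827925)
    rfl (fun _ => rfl) k0_A05pm_001_s1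

theorem s_A05pm_001_s1 {κ x : ℝ} (hκ : κ * h0 = ken x) (hx : ((780900216 : ℕ) : ℝ) / S ≤ x)
    (hx' : x ≤ (((780900216 : ℕ) : ℝ) + (37827925 : ℕ)) / S) :
    AltA (VFD κ) PP tK tL pcB [⟨3, 0, 0, 1449551462⟩] 0 0 1 0 5 (sgb true) (sgb false) x :=
  strip_altAD (m := 1449551462) true rfl hκ (SH.κ0 hκ (SH.hx1 hx).le (SH.hx2 hx').le) (SH.hx1 hx).le (SH.hx2 hx') (covB00).cov (covB50).cov hx hx' c_A05pm_001_s1 cutA_nil ((okx hx hx').extA (T := tt) (sideB hx hx') hκ rfl rfl (.O 0 true) (.N 0 false) (Or.inr rfl))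

noncomputable def cut_A05pm_011_s1 : Cut := Cut.of [[⟨4, 0, 0, 1449551462⟩], [⟨0, 0, 0, 67108864⟩, ⟨1, 1, 0, 67108864⟩, ⟨2, 1, 0, 67108864⟩]]

noncomputable def xt_A05pm_011_s1 : Ext := strExt dd true true false .u0 .s0m .u0m .pnn 0 1 1 rfl rfl gf1 vv ndB0q0 ndB5q1

noncomputable def f_A05pm_011_s1 : ℕ → ℕ → ℕ → ℕ → Bool := onCell 0 536870912 536870912 536870912 780900216 37827925
    (rowF 1 true true false .pnn 0 1 1 (qsf 0 536870912 536870912 536870912 1) ndB0q0 ndB5q1 pcB1 cut_A05pm_011_s1 xt_A05pm_011_s1)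

def k0_A05pm_011_s1 : ∃ t, chk3 f_A05pm_011_s1 t 1 2 1 = true :=
  ⟨(a (l 3) (a (a (l 3) (l 1)) (l 1))), by decide +kernel⟩

def k1_A05pm_011_s1 : ∃ t, chk3 f_A05pm_011_s1 t 2 6 1 = true :=
  ⟨(b (l 3) (b (l 3) (a (l 3) (a (l 3) (a (a (l 3) (l 521638671)) (b (l 521527823) (l 521852943))))))), by decide +kernel⟩

def k2_A05pm_011_s1 : ∃ t, chk3 f_A05pm_011_s1 t 2 7 1 = true :=
  ⟨(b (a (b (l 3) (a (l 3) (a (l 3) (a (l 3) (b (l 3) (l 523105039)))))) (a (a (b (l 3) (a (b (l 3) (l 523228687)) (b (a (l 522561039) (l 522585871)) (a (l 523272207) (l 523154703))))) (b (b (l 3) (l 522218255)) (b (l 523686927) (a (l 524167439) (l 523095311))))) (b (a (a (l 522165007) (b (l 522129679) (l 522323727))) (b (l 522163727) (l 522473743))) (a (b (l 523482127) (l 523133967)) (b (l 522768911) (l 16673568)))))) (b (a (a (b (l 3) (a (l 3) (a (l 3) (a (l 3) (l 523837967))))) (a (a (b (l 3) (a (l 523844879) (l 523931407))) (b (a (l 3) (l 523566607))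 (a (l 523889167) (l 523929359)))) (a (b (l 523623439) (l 524002575)) (b (l 523761167) (l 523920655))))) (a (a (a (b (l 523575055) (l 523661583)) (b (l 523654159) (l 523371279))) (b (a (l 523109903) (l 16705240)) (b (l 16689968) (l 16640984)))) (a (b (l 523219727) (l 16649088)) (b (l 16640672) (l 16565288))))) (a (a (b (a (b (l 3) (l 14)) (a (a (a (b (l 3) (l 14)) (l 524007183)) (a (l 524008975) (l 524009999))) (a (a (l 524010767) (l 524011279)) (l 523994895)))) (a (l 14) (a (a (l 14) (a (l 14) (l 524216847))) (a (a (l 524216591) (l 524216335)) (b (l 524151823) (l 16727128)))))) (a (a (b (a (l 524000015) (l 524004367)) (a (l 524201487) (l 524204047))) (b (a (l 524013327) (l 524044047)) (b (l 16717056) (l 16690696)))) (a (b (l 524162319) (l 525375503)) (b (l 524066575) (l 16672248))))) (a (a (a (b (l 16672520) (l 16640272)) (b (l 16649856) (l 16616944))) (b (l 16657264) (l 16623488))) (a (b (l 16572288) (l 523388431)) (b (l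 16531264) (l 16412568))))))), by decide +kernel⟩

def k3_A05pm_011_s1 : ∃ t, chk3 f_A05pm_011_s1 t 3 3 1 = true :=
  ⟨(a (b (a (b (b (l 3) (a (l 3) (b (l 3) (l 521939983)))) (a (b (a (l 521150479) (l 521249039)) (a (l 521742351) (l 521793295))) (b (c (l 521497871) (l 521388303)) (b (l 521696783) (l 521992463))))) (b (a (b (l 1) (b (l 1) (a (l 521713167) (l 1)))) (l 1)) (a (b (a (b (l 521686799) (l 16727648)) (a (l 521850127) (l 523561999))) (a (l 521992207) (l 16680240))) (b (b (l 1) (l 16672856)) (c (l 16663224) (l 16661288)))))) (b (a (b (a (b (l 522248463) (l 522553359)) (l 524085263)) (a (b (l 16657640) (l 16585088)) (l 16636424))) (b (a (c (l 16648448) (l 16646600)) (l 16596256)) (a (l 16586736) (l 16452208)))) (a (b (a (l 16621160) (l 16491472)) (a (l 16472320) (l 16429680))) (b (a (l 16445952) (l 16399880)) (a (l 16387760) (l 16345400)))))) (b (b (l 1) (a (b (l 1) (a (l 16609016) (l 1))) (l 1))) (b (a (b (a (l 16460088)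 (l 16405976)) (a (l 16400936) (l 16348440))) (b (l 1) (l 16432296))) (a (b (l 16461904) (a (l 16300304) (l 16249576))) (b (l 16296560) (l 16162760)))))), by decide +kernel⟩

theorem t4_A05pm_011_s1 : ∃ t, chk3 f_A05pm_011_s1 t 2 3 1 = true := ex3_b k1_A05pm_011_s1 k2_A05pm_011_s1

theorem t5_A05pm_011_s1 : ∃ t, chk3 f_A05pm_011_s1 t 1 3 1 = true := ex3_a t4_A05pm_011_s1 k3_A05pm_011_s1

theorem t6_A05pm_011_s1 : ∃ t, chk3 f_A05pm_011_s1 t 1 1 1 = true := ex3_b k0_A05pm_011_s1 t5_A05pm_011_s1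

theorem c_A05pm_011_s1 : CertF 0 536870912 536870912 536870912 780900216 37827925 true true false .pnn 0 1 1
    ndB0q0 ndB5q1 pcB1 cut_A05pm_011_s1 xt_A05pm_011_s1 :=
  certF1 (fam := true) (s1 := true) (s2 := false) (a := 0) (b := 1) (c := 1) (cn := .pnn) (n1 := ndB0q0) (n2 := ndB5q1) (pc := pcB1) (cut := cut_A05pm_011_s1) (xt := xt_A05pm_011_s1) (P1 := 0) (W1 := 536870912) (P2 := 536870912) (W2 := 536870912) (P3 := 780900216) (W3 := 37827925)
    rfl (fun _ => rfl) t6_A05pm_011_s1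

theorem s_A05pm_011_s1 {κ x : ℝ} (hκ : κ * h0 = ken x) (hx : ((780900216 : ℕ) : ℝ) / S ≤ x)
    (hx' : x ≤ (((780900216 : ℕ) : ℝ) + (37827925 : ℕ)) / S)
    (H : CutA (VFD κ) PP tK tL pcB (Cut.of [[⟨0, 0, 0, 67108864⟩, ⟨1, 1, 0, 67108864⟩, ⟨2, 1, 0, 67108864⟩]]) 0 1 1 0 5 (sgb true) (sgb false) x) :
    AltA (VFD κ) PP tK tL pcB [⟨3, 0, 0, 1449551462⟩] 0 1 1 0 5 (sgb true) (sgb false) x :=
  strip_altAD (m := 1449551462) true rfl hκ (SH.κ0 hκ (SH.hx1 hx).le (SH.hx2 hx').le) (SH.hx1 hx).le (SH.hx2 hx') (covB00).cov (covB51).cov hx hx' c_A05pm_011_s1 H ((okx hx hx').extA (T := tt) (sideB hx hx') hκ rfl rfl (.O 0 true) (.N 1 false) (Or.inr rfl))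

noncomputable def cut_A05pm_012_s1 : Cut := Cut.of [[⟨4, 0, 0, 1449551462⟩], [⟨0, 0, 0, 67108864⟩, ⟨1, 1, 0, 67108864⟩, ⟨2, 1, 0, 67108864⟩]]

noncomputable def f_A05pm_012_s1 : ℕ → ℕ → ℕ → ℕ → Bool := onCell 1073741824 536870912 536870912 536870912 780900216 37827925
    (rowF 2 true true false .pnp 0 1 2 (qsf 0 536870912 536870912 536870912 2) ndB0q0 ndB5q1 pcB2 cut_A05pm_012_s1 Ext.none)

def k0_A05pm_012_s1 : ∃ t, chk3 f_A05pm_012_s1 t 4 2 1 = true :=
  ⟨(b (a (b (a (l 16101992) (l 6)) (a (b (l 16106016) (l 16162560)) (l 16153696))) (l 6)) (a (b (a (b (l 16219424) (l 16277544)) (l 16296920)) (b (a (l 16333480) (l 16238408)) (a (l 16380696) (l 16278856)))) (b (a (b (l 15983296) (l 16025368)) (l 6)) (a (b (l 16148504) (l 16015504)) (b (l 15980544) (l 16094480)))))), by decide +kernel⟩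

def k1_A05pm_012_s1 : ∃ t, chk3 f_A05pm_012_s1 t 8 3 1 = true :=
  ⟨(b (b (a (b (l 16509616) (l 16574680)) (a (l 16436552) (b (l 16290280) (l 16326608)))) (b (a (a (l 16543800) (l 16484064)) (a (l 16423296) (l 16364352))) (a (a (a (l 16585528) (l 16575320)) (l 16529640)) (a (b (l 16454272) (l 16475336)) (l 16403096))))) (b (a (b (a (a (b (l 16613408) (l 16591640)) (l 16612176)) (b (l 16561968) (l 16581728))) (a (a (b (l 16655000) (b (l 16671432) (l 16682440))) (a (l 16657056) (l 16647352))) (a (b (l 16615048) (l 16629592)) (l 16589736)))) (a (b (b (l 16412496) (a (l 16532200) (l 16499560))) (b (a (l 16549520) (l 16516960)) (a (l 16563944) (l 16531464)))) (b (b (l 16431840) (l 16450848)) (b (l 16468056) (l 16566976))))) (a (b (a (a (b (a (l 16701552) (l 16695944)) (l 14)) (b (l 16676696) (b (l 16686440) (l 14)))) (a (b (c (l 16601808) (l 16599360)) (a (l 16663136) (l 16645728))) (b (l 16608992) (b (l 16617296) (l 16622592)))))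 (a (l 14) (b (a (l 14) (b (l 16627688) (l 14))) (l 14)))) (b (a (b (a (l 16575960) (l 16543440)) (a (l 16617776) (l 16553232))) (b (l 16537080) (a (l 16520672) (l 16488640)))) (a (b (a (b (l 16593272) (l 16597704)) (b (l 16559592) (l 16563568))) (a (l 14) (b (l 16567328) (l 14)))) (b (a (b (l 16526632) (l 16530160)) (l 16537872)) (b (a (l 16533480) (l 16500368)) (a (l 16536576) (l 16503040))))))))), by decide +kernel⟩

def k2_A05pm_012_s1 : ∃ t, chk3 f_A05pm_012_s1 t 9 3 1 = true :=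
  ⟨(b (b (a (b (a (l 16238864) (l 16189856)) (a (l 16271808) (l 16218752))) (a (b (l 16142384) (l 16167680)) (b (l 16097296) (l 16118912)))) (a (b (a (l 16306632) (l 16249976)) (a (l 16341784) (l 16281936))) (a (b (l 16195704) (l 16224896)) (b (l 16142416) (l 16167800))))) (b (a (b (a (l 16460160) (l 16312672)) (a (b (l 16401104) (l 16415592)) (b (l 16334008) (l 16347400)))) (b (a (l 16336016) (l 16191888)) (a (b (l 16270760) (l 16282144)) (l 16296792)))) (b (a (b (a (l 16511680) (l 16358792)) (a (a (l 16454680) (l 16419304)) (l 16451672))) (a (b (l 16376600) (a (l 16317456) (l 16284952))) (b (l 16225936) (l 16233672)))) (a (a (b (a (l 16461440) (l 16425576)) (a (b (l 16465272) (l 16467360)) (b (l 16428672) (l 16430168)))) (b (b (l 16372384) (l 16374576)) (b (l 16459992) (a (l 16394368) (l 16359824))))) (a (b (a (l 16323424) (l 16290904)) (a (l 16326112) (b (l 16293184) (l 16293752)))) (b (l 16323136) (a (l 16259536) (l 16224944)))))))),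 by decide +kernel⟩

def k3_A05pm_012_s1 : ∃ t, chk3 f_A05pm_012_s1 t 5 1 1 = true :=
  ⟨(b (b (l 6) (l 6)) (b (a (b (a (a (l 16231304) (l 6)) (l 6)) (a (a (b (l 16090752) (l 16112056)) (a (l 16148080) (b (l 6) (l 16214440)))) (b (l 6) (l 15984808)))) (l 6)) (a (b (a (a (b (l 16132832) (l 16150152)) (b (a (l 16090288) (a (l 16069696) (l 16056648))) (a (l 16105472) (a (l 16084104) (l 16070896))))) (b (l 15995848) (b (l 16003640) (l 16008000)))) (a (a (b (b (l 16160568) (l 16166472)) (b (l 16171480) (l 16268688))) (b (a (l 16116712) (a (l 16094704) (a (l 16084464) (l 16077888)))) (a (b (l 16122824) (l 16125592)) (a (l 16101512) (a (l 16091240) (b (l 16083312) (l 16085840))))))) (b (b (l 16011056) (l 16013360)) (b (a (l 16046880) (l 15983016)) (a (l 16048408) (l 15982400)))))) (a (a (b (l 6) (b (l 15924008) (b (l 15921936) (l 15919336)))) (b (l 6) (l 6))) (l 6))))), by decide +kernel⟩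

def k4_A05pm_012_s1 : ∃ t, chk3 f_A05pm_012_s1 t 3 1 1 = true :=
  ⟨(b (l 6) (l 6)), by decide +kernel⟩

theorem t5_A05pm_012_s1 : ∃ t, chk3 f_A05pm_012_s1 t 4 3 1 = true := ex3_a k1_A05pm_012_s1 k2_A05pm_012_s1

theorem t6_A05pm_012_s1 : ∃ t, chk3 f_A05pm_012_s1 t 4 1 1 = true := ex3_b k0_A05pm_012_s1 t5_A05pm_012_s1

theorem t7_A05pm_012_s1 : ∃ t, chk3 f_A05pm_012_s1 t 2 1 1 = true := ex3_a t6_A05pm_012_s1 k3_A05pm_012_s1

theorem t8_A05pm_012_s1 : ∃ t, chk3 f_A05pm_012_s1 t 1 1 1 = true := ex3_a t7_A05pm_012_s1 k4_A05pm_012_s1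

theorem c_A05pm_012_s1 : CertF 0 536870912 536870912 536870912 780900216 37827925 true true false .pnp 0 1 2
    ndB0q0 ndB5q1 pcB2 cut_A05pm_012_s1 Ext.none :=
  certF2 (fam := true) (s1 := true) (s2 := false) (a := 0) (b := 1) (c := 2) (cn := .pnp) (n1 := ndB0q0) (n2 := ndB5q1) (pc := pcB2) (cut := cut_A05pm_012_s1) (xt := Ext.none) (P1 := 0) (W1 := 536870912) (P2 := 536870912) (W2 := 536870912) (P3 := 780900216) (W3 := 37827925)
    rfl (fun _ => rfl) t8_A05pm_012_s1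

theorem s_A05pm_012_s1 {κ x : ℝ} (hκ : κ * h0 = ken x) (hx : ((780900216 : ℕ) : ℝ) / S ≤ x)
    (hx' : x ≤ (((780900216 : ℕ) : ℝ) + (37827925 : ℕ)) / S)
    (H : CutA (VFD κ) PP tK tL pcB (Cut.of [[⟨0, 0, 0, 67108864⟩, ⟨1, 1, 0, 67108864⟩, ⟨2, 1, 0, 67108864⟩]]) 0 1 2 0 5 (sgb true) (sgb false) x) :
    AltA (VFD κ) PP tK tL pcB [⟨3, 0, 0, 1449551462⟩] 0 1 2 0 5 (sgb true) (sgb false) x :=
  strip_altAD (m := 1449551462) true rfl hκ (SH.κ0 hκ (SH.hx1 hx).le (SH.hx2 hx').le) (SH.hx1 hx).le (SH.hx2 hx') (covB00).cov (covB51).cov hx hx' c_A05pm_012_s1 H (noExt_A)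

noncomputable def cut_A05pm_022_s1 : Cut := Cut.of [[⟨4, 0, 0, 1449551462⟩], [⟨0, 0, 0, 67108864⟩, ⟨1, 1, 0, 67108864⟩, ⟨2, 1, 0, 67108864⟩]]

noncomputable def f_A05pm_022_s1 : ℕ → ℕ → ℕ → ℕ → Bool := onCell 1073741824 536870912 1073741824 536870912 780900216 37827925
    (rowF 2 true true false .pp 0 2 2 (qsf 0 536870912 1073741824 536870912 2) ndB0q0 ndB5q2 pcB2 cut_A05pm_022_s1 Ext.none)

def k0_A05pm_022_s1 : ∃ t, chk3 f_A05pm_022_s1 t 4 1 1 = true :=
  ⟨(b (a (b (b (a (b (l 14) (b (l 14) (l 1))) (a (b (l 14) (b (l 14) (b (l 14) (l 1)))) (a (b (l 14) (b (l 14) (b (l 14) (l 611529252631)))) (b (a (l 14) (b (l 16562944) (l 16569208))) (b (l 16623216) (b (l 16641104) (l 16590248))))))) (a (l 1) (a (l 1) (a (l 1) (b (l 673806208391) (l 1)))))) (l 1)) (b (b (a (b (a (b (b (a (l 16480864) (l 16443208)) (a (l 16505488) (l 16467648))) (a (l 16583168) (l 16503120))) (a (b (b (l 16407096) (l 16431360)) (l 16466592)) (b (l 16426504)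 (l 16431584)))) (a (b (a (l 16502736) (l 16464296)) (a (l 16629232) (l 16590616))) (b (a (l 16511352) (l 16476088)) (l 16493696)))) (b (a (b (a (l 16351048) (b (l 16306376) (l 16330864))) (a (l 16398088) (l 16365856))) (b (b (l 16339264) (l 16280416)) (l 16399824))) (b (a (a (l 16442328) (l 16409976)) (l 16360528)) (a (a (l 16484072) (l 16451568)) (l 16402144))))) (a (b (a (b (a (l 442951578807) (l 16607720)) (l 813392612135)) (b (l 16575024) (l 393022525415))) (a (l 1) (l 760779187703))) (b (a (b (l 16506776) (l 16543152)) (b (l 16441248) (l 16477720))) (b (a (l 389801228199) (l 16511488)) (a (l 694744025895) (l 16520456)))))) (a (l 1) (b (b (a (l 1) (l 711386939351)) (l 1)) (l 1))))) (l 1)), by decide +kernel⟩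

def k1_A05pm_022_s1 : ∃ t, chk3 f_A05pm_022_s1 t 5 1 1 = true :=
  ⟨(b (b (a (b (b (a (a (b (b (l 16188416) (l 16214472)) (l 16251440)) (a (b (l 16153696) (l 16205488)) (a (b (l 16131440) (l 16184096)) (b (a (l 16121520) (l 16115240)) (a (l 16174736) (l 16168872)))))) (b (a (l 16077744) (l 16010704)) (a (l 16132128) (l 16066304)))) (a (a (b (l 16297024) (l 16339360)) (a (l 16274336) (a (l 16254352) (a (l 16245736) (l 16240400))))) (b (l 16233512) (l 16196368)))) (b (a (a (l 16229696) (a (l 16354608) (a (l 16335256) (l 16240736)))) (b (l 16238312) (l 16277208))) (a (a (l 16465768) (a (l 16423624) (a (l 16404880) (l 16394816)))) (b (l 16312928) (l 16345776))))) (a (b (b (b (a (l 15946584) (l 15885400)) (a (l 16002256) (l 15941080))) (a (l 16079704) (l 16019488))) (b (b (l 16118496) (l 16159944)) (a (l 16242408) (l 16186640)))) (b (b (l 6) (b (l 6) (l 15957472))) (b (a (l 16054304) (l 6)) (l 16189880))))) (a (b (a (b (a (l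 436508776055) (a (l 16463736) (a (l 16454264) (l 16445360)))) (a (l 1) (a (l 1) (l 723197868215)))) (b (l 16390648) (l 352756613079))) (a (l 1) (b (l 700649213559) (l 1)))) (b (b (a (l 16277280) (l 16004344)) (a (l 16331704) (l 16228784))) (a (b (l 334502806455) (l 625486931367)) (b (l 16277944) (l 16253688)))))) (a (l 1) (b (b (a (l 1) (l 656088565719)) (l 1)) (l 1)))), by decide +kernel⟩

def k2_A05pm_022_s1 : ∃ t, chk3 f_A05pm_022_s1 t 3 1 1 = true :=
  ⟨(b (a (a (a (b (l 6) (b (b (l 16074072) (l 15965912)) (b (l 16185488) (l 16227848)))) (b (l 6) (l 6))) (l 6)) (l 6)) (a (b (a (b (b (a (l 16183600) (l 16166080)) (l 372620460967)) (a (l 1) (l 601327236375))) (l 6)) (a (l 1) (a (l 1) (l 6)))) (l 6))), by decide +kernel⟩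

theorem t3_A05pm_022_s1 : ∃ t, chk3 f_A05pm_022_s1 t 2 1 1 = true := ex3_a k0_A05pm_022_s1 k1_A05pm_022_s1

theorem t4_A05pm_022_s1 : ∃ t, chk3 f_A05pm_022_s1 t 1 1 1 = true := ex3_a t3_A05pm_022_s1 k2_A05pm_022_s1

theorem c_A05pm_022_s1 : CertF 0 536870912 1073741824 536870912 780900216 37827925 true true false .pp 0 2 2
    ndB0q0 ndB5q2 pcB2 cut_A05pm_022_s1 Ext.none :=
  certF2 (fam := true) (s1 := true) (s2 := false) (a := 0) (b := 2) (c := 2) (cn := .pp) (n1 := ndB0q0) (n2 := ndB5q2) (pc := pcB2) (cut := cut_A05pm_022_s1) (xt := Ext.none) (P1 := 0) (W1 := 536870912) (P2 := 1073741824) (W2 := 536870912) (P3 := 780900216) (W3 := 37827925)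
    rfl (fun _ => rfl) t4_A05pm_022_s1

theorem s_A05pm_022_s1 {κ x : ℝ} (hκ : κ * h0 = ken x) (hx : ((780900216 : ℕ) : ℝ) / S ≤ x)
    (hx' : x ≤ (((780900216 : ℕ) : ℝ) + (37827925 : ℕ)) / S)
    (H : CutA (VFD κ) PP tK tL pcB (Cut.of [[⟨0, 0, 0, 67108864⟩, ⟨1, 1, 0, 67108864⟩, ⟨2, 1, 0, 67108864⟩]]) 0 2 2 0 5 (sgb true) (sgb false) x) :
    AltA (VFD κ) PP tK tL pcB [⟨3, 0, 0, 1449551462⟩] 0 2 2 0 5 (sgb true) (sgb false) x :=
  strip_altAD (m := 1449551462) true rfl hκ (SH.κ0 hκ (SH.hx1 hx).le (SH.hx2 hx').le) (SH.hx1 hx).le (SH.hx2 hx') (covB00).cov (covB52).cov hx hx' c_A05pm_022_s1 H (noExt_A)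

noncomputable def cut_A05pm_023_s1 : Cut := Cut.of [[⟨4, 0, 0, 1449551462⟩]]

noncomputable def f_A05pm_023_s1 : ℕ → ℕ → ℕ → ℕ → Bool := onCell 1610612736 536870912 1073741824 536870912 780900216 37827925
    (rowF 2 true true false .up 0 2 3 (qsf 0 536870912 1073741824 536870912 3) ndB0q0 ndB5q2 pcB3 cut_A05pm_023_s1 Ext.none)

def k0_A05pm_023_s1 : ∃ t, chk3 f_A05pm_023_s1 t 1 1 1 = true :=
  ⟨(a (l 6) (l 6)), by decide +kernel⟩

theorem c_A05pm_023_s1 : CertF 0 536870912 1073741824 536870912 780900216 37827925 true true false .up 0 2 3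
    ndB0q0 ndB5q2 pcB3 cut_A05pm_023_s1 Ext.none :=
  certF2 (fam := true) (s1 := true) (s2 := false) (a := 0) (b := 2) (c := 3) (cn := .up) (n1 := ndB0q0) (n2 := ndB5q2) (pc := pcB3) (cut := cut_A05pm_023_s1) (xt := Ext.none) (P1 := 0) (W1 := 536870912) (P2 := 1073741824) (W2 := 536870912) (P3 := 780900216) (W3 := 37827925)
    rfl (fun _ => rfl) k0_A05pm_023_s1

theorem s_A05pm_023_s1 {κ x : ℝ} (hκ : κ * h0 = ken x) (hx : ((780900216 : ℕ) : ℝ) / S ≤ x)
    (hx' : x ≤ (((780900216 : ℕ) : ℝ) + (37827925 : ℕ)) / S) :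
    AltA (VFD κ) PP tK tL pcB [⟨3, 0, 0, 1449551462⟩] 0 2 3 0 5 (sgb true) (sgb false) x :=
  strip_altAD (m := 1449551462) true rfl hκ (SH.κ0 hκ (SH.hx1 hx).le (SH.hx2 hx').le) (SH.hx1 hx).le (SH.hx2 hx') (covB00).cov (covB52).cov hx hx' c_A05pm_023_s1 cutA_nil (noExt_A)

noncomputable def cut_A05pm_033_s1 : Cut := Cut.of [[⟨4, 0, 0, 1449551462⟩]]

noncomputable def f_A05pm_033_s1 : ℕ → ℕ → ℕ → ℕ → Bool := onCell 1610612736 536870912 0 1230186008 780900216 37827925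
    (rowF 2 true true false .pnn 0 3 3 (qsf 0 536870912 0 1230186008 3) ndB0q0 ndB5q3 pcB3 cut_A05pm_033_s1 Ext.none)

def k0_A05pm_033_s1 : ∃ t, chk3 f_A05pm_033_s1 t 1 1 1 = true :=
  ⟨(b (l 6) (l 6)), by decide +kernel⟩

theorem c_A05pm_033_s1 : CertF 0 536870912 0 1230186008 780900216 37827925 true true false .pnn 0 3 3
    ndB0q0 ndB5q3 pcB3 cut_A05pm_033_s1 Ext.none :=
  certF2 (fam := true) (s1 := true) (s2 := false) (a := 0) (b := 3) (c := 3) (cn := .pnn) (n1 := ndB0q0) (n2 := ndB5q3) (pc := pcB3) (cut := cut_A05pm_033_s1) (xt := Ext.none) (P1 := 0) (W1 := 536870912) (P2 := 0) (W2 := 1230186008) (P3 := 780900216) (W3 := 37827925)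
    rfl (fun _ => rfl) k0_A05pm_033_s1

theorem s_A05pm_033_s1 {κ x : ℝ} (hκ : κ * h0 = ken x) (hx : ((780900216 : ℕ) : ℝ) / S ≤ x)
    (hx' : x ≤ (((780900216 : ℕ) : ℝ) + (37827925 : ℕ)) / S) :
    AltA (VFD κ) PP tK tL pcB [⟨3, 0, 0, 1449551462⟩] 0 3 3 0 5 (sgb true) (sgb false) x :=
  strip_altAD (m := 1449551462) true rfl hκ (SH.κ0 hκ (SH.hx1 hx).le (SH.hx2 hx').le) (SH.hx1 hx).le (SH.hx2 hx') (covB00).cov (covB53).cov hx hx' c_A05pm_033_s1 cutA_nil (noExt_A)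

noncomputable def cut_A05pm_101_s1 : Cut := Cut.of [[⟨4, 0, 0, 1449551462⟩]]

noncomputable def xt_A05pm_101_s1 : Ext := strExt dd true true false .u0 .s0m .u0m .npn 1 0 1 rfl rfl gf1 vv ndB0q1 ndB5q0

noncomputable def f_A05pm_101_s1 : ℕ → ℕ → ℕ → ℕ → Bool := onCell 536870912 536870912 536870912 536870912 780900216 37827925
    (rowF 1 true true false .npn 1 0 1 (qsf 536870912 536870912 0 536870912 1) ndB0q1 ndB5q0 pcB1 cut_A05pm_101_s1 xt_A05pm_101_s1)

def k0_A05pm_101_s1 : ∃ t, chk3 f_A05pm_101_s1 t 1 1 1 = true :=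
  ⟨(b (a (b (a (b (a (l 3) (b (l 1) (l 527240207))) (a (a (b (l 3) (l 526456079)) (l 527052815)) (l 527529487))) (a (b (l 1) (a (l 529097999) (l 1))) (l 1))) (a (b (a (b (a (b (l 526179855) (l 525872143)) (l 526680079)) (a (l 525351439) (l 526087951))) (b (l 527398671) (l 527045135))) (a (b (a (b (l 524351247) (l 16716240)) (l 525298447)) (a (a (l 16667096) (l 16563904)) (l 16535864))) (b (a (l 16570280) (l 16531592)) (a (l 16500040) (l 16464536))))) (b (a (a (b (l 16600808) (l 16549024)) (l 95059594663)) (a (l 106333924087) (l 1))) (a (a (b (l 16491968) (l 16427376)) (l 16585608)) (a (l 16372496) (l 16324144)))))) (a (b (l 1) (a (b (l 1) (l 16516864)) (l 1))) (l 1))) (a (b (a (a (b (a (b (l 16570480) (l 16418128)) (b (l 16450672) (l 16353976))) (b (a (l 16350920) (l 16287208)) (a (l 16287424) (l 16223832)))) (b (b (a (l 16419808) (l 16388272)) (l 16363696)) (a (l 16265984) (l 16140240)))) (a (b (a (l 16274360) (l 16280072))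 (a (l 16122424) (l 16098856))) (b (l 16381552) (l 15963552)))) (a (b (a (a (l 16366904) (l 16134056)) (l 16271808)) (a (a (l 16091848) (l 16025256)) (l 15998256))) (a (b (l 16017488) (l 6)) (l 6)))) (a (b (a (l 6) (l 6)) (l 6)) (l 6)))), by decide +kernel⟩

theorem c_A05pm_101_s1 : CertF 536870912 536870912 0 536870912 780900216 37827925 true true false .npn 1 0 1
    ndB0q1 ndB5q0 pcB1 cut_A05pm_101_s1 xt_A05pm_101_s1 :=
  certF1 (fam := true) (s1 := true) (s2 := false) (a := 1) (b := 0) (c := 1) (cn := .npn) (n1 := ndB0q1) (n2 := ndB5q0) (pc := pcB1) (cut := cut_A05pm_101_s1) (xt := xt_A05pm_101_s1) (P1 := 536870912) (W1 := 536870912) (P2 := 0) (W2 := 536870912) (P3 := 780900216) (W3 := 37827925)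
    rfl (fun _ => rfl) k0_A05pm_101_s1

theorem s_A05pm_101_s1 {κ x : ℝ} (hκ : κ * h0 = ken x) (hx : ((780900216 : ℕ) : ℝ) / S ≤ x)
    (hx' : x ≤ (((780900216 : ℕ) : ℝ) + (37827925 : ℕ)) / S) :
    AltA (VFD κ) PP tK tL pcB [⟨3, 0, 0, 1449551462⟩] 1 0 1 0 5 (sgb true) (sgb false) x :=
  strip_altAD (m := 1449551462) true rfl hκ (SH.κ0 hκ (SH.hx1 hx).le (SH.hx2 hx').le) (SH.hx1 hx).le (SH.hx2 hx') (covB01).cov (covB50).cov hx hx' c_A05pm_101_s1 cutA_nil ((okx hx hx').extA (T := tt) (sideB hx hx') hκ rfl rfl (.O 1 true) (.N 0 false) (Or.inr rfl))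

noncomputable def cut_A05pm_102_s1 : Cut := Cut.of [[⟨4, 0, 0, 1449551462⟩]]

noncomputable def f_A05pm_102_s1 : ℕ → ℕ → ℕ → ℕ → Bool := onCell 536870912 536870912 1073741824 536870912 780900216 37827925
    (rowF 1 true true false .npp 1 0 2 (qsf 536870912 536870912 0 536870912 2) ndB0q1 ndB5q0 pcB2 cut_A05pm_102_s1 Ext.none)

def k0_A05pm_102_s1 : ∃ t, chk3 f_A05pm_102_s1 t 1 1 1 = true :=
  ⟨(a (b (a (b (a (b (b (l 15926216) (l 6)) (l 6)) (l 6)) (l 6)) (l 6)) (l 6)) (l 6)), by decide +kernel⟩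

theorem c_A05pm_102_s1 : CertF 536870912 536870912 0 536870912 780900216 37827925 true true false .npp 1 0 2
    ndB0q1 ndB5q0 pcB2 cut_A05pm_102_s1 Ext.none :=
  certF1 (fam := true) (s1 := true) (s2 := false) (a := 1) (b := 0) (c := 2) (cn := .npp) (n1 := ndB0q1) (n2 := ndB5q0) (pc := pcB2) (cut := cut_A05pm_102_s1) (xt := Ext.none) (P1 := 536870912) (W1 := 536870912) (P2 := 0) (W2 := 536870912) (P3 := 780900216) (W3 := 37827925)
    rfl (fun _ => rfl) k0_A05pm_102_s1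

theorem s_A05pm_102_s1 {κ x : ℝ} (hκ : κ * h0 = ken x) (hx : ((780900216 : ℕ) : ℝ) / S ≤ x)
    (hx' : x ≤ (((780900216 : ℕ) : ℝ) + (37827925 : ℕ)) / S) :
    AltA (VFD κ) PP tK tL pcB [⟨3, 0, 0, 1449551462⟩] 1 0 2 0 5 (sgb true) (sgb false) x :=
  strip_altAD (m := 1449551462) true rfl hκ (SH.κ0 hκ (SH.hx1 hx).le (SH.hx2 hx').le) (SH.hx1 hx).le (SH.hx2 hx') (covB01).cov (covB50).cov hx hx' c_A05pm_102_s1 cutA_nil (noExt_A)

noncomputable def cut_A05pm_112_s1 : Cut := Cut.of [[⟨4, 0, 0, 1449551462⟩]]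

noncomputable def f_A05pm_112_s1 : ℕ → ℕ → ℕ → ℕ → Bool := onCell 536870912 536870912 536870912 536870912 780900216 37827925
    (rowF 0 true true false .dn 1 1 2 (qsf 536870912 536870912 536870912 536870912 2) ndB0q1 ndB5q1 pcB2 cut_A05pm_112_s1 Ext.none)

def k0_A05pm_112_s1 : ∃ t, chk3 f_A05pm_112_s1 t 1 1 1 = true :=
  ⟨(a (b (b (a (a (b (l 16096352) (l 6)) (l 6)) (l 6)) (l 6)) (l 6)) (l 6)), by decide +kernel⟩

theorem c_A05pm_112_s1 : CertF 536870912 536870912 536870912 536870912 780900216 37827925 true true false .dn 1 1 2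
    ndB0q1 ndB5q1 pcB2 cut_A05pm_112_s1 Ext.none :=
  certF0 (fam := true) (s1 := true) (s2 := false) (a := 1) (b := 1) (c := 2) (cn := .dn) (n1 := ndB0q1) (n2 := ndB5q1) (pc := pcB2) (cut := cut_A05pm_112_s1) (xt := Ext.none) (P1 := 536870912) (W1 := 536870912) (P2 := 536870912) (W2 := 536870912) (P3 := 780900216) (W3 := 37827925)
    rfl k0_A05pm_112_s1

theorem s_A05pm_112_s1 {κ x : ℝ} (hκ : κ * h0 = ken x) (hx : ((780900216 : ℕ) : ℝ) / S ≤ x)
    (hx' : x ≤ (((780900216 : ℕ) : ℝ) + (37827925 : ℕ)) / S) :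
    AltA (VFD κ) PP tK tL pcB [⟨3, 0, 0, 1449551462⟩] 1 1 2 0 5 (sgb true) (sgb false) x :=
  strip_altAD (m := 1449551462) true rfl hκ (SH.κ0 hκ (SH.hx1 hx).le (SH.hx2 hx').le) (SH.hx1 hx).le (SH.hx2 hx') (covB01).cov (covB51).cov hx hx' c_A05pm_112_s1 cutA_nil (noExt_A)

noncomputable def cut_A05pm_113_s1 : Cut := Cut.of [[⟨4, 0, 0, 1449551462⟩]]

noncomputable def f_A05pm_113_s1 : ℕ → ℕ → ℕ → ℕ → Bool := onCell 536870912 536870912 1610612736 536870912 780900216 37827925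
    (rowF 1 true true false .nn 1 1 3 (qsf 536870912 536870912 536870912 536870912 3) ndB0q1 ndB5q1 pcB3 cut_A05pm_113_s1 Ext.none)

def k0_A05pm_113_s1 : ∃ t, chk3 f_A05pm_113_s1 t 1 1 1 = true :=
  ⟨(l 6), by decide +kernel⟩

theorem c_A05pm_113_s1 : CertF 536870912 536870912 536870912 536870912 780900216 37827925 true true false .nn 1 1 3
    ndB0q1 ndB5q1 pcB3 cut_A05pm_113_s1 Ext.none :=
  certF1 (fam := true) (s1 := true) (s2 := false) (a := 1) (b := 1) (c := 3) (cn := .nn) (n1 := ndB0q1) (n2 := ndB5q1) (pc := pcB3) (cut := cut_A05pm_113_s1) (xt := Ext.none) (P1 := 536870912) (W1 := 536870912) (P2 := 536870912) (W2 := 536870912) (P3 := 780900216) (W3 := 37827925)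
    rfl (fun _ => rfl) k0_A05pm_113_s1

theorem s_A05pm_113_s1 {κ x : ℝ} (hκ : κ * h0 = ken x) (hx : ((780900216 : ℕ) : ℝ) / S ≤ x)
    (hx' : x ≤ (((780900216 : ℕ) : ℝ) + (37827925 : ℕ)) / S) :
    AltA (VFD κ) PP tK tL pcB [⟨3, 0, 0, 1449551462⟩] 1 1 3 0 5 (sgb true) (sgb false) x :=
  strip_altAD (m := 1449551462) true rfl hκ (SH.κ0 hκ (SH.hx1 hx).le (SH.hx2 hx').le) (SH.hx1 hx).le (SH.hx2 hx') (covB01).cov (covB51).cov hx hx' c_A05pm_113_s1 cutA_nil (noExt_A)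

noncomputable def cut_A05pm_123_s1 : Cut := Cut.of [[⟨4, 0, 0, 1449551462⟩]]

noncomputable def f_A05pm_123_s1 : ℕ → ℕ → ℕ → ℕ → Bool := onCell 536870912 536870912 1073741824 536870912 780900216 37827925
    (rowF 0 true true false .npn 1 2 3 (qsf 536870912 536870912 1073741824 536870912 3) ndB0q1 ndB5q2 pcB3 cut_A05pm_123_s1 Ext.none)

def k0_A05pm_123_s1 : ∃ t, chk3 f_A05pm_123_s1 t 1 1 1 = true :=
  ⟨(l 6), by decide +kernel⟩

theorem c_A05pm_123_s1 : CertF 536870912 536870912 1073741824 536870912 780900216 37827925 true true false .npn 1 2 3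
    ndB0q1 ndB5q2 pcB3 cut_A05pm_123_s1 Ext.none :=
  certF0 (fam := true) (s1 := true) (s2 := false) (a := 1) (b := 2) (c := 3) (cn := .npn) (n1 := ndB0q1) (n2 := ndB5q2) (pc := pcB3) (cut := cut_A05pm_123_s1) (xt := Ext.none) (P1 := 536870912) (W1 := 536870912) (P2 := 1073741824) (W2 := 536870912) (P3 := 780900216) (W3 := 37827925)
    rfl k0_A05pm_123_s1

theorem s_A05pm_123_s1 {κ x : ℝ} (hκ : κ * h0 = ken x) (hx : ((780900216 : ℕ) : ℝ) / S ≤ x)
    (hx' : x ≤ (((780900216 : ℕ) : ℝ) + (37827925 : ℕ)) / S) :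
    AltA (VFD κ) PP tK tL pcB [⟨3, 0, 0, 1449551462⟩] 1 2 3 0 5 (sgb true) (sgb false) x :=
  strip_altAD (m := 1449551462) true rfl hκ (SH.κ0 hκ (SH.hx1 hx).le (SH.hx2 hx').le) (SH.hx1 hx).le (SH.hx2 hx') (covB01).cov (covB52).cov hx hx' c_A05pm_123_s1 cutA_nil (noExt_A)

noncomputable def cut_A05pm_133_s1 : Cut := Cut.of [[⟨4, 0, 0, 1449551462⟩]]

noncomputable def f_A05pm_133_s1 : ℕ → ℕ → ℕ → ℕ → Bool := onCell 536870912 536870912 0 1230186008 780900216 37827925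
    (rowF 0 true true false .dn 1 3 3 (qsf 536870912 536870912 0 1230186008 3) ndB0q1 ndB5q3 pcB3 cut_A05pm_133_s1 Ext.none)

def k0_A05pm_133_s1 : ∃ t, chk3 f_A05pm_133_s1 t 1 1 1 = true :=
  ⟨(l 6), by decide +kernel⟩

theorem c_A05pm_133_s1 : CertF 536870912 536870912 0 1230186008 780900216 37827925 true true false .dn 1 3 3
    ndB0q1 ndB5q3 pcB3 cut_A05pm_133_s1 Ext.none :=
  certF0 (fam := true) (s1 := true) (s2 := false) (a := 1) (b := 3) (c := 3) (cn := .dn) (n1 := ndB0q1) (n2 := ndB5q3) (pc := pcB3) (cut := cut_A05pm_133_s1) (xt := Ext.none) (P1 := 536870912) (W1 := 536870912) (P2 := 0) (W2 := 1230186008) (P3 := 780900216) (W3 := 37827925)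
    rfl k0_A05pm_133_s1

theorem s_A05pm_133_s1 {κ x : ℝ} (hκ : κ * h0 = ken x) (hx : ((780900216 : ℕ) : ℝ) / S ≤ x)
    (hx' : x ≤ (((780900216 : ℕ) : ℝ) + (37827925 : ℕ)) / S) :
    AltA (VFD κ) PP tK tL pcB [⟨3, 0, 0, 1449551462⟩] 1 3 3 0 5 (sgb true) (sgb false) x :=
  strip_altAD (m := 1449551462) true rfl hκ (SH.κ0 hκ (SH.hx1 hx).le (SH.hx2 hx').le) (SH.hx1 hx).le (SH.hx2 hx') (covB01).cov (covB53).cov hx hx' c_A05pm_133_s1 cutA_nil (noExt_A)

noncomputable def cut_A05pm_202_s1 : Cut := Cut.of [[⟨4, 0, 0, 1449551462⟩]]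

noncomputable def f_A05pm_202_s1 : ℕ → ℕ → ℕ → ℕ → Bool := onCell 0 536870912 0 536870912 780900216 37827925
    (rowF 0 true true false .pp 2 0 2 (qsf 0 536870912 0 536870912 2) ndB0q2 ndB5q0 pcB2 cut_A05pm_202_s1 Ext.none)

def k0_A05pm_202_s1 : ∃ t, chk3 f_A05pm_202_s1 t 1 1 1 = true :=
  ⟨(l 6), by decide +kernel⟩

theorem c_A05pm_202_s1 : CertF 0 536870912 0 536870912 780900216 37827925 true true false .pp 2 0 2
    ndB0q2 ndB5q0 pcB2 cut_A05pm_202_s1 Ext.none :=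
  certF0 (fam := true) (s1 := true) (s2 := false) (a := 2) (b := 0) (c := 2) (cn := .pp) (n1 := ndB0q2) (n2 := ndB5q0) (pc := pcB2) (cut := cut_A05pm_202_s1) (xt := Ext.none) (P1 := 0) (W1 := 536870912) (P2 := 0) (W2 := 536870912) (P3 := 780900216) (W3 := 37827925)
    rfl k0_A05pm_202_s1

theorem s_A05pm_202_s1 {κ x : ℝ} (hκ : κ * h0 = ken x) (hx : ((780900216 : ℕ) : ℝ) / S ≤ x)
    (hx' : x ≤ (((780900216 : ℕ) : ℝ) + (37827925 : ℕ)) / S) :
    AltA (VFD κ) PP tK tL pcB [⟨3, 0, 0, 1449551462⟩] 2 0 2 0 5 (sgb true) (sgb false) x :=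
  strip_altAD (m := 1449551462) true rfl hκ (SH.κ0 hκ (SH.hx1 hx).le (SH.hx2 hx').le) (SH.hx1 hx).le (SH.hx2 hx') (covB02).cov (covB50).cov hx hx' c_A05pm_202_s1 cutA_nil (noExt_A)

noncomputable def cut_A05pm_203_s1 : Cut := Cut.of [[⟨4, 0, 0, 1449551462⟩]]

noncomputable def f_A05pm_203_s1 : ℕ → ℕ → ℕ → ℕ → Bool := onCell 0 536870912 0 536870912 780900216 37827925
    (rowF 0 true true false .up 2 0 3 (qsf 0 536870912 0 536870912 3) ndB0q2 ndB5q0 pcB3 cut_A05pm_203_s1 Ext.none)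

def k0_A05pm_203_s1 : ∃ t, chk3 f_A05pm_203_s1 t 1 1 1 = true :=
  ⟨(l 6), by decide +kernel⟩

theorem c_A05pm_203_s1 : CertF 0 536870912 0 536870912 780900216 37827925 true true false .up 2 0 3
    ndB0q2 ndB5q0 pcB3 cut_A05pm_203_s1 Ext.none :=
  certF0 (fam := true) (s1 := true) (s2 := false) (a := 2) (b := 0) (c := 3) (cn := .up) (n1 := ndB0q2) (n2 := ndB5q0) (pc := pcB3) (cut := cut_A05pm_203_s1) (xt := Ext.none) (P1 := 0) (W1 := 536870912) (P2 := 0) (W2 := 536870912) (P3 := 780900216) (W3 := 37827925)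
    rfl k0_A05pm_203_s1

theorem s_A05pm_203_s1 {κ x : ℝ} (hκ : κ * h0 = ken x) (hx : ((780900216 : ℕ) : ℝ) / S ≤ x)
    (hx' : x ≤ (((780900216 : ℕ) : ℝ) + (37827925 : ℕ)) / S) :
    AltA (VFD κ) PP tK tL pcB [⟨3, 0, 0, 1449551462⟩] 2 0 3 0 5 (sgb true) (sgb false) x :=
  strip_altAD (m := 1449551462) true rfl hκ (SH.κ0 hκ (SH.hx1 hx).le (SH.hx2 hx').le) (SH.hx1 hx).le (SH.hx2 hx') (covB02).cov (covB50).cov hx hx' c_A05pm_203_s1 cutA_nil (noExt_A)

noncomputable def cut_A05pm_213_s1 : Cut := Cut.of [[⟨4, 0, 0, 1449551462⟩]]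

noncomputable def f_A05pm_213_s1 : ℕ → ℕ → ℕ → ℕ → Bool := onCell 0 536870912 536870912 536870912 780900216 37827925
    (rowF 0 true true false .pnn 2 1 3 (qsf 0 536870912 536870912 536870912 3) ndB0q2 ndB5q1 pcB3 cut_A05pm_213_s1 Ext.none)

def k0_A05pm_213_s1 : ∃ t, chk3 f_A05pm_213_s1 t 1 1 1 = true :=
  ⟨(l 6), by decide +kernel⟩

theorem c_A05pm_213_s1 : CertF 0 536870912 536870912 536870912 780900216 37827925 true true false .pnn 2 1 3
    ndB0q2 ndB5q1 pcB3 cut_A05pm_213_s1 Ext.none :=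
  certF0 (fam := true) (s1 := true) (s2 := false) (a := 2) (b := 1) (c := 3) (cn := .pnn) (n1 := ndB0q2) (n2 := ndB5q1) (pc := pcB3) (cut := cut_A05pm_213_s1) (xt := Ext.none) (P1 := 0) (W1 := 536870912) (P2 := 536870912) (W2 := 536870912) (P3 := 780900216) (W3 := 37827925)
    rfl k0_A05pm_213_s1

theorem s_A05pm_213_s1 {κ x : ℝ} (hκ : κ * h0 = ken x) (hx : ((780900216 : ℕ) : ℝ) / S ≤ x)
    (hx' : x ≤ (((780900216 : ℕ) : ℝ) + (37827925 : ℕ)) / S) :
    AltA (VFD κ) PP tK tL pcB [⟨3, 0, 0, 1449551462⟩] 2 1 3 0 5 (sgb true) (sgb false) x :=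
  strip_altAD (m := 1449551462) true rfl hκ (SH.κ0 hκ (SH.hx1 hx).le (SH.hx2 hx').le) (SH.hx1 hx).le (SH.hx2 hx') (covB02).cov (covB51).cov hx hx' c_A05pm_213_s1 cutA_nil (noExt_A)

noncomputable def cut_A05mm_001_s1 : Cut := Cut.of [[⟨4, 0, 0, 1449551462⟩]]

noncomputable def f_A05mm_001_s1 : ℕ → ℕ → ℕ → ℕ → Bool := onCell 0 536870912 0 536870912 780900216 37827925
    (rowF 0 true false false .up 0 0 1 (qsf 0 536870912 0 536870912 1) ndB0q0 ndB5q0 pcB1 cut_A05mm_001_s1 Ext.none)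

def k0_A05mm_001_s1 : ∃ t, chk3 f_A05mm_001_s1 t 1 1 1 = true :=
  ⟨(l 4), by decide +kernel⟩

theorem c_A05mm_001_s1 : CertF 0 536870912 0 536870912 780900216 37827925 true false false .up 0 0 1
    ndB0q0 ndB5q0 pcB1 cut_A05mm_001_s1 Ext.none :=
  certF0 (fam := true) (s1 := false) (s2 := false) (a := 0) (b := 0) (c := 1) (cn := .up) (n1 := ndB0q0) (n2 := ndB5q0) (pc := pcB1) (cut := cut_A05mm_001_s1) (xt := Ext.none) (P1 := 0) (W1 := 536870912) (P2 := 0) (W2 := 536870912) (P3 := 780900216) (W3 := 37827925)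
    rfl k0_A05mm_001_s1

theorem s_A05mm_001_s1 {κ x : ℝ} (hκ : κ * h0 = ken x) (hx : ((780900216 : ℕ) : ℝ) / S ≤ x)
    (hx' : x ≤ (((780900216 : ℕ) : ℝ) + (37827925 : ℕ)) / S) :
    AltA (VFD κ) PP tK tL pcB [⟨3, 0, 0, 1449551462⟩] 0 0 1 0 5 (sgb false) (sgb false) x :=
  strip_altAD (m := 1449551462) true rfl hκ (SH.κ0 hκ (SH.hx1 hx).le (SH.hx2 hx').le) (SH.hx1 hx).le (SH.hx2 hx') (covB00).cov (covB50).cov hx hx' c_A05mm_001_s1 cutA_nil (noExt_A)

noncomputable def cut_A05mm_011_s1 : Cut := Cut.of [[⟨4, 0, 0, 1449551462⟩]]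

noncomputable def f_A05mm_011_s1 : ℕ → ℕ → ℕ → ℕ → Bool := onCell 0 536870912 536870912 536870912 780900216 37827925
    (rowF 0 true false false .pnn 0 1 1 (qsf 0 536870912 536870912 536870912 1) ndB0q0 ndB5q1 pcB1 cut_A05mm_011_s1 Ext.none)

def k0_A05mm_011_s1 : ∃ t, chk3 f_A05mm_011_s1 t 1 1 1 = true :=
  ⟨(l 4), by decide +kernel⟩

theorem c_A05mm_011_s1 : CertF 0 536870912 536870912 536870912 780900216 37827925 true false false .pnn 0 1 1
    ndB0q0 ndB5q1 pcB1 cut_A05mm_011_s1 Ext.none :=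
  certF0 (fam := true) (s1 := false) (s2 := false) (a := 0) (b := 1) (c := 1) (cn := .pnn) (n1 := ndB0q0) (n2 := ndB5q1) (pc := pcB1) (cut := cut_A05mm_011_s1) (xt := Ext.none) (P1 := 0) (W1 := 536870912) (P2 := 536870912) (W2 := 536870912) (P3 := 780900216) (W3 := 37827925)
    rfl k0_A05mm_011_s1

theorem s_A05mm_011_s1 {κ x : ℝ} (hκ : κ * h0 = ken x) (hx : ((780900216 : ℕ) : ℝ) / S ≤ x)
    (hx' : x ≤ (((780900216 : ℕ) : ℝ) + (37827925 : ℕ)) / S) :
    AltA (VFD κ) PP tK tL pcB [⟨3, 0, 0, 1449551462⟩] 0 1 1 0 5 (sgb false) (sgb false) x :=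
  strip_altAD (m := 1449551462) true rfl hκ (SH.κ0 hκ (SH.hx1 hx).le (SH.hx2 hx').le) (SH.hx1 hx).le (SH.hx2 hx') (covB00).cov (covB51).cov hx hx' c_A05mm_011_s1 cutA_nil (noExt_A)

noncomputable def cut_A05mm_012_s1 : Cut := Cut.of [[⟨4, 0, 0, 1449551462⟩]]

noncomputable def f_A05mm_012_s1 : ℕ → ℕ → ℕ → ℕ → Bool := onCell 0 536870912 536870912 536870912 780900216 37827925
    (rowF 0 true false false .pnp 0 1 2 (qsf 0 536870912 536870912 536870912 2) ndB0q0 ndB5q1 pcB2 cut_A05mm_012_s1 Ext.none)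

def k0_A05mm_012_s1 : ∃ t, chk3 f_A05mm_012_s1 t 1 1 1 = true :=
  ⟨(l 4), by decide +kernel⟩

theorem c_A05mm_012_s1 : CertF 0 536870912 536870912 536870912 780900216 37827925 true false false .pnp 0 1 2
    ndB0q0 ndB5q1 pcB2 cut_A05mm_012_s1 Ext.none :=
  certF0 (fam := true) (s1 := false) (s2 := false) (a := 0) (b := 1) (c := 2) (cn := .pnp) (n1 := ndB0q0) (n2 := ndB5q1) (pc := pcB2) (cut := cut_A05mm_012_s1) (xt := Ext.none) (P1 := 0) (W1 := 536870912) (P2 := 536870912) (W2 := 536870912) (P3 := 780900216) (W3 := 37827925)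
    rfl k0_A05mm_012_s1

theorem s_A05mm_012_s1 {κ x : ℝ} (hκ : κ * h0 = ken x) (hx : ((780900216 : ℕ) : ℝ) / S ≤ x)
    (hx' : x ≤ (((780900216 : ℕ) : ℝ) + (37827925 : ℕ)) / S) :
    AltA (VFD κ) PP tK tL pcB [⟨3, 0, 0, 1449551462⟩] 0 1 2 0 5 (sgb false) (sgb false) x :=
  strip_altAD (m := 1449551462) true rfl hκ (SH.κ0 hκ (SH.hx1 hx).le (SH.hx2 hx').le) (SH.hx1 hx).le (SH.hx2 hx') (covB00).cov (covB51).cov hx hx' c_A05mm_012_s1 cutA_nil (noExt_A)

noncomputable def cut_A05mm_022_s1 : Cut := Cut.of [[⟨4, 0, 0, 1449551462⟩]]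

noncomputable def f_A05mm_022_s1 : ℕ → ℕ → ℕ → ℕ → Bool := onCell 0 536870912 1073741824 536870912 780900216 37827925
    (rowF 0 true false false .pp 0 2 2 (qsf 0 536870912 1073741824 536870912 2) ndB0q0 ndB5q2 pcB2 cut_A05mm_022_s1 Ext.none)

def k0_A05mm_022_s1 : ∃ t, chk3 f_A05mm_022_s1 t 1 1 1 = true :=
  ⟨(l 4), by decide +kernel⟩

theorem c_A05mm_022_s1 : CertF 0 536870912 1073741824 536870912 780900216 37827925 true false false .pp 0 2 2
    ndB0q0 ndB5q2 pcB2 cut_A05mm_022_s1 Ext.none :=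
  certF0 (fam := true) (s1 := false) (s2 := false) (a := 0) (b := 2) (c := 2) (cn := .pp) (n1 := ndB0q0) (n2 := ndB5q2) (pc := pcB2) (cut := cut_A05mm_022_s1) (xt := Ext.none) (P1 := 0) (W1 := 536870912) (P2 := 1073741824) (W2 := 536870912) (P3 := 780900216) (W3 := 37827925)
    rfl k0_A05mm_022_s1

theorem s_A05mm_022_s1 {κ x : ℝ} (hκ : κ * h0 = ken x) (hx : ((780900216 : ℕ) : ℝ) / S ≤ x)
    (hx' : x ≤ (((780900216 : ℕ) : ℝ) + (37827925 : ℕ)) / S) :
    AltA (VFD κ) PP tK tL pcB [⟨3, 0, 0, 1449551462⟩] 0 2 2 0 5 (sgb false) (sgb false) x :=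
  strip_altAD (m := 1449551462) true rfl hκ (SH.κ0 hκ (SH.hx1 hx).le (SH.hx2 hx').le) (SH.hx1 hx).le (SH.hx2 hx') (covB00).cov (covB52).cov hx hx' c_A05mm_022_s1 cutA_nil (noExt_A)

noncomputable def cut_A05mm_023_s1 : Cut := Cut.of [[⟨4, 0, 0, 1449551462⟩]]

noncomputable def f_A05mm_023_s1 : ℕ → ℕ → ℕ → ℕ → Bool := onCell 0 536870912 1073741824 536870912 780900216 37827925
    (rowF 0 true false false .up 0 2 3 (qsf 0 536870912 1073741824 536870912 3) ndB0q0 ndB5q2 pcB3 cut_A05mm_023_s1 Ext.none)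

def k0_A05mm_023_s1 : ∃ t, chk3 f_A05mm_023_s1 t 1 1 1 = true :=
  ⟨(l 4), by decide +kernel⟩

theorem c_A05mm_023_s1 : CertF 0 536870912 1073741824 536870912 780900216 37827925 true false false .up 0 2 3
    ndB0q0 ndB5q2 pcB3 cut_A05mm_023_s1 Ext.none :=
  certF0 (fam := true) (s1 := false) (s2 := false) (a := 0) (b := 2) (c := 3) (cn := .up) (n1 := ndB0q0) (n2 := ndB5q2) (pc := pcB3) (cut := cut_A05mm_023_s1) (xt := Ext.none) (P1 := 0) (W1 := 536870912) (P2 := 1073741824) (W2 := 536870912) (P3 := 780900216) (W3 := 37827925)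
    rfl k0_A05mm_023_s1

theorem s_A05mm_023_s1 {κ x : ℝ} (hκ : κ * h0 = ken x) (hx : ((780900216 : ℕ) : ℝ) / S ≤ x)
    (hx' : x ≤ (((780900216 : ℕ) : ℝ) + (37827925 : ℕ)) / S) :
    AltA (VFD κ) PP tK tL pcB [⟨3, 0, 0, 1449551462⟩] 0 2 3 0 5 (sgb false) (sgb false) x :=
  strip_altAD (m := 1449551462) true rfl hκ (SH.κ0 hκ (SH.hx1 hx).le (SH.hx2 hx').le) (SH.hx1 hx).le (SH.hx2 hx') (covB00).cov (covB52).cov hx hx' c_A05mm_023_s1 cutA_nil (noExt_A)

noncomputable def cut_A05mm_033_s1 : Cut := Cut.of [[⟨4, 0, 0, 1449551462⟩]]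

noncomputable def f_A05mm_033_s1 : ℕ → ℕ → ℕ → ℕ → Bool := onCell 0 536870912 0 1230186008 780900216 37827925
    (rowF 0 true false false .pnn 0 3 3 (qsf 0 536870912 0 1230186008 3) ndB0q0 ndB5q3 pcB3 cut_A05mm_033_s1 Ext.none)

def k0_A05mm_033_s1 : ∃ t, chk3 f_A05mm_033_s1 t 1 1 1 = true :=
  ⟨(l 4), by decide +kernel⟩

theorem c_A05mm_033_s1 : CertF 0 536870912 0 1230186008 780900216 37827925 true false false .pnn 0 3 3
    ndB0q0 ndB5q3 pcB3 cut_A05mm_033_s1 Ext.none :=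
  certF0 (fam := true) (s1 := false) (s2 := false) (a := 0) (b := 3) (c := 3) (cn := .pnn) (n1 := ndB0q0) (n2 := ndB5q3) (pc := pcB3) (cut := cut_A05mm_033_s1) (xt := Ext.none) (P1 := 0) (W1 := 536870912) (P2 := 0) (W2 := 1230186008) (P3 := 780900216) (W3 := 37827925)
    rfl k0_A05mm_033_s1

theorem s_A05mm_033_s1 {κ x : ℝ} (hκ : κ * h0 = ken x) (hx : ((780900216 : ℕ) : ℝ) / S ≤ x)
    (hx' : x ≤ (((780900216 : ℕ) : ℝ) + (37827925 : ℕ)) / S) :
    AltA (VFD κ) PP tK tL pcB [⟨3, 0, 0, 1449551462⟩] 0 3 3 0 5 (sgb false) (sgb false) x :=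
  strip_altAD (m := 1449551462) true rfl hκ (SH.κ0 hκ (SH.hx1 hx).le (SH.hx2 hx').le) (SH.hx1 hx).le (SH.hx2 hx') (covB00).cov (covB53).cov hx hx' c_A05mm_033_s1 cutA_nil (noExt_A)

noncomputable def cut_A05mm_101_s1 : Cut := Cut.of [[⟨4, 0, 0, 1449551462⟩]]

noncomputable def f_A05mm_101_s1 : ℕ → ℕ → ℕ → ℕ → Bool := onCell 536870912 536870912 0 536870912 780900216 37827925
    (rowF 0 true false false .npn 1 0 1 (qsf 536870912 536870912 0 536870912 1) ndB0q1 ndB5q0 pcB1 cut_A05mm_101_s1 Ext.none)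

def k0_A05mm_101_s1 : ∃ t, chk3 f_A05mm_101_s1 t 1 1 1 = true :=
  ⟨(l 4), by decide +kernel⟩

theorem c_A05mm_101_s1 : CertF 536870912 536870912 0 536870912 780900216 37827925 true false false .npn 1 0 1
    ndB0q1 ndB5q0 pcB1 cut_A05mm_101_s1 Ext.none :=
  certF0 (fam := true) (s1 := false) (s2 := false) (a := 1) (b := 0) (c := 1) (cn := .npn) (n1 := ndB0q1) (n2 := ndB5q0) (pc := pcB1) (cut := cut_A05mm_101_s1) (xt := Ext.none) (P1 := 536870912) (W1 := 536870912) (P2 := 0) (W2 := 536870912) (P3 := 780900216) (W3 := 37827925)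
    rfl k0_A05mm_101_s1

theorem s_A05mm_101_s1 {κ x : ℝ} (hκ : κ * h0 = ken x) (hx : ((780900216 : ℕ) : ℝ) / S ≤ x)
    (hx' : x ≤ (((780900216 : ℕ) : ℝ) + (37827925 : ℕ)) / S) :
    AltA (VFD κ) PP tK tL pcB [⟨3, 0, 0, 1449551462⟩] 1 0 1 0 5 (sgb false) (sgb false) x :=
  strip_altAD (m := 1449551462) true rfl hκ (SH.κ0 hκ (SH.hx1 hx).le (SH.hx2 hx').le) (SH.hx1 hx).le (SH.hx2 hx') (covB01).cov (covB50).cov hx hx' c_A05mm_101_s1 cutA_nil (noExt_A)

noncomputable def cut_A05mm_102_s1 : Cut := Cut.of [[⟨4, 0, 0, 1449551462⟩]]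

noncomputable def f_A05mm_102_s1 : ℕ → ℕ → ℕ → ℕ → Bool := onCell 536870912 536870912 0 536870912 780900216 37827925
    (rowF 0 true false false .npp 1 0 2 (qsf 536870912 536870912 0 536870912 2) ndB0q1 ndB5q0 pcB2 cut_A05mm_102_s1 Ext.none)

def k0_A05mm_102_s1 : ∃ t, chk3 f_A05mm_102_s1 t 1 1 1 = true :=
  ⟨(l 4), by decide +kernel⟩

theorem c_A05mm_102_s1 : CertF 536870912 536870912 0 536870912 780900216 37827925 true false false .npp 1 0 2
    ndB0q1 ndB5q0 pcB2 cut_A05mm_102_s1 Ext.none :=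
  certF0 (fam := true) (s1 := false) (s2 := false) (a := 1) (b := 0) (c := 2) (cn := .npp) (n1 := ndB0q1) (n2 := ndB5q0) (pc := pcB2) (cut := cut_A05mm_102_s1) (xt := Ext.none) (P1 := 536870912) (W1 := 536870912) (P2 := 0) (W2 := 536870912) (P3 := 780900216) (W3 := 37827925)
    rfl k0_A05mm_102_s1

theorem s_A05mm_102_s1 {κ x : ℝ} (hκ : κ * h0 = ken x) (hx : ((780900216 : ℕ) : ℝ) / S ≤ x)
    (hx' : x ≤ (((780900216 : ℕ) : ℝ) + (37827925 : ℕ)) / S) :
    AltA (VFD κ) PP tK tL pcB [⟨3, 0, 0, 1449551462⟩] 1 0 2 0 5 (sgb false) (sgb false) x :=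
  strip_altAD (m := 1449551462) true rfl hκ (SH.κ0 hκ (SH.hx1 hx).le (SH.hx2 hx').le) (SH.hx1 hx).le (SH.hx2 hx') (covB01).cov (covB50).cov hx hx' c_A05mm_102_s1 cutA_nil (noExt_A)

noncomputable def cut_A05mm_112_s1 : Cut := Cut.of [[⟨4, 0, 0, 1449551462⟩]]

noncomputable def f_A05mm_112_s1 : ℕ → ℕ → ℕ → ℕ → Bool := onCell 536870912 536870912 536870912 536870912 780900216 37827925
    (rowF 0 true false false .dn 1 1 2 (qsf 536870912 536870912 536870912 536870912 2) ndB0q1 ndB5q1 pcB2 cut_A05mm_112_s1 Ext.none)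

def k0_A05mm_112_s1 : ∃ t, chk3 f_A05mm_112_s1 t 1 1 1 = true :=
  ⟨(l 4), by decide +kernel⟩

theorem c_A05mm_112_s1 : CertF 536870912 536870912 536870912 536870912 780900216 37827925 true false false .dn 1 1 2
    ndB0q1 ndB5q1 pcB2 cut_A05mm_112_s1 Ext.none :=
  certF0 (fam := true) (s1 := false) (s2 := false) (a := 1) (b := 1) (c := 2) (cn := .dn) (n1 := ndB0q1) (n2 := ndB5q1) (pc := pcB2) (cut := cut_A05mm_112_s1) (xt := Ext.none) (P1 := 536870912) (W1 := 536870912) (P2 := 536870912) (W2 := 536870912) (P3 := 780900216) (W3 := 37827925)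
    rfl k0_A05mm_112_s1

theorem s_A05mm_112_s1 {κ x : ℝ} (hκ : κ * h0 = ken x) (hx : ((780900216 : ℕ) : ℝ) / S ≤ x)
    (hx' : x ≤ (((780900216 : ℕ) : ℝ) + (37827925 : ℕ)) / S) :
    AltA (VFD κ) PP tK tL pcB [⟨3, 0, 0, 1449551462⟩] 1 1 2 0 5 (sgb false) (sgb false) x :=
  strip_altAD (m := 1449551462) true rfl hκ (SH.κ0 hκ (SH.hx1 hx).le (SH.hx2 hx').le) (SH.hx1 hx).le (SH.hx2 hx') (covB01).cov (covB51).cov hx hx' c_A05mm_112_s1 cutA_nil (noExt_A)

noncomputable def cut_A05mm_113_s1 : Cut := Cut.of [[⟨4, 0, 0, 1449551462⟩]]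

noncomputable def f_A05mm_113_s1 : ℕ → ℕ → ℕ → ℕ → Bool := onCell 536870912 536870912 536870912 536870912 780900216 37827925
    (rowF 0 true false false .nn 1 1 3 (qsf 536870912 536870912 536870912 536870912 3) ndB0q1 ndB5q1 pcB3 cut_A05mm_113_s1 Ext.none)

def k0_A05mm_113_s1 : ∃ t, chk3 f_A05mm_113_s1 t 1 1 1 = true :=
  ⟨(l 4), by decide +kernel⟩

theorem c_A05mm_113_s1 : CertF 536870912 536870912 536870912 536870912 780900216 37827925 true false false .nn 1 1 3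
    ndB0q1 ndB5q1 pcB3 cut_A05mm_113_s1 Ext.none :=
  certF0 (fam := true) (s1 := false) (s2 := false) (a := 1) (b := 1) (c := 3) (cn := .nn) (n1 := ndB0q1) (n2 := ndB5q1) (pc := pcB3) (cut := cut_A05mm_113_s1) (xt := Ext.none) (P1 := 536870912) (W1 := 536870912) (P2 := 536870912) (W2 := 536870912) (P3 := 780900216) (W3 := 37827925)
    rfl k0_A05mm_113_s1

theorem s_A05mm_113_s1 {κ x : ℝ} (hκ : κ * h0 = ken x) (hx : ((780900216 : ℕ) : ℝ) / S ≤ x)
    (hx' : x ≤ (((780900216 : ℕ) : ℝ) + (37827925 : ℕ)) / S) :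
    AltA (VFD κ) PP tK tL pcB [⟨3, 0, 0, 1449551462⟩] 1 1 3 0 5 (sgb false) (sgb false) x :=
  strip_altAD (m := 1449551462) true rfl hκ (SH.κ0 hκ (SH.hx1 hx).le (SH.hx2 hx').le) (SH.hx1 hx).le (SH.hx2 hx') (covB01).cov (covB51).cov hx hx' c_A05mm_113_s1 cutA_nil (noExt_A)

noncomputable def cut_A05mm_123_s1 : Cut := Cut.of [[⟨4, 0, 0, 1449551462⟩]]

noncomputable def f_A05mm_123_s1 : ℕ → ℕ → ℕ → ℕ → Bool := onCell 536870912 536870912 1073741824 536870912 780900216 37827925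
    (rowF 0 true false false .npn 1 2 3 (qsf 536870912 536870912 1073741824 536870912 3) ndB0q1 ndB5q2 pcB3 cut_A05mm_123_s1 Ext.none)

def k0_A05mm_123_s1 : ∃ t, chk3 f_A05mm_123_s1 t 1 1 1 = true :=
  ⟨(l 4), by decide +kernel⟩

theorem c_A05mm_123_s1 : CertF 536870912 536870912 1073741824 536870912 780900216 37827925 true false false .npn 1 2 3
    ndB0q1 ndB5q2 pcB3 cut_A05mm_123_s1 Ext.none :=
  certF0 (fam := true) (s1 := false) (s2 := false) (a := 1) (b := 2) (c := 3) (cn := .npn) (n1 := ndB0q1) (n2 := ndB5q2) (pc := pcB3) (cut := cut_A05mm_123_s1) (xt := Ext.none) (P1 := 536870912) (W1 := 536870912) (P2 := 1073741824) (W2 := 536870912) (P3 := 780900216) (W3 := 37827925)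
    rfl k0_A05mm_123_s1

theorem s_A05mm_123_s1 {κ x : ℝ} (hκ : κ * h0 = ken x) (hx : ((780900216 : ℕ) : ℝ) / S ≤ x)
    (hx' : x ≤ (((780900216 : ℕ) : ℝ) + (37827925 : ℕ)) / S) :
    AltA (VFD κ) PP tK tL pcB [⟨3, 0, 0, 1449551462⟩] 1 2 3 0 5 (sgb false) (sgb false) x :=
  strip_altAD (m := 1449551462) true rfl hκ (SH.κ0 hκ (SH.hx1 hx).le (SH.hx2 hx').le) (SH.hx1 hx).le (SH.hx2 hx') (covB01).cov (covB52).cov hx hx' c_A05mm_123_s1 cutA_nil (noExt_A)

noncomputable def cut_A05mm_133_s1 : Cut := Cut.of [[⟨4, 0, 0, 1449551462⟩]]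

noncomputable def f_A05mm_133_s1 : ℕ → ℕ → ℕ → ℕ → Bool := onCell 536870912 536870912 0 1230186008 780900216 37827925
    (rowF 0 true false false .dn 1 3 3 (qsf 536870912 536870912 0 1230186008 3) ndB0q1 ndB5q3 pcB3 cut_A05mm_133_s1 Ext.none)

def k0_A05mm_133_s1 : ∃ t, chk3 f_A05mm_133_s1 t 1 1 1 = true :=
  ⟨(l 4), by decide +kernel⟩

theorem c_A05mm_133_s1 : CertF 536870912 536870912 0 1230186008 780900216 37827925 true false false .dn 1 3 3
    ndB0q1 ndB5q3 pcB3 cut_A05mm_133_s1 Ext.none :=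
  certF0 (fam := true) (s1 := false) (s2 := false) (a := 1) (b := 3) (c := 3) (cn := .dn) (n1 := ndB0q1) (n2 := ndB5q3) (pc := pcB3) (cut := cut_A05mm_133_s1) (xt := Ext.none) (P1 := 536870912) (W1 := 536870912) (P2 := 0) (W2 := 1230186008) (P3 := 780900216) (W3 := 37827925)
    rfl k0_A05mm_133_s1

theorem s_A05mm_133_s1 {κ x : ℝ} (hκ : κ * h0 = ken x) (hx : ((780900216 : ℕ) : ℝ) / S ≤ x)
    (hx' : x ≤ (((780900216 : ℕ) : ℝ) + (37827925 : ℕ)) / S) :
    AltA (VFD κ) PP tK tL pcB [⟨3, 0, 0, 1449551462⟩] 1 3 3 0 5 (sgb false) (sgb false) x :=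
  strip_altAD (m := 1449551462) true rfl hκ (SH.κ0 hκ (SH.hx1 hx).le (SH.hx2 hx').le) (SH.hx1 hx).le (SH.hx2 hx') (covB01).cov (covB53).cov hx hx' c_A05mm_133_s1 cutA_nil (noExt_A)

noncomputable def cut_A05mm_202_s1 : Cut := Cut.of [[⟨4, 0, 0, 1449551462⟩]]

noncomputable def f_A05mm_202_s1 : ℕ → ℕ → ℕ → ℕ → Bool := onCell 0 536870912 0 536870912 780900216 37827925
    (rowF 0 true false false .pp 2 0 2 (qsf 0 536870912 0 536870912 2) ndB0q2 ndB5q0 pcB2 cut_A05mm_202_s1 Ext.none)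

def k0_A05mm_202_s1 : ∃ t, chk3 f_A05mm_202_s1 t 1 1 1 = true :=
  ⟨(l 4), by decide +kernel⟩

theorem c_A05mm_202_s1 : CertF 0 536870912 0 536870912 780900216 37827925 true false false .pp 2 0 2
    ndB0q2 ndB5q0 pcB2 cut_A05mm_202_s1 Ext.none :=
  certF0 (fam := true) (s1 := false) (s2 := false) (a := 2) (b := 0) (c := 2) (cn := .pp) (n1 := ndB0q2) (n2 := ndB5q0) (pc := pcB2) (cut := cut_A05mm_202_s1) (xt := Ext.none) (P1 := 0) (W1 := 536870912) (P2 := 0) (W2 := 536870912) (P3 := 780900216) (W3 := 37827925)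
    rfl k0_A05mm_202_s1

theorem s_A05mm_202_s1 {κ x : ℝ} (hκ : κ * h0 = ken x) (hx : ((780900216 : ℕ) : ℝ) / S ≤ x)
    (hx' : x ≤ (((780900216 : ℕ) : ℝ) + (37827925 : ℕ)) / S) :
    AltA (VFD κ) PP tK tL pcB [⟨3, 0, 0, 1449551462⟩] 2 0 2 0 5 (sgb false) (sgb false) x :=
  strip_altAD (m := 1449551462) true rfl hκ (SH.κ0 hκ (SH.hx1 hx).le (SH.hx2 hx').le) (SH.hx1 hx).le (SH.hx2 hx') (covB02).cov (covB50).cov hx hx' c_A05mm_202_s1 cutA_nil (noExt_A)

noncomputable def cut_A05mm_203_s1 : Cut := Cut.of [[⟨4, 0, 0, 1449551462⟩]]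

noncomputable def f_A05mm_203_s1 : ℕ → ℕ → ℕ → ℕ → Bool := onCell 0 536870912 0 536870912 780900216 37827925
    (rowF 0 true false false .up 2 0 3 (qsf 0 536870912 0 536870912 3) ndB0q2 ndB5q0 pcB3 cut_A05mm_203_s1 Ext.none)

def k0_A05mm_203_s1 : ∃ t, chk3 f_A05mm_203_s1 t 1 1 1 = true :=
  ⟨(l 4), by decide +kernel⟩

theorem c_A05mm_203_s1 : CertF 0 536870912 0 536870912 780900216 37827925 true false false .up 2 0 3
    ndB0q2 ndB5q0 pcB3 cut_A05mm_203_s1 Ext.none :=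
  certF0 (fam := true) (s1 := false) (s2 := false) (a := 2) (b := 0) (c := 3) (cn := .up) (n1 := ndB0q2) (n2 := ndB5q0) (pc := pcB3) (cut := cut_A05mm_203_s1) (xt := Ext.none) (P1 := 0) (W1 := 536870912) (P2 := 0) (W2 := 536870912) (P3 := 780900216) (W3 := 37827925)
    rfl k0_A05mm_203_s1

theorem s_A05mm_203_s1 {κ x : ℝ} (hκ : κ * h0 = ken x) (hx : ((780900216 : ℕ) : ℝ) / S ≤ x)
    (hx' : x ≤ (((780900216 : ℕ) : ℝ) + (37827925 : ℕ)) / S) :
    AltA (VFD κ) PP tK tL pcB [⟨3, 0, 0, 1449551462⟩] 2 0 3 0 5 (sgb false) (sgb false) x :=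
  strip_altAD (m := 1449551462) true rfl hκ (SH.κ0 hκ (SH.hx1 hx).le (SH.hx2 hx').le) (SH.hx1 hx).le (SH.hx2 hx') (covB02).cov (covB50).cov hx hx' c_A05mm_203_s1 cutA_nil (noExt_A)

noncomputable def cut_A05mm_213_s1 : Cut := Cut.of [[⟨4, 0, 0, 1449551462⟩]]

noncomputable def f_A05mm_213_s1 : ℕ → ℕ → ℕ → ℕ → Bool := onCell 0 536870912 536870912 536870912 780900216 37827925
    (rowF 0 true false false .pnn 2 1 3 (qsf 0 536870912 536870912 536870912 3) ndB0q2 ndB5q1 pcB3 cut_A05mm_213_s1 Ext.none)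

def k0_A05mm_213_s1 : ∃ t, chk3 f_A05mm_213_s1 t 1 1 1 = true :=
  ⟨(l 4), by decide +kernel⟩

theorem c_A05mm_213_s1 : CertF 0 536870912 536870912 536870912 780900216 37827925 true false false .pnn 2 1 3
    ndB0q2 ndB5q1 pcB3 cut_A05mm_213_s1 Ext.none :=
  certF0 (fam := true) (s1 := false) (s2 := false) (a := 2) (b := 1) (c := 3) (cn := .pnn) (n1 := ndB0q2) (n2 := ndB5q1) (pc := pcB3) (cut := cut_A05mm_213_s1) (xt := Ext.none) (P1 := 0) (W1 := 536870912) (P2 := 536870912) (W2 := 536870912) (P3 := 780900216) (W3 := 37827925)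
    rfl k0_A05mm_213_s1

theorem s_A05mm_213_s1 {κ x : ℝ} (hκ : κ * h0 = ken x) (hx : ((780900216 : ℕ) : ℝ) / S ≤ x)
    (hx' : x ≤ (((780900216 : ℕ) : ℝ) + (37827925 : ℕ)) / S) :
    AltA (VFD κ) PP tK tL pcB [⟨3, 0, 0, 1449551462⟩] 2 1 3 0 5 (sgb false) (sgb false) x :=
  strip_altAD (m := 1449551462) true rfl hκ (SH.κ0 hκ (SH.hx1 hx).le (SH.hx2 hx').le) (SH.hx1 hx).le (SH.hx2 hx') (covB02).cov (covB51).cov hx hx' c_A05mm_213_s1 cutA_nil (noExt_A)

noncomputable def cut_B00pp_001_s1 : Cut := Cut.of [[⟨4, 0, 0, 1449551462⟩]]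

noncomputable def f_B00pp_001_s1 : ℕ → ℕ → ℕ → ℕ → Bool := onCell 0 536870912 0 536870912 780900216 37827925
    (rowF 1 false true true .up 0 0 1 (qsf 0 536870912 536870912 536870912 0) ndB0q0 ndB0q1 pcB0 cut_B00pp_001_s1 Ext.none)

def k0_B00pp_001_s1 : ∃ t, chk3 f_B00pp_001_s1 t 1 1 1 = true :=
  ⟨(l 3), by decide +kernel⟩

theorem c_B00pp_001_s1 : CertF 0 536870912 536870912 536870912 780900216 37827925 false true true .up 0 0 1
    ndB0q0 ndB0q1 pcB0 cut_B00pp_001_s1 Ext.none :=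
  certF1 (fam := false) (s1 := true) (s2 := true) (a := 0) (b := 0) (c := 1) (cn := .up) (n1 := ndB0q0) (n2 := ndB0q1) (pc := pcB0) (cut := cut_B00pp_001_s1) (xt := Ext.none) (P1 := 0) (W1 := 536870912) (P2 := 536870912) (W2 := 536870912) (P3 := 780900216) (W3 := 37827925)
    rfl (fun _ => rfl) k0_B00pp_001_s1

theorem s_B00pp_001_s1 {κ x : ℝ} (hκ : κ * h0 = ken x) (hx : ((780900216 : ℕ) : ℝ) / S ≤ x)
    (hx' : x ≤ (((780900216 : ℕ) : ℝ) + (37827925 : ℕ)) / S) :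
    AltB (VFD κ) PP tK tL pcB [⟨3, 0, 0, 1449551462⟩] 0 0 1 0 0 (sgb true) (sgb true) x :=
  strip_altBD (m := 1449551462) true rfl hκ (SH.κ0 hκ (SH.hx1 hx).le (SH.hx2 hx').le) (SH.hx1 hx).le (SH.hx2 hx') (covB00).cov (covB01).cov hx hx' c_B00pp_001_s1 cutB_nil (noExt_B)

noncomputable def cut_B00pp_001_s3 : Cut := Cut.of [[⟨3, 0, 0, 2845415833⟩]]

noncomputable def f_B00pp_001_s3 : ℕ → ℕ → ℕ → ℕ → Bool := onCell 0 536870912 536870912 536870912 780900216 37827925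
    (rowF 0 false true true .up 0 0 1 (qsf 0 536870912 536870912 536870912 0) ndB0q0 ndB0q1 pcB0 cut_B00pp_001_s3 Ext.none)

def k0_B00pp_001_s3 : ∃ t, chk3 f_B00pp_001_s3 t 1 1 1 = true :=
  ⟨(l 6), by decide +kernel⟩

theorem c_B00pp_001_s3 : CertF 0 536870912 536870912 536870912 780900216 37827925 false true true .up 0 0 1
    ndB0q0 ndB0q1 pcB0 cut_B00pp_001_s3 Ext.none :=
  certF0 (fam := false) (s1 := true) (s2 := true) (a := 0) (b := 0) (c := 1) (cn := .up) (n1 := ndB0q0) (n2 := ndB0q1) (pc := pcB0) (cut := cut_B00pp_001_s3) (xt := Ext.none) (P1 := 0) (W1 := 536870912) (P2 := 536870912) (W2 := 536870912) (P3 := 780900216) (W3 := 37827925)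
    rfl k0_B00pp_001_s3

theorem s_B00pp_001_s3 {κ x : ℝ} (hκ : κ * h0 = ken x) (hx : ((780900216 : ℕ) : ℝ) / S ≤ x)
    (hx' : x ≤ (((780900216 : ℕ) : ℝ) + (37827925 : ℕ)) / S) :
    AltB (VFD κ) PP tK tL pcB [⟨4, 0, 0, 2845415833⟩] 0 0 1 0 0 (sgb true) (sgb true) x :=
  strip_altBD (m := 2845415833) false rfl hκ (SH.κ0 hκ (SH.hx1 hx).le (SH.hx2 hx').le) (SH.hx1 hx).le (SH.hx2 hx') (covB00).cov (covB01).cov hx hx' c_B00pp_001_s3 cutB_nil (noExt_B)

noncomputable def cut_B00pp_011_s1 : Cut := Cut.of [[⟨4, 0, 0, 1449551462⟩], [⟨0, 0, 0, 67108864⟩, ⟨1, 1, 0, 67108864⟩, ⟨2, 1, 0, 67108864⟩]]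

noncomputable def f_B00pp_011_s1 : ℕ → ℕ → ℕ → ℕ → Bool := onCell 536870912 536870912 536870912 536870912 780900216 37827925
    (rowF 2 false true true .pnn 0 1 1 (qsf 0 536870912 536870912 536870912 1) ndB0q0 ndB0q1 pcB1 cut_B00pp_011_s1 Ext.none)

def k0_B00pp_011_s1 : ∃ t, chk3 f_B00pp_011_s1 t 1 1 1 = true :=
  ⟨(a (l 3) (b (l 3) (a (l 3) (b (l 3) (b (l 3) (a (l 3) (b (l 3) (a (l 3) (l 14))))))))), by decide +kernel⟩

theorem c_B00pp_011_s1 : CertF 0 536870912 536870912 536870912 780900216 37827925 false true true .pnn 0 1 1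
    ndB0q0 ndB0q1 pcB1 cut_B00pp_011_s1 Ext.none :=
  certF2 (fam := false) (s1 := true) (s2 := true) (a := 0) (b := 1) (c := 1) (cn := .pnn) (n1 := ndB0q0) (n2 := ndB0q1) (pc := pcB1) (cut := cut_B00pp_011_s1) (xt := Ext.none) (P1 := 0) (W1 := 536870912) (P2 := 536870912) (W2 := 536870912) (P3 := 780900216) (W3 := 37827925)
    rfl (fun _ => rfl) k0_B00pp_011_s1

theorem s_B00pp_011_s1 {κ x : ℝ} (hκ : κ * h0 = ken x) (hx : ((780900216 : ℕ) : ℝ) / S ≤ x)
    (hx' : x ≤ (((780900216 : ℕ) : ℝ) + (37827925 : ℕ)) / S)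
    (H : CutB (VFD κ) PP tK tL pcB (Cut.of [[⟨0, 0, 0, 67108864⟩, ⟨1, 1, 0, 67108864⟩, ⟨2, 1, 0, 67108864⟩]]) 0 1 1 0 0 (sgb true) (sgb true) x) :
    AltB (VFD κ) PP tK tL pcB [⟨3, 0, 0, 1449551462⟩] 0 1 1 0 0 (sgb true) (sgb true) x :=
  strip_altBD (m := 1449551462) true rfl hκ (SH.κ0 hκ (SH.hx1 hx).le (SH.hx2 hx').le) (SH.hx1 hx).le (SH.hx2 hx') (covB00).cov (covB01).cov hx hx' c_B00pp_011_s1 H (noExt_B)

noncomputable def cut_B00pp_011_s3 : Cut := Cut.of [[⟨3, 0, 0, 2845415833⟩], [⟨0, 0, 0, 67108864⟩, ⟨1, 1, 0, 67108864⟩, ⟨2, 1, 0, 67108864⟩]]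

noncomputable def f_B00pp_011_s3 : ℕ → ℕ → ℕ → ℕ → Bool := onCell 0 536870912 536870912 536870912 780900216 37827925
    (rowF 0 false true true .pnn 0 1 1 (qsf 0 536870912 536870912 536870912 1) ndB0q0 ndB0q1 pcB1 cut_B00pp_011_s3 Ext.none)

def k0_B00pp_011_s3 : ∃ t, chk3 f_B00pp_011_s3 t 1 1 1 = true :=
  ⟨(l 6), by decide +kernel⟩

theorem c_B00pp_011_s3 : CertF 0 536870912 536870912 536870912 780900216 37827925 false true true .pnn 0 1 1
    ndB0q0 ndB0q1 pcB1 cut_B00pp_011_s3 Ext.none :=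
  certF0 (fam := false) (s1 := true) (s2 := true) (a := 0) (b := 1) (c := 1) (cn := .pnn) (n1 := ndB0q0) (n2 := ndB0q1) (pc := pcB1) (cut := cut_B00pp_011_s3) (xt := Ext.none) (P1 := 0) (W1 := 536870912) (P2 := 536870912) (W2 := 536870912) (P3 := 780900216) (W3 := 37827925)
    rfl k0_B00pp_011_s3

theorem s_B00pp_011_s3 {κ x : ℝ} (hκ : κ * h0 = ken x) (hx : ((780900216 : ℕ) : ℝ) / S ≤ x)
    (hx' : x ≤ (((780900216 : ℕ) : ℝ) + (37827925 : ℕ)) / S)
    (H : CutB (VFD κ) PP tK tL pcB (Cut.of [[⟨0, 0, 0, 67108864⟩, ⟨1, 1, 0, 67108864⟩, ⟨2, 1, 0, 67108864⟩]]) 0 1 1 0 0 (sgb true) (sgb true) x) :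
    AltB (VFD κ) PP tK tL pcB [⟨4, 0, 0, 2845415833⟩] 0 1 1 0 0 (sgb true) (sgb true) x :=
  strip_altBD (m := 2845415833) false rfl hκ (SH.κ0 hκ (SH.hx1 hx).le (SH.hx2 hx').le) (SH.hx1 hx).le (SH.hx2 hx') (covB00).cov (covB01).cov hx hx' c_B00pp_011_s3 H (noExt_B)

noncomputable def cut_B00pp_012_s1 : Cut := Cut.of [[⟨4, 0, 0, 1449551462⟩], [⟨0, 0, 0, 67108864⟩, ⟨1, 1, 0, 67108864⟩, ⟨2, 1, 0, 67108864⟩]]

noncomputable def xt_B00pp_012_s1 : Ext := strExt dd false true true .u0 .u2 .u0m .pnp 0 1 2 rfl rfl gf1 vv ndB0q0 ndB0q2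

noncomputable def f_B00pp_012_s1 : ℕ → ℕ → ℕ → ℕ → Bool := onCell 536870912 536870912 0 536870912 780900216 37827925
    (rowF 2 false true true .pnp 0 1 2 (qsf 0 536870912 0 536870912 1) ndB0q0 ndB0q2 pcB1 cut_B00pp_012_s1 xt_B00pp_012_s1)

def k0_B00pp_012_s1 : ∃ t, chk3 f_B00pp_012_s1 t 2 1 1 = true :=
  ⟨(a (b (b (l 2) (l 3)) (l 3)) (a (b (b (b (a (a (l 2) (b (l 533416975) (l 533287183))) (a (b (l 533401359) (l 533532175)) (b (l 16722320) (b (l 16733520) (l 533203215))))) (a (b (a (l 2) (l 533122575)) (l 3)) (b (a (l 533086479) (b (l 533113359) (a (l 533023247) (l 533017615)))) (b (a (b (l 532969231) (l 3)) (c (l 532979471) (l 532872719))) (a (l 3) (l 532829967)))))) (l 3)) (l 3)) (b (b (b (a (b (a (l 16717400) (a (l 16664256) (l 16698168))) (a (a (l 16728816) (l 16741856)) (b (l 16681232) (l 16737264)))) (b (a (b (l 16681952) (l 16652192)) (b (l 16625448) (l 16638528))) (a (l 16715024) (b (l 16651032) (l 16664800)))))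 (a (b (a (b (l 533111055) (a (l 533016079) (l 16747160))) (b (a (l 16713680) (l 16705760)) (a (l 16749440) (l 16720384)))) (a (b (b (l 532947727) (l 532900367)) (l 532828687)) (b (a (l 532937487) (l 16756352)) (a (l 532846351) (l 532866575))))) (b (a (a (l 16726144) (l 16739240)) (c (l 16729208) (l 16725792))) (b (a (l 532983055) (l 16748928)) (a (a (l 532887567) (l 16755040)) (l 532935183)))))) (b (a (b (a (b (a (l 3) (b (l 532759055) (l 3))) (l 3)) (b (b (l 532788751) (l 532755727)) (l 532698383))) (l 3)) (b (b (a (b (l 532837903) (l 532799503)) (l 532856591)) (a (l 532741647) (l 532778511))) (l 532643343))) (l 3))) (l 3)))), by decide +kernel⟩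

def k1_B00pp_012_s1 : ∃ t, chk3 f_B00pp_012_s1 t 12 1 1 = true :=
  ⟨(b (b (b (a (b (a (l 16617648) (l 16603472)) (a (b (l 16636832) (l 16649712)) (b (l 16622168) (l 16635016)))) (b (l 16624296) (a (l 16614224) (l 16599544)))) (a (b (a (l 16712088) (l 16654920)) (b (a (l 16691064) (l 16675360)) (a (l 16747424) (l 16689432)))) (a (b (b (l 16633184) (l 16646456)) (l 16687752)) (b (b (l 16618832) (l 16631352)) (l 16672232))))) (b (a (b (b (a (l 532889871) (l 16724784)) (l 532827151)) (a (l 532691215) (l 532719887))) (b (a (b (l 16687632) (l 16743864)) (b (l 16671480) (l 16727288))) (a (a (l 532741135) (l 532752911)) (a (l 532755983) (l 16723464))))) (a (b (a (l 532528911) (l 532556303)) (l 3)) (b (c (a (a (l 532666127) (l 532678159)) (b (l 532716815) (l 532626191))) (a (b (l 532528655) (l 532443407)) (b (l 532521231) (l 532428559)))) (a (c (b (a (l 532542991) (l 532551951)) (l 532459279)) (b (a (l 532355855) (l 532360207))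 (l 532274191))) (b (c (l 532533775) (l 532333327)) (l 532887055))))))) (b (b (a (l 3) (a (l 3) (a (l 3) (b (b (l 532264207) (l 3)) (l 3))))) (l 3)) (l 3))), by decide +kernel⟩

def k2_B00pp_012_s1 : ∃ t, chk3 f_B00pp_012_s1 t 13 1 1 = true :=
  ⟨(b (b (a (b (b (l 16638600) (a (l 16585184) (l 16571448))) (b (a (l 16652720) (l 16596408)) (a (b (l 16671584) (l 16642776)) (b (l 16616216) (l 16628648))))) (b (a (l 16631200) (l 6)) (b (a (l 16583360) (l 16571240)) (a (b (l 16602712) (l 16616264)) (l 16597112))))) (b (b (a (a (b (l 16655776) (l 16669160)) (b (l 16641512) (l 16654320))) (a (b (l 16628712) (l 16641312)) (b (l 16617416) (l 16629968)))) (a (a (a (l 16715016) (l 16727840)) (b (l 16667488) (l 16681008))) (a (b (l 16653872) (l 16666808)) (b (l 16642248) (l 16654528))))) (a (b (a (c (b (l 16733752) (l 532651791)) (b (l 16730608) (l 532449039))) (b (l 16736816) (l 16730056))) (c (b (a (l 532562703) (l 532634127)) (l 533046287))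 (b (a (l 532361743) (l 532434703)) (l 533386511)))) (b (a (b (l 16680144) (l 16693808)) (b (l 16667168) (l 16680232))) (b (a (l 532664079) (l 16693608)) (a (l 532591631) (l 532750863))))))) (b (b (a (b (b (a (l 532292111) (l 532371471)) (a (l 532203535) (l 532286479))) (a (l 3) (b (a (l 532169487) (l 532233999)) (l 3)))) (b (a (b (l 532517135) (l 532439823)) (b (l 532678159) (l 532598799))) (b (a (a (l 532309263) (l 532387343)) (b (l 532532751) (l 532486671))) (a (b (a (l 532239119) (l 532317455)) (a (l 3) (l 532270095))) (b (l 532440079) (l 532392975)))))) (b (a (l 3) (a (l 3) (a (b (l 532279311) (l 3)) (b (l 532364047) (b (b (l 532303887) (l 3)) (l 3)))))) (l 3))) (l 3))), by decide +kernel⟩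

def k3_B00pp_012_s1 : ∃ t, chk3 f_B00pp_012_s1 t 7 2 1 = true :=
  ⟨(b (b (l 6) (a (a (b (l 16638352) (a (l 16585528) (l 16574480))) (a (l 16635280) (l 6))) (l 6))) (a (b (a (b (a (b (l 16605352) (l 16619264)) (l 16684728)) (a (b (l 16631952) (l 16643944)) (a (l 16651504) (l 16667472)))) (a (b (l 16589808) (l 16617264)) (a (l 16637784) (l 16632584)))) (a (b (b (a (l 16655872) (l 16646160)) (a (l 16668160) (l 16657648))) (a (b (l 16680816) (l 16662224)) (l 16675536))) (b (a (b (l 16637520) (l 16648992)) (l 16634480)) (a (l 16665688) (l 16658392))))) (a (b (b (l 16564512) (l 16591632)) (b (a (l 16625288) (l 16616000)) (a (b (l 16643752) (l 16651192)) (b (l 16628536) (l 16634272))))) (b (a (l 16565592) (l 6)) (b (l 16641376) (a (l 16616072) (l 16601976))))))), by decide +kernel⟩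

def k4_B00pp_012_s1 : ∃ t, chk3 f_B00pp_012_s1 t 14 6 1 = true :=
  ⟨(b (a (b (a (b (l 532847119) (l 532229391)) (b (l 16693624) (l 532927503))) (a (b (a (l 532637455) (l 532716047)) (a (l 532543759) (l 532616975))) (b (l 532027151) (a (l 532692751) (l 532781839))))) (b (a (b (l 16682424) (l 16693696)) (l 16700352)) (a (b (l 533028879) (a (l 532882959) (l 16713800))) (b (l 16695136) (l 533202191))))) (a (b (a (b (a (b (l 532473103) (a (l 532405263) (l 532439055))) (b (l 532540687) (l 532490511))) (b (a (a (b (l 532368655) (l 532345103)) (l 532387087)) (b (l 532454415) (l 532434447))) (a (a (l 3) (l 532348175)) (a (l 532384527) (l 532424463))))) (b (a (l 532058127) (l 532151823)) (b (a (l 532529423) (l 532626447)) (a (a (l 532467215) (l 532513295)) (l 532856079))))) (a (b (b (a (l 3) (b (a (l 532353039) (l 532393231)) (a (l 3) (b (l 532377103) (a (l 3) (l 532376847)))))) (l 3)) (l 3)) (b (b (a (a (b (l 532436239) (b (l 532420367)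 (l 532409615))) (b (l 532482575) (l 532461327))) (b (l 532557327) (l 532536335))) (a (a (b (l 532392975) (l 3)) (l 532428303)) (a (l 532477967) (l 532530703)))) (a (b (a (l 3) (b (l 532394255) (l 3))) (l 3)) (b (a (b (l 532444431) (l 532420879)) (l 532485391)) (a (l 3) (b (l 532449807) (l 3)))))))) (b (a (b (a (l 532525839) (l 532911119)) (a (b (l 532734735) (l 532696847)) (b (l 532854543) (l 532817935)))) (b (a (l 16730240) (l 16714864)) (a (l 532988431) (l 533140751)))) (a (b (a (b (l 532656911) (l 532614415)) (a (l 532457743) (l 532792847))) (a (b (a (l 532541199) (l 532599823)) (a (l 532493583) (l 532552463))) (a (l 531966479) (c (l 532784911) (l 531961103))))) (a (a (b (l 532878863) (b (l 532827919) (l 532798223))) (b (l 532977167) (l 532925967))) (b (l 533047567) (a (l 533003023) (l 532960783)))))))), by decide +kernel⟩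

def k5_B00pp_012_s1 : ∃ t, chk3 f_B00pp_012_s1 t 15 6 1 = true :=
  ⟨(a (b (a (b (l 16665208) (b (l 16680336) (l 16690672))) (b (a (l 16651144) (l 16599776)) (l 16671944))) (b (a (b (l 16722288) (a (l 16716672) (l 16707536))) (a (l 16713872) (b (l 16678368) (l 16689872)))) (a (b (a (l 532955407) (l 16729592)) (a (l 532911375) (l 532869903))) (a (b (l 16710464) (l 16733536)) (b (l 16681064) (l 16714904)))))) (a (b (b (b (a (l 16586416) (l 16620544)) (a (l 16636856) (l 16586008))) (b (l 16600784) (l 16611848))) (b (b (l 16623336) (l 16635240)) (a (l 16721296) (l 16713304)))) (b (b (a (b (l 16613600) (l 16620280)) (l 16568408)) (a (b (l 16629168) (l 16640568)) (b (b (l 16618912) (l 16623232)) (l 16631696)))) (b (a (b (l 16652424) (l 16664680)) (b (l 16643760) (l 16656232))) (b (a (l 16677584) (l 16669352)) (a (l 16649232) (l 16662064))))))), by decide +kernel⟩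

def k6_B00pp_012_s1 : ∃ t, chk3 f_B00pp_012_s1 t 14 7 1 = true :=
  ⟨(b (a (l 3) (a (b (b (b (a (a (l 3) (b (l 532515087) (l 532488975))) (a (l 532027151) (a (l 532081167) (a (l 532395279) (l 532693007))))) (a (l 3) (a (b (b (l 532531471) (a (l 3) (l 531994127))) (l 3)) (b (a (b (l 532048911) (l 532312847)) (c (l 532721679) (l 532299791))) (l 532831759))))) (l 3)) (l 3)) (b (b (b (a (a (a (l 532734991) (l 532794639)) (l 532871695)) (l 532176143)) (a (a (a (l 532130575) (l 532180751)) (l 532251663)) (a (l 532877071) (l 532956431)))) (a (a (b (a (c (l 532645391) (l 532483087)) (l 532080143)) (l 3)) (a (b (l 532396559) (l 3)) (b (l 532173583) (b (l 532637455) (l 3))))) (b (a (a (l 532217103) (l 532258575)) (l 532584975)) (a (b (l 532164623) (l 532654351)) (l 532755727))))) (b (a (l 3) (a (l 3) (b (l 532663823) (l 3)))) (l 3))))) (l 3)), by decide +kernel⟩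

def k7_B00pp_012_s1 : ∃ t, chk3 f_B00pp_012_s1 t 15 7 1 = true :=
  ⟨(b (a (a (b (b (b (a (l 532933391) (l 532903183)) (a (l 532993551) (l 532962063))) (b (a (a (l 532924431) (l 532987919)) (l 533027599)) (a (l 532856847) (l 532968207)))) (b (a (a (l 532823055) (l 532751119)) (c (l 532899087) (l 533019663))) (a (l 3) (a (l 532649487) (l 532697359))))) (b (b (a (b (l 16732856) (l 16744736)) (l 532912655)) (a (c (l 532980239) (l 533031439)) (l 533024527))) (b (a (c (l 532975887) (l 532833807)) (c (l 533022735) (l 533421583))) (a (a (l 532738319) (l 532767759)) (a (l 532772879) (l 532783631)))))) (b (a (b (a (l 16720600) (l 16712960)) (a (l 16739176) (l 16726392))) (b (a (l 16705168) (l 16707568)) (a (c (l 16718008) (l 16719376)) (a (l 16712600) (l 16708416))))) (a (b (a (l 534304783) (a (l 16739072) (l 16735448))) (b (a (l 532839439) (c (l 16745320) (l 16744200))) (a (l 533582863) (a (l 16752088) (l 14))))) (b (a (a (l 16731912)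 (l 16728480)) (a (c (l 16723976) (l 16724304)) (l 14))) (a (b (c (l 16732888) (l 16736808)) (l 14)) (l 14)))))) (a (b (a (l 3) (b (b (a (l 532665615) (l 532702991)) (a (l 3) (a (l 532668687) (l 532686607)))) (a (l 3) (b (c (l 532981519) (l 533102351)) (l 3))))) (l 3)) (a (b (b (a (b (a (l 532737295) (l 532760847)) (a (l 532707599) (l 14))) (l 14)) (l 14)) (l 14)) (l 14)))), by decide +kernel⟩

theorem t8_B00pp_012_s1 : ∃ t, chk3 f_B00pp_012_s1 t 7 7 1 = true := ex3_a k6_B00pp_012_s1 k7_B00pp_012_s1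

theorem t9_B00pp_012_s1 : ∃ t, chk3 f_B00pp_012_s1 t 7 6 1 = true := ex3_a k4_B00pp_012_s1 k5_B00pp_012_s1

theorem t10_B00pp_012_s1 : ∃ t, chk3 f_B00pp_012_s1 t 7 3 1 = true := ex3_b t9_B00pp_012_s1 t8_B00pp_012_s1

theorem t11_B00pp_012_s1 : ∃ t, chk3 f_B00pp_012_s1 t 7 1 1 = true := ex3_b k3_B00pp_012_s1 t10_B00pp_012_s1

theorem t12_B00pp_012_s1 : ∃ t, chk3 f_B00pp_012_s1 t 6 1 1 = true := ex3_a k1_B00pp_012_s1 k2_B00pp_012_s1

theorem t13_B00pp_012_s1 : ∃ t, chk3 f_B00pp_012_s1 t 3 1 1 = true := ex3_a t12_B00pp_012_s1 t11_B00pp_012_s1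

theorem t14_B00pp_012_s1 : ∃ t, chk3 f_B00pp_012_s1 t 1 1 1 = true := ex3_a k0_B00pp_012_s1 t13_B00pp_012_s1

theorem c_B00pp_012_s1 : CertF 0 536870912 0 536870912 780900216 37827925 false true true .pnp 0 1 2
    ndB0q0 ndB0q2 pcB1 cut_B00pp_012_s1 xt_B00pp_012_s1 :=
  certF2 (fam := false) (s1 := true) (s2 := true) (a := 0) (b := 1) (c := 2) (cn := .pnp) (n1 := ndB0q0) (n2 := ndB0q2) (pc := pcB1) (cut := cut_B00pp_012_s1) (xt := xt_B00pp_012_s1) (P1 := 0) (W1 := 536870912) (P2 := 0) (W2 := 536870912) (P3 := 780900216) (W3 := 37827925)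
    rfl (fun _ => rfl) t14_B00pp_012_s1

theorem s_B00pp_012_s1 {κ x : ℝ} (hκ : κ * h0 = ken x) (hx : ((780900216 : ℕ) : ℝ) / S ≤ x)
    (hx' : x ≤ (((780900216 : ℕ) : ℝ) + (37827925 : ℕ)) / S)
    (H : CutB (VFD κ) PP tK tL pcB (Cut.of [[⟨0, 0, 0, 67108864⟩, ⟨1, 1, 0, 67108864⟩, ⟨2, 1, 0, 67108864⟩]]) 0 1 2 0 0 (sgb true) (sgb true) x) :
    AltB (VFD κ) PP tK tL pcB [⟨3, 0, 0, 1449551462⟩] 0 1 2 0 0 (sgb true) (sgb true) x :=
  strip_altBD (m := 1449551462) true rfl hκ (SH.κ0 hκ (SH.hx1 hx).le (SH.hx2 hx').le) (SH.hx1 hx).le (SH.hx2 hx') (covB00).cov (covB02).cov hx hx' c_B00pp_012_s1 H ((okx hx hx').extB (T := tt) (sideB hx hx') hκ rfl rfl (.O 0 true) (.O 2 true) (Or.inr rfl))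

noncomputable def cut_B00pp_012_s3 : Cut := Cut.of [[⟨3, 0, 0, 2845415833⟩], [⟨0, 0, 0, 67108864⟩, ⟨1, 1, 0, 67108864⟩, ⟨2, 1, 0, 67108864⟩]]

noncomputable def f_B00pp_012_s3 : ℕ → ℕ → ℕ → ℕ → Bool := onCell 0 536870912 0 536870912 780900216 37827925
    (rowF 0 false true true .pnp 0 1 2 (qsf 0 536870912 0 536870912 1) ndB0q0 ndB0q2 pcB1 cut_B00pp_012_s3 Ext.none)

def k0_B00pp_012_s3 : ∃ t, chk3 f_B00pp_012_s3 t 1 1 1 = true :=
  ⟨(l 6), by decide +kernel⟩

theorem c_B00pp_012_s3 : CertF 0 536870912 0 536870912 780900216 37827925 false true true .pnp 0 1 2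
    ndB0q0 ndB0q2 pcB1 cut_B00pp_012_s3 Ext.none :=
  certF0 (fam := false) (s1 := true) (s2 := true) (a := 0) (b := 1) (c := 2) (cn := .pnp) (n1 := ndB0q0) (n2 := ndB0q2) (pc := pcB1) (cut := cut_B00pp_012_s3) (xt := Ext.none) (P1 := 0) (W1 := 536870912) (P2 := 0) (W2 := 536870912) (P3 := 780900216) (W3 := 37827925)
    rfl k0_B00pp_012_s3

theorem s_B00pp_012_s3 {κ x : ℝ} (hκ : κ * h0 = ken x) (hx : ((780900216 : ℕ) : ℝ) / S ≤ x)
    (hx' : x ≤ (((780900216 : ℕ) : ℝ) + (37827925 : ℕ)) / S)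
    (H : CutB (VFD κ) PP tK tL pcB (Cut.of [[⟨0, 0, 0, 67108864⟩, ⟨1, 1, 0, 67108864⟩, ⟨2, 1, 0, 67108864⟩]]) 0 1 2 0 0 (sgb true) (sgb true) x) :
    AltB (VFD κ) PP tK tL pcB [⟨4, 0, 0, 2845415833⟩] 0 1 2 0 0 (sgb true) (sgb true) x :=
  strip_altBD (m := 2845415833) false rfl hκ (SH.κ0 hκ (SH.hx1 hx).le (SH.hx2 hx').le) (SH.hx1 hx).le (SH.hx2 hx') (covB00).cov (covB02).cov hx hx' c_B00pp_012_s3 H (noExt_B)

noncomputable def cut_B00pp_022_s1 : Cut := Cut.of [[⟨4, 0, 0, 1449551462⟩], [⟨0, 0, 0, 67108864⟩, ⟨1, 1, 0, 67108864⟩, ⟨2, 1, 0, 67108864⟩]]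

noncomputable def f_B00pp_022_s1 : ℕ → ℕ → ℕ → ℕ → Bool := onCell 1073741824 536870912 0 536870912 780900216 37827925
    (rowF 2 false true true .pp 0 2 2 (qsf 0 536870912 0 536870912 2) ndB0q0 ndB0q2 pcB2 cut_B00pp_022_s1 Ext.none)

def k0_B00pp_022_s1 : ∃ t, chk3 f_B00pp_022_s1 t 1 1 1 = true :=
  ⟨(a (a (b (b (l 6) (a (a (b (l 6) (b (l 6) (a (l 16538392) (l 16550672)))) (l 6)) (l 6))) (a (b (a (b (b (a (l 16602152) (l 16570904)) (a (b (l 16533528) (a (l 16584480) (l 16589320))) (b (l 16585184) (l 16595848)))) (a (a (b (b (l 16597608) (l 16610792)) (b (l 16623888) (l 16636856))) (b (l 16609088) (b (l 16628680) (l 16641792)))) (b (l 16615496) (a (l 16597928) (l 16643992))))) (b (b (l 16584080) (a (l 16598536) (l 16594896))) (a (b (l 16622904) (l 16647864)) (b (l 16606912) (b (l 16614032) (c (l 16579088) (l 16616136))))))) (a (b (b (a (a (b (l 16670928) (b (l 16660304) (l 14))) (b (l 16655016) (l 16690192))) (a (b (l 16659648)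 (l 16632008)) (l 16692040))) (l 14)) (l 14)) (a (b (b (b (l 16635952) (a (l 16670440) (l 16652904))) (l 14)) (l 14)) (a (b (b (b (l 16631576) (l 16656000)) (l 14)) (l 1)) (b (b (b (l 16614232) (l 64994655911)) (b (l 56941593047) (l 1))) (l 1)))))) (b (b (a (b (l 6) (a (l 16566968) (l 16579224))) (l 6)) (a (a (a (b (l 16584336) (a (l 16595592) (l 16586520))) (b (l 16568480) (l 104723046855))) (b (a (l 16552328) (l 16535904)) (b (l 16544912) (l 1)))) (a (b (b (l 16594992) (l 1)) (l 1)) (l 1)))) (a (b (b (a (b (a (l 16595376) (l 16575168)) (a (l 16596808) (l 1))) (l 1)) (l 1)) (l 1)) (l 1))))) (b (l 6) (b (l 1) (l 1)))) (l 1)), by decide +kernel⟩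

theorem c_B00pp_022_s1 : CertF 0 536870912 0 536870912 780900216 37827925 false true true .pp 0 2 2
    ndB0q0 ndB0q2 pcB2 cut_B00pp_022_s1 Ext.none :=
  certF2 (fam := false) (s1 := true) (s2 := true) (a := 0) (b := 2) (c := 2) (cn := .pp) (n1 := ndB0q0) (n2 := ndB0q2) (pc := pcB2) (cut := cut_B00pp_022_s1) (xt := Ext.none) (P1 := 0) (W1 := 536870912) (P2 := 0) (W2 := 536870912) (P3 := 780900216) (W3 := 37827925)
    rfl (fun _ => rfl) k0_B00pp_022_s1

theorem s_B00pp_022_s1 {κ x : ℝ} (hκ : κ * h0 = ken x) (hx : ((780900216 : ℕ) : ℝ) / S ≤ x)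
    (hx' : x ≤ (((780900216 : ℕ) : ℝ) + (37827925 : ℕ)) / S)
    (H : CutB (VFD κ) PP tK tL pcB (Cut.of [[⟨0, 0, 0, 67108864⟩, ⟨1, 1, 0, 67108864⟩, ⟨2, 1, 0, 67108864⟩]]) 0 2 2 0 0 (sgb true) (sgb true) x) :
    AltB (VFD κ) PP tK tL pcB [⟨3, 0, 0, 1449551462⟩] 0 2 2 0 0 (sgb true) (sgb true) x :=
  strip_altBD (m := 1449551462) true rfl hκ (SH.κ0 hκ (SH.hx1 hx).le (SH.hx2 hx').le) (SH.hx1 hx).le (SH.hx2 hx') (covB00).cov (covB02).cov hx hx' c_B00pp_022_s1 H (noExt_B)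

noncomputable def cut_B00pp_022_s3 : Cut := Cut.of [[⟨3, 0, 0, 2845415833⟩], [⟨0, 0, 0, 67108864⟩, ⟨1, 1, 0, 67108864⟩, ⟨2, 1, 0, 67108864⟩]]

noncomputable def f_B00pp_022_s3 : ℕ → ℕ → ℕ → ℕ → Bool := onCell 0 536870912 0 536870912 780900216 37827925
    (rowF 0 false true true .pp 0 2 2 (qsf 0 536870912 0 536870912 2) ndB0q0 ndB0q2 pcB2 cut_B00pp_022_s3 Ext.none)

def k0_B00pp_022_s3 : ∃ t, chk3 f_B00pp_022_s3 t 1 1 1 = true :=
  ⟨(l 6), by decide +kernel⟩

theorem c_B00pp_022_s3 : CertF 0 536870912 0 536870912 780900216 37827925 false true true .pp 0 2 2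
    ndB0q0 ndB0q2 pcB2 cut_B00pp_022_s3 Ext.none :=
  certF0 (fam := false) (s1 := true) (s2 := true) (a := 0) (b := 2) (c := 2) (cn := .pp) (n1 := ndB0q0) (n2 := ndB0q2) (pc := pcB2) (cut := cut_B00pp_022_s3) (xt := Ext.none) (P1 := 0) (W1 := 536870912) (P2 := 0) (W2 := 536870912) (P3 := 780900216) (W3 := 37827925)
    rfl k0_B00pp_022_s3

theorem s_B00pp_022_s3 {κ x : ℝ} (hκ : κ * h0 = ken x) (hx : ((780900216 : ℕ) : ℝ) / S ≤ x)
    (hx' : x ≤ (((780900216 : ℕ) : ℝ) + (37827925 : ℕ)) / S)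
    (H : CutB (VFD κ) PP tK tL pcB (Cut.of [[⟨0, 0, 0, 67108864⟩, ⟨1, 1, 0, 67108864⟩, ⟨2, 1, 0, 67108864⟩]]) 0 2 2 0 0 (sgb true) (sgb true) x) :
    AltB (VFD κ) PP tK tL pcB [⟨4, 0, 0, 2845415833⟩] 0 2 2 0 0 (sgb true) (sgb true) x :=
  strip_altBD (m := 2845415833) false rfl hκ (SH.κ0 hκ (SH.hx1 hx).le (SH.hx2 hx').le) (SH.hx1 hx).le (SH.hx2 hx') (covB00).cov (covB02).cov hx hx' c_B00pp_022_s3 H (noExt_B)

noncomputable def cut_B00pp_101_s1 : Cut := Cut.of [[⟨4, 0, 0, 1449551462⟩]]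

noncomputable def f_B00pp_101_s1 : ℕ → ℕ → ℕ → ℕ → Bool := onCell 536870912 536870912 536870912 536870912 780900216 37827925
    (rowF 0 false true true .npn 1 0 1 (qsf 536870912 536870912 536870912 536870912 0) ndB0q1 ndB0q1 pcB0 cut_B00pp_101_s1 Ext.none)

def k0_B00pp_101_s1 : ∃ t, chk3 f_B00pp_101_s1 t 1 1 1 = true :=
  ⟨(l 3), by decide +kernel⟩

theorem c_B00pp_101_s1 : CertF 536870912 536870912 536870912 536870912 780900216 37827925 false true true .npn 1 0 1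
    ndB0q1 ndB0q1 pcB0 cut_B00pp_101_s1 Ext.none :=
  certF0 (fam := false) (s1 := true) (s2 := true) (a := 1) (b := 0) (c := 1) (cn := .npn) (n1 := ndB0q1) (n2 := ndB0q1) (pc := pcB0) (cut := cut_B00pp_101_s1) (xt := Ext.none) (P1 := 536870912) (W1 := 536870912) (P2 := 536870912) (W2 := 536870912) (P3 := 780900216) (W3 := 37827925)
    rfl k0_B00pp_101_s1

theorem s_B00pp_101_s1 {κ x : ℝ} (hκ : κ * h0 = ken x) (hx : ((780900216 : ℕ) : ℝ) / S ≤ x)
    (hx' : x ≤ (((780900216 : ℕ) : ℝ) + (37827925 : ℕ)) / S) :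
    AltB (VFD κ) PP tK tL pcB [⟨3, 0, 0, 1449551462⟩] 1 0 1 0 0 (sgb true) (sgb true) x :=
  strip_altBD (m := 1449551462) true rfl hκ (SH.κ0 hκ (SH.hx1 hx).le (SH.hx2 hx').le) (SH.hx1 hx).le (SH.hx2 hx') (covB01).cov (covB01).cov hx hx' c_B00pp_101_s1 cutB_nil (noExt_B)

noncomputable def cut_B00pp_101_s3 : Cut := Cut.of [[⟨3, 0, 0, 2845415833⟩]]

noncomputable def f_B00pp_101_s3 : ℕ → ℕ → ℕ → ℕ → Bool := onCell 536870912 536870912 536870912 536870912 780900216 37827925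
    (rowF 0 false true true .npn 1 0 1 (qsf 536870912 536870912 536870912 536870912 0) ndB0q1 ndB0q1 pcB0 cut_B00pp_101_s3 Ext.none)

def k0_B00pp_101_s3 : ∃ t, chk3 f_B00pp_101_s3 t 1 1 1 = true :=
  ⟨(l 3), by decide +kernel⟩

theorem c_B00pp_101_s3 : CertF 536870912 536870912 536870912 536870912 780900216 37827925 false true true .npn 1 0 1
    ndB0q1 ndB0q1 pcB0 cut_B00pp_101_s3 Ext.none :=
  certF0 (fam := false) (s1 := true) (s2 := true) (a := 1) (b := 0) (c := 1) (cn := .npn) (n1 := ndB0q1) (n2 := ndB0q1) (pc := pcB0) (cut := cut_B00pp_101_s3) (xt := Ext.none) (P1 := 536870912) (W1 := 536870912) (P2 := 536870912) (W2 := 536870912) (P3 := 780900216) (W3 := 37827925)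
    rfl k0_B00pp_101_s3

theorem s_B00pp_101_s3 {κ x : ℝ} (hκ : κ * h0 = ken x) (hx : ((780900216 : ℕ) : ℝ) / S ≤ x)
    (hx' : x ≤ (((780900216 : ℕ) : ℝ) + (37827925 : ℕ)) / S) :
    AltB (VFD κ) PP tK tL pcB [⟨4, 0, 0, 2845415833⟩] 1 0 1 0 0 (sgb true) (sgb true) x :=
  strip_altBD (m := 2845415833) false rfl hκ (SH.κ0 hκ (SH.hx1 hx).le (SH.hx2 hx').le) (SH.hx1 hx).le (SH.hx2 hx') (covB01).cov (covB01).cov hx hx' c_B00pp_101_s3 cutB_nil (noExt_B)

noncomputable def cut_B00pp_102_s1 : Cut := Cut.of [[⟨4, 0, 0, 1449551462⟩]]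

noncomputable def f_B00pp_102_s1 : ℕ → ℕ → ℕ → ℕ → Bool := onCell 0 536870912 0 536870912 780900216 37827925
    (rowF 2 false true true .npp 1 0 2 (qsf 536870912 536870912 0 536870912 0) ndB0q1 ndB0q2 pcB0 cut_B00pp_102_s1 Ext.none)

def k0_B00pp_102_s1 : ∃ t, chk3 f_B00pp_102_s1 t 1 1 1 = true :=
  ⟨(a (b (l 3) (l 3)) (l 3)), by decide +kernel⟩

theorem c_B00pp_102_s1 : CertF 536870912 536870912 0 536870912 780900216 37827925 false true true .npp 1 0 2
    ndB0q1 ndB0q2 pcB0 cut_B00pp_102_s1 Ext.none :=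
  certF2 (fam := false) (s1 := true) (s2 := true) (a := 1) (b := 0) (c := 2) (cn := .npp) (n1 := ndB0q1) (n2 := ndB0q2) (pc := pcB0) (cut := cut_B00pp_102_s1) (xt := Ext.none) (P1 := 536870912) (W1 := 536870912) (P2 := 0) (W2 := 536870912) (P3 := 780900216) (W3 := 37827925)
    rfl (fun _ => rfl) k0_B00pp_102_s1

theorem s_B00pp_102_s1 {κ x : ℝ} (hκ : κ * h0 = ken x) (hx : ((780900216 : ℕ) : ℝ) / S ≤ x)
    (hx' : x ≤ (((780900216 : ℕ) : ℝ) + (37827925 : ℕ)) / S) :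
    AltB (VFD κ) PP tK tL pcB [⟨3, 0, 0, 1449551462⟩] 1 0 2 0 0 (sgb true) (sgb true) x :=
  strip_altBD (m := 1449551462) true rfl hκ (SH.κ0 hκ (SH.hx1 hx).le (SH.hx2 hx').le) (SH.hx1 hx).le (SH.hx2 hx') (covB01).cov (covB02).cov hx hx' c_B00pp_102_s1 cutB_nil (noExt_B)

noncomputable def cut_B00pp_102_s3 : Cut := Cut.of [[⟨3, 0, 0, 2845415833⟩]]

noncomputable def f_B00pp_102_s3 : ℕ → ℕ → ℕ → ℕ → Bool := onCell 536870912 536870912 0 536870912 780900216 37827925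
    (rowF 0 false true true .npp 1 0 2 (qsf 536870912 536870912 0 536870912 0) ndB0q1 ndB0q2 pcB0 cut_B00pp_102_s3 Ext.none)

def k0_B00pp_102_s3 : ∃ t, chk3 f_B00pp_102_s3 t 1 1 1 = true :=
  ⟨(l 6), by decide +kernel⟩

theorem c_B00pp_102_s3 : CertF 536870912 536870912 0 536870912 780900216 37827925 false true true .npp 1 0 2
    ndB0q1 ndB0q2 pcB0 cut_B00pp_102_s3 Ext.none :=
  certF0 (fam := false) (s1 := true) (s2 := true) (a := 1) (b := 0) (c := 2) (cn := .npp) (n1 := ndB0q1) (n2 := ndB0q2) (pc := pcB0) (cut := cut_B00pp_102_s3) (xt := Ext.none) (P1 := 536870912) (W1 := 536870912) (P2 := 0) (W2 := 536870912) (P3 := 780900216) (W3 := 37827925)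
    rfl k0_B00pp_102_s3

theorem s_B00pp_102_s3 {κ x : ℝ} (hκ : κ * h0 = ken x) (hx : ((780900216 : ℕ) : ℝ) / S ≤ x)
    (hx' : x ≤ (((780900216 : ℕ) : ℝ) + (37827925 : ℕ)) / S) :
    AltB (VFD κ) PP tK tL pcB [⟨4, 0, 0, 2845415833⟩] 1 0 2 0 0 (sgb true) (sgb true) x :=
  strip_altBD (m := 2845415833) false rfl hκ (SH.κ0 hκ (SH.hx1 hx).le (SH.hx2 hx').le) (SH.hx1 hx).le (SH.hx2 hx') (covB01).cov (covB02).cov hx hx' c_B00pp_102_s3 cutB_nil (noExt_B)

noncomputable def cut_B00pp_112_s1 : Cut := Cut.of [[⟨4, 0, 0, 1449551462⟩]]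

noncomputable def xt_B00pp_112_s1 : Ext := strExt dd false true true .u0 .u2 .u0m .dn 1 1 2 rfl rfl gf1 vv ndB0q1 ndB0q2

noncomputable def f_B00pp_112_s1 : ℕ → ℕ → ℕ → ℕ → Bool := onCell 536870912 536870912 0 536870912 780900216 37827925
    (rowF 0 false true true .dn 1 1 2 (qsf 536870912 536870912 0 536870912 1) ndB0q1 ndB0q2 pcB1 cut_B00pp_112_s1 xt_B00pp_112_s1)

def k0_B00pp_112_s1 : ∃ t, chk3 f_B00pp_112_s1 t 1 1 1 = true :=
  ⟨(a (b (a (b (a (b (a (a (b (l 533422607) (l 533296655)) (b (l 533429519) (l 533312783))) (b (l 533419023) (l 533840655))) (a (b (a (a (l 533126159) (l 533165839)) (l 3)) (l 3)) (l 3))) (b (a (b (l 533336335) (l 3)) (l 3)) (l 3))) (l 3)) (l 3)) (l 3)) (l 1)), by decide +kernel⟩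

theorem c_B00pp_112_s1 : CertF 536870912 536870912 0 536870912 780900216 37827925 false true true .dn 1 1 2
    ndB0q1 ndB0q2 pcB1 cut_B00pp_112_s1 xt_B00pp_112_s1 :=
  certF0 (fam := false) (s1 := true) (s2 := true) (a := 1) (b := 1) (c := 2) (cn := .dn) (n1 := ndB0q1) (n2 := ndB0q2) (pc := pcB1) (cut := cut_B00pp_112_s1) (xt := xt_B00pp_112_s1) (P1 := 536870912) (W1 := 536870912) (P2 := 0) (W2 := 536870912) (P3 := 780900216) (W3 := 37827925)
    rfl k0_B00pp_112_s1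

theorem s_B00pp_112_s1 {κ x : ℝ} (hκ : κ * h0 = ken x) (hx : ((780900216 : ℕ) : ℝ) / S ≤ x)
    (hx' : x ≤ (((780900216 : ℕ) : ℝ) + (37827925 : ℕ)) / S) :
    AltB (VFD κ) PP tK tL pcB [⟨3, 0, 0, 1449551462⟩] 1 1 2 0 0 (sgb true) (sgb true) x :=
  strip_altBD (m := 1449551462) true rfl hκ (SH.κ0 hκ (SH.hx1 hx).le (SH.hx2 hx').le) (SH.hx1 hx).le (SH.hx2 hx') (covB01).cov (covB02).cov hx hx' c_B00pp_112_s1 cutB_nil ((okx hx hx').extB (T := tt) (sideB hx hx') hκ rfl rfl (.O 1 true) (.O 2 true) (Or.inr rfl))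

noncomputable def cut_B00pp_112_s3 : Cut := Cut.of [[⟨3, 0, 0, 2845415833⟩]]

noncomputable def f_B00pp_112_s3 : ℕ → ℕ → ℕ → ℕ → Bool := onCell 536870912 536870912 0 536870912 780900216 37827925
    (rowF 0 false true true .dn 1 1 2 (qsf 536870912 536870912 0 536870912 1) ndB0q1 ndB0q2 pcB1 cut_B00pp_112_s3 Ext.none)

def k0_B00pp_112_s3 : ∃ t, chk3 f_B00pp_112_s3 t 1 1 1 = true :=
  ⟨(l 6), by decide +kernel⟩

theorem c_B00pp_112_s3 : CertF 536870912 536870912 0 536870912 780900216 37827925 false true true .dn 1 1 2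
    ndB0q1 ndB0q2 pcB1 cut_B00pp_112_s3 Ext.none :=
  certF0 (fam := false) (s1 := true) (s2 := true) (a := 1) (b := 1) (c := 2) (cn := .dn) (n1 := ndB0q1) (n2 := ndB0q2) (pc := pcB1) (cut := cut_B00pp_112_s3) (xt := Ext.none) (P1 := 536870912) (W1 := 536870912) (P2 := 0) (W2 := 536870912) (P3 := 780900216) (W3 := 37827925)
    rfl k0_B00pp_112_s3

theorem s_B00pp_112_s3 {κ x : ℝ} (hκ : κ * h0 = ken x) (hx : ((780900216 : ℕ) : ℝ) / S ≤ x)
    (hx' : x ≤ (((780900216 : ℕ) : ℝ) + (37827925 : ℕ)) / S) :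
    AltB (VFD κ) PP tK tL pcB [⟨4, 0, 0, 2845415833⟩] 1 1 2 0 0 (sgb true) (sgb true) x :=
  strip_altBD (m := 2845415833) false rfl hκ (SH.κ0 hκ (SH.hx1 hx).le (SH.hx2 hx').le) (SH.hx1 hx).le (SH.hx2 hx') (covB01).cov (covB02).cov hx hx' c_B00pp_112_s3 cutB_nil (noExt_B)

noncomputable def cut_B00pp_202_s1 : Cut := Cut.of [[⟨4, 0, 0, 1449551462⟩]]

noncomputable def f_B00pp_202_s1 : ℕ → ℕ → ℕ → ℕ → Bool := onCell 0 536870912 0 536870912 780900216 37827925
    (rowF 0 false true true .pp 2 0 2 (qsf 0 536870912 0 536870912 0) ndB0q2 ndB0q2 pcB0 cut_B00pp_202_s1 Ext.none)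

def k0_B00pp_202_s1 : ∃ t, chk3 f_B00pp_202_s1 t 1 1 1 = true :=
  ⟨(l 3), by decide +kernel⟩

theorem c_B00pp_202_s1 : CertF 0 536870912 0 536870912 780900216 37827925 false true true .pp 2 0 2
    ndB0q2 ndB0q2 pcB0 cut_B00pp_202_s1 Ext.none :=
  certF0 (fam := false) (s1 := true) (s2 := true) (a := 2) (b := 0) (c := 2) (cn := .pp) (n1 := ndB0q2) (n2 := ndB0q2) (pc := pcB0) (cut := cut_B00pp_202_s1) (xt := Ext.none) (P1 := 0) (W1 := 536870912) (P2 := 0) (W2 := 536870912) (P3 := 780900216) (W3 := 37827925)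
    rfl k0_B00pp_202_s1

theorem s_B00pp_202_s1 {κ x : ℝ} (hκ : κ * h0 = ken x) (hx : ((780900216 : ℕ) : ℝ) / S ≤ x)
    (hx' : x ≤ (((780900216 : ℕ) : ℝ) + (37827925 : ℕ)) / S) :
    AltB (VFD κ) PP tK tL pcB [⟨3, 0, 0, 1449551462⟩] 2 0 2 0 0 (sgb true) (sgb true) x :=
  strip_altBD (m := 1449551462) true rfl hκ (SH.κ0 hκ (SH.hx1 hx).le (SH.hx2 hx').le) (SH.hx1 hx).le (SH.hx2 hx') (covB02).cov (covB02).cov hx hx' c_B00pp_202_s1 cutB_nil (noExt_B)

noncomputable def cut_B00pp_202_s3 : Cut := Cut.of [[⟨3, 0, 0, 2845415833⟩]]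

noncomputable def f_B00pp_202_s3 : ℕ → ℕ → ℕ → ℕ → Bool := onCell 0 536870912 0 536870912 780900216 37827925
    (rowF 0 false true true .pp 2 0 2 (qsf 0 536870912 0 536870912 0) ndB0q2 ndB0q2 pcB0 cut_B00pp_202_s3 Ext.none)

def k0_B00pp_202_s3 : ∃ t, chk3 f_B00pp_202_s3 t 1 1 1 = true :=
  ⟨(l 3), by decide +kernel⟩

theorem c_B00pp_202_s3 : CertF 0 536870912 0 536870912 780900216 37827925 false true true .pp 2 0 2
    ndB0q2 ndB0q2 pcB0 cut_B00pp_202_s3 Ext.none :=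
  certF0 (fam := false) (s1 := true) (s2 := true) (a := 2) (b := 0) (c := 2) (cn := .pp) (n1 := ndB0q2) (n2 := ndB0q2) (pc := pcB0) (cut := cut_B00pp_202_s3) (xt := Ext.none) (P1 := 0) (W1 := 536870912) (P2 := 0) (W2 := 536870912) (P3 := 780900216) (W3 := 37827925)
    rfl k0_B00pp_202_s3

theorem s_B00pp_202_s3 {κ x : ℝ} (hκ : κ * h0 = ken x) (hx : ((780900216 : ℕ) : ℝ) / S ≤ x)
    (hx' : x ≤ (((780900216 : ℕ) : ℝ) + (37827925 : ℕ)) / S) :
    AltB (VFD κ) PP tK tL pcB [⟨4, 0, 0, 2845415833⟩] 2 0 2 0 0 (sgb true) (sgb true) x :=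
  strip_altBD (m := 2845415833) false rfl hκ (SH.κ0 hκ (SH.hx1 hx).le (SH.hx2 hx').le) (SH.hx1 hx).le (SH.hx2 hx') (covB02).cov (covB02).cov hx hx' c_B00pp_202_s3 cutB_nil (noExt_B)

noncomputable def cut_B00pm_001_s1 : Cut := Cut.of [[⟨4, 0, 0, 1449551462⟩]]

noncomputable def f_B00pm_001_s1 : ℕ → ℕ → ℕ → ℕ → Bool := onCell 0 536870912 536870912 536870912 780900216 37827925
    (rowF 0 false true false .up 0 0 1 (qsf 0 536870912 536870912 536870912 0) ndB0q0 ndB0q1 pcB0 cut_B00pm_001_s1 Ext.none)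

def k0_B00pm_001_s1 : ∃ t, chk3 f_B00pm_001_s1 t 1 1 1 = true :=
  ⟨(l 6), by decide +kernel⟩

theorem c_B00pm_001_s1 : CertF 0 536870912 536870912 536870912 780900216 37827925 false true false .up 0 0 1
    ndB0q0 ndB0q1 pcB0 cut_B00pm_001_s1 Ext.none :=
  certF0 (fam := false) (s1 := true) (s2 := false) (a := 0) (b := 0) (c := 1) (cn := .up) (n1 := ndB0q0) (n2 := ndB0q1) (pc := pcB0) (cut := cut_B00pm_001_s1) (xt := Ext.none) (P1 := 0) (W1 := 536870912) (P2 := 536870912) (W2 := 536870912) (P3 := 780900216) (W3 := 37827925)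
    rfl k0_B00pm_001_s1

theorem s_B00pm_001_s1 {κ x : ℝ} (hκ : κ * h0 = ken x) (hx : ((780900216 : ℕ) : ℝ) / S ≤ x)
    (hx' : x ≤ (((780900216 : ℕ) : ℝ) + (37827925 : ℕ)) / S) :
    AltB (VFD κ) PP tK tL pcB [⟨3, 0, 0, 1449551462⟩] 0 0 1 0 0 (sgb true) (sgb false) x :=
  strip_altBD (m := 1449551462) true rfl hκ (SH.κ0 hκ (SH.hx1 hx).le (SH.hx2 hx').le) (SH.hx1 hx).le (SH.hx2 hx') (covB00).cov (covB01).cov hx hx' c_B00pm_001_s1 cutB_nil (noExt_B)

noncomputable def cut_B00pm_001_s3 : Cut := Cut.of [[⟨3, 0, 0, 2845415833⟩]]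

noncomputable def xt_B00pm_001_s3 : Ext := strExt dd false true false .u0 .u0m .s0m .up 0 0 1 rfl rfl gl0 vv ndB0q0 ndB0q1

noncomputable def f_B00pm_001_s3 : ℕ → ℕ → ℕ → ℕ → Bool := onCell 0 536870912 536870912 536870912 780900216 37827925
    (rowF 0 false true false .up 0 0 1 (qsf 0 536870912 536870912 536870912 0) ndB0q0 ndB0q1 pcB0 cut_B00pm_001_s3 xt_B00pm_001_s3)

def k0_B00pm_001_s3 : ∃ t, chk3 f_B00pm_001_s3 t 2 1 1 = true :=
  ⟨(b (l 4) (b (b (l 4) (l 2)) (l 2))), by decide +kernel⟩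

def k1_B00pm_001_s3 : ∃ t, chk3 f_B00pm_001_s3 t 6 2 1 = true :=
  ⟨(b (l 4) (l 4)), by decide +kernel⟩

def k2_B00pm_001_s3 : ∃ t, chk3 f_B00pm_001_s3 t 7 4 1 = true :=
  ⟨(l 4), by decide +kernel⟩

def k3_B00pm_001_s3 : ∃ t, chk3 f_B00pm_001_s3 t 14 5 1 = true :=
  ⟨(b (l 4) (b (a (l 4) (b (l 4) (a (l 4) (l 532075535)))) (a (a (b (l 4) (l 531775503)) (l 531861775)) (a (b (a (l 531935759) (l 531999247)) (l 531994895)) (b (c (l 532204815) (l 531992847)) (c (l 532217103) (l 532025103))))))), by decide +kernel⟩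

def k4_B00pm_001_s3 : ∃ t, chk3 f_B00pm_001_s3 t 15 10 1 = true :=
  ⟨(a (b (l 4) (a (l 4) (b (l 4) (b (c (l 532805391) (l 532456719)) (l 532580367))))) (b (b (l 4) (a (l 4) (l 533321231))) (a (b (a (l 4) (l 533039631)) (c (a (b (l 533022991) (l 532963599)) (b (l 533168911) (l 533110287))) (a (b (l 532642575) (l 532600847)) (b (l 532767503) (l 532726031))))) (b (l 533239311) (b (l 533171215) (a (l 533054223) (l 533191439))))))), by decide +kernel⟩

def k5_B00pm_001_s3 : ∃ t, chk3 f_B00pm_001_s3 t 15 11 1 = true :=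
  ⟨(a (b (a (b (a (a (l 4) (b (l 4) (b (l 4) (c (a (l 532302095) (l 532328975)) (l 532064015))))) (b (l 532334863) (b (l 532299791) (a (c (l 532377871) (l 532118031)) (l 532310799))))) (a (c (a (l 532284431) (l 532324367)) (l 532065039)) (b (a (b (a (l 532229391) (l 532255247)) (l 532243215)) (b (l 532297999) (l 532294927))) (a (l 532247567) (l 532294671))))) (b (b (l 532530447) (b (l 532493327) (c (l 532616719) (l 532322831)))) (b (a (b (l 532388879) (l 532380687)) (c (l 532655375) (l 532362767))) (a (c (l 532505359) (l 532243727)) (c (l 532630287) (l 532350735)))))) (a (a (b (l 532203279) (l 532223503)) (b (a (l 532258575) (l 532301071)) (l 532296207))) (b (a (b (l 532371983) (l 532373519)) (b (c (l 532614415) (l 532346895)) (l 532475407))) (a (l 532380175) (c (l 532596239) (l 532352527)))))) (b (b (a (a (b (l 532730895) (l 532948495)) (b (c (l 533050639) (l 532683791)) (c (l 532990735) (l 532641039)))) (b (a (l 533003791)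 (l 533142031)) (a (l 533220879) (l 533091087)))) (a (a (b (c (l 532794895) (l 532482063)) (c (l 532762639) (l 532464143))) (b (c (l 532937999) (l 532604687)) (a (l 532708367) (l 16720808)))) (a (b (a (l 532872207) (l 16724640)) (b (l 16718344) (l 16707728))) (b (b (l 16717144) (l 16711936)) (b (l 16706696) (l 16701416)))))) (a (b (a (b (a (l 16726136) (l 16722320)) (a (l 16704360) (l 16700624))) (b (a (l 16708160) (l 16704632)) (a (l 16697024) (l 16693568)))) (a (b (l 16712080) (l 16679656)) (b (l 16705032) (l 16672736)))) (b (c (a (b (l 16702736) (l 16692072)) (b (l 16697144) (l 16686656))) (a (b (l 16696488) (l 16685272)) (b (l 16689728) (l 16678672)))) (a (b (l 16677592) (l 16666408)) (b (l 16671736) (l 16660696))))))), by decide +kernel⟩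

def k6_B00pm_001_s3 : ∃ t, chk3 f_B00pm_001_s3 t 6 6 1 = true :=
  ⟨(a (b (a (l 4) (a (l 4) (b (l 4) (b (l 4) (c (l 531385871) (l 531300623)))))) (b (a (l 2) (a (l 2) (b (c (l 531323151) (l 531209743)) (l 2)))) (l 2))) (b (a (b (l 4) (b (a (b (l 4) (c (l 531574799) (l 531513359))) (a (c (b (l 531695887) (l 532251663)) (b (l 531636239) (l 531653135))) (b (l 531707151) (c (l 531755279) (l 531693839))))) (a (c (l 531537679) (l 531462671)) (c (a (l 531649807) (l 532256527)) (a (l 531578127) (l 531648015)))))) (b (a (l 532211983) (b (l 531726351) (l 531778063))) (b (b (l 532053775) (a (c (l 531801359) (l 531738639)) (l 531845391))) (c (a (b (l 531804943) (l 531790351)) (l 531880207)) (a (b (l 531739663) (l 531719695)) (l 531812367)))))) (a (b (a (c (b (l 531488271) (l 531433231)) (b (l 531390991) (l 531308303))) (c (b (a (l 531603215) (l 531675151)) (l 531864591)) (b (a (l 531513871) (l 531588879)) (l 531486735)))) (a (l 2) (b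 (a (l 2) (l 16692112)) (l 2)))) (b (b (c (a (b (l 531773199) (l 16712576)) (l 531860495)) (a (l 532220943) (l 531784975))) (c (a (l 531731983) (l 531839503)) (a (l 531634447) (l 531751183)))) (a (b (c (l 16679696) (l 16676552)) (l 16687536)) (b (l 16659512) (l 16586248))))))), by decide +kernel⟩

def k7_B00pm_001_s3 : ∃ t, chk3 f_B00pm_001_s3 t 7 6 1 = true :=
  ⟨(b (a (b (a (a (b (l 531816975) (l 531859727)) (b (l 531916815) (l 531953423))) (a (l 532844815) (a (l 532124943) (l 532185359)))) (a (b (b (l 531936783) (a (l 531917583) (l 531999759))) (a (c (l 531959567) (l 531886607)) (l 532272911))) (b (a (l 532087823) (l 532195087)) (a (l 532095247) (l 532199183))))) (a (b (a (a (l 532249103) (b (l 532311567) (l 16682152))) (b (a (l 532391951) (b (l 16675472) (l 532482831))) (a (l 16674136) (l 532485647)))) (a (b (c (l 16684712) (l 16680120)) (c (l 532383247) (l 532242959))) (b (b (l 16631016) (l 16618584)) (l 16641120))))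 (b (a (b (a (l 532843023) (b (l 16661312) (l 16649792))) (a (c (l 532689167) (l 532464399)) (c (l 532792847) (l 532552975)))) (b (a (b (l 16655104) (l 16643704)) (b (l 16649528) (l 16638248))) (a (l 16626416) (l 16621112)))) (b (a (b (l 16659480) (l 16605256)) (b (a (l 16608960) (l 16603856)) (a (l 16596936) (l 16592104)))) (a (l 16627960) (b (l 16581968) (l 16568912))))))) (b (b (a (a (c (a (l 531945231) (l 16682632)) (a (l 531870735) (l 16680440))) (a (l 16662920) (l 16645200))) (a (a (l 16628680) (b (l 16578896) (l 16564800))) (a (l 16558888) (l 16548456)))) (a (a (a (l 16671104) (l 16652152)) (a (l 16591752) (l 16574080))) (a (a (l 16557536) (l 16542832)) (a (l 16530304) (l 16520000))))) (a (b (a (a (l 16598992) (l 16580512)) (a (l 16562320) (l 16544728))) (a (a (l 16568656) (l 16550912)) (l 16608344))) (a (b (a (l 16528112) (l 16513208)) (l 16575304)) (b (a (l 16500808) (l 6)) (l 6)))))), by decide +kernel⟩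

def k8_B00pm_001_s3 : ∃ t, chk3 f_B00pm_001_s3 t 3 7 1 = true :=
  ⟨(a (a (l 2) (b (b (a (l 2) (b (a (l 2) (l 16553784)) (l 2))) (l 2)) (l 2))) (b (a (b (a (b (l 16613368) (b (l 16505904) (l 64524744855))) (b (l 16579680) (l 6))) (a (b (l 137539119607) (l 2)) (l 6))) (l 6)) (l 6))), by decide +kernel⟩

theorem t9_B00pm_001_s3 : ∃ t, chk3 f_B00pm_001_s3 t 3 6 1 = true := ex3_a k6_B00pm_001_s3 k7_B00pm_001_s3

theorem t10_B00pm_001_s3 : ∃ t, chk3 f_B00pm_001_s3 t 3 3 1 = true := ex3_b t9_B00pm_001_s3 k8_B00pm_001_s3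

theorem t11_B00pm_001_s3 : ∃ t, chk3 f_B00pm_001_s3 t 15 5 1 = true := ex3_b k4_B00pm_001_s3 k5_B00pm_001_s3

theorem t12_B00pm_001_s3 : ∃ t, chk3 f_B00pm_001_s3 t 7 5 1 = true := ex3_a k3_B00pm_001_s3 t11_B00pm_001_s3

theorem t13_B00pm_001_s3 : ∃ t, chk3 f_B00pm_001_s3 t 7 2 1 = true := ex3_b k2_B00pm_001_s3 t12_B00pm_001_s3

theorem t14_B00pm_001_s3 : ∃ t, chk3 f_B00pm_001_s3 t 3 2 1 = true := ex3_a k1_B00pm_001_s3 t13_B00pm_001_s3

theorem t15_B00pm_001_s3 : ∃ t, chk3 f_B00pm_001_s3 t 3 1 1 = true := ex3_b t14_B00pm_001_s3 t10_B00pm_001_s3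

theorem t16_B00pm_001_s3 : ∃ t, chk3 f_B00pm_001_s3 t 1 1 1 = true := ex3_a k0_B00pm_001_s3 t15_B00pm_001_s3

theorem c_B00pm_001_s3 : CertF 0 536870912 536870912 536870912 780900216 37827925 false true false .up 0 0 1
    ndB0q0 ndB0q1 pcB0 cut_B00pm_001_s3 xt_B00pm_001_s3 :=
  certF0 (fam := false) (s1 := true) (s2 := false) (a := 0) (b := 0) (c := 1) (cn := .up) (n1 := ndB0q0) (n2 := ndB0q1) (pc := pcB0) (cut := cut_B00pm_001_s3) (xt := xt_B00pm_001_s3) (P1 := 0) (W1 := 536870912) (P2 := 536870912) (W2 := 536870912) (P3 := 780900216) (W3 := 37827925)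
    rfl t16_B00pm_001_s3

theorem s_B00pm_001_s3 {κ x : ℝ} (hκ : κ * h0 = ken x) (hx : ((780900216 : ℕ) : ℝ) / S ≤ x)
    (hx' : x ≤ (((780900216 : ℕ) : ℝ) + (37827925 : ℕ)) / S) :
    AltB (VFD κ) PP tK tL pcB [⟨4, 0, 0, 2845415833⟩] 0 0 1 0 0 (sgb true) (sgb false) x :=
  strip_altBD (m := 2845415833) false rfl hκ (SH.κ0 hκ (SH.hx1 hx).le (SH.hx2 hx').le) (SH.hx1 hx).le (SH.hx2 hx') (covB00).cov (covB01).cov hx hx' c_B00pm_001_s3 cutB_nil ((okx hx hx').extB (T := tt) (sideB hx hx') hκ rfl rfl (.O 0 true) (.O 1 false) (Or.inl rfl))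

noncomputable def cut_B00pm_011_s1 : Cut := Cut.of [[⟨4, 0, 0, 1449551462⟩], [⟨0, 0, 0, 67108864⟩, ⟨1, 1, 0, 67108864⟩, ⟨2, 1, 0, 67108864⟩]]

noncomputable def f_B00pm_011_s1 : ℕ → ℕ → ℕ → ℕ → Bool := onCell 0 536870912 536870912 536870912 780900216 37827925
    (rowF 0 false true false .pnn 0 1 1 (qsf 0 536870912 536870912 536870912 1) ndB0q0 ndB0q1 pcB1 cut_B00pm_011_s1 Ext.none)

def k0_B00pm_011_s1 : ∃ t, chk3 f_B00pm_011_s1 t 1 1 1 = true :=
  ⟨(l 6), by decide +kernel⟩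

theorem c_B00pm_011_s1 : CertF 0 536870912 536870912 536870912 780900216 37827925 false true false .pnn 0 1 1
    ndB0q0 ndB0q1 pcB1 cut_B00pm_011_s1 Ext.none :=
  certF0 (fam := false) (s1 := true) (s2 := false) (a := 0) (b := 1) (c := 1) (cn := .pnn) (n1 := ndB0q0) (n2 := ndB0q1) (pc := pcB1) (cut := cut_B00pm_011_s1) (xt := Ext.none) (P1 := 0) (W1 := 536870912) (P2 := 536870912) (W2 := 536870912) (P3 := 780900216) (W3 := 37827925)
    rfl k0_B00pm_011_s1

theorem s_B00pm_011_s1 {κ x : ℝ} (hκ : κ * h0 = ken x) (hx : ((780900216 : ℕ) : ℝ) / S ≤ x)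
    (hx' : x ≤ (((780900216 : ℕ) : ℝ) + (37827925 : ℕ)) / S)
    (H : CutB (VFD κ) PP tK tL pcB (Cut.of [[⟨0, 0, 0, 67108864⟩, ⟨1, 1, 0, 67108864⟩, ⟨2, 1, 0, 67108864⟩]]) 0 1 1 0 0 (sgb true) (sgb false) x) :
    AltB (VFD κ) PP tK tL pcB [⟨3, 0, 0, 1449551462⟩] 0 1 1 0 0 (sgb true) (sgb false) x :=
  strip_altBD (m := 1449551462) true rfl hκ (SH.κ0 hκ (SH.hx1 hx).le (SH.hx2 hx').le) (SH.hx1 hx).le (SH.hx2 hx') (covB00).cov (covB01).cov hx hx' c_B00pm_011_s1 H (noExt_B)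

end Pool.Agent.Strip051.G.I72727_7625.Tab.St.C
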