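import Pool.Agent.Strip051.G.I72727_7625.Tab
import Pool.Agent.Strip051.PB.StripB

/-! # Strips, near vertex: certificates 0 (generated) -/

set_option linter.all false
set_option maxRecDepth 100000

namespace Pool.Agent.Strip051.G.I72727_7625.Tab.CS.BA00

open Pool.Agent.Strip051.PB Pool.Agent.Strip051.PB.T
open Pool.Agent.Strip051.G.I72727_7625.Tab

noncomputable def cut_pp_001_s : Cut := Cut.of [[⟨4, 0, 0, 1449551462⟩]]

noncomputable def f_pp_001_s : ℕ → ℕ → ℕ → ℕ → Bool := onCell 0 536870912 0 536870912 780900216 37827925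
    (rowNE 3 eng mog cd0q0 cd0q0 pd1 0 true true true .up 0 0 1 (qsf 0 536870912 0 536870912 1) ndB0q0 ndB0q0 pcB1 cut_pp_001_s Ext.none)

def k0_pp_001_s : ∃ t, chk3 f_pp_001_s t 1 1 1 = true :=
  ⟨(l 4), by decide +kernel⟩

theorem c_pp_001_s : CertNE 0 536870912 0 536870912 780900216 37827925 3 eng mog cd0q0 cd0q0 pd1 true true true .up 0 0 1
    ndB0q0 ndB0q0 pcB1 cut_pp_001_s Ext.none :=
  certNE0 (fam := true) (s1 := true) (s2 := true) (a := 0) (b := 0) (c := 1) (cn := .up) (n1 := ndB0q0) (n2 := ndB0q0) (pc := pcB1) (cut := cut_pp_001_s) (xt := Ext.none) (P1 := 0) (W1 := 536870912) (P2 := 0) (W2 := 536870912) (P3 := 780900216) (W3 := 37827925) (N0 := 3) (En := eng) (mo := mog) (C1 := cd0q0) (C2 := cd0q0) (C3 := pd1)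
    rfl k0_pp_001_s

noncomputable def cut_pp_001_t : Cut := Cut.of [[⟨3, 0, 0, 2845415833⟩]]

noncomputable def f_pp_001_t : ℕ → ℕ → ℕ → ℕ → Bool := onCell 0 536870912 0 536870912 780900216 37827925
    (rowNE 3 eng mog cd0q0 cd0q0 pd1 0 true true true .up 0 0 1 (qsf 0 536870912 0 536870912 1) ndB0q0 ndB0q0 pcB1 cut_pp_001_t Ext.none)

def k0_pp_001_t : ∃ t, chk3 f_pp_001_t t 1 1 1 = true :=
  ⟨(l 4), by decide +kernel⟩

theorem c_pp_001_t : CertNE 0 536870912 0 536870912 780900216 37827925 3 eng mog cd0q0 cd0q0 pd1 true true true .up 0 0 1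
    ndB0q0 ndB0q0 pcB1 cut_pp_001_t Ext.none :=
  certNE0 (fam := true) (s1 := true) (s2 := true) (a := 0) (b := 0) (c := 1) (cn := .up) (n1 := ndB0q0) (n2 := ndB0q0) (pc := pcB1) (cut := cut_pp_001_t) (xt := Ext.none) (P1 := 0) (W1 := 536870912) (P2 := 0) (W2 := 536870912) (P3 := 780900216) (W3 := 37827925) (N0 := 3) (En := eng) (mo := mog) (C1 := cd0q0) (C2 := cd0q0) (C3 := pd1)
    rfl k0_pp_001_t

noncomputable def cut_pp_011_s : Cut := Cut.of [[⟨4, 0, 0, 1449551462⟩], [⟨0, 0, 0, 67108864⟩, ⟨1, 1, 0, 67108864⟩, ⟨2, 1, 0, 67108864⟩]]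

noncomputable def f_pp_011_s : ℕ → ℕ → ℕ → ℕ → Bool := onCell 0 536870912 536870912 536870912 780900216 37827925
    (rowNE 3 eng mog cd0q0 cd0q1 pd1 0 true true true .pnn 0 1 1 (qsf 0 536870912 536870912 536870912 1) ndB0q0 ndB0q1 pcB1 cut_pp_011_s Ext.none)

def k0_pp_011_s : ∃ t, chk3 f_pp_011_s t 1 1 1 = true :=
  ⟨(l 6), by decide +kernel⟩

theorem c_pp_011_s : CertNE 0 536870912 536870912 536870912 780900216 37827925 3 eng mog cd0q0 cd0q1 pd1 true true true .pnn 0 1 1
    ndB0q0 ndB0q1 pcB1 cut_pp_011_s Ext.none :=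
  certNE0 (fam := true) (s1 := true) (s2 := true) (a := 0) (b := 1) (c := 1) (cn := .pnn) (n1 := ndB0q0) (n2 := ndB0q1) (pc := pcB1) (cut := cut_pp_011_s) (xt := Ext.none) (P1 := 0) (W1 := 536870912) (P2 := 536870912) (W2 := 536870912) (P3 := 780900216) (W3 := 37827925) (N0 := 3) (En := eng) (mo := mog) (C1 := cd0q0) (C2 := cd0q1) (C3 := pd1)
    rfl k0_pp_011_s

noncomputable def cut_pp_011_t : Cut := Cut.of [[⟨3, 0, 0, 2845415833⟩], [⟨0, 0, 0, 67108864⟩, ⟨1, 1, 0, 67108864⟩, ⟨2, 1, 0, 67108864⟩]]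

noncomputable def f_pp_011_t : ℕ → ℕ → ℕ → ℕ → Bool := onCell 0 536870912 536870912 536870912 780900216 37827925
    (rowNE 3 eng mog cd0q0 cd0q1 pd1 0 true true true .pnn 0 1 1 (qsf 0 536870912 536870912 536870912 1) ndB0q0 ndB0q1 pcB1 cut_pp_011_t Ext.none)

def k0_pp_011_t : ∃ t, chk3 f_pp_011_t t 1 1 1 = true :=
  ⟨(b (l 4) (a (b (l 4) (a (b (l 4) (a (b (l 4) (a (l 14) (l 4))) (l 4))) (l 4))) (l 4))), by decide +kernel⟩

theorem c_pp_011_t : CertNE 0 536870912 536870912 536870912 780900216 37827925 3 eng mog cd0q0 cd0q1 pd1 true true true .pnn 0 1 1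
    ndB0q0 ndB0q1 pcB1 cut_pp_011_t Ext.none :=
  certNE0 (fam := true) (s1 := true) (s2 := true) (a := 0) (b := 1) (c := 1) (cn := .pnn) (n1 := ndB0q0) (n2 := ndB0q1) (pc := pcB1) (cut := cut_pp_011_t) (xt := Ext.none) (P1 := 0) (W1 := 536870912) (P2 := 536870912) (W2 := 536870912) (P3 := 780900216) (W3 := 37827925) (N0 := 3) (En := eng) (mo := mog) (C1 := cd0q0) (C2 := cd0q1) (C3 := pd1)
    rfl k0_pp_011_t

noncomputable def cut_pp_012_s : Cut := Cut.of [[⟨4, 0, 0, 1449551462⟩], [⟨0, 0, 0, 67108864⟩, ⟨1, 1, 0, 67108864⟩, ⟨2, 1, 0, 67108864⟩]]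

noncomputable def f_pp_012_s : ℕ → ℕ → ℕ → ℕ → Bool := onCell 0 536870912 536870912 536870912 780900216 37827925
    (rowNE 3 eng mog cd0q0 cd0q1 pd2 0 true true true .pnp 0 1 2 (qsf 0 536870912 536870912 536870912 2) ndB0q0 ndB0q1 pcB2 cut_pp_012_s Ext.none)

def k0_pp_012_s : ∃ t, chk3 f_pp_012_s t 1 1 1 = true :=
  ⟨(l 6), by decide +kernel⟩

theorem c_pp_012_s : CertNE 0 536870912 536870912 536870912 780900216 37827925 3 eng mog cd0q0 cd0q1 pd2 true true true .pnp 0 1 2
    ndB0q0 ndB0q1 pcB2 cut_pp_012_s Ext.none :=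
  certNE0 (fam := true) (s1 := true) (s2 := true) (a := 0) (b := 1) (c := 2) (cn := .pnp) (n1 := ndB0q0) (n2 := ndB0q1) (pc := pcB2) (cut := cut_pp_012_s) (xt := Ext.none) (P1 := 0) (W1 := 536870912) (P2 := 536870912) (W2 := 536870912) (P3 := 780900216) (W3 := 37827925) (N0 := 3) (En := eng) (mo := mog) (C1 := cd0q0) (C2 := cd0q1) (C3 := pd2)
    rfl k0_pp_012_s

noncomputable def cut_pp_012_t : Cut := Cut.of [[⟨3, 0, 0, 2845415833⟩], [⟨0, 0, 0, 67108864⟩, ⟨1, 1, 0, 67108864⟩, ⟨2, 1, 0, 67108864⟩]]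

noncomputable def f_pp_012_t : ℕ → ℕ → ℕ → ℕ → Bool := onCell 0 536870912 536870912 536870912 780900216 37827925
    (rowNE 3 eng mog cd0q0 cd0q1 pd2 0 true true true .pnp 0 1 2 (qsf 0 536870912 536870912 536870912 2) ndB0q0 ndB0q1 pcB2 cut_pp_012_t Ext.none)

def k0_pp_012_t : ∃ t, chk3 f_pp_012_t t 1 1 1 = true :=
  ⟨(b (l 4) (a (b (l 4) (a (b (l 4) (a (b (l 4) (a (l 14) (l 4))) (l 4))) (l 4))) (l 4))), by decide +kernel⟩

theorem c_pp_012_t : CertNE 0 536870912 536870912 536870912 780900216 37827925 3 eng mog cd0q0 cd0q1 pd2 true true true .pnp 0 1 2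
    ndB0q0 ndB0q1 pcB2 cut_pp_012_t Ext.none :=
  certNE0 (fam := true) (s1 := true) (s2 := true) (a := 0) (b := 1) (c := 2) (cn := .pnp) (n1 := ndB0q0) (n2 := ndB0q1) (pc := pcB2) (cut := cut_pp_012_t) (xt := Ext.none) (P1 := 0) (W1 := 536870912) (P2 := 536870912) (W2 := 536870912) (P3 := 780900216) (W3 := 37827925) (N0 := 3) (En := eng) (mo := mog) (C1 := cd0q0) (C2 := cd0q1) (C3 := pd2)
    rfl k0_pp_012_t

noncomputable def cut_pp_022_s : Cut := Cut.of [[⟨4, 0, 0, 1449551462⟩], [⟨0, 0, 0, 67108864⟩, ⟨1, 1, 0, 67108864⟩, ⟨2, 1, 0, 67108864⟩]]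

noncomputable def f_pp_022_s : ℕ → ℕ → ℕ → ℕ → Bool := onCell 0 536870912 0 536870912 780900216 37827925
    (rowNE 3 eng mog cd0q0 cd0q2 pd2 0 true true true .pp 0 2 2 (qsf 0 536870912 0 536870912 2) ndB0q0 ndB0q2 pcB2 cut_pp_022_s Ext.none)

def k0_pp_022_s : ∃ t, chk3 f_pp_022_s t 1 1 1 = true :=
  ⟨(l 6), by decide +kernel⟩

theorem c_pp_022_s : CertNE 0 536870912 0 536870912 780900216 37827925 3 eng mog cd0q0 cd0q2 pd2 true true true .pp 0 2 2
    ndB0q0 ndB0q2 pcB2 cut_pp_022_s Ext.none :=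
  certNE0 (fam := true) (s1 := true) (s2 := true) (a := 0) (b := 2) (c := 2) (cn := .pp) (n1 := ndB0q0) (n2 := ndB0q2) (pc := pcB2) (cut := cut_pp_022_s) (xt := Ext.none) (P1 := 0) (W1 := 536870912) (P2 := 0) (W2 := 536870912) (P3 := 780900216) (W3 := 37827925) (N0 := 3) (En := eng) (mo := mog) (C1 := cd0q0) (C2 := cd0q2) (C3 := pd2)
    rfl k0_pp_022_s

noncomputable def cut_pp_022_t : Cut := Cut.of [[⟨3, 0, 0, 2845415833⟩], [⟨0, 0, 0, 67108864⟩, ⟨1, 1, 0, 67108864⟩, ⟨2, 1, 0, 67108864⟩]]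

noncomputable def f_pp_022_t : ℕ → ℕ → ℕ → ℕ → Bool := onCell 0 536870912 0 536870912 780900216 37827925
    (rowNE 3 eng mog cd0q0 cd0q2 pd2 0 true true true .pp 0 2 2 (qsf 0 536870912 0 536870912 2) ndB0q0 ndB0q2 pcB2 cut_pp_022_t Ext.none)

def k0_pp_022_t : ∃ t, chk3 f_pp_022_t t 2 2 1 = true :=
  ⟨(a (b (l 6) (b (l 6) (a (l 6) (b (l 6) (a (a (l 6) (a (l 6) (l 16562024))) (a (b (l 16561856) (l 16555048)) (b (l 16572088) (l 16586328)))))))) (b (a (l 6) (a (l 6) (b (l 6) (b (l 6) (l 16593472))))) (a (b (b (l 6) (a (l 6) (a (l 16569104) (l 16584648)))) (a (b (a (l 16564072) (l 16599256)) (a (b (l 16584184) (l 16598528)) (b (l 16598504) (l 16591968)))) (b (a (l 16614840) (b (l 16602984) (l 16616136))) (a (b (l 16614168) (l 16586728)) (b (l 16630016) (l 16597400)))))) (b (a (b (l 16584872) (a (l 16600008) (l 16594024))) (b (l 16635008) (a (l 16587776) (l 16644464)))) (a (b (b (l 16647056) (a (l 16631768) (l 16646992))) (a (l 16674088) (l 16699272))) (b (a (l 16655248) (l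 16670136)) (a (b (l 16676064) (l 16690944)) (c (l 16719120) (l 16699200))))))))), by decide +kernel⟩

def k1_pp_022_t : ∃ t, chk3 f_pp_022_t t 8 6 1 = true :=
  ⟨(b (b (a (l 6) (a (l 6) (b (l 6) (l 16550664)))) (b (a (l 6) (a (a (l 16564160) (l 16573408)) (a (l 16560664) (l 16588408)))) (a (a (a (l 6) (l 16545624)) (a (l 16556200) (l 16566448))) (a (a (l 16576304) (l 16585752)) (a (b (l 16591480) (l 16598008)) (a (l 16600824) (l 16604312))))))) (a (a (b (a (b (l 16547072) (a (l 16557432) (l 16563048))) (b (l 16558048) (a (l 16568584) (l 16574048)))) (b (a (c (l 16596256) (l 16593952)) (a (l 16582504) (l 16588016))) (a (a (b (l 16582040) (l 16589512)) (b (l 16587728) (l 16595224))) (a (b (l 16593344) (l 16600864)) (l 16623648))))) (b (b (a (l 16568752) (l 16579128)) (a (l 16603080) (l 16613592))) (b (a (a (l 16593456) (l 16598832)) (b (l 16603128) (l 16610352))) (a (a (l 16629144) (l 16634560)) (a (l 16639920) (l 16645208)))))) (b (b (a (a (l 16589184) (l 16598840)) (a (l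 16608096) (a (l 16614768) (l 16597928)))) (a (a (l 16623800) (l 16633672)) (a (l 16622176) (b (l 16627576) (l 16634904))))) (b (a (a (b (l 16613440) (l 16620736)) (b (l 16623456) (l 16630816))) (a (b (l 16633104) (l 16640592)) (b (l 16642368) (l 16649976)))) (a (a (a (l 16650432) (l 16655592)) (c (l 16663976) (l 16662488))) (a (a (l 16670688) (l 16675568)) (a (l 16680352) (l 16674560)))))))), by decide +kernel⟩

def k2_pp_022_t : ∃ t, chk3 f_pp_022_t t 9 6 1 = true :=
  ⟨(b (a (b (a (b (l 16569816) (l 16583592)) (b (l 16580408) (l 16594696))) (a (b (l 16597744) (l 16612456)) (b (l 16609424) (l 16624752)))) (b (b (a (a (l 16588024) (l 16593008)) (l 16580104)) (a (a (l 16602752) (l 16608096)) (a (l 16613496) (l 16619304)))) (a (b (a (l 16617936) (l 16602664)) (l 16657720)) (a (b (l 16608384) (b (l 16641616) (l 16650032))) (b (l 16635264) (b (l 16647680) (l 16656232))))))) (b (a (a (b (a (b (l 16620488) (l 16628184)) (l 16631056)) (a (b (l 16614920) (a (l 16641496) (l 16645664)))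 (b (l 16643016) (l 16651176)))) (b (a (l 16637504) (l 16643832)) (a (l 16653912) (l 16660576)))) (a (a (b (l 16650160) (l 16667256)) (b (l 16656544) (l 16673976))) (b (a (b (l 16658584) (l 16667328)) (b (l 16644024) (l 16652944))) (a (l 16680768) (a (l 16685920) (b (l 16684728) (l 16694008))))))) (a (a (b (a (b (l 16651232) (l 16658968)) (b (a (l 16657480) (l 16661200)) (b (l 16644480) (l 16648536)))) (a (b (l 16666880) (l 16695936)) (b (a (l 16673456) (l 16677720)) (l 16683840)))) (b (a (l 16655040) (b (l 16673408) (l 16682120))) (a (b (a (l 16660760) (l 16685456)) (a (l 16669248) (b (l 16692024) (l 16696416)))) (b (l 16690952) (l 16699896))))) (a (b (a (b (l 16680360) (l 16689264)) (b (l 16687360) (l 16696456))) (a (b (l 16698288) (l 16707432)) (b (l 16705672) (l 16715024)))) (a (b (b (l 16694424) (l 16703720)) (b (l 16713136) (a (l 16720760) (l 16724624)))) (b (b (l 16701600) (l 16711080)) (b (l 16720704) (a (l 16728512) (l 16732424))))))))), by decide +kernel⟩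

def k3_pp_022_t : ∃ t, chk3 f_pp_022_t t 16 14 1 = true :=
  ⟨(b (a (a (b (a (b (l 16597224) (l 16605240)) (c (l 16628928) (l 16626960))) (b (a (c (l 16614800) (l 16612904)) (l 16630080)) (a (c (l 16624032) (l 16622256)) (c (l 16629776) (l 16628040))))) (b (b (a (l 16608624) (l 16614216)) (a (l 16616672) (l 16622288))) (b (a (l 16625288) (l 16630912)) (a (c (l 16635448) (l 16633768)) (l 16650704))))) (b (a (b (a (l 16619744) (l 16625200)) (a (l 16627832) (l 16633312))) (b (a (l 16630592) (l 16635920)) (a (l 16638728) (l 16644080)))) (a (b (a (l 16636472) (l 16641968)) (a (l 16656272) (l 16651288))) (b (a (l 16647400) (l 16652768)) (a (l 16656720) (l 16662096)))))) (a (b (a (a (l 14) (b (c (l 16639656) (l 16638064)) (l 14))) (b (a (c (l 16645328) (l 16643784)) (c (l 16650936) (l 16649432))) (a (c (l 16655816) (l 16654424)) (c (l 16661408) (l 16660064))))) (a (l 14) (b (a (l 14) (c (l 16672448) (l 16671264))) (l 14)))) (b (a (b (a (c (l 16656472) (l 16655024)) (c (l 16661944)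 (l 16660544))) (a (c (l 16666936) (l 16665640)) (c (l 16672400) (l 16671152)))) (b (a (l 16674528) (l 16682520)) (a (c (l 16677800) (l 16676600)) (c (l 16683136) (l 16681992))))) (a (b (a (c (l 16683208) (l 16687312)) (c (l 16683408) (l 16682320))) (a (l 14) (c (b (l 16691992) (l 16697880)) (b (l 16691032) (l 16697008))))) (b (a (c (l 16688800) (l 16687760)) (c (l 16694120) (l 16693128))) (a (b (l 16707384) (c (l 16703240) (l 16702416))) (b (l 16712720) (c (l 16708544) (l 16707760))))))))), by decide +kernel⟩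

def k4_pp_022_t : ∃ t, chk3 f_pp_022_t t 17 14 1 = true :=
  ⟨(b (b (a (a (b (l 16659520) (a (l 16649368) (l 16654592))) (b (l 16664560) (a (l 16659752) (l 16664856)))) (b (a (l 16674600) (l 16684352)) (a (a (l 16669904) (l 16674896)) (a (l 16679816) (l 16684672))))) (a (a (b (a (l 16658072) (l 16663312)) (c (l 16681208) (l 16679880))) (b (a (l 16668496) (l 16673616)) (c (l 16691528) (l 16690320)))) (a (b (a (l 16678680) (l 16683688)) (a (l 16688056) (l 16693072))) (a (b (l 16688648) (l 16698040)) (b (l 16693536) (l 16702952)))))) (b (b (a (a (a (l 16687832) (l 16693080)) (a (l 16698272) (l 16703408))) (a (a (l 16708488) (l 16710888)) (a (c (l 16708440) (l 16707552)) (l 16720768)))) (a (a (a (c (l 16688416) (l 16687320)) (c (l 16693632) (l 16692592))) (a (c (l 16698784) (l 16697800)) (c (l 16703888) (l 16702960)))) (a (a (c (l 16708928) (l 16708064)) (c (l 16713920) (l 16713104))) (a (c (l 16718856) (l 16718104)) (a (l 16732648) (l 16735088)))))) (b (a (a (a (c (l 16699384)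 (l 16698448)) (a (l 16713320) (l 16715920))) (a (c (l 16709736) (l 16708904)) (c (l 16725312) (l 16724536)))) (a (b (a (l 16716680) (l 16721688)) (a (l 16732792) (l 16732552))) (b (a (l 16726648) (l 16736800)) (a (l 16737504) (c (l 16737424) (l 16736912)))))) (a (a (a (b (l 16717992) (c (l 16713784) (l 16713048))) (b (l 16723216) (c (l 16718960) (l 16718280)))) (b (a (l 16723136) (l 16728240)) (a (c (l 16724088) (l 16723464)) (c (l 16729160) (l 16728584))))) (a (a (b (c (l 16728352) (l 16727752)) (c (l 16734168) (l 16733648))) (b (c (l 16733320) (l 16732776)) (c (l 16739136) (l 16738664)))) (a (b (c (l 16738240) (l 16737752)) (c (l 16744040) (l 16743632))) (b (c (l 16743104) (l 16742672)) (c (l 16754144) (l 16753784))))))))), by decide +kernel⟩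

def k5_pp_022_t : ∃ t, chk3 f_pp_022_t t 16 15 1 = true :=
  ⟨(b (a (l 14) (b (a (l 14) (b (a (b (c (l 16709216) (l 16708472)) (c (l 16715280) (l 16714624))) (b (c (l 16714504) (l 16713816)) (c (l 16720560) (l 16719944)))) (a (l 14) (a (b (l 16730328) (l 14)) (b (l 16732960) (a (l 14) (l 16734600))))))) (l 14))) (l 14)), by decide +kernel⟩

def k6_pp_022_t : ∃ t, chk3 f_pp_022_t t 34 60 1 = true :=
  ⟨(b (a (a (b (c (l 16719736) (l 16719088)) (c (l 16725776) (l 16725216))) (b (c (l 16724912) (l 16724312)) (c (l 16730936) (l 16730424)))) (b (a (c (l 16730024) (l 16729480)) (c (l 16735080) (l 16734592))) (a (a (l 16739768) (l 16742320)) (c (l 16746336) (l 16745920))))) (c (a (a (b (l 16737128) (a (l 16736776) (l 16739360))) (b (l 16742280) (c (l 16748544) (l 16748360)))) (b (a (a (l 16740856) (l 16743392)) (a (l 16745912) (l 16748416))) (a (c (l 16750992) (l 16750832)) (a (l 16757304) (l 16757184))))) (a (a (b (l 16736648) (a (l 16736352) (l 16738960))) (b (l 16741848) (c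 (l 16748176) (l 16748008)))) (b (a (a (l 16740464) (l 16743024)) (c (l 16746912) (l 16746760))) (a (c (l 16750680) (l 16750528)) (a (l 16751792) (l 16756944))))))), by decide +kernel⟩

def k7_pp_022_t : ∃ t, chk3 f_pp_022_t t 68 61 1 = true :=
  ⟨(b (a (b (a (c (l 16743032) (l 16742688)) (c (l 16748232) (l 16747912))) (l 14)) (a (b (c (l 16750792) (l 16750496)) (c (b (l 16752904) (l 16756088)) (b (l 16752664) (l 16755880)))) (b (c (l 16753344) (l 16753072)) (b (c (l 16755448) (l 16755232)) (c (l 16761248) (l 16761064)))))) (b (a (l 14) (a (l 14) (a (b (c (l 16761192) (l 16761032)) (l 14)) (b (c (l 16762456) (l 16762312)) (c (l 16768288) (l 16768184)))))) (l 14))), by decide +kernel⟩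

def k8_pp_022_t : ∃ t, chk3 f_pp_022_t t 69 122 1 = true :=
  ⟨(a (b (b (a (l 16754176) (a (l 16753456) (l 16754720))) (a (c (l 16754824) (l 16754600)) (c (l 16757344) (l 16757144)))) (a (b (c (l 16757984) (l 16757784)) (c (l 16761160) (l 16763616))) (b (c (l 16760504) (l 16760328)) (c (c (l 16763712) (l 16763640)) (c (l 16763568) (l 16763504)))))) (a (b (b (c (l 16756720) (l 16756504)) (c (l 16759856) (l 16759672))) (b (c (l 16765624) (l 16765480)) (c (c (l 16768824) (l 16768768)) (c (l 16768712) (l 16768656))))) (b (b (c (l 16759216) (l 16759032)) (c (l 16762352) (l 16762192))) (b (c (c (l 16765528) (l 16765464)) (c (l 16765408) (l 16765344))) (a (c (l 16770664) (l 16769256)) (b (l 16771064) (a (l 16769728) (l 16770352)))))))), by decide +kernel⟩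

def k9_pp_022_t : ∃ t, chk3 f_pp_022_t t 69 246 1 = true :=
  ⟨(b (b (a (a (c (l 16763552) (l 16763416)) (c (l 16766064) (l 16765952))) (a (a (l 16770512) (a (l 16768832) (l 16769456))) (a (c (l 16770432) (l 16770360)) (c (l 16771672) (l 16771616))))) (a (a (c (l 16765152) (l 16765032)) (c (l 16768976) (l 16768880))) (a (c (c (l 16771488) (l 16771456)) (c (l 16771416) (l 16771384))) (a (a (l 16773000) (l 16773624)) (a (a (l 16772776) (l 16771776)) (a (l 16772088) (l 16772400))))))) (b (a (a (a (l 16767384) (l 16768648)) (c (c (l 16770600) (l 16770560)) (c (l 16770520) (l 16770480)))) (a (a (a (l 16770800) (l 16772736)) (a (l 16773360) (a (l 16772520) (l 16772832)))) (a (a (b (l 16772896) (l 16773704)) (b (l 16773520) (l 16773016))) (b (c (l 16773152) (l 16773128)) (l 16775256))))) (a (a (c (c (l 16769704) (l 16769656)) (c (l 16769616) (l 16769576))) (a (a (l 16769896) (l 16770528)) (a (l 16772472) (l 16773096)))) (a (a (c (c (l 16772760) (l 16772736)) (c (l 16772712) (l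 16772696))) (b (c (l 16773592) (l 16773552)) (a (l 16772760) (l 16773384)))) (a (c (l 16775232) (l 16775216)) (a (a (l 16776000) (l 16776312)) (b (l 16776376) (a (l 16777664) (c (l 70564971703) (l 71101842615)))))))))), by decide +kernel⟩

def k10_pp_022_t : ∃ t, chk3 f_pp_022_t t 69 247 1 = true :=
  ⟨(b (a (a (a (l 14) (a (b (l 16771576) (l 14)) (b (l 16772200) (a (l 16773672) (l 16773992))))) (a (b (c (l 16773176) (l 16773120)) (a (b (l 16772744) (l 16774872)) (b (l 16773368) (a (l 16774032) (l 16774344))))) (b (a (b (l 16772376) (l 16773184)) (c (l 16774736) (l 16773392))) (b (a (l 16772688) (a (l 16774472) (l 16774784))) (b (a (l 16774608) (l 16773928)) (l 16775328)))))) (a (b (a (a (b (l 16773632) (l 16773128)) (b (l 16772944) (a (l 16774912) (l 16775224)))) (c (l 16775608) (l 16775592))) (a (a (a (l 16775504) (l 16775816)) (c (a (l 16776136) (l 16776440)) (l 16776608))) (a (b (l 16776504) (b (c (l 16777736) (l 16777736)) (c (l 114588386439) (l 116735870071)))) (b (b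 (l 16776912) (a (l 16777144) (l 129083900871))) (l 4))))) (a (b (b (c (c (l 16776440) (l 16776432)) (l 16776760)) (a (c (l 16777656) (l 16777568)) (b (c (l 73249326311) (l 74323068119)) (l 4)))) (b (a (c (l 175254798935) (l 179012895303)) (l 4)) (l 4))) (b (b (a (b (c (l 16777784) (l 16777784)) (l 123178321255)) (l 4)) (l 4)) (l 4))))) (a (a (l 14) (a (b (a (b (c (l 16774384) (l 16774360)) (l 14)) (b (c (l 16775016) (l 16774992)) (l 16775816))) (b (a (l 14) (a (l 14) (l 16776792))) (l 14))) (b (a (c (l 16776048) (l 16776032)) (b (l 16776256) (b (l 16776864) (a (l 16777104) (l 107609064487))))) (b (b (a (c (l 16777696) (l 16777688)) (l 190824055319)) (a (a (l 70028100631) (l 4)) (l 4))) (l 4))))) (a (a (b (b (a (c (c (l 16777520) (l 16777520)) (l 16777432)) (b (a (l 16777128) (l 122104578983)) (l 195655893559))) (a (a (b (l 83986744215) (l 4)) (l 4)) (l 4))) (l 4)) (l 4)) (l 4)))), by decide +kernel⟩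

def k11_pp_022_t : ∃ t, chk3 f_pp_022_t t 35 60 1 = true :=
  ⟨(a (a (a (b (b (l 16738608) (l 16748584)) (b (c (l 16750912) (l 16750616)) (b (l 16758008) (c (l 16758592) (l 16758392))))) (b (b (l 16746352) (c (l 16747320) (l 16746976))) (b (c (l 16753392) (l 16753120)) (b (c (l 16757984) (l 16757768)) (c (l 16761072) (l 16760896)))))) (b (b (c (l 16745040) (l 16749896)) (b (c (l 16749520) (l 16749192)) (c (l 16752528) (l 16752248)))) (b (a (c (l 16761096) (l 16758232)) (c (l 16760928) (l 16760056))) (a (b (c (l 16760448) (l 16760256)) (c (l 16763528) (l 16763376))) (b (c (l 16762896) (l 16762736)) (c (l 16768600) (l 16768472))))))) (b (a (b (a (c (l 16748720) (l 16748376)) (c (l 16751152) (l 16750840))) (b (c (l 16754416) (l 16754144)) (c (l 16760040) (l 16759808)))) (a (b (c (l 16753576) (l 16753288)) (c (l 16762168) (l 16761960))) (b (c (l 16755992) (l 16755728)) (b (l 16765592) (c (l 16763456) (l 16763296)))))) (a (a (b (b (l 16761744) (c (l 16762272) (l 16762096))) (a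 (b (l 16767272) (c (l 16767800) (l 16767696))) (b (l 16768496) (c (l 16769016) (l 16768928))))) (a (b (c (l 16765192) (l 16765024)) (b (c (l 16767152) (l 16767032)) (b (l 16769408) (l 16768344)))) (b (c (l 16766400) (l 16766248)) (b (c (l 16768360) (l 16768256)) (b (l 16768008) (a (l 16771872) (l 16772480))))))) (b (c (b (a (l 16764072) (l 16769096)) (a (l 16769728) (a (l 16768912) (l 16770112)))) (b (a (l 16763920) (l 16768968)) (a (b (l 16766224) (l 16767760)) (a (l 16768816) (l 16770024))))) (a (b (a (c (l 16769568) (l 16769480)) (b (l 16769960) (l 16768880))) (c (l 16773896) (l 16773200))) (a (b (b (l 16768544) (l 16770088)) (c (l 16775040) (l 16775016))) (b (l 16773144) (b (l 16775456) (b (l 16776600) (a (l 16777048) (l 122641450791))))))))))), by decide +kernel⟩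

def k12_pp_022_t : ∃ t, chk3 f_pp_022_t t 35 244 1 = true :=
  ⟨(a (a (a (b (c (l 16761704) (l 16761536)) (c (l 16766144) (l 16766008))) (b (c (l 16766792) (l 16766656)) (c (c (l 16769944) (l 16769896)) (c (l 16769840) (l 16769792))))) (a (a (b (c (l 16766016) (l 16765896)) (c (l 16771760) (l 16771672))) (b (c (l 16767240) (l 16767136)) (b (l 16772160) (a (l 16770808) (l 16771424))))) (a (b (c (l 16768464) (l 16768368)) (b (c (l 16770800) (l 16770736)) (c (l 16772368) (l 16772312)))) (c (b (l 16772304) (b (l 16772024) (l 16772272))) (b (b (l 16768816) (l 16770392)) (b (l 16771968) (l 16770928))))))) (a (b (b (a (a (l 16772704) (c (l 16771336) (l 16771272))) (b (a (l 16772128) (l 16770720)) (l 16773520))) (c (a (a (l 16771680) (l 16772888)) (l 16774704)) (a (c (l 16769624) (l 16769600)) (l 16774680)))) (a (a (a (b (l 16770288) (l 16773168)) (l 16774712)) (b (l 16774432) (a (l 16775704) (l 16776304)))) (a (b (l 16775648) (b (a (l 16776520) (l 16777736)) (a (l 60901295863)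 (l 4)))) (b (a (l 16777360) (b (l 16776760) (l 100092872471))) (c (l 191897797991) (l 189750314295)))))) (b (b (a (a (l 16774944) (c (l 16776152) (l 16776144))) (a (b (a (l 16776664) (l 16777824)) (a (l 81839261463) (l 4))) (l 201561474535))) (a (b (a (l 16776112) (a (l 16776984) (l 109219678071))) (a (a (l 16776592) (l 16777792)) (l 186529088487))) (l 4))) (b (b (a (a (a (l 73786197687) (l 4)) (l 4)) (l 4)) (l 4)) (l 4))))), by decide +kernel⟩

def k13_pp_022_t : ∃ t, chk3 f_pp_022_t t 35 245 1 = true :=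
  ⟨(a (a (b (b (a (c (l 16767184) (l 16767080)) (a (l 16771616) (c (l 16770264) (l 16770192)))) (a (c (l 16770072) (l 16769984)) (a (a (l 16770264) (l 16770888)) (c (l 16771840) (l 16771784))))) (a (a (b (l 16771000) (a (l 16770968) (l 16771592))) (b (c (l 16770960) (l 16770896)) (c (c (l 16772560) (l 16772536)) (l 16770536)))) (c (b (a (l 16772192) (c (l 16773432) (l 16773408))) (b (a (l 16773384) (l 16773296)) (l 16774792))) (a (b (l 16772144) (c (l 16771128) (l 16771112))) (l 16774512))))) (b (a (a (b (c (l 16771496) (l 16771432)) (c (c (l 16773080) (l 16773056)) (l 16770400))) (c (b (l 16770096) (c (l 16771680) (l 16771664))) (b (l 16770048) (l 16772296)))) (a (c (l 16775048) (l 16774696)) (b (l 16775144) (b (l 16776328) (a (l 16776800) (c (l 80228648455) (l 80765519367))))))) (a (a (b (l 16774960) (a (l 16775920) (b (l 16776136) (l 16777560)))) (a (b (l 16775552) (b (l 16776744) (c (l 97945388615) (l 99019130455)))) (b (l 16776168) (b (c (l 69491230215) (l 70564972023))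 (l 4))))) (b (b (c (a (l 16777328) (c (l 169349219079) (l 170959831799))) (a (l 16777320) (l 172570444519))) (a (a (c (l 16777936) (l 16777768)) (l 180623508103)) (l 4))) (l 4))))) (a (b (a (a (a (b (l 16776056) (b (c (l 16777968) (l 16777800)) (l 4))) (b (b (l 16776272) (l 16777680)) (l 198877119623))) (b (a (b (l 16776864) (l 116735870807)) (b (l 87207970647) (l 4))) (l 4))) (l 4)) (l 4)) (l 4))), by decide +kernel⟩

def k14_pp_022_t : ∃ t, chk3 f_pp_022_t t 35 123 1 = true :=
  ⟨(a (b (a (a (a (a (b (b (a (l 16772416) (l 16772728)) (b (l 16773776) (l 16773264))) (b (l 16775784) (b (c (l 16777784) (l 16777616)) (c (l 182234120855) (l 185992217223))))) (b (c (b (l 16773216) (l 16773496)) (b (l 16773176) (l 16773472))) (b (c (l 16776896) (l 16776720)) (b (c (l 158074929575) (a (l 96871646407) (l 208003924583))) (l 4))))) (b (c (c (l 16774944) (l 16774928)) (c (l 16774920) (l 16774912))) (b (a (b (l 16776624) (a (c (l 57143198887) (l 57680069799)) (l 117809612215))) (b (b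 (l 16777016) (l 91502937511)) (l 4))) (l 4)))) (a (b (c (b (l 16775368) (b (l 16777208) (a (l 16778000) (l 165054251511)))) (b (l 16775352) (b (l 16777200) (a (l 16777664) (l 120493966951))))) (a (b (b (l 189750313687) (l 4)) (l 4)) (l 4))) (b (b (b (l 16776192) (a (l 16776680) (a (l 16777760) (l 91502937527)))) (a (b (a (l 66806875559) (l 131231385015)) (l 4)) (l 4))) (l 4)))) (b (b (a (a (a (b (c (l 16777888) (l 16777720)) (l 203172086551)) (c (l 182234121223) (l 185455346679))) (l 4)) (l 4)) (l 4)) (l 4))) (l 4)) (l 4)), by decide +kernel⟩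

def k15_pp_022_t : ∃ t, chk3 f_pp_022_t t 17 31 1 = true :=
  ⟨(b (a (b (a (l 14) (a (a (l 14) (a (l 14) (l 4))) (l 4))) (l 4)) (l 4)) (l 4)), by decide +kernel⟩

def k16_pp_022_t : ∃ t, chk3 f_pp_022_t t 18 28 1 = true :=
  ⟨(a (a (b (b (l 16693736) (a (l 16689424) (l 16694096))) (b (b (l 16708912) (l 16713528)) (a (l 16718288) (l 16723064)))) (b (b (a (l 16690040) (l 16694456)) (a (l 16698672) (l 16703152))) (b (b (l 16718160) (l 16720200)) (a (l 16727752) (l 16727112))))) (b (a (b (a (l 16698760) (b (l 16700784) (l 16705160))) (a (l 16707528) (l 16711832))) (a (b (a (l 16695552) (l 16708008)) (b (l 16713792) (l 16718344))) (b (l 16710904) (b (l 16717832) (a (l 16721504) (l 16723536)))))) (b (a (a (l 16716704) (l 16721072)) (a (l 16730632) (a (l 16728608) (b (l 16728320) (l 16733160))))) (a (c (a (l 16726688) (l 16731088)) (a (l 16726056) (l 16730504))) (a (b (l 16732680) (l 16737688)) (c (l 16745016) (l 16744536))))))), by decide +kernel⟩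

def k17_pp_022_t : ∃ t, chk3 f_pp_022_t t 36 29 1 = true :=
  ⟨(a (a (b (b (c (l 16718160) (l 16717400)) (a (l 16737520) (l 16734696))) (b (b (l 16741656) (c (l 16742240) (l 16741792))) (a (b (l 16746520) (l 16754968)) (b (l 16748928) (a (l 16754152) (l 16755352)))))) (b (b (c (l 16722928) (l 16722232)) (b (l 16730376) (l 16746224))) (b (b (l 16746464) (c (l 16747008) (l 16746616))) (b (a (l 16756568) (l 16758952)) (b (a (l 16755672) (l 16758056)) (c (l 16762536) (l 16762320))))))) (b (b (b (a (l 16724744) (l 16729376)) (a (l 16729880) (l 16734536))) (b (a (l 16735128) (l 16739808)) (a (l 16745744) (c (l 16745400) (l 16744984))))) (b (a (b (c (l 16746184) (l 16745776)) (c (l 16751736) (l 16756640))) (a (b (l 16749504) (l 16760336)) (b (l 16751840) (a (l 16756848) (l 16758016))))) (b (a (a (l 16760016) (a (l 16757856) (l 16759032))) (a (b (l 16759352) (l 16762232)) (b (l 16761696) (l 16759328)))) (b (a (a (l 16760432) (l 16762784)) (a (c (l 16765216) (l 16765056)) (c (l 16767536)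 (l 16767408)))) (a (a (a (l 16762768) (l 16763952)) (a (l 16765128) (l 16766304))) (a (c (l 16768120) (l 16768008)) (c (l 16765200) (l 16765112))))))))), by decide +kernel⟩

def k18_pp_022_t : ∃ t, chk3 f_pp_022_t t 37 58 1 = true :=
  ⟨(a (a (b (c (l 16747256) (l 16741496)) (b (l 16749640) (c (l 16749976) (l 16749616)))) (b (b (l 16738384) (l 16748832)) (a (b (l 16747784) (l 16753200)) (b (l 16750024) (l 16755456))))) (a (b (b (l 16742808) (a (l 16746928) (l 16749144))) (b (b (l 16752032) (l 16749488)) (c (b (l 16757584) (l 16760312)) (b (l 16757320) (l 16760088))))) (a (b (b (l 16746104) (l 16751360)) (b (l 16756720) (b (l 16760800) (l 16763560)))) (b (b (l 16748296) (l 16753568)) (b (l 16753696) (c (l 16759256) (l 16759080))))))), by decide +kernel⟩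

def k19_pp_022_t : ∃ t, chk3 f_pp_022_t t 37 59 1 = true :=
  ⟨(a (a (a (b (b (l 16754152) (b (l 16758344) (l 16761168))) (b (b (l 16764016) (a (l 16766312) (l 16767472))) (a (l 16770680) (l 16771840)))) (b (b (c (l 16756584) (l 16756312)) (c (l 16756912) (l 16756712))) (b (b (l 16761080) (c (l 16769256) (l 16769152))) (b (l 16772104) (c (l 16775040) (l 16775008)))))) (a (b (b (b (l 16757328) (l 16760112)) (b (l 16762920) (l 16760512))) (b (l 16771368) (b (l 16774400) (a (b (l 16776016) (l 73249328503)) (b (l 16778696) (l 4)))))) (b (b (b (l 16759584) (l 16762376)) (b (l 16765192) (l 16762784))) (a (b (l 16771768) (b (l 16778048) (l 194045282279))) (b (l 16772904) (b (b (l 16776504) (l 114588388791)) (l 4))))))) (b (a (c (b (a (l 16758088) (l 16760328)) (l 16771376)) (b (a (l 16757904) (l 16760176)) (l 16771280))) (b (c (l 16768920) (l 16768808)) (a (b (l 16771976) (l 16774824)) (b (l 16774224) (b (l 16778944) (a (l 16777080) (l 157001190727))))))) (b (a (b (a (l 16773168)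 (c (l 16775432) (l 16775408))) (b (a (l 16775336) (a (l 16776960) (l 131231387047))) (a (a (l 16776208) (l 64659393783)) (l 201561475063)))) (b (a (b (a (l 16776400) (l 80765521191)) (l 165054251623)) (l 4)) (l 4))) (a (a (a (b (a (l 153779962743) (l 189213443671)) (l 4)) (l 4)) (l 4)) (l 4))))), by decide +kernel⟩

def k20_pp_022_t : ∃ t, chk3 f_pp_022_t t 19 28 1 = true :=
  ⟨(a (b (a (b (l 16716720) (a (l 16724168) (l 16728152))) (a (b (l 16722552) (l 16732152)) (b (l 16726472) (l 16736176)))) (a (b (a (b (l 16731384) (a (l 16735280) (l 16737360))) (l 16737944)) (a (b (a (l 16740248) (l 16734520)) (l 16741152)) (a (b (l 16744488) (a (l 16749096) (l 16739680))) (b (l 16746568) (l 16741264))))) (b (a (b (l 16739528) (l 16744568)) (b (l 16743624) (l 16748720))) (a (b (l 16749696) (l 16754920)) (b (l 16753896) (l 16748672)))))) (b (a (a (b (l 16730408) (l 16740224)) (b (l 16734376) (l 16733808))) (a (b (l 16738368) (b (l 16745856) (l 16750920))) (b (l 16742392) (c (l 16742176)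 (l 16741904))))) (b (a (a (a (l 16749280) (l 16751360)) (a (l 16742960) (l 16747680))) (a (b (l 16756080) (l 16750832)) (l 16762936))) (a (a (b (l 16758120) (l 16758184)) (l 16766360)) (b (a (l 16761408) (l 16770960)) (a (l 16772056) (b (l 16777624) (a (l 16779200) (l 173107316391))))))))), by decide +kernel⟩

def k21_pp_022_t : ∃ t, chk3 f_pp_022_t t 19 29 1 = true :=
  ⟨(a (b (a (b (b (a (b (l 16750272) (l 16752888)) (a (l 16754840) (b (l 16750440) (l 16753088)))) (a (c (l 16751760) (l 16751488)) (a (l 16754912) (l 16757096)))) (a (c (c (l 16767752) (l 16767664)) (c (l 16766272) (l 16766192))) (b (l 16767976) (c (l 16772216) (l 16772152))))) (b (a (b (l 16761536) (a (l 16765992) (l 16766688))) (a (l 16766144) (l 16768304))) (b (a (a (l 16769960) (b (l 16770776) (l 16773536))) (a (a (l 16773800) (l 16774872)) (b (l 16775144) (a (l 70028103415) (l 169349219623))))) (a (b (a (l 16774104) (c (l 16778864) (l 16778840))) (a (a (l 16776296) (a (l 16778344) (l 91502940007))) (l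 175254800375))) (b (b (a (a (l 16779712) (l 155390578471)) (l 4)) (l 4)) (l 4)))))) (b (a (b (a (a (l 16772224) (b (l 16773040) (c (l 16775832) (l 16778432)))) (b (a (l 16775256) (b (l 16779328) (a (l 16778680) (l 4)))) (a (a (a (l 60364427079) (l 94724165607)) (l 173107316231)) (l 4)))) (a (b (b (a (l 16775752) (c (l 100629745879) (l 102240358583))) (a (a (l 16776592) (l 97408519511)) (l 4))) (a (c (l 187602831671) (l 184918477031)) (l 4))) (l 4))) (b (a (b (a (l 202098346695) (l 4)) (l 4)) (l 4)) (l 4))) (l 4))) (b (b (a (b (a (l 16768824) (b (l 16771800) (l 16774520))) (a (b (l 16772920) (a (l 16774576) (c (l 16779272) (l 16779248)))) (b (a (l 16776128) (l 154853704759)) (a (l 174181058359) (l 4))))) (b (a (a (b (l 16775064) (c (l 87744844695) (l 88818586471))) (b (l 65733131959) (l 4))) (b (l 201561476615) (l 4))) (l 4))) (a (b (a (b (a (c (l 66806876215) (l 67880617991)) (l 202098346471)) (l 4)) (l 4)) (l 4)) (l 4))) (l 4))), by decide +kernel⟩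

def k22_pp_022_t : ∃ t, chk3 f_pp_022_t t 72 60 1 = true :=
  ⟨(b (a (a (b (c (l 16763632) (l 16763400)) (b (l 16765384) (c (l 16765848) (l 16765712)))) (b (b (l 16759184) (l 16767408)) (b (c (l 16765232) (l 16765088)) (c (b (l 16767480) (l 16768984)) (b (l 16767360) (l 16768880)))))) (a (b (b (l 16761568) (c (l 16764632) (l 16764472))) (c (b (l 16764984) (c (l 16768000) (l 16767960))) (b (l 16764864) (a (l 16769920) (l 16768496))))) (b (b (a (l 16763352) (l 16764544)) (c (l 16766992) (l 16766864))) (c (l 16772608) (a (b (l 16769280) (l 16769688)) (b (l 16770472) (l 16770880))))))) (b (a (a (a (b (c (l 16768272) (l 16768160)) (c (l 16768680) (l 16768616))) (b (c (l 16769464) (l 16769368)) (b (l 16769080) (l 16770608)))) (a (b (c (l 16770648) (l 16770576)) (l 16773664)) (b (c (l 16769216) (l 16769152)) (l 16774856)))) (b (b (a (l 16772832) (l 16775200)) (a (l 16774352) (a (l 16776128) (a (l 16778264) (l 87207971463))))) (b (a (a (l 16775280) (l 16777752)) (a (a (l 62511908775)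 (l 123178322631)) (l 4))) (a (c (a (l 16778392) (l 157538059063)) (a (l 16778384) (l 160759284503))) (l 4))))) (a (b (a (a (a (l 16774040) (l 16774640)) (a (l 16775240) (b (l 16772448) (l 16776592)))) (a (b (l 16775960) (a (a (l 16778304) (l 62511909095)) (a (l 96871647575) (l 184918475559)))) (b (a (l 16778128) (a (l 57680070807) (l 92039809303))) (l 4)))) (a (a (b (a (l 16776352) (a (l 16776776) (l 16778184))) (c (l 170422961223) (l 174181057575))) (b (a (b (l 16777112) (l 4)) (l 191897797655)) (l 4))) (l 4))) (b (b (a (a (l 180086637799) (l 4)) (l 4)) (l 4)) (l 4))))), by decide +kernel⟩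

def k23_pp_022_t : ∃ t, chk3 f_pp_022_t t 73 60 1 = true :=
  ⟨(a (b (a (b (a (b (l 16765728) (l 16766080)) (b (l 16766904) (l 16767256))) (b (l 16772280) (a (l 16774704) (b (l 16775128) (l 16777904))))) (a (b (b (l 16768080) (l 16768432)) (b (l 16774048) (b (l 16776288) (a (l 79154907735) (l 189213443031))))) (b (l 16772056) (b (l 16775216) (b (a (l 16778400) (l 105461582455)) (l 4)))))) (b (b (a (a (b (a (l 16776656) (l 54458845655)) (l 198340248967)) (b (l 168275477479) (l 4))) (l 4)) (l 4)) (l 4))) (b (b (a (c (l 16773184) (l 16772800)) (b (l 16773344) (a (l 16777032) (b (l 16776144) (a (l 16778496) (l 126936418823)))))) (b (b (a (c (l 16777504) (l 16777816)) (c (l 168812348855) (l 172033574279))) (a (a (a (l 16776808) (l 71101844007)) (l 179012895927)) (l 4))) (l 4))) (l 4))), by decide +kernel⟩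

def k24_pp_022_t : ∃ t, chk3 f_pp_022_t t 37 60 1 = true :=
  ⟨(b (a (b (a (a (a (b (l 16775088) (b (a (l 16776960) (l 89892325943)) (l 4))) (b (c (l 16778168) (l 16778152)) (l 200487733415))) (b (a (b (l 16776624) (l 125325807047)) (c (l 165054252439) (l 168275477863))) (l 4))) (l 4)) (l 4)) (l 4)) (l 4)), by decide +kernel⟩

def k25_pp_022_t : ∃ t, chk3 f_pp_022_t t 18 61 1 = true :=
  ⟨(l 4), by decide +kernel⟩

def k26_pp_022_t : ∃ t, chk3 f_pp_022_t t 19 30 1 = true :=
  ⟨(l 4), by decide +kernel⟩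

def k27_pp_022_t : ∃ t, chk3 f_pp_022_t t 9 31 1 = true :=
  ⟨(l 4), by decide +kernel⟩

def k28_pp_022_t : ∃ t, chk3 f_pp_022_t t 10 12 1 = true :=
  ⟨(a (b (a (b (a (l 16610144) (l 16616848)) (a (l 16625584) (l 16632384))) (b (a (l 16624144) (l 16631912)) (a (l 16639768) (l 16647616)))) (b (a (c (l 16666520) (l 16665584)) (a (l 16656056) (l 16664008))) (a (a (b (l 16654176) (l 16662800)) (l 16686504)) (a (b (l 16668744) (l 16677480)) (b (l 16676768) (l 16685552)))))) (b (a (a (b (l 16639832) (l 16655608)) (b (l 16647808) (l 16663656))) (a (b (l 16655816) (l 16671736)) (b (l 16663840) (l 16658848)))) (a (a (b (b (l 16667864) (l 16676288)) (b (l 16684920) (l 16693752))) (b (b (l 16675968) (l 16684440)) (b (l 16693112) (l 16701992)))) (b (a (b (l 16684104) (l 16692616)) (b (l 16692248) (l 16700792))) (a (b (l 16701328) (l 16689272)) (b (l 16688576) (l 16697528))))))), by decide +kernel⟩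

def k29_pp_022_t : ∃ t, chk3 f_pp_022_t t 20 13 1 = true :=
  ⟨(b (b (b (a (a (l 16671616) (l 16678736)) (a (l 16686424) (l 16694544))) (a (a (l 16680648) (l 16687832)) (a (l 16716544) (a (l 16701680) (l 16705816))))) (a (a (b (a (l 16688160) (l 16691656)) (a (l 16697544) (l 16701112))) (b (a (l 16695272) (l 16699024)) (a (l 16704760) (l 16708544)))) (a (b (a (l 16702912) (l 16706944)) (a (l 16712456) (l 16716520))) (b (a (l 16711080) (l 16715248)) (c (l 16743944) (l 16712128)))))) (a (b (a (b (a (l 16696568) (l 16731688)) (a (l 16716680) (b (l 16717992) (l 16722904)))) (a (b (l 16714424) (b (l 16721776) (l 16726736))) (b (l 16718240) (b (l 16725624) (l 16730608))))) (a (a (b (l 16726456) (l 16736376)) (b (l 16730336) (l 16740360))) (b (a (b (l 16731728) (l 16736760)) (b (l 16725168) (l 16730248))) (a (l 16744384) (a (l 16747424) (b (l 16746872) (l 16752048))))))) (b (a (a (b (l 16722192) (b (l 16729600) (l 16734608))) (b (l 16715800) (b (l 16733720) (l 16738744)))) (b (a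 (b (l 16728000) (l 16732944)) (b (l 16732216) (l 16737168))) (c (b (l 16729720) (l 16734760)) (b (l 16729440) (l 16734504))))) (a (b (c (a (l 16731912) (l 16736048)) (a (l 16731568) (l 16735760))) (c (c (l 16757464) (l 16757352)) (c (l 16757240) (l 16754504)))) (a (b (b (l 16737592) (l 16742736)) (a (l 16759968) (l 16762120))) (b (l 16754936) (c (l 16765416) (l 16765312)))))))), by decide +kernel⟩

def k30_pp_022_t : ∃ t, chk3 f_pp_022_t t 21 13 1 = true :=
  ⟨(b (a (b (a (b (l 16684440) (a (l 16709960) (l 16714120))) (b (a (l 16709000) (l 16713144)) (a (l 16718280) (l 16722448)))) (a (a (b (l 16719416) (l 16718584)) (b (l 16723600) (l 16722792))) (b (c (l 16719488) (l 16708840)) (l 16750080)))) (b (b (a (a (l 16717288) (l 16721440)) (b (l 16704368) (l 16709000))) (a (b (l 16705368) (l 16710088)) (a (l 16713976) (l 16718128)))) (a (a (b (l 16715184) (a (l 16723880) (l 16736464))) (a (l 16754672) (l 16756768))) (b (l 16757096) (c (l 16756424) (l 16756400)))))) (a (b (a (b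 (c (c (l 16728104) (l 16730608)) (c (l 16730504) (l 16730416))) (b (l 16748560) (l 16753640))) (b (b (a (l 16744880) (l 16738624)) (l 16752000)) (c (l 16759664) (l 16759584)))) (a (a (b (l 16759224) (b (l 16767040) (l 16772320))) (b (c (l 16763560) (l 16763472)) (b (l 16771352) (b (l 16780512) (a (l 16776768) (l 137136971191)))))) (b (a (b (l 16765192) (l 16770400)) (b (l 16769464) (c (l 16779872) (l 16779856)))) (b (b (a (l 16774328) (a (l 16779720) (l 4))) (a (a (l 16775864) (l 99019136199)) (l 4))) (a (a (l 169886091767) (l 4)) (l 4)))))) (b (a (b (c (l 16758000) (l 16757944)) (a (l 16768624) (b (l 16767672) (l 16772808)))) (a (b (l 16764288) (b (l 16771904) (a (l 16781136) (b (l 16776712) (l 152169356535))))) (b (l 16768504) (b (a (l 16775040) (a (l 16776520) (l 84523622439))) (l 186529086071))))) (b (a (b (a (l 16776336) (b (c (l 16776536) (l 16781768)) (a (l 105998458135) (l 4)))) (a (b (c (l 79154914183) (l 79154903495)) (l 181160381335)) (l 4))) (l 4)) (l 4))))),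 by decide +kernel⟩

def k31_pp_022_t : ∃ t, chk3 f_pp_022_t t 11 12 1 = true :=
  ⟨(a (b (b (a (l 16675784) (l 16691368)) (a (l 16702392) (l 16729960))) (a (b (b (l 16704432) (l 16723528)) (a (l 16732736) (l 16740920))) (b (a (l 16720784) (l 16728656)) (a (l 16751640) (c (l 16746440) (l 16746648)))))) (b (b (a (l 16727608) (a (l 16718048) (l 16725656))) (a (a (l 16719256) (l 16726968)) (c (l 16759296) (l 16738800)))) (a (a (b (l 16736472) (c (l 16754384) (l 16754560))) (b (l 16754776) (b (l 16757744) (c (l 16766944) (l 16767024))))) (b (a (c (l 16751976) (l 16752248)) (a (l 16778896) (l 16767056))) (b (a (l 16765624) (a (l 16771504) (b (l 16773120) (l 74323081143)))) (a (b (l 16780400) (a (l 16775192) (l 99556014839))) (b (a (l 86671112535) (l 4)) (l 4)))))))), by decide +kernel⟩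

def k32_pp_022_t : ∃ t, chk3 f_pp_022_t t 11 13 1 = true :=
  ⟨(a (b (a (b (a (a (l 16738568) (l 16742696)) (c (l 16759344) (l 16759424))) (a (b (l 16760184) (a (l 16762680) (l 16766848))) (a (b (l 16761152) (l 16773616)) (b (l 16765280) (b (l 16772648) (c (l 77007422503) (l 75933680663))))))) (b (b (a (l 16752320) (l 16770872)) (a (a (l 16759736) (l 16763816)) (a (l 16767872) (l 16777136)))) (b (a (a (l 16769400) (b (l 16771040) (c (l 16775800) (l 16775792)))) (b (a (l 16775040) (l 100092883319)) (c (l 169349218023) (l 175254794903)))) (a (b (a (c (l 25467824631) (l 24394082631)) (l 176328539511)) (a (l 204245827543) (l 4))) (l 4))))) (a (b (b (a (b (a (l 16770168) (l 16774304)) (a (c (l 16775136) (l 16775128)) (b (l 92576689335) (l 4)))) (b (a (b (l 32984017527) (l 133378878967)) (l 4)) (l 4))) (a (b (a (b (l 114588397127) (l 4)) (l 4)) (l 4)) (l 4))) (l 4)) (l 4))) (b (b (a (b (a (a (l 16766392) (l 16770400)) (b (c (l 16784408) (l 16773944)) (a (l 32984020055) (l 185455342503))))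 (a (a (b (l 16773528) (l 86134241639)) (b (l 72712468183) (l 4))) (b (l 200487720743) (l 4)))) (a (b (c (l 190824039079) (l 198340238471)) (l 4)) (l 4))) (l 4)) (l 4))), by decide +kernel⟩

def k33_pp_022_t : ∃ t, chk3 f_pp_022_t t 5 7 1 = true :=
  ⟨(a (b (b (a (a (a (b (b (a (l 16735968) (b (l 16747968) (l 16753104))) (c (l 16758896) (l 16761312))) (b (a (b (l 16759296) (l 16769880)) (b (l 16768816) (a (l 16773128) (l 16778512)))) (b (b (a (l 16773936) (a (l 66270008151) (l 199413991687))) (a (a (l 16775560) (l 87207974119)) (l 4))) (a (b (a (l 109756552615) (l 4)) (l 4)) (l 4))))) (b (b (c (l 16756864) (l 16756656)) (a (l 16765136) (b (l 16756256) (l 16772080)))) (b (b (a (l 16773128) (b (a (l 16775040) (l 16779616)) (a (l 87744845047) (l 4)))) (a (b (a (l 16776064) (l 110293423495)) (l 181160381207)) (l 4))) (l 4)))) (b (b (a (a (c (l 16765416) (l 16765592)) (b (l 16764648) (a (l 16768904) (l 16771064)))) (b (a (l 16768968) (c (l 16773320) (l 16773288))) (a (a (l 16773240)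 (c (l 16775360) (l 16775336))) (b (a (l 16776192) (l 111904038311)) (a (l 132305133063) (l 4)))))) (a (a (b (l 16771032) (b (l 16775032) (a (l 16776584) (l 133915743863)))) (b (b (l 16774016) (a (l 16775608) (a (l 16777000) (l 121567713399)))) (a (l 170959833511) (l 4)))) (b (a (b (a (l 70028106583) (l 196729637127)) (l 4)) (l 4)) (l 4)))) (a (b (b (a (l 204245832519) (l 4)) (l 4)) (l 4)) (l 4)))) (b (a (b (a (b (a (a (b (l 16775224) (l 92039814487)) (b (l 16780600) (l 4))) (b (l 199413992823) (l 4))) (l 4)) (l 4)) (l 4)) (l 4)) (l 4))) (l 4)) (l 4)) (l 4)), by decide +kernel⟩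

def k34_pp_022_t : ∃ t, chk3 f_pp_022_t t 6 4 1 = true :=
  ⟨(a (a (b (l 6) (c (l 16611736) (l 16615592))) (b (c (l 16606688) (l 16611512)) (a (l 16655736) (l 16690232)))) (a (b (c (l 16631376) (l 16634992)) (b (l 16699112) (c (l 16675272) (l 16677664)))) (a (b (l 16649224) (a (l 16723232) (l 16734104))) (l 2)))), by decide +kernel⟩

def k35_pp_022_t : ∃ t, chk3 f_pp_022_t t 6 5 1 = true :=
  ⟨(a (b (a (b (a (l 16635944) (l 16650680)) (a (l 16659248) (l 16674152))) (b (a (l 16665200) (l 16679120)) (a (l 16688872) (l 16744984)))) (a (a (b (l 16706032) (c (l 16742032) (l 16735104))) (b (c (l 16699464) (l 16700792)) (c (a (l 16724480) (l 16753000)) (l 16760520)))) (a (b (c (l 16714360) (l 16715528)) (b (c (l 16735608) (l 16736336)) (c (l 16771784) (l 16751264)))) (b (c (l 16749736) (l 16729720)) (a (c (b (l 16746496) (l 16761736)) (l 16775512)) (b (l 16772800) (c (b (l 16764928) (l 13656668999)) (l 16768984)))))))) (b (a (b (c (l 16739712) (l 16699560)) (a (c (l 16716016) (l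 16717336)) (c (l 16728936) (l 16729944)))) (a (b (a (l 16713680) (l 16719616)) (c (l 16772864) (l 16742080))) (a (b (l 16746512) (c (l 16771688) (l 16751168))) (l 2)))) (b (a (a (c (b (l 16735680) (l 16770512)) (l 16764312)) (c (a (l 16773560) (c (l 16758984) (l 16759120))) (b (l 16749376) (l 16763096)))) (a (b (c (l 16782536) (l 16761848)) (a (c (c (l 38352732983) (l 16772424)) (l 16772512)) (c (b (l 50700764407) (l 153779952231)) (l 84523644631)))) (a (b (c (b (l 16767560) (l 44258312087)) (l 16771144)) (b (c (l 144116277255) (l 114588407223)) (l 4))) (b (c (b (l 16773824) (l 105461602135)) (l 67343773127)) (l 4))))) (b (a (a (c (a (l 16760576) (l 16777888)) (l 16764264)) (a (c (b (l 16770376) (c (l 73786215175) (l 73786214791))) (l 51774515015)) (b (c (c (l 66806891607) (l 16776496)) (l 16776552)) (l 4)))) (a (a (c (l 164517362327) (l 163980488919)) (l 4)) (l 4))) (a (a (a (c (b (l 16771896) (c (l 88281731671) (l 88281731335))) (b (l 16772000) (l 88818604343))) (b (c (c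 (l 80765538087) (l 81302408199)) (l 16787976)) (l 4))) (l 4)) (l 4)))))), by decide +kernel⟩

def k36_pp_022_t : ∃ t, chk3 f_pp_022_t t 7 2 1 = true :=
  ⟨(b (l 2) (b (l 2) (b (l 2) (l 4)))), by decide +kernel⟩

def k37_pp_022_t : ∃ t, chk3 f_pp_022_t t 3 3 1 = true :=
  ⟨(a (b (b (a (a (b (b (a (c (l 16757744) (l 16737344)) (a (l 16769328) (c (l 16755752) (l 16756088)))) (a (a (l 16765752) (c (l 16757552) (l 16757824))) (c (a (b (l 16760824) (l 16769560)) (b (l 16768440) (b (l 26541570055) (a (l 16776672) (l 134989491799))))) (b (l 16764840) (a (l 16769672) (l 52848252743)))))) (a (b (a (b (l 16763128) (a (l 16770176) (c (l 16773960) (l 16774000)))) (b (a (l 16768904) (l 16783216)) (a (b (l 16775576) (l 127473302279)) (a (l 124788950295) (l 4))))) (b (a (b (a (l 16783304) (l 132842011319)) (l 4)) (l 4)) (l 4))) (b (b (a (a (b (l 16774328) (l 90429209031)) (b (l 78618048503) (l 4))) (l 4)) (l 4)) (l 4)))) (b (a (c (a (b (l 16763272) (b (a (l 16774048) (a (l 59827564647) (l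 83986757399))) (l 187602818199))) (b (a (l 16768816) (b (l 16768336) (l 51774503303))) (b (l 169886079639) (l 4)))) (b (a (l 16763496) (b (l 16766688) (l 16774728))) (b (a (l 44258316263) (l 174181044727)) (l 188139679095)))) (b (b (a (c (c (l 16784168) (l 16773704)) (l 16773752)) (c (b (l 83449887831) (l 4)) (l 97408539799))) (a (b (c (l 95797922007) (l 16784936)) (l 4)) (l 4))) (l 4))) (l 4))) (l 4)) (l 4)) (l 4)) (l 4)), by decide +kernel⟩

theorem s38_pp_022_t : ∃ t, chk3 f_pp_022_t t 6 2 1 = true := ex3_b k34_pp_022_t k35_pp_022_t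

theorem s39_pp_022_t : ∃ t, chk3 f_pp_022_t t 3 2 1 = true := ex3_a s38_pp_022_t k36_pp_022_t

theorem s40_pp_022_t : ∃ t, chk3 f_pp_022_t t 3 1 1 = true := ex3_b s39_pp_022_t k37_pp_022_t

theorem s41_pp_022_t : ∃ t, chk3 f_pp_022_t t 11 6 1 = true := ex3_b k31_pp_022_t k32_pp_022_t

theorem s42_pp_022_t : ∃ t, chk3 f_pp_022_t t 10 13 1 = true := ex3_a k29_pp_022_t k30_pp_022_t

theorem s43_pp_022_t : ∃ t, chk3 f_pp_022_t t 10 6 1 = true := ex3_b k28_pp_022_t s42_pp_022_t

theorem s44_pp_022_t : ∃ t, chk3 f_pp_022_t t 5 6 1 = true := ex3_a s43_pp_022_t s41_pp_022_t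

theorem s45_pp_022_t : ∃ t, chk3 f_pp_022_t t 5 3 1 = true := ex3_b s44_pp_022_t k33_pp_022_t

theorem s46_pp_022_t : ∃ t, chk3 f_pp_022_t t 36 60 1 = true := ex3_a k22_pp_022_t k23_pp_022_t

theorem s47_pp_022_t : ∃ t, chk3 f_pp_022_t t 18 60 1 = true := ex3_a s46_pp_022_t k24_pp_022_t

theorem s48_pp_022_t : ∃ t, chk3 f_pp_022_t t 18 30 1 = true := ex3_b s47_pp_022_t k25_pp_022_t

theorem s49_pp_022_t : ∃ t, chk3 f_pp_022_t t 9 30 1 = true := ex3_a s48_pp_022_t k26_pp_022_t

theorem s50_pp_022_t : ∃ t, chk3 f_pp_022_t t 9 15 1 = true := ex3_b s49_pp_022_t k27_pp_022_t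

theorem s51_pp_022_t : ∃ t, chk3 f_pp_022_t t 19 14 1 = true := ex3_b k20_pp_022_t k21_pp_022_t

theorem s52_pp_022_t : ∃ t, chk3 f_pp_022_t t 37 29 1 = true := ex3_b k18_pp_022_t k19_pp_022_t

theorem s53_pp_022_t : ∃ t, chk3 f_pp_022_t t 18 29 1 = true := ex3_a k17_pp_022_t s52_pp_022_t

theorem s54_pp_022_t : ∃ t, chk3 f_pp_022_t t 18 14 1 = true := ex3_b k16_pp_022_t s53_pp_022_t

theorem s55_pp_022_t : ∃ t, chk3 f_pp_022_t t 9 14 1 = true := ex3_a s54_pp_022_t s51_pp_022_t

theorem s56_pp_022_t : ∃ t, chk3 f_pp_022_t t 9 7 1 = true := ex3_b s55_pp_022_t s50_pp_022_t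

theorem s57_pp_022_t : ∃ t, chk3 f_pp_022_t t 35 122 1 = true := ex3_b k12_pp_022_t k13_pp_022_t

theorem s58_pp_022_t : ∃ t, chk3 f_pp_022_t t 35 61 1 = true := ex3_b s57_pp_022_t k14_pp_022_t

theorem s59_pp_022_t : ∃ t, chk3 f_pp_022_t t 35 30 1 = true := ex3_b k11_pp_022_t s58_pp_022_t

theorem s60_pp_022_t : ∃ t, chk3 f_pp_022_t t 69 123 1 = true := ex3_b k9_pp_022_t k10_pp_022_t

theorem s61_pp_022_t : ∃ t, chk3 f_pp_022_t t 69 61 1 = true := ex3_b k8_pp_022_t s60_pp_022_t

theorem s62_pp_022_t : ∃ t, chk3 f_pp_022_t t 34 61 1 = true := ex3_a k7_pp_022_t s61_pp_022_t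

theorem s63_pp_022_t : ∃ t, chk3 f_pp_022_t t 34 30 1 = true := ex3_b k6_pp_022_t s62_pp_022_t

theorem s64_pp_022_t : ∃ t, chk3 f_pp_022_t t 17 30 1 = true := ex3_a s63_pp_022_t s59_pp_022_t

theorem s65_pp_022_t : ∃ t, chk3 f_pp_022_t t 17 15 1 = true := ex3_b s64_pp_022_t k15_pp_022_t

theorem s66_pp_022_t : ∃ t, chk3 f_pp_022_t t 8 15 1 = true := ex3_a k5_pp_022_t s65_pp_022_t

theorem s67_pp_022_t : ∃ t, chk3 f_pp_022_t t 8 14 1 = true := ex3_a k3_pp_022_t k4_pp_022_t

theorem s68_pp_022_t : ∃ t, chk3 f_pp_022_t t 8 7 1 = true := ex3_b s67_pp_022_t s66_pp_022_t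

theorem s69_pp_022_t : ∃ t, chk3 f_pp_022_t t 4 7 1 = true := ex3_a s68_pp_022_t s56_pp_022_t

theorem s70_pp_022_t : ∃ t, chk3 f_pp_022_t t 4 6 1 = true := ex3_a k1_pp_022_t k2_pp_022_t

theorem s71_pp_022_t : ∃ t, chk3 f_pp_022_t t 4 3 1 = true := ex3_b s70_pp_022_t s69_pp_022_t

theorem s72_pp_022_t : ∃ t, chk3 f_pp_022_t t 2 3 1 = true := ex3_a s71_pp_022_t s45_pp_022_t

theorem s73_pp_022_t : ∃ t, chk3 f_pp_022_t t 2 1 1 = true := ex3_b k0_pp_022_t s72_pp_022_t

theorem s74_pp_022_t : ∃ t, chk3 f_pp_022_t t 1 1 1 = true := ex3_a s73_pp_022_t s40_pp_022_t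

theorem c_pp_022_t : CertNE 0 536870912 0 536870912 780900216 37827925 3 eng mog cd0q0 cd0q2 pd2 true true true .pp 0 2 2
    ndB0q0 ndB0q2 pcB2 cut_pp_022_t Ext.none :=
  certNE0 (fam := true) (s1 := true) (s2 := true) (a := 0) (b := 2) (c := 2) (cn := .pp) (n1 := ndB0q0) (n2 := ndB0q2) (pc := pcB2) (cut := cut_pp_022_t) (xt := Ext.none) (P1 := 0) (W1 := 536870912) (P2 := 0) (W2 := 536870912) (P3 := 780900216) (W3 := 37827925) (N0 := 3) (En := eng) (mo := mog) (C1 := cd0q0) (C2 := cd0q2) (C3 := pd2)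
    rfl s74_pp_022_t

noncomputable def cut_pp_023_s : Cut := Cut.of [[⟨4, 0, 0, 1449551462⟩]]

noncomputable def f_pp_023_s : ℕ → ℕ → ℕ → ℕ → Bool := onCell 0 536870912 0 536870912 780900216 37827925
    (rowNE 3 eng mog cd0q0 cd0q2 pd3 0 true true true .up 0 2 3 (qsf 0 536870912 0 536870912 3) ndB0q0 ndB0q2 pcB3 cut_pp_023_s Ext.none)

def k0_pp_023_s : ∃ t, chk3 f_pp_023_s t 1 1 1 = true :=
  ⟨(l 6), by decide +kernel⟩

theorem c_pp_023_s : CertNE 0 536870912 0 536870912 780900216 37827925 3 eng mog cd0q0 cd0q2 pd3 true true true .up 0 2 3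
    ndB0q0 ndB0q2 pcB3 cut_pp_023_s Ext.none :=
  certNE0 (fam := true) (s1 := true) (s2 := true) (a := 0) (b := 2) (c := 3) (cn := .up) (n1 := ndB0q0) (n2 := ndB0q2) (pc := pcB3) (cut := cut_pp_023_s) (xt := Ext.none) (P1 := 0) (W1 := 536870912) (P2 := 0) (W2 := 536870912) (P3 := 780900216) (W3 := 37827925) (N0 := 3) (En := eng) (mo := mog) (C1 := cd0q0) (C2 := cd0q2) (C3 := pd3)
    rfl k0_pp_023_s

noncomputable def cut_pp_023_t : Cut := Cut.of [[⟨3, 0, 0, 2845415833⟩]]

noncomputable def f_pp_023_t : ℕ → ℕ → ℕ → ℕ → Bool := onCell 1610612736 536870912 0 536870912 780900216 37827925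
    (rowNE 3 eng mog cd0q0 cd0q2 pd3 2 true true true .up 0 2 3 (qsf 0 536870912 0 536870912 3) ndB0q0 ndB0q2 pcB3 cut_pp_023_t Ext.none)

def k0_pp_023_t : ∃ t, chk3 f_pp_023_t t 2 4 1 = true :=
  ⟨(a (c (a (a (a (b (l 16638992) (l 16703632)) (b (l 16653960) (l 16759504))) (b (a (l 16667784) (l 16680560)) (b (l 16766656) (a (l 16721480) (l 16733808))))) (b (a (a (l 16692408) (l 16703496)) (a (l 16713944) (l 16723584))) (a (a (b (l 16721712) (l 16766688)) (b (l 16733144) (b (l 16750848) (l 16764248)))) (b (a (l 16744360) (l 16755296)) (a (b (l 16762432) (a (l 16773256) (l 85060514023))) (b (a (l 16771152) (l 87207925591)) (l 144653137751))))))) (a (b (a (l 16650480) (l 16696848)) (a (b (l 16679872) (l 16724608)) (c (l 16779472) (l 16779968)))) (a (b (a (l 16692160) (l 16701992)) (a (l 16775904) (b (l 16732552) (l 16757288)))) (b (a (l 16713040) (l 16724616)) (b (a (l 16744096) (l 16755752)) (a (b (l 16762440) (l 75933698647)) (b (l 87207915943) (l 146800619959)))))))) (a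 (a (b (a (b (l 16725640) (l 16765776)) (b (l 16736512) (l 16776568))) (b (a (c (b (l 16760336) (l 52848261719)) (l 44795201063)) (a (c (l 86671038055) (l 90966008839)) (b (l 68954328391) (l 147874366887)))) (a (a (c (l 146263748119) (l 147874359207)) (l 4)) (l 4)))) (b (l 2) (l 2))) (l 2))), by decide +kernel⟩

def k1_pp_023_t : ∃ t, chk3 f_pp_023_t t 2 5 1 = true :=
  ⟨(a (a (b (a (b (c (a (l 16744400) (l 16778784)) (a (l 16724712) (l 16737688))) (a (a (c (l 16772832) (l 16752432)) (c (a (l 16756920) (l 16781208)) (l 16758976))) (c (b (l 16781112) (b (c (a (l 16769160) (l 58216958231)) (l 41573969095)) (a (c (l 74859959575) (l 16786880)) (l 159148658711)))) (b (l 16760464) (a (l 46942678503) (l 89355466295)))))) (b (c (a (c (l 16770544) (l 16749752)) (b (l 16775568) (c (a (l 16766504) (l 41573962135)) (l 32984036759)))) (a (l 16771080) (b (l 16754832) (b (l 16765880) (l 51237648087))))) (a (a (b (c (b (l 16765712) (l 16784160)) (l 16769824)) (b (c (l 139821309543) (l 97945332679))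 (l 4))) (b (c (b (l 16771984) (c (l 95797856487) (l 95797857095))) (l 61975065095)) (l 4))) (b (a (b (c (l 74859960839) (l 16776136)) (l 4)) (l 4)) (l 4))))) (a (b (a (b (a (c (b (l 35668379559) (l 139821309463)) (b (l 16773216) (l 110830314951))) (b (c (c (l 92576701351) (l 89355475351)) (l 95261057367)) (l 4))) (l 4)) (l 4)) (l 4)) (l 4))) (b (b (a (a (b (c (c (l 16766696) (l 16766712)) (l 16766736)) (a (c (b (l 16774880) (l 146800630103)) (l 82376160679)) (c (l 144116271463) (l 115125290199)))) (b (a (c (b (l 16772048) (l 92039829111)) (l 16775664)) (c (l 125325795143) (l 95797838007))) (l 4))) (l 4)) (l 4)) (l 4))) (l 4)), by decide +kernel⟩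

def k2_pp_023_t : ∃ t, chk3 f_pp_023_t t 2 3 1 = true :=
  ⟨(l 4), by decide +kernel⟩

def k3_pp_023_t : ∃ t, chk3 f_pp_023_t t 3 1 1 = true :=
  ⟨(l 2), by decide +kernel⟩

theorem s4_pp_023_t : ∃ t, chk3 f_pp_023_t t 2 2 1 = true := ex3_b k0_pp_023_t k1_pp_023_t

theorem s5_pp_023_t : ∃ t, chk3 f_pp_023_t t 2 1 1 = true := ex3_b s4_pp_023_t k2_pp_023_t

theorem s6_pp_023_t : ∃ t, chk3 f_pp_023_t t 1 1 1 = true := ex3_a s5_pp_023_t k3_pp_023_t

theorem c_pp_023_t : CertNE 0 536870912 0 536870912 780900216 37827925 3 eng mog cd0q0 cd0q2 pd3 true true true .up 0 2 3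
    ndB0q0 ndB0q2 pcB3 cut_pp_023_t Ext.none :=
  certNE2 (fam := true) (s1 := true) (s2 := true) (a := 0) (b := 2) (c := 3) (cn := .up) (n1 := ndB0q0) (n2 := ndB0q2) (pc := pcB3) (cut := cut_pp_023_t) (xt := Ext.none) (P1 := 0) (W1 := 536870912) (P2 := 0) (W2 := 536870912) (P3 := 780900216) (W3 := 37827925) (N0 := 3) (En := eng) (mo := mog) (C1 := cd0q0) (C2 := cd0q2) (C3 := pd3)
    rfl (fun _ => rfl) s6_pp_023_t

noncomputable def cut_pp_101_s : Cut := Cut.of [[⟨4, 0, 0, 1449551462⟩]]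

noncomputable def f_pp_101_s : ℕ → ℕ → ℕ → ℕ → Bool := onCell 536870912 536870912 0 536870912 780900216 37827925
    (rowNE 3 eng mog cd0q1 cd0q0 pd1 0 true true true .npn 1 0 1 (qsf 536870912 536870912 0 536870912 1) ndB0q1 ndB0q0 pcB1 cut_pp_101_s Ext.none)

def k0_pp_101_s : ∃ t, chk3 f_pp_101_s t 1 1 1 = true :=
  ⟨(l 6), by decide +kernel⟩

theorem c_pp_101_s : CertNE 536870912 536870912 0 536870912 780900216 37827925 3 eng mog cd0q1 cd0q0 pd1 true true true .npn 1 0 1
    ndB0q1 ndB0q0 pcB1 cut_pp_101_s Ext.none :=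
  certNE0 (fam := true) (s1 := true) (s2 := true) (a := 1) (b := 0) (c := 1) (cn := .npn) (n1 := ndB0q1) (n2 := ndB0q0) (pc := pcB1) (cut := cut_pp_101_s) (xt := Ext.none) (P1 := 536870912) (W1 := 536870912) (P2 := 0) (W2 := 536870912) (P3 := 780900216) (W3 := 37827925) (N0 := 3) (En := eng) (mo := mog) (C1 := cd0q1) (C2 := cd0q0) (C3 := pd1)
    rfl k0_pp_101_s

noncomputable def cut_pp_101_t : Cut := Cut.of [[⟨3, 0, 0, 2845415833⟩]]

noncomputable def f_pp_101_t : ℕ → ℕ → ℕ → ℕ → Bool := onCell 536870912 536870912 0 536870912 780900216 37827925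
    (rowNE 3 eng mog cd0q1 cd0q0 pd1 0 true true true .npn 1 0 1 (qsf 536870912 536870912 0 536870912 1) ndB0q1 ndB0q0 pcB1 cut_pp_101_t Ext.none)

def k0_pp_101_t : ∃ t, chk3 f_pp_101_t t 1 1 1 = true :=
  ⟨(a (l 4) (l 5)), by decide +kernel⟩

theorem c_pp_101_t : CertNE 536870912 536870912 0 536870912 780900216 37827925 3 eng mog cd0q1 cd0q0 pd1 true true true .npn 1 0 1
    ndB0q1 ndB0q0 pcB1 cut_pp_101_t Ext.none :=
  certNE0 (fam := true) (s1 := true) (s2 := true) (a := 1) (b := 0) (c := 1) (cn := .npn) (n1 := ndB0q1) (n2 := ndB0q0) (pc := pcB1) (cut := cut_pp_101_t) (xt := Ext.none) (P1 := 536870912) (W1 := 536870912) (P2 := 0) (W2 := 536870912) (P3 := 780900216) (W3 := 37827925) (N0 := 3) (En := eng) (mo := mog) (C1 := cd0q1) (C2 := cd0q0) (C3 := pd1)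
    rfl k0_pp_101_t

noncomputable def cut_pp_102_s : Cut := Cut.of [[⟨4, 0, 0, 1449551462⟩]]

noncomputable def f_pp_102_s : ℕ → ℕ → ℕ → ℕ → Bool := onCell 536870912 536870912 0 536870912 780900216 37827925
    (rowNE 3 eng mog cd0q1 cd0q0 pd2 0 true true true .npp 1 0 2 (qsf 536870912 536870912 0 536870912 2) ndB0q1 ndB0q0 pcB2 cut_pp_102_s Ext.none)

def k0_pp_102_s : ∃ t, chk3 f_pp_102_s t 1 1 1 = true :=
  ⟨(l 6), by decide +kernel⟩

theorem c_pp_102_s : CertNE 536870912 536870912 0 536870912 780900216 37827925 3 eng mog cd0q1 cd0q0 pd2 true true true .npp 1 0 2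
    ndB0q1 ndB0q0 pcB2 cut_pp_102_s Ext.none :=
  certNE0 (fam := true) (s1 := true) (s2 := true) (a := 1) (b := 0) (c := 2) (cn := .npp) (n1 := ndB0q1) (n2 := ndB0q0) (pc := pcB2) (cut := cut_pp_102_s) (xt := Ext.none) (P1 := 536870912) (W1 := 536870912) (P2 := 0) (W2 := 536870912) (P3 := 780900216) (W3 := 37827925) (N0 := 3) (En := eng) (mo := mog) (C1 := cd0q1) (C2 := cd0q0) (C3 := pd2)
    rfl k0_pp_102_s

noncomputable def cut_pp_102_t : Cut := Cut.of [[⟨3, 0, 0, 2845415833⟩]]

noncomputable def f_pp_102_t : ℕ → ℕ → ℕ → ℕ → Bool := onCell 536870912 536870912 0 536870912 780900216 37827925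
    (rowNE 3 eng mog cd0q1 cd0q0 pd2 0 true true true .npp 1 0 2 (qsf 536870912 536870912 0 536870912 2) ndB0q1 ndB0q0 pcB2 cut_pp_102_t Ext.none)

def k0_pp_102_t : ∃ t, chk3 f_pp_102_t t 1 1 1 = true :=
  ⟨(a (l 4) (l 5)), by decide +kernel⟩

theorem c_pp_102_t : CertNE 536870912 536870912 0 536870912 780900216 37827925 3 eng mog cd0q1 cd0q0 pd2 true true true .npp 1 0 2
    ndB0q1 ndB0q0 pcB2 cut_pp_102_t Ext.none :=
  certNE0 (fam := true) (s1 := true) (s2 := true) (a := 1) (b := 0) (c := 2) (cn := .npp) (n1 := ndB0q1) (n2 := ndB0q0) (pc := pcB2) (cut := cut_pp_102_t) (xt := Ext.none) (P1 := 536870912) (W1 := 536870912) (P2 := 0) (W2 := 536870912) (P3 := 780900216) (W3 := 37827925) (N0 := 3) (En := eng) (mo := mog) (C1 := cd0q1) (C2 := cd0q0) (C3 := pd2)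
    rfl k0_pp_102_t

noncomputable def cut_pp_112_s : Cut := Cut.of [[⟨4, 0, 0, 1449551462⟩]]

noncomputable def f_pp_112_s : ℕ → ℕ → ℕ → ℕ → Bool := onCell 536870912 536870912 536870912 536870912 780900216 37827925
    (rowNE 3 eng mog cd0q1 cd0q1 pd2 0 true true true .dn 1 1 2 (qsf 536870912 536870912 536870912 536870912 2) ndB0q1 ndB0q1 pcB2 cut_pp_112_s Ext.none)

def k0_pp_112_s : ∃ t, chk3 f_pp_112_s t 1 1 1 = true :=
  ⟨(l 4), by decide +kernel⟩

theorem c_pp_112_s : CertNE 536870912 536870912 536870912 536870912 780900216 37827925 3 eng mog cd0q1 cd0q1 pd2 true true true .dn 1 1 2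
    ndB0q1 ndB0q1 pcB2 cut_pp_112_s Ext.none :=
  certNE0 (fam := true) (s1 := true) (s2 := true) (a := 1) (b := 1) (c := 2) (cn := .dn) (n1 := ndB0q1) (n2 := ndB0q1) (pc := pcB2) (cut := cut_pp_112_s) (xt := Ext.none) (P1 := 536870912) (W1 := 536870912) (P2 := 536870912) (W2 := 536870912) (P3 := 780900216) (W3 := 37827925) (N0 := 3) (En := eng) (mo := mog) (C1 := cd0q1) (C2 := cd0q1) (C3 := pd2)
    rfl k0_pp_112_s

noncomputable def cut_pp_112_t : Cut := Cut.of [[⟨3, 0, 0, 2845415833⟩]]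

noncomputable def f_pp_112_t : ℕ → ℕ → ℕ → ℕ → Bool := onCell 536870912 536870912 536870912 536870912 780900216 37827925
    (rowNE 3 eng mog cd0q1 cd0q1 pd2 0 true true true .dn 1 1 2 (qsf 536870912 536870912 536870912 536870912 2) ndB0q1 ndB0q1 pcB2 cut_pp_112_t Ext.none)

def k0_pp_112_t : ∃ t, chk3 f_pp_112_t t 1 1 1 = true :=
  ⟨(l 4), by decide +kernel⟩

theorem c_pp_112_t : CertNE 536870912 536870912 536870912 536870912 780900216 37827925 3 eng mog cd0q1 cd0q1 pd2 true true true .dn 1 1 2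
    ndB0q1 ndB0q1 pcB2 cut_pp_112_t Ext.none :=
  certNE0 (fam := true) (s1 := true) (s2 := true) (a := 1) (b := 1) (c := 2) (cn := .dn) (n1 := ndB0q1) (n2 := ndB0q1) (pc := pcB2) (cut := cut_pp_112_t) (xt := Ext.none) (P1 := 536870912) (W1 := 536870912) (P2 := 536870912) (W2 := 536870912) (P3 := 780900216) (W3 := 37827925) (N0 := 3) (En := eng) (mo := mog) (C1 := cd0q1) (C2 := cd0q1) (C3 := pd2)
    rfl k0_pp_112_t

noncomputable def cut_pp_113_s : Cut := Cut.of [[⟨4, 0, 0, 1449551462⟩]]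

noncomputable def f_pp_113_s : ℕ → ℕ → ℕ → ℕ → Bool := onCell 536870912 536870912 536870912 536870912 780900216 37827925
    (rowNE 3 eng mog cd0q1 cd0q1 pd3 0 true true true .nn 1 1 3 (qsf 536870912 536870912 536870912 536870912 3) ndB0q1 ndB0q1 pcB3 cut_pp_113_s Ext.none)

def k0_pp_113_s : ∃ t, chk3 f_pp_113_s t 1 1 1 = true :=
  ⟨(l 4), by decide +kernel⟩

theorem c_pp_113_s : CertNE 536870912 536870912 536870912 536870912 780900216 37827925 3 eng mog cd0q1 cd0q1 pd3 true true true .nn 1 1 3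
    ndB0q1 ndB0q1 pcB3 cut_pp_113_s Ext.none :=
  certNE0 (fam := true) (s1 := true) (s2 := true) (a := 1) (b := 1) (c := 3) (cn := .nn) (n1 := ndB0q1) (n2 := ndB0q1) (pc := pcB3) (cut := cut_pp_113_s) (xt := Ext.none) (P1 := 536870912) (W1 := 536870912) (P2 := 536870912) (W2 := 536870912) (P3 := 780900216) (W3 := 37827925) (N0 := 3) (En := eng) (mo := mog) (C1 := cd0q1) (C2 := cd0q1) (C3 := pd3)
    rfl k0_pp_113_s

noncomputable def cut_pp_113_t : Cut := Cut.of [[⟨3, 0, 0, 2845415833⟩]]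

noncomputable def f_pp_113_t : ℕ → ℕ → ℕ → ℕ → Bool := onCell 536870912 536870912 536870912 536870912 780900216 37827925
    (rowNE 3 eng mog cd0q1 cd0q1 pd3 0 true true true .nn 1 1 3 (qsf 536870912 536870912 536870912 536870912 3) ndB0q1 ndB0q1 pcB3 cut_pp_113_t Ext.none)

def k0_pp_113_t : ∃ t, chk3 f_pp_113_t t 1 1 1 = true :=
  ⟨(l 4), by decide +kernel⟩

theorem c_pp_113_t : CertNE 536870912 536870912 536870912 536870912 780900216 37827925 3 eng mog cd0q1 cd0q1 pd3 true true true .nn 1 1 3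
    ndB0q1 ndB0q1 pcB3 cut_pp_113_t Ext.none :=
  certNE0 (fam := true) (s1 := true) (s2 := true) (a := 1) (b := 1) (c := 3) (cn := .nn) (n1 := ndB0q1) (n2 := ndB0q1) (pc := pcB3) (cut := cut_pp_113_t) (xt := Ext.none) (P1 := 536870912) (W1 := 536870912) (P2 := 536870912) (W2 := 536870912) (P3 := 780900216) (W3 := 37827925) (N0 := 3) (En := eng) (mo := mog) (C1 := cd0q1) (C2 := cd0q1) (C3 := pd3)
    rfl k0_pp_113_t

noncomputable def cut_pp_123_s : Cut := Cut.of [[⟨4, 0, 0, 1449551462⟩]]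

noncomputable def f_pp_123_s : ℕ → ℕ → ℕ → ℕ → Bool := onCell 536870912 536870912 0 536870912 780900216 37827925
    (rowNE 3 eng mog cd0q1 cd0q2 pd3 0 true true true .npn 1 2 3 (qsf 536870912 536870912 0 536870912 3) ndB0q1 ndB0q2 pcB3 cut_pp_123_s Ext.none)

def k0_pp_123_s : ∃ t, chk3 f_pp_123_s t 1 1 1 = true :=
  ⟨(l 6), by decide +kernel⟩

theorem c_pp_123_s : CertNE 536870912 536870912 0 536870912 780900216 37827925 3 eng mog cd0q1 cd0q2 pd3 true true true .npn 1 2 3
    ndB0q1 ndB0q2 pcB3 cut_pp_123_s Ext.none :=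
  certNE0 (fam := true) (s1 := true) (s2 := true) (a := 1) (b := 2) (c := 3) (cn := .npn) (n1 := ndB0q1) (n2 := ndB0q2) (pc := pcB3) (cut := cut_pp_123_s) (xt := Ext.none) (P1 := 536870912) (W1 := 536870912) (P2 := 0) (W2 := 536870912) (P3 := 780900216) (W3 := 37827925) (N0 := 3) (En := eng) (mo := mog) (C1 := cd0q1) (C2 := cd0q2) (C3 := pd3)
    rfl k0_pp_123_s

noncomputable def cut_pp_123_t : Cut := Cut.of [[⟨3, 0, 0, 2845415833⟩]]

noncomputable def f_pp_123_t : ℕ → ℕ → ℕ → ℕ → Bool := onCell 536870912 536870912 0 536870912 780900216 37827925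
    (rowNE 3 eng mog cd0q1 cd0q2 pd3 0 true true true .npn 1 2 3 (qsf 536870912 536870912 0 536870912 3) ndB0q1 ndB0q2 pcB3 cut_pp_123_t Ext.none)

def k0_pp_123_t : ∃ t, chk3 f_pp_123_t t 1 1 1 = true :=
  ⟨(a (b (b (a (a (a (b (b (a (l 16745488) (l 16755032)) (a (a (l 16761368) (l 16766256)) (b (l 16768704) (b (l 66806905063) (l 104924735895))))) (b (a (b (a (l 81302413831) (l 97945338551)) (l 4)) (l 4)) (l 4))) (b (a (b (l 16764296) (b (b (l 65196290391) (l 106535357367)) (l 4))) (b (b (l 16768880) (l 97408552823)) (l 4))) (l 4))) (b (a (b (a (b (l 99019163415) (l 4)) (l 4)) (l 4)) (l 4)) (l 4))) (l 4)) (l 4)) (l 4)) (l 4)), by decide +kernel⟩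

theorem c_pp_123_t : CertNE 536870912 536870912 0 536870912 780900216 37827925 3 eng mog cd0q1 cd0q2 pd3 true true true .npn 1 2 3
    ndB0q1 ndB0q2 pcB3 cut_pp_123_t Ext.none :=
  certNE0 (fam := true) (s1 := true) (s2 := true) (a := 1) (b := 2) (c := 3) (cn := .npn) (n1 := ndB0q1) (n2 := ndB0q2) (pc := pcB3) (cut := cut_pp_123_t) (xt := Ext.none) (P1 := 536870912) (W1 := 536870912) (P2 := 0) (W2 := 536870912) (P3 := 780900216) (W3 := 37827925) (N0 := 3) (En := eng) (mo := mog) (C1 := cd0q1) (C2 := cd0q2) (C3 := pd3)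
    rfl k0_pp_123_t

noncomputable def cut_pp_202_s : Cut := Cut.of [[⟨4, 0, 0, 1449551462⟩]]

noncomputable def f_pp_202_s : ℕ → ℕ → ℕ → ℕ → Bool := onCell 0 536870912 0 536870912 780900216 37827925
    (rowNE 3 eng mog cd0q2 cd0q0 pd2 0 true true true .pp 2 0 2 (qsf 0 536870912 0 536870912 2) ndB0q2 ndB0q0 pcB2 cut_pp_202_s Ext.none)

def k0_pp_202_s : ∃ t, chk3 f_pp_202_s t 1 1 1 = true :=
  ⟨(l 5), by decide +kernel⟩

theorem c_pp_202_s : CertNE 0 536870912 0 536870912 780900216 37827925 3 eng mog cd0q2 cd0q0 pd2 true true true .pp 2 0 2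
    ndB0q2 ndB0q0 pcB2 cut_pp_202_s Ext.none :=
  certNE0 (fam := true) (s1 := true) (s2 := true) (a := 2) (b := 0) (c := 2) (cn := .pp) (n1 := ndB0q2) (n2 := ndB0q0) (pc := pcB2) (cut := cut_pp_202_s) (xt := Ext.none) (P1 := 0) (W1 := 536870912) (P2 := 0) (W2 := 536870912) (P3 := 780900216) (W3 := 37827925) (N0 := 3) (En := eng) (mo := mog) (C1 := cd0q2) (C2 := cd0q0) (C3 := pd2)
    rfl k0_pp_202_s

noncomputable def cut_pp_202_t : Cut := Cut.of [[⟨3, 0, 0, 2845415833⟩]]

noncomputable def f_pp_202_t : ℕ → ℕ → ℕ → ℕ → Bool := onCell 0 536870912 0 536870912 780900216 37827925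
    (rowNE 3 eng mog cd0q2 cd0q0 pd2 0 true true true .pp 2 0 2 (qsf 0 536870912 0 536870912 2) ndB0q2 ndB0q0 pcB2 cut_pp_202_t Ext.none)

def k0_pp_202_t : ∃ t, chk3 f_pp_202_t t 1 1 1 = true :=
  ⟨(l 5), by decide +kernel⟩

theorem c_pp_202_t : CertNE 0 536870912 0 536870912 780900216 37827925 3 eng mog cd0q2 cd0q0 pd2 true true true .pp 2 0 2
    ndB0q2 ndB0q0 pcB2 cut_pp_202_t Ext.none :=
  certNE0 (fam := true) (s1 := true) (s2 := true) (a := 2) (b := 0) (c := 2) (cn := .pp) (n1 := ndB0q2) (n2 := ndB0q0) (pc := pcB2) (cut := cut_pp_202_t) (xt := Ext.none) (P1 := 0) (W1 := 536870912) (P2 := 0) (W2 := 536870912) (P3 := 780900216) (W3 := 37827925) (N0 := 3) (En := eng) (mo := mog) (C1 := cd0q2) (C2 := cd0q0) (C3 := pd2)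
    rfl k0_pp_202_t

noncomputable def cut_pp_203_s : Cut := Cut.of [[⟨4, 0, 0, 1449551462⟩]]

noncomputable def f_pp_203_s : ℕ → ℕ → ℕ → ℕ → Bool := onCell 0 536870912 0 536870912 780900216 37827925
    (rowNE 3 eng mog cd0q2 cd0q0 pd3 0 true true true .up 2 0 3 (qsf 0 536870912 0 536870912 3) ndB0q2 ndB0q0 pcB3 cut_pp_203_s Ext.none)

def k0_pp_203_s : ∃ t, chk3 f_pp_203_s t 1 1 1 = true :=
  ⟨(l 5), by decide +kernel⟩

theorem c_pp_203_s : CertNE 0 536870912 0 536870912 780900216 37827925 3 eng mog cd0q2 cd0q0 pd3 true true true .up 2 0 3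
    ndB0q2 ndB0q0 pcB3 cut_pp_203_s Ext.none :=
  certNE0 (fam := true) (s1 := true) (s2 := true) (a := 2) (b := 0) (c := 3) (cn := .up) (n1 := ndB0q2) (n2 := ndB0q0) (pc := pcB3) (cut := cut_pp_203_s) (xt := Ext.none) (P1 := 0) (W1 := 536870912) (P2 := 0) (W2 := 536870912) (P3 := 780900216) (W3 := 37827925) (N0 := 3) (En := eng) (mo := mog) (C1 := cd0q2) (C2 := cd0q0) (C3 := pd3)
    rfl k0_pp_203_s

noncomputable def cut_pp_203_t : Cut := Cut.of [[⟨3, 0, 0, 2845415833⟩]]

noncomputable def f_pp_203_t : ℕ → ℕ → ℕ → ℕ → Bool := onCell 0 536870912 0 536870912 780900216 37827925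
    (rowNE 3 eng mog cd0q2 cd0q0 pd3 0 true true true .up 2 0 3 (qsf 0 536870912 0 536870912 3) ndB0q2 ndB0q0 pcB3 cut_pp_203_t Ext.none)

def k0_pp_203_t : ∃ t, chk3 f_pp_203_t t 1 1 1 = true :=
  ⟨(l 5), by decide +kernel⟩

theorem c_pp_203_t : CertNE 0 536870912 0 536870912 780900216 37827925 3 eng mog cd0q2 cd0q0 pd3 true true true .up 2 0 3
    ndB0q2 ndB0q0 pcB3 cut_pp_203_t Ext.none :=
  certNE0 (fam := true) (s1 := true) (s2 := true) (a := 2) (b := 0) (c := 3) (cn := .up) (n1 := ndB0q2) (n2 := ndB0q0) (pc := pcB3) (cut := cut_pp_203_t) (xt := Ext.none) (P1 := 0) (W1 := 536870912) (P2 := 0) (W2 := 536870912) (P3 := 780900216) (W3 := 37827925) (N0 := 3) (En := eng) (mo := mog) (C1 := cd0q2) (C2 := cd0q0) (C3 := pd3)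
    rfl k0_pp_203_t

noncomputable def cut_pp_213_s : Cut := Cut.of [[⟨4, 0, 0, 1449551462⟩]]

noncomputable def f_pp_213_s : ℕ → ℕ → ℕ → ℕ → Bool := onCell 0 536870912 536870912 536870912 780900216 37827925
    (rowNE 3 eng mog cd0q2 cd0q1 pd3 0 true true true .pnn 2 1 3 (qsf 0 536870912 536870912 536870912 3) ndB0q2 ndB0q1 pcB3 cut_pp_213_s Ext.none)

def k0_pp_213_s : ∃ t, chk3 f_pp_213_s t 1 1 1 = true :=
  ⟨(l 6), by decide +kernel⟩

theorem c_pp_213_s : CertNE 0 536870912 536870912 536870912 780900216 37827925 3 eng mog cd0q2 cd0q1 pd3 true true true .pnn 2 1 3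
    ndB0q2 ndB0q1 pcB3 cut_pp_213_s Ext.none :=
  certNE0 (fam := true) (s1 := true) (s2 := true) (a := 2) (b := 1) (c := 3) (cn := .pnn) (n1 := ndB0q2) (n2 := ndB0q1) (pc := pcB3) (cut := cut_pp_213_s) (xt := Ext.none) (P1 := 0) (W1 := 536870912) (P2 := 536870912) (W2 := 536870912) (P3 := 780900216) (W3 := 37827925) (N0 := 3) (En := eng) (mo := mog) (C1 := cd0q2) (C2 := cd0q1) (C3 := pd3)
    rfl k0_pp_213_s

noncomputable def cut_pp_213_t : Cut := Cut.of [[⟨3, 0, 0, 2845415833⟩]]

noncomputable def f_pp_213_t : ℕ → ℕ → ℕ → ℕ → Bool := onCell 0 536870912 536870912 536870912 780900216 37827925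
    (rowNE 3 eng mog cd0q2 cd0q1 pd3 0 true true true .pnn 2 1 3 (qsf 0 536870912 536870912 536870912 3) ndB0q2 ndB0q1 pcB3 cut_pp_213_t Ext.none)

def k0_pp_213_t : ∃ t, chk3 f_pp_213_t t 1 1 1 = true :=
  ⟨(a (l 5) (l 4)), by decide +kernel⟩

theorem c_pp_213_t : CertNE 0 536870912 536870912 536870912 780900216 37827925 3 eng mog cd0q2 cd0q1 pd3 true true true .pnn 2 1 3
    ndB0q2 ndB0q1 pcB3 cut_pp_213_t Ext.none :=
  certNE0 (fam := true) (s1 := true) (s2 := true) (a := 2) (b := 1) (c := 3) (cn := .pnn) (n1 := ndB0q2) (n2 := ndB0q1) (pc := pcB3) (cut := cut_pp_213_t) (xt := Ext.none) (P1 := 0) (W1 := 536870912) (P2 := 536870912) (W2 := 536870912) (P3 := 780900216) (W3 := 37827925) (N0 := 3) (En := eng) (mo := mog) (C1 := cd0q2) (C2 := cd0q1) (C3 := pd3)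
    rfl k0_pp_213_t

noncomputable def cut_pm_001_s : Cut := Cut.of [[⟨4, 0, 0, 1449551462⟩]]

noncomputable def f_pm_001_s : ℕ → ℕ → ℕ → ℕ → Bool := onCell 0 536870912 0 536870912 780900216 37827925
    (rowNE 3 eng mog cd0q0 cd0q0 pd1 0 true true false .up 0 0 1 (qsf 0 536870912 0 536870912 1) ndB0q0 ndB0q0 pcB1 cut_pm_001_s Ext.none)

def k0_pm_001_s : ∃ t, chk3 f_pm_001_s t 1 1 1 = true :=
  ⟨(l 3), by decide +kernel⟩

theorem c_pm_001_s : CertNE 0 536870912 0 536870912 780900216 37827925 3 eng mog cd0q0 cd0q0 pd1 true true false .up 0 0 1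
    ndB0q0 ndB0q0 pcB1 cut_pm_001_s Ext.none :=
  certNE0 (fam := true) (s1 := true) (s2 := false) (a := 0) (b := 0) (c := 1) (cn := .up) (n1 := ndB0q0) (n2 := ndB0q0) (pc := pcB1) (cut := cut_pm_001_s) (xt := Ext.none) (P1 := 0) (W1 := 536870912) (P2 := 0) (W2 := 536870912) (P3 := 780900216) (W3 := 37827925) (N0 := 3) (En := eng) (mo := mog) (C1 := cd0q0) (C2 := cd0q0) (C3 := pd1)
    rfl k0_pm_001_s

noncomputable def cut_pm_001_t : Cut := Cut.of [[⟨3, 0, 0, 2845415833⟩]]

noncomputable def f_pm_001_t : ℕ → ℕ → ℕ → ℕ → Bool := onCell 0 536870912 0 536870912 780900216 37827925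
    (rowNE 3 eng mog cd0q0 cd0q0 pd1 0 true true false .up 0 0 1 (qsf 0 536870912 0 536870912 1) ndB0q0 ndB0q0 pcB1 cut_pm_001_t Ext.none)

def k0_pm_001_t : ∃ t, chk3 f_pm_001_t t 1 1 1 = true :=
  ⟨(l 3), by decide +kernel⟩

theorem c_pm_001_t : CertNE 0 536870912 0 536870912 780900216 37827925 3 eng mog cd0q0 cd0q0 pd1 true true false .up 0 0 1
    ndB0q0 ndB0q0 pcB1 cut_pm_001_t Ext.none :=
  certNE0 (fam := true) (s1 := true) (s2 := false) (a := 0) (b := 0) (c := 1) (cn := .up) (n1 := ndB0q0) (n2 := ndB0q0) (pc := pcB1) (cut := cut_pm_001_t) (xt := Ext.none) (P1 := 0) (W1 := 536870912) (P2 := 0) (W2 := 536870912) (P3 := 780900216) (W3 := 37827925) (N0 := 3) (En := eng) (mo := mog) (C1 := cd0q0) (C2 := cd0q0) (C3 := pd1)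
    rfl k0_pm_001_t

noncomputable def cut_pm_011_s : Cut := Cut.of [[⟨4, 0, 0, 1449551462⟩], [⟨0, 0, 0, 67108864⟩, ⟨1, 1, 0, 67108864⟩, ⟨2, 1, 0, 67108864⟩]]

noncomputable def f_pm_011_s : ℕ → ℕ → ℕ → ℕ → Bool := onCell 536870912 536870912 536870912 536870912 780900216 37827925
    (rowNE 3 eng mog cd0q0 cd0q1 pd1 2 true true false .pnn 0 1 1 (qsf 0 536870912 536870912 536870912 1) ndB0q0 ndB0q1 pcB1 cut_pm_011_s Ext.none)

def k0_pm_011_s : ∃ t, chk3 f_pm_011_s t 1 1 1 = true :=
  ⟨(a (l 3) (b (l 3) (a (l 3) (b (l 3) (a (l 3) (b (l 3) (a (l 3) (b (l 3) (l 14))))))))), by decide +kernel⟩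

theorem c_pm_011_s : CertNE 0 536870912 536870912 536870912 780900216 37827925 3 eng mog cd0q0 cd0q1 pd1 true true false .pnn 0 1 1
    ndB0q0 ndB0q1 pcB1 cut_pm_011_s Ext.none :=
  certNE2 (fam := true) (s1 := true) (s2 := false) (a := 0) (b := 1) (c := 1) (cn := .pnn) (n1 := ndB0q0) (n2 := ndB0q1) (pc := pcB1) (cut := cut_pm_011_s) (xt := Ext.none) (P1 := 0) (W1 := 536870912) (P2 := 536870912) (W2 := 536870912) (P3 := 780900216) (W3 := 37827925) (N0 := 3) (En := eng) (mo := mog) (C1 := cd0q0) (C2 := cd0q1) (C3 := pd1)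
    rfl (fun _ => rfl) k0_pm_011_s

noncomputable def cut_pm_011_t : Cut := Cut.of [[⟨3, 0, 0, 2845415833⟩], [⟨0, 0, 0, 67108864⟩, ⟨1, 1, 0, 67108864⟩, ⟨2, 1, 0, 67108864⟩]]

noncomputable def f_pm_011_t : ℕ → ℕ → ℕ → ℕ → Bool := onCell 0 536870912 536870912 536870912 780900216 37827925
    (rowNE 3 eng mog cd0q0 cd0q1 pd1 0 true true false .pnn 0 1 1 (qsf 0 536870912 536870912 536870912 1) ndB0q0 ndB0q1 pcB1 cut_pm_011_t Ext.none)

def k0_pm_011_t : ∃ t, chk3 f_pm_011_t t 1 1 1 = true :=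
  ⟨(l 6), by decide +kernel⟩

theorem c_pm_011_t : CertNE 0 536870912 536870912 536870912 780900216 37827925 3 eng mog cd0q0 cd0q1 pd1 true true false .pnn 0 1 1
    ndB0q0 ndB0q1 pcB1 cut_pm_011_t Ext.none :=
  certNE0 (fam := true) (s1 := true) (s2 := false) (a := 0) (b := 1) (c := 1) (cn := .pnn) (n1 := ndB0q0) (n2 := ndB0q1) (pc := pcB1) (cut := cut_pm_011_t) (xt := Ext.none) (P1 := 0) (W1 := 536870912) (P2 := 536870912) (W2 := 536870912) (P3 := 780900216) (W3 := 37827925) (N0 := 3) (En := eng) (mo := mog) (C1 := cd0q0) (C2 := cd0q1) (C3 := pd1)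
    rfl k0_pm_011_t

noncomputable def cut_pm_012_s : Cut := Cut.of [[⟨4, 0, 0, 1449551462⟩], [⟨0, 0, 0, 67108864⟩, ⟨1, 1, 0, 67108864⟩, ⟨2, 1, 0, 67108864⟩]]

noncomputable def f_pm_012_s : ℕ → ℕ → ℕ → ℕ → Bool := onCell 1073741824 536870912 536870912 536870912 780900216 37827925
    (rowNE 3 eng mog cd0q0 cd0q1 pd2 2 true true false .pnp 0 1 2 (qsf 0 536870912 536870912 536870912 2) ndB0q0 ndB0q1 pcB2 cut_pm_012_s Ext.none)

def k0_pm_012_s : ∃ t, chk3 f_pm_012_s t 4 2 1 = true :=
  ⟨(a (l 3) (l 3)), by decide +kernel⟩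

def k1_pm_012_s : ∃ t, chk3 f_pm_012_s t 8 6 1 = true :=
  ⟨(l 3), by decide +kernel⟩

def k2_pm_012_s : ∃ t, chk3 f_pm_012_s t 18 6 1 = true :=
  ⟨(b (l 3) (a (l 3) (b (l 3) (a (l 3) (b (l 3) (a (l 3) (b (l 3) (b (a (l 3) (l 16776832)) (a (l 16779448) (l 16774768)))))))))), by decide +kernel⟩

def k3_pm_012_s : ∃ t, chk3 f_pm_012_s t 19 12 1 = true :=
  ⟨(a (l 3) (b (l 3) (a (b (l 3) (a (l 3) (c (b (l 3) (l 258402681751)) (l 273971934519)))) (a (b (l 3) (a (c (b (l 3) (l 80698414999)) (l 104857611447)) (c (b (l 125258700407) (l 16774504)) (l 29695683815)))) (b (c (b (a (l 3) (l 204715593351)) (c (a (l 171966468535) (l 16776288)) (l 96267673959))) (b (l 219211110199) (l 16776728))) (c (b (c (l 16779416) (l 16774176)) (l 16770432)) (b (l 16774184) (l 16770416)))))))), by decide +kernel⟩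

def k4_pm_012_s : ∃ t, chk3 f_pm_012_s t 19 13 1 = true :=
  ⟨(a (b (a (l 3) (b (l 3) (a (b (l 3) (c (l 258402681783) (l 279340647143))) (b (c (a (l 3) (l 159618437687)) (l 204178718775)) (c (a (l 85530248039) (l 16774112)) (a (l 16776632) (l 16774128))))))) (a (b (a (b (l 3) (l 323364062311)) (b (a (l 3) (l 293836161831)) (c (a (l 159081563031) (l 16775488)) (a (l 139217344695) (l 16775464))))) (a (b (b (a (l 3) (l 16779520)) (c (l 16781040) (l 16781008))) (l 16772104)) (b (c (l 16772016) (l 16771984)) (l 16766976)))) (b (a (a (b (c (l 127406179159) (l 107005089991)) (l 16772904)) (b (c (l 16774968) (l 16774984)) (l 16770192))) (b (c (l 16770840) (l 16770864)) (c (l 16766080) (l 16766120)))) (b (a (l 16766696) (l 16761240)) (a (l 16761752) (a (l 16757688) (a (l 16755616) (l 16754272)))))))) (b (a (b (b (a (l 3) (c (a (l 160692180807) (l 16776040)) (l 65666032807))) (c (a (a (l 270750712727) (l 100562638951)) (l 16773280)) (a (l 118279382455) (l 16773280)))) (a (b (c (c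 (l 16779728) (l 16774488)) (l 16774496)) (c (l 16769960) (l 16769960))) (c (b (l 16768912) (l 16764408)) (l 16764032)))) (b (c (a (b (l 16771920) (l 16767752)) (b (l 16766448) (l 16762256))) (a (l 16769832) (l 16764312))) (a (c (b (l 16763368) (l 16758872)) (l 16761072)) (b (l 16757808) (c (l 16753336) (l 16753184)))))) (a (b (a (b (l 16765360) (l 16760648)) (b (l 16759840) (c (l 16755240) (l 16755200)))) (b (a (c (l 16755872) (l 16755912)) (c (l 16750480) (l 16750480))) (a (c (l 16750920) (l 16751056)) (l 16745808)))) (b (a (b (c (l 16754352) (l 16754248)) (c (l 16749768) (l 16749672))) (b (c (l 16748832) (l 16748664)) (l 16744328))) (c (b (l 16742496) (l 16737856)) (b (l 16742536) (l 16738024))))))), by decide +kernel⟩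

def k5_pm_012_s : ∃ t, chk3 f_pm_012_s t 8 14 1 = true :=
  ⟨(a (l 3) (b (l 3) (a (l 3) (b (l 3) (a (b (l 3) (a (l 3) (b (l 3) (a (l 330343383335) (a (b (l 3) (l 102173246359)) (b (l 175187691175) (l 16775904))))))) (b (a (b (l 3) (a (l 3) (b (l 3) (l 249812746231)))) (b (a (l 3) (b (l 243370295335) (c (l 16779248) (l 63518542503)))) (a (b (a (l 269140099991) (l 16776856)) (l 16775920)) (l 16774400)))) (a (b (b (a (l 349133865223) (a (l 126869309431) (l 16776120))) (a (a (l 262697648183) (l 16778080)) (l 16775024))) (a (b (l 16778368) (l 16773976)) (l 16772384))) (b (a (l 16773440) (l 16771120)) (a (l 16770000) (l 16767784)))))))))), by decide +kernel⟩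

def k6_pm_012_s : ∃ t, chk3 f_pm_012_s t 16 15 1 = true :=
  ⟨(b (a (l 3) (b (l 3) (a (l 3) (b (l 3) (a (l 3) (b (l 3) (b (a (l 3) (b (a (l 3) (a (l 3) (l 241759682615))) (a (l 317458481399) (a (b (l 238538457383) (l 16777000)) (l 16776664))))) (b (a (l 3) (a (a (b (l 342154543255) (l 128479920759)) (c (l 16777504) (l 16777656))) (l 16775960))) (a (l 14) (a (l 16776176) (l 16774928))))))))))) (b (a (l 14) (a (l 14) (b (b (a (l 14) (a (l 14) (a (l 14) (b (b (l 16772576) (l 14)) (l 14))))) (l 14)) (l 14)))) (l 14))), by decide +kernel⟩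

def k7_pm_012_s : ∃ t, chk3 f_pm_012_s t 34 60 1 = true :=
  ⟨(a (l 3) (b (l 3) (a (b (l 3) (a (l 3) (b (c (l 274508808439) (l 282025001063)) (a (b (l 283635613815) (l 89825214903)) (a (l 16777864) (l 16775960)))))) (b (a (a (l 3) (b (l 3) (b (l 302962966647) (l 92509570823)))) (a (b (l 257328939063) (l 16777560)) (b (a (l 116131889623) (l 16776560)) (l 16774968)))) (a (a (b (b (l 153175983431) (l 16776448)) (l 16774952)) (l 16774664)) (b (l 16773616) (l 16768952))))))), by decide +kernel⟩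

def k8_pm_012_s : ∃ t, chk3 f_pm_012_s t 34 122 1 = true :=
  ⟨(a (a (b (l 3) (a (l 3) (b (l 3) (c (l 311552901591) (l 318532223287))))) (b (a (l 3) (a (l 336248960887) (b (l 3) (b (l 263234519127) (a (l 135459242999) (l 16776664)))))) (a (a (b (l 3) (b (l 231022263671) (a (l 91972699175) (l 16776488)))) (b (a (l 317995352279) (b (l 3) (l 114521277479))) (c (l 16776008) (l 16776648)))) (a (b (b (a (l 211694911959) (l 16776896)) (l 16776264)) (l 16774720)) (b (l 16775472) (l 16770784)))))) (a (b (a (a (b (c (l 246054649943) (l 253033971719)) (c (l 16777472) (l 16777128))) (b (a (b (l 249812746695) (l 16776720)) (l 16777832)) (l 16774872))) (b (l 16774920) (l 16772848))) (b (a (l 16773472) (c (l 16768192) (l 16768112))) (a (c (l 16768160) (l 16768088)) (c (l 16768752) (l 16768648))))) (b (b (c (l 16772216) (l 16772456)) (a (c (l 16764944) (l 16764856)) (c (l 16767496) (l 16767368)))) (a (b (l 16765440) (c (l 16766440) (l 16766232))) (b (l 16766416) (l 16764832)))))), by decide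 +kernel⟩

def k9_pm_012_s : ∃ t, chk3 f_pm_012_s t 34 123 1 = true :=
  ⟨(b (a (a (a (b (l 3) (a (a (l 3) (a (l 282561872071) (b (l 3) (l 144049177207)))) (a (b (l 283635613831) (l 16777456)) (b (a (l 165524013687) (l 16777008)) (l 16776216))))) (b (a (b (l 338933317879) (a (l 216526750183) (l 16777904))) (a (b (l 148881014423) (l 16776360)) (l 16776544))) (a (c (l 16775776) (l 16775760)) (l 16774488)))) (a (a (b (l 16775264) (l 16770576)) (b (l 16771344) (l 16769272))) (b (a (l 16770032) (l 16768712)) (a (l 16770576) (l 16769256))))) (a (a (a (b (l 16770000) (b (l 16768440) (l 16764880))) (b (l 16768656) (l 16767040))) (b (c (l 16767704) (l 16767504)) (c (l 16766232) (l 16765832)))) (a (b (l 16766736) (l 16764584)) (b (l 16764272) (l 16758944))))) (a (a (b (a (a (b (a (a (l 116131888647) (l 16776888)) (l 16776456)) (l 16775736)) (l 16774984)) (c (l 16773088) (l 16773040))) (a (a (l 16774184) (a (l 16771920) (l 16769968))) (c (b (l 16768912) (l 16767872)) (b (l 16768848)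 (l 16767800))))) (a (a (b (l 16768496) (b (l 16769552) (a (l 16768840) (l 16765744)))) (b (l 16769808) (c (l 16768264) (l 16768088)))) (b (b (a (l 16769016) (l 16765168)) (c (l 16767848) (l 16767664))) (c (l 16767392) (l 16767008))))) (a (a (b (a (l 16766896) (l 16766320)) (a (l 16765840) (l 16764312))) (c (b (l 16764552) (l 16761632)) (l 16760552))) (b (c (a (l 16761408) (l 16753048)) (l 16760840)) (a (c (a (l 16759272) (l 16757712)) (l 16759608)) (c (l 16755368) (l 16756728))))))), by decide +kernel⟩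

def k10_pm_012_s : ∃ t, chk3 f_pm_012_s t 35 60 1 = true :=
  ⟨(a (b (a (b (a (l 3) (a (l 345912639783) (b (l 3) (a (l 200957494279) (l 16778232))))) (a (a (b (l 3) (a (l 225653555991) (l 109689440007))) (b (l 248202133495) (l 16776200))) (a (a (b (l 100025763591) (l 16775248)) (l 16776840)) (l 16774552)))) (b (a (b (a (l 213305525431) (l 16779184)) (l 16775432)) (l 16773776)) (b (l 16772872) (l 16770296)))) (a (b (a (c (l 16773968) (l 16773928)) (l 16771272)) (b (a (l 16765680) (l 16768272)) (a (l 16763648) (l 16760984)))) (b (a (c (l 16763464) (l 16763368)) (l 16768704)) (a (b (l 16761080) (l 16764256)) (b (l 16763840) (l 16763000)))))) (b (a (b (a (l 16771232) (l 16768792)) (a (l 16762256) (b (l 16766064) (l 16764296)))) (b (a (l 16766504) (b (l 16765248) (l 16763744))) (a (b (l 16763976) (l 16762928)) (l 16767144)))) (a (b (a (b (l 16764688) (l 16763480)) (b (l 16763176) (l 16762376))) (c (l 16760704) (l 16761328))) (b (c (l 16758880) (l 16759488)) (c (l 16754168) (l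 16755184)))))), by decide +kernel⟩

def k11_pm_012_s : ∃ t, chk3 f_pm_012_s t 35 61 1 = true :=
  ⟨(b (a (a (b (a (b (l 16762888) (l 16765216)) (b (l 16764720) (l 16763816))) (c (a (l 16764312) (l 16761776)) (l 16763080))) (b (c (l 16762200) (l 16762152)) (c (c (l 16756800) (l 16757280)) (l 16758112)))) (c (a (b (l 16750536) (a (l 16741792) (l 16749104))) (b (a (l 16750952) (l 16747720)) (c (l 16743936) (l 16744776)))) (a (b (l 16756840) (l 16749584)) (b (l 16750792) (a (l 16737264) (l 16744760)))))) (c (a (b (a (a (l 16755512) (b (l 16757704) (l 16754920))) (c (a (l 16752880) (l 16749712)) (a (l 16753520) (l 16750448)))) (b (a (a (l 16755176) (l 16752072)) (l 16752664)) (a (b (l 16756688) (l 16755224)) (a (l 16746088) (l 16743000))))) (a (b (a (l 16746936) (l 16743808)) (b (a (l 16742776) (l 16739656)) (a (l 16739904) (l 16736816)))) (b (b (l 16740440) (l 16742976)) (b (l 16740216) (l 16732072))))) (a (a (b (c (l 16758688) (l 16759296)) (a (a (l 16748048) (l 16744000)) (a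 (l 16742568) (l 16741136)))) (a (b (l 16754640) (a (l 16739704) (l 16738272))) (b (l 16751736) (b (l 16747912) (l 16745296))))) (a (b (a (l 16738336) (l 16735416)) (a (b (l 16745032) (l 16742368)) (b (l 16742120) (l 16739320)))) (b (a (l 16732488) (b (l 16741240) (l 16738744))) (a (l 16742864) (l 16734424))))))), by decide +kernel⟩

def k12_pm_012_s : ∃ t, chk3 f_pm_012_s t 68 62 1 = true :=
  ⟨(b (b (a (a (a (b (c (l 16769504) (l 16769456)) (l 14)) (b (c (l 16770856) (l 16770792)) (b (l 16769408) (l 14)))) (b (c (a (l 16770304) (l 16769464)) (a (l 16770184) (l 16768632))) (c (c (l 16768264) (l 16768400)) (l 16768104)))) (c (a (b (c (l 16768032) (l 16767856)) (c (l 16765024) (l 16765304))) (b (l 16764992) (a (l 16757520) (l 16755936)))) (a (b (l 16767568) (l 16765776)) (b (l 16765600) (l 16762856))))) (b (b (a (a (l 14) (c (l 16766064) (l 16766624))) (a (c (a (l 16763664) (l 16762064)) (l 16763688)) (c (l 16759680) (l 16755528)))) (a (l 14) (a (c (l 16763936) (l 16762288))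 (c (l 16758136) (l 16754128))))) (a (l 14) (b (a (c (l 16759760) (l 16755632)) (c (l 16756576) (l 16757960))) (a (l 14) (c (l 16755008) (l 16756536))))))) (b (b (a (l 14) (a (l 14) (a (l 14) (c (l 16751848) (l 16753664))))) (l 14)) (l 14))), by decide +kernel⟩

def k13_pm_012_s : ∃ t, chk3 f_pm_012_s t 69 62 1 = true :=
  ⟨(b (a (c (b (a (b (c (l 16756384) (l 16762016)) (a (l 16759592) (l 16758016))) (b (a (l 16759448) (l 16757880)) (l 16760896))) (b (a (c (l 16755432) (l 16756064)) (l 16752592)) (a (c (l 16752264) (l 16753024)) (c (l 16749048) (l 16749928))))) (c (b (b (l 16759656) (a (l 16759640) (l 16756672))) (a (b (l 16756776) (l 16753880)) (b (l 16753816) (l 16750912)))) (a (b (l 16761608) (b (l 16757568) (l 16754832))) (b (l 16757800) (b (l 16754744) (l 16752008)))))) (b (a (c (b (l 16755528) (l 16752512)) (b (l 16751664) (c (l 16753720) (l 16754632)))) (b (c (l 16752408) (l 16748784)) (c (l 16749400) (l 16751288)))) (a (b (c (l 16749456) (l 16751384)) (c (c (l 16745904)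 (l 16746848)) (c (l 16747912) (l 16749096)))) (b (c (c (l 16745864) (l 16746824)) (c (l 16747904) (l 16749104))) (c (l 16743256) (l 16745432)))))) (b (a (a (c (b (c (b (l 16749848) (l 16748248)) (l 16749920)) (c (l 16745888) (l 16746752))) (b (c (l 16750912) (l 16752000)) (l 16750888))) (c (b (c (l 16745912) (l 16746832)) (l 16743168)) (b (c (l 16747856) (l 16749000)) (l 16745104)))) (c (c (b (l 16741216) (l 16738064)) (b (l 16742120) (l 16738896))) (a (b (l 16745288) (l 16741944)) (c (l 16739928) (l 16741032))))) (b (a (a (l 14) (c (l 16739944) (l 16741728))) (c (c (l 16734856) (l 16735616)) (c (l 16736488) (l 16737488)))) (a (l 14) (c (c (l 16731608) (l 16732288)) (c (l 16733088) (l 16734000))))))), by decide +kernel⟩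

def k14_pm_012_s : ∃ t, chk3 f_pm_012_s t 35 62 1 = true :=
  ⟨(b (a (b (a (a (b (c (l 16749296) (l 16751168)) (c (l 16746288) (l 16748432))) (b (c (l 16746216) (l 16748320)) (c (l 16745824) (l 16745512)))) (c (b (a (l 16743120) (l 16740064)) (a (l 16740136) (l 16737024))) (a (b (l 16745448) (l 16742496)) (b (l 16742496) (l 16739368))))) (a (c (b (a (c (l 16742768) (l 16743760)) (l 16740136)) (c (l 16738112) (l 16739056))) (a (b (l 16745504) (l 16742288)) (c (l 16740176) (l 16741416)))) (a (c (l 16738088) (l 16737640)) (c (l 16732360) (l 16734496))))) (a (c (b (c (l 16733384) (l 16734416)) (c (l 16727256) (l 16728152))) (b (c (l 16735592) (l 16736920)) (c (l 16729192) (l 16730384)))) (b (c (c (l 16727136) (l 16728112)) (c (l 16729248) (l 16730544))) (c (c (l 16721032) (l 16721880)) (c (l 16722880) (l 16724040)))))) (a (a (a (b (c (c (l 16734960) (l 16735800)) (c (l 16736768) (l 16737872))) (c (c (l 16728520) (l 16729216)) (l 16733104))) (b (c (c (l 16731832) (l 16732656))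 (l 16734144)) (c (c (l 16725376) (l 16726048)) (l 16727304)))) (c (b (c (b (l 16728752) (l 16725552)) (l 16727952)) (c (b (l 16722304) (l 16719008)) (l 16721312))) (b (c (l 16728880) (l 16729952)) (c (l 16722096) (l 16723008))))) (a (b (c (c (l 16726168) (l 16721680)) (c (l 16722584) (l 16723624))) (c (c (l 16716992) (l 16714984)) (c (l 16715744) (l 16716632)))) (b (c (c (l 16714672) (l 16715392)) (c (l 16716256) (l 16717264))) (c (c (l 16708112) (l 16708680)) (c (l 16709400) (l 16710264))))))), by decide +kernel⟩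

def k15_pm_012_s : ∃ t, chk3 f_pm_012_s t 17 63 1 = true :=
  ⟨(a (b (b (b (a (l 14) (a (l 14) (a (l 14) (c (l 16727016) (l 16728432))))) (l 14)) (l 14)) (l 14)) (b (a (a (a (b (c (c (l 16721888) (l 16722432)) (l 16726080)) (l 14)) (b (c (c (l 16718720) (l 16719248)) (l 16720264)) (c (c (l 16711864) (l 16712232)) (l 16713008)))) (b (c (c (b (l 16715664) (l 16712272)) (b (l 16716200) (l 16712728))) (c (l 16715096) (l 16715856))) (c (c (b (l 16708824) (l 16705328)) (b (l 16709208) (l 16705632))) (c (l 16707896) (l 16708480))))) (c (b (a (c (b (l 16709344) (l 16705928)) (l 16708104)) (c (l 16703944) (l 16701752))) (a (c (b (l 16702464) (l 16698944)) (l 16701016)) (c (b (l 16696112) (l 16692568)) (l 16694624)))) (b (a (c (l 16708704) (l 16709440)) (c (l 16702320) (l 16703024))) (a (c (l 16701464) (l 16702032)) (c (l 16695032) (l 16695584)))))) (a (a (l 14) (a (l 14) (b (c (c (l 16698384) (l 16698560)) (l 16699048)) (l 14)))) (a (a (b (c (a (l 16696040) (l 16694432)) (l 16695808))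 (l 14)) (b (c (c (l 16691968) (l 16692112)) (l 16692568)) (c (c (l 16684600) (l 16684584)) (l 16684784)))) (b (c (c (b (l 16688984) (l 16685336)) (l 16687280)) (c (l 16687528) (l 16687920))) (c (c (b (l 16681640) (l 16677880)) (b (l 16681632) (l 16677800))) (c (l 16679808) (l 16680024)))))))), by decide +kernel⟩

def k16_pm_012_s : ∃ t, chk3 f_pm_012_s t 72 14 1 = true :=
  ⟨(b (l 3) (b (b (a (l 3) (b (l 3) (a (l 318532223527) (b (l 167134628823) (l 16776216))))) (a (b (a (l 3) (b (l 3) (l 204178721175))) (a (b (l 340543930711) (c (l 129016793639) (l 131701148151))) (b (l 33990643255) (l 16775008)))) (a (b (b (l 101636376807) (l 16775664)) (l 16773200)) (b (l 16773872) (l 16770528))))) (b (a (b (a (b (l 16775920) (l 16774360)) (l 16772528)) (a (l 16771928) (l 16769168))) (b (l 16768440) (l 16764904))) (a (a (b (l 16768624) (l 16765232)) (b (l 16765744) (a (l 16763072) (l 16761840)))) (b (a (l 16768024) (l 16762976)) (a (l 16765472) (l 16758072))))))), by decide +kernel⟩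

def k17_pm_012_s : ∃ t, chk3 f_pm_012_s t 72 15 1 = true :=
  ⟨(b (b (b (a (a (b (c (l 16762720) (l 16762496)) (l 16759120)) (b (l 16760360) (l 16756832))) (c (l 16754904) (l 16753464))) (a (b (c (l 16753264) (l 16754352)) (c (l 16738296) (l 16750288))) (c (b (l 16748848) (l 16734208)) (l 16746048)))) (c (b (b (a (a (l 16745128) (l 16743224)) (l 16729944)) (a (a (l 16740272) (l 16738528)) (a (l 16736784) (l 16735008)))) (a (b (a (l 16745616) (l 16733464)) (l 16728696)) (b (l 16730744) (l 16725176)))) (b (b (a (l 16746136) (l 16743032)) (a (a (l 16742552) (l 16741144)) (l 16733616))) (b (a (b (l 16727864) (l 16735640)) (l 16733696)) (a (l 16731256) (l 16727912)))))) (b (b (a (b (c (l 16728056) (l 16725136)) (c (a (l 16717488) (l 16715832)) (l 16718736))) (b (c (l 16719336) (l 16721832)) (c (l 16713224) (l 16715464)))) (a (b (c (a (l 16711080) (l 16709432)) (l 16712056)) (c (a (l 16704416) (l 16702768)) (a (l 16705872) (l 16704320)))) (b (c (l 16706832) (l 16708816)) (c (l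 16700184) (l 16701880))))) (b (a (b (c (a (l 16697536) (l 16695864)) (a (l 16698688) (l 16697120))) (c (c (a (l 16690320) (l 16688592)) (l 16689768)) (a (l 16691288) (l 16689688)))) (b (c (l 16693256) (l 16694656)) (c (l 16686104) (l 16687192)))) (b (c (a (c (a (l 16683096) (l 16681336)) (l 16682368)) (c (l 16678608) (l 16678840))) (a (a (l 16683672) (l 16682032)) (l 16679472))) (a (c (a (c (l 16675656) (l 16675624)) (l 16673848)) (a (l 16675824) (l 16674144))) (c (c (l 16671072) (l 16671144)) (l 16671528))))))), by decide +kernel⟩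

def k18_pm_012_s : ∃ t, chk3 f_pm_012_s t 73 7 1 = true :=
  ⟨(b (b (b (l 3) (b (a (l 3) (b (l 3) (a (l 3) (l 255718326551)))) (a (b (l 3) (a (l 3) (b (l 316384739735) (l 117205634583)))) (b (a (l 229948522519) (l 16778480)) (a (l 16775464) (l 16772840)))))) (b (b (b (a (a (b (l 229948524775) (l 16779312)) (l 16775008)) (l 16770984)) (a (l 16773120) (l 16767736))) (a (b (l 16769840) (l 16766480)) (b (l 16764456) (a (l 16762432) (l 16759792))))) (b (a (b (a (l 16753824) (l 16756288)) (a (l 16760768) (l 16758640))) (b (a (l 16759216) (l 16757160)) (l 16755600))) (a (b (c (l 16757496) (l 16756744)) (l 16754904)) (c (l 16752088) (l 16750952)))))) (a (b (b (b (c (l 16750144) (l 16747752)) (c (l 16742648) (l 16745128))) (b (b (c (l 16736688) (l 16739872)) (c (l 16721616) (l 16735368))) (b (a (l 16708336) (l 16706352)) (c (l 16721360) (l 16724240))))) (b (b (b (l 16727288) (c (l 16709496) (l 16711896))) (b (c (l 16703136) (l 16705280)) (c (l 16696496) (l 16698360)))) (b (b (c (l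 16689584) (l 16691152)) (c (l 16682392) (l 16683648))) (b (c (l 16674952) (l 16675888)) (c (l 16667264) (l 16667864)))))) (b (b (b (c (l 16745480) (l 16745144)) (b (l 16741672) (c (l 16736760) (l 16737976)))) (c (b (b (l 16732680) (l 16727848)) (l 16730488)) (b (l 16725848) (l 16717856)))) (b (b (b (l 16723296) (l 16727632)) (b (l 16700216) (l 16693472))) (b (b (l 16696912) (c (l 16678472) (l 16679880))) (b (c (l 16670992) (l 16672080)) (c (l 16663264) (l 16664016)))))))), by decide +kernel⟩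

def k19_pm_012_s : ∃ t, chk3 f_pm_012_s t 37 14 1 = true :=
  ⟨(b (b (b (a (l 3) (a (b (a (l 3) (l 116131893927)) (a (l 105394475767) (l 16774656))) (b (l 16773400) (l 16770664)))) (a (a (b (l 3) (l 324974674759)) (b (a (l 336785834615) (l 96267670343)) (a (l 83919634151) (l 16774280)))) (a (b (l 16773160) (l 16770288)) (l 16766520)))) (a (b (a (a (b (l 278803775943) (c (l 16776200) (l 16776176))) (b (c (l 16776472) (l 16776448)) (l 16773672))) (b (l 16772656) (l 16769656))) (a (b (l 16771928) (l 16768800)) (l 16765080))) (b (a (l 16765920) (b (l 16762280) (l 16759320))) (a (b (l 16761456) (a (l 16759656) (l 16757288))) (b (a (l 16757696) (l 16755608)) (l 16754168)))))) (b (a (b (a (l 16762720) (b (l 16760320) (a (l 16758552) (l 16756488)))) (a (b (a (l 16760408) (l 16758120)) (a (l 16757696) (l 16755616))) (b (l 16756328) (l 16752600)))) (b (a (b (a (l 16756896) (l 16754752)) (l 16753344)) (c (l 16749712) (l 16749688))) (c (a (l 16748688) (l 16743288)) (a (l 16748800) (l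 16744088))))) (a (b (c (a (l 16753144) (l 16747712)) (a (l 16752216) (l 16747656))) (c (a (l 16746944) (l 16741824)) (a (l 16746168) (l 16741288)))) (b (c (a (l 16742408) (l 16737200)) (a (l 16742904) (l 16737992))) (c (l 16744744) (a (l 16736320) (l 16731208))))))), by decide +kernel⟩

def k20_pm_012_s : ∃ t, chk3 f_pm_012_s t 37 15 1 = true :=
  ⟨(b (b (a (b (c (a (l 16740848) (l 16736168)) (a (l 16739824) (l 16734528))) (a (b (c (l 16736128) (l 16735072)) (l 16718504)) (b (c (l 16731616) (l 16729952)) (l 16729384)))) (b (a (b (l 16733392) (l 16714728)) (b (l 16707816) (l 16726408))) (a (l 16715680) (l 16720384)))) (c (b (a (b (l 16725656) (l 16699944)) (l 16712936)) (a (a (l 16736544) (l 16710856)) (a (l 16705848) (l 16700560)))) (b (a (l 16721616) (l 16716480)) (a (b (l 16719192) (l 16692688)) (l 16706480))))) (c (b (a (b (b (l 16704912) (l 16698968)) (b (l 16692720) (l 16686168))) (b (l 16702744) (b (l 16683192) (l 16676736)))) (a (b (b (l 16679304) (l 16672144)) (b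 (l 16664680) (l 16667384))) (b (b (l 16669960) (l 16662864)) (b (l 16655448) (l 16647704))))) (b (b (a (a (l 16706976) (l 16702464)) (a (l 16697640) (l 16692512))) (a (c (l 16712088) (l 16713424)) (l 16703360))) (a (b (b (l 16681184) (l 16673728)) (b (l 16665944) (l 16657840))) (b (b (l 16671968) (l 16664592)) (b (l 16656872) (l 16648816))))))), by decide +kernel⟩

def k21_pm_012_s : ∃ t, chk3 f_pm_012_s t 19 14 1 = true :=
  ⟨(b (a (b (b (a (a (b (l 16768136) (l 16765480)) (l 16761832)) (a (b (l 16758024) (l 16755440)) (b (a (l 16753888) (l 16751224)) (l 16760528)))) (a (a (l 16761448) (b (l 16757864) (a (l 16756512) (l 16754056)))) (a (b (l 16752752) (l 16750064)) (c (l 16745808) (l 16746480))))) (a (a (b (b (a (l 16758512) (l 16756256)) (a (l 16755960) (l 16753752))) (c (l 16750448) (l 16750536))) (b (c (l 16750936) (l 16751312)) (l 16750680))) (b (a (l 16751120) (c (l 16740160) (l 16741256))) (a (l 16740200) (c (l 16734336) (l 16735888)))))) (b (a (c (b (l 16748656) (l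 16738256)) (b (l 16743856) (l 16738984))) (b (c (l 16733160) (l 16733480)) (a (l 16731016) (l 16725928)))) (b (a (c (l 16732808) (l 16733552)) (a (l 16725920) (l 16720928))) (a (c (l 16727208) (l 16727992)) (a (l 16720632) (l 16715704)))))) (a (b (a (b (c (l 16746824) (a (l 16744984) (l 16740128))) (c (l 16735368) (a (l 16739216) (l 16734224)))) (a (b (l 16734480) (l 16728768)) (b (c (l 16728440) (l 16730056)) (c (l 16722528) (l 16723984))))) (c (a (b (l 16729544) (a (l 16726744) (l 16721368))) (b (a (l 16721904) (c (l 16720984) (l 16717184))) (a (l 16715464) (l 16709032)))) (a (b (l 16735640) (a (l 16726216) (l 16722048))) (b (a (l 16722832) (l 16718816)) (a (l 16718944) (l 16712416)))))) (a (a (b (b (l 16724688) (c (l 16717848) (l 16719160))) (b (c (l 16710928) (l 16713600)) (l 16704200))) (b (b (l 16719984) (b (l 16715608) (l 16711936))) (b (l 16705760) (l 16697792)))) (a (b (b (l 16704464) (l 16707568)) (b (l 16699240) (l 16691288))) (b (b (l 16709232) (l 16700968)) (b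 (l 16692624) (l 16684680))))))), by decide +kernel⟩

def k22_pm_012_s : ∃ t, chk3 f_pm_012_s t 19 15 1 = true :=
  ⟨(b (a (b (b (a (c (l 16729112) (l 16720760)) (a (l 16709384) (a (l 16704400) (l 16701096)))) (a (c (l 16709600) (l 16713168)) (a (l 16701544) (c (l 16693472) (l 16696552))))) (b (a (a (l 16695512) (l 16689336)) (a (l 16672456) (c (l 16685464) (l 16688392)))) (a (c (l 16713064) (l 16695224)) (a (l 16652896) (a (l 16679496) (l 16676248)))))) (b (a (b (c (l 16713400) (l 16673208)) (a (l 16667608) (l 16682288))) (b (c (l 16701448) (l 16680152)) (c (l 16672936) (l 16693360)))) (a (b (a (l 16680544) (l 16674344)) (a (l 16671848) (l 16665808))) (b (a (l 16668024) (l 16661576)) (a (l 16659568) (l 16653208)))))) (a (b (b (a (a (l 16706536) (l 16700824)) (a (l 16673848) (c (l 16666512) (l 16668984)))) (a (b (l 16694712) (l 16688280)) (a (l 16661936) (c (l 16654976) (l 16657088))))) (a (b (b (l 16681496) (l 16674368)) (c (b (l 16645288) (l 16637608)) (l 16663776))) (b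 (a (l 16648600) (c (l 16642032) (l 16643712))) (a (c (l 16633288) (l 16634584)) (c (l 16627664) (l 16628840)))))) (b (a (b (c (l 16669088) (l 16649056)) (c (l 16647672) (l 16648288))) (a (b (l 16650208) (l 16639592)) (b (l 16644016) (l 16633664)))) (b (a (a (l 16637712) (l 16632720)) (a (l 16627488) (l 16622008))) (a (c (a (l 16623352) (l 16619240)) (a (l 16623632) (l 16618432))) (a (c (l 16614880) (l 16613024)) (c (l 16610248) (l 16607400)))))))), by decide +kernel⟩

def k23_pm_012_s : ∃ t, chk3 f_pm_012_s t 20 2 1 = true :=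
  ⟨(b (a (l 3) (l 2)) (b (a (l 3) (b (a (l 3) (b (l 2) (a (a (l 3) (l 16776968)) (a (a (l 16776008) (l 16775032)) (l 16773616))))) (b (a (l 3) (a (a (l 16776504) (l 16775768)) (a (a (l 16774200) (l 16773168)) (l 16771632)))) (a (a (l 3) (c (l 113984429303) (l 16775088))) (a (a (l 16775672) (l 16773344)) (a (a (l 16771712) (l 16749656)) (c (l 16769112) (l 16768816)))))))) (a (b (l 3) (a (l 3) (b (a (l 3) (a (l 3) (c (a (l 156397216215) (l 16782168)) (l 16776328)))) (c (b (a (l 3) (a (l 16779576) (l 16774832))) (a (a (l 3) (l 16776856)) (l 16773688))) (a (l 152639123223) (l 16775008)))))) (b (a (b (a (l 3) (c (a (l 16776704) (l 16775104)) (l 16776472))) (a (c (a (l 175187700279) (l 16776880)) (l 16776272)) (c (a (l 16774072) (l 16771280)) (l 16772776)))) (a (c (a (b (l 16772496) (l 16768744)) (b (l 16770160) (l 16766392))) (a (l 16786496) (l 16784056))) (a (c (a (b (l 16768512) (l 16764648)) (b (l 16746400) (l 16742312))) (a (l 16766536) (l 16775760))) (b (c (a (l 16766032)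 (l 16764680)) (l 16765336)) (c (l 16761056) (l 16761208)))))) (c (b (a (b (a (l 16780432) (l 16769536)) (a (l 16772920) (l 16767344))) (a (a (l 16764648) (l 16762208)) (a (a (l 16760240) (l 16758584)) (l 16756312)))) (a (a (b (l 16770528) (l 16768056)) (a (l 16765192) (l 16762600))) (a (a (l 16760064) (l 16757392)) (a (l 16754240) (l 16756488))))) (a (a (b (l 16774176) (l 16769528)) (b (l 16768696) (l 16764176))) (a (b (a (l 16764848) (l 16762344)) (a (l 16760320) (l 16736720))) (a (a (l 16757984) (l 16756504)) (b (l 16756816) (l 16752040)))))))))), by decide +kernel⟩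

def k24_pm_012_s : ∃ t, chk3 f_pm_012_s t 21 2 1 = true :=
  ⟨(b (l 2) (b (a (b (b (l 2) (l 16765016)) (b (l 16773184) (c (l 16759744) (l 16758976)))) (b (l 2) (b (a (l 16751080) (l 2)) (a (l 16747192) (l 16739544))))) (b (a (b (c (a (l 16759840) (l 16751328)) (l 16755032)) (c (a (l 16755256) (l 16746376)) (l 16750640))) (b (c (l 16760040) (l 16737632)) (c (l 16759688) (l 16732408)))) (c (b (a (b (l 16747208) (l 16744688)) (a (l 16732448) (l 16723616))) (a (b (l 16742160) (l 16739504)) (a (l 16727048) (l 16718016)))) (a (b (l 16746072) (l 16741280)) (b (l 16748320) (a (l 16726896) (l 16717488)))))))), by decide +kernel⟩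

def k25_pm_012_s : ∃ t, chk3 f_pm_012_s t 11 2 1 = true :=
  ⟨(b (l 2) (b (a (b (l 2) (a (b (l 2) (l 16710120)) (l 2))) (l 2)) (b (a (b (a (c (l 16723952) (l 16721592)) (l 16708240)) (a (c (l 16717288) (l 16715344)) (l 16722144))) (a (b (l 2) (l 16686992)) (l 2))) (a (c (a (b (l 16710920) (l 16725760)) (b (l 16695064) (l 16687984))) (a (b (l 16709400) (l 16703688)) (b (l 16692720) (l 16686112)))) (a (b (l 16679152) (l 16692280)) (b (l 16665336) (l 16656808))))))), by decide +kernel⟩

def k26_pm_012_s : ∃ t, chk3 f_pm_012_s t 5 24 1 = true :=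
  ⟨(a (a (a (a (b (a (l 3) (a (l 3) (b (l 3) (c (l 102710121751) (l 16776736))))) (c (b (a (l 3) (a (l 97341412567) (l 16775096))) (a (a (l 3) (l 84993381543)) (c (l 16773416) (l 16773448)))) (a (l 156934088871) (l 16774960)))) (b (c (b (a (a (l 16779456) (l 16775264)) (l 16771040)) (a (l 16773856) (l 16768304))) (a (l 16775272) (l 16769864))) (c (a (b (l 16770968) (l 16767984)) (c (l 16763928) (l 16764096))) (a (l 16769624) (l 16764264))))) (a (a (c (b (c (l 16764064) (l 16764256)) (b (l 16760112) (l 16757192))) (b (l 16764464) (l 16758944))) (c (b (a (l 16760168) (l 16757560)) (b (l 16754752) (l 16751792))) (b (l 16759176) (l 16753664)))) (a (c (b (a (l 16754848) (l 16751928)) (l 16752856)) (b (a (l 16755224) (l 16752472)) (l 16748256))) (c (a (b (l 16748864) (l 16743240)) (b (c (l 16745592) (l 16746240)) (l 16745632))) (a (b (l 16749656) (l 16744168)) (b (l 16746936) (l 16741496))))))) (c (a (a (b (l 16740000) (l 16734360)) (b (l 16730712) (l 16724880))) (a (b (l 16721416)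 (l 16725912)) (b (l 16712208) (l 16706056)))) (a (b (l 16736048) (l 16730448)) (b (l 16737760) (a (l 16715784) (l 16706104)))))) (a (a (c (b (a (l 16703056) (l 16694136)) (a (l 16696800) (l 16687672))) (b (l 16697856) (l 16691808))) (c (b (l 16681128) (l 16674232)) (b (l 16679704) (l 16673192)))) (b (c (a (l 16664664) (l 16649488)) (l 16717352)) (c (a (l 16657088) (l 16640952)) (a (l 16655416) (l 16638632)))))), by decide +kernel⟩

def k27_pm_012_s : ∃ t, chk3 f_pm_012_s t 5 25 1 = true :=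
  ⟨(a (a (a (a (a (b (a (c (b (c (l 16776800) (l 16776808)) (l 16773688)) (l 16775360)) (c (b (l 16774336) (l 16771024)) (l 16772720))) (c (b (l 16768816) (l 16765024)) (l 16766936))) (b (c (b (l 16770304) (l 16767024)) (l 16768744)) (c (b (l 16763480) (l 16759640)) (l 16761664)))) (c (b (a (b (l 16764912) (l 16761688)) (b (l 16759536) (l 16756344))) (a (b (l 16758144) (l 16754296)) (b (l 16752856) (l 16748976)))) (b (a (l 16763496) (l 16758208)) (a (l 16756344) (l 16751080))))) (a (b (a (c (b (l 16754200) (l 16751008)) (l 16752960)) (c (l 16755024) (l 16747656))) (c (b (l 16755272) (l 16740952)) (l 16743224))) (a (b (c (l 16746864) (l 16742344)) (c (l 16734832) (l 16735432))) (c (b (a (l 16737376) (b (l 16736088) (l 16733072))) (a (l 16730728) (b (l 16729784) (l 16726208)))) (b (a (l 16738344) (l 16735712)) (a (l 16731504) (l 16728912))))))) (c (a (b (c (l 16733744) (l 16723968)) (c (l 16716504) (l 16717144))) (b (a (l 16709192) (l 16710136)) (l 16697264))) (a (b (l 16724488)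 (l 16717496)) (a (l 16711264) (b (l 16699800) (l 16692424)))))) (a (c (b (a (c (l 16706288) (l 16685672)) (l 16688208)) (a (c (l 16698768) (l 16678184)) (l 16680328))) (b (a (l 16685320) (l 16666480)) (a (l 16677728) (l 16658608)))) (b (c (a (l 16649520) (l 16632680)) (a (l 16648216) (l 16630824))) (a (c (l 16641256) (l 16640088)) (c (l 16623792) (l 16622176)))))), by decide +kernel⟩

def k28_pm_012_s : ∃ t, chk3 f_pm_012_s t 5 26 1 = true :=
  ⟨(b (a (a (a (a (c (a (b (l 16761008) (l 16756784)) (b (l 16755600) (l 16751352))) (a (l 16758840) (l 16753408))) (c (a (b (l 16750224) (l 16745952)) (l 16742720)) (a (l 16748016) (l 16742704)))) (a (c (a (l 16737376) (l 16732088)) (l 16734880)) (a (c (l 16726736) (l 16726960)) (a (c (b (l 16724856) (l 16720584)) (l 16723056)) (c (a (a (a (l 16721304) (a (l 16721128) (l 16734168))) (l 16720704)) (l 16719752)) (a (a (a (l 16721584) (a (l 16721312) (l 16721112))) (l 16720680)) (l 16719704))))))) (c (a (b (l 16711032) (l 16706808)) (a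 (l 16693968) (l 16684056))) (a (b (l 16711152) (l 16706144)) (l 16688376)))) (a (c (a (l 16669408) (b (l 16652600) (l 16647856))) (a (b (l 16670952) (l 16665888)) (l 16632024))) (a (c (l 16652672) (l 16630232)) (c (l 16613760) (l 16612024))))) (a (a (a (a (a (b (c (l 16752368) (l 16752208)) (c (l 16747840) (l 16747648))) (c (l 16744656) (l 16744472))) (c (b (l 16738808) (l 16734272)) (l 16736336))) (a (c (a (l 16728464) (l 16723112)) (l 16725552)) (a (c (b (l 16720072) (l 16715504)) (l 16717504)) (a (a (b (l 16716816) (l 16712000)) (b (a (l 16715816) (l 16715096)) (l 16710344))) (b (b (l 16714536) (l 16710600)) (c (b (l 16688784) (l 16686152)) (l 16706896))))))) (b (c (a (l 16701976) (l 16681984)) (a (l 16721472) (l 16680080))) (a (c (a (l 16701720) (l 16691512)) (l 16715416)) (c (l 16676536) (l 16673736))))) (a (c (a (b (l 16662360) (l 16657056)) (l 16661520)) (a (l 16657088) (l 16637688))) (c (a (l 16642688) (l 16624296)) (a (l 16618784) (l 16600416)))))), by decide +kernel⟩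

def k29_pm_012_s : ∃ t, chk3 f_pm_012_s t 5 27 1 = true :=
  ⟨(a (a (a (a (b (c (b (l 16740664) (l 16736216)) (b (l 16740488) (l 16736064))) (c (b (l 16731800) (l 16727344)) (l 16729464))) (b (c (b (l 16729792) (l 16725408)) (l 16727296)) (c (b (l 16721072) (l 16716784)) (l 16707984)))) (a (a (b (c (l 16719488) (l 16718984)) (b (l 16712768) (c (l 16708640) (l 16707784)))) (b (c (b (l 16716352) (l 16711936)) (l 16713488)) (b (c (l 16707416) (l 16706408)) (c (l 16702488) (l 16701032))))) (a (b (a (b (l 16712152) (c (l 16707760) (l 16706800))) (b (c (l 16709552) (l 16708736)) (l 16704032))) (c (l 16698304) (l 16696216))) (b (b (a (l 16705784) (c (b (l 16683456) (l 16685928)) (l 16700856))) (a (l 16710616) (c (b (l 16680480) (l 16676776)) (l 16673640)))) (b (a (l 16694232) (c (b (l 16713976) (l 16710984)) (l 16709160))) (a (l 16688112) (c (b (l 16707944) (l 16704856)) (l 16702560)))))))) (a (b (c (b (l 16711888) (l 16706008)) (b (l 16708944) (l 16702416))) (c (b (l 16699928)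 (l 16698912)) (b (l 16695728) (l 16688904)))) (a (b (c (l 16672752) (l 16668872)) (c (l 16660216) (l 16654896))) (c (b (l 16662792) (l 16650136)) (b (l 16658584) (l 16644344)))))) (a (b (a (c (b (l 16651336) (l 16645216)) (b (l 16647240) (l 16640192))) (c (l 16650328) (l 16624464))) (a (c (b (l 16638832) (l 16632280)) (b (l 16632928) (l 16625536))) (c (a (l 16621376) (l 16612168)) (a (l 16614632) (l 16605216))))) (c (a (b (l 16610752) (l 16598480)) (b (l 16592528) (l 16580520))) (a (b (l 16605648) (l 16591264)) (b (l 16587352) (l 16573088)))))), by decide +kernel⟩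

def k30_pm_012_s : ∃ t, chk3 f_pm_012_s t 40 14 1 = true :=
  ⟨(b (b (b (a (c (l 16722856) (l 16722832)) (a (l 16714928) (c (l 16709720) (l 16709032)))) (a (l 16707736) (a (c (l 16710392) (l 16709912)) (c (l 16704472) (l 16703440))))) (a (b (a (l 16715896) (l 16699984)) (a (l 16710184) (l 16703832))) (b (a (l 16699016) (l 16697288)) (a (l 16696944) (l 16710872))))) (b (a (a (b (l 16702704) (l 16673320)) (b (l 16674968) (l 16687504))) (a (b (l 16689024) (l 16680576)) (b (l 16681944) (l 16673496)))) (a (a (b (l 16685912) (l 16677968)) (b (l 16679096) (l 16671136))) (a (b (l 16672160) (l 16664176)) (b (l 16665064) (l 16657064)))))), by decide +kernel⟩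

def k31_pm_012_s : ∃ t, chk3 f_pm_012_s t 41 14 1 = true :=
  ⟨(b (a (b (a (b (c (l 16703728) (l 16702496)) (l 16696992)) (b (l 16701280) (l 16710624))) (b (a (l 16711088) (l 16682648)) (c (l 16701328) (l 16698024)))) (a (b (b (c (l 16689688) (l 16686776)) (l 16702736)) (b (l 16695576) (l 16666928))) (b (a (b (l 16681768) (l 16674992)) (c (a (a (a (l 16677448) (b (l 16679728) (l 16673024))) (l 16675416)) (l 16674392)) (b (b (l 16676536) (l 16673072)) (b (l 16669496) (l 16686752))))) (a (b (l 16667664) (l 16659848)) (c (a (a (a (l 16663168) (b (l 16665800) (l 16658104))) (l 16660960)) (l 16659944)) (b (b (l 16682904) (l 16678944)) (b (l 16674856) (l 16670664)))))))) (a (b (a (b (l 16674648) (l 16666184)) (b (l 16667032) (l 16658528))) (b (a (l 16657744) (l 16650096)) (a (l 16654984) (l 16652552)))) (a (b (b (l 16679752) (l 16671192)) (b (a (l 16644040) (l 16639640)) (a (l 16636008) (l 16631608)))) (b (a (b (l 16651592) (l 16642952)) (a (a (a (b (l 16648272) (l 16639576))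 (b (c (l 16649992) (l 16643720)) (c (l 16641504) (l 16634744)))) (b (l 16645832) (l 16637088))) (b (l 16644792) (l 16636056)))) (a (b (l 16634424) (l 16626368)) (a (a (a (l 16647872) (b (c (l 16633144) (l 16625936)) (c (l 16625240) (l 16617648)))) (b (l 16628488) (l 16620384))) (b (l 16627472) (l 16619376)))))))), by decide +kernel⟩

def k32_pm_012_s : ∃ t, chk3 f_pm_012_s t 21 14 1 = true :=
  ⟨(b (b (b (a (c (a (l 16671656) (l 16660920)) (l 16687232)) (c (l 16645320) (l 16638752))) (a (a (c (l 16664888) (l 16659432)) (l 16672144)) (c (l 16638400) (l 16631192)))) (a (a (b (c (l 16657688) (l 16651728)) (c (l 16650024) (l 16643560))) (b (c (l 16646928) (l 16640176)) (l 16656816))) (c (b (l 16652160) (l 16644536)) (b (l 16623360) (l 16615128))))) (b (a (b (c (a (l 16641952) (l 16631376)) (a (l 16634984) (l 16623552))) (c (a (l 16633528) (l 16623056)) (a (l 16626056) (l 16614696)))) (b (c (l 16636648) (l 16627616)) (c (l 16607520) (l 16597912)))) (a (a (b (a (l 16624080) (l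 16618664)) (l 16634328)) (b (l 16631568) (l 16602696))) (b (a (l 16599912) (l 16589336)) (a (l 16592128) (l 16581656)))))), by decide +kernel⟩

def k33_pm_012_s : ∃ t, chk3 f_pm_012_s t 11 14 1 = true :=
  ⟨(b (b (a (a (c (b (l 16625400) (l 16618320)) (b (l 16617848) (l 16610000))) (c (a (l 16607608) (l 16598312)) (a (l 16599072) (l 16589448)))) (a (c (l 16616248) (l 16606952)) (c (l 16567240) (l 16557576)))) (a (a (c (b (l 16610904) (l 16603200)) (b (l 16601840) (l 16593424))) (c (a (l 16592488) (l 16583112)) (a (l 16582272) (l 16572424)))) (c (a (b (l 16573568) (l 16565648)) (l 16552184)) (a (b (l 16562752) (l 16553848)) (l 16540264))))) (a (a (b (c (b (l 16595320) (l 16587168)) (b (l 16584872) (l 16576048))) (b (a (l 16578880) (l 16568536)) (c (l 16572056) (l 16559816)))) (b (c (b (l 16575784) (l 16567568)) (b (l 16564112) (l 16555136))) (c (b (l 16559752) (l 16552512)) (a (l 16547760) (l 16537504))))) (b (a (c (b (l 16557376) (l 16549056)) (b (l 16544600) (l 16535360)))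 (c (b (l 16539992) (l 16531624)) (b (l 16526408) (l 16516968)))) (a (c (b (l 16541096) (l 16533840)) (b (l 16526560) (l 16518560))) (c (b (l 16523488) (l 16516160)) (b (l 16507800) (l 16499568))))))), by decide +kernel⟩

def k34_pm_012_s : ∃ t, chk3 f_pm_012_s t 40 15 1 = true :=
  ⟨(b (b (a (b (a (l 16670296) (l 16663480)) (a (l 16662712) (l 16655928))) (b (a (l 16656528) (l 16649400)) (a (l 16649000) (l 16641888)))) (a (a (b (l 16654992) (l 16646720)) (b (l 16648264) (l 16640072))) (b (a (l 16641384) (l 16644800)) (a (l 16643744) (c (l 16628840) (l 16623576)))))) (b (a (b (a (l 16637608) (l 16631064)) (a (l 16627568) (c (l 16623200) (l 16619184)))) (b (a (c (l 16626648) (l 16621992)) (c (l 16620160) (l 16614616))) (a (c (l 16617032) (l 16612080)) (c (l 16610664) (l 16604824))))) (a (b (a (c (l 16617968) (l 16614568)) (c (l 16612336) (l 16607984))) (a (c (l 16605352) (l 16601528)) (c (l 16600160) (l 16595416)))) (b (a (c (l 16606480) (l 16601208)) (c (l 16600296) (l 16594136)))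 (a (c (l 16594664) (l 16589016)) (b (l 16588632) (l 16582472))))))), by decide +kernel⟩

def k35_pm_012_s : ∃ t, chk3 f_pm_012_s t 41 15 1 = true :=
  ⟨(b (a (b (b (a (l 16642048) (l 16634360)) (a (l 16634544) (l 16637336))) (b (a (l 16637488) (l 16629816)) (a (c (l 16621992) (l 16615880)) (c (l 16614768) (l 16607832))))) (a (b (b (a (l 16628296) (l 16623872)) (a (l 16620768) (l 16616336))) (b (a (l 16613256) (l 16608824)) (a (l 16605328) (l 16600912)))) (b (a (b (l 16639584) (l 16611048)) (a (a (a (l 16632304) (b (l 16634712) (l 16606152))) (b (l 16612592) (l 16604992))) (b (l 16611600) (l 16604008)))) (a (b (l 16624504) (c (l 16599744) (l 16591360))) (a (a (a (b (l 16600056) (l 16592168)) (b (l 16598616) (l 16590728))) (l 16593512)) (l 16592536)))))) (a (b (b (a (c (l 16613400) (l 16607000)) (c (l 16606248) (l 16599032))) (a (c (l 16604008) (l 16597312)) (c (l 16596968) (l 16589448)))) (b (a (c (l 16593760) (l 16586744)) (c (l 16586856) (l 16579016))) (a (c (l 16582568)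 (l 16575208)) (b (l 16574720) (l 16568888))))) (a (b (b (a (l 16596712) (l 16592336)) (a (l 16587360) (l 16583024))) (b (a (l 16577184) (l 16572928)) (a (l 16566136) (l 16561960)))) (b (a (b (c (l 16591336) (l 16582680)) (c (l 16582224) (l 16573288))) (a (a (a (b (l 16583640) (l 16574424)) (b (l 16603176) (c (l 16577552) (l 16568288)))) (l 16597472)) (b (l 16580088) (l 16570904)))) (a (b (c (l 16572352) (l 16563120)) (c (l 16561656) (l 16552104))) (a (a (a (b (l 16564448) (l 16553656)) (b (c (l 16567744) (l 16558192)) (c (l 16557136) (l 16547280)))) (b (l 16561920) (l 16551184))) (b (l 16560984) (l 16550264)))))))), by decide +kernel⟩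

def k36_pm_012_s : ∃ t, chk3 f_pm_012_s t 21 15 1 = true :=
  ⟨(b (b (a (b (a (l 16626608) (l 16595144)) (a (l 16598120) (l 16587720))) (b (a (l 16584696) (l 16574344)) (c (l 16577872) (l 16566472)))) (a (b (a (l 16590608) (l 16580312)) (a (l 16582768) (l 16572520))) (b (a (l 16570144) (l 16560096)) (a (l 16562456) (l 16552520))))) (b (a (b (a (l 16574312) (l 16564144)) (a (l 16565208) (l 16555144))) (b (a (l 16554144) (l 16544328)) (a (l 16545232) (l 16535472)))) (a (b (a (l 16555376) (l 16545464)) (a (l 16544768) (l 16535032))) (b (a (l 16535664) (l 16526000)) (a (l 16525384) (l 16515848)))))), by decide +kernel⟩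

def k37_pm_012_s : ∃ t, chk3 f_pm_012_s t 11 15 1 = true :=
  ⟨(a (b (b (a (c (b (l 16565144) (l 16558424)) (b (l 16552440) (l 16545296))) (a (c (l 16547264) (l 16533176)) (c (l 16558720) (l 16522856)))) (a (b (c (l 16551696) (l 16538168)) (c (l 16544568) (l 16530656))) (c (b (l 16553824) (a (l 16530600) (l 16521440))) (b (l 16517680) (l 16510408))))) (b (a (b (a (l 16534624) (l 16525048)) (a (l 16525904) (l 16516448))) (a (b (l 16515528) (l 16507112)) (b (c (l 16514072) (l 16497544)) (c (l 16506056) (l 16489056))))) (a (b (a (l 16516504) (l 16507184)) (a (l 16506456) (l 16497208))) (a (b (c (l 16505992) (l 16489480)) (c (l 16496400) (l 16479424))) (b (c (l 16497368) (l 16479872)) (c (l 16487936) (l 16469936))))))) (b (b (a (c (b (l 16527184) (l 16520792)) (b (l 16511248) (l 16504248))) (c (b (l 16509392) (l 16503016)) (b (l 16491976) (l 16484840)))) (a (c (b (l 16514552) (l 16508032)) (b (l 16497440) (l 16490368))) (c (b (l 16496888) (a (l 16494792) (l 16486160))) (b (l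 16478008) (l 16470880))))) (b (b (a (c (a (l 16505264) (l 16496536)) (l 16482672)) (c (a (l 16487888) (l 16479320)) (l 16484272))) (a (c (a (l 16497432) (l 16488872)) (l 16474344)) (a (a (l 16472776) (l 16468304)) (l 6)))) (a (b (c (a (l 16488944) (l 16480568)) (a (l 16470152) (l 16460552))) (c (a (l 16479744) (l 16471584)) (a (l 16460384) (l 16450912)))) (a (a (b (l 16464256) (l 6)) (l 6)) (l 6)))))), by decide +kernel⟩

def k38_pm_012_s : ∃ t, chk3 f_pm_012_s t 6 2 1 = true :=
  ⟨(b (l 2) (b (l 2) (a (b (l 2) (a (b (l 2) (a (l 16643376) (l 2))) (l 2))) (l 2)))), by decide +kernel⟩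

def k39_pm_012_s : ∃ t, chk3 f_pm_012_s t 6 6 1 = true :=
  ⟨(a (b (b (b (a (a (l 16634144) (l 16621080)) (l 2)) (a (a (l 16624920) (l 16611136)) (a (l 16598432) (l 2)))) (a (c (b (a (l 16616864) (l 16602320)) (a (l 16607232) (l 16591704))) (b (l 16627728) (l 16618128))) (b (a (l 16587776) (l 16575416)) (a (l 16576440) (l 16563304))))) (b (a (b (c (a (l 16596520) (l 16580192)) (l 16607008)) (c (a (l 16585504) (l 16568320)) (a (l 16582616) (l 16565416)))) (c (b (a (l 16564904) (l 16550856)) (a (l 16552056) (l 16536840))) (b (l 16554888) (a (l 16549104) (l 16533816))))) (c (a (b (a (l 16574736) (l 16557424)) (a (l 16562944) (l 16545800))) (b (a (l 16540624) (l 16524560)) (a (l 16529144) (l 16513008)))) (a (b (a (l 16569600) (l 16552424)) (a (l 16555448) (l 16538352))) (b (a (l 16535816) (l 16520032)) (a (l 16521840) (l 16505928))))))) (a (a (b (b (l 2) (b (l 2) (l 16551264))) (b (b (l 16537096) (l 16522056)) (b (c (l 16509360) (l 16505168)) (l 6)))) (b (l 2) (l 6))) (l 6))),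 by decide +kernel⟩

def k40_pm_012_s : ∃ t, chk3 f_pm_012_s t 6 7 1 = true :=
  ⟨(b (a (b (a (c (b (a (l 16549952) (l 16533056)) (a (l 16535328) (l 16518744))) (b (a (l 16540088) (l 16523120)) (a (l 16523048) (l 16506264)))) (a (c (b (l 16516600) (l 16502560)) (b (l 16506720) (l 16490000))) (b (c (l 16500624) (l 16490920)) (l 6)))) (a (b (a (c (l 16560952) (l 16525248)) (c (l 16502880) (l 16487792))) (c (a (b (l 16506864) (l 16499512)) (b (l 16490952) (l 16483600))) (a (b (l 16490384) (l 16481976)) (b (l 16473960) (l 16465400))))) (a (b (c (l 16487032) (l 16471720)) (l 6)) (l 6)))) (l 6)) (a (a (b (b (b (a (c (l 16492592) (l 16474056)) (c (l 16476768) (l 16457424))) (a (c (l 16486168) (l 16466704)) (l 6))) (a (b (c (l 16479960) (l 16459624)) (a (c (l 16477704) (l 16456888)) (l 6))) (l 6))) (l 6)) (l 6)) (l 6))), by decide +kernel⟩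

def k41_pm_012_s : ∃ t, chk3 f_pm_012_s t 7 1 1 = true :=
  ⟨(b (l 2) (l 6)), by decide +kernel⟩

theorem s42_pm_012_s : ∃ t, chk3 f_pm_012_s t 6 3 1 = true := ex3_b k39_pm_012_s k40_pm_012_s

theorem s43_pm_012_s : ∃ t, chk3 f_pm_012_s t 6 1 1 = true := ex3_b k38_pm_012_s s42_pm_012_s

theorem s44_pm_012_s : ∃ t, chk3 f_pm_012_s t 3 1 1 = true := ex3_a s43_pm_012_s k41_pm_012_s

theorem s45_pm_012_s : ∃ t, chk3 f_pm_012_s t 20 15 1 = true := ex3_a k34_pm_012_s k35_pm_012_s

theorem s46_pm_012_s : ∃ t, chk3 f_pm_012_s t 10 15 1 = true := ex3_a s45_pm_012_s k36_pm_012_s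

theorem s47_pm_012_s : ∃ t, chk3 f_pm_012_s t 5 15 1 = true := ex3_a s46_pm_012_s k37_pm_012_s

theorem s48_pm_012_s : ∃ t, chk3 f_pm_012_s t 20 14 1 = true := ex3_a k30_pm_012_s k31_pm_012_s

theorem s49_pm_012_s : ∃ t, chk3 f_pm_012_s t 10 14 1 = true := ex3_a s48_pm_012_s k32_pm_012_s

theorem s50_pm_012_s : ∃ t, chk3 f_pm_012_s t 5 14 1 = true := ex3_a s49_pm_012_s k33_pm_012_s

theorem s51_pm_012_s : ∃ t, chk3 f_pm_012_s t 5 7 1 = true := ex3_b s50_pm_012_s s47_pm_012_s

theorem s52_pm_012_s : ∃ t, chk3 f_pm_012_s t 5 13 1 = true := ex3_b k28_pm_012_s k29_pm_012_s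

theorem s53_pm_012_s : ∃ t, chk3 f_pm_012_s t 5 12 1 = true := ex3_b k26_pm_012_s k27_pm_012_s

theorem s54_pm_012_s : ∃ t, chk3 f_pm_012_s t 5 6 1 = true := ex3_b s53_pm_012_s s52_pm_012_s

theorem s55_pm_012_s : ∃ t, chk3 f_pm_012_s t 5 3 1 = true := ex3_b s54_pm_012_s s51_pm_012_s

theorem s56_pm_012_s : ∃ t, chk3 f_pm_012_s t 10 2 1 = true := ex3_a k23_pm_012_s k24_pm_012_s

theorem s57_pm_012_s : ∃ t, chk3 f_pm_012_s t 5 2 1 = true := ex3_a s56_pm_012_s k25_pm_012_s

theorem s58_pm_012_s : ∃ t, chk3 f_pm_012_s t 5 1 1 = true := ex3_b s57_pm_012_s s55_pm_012_s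

theorem s59_pm_012_s : ∃ t, chk3 f_pm_012_s t 19 7 1 = true := ex3_b k21_pm_012_s k22_pm_012_s

theorem s60_pm_012_s : ∃ t, chk3 f_pm_012_s t 37 7 1 = true := ex3_b k19_pm_012_s k20_pm_012_s

theorem s61_pm_012_s : ∃ t, chk3 f_pm_012_s t 72 7 1 = true := ex3_b k16_pm_012_s k17_pm_012_s

theorem s62_pm_012_s : ∃ t, chk3 f_pm_012_s t 36 7 1 = true := ex3_a s61_pm_012_s k18_pm_012_s

theorem s63_pm_012_s : ∃ t, chk3 f_pm_012_s t 18 7 1 = true := ex3_a s62_pm_012_s s60_pm_012_s

theorem s64_pm_012_s : ∃ t, chk3 f_pm_012_s t 9 7 1 = true := ex3_a s63_pm_012_s s59_pm_012_s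

theorem s65_pm_012_s : ∃ t, chk3 f_pm_012_s t 34 62 1 = true := ex3_a k12_pm_012_s k13_pm_012_s

theorem s66_pm_012_s : ∃ t, chk3 f_pm_012_s t 17 62 1 = true := ex3_a s65_pm_012_s k14_pm_012_s

theorem s67_pm_012_s : ∃ t, chk3 f_pm_012_s t 17 31 1 = true := ex3_b s66_pm_012_s k15_pm_012_s

theorem s68_pm_012_s : ∃ t, chk3 f_pm_012_s t 35 30 1 = true := ex3_b k10_pm_012_s k11_pm_012_s

theorem s69_pm_012_s : ∃ t, chk3 f_pm_012_s t 34 61 1 = true := ex3_b k8_pm_012_s k9_pm_012_s

theorem s70_pm_012_s : ∃ t, chk3 f_pm_012_s t 34 30 1 = true := ex3_b k7_pm_012_s s69_pm_012_s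

theorem s71_pm_012_s : ∃ t, chk3 f_pm_012_s t 17 30 1 = true := ex3_a s70_pm_012_s s68_pm_012_s

theorem s72_pm_012_s : ∃ t, chk3 f_pm_012_s t 17 15 1 = true := ex3_b s71_pm_012_s s67_pm_012_s

theorem s73_pm_012_s : ∃ t, chk3 f_pm_012_s t 8 15 1 = true := ex3_a k6_pm_012_s s72_pm_012_s

theorem s74_pm_012_s : ∃ t, chk3 f_pm_012_s t 8 7 1 = true := ex3_b k5_pm_012_s s73_pm_012_s

theorem s75_pm_012_s : ∃ t, chk3 f_pm_012_s t 4 7 1 = true := ex3_a s74_pm_012_s s64_pm_012_s

theorem s76_pm_012_s : ∃ t, chk3 f_pm_012_s t 19 6 1 = true := ex3_b k3_pm_012_s k4_pm_012_s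

theorem s77_pm_012_s : ∃ t, chk3 f_pm_012_s t 9 6 1 = true := ex3_a k2_pm_012_s s76_pm_012_s

theorem s78_pm_012_s : ∃ t, chk3 f_pm_012_s t 4 6 1 = true := ex3_a k1_pm_012_s s77_pm_012_s

theorem s79_pm_012_s : ∃ t, chk3 f_pm_012_s t 4 3 1 = true := ex3_b s78_pm_012_s s75_pm_012_s

theorem s80_pm_012_s : ∃ t, chk3 f_pm_012_s t 4 1 1 = true := ex3_b k0_pm_012_s s79_pm_012_s

theorem s81_pm_012_s : ∃ t, chk3 f_pm_012_s t 2 1 1 = true := ex3_a s80_pm_012_s s58_pm_012_s

theorem s82_pm_012_s : ∃ t, chk3 f_pm_012_s t 1 1 1 = true := ex3_a s81_pm_012_s s44_pm_012_s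

theorem c_pm_012_s : CertNE 0 536870912 536870912 536870912 780900216 37827925 3 eng mog cd0q0 cd0q1 pd2 true true false .pnp 0 1 2
    ndB0q0 ndB0q1 pcB2 cut_pm_012_s Ext.none :=
  certNE2 (fam := true) (s1 := true) (s2 := false) (a := 0) (b := 1) (c := 2) (cn := .pnp) (n1 := ndB0q0) (n2 := ndB0q1) (pc := pcB2) (cut := cut_pm_012_s) (xt := Ext.none) (P1 := 0) (W1 := 536870912) (P2 := 536870912) (W2 := 536870912) (P3 := 780900216) (W3 := 37827925) (N0 := 3) (En := eng) (mo := mog) (C1 := cd0q0) (C2 := cd0q1) (C3 := pd2)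
    rfl (fun _ => rfl) s82_pm_012_s

noncomputable def cut_pm_012_t : Cut := Cut.of [[⟨3, 0, 0, 2845415833⟩], [⟨0, 0, 0, 67108864⟩, ⟨1, 1, 0, 67108864⟩, ⟨2, 1, 0, 67108864⟩]]

noncomputable def f_pm_012_t : ℕ → ℕ → ℕ → ℕ → Bool := onCell 0 536870912 536870912 536870912 780900216 37827925
    (rowNE 3 eng mog cd0q0 cd0q1 pd2 0 true true false .pnp 0 1 2 (qsf 0 536870912 536870912 536870912 2) ndB0q0 ndB0q1 pcB2 cut_pm_012_t Ext.none)

def k0_pm_012_t : ∃ t, chk3 f_pm_012_t t 1 1 1 = true :=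
  ⟨(l 6), by decide +kernel⟩

theorem c_pm_012_t : CertNE 0 536870912 536870912 536870912 780900216 37827925 3 eng mog cd0q0 cd0q1 pd2 true true false .pnp 0 1 2
    ndB0q0 ndB0q1 pcB2 cut_pm_012_t Ext.none :=
  certNE0 (fam := true) (s1 := true) (s2 := false) (a := 0) (b := 1) (c := 2) (cn := .pnp) (n1 := ndB0q0) (n2 := ndB0q1) (pc := pcB2) (cut := cut_pm_012_t) (xt := Ext.none) (P1 := 0) (W1 := 536870912) (P2 := 536870912) (W2 := 536870912) (P3 := 780900216) (W3 := 37827925) (N0 := 3) (En := eng) (mo := mog) (C1 := cd0q0) (C2 := cd0q1) (C3 := pd2)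
    rfl k0_pm_012_t

noncomputable def cut_pm_022_s : Cut := Cut.of [[⟨4, 0, 0, 1449551462⟩], [⟨0, 0, 0, 67108864⟩, ⟨1, 1, 0, 67108864⟩, ⟨2, 1, 0, 67108864⟩]]

noncomputable def f_pm_022_s : ℕ → ℕ → ℕ → ℕ → Bool := onCell 1073741824 536870912 0 536870912 780900216 37827925
    (rowNE 3 eng mog cd0q0 cd0q2 pd2 2 true true false .pp 0 2 2 (qsf 0 536870912 0 536870912 2) ndB0q0 ndB0q2 pcB2 cut_pm_022_s Ext.none)

def k0_pm_022_s : ∃ t, chk3 f_pm_022_s t 8 1 1 = true :=
  ⟨(b (l 1) (b (l 1) (b (a (l 1) (b (a (l 1) (a (l 1) (b (l 1) (b (l 16609768) (l 16621128))))) (a (l 14) (a (l 14) (a (l 14) (a (l 14) (b (l 16638328) (l 16659048)))))))) (a (l 14) (a (l 14) (a (l 14) (a (l 14) (a (l 14) (b (b (l 16679392) (l 16686096)) (b (b (l 16683784) (l 16681664)) (b (l 16679064) (b (l 16676784) (c (l 16675072) (l 16675264)))))))))))))), by decide +kernel⟩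

def k1_pm_022_s : ∃ t, chk3 f_pm_022_s t 9 2 1 = true :=
  ⟨(l 6), by decide +kernel⟩

def k2_pm_022_s : ∃ t, chk3 f_pm_022_s t 9 6 1 = true :=
  ⟨(a (b (l 1) (b (a (l 1) (b (l 16542632) (a (l 16537464) (l 16542288)))) (a (a (l 1) (b (l 16553064) (l 16574272))) (b (a (l 16556896) (l 16560632)) (a (l 16576896) (l 16579496)))))) (b (l 6) (b (a (b (a (l 16530176) (l 6)) (a (l 16546920) (l 16551216))) (l 6)) (a (a (b (l 16564240) (l 16582056)) (b (l 16567608) (l 16584448))) (b (l 16564840) (l 16559768)))))), by decide +kernel⟩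

def k3_pm_022_s : ∃ t, chk3 f_pm_022_s t 9 7 1 = true :=
  ⟨(b (a (b (a (a (b (l 18286844935) (b (l 16611336) (l 16622128))) (b (l 16616784) (l 16616784))) (b (a (l 16597192) (l 16598632)) (a (l 16637888) (l 16617192)))) (a (b (a (b (l 16632600) (l 16642808)) (l 16636440)) (a (b (l 16652784) (l 16662584)) (l 16655072))) (b (a (l 16635352) (l 16634488)) (a (l 16652776) (l 16650784))))) (a (b (a (b (l 16600104) (l 16617576)) (l 16588968)) (a (b (l 16633808) (l 16642720)) (b (l 16630664) (l 16632320)))) (b (b (l 16596792) (l 16612280)) (b (l 16620736) (l 16621960))))) (a (a (b (a (b (l 16656272) (c (l 16657664) (l 16682400))) (b (l 16672840) (c (l 16669968) (l 16674016)))) (b (c (a (b (l 16676968) (l 16675304)) (l 16688864)) (a (l 16678632) (l 16670640))) (b (a (c (a (l 16675072) (l 16671232)) (l 16674528)) (c (l 16665152) (l 16666824))) (a (a (b (c (l 16673120) (l 16673800)) (c (b (l 16672040) (l 16676528)) (l 16671952))) (b (l 16669712) (c (l 16667952) (l 16668424)))) (c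 (b (l 16663384) (l 16672536)) (b (l 16664488) (l 16662760))))))) (b (b (c (l 16656072) (l 16661568)) (a (l 16620896) (l 16636272))) (b (c (b (l 16675936) (l 16674720)) (a (l 16662008) (l 16652824))) (b (a (l 16657368) (l 16648216)) (a (c (l 16669968) (l 16676384)) (c (l 16645024) (l 16646360))))))) (b (a (b (a (l 16643688) (l 16633320)) (a (l 16622368) (c (l 16630904) (l 16635416)))) (b (l 16622424) (a (l 16624960) (l 16617848)))) (a (b (a (c (l 16639744) (l 16642992)) (c (l 16629288) (l 16632504))) (a (b (l 16638344) (c (l 16635048) (l 16636472))) (a (b (l 16630408) (l 16627584)) (b (l 16624968) (l 16643000))))) (b (a (l 16622264) (l 16614312)) (a (b (l 16618640) (c (l 16615528) (l 16615424))) (b (l 16610008) (a (l 16608648) (l 16603856))))))))), by decide +kernel⟩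

def k4_pm_022_s : ∃ t, chk3 f_pm_022_s t 5 1 1 = true :=
  ⟨(b (l 6) (b (a (a (b (l 6) (a (b (l 6) (l 16565856)) (l 6))) (l 6)) (l 6)) (a (a (b (b (a (l 16595640) (a (l 16589608) (a (l 16587120) (l 16586104)))) (a (l 16609288) (a (l 16598824) (a (l 16592624) (l 16608440))))) (a (b (b (l 16587272) (a (l 16610008) (l 16601352))) (b (a (l 16605552) (l 16595864)) (a (b (l 16600496) (a (l 16598832) (l 16593544))) (b (l 16589944) (a (l 16587976) (l 16582096)))))) (b (a (b (l 16595712) (l 16591576)) (a (l 16564888) (a (l 16580848) (b (l 16580120) (l 16573992))))) (b (a (l 16584896) (a (l 16575448) (a (l 16569488) (l 16565168)))) (a (b (l 16578000) (a (l 16575840) (l 16569064))) (a (b (l 16567720) (l 16572008)) (a (b (l 16561240) (l 16554744)) (a (a (a (l 16554944) (b (l 16556896) (l 16550192))) (l 16552592)) (l 16551712))))))))) (b (b (l 16576016) (a (l 16578960) (l 16566200))) (b (b (a (l 16571712) (l 16556800)) (a (l 16564360) (l 16548040))) (b (a (l 16554496) (l 16536672)) (a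 (b (l 16545296) (a (l 16542864) (l 16533344))) (b (l 16526672) (a (l 16523888) (l 16514528)))))))) (b (l 6) (b (a (a (b (l 16541024) (l 16531200)) (l 6)) (l 6)) (a (b (a (l 16519128) (a (l 16506232) (l 6))) (a (b (l 16508544) (a (l 16505280) (l 16496168))) (a (b (l 16495272) (l 16487216)) (b (l 16486648) (c (l 16486992) (l 16469368)))))) (b (l 6) (a (b (l 6) (a (l 16490760) (l 6))) (l 6))))))))), by decide +kernel⟩

def k5_pm_022_s : ∃ t, chk3 f_pm_022_s t 3 1 1 = true :=
  ⟨(b (l 6) (l 6)), by decide +kernel⟩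

theorem s6_pm_022_s : ∃ t, chk3 f_pm_022_s t 9 3 1 = true := ex3_b k2_pm_022_s k3_pm_022_s

theorem s7_pm_022_s : ∃ t, chk3 f_pm_022_s t 9 1 1 = true := ex3_b k1_pm_022_s s6_pm_022_s

theorem s8_pm_022_s : ∃ t, chk3 f_pm_022_s t 4 1 1 = true := ex3_a k0_pm_022_s s7_pm_022_s

theorem s9_pm_022_s : ∃ t, chk3 f_pm_022_s t 2 1 1 = true := ex3_a s8_pm_022_s k4_pm_022_s

theorem s10_pm_022_s : ∃ t, chk3 f_pm_022_s t 1 1 1 = true := ex3_a s9_pm_022_s k5_pm_022_s

theorem c_pm_022_s : CertNE 0 536870912 0 536870912 780900216 37827925 3 eng mog cd0q0 cd0q2 pd2 true true false .pp 0 2 2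
    ndB0q0 ndB0q2 pcB2 cut_pm_022_s Ext.none :=
  certNE2 (fam := true) (s1 := true) (s2 := false) (a := 0) (b := 2) (c := 2) (cn := .pp) (n1 := ndB0q0) (n2 := ndB0q2) (pc := pcB2) (cut := cut_pm_022_s) (xt := Ext.none) (P1 := 0) (W1 := 536870912) (P2 := 0) (W2 := 536870912) (P3 := 780900216) (W3 := 37827925) (N0 := 3) (En := eng) (mo := mog) (C1 := cd0q0) (C2 := cd0q2) (C3 := pd2)
    rfl (fun _ => rfl) s10_pm_022_s

noncomputable def cut_pm_022_t : Cut := Cut.of [[⟨3, 0, 0, 2845415833⟩], [⟨0, 0, 0, 67108864⟩, ⟨1, 1, 0, 67108864⟩, ⟨2, 1, 0, 67108864⟩]]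

noncomputable def f_pm_022_t : ℕ → ℕ → ℕ → ℕ → Bool := onCell 1073741824 536870912 0 536870912 780900216 37827925
    (rowNE 3 eng mog cd0q0 cd0q2 pd2 2 true true false .pp 0 2 2 (qsf 0 536870912 0 536870912 2) ndB0q0 ndB0q2 pcB2 cut_pm_022_t Ext.none)

def k0_pm_022_t : ∃ t, chk3 f_pm_022_t t 1 1 1 = true :=
  ⟨(a (l 6) (b (l 6) (l 6))), by decide +kernel⟩

theorem c_pm_022_t : CertNE 0 536870912 0 536870912 780900216 37827925 3 eng mog cd0q0 cd0q2 pd2 true true false .pp 0 2 2
    ndB0q0 ndB0q2 pcB2 cut_pm_022_t Ext.none :=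
  certNE2 (fam := true) (s1 := true) (s2 := false) (a := 0) (b := 2) (c := 2) (cn := .pp) (n1 := ndB0q0) (n2 := ndB0q2) (pc := pcB2) (cut := cut_pm_022_t) (xt := Ext.none) (P1 := 0) (W1 := 536870912) (P2 := 0) (W2 := 536870912) (P3 := 780900216) (W3 := 37827925) (N0 := 3) (En := eng) (mo := mog) (C1 := cd0q0) (C2 := cd0q2) (C3 := pd2)
    rfl (fun _ => rfl) k0_pm_022_t

noncomputable def cut_pm_023_s : Cut := Cut.of [[⟨4, 0, 0, 1449551462⟩]]

noncomputable def f_pm_023_s : ℕ → ℕ → ℕ → ℕ → Bool := onCell 1610612736 536870912 0 536870912 780900216 37827925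
    (rowNE 3 eng mog cd0q0 cd0q2 pd3 2 true true false .up 0 2 3 (qsf 0 536870912 0 536870912 3) ndB0q0 ndB0q2 pcB3 cut_pm_023_s Ext.none)

def k0_pm_023_s : ∃ t, chk3 f_pm_023_s t 1 1 1 = true :=
  ⟨(l 6), by decide +kernel⟩

theorem c_pm_023_s : CertNE 0 536870912 0 536870912 780900216 37827925 3 eng mog cd0q0 cd0q2 pd3 true true false .up 0 2 3
    ndB0q0 ndB0q2 pcB3 cut_pm_023_s Ext.none :=
  certNE2 (fam := true) (s1 := true) (s2 := false) (a := 0) (b := 2) (c := 3) (cn := .up) (n1 := ndB0q0) (n2 := ndB0q2) (pc := pcB3) (cut := cut_pm_023_s) (xt := Ext.none) (P1 := 0) (W1 := 536870912) (P2 := 0) (W2 := 536870912) (P3 := 780900216) (W3 := 37827925) (N0 := 3) (En := eng) (mo := mog) (C1 := cd0q0) (C2 := cd0q2) (C3 := pd3)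
    rfl (fun _ => rfl) k0_pm_023_s

noncomputable def cut_pm_023_t : Cut := Cut.of [[⟨3, 0, 0, 2845415833⟩]]

noncomputable def f_pm_023_t : ℕ → ℕ → ℕ → ℕ → Bool := onCell 0 536870912 0 536870912 780900216 37827925
    (rowNE 3 eng mog cd0q0 cd0q2 pd3 0 true true false .up 0 2 3 (qsf 0 536870912 0 536870912 3) ndB0q0 ndB0q2 pcB3 cut_pm_023_t Ext.none)

def k0_pm_023_t : ∃ t, chk3 f_pm_023_t t 1 1 1 = true :=
  ⟨(a (l 1) (b (a (b (a (l 1) (a (l 6) (a (l 6) (b (l 16652440) (l 6))))) (l 6)) (b (b (a (a (c (l 16640176) (l 16642856)) (c (l 16664168) (l 16662512))) (a (a (l 16676176) (l 16687160)) (a (l 16698720) (l 16709592)))) (a (l 6) (a (c (l 16644768) (l 16648424)) (a (l 16663440) (l 16673920))))) (a (l 6) (l 6)))) (l 6))), by decide +kernel⟩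

theorem c_pm_023_t : CertNE 0 536870912 0 536870912 780900216 37827925 3 eng mog cd0q0 cd0q2 pd3 true true false .up 0 2 3
    ndB0q0 ndB0q2 pcB3 cut_pm_023_t Ext.none :=
  certNE0 (fam := true) (s1 := true) (s2 := false) (a := 0) (b := 2) (c := 3) (cn := .up) (n1 := ndB0q0) (n2 := ndB0q2) (pc := pcB3) (cut := cut_pm_023_t) (xt := Ext.none) (P1 := 0) (W1 := 536870912) (P2 := 0) (W2 := 536870912) (P3 := 780900216) (W3 := 37827925) (N0 := 3) (En := eng) (mo := mog) (C1 := cd0q0) (C2 := cd0q2) (C3 := pd3)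
    rfl k0_pm_023_t

noncomputable def cut_pm_101_s : Cut := Cut.of [[⟨4, 0, 0, 1449551462⟩], [⟨0, 1, 0, 67108864⟩, ⟨1, 0, 0, 67108864⟩, ⟨2, 1, 0, 67108864⟩]]

noncomputable def f_pm_101_s : ℕ → ℕ → ℕ → ℕ → Bool := onCell 536870912 536870912 536870912 536870912 780900216 37827925
    (rowNE 3 eng mog cd0q1 cd0q0 pd1 1 true true false .npn 1 0 1 (qsf 536870912 536870912 0 536870912 1) ndB0q1 ndB0q0 pcB1 cut_pm_101_s Ext.none)

def k0_pm_101_s : ∃ t, chk3 f_pm_101_s t 1 1 1 = true :=
  ⟨(b (l 3) (a (l 3) (b (l 3) (a (l 3) (b (l 3) (a (l 3) (b (l 3) (a (l 3) (l 14))))))))), by decide +kernel⟩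

theorem c_pm_101_s : CertNE 536870912 536870912 0 536870912 780900216 37827925 3 eng mog cd0q1 cd0q0 pd1 true true false .npn 1 0 1
    ndB0q1 ndB0q0 pcB1 cut_pm_101_s Ext.none :=
  certNE1 (fam := true) (s1 := true) (s2 := false) (a := 1) (b := 0) (c := 1) (cn := .npn) (n1 := ndB0q1) (n2 := ndB0q0) (pc := pcB1) (cut := cut_pm_101_s) (xt := Ext.none) (P1 := 536870912) (W1 := 536870912) (P2 := 0) (W2 := 536870912) (P3 := 780900216) (W3 := 37827925) (N0 := 3) (En := eng) (mo := mog) (C1 := cd0q1) (C2 := cd0q0) (C3 := pd1)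
    rfl (fun _ => rfl) k0_pm_101_s

noncomputable def cut_pm_101_t : Cut := Cut.of [[⟨3, 0, 0, 2845415833⟩], [⟨0, 1, 0, 67108864⟩, ⟨1, 0, 0, 67108864⟩, ⟨2, 1, 0, 67108864⟩]]

noncomputable def f_pm_101_t : ℕ → ℕ → ℕ → ℕ → Bool := onCell 536870912 536870912 0 536870912 780900216 37827925
    (rowNE 3 eng mog cd0q1 cd0q0 pd1 0 true true false .npn 1 0 1 (qsf 536870912 536870912 0 536870912 1) ndB0q1 ndB0q0 pcB1 cut_pm_101_t Ext.none)

def k0_pm_101_t : ∃ t, chk3 f_pm_101_t t 1 1 1 = true :=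
  ⟨(l 6), by decide +kernel⟩

theorem c_pm_101_t : CertNE 536870912 536870912 0 536870912 780900216 37827925 3 eng mog cd0q1 cd0q0 pd1 true true false .npn 1 0 1
    ndB0q1 ndB0q0 pcB1 cut_pm_101_t Ext.none :=
  certNE0 (fam := true) (s1 := true) (s2 := false) (a := 1) (b := 0) (c := 1) (cn := .npn) (n1 := ndB0q1) (n2 := ndB0q0) (pc := pcB1) (cut := cut_pm_101_t) (xt := Ext.none) (P1 := 536870912) (W1 := 536870912) (P2 := 0) (W2 := 536870912) (P3 := 780900216) (W3 := 37827925) (N0 := 3) (En := eng) (mo := mog) (C1 := cd0q1) (C2 := cd0q0) (C3 := pd1)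
    rfl k0_pm_101_t

noncomputable def cut_pm_102_s : Cut := Cut.of [[⟨4, 0, 0, 1449551462⟩], [⟨0, 1, 0, 67108864⟩, ⟨1, 0, 0, 67108864⟩, ⟨2, 1, 0, 67108864⟩]]

noncomputable def f_pm_102_s : ℕ → ℕ → ℕ → ℕ → Bool := onCell 536870912 536870912 1073741824 536870912 780900216 37827925
    (rowNE 3 eng mog cd0q1 cd0q0 pd2 1 true true false .npp 1 0 2 (qsf 536870912 536870912 0 536870912 2) ndB0q1 ndB0q0 pcB2 cut_pm_102_s Ext.none)

def k0_pm_102_s : ∃ t, chk3 f_pm_102_s t 2 4 1 = true :=
  ⟨(b (l 3) (l 3)), by decide +kernel⟩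

def k1_pm_102_s : ∃ t, chk3 f_pm_102_s t 4 10 1 = true :=
  ⟨(b (b (l 3) (l 2)) (l 2)), by decide +kernel⟩

def k2_pm_102_s : ∃ t, chk3 f_pm_102_s t 5 40 1 = true :=
  ⟨(a (l 3) (a (l 3) (b (l 3) (a (b (l 3) (b (l 3) (c (a (l 16775752) (l 16777048)) (l 94120191639)))) (b (a (l 3) (b (l 3) (c (l 16776856) (l 16776728)))) (c (a (b (l 16779576) (l 16774832)) (l 16773688)) (c (l 16774984) (l 16775024)))))))), by decide +kernel⟩

def k3_pm_102_s : ∃ t, chk3 f_pm_102_s t 5 41 1 = true :=
  ⟨(a (b (b (l 3) (b (l 3) (a (l 3) (a (l 3) (l 103783870871))))) (a (a (l 2) (b (b (l 3) (l 16776968)) (b (b (l 16776008) (l 16775032)) (l 16773616)))) (b (a (b (l 16776504) (l 16775768)) (b (l 16780920) (l 16773344))) (b (c (b (l 16786184) (l 16782544)) (b (l 16772920) (l 16771824))) (a (l 16771632) (c (l 16769112) (l 16768816))))))) (b (a (a (b (l 3) (c (a (l 16787536) (l 16786056)) (l 16786960))) (b (c (a (l 144049189239) (l 84456517847)) (l 110763196327)) (c (b (l 16774072) (l 16771280))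 (l 16783264)))) (a (a (b (c (l 16780432) (l 16775280)) (c (l 16769536) (l 16769768))) (b (c (l 16772920) (l 16773072)) (c (l 16767344) (l 16767616)))) (c (b (a (l 16770528) (l 16768056)) (b (l 16765192) (l 16762600))) (b (c (l 16769480) (l 16769568)) (c (l 16764112) (l 16764224)))))) (b (a (c (b (a (l 16772496) (l 16768744)) (a (l 16770160) (l 16766392))) (b (a (l 16772560) (l 16768880)) (a (l 16770136) (l 16766432)))) (c (a (b (l 16764648) (l 16762208)) (b (l 16760064) (l 16757392))) (a (b (l 16764848) (l 16762344)) (b (l 16760320) (c (l 16757632) (l 16757728)))))) (b (a (b (a (l 16768456) (a (l 16765656) (l 16763672))) (a (l 16767288) (c (l 16742312) (l 16763288)))) (a (c (b (l 16760240) (l 16758584)) (b (l 16760392) (l 16758904))) (c (l 16754240) (l 16754808)))) (a (a (c (l 16768112) (l 16765336)) (c (l 16761056) (l 16761208))) (c (a (l 16756312) (l 16756488)) (a (l 16756816) (l 16752040)))))))), by decide +kernel⟩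

def k4_pm_102_s : ∃ t, chk3 f_pm_102_s t 5 21 1 = true :=
  ⟨(a (b (a (a (l 2) (l 16775504)) (a (c (l 16763104) (l 16762264)) (c (l 16770232) (l 16758976)))) (a (l 2) (a (b (l 16751080) (l 2)) (a (l 16744480) (l 16731688))))) (a (b (a (c (b (l 16759840) (l 16751328)) (l 16755032)) (c (b (l 16755256) (l 16746376)) (l 16750640))) (a (c (l 16760040) (l 16737632)) (c (l 16759688) (l 16732408)))) (c (a (a (b (l 16747208) (l 16729360)) (b (l 16744688) (l 16726672))) (a (b (l 16742160) (l 16723936)) (b (l 16739504) (l 16742080)))) (b (a (c (l 16746080) (l 16746032)) (c (l 16741224) (l 16741296))) (a (l 16748320) (b (l 16726896) (l 16717488))))))), by decide +kernel⟩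

def k5_pm_102_s : ∃ t, chk3 f_pm_102_s t 2 11 1 = true :=
  ⟨(a (l 2) (a (b (a (l 2) (b (a (l 2) (b (l 16732088) (l 2))) (l 2))) (l 2)) (a (b (a (b (c (l 16723952) (l 16721592)) (l 16729216)) (b (c (l 16717288) (l 16715344)) (l 16743120))) (b (a (l 2) (l 16686992)) (l 2))) (b (c (b (a (l 16731888) (l 16725760)) (a (l 16695064) (l 16687984))) (b (a (l 16709400) (l 16703688)) (a (l 16692720) (l 16686112)))) (b (a (l 16700120) (c (l 16672472) (l 16669816))) (a (l 16665336) (l 16656808))))))), by decide +kernel⟩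

def k6_pm_102_s : ∃ t, chk3 f_pm_102_s t 2 3 1 = true :=
  ⟨(a (l 2) (b (a (l 2) (b (a (l 2) (b (a (l 2) (b (l 16643376) (l 2))) (l 2))) (l 2))) (l 2))), by decide +kernel⟩

def k7_pm_102_s : ∃ t, chk3 f_pm_102_s t 6 8 1 = true :=
  ⟨(l 3), by decide +kernel⟩

def k8_pm_102_s : ∃ t, chk3 f_pm_102_s t 6 18 1 = true :=
  ⟨(a (l 3) (b (l 3) (a (l 3) (b (l 3) (a (l 3) (b (l 3) (a (l 3) (a (b (l 3) (l 16776832)) (b (l 16779448) (l 16774768)))))))))), by decide +kernel⟩

def k9_pm_102_s : ∃ t, chk3 f_pm_102_s t 12 19 1 = true :=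
  ⟨(b (l 3) (a (l 3) (b (a (l 3) (b (l 3) (c (a (l 3) (l 258402681751)) (l 273971934519)))) (b (a (l 3) (c (a (b (l 3) (l 125258700407)) (b (l 80698414999) (l 16774504))) (a (l 173040214199) (l 16775848)))) (a (c (a (b (l 3) (l 204715593351)) (c (b (l 171966468535) (l 16776288)) (l 96267673959))) (a (l 219211110199) (l 16781976))) (c (a (c (l 16779416) (l 16774176)) (l 16770432)) (a (l 16774184) (l 16770416)))))))), by decide +kernel⟩

def k10_pm_102_s : ∃ t, chk3 f_pm_102_s t 13 19 1 = true :=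
  ⟨(b (a (b (l 3) (a (l 3) (b (a (l 3) (c (l 258402681783) (l 279340647143))) (b (a (l 3) (c (l 85530253287) (l 16776632))) (c (a (l 159618440311) (l 16774112)) (a (l 138143603735) (l 16774128))))))) (b (a (b (a (l 3) (l 323364062311)) (a (b (l 3) (l 293836161831)) (c (b (l 159081568279) (l 16775488)) (b (l 139217344695) (l 16775464))))) (b (a (a (b (l 3) (l 16779520)) (b (l 16782120) (l 16774680))) (l 16772104)) (a (c (l 16772016) (l 16771984)) (l 16766976)))) (a (b (b (a (c (l 127406179159) (l 107005089991)) (l 16772904)) (a (c (l 16774968) (l 16774984)) (l 16770192))) (a (c (l 16770840) (l 16770864)) (c (l 16766080) (l 16766120)))) (a (b (l 16766696) (l 16761240)) (b (l 16761752) (b (l 16757688) (a (l 16756192) (l 16753680)))))))) (a (b (a (a (b (l 3) (c (b (l 160692180807) (l 16776040)) (l 65666032807))) (c (b (b (l 270750712727) (l 100562638951)) (l 16773280)) (b (a (l 225653561559) (l 16782088)) (l 16773280)))) (c (b (a (c (l 16779728) (l 16774488)) (l 16769960)) (a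 (l 16768912) (l 16764408))) (a (b (l 16774496) (l 16768896)) (b (l 16769960) (l 16764376))))) (a (c (b (a (l 16771920) (l 16767752)) (a (l 16766448) (l 16762256))) (b (l 16769832) (l 16764312))) (b (c (a (l 16763368) (l 16758872)) (l 16761072)) (a (c (l 16757856) (l 16757728)) (c (l 16753336) (l 16753184)))))) (b (a (a (b (l 16766672) (l 16759840)) (b (l 16760648) (c (l 16755240) (l 16755200)))) (a (b (c (l 16755872) (l 16755912)) (c (l 16750480) (l 16750480))) (b (c (l 16750920) (l 16751056)) (l 16745808)))) (a (b (a (c (l 16754352) (l 16754248)) (c (l 16749768) (l 16749672))) (a (c (l 16748832) (l 16748664)) (l 16744328))) (c (b (l 16742808) (l 16737512)) (a (l 16742536) (l 16738024))))))), by decide +kernel⟩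

def k11_pm_102_s : ∃ t, chk3 f_pm_102_s t 14 8 1 = true :=
  ⟨(b (l 3) (a (l 3) (b (l 3) (a (l 3) (b (a (l 3) (b (l 3) (a (l 3) (b (l 330343383335) (a (c (l 234780360647) (l 240685940583)) (b (l 102710118583) (l 16775904))))))) (a (b (a (l 3) (b (l 3) (a (l 3) (l 249812746231)))) (a (b (l 3) (a (l 243370295335) (c (l 16779248) (l 63518542503)))) (b (a (a (l 213305525703) (l 97341409799)) (l 16775920)) (l 16774400)))) (b (a (a (b (l 349133865223) (a (l 96804538919) (l 16776272))) (b (b (l 262697648183) (l 16779392)) (l 16775024))) (b (c (l 16774864) (l 16776152)) (l 16772384))) (a (b (l 16773440) (l 16771120)) (b (l 16770000) (l 16767784)))))))))), by decide +kernel⟩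

def k12_pm_102_s : ∃ t, chk3 f_pm_102_s t 15 16 1 = true :=
  ⟨(a (b (l 3) (a (l 3) (b (l 3) (a (l 3) (b (l 3) (a (l 3) (b (a (l 3) (a (l 3) (l 14))) (b (a (l 324974674295) (a (b (a (l 342154543255) (l 128479920759)) (c (l 16777504) (l 16777656))) (l 16776176))) (b (a (a (l 3) (a (l 238538457383) (l 16777000))) (l 16775760)) (a (a (l 241759682615) (l 16776664)) (l 16775128))))))))))) (a (b (l 14) (b (l 14) (a (a (b (l 14) (b (l 14) (b (l 14) (a (a (l 16771264) (l 14)) (l 14))))) (l 14)) (l 14)))) (l 14))), by decide +kernel⟩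

def k13_pm_102_s : ∃ t, chk3 f_pm_102_s t 60 34 1 = true :=
  ⟨(b (l 3) (a (l 3) (b (a (l 3) (b (l 3) (a (c (l 274508808439) (l 282025001063)) (a (b (l 283635613815) (l 16776712)) (b (l 89825214903) (l 16775784)))))) (a (b (a (l 3) (a (l 314774126791) (b (l 3) (l 93046441735)))) (b (a (l 257865809975) (l 16777560)) (a (a (l 148881016103) (l 16776440)) (l 16774968)))) (b (b (a (a (l 153175983431) (l 16776448)) (l 16774952)) (l 16774624)) (l 16772600)))))), by decide +kernel⟩

def k14_pm_102_s : ∃ t, chk3 f_pm_102_s t 61 68 1 = true :=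
  ⟨(a (b (a (l 3) (b (l 3) (a (l 3) (c (l 311552901591) (l 318532223287))))) (a (b (l 3) (b (l 336248963511) (a (l 3) (a (l 263234519127) (a (l 116131890439) (l 16776712)))))) (b (b (a (l 3) (a (l 231022264327) (a (l 78550925287) (l 16776544)))) (b (a (l 317995352279) (l 16776976)) (a (a (l 3) (l 114521277479)) (l 16775704)))) (a (a (b (a (l 181630141287) (l 16778240)) (l 16775984)) (l 16775608)) (l 16774064))))) (b (a (a (b (l 3) (b (a (l 338933317879) (b (l 216526750183) (l 16777576))) (b (a (l 148881015735) (l 16776360)) (l 16776216)))) (a (b (b (l 3) (b (l 283635613831) (a (l 214916137287) (l 16776952)))) (c (l 16775656) (l 16775960))) (b (a (b (l 328195899591) (l 16777400)) (b (a (l 240685940791) (l 158544691383)) (l 16776280))) (l 16774616)))) (b (a (b (a (a (b (l 151565369959) (l 16776712)) (l 16776504)) (l 16775736)) (l 16774984)) (c (l 16773568) (l 16773448))) (b (c (l 16772696) (l 16772648)) (a (l 16769792) (l 16767712))))) (b (b (a (a (l 16775264) (l 16770576))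 (a (l 16768496) (l 16769728))) (a (a (l 16771344) (l 16769272)) (a (l 16769808) (c (l 16768264) (l 16768088))))) (b (a (a (l 16770032) (l 16770576)) (a (a (l 16769016) (l 16765456)) (l 16767472))) (a (a (l 16768712) (l 16769256)) (a (l 16768272) (l 16766904))))))), by decide +kernel⟩

def k15_pm_102_s : ∃ t, chk3 f_pm_102_s t 61 69 1 = true :=
  ⟨(a (b (a (b (b (a (c (l 246054649943) (l 253033971719)) (c (l 16776160) (l 16777128))) (a (a (a (l 216526750327) (l 16778336)) (l 16776392)) (l 16774872))) (a (l 16774920) (l 16772848))) (a (b (l 16773472) (c (l 16765568) (l 16768112))) (b (c (l 16768816) (l 16768744)) (l 16765424)))) (a (a (c (l 16772216) (l 16772128)) (b (l 16767520) (l 16764808))) (b (a (l 16762824) (c (l 16766440) (l 16766232))) (a (l 16765760) (l 16764832))))) (a (b (b (b (a (l 16770000) (a (l 16768440) (l 16764880))) (a (l 16768656) (l 16767040))) (a (c (l 16767048) (l 16768160)) (c (l 16766232) (l 16765832)))) (a (b (l 16765432) (l 16764272)) (b (l 16764584)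 (l 16761568)))) (a (b (b (a (l 16766752) (l 16766472)) (l 16764512)) (c (b (l 16761408) (l 16753048)) (l 16760840))) (b (c (b (l 16764792) (l 16761632)) (b (l 16765392) (l 16762496))) (b (c (b (l 16759272) (l 16757712)) (l 16759608)) (c (l 16755368) (l 16756728))))))), by decide +kernel⟩

def k16_pm_102_s : ∃ t, chk3 f_pm_102_s t 60 35 1 = true :=
  ⟨(b (a (b (a (a (l 3) (b (l 3) (a (l 293836161127) (b (l 341080801415) (l 16776848))))) (b (b (a (l 3) (c (l 151028500167) (l 155323466087))) (a (l 248202133495) (l 16776200))) (a (a (b (l 16777664) (l 16776008)) (l 16775696)) (l 16774240)))) (b (a (a (b (l 213305525431) (l 16779184)) (l 16775432)) (l 16772568)) (a (l 16773776) (l 16764744)))) (b (a (b (c (l 16773968) (l 16773928)) (l 16771272)) (a (b (l 16765680) (l 16768272)) (b (l 16768888) (l 16760984)))) (a (b (l 16763416) (l 16768704)) (b (a (l 16760424) (l 16764256)) (a (l 16763840) (l 16763000)))))) (a (b (a (b (l 16771232) (l 16768792)) (b (l 16762256) (a (l 16766064)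 (l 16764296)))) (b (a (l 16766504) (a (l 16763976) (l 16762928))) (a (a (l 16765248) (l 16763744)) (l 16761904)))) (b (a (b (a (l 16764688) (l 16763480)) (a (l 16763176) (l 16762376))) (c (l 16760704) (l 16761328))) (a (c (l 16758880) (l 16759488)) (c (l 16754168) (l 16755184)))))), by decide +kernel⟩

def k17_pm_102_s : ∃ t, chk3 f_pm_102_s t 61 35 1 = true :=
  ⟨(a (b (b (a (b (a (l 16761576) (l 16765216)) (a (l 16764720) (l 16763816))) (c (b (l 16764312) (l 16761776)) (l 16763080))) (a (c (l 16762200) (l 16762152)) (c (b (l 16758608) (l 16755448)) (l 16758112)))) (c (b (a (l 16755784) (b (l 16741792) (l 16749104))) (a (b (l 16750952) (l 16747720)) (b (l 16745928) (l 16742744)))) (b (a (l 16756840) (l 16749584)) (a (l 16750792) (b (l 16737264) (l 16744760)))))) (c (b (b (a (b (l 16756824) (a (l 16757704) (l 16754920))) (a (b (l 16755176) (l 16752072)) (a (l 16756688) (l 16755224)))) (a (c (b (l 16752880) (l 16749712)) (b (l 16753520) (l 16750448))) (a (l 16752664) (a (l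 16745272) (l 16743816))))) (b (a (b (l 16746936) (l 16743808)) (a (b (l 16742776) (l 16739656)) (b (l 16739904) (l 16736816)))) (a (a (l 16740440) (l 16742976)) (a (l 16734976) (l 16732072))))) (b (b (a (c (l 16758688) (l 16759296)) (b (b (l 16748048) (l 16744000)) (b (l 16742568) (l 16741136)))) (b (a (l 16754640) (b (l 16739704) (l 16738272))) (a (l 16751736) (a (l 16747912) (l 16745296))))) (b (a (b (l 16738336) (l 16735416)) (b (a (l 16745032) (l 16742368)) (a (l 16742120) (l 16739320)))) (a (b (l 16732488) (a (l 16741240) (l 16738744))) (b (l 16742864) (l 16734424))))))), by decide +kernel⟩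

def k18_pm_102_s : ∃ t, chk3 f_pm_102_s t 62 68 1 = true :=
  ⟨(a (b (a (b (b (a (c (l 16769504) (l 16769456)) (l 14)) (a (c (l 16770856) (l 16770792)) (a (l 16769408) (l 14)))) (a (c (a (l 16770176) (l 16769752)) (b (l 16770184) (l 16768632))) (c (c (l 16768264) (l 16768400)) (l 16768104)))) (a (a (b (l 14) (b (l 14) (l 16765560))) (l 14)) (l 14))) (b (a (a (c (c (l 16768032) (l 16767856)) (l 16767568)) (c (c (l 16765024) (l 16765304)) (l 16765776))) (a (a (b (l 16758776) (a (l 16762856) (l 16756880))) (c (l 16763936) (l 16762288))) (a (c (l 16759760) (l 16755632)) (l 14)))) (a (a (b (l 16766040) (l 16761896)) (c (b (l 16762768) (l 16755936)) (l 16762856))) (a (c (c (l 16758656) (l 16759176)) (b (l 16755560) (l 16754104))) (c (c (l 16755480) (l 16756128)) (c (l 16756856) (l 16757664))))))) (a (b (l 14) (a (a (b (l 14) (b (l 14) (l 16757392))) (l 14)) (l 14))) (l 14))), by decide +kernel⟩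

def k19_pm_102_s : ∃ t, chk3 f_pm_102_s t 62 69 1 = true :=
  ⟨(a (a (a (b (b (c (c (l 16756384) (l 16762016)) (l 16762688)) (c (b (l 16759448) (l 16757880)) (l 16759792))) (b (c (l 16755528) (l 16751664)) (c (l 16752408) (l 16748784)))) (b (b (c (b (l 16759592) (l 16758016)) (l 16758800)) (c (l 16760896) (c (l 16756672) (l 16757448)))) (c (b (l 16752512) (l 16749400)) (c (l 16757488) (b (l 16754632) (l 16751832)))))) (b (a (b (c (c (l 16755432) (l 16756064)) (c (l 16756776) (l 16757568))) (c (l 16752592) (c (l 16753816) (l 16754744)))) (b (c (c (l 16752264) (l 16753024)) (c (l 16753880) (l 16754832))) (c (c (l 16749048) (l 16749928)) (c (l 16750912) (l 16752008))))) (b (a (c (l 16749456) (l 16751384)) (c (c (l 16745904) (l 16746848)) (c (l 16747912) (l 16749096)))) (a (c (a (l 16747112) (l 16745568)) (c (l 16747904) (l 16749104))) (c (l 16743256) (l 16745432)))))) (a (b (c (a (b (c (a (l 16749848) (l 16748248)) (l 16749920)) (c (l 16745912) (l 16746832))) (b (c (l 16745888)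 (l 16746752)) (l 16743168))) (a (b (c (l 16750912) (l 16752000)) (c (l 16747856) (l 16749000))) (b (l 16750888) (l 16745104)))) (c (c (a (l 16741216) (l 16738064)) (a (l 16742120) (l 16738896))) (b (a (l 16745288) (l 16741944)) (c (l 16739928) (l 16741032))))) (a (b (b (l 14) (c (l 16739944) (l 16741728))) (c (c (l 16734856) (l 16735616)) (c (l 16736488) (l 16737488)))) (b (l 14) (c (c (l 16731608) (l 16732288)) (c (l 16733088) (l 16734000))))))), by decide +kernel⟩

def k20_pm_102_s : ∃ t, chk3 f_pm_102_s t 62 35 1 = true :=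
  ⟨(a (b (a (b (b (a (c (l 16749296) (l 16751168)) (c (l 16746288) (l 16748432))) (a (c (l 16746216) (l 16748320)) (c (l 16743200) (l 16745512)))) (c (a (b (l 16743120) (l 16740064)) (b (l 16740136) (l 16737024))) (b (a (l 16745448) (l 16742496)) (a (l 16742496) (l 16739368))))) (b (b (a (c (c (l 16742768) (l 16743760)) (l 16745504)) (c (l 16740128) (l 16742288))) (c (l 16741200) (l 16743400))) (c (c (l 16736744) (l 16739648)) (c (l 16740728) (l 16741944))))) (b (c (a (c (l 16733384) (l 16734416)) (c (l 16727256) (l 16728152))) (a (b (l 16737816) (l 16734656)) (c (l 16729192) (l 16730384)))) (a (c (c (l 16727136) (l 16728112)) (c (l 16729248) (l 16730544))) (c (c (l 16721032) (l 16721880)) (c (l 16722880) (l 16724040)))))) (b (b (b (a (c (c (l 16734960) (l 16735800)) (l 16739600)) (c (c (l 16728520) (l 16729216)) (l 16730488))) (a (c (c (l 16731832) (l 16732656)) (l 16734144)) (c (c (l 16725376) (l 16726048)) (l 16727304)))) (c (a (c (l 16729776) (l 16727952)) (c (a (l 16722304)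 (l 16719008)) (l 16721312))) (a (c (l 16728880) (l 16729952)) (c (l 16722096) (l 16723008))))) (b (a (c (c (l 16720920) (l 16721680)) (c (l 16722584) (l 16723624))) (c (c (l 16714376) (l 16714984)) (c (l 16715744) (l 16716632)))) (a (c (c (l 16714672) (l 16715392)) (c (l 16716256) (l 16717264))) (c (c (l 16708112) (l 16708680)) (c (l 16709400) (l 16710264))))))), by decide +kernel⟩

def k21_pm_102_s : ∃ t, chk3 f_pm_102_s t 63 17 1 = true :=
  ⟨(b (a (b (l 14) (b (l 14) (b (l 14) (a (a (b (l 14) (l 16726872)) (l 14)) (l 14))))) (l 14)) (a (b (b (b (a (c (c (l 16721888) (l 16722432)) (l 16723464)) (l 14)) (a (c (c (l 16718720) (l 16719248)) (l 16720264)) (c (c (l 16711864) (l 16712232)) (l 16713008)))) (a (c (c (a (l 16715664) (l 16712272)) (l 16717088)) (c (l 16715096) (l 16715856))) (c (c (a (l 16708824) (l 16705328)) (a (l 16709208) (l 16705632))) (c (l 16707896) (l 16708480))))) (c (a (a (b (l 16712200) (l 16703248)) (b (l 16709072) (l 16699776))) (b (c (a (l 16702464)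 (l 16698944)) (l 16701016)) (c (l 16696968) (l 16694624)))) (a (b (c (l 16708704) (l 16709440)) (c (l 16702320) (l 16703024))) (b (c (l 16701464) (l 16702032)) (c (l 16695032) (l 16695584)))))) (a (b (a (a (b (l 14) (c (l 16702784) (l 16703512))) (l 14)) (l 14)) (c (b (c (a (l 16695376) (l 16691752)) (l 16695032)) (c (a (l 16688984) (l 16685336)) (l 16687280))) (b (c (l 16694000) (l 16694400)) (c (l 16687528) (l 16687920))))) (b (l 14) (a (c (b (c (l 16688080) (l 16688112)) (c (l 16681640) (l 16681632))) (b (l 16688384) (l 16681872))) (b (l 14) (c (c (l 16677880) (l 16677800)) (l 16677912)))))))), by decide +kernel⟩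

def k22_pm_102_s : ∃ t, chk3 f_pm_102_s t 28 18 1 = true :=
  ⟨(b (a (l 3) (b (l 3) (a (b (l 3) (a (l 3) (l 293836156359))) (b (a (l 3) (b (l 3) (a (l 316384739735) (l 117205634583)))) (a (b (l 229948522519) (l 16775864)) (b (l 16775464) (l 16772840))))))) (a (a (b (l 3) (b (a (b (l 3) (l 116668764839)) (b (l 16779472) (l 16774656))) (a (l 16773400) (l 16770664)))) (b (b (l 326585287815) (a (b (l 336785834615) (l 96804541255)) (b (l 84456510311) (l 16774280)))) (b (l 16771736) (l 16766520)))) (b (a (b (a (b (l 278803775943) (c (l 16776472) (l 16776448))) (b (l 16778808) (l 16773672))) (a (l 16772656) (l 16769656))) (b (a (l 16771928) (l 16768800)) (l 16765080))) (a (b (l 16765920) (a (l 16762280) (l 16759320))) (b (a (l 16761456) (b (l 16759656) (l 16757288))) (a (b (l 16757696) (l 16755608)) (l 16754168))))))), by decide +kernel⟩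

def k23_pm_102_s : ∃ t, chk3 f_pm_102_s t 29 18 1 = true :=
  ⟨(b (a (b (a (b (l 3) (a (l 3) (b (l 318532223527) (a (l 167671499735) (l 16776216))))) (b (a (b (l 3) (a (l 3) (l 204178721175))) (b (a (l 340543930711) (c (l 129016793639) (l 131701148151))) (a (l 33990643255) (l 16775008)))) (a (a (b (l 101636378119) (l 16774688)) (l 16775664)) (l 16771864)))) (a (a (b (b (a (l 229948524775) (l 16779312)) (l 16775008)) (l 16770984)) (b (l 16773120) (l 16767736))) (b (a (l 16769840) (l 16766480)) (a (l 16764456) (b (l 16762432) (l 16759792)))))) (b (a (b (a (b (a (l 16775920) (l 16774360)) (l 16772528)) (b (l 16771928) (l 16769168))) (a (l 16768440) (l 16764904))) (b (a (b (l 16768624) (l 16765744)) (b (l 16765232) (a (l 16757864) (l 16761792)))) (a (b (l 16762776) (l 16762976)) (b (l 16760232) (l 16758072))))) (a (b (a (l 16765488) (b (l 16760768) (l 16758640))) (a (b (l 16759216) (l 16757160)) (l 16755600))) (b (a (c (l 16757496) (l 16756744)) (l 16754904)) (c (l 16752088)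 (l 16750952)))))) (a (b (a (b (l 16764032) (a (l 16760320) (b (l 16758552) (l 16756488)))) (b (a (b (l 16760408) (l 16758120)) (b (l 16757696) (l 16755616))) (a (l 16755024) (l 16752600)))) (a (b (a (b (l 16756896) (l 16754752)) (l 16753344)) (c (l 16749712) (l 16749688))) (c (b (l 16748688) (l 16743288)) (b (l 16748800) (l 16744088))))) (b (a (b (c (l 16753144) (l 16752216)) (c (l 16747712) (l 16747656))) (c (b (l 16746944) (l 16741824)) (b (l 16746168) (l 16741288)))) (a (c (b (l 16742408) (l 16737200)) (b (l 16742904) (l 16737992))) (c (l 16744744) (b (l 16736320) (l 16731208))))))), by decide +kernel⟩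

def k24_pm_102_s : ∃ t, chk3 f_pm_102_s t 30 18 1 = true :=
  ⟨(b (a (b (a (b (a (a (b (l 16763008) (l 16760776)) (l 16766176)) (c (l 16757656) (l 16758336))) (c (l 16754904) (l 16752808))) (b (c (a (l 16753264) (l 16738296)) (a (l 16754352) (l 16750288))) (c (a (l 16748848) (l 16734208)) (l 16748672)))) (a (b (c (l 16750144) (l 16750368)) (c (l 16745480) (l 16745144))) (a (b (l 16745616) (l 16741672)) (b (l 16742008) (a (l 16739208) (l 16737488)))))) (a (b (a (c (b (l 16733688) (l 16729944)) (b (l 16746136) (l 16743032))) (c (b (b (l 16740272) (l 16738528)) (b (l 16736784) (l 16735008))) (b (b (l 16742552) (l 16741144)) (l 16733616)))) (b (a (c (l 16736688) (l 16739872)) (c (l 16721616) (l 16735368))) (a (l 16723840) (l 16729448)))) (c (b (b (a (c (l 16738968) (l 16745392)) (l 16728696)) (a (l 16730744) (l 16725176))) (b (a (l 16726872) (l 16721360)) (l 16730488))) (a (b (b (a (l 16727864) (l 16735640)) (l 16733696)) (l 16727968)) (b (b (l 16731256) (l 16727912)) (b (l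 16724240) (l 16720248))))))) (a (b (a (c (b (l 16740848) (l 16736168)) (b (l 16739824) (l 16734528))) (a (b (c (l 16736128) (l 16735072)) (l 16716816)) (b (l 16723744) (l 16729384)))) (a (a (b (l 16733392) (l 16728792)) (b (l 16709488) (l 16726408))) (b (l 16705200) (l 16720384)))) (c (a (b (a (l 16725656) (l 16699944)) (l 16712936)) (a (b (l 16694920) (l 16705792)) (b (l 16710552) (l 16700624)))) (a (b (l 16726856) (l 16716480)) (b (a (l 16719192) (l 16692688)) (l 16706480)))))), by decide +kernel⟩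

def k25_pm_102_s : ∃ t, chk3 f_pm_102_s t 31 18 1 = true :=
  ⟨(a (b (b (c (a (a (b (l 16722816) (l 16719336)) (b (b (l 16717488) (l 16715832)) (l 16713224))) (a (b (b (l 16711080) (l 16709432)) (l 16706832)) (b (b (l 16704416) (l 16702768)) (l 16700184)))) (a (b (a (l 16725136) (l 16718736)) (a (l 16721832) (l 16715464))) (a (b (l 16712056) (l 16708816)) (b (b (l 16705872) (l 16704320)) (l 16701880))))) (a (b (a (l 16727288) (l 16721096)) (a (l 16723296) (l 16706664))) (b (a (l 16714608) (c (l 16696496) (l 16698360))) (a (l 16700216) (l 16693472))))) (a (b (b (b (l 16717080) (l 16714880)) (b (l 16723088) (l 16720744))) (c (l 16713232) (b (l 16697640) (l 16692512)))) (b (b (a (l 16696032) (l 16689328)) (a (l 16691568) (l 16684904))) (c (l 16700968) (l 16703360))))) (b (b (a (b (a (c (b (l 16697536) (l 16695864)) (b (l 16698688) (l 16697120))) (c (b (l 16690440) (l 16688736)) (b (l 16691288) (l 16689688)))) (a (c (l 16693256) (l 16694656)) (c (l 16686104) (l 16687192))))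 (a (b (c (b (l 16683144) (l 16681400)) (b (l 16683672) (l 16682032))) (c (l 16678704) (l 16679472))) (b (c (b (c (l 16675656) (l 16675624)) (l 16673848)) (b (l 16675824) (l 16674144))) (c (l 16671096) (l 16671528))))) (b (a (a (c (l 16689584) (l 16691152)) (c (l 16682392) (l 16683648))) (a (c (l 16674952) (l 16675888)) (c (l 16667264) (l 16667864)))) (a (a (l 16686432) (l 16679088)) (a (l 16679320) (c (l 16663264) (l 16664016)))))) (b (a (a (c (l 16679304) (l 16681184)) (c (l 16672144) (l 16673728))) (a (c (l 16664680) (l 16665944)) (c (l 16656896) (l 16657840)))) (a (a (l 16691840) (c (l 16662864) (l 16664592))) (a (c (l 16655448) (l 16656872)) (c (l 16647704) (l 16648816))))))), by decide +kernel⟩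

def k26_pm_102_s : ∃ t, chk3 f_pm_102_s t 14 19 1 = true :=
  ⟨(a (b (a (b (a (b (l 16766824) (l 16761832)) (b (l 16761448) (a (l 16757864) (b (l 16756512) (l 16754056))))) (b (a (a (l 16758024) (l 16755440)) (a (l 16752752) (l 16750064))) (a (a (b (l 16753888) (l 16751224)) (l 16760528)) (c (l 16745808) (l 16746480))))) (b (b (a (a (l 16752104) (b (l 16755960) (l 16753752))) (c (l 16750448) (l 16750536))) (a (c (l 16750936) (l 16751312)) (l 16745432))) (a (b (l 16756368) (c (l 16740160) (l 16741256))) (b (l 16740200) (c (l 16734336) (l 16735888)))))) (b (b (a (a (l 16756632) (l 16741072)) (a (l 16735728) (l 16730240))) (a (a (l 16741032) (l 16736064)) (a (l 16730856) (l 16725456)))) (a (a (c (l 16733160) (l 16733480)) (b (l 16731016) (l 16725928))) (a (b (l 16725920) (l 16720928)) (b (l 16720632) (l 16715704)))))) (b (a (b (a (c (l 16752064) (b (l 16744984) (l 16740128))) (b (l 16738824) (l 16733768))) (b (a (l 16734480) (l 16728768)) (a (c (l 16728440) (l 16730056)) (c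 (l 16722528) (l 16723984))))) (c (b (a (l 16729544) (a (l 16725576) (l 16722608))) (a (b (l 16721904) (c (l 16720984) (l 16717184))) (b (l 16715464) (l 16709032)))) (b (a (l 16740880) (b (l 16726216) (l 16722048))) (a (b (l 16722832) (l 16718816)) (b (l 16718944) (l 16712416)))))) (b (b (a (a (l 16724688) (c (l 16717848) (l 16719160))) (a (l 16725264) (l 16704200))) (a (a (l 16719984) (c (l 16712816) (l 16714696))) (a (l 16705760) (l 16697792)))) (b (a (a (l 16714952) (l 16707568)) (a (l 16699240) (l 16691288))) (a (a (l 16709232) (l 16700968)) (a (l 16692624) (l 16684680))))))), by decide +kernel⟩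

def k27_pm_102_s : ∃ t, chk3 f_pm_102_s t 15 19 1 = true :=
  ⟨(a (a (a (b (b (c (l 16717312) (l 16720760)) (b (l 16709384) (a (l 16704720) (l 16700808)))) (b (c (l 16692432) (l 16673208)) (b (l 16683568) (l 16676992)))) (b (b (c (l 16709600) (l 16713168)) (b (l 16701544) (c (l 16693472) (l 16696552)))) (b (c (l 16684744) (l 16665336)) (c (l 16672936) (l 16693360))))) (b (b (a (a (l 16705080) (l 16695504)) (c (l 16713064) (l 16695224))) (b (a (l 16672456) (l 16684352)) (a (c (l 16685464) (l 16688392)) (b (l 16679496) (l 16676248))))) (b (a (b (l 16680544) (l 16674344)) (b (l 16671848) (l 16665808))) (a (b (l 16668024) (l 16661576)) (b (l 16659568) (l 16653208)))))) (b (a (a (b (b (l 16706536) (l 16679848)) (b (l 16673848) (b (l 16669160) (l 16666080)))) (b (a (l 16694712) (l 16688280)) (b (l 16661936) (b (l 16657392) (l 16654424))))) (b (a (a (l 16681496) (l 16674368)) (a (l 16666888) (l 16659064))) (a (b (l 16648600) (b (l 16644176) (l 16641320))) (b (l 16633824) (b (l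 16629512) (l 16626752)))))) (a (b (a (b (l 16661928) (l 16656144)) (b (l 16650552) (l 16645200))) (a (b (l 16650208) (l 16644016)) (b (l 16639592) (l 16633664)))) (a (b (c (l 16635216) (l 16635424)) (b (l 16627488) (l 16622008))) (b (b (l 16623392) (l 16618760)) (b (l 16613896) (l 16608792))))))), by decide +kernel⟩

def k28_pm_102_s : ∃ t, chk3 f_pm_102_s t 24 5 1 = true :=
  ⟨(b (b (a (b (b (a (l 3) (b (l 3) (b (l 3) (c (l 102710121751) (l 16776736))))) (b (a (c (a (l 71571611111) (l 16781128)) (l 16776464)) (c (l 16773856) (l 16773936))) (c (a (l 16771040) (l 16768304)) (l 16769864)))) (b (b (c (c (l 16764064) (l 16764256)) (l 16764464)) (c (b (l 16760168) (l 16757560)) (c (l 16759112) (l 16759224)))) (b (b (c (l 16754848) (l 16755224)) (c (l 16751928) (l 16752472))) (c (b (l 16748864) (c (l 16745592) (l 16746240))) (b (l 16749656) (l 16746936)))))) (b (b (a (b (l 3) (c (b (l 97341412567) (l 16775096)) (l 16776304))) (c (b (b (l 3) (l 84993381543)) (c (l 16773416) (l 16773448)))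 (b (l 16780640) (l 16773488)))) (c (b (a (l 16770968) (l 16767984)) (c (l 16763928) (l 16764096))) (b (l 16769624) (l 16764264)))) (b (b (c (a (l 16760112) (l 16757192)) (l 16758944)) (c (a (l 16754752) (l 16751792)) (c (l 16753600) (l 16753720)))) (b (c (l 16752856) (l 16748256)) (c (b (l 16743240) (l 16745632)) (b (l 16744168) (l 16741496))))))) (c (b (a (a (l 16747256) (l 16733960)) (c (l 16739752) (l 16729920))) (a (b (l 16721416) (l 16712208)) (b (l 16725912) (l 16706056)))) (b (c (a (l 16735952) (l 16730336)) (a (l 16736096) (l 16730504))) (a (c (l 16716896) (l 16716624)) (c (l 16711008) (l 16710784)))))) (b (b (c (a (b (l 16703056) (l 16694136)) (c (l 16692072) (l 16692264))) (a (l 16697856) (l 16691808))) (c (a (l 16681128) (l 16695200)) (a (l 16679704) (l 16673192)))) (b (a (c (l 16664664) (l 16662520)) (c (l 16657088) (l 16655416))) (a (l 16669256) (c (l 16640952) (l 16638632)))))), by decide +kernel⟩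

def k29_pm_102_s : ∃ t, chk3 f_pm_102_s t 25 5 1 = true :=
  ⟨(b (b (b (b (b (a (c (a (a (a (l 55465481895) (l 16778648)) (l 16774856)) (l 16773672)) (a (l 16775672) (l 16772384))) (c (a (l 16768816) (l 16765024)) (l 16766936))) (a (c (a (l 16770304) (l 16767024)) (a (l 16770384) (l 16767104))) (c (a (l 16763480) (l 16759640)) (l 16761664)))) (c (a (b (c (l 16768504) (l 16763384)) (a (l 16759536) (l 16756344))) (b (a (l 16758144) (l 16754296)) (a (l 16752856) (l 16748976)))) (a (b (l 16763496) (l 16758208)) (b (l 16756344) (l 16751080))))) (b (a (b (c (a (l 16754200) (l 16751008)) (l 16752960)) (c (l 16752408) (l 16747656))) (c (a (l 16755272) (l 16740952)) (a (l 16745176) (l 16741248)))) (b (c (a (l 16741624) (l 16734832)) (a (l 16742344) (l 16735432))) (c (a (b (l 16737376) (b (l 16745616) (l 16733904))) (b (l 16730728) (c (l 16737632) (l 16728360)))) (a (b (l 16738344) (l 16735712)) (b (l 16731504) (l 16728912))))))) (b (c (a (c (l 16744232) (l 16723968)) (c (l 16716504)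 (l 16717144))) (a (l 16734976) (l 16727976))) (c (a (b (l 16709192) (l 16720624)) (l 16697264)) (a (c (l 16704768) (l 16704536)) (b (l 16702376) (l 16692424)))))) (b (b (c (a (c (l 16706288) (l 16685672)) (c (l 16698768) (l 16678184))) (a (c (l 16685552) (l 16684968)) (c (l 16678016) (l 16677312)))) (a (c (l 16688208) (l 16666480)) (c (l 16680328) (l 16658608)))) (a (c (b (l 16649520) (l 16632680)) (b (l 16648216) (l 16630824))) (b (c (l 16641256) (l 16640088)) (c (l 16623792) (l 16622176)))))), by decide +kernel⟩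

def k30_pm_102_s : ∃ t, chk3 f_pm_102_s t 26 5 1 = true :=
  ⟨(a (b (b (b (b (c (b (a (l 16761008) (l 16756784)) (a (l 16755600) (l 16751352))) (b (l 16758840) (a (l 16755552) (l 16751224)))) (c (b (a (l 16750224) (l 16745952)) (l 16742720)) (b (l 16748016) (l 16742704)))) (b (c (b (l 16737376) (l 16732088)) (l 16741432)) (b (c (l 16726736) (l 16726960)) (b (c (a (l 16724856) (l 16720584)) (a (l 16725312) (l 16720736))) (c (b (b (b (l 16721304) (b (l 16721128) (l 16731544))) (l 16720704)) (l 16719752)) (b (b (b (l 16721584) (a (l 16723536) (l 16718768))) (l 16720680)) (l 16719704))))))) (c (b (a (l 16711032) (l 16706808)) (l 16699504)) (b (a (l 16711152) (l 16706144)) (a (l 16711800) (l 16685808))))) (b (c (b (l 16669408) (a (l 16652600) (l 16647856))) (b (a (l 16670952) (l 16665888)) (c (l 16649640) (l 16648312)))) (b (c (l 16652672) (l 16651208)) (c (l 16613760) (l 16612024))))) (b (b (b (b (b (a (c (l 16752368) (l 16752208)) (c (l 16747840) (l 16747648))) (c (l 16744656)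 (l 16744472))) (c (a (l 16738808) (l 16734272)) (l 16736336))) (b (c (b (l 16728464) (l 16723112)) (l 16725552)) (a (b (l 16714872) (b (c (b (l 16716752) (l 16715472)) (l 16715848)) (a (l 16714536) (l 16709288)))) (b (b (l 16716760) (l 16708848)) (b (b (l 16712000) (l 16710344)) (c (a (l 16688784) (l 16686152)) (l 16706896))))))) (a (c (b (l 16701976) (l 16681984)) (b (l 16721472) (l 16680080))) (b (c (b (l 16701720) (l 16691512)) (l 16715416)) (c (l 16676536) (l 16673736))))) (b (c (b (l 16685976) (l 16661520)) (b (c (l 16657976) (l 16656064)) (l 16658656))) (c (b (l 16642688) (l 16624296)) (b (c (l 16619840) (l 16617528)) (l 16642360)))))), by decide +kernel⟩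

def k31_pm_102_s : ∃ t, chk3 f_pm_102_s t 27 5 1 = true :=
  ⟨(b (b (b (b (a (c (b (l 16741128) (l 16735696)) (a (l 16740488) (l 16736064))) (c (b (l 16732208) (l 16726896)) (l 16729464))) (a (c (b (l 16730296) (l 16724864)) (l 16727296)) (c (a (l 16721072) (l 16716784)) (l 16707984)))) (b (b (a (c (l 16719488) (l 16718984)) (a (l 16712768) (c (l 16708640) (l 16707784)))) (a (c (l 16703464) (l 16713488)) (a (c (l 16707416) (l 16706408)) (c (l 16702488) (l 16701032))))) (b (a (a (b (l 16712152) (c (l 16709552) (l 16708736))) (b (c (l 16707760) (l 16706800)) (l 16704032))) (c (l 16698304) (l 16696216))) (a (a (b (l 16705784) (c (a (l 16683456) (l 16680688)) (l 16700856))) (b (l 16710616) (c (a (l 16680480) (l 16676288)) (l 16673640)))) (a (b (l 16694232) (c (a (l 16713976) (l 16710984)) (l 16709160))) (b (l 16688112) (a (c (l 16707944) (l 16683256)) (c (l 16704856) (l 16679920))))))))) (b (a (a (c (l 16711888) (l 16708944)) (c (l 16706008) (l 16702416))) (c (a (l 16699928)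 (l 16693672)) (a (l 16695728) (l 16688904)))) (a (c (c (l 16699968) (l 16687872)) (c (l 16685848) (l 16683416))) (c (a (l 16658368) (l 16651928)) (a (l 16653160) (l 16646024)))))) (b (a (b (c (a (l 16651336) (l 16645216)) (a (l 16647240) (l 16640192))) (c (l 16650328) (c (l 16625944) (l 16622824)))) (b (c (a (l 16638832) (l 16632280)) (a (l 16632928) (l 16625536))) (c (b (l 16621376) (l 16612168)) (b (l 16614632) (l 16605216))))) (c (b (a (l 16610752) (l 16598480)) (a (l 16592528) (l 16580520))) (b (a (l 16605648) (l 16612240)) (a (l 16587352) (l 16573088)))))), by decide +kernel⟩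

def k32_pm_102_s : ∃ t, chk3 f_pm_102_s t 14 40 1 = true :=
  ⟨(a (a (b (a (c (l 16722856) (l 16722832)) (l 16707736)) (a (b (l 16714928) (c (l 16709720) (l 16709032))) (b (c (l 16710392) (l 16709912)) (c (l 16704472) (l 16703440))))) (b (a (b (l 16715896) (l 16710464)) (b (l 16710184) (l 16703832))) (a (b (l 16704256) (l 16697288)) (b (l 16696944) (l 16710872))))) (a (b (a (b (l 16702704) (l 16674968)) (b (l 16673320) (l 16687504))) (a (c (l 16707520) (l 16705256)) (b (l 16680576) (l 16673496)))) (b (a (b (l 16685912) (l 16679096)) (b (l 16677968) (l 16671136))) (a (b (l 16672160) (l 16665064)) (b (l 16664176) (l 16657064)))))), by decide +kernel⟩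

def k33_pm_102_s : ∃ t, chk3 f_pm_102_s t 14 41 1 = true :=
  ⟨(a (b (a (b (a (c (l 16703728) (l 16702496)) (l 16696992)) (a (l 16696040) (l 16710624))) (a (b (l 16711088) (l 16682648)) (c (l 16701328) (l 16698024)))) (b (a (a (l 16698824) (l 16702736)) (c (l 16693808) (l 16689544))) (c (b (a (l 16701240) (l 16687176)) (a (b (a (c (l 16701744) (l 16678824)) (a (l 16695840) (l 16692360))) (l 16674392)) (b (b (b (l 16663168) (a (l 16665800) (l 16658104))) (l 16660960)) (l 16659944)))) (b (a (l 16676264) (l 16661176)) (a (a (a (l 16676536) (l 16673072)) (a (l 16669496) (l 16686752))) (a (a (l 16682904) (l 16678944)) (a (l 16674856) (l 16670664)))))))) (b (a (b (a (l 16674648) (l 16666184)) (a (l 16667032) (l 16658528))) (a (b (l 16657744) (l 16650096)) (b (l 16649736) (l 16642072)))) (b (a (a (l 16658776) (l 16671192)) (a (l 16662720) (b (l 16636008) (l 16631608)))) (a (b (a (l 16651592) (l 16642952)) (b (b (b (a (l 16648272) (l 16639576)) (a (c (l 16649992) (l 16643720)) (c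 (l 16641504) (l 16634744)))) (a (l 16645832) (l 16637088))) (a (l 16644792) (l 16636056)))) (b (a (l 16634424) (l 16626368)) (b (b (b (l 16626896) (a (c (l 16633144) (l 16625936)) (l 16642504))) (a (l 16628488) (l 16620384))) (a (l 16627472) (l 16619376)))))))), by decide +kernel⟩

def k34_pm_102_s : ∃ t, chk3 f_pm_102_s t 14 21 1 = true :=
  ⟨(a (a (b (c (a (b (l 16671656) (l 16660920)) (b (l 16664888) (l 16654136))) (a (b (l 16666704) (l 16655264)) (b (l 16659432) (l 16647936)))) (c (a (l 16645320) (l 16638400)) (a (l 16638752) (l 16631192)))) (b (a (c (b (l 16657688) (l 16646928)) (b (l 16651728) (l 16640176))) (c (b (l 16650024) (l 16639352)) (b (l 16643560) (l 16632064)))) (c (a (l 16631192) (l 16623568)) (a (l 16644336) (l 16636096))))) (a (b (a (c (b (l 16641952) (l 16631376)) (b (l 16634984) (l 16623552))) (c (b (l 16633528) (l 16623056)) (b (l 16626056) (l 16614696)))) (a (c (l 16636648) (l 16627616)) (c (l 16607520) (l 16597912)))) (b (a (b (a (l 16623456) (l 16619336))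 (l 16631568)) (c (l 16643776) (l 16624480))) (a (b (l 16599912) (l 16589336)) (b (l 16592128) (l 16581656)))))), by decide +kernel⟩

def k35_pm_102_s : ∃ t, chk3 f_pm_102_s t 14 11 1 = true :=
  ⟨(a (a (b (b (c (a (l 16625400) (l 16618320)) (a (l 16617848) (l 16610000))) (c (b (l 16607608) (l 16598312)) (b (l 16599072) (l 16589448)))) (b (c (l 16605768) (a (l 16579704) (l 16571416))) (c (l 16567240) (l 16557576)))) (b (b (c (a (l 16610904) (l 16603200)) (a (l 16601840) (l 16593424))) (c (b (l 16592488) (l 16583112)) (b (l 16582272) (l 16572424)))) (c (b (l 16611568) (l 16552184)) (b (a (l 16562752) (l 16553848)) (a (l 16544848) (l 16535752)))))) (b (b (a (a (c (l 16595320) (l 16584872)) (c (l 16587168) (l 16576048))) (a (b (l 16578880) (l 16568536)) (c (l 16572056) (l 16559816)))) (a (c (b (l 16576360) (l 16566848)) (b (l 16564600) (l 16554496))) (c (b (l 16560832) (l 16551280)) (b (l 16547760) (l 16537504))))) (a (b (c (a (l 16557376) (l 16549056)) (a (l 16544600) (l 16535360)))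 (c (a (l 16539992) (l 16531624)) (a (l 16526408) (l 16516968)))) (b (c (a (l 16541096) (l 16533840)) (a (l 16526560) (l 16518560))) (c (a (l 16523488) (l 16516160)) (a (l 16507800) (l 16499568))))))), by decide +kernel⟩

def k36_pm_102_s : ∃ t, chk3 f_pm_102_s t 15 40 1 = true :=
  ⟨(a (a (b (a (b (l 16670296) (l 16663480)) (b (l 16662712) (l 16655928))) (a (b (l 16656528) (l 16649400)) (b (l 16649000) (l 16641888)))) (b (a (b (l 16654992) (l 16648264)) (b (l 16646720) (l 16640072))) (a (b (l 16641384) (l 16634312)) (b (l 16633264) (l 16626256))))) (a (b (a (b (l 16637608) (l 16631064)) (b (l 16627568) (l 16621200))) (a (b (l 16624352) (l 16617432)) (b (l 16614584) (l 16607784)))) (b (a (b (l 16616256) (l 16610168)) (b (l 16603424) (l 16597792))) (a (b (l 16614360) (a (l 16599968) (l 16594464))) (b (c (l 16594664) (l 16589016)) (a (l 16588632) (l 16582472))))))), by decide +kernel⟩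

def k37_pm_102_s : ∃ t, chk3 f_pm_102_s t 15 41 1 = true :=
  ⟨(a (b (a (a (b (l 16642048) (l 16634360)) (b (l 16634544) (l 16626848))) (a (b (l 16627000) (l 16619328)) (b (l 16619000) (l 16632344)))) (b (a (a (b (l 16628296) (l 16623872)) (b (l 16620768) (l 16616336))) (a (b (l 16613256) (l 16608824)) (b (l 16605328) (l 16600912)))) (a (b (a (l 16618616) (l 16611048)) (b (b (b (l 16611336) (a (l 16613744) (l 16606152))) (l 16629720)) (l 16628736))) (b (a (l 16603536) (l 16616608)) (b (b (b (l 16596112) (a (l 16598616) (l 16590728))) (l 16593512)) (l 16592536)))))) (a (c (b (a (b (l 16613400) (l 16606248)) (b (l 16604008) (l 16596968))) (b (a (l 16598368) (l 16589184)) (b (a (l 16591336) (l 16582224)) (b (b (b (l 16583520) (a (l 16586616) (l 16577552))) (l 16581032)) (l 16580120))))) (b (a (b (l 16607000) (l 16599032)) (b (l 16597312) (l 16589448))) (b (a (l 16590336) (l 16580856)) (b (a (l 16582680) (l 16573288)) (b (b (b (l 16574472) (a (l 16577632) (l 16568288))) (l 16571824))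 (l 16570808)))))) (b (a (b (l 16600792) (l 16596112)) (b (a (l 16581904) (l 16575912)) (a (l 16574720) (l 16568888)))) (b (a (b (l 16577184) (l 16572928)) (b (l 16566136) (l 16561960))) (b (a (c (l 16572352) (l 16563120)) (c (l 16561656) (l 16552104))) (b (b (b (a (l 16564448) (l 16553656)) (a (l 16584016) (c (l 16557136) (l 16547280)))) (l 16556608)) (a (l 16560984) (l 16550264)))))))), by decide +kernel⟩

def k38_pm_102_s : ∃ t, chk3 f_pm_102_s t 15 21 1 = true :=
  ⟨(a (a (b (a (b (l 16626608) (l 16595144)) (b (l 16598120) (l 16587720))) (a (b (l 16584696) (l 16574344)) (c (l 16577872) (l 16566472)))) (b (a (b (l 16590608) (l 16580312)) (b (l 16582768) (l 16572520))) (a (b (l 16570144) (l 16560096)) (b (l 16562456) (l 16552520))))) (a (b (a (b (l 16574312) (l 16564144)) (b (l 16565208) (l 16555144))) (a (b (l 16554144) (l 16544328)) (b (l 16545232) (l 16535472)))) (b (a (b (l 16555376) (l 16545464)) (b (l 16544768) (l 16535032))) (a (b (l 16535664) (l 16526000)) (b (l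 16525384) (l 16515848)))))), by decide +kernel⟩

def k39_pm_102_s : ∃ t, chk3 f_pm_102_s t 15 11 1 = true :=
  ⟨(b (a (a (b (c (a (l 16565144) (l 16558424)) (a (l 16552440) (l 16545296))) (b (c (l 16547264) (l 16533176)) (c (l 16537744) (l 16522856)))) (b (a (c (l 16551696) (l 16538168)) (c (l 16544568) (l 16530656))) (c (a (l 16553824) (b (l 16530600) (l 16521440))) (a (l 16517680) (l 16510408))))) (a (b (a (b (l 16534624) (l 16525048)) (b (l 16525904) (l 16516448))) (b (a (l 16515528) (l 16507112)) (c (a (l 16514072) (l 16506056)) (a (l 16497544) (l 16489056))))) (b (a (b (l 16516504) (l 16507184)) (b (l 16506456) (l 16497208))) (b (a (c (l 16505992) (l 16489480)) (c (l 16496400) (l 16479424))) (a (c (l 16497368) (l 16479872)) (c (l 16487936) (l 16469936))))))) (b (a (a (c (a (l 16527184) (l 16520792)) (a (l 16511248) (l 16504248))) (c (a (l 16514552) (l 16508032)) (a (l 16497440) (l 16490368)))) (a (c (a (b (l 16505264) (l 16496536)) (b (l 16497432) (l 16488872))) (a (l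 16482672) (l 16474344))) (a (c (b (l 16488944) (l 16480568)) (b (l 16470152) (l 16460552))) (c (b (l 16479744) (l 16471584)) (b (l 16460384) (l 16450912)))))) (a (a (c (a (l 16509392) (l 16503016)) (a (l 16491976) (l 16484840))) (c (a (l 16496888) (b (l 16494792) (l 16486160))) (a (l 16478008) (l 16470880)))) (b (a (c (a (l 16487888) (l 16480384)) (a (l 16468088) (l 16459904))) (a (c (l 16472256) (l 16451072)) (l 6))) (a (a (a (l 16492200) (l 16488480)) (l 6)) (l 6)))))), by decide +kernel⟩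

def k40_pm_102_s : ∃ t, chk3 f_pm_102_s t 6 6 1 = true :=
  ⟨(b (a (a (a (b (b (l 16634144) (l 16621080)) (l 2)) (b (b (l 16645896) (l 16611136)) (b (l 16598432) (l 2)))) (b (c (a (b (l 16616864) (l 16602320)) (b (l 16607232) (l 16591704))) (a (l 16627728) (b (l 16605168) (l 16589184)))) (a (b (l 16587776) (l 16575416)) (b (l 16576440) (l 16563304))))) (a (b (b (c (a (l 16596520) (l 16585504)) (a (l 16594464) (l 16582616))) (a (c (l 16580192) (l 16577816)) (c (l 16568320) (l 16565416)))) (c (a (b (l 16564904) (l 16550856)) (b (l 16552056) (l 16536840))) (a (l 16554888) (b (l 16549104) (l 16533816))))) (b (c (a (b (l 16574736) (l 16557424)) (b (l 16562944) (l 16545800))) (a (b (l 16569600) (l 16552424)) (b (l 16555448) (l 16538352)))) (c (a (b (l 16540624) (l 16524560)) (b (l 16529144) (l 16513008))) (a (b (l 16535816) (l 16520032)) (b (l 16521840) (l 16505928))))))) (b (b (a (a (l 2) (a (l 2) (l 16551264))) (a (a (l 16537096) (l 16522056)) (a (c (l 16509360) (l 16505168))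 (l 6)))) (a (l 2) (l 6))) (l 6))), by decide +kernel⟩

def k41_pm_102_s : ∃ t, chk3 f_pm_102_s t 7 6 1 = true :=
  ⟨(a (b (a (b (c (a (b (l 16549952) (l 16533056)) (b (l 16535328) (l 16518744))) (a (b (l 16540088) (l 16554576)) (b (l 16523048) (l 16506264)))) (b (c (a (l 16516600) (l 16502560)) (a (l 16506720) (c (l 16493632) (l 16486056)))) (a (c (l 16500624) (l 16490920)) (l 6)))) (b (a (b (c (l 16539984) (a (l 16509232) (l 16499616))) (c (l 16502880) (c (l 16491992) (l 16483304)))) (c (b (a (l 16506864) (l 16499512)) (a (l 16490952) (l 16483600))) (b (a (l 16490384) (l 16481976)) (a (l 16473960) (l 16486368))))) (a (b (b (c (l 16490952) (l 16475672)) (l 6)) (l 6)) (l 6)))) (l 6)) (b (b (a (a (a (b (c (l 16492592) (l 16474056)) (c (l 16476768) (c (l 16462688) (l 16451880)))) (b (c (l 16486168) (l 16487680)) (l 6))) (b (a (c (l 16479960) (c (l 16465080) (l 16453928))) (b (c (l 16477704) (l 16456888)) (l 6))) (l 6))) (l 6)) (l 6)) (l 6))), by decide +kernel⟩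

def k42_pm_102_s : ∃ t, chk3 f_pm_102_s t 3 7 1 = true :=
  ⟨(l 6), by decide +kernel⟩

theorem s43_pm_102_s : ∃ t, chk3 f_pm_102_s t 3 6 1 = true := ex3_a k40_pm_102_s k41_pm_102_s

theorem s44_pm_102_s : ∃ t, chk3 f_pm_102_s t 3 3 1 = true := ex3_b s43_pm_102_s k42_pm_102_s

theorem s45_pm_102_s : ∃ t, chk3 f_pm_102_s t 15 20 1 = true := ex3_b k36_pm_102_s k37_pm_102_s

theorem s46_pm_102_s : ∃ t, chk3 f_pm_102_s t 15 10 1 = true := ex3_b s45_pm_102_s k38_pm_102_s

theorem s47_pm_102_s : ∃ t, chk3 f_pm_102_s t 15 5 1 = true := ex3_b s46_pm_102_s k39_pm_102_s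

theorem s48_pm_102_s : ∃ t, chk3 f_pm_102_s t 14 20 1 = true := ex3_b k32_pm_102_s k33_pm_102_s

theorem s49_pm_102_s : ∃ t, chk3 f_pm_102_s t 14 10 1 = true := ex3_b s48_pm_102_s k34_pm_102_s

theorem s50_pm_102_s : ∃ t, chk3 f_pm_102_s t 14 5 1 = true := ex3_b s49_pm_102_s k35_pm_102_s

theorem s51_pm_102_s : ∃ t, chk3 f_pm_102_s t 7 5 1 = true := ex3_a s50_pm_102_s s47_pm_102_s

theorem s52_pm_102_s : ∃ t, chk3 f_pm_102_s t 13 5 1 = true := ex3_a k30_pm_102_s k31_pm_102_s

theorem s53_pm_102_s : ∃ t, chk3 f_pm_102_s t 12 5 1 = true := ex3_a k28_pm_102_s k29_pm_102_s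

theorem s54_pm_102_s : ∃ t, chk3 f_pm_102_s t 6 5 1 = true := ex3_a s53_pm_102_s s52_pm_102_s

theorem s55_pm_102_s : ∃ t, chk3 f_pm_102_s t 3 5 1 = true := ex3_a s54_pm_102_s s51_pm_102_s

theorem s56_pm_102_s : ∃ t, chk3 f_pm_102_s t 7 19 1 = true := ex3_a k26_pm_102_s k27_pm_102_s

theorem s57_pm_102_s : ∃ t, chk3 f_pm_102_s t 15 18 1 = true := ex3_a k24_pm_102_s k25_pm_102_s

theorem s58_pm_102_s : ∃ t, chk3 f_pm_102_s t 14 18 1 = true := ex3_a k22_pm_102_s k23_pm_102_s

theorem s59_pm_102_s : ∃ t, chk3 f_pm_102_s t 7 18 1 = true := ex3_a s58_pm_102_s s57_pm_102_s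

theorem s60_pm_102_s : ∃ t, chk3 f_pm_102_s t 7 9 1 = true := ex3_b s59_pm_102_s s56_pm_102_s

theorem s61_pm_102_s : ∃ t, chk3 f_pm_102_s t 62 34 1 = true := ex3_b k18_pm_102_s k19_pm_102_s

theorem s62_pm_102_s : ∃ t, chk3 f_pm_102_s t 62 17 1 = true := ex3_b s61_pm_102_s k20_pm_102_s

theorem s63_pm_102_s : ∃ t, chk3 f_pm_102_s t 31 17 1 = true := ex3_a s62_pm_102_s k21_pm_102_s

theorem s64_pm_102_s : ∃ t, chk3 f_pm_102_s t 30 35 1 = true := ex3_a k16_pm_102_s k17_pm_102_s

theorem s65_pm_102_s : ∃ t, chk3 f_pm_102_s t 61 34 1 = true := ex3_b k14_pm_102_s k15_pm_102_s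

theorem s66_pm_102_s : ∃ t, chk3 f_pm_102_s t 30 34 1 = true := ex3_a k13_pm_102_s s65_pm_102_s

theorem s67_pm_102_s : ∃ t, chk3 f_pm_102_s t 30 17 1 = true := ex3_b s66_pm_102_s s64_pm_102_s

theorem s68_pm_102_s : ∃ t, chk3 f_pm_102_s t 15 17 1 = true := ex3_a s67_pm_102_s s63_pm_102_s

theorem s69_pm_102_s : ∃ t, chk3 f_pm_102_s t 15 8 1 = true := ex3_b k12_pm_102_s s68_pm_102_s

theorem s70_pm_102_s : ∃ t, chk3 f_pm_102_s t 7 8 1 = true := ex3_a k11_pm_102_s s69_pm_102_s

theorem s71_pm_102_s : ∃ t, chk3 f_pm_102_s t 7 4 1 = true := ex3_b s70_pm_102_s s60_pm_102_s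

theorem s72_pm_102_s : ∃ t, chk3 f_pm_102_s t 6 19 1 = true := ex3_a k9_pm_102_s k10_pm_102_s

theorem s73_pm_102_s : ∃ t, chk3 f_pm_102_s t 6 9 1 = true := ex3_b k8_pm_102_s s72_pm_102_s

theorem s74_pm_102_s : ∃ t, chk3 f_pm_102_s t 6 4 1 = true := ex3_b k7_pm_102_s s73_pm_102_s

theorem s75_pm_102_s : ∃ t, chk3 f_pm_102_s t 3 4 1 = true := ex3_a s74_pm_102_s s71_pm_102_s

theorem s76_pm_102_s : ∃ t, chk3 f_pm_102_s t 3 2 1 = true := ex3_b s75_pm_102_s s55_pm_102_s

theorem s77_pm_102_s : ∃ t, chk3 f_pm_102_s t 3 1 1 = true := ex3_b s76_pm_102_s s44_pm_102_s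

theorem s78_pm_102_s : ∃ t, chk3 f_pm_102_s t 5 20 1 = true := ex3_b k2_pm_102_s k3_pm_102_s

theorem s79_pm_102_s : ∃ t, chk3 f_pm_102_s t 5 10 1 = true := ex3_b s78_pm_102_s k4_pm_102_s

theorem s80_pm_102_s : ∃ t, chk3 f_pm_102_s t 2 10 1 = true := ex3_a k1_pm_102_s s79_pm_102_s

theorem s81_pm_102_s : ∃ t, chk3 f_pm_102_s t 2 5 1 = true := ex3_b s80_pm_102_s k5_pm_102_s

theorem s82_pm_102_s : ∃ t, chk3 f_pm_102_s t 2 2 1 = true := ex3_b k0_pm_102_s s81_pm_102_s

theorem s83_pm_102_s : ∃ t, chk3 f_pm_102_s t 2 1 1 = true := ex3_b s82_pm_102_s k6_pm_102_s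

theorem s84_pm_102_s : ∃ t, chk3 f_pm_102_s t 1 1 1 = true := ex3_a s83_pm_102_s s77_pm_102_s

theorem c_pm_102_s : CertNE 536870912 536870912 0 536870912 780900216 37827925 3 eng mog cd0q1 cd0q0 pd2 true true false .npp 1 0 2
    ndB0q1 ndB0q0 pcB2 cut_pm_102_s Ext.none :=
  certNE1 (fam := true) (s1 := true) (s2 := false) (a := 1) (b := 0) (c := 2) (cn := .npp) (n1 := ndB0q1) (n2 := ndB0q0) (pc := pcB2) (cut := cut_pm_102_s) (xt := Ext.none) (P1 := 536870912) (W1 := 536870912) (P2 := 0) (W2 := 536870912) (P3 := 780900216) (W3 := 37827925) (N0 := 3) (En := eng) (mo := mog) (C1 := cd0q1) (C2 := cd0q0) (C3 := pd2)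
    rfl (fun _ => rfl) s84_pm_102_s

noncomputable def cut_pm_102_t : Cut := Cut.of [[⟨3, 0, 0, 2845415833⟩], [⟨0, 1, 0, 67108864⟩, ⟨1, 0, 0, 67108864⟩, ⟨2, 1, 0, 67108864⟩]]

noncomputable def f_pm_102_t : ℕ → ℕ → ℕ → ℕ → Bool := onCell 536870912 536870912 0 536870912 780900216 37827925
    (rowNE 3 eng mog cd0q1 cd0q0 pd2 0 true true false .npp 1 0 2 (qsf 536870912 536870912 0 536870912 2) ndB0q1 ndB0q0 pcB2 cut_pm_102_t Ext.none)

def k0_pm_102_t : ∃ t, chk3 f_pm_102_t t 1 1 1 = true :=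
  ⟨(l 6), by decide +kernel⟩

theorem c_pm_102_t : CertNE 536870912 536870912 0 536870912 780900216 37827925 3 eng mog cd0q1 cd0q0 pd2 true true false .npp 1 0 2
    ndB0q1 ndB0q0 pcB2 cut_pm_102_t Ext.none :=
  certNE0 (fam := true) (s1 := true) (s2 := false) (a := 1) (b := 0) (c := 2) (cn := .npp) (n1 := ndB0q1) (n2 := ndB0q0) (pc := pcB2) (cut := cut_pm_102_t) (xt := Ext.none) (P1 := 536870912) (W1 := 536870912) (P2 := 0) (W2 := 536870912) (P3 := 780900216) (W3 := 37827925) (N0 := 3) (En := eng) (mo := mog) (C1 := cd0q1) (C2 := cd0q0) (C3 := pd2)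
    rfl k0_pm_102_t

noncomputable def cut_pm_112_s : Cut := Cut.of [[⟨4, 0, 0, 1449551462⟩]]

noncomputable def f_pm_112_s : ℕ → ℕ → ℕ → ℕ → Bool := onCell 1073741824 536870912 536870912 536870912 780900216 37827925
    (rowNE 3 eng mog cd0q1 cd0q1 pd2 2 true true false .dn 1 1 2 (qsf 536870912 536870912 536870912 536870912 2) ndB0q1 ndB0q1 pcB2 cut_pm_112_s Ext.none)

def k0_pm_112_s : ∃ t, chk3 f_pm_112_s t 4 2 1 = true :=
  ⟨(a (l 3) (l 3)), by decide +kernel⟩

def k1_pm_112_s : ∃ t, chk3 f_pm_112_s t 10 2 1 = true :=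
  ⟨(a (b (a (l 3) (a (l 3) (a (a (l 3) (b (b (b (l 16776608) (l 3)) (l 3)) (l 3))) (b (b (a (a (c (l 16797880) (l 16776880)) (c (l 16775920) (l 16775816))) (b (l 16773624) (l 16775008))) (a (a (l 3) (l 16776904)) (l 16776064))) (a (b (l 3) (a (l 3) (l 16776992))) (b (l 16776592) (l 16776032))))))) (b (a (l 3) (b (a (l 3) (a (a (l 3) (b (l 16775872) (l 16776968))) (a (a (c (l 16797632) (l 16776616)) (l 16791408)) (c (l 16795336) (l 16774136))))) (a (l 1) (a (l 1) (a (l 1) (b (l 16771640) (l 1))))))) (l 1))) (a (b (b (b (b (l 16774328) (l 16765840)) (b (l 16767192) (l 16767752))) (b (b (l 16768168) (l 16768256)) (b (l 16768016) (l 16767448)))) (b (b (b (l 16766568) (l 16775512)) (b (c (l 16763120) (l 16762280)) (c (l 16770256) (l 16759008)))) (l 1))) (b (b (b (b (a (l 16750168) (l 16740624)) (l 16749016)) (b (l 16751264) (l 16752696))) (b (b (l 16753256) (l 16753584)) (b (l 16753480) (l 16752952)))) (b (b (b (l 16752024) (l 16750384)) (b (a (l 16751088) (l 16743736)) (a (l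 16747200) (l 16739552)))) (b (b (a (l 1) (l 16734352)) (l 1)) (l 1)))))), by decide +kernel⟩

def k2_pm_112_s : ∃ t, chk3 f_pm_112_s t 11 2 1 = true :=
  ⟨(b (b (b (a (b (a (c (l 16726704) (l 16724168)) (l 16725632)) (a (l 16730912) (l 16711360))) (a (b (l 16682936) (l 16690928)) (b (l 16660944) (l 16669592)))) (b (a (a (l 16734784) (l 16717056)) (a (l 16697904) (l 16677896))) (a (a (l 16737128) (l 16721048)) (l 16715032)))) (a (b (b (a (l 16738568) (l 16723408)) (l 16774152)) (b (l 16732048) (l 16752744))) (b (a (l 16708864) (l 16693040)) (a (l 16711608) (l 16697536))))) (b (a (b (a (b (l 16737904) (l 16736208)) (l 16744328)) (a (b (l 16733088) (a (l 16732096) (l 16724920))) (b (l 16719296) (l 16714544)))) (a (b (l 16709992) (l 16703712)) (b (l 16696968) (l 16690896)))) (b (a (b (a (c (l 16723968) (l 16721608)) (l 16708248)) (a (c (l 16717312) (l 16715376)) (l 16722160))) (a (b (l 16694712) (l 16687000)) (b (l 16681752) (l 16673872)))) (a (a (l 1) (b (l 48351847463) (l 1)))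 (a (b (l 16700136) (l 44056831175)) (b (l 16665344) (l 16656824))))))), by decide +kernel⟩

def k3_pm_112_s : ∃ t, chk3 f_pm_112_s t 2 3 1 = true :=
  ⟨(a (l 1) (b (a (l 1) (a (l 1) (b (b (a (l 1) (b (l 16669272) (l 1))) (l 1)) (l 1)))) (l 1))), by decide +kernel⟩

def k4_pm_112_s : ∃ t, chk3 f_pm_112_s t 3 1 1 = true :=
  ⟨(a (b (a (b (b (b (a (b (a (l 16638632) (l 16615976)) (a (l 16647976) (l 16626032))) (b (a (l 16593128) (l 16569264)) (a (l 16603744) (l 16581248)))) (a (a (a (l 16666472) (l 16656288)) (l 16682312)) (a (l 16661192) (l 16618744)))) (b (a (b (l 16663224) (l 16669496)) (b (l 16623688) (l 16633032))) (a (l 16759592) (l 16685912)))) (b (a (b (l 16741048) (l 16735440)) (b (l 16673000) (l 16691832))) (b (a (b (l 16663432) (l 16676320)) (l 16700040)) (a (a (a (l 16693032) (l 16644736)) (l 16688224)) (b (l 16623864) (l 16613952)))))) (a (b (b (b (b (a (l 16544192) (l 6)) (a (l 16557712) (l 16532936))) (b (a (l 16570288) (l 16547120)) (a (l 16581912) (l 16560256))))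 (b (b (l 16582696) (l 16593832)) (b (l 16604056) (l 16613384)))) (b (b (l 16623512) (l 16627144)) (b (l 16638496) (b (l 16604216) (l 16594008))))) (b (b (l 6) (l 6)) (l 6)))) (b (a (b (b (b (a (a (l 16634160) (l 16621080)) (l 16645392)) (a (a (l 16624936) (l 16611144)) (a (l 16598432) (l 16586856)))) (b (a (a (l 1) (l 16601240)) (a (l 16587784) (l 16575416))) (a (l 1) (a (l 16576448) (l 16563312))))) (b (a (l 1) (b (c (l 53183451175) (l 16554936)) (l 1))) (l 1))) (a (a (b (b (l 16581888) (b (l 16564200) (l 16551264))) (b (b (l 16537104) (l 16522072)) (l 1))) (b (b (l 16572320) (b (l 16553896) (l 16540376))) (l 6))) (l 6))) (b (a (l 1) (l 6)) (l 1)))) (b (b (l 6) (l 6)) (l 6))), by decide +kernel⟩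

theorem s5_pm_112_s : ∃ t, chk3 f_pm_112_s t 5 2 1 = true := ex3_a k1_pm_112_s k2_pm_112_s

theorem s6_pm_112_s : ∃ t, chk3 f_pm_112_s t 2 2 1 = true := ex3_a k0_pm_112_s s5_pm_112_s

theorem s7_pm_112_s : ∃ t, chk3 f_pm_112_s t 2 1 1 = true := ex3_b s6_pm_112_s k3_pm_112_s

theorem s8_pm_112_s : ∃ t, chk3 f_pm_112_s t 1 1 1 = true := ex3_a s7_pm_112_s k4_pm_112_s

theorem c_pm_112_s : CertNE 536870912 536870912 536870912 536870912 780900216 37827925 3 eng mog cd0q1 cd0q1 pd2 true true false .dn 1 1 2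
    ndB0q1 ndB0q1 pcB2 cut_pm_112_s Ext.none :=
  certNE2 (fam := true) (s1 := true) (s2 := false) (a := 1) (b := 1) (c := 2) (cn := .dn) (n1 := ndB0q1) (n2 := ndB0q1) (pc := pcB2) (cut := cut_pm_112_s) (xt := Ext.none) (P1 := 536870912) (W1 := 536870912) (P2 := 536870912) (W2 := 536870912) (P3 := 780900216) (W3 := 37827925) (N0 := 3) (En := eng) (mo := mog) (C1 := cd0q1) (C2 := cd0q1) (C3 := pd2)
    rfl (fun _ => rfl) s8_pm_112_s

noncomputable def cut_pm_112_t : Cut := Cut.of [[⟨3, 0, 0, 2845415833⟩]]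

noncomputable def f_pm_112_t : ℕ → ℕ → ℕ → ℕ → Bool := onCell 536870912 536870912 1073741824 536870912 780900216 37827925
    (rowNE 3 eng mog cd0q1 cd0q1 pd2 1 true true false .dn 1 1 2 (qsf 536870912 536870912 536870912 536870912 2) ndB0q1 ndB0q1 pcB2 cut_pm_112_t Ext.none)

def k0_pm_112_t : ∃ t, chk3 f_pm_112_t t 1 1 1 = true :=
  ⟨(l 6), by decide +kernel⟩

theorem c_pm_112_t : CertNE 536870912 536870912 536870912 536870912 780900216 37827925 3 eng mog cd0q1 cd0q1 pd2 true true false .dn 1 1 2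
    ndB0q1 ndB0q1 pcB2 cut_pm_112_t Ext.none :=
  certNE1 (fam := true) (s1 := true) (s2 := false) (a := 1) (b := 1) (c := 2) (cn := .dn) (n1 := ndB0q1) (n2 := ndB0q1) (pc := pcB2) (cut := cut_pm_112_t) (xt := Ext.none) (P1 := 536870912) (W1 := 536870912) (P2 := 536870912) (W2 := 536870912) (P3 := 780900216) (W3 := 37827925) (N0 := 3) (En := eng) (mo := mog) (C1 := cd0q1) (C2 := cd0q1) (C3 := pd2)
    rfl (fun _ => rfl) k0_pm_112_t

noncomputable def cut_pm_113_s : Cut := Cut.of [[⟨4, 0, 0, 1449551462⟩], [⟨0, 1, 0, 67108864⟩, ⟨1, 1, 0, 67108864⟩, ⟨2, 2, 0, 16777216⟩], [⟨0, 0, 1, 26214400⟩, ⟨1, 1, 0, 33554432⟩, ⟨2, 1, 1, 26214400⟩], [⟨0, 1, 0, 33554432⟩, ⟨1, 0, 1, 26214400⟩, ⟨2, 1, 1, 26214400⟩]]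

noncomputable def f_pm_113_s : ℕ → ℕ → ℕ → ℕ → Bool := onCell 1610612736 536870912 536870912 536870912 780900216 37827925
    (rowNE 3 eng mog cd0q1 cd0q1 pd3 2 true true false .nn 1 1 3 (qsf 536870912 536870912 536870912 536870912 3) ndB0q1 ndB0q1 pcB3 cut_pm_113_s Ext.none)

def k0_pm_113_s : ∃ t, chk3 f_pm_113_s t 1 1 1 = true :=
  ⟨(a (b (a (l 6) (l 6)) (l 6)) (l 6)), by decide +kernel⟩

theorem c_pm_113_s : CertNE 536870912 536870912 536870912 536870912 780900216 37827925 3 eng mog cd0q1 cd0q1 pd3 true true false .nn 1 1 3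
    ndB0q1 ndB0q1 pcB3 cut_pm_113_s Ext.none :=
  certNE2 (fam := true) (s1 := true) (s2 := false) (a := 1) (b := 1) (c := 3) (cn := .nn) (n1 := ndB0q1) (n2 := ndB0q1) (pc := pcB3) (cut := cut_pm_113_s) (xt := Ext.none) (P1 := 536870912) (W1 := 536870912) (P2 := 536870912) (W2 := 536870912) (P3 := 780900216) (W3 := 37827925) (N0 := 3) (En := eng) (mo := mog) (C1 := cd0q1) (C2 := cd0q1) (C3 := pd3)
    rfl (fun _ => rfl) k0_pm_113_s

noncomputable def cut_pm_113_t : Cut := Cut.of [[⟨3, 0, 0, 2845415833⟩], [⟨0, 1, 0, 67108864⟩, ⟨1, 1, 0, 67108864⟩, ⟨2, 2, 0, 16777216⟩], [⟨0, 0, 1, 26214400⟩, ⟨1, 1, 0, 33554432⟩, ⟨2, 1, 1, 26214400⟩], [⟨0, 1, 0, 33554432⟩, ⟨1, 0, 1, 26214400⟩, ⟨2, 1, 1, 26214400⟩]]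

noncomputable def f_pm_113_t : ℕ → ℕ → ℕ → ℕ → Bool := onCell 536870912 536870912 536870912 536870912 780900216 37827925
    (rowNE 3 eng mog cd0q1 cd0q1 pd3 0 true true false .nn 1 1 3 (qsf 536870912 536870912 536870912 536870912 3) ndB0q1 ndB0q1 pcB3 cut_pm_113_t Ext.none)

def k0_pm_113_t : ∃ t, chk3 f_pm_113_t t 2 1 1 = true :=
  ⟨(l 6), by decide +kernel⟩

def k1_pm_113_t : ∃ t, chk3 f_pm_113_t t 3 2 1 = true :=
  ⟨(l 6), by decide +kernel⟩

def k2_pm_113_t : ∃ t, chk3 f_pm_113_t t 6 3 1 = true :=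
  ⟨(b (l 6) (b (l 6) (a (l 6) (b (l 6) (a (l 6) (b (l 6) (b (l 6) (a (l 6) (a (l 6) (b (l 6) (c (l 16748312) (l 16742304)))))))))))), by decide +kernel⟩

def k3_pm_113_t : ∃ t, chk3 f_pm_113_t t 7 6 1 = true :=
  ⟨(a (l 6) (b (l 6) (a (l 6) (b (l 6) (a (l 6) (a (l 6) (b (l 6) (a (l 6) (b (l 6) (c (l 16748312) (b (l 16740376) (l 16744176)))))))))))), by decide +kernel⟩

def k4_pm_113_t : ∃ t, chk3 f_pm_113_t t 14 7 1 = true :=
  ⟨(b (l 6) (b (a (l 6) (a (b (l 6) (c (l 16843512) (l 16823320))) (b (l 16860592) (c (l 16853344) (l 16813416))))) (a (b (a (c (l 16770272) (l 16766496)) (c (l 16783688) (b (l 16810320) (l 16798088)))) (b (a (c (l 16773432) (a (l 16765664) (l 16773480))) (c (l 16785880) (l 16763824))) (a (c (a (l 16757744) (l 16763848)) (a (b (l 16756248) (l 16749664)) (b (l 16763616) (l 16756728)))) (b (a (l 16771832) (l 16778048)) (c (l 16769176) (a (l 16763552) (l 16770024))))))) (b (a (b (c (l 16823888) (l 16826504)) (c (l 16810736) (l 16813144))) (b (c (l 16833000)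 (l 16837472)) (c (l 16819160) (a (l 16821976) (l 16825936))))) (a (a (b (l 16773704) (c (l 16780440) (b (l 16783896) (l 16776056)))) (b (l 16779400) (c (l 16785120) (l 16764688)))) (b (c (l 16783832) (a (l 16806576) (l 16810000))) (c (a (l 16788664) (l 16790696)) (a (l 16769120) (l 16771912))))))))), by decide +kernel⟩

def k5_pm_113_t : ∃ t, chk3 f_pm_113_t t 15 14 1 = true :=
  ⟨(a (b (l 6) (b (a (l 6) (b (l 16798168) (l 16805040))) (a (l 16860592) (c (l 16811400) (l 16813416))))) (b (a (a (b (l 6) (c (l 16810920) (l 16810320))) (b (l 6) (c (l 16798680) (l 16798088)))) (a (b (c (l 16773432) (b (l 16765664) (l 16773480))) (c (l 16785880) (b (l 16781080) (l 16788344)))) (b (c (b (l 16757744) (l 16763848)) (b (c (l 16754128) (a (l 16755160) (l 16748504))) (c (l 16761056) (l 16759360)))) (c (b (l 16769720) (l 16775280)) (b (a (l 16770744) (l 16763552)) (a (l 16777536) (l 16770024))))))) (a (b (a (b (l 16800592) (l 16828160)) (b (l 16787512) (l 16793736))) (a (c (l 16833000)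 (l 16816504)) (c (l 16819160) (b (l 16821976) (l 16825936))))) (b (c (a (l 16776152) (b (l 16780440) (l 16785120))) (a (b (l 16795176) (l 16801496)) (b (a (l 16783896) (l 16776056)) (l 16764688)))) (a (c (l 16794320) (b (l 16806576) (l 16810000))) (c (b (l 16788664) (l 16790696)) (b (l 16774360) (a (l 16797272) (l 16788472))))))))), by decide +kernel⟩

def k6_pm_113_t : ∃ t, chk3 f_pm_113_t t 30 15 1 = true :=
  ⟨(a (b (b (l 16885672) (c (l 16856824) (l 16858544))) (b (c (b (l 16835944) (a (l 16821736) (l 16821960))) (b (l 16840304) (a (l 16827920) (l 16807160)))) (b (a (c (l 16806976) (l 16812064)) (c (l 16786144) (b (l 16817432) (l 16808568)))) (a (c (l 16770528) (b (l 16798872) (l 16789760))) (c (b (l 16795384) (l 16787336)) (b (l 16799408) (l 16789984))))))) (b (b (b (l 16815392) (l 16815624)) (c (l 16835168) (l 16834952))) (b (a (b (l 16836760) (c (l 16821248) (l 16826720))) (c (b (l 16834232) (l 16820088)) (l 16798544))) (b (a (c (b (l 16810544) (l 16802736)) (b (l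 16796368) (l 16808616))) (c (c (l 16804320) (l 16786136)) (b (l 16815664) (c (l 16806576) (l 16809952))))) (a (c (b (l 16794672) (l 16765472)) (b (l 16799152) (l 16778936))) (c (b (l 16793768) (a (l 16785632) (l 16785112))) (b (l 16777616) (b (l 16791088) (l 16775520))))))))), by decide +kernel⟩

def k7_pm_113_t : ∃ t, chk3 f_pm_113_t t 31 30 1 = true :=
  ⟨(a (b (c (a (l 16835944) (b (l 16821736) (l 16821960))) (a (l 16840304) (b (l 16827920) (l 16807160)))) (b (a (l 16836760) (c (l 16821248) (l 16826720))) (c (a (l 16834232) (l 16820088)) (l 16798544)))) (c (a (b (b (l 16806976) (a (l 16811032) (l 16803288))) (b (a (l 16810544) (l 16802736)) (c (l 16804320) (l 16786136)))) (b (b (l 16775776) (a (l 16795384) (l 16787336))) (b (a (l 16794672) (c (l 16785816) (l 16787120))) (a (l 16783280) (c (l 16784680) (l 16786104)))))) (b (a (b (l 16812064) (a (l 16817432) (l 16808568))) (a (a (l 16780600) (l 16786512)) (b (l 16789760) (l 16789984)))) (a (b (a (l 16796368) (l 16808616))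 (a (l 16815664) (b (l 16808384) (l 16787144)))) (a (b (l 16799152) (b (l 16798728) (l 16798432))) (b (b (l 16789616) (l 16789208)) (a (l 16791088) (l 16775520)))))))), by decide +kernel⟩

def k8_pm_113_t : ∃ t, chk3 f_pm_113_t t 31 62 1 = true :=
  ⟨(b (a (a (l 16833032) (a (l 16823168) (l 16816704))) (a (c (a (l 16808200) (b (l 16801304) (l 16779736))) (a (l 16812672) (a (l 16808456) (l 16784104)))) (a (c (b (l 16793152) (c (l 16791632) (l 16793936))) (b (l 16777168) (c (l 16796448) (l 16778200)))) (a (c (b (l 16786776) (l 16786328)) (b (l 16790464) (l 16790024))) (c (b (l 16782464) (l 16781976)) (b (l 16785256) (l 16784736))))))) (b (a (a (l 16823168) (l 16797088)) (a (a (l 16808424) (c (l 16779048) (l 16804472))) (a (a (c (l 16794488) (l 16799752)) (c (l 16790272) (l 16794864))) (a (c (l 16785912) (l 16789560)) (c (c (l 16780920) (l 16782128)) (c (l 16783472) (l 16784952))))))) (a (c (l 16796256) (l 16795504)) (a (c (b (l 16781976) (l 16781576)) (l 16794552)) (a (c (c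 (l 16780368) (l 16777136)) (a (l 16798296) (b (l 16773584) (l 16783768)))) (a (c (l 16782904) (c (l 16788128) (l 16790056))) (c (c (l 16780512) (l 16781664)) (c (l 16782936) (l 16779096))))))))), by decide +kernel⟩

def k9_pm_113_t : ∃ t, chk3 f_pm_113_t t 62 63 1 = true :=
  ⟨(a (b (c (b (l 16808200) (a (l 16801304) (l 16779736))) (b (l 16812672) (a (l 16807368) (l 16806144)))) (b (b (a (l 16776880) (c (l 16794904) (l 16800376))) (c (l 16790840) (l 16774456))) (b (c (l 16778688) (a (l 16790464) (l 16790024))) (c (a (l 16782464) (l 16781976)) (a (l 16785256) (l 16784736)))))) (a (b (b (l 16808424) (c (l 16779048) (l 16804472))) (b (b (c (l 16794488) (l 16799752)) (c (l 16790272) (l 16794864))) (b (c (l 16785912) (l 16789560)) (c (c (l 16780920) (l 16782128)) (l 16780264))))) (b (c (l 16781784) (l 16794552)) (b (c (c (l 16780368) (l 16782376)) (b (l 16798296) (a (l 16773584) (l 16783768)))) (b (c (l 16780280) (c (l 16788128) (l 16790056))) (c (c (l 16780512) (l 16781664))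 (b (l 16784992) (l 16777008)))))))), by decide +kernel⟩

def k10_pm_113_t : ∃ t, chk3 f_pm_113_t t 63 63 1 = true :=
  ⟨(b (a (c (c (l 16782520) (l 16785784)) (c (l 16791024) (l 16788392))) (b (b (a (a (l 16779176) (c (l 16779064) (l 16783168))) (a (c (l 16785256) (l 16778200)) (c (c (l 16780232) (l 16781320)) (a (l 16784552) (l 16781776))))) (a (a (l 16783600) (c (l 16778728) (l 16792776))) (a (c (c (l 16784336) (l 16785864)) (c (l 16777040) (l 16778832))) (a (c (l 16781704) (l 16784248)) (l 14))))) (b (a (a (l 16793248) (c (l 16778328) (l 16791648))) (a (a (c (l 16775512) (l 16778832)) (l 14)) (l 14))) (a (c (l 16779648) (l 16781088)) (l 14))))) (a (a (a (b (b (l 16779176) (c (l 16789552) (l 16783168))) (b (c (l 16785256) (l 16778200)) (c (c (l 16780232) (l 16781320)) (b (l 16784552) (l 16781776))))) (b (b (l 16783600) (c (l 16778728) (l 16792776))) (b (c (c (l 16784336) (l 16785864)) (c (l 16777040) (l 16778832))) (b (c (l 16781704) (l 16784248)) (l 14))))) (a (b (b (l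 16793248) (c (l 16778328) (l 16791648))) (b (b (c (l 16775512) (l 16778832)) (l 14)) (l 14))) (b (c (a (l 16779760) (l 16779528)) (l 16781088)) (l 14)))) (a (a (b (b (l 16791456) (l 14)) (l 14)) (l 14)) (l 14)))), by decide +kernel⟩

theorem s11_pm_113_t : ∃ t, chk3 f_pm_113_t t 31 63 1 = true := ex3_a k9_pm_113_t k10_pm_113_t

theorem s12_pm_113_t : ∃ t, chk3 f_pm_113_t t 31 31 1 = true := ex3_b k8_pm_113_t s11_pm_113_t

theorem s13_pm_113_t : ∃ t, chk3 f_pm_113_t t 31 15 1 = true := ex3_b k7_pm_113_t s12_pm_113_t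

theorem s14_pm_113_t : ∃ t, chk3 f_pm_113_t t 15 15 1 = true := ex3_a k6_pm_113_t s13_pm_113_t

theorem s15_pm_113_t : ∃ t, chk3 f_pm_113_t t 15 7 1 = true := ex3_b k5_pm_113_t s14_pm_113_t

theorem s16_pm_113_t : ∃ t, chk3 f_pm_113_t t 7 7 1 = true := ex3_a k4_pm_113_t s15_pm_113_t

theorem s17_pm_113_t : ∃ t, chk3 f_pm_113_t t 7 3 1 = true := ex3_b k3_pm_113_t s16_pm_113_t

theorem s18_pm_113_t : ∃ t, chk3 f_pm_113_t t 3 3 1 = true := ex3_a k2_pm_113_t s17_pm_113_t

theorem s19_pm_113_t : ∃ t, chk3 f_pm_113_t t 3 1 1 = true := ex3_b k1_pm_113_t s18_pm_113_t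

theorem s20_pm_113_t : ∃ t, chk3 f_pm_113_t t 1 1 1 = true := ex3_a k0_pm_113_t s19_pm_113_t

theorem c_pm_113_t : CertNE 536870912 536870912 536870912 536870912 780900216 37827925 3 eng mog cd0q1 cd0q1 pd3 true true false .nn 1 1 3
    ndB0q1 ndB0q1 pcB3 cut_pm_113_t Ext.none :=
  certNE0 (fam := true) (s1 := true) (s2 := false) (a := 1) (b := 1) (c := 3) (cn := .nn) (n1 := ndB0q1) (n2 := ndB0q1) (pc := pcB3) (cut := cut_pm_113_t) (xt := Ext.none) (P1 := 536870912) (W1 := 536870912) (P2 := 536870912) (W2 := 536870912) (P3 := 780900216) (W3 := 37827925) (N0 := 3) (En := eng) (mo := mog) (C1 := cd0q1) (C2 := cd0q1) (C3 := pd3)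
    rfl s20_pm_113_t

noncomputable def cut_pm_123_s : Cut := Cut.of [[⟨4, 0, 0, 1449551462⟩], [⟨0, 1, 0, 67108864⟩, ⟨1, 1, 0, 67108864⟩, ⟨2, 2, 0, 16777216⟩], [⟨0, 0, 1, 26214400⟩, ⟨1, 1, 0, 33554432⟩, ⟨2, 1, 1, 26214400⟩]]

noncomputable def f_pm_123_s : ℕ → ℕ → ℕ → ℕ → Bool := onCell 536870912 536870912 0 536870912 780900216 37827925
    (rowNE 3 eng mog cd0q1 cd0q2 pd3 0 true true false .npn 1 2 3 (qsf 536870912 536870912 0 536870912 3) ndB0q1 ndB0q2 pcB3 cut_pm_123_s Ext.none)

def k0_pm_123_s : ∃ t, chk3 f_pm_123_s t 1 1 1 = true :=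
  ⟨(l 6), by decide +kernel⟩

theorem c_pm_123_s : CertNE 536870912 536870912 0 536870912 780900216 37827925 3 eng mog cd0q1 cd0q2 pd3 true true false .npn 1 2 3
    ndB0q1 ndB0q2 pcB3 cut_pm_123_s Ext.none :=
  certNE0 (fam := true) (s1 := true) (s2 := false) (a := 1) (b := 2) (c := 3) (cn := .npn) (n1 := ndB0q1) (n2 := ndB0q2) (pc := pcB3) (cut := cut_pm_123_s) (xt := Ext.none) (P1 := 536870912) (W1 := 536870912) (P2 := 0) (W2 := 536870912) (P3 := 780900216) (W3 := 37827925) (N0 := 3) (En := eng) (mo := mog) (C1 := cd0q1) (C2 := cd0q2) (C3 := pd3)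
    rfl k0_pm_123_s

end Pool.Agent.Strip051.G.I72727_7625.Tab.CS.BA00

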