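import Pool.Agent.Strip051.G.I72727_7625.StH
import Pool.Agent.Strip051.G.I72727_7625.StF

/-! # Unit strips 7 (generated) -/

set_option linter.all false
set_option maxRecDepth 100000

namespace Pool.Agent.Strip051.G.I72727_7625.Tab.St.C

open Pool.Agent.Strip051.PB Pool.Agent.Strip051.PB.T Pool.Agent.StripNear Pool.Agent.Strip051.LC
open Pool.Agent.Strip051.G.I72727_7625.Tab Pool.Agent.Strip051.G.I72727_7625.Tab.St

noncomputable def cut_B00pm_011_s3 : Cut := Cut.of [[⟨3, 0, 0, 2845415833⟩], [⟨0, 0, 0, 67108864⟩, ⟨1, 1, 0, 67108864⟩, ⟨2, 1, 0, 67108864⟩]]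

noncomputable def xt_B00pm_011_s3 : Ext := strExt dd false true false .u0 .u0m .s0m .pnn 0 1 1 rfl rfl gl1 vv ndB0q0 ndB0q1

noncomputable def f_B00pm_011_s3 : ℕ → ℕ → ℕ → ℕ → Bool := onCell 0 536870912 536870912 536870912 780900216 37827925
    (rowF 0 false true false .pnn 0 1 1 (qsf 0 536870912 536870912 536870912 1) ndB0q0 ndB0q1 pcB1 cut_B00pm_011_s3 xt_B00pm_011_s3)

def k0_B00pm_011_s3 : ∃ t, chk3 f_B00pm_011_s3 t 1 2 1 = true :=
  ⟨(a (l 4) (a (b (l 1) (l 4)) (l 1))), by decide +kernel⟩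

def k1_B00pm_011_s3 : ∃ t, chk3 f_B00pm_011_s3 t 2 6 1 = true :=
  ⟨(a (l 4) (a (l 4) (b (l 4) (b (l 4) (a (b (l 4) (a (l 4) (l 532016399))) (b (a (l 4) (l 531262735)) (l 531852047))))))), by decide +kernel⟩

def k2_B00pm_011_s3 : ∃ t, chk3 f_B00pm_011_s3 t 4 14 1 = true :=
  ⟨(b (l 4) (a (l 4) (a (l 4) (b (l 4) (a (l 4) (b (l 4) (a (a (l 4) (l 530793231)) (a (l 530816783) (l 530844175))))))))), by decide +kernel⟩

def k3_B00pm_011_s3 : ∃ t, chk3 f_B00pm_011_s3 t 8 30 1 = true :=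
  ⟨(b (l 4) (a (l 4) (a (l 4) (a (l 4) (b (l 4) (a (l 4) (b (l 4) (a (l 531009039) (l 531004687))))))))), by decide +kernel⟩

def k4_B00pm_011_s3 : ∃ t, chk3 f_B00pm_011_s3 t 8 62 1 = true :=
  ⟨(a (b (l 4) (l 14)) (b (a (a (l 4) (a (l 4) (a (l 4) (b (l 4) (l 531116815))))) (a (b (a (l 4) (a (l 531062799) (l 531057423))) (a (a (l 531110159) (l 531103759)) (a (l 531097615) (l 531091727)))) (a (a (b (l 531052047) (l 531086095)) (l 531598863)) (b (l 531305999) (l 531339023))))) (a (a (b (b (l 4) (l 14)) (l 14)) (b (a (a (a (l 531178255) (l 531174415)) (c (l 531189519) (l 531149071))) (a (c (l 531183375) (l 531140623)) (l 531153423))) (b (a (a (l 14) (l 531465487)) (a (l 531189519) (l 531182095))) (a (l 14) (a (l 531208463) (l 531201039)))))) (a (a (b (a (l 531146511) (l 531139855)) (a (c (l 531206927) (l 531162895)) (l 531176463))) (a (b (l 531133199) (l 531169551)) (b (l 531126799) (l 531162639)))) (a (b (a (l 531120655) (l 531114767))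 (a (l 531156239) (l 531149839))) (a (b (l 531108879) (l 531143695)) (b (l 531103503) (b (l 16740512) (l 16740440))))))))), by decide +kernel⟩

def k5_B00pm_011_s3 : ∃ t, chk3 f_B00pm_011_s3 t 8 63 1 = true :=
  ⟨(a (l 14) (b (a (b (b (a (l 14) (a (l 14) (a (l 14) (l 531219983)))) (l 14)) (l 14)) (b (a (a (a (b (l 531212303) (b (l 16748632) (l 14))) (b (l 531204879) (b (l 16745776) (c (l 16746016) (b (l 16741096) (l 16739792)))))) (b (a (l 531197711) (a (l 16742144) (l 16745944))) (b (a (b (l 16740968) (l 16744928)) (b (l 16738152) (l 16736848))) (l 16738952)))) (b (a (b (a (l 16739888) (l 16737000)) (a (c (l 16737408) (l 16742296)) (b (l 16735056) (l 16733744)))) (b (a (l 16739360) (l 16736576)) (l 16730088))) (a (c (l 16732136) (l 16731712)) (l 16726152)))) (a (a (a (l 14) (b (l 16739320) (l 14))) (a (b (l 16733888) (l 16728720)) (b (l 16731040) (l 16725912)))) (a (b (c (l 16726976) (l 16726504)) (c (l 16721856) (l 16721336))) (b (l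 16720928) (l 16715736)))))) (a (l 14) (b (b (a (a (l 14) (c (l 16722360) (l 16721888))) (a (c (l 16716752) (l 16716184)) (l 16710584))) (a (l 14) (a (c (l 16711584) (l 16716216)) (c (l 16705816) (l 16705096))))) (a (l 14) (a (b (c (l 16706408) (l 16705736)) (l 14)) (a (l 16699208) (l 16696336)))))))), by decide +kernel⟩

def k6_B00pm_011_s3 : ∃ t, chk3 f_B00pm_011_s3 t 9 30 1 = true :=
  ⟨(a (a (b (l 4) (a (b (l 4) (a (b (l 4) (a (l 531000335) (l 530996239))) (b (l 530958607) (l 531257359)))) (b (b (l 4) (a (l 530923279) (l 530918415))) (a (b (l 530952207) (l 530981903)) (b (l 530946831) (l 530975759)))))) (b (a (l 4) (b (l 4) (a (l 530820111) (l 530835727)))) (a (b (a (b (l 530876175) (l 530906383)) (b (l 530881039) (l 530918927))) (a (b (l 530941711) (l 530970127)) (b (l 530939151) (l 530966799)))) (b (a (b (l 530888975) (l 530924815)) (b (l 530901519) (l 530937871))) (a (b (l 530948367) (l 530970639)) (b (l 530961423) (l 530981647)))))))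 (b (a (a (b (l 4) (a (l 530855183) (l 530877967))) (b (a (l 530822159) (l 530854415)) (a (l 530903823) (l 530933263)))) (a (b (a (l 530885903) (l 530912783)) (a (l 530965519) (l 531000847))) (b (a (l 530935823) (l 530958607)) (a (l 531035151) (l 531064847))))) (a (a (b (b (a (l 530917647) (l 530937615)) (a (l 530952975) (l 530971407))) (a (b (l 530976015) (l 530996239)) (l 531673615))) (a (b (l 531245071) (l 531291919)) (b (l 531002639) (l 531047439)))) (b (a (a (l 531031823) (l 531064335)) (a (l 531099919) (l 531138063))) (a (a (l 531074831) (l 531105039)) (b (l 531148303) (a (l 16696080) (b (l 16693416) (l 16688192))))))))), by decide +kernel⟩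

def k7_B00pm_011_s3 : ∃ t, chk3 f_B00pm_011_s3 t 36 62 1 = true :=
  ⟨(b (a (a (b (l 531296783) (l 531060751)) (b (l 531020047) (l 531051535))) (a (b (l 531012367) (l 531043087)) (b (l 531005199) (l 531035407)))) (c (a (b (a (l 531127823) (l 531119887)) (b (a (l 16736416) (l 16730624)) (a (b (l 16732424) (a (l 16731240) (l 16728472))) (b (l 16731976) (l 16724096))))) (b (a (l 531112975) (b (l 16729648) (l 16724336))) (b (a (b (l 16726168) (l 16734088)) (b (l 16730936) (l 16717800))) (l 16716736)))) (c (c (a (b (a (l 531085583) (l 531075343)) (b (a (l 16736128) (l 16730272)) (a (b (l 16732104) (l 16734768)) (b (l 16736840) (l 16723696))))) (b (a (l 531065615) (b (l 16729232) (l 16723880))) (b (a (b (l 16725752) (l 16723168)) (b (l 16719968) (l 16717296))) (l 16716232)))) (a (b (a (l 531069967) (l 531058447)) (b (a (l 16736016) (l 16730136)) (a (b (l 16731992) (a (l 16730808) (l 16728000))) (b (l 16731456) (l 16723544))))) (b (a (l 531047695)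 (b (l 16729072) (l 16723704))) (b (a (b (l 16725600) (l 16723008)) (b (l 16719784) (l 16717104))) (l 16716048))))) (a (b (a (l 531047695) (l 531034639)) (a (b (l 16735864) (b (l 16731824) (a (l 16730640) (l 16727816)))) (b (l 16729952) (b (l 16731256) (l 16723336))))) (b (a (l 531022351) (b (l 16728848) (l 16723456))) (b (a (b (l 16725376) (l 16733264)) (b (l 16719520) (l 16716824))) (l 16715776))))))), by decide +kernel⟩

def k8_B00pm_011_s3 : ∃ t, chk3 f_B00pm_011_s3 t 37 62 1 = true :=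
  ⟨(b (a (a (b (l 530999055) (l 531028495)) (b (l 530994447) (l 531023119))) (b (a (l 530996495) (l 531003151)) (a (l 531023119) (b (l 16716560) (l 16711200))))) (b (a (a (b (l 16723456) (b (l 16719424) (a (l 16718264) (l 16715432)))) (b (l 16728016) (b (a (l 16715048) (l 16712224)) (l 16710960)))) (b (a (b (l 16713016) (l 16720936)) (b (l 16717808) (l 16704648))) (l 16708800))) (a (a (l 16715424) (l 16704312)) (a (l 16698480) (l 16692704))))), by decide +kernel⟩

def k9_B00pm_011_s3 : ∃ t, chk3 f_B00pm_011_s3 t 19 62 1 = true :=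
  ⟨(b (a (a (b (a (l 531015695) (l 531031567)) (b (a (l 16710824) (l 16705072)) (a (b (l 16706784) (l 16714720)) (b (l 16711688) (l 16698536))))) (b (a (l 531049743) (b (l 16704504) (l 16699168))) (b (a (b (l 16700768) (l 16708720)) (b (l 16695328) (l 16692664))) (l 16691464)))) (b (a (b (a (l 16699016) (l 16693536)) (a (b (l 16695008) (l 16692496)) (b (l 16689736) (l 16687080)))) (b (a (b (l 16689536) (l 16687048)) (b (l 16684448) (l 16681808))) (l 16680480))) (a (c (l 16684056) (l 16682336)) (c (l 16673624) (l 16671664))))) (a (a (b (a (l 16697600) (l 16691928)) (a (l 16687000) (l 16681344))) (b (a (l 16686320) (l 16680776)) (a (l 16675728) (l 16670184)))) (b (a (c (l 16673600) (l 16671688)) (c (l 16663192) (l 16661032))) (a (c (l 16663088) (l 16660992)) (c (l 16652688) (l 16650344)))))), by decide +kernel⟩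

def k10_B00pm_011_s3 : ∃ t, chk3 f_B00pm_011_s3 t 9 63 1 = true :=
  ⟨(a (b (a (b (a (a (b (l 16725616) (l 16720344)) (b (l 16719800) (l 16714512))) (a (b (l 16713952) (l 16708648)) (l 16710664))) (a (a (b (l 16715096) (l 16709864)) (b (l 16709232) (l 16703960))) (a (b (l 16703344) (l 16698048)) (l 16700016)))) (a (b (a (l 16699528) (l 16693640)) (a (l 16688848) (l 16682936))) (b (a (l 16687800) (l 16682016)) (a (l 16677072) (l 16671280))))) (a (b (a (b (a (l 16704664) (l 16698720)) (a (l 16704712) (l 16693520))) (b (l 16695024) (b (l 16685824) (l 16683296)))) (a (a (a (l 16693392) (l 16690408)) (l 16685936)) (b (l 16679544) (l 16674504)))) (b (a (b (a (l 16680848) (l 16674872)) (l 16678008)) (b (a (l 16668968) (l 16663176)) (l 16661024))) (a (a (l 16668144) (l 16662264)) (l 16653568))))) (a (b (a (b (a (l 16676312) (l 16670680)) (a (l 16665560) (l 16659920))) (b (a (l 16665104) (l 16659560)) (a (l 16654384) (l 16648888)))) (b (a (b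 (a (l 16657496) (l 16651920)) (l 16649712)) (b (l 16643768) (l 16638800))) (a (l 16642296) (l 16631424)))) (b (a (b (c (l 16652536) (l 16650256)) (b (l 16643384) (l 16637992))) (b (c (l 16642136) (l 16639592)) (b (l 16632824) (c (l 16628880) (l 16626096))))) (a (b (a (l 16633360) (l 16628008)) (l 16620968)) (b (l 16620272) (l 16610784)))))), by decide +kernel⟩

def k11_B00pm_011_s3 : ∃ t, chk3 f_B00pm_011_s3 t 10 14 1 = true :=
  ⟨(a (b (l 4) (a (b (l 4) (a (b (b (l 4) (a (l 530789135) (l 530825231))) (a (l 530874639) (c (l 530968335) (l 530850319)))) (b (c (l 531182863) (l 530796303)) (c (a (l 531003919) (l 531041807)) (l 531174927))))) (a (b (b (l 4) (a (b (l 4) (l 530837775)) (b (c (l 530906383) (l 530796815)) (a (l 530873103) (b (l 530874383) (l 530910735)))))) (b (a (l 530921231) (l 530967311)) (a (l 531026447) (l 531070735)))) (b (b (l 530894351) (b (l 530906895) (a (l 531183375) (l 530955023)))) (b (a (b (l 530982671) (l 531038479))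 (b (l 531008783) (l 531072015))) (a (l 531114767) (l 531151887))))))) (b (a (b (l 4) (b (l 4) (l 531787279))) (b (l 4) (a (l 531070735) (l 531128335)))) (a (b (b (a (l 530966287) (l 531033871)) (a (b (l 530980111) (l 530999311)) (b (l 531049231) (l 531066127)))) (b (a (b (l 531047951) (l 531107087)) (l 531400463)) (a (a (l 531184655) (l 531209743)) (c (l 531292943) (l 531196431))))) (b (b (l 531796751) (a (l 531121935) (l 531183375))) (b (a (l 531189519) (l 531246095)) (a (l 531294735) (l 531345167))))))), by decide +kernel⟩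

def k12_B00pm_011_s3 : ∃ t, chk3 f_B00pm_011_s3 t 11 14 1 = true :=
  ⟨(b (a (a (b (a (l 531154959) (l 531204111)) (a (b (l 531175183) (l 531192847)) (l 531502351))) (a (b (l 531277071) (l 531282447)) (b (l 531575055) (b (l 531314447) (l 531340303))))) (a (b (l 531896591) (b (l 531390479) (l 531409423))) (b (l 531429391) (l 531488527)))) (a (a (b (a (b (l 531214351) (l 531240975)) (b (l 531267343) (l 531295503))) (a (b (l 531300879) (l 531395087)) (b (l 531353103) (l 531443471)))) (b (b (a (l 531317519) (l 531365135)) (a (l 531346703) (l 531395087))) (b (a (l 531403023) (l 531450127)) (a (l 531490063) (l 531534607))))) (b (a (b (l 531434767) (l 531734031)) (b (l 531527439) (l 531559183))) (a (a (b (l 16665624) (l 16638800)) (a (l 531838223) (l 531592719))) (b (l 531611151) (a (l 16619328) (l 16609616))))))), by decide +kernel⟩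

def k13_B00pm_011_s3 : ∃ t, chk3 f_B00pm_011_s3 t 20 60 1 = true :=
  ⟨(a (b (a (a (l 530984975) (l 531015183)) (a (l 531048463) (l 531084815))) (a (a (l 531090703) (l 531116303)) (a (l 531145743) (l 531178511)))) (a (b (c (l 531197455) (l 531090703)) (a (l 531214607) (l 531253775))) (b (a (l 531208719) (l 531247119)) (a (l 531294479) (l 531332111))))), by decide +kernel⟩

def k14_B00pm_011_s3 : ∃ t, chk3 f_B00pm_011_s3 t 20 61 4 = true :=
  ⟨(c (c (a (b (a (l 531290639) (l 531350543)) (a (b (l 16694848) (b (l 16687288) (a (l 16684816) (l 16680080)))) (b (a (l 16687416) (l 16682288)) (b (a (l 16680072) (l 16675400)) (l 16672736))))) (b (a (l 531412751) (b (l 16683536) (l 16674312))) (b (a (b (l 16677120) (a (l 16674992) (l 16670264))) (b (l 16678136) (l 16662992))) (a (l 16665512) (l 16656040))))) (a (b (a (l 531276559) (l 531336719)) (a (b (l 16694640) (b (l 16687056) (a (l 16684576) (l 16679832)))) (b (a (l 16687192) (l 16682048))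 (b (a (l 16679832) (l 16675144)) (l 16672472))))) (b (a (l 531399439) (b (l 16683312) (l 16674064))) (b (a (b (l 16676872) (a (l 16674736) (l 16670008))) (b (l 16677872) (l 16662720))) (a (l 16665240) (l 16655744)))))) (c (a (b (a (l 531262735) (l 531323151)) (a (b (l 16694440) (b (l 16686832) (a (l 16684344) (l 16679592)))) (b (a (l 16686968) (l 16681816)) (b (a (l 16679592) (l 16674896)) (l 16672216))))) (b (a (l 531386127) (b (l 16683088) (l 16673816))) (b (a (b (l 16676632) (a (l 16674488) (l 16669752))) (b (l 16677608) (l 16662448))) (l 16670632)))) (a (b (a (l 531248911) (l 531309583)) (a (b (l 16694232) (b (l 16686608) (a (l 16684120) (l 16679352)))) (b (a (l 16686752) (l 16681584)) (b (a (l 16679352) (l 16674648)) (l 16671960))))) (b (a (l 531372815) (b (l 16682864) (l 16673568))) (b (a (b (l 16676384) (a (l 16674240) (l 16669488))) (b (l 16677344) (l 16662176))) (l 16670352)))))), by decide +kernel⟩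

def k15_B00pm_011_s3 : ∃ t, chk3 f_B00pm_011_s3 t 20 61 5 = true :=
  ⟨(c (a (b (a (l 531228431) (l 531289359)) (a (b (l 16693936) (b (l 16686272) (a (l 16683776) (l 16678992)))) (b (a (l 16686424) (l 16681232)) (b (a (l 16678992) (l 16674280)) (l 16671576))))) (b (a (l 531353103) (b (l 16682536) (l 16673200))) (b (a (b (l 16676024) (a (l 16673864) (l 16669112))) (b (l 16676960) (l 16661768))) (l 16669936)))) (a (b (a (l 531201295) (l 531262735)) (a (b (l 16693536) (b (l 16685840) (a (l 16683328) (l 16678528)))) (b (a (l 16685992) (l 16680776)) (b (a (l 16678528) (l 16673800)) (l 16671072))))) (b (a (l 531326991) (b (l 16682104) (l 16672720))) (b (a (b (l 16675544) (l 16681488)) (b (l 16686936) (l 16661240))) (l 16669384))))), by decide +kernel⟩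

def k16_B00pm_011_s3 : ∃ t, chk3 f_B00pm_011_s3 t 20 61 3 = true :=
  ⟨(c (c (a (b (a (l 531174671) (l 531236367)) (a (b (l 16693144) (b (l 16685408) (a (l 16682880) (l 16678064)))) (b (l 16693312) (b (a (l 16678064) (l 16673320)) (l 16670576))))) (b (a (l 531301391) (b (l 16681672) (l 16672248))) (b (a (b (l 16675072) (l 16681000)) (b (l 16665464) (l 16660712))) (l 16668848)))) (a (b (a (l 531148303) (l 531210255)) (a (b (l 16692752) (b (l 16684976) (a (l 16682448) (l 16677608)))) (b (l 16692880) (b (a (l 16677608) (l 16672848)) (l 16670088))))) (b (a (l 531275791) (b (l 16681248) (l 16671776))) (b (a (b (l 16674600) (l 16680520)) (b (l 16664960) (l 16660192))) (l 16668312))))) (a (b (a (l 531109647) (l 531172111)) (a (b (l 16692184) (b (l 16684352) (a (l 16681808) (l 16676944)))) (b (l 16692240) (b (a (l 16676944) (l 16672160)) (l 16669368))))) (b (a (l 531238415) (b (l 16680616) (l 16671080))) (b (a (b (l 16673912) (l 16679808))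 (b (l 16664232) (l 16659424))) (l 16667520))))), by decide +kernel⟩

def k17_B00pm_011_s3 : ∃ t, chk3 f_B00pm_011_s3 t 21 30 1 = true :=
  ⟨(b (b (a (a (a (l 531281679) (l 531313423)) (a (l 531343631) (l 531368463))) (a (l 531402511) (l 531450639))) (a (a (b (l 531362831) (l 16691552)) (l 531982095)) (a (l 531769871) (b (l 16659920) (l 16661832))))) (b (a (a (b (l 16682496) (b (l 16665056) (a (l 16663000) (l 16658360)))) (b (a (l 16664680) (l 16659696)) (b (a (l 16657928) (l 16653304)) (l 16651120)))) (b (a (b (l 16654672) (a (l 16652800) (l 16648184))) (b (l 16655744) (l 16640976))) (a (l 16643928) (l 16634616)))) (a (a (b (l 16653776) (l 16644528)) (c (l 16641072) (l 16638672))) (a (l 16641168) (l 16621608))))), by decide +kernel⟩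

def k18_B00pm_011_s3 : ∃ t, chk3 f_B00pm_011_s3 t 10 31 1 = true :=
  ⟨(a (a (b (b (a (b (c (l 16673888) (l 16671928)) (c (l 16663584) (l 16661416))) (b (l 16673624) (l 16663280))) (a (b (c (l 16653192) (l 16650824)) (c (l 16642728) (l 16640152))) (b (l 16652848) (l 16642328)))) (b (b (a (c (l 16632192) (l 16629416)) (l 16631720)) (a (b (l 16622760) (l 16628040)) (b (l 16613240) (l 16608232)))) (a (b (l 16610448) (l 16601032)) (b (l 16601200) (l 16591872))))) (b (b (a (b (l 16664160) (l 16654064)) (b (l 16644296) (l 16634504))) (a (b (l 16633264) (l 16622816)) (b (l 16624472) (l 16614208)))) (b (b (a (l 16612264) (l 16603760)) (a (b (l 16604248) (l 16599480)) (b (l 16595888) (l 16591240)))) (b (a (l 16592584) (l 16584464)) (a (l 16583344) (l 16575336)))))) (b (a (b (a (b (l 16635096) (l 16625480)) (c (l 16622720) (l 16619968))) (b (a (l 16615664) (l 16606968)) (a (l 16605648) (l 16597136)))) (a (b (l 16622968) (l 16593576)) (b (l 16603728)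 (l 16585176)))) (a (b (b (a (l 16595400) (l 16587072)) (a (b (l 16587800) (l 16583248)) (l 16577680))) (b (a (l 16576552) (l 16568736)) (a (l 16567528) (l 16559824)))) (a (b (b (l 16578808) (l 16569728)) (b (l 16561000) (l 16552208))) (b (b (l 16570712) (l 16561904)) (l 16548976)))))), by decide +kernel⟩

def k19_B00pm_011_s3 : ∃ t, chk3 f_B00pm_011_s3 t 11 15 1 = true :=
  ⟨(b (b (a (a (b (a (l 531497487) (l 531543567)) (b (a (l 16650008) (l 16661032)) (a (a (l 16644032) (l 16660304)) (b (l 16655184) (l 16630096))))) (b (a (l 16653000) (a (l 16635136) (l 16651072))) (b (a (c (l 16642136) (l 16629264)) (c (l 16622312) (l 16619824))) (l 16638784)))) (a (b (b (a (l 16626920) (l 16617176)) (a (l 16634800) (l 16609768))) (c (l 16625240) (l 16601480))) (b (a (b (l 16607768) (l 16600240)) (l 16594856)) (l 16584480)))) (a (a (a (b (l 16629400) (l 16612576)) (b (l 16620000) (l 16603536))) (b (c (l 16617904) (l 16604640)) (c (l 16591560) (l 16588480))))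 (a (b (l 16608680) (l 16593256)) (b (l 16569856) (l 16555024))))) (a (b (a (a (b (l 16595048) (l 16576840)) (b (l 16586400) (l 16568552))) (b (c (l 16575136) (l 16571696)) (c (l 16558072) (l 16554224)))) (a (b (b (c (l 16581752) (l 16556864)) (l 16550272)) (a (l 16541392) (l 16533808))) (b (b (c (l 16545144) (l 16540992)) (l 16534768)) (c (l 16535168) (l 16520192))))) (b (b (a (l 16577304) (l 16539704)) (a (l 16560664) (l 16544648))) (b (a (b (l 16527424) (l 16519376)) (l 16508160)) (a (c (l 16509752) (l 16505000)) (l 16513624)))))), by decide +kernel⟩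

def k20_B00pm_011_s3 : ∃ t, chk3 f_B00pm_011_s3 t 3 6 1 = true :=
  ⟨(a (a (b (b (l 4) (a (l 4) (a (l 4) (b (l 4) (c (l 531432975) (l 531431439)))))) (a (b (a (l 531188239) (l 531265295)) (a (b (l 531322127) (l 531415823)) (b (l 531384079) (l 531473423)))) (b (a (l 531348495) (a (l 531416591) (c (l 532008719) (l 531452943)))) (b (a (l 531433487) (l 531502863)) (a (l 531530255) (l 16690328)))))) (b (a (b (l 1) (b (l 1) (a (c (l 531543567) (l 531541519)) (l 1)))) (l 1)) (a (b (a (c (b (l 531539471) (l 531549455)) (b (l 531525903) (l 531525391))) (a (b (l 531615503) (l 16715008)) (b (l 1) (l 16683864)))) (a (b (l 16699960) (l 16648680)) (b (l 16658576) (l 16670472)))) (b (b (l 1) (a (l 26340054071) (l 1))) (b (a (l 16638608) (l 16660760)) (l 16620048)))))) (b (l 1) (a (b (l 1) (a (a (l 62847107495) (l 1)) (l 1))) (l 1)))), by decide +kernel⟩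

def k21_B00pm_011_s3 : ∃ t, chk3 f_B00pm_011_s3 t 3 7 1 = true :=
  ⟨(a (b (a (b (a (b (a (l 531505935) (l 531568655)) (a (l 531568143) (l 531639823))) (a (b (l 531627023) (l 531704335)) (b (l 16680816) (l 16649976)))) (b (a (a (l 532166415) (l 531707919)) (a (l 16617168) (l 16597624))) (b (a (a (l 16610976) (l 16591744)) (a (l 16572920) (l 16554264))) (a (a (b (l 16599240) (l 16612904)) (l 16608600)) (l 16591120))))) (b (a (a (b (l 531744015) (l 16588240)) (b (l 16598760) (l 16568800))) (b (a (l 16579344) (l 16560200)) (a (l 16549744) (l 16530912)))) (a (b (a (l 16578384) (l 16580544)) (a (l 16528336) (l 16509936))) (b (a (l 16520096) (l 16501752)) (l 16482896))))) (a (b (b (a (a (b (l 16580816) (l 16566488)) (l 16576600)) (b (l 16577472) (l 16564352))) (a (a (b (l 16552400) (l 16538144)) (l 16549344)) (b (l 16551552) (l 16538688)))) (b (a (b (a (l 16523448) (l 16507480)) (a (l 16550072) (l 6))) (l 6)) (a (b (a (l 16493264) (l 6))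 (l 6)) (l 6)))) (a (b (b (a (l 16502160) (l 16484424)) (l 6)) (l 6)) (l 6)))) (b (a (b (a (b (l 16615688) (l 16587072)) (b (l 1) (l 6))) (a (b (l 16474600) (l 6)) (l 6))) (l 6)) (l 6))), by decide +kernel⟩

theorem t22_B00pm_011_s3 : ∃ t, chk3 f_B00pm_011_s3 t 3 3 1 = true := ex3_b k20_B00pm_011_s3 k21_B00pm_011_s3

theorem t23_B00pm_011_s3 : ∃ t, chk3 f_B00pm_011_s3 t 20 61 2 = true := ex3_c k14_B00pm_011_s3 k15_B00pm_011_s3

theorem t24_B00pm_011_s3 : ∃ t, chk3 f_B00pm_011_s3 t 20 61 1 = true := ex3_c t23_B00pm_011_s3 k16_B00pm_011_s3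

theorem t25_B00pm_011_s3 : ∃ t, chk3 f_B00pm_011_s3 t 20 30 1 = true := ex3_b k13_B00pm_011_s3 t24_B00pm_011_s3

theorem t26_B00pm_011_s3 : ∃ t, chk3 f_B00pm_011_s3 t 10 30 1 = true := ex3_a t25_B00pm_011_s3 k17_B00pm_011_s3

theorem t27_B00pm_011_s3 : ∃ t, chk3 f_B00pm_011_s3 t 10 15 1 = true := ex3_b t26_B00pm_011_s3 k18_B00pm_011_s3

theorem t28_B00pm_011_s3 : ∃ t, chk3 f_B00pm_011_s3 t 5 15 1 = true := ex3_a t27_B00pm_011_s3 k19_B00pm_011_s3

theorem t29_B00pm_011_s3 : ∃ t, chk3 f_B00pm_011_s3 t 5 14 1 = true := ex3_a k11_B00pm_011_s3 k12_B00pm_011_s3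

theorem t30_B00pm_011_s3 : ∃ t, chk3 f_B00pm_011_s3 t 5 7 1 = true := ex3_b t29_B00pm_011_s3 t28_B00pm_011_s3

theorem t31_B00pm_011_s3 : ∃ t, chk3 f_B00pm_011_s3 t 18 62 1 = true := ex3_a k7_B00pm_011_s3 k8_B00pm_011_s3

theorem t32_B00pm_011_s3 : ∃ t, chk3 f_B00pm_011_s3 t 9 62 1 = true := ex3_a t31_B00pm_011_s3 k9_B00pm_011_s3

theorem t33_B00pm_011_s3 : ∃ t, chk3 f_B00pm_011_s3 t 9 31 1 = true := ex3_b t32_B00pm_011_s3 k10_B00pm_011_s3

theorem t34_B00pm_011_s3 : ∃ t, chk3 f_B00pm_011_s3 t 9 15 1 = true := ex3_b k6_B00pm_011_s3 t33_B00pm_011_s3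

theorem t35_B00pm_011_s3 : ∃ t, chk3 f_B00pm_011_s3 t 8 31 1 = true := ex3_b k4_B00pm_011_s3 k5_B00pm_011_s3

theorem t36_B00pm_011_s3 : ∃ t, chk3 f_B00pm_011_s3 t 8 15 1 = true := ex3_b k3_B00pm_011_s3 t35_B00pm_011_s3

theorem t37_B00pm_011_s3 : ∃ t, chk3 f_B00pm_011_s3 t 4 15 1 = true := ex3_a t36_B00pm_011_s3 t34_B00pm_011_s3

theorem t38_B00pm_011_s3 : ∃ t, chk3 f_B00pm_011_s3 t 4 7 1 = true := ex3_b k2_B00pm_011_s3 t37_B00pm_011_s3

theorem t39_B00pm_011_s3 : ∃ t, chk3 f_B00pm_011_s3 t 2 7 1 = true := ex3_a t38_B00pm_011_s3 t30_B00pm_011_s3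

theorem t40_B00pm_011_s3 : ∃ t, chk3 f_B00pm_011_s3 t 2 3 1 = true := ex3_b k1_B00pm_011_s3 t39_B00pm_011_s3

theorem t41_B00pm_011_s3 : ∃ t, chk3 f_B00pm_011_s3 t 1 3 1 = true := ex3_a t40_B00pm_011_s3 t22_B00pm_011_s3

theorem t42_B00pm_011_s3 : ∃ t, chk3 f_B00pm_011_s3 t 1 1 1 = true := ex3_b k0_B00pm_011_s3 t41_B00pm_011_s3

theorem c_B00pm_011_s3 : CertF 0 536870912 536870912 536870912 780900216 37827925 false true false .pnn 0 1 1
    ndB0q0 ndB0q1 pcB1 cut_B00pm_011_s3 xt_B00pm_011_s3 :=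
  certF0 (fam := false) (s1 := true) (s2 := false) (a := 0) (b := 1) (c := 1) (cn := .pnn) (n1 := ndB0q0) (n2 := ndB0q1) (pc := pcB1) (cut := cut_B00pm_011_s3) (xt := xt_B00pm_011_s3) (P1 := 0) (W1 := 536870912) (P2 := 536870912) (W2 := 536870912) (P3 := 780900216) (W3 := 37827925)
    rfl t42_B00pm_011_s3

theorem s_B00pm_011_s3 {κ x : ℝ} (hκ : κ * h0 = ken x) (hx : ((780900216 : ℕ) : ℝ) / S ≤ x)
    (hx' : x ≤ (((780900216 : ℕ) : ℝ) + (37827925 : ℕ)) / S)
    (H : CutB (VFD κ) PP tK tL pcB (Cut.of [[⟨0, 0, 0, 67108864⟩, ⟨1, 1, 0, 67108864⟩, ⟨2, 1, 0, 67108864⟩]]) 0 1 1 0 0 (sgb true) (sgb false) x) :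
    AltB (VFD κ) PP tK tL pcB [⟨4, 0, 0, 2845415833⟩] 0 1 1 0 0 (sgb true) (sgb false) x :=
  strip_altBD (m := 2845415833) false rfl hκ (SH.κ0 hκ (SH.hx1 hx).le (SH.hx2 hx').le) (SH.hx1 hx).le (SH.hx2 hx') (covB00).cov (covB01).cov hx hx' c_B00pm_011_s3 H ((okx hx hx').extB (T := tt) (sideB hx hx') hκ rfl rfl (.O 0 true) (.O 1 false) (Or.inr rfl))

noncomputable def cut_B00pm_012_s1 : Cut := Cut.of [[⟨4, 0, 0, 1449551462⟩], [⟨0, 0, 0, 67108864⟩, ⟨1, 1, 0, 67108864⟩, ⟨2, 1, 0, 67108864⟩]]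

noncomputable def f_B00pm_012_s1 : ℕ → ℕ → ℕ → ℕ → Bool := onCell 0 536870912 0 536870912 780900216 37827925
    (rowF 0 false true false .pnp 0 1 2 (qsf 0 536870912 0 536870912 1) ndB0q0 ndB0q2 pcB1 cut_B00pm_012_s1 Ext.none)

def k0_B00pm_012_s1 : ∃ t, chk3 f_B00pm_012_s1 t 1 1 1 = true :=
  ⟨(a (l 6) (b (a (b (a (l 6) (a (l 6) (b (b (l 16560928) (l 6)) (l 6)))) (l 6)) (b (a (b (a (b (l 16629952) (l 6)) (b (a (l 16608416) (l 16622048)) (a (l 16585608) (l 16598544)))) (l 6)) (b (a (b (a (b (l 16684456) (l 16629336)) (b (a (l 16652160) (l 16659824)) (l 16685664))) (a (l 16611472) (l 16624648))) (b (a (b (l 16671112) (a (l 16653544) (l 16660728))) (l 16721384)) (a (a (l 16634856) (l 16684472)) (b (a (l 16655232) (l 16662056)) (l 16646408))))) (a (b (a (l 16589032) (l 16601352)) (l 6)) (b (a (l 16614152) (l 16627416)) (a (l 16591008) (l 16603184)))))) (l 6))) (l 6))), by decide +kernel⟩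

theorem c_B00pm_012_s1 : CertF 0 536870912 0 536870912 780900216 37827925 false true false .pnp 0 1 2
    ndB0q0 ndB0q2 pcB1 cut_B00pm_012_s1 Ext.none :=
  certF0 (fam := false) (s1 := true) (s2 := false) (a := 0) (b := 1) (c := 2) (cn := .pnp) (n1 := ndB0q0) (n2 := ndB0q2) (pc := pcB1) (cut := cut_B00pm_012_s1) (xt := Ext.none) (P1 := 0) (W1 := 536870912) (P2 := 0) (W2 := 536870912) (P3 := 780900216) (W3 := 37827925)
    rfl k0_B00pm_012_s1

theorem s_B00pm_012_s1 {κ x : ℝ} (hκ : κ * h0 = ken x) (hx : ((780900216 : ℕ) : ℝ) / S ≤ x)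
    (hx' : x ≤ (((780900216 : ℕ) : ℝ) + (37827925 : ℕ)) / S)
    (H : CutB (VFD κ) PP tK tL pcB (Cut.of [[⟨0, 0, 0, 67108864⟩, ⟨1, 1, 0, 67108864⟩, ⟨2, 1, 0, 67108864⟩]]) 0 1 2 0 0 (sgb true) (sgb false) x) :
    AltB (VFD κ) PP tK tL pcB [⟨3, 0, 0, 1449551462⟩] 0 1 2 0 0 (sgb true) (sgb false) x :=
  strip_altBD (m := 1449551462) true rfl hκ (SH.κ0 hκ (SH.hx1 hx).le (SH.hx2 hx').le) (SH.hx1 hx).le (SH.hx2 hx') (covB00).cov (covB02).cov hx hx' c_B00pm_012_s1 H (noExt_B)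

noncomputable def cut_B00pm_012_s3 : Cut := Cut.of [[⟨3, 0, 0, 2845415833⟩], [⟨0, 0, 0, 67108864⟩, ⟨1, 1, 0, 67108864⟩, ⟨2, 1, 0, 67108864⟩]]

noncomputable def f_B00pm_012_s3 : ℕ → ℕ → ℕ → ℕ → Bool := onCell 0 536870912 0 536870912 780900216 37827925
    (rowF 0 false true false .pnp 0 1 2 (qsf 0 536870912 0 536870912 1) ndB0q0 ndB0q2 pcB1 cut_B00pm_012_s3 Ext.none)

def k0_B00pm_012_s3 : ∃ t, chk3 f_B00pm_012_s3 t 2 2 1 = true :=
  ⟨(l 6), by decide +kernel⟩

def k1_B00pm_012_s3 : ∃ t, chk3 f_B00pm_012_s3 t 4 3 1 = true :=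
  ⟨(b (a (l 2) (b (l 6) (a (b (l 6) (l 6)) (l 6)))) (b (a (a (l 2) (b (a (l 2) (b (l 2) (a (l 2) (a (b (l 2) (l 14)) (l 16556624))))) (a (l 14) (a (l 14) (a (l 14) (b (l 16572920) (l 16599800))))))) (a (b (b (a (a (a (b (l 2) (l 16525864)) (l 16524664)) (b (l 16513176) (l 16526088))) (a (l 16520064) (l 6))) (a (a (b (l 16539192) (l 16552360)) (l 16545480)) (a (l 16545112) (l 16544600)))) (a (b (a (l 16572112) (l 16571024)) (a (l 16598456) (l 16596656))) (b (l 16548360) (l 16551960)))) (b (a (b (l 6) (l 16543280)) (l 6)) (a (b (l 16566296) (l 16589584)) (b (l 16562248) (l 16584640)))))) (a (a (l 14) (a (l 14) (a (l 14) (a (l 14) (b (b (l 16627480) (b (l 16648976) (l 16663832))) (b (l 16686848) (b (l 16691312) (b (l 16692008) (l 16692376))))))))) (b (a (a (b (b (l 16617464) (l 16631112)) (b (l 16645128) (l 16659488))) (b (a (l 16578592) (l 16617856)) (l 16645936))) (b (a (l 16613920) (l 16607880)) (a (l 16632184) (l 16613080)))) (b (a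 (a (b (l 16674184) (l 16676808)) (a (l 16639096) (l 16607080))) (a (a (l 16596328) (l 16627920)) (b (l 16613320) (l 16613096)))) (a (b (a (a (l 16683240) (l 16672072)) (a (l 16660544) (l 16649192))) (a (b (a (l 16683728) (l 16672136)) (a (b (l 16683840) (l 16683848)) (l 16672048))) (b (a (l 16660464) (l 16648984)) (a (l 16660288) (l 16648728))))) (b (a (l 16632824) (l 16612536)) (b (a (l 16632432) (l 16611864)) (a (a (l 16637520) (l 16626712)) (a (l 16616368) (l 16606368))))))))))), by decide +kernel⟩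

def k2_B00pm_012_s3 : ∃ t, chk3 f_B00pm_012_s3 t 5 3 1 = true :=
  ⟨(b (l 6) (a (b (a (b (l 6) (a (l 16525800) (l 16559760))) (l 6)) (b (a (a (b (l 16595360) (l 16596032)) (b (l 16581272) (l 16581072))) (b (l 16561864) (a (l 16567288) (l 16553840)))) (a (b (a (l 16605880) (l 16579528)) (b (a (l 16593976) (l 16577488)) (a (a (l 16597112) (l 16588080)) (a (l 16579688) (l 16571816))))) (b (a (l 16565040) (l 16550904)) (b (a (l 16562488) (l 16547848)) (a (b (l 16560912) (l 16570240)) (b (l 16546024) (l 16544704)))))))) (b (l 6) (b (l 6) (a (b (a (l 16536952) (l 6)) (a (b (l 16533392) (b (l 16531320) (l 16529824))) (b (l 16518936) (l 16536768)))) (b (l 6) (b (l 6) (a (l 16501128) (l 6))))))))), by decide +kernel⟩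

def k3_B00pm_012_s3 : ∃ t, chk3 f_B00pm_012_s3 t 3 1 1 = true :=
  ⟨(b (l 6) (a (l 6) (l 6))), by decide +kernel⟩

theorem t4_B00pm_012_s3 : ∃ t, chk3 f_B00pm_012_s3 t 2 3 1 = true := ex3_a k1_B00pm_012_s3 k2_B00pm_012_s3

theorem t5_B00pm_012_s3 : ∃ t, chk3 f_B00pm_012_s3 t 2 1 1 = true := ex3_b k0_B00pm_012_s3 t4_B00pm_012_s3

theorem t6_B00pm_012_s3 : ∃ t, chk3 f_B00pm_012_s3 t 1 1 1 = true := ex3_a t5_B00pm_012_s3 k3_B00pm_012_s3

theorem c_B00pm_012_s3 : CertF 0 536870912 0 536870912 780900216 37827925 false true false .pnp 0 1 2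
    ndB0q0 ndB0q2 pcB1 cut_B00pm_012_s3 Ext.none :=
  certF0 (fam := false) (s1 := true) (s2 := false) (a := 0) (b := 1) (c := 2) (cn := .pnp) (n1 := ndB0q0) (n2 := ndB0q2) (pc := pcB1) (cut := cut_B00pm_012_s3) (xt := Ext.none) (P1 := 0) (W1 := 536870912) (P2 := 0) (W2 := 536870912) (P3 := 780900216) (W3 := 37827925)
    rfl t6_B00pm_012_s3

theorem s_B00pm_012_s3 {κ x : ℝ} (hκ : κ * h0 = ken x) (hx : ((780900216 : ℕ) : ℝ) / S ≤ x)
    (hx' : x ≤ (((780900216 : ℕ) : ℝ) + (37827925 : ℕ)) / S)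
    (H : CutB (VFD κ) PP tK tL pcB (Cut.of [[⟨0, 0, 0, 67108864⟩, ⟨1, 1, 0, 67108864⟩, ⟨2, 1, 0, 67108864⟩]]) 0 1 2 0 0 (sgb true) (sgb false) x) :
    AltB (VFD κ) PP tK tL pcB [⟨4, 0, 0, 2845415833⟩] 0 1 2 0 0 (sgb true) (sgb false) x :=
  strip_altBD (m := 2845415833) false rfl hκ (SH.κ0 hκ (SH.hx1 hx).le (SH.hx2 hx').le) (SH.hx1 hx).le (SH.hx2 hx') (covB00).cov (covB02).cov hx hx' c_B00pm_012_s3 H (noExt_B)

noncomputable def cut_B00pm_022_s1 : Cut := Cut.of [[⟨4, 0, 0, 1449551462⟩], [⟨0, 0, 0, 67108864⟩, ⟨1, 1, 0, 67108864⟩, ⟨2, 1, 0, 67108864⟩]]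

noncomputable def f_B00pm_022_s1 : ℕ → ℕ → ℕ → ℕ → Bool := onCell 1073741824 536870912 0 536870912 780900216 37827925
    (rowF 2 false true false .pp 0 2 2 (qsf 0 536870912 0 536870912 2) ndB0q0 ndB0q2 pcB2 cut_B00pm_022_s1 Ext.none)

def k0_B00pm_022_s1 : ∃ t, chk3 f_B00pm_022_s1 t 1 1 1 = true :=
  ⟨(l 6), by decide +kernel⟩

theorem c_B00pm_022_s1 : CertF 0 536870912 0 536870912 780900216 37827925 false true false .pp 0 2 2
    ndB0q0 ndB0q2 pcB2 cut_B00pm_022_s1 Ext.none :=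
  certF2 (fam := false) (s1 := true) (s2 := false) (a := 0) (b := 2) (c := 2) (cn := .pp) (n1 := ndB0q0) (n2 := ndB0q2) (pc := pcB2) (cut := cut_B00pm_022_s1) (xt := Ext.none) (P1 := 0) (W1 := 536870912) (P2 := 0) (W2 := 536870912) (P3 := 780900216) (W3 := 37827925)
    rfl (fun _ => rfl) k0_B00pm_022_s1

theorem s_B00pm_022_s1 {κ x : ℝ} (hκ : κ * h0 = ken x) (hx : ((780900216 : ℕ) : ℝ) / S ≤ x)
    (hx' : x ≤ (((780900216 : ℕ) : ℝ) + (37827925 : ℕ)) / S)
    (H : CutB (VFD κ) PP tK tL pcB (Cut.of [[⟨0, 0, 0, 67108864⟩, ⟨1, 1, 0, 67108864⟩, ⟨2, 1, 0, 67108864⟩]]) 0 2 2 0 0 (sgb true) (sgb false) x) :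
    AltB (VFD κ) PP tK tL pcB [⟨3, 0, 0, 1449551462⟩] 0 2 2 0 0 (sgb true) (sgb false) x :=
  strip_altBD (m := 1449551462) true rfl hκ (SH.κ0 hκ (SH.hx1 hx).le (SH.hx2 hx').le) (SH.hx1 hx).le (SH.hx2 hx') (covB00).cov (covB02).cov hx hx' c_B00pm_022_s1 H (noExt_B)

noncomputable def cut_B00pm_022_s3 : Cut := Cut.of [[⟨3, 0, 0, 2845415833⟩], [⟨0, 0, 0, 67108864⟩, ⟨1, 1, 0, 67108864⟩, ⟨2, 1, 0, 67108864⟩]]

noncomputable def f_B00pm_022_s3 : ℕ → ℕ → ℕ → ℕ → Bool := onCell 0 536870912 0 536870912 780900216 37827925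
    (rowF 0 false true false .pp 0 2 2 (qsf 0 536870912 0 536870912 2) ndB0q0 ndB0q2 pcB2 cut_B00pm_022_s3 Ext.none)

def k0_B00pm_022_s3 : ∃ t, chk3 f_B00pm_022_s3 t 2 2 1 = true :=
  ⟨(l 6), by decide +kernel⟩

def k1_B00pm_022_s3 : ∃ t, chk3 f_B00pm_022_s3 t 4 6 1 = true :=
  ⟨(a (a (a (b (l 6) (b (a (c (b (l 16568368) (a (l 16558152) (l 16562528))) (b (l 16566472) (a (l 16556040) (l 16561328)))) (b (l 6) (b (l 16565512) (l 16572184)))) (a (a (b (b (l 16588288) (l 16584840)) (a (b (l 16580376) (l 16587832)) (b (l 16582784) (l 16590224)))) (b (b (l 16572096) (l 16579112)) (b (l 16586312) (l 16593736)))) (a (b (l 16580240) (l 16615568)) (b (l 16584704) (l 16599000)))))) (b (l 6) (b (b (l 6) (b (l 6) (l 16543072))) (b (b (l 16549792) (l 16556672)) (c (l 16565832) (l 16566936)))))) (b (l 6) (b (l 6) (a (a (b (l 16573448) (l 16542224)) (b (l 16556328) (l 16608104))) (b (l 6) (a (c (l 16552624) (l 16542840)) (c (l 16534984) (l 16523248))))))))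 (a (b (l 6) (b (l 6) (l 6))) (l 6))), by decide +kernel⟩

def k2_B00pm_022_s3 : ∃ t, chk3 f_B00pm_022_s3 t 4 7 1 = true :=
  ⟨(a (b (a (b (a (a (a (b (b (a (l 16595528) (l 16597904)) (a (b (l 16601472) (l 16605584)) (l 16605888))) (b (b (l 16611056) (l 14)) (l 14))) (b (b (l 16601400) (l 16609360)) (b (l 16617896) (l 14)))) (b (b (l 16576656) (a (l 16613840) (l 16618168))) (b (a (l 16622352) (l 16626648)) (l 14)))) (a (b (a (l 16618376) (l 16622400)) (a (l 16635328) (l 16639288))) (b (l 16613896) (l 16604528)))) (l 14)) (b (a (b (a (a (l 16558048) (l 16590608)) (c (l 16580336) (l 16572216))) (b (a (l 16603408) (l 16583784)) (l 14))) (a (b (c (l 16562064) (l 16552008)) (b (l 16563856) (l 14))) (b (b (l 16535504) (l 16539696)) (b (a (l 16548720) (l 16538536)) (c (l 16553256) (l 16540792)))))) (a (l 14) (a (l 14) (a (l 14) (l 1)))))) (a (l 14) (a (l 14) (l 1)))) (b (a (b (a (b (a (b (a (l 16520864) (l 16511016)) (c (l 16526568) (l 16512456)))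 (b (l 16496120) (l 1))) (b (a (l 16523128) (l 1)) (l 1))) (l 1)) (l 1)) (l 1)) (l 1))), by decide +kernel⟩

def k3_B00pm_022_s3 : ∃ t, chk3 f_B00pm_022_s3 t 5 3 1 = true :=
  ⟨(b (l 1) (l 1)), by decide +kernel⟩

def k4_B00pm_022_s3 : ∃ t, chk3 f_B00pm_022_s3 t 3 1 1 = true :=
  ⟨(l 1), by decide +kernel⟩

theorem t5_B00pm_022_s3 : ∃ t, chk3 f_B00pm_022_s3 t 4 3 1 = true := ex3_b k1_B00pm_022_s3 k2_B00pm_022_s3

theorem t6_B00pm_022_s3 : ∃ t, chk3 f_B00pm_022_s3 t 2 3 1 = true := ex3_a t5_B00pm_022_s3 k3_B00pm_022_s3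

theorem t7_B00pm_022_s3 : ∃ t, chk3 f_B00pm_022_s3 t 2 1 1 = true := ex3_b k0_B00pm_022_s3 t6_B00pm_022_s3

theorem t8_B00pm_022_s3 : ∃ t, chk3 f_B00pm_022_s3 t 1 1 1 = true := ex3_a t7_B00pm_022_s3 k4_B00pm_022_s3

theorem c_B00pm_022_s3 : CertF 0 536870912 0 536870912 780900216 37827925 false true false .pp 0 2 2
    ndB0q0 ndB0q2 pcB2 cut_B00pm_022_s3 Ext.none :=
  certF0 (fam := false) (s1 := true) (s2 := false) (a := 0) (b := 2) (c := 2) (cn := .pp) (n1 := ndB0q0) (n2 := ndB0q2) (pc := pcB2) (cut := cut_B00pm_022_s3) (xt := Ext.none) (P1 := 0) (W1 := 536870912) (P2 := 0) (W2 := 536870912) (P3 := 780900216) (W3 := 37827925)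
    rfl t8_B00pm_022_s3

theorem s_B00pm_022_s3 {κ x : ℝ} (hκ : κ * h0 = ken x) (hx : ((780900216 : ℕ) : ℝ) / S ≤ x)
    (hx' : x ≤ (((780900216 : ℕ) : ℝ) + (37827925 : ℕ)) / S)
    (H : CutB (VFD κ) PP tK tL pcB (Cut.of [[⟨0, 0, 0, 67108864⟩, ⟨1, 1, 0, 67108864⟩, ⟨2, 1, 0, 67108864⟩]]) 0 2 2 0 0 (sgb true) (sgb false) x) :
    AltB (VFD κ) PP tK tL pcB [⟨4, 0, 0, 2845415833⟩] 0 2 2 0 0 (sgb true) (sgb false) x :=
  strip_altBD (m := 2845415833) false rfl hκ (SH.κ0 hκ (SH.hx1 hx).le (SH.hx2 hx').le) (SH.hx1 hx).le (SH.hx2 hx') (covB00).cov (covB02).cov hx hx' c_B00pm_022_s3 H (noExt_B)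

noncomputable def cut_B00pm_101_s1 : Cut := Cut.of [[⟨4, 0, 0, 1449551462⟩], [⟨0, 1, 0, 53687091⟩, ⟨1, 0, 0, 53687091⟩, ⟨2, 1, 0, 53687091⟩], [⟨0, 0, 1, 26214400⟩, ⟨1, 1, 2, 26214400⟩, ⟨2, 1, 0, 33554432⟩]]

noncomputable def f_B00pm_101_s1 : ℕ → ℕ → ℕ → ℕ → Bool := onCell 536870912 536870912 536870912 536870912 780900216 37827925
    (rowF 0 false true false .npn 1 0 1 (qsf 536870912 536870912 536870912 536870912 0) ndB0q1 ndB0q1 pcB0 cut_B00pm_101_s1 Ext.none)

def k0_B00pm_101_s1 : ∃ t, chk3 f_B00pm_101_s1 t 2 1 1 = true :=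
  ⟨(l 6), by decide +kernel⟩

def k1_B00pm_101_s1 : ∃ t, chk3 f_B00pm_101_s1 t 3 2 1 = true :=
  ⟨(l 6), by decide +kernel⟩

def k2_B00pm_101_s1 : ∃ t, chk3 f_B00pm_101_s1 t 6 3 1 = true :=
  ⟨(b (l 6) (a (l 6) (b (l 6) (b (l 6) (b (l 6) (a (l 6) (a (l 6) (b (l 6) (b (l 6) (a (l 6) (l 16752576))))))))))), by decide +kernel⟩

def k3_B00pm_101_s1 : ∃ t, chk3 f_B00pm_101_s1 t 7 3 1 = true :=
  ⟨(b (a (l 6) (l 1)) (b (a (l 6) (a (a (a (a (a (l 6) (l 1)) (l 1)) (l 1)) (l 1)) (l 1))) (a (b (a (l 6) (a (b (l 6) (l 16813680)) (b (b (a (l 6) (l 16874304)) (b (b (b (l 16831888) (l 16831464)) (l 16832920)) (l 16794664))) (a (l 16795848) (l 16840328))))) (b (b (a (a (l 6) (l 16835552)) (a (l 16839864) (l 16802040))) (a (a (l 6) (l 16812576)) (a (l 16774760) (l 16778760)))) (b (a (a (a (l 16782416) (l 16786296)) (l 16748776)) (a (a (l 16794016) (l 16795608)) (a (l 16797432) (l 16799896)))) (a (a (a (b (l 16766960) (l 16756968)) (b (l 16770744) (l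 16760696))) (b (a (l 16773816) (l 16776280)) (a (c (l 16768960) (l 16758368)) (l 16766120)))) (a (a (b (l 16778232) (l 16768016)) (b (l 16779760) (c (l 16773608) (l 16765312)))) (a (b (l 16781528) (c (l 16774968) (l 16767432))) (b (l 16783944) (a (l 16773000) (l 16769064))))))))) (b (b (a (a (a (b (a (l 16862920) (l 16834368)) (b (b (b (l 16829448) (l 16850352)) (l 16851936)) (l 16855248))) (b (a (l 189549106503) (l 1)) (a (b (b (b (l 227130083671) (l 16838760)) (l 16840352)) (l 16843472)) (b (b (l 1) (l 223371964727)) (l 219613884839))))) (a (b (l 1) (b (l 1) (l 219613851239))) (l 1))) (l 1)) (a (a (b (a (l 16819688) (b (l 16843536) (l 16847384))) (b (l 16817656) (l 16821656))) (l 14)) (l 14))) (a (a (b (b (l 16807728) (a (l 16824960) (l 16785936))) (b (a (l 16781736) (b (l 16811104) (l 16800224))) (a (b (l 16786728) (b (l 16778952) (c (l 16776816) (l 16770816)))) (b (l 16789608) (b (l 16781824) (c (l 16779240) (l 16774112))))))) (l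 14)) (l 14)))))), by decide +kernel⟩

theorem t4_B00pm_101_s1 : ∃ t, chk3 f_B00pm_101_s1 t 3 3 1 = true := ex3_a k2_B00pm_101_s1 k3_B00pm_101_s1

theorem t5_B00pm_101_s1 : ∃ t, chk3 f_B00pm_101_s1 t 3 1 1 = true := ex3_b k1_B00pm_101_s1 t4_B00pm_101_s1

theorem t6_B00pm_101_s1 : ∃ t, chk3 f_B00pm_101_s1 t 1 1 1 = true := ex3_a k0_B00pm_101_s1 t5_B00pm_101_s1

theorem c_B00pm_101_s1 : CertF 536870912 536870912 536870912 536870912 780900216 37827925 false true false .npn 1 0 1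
    ndB0q1 ndB0q1 pcB0 cut_B00pm_101_s1 Ext.none :=
  certF0 (fam := false) (s1 := true) (s2 := false) (a := 1) (b := 0) (c := 1) (cn := .npn) (n1 := ndB0q1) (n2 := ndB0q1) (pc := pcB0) (cut := cut_B00pm_101_s1) (xt := Ext.none) (P1 := 536870912) (W1 := 536870912) (P2 := 536870912) (W2 := 536870912) (P3 := 780900216) (W3 := 37827925)
    rfl t6_B00pm_101_s1

theorem s_B00pm_101_s1 {κ x : ℝ} (hκ : κ * h0 = ken x) (hx : ((780900216 : ℕ) : ℝ) / S ≤ x)
    (hx' : x ≤ (((780900216 : ℕ) : ℝ) + (37827925 : ℕ)) / S)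
    (H : CutB (VFD κ) PP tK tL pcB (Cut.of [[⟨0, 1, 0, 53687091⟩, ⟨1, 0, 0, 53687091⟩, ⟨2, 1, 0, 53687091⟩], [⟨0, 0, 1, 26214400⟩, ⟨1, 1, 2, 26214400⟩, ⟨2, 1, 0, 33554432⟩]]) 1 0 1 0 0 (sgb true) (sgb false) x) :
    AltB (VFD κ) PP tK tL pcB [⟨3, 0, 0, 1449551462⟩] 1 0 1 0 0 (sgb true) (sgb false) x :=
  strip_altBD (m := 1449551462) true rfl hκ (SH.κ0 hκ (SH.hx1 hx).le (SH.hx2 hx').le) (SH.hx1 hx).le (SH.hx2 hx') (covB01).cov (covB01).cov hx hx' c_B00pm_101_s1 H (noExt_B)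

noncomputable def cut_B00pm_101_s3 : Cut := Cut.of [[⟨3, 0, 0, 2845415833⟩], [⟨0, 1, 0, 53687091⟩, ⟨1, 0, 0, 53687091⟩, ⟨2, 1, 0, 53687091⟩], [⟨0, 0, 1, 26214400⟩, ⟨1, 1, 2, 26214400⟩, ⟨2, 1, 0, 33554432⟩]]

noncomputable def xt_B00pm_101_s3 : Ext := strExt dd false true false .u0 .u0m .s0m .npn 1 0 1 rfl rfl gl0 vv ndB0q1 ndB0q1

noncomputable def f_B00pm_101_s3 : ℕ → ℕ → ℕ → ℕ → Bool := onCell 536870912 536870912 536870912 536870912 780900216 37827925
    (rowF 0 false true false .npn 1 0 1 (qsf 536870912 536870912 536870912 536870912 0) ndB0q1 ndB0q1 pcB0 cut_B00pm_101_s3 xt_B00pm_101_s3)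

def k0_B00pm_101_s3 : ∃ t, chk3 f_B00pm_101_s3 t 4 4 1 = true :=
  ⟨(b (a (l 4) (a (a (l 4) (l 1)) (l 1))) (a (a (b (l 4) (a (l 4) (l 533774351))) (b (a (l 4) (l 534233615)) (a (l 533982479) (l 534210575)))) (b (a (a (b (l 534557199) (l 534505231)) (b (l 534907919) (l 534823951))) (a (b (l 1) (l 535191567)) (l 1))) (b (a (l 535151375) (a (l 535104783) (l 535492623))) (a (l 534591503) (a (l 535046927) (l 535402767))))))), by decide +kernel⟩

def k1_B00pm_101_s3 : ∃ t, chk3 f_B00pm_101_s3 t 4 10 1 = true :=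
  ⟨(a (b (a (b (a (a (l 4) (l 533661711)) (l 533805583)) (a (l 533566991) (b (l 533807631) (l 534066703)))) (b (b (l 534106895) (l 534112783)) (a (l 534008847) (l 534224655)))) (a (a (b (l 533502223) (l 533419023)) (b (l 533750799) (l 534219279))) (b (a (l 533979151) (l 534207247)) (a (l 533926671) (l 534168847))))) (b (a (b (l 534849295) (a (l 534456335) (l 534709007))) (b (a (l 535010063) (l 535341327)) (a (l 534988815) (l 535302415)))) (b (a (a (l 534445071) (l 534699023)) (a (l 534975759) (l 535281423))) (a (a (l 534417423) (l 534678543)) (a (l 534958607) (l 535263503)))))), by decide +kernel⟩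

def k2_B00pm_101_s3 : ∃ t, chk3 f_B00pm_101_s3 t 4 11 1 = true :=
  ⟨(a (b (a (b (a (b (l 533349903) (a (l 533230607) (l 533371151))) (b (l 533621519) (l 533576719))) (a (b (a (l 533452047) (l 533324303)) (a (b (l 16700880) (l 16695696)) (b (l 16695672) (l 16690600)))) (b (l 533532175) (a (l 16688552) (l 16684448))))) (b (a (b (l 533876495) (l 533837839)) (l 534648591)) (a (b (l 533797903) (l 533760783)) (c (l 534303503) (l 533784591))))) (a (a (a (b (b (a (l 16689184) (l 16686552)) (c (l 16681912) (l 16672640))) (b (l 16666520) (l 16655632))) (b (b (l 16682904) (l 16672504)) (b (l 16661944) (l 16651232)))) (a (b (b (l 16678536) (l 16668352)) (b (l 16657984) (l 16647456))) (b (b (l 16674672) (l 16664704)) (b (l 16654552) (l 16644216))))) (b (a (b (a (l 16671320) (l 16668520)) (a (l 16661592) (l 16659048))) (a (l 16682704) (l 16660296))) (a (a (b (l 16651664) (l 16641544)) (b (l 16649360) (l 16639464))) (a (l 16663832) (l 16641968))))))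 (a (b (b (a (l 534640399) (l 534642959)) (a (c (l 534592271) (l 534034959)) (b (l 16679600) (l 16672336)))) (b (a (a (l 16659536) (l 16659504)) (a (l 16660248) (l 16661824))) (a (a (l 16641792) (l 16642368)) (a (l 16643760) (l 16646016))))) (b (b (a (l 534930191) (l 535239183)) (a (b (l 16682624) (l 16676136)) (b (l 16689480) (l 16683840)))) (a (b (a (l 16664288) (l 16667712)) (a (l 16649208) (l 16653400))) (b (a (l 16672176) (l 16677768)) (l 6)))))), by decide +kernel⟩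

def k3_B00pm_101_s3 : ∃ t, chk3 f_B00pm_101_s3 t 5 2 1 = true :=
  ⟨(b (a (b (l 1) (a (b (l 1) (a (b (l 1) (l 535814927)) (l 1))) (l 1))) (l 1)) (b (a (a (a (b (b (l 535720975) (l 535658511)) (b (l 535623951) (l 535600655))) (b (b (l 536704527) (l 536608783)) (b (l 536284687) (l 536249615)))) (b (b (l 1) (a (b (l 1) (l 536551183)) (l 1))) (b (a (b (l 536506383) (l 536470799)) (b (l 1) (l 38688360407))) (a (b (l 16752744) (l 16750152)) (l 6))))) (b (l 1) (a (l 6) (l 1)))) (a (b (a (b (a (l 535845135) (l 537026319)) (a (a (l 16695112) (l 16702336)) (l 6))) (l 6)) (l 6)) (l 6)))), by decide +kernel⟩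

def k4_B00pm_101_s3 : ∃ t, chk3 f_B00pm_101_s3 t 2 3 1 = true :=
  ⟨(a (b (b (a (b (a (a (a (b (b (l 16644608) (l 16633456)) (l 16616488)) (b (b (l 16640360) (l 16629352)) (l 16612568))) (b (b (a (l 16636760) (l 16633704)) (l 16624376)) (b (l 16613440) (l 16602368)))) (a (b (b (a (l 16631224) (l 16629352)) (l 16619784)) (b (l 16609184) (l 16598392))) (b (b (l 16627784) (l 16617784)) (b (l 16607568) (l 16597128))))) (a (b (a (b (l 16597400) (l 16585848)) (b (l 16591160) (l 16579776))) (a (b (l 16615808) (l 16603184)) (l 16561912))) (b (a (b (l 16587440) (l 16576272)) (b (l 16586480) (l 6))) (a (l 16558664) (l 6))))) (b (a (b (a (b (l 16628232) (l 16618720)) (b (l 16631928) (l 6))) (a (b (l 16608960) (l 6)) (l 6))) (l 6)) (l 6))) (a (b (a (b (a (l 16583000) (l 6)) (l 6)) (l 6)) (l 6)) (l 6))) (l 6)) (b (l 6) (l 6))), by decide +kernel⟩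

def k5_B00pm_101_s3 : ∃ t, chk3 f_B00pm_101_s3 t 3 1 1 = true :=
  ⟨(b (a (b (l 1) (l 6)) (l 1)) (l 6)), by decide +kernel⟩

theorem t6_B00pm_101_s3 : ∃ t, chk3 f_B00pm_101_s3 t 4 5 1 = true := ex3_b k1_B00pm_101_s3 k2_B00pm_101_s3

theorem t7_B00pm_101_s3 : ∃ t, chk3 f_B00pm_101_s3 t 4 2 1 = true := ex3_b k0_B00pm_101_s3 t6_B00pm_101_s3

theorem t8_B00pm_101_s3 : ∃ t, chk3 f_B00pm_101_s3 t 2 2 1 = true := ex3_a t7_B00pm_101_s3 k3_B00pm_101_s3

theorem t9_B00pm_101_s3 : ∃ t, chk3 f_B00pm_101_s3 t 2 1 1 = true := ex3_b t8_B00pm_101_s3 k4_B00pm_101_s3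

theorem t10_B00pm_101_s3 : ∃ t, chk3 f_B00pm_101_s3 t 1 1 1 = true := ex3_a t9_B00pm_101_s3 k5_B00pm_101_s3

theorem c_B00pm_101_s3 : CertF 536870912 536870912 536870912 536870912 780900216 37827925 false true false .npn 1 0 1
    ndB0q1 ndB0q1 pcB0 cut_B00pm_101_s3 xt_B00pm_101_s3 :=
  certF0 (fam := false) (s1 := true) (s2 := false) (a := 1) (b := 0) (c := 1) (cn := .npn) (n1 := ndB0q1) (n2 := ndB0q1) (pc := pcB0) (cut := cut_B00pm_101_s3) (xt := xt_B00pm_101_s3) (P1 := 536870912) (W1 := 536870912) (P2 := 536870912) (W2 := 536870912) (P3 := 780900216) (W3 := 37827925)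
    rfl t10_B00pm_101_s3

theorem s_B00pm_101_s3 {κ x : ℝ} (hκ : κ * h0 = ken x) (hx : ((780900216 : ℕ) : ℝ) / S ≤ x)
    (hx' : x ≤ (((780900216 : ℕ) : ℝ) + (37827925 : ℕ)) / S)
    (H : CutB (VFD κ) PP tK tL pcB (Cut.of [[⟨0, 1, 0, 53687091⟩, ⟨1, 0, 0, 53687091⟩, ⟨2, 1, 0, 53687091⟩], [⟨0, 0, 1, 26214400⟩, ⟨1, 1, 2, 26214400⟩, ⟨2, 1, 0, 33554432⟩]]) 1 0 1 0 0 (sgb true) (sgb false) x) :
    AltB (VFD κ) PP tK tL pcB [⟨4, 0, 0, 2845415833⟩] 1 0 1 0 0 (sgb true) (sgb false) x :=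
  strip_altBD (m := 2845415833) false rfl hκ (SH.κ0 hκ (SH.hx1 hx).le (SH.hx2 hx').le) (SH.hx1 hx).le (SH.hx2 hx') (covB01).cov (covB01).cov hx hx' c_B00pm_101_s3 H ((okx hx hx').extB (T := tt) (sideB hx hx') hκ rfl rfl (.O 1 true) (.O 1 false) (Or.inl rfl))

noncomputable def cut_B00pm_102_s1 : Cut := Cut.of [[⟨4, 0, 0, 1449551462⟩], [⟨0, 1, 0, 67108864⟩, ⟨1, 0, 0, 67108864⟩, ⟨2, 1, 0, 67108864⟩], [⟨0, 0, 1, 26214400⟩, ⟨1, 1, 2, 26214400⟩, ⟨2, 1, 0, 33554432⟩]]

noncomputable def xt_B00pm_102_s1 : Ext := strExt dd false true false .u0 .u2 .u0m .npp 1 0 2 rfl rfl gf0 vv ndB0q1 ndB0q2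

noncomputable def f_B00pm_102_s1 : ℕ → ℕ → ℕ → ℕ → Bool := onCell 536870912 536870912 0 536870912 780900216 37827925
    (rowF 0 false true false .npp 1 0 2 (qsf 536870912 536870912 0 536870912 0) ndB0q1 ndB0q2 pcB0 cut_B00pm_102_s1 xt_B00pm_102_s1)

def k0_B00pm_102_s1 : ∃ t, chk3 f_B00pm_102_s1 t 2 2 1 = true :=
  ⟨(a (b (l 2) (a (l 2) (b (l 2) (a (l 2) (b (l 2) (l 16633424)))))) (b (a (b (a (b (l 3) (l 533914383)) (l 3)) (a (b (l 533808399) (a (l 2) (b (l 533708303) (l 533689615)))) (b (a (l 533545999) (l 3)) (a (b (l 533801231) (a (l 16756416) (l 533473295))) (b (a (l 533395727) (l 533301519)) (l 533336847)))))) (b (l 3) (a (b (l 3) (a (b (l 3) (l 533154063)) (l 3))) (l 3)))) (a (b (b (a (a (l 66672567175) (b (l 16741312) (l 16704968))) (a (b (l 533499663) (l 16738920)) (b (l 533597455) (l 533332495)))) (a (a (b (l 16678336) (l 16662120)) (b (l 16689088) (l 16674032))) (a (b (l 16702104) (l 16706376)) (b (l 16737184) (l 16741816)))))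 (a (b (b (l 16693056) (l 16676368)) (a (l 16604016) (l 16614728))) (b (a (b (l 16691376) (l 16652792)) (b (a (l 16679312) (l 16687040)) (a (l 16663344) (l 16670736)))) (a (l 16626976) (l 16682544))))) (b (a (a (b (b (a (l 533184015) (l 533105423)) (a (l 533212175) (l 533137679))) (b (l 533742351) (l 16741352))) (b (b (l 532979471) (l 533020687)) (b (l 533058063) (l 533092111)))) (b (a (b (l 3) (l 532897807)) (l 3)) (a (l 532968975) (l 532915983)))) (a (b (a (b (l 16719240) (a (l 16677048) (l 16684800))) (b (l 533123087) (l 16718400))) (a (b (a (l 16660400) (l 16668848)) (l 16646536)) (b (a (l 16696736) (l 16683648)) (a (l 16658488) (l 16667872))))) (b (a (b (l 533035535) (l 533076495)) (b (l 533002767) (l 533057807))) (a (b (l 533115663) (a (b (l 16679752) (l 16672096)) (b (l 16689816) (l 16680440)))) (b (l 533111823) (l 533148943))))))))), by decide +kernel⟩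

def k1_B00pm_102_s1 : ∃ t, chk3 f_B00pm_102_s1 t 2 3 1 = true :=
  ⟨(a (b (l 6) (l 6)) (b (b (a (a (b (l 16635800) (l 6)) (b (a (l 16590312) (l 16603848)) (a (l 16551192) (l 16564888)))) (b (a (a (l 16660712) (l 16677136)) (a (b (l 16684496) (l 16644432)) (b (a (b (l 16681680) (l 16673592)) (b (l 16692504) (l 16683536))) (l 16665288)))) (a (a (l 16580232) (l 16597376)) (a (l 16616832) (l 16680560))))) (a (l 6) (b (a (a (l 16540944) (l 16559960)) (a (l 16581072) (l 16605040))) (a (l 6) (a (l 16630184) (l 16614184)))))) (l 6))), by decide +kernel⟩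

def k2_B00pm_102_s1 : ∃ t, chk3 f_B00pm_102_s1 t 3 2 1 = true :=
  ⟨(a (b (l 3) (a (b (a (b (l 3) (a (l 532931087) (l 3))) (l 3)) (a (b (a (b (l 533040143) (l 533379599)) (b (a (l 533125903) (l 3)) (l 533254415))) (b (a (b (l 533165071) (l 533199375)) (b (l 533322767) (c (l 533473807) (l 533241871)))) (a (a (l 16737136) (l 533266447)) (c (a (l 533472527) (l 533581071)) (a (l 533232143) (l 533325327)))))) (b (a (a (l 533372687) (l 3)) (l 3)) (a (c (b (a (b (l 533604623) (l 533638927)) (b (l 3) (l 533778703))) (a (l 533672463) (c (l 533869071) (l 533767951)))) (b (a (b (l 533379087) (l 533406735)) (b (l 3) (l 533565455))) (a (l 533423887) (l 533593103)))) (b (l 3) (c (c (l 534061583) (l 533960207)) (a (l 533752335) (l 533869583)))))))) (l 3))) (l 3)), by decide +kernel⟩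

def k3_B00pm_102_s1 : ∃ t, chk3 f_B00pm_102_s1 t 12 6 1 = true :=
  ⟨(b (a (b (a (b (a (l 16698984) (l 16710040)) (a (b (l 16686080) (l 16677432)) (b (l 16697104) (l 16689384)))) (b (c (a (l 16723296) (l 533633551)) (l 533299983)) (a (b (l 16708984) (l 16700392)) (l 16716640)))) (a (b (l 16670640) (l 16654416)) (b (a (b (l 16693584) (l 16685336)) (b (l 16704704) (l 16698864))) (l 16680784)))) (b (b (a (a (c (l 533737487) (l 533465871)) (c (l 533875471) (l 533635343))) (c (c (l 533846543) (l 534010639)) (c (l 533907727) (l 533805839)))) (a (a (l 16743896) (l 533835791)) (a (l 533960463) (c (l 534177551) (l 533963279))))) (b (a (a (b (l 16717704) (l 16710160)) (l 16725240)) (c (l 533924111) (l 533975055))) (a (a (b (l 16705360) (l 16698016)) (b (l 16714992) (l 16710696))) (a (b (l 16726216) (l 16719672)) (l 16732688)))))) (b (a (a (l 16631760) (l 16681888)) (a (b (l 16694776) (l 16683520)) (b (a (l 16712944) (b (l 16723760) (l 16719680)))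 (l 16705976)))) (a (a (l 16603960) (l 16639032)) (a (b (l 16673280) (l 16664184)) (b (l 16696232) (l 16687656)))))), by decide +kernel⟩

def k4_B00pm_102_s1 : ∃ t, chk3 f_B00pm_102_s1 t 13 6 1 = true :=
  ⟨(b (a (b (b (a (c (l 533987599) (l 534047503)) (l 3)) (a (l 533924111) (a (l 534004495) (l 3)))) (a (b (l 534240783) (l 534333711)) (b (l 534359311) (a (l 534430735) (l 534463247))))) (b (l 3) (a (b (a (l 534405135) (l 3)) (a (l 534500367) (l 534543887))) (b (l 3) (a (l 534594319) (l 3)))))) (a (b (b (a (a (b (l 16733136) (l 16727552)) (l 16738728)) (a (l 16746344) (l 534561295))) (b (a (a (l 16723384) (l 16731096)) (l 16747824)) (a (l 16722448) (a (l 16734352) (l 16741080))))) (a (b (l 16715400) (l 16707264)) (b (a (l 16727664) (b (l 16726952) (l 16732960))) (b (l 16725384) (l 16679888))))) (b (a (a (b (l 534605071) (l 16756200)) (l 534441487)) (b (l 534743311) (a (l 534838543) (l 534903055)))) (b (a (a (b (l 16722536) (a (l 16697208)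 (l 16720824))) (b (l 16751208) (a (l 16723656) (l 16748824)))) (a (l 534960143) (b (l 534993679) (l 535059983)))) (a (a (l 16734600) (b (a (l 16721392) (a (l 16723632) (l 16724736))) (l 16739928))) (a (b (a (l 16737176) (l 16751776)) (a (l 16724760) (b (l 16727920) (l 16748112)))) (b (l 16746128) (a (b (l 16752520) (l 16729736)) (l 16754960))))))))), by decide +kernel⟩

def k5_B00pm_102_s1 : ∃ t, chk3 f_B00pm_102_s1 t 12 7 1 = true :=
  ⟨(b (a (b (b (a (l 16632080) (b (l 16628736) (l 16627064))) (a (l 6) (l 16626336))) (l 6)) (b (b (a (l 16656336) (l 16680568)) (a (b (a (l 16646624) (l 16658792)) (l 16651536)) (b (a (l 16670984) (l 16682288)) (a (b (l 16628200) (l 16669520)) (b (l 16680936) (l 16659848)))))) (a (b (a (l 16644856) (l 16615200)) (l 6)) (b (a (l 16647840) (l 16658776)) (a (c (l 16632920) (l 16620624)) (c (l 16642992) (l 16631264))))))) (l 6)), by decide +kernel⟩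

def k6_B00pm_102_s1 : ∃ t, chk3 f_B00pm_102_s1 t 13 14 1 = true :=
  ⟨(b (a (a (b (c (l 16683544) (l 16696672)) (a (b (l 16692424) (l 16691032)) (l 16680048))) (b (a (l 16671432) (l 16679112)) (a (l 16688480) (b (l 16717824) (l 16716800))))) (b (a (a (l 16707464) (l 16725072)) (a (c (l 16723792) (l 16719168)) (b (b (a (l 16749880) (l 16742120)) (l 16750056)) (l 16747936)))) (a (a (b (l 16725280) (l 16724296)) (b (l 16732464) (l 16731520))) (a (c (l 16720856) (l 16714952)) (a (l 16723000) (l 16726312)))))) (a (b (a (b (a (b (c (l 16674824) (l 16643880)) (l 16690264)) (b (l 16699928) (a (l 16697960) (l 16681344)))) (c (l 16678688) (l 16668384))) (b (a (l 16687624) (l 16716632)) (a (b (b (l 16687816) (l 16688040)) (l 16708320)) (b (a (b (l 16715008) (b (l 16715160) (l 16673048))) (l 16718960)) (a (b (l 16683848) (l 16714936)) (c (l 16723648) (l 16714528))))))) (a (a (c (l 16652456) (l 16641248)) (b (l 16698328) (l 16666008))) (a (b (l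 16686424) (l 16675104)) (c (l 16689616) (l 16669256))))) (b (a (a (b (l 16724168) (b (l 16724584) (l 16693288))) (l 16710728)) (a (b (l 16738392) (l 16739080)) (c (l 16727752) (l 16721120)))) (a (b (a (b (a (b (l 16723688) (l 16723336)) (c (l 16731728) (l 16722808))) (l 16725168)) (b (l 16690776) (a (l 16700624) (l 16703888)))) (a (l 16693264) (l 16691408))) (b (a (l 16719064) (l 16747200)) (a (b (a (l 16708704) (l 16701328)) (l 16741592)) (b (l 16748296) (a (l 16706144) (l 16751048))))))))), by decide +kernel⟩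

def k7_B00pm_102_s1 : ∃ t, chk3 f_B00pm_102_s1 t 13 15 1 = true :=
  ⟨(b (a (a (b (a (b (l 16687848) (l 6)) (b (l 16665376) (c (l 16702664) (l 16690712)))) (l 6)) (c (b (a (l 16680616) (l 16679224)) (b (l 16675888) (l 16677152))) (b (a (l 16658784) (l 16668200)) (b (l 16663712) (l 16664224))))) (a (b (a (c (l 16687944) (l 16677272)) (c (l 16696336) (l 16686040))) (a (a (l 16681528) (l 16685856)) (a (l 16690096) (l 16694264)))) (b (a (b (l 16741448) (l 16741544)) (b (l 16707552) (l 16707168))) (a (c (l 16705504) (l 16694104)) (a (l 16704608) (l 16748848)))))) (a (b (a (l 6) (a (l 6) (b (l 16676512) (l 6)))) (l 6)) (b (a (b (a (l 16727200) (l 16693480)) (a (b (l 16728280) (l 6)) (l 16694088))) (b (a (l 16699776) (l 16746344)) (l 16701776))) (a (b (a (l 6) (l 16736432)) (l 6)) (b (a (l 16741576) (l 16746304)) (a (c (l 16749296) (l 16735224)) (c (l 16753624) (l 16740480)))))))), by decide +kernel⟩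

def k8_B00pm_102_s1 : ∃ t, chk3 f_B00pm_102_s1 t 7 6 1 = true :=
  ⟨(b (l 3) (a (a (b (a (b (l 3) (a (l 535003919) (l 535107599))) (l 3)) (a (b (a (b (l 535098639) (l 535164687)) (b (l 535201039) (l 535267855))) (a (b (l 535235343) (l 535310863)) (a (l 535352079) (l 535403023)))) (b (a (b (l 535296783) (l 535365135)) (l 3)) (a (l 535745039) (l 535576079))))) (a (b (l 3) (b (l 3) (a (a (l 535653647) (l 535693583)) (l 3)))) (l 3))) (l 3))), by decide +kernel⟩

def k9_B00pm_102_s1 : ∃ t, chk3 f_B00pm_102_s1 t 28 14 1 = true :=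
  ⟨(b (a (b (b (a (a (b (l 16755960) (b (l 16733656) (l 16733608))) (l 16758360)) (l 535499023)) (a (b (a (l 16753528) (b (l 16746048) (l 16740840))) (l 16753888)) (a (b (l 16759320) (b (l 16747984) (l 16748112))) (c (l 16752344) (l 16749408))))) (a (b (l 16742160) (l 16751736)) (b (a (l 16757272) (b (b (l 16750024) (l 16750224)) (l 16759864))) (l 16747328)))) (b (a (b (l 535604495) (l 535699215)) (b (l 535710735) (a (l 535784719) (l 535830031)))) (a (b (a (b (l 16752280) (b (c (l 16748584) (l 16750512)) (l 16752416))) (b (l 16765552) (b (l 16765224) (l 16754208)))) (a (l 16762056) (b (a (l 16754144) (b (l 16765336) (l 16755248))) (l 16753928)))) (b (a (l 535909647) (l 535895055)) (b (a (a (b (l 16766600) (l 16755552)) (l 16766792)) (l 16767240)) (a (a (l 16755328) (b (l 16755312) (l 16765736))) (a (b (l 16766288) (b (l 16765736) (l 16765584))) (l 16766336)))))))) (a (b (a (a (l 16729384) (l 16732536)) (b (l 16757696) (a (l 16756880)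 (l 16759528)))) (a (b (l 16753648) (b (l 16755024) (l 16713584))) (b (a (l 16757904) (l 16759536)) (l 16737888)))) (b (a (b (a (b (l 16761864) (l 16761736)) (a (l 16742152) (l 16763568))) (a (l 16740168) (l 16761896))) (a (b (l 16753552) (l 16762520)) (b (b (b (a (l 16765472) (a (l 16765432) (l 16765408))) (a (l 16764720) (l 16765240))) (l 16764184)) (b (l 16763416) (l 16762808))))) (a (b (l 16739688) (l 16739376)) (b (a (l 16761608) (l 16762168)) (a (l 16761256) (l 16761784))))))), by decide +kernel⟩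

def k10_B00pm_102_s1 : ∃ t, chk3 f_B00pm_102_s1 t 29 28 1 = true :=
  ⟨(a (b (a (b (a (l 535780111) (l 535749903)) (a (l 535806991) (b (l 535724303) (l 535718671)))) (b (a (l 535657231) (l 3)) (a (a (b (l 535653647) (l 535653647)) (b (l 536143887) (l 535619087))) (b (l 535509775) (l 535520271))))) (a (b (a (l 535818255) (b (l 535729167) (l 535746063))) (a (b (l 16773336) (l 16766928)) (b (l 535763215) (l 535776527)))) (a (b (a (b (l 535672335) (l 535688207)) (l 535630607)) (a (l 535709199) (b (l 535655695) (l 535671823)))) (b (l 535813903) (b (l 535575823) (a (l 535621903) (l 535575823))))))) (b (a (b (l 3) (a (b (l 3) (l 535406607)) (l 3))) (l 3)) (a (b (a (b (l 535431439) (l 535457807)) (a (l 535381519) (b (l 3) (l 535365135)))) (a (b (a (l 535506959) (l 535467279)) (a (l 535534863) (l 535499023))) (a (b (b (l 535424015) (l 535441423)) (c (l 535600399) (l 535334671))) (b (c (l 535536143) (l 535268111)) (l 535442703))))) (b (l 3) (a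 (b (a (b (l 3) (l 535389455)) (l 3)) (a (l 535422223) (l 535406607))) (b (l 3) (a (l 535396111) (l 3)))))))), by decide +kernel⟩

def k11_B00pm_102_s1 : ∃ t, chk3 f_B00pm_102_s1 t 58 58 1 = true :=
  ⟨(a (b (b (a (a (b (l 16765872) (a (b (l 16765240) (l 16765240)) (l 16765200))) (l 16765992)) (l 535790095)) (a (a (b (l 16765024) (l 16764400)) (b (a (b (l 16765072) (l 16765056)) (b (l 16765368) (l 16765000))) (l 16764840))) (a (b (l 16765552) (a (b (l 16764936) (l 16764888)) (b (l 16765224) (a (l 16764920) (l 16764888))))) (l 16765736)))) (a (b (l 16763976) (l 16763352)) (b (a (b (l 16764672) (l 16764208)) (b (a (b (a (l 16764880) (l 16764832)) (l 16764744)) (b (l 16765112) (a (l 16764840) (l 16764792)))) (l 16764528))) (a (l 16763752) (l 16764016))))) (b (a (a (b (l 16767520) (l 16766256)) (b (l 535689743) (l 535709711))) (a (b (l 535643663) (l 535667471)) (b (l 535601679) (l 535629583)))) (a (b (a (b (l 16765336) (a (b (a (l 16764816)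 (l 16764752)) (l 16764608)) (b (l 16765024) (a (l 16764792) (b (l 16764856) (l 16764752)))))) (b (l 16765872) (l 16765208))) (a (l 16764280) (b (a (b (a (b (l 16764744) (l 16764632)) (b (l 16764800) (l 16764744))) (l 16764552)) (b (l 16764904) (a (b (l 16764744) (l 16764624)) (b (l 16764760) (l 16764744))))) (l 16764408)))) (b (a (l 535693327) (l 535659535)) (a (b (a (l 16765000) (l 16765400)) (a (b (a (b (l 16764744) (l 16764616)) (b (l 16764744) (l 16764752))) (l 16764552)) (b (a (l 16764800) (l 16765048)) (a (b (l 16764768) (l 16764640)) (b (l 16764768) (l 16764792)))))) (a (b (l 16765728) (b (l 16765296) (c (l 16766240) (l 16763536)))) (l 16765792))))))), by decide +kernel⟩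

def k12_B00pm_102_s1 : ∃ t, chk3 f_B00pm_102_s1 t 58 59 1 = true :=
  ⟨(a (b (a (b (l 16762872) (l 16762536)) (b (a (l 16763264) (l 16763520)) (l 16763032))) (a (b (l 16762320) (l 16762224)) (b (l 16762800) (l 16762688)))) (b (a (b (a (l 16763784) (l 16764040)) (a (l 16763416) (l 16763664))) (b (a (c (l 16765816) (l 16762816)) (b (a (b (a (b (l 16764824) (l 16764688)) (b (l 16764824) (l 16764864))) (l 16764648)) (b (a (b (l 16765064) (l 16764864)) (l 16765168)) (a (b (l 16764904) (l 16764768)) (b (b (l 16764976) (l 16764912)) (l 16764952))))) (l 16764576))) (a (l 16763936) (c (l 16765824) (l 16762744))))) (b (a (a (l 16763168) (l 16763408)) (a (l 16763672) (l 16764016))) (a (l 16763128) (c (l 16765496) (l 16761832)))))), by decide +kernel⟩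

def k13_B00pm_102_s1 : ∃ t, chk3 f_B00pm_102_s1 t 59 58 1 = true :=
  ⟨(a (a (b (a (b (l 535564815) (l 535596559)) (b (l 535533071) (l 535568911))) (a (b (l 535630607) (l 535666959)) (b (l 535607055) (l 535647503)))) (b (a (b (l 535506191) (l 535546383)) (b (l 535484687) (l 535528719))) (a (b (l 535588367) (l 535633167)) (b (l 535575055) (l 535623695))))) (c (a (b (a (l 535622159) (l 535612687)) (a (l 535720975) (l 535719439))) (b (a (l 535608335) (l 535608591)) (a (l 535722767) (l 535731215)))) (a (b (a (l 535358223) (l 535348495)) (a (l 535460879) (l 535459343))) (b (a (l 535343887) (l 535344399)) (a (l 535462927) (l 535471887)))))), by decide +kernel⟩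

def k14_B00pm_102_s1 : ∃ t, chk3 f_B00pm_102_s1 t 118 118 1 = true :=
  ⟨(a (b (b (a (a (b (l 16765448) (a (b (l 16765152) (b (l 16765016) (l 16764976))) (l 16765272))) (l 16765704)) (l 535679759)) (a (a (b (a (b (l 16765000) (l 16764872)) (b (b (l 16765064) (l 16765040)) (l 16765064))) (l 16764856)) (b (a (b (l 16765272) (b (l 16765120) (l 16765112))) (l 16765400)) (a (l 16765112) (b (b (l 16765192) (l 16765192)) (l 16765192))))) (a (a (b (l 16765608) (a (b (l 16765360) (l 16765256)) (l 16765320))) (l 16765688)) (l 16766008)))) (a (c (l 16766176) (l 16763280)) (b (a (b (a (l 16765248) (b (a (l 16765352) (l 16765368)) (l 16765344))) (l 16765168)) (b (a (b (l 16765576) (a (l 16765448) (l 16765464))) (l 16765736)) (a (l 16765408) (b (a (l 16765552) (l 16765568)) (l 16765512))))) (c (l 16766552) (l 16763776))))) (b (a (l 535680271) (l 535674895)) (a (b (a (a (b (l 16765960) (b (l 16765776) (a (l 16765656) (l 16765672)))) (l 16766048))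 (l 16766408)) (a (b (a (l 16765584) (b (c (l 16767056) (b (l 16764472) (l 16764504))) (l 16765720))) (l 16765576)) (b (b (l 16766080) (a (c (l 16767168) (b (l 16764600) (l 16764632))) (l 16766072))) (a (l 16765816) (b (c (l 16767288) (b (l 16764728) (l 16764768))) (l 16765960)))))) (b (l 535715343) (a (b (l 16766520) (a (b (l 16766184) (c (l 16767416) (b (l 16764872) (l 16764904)))) (l 16766352))) (l 16766888)))))), by decide +kernel⟩

def k15_B00pm_102_s1 : ∃ t, chk3 f_B00pm_102_s1 t 118 119 1 = true :=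
  ⟨(a (a (b (c (l 16766008) (l 16762864)) (l 16764272)) (b (c (l 16766432) (l 16763472)) (l 16764776))) (b (a (c (l 16766928) (b (l 16764256) (l 16764064))) (b (b (a (a (l 16766072) (b (c (l 16767544) (b (l 16765016) (l 16765040))) (l 16766224))) (a (b (l 16766432) (c (l 16767680) (b (l 16765168) (l 16765184)))) (c (l 16767808) (l 16765392)))) (a (l 16766080) (a (l 16766344) (b (c (l 16767824) (b (l 16765328) (l 16765336))) (l 16766504))))) (c (l 16767472) (l 16764824)))) (c (a (l 16766848) (l 16767408)) (a (l 16763840) (l 16764584))))), by decide +kernel⟩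

def k16_B00pm_102_s1 : ∃ t, chk3 f_B00pm_102_s1 t 119 118 1 = true :=
  ⟨(b (a (a (l 535674639) (l 535679503)) (a (l 535689231) (l 535704079))) (a (a (l 535732751) (l 535741711)) (a (l 535755791) (c (l 535899151) (l 535645967))))), by decide +kernel⟩

def k17_B00pm_102_s1 : ∃ t, chk3 f_B00pm_102_s1 t 119 119 1 = true :=
  ⟨(a (b (a (b (a (b (l 16767048) (b (c (l 16768008) (l 16765608)) (a (c (l 16767968) (b (l 16765488) (l 16765488))) (c (l 16768048) (l 16765640))))) (l 16767448)) (b (a (a (l 16766640) (b (c (l 16768120) (b (l 16765656) (l 16765648))) (l 16766816))) (a (b (c (l 16768192) (l 16765800)) (c (l 16768272) (b (l 16765832) (l 16765808)))) (b (l 16767328) (a (l 16767128) (l 16767296))))) (a (l 16766672) (a (l 16766960) (b (c (l 16768432) (b (l 16766008) (l 16765968))) (l 16767136)))))) (b (l 535790863) (a (b (l 16767664) (a (a (b (l 16767296) (l 16767304)) (b (l 16767464) (l 16767432))) (b (l 16767656) (a (l 16767464) (l 16767632)))))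 (l 16768088)))) (a (c (l 16768040) (b (l 16765480) (l 16765328))) (b (b (a (a (l 16767296) (b (a (l 16767464) (l 16767608)) (l 16767480))) (a (b (a (l 16767648) (l 16767792)) (c (l 16768928) (l 16766584))) (a (b (l 16767936) (l 16767832)) (l 16768000)))) (a (l 16767336) (a (l 16767648) (b (c (l 16769104) (l 16766776)) (l 16767840))))) (c (l 16768680) (l 16766168))))) (b (a (c (l 535947791) (l 535696655)) (c (l 535954191) (l 535704079))) (a (b (a (b (l 16768336) (a (a (b (l 16768016) (l 16767976)) (b (l 16768112) (l 16768104))) (a (b (l 16768248) (l 16768112)) (l 16768232)))) (l 16768640)) (a (b (c (l 16769240) (a (l 16766728) (l 16766984))) (l 16767856)) (a (b (b (a (l 16768192) (l 16768248)) (l 16768232)) (l 16768072)) (a (b (b (l 16768392) (l 16768280)) (l 16768184)) (b (l 16768368) (l 16768328)))))) (a (b (l 16769032) (a (b (l 16768576) (b (a (l 16768368) (l 16768408)) (l 16768392))) (b (l 16768776) (b (l 16768608) (a (l 16768456)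 (l 16768488)))))) (l 535870735))))), by decide +kernel⟩

def k18_B00pm_102_s1 : ∃ t, chk3 f_B00pm_102_s1 t 28 30 1 = true :=
  ⟨(b (a (b (a (b (a (l 16713744) (l 16715272)) (l 16755656)) (b (l 16758616) (b (l 16727216) (l 16727664)))) (l 16734840)) (b (a (a (l 16759792) (l 16760752)) (a (l 16761296) (l 16761792))) (a (b (a (l 16728960) (b (l 16760720) (l 16760992))) (l 16759712)) (b (a (l 16761240) (l 16761968)) (b (a (l 16761608) (l 16761872)) (a (l 16761168) (a (l 16762120) (l 16762152)))))))) (a (a (l 16751824) (l 16723792)) (a (b (l 16758592) (l 16757504)) (b (l 16760768) (l 16759736))))), by decide +kernel⟩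

def k19_B00pm_102_s1 : ∃ t, chk3 f_B00pm_102_s1 t 58 30 1 = true :=
  ⟨(b (a (b (a (l 16762240) (b (l 16762664) (l 16762696))) (a (b (l 16762384) (l 16762264)) (l 16762832))) (b (a (b (l 16763080) (l 16763088)) (b (l 16763600) (l 16763576))) (a (b (l 16763136) (l 16763216)) (b (l 16763592) (l 16763640))))) (b (a (b (b (a (a (l 16762624) (l 16762608)) (l 16762784)) (a (l 16762264) (a (l 16763072) (l 16763016)))) (l 16762192)) (b (a (a (l 16763056) (l 16763424)) (l 16763712)) (a (b (a (l 16763472) (l 16763384)) (l 16763112)) (b (l 16763568) (a (l 16763848) (b (l 16763792) (l 16764008))))))) (a (l 16761496) (a (l 16762576) (l 16763264))))), by decide +kernel⟩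

def k20_B00pm_102_s1 : ∃ t, chk3 f_B00pm_102_s1 t 59 30 1 = true :=
  ⟨(b (b (a (a (b (c (l 16766160) (l 16762632)) (l 16764360)) (b (c (l 16767096) (a (l 16763592) (l 16764328))) (c (l 16767096) (l 16763720)))) (a (b (c (a (l 16767960) (l 16768480)) (a (l 16765096) (l 16765808))) (c (l 16768016) (a (l 16764720) (l 16765344)))) (b (a (c (l 16768952) (b (l 16766608) (l 16766344))) (b (a (c (l 16769464) (b (l 16767248) (l 16767048))) (a (b (b (a (l 16768560) (l 16768584)) (l 16768560)) (l 16768432)) (b (b (l 16768784) (a (l 16768656) (l 16768680))) (l 16768624)))) (c (l 16769368) (l 16767024)))) (c (a (l 16768696) (l 16769184)) (a (l 16765992) (l 16766672)))))) (a (a (b (l 16764336) (l 16764320)) (b (c (l 16767064) (l 16763472)) (l 16765144))) (a (b (c (l 16767856) (l 16764648)) (c (l 16767800) (l 16764376))) (a (b (l 16767088) (l 16766920)) (b (l 16767672) (l 16767504)))))) (a (b (a (b (l 16764312) (a (l 16764008) (l 16764544))) (b (l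 16765088) (l 16765136))) (b (a (b (a (b (l 16764328) (l 16764144)) (b (l 16764488) (l 16764712))) (l 16764232)) (b (l 16765048) (a (b (l 16765152) (l 16764984)) (b (l 16765416) (l 16765640))))) (a (l 16763976) (l 16765064)))) (b (a (b (l 16766040) (l 16766096)) (b (c (l 16768752) (l 16765512)) (l 16767192))) (b (a (a (l 16765816) (l 16766512)) (l 16767344)) (b (a (a (b (l 16766184) (l 16766040)) (b (l 16766536) (l 16766768))) (l 16767336)) (a (l 16766256) (a (b (l 16767392) (l 16767264)) (b (l 16767808) (l 16768040))))))))), by decide +kernel⟩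

def k21_B00pm_102_s1 : ∃ t, chk3 f_B00pm_102_s1 t 14 31 1 = true :=
  ⟨(a (b (a (a (l 16708416) (l 16711976)) (a (b (l 16756888) (l 16756776)) (b (l 16759168) (l 16759096)))) (a (b (a (l 16750592) (l 16754232)) (a (c (l 16757512) (l 16745272)) (c (l 16760760) (l 16749392)))) (b (a (l 16757176) (l 16759528)) (a (c (l 16763320) (l 16752784)) (c (l 16765296) (l 16755560)))))) (a (b (a (b (l 16760976) (l 16760936)) (b (l 16762408) (l 16762384))) (a (b (l 16761384) (c (l 16766776) (l 16757824))) (b (l 16762848) (c (l 16767864) (l 16759672))))) (b (b (a (c (l 16766856) (l 16761440)) (c (l 16768928) (l 16764384))) (a (l 16764144) (l 16771872))) (b (a (l 16764600) (c (l 16769960) (l 16764080))) (a (c (l 16769208) (b (l 16761608) (l 16762016))) (c (l 16771200) (b (l 16764440) (l 16764816)))))))), by decide +kernel⟩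

def k22_B00pm_102_s1 : ∃ t, chk3 f_B00pm_102_s1 t 15 14 1 = true :=
  ⟨(a (b (l 3) (a (a (b (a (b (b (l 3) (a (l 535515919) (l 535528463))) (a (c (l 535744527) (l 535485711)) (b (l 535599119) (l 535672079)))) (b (l 3) (a (b (l 535620623) (l 535685647)) (b (l 3) (l 535687951))))) (c (a (b (a (l 535875343) (l 535880975)) (a (l 535969039) (l 535968015))) (b (a (l 535880719) (l 535881231)) (a (l 535970575) (l 535977231)))) (a (b (a (b (l 535594767) (l 535655951)) (b (l 535606799) (l 535655183))) (a (b (l 535701519) (l 535745295)) (b (l 535700495) (l 535747599)))) (b (a (l 535630095) (l 535632399)) (a (b (l 535703567) (l 535753999)) (b (l 535710735) (l 535764239))))))) (b (a (b (l 3) (a (c (l 535789327) (l 535535119)) (l 3))) (l 3)) (a (b (a (c (l 535885583) (l 535638799)) (c (l 535894031) (l 535649295))) (a (c (l 535987727) (l 535748623)) (c (l 536001807) (l 535765263)))) (b (a (c (l 535906063) (l 535663631)) (l 3)) (a (c (l 536019727)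 (l 535785743)) (c (l 536041231) (l 535810063))))))) (a (b (l 3) (b (l 3) (a (a (c (l 536066575) (l 535838223)) (b (l 3) (a (l 536012047) (l 536032015)))) (l 3)))) (l 3)))) (l 3)), by decide +kernel⟩

def k23_B00pm_102_s1 : ∃ t, chk3 f_B00pm_102_s1 t 120 60 1 = true :=
  ⟨(b (b (a (a (b (a (a (b (l 16768936) (b (a (l 16768760) (l 16768776)) (l 16768736))) (b (l 16769144) (b (l 16768976) (a (l 16768864) (l 16768880))))) (l 16769352)) (b (b (a (l 16768752) (a (a (l 16768976) (l 16768984)) (l 16769184))) (a (l 16768688) (a (l 16768928) (a (l 16769080) (l 16769096))))) (l 16768768))) (b (l 535905551) (a (a (b (l 16769328) (b (a (l 16769192) (l 16769208)) (l 16769136))) (b (l 16769560) (b (l 16769376) (a (l 16769312) (l 16769320))))) (c (l 16770672) (l 16768776))))) (a (l 535924495) (l 535936527))) (a (a (c (l 16769696) (b (l 16767496) (l 16767280))) (a (c (l 16770096) (l 16767928)) (b (a (b (b (c (l 16770432) (l 16768440)) (l 16769368)) (l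 16769304)) (b (b (l 16769584) (c (l 16770544) (l 16768568))) (l 16769464))) (l 16769264)))) (a (b (a (b (l 16769840) (a (b (c (l 16770656) (l 16768704)) (l 16769608)) (b (l 16769808) (c (l 16770776) (l 16768840))))) (c (l 16771056) (l 16769240))) (a (l 16769592) (b (a (b (c (l 16770896) (l 16768984)) (l 16769856)) (b (l 16770040) (c (l 16771008) (l 16769120)))) (l 16769880)))) (b (l 535973647) (a (a (b (l 16770200) (b (c (l 16771136) (l 16769264)) (l 16770112))) (b (l 16770496) (b (l 16770288) (c (l 16771256) (l 16769408))))) (b (l 16770824) (c (l 16771416) (l 16769656)))))))) (b (a (c (a (l 16769536) (l 16770072)) (a (l 16767008) (l 16767736))) (a (c (l 16770624) (l 16768480)) (b (a (l 16770112) (b (a (b (c (l 16771376) (l 16769552)) (l 16770376)) (b (l 16770544) (l 16770608))) (l 16770416))) (l 16770160)))) (a (c (l 16769736) (a (l 16766728) (l 16767456))) (c (a (l 16770552) (l 16771112)) (a (l 16768200) (l 16768952)))))), by decide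 +kernel⟩

def k24_B00pm_102_s1 : ∃ t, chk3 f_B00pm_102_s1 t 121 60 1 = true :=
  ⟨(b (b (a (a (l 535952655) (l 535972111)) (a (l 535995407) (l 536022031))) (a (a (l 536003343) (l 536024847)) (a (l 536049679) (l 536077583)))) (a (b (a (b (a (b (a (c (l 16771560) (l 16769816)) (l 16771008)) (a (b (l 16770744) (l 16770648)) (b (l 16770808) (l 16770888)))) (b (l 16771336) (a (b (l 16771096) (l 16770944)) (l 16771272)))) (a (l 16770664) (b (a (a (l 16770912) (l 16771072)) (b (l 16771088) (l 16771168))) (l 16770976)))) (b (l 16771896) (a (b (a (b (l 16771368) (l 16771224)) (l 16771544)) (b (a (l 16771312) (l 16771368)) (l 16771392))) (b (l 16771864) (a (b (l 16771640) (l 16771512)) (l 16771816)))))) (a (c (l 16771680) (l 16769720)) (b (a (l 16771240) (b (a (l 16771608) (b (l 16771656) (l 16771736))) (l 16771552))) (l 16771336)))) (b (a (l 536103183) (l 536132367)) (b (a (a (a (b (b (l 16771920) (l 16771800)) (l 16771896)) (b (l 16772096) (b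 (l 16771952) (l 16772032)))) (b (l 16772408) (b (l 16772312) (a (l 16772096) (l 16772352))))) (l 16772960)) (a (a (l 16771840) (a (l 16772184) (b (a (l 16772304) (l 16772320)) (l 16772240)))) (a (a (b (b (l 16772496) (l 16772400)) (l 16772472)) (b (l 16772672) (b (l 16772552) (l 16772616)))) (b (l 16772968) (b (l 16772888) (a (l 16772704) (l 16772928)))))))))), by decide +kernel⟩

def k25_B00pm_102_s1 : ∃ t, chk3 f_B00pm_102_s1 t 60 61 1 = true :=
  ⟨(a (b (a (b (c (l 16769768) (l 16766920)) (c (l 16769912) (l 16766856))) (b (c (l 16770856) (l 16768392)) (c (l 16770992) (l 16768320)))) (a (b (l 16768536) (a (l 16768328) (l 16769104))) (b (l 16772424) (l 16770048)))) (b (b (a (c (l 16771984) (a (l 16769536) (l 16770296))) (a (c (l 16772832) (l 16771048)) (b (a (l 16772448) (b (b (a (l 16772760) (l 16772856)) (l 16772824)) (l 16772768))) (l 16772592)))) (a (c (l 16772104) (l 16769832)) (a (l 16771960) (l 16772608)))) (a (b (c (l 16772328)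 (l 16769856)) (l 16771328)) (b (c (l 16773432) (l 16771344)) (c (l 16773744) (l 16771464)))))), by decide +kernel⟩

def k26_B00pm_102_s1 : ∃ t, chk3 f_B00pm_102_s1 t 61 60 1 = true :=
  ⟨(b (a (a (a (b (l 536055311) (a (l 536100367) (l 536115727))) (b (l 536082703) (l 536143887))) (a (c (l 536260623) (l 536047887)) (l 536199439))) (a (a (l 536243983) (l 3)) (l 3))) (a (a (a (b (l 536165135) (l 536224783)) (b (l 536203535) (l 536264207))) (a (b (l 536247311) (l 536308239)) (b (l 536291855) (l 536352527)))) (a (a (b (l 536336143) (l 536396815)) (b (l 536380431) (l 536440847))) (a (b (l 536424719) (l 536484879)) (b (l 3) (l 536528911)))))), by decide +kernel⟩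

def k27_B00pm_102_s1 : ∃ t, chk3 f_B00pm_102_s1 t 61 61 1 = true :=
  ⟨(a (b (a (b (b (a (a (b (a (b (l 16773080) (l 16773008)) (l 16773248)) (b (a (l 16773048) (l 16773168)) (l 16773120))) (b (l 16773536) (a (b (l 16773368) (l 16773320)) (l 16773544)))) (l 16774056)) (a (a (l 16773072) (b (b (a (l 16773344) (l 16773472)) (l 16773408)) (l 16773384))) (a (b (a (l 16776192) (l 16773832)) (b (l 16776400) (l 16773704))) (b (l 16774112) (b (l 16774056) (l 16773944)))))) (a (c (l 16774040) (l 16772432)) (b (a (l 16773696) (b (a (l 16773928) (l 16774168)) (l 16774008))) (l 16773872)))) (b (a (l 536369679) (l 536413711)) (a (b (a (b (a (l 16774176) (l 16774384)) (b (l 16774392) (l 16774304))) (b (l 16774664) (a (l 16774472) (l 16774656)))) (a (l 16774320) (b (b (l 16774680) (l 16774600)) (l 16774608)))) (b (l 16775104) (a (b (a (l 16774752) (l 16774912)) (b (l 16774968) (l 16774880))) (b (l 16775176) (b (l 16775096) (l 16775096)))))))) (a (b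 (a (l 16773344) (l 16773952)) (c (l 16774800) (l 16772896))) (b (a (l 16774536) (b (a (l 16774912) (b (l 16775288) (l 16775176))) (l 16775104))) (a (l 16774728) (l 16775248))))) (b (a (a (b (l 536457743) (l 536519183)) (b (l 536501775) (l 536562959))) (a (a (l 536563471) (l 536585231)) (l 536616207))) (a (b (a (b (a (b (b (l 16775344) (l 16775360)) (l 16775544)) (b (l 16775664) (l 14))) (a (l 16775464) (l 14))) (l 14)) (l 14)) (l 14)))), by decide +kernel⟩

def k28_B00pm_102_s1 : ∃ t, chk3 f_B00pm_102_s1 t 30 31 1 = true :=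
  ⟨(a (b (b (a (b (a (b (a (b (l 16768728) (l 16768616)) (b (l 16769192) (l 16769432))) (l 16768920)) (b (l 16770128) (a (b (l 16770152) (l 16770064)) (b (l 16770656) (l 16770888))))) (l 16769576)) (b (a (a (l 16771208) (l 16771992)) (l 16772936)) (a (b (a (b (l 16771632) (l 16771568)) (b (l 16772152) (l 16772384))) (l 16771912)) (b (l 16773088) (b (a (l 16773128) (l 16773640)) (a (l 16773072) (l 16773872))))))) (a (c (l 16771688) (l 16767384)) (b (l 16777872) (l 16772664)))) (b (a (c (l 16772392) (l 16767384)) (b (l 16772800) (l 14))) (a (a (b (l 16769768) (l 16770304)) (b (l 16771224) (l 14))) (l 14)))) (b (a (b (a (b (c (l 16775208) (l 16773112)) (a (l 16774152) (l 16774864))) (b (c (l 16776136) (l 16774416)) (l 14))) (l 14)) (l 14)) (l 14))), by decide +kernel⟩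

def k29_B00pm_102_s1 : ∃ t, chk3 f_B00pm_102_s1 t 31 15 1 = true :=
  ⟨(b (b (l 3) (l 14)) (l 14)), by decide +kernel⟩

theorem t30_B00pm_102_s1 : ∃ t, chk3 f_B00pm_102_s1 t 61 30 1 = true := ex3_b k26_B00pm_102_s1 k27_B00pm_102_s1

theorem t31_B00pm_102_s1 : ∃ t, chk3 f_B00pm_102_s1 t 60 60 1 = true := ex3_a k23_B00pm_102_s1 k24_B00pm_102_s1

theorem t32_B00pm_102_s1 : ∃ t, chk3 f_B00pm_102_s1 t 60 30 1 = true := ex3_b t31_B00pm_102_s1 k25_B00pm_102_s1

theorem t33_B00pm_102_s1 : ∃ t, chk3 f_B00pm_102_s1 t 30 30 1 = true := ex3_a t32_B00pm_102_s1 t30_B00pm_102_s1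

theorem t34_B00pm_102_s1 : ∃ t, chk3 f_B00pm_102_s1 t 30 15 1 = true := ex3_b t33_B00pm_102_s1 k28_B00pm_102_s1

theorem t35_B00pm_102_s1 : ∃ t, chk3 f_B00pm_102_s1 t 15 15 1 = true := ex3_a t34_B00pm_102_s1 k29_B00pm_102_s1

theorem t36_B00pm_102_s1 : ∃ t, chk3 f_B00pm_102_s1 t 15 7 1 = true := ex3_b k22_B00pm_102_s1 t35_B00pm_102_s1

theorem t37_B00pm_102_s1 : ∃ t, chk3 f_B00pm_102_s1 t 29 30 1 = true := ex3_a k19_B00pm_102_s1 k20_B00pm_102_s1

theorem t38_B00pm_102_s1 : ∃ t, chk3 f_B00pm_102_s1 t 14 30 1 = true := ex3_a k18_B00pm_102_s1 t37_B00pm_102_s1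

theorem t39_B00pm_102_s1 : ∃ t, chk3 f_B00pm_102_s1 t 14 15 1 = true := ex3_b t38_B00pm_102_s1 k21_B00pm_102_s1

theorem t40_B00pm_102_s1 : ∃ t, chk3 f_B00pm_102_s1 t 119 59 1 = true := ex3_b k16_B00pm_102_s1 k17_B00pm_102_s1

theorem t41_B00pm_102_s1 : ∃ t, chk3 f_B00pm_102_s1 t 118 59 1 = true := ex3_b k14_B00pm_102_s1 k15_B00pm_102_s1

theorem t42_B00pm_102_s1 : ∃ t, chk3 f_B00pm_102_s1 t 59 59 1 = true := ex3_a t41_B00pm_102_s1 t40_B00pm_102_s1

theorem t43_B00pm_102_s1 : ∃ t, chk3 f_B00pm_102_s1 t 59 29 1 = true := ex3_b k13_B00pm_102_s1 t42_B00pm_102_s1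

theorem t44_B00pm_102_s1 : ∃ t, chk3 f_B00pm_102_s1 t 58 29 1 = true := ex3_b k11_B00pm_102_s1 k12_B00pm_102_s1

theorem t45_B00pm_102_s1 : ∃ t, chk3 f_B00pm_102_s1 t 29 29 1 = true := ex3_a t44_B00pm_102_s1 t43_B00pm_102_s1

theorem t46_B00pm_102_s1 : ∃ t, chk3 f_B00pm_102_s1 t 29 14 1 = true := ex3_b k10_B00pm_102_s1 t45_B00pm_102_s1

theorem t47_B00pm_102_s1 : ∃ t, chk3 f_B00pm_102_s1 t 14 14 1 = true := ex3_a k9_B00pm_102_s1 t46_B00pm_102_s1

theorem t48_B00pm_102_s1 : ∃ t, chk3 f_B00pm_102_s1 t 14 7 1 = true := ex3_b t47_B00pm_102_s1 t39_B00pm_102_s1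

theorem t49_B00pm_102_s1 : ∃ t, chk3 f_B00pm_102_s1 t 7 7 1 = true := ex3_a t48_B00pm_102_s1 t36_B00pm_102_s1

theorem t50_B00pm_102_s1 : ∃ t, chk3 f_B00pm_102_s1 t 7 3 1 = true := ex3_b k8_B00pm_102_s1 t49_B00pm_102_s1

theorem t51_B00pm_102_s1 : ∃ t, chk3 f_B00pm_102_s1 t 13 7 1 = true := ex3_b k6_B00pm_102_s1 k7_B00pm_102_s1

theorem t52_B00pm_102_s1 : ∃ t, chk3 f_B00pm_102_s1 t 6 7 1 = true := ex3_a k5_B00pm_102_s1 t51_B00pm_102_s1

theorem t53_B00pm_102_s1 : ∃ t, chk3 f_B00pm_102_s1 t 6 6 1 = true := ex3_a k3_B00pm_102_s1 k4_B00pm_102_s1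

theorem t54_B00pm_102_s1 : ∃ t, chk3 f_B00pm_102_s1 t 6 3 1 = true := ex3_b t53_B00pm_102_s1 t52_B00pm_102_s1

theorem t55_B00pm_102_s1 : ∃ t, chk3 f_B00pm_102_s1 t 3 3 1 = true := ex3_a t54_B00pm_102_s1 t50_B00pm_102_s1

theorem t56_B00pm_102_s1 : ∃ t, chk3 f_B00pm_102_s1 t 3 1 1 = true := ex3_b k2_B00pm_102_s1 t55_B00pm_102_s1

theorem t57_B00pm_102_s1 : ∃ t, chk3 f_B00pm_102_s1 t 2 1 1 = true := ex3_b k0_B00pm_102_s1 k1_B00pm_102_s1

theorem t58_B00pm_102_s1 : ∃ t, chk3 f_B00pm_102_s1 t 1 1 1 = true := ex3_a t57_B00pm_102_s1 t56_B00pm_102_s1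

theorem c_B00pm_102_s1 : CertF 536870912 536870912 0 536870912 780900216 37827925 false true false .npp 1 0 2
    ndB0q1 ndB0q2 pcB0 cut_B00pm_102_s1 xt_B00pm_102_s1 :=
  certF0 (fam := false) (s1 := true) (s2 := false) (a := 1) (b := 0) (c := 2) (cn := .npp) (n1 := ndB0q1) (n2 := ndB0q2) (pc := pcB0) (cut := cut_B00pm_102_s1) (xt := xt_B00pm_102_s1) (P1 := 536870912) (W1 := 536870912) (P2 := 0) (W2 := 536870912) (P3 := 780900216) (W3 := 37827925)
    rfl t58_B00pm_102_s1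

theorem s_B00pm_102_s1 {κ x : ℝ} (hκ : κ * h0 = ken x) (hx : ((780900216 : ℕ) : ℝ) / S ≤ x)
    (hx' : x ≤ (((780900216 : ℕ) : ℝ) + (37827925 : ℕ)) / S)
    (H : CutB (VFD κ) PP tK tL pcB (Cut.of [[⟨0, 1, 0, 67108864⟩, ⟨1, 0, 0, 67108864⟩, ⟨2, 1, 0, 67108864⟩], [⟨0, 0, 1, 26214400⟩, ⟨1, 1, 2, 26214400⟩, ⟨2, 1, 0, 33554432⟩]]) 1 0 2 0 0 (sgb true) (sgb false) x) :
    AltB (VFD κ) PP tK tL pcB [⟨3, 0, 0, 1449551462⟩] 1 0 2 0 0 (sgb true) (sgb false) x :=
  strip_altBD (m := 1449551462) true rfl hκ (SH.κ0 hκ (SH.hx1 hx).le (SH.hx2 hx').le) (SH.hx1 hx).le (SH.hx2 hx') (covB01).cov (covB02).cov hx hx' c_B00pm_102_s1 H ((okx hx hx').extB (T := tt) (sideB hx hx') hκ rfl rfl (.O 1 true) (.O 2 false) (Or.inl rfl))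

noncomputable def cut_B00pm_102_s3 : Cut := Cut.of [[⟨3, 0, 0, 2845415833⟩], [⟨0, 1, 0, 67108864⟩, ⟨1, 0, 0, 67108864⟩, ⟨2, 1, 0, 67108864⟩], [⟨0, 0, 1, 26214400⟩, ⟨1, 1, 2, 26214400⟩, ⟨2, 1, 0, 33554432⟩]]

noncomputable def f_B00pm_102_s3 : ℕ → ℕ → ℕ → ℕ → Bool := onCell 536870912 536870912 0 536870912 780900216 37827925
    (rowF 0 false true false .npp 1 0 2 (qsf 536870912 536870912 0 536870912 0) ndB0q1 ndB0q2 pcB0 cut_B00pm_102_s3 Ext.none)

def k0_B00pm_102_s3 : ∃ t, chk3 f_B00pm_102_s3 t 1 1 1 = true :=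
  ⟨(l 6), by decide +kernel⟩

theorem c_B00pm_102_s3 : CertF 536870912 536870912 0 536870912 780900216 37827925 false true false .npp 1 0 2
    ndB0q1 ndB0q2 pcB0 cut_B00pm_102_s3 Ext.none :=
  certF0 (fam := false) (s1 := true) (s2 := false) (a := 1) (b := 0) (c := 2) (cn := .npp) (n1 := ndB0q1) (n2 := ndB0q2) (pc := pcB0) (cut := cut_B00pm_102_s3) (xt := Ext.none) (P1 := 536870912) (W1 := 536870912) (P2 := 0) (W2 := 536870912) (P3 := 780900216) (W3 := 37827925)
    rfl k0_B00pm_102_s3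

theorem s_B00pm_102_s3 {κ x : ℝ} (hκ : κ * h0 = ken x) (hx : ((780900216 : ℕ) : ℝ) / S ≤ x)
    (hx' : x ≤ (((780900216 : ℕ) : ℝ) + (37827925 : ℕ)) / S)
    (H : CutB (VFD κ) PP tK tL pcB (Cut.of [[⟨0, 1, 0, 67108864⟩, ⟨1, 0, 0, 67108864⟩, ⟨2, 1, 0, 67108864⟩], [⟨0, 0, 1, 26214400⟩, ⟨1, 1, 2, 26214400⟩, ⟨2, 1, 0, 33554432⟩]]) 1 0 2 0 0 (sgb true) (sgb false) x) :
    AltB (VFD κ) PP tK tL pcB [⟨4, 0, 0, 2845415833⟩] 1 0 2 0 0 (sgb true) (sgb false) x :=
  strip_altBD (m := 2845415833) false rfl hκ (SH.κ0 hκ (SH.hx1 hx).le (SH.hx2 hx').le) (SH.hx1 hx).le (SH.hx2 hx') (covB01).cov (covB02).cov hx hx' c_B00pm_102_s3 H (noExt_B)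

noncomputable def cut_B00pm_112_s1 : Cut := Cut.of [[⟨4, 0, 0, 1449551462⟩]]

noncomputable def xt_B00pm_112_s1 : Ext := strExt dd false true false .u0 .u2 .u0m .dn 1 1 2 rfl rfl gf1 vv ndB0q1 ndB0q2

noncomputable def f_B00pm_112_s1 : ℕ → ℕ → ℕ → ℕ → Bool := onCell 536870912 536870912 0 536870912 780900216 37827925
    (rowF 2 false true false .dn 1 1 2 (qsf 536870912 536870912 0 536870912 1) ndB0q1 ndB0q2 pcB1 cut_B00pm_112_s1 xt_B00pm_112_s1)

def k0_B00pm_112_s1 : ∃ t, chk3 f_B00pm_112_s1 t 4 4 1 = true :=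
  ⟨(a (b (a (b (l 3) (a (b (l 3) (l 532969743)) (l 533144079))) (b (l 533266703) (l 533360143))) (b (a (a (a (l 532910351) (l 533038863)) (b (l 533202191) (l 533203471))) (a (b (l 533357327) (l 533374223)) (l 533494543))) (a (a (b (a (l 532902671) (l 533033231)) (a (l 532897807) (l 533028623))) (b (l 533202447) (l 533200399))) (a (b (l 533381391) (l 16708720)) (b (l 16735072) (a (l 16678488) (l 16692840))))))) (b (a (b (l 533446415) (l 533544975)) (b (l 533530895) (l 533636111))) (a (b (a (l 533592335) (l 533664527)) (a (b (l 16722120) (b (a (l 16670416) (l 16664856)) (l 16701600))) (b (b (l 16692296) (a (l 16666808) (l 16660808))) (l 16651336)))) (b (b (a (l 16685672) (a (l 16675312) (l 16709760))) (a (a (l 16673312) (b (l 16670680) (l 16663624))) (a (l 16681896) (l 16653640)))) (a (b (a (l 16658680) (l 16651736)) (l 16639112)) (l 16676360)))))), by decide +kernel⟩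

def k1_B00pm_112_s1 : ∃ t, chk3 f_B00pm_112_s1 t 4 5 1 = true :=
  ⟨(a (b (a (b (a (b (a (c (l 16718424) (l 16696232)) (l 16690120)) (a (l 16696056) (l 16669032))) (b (l 533199119) (a (b (l 16668384) (b (l 16660464) (l 16655744))) (b (l 16662336) (l 16653160))))) (b (a (a (b (l 16679384) (b (l 16650816) (l 16645496))) (b (c (l 16675136) (l 16652752)) (l 16643064))) (l 16640688)) (a (l 16630088) (l 16620832)))) (b (a (b (b (l 16673528) (a (l 16666488) (l 16661272))) (a (b (l 16657480) (l 16647568)) (l 16647048))) (b (b (a (l 16664648) (l 16659336)) (l 16652928)) (l 16639088))) (a (l 16663152) (l 16611776)))) (a (b (a (c (l 16620672) (l 16598592)) (l 16612096)) (a (c (l 16600016) (l 16557256)) (l 16593472))) (b (a (l 16583328) (l 16575616)) (l 6)))) (b (b (a (a (l 16668752) (l 16668184)) (a (l 16657016) (l 16603776))) (a (a (l 16602344) (l 16592848)) (a (l 16583240) (l 6)))) (b (l 6) (l 6)))), by decide +kernel⟩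

def k2_B00pm_112_s1 : ∃ t, chk3 f_B00pm_112_s1 t 5 2 1 = true :=
  ⟨(a (b (b (a (b (a (l 533544463) (l 533538063)) (a (b (l 16686432) (a (l 16675680) (l 16667856))) (b (l 16671312) (b (l 16702520) (l 16654400))))) (l 1)) (a (b (a (b (a (l 16703392) (l 16654616)) (l 16643336)) (l 16636568)) (a (l 16621592) (l 16608848))) (l 1))) (b (a (b (a (l 16592344) (l 6)) (l 6)) (l 1)) (l 6))) (l 1)), by decide +kernel⟩

def k3_B00pm_112_s1 : ∃ t, chk3 f_B00pm_112_s1 t 2 3 1 = true :=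
  ⟨(a (b (l 6) (l 6)) (l 6)), by decide +kernel⟩

def k4_B00pm_112_s1 : ∃ t, chk3 f_B00pm_112_s1 t 3 1 1 = true :=
  ⟨(l 1), by decide +kernel⟩

theorem t5_B00pm_112_s1 : ∃ t, chk3 f_B00pm_112_s1 t 4 2 1 = true := ex3_b k0_B00pm_112_s1 k1_B00pm_112_s1

theorem t6_B00pm_112_s1 : ∃ t, chk3 f_B00pm_112_s1 t 2 2 1 = true := ex3_a t5_B00pm_112_s1 k2_B00pm_112_s1

theorem t7_B00pm_112_s1 : ∃ t, chk3 f_B00pm_112_s1 t 2 1 1 = true := ex3_b t6_B00pm_112_s1 k3_B00pm_112_s1

theorem t8_B00pm_112_s1 : ∃ t, chk3 f_B00pm_112_s1 t 1 1 1 = true := ex3_a t7_B00pm_112_s1 k4_B00pm_112_s1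

theorem c_B00pm_112_s1 : CertF 536870912 536870912 0 536870912 780900216 37827925 false true false .dn 1 1 2
    ndB0q1 ndB0q2 pcB1 cut_B00pm_112_s1 xt_B00pm_112_s1 :=
  certF2 (fam := false) (s1 := true) (s2 := false) (a := 1) (b := 1) (c := 2) (cn := .dn) (n1 := ndB0q1) (n2 := ndB0q2) (pc := pcB1) (cut := cut_B00pm_112_s1) (xt := xt_B00pm_112_s1) (P1 := 536870912) (W1 := 536870912) (P2 := 0) (W2 := 536870912) (P3 := 780900216) (W3 := 37827925)
    rfl (fun _ => rfl) t8_B00pm_112_s1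

theorem s_B00pm_112_s1 {κ x : ℝ} (hκ : κ * h0 = ken x) (hx : ((780900216 : ℕ) : ℝ) / S ≤ x)
    (hx' : x ≤ (((780900216 : ℕ) : ℝ) + (37827925 : ℕ)) / S) :
    AltB (VFD κ) PP tK tL pcB [⟨3, 0, 0, 1449551462⟩] 1 1 2 0 0 (sgb true) (sgb false) x :=
  strip_altBD (m := 1449551462) true rfl hκ (SH.κ0 hκ (SH.hx1 hx).le (SH.hx2 hx').le) (SH.hx1 hx).le (SH.hx2 hx') (covB01).cov (covB02).cov hx hx' c_B00pm_112_s1 cutB_nil ((okx hx hx').extB (T := tt) (sideB hx hx') hκ rfl rfl (.O 1 true) (.O 2 false) (Or.inr rfl))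

noncomputable def cut_B00pm_112_s3 : Cut := Cut.of [[⟨3, 0, 0, 2845415833⟩]]

noncomputable def f_B00pm_112_s3 : ℕ → ℕ → ℕ → ℕ → Bool := onCell 536870912 536870912 0 536870912 780900216 37827925
    (rowF 0 false true false .dn 1 1 2 (qsf 536870912 536870912 0 536870912 1) ndB0q1 ndB0q2 pcB1 cut_B00pm_112_s3 Ext.none)

def k0_B00pm_112_s3 : ∃ t, chk3 f_B00pm_112_s3 t 1 1 1 = true :=
  ⟨(l 6), by decide +kernel⟩

theorem c_B00pm_112_s3 : CertF 536870912 536870912 0 536870912 780900216 37827925 false true false .dn 1 1 2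
    ndB0q1 ndB0q2 pcB1 cut_B00pm_112_s3 Ext.none :=
  certF0 (fam := false) (s1 := true) (s2 := false) (a := 1) (b := 1) (c := 2) (cn := .dn) (n1 := ndB0q1) (n2 := ndB0q2) (pc := pcB1) (cut := cut_B00pm_112_s3) (xt := Ext.none) (P1 := 536870912) (W1 := 536870912) (P2 := 0) (W2 := 536870912) (P3 := 780900216) (W3 := 37827925)
    rfl k0_B00pm_112_s3

theorem s_B00pm_112_s3 {κ x : ℝ} (hκ : κ * h0 = ken x) (hx : ((780900216 : ℕ) : ℝ) / S ≤ x)
    (hx' : x ≤ (((780900216 : ℕ) : ℝ) + (37827925 : ℕ)) / S) :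
    AltB (VFD κ) PP tK tL pcB [⟨4, 0, 0, 2845415833⟩] 1 1 2 0 0 (sgb true) (sgb false) x :=
  strip_altBD (m := 2845415833) false rfl hκ (SH.κ0 hκ (SH.hx1 hx).le (SH.hx2 hx').le) (SH.hx1 hx).le (SH.hx2 hx') (covB01).cov (covB02).cov hx hx' c_B00pm_112_s3 cutB_nil (noExt_B)

noncomputable def cut_B00pm_202_s1 : Cut := Cut.of [[⟨4, 0, 0, 1449551462⟩], [⟨0, 1, 0, 67108864⟩, ⟨1, 0, 0, 67108864⟩, ⟨2, 1, 0, 67108864⟩]]

noncomputable def f_B00pm_202_s1 : ℕ → ℕ → ℕ → ℕ → Bool := onCell 0 536870912 0 536870912 780900216 37827925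
    (rowF 0 false true false .pp 2 0 2 (qsf 0 536870912 0 536870912 0) ndB0q2 ndB0q2 pcB0 cut_B00pm_202_s1 Ext.none)

def k0_B00pm_202_s1 : ∃ t, chk3 f_B00pm_202_s1 t 1 1 1 = true :=
  ⟨(a (l 3) (b (l 3) (b (l 3) (a (l 3) (b (l 3) (a (l 3) (l 14))))))), by decide +kernel⟩

theorem c_B00pm_202_s1 : CertF 0 536870912 0 536870912 780900216 37827925 false true false .pp 2 0 2
    ndB0q2 ndB0q2 pcB0 cut_B00pm_202_s1 Ext.none :=
  certF0 (fam := false) (s1 := true) (s2 := false) (a := 2) (b := 0) (c := 2) (cn := .pp) (n1 := ndB0q2) (n2 := ndB0q2) (pc := pcB0) (cut := cut_B00pm_202_s1) (xt := Ext.none) (P1 := 0) (W1 := 536870912) (P2 := 0) (W2 := 536870912) (P3 := 780900216) (W3 := 37827925)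
    rfl k0_B00pm_202_s1

theorem s_B00pm_202_s1 {κ x : ℝ} (hκ : κ * h0 = ken x) (hx : ((780900216 : ℕ) : ℝ) / S ≤ x)
    (hx' : x ≤ (((780900216 : ℕ) : ℝ) + (37827925 : ℕ)) / S)
    (H : CutB (VFD κ) PP tK tL pcB (Cut.of [[⟨0, 1, 0, 67108864⟩, ⟨1, 0, 0, 67108864⟩, ⟨2, 1, 0, 67108864⟩]]) 2 0 2 0 0 (sgb true) (sgb false) x) :
    AltB (VFD κ) PP tK tL pcB [⟨3, 0, 0, 1449551462⟩] 2 0 2 0 0 (sgb true) (sgb false) x :=
  strip_altBD (m := 1449551462) true rfl hκ (SH.κ0 hκ (SH.hx1 hx).le (SH.hx2 hx').le) (SH.hx1 hx).le (SH.hx2 hx') (covB02).cov (covB02).cov hx hx' c_B00pm_202_s1 H (noExt_B)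

noncomputable def cut_B00pm_202_s3 : Cut := Cut.of [[⟨3, 0, 0, 2845415833⟩], [⟨0, 1, 0, 67108864⟩, ⟨1, 0, 0, 67108864⟩, ⟨2, 1, 0, 67108864⟩]]

noncomputable def f_B00pm_202_s3 : ℕ → ℕ → ℕ → ℕ → Bool := onCell 0 536870912 0 536870912 780900216 37827925
    (rowF 0 false true false .pp 2 0 2 (qsf 0 536870912 0 536870912 0) ndB0q2 ndB0q2 pcB0 cut_B00pm_202_s3 Ext.none)

def k0_B00pm_202_s3 : ∃ t, chk3 f_B00pm_202_s3 t 1 1 1 = true :=
  ⟨(l 6), by decide +kernel⟩

theorem c_B00pm_202_s3 : CertF 0 536870912 0 536870912 780900216 37827925 false true false .pp 2 0 2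
    ndB0q2 ndB0q2 pcB0 cut_B00pm_202_s3 Ext.none :=
  certF0 (fam := false) (s1 := true) (s2 := false) (a := 2) (b := 0) (c := 2) (cn := .pp) (n1 := ndB0q2) (n2 := ndB0q2) (pc := pcB0) (cut := cut_B00pm_202_s3) (xt := Ext.none) (P1 := 0) (W1 := 536870912) (P2 := 0) (W2 := 536870912) (P3 := 780900216) (W3 := 37827925)
    rfl k0_B00pm_202_s3

theorem s_B00pm_202_s3 {κ x : ℝ} (hκ : κ * h0 = ken x) (hx : ((780900216 : ℕ) : ℝ) / S ≤ x)
    (hx' : x ≤ (((780900216 : ℕ) : ℝ) + (37827925 : ℕ)) / S)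
    (H : CutB (VFD κ) PP tK tL pcB (Cut.of [[⟨0, 1, 0, 67108864⟩, ⟨1, 0, 0, 67108864⟩, ⟨2, 1, 0, 67108864⟩]]) 2 0 2 0 0 (sgb true) (sgb false) x) :
    AltB (VFD κ) PP tK tL pcB [⟨4, 0, 0, 2845415833⟩] 2 0 2 0 0 (sgb true) (sgb false) x :=
  strip_altBD (m := 2845415833) false rfl hκ (SH.κ0 hκ (SH.hx1 hx).le (SH.hx2 hx').le) (SH.hx1 hx).le (SH.hx2 hx') (covB02).cov (covB02).cov hx hx' c_B00pm_202_s3 H (noExt_B)

noncomputable def cut_B00mm_001_s1 : Cut := Cut.of [[⟨4, 0, 0, 1449551462⟩]]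

noncomputable def f_B00mm_001_s1 : ℕ → ℕ → ℕ → ℕ → Bool := onCell 0 536870912 0 536870912 780900216 37827925
    (rowF 1 false false false .up 0 0 1 (qsf 0 536870912 536870912 536870912 0) ndB0q0 ndB0q1 pcB0 cut_B00mm_001_s1 Ext.none)

def k0_B00mm_001_s1 : ∃ t, chk3 f_B00mm_001_s1 t 1 1 1 = true :=
  ⟨(l 3), by decide +kernel⟩

theorem c_B00mm_001_s1 : CertF 0 536870912 536870912 536870912 780900216 37827925 false false false .up 0 0 1
    ndB0q0 ndB0q1 pcB0 cut_B00mm_001_s1 Ext.none :=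
  certF1 (fam := false) (s1 := false) (s2 := false) (a := 0) (b := 0) (c := 1) (cn := .up) (n1 := ndB0q0) (n2 := ndB0q1) (pc := pcB0) (cut := cut_B00mm_001_s1) (xt := Ext.none) (P1 := 0) (W1 := 536870912) (P2 := 536870912) (W2 := 536870912) (P3 := 780900216) (W3 := 37827925)
    rfl (fun _ => rfl) k0_B00mm_001_s1

theorem s_B00mm_001_s1 {κ x : ℝ} (hκ : κ * h0 = ken x) (hx : ((780900216 : ℕ) : ℝ) / S ≤ x)
    (hx' : x ≤ (((780900216 : ℕ) : ℝ) + (37827925 : ℕ)) / S) :
    AltB (VFD κ) PP tK tL pcB [⟨3, 0, 0, 1449551462⟩] 0 0 1 0 0 (sgb false) (sgb false) x :=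
  strip_altBD (m := 1449551462) true rfl hκ (SH.κ0 hκ (SH.hx1 hx).le (SH.hx2 hx').le) (SH.hx1 hx).le (SH.hx2 hx') (covB00).cov (covB01).cov hx hx' c_B00mm_001_s1 cutB_nil (noExt_B)

noncomputable def cut_B00mm_001_s3 : Cut := Cut.of [[⟨3, 0, 0, 2845415833⟩]]

noncomputable def f_B00mm_001_s3 : ℕ → ℕ → ℕ → ℕ → Bool := onCell 0 536870912 536870912 536870912 780900216 37827925
    (rowF 0 false false false .up 0 0 1 (qsf 0 536870912 536870912 536870912 0) ndB0q0 ndB0q1 pcB0 cut_B00mm_001_s3 Ext.none)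

def k0_B00mm_001_s3 : ∃ t, chk3 f_B00mm_001_s3 t 1 1 1 = true :=
  ⟨(l 6), by decide +kernel⟩

theorem c_B00mm_001_s3 : CertF 0 536870912 536870912 536870912 780900216 37827925 false false false .up 0 0 1
    ndB0q0 ndB0q1 pcB0 cut_B00mm_001_s3 Ext.none :=
  certF0 (fam := false) (s1 := false) (s2 := false) (a := 0) (b := 0) (c := 1) (cn := .up) (n1 := ndB0q0) (n2 := ndB0q1) (pc := pcB0) (cut := cut_B00mm_001_s3) (xt := Ext.none) (P1 := 0) (W1 := 536870912) (P2 := 536870912) (W2 := 536870912) (P3 := 780900216) (W3 := 37827925)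
    rfl k0_B00mm_001_s3

theorem s_B00mm_001_s3 {κ x : ℝ} (hκ : κ * h0 = ken x) (hx : ((780900216 : ℕ) : ℝ) / S ≤ x)
    (hx' : x ≤ (((780900216 : ℕ) : ℝ) + (37827925 : ℕ)) / S) :
    AltB (VFD κ) PP tK tL pcB [⟨4, 0, 0, 2845415833⟩] 0 0 1 0 0 (sgb false) (sgb false) x :=
  strip_altBD (m := 2845415833) false rfl hκ (SH.κ0 hκ (SH.hx1 hx).le (SH.hx2 hx').le) (SH.hx1 hx).le (SH.hx2 hx') (covB00).cov (covB01).cov hx hx' c_B00mm_001_s3 cutB_nil (noExt_B)

noncomputable def cut_B00mm_011_s1 : Cut := Cut.of [[⟨4, 0, 0, 1449551462⟩]]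

noncomputable def f_B00mm_011_s1 : ℕ → ℕ → ℕ → ℕ → Bool := onCell 0 536870912 536870912 536870912 780900216 37827925
    (rowF 1 false false false .pnn 0 1 1 (qsf 0 536870912 536870912 536870912 1) ndB0q0 ndB0q1 pcB1 cut_B00mm_011_s1 Ext.none)

def k0_B00mm_011_s1 : ∃ t, chk3 f_B00mm_011_s1 t 1 1 1 = true :=
  ⟨(l 5), by decide +kernel⟩

theorem c_B00mm_011_s1 : CertF 0 536870912 536870912 536870912 780900216 37827925 false false false .pnn 0 1 1
    ndB0q0 ndB0q1 pcB1 cut_B00mm_011_s1 Ext.none :=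
  certF1 (fam := false) (s1 := false) (s2 := false) (a := 0) (b := 1) (c := 1) (cn := .pnn) (n1 := ndB0q0) (n2 := ndB0q1) (pc := pcB1) (cut := cut_B00mm_011_s1) (xt := Ext.none) (P1 := 0) (W1 := 536870912) (P2 := 536870912) (W2 := 536870912) (P3 := 780900216) (W3 := 37827925)
    rfl (fun _ => rfl) k0_B00mm_011_s1

theorem s_B00mm_011_s1 {κ x : ℝ} (hκ : κ * h0 = ken x) (hx : ((780900216 : ℕ) : ℝ) / S ≤ x)
    (hx' : x ≤ (((780900216 : ℕ) : ℝ) + (37827925 : ℕ)) / S) :
    AltB (VFD κ) PP tK tL pcB [⟨3, 0, 0, 1449551462⟩] 0 1 1 0 0 (sgb false) (sgb false) x :=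
  strip_altBD (m := 1449551462) true rfl hκ (SH.κ0 hκ (SH.hx1 hx).le (SH.hx2 hx').le) (SH.hx1 hx).le (SH.hx2 hx') (covB00).cov (covB01).cov hx hx' c_B00mm_011_s1 cutB_nil (noExt_B)

noncomputable def cut_B00mm_011_s3 : Cut := Cut.of [[⟨3, 0, 0, 2845415833⟩]]

noncomputable def f_B00mm_011_s3 : ℕ → ℕ → ℕ → ℕ → Bool := onCell 0 536870912 536870912 536870912 780900216 37827925
    (rowF 0 false false false .pnn 0 1 1 (qsf 0 536870912 536870912 536870912 1) ndB0q0 ndB0q1 pcB1 cut_B00mm_011_s3 Ext.none)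

def k0_B00mm_011_s3 : ∃ t, chk3 f_B00mm_011_s3 t 1 1 1 = true :=
  ⟨(l 6), by decide +kernel⟩

theorem c_B00mm_011_s3 : CertF 0 536870912 536870912 536870912 780900216 37827925 false false false .pnn 0 1 1
    ndB0q0 ndB0q1 pcB1 cut_B00mm_011_s3 Ext.none :=
  certF0 (fam := false) (s1 := false) (s2 := false) (a := 0) (b := 1) (c := 1) (cn := .pnn) (n1 := ndB0q0) (n2 := ndB0q1) (pc := pcB1) (cut := cut_B00mm_011_s3) (xt := Ext.none) (P1 := 0) (W1 := 536870912) (P2 := 536870912) (W2 := 536870912) (P3 := 780900216) (W3 := 37827925)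
    rfl k0_B00mm_011_s3

theorem s_B00mm_011_s3 {κ x : ℝ} (hκ : κ * h0 = ken x) (hx : ((780900216 : ℕ) : ℝ) / S ≤ x)
    (hx' : x ≤ (((780900216 : ℕ) : ℝ) + (37827925 : ℕ)) / S) :
    AltB (VFD κ) PP tK tL pcB [⟨4, 0, 0, 2845415833⟩] 0 1 1 0 0 (sgb false) (sgb false) x :=
  strip_altBD (m := 2845415833) false rfl hκ (SH.κ0 hκ (SH.hx1 hx).le (SH.hx2 hx').le) (SH.hx1 hx).le (SH.hx2 hx') (covB00).cov (covB01).cov hx hx' c_B00mm_011_s3 cutB_nil (noExt_B)

noncomputable def cut_B00mm_012_s1 : Cut := Cut.of [[⟨4, 0, 0, 1449551462⟩]]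

noncomputable def f_B00mm_012_s1 : ℕ → ℕ → ℕ → ℕ → Bool := onCell 0 536870912 0 536870912 780900216 37827925
    (rowF 0 false false false .pnp 0 1 2 (qsf 0 536870912 0 536870912 1) ndB0q0 ndB0q2 pcB1 cut_B00mm_012_s1 Ext.none)

def k0_B00mm_012_s1 : ∃ t, chk3 f_B00mm_012_s1 t 1 1 1 = true :=
  ⟨(l 5), by decide +kernel⟩

theorem c_B00mm_012_s1 : CertF 0 536870912 0 536870912 780900216 37827925 false false false .pnp 0 1 2
    ndB0q0 ndB0q2 pcB1 cut_B00mm_012_s1 Ext.none :=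
  certF0 (fam := false) (s1 := false) (s2 := false) (a := 0) (b := 1) (c := 2) (cn := .pnp) (n1 := ndB0q0) (n2 := ndB0q2) (pc := pcB1) (cut := cut_B00mm_012_s1) (xt := Ext.none) (P1 := 0) (W1 := 536870912) (P2 := 0) (W2 := 536870912) (P3 := 780900216) (W3 := 37827925)
    rfl k0_B00mm_012_s1

theorem s_B00mm_012_s1 {κ x : ℝ} (hκ : κ * h0 = ken x) (hx : ((780900216 : ℕ) : ℝ) / S ≤ x)
    (hx' : x ≤ (((780900216 : ℕ) : ℝ) + (37827925 : ℕ)) / S) :
    AltB (VFD κ) PP tK tL pcB [⟨3, 0, 0, 1449551462⟩] 0 1 2 0 0 (sgb false) (sgb false) x :=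
  strip_altBD (m := 1449551462) true rfl hκ (SH.κ0 hκ (SH.hx1 hx).le (SH.hx2 hx').le) (SH.hx1 hx).le (SH.hx2 hx') (covB00).cov (covB02).cov hx hx' c_B00mm_012_s1 cutB_nil (noExt_B)

noncomputable def cut_B00mm_012_s3 : Cut := Cut.of [[⟨3, 0, 0, 2845415833⟩]]

noncomputable def f_B00mm_012_s3 : ℕ → ℕ → ℕ → ℕ → Bool := onCell 0 536870912 0 536870912 780900216 37827925
    (rowF 0 false false false .pnp 0 1 2 (qsf 0 536870912 0 536870912 1) ndB0q0 ndB0q2 pcB1 cut_B00mm_012_s3 Ext.none)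

def k0_B00mm_012_s3 : ∃ t, chk3 f_B00mm_012_s3 t 1 1 1 = true :=
  ⟨(l 5), by decide +kernel⟩

theorem c_B00mm_012_s3 : CertF 0 536870912 0 536870912 780900216 37827925 false false false .pnp 0 1 2
    ndB0q0 ndB0q2 pcB1 cut_B00mm_012_s3 Ext.none :=
  certF0 (fam := false) (s1 := false) (s2 := false) (a := 0) (b := 1) (c := 2) (cn := .pnp) (n1 := ndB0q0) (n2 := ndB0q2) (pc := pcB1) (cut := cut_B00mm_012_s3) (xt := Ext.none) (P1 := 0) (W1 := 536870912) (P2 := 0) (W2 := 536870912) (P3 := 780900216) (W3 := 37827925)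
    rfl k0_B00mm_012_s3

theorem s_B00mm_012_s3 {κ x : ℝ} (hκ : κ * h0 = ken x) (hx : ((780900216 : ℕ) : ℝ) / S ≤ x)
    (hx' : x ≤ (((780900216 : ℕ) : ℝ) + (37827925 : ℕ)) / S) :
    AltB (VFD κ) PP tK tL pcB [⟨4, 0, 0, 2845415833⟩] 0 1 2 0 0 (sgb false) (sgb false) x :=
  strip_altBD (m := 2845415833) false rfl hκ (SH.κ0 hκ (SH.hx1 hx).le (SH.hx2 hx').le) (SH.hx1 hx).le (SH.hx2 hx') (covB00).cov (covB02).cov hx hx' c_B00mm_012_s3 cutB_nil (noExt_B)

noncomputable def cut_B00mm_022_s1 : Cut := Cut.of [[⟨4, 0, 0, 1449551462⟩]]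

noncomputable def f_B00mm_022_s1 : ℕ → ℕ → ℕ → ℕ → Bool := onCell 0 536870912 0 536870912 780900216 37827925
    (rowF 0 false false false .pp 0 2 2 (qsf 0 536870912 0 536870912 2) ndB0q0 ndB0q2 pcB2 cut_B00mm_022_s1 Ext.none)

def k0_B00mm_022_s1 : ∃ t, chk3 f_B00mm_022_s1 t 1 1 1 = true :=
  ⟨(l 5), by decide +kernel⟩

theorem c_B00mm_022_s1 : CertF 0 536870912 0 536870912 780900216 37827925 false false false .pp 0 2 2
    ndB0q0 ndB0q2 pcB2 cut_B00mm_022_s1 Ext.none :=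
  certF0 (fam := false) (s1 := false) (s2 := false) (a := 0) (b := 2) (c := 2) (cn := .pp) (n1 := ndB0q0) (n2 := ndB0q2) (pc := pcB2) (cut := cut_B00mm_022_s1) (xt := Ext.none) (P1 := 0) (W1 := 536870912) (P2 := 0) (W2 := 536870912) (P3 := 780900216) (W3 := 37827925)
    rfl k0_B00mm_022_s1

theorem s_B00mm_022_s1 {κ x : ℝ} (hκ : κ * h0 = ken x) (hx : ((780900216 : ℕ) : ℝ) / S ≤ x)
    (hx' : x ≤ (((780900216 : ℕ) : ℝ) + (37827925 : ℕ)) / S) :
    AltB (VFD κ) PP tK tL pcB [⟨3, 0, 0, 1449551462⟩] 0 2 2 0 0 (sgb false) (sgb false) x :=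
  strip_altBD (m := 1449551462) true rfl hκ (SH.κ0 hκ (SH.hx1 hx).le (SH.hx2 hx').le) (SH.hx1 hx).le (SH.hx2 hx') (covB00).cov (covB02).cov hx hx' c_B00mm_022_s1 cutB_nil (noExt_B)

noncomputable def cut_B00mm_022_s3 : Cut := Cut.of [[⟨3, 0, 0, 2845415833⟩]]

noncomputable def f_B00mm_022_s3 : ℕ → ℕ → ℕ → ℕ → Bool := onCell 0 536870912 0 536870912 780900216 37827925
    (rowF 0 false false false .pp 0 2 2 (qsf 0 536870912 0 536870912 2) ndB0q0 ndB0q2 pcB2 cut_B00mm_022_s3 Ext.none)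

def k0_B00mm_022_s3 : ∃ t, chk3 f_B00mm_022_s3 t 1 1 1 = true :=
  ⟨(l 5), by decide +kernel⟩

theorem c_B00mm_022_s3 : CertF 0 536870912 0 536870912 780900216 37827925 false false false .pp 0 2 2
    ndB0q0 ndB0q2 pcB2 cut_B00mm_022_s3 Ext.none :=
  certF0 (fam := false) (s1 := false) (s2 := false) (a := 0) (b := 2) (c := 2) (cn := .pp) (n1 := ndB0q0) (n2 := ndB0q2) (pc := pcB2) (cut := cut_B00mm_022_s3) (xt := Ext.none) (P1 := 0) (W1 := 536870912) (P2 := 0) (W2 := 536870912) (P3 := 780900216) (W3 := 37827925)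
    rfl k0_B00mm_022_s3

theorem s_B00mm_022_s3 {κ x : ℝ} (hκ : κ * h0 = ken x) (hx : ((780900216 : ℕ) : ℝ) / S ≤ x)
    (hx' : x ≤ (((780900216 : ℕ) : ℝ) + (37827925 : ℕ)) / S) :
    AltB (VFD κ) PP tK tL pcB [⟨4, 0, 0, 2845415833⟩] 0 2 2 0 0 (sgb false) (sgb false) x :=
  strip_altBD (m := 2845415833) false rfl hκ (SH.κ0 hκ (SH.hx1 hx).le (SH.hx2 hx').le) (SH.hx1 hx).le (SH.hx2 hx') (covB00).cov (covB02).cov hx hx' c_B00mm_022_s3 cutB_nil (noExt_B)

noncomputable def cut_B00mm_101_s1 : Cut := Cut.of [[⟨4, 0, 0, 1449551462⟩]]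

noncomputable def f_B00mm_101_s1 : ℕ → ℕ → ℕ → ℕ → Bool := onCell 536870912 536870912 536870912 536870912 780900216 37827925
    (rowF 0 false false false .npn 1 0 1 (qsf 536870912 536870912 536870912 536870912 0) ndB0q1 ndB0q1 pcB0 cut_B00mm_101_s1 Ext.none)

def k0_B00mm_101_s1 : ∃ t, chk3 f_B00mm_101_s1 t 1 1 1 = true :=
  ⟨(l 3), by decide +kernel⟩

theorem c_B00mm_101_s1 : CertF 536870912 536870912 536870912 536870912 780900216 37827925 false false false .npn 1 0 1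
    ndB0q1 ndB0q1 pcB0 cut_B00mm_101_s1 Ext.none :=
  certF0 (fam := false) (s1 := false) (s2 := false) (a := 1) (b := 0) (c := 1) (cn := .npn) (n1 := ndB0q1) (n2 := ndB0q1) (pc := pcB0) (cut := cut_B00mm_101_s1) (xt := Ext.none) (P1 := 536870912) (W1 := 536870912) (P2 := 536870912) (W2 := 536870912) (P3 := 780900216) (W3 := 37827925)
    rfl k0_B00mm_101_s1

theorem s_B00mm_101_s1 {κ x : ℝ} (hκ : κ * h0 = ken x) (hx : ((780900216 : ℕ) : ℝ) / S ≤ x)
    (hx' : x ≤ (((780900216 : ℕ) : ℝ) + (37827925 : ℕ)) / S) :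
    AltB (VFD κ) PP tK tL pcB [⟨3, 0, 0, 1449551462⟩] 1 0 1 0 0 (sgb false) (sgb false) x :=
  strip_altBD (m := 1449551462) true rfl hκ (SH.κ0 hκ (SH.hx1 hx).le (SH.hx2 hx').le) (SH.hx1 hx).le (SH.hx2 hx') (covB01).cov (covB01).cov hx hx' c_B00mm_101_s1 cutB_nil (noExt_B)

noncomputable def cut_B00mm_101_s3 : Cut := Cut.of [[⟨3, 0, 0, 2845415833⟩]]

noncomputable def f_B00mm_101_s3 : ℕ → ℕ → ℕ → ℕ → Bool := onCell 536870912 536870912 536870912 536870912 780900216 37827925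
    (rowF 0 false false false .npn 1 0 1 (qsf 536870912 536870912 536870912 536870912 0) ndB0q1 ndB0q1 pcB0 cut_B00mm_101_s3 Ext.none)

def k0_B00mm_101_s3 : ∃ t, chk3 f_B00mm_101_s3 t 1 1 1 = true :=
  ⟨(l 3), by decide +kernel⟩

theorem c_B00mm_101_s3 : CertF 536870912 536870912 536870912 536870912 780900216 37827925 false false false .npn 1 0 1
    ndB0q1 ndB0q1 pcB0 cut_B00mm_101_s3 Ext.none :=
  certF0 (fam := false) (s1 := false) (s2 := false) (a := 1) (b := 0) (c := 1) (cn := .npn) (n1 := ndB0q1) (n2 := ndB0q1) (pc := pcB0) (cut := cut_B00mm_101_s3) (xt := Ext.none) (P1 := 536870912) (W1 := 536870912) (P2 := 536870912) (W2 := 536870912) (P3 := 780900216) (W3 := 37827925)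
    rfl k0_B00mm_101_s3

theorem s_B00mm_101_s3 {κ x : ℝ} (hκ : κ * h0 = ken x) (hx : ((780900216 : ℕ) : ℝ) / S ≤ x)
    (hx' : x ≤ (((780900216 : ℕ) : ℝ) + (37827925 : ℕ)) / S) :
    AltB (VFD κ) PP tK tL pcB [⟨4, 0, 0, 2845415833⟩] 1 0 1 0 0 (sgb false) (sgb false) x :=
  strip_altBD (m := 2845415833) false rfl hκ (SH.κ0 hκ (SH.hx1 hx).le (SH.hx2 hx').le) (SH.hx1 hx).le (SH.hx2 hx') (covB01).cov (covB01).cov hx hx' c_B00mm_101_s3 cutB_nil (noExt_B)

noncomputable def cut_B00mm_102_s1 : Cut := Cut.of [[⟨4, 0, 0, 1449551462⟩]]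

noncomputable def f_B00mm_102_s1 : ℕ → ℕ → ℕ → ℕ → Bool := onCell 536870912 536870912 0 536870912 780900216 37827925
    (rowF 0 false false false .npp 1 0 2 (qsf 536870912 536870912 0 536870912 0) ndB0q1 ndB0q2 pcB0 cut_B00mm_102_s1 Ext.none)

def k0_B00mm_102_s1 : ∃ t, chk3 f_B00mm_102_s1 t 1 1 1 = true :=
  ⟨(a (l 5) (l 3)), by decide +kernel⟩

theorem c_B00mm_102_s1 : CertF 536870912 536870912 0 536870912 780900216 37827925 false false false .npp 1 0 2
    ndB0q1 ndB0q2 pcB0 cut_B00mm_102_s1 Ext.none :=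
  certF0 (fam := false) (s1 := false) (s2 := false) (a := 1) (b := 0) (c := 2) (cn := .npp) (n1 := ndB0q1) (n2 := ndB0q2) (pc := pcB0) (cut := cut_B00mm_102_s1) (xt := Ext.none) (P1 := 536870912) (W1 := 536870912) (P2 := 0) (W2 := 536870912) (P3 := 780900216) (W3 := 37827925)
    rfl k0_B00mm_102_s1

theorem s_B00mm_102_s1 {κ x : ℝ} (hκ : κ * h0 = ken x) (hx : ((780900216 : ℕ) : ℝ) / S ≤ x)
    (hx' : x ≤ (((780900216 : ℕ) : ℝ) + (37827925 : ℕ)) / S) :
    AltB (VFD κ) PP tK tL pcB [⟨3, 0, 0, 1449551462⟩] 1 0 2 0 0 (sgb false) (sgb false) x :=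
  strip_altBD (m := 1449551462) true rfl hκ (SH.κ0 hκ (SH.hx1 hx).le (SH.hx2 hx').le) (SH.hx1 hx).le (SH.hx2 hx') (covB01).cov (covB02).cov hx hx' c_B00mm_102_s1 cutB_nil (noExt_B)

noncomputable def cut_B00mm_102_s3 : Cut := Cut.of [[⟨3, 0, 0, 2845415833⟩]]

noncomputable def f_B00mm_102_s3 : ℕ → ℕ → ℕ → ℕ → Bool := onCell 536870912 536870912 0 536870912 780900216 37827925
    (rowF 0 false false false .npp 1 0 2 (qsf 536870912 536870912 0 536870912 0) ndB0q1 ndB0q2 pcB0 cut_B00mm_102_s3 Ext.none)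

def k0_B00mm_102_s3 : ∃ t, chk3 f_B00mm_102_s3 t 1 1 1 = true :=
  ⟨(l 6), by decide +kernel⟩

theorem c_B00mm_102_s3 : CertF 536870912 536870912 0 536870912 780900216 37827925 false false false .npp 1 0 2
    ndB0q1 ndB0q2 pcB0 cut_B00mm_102_s3 Ext.none :=
  certF0 (fam := false) (s1 := false) (s2 := false) (a := 1) (b := 0) (c := 2) (cn := .npp) (n1 := ndB0q1) (n2 := ndB0q2) (pc := pcB0) (cut := cut_B00mm_102_s3) (xt := Ext.none) (P1 := 536870912) (W1 := 536870912) (P2 := 0) (W2 := 536870912) (P3 := 780900216) (W3 := 37827925)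
    rfl k0_B00mm_102_s3

theorem s_B00mm_102_s3 {κ x : ℝ} (hκ : κ * h0 = ken x) (hx : ((780900216 : ℕ) : ℝ) / S ≤ x)
    (hx' : x ≤ (((780900216 : ℕ) : ℝ) + (37827925 : ℕ)) / S) :
    AltB (VFD κ) PP tK tL pcB [⟨4, 0, 0, 2845415833⟩] 1 0 2 0 0 (sgb false) (sgb false) x :=
  strip_altBD (m := 2845415833) false rfl hκ (SH.κ0 hκ (SH.hx1 hx).le (SH.hx2 hx').le) (SH.hx1 hx).le (SH.hx2 hx') (covB01).cov (covB02).cov hx hx' c_B00mm_102_s3 cutB_nil (noExt_B)

noncomputable def cut_B00mm_112_s1 : Cut := Cut.of [[⟨4, 0, 0, 1449551462⟩]]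

noncomputable def f_B00mm_112_s1 : ℕ → ℕ → ℕ → ℕ → Bool := onCell 536870912 536870912 0 536870912 780900216 37827925
    (rowF 2 false false false .dn 1 1 2 (qsf 536870912 536870912 0 536870912 1) ndB0q1 ndB0q2 pcB1 cut_B00mm_112_s1 Ext.none)

def k0_B00mm_112_s1 : ∃ t, chk3 f_B00mm_112_s1 t 1 1 1 = true :=
  ⟨(l 5), by decide +kernel⟩

theorem c_B00mm_112_s1 : CertF 536870912 536870912 0 536870912 780900216 37827925 false false false .dn 1 1 2
    ndB0q1 ndB0q2 pcB1 cut_B00mm_112_s1 Ext.none :=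
  certF2 (fam := false) (s1 := false) (s2 := false) (a := 1) (b := 1) (c := 2) (cn := .dn) (n1 := ndB0q1) (n2 := ndB0q2) (pc := pcB1) (cut := cut_B00mm_112_s1) (xt := Ext.none) (P1 := 536870912) (W1 := 536870912) (P2 := 0) (W2 := 536870912) (P3 := 780900216) (W3 := 37827925)
    rfl (fun _ => rfl) k0_B00mm_112_s1

theorem s_B00mm_112_s1 {κ x : ℝ} (hκ : κ * h0 = ken x) (hx : ((780900216 : ℕ) : ℝ) / S ≤ x)
    (hx' : x ≤ (((780900216 : ℕ) : ℝ) + (37827925 : ℕ)) / S) :
    AltB (VFD κ) PP tK tL pcB [⟨3, 0, 0, 1449551462⟩] 1 1 2 0 0 (sgb false) (sgb false) x :=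
  strip_altBD (m := 1449551462) true rfl hκ (SH.κ0 hκ (SH.hx1 hx).le (SH.hx2 hx').le) (SH.hx1 hx).le (SH.hx2 hx') (covB01).cov (covB02).cov hx hx' c_B00mm_112_s1 cutB_nil (noExt_B)

noncomputable def cut_B00mm_112_s3 : Cut := Cut.of [[⟨3, 0, 0, 2845415833⟩]]

noncomputable def f_B00mm_112_s3 : ℕ → ℕ → ℕ → ℕ → Bool := onCell 536870912 536870912 0 536870912 780900216 37827925
    (rowF 0 false false false .dn 1 1 2 (qsf 536870912 536870912 0 536870912 1) ndB0q1 ndB0q2 pcB1 cut_B00mm_112_s3 Ext.none)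

def k0_B00mm_112_s3 : ∃ t, chk3 f_B00mm_112_s3 t 1 1 1 = true :=
  ⟨(l 6), by decide +kernel⟩

theorem c_B00mm_112_s3 : CertF 536870912 536870912 0 536870912 780900216 37827925 false false false .dn 1 1 2
    ndB0q1 ndB0q2 pcB1 cut_B00mm_112_s3 Ext.none :=
  certF0 (fam := false) (s1 := false) (s2 := false) (a := 1) (b := 1) (c := 2) (cn := .dn) (n1 := ndB0q1) (n2 := ndB0q2) (pc := pcB1) (cut := cut_B00mm_112_s3) (xt := Ext.none) (P1 := 536870912) (W1 := 536870912) (P2 := 0) (W2 := 536870912) (P3 := 780900216) (W3 := 37827925)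
    rfl k0_B00mm_112_s3

theorem s_B00mm_112_s3 {κ x : ℝ} (hκ : κ * h0 = ken x) (hx : ((780900216 : ℕ) : ℝ) / S ≤ x)
    (hx' : x ≤ (((780900216 : ℕ) : ℝ) + (37827925 : ℕ)) / S) :
    AltB (VFD κ) PP tK tL pcB [⟨4, 0, 0, 2845415833⟩] 1 1 2 0 0 (sgb false) (sgb false) x :=
  strip_altBD (m := 2845415833) false rfl hκ (SH.κ0 hκ (SH.hx1 hx).le (SH.hx2 hx').le) (SH.hx1 hx).le (SH.hx2 hx') (covB01).cov (covB02).cov hx hx' c_B00mm_112_s3 cutB_nil (noExt_B)

noncomputable def cut_B00mm_202_s1 : Cut := Cut.of [[⟨4, 0, 0, 1449551462⟩]]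

noncomputable def f_B00mm_202_s1 : ℕ → ℕ → ℕ → ℕ → Bool := onCell 0 536870912 0 536870912 780900216 37827925
    (rowF 0 false false false .pp 2 0 2 (qsf 0 536870912 0 536870912 0) ndB0q2 ndB0q2 pcB0 cut_B00mm_202_s1 Ext.none)

def k0_B00mm_202_s1 : ∃ t, chk3 f_B00mm_202_s1 t 1 1 1 = true :=
  ⟨(l 3), by decide +kernel⟩

theorem c_B00mm_202_s1 : CertF 0 536870912 0 536870912 780900216 37827925 false false false .pp 2 0 2
    ndB0q2 ndB0q2 pcB0 cut_B00mm_202_s1 Ext.none :=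
  certF0 (fam := false) (s1 := false) (s2 := false) (a := 2) (b := 0) (c := 2) (cn := .pp) (n1 := ndB0q2) (n2 := ndB0q2) (pc := pcB0) (cut := cut_B00mm_202_s1) (xt := Ext.none) (P1 := 0) (W1 := 536870912) (P2 := 0) (W2 := 536870912) (P3 := 780900216) (W3 := 37827925)
    rfl k0_B00mm_202_s1

theorem s_B00mm_202_s1 {κ x : ℝ} (hκ : κ * h0 = ken x) (hx : ((780900216 : ℕ) : ℝ) / S ≤ x)
    (hx' : x ≤ (((780900216 : ℕ) : ℝ) + (37827925 : ℕ)) / S) :
    AltB (VFD κ) PP tK tL pcB [⟨3, 0, 0, 1449551462⟩] 2 0 2 0 0 (sgb false) (sgb false) x :=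
  strip_altBD (m := 1449551462) true rfl hκ (SH.κ0 hκ (SH.hx1 hx).le (SH.hx2 hx').le) (SH.hx1 hx).le (SH.hx2 hx') (covB02).cov (covB02).cov hx hx' c_B00mm_202_s1 cutB_nil (noExt_B)

noncomputable def cut_B00mm_202_s3 : Cut := Cut.of [[⟨3, 0, 0, 2845415833⟩]]

noncomputable def f_B00mm_202_s3 : ℕ → ℕ → ℕ → ℕ → Bool := onCell 0 536870912 0 536870912 780900216 37827925
    (rowF 0 false false false .pp 2 0 2 (qsf 0 536870912 0 536870912 0) ndB0q2 ndB0q2 pcB0 cut_B00mm_202_s3 Ext.none)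

def k0_B00mm_202_s3 : ∃ t, chk3 f_B00mm_202_s3 t 1 1 1 = true :=
  ⟨(l 3), by decide +kernel⟩

theorem c_B00mm_202_s3 : CertF 0 536870912 0 536870912 780900216 37827925 false false false .pp 2 0 2
    ndB0q2 ndB0q2 pcB0 cut_B00mm_202_s3 Ext.none :=
  certF0 (fam := false) (s1 := false) (s2 := false) (a := 2) (b := 0) (c := 2) (cn := .pp) (n1 := ndB0q2) (n2 := ndB0q2) (pc := pcB0) (cut := cut_B00mm_202_s3) (xt := Ext.none) (P1 := 0) (W1 := 536870912) (P2 := 0) (W2 := 536870912) (P3 := 780900216) (W3 := 37827925)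
    rfl k0_B00mm_202_s3

theorem s_B00mm_202_s3 {κ x : ℝ} (hκ : κ * h0 = ken x) (hx : ((780900216 : ℕ) : ℝ) / S ≤ x)
    (hx' : x ≤ (((780900216 : ℕ) : ℝ) + (37827925 : ℕ)) / S) :
    AltB (VFD κ) PP tK tL pcB [⟨4, 0, 0, 2845415833⟩] 2 0 2 0 0 (sgb false) (sgb false) x :=
  strip_altBD (m := 2845415833) false rfl hκ (SH.κ0 hκ (SH.hx1 hx).le (SH.hx2 hx').le) (SH.hx1 hx).le (SH.hx2 hx') (covB02).cov (covB02).cov hx hx' c_B00mm_202_s3 cutB_nil (noExt_B)

noncomputable def cut_B05pp_001_s1 : Cut := Cut.of [[⟨4, 0, 0, 1449551462⟩]]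

noncomputable def f_B05pp_001_s1 : ℕ → ℕ → ℕ → ℕ → Bool := onCell 0 536870912 0 536870912 780900216 37827925
    (rowF 1 false true true .up 0 0 1 (qsf 0 536870912 536870912 536870912 0) ndB0q0 ndB5q1 pcB0 cut_B05pp_001_s1 Ext.none)

def k0_B05pp_001_s1 : ∃ t, chk3 f_B05pp_001_s1 t 1 1 1 = true :=
  ⟨(l 3), by decide +kernel⟩

theorem c_B05pp_001_s1 : CertF 0 536870912 536870912 536870912 780900216 37827925 false true true .up 0 0 1
    ndB0q0 ndB5q1 pcB0 cut_B05pp_001_s1 Ext.none :=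
  certF1 (fam := false) (s1 := true) (s2 := true) (a := 0) (b := 0) (c := 1) (cn := .up) (n1 := ndB0q0) (n2 := ndB5q1) (pc := pcB0) (cut := cut_B05pp_001_s1) (xt := Ext.none) (P1 := 0) (W1 := 536870912) (P2 := 536870912) (W2 := 536870912) (P3 := 780900216) (W3 := 37827925)
    rfl (fun _ => rfl) k0_B05pp_001_s1

theorem s_B05pp_001_s1 {κ x : ℝ} (hκ : κ * h0 = ken x) (hx : ((780900216 : ℕ) : ℝ) / S ≤ x)
    (hx' : x ≤ (((780900216 : ℕ) : ℝ) + (37827925 : ℕ)) / S) :
    AltB (VFD κ) PP tK tL pcB [⟨3, 0, 0, 1449551462⟩] 0 0 1 0 5 (sgb true) (sgb true) x :=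
  strip_altBD (m := 1449551462) true rfl hκ (SH.κ0 hκ (SH.hx1 hx).le (SH.hx2 hx').le) (SH.hx1 hx).le (SH.hx2 hx') (covB00).cov (covB51).cov hx hx' c_B05pp_001_s1 cutB_nil (noExt_B)

noncomputable def cut_B05pp_011_s1 : Cut := Cut.of [[⟨4, 0, 0, 1449551462⟩], [⟨0, 0, 0, 67108864⟩, ⟨1, 1, 0, 67108864⟩, ⟨2, 1, 0, 67108864⟩]]

noncomputable def f_B05pp_011_s1 : ℕ → ℕ → ℕ → ℕ → Bool := onCell 0 536870912 536870912 536870912 780900216 37827925
    (rowF 1 false true true .pnn 0 1 1 (qsf 0 536870912 536870912 536870912 1) ndB0q0 ndB5q1 pcB1 cut_B05pp_011_s1 Ext.none)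

def k0_B05pp_011_s1 : ∃ t, chk3 f_B05pp_011_s1 t 1 1 1 = true :=
  ⟨(b (l 3) (a (b (l 3) (a (b (l 3) (a (b (l 3) (a (l 14) (l 3))) (l 3))) (l 3))) (l 3))), by decide +kernel⟩

theorem c_B05pp_011_s1 : CertF 0 536870912 536870912 536870912 780900216 37827925 false true true .pnn 0 1 1
    ndB0q0 ndB5q1 pcB1 cut_B05pp_011_s1 Ext.none :=
  certF1 (fam := false) (s1 := true) (s2 := true) (a := 0) (b := 1) (c := 1) (cn := .pnn) (n1 := ndB0q0) (n2 := ndB5q1) (pc := pcB1) (cut := cut_B05pp_011_s1) (xt := Ext.none) (P1 := 0) (W1 := 536870912) (P2 := 536870912) (W2 := 536870912) (P3 := 780900216) (W3 := 37827925)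
    rfl (fun _ => rfl) k0_B05pp_011_s1

theorem s_B05pp_011_s1 {κ x : ℝ} (hκ : κ * h0 = ken x) (hx : ((780900216 : ℕ) : ℝ) / S ≤ x)
    (hx' : x ≤ (((780900216 : ℕ) : ℝ) + (37827925 : ℕ)) / S)
    (H : CutB (VFD κ) PP tK tL pcB (Cut.of [[⟨0, 0, 0, 67108864⟩, ⟨1, 1, 0, 67108864⟩, ⟨2, 1, 0, 67108864⟩]]) 0 1 1 0 5 (sgb true) (sgb true) x) :
    AltB (VFD κ) PP tK tL pcB [⟨3, 0, 0, 1449551462⟩] 0 1 1 0 5 (sgb true) (sgb true) x :=
  strip_altBD (m := 1449551462) true rfl hκ (SH.κ0 hκ (SH.hx1 hx).le (SH.hx2 hx').le) (SH.hx1 hx).le (SH.hx2 hx') (covB00).cov (covB51).cov hx hx' c_B05pp_011_s1 H (noExt_B)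

noncomputable def cut_B05pp_012_s1 : Cut := Cut.of [[⟨4, 0, 0, 1449551462⟩], [⟨0, 0, 0, 67108864⟩, ⟨1, 1, 0, 67108864⟩, ⟨2, 1, 0, 67108864⟩]]

noncomputable def f_B05pp_012_s1 : ℕ → ℕ → ℕ → ℕ → Bool := onCell 0 536870912 536870912 536870912 780900216 37827925
    (rowF 1 false true true .pnp 0 1 2 (qsf 0 536870912 1073741824 536870912 1) ndB0q0 ndB5q2 pcB1 cut_B05pp_012_s1 Ext.none)

def k0_B05pp_012_s1 : ∃ t, chk3 f_B05pp_012_s1 t 1 1 1 = true :=
  ⟨(b (l 3) (a (b (l 3) (a (a (a (b (l 1) (b (l 3) (l 14))) (l 3)) (l 3)) (l 3))) (l 3))), by decide +kernel⟩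

theorem c_B05pp_012_s1 : CertF 0 536870912 1073741824 536870912 780900216 37827925 false true true .pnp 0 1 2
    ndB0q0 ndB5q2 pcB1 cut_B05pp_012_s1 Ext.none :=
  certF1 (fam := false) (s1 := true) (s2 := true) (a := 0) (b := 1) (c := 2) (cn := .pnp) (n1 := ndB0q0) (n2 := ndB5q2) (pc := pcB1) (cut := cut_B05pp_012_s1) (xt := Ext.none) (P1 := 0) (W1 := 536870912) (P2 := 1073741824) (W2 := 536870912) (P3 := 780900216) (W3 := 37827925)
    rfl (fun _ => rfl) k0_B05pp_012_s1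

theorem s_B05pp_012_s1 {κ x : ℝ} (hκ : κ * h0 = ken x) (hx : ((780900216 : ℕ) : ℝ) / S ≤ x)
    (hx' : x ≤ (((780900216 : ℕ) : ℝ) + (37827925 : ℕ)) / S)
    (H : CutB (VFD κ) PP tK tL pcB (Cut.of [[⟨0, 0, 0, 67108864⟩, ⟨1, 1, 0, 67108864⟩, ⟨2, 1, 0, 67108864⟩]]) 0 1 2 0 5 (sgb true) (sgb true) x) :
    AltB (VFD κ) PP tK tL pcB [⟨3, 0, 0, 1449551462⟩] 0 1 2 0 5 (sgb true) (sgb true) x :=
  strip_altBD (m := 1449551462) true rfl hκ (SH.κ0 hκ (SH.hx1 hx).le (SH.hx2 hx').le) (SH.hx1 hx).le (SH.hx2 hx') (covB00).cov (covB52).cov hx hx' c_B05pp_012_s1 H (noExt_B)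

noncomputable def cut_B05pp_022_s1 : Cut := Cut.of [[⟨4, 0, 0, 1449551462⟩], [⟨0, 0, 0, 67108864⟩, ⟨1, 1, 0, 67108864⟩, ⟨2, 1, 0, 67108864⟩]]

noncomputable def xt_B05pp_022_s1 : Ext := strExt dd false true true .u0 .s2 .u2 .pp 0 2 2 rfl rfl gf2 vv ndB0q0 ndB5q2

noncomputable def f_B05pp_022_s1 : ℕ → ℕ → ℕ → ℕ → Bool := onCell 0 536870912 1073741824 536870912 780900216 37827925
    (rowF 1 false true true .pp 0 2 2 (qsf 0 536870912 1073741824 536870912 2) ndB0q0 ndB5q2 pcB2 cut_B05pp_022_s1 xt_B05pp_022_s1)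

def k0_B05pp_022_s1 : ∃ t, chk3 f_B05pp_022_s1 t 8 16 1 = true :=
  ⟨(a (b (l 14) (a (l 14) (b (l 14) (a (l 14) (b (l 14) (a (l 14) (l 16743240))))))) (b (a (a (l 14) (l 3)) (l 3)) (b (a (a (a (l 14) (b (l 14) (l 523919231))) (a (b (l 523939711) (l 523911295)) (b (l 3) (l 523902335)))) (a (b (l 3) (a (l 523893375) (l 3))) (l 3))) (a (a (b (a (b (l 14) (l 16755096)) (b (a (l 16762256) (l 16764120)) (a (l 16758576) (l 16760128)))) (b (a (l 16750400) (l 16755160)) (l 16753352))) (b (a (c (c (b (l 523926911) (l 16765480)) (b (l 523907199) (l 16762824))) (c (b (l 523887487) (l 16762784)) (b (l 523867775) (l 16762744)))) (l 523870079)) (a (b (a (l 16758024) (l 16759616)) (l 16755192)) (b (b (l 16763560) (l 16761344)) (l 16760968))))) (a (a (b (l 523860863) (l 523826303)) (b (l 523851647) (l 523817343))) (b (l 523814271) (l 523779967))))))), by decide +kernel⟩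

def k1_B05pp_022_s1 : ∃ t, chk3 f_B05pp_022_s1 t 8 17 1 = true :=
  ⟨(a (a (a (b (l 14) (b (l 16657208) (l 16637880))) (b (b (l 14) (b (l 14) (l 16682504))) (b (l 16668152) (l 16648976)))) (b (b (a (b (l 14) (l 16691072)) (b (l 16731416) (l 16722048))) (a (b (l 16681592) (l 16693072)) (b (l 16712680) (l 16682352)))) (b (a (l 16636888) (a (l 16644704) (l 16649832))) (b (l 16627912) (l 16618424))))) (b (a (b (a (b (a (l 16738688) (l 16743464)) (l 16731744)) (b (a (l 16748184) (b (l 16754624) (l 16750520))) (l 16746464))) (a (l 16728272) (b (l 16731928) (l 16722648)))) (b (b (a (a (b (l 16757816) (l 16754024)) (b (l 16761680) (l 16757288))) (l 523744127)) (a (a (l 16748160) (b (l 16753408) (l 16749776))) (a (b (l 16756768) (l 16752768)) (b (l 16760784) (l 16756264))))) (b (a (l 16741192) (a (l 16747312) (l 16755568))) (a (l 16731944) (l 16741016))))) (a (b (a (l 16699200) (l 16708800)) (a (l 16638656) (l 16690352))) (a (b (l 16718128)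 (l 16699760)) (b (l 16737720) (l 16708928)))))), by decide +kernel⟩

def k2_B05pp_022_s1 : ∃ t, chk3 f_B05pp_022_s1 t 9 8 1 = true :=
  ⟨(b (a (b (l 3) (a (b (l 3) (a (b (l 3) (l 523767679)) (l 3))) (l 3))) (l 3)) (a (b (a (b (a (a (l 523696767) (l 523687807)) (l 523661439)) (a (b (a (b (l 16755776) (l 16751456)) (l 16762728)) (a (l 16745880) (l 16748928))) (b (l 523631487) (a (l 16757552) (l 16761512))))) (b (a (l 524485247) (l 3)) (a (l 523538303) (l 523555455)))) (a (b (a (b (l 16740112) (l 16731528)) (b (a (l 16744376) (l 16747464)) (l 16738560))) (b (l 16737176) (l 16717528))) (b (b (a (b (l 16755344) (l 16750744)) (l 523559039)) (a (a (l 16742968) (l 16746192)) (b (l 16754152) (l 16749640)))) (a (b (l 16737240) (l 16729792)) (b (a (l 16741784) (l 16745080)) (l 16736192)))))) (b (b (l 3) (a (l 524645503) (l 3))) (a (b (l 523571839) (b (l 523756159) (a (a (l 16740768) (l 16744104)) (l 16754920)))) (b (l 523637631) (b (l 523798399)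 (l 523990143))))))), by decide +kernel⟩

def k3_B05pp_022_s1 : ∃ t, chk3 f_B05pp_022_s1 t 5 8 1 = true :=
  ⟨(a (b (l 3) (b (l 3) (a (a (b (l 3) (b (l 523859071) (l 524032895))) (l 3)) (l 3)))) (l 3)), by decide +kernel⟩

def k4_B05pp_022_s1 : ∃ t, chk3 f_B05pp_022_s1 t 4 9 1 = true :=
  ⟨(a (b (a (b (a (b (l 16585728) (l 16614712)) (b (l 16649448) (l 16636496))) (a (l 16593872) (l 16615744))) (b (a (b (l 16670056) (l 16657112)) (b (a (l 16684328) (l 16693208)) (l 16674816))) (a (l 16634896) (b (l 16654208) (l 16635128))))) (b (b (a (l 16582488) (l 16612376)) (a (l 16566424) (l 16595696))) (a (l 16542792) (l 16570928)))) (b (a (b (a (b (a (l 16701752) (l 16709888)) (l 16687120)) (b (a (l 16717008) (l 16744168)) (l 16716072))) (a (b (l 16666368) (l 16646352)) (b (l 16680448) (l 16660616)))) (b (b (a (b (a (l 16734080) (a (l 16738752) (l 16752632))) (a (l 16724696) (l 16731064))) (b (l 523864447) (a (b (l 16740080) (l 16735272)) (l 16745168))))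 (a (c (l 16735560) (l 16723400)) (b (a (l 16728392) (l 16745768)) (a (l 16719336) (l 16726184))))) (a (b (l 16715816) (l 16675872)) (b (c (l 16731032) (l 16729336)) (l 16712248))))) (a (b (a (b (l 16627848) (l 16611376)) (b (l 16641192) (l 16623336))) (b (l 16601104) (l 16586408))) (b (a (b (l 16657048) (l 16638560)) (b (l 16673200) (l 16655096))) (b (a (l 16620648) (l 16636392)) (l 16653584)))))), by decide +kernel⟩

def k5_B05pp_022_s1 : ∃ t, chk3 f_B05pp_022_s1 t 5 9 1 = true :=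
  ⟨(b (b (a (a (b (a (b (l 523888255) (l 523445375)) (b (l 524409471) (l 523667583))) (a (a (b (l 16742872) (l 16733240)) (l 523456895)) (l 523594623))) (b (b (l 3) (l 523633023)) (l 523562111))) (l 3)) (a (a (b (a (b (a (l 16724416) (l 16731584)) (a (l 16715728) (l 16722904))) (b (l 523613055) (a (l 16729872) (l 16737024)))) (a (c (l 16727920) (l 16726352)) (a (l 16737832) (b (l 16727944) (l 16719264))))) (a (b (l 523681407) (b (b (l 16751216) (l 16746552)) (a (l 16725960) (l 16732672)))) (b (l 523695743) (l 524980095)))) (a (b (a (l 523707007) (l 523697279)) (a (l 524555135) (l 523961727))) (b (l 3) (l 523927167))))) (a (b (a (a (b (l 16688696) (l 16670848)) (b (l 16723792) (l 16705224))) (b (a (b (a (l 16717280) (l 16723928)) (l 16711608)) (b (a (l 16730432) (l 16737208)) (a (l 16721608) (l 16728160)))) (a (c (l 16718440) (l 16718816)) (b (l 16736552) (l 16706248))))) (a (b (a (l 16652032) (l 16665928)) (l 16682200)) (b (a (l 16679120)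 (l 16692352)) (l 16709224)))) (b (a (b (a (l 524188799) (l 524144511)) (a (b (a (l 16725448) (l 16731944)) (a (l 16716120) (l 16722608))) (b (l 16751920) (a (l 16728944) (l 16735112))))) (b (l 524121471) (a (l 524340095) (l 525385599)))) (a (b (a (l 16726328) (b (a (l 16719544) (l 16725656)) (l 16713160))) (c (l 16724144) (l 16724424))) (a (b (b (l 16734712) (l 16735664)) (c (l 16731752) (l 16732032))) (b (l 524412287) (b (l 16737920) (l 16717944)))))))), by decide +kernel⟩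

def k6_B05pp_022_s1 : ∃ t, chk3 f_B05pp_022_s1 t 2 5 1 = true :=
  ⟨(b (a (a (b (b (a (l 16508744) (l 16541592)) (b (a (l 16479656) (l 16513728)) (a (l 16497280) (l 16530776)))) (a (l 16408824) (l 16440640))) (b (b (a (l 16608528) (b (l 16597600) (l 16580688))) (b (a (l 16538648) (l 16559760)) (a (b (l 16521576) (l 16508216)) (b (l 16543360) (l 16531304))))) (a (l 16517832) (b (a (l 16500792) (l 16513264)) (l 16387144))))) (b (b (b (a (a (l 16664344) (l 16648688)) (a (l 16705400) (a (l 16691824) (l 16703536)))) (a (a (l 16604064) (l 16630064)) (a (l 16655064) (l 16710104)))) (a (b (a (l 16584328) (l 16653304)) (b (a (l 16568960) (l 16597416)) (a (l 16558128) (l 16608992)))) (a (b (l 16678192) (b (l 16622600) (b (l 16616544) (l 16612776)))) (b (l 16659704) (b (l 16645592) (b (l 16639240) (l 16656872))))))) (a (a (b (a (l 16526960) (l 16542080)) (a (l 16491048) (l 16506200))) (b (l 16565232) (l 16529240))) (a (b (l 16592656) (l 16556792))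 (b (l 16616432) (l 16581480)))))) (a (a (a (b (l 16340688) (l 16269640)) (b (l 16368808) (l 16298232))) (b (a (l 16393872) (l 16459696)) (a (l 16323552) (l 16347912)))) (a (b (a (l 16487440) (b (l 16409672) (l 16374600))) (a (l 16375720) (l 16407608))) (b (a (b (l 16521560) (l 16487552)) (b (l 16548368) (l 16517224))) (a (l 16440208) (l 16473296)))))), by decide +kernel⟩

def k7_B05pp_022_s1 : ∃ t, chk3 f_B05pp_022_s1 t 2 3 1 = true :=
  ⟨(b (a (b (a (a (b (l 16199928) (l 16131640)) (b (l 16228984) (l 16161608))) (b (a (l 16254992) (l 16279616)) (a (l 16188136) (l 16214128)))) (a (l 6) (b (a (l 16124048) (l 16153224)) (l 6)))) (b (a (b (a (l 16308800) (l 16344520)) (a (l 16079056) (l 16287688))) (b (a (l 16298176) (l 16419856)) (l 16351608))) (b (a (a (l 16191176) (l 16237400)) (l 16225056)) (l 6)))) (l 6)), by decide +kernel⟩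

def k8_B05pp_022_s1 : ∃ t, chk3 f_B05pp_022_s1 t 3 4 1 = true :=
  ⟨(b (l 3) (a (a (b (l 3) (b (a (b (a (l 524109183) (l 3)) (a (l 524830079) (l 524260991))) (l 3)) (a (a (b (l 524419455) (b (l 16749504) (l 16729464))) (b (l 524480383) (b (l 524624511) (l 16761880)))) (b (a (l 524657535) (c (l 524836479) (l 524914303))) (c (b (l 524890495) (a (l 524890495) (a (l 525081215) (l 525218175)))) (b (l 525000063) (b (l 525104511) (l 525172095)))))))) (b (l 3) (b (l 3) (a (b (l 3) (b (a (c (l 525289343) (l 525435007)) (l 3)) (c (a (l 525438335) (a (l 525768319) (l 525818239))) (a (l 525610111) (c (l 525941631) (l 526031231)))))) (l 3))))) (l 3))), by decide +kernel⟩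

def k9_B05pp_022_s1 : ∃ t, chk3 f_B05pp_022_s1 t 3 5 1 = true :=
  ⟨(b (a (b (b (a (b (a (a (b (l 16720000) (l 16710432)) (b (l 16731440) (l 16722056))) (a (b (l 16753144) (l 16733272)) (b (a (l 16750624) (l 16766200)) (l 16754392)))) (a (a (l 16696176) (l 16707848)) (a (b (l 16724008) (l 16714624)) (b (l 16734624) (l 16725480))))) (b (a (c (a (b (l 525559935) (l 525537663)) (a (b (l 525713279) (l 525659007)) (l 525726847))) (a (b (l 525756031) (l 525774207)) (b (l 525978751) (l 525942655)))) (b (l 525919103) (a (l 525835903) (l 525846399)))) (a (b (a (l 16754984) (l 525806719)) (a (l 16735312) (l 16744208))) (b (l 525810815) (l 526104591))))) (b (a (a (a (l 16677248) (l 16689024)) (a (l 16700536) (l 16711424))) (a (b (a (l 16726304) (l 16735168)) (a (l 16716904) (l 16726144))) (a (b (l 16753776) (l 16744968)) (b (l 525994623) (l 2))))) (b (a (a (l 16669160) (l 16692112)) (a (l 16738240) (a (l 16725040) (l 2)))) (a (a (b (l 16662096)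 (a (l 16652080) (l 16663392))) (b (l 16684960) (l 16680384))) (a (b (l 16704688) (l 16699984)) (b (l 16737352) (l 33923441367))))))) (a (a (b (a (l 16633224) (l 16645160)) (l 16607424)) (b (l 16704912) (l 16633200))) (b (a (a (l 16678824) (l 16688168)) (b (l 32849692247) (l 2))) (a (l 16655584) (l 2))))) (b (b (b (b (l 3) (l 2)) (l 2)) (l 2)) (l 2))) (a (b (a (a (l 16614768) (l 16591048)) (a (l 15669660375) (l 2))) (a (a (l 16507144) (l 16539792)) (l 2))) (l 2))), by decide +kernel⟩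

def k10_B05pp_022_s1 : ∃ t, chk3 f_B05pp_022_s1 t 3 3 1 = true :=
  ⟨(a (b (b (a (b (b (l 16487800) (l 2)) (l 2)) (l 2)) (l 2)) (l 2)) (l 2)), by decide +kernel⟩

theorem t11_B05pp_022_s1 : ∃ t, chk3 f_B05pp_022_s1 t 3 2 1 = true := ex3_b k8_B05pp_022_s1 k9_B05pp_022_s1

theorem t12_B05pp_022_s1 : ∃ t, chk3 f_B05pp_022_s1 t 3 1 1 = true := ex3_b t11_B05pp_022_s1 k10_B05pp_022_s1

theorem t13_B05pp_022_s1 : ∃ t, chk3 f_B05pp_022_s1 t 2 9 1 = true := ex3_a k4_B05pp_022_s1 k5_B05pp_022_s1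

theorem t14_B05pp_022_s1 : ∃ t, chk3 f_B05pp_022_s1 t 8 8 1 = true := ex3_b k0_B05pp_022_s1 k1_B05pp_022_s1

theorem t15_B05pp_022_s1 : ∃ t, chk3 f_B05pp_022_s1 t 4 8 1 = true := ex3_a t14_B05pp_022_s1 k2_B05pp_022_s1

theorem t16_B05pp_022_s1 : ∃ t, chk3 f_B05pp_022_s1 t 2 8 1 = true := ex3_a t15_B05pp_022_s1 k3_B05pp_022_s1

theorem t17_B05pp_022_s1 : ∃ t, chk3 f_B05pp_022_s1 t 2 4 1 = true := ex3_b t16_B05pp_022_s1 t13_B05pp_022_s1

theorem t18_B05pp_022_s1 : ∃ t, chk3 f_B05pp_022_s1 t 2 2 1 = true := ex3_b t17_B05pp_022_s1 k6_B05pp_022_s1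

theorem t19_B05pp_022_s1 : ∃ t, chk3 f_B05pp_022_s1 t 2 1 1 = true := ex3_b t18_B05pp_022_s1 k7_B05pp_022_s1

theorem t20_B05pp_022_s1 : ∃ t, chk3 f_B05pp_022_s1 t 1 1 1 = true := ex3_a t19_B05pp_022_s1 t12_B05pp_022_s1

theorem c_B05pp_022_s1 : CertF 0 536870912 1073741824 536870912 780900216 37827925 false true true .pp 0 2 2
    ndB0q0 ndB5q2 pcB2 cut_B05pp_022_s1 xt_B05pp_022_s1 :=
  certF1 (fam := false) (s1 := true) (s2 := true) (a := 0) (b := 2) (c := 2) (cn := .pp) (n1 := ndB0q0) (n2 := ndB5q2) (pc := pcB2) (cut := cut_B05pp_022_s1) (xt := xt_B05pp_022_s1) (P1 := 0) (W1 := 536870912) (P2 := 1073741824) (W2 := 536870912) (P3 := 780900216) (W3 := 37827925)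
    rfl (fun _ => rfl) t20_B05pp_022_s1

theorem s_B05pp_022_s1 {κ x : ℝ} (hκ : κ * h0 = ken x) (hx : ((780900216 : ℕ) : ℝ) / S ≤ x)
    (hx' : x ≤ (((780900216 : ℕ) : ℝ) + (37827925 : ℕ)) / S)
    (H : CutB (VFD κ) PP tK tL pcB (Cut.of [[⟨0, 0, 0, 67108864⟩, ⟨1, 1, 0, 67108864⟩, ⟨2, 1, 0, 67108864⟩]]) 0 2 2 0 5 (sgb true) (sgb true) x) :
    AltB (VFD κ) PP tK tL pcB [⟨3, 0, 0, 1449551462⟩] 0 2 2 0 5 (sgb true) (sgb true) x :=
  strip_altBD (m := 1449551462) true rfl hκ (SH.κ0 hκ (SH.hx1 hx).le (SH.hx2 hx').le) (SH.hx1 hx).le (SH.hx2 hx') (covB00).cov (covB52).cov hx hx' c_B05pp_022_s1 H ((okx hx hx').extB (T := tt) (sideB hx hx') hκ rfl rfl (.O 0 true) (.N 2 true) rfl)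

end Pool.Agent.Strip051.G.I72727_7625.Tab.St.C
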