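import Pool.Agent.Strip051.G.I72727_7625.Tab
import Pool.Agent.Strip051.PB.StripB

/-! # Strips, near vertex: certificates 1 (generated) -/

set_option linter.all false
set_option maxRecDepth 100000

namespace Pool.Agent.Strip051.G.I72727_7625.Tab.CS.BA00

open Pool.Agent.Strip051.PB Pool.Agent.Strip051.PB.T
open Pool.Agent.Strip051.G.I72727_7625.Tab

noncomputable def cut_pm_123_t : Cut := Cut.of [[⟨3, 0, 0, 2845415833⟩], [⟨0, 1, 0, 67108864⟩, ⟨1, 1, 0, 67108864⟩, ⟨2, 2, 0, 16777216⟩], [⟨0, 0, 1, 26214400⟩, ⟨1, 1, 0, 33554432⟩, ⟨2, 1, 1, 26214400⟩]]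

noncomputable def f_pm_123_t : ℕ → ℕ → ℕ → ℕ → Bool := onCell 1610612736 536870912 0 536870912 780900216 37827925
    (rowNE 3 eng mog cd0q1 cd0q2 pd3 2 true true false .npn 1 2 3 (qsf 536870912 536870912 0 536870912 3) ndB0q1 ndB0q2 pcB3 cut_pm_123_t Ext.none)

def k0_pm_123_t : ∃ t, chk3 f_pm_123_t t 2 1 1 = true :=
  ⟨(a (b (b (l 1) (l 6)) (l 6)) (b (a (b (a (a (l 1) (b (l 16711184) (l 16678352))) (b (a (l 16721200) (l 16730696)) (a (l 16687976) (l 16697376)))) (b (a (b (l 16646064) (l 6)) (a (l 16650824) (l 16660248))) (l 6))) (b (b (a (a (l 16761016) (l 16749264)) (b (a (l 16765896) (l 66269950391)) (l 16775528))) (a (a (l 16706864) (l 16716400)) (l 16772664))) (a (b (l 16674992) (b (l 16644856) (l 6))) (b (a (l 16690336) (l 16700880)) (b (l 16667264) (l 16648440)))))) (b (a (l 6) (l 6)) (l 6)))), by decide +kernel⟩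

def k1_pm_123_t : ∃ t, chk3 f_pm_123_t t 6 2 1 = true :=
  ⟨(a (b (a (a (b (b (l 123178308791) (l 16767568)) (l 16744784)) (b (b (l 4) (b (l 104924659319) (l 16772000))) (l 16753864))) (b (a (b (l 4) (a (l 107072129479) (l 145190009271))) (l 4)) (b (a (a (l 16767568) (l 16771584)) (a (l 63048738151) (l 104387781319))) (a (l 16755648) (l 16764888))))) (a (b (a (l 16711608) (l 16722368)) (b (l 16691608) (l 16675576))) (b (a (b (l 16740648) (l 16725880)) (l 16767208)) (a (l 16706344) (l 16724752))))) (b (b (l 4) (b (a (a (a (l 137136949191) (l 4)) (l 4)) (l 4)) (a (a (a (l 16771120) (l 57143158247)) (b (a (l 105461530311) (l 4)) (a (l 16775320) (l 102777182823)))) (l 4)))) (a (b (b (a (l 16761928) (a (l 16767960) (l 16771608))) (a (l 16751792) (l 16761392))) (b (a (l 16743288) (l 16754272)) (a (l 16735560) (l 16748152)))) (b (a (b (b (a (l 16777120) (l 104924655671)) (a (l 16772592) (l 16775600))) (l 16769104)) (b (b (l 4) (a (l 96334728775) (l 4))) (a (l 16773400)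 (b (l 67343708151) (l 16774352))))) (a (b (l 16763248) (l 16758152)) (b (l 16769832) (l 16765816))))))), by decide +kernel⟩

def k2_pm_123_t : ∃ t, chk3 f_pm_123_t t 7 2 1 = true :=
  ⟨(a (b (l 4) (a (b (a (b (l 4) (b (a (a (l 100092828839) (l 4)) (l 4)) (a (l 16776640) (c (l 96334726343) (l 96871597815))))) (l 4)) (a (b (a (l 16773512) (b (l 16776104) (l 16774528))) (l 16771456)) (b (a (b (a (l 16763464) (l 95797862775)) (l 16776040)) (b (a (l 115125204887) (l 4)) (c (a (l 16777520) (l 16761768)) (l 66806837799)))) (a (l 16774424) (b (l 16776240) (l 16775120)))))) (b (l 4) (a (b (a (b (l 4) (a (b (l 4) (l 94187262455)) (l 4))) (l 4)) (a (b (b (a (l 16777096) (l 114051533255)) (l 16776864)) (l 16776184)) (b (b (l 4) (a (l 70028075207) (l 102777187175))) (b (a (l 16776960) (l 66269979655)) (l 16776744))))) (b (l 4) (a (b (l 4) (a (b (c (l 100092835159) (l 16757280)) (l 63048760455)) (c (l 168275464151) (l 97945332295)))) (l 4))))))) (l 4)), by decide +kernel⟩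

def k3_pm_123_t : ∃ t, chk3 f_pm_123_t t 6 3 1 = true :=
  ⟨(a (b (a (b (b (l 16679608) (a (l 6) (l 16651880))) (l 6)) (b (a (b (l 16687488) (l 16676712)) (b (l 16711416) (l 16700760))) (a (b (l 16670016) (l 6)) (b (l 16690816) (l 16681688))))) (l 6)) (b (b (a (b (a (l 16726888) (l 16740488)) (a (l 16716584) (l 16730456))) (b (a (l 16751488) (l 16760152)) (a (l 16742784) (l 16753024)))) (a (b (l 16713776) (a (l 16696640) (l 16710000))) (b (a (l 16732560) (b (l 16745648) (l 16740296))) (a (l 16721904) (l 16732512))))) (b (a (b (a (l 16687064) (l 16699992)) (a (l 6) (b (l 16674576) (l 6)))) (b (a (a (l 16687632) (l 16693344)) (a (l 16699320) (l 16705008))) (a (b (l 16686992) (a (b (l 16704400) (l 16704976)) (l 16711488))) (b (a (l 16717216) (l 16723872)) (a (l 16718408) (l 16725504)))))) (a (l 6) (b (a (a (l 6) (a (b (l 16712120) (l 6)) (b (l 16715768) (l 16719544)))) (b (b (a (l 16720288) (l 16727496)) (l 16725936)) (a (b (l 16724264) (l 16726344)) (l 16732744))))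 (a (l 6) (a (b (c (l 16732416) (l 16726536)) (l 6)) (b (c (l 16739432) (l 16734216)) (c (b (l 16742408) (l 16744320)) (b (l 16736744) (c (l 16739800) (l 16736920)))))))))))), by decide +kernel⟩

def k4_pm_123_t : ∃ t, chk3 f_pm_123_t t 14 6 1 = true :=
  ⟨(a (b (a (b (l 16745736) (a (l 16758536) (l 16761624))) (b (a (l 16749168) (l 16772120)) (a (l 16764504) (l 16767168)))) (b (a (b (a (l 16752728) (l 16757064)) (l 16750360)) (b (a (l 16760640) (l 16764192)) (a (l 16757488) (l 16762656)))) (a (a (l 16740320) (l 16745904)) (b (l 16756472) (l 16752784))))) (b (a (b (a (b (l 16774760) (l 16772768)) (b (l 16776048) (l 16774696))) (a (b (l 16770744) (l 16769040)) (c (l 16776784) (l 16768560)))) (b (a (b (a (l 16776816) (c (l 16777912) (l 16776984))) (l 16776224)) (b (a (c (b (l 99019094823) (l 16777848)) (b (l 16760360) (l 16777328))) (b (l 4) (a (l 97945361191) (l 4)))) (a (l 16776968) (c (l 16767496) (l 16776888))))) (a (b (l 16775320) (l 16753744)) (b (c (l 16778712)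 (l 16774992)) (c (l 16779736) (l 16773816)))))) (a (b (a (b (l 16767816) (l 16767304)) (b (l 16771336) (l 16771136))) (b (a (l 16764840) (l 16728448)) (a (l 16761728) (l 16767592)))) (b (a (c (l 16759264) (l 16769240)) (b (l 16756104) (l 16777624))) (a (b (c (l 16782128) (l 16767920)) (l 16751648)) (b (l 16757016) (a (l 16755360) (l 16747088)))))))), by decide +kernel⟩

def k5_pm_123_t : ∃ t, chk3 f_pm_123_t t 14 7 1 = true :=
  ⟨(b (a (b (a (b (l 16715688) (l 16713376)) (b (l 16728304) (l 16726200))) (a (b (a (l 16730720) (l 16737464)) (a (l 16732480) (l 16739296))) (b (l 16728896) (a (l 16745696) (l 16751696))))) (a (b (b (l 16761424) (a (l 16756304) (l 16761880))) (b (a (l 16756056) (l 16761456)) (c (l 16742104) (l 16735720)))) (b (b (a (l 16769528) (l 16753464)) (a (l 16767048) (l 16750800))) (b (a (l 16745456) (l 16750200)) (a (l 16746472) (l 16751184)))))) (a (b (a (a (b (b (l 16734496) (l 16736392)) (l 16739632)) (b (b (l 16741120) (l 16742808)) (l 16746024)))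 (b (a (b (l 16747360) (l 16748792)) (b (l 16753184) (l 16754312))) (c (a (l 16753696) (l 16759040)) (a (l 16750080) (l 16755704))))) (a (b (a (c (l 16745960) (l 16741384)) (b (l 16748944) (l 16750784))) (c (b (a (l 16748720) (l 16754656)) (a (l 16750552) (l 16756432))) (a (b (l 16743888) (l 16745536)) (b (l 16750632) (l 16752360))))) (b (c (a (l 16757584) (l 16762880)) (a (l 16754200) (l 16760048))) (c (a (b (l 16760272) (l 16762104)) (l 16766656)) (a (b (l 16757024) (l 16758952)) (b (l 16763184) (l 16765232))))))) (b (a (b (c (a (l 16761272) (l 16766480)) (a (l 16756984) (l 16762040))) (a (c (l 16764008) (l 16760912)) (b (l 16766112) (l 16768408)))) (b (a (c (l 16771392) (l 16766888)) (l 16756224)) (a (b (l 16770824) (l 16773016)) (c (l 16777696) (l 16754104))))) (a (b (c (a (l 16767984) (l 16772784)) (a (l 16765680) (l 16770968))) (a (c (l 16771712) (b (l 16768992) (l 16771096))) (b (l 16774848) (c (l 16777128) (l 16776528))))) (b (a (b (l 16775304) (l 16777568))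 (c (l 16781080) (l 16759128))) (a (b (l 16779368) (c (l 16780680) (l 16780800))) (b (l 16803688) (c (l 16783056) (l 16783776))))))))), by decide +kernel⟩

def k6_pm_123_t : ∃ t, chk3 f_pm_123_t t 60 3 1 = true :=
  ⟨(b (b (b (a (b (l 4) (a (c (b (c (l 104924675511) (l 16758488)) (l 16777880)) (b (l 107609027719) (l 16777280))) (c (c (l 184918463287) (l 186529075687)) (l 184381586295)))) (l 4)) (a (b (a (l 16777400) (c (b (l 16777944) (l 16778272)) (l 16777104))) (c (l 16779664) (l 16775928))) (b (a (c (b (a (l 106535296807) (l 4)) (l 46942632071)) (b (l 116735831623) (l 16777520))) (b (l 4) (a (c (l 114588359175) (l 16764552)) (l 4)))) (b (a (l 16777648) (c (a (l 16777808) (l 16769304)) (l 16777736))) (a (l 16777984) (l 16777776)))))) (c (b (a (b (l 16781320) (l 16783144)) (b (l 16774992) (l 16782192))) (a (b (l 16784800) (l 16765512)) (b (l 16783960) (l 16764480)))) (b (a (b (l 16775416) (l 16775064)) (b (l 16776816) (l 16776760))) (a (b (l 16774536) (l 16753152))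 (b (l 16776504) (l 16775960)))))) (b (b (b (a (c (l 16752544) (l 16750544)) (b (a (l 16760104) (l 16781280)) (a (l 16779848) (l 16760224)))) (a (c (l 16781136) (l 16770480)) (l 16753144))) (b (a (l 16754424) (l 16758200)) (a (l 16758224) (c (l 16783528) (l 16777352))))) (b (b (a (c (l 16780560) (l 16776080)) (a (l 16760464) (l 16762200))) (a (c (l 16760688) (l 16758248)) (b (l 16783048) (l 16762496)))) (b (a (c (l 16804504) (l 16764464)) (c (l 16764160) (l 16768848))) (a (b (c (l 16784328) (l 16784800)) (c (l 16783976) (l 16785176))) (b (c (l 16784712) (l 16785448)) (c (l 16783872) (l 16785416)))))))), by decide +kernel⟩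

def k7_pm_123_t : ∃ t, chk3 f_pm_123_t t 61 6 1 = true :=
  ⟨(b (a (b (l 4) (b (l 4) (a (b (a (c (l 125862646279) (l 126936387799)) (l 4)) (c (a (l 16777840) (l 77544272135)) (l 60364398935))) (a (a (c (l 240753038599) (l 243437392487)) (l 4)) (l 4))))) (l 4)) (b (a (b (a (c (l 16778992) (l 16777312)) (a (c (l 34057734087) (l 16777504)) (b (c (c (l 96334752951) (l 16765384)) (l 96334748935)) (l 16777744)))) (a (c (l 16781040) (l 16777480)) (c (l 16779984) (l 16777616)))) (b (a (b (b (l 4) (c (l 268670327239) (l 271354681191))) (c (a (l 64659374327) (b (l 4) (l 102240338183))) (a (l 16777856) (l 115662097703)))) (l 4)) (a (c (c (l 16779144) (l 16778552)) (l 16772384)) (a (b (c (c (l 90429173255) (l 88281689639)) (l 86671075479)) (l 16777928)) (b (b (l 4) (c (l 160222389111) (l 155927421671))) (c (b (l 77007407671) (l 16777888)) (l 16777808))))))) (c (a (b (a (l 16782864) (l 16781920)) (l 16784128)) (b (a (l 16780864) (c (l 16780032) (l 16779192))) (a (l 16782768)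 (l 16781704)))) (a (b (l 16777576) (l 16777480)) (b (a (l 16777936) (l 16777872)) (a (l 16778120) (l 16778344))))))), by decide +kernel⟩

def k8_pm_123_t : ∃ t, chk3 f_pm_123_t t 61 7 1 = true :=
  ⟨(b (b (a (b (a (b (l 16781448) (l 16761192)) (l 16760808)) (b (a (l 16760720) (l 16762008)) (l 16761336))) (b (a (c (l 16784792) (l 16778448)) (b (l 16770544) (l 16760816))) (a (b (l 16762248) (b (l 16763160) (l 16763184))) (b (l 16761976) (b (l 16763176) (l 16764208)))))) (a (b (a (l 16781736) (l 16783312)) (c (l 16786864) (l 16760200))) (b (a (l 16763960) (b (b (l 16764408) (l 16785840)) (l 16786240))) (a (l 16765104) (l 16766128))))) (b (b (a (b (l 16764104) (l 16764528)) (c (l 16767784) (l 16764152))) (a (b (l 16764328) (c (l 16785696) (l 16783816))) (a (b (l 16786008) (l 16784968)) (b (l 16786104) (l 16784872))))) (b (a (b (l 16763776) (c (l 16784936) (l 16784880))) (b (c (l 16784680) (l 16772984)) (c (l 16783904) (l 16768056)))) (a (b (c (l 16784168) (l 16785040))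 (c (a (l 16783232) (l 16782696)) (a (l 16784952) (l 16784496)))) (b (c (a (l 16783288) (l 16782616)) (a (l 16784184) (l 16783480))) (c (a (l 16782096) (l 16781464)) (a (l 16783944) (l 16783320)))))))), by decide +kernel⟩

def k9_pm_123_t : ∃ t, chk3 f_pm_123_t t 31 6 1 = true :=
  ⟨(a (b (l 4) (a (b (a (b (l 4) (b (l 4) (a (b (c (l 173644158599) (l 169349191015)) (c (a (l 16777248) (l 136600076791)) (l 16768456))) (l 4)))) (l 4)) (b (b (a (a (c (l 16778056) (l 16777536)) (c (c (b (l 131231362007) (l 16777696)) (l 96871622327)) (b (l 128010135623) (l 16777688)))) (a (c (c (l 314304355623) (l 314304355319)) (l 309472516679)) (l 4))) (a (c (l 16773488) (l 16777728)) (a (c (c (b (l 96871629335) (l 16777952)) (l 72712437255)) (b (l 94187273719) (l 16777480))) (b (l 4) (c (a (l 104387825703) (l 187602809095)) (a (l 16776584) (l 183307841959))))))) (a (c (c (l 16780952) (l 16779928)) (l 16778312)) (a (c (l 16779352) (l 16778080)) (b (c (c (l 16778208) (l 16778024)) (l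 16772488)) (a (l 16778704) (l 16778416))))))) (b (l 4) (b (l 4) (a (a (b (c (a (b (l 154316814727) (l 16777688)) (b (l 4) (l 138210689191))) (b (l 308398778023) (a (l 16777536) (l 136600076311)))) (c (l 16772968) (l 16777696))) (b (l 4) (a (b (c (b (l 155927432439) (l 16777104)) (l 16771184)) (l 16777632)) (b (l 4) (c (c (l 16776752) (l 16776760)) (l 16776776)))))) (a (a (a (b (l 4) (c (l 334705452343) (l 334705451879))) (l 4)) (l 4)) (l 4))))))) (l 4)), by decide +kernel⟩

def k10_pm_123_t : ∃ t, chk3 f_pm_123_t t 62 14 1 = true :=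
  ⟨(b (a (a (b (c (l 16782680) (l 16779048)) (c (l 16785856) (l 16759808))) (b (c (a (l 16781664) (l 16780888)) (l 16778888)) (c (b (l 16783464) (l 16785544)) (l 16780840)))) (a (b (c (a (l 16774792) (b (l 16778456) (l 16779736))) (a (l 16778544) (l 16778176))) (c (a (l 16783288) (l 16774424)) (b (l 16779680) (l 16780984)))) (b (a (b (c (a (b (l 87207961047) (l 16778000)) (b (c (l 169349199159) (l 169349199031)) (l 37815835895))) (a (l 16771232) (b (l 168275456503) (l 16777576)))) (c (l 16778736) (l 16778056))) (a (b (b (l 4) (c (c (l 162369877975) (l 162906748775)) (l 162906748279))) (c (b (l 16777712) (l 16778232)) (l 16777744))) (b (l 4) (c (b (c (l 156464298439) (l 156464298359)) (l 16777752)) (b (c (l 156464298599) (l 157001169415)) (l 16777584)))))) (a (c (b (l 16780256) (l 16782056)) (l 16779576)) (c (b (l 16773824) (l 16780720)) (b (l 16778368) (l 16779488))))))) (a (b (a (b (a (l 16765280) (l 16765432)) (l 16765888)) (b (c (l 16787792) (l 16783136)) (a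 (c (l 16789816) (l 16784536)) (c (l 16789624) (l 16784816))))) (a (l 16766664) (a (l 16766792) (l 16766760)))) (b (c (a (a (l 16777192) (l 16786280)) (a (l 16779680) (b (l 16782480) (l 16784296)))) (a (a (l 16783768) (l 16783032)) (a (l 16782320) (l 16781440)))) (a (b (a (b (l 16766408) (l 16787536)) (c (l 16778440) (l 16774528))) (l 16787264)) (b (a (b (l 16785648) (l 16776096)) (l 16775584)) (a (b (l 16773472) (l 16786648)) (b (c (l 16786648) (l 16784440)) (c (l 16787432) (l 16784328))))))))), by decide +kernel⟩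

def k11_pm_123_t : ∃ t, chk3 f_pm_123_t t 63 14 1 = true :=
  ⟨(a (b (a (b (b (l 4) (b (l 4) (a (a (a (c (l 129620764903) (l 16771328)) (c (l 185455329575) (l 186529071159))) (l 4)) (l 4)))) (b (b (a (c (a (l 16777784) (c (a (l 16776624) (l 186529072023)) (l 151632463671))) (a (l 16777600) (a (l 16771368) (l 188139684151)))) (l 4)) (a (c (a (l 16778440) (l 16777808)) (l 16777824)) (a (a (c (a (l 16777048) (l 146263759287)) (l 16771416)) (c (c (l 190287168455) (l 191897781063)) (l 192971522391))) (l 4)))) (c (a (c (l 16779424) (l 16779096)) (a (c (l 16778264) (l 16778120)) (b (c (a (l 16772040) (l 196729618903)) (a (l 16776624) (l 198877102423))) (c (l 16777800) (l 16777800))))) (a (l 16778576) (a (l 16777896) (b (a (l 134452598327) (l 200487714983)) (l 16777672))))))) (b (l 4) (a (a (b (l 4) (a (b (l 4) (c (c (l 138210694615) (l 16771312)) (l 141431924647))) (c (c (l 409867379783) (l 413088605015)) (l 414162346455)))) (l 4)) (l 4)))) (b (b (a (a (c (l 16775680)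 (l 16779752)) (c (c (l 16779456) (l 16779160)) (l 16778680))) (a (a (c (c (l 78081170663) (l 16778128)) (b (l 16777696) (l 16778104))) (a (b (b (c (l 203172074119) (l 206930170487)) (c (l 16777032) (l 16777048))) (l 16777760)) (b (c (l 469460053447) (l 470533794951)) (c (b (l 123715183751) (l 14)) (l 16777240))))) (b (l 4) (b (b (l 4) (l 14)) (l 14))))) (a (a (c (l 16782648) (l 16781000)) (c (c (l 16780864) (l 16780672)) (l 16779848))) (a (a (c (l 16779632) (l 16778952)) (l 14)) (l 14)))) (a (a (a (b (l 16773224) (b (l 16784792) (l 16775072))) (l 14)) (l 14)) (l 14)))) (b (l 4) (b (b (l 4) (l 14)) (l 14)))), by decide +kernel⟩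

def k12_pm_123_t : ∃ t, chk3 f_pm_123_t t 31 15 1 = true :=
  ⟨(a (b (a (b (a (b (l 16787432) (l 16786912)) (b (l 16787288) (l 16786616))) (a (b (l 16785944) (l 16784584)) (c (l 16764952) (l 16762888)))) (b (a (b (l 16786816) (l 16765088)) (b (l 16775544) (l 16774760))) (a (b (l 16774448) (l 16773000)) (b (b (l 16773920) (l 16773304)) (b (l 16772632) (l 16771912)))))) (b (a (b (a (b (l 16783368) (l 16782864)) (c (l 16783152) (l 16771424))) (a (c (l 16782840) (l 16782592)) (c (l 16782048) (l 16781680)))) (b (a (c (l 16782544) (l 16770824)) (c (l 16781912) (l 16780672))) (a (c (l 16771440) (b (l 16780608) (l 16780864))) (b (c (l 16780744) (l 16771992)) (c (l 16780368) (l 16779968)))))) (a (b (c (a (l 16781912) (l 16781232)) (a (l 16782720) (l 16781952))) (c (a (b (l 16781136) (l 16780592)) (b (l 16780544) (l 16780048))) (a (b (l 16782712) (l 16782680)) (b (l 16782056) (l 16782080))))) (b (a (c (b (l 16780752) (l 16780376)) (b (l 16781072) (l 16781240))) (c (b (l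 16780080) (l 16779768)) (b (l 16780240) (l 16780472)))) (a (c (b (l 16779968) (c (l 16779112) (l 16779976))) (b (l 16781368) (l 16786712))) (c (b (c (l 16779152) (l 16779696)) (c (l 16778656) (l 16779448))) (b (a (l 16780840) (l 16780480)) (a (l 16780984) (l 16780648))))))))) (a (a (a (a (b (b (b (l 16774792) (l 16784608)) (c (l 16773328) (l 16771624))) (b (b (l 16780968) (b (l 16779920) (l 16779656))) (b (c (l 16779544) (l 16779864)) (c (b (l 16779088) (l 16778744)) (b (l 16780208) (l 16780392)))))) (l 14)) (l 14)) (l 14)) (l 14))), by decide +kernel⟩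

theorem s13_pm_123_t : ∃ t, chk3 f_pm_123_t t 31 14 1 = true := ex3_a k10_pm_123_t k11_pm_123_t

theorem s14_pm_123_t : ∃ t, chk3 f_pm_123_t t 31 7 1 = true := ex3_b s13_pm_123_t k12_pm_123_t

theorem s15_pm_123_t : ∃ t, chk3 f_pm_123_t t 31 3 1 = true := ex3_b k9_pm_123_t s14_pm_123_t

theorem s16_pm_123_t : ∃ t, chk3 f_pm_123_t t 61 3 1 = true := ex3_b k7_pm_123_t k8_pm_123_t

theorem s17_pm_123_t : ∃ t, chk3 f_pm_123_t t 30 3 1 = true := ex3_a k6_pm_123_t s16_pm_123_t

theorem s18_pm_123_t : ∃ t, chk3 f_pm_123_t t 15 3 1 = true := ex3_a s17_pm_123_t s15_pm_123_t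

theorem s19_pm_123_t : ∃ t, chk3 f_pm_123_t t 14 3 1 = true := ex3_b k4_pm_123_t k5_pm_123_t

theorem s20_pm_123_t : ∃ t, chk3 f_pm_123_t t 7 3 1 = true := ex3_a s19_pm_123_t s18_pm_123_t

theorem s21_pm_123_t : ∃ t, chk3 f_pm_123_t t 3 3 1 = true := ex3_a k3_pm_123_t s20_pm_123_t

theorem s22_pm_123_t : ∃ t, chk3 f_pm_123_t t 3 2 1 = true := ex3_a k1_pm_123_t k2_pm_123_t

theorem s23_pm_123_t : ∃ t, chk3 f_pm_123_t t 3 1 1 = true := ex3_b s22_pm_123_t s21_pm_123_t

theorem s24_pm_123_t : ∃ t, chk3 f_pm_123_t t 1 1 1 = true := ex3_a k0_pm_123_t s23_pm_123_t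

theorem c_pm_123_t : CertNE 536870912 536870912 0 536870912 780900216 37827925 3 eng mog cd0q1 cd0q2 pd3 true true false .npn 1 2 3
    ndB0q1 ndB0q2 pcB3 cut_pm_123_t Ext.none :=
  certNE2 (fam := true) (s1 := true) (s2 := false) (a := 1) (b := 2) (c := 3) (cn := .npn) (n1 := ndB0q1) (n2 := ndB0q2) (pc := pcB3) (cut := cut_pm_123_t) (xt := Ext.none) (P1 := 536870912) (W1 := 536870912) (P2 := 0) (W2 := 536870912) (P3 := 780900216) (W3 := 37827925) (N0 := 3) (En := eng) (mo := mog) (C1 := cd0q1) (C2 := cd0q2) (C3 := pd3)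
    rfl (fun _ => rfl) s24_pm_123_t

noncomputable def cut_pm_202_s : Cut := Cut.of [[⟨4, 0, 0, 1449551462⟩], [⟨0, 1, 0, 67108864⟩, ⟨1, 0, 0, 67108864⟩, ⟨2, 1, 0, 67108864⟩]]

noncomputable def f_pm_202_s : ℕ → ℕ → ℕ → ℕ → Bool := onCell 0 536870912 1073741824 536870912 780900216 37827925
    (rowNE 3 eng mog cd0q2 cd0q0 pd2 1 true true false .pp 2 0 2 (qsf 0 536870912 0 536870912 2) ndB0q2 ndB0q0 pcB2 cut_pm_202_s Ext.none)

def k0_pm_202_s : ∃ t, chk3 f_pm_202_s t 1 8 1 = true :=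
  ⟨(a (l 1) (a (l 1) (a (b (l 1) (a (b (l 1) (a (l 1) (b (l 1) (b (l 16635808) (l 16637200))))) (b (l 14) (b (l 14) (a (a (l 16653144) (l 16642936)) (a (l 16653480) (l 16661216))))))) (b (l 14) (b (l 14) (b (l 14) (b (l 14) (b (l 14) (a (a (l 16679392) (l 16686096)) (a (l 16693272) (a (l 16679064) (a (l 16676784) (c (l 16675072) (l 16675264)))))))))))))), by decide +kernel⟩

def k1_pm_202_s : ∃ t, chk3 f_pm_202_s t 2 9 1 = true :=
  ⟨(l 6), by decide +kernel⟩

def k2_pm_202_s : ∃ t, chk3 f_pm_202_s t 6 9 1 = true :=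
  ⟨(a (b (l 1) (l 6)) (b (a (b (l 1) (b (a (l 1) (l 16537464)) (a (l 16524568) (l 16542288)))) (b (b (l 1) (a (l 16553064) (l 16574272))) (a (b (l 16556896) (l 16560632)) (b (l 16576896) (l 16579496))))) (a (b (a (b (l 16530176) (l 6)) (b (l 16546920) (l 16551216))) (l 6)) (b (b (a (l 16564240) (l 16582056)) (a (l 16567608) (l 16584448))) (a (l 16564840) (l 16559768)))))), by decide +kernel⟩

def k3_pm_202_s : ∃ t, chk3 f_pm_202_s t 7 9 1 = true :=
  ⟨(a (b (a (b (a (b (a (l 16588720) (l 16600160)) (l 16616784)) (b (a (l 16611336) (l 16622128)) (l 16616784))) (a (b (l 16597192) (l 16598632)) (b (l 16637888) (l 16617192)))) (b (a (b (a (l 16632600) (l 16642808)) (l 16636440)) (b (a (l 16652784) (l 16662584)) (l 16655072))) (a (b (l 16635352) (l 16634488)) (b (l 16652776) (l 16650784))))) (b (a (b (a (l 16600104) (l 16617576)) (l 16588968)) (b (a (l 16633808) (l 16642720)) (a (l 16630664) (l 16632320)))) (a (a (l 16596792) (l 16612280)) (a (l 16620736) (l 16621960)))))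 (b (b (a (b (a (l 16656272) (c (l 16678640) (l 16682400))) (a (l 16672840) (c (l 16669968) (l 16674016)))) (a (c (b (a (l 16676968) (l 16675304)) (l 16667896)) (b (l 16678632) (l 16670640))) (a (b (c (l 16683664) (l 16674528)) (c (l 16665152) (l 16666824))) (b (b (a (l 16683880) (c (a (l 16672040) (l 16671280)) (l 16671952))) (a (l 16669712) (c (l 16667952) (l 16668424)))) (c (a (l 16663384) (l 16672536)) (a (l 16664488) (l 16662760))))))) (b (a (a (l 16663512) (l 16620896)) (a (c (l 16659024) (l 16662008)) (a (l 16657368) (c (l 16675216) (l 16655408))))) (a (a (l 16653776) (l 16653312)) (a (l 16672112) (a (l 16648216) (c (l 16645024) (l 16646360))))))) (a (b (a (b (l 16643688) (l 16633320)) (b (l 16622368) (c (l 16630904) (l 16635416)))) (a (l 16622424) (b (l 16624960) (l 16617848)))) (b (a (b (c (l 16639744) (l 16642992)) (b (l 16633424) (l 16628168))) (b (a (l 16638344) (c (l 16635048) (l 16636472))) (b (a (l 16630408) (l 16627584)) (a (l 16624968) (l 16622032)))))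 (a (b (l 16622264) (l 16614312)) (b (a (l 16618640) (c (l 16615528) (l 16615424))) (a (l 16610008) (b (l 16608648) (l 16603856))))))))), by decide +kernel⟩

def k4_pm_202_s : ∃ t, chk3 f_pm_202_s t 1 5 1 = true :=
  ⟨(a (l 6) (a (b (b (a (l 6) (b (a (l 6) (l 16565856)) (l 6))) (l 6)) (l 6)) (b (b (a (a (b (l 16595640) (b (l 16589608) (a (l 6) (l 16634752)))) (b (l 16609288) (b (l 16598824) (b (l 16592624) (l 16608440))))) (b (a (a (l 16587272) (b (l 16610008) (l 16601352))) (a (b (l 16605552) (l 16595864)) (b (a (l 16600496) (b (l 16598832) (l 16593544))) (a (l 16589944) (b (l 16587976) (l 16582096)))))) (a (b (a (l 16595712) (l 16591576)) (b (l 16564888) (b (l 16580848) (a (l 16580120) (l 16573992))))) (a (b (l 16584896) (b (l 16575448) (b (l 16569488) (l 16565168)))) (b (a (l 16578000) (b (l 16575840) (l 16569064))) (b (a (l 16567720) (l 16561528)) (b (a (l 16561240) (l 16554744)) (b (b (b (l 16554944) (a (l 16556896) (l 16550192))) (l 16552592)) (l 16551712)))))))))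 (a (a (l 16576016) (b (l 16578960) (l 16566200))) (a (a (b (l 16571712) (l 16556800)) (b (l 16564360) (l 16548040))) (a (b (l 16554496) (l 16536672)) (b (a (l 16545296) (b (l 16542864) (l 16533344))) (a (l 16526672) (b (l 16523888) (l 16514528)))))))) (a (l 6) (a (b (b (a (l 16541024) (l 16531200)) (l 6)) (l 6)) (b (a (b (l 16519128) (b (l 16506232) (l 6))) (b (a (l 16508544) (b (l 16505280) (l 16496168))) (b (a (l 16495272) (l 16487216)) (a (l 16486648) (c (l 16486992) (l 16469368)))))) (a (l 6) (b (a (l 6) (b (l 16490760) (l 6))) (l 6))))))))), by decide +kernel⟩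

def k5_pm_202_s : ∃ t, chk3 f_pm_202_s t 1 3 1 = true :=
  ⟨(a (l 6) (l 6)), by decide +kernel⟩

theorem s6_pm_202_s : ∃ t, chk3 f_pm_202_s t 3 9 1 = true := ex3_a k2_pm_202_s k3_pm_202_s

theorem s7_pm_202_s : ∃ t, chk3 f_pm_202_s t 1 9 1 = true := ex3_a k1_pm_202_s s6_pm_202_s

theorem s8_pm_202_s : ∃ t, chk3 f_pm_202_s t 1 4 1 = true := ex3_b k0_pm_202_s s7_pm_202_s

theorem s9_pm_202_s : ∃ t, chk3 f_pm_202_s t 1 2 1 = true := ex3_b s8_pm_202_s k4_pm_202_s

theorem s10_pm_202_s : ∃ t, chk3 f_pm_202_s t 1 1 1 = true := ex3_b s9_pm_202_s k5_pm_202_s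

theorem c_pm_202_s : CertNE 0 536870912 0 536870912 780900216 37827925 3 eng mog cd0q2 cd0q0 pd2 true true false .pp 2 0 2
    ndB0q2 ndB0q0 pcB2 cut_pm_202_s Ext.none :=
  certNE1 (fam := true) (s1 := true) (s2 := false) (a := 2) (b := 0) (c := 2) (cn := .pp) (n1 := ndB0q2) (n2 := ndB0q0) (pc := pcB2) (cut := cut_pm_202_s) (xt := Ext.none) (P1 := 0) (W1 := 536870912) (P2 := 0) (W2 := 536870912) (P3 := 780900216) (W3 := 37827925) (N0 := 3) (En := eng) (mo := mog) (C1 := cd0q2) (C2 := cd0q0) (C3 := pd2)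
    rfl (fun _ => rfl) s10_pm_202_s

noncomputable def cut_pm_202_t : Cut := Cut.of [[⟨3, 0, 0, 2845415833⟩], [⟨0, 1, 0, 67108864⟩, ⟨1, 0, 0, 67108864⟩, ⟨2, 1, 0, 67108864⟩]]

noncomputable def f_pm_202_t : ℕ → ℕ → ℕ → ℕ → Bool := onCell 0 536870912 1073741824 536870912 780900216 37827925
    (rowNE 3 eng mog cd0q2 cd0q0 pd2 1 true true false .pp 2 0 2 (qsf 0 536870912 0 536870912 2) ndB0q2 ndB0q0 pcB2 cut_pm_202_t Ext.none)

def k0_pm_202_t : ∃ t, chk3 f_pm_202_t t 1 1 1 = true :=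
  ⟨(b (l 6) (a (l 6) (l 6))), by decide +kernel⟩

theorem c_pm_202_t : CertNE 0 536870912 0 536870912 780900216 37827925 3 eng mog cd0q2 cd0q0 pd2 true true false .pp 2 0 2
    ndB0q2 ndB0q0 pcB2 cut_pm_202_t Ext.none :=
  certNE1 (fam := true) (s1 := true) (s2 := false) (a := 2) (b := 0) (c := 2) (cn := .pp) (n1 := ndB0q2) (n2 := ndB0q0) (pc := pcB2) (cut := cut_pm_202_t) (xt := Ext.none) (P1 := 0) (W1 := 536870912) (P2 := 0) (W2 := 536870912) (P3 := 780900216) (W3 := 37827925) (N0 := 3) (En := eng) (mo := mog) (C1 := cd0q2) (C2 := cd0q0) (C3 := pd2)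
    rfl (fun _ => rfl) k0_pm_202_t

noncomputable def cut_pm_203_s : Cut := Cut.of [[⟨4, 0, 0, 1449551462⟩]]

noncomputable def f_pm_203_s : ℕ → ℕ → ℕ → ℕ → Bool := onCell 0 536870912 1610612736 536870912 780900216 37827925
    (rowNE 3 eng mog cd0q2 cd0q0 pd3 1 true true false .up 2 0 3 (qsf 0 536870912 0 536870912 3) ndB0q2 ndB0q0 pcB3 cut_pm_203_s Ext.none)

def k0_pm_203_s : ∃ t, chk3 f_pm_203_s t 1 1 1 = true :=
  ⟨(l 6), by decide +kernel⟩

theorem c_pm_203_s : CertNE 0 536870912 0 536870912 780900216 37827925 3 eng mog cd0q2 cd0q0 pd3 true true false .up 2 0 3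
    ndB0q2 ndB0q0 pcB3 cut_pm_203_s Ext.none :=
  certNE1 (fam := true) (s1 := true) (s2 := false) (a := 2) (b := 0) (c := 3) (cn := .up) (n1 := ndB0q2) (n2 := ndB0q0) (pc := pcB3) (cut := cut_pm_203_s) (xt := Ext.none) (P1 := 0) (W1 := 536870912) (P2 := 0) (W2 := 536870912) (P3 := 780900216) (W3 := 37827925) (N0 := 3) (En := eng) (mo := mog) (C1 := cd0q2) (C2 := cd0q0) (C3 := pd3)
    rfl (fun _ => rfl) k0_pm_203_s

noncomputable def cut_pm_203_t : Cut := Cut.of [[⟨3, 0, 0, 2845415833⟩]]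

noncomputable def f_pm_203_t : ℕ → ℕ → ℕ → ℕ → Bool := onCell 0 536870912 0 536870912 780900216 37827925
    (rowNE 3 eng mog cd0q2 cd0q0 pd3 0 true true false .up 2 0 3 (qsf 0 536870912 0 536870912 3) ndB0q2 ndB0q0 pcB3 cut_pm_203_t Ext.none)

def k0_pm_203_t : ∃ t, chk3 f_pm_203_t t 1 1 1 = true :=
  ⟨(a (b (l 1) (b (a (b (l 1) (a (b (l 1) (c (b (l 6) (l 16618472)) (l 16616592))) (l 6))) (l 6)) (b (a (a (b (c (l 16640176) (l 16642856)) (b (l 16700576) (l 16689152))) (l 6)) (l 6)) (a (b (a (b (l 16697152) (l 16687160)) (c (l 16644768) (l 16648424))) (a (b (l 16698720) (l 16730560)) (b (l 16663440) (l 16673920)))) (l 6))))) (l 6)), by decide +kernel⟩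

theorem c_pm_203_t : CertNE 0 536870912 0 536870912 780900216 37827925 3 eng mog cd0q2 cd0q0 pd3 true true false .up 2 0 3
    ndB0q2 ndB0q0 pcB3 cut_pm_203_t Ext.none :=
  certNE0 (fam := true) (s1 := true) (s2 := false) (a := 2) (b := 0) (c := 3) (cn := .up) (n1 := ndB0q2) (n2 := ndB0q0) (pc := pcB3) (cut := cut_pm_203_t) (xt := Ext.none) (P1 := 0) (W1 := 536870912) (P2 := 0) (W2 := 536870912) (P3 := 780900216) (W3 := 37827925) (N0 := 3) (En := eng) (mo := mog) (C1 := cd0q2) (C2 := cd0q0) (C3 := pd3)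
    rfl k0_pm_203_t

noncomputable def cut_pm_213_s : Cut := Cut.of [[⟨4, 0, 0, 1449551462⟩], [⟨0, 1, 0, 67108864⟩, ⟨1, 1, 0, 67108864⟩, ⟨2, 2, 0, 16777216⟩], [⟨0, 1, 0, 33554432⟩, ⟨1, 0, 1, 26214400⟩, ⟨2, 1, 1, 26214400⟩]]

noncomputable def f_pm_213_s : ℕ → ℕ → ℕ → ℕ → Bool := onCell 0 536870912 536870912 536870912 780900216 37827925
    (rowNE 3 eng mog cd0q2 cd0q1 pd3 0 true true false .pnn 2 1 3 (qsf 0 536870912 536870912 536870912 3) ndB0q2 ndB0q1 pcB3 cut_pm_213_s Ext.none)

def k0_pm_213_s : ∃ t, chk3 f_pm_213_s t 1 1 1 = true :=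
  ⟨(l 6), by decide +kernel⟩

theorem c_pm_213_s : CertNE 0 536870912 536870912 536870912 780900216 37827925 3 eng mog cd0q2 cd0q1 pd3 true true false .pnn 2 1 3
    ndB0q2 ndB0q1 pcB3 cut_pm_213_s Ext.none :=
  certNE0 (fam := true) (s1 := true) (s2 := false) (a := 2) (b := 1) (c := 3) (cn := .pnn) (n1 := ndB0q2) (n2 := ndB0q1) (pc := pcB3) (cut := cut_pm_213_s) (xt := Ext.none) (P1 := 0) (W1 := 536870912) (P2 := 536870912) (W2 := 536870912) (P3 := 780900216) (W3 := 37827925) (N0 := 3) (En := eng) (mo := mog) (C1 := cd0q2) (C2 := cd0q1) (C3 := pd3)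
    rfl k0_pm_213_s

noncomputable def cut_pm_213_t : Cut := Cut.of [[⟨3, 0, 0, 2845415833⟩], [⟨0, 1, 0, 67108864⟩, ⟨1, 1, 0, 67108864⟩, ⟨2, 2, 0, 16777216⟩], [⟨0, 1, 0, 33554432⟩, ⟨1, 0, 1, 26214400⟩, ⟨2, 1, 1, 26214400⟩]]

noncomputable def f_pm_213_t : ℕ → ℕ → ℕ → ℕ → Bool := onCell 0 536870912 1610612736 536870912 780900216 37827925
    (rowNE 3 eng mog cd0q2 cd0q1 pd3 1 true true false .pnn 2 1 3 (qsf 0 536870912 536870912 536870912 3) ndB0q2 ndB0q1 pcB3 cut_pm_213_t Ext.none)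

def k0_pm_213_t : ∃ t, chk3 f_pm_213_t t 2 2 1 = true :=
  ⟨(b (a (l 1) (l 6)) (b (a (b (b (l 1) (a (l 16711184) (l 16678352))) (a (b (l 16742176) (a (l 16738536) (l 16722248))) (b (l 16687976) (l 16697376)))) (a (b (a (l 16646064) (l 6)) (b (l 16650824) (l 16660248))) (l 6))) (a (a (b (b (l 16761016) (l 16770232)) (a (b (l 16765896) (l 66269950391)) (b (l 16750064) (l 16758984)))) (b (b (l 16706864) (l 16716400)) (b (l 16725944) (l 16735432)))) (b (a (b (l 16669992) (l 16680024)) (a (l 16644856) (l 6))) (a (b (l 16690336) (l 16700880)) (a (l 16667264) (l 16648440))))))), by decide +kernel⟩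

def k1_pm_213_t : ∃ t, chk3 f_pm_213_t t 4 3 1 = true :=
  ⟨(b (a (b (b (a (b (l 123178308791) (l 4)) (b (l 16767568) (a (l 104924659319) (l 16772000)))) (a (l 4) (b (b (l 107072129479) (l 145190009271)) (l 4)))) (l 4)) (a (b (b (l 16783336) (b (a (l 16793960) (l 16766272)) (b (l 63048738151) (l 104387781319)))) (b (b (b (l 137136949191) (l 4)) (l 4)) (l 4))) (b (b (l 16762736) (b (l 16755648) (l 16764888))) (b (b (b (l 16771120) (l 57143158247)) (a (b (l 105461530311) (l 4)) (b (l 16775320) (l 102777182823)))) (l 4))))) (l 4)), by decide +kernel⟩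

def k2_pm_213_t : ∃ t, chk3 f_pm_213_t t 5 3 1 = true :=
  ⟨(b (b (b (a (b (l 16711608) (l 16722368)) (a (l 16691608) (l 16675576))) (a (b (a (l 16740648) (l 16725880)) (l 16767208)) (b (l 16716832) (l 16724752)))) (b (a (a (b (l 16761928) (b (l 16767960) (l 16771608))) (b (l 16751792) (l 16761392))) (b (a (l 16743288) (l 16735560)) (a (l 16754272) (l 16748152)))) (a (b (a (a (b (l 16777120) (l 104924655671)) (b (l 16772592) (l 16775600))) (l 16769104)) (a (a (l 4) (b (l 96334728775) (l 4))) (b (l 16773400) (a (l 67343708151) (l 16774352))))) (b (a (l 16763248) (l 16758152)) (a (l 16769832) (l 16765816)))))) (b (b (a (a (l 4) (b (b (a (b (l 100092828839) (l 4)) (l 16776640)) (c (l 137673818871) (l 138747549463))) (l 4))) (b (a (b (l 16773512) (a (l 16776104) (l 16774528))) (l 16771456)) (a (a (b (b (l 16767392) (l 95797862775)) (b (l 115125204887) (l 4))) (b (l 16776040) (c (l 66806838551) (l 66806837799)))) (b (l 16774424) (a (l 16776240) (l 16775120)))))) (a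 (l 4) (b (a (a (l 4) (b (c (l 162369883719) (l 164517366711)) (l 4))) (b (a (a (b (l 16777096) (l 114051533255)) (l 16776864)) (l 16776184)) (a (a (l 4) (b (l 70028075207) (l 102777187175))) (a (b (l 16776960) (l 66269979655)) (l 16776744))))) (a (l 4) (b (a (l 4) (b (a (l 101703444071) (l 63048755207)) (c (l 95260976855) (l 97945332535)))) (l 4)))))) (l 4))), by decide +kernel⟩

def k3_pm_213_t : ∃ t, chk3 f_pm_213_t t 3 2 1 = true :=
  ⟨(b (l 6) (a (b (l 6) (l 6)) (l 6))), by decide +kernel⟩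

def k4_pm_213_t : ∃ t, chk3 f_pm_213_t t 6 6 1 = true :=
  ⟨(b (b (a (b (l 16640560) (a (l 16667304) (l 16651880))) (l 6)) (a (b (a (l 16687488) (l 16676712)) (a (l 16711416) (l 16700760))) (b (a (l 16670016) (l 6)) (a (l 16690816) (l 16681688))))) (a (b (a (b (l 16726888) (l 16740488)) (b (l 16716584) (l 16730456))) (a (b (l 16751488) (l 16760152)) (b (l 16742784) (l 16753024)))) (b (a (l 16713776) (b (l 16696640) (l 16710000))) (a (b (l 16732560) (a (l 16745648) (l 16740296))) (b (l 16721904) (b (l 16729824) (l 16735080))))))), by decide +kernel⟩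

def k5_pm_213_t : ∃ t, chk3 f_pm_213_t t 6 14 1 = true :=
  ⟨(b (a (b (a (l 16745736) (b (l 16758536) (l 16761624))) (a (b (l 16749168) (l 16772120)) (b (l 16764504) (l 16767168)))) (a (b (a (b (l 16752728) (l 16757064)) (l 16750360)) (a (b (l 16760640) (l 16764192)) (b (l 16757488) (l 16762656)))) (b (b (l 16740320) (l 16745904)) (a (l 16756472) (l 16752784))))) (a (b (a (b (a (l 16774760) (l 16772768)) (a (l 16776048) (l 16774696))) (b (a (l 16770744) (l 16769040)) (c (l 16776784) (l 16768560)))) (a (b (a (a (b (l 16776944) (l 45868887511)) (l 16776800)) (l 16776224)) (a (a (b (c (l 16760864) (l 100629707863)) (l 4)) (b (l 43184533687) (c (l 101703448647) (l 103850932471)))) (b (l 16776968) (c (l 16777984) (l 16776888))))) (b (a (l 16775320) (l 16753744)) (c (a (l 16778712) (l 16779736)) (a (l 16774992) (l 16773816)))))) (b (a (b (a (l 16767816) (l 16767304)) (a (l 16771336) (l 16771136))) (a (b (l 16764840) (l 16738936)) (b (l 16761728) (l 16767592)))) (a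 (b (c (l 16759264) (l 16769240)) (c (l 16782016) (l 16772744))) (a (b (c (l 16782128) (l 16767920)) (l 16757016)) (b (l 16751648) (a (l 16746664) (l 16755728)))))))), by decide +kernel⟩

def k6_pm_213_t : ∃ t, chk3 f_pm_213_t t 6 60 1 = true :=
  ⟨(a (a (b (a (l 4) (b (c (a (l 104924673463) (l 16777880)) (a (l 107609027719) (l 16777280))) (a (l 4) (c (l 109219639975) (l 111367123959))))) (l 4)) (b (a (b (l 16777400) (c (l 16778192) (l 16777104))) (c (l 16779664) (l 16775928))) (a (b (c (a (l 115125218583) (l 16778056)) (a (l 117272702535) (l 16777520))) (a (l 4) (b (c (l 16764656) (l 16764552)) (l 4)))) (b (l 16772608) (a (c (l 52848209783) (l 52311338823)) (l 16777776)))))) (c (a (b (a (l 16781320) (l 16783144)) (a (l 16780240) (l 16782192))) (b (a (l 16784800) (l 16765512)) (a (l 16783960) (l 16764480)))) (a (b (a (l 16775416) (l 16775064)) (a (l 16776816) (l 16776760))) (b (a (l 16774536) (l 16753152)) (a (l 16755528) (l 16775960)))))), by decide +kernel⟩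

def k7_pm_213_t : ∃ t, chk3 f_pm_213_t t 6 61 1 = true :=
  ⟨(a (b (a (l 4) (a (l 4) (b (b (a (c (l 125862646279) (l 127473258711)) (l 16777568)) (a (l 4) (c (l 16765952) (l 76470530263)))) (a (l 4) (b (c (l 136600061607) (l 138747544855)) (l 4)))))) (l 4)) (a (b (a (b (c (l 16778992) (l 16777312)) (b (c (l 16778376) (l 16769640)) (a (c (l 94724139223) (c (l 16765368) (l 95797879479))) (l 16777744)))) (b (c (l 16781040) (l 16777480)) (c (l 16779984) (l 16777616)))) (a (b (a (a (l 4) (c (l 268670327239) (l 271354681191))) (b (c (l 16777664) (l 61975019159)) (a (l 4) (c (l 16776192) (l 102777206727))))) (l 4)) (b (c (a (l 16778288) (l 16779304)) (a (l 24394061319) (l 16777664))) (a (b (c (a (l 122104556983) (l 16777824)) (c (l 86671076935) (l 86134205751))) (a (l 4) (c (l 160222389111) (l 156464292583)))) (b (c (l 16778328) (l 16777520)) (c (l 59290665687) (a (l 76470536583) (l 16777416)))))))) (b (a (b (c (l 16782864) (l 16777400)) (c (l 16781920) (l 16777752)))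 (b (c (l 16784512) (l 16777160)) (c (l 16783680) (l 16777704)))) (b (a (c (l 16780864) (l 16777936)) (c (l 16782768) (l 16778120))) (a (c (c (l 16780032) (l 16779192)) (b (l 16777904) (l 16777840))) (c (l 16781704) (l 16778344))))))), by decide +kernel⟩

def k8_pm_213_t : ∃ t, chk3 f_pm_213_t t 6 31 1 = true :=
  ⟨(b (a (l 4) (b (a (b (a (l 4) (a (l 4) (b (c (a (l 173644158599) (l 101703465575)) (a (l 169349191015) (b (l 16777320) (l 16770328)))) (l 4)))) (l 4)) (a (a (b (b (c (l 16778056) (l 16777536)) (a (b (c (l 16776440) (l 16776416)) (l 4)) (c (l 16777736) (l 64659378631)))) (b (b (c (l 152169320039) (l 275112780727)) (l 4)) (l 4))) (b (c (l 16778736) (l 16772488)) (b (b (c (l 16777896) (l 16777560)) (a (c (l 16770856) (l 128010142951)) (l 16777544))) (a (l 4) (c (b (l 16776576) (l 187602809255)) (b (l 16771344) (l 183844712871))))))) (b (c (c (l 16780952) (l 16779928)) (c (l 16778864) (l 16777752))) (b (c (l 16779352) (l 16778080)) (a (b (l 16775240) (c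 (l 16777960) (l 57680057463))) (b (l 16778704) (l 16778416))))))) (a (l 4) (a (l 4) (b (b (a (b (c (a (l 154316814727) (l 16777688)) (a (l 152169330855) (l 16777536))) (a (l 4) (c (l 138210689191) (l 137136947223)))) (c (l 16778208) (l 16772456))) (a (l 4) (b (a (c (l 118346467687) (c (l 16771192) (l 16771176))) (l 16777632)) (a (l 4) (c (l 102240342247) (l 101703472519)))))) (b (b (a (l 4) (a (l 4) (c (l 201561452135) (l 198877097335)))) (l 4)) (l 4))))))) (l 4)), by decide +kernel⟩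

def k9_pm_213_t : ∃ t, chk3 f_pm_213_t t 7 6 1 = true :=
  ⟨(b (l 6) (a (b (a (b (l 16687064) (l 16699992)) (b (l 6) (a (l 16674576) (l 6)))) (a (b (b (l 16687632) (l 16693344)) (b (l 16699320) (l 16705008))) (b (a (l 16686992) (b (a (l 16704400) (l 16704976)) (l 16711488))) (a (b (l 16717216) (l 16723872)) (b (l 16718408) (l 16725504)))))) (b (l 6) (a (b (b (l 6) (a (a (l 16713120) (l 16714768)) (c (l 16720416) (l 16714968)))) (a (b (a (l 16720288) (l 16722232)) (a (l 16727496) (l 16729480))) (c (b (l 16727928) (l 16735136)) (b (l 16722880) (l 16730480))))) (b (l 6) (a (c (b (l 16732416) (l 16739432)) (a (l 16729528) (b (l 16727336) (l 16735040)))) (b (l 6) (c (a (l 16742408) (l 16744320)) (a (l 16736744) (c (l 16739800) (l 16736920))))))))))), by decide +kernel⟩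

def k10_pm_213_t : ∃ t, chk3 f_pm_213_t t 14 14 1 = true :=
  ⟨(b (a (b (a (l 16715688) (l 16713376)) (a (l 16728304) (b (l 16743968) (l 16750336)))) (b (a (b (l 16730720) (l 16737464)) (b (l 16732480) (l 16755024))) (a (b (l 16744056) (l 16750256)) (c (b (l 16748704) (l 16754776)) (b (l 16742712) (l 16748624)))))) (b (a (a (l 16732584) (b (l 16756304) (l 16761880))) (a (c (l 16762968) (l 16733664)) (c (b (l 16760440) (l 16765664)) (b (l 16754136) (l 16759224))))) (a (a (b (l 16769528) (c (l 16780720) (l 16767912))) (b (l 16746080) (b (l 16749632) (l 16751928)))) (a (b (c (l 16770672) (l 16762064)) (c (l 16775496) (l 16766704))) (b (c (l 16770688) (l 16764128)) (c (l 16775448) (l 16768768))))))), by decide +kernel⟩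

def k11_pm_213_t : ∃ t, chk3 f_pm_213_t t 15 14 1 = true :=
  ⟨(b (a (b (a (c (a (l 16740144) (l 16741808)) (b (l 16733424) (l 16739952))) (c (b (l 16741824) (l 16748048)) (b (l 16737544) (l 16744112)))) (a (c (b (l 16750256) (l 16755848)) (a (l 16748032) (b (l 16746880) (l 16752416)))) (c (b (l 16753696) (l 16759040)) (b (l 16750080) (l 16755704))))) (b (a (c (b (l 16745960) (l 16751944)) (b (a (l 16740392) (l 16742216)) (a (l 16747024) (l 16748848)))) (c (a (b (l 16748720) (l 16754656)) (b (l 16750552) (l 16756432))) (b (a (c (l 16745048) (l 16742744)) (c (l 16746744) (l 16744352))) (a (l 16750632) (c (l 16753336) (l 16751416)))))) (a (c (b (l 16757584) (l 16762880)) (b (a (l 16753128) (l 16755120)) (a (l 16758896) (l 16761064)))) (a (c (l 16763048) (b (l 16757024) (l 16763184))) (c (b (l 16762104) (l 16767496)) (b (c (l 16759696) (l 16758248)) (l 16765232))))))) (a (b (a (c (b (l 16761272) (l 16766480)) (b (l 16772712) (l 16762040))) (b (c (l 16764008) (l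 16760912)) (c (l 16768832) (l 16765880)))) (a (c (b (l 16771392) (l 16776184)) (b (l 16766888) (l 16771632))) (a (b (l 16791800) (a (l 16774984) (l 16775560))) (b (l 16773016) (l 16777216))))) (b (a (c (b (l 16767984) (l 16772784)) (b (a (l 16764448) (l 16766768)) (l 16791944))) (b (c (l 16771712) (a (l 16768992) (l 16771096))) (c (a (l 16775448) (l 16777128)) (a (l 16774368) (l 16776528))))) (a (a (b (l 16775304) (l 16779512)) (c (l 16780088) (a (l 16778672) (l 16758776)))) (b (c (a (l 16779656) (l 16780680)) (a (l 16779200) (l 16780800))) (c (a (l 16782736) (l 16783056)) (a (l 16782808) (l 16783776)))))))), by decide +kernel⟩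

def k12_pm_213_t : ∃ t, chk3 f_pm_213_t t 14 30 1 = true :=
  ⟨(b (a (a (b (a (b (l 16778448) (l 16758840)) (l 16756608)) (a (b (l 16760104) (l 16781280)) (b (l 16779848) (l 16760224)))) (b (b (l 16753984) (l 16776744)) (c (l 16784240) (l 16774272)))) (a (b (a (l 16754312) (l 16754528)) (b (l 16757280) (l 16759072))) (b (c (l 16779808) (l 16773240)) (b (l 16758568) (l 16760424))))) (a (b (a (b (a (l 16781448) (l 16761192)) (a (l 16760496) (l 16761120))) (a (b (l 16760720) (a (l 16761976) (l 16762048))) (l 16761336))) (a (b (a (l 16760368) (l 16761064)) (c (l 16783840) (l 16768392))) (b (a (l 16762248) (a (l 16763160) (l 16763184))) (a (l 16767216) (b (l 16763840) (l 16763592)))))) (b (a (c (l 16786192) (l 16757768)) (b (l 16762320) (l 16763800))) (a (b (l 16763960) (a (b (l 16785424) (l 16764768)) (l 16786240))) (c (l 16789056) (a (l 16783392) (l 16784376))))))), by decide +kernel⟩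

def k13_pm_213_t : ∃ t, chk3 f_pm_213_t t 15 30 1 = true :=
  ⟨(a (b (a (b (a (l 16756888) (l 16757792)) (a (l 16760952) (l 16761696))) (b (c (l 16760688) (a (l 16778200) (l 16779856))) (a (l 16769288) (c (l 16784464) (l 16782496))))) (a (b (c (l 16766216) (a (l 16782840) (l 16783704))) (c (c (l 16768648) (l 16766904)) (c (l 16765088) (l 16763200)))) (b (a (c (l 16786656) (l 16783920)) (c (l 16785696) (l 16783816))) (c (c (l 16766296) (l 16775728)) (a (l 16784776) (l 16763072)))))) (b (a (b (a (l 16761584) (c (l 16784120) (l 16783816))) (c (l 16764160) (a (l 16783928) (l 16784968)))) (b (a (c (l 16784328) (l 16784800)) (c (l 16783976) (l 16785176))) (a (c (l 16784712) (l 16785448)) (c (l 16783872) (b (l 16785432) (l 16785312)))))) (a (b (a (c (l 16785280) (l 16784248)) (c (l 16784936) (l 16784880))) (a (c (l 16771568) (b (l 16783704) (l 16783152))) (c (l 16794392) (b (l 16784168) (l 16783432))))) (b (a (c (l 16784168) (l 16768000)) (c (b (l 16783232) (l 16782696))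 (b (l 16784952) (l 16784496)))) (a (c (b (l 16783288) (l 16782616)) (b (l 16784184) (l 16783480))) (c (b (l 16782096) (a (l 16781752) (l 16781152))) (b (l 16783944) (l 16793808)))))))), by decide +kernel⟩

def k14_pm_213_t : ∃ t, chk3 f_pm_213_t t 28 62 1 = true :=
  ⟨(b (b (a (c (l 16782680) (c (l 16779984) (l 16757120))) (c (l 16785856) (l 16770296))) (a (c (b (l 16781664) (l 16780888)) (b (l 16778976) (l 16778808))) (c (a (l 16783464) (l 16785544)) (a (l 16769592) (l 16760544))))) (b (a (c (b (l 16774792) (a (l 16778456) (l 16779736))) (b (l 16776416) (a (l 16777840) (l 16778504)))) (c (b (l 16783288) (l 16777040)) (b (l 16780544) (a (l 16779520) (l 16780840))))) (a (a (a (b (c (b (l 16777160) (l 168812327607)) (b (l 87207958375) (c (l 168812327975) (l 168275457255)))) (l 4)) (b (b (l 16777824) (c (l 16777480) (l 16772656))) (a (l 4) (b (c (l 148411240023) (l 148948110823)) (l 4))))) (b (c (l 16778736) (l 16778056)) (c (b (l 36742094263) (a (c (l 156464298439)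 (l 156464298359)) (l 16777752))) (a (b (l 16777592) (b (l 140895047527) (l 187602812519))) (b (l 16777808) (l 16777584)))))) (b (c (a (l 16780256) (l 16782056)) (a (l 16779008) (l 16780256))) (c (a (l 16779064) (l 16780720)) (a (l 16773128) (l 16779488))))))), by decide +kernel⟩

def k15_pm_213_t : ∃ t, chk3 f_pm_213_t t 29 62 1 = true :=
  ⟨(b (a (b (a (b (a (l 16786024) (l 16765504)) (a (l 16785664) (l 16765848))) (b (l 16786952) (l 16766176))) (a (b (l 16764840) (l 16764344)) (b (a (l 16766336) (l 16787544)) (a (l 16786768) (l 16766496))))) (b (b (l 16766568) (l 16766728)) (a (l 16787688) (l 16766640)))) (b (a (a (c (l 16775328) (l 16782520)) (b (c (l 16788648) (l 16784448)) (l 16775040))) (a (b (a (l 16771648) (l 16787536)) (a (l 16776448) (c (l 16789008) (l 16785032)))) (l 16776776))) (c (b (a (l 16779680) (a (l 16787760) (l 16777592))) (a (a (l 16782480) (l 16784296)) (a (l 16785968) (a (l 16786648) (l 16787432))))) (a (b (a (l 16781592) (l 16782960)) (a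 (l 16780744) (l 16782056))) (a (b (l 16784552) (l 16783352)) (b (a (l 16784768) (l 16784944)) (a (l 16784440) (l 16784328)))))))), by decide +kernel⟩

def k16_pm_213_t : ∃ t, chk3 f_pm_213_t t 14 63 1 = true :=
  ⟨(b (a (b (a (a (l 4) (a (l 4) (b (b (b (c (l 129620759655) (l 131231372279)) (c (l 185455329575) (l 187065942071))) (l 4)) (l 4)))) (a (b (c (b (l 16778128) (a (a (l 185992200359) (l 125862668855)) (l 16777808))) (b (a (l 16777600) (l 16778000)) (a (b (a (l 16770968) (l 16777408)) (l 188676555063)) (l 16777624)))) (a (l 4) (b (b (c (l 126399534903) (a (l 16772344) (l 16777432))) (c (l 190824038967) (a (l 4) (l 180623497623)))) (l 4)))) (b (c (l 16775328) (c (l 16778760) (l 16778400))) (a (c (b (l 16777832) (b (l 131768249031) (l 197266489415))) (b (l 16777648) (c (b (l 133915727831) (l 199950844135)) (b (l 16771376) (l 200487714919))))) (c (b (l 16778528) (l 16777832)) (b (l 16778112) (c (l 16777712) (l 16777624)))))))) (a (l 4) (b (b (a (l 4) (a (l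 4) (b (c (a (l 190824044167) (l 16777232)) (a (l 194582140583) (l 16777272))) (a (l 4) (c (l 196729623639) (l 200487720199)))))) (l 4)) (l 4)))) (a (a (b (b (c (l 16780920) (l 16774512)) (c (b (l 16779728) (l 16778912)) (b (l 16778960) (l 16778408)))) (b (b (a (b (l 16777816) (c (l 16777424) (l 16777496))) (b (l 16778464) (l 16778112))) (a (b (c (a (l 203172074119) (l 16777032)) (a (l 207467041399) (l 16777048))) (c (l 469460053447) (l 471607536775))) (b (l 16776448) (a (c (l 16776888) (l 126936409127)) (l 14))))) (a (l 4) (a (a (l 4) (l 14)) (l 14))))) (b (b (c (l 16782648) (l 16781000)) (c (b (l 16781368) (l 16780504)) (b (l 16780152) (l 16779560)))) (b (b (c (l 16779632) (l 16778952)) (l 14)) (l 14)))) (b (b (b (a (l 16778464) (a (l 16784792) (l 16777696))) (l 14)) (l 14)) (l 14)))) (a (l 4) (a (a (l 4) (l 14)) (l 14)))), by decide +kernel⟩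

def k17_pm_213_t : ∃ t, chk3 f_pm_213_t t 15 62 1 = true :=
  ⟨(b (a (a (b (c (l 16788864) (l 16764536)) (a (l 16766320) (l 16786616))) (a (b (l 16785944) (l 16775064)) (b (l 16774104) (a (l 16784496) (l 16783696))))) (a (a (b (c (l 16783776) (l 16772040)) (c (l 16783152) (a (l 16782080) (l 16781520)))) (c (b (l 16782840) (l 16782048)) (b (l 16782592) (l 16781680)))) (a (c (b (l 16781912) (a (l 16781440) (l 16781000))) (b (l 16782720) (a (l 16781888) (l 16781984)))) (c (b (a (l 16781136) (l 16780592)) (a (l 16780544) (l 16780048))) (b (a (l 16782712) (l 16782680)) (a (l 16782056) (l 16782080))))))) (c (a (a (b (l 16774800) (a (l 16787432) (l 16786432))) (b (a (l 16786008) (l 16784344)) (a (l 16785104) (l 16773096)))) (a (a (b (l 16772056) (l 16776672)) (b (a (l 16781416) (l 16781096)) (a (b (l 16780872) (l 16780576)) (l 16780368)))) (a (b (a (l 16780752) (l 16780376)) (a (l 16780080) (c (l 16779624) (l 16779920)))) (b (a (l 16779968) (c (l 16779112) (l 16779976)))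 (a (c (l 16779152) (l 16779696)) (c (l 16778656) (l 16779448))))))) (a (a (b (l 16774504) (a (l 16784552) (l 16783992))) (b (a (l 16783816) (l 16782600)) (a (l 16772600) (l 16771480)))) (a (a (b (a (l 16781544) (l 16780880)) (l 16775432)) (b (a (l 16780608) (l 16780864)) (a (b (l 16779976) (l 16779680)) (l 16779968)))) (a (b (a (l 16781072) (l 16781240)) (a (l 16780240) (b (l 16780664) (l 16780272)))) (b (a (l 16781368) (c (l 16780944) (l 16782016))) (a (c (l 16780320) (l 16781024)) (b (l 16780984) (l 16780648))))))))), by decide +kernel⟩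

def k18_pm_213_t : ∃ t, chk3 f_pm_213_t t 15 63 1 = true :=
  ⟨(b (b (b (b (a (a (a (l 16774792) (l 16784608)) (a (l 16783536) (l 16771816))) (a (a (l 16775720) (a (l 16779920) (l 16779656))) (a (c (a (l 16779672) (l 16779392)) (l 16785104)) (c (a (l 16779088) (l 16778744)) (a (l 16780208) (l 16780392)))))) (l 14)) (l 14)) (l 14)) (l 14)), by decide +kernel⟩

theorem s19_pm_213_t : ∃ t, chk3 f_pm_213_t t 15 31 1 = true := ex3_b k17_pm_213_t k18_pm_213_t

theorem s20_pm_213_t : ∃ t, chk3 f_pm_213_t t 14 62 1 = true := ex3_a k14_pm_213_t k15_pm_213_t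

theorem s21_pm_213_t : ∃ t, chk3 f_pm_213_t t 14 31 1 = true := ex3_b s20_pm_213_t k16_pm_213_t

theorem s22_pm_213_t : ∃ t, chk3 f_pm_213_t t 7 31 1 = true := ex3_a s21_pm_213_t s19_pm_213_t

theorem s23_pm_213_t : ∃ t, chk3 f_pm_213_t t 7 30 1 = true := ex3_a k12_pm_213_t k13_pm_213_t

theorem s24_pm_213_t : ∃ t, chk3 f_pm_213_t t 7 15 1 = true := ex3_b s23_pm_213_t s22_pm_213_t

theorem s25_pm_213_t : ∃ t, chk3 f_pm_213_t t 7 14 1 = true := ex3_a k10_pm_213_t k11_pm_213_t

theorem s26_pm_213_t : ∃ t, chk3 f_pm_213_t t 7 7 1 = true := ex3_b s25_pm_213_t s24_pm_213_t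

theorem s27_pm_213_t : ∃ t, chk3 f_pm_213_t t 7 3 1 = true := ex3_b k9_pm_213_t s26_pm_213_t

theorem s28_pm_213_t : ∃ t, chk3 f_pm_213_t t 6 30 1 = true := ex3_b k6_pm_213_t k7_pm_213_t

theorem s29_pm_213_t : ∃ t, chk3 f_pm_213_t t 6 15 1 = true := ex3_b s28_pm_213_t k8_pm_213_t

theorem s30_pm_213_t : ∃ t, chk3 f_pm_213_t t 6 7 1 = true := ex3_b k5_pm_213_t s29_pm_213_t

theorem s31_pm_213_t : ∃ t, chk3 f_pm_213_t t 6 3 1 = true := ex3_b k4_pm_213_t s30_pm_213_t

theorem s32_pm_213_t : ∃ t, chk3 f_pm_213_t t 3 3 1 = true := ex3_a s31_pm_213_t s27_pm_213_t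

theorem s33_pm_213_t : ∃ t, chk3 f_pm_213_t t 3 1 1 = true := ex3_b k3_pm_213_t s32_pm_213_t

theorem s34_pm_213_t : ∃ t, chk3 f_pm_213_t t 2 3 1 = true := ex3_a k1_pm_213_t k2_pm_213_t

theorem s35_pm_213_t : ∃ t, chk3 f_pm_213_t t 2 1 1 = true := ex3_b k0_pm_213_t s34_pm_213_t

theorem s36_pm_213_t : ∃ t, chk3 f_pm_213_t t 1 1 1 = true := ex3_a s35_pm_213_t s33_pm_213_t

theorem c_pm_213_t : CertNE 0 536870912 536870912 536870912 780900216 37827925 3 eng mog cd0q2 cd0q1 pd3 true true false .pnn 2 1 3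
    ndB0q2 ndB0q1 pcB3 cut_pm_213_t Ext.none :=
  certNE1 (fam := true) (s1 := true) (s2 := false) (a := 2) (b := 1) (c := 3) (cn := .pnn) (n1 := ndB0q2) (n2 := ndB0q1) (pc := pcB3) (cut := cut_pm_213_t) (xt := Ext.none) (P1 := 0) (W1 := 536870912) (P2 := 536870912) (W2 := 536870912) (P3 := 780900216) (W3 := 37827925) (N0 := 3) (En := eng) (mo := mog) (C1 := cd0q2) (C2 := cd0q1) (C3 := pd3)
    rfl (fun _ => rfl) s36_pm_213_t

noncomputable def cut_mm_001_s : Cut := Cut.of [[⟨4, 0, 0, 1449551462⟩]]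

noncomputable def f_mm_001_s : ℕ → ℕ → ℕ → ℕ → Bool := onCell 0 536870912 0 536870912 780900216 37827925
    (rowNE 3 eng mog cd0q0 cd0q0 pd1 0 true false false .up 0 0 1 (qsf 0 536870912 0 536870912 1) ndB0q0 ndB0q0 pcB1 cut_mm_001_s Ext.none)

def k0_mm_001_s : ∃ t, chk3 f_mm_001_s t 1 1 1 = true :=
  ⟨(l 4), by decide +kernel⟩

theorem c_mm_001_s : CertNE 0 536870912 0 536870912 780900216 37827925 3 eng mog cd0q0 cd0q0 pd1 true false false .up 0 0 1
    ndB0q0 ndB0q0 pcB1 cut_mm_001_s Ext.none :=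
  certNE0 (fam := true) (s1 := false) (s2 := false) (a := 0) (b := 0) (c := 1) (cn := .up) (n1 := ndB0q0) (n2 := ndB0q0) (pc := pcB1) (cut := cut_mm_001_s) (xt := Ext.none) (P1 := 0) (W1 := 536870912) (P2 := 0) (W2 := 536870912) (P3 := 780900216) (W3 := 37827925) (N0 := 3) (En := eng) (mo := mog) (C1 := cd0q0) (C2 := cd0q0) (C3 := pd1)
    rfl k0_mm_001_s

noncomputable def cut_mm_001_t : Cut := Cut.of [[⟨3, 0, 0, 2845415833⟩]]

noncomputable def f_mm_001_t : ℕ → ℕ → ℕ → ℕ → Bool := onCell 0 536870912 0 536870912 780900216 37827925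
    (rowNE 3 eng mog cd0q0 cd0q0 pd1 0 true false false .up 0 0 1 (qsf 0 536870912 0 536870912 1) ndB0q0 ndB0q0 pcB1 cut_mm_001_t Ext.none)

def k0_mm_001_t : ∃ t, chk3 f_mm_001_t t 1 1 1 = true :=
  ⟨(l 4), by decide +kernel⟩

theorem c_mm_001_t : CertNE 0 536870912 0 536870912 780900216 37827925 3 eng mog cd0q0 cd0q0 pd1 true false false .up 0 0 1
    ndB0q0 ndB0q0 pcB1 cut_mm_001_t Ext.none :=
  certNE0 (fam := true) (s1 := false) (s2 := false) (a := 0) (b := 0) (c := 1) (cn := .up) (n1 := ndB0q0) (n2 := ndB0q0) (pc := pcB1) (cut := cut_mm_001_t) (xt := Ext.none) (P1 := 0) (W1 := 536870912) (P2 := 0) (W2 := 536870912) (P3 := 780900216) (W3 := 37827925) (N0 := 3) (En := eng) (mo := mog) (C1 := cd0q0) (C2 := cd0q0) (C3 := pd1)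
    rfl k0_mm_001_t

noncomputable def cut_mm_011_s : Cut := Cut.of [[⟨4, 0, 0, 1449551462⟩]]

noncomputable def f_mm_011_s : ℕ → ℕ → ℕ → ℕ → Bool := onCell 0 536870912 536870912 536870912 780900216 37827925
    (rowNE 3 eng mog cd0q0 cd0q1 pd1 0 true false false .pnn 0 1 1 (qsf 0 536870912 536870912 536870912 1) ndB0q0 ndB0q1 pcB1 cut_mm_011_s Ext.none)

def k0_mm_011_s : ∃ t, chk3 f_mm_011_s t 1 1 1 = true :=
  ⟨(l 6), by decide +kernel⟩

theorem c_mm_011_s : CertNE 0 536870912 536870912 536870912 780900216 37827925 3 eng mog cd0q0 cd0q1 pd1 true false false .pnn 0 1 1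
    ndB0q0 ndB0q1 pcB1 cut_mm_011_s Ext.none :=
  certNE0 (fam := true) (s1 := false) (s2 := false) (a := 0) (b := 1) (c := 1) (cn := .pnn) (n1 := ndB0q0) (n2 := ndB0q1) (pc := pcB1) (cut := cut_mm_011_s) (xt := Ext.none) (P1 := 0) (W1 := 536870912) (P2 := 536870912) (W2 := 536870912) (P3 := 780900216) (W3 := 37827925) (N0 := 3) (En := eng) (mo := mog) (C1 := cd0q0) (C2 := cd0q1) (C3 := pd1)
    rfl k0_mm_011_s

noncomputable def cut_mm_011_t : Cut := Cut.of [[⟨3, 0, 0, 2845415833⟩]]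

noncomputable def f_mm_011_t : ℕ → ℕ → ℕ → ℕ → Bool := onCell 0 536870912 536870912 536870912 780900216 37827925
    (rowNE 3 eng mog cd0q0 cd0q1 pd1 0 true false false .pnn 0 1 1 (qsf 0 536870912 536870912 536870912 1) ndB0q0 ndB0q1 pcB1 cut_mm_011_t Ext.none)

def k0_mm_011_t : ∃ t, chk3 f_mm_011_t t 1 1 1 = true :=
  ⟨(b (l 4) (l 5)), by decide +kernel⟩

theorem c_mm_011_t : CertNE 0 536870912 536870912 536870912 780900216 37827925 3 eng mog cd0q0 cd0q1 pd1 true false false .pnn 0 1 1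
    ndB0q0 ndB0q1 pcB1 cut_mm_011_t Ext.none :=
  certNE0 (fam := true) (s1 := false) (s2 := false) (a := 0) (b := 1) (c := 1) (cn := .pnn) (n1 := ndB0q0) (n2 := ndB0q1) (pc := pcB1) (cut := cut_mm_011_t) (xt := Ext.none) (P1 := 0) (W1 := 536870912) (P2 := 536870912) (W2 := 536870912) (P3 := 780900216) (W3 := 37827925) (N0 := 3) (En := eng) (mo := mog) (C1 := cd0q0) (C2 := cd0q1) (C3 := pd1)
    rfl k0_mm_011_t

noncomputable def cut_mm_012_s : Cut := Cut.of [[⟨4, 0, 0, 1449551462⟩]]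

noncomputable def f_mm_012_s : ℕ → ℕ → ℕ → ℕ → Bool := onCell 0 536870912 536870912 536870912 780900216 37827925
    (rowNE 3 eng mog cd0q0 cd0q1 pd2 0 true false false .pnp 0 1 2 (qsf 0 536870912 536870912 536870912 2) ndB0q0 ndB0q1 pcB2 cut_mm_012_s Ext.none)

def k0_mm_012_s : ∃ t, chk3 f_mm_012_s t 1 1 1 = true :=
  ⟨(l 6), by decide +kernel⟩

theorem c_mm_012_s : CertNE 0 536870912 536870912 536870912 780900216 37827925 3 eng mog cd0q0 cd0q1 pd2 true false false .pnp 0 1 2
    ndB0q0 ndB0q1 pcB2 cut_mm_012_s Ext.none :=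
  certNE0 (fam := true) (s1 := false) (s2 := false) (a := 0) (b := 1) (c := 2) (cn := .pnp) (n1 := ndB0q0) (n2 := ndB0q1) (pc := pcB2) (cut := cut_mm_012_s) (xt := Ext.none) (P1 := 0) (W1 := 536870912) (P2 := 536870912) (W2 := 536870912) (P3 := 780900216) (W3 := 37827925) (N0 := 3) (En := eng) (mo := mog) (C1 := cd0q0) (C2 := cd0q1) (C3 := pd2)
    rfl k0_mm_012_s

noncomputable def cut_mm_012_t : Cut := Cut.of [[⟨3, 0, 0, 2845415833⟩]]

noncomputable def f_mm_012_t : ℕ → ℕ → ℕ → ℕ → Bool := onCell 0 536870912 536870912 536870912 780900216 37827925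
    (rowNE 3 eng mog cd0q0 cd0q1 pd2 0 true false false .pnp 0 1 2 (qsf 0 536870912 536870912 536870912 2) ndB0q0 ndB0q1 pcB2 cut_mm_012_t Ext.none)

def k0_mm_012_t : ∃ t, chk3 f_mm_012_t t 1 1 1 = true :=
  ⟨(b (l 4) (l 5)), by decide +kernel⟩

theorem c_mm_012_t : CertNE 0 536870912 536870912 536870912 780900216 37827925 3 eng mog cd0q0 cd0q1 pd2 true false false .pnp 0 1 2
    ndB0q0 ndB0q1 pcB2 cut_mm_012_t Ext.none :=
  certNE0 (fam := true) (s1 := false) (s2 := false) (a := 0) (b := 1) (c := 2) (cn := .pnp) (n1 := ndB0q0) (n2 := ndB0q1) (pc := pcB2) (cut := cut_mm_012_t) (xt := Ext.none) (P1 := 0) (W1 := 536870912) (P2 := 536870912) (W2 := 536870912) (P3 := 780900216) (W3 := 37827925) (N0 := 3) (En := eng) (mo := mog) (C1 := cd0q0) (C2 := cd0q1) (C3 := pd2)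
    rfl k0_mm_012_t

noncomputable def cut_mm_022_s : Cut := Cut.of [[⟨4, 0, 0, 1449551462⟩]]

noncomputable def f_mm_022_s : ℕ → ℕ → ℕ → ℕ → Bool := onCell 0 536870912 0 536870912 780900216 37827925
    (rowNE 3 eng mog cd0q0 cd0q2 pd2 0 true false false .pp 0 2 2 (qsf 0 536870912 0 536870912 2) ndB0q0 ndB0q2 pcB2 cut_mm_022_s Ext.none)

def k0_mm_022_s : ∃ t, chk3 f_mm_022_s t 1 1 1 = true :=
  ⟨(l 5), by decide +kernel⟩

theorem c_mm_022_s : CertNE 0 536870912 0 536870912 780900216 37827925 3 eng mog cd0q0 cd0q2 pd2 true false false .pp 0 2 2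
    ndB0q0 ndB0q2 pcB2 cut_mm_022_s Ext.none :=
  certNE0 (fam := true) (s1 := false) (s2 := false) (a := 0) (b := 2) (c := 2) (cn := .pp) (n1 := ndB0q0) (n2 := ndB0q2) (pc := pcB2) (cut := cut_mm_022_s) (xt := Ext.none) (P1 := 0) (W1 := 536870912) (P2 := 0) (W2 := 536870912) (P3 := 780900216) (W3 := 37827925) (N0 := 3) (En := eng) (mo := mog) (C1 := cd0q0) (C2 := cd0q2) (C3 := pd2)
    rfl k0_mm_022_s

noncomputable def cut_mm_022_t : Cut := Cut.of [[⟨3, 0, 0, 2845415833⟩]]

noncomputable def f_mm_022_t : ℕ → ℕ → ℕ → ℕ → Bool := onCell 0 536870912 0 536870912 780900216 37827925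
    (rowNE 3 eng mog cd0q0 cd0q2 pd2 0 true false false .pp 0 2 2 (qsf 0 536870912 0 536870912 2) ndB0q0 ndB0q2 pcB2 cut_mm_022_t Ext.none)

def k0_mm_022_t : ∃ t, chk3 f_mm_022_t t 1 1 1 = true :=
  ⟨(l 5), by decide +kernel⟩

theorem c_mm_022_t : CertNE 0 536870912 0 536870912 780900216 37827925 3 eng mog cd0q0 cd0q2 pd2 true false false .pp 0 2 2
    ndB0q0 ndB0q2 pcB2 cut_mm_022_t Ext.none :=
  certNE0 (fam := true) (s1 := false) (s2 := false) (a := 0) (b := 2) (c := 2) (cn := .pp) (n1 := ndB0q0) (n2 := ndB0q2) (pc := pcB2) (cut := cut_mm_022_t) (xt := Ext.none) (P1 := 0) (W1 := 536870912) (P2 := 0) (W2 := 536870912) (P3 := 780900216) (W3 := 37827925) (N0 := 3) (En := eng) (mo := mog) (C1 := cd0q0) (C2 := cd0q2) (C3 := pd2)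
    rfl k0_mm_022_t

noncomputable def cut_mm_023_s : Cut := Cut.of [[⟨4, 0, 0, 1449551462⟩]]

noncomputable def f_mm_023_s : ℕ → ℕ → ℕ → ℕ → Bool := onCell 0 536870912 0 536870912 780900216 37827925
    (rowNE 3 eng mog cd0q0 cd0q2 pd3 0 true false false .up 0 2 3 (qsf 0 536870912 0 536870912 3) ndB0q0 ndB0q2 pcB3 cut_mm_023_s Ext.none)

def k0_mm_023_s : ∃ t, chk3 f_mm_023_s t 1 1 1 = true :=
  ⟨(l 5), by decide +kernel⟩

theorem c_mm_023_s : CertNE 0 536870912 0 536870912 780900216 37827925 3 eng mog cd0q0 cd0q2 pd3 true false false .up 0 2 3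
    ndB0q0 ndB0q2 pcB3 cut_mm_023_s Ext.none :=
  certNE0 (fam := true) (s1 := false) (s2 := false) (a := 0) (b := 2) (c := 3) (cn := .up) (n1 := ndB0q0) (n2 := ndB0q2) (pc := pcB3) (cut := cut_mm_023_s) (xt := Ext.none) (P1 := 0) (W1 := 536870912) (P2 := 0) (W2 := 536870912) (P3 := 780900216) (W3 := 37827925) (N0 := 3) (En := eng) (mo := mog) (C1 := cd0q0) (C2 := cd0q2) (C3 := pd3)
    rfl k0_mm_023_s

noncomputable def cut_mm_023_t : Cut := Cut.of [[⟨3, 0, 0, 2845415833⟩]]

noncomputable def f_mm_023_t : ℕ → ℕ → ℕ → ℕ → Bool := onCell 0 536870912 0 536870912 780900216 37827925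
    (rowNE 3 eng mog cd0q0 cd0q2 pd3 0 true false false .up 0 2 3 (qsf 0 536870912 0 536870912 3) ndB0q0 ndB0q2 pcB3 cut_mm_023_t Ext.none)

def k0_mm_023_t : ∃ t, chk3 f_mm_023_t t 1 1 1 = true :=
  ⟨(l 5), by decide +kernel⟩

theorem c_mm_023_t : CertNE 0 536870912 0 536870912 780900216 37827925 3 eng mog cd0q0 cd0q2 pd3 true false false .up 0 2 3
    ndB0q0 ndB0q2 pcB3 cut_mm_023_t Ext.none :=
  certNE0 (fam := true) (s1 := false) (s2 := false) (a := 0) (b := 2) (c := 3) (cn := .up) (n1 := ndB0q0) (n2 := ndB0q2) (pc := pcB3) (cut := cut_mm_023_t) (xt := Ext.none) (P1 := 0) (W1 := 536870912) (P2 := 0) (W2 := 536870912) (P3 := 780900216) (W3 := 37827925) (N0 := 3) (En := eng) (mo := mog) (C1 := cd0q0) (C2 := cd0q2) (C3 := pd3)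
    rfl k0_mm_023_t

noncomputable def cut_mm_101_s : Cut := Cut.of [[⟨4, 0, 0, 1449551462⟩], [⟨0, 1, 0, 67108864⟩, ⟨1, 0, 0, 67108864⟩, ⟨2, 1, 0, 67108864⟩]]

noncomputable def f_mm_101_s : ℕ → ℕ → ℕ → ℕ → Bool := onCell 536870912 536870912 0 536870912 780900216 37827925
    (rowNE 3 eng mog cd0q1 cd0q0 pd1 0 true false false .npn 1 0 1 (qsf 536870912 536870912 0 536870912 1) ndB0q1 ndB0q0 pcB1 cut_mm_101_s Ext.none)

def k0_mm_101_s : ∃ t, chk3 f_mm_101_s t 1 1 1 = true :=
  ⟨(l 6), by decide +kernel⟩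

theorem c_mm_101_s : CertNE 536870912 536870912 0 536870912 780900216 37827925 3 eng mog cd0q1 cd0q0 pd1 true false false .npn 1 0 1
    ndB0q1 ndB0q0 pcB1 cut_mm_101_s Ext.none :=
  certNE0 (fam := true) (s1 := false) (s2 := false) (a := 1) (b := 0) (c := 1) (cn := .npn) (n1 := ndB0q1) (n2 := ndB0q0) (pc := pcB1) (cut := cut_mm_101_s) (xt := Ext.none) (P1 := 536870912) (W1 := 536870912) (P2 := 0) (W2 := 536870912) (P3 := 780900216) (W3 := 37827925) (N0 := 3) (En := eng) (mo := mog) (C1 := cd0q1) (C2 := cd0q0) (C3 := pd1)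
    rfl k0_mm_101_s

noncomputable def cut_mm_101_t : Cut := Cut.of [[⟨3, 0, 0, 2845415833⟩], [⟨0, 1, 0, 67108864⟩, ⟨1, 0, 0, 67108864⟩, ⟨2, 1, 0, 67108864⟩]]

noncomputable def f_mm_101_t : ℕ → ℕ → ℕ → ℕ → Bool := onCell 536870912 536870912 0 536870912 780900216 37827925
    (rowNE 3 eng mog cd0q1 cd0q0 pd1 0 true false false .npn 1 0 1 (qsf 536870912 536870912 0 536870912 1) ndB0q1 ndB0q0 pcB1 cut_mm_101_t Ext.none)

def k0_mm_101_t : ∃ t, chk3 f_mm_101_t t 1 1 1 = true :=
  ⟨(a (l 4) (b (a (l 4) (b (a (l 4) (b (a (l 4) (b (l 14) (l 4))) (l 4))) (l 4))) (l 4))), by decide +kernel⟩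

theorem c_mm_101_t : CertNE 536870912 536870912 0 536870912 780900216 37827925 3 eng mog cd0q1 cd0q0 pd1 true false false .npn 1 0 1
    ndB0q1 ndB0q0 pcB1 cut_mm_101_t Ext.none :=
  certNE0 (fam := true) (s1 := false) (s2 := false) (a := 1) (b := 0) (c := 1) (cn := .npn) (n1 := ndB0q1) (n2 := ndB0q0) (pc := pcB1) (cut := cut_mm_101_t) (xt := Ext.none) (P1 := 536870912) (W1 := 536870912) (P2 := 0) (W2 := 536870912) (P3 := 780900216) (W3 := 37827925) (N0 := 3) (En := eng) (mo := mog) (C1 := cd0q1) (C2 := cd0q0) (C3 := pd1)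
    rfl k0_mm_101_t

noncomputable def cut_mm_102_s : Cut := Cut.of [[⟨4, 0, 0, 1449551462⟩], [⟨0, 1, 0, 67108864⟩, ⟨1, 0, 0, 67108864⟩, ⟨2, 1, 0, 67108864⟩]]

noncomputable def f_mm_102_s : ℕ → ℕ → ℕ → ℕ → Bool := onCell 536870912 536870912 0 536870912 780900216 37827925
    (rowNE 3 eng mog cd0q1 cd0q0 pd2 0 true false false .npp 1 0 2 (qsf 536870912 536870912 0 536870912 2) ndB0q1 ndB0q0 pcB2 cut_mm_102_s Ext.none)

def k0_mm_102_s : ∃ t, chk3 f_mm_102_s t 1 1 1 = true :=
  ⟨(l 6), by decide +kernel⟩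

theorem c_mm_102_s : CertNE 536870912 536870912 0 536870912 780900216 37827925 3 eng mog cd0q1 cd0q0 pd2 true false false .npp 1 0 2
    ndB0q1 ndB0q0 pcB2 cut_mm_102_s Ext.none :=
  certNE0 (fam := true) (s1 := false) (s2 := false) (a := 1) (b := 0) (c := 2) (cn := .npp) (n1 := ndB0q1) (n2 := ndB0q0) (pc := pcB2) (cut := cut_mm_102_s) (xt := Ext.none) (P1 := 536870912) (W1 := 536870912) (P2 := 0) (W2 := 536870912) (P3 := 780900216) (W3 := 37827925) (N0 := 3) (En := eng) (mo := mog) (C1 := cd0q1) (C2 := cd0q0) (C3 := pd2)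
    rfl k0_mm_102_s

noncomputable def cut_mm_102_t : Cut := Cut.of [[⟨3, 0, 0, 2845415833⟩], [⟨0, 1, 0, 67108864⟩, ⟨1, 0, 0, 67108864⟩, ⟨2, 1, 0, 67108864⟩]]

noncomputable def f_mm_102_t : ℕ → ℕ → ℕ → ℕ → Bool := onCell 536870912 536870912 0 536870912 780900216 37827925
    (rowNE 3 eng mog cd0q1 cd0q0 pd2 0 true false false .npp 1 0 2 (qsf 536870912 536870912 0 536870912 2) ndB0q1 ndB0q0 pcB2 cut_mm_102_t Ext.none)

def k0_mm_102_t : ∃ t, chk3 f_mm_102_t t 1 1 1 = true :=
  ⟨(a (l 4) (b (a (l 4) (b (a (l 4) (b (a (l 4) (b (l 14) (l 4))) (l 4))) (l 4))) (l 4))), by decide +kernel⟩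

theorem c_mm_102_t : CertNE 536870912 536870912 0 536870912 780900216 37827925 3 eng mog cd0q1 cd0q0 pd2 true false false .npp 1 0 2
    ndB0q1 ndB0q0 pcB2 cut_mm_102_t Ext.none :=
  certNE0 (fam := true) (s1 := false) (s2 := false) (a := 1) (b := 0) (c := 2) (cn := .npp) (n1 := ndB0q1) (n2 := ndB0q0) (pc := pcB2) (cut := cut_mm_102_t) (xt := Ext.none) (P1 := 536870912) (W1 := 536870912) (P2 := 0) (W2 := 536870912) (P3 := 780900216) (W3 := 37827925) (N0 := 3) (En := eng) (mo := mog) (C1 := cd0q1) (C2 := cd0q0) (C3 := pd2)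
    rfl k0_mm_102_t

noncomputable def cut_mm_112_s : Cut := Cut.of [[⟨4, 0, 0, 1449551462⟩]]

noncomputable def f_mm_112_s : ℕ → ℕ → ℕ → ℕ → Bool := onCell 536870912 536870912 536870912 536870912 780900216 37827925
    (rowNE 3 eng mog cd0q1 cd0q1 pd2 0 true false false .dn 1 1 2 (qsf 536870912 536870912 536870912 536870912 2) ndB0q1 ndB0q1 pcB2 cut_mm_112_s Ext.none)

def k0_mm_112_s : ∃ t, chk3 f_mm_112_s t 1 1 1 = true :=
  ⟨(l 4), by decide +kernel⟩

theorem c_mm_112_s : CertNE 536870912 536870912 536870912 536870912 780900216 37827925 3 eng mog cd0q1 cd0q1 pd2 true false false .dn 1 1 2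
    ndB0q1 ndB0q1 pcB2 cut_mm_112_s Ext.none :=
  certNE0 (fam := true) (s1 := false) (s2 := false) (a := 1) (b := 1) (c := 2) (cn := .dn) (n1 := ndB0q1) (n2 := ndB0q1) (pc := pcB2) (cut := cut_mm_112_s) (xt := Ext.none) (P1 := 536870912) (W1 := 536870912) (P2 := 536870912) (W2 := 536870912) (P3 := 780900216) (W3 := 37827925) (N0 := 3) (En := eng) (mo := mog) (C1 := cd0q1) (C2 := cd0q1) (C3 := pd2)
    rfl k0_mm_112_s

noncomputable def cut_mm_112_t : Cut := Cut.of [[⟨3, 0, 0, 2845415833⟩]]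

noncomputable def f_mm_112_t : ℕ → ℕ → ℕ → ℕ → Bool := onCell 536870912 536870912 536870912 536870912 780900216 37827925
    (rowNE 3 eng mog cd0q1 cd0q1 pd2 0 true false false .dn 1 1 2 (qsf 536870912 536870912 536870912 536870912 2) ndB0q1 ndB0q1 pcB2 cut_mm_112_t Ext.none)

def k0_mm_112_t : ∃ t, chk3 f_mm_112_t t 1 1 1 = true :=
  ⟨(l 4), by decide +kernel⟩

theorem c_mm_112_t : CertNE 536870912 536870912 536870912 536870912 780900216 37827925 3 eng mog cd0q1 cd0q1 pd2 true false false .dn 1 1 2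
    ndB0q1 ndB0q1 pcB2 cut_mm_112_t Ext.none :=
  certNE0 (fam := true) (s1 := false) (s2 := false) (a := 1) (b := 1) (c := 2) (cn := .dn) (n1 := ndB0q1) (n2 := ndB0q1) (pc := pcB2) (cut := cut_mm_112_t) (xt := Ext.none) (P1 := 536870912) (W1 := 536870912) (P2 := 536870912) (W2 := 536870912) (P3 := 780900216) (W3 := 37827925) (N0 := 3) (En := eng) (mo := mog) (C1 := cd0q1) (C2 := cd0q1) (C3 := pd2)
    rfl k0_mm_112_t

noncomputable def cut_mm_113_s : Cut := Cut.of [[⟨4, 0, 0, 1449551462⟩]]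

noncomputable def f_mm_113_s : ℕ → ℕ → ℕ → ℕ → Bool := onCell 536870912 536870912 536870912 536870912 780900216 37827925
    (rowNE 3 eng mog cd0q1 cd0q1 pd3 0 true false false .nn 1 1 3 (qsf 536870912 536870912 536870912 536870912 3) ndB0q1 ndB0q1 pcB3 cut_mm_113_s Ext.none)

def k0_mm_113_s : ∃ t, chk3 f_mm_113_s t 1 1 1 = true :=
  ⟨(l 4), by decide +kernel⟩

theorem c_mm_113_s : CertNE 536870912 536870912 536870912 536870912 780900216 37827925 3 eng mog cd0q1 cd0q1 pd3 true false false .nn 1 1 3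
    ndB0q1 ndB0q1 pcB3 cut_mm_113_s Ext.none :=
  certNE0 (fam := true) (s1 := false) (s2 := false) (a := 1) (b := 1) (c := 3) (cn := .nn) (n1 := ndB0q1) (n2 := ndB0q1) (pc := pcB3) (cut := cut_mm_113_s) (xt := Ext.none) (P1 := 536870912) (W1 := 536870912) (P2 := 536870912) (W2 := 536870912) (P3 := 780900216) (W3 := 37827925) (N0 := 3) (En := eng) (mo := mog) (C1 := cd0q1) (C2 := cd0q1) (C3 := pd3)
    rfl k0_mm_113_s

noncomputable def cut_mm_113_t : Cut := Cut.of [[⟨3, 0, 0, 2845415833⟩]]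

noncomputable def f_mm_113_t : ℕ → ℕ → ℕ → ℕ → Bool := onCell 536870912 536870912 536870912 536870912 780900216 37827925
    (rowNE 3 eng mog cd0q1 cd0q1 pd3 0 true false false .nn 1 1 3 (qsf 536870912 536870912 536870912 536870912 3) ndB0q1 ndB0q1 pcB3 cut_mm_113_t Ext.none)

def k0_mm_113_t : ∃ t, chk3 f_mm_113_t t 1 1 1 = true :=
  ⟨(l 4), by decide +kernel⟩

theorem c_mm_113_t : CertNE 536870912 536870912 536870912 536870912 780900216 37827925 3 eng mog cd0q1 cd0q1 pd3 true false false .nn 1 1 3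
    ndB0q1 ndB0q1 pcB3 cut_mm_113_t Ext.none :=
  certNE0 (fam := true) (s1 := false) (s2 := false) (a := 1) (b := 1) (c := 3) (cn := .nn) (n1 := ndB0q1) (n2 := ndB0q1) (pc := pcB3) (cut := cut_mm_113_t) (xt := Ext.none) (P1 := 536870912) (W1 := 536870912) (P2 := 536870912) (W2 := 536870912) (P3 := 780900216) (W3 := 37827925) (N0 := 3) (En := eng) (mo := mog) (C1 := cd0q1) (C2 := cd0q1) (C3 := pd3)
    rfl k0_mm_113_t

noncomputable def cut_mm_123_s : Cut := Cut.of [[⟨4, 0, 0, 1449551462⟩]]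

noncomputable def f_mm_123_s : ℕ → ℕ → ℕ → ℕ → Bool := onCell 536870912 536870912 0 536870912 780900216 37827925
    (rowNE 3 eng mog cd0q1 cd0q2 pd3 0 true false false .npn 1 2 3 (qsf 536870912 536870912 0 536870912 3) ndB0q1 ndB0q2 pcB3 cut_mm_123_s Ext.none)

def k0_mm_123_s : ∃ t, chk3 f_mm_123_s t 1 1 1 = true :=
  ⟨(l 6), by decide +kernel⟩

theorem c_mm_123_s : CertNE 536870912 536870912 0 536870912 780900216 37827925 3 eng mog cd0q1 cd0q2 pd3 true false false .npn 1 2 3
    ndB0q1 ndB0q2 pcB3 cut_mm_123_s Ext.none :=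
  certNE0 (fam := true) (s1 := false) (s2 := false) (a := 1) (b := 2) (c := 3) (cn := .npn) (n1 := ndB0q1) (n2 := ndB0q2) (pc := pcB3) (cut := cut_mm_123_s) (xt := Ext.none) (P1 := 536870912) (W1 := 536870912) (P2 := 0) (W2 := 536870912) (P3 := 780900216) (W3 := 37827925) (N0 := 3) (En := eng) (mo := mog) (C1 := cd0q1) (C2 := cd0q2) (C3 := pd3)
    rfl k0_mm_123_s

noncomputable def cut_mm_123_t : Cut := Cut.of [[⟨3, 0, 0, 2845415833⟩]]

noncomputable def f_mm_123_t : ℕ → ℕ → ℕ → ℕ → Bool := onCell 536870912 536870912 0 536870912 780900216 37827925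
    (rowNE 3 eng mog cd0q1 cd0q2 pd3 0 true false false .npn 1 2 3 (qsf 536870912 536870912 0 536870912 3) ndB0q1 ndB0q2 pcB3 cut_mm_123_t Ext.none)

def k0_mm_123_t : ∃ t, chk3 f_mm_123_t t 1 1 1 = true :=
  ⟨(a (l 5) (l 4)), by decide +kernel⟩

theorem c_mm_123_t : CertNE 536870912 536870912 0 536870912 780900216 37827925 3 eng mog cd0q1 cd0q2 pd3 true false false .npn 1 2 3
    ndB0q1 ndB0q2 pcB3 cut_mm_123_t Ext.none :=
  certNE0 (fam := true) (s1 := false) (s2 := false) (a := 1) (b := 2) (c := 3) (cn := .npn) (n1 := ndB0q1) (n2 := ndB0q2) (pc := pcB3) (cut := cut_mm_123_t) (xt := Ext.none) (P1 := 536870912) (W1 := 536870912) (P2 := 0) (W2 := 536870912) (P3 := 780900216) (W3 := 37827925) (N0 := 3) (En := eng) (mo := mog) (C1 := cd0q1) (C2 := cd0q2) (C3 := pd3)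
    rfl k0_mm_123_t

noncomputable def cut_mm_202_s : Cut := Cut.of [[⟨4, 0, 0, 1449551462⟩], [⟨0, 1, 0, 67108864⟩, ⟨1, 0, 0, 67108864⟩, ⟨2, 1, 0, 67108864⟩]]

noncomputable def f_mm_202_s : ℕ → ℕ → ℕ → ℕ → Bool := onCell 0 536870912 0 536870912 780900216 37827925
    (rowNE 3 eng mog cd0q2 cd0q0 pd2 0 true false false .pp 2 0 2 (qsf 0 536870912 0 536870912 2) ndB0q2 ndB0q0 pcB2 cut_mm_202_s Ext.none)

def k0_mm_202_s : ∃ t, chk3 f_mm_202_s t 1 1 1 = true :=
  ⟨(l 6), by decide +kernel⟩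

theorem c_mm_202_s : CertNE 0 536870912 0 536870912 780900216 37827925 3 eng mog cd0q2 cd0q0 pd2 true false false .pp 2 0 2
    ndB0q2 ndB0q0 pcB2 cut_mm_202_s Ext.none :=
  certNE0 (fam := true) (s1 := false) (s2 := false) (a := 2) (b := 0) (c := 2) (cn := .pp) (n1 := ndB0q2) (n2 := ndB0q0) (pc := pcB2) (cut := cut_mm_202_s) (xt := Ext.none) (P1 := 0) (W1 := 536870912) (P2 := 0) (W2 := 536870912) (P3 := 780900216) (W3 := 37827925) (N0 := 3) (En := eng) (mo := mog) (C1 := cd0q2) (C2 := cd0q0) (C3 := pd2)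
    rfl k0_mm_202_s

noncomputable def cut_mm_202_t : Cut := Cut.of [[⟨3, 0, 0, 2845415833⟩], [⟨0, 1, 0, 67108864⟩, ⟨1, 0, 0, 67108864⟩, ⟨2, 1, 0, 67108864⟩]]

noncomputable def f_mm_202_t : ℕ → ℕ → ℕ → ℕ → Bool := onCell 0 536870912 0 536870912 780900216 37827925
    (rowNE 3 eng mog cd0q2 cd0q0 pd2 0 true false false .pp 2 0 2 (qsf 0 536870912 0 536870912 2) ndB0q2 ndB0q0 pcB2 cut_mm_202_t Ext.none)

def k0_mm_202_t : ∃ t, chk3 f_mm_202_t t 2 2 1 = true :=
  ⟨(b (a (l 6) (a (l 6) (b (l 6) (a (l 6) (b (b (l 6) (b (l 6) (l 16562024))) (b (a (l 16561856) (l 16555048)) (a (l 16572088) (l 16586328)))))))) (a (a (l 6) (a (l 6) (b (l 6) (b (l 6) (l 16593472))))) (b (a (a (l 6) (b (l 6) (b (l 16569104) (l 16584648)))) (b (a (b (l 16564072) (l 16599256)) (b (a (l 16584184) (l 16598528)) (a (l 16598504) (l 16571000)))) (a (b (l 16614840) (a (l 16602984) (l 16616136))) (a (b (l 16614168) (l 16630016)) (b (l 16586728) (a (l 16640848) (l 16648304))))))) (a (b (b (a (l 16577496)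 (l 16600008)) (a (l 16592256) (l 16552080))) (a (a (l 16608560) (l 16619472)) (b (c (l 16628880) (l 16630880)) (l 16644464)))) (b (b (a (a (l 16618504) (l 16631768)) (a (l 16603792) (b (l 16656480) (l 16664304)))) (a (a (l 16633640) (l 16605048)) (b (l 16664672) (l 16693208)))) (a (b (l 16676224) (c (a (l 16662672) (l 16676304)) (l 16629064))) (b (c (l 16704056) (l 16684168)) (c (l 16719120) (l 16720168))))))))), by decide +kernel⟩

def k1_mm_202_t : ∃ t, chk3 f_mm_202_t t 6 8 1 = true :=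
  ⟨(a (a (b (l 6) (b (l 6) (a (l 6) (l 16550664)))) (a (b (l 6) (b (b (l 16564160) (l 16573408)) (b (l 16560664) (l 16588408)))) (b (b (b (l 6) (l 16545624)) (b (l 16556200) (l 16566448))) (b (b (l 16576304) (l 16585752)) (b (a (l 16591480) (l 16598008)) (b (l 16600824) (l 16604312))))))) (b (b (a (a (b (l 16568040) (l 16558048)) (b (b (l 16557432) (l 16563048)) (b (l 16568584) (l 16574048)))) (a (b (b (l 16592240) (l 16597896)) (b (l 16582504) (l 16588016))) (a (b (b (l 16582040) (l 16587728)) (l 16617104)) (b (b (l 16589512) (l 16595224)) (b (l 16600864) (l 16606432)))))) (a (a (b (l 16568752) (l 16579128)) (b (l 16603080) (l 16613592))) (a (b (b (l 16593456) (l 16598832)) (a (l 16603128) (l 16610352))) (b (b (l 16629144) (l 16634560)) (b (l 16639920) (l 16645208)))))) (a (a (b (b (l 16589184) (l 16598840)) (b (l 16608096) (b (l 16614768) (l 16597928)))) (b (b (l 16623800) (l 16633672)) (b (l 16622176) (a (l 16627576) (l 16634904))))) (a (b (b (a (l 16613440)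 (l 16620736)) (a (l 16623456) (l 16630816))) (b (a (l 16633104) (l 16640592)) (a (l 16642368) (l 16649976)))) (b (b (b (l 16650432) (l 16655592)) (b (l 16660696) (l 16665728))) (b (b (l 16670688) (l 16675568)) (b (l 16680352) (l 16674560)))))))), by decide +kernel⟩

def k2_mm_202_t : ∃ t, chk3 f_mm_202_t t 6 9 1 = true :=
  ⟨(a (b (a (b (a (l 16569816) (l 16583592)) (a (l 16580408) (l 16594696))) (b (a (l 16597744) (l 16612456)) (a (l 16609424) (l 16624752)))) (a (a (b (b (l 16588024) (l 16593008)) (l 16580104)) (b (b (l 16602752) (l 16608096)) (b (l 16613496) (l 16619304)))) (b (a (b (l 16617936) (l 16602664)) (l 16657720)) (b (a (l 16608384) (a (l 16641616) (l 16650032))) (a (l 16635264) (a (l 16647680) (l 16656232))))))) (b (a (b (a (b (a (l 16620488) (l 16628184)) (l 16631056)) (b (a (l 16614920) (b (l 16641496) (l 16645664))) (a (l 16643016) (l 16651176)))) (a (b (l 16637504) (l 16643832)) (b (l 16653912) (l 16660576)))) (b (a (b (a (l 16651232) (l 16658968))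 (a (b (l 16657480) (l 16661200)) (a (l 16644480) (l 16648536)))) (b (a (l 16666880) (l 16695936)) (a (b (l 16673456) (l 16677720)) (l 16683840)))) (a (b (a (l 16666472) (l 16675000)) (a (l 16673408) (l 16682120))) (b (a (b (l 16660760) (l 16685456)) (b (l 16669248) (a (l 16692024) (l 16696416)))) (a (l 16690952) (l 16699896)))))) (a (b (a (b (l 16650160) (l 16656544)) (b (l 16667256) (l 16673976))) (a (b (a (l 16658584) (l 16667328)) (a (l 16644024) (l 16652944))) (b (l 16680768) (a (b (l 16681312) (l 16684728)) (l 16692248))))) (b (a (b (a (l 16680360) (l 16689264)) (a (l 16687360) (l 16696456))) (a (b (l 16698288) (l 16705672)) (b (l 16707432) (l 16715024)))) (b (a (a (l 16694424) (l 16703720)) (a (l 16713136) (b (l 16720760) (l 16724624)))) (a (a (l 16701600) (l 16711080)) (a (l 16720704) (b (l 16728512) (l 16732424))))))))), by decide +kernel⟩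

def k3_mm_202_t : ∃ t, chk3 f_mm_202_t t 14 16 1 = true :=
  ⟨(a (b (b (a (b (a (l 16597224) (l 16605240)) (a (l 16602960) (l 16610992))) (a (b (c (l 16614800) (l 16612904)) (l 16630080)) (b (c (l 16624032) (l 16622256)) (c (l 16629776) (l 16628040))))) (a (a (b (l 16608624) (l 16614216)) (b (l 16616672) (l 16622288))) (a (b (l 16625288) (l 16630912)) (b (c (l 16635448) (l 16633768)) (l 16650704))))) (a (b (a (b (l 16619744) (l 16625200)) (b (l 16627832) (l 16633312))) (a (b (l 16630592) (l 16635920)) (b (l 16638728) (l 16644080)))) (b (a (b (l 16636472) (l 16641968)) (b (l 16656272) (l 16661768))) (a (b (l 16647400) (l 16652768)) (b (l 16656720) (l 16662096)))))) (b (a (b (b (l 14) (a (c (l 16639656) (l 16638064)) (l 14))) (a (b (c (l 16645328) (l 16643784)) (c (l 16650936) (l 16649432))) (b (c (l 16655816) (l 16654424)) (c (l 16661408) (l 16660064))))) (b (l 14) (a (b (l 14) (c (l 16672448) (l 16671264))) (l 14)))) (a (b (a (b (c (l 16656472) (l 16655024))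 (c (l 16661944) (l 16660544))) (b (c (l 16666936) (l 16665640)) (c (l 16672400) (l 16671152)))) (a (b (l 16673792) (l 16682520)) (b (c (l 16677800) (l 16676600)) (c (l 16683136) (l 16681992))))) (b (a (b (c (l 16683208) (l 16682072)) (c (l 16683408) (l 16682320))) (b (l 14) (c (a (l 16691992) (l 16697880)) (a (l 16691032) (l 16697008))))) (a (b (c (l 16688800) (l 16687760)) (c (l 16694120) (l 16693128))) (b (a (l 16707384) (c (l 16703240) (l 16702416))) (a (l 16712720) (c (l 16708544) (l 16707760))))))))), by decide +kernel⟩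

def k4_mm_202_t : ∃ t, chk3 f_mm_202_t t 28 17 1 = true :=
  ⟨(a (b (b (a (b (l 16641176) (l 16646376)) (b (l 16649368) (l 16654592))) (a (l 16664560) (b (l 16659752) (l 16664856)))) (a (b (l 16674600) (l 16684352)) (b (b (l 16669904) (l 16674896)) (b (l 16679816) (l 16684672))))) (b (b (a (b (l 16658072) (l 16663312)) (c (l 16681208) (l 16674632))) (a (b (l 16668496) (l 16673616)) (c (l 16691528) (l 16690320)))) (b (a (b (l 16678680) (l 16683688)) (b (l 16688056) (l 16693072))) (a (b (l 16688648) (l 16693536)) (b (l 16698040) (l 16713440)))))), by decide +kernel⟩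

def k5_mm_202_t : ∃ t, chk3 f_mm_202_t t 29 17 1 = true :=
  ⟨(a (a (b (b (b (l 16687832) (l 16693080)) (b (l 16698272) (l 16703408))) (b (b (l 16708488) (c (l 16703504) (l 16702560))) (b (c (l 16708440) (l 16707552)) (c (l 16713320) (l 16712504))))) (b (b (b (c (l 16688416) (l 16687320)) (c (l 16693632) (l 16692592))) (b (c (l 16698784) (l 16697800)) (c (l 16703888) (l 16702960)))) (b (b (c (l 16708928) (l 16708064)) (c (l 16713920) (l 16713104))) (b (b (l 16727720) (l 16730192)) (c (l 16734224) (l 16733528)))))) (a (b (b (b (c (l 16699384) (l 16698448)) (c (l 16704584) (l 16703704))) (b (c (l 16709736) (l 16708904)) (c (l 16725312) (l 16724536)))) (b (a (b (l 16716680) (l 16721688)) (b (l 16732792) (l 16732552))) (a (b (l 16726648) (l 16736800)) (b (l 16737504) (c (l 16737424) (l 16736912)))))) (b (b (b (a (l 16717992) (c (l 16713784) (l 16713048))) (a (l 16723216) (c (l 16718960) (l 16718280)))) (a (b (l 16723136) (l 16728240)) (b (c (l 16724088) (l 16723464))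 (c (l 16729160) (l 16728584))))) (b (b (a (c (l 16728352) (l 16727752)) (c (l 16734168) (l 16733648))) (a (c (l 16733320) (l 16732776)) (c (l 16739136) (l 16738664)))) (b (a (c (l 16738240) (l 16737752)) (c (l 16744040) (l 16743632))) (a (c (l 16743104) (l 16742672)) (c (l 16754144) (l 16753784)))))))), by decide +kernel⟩

def k6_mm_202_t : ∃ t, chk3 f_mm_202_t t 15 16 1 = true :=
  ⟨(a (b (l 14) (a (b (l 14) (a (b (a (c (l 16709216) (l 16708472)) (c (l 16715280) (l 16714624))) (a (c (l 16714504) (l 16713816)) (c (l 16720560) (l 16719944)))) (b (l 14) (b (a (l 16730328) (l 14)) (a (l 16732960) (c (l 16734176) (l 16733736))))))) (l 14))) (l 14)), by decide +kernel⟩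

def k7_mm_202_t : ∃ t, chk3 f_mm_202_t t 60 34 1 = true :=
  ⟨(a (b (b (a (c (l 16719736) (l 16719088)) (c (l 16725776) (l 16725216))) (a (c (l 16724912) (l 16724312)) (c (l 16730936) (l 16730424)))) (a (b (c (l 16730024) (l 16729480)) (c (l 16735080) (l 16734592))) (b (c (l 16736040) (l 16740824)) (c (l 16746336) (l 16745920))))) (c (b (b (a (l 16737128) (b (l 16736776) (l 16739360))) (a (l 16742280) (c (l 16748544) (l 16748360)))) (a (b (b (l 16740856) (l 16743392)) (b (l 16745912) (l 16748416))) (b (c (l 16750992) (l 16750832)) (b (l 16757304) (l 16757184))))) (b (b (a (l 16736648) (b (l 16736352) (l 16738960))) (a (l 16739224) (c (l 16748176) (l 16748008)))) (a (b (b (l 16740464) (l 16743024)) (c (l 16746912) (l 16746760))) (b (b (l 16746704) (l 16754496)) (b (l 16757040) (l 16756944))))))), by decide +kernel⟩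

def k8_mm_202_t : ∃ t, chk3 f_mm_202_t t 61 68 1 = true :=
  ⟨(a (b (a (b (c (l 16743032) (l 16742688)) (c (l 16748232) (l 16747912))) (l 14)) (b (a (c (l 16750792) (l 16750496)) (c (a (l 16752904) (l 16756088)) (a (l 16752664) (l 16755880)))) (a (c (l 16753344) (l 16753072)) (a (c (l 16755448) (l 16755232)) (c (l 16761248) (l 16761064)))))) (a (b (l 14) (b (l 14) (b (a (c (l 16761192) (l 16761032)) (l 14)) (a (c (l 16762456) (l 16762312)) (c (l 16768288) (l 16768184)))))) (l 14))), by decide +kernel⟩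

def k9_mm_202_t : ∃ t, chk3 f_mm_202_t t 61 138 1 = true :=
  ⟨(b (a (a (a (l 16754176) (c (l 16754824) (l 16754600))) (a (c (l 16757984) (l 16757784)) (c (l 16761160) (l 16763616)))) (b (a (a (c (l 16763720) (l 16763584)) (a (l 16767384) (a (l 16767288) (l 16768096)))) (l 14)) (a (a (c (l 16764976) (l 16764856)) (a (l 16768648) (a (l 16768552) (l 16771984)))) (a (a (b (l 16771576) (l 16772200)) (a (a (l 16772904) (l 16773312)) (l 14))) (l 14))))) (b (a (a (c (l 16755152) (l 16754920)) (a (l 16762400) (a (l 16762168) (l 16763768)))) (a (a (c (l 16766232) (l 16766128)) (c (c (l 16770776) (l 16770736)) (a (l 16768552) (l 16770184)))) (a (a (c (l 16773176) (l 16773120)) (a (c (l 16773080) (l 16773040)) (b (l 16774872) (a (l 16773984) (l 16774392))))) (a (b (a (c (l 16774384) (l 16774360)) (l 14)) (a (c (l 16775016) (l 16774992)) (l 16775816))) (a (a (c (l 16776128) (l 16776112)) (l 14)) (l 14)))))) (a (a (c (l 16756408) (l 16756192)) (a (l 16763664) (c (l 16764296)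 (l 16764168)))) (a (a (c (l 16768800) (l 16768704)) (c (a (l 16769888) (l 16772808)) (a (l 16769816) (l 16772752)))) (a (a (a (b (l 16772376) (l 16773000)) (b (l 16773184) (l 16773816))) (a (b (l 16772688) (a (l 16774424) (l 16774832))) (a (b (l 16774608) (l 16773928)) (l 16775328)))) (a (a (c (l 16775952) (l 16775936)) (b (l 16776448) (a (l 16776864) (b (l 16777104) (l 107609064487))))) (a (a (b (c (l 16777696) (l 16777688)) (l 190824055319)) (b (b (l 70028100631) (l 4)) (l 4))) (l 4)))))))), by decide +kernel⟩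

def k10_mm_202_t : ∃ t, chk3 f_mm_202_t t 61 278 1 = true :=
  ⟨(a (a (a (c (l 16756720) (l 16756504)) (c (l 16759856) (l 16759672))) (a (c (l 16765624) (l 16765480)) (c (c (l 16768824) (l 16768768)) (c (l 16768712) (l 16768656))))) (b (a (a (a (l 16770512) (a (l 16769096) (l 16769896))) (c (a (l 16771144) (c (l 16772760) (l 16772736))) (a (l 16771080) (c (l 16772712) (l 16772696))))) (a (a (a (b (l 16773632) (l 16772944)) (b (l 16773128) (a (l 16774864) (l 16773960)))) (b (b (l 16775504) (l 16775816)) (c (a (l 16774576) (l 16776688)) (l 16776608)))) (a (a (b (c (c (l 16777520) (l 16777520)) (l 16777472)) (a (a (l 5603591271) (l 93650420887)) (l 195655893559))) (b (a (b (l 83986744215) (l 4)) (l 4)) (l 4))) (l 4)))) (a (b (a (c (l 16770984) (l 16770912)) (a (a (l 16771648) (l 16772448)) (a (l 16773256) (l 16772760)))) (a (c (l 16771608) (l 16771536)) (a (a (l 16772272) (l 16773080)) (a (l 16773888) (l 16773384))))) (a (a (c (l 16775608) (l 16775592)) (a (b (l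 16776504) (a (l 16776912) (a (l 47479522439) (l 100092871863)))) (b (a (c (l 16777736) (l 16777736)) (c (l 114588386439) (l 116735870071))) (l 4)))) (l 4))))), by decide +kernel⟩

def k11_mm_202_t : ∃ t, chk3 f_mm_202_t t 61 279 1 = true :=
  ⟨(a (a (a (c (l 16759216) (l 16759032)) (c (l 16762352) (l 16762192))) (a (c (c (l 16765528) (l 16765464)) (c (l 16765408) (l 16765344))) (a (b (l 16767192) (l 16771064)) (b (l 16770104) (a (l 16769640) (l 16770440)))))) (b (a (a (a (a (l 16769992) (l 16770792)) (b (l 16773000) (l 16773624))) (c (a (a (l 16773224) (l 16772720)) (l 16775232)) (a (c (l 16771960) (l 16772272)) (l 16775216)))) (a (a (a (c (c (l 16776440) (l 16776432)) (l 16776760)) (b (c (c (l 16777568) (l 16777568)) (l 16777568)) (a (c (l 73249326311) (l 74323068119)) (l 4)))) (a (b (c (l 175254798935) (l 179012895303)) (l 4)) (l 4))) (l 4))) (a (a (c (a (l 16771672) (a (l 16772864) (l 16773664))) (a (l 16771616) (c (l 16773232) (l 16773216)))) (a (a (c (l 16773152)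 (l 16773128)) (l 16775256)) (a (c (l 16776072) (l 16776056)) (b (l 16776560) (a (l 16776968) (c (l 80765519031) (l 81839260855))))))) (a (a (a (b (a (c (l 16777784) (l 16777784)) (l 123178321255)) (l 4)) (l 4)) (l 4)) (l 4))))), by decide +kernel⟩

def k12_mm_202_t : ∃ t, chk3 f_mm_202_t t 60 35 1 = true :=
  ⟨(b (b (b (a (a (l 16738608) (c (l 16744840) (l 16744464))) (a (c (l 16750912) (l 16750616)) (a (l 16758008) (c (l 16758592) (l 16758392))))) (a (a (l 16746352) (c (l 16747320) (l 16746976))) (a (c (l 16753392) (l 16753120)) (a (c (l 16757984) (l 16757768)) (c (l 16761072) (l 16760896)))))) (a (a (c (l 16745040) (l 16749896)) (a (c (l 16749520) (l 16749192)) (c (l 16752528) (l 16752248)))) (a (b (c (l 16761096) (l 16758232)) (c (l 16760928) (l 16760056))) (b (a (c (l 16760448) (l 16760256)) (c (l 16763528) (l 16763376))) (a (c (l 16762896) (l 16762736)) (c (l 16768600) (l 16768472))))))) (a (a (b (b (c (l 16748720) (l 16748376)) (c (l 16751152) (l 16750840)))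 (a (c (l 16753304) (l 16753008)) (b (l 16754928) (l 16757352)))) (a (b (c (l 16754416) (l 16754144)) (b (l 16757928) (l 16765592))) (b (c (l 16760040) (l 16759808)) (b (l 16763576) (c (l 16763456) (l 16763296)))))) (b (b (a (a (l 16761744) (c (l 16762272) (l 16762096))) (b (a (l 16767272) (c (l 16767800) (l 16767696))) (a (l 16768496) (c (l 16769016) (l 16768928))))) (b (a (c (l 16765192) (l 16765024)) (a (c (l 16767152) (l 16767032)) (a (l 16769408) (l 16769000)))) (a (c (l 16766400) (l 16766248)) (a (c (l 16768360) (l 16768256)) (a (l 16768008) (a (l 16771792) (l 16772568))))))) (a (c (a (b (l 16764072) (l 16769096)) (b (l 16769728) (a (l 16768752) (l 16767648)))) (a (b (l 16763920) (l 16768968)) (a (b (l 16766224) (l 16768648)) (b (l 16767760) (l 16767568))))) (b (a (a (c (l 16769400) (l 16769312)) (b (l 16770288) (l 16768880))) (c (l 16773896) (l 16773200))) (b (a (a (l 16768544) (l 16770088)) (c (l 16775040) (l 16775016))) (a (l 16773144) (a (l 16775456)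 (a (l 16776600) (b (l 16777048) (l 122641450791))))))))))), by decide +kernel⟩

def k13_mm_202_t : ∃ t, chk3 f_mm_202_t t 244 35 1 = true :=
  ⟨(b (b (b (a (c (l 16761704) (l 16761536)) (c (l 16766144) (l 16766008))) (a (c (l 16766792) (l 16766656)) (c (c (l 16769944) (l 16769896)) (c (l 16769840) (l 16769792))))) (b (b (a (a (l 16765176) (l 16766736)) (c (l 16771760) (l 16771672))) (a (c (l 16767240) (l 16767136)) (a (l 16772160) (a (l 16770720) (l 16771504))))) (b (a (c (l 16768464) (l 16768368)) (a (a (l 16770376) (l 16771160)) (c (l 16772368) (l 16772312)))) (c (a (l 16772304) (a (l 16772024) (l 16772272))) (a (a (l 16768816) (l 16770392)) (a (l 16771968) (l 16770928))))))) (a (b (a (b (b (l 16772704) (a (l 16770912) (l 16771696))) (a (b (l 16772128) (l 16770720)) (b (l 16770288) (l 16771504)))) (c (b (b (l 16771680) (l 16772888)) (l 16774704)) (b (c (l 16769952) (l 16769600)) (l 16774680)))) (b (a (b (l 16774944) (c (l 16776152) (l 16776144))) (a (b (l 16776112)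 (b (l 16776984) (l 109219678071))) (b (b (l 16776592) (l 16777792)) (l 186529088487)))) (a (a (b (b (l 16776664) (l 16777824)) (l 200487732263)) (b (b (l 81839261463) (l 4)) (l 4))) (l 4)))) (b (b (a (b (a (l 16770200) (l 16772296)) (l 16774432)) (b (l 16774784) (a (l 16775608) (l 16776392)))) (b (a (l 16775648) (a (b (l 16776520) (l 16777736)) (b (l 60901295207) (l 4)))) (a (b (l 16777360) (a (l 16776760) (l 100092872471))) (c (l 191897797991) (l 189750314295))))) (a (a (b (b (b (l 73786197687) (l 4)) (l 4)) (l 4)) (l 4)) (l 4))))), by decide +kernel⟩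

def k14_mm_202_t : ∃ t, chk3 f_mm_202_t t 245 35 1 = true :=
  ⟨(a (a (b (b (b (c (l 16767184) (l 16767080)) (b (l 16771616) (c (l 16770264) (l 16770192)))) (c (b (b (l 16771496) (l 16770096)) (l 16774544)) (b (b (l 16771432) (l 16770048)) (l 16774520)))) (b (b (b (a (l 16775968) (b (l 16776456) (l 16777680))) (b (a (l 16776864) (l 116735870807)) (a (a (l 16777216) (l 152706221383)) (l 4)))) (l 4)) (l 4))) (b (b (b (c (l 16770072) (l 16769984)) (b (a (l 16770184) (l 16770976)) (c (l 16771840) (l 16771784)))) (b (c (b (c (l 16773080) (l 16773056)) (c (l 16771680) (l 16771664))) (b (l 16770400) (l 16772296))) (b (c (l 16775512) (l 16775496)) (a (l 16776328) (b (l 16776800) (c (l 80228648455) (l 80765519367))))))) (a (b (b (b (b (c (l 16777968) (l 16777800)) (l 195655893703)) (l 4)) (l 4)) (l 4)) (l 4)))) (b (b (b (b (a (l 16771328) (a (l 16770880) (l 16772992))) (a (c (l 16770960) (l 16770896)) (c (c (l 16772560) (l 16772536)) (l 16770536)))) (c (a (b (l 16773504)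 (c (l 16773432) (l 16773408))) (a (b (l 16773384) (l 16773296)) (l 16774792))) (b (a (l 16772144) (c (l 16771128) (l 16771112))) (l 16774432)))) (a (a (b (c (l 16774864) (l 16774840)) (c (b (l 16777328) (c (l 169349219079) (l 170959831799))) (b (l 16777320) (l 172570444519)))) (b (c (l 16775816) (l 16775640)) (b (b (c (l 16777936) (l 16777768)) (l 180623508103)) (l 4)))) (b (b (a (l 16775824) (b (l 16776320) (l 16777560))) (b (a (l 16776744) (c (l 97945388615) (l 99019130455))) (a (c (l 69491229559) (l 70564972023)) (l 4)))) (l 4)))) (l 4))), by decide +kernel⟩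

def k15_mm_202_t : ∃ t, chk3 f_mm_202_t t 123 35 1 = true :=
  ⟨(b (a (b (b (b (b (a (a (a (l 16772168) (l 16772976)) (a (l 16773776) (l 16773264))) (a (l 16775784) (a (c (l 16777784) (l 16777616)) (c (l 182234120855) (l 185992217223))))) (a (c (a (l 16773216) (l 16773496)) (a (l 16773176) (l 16773472))) (a (c (l 16776936) (l 16776720)) (a (c (l 158074929575) (a (l 90429195399) (l 4))) (l 4))))) (a (c (c (l 16774944) (l 16774928)) (c (l 16774920) (l 16774912))) (a (b (a (l 16776624) (a (c (l 16777816) (l 16777816)) (l 134452610471))) (a (a (l 16777672) (l 91502937511)) (l 4))) (l 4)))) (b (a (c (a (l 16775368) (a (l 16777168) (b (l 16777840) (l 165054251511)))) (a (l 16775352) (a (l 16777200) (b (l 16777664) (l 120493966951))))) (a (a (b (l 189750313687) (l 4)) (l 4)) (l 4))) (a (a (a (l 16776192) (b (l 16776680) (a (l 16777728) (l 104924710311)))) (a (b (a (l 59290682727) (l 151632479559)) (l 4)) (l 4))) (l 4)))) (a (a (b (b (a (b (c (l 16777888) (l 16777720))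 (l 173107315255)) (c (l 203172086903) (l 207467054167))) (l 4)) (l 4)) (l 4)) (l 4))) (l 4)) (l 4)), by decide +kernel⟩

def k16_mm_202_t : ∃ t, chk3 f_mm_202_t t 31 17 1 = true :=
  ⟨(a (b (a (b (l 14) (b (b (l 14) (b (l 14) (l 4))) (l 4))) (l 4)) (l 4)) (l 4)), by decide +kernel⟩

def k17_mm_202_t : ∃ t, chk3 f_mm_202_t t 28 18 1 = true :=
  ⟨(b (b (a (a (l 16693736) (b (l 16689424) (l 16694096))) (a (a (l 16708912) (l 16713528)) (b (l 16718288) (l 16723064)))) (b (a (a (l 16690040) (l 16698672)) (a (l 16707712) (l 16727752))) (a (a (l 16694456) (l 16703152)) (a (l 16712256) (l 16727112))))) (b (b (a (a (l 16698760) (l 16707528)) (a (l 16716704) (a (l 16723896) (l 16728848)))) (a (a (a (l 16700784) (l 16705160)) (l 16711832)) (a (l 16721072) (a (l 16728312) (l 16733288))))) (b (a (a (a (l 16704760) (l 16709280)) (a (l 16713792) (l 16718344))) (a (l 16730632) (a (l 16732680) (l 16737688)))) (a (a (l 16710904) (a (l 16717832) (b (l 16721504) (l 16723536)))) (a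 (a (b (l 16726208) (l 16728320)) (l 16732088)) (c (l 16745016) (l 16744536))))))), by decide +kernel⟩

def k18_mm_202_t : ∃ t, chk3 f_mm_202_t t 29 36 1 = true :=
  ⟨(b (b (a (a (c (l 16718160) (l 16717400)) (b (l 16737520) (l 16734696))) (a (a (l 16741656) (c (l 16742240) (l 16741792))) (a (a (l 16751528) (l 16754408)) (b (l 16756280) (c (l 16754896) (l 16754616)))))) (a (a (c (l 16722928) (l 16722232)) (a (l 16730376) (l 16746224))) (a (a (l 16746464) (c (l 16747008) (l 16746616))) (a (b (l 16756568) (l 16758952)) (a (b (l 16755672) (l 16758056)) (c (l 16762536) (l 16762320))))))) (a (a (a (b (l 16724744) (l 16729376)) (b (l 16729880) (l 16734536))) (a (b (l 16735128) (l 16739808)) (b (l 16745744) (c (l 16745400) (l 16744984))))) (a (b (a (c (l 16746184) (l 16745776)) (c (l 16751736) (l 16756640))) (a (a (l 16749296) (l 16757304)) (b (l 16760336) (a (l 16756024) (l 16758848))))) (a (b (c (c (l 16762704) (l 16762576)) (c (l 16762448) (l 16762320))) (a (c (l 16765880)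 (l 16755176)) (b (l 16762232) (l 16759328)))) (a (b (b (l 16760432) (l 16762784)) (b (c (l 16765216) (l 16765056)) (c (l 16767536) (l 16767408)))) (b (a (b (l 16762624) (l 16764984)) (b (l 16764096) (l 16766456))) (b (c (l 16768120) (l 16768008)) (c (l 16765200) (l 16765112))))))))), by decide +kernel⟩

def k19_mm_202_t : ∃ t, chk3 f_mm_202_t t 58 37 1 = true :=
  ⟨(a (a (b (b (l 16733920) (l 16738384)) (b (l 16742808) (c (l 16747400) (l 16747008)))) (b (b (l 16739104) (l 16748832)) (b (c (l 16748232) (l 16747848)) (a (l 16751136) (l 16753792))))) (b (b (a (l 16749640) (c (l 16749976) (l 16749616))) (a (c (l 16749088) (l 16748720)) (b (l 16753200) (l 16755456)))) (a (b (a (l 16752032) (l 16749488)) (b (l 16756720) (l 16753696))) (a (b (b (l 16756328) (l 16758568)) (c (l 16762016) (l 16761816))) (b (b (l 16759072) (l 16761320)) (c (l 16759520) (l 16759352))))))), by decide +kernel⟩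

def k20_mm_202_t : ∃ t, chk3 f_mm_202_t t 59 37 1 = true :=
  ⟨(a (b (b (b (a (l 16754152) (a (l 16758344) (l 16761168))) (a (c (l 16756584) (l 16756312)) (c (l 16756912) (l 16756712)))) (b (a (a (l 16757328) (l 16760112)) (a (l 16762920) (l 16760512))) (a (a (l 16759584) (l 16762376)) (a (l 16765192) (l 16762784))))) (b (c (a (b (l 16758088) (l 16760328)) (l 16771376)) (a (b (l 16757904) (l 16760176)) (l 16771280))) (a (c (l 16768920) (l 16768808)) (a (c (l 16773128) (l 16773072)) (b (l 16774824) (a (l 16778944) (a (l 69491231575) (l 118346486087)))))))) (b (a (b (b (a (l 16764016) (a (l 16766168) (l 16767616))) (a (l 16761080) (c (l 16769256) (l 16763904)))) (c (c (l 16771256) (l 16771216)) (c (l 16771176) (l 16771144)))) (b (a (c (l 16770992) (l 16770912)) (b (l 16772720) (c (l 16775040) (l 16775008)))) (b (a (l 16774400) (a (c (l 16778496) (l 16778808)) (b (l 74323070231) (l 4)))) (b (a (l 16778048) (l 194045282279)) (a (a (l 16776504) (l 114588388791)) (l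 4)))))) (a (b (a (b (l 16773168) (c (l 16775432) (l 16775408))) (a (b (l 16775336) (b (l 16776960) (l 131231387047))) (b (b (l 16776208) (l 64659393783)) (l 201561475063)))) (a (b (a (a (l 16776576) (l 64122522311)) (b (l 105998454103) (l 4))) (l 4)) (l 4))) (b (a (a (b (b (l 88818584967) (l 4)) (l 4)) (l 4)) (l 4)) (l 4))))), by decide +kernel⟩

def k21_mm_202_t : ∃ t, chk3 f_mm_202_t t 28 19 1 = true :=
  ⟨(b (a (b (a (l 16716720) (b (l 16724168) (l 16728152))) (a (b (l 16722552) (l 16726472)) (a (l 16731720) (l 16736600)))) (b (a (b (a (l 16731384) (b (l 16735280) (l 16737360))) (l 16737944)) (b (a (b (l 16740248) (l 16734520)) (l 16741152)) (a (a (l 16744240) (l 16736320)) (b (a (l 16748336) (l 16750928)) (l 16741264))))) (a (b (a (l 16739528) (l 16744568)) (a (l 16743624) (l 16748720))) (a (b (l 16749696) (l 16753896)) (b (l 16754920) (l 16753920)))))) (a (b (b (a (l 16730408) (l 16740224)) (a (l 16734376) (l 16735120))) (b (a (l 16738368) (a (l 16745856)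 (l 16750920))) (a (l 16742392) (c (l 16742176) (l 16741904))))) (a (b (a (c (l 16739504) (l 16739176)) (b (l 16752888) (l 16757088))) (b (a (l 16756080) (l 16750832)) (l 16762936))) (b (b (a (l 16758120) (l 16758184)) (l 16766688)) (b (a (l 16761408) (l 16772056)) (a (l 16770960) (a (l 16777624) (b (l 16779200) (l 173107316391))))))))), by decide +kernel⟩

def k22_mm_202_t : ∃ t, chk3 f_mm_202_t t 29 19 1 = true :=
  ⟨(b (a (b (a (a (b (a (l 16750272) (l 16752888)) (b (l 16754840) (a (l 16750440) (l 16753088)))) (b (c (l 16751760) (l 16751488)) (b (l 16754912) (l 16757096)))) (b (c (c (l 16767752) (l 16766360)) (c (l 16766272) (l 16766192))) (a (l 16767976) (c (l 16772216) (l 16772152))))) (a (b (a (l 16761536) (b (c (l 16764608) (l 16764432)) (l 16766688))) (b (l 16766144) (l 16768304))) (a (b (b (l 16769960) (a (l 16770776) (l 16773536))) (a (l 16774056) (a (b (l 16775032) (l 16779672)) (b (l 16779656) (l 180623508983))))) (b (a (b (l 16774104) (c (l 16778864)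 (l 16778840))) (a (b (l 16776168) (l 124252066887)) (b (c (l 79154909303) (l 80228651111)) (l 4)))) (a (a (b (b (l 16779712) (l 155390578471)) (l 4)) (l 4)) (l 4)))))) (a (b (a (b (b (l 16772224) (a (l 16773040) (c (l 16778456) (l 16778432)))) (a (b (l 16775256) (a (l 16779328) (a (l 100629745735) (l 188676572599)))) (b (a (a (l 16779560) (l 92576682071)) (l 184918476503)) (l 4)))) (b (a (a (b (l 16775752) (c (l 100629745879) (l 102240358583))) (b (a (l 16776760) (l 77007425639)) (l 4))) (b (c (l 188139702583) (l 184918477031)) (l 4))) (l 4))) (a (b (a (b (l 202635217607) (l 4)) (l 4)) (l 4)) (l 4))) (l 4))) (a (a (b (a (b (l 16768824) (a (l 16771800) (l 16774520))) (b (a (l 16772920) (b (l 16774576) (c (l 16779272) (l 16779248)))) (a (b (l 16776128) (l 154853704759)) (b (l 174181058359) (l 4))))) (a (b (b (a (l 16775064) (c (l 87744844695) (l 88818586471))) (a (l 66270005495) (l 4))) (a (l 201561476615) (l 4))) (l 4))) (b (a (b (a (b (c (l 66806876215) (l 67880617991))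 (l 202098346471)) (l 4)) (l 4)) (l 4)) (l 4))) (l 4))), by decide +kernel⟩

def k23_mm_202_t : ∃ t, chk3 f_mm_202_t t 60 72 1 = true :=
  ⟨(a (a (a (b (c (l 16758104) (l 16763112)) (b (l 16761568) (a (l 16763208) (l 16764688)))) (b (b (l 16759760) (l 16767408)) (b (c (l 16764632) (l 16764472)) (c (l 16766992) (l 16766864))))) (b (b (a (l 16765384) (c (l 16765848) (l 16765712))) (a (c (l 16765232) (l 16765088)) (c (a (l 16767480) (l 16768984)) (a (l 16767360) (l 16768880))))) (a (b (c (l 16764984) (l 16764864)) (a (l 16765896) (a (l 16767672) (l 16768424)))) (a (b (c (l 16769848) (l 16769760)) (c (l 16769584) (l 16769528))) (c (l 16772536) (l 16772480)))))) (b (a (b (b (a (c (l 16768272) (l 16768160)) (c (l 16768680) (l 16768616))) (a (c (l 16769464) (l 16769368)) (a (l 16769080) (l 16770608)))) (b (a (c (l 16770648) (l 16770576)) (l 16773664)) (a (c (l 16769216) (l 16769152)) (l 16774856)))) (a (b (a (a (l 16773784) (l 16774552)) (a (l 16775328) (b (l 16775496)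 (l 16776672)))) (b (a (l 16775960) (a (a (l 16776896) (l 58216941767)) (c (l 125862676647) (l 128010160279)))) (a (a (l 16776744) (c (l 82376132871) (l 83449874679))) (l 4)))) (b (b (a (a (l 16776272) (a (l 16776824) (l 49627007063))) (c (c (l 170422961239) (l 172033573959)) (l 174181057575))) (a (a (a (l 53921974407) (l 105461582039)) (l 4)) (l 4))) (l 4)))) (a (a (b (c (l 16773616) (l 16773568)) (a (l 16775200) (b (l 16776128) (a (l 16776888) (l 98482260679))))) (a (b (b (l 16775280) (l 16777752)) (b (a (l 54458845687) (l 181160379271)) (l 4))) (b (c (b (l 16778392) (l 157538059063)) (b (l 16778384) (l 160759284503))) (l 4)))) (a (a (a (b (b (l 173644186423) (l 4)) (l 4)) (l 4)) (l 4)) (l 4))))), by decide +kernel⟩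

def k24_mm_202_t : ∃ t, chk3 f_mm_202_t t 60 73 1 = true :=
  ⟨(b (a (b (a (a (a (l 16765576) (l 16767056)) (b (l 16766080) (l 16767256))) (a (l 16772936) (a (l 16774536) (c (l 16777336) (l 16777320))))) (b (a (a (l 16768080) (l 16768432)) (a (l 16774048) (a (l 16776288) (a (l 71638714951) (l 4))))) (a (l 16771728) (a (l 16775216) (a (a (l 16777032) (l 119420226135)) (l 4)))))) (a (a (b (c (a (b (l 16778536) (l 168275477495)) (l 199950862391)) (a (b (l 16778480) (l 171496702935)) (l 203708958711))) (l 4)) (l 4)) (l 4))) (a (a (b (c (l 16773184) (l 16772800)) (a (l 16773344) (b (l 16776864) (a (l 16776144) (a (l 16777128) (l 141968804311)))))) (a (a (b (c (l 16777832) (l 16777816)) (c (b (l 111904033799) (l 4)) (l 172033573623))) (b (b (a (l 16776736) (l 80765520487)) (l 179012895927)) (l 4))) (l 4))) (l 4))), by decide +kernel⟩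

def k25_mm_202_t : ∃ t, chk3 f_mm_202_t t 60 37 1 = true :=
  ⟨(a (b (a (b (b (b (a (l 16775088) (a (a (l 16776896) (l 102240356887)) (l 4))) (a (c (l 16778168) (l 16778152)) (l 200487733415))) (a (b (a (l 16776624) (l 125325807047)) (c (l 165054252439) (l 167738606951))) (l 4))) (l 4)) (l 4)) (l 4)) (l 4)), by decide +kernel⟩

def k26_mm_202_t : ∃ t, chk3 f_mm_202_t t 61 18 1 = true :=
  ⟨(l 4), by decide +kernel⟩

def k27_mm_202_t : ∃ t, chk3 f_mm_202_t t 30 19 1 = true :=
  ⟨(l 4), by decide +kernel⟩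

def k28_mm_202_t : ∃ t, chk3 f_mm_202_t t 31 9 1 = true :=
  ⟨(l 4), by decide +kernel⟩

def k29_mm_202_t : ∃ t, chk3 f_mm_202_t t 12 10 1 = true :=
  ⟨(b (a (b (a (b (l 16610144) (l 16616848)) (b (l 16625584) (l 16632384))) (a (b (l 16624144) (l 16631912)) (b (l 16639768) (l 16647616)))) (a (b (c (l 16666520) (l 16665584)) (b (l 16656056) (l 16664008))) (b (b (a (l 16654176) (l 16662800)) (l 16686504)) (b (a (l 16668744) (l 16677480)) (a (l 16676768) (l 16685552)))))) (a (b (a (b (l 16639832) (l 16647808)) (b (l 16655608) (l 16663656))) (a (a (l 16634960) (l 16621792)) (b (l 16671736) (l 16658848)))) (b (b (a (a (l 16667864) (l 16676288)) (a (l 16684920) (l 16693752))) (a (a (l 16675968) (l 16684440)) (a (l 16693112) (l 16701992)))) (a (b (a (l 16684104) (l 16692616)) (a (l 16692248) (l 16700792))) (a (b (l 16701328) (l 16688576)) (b (l 16689272) (l 16697528))))))), by decide +kernel⟩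

def k30_mm_202_t : ∃ t, chk3 f_mm_202_t t 13 20 1 = true :=
  ⟨(a (a (a (b (b (l 16671616) (l 16678736)) (b (l 16686424) (l 16694544))) (b (b (l 16680648) (l 16687832)) (b (l 16716544) (b (l 16701680) (l 16705816))))) (b (b (a (b (l 16688160) (l 16691656)) (b (l 16697544) (l 16701112))) (a (b (l 16695272) (l 16699024)) (b (l 16704760) (l 16708544)))) (b (a (b (l 16702912) (l 16706944)) (b (l 16712456) (l 16716520))) (a (b (l 16711080) (l 16715248)) (c (l 16743944) (l 16712128)))))) (b (a (b (a (b (l 16696568) (l 16731688)) (b (l 16716680) (a (l 16717992) (l 16722904)))) (b (a (l 16714424) (a (l 16721776) (l 16726736))) (a (l 16718240) (a (l 16725624) (l 16730608))))) (b (a (b (l 16726456) (l 16730336)) (a (l 16735848) (l 16740872))) (a (a (b (l 16731728) (l 16725168)) (b (l 16736760) (l 16730248))) (b (l 16744384) (a (b (l 16744848) (l 16746872)) (l 16751016)))))) (a (b (b (a (l 16722192) (a (l 16729600) (l 16734608))) (a (l 16715800) (a (l 16733720) (l 16738744))))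 (a (b (a (l 16728000) (l 16732944)) (a (l 16732216) (l 16737168))) (c (a (l 16729720) (l 16734760)) (a (l 16729440) (l 16734504))))) (a (b (c (b (l 16731912) (l 16736048)) (b (l 16731568) (l 16735760))) (a (l 16750216) (a (l 16754072) (l 16756664)))) (c (b (c (l 16757464) (l 16757352)) (b (l 16761120) (l 16765416))) (b (c (l 16757240) (l 16754504)) (b (l 16760976) (l 16765312)))))))), by decide +kernel⟩

def k31_mm_202_t : ∃ t, chk3 f_mm_202_t t 13 21 1 = true :=
  ⟨(a (b (a (b (a (b (l 16700720) (l 16704856)) (b (l 16709960) (l 16714120))) (a (b (l 16709000) (l 16713144)) (b (l 16718280) (l 16722448)))) (b (a (a (l 16698144) (l 16708168)) (b (l 16718584) (l 16722792))) (a (c (l 16719488) (l 16708840)) (l 16750080)))) (a (a (b (b (l 16717288) (l 16721440)) (a (l 16704368) (l 16709000))) (b (a (l 16705368) (l 16715328)) (b (l 16713976) (l 16718128)))) (b (b (a (l 16715184) (b (l 16723880) (l 16736464))) (b (l 16754672) (l 16751528))) (a (l 16757096) (c (l 16756424)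 (l 16756400)))))) (b (a (b (a (c (c (l 16728104) (l 16730608)) (c (l 16730504) (l 16730416))) (a (l 16748560) (l 16753640))) (a (a (b (l 16744880) (l 16738624)) (l 16752000)) (c (l 16759664) (l 16759584)))) (b (b (a (l 16759224) (a (l 16767040) (l 16772320))) (a (c (l 16763560) (l 16763472)) (a (l 16771352) (a (l 16780512) (b (l 16776768) (l 137136971191)))))) (a (b (a (l 16765192) (l 16770400)) (a (l 16769464) (c (l 16779872) (l 16779856)))) (a (a (b (l 16774328) (b (l 16779720) (l 4))) (b (b (l 16775864) (l 99019136199)) (l 4))) (b (b (l 169886091767) (l 4)) (l 4)))))) (a (b (a (c (l 16758000) (l 16757944)) (b (l 16768624) (a (l 16767672) (l 16772808)))) (b (a (l 16764288) (a (l 16771904) (a (l 16780936) (b (l 16776944) (l 152169356535))))) (a (l 16769160) (a (a (l 16774832) (a (l 16776640) (l 94724171367))) (a (l 173107317271) (l 4)))))) (a (b (a (b (l 16776992) (a (c (l 16776536) (l 16781768)) (b (l 105998458135) (l 4)))) (b (a (c (l 79154914183) (l 79154903495))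 (l 181160381335)) (l 4))) (l 4)) (l 4))))), by decide +kernel⟩

def k32_mm_202_t : ∃ t, chk3 f_mm_202_t t 12 11 1 = true :=
  ⟨(b (b (a (a (l 16675784) (b (l 16656432) (a (l 16691752) (l 16700016)))) (a (a (l 16704432) (a (l 16710864) (l 16715216))) (b (l 16732736) (l 16743704)))) (a (b (b (l 16714712) (l 16718592)) (a (c (l 16694864) (l 16695640)) (l 16711536))) (b (a (l 16720784) (a (l 16733992) (l 16743056))) (a (c (c (l 16707472) (l 16707592)) (l 16707904)) (c (l 16756928) (l 16746648)))))) (c (a (b (b (l 16731760) (l 16739432)) (a (l 16721568) (a (l 16734016) (l 16753096)))) (b (c (a (l 16750688) (b (l 16754360) (l 16762304))) (a (l 16750800) (b (l 16754416) (l 16762344)))) (a (b (l 16762464) (a (l 16755280) (l 16764280))) (a (b (l 16765576) (a (l 16771136) (b (l 16773792) (l 75933690999)))) (b (b (l 16780728) (a (l 16774488) (l 103850979031))) (a (b (l 88818593527) (l 4)) (l 4))))))) (b (a (a (l 16707080) (l 16723448)) (a (b (l 16736680) (l 16744480)) (b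 (l 16754560) (l 16762448)))) (a (b (l 16747720) (l 16760576)) (a (b (l 16752248) (l 16759992)) (a (b (l 16765688) (a (l 16771208) (l 16783456))) (b (a (l 16772560) (b (l 16775200) (l 100092882615))) (l 161833017543)))))))), by decide +kernel⟩

def k33_mm_202_t : ∃ t, chk3 f_mm_202_t t 13 11 1 = true :=
  ⟨(b (a (b (a (a (c (l 16750512) (l 16750608)) (b (l 16745328) (l 16753584))) (b (a (c (l 16754944) (l 16754960)) (b (l 16762680) (l 16766848))) (a (c (l 16763216) (l 16763248)) (a (b (l 16768512) (l 16772648)) (b (l 16773480) (c (l 77007422503) (l 75933680663))))))) (a (a (b (l 16752320) (c (l 16760352) (l 16760448))) (b (b (l 16759736) (l 16763816)) (b (l 16769840) (c (l 16771880) (l 16771912))))) (b (a (b (l 16769400) (a (l 16771040) (c (l 16775800) (l 16775792)))) (a (b (c (l 25467824631) (l 24394082631)) (l 176328539511)) (b (l 204245827543) (l 4)))) (a (b (a (c (l 16775040) (l 16775048)) (b (l 108682816231) (l 4))) (a (b (l 87744850471) (l 143042554631))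 (l 4))) (l 4))))) (b (a (a (b (a (b (l 16770168) (l 16779552)) (b (c (l 16775136) (l 16775128)) (a (l 92576684087) (l 4)))) (a (b (a (l 32984017527) (l 133378878967)) (l 4)) (l 4))) (b (a (b (a (l 114588394503) (l 4)) (l 4)) (l 4)) (l 4))) (l 4)) (l 4))) (a (a (b (b (b (a (l 16771640) (a (l 16776144) (c (c (l 89892334071) (l 85597366631)) (l 85597367799)))) (a (c (l 16770384) (l 16770432)) (c (c (l 145726886663) (l 143042541799)) (l 142505667079)))) (c (b (a (c (l 16784752) (l 16779512)) (l 213372629879)) (a (a (l 16781776) (l 191360923543)) (l 4))) (a (b (l 16784768) (a (l 16775880) (l 142505684935))) (l 218204461703)))) (a (b (b (c (l 187602825703) (l 195119015655)) (l 4)) (l 4)) (l 4))) (l 4)) (l 4))), by decide +kernel⟩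

def k34_mm_202_t : ∃ t, chk3 f_mm_202_t t 7 5 1 = true :=
  ⟨(b (a (a (b (b (b (a (a (b (l 16735968) (a (l 16747968) (l 16753104))) (c (l 16758896) (l 16761312))) (a (a (b (l 16759296) (l 16768816)) (b (l 16769880) (a (l 16772856) (b (l 16774480) (l 16776560))))) (a (a (b (l 16773936) (b (l 66270008151) (l 199413991687))) (b (b (l 16775560) (l 87207974119)) (l 4))) (b (a (b (l 109756552615) (l 4)) (l 4)) (l 4))))) (a (a (c (l 16756864) (l 16756656)) (b (l 16765136) (a (l 16756256) (l 16772080)))) (a (a (b (l 16773128) (a (b (l 16775040) (l 16779616)) (b (l 87744845047) (l 4)))) (b (a (b (l 16776064) (l 110293423495)) (l 181160381207)) (l 4))) (l 4)))) (a (a (b (b (c (a (l 16751312) (l 16765760)) (l 16765592)) (a (l 16764648) (b (l 16768904) (l 16771064)))) (a (b (l 16768968) (c (l 16773320) (l 16773288))) (b (b (l 16773240) (c (l 16775360) (l 16775336))) (a (b (l 16776192) (l 111904038311)) (b (l 132305133063) (l 4)))))) (b (b (a (l 16771032) (a (l 16775032)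 (b (l 16776584) (l 133915743863)))) (a (a (l 16774016) (b (l 16775608) (a (l 16777008) (l 131768261143)))) (b (l 170959833511) (l 4)))) (a (b (a (b (l 70028106583) (l 196729637127)) (l 4)) (l 4)) (l 4)))) (b (a (a (b (l 204245832519) (l 4)) (l 4)) (l 4)) (l 4)))) (a (b (a (b (a (b (a (b (l 16775224) (l 16780760)) (b (l 92039814487) (l 4))) (a (l 199413992823) (l 4))) (l 4)) (l 4)) (l 4)) (l 4)) (l 4))) (l 4)) (l 4)) (l 4)), by decide +kernel⟩

def k35_mm_202_t : ∃ t, chk3 f_mm_202_t t 2 12 1 = true :=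
  ⟨(a (b (a (l 6) (b (l 16627120) (l 16652048))) (a (c (l 16606688) (l 16611512)) (c (l 16682048) (l 16685536)))) (a (b (a (b (l 16635944) (l 16650680)) (b (l 16659248) (l 16695128))) (b (c (l 16712688) (l 16720152)) (a (l 16700096) (a (l 16696784) (l 16730240))))) (b (b (a (a (l 16678256) (l 16712784)) (c (a (l 16674144) (l 16720744)) (l 16745592))) (a (c (l 16699464) (l 16700792)) (c (a (l 16720672) (l 16756824)) (a (l 16721576) (l 16736504))))) (a (b (c (l 16714360) (l 16715528)) (c (l 16749736) (l 16750688))) (c (a (b (l 16735608) (l 16771048)) (a (b (l 16746896) (l 16771872)) (b (l 16775712) (b (l 16765672) (l 13656668999))))) (b (b (l 16761128) (l 16768384)) (a (l 16771544) (b (l 16762008) (a (l 16765152) (l 16772840)))))))))), by decide +kernel⟩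

def k36_mm_202_t : ∃ t, chk3 f_mm_202_t t 2 13 1 = true :=
  ⟨(b (a (a (c (l 16631376) (l 16634992)) (c (a (l 16655856) (l 16675272)) (b (l 16662584) (l 16674096)))) (a (a (c (l 16739712) (l 16741504)) (b (c (l 16716016) (l 16717336)) (c (l 16728936) (l 16729944)))) (a (c (b (a (l 16735680) (l 16770512)) (b (l 16773560) (c (l 16758984) (l 16759120)))) (b (c (l 16764112) (l 16743576)) (b (l 16774056) (l 16780368)))) (b (b (a (c (l 16760576) (l 16760888)) (c (a (l 16771896) (c (l 88281731671) (l 88281731335))) (c (a (l 16771968) (l 88818601575)) (l 56069481287)))) (a (c (l 16777888) (l 16767592)) (a (c (c (l 80765538087) (l 81302408199)) (c (l 80765536967) (l 16775488))) (l 4)))) (a (a (b (c (l 16770376) (l 16770512)) (c (c (l 66806891607) (l 16776496)) (l 68954376759))) (b (c (c (l 73786215175) (l 73786214791)) (c (l 74323085127) (l 16776368))) (l 4))) (l 4)))))) (b (a (a (l 16670192) (a (l 16674056) (l 16735744))) (a (c (a (l 16716112) (l 16772864)) (a (l 16717304)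 (l 16773544))) (a (a (c (l 16782536) (l 16782824)) (b (c (c (l 38352735607) (l 16772424)) (a (l 16769048) (l 48553280871))) (c (a (l 50700764407) (l 153779952231)) (c (l 83986748695) (l 83986769255))))) (a (b (c (l 164517362327) (l 163980488919)) (l 4)) (l 4))))) (a (l 2) (a (a (c (l 16728136) (l 16728928)) (b (c (l 16771688) (l 16751168)) (l 2))) (a (a (c (a (c (l 16781152) (l 16770712)) (b (l 44258312087) (l 105461602135))) (c (c (l 49627035895) (l 47479551671)) (l 49627037399))) (a (b (c (l 144116277255) (l 114588407223)) (l 4)) (l 4))) (l 4)))))), by decide +kernel⟩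

def k37_mm_202_t : ∃ t, chk3 f_mm_202_t t 2 7 1 = true :=
  ⟨(a (l 2) (a (l 2) (a (l 2) (l 4)))), by decide +kernel⟩

def k38_mm_202_t : ∃ t, chk3 f_mm_202_t t 3 3 1 = true :=
  ⟨(b (a (a (b (b (a (a (b (c (l 16757744) (l 16758320)) (c (c (l 16772896) (l 16752064)) (b (l 16748600) (l 16756088)))) (b (c (b (l 16749872) (l 16778520)) (b (l 16750232) (l 16757824))) (b (c (a (l 16760824) (l 16769560)) (l 16765376)) (c (a (l 16768440) (a (l 26541570055) (b (l 16776672) (l 134989491799)))) (a (l 16768576) (a (l 16774920) (l 86134245399))))))) (b (a (c (b (a (l 16763048) (b (l 16770144) (l 16784448))) (a (l 16781264) (a (b (l 16775568) (l 107072204663)) (l 182234114295)))) (b (a (l 16763224) (l 16782576)) (a (l 16770864) (a (l 52848247575) (l 188139692119))))) (b (a (a (c (b (l 16781992) (l 195119017991)) (l 83986756471)) (l 4)) (l 4)) (l 4))) (a (b (a (c (a (b (l 16774312) (l 16782984)) (l 148411248007)) (b (l 16784816) (l 112440919495))) (l 4)) (l 4)) (l 4)))) (a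 (b (b (a (c (l 16773752) (l 16763496)) (a (a (c (l 16773776) (l 16773832)) (c (a (l 53921986343) (l 93113564647)) (l 67343762263))) (c (l 187602818199) (l 187065944423)))) (a (a (c (l 16766504) (l 16766688)) (c (c (l 35131506999) (l 16774688)) (a (l 16772792) (l 54995729927)))) (a (c (l 169886079639) (l 174181044727)) (l 4)))) (a (a (c (b (c (l 16784168) (l 16773704)) (b (l 85060502023) (l 172033563751))) (b (l 16784240) (c (l 97408537127) (l 97945407479)))) (b (b (c (l 106535339159) (l 108682822103)) (l 4)) (l 4))) (l 4))) (l 4))) (l 4)) (l 4)) (l 4)) (l 4)), by decide +kernel⟩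

theorem s39_mm_202_t : ∃ t, chk3 f_mm_202_t t 2 6 1 = true := ex3_b k35_mm_202_t k36_mm_202_t

theorem s40_mm_202_t : ∃ t, chk3 f_mm_202_t t 2 3 1 = true := ex3_b s39_mm_202_t k37_mm_202_t

theorem s41_mm_202_t : ∃ t, chk3 f_mm_202_t t 1 3 1 = true := ex3_a s40_mm_202_t k38_mm_202_t

theorem s42_mm_202_t : ∃ t, chk3 f_mm_202_t t 6 11 1 = true := ex3_a k32_mm_202_t k33_mm_202_t

theorem s43_mm_202_t : ∃ t, chk3 f_mm_202_t t 13 10 1 = true := ex3_b k30_mm_202_t k31_mm_202_t

theorem s44_mm_202_t : ∃ t, chk3 f_mm_202_t t 6 10 1 = true := ex3_a k29_mm_202_t s43_mm_202_t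

theorem s45_mm_202_t : ∃ t, chk3 f_mm_202_t t 6 5 1 = true := ex3_b s44_mm_202_t s42_mm_202_t

theorem s46_mm_202_t : ∃ t, chk3 f_mm_202_t t 3 5 1 = true := ex3_a s45_mm_202_t k34_mm_202_t

theorem s47_mm_202_t : ∃ t, chk3 f_mm_202_t t 60 36 1 = true := ex3_b k23_mm_202_t k24_mm_202_t

theorem s48_mm_202_t : ∃ t, chk3 f_mm_202_t t 60 18 1 = true := ex3_b s47_mm_202_t k25_mm_202_t

theorem s49_mm_202_t : ∃ t, chk3 f_mm_202_t t 30 18 1 = true := ex3_a s48_mm_202_t k26_mm_202_t

theorem s50_mm_202_t : ∃ t, chk3 f_mm_202_t t 30 9 1 = true := ex3_b s49_mm_202_t k27_mm_202_t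

theorem s51_mm_202_t : ∃ t, chk3 f_mm_202_t t 15 9 1 = true := ex3_a s50_mm_202_t k28_mm_202_t

theorem s52_mm_202_t : ∃ t, chk3 f_mm_202_t t 14 19 1 = true := ex3_a k21_mm_202_t k22_mm_202_t

theorem s53_mm_202_t : ∃ t, chk3 f_mm_202_t t 29 37 1 = true := ex3_a k19_mm_202_t k20_mm_202_t

theorem s54_mm_202_t : ∃ t, chk3 f_mm_202_t t 29 18 1 = true := ex3_b k18_mm_202_t s53_mm_202_t

theorem s55_mm_202_t : ∃ t, chk3 f_mm_202_t t 14 18 1 = true := ex3_a k17_mm_202_t s54_mm_202_t

theorem s56_mm_202_t : ∃ t, chk3 f_mm_202_t t 14 9 1 = true := ex3_b s55_mm_202_t s52_mm_202_t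

theorem s57_mm_202_t : ∃ t, chk3 f_mm_202_t t 7 9 1 = true := ex3_a s56_mm_202_t s51_mm_202_t

theorem s58_mm_202_t : ∃ t, chk3 f_mm_202_t t 122 35 1 = true := ex3_a k13_mm_202_t k14_mm_202_t

theorem s59_mm_202_t : ∃ t, chk3 f_mm_202_t t 61 35 1 = true := ex3_a s58_mm_202_t k15_mm_202_t

theorem s60_mm_202_t : ∃ t, chk3 f_mm_202_t t 30 35 1 = true := ex3_a k12_mm_202_t s59_mm_202_t

theorem s61_mm_202_t : ∃ t, chk3 f_mm_202_t t 61 139 1 = true := ex3_b k10_mm_202_t k11_mm_202_t

theorem s62_mm_202_t : ∃ t, chk3 f_mm_202_t t 61 69 1 = true := ex3_b k9_mm_202_t s61_mm_202_t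

theorem s63_mm_202_t : ∃ t, chk3 f_mm_202_t t 61 34 1 = true := ex3_b k8_mm_202_t s62_mm_202_t

theorem s64_mm_202_t : ∃ t, chk3 f_mm_202_t t 30 34 1 = true := ex3_a k7_mm_202_t s63_mm_202_t

theorem s65_mm_202_t : ∃ t, chk3 f_mm_202_t t 30 17 1 = true := ex3_b s64_mm_202_t s60_mm_202_t

theorem s66_mm_202_t : ∃ t, chk3 f_mm_202_t t 15 17 1 = true := ex3_a s65_mm_202_t k16_mm_202_t

theorem s67_mm_202_t : ∃ t, chk3 f_mm_202_t t 15 8 1 = true := ex3_b k6_mm_202_t s66_mm_202_t

theorem s68_mm_202_t : ∃ t, chk3 f_mm_202_t t 14 17 1 = true := ex3_a k4_mm_202_t k5_mm_202_t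

theorem s69_mm_202_t : ∃ t, chk3 f_mm_202_t t 14 8 1 = true := ex3_b k3_mm_202_t s68_mm_202_t

theorem s70_mm_202_t : ∃ t, chk3 f_mm_202_t t 7 8 1 = true := ex3_a s69_mm_202_t s67_mm_202_t

theorem s71_mm_202_t : ∃ t, chk3 f_mm_202_t t 7 4 1 = true := ex3_b s70_mm_202_t s57_mm_202_t

theorem s72_mm_202_t : ∃ t, chk3 f_mm_202_t t 6 4 1 = true := ex3_b k1_mm_202_t k2_mm_202_t

theorem s73_mm_202_t : ∃ t, chk3 f_mm_202_t t 3 4 1 = true := ex3_a s72_mm_202_t s71_mm_202_t

theorem s74_mm_202_t : ∃ t, chk3 f_mm_202_t t 3 2 1 = true := ex3_b s73_mm_202_t s46_mm_202_t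

theorem s75_mm_202_t : ∃ t, chk3 f_mm_202_t t 1 2 1 = true := ex3_a k0_mm_202_t s74_mm_202_t

theorem s76_mm_202_t : ∃ t, chk3 f_mm_202_t t 1 1 1 = true := ex3_b s75_mm_202_t s41_mm_202_t

theorem c_mm_202_t : CertNE 0 536870912 0 536870912 780900216 37827925 3 eng mog cd0q2 cd0q0 pd2 true false false .pp 2 0 2
    ndB0q2 ndB0q0 pcB2 cut_mm_202_t Ext.none :=
  certNE0 (fam := true) (s1 := false) (s2 := false) (a := 2) (b := 0) (c := 2) (cn := .pp) (n1 := ndB0q2) (n2 := ndB0q0) (pc := pcB2) (cut := cut_mm_202_t) (xt := Ext.none) (P1 := 0) (W1 := 536870912) (P2 := 0) (W2 := 536870912) (P3 := 780900216) (W3 := 37827925) (N0 := 3) (En := eng) (mo := mog) (C1 := cd0q2) (C2 := cd0q0) (C3 := pd2)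
    rfl s76_mm_202_t

noncomputable def cut_mm_203_s : Cut := Cut.of [[⟨4, 0, 0, 1449551462⟩]]

noncomputable def f_mm_203_s : ℕ → ℕ → ℕ → ℕ → Bool := onCell 0 536870912 0 536870912 780900216 37827925
    (rowNE 3 eng mog cd0q2 cd0q0 pd3 0 true false false .up 2 0 3 (qsf 0 536870912 0 536870912 3) ndB0q2 ndB0q0 pcB3 cut_mm_203_s Ext.none)

def k0_mm_203_s : ∃ t, chk3 f_mm_203_s t 1 1 1 = true :=
  ⟨(l 6), by decide +kernel⟩

theorem c_mm_203_s : CertNE 0 536870912 0 536870912 780900216 37827925 3 eng mog cd0q2 cd0q0 pd3 true false false .up 2 0 3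
    ndB0q2 ndB0q0 pcB3 cut_mm_203_s Ext.none :=
  certNE0 (fam := true) (s1 := false) (s2 := false) (a := 2) (b := 0) (c := 3) (cn := .up) (n1 := ndB0q2) (n2 := ndB0q0) (pc := pcB3) (cut := cut_mm_203_s) (xt := Ext.none) (P1 := 0) (W1 := 536870912) (P2 := 0) (W2 := 536870912) (P3 := 780900216) (W3 := 37827925) (N0 := 3) (En := eng) (mo := mog) (C1 := cd0q2) (C2 := cd0q0) (C3 := pd3)
    rfl k0_mm_203_s

noncomputable def cut_mm_203_t : Cut := Cut.of [[⟨3, 0, 0, 2845415833⟩]]

noncomputable def f_mm_203_t : ℕ → ℕ → ℕ → ℕ → Bool := onCell 0 536870912 1610612736 536870912 780900216 37827925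
    (rowNE 3 eng mog cd0q2 cd0q0 pd3 1 true false false .up 2 0 3 (qsf 0 536870912 0 536870912 3) ndB0q2 ndB0q0 pcB3 cut_mm_203_t Ext.none)

def k0_mm_203_t : ∃ t, chk3 f_mm_203_t t 4 2 1 = true :=
  ⟨(b (c (b (b (a (b (l 16638992) (l 16653960)) (b (l 16703632) (l 16759504))) (a (b (l 16667784) (l 16680560)) (a (l 16766656) (b (l 16721480) (l 16733808))))) (a (b (b (l 16692408) (l 16703496)) (b (l 16713944) (l 16723584))) (b (b (a (l 16721712) (l 16766688)) (a (l 16733144) (a (l 16750848) (l 16764248)))) (a (b (l 16744360) (l 16755296)) (b (a (l 16762432) (b (l 16773256) (l 85060514023))) (a (b (l 16771152) (l 87207925591)) (l 144653137751))))))) (b (b (a (l 16692424) (b (l 16706168) (l 16740400))) (a (b (l 16669976) (l 16681552)) (c (b (l 16710536) (l 16743448)) (l 16779968)))) (b (a (b (l 16692160) (l 16701992)) (b (a (l 16721704) (l 16766744)) (a (l 16732552) (c (l 16757344) (l 16757480))))) (b (a (l 16713040) (a (l 16744096) (a (l 16762440) (c (l 90966003015)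 (l 89892263639))))) (a (l 16724616) (a (l 16755752) (a (c (l 87744789191) (l 16774040)) (b (l 103314029351) (l 4))))))))) (b (b (a (b (a (l 16725640) (c (l 16743976) (l 16745272))) (c (l 16766368) (l 16767136))) (a (b (b (c (l 16763536) (l 16764120)) (c (l 66806834903) (l 62511868951))) (b (c (l 86671038055) (l 90966008839)) (c (l 90965992439) (l 96871586919)))) (b (b (c (l 146263748119) (l 147874359207)) (l 4)) (l 4)))) (a (l 2) (l 2))) (l 2))), by decide +kernel⟩

def k1_mm_203_t : ∃ t, chk3 f_mm_203_t t 5 2 1 = true :=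
  ⟨(b (b (a (b (b (a (c (l 16744400) (l 16724712)) (b (c (l 16772832) (l 16773400)) (c (a (l 16750272) (l 16766864)) (c (l 16758856) (l 16759104))))) (a (c (l 16778784) (l 16779624)) (c (a (l 16781112) (a (b (l 16769184) (l 58753831799)) (b (c (l 74859959575) (l 16786880)) (l 159148658711)))) (a (l 16781440) (b (c (l 44795191175) (l 16773296)) (c (l 88281729127) (l 94724092935))))))) (a (a (c (b (l 16742224) (l 16775568)) (b (l 16742808) (l 16775800))) (c (b (l 16778160) (c (b (l 16766504) (l 41573962135)) (l 32984036759))) (b (l 16778480) (c (a (l 16765848) (l 48553288887)) (l 16769688))))) (b (a (c (a (b (l 16765712) (l 16771984)) (b (l 16784160) (c (l 95797856487) (l 95797857095)))) (c (c (l 48553297415) (l 47479554695)) (l 81839196359))) (b (b (c (l 153779948535) (l 153779947207)) (l 4)) (l 4))) (b (a (a (c (l 74859960839) (l 79691797511)) (l 4)) (l 4)) (l 4))))) (b (a (b (a (b (c (a (l 35668379559) (l 139821309463)) (c (c (l 64659420647) (l 73249354663))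 (l 73786226695))) (a (c (c (l 92576701351) (l 89355475351)) (c (l 94724183607) (l 16774544))) (l 4))) (l 4)) (l 4)) (l 4)) (l 4))) (a (a (b (a (b (c (c (l 16766696) (l 16766712)) (c (l 16766728) (l 16766744))) (b (c (a (l 16772048) (l 92039829111)) (l 89892275335)) (a (c (l 80765538647) (l 93113512263)) (l 4)))) (b (b (c (a (l 16774880) (l 146800630103)) (c (l 89892265639) (l 16775552))) (c (l 144116271463) (l 145726883031))) (l 4))) (l 4)) (l 4)) (l 4))) (l 4)), by decide +kernel⟩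

def k2_mm_203_t : ∃ t, chk3 f_mm_203_t t 3 2 1 = true :=
  ⟨(l 4), by decide +kernel⟩

def k3_mm_203_t : ∃ t, chk3 f_mm_203_t t 1 3 1 = true :=
  ⟨(l 2), by decide +kernel⟩

theorem s4_mm_203_t : ∃ t, chk3 f_mm_203_t t 2 2 1 = true := ex3_a k0_mm_203_t k1_mm_203_t

theorem s5_mm_203_t : ∃ t, chk3 f_mm_203_t t 1 2 1 = true := ex3_a s4_mm_203_t k2_mm_203_t

theorem s6_mm_203_t : ∃ t, chk3 f_mm_203_t t 1 1 1 = true := ex3_b s5_mm_203_t k3_mm_203_t

theorem c_mm_203_t : CertNE 0 536870912 0 536870912 780900216 37827925 3 eng mog cd0q2 cd0q0 pd3 true false false .up 2 0 3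
    ndB0q2 ndB0q0 pcB3 cut_mm_203_t Ext.none :=
  certNE1 (fam := true) (s1 := false) (s2 := false) (a := 2) (b := 0) (c := 3) (cn := .up) (n1 := ndB0q2) (n2 := ndB0q0) (pc := pcB3) (cut := cut_mm_203_t) (xt := Ext.none) (P1 := 0) (W1 := 536870912) (P2 := 0) (W2 := 536870912) (P3 := 780900216) (W3 := 37827925) (N0 := 3) (En := eng) (mo := mog) (C1 := cd0q2) (C2 := cd0q0) (C3 := pd3)
    rfl (fun _ => rfl) s6_mm_203_t

noncomputable def cut_mm_213_s : Cut := Cut.of [[⟨4, 0, 0, 1449551462⟩]]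

noncomputable def f_mm_213_s : ℕ → ℕ → ℕ → ℕ → Bool := onCell 0 536870912 536870912 536870912 780900216 37827925
    (rowNE 3 eng mog cd0q2 cd0q1 pd3 0 true false false .pnn 2 1 3 (qsf 0 536870912 536870912 536870912 3) ndB0q2 ndB0q1 pcB3 cut_mm_213_s Ext.none)

def k0_mm_213_s : ∃ t, chk3 f_mm_213_s t 1 1 1 = true :=
  ⟨(l 6), by decide +kernel⟩

theorem c_mm_213_s : CertNE 0 536870912 536870912 536870912 780900216 37827925 3 eng mog cd0q2 cd0q1 pd3 true false false .pnn 2 1 3
    ndB0q2 ndB0q1 pcB3 cut_mm_213_s Ext.none :=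
  certNE0 (fam := true) (s1 := false) (s2 := false) (a := 2) (b := 1) (c := 3) (cn := .pnn) (n1 := ndB0q2) (n2 := ndB0q1) (pc := pcB3) (cut := cut_mm_213_s) (xt := Ext.none) (P1 := 0) (W1 := 536870912) (P2 := 536870912) (W2 := 536870912) (P3 := 780900216) (W3 := 37827925) (N0 := 3) (En := eng) (mo := mog) (C1 := cd0q2) (C2 := cd0q1) (C3 := pd3)
    rfl k0_mm_213_s

noncomputable def cut_mm_213_t : Cut := Cut.of [[⟨3, 0, 0, 2845415833⟩]]

noncomputable def f_mm_213_t : ℕ → ℕ → ℕ → ℕ → Bool := onCell 0 536870912 536870912 536870912 780900216 37827925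
    (rowNE 3 eng mog cd0q2 cd0q1 pd3 0 true false false .pnn 2 1 3 (qsf 0 536870912 536870912 536870912 3) ndB0q2 ndB0q1 pcB3 cut_mm_213_t Ext.none)

def k0_mm_213_t : ∃ t, chk3 f_mm_213_t t 1 1 1 = true :=
  ⟨(a (b (a (b (b (b (b (a (a (l 16745488) (b (l 16761368) (l 39963349703))) (a (a (c (l 89892361863) (a (l 65733158615) (l 99019078247))) (l 4)) (l 4))) (a (a (l 16755032) (a (l 16768704) (b (l 89892291783) (l 99019084295)))) (l 4))) (a (b (a (l 16764296) (a (a (l 65196290391) (l 106535357367)) (l 4))) (a (a (l 16768880) (l 97408552823)) (l 4))) (l 4))) (a (b (a (b (a (l 99019163415) (l 4)) (l 4)) (l 4)) (l 4)) (l 4))) (l 4)) (l 4)) (l 4)) (l 4)), by decide +kernel⟩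

theorem c_mm_213_t : CertNE 0 536870912 536870912 536870912 780900216 37827925 3 eng mog cd0q2 cd0q1 pd3 true false false .pnn 2 1 3
    ndB0q2 ndB0q1 pcB3 cut_mm_213_t Ext.none :=
  certNE0 (fam := true) (s1 := false) (s2 := false) (a := 2) (b := 1) (c := 3) (cn := .pnn) (n1 := ndB0q2) (n2 := ndB0q1) (pc := pcB3) (cut := cut_mm_213_t) (xt := Ext.none) (P1 := 0) (W1 := 536870912) (P2 := 536870912) (W2 := 536870912) (P3 := 780900216) (W3 := 37827925) (N0 := 3) (En := eng) (mo := mog) (C1 := cd0q2) (C2 := cd0q1) (C3 := pd3)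
    rfl k0_mm_213_t

end Pool.Agent.Strip051.G.I72727_7625.Tab.CS.BA00

namespace Pool.Agent.Strip051.G.I72727_7625.Tab.CS.BA05

open Pool.Agent.Strip051.PB Pool.Agent.Strip051.PB.T
open Pool.Agent.Strip051.G.I72727_7625.Tab

noncomputable def cut_pp_001_s : Cut := Cut.of [[⟨4, 0, 0, 1449551462⟩]]

noncomputable def f_pp_001_s : ℕ → ℕ → ℕ → ℕ → Bool := onCell 0 536870912 0 536870912 780900216 37827925
    (rowNE 3 eng mog cd0q0 cd5q0 pd1 0 true true true .up 0 0 1 (qsf 0 536870912 0 536870912 1) ndB0q0 ndB5q0 pcB1 cut_pp_001_s Ext.none)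

def k0_pp_001_s : ∃ t, chk3 f_pp_001_s t 1 1 1 = true :=
  ⟨(l 4), by decide +kernel⟩

theorem c_pp_001_s : CertNE 0 536870912 0 536870912 780900216 37827925 3 eng mog cd0q0 cd5q0 pd1 true true true .up 0 0 1
    ndB0q0 ndB5q0 pcB1 cut_pp_001_s Ext.none :=
  certNE0 (fam := true) (s1 := true) (s2 := true) (a := 0) (b := 0) (c := 1) (cn := .up) (n1 := ndB0q0) (n2 := ndB5q0) (pc := pcB1) (cut := cut_pp_001_s) (xt := Ext.none) (P1 := 0) (W1 := 536870912) (P2 := 0) (W2 := 536870912) (P3 := 780900216) (W3 := 37827925) (N0 := 3) (En := eng) (mo := mog) (C1 := cd0q0) (C2 := cd5q0) (C3 := pd1)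
    rfl k0_pp_001_s

noncomputable def cut_pp_011_s : Cut := Cut.of [[⟨4, 0, 0, 1449551462⟩]]

noncomputable def f_pp_011_s : ℕ → ℕ → ℕ → ℕ → Bool := onCell 0 536870912 536870912 536870912 780900216 37827925
    (rowNE 3 eng mog cd0q0 cd5q1 pd1 0 true true true .pnn 0 1 1 (qsf 0 536870912 536870912 536870912 1) ndB0q0 ndB5q1 pcB1 cut_pp_011_s Ext.none)

def k0_pp_011_s : ∃ t, chk3 f_pp_011_s t 1 1 1 = true :=
  ⟨(l 4), by decide +kernel⟩

theorem c_pp_011_s : CertNE 0 536870912 536870912 536870912 780900216 37827925 3 eng mog cd0q0 cd5q1 pd1 true true true .pnn 0 1 1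
    ndB0q0 ndB5q1 pcB1 cut_pp_011_s Ext.none :=
  certNE0 (fam := true) (s1 := true) (s2 := true) (a := 0) (b := 1) (c := 1) (cn := .pnn) (n1 := ndB0q0) (n2 := ndB5q1) (pc := pcB1) (cut := cut_pp_011_s) (xt := Ext.none) (P1 := 0) (W1 := 536870912) (P2 := 536870912) (W2 := 536870912) (P3 := 780900216) (W3 := 37827925) (N0 := 3) (En := eng) (mo := mog) (C1 := cd0q0) (C2 := cd5q1) (C3 := pd1)
    rfl k0_pp_011_s

noncomputable def cut_pp_012_s : Cut := Cut.of [[⟨4, 0, 0, 1449551462⟩]]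

noncomputable def f_pp_012_s : ℕ → ℕ → ℕ → ℕ → Bool := onCell 0 536870912 536870912 536870912 780900216 37827925
    (rowNE 3 eng mog cd0q0 cd5q1 pd2 0 true true true .pnp 0 1 2 (qsf 0 536870912 536870912 536870912 2) ndB0q0 ndB5q1 pcB2 cut_pp_012_s Ext.none)

def k0_pp_012_s : ∃ t, chk3 f_pp_012_s t 1 1 1 = true :=
  ⟨(l 4), by decide +kernel⟩

theorem c_pp_012_s : CertNE 0 536870912 536870912 536870912 780900216 37827925 3 eng mog cd0q0 cd5q1 pd2 true true true .pnp 0 1 2
    ndB0q0 ndB5q1 pcB2 cut_pp_012_s Ext.none :=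
  certNE0 (fam := true) (s1 := true) (s2 := true) (a := 0) (b := 1) (c := 2) (cn := .pnp) (n1 := ndB0q0) (n2 := ndB5q1) (pc := pcB2) (cut := cut_pp_012_s) (xt := Ext.none) (P1 := 0) (W1 := 536870912) (P2 := 536870912) (W2 := 536870912) (P3 := 780900216) (W3 := 37827925) (N0 := 3) (En := eng) (mo := mog) (C1 := cd0q0) (C2 := cd5q1) (C3 := pd2)
    rfl k0_pp_012_s

noncomputable def cut_pp_022_s : Cut := Cut.of [[⟨4, 0, 0, 1449551462⟩]]

noncomputable def f_pp_022_s : ℕ → ℕ → ℕ → ℕ → Bool := onCell 0 536870912 1073741824 536870912 780900216 37827925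
    (rowNE 3 eng mog cd0q0 cd5q2 pd2 0 true true true .pp 0 2 2 (qsf 0 536870912 1073741824 536870912 2) ndB0q0 ndB5q2 pcB2 cut_pp_022_s Ext.none)

def k0_pp_022_s : ∃ t, chk3 f_pp_022_s t 1 1 1 = true :=
  ⟨(l 4), by decide +kernel⟩

theorem c_pp_022_s : CertNE 0 536870912 1073741824 536870912 780900216 37827925 3 eng mog cd0q0 cd5q2 pd2 true true true .pp 0 2 2
    ndB0q0 ndB5q2 pcB2 cut_pp_022_s Ext.none :=
  certNE0 (fam := true) (s1 := true) (s2 := true) (a := 0) (b := 2) (c := 2) (cn := .pp) (n1 := ndB0q0) (n2 := ndB5q2) (pc := pcB2) (cut := cut_pp_022_s) (xt := Ext.none) (P1 := 0) (W1 := 536870912) (P2 := 1073741824) (W2 := 536870912) (P3 := 780900216) (W3 := 37827925) (N0 := 3) (En := eng) (mo := mog) (C1 := cd0q0) (C2 := cd5q2) (C3 := pd2)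
    rfl k0_pp_022_s

noncomputable def cut_pp_023_s : Cut := Cut.of [[⟨4, 0, 0, 1449551462⟩]]

noncomputable def f_pp_023_s : ℕ → ℕ → ℕ → ℕ → Bool := onCell 0 536870912 1073741824 536870912 780900216 37827925
    (rowNE 3 eng mog cd0q0 cd5q2 pd3 0 true true true .up 0 2 3 (qsf 0 536870912 1073741824 536870912 3) ndB0q0 ndB5q2 pcB3 cut_pp_023_s Ext.none)

def k0_pp_023_s : ∃ t, chk3 f_pp_023_s t 1 1 1 = true :=
  ⟨(l 4), by decide +kernel⟩

theorem c_pp_023_s : CertNE 0 536870912 1073741824 536870912 780900216 37827925 3 eng mog cd0q0 cd5q2 pd3 true true true .up 0 2 3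
    ndB0q0 ndB5q2 pcB3 cut_pp_023_s Ext.none :=
  certNE0 (fam := true) (s1 := true) (s2 := true) (a := 0) (b := 2) (c := 3) (cn := .up) (n1 := ndB0q0) (n2 := ndB5q2) (pc := pcB3) (cut := cut_pp_023_s) (xt := Ext.none) (P1 := 0) (W1 := 536870912) (P2 := 1073741824) (W2 := 536870912) (P3 := 780900216) (W3 := 37827925) (N0 := 3) (En := eng) (mo := mog) (C1 := cd0q0) (C2 := cd5q2) (C3 := pd3)
    rfl k0_pp_023_s

noncomputable def cut_pp_033_s : Cut := Cut.of [[⟨4, 0, 0, 1449551462⟩]]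

noncomputable def f_pp_033_s : ℕ → ℕ → ℕ → ℕ → Bool := onCell 0 536870912 0 1230186008 780900216 37827925
    (rowNE 3 eng mog cd0q0 cd5q3 pd3 0 true true true .pnn 0 3 3 (qsf 0 536870912 0 1230186008 3) ndB0q0 ndB5q3 pcB3 cut_pp_033_s Ext.none)

def k0_pp_033_s : ∃ t, chk3 f_pp_033_s t 1 1 1 = true :=
  ⟨(l 4), by decide +kernel⟩

theorem c_pp_033_s : CertNE 0 536870912 0 1230186008 780900216 37827925 3 eng mog cd0q0 cd5q3 pd3 true true true .pnn 0 3 3
    ndB0q0 ndB5q3 pcB3 cut_pp_033_s Ext.none :=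
  certNE0 (fam := true) (s1 := true) (s2 := true) (a := 0) (b := 3) (c := 3) (cn := .pnn) (n1 := ndB0q0) (n2 := ndB5q3) (pc := pcB3) (cut := cut_pp_033_s) (xt := Ext.none) (P1 := 0) (W1 := 536870912) (P2 := 0) (W2 := 1230186008) (P3 := 780900216) (W3 := 37827925) (N0 := 3) (En := eng) (mo := mog) (C1 := cd0q0) (C2 := cd5q3) (C3 := pd3)
    rfl k0_pp_033_s

noncomputable def cut_pp_101_s : Cut := Cut.of [[⟨4, 0, 0, 1449551462⟩]]

noncomputable def f_pp_101_s : ℕ → ℕ → ℕ → ℕ → Bool := onCell 536870912 536870912 0 536870912 780900216 37827925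
    (rowNE 3 eng mog cd0q1 cd5q0 pd1 0 true true true .npn 1 0 1 (qsf 536870912 536870912 0 536870912 1) ndB0q1 ndB5q0 pcB1 cut_pp_101_s Ext.none)

def k0_pp_101_s : ∃ t, chk3 f_pp_101_s t 1 1 1 = true :=
  ⟨(l 4), by decide +kernel⟩

theorem c_pp_101_s : CertNE 536870912 536870912 0 536870912 780900216 37827925 3 eng mog cd0q1 cd5q0 pd1 true true true .npn 1 0 1
    ndB0q1 ndB5q0 pcB1 cut_pp_101_s Ext.none :=
  certNE0 (fam := true) (s1 := true) (s2 := true) (a := 1) (b := 0) (c := 1) (cn := .npn) (n1 := ndB0q1) (n2 := ndB5q0) (pc := pcB1) (cut := cut_pp_101_s) (xt := Ext.none) (P1 := 536870912) (W1 := 536870912) (P2 := 0) (W2 := 536870912) (P3 := 780900216) (W3 := 37827925) (N0 := 3) (En := eng) (mo := mog) (C1 := cd0q1) (C2 := cd5q0) (C3 := pd1)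
    rfl k0_pp_101_s

noncomputable def cut_pp_102_s : Cut := Cut.of [[⟨4, 0, 0, 1449551462⟩]]

noncomputable def f_pp_102_s : ℕ → ℕ → ℕ → ℕ → Bool := onCell 536870912 536870912 0 536870912 780900216 37827925
    (rowNE 3 eng mog cd0q1 cd5q0 pd2 0 true true true .npp 1 0 2 (qsf 536870912 536870912 0 536870912 2) ndB0q1 ndB5q0 pcB2 cut_pp_102_s Ext.none)

def k0_pp_102_s : ∃ t, chk3 f_pp_102_s t 1 1 1 = true :=
  ⟨(l 4), by decide +kernel⟩

theorem c_pp_102_s : CertNE 536870912 536870912 0 536870912 780900216 37827925 3 eng mog cd0q1 cd5q0 pd2 true true true .npp 1 0 2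
    ndB0q1 ndB5q0 pcB2 cut_pp_102_s Ext.none :=
  certNE0 (fam := true) (s1 := true) (s2 := true) (a := 1) (b := 0) (c := 2) (cn := .npp) (n1 := ndB0q1) (n2 := ndB5q0) (pc := pcB2) (cut := cut_pp_102_s) (xt := Ext.none) (P1 := 536870912) (W1 := 536870912) (P2 := 0) (W2 := 536870912) (P3 := 780900216) (W3 := 37827925) (N0 := 3) (En := eng) (mo := mog) (C1 := cd0q1) (C2 := cd5q0) (C3 := pd2)
    rfl k0_pp_102_s

noncomputable def cut_pp_112_s : Cut := Cut.of [[⟨4, 0, 0, 1449551462⟩]]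

noncomputable def f_pp_112_s : ℕ → ℕ → ℕ → ℕ → Bool := onCell 536870912 536870912 536870912 536870912 780900216 37827925
    (rowNE 3 eng mog cd0q1 cd5q1 pd2 0 true true true .dn 1 1 2 (qsf 536870912 536870912 536870912 536870912 2) ndB0q1 ndB5q1 pcB2 cut_pp_112_s Ext.none)

def k0_pp_112_s : ∃ t, chk3 f_pp_112_s t 1 1 1 = true :=
  ⟨(l 4), by decide +kernel⟩

theorem c_pp_112_s : CertNE 536870912 536870912 536870912 536870912 780900216 37827925 3 eng mog cd0q1 cd5q1 pd2 true true true .dn 1 1 2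
    ndB0q1 ndB5q1 pcB2 cut_pp_112_s Ext.none :=
  certNE0 (fam := true) (s1 := true) (s2 := true) (a := 1) (b := 1) (c := 2) (cn := .dn) (n1 := ndB0q1) (n2 := ndB5q1) (pc := pcB2) (cut := cut_pp_112_s) (xt := Ext.none) (P1 := 536870912) (W1 := 536870912) (P2 := 536870912) (W2 := 536870912) (P3 := 780900216) (W3 := 37827925) (N0 := 3) (En := eng) (mo := mog) (C1 := cd0q1) (C2 := cd5q1) (C3 := pd2)
    rfl k0_pp_112_s

noncomputable def cut_pp_113_s : Cut := Cut.of [[⟨4, 0, 0, 1449551462⟩]]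

noncomputable def f_pp_113_s : ℕ → ℕ → ℕ → ℕ → Bool := onCell 536870912 536870912 536870912 536870912 780900216 37827925
    (rowNE 3 eng mog cd0q1 cd5q1 pd3 0 true true true .nn 1 1 3 (qsf 536870912 536870912 536870912 536870912 3) ndB0q1 ndB5q1 pcB3 cut_pp_113_s Ext.none)

def k0_pp_113_s : ∃ t, chk3 f_pp_113_s t 1 1 1 = true :=
  ⟨(l 4), by decide +kernel⟩

theorem c_pp_113_s : CertNE 536870912 536870912 536870912 536870912 780900216 37827925 3 eng mog cd0q1 cd5q1 pd3 true true true .nn 1 1 3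
    ndB0q1 ndB5q1 pcB3 cut_pp_113_s Ext.none :=
  certNE0 (fam := true) (s1 := true) (s2 := true) (a := 1) (b := 1) (c := 3) (cn := .nn) (n1 := ndB0q1) (n2 := ndB5q1) (pc := pcB3) (cut := cut_pp_113_s) (xt := Ext.none) (P1 := 536870912) (W1 := 536870912) (P2 := 536870912) (W2 := 536870912) (P3 := 780900216) (W3 := 37827925) (N0 := 3) (En := eng) (mo := mog) (C1 := cd0q1) (C2 := cd5q1) (C3 := pd3)
    rfl k0_pp_113_s

noncomputable def cut_pp_123_s : Cut := Cut.of [[⟨4, 0, 0, 1449551462⟩]]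

noncomputable def f_pp_123_s : ℕ → ℕ → ℕ → ℕ → Bool := onCell 536870912 536870912 1073741824 536870912 780900216 37827925
    (rowNE 3 eng mog cd0q1 cd5q2 pd3 0 true true true .npn 1 2 3 (qsf 536870912 536870912 1073741824 536870912 3) ndB0q1 ndB5q2 pcB3 cut_pp_123_s Ext.none)

def k0_pp_123_s : ∃ t, chk3 f_pp_123_s t 1 1 1 = true :=
  ⟨(l 4), by decide +kernel⟩

theorem c_pp_123_s : CertNE 536870912 536870912 1073741824 536870912 780900216 37827925 3 eng mog cd0q1 cd5q2 pd3 true true true .npn 1 2 3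
    ndB0q1 ndB5q2 pcB3 cut_pp_123_s Ext.none :=
  certNE0 (fam := true) (s1 := true) (s2 := true) (a := 1) (b := 2) (c := 3) (cn := .npn) (n1 := ndB0q1) (n2 := ndB5q2) (pc := pcB3) (cut := cut_pp_123_s) (xt := Ext.none) (P1 := 536870912) (W1 := 536870912) (P2 := 1073741824) (W2 := 536870912) (P3 := 780900216) (W3 := 37827925) (N0 := 3) (En := eng) (mo := mog) (C1 := cd0q1) (C2 := cd5q2) (C3 := pd3)
    rfl k0_pp_123_s

noncomputable def cut_pp_133_s : Cut := Cut.of [[⟨4, 0, 0, 1449551462⟩]]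

noncomputable def f_pp_133_s : ℕ → ℕ → ℕ → ℕ → Bool := onCell 536870912 536870912 0 1230186008 780900216 37827925
    (rowNE 3 eng mog cd0q1 cd5q3 pd3 0 true true true .dn 1 3 3 (qsf 536870912 536870912 0 1230186008 3) ndB0q1 ndB5q3 pcB3 cut_pp_133_s Ext.none)

def k0_pp_133_s : ∃ t, chk3 f_pp_133_s t 1 1 1 = true :=
  ⟨(l 4), by decide +kernel⟩

theorem c_pp_133_s : CertNE 536870912 536870912 0 1230186008 780900216 37827925 3 eng mog cd0q1 cd5q3 pd3 true true true .dn 1 3 3
    ndB0q1 ndB5q3 pcB3 cut_pp_133_s Ext.none :=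
  certNE0 (fam := true) (s1 := true) (s2 := true) (a := 1) (b := 3) (c := 3) (cn := .dn) (n1 := ndB0q1) (n2 := ndB5q3) (pc := pcB3) (cut := cut_pp_133_s) (xt := Ext.none) (P1 := 536870912) (W1 := 536870912) (P2 := 0) (W2 := 1230186008) (P3 := 780900216) (W3 := 37827925) (N0 := 3) (En := eng) (mo := mog) (C1 := cd0q1) (C2 := cd5q3) (C3 := pd3)
    rfl k0_pp_133_s

noncomputable def cut_pp_202_s : Cut := Cut.of [[⟨4, 0, 0, 1449551462⟩]]

noncomputable def f_pp_202_s : ℕ → ℕ → ℕ → ℕ → Bool := onCell 0 536870912 0 536870912 780900216 37827925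
    (rowNE 3 eng mog cd0q2 cd5q0 pd2 0 true true true .pp 2 0 2 (qsf 0 536870912 0 536870912 2) ndB0q2 ndB5q0 pcB2 cut_pp_202_s Ext.none)

def k0_pp_202_s : ∃ t, chk3 f_pp_202_s t 1 1 1 = true :=
  ⟨(l 4), by decide +kernel⟩

theorem c_pp_202_s : CertNE 0 536870912 0 536870912 780900216 37827925 3 eng mog cd0q2 cd5q0 pd2 true true true .pp 2 0 2
    ndB0q2 ndB5q0 pcB2 cut_pp_202_s Ext.none :=
  certNE0 (fam := true) (s1 := true) (s2 := true) (a := 2) (b := 0) (c := 2) (cn := .pp) (n1 := ndB0q2) (n2 := ndB5q0) (pc := pcB2) (cut := cut_pp_202_s) (xt := Ext.none) (P1 := 0) (W1 := 536870912) (P2 := 0) (W2 := 536870912) (P3 := 780900216) (W3 := 37827925) (N0 := 3) (En := eng) (mo := mog) (C1 := cd0q2) (C2 := cd5q0) (C3 := pd2)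
    rfl k0_pp_202_s

noncomputable def cut_pp_203_s : Cut := Cut.of [[⟨4, 0, 0, 1449551462⟩]]

noncomputable def f_pp_203_s : ℕ → ℕ → ℕ → ℕ → Bool := onCell 0 536870912 0 536870912 780900216 37827925
    (rowNE 3 eng mog cd0q2 cd5q0 pd3 0 true true true .up 2 0 3 (qsf 0 536870912 0 536870912 3) ndB0q2 ndB5q0 pcB3 cut_pp_203_s Ext.none)

def k0_pp_203_s : ∃ t, chk3 f_pp_203_s t 1 1 1 = true :=
  ⟨(l 4), by decide +kernel⟩

theorem c_pp_203_s : CertNE 0 536870912 0 536870912 780900216 37827925 3 eng mog cd0q2 cd5q0 pd3 true true true .up 2 0 3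
    ndB0q2 ndB5q0 pcB3 cut_pp_203_s Ext.none :=
  certNE0 (fam := true) (s1 := true) (s2 := true) (a := 2) (b := 0) (c := 3) (cn := .up) (n1 := ndB0q2) (n2 := ndB5q0) (pc := pcB3) (cut := cut_pp_203_s) (xt := Ext.none) (P1 := 0) (W1 := 536870912) (P2 := 0) (W2 := 536870912) (P3 := 780900216) (W3 := 37827925) (N0 := 3) (En := eng) (mo := mog) (C1 := cd0q2) (C2 := cd5q0) (C3 := pd3)
    rfl k0_pp_203_s

noncomputable def cut_pp_213_s : Cut := Cut.of [[⟨4, 0, 0, 1449551462⟩]]

noncomputable def f_pp_213_s : ℕ → ℕ → ℕ → ℕ → Bool := onCell 0 536870912 536870912 536870912 780900216 37827925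
    (rowNE 3 eng mog cd0q2 cd5q1 pd3 0 true true true .pnn 2 1 3 (qsf 0 536870912 536870912 536870912 3) ndB0q2 ndB5q1 pcB3 cut_pp_213_s Ext.none)

def k0_pp_213_s : ∃ t, chk3 f_pp_213_s t 1 1 1 = true :=
  ⟨(l 4), by decide +kernel⟩

theorem c_pp_213_s : CertNE 0 536870912 536870912 536870912 780900216 37827925 3 eng mog cd0q2 cd5q1 pd3 true true true .pnn 2 1 3
    ndB0q2 ndB5q1 pcB3 cut_pp_213_s Ext.none :=
  certNE0 (fam := true) (s1 := true) (s2 := true) (a := 2) (b := 1) (c := 3) (cn := .pnn) (n1 := ndB0q2) (n2 := ndB5q1) (pc := pcB3) (cut := cut_pp_213_s) (xt := Ext.none) (P1 := 0) (W1 := 536870912) (P2 := 536870912) (W2 := 536870912) (P3 := 780900216) (W3 := 37827925) (N0 := 3) (En := eng) (mo := mog) (C1 := cd0q2) (C2 := cd5q1) (C3 := pd3)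
    rfl k0_pp_213_s

noncomputable def cut_pm_001_s : Cut := Cut.of [[⟨4, 0, 0, 1449551462⟩]]

noncomputable def f_pm_001_s : ℕ → ℕ → ℕ → ℕ → Bool := onCell 0 536870912 536870912 536870912 780900216 37827925
    (rowNE 3 eng mog cd0q0 cd5q0 pd1 1 true true false .up 0 0 1 (qsf 0 536870912 0 536870912 1) ndB0q0 ndB5q0 pcB1 cut_pm_001_s Ext.none)

def k0_pm_001_s : ∃ t, chk3 f_pm_001_s t 2 1 1 = true :=
  ⟨(b (l 3) (b (b (l 3) (l 2)) (l 2))), by decide +kernel⟩

def k1_pm_001_s : ∃ t, chk3 f_pm_001_s t 3 4 1 = true :=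
  ⟨(l 3), by decide +kernel⟩

def k2_pm_001_s : ∃ t, chk3 f_pm_001_s t 6 5 1 = true :=
  ⟨(l 3), by decide +kernel⟩

def k3_pm_001_s : ∃ t, chk3 f_pm_001_s t 7 10 1 = true :=
  ⟨(a (l 3) (b (a (l 3) (b (l 3) (a (l 3) (b (l 3) (a (l 3) (b (l 531669963767) (a (l 507510777943) (l 16769864)))))))) (a (b (l 3) (a (l 3) (b (a (l 3) (l 569250918231)) (a (l 559050372999) (b (a (l 556366028087) (l 257328915031)) (l 138680444727)))))) (b (a (b (l 3) (a (l 3) (b (l 489257164903) (a (l 318532195271) (l 16772200))))) (b (a (b (l 527374997879) (a (l 451139333943) (l 16773800))) (b (l 91435810647) (l 16764424))) (a (l 16771328) (l 16753488)))) (a (b (a (b (l 442012516311) (a (l 317995326743) (l 16770280))) (l 16769200)) (a (l 16761464) (l 16747776))) (b (l 16765400) (l 16728384))))))), by decide +kernel⟩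

def k4_pm_001_s : ∃ t, chk3 f_pm_001_s t 7 11 1 = true :=
  ⟨(a (b (a (l 3) (b (l 3) (a (l 3) (b (a (l 3) (b (l 580525211959) (a (l 561734737319) (l 16764792)))) (a (b (l 558513508311) (a (l 460266138967) (l 16773008))) (b (l 16766224) (l 16761568))))))) (a (b (a (l 3) (b (l 3) (a (l 3) (b (l 3) (l 562271604167))))) (a (b (l 3) (a (l 3) (b (l 597705080359) (a (l 562271608423) (l 270750685495))))) (b (a (b (l 3) (a (l 3) (c (l 308331642039) (l 310479125831)))) (b (a (l 461339880759) (l 16773144)) (l 16773248))) (a (b (a (l 306184161703) (l 16770064)) (l 16764888)) (l 16764024))))) (b (a (b (a (l 592873235079) (b (l 486035928839) (l 260013258935))) (a (b (a (l 567640316551) (l 309942261847)) (a (l 256255174327) (l 16767384))) (l 16771120))) (b (a (l 16773848) (l 16748112)) (l 16758864))) (a (b (a (l 16763040) (l 16742992)) (l 16753776)) (l 16753232))))) (b (a (b (a (b (a (l 3) (l 554218539943)) (a (b (l 3) (l 455971159287)) (b (a (l 317458449335) (l 16771712))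 (l 16766512)))) (b (a (b (a (l 511805745111) (l 16774080)) (l 16769056)) (l 16758584)) (a (l 16765792) (l 16740392)))) (a (b (a (b (l 219211073415) (l 16764048)) (l 16763320)) (a (l 16750472) (l 16734752))) (l 16761800))) (b (a (l 16775584) (l 16723640)) (a (l 16711760) (l 16665760)))) (a (b (a (l 16757392) (l 16704968)) (a (l 16701088) (l 16648536))) (b (l 16700232) (l 16643208))))), by decide +kernel⟩

def k5_pm_001_s : ∃ t, chk3 f_pm_001_s t 6 12 1 = true :=
  ⟨(a (b (l 3) (a (l 3) (b (l 3) (a (l 3) (b (l 3) (a (b (l 3) (l 2)) (b (a (l 3) (c (l 470466686519) (l 474224782247))) (a (b (l 533817453863) (l 2)) (l 16771128))))))))) (b (a (l 3) (b (a (l 3) (b (l 3) (a (b (l 3) (l 591799502791)) (a (b (l 604684407415) (l 275045651927)) (b (c (l 304573547303) (l 306721031159)) (l 16768736)))))) (a (b (a (l 3) (b (l 3) (a (l 3) (b (l 566029707223) (l 300815460775))))) (a (b (l 606831886231) (a (l 544017998599) (l 279340619863))) (b (a (c (l 299741710503) (l 301889192791))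 (l 16770120)) (l 16764872)))) (b (a (b (a (l 485499071047) (l 244980886359)) (a (l 16771960) (l 16765176))) (b (l 16763528) (l 16754896))) (a (c (l 16766144) (l 16755616)) (l 16741960)))))) (a (b (a (b (l 3) (a (l 3) (a (l 3) (b (l 3) (c (l 469392944727) (l 473687911431)))))) (b (a (b (l 3) (l 619716807783)) (b (a (l 3) (b (l 601463185783) (l 299204844695))) (a (a (l 442012529351) (l 284172461927)) (l 16771008)))) (a (b (a (l 579988348615) (a (b (l 317458456983) (l 16775024)) (l 16773888))) (a (l 255718303623) (l 16766912))) (a (l 16770568) (l 16779064))))) (a (b (b (a (l 635286042391) (a (b (l 541333646455) (l 105931350487)) (l 16771304))) (a (a (l 589652024583) (c (b (l 214379278343) (l 16773488)) (l 298667966471))) (l 16771056))) (a (b (a (b (l 96267674071) (l 16771216)) (l 16766848)) (l 16761240)) (l 16773496))) (b (a (b (l 16771960) (l 16752696)) (l 16764960)) (l 16759104)))) (b (b (a (a (b (a (l 199883732727) (l 16766328)) (l 16761072)) (l 16772952)) (l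 16752592)) (a (c (l 16762504) (l 16762376)) (l 16735424))) (a (c (l 16752160) (l 16757096)) (l 16730296)))))), by decide +kernel⟩

def k6_pm_001_s : ∃ t, chk3 f_pm_001_s t 6 13 1 = true :=
  ⟨(a (b (a (l 2) (b (a (l 2) (b (a (l 2) (b (l 16770720) (l 2))) (l 2))) (l 2))) (l 2)) (a (b (b (a (b (c (l 16767568) (l 16762104)) (l 16744240)) (c (l 16748288) (l 16726808))) (a (l 30165351687) (l 16691168))) (b (a (l 2) (l 16634784)) (l 2))) (b (a (b (l 16700824) (l 16644096)) (a (l 16694296) (l 16670344))) (b (l 12985300519) (l 16603528))))), by decide +kernel⟩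

def k7_pm_001_s : ∃ t, chk3 f_pm_001_s t 7 6 1 = true :=
  ⟨(b (a (b (a (a (a (b (b (b (a (l 3) (l 494625876279)) (a (l 401210319511) (l 16772176))) (b (l 16766992) (l 16758336))) (l 16762880)) (b (b (b (a (l 233169727111) (l 16766848)) (l 16761664)) (l 16769600)) (l 16743624))) (b (b (a (l 16772760) (l 16737408)) (l 16748176)) (l 16743152))) (b (a (l 16748480) (l 16676392)) (a (l 16692968) (l 16641872)))) (b (a (a (l 16737264) (l 16687912)) (l 16685536)) (a (a (l 16660776) (l 16632504)) (l 16609368)))) (b (a (a (l 16690352) (l 16616728)) (b (l 16566264) (l 16531592))) (a (b (l 16560608) (l 16526672)) (l 16521808)))) (a (b (a (a (b (l 16625696) (l 16590472)) (l 16642816)) (a (l 16572152) (l 16521608))) (a (c (l 16603208) (l 16586872)) (l 16531912))) (a (b (l 16517240) (l 16409616)) (b (l 16412792) (l 16348496))))), by decide +kernel⟩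

def k8_pm_001_s : ∃ t, chk3 f_pm_001_s t 3 7 1 = true :=
  ⟨(a (b (a (l 2) (b (a (l 2) (c (l 29628217175) (l 16595200))) (l 2))) (l 2)) (b (a (b (a (a (l 16473288) (l 16446744)) (l 16447728)) (a (l 16484976) (l 16348400))) (b (a (l 16348600) (l 16289248)) (a (l 16294280) (l 16235016)))) (a (a (l 2) (b (l 16299864) (l 2))) (a (b (l 16243280) (l 16192664)) (l 16303120))))), by decide +kernel⟩

theorem s9_pm_001_s : ∃ t, chk3 f_pm_001_s t 6 6 1 = true := ex3_b k5_pm_001_s k6_pm_001_s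

theorem s10_pm_001_s : ∃ t, chk3 f_pm_001_s t 3 6 1 = true := ex3_a s9_pm_001_s k7_pm_001_s

theorem s11_pm_001_s : ∃ t, chk3 f_pm_001_s t 3 3 1 = true := ex3_b s10_pm_001_s k8_pm_001_s

theorem s12_pm_001_s : ∃ t, chk3 f_pm_001_s t 7 5 1 = true := ex3_b k3_pm_001_s k4_pm_001_s

theorem s13_pm_001_s : ∃ t, chk3 f_pm_001_s t 3 5 1 = true := ex3_a k2_pm_001_s s12_pm_001_s

theorem s14_pm_001_s : ∃ t, chk3 f_pm_001_s t 3 2 1 = true := ex3_b k1_pm_001_s s13_pm_001_s

theorem s15_pm_001_s : ∃ t, chk3 f_pm_001_s t 3 1 1 = true := ex3_b s14_pm_001_s s11_pm_001_s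

theorem s16_pm_001_s : ∃ t, chk3 f_pm_001_s t 1 1 1 = true := ex3_a k0_pm_001_s s15_pm_001_s

theorem c_pm_001_s : CertNE 0 536870912 0 536870912 780900216 37827925 3 eng mog cd0q0 cd5q0 pd1 true true false .up 0 0 1
    ndB0q0 ndB5q0 pcB1 cut_pm_001_s Ext.none :=
  certNE1 (fam := true) (s1 := true) (s2 := false) (a := 0) (b := 0) (c := 1) (cn := .up) (n1 := ndB0q0) (n2 := ndB5q0) (pc := pcB1) (cut := cut_pm_001_s) (xt := Ext.none) (P1 := 0) (W1 := 536870912) (P2 := 0) (W2 := 536870912) (P3 := 780900216) (W3 := 37827925) (N0 := 3) (En := eng) (mo := mog) (C1 := cd0q0) (C2 := cd5q0) (C3 := pd1)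
    rfl (fun _ => rfl) s16_pm_001_s

noncomputable def cut_pm_011_s : Cut := Cut.of [[⟨4, 0, 0, 1449551462⟩], [⟨0, 0, 0, 67108864⟩, ⟨1, 1, 0, 67108864⟩, ⟨2, 1, 0, 67108864⟩]]

noncomputable def f_pm_011_s : ℕ → ℕ → ℕ → ℕ → Bool := onCell 0 536870912 536870912 536870912 780900216 37827925
    (rowNE 3 eng mog cd0q0 cd5q1 pd1 1 true true false .pnn 0 1 1 (qsf 0 536870912 536870912 536870912 1) ndB0q0 ndB5q1 pcB1 cut_pm_011_s Ext.none)

def k0_pm_011_s : ∃ t, chk3 f_pm_011_s t 1 2 1 = true :=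
  ⟨(a (l 3) (b (l 1) (a (l 3) (l 1)))), by decide +kernel⟩

def k1_pm_011_s : ∃ t, chk3 f_pm_011_s t 2 6 1 = true :=
  ⟨(a (l 3) (b (l 3) (a (l 3) (b (l 3) (a (b (l 3) (a (l 3) (b (l 3) (a (l 3) (b (l 3) (a (l 3) (b (l 684141310119) (l 77477193479)))))))) (b (a (l 3) (b (a (l 3) (l 691120634471)) (a (b (l 3) (a (l 707226752919) (b (l 643339119623) (l 16776264)))) (b (a (l 583209576455) (b (l 132238028135) (l 16772912))) (a (l 16772360) (l 16766176)))))) (a (a (b (l 3) (b (a (l 624011766791) (b (l 200957505927) (l 16773736))) (a (l 16773024) (l 16767080)))) (b (b (l 658371500439) (a (b (l 667498310935) (l 16781856)) (l 16772824))) (b (l 16766944) (l 16758096)))) (b (a (b (a (b (l 187535732791) (l 16773448)) (l 16769568)) (l 16763704)) (l 16761112)) (a (l 16750416) (l 16738224)))))))))), by decide +kernel⟩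

def k2_pm_011_s : ∃ t, chk3 f_pm_011_s t 4 14 1 = true :=
  ⟨(a (l 3) (b (l 3) (a (l 3) (b (l 3) (a (l 3) (b (l 3) (a (b (l 3) (a (l 3) (b (l 3) (a (l 589115167943) (b (l 518785076055) (l 32916901735)))))) (b (a (l 3) (b (a (l 3) (l 596094490263)) (b (a (l 3) (l 156397211207)) (a (a (l 335712097479) (l 16777136)) (l 16775288))))) (a (b (b (a (l 3) (l 427517019703)) (a (l 473151047895) (l 16776072))) (a (c (l 16775416) (l 16775400)) (l 16772960))) (b (l 16773416) (l 16769296))))))))))), by decide +kernel⟩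

def k3_pm_011_s : ∃ t, chk3 f_pm_011_s t 8 30 1 = true :=
  ⟨(a (l 3) (b (l 3) (a (l 3) (b (l 3) (a (l 3) (b (l 3) (a (l 3) (b (l 3) (a (a (l 3) (b (l 3) (b (l 3) (a (l 484962206567) (c (l 16777816) (l 103246988631)))))) (b (a (l 3) (b (l 599852582679) (a (c (l 241759684503) (l 248739006343)) (l 16776984)))) (b (a (a (l 451139338951) (l 16777888)) (l 16776240)) (l 16775776)))))))))))), by decide +kernel⟩

def k4_pm_011_s : ∃ t, chk3 f_pm_011_s t 16 31 1 = true :=
  ⟨(b (b (l 3) (l 14)) (l 14)), by decide +kernel⟩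

def k5_pm_011_s : ∃ t, chk3 f_pm_011_s t 34 62 1 = true :=
  ⟨(b (a (l 3) (b (l 3) (a (l 3) (a (l 3) (b (l 3) (b (l 3) (b (a (l 3) (b (a (l 3) (l 495699624503)) (a (l 515026977399) (l 16777696)))) (b (a (a (l 3) (l 533817459383)) (a (a (l 16777528) (l 16776944)) (l 16776528))) (a (a (l 552607941367) (c (l 16777760) (l 49023026007))) (l 16776296)))))))))) (a (b (b (l 3) (l 14)) (l 14)) (b (a (b (b (l 3) (a (l 3) (a (a (l 3) (b (l 3) (b (l 3) (a (l 531133104647) (c (l 131701146375) (l 135996113671)))))) (a (b (l 3) (b (a (c (l 344838898743) (l 352355091463)) (l 104320729879)) (l 16776840))) (b (b (l 3) (a (c (l 301352354855) (l 311552902167)) (l 78550926055))) (l 16776552)))))) (b (b (a (b (l 3) (l 14)) (a (a (b (a (l 556902908471) (c (l 156934079287) (l 161765917495))) (l 16777232)) (c (l 16776616) (l 16776616))) (l 16775800))) (a (l 14) (c (l 16775328) (l 16775640)))) (a (l 14) (c (l 16773808) (l 16773768))))) (b (b (a (b (a (l 3) (b (a (l 3) (l 574082777895))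 (a (l 592336388967) (a (l 197199397767) (l 16777048))))) (a (b (l 3) (a (l 3) (a (c (l 245517779927) (l 261087036327)) (l 16777112)))) (a (b (a (l 220284847047) (l 16777080)) (l 16776704)) (l 16776416)))) (a (a (b (b (a (l 173577077575) (l 16777016)) (l 16776640)) (l 16775872)) (l 16775832)) (l 16775016))) (a (a (b (a (b (a (c (l 277193163751) (l 284172485607)) (l 16777472)) (l 16776776)) (l 16776480)) (l 16775736)) (l 16775480)) (l 16774008))) (a (b (a (l 16774200) (l 16773112)) (l 16771616)) (c (l 16770488) (l 16770416))))) (a (b (a (l 14) (c (l 16770760) (l 16770688))) (l 14)) (b (c (l 16768176) (l 16767416)) (l 16763392)))))), by decide +kernel⟩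

def k6_pm_011_s : ∃ t, chk3 f_pm_011_s t 70 124 1 = true :=
  ⟨(b (a (l 3) (b (l 3) (b (b (l 3) (b (l 3) (a (l 3) (a (l 3) (a (l 3) (l 249275876695)))))) (a (b (l 3) (a (l 3) (a (l 3) (l 552071070791)))) (b (a (a (l 3) (l 522006299575)) (b (a (l 272898196887) (l 16776936)) (l 16776704))) (a (b (a (l 334101480999) (l 16777016)) (l 16777440)) (l 16775928))))))) (a (b (a (l 3) (b (l 3) (a (b (l 3) (b (a (l 3) (c (l 178945787015) (l 183777625223))) (a (a (l 368461218935) (l 16777216)) (l 16776824)))) (b (b (a (l 3) (l 135459243095)) (a (c (l 158007821383) (l 161765917767)) (l 16776744))) (l 16776248))))) (b (a (a (b (l 3) (b (b (l 598241969255) (a (l 3) (l 225653556167))) (a (l 475835400695) (l 16776968)))) (b (b (a (l 3) (a (l 395841635511) (l 16777576))) (a (a (l 584820195943) (l 189146334071)) (l 16776896))) (c (l 16776408) (l 16776400)))) (a (b (l 16776656) (l 16775304)) (l 16774720))) (a (b (a (a (a (l 16777216) (l 16776616)) (l 16776200)) (l 16775384)) (l 16774904))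 (l 16773224)))) (b (b (a (a (b (c (l 581062100663) (l 595020744343)) (b (a (l 592873259879) (l 83382764583)) (a (l 105931342951) (l 16776664)))) (b (a (b (l 549923586775) (l 16777784)) (l 16777496)) (l 16776096))) (a (l 16775504) (l 16774400))) (a (c (l 16775448) (l 16775424)) (l 16772904))) (a (c (l 16772072) (l 16772016)) (l 16769840))))), by decide +kernel⟩

def k7_pm_011_s : ∃ t, chk3 f_pm_011_s t 71 124 1 = true :=
  ⟨(b (a (b (b (b (l 3) (a (l 3) (a (l 3) (a (l 569787810967) (a (l 245517780631) (l 112373794055)))))) (a (b (l 3) (b (l 3) (a (l 3) (a (l 3) (l 16777784))))) (b (a (b (l 585893938439) (a (l 600389452663) (l 16777176))) (l 16777432)) (a (c (l 16777360) (l 16777520)) (l 16775584))))) (b (a (b (b (a (l 3) (a (l 170355852487) (l 16776760))) (a (a (l 3) (l 207399945399)) (l 16776528))) (b (a (a (l 228874781959) (l 16776848)) (l 16776016)) (l 16776712))) (l 16775264)) (a (c (l 16774792) (l 16774768)) (l 16772560)))) (a (b (b (a (b (a (l 534891201543)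 (a (l 206326203895) (l 16777112))) (l 16776520)) (l 16776568)) (l 16774424)) (l 16771360)) (b (c (l 16773240) (l 16773192)) (l 16769128)))) (a (b (a (a (l 16772272) (l 16771160)) (l 16769496)) (l 16767832)) (b (l 16766160) (l 16762080)))), by decide +kernel⟩

def k8_pm_011_s : ∃ t, chk3 f_pm_011_s t 35 125 1 = true :=
  ⟨(a (b (a (a (b (b (l 16773376) (l 16771328)) (l 16768272)) (b (l 16770816) (l 16766080))) (b (c (l 16766920) (l 16766800)) (l 16762784))) (a (b (l 16763104) (l 16759032)) (l 16757992))) (b (a (b (l 16762448) (l 16758368)) (l 16755968)) (a (l 16752272) (l 16747840)))), by decide +kernel⟩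

def k9_pm_011_s : ∃ t, chk3 f_pm_011_s t 17 63 1 = true :=
  ⟨(b (a (a (l 14) (b (a (l 14) (b (l 16759328) (l 14))) (l 14))) (a (b (a (l 16752944) (l 16748560)) (l 16743984)) (b (l 16741960) (l 16733896)))) (a (l 14) (b (a (l 16734632) (l 16725880)) (a (l 14) (l 16717912))))), by decide +kernel⟩

def k10_pm_011_s : ∃ t, chk3 f_pm_011_s t 18 60 1 = true :=
  ⟨(a (l 3) (b (l 3) (a (l 3) (b (l 3) (a (b (l 3) (a (l 3) (b (l 577304005927) (b (a (l 587504551623) (l 16777064)) (l 16777952))))) (b (b (a (l 3) (c (l 483888466295) (l 495162755415))) (a (c (l 537575557991) (l 547239234375)) (a (a (l 178945788887) (l 16776872)) (l 16776000)))) (a (a (b (a (l 243907169623) (l 16778456)) (l 16775400)) (l 16775264)) (l 16773520)))))))), by decide +kernel⟩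

def k11_pm_011_s : ∃ t, chk3 f_pm_011_s t 36 61 1 = true :=
  ⟨(b (a (l 3) (b (l 3) (a (b (l 3) (a (l 3) (a (l 3) (b (l 3) (l 562271619319))))) (b (b (l 3) (a (l 3) (a (l 3) (a (l 576767133639) (l 433422599143))))) (b (b (a (l 3) (a (l 255181458311) (l 16776568))) (a (c (l 517711333351) (l 527911880647)) (l 16776120))) (a (b (a (l 509658268887) (l 16776808)) (l 16777832)) (l 16774584))))))) (a (b (a (l 3) (b (l 3) (b (a (l 3) (b (a (l 3) (a (l 331953998087) (l 16777176))) (a (a (l 553681683527) (l 16778088)) (l 16776456)))) (b (a (a (l 3) (l 424295793431)) (l 16776000)) (a (a (l 452213081031) (l 16776672)) (l 16774968)))))) (a (b (b (a (l 3) (b (a (l 3) (l 497310237815)) (a (l 524153783591) (a (l 16777792) (l 16776592))))) (b (a (a (l 3) (l 552071071175)) (a (a (l 126869309047) (l 16776688)) (l 16775848))) (a (a (l 578377746039) (a (l 168745240279) (l 16776792))) (l 16775384)))) (a (b (a (a (b (c (l 201494366007) (l 213842396903)) (l 16776424)) (l 16777032))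 (l 16775536)) (l 16774048)) (l 16773816))) (b (a (a (a (b (l 16777528) (l 16774488)) (l 16774952)) (l 16774104)) (l 16772416)) (l 16770768)))) (b (b (a (b (b (a (l 3) (a (l 571935295063) (l 16778336))) (a (l 598241970903) (a (l 105931343799) (l 16776008)))) (a (b (a (l 3) (a (l 247665264599) (l 16776976))) (a (a (l 285783099543) (l 16777080)) (l 16776232))) (l 16775048))) (c (l 16773992) (l 16773616))) (a (a (c (l 16774264) (l 16774224)) (l 16771976)) (l 16768576))) (a (b (l 16769024) (l 16764944)) (l 16762448))))), by decide +kernel⟩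

def k12_pm_011_s : ∃ t, chk3 f_pm_011_s t 37 61 1 = true :=
  ⟨(b (a (a (b (a (l 3) (b (l 3) (b (l 3) (b (l 573545908695) (a (l 591799518951) (l 16777096)))))) (b (b (a (a (l 3) (b (l 3) (l 163913402631))) (c (l 16778128) (a (l 16778032) (l 16775560)))) (b (a (a (l 193441303015) (l 16776328)) (l 16774608)) (l 16776040))) (a (l 16773320) (l 16771032)))) (b (b (b (l 3) (a (l 3) (a (l 487109691111) (a (l 161765919575) (l 16776816))))) (b (a (b (l 529522493479) (a (l 524153783607) (l 16776856))) (l 16775640)) (a (c (l 16775904) (l 16775888)) (l 16773592)))) (b (a (l 16772832) (l 16770536)) (l 16767608)))) (b (a (b (b (a (a (l 440938792215) (l 24863836791)) (l 16775096)) (l 16775528)) (l 16771168)) (b (l 16770616) (l 16766560))) (a (l 16767688) (l 16760504)))) (a (b (a (b (l 16768096) (l 16764008)) (l 16761488)) (l 16758224)) (b (l 16754656) (l 16746520)))), by decide +kernel⟩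

def k13_pm_011_s : ∃ t, chk3 f_pm_011_s t 19 30 1 = true :=
  ⟨(b (a (b (a (l 3) (a (b (l 3) (b (a (l 3) (a (l 3) (l 530059365895))) (b (a (l 574619651383) (a (l 160692178471) (l 16776208))) (b (a (l 197199401159) (l 16775264)) (l 16777400))))) (b (a (l 3) (b (l 3) (b (l 3) (l 433959470743)))) (b (a (b (l 475298531559) (l 16779112)) (l 16777088)) (l 16772208))))) (a (b (a (b (l 3) (b (a (l 3) (a (l 572472166791) (l 172503338551))) (a (c (l 446844372871) (a (l 3) (l 227801042775))) (l 16776008)))) (b (b (a (l 3) (a (l 278266909079) (l 16776848))) (a (a (l 502142076807) (l 116131892375)) (l 16775384))) (a (l 16774672) (l 16772320)))) (a (b (a (c (l 16777256) (b (l 16777608) (l 16774232))) (l 16772936)) (l 16770032)) (l 16769536))) (b (a (b (l 16772864) (l 16768800)) (l 16766120)) (a (l 16762744) (l 16758096))))) (b (a (b (a (a (b (l 3) (b (a (l 525764397175) (l 16778536)) (l 16775808))) (b (a (l 515026980135) (b (l 3) (l 16776912))) (l 16774424))) (a (b (a (b (l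 231559139447) (l 16775704)) (l 16775528)) (l 16772016)) (l 16771648))) (a (b (l 16771528) (l 16767456)) (l 16764720))) (b (a (l 16770648) (l 16763200)) (l 16757576))) (a (b (l 16761680) (l 16751120)) (b (l 16749504) (l 16741328))))) (a (b (a (b (a (l 16763976) (l 16759368)) (l 16753648)) (b (l 16752456) (l 16744536))) (a (l 16746784) (l 16732544))) (b (a (l 16738960) (l 16729040)) (l 16728288)))), by decide +kernel⟩

def k14_pm_011_s : ∃ t, chk3 f_pm_011_s t 9 31 1 = true :=
  ⟨(b (a (a (b (a (b (a (b (c (l 16769904) (l 16769824)) (l 16765776)) (b (l 16765368) (l 16761288))) (a (l 16762280) (l 16755168))) (b (a (l 16758816) (l 16754288)) (l 16748408))) (a (b (l 16751896) (l 16741160)) (b (l 16740280) (l 16732176)))) (b (a (b (l 16747448) (l 16739312)) (l 16739584)) (a (l 16727152) (l 16718120)))) (b (a (a (l 16725400) (l 16716592)) (l 16701704)) (a (l 16704920) (l 16685768)))) (a (a (b (a (b (l 16733080) (l 16725032)) (l 16720096)) (b (l 16712592) (l 16704664)))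 (b (a (l 16711064) (l 16702072)) (a (l 16695160) (l 16686224)))) (b (a (l 16689008) (l 16669752)) (a (l 16673192) (l 16653744))))), by decide +kernel⟩

def k15_pm_011_s : ∃ t, chk3 f_pm_011_s t 10 28 1 = true :=
  ⟨(a (l 3) (b (l 3) (a (b (l 3) (a (l 3) (b (l 3) (a (b (l 3) (a (l 3) (l 446307502535))) (b (a (l 620790550791) (l 169818986039)) (l 16777320)))))) (b (a (b (l 3) (a (l 3) (l 649781579591))) (a (b (l 3) (b (l 522543170775) (c (l 16775576) (l 16780792)))) (b (b (l 3) (l 430201373047)) (l 16774744)))) (a (b (b (a (l 3) (a (l 210621178615) (l 16775368))) (a (a (l 512342624439) (l 16776552)) (l 16772368))) (a (l 16771352) (l 16765800))) (b (l 16767472) (l 16757440))))))), by decide +kernel⟩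

def k16_pm_011_s : ∃ t, chk3 f_pm_011_s t 20 29 1 = true :=
  ⟨(b (a (l 3) (b (a (l 3) (b (l 3) (a (l 3) (b (l 3) (a (l 580525233655) (a (l 239612206791) (l 16776984))))))) (a (b (a (l 3) (b (l 3) (a (l 3) (l 508047659255)))) (a (b (a (l 3) (l 593410135895)) (a (c (l 446307502983) (l 454897437543)) (c (l 16776280) (l 16779544)))) (b (a (a (l 452213082535) (l 138680470807)) (l 16775312)) (l 16772344)))) (b (a (b (a (l 3) (l 428053891607)) (a (a (l 173577080759) (l 16776320)) (l 16774312))) (b (a (l 16778616) (l 16773304)) (l 16770312))) (a (l 16769200) (l 16763896)))))) (a (b (a (b (l 3) (a (b (l 3) (a (l 3) (c (l 523080044887) (l 533280592183)))) (a (b (l 3) (b (l 264845137719) (l 16776176))) (b (c (l 453286824887) (l 461876758135)) (l 16774704))))) (b (a (b (l 3) (a (l 3) (b (l 560124136775) (l 16779624)))) (a (b (l 523616915879) (l 16775512)) (b (b (l 256255203927) (l 16776120)) (l 16772936)))) (a (a (b (b (l 160692180103) (l 16775320)) (l 16772176)) (l 16771736))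 (l 16767944)))) (a (b (a (b (a (b (l 557976652999) (l 45801804135)) (l 16778160)) (l 16772616)) (b (l 16771784) (l 16767656))) (a (l 16766448) (l 16761552))) (b (a (l 16764736) (l 16759760)) (l 16754056)))) (b (a (b (a (b (l 16773296) (l 16769088)) (l 16766032)) (l 16762984)) (b (l 16758232) (l 16749864))) (a (b (l 16751976) (l 16743576)) (l 16737072))))), by decide +kernel⟩

def k17_pm_011_s : ∃ t, chk3 f_pm_011_s t 21 29 1 = true :=
  ⟨(b (a (b (a (b (a (l 3) (b (l 560124140711) (a (a (l 481204112439) (l 168208374167)) (l 16775544)))) (a (b (a (l 479056629447) (a (l 16779888) (l 16775936))) (l 16773608)) (l 16770368))) (b (a (a (b (l 127406183159) (l 16772816)) (l 16772256)) (l 16768144)) (l 16762208))) (a (b (a (l 16767096) (l 16761720)) (l 16755904)) (b (l 16753616) (l 16745176)))) (b (a (b (l 16759880) (l 16751264)) (l 16744496)) (a (l 16738520) (l 16727584)))) (a (b (a (l 16748824) (l 16733024)) (a (l 16726432) (l 16715824))) (b (l 16727408) (l 16699880)))),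 by decide +kernel⟩

def k18_pm_011_s : ∃ t, chk3 f_pm_011_s t 11 14 1 = true :=
  ⟨(b (a (b (a (b (l 3) (a (b (l 3) (a (l 735144050407) (b (l 599315709335) (c (l 16776200) (l 16781424))))) (b (a (l 567640324615) (a (b (l 300278623431) (l 16774984)) (l 16774296))) (a (l 16775288) (l 16766904))))) (b (a (a (b (l 3) (b (l 672867022439) (l 65666033127))) (b (l 604684415495) (l 16772968))) (a (b (a (b (l 330343395063) (l 16775232)) (l 16774504)) (l 16767128)) (l 16765664))) (a (b (l 16767048) (l 16758224)) (l 16750968)))) (a (b (a (b (a (a (b (l 263771400487) (l 16774488)) (l 16773848)) (l 16769568)) (l 16763624)) (b (l 16760976) (l 16752216))) (a (l 16755768) (l 16739192))) (b (a (l 16745080) (l 16733496)) (l 16732512)))) (b (a (b (a (b (l 16761224) (l 16752424)) (l 16744920)) (a (l 16739264) (l 16727464))) (b (l 16747872) (l 16709616))) (a (a (l 16723704) (l 16722552)) (l 16704944)))) (a (b (a (b (a (l 16733352) (l 16722112)) (l 16711008)) (b (l 16705088) (l 16688560)))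 (a (b (l 16695104) (l 16678376)) (l 16686104))) (b (a (l 16694808) (l 16650824)) (a (l 16642920) (l 16620248))))), by decide +kernel⟩

def k19_pm_011_s : ∃ t, chk3 f_pm_011_s t 5 15 1 = true :=
  ⟨(a (a (b (b (a (b (a (b (l 16755944) (l 16747712)) (l 16746832)) (a (l 16735336) (l 16724912))) (b (a (l 16730944) (l 16720040)) (l 16719056))) (a (b (l 16724040) (l 16697040)) (b (l 16691640) (l 16674816)))) (b (a (b (l 16680664) (l 16664408)) (l 16649856)) (a (l 16650760) (l 16616944)))) (b (b (a (a (l 16713672) (l 16710800)) (b (l 16682488) (l 16665064))) (a (l 16681624) (l 16638904))) (b (a (b (l 16635120) (l 16618280)) (b (l 16612776) (l 16595632))) (a (b (l 16601544) (l 16584880)) (l 16528168))))) (b (a (b (a (l 16652600) (l 16631296)) (a (l 16617656) (l 16596912))) (b (l 16640672) (l 16565288))) (a (b (l 16603752) (a (l 16547920) (l 16526976))) (b (l 16531264) (a (l 16506664) (l 16486568)))))), by decide +kernel⟩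

def k20_pm_011_s : ∃ t, chk3 f_pm_011_s t 6 12 1 = true :=
  ⟨(a (b (l 3) (a (l 3) (b (l 3) (a (l 3) (b (l 3) (a (b (l 3) (l 642265364439)) (a (b (l 3) (b (l 537575550247) (l 16775448))) (b (a (l 602536927511) (l 1)) (l 16771128))))))))) (b (l 1) (a (b (l 1) (a (b (l 1) (a (b (l 1) (l 16761240)) (l 1))) (l 1))) (l 1)))), by decide +kernel⟩

def k21_pm_011_s : ∃ t, chk3 f_pm_011_s t 6 13 1 = true :=
  ⟨(a (b (a (b (l 3) (a (b (l 3) (a (l 3) (b (l 3) (a (l 651392178199) (b (l 251423374471) (l 16774792)))))) (b (a (b (l 3) (l 634749175767)) (b (a (l 3) (b (l 608979380087) (l 16781472))) (a (b (l 193978184791) (l 16773664)) (l 16769432)))) (a (b (a (l 462950494071) (l 16781160)) (l 16767456)) (b (l 16763584) (l 16754512)))))) (b (a (b (a (l 3) (b (l 3) (a (l 3) (b (l 628843601991) (l 162839670151))))) (a (b (l 641191624039) (a (l 546702353799) (b (l 133311769239) (l 16772304)))) (a (b (b (l 263771405255) (l 16774792)) (l 16768008)) (l 16771208)))) (b (a (b (a (l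 593410121543) (c (b (l 184314506743) (l 16773136)) (l 90362097383))) (a (l 16780800) (l 16766368))) (b (l 16765480) (l 16756488))) (b (a (l 16760632) (l 16747472)) (l 16765984)))) (b (a (a (b (a (l 16772008) (l 16765472)) (l 16759632)) (l 16761568)) (l 16752384)) (a (c (l 16760600) (l 16760320)) (l 16713352))))) (a (b (a (b (a (b (l 609516246743) (a (b (l 586967674311) (l 16775656)) (l 16771648))) (b (a (b (l 16781832) (l 16772112)) (l 16768008)) (l 16762160))) (a (b (l 16765784) (l 16756824)) (l 16748704))) (b (a (l 16764376) (l 16741008)) (l 16750592))) (a (b (b (l 16762640) (l 16732848)) (l 16740712)) (c (l 16724544) (l 16723976)))) (a (b (b (l 16742520) (l 16703848)) (l 16698760)) (b (l 16707632) (l 16652016))))) (b (a (b (a (b (c (l 16762328) (l 16762080)) (l 16744232)) (l 16737568)) (a (l 16727648) (l 16670176))) (b (l 1) (l 16675480))) (a (b (a (l 16660640) (l 16634744)) (l 16655256)) (c (l 16644544) (l 16640312))))), by decide +kernel⟩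

def k22_pm_011_s : ∃ t, chk3 f_pm_011_s t 7 6 1 = true :=
  ⟨(b (l 1) (a (b (l 1) (a (b (l 1) (l 16508512)) (l 1))) (l 1))), by decide +kernel⟩

def k23_pm_011_s : ∃ t, chk3 f_pm_011_s t 3 7 1 = true :=
  ⟨(a (b (a (b (a (b (a (b (l 16702496) (l 16685432)) (l 16690136)) (a (l 16660168) (l 16635912))) (b (a (l 16644016) (l 16618544)) (l 16640648))) (a (b (a (l 16627496) (l 16603808)) (l 16606064)) (a (l 16606624) (l 16540232)))) (a (b (a (l 16618392) (l 16571840)) (l 16565760)) (b (l 16580528) (l 16473176)))) (a (b (a (b (l 16553296) (l 16521384)) (b (l 16506696) (l 16476232))) (a (b (l 16488848) (l 16371824)) (b (l 16445376) (l 16372152)))) (b (a (l 16445952) (l 16399880)) (a (l 16387760) (l 16345400))))) (b (a (b (a (b (l 16476032) (l 16444712)) (l 16405976)) (a (l 16400936) (l 16348440))) (b (l 1) (a (l 16294504) (l 1)))) (a (b (a (l 16351288) (l 16299776)) (a (l 16300304) (l 16249576))) (b (l 16359472) (l 16246648))))), by decide +kernel⟩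

theorem s24_pm_011_s : ∃ t, chk3 f_pm_011_s t 6 6 1 = true := ex3_b k20_pm_011_s k21_pm_011_s

theorem s25_pm_011_s : ∃ t, chk3 f_pm_011_s t 3 6 1 = true := ex3_a s24_pm_011_s k22_pm_011_s

theorem s26_pm_011_s : ∃ t, chk3 f_pm_011_s t 3 3 1 = true := ex3_b s25_pm_011_s k23_pm_011_s

theorem s27_pm_011_s : ∃ t, chk3 f_pm_011_s t 10 29 1 = true := ex3_a k16_pm_011_s k17_pm_011_s

theorem s28_pm_011_s : ∃ t, chk3 f_pm_011_s t 10 14 1 = true := ex3_b k15_pm_011_s s27_pm_011_s

theorem s29_pm_011_s : ∃ t, chk3 f_pm_011_s t 5 14 1 = true := ex3_a s28_pm_011_s k18_pm_011_s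

theorem s30_pm_011_s : ∃ t, chk3 f_pm_011_s t 5 7 1 = true := ex3_b s29_pm_011_s k19_pm_011_s

theorem s31_pm_011_s : ∃ t, chk3 f_pm_011_s t 18 61 1 = true := ex3_a k11_pm_011_s k12_pm_011_s

theorem s32_pm_011_s : ∃ t, chk3 f_pm_011_s t 18 30 1 = true := ex3_b k10_pm_011_s s31_pm_011_s

theorem s33_pm_011_s : ∃ t, chk3 f_pm_011_s t 9 30 1 = true := ex3_a s32_pm_011_s k13_pm_011_s

theorem s34_pm_011_s : ∃ t, chk3 f_pm_011_s t 9 15 1 = true := ex3_b s33_pm_011_s k14_pm_011_s

theorem s35_pm_011_s : ∃ t, chk3 f_pm_011_s t 35 124 1 = true := ex3_a k6_pm_011_s k7_pm_011_s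

theorem s36_pm_011_s : ∃ t, chk3 f_pm_011_s t 35 62 1 = true := ex3_b s35_pm_011_s k8_pm_011_s

theorem s37_pm_011_s : ∃ t, chk3 f_pm_011_s t 17 62 1 = true := ex3_a k5_pm_011_s s36_pm_011_s

theorem s38_pm_011_s : ∃ t, chk3 f_pm_011_s t 17 31 1 = true := ex3_b s37_pm_011_s k9_pm_011_s

theorem s39_pm_011_s : ∃ t, chk3 f_pm_011_s t 8 31 1 = true := ex3_a k4_pm_011_s s38_pm_011_s

theorem s40_pm_011_s : ∃ t, chk3 f_pm_011_s t 8 15 1 = true := ex3_b k3_pm_011_s s39_pm_011_s

theorem s41_pm_011_s : ∃ t, chk3 f_pm_011_s t 4 15 1 = true := ex3_a s40_pm_011_s s34_pm_011_s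

theorem s42_pm_011_s : ∃ t, chk3 f_pm_011_s t 4 7 1 = true := ex3_b k2_pm_011_s s41_pm_011_s

theorem s43_pm_011_s : ∃ t, chk3 f_pm_011_s t 2 7 1 = true := ex3_a s42_pm_011_s s30_pm_011_s

theorem s44_pm_011_s : ∃ t, chk3 f_pm_011_s t 2 3 1 = true := ex3_b k1_pm_011_s s43_pm_011_s

theorem s45_pm_011_s : ∃ t, chk3 f_pm_011_s t 1 3 1 = true := ex3_a s44_pm_011_s s26_pm_011_s

theorem s46_pm_011_s : ∃ t, chk3 f_pm_011_s t 1 1 1 = true := ex3_b k0_pm_011_s s45_pm_011_s

theorem c_pm_011_s : CertNE 0 536870912 536870912 536870912 780900216 37827925 3 eng mog cd0q0 cd5q1 pd1 true true false .pnn 0 1 1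
    ndB0q0 ndB5q1 pcB1 cut_pm_011_s Ext.none :=
  certNE1 (fam := true) (s1 := true) (s2 := false) (a := 0) (b := 1) (c := 1) (cn := .pnn) (n1 := ndB0q0) (n2 := ndB5q1) (pc := pcB1) (cut := cut_pm_011_s) (xt := Ext.none) (P1 := 0) (W1 := 536870912) (P2 := 536870912) (W2 := 536870912) (P3 := 780900216) (W3 := 37827925) (N0 := 3) (En := eng) (mo := mog) (C1 := cd0q0) (C2 := cd5q1) (C3 := pd1)
    rfl (fun _ => rfl) s46_pm_011_s

noncomputable def cut_pm_012_s : Cut := Cut.of [[⟨4, 0, 0, 1449551462⟩], [⟨0, 0, 0, 67108864⟩, ⟨1, 1, 0, 67108864⟩, ⟨2, 1, 0, 67108864⟩]]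

noncomputable def f_pm_012_s : ℕ → ℕ → ℕ → ℕ → Bool := onCell 1073741824 536870912 536870912 536870912 780900216 37827925
    (rowNE 3 eng mog cd0q0 cd5q1 pd2 2 true true false .pnp 0 1 2 (qsf 0 536870912 536870912 536870912 2) ndB0q0 ndB5q1 pcB2 cut_pm_012_s Ext.none)

def k0_pm_012_s : ∃ t, chk3 f_pm_012_s t 4 2 1 = true :=
  ⟨(b (a (b (a (b (l 15988368) (l 16047936)) (l 6)) (a (b (l 16106016) (l 16162560)) (l 16237584))) (l 6)) (a (b (a (b (a (l 16233704) (l 16204608)) (l 16340464)) (b (l 16146488) (l 16194408))) (b (a (l 16425232) (l 16238408)) (a (b (l 16369000) (l 16392208)) (l 16299824)))) (b (a (b (l 15962320) (a (l 16129976) (l 16088544))) (l 6)) (a (b (a (l 16170648) (l 16126560)) (a (l 16206480) (l 16160336))) (a (b (l 16083504) (l 16115560)) (l 6)))))), by decide +kernel⟩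

def k1_pm_012_s : ∃ t, chk3 f_pm_012_s t 8 3 1 = true :=
  ⟨(b (b (b (a (a (l 16453104) (l 16397992)) (a (l 16364336) (l 16290280))) (a (a (l 16499512) (l 16440400)) (a (l 16382952) (l 16326608)))) (a (b (a (l 16564768) (l 16484064)) (a (a (l 16606504) (l 16575320)) (a (l 16545640) (l 16449832)))) (b (a (l 16465240) (l 16343376)) (a (a (l 16480736) (l 16449208)) (b (l 16393144) (l 16412504)))))) (b (a (b (a (a (a (b (l 16616104) (l 16636400)) (l 16620648)) (l 16633152)) (b (l 16561968) (l 16581728))) (b (a (a (l 16660240) (l 16643072)) (l 16598624)) (a (a (b (l 16671432) (l 16682440)) (l 16663048)) (a (l 16629592) (l 16554712))))) (a (a (b (b (l 16512608) (l 16532200)) (b (l 16549520) (l 16563944))) (b (l 16552880) (b (l 16516960) (l 16531464)))) (b (b (l 16431840) (l 16450848)) (b (l 16468056) (l 16525032))))) (a (b (a (a (b (a (b (l 16675184) (l 14)) (l 16695944)) (l 14)) (b (b (l 16673344) (l 16679984)) (a (l 14) (a (l 14) (l 16655336))))) (a (a (b (l 16630072)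 (b (l 16660160) (l 14))) (b (l 16634080) (b (l 16642880) (l 16648528)))) (b (b (l 16606056) (l 16611824)) (b (l 16617296) (l 16643568))))) (a (l 14) (b (a (l 14) (b (a (l 14) (l 16619008)) (l 14))) (l 14)))) (b (a (b (a (l 16565472) (l 16543440)) (a (b (l 16583824) (l 16588640)) (b (l 16550936) (l 16555416)))) (b (a (l 16511160) (l 16479104)) (a (l 16541648) (l 16488640)))) (a (b (a (b (l 16614248) (a (l 14) (l 16589088))) (b (l 16559592) (l 16584536))) (b (a (l 14) (a (l 14) (l 16558784))) (l 14))) (b (a (b (l 16526632) (l 16530160)) (b (l 16494264) (l 16497480))) (b (a (l 16554456) (l 16500368)) (a (a (l 14) (l 16528112)) (a (l 16511344) (l 16494760)))))))))), by decide +kernel⟩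

def k2_pm_012_s : ∃ t, chk3 f_pm_012_s t 9 3 1 = true :=
  ⟨(b (b (a (b (a (l 16238864) (l 16189856)) (a (l 16271808) (l 16218752))) (b (a (l 16142384) (l 16097296)) (a (l 16167680) (l 16118912)))) (a (b (a (l 16306632) (l 16249976)) (a (l 16362752) (l 16281936))) (b (a (l 16195704) (l 16142416)) (a (l 16224896) (l 16167800))))) (b (a (b (a (b (l 16367776) (l 16384752)) (b (l 16305120) (l 16319904))) (b (a (l 16401104) (l 16334008)) (a (a (l 16433008) (l 16398272)) (l 16347400)))) (b (a (b (l 16245584) (l 16258616)) (l 16191888)) (a (b (l 16270760) (l 16303120)) (b (l 16207912) (l 16217336))))) (b (a (a (b (a (l 16445368) (l 16410328)) (a (l 16454680) (l 16419304))) (b (l 16379768) (a (l 16384744) (l 16350904)))) (a (b (a (l 16308856) (l 16276344)) (a (l 16317456) (l 16284952))) (b (l 16225936) (l 16296584)))) (a (a (b (a (b (l 16460008) (l 16462848)) (l 16446544)) (a (b (l 16465272) (a (l 16476888) (l 16457904))) (b (l 16428672) (a (l 16439320) (l 16421072)))))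 (b (a (l 16390648) (l 16356624)) (a (b (l 16393328) (l 16415336)) (b (l 16359032) (l 16359824))))) (a (b (a (l 16323424) (l 16332848)) (a (b (l 16325696) (l 16326328)) (a (l 16301640) (l 16327448)))) (b (a (l 16256536) (l 16221928)) (a (b (l 16259136) (l 16259712)) (l 16266888)))))))), by decide +kernel⟩

def k3_pm_012_s : ∃ t, chk3 f_pm_012_s t 5 1 1 = true :=
  ⟨(b (b (l 6) (l 6)) (b (a (a (b (a (b (l 6) (l 16072144)) (l 6)) (a (b (l 16090752) (l 16112056)) (a (b (l 16054296) (l 16072032)) (b (l 6) (a (l 16052792) (l 16040184)))))) (b (l 6) (b (l 6) (l 16131608)))) (l 6)) (a (b (a (a (b (l 16132832) (b (l 16146184) (l 16153840))) (a (b (l 16090288) (l 16105472)) (b (a (l 16069696) (l 16056648)) (a (l 16084104) (a (l 16074232) (l 16067704)))))) (b (b (l 15993032) (l 15998656)) (b (l 16003640) (l 16008000)))) (a (a (b (b (l 16160568) (l 16166472)) (b (a (l 16187888) (l 16154640)) (a (l 16211720) (l 16157672)))) (b (a (l 16137680) (a (l 16094704) (a (l 16084464)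 (b (l 16075624) (l 16079840))))) (a (b (l 16122824) (l 16125592)) (a (b (l 16100136) (l 16102568)) (a (b (l 16089864) (l 16092328)) (b (l 16083312) (l 16106808))))))) (b (b (a (l 16041352) (l 15981504)) (a (l 16044560) (l 15982704))) (b (a (l 16046880) (l 15983016)) (a (b (l 16048104) (l 16048624)) (b (l 15982600) (l 15982112))))))) (b (l 6) (a (a (b (l 16007888) (b (l 15921936) (b (l 15920040) (l 15918456)))) (l 6)) (l 6)))))), by decide +kernel⟩

def k4_pm_012_s : ∃ t, chk3 f_pm_012_s t 3 1 1 = true :=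
  ⟨(b (l 6) (l 6)), by decide +kernel⟩

theorem s5_pm_012_s : ∃ t, chk3 f_pm_012_s t 4 3 1 = true := ex3_a k1_pm_012_s k2_pm_012_s

theorem s6_pm_012_s : ∃ t, chk3 f_pm_012_s t 4 1 1 = true := ex3_b k0_pm_012_s s5_pm_012_s

theorem s7_pm_012_s : ∃ t, chk3 f_pm_012_s t 2 1 1 = true := ex3_a s6_pm_012_s k3_pm_012_s

theorem s8_pm_012_s : ∃ t, chk3 f_pm_012_s t 1 1 1 = true := ex3_a s7_pm_012_s k4_pm_012_s

theorem c_pm_012_s : CertNE 0 536870912 536870912 536870912 780900216 37827925 3 eng mog cd0q0 cd5q1 pd2 true true false .pnp 0 1 2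
    ndB0q0 ndB5q1 pcB2 cut_pm_012_s Ext.none :=
  certNE2 (fam := true) (s1 := true) (s2 := false) (a := 0) (b := 1) (c := 2) (cn := .pnp) (n1 := ndB0q0) (n2 := ndB5q1) (pc := pcB2) (cut := cut_pm_012_s) (xt := Ext.none) (P1 := 0) (W1 := 536870912) (P2 := 536870912) (W2 := 536870912) (P3 := 780900216) (W3 := 37827925) (N0 := 3) (En := eng) (mo := mog) (C1 := cd0q0) (C2 := cd5q1) (C3 := pd2)
    rfl (fun _ => rfl) s8_pm_012_s

noncomputable def cut_pm_022_s : Cut := Cut.of [[⟨4, 0, 0, 1449551462⟩], [⟨0, 0, 0, 67108864⟩, ⟨1, 1, 0, 67108864⟩, ⟨2, 1, 0, 67108864⟩]]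

noncomputable def f_pm_022_s : ℕ → ℕ → ℕ → ℕ → Bool := onCell 1073741824 536870912 1073741824 536870912 780900216 37827925
    (rowNE 3 eng mog cd0q0 cd5q2 pd2 2 true true false .pp 0 2 2 (qsf 0 536870912 1073741824 536870912 2) ndB0q0 ndB5q2 pcB2 cut_pm_022_s Ext.none)

def k0_pm_022_s : ∃ t, chk3 f_pm_022_s t 4 2 1 = true :=
  ⟨(a (b (b (a (b (l 14) (b (l 14) (l 1))) (b (a (l 14) (a (l 14) (a (l 14) (b (b (l 16508560) (l 16533296)) (l 16590176))))) (a (b (l 14) (b (l 14) (l 1))) (b (a (l 14) (b (l 16612064) (l 16634216))) (a (b (l 14) (l 619045445399)) (b (l 16641104) (l 457447203431))))))) (a (l 1) (b (a (l 1) (b (a (l 1) (l 618508525623)) (l 1))) (l 1)))) (l 1)) (b (b (a (b (a (b (b (a (a (l 16490512) (l 16471288)) (c (l 16451448) (l 16434640))) (a (l 16505488) (l 16467648))) (b (a (l 16529480) (l 16491456)) (a (l 16552824) (l 16514632)))) (b (a (b (c (l 16416240) (l 16397592)) (l 16431360)) (b (l 16393336) (l 16396576))) (a (b (l 16455008) (l 16478032))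 (l 16431584)))) (a (b (a (b (l 16575528) (l 16597568)) (b (l 16537168) (l 16559048))) (a (l 16608256) (l 16590616))) (b (b (l 16503640) (l 16546288)) (b (l 16588288) (l 16524768))))) (b (a (b (a (b (l 16338880) (l 16363128)) (b (a (l 16314432) (l 16298352)) (l 16330864))) (a (l 16398088) (a (l 16373800) (l 16357944)))) (b (b (a (l 16272520) (l 16238216)) (a (l 16297336) (l 16263480))) (a (l 16332664) (l 16299416)))) (a (b (a (l 16442328) (l 16409976)) (a (l 16484072) (l 16451568))) (b (l 16433928) (l 16402144))))) (a (b (a (b (a (b (l 459594636231) (l 688838593591)) (l 150893811959)) (l 862784736039)) (b (a (l 16593008) (l 16557312)) (a (l 474090054887) (l 16579328)))) (a (l 1) (l 792991463399))) (b (a (b (a (l 16523192) (l 16427648)) (a (l 16559616) (l 16526896))) (b (l 16462216) (l 16477720))) (b (a (a (l 453688905991) (l 16547880)) (l 16511488)) (a (l 715145120551) (l 427919013607)))))) (a (l 1) (b (b (a (l 1) (l 723198099415)) (l 1)) (l 1))))), by decide +kernel⟩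

def k1_pm_022_s : ∃ t, chk3 f_pm_022_s t 5 2 1 = true :=
  ⟨(b (a (b (a (b (a (b (a (l 16238664) (l 16185256)) (a (l 16267024) (l 16235616))) (a (b (b (l 16140168) (l 16167288)) (l 16205488)) (b (a (l 16131440) (a (l 16121520) (b (l 16101104) (l 16129120)))) (a (l 16184096) (a (l 16174736) (l 16168872)))))) (a (b (l 16317992) (l 16339360)) (a (b (l 16252560) (l 16295680)) (a (l 16254352) (a (l 16245736) (l 16240400)))))) (b (b (a (b (l 16063264) (l 16091680)) (b (l 15996344) (l 16024872))) (a (l 16132128) (l 16066304))) (b (a (l 16182224) (l 16117816)) (l 16238312)))) (a (a (b (b (l 16378744) (l 16415592)) (l 16465768)) (b (a (l 16354608) (a (l 16335256) (a (l 16327280) (l 16322440)))) (a (l 16423624) (a (l 16404880) (l 16394816))))) (b (b (l 16222584) (l 16277208)) (b (l 16375840) (l 16345776))))) (b (b (a (a (b (b (l 15932184) (l 15960792)) (l 16002256)) (b (b (l 15870992) (l 15899544)) (l 15941080))) (l 6)) (a (a (b (l 16054904) (l 16103584)) (b (l 15993832)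 (l 16043576))) (b (l 6) (l 15957472)))) (b (a (a (l 16168888) (l 16110672)) (b (l 16025760) (l 16048112))) (a (a (l 16242408) (l 16186640)) (a (l 16132848) (l 16080080)))))) (a (b (a (a (b (a (l 503617684935) (l 237866572855)) (l 1)) (b (a (l 16421792) (b (l 16446368) (l 266320976439))) (a (l 1) (a (l 1) (l 687764343815))))) (b (a (l 16420312) (l 16361368)) (a (l 429529236087) (l 16385168)))) (a (l 1) (b (l 722124050039) (l 1)))) (b (b (a (b (l 16325320) (l 16291552)) (l 16318920)) (a (l 16331704) (l 16228784))) (a (b (a (l 406443611559) (l 16319136)) (l 690448521431)) (b (l 16277944) (l 418791595911)))))), by decide +kernel⟩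

def k2_pm_022_s : ∃ t, chk3 f_pm_022_s t 3 2 1 = true :=
  ⟨(a (a (b (l 6) (a (b (b (a (l 16098176) (l 6)) (l 16144168)) (b (l 16185488) (l 16227848))) (l 6))) (l 6)) (l 6)), by decide +kernel⟩

def k3_pm_022_s : ∃ t, chk3 f_pm_022_s t 1 3 1 = true :=
  ⟨(a (a (l 1) (a (l 1) (b (b (a (l 1) (b (l 665215442967) (l 1))) (l 1)) (l 1)))) (a (b (a (b (a (b (l 401611560343) (l 583073803927)) (b (l 16166080) (l 385505277527))) (b (l 641592876423) (l 1))) (l 6)) (a (l 1) (a (l 1) (l 6)))) (l 6))), by decide +kernel⟩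

theorem s4_pm_022_s : ∃ t, chk3 f_pm_022_s t 2 2 1 = true := ex3_a k0_pm_022_s k1_pm_022_s

theorem s5_pm_022_s : ∃ t, chk3 f_pm_022_s t 1 2 1 = true := ex3_a s4_pm_022_s k2_pm_022_s

theorem s6_pm_022_s : ∃ t, chk3 f_pm_022_s t 1 1 1 = true := ex3_b s5_pm_022_s k3_pm_022_s

theorem c_pm_022_s : CertNE 0 536870912 1073741824 536870912 780900216 37827925 3 eng mog cd0q0 cd5q2 pd2 true true false .pp 0 2 2
    ndB0q0 ndB5q2 pcB2 cut_pm_022_s Ext.none :=
  certNE2 (fam := true) (s1 := true) (s2 := false) (a := 0) (b := 2) (c := 2) (cn := .pp) (n1 := ndB0q0) (n2 := ndB5q2) (pc := pcB2) (cut := cut_pm_022_s) (xt := Ext.none) (P1 := 0) (W1 := 536870912) (P2 := 1073741824) (W2 := 536870912) (P3 := 780900216) (W3 := 37827925) (N0 := 3) (En := eng) (mo := mog) (C1 := cd0q0) (C2 := cd5q2) (C3 := pd2)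
    rfl (fun _ => rfl) s6_pm_022_s

noncomputable def cut_pm_023_s : Cut := Cut.of [[⟨4, 0, 0, 1449551462⟩]]

noncomputable def f_pm_023_s : ℕ → ℕ → ℕ → ℕ → Bool := onCell 1610612736 536870912 1073741824 536870912 780900216 37827925
    (rowNE 3 eng mog cd0q0 cd5q2 pd3 2 true true false .up 0 2 3 (qsf 0 536870912 1073741824 536870912 3) ndB0q0 ndB5q2 pcB3 cut_pm_023_s Ext.none)

def k0_pm_023_s : ∃ t, chk3 f_pm_023_s t 1 1 1 = true :=
  ⟨(a (l 6) (l 6)), by decide +kernel⟩

theorem c_pm_023_s : CertNE 0 536870912 1073741824 536870912 780900216 37827925 3 eng mog cd0q0 cd5q2 pd3 true true false .up 0 2 3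
    ndB0q0 ndB5q2 pcB3 cut_pm_023_s Ext.none :=
  certNE2 (fam := true) (s1 := true) (s2 := false) (a := 0) (b := 2) (c := 3) (cn := .up) (n1 := ndB0q0) (n2 := ndB5q2) (pc := pcB3) (cut := cut_pm_023_s) (xt := Ext.none) (P1 := 0) (W1 := 536870912) (P2 := 1073741824) (W2 := 536870912) (P3 := 780900216) (W3 := 37827925) (N0 := 3) (En := eng) (mo := mog) (C1 := cd0q0) (C2 := cd5q2) (C3 := pd3)
    rfl (fun _ => rfl) k0_pm_023_s

noncomputable def cut_pm_033_s : Cut := Cut.of [[⟨4, 0, 0, 1449551462⟩]]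

noncomputable def f_pm_033_s : ℕ → ℕ → ℕ → ℕ → Bool := onCell 1610612736 536870912 0 1230186008 780900216 37827925
    (rowNE 3 eng mog cd0q0 cd5q3 pd3 2 true true false .pnn 0 3 3 (qsf 0 536870912 0 1230186008 3) ndB0q0 ndB5q3 pcB3 cut_pm_033_s Ext.none)

def k0_pm_033_s : ∃ t, chk3 f_pm_033_s t 1 1 1 = true :=
  ⟨(b (l 6) (l 6)), by decide +kernel⟩

theorem c_pm_033_s : CertNE 0 536870912 0 1230186008 780900216 37827925 3 eng mog cd0q0 cd5q3 pd3 true true false .pnn 0 3 3
    ndB0q0 ndB5q3 pcB3 cut_pm_033_s Ext.none :=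
  certNE2 (fam := true) (s1 := true) (s2 := false) (a := 0) (b := 3) (c := 3) (cn := .pnn) (n1 := ndB0q0) (n2 := ndB5q3) (pc := pcB3) (cut := cut_pm_033_s) (xt := Ext.none) (P1 := 0) (W1 := 536870912) (P2 := 0) (W2 := 1230186008) (P3 := 780900216) (W3 := 37827925) (N0 := 3) (En := eng) (mo := mog) (C1 := cd0q0) (C2 := cd5q3) (C3 := pd3)
    rfl (fun _ => rfl) k0_pm_033_s

noncomputable def cut_pm_101_s : Cut := Cut.of [[⟨4, 0, 0, 1449551462⟩]]

noncomputable def f_pm_101_s : ℕ → ℕ → ℕ → ℕ → Bool := onCell 536870912 536870912 536870912 536870912 780900216 37827925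
    (rowNE 3 eng mog cd0q1 cd5q0 pd1 1 true true false .npn 1 0 1 (qsf 536870912 536870912 0 536870912 1) ndB0q1 ndB5q0 pcB1 cut_pm_101_s Ext.none)

def k0_pm_101_s : ∃ t, chk3 f_pm_101_s t 2 4 1 = true :=
  ⟨(a (b (a (l 3) (a (a (l 3) (l 1)) (l 1))) (a (b (a (l 3) (b (l 3) (a (l 3) (b (l 3) (a (l 3) (b (l 3) (a (l 3) (l 452749946519)))))))) (a (b (l 3) (a (l 3) (b (l 3) (a (l 3) (b (l 3) (a (l 3) (l 375440537655))))))) (b (a (b (l 3) (a (l 3) (b (l 3) (a (l 3) (l 424832659975))))) (b (a (b (l 3) (a (l 3) (l 441475657735))) (b (a (l 447918108471) (l 118816231527)) (a (l 113447522823) (l 16769368)))) (a (b (a (l 433959465207) (l 106468201479)) (a (l 16771656) (l 16769000))) (l 16763752)))) (a (b (a (b (l 3) (a (l 3) (l 403357824199))) (b (a (l 414632112983) (l 16774072)) (l 16771144))) (a (b (a (l 389936051815) (l 16773568)) (l 16770544)) (l 16762608))) (a (b (l 16763256) (l 16751872)) (l 16767864)))))) (b (a (b (a (b (l 3) (a (l 3) (b (l 3) (a (l 3) (b (l 3) (l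 423758908567)))))) (a (b (l 1) (b (l 1) (b (l 1) (l 55868115799)))) (l 1))) (a (b (a (b (l 3) (a (l 3) (l 459192392023))) (b (a (l 460803004711) (b (a (l 312089760615) (l 16775088)) (l 16773744))) (a (b (l 183777611815) (l 16773712)) (l 16769728)))) (a (b (a (l 456508042791) (b (l 183240740983) (l 16773656))) (a (b (l 180019515703) (l 16773576)) (l 16769608))) (a (l 16766976) (l 16761648)))) (a (b (a (b (l 16769744) (l 16764384)) (l 16761752)) (l 16753640)) (l 16769432)))) (b (l 1) (l 173979726999))) (a (b (a (a (b (b (l 16766832) (l 16761376)) (l 16753112)) (l 16768936)) (l 16752944)) (a (l 16751912) (l 16709784))) (a (l 16762576) (l 16700048)))))) (b (l 1) (a (a (b (l 1) (l 16734120)) (l 1)) (l 1)))), by decide +kernel⟩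

def k1_pm_101_s : ∃ t, chk3 f_pm_101_s t 2 5 1 = true :=
  ⟨(a (b (a (b (a (b (a (b (l 3) (a (l 3) (b (l 3) (a (l 532743708295) (l 313700362439))))) (b (a (b (l 3) (a (l 3) (l 314774103063))) (b (a (l 359871281719) (l 16772936)) (l 16769800))) (a (b (a (l 314237232775) (l 16772160)) (l 16768896)) (l 16771296)))) (a (b (a (b (l 532206833575) (a (l 525764387527) (l 244444017015))) (b (a (l 313163492679) (l 16771184)) (l 16767696))) (a (b (a (l 220284827271) (l 16769912)) (l 16766184)) (l 16778840))) (b (a (l 16780536) (l 16748464)) (l 16761960)))) (b (a (b (a (l 16767040) (l 16750968)) (l 16765368)) (l 16749912)) (a (l 16746600) (l 16704280)))) (a (b (a (b (a (l 16755824) (l 16744200)) (l 16756544)) (l 16741248)) (a (l 16733536) (l 16690448))) (a (l 16762592) (l 16683960)))) (b (a (b (l 16739048) (l 16672640)) (l 16705648)) (a (l 16715792) (l 16590992)))) (a (b (a (b (a (l 16679352) (l 16657800)) (l 16653328)) (b (l 16626624) (l 16592336))) (a (a (l 16583208) (l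 16563904)) (l 16535864))) (b (a (l 16570280) (l 16531592)) (a (l 16500040) (l 16464536))))) (b (a (b (a (l 16600808) (l 16560160)) (a (l 16549024) (l 16504704))) (a (b (l 1) (l 16460472)) (l 1))) (a (a (b (l 16491968) (l 16427376)) (b (l 16447120) (l 16388008))) (a (l 16456384) (l 16324144))))), by decide +kernel⟩

def k2_pm_101_s : ∃ t, chk3 f_pm_101_s t 3 2 1 = true :=
  ⟨(a (b (l 1) (a (b (l 1) (a (l 16283024) (l 1))) (l 1))) (l 1)), by decide +kernel⟩

def k3_pm_101_s : ∃ t, chk3 f_pm_101_s t 1 3 1 = true :=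
  ⟨(a (b (a (b (a (a (b (l 16528544) (l 16418128)) (b (l 16450672) (l 16353976))) (b (a (l 16419808) (l 16388272)) (a (l 16326304) (l 16301080)))) (a (a (b (l 16350920) (l 16287424)) (b (l 16287208) (l 16223832))) (a (l 16313176) (l 16161208)))) (a (b (a (b (l 16356272) (l 16273640)) (l 16280072)) (a (l 16122424) (l 16098856))) (b (a (l 16238368) (l 16191376)) (a (l 16067520) (l 6))))) (a (b (a (b (l 16352104) (l 16264080)) (a (l 16061120) (l 15981664))) (a (a (l 16154760) (l 16025256)) (l 16082144))) (a (b (l 16080400) (l 6)) (l 6)))) (a (b (a (l 6) (l 6)) (l 6)) (l 6))), by decide +kernel⟩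

theorem s4_pm_101_s : ∃ t, chk3 f_pm_101_s t 2 2 1 = true := ex3_b k0_pm_101_s k1_pm_101_s

theorem s5_pm_101_s : ∃ t, chk3 f_pm_101_s t 1 2 1 = true := ex3_a s4_pm_101_s k2_pm_101_s

theorem s6_pm_101_s : ∃ t, chk3 f_pm_101_s t 1 1 1 = true := ex3_b s5_pm_101_s k3_pm_101_s

theorem c_pm_101_s : CertNE 536870912 536870912 0 536870912 780900216 37827925 3 eng mog cd0q1 cd5q0 pd1 true true false .npn 1 0 1
    ndB0q1 ndB5q0 pcB1 cut_pm_101_s Ext.none :=
  certNE1 (fam := true) (s1 := true) (s2 := false) (a := 1) (b := 0) (c := 1) (cn := .npn) (n1 := ndB0q1) (n2 := ndB5q0) (pc := pcB1) (cut := cut_pm_101_s) (xt := Ext.none) (P1 := 536870912) (W1 := 536870912) (P2 := 0) (W2 := 536870912) (P3 := 780900216) (W3 := 37827925) (N0 := 3) (En := eng) (mo := mog) (C1 := cd0q1) (C2 := cd5q0) (C3 := pd1)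
    rfl (fun _ => rfl) s6_pm_101_s

noncomputable def cut_pm_102_s : Cut := Cut.of [[⟨4, 0, 0, 1449551462⟩]]

noncomputable def f_pm_102_s : ℕ → ℕ → ℕ → ℕ → Bool := onCell 536870912 536870912 1073741824 536870912 780900216 37827925
    (rowNE 3 eng mog cd0q1 cd5q0 pd2 1 true true false .npp 1 0 2 (qsf 536870912 536870912 0 536870912 2) ndB0q1 ndB5q0 pcB2 cut_pm_102_s Ext.none)

def k0_pm_102_s : ∃ t, chk3 f_pm_102_s t 1 1 1 = true :=
  ⟨(a (b (a (b (a (b (b (l 16073016) (l 6)) (l 6)) (l 6)) (l 6)) (l 6)) (l 6)) (l 6)), by decide +kernel⟩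

theorem c_pm_102_s : CertNE 536870912 536870912 0 536870912 780900216 37827925 3 eng mog cd0q1 cd5q0 pd2 true true false .npp 1 0 2
    ndB0q1 ndB5q0 pcB2 cut_pm_102_s Ext.none :=
  certNE1 (fam := true) (s1 := true) (s2 := false) (a := 1) (b := 0) (c := 2) (cn := .npp) (n1 := ndB0q1) (n2 := ndB5q0) (pc := pcB2) (cut := cut_pm_102_s) (xt := Ext.none) (P1 := 536870912) (W1 := 536870912) (P2 := 0) (W2 := 536870912) (P3 := 780900216) (W3 := 37827925) (N0 := 3) (En := eng) (mo := mog) (C1 := cd0q1) (C2 := cd5q0) (C3 := pd2)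
    rfl (fun _ => rfl) k0_pm_102_s

noncomputable def cut_pm_112_s : Cut := Cut.of [[⟨4, 0, 0, 1449551462⟩]]

noncomputable def f_pm_112_s : ℕ → ℕ → ℕ → ℕ → Bool := onCell 536870912 536870912 1073741824 536870912 780900216 37827925
    (rowNE 3 eng mog cd0q1 cd5q1 pd2 1 true true false .dn 1 1 2 (qsf 536870912 536870912 536870912 536870912 2) ndB0q1 ndB5q1 pcB2 cut_pm_112_s Ext.none)

def k0_pm_112_s : ∃ t, chk3 f_pm_112_s t 1 1 1 = true :=
  ⟨(a (b (a (b (a (b (l 196527048471) (l 6)) (l 6)) (l 6)) (l 6)) (l 6)) (l 6)), by decide +kernel⟩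

theorem c_pm_112_s : CertNE 536870912 536870912 536870912 536870912 780900216 37827925 3 eng mog cd0q1 cd5q1 pd2 true true false .dn 1 1 2
    ndB0q1 ndB5q1 pcB2 cut_pm_112_s Ext.none :=
  certNE1 (fam := true) (s1 := true) (s2 := false) (a := 1) (b := 1) (c := 2) (cn := .dn) (n1 := ndB0q1) (n2 := ndB5q1) (pc := pcB2) (cut := cut_pm_112_s) (xt := Ext.none) (P1 := 536870912) (W1 := 536870912) (P2 := 536870912) (W2 := 536870912) (P3 := 780900216) (W3 := 37827925) (N0 := 3) (En := eng) (mo := mog) (C1 := cd0q1) (C2 := cd5q1) (C3 := pd2)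
    rfl (fun _ => rfl) k0_pm_112_s

noncomputable def cut_pm_113_s : Cut := Cut.of [[⟨4, 0, 0, 1449551462⟩]]

noncomputable def f_pm_113_s : ℕ → ℕ → ℕ → ℕ → Bool := onCell 536870912 536870912 1610612736 536870912 780900216 37827925
    (rowNE 3 eng mog cd0q1 cd5q1 pd3 1 true true false .nn 1 1 3 (qsf 536870912 536870912 536870912 536870912 3) ndB0q1 ndB5q1 pcB3 cut_pm_113_s Ext.none)

def k0_pm_113_s : ∃ t, chk3 f_pm_113_s t 1 1 1 = true :=
  ⟨(l 6), by decide +kernel⟩

theorem c_pm_113_s : CertNE 536870912 536870912 536870912 536870912 780900216 37827925 3 eng mog cd0q1 cd5q1 pd3 true true false .nn 1 1 3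
    ndB0q1 ndB5q1 pcB3 cut_pm_113_s Ext.none :=
  certNE1 (fam := true) (s1 := true) (s2 := false) (a := 1) (b := 1) (c := 3) (cn := .nn) (n1 := ndB0q1) (n2 := ndB5q1) (pc := pcB3) (cut := cut_pm_113_s) (xt := Ext.none) (P1 := 536870912) (W1 := 536870912) (P2 := 536870912) (W2 := 536870912) (P3 := 780900216) (W3 := 37827925) (N0 := 3) (En := eng) (mo := mog) (C1 := cd0q1) (C2 := cd5q1) (C3 := pd3)
    rfl (fun _ => rfl) k0_pm_113_s

noncomputable def cut_pm_123_s : Cut := Cut.of [[⟨4, 0, 0, 1449551462⟩]]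

noncomputable def f_pm_123_s : ℕ → ℕ → ℕ → ℕ → Bool := onCell 536870912 536870912 1073741824 536870912 780900216 37827925
    (rowNE 3 eng mog cd0q1 cd5q2 pd3 0 true true false .npn 1 2 3 (qsf 536870912 536870912 1073741824 536870912 3) ndB0q1 ndB5q2 pcB3 cut_pm_123_s Ext.none)

def k0_pm_123_s : ∃ t, chk3 f_pm_123_s t 1 1 1 = true :=
  ⟨(l 6), by decide +kernel⟩

theorem c_pm_123_s : CertNE 536870912 536870912 1073741824 536870912 780900216 37827925 3 eng mog cd0q1 cd5q2 pd3 true true false .npn 1 2 3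
    ndB0q1 ndB5q2 pcB3 cut_pm_123_s Ext.none :=
  certNE0 (fam := true) (s1 := true) (s2 := false) (a := 1) (b := 2) (c := 3) (cn := .npn) (n1 := ndB0q1) (n2 := ndB5q2) (pc := pcB3) (cut := cut_pm_123_s) (xt := Ext.none) (P1 := 536870912) (W1 := 536870912) (P2 := 1073741824) (W2 := 536870912) (P3 := 780900216) (W3 := 37827925) (N0 := 3) (En := eng) (mo := mog) (C1 := cd0q1) (C2 := cd5q2) (C3 := pd3)
    rfl k0_pm_123_s

noncomputable def cut_pm_133_s : Cut := Cut.of [[⟨4, 0, 0, 1449551462⟩]]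

noncomputable def f_pm_133_s : ℕ → ℕ → ℕ → ℕ → Bool := onCell 536870912 536870912 0 1230186008 780900216 37827925
    (rowNE 3 eng mog cd0q1 cd5q3 pd3 0 true true false .dn 1 3 3 (qsf 536870912 536870912 0 1230186008 3) ndB0q1 ndB5q3 pcB3 cut_pm_133_s Ext.none)

def k0_pm_133_s : ∃ t, chk3 f_pm_133_s t 1 1 1 = true :=
  ⟨(l 6), by decide +kernel⟩

theorem c_pm_133_s : CertNE 536870912 536870912 0 1230186008 780900216 37827925 3 eng mog cd0q1 cd5q3 pd3 true true false .dn 1 3 3
    ndB0q1 ndB5q3 pcB3 cut_pm_133_s Ext.none :=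
  certNE0 (fam := true) (s1 := true) (s2 := false) (a := 1) (b := 3) (c := 3) (cn := .dn) (n1 := ndB0q1) (n2 := ndB5q3) (pc := pcB3) (cut := cut_pm_133_s) (xt := Ext.none) (P1 := 536870912) (W1 := 536870912) (P2 := 0) (W2 := 1230186008) (P3 := 780900216) (W3 := 37827925) (N0 := 3) (En := eng) (mo := mog) (C1 := cd0q1) (C2 := cd5q3) (C3 := pd3)
    rfl k0_pm_133_s

noncomputable def cut_pm_202_s : Cut := Cut.of [[⟨4, 0, 0, 1449551462⟩]]

noncomputable def f_pm_202_s : ℕ → ℕ → ℕ → ℕ → Bool := onCell 0 536870912 0 536870912 780900216 37827925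
    (rowNE 3 eng mog cd0q2 cd5q0 pd2 0 true true false .pp 2 0 2 (qsf 0 536870912 0 536870912 2) ndB0q2 ndB5q0 pcB2 cut_pm_202_s Ext.none)

def k0_pm_202_s : ∃ t, chk3 f_pm_202_s t 1 1 1 = true :=
  ⟨(l 6), by decide +kernel⟩

theorem c_pm_202_s : CertNE 0 536870912 0 536870912 780900216 37827925 3 eng mog cd0q2 cd5q0 pd2 true true false .pp 2 0 2
    ndB0q2 ndB5q0 pcB2 cut_pm_202_s Ext.none :=
  certNE0 (fam := true) (s1 := true) (s2 := false) (a := 2) (b := 0) (c := 2) (cn := .pp) (n1 := ndB0q2) (n2 := ndB5q0) (pc := pcB2) (cut := cut_pm_202_s) (xt := Ext.none) (P1 := 0) (W1 := 536870912) (P2 := 0) (W2 := 536870912) (P3 := 780900216) (W3 := 37827925) (N0 := 3) (En := eng) (mo := mog) (C1 := cd0q2) (C2 := cd5q0) (C3 := pd2)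
    rfl k0_pm_202_s

noncomputable def cut_pm_203_s : Cut := Cut.of [[⟨4, 0, 0, 1449551462⟩]]

noncomputable def f_pm_203_s : ℕ → ℕ → ℕ → ℕ → Bool := onCell 0 536870912 0 536870912 780900216 37827925
    (rowNE 3 eng mog cd0q2 cd5q0 pd3 0 true true false .up 2 0 3 (qsf 0 536870912 0 536870912 3) ndB0q2 ndB5q0 pcB3 cut_pm_203_s Ext.none)

def k0_pm_203_s : ∃ t, chk3 f_pm_203_s t 1 1 1 = true :=
  ⟨(l 6), by decide +kernel⟩

theorem c_pm_203_s : CertNE 0 536870912 0 536870912 780900216 37827925 3 eng mog cd0q2 cd5q0 pd3 true true false .up 2 0 3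
    ndB0q2 ndB5q0 pcB3 cut_pm_203_s Ext.none :=
  certNE0 (fam := true) (s1 := true) (s2 := false) (a := 2) (b := 0) (c := 3) (cn := .up) (n1 := ndB0q2) (n2 := ndB5q0) (pc := pcB3) (cut := cut_pm_203_s) (xt := Ext.none) (P1 := 0) (W1 := 536870912) (P2 := 0) (W2 := 536870912) (P3 := 780900216) (W3 := 37827925) (N0 := 3) (En := eng) (mo := mog) (C1 := cd0q2) (C2 := cd5q0) (C3 := pd3)
    rfl k0_pm_203_s

noncomputable def cut_pm_213_s : Cut := Cut.of [[⟨4, 0, 0, 1449551462⟩]]

noncomputable def f_pm_213_s : ℕ → ℕ → ℕ → ℕ → Bool := onCell 0 536870912 536870912 536870912 780900216 37827925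
    (rowNE 3 eng mog cd0q2 cd5q1 pd3 0 true true false .pnn 2 1 3 (qsf 0 536870912 536870912 536870912 3) ndB0q2 ndB5q1 pcB3 cut_pm_213_s Ext.none)

def k0_pm_213_s : ∃ t, chk3 f_pm_213_s t 1 1 1 = true :=
  ⟨(l 6), by decide +kernel⟩

theorem c_pm_213_s : CertNE 0 536870912 536870912 536870912 780900216 37827925 3 eng mog cd0q2 cd5q1 pd3 true true false .pnn 2 1 3
    ndB0q2 ndB5q1 pcB3 cut_pm_213_s Ext.none :=
  certNE0 (fam := true) (s1 := true) (s2 := false) (a := 2) (b := 1) (c := 3) (cn := .pnn) (n1 := ndB0q2) (n2 := ndB5q1) (pc := pcB3) (cut := cut_pm_213_s) (xt := Ext.none) (P1 := 0) (W1 := 536870912) (P2 := 536870912) (W2 := 536870912) (P3 := 780900216) (W3 := 37827925) (N0 := 3) (En := eng) (mo := mog) (C1 := cd0q2) (C2 := cd5q1) (C3 := pd3)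
    rfl k0_pm_213_s

noncomputable def cut_mm_001_s : Cut := Cut.of [[⟨4, 0, 0, 1449551462⟩]]

noncomputable def f_mm_001_s : ℕ → ℕ → ℕ → ℕ → Bool := onCell 0 536870912 0 536870912 780900216 37827925
    (rowNE 3 eng mog cd0q0 cd5q0 pd1 0 true false false .up 0 0 1 (qsf 0 536870912 0 536870912 1) ndB0q0 ndB5q0 pcB1 cut_mm_001_s Ext.none)

def k0_mm_001_s : ∃ t, chk3 f_mm_001_s t 1 1 1 = true :=
  ⟨(l 4), by decide +kernel⟩

theorem c_mm_001_s : CertNE 0 536870912 0 536870912 780900216 37827925 3 eng mog cd0q0 cd5q0 pd1 true false false .up 0 0 1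
    ndB0q0 ndB5q0 pcB1 cut_mm_001_s Ext.none :=
  certNE0 (fam := true) (s1 := false) (s2 := false) (a := 0) (b := 0) (c := 1) (cn := .up) (n1 := ndB0q0) (n2 := ndB5q0) (pc := pcB1) (cut := cut_mm_001_s) (xt := Ext.none) (P1 := 0) (W1 := 536870912) (P2 := 0) (W2 := 536870912) (P3 := 780900216) (W3 := 37827925) (N0 := 3) (En := eng) (mo := mog) (C1 := cd0q0) (C2 := cd5q0) (C3 := pd1)
    rfl k0_mm_001_s

noncomputable def cut_mm_011_s : Cut := Cut.of [[⟨4, 0, 0, 1449551462⟩]]

noncomputable def f_mm_011_s : ℕ → ℕ → ℕ → ℕ → Bool := onCell 0 536870912 536870912 536870912 780900216 37827925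
    (rowNE 3 eng mog cd0q0 cd5q1 pd1 0 true false false .pnn 0 1 1 (qsf 0 536870912 536870912 536870912 1) ndB0q0 ndB5q1 pcB1 cut_mm_011_s Ext.none)

def k0_mm_011_s : ∃ t, chk3 f_mm_011_s t 1 1 1 = true :=
  ⟨(l 4), by decide +kernel⟩

theorem c_mm_011_s : CertNE 0 536870912 536870912 536870912 780900216 37827925 3 eng mog cd0q0 cd5q1 pd1 true false false .pnn 0 1 1
    ndB0q0 ndB5q1 pcB1 cut_mm_011_s Ext.none :=
  certNE0 (fam := true) (s1 := false) (s2 := false) (a := 0) (b := 1) (c := 1) (cn := .pnn) (n1 := ndB0q0) (n2 := ndB5q1) (pc := pcB1) (cut := cut_mm_011_s) (xt := Ext.none) (P1 := 0) (W1 := 536870912) (P2 := 536870912) (W2 := 536870912) (P3 := 780900216) (W3 := 37827925) (N0 := 3) (En := eng) (mo := mog) (C1 := cd0q0) (C2 := cd5q1) (C3 := pd1)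
    rfl k0_mm_011_s

noncomputable def cut_mm_012_s : Cut := Cut.of [[⟨4, 0, 0, 1449551462⟩]]

noncomputable def f_mm_012_s : ℕ → ℕ → ℕ → ℕ → Bool := onCell 0 536870912 536870912 536870912 780900216 37827925
    (rowNE 3 eng mog cd0q0 cd5q1 pd2 0 true false false .pnp 0 1 2 (qsf 0 536870912 536870912 536870912 2) ndB0q0 ndB5q1 pcB2 cut_mm_012_s Ext.none)

def k0_mm_012_s : ∃ t, chk3 f_mm_012_s t 1 1 1 = true :=
  ⟨(l 4), by decide +kernel⟩

theorem c_mm_012_s : CertNE 0 536870912 536870912 536870912 780900216 37827925 3 eng mog cd0q0 cd5q1 pd2 true false false .pnp 0 1 2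
    ndB0q0 ndB5q1 pcB2 cut_mm_012_s Ext.none :=
  certNE0 (fam := true) (s1 := false) (s2 := false) (a := 0) (b := 1) (c := 2) (cn := .pnp) (n1 := ndB0q0) (n2 := ndB5q1) (pc := pcB2) (cut := cut_mm_012_s) (xt := Ext.none) (P1 := 0) (W1 := 536870912) (P2 := 536870912) (W2 := 536870912) (P3 := 780900216) (W3 := 37827925) (N0 := 3) (En := eng) (mo := mog) (C1 := cd0q0) (C2 := cd5q1) (C3 := pd2)
    rfl k0_mm_012_s

noncomputable def cut_mm_022_s : Cut := Cut.of [[⟨4, 0, 0, 1449551462⟩]]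

noncomputable def f_mm_022_s : ℕ → ℕ → ℕ → ℕ → Bool := onCell 0 536870912 1073741824 536870912 780900216 37827925
    (rowNE 3 eng mog cd0q0 cd5q2 pd2 0 true false false .pp 0 2 2 (qsf 0 536870912 1073741824 536870912 2) ndB0q0 ndB5q2 pcB2 cut_mm_022_s Ext.none)

def k0_mm_022_s : ∃ t, chk3 f_mm_022_s t 1 1 1 = true :=
  ⟨(l 4), by decide +kernel⟩

theorem c_mm_022_s : CertNE 0 536870912 1073741824 536870912 780900216 37827925 3 eng mog cd0q0 cd5q2 pd2 true false false .pp 0 2 2
    ndB0q0 ndB5q2 pcB2 cut_mm_022_s Ext.none :=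
  certNE0 (fam := true) (s1 := false) (s2 := false) (a := 0) (b := 2) (c := 2) (cn := .pp) (n1 := ndB0q0) (n2 := ndB5q2) (pc := pcB2) (cut := cut_mm_022_s) (xt := Ext.none) (P1 := 0) (W1 := 536870912) (P2 := 1073741824) (W2 := 536870912) (P3 := 780900216) (W3 := 37827925) (N0 := 3) (En := eng) (mo := mog) (C1 := cd0q0) (C2 := cd5q2) (C3 := pd2)
    rfl k0_mm_022_s

noncomputable def cut_mm_023_s : Cut := Cut.of [[⟨4, 0, 0, 1449551462⟩]]

noncomputable def f_mm_023_s : ℕ → ℕ → ℕ → ℕ → Bool := onCell 0 536870912 1073741824 536870912 780900216 37827925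
    (rowNE 3 eng mog cd0q0 cd5q2 pd3 0 true false false .up 0 2 3 (qsf 0 536870912 1073741824 536870912 3) ndB0q0 ndB5q2 pcB3 cut_mm_023_s Ext.none)

def k0_mm_023_s : ∃ t, chk3 f_mm_023_s t 1 1 1 = true :=
  ⟨(l 4), by decide +kernel⟩

theorem c_mm_023_s : CertNE 0 536870912 1073741824 536870912 780900216 37827925 3 eng mog cd0q0 cd5q2 pd3 true false false .up 0 2 3
    ndB0q0 ndB5q2 pcB3 cut_mm_023_s Ext.none :=
  certNE0 (fam := true) (s1 := false) (s2 := false) (a := 0) (b := 2) (c := 3) (cn := .up) (n1 := ndB0q0) (n2 := ndB5q2) (pc := pcB3) (cut := cut_mm_023_s) (xt := Ext.none) (P1 := 0) (W1 := 536870912) (P2 := 1073741824) (W2 := 536870912) (P3 := 780900216) (W3 := 37827925) (N0 := 3) (En := eng) (mo := mog) (C1 := cd0q0) (C2 := cd5q2) (C3 := pd3)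
    rfl k0_mm_023_s

noncomputable def cut_mm_033_s : Cut := Cut.of [[⟨4, 0, 0, 1449551462⟩]]

noncomputable def f_mm_033_s : ℕ → ℕ → ℕ → ℕ → Bool := onCell 0 536870912 0 1230186008 780900216 37827925
    (rowNE 3 eng mog cd0q0 cd5q3 pd3 0 true false false .pnn 0 3 3 (qsf 0 536870912 0 1230186008 3) ndB0q0 ndB5q3 pcB3 cut_mm_033_s Ext.none)

def k0_mm_033_s : ∃ t, chk3 f_mm_033_s t 1 1 1 = true :=
  ⟨(l 4), by decide +kernel⟩

theorem c_mm_033_s : CertNE 0 536870912 0 1230186008 780900216 37827925 3 eng mog cd0q0 cd5q3 pd3 true false false .pnn 0 3 3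
    ndB0q0 ndB5q3 pcB3 cut_mm_033_s Ext.none :=
  certNE0 (fam := true) (s1 := false) (s2 := false) (a := 0) (b := 3) (c := 3) (cn := .pnn) (n1 := ndB0q0) (n2 := ndB5q3) (pc := pcB3) (cut := cut_mm_033_s) (xt := Ext.none) (P1 := 0) (W1 := 536870912) (P2 := 0) (W2 := 1230186008) (P3 := 780900216) (W3 := 37827925) (N0 := 3) (En := eng) (mo := mog) (C1 := cd0q0) (C2 := cd5q3) (C3 := pd3)
    rfl k0_mm_033_s

noncomputable def cut_mm_101_s : Cut := Cut.of [[⟨4, 0, 0, 1449551462⟩]]

noncomputable def f_mm_101_s : ℕ → ℕ → ℕ → ℕ → Bool := onCell 536870912 536870912 0 536870912 780900216 37827925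
    (rowNE 3 eng mog cd0q1 cd5q0 pd1 0 true false false .npn 1 0 1 (qsf 536870912 536870912 0 536870912 1) ndB0q1 ndB5q0 pcB1 cut_mm_101_s Ext.none)

def k0_mm_101_s : ∃ t, chk3 f_mm_101_s t 1 1 1 = true :=
  ⟨(l 4), by decide +kernel⟩

theorem c_mm_101_s : CertNE 536870912 536870912 0 536870912 780900216 37827925 3 eng mog cd0q1 cd5q0 pd1 true false false .npn 1 0 1
    ndB0q1 ndB5q0 pcB1 cut_mm_101_s Ext.none :=
  certNE0 (fam := true) (s1 := false) (s2 := false) (a := 1) (b := 0) (c := 1) (cn := .npn) (n1 := ndB0q1) (n2 := ndB5q0) (pc := pcB1) (cut := cut_mm_101_s) (xt := Ext.none) (P1 := 536870912) (W1 := 536870912) (P2 := 0) (W2 := 536870912) (P3 := 780900216) (W3 := 37827925) (N0 := 3) (En := eng) (mo := mog) (C1 := cd0q1) (C2 := cd5q0) (C3 := pd1)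
    rfl k0_mm_101_s

noncomputable def cut_mm_102_s : Cut := Cut.of [[⟨4, 0, 0, 1449551462⟩]]

noncomputable def f_mm_102_s : ℕ → ℕ → ℕ → ℕ → Bool := onCell 536870912 536870912 0 536870912 780900216 37827925
    (rowNE 3 eng mog cd0q1 cd5q0 pd2 0 true false false .npp 1 0 2 (qsf 536870912 536870912 0 536870912 2) ndB0q1 ndB5q0 pcB2 cut_mm_102_s Ext.none)

def k0_mm_102_s : ∃ t, chk3 f_mm_102_s t 1 1 1 = true :=
  ⟨(l 4), by decide +kernel⟩

theorem c_mm_102_s : CertNE 536870912 536870912 0 536870912 780900216 37827925 3 eng mog cd0q1 cd5q0 pd2 true false false .npp 1 0 2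
    ndB0q1 ndB5q0 pcB2 cut_mm_102_s Ext.none :=
  certNE0 (fam := true) (s1 := false) (s2 := false) (a := 1) (b := 0) (c := 2) (cn := .npp) (n1 := ndB0q1) (n2 := ndB5q0) (pc := pcB2) (cut := cut_mm_102_s) (xt := Ext.none) (P1 := 536870912) (W1 := 536870912) (P2 := 0) (W2 := 536870912) (P3 := 780900216) (W3 := 37827925) (N0 := 3) (En := eng) (mo := mog) (C1 := cd0q1) (C2 := cd5q0) (C3 := pd2)
    rfl k0_mm_102_s

noncomputable def cut_mm_112_s : Cut := Cut.of [[⟨4, 0, 0, 1449551462⟩]]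

noncomputable def f_mm_112_s : ℕ → ℕ → ℕ → ℕ → Bool := onCell 536870912 536870912 536870912 536870912 780900216 37827925
    (rowNE 3 eng mog cd0q1 cd5q1 pd2 0 true false false .dn 1 1 2 (qsf 536870912 536870912 536870912 536870912 2) ndB0q1 ndB5q1 pcB2 cut_mm_112_s Ext.none)

def k0_mm_112_s : ∃ t, chk3 f_mm_112_s t 1 1 1 = true :=
  ⟨(l 4), by decide +kernel⟩

theorem c_mm_112_s : CertNE 536870912 536870912 536870912 536870912 780900216 37827925 3 eng mog cd0q1 cd5q1 pd2 true false false .dn 1 1 2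
    ndB0q1 ndB5q1 pcB2 cut_mm_112_s Ext.none :=
  certNE0 (fam := true) (s1 := false) (s2 := false) (a := 1) (b := 1) (c := 2) (cn := .dn) (n1 := ndB0q1) (n2 := ndB5q1) (pc := pcB2) (cut := cut_mm_112_s) (xt := Ext.none) (P1 := 536870912) (W1 := 536870912) (P2 := 536870912) (W2 := 536870912) (P3 := 780900216) (W3 := 37827925) (N0 := 3) (En := eng) (mo := mog) (C1 := cd0q1) (C2 := cd5q1) (C3 := pd2)
    rfl k0_mm_112_s

noncomputable def cut_mm_113_s : Cut := Cut.of [[⟨4, 0, 0, 1449551462⟩]]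

noncomputable def f_mm_113_s : ℕ → ℕ → ℕ → ℕ → Bool := onCell 536870912 536870912 536870912 536870912 780900216 37827925
    (rowNE 3 eng mog cd0q1 cd5q1 pd3 0 true false false .nn 1 1 3 (qsf 536870912 536870912 536870912 536870912 3) ndB0q1 ndB5q1 pcB3 cut_mm_113_s Ext.none)

def k0_mm_113_s : ∃ t, chk3 f_mm_113_s t 1 1 1 = true :=
  ⟨(l 4), by decide +kernel⟩

theorem c_mm_113_s : CertNE 536870912 536870912 536870912 536870912 780900216 37827925 3 eng mog cd0q1 cd5q1 pd3 true false false .nn 1 1 3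
    ndB0q1 ndB5q1 pcB3 cut_mm_113_s Ext.none :=
  certNE0 (fam := true) (s1 := false) (s2 := false) (a := 1) (b := 1) (c := 3) (cn := .nn) (n1 := ndB0q1) (n2 := ndB5q1) (pc := pcB3) (cut := cut_mm_113_s) (xt := Ext.none) (P1 := 536870912) (W1 := 536870912) (P2 := 536870912) (W2 := 536870912) (P3 := 780900216) (W3 := 37827925) (N0 := 3) (En := eng) (mo := mog) (C1 := cd0q1) (C2 := cd5q1) (C3 := pd3)
    rfl k0_mm_113_s

noncomputable def cut_mm_123_s : Cut := Cut.of [[⟨4, 0, 0, 1449551462⟩]]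

noncomputable def f_mm_123_s : ℕ → ℕ → ℕ → ℕ → Bool := onCell 536870912 536870912 1073741824 536870912 780900216 37827925
    (rowNE 3 eng mog cd0q1 cd5q2 pd3 0 true false false .npn 1 2 3 (qsf 536870912 536870912 1073741824 536870912 3) ndB0q1 ndB5q2 pcB3 cut_mm_123_s Ext.none)

def k0_mm_123_s : ∃ t, chk3 f_mm_123_s t 1 1 1 = true :=
  ⟨(l 4), by decide +kernel⟩

theorem c_mm_123_s : CertNE 536870912 536870912 1073741824 536870912 780900216 37827925 3 eng mog cd0q1 cd5q2 pd3 true false false .npn 1 2 3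
    ndB0q1 ndB5q2 pcB3 cut_mm_123_s Ext.none :=
  certNE0 (fam := true) (s1 := false) (s2 := false) (a := 1) (b := 2) (c := 3) (cn := .npn) (n1 := ndB0q1) (n2 := ndB5q2) (pc := pcB3) (cut := cut_mm_123_s) (xt := Ext.none) (P1 := 536870912) (W1 := 536870912) (P2 := 1073741824) (W2 := 536870912) (P3 := 780900216) (W3 := 37827925) (N0 := 3) (En := eng) (mo := mog) (C1 := cd0q1) (C2 := cd5q2) (C3 := pd3)
    rfl k0_mm_123_s

noncomputable def cut_mm_133_s : Cut := Cut.of [[⟨4, 0, 0, 1449551462⟩]]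

noncomputable def f_mm_133_s : ℕ → ℕ → ℕ → ℕ → Bool := onCell 536870912 536870912 0 1230186008 780900216 37827925
    (rowNE 3 eng mog cd0q1 cd5q3 pd3 0 true false false .dn 1 3 3 (qsf 536870912 536870912 0 1230186008 3) ndB0q1 ndB5q3 pcB3 cut_mm_133_s Ext.none)

def k0_mm_133_s : ∃ t, chk3 f_mm_133_s t 1 1 1 = true :=
  ⟨(l 4), by decide +kernel⟩

theorem c_mm_133_s : CertNE 536870912 536870912 0 1230186008 780900216 37827925 3 eng mog cd0q1 cd5q3 pd3 true false false .dn 1 3 3
    ndB0q1 ndB5q3 pcB3 cut_mm_133_s Ext.none :=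
  certNE0 (fam := true) (s1 := false) (s2 := false) (a := 1) (b := 3) (c := 3) (cn := .dn) (n1 := ndB0q1) (n2 := ndB5q3) (pc := pcB3) (cut := cut_mm_133_s) (xt := Ext.none) (P1 := 536870912) (W1 := 536870912) (P2 := 0) (W2 := 1230186008) (P3 := 780900216) (W3 := 37827925) (N0 := 3) (En := eng) (mo := mog) (C1 := cd0q1) (C2 := cd5q3) (C3 := pd3)
    rfl k0_mm_133_s

noncomputable def cut_mm_202_s : Cut := Cut.of [[⟨4, 0, 0, 1449551462⟩]]

noncomputable def f_mm_202_s : ℕ → ℕ → ℕ → ℕ → Bool := onCell 0 536870912 0 536870912 780900216 37827925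
    (rowNE 3 eng mog cd0q2 cd5q0 pd2 0 true false false .pp 2 0 2 (qsf 0 536870912 0 536870912 2) ndB0q2 ndB5q0 pcB2 cut_mm_202_s Ext.none)

def k0_mm_202_s : ∃ t, chk3 f_mm_202_s t 1 1 1 = true :=
  ⟨(l 4), by decide +kernel⟩

theorem c_mm_202_s : CertNE 0 536870912 0 536870912 780900216 37827925 3 eng mog cd0q2 cd5q0 pd2 true false false .pp 2 0 2
    ndB0q2 ndB5q0 pcB2 cut_mm_202_s Ext.none :=
  certNE0 (fam := true) (s1 := false) (s2 := false) (a := 2) (b := 0) (c := 2) (cn := .pp) (n1 := ndB0q2) (n2 := ndB5q0) (pc := pcB2) (cut := cut_mm_202_s) (xt := Ext.none) (P1 := 0) (W1 := 536870912) (P2 := 0) (W2 := 536870912) (P3 := 780900216) (W3 := 37827925) (N0 := 3) (En := eng) (mo := mog) (C1 := cd0q2) (C2 := cd5q0) (C3 := pd2)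
    rfl k0_mm_202_s

noncomputable def cut_mm_203_s : Cut := Cut.of [[⟨4, 0, 0, 1449551462⟩]]

noncomputable def f_mm_203_s : ℕ → ℕ → ℕ → ℕ → Bool := onCell 0 536870912 0 536870912 780900216 37827925
    (rowNE 3 eng mog cd0q2 cd5q0 pd3 0 true false false .up 2 0 3 (qsf 0 536870912 0 536870912 3) ndB0q2 ndB5q0 pcB3 cut_mm_203_s Ext.none)

def k0_mm_203_s : ∃ t, chk3 f_mm_203_s t 1 1 1 = true :=
  ⟨(l 4), by decide +kernel⟩

theorem c_mm_203_s : CertNE 0 536870912 0 536870912 780900216 37827925 3 eng mog cd0q2 cd5q0 pd3 true false false .up 2 0 3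
    ndB0q2 ndB5q0 pcB3 cut_mm_203_s Ext.none :=
  certNE0 (fam := true) (s1 := false) (s2 := false) (a := 2) (b := 0) (c := 3) (cn := .up) (n1 := ndB0q2) (n2 := ndB5q0) (pc := pcB3) (cut := cut_mm_203_s) (xt := Ext.none) (P1 := 0) (W1 := 536870912) (P2 := 0) (W2 := 536870912) (P3 := 780900216) (W3 := 37827925) (N0 := 3) (En := eng) (mo := mog) (C1 := cd0q2) (C2 := cd5q0) (C3 := pd3)
    rfl k0_mm_203_s

noncomputable def cut_mm_213_s : Cut := Cut.of [[⟨4, 0, 0, 1449551462⟩]]

noncomputable def f_mm_213_s : ℕ → ℕ → ℕ → ℕ → Bool := onCell 0 536870912 536870912 536870912 780900216 37827925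
    (rowNE 3 eng mog cd0q2 cd5q1 pd3 0 true false false .pnn 2 1 3 (qsf 0 536870912 536870912 536870912 3) ndB0q2 ndB5q1 pcB3 cut_mm_213_s Ext.none)

def k0_mm_213_s : ∃ t, chk3 f_mm_213_s t 1 1 1 = true :=
  ⟨(l 4), by decide +kernel⟩

theorem c_mm_213_s : CertNE 0 536870912 536870912 536870912 780900216 37827925 3 eng mog cd0q2 cd5q1 pd3 true false false .pnn 2 1 3
    ndB0q2 ndB5q1 pcB3 cut_mm_213_s Ext.none :=
  certNE0 (fam := true) (s1 := false) (s2 := false) (a := 2) (b := 1) (c := 3) (cn := .pnn) (n1 := ndB0q2) (n2 := ndB5q1) (pc := pcB3) (cut := cut_mm_213_s) (xt := Ext.none) (P1 := 0) (W1 := 536870912) (P2 := 536870912) (W2 := 536870912) (P3 := 780900216) (W3 := 37827925) (N0 := 3) (En := eng) (mo := mog) (C1 := cd0q2) (C2 := cd5q1) (C3 := pd3)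
    rfl k0_mm_213_s

end Pool.Agent.Strip051.G.I72727_7625.Tab.CS.BA05

namespace Pool.Agent.Strip051.G.I72727_7625.Tab.CS.BB00

open Pool.Agent.Strip051.PB Pool.Agent.Strip051.PB.T
open Pool.Agent.Strip051.G.I72727_7625.Tab

noncomputable def cut_pp_001_s : Cut := Cut.of [[⟨4, 0, 0, 1449551462⟩]]

noncomputable def f_pp_001_s : ℕ → ℕ → ℕ → ℕ → Bool := onCell 0 536870912 0 536870912 780900216 37827925
    (rowNE 3 eng mog cd0q0 cd0q1 pd0 1 false true true .up 0 0 1 (qsf 0 536870912 536870912 536870912 0) ndB0q0 ndB0q1 pcB0 cut_pp_001_s Ext.none)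

def k0_pp_001_s : ∃ t, chk3 f_pp_001_s t 1 1 1 = true :=
  ⟨(l 3), by decide +kernel⟩

theorem c_pp_001_s : CertNE 0 536870912 536870912 536870912 780900216 37827925 3 eng mog cd0q0 cd0q1 pd0 false true true .up 0 0 1
    ndB0q0 ndB0q1 pcB0 cut_pp_001_s Ext.none :=
  certNE1 (fam := false) (s1 := true) (s2 := true) (a := 0) (b := 0) (c := 1) (cn := .up) (n1 := ndB0q0) (n2 := ndB0q1) (pc := pcB0) (cut := cut_pp_001_s) (xt := Ext.none) (P1 := 0) (W1 := 536870912) (P2 := 536870912) (W2 := 536870912) (P3 := 780900216) (W3 := 37827925) (N0 := 3) (En := eng) (mo := mog) (C1 := cd0q0) (C2 := cd0q1) (C3 := pd0)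
    rfl (fun _ => rfl) k0_pp_001_s

noncomputable def cut_pp_001_t : Cut := Cut.of [[⟨3, 0, 0, 2845415833⟩]]

noncomputable def f_pp_001_t : ℕ → ℕ → ℕ → ℕ → Bool := onCell 0 536870912 536870912 536870912 780900216 37827925
    (rowNE 3 eng mog cd0q0 cd0q1 pd0 0 false true true .up 0 0 1 (qsf 0 536870912 536870912 536870912 0) ndB0q0 ndB0q1 pcB0 cut_pp_001_t Ext.none)

def k0_pp_001_t : ∃ t, chk3 f_pp_001_t t 1 1 1 = true :=
  ⟨(l 6), by decide +kernel⟩

theorem c_pp_001_t : CertNE 0 536870912 536870912 536870912 780900216 37827925 3 eng mog cd0q0 cd0q1 pd0 false true true .up 0 0 1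
    ndB0q0 ndB0q1 pcB0 cut_pp_001_t Ext.none :=
  certNE0 (fam := false) (s1 := true) (s2 := true) (a := 0) (b := 0) (c := 1) (cn := .up) (n1 := ndB0q0) (n2 := ndB0q1) (pc := pcB0) (cut := cut_pp_001_t) (xt := Ext.none) (P1 := 0) (W1 := 536870912) (P2 := 536870912) (W2 := 536870912) (P3 := 780900216) (W3 := 37827925) (N0 := 3) (En := eng) (mo := mog) (C1 := cd0q0) (C2 := cd0q1) (C3 := pd0)
    rfl k0_pp_001_t

noncomputable def cut_pp_011_s : Cut := Cut.of [[⟨4, 0, 0, 1449551462⟩], [⟨0, 0, 0, 67108864⟩, ⟨1, 1, 0, 67108864⟩, ⟨2, 1, 0, 67108864⟩]]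

noncomputable def f_pp_011_s : ℕ → ℕ → ℕ → ℕ → Bool := onCell 536870912 536870912 536870912 536870912 780900216 37827925
    (rowNE 3 eng mog cd0q0 cd0q1 pd1 2 false true true .pnn 0 1 1 (qsf 0 536870912 536870912 536870912 1) ndB0q0 ndB0q1 pcB1 cut_pp_011_s Ext.none)

def k0_pp_011_s : ∃ t, chk3 f_pp_011_s t 1 1 1 = true :=
  ⟨(a (l 3) (b (l 3) (a (l 3) (b (l 3) (a (l 3) (b (l 3) (b (l 3) (a (l 3) (l 14))))))))), by decide +kernel⟩

theorem c_pp_011_s : CertNE 0 536870912 536870912 536870912 780900216 37827925 3 eng mog cd0q0 cd0q1 pd1 false true true .pnn 0 1 1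
    ndB0q0 ndB0q1 pcB1 cut_pp_011_s Ext.none :=
  certNE2 (fam := false) (s1 := true) (s2 := true) (a := 0) (b := 1) (c := 1) (cn := .pnn) (n1 := ndB0q0) (n2 := ndB0q1) (pc := pcB1) (cut := cut_pp_011_s) (xt := Ext.none) (P1 := 0) (W1 := 536870912) (P2 := 536870912) (W2 := 536870912) (P3 := 780900216) (W3 := 37827925) (N0 := 3) (En := eng) (mo := mog) (C1 := cd0q0) (C2 := cd0q1) (C3 := pd1)
    rfl (fun _ => rfl) k0_pp_011_s

noncomputable def cut_pp_011_t : Cut := Cut.of [[⟨3, 0, 0, 2845415833⟩], [⟨0, 0, 0, 67108864⟩, ⟨1, 1, 0, 67108864⟩, ⟨2, 1, 0, 67108864⟩]]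

noncomputable def f_pp_011_t : ℕ → ℕ → ℕ → ℕ → Bool := onCell 0 536870912 536870912 536870912 780900216 37827925
    (rowNE 3 eng mog cd0q0 cd0q1 pd1 0 false true true .pnn 0 1 1 (qsf 0 536870912 536870912 536870912 1) ndB0q0 ndB0q1 pcB1 cut_pp_011_t Ext.none)

def k0_pp_011_t : ∃ t, chk3 f_pp_011_t t 1 1 1 = true :=
  ⟨(l 6), by decide +kernel⟩

theorem c_pp_011_t : CertNE 0 536870912 536870912 536870912 780900216 37827925 3 eng mog cd0q0 cd0q1 pd1 false true true .pnn 0 1 1
    ndB0q0 ndB0q1 pcB1 cut_pp_011_t Ext.none :=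
  certNE0 (fam := false) (s1 := true) (s2 := true) (a := 0) (b := 1) (c := 1) (cn := .pnn) (n1 := ndB0q0) (n2 := ndB0q1) (pc := pcB1) (cut := cut_pp_011_t) (xt := Ext.none) (P1 := 0) (W1 := 536870912) (P2 := 536870912) (W2 := 536870912) (P3 := 780900216) (W3 := 37827925) (N0 := 3) (En := eng) (mo := mog) (C1 := cd0q0) (C2 := cd0q1) (C3 := pd1)
    rfl k0_pp_011_t

noncomputable def cut_pp_012_s : Cut := Cut.of [[⟨4, 0, 0, 1449551462⟩], [⟨0, 0, 0, 67108864⟩, ⟨1, 1, 0, 67108864⟩, ⟨2, 1, 0, 67108864⟩]]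

noncomputable def f_pp_012_s : ℕ → ℕ → ℕ → ℕ → Bool := onCell 536870912 536870912 0 536870912 780900216 37827925
    (rowNE 3 eng mog cd0q0 cd0q2 pd1 2 false true true .pnp 0 1 2 (qsf 0 536870912 0 536870912 1) ndB0q0 ndB0q2 pcB1 cut_pp_012_s Ext.none)

def k0_pp_012_s : ∃ t, chk3 f_pp_012_s t 2 4 1 = true :=
  ⟨(a (l 2) (a (a (a (l 2) (b (b (l 16743336) (b (l 104790363079) (l 16759688))) (b (a (l 2) (b (c (l 16770688) (l 16770472)) (l 167671485847))) (l 3)))) (a (b (b (l 16706560) (l 16757008)) (b (b (l 16763920) (a (b (l 16784392) (l 125795583975)) (a (l 16782264) (l 16767920)))) (b (a (l 3) (l 166597744567)) (l 3)))) (b (b (l 16690864) (l 16740848)) (b (c (c (l 16761000) (l 16750096)) (l 16749488)) (a (b (b (l 15200167863) (l 115058162055)) (l 3)) (b (c (l 16768896) (l 16768656)) (c (l 159081553399) (l 169282099415)))))))) (b (a (a (b (l 16675464) (l 16724824)) (b (l 16701688) (l 16709232))) (b (a (c (l 16648424) (l 16643304)) (c (l 16635592) (l 16629712)))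 (a (l 16694056) (c (l 16660040) (l 16655280))))) (a (b (a (a (a (l 16760512) (l 16756384)) (l 16750208)) (c (l 16739016) (l 16737080))) (a (c (b (l 16756488) (a (b (l 16772200) (l 101099523895)) (l 16767760))) (b (l 16755904) (a (l 79087798295) (l 16767496)))) (c (a (l 16751760) (b (l 16736008) (l 16751104))) (l 16746744)))) (c (a (b (l 16702528) (a (l 16756408) (l 16748360))) (b (l 16687264) (l 16736424))) (a (c (l 16747032) (l 16735488)) (b (l 16683848) (l 16734232)))))))), by decide +kernel⟩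

def k1_pp_012_s : ∃ t, chk3 f_pp_012_s t 2 5 1 = true :=
  ⟨(a (l 3) (a (l 3) (b (a (b (a (a (l 3) (b (a (l 192367547847) (c (l 144049171719) (l 112373816647))) (l 3))) (a (b (a (b (l 16778344) (l 170892717287)) (c (b (l 16768984) (l 16781464)) (l 16772424))) (l 3)) (b (c (l 16766536) (l 16766224)) (b (c (a (l 153175978487) (l 16780944)) (l 16776232)) (l 3))))) (l 3)) (b (c (a (b (l 16759208) (a (b (l 16769744) (a (l 94657067335) (l 16780344))) (l 16765152))) (b (c (l 16758784) (l 16758112)) (l 16768264))) (a (b (l 16753232) (a (l 24863851767) (l 16764760))) (l 16754384))) (a (b (a (c (l 202568092919) (l 199883735351)) (a (c (a (l 190756938839) (l 164987129527)) (l 111836947015)) (c (b (l 16779672) (l 196662520599)) (l 80698429223)))) (l 3)) (a (b (c (b (l 16768208) (a (a (l 139754207287) (l 70497870247)) (l 16773688))) (l 17347656247)) (c (b (l 185925101255) (l 3)) (l 199346867271))) (b (c (l 16763560) (l 16763064)) (c (b (a (a (l 88214612279) (l 26474453959))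 (l 16772872)) (l 175724555127)) (b (l 16774504) (l 113984428087)))))))) (l 3)))), by decide +kernel⟩

def k2_pp_012_s : ∃ t, chk3 f_pp_012_s t 2 3 1 = true :=
  ⟨(l 3), by decide +kernel⟩

def k3_pp_012_s : ∃ t, chk3 f_pp_012_s t 12 4 1 = true :=
  ⟨(b (b (a (c (l 16614192) (l 16606840)) (l 16624296)) (a (a (c (l 16666512) (l 16639840)) (b (l 16622168) (l 16655984))) (a (l 16614224) (l 16599544)))) (b (a (a (a (l 16673984) (l 16666320)) (l 16675888)) (a (c (l 16663344) (l 16636040)) (b (l 16618832) (l 16631352)))) (a (c (a (l 16720736) (l 16684328)) (a (l 16696760) (l 16680432))) (a (c (l 16669152) (l 16664288)) (c (l 16654128) (l 16648224)))))), by decide +kernel⟩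

def k4_pp_012_s : ∃ t, chk3 f_pp_012_s t 12 10 1 = true :=
  ⟨(c (a (b (a (a (l 16753688) (l 16745552)) (c (l 16734080) (l 16732800))) (a (b (l 16761368) (a (a (a (b (l 16769696) (l 75329708823)) (l 16780488)) (l 16768176)) (l 16761768))) (c (c (c (l 16763888) (l 16763064)) (l 16762800)) (l 16762272)))) (a (b (l 16717536) (a (l 16750152) (l 16741864))) (b (l 16701656) (a (l 16733496) (l 16704192))))) (a (b (a (a (l 16752016) (l 16722520)) (l 16730760)) (a (b (l 16749872) (a (l 16769840) (l 16761160))) (l 16761144))) (a (b (l 16692976) (a (l 16727080) (l 16718352))) (b (l 16676104) (l 16726056))))), by decide +kernel⟩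

def k5_pp_012_s : ∃ t, chk3 f_pp_012_s t 12 11 1 = true :=
  ⟨(a (b (a (b (c (a (b (a (l 3) (l 146733528983)) (l 3)) (b (a (a (l 60834192519) (l 16774200)) (l 16771024)) (a (l 208473681287) (c (l 130090526439) (l 86604001527))))) (a (l 192904419447) (b (l 16772816) (l 95730815271)))) (l 3)) (b (c (a (a (b (l 16766720) (l 11442067431)) (l 16766224)) (l 16759768)) (a (l 16767936) (l 16738064))) (c (a (a (l 204715583447) (b (b (l 16775592) (l 161765915063)) (l 3))) (a (b (l 16773232) (l 166597752567)) (b (l 16758456) (b (l 16774600) (l 88751481527))))) (a (l 155323458855) (b (l 16770808) (l 75329716791)))))) (l 3)) (b (a (a (c (a (b (l 16753352) (l 16773640)) (b (l 16749088) (l 16764064))) (l 16768448)) (c (a (l 16768024) (b (l 16740520) (l 16776320))) (l 16748912))) (a (b (l 16754032) (a (l 16760840) (l 16766832))) (b (l 16724216) (l 16754880)))) (a (b (b (c (a (a (a (l 189683202215) (l 129553661127)) (b (l 16773512) (l 67276641927))) (l 16774048)) (a (l 63518554871)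 (l 16768424))) (a (c (l 210621166103) (l 212231775367)) (c (a (b (l 63518543703) (l 190220073847)) (c (l 16779376) (l 16774064))) (l 54928619671)))) (a (l 3) (a (l 3) (c (l 194515040231) (l 206326196199))))) (b (a (c (l 16770312) (l 16763152)) (b (l 16761016) (a (l 16770984) (l 16755960)))) (b (c (a (a (b (l 16775392) (l 153712852567)) (l 16772904)) (l 16766216)) (a (l 16783528) (l 16765728))) (a (c (a (l 3) (l 156934078151)) (l 178945782311)) (c (a (b (l 16774176) (l 76403450327)) (l 16771608)) (l 16783960)))))))), by decide +kernel⟩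

def k6_pp_012_s : ∃ t, chk3 f_pp_012_s t 13 2 1 = true :=
  ⟨(b (a (b (a (b (l 16561392) (l 16585184)) (l 16601840)) (b (a (l 16631752) (l 16596408)) (a (b (l 16629640) (l 16642776)) (b (l 16616216) (l 16628648))))) (b (a (l 16568288) (l 6)) (b (l 16640128) (a (l 16630696) (l 16597112))))) (b (a (c (a (b (l 16665232) (l 16712952)) (b (l 16651112) (l 16697736))) (a (b (l 16659648) (l 16708736)) (b (l 16644640) (l 16671688)))) (b (a (b (l 16628712) (l 16641312)) (b (l 16617416) (l 16629968))) (a (l 16681360) (l 16669416)))) (a (a (a (b (a (l 16740864) (l 16741768)) (b (a (l 16768600) (l 16764136)) (c (l 16771584) (l 16760384)))) (b (a (l 16737480) (l 16733256)) (c (c (l 16760976) (l 16765512)) (l 16764384)))) (a (b (l 16727040) (b (l 16748848) (a (l 16766008) (l 16761632)))) (b (l 16719072) (b (l 16719536) (c (l 16735176) (l 16733264)))))) (b (a (c (l 16710096) (l 16705784)) (b (l 16667168) (l 16680232))) (b (a (a (l 16711632) (l 16704144)) (l 16714576)) (a (a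 (l 16747048) (l 16718280)) (a (l 16710816) (l 16703704)))))))), by decide +kernel⟩

def k7_pp_012_s : ∃ t, chk3 f_pp_012_s t 12 6 1 = true :=
  ⟨(b (a (l 3) (b (a (l 3) (b (a (l 3) (b (c (a (l 3) (b (l 62444805639) (l 197736268423))) (l 156397205527)) (l 3))) (l 3))) (l 3))) (l 3)), by decide +kernel⟩

def k8_pp_012_s : ∃ t, chk3 f_pp_012_s t 13 12 1 = true :=
  ⟨(a (b (a (b (b (a (c (a (l 25400712295) (l 16770240)) (l 16772168)) (l 16771072)) (a (a (c (l 182167012919) (l 197736266247)) (c (a (l 81772162343) (l 47949291415)) (l 16782184))) (c (a (l 16773312) (l 16768840)) (l 16770784)))) (a (l 3) (b (c (a (l 150491629783) (b (l 16774512) (l 70497871031))) (b (l 35601264455) (l 91435844919))) (l 3)))) (a (c (b (l 16768888) (b (l 16769640) (a (l 121500600359) (l 16780080)))) (b (l 16757576) (b (l 16769320) (a (l 78550939543) (l 16774720))))) (b (b (l 16766368) (c (l 16753392) (l 16752360))) (c (l 16769752) (l 16763968))))) (a (l 3) (b (c (a (b (l 168208376407) (l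 3)) (b (a (b (l 16775976) (l 96267676711)) (l 16773408)) (a (l 3) (l 140291085911)))) (a (l 193978176599) (b (a (l 54928617095) (l 16773240)) (l 168208372439)))) (l 3)))) (a (b (b (a (b (l 16736984) (l 16765304)) (b (l 16728928) (l 16736088))) (b (a (a (l 16753872) (l 16749576)) (l 16764248)) (c (l 16764376) (l 16764752)))) (a (a (b (b (l 16768816) (a (b (l 16775592) (l 111300059559)) (l 7683971319))) (l 3)) (b (c (l 16768272) (l 16767896)) (b (c (b (l 16777104) (l 172503340727)) (l 76940325911)) (l 3)))) (b (c (l 16767000) (l 16761104)) (a (b (c (l 16779960) (l 16774592)) (l 170892729335)) (b (l 16770224) (b (l 16775696) (l 98952030823))))))) (b (a (b (b (l 16721192) (l 16728168)) (b (l 16735168) (l 16731712))) (b (l 16717224) (b (l 16727400) (l 16734232)))) (b (b (a (a (l 16751360) (l 16747192)) (l 16730616)) (c (l 16763136) (a (l 16745464) (l 16747400)))) (a (b (l 16763584) (a (l 16778312) (l 16768624))) (c (l 16758944) (l 16758176))))))), by decide +kernel⟩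

def k9_pp_012_s : ∃ t, chk3 f_pp_012_s t 13 13 1 = true :=
  ⟨(a (l 3) (b (a (l 3) (b (a (b (a (b (l 87140869287) (l 3)) (c (l 11442069767) (l 14126424247))) (l 3)) (b (a (l 16771424) (l 16767016)) (a (b (l 16781984) (l 126332448215)) (l 16779696)))) (a (l 3) (b (a (l 3) (l 165524017495)) (l 3))))) (l 3))), by decide +kernel⟩

def k10_pp_012_s : ∃ t, chk3 f_pp_012_s t 6 7 1 = true :=
  ⟨(l 3), by decide +kernel⟩

def k11_pp_012_s : ∃ t, chk3 f_pp_012_s t 7 2 1 = true :=
  ⟨(a (b (b (l 6) (a (b (l 16596408) (a (l 16585528) (l 16574480))) (b (l 6) (l 16600432)))) (b (a (b (a (l 16633408) (l 16600840)) (a (b (l 16631952) (l 16643944)) (b (l 16621600) (l 16634456)))) (b (a (l 16589808) (l 16579168)) (a (l 16617264) (l 16606432)))) (a (b (a (c (l 16633224) (l 16659288)) (c (l 16633776) (l 16648968))) (a (l 16708304) (l 16675536))) (b (a (l 16643024) (l 16634480)) (a (l 16665688) (l 16658392)))))) (b (l 6) (a (b (b (l 16564512) (l 16591632)) (b (a (l 16625288) (l 16616000))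 (a (b (l 16643752) (l 16651192)) (b (l 16628536) (l 16634272))))) (b (a (l 16565592) (l 6)) (b (l 16651864) (a (l 16616072) (l 16601976))))))), by decide +kernel⟩

def k12_pp_012_s : ∃ t, chk3 f_pp_012_s t 28 6 1 = true :=
  ⟨(b (a (b (a (b (l 16710096) (b (l 16719976) (l 16726608))) (b (l 16703272) (l 16695096))) (a (a (b (l 16722888) (c (l 16742304) (l 16741280))) (b (l 16713744) (c (l 16727792) (l 16737088)))) (b (c (l 16708936) (l 16706944)) (b (l 16728280) (b (l 16743736) (l 16726104)))))) (b (b (l 16693624) (l 16716240)) (b (b (l 16714896) (l 16731584)) (a (b (l 16710080) (l 16716528)) (a (l 16707760) (l 16704200)))))) (b (a (b (a (a (b (l 16752216) (l 16769736)) (b (l 16747952) (l 16754888))) (b (a (l 16733248) (l 16750080)) (l 16758936))) (a (b (a (b (l 16775040) (a (l 144586055735) (l 16777416))) (l 16772392)) (a (l 3) (b (l 74255960759) (l 3)))) (b (a (l 16768008) (l 16753216)) (a (c (l 16780608) (b (l 16773176) (l 16781944))) (l 16770624))))) (a (b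 (c (l 16747960) (a (l 16735696) (l 16734248))) (b (l 16757392) (a (l 16766304) (l 16762080)))) (b (b (l 16725896) (a (l 16744744) (l 16740928))) (b (l 16749336) (l 16758544))))) (a (b (a (l 3) (b (a (l 196125656455) (b (l 16778440) (l 156934081399))) (l 3))) (l 3)) (b (a (b (a (b (l 16771448) (l 16774896)) (l 16768856)) (b (a (a (l 139217346039) (l 16777232)) (l 16773960)) (a (l 3) (c (l 72108475911) (l 72645346711))))) (b (a (l 16764632) (l 16760504)) (a (l 16771344) (l 16767112)))) (a (b (a (l 3) (l 213305528855)) (l 3)) (b (a (b (a (l 78014059703) (l 16775328)) (l 175187691687)) (b (l 16772096) (a (l 16776536) (l 16774360)))) (a (l 3) (b (a (l 218137366071) (l 86603989287)) (l 3))))))))), by decide +kernel⟩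

def k13_pp_012_s : ∃ t, chk3 f_pp_012_s t 29 6 1 = true :=
  ⟨(b (a (b (b (l 16682424) (l 16693696)) (b (l 16715592) (a (l 16720080) (l 16713800)))) (b (l 16679376) (c (l 16723024) (l 16720112)))) (a (b (a (b (l 16742840) (b (l 16741752) (l 16748120))) (b (l 16725624) (b (l 16734688) (l 16740832)))) (b (a (b (a (l 16756488) (l 16752600)) (a (l 16762992) (l 16758976))) (b (l 16747000) (a (l 16755080) (l 16751368)))) (a (b (a (l 16769536) (l 16765408)) (a (b (l 16774472) (a (l 173577078967) (c (l 16776744) (l 16776720)))) (c (l 16771984) (l 16771784)))) (b (a (l 16761384) (l 16757544)) (a (l 16767744) (l 16763768)))))) (b (a (b (l 16719760) (l 16736720)) (b (l 16714864) (l 16725656))) (b (a (b (l 16740344) (l 16746304)) (b (l 16733904) (l 16739528))) (a (b (a (l 16753984) (l 16750704)) (a (l 16760088) (l 16756616))) (b (l 16745320) (a (l 16753200) (l 16749072)))))))), by decide +kernel⟩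

def k14_pp_012_s : ∃ t, chk3 f_pp_012_s t 15 6 1 = true :=
  ⟨(a (b (a (b (l 16665208) (b (l 16680336) (l 16690672))) (b (a (l 16651144) (l 16652208)) (a (l 16671360) (l 16640936)))) (a (b (b (l 16722288) (a (l 16716672) (l 16707536))) (b (a (l 16738352) (l 16719104)) (a (c (l 16744656) (l 16745440)) (b (l 16728256) (l 16734544))))) (b (b (l 16682840) (l 16713864)) (b (a (l 16710464) (l 16681064)) (a (l 16723056) (l 16714904)))))) (b (a (b (b (a (l 16628360) (l 16620544)) (a (l 16636856) (l 16606976))) (b (l 16621752) (l 16611848))) (b (b (l 16589312) (a (l 16620280) (l 16613560))) (b (a (l 16608192) (b (l 16618912) (l 16623232))) (a (l 16640568) (l 16631696))))) (a (b (b (l 16633824) (a (l 16681384) (l 16673024))) (a (b (l 16672848) (l 16706944)) (b (l 16685704) (l 16678096)))) (b (b (a (l 16652424) (l 16643760)) (a (l 16664680) (l 16656232))) (b (a (l 16677584) (l 16648384)) (a (l 16670208) (c (l 16682432) (l 16683752)))))))), by decide +kernel⟩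

def k15_pp_012_s : ∃ t, chk3 f_pp_012_s t 14 7 1 = true :=
  ⟨(b (a (l 3) (b (a (b (a (b (a (l 3) (a (a (l 200420623511) (b (l 16779208) (l 3))) (b (l 16775728) (l 181093271863)))) (l 3)) (b (a (a (a (b (l 16774128) (l 79087800279)) (l 16776016)) (l 16773120)) (c (l 16770192) (l 16769928))) (a (b (a (l 3) (b (l 16777128) (l 200420624407))) (l 3)) (b (a (l 16775848) (l 16773776)) (a (l 188072593735) (a (l 85530248663) (l 16776424))))))) (l 3)) (b (a (b (a (l 16766184) (l 16762528)) (a (b (l 16770760) (l 16773824)) (c (l 16768544) (l 16768224)))) (b (a (l 16759000) (l 16755136)) (a (c (l 16764848) (l 16764400)) (l 16761008)))) (a (b (a (b (a (b (l 73719090599) (l 207936817111)) (l 16777896)) (a (l 3) (l 192904431847))) (b (l 16772864) (a (b (l 16776192) (l 109689441895)) (l 16774904)))) (a (l 3) (b (a (l 3) (b (l 80161538567) (l 211694913399))) (l 3)))) (b (a (c (l 16770544) (l 16770288)) (c (l 16766776) (l 16766392))) (a (b (a (c (l 16775984) (l 16775928)) (l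 16773904)) (a (b (l 180556399815) (l 3)) (a (a (l 109689439047) (l 75866571255)) (l 16777776)))) (b (l 16770928) (c (l 16773960) (l 16773832)))))))) (a (l 3) (b (a (l 3) (b (a (l 3) (b (a (b (c (l 16778432) (l 79087798839)) (l 209010558711)) (b (l 16775144) (l 16778656))) (a (l 3) (b (l 175724561479) (l 3))))) (l 3))) (l 3))))) (l 3)), by decide +kernel⟩

def k16_pp_012_s : ∃ t, chk3 f_pp_012_s t 30 28 1 = true :=
  ⟨(a (b (a (b (a (l 16751096) (l 16747048)) (a (l 16757360) (l 16753408))) (b (l 16740952) (a (l 16749432) (l 16745456)))) (a (b (a (l 16763536) (l 16759264)) (a (c (l 16768664) (l 16768352)) (c (l 16764936) (l 16764488)))) (b (a (l 16755696) (l 16751792)) (a (l 16761016) (l 16757384))))) (b (a (b (l 16732856) (l 16739496)) (l 16738800)) (a (b (l 16745944) (a (l 16753808) (l 16750152))) (b (l 16738248) (l 16744488))))), by decide +kernel⟩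

def k17_pp_012_s : ∃ t, chk3 f_pp_012_s t 30 29 1 = true :=
  ⟨(a (b (a (b (b (a (l 16772880) (l 16768960)) (a (a (b (l 16776136) (a (l 168745241095) (l 16777088))) (l 16774848)) (l 16771856))) (a (b (a (l 3) (b (c (l 67276638775) (l 71571603303)) (l 203104978487))) (l 3)) (b (a (c (l 16777176) (l 16777448)) (l 16773800)) (b (a (c (l 166597755815) (l 171966464887)) (l 16776024)) (a (l 3) (a (l 158007822663) (l 16776992))))))) (b (a (c (l 16766736) (l 16766344)) (l 16764232)) (a (b (l 16770816) (c (l 16773792) (l 16773664))) (a (l 16770640) (l 16767376))))) (a (l 3) (b (a (b (a (b (a (l 99488893111) (l 16776464)) (l 193441301847)) (b (l 16774936) (c (l 16776456) (l 16776424)))) (a (l 3) (a (l 236927846503) (b (l 89825215351) (l 3))))) (b (c (l 16772736) (l 16772568)) (a (b (l 16775864) (a (l 140827953319) (l 16778152))) (l 16774576)))) (a (l 3) (b (a (b (l 230485395175) (l 3)) (b (a (a (l 116668761751) (l 16777024)) (l 16776272)) (c (l 177872045159) (l 184314495383))))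 (l 3)))))) (b (a (b (a (l 16759032) (l 16755336)) (a (c (l 16764712) (l 16764256)) (l 16760664))) (b (a (l 16751600) (l 16747848)) (a (l 16756808) (l 16752920)))) (a (b (a (b (l 16768704) (a (l 16772568) (l 16770576))) (c (l 16766384) (l 16767296))) (a (b (a (b (l 16774752) (c (l 16776256) (l 16777528))) (l 16773464)) (a (b (a (l 215453008935) (a (l 101636376151) (l 16776928))) (l 3)) (b (l 16775656) (a (a (l 201494364871) (l 92509570647)) (l 16777944))))) (a (b (l 16771448) (l 16774352)) (b (l 16769440) (l 16772320))))) (b (a (c (l 16762488) (l 16761944)) (l 16758264)) (a (b (l 16766416) (a (l 16770288) (l 16768272))) (c (l 16764080) (l 16763592))))))), by decide +kernel⟩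

def k18_pp_012_s : ∃ t, chk3 f_pp_012_s t 31 14 1 = true :=
  ⟨(a (b (a (b (l 16720600) (b (l 16730696) (l 16737048))) (b (l 16712960) (b (l 16723168) (l 16729528)))) (a (b (a (l 16751160) (l 16742808)) (a (b (l 16754336) (c (l 16760168) (l 16759552))) (b (l 16750464) (l 16755944)))) (b (b (l 16734848) (l 16739656)) (a (b (l 16746656) (l 16752088)) (b (l 16742928) (l 14)))))) (a (b (b (l 16705168) (b (l 16715424) (l 16721792))) (b (b (l 16727808) (a (l 16734264) (l 16730792))) (b (a (l 16739280) (l 14)) (l 14)))) (a (b (b (l 16699152) (l 16712600)) (b (b (l 16721728) (l 14)) (l 14))) (b (b (l 16694984) (l 16708416)) (l 14))))), by decide +kernel⟩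

def k19_pp_012_s : ∃ t, chk3 f_pp_012_s t 15 15 1 = true :=
  ⟨(a (b (a (l 3) (b (a (b (a (b (a (l 3) (b (c (l 212231783927) (l 207399945623)) (l 3))) (l 3)) (b (b (a (a (a (l 82845894231) (l 16776824)) (l 16776032)) (l 16774504)) (a (a (l 3) (b (l 56002348423) (l 209547428535))) (c (l 16776000) (l 16775952)))) (a (l 3) (b (a (c (l 176261432071) (l 182703882967)) (b (l 16776560) (l 79087796999))) (l 238001586663))))) (l 3)) (b (a (a (b (l 16773200) (b (l 16775384) (a (b (l 16777968) (l 155323467063)) (l 16776344)))) (b (l 16771168) (c (l 16774128) (l 16774016)))) (a (b (l 16769144) (l 16772040)) (b (l 16767128) (l 16770016)))) (a (b (a (a (l 3) (b (a (l 224042943351) (b (l 16777144) (l 3))) (l 3))) (a (b (a (b (l 16776664) (l 109689439159)) (l 16776520)) (l 219747976247)) (b (l 16775752) (b (l 16777512) (a (l 242296554119) (l 87677731831)))))) (l 3)) (b (a (a (b (l 16774728) (l 16776184)) (l 16774432)) (c (l 16772984) (l 16772832))) (a (a (b (b (a (l 141364822983)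 (l 16777016)) (l 231022265143)) (l 3)) (a (b (b (l 16776504) (l 68350378967)) (l 3)) (b (l 16776352) (c (l 189683204711) (l 184314495559))))) (b (c (l 16775112) (l 16775040)) (a (b (l 16777336) (a (l 206326202823) (l 48486155191))) (l 16776016)))))))) (a (l 3) (a (l 3) (a (l 3) (a (l 3) (l 14))))))) (l 3)) (b (a (b (a (b (b (a (l 16764128) (l 16760168)) (a (c (l 16767168) (l 16766808)) (l 16763008))) (a (b (a (l 16770880) (l 16768864)) (a (b (l 16773040) (l 14)) (l 14))) (l 14))) (l 14)) (l 14)) (l 14)) (l 14))), by decide +kernel⟩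

theorem s20_pp_012_s : ∃ t, chk3 f_pp_012_s t 30 14 1 = true := ex3_b k16_pp_012_s k17_pp_012_s

theorem s21_pp_012_s : ∃ t, chk3 f_pp_012_s t 15 14 1 = true := ex3_a s20_pp_012_s k18_pp_012_s

theorem s22_pp_012_s : ∃ t, chk3 f_pp_012_s t 15 7 1 = true := ex3_b s21_pp_012_s k19_pp_012_s

theorem s23_pp_012_s : ∃ t, chk3 f_pp_012_s t 7 7 1 = true := ex3_a k15_pp_012_s s22_pp_012_s

theorem s24_pp_012_s : ∃ t, chk3 f_pp_012_s t 14 6 1 = true := ex3_a k12_pp_012_s k13_pp_012_s

theorem s25_pp_012_s : ∃ t, chk3 f_pp_012_s t 7 6 1 = true := ex3_a s24_pp_012_s k14_pp_012_s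

theorem s26_pp_012_s : ∃ t, chk3 f_pp_012_s t 7 3 1 = true := ex3_b s25_pp_012_s s23_pp_012_s

theorem s27_pp_012_s : ∃ t, chk3 f_pp_012_s t 7 1 1 = true := ex3_b k11_pp_012_s s26_pp_012_s

theorem s28_pp_012_s : ∃ t, chk3 f_pp_012_s t 13 6 1 = true := ex3_b k8_pp_012_s k9_pp_012_s

theorem s29_pp_012_s : ∃ t, chk3 f_pp_012_s t 6 6 1 = true := ex3_a k7_pp_012_s s28_pp_012_s

theorem s30_pp_012_s : ∃ t, chk3 f_pp_012_s t 6 3 1 = true := ex3_b s29_pp_012_s k10_pp_012_s

theorem s31_pp_012_s : ∃ t, chk3 f_pp_012_s t 12 5 1 = true := ex3_b k4_pp_012_s k5_pp_012_s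

theorem s32_pp_012_s : ∃ t, chk3 f_pp_012_s t 12 2 1 = true := ex3_b k3_pp_012_s s31_pp_012_s

theorem s33_pp_012_s : ∃ t, chk3 f_pp_012_s t 6 2 1 = true := ex3_a s32_pp_012_s k6_pp_012_s

theorem s34_pp_012_s : ∃ t, chk3 f_pp_012_s t 6 1 1 = true := ex3_b s33_pp_012_s s30_pp_012_s

theorem s35_pp_012_s : ∃ t, chk3 f_pp_012_s t 3 1 1 = true := ex3_a s34_pp_012_s s27_pp_012_s

theorem s36_pp_012_s : ∃ t, chk3 f_pp_012_s t 2 2 1 = true := ex3_b k0_pp_012_s k1_pp_012_s

theorem s37_pp_012_s : ∃ t, chk3 f_pp_012_s t 2 1 1 = true := ex3_b s36_pp_012_s k2_pp_012_s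

theorem s38_pp_012_s : ∃ t, chk3 f_pp_012_s t 1 1 1 = true := ex3_a s37_pp_012_s s35_pp_012_s

theorem c_pp_012_s : CertNE 0 536870912 0 536870912 780900216 37827925 3 eng mog cd0q0 cd0q2 pd1 false true true .pnp 0 1 2
    ndB0q0 ndB0q2 pcB1 cut_pp_012_s Ext.none :=
  certNE2 (fam := false) (s1 := true) (s2 := true) (a := 0) (b := 1) (c := 2) (cn := .pnp) (n1 := ndB0q0) (n2 := ndB0q2) (pc := pcB1) (cut := cut_pp_012_s) (xt := Ext.none) (P1 := 0) (W1 := 536870912) (P2 := 0) (W2 := 536870912) (P3 := 780900216) (W3 := 37827925) (N0 := 3) (En := eng) (mo := mog) (C1 := cd0q0) (C2 := cd0q2) (C3 := pd1)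
    rfl (fun _ => rfl) s38_pp_012_s

noncomputable def cut_pp_012_t : Cut := Cut.of [[⟨3, 0, 0, 2845415833⟩], [⟨0, 0, 0, 67108864⟩, ⟨1, 1, 0, 67108864⟩, ⟨2, 1, 0, 67108864⟩]]

noncomputable def f_pp_012_t : ℕ → ℕ → ℕ → ℕ → Bool := onCell 0 536870912 0 536870912 780900216 37827925
    (rowNE 3 eng mog cd0q0 cd0q2 pd1 0 false true true .pnp 0 1 2 (qsf 0 536870912 0 536870912 1) ndB0q0 ndB0q2 pcB1 cut_pp_012_t Ext.none)

def k0_pp_012_t : ∃ t, chk3 f_pp_012_t t 1 1 1 = true :=
  ⟨(l 6), by decide +kernel⟩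

theorem c_pp_012_t : CertNE 0 536870912 0 536870912 780900216 37827925 3 eng mog cd0q0 cd0q2 pd1 false true true .pnp 0 1 2
    ndB0q0 ndB0q2 pcB1 cut_pp_012_t Ext.none :=
  certNE0 (fam := false) (s1 := true) (s2 := true) (a := 0) (b := 1) (c := 2) (cn := .pnp) (n1 := ndB0q0) (n2 := ndB0q2) (pc := pcB1) (cut := cut_pp_012_t) (xt := Ext.none) (P1 := 0) (W1 := 536870912) (P2 := 0) (W2 := 536870912) (P3 := 780900216) (W3 := 37827925) (N0 := 3) (En := eng) (mo := mog) (C1 := cd0q0) (C2 := cd0q2) (C3 := pd1)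
    rfl k0_pp_012_t

noncomputable def cut_pp_022_s : Cut := Cut.of [[⟨4, 0, 0, 1449551462⟩], [⟨0, 0, 0, 67108864⟩, ⟨1, 1, 0, 67108864⟩, ⟨2, 1, 0, 67108864⟩]]

noncomputable def f_pp_022_s : ℕ → ℕ → ℕ → ℕ → Bool := onCell 1073741824 536870912 0 536870912 780900216 37827925
    (rowNE 3 eng mog cd0q0 cd0q2 pd2 2 false true true .pp 0 2 2 (qsf 0 536870912 0 536870912 2) ndB0q0 ndB0q2 pcB2 cut_pp_022_s Ext.none)

def k0_pp_022_s : ∃ t, chk3 f_pp_022_s t 4 1 1 = true :=
  ⟨(b (b (l 6) (a (a (b (l 6) (b (l 6) (a (l 16559368) (l 16508728)))) (l 6)) (l 6))) (a (b (a (b (b (a (a (l 16557128) (l 16563088)) (l 16528960)) (a (b (a (l 16572696) (l 16578080)) (a (l 16584480) (l 16589320))) (b (l 16585184) (l 16574880)))) (a (b (a (b (l 16597608) (l 16610792)) (l 16630056)) (b (a (l 16644856) (l 16628680)) (a (a (l 16635552) (l 16638120)) (l 16641792)))) (a (b (l 16613408) (b (l 16633144) (l 16646336))) (b (l 16596464) (l 16643992))))) (a (b (b (l 16579904) (l 16598536)) (b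 (l 16622904) (b (l 16642712) (l 16650952)))) (b (b (l 16579064) (l 16594896)) (b (l 16564968) (b (l 16566848) (a (l 16626880) (l 16610368))))))) (a (b (b (b (a (a (a (b (l 16645312) (l 16651944)) (l 16651256)) (l 16675992)) (a (l 16659648) (l 16663856))) (b (a (a (a (l 16658936) (l 16661624)) (l 16665456)) (a (l 16670160) (l 16674408))) (l 14))) (l 14)) (l 14)) (a (b (b (b (a (l 16665216) (l 16648576)) (a (l 16670440) (a (l 16657328) (l 16648472)))) (l 14)) (l 14)) (b (a (b (b (l 16631576) (b (l 16634368) (l 14))) (l 14)) (b (b (l 16635200) (b (l 16616376) (l 16617112))) (b (l 38151132423) (l 1)))) (l 1))))) (b (b (b (l 6) (a (a (a (l 16553200) (l 16559760)) (b (l 6) (l 16540376))) (l 6))) (a (b (a (a (l 16563360) (l 16547512)) (a (l 16573304) (l 134250840119))) (a (b (a (l 16589416) (l 16571792)) (a (l 16592600) (l 16573720))) (b (l 101501733319) (l 1)))) (a (a (b (l 97743581991) (l 1)) (l 1)) (l 1)))) (a (b (b (a (b (a (l 114386746455) (l 16575168)) (a (l 16617776)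 (l 1))) (l 1)) (l 1)) (l 1)) (l 1))))), by decide +kernel⟩

def k1_pp_022_s : ∃ t, chk3 f_pp_022_s t 5 1 1 = true :=
  ⟨(b (l 6) (b (l 1) (l 1))), by decide +kernel⟩

def k2_pp_022_s : ∃ t, chk3 f_pp_022_s t 3 1 1 = true :=
  ⟨(l 1), by decide +kernel⟩

theorem s3_pp_022_s : ∃ t, chk3 f_pp_022_s t 2 1 1 = true := ex3_a k0_pp_022_s k1_pp_022_s

theorem s4_pp_022_s : ∃ t, chk3 f_pp_022_s t 1 1 1 = true := ex3_a s3_pp_022_s k2_pp_022_s

theorem c_pp_022_s : CertNE 0 536870912 0 536870912 780900216 37827925 3 eng mog cd0q0 cd0q2 pd2 false true true .pp 0 2 2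
    ndB0q0 ndB0q2 pcB2 cut_pp_022_s Ext.none :=
  certNE2 (fam := false) (s1 := true) (s2 := true) (a := 0) (b := 2) (c := 2) (cn := .pp) (n1 := ndB0q0) (n2 := ndB0q2) (pc := pcB2) (cut := cut_pp_022_s) (xt := Ext.none) (P1 := 0) (W1 := 536870912) (P2 := 0) (W2 := 536870912) (P3 := 780900216) (W3 := 37827925) (N0 := 3) (En := eng) (mo := mog) (C1 := cd0q0) (C2 := cd0q2) (C3 := pd2)
    rfl (fun _ => rfl) s4_pp_022_s

noncomputable def cut_pp_022_t : Cut := Cut.of [[⟨3, 0, 0, 2845415833⟩], [⟨0, 0, 0, 67108864⟩, ⟨1, 1, 0, 67108864⟩, ⟨2, 1, 0, 67108864⟩]]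

noncomputable def f_pp_022_t : ℕ → ℕ → ℕ → ℕ → Bool := onCell 0 536870912 0 536870912 780900216 37827925
    (rowNE 3 eng mog cd0q0 cd0q2 pd2 0 false true true .pp 0 2 2 (qsf 0 536870912 0 536870912 2) ndB0q0 ndB0q2 pcB2 cut_pp_022_t Ext.none)

def k0_pp_022_t : ∃ t, chk3 f_pp_022_t t 1 1 1 = true :=
  ⟨(l 6), by decide +kernel⟩

theorem c_pp_022_t : CertNE 0 536870912 0 536870912 780900216 37827925 3 eng mog cd0q0 cd0q2 pd2 false true true .pp 0 2 2
    ndB0q0 ndB0q2 pcB2 cut_pp_022_t Ext.none :=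
  certNE0 (fam := false) (s1 := true) (s2 := true) (a := 0) (b := 2) (c := 2) (cn := .pp) (n1 := ndB0q0) (n2 := ndB0q2) (pc := pcB2) (cut := cut_pp_022_t) (xt := Ext.none) (P1 := 0) (W1 := 536870912) (P2 := 0) (W2 := 536870912) (P3 := 780900216) (W3 := 37827925) (N0 := 3) (En := eng) (mo := mog) (C1 := cd0q0) (C2 := cd0q2) (C3 := pd2)
    rfl k0_pp_022_t

noncomputable def cut_pp_101_s : Cut := Cut.of [[⟨4, 0, 0, 1449551462⟩]]

noncomputable def f_pp_101_s : ℕ → ℕ → ℕ → ℕ → Bool := onCell 536870912 536870912 536870912 536870912 780900216 37827925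
    (rowNE 3 eng mog cd0q1 cd0q1 pd0 0 false true true .npn 1 0 1 (qsf 536870912 536870912 536870912 536870912 0) ndB0q1 ndB0q1 pcB0 cut_pp_101_s Ext.none)

def k0_pp_101_s : ∃ t, chk3 f_pp_101_s t 1 1 1 = true :=
  ⟨(l 3), by decide +kernel⟩

theorem c_pp_101_s : CertNE 536870912 536870912 536870912 536870912 780900216 37827925 3 eng mog cd0q1 cd0q1 pd0 false true true .npn 1 0 1
    ndB0q1 ndB0q1 pcB0 cut_pp_101_s Ext.none :=
  certNE0 (fam := false) (s1 := true) (s2 := true) (a := 1) (b := 0) (c := 1) (cn := .npn) (n1 := ndB0q1) (n2 := ndB0q1) (pc := pcB0) (cut := cut_pp_101_s) (xt := Ext.none) (P1 := 536870912) (W1 := 536870912) (P2 := 536870912) (W2 := 536870912) (P3 := 780900216) (W3 := 37827925) (N0 := 3) (En := eng) (mo := mog) (C1 := cd0q1) (C2 := cd0q1) (C3 := pd0)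
    rfl k0_pp_101_s

noncomputable def cut_pp_101_t : Cut := Cut.of [[⟨3, 0, 0, 2845415833⟩]]

noncomputable def f_pp_101_t : ℕ → ℕ → ℕ → ℕ → Bool := onCell 536870912 536870912 536870912 536870912 780900216 37827925
    (rowNE 3 eng mog cd0q1 cd0q1 pd0 0 false true true .npn 1 0 1 (qsf 536870912 536870912 536870912 536870912 0) ndB0q1 ndB0q1 pcB0 cut_pp_101_t Ext.none)

def k0_pp_101_t : ∃ t, chk3 f_pp_101_t t 1 1 1 = true :=
  ⟨(l 3), by decide +kernel⟩

theorem c_pp_101_t : CertNE 536870912 536870912 536870912 536870912 780900216 37827925 3 eng mog cd0q1 cd0q1 pd0 false true true .npn 1 0 1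
    ndB0q1 ndB0q1 pcB0 cut_pp_101_t Ext.none :=
  certNE0 (fam := false) (s1 := true) (s2 := true) (a := 1) (b := 0) (c := 1) (cn := .npn) (n1 := ndB0q1) (n2 := ndB0q1) (pc := pcB0) (cut := cut_pp_101_t) (xt := Ext.none) (P1 := 536870912) (W1 := 536870912) (P2 := 536870912) (W2 := 536870912) (P3 := 780900216) (W3 := 37827925) (N0 := 3) (En := eng) (mo := mog) (C1 := cd0q1) (C2 := cd0q1) (C3 := pd0)
    rfl k0_pp_101_t

noncomputable def cut_pp_102_s : Cut := Cut.of [[⟨4, 0, 0, 1449551462⟩]]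

noncomputable def f_pp_102_s : ℕ → ℕ → ℕ → ℕ → Bool := onCell 0 536870912 0 536870912 780900216 37827925
    (rowNE 3 eng mog cd0q1 cd0q2 pd0 2 false true true .npp 1 0 2 (qsf 536870912 536870912 0 536870912 0) ndB0q1 ndB0q2 pcB0 cut_pp_102_s Ext.none)

def k0_pp_102_s : ∃ t, chk3 f_pp_102_s t 1 1 1 = true :=
  ⟨(a (b (l 3) (l 3)) (l 3)), by decide +kernel⟩

theorem c_pp_102_s : CertNE 536870912 536870912 0 536870912 780900216 37827925 3 eng mog cd0q1 cd0q2 pd0 false true true .npp 1 0 2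
    ndB0q1 ndB0q2 pcB0 cut_pp_102_s Ext.none :=
  certNE2 (fam := false) (s1 := true) (s2 := true) (a := 1) (b := 0) (c := 2) (cn := .npp) (n1 := ndB0q1) (n2 := ndB0q2) (pc := pcB0) (cut := cut_pp_102_s) (xt := Ext.none) (P1 := 536870912) (W1 := 536870912) (P2 := 0) (W2 := 536870912) (P3 := 780900216) (W3 := 37827925) (N0 := 3) (En := eng) (mo := mog) (C1 := cd0q1) (C2 := cd0q2) (C3 := pd0)
    rfl (fun _ => rfl) k0_pp_102_s

noncomputable def cut_pp_102_t : Cut := Cut.of [[⟨3, 0, 0, 2845415833⟩]]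

noncomputable def f_pp_102_t : ℕ → ℕ → ℕ → ℕ → Bool := onCell 536870912 536870912 0 536870912 780900216 37827925
    (rowNE 3 eng mog cd0q1 cd0q2 pd0 0 false true true .npp 1 0 2 (qsf 536870912 536870912 0 536870912 0) ndB0q1 ndB0q2 pcB0 cut_pp_102_t Ext.none)

def k0_pp_102_t : ∃ t, chk3 f_pp_102_t t 1 1 1 = true :=
  ⟨(l 6), by decide +kernel⟩

theorem c_pp_102_t : CertNE 536870912 536870912 0 536870912 780900216 37827925 3 eng mog cd0q1 cd0q2 pd0 false true true .npp 1 0 2
    ndB0q1 ndB0q2 pcB0 cut_pp_102_t Ext.none :=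
  certNE0 (fam := false) (s1 := true) (s2 := true) (a := 1) (b := 0) (c := 2) (cn := .npp) (n1 := ndB0q1) (n2 := ndB0q2) (pc := pcB0) (cut := cut_pp_102_t) (xt := Ext.none) (P1 := 536870912) (W1 := 536870912) (P2 := 0) (W2 := 536870912) (P3 := 780900216) (W3 := 37827925) (N0 := 3) (En := eng) (mo := mog) (C1 := cd0q1) (C2 := cd0q2) (C3 := pd0)
    rfl k0_pp_102_t

noncomputable def cut_pp_112_s : Cut := Cut.of [[⟨4, 0, 0, 1449551462⟩]]

noncomputable def f_pp_112_s : ℕ → ℕ → ℕ → ℕ → Bool := onCell 536870912 536870912 0 536870912 780900216 37827925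
    (rowNE 3 eng mog cd0q1 cd0q2 pd1 0 false true true .dn 1 1 2 (qsf 536870912 536870912 0 536870912 1) ndB0q1 ndB0q2 pcB1 cut_pp_112_s Ext.none)

def k0_pp_112_s : ∃ t, chk3 f_pp_112_s t 1 1 1 = true :=
  ⟨(a (b (a (b (a (b (a (b (a (a (l 16720176) (l 16728032)) (l 16760680)) (a (a (l 16751088) (l 16779992)) (b (l 16762840) (a (a (l 16772496) (l 87677749863)) (l 142975428791))))) (b (a (l 16775992) (b (l 16762568) (a (l 29695691511) (l 119353139063)))) (a (b (a (b (l 16770544) (l 16786856)) (l 118816269399)) (l 3)) (l 3)))) (a (b (a (b (a (b (l 16771224) (l 104320749831)) (l 145659782343)) (l 3)) (l 3)) (l 3)) (l 3))) (b (a (b (a (b (a (l 16773168) (l 119890009543)) (l 3)) (l 3)) (l 3)) (l 3)) (l 3))) (l 3)) (l 3)) (l 3)) (l 1)), by decide +kernel⟩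

theorem c_pp_112_s : CertNE 536870912 536870912 0 536870912 780900216 37827925 3 eng mog cd0q1 cd0q2 pd1 false true true .dn 1 1 2
    ndB0q1 ndB0q2 pcB1 cut_pp_112_s Ext.none :=
  certNE0 (fam := false) (s1 := true) (s2 := true) (a := 1) (b := 1) (c := 2) (cn := .dn) (n1 := ndB0q1) (n2 := ndB0q2) (pc := pcB1) (cut := cut_pp_112_s) (xt := Ext.none) (P1 := 536870912) (W1 := 536870912) (P2 := 0) (W2 := 536870912) (P3 := 780900216) (W3 := 37827925) (N0 := 3) (En := eng) (mo := mog) (C1 := cd0q1) (C2 := cd0q2) (C3 := pd1)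
    rfl k0_pp_112_s

noncomputable def cut_pp_112_t : Cut := Cut.of [[⟨3, 0, 0, 2845415833⟩]]

noncomputable def f_pp_112_t : ℕ → ℕ → ℕ → ℕ → Bool := onCell 536870912 536870912 0 536870912 780900216 37827925
    (rowNE 3 eng mog cd0q1 cd0q2 pd1 0 false true true .dn 1 1 2 (qsf 536870912 536870912 0 536870912 1) ndB0q1 ndB0q2 pcB1 cut_pp_112_t Ext.none)

def k0_pp_112_t : ∃ t, chk3 f_pp_112_t t 1 1 1 = true :=
  ⟨(l 6), by decide +kernel⟩

theorem c_pp_112_t : CertNE 536870912 536870912 0 536870912 780900216 37827925 3 eng mog cd0q1 cd0q2 pd1 false true true .dn 1 1 2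
    ndB0q1 ndB0q2 pcB1 cut_pp_112_t Ext.none :=
  certNE0 (fam := false) (s1 := true) (s2 := true) (a := 1) (b := 1) (c := 2) (cn := .dn) (n1 := ndB0q1) (n2 := ndB0q2) (pc := pcB1) (cut := cut_pp_112_t) (xt := Ext.none) (P1 := 536870912) (W1 := 536870912) (P2 := 0) (W2 := 536870912) (P3 := 780900216) (W3 := 37827925) (N0 := 3) (En := eng) (mo := mog) (C1 := cd0q1) (C2 := cd0q2) (C3 := pd1)
    rfl k0_pp_112_t

noncomputable def cut_pp_202_s : Cut := Cut.of [[⟨4, 0, 0, 1449551462⟩]]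

noncomputable def f_pp_202_s : ℕ → ℕ → ℕ → ℕ → Bool := onCell 0 536870912 0 536870912 780900216 37827925
    (rowNE 3 eng mog cd0q2 cd0q2 pd0 0 false true true .pp 2 0 2 (qsf 0 536870912 0 536870912 0) ndB0q2 ndB0q2 pcB0 cut_pp_202_s Ext.none)

def k0_pp_202_s : ∃ t, chk3 f_pp_202_s t 1 1 1 = true :=
  ⟨(l 3), by decide +kernel⟩

theorem c_pp_202_s : CertNE 0 536870912 0 536870912 780900216 37827925 3 eng mog cd0q2 cd0q2 pd0 false true true .pp 2 0 2
    ndB0q2 ndB0q2 pcB0 cut_pp_202_s Ext.none :=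
  certNE0 (fam := false) (s1 := true) (s2 := true) (a := 2) (b := 0) (c := 2) (cn := .pp) (n1 := ndB0q2) (n2 := ndB0q2) (pc := pcB0) (cut := cut_pp_202_s) (xt := Ext.none) (P1 := 0) (W1 := 536870912) (P2 := 0) (W2 := 536870912) (P3 := 780900216) (W3 := 37827925) (N0 := 3) (En := eng) (mo := mog) (C1 := cd0q2) (C2 := cd0q2) (C3 := pd0)
    rfl k0_pp_202_s

noncomputable def cut_pp_202_t : Cut := Cut.of [[⟨3, 0, 0, 2845415833⟩]]

noncomputable def f_pp_202_t : ℕ → ℕ → ℕ → ℕ → Bool := onCell 0 536870912 0 536870912 780900216 37827925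
    (rowNE 3 eng mog cd0q2 cd0q2 pd0 0 false true true .pp 2 0 2 (qsf 0 536870912 0 536870912 0) ndB0q2 ndB0q2 pcB0 cut_pp_202_t Ext.none)

def k0_pp_202_t : ∃ t, chk3 f_pp_202_t t 1 1 1 = true :=
  ⟨(l 3), by decide +kernel⟩

theorem c_pp_202_t : CertNE 0 536870912 0 536870912 780900216 37827925 3 eng mog cd0q2 cd0q2 pd0 false true true .pp 2 0 2
    ndB0q2 ndB0q2 pcB0 cut_pp_202_t Ext.none :=
  certNE0 (fam := false) (s1 := true) (s2 := true) (a := 2) (b := 0) (c := 2) (cn := .pp) (n1 := ndB0q2) (n2 := ndB0q2) (pc := pcB0) (cut := cut_pp_202_t) (xt := Ext.none) (P1 := 0) (W1 := 536870912) (P2 := 0) (W2 := 536870912) (P3 := 780900216) (W3 := 37827925) (N0 := 3) (En := eng) (mo := mog) (C1 := cd0q2) (C2 := cd0q2) (C3 := pd0)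
    rfl k0_pp_202_t

noncomputable def cut_pm_001_s : Cut := Cut.of [[⟨4, 0, 0, 1449551462⟩]]

noncomputable def f_pm_001_s : ℕ → ℕ → ℕ → ℕ → Bool := onCell 0 536870912 536870912 536870912 780900216 37827925
    (rowNE 3 eng mog cd0q0 cd0q1 pd0 0 false true false .up 0 0 1 (qsf 0 536870912 536870912 536870912 0) ndB0q0 ndB0q1 pcB0 cut_pm_001_s Ext.none)

def k0_pm_001_s : ∃ t, chk3 f_pm_001_s t 1 1 1 = true :=
  ⟨(l 6), by decide +kernel⟩

theorem c_pm_001_s : CertNE 0 536870912 536870912 536870912 780900216 37827925 3 eng mog cd0q0 cd0q1 pd0 false true false .up 0 0 1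
    ndB0q0 ndB0q1 pcB0 cut_pm_001_s Ext.none :=
  certNE0 (fam := false) (s1 := true) (s2 := false) (a := 0) (b := 0) (c := 1) (cn := .up) (n1 := ndB0q0) (n2 := ndB0q1) (pc := pcB0) (cut := cut_pm_001_s) (xt := Ext.none) (P1 := 0) (W1 := 536870912) (P2 := 536870912) (W2 := 536870912) (P3 := 780900216) (W3 := 37827925) (N0 := 3) (En := eng) (mo := mog) (C1 := cd0q0) (C2 := cd0q1) (C3 := pd0)
    rfl k0_pm_001_s

end Pool.Agent.Strip051.G.I72727_7625.Tab.CS.BB00

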