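import Pool.Agent.Strip051.G.I72727_7625.Tab
import Pool.Agent.Strip051.PB.StripB

/-! # Strips, near vertex: certificates 2 (generated) -/

set_option linter.all false
set_option maxRecDepth 100000

namespace Pool.Agent.Strip051.G.I72727_7625.Tab.CS.BB00

open Pool.Agent.Strip051.PB Pool.Agent.Strip051.PB.T
open Pool.Agent.Strip051.G.I72727_7625.Tab

noncomputable def cut_pm_001_t : Cut := Cut.of [[⟨3, 0, 0, 2845415833⟩]]

noncomputable def f_pm_001_t : ℕ → ℕ → ℕ → ℕ → Bool := onCell 0 536870912 536870912 536870912 780900216 37827925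
    (rowNE 3 eng mog cd0q0 cd0q1 pd0 0 false true false .up 0 0 1 (qsf 0 536870912 536870912 536870912 0) ndB0q0 ndB0q1 pcB0 cut_pm_001_t Ext.none)

def k0_pm_001_t : ∃ t, chk3 f_pm_001_t t 2 1 1 = true :=
  ⟨(b (l 4) (b (b (l 4) (l 2)) (l 2))), by decide +kernel⟩

def k1_pm_001_t : ∃ t, chk3 f_pm_001_t t 3 4 1 = true :=
  ⟨(l 4), by decide +kernel⟩

def k2_pm_001_t : ∃ t, chk3 f_pm_001_t t 6 5 1 = true :=
  ⟨(l 4), by decide +kernel⟩

def k3_pm_001_t : ∃ t, chk3 f_pm_001_t t 7 10 1 = true :=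
  ⟨(a (l 4) (b (a (l 4) (b (l 4) (a (l 4) (b (l 4) (a (l 4) (b (l 199413978903) (a (l 184381598135) (l 16775872)))))))) (a (b (l 4) (a (l 4) (b (a (l 4) (l 214446355879)) (a (b (l 4) (l 208540783063)) (b (a (l 208540786663) (l 74323046679)) (l 37278955495)))))) (b (a (b (l 4) (a (l 4) (b (a (l 4) (l 114051489527)) (a (l 114051490903) (l 16774160))))) (b (a (b (l 190287174663) (a (l 110830263063) (l 16775128))) (b (l 16771064) (l 16769480))) (a (l 16773096) (l 16762944)))) (a (b (a (b (a (l 4) (l 113514621383)) (a (l 79691754567) (l 16772984))) (l 16769168)) (a (l 16767664) (l 16759448))) (b (l 16778544) (l 16748136))))))), by decide +kernel⟩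

def k4_pm_001_t : ∃ t, chk3 f_pm_001_t t 14 11 1 = true :=
  ⟨(b (a (l 4) (b (l 4) (a (l 4) (b (a (l 4) (b (l 216593843815) (a (l 208540786791) (l 16765696)))) (a (b (l 204782687127) (a (l 107609031959) (l 16774456))) (a (l 16767176) (l 16767440))))))) (a (b (a (l 4) (b (l 4) (a (l 4) (b (l 4) (a (l 4) (l 192434660823)))))) (a (b (l 4) (a (l 4) (b (a (l 4) (l 217130719271)) (a (l 193508398887) (b (l 108145913335) (l 16774384)))))) (b (a (b (l 4) (a (l 4) (c (l 107609033543) (l 16762832)))) (b (a (a (l 210151400551) (l 108145911271)) (l 16774360)) (l 16770624))) (a (b (a (c (l 87207943639) (l 16776744)) (l 16772016)) (l 16768200)) (c (l 16766584) (l 16760872)))))) (a (a (b (b (b (l 4) (l 218204455479)) (b (a (l 209077657031) (l 82376107655)) (a (l 65733113703) (l 16770336)))) (b (l 16763528) (l 16771952))) (b (b (b (a (l 4) (l 107609032439)) (a (l 111367134215) (l 16772472))) (l 16765808)) (c (l 16768736) (l 16767688)))) (a (b (b (b (l 16770968) (l 16764928)) (l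 16755824)) (l 16758432)) (b (a (b (l 16760488) (l 16748488)) (l 16770584)) (l 16748880)))))), by decide +kernel⟩

def k5_pm_001_t : ∃ t, chk3 f_pm_001_t t 15 11 1 = true :=
  ⟨(b (a (b (a (b (a (l 4) (b (l 4) (l 190824045431))) (a (b (l 4) (a (l 4) (l 114051488823))) (b (a (l 110830260519) (l 16773880)) (l 16770632)))) (b (a (b (a (l 185455339831) (l 16775368)) (l 16772328)) (l 16765960)) (a (l 16764064) (l 16755168)))) (a (b (a (b (a (l 82912978423) (l 16772184)) (l 16768840)) (l 16762064)) (a (l 16760088) (l 16750560))) (a (l 16768120) (l 16738496)))) (b (a (a (l 16773064) (l 16765128)) (b (l 16738352) (l 16728192))) (a (c (l 16749368) (l 16745592)) (l 16733424)))) (a (a (a (b (l 16763392) (a (l 16741880) (l 16737288))) (b (l 16733112) (l 16730552))) (b (a (l 16724256) (l 16715904)) (l 16717856))) (a (b (l 16725344) (l 16681792)) (b (l 16691000) (l 16669008))))), by decide +kernel⟩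

def k6_pm_001_t : ∃ t, chk3 f_pm_001_t t 12 12 1 = true :=
  ⟨(a (l 4) (b (l 4) (b (l 4) (a (l 4) (b (l 4) (a (b (l 4) (l 2)) (b (a (l 4) (b (l 225720656007) (c (l 65196273767) (l 16776624)))) (a (b (l 112440917047) (l 2)) (l 16772088))))))))), by decide +kernel⟩

def k7_pm_001_t : ∃ t, chk3 f_pm_001_t t 13 12 1 = true :=
  ⟨(b (a (l 4) (b (a (l 4) (b (l 4) (a (b (l 4) (a (l 4) (l 205319561511))) (b (a (l 220351944391) (c (l 85060456711) (l 16766200))) (a (l 86134203975) (l 16770736)))))) (a (b (a (l 4) (a (l 4) (a (l 208003912503) (b (l 4) (l 86671075639))))) (a (b (l 219815079639) (a (l 191360918935) (l 86671075223))) (a (b (a (l 105461553463) (l 16775600)) (l 16770136)) (l 16770888)))) (b (a (a (b (l 172033557207) (l 16773136)) (b (l 65733114247) (l 16767880))) (c (l 16764784) (l 16763256))) (a (c (l 16765768) (l 16760296)) (l 16760504)))))) (a (b (a (b (l 4) (a (l 4) (a (l 4) (b (l 4) (c (l 165591107223) (l 106535280791)))))) (b (a (b (l 4) (a (l 4) (l 221425685927)))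 (b (a (l 4) (b (l 217130722439) (l 89355430183))) (a (a (a (l 102777196535) (l 91502912199)) (l 90429174807)) (l 16772256)))) (b (a (a (l 206930174439) (b (l 90966041287) (l 16774136))) (l 16770616)) (a (a (l 71638692951) (l 16768880)) (l 16761032))))) (a (b (b (a (a (l 4) (l 226794394327)) (a (a (a (l 204245822583) (l 95797916023)) (l 94724139447)) (l 16772384))) (a (a (l 209077657687) (a (a (l 73249337399) (l 39963338535)) (l 16774584))) (l 16770464))) (a (b (a (c (l 16779312) (l 16774016)) (l 16768592)) (l 16769104)) (c (l 16767440) (l 16756672)))) (b (a (b (l 16769664) (l 16757224)) (l 16760888)) (a (l 16767240) (a (l 16759464) (l 16733352)))))) (b (a (b (a (b (a (c (l 16773872) (l 16773824)) (l 16768592)) (l 16764384)) (l 16767824)) (a (l 16764552) (l 16764672))) (b (a (l 16757432) (c (l 16757904) (l 16736360))) (c (l 16749568) (l 16727968)))) (a (b (a (l 16740064) (l 16750760)) (a (l 16746656) (l 16715504))) (b (a (l 16719576) (l 16709448)) (l 16731816)))))),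 by decide +kernel⟩

def k8_pm_001_t : ∃ t, chk3 f_pm_001_t t 7 12 1 = true :=
  ⟨(a (b (a (a (b (b (a (a (a (l 209077653959) (b (l 4) (l 88281689351))) (b (l 175254792903) (l 16773448))) (b (a (l 60364405783) (l 16769528)) (l 16765624))) (a (b (l 16769488) (l 16762904)) (l 16766320))) (b (a (l 16763472) (l 16763704)) (c (l 16745488) (l 16734264)))) (b (b (a (b (l 16761776) (l 16776304)) (l 16769344)) (a (l 16756112) (l 16756544))) (a (b (l 16732632) (l 16719568)) (b (l 16743664) (l 16709728))))) (b (a (a (c (l 16753640) (l 16752304)) (l 16743216)) (c (l 16730192) (l 16727744))) (a (b (a (l 16712928) (l 16703328)) (a (l 16700080) (l 16690616))) (l 16704000)))) (b (a (c (a (a (b (l 16726840) (l 16713536)) (l 16731264)) (b (l 16723272) (l 16689184))) (a (l 16735224) (l 16715152))) (a (a (l 16701592) (l 16692296)) (b (l 16664144) (l 16672320)))) (a (a (b (l 16715408) (l 16701416)) (a (l 16693752) (l 16684168))) (a (c (l 16671440) (l 16647864)) (l 16652304))))) (b (a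 (b (a (a (l 16694336) (l 16685616)) (a (l 16698328) (l 16669568))) (a (l 16686336) (l 16649352))) (a (b (l 16658824) (a (l 16638752) (l 16632320))) (b (l 16646544) (l 16623672)))) (a (b (a (l 16640488) (l 16624808)) (a (l 16656472) (l 16599176))) (b (a (l 16611416) (l 16642280)) (a (l 16586016) (l 16575472)))))), by decide +kernel⟩

def k9_pm_001_t : ∃ t, chk3 f_pm_001_t t 3 13 1 = true :=
  ⟨(a (a (b (a (l 2) (b (a (l 2) (b (a (l 2) (a (l 2) (l 16771120))) (l 2))) (l 2))) (l 2)) (a (b (b (a (b (a (l 16762952) (b (l 16766544) (l 16737960))) (a (a (l 2) (l 16734240)) (l 16747320))) (b (a (b (l 16735104) (l 16727544)) (l 16742064)) (a (l 16716032) (l 16705912)))) (b (a (a (l 2) (l 16710488)) (c (l 16717088) (l 16715520))) (a (l 2) (l 16700328)))) (a (l 2) (b (b (l 16684096) (l 2)) (l 2)))) (b (b (b (a (a (l 16710952) (l 16700880)) (l 16706864)) (a (l 16711888) (l 16671112))) (a (a (l 16693608) (l 16683864)) (c (l 16670448) (l 16647296)))) (b (a (b (l 16644152) (l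 16628168)) (l 16638544)) (a (l 50029402743) (l 16607216)))))) (a (a (a (b (b (c (l 16680688) (l 16678960)) (l 16650128)) (b (l 16619968) (l 16568656))) (b (b (c (l 16661656) (l 16638496)) (l 16631176)) (b (l 16580512) (l 16550912)))) (b (b (a (l 16641952) (l 16603264)) (a (l 16591752) (l 16574080))) (b (a (l 16562320) (l 16544728)) (a (l 16533208) (l 16515832))))) (b (a (b (a (l 16586736) (l 16571824)) (a (l 16557536) (l 16542832))) (b (a (l 16558888) (l 16548456)) (a (l 16530304) (l 16520000)))) (a (a (b (l 16528112) (l 16499184)) (l 16561360)) (b (a (l 16500808) (l 6)) (l 6)))))), by decide +kernel⟩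

def k10_pm_001_t : ∃ t, chk3 f_pm_001_t t 3 7 1 = true :=
  ⟨(a (b (a (l 2) (b (a (l 2) (b (a (l 2) (l 67746035063)) (l 2))) (l 2))) (l 2)) (b (a (b (a (b (a (l 16537696) (l 16521128)) (a (b (l 16513432) (l 2)) (c (l 16494192) (l 16486520)))) (b (a (l 16504248) (l 16487384)) (l 6))) (a (a (l 2) (l 6)) (l 6))) (l 6)) (l 6))), by decide +kernel⟩

theorem s11_pm_001_t : ∃ t, chk3 f_pm_001_t t 6 12 1 = true := ex3_a k6_pm_001_t k7_pm_001_t

theorem s12_pm_001_t : ∃ t, chk3 f_pm_001_t t 3 12 1 = true := ex3_a s11_pm_001_t k8_pm_001_t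

theorem s13_pm_001_t : ∃ t, chk3 f_pm_001_t t 3 6 1 = true := ex3_b s12_pm_001_t k9_pm_001_t

theorem s14_pm_001_t : ∃ t, chk3 f_pm_001_t t 3 3 1 = true := ex3_b s13_pm_001_t k10_pm_001_t

theorem s15_pm_001_t : ∃ t, chk3 f_pm_001_t t 7 11 1 = true := ex3_a k4_pm_001_t k5_pm_001_t

theorem s16_pm_001_t : ∃ t, chk3 f_pm_001_t t 7 5 1 = true := ex3_b k3_pm_001_t s15_pm_001_t

theorem s17_pm_001_t : ∃ t, chk3 f_pm_001_t t 3 5 1 = true := ex3_a k2_pm_001_t s16_pm_001_t

theorem s18_pm_001_t : ∃ t, chk3 f_pm_001_t t 3 2 1 = true := ex3_b k1_pm_001_t s17_pm_001_t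

theorem s19_pm_001_t : ∃ t, chk3 f_pm_001_t t 3 1 1 = true := ex3_b s18_pm_001_t s14_pm_001_t

theorem s20_pm_001_t : ∃ t, chk3 f_pm_001_t t 1 1 1 = true := ex3_a k0_pm_001_t s19_pm_001_t

theorem c_pm_001_t : CertNE 0 536870912 536870912 536870912 780900216 37827925 3 eng mog cd0q0 cd0q1 pd0 false true false .up 0 0 1
    ndB0q0 ndB0q1 pcB0 cut_pm_001_t Ext.none :=
  certNE0 (fam := false) (s1 := true) (s2 := false) (a := 0) (b := 0) (c := 1) (cn := .up) (n1 := ndB0q0) (n2 := ndB0q1) (pc := pcB0) (cut := cut_pm_001_t) (xt := Ext.none) (P1 := 0) (W1 := 536870912) (P2 := 536870912) (W2 := 536870912) (P3 := 780900216) (W3 := 37827925) (N0 := 3) (En := eng) (mo := mog) (C1 := cd0q0) (C2 := cd0q1) (C3 := pd0)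
    rfl s20_pm_001_t

noncomputable def cut_pm_011_s : Cut := Cut.of [[⟨4, 0, 0, 1449551462⟩], [⟨0, 0, 0, 67108864⟩, ⟨1, 1, 0, 67108864⟩, ⟨2, 1, 0, 67108864⟩]]

noncomputable def f_pm_011_s : ℕ → ℕ → ℕ → ℕ → Bool := onCell 0 536870912 536870912 536870912 780900216 37827925
    (rowNE 3 eng mog cd0q0 cd0q1 pd1 0 false true false .pnn 0 1 1 (qsf 0 536870912 536870912 536870912 1) ndB0q0 ndB0q1 pcB1 cut_pm_011_s Ext.none)

def k0_pm_011_s : ∃ t, chk3 f_pm_011_s t 1 1 1 = true :=
  ⟨(l 6), by decide +kernel⟩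

theorem c_pm_011_s : CertNE 0 536870912 536870912 536870912 780900216 37827925 3 eng mog cd0q0 cd0q1 pd1 false true false .pnn 0 1 1
    ndB0q0 ndB0q1 pcB1 cut_pm_011_s Ext.none :=
  certNE0 (fam := false) (s1 := true) (s2 := false) (a := 0) (b := 1) (c := 1) (cn := .pnn) (n1 := ndB0q0) (n2 := ndB0q1) (pc := pcB1) (cut := cut_pm_011_s) (xt := Ext.none) (P1 := 0) (W1 := 536870912) (P2 := 536870912) (W2 := 536870912) (P3 := 780900216) (W3 := 37827925) (N0 := 3) (En := eng) (mo := mog) (C1 := cd0q0) (C2 := cd0q1) (C3 := pd1)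
    rfl k0_pm_011_s

noncomputable def cut_pm_011_t : Cut := Cut.of [[⟨3, 0, 0, 2845415833⟩], [⟨0, 0, 0, 67108864⟩, ⟨1, 1, 0, 67108864⟩, ⟨2, 1, 0, 67108864⟩]]

noncomputable def f_pm_011_t : ℕ → ℕ → ℕ → ℕ → Bool := onCell 0 536870912 536870912 536870912 780900216 37827925
    (rowNE 3 eng mog cd0q0 cd0q1 pd1 0 false true false .pnn 0 1 1 (qsf 0 536870912 536870912 536870912 1) ndB0q0 ndB0q1 pcB1 cut_pm_011_t Ext.none)

def k0_pm_011_t : ∃ t, chk3 f_pm_011_t t 1 2 1 = true :=
  ⟨(a (l 4) (b (l 1) (a (l 4) (l 1)))), by decide +kernel⟩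

def k1_pm_011_t : ∃ t, chk3 f_pm_011_t t 2 6 1 = true :=
  ⟨(a (l 4) (a (l 4) (b (l 4) (b (l 4) (a (b (l 4) (a (l 4) (b (l 4) (a (l 4) (b (l 4) (a (l 4) (b (l 242900529895) (l 47479531543)))))))) (b (a (l 4) (b (a (l 4) (b (l 4) (l 254711679607))) (a (b (l 4) (a (l 262227876919) (b (l 231089368663) (l 16776296)))) (b (a (l 207467047575) (b (l 60901304903) (l 16773360))) (l 16775304))))) (a (a (b (l 4) (b (a (l 219815079623) (b (l 77544304487) (l 16773968))) (a (l 16773264) (l 16767776)))) (b (b (a (l 4) (l 217667595111)) (a (b (l 242363658103) (l 16781800)) (l 16773160))) (b (l 16767752) (l 16759520)))) (b (a (a (a (b (l 56069465351) (l 16769040)) (l 16775576)) (l 16766208)) (l 16763176)) (a (l 16752648) (l 16741736)))))))))), by decide +kernel⟩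

def k2_pm_011_t : ∃ t, chk3 f_pm_011_t t 4 14 1 = true :=
  ⟨(a (l 4) (b (l 4) (a (l 4) (b (l 4) (a (l 4) (b (l 4) (a (b (l 4) (a (l 4) (b (l 4) (b (a (l 4) (l 191897798759)) (a (l 214983248519) (a (l 60901298759) (l 16775952))))))) (b (a (l 4) (b (a (l 4) (l 225183797543)) (b (a (l 4) (a (l 102240359399) (l 16776576))) (a (a (l 132305130471) (l 16776960)) (l 16774904))))) (a (b (a (b (l 4) (l 175254799879)) (b (a (l 220888827911) (l 69491233399)) (l 16775768))) (a (b (l 16779448) (l 16773768)) (l 16772072))) (a (b (l 16774104) (l 16763896)) (b (l 16765928) (l 16766208)))))))))))), by decide +kernel⟩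

def k3_pm_011_t : ∃ t, chk3 f_pm_011_t t 8 30 1 = true :=
  ⟨(a (l 4) (b (l 4) (a (l 4) (b (l 4) (a (l 4) (b (l 4) (a (l 4) (b (l 4) (b (a (l 4) (a (l 4) (b (l 219278214615) (b (a (l 4) (l 16777800)) (c (l 16778200) (l 16778032)))))) (b (a (l 4) (a (a (b (l 4) (l 78081164887)) (a (l 44258296935) (l 16776832))) (l 16775960))) (a (a (l 4) (b (a (l 4) (l 89355454039)) (a (l 98482259591) (l 16776816)))) (c (l 16775376) (l 16776008))))))))))))), by decide +kernel⟩

def k4_pm_011_t : ∃ t, chk3 f_pm_011_t t 16 31 1 = true :=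
  ⟨(b (b (l 4) (l 14)) (l 14)), by decide +kernel⟩

def k5_pm_011_t : ∃ t, chk3 f_pm_011_t t 34 124 1 = true :=
  ⟨(a (l 4) (b (l 4) (a (l 4) (a (l 4) (b (l 4) (b (l 4) (b (a (l 4) (b (a (l 4) (c (l 174717927895) (l 179549766087))) (a (c (l 181160378903) (l 185992217095)) (c (l 16777616) (c (l 16777616) (l 16777616)))))) (a (b (a (l 4) (c (l 188139700807) (l 193508409911))) (a (l 201024602743) (a (a (l 82376131479) (l 16777792)) (l 16776904)))) (b (a (a (a (l 73249325911) (l 16777104)) (l 16776856)) (l 16776336)) (l 16776032)))))))))), by decide +kernel⟩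

def k6_pm_011_t : ∃ t, chk3 f_pm_011_t t 68 125 1 = true :=
  ⟨(b (b (l 4) (l 14)) (l 14)), by decide +kernel⟩

def k7_pm_011_t : ∃ t, chk3 f_pm_011_t t 69 500 1 = true :=
  ⟨(b (a (l 4) (b (a (a (l 4) (b (a (l 4) (l 208003924647)) (a (l 214446375655) (a (a (l 106535322567) (l 54458844087)) (l 16776984))))) (a (b (a (a (a (l 92039807959) (l 16777664)) (l 16776944)) (l 16776424)) (l 16776120)) (a (c (l 16774096) (l 16774080)) (c (l 16774704) (l 16774688))))) (a (a (a (l 4) (b (l 4) (a (b (l 4) (l 16777544)) (c (l 16777056) (l 16777712))))) (b (a (a (a (l 122641449895) (l 74323067735)) (l 16777672)) (l 16776520)) (l 16776208))) (b (a (a (l 16774504) (l 16775112)) (a (l 16774416) (l 16773712))) (a (a (l 16775160) (l 16774464)) (l 16774720)))))) (a (a (l 4) (b (b (l 4) (a (l 4) (a (l 4) (a (b (l 4) (l 89892324151)) (b (l 81839260487) (l 16777000)))))) (a (b (l 4) (a (l 4) (b (l 184918475175) (a (l 122104578871) (l 16777072))))) (a (b (a (l 181160378743) (b (l 97945387831)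 (l 16777040))) (l 16777056)) (c (l 16776360) (l 16776352)))))) (b (a (a (a (b (a (b (l 4) (l 75396809511)) (c (l 16777752) (l 16777664))) (l 16776648)) (l 16776272)) (a (b (l 16774592) (l 16775248)) (c (l 16773576) (l 16773560)))) (a (a (a (l 16774352) (l 16774000)) (l 16773480)) (c (l 16772448) (l 16772408)))) (a (a (b (l 16775640) (a (l 16774024) (l 16774640))) (a (a (l 16774440) (l 16774088)) (l 16773568))) (a (a (l 16772864) (l 16772168)) (l 16771112)))))), by decide +kernel⟩

def k8_pm_011_t : ∃ t, chk3 f_pm_011_t t 69 501 1 = true :=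
  ⟨(b (a (a (b (b (l 4) (l 14)) (l 14)) (a (a (b (b (b (l 197266506199) (a (l 139821318935) (l 16777112))) (c (l 16777128) (l 16777208))) (a (l 14) (c (l 16774352) (l 16774664)))) (b (a (c (l 16776944) (l 16776936)) (l 16776272)) (b (l 16774480) (l 16774808)))) (b (b (l 16775728) (a (l 16774112) (l 16774720))) (a (b (l 16774768) (l 16774112)) (l 16774392))))) (a (a (b (a (c (l 16774360) (l 16774344)) (l 16774960)) (a (l 16773040) (l 16772344))) (b (c (l 16772624) (l 16773896)) (l 16772600))) (a (b (l 16772512) (l 16769888)) (a (l 16769496) (l 16768792))))) (a (a (l 14) (a (a (l 14) (b (l 16774480) (l 14))) (b (c (l 16774104) (l 16774072)) (a (l 16771816) (l 16771120))))) (a (a (b (l 16772688) (l 16770072)) (a (l 16770984) (l 16768976))) (a (l 16768904) (l 16766520))))), by decide +kernel⟩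

def k9_pm_011_t : ∃ t, chk3 f_pm_011_t t 69 251 1 = true :=
  ⟨(a (a (l 14) (a (l 14) (a (l 14) (b (b (l 16770464) (l 14)) (l 14))))) (b (a (a (b (a (l 16768448) (l 16767752)) (l 16766792)) (b (l 16768008) (l 16764080))) (c (b (l 16764648) (l 16762032)) (b (l 16765864) (l 16761920)))) (b (a (c (l 16762208) (l 16762104)) (l 16761968)) (a (l 14) (l 16756720))))), by decide +kernel⟩

def k10_pm_011_t : ∃ t, chk3 f_pm_011_t t 70 248 1 = true :=
  ⟨(a (l 4) (b (l 4) (b (b (l 4) (b (l 4) (a (l 4) (a (l 4) (a (l 4) (a (l 170959832135) (l 16777896))))))) (a (b (l 4) (b (l 4) (a (l 4) (a (l 4) (l 185992217127))))) (b (a (a (l 4) (c (l 183307862807) (c (l 187602830087) (l 189750313735)))) (a (b (c (l 103850968535) (l 107072193991)) (l 16776888)) (l 16777168))) (a (b (a (c (l 125862675895) (l 128547030455)) (l 16777584)) (a (l 16777632) (l 16776304))) (l 16775568))))))), by decide +kernel⟩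

def k11_pm_011_t : ∃ t, chk3 f_pm_011_t t 70 498 1 = true :=
  ⟨(b (a (l 4) (a (b (a (a (l 4) (a (l 4) (l 210151408455))) (b (a (l 194045280871) (c (l 16777024) (l 16777672))) (a (a (l 60364424311) (l 16776928)) (l 16776408)))) (a (b (a (l 215520117463) (a (l 70028100807) (l 16776976))) (a (a (l 82913002679) (l 16777016)) (l 16776512))) (l 16775776))) (a (c (l 16775024) (l 16774840)) (b (c (l 16772304) (l 16772272)) (l 16774256))))) (a (a (l 4) (a (b (l 4) (a (b (l 4) (a (l 132841997511) (l 51237618727))) (b (a (l 122104579223) (l 16777800)) (l 16776704)))) (b (a (b (l 4) (a (l 114588386375) (l 16777104))) (b (a (l 95797904551) (l 16777064)) (l 16776608))) (c (l 16775984) (l 16775968))))) (b (a (a (l 16775880) (a (l 16773504) (l 16774112))) (a (a (l 16773400) (l 16772696)) (l 16771632))) (a (a (a (l 16773608) (l 16774216)) (c (l 16773168) (l 16773136))) (c (l 16772368) (l 16772304)))))), by decide +kernel⟩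

def k12_pm_011_t : ∃ t, chk3 f_pm_011_t t 70 499 1 = true :=
  ⟨(b (a (a (b (a (l 4) (a (a (l 214983246711) (b (l 4) (c (l 71101842455) (l 73786196999)))) (b (a (l 150558737511) (c (l 16777864) (l 60364424215))) (l 16776792)))) (a (b (b (l 216056988599) (a (l 4) (c (l 82913002599) (l 84523615335)))) (a (a (l 4) (a (l 132841997239) (l 81302389639))) (c (l 16776880) (l 16777536)))) (a (c (l 16777176) (l 16776840)) (l 16775824)))) (a (b (c (l 16776408) (l 16776392)) (a (a (l 16773984) (l 16774944)) (l 16773104))) (b (a (c (l 16775032) (l 16773696)) (l 16773000)) (c (l 16773376) (l 16774648))))) (a (b (a (a (l 16773608) (l 16772904)) (l 16771840)) (a (l 16771944) (l 16770528))) (a (l 16770752) (l 16768344)))) (a (b (a (a (b (a (c (l 16777576) (l 16777576)) (l 16776240)) (l 16775936)) (a (c (l 16773912) (l 16773896)) (c (l 16774520) (l 16774496)))) (a (a (l 16773808) (l 16773096)) (l 16773352))) (a (a (a (c (l 16774008) (l 16773992)) (a (l 16774776) (l 16774424))) (a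 (l 16773904) (l 16773200))) (a (l 16773448) (l 16770728)))) (a (a (a (l 16770328) (l 16769616)) (l 16769864)) (c (l 16769104) (l 16769000))))), by decide +kernel⟩

def k13_pm_011_t : ∃ t, chk3 f_pm_011_t t 142 124 1 = true :=
  ⟨(b (b (b (a (l 4) (a (l 4) (b (l 4) (b (l 201024603047) (a (l 151632479799) (l 16777024)))))) (a (b (l 4) (b (l 4) (a (l 4) (a (l 4) (c (l 16777840) (l 56606328199)))))) (a (b (b (l 212298892343) (a (l 218741342951) (l 16777936))) (a (b (l 48016393687) (l 16776576)) (l 16776192))) (a (b (a (l 16777912) (l 16776608)) (l 16772856)) (l 16775424))))) (b (a (a (b (a (l 4) (a (l 196192764663) (b (l 4) (l 16777160)))) (b (a (c (l 82913002983) (l 85060486615)) (l 16776736)) (l 16776432))) (b (a (b (c (l 63585650135) (l 67880617351)) (l 16776688)) (l 16776304)) (l 16775352))) (b (c (l 16774544) (a (l 16773920) (l 16773792))) (a (a (l 16774280) (l 16773568)) (l 16772496)))) (a (b (c (l 16774760) (l 16774576)) (a (a (l 16774504) (l 16773792)) (l 16774032)))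 (a (b (l 16772616) (l 16771304)) (l 16771840))))) (a (b (a (b (b (l 16774144) (l 16771520)) (l 16770864)) (b (a (l 16771112) (l 16770400)) (l 16768128))) (b (c (l 16766272) (l 16768784)) (l 16766208))) (b (c (b (l 16769976) (l 16766056)) (b (l 16770216) (l 16765936))) (b (l 16765984) (l 16760736))))), by decide +kernel⟩

def k14_pm_011_t : ∃ t, chk3 f_pm_011_t t 143 124 1 = true :=
  ⟨(b (b (a (b (b (a (a (l 189213442887) (b (l 111367161431) (l 16776920))) (l 16776848)) (b (a (l 16777280) (l 16772600)) (l 16775280))) (b (a (a (l 16772744) (l 16774656)) (l 16771616)) (a (c (l 16773720) (l 16773680)) (l 16772272)))) (a (b (b (c (l 16772168) (l 16772136)) (l 16770840)) (c (l 16771528) (l 16771464))) (b (b (l 16773344) (l 16772032)) (l 16772680)))) (b (a (a (a (l 16773400) (l 16771368)) (l 16771608)) (c (l 16770824) (l 16770720))) (a (c (l 16771064) (l 16769648)) (l 16768144)))) (b (a (b (l 16767072) (l 16763136)) (c (l 16764296) (l 16764120))) (a (c (l 16759288) (l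 16761712)) (c (l 16756440) (l 16756208))))), by decide +kernel⟩

def k15_pm_011_t : ∃ t, chk3 f_pm_011_t t 35 125 1 = true :=
  ⟨(b (a (b (b (a (a (b (a (a (a (l 16774168) (l 16773816)) (l 16773288)) (l 16773544)) (a (l 16773640) (l 16770920))) (a (a (l 16771832) (l 16769816)) (l 16770072))) (a (a (l 16767344) (l 16765928)) (l 16765112))) (a (b (a (a (l 16771016) (l 16769608)) (l 16768808)) (a (c (l 16769040) (l 16770280)) (l 16766184))) (a (c (l 16764072) (l 16763952)) (l 16763792)))) (b (a (a (a (l 16769048) (l 16766328)) (c (l 16764272) (l 16764160))) (a (l 16764000) (l 16758544))) (a (a (c (l 16764464) (l 16766984)) (l 16764208)) (a (l 16758752) (l 16755912))))) (a (b (a (c (l 16762352) (l 16760872)) (c (l 16756896) (l 16756688))) (a (c (l 16754496) (l 16754272)) (l 16754144))) (b (a (l 16756216) (l 16756296)) (c (l 16750008) (l 16749688))))) (b (b (a (a (a (l 16763088) (l 16758960)) (c (l 16757432) (l 16757232))) (a (l 16751624) (l 16743264))) (a (a (a (l 16759152)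 (l 16756328)) (c (l 16752184) (l 16757208))) (a (l 16751608) (l 16740632)))) (a (a (a (c (l 16757920) (l 16757752)) (c (l 16752488) (l 16752288))) (a (l 16752168) (l 16746696))) (a (c (l 16747824) (l 16747504)) (c (l 16742080) (l 16741672)))))), by decide +kernel⟩

def k16_pm_011_t : ∃ t, chk3 f_pm_011_t t 17 63 1 = true :=
  ⟨(a (b (b (a (l 14) (a (l 14) (b (a (l 14) (c (l 16755488) (l 16755320))) (l 14)))) (l 14)) (l 14)) (a (b (b (b (a (a (c (l 16750064) (l 16749864)) (l 16749744)) (a (l 16744280) (l 16746648))) (b (a (a (l 16746016) (l 16743160)) (a (l 16745544) (l 16737552))) (a (a (l 14) (l 16745864)) (l 16736328)))) (a (b (l 16740720) (l 14)) (b (l 16737704) (l 16732552)))) (b (a (l 14) (b (l 16722112) (l 14))) (l 14))) (b (b (b (b (a (l 16743648) (a (l 16734112) (l 16731336))) (a (a (l 16737216) (l 16734456)) (l 16730088))) (a (l 16731912) (l 16726152))) (a (b (l 16726728) (l 16721584)) (b (l 16720928) (l 16715736)))) (b (b (a (l 16716456) (l 16710584))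 (a (l 16721752) (l 16705440))) (a (b (l 16706056) (l 14)) (l 16708232)))))), by decide +kernel⟩

def k17_pm_011_t : ∃ t, chk3 f_pm_011_t t 18 60 1 = true :=
  ⟨(a (l 4) (b (l 4) (a (l 4) (b (l 4) (a (b (l 4) (a (l 4) (b (c (l 210688281239) (l 214983248471)) (a (b (l 215520118119) (l 16778368)) (l 16778280))))) (b (a (a (l 4) (b (l 4) (l 184381605287))) (a (b (l 4) (b (l 92576681319) (l 16776472))) (b (l 166664864055) (l 16775664)))) (a (b (b (a (l 125862677847) (l 16776632)) (l 16777384)) (l 16774184)) (l 16771880)))))))), by decide +kernel⟩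

def k18_pm_011_t : ∃ t, chk3 f_pm_011_t t 36 122 1 = true :=
  ⟨(a (l 4) (b (l 4) (a (b (l 4) (b (l 4) (a (l 4) (a (l 4) (a (l 4) (l 195655894455)))))) (a (b (l 4) (a (b (l 4) (b (l 180623508407) (l 16778568))) (b (b (l 4) (l 169886089975)) (a (l 16777664) (l 16775672))))) (a (b (l 4) (b (b (a (l 219815085111) (l 72712456567)) (l 16776504)) (l 16774584))) (b (b (l 4) (a (l 211225151047) (b (l 4) (l 16778472)))) (b (l 16775720) (l 16770504)))))))), by decide +kernel⟩

def k19_pm_011_t : ∃ t, chk3 f_pm_011_t t 72 123 1 = true :=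
  ⟨(b (a (l 4) (b (l 4) (b (a (l 4) (a (a (l 209614538311) (b (l 4) (l 54458844823))) (b (a (l 127473289527) (l 16778232)) (l 16776224)))) (a (a (b (l 4) (a (l 4) (a (l 123178321847) (l 71101843287)))) (b (a (l 216056988695) (a (l 103314098087) (l 16777800))) (l 16777784))) (b (c (l 16775648) (l 16776280)) (l 16774344)))))) (a (b (b (a (l 4) (b (a (l 4) (c (l 174717928327) (l 179012895591))) (a (b (l 4) (l 176328540855)) (a (a (l 55532586855) (l 16776912)) (l 16776408))))) (a (a (b (l 4) (l 210151408983)) (a (b (l 4) (a (l 92576679831) (l 16778104))) (b (l 188139701047) (l 16776648)))) (a (a (b (a (l 80228648663) (l 16777024)) (l 16775952)) (l 16775880)) (l 16774808)))) (a (a (b (b (b (a (l 164517381687) (l 16777072)) (l 16777928)) (l 16775840)) (b (l 16771912) (l 16773216))) (b (l 16775064) (b (l 16773096) (l 16771784)))) (a (b (b (l 16771656) (l 16772968)) (l 16773624)) (b (a (l 16772544) (l 16771824)) (l 16769560))))) (b (b (b (a (a (a (l 16778248) (l 16776280))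 (l 16775200)) (a (l 16773752) (l 16772312))) (a (l 16774608) (c (l 16771760) (l 16771688)))) (a (a (a (l 16771104) (l 16770384)) (a (l 16772280) (l 16771560))) (c (l 16772432) (l 16772328)))) (b (a (a (l 16773368) (l 16769304)) (l 16769760)) (a (l 16770024) (l 16764512)))))), by decide +kernel⟩

def k20_pm_011_t : ∃ t, chk3 f_pm_011_t t 73 123 1 = true :=
  ⟨(b (b (a (b (a (a (l 4) (l 219815086215)) (b (a (l 208540796199) (a (l 57143200071) (l 16776600))) (a (a (l 72712456583) (l 16776736)) (l 16775672)))) (a (a (b (l 4) (a (l 106535324103) (l 16778288))) (a (b (l 89355454887) (l 16776320)) (l 16777536))) (l 16774440))) (a (b (l 16774152) (a (l 16769640) (l 16770808))) (b (a (l 16771968) (l 16770512)) (l 16771248)))) (a (a (b (c (l 16774736) (l 16774704)) (a (a (l 16773192) (l 16772464)) (l 16771376))) (a (b (l 16769272) (l 16769928)) (b (l 16771096) (l 16768480)))) (a (b (l 16771536) (l 16766296)) (c (l 16767416) (l 16767232))))) (a (b (a (b (a (l 16770208) (l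 16768760)) (l 16769488)) (c (l 16767984) (l 16767816))) (a (c (l 16765648) (l 16765456)) (l 16762648))) (b (a (c (l 16762480) (l 16762264)) (l 16764696)) (c (l 16758448) (l 16758136))))), by decide +kernel⟩

def k21_pm_011_t : ∃ t, chk3 f_pm_011_t t 37 122 1 = true :=
  ⟨(a (b (a (a (l 4) (b (l 4) (b (l 4) (b (l 209077667815) (a (l 217130730887) (l 6140463991)))))) (a (b (l 4) (a (b (l 195119023831) (a (l 16777864) (l 16775888))) (b (b (l 114588388727) (l 16776688)) (l 16774792)))) (b (b (l 4) (b (a (l 4) (l 83986746775)) (a (l 100629744951) (l 16776392)))) (a (b (l 16775904) (l 16768088)) (l 16773168))))) (a (b (b (b (a (l 4) (a (a (l 86671100279) (l 16776824)) (l 16775768))) (a (a (l 4) (a (l 104924711335) (l 16776952))) (l 16775192))) (a (a (b (c (l 70028102647) (l 71101843799)) (l 16776224)) (l 16775424)) (l 16773240))) (b (a (l 16773552) (c (l 16770680) (l 16766648))) (a (a (l 16771664) (l 16770208)) (l 16768016)))) (a (b (b (a (l 16771032) (l 16772192)) (c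 (l 16770376) (l 16770264))) (c (l 16769112) (l 16768936))) (b (a (b (l 16770736) (l 16768128)) (l 16770592)) (l 16766104))))) (b (a (b (a (b (a (b (l 4) (l 70564973879)) (b (l 57143200983) (l 16776072))) (l 16774856)) (c (l 16773264) (l 16773192))) (b (a (c (l 16767072) (l 16769608)) (l 16774584)) (a (c (l 16769744) (l 16769616)) (l 16766752)))) (b (a (b (a (l 16772328) (l 16770856)) (l 16769008)) (a (l 16773344) (l 16766640))) (a (l 16767752) (l 16762216)))) (a (b (a (c (l 16765880) (l 16770928)) (l 16768112)) (c (l 16761896) (l 16761592))) (b (c (l 16763912) (l 16763584)) (l 16755936))))), by decide +kernel⟩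

def k22_pm_011_t : ∃ t, chk3 f_pm_011_t t 37 123 1 = true :=
  ⟨(b (b (a (a (a (a (l 16770368) (l 16768912)) (c (l 16764200) (l 16763992))) (a (l 16766416) (l 16758256))) (a (a (l 16755352) (l 16752448)) (l 16753344))) (a (a (a (l 16764400) (l 16758864)) (c (l 16754664) (l 16759544))) (a (l 16753904) (l 16742880)))) (a (a (b (c (l 16760496) (l 16757536)) (c (l 16750040) (l 16749624))) (b (c (l 16749464) (l 16749016)) (l 16749224))) (a (b (l 16748664) (l 16738160)) (c (l 16740608) (l 16739904))))), by decide +kernel⟩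

def k23_pm_011_t : ∃ t, chk3 f_pm_011_t t 38 60 1 = true :=
  ⟨(b (a (l 4) (b (a (l 4) (b (l 4) (a (l 4) (a (l 222499442119) (b (l 4) (l 72712457719)))))) (a (b (a (l 4) (a (l 4) (b (l 4) (l 181160379687)))) (a (b (l 211762022983) (a (a (l 116199002119) (l 63585652471)) (l 16776304))) (a (b (a (l 86671101879) (l 16776944)) (l 16774888)) (l 16774672)))) (b (b (a (c (l 174717929063) (l 178476025399)) (l 16778448)) (a (a (l 7751078039) (l 16775560)) (l 16773360))) (c (l 16771088) (l 16770968)))))) (a (b (a (b (l 4) (b (a (l 4) (a (l 210688280439) (a (l 90429198375) (l 16778312)))) (b (a (l 219815086247) (l 16778880)) (a (a (l 4) (l 16777056)) (l 16775040))))) (b (b (a (l 4) (a (a (l 201024603591) (l 89355456519)) (l 16779264))) (a (a (l 184918476199) (a (l 65196265271) (l 16776688))) (l 16774920))) (b (a (l 16775280) (l 16767128)) (l 16771272)))) (a (a (b (a (a (b (l 10972302935) (l 16769328)) (l 16776416)) (l 16774024)) (b (l 16765648) (l 16768320))) (b (l 16771824)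 (c (l 16766776) (l 16771824)))) (b (a (b (l 16770176) (l 16767608)) (l 16771216)) (a (l 16763760) (l 16760856))))) (a (b (b (a (l 16773264) (a (l 16765824) (l 16764360))) (a (a (l 16763648) (l 16767432)) (l 16770488))) (b (c (l 16767000) (l 16766704)) (l 16761760))) (b (b (a (c (l 16767512) (l 16767328)) (l 16764512)) (c (l 16761056) (l 16765992))) (b (l 16761080) (l 16750776)))))), by decide +kernel⟩

def k24_pm_011_t : ∃ t, chk3 f_pm_011_t t 39 60 1 = true :=
  ⟨(b (a (b (a (b (b (l 4) (a (l 4) (a (l 110830294071) (l 16776728)))) (a (b (a (l 194582152807) (l 51237622135)) (l 16775448)) (l 16773800))) (a (a (b (b (l 86134231815) (l 16775376)) (l 16766368)) (b (l 16775120) (l 16764904))) (c (l 16770512) (l 16770384)))) (b (a (c (l 16770312) (l 16770176)) (a (c (l 16765992) (l 16765776)) (l 16762976))) (a (a (c (l 16766760) (l 16766560)) (l 16763760)) (c (l 16764864) (l 16764520))))) (b (a (a (b (a (l 16765504) (l 16769288)) (l 16765040)) (b (l 16761848) (l 16762128)))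 (b (a (l 16764176) (l 16761272)) (l 16757784))) (a (b (l 16763872) (l 16753696)) (c (l 16755920) (l 16755400))))) (a (b (a (b (l 16762800) (l 16755152)) (c (l 16757448) (l 16756968))) (a (c (l 16753128) (l 16752568)) (l 16747216))) (b (a (c (l 16751848) (l 16751256)) (l 16745896)) (a (l 16736416) (l 16741384))))), by decide +kernel⟩

def k25_pm_011_t : ∃ t, chk3 f_pm_011_t t 19 61 1 = true :=
  ⟨(a (a (a (b (b (b (a (l 16769696) (l 16761536)) (c (l 16758024) (l 16762928))) (b (l 16757944) (l 16747528))) (b (c (l 16745304) (l 16744656)) (b (l 16731896) (l 16726640)))) (b (b (b (a (l 16758632) (l 16755744)) (l 16757312)) (c (l 16749904) (l 16749320))) (b (b (l 16736608) (l 16731408)) (l 16728160)))) (b (b (a (a (l 16755552) (l 16752688)) (b (l 16745704) (l 16740640))) (a (b (l 16741224) (l 16736088)) (l 16738248))) (b (a (l 16733584) (l 16722728)) (a (l 16728408) (l 16712344))))) (b (a (b (a (l 16742776) (l 16731968)) (a (l 16727416) (l 16721904))) (b (a (l 16726480)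 (l 16721080)) (a (l 16716480) (l 16711136)))) (a (b (c (l 16720280) (l 16724352)) (a (l 16706840) (l 16701416))) (b (a (l 16706344) (l 16701064)) (a (l 16696080) (l 16690744)))))), by decide +kernel⟩

def k26_pm_011_t : ∃ t, chk3 f_pm_011_t t 18 62 1 = true :=
  ⟨(a (a (b (a (a (b (b (a (b (a (l 16771608) (l 16770888)) (l 16768624)) (b (l 16769816) (l 16767192))) (b (l 16767904) (l 16762656))) (b (c (l 16758824) (l 16758608)) (l 16756064))) (b (b (b (a (l 16768376) (l 16766936)) (l 16765032)) (c (l 16763816) (l 16763616))) (b (l 16758448) (l 16750560)))) (b (b (a (c (l 16766176) (l 16766000)) (c (l 16760680) (l 16760464))) (a (l 16760168) (l 16760552))) (b (c (l 16754288) (l 16753960)) (c (l 16746424) (l 16746040))))) (b (a (b (c (l 16752160) (l 16751808)) (c (l 16741672) (l 16741272))) (b (c (l 16741184) (l 16740744)) (l 16740912))) (b (a (l 16741424) (l 16734272)) (b (a (l 16732168) (c (l 16737224) (l 16736632))) (a (a (l 16730984) (l 16728192)) (l 16723768))))))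 (b (b (a (b (a (l 16760296) (l 16754768)) (c (l 16756384) (l 16756040))) (b (c (l 16750600) (l 16750224)) (c (l 16745376) (l 16744928)))) (a (b (c (l 16745912) (l 16745496)) (l 16745664)) (b (l 16745112) (l 16734592)))) (b (a (b (l 16735144) (l 16729856)) (b (l 16729312) (l 16723968))) (b (b (a (l 16725832) (l 16727928)) (a (c (l 16734088) (l 16722928)) (l 16717392))) (a (l 16719264) (l 16713408)))))) (b (a (b (a (b (l 16749808) (l 16744544)) (b (l 16738720) (l 16733448))) (a (b (l 16734024) (l 16728744)) (b (l 16728168) (l 16722880)))) (b (a (c (l 16735888) (l 16735136)) (b (l 16727120) (l 16721840))) (a (b (l 16722344) (l 16717056)) (b (l 16716560) (l 16711200))))) (b (a (b (a (l 16723456) (l 16717528)) (b (a (l 16719424) (l 16724120)) (a (l 16727336) (l 16710960)))) (b (a (a (l 16713104) (l 16720760)) (c (l 16717176) (l 16716040))) (l 16703560))) (a (a (l 16715424) (l 16704312)) (c (l 16701480) (l 16694960)))))), by decide +kernel⟩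

def k27_pm_011_t : ∃ t, chk3 f_pm_011_t t 18 63 1 = true :=
  ⟨(b (a (b (a (a (b (l 16725616) (l 16720344)) (b (l 16719800) (l 16714512))) (a (l 16715224) (l 16710664))) (a (a (b (l 16715096) (l 16709864)) (b (l 16709232) (l 16703960))) (a (l 16705928) (l 16705256)))) (a (a (b (l 16699528) (l 16688848)) (b (l 16693640) (l 16682936))) (b (c (l 16685640) (l 16684192)) (c (l 16674984) (l 16673384))))) (a (b (a (b (a (l 16704664) (l 16698720)) (c (l 16707456) (l 16706536))) (b (l 16700272) (c (l 16685232) (l 16684040)))) (a (a (l 16691896) (l 16685936)) (l 16684888))) (b (a (b (a (l 16680848) (l 16674872)) (l 16683248)) (b (c (l 16666944) (l 16665216)) (l 16661024))) (a (l 16675680) (l 16653568))))), by decide +kernel⟩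

def k28_pm_011_t : ∃ t, chk3 f_pm_011_t t 19 31 1 = true :=
  ⟨(b (b (a (a (b (a (b (l 16721384) (l 16716104)) (l 16723544)) (b (a (l 16710824) (l 16705072)) (a (c (l 16716552) (l 16704864)) (c (l 16711144) (l 16699344))))) (b (a (l 16707432) (l 16707024)) (b (a (c (l 16700144) (l 16698776)) (l 16704600)) (l 16691464)))) (b (a (b (a (l 16699016) (l 16693536)) (a (l 16704184) (l 16709496))) (b (a (l 16688240) (l 16683248)) (l 16680480))) (a (l 16688424) (l 16672624)))) (a (a (b (a (l 16697600) (l 16691928)) (c (l 16684952) (l 16683392))) (b (c (l 16684376) (l 16682728)) (c (l 16673880) (l 16672048)))) (a (b (l 16677872) (l 16667264)) (b (l 16662096) (l 16651496))))) (b (a (a (b (c (l 16674368) (l 16672640)) (c (l 16663696) (l 16661800))) (b (c (l 16663336) (l 16661336)) (c (l 16652728) (l 16650552)))) (b (a (c (l 16652536) (l 16650256)) (l 16640840)) (a (c (l 16641896) (l 16639432)) (b (l 16632824) (l 16648440))))) (a (b (a (b (c (l 16655736) (l 16653720)) (l 16649712))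 (b (l 16643768) (l 16638800))) (a (l 16642296) (l 16631424))) (a (b (c (l 16632032) (l 16629448)) (l 16620968)) (b (l 16620272) (l 16610784)))))), by decide +kernel⟩

def k29_pm_011_t : ∃ t, chk3 f_pm_011_t t 10 28 1 = true :=
  ⟨(a (l 4) (b (l 4) (a (b (l 4) (a (l 4) (b (l 4) (a (b (l 4) (b (l 4) (l 168812349431))) (b (a (l 224110055415) (c (l 66806882439) (l 66806882391))) (c (l 16774536) (l 16777104))))))) (b (a (b (l 4) (a (l 4) (b (l 4) (l 219278216087)))) (a (b (l 4) (b (l 182770991303) (c (l 16775440) (l 16781304)))) (b (b (l 4) (a (l 225183794215) (l 16781152))) (b (l 16774272) (l 16769880))))) (a (b (a (b (l 4) (a (l 180086638935) (l 16779016))) (a (b (l 82376137015) (l 16773672)) (l 16773048))) (b (a (l 16773400) (l 16757240)) (l 16766016))) (a (b (l 16768824) (l 16749320)) (l 16761312))))))), by decide +kernel⟩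

def k30_pm_011_t : ∃ t, chk3 f_pm_011_t t 20 58 1 = true :=
  ⟨(a (l 4) (b (a (l 4) (b (l 4) (a (l 4) (b (l 4) (a (l 220888829847) (a (l 94724166823) (l 16780704))))))) (a (b (a (l 4) (b (l 4) (a (l 4) (l 191360928695)))) (a (b (a (l 4) (l 226794410279)) (a (b (l 4) (l 77007425527)) (b (l 56069462055) (l 16774920)))) (b (a (b (l 197803378935) (l 16779296)) (l 16775024)) (l 16771728)))) (b (a (b (a (l 4) (b (l 4) (l 65733138695))) (b (a (l 90429201015) (l 16775200)) (l 16774256))) (a (b (l 16780016) (l 16760600)) (l 16770544))) (a (l 16768288) (b (l 16754368) (l 16760104))))))), by decide +kernel⟩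

def k31_pm_011_t : ∃ t, chk3 f_pm_011_t t 20 59 1 = true :=
  ⟨(a (b (a (b (l 4) (a (b (l 4) (a (l 4) (c (l 195119025351) (l 198877121655)))) (a (b (l 4) (b (a (l 4) (l 16779272)) (l 16775912))) (b (c (l 169886089815) (b (l 4) (l 80765522903))) (l 16774240))))) (b (a (b (l 4) (a (l 4) (a (l 174181058231) (b (l 143579419431) (l 16776192))))) (b (b (a (l 4) (l 99019134631)) (a (l 183307863815) (l 16775896))) (a (c (l 16775184) (l 16777760)) (l 16772288)))) (b (b (a (a (a (l 108145939383) (l 16776640)) (l 16774512)) (l 16764856)) (a (l 16773520) (l 16762424))) (a (l 16769848) (a (l 16765472) (l 16762576)))))) (b (b (a (a (b (a (l 202098346359) (l 16778960)) (a (a (l 74323071751) (l 16776152)) (l 16773976))) (l 16770792)) (a (a (l 16766408) (l 16763504)) (l 16759176))) (a (a (l 16771728) (a (l 16767328) (l 16764416))) (a (l 16765320) (l 16754352)))) (a (a (b (a (l 16763000) (l 16765320)) (l 16767088)) (b (l 16766208) (l 16756080))) (a (c (l 16758272) (l 16757800))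 (l 16752376))))) (b (b (b (a (a (l 16772736) (c (l 16756536) (l 16761592))) (a (l 16753288) (l 16755400))) (a (a (c (l 16762752) (l 16759960)) (a (l 16763568) (l 16760704))) (a (l 16756424) (l 16750720)))) (a (a (b (a (l 16764528) (l 16761648)) (l 16758272)) (c (l 16765680) (l 16760024))) (a (l 16754600) (l 16743736)))) (a (b (a (l 16756328) (l 16745504)) (a (l 16741560) (l 16736072))) (b (c (l 16748080) (l 16747360)) (l 16733200))))), by decide +kernel⟩

def k32_pm_011_t : ∃ t, chk3 f_pm_011_t t 21 29 1 = true :=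
  ⟨(b (b (b (a (a (a (l 4) (b (l 212835764663) (a (a (l 122641457063) (l 64122526855)) (l 16775368)))) (a (a (b (c (l 16780832) (l 49090139239)) (l 16772544)) (l 16771976)) (l 16767680))) (a (a (c (l 16751624) (l 16751384)) (l 16745856)) (a (l 16750736) (l 16745176)))) (a (a (a (b (a (l 180623509927) (a (l 52311366407) (l 16775776))) (l 16773288)) (l 16769864)) (a (a (l 16755064) (l 16752208)) (c (l 16748096) (l 16747784)))) (a (a (l 16752776) (l 16747176)) (l 16749336)))) (b (a (a (b (l 16765696) (a (l 16753344) (l 16758096))) (a (b (l 16757104) (l 16752408)) (l 16749096))) (a (l 16745952) (l 16729680))) (a (a (a (a (l 16758152) (l 16755288)) (l 16761504)) (c (l 16753352) (l 16752752))) (a (l 16741944) (l 16720528))))) (b (b (a (a (a (l 16747352) (l 16741712)) (l 16743824)) (a (l 16722344) (l 16711512))) (a (a (a (l 16738128) (l 16732544)) (l 16724256)) (a (l 16713376) (l 16702664)))) (a (a (b (l 16736720) (l 16727656)) (b (l 16715296) (l 16706440))) (a (b (l 16704536)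 (l 16695800)) (l 16700104))))), by decide +kernel⟩

def k33_pm_011_t : ∃ t, chk3 f_pm_011_t t 11 14 1 = true :=
  ⟨(a (b (b (a (b (a (l 4) (l 4)) (a (b (l 4) (a (l 260080402839) (b (l 209077665559) (a (l 64122528119) (l 16774792))))) (a (a (b (l 275112786695) (l 16774112)) (b (l 183307861303) (l 16771368))) (b (a (b (l 121567717159) (l 16775024)) (l 16774336)) (l 16767176))))) (b (a (a (b (l 4) (b (l 236458080343) (l 38352720887))) (b (l 211762017399) (l 16778360))) (a (b (b (l 78618043799) (l 16773928)) (l 16767624)) (l 16766304))) (a (b (l 16767432) (l 16758856)) (l 16752120)))) (a (a (b (b (a (a (b (l 105998460375) (l 16774488)) (l 16773824)) (l 16769656)) (l 16763656)) (a (b (l 16747096) (l 16748640)) (b (l 16752008) (l 16743112)))) (b (c (l 16757048) (l 16762008)) (b (a (l 16746480) (l 16740984)) (l 16734880)))) (a (b (b (a (l 16752968) (l 16747472)) (l 16752016)) (a (l 16741600) (l 16725696))) (b (b (l 16739280) (l 16730648)) (l 16728104))))) (a (b (b (a (b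 (l 16747384) (l 16727880)) (c (l 16732424) (l 16731576))) (a (b (l 16718800) (l 16709744)) (l 16714056))) (b (a (l 16706920) (l 16685944)) (a (l 16679224) (l 16668960)))) (b (b (a (l 16721248) (l 16700128)) (a (l 16692992) (l 16682520))) (b (a (l 16675560) (l 16665280)) (a (l 16658800) (l 16648736)))))) (a (b (b (b (a (l 16760672) (l 16747136)) (c (l 16746576) (l 16746064))) (b (a (b (l 16728472) (l 16719904)) (l 16734512)) (b (l 16716488) (l 16718368)))) (b (b (c (l 16706080) (l 16704720)) (a (l 16672184) (l 16661984))) (b (l 16671088) (l 16654856)))) (b (b (a (c (l 16738760) (l 16738192)) (b (b (l 16729592) (l 16721456)) (l 16709136))) (b (a (l 16702992) (l 16692528)) (l 16696632))) (b (b (l 16684912) (l 16646920)) (b (l 16630336) (l 16635312)))))), by decide +kernel⟩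

def k34_pm_011_t : ∃ t, chk3 f_pm_011_t t 10 30 1 = true :=
  ⟨(a (b (b (b (a (a (a (b (l 16756936) (l 16752040)) (b (l 16751208) (l 16746344))) (a (l 16743128) (l 16737560))) (a (a (l 16732072) (l 16726680)) (l 16729200))) (a (a (a (l 16749960) (l 16739080)) (a (l 16733520) (l 16728032))) (a (l 16726536) (l 16709496)))) (a (a (b (a (l 16735016) (l 16729448)) (c (l 16733616) (l 16732576))) (b (a (l 16723952) (l 16718536)) (l 16716976))) (a (b (l 16721096) (l 16701248)) (b (l 16700288) (l 16691088))))) (b (a (a (b (a (l 16715712) (l 16710312)) (a (l 16705896) (l 16700696))) (b (l 16712752) (l 16692792))) (a (b (l 16691904) (l 16682528)) (b (l 16681888) (l 16672480)))) (a (b (a (l 16703824) (a (l 16685776) (l 16680552))) (a (b (l 16685624) (a (l 16683104) (l 16678296))) (b (a (l 16678296) (l 16673560)) (l 16670824)))) (b (a (a (l 16696328) (l 16691520)) (b (l 16686680) (l 16660976))) (a (l 16663496) (l 16653896)))))) (b (a (b (a (b (l 16708152) (l 16699120)) (b (l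 16697624) (l 16688816))) (a (b (l 16690096) (l 16681064)) (l 16686048))) (b (a (l 16693328) (l 16672560)) (a (l 16665616) (l 16665984)))) (b (a (a (b (l 16672008) (c (l 16684792) (l 16682752))) (b (l 16662088) (l 16674560))) (b (a (l 16673496) (l 16643288)) (l 16639256))) (a (b (l 16670040) (l 16660864)) (a (l 16630680) (l 16621608)))))), by decide +kernel⟩

def k35_pm_011_t : ∃ t, chk3 f_pm_011_t t 10 31 1 = true :=
  ⟨(a (a (b (b (a (b (l 16672896) (l 16662480)) (b (l 16663144) (l 16652800))) (a (b (l 16651992) (l 16641416)) (b (l 16642360) (l 16631840)))) (b (b (a (l 16630784) (l 16621240)) (a (b (l 16622760) (l 16617552)) (b (l 16613240) (l 16608232)))) (a (b (l 16610448) (l 16601032)) (b (l 16601200) (l 16591872))))) (b (b (a (b (l 16653672) (l 16643584)) (l 16660376)) (a (b (l 16633264) (l 16622816)) (b (l 16624472) (l 16614208)))) (b (b (a (l 16612264) (l 16603760)) (a (b (l 16604248) (l 16599480)) (l 16614680))) (a (l 16598448) (l 16579904))))) (b (a (b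 (a (l 16630296) (l 16621328)) (a (l 16610664) (l 16602064))) (b (a (l 16612480) (l 16603728)) (a (l 16593576) (l 16585176)))) (b (a (b (a (l 16595400) (l 16587072)) (a (l 16585656) (l 16577680))) (b (a (l 16578808) (l 16570712)) (l 16565856))) (a (a (l 16572040) (l 16564280)) (l 16573752))))), by decide +kernel⟩

def k36_pm_011_t : ∃ t, chk3 f_pm_011_t t 11 15 1 = true :=
  ⟨(b (b (b (a (a (a (l 16662432) (l 16652424)) (a (l 16642512) (l 16632520))) (a (a (l 16643736) (l 16634384)) (b (l 16624144) (l 16595584)))) (a (a (b (l 16660648) (a (l 16641672) (l 16632304))) (b (a (l 16630448) (l 16621064)) (l 16617808))) (a (l 16602872) (l 16584480)))) (a (a (b (l 16645656) (l 16629000)) (b (l 16606024) (l 16590008))) (a (b (l 16587704) (l 16572288)) (b (l 16569856) (l 16555024))))) (a (b (a (b (l 16611680) (l 16593664)) (b (l 16573408) (l 16556136))) (a (b (b (l 16579776) (l 16550272)) (l 16537592)) (b (b (l 16543048) (l 16534768)) (l 16522416)))) (b (a (b (l 16556328)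 (l 16539688)) (b (l 16539704) (l 16523680))) (b (a (l 16523552) (l 16508160)) (a (l 16507360) (l 16492648)))))), by decide +kernel⟩

def k37_pm_011_t : ∃ t, chk3 f_pm_011_t t 6 12 1 = true :=
  ⟨(a (b (l 4) (a (l 4) (b (l 4) (a (l 4) (b (l 4) (a (b (l 4) (l 231089356519)) (b (a (l 4) (b (l 1) (l 66270014455))) (a (b (l 112977786487) (l 16775776)) (l 16772168))))))))) (b (l 1) (a (b (l 1) (a (b (l 1) (a (b (l 1) (l 16764024)) (l 1))) (l 1))) (l 1)))), by decide +kernel⟩

def k38_pm_011_t : ∃ t, chk3 f_pm_011_t t 6 13 1 = true :=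
  ⟨(a (b (a (b (l 4) (a (b (l 4) (a (l 4) (b (l 4) (a (l 241289911351) (b (l 100092883847) (l 16775088)))))) (b (a (b (l 4) (l 234847456615)) (b (a (l 4) (b (l 223573174743) (l 16776368))) (a (a (l 59827564791) (l 16774704)) (l 16770528)))) (a (b (a (l 164517376215) (l 16773816)) (l 16768712)) (b (l 16765448) (l 16757568)))))) (b (a (b (a (l 4) (b (l 4) (a (l 4) (b (l 227331269479) (l 56606337495))))) (a (b (l 235384325095) (a (l 195119015911) (b (l 48016402327) (l 16773040)))) (a (b (b (l 99556012727) (l 16775176)) (l 16769408)) (l 16767720)))) (b (b (a (a (l 210151400023) (b (l 62511917863) (l 16773800))) (l 16767448)) (a (a (l 16773640) (l 16768136)) (l 16759936))) (a (b (l 16763288) (l 16755632)) (l 16748568)))) (a (b (a (b (l 16775224) (l 16762168)) (l 16765488)) (c (l 16760704) (l 16765792))) (b (c (l 16759672) (l 16738544)) (l 16744120))))) (a (a (b (b (a (b (a (l 4) (l 189213437047)) (a (b (l 119957108407) (l 16775808)) (l 16772280))) (b (a (c (l 16779928)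 (l 16774648)) (l 16769144)) (l 16763952))) (a (b (l 16767048) (l 16759016)) (l 16751984))) (b (a (l 16746960) (l 16736040)) (l 16735976))) (b (b (a (l 16767312) (l 16745760)) (l 16745992)) (a (l 16738208) (l 16706480)))) (b (a (a (l 16747896) (l 16737040)) (b (l 16707712) (l 16692328))) (a (l 16711424) (l 16669352))))) (b (a (b (b (a (a (l 16763352) (l 16742208)) (l 1)) (a (l 16748224) (l 16711656))) (a (c (l 16730704) (l 16730400)) (l 16709904))) (b (l 1) (a (l 16689688) (l 1)))) (a (b (a (l 16699960) (l 16658576)) (b (l 16667072) (l 16641592))) (b (a (l 16638608) (l 16639784)) (a (l 16629800) (l 16589344)))))), by decide +kernel⟩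

def k39_pm_011_t : ∃ t, chk3 f_pm_011_t t 7 6 1 = true :=
  ⟨(b (l 1) (a (a (a (a (b (l 1) (l 16605024)) (l 1)) (l 1)) (l 1)) (l 1))), by decide +kernel⟩

def k40_pm_011_t : ∃ t, chk3 f_pm_011_t t 3 7 1 = true :=
  ⟨(a (b (a (b (a (b (c (a (c (l 16712440) (l 16722536)) (l 16680776)) (a (l 16721936) (b (l 16687880) (l 16671912)))) (a (b (l 16697928) (l 16660440)) (b (l 16656392) (l 16640224)))) (b (b (b (l 16681712) (l 16663552)) (a (l 16651736) (l 16631264))) (a (b (l 16636008) (l 16620168)) (l 16629000)))) (b (a (a (b (l 16643816) (l 16627168)) (b (l 16623968) (l 16607696))) (a (l 16617168) (b (l 16584704) (l 16569032)))) (a (a (b (l 16610976) (b (l 16599240) (l 16591936))) (b (l 16591744) (l 16598112))) (a (b (l 16572920) (l 16558424)) (b (l 16554264) (l 16539960)))))) (b (a (b (a (b (l 16626168) (l 16611096)) (l 16619736)) (a (l 16588240) (l 16568800))) (b (a (l 16579344) (l 16560200)) (a (l 16549744) (l 16530912)))) (a (b (a (b (l 16565328) (l 16550048)) (b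 (l 16546160) (l 16531344))) (a (l 16528336) (l 16509936))) (b (a (l 16541064) (l 16501752)) (a (l 16491832) (l 6)))))) (a (b (b (a (a (l 16594544) (l 16555624)) (a (l 16537808) (l 16519984))) (a (a (l 16566216) (l 16528368)) (a (l 16511584) (l 16494712)))) (a (b (b (a (l 16523448) (l 16507480)) (a (l 16508128) (l 6))) (a (b (l 16493264) (l 6)) (l 6))) (b (l 6) (l 6)))) (b (a (b (a (l 16502160) (l 16484424)) (l 6)) (l 6)) (l 6)))) (b (a (b (a (b (a (l 16541232) (l 16522368)) (c (l 16567256) (l 16522832))) (b (l 1) (l 6))) (a (b (c (l 16476112) (l 16472912)) (l 6)) (l 6))) (l 6)) (l 6))), by decide +kernel⟩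

theorem s41_pm_011_t : ∃ t, chk3 f_pm_011_t t 6 6 1 = true := ex3_b k37_pm_011_t k38_pm_011_t

theorem s42_pm_011_t : ∃ t, chk3 f_pm_011_t t 3 6 1 = true := ex3_a s41_pm_011_t k39_pm_011_t

theorem s43_pm_011_t : ∃ t, chk3 f_pm_011_t t 3 3 1 = true := ex3_b s42_pm_011_t k40_pm_011_t

theorem s44_pm_011_t : ∃ t, chk3 f_pm_011_t t 10 15 1 = true := ex3_b k34_pm_011_t k35_pm_011_t

theorem s45_pm_011_t : ∃ t, chk3 f_pm_011_t t 5 15 1 = true := ex3_a s44_pm_011_t k36_pm_011_t

theorem s46_pm_011_t : ∃ t, chk3 f_pm_011_t t 20 29 1 = true := ex3_b k30_pm_011_t k31_pm_011_t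

theorem s47_pm_011_t : ∃ t, chk3 f_pm_011_t t 10 29 1 = true := ex3_a s46_pm_011_t k32_pm_011_t

theorem s48_pm_011_t : ∃ t, chk3 f_pm_011_t t 10 14 1 = true := ex3_b k29_pm_011_t s47_pm_011_t

theorem s49_pm_011_t : ∃ t, chk3 f_pm_011_t t 5 14 1 = true := ex3_a s48_pm_011_t k33_pm_011_t

theorem s50_pm_011_t : ∃ t, chk3 f_pm_011_t t 5 7 1 = true := ex3_b s49_pm_011_t s45_pm_011_t

theorem s51_pm_011_t : ∃ t, chk3 f_pm_011_t t 18 31 1 = true := ex3_b k26_pm_011_t k27_pm_011_t

theorem s52_pm_011_t : ∃ t, chk3 f_pm_011_t t 9 31 1 = true := ex3_a s51_pm_011_t k28_pm_011_t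

theorem s53_pm_011_t : ∃ t, chk3 f_pm_011_t t 19 60 1 = true := ex3_a k23_pm_011_t k24_pm_011_t

theorem s54_pm_011_t : ∃ t, chk3 f_pm_011_t t 19 30 1 = true := ex3_b s53_pm_011_t k25_pm_011_t

theorem s55_pm_011_t : ∃ t, chk3 f_pm_011_t t 37 61 1 = true := ex3_b k21_pm_011_t k22_pm_011_t

theorem s56_pm_011_t : ∃ t, chk3 f_pm_011_t t 36 123 1 = true := ex3_a k19_pm_011_t k20_pm_011_t

theorem s57_pm_011_t : ∃ t, chk3 f_pm_011_t t 36 61 1 = true := ex3_b k18_pm_011_t s56_pm_011_t

theorem s58_pm_011_t : ∃ t, chk3 f_pm_011_t t 18 61 1 = true := ex3_a s57_pm_011_t s55_pm_011_t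

theorem s59_pm_011_t : ∃ t, chk3 f_pm_011_t t 18 30 1 = true := ex3_b k17_pm_011_t s58_pm_011_t

theorem s60_pm_011_t : ∃ t, chk3 f_pm_011_t t 9 30 1 = true := ex3_a s59_pm_011_t s54_pm_011_t

theorem s61_pm_011_t : ∃ t, chk3 f_pm_011_t t 9 15 1 = true := ex3_b s60_pm_011_t s52_pm_011_t

theorem s62_pm_011_t : ∃ t, chk3 f_pm_011_t t 71 124 1 = true := ex3_a k13_pm_011_t k14_pm_011_t

theorem s63_pm_011_t : ∃ t, chk3 f_pm_011_t t 70 249 1 = true := ex3_b k11_pm_011_t k12_pm_011_t

theorem s64_pm_011_t : ∃ t, chk3 f_pm_011_t t 70 124 1 = true := ex3_b k10_pm_011_t s63_pm_011_t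

theorem s65_pm_011_t : ∃ t, chk3 f_pm_011_t t 35 124 1 = true := ex3_a s64_pm_011_t s62_pm_011_t

theorem s66_pm_011_t : ∃ t, chk3 f_pm_011_t t 35 62 1 = true := ex3_b s65_pm_011_t k15_pm_011_t

theorem s67_pm_011_t : ∃ t, chk3 f_pm_011_t t 69 250 1 = true := ex3_b k7_pm_011_t k8_pm_011_t

theorem s68_pm_011_t : ∃ t, chk3 f_pm_011_t t 69 125 1 = true := ex3_b s67_pm_011_t k9_pm_011_t

theorem s69_pm_011_t : ∃ t, chk3 f_pm_011_t t 34 125 1 = true := ex3_a k6_pm_011_t s68_pm_011_t

theorem s70_pm_011_t : ∃ t, chk3 f_pm_011_t t 34 62 1 = true := ex3_b k5_pm_011_t s69_pm_011_t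

theorem s71_pm_011_t : ∃ t, chk3 f_pm_011_t t 17 62 1 = true := ex3_a s70_pm_011_t s66_pm_011_t

theorem s72_pm_011_t : ∃ t, chk3 f_pm_011_t t 17 31 1 = true := ex3_b s71_pm_011_t k16_pm_011_t

theorem s73_pm_011_t : ∃ t, chk3 f_pm_011_t t 8 31 1 = true := ex3_a k4_pm_011_t s72_pm_011_t

theorem s74_pm_011_t : ∃ t, chk3 f_pm_011_t t 8 15 1 = true := ex3_b k3_pm_011_t s73_pm_011_t

theorem s75_pm_011_t : ∃ t, chk3 f_pm_011_t t 4 15 1 = true := ex3_a s74_pm_011_t s61_pm_011_t

theorem s76_pm_011_t : ∃ t, chk3 f_pm_011_t t 4 7 1 = true := ex3_b k2_pm_011_t s75_pm_011_t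

theorem s77_pm_011_t : ∃ t, chk3 f_pm_011_t t 2 7 1 = true := ex3_a s76_pm_011_t s50_pm_011_t

theorem s78_pm_011_t : ∃ t, chk3 f_pm_011_t t 2 3 1 = true := ex3_b k1_pm_011_t s77_pm_011_t

theorem s79_pm_011_t : ∃ t, chk3 f_pm_011_t t 1 3 1 = true := ex3_a s78_pm_011_t s43_pm_011_t

theorem s80_pm_011_t : ∃ t, chk3 f_pm_011_t t 1 1 1 = true := ex3_b k0_pm_011_t s79_pm_011_t

theorem c_pm_011_t : CertNE 0 536870912 536870912 536870912 780900216 37827925 3 eng mog cd0q0 cd0q1 pd1 false true false .pnn 0 1 1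
    ndB0q0 ndB0q1 pcB1 cut_pm_011_t Ext.none :=
  certNE0 (fam := false) (s1 := true) (s2 := false) (a := 0) (b := 1) (c := 1) (cn := .pnn) (n1 := ndB0q0) (n2 := ndB0q1) (pc := pcB1) (cut := cut_pm_011_t) (xt := Ext.none) (P1 := 0) (W1 := 536870912) (P2 := 536870912) (W2 := 536870912) (P3 := 780900216) (W3 := 37827925) (N0 := 3) (En := eng) (mo := mog) (C1 := cd0q0) (C2 := cd0q1) (C3 := pd1)
    rfl s80_pm_011_t

noncomputable def cut_pm_012_s : Cut := Cut.of [[⟨4, 0, 0, 1449551462⟩], [⟨0, 0, 0, 67108864⟩, ⟨1, 1, 0, 67108864⟩, ⟨2, 1, 0, 67108864⟩]]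

noncomputable def f_pm_012_s : ℕ → ℕ → ℕ → ℕ → Bool := onCell 0 536870912 0 536870912 780900216 37827925
    (rowNE 3 eng mog cd0q0 cd0q2 pd1 0 false true false .pnp 0 1 2 (qsf 0 536870912 0 536870912 1) ndB0q0 ndB0q2 pcB1 cut_pm_012_s Ext.none)

def k0_pm_012_s : ∃ t, chk3 f_pm_012_s t 1 1 1 = true :=
  ⟨(a (l 6) (b (a (b (a (l 6) (a (l 6) (b (c (l 16619112) (l 16566304)) (l 6)))) (l 6)) (b (a (b (a (c (b (l 16592128) (l 6)) (l 16635736)) (c (b (l 16618472) (l 16595776)) (l 16663264))) (l 6)) (a (b (b (a (l 16657616) (b (l 16655568) (l 16643720))) (l 16660008)) (a (l 16578608) (l 16590400))) (b (b (a (l 16705216) (l 16679440)) (a (l 16639088) (b (l 16658528) (l 16646408)))) (b (l 16620736) (l 16597048))))) (l 6))) (l 6))), by decide +kernel⟩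

theorem c_pm_012_s : CertNE 0 536870912 0 536870912 780900216 37827925 3 eng mog cd0q0 cd0q2 pd1 false true false .pnp 0 1 2
    ndB0q0 ndB0q2 pcB1 cut_pm_012_s Ext.none :=
  certNE0 (fam := false) (s1 := true) (s2 := false) (a := 0) (b := 1) (c := 2) (cn := .pnp) (n1 := ndB0q0) (n2 := ndB0q2) (pc := pcB1) (cut := cut_pm_012_s) (xt := Ext.none) (P1 := 0) (W1 := 536870912) (P2 := 0) (W2 := 536870912) (P3 := 780900216) (W3 := 37827925) (N0 := 3) (En := eng) (mo := mog) (C1 := cd0q0) (C2 := cd0q2) (C3 := pd1)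
    rfl k0_pm_012_s

noncomputable def cut_pm_012_t : Cut := Cut.of [[⟨3, 0, 0, 2845415833⟩], [⟨0, 0, 0, 67108864⟩, ⟨1, 1, 0, 67108864⟩, ⟨2, 1, 0, 67108864⟩]]

noncomputable def f_pm_012_t : ℕ → ℕ → ℕ → ℕ → Bool := onCell 0 536870912 0 536870912 780900216 37827925
    (rowNE 3 eng mog cd0q0 cd0q2 pd1 0 false true false .pnp 0 1 2 (qsf 0 536870912 0 536870912 1) ndB0q0 ndB0q2 pcB1 cut_pm_012_t Ext.none)

def k0_pm_012_t : ∃ t, chk3 f_pm_012_t t 1 2 1 = true :=
  ⟨(l 6), by decide +kernel⟩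

def k1_pm_012_t : ∃ t, chk3 f_pm_012_t t 4 3 1 = true :=
  ⟨(b (a (l 2) (a (a (a (l 2) (l 6)) (l 6)) (l 6))) (b (a (a (l 2) (b (a (l 2) (a (l 2) (b (l 2) (b (a (l 2) (l 16539336)) (l 16552920))))) (a (l 14) (a (l 14) (a (l 14) (b (l 16572920) (l 16599800))))))) (a (b (a (b (a (b (l 16512624) (l 16525912)) (b (l 16513176) (l 16526088))) (a (b (l 16539192) (l 16552360)) (l 16545480))) (b (a (l 16520064) (l 6)) (l 16526520))) (a (b (a (l 16572112) (l 16571024)) (a (l 16598456) (l 16596656))) (b (l 16548360) (a (l 16594856) (l 16592912))))) (b (a (b (l 6) (l 16543280)) (l 6)) (a (b (l 16566296) (l 16589584)) (b (l 16562248) (l 16584640)))))) (a (a (l 14) (a (l 14) (a (l 14) (a (l 14) (b (b (l 16627480) (b (l 16648976) (l 16663832))) (b (l 16686848) (b (l 16691312) (l 16692208)))))))) (b (a (a (b (b (l 16617464) (l 16610144)) (b (l 16645128) (l 16659488))) (b (l 16598248) (l 16645936))) (b (a (l 16613920) (l 16607880)) (a (l 16632184) (l 16613080)))) (a (b (a (b (l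 16674184) (l 16671560)) (a (l 16639096) (l 16628056))) (a (a (b (l 16683240) (b (l 16683728) (l 16683840))) (b (l 16672072) (b (l 16672136) (l 16672048)))) (b (a (l 16660544) (l 16649192)) (a (b (l 16660464) (l 16660288)) (l 16648864))))) (b (a (b (l 16632936) (l 16633048)) (l 16614560)) (b (a (l 16632824) (l 16612536)) (a (a (l 16637696) (l 16626936)) (a (l 16616624) (l 16606704)))))))))), by decide +kernel⟩

def k2_pm_012_t : ∃ t, chk3 f_pm_012_t t 5 3 1 = true :=
  ⟨(b (l 6) (a (b (b (l 6) (a (a (l 16567744) (l 16559760)) (l 6))) (b (a (b (l 16588144) (a (l 16596032) (l 16581072))) (b (l 16561864) (l 16560496))) (a (b (a (l 16595392) (l 16579528)) (b (a (l 16593976) (l 16577488)) (a (a (l 16597112) (l 16588080)) (a (l 16579688) (l 16571816))))) (b (a (l 16565040) (l 16550904)) (a (b (l 16562488) (l 16560344)) (b (l 16547848) (l 16545376))))))) (b (l 6) (b (l 6) (a (b (a (l 16536952) (l 6)) (a (l 16553000) (l 16517416))) (b (l 6) (a (l 16502912) (l 6)))))))),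 by decide +kernel⟩

def k3_pm_012_t : ∃ t, chk3 f_pm_012_t t 3 3 1 = true :=
  ⟨(a (l 6) (l 6)), by decide +kernel⟩

theorem s4_pm_012_t : ∃ t, chk3 f_pm_012_t t 2 3 1 = true := ex3_a k1_pm_012_t k2_pm_012_t

theorem s5_pm_012_t : ∃ t, chk3 f_pm_012_t t 1 3 1 = true := ex3_a s4_pm_012_t k3_pm_012_t

theorem s6_pm_012_t : ∃ t, chk3 f_pm_012_t t 1 1 1 = true := ex3_b k0_pm_012_t s5_pm_012_t

theorem c_pm_012_t : CertNE 0 536870912 0 536870912 780900216 37827925 3 eng mog cd0q0 cd0q2 pd1 false true false .pnp 0 1 2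
    ndB0q0 ndB0q2 pcB1 cut_pm_012_t Ext.none :=
  certNE0 (fam := false) (s1 := true) (s2 := false) (a := 0) (b := 1) (c := 2) (cn := .pnp) (n1 := ndB0q0) (n2 := ndB0q2) (pc := pcB1) (cut := cut_pm_012_t) (xt := Ext.none) (P1 := 0) (W1 := 536870912) (P2 := 0) (W2 := 536870912) (P3 := 780900216) (W3 := 37827925) (N0 := 3) (En := eng) (mo := mog) (C1 := cd0q0) (C2 := cd0q2) (C3 := pd1)
    rfl s6_pm_012_t

noncomputable def cut_pm_022_s : Cut := Cut.of [[⟨4, 0, 0, 1449551462⟩], [⟨0, 0, 0, 67108864⟩, ⟨1, 1, 0, 67108864⟩, ⟨2, 1, 0, 67108864⟩]]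

noncomputable def f_pm_022_s : ℕ → ℕ → ℕ → ℕ → Bool := onCell 1073741824 536870912 0 536870912 780900216 37827925
    (rowNE 3 eng mog cd0q0 cd0q2 pd2 2 false true false .pp 0 2 2 (qsf 0 536870912 0 536870912 2) ndB0q0 ndB0q2 pcB2 cut_pm_022_s Ext.none)

def k0_pm_022_s : ∃ t, chk3 f_pm_022_s t 1 1 1 = true :=
  ⟨(l 6), by decide +kernel⟩

theorem c_pm_022_s : CertNE 0 536870912 0 536870912 780900216 37827925 3 eng mog cd0q0 cd0q2 pd2 false true false .pp 0 2 2
    ndB0q0 ndB0q2 pcB2 cut_pm_022_s Ext.none :=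
  certNE2 (fam := false) (s1 := true) (s2 := false) (a := 0) (b := 2) (c := 2) (cn := .pp) (n1 := ndB0q0) (n2 := ndB0q2) (pc := pcB2) (cut := cut_pm_022_s) (xt := Ext.none) (P1 := 0) (W1 := 536870912) (P2 := 0) (W2 := 536870912) (P3 := 780900216) (W3 := 37827925) (N0 := 3) (En := eng) (mo := mog) (C1 := cd0q0) (C2 := cd0q2) (C3 := pd2)
    rfl (fun _ => rfl) k0_pm_022_s

noncomputable def cut_pm_022_t : Cut := Cut.of [[⟨3, 0, 0, 2845415833⟩], [⟨0, 0, 0, 67108864⟩, ⟨1, 1, 0, 67108864⟩, ⟨2, 1, 0, 67108864⟩]]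

noncomputable def f_pm_022_t : ℕ → ℕ → ℕ → ℕ → Bool := onCell 0 536870912 0 536870912 780900216 37827925
    (rowNE 3 eng mog cd0q0 cd0q2 pd2 0 false true false .pp 0 2 2 (qsf 0 536870912 0 536870912 2) ndB0q0 ndB0q2 pcB2 cut_pm_022_t Ext.none)

def k0_pm_022_t : ∃ t, chk3 f_pm_022_t t 1 1 1 = true :=
  ⟨(a (b (l 6) (a (b (b (l 6) (b (a (a (a (a (b (l 16546424) (l 16585728)) (b (l 6) (l 16568856))) (b (l 6) (l 16530624))) (l 6)) (l 6)) (a (a (a (b (a (a (l 16591824) (l 16575624)) (l 16551040)) (a (b (l 16604944) (a (l 16589032) (l 16593736))) (b (l 16593120) (l 16600496)))) (b (a (l 16591112) (l 16590248)) (b (l 16605672) (l 16591984)))) (a (a (b (l 16573448) (l 16584168)) (b (l 16556328) (l 16566160))) (b (l 6) (a (l 16547856) (c (l 16534984) (l 16523248)))))) (a (l 6) (l 1))))) (a (b (a (b (b (a (a (b (a (l 16596728) (l 16601400)) (a (l 16625688) (l 16609360))) (c (l 16611736) (l 16570520))) (a (l 16620416) (l 16613896))) (b (a (a (a (l 16623768) (l 16617896))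 (l 16593064)) (a (l 16632800) (l 16622712))) (l 14))) (l 14)) (b (b (a (a (a (l 16599992) (l 16590608)) (c (l 16580336) (l 16572216))) (a (b (l 16554784) (l 16559448)) (b (l 16535504) (l 16539696)))) (b (a (a (l 16603408) (l 16583784)) (a (l 16563856) (a (l 16548720) (l 16538536)))) (a (l 14) (a (l 14) (a (l 14) (l 16541952)))))) (a (l 14) (a (l 14) (a (l 14) (l 1)))))) (a (l 14) (a (l 14) (l 1)))) (b (a (b (a (b (a (b (l 56404477975) (c (l 16526568) (l 16512456))) (b (l 16496120) (l 1))) (a (b (l 16523128) (l 1)) (l 1))) (l 1)) (l 1)) (l 1)) (l 1)))) (b (l 1) (l 1)))) (l 1)), by decide +kernel⟩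

theorem c_pm_022_t : CertNE 0 536870912 0 536870912 780900216 37827925 3 eng mog cd0q0 cd0q2 pd2 false true false .pp 0 2 2
    ndB0q0 ndB0q2 pcB2 cut_pm_022_t Ext.none :=
  certNE0 (fam := false) (s1 := true) (s2 := false) (a := 0) (b := 2) (c := 2) (cn := .pp) (n1 := ndB0q0) (n2 := ndB0q2) (pc := pcB2) (cut := cut_pm_022_t) (xt := Ext.none) (P1 := 0) (W1 := 536870912) (P2 := 0) (W2 := 536870912) (P3 := 780900216) (W3 := 37827925) (N0 := 3) (En := eng) (mo := mog) (C1 := cd0q0) (C2 := cd0q2) (C3 := pd2)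
    rfl k0_pm_022_t

noncomputable def cut_pm_101_s : Cut := Cut.of [[⟨4, 0, 0, 1449551462⟩], [⟨0, 1, 0, 53687091⟩, ⟨1, 0, 0, 53687091⟩, ⟨2, 1, 0, 53687091⟩], [⟨0, 0, 1, 26214400⟩, ⟨1, 1, 2, 26214400⟩, ⟨2, 1, 0, 33554432⟩]]

noncomputable def f_pm_101_s : ℕ → ℕ → ℕ → ℕ → Bool := onCell 536870912 536870912 536870912 536870912 780900216 37827925
    (rowNE 3 eng mog cd0q1 cd0q1 pd0 0 false true false .npn 1 0 1 (qsf 536870912 536870912 536870912 536870912 0) ndB0q1 ndB0q1 pcB0 cut_pm_101_s Ext.none)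

def k0_pm_101_s : ∃ t, chk3 f_pm_101_s t 2 1 1 = true :=
  ⟨(l 6), by decide +kernel⟩

def k1_pm_101_s : ∃ t, chk3 f_pm_101_s t 3 2 1 = true :=
  ⟨(l 6), by decide +kernel⟩

def k2_pm_101_s : ∃ t, chk3 f_pm_101_s t 6 3 1 = true :=
  ⟨(b (l 6) (b (l 6) (a (l 6) (b (l 6) (a (l 6) (b (l 6) (b (l 6) (a (l 6) (a (l 6) (b (l 6) (c (l 16759096) (b (l 16748480) (l 16743440))))))))))))), by decide +kernel⟩

def k3_pm_101_s : ∃ t, chk3 f_pm_101_s t 7 3 1 = true :=
  ⟨(b (a (l 6) (l 1)) (b (a (l 6) (b (l 1) (a (a (b (l 1) (a (l 85396144055) (l 1))) (l 1)) (l 1)))) (a (b (a (l 6) (a (b (l 6) (l 16813680)) (b (b (l 16839992) (a (l 16843360) (b (l 16846264) (l 16870808)))) (a (l 16858760) (l 16840328))))) (a (b (a (b (l 6) (l 6)) (b (l 16835552) (l 16812576))) (a (b (a (l 16782416) (l 16786296)) (a (b (l 16766960) (c (l 16763048) (b (l 16753336) (l 16748264)))) (b (l 16770744) (c (l 16766352) (l 16754944))))) (b (a (l 16789448) (l 16791992)) (a (b (l 16773816) (a (l 16763032)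 (l 16764384))) (b (l 16776280) (c (l 16770976) (l 16761176))))))) (b (a (a (l 16785440) (l 16787152)) (b (l 16823008) (l 16778760))) (a (b (a (l 16794016) (l 16795608)) (a (b (l 16778232) (c (l 16772496) (l 16763456))) (b (l 16779760) (c (l 16773608) (l 16765312))))) (b (a (l 16797432) (l 16778920)) (a (b (l 16781528) (a (l 16770744) (l 16771800))) (b (l 16783944) (c (l 16776952) (b (l 16772848) (l 16767640)))))))))) (b (a (b (b (a (a (l 16859192) (l 97744122023)) (l 1)) (a (b (a (b (l 16829528) (l 16851936)) (b (l 166463631447) (l 16836528))) (a (l 16855248) (l 16839592))) (a (b (l 1) (l 170758570391)) (l 1)))) (a (b (b (l 16809656) (l 16813656)) (l 16819696)) (l 14))) (b (l 1) (l 14))) (a (a (b (b (l 16828696) (a (l 16824960) (l 16806912))) (b (a (l 16781736) (l 16774152)) (a (b (l 16786728) (c (l 16779296) (b (l 16776032) (l 16770816)))) (b (l 16789608) (c (l 16781736) (b (l 16779328) (l 16774112))))))) (l 14)) (l 14)))))), by decide +kernel⟩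

theorem s4_pm_101_s : ∃ t, chk3 f_pm_101_s t 3 3 1 = true := ex3_a k2_pm_101_s k3_pm_101_s

theorem s5_pm_101_s : ∃ t, chk3 f_pm_101_s t 3 1 1 = true := ex3_b k1_pm_101_s s4_pm_101_s

theorem s6_pm_101_s : ∃ t, chk3 f_pm_101_s t 1 1 1 = true := ex3_a k0_pm_101_s s5_pm_101_s

theorem c_pm_101_s : CertNE 536870912 536870912 536870912 536870912 780900216 37827925 3 eng mog cd0q1 cd0q1 pd0 false true false .npn 1 0 1
    ndB0q1 ndB0q1 pcB0 cut_pm_101_s Ext.none :=
  certNE0 (fam := false) (s1 := true) (s2 := false) (a := 1) (b := 0) (c := 1) (cn := .npn) (n1 := ndB0q1) (n2 := ndB0q1) (pc := pcB0) (cut := cut_pm_101_s) (xt := Ext.none) (P1 := 536870912) (W1 := 536870912) (P2 := 536870912) (W2 := 536870912) (P3 := 780900216) (W3 := 37827925) (N0 := 3) (En := eng) (mo := mog) (C1 := cd0q1) (C2 := cd0q1) (C3 := pd0)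
    rfl s6_pm_101_s

noncomputable def cut_pm_101_t : Cut := Cut.of [[⟨3, 0, 0, 2845415833⟩], [⟨0, 1, 0, 53687091⟩, ⟨1, 0, 0, 53687091⟩, ⟨2, 1, 0, 53687091⟩], [⟨0, 0, 1, 26214400⟩, ⟨1, 1, 2, 26214400⟩, ⟨2, 1, 0, 33554432⟩]]

noncomputable def f_pm_101_t : ℕ → ℕ → ℕ → ℕ → Bool := onCell 536870912 536870912 536870912 536870912 780900216 37827925
    (rowNE 3 eng mog cd0q1 cd0q1 pd0 0 false true false .npn 1 0 1 (qsf 536870912 536870912 536870912 536870912 0) ndB0q1 ndB0q1 pcB0 cut_pm_101_t Ext.none)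

def k0_pm_101_t : ∃ t, chk3 f_pm_101_t t 8 4 1 = true :=
  ⟨(b (l 4) (a (b (l 4) (b (l 4) (a (l 4) (b (l 4) (a (l 4) (b (l 4) (a (l 4) (l 109219655719)))))))) (b (b (l 4) (a (l 4) (b (l 4) (a (l 4) (b (l 4) (a (l 4) (b (l 4) (l 109756530791)))))))) (b (a (b (l 4) (a (l 4) (b (l 4) (a (l 4) (l 153779952967))))) (b (a (b (l 4) (a (l 4) (b (l 4) (l 109756531111)))) (b (a (b (l 4) (l 109756530935)) (b (l 16772384) (l 16775216))) (a (l 30299642855) (l 16773032)))) (a (b (a (l 157001178199) (l 16772920)) (a (l 16775440) (l 16772656))) (a (l 16771360) (l 16768624))))) (a (b (a (b (l 4) (a (l 4) (l 145726884615))) (b (a (l 150021856839) (l 16775328)) (l 16773696))) (a (b (a (l 111367139031) (l 16775032)) (l 16773296)) (l 16779368))) (a (b (l 16779952) (l 16763160)) (l 16782000))))))), by decide +kernel⟩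

def k1_pm_101_t : ∃ t, chk3 f_pm_101_t t 9 4 1 = true :=
  ⟨(b (a (a (l 4) (l 1)) (l 1)) (b (a (b (a (b (l 4) (a (l 4) (b (l 4) (a (l 4) (b (l 4) (a (l 4) (l 95797894151))))))) (a (b (l 1) (b (l 1) (b (l 1) (l 16779856)))) (l 1))) (a (b (a (b (l 4) (a (l 4) (b (l 4) (l 153779959143)))) (b (a (b (l 4) (a (l 4) (l 96871635991))) (b (a (l 96334765063) (l 16776208)) (l 16775584))) (a (b (a (l 96871636007) (l 16776160)) (l 16775504)) (l 16773696)))) (a (b (a (b (l 4) (l 152169346487)) (b (l 47479511527) (l 16775416))) (a (b (l 46405770007) (l 16775320)) (l 16773376))) (a (l 16777464) (l 16769832)))) (a (b (a (b (l 16773864) (l 16771376)) (l 16770544)) (l 16766600)) (b (l 16768000) (l 16763000))))) (b (l 1) (a (b (l 1) (a (l 16760640) (l 1))) (l 1)))) (a (a (b (b (a (a (l 16771800) (l 16769224)) (l 16765680)) (l 16773016)) (b (l 16756864) (l 16751144))) (b (a (l 16769472) (l 16771392)) (b (l 16749472) (l 16744224)))) (b (a (b (a (l 16755568) (l 16754528)) (l 16771008))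 (b (l 1) (l 52110038327))) (a (b (l 16745168) (l 16740360)) (b (l 16776952) (l 16740520))))))), by decide +kernel⟩

def k2_pm_101_t : ∃ t, chk3 f_pm_101_t t 4 5 1 = true :=
  ⟨(b (a (b (a (b (a (b (l 4) (a (l 4) (b (l 4) (a (l 202635206903) (l 99555981799))))) (b (a (b (l 4) (a (l 4) (l 104924689415))) (b (a (l 107072172743) (l 16774656)) (l 16772808))) (a (b (a (l 102240335607) (l 16774176)) (l 16772232)) (l 16767552)))) (a (b (a (b (l 201024590647) (a (l 197803369703) (l 66806861623))) (b (a (l 72712441127) (l 16773576)) (l 16771488))) (a (b (a (l 16770896) (l 16772792)) (l 16770560)) (l 16765672))) (a (b (l 16766728) (l 16759192)) (l 16777800)))) (a (b (b (a (l 16768248) (l 16762304)) (l 16779536)) (b (l 16751768) (l 16744784))) (b (b (l 16754312) (l 16748048)) (l 16759544)))) (a (a (b (a (b (l 16764400) (l 16755920)) (l 16774576)) (a (l 16742624) (l 16736456))) (b (l 16765568) (l 16749112))) (b (a (l 16754944) (l 16725224)) (a (l 16718560) (l 16710944))))) (b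 (a (b (a (b (l 16745384) (l 16739584)) (b (l 16738928) (l 16733600))) (a (l 16751832) (l 16746608))) (b (a (b (l 16735512) (l 16730624)) (b (l 16735872) (l 16731392))) (a (l 16744384) (b (l 16726936) (l 16722552))))) (a (b (a (l 16718632) (l 16714560)) (a (l 16705568) (l 16702816))) (b (a (l 16713504) (l 16716104)) (a (l 16703120) (l 16707112)))))) (a (a (b (a (b (l 16741728) (l 16700768)) (b (l 16710360) (l 16691328))) (a (b (l 16680080) (l 16658768)) (b (l 16671512) (l 16650984)))) (b (b (a (l 16701848) (l 16695424)) (a (l 16683888) (l 16678648))) (a (b (l 16665072) (l 16645440)) (b (l 16660944) (l 16642328))))) (b (a (b (a (l 16691360) (l 16690024)) (a (l 16675912) (l 16676024))) (b (a (l 16691864) (l 16697448)) (a (l 16679448) (l 16686744)))) (a (b (a (l 16659448) (l 16660952)) (a (l 16641984) (l 16644784))) (b (a (l 16665904) (l 16674856)) (a (l 16651192) (l 6))))))), by decide +kernel⟩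

def k3_pm_101_t : ∃ t, chk3 f_pm_101_t t 5 2 1 = true :=
  ⟨(b (a (b (l 1) (a (b (l 1) (a (b (l 1) (a (l 49425697719) (l 1))) (l 1))) (l 1))) (l 1)) (b (a (a (b (b (a (b (l 19897806599) (l 16758024)) (b (l 1) (l 45130762231))) (a (a (l 16728760) (l 16733104)) (b (l 16787672) (l 16741248)))) (b (a (a (l 16720824) (l 16725664)) (b (l 16737552) (l 16734296))) (a (l 16736528) (l 16803072)))) (b (b (l 1) (a (b (l 1) (l 16816920)) (l 1))) (b (a (b (l 16780664) (l 16755792)) (b (l 1) (l 16832608))) (a (b (l 16752744) (l 16750152)) (l 6))))) (b (l 1) (a (l 6) (l 1)))) (a (b (a (b (a (l 16707528) (l 16723224)) (a (l 16698608) (l 6))) (l 6)) (l 6)) (l 6)))), by decide +kernel⟩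

def k4_pm_101_t : ∃ t, chk3 f_pm_101_t t 2 3 1 = true :=
  ⟨(b (a (b (a (b (a (a (b (l 16636864) (l 16614456)) (b (l 16629760) (l 16607888))) (a (b (l 16624992) (l 16603784)) (b (l 16622792) (l 16602344)))) (a (b (a (l 16591640) (l 16585488)) (a (l 16567528) (l 16561912))) (b (a (l 16581880) (l 16581064)) (l 16579032)))) (b (a (b (a (l 16623488) (l 16627488)) (a (l 16603952) (l 6))) (l 6)) (l 6))) (a (b (a (a (b (l 16541056) (l 6)) (l 6)) (l 6)) (l 6)) (l 6))) (l 6)) (l 6)), by decide +kernel⟩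

def k5_pm_101_t : ∃ t, chk3 f_pm_101_t t 3 1 1 = true :=
  ⟨(b (a (b (l 1) (l 6)) (l 1)) (l 6)), by decide +kernel⟩

theorem s6_pm_101_t : ∃ t, chk3 f_pm_101_t t 4 4 1 = true := ex3_a k0_pm_101_t k1_pm_101_t

theorem s7_pm_101_t : ∃ t, chk3 f_pm_101_t t 4 2 1 = true := ex3_b s6_pm_101_t k2_pm_101_t

theorem s8_pm_101_t : ∃ t, chk3 f_pm_101_t t 2 2 1 = true := ex3_a s7_pm_101_t k3_pm_101_t

theorem s9_pm_101_t : ∃ t, chk3 f_pm_101_t t 2 1 1 = true := ex3_b s8_pm_101_t k4_pm_101_t

theorem s10_pm_101_t : ∃ t, chk3 f_pm_101_t t 1 1 1 = true := ex3_a s9_pm_101_t k5_pm_101_t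

theorem c_pm_101_t : CertNE 536870912 536870912 536870912 536870912 780900216 37827925 3 eng mog cd0q1 cd0q1 pd0 false true false .npn 1 0 1
    ndB0q1 ndB0q1 pcB0 cut_pm_101_t Ext.none :=
  certNE0 (fam := false) (s1 := true) (s2 := false) (a := 1) (b := 0) (c := 1) (cn := .npn) (n1 := ndB0q1) (n2 := ndB0q1) (pc := pcB0) (cut := cut_pm_101_t) (xt := Ext.none) (P1 := 536870912) (W1 := 536870912) (P2 := 536870912) (W2 := 536870912) (P3 := 780900216) (W3 := 37827925) (N0 := 3) (En := eng) (mo := mog) (C1 := cd0q1) (C2 := cd0q1) (C3 := pd0)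
    rfl s10_pm_101_t

noncomputable def cut_pm_102_s : Cut := Cut.of [[⟨4, 0, 0, 1449551462⟩], [⟨0, 1, 0, 67108864⟩, ⟨1, 0, 0, 67108864⟩, ⟨2, 1, 0, 67108864⟩], [⟨0, 0, 1, 26214400⟩, ⟨1, 1, 2, 26214400⟩, ⟨2, 1, 0, 33554432⟩]]

noncomputable def f_pm_102_s : ℕ → ℕ → ℕ → ℕ → Bool := onCell 536870912 536870912 0 536870912 780900216 37827925
    (rowNE 3 eng mog cd0q1 cd0q2 pd0 0 false true false .npp 1 0 2 (qsf 536870912 536870912 0 536870912 0) ndB0q1 ndB0q2 pcB0 cut_pm_102_s Ext.none)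

def k0_pm_102_s : ∃ t, chk3 f_pm_102_s t 4 2 1 = true :=
  ⟨(a (l 2) (b (l 2) (b (l 2) (a (l 2) (l 16629048))))), by decide +kernel⟩

def k1_pm_102_s : ∃ t, chk3 f_pm_102_s t 5 4 1 = true :=
  ⟨(a (a (a (l 2) (b (l 3) (a (b (l 2) (l 16739824)) (b (b (l 141364815415) (l 16768576)) (l 16746552))))) (b (l 3) (b (a (a (b (l 3) (b (l 126869316215) (l 16772312))) (c (l 152639095175) (l 153712836263))) (l 3)) (a (b (a (l 16761240) (c (l 16768776) (l 16768768))) (l 16770552)) (c (b (a (b (l 134385506983) (l 16772760)) (l 148881005319)) (a (l 16761232) (b (l 16773032) (l 16765392)))) (b (a (l 117742464855) (l 149417875975)) (l 33453741991))))))) (a (b (l 3) (b (l 3) (a (b (l 3) (a (c (b (l 144049170871) (l 68350357063)) (l 118816214487)) (c (l 151565357959) (l 152639099543)))) (l 3)))) (l 3))), by decide +kernel⟩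

def k2_pm_102_s : ∃ t, chk3 f_pm_102_s t 10 5 1 = true :=
  ⟨(b (a (b (a (l 16701152) (l 16712768)) (a (l 16671016) (l 16696720))) (b (a (b (l 16733800) (l 16717944)) (b (c (l 16749040) (l 16748808)) (l 16753512))) (a (b (l 16702104) (l 16685400)) (c (l 16708600) (l 16707632))))) (a (b (l 16642800) (l 16630072)) (b (a (l 16662576) (b (l 16682472) (l 16667448))) (l 16654544)))), by decide +kernel⟩

def k3_pm_102_s : ∃ t, chk3 f_pm_102_s t 11 10 1 = true :=
  ⟨(a (b (a (b (b (a (l 16776088) (c (a (l 16772240) (l 80698391143)) (l 16774040))) (c (l 16782576) (l 16761448))) (c (l 16769992) (l 16748680))) (b (a (c (b (l 149954749079) (a (l 16772760) (l 120426840151))) (b (l 122037439911) (l 65129128471))) (c (l 151028485143) (l 151565355847))) (c (a (l 16762304) (b (a (l 16773304) (l 116668739719)) (l 16767224))) (a (l 16762112) (c (l 16762728) (l 16770616)))))) (a (c (l 16755520) (l 16744176)) (c (b (l 16770552) (l 16732400)) (b (l 16770128) (l 16731600))))) (b (a (b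 (l 3) (a (c (b (l 154249714583) (a (l 67813492487) (l 115594997559))) (c (l 113984363527) (l 112910622023))) (l 3))) (l 3)) (a (b (c (a (l 16774064) (b (c (a (l 80161521575) (l 130627400727)) (l 113447506631)) (l 16779280))) (a (l 16773832) (c (l 66739731399) (b (l 109152539671) (l 16768608))))) (c (a (l 16746064) (l 16776568)) (c (l 16750376) (l 16771088)))) (b (b (l 3) (a (c (a (b (l 116131875143) (l 16773872)) (l 137069850567)) (c (l 115594996391) (l 112910642103))) (l 3))) (c (a (b (a (l 16767312) (l 16774744)) (l 16760944)) (b (a (b (l 116668745991) (l 16774656)) (l 140827945783)) (a (l 16768360) (b (l 62981658247) (l 16771104))))) (a (c (l 16765096) (l 16764960)) (c (b (l 112910635655) (l 16770472)) (b (l 110763152151) (l 16770400))))))))), by decide +kernel⟩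

def k4_pm_102_s : ∃ t, chk3 f_pm_102_s t 11 11 1 = true :=
  ⟨(a (b (a (b (l 16698264) (a (l 16677048) (l 16684800))) (c (l 16727904) (l 16705336))) (a (b (l 16665200) (l 16646536)) (b (a (l 16675768) (l 16683648)) (l 16663712)))) (b (a (c (b (l 16754384) (l 16716264)) (b (l 16753344) (l 16714592))) (c (b (a (l 16747872) (c (l 16768392) (l 16757592))) (a (l 16730704) (l 16740616))) (b (c (l 16752248) (l 16772864)) (l 16755192)))) (a (b (c (l 16699344) (l 16696904)) (a (l 16676064) (l 16705368))) (c (b (l 16718840) (l 16702096)) (b (l 16716592) (l 16698792)))))), by decide +kernel⟩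

def k5_pm_102_s : ∃ t, chk3 f_pm_102_s t 2 3 1 = true :=
  ⟨(a (b (l 6) (l 6)) (b (a (b (a (b (l 16572888) (l 6)) (b (l 16596840) (l 16557776))) (l 6)) (b (a (b (l 16668664) (l 16588504)) (b (a (b (l 16663520) (l 16644432)) (b (a (l 16678176) (b (l 16692504) (l 16683536))) (l 16665288))) (a (l 16616832) (l 16638616)))) (a (b (l 16549400) (l 6)) (b (l 16592592) (a (l 16546304) (l 16593208)))))) (l 6))), by decide +kernel⟩

def k6_pm_102_s : ∃ t, chk3 f_pm_102_s t 6 4 1 = true :=
  ⟨(l 3), by decide +kernel⟩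

def k7_pm_102_s : ∃ t, chk3 f_pm_102_s t 12 10 1 = true :=
  ⟨(a (b (l 3) (a (b (l 3) (b (l 3) (a (a (c (b (l 139754205783) (l 69960979015)) (l 110226288663)) (c (l 142438557303) (l 124721804711))) (l 3)))) (l 3))) (l 3)), by decide +kernel⟩

def k8_pm_102_s : ∃ t, chk3 f_pm_102_s t 24 11 1 = true :=
  ⟨(b (a (b (a (c (b (a (l 16769504) (b (l 74255945239) (l 16772256))) (l 16773816)) (c (l 16767112) (l 16766952))) (a (c (b (b (l 146733526391) (l 110763167703)) (l 16770728)) (b (l 111836901719) (l 16770464))) (b (l 3) (c (b (l 114521264567) (l 16773432)) (l 67276619047))))) (c (a (l 16771600) (b (l 16775216) (l 16756440))) (c (l 16754904) (l 16754440)))) (b (b (l 3) (a (a (b (l 3) (c (l 117742490583) (l 16776456))) (l 3)) (l 3))) (a (c (b (a (l 16774568) (b (l 120426845895) (l 16774488))) (l 16771488)) (b (c (l 16767912) (l 16773064)) (l 16765624))) (b (c (a (l 135996108103) (l 3)) (l 148881007255)) (c (a (b (l 57076079143) (l 16771344)) (b (l 133311755223) (c (l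 66739754567) (l 16775344)))) (c (l 72108449927) (l 70497837191))))))) (a (c (b (a (l 16734104) (l 16744312)) (l 16723008)) (b (c (l 16737776) (l 16736840)) (l 16719928))) (b (c (a (c (l 16754704) (l 16754008)) (b (l 16773056) (l 16760160))) (c (l 16768832) (l 16768224))) (c (a (l 16738768) (l 16748824)) (a (l 16736040) (l 16746600)))))), by decide +kernel⟩

def k9_pm_102_s : ∃ t, chk3 f_pm_102_s t 25 11 1 = true :=
  ⟨(b (a (b (l 3) (a (b (l 3) (c (l 145122909431) (l 150491618551))) (l 3))) (l 3)) (a (b (a (c (b (a (b (c (l 73719075111) (l 16775800)) (l 16772728)) (b (l 143512301063) (c (l 76940300023) (l 16776440)))) (a (l 16767112) (l 16771552))) (b (c (l 76940286263) (l 75866544519)) (l 16768752))) (b (l 3) (c (a (b (c (l 102173232471) (l 16770624)) (l 16774000)) (c (l 124184949159) (l 125258690983))) (a (l 66202876983) (l 106468193351))))) (a (c (c (l 16779576) (l 16758000)) (l 16777784)) (c (b (a (l 16768656) (b (l 16774560) (l 16771184))) (l 16774224)) (b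 (l 16770264) (l 16762728))))) (b (l 3) (a (b (c (a (b (l 107541940695) (l 47412403463)) (l 130090527511)) (a (l 74255939239) (l 103246967847))) (c (a (l 16770200) (b (a (l 16774920) (l 16772752)) (l 16772592))) (a (l 16769728) (l 16773688)))) (b (l 3) (c (a (b (l 129016787207) (a (l 16775432) (l 94657043303))) (l 131701138359)) (l 114521277047))))))), by decide +kernel⟩

def k10_pm_102_s : ∃ t, chk3 f_pm_102_s t 13 5 1 = true :=
  ⟨(l 3), by decide +kernel⟩

def k11_pm_102_s : ∃ t, chk3 f_pm_102_s t 7 2 1 = true :=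
  ⟨(l 3), by decide +kernel⟩

def k12_pm_102_s : ∃ t, chk3 f_pm_102_s t 12 6 1 = true :=
  ⟨(b (a (b (a (b (c (l 16706760) (l 16702216)) (a (l 16682648) (b (l 16697104) (l 16689384)))) (b (c (l 16749608) (l 16724464)) (a (c (l 16707352) (l 16701160)) (l 16716640)))) (a (l 16662528) (b (a (l 16690376) (b (l 16704704) (l 16698864))) (l 16680784)))) (b (a (b (c (a (l 16743840) (l 16763856)) (a (l 16740920) (l 16751456))) (c (a (l 16729816) (l 16739896)) (l 16751976))) (b (a (c (b (l 16776040) (l 16758944)) (l 16766448)) (c (b (a (l 16771640) (b (a (l 16775848) (l 97341397575)) (l 16773904))) (l 16772448)) (b (a (l 16771232) (l 16774576)) (l 16766440)))) (a (c (l 16749264) (l 16747152)) (c (l 16769624) (l 16756280))))) (a (b (a (b (l 16717704) (l 16710160)) (l 16725240)) (a (l 16702624) (b (l 16714992) (l 16710696)))) (b (c (a (l 16736912) (l 16745760)) (l 16759448)) (a (b (l 16726216) (l 16719672)) (l 16732688)))))) (a (b (a (l 16631760) (l 16660920)) (a (l 16603960)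 (l 16639032))) (b (a (b (l 16694776) (l 16683520)) (b (a (l 16712944) (b (l 16723760) (l 16719680))) (l 16705976))) (a (l 16668720) (l 16691936))))), by decide +kernel⟩

def k13_pm_102_s : ∃ t, chk3 f_pm_102_s t 13 12 1 = true :=
  ⟨(a (b (a (b (a (b (a (c (b (l 3) (l 78550912039)) (l 94657032839)) (l 3)) (c (a (l 16772952) (b (l 98415137239) (l 16774968))) (a (l 16772616) (l 74792810087)))) (b (l 3) (a (c (l 122037464167) (l 100025741735)) (l 3)))) (a (c (b (l 16768728) (l 16762672)) (l 16764760)) (b (c (a (b (l 16775360) (l 16772744)) (b (l 95730780807) (l 66739753671))) (a (l 16773728) (l 81772131351))) (c (l 16770104) (l 16769512))))) (b (l 3) (a (c (b (l 132774877255) (a (b (l 73719074311) (l 16774000)) (l 110226306887))) (b (l 139754199159) (a (l 53317976823) (l 95193903591)))) (l 3)))) (b (a (a (c (l 16753856) (l 16751888)) (c (l 16771928) (l 16760112))) (a (b (c (l 16773384) (l 16770928)) (c (l 16765832) (l 16764864))) (b (a (c (b (l 88214588167) (l 16775056))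 (l 67813488375)) (c (l 125795560231) (l 131701140263))) (a (l 16770784) (c (l 40969950071) (l 16773920)))))) (c (a (a (l 16742784) (l 16750528)) (a (l 16757768) (l 16764696))) (a (l 16754536) (a (l 16756064) (l 16753104)))))) (b (l 3) (a (b (a (b (l 3) (a (b (l 105931327655) (c (l 71034721063) (l 16775632))) (l 143512298215))) (l 3)) (a (b (a (l 16772176) (b (c (l 79087783255) (l 82845879719)) (l 16774240))) (c (l 16768784) (l 16768032))) (b (a (c (l 117205626903) (l 124184948695)) (l 3)) (a (c (l 16773664) (l 16773344)) (b (a (l 82845882791) (l 111300041479)) (l 49023015735)))))) (a (b (l 3) (b (l 3) (c (l 139217328887) (l 145659779815)))) (l 3))))), by decide +kernel⟩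

def k14_pm_102_s : ∃ t, chk3 f_pm_102_s t 13 13 1 = true :=
  ⟨(a (b (a (b (a (b (l 16733136) (l 16727552)) (l 16738728)) (a (l 16721048) (b (l 16731096) (l 16726656)))) (b (a (l 16746344) (l 16753544)) (b (l 16750448) (a (l 16734352) (l 16741080))))) (a (b (l 16715400) (l 16707264)) (b (a (l 16727664) (b (l 16716464) (l 16732960))) (l 16723592)))) (b (a (b (a (b (l 16763112) (l 16758048)) (c (l 16770504) (l 16769616))) (a (l 16750960) (l 16757848))) (b (a (b (a (c (l 51707366567) (l 46875528631)) (b (l 142438559095) (a (l 16775864) (l 89288333783)))) (a (l 16769888) (l 16773112))) (b (l 152639098983) (a (b (a (l 16776152) (l 102173235703)) (l 16774960)) (b (l 3) (l 94657038391))))) (a (b (l 16766736) (l 16762208)) (b (a (l 16771488) (b (l 16775424) (l 16773368))) (a (l 16766976) (l 16770032)))))) (b (a (a (b (l 16743504) (l 16719680)) (b (l 16751208) (l 16725200))) (a (l 16755856) (b (l 16764232) (l 16760264)))) (a (a (l 16734600) (b (b (l 16723280) (l 16743104))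 (l 16739928))) (a (b (l 16728112) (a (l 16745728) (l 16727792))) (b (l 16756608) (a (l 16730016) (l 16754960)))))))), by decide +kernel⟩

def k15_pm_102_s : ∃ t, chk3 f_pm_102_s t 12 7 1 = true :=
  ⟨(b (a (b (b (a (l 16590136) (b (l 16628736) (l 16627064))) (a (l 6) (l 16626336))) (l 6)) (b (b (a (l 16656336) (l 16680568)) (a (b (l 16652840) (l 16651536)) (b (l 16676112) (a (l 16649224) (l 16659728))))) (a (b (l 16651072) (l 6)) (b (l 16653368) (b (l 16652912) (l 16652920)))))) (l 6)), by decide +kernel⟩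

def k16_pm_102_s : ∃ t, chk3 f_pm_102_s t 13 7 1 = true :=
  ⟨(b (b (a (a (b (l 16700584) (l 16675264)) (b (l 16717232) (l 16692392))) (b (a (l 16731976) (a (l 16742448) (b (a (l 16749264) (l 16731616)) (l 16747936)))) (a (l 16707328) (c (l 16724048) (l 16718440))))) (a (b (a (b (a (l 16669920) (l 16678864)) (l 16694504)) (b (a (l 16708600) (l 16716632)) (a (b (l 16708880) (l 16708320)) (b (l 16695672) (l 16696192))))) (a (b (l 16672728) (l 16672088)) (a (l 16686136) (l 16695176)))) (b (a (a (l 16702888) (l 16731696)) (c (l 16724496) (l 16717576))) (a (b (a (b (l 16704592) (l 16725168)) (b (l 16732720) (l 16712736))) (l 16708048)) (b (a (l 16740040) (l 16747200)) (a (b (l 16720728) (l 16741592)) (b (l 16748296) (l 16728576)))))))) (a (b (a (b (a (b (l 16687848) (l 6)) (b (l 16696832) (l 16696696))) (l 6)) (b (b (l 16690024) (a (l 16706568) (l 16715816))) (a (b (l 16707128) (l 6)) (c (l 16722968) (l 16710560))))) (a (l 6) (a (l 6) (a (l 6) (b (b (l 16720688) (l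 6)) (l 6)))))) (b (a (b (b (l 16707840) (l 16708008)) (c (a (l 16731648) (l 16739976)) (l 16702840))) (a (b (l 16720488) (b (l 16741896) (l 16741984))) (b (l 16728184) (b (l 16748280) (l 16747152))))) (b (a (a (b (c (l 16733856) (l 16720448)) (c (l 16735808) (l 16721464))) (b (c (l 16741920) (l 16728808)) (c (l 16742912) (a (l 16727488) (l 16730736))))) (a (b (a (l 16740512) (l 16742960)) (l 16741400)) (b (l 16746344) (l 16746056)))) (a (a (l 6) (b (c (l 16743616) (l 16729128)) (l 6))) (b (a (c (l 16748272) (l 16734768)) (l 16746304)) (a (c (l 16749296) (b (l 16735056) (l 6))) (c (l 16753624) (b (l 16740296) (a (l 16739432) (l 16741960))))))))))), by decide +kernel⟩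

def k17_pm_102_s : ∃ t, chk3 f_pm_102_s t 7 6 1 = true :=
  ⟨(a (b (l 3) (a (b (a (b (l 3) (a (b (a (b (l 103783844119) (a (l 16775576) (l 16773672))) (l 154786586983)) (a (l 16773008) (b (l 79624655191) (l 16774776)))) (b (l 3) (a (b (l 159618426487) (a (l 16776240) (l 106468202711))) (l 3))))) (l 3)) (a (b (a (b (l 16770240) (l 16766352)) (b (a (l 16773056) (b (l 124721822055) (l 46875531879))) (a (l 16770600) (l 16773224)))) (a (a (l 16759696) (l 16762696)) (b (l 16768432) (l 16765304)))) (b (a (b (a (b (l 3) (l 137606721335)) (l 3)) (a (b (a (l 16775952) (l 85530238055)) (l 16774792)) (b (l 158007814455) (a (l 16776248) (l 100025752087))))) (l 3)) (a (b (a (l 16772240) (l 16774584)) (a (l 16769144) (l 16771512))) (b (a (b (a (l 81772141799) (l 144049172983)) (a (l 16775448) (l 16776288))) (b (l 3) (a (l 96804526839) (l 3)))) (a (l 16773728) (b (a (l 16776008) (l 79087792855)) (l 16775072)))))))) (b (l 3) (a (b (l 3) (a (b (l 3) (a (b (l 146733525719) (a (l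 16776352) (b (l 117742493655) (l 16776624)))) (b (l 3) (l 167134618471)))) (l 3))) (l 3))))) (l 3)), by decide +kernel⟩

def k18_pm_102_s : ∃ t, chk3 f_pm_102_s t 28 14 1 = true :=
  ⟨(b (a (b (a (b (a (l 16733664) (l 16758360)) (a (l 16753008) (b (l 16756560) (l 16755472)))) (b (l 16762584) (a (b (l 16759320) (l 16758568)) (l 16761368)))) (a (l 16731160) (b (a (l 16757272) (b (l 16739704) (l 16759864))) (l 16757808)))) (b (a (b (l 16767664) (l 16765472)) (b (a (l 16771064) (l 16773128)) (a (l 16768904) (l 16770896)))) (a (b (a (b (l 16762760) (l 16741912)) (l 16743808)) (a (l 16762056) (b (l 16744216) (l 16764416)))) (b (c (l 16748264) (l 16766864)) (a (b (l 16745072) (l 16745008)) (b (l 16767240) (l 16744640))))))) (a (b (a (l 16730952) (c (l 16739568) (l 16734136))) (a (b (l 16753648) (l 16733952)) (a (l 16737104) (l 16738456)))) (b (a (b (c (l 16743608) (l 16739200)) (l 16740528)) (b (a (l 16764040) (b (a (l 16765280) (l 16744472)) (l 16764184))) (l 16762800)))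 (a (l 16739552) (c (l 16743224) (l 16738216)))))), by decide +kernel⟩

def k19_pm_102_s : ∃ t, chk3 f_pm_102_s t 29 28 1 = true :=
  ⟨(a (b (a (b (a (b (l 16775648) (l 16774384)) (b (a (b (l 91972690487) (l 16776592)) (l 140291076951)) (a (l 16775616) (l 16773712)))) (a (l 16761960) (b (l 16774600) (l 16773176)))) (b (a (b (l 3) (a (b (l 115595009831) (l 76940306439)) (l 166597749783))) (l 3)) (a (b (a (l 16775896) (b (l 89288336743) (l 16776448))) (l 16774840)) (b (a (b (l 3) (l 103246980455)) (l 3)) (a (l 28621924839) (b (l 142975432311) (l 47412406167))))))) (a (b (a (l 16769896) (l 16771160)) (a (l 16767512) (l 16768568))) (b (a (c (l 16773128) (l 16772144)) (b (l 16775192) (l 16773600))) (a (l 16759344) (c (l 16771912) (l 16770704)))))) (b (b (l 3) (a (a (b (l 3) (l 167134618535)) (l 3)) (l 3))) (a (b (a (b (a (b (c (l 89288337127) (l 88214595207)) (l 16776344)) (b (l 3) (l 103246981767))) (a (l 16775088) (b (l 16776480) (l 16775760)))) (b (l 3) (a (b (l 142975432295)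 (c (l 45264922855) (l 43117439367))) (l 166060878839)))) (a (b (l 16768712) (l 16772344)) (b (a (l 16775592) (b (a (l 16776704) (l 111836917159)) (l 16776304))) (c (l 16774712) (l 16768952))))) (b (l 3) (a (b (a (b (l 3) (c (l 105394464647) (l 104857594967))) (l 3)) (a (b (l 29695667223) (l 16775744)) (b (l 143512303111) (a (l 16776600) (l 90362080567))))) (b (l 3) (a (l 167134620487) (l 3)))))))), by decide +kernel⟩

def k20_pm_102_s : ∃ t, chk3 f_pm_102_s t 29 29 1 = true :=
  ⟨(a (b (a (b (a (b (l 16754720) (a (l 16764848) (l 16744192))) (b (l 16766696) (a (l 16743936) (l 16765736)))) (a (l 16763648) (b (a (l 16764512) (l 16754512)) (l 16763880)))) (b (a (l 16767152) (l 16757960)) (a (b (a (l 16754264) (l 16765488)) (a (l 16764280) (b (l 16764784) (l 16764408)))) (b (l 16766472) (a (b (l 16765136) (l 16764824)) (l 16765424)))))) (b (a (l 16741968) (a (l 16763696) (b (a (l 16764328) (b (l 16764960) (l 16764576))) (l 16764104)))) (a (l 16741528) (b (l 16742552)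 (l 16742408))))) (b (a (b (a (c (l 16770800) (l 16769368)) (a (l 16766296) (l 16773240))) (a (l 16762144) (c (l 16770040) (l 16768400)))) (b (a (b (a (l 16774480) (l 16775632)) (c (l 16773800) (l 16773072))) (b (a (b (a (l 16776712) (l 113984401031)) (l 16776344)) (a (b (l 3) (l 90898951463)) (l 167134621527))) (a (l 16775128) (b (c (l 16776552) (l 29158796583)) (l 16775856))))) (a (c (l 16766632) (l 16771400)) (b (c (l 16774448) (l 16773832)) (c (l 16773208) (l 16772272)))))) (b (a (a (b (a (b (l 16765312) (l 16744240)) (l 16765784)) (a (l 16764736) (b (l 16749832) (l 16765176)))) (b (l 16767416) (a (b (l 16765928) (l 16750272)) (l 16756056)))) (a (c (l 16769784) (l 16757472)) (b (l 16766264) (l 16765200)))) (a (a (l 16748880) (b (a (l 16765552) (b (l 16753424) (l 16766160))) (l 16765664))) (a (b (a (b (l 16766920) (l 16755024)) (c (l 16768736) (l 16756048))) (a (l 16766728) (b (c (l 16769016) (l 16750912)) (l 16767432)))) (b (l 16759000) (b (a (c (l 16769232)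 (l 16767032)) (l 16769232)) (a (a (l 16768040) (l 16768360)) (c (l 16769536) (l 16772656)))))))))), by decide +kernel⟩

def k21_pm_102_s : ∃ t, chk3 f_pm_102_s t 28 15 1 = true :=
  ⟨(b (b (a (b (a (b (l 16735368) (l 16755656)) (b (l 16758616) (l 16737912))) (l 16734840)) (b (a (l 16739024) (l 16761536)) (a (b (a (l 16760416) (l 16760616)) (l 16759712)) (b (l 16761400) (a (l 16761776) (l 16772256)))))) (a (a (l 16751824) (l 16755248)) (a (l 16758008) (b (l 16760768) (l 16759736))))) (b (a (a (b (l 16750504) (l 16750288)) (b (l 16754040) (l 16753872))) (a (b (l 16756888) (l 16756776)) (b (l 16759168) (l 16759096)))) (a (a (b (l 16750592) (c (l 16757512) (b (l 16745080) (l 16745496)))) (b (l 16754232) (c (l 16760760) (b (l 16749192) (l 16749624))))) (a (b (l 16757176) (c (l 16763320) (b (l 16752584) (l 16753016)))) (b (l 16759528) (c (l 16765296) (b (l 16755360) (l 16755800)))))))), by decide +kernel⟩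

def k22_pm_102_s : ∃ t, chk3 f_pm_102_s t 29 15 1 = true :=
  ⟨(b (a (b (a (b (l 16741472) (a (l 16762128) (l 16762832))) (b (a (l 16763080) (l 16763584)) (a (l 16763176) (l 16763616)))) (b (a (b (a (b (l 16762632) (l 16762264)) (b (l 16762784) (l 16763064))) (l 16762192)) (b (a (l 16763072) (l 16763712)) (a (b (l 16763424) (l 16763112)) (b (l 16763568) (a (l 16763848) (l 16763824)))))) (a (l 16761496) (l 16762904)))) (b (b (a (a (l 16764376) (l 16749736)) (a (c (l 16768080) (l 16765192)) (b (a (l 16767720) (a (l 16768256) (b (l 16768736) (l 16768352)))) (l 16767640)))) (a (a (l 16764320) (l 16744232)) (a (c (l 16767824) (l 16764504)) (c (l 16768736) (l 16765808))))) (a (b (a (b (l 16764312) (l 16764136)) (l 16765104)) (b (a (b (a (l 16764424) (l 16764512)) (l 16764232)) (b (l 16765048) (a (l 16765256) (l 16765440)))) (l 16764480))) (b (a (l 16745088) (c (l 16768824) (l 16765472))) (b (a (l 16766032) (l 16767344)) (a (b (a (l 16766296) (l 16766560)) (l 16766256))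 (b (l 16767336) (a (l 16767512) (l 16767832))))))))) (a (b (a (b (l 16760976) (l 16760936)) (b (l 16762408) (l 16762384))) (a (b (l 16761384) (c (l 16766776) (b (l 16757624) (l 16758064)))) (b (c (l 16766576) (l 16759056)) (c (l 16767864) (b (l 16759472) (l 16759904)))))) (b (a (b (l 16764168) (l 16764144)) (b (c (l 16768928) (l 16764384)) (l 16766624))) (a (b (c (l 16767928) (l 16761208)) (c (l 16769208) (b (l 16761608) (l 16762016)))) (b (c (l 16769960) (l 16764080)) (c (l 16771200) (b (l 16764440) (l 16764816)))))))), by decide +kernel⟩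

def k23_pm_102_s : ∃ t, chk3 f_pm_102_s t 30 28 1 = true :=
  ⟨(l 3), by decide +kernel⟩

def k24_pm_102_s : ∃ t, chk3 f_pm_102_s t 60 29 1 = true :=
  ⟨(b (a (b (a (b (l 3) (a (b (l 144049173831) (a (l 16776664) (l 92509564311))) (l 170355845639))) (l 3)) (a (b (a (l 16775800) (b (a (l 42580569799) (l 110226302663)) (l 16776456))) (a (l 16774360) (l 16775416))) (b (a (a (a (b (l 3) (l 83382759927)) (l 145659786407)) (l 171966459399)) (l 3)) (a (a (l 16776192) (a (l 17884508327) (b (l 84456501591) (l 16776456)))) (a (b (l 139754207431) (l 16776744)) (a (b (l 3) (l 84993372519)) (l 147807269895))))))) (b (l 3) (a (b (l 3) (a (l 173577070663) (l 3))) (l 3)))) (a (b (a (c (b (l 16773984) (l 16772944)) (b (l 16773176) (l 16771832))) (b (a (l 16775056) (b (l 16776360) (l 16775680))) (c (l 16774576) (l 16774560)))) (b (a (l 16766024) (c (l 16773552) (l 16772576))) (a (l 16770256) (c (l 16772648) (l 16771384))))) (b (a (b (a (a (b (a (l 16776864) (l 87140856231)) (l 16776400))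 (b (l 142438561831) (l 16775464))) (a (a (b (l 3) (l 88751468967)) (l 149954753335)) (l 3))) (a (c (l 16775824) (l 16770224)) (a (l 16776344) (b (a (l 16776872) (l 90898952647)) (l 16776488))))) (b (l 3) (a (b (c (l 150491624087) (l 151565365831)) (a (c (l 16776832) (l 32380023511)) (a (l 93583308535) (l 143512303959)))) (l 3)))) (a (b (a (l 16769192) (c (l 16775568) (l 16775120))) (c (l 16774224) (l 16772736))) (b (a (b (l 16776528) (l 16775936)) (a (b (b (l 108078822503) (l 16776928)) (l 16776584)) (b (l 149954754151) (b (l 76940309463) (l 16776856))))) (a (c (l 16775384) (l 16774864)) (c (l 16776120) (l 16773184)))))))), by decide +kernel⟩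

def k25_pm_102_s : ∃ t, chk3 f_pm_102_s t 61 29 1 = true :=
  ⟨(b (l 3) (a (b (l 3) (a (b (a (a (b (l 3) (b (l 174650816359) (l 93583307639))) (l 3)) (l 3)) (a (b (a (l 16776808) (b (l 104857595175) (l 42043700455))) (l 16776504)) (b (l 167134621719) (a (a (l 16776928) (b (l 108078823431) (l 16777024))) (a (a (l 102173243895) (l 108615691415)) (l 167134623543)))))) (l 3))) (l 3))), by decide +kernel⟩

def k26_pm_102_s : ∃ t, chk3 f_pm_102_s t 31 14 1 = true :=
  ⟨(l 3), by decide +kernel⟩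

def k27_pm_102_s : ∃ t, chk3 f_pm_102_s t 60 30 1 = true :=
  ⟨(b (a (b (b (a (a (a (b (l 16768768) (l 16768688)) (b (l 16769352) (l 16774400))) (b (l 16769992) (c (l 16770272) (l 16757824)))) (c (l 16771848) (l 16770304))) (b (a (a (l 16768632) (c (l 16770576) (a (l 16768040) (l 16768616)))) (a (c (a (l 16770632) (l 16771056)) (l 16758832)) (l 16770896))) (a (l 16768784) (b (a (c (l 16770952) (l 16769016)) (l 16770488)) (a (l 16769720) (c (l 16771224) (l 16769408))))))) (a (c (l 16769760) (l 16767216)) (b (a (l 16769560) (b (c (l 16771504) (a (l 16769136) (l 16769736))) (l 16770160))) (l 16769704)))) (b (a (b (c (l 16773408) (l 16772296)) (c (l 16772704) (l 16771320))) (b (a (l 16768904) (l 16774320)) (c (l 16774192) (l 16770608)))) (a (b (a (b (a (l 16760256) (l 16771112)) (c (l 16772008) (l 16759736))) (a (b (l 16771680) (l 16760824)) (l 16771752))) (a (l 16770704) (b (c (l 16772536) (l 16760352)) (l 16771336)))) (b (c (l 16773600) (l 16772376)) (a (a (b (a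 (l 16771880) (l 16771912)) (l 16771840)) (b (l 16772168) (l 16761904))) (b (l 16772960) (a (a (l 16772488) (l 16772504)) (l 16772728)))))))) (a (b (a (b (l 16768352) (l 16768392)) (c (l 16770920) (l 16768352))) (a (b (l 16768536) (a (l 16768328) (l 16769104))) (b (l 16769800) (l 16770048)))) (b (b (a (l 16776192) (a (l 16771944) (b (c (l 16773640) (l 16761624)) (l 16772592)))) (a (l 16770976) (c (l 16773224) (l 16771328)))) (a (b (l 16771096) (l 16771328)) (b (l 16772392) (l 16772608)))))), by decide +kernel⟩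

def k28_pm_102_s : ∃ t, chk3 f_pm_102_s t 122 30 1 = true :=
  ⟨(a (a (b (b (b (c (l 16775960) (l 16775568)) (l 16773272)) (b (l 16774184) (l 16773624))) (b (b (a (b (a (l 16773104) (l 16762624)) (l 16773072)) (b (l 16773296) (l 16763112))) (l 16773240)) (b (l 16773344) (l 16773552)))) (b (b (a (b (l 16774360) (l 16775464)) (b (b (c (l 16776912) (l 16776168)) (l 16776456)) (l 16773208))) (b (l 16772312) (l 16774376))) (b (b (b (l 16774056) (a (a (l 16763232) (l 16763240)) (l 16763392))) (b (c (l 16774768) (l 16762928)) (l 16773872))) (b (l 16773952) (l 16774152))))) (a (b (b (b (a (b (b (l 140291078711) (a (l 16777048) (l 89825212343))) (l 16776800)) (b (l 174113944535) (b (a (l 16777016) (l 107005080135)) (l 16776992)))) (b (l 16776544) (l 16773528))) (b (c (l 16775896) (l 16775368)) (l 16771800))) (b (b (l 16774672) (a (b (c (l 16774944) (l 16763240)) (l 16774320)) (b (l 16763952) (l 16764312)))) (b (l 16774536) (l 16774728)))) (b (b (a (a (b (b (l 3) (b (l 3)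 (l 96267663191))) (l 16776736)) (b (l 3) (b (c (l 40433087975) (l 37748733479)) (l 16776696)))) (b (l 3) (b (b (l 156934076663) (a (l 16777064) (l 95193920423))) (l 16776904)))) (b (c (l 16776424) (l 16775024)) (c (l 16775992) (l 16775408)))) (b (b (l 16771368) (b (l 16775104) (a (c (l 16775488) (l 16766480)) (l 16767104)))) (b (b (c (l 16775840) (l 16774656)) (l 16775104)) (l 16775248)))))), by decide +kernel⟩

def k29_pm_102_s : ∃ t, chk3 f_pm_102_s t 123 30 1 = true :=
  ⟨(b (b (a (b (l 3) (a (b (l 3) (a (a (b (l 80698406855) (l 16777024)) (b (l 152102238951) (l 16777056))) (b (l 3) (l 139217336871)))) (l 3))) (l 3)) (a (b (a (b (a (l 16776832) (a (l 16777008) (b (l 88214599623) (l 16777064)))) (l 16776648)) (a (a (b (b (l 169818978855) (l 46338668615)) (l 16776944)) (b (l 147270400087) (l 26474445015))) (b (l 3) (a (b (l 96804534903) (l 16777096)) (b (l 3) (a (l 16777112) (l 88214600119))))))) (a (b (l 16775712) (l 16776136)) (c (l 16776832) (b (l 16776760)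 (l 16776464))))) (b (a (a (a (b (l 3) (l 154249721735)) (l 3)) (l 3)) (l 3)) (a (a (b (b (a (l 16776440) (a (l 94120180183) (l 110763176967))) (l 16777072)) (l 16776904)) (a (b (b (l 3) (a (l 16776432) (l 90362082903))) (l 16777040)) (b (l 168208365223) (a (l 16777096) (b (l 71034730983) (l 16777096)))))) (b (l 3) (a (a (b (a (l 94657050119) (l 166060882807)) (l 16777128)) (b (l 3) (a (l 76940311015) (l 14)))) (l 176798298855))))))) (b (a (b (a (c (l 16776168) (l 16775536)) (c (l 16776552) (l 16775280))) (a (l 16770368) (c (l 16776416) (l 16775744)))) (b (a (c (l 16776864) (b (l 16776688) (l 16776472))) (a (b (l 16777048) (l 14)) (l 14))) (l 14))) (b (a (a (b (c (a (l 16765496) (l 16775944)) (a (l 16767064) (l 16764480))) (c (l 16776320) (l 16775224))) (l 14)) (l 14)) (l 14)))), by decide +kernel⟩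

def k30_pm_102_s : ∃ t, chk3 f_pm_102_s t 30 31 1 = true :=
  ⟨(a (b (b (a (b (a (b (a (l 16768856) (l 16769216)) (l 16768920)) (b (l 16770128) (a (l 16770296) (l 16770672)))) (l 16769576)) (b (a (a (l 16771208) (l 16771992)) (l 16772936)) (a (b (a (l 16777032) (l 16772160)) (l 16771912)) (b (l 16773088) (c (a (l 16774688) (l 16774952)) (a (l 16771864) (l 16772320))))))) (a (c (l 16771688) (l 16767384)) (c (l 16774320) (l 16770928)))) (a (b (c (l 16772392) (l 16767384)) (c (b (l 16773224) (l 16773936)) (b (l 16767680) (l 16768016)))) (b (c (l 16774952) (l 16770840)) (l 14)))) (b (a (b (a (b (l 16774160) (a (l 16774152) (l 16774864))) (b (c (l 16776136) (l 16774416)) (l 14))) (l 14)) (l 14)) (l 14))), by decide +kernel⟩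

def k31_pm_102_s : ∃ t, chk3 f_pm_102_s t 31 15 1 = true :=
  ⟨(b (b (l 3) (l 14)) (l 14)), by decide +kernel⟩

theorem s32_pm_102_s : ∃ t, chk3 f_pm_102_s t 61 30 1 = true := ex3_a k28_pm_102_s k29_pm_102_s

theorem s33_pm_102_s : ∃ t, chk3 f_pm_102_s t 30 30 1 = true := ex3_a k27_pm_102_s s32_pm_102_s

theorem s34_pm_102_s : ∃ t, chk3 f_pm_102_s t 30 15 1 = true := ex3_b s33_pm_102_s k30_pm_102_s

theorem s35_pm_102_s : ∃ t, chk3 f_pm_102_s t 15 15 1 = true := ex3_a s34_pm_102_s k31_pm_102_s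

theorem s36_pm_102_s : ∃ t, chk3 f_pm_102_s t 30 29 1 = true := ex3_a k24_pm_102_s k25_pm_102_s

theorem s37_pm_102_s : ∃ t, chk3 f_pm_102_s t 30 14 1 = true := ex3_b k23_pm_102_s s36_pm_102_s

theorem s38_pm_102_s : ∃ t, chk3 f_pm_102_s t 15 14 1 = true := ex3_a s37_pm_102_s k26_pm_102_s

theorem s39_pm_102_s : ∃ t, chk3 f_pm_102_s t 15 7 1 = true := ex3_b s38_pm_102_s s35_pm_102_s

theorem s40_pm_102_s : ∃ t, chk3 f_pm_102_s t 14 15 1 = true := ex3_a k21_pm_102_s k22_pm_102_s

theorem s41_pm_102_s : ∃ t, chk3 f_pm_102_s t 29 14 1 = true := ex3_b k19_pm_102_s k20_pm_102_s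

theorem s42_pm_102_s : ∃ t, chk3 f_pm_102_s t 14 14 1 = true := ex3_a k18_pm_102_s s41_pm_102_s

theorem s43_pm_102_s : ∃ t, chk3 f_pm_102_s t 14 7 1 = true := ex3_b s42_pm_102_s s40_pm_102_s

theorem s44_pm_102_s : ∃ t, chk3 f_pm_102_s t 7 7 1 = true := ex3_a s43_pm_102_s s39_pm_102_s

theorem s45_pm_102_s : ∃ t, chk3 f_pm_102_s t 7 3 1 = true := ex3_b k17_pm_102_s s44_pm_102_s

theorem s46_pm_102_s : ∃ t, chk3 f_pm_102_s t 6 7 1 = true := ex3_a k15_pm_102_s k16_pm_102_s

theorem s47_pm_102_s : ∃ t, chk3 f_pm_102_s t 13 6 1 = true := ex3_b k13_pm_102_s k14_pm_102_s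

theorem s48_pm_102_s : ∃ t, chk3 f_pm_102_s t 6 6 1 = true := ex3_a k12_pm_102_s s47_pm_102_s

theorem s49_pm_102_s : ∃ t, chk3 f_pm_102_s t 6 3 1 = true := ex3_b s48_pm_102_s s46_pm_102_s

theorem s50_pm_102_s : ∃ t, chk3 f_pm_102_s t 3 3 1 = true := ex3_a s49_pm_102_s s45_pm_102_s

theorem s51_pm_102_s : ∃ t, chk3 f_pm_102_s t 12 11 1 = true := ex3_a k8_pm_102_s k9_pm_102_s

theorem s52_pm_102_s : ∃ t, chk3 f_pm_102_s t 12 5 1 = true := ex3_b k7_pm_102_s s51_pm_102_s

theorem s53_pm_102_s : ∃ t, chk3 f_pm_102_s t 6 5 1 = true := ex3_a s52_pm_102_s k10_pm_102_s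

theorem s54_pm_102_s : ∃ t, chk3 f_pm_102_s t 6 2 1 = true := ex3_b k6_pm_102_s s53_pm_102_s

theorem s55_pm_102_s : ∃ t, chk3 f_pm_102_s t 3 2 1 = true := ex3_a s54_pm_102_s k11_pm_102_s

theorem s56_pm_102_s : ∃ t, chk3 f_pm_102_s t 3 1 1 = true := ex3_b s55_pm_102_s s50_pm_102_s

theorem s57_pm_102_s : ∃ t, chk3 f_pm_102_s t 11 5 1 = true := ex3_b k3_pm_102_s k4_pm_102_s

theorem s58_pm_102_s : ∃ t, chk3 f_pm_102_s t 5 5 1 = true := ex3_a k2_pm_102_s s57_pm_102_s

theorem s59_pm_102_s : ∃ t, chk3 f_pm_102_s t 5 2 1 = true := ex3_b k1_pm_102_s s58_pm_102_s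

theorem s60_pm_102_s : ∃ t, chk3 f_pm_102_s t 2 2 1 = true := ex3_a k0_pm_102_s s59_pm_102_s

theorem s61_pm_102_s : ∃ t, chk3 f_pm_102_s t 2 1 1 = true := ex3_b s60_pm_102_s k5_pm_102_s

theorem s62_pm_102_s : ∃ t, chk3 f_pm_102_s t 1 1 1 = true := ex3_a s61_pm_102_s s56_pm_102_s

theorem c_pm_102_s : CertNE 536870912 536870912 0 536870912 780900216 37827925 3 eng mog cd0q1 cd0q2 pd0 false true false .npp 1 0 2
    ndB0q1 ndB0q2 pcB0 cut_pm_102_s Ext.none :=
  certNE0 (fam := false) (s1 := true) (s2 := false) (a := 1) (b := 0) (c := 2) (cn := .npp) (n1 := ndB0q1) (n2 := ndB0q2) (pc := pcB0) (cut := cut_pm_102_s) (xt := Ext.none) (P1 := 536870912) (W1 := 536870912) (P2 := 0) (W2 := 536870912) (P3 := 780900216) (W3 := 37827925) (N0 := 3) (En := eng) (mo := mog) (C1 := cd0q1) (C2 := cd0q2) (C3 := pd0)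
    rfl s62_pm_102_s

noncomputable def cut_pm_102_t : Cut := Cut.of [[⟨3, 0, 0, 2845415833⟩], [⟨0, 1, 0, 67108864⟩, ⟨1, 0, 0, 67108864⟩, ⟨2, 1, 0, 67108864⟩], [⟨0, 0, 1, 26214400⟩, ⟨1, 1, 2, 26214400⟩, ⟨2, 1, 0, 33554432⟩]]

noncomputable def f_pm_102_t : ℕ → ℕ → ℕ → ℕ → Bool := onCell 536870912 536870912 0 536870912 780900216 37827925
    (rowNE 3 eng mog cd0q1 cd0q2 pd0 0 false true false .npp 1 0 2 (qsf 536870912 536870912 0 536870912 0) ndB0q1 ndB0q2 pcB0 cut_pm_102_t Ext.none)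

def k0_pm_102_t : ∃ t, chk3 f_pm_102_t t 1 1 1 = true :=
  ⟨(l 6), by decide +kernel⟩

theorem c_pm_102_t : CertNE 536870912 536870912 0 536870912 780900216 37827925 3 eng mog cd0q1 cd0q2 pd0 false true false .npp 1 0 2
    ndB0q1 ndB0q2 pcB0 cut_pm_102_t Ext.none :=
  certNE0 (fam := false) (s1 := true) (s2 := false) (a := 1) (b := 0) (c := 2) (cn := .npp) (n1 := ndB0q1) (n2 := ndB0q2) (pc := pcB0) (cut := cut_pm_102_t) (xt := Ext.none) (P1 := 536870912) (W1 := 536870912) (P2 := 0) (W2 := 536870912) (P3 := 780900216) (W3 := 37827925) (N0 := 3) (En := eng) (mo := mog) (C1 := cd0q1) (C2 := cd0q2) (C3 := pd0)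
    rfl k0_pm_102_t

noncomputable def cut_pm_112_s : Cut := Cut.of [[⟨4, 0, 0, 1449551462⟩]]

noncomputable def f_pm_112_s : ℕ → ℕ → ℕ → ℕ → Bool := onCell 536870912 536870912 0 536870912 780900216 37827925
    (rowNE 3 eng mog cd0q1 cd0q2 pd1 2 false true false .dn 1 1 2 (qsf 536870912 536870912 0 536870912 1) ndB0q1 ndB0q2 pcB1 cut_pm_112_s Ext.none)

def k0_pm_112_s : ∃ t, chk3 f_pm_112_s t 1 1 1 = true :=
  ⟨(a (b (a (a (b (b (a (b (l 3) (a (b (l 3) (l 157470939031)) (b (l 160692159047) (a (b (l 125795533783) (l 35064398823)) (b (l 16785104) (l 16766752)))))) (b (a (l 165523988359) (b (l 164450254951) (a (l 110763204663) (l 16771616)))) (a (b (a (l 109152550471) (l 23253239495)) (l 16758944)) (l 16762328)))) (a (b (a (b (a (b (l 141364834247) (c (l 16773688) (l 16773560))) (b (c (l 16774088) (l 16773968)) (l 16765432))) (a (l 16759544) (l 16730048))) (a (l 16752232) (l 16744312))) (a (c (l 16746472) (l 16745448)) (b (l 16720152) (l 16700664)))) (b (a (l 16753976)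 (b (l 16727128) (l 16710360))) (a (l 16718032) (l 16704400))))) (b (a (b (a (b (l 16693432) (l 16672032)) (b (l 16680656) (l 16681208))) (a (b (l 16703528) (l 16630088)) (l 16630800))) (b (a (b (l 16668096) (l 16650360)) (l 16691296)) (l 16637464))) (a (b (l 16616056) (l 16575512)) (b (l 16579472) (l 6))))) (b (b (a (b (a (b (a (l 111300075415) (l 16771856)) (l 16760568)) (l 16753200)) (a (l 16757912) (b (l 16730080) (l 16714752)))) (a (b (l 16738248) (l 16708224)) (b (l 16744336) (l 16693888)))) (a (b (a (l 16704976) (l 16691520)) (a (b (l 16680176) (l 16663712)) (l 16723296))) (b (a (l 16718856) (l 16706352)) (a (l 16647720) (l 16634416))))) (b (a (b (l 16652752) (l 16597616)) (b (l 16609456) (l 16578320))) (a (l 6) (l 6))))) (a (b (b (a (b (a (l 16708328) (l 16693096)) (a (l 16699520) (b (l 16671312) (l 16657584)))) (l 1)) (a (b (a (l 16672560) (l 16636568)) (l 16615248)) (l 1))) (b (a (b (l 16586760) (l 6)) (l 1)) (l 6))) (l 1))) (a (b (l 6) (l 6)) (l 6))) (l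 1)), by decide +kernel⟩

theorem c_pm_112_s : CertNE 536870912 536870912 0 536870912 780900216 37827925 3 eng mog cd0q1 cd0q2 pd1 false true false .dn 1 1 2
    ndB0q1 ndB0q2 pcB1 cut_pm_112_s Ext.none :=
  certNE2 (fam := false) (s1 := true) (s2 := false) (a := 1) (b := 1) (c := 2) (cn := .dn) (n1 := ndB0q1) (n2 := ndB0q2) (pc := pcB1) (cut := cut_pm_112_s) (xt := Ext.none) (P1 := 536870912) (W1 := 536870912) (P2 := 0) (W2 := 536870912) (P3 := 780900216) (W3 := 37827925) (N0 := 3) (En := eng) (mo := mog) (C1 := cd0q1) (C2 := cd0q2) (C3 := pd1)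
    rfl (fun _ => rfl) k0_pm_112_s

noncomputable def cut_pm_112_t : Cut := Cut.of [[⟨3, 0, 0, 2845415833⟩]]

noncomputable def f_pm_112_t : ℕ → ℕ → ℕ → ℕ → Bool := onCell 536870912 536870912 0 536870912 780900216 37827925
    (rowNE 3 eng mog cd0q1 cd0q2 pd1 0 false true false .dn 1 1 2 (qsf 536870912 536870912 0 536870912 1) ndB0q1 ndB0q2 pcB1 cut_pm_112_t Ext.none)

def k0_pm_112_t : ∃ t, chk3 f_pm_112_t t 1 1 1 = true :=
  ⟨(l 6), by decide +kernel⟩

theorem c_pm_112_t : CertNE 536870912 536870912 0 536870912 780900216 37827925 3 eng mog cd0q1 cd0q2 pd1 false true false .dn 1 1 2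
    ndB0q1 ndB0q2 pcB1 cut_pm_112_t Ext.none :=
  certNE0 (fam := false) (s1 := true) (s2 := false) (a := 1) (b := 1) (c := 2) (cn := .dn) (n1 := ndB0q1) (n2 := ndB0q2) (pc := pcB1) (cut := cut_pm_112_t) (xt := Ext.none) (P1 := 536870912) (W1 := 536870912) (P2 := 0) (W2 := 536870912) (P3 := 780900216) (W3 := 37827925) (N0 := 3) (En := eng) (mo := mog) (C1 := cd0q1) (C2 := cd0q2) (C3 := pd1)
    rfl k0_pm_112_t

noncomputable def cut_pm_202_s : Cut := Cut.of [[⟨4, 0, 0, 1449551462⟩], [⟨0, 1, 0, 67108864⟩, ⟨1, 0, 0, 67108864⟩, ⟨2, 1, 0, 67108864⟩]]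

noncomputable def f_pm_202_s : ℕ → ℕ → ℕ → ℕ → Bool := onCell 0 536870912 0 536870912 780900216 37827925
    (rowNE 3 eng mog cd0q2 cd0q2 pd0 0 false true false .pp 2 0 2 (qsf 0 536870912 0 536870912 0) ndB0q2 ndB0q2 pcB0 cut_pm_202_s Ext.none)

def k0_pm_202_s : ∃ t, chk3 f_pm_202_s t 1 1 1 = true :=
  ⟨(a (l 3) (b (l 3) (a (l 3) (b (l 3) (b (l 3) (a (l 3) (l 14))))))), by decide +kernel⟩

theorem c_pm_202_s : CertNE 0 536870912 0 536870912 780900216 37827925 3 eng mog cd0q2 cd0q2 pd0 false true false .pp 2 0 2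
    ndB0q2 ndB0q2 pcB0 cut_pm_202_s Ext.none :=
  certNE0 (fam := false) (s1 := true) (s2 := false) (a := 2) (b := 0) (c := 2) (cn := .pp) (n1 := ndB0q2) (n2 := ndB0q2) (pc := pcB0) (cut := cut_pm_202_s) (xt := Ext.none) (P1 := 0) (W1 := 536870912) (P2 := 0) (W2 := 536870912) (P3 := 780900216) (W3 := 37827925) (N0 := 3) (En := eng) (mo := mog) (C1 := cd0q2) (C2 := cd0q2) (C3 := pd0)
    rfl k0_pm_202_s

noncomputable def cut_pm_202_t : Cut := Cut.of [[⟨3, 0, 0, 2845415833⟩], [⟨0, 1, 0, 67108864⟩, ⟨1, 0, 0, 67108864⟩, ⟨2, 1, 0, 67108864⟩]]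

noncomputable def f_pm_202_t : ℕ → ℕ → ℕ → ℕ → Bool := onCell 0 536870912 0 536870912 780900216 37827925
    (rowNE 3 eng mog cd0q2 cd0q2 pd0 0 false true false .pp 2 0 2 (qsf 0 536870912 0 536870912 0) ndB0q2 ndB0q2 pcB0 cut_pm_202_t Ext.none)

def k0_pm_202_t : ∃ t, chk3 f_pm_202_t t 1 1 1 = true :=
  ⟨(l 6), by decide +kernel⟩

theorem c_pm_202_t : CertNE 0 536870912 0 536870912 780900216 37827925 3 eng mog cd0q2 cd0q2 pd0 false true false .pp 2 0 2
    ndB0q2 ndB0q2 pcB0 cut_pm_202_t Ext.none :=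
  certNE0 (fam := false) (s1 := true) (s2 := false) (a := 2) (b := 0) (c := 2) (cn := .pp) (n1 := ndB0q2) (n2 := ndB0q2) (pc := pcB0) (cut := cut_pm_202_t) (xt := Ext.none) (P1 := 0) (W1 := 536870912) (P2 := 0) (W2 := 536870912) (P3 := 780900216) (W3 := 37827925) (N0 := 3) (En := eng) (mo := mog) (C1 := cd0q2) (C2 := cd0q2) (C3 := pd0)
    rfl k0_pm_202_t

noncomputable def cut_mm_001_s : Cut := Cut.of [[⟨4, 0, 0, 1449551462⟩]]

noncomputable def f_mm_001_s : ℕ → ℕ → ℕ → ℕ → Bool := onCell 0 536870912 0 536870912 780900216 37827925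
    (rowNE 3 eng mog cd0q0 cd0q1 pd0 1 false false false .up 0 0 1 (qsf 0 536870912 536870912 536870912 0) ndB0q0 ndB0q1 pcB0 cut_mm_001_s Ext.none)

def k0_mm_001_s : ∃ t, chk3 f_mm_001_s t 1 1 1 = true :=
  ⟨(l 3), by decide +kernel⟩

theorem c_mm_001_s : CertNE 0 536870912 536870912 536870912 780900216 37827925 3 eng mog cd0q0 cd0q1 pd0 false false false .up 0 0 1
    ndB0q0 ndB0q1 pcB0 cut_mm_001_s Ext.none :=
  certNE1 (fam := false) (s1 := false) (s2 := false) (a := 0) (b := 0) (c := 1) (cn := .up) (n1 := ndB0q0) (n2 := ndB0q1) (pc := pcB0) (cut := cut_mm_001_s) (xt := Ext.none) (P1 := 0) (W1 := 536870912) (P2 := 536870912) (W2 := 536870912) (P3 := 780900216) (W3 := 37827925) (N0 := 3) (En := eng) (mo := mog) (C1 := cd0q0) (C2 := cd0q1) (C3 := pd0)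
    rfl (fun _ => rfl) k0_mm_001_s

noncomputable def cut_mm_001_t : Cut := Cut.of [[⟨3, 0, 0, 2845415833⟩]]

noncomputable def f_mm_001_t : ℕ → ℕ → ℕ → ℕ → Bool := onCell 0 536870912 536870912 536870912 780900216 37827925
    (rowNE 3 eng mog cd0q0 cd0q1 pd0 0 false false false .up 0 0 1 (qsf 0 536870912 536870912 536870912 0) ndB0q0 ndB0q1 pcB0 cut_mm_001_t Ext.none)

def k0_mm_001_t : ∃ t, chk3 f_mm_001_t t 1 1 1 = true :=
  ⟨(l 6), by decide +kernel⟩

theorem c_mm_001_t : CertNE 0 536870912 536870912 536870912 780900216 37827925 3 eng mog cd0q0 cd0q1 pd0 false false false .up 0 0 1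
    ndB0q0 ndB0q1 pcB0 cut_mm_001_t Ext.none :=
  certNE0 (fam := false) (s1 := false) (s2 := false) (a := 0) (b := 0) (c := 1) (cn := .up) (n1 := ndB0q0) (n2 := ndB0q1) (pc := pcB0) (cut := cut_mm_001_t) (xt := Ext.none) (P1 := 0) (W1 := 536870912) (P2 := 536870912) (W2 := 536870912) (P3 := 780900216) (W3 := 37827925) (N0 := 3) (En := eng) (mo := mog) (C1 := cd0q0) (C2 := cd0q1) (C3 := pd0)
    rfl k0_mm_001_t

noncomputable def cut_mm_011_s : Cut := Cut.of [[⟨4, 0, 0, 1449551462⟩]]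

noncomputable def f_mm_011_s : ℕ → ℕ → ℕ → ℕ → Bool := onCell 0 536870912 536870912 536870912 780900216 37827925
    (rowNE 3 eng mog cd0q0 cd0q1 pd1 1 false false false .pnn 0 1 1 (qsf 0 536870912 536870912 536870912 1) ndB0q0 ndB0q1 pcB1 cut_mm_011_s Ext.none)

def k0_mm_011_s : ∃ t, chk3 f_mm_011_s t 1 1 1 = true :=
  ⟨(l 5), by decide +kernel⟩

theorem c_mm_011_s : CertNE 0 536870912 536870912 536870912 780900216 37827925 3 eng mog cd0q0 cd0q1 pd1 false false false .pnn 0 1 1
    ndB0q0 ndB0q1 pcB1 cut_mm_011_s Ext.none :=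
  certNE1 (fam := false) (s1 := false) (s2 := false) (a := 0) (b := 1) (c := 1) (cn := .pnn) (n1 := ndB0q0) (n2 := ndB0q1) (pc := pcB1) (cut := cut_mm_011_s) (xt := Ext.none) (P1 := 0) (W1 := 536870912) (P2 := 536870912) (W2 := 536870912) (P3 := 780900216) (W3 := 37827925) (N0 := 3) (En := eng) (mo := mog) (C1 := cd0q0) (C2 := cd0q1) (C3 := pd1)
    rfl (fun _ => rfl) k0_mm_011_s

noncomputable def cut_mm_011_t : Cut := Cut.of [[⟨3, 0, 0, 2845415833⟩]]

noncomputable def f_mm_011_t : ℕ → ℕ → ℕ → ℕ → Bool := onCell 0 536870912 536870912 536870912 780900216 37827925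
    (rowNE 3 eng mog cd0q0 cd0q1 pd1 0 false false false .pnn 0 1 1 (qsf 0 536870912 536870912 536870912 1) ndB0q0 ndB0q1 pcB1 cut_mm_011_t Ext.none)

def k0_mm_011_t : ∃ t, chk3 f_mm_011_t t 1 1 1 = true :=
  ⟨(l 6), by decide +kernel⟩

theorem c_mm_011_t : CertNE 0 536870912 536870912 536870912 780900216 37827925 3 eng mog cd0q0 cd0q1 pd1 false false false .pnn 0 1 1
    ndB0q0 ndB0q1 pcB1 cut_mm_011_t Ext.none :=
  certNE0 (fam := false) (s1 := false) (s2 := false) (a := 0) (b := 1) (c := 1) (cn := .pnn) (n1 := ndB0q0) (n2 := ndB0q1) (pc := pcB1) (cut := cut_mm_011_t) (xt := Ext.none) (P1 := 0) (W1 := 536870912) (P2 := 536870912) (W2 := 536870912) (P3 := 780900216) (W3 := 37827925) (N0 := 3) (En := eng) (mo := mog) (C1 := cd0q0) (C2 := cd0q1) (C3 := pd1)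
    rfl k0_mm_011_t

noncomputable def cut_mm_012_s : Cut := Cut.of [[⟨4, 0, 0, 1449551462⟩]]

noncomputable def f_mm_012_s : ℕ → ℕ → ℕ → ℕ → Bool := onCell 0 536870912 0 536870912 780900216 37827925
    (rowNE 3 eng mog cd0q0 cd0q2 pd1 0 false false false .pnp 0 1 2 (qsf 0 536870912 0 536870912 1) ndB0q0 ndB0q2 pcB1 cut_mm_012_s Ext.none)

def k0_mm_012_s : ∃ t, chk3 f_mm_012_s t 1 1 1 = true :=
  ⟨(l 5), by decide +kernel⟩

theorem c_mm_012_s : CertNE 0 536870912 0 536870912 780900216 37827925 3 eng mog cd0q0 cd0q2 pd1 false false false .pnp 0 1 2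
    ndB0q0 ndB0q2 pcB1 cut_mm_012_s Ext.none :=
  certNE0 (fam := false) (s1 := false) (s2 := false) (a := 0) (b := 1) (c := 2) (cn := .pnp) (n1 := ndB0q0) (n2 := ndB0q2) (pc := pcB1) (cut := cut_mm_012_s) (xt := Ext.none) (P1 := 0) (W1 := 536870912) (P2 := 0) (W2 := 536870912) (P3 := 780900216) (W3 := 37827925) (N0 := 3) (En := eng) (mo := mog) (C1 := cd0q0) (C2 := cd0q2) (C3 := pd1)
    rfl k0_mm_012_s

noncomputable def cut_mm_012_t : Cut := Cut.of [[⟨3, 0, 0, 2845415833⟩]]

noncomputable def f_mm_012_t : ℕ → ℕ → ℕ → ℕ → Bool := onCell 0 536870912 0 536870912 780900216 37827925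
    (rowNE 3 eng mog cd0q0 cd0q2 pd1 0 false false false .pnp 0 1 2 (qsf 0 536870912 0 536870912 1) ndB0q0 ndB0q2 pcB1 cut_mm_012_t Ext.none)

def k0_mm_012_t : ∃ t, chk3 f_mm_012_t t 1 1 1 = true :=
  ⟨(l 5), by decide +kernel⟩

theorem c_mm_012_t : CertNE 0 536870912 0 536870912 780900216 37827925 3 eng mog cd0q0 cd0q2 pd1 false false false .pnp 0 1 2
    ndB0q0 ndB0q2 pcB1 cut_mm_012_t Ext.none :=
  certNE0 (fam := false) (s1 := false) (s2 := false) (a := 0) (b := 1) (c := 2) (cn := .pnp) (n1 := ndB0q0) (n2 := ndB0q2) (pc := pcB1) (cut := cut_mm_012_t) (xt := Ext.none) (P1 := 0) (W1 := 536870912) (P2 := 0) (W2 := 536870912) (P3 := 780900216) (W3 := 37827925) (N0 := 3) (En := eng) (mo := mog) (C1 := cd0q0) (C2 := cd0q2) (C3 := pd1)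
    rfl k0_mm_012_t

noncomputable def cut_mm_022_s : Cut := Cut.of [[⟨4, 0, 0, 1449551462⟩]]

noncomputable def f_mm_022_s : ℕ → ℕ → ℕ → ℕ → Bool := onCell 0 536870912 0 536870912 780900216 37827925
    (rowNE 3 eng mog cd0q0 cd0q2 pd2 0 false false false .pp 0 2 2 (qsf 0 536870912 0 536870912 2) ndB0q0 ndB0q2 pcB2 cut_mm_022_s Ext.none)

def k0_mm_022_s : ∃ t, chk3 f_mm_022_s t 1 1 1 = true :=
  ⟨(l 5), by decide +kernel⟩

theorem c_mm_022_s : CertNE 0 536870912 0 536870912 780900216 37827925 3 eng mog cd0q0 cd0q2 pd2 false false false .pp 0 2 2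
    ndB0q0 ndB0q2 pcB2 cut_mm_022_s Ext.none :=
  certNE0 (fam := false) (s1 := false) (s2 := false) (a := 0) (b := 2) (c := 2) (cn := .pp) (n1 := ndB0q0) (n2 := ndB0q2) (pc := pcB2) (cut := cut_mm_022_s) (xt := Ext.none) (P1 := 0) (W1 := 536870912) (P2 := 0) (W2 := 536870912) (P3 := 780900216) (W3 := 37827925) (N0 := 3) (En := eng) (mo := mog) (C1 := cd0q0) (C2 := cd0q2) (C3 := pd2)
    rfl k0_mm_022_s

noncomputable def cut_mm_022_t : Cut := Cut.of [[⟨3, 0, 0, 2845415833⟩]]

noncomputable def f_mm_022_t : ℕ → ℕ → ℕ → ℕ → Bool := onCell 0 536870912 0 536870912 780900216 37827925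
    (rowNE 3 eng mog cd0q0 cd0q2 pd2 0 false false false .pp 0 2 2 (qsf 0 536870912 0 536870912 2) ndB0q0 ndB0q2 pcB2 cut_mm_022_t Ext.none)

def k0_mm_022_t : ∃ t, chk3 f_mm_022_t t 1 1 1 = true :=
  ⟨(l 5), by decide +kernel⟩

theorem c_mm_022_t : CertNE 0 536870912 0 536870912 780900216 37827925 3 eng mog cd0q0 cd0q2 pd2 false false false .pp 0 2 2
    ndB0q0 ndB0q2 pcB2 cut_mm_022_t Ext.none :=
  certNE0 (fam := false) (s1 := false) (s2 := false) (a := 0) (b := 2) (c := 2) (cn := .pp) (n1 := ndB0q0) (n2 := ndB0q2) (pc := pcB2) (cut := cut_mm_022_t) (xt := Ext.none) (P1 := 0) (W1 := 536870912) (P2 := 0) (W2 := 536870912) (P3 := 780900216) (W3 := 37827925) (N0 := 3) (En := eng) (mo := mog) (C1 := cd0q0) (C2 := cd0q2) (C3 := pd2)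
    rfl k0_mm_022_t

noncomputable def cut_mm_101_s : Cut := Cut.of [[⟨4, 0, 0, 1449551462⟩]]

noncomputable def f_mm_101_s : ℕ → ℕ → ℕ → ℕ → Bool := onCell 536870912 536870912 536870912 536870912 780900216 37827925
    (rowNE 3 eng mog cd0q1 cd0q1 pd0 0 false false false .npn 1 0 1 (qsf 536870912 536870912 536870912 536870912 0) ndB0q1 ndB0q1 pcB0 cut_mm_101_s Ext.none)

def k0_mm_101_s : ∃ t, chk3 f_mm_101_s t 1 1 1 = true :=
  ⟨(l 3), by decide +kernel⟩

theorem c_mm_101_s : CertNE 536870912 536870912 536870912 536870912 780900216 37827925 3 eng mog cd0q1 cd0q1 pd0 false false false .npn 1 0 1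
    ndB0q1 ndB0q1 pcB0 cut_mm_101_s Ext.none :=
  certNE0 (fam := false) (s1 := false) (s2 := false) (a := 1) (b := 0) (c := 1) (cn := .npn) (n1 := ndB0q1) (n2 := ndB0q1) (pc := pcB0) (cut := cut_mm_101_s) (xt := Ext.none) (P1 := 536870912) (W1 := 536870912) (P2 := 536870912) (W2 := 536870912) (P3 := 780900216) (W3 := 37827925) (N0 := 3) (En := eng) (mo := mog) (C1 := cd0q1) (C2 := cd0q1) (C3 := pd0)
    rfl k0_mm_101_s

noncomputable def cut_mm_101_t : Cut := Cut.of [[⟨3, 0, 0, 2845415833⟩]]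

noncomputable def f_mm_101_t : ℕ → ℕ → ℕ → ℕ → Bool := onCell 536870912 536870912 536870912 536870912 780900216 37827925
    (rowNE 3 eng mog cd0q1 cd0q1 pd0 0 false false false .npn 1 0 1 (qsf 536870912 536870912 536870912 536870912 0) ndB0q1 ndB0q1 pcB0 cut_mm_101_t Ext.none)

def k0_mm_101_t : ∃ t, chk3 f_mm_101_t t 1 1 1 = true :=
  ⟨(l 3), by decide +kernel⟩

theorem c_mm_101_t : CertNE 536870912 536870912 536870912 536870912 780900216 37827925 3 eng mog cd0q1 cd0q1 pd0 false false false .npn 1 0 1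
    ndB0q1 ndB0q1 pcB0 cut_mm_101_t Ext.none :=
  certNE0 (fam := false) (s1 := false) (s2 := false) (a := 1) (b := 0) (c := 1) (cn := .npn) (n1 := ndB0q1) (n2 := ndB0q1) (pc := pcB0) (cut := cut_mm_101_t) (xt := Ext.none) (P1 := 536870912) (W1 := 536870912) (P2 := 536870912) (W2 := 536870912) (P3 := 780900216) (W3 := 37827925) (N0 := 3) (En := eng) (mo := mog) (C1 := cd0q1) (C2 := cd0q1) (C3 := pd0)
    rfl k0_mm_101_t

noncomputable def cut_mm_102_s : Cut := Cut.of [[⟨4, 0, 0, 1449551462⟩]]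

noncomputable def f_mm_102_s : ℕ → ℕ → ℕ → ℕ → Bool := onCell 536870912 536870912 0 536870912 780900216 37827925
    (rowNE 3 eng mog cd0q1 cd0q2 pd0 0 false false false .npp 1 0 2 (qsf 536870912 536870912 0 536870912 0) ndB0q1 ndB0q2 pcB0 cut_mm_102_s Ext.none)

def k0_mm_102_s : ∃ t, chk3 f_mm_102_s t 1 1 1 = true :=
  ⟨(a (l 5) (l 3)), by decide +kernel⟩

theorem c_mm_102_s : CertNE 536870912 536870912 0 536870912 780900216 37827925 3 eng mog cd0q1 cd0q2 pd0 false false false .npp 1 0 2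
    ndB0q1 ndB0q2 pcB0 cut_mm_102_s Ext.none :=
  certNE0 (fam := false) (s1 := false) (s2 := false) (a := 1) (b := 0) (c := 2) (cn := .npp) (n1 := ndB0q1) (n2 := ndB0q2) (pc := pcB0) (cut := cut_mm_102_s) (xt := Ext.none) (P1 := 536870912) (W1 := 536870912) (P2 := 0) (W2 := 536870912) (P3 := 780900216) (W3 := 37827925) (N0 := 3) (En := eng) (mo := mog) (C1 := cd0q1) (C2 := cd0q2) (C3 := pd0)
    rfl k0_mm_102_s

noncomputable def cut_mm_102_t : Cut := Cut.of [[⟨3, 0, 0, 2845415833⟩]]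

noncomputable def f_mm_102_t : ℕ → ℕ → ℕ → ℕ → Bool := onCell 536870912 536870912 0 536870912 780900216 37827925
    (rowNE 3 eng mog cd0q1 cd0q2 pd0 0 false false false .npp 1 0 2 (qsf 536870912 536870912 0 536870912 0) ndB0q1 ndB0q2 pcB0 cut_mm_102_t Ext.none)

def k0_mm_102_t : ∃ t, chk3 f_mm_102_t t 1 1 1 = true :=
  ⟨(l 6), by decide +kernel⟩

theorem c_mm_102_t : CertNE 536870912 536870912 0 536870912 780900216 37827925 3 eng mog cd0q1 cd0q2 pd0 false false false .npp 1 0 2
    ndB0q1 ndB0q2 pcB0 cut_mm_102_t Ext.none :=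
  certNE0 (fam := false) (s1 := false) (s2 := false) (a := 1) (b := 0) (c := 2) (cn := .npp) (n1 := ndB0q1) (n2 := ndB0q2) (pc := pcB0) (cut := cut_mm_102_t) (xt := Ext.none) (P1 := 536870912) (W1 := 536870912) (P2 := 0) (W2 := 536870912) (P3 := 780900216) (W3 := 37827925) (N0 := 3) (En := eng) (mo := mog) (C1 := cd0q1) (C2 := cd0q2) (C3 := pd0)
    rfl k0_mm_102_t

noncomputable def cut_mm_112_s : Cut := Cut.of [[⟨4, 0, 0, 1449551462⟩]]

noncomputable def f_mm_112_s : ℕ → ℕ → ℕ → ℕ → Bool := onCell 536870912 536870912 0 536870912 780900216 37827925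
    (rowNE 3 eng mog cd0q1 cd0q2 pd1 2 false false false .dn 1 1 2 (qsf 536870912 536870912 0 536870912 1) ndB0q1 ndB0q2 pcB1 cut_mm_112_s Ext.none)

def k0_mm_112_s : ∃ t, chk3 f_mm_112_s t 1 1 1 = true :=
  ⟨(l 5), by decide +kernel⟩

theorem c_mm_112_s : CertNE 536870912 536870912 0 536870912 780900216 37827925 3 eng mog cd0q1 cd0q2 pd1 false false false .dn 1 1 2
    ndB0q1 ndB0q2 pcB1 cut_mm_112_s Ext.none :=
  certNE2 (fam := false) (s1 := false) (s2 := false) (a := 1) (b := 1) (c := 2) (cn := .dn) (n1 := ndB0q1) (n2 := ndB0q2) (pc := pcB1) (cut := cut_mm_112_s) (xt := Ext.none) (P1 := 536870912) (W1 := 536870912) (P2 := 0) (W2 := 536870912) (P3 := 780900216) (W3 := 37827925) (N0 := 3) (En := eng) (mo := mog) (C1 := cd0q1) (C2 := cd0q2) (C3 := pd1)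
    rfl (fun _ => rfl) k0_mm_112_s

noncomputable def cut_mm_112_t : Cut := Cut.of [[⟨3, 0, 0, 2845415833⟩]]

noncomputable def f_mm_112_t : ℕ → ℕ → ℕ → ℕ → Bool := onCell 536870912 536870912 0 536870912 780900216 37827925
    (rowNE 3 eng mog cd0q1 cd0q2 pd1 0 false false false .dn 1 1 2 (qsf 536870912 536870912 0 536870912 1) ndB0q1 ndB0q2 pcB1 cut_mm_112_t Ext.none)

def k0_mm_112_t : ∃ t, chk3 f_mm_112_t t 1 1 1 = true :=
  ⟨(l 6), by decide +kernel⟩

theorem c_mm_112_t : CertNE 536870912 536870912 0 536870912 780900216 37827925 3 eng mog cd0q1 cd0q2 pd1 false false false .dn 1 1 2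
    ndB0q1 ndB0q2 pcB1 cut_mm_112_t Ext.none :=
  certNE0 (fam := false) (s1 := false) (s2 := false) (a := 1) (b := 1) (c := 2) (cn := .dn) (n1 := ndB0q1) (n2 := ndB0q2) (pc := pcB1) (cut := cut_mm_112_t) (xt := Ext.none) (P1 := 536870912) (W1 := 536870912) (P2 := 0) (W2 := 536870912) (P3 := 780900216) (W3 := 37827925) (N0 := 3) (En := eng) (mo := mog) (C1 := cd0q1) (C2 := cd0q2) (C3 := pd1)
    rfl k0_mm_112_t

noncomputable def cut_mm_202_s : Cut := Cut.of [[⟨4, 0, 0, 1449551462⟩]]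

noncomputable def f_mm_202_s : ℕ → ℕ → ℕ → ℕ → Bool := onCell 0 536870912 0 536870912 780900216 37827925
    (rowNE 3 eng mog cd0q2 cd0q2 pd0 0 false false false .pp 2 0 2 (qsf 0 536870912 0 536870912 0) ndB0q2 ndB0q2 pcB0 cut_mm_202_s Ext.none)

def k0_mm_202_s : ∃ t, chk3 f_mm_202_s t 1 1 1 = true :=
  ⟨(l 3), by decide +kernel⟩

theorem c_mm_202_s : CertNE 0 536870912 0 536870912 780900216 37827925 3 eng mog cd0q2 cd0q2 pd0 false false false .pp 2 0 2
    ndB0q2 ndB0q2 pcB0 cut_mm_202_s Ext.none :=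
  certNE0 (fam := false) (s1 := false) (s2 := false) (a := 2) (b := 0) (c := 2) (cn := .pp) (n1 := ndB0q2) (n2 := ndB0q2) (pc := pcB0) (cut := cut_mm_202_s) (xt := Ext.none) (P1 := 0) (W1 := 536870912) (P2 := 0) (W2 := 536870912) (P3 := 780900216) (W3 := 37827925) (N0 := 3) (En := eng) (mo := mog) (C1 := cd0q2) (C2 := cd0q2) (C3 := pd0)
    rfl k0_mm_202_s

noncomputable def cut_mm_202_t : Cut := Cut.of [[⟨3, 0, 0, 2845415833⟩]]

noncomputable def f_mm_202_t : ℕ → ℕ → ℕ → ℕ → Bool := onCell 0 536870912 0 536870912 780900216 37827925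
    (rowNE 3 eng mog cd0q2 cd0q2 pd0 0 false false false .pp 2 0 2 (qsf 0 536870912 0 536870912 0) ndB0q2 ndB0q2 pcB0 cut_mm_202_t Ext.none)

def k0_mm_202_t : ∃ t, chk3 f_mm_202_t t 1 1 1 = true :=
  ⟨(l 3), by decide +kernel⟩

theorem c_mm_202_t : CertNE 0 536870912 0 536870912 780900216 37827925 3 eng mog cd0q2 cd0q2 pd0 false false false .pp 2 0 2
    ndB0q2 ndB0q2 pcB0 cut_mm_202_t Ext.none :=
  certNE0 (fam := false) (s1 := false) (s2 := false) (a := 2) (b := 0) (c := 2) (cn := .pp) (n1 := ndB0q2) (n2 := ndB0q2) (pc := pcB0) (cut := cut_mm_202_t) (xt := Ext.none) (P1 := 0) (W1 := 536870912) (P2 := 0) (W2 := 536870912) (P3 := 780900216) (W3 := 37827925) (N0 := 3) (En := eng) (mo := mog) (C1 := cd0q2) (C2 := cd0q2) (C3 := pd0)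
    rfl k0_mm_202_t

end Pool.Agent.Strip051.G.I72727_7625.Tab.CS.BB00

namespace Pool.Agent.Strip051.G.I72727_7625.Tab.CS.BB05

open Pool.Agent.Strip051.PB Pool.Agent.Strip051.PB.T
open Pool.Agent.Strip051.G.I72727_7625.Tab

noncomputable def cut_pp_001_s : Cut := Cut.of [[⟨4, 0, 0, 1449551462⟩]]

noncomputable def f_pp_001_s : ℕ → ℕ → ℕ → ℕ → Bool := onCell 0 536870912 0 536870912 780900216 37827925
    (rowNE 3 eng mog cd0q0 cd5q1 pd0 1 false true true .up 0 0 1 (qsf 0 536870912 536870912 536870912 0) ndB0q0 ndB5q1 pcB0 cut_pp_001_s Ext.none)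

def k0_pp_001_s : ∃ t, chk3 f_pp_001_s t 1 1 1 = true :=
  ⟨(l 3), by decide +kernel⟩

theorem c_pp_001_s : CertNE 0 536870912 536870912 536870912 780900216 37827925 3 eng mog cd0q0 cd5q1 pd0 false true true .up 0 0 1
    ndB0q0 ndB5q1 pcB0 cut_pp_001_s Ext.none :=
  certNE1 (fam := false) (s1 := true) (s2 := true) (a := 0) (b := 0) (c := 1) (cn := .up) (n1 := ndB0q0) (n2 := ndB5q1) (pc := pcB0) (cut := cut_pp_001_s) (xt := Ext.none) (P1 := 0) (W1 := 536870912) (P2 := 536870912) (W2 := 536870912) (P3 := 780900216) (W3 := 37827925) (N0 := 3) (En := eng) (mo := mog) (C1 := cd0q0) (C2 := cd5q1) (C3 := pd0)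
    rfl (fun _ => rfl) k0_pp_001_s

noncomputable def cut_pp_011_s : Cut := Cut.of [[⟨4, 0, 0, 1449551462⟩], [⟨0, 0, 0, 67108864⟩, ⟨1, 1, 0, 67108864⟩, ⟨2, 1, 0, 67108864⟩]]

noncomputable def f_pp_011_s : ℕ → ℕ → ℕ → ℕ → Bool := onCell 0 536870912 536870912 536870912 780900216 37827925
    (rowNE 3 eng mog cd0q0 cd5q1 pd1 1 false true true .pnn 0 1 1 (qsf 0 536870912 536870912 536870912 1) ndB0q0 ndB5q1 pcB1 cut_pp_011_s Ext.none)

def k0_pp_011_s : ∃ t, chk3 f_pp_011_s t 1 1 1 = true :=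
  ⟨(b (l 3) (a (b (l 3) (a (b (l 3) (a (b (l 3) (a (l 14) (l 3))) (l 3))) (l 3))) (l 3))), by decide +kernel⟩

theorem c_pp_011_s : CertNE 0 536870912 536870912 536870912 780900216 37827925 3 eng mog cd0q0 cd5q1 pd1 false true true .pnn 0 1 1
    ndB0q0 ndB5q1 pcB1 cut_pp_011_s Ext.none :=
  certNE1 (fam := false) (s1 := true) (s2 := true) (a := 0) (b := 1) (c := 1) (cn := .pnn) (n1 := ndB0q0) (n2 := ndB5q1) (pc := pcB1) (cut := cut_pp_011_s) (xt := Ext.none) (P1 := 0) (W1 := 536870912) (P2 := 536870912) (W2 := 536870912) (P3 := 780900216) (W3 := 37827925) (N0 := 3) (En := eng) (mo := mog) (C1 := cd0q0) (C2 := cd5q1) (C3 := pd1)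
    rfl (fun _ => rfl) k0_pp_011_s

noncomputable def cut_pp_012_s : Cut := Cut.of [[⟨4, 0, 0, 1449551462⟩], [⟨0, 0, 0, 67108864⟩, ⟨1, 1, 0, 67108864⟩, ⟨2, 1, 0, 67108864⟩]]

noncomputable def f_pp_012_s : ℕ → ℕ → ℕ → ℕ → Bool := onCell 0 536870912 536870912 536870912 780900216 37827925
    (rowNE 3 eng mog cd0q0 cd5q2 pd1 1 false true true .pnp 0 1 2 (qsf 0 536870912 1073741824 536870912 1) ndB0q0 ndB5q2 pcB1 cut_pp_012_s Ext.none)

def k0_pp_012_s : ∃ t, chk3 f_pp_012_s t 1 1 1 = true :=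
  ⟨(b (l 3) (a (b (l 3) (a (a (a (b (l 1) (b (l 3) (l 14))) (l 3)) (l 3)) (l 3))) (l 3))), by decide +kernel⟩

theorem c_pp_012_s : CertNE 0 536870912 1073741824 536870912 780900216 37827925 3 eng mog cd0q0 cd5q2 pd1 false true true .pnp 0 1 2
    ndB0q0 ndB5q2 pcB1 cut_pp_012_s Ext.none :=
  certNE1 (fam := false) (s1 := true) (s2 := true) (a := 0) (b := 1) (c := 2) (cn := .pnp) (n1 := ndB0q0) (n2 := ndB5q2) (pc := pcB1) (cut := cut_pp_012_s) (xt := Ext.none) (P1 := 0) (W1 := 536870912) (P2 := 1073741824) (W2 := 536870912) (P3 := 780900216) (W3 := 37827925) (N0 := 3) (En := eng) (mo := mog) (C1 := cd0q0) (C2 := cd5q2) (C3 := pd1)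
    rfl (fun _ => rfl) k0_pp_012_s

noncomputable def cut_pp_022_s : Cut := Cut.of [[⟨4, 0, 0, 1449551462⟩], [⟨0, 0, 0, 67108864⟩, ⟨1, 1, 0, 67108864⟩, ⟨2, 1, 0, 67108864⟩]]

noncomputable def f_pp_022_s : ℕ → ℕ → ℕ → ℕ → Bool := onCell 0 536870912 1073741824 536870912 780900216 37827925
    (rowNE 3 eng mog cd0q0 cd5q2 pd2 1 false true true .pp 0 2 2 (qsf 0 536870912 1073741824 536870912 2) ndB0q0 ndB5q2 pcB2 cut_pp_022_s Ext.none)

def k0_pp_022_s : ∃ t, chk3 f_pp_022_s t 16 16 1 = true :=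
  ⟨(b (l 14) (a (l 14) (b (l 14) (a (l 14) (b (l 14) (a (l 14) (l 16747168))))))), by decide +kernel⟩

def k1_pp_022_s : ∃ t, chk3 f_pp_022_s t 17 32 1 = true :=
  ⟨(a (a (l 14) (l 3)) (l 3)), by decide +kernel⟩

def k2_pp_022_s : ∃ t, chk3 f_pp_022_s t 34 33 1 = true :=
  ⟨(b (a (a (l 14) (b (l 14) (b (l 14) (b (l 14) (l 16766392))))) (a (b (a (l 14) (l 3)) (b (b (a (l 14) (a (b (l 14) (b (l 14) (l 16776600))) (a (b (l 3) (a (b (l 3) (l 156934079239)) (l 556366037703))) (l 3)))) (b (a (l 14) (a (l 16775792) (a (l 16776544) (b (b (l 252497101687) (l 16777488)) (l 16776784))))) (a (l 16773200) (c (l 16775224) (l 16775216))))) (b (a (l 16771584) (c (l 16773608) (l 16773600))) (a (l 16769424) (l 16771440))))) (b (l 3) (a (b (b (l 3) (b (b (l 3) (a (a (a (l 16777792) (l 323364062087)) (l 3)) (l 3))) (b (a (a (l 16776744) (a (l 16777112) (l 293299290967))) (l 3)) (a (l 16776464) (a (a (l 16777080) (l 269140099863)) (l 621327418023)))))) (b (b (b (a (l 16775920) (a (l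 16776680) (c (l 129016791895) (l 16777640)))) (l 16775888)) (l 16775240)) (c (l 16773456) (l 16773448)))) (b (l 3) (b (a (a (b (b (l 583209583223) (c (l 16777776) (l 16777768))) (l 16776336)) (b (l 595020743591) (c (l 16777480) (l 16777472)))) (b (l 3) (b (l 564419101527) (a (l 16777704) (l 517174460887))))) (b (a (l 16775504) (a (l 16776256) (l 16777328))) (l 16774928)))))))) (a (b (a (b (l 14) (l 16755096)) (b (a (l 16762256) (l 16764120)) (c (l 16759488) (l 16759320)))) (a (b (l 16750400) (l 16745712)) (b (l 16755160) (l 16750480)))) (b (a (a (b (l 16766168) (l 16761824)) (b (l 16768840) (l 16763824))) (b (a (c (l 16770208) (l 16770192)) (b (l 16773624) (l 16771128))) (c (l 16768176) (l 16766832)))) (a (b (c (l 16758944) (l 16758808)) (l 16755192)) (b (c (l 16762464) (l 16762400)) (l 16759656)))))), by decide +kernel⟩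

def k3_pp_022_s : ∃ t, chk3 f_pp_022_s t 35 66 1 = true :=
  ⟨(b (l 3) (a (a (a (b (l 3) (b (l 3) (a (b (b (a (l 373293057143) (l 3)) (a (l 16776984) (l 350744478791))) (c (l 16776432) (l 16776424))) (b (l 3) (b (a (l 317458482263) (l 3)) (a (l 16776912) (l 294373032999))))))) (l 3)) (l 3)) (l 3))), by decide +kernel⟩

def k4_pp_022_s : ∃ t, chk3 f_pp_022_s t 35 134 1 = true :=
  ⟨(a (a (b (b (a (a (l 16774808) (b (l 16776352) (l 16775272))) (a (b (b (a (l 251960231047) (l 3)) (a (l 16776832) (l 227801039943))) (l 16776272)) (b (l 3) (b (a (l 204178719751) (l 3)) (a (l 16776752) (l 171966465047)))))) (a (l 16773136) (a (l 16774648) (l 16775648)))) (b (a (l 16770960) (l 16772968)) (l 16770432))) (b (b (l 3) (a (a (b (b (a (l 16777832) (l 620253676183)) (l 16777560)) (l 16776104)) (b (l 613274354951) (b (a (l 16777104) (l 446844372103)) (l 16776824)))) (b (l 3) (a (l 569787810951) (l 3))))) (b (a (c (l 16774976) (l 16774968)) (b (b (a (a (l 16777032) (l 378661766279))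 (l 3)) (a (l 16776744) (l 520395686567))) (b (a (l 16776208) (a (l 16776952) (l 316921611351))) (l 16776160)))) (a (l 16772792) (c (l 16774800) (l 16774792)))))) (b (l 3) (a (b (b (l 3) (a (a (a (l 488720302663) (l 3)) (l 3)) (l 3))) (b (a (a (a (l 16776592) (a (l 16776952) (l 148881016055))) (c (l 488720302871) (l 497310237447))) (l 3)) (a (a (l 16775752) (a (l 16776504) (l 16777632))) (a (c (l 461876757143) (l 471003562615)) (l 3))))) (l 3)))), by decide +kernel⟩

def k5_pp_022_s : ∃ t, chk3 f_pp_022_s t 35 135 1 = true :=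
  ⟨(b (a (a (c (l 16766512) (l 16766472)) (a (l 16769504) (a (l 16771016) (l 16772672)))) (a (a (b (l 16774616) (l 16772424)) (b (b (a (l 16777296) (a (a (l 183240754455) (l 311552902647)) (l 592873259895))) (c (l 16776712) (l 16776056))) (l 16774424))) (b (a (b (l 3) (b (l 575156520343) (a (l 185388238263) (l 3)))) (l 3)) (a (a (l 16776568) (b (a (l 145122919927) (c (l 258402682439) (l 260550166071))) (l 16776368))) (b (l 3) (a (a (l 16777728) (l 323364062967)) (l 3))))))) (a (a (l 16762088) (l 16767088)) (a (b (l 16771712) (l 16769016)) (b (a (l 16774224) (b (a (l 16776264) (a (l 16776984) (l 277193164471))) (l 16775664))) (a (l 16772016) (l 16774016)))))), by decide +kernel⟩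

def k6_pp_022_s : ∃ t, chk3 f_pp_022_s t 8 17 1 = true :=
  ⟨(a (a (a (b (l 14) (b (b (l 14) (l 16652368)) (l 16637880))) (b (b (l 14) (b (l 14) (l 16682504))) (b (b (l 16672928) (l 16663352)) (l 16628008)))) (b (b (a (b (l 14) (b (l 14) (l 16688704))) (b (b (l 16733760) (l 16729064)) (a (l 16698608) (l 16703512)))) (b (a (b (l 16704928) (l 16700184)) (l 16712680)) (a (l 16672096) (a (l 16700816) (l 16684840))))) (b (a (a (l 16655200) (l 16660472)) (b (l 16672968) (l 16684504))) (a (b (l 16664544) (l 16655024)) (b (l 16675056) (l 16665600)))))) (b (a (b (a (a (b (l 16738688) (l 16729336)) (b (l 16743464) (l 16734128))) (b (a (l 16750808) (b (l 16754624) (l 16750520))) (a (l 16738864) (l 16743544)))) (a (b (l 16722424) (l 16713128)) (b (l 16731928) (l 16722648)))) (b (a (b (a (b (l 16757816) (l 16754024)) (b (l 16761680) (l 16757288))) (a (l 16748160) (b (l 16753408) (l 16749776)))) (b (a (b (l 16765696) (l 16761248)) (b (c (l 16771024) (l 16769680)) (l 16765256)))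 (a (b (l 16756768) (l 16752768)) (b (l 16760784) (l 16756264))))) (a (b (a (l 16738888) (l 16743464)) (l 16731944)) (b (a (l 16747312) (l 16752952)) (l 16741016))))) (a (b (b (a (l 16703840) (l 16713400)) (a (l 16673584) (l 16704168))) (a (b (l 16664296) (l 16675920)) (l 16690352))) (b (a (b (l 16722720) (l 16713520)) (b (l 16731816) (l 16722632))) (a (l 16699760) (l 16708928)))))), by decide +kernel⟩

def k7_pp_022_s : ∃ t, chk3 f_pp_022_s t 9 16 1 = true :=
  ⟨(a (b (l 3) (b (l 3) (a (b (l 3) (a (b (l 3) (a (a (a (b (b (l 630991095079) (a (l 16776888) (l 231559136871))) (l 16775512)) (b (l 611663742807) (b (a (l 16776792) (l 181093271143)) (l 16775952)))) (b (l 3) (b (l 568177198711) (a (l 16778216) (l 516637590391))))) (l 3))) (l 3))) (l 3)))) (l 3)), by decide +kernel⟩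

def k8_pp_022_s : ∃ t, chk3 f_pp_022_s t 18 68 1 = true :=
  ⟨(a (b (a (a (b (b (a (l 16773800) (a (l 16775296) (a (l 16776040) (l 16777824)))) (l 16773240)) (c (l 16769264) (l 16769232))) (a (b (b (b (c (l 522006300007) (l 531669976391)) (a (l 16776712) (l 315310999879))) (l 16776376)) (l 16772232)) (b (b (l 3) (b (c (l 478519755815) (l 487109690375)) (a (l 16776496) (l 239612201111)))) (a (l 16773728) (l 16775376))))) (b (l 3) (a (a (b (b (c (l 436106952759) (l 442549403687)) (a (l 16776264) (l 16778216))) (l 16775096)) (b (l 629917354487) (b (a (l 16778384) (l 594483872855)) (l 16777800)))) (a (b (l 3) (l 595020744871)) (l 3))))) (a (a (b (l 16764784) (l 16760296)) (b (l 16768768) (l 16764280))) (a (b (a (l 16771752) (l 16773728)) (l 16768256)) (b (b (b (a (a (l 16776856) (l 383493605575)) (l 3)) (a (l 16776256) (l 509658268855))) (b (a (l 16775152) (a (l 16776624) (l 289004325031))) (l 16775016))) (c (l 16772232) (l 16772208)))))) (b (l 3) (a (b (b (l 3) (a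 (a (a (l 466171724695) (l 3)) (l 3)) (l 3))) (a (b (b (a (l 9831451191) (l 3)) (a (l 16775744) (c (l 267529489415) (l 268066360343)))) (a (l 16774064) (l 16777312))) (b (l 3) (b (l 611126872759) (a (c (l 205789334359) (l 206326205255)) (l 3)))))) (l 3)))), by decide +kernel⟩

def k9_pp_022_s : ∃ t, chk3 f_pp_022_s t 18 69 1 = true :=
  ⟨(a (a (b (b (l 16757768) (l 16755272)) (a (l 16745880) (l 16748928))) (b (b (a (l 16763744) (l 16767704)) (l 16763776)) (a (l 16752312) (l 16756272)))) (b (a (a (b (c (l 16771672) (l 16771648)) (l 16767104)) (b (b (a (l 16775736) (b (l 518248203463) (l 139217341319))) (l 16774472)) (l 16771064))) (a (a (b (b (l 3) (a (l 16778496) (l 307257937319))) (l 16774024)) (b (l 3) (b (a (l 16776592) (l 239612202295)) (l 16774864)))) (b (l 3) (b (l 613274356935) (a (a (l 16776304) (l 171429596343)) (l 556366038759)))))) (a (a (l 16760224) (l 16767472)) (a (b (l 16770448) (l 16765872)) (b (a (l 16773408) (b (l 16778896) (l 16774232))) (l 16769816)))))),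 by decide +kernel⟩

def k10_pp_022_s : ∃ t, chk3 f_pp_022_s t 18 35 1 = true :=
  ⟨(a (b (a (b (l 16740112) (l 16731528)) (b (a (l 16744376) (l 16747464)) (l 16738560))) (a (l 16717792) (l 16726328))) (b (a (b (a (l 16751040) (l 16755048)) (l 16752536)) (b (b (l 16763264) (l 16758696)) (l 16757088))) (a (b (l 16737240) (l 16729792)) (b (l 16753992) (l 16736192))))), by decide +kernel⟩

def k11_pp_022_s : ∃ t, chk3 f_pp_022_s t 19 17 1 = true :=
  ⟨(b (b (l 3) (a (b (l 3) (a (a (b (b (a (l 489794045239) (l 3)) (a (l 16776144) (l 444160017271))) (a (l 16772760) (l 16774696))) (b (l 3) (b (a (a (l 173040209063) (l 393157283383)) (l 3)) (a (l 16775512) (a (l 16776888) (l 315847871911)))))) (l 3))) (l 3))) (b (a (b (a (b (a (l 16769160) (l 16773056)) (l 16769152)) (a (b (b (a (c (l 137069858503) (l 135996116647)) (l 600389453831)) (a (l 16774824) (l 16779280))) (l 16772352)) (a (b (l 578377747271) (l 16777824)) (b (l 3) (b (l 471003563095) (l 16775992)))))) (a (l 16763624)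 (b (a (l 16767784) (l 16771624)) (l 16765152)))) (b (a (a (a (b (l 3) (b (l 3) (l 277193167271))) (l 3)) (l 3)) (l 3)) (a (b (b (a (a (l 16775632) (l 211158044871)) (l 3)) (a (l 16774304) (a (l 149954760471) (l 608979388423)))) (a (l 16770888) (a (l 16773728) (l 16778832)))) (a (b (l 3) (a (b (l 525764396567) (l 16776304)) (l 540259911959))) (l 3))))) (a (b (a (l 16750760) (l 16763648)) (a (l 16752968) (l 16749680))) (b (b (a (l 16768232) (a (l 16773864) (c (b (l 468319208999) (l 72108479047)) (b (l 475835401703) (l 69424124455))))) (a (l 16763744) (a (l 16769352) (l 16773056)))) (a (l 16757128) (b (l 16766728) (l 16762320))))))), by decide +kernel⟩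

def k12_pp_022_s : ∃ t, chk3 f_pp_022_s t 5 8 1 = true :=
  ⟨(a (b (l 3) (b (l 3) (a (b (l 3) (a (b (a (b (a (l 646560354759) (l 3)) (b (a (a (l 16776856) (l 578377746151)) (l 3)) (a (l 16775568) (l 530596235479)))) (l 3)) (a (b (a (l 16772224) (a (l 16774944) (a (l 16776240) (l 154786600135)))) (l 16769576)) (b (a (a (b (l 3) (l 16779808)) (l 3)) (l 3)) (a (c (l 16777544) (l 16777544)) (a (a (l 169818985655) (l 292762425207)) (l 555292297671)))))) (l 3))) (l 3)))) (l 3)), by decide +kernel⟩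

def k13_pp_022_s : ∃ t, chk3 f_pp_022_s t 4 9 1 = true :=
  ⟨(b (a (a (b (b (a (a (l 16622008) (l 16633192)) (a (l 16623104) (l 16654688))) (a (l 16614712) (l 16636496))) (a (a (l 16588160) (l 16599392)) (b (l 16622784) (l 16608352)))) (b (a (b (a (l 16665008) (l 16674968)) (l 16657112)) (b (a (l 16684328) (l 16693208)) (a (l 16671480) (l 16677616)))) (a (b (l 16643304) (l 16625616)) (b (l 16654208) (l 16635128))))) (b (a (a (b (a (l 16701752) (l 16709888)) (l 16696296)) (b (a (l 16717008) (l 16733680)) (a (l 16697032) (l 16703744)))) (b (a (a (b (l 16734080) (l 16724696)) (b (l 16750992) (l 16731064))) (a (b (l 16747776) (l 16737712)) (b (l 16755208) (l 16745168)))) (a (a (l 16710456) (l 16717160)) (a (l 16729096) (b (l 16735280) (l 16726184)))))) (a (a (b (l 16676856) (l 16646352)) (b (l 16701424) (l 16660616))) (a (b (a (l 16691272) (l 16698480)) (l 16675872)) (b (a (l 16705672) (l 16712856)) (l 16712248)))))) (a (a (b (a (b (l 16571232) (l 16555232)) (b (l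 16593088) (l 16576976))) (a (l 16531928) (l 16553128))) (b (a (b (l 16607712) (l 16590936)) (b (l 16617392) (l 16600816))) (a (l 16565888) (l 16576416)))) (b (a (a (b (l 16627848) (l 16611376)) (b (l 16641192) (l 16623336))) (b (a (l 16657048) (l 16673200)) (a (l 16638560) (l 16655096)))) (a (a (l 16587680) (l 16621024)) (a (b (l 16620648) (l 16604912)) (b (l 16636392) (l 16618400))))))), by decide +kernel⟩

def k14_pp_022_s : ∃ t, chk3 f_pp_022_s t 10 18 1 = true :=
  ⟨(b (a (b (a (a (b (b (l 16765000) (l 16760144)) (l 16752736)) (b (b (a (l 16770432) (l 16774008)) (l 16767496)) (l 16760240))) (b (a (b (a (b (l 468319209031) (l 16778984)) (l 647097225623)) (a (l 16772960) (a (l 16775624) (a (l 16779840) (l 242296559719))))) (b (l 3) (a (l 560661007623) (l 3)))) (a (b (l 16770048) (l 16765296)) (c (b (a (l 16780688) (l 453286823863)) (l 16772600)) (b (a (l 16780680) (l 457044920183)) (l 16775208)))))) (a (a (b (l 16742872) (l 16733240)) (b (l 16750584) (l 16740952)))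 (a (b (l 16758120) (l 16748584)) (b (l 16768096) (l 16755928))))) (b (a (b (l 3) (a (a (b (l 3) (a (l 147807279303) (l 474224789255))) (l 3)) (l 3))) (l 3)) (a (b (a (a (l 16770896) (b (a (l 16775912) (l 218137369463)) (l 16772112))) (b (a (l 581062102567) (l 3)) (a (l 16780840) (l 461876758519)))) (a (l 16763144) (b (l 16775288) (l 16767904)))) (b (l 3) (a (a (b (a (l 16779560) (l 339470196471)) (l 16773208)) (b (l 3) (l 124721829271))) (b (l 3) (l 585893937127))))))) (a (b (a (a (l 16730560) (b (l 16731584) (l 16722904))) (b (l 16748016) (a (l 16729872) (l 16737024)))) (a (a (l 16702616) (l 16709936)) (a (l 16716864) (l 16734216)))) (b (a (a (l 16754104) (b (l 16760736) (l 16751264))) (b (a (l 16767768) (b (a (l 16775336) (l 302962976551)) (l 16772336))) (a (l 16758256) (l 16765168)))) (a (a (l 16735568) (l 16737216)) (a (l 16744192) (l 16761496)))))), by decide +kernel⟩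

def k15_pp_022_s : ∃ t, chk3 f_pp_022_s t 11 18 1 = true :=
  ⟨(b (l 3) (a (b (a (b (a (b (l 3) (a (l 193441309271) (l 623474904951))) (l 3)) (a (b (c (l 16779568) (l 16779552)) (l 16769616)) (b (l 524690656199) (a (l 16774648) (l 235854111671))))) (a (l 3) (l 3))) (b (a (a (l 16762488) (l 16769176)) (a (b (a (l 16776392) (l 378661775735)) (l 16773360)) (b (l 3) (l 454897434855)))) (a (l 16761648) (a (l 16766232) (b (l 16780232) (l 16770304)))))) (b (l 3) (a (b (l 3) (a (b (l 618106191095) (l 131164285127)) (l 3))) (l 3))))), by decide +kernel⟩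

def k16_pp_022_s : ∃ t, chk3 f_pp_022_s t 5 19 1 = true :=
  ⟨(a (b (a (b (a (l 16688696) (l 16723792)) (a (l 16670848) (l 16699984))) (b (a (c (l 16737128) (l 16726552)) (a (l 16726104) (l 16732560))) (a (b (l 16702264) (l 16692944)) (b (l 16715576) (l 16706248))))) (a (a (b (l 16652032) (l 16633048)) (b (l 16665928) (l 16647416))) (a (b (l 16679120) (l 16660648)) (b (l 16692352) (l 16673744))))) (b (a (b (a (a (l 16739208) (l 16745672)) (a (l 16752064) (l 16766256))) (a (b (l 16728728) (l 16719392)) (b (l 16741432) (l 16732040)))) (b (a (b (a (l 16769480) (b (a (l 16776464) (l 408726546631)) (l 16773328))) (a (l 16760000) (l 16766176))) (b (a (b (l 3) (l 286319982759)) (l 3)) (a (l 16780104) (b (l 583209579783) (l 16781048))))) (a (b (l 16753688) (l 16744224)) (b (a (l 16762744) (l 16768720)) (l 16756184))))) (a (b (a (l 16705352) (b (l 16722616) (l 16713160))) (a (l 16686608) (l 16698944))) (b (a (b (l 16734712) (l 16725176)) (l 16762768)) (a (l 16731904) (b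 (l 16727432) (l 16717944))))))), by decide +kernel⟩

def k17_pp_022_s : ∃ t, chk3 f_pp_022_s t 2 5 1 = true :=
  ⟨(b (a (a (b (b (a (a (l 16498296) (l 16518384)) (a (l 16535976) (l 16547648))) (a (b (l 16479656) (b (l 16462880) (l 16449256))) (b (l 16513728) (b (l 16496200) (l 16482744))))) (a (a (l 16400320) (l 16417624)) (b (l 16458112) (l 16422640)))) (b (b (a (a (l 16560256) (l 16573152)) (a (l 16585504) (l 16617048))) (a (b (l 16538648) (b (l 16521576) (l 16508216))) (b (l 16559760) (b (l 16543360) (l 16531304))))) (a (c (l 16510496) (l 16503824)) (b (a (l 16500792) (l 16513264)) (a (l 16464712) (l 16477336)))))) (b (b (a (a (b (a (l 16615504) (l 16628720)) (l 16625032)) (b (l 16669664) (l 16630064))) (a (a (l 16679384) (l 16712456)) (a (b (l 16691824) (l 16672808)) (b (l 16703536) (l 16684488))))) (a (b (a (l 16584328) (l 16663784)) (b (a (l 16568960) (l 16597416)) (a (l 16579096) (l 16588016)))) (b (a (l 16657224) (l 16680672)) (b (a (l 16622600) (l 16645592))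 (a (b (l 16616544) (l 16612776)) (b (l 16639240) (l 16656872))))))) (b (a (a (a (l 16526960) (l 16542080)) (l 16565232)) (a (l 16592656) (l 16658376))) (a (a (a (l 16491048) (l 16506200)) (l 16529240)) (a (l 16556792) (l 16581480)))))) (a (a (a (b (b (l 16357976) (l 16322872)) (l 16269640)) (b (b (l 16323592) (l 16350840)) (l 16298232))) (a (b (b (l 16348440) (l 16292064)) (l 16323552)) (b (b (l 16456328) (l 16420968)) (l 16347912)))) (a (a (b (b (a (l 16455496) (l 16470568)) (l 16343912)) (l 16375720)) (b (a (l 16468424) (l 16483336)) (l 16428584))) (b (a (b (l 16521560) (l 16487552)) (b (l 16548368) (l 16517224))) (a (l 16440208) (l 16473296)))))), by decide +kernel⟩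

def k18_pp_022_s : ∃ t, chk3 f_pp_022_s t 2 3 1 = true :=
  ⟨(b (a (a (b (a (b (l 16199928) (l 16131640)) (b (l 16228984) (l 16161608))) (l 6)) (b (a (b (l 16254992) (l 16188136)) (b (l 16279616) (l 16214128))) (b (a (l 16124048) (l 16216144)) (l 6)))) (b (a (a (b (l 16308800) (b (l 16261448) (l 16232184))) (b (l 16344520) (l 16308656))) (a (b (b (l 16395936) (l 16368456)) (l 16330280)) (a (l 16385472) (l 16405584)))) (b (a (a (l 16191176) (l 16237400)) (a (l 16285136) (l 2))) (l 6)))) (l 6)), by decide +kernel⟩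

def k19_pp_022_s : ∃ t, chk3 f_pp_022_s t 3 4 1 = true :=
  ⟨(b (l 3) (a (b (l 3) (a (b (a (b (a (b (l 3) (a (l 686288791111) (l 3))) (l 3)) (a (a (b (b (l 146196672247) (l 16772224)) (l 16764992)) (b (b (l 3) (l 198810022599)) (l 16770784))) (b (l 3) (a (b (c (l 265918886439) (l 16776032)) (l 16774064)) (a (l 530059352663) (l 3)))))) (l 3)) (a (b (a (a (l 16750520) (l 16766736)) (a (b (l 16766784) (l 16757120)) (b (c (l 16772376) (l 16772400)) (l 16762744)))) (a (c (l 16755024) (l 16734336)) (c (l 16766512) (l 16745784)))) (c (b (a (a (b (a (l 130627416039) (l 290614950967)) (l 16768216)) (b (l 614348088135) (l 16784016))) (b (l 3) (a (c (l 255718343623) (l 257865826999)) (l 605758152119)))) (a (b (l 16761336) (l 16751864)) (b (a (l 16769216) (l 49559908695)) (l 16762352)))) (b (a (b (a (l 159081579799) (l 615958698503)) (l 16770936)) (a (l 501068322743) (l 615958689127))) (a (l 16756800) (b (l 16771776) (l 16762536))))))) (b (l 3) (a (b (l 3) (a (b (c (a (c (l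 262697665847) (l 264308278279)) (l 579988347847)) (l 313163542775)) (c (a (l 16769752) (l 16782240)) (l 16772168))) (b (l 3) (c (a (c (l 255181472695) (l 254644601703)) (l 542944255383)) (l 300278639799))))) (l 3))))) (l 3))), by decide +kernel⟩

def k20_pp_022_s : ∃ t, chk3 f_pp_022_s t 3 5 1 = true :=
  ⟨(b (a (a (b (b (b (a (a (l 16736232) (b (l 16731440) (l 16722056))) (a (c (l 16758632) (l 16738160)) (c (l 16764016) (l 16748744)))) (a (a (l 16696176) (l 16707848)) (a (l 16740344) (c (l 16750456) (l 16730400))))) (b (a (a (l 16677248) (l 16689024)) (a (l 16700536) (l 16711424))) (a (b (l 16669160) (b (l 16662096) (a (l 16652080) (l 16663392)))) (b (l 16720952) (b (l 16684960) (l 16701352)))))) (b (a (a (l 16633224) (l 16645160)) (a (l 16657232) (l 16668488))) (a (l 16607424) (l 16654176)))) (a (b (b (a (b (c (b (l 16762856) (l 16753496)) (l 16758568)) (c (l 16760304) (l 16740280))) (b (c (b (c (l 16782312) (l 16771904)) (l 16762544)) (b (l 16772000) (l 16762928)))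 (c (l 16764016) (l 16749176)))) (b (b (a (l 16726304) (l 16735168)) (a (l 16716904) (l 16726144))) (b (a (l 16707448) (l 16716528)) (b (l 16725656) (a (l 16695496) (l 16704400)))))) (b (a (l 16678824) (l 16688168)) (l 16676552))) (a (b (b (b (c (a (b (l 228874796999) (l 16768944)) (b (l 510732001671) (l 16773064))) (b (l 278803800359) (l 16771192))) (c (b (l 16761480) (l 16751944)) (l 16757328))) (b (b (l 16743288) (l 16734480)) (b (l 16725040) (b (l 16717536) (l 16712744))))) (b (l 16696912) (l 2))) (b (b (b (b (l 3) (c (a (l 183777639799) (l 316921629239)) (l 240685964855))) (c (b (l 16769576) (l 16759912)) (b (l 16769856) (l 16760560)))) (b (a (b (l 16749088) (l 2)) (l 2)) (l 2))) (l 2))))) (b (b (b (b (l 3) (l 2)) (l 2)) (l 2)) (l 2))) (a (a (b (a (b (l 16577016) (l 16547944)) (b (l 16604776) (l 16577640))) (a (l 16507144) (l 16539792))) (b (a (b (l 16628880) (l 2)) (l 2)) (l 2))) (l 2))), by decide +kernel⟩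

def k21_pp_022_s : ∃ t, chk3 f_pp_022_s t 3 3 1 = true :=
  ⟨(a (b (a (b (b (a (l 16520896) (l 2)) (l 2)) (l 2)) (l 2)) (l 2)) (l 2)), by decide +kernel⟩

theorem s22_pp_022_s : ∃ t, chk3 f_pp_022_s t 3 2 1 = true := ex3_b k19_pp_022_s k20_pp_022_s

theorem s23_pp_022_s : ∃ t, chk3 f_pp_022_s t 3 1 1 = true := ex3_b s22_pp_022_s k21_pp_022_s

theorem s24_pp_022_s : ∃ t, chk3 f_pp_022_s t 5 18 1 = true := ex3_a k14_pp_022_s k15_pp_022_s

theorem s25_pp_022_s : ∃ t, chk3 f_pp_022_s t 5 9 1 = true := ex3_b s24_pp_022_s k16_pp_022_s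

theorem s26_pp_022_s : ∃ t, chk3 f_pp_022_s t 2 9 1 = true := ex3_a k13_pp_022_s s25_pp_022_s

theorem s27_pp_022_s : ∃ t, chk3 f_pp_022_s t 18 34 1 = true := ex3_b k8_pp_022_s k9_pp_022_s

theorem s28_pp_022_s : ∃ t, chk3 f_pp_022_s t 18 17 1 = true := ex3_b s27_pp_022_s k10_pp_022_s

theorem s29_pp_022_s : ∃ t, chk3 f_pp_022_s t 9 17 1 = true := ex3_a s28_pp_022_s k11_pp_022_s

theorem s30_pp_022_s : ∃ t, chk3 f_pp_022_s t 9 8 1 = true := ex3_b k7_pp_022_s s29_pp_022_s

theorem s31_pp_022_s : ∃ t, chk3 f_pp_022_s t 35 67 1 = true := ex3_b k4_pp_022_s k5_pp_022_s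

theorem s32_pp_022_s : ∃ t, chk3 f_pp_022_s t 35 33 1 = true := ex3_b k3_pp_022_s s31_pp_022_s

theorem s33_pp_022_s : ∃ t, chk3 f_pp_022_s t 17 33 1 = true := ex3_a k2_pp_022_s s32_pp_022_s

theorem s34_pp_022_s : ∃ t, chk3 f_pp_022_s t 17 16 1 = true := ex3_b k1_pp_022_s s33_pp_022_s

theorem s35_pp_022_s : ∃ t, chk3 f_pp_022_s t 8 16 1 = true := ex3_a k0_pp_022_s s34_pp_022_s

theorem s36_pp_022_s : ∃ t, chk3 f_pp_022_s t 8 8 1 = true := ex3_b s35_pp_022_s k6_pp_022_s

theorem s37_pp_022_s : ∃ t, chk3 f_pp_022_s t 4 8 1 = true := ex3_a s36_pp_022_s s30_pp_022_s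

theorem s38_pp_022_s : ∃ t, chk3 f_pp_022_s t 2 8 1 = true := ex3_a s37_pp_022_s k12_pp_022_s

theorem s39_pp_022_s : ∃ t, chk3 f_pp_022_s t 2 4 1 = true := ex3_b s38_pp_022_s s26_pp_022_s

theorem s40_pp_022_s : ∃ t, chk3 f_pp_022_s t 2 2 1 = true := ex3_b s39_pp_022_s k17_pp_022_s

theorem s41_pp_022_s : ∃ t, chk3 f_pp_022_s t 2 1 1 = true := ex3_b s40_pp_022_s k18_pp_022_s

theorem s42_pp_022_s : ∃ t, chk3 f_pp_022_s t 1 1 1 = true := ex3_a s41_pp_022_s s23_pp_022_s

theorem c_pp_022_s : CertNE 0 536870912 1073741824 536870912 780900216 37827925 3 eng mog cd0q0 cd5q2 pd2 false true true .pp 0 2 2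
    ndB0q0 ndB5q2 pcB2 cut_pp_022_s Ext.none :=
  certNE1 (fam := false) (s1 := true) (s2 := true) (a := 0) (b := 2) (c := 2) (cn := .pp) (n1 := ndB0q0) (n2 := ndB5q2) (pc := pcB2) (cut := cut_pp_022_s) (xt := Ext.none) (P1 := 0) (W1 := 536870912) (P2 := 1073741824) (W2 := 536870912) (P3 := 780900216) (W3 := 37827925) (N0 := 3) (En := eng) (mo := mog) (C1 := cd0q0) (C2 := cd5q2) (C3 := pd2)
    rfl (fun _ => rfl) s42_pp_022_s

noncomputable def cut_pp_023_s : Cut := Cut.of [[⟨4, 0, 0, 1449551462⟩]]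

noncomputable def f_pp_023_s : ℕ → ℕ → ℕ → ℕ → Bool := onCell 1073741824 536870912 0 1230186008 780900216 37827925
    (rowNE 3 eng mog cd0q0 cd5q3 pd2 2 false true true .up 0 2 3 (qsf 0 536870912 0 1230186008 2) ndB0q0 ndB5q3 pcB2 cut_pp_023_s Ext.none)

def k0_pp_023_s : ∃ t, chk3 f_pp_023_s t 2 2 1 = true :=
  ⟨(l 2), by decide +kernel⟩

def k1_pp_023_s : ∃ t, chk3 f_pp_023_s t 4 3 1 = true :=
  ⟨(b (l 2) (b (l 2) (l 3))), by decide +kernel⟩

def k2_pp_023_s : ∃ t, chk3 f_pp_023_s t 5 6 1 = true :=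
  ⟨(a (l 2) (b (l 2) (a (l 2) (b (l 2) (l 362488256279))))), by decide +kernel⟩

def k3_pp_023_s : ∃ t, chk3 f_pp_023_s t 10 14 1 = true :=
  ⟨(a (a (l 3) (a (l 3) (b (l 2) (b (l 2) (a (a (b (l 3) (l 284709372519)) (b (l 16777056) (l 16775112))) (a (a (a (l 13522454983) (l 16784016)) (l 16782856)) (l 16780536))))))) (a (b (l 2) (b (a (l 16787960) (l 16755848)) (b (l 16757544) (l 16753832)))) (b (l 261556826135) (b (l 16738688) (c (l 16729688) (l 16728904)))))), by decide +kernel⟩

def k4_pp_023_s : ∃ t, chk3 f_pp_023_s t 10 30 1 = true :=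
  ⟨(a (a (l 3) (a (a (b (l 3) (b (l 3) (c (c (l 258402710775) (l 266992644503)) (l 275045707879)))) (b (b (c (l 278803810423) (l 368461235335)) (c (l 231022295847) (l 16775144))) (b (c (a (l 16777120) (l 16771856)) (l 16774608)) (c (l 16768648) (l 16769072))))) (a (a (b (b (l 16783904) (l 16772088)) (b (l 16777648) (l 16769360))) (b (b (l 16771976) (l 16767904)) (c (l 16780832) (l 16760336)))) (b (a (b (c (l 16768488) (l 16768448)) (c (l 16764152) (l 16764240))) (c (l 16783400) (l 16762440))) (a (a (b (l 16759984) (l 16754104)) (b (l 16757904) (l 16751528))) (b (l 16758160) (l 16747208))))))) (a (b (c (b (l 16749088) (l 16743080)) (l 16777624)) (b (c (l 16735976) (l 16736816)) (c (l 16728040) (l 16729520)))) (b (c (l 16716840) (l 16716792)) (c (l 16700248) (l 16701472))))), by decide +kernel⟩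

def k5_pp_023_s : ∃ t, chk3 f_pp_023_s t 10 31 1 = true :=
  ⟨(a (a (b (a (l 3) (a (l 3) (b (c (l 478519742183) (l 336248994215)) (c (a (l 311016052615) (l 97878294247)) (l 193978197895))))) (a (a (l 3) (b (l 3) (b (l 3) (c (l 458118652247) (l 321753469639))))) (a (b (a (l 3) (c (c (l 250886508791) (l 16786512)) (l 16775912))) (c (b (l 139217354647) (l 16770856)) (l 16773152))) (c (b (c (l 16780424) (l 16770112)) (l 16761464)) (b (l 16770344) (l 16762064)))))) (a (b (a (c (b (c (l 47949303223) (l 16773480)) (l 16766320)) (b (l 16773640) (l 16766824))) (c (b (l 16762216) (l 16755240)) (b (l 16762912) (l 16756152)))) (a (b (c (l 16758504) (l 16759280)) (c (l 16750064) (l 16751072))) (b (c (l 16747648) (l 16748760)) (c (l 16739224) (l 16740520))))) (a (b (c (b (l 16763064) (l 16755768)) (b (l 16753408) (l 16746392))) (b (c (l 16737128) (l 16738552)) (c (l 16727968) (l 16729768)))) (b (a (b (a (l 16749920) (l 16744080)) (l 16737504)) (c (b (l 16738768) (l 16730408))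 (l 16736584))) (c (a (l 16743984) (l 16737840)) (b (l 16727136) (l 16717976))))))) (b (b (c (a (l 16719672) (l 16686296)) (l 16747208)) (c (l 16735496) (l 16717344))) (a (b (c (l 16701304) (l 16704480)) (l 16719528)) (b (l 16667568) (l 16656344))))), by decide +kernel⟩

def k6_pp_023_s : ∃ t, chk3 f_pp_023_s t 11 7 1 = true :=
  ⟨(b (b (b (l 212701532711) (a (l 16714464) (l 16671696))) (b (a (a (l 16715832) (l 16691512)) (l 16654144)) (a (a (l 16660760) (l 16675328)) (l 16633408)))) (b (b (a (b (l 16697408) (l 16730448)) (l 16632368)) (a (a (b (l 16673792) (l 16664088)) (l 16636600)) (a (l 16604560) (l 16571000)))) (b (a (a (l 16648776) (l 16529720)) (a (l 16577880) (l 16541264))) (a (a (l 16624632) (l 16586360)) (l 16525760))))), by decide +kernel⟩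

def k7_pp_023_s : ∃ t, chk3 f_pp_023_s t 3 1 1 = true :=
  ⟨(a (b (l 2) (a (b (b (l 2) (b (l 247061222935) (a (l 16563488) (l 16635368)))) (b (b (b (l 16730120) (l 16707536)) (b (l 16618016) (a (l 16576880) (l 16519400)))) (b (b (a (l 16550056) (l 16485160)) (a (l 16519296) (l 16446200))) (b (a (l 16483032) (l 16401896)) (a (a (l 16462984) (l 16419840)) (l 16354408)))))) (a (b (b (l 16698472) (b (l 16638160) (l 16599608))) (b (b (l 16544360) (l 16477024)) (b (l 16580376) (b (l 16317448) (l 16264040))))) (b (b (l 6) (l 6)) (b (l 6) (l 6)))))) (b (l 6) (l 6))), by decide +kernel⟩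

theorem s8_pp_023_s : ∃ t, chk3 f_pp_023_s t 10 15 1 = true := ex3_b k4_pp_023_s k5_pp_023_s

theorem s9_pp_023_s : ∃ t, chk3 f_pp_023_s t 10 7 1 = true := ex3_b k3_pp_023_s s8_pp_023_s

theorem s10_pp_023_s : ∃ t, chk3 f_pp_023_s t 5 7 1 = true := ex3_a s9_pp_023_s k6_pp_023_s

theorem s11_pp_023_s : ∃ t, chk3 f_pp_023_s t 5 3 1 = true := ex3_b k2_pp_023_s s10_pp_023_s

theorem s12_pp_023_s : ∃ t, chk3 f_pp_023_s t 2 3 1 = true := ex3_a k1_pp_023_s s11_pp_023_s

theorem s13_pp_023_s : ∃ t, chk3 f_pp_023_s t 2 1 1 = true := ex3_b k0_pp_023_s s12_pp_023_s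

theorem s14_pp_023_s : ∃ t, chk3 f_pp_023_s t 1 1 1 = true := ex3_a s13_pp_023_s k7_pp_023_s

theorem c_pp_023_s : CertNE 0 536870912 0 1230186008 780900216 37827925 3 eng mog cd0q0 cd5q3 pd2 false true true .up 0 2 3
    ndB0q0 ndB5q3 pcB2 cut_pp_023_s Ext.none :=
  certNE2 (fam := false) (s1 := true) (s2 := true) (a := 0) (b := 2) (c := 3) (cn := .up) (n1 := ndB0q0) (n2 := ndB5q3) (pc := pcB2) (cut := cut_pp_023_s) (xt := Ext.none) (P1 := 0) (W1 := 536870912) (P2 := 0) (W2 := 1230186008) (P3 := 780900216) (W3 := 37827925) (N0 := 3) (En := eng) (mo := mog) (C1 := cd0q0) (C2 := cd5q3) (C3 := pd2)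
    rfl (fun _ => rfl) s14_pp_023_s

noncomputable def cut_pp_033_s : Cut := Cut.of [[⟨4, 0, 0, 1449551462⟩]]

noncomputable def f_pp_033_s : ℕ → ℕ → ℕ → ℕ → Bool := onCell 1610612736 536870912 0 1230186008 780900216 37827925
    (rowNE 3 eng mog cd0q0 cd5q3 pd3 2 false true true .pnn 0 3 3 (qsf 0 536870912 0 1230186008 3) ndB0q0 ndB5q3 pcB3 cut_pp_033_s Ext.none)

def k0_pp_033_s : ∃ t, chk3 f_pp_033_s t 1 1 1 = true :=
  ⟨(b (l 6) (l 6)), by decide +kernel⟩

theorem c_pp_033_s : CertNE 0 536870912 0 1230186008 780900216 37827925 3 eng mog cd0q0 cd5q3 pd3 false true true .pnn 0 3 3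
    ndB0q0 ndB5q3 pcB3 cut_pp_033_s Ext.none :=
  certNE2 (fam := false) (s1 := true) (s2 := true) (a := 0) (b := 3) (c := 3) (cn := .pnn) (n1 := ndB0q0) (n2 := ndB5q3) (pc := pcB3) (cut := cut_pp_033_s) (xt := Ext.none) (P1 := 0) (W1 := 536870912) (P2 := 0) (W2 := 1230186008) (P3 := 780900216) (W3 := 37827925) (N0 := 3) (En := eng) (mo := mog) (C1 := cd0q0) (C2 := cd5q3) (C3 := pd3)
    rfl (fun _ => rfl) k0_pp_033_s

noncomputable def cut_pp_101_s : Cut := Cut.of [[⟨4, 0, 0, 1449551462⟩]]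

noncomputable def f_pp_101_s : ℕ → ℕ → ℕ → ℕ → Bool := onCell 536870912 536870912 536870912 536870912 780900216 37827925
    (rowNE 3 eng mog cd0q1 cd5q1 pd0 0 false true true .npn 1 0 1 (qsf 536870912 536870912 536870912 536870912 0) ndB0q1 ndB5q1 pcB0 cut_pp_101_s Ext.none)

def k0_pp_101_s : ∃ t, chk3 f_pp_101_s t 1 1 1 = true :=
  ⟨(a (l 3) (l 5)), by decide +kernel⟩

theorem c_pp_101_s : CertNE 536870912 536870912 536870912 536870912 780900216 37827925 3 eng mog cd0q1 cd5q1 pd0 false true true .npn 1 0 1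
    ndB0q1 ndB5q1 pcB0 cut_pp_101_s Ext.none :=
  certNE0 (fam := false) (s1 := true) (s2 := true) (a := 1) (b := 0) (c := 1) (cn := .npn) (n1 := ndB0q1) (n2 := ndB5q1) (pc := pcB0) (cut := cut_pp_101_s) (xt := Ext.none) (P1 := 536870912) (W1 := 536870912) (P2 := 536870912) (W2 := 536870912) (P3 := 780900216) (W3 := 37827925) (N0 := 3) (En := eng) (mo := mog) (C1 := cd0q1) (C2 := cd5q1) (C3 := pd0)
    rfl k0_pp_101_s

noncomputable def cut_pp_102_s : Cut := Cut.of [[⟨4, 0, 0, 1449551462⟩]]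

noncomputable def f_pp_102_s : ℕ → ℕ → ℕ → ℕ → Bool := onCell 536870912 536870912 1073741824 536870912 780900216 37827925
    (rowNE 3 eng mog cd0q1 cd5q2 pd0 0 false true true .npp 1 0 2 (qsf 536870912 536870912 1073741824 536870912 0) ndB0q1 ndB5q2 pcB0 cut_pp_102_s Ext.none)

def k0_pp_102_s : ∃ t, chk3 f_pp_102_s t 1 1 1 = true :=
  ⟨(a (l 3) (b (l 5) (l 3))), by decide +kernel⟩

theorem c_pp_102_s : CertNE 536870912 536870912 1073741824 536870912 780900216 37827925 3 eng mog cd0q1 cd5q2 pd0 false true true .npp 1 0 2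
    ndB0q1 ndB5q2 pcB0 cut_pp_102_s Ext.none :=
  certNE0 (fam := false) (s1 := true) (s2 := true) (a := 1) (b := 0) (c := 2) (cn := .npp) (n1 := ndB0q1) (n2 := ndB5q2) (pc := pcB0) (cut := cut_pp_102_s) (xt := Ext.none) (P1 := 536870912) (W1 := 536870912) (P2 := 1073741824) (W2 := 536870912) (P3 := 780900216) (W3 := 37827925) (N0 := 3) (En := eng) (mo := mog) (C1 := cd0q1) (C2 := cd5q2) (C3 := pd0)
    rfl k0_pp_102_s

noncomputable def cut_pp_112_s : Cut := Cut.of [[⟨4, 0, 0, 1449551462⟩]]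

noncomputable def f_pp_112_s : ℕ → ℕ → ℕ → ℕ → Bool := onCell 536870912 536870912 1073741824 536870912 780900216 37827925
    (rowNE 3 eng mog cd0q1 cd5q2 pd1 0 false true true .dn 1 1 2 (qsf 536870912 536870912 1073741824 536870912 1) ndB0q1 ndB5q2 pcB1 cut_pp_112_s Ext.none)

def k0_pp_112_s : ∃ t, chk3 f_pp_112_s t 1 1 1 = true :=
  ⟨(a (l 3) (b (l 5) (l 3))), by decide +kernel⟩

theorem c_pp_112_s : CertNE 536870912 536870912 1073741824 536870912 780900216 37827925 3 eng mog cd0q1 cd5q2 pd1 false true true .dn 1 1 2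
    ndB0q1 ndB5q2 pcB1 cut_pp_112_s Ext.none :=
  certNE0 (fam := false) (s1 := true) (s2 := true) (a := 1) (b := 1) (c := 2) (cn := .dn) (n1 := ndB0q1) (n2 := ndB5q2) (pc := pcB1) (cut := cut_pp_112_s) (xt := Ext.none) (P1 := 536870912) (W1 := 536870912) (P2 := 1073741824) (W2 := 536870912) (P3 := 780900216) (W3 := 37827925) (N0 := 3) (En := eng) (mo := mog) (C1 := cd0q1) (C2 := cd5q2) (C3 := pd1)
    rfl k0_pp_112_s

noncomputable def cut_pp_113_s : Cut := Cut.of [[⟨4, 0, 0, 1449551462⟩], [⟨0, 1, 0, 67108864⟩, ⟨1, 1, 0, 67108864⟩, ⟨2, 2, 0, 16777216⟩]]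

noncomputable def f_pp_113_s : ℕ → ℕ → ℕ → ℕ → Bool := onCell 536870912 536870912 0 1230186008 780900216 37827925
    (rowNE 3 eng mog cd0q1 cd5q3 pd1 2 false true true .nn 1 1 3 (qsf 536870912 536870912 0 1230186008 1) ndB0q1 ndB5q3 pcB1 cut_pp_113_s Ext.none)

def k0_pp_113_s : ∃ t, chk3 f_pp_113_s t 1 1 1 = true :=
  ⟨(b (a (l 2) (a (l 2) (b (a (l 2) (a (l 2) (b (l 14) (l 3)))) (l 3)))) (b (a (a (l 2) (b (l 2) (a (l 2) (l 3)))) (b (l 3) (l 3))) (a (a (b (l 2) (l 3)) (l 3)) (l 3)))), by decide +kernel⟩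

theorem c_pp_113_s : CertNE 536870912 536870912 0 1230186008 780900216 37827925 3 eng mog cd0q1 cd5q3 pd1 false true true .nn 1 1 3
    ndB0q1 ndB5q3 pcB1 cut_pp_113_s Ext.none :=
  certNE2 (fam := false) (s1 := true) (s2 := true) (a := 1) (b := 1) (c := 3) (cn := .nn) (n1 := ndB0q1) (n2 := ndB5q3) (pc := pcB1) (cut := cut_pp_113_s) (xt := Ext.none) (P1 := 536870912) (W1 := 536870912) (P2 := 0) (W2 := 1230186008) (P3 := 780900216) (W3 := 37827925) (N0 := 3) (En := eng) (mo := mog) (C1 := cd0q1) (C2 := cd5q3) (C3 := pd1)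
    rfl (fun _ => rfl) k0_pp_113_s

noncomputable def cut_pp_123_s : Cut := Cut.of [[⟨4, 0, 0, 1449551462⟩], [⟨0, 1, 0, 67108864⟩, ⟨1, 1, 0, 67108864⟩, ⟨2, 2, 0, 16777216⟩]]

noncomputable def f_pp_123_s : ℕ → ℕ → ℕ → ℕ → Bool := onCell 1073741824 536870912 0 1230186008 780900216 37827925
    (rowNE 3 eng mog cd0q1 cd5q3 pd2 2 false true true .npn 1 2 3 (qsf 536870912 536870912 0 1230186008 2) ndB0q1 ndB5q3 pcB2 cut_pp_123_s Ext.none)

def k0_pp_123_s : ∃ t, chk3 f_pp_123_s t 8 2 1 = true :=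
  ⟨(b (b (a (l 14) (a (l 14) (b (l 16762144) (b (l 16747528) (a (l 14) (b (l 16754648) (l 16762912))))))) (a (l 3) (b (a (l 14) (b (a (a (l 14) (b (b (l 14) (a (l 14) (l 16775248))) (b (a (l 14) (l 16775712)) (a (b (c (l 360408151751) (l 364166247975)) (l 3)) (b (l 285246228023) (c (l 328732769031) (l 331953994423))))))) (b (a (b (l 16771024) (l 16774200)) (l 16767304)) (a (b (a (l 16775152) (l 16775944)) (a (l 16776080) (l 16775424))) (b (l 16772240) (l 16774872))))) (a (b (a (l 3) (b (a (l 3) (b (l 404431565527) (l 3))) (l 3))) (l 3)) (b (a (b (a (b (l 303499839463) (c (l 348596992215) (l 352355088487))) (l 16776408)) (a (l 3) (b (c (l 317995355351) (l 321216580759)) (c (l 375977407927) (l 380272375047))))) (b (a (l 16775944) (l 16776040)) (a (l 289004324807) (l 16776352)))) (a (l 3) (a (b (b (c (l 334101478167) (l 337322703559)) (l 414095241719)) (l 3)) (b (a (l 302962969911) (l 16776840)) (c (l 368998085415) (l 372756181591))))))))) (l 3)))) (l 3)), by decide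 +kernel⟩

def k1_pp_123_s : ∃ t, chk3 f_pp_123_s t 9 4 1 = true :=
  ⟨(a (b (b (l 16689416) (a (l 16758432) (l 16719008))) (a (b (b (a (b (l 16762256) (a (l 16769760) (l 16767488))) (b (l 16755208) (l 16763024))) (a (b (a (b (l 16773928) (l 16775960)) (l 16772488)) (a (a (a (c (l 295983649735) (l 298131133271)) (l 280414391047)) (l 16775976)) (b (l 16775568) (l 16775080)))) (b (l 16769016) (a (b (l 16773104) (l 16774928)) (l 16771600))))) (b (a (b (a (c (b (a (l 403894694039) (l 313163518647)) (l 418390205575)) (b (a (l 404968435607) (l 316921609063)) (l 418927076039))) (b (l 16775976) (a (b (l 302426098423) (l 347523250391)) (l 16776456)))) (a (l 3) (b (a (l 3) (b (l 313700388135) (l 365239990007))) (l 3)))) (b (a (b (l 16774688) (l 16775232)) (l 16774704)) (a (b (l 279877521975) (a (b (l 324974677463) (l 401747211543)) (l 273435068679))) (b (l 16774384) (l 16775392))))) (a (l 3) (b (a (a (l 3) (c (l 370608696711) (l 372756180071))) (b (a (l 269676971879) (l 16775912))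 (a (l 361481893047) (l 265382005127)))) (a (l 3) (b (a (l 3) (l 371145569159)) (l 3))))))) (b (b (l 16745336) (a (b (l 16762552) (l 16768352)) (b (l 16753064) (l 16761280)))) (b (a (b (l 16771656) (a (l 16774504) (l 16773400))) (b (l 16767384) (l 16770536))) (a (b (a (l 16775032) (l 16774120)) (a (b (a (l 306184195111) (l 16776104)) (a (l 380272374375) (l 309942291847))) (l 16775360))) (b (a (l 16773544) (l 16771760)) (a (l 16773984) (l 16773568)))))))) (b (a (l 16672792) (l 16651504)) (b (a (l 16731776) (l 16710256)) (a (b (a (l 16762312) (l 16752384)) (a (l 16770216) (a (l 16767352) (l 16764360)))) (b (l 16735944) (a (l 16757864) (l 16746848))))))), by decide +kernel⟩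

def k2_pp_123_s : ∃ t, chk3 f_pp_123_s t 9 5 1 = true :=
  ⟨(a (b (a (l 3) (b (a (b (b (a (b (l 409263401191) (l 3)) (b (a (l 313163517639) (l 16776272)) (a (l 409800274071) (l 315311001447)))) (a (l 3) (b (l 413558368167) (l 3)))) (l 3)) (b (b (a (l 16775552) (l 16774000)) (a (b (a (l 316384743335) (l 16776408)) (a (l 3) (l 317458485271))) (l 16778296))) (a (l 3) (b (a (b (l 313163505159) (l 3)) (l 254107718679)) (l 3))))) (l 3))) (l 3)) (b (a (b (a (b (b (a (l 16773512) (l 16771848)) (a (l 16774128) (l 16773256))) (a (b (l 16775768) (a (l 333564605655) (l 253570847975))) (b (l 16774424) (l 16775880)))) (b (l 16790920) (a (b (l 16772752) (l 16774304)) (l 16792224)))) (a (b (a (l 3) (b (a (l 327122155015) (l 254107719015)) (l 398525982039))) (l 3)) (b (a (b (l 16775624) (a (l 307257920487) (l 255181461047))) (b (l 16773680) (l 16775256))) (a (b (l 387788564663) (l 3)) (b (b (l 271287592311) (l 297057397095)) (l 365239987351)))))) (b (b (a (l 16766856) (l 16760696))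 (a (l 16791688) (l 16766592))) (a (b (a (l 16788440) (l 16770616)) (a (b (l 16774952) (l 274508819031)) (l 16773752))) (b (l 16788040) (a (l 16771808) (l 16769616)))))) (a (l 3) (b (a (b (a (b (l 350744473687) (l 3)) (b (l 261623917223) (l 331953992679))) (l 3)) (b (a (b (l 16774184) (l 16775960)) (l 16772952)) (a (b (l 311552912775) (l 3)) (b (l 16775416) (l 290614948999))))) (a (l 3) (b (a (l 3) (b (l 342691409191) (l 3))) (l 3))))))), by decide +kernel⟩

def k3_pp_123_s : ∃ t, chk3 f_pp_123_s t 5 2 1 = true :=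
  ⟨(b (a (b (a (a (l 16634808) (a (l 16622632) (l 16528784))) (l 16598600)) (a (a (l 16746720) (a (l 16562008) (b (l 16662528) (l 16686776)))) (b (l 16646264) (l 16667104)))) (b (l 6) (a (l 16618624) (l 16629384)))) (a (a (a (b (b (b (l 16743344) (a (l 16760968) (l 16750568))) (a (b (l 16765240) (l 16767264)) (l 16782376))) (b (a (b (a (l 16770904) (l 16768880)) (a (l 16774120) (l 16772256))) (b (l 16766680) (a (l 16770208) (l 16768400)))) (a (b (a (b (l 16776600) (l 319605975047)) (l 16775200)) (a (l 3) (l 303499854631))) (b (a (l 16773096) (l 16771024)) (a (l 16775848) (l 16773536)))))) (b (b (a (l 16729896) (l 16712328)) (a (l 16732728) (l 16779664))) (a (b (l 16785576) (a (b (l 16768824) (l 16771224)) (b (l 16766976) (l 16768728)))) (a (b (l 16760712) (l 16766072)) (a (b (l 16757280) (l 16764640)) (b (l 16753176) (l 16763424))))))) (b (b (l 16690144) (l 16713792)) (b (l 16736504) (a (l 16756232) (l 16742864))))) (b (a (l 16679520) (l 16659808)) (a (b (l 16708960)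 (l 16723608)) (b (l 16685432) (l 16700192)))))), by decide +kernel⟩

def k4_pp_123_s : ∃ t, chk3 f_pp_123_s t 3 2 1 = true :=
  ⟨(a (b (l 6) (a (b (b (l 6) (l 16646232)) (a (l 16673360) (l 16657720))) (l 6))) (l 6)), by decide +kernel⟩

def k5_pp_123_s : ∃ t, chk3 f_pp_123_s t 1 6 1 = true :=
  ⟨(a (a (l 3) (a (a (a (b (b (a (l 3) (b (a (l 311016046647) (l 16776248)) (a (l 3) (l 313163530471)))) (l 3)) (l 3)) (b (a (b (a (b (l 16773752) (l 16776328)) (b (l 16771080) (l 16773616))) (a (b (l 304036729079) (l 3)) (b (l 16786520) (l 281488157543)))) (b (a (b (l 16768440) (l 16770592)) (b (l 16766400) (a (l 16768520) (l 16767352)))) (a (b (l 16793856) (a (l 16776032) (l 16774344))) (a (a (l 16792832) (l 16797328)) (b (l 16769064) (l 16770792)))))) (a (l 3) (b (a (b (c (l 271287626775) (l 272898238855)) (l 286856884487)) (b (a (b (l 16774056) (l 16775008)) (l 16772592)) (a (b (l 16796896) (l 16797696)) (l 16774328)))) (a (l 3) (a (a (l 289541235831) (l 16797872)) (l 16796944)))))))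 (b (b (b (l 16751944) (l 16774024)) (a (b (l 16761208) (l 16762928)) (l 16749000))) (a (b (b (l 16764616) (l 16766000)) (b (l 16766880) (l 16766936))) (b (l 16772376) (l 16751048))))) (b (a (b (l 16728768) (l 16731384)) (b (l 16708152) (l 16711272))) (a (b (l 16753752) (l 16762232)) (b (l 16708840) (b (l 16702328) (l 16695240))))))) (a (b (a (b (l 16702680) (a (l 16692520) (l 16675184))) (b (l 16606192) (l 16645680))) (a (b (b (l 16678864) (l 16670992)) (a (l 16521368) (l 16676920))) (b (l 16623848) (l 1)))) (l 6))), by decide +kernel⟩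

def k6_pp_123_s : ∃ t, chk3 f_pp_123_s t 1 7 1 = true :=
  ⟨(a (b (a (l 3) (a (a (a (l 3) (a (l 3) (b (a (l 3) (a (a (l 3) (b (l 3) (l 16776880))) (b (l 16776456) (l 16775696)))) (b (a (a (l 3) (a (l 3) (l 291688701495))) (a (a (l 198810042311) (l 16786392)) (l 16773880))) (b (a (c (l 239612231463) (l 246054682103)) (a (c (l 16795296) (l 16774216)) (l 16771344))) (l 1)))))) (b (a (b (l 16766192) (a (l 16769448) (l 16759480))) (b (l 16748152) (l 16744760))) (b (a (a (l 16787944) (l 16745344)) (b (l 16740712) (l 16737080))) (a (c (l 23655898055) (l 16755456)) (l 1))))) (b (a (b (l 16721816) (a (l 16724768) (l 16704416))) (b (l 16685184) (l 1))) (l 1)))) (a (l 3) (a (a (a (b (l 3) (l 1)) (l 1)) (l 1)) (l 1)))) (l 1)), by decide +kernel⟩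

theorem s7_pp_123_s : ∃ t, chk3 f_pp_123_s t 1 3 1 = true := ex3_b k5_pp_123_s k6_pp_123_s

theorem s8_pp_123_s : ∃ t, chk3 f_pp_123_s t 9 2 1 = true := ex3_b k1_pp_123_s k2_pp_123_s

theorem s9_pp_123_s : ∃ t, chk3 f_pp_123_s t 4 2 1 = true := ex3_a k0_pp_123_s s8_pp_123_s

theorem s10_pp_123_s : ∃ t, chk3 f_pp_123_s t 2 2 1 = true := ex3_a s9_pp_123_s k3_pp_123_s

theorem s11_pp_123_s : ∃ t, chk3 f_pp_123_s t 1 2 1 = true := ex3_a s10_pp_123_s k4_pp_123_s

theorem s12_pp_123_s : ∃ t, chk3 f_pp_123_s t 1 1 1 = true := ex3_b s11_pp_123_s s7_pp_123_s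

theorem c_pp_123_s : CertNE 536870912 536870912 0 1230186008 780900216 37827925 3 eng mog cd0q1 cd5q3 pd2 false true true .npn 1 2 3
    ndB0q1 ndB5q3 pcB2 cut_pp_123_s Ext.none :=
  certNE2 (fam := false) (s1 := true) (s2 := true) (a := 1) (b := 2) (c := 3) (cn := .npn) (n1 := ndB0q1) (n2 := ndB5q3) (pc := pcB2) (cut := cut_pp_123_s) (xt := Ext.none) (P1 := 536870912) (W1 := 536870912) (P2 := 0) (W2 := 1230186008) (P3 := 780900216) (W3 := 37827925) (N0 := 3) (En := eng) (mo := mog) (C1 := cd0q1) (C2 := cd5q3) (C3 := pd2)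
    rfl (fun _ => rfl) s12_pp_123_s

noncomputable def cut_pp_133_s : Cut := Cut.of [[⟨4, 0, 0, 1449551462⟩]]

noncomputable def f_pp_133_s : ℕ → ℕ → ℕ → ℕ → Bool := onCell 1610612736 536870912 0 1230186008 780900216 37827925
    (rowNE 3 eng mog cd0q1 cd5q3 pd3 2 false true true .dn 1 3 3 (qsf 536870912 536870912 0 1230186008 3) ndB0q1 ndB5q3 pcB3 cut_pp_133_s Ext.none)

def k0_pp_133_s : ∃ t, chk3 f_pp_133_s t 1 1 1 = true :=
  ⟨(b (l 6) (l 1)), by decide +kernel⟩

theorem c_pp_133_s : CertNE 536870912 536870912 0 1230186008 780900216 37827925 3 eng mog cd0q1 cd5q3 pd3 false true true .dn 1 3 3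
    ndB0q1 ndB5q3 pcB3 cut_pp_133_s Ext.none :=
  certNE2 (fam := false) (s1 := true) (s2 := true) (a := 1) (b := 3) (c := 3) (cn := .dn) (n1 := ndB0q1) (n2 := ndB5q3) (pc := pcB3) (cut := cut_pp_133_s) (xt := Ext.none) (P1 := 536870912) (W1 := 536870912) (P2 := 0) (W2 := 1230186008) (P3 := 780900216) (W3 := 37827925) (N0 := 3) (En := eng) (mo := mog) (C1 := cd0q1) (C2 := cd5q3) (C3 := pd3)
    rfl (fun _ => rfl) k0_pp_133_s

noncomputable def cut_pp_202_s : Cut := Cut.of [[⟨4, 0, 0, 1449551462⟩]]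

noncomputable def f_pp_202_s : ℕ → ℕ → ℕ → ℕ → Bool := onCell 0 536870912 1073741824 536870912 780900216 37827925
    (rowNE 3 eng mog cd0q2 cd5q2 pd0 0 false true true .pp 2 0 2 (qsf 0 536870912 1073741824 536870912 0) ndB0q2 ndB5q2 pcB0 cut_pp_202_s Ext.none)

def k0_pp_202_s : ∃ t, chk3 f_pp_202_s t 1 1 1 = true :=
  ⟨(l 5), by decide +kernel⟩

theorem c_pp_202_s : CertNE 0 536870912 1073741824 536870912 780900216 37827925 3 eng mog cd0q2 cd5q2 pd0 false true true .pp 2 0 2
    ndB0q2 ndB5q2 pcB0 cut_pp_202_s Ext.none :=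
  certNE0 (fam := false) (s1 := true) (s2 := true) (a := 2) (b := 0) (c := 2) (cn := .pp) (n1 := ndB0q2) (n2 := ndB5q2) (pc := pcB0) (cut := cut_pp_202_s) (xt := Ext.none) (P1 := 0) (W1 := 536870912) (P2 := 1073741824) (W2 := 536870912) (P3 := 780900216) (W3 := 37827925) (N0 := 3) (En := eng) (mo := mog) (C1 := cd0q2) (C2 := cd5q2) (C3 := pd0)
    rfl k0_pp_202_s

noncomputable def cut_pp_203_s : Cut := Cut.of [[⟨4, 0, 0, 1449551462⟩]]

noncomputable def f_pp_203_s : ℕ → ℕ → ℕ → ℕ → Bool := onCell 0 536870912 0 1230186008 780900216 37827925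
    (rowNE 3 eng mog cd0q2 cd5q3 pd0 0 false true true .up 2 0 3 (qsf 0 536870912 0 1230186008 0) ndB0q2 ndB5q3 pcB0 cut_pp_203_s Ext.none)

def k0_pp_203_s : ∃ t, chk3 f_pp_203_s t 1 1 1 = true :=
  ⟨(b (l 2) (b (l 2) (a (l 5) (l 3)))), by decide +kernel⟩

theorem c_pp_203_s : CertNE 0 536870912 0 1230186008 780900216 37827925 3 eng mog cd0q2 cd5q3 pd0 false true true .up 2 0 3
    ndB0q2 ndB5q3 pcB0 cut_pp_203_s Ext.none :=
  certNE0 (fam := false) (s1 := true) (s2 := true) (a := 2) (b := 0) (c := 3) (cn := .up) (n1 := ndB0q2) (n2 := ndB5q3) (pc := pcB0) (cut := cut_pp_203_s) (xt := Ext.none) (P1 := 0) (W1 := 536870912) (P2 := 0) (W2 := 1230186008) (P3 := 780900216) (W3 := 37827925) (N0 := 3) (En := eng) (mo := mog) (C1 := cd0q2) (C2 := cd5q3) (C3 := pd0)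
    rfl k0_pp_203_s

noncomputable def cut_pp_213_s : Cut := Cut.of [[⟨4, 0, 0, 1449551462⟩], [⟨0, 1, 0, 67108864⟩, ⟨1, 1, 0, 67108864⟩, ⟨2, 2, 0, 16777216⟩]]

noncomputable def f_pp_213_s : ℕ → ℕ → ℕ → ℕ → Bool := onCell 0 536870912 0 1230186008 780900216 37827925
    (rowNE 3 eng mog cd0q2 cd5q3 pd1 0 false true true .pnn 2 1 3 (qsf 0 536870912 0 1230186008 1) ndB0q2 ndB5q3 pcB1 cut_pp_213_s Ext.none)

def k0_pp_213_s : ∃ t, chk3 f_pp_213_s t 1 1 1 = true :=
  ⟨(a (b (l 3) (l 5)) (b (b (a (l 3) (b (a (l 3) (l 14)) (l 3))) (l 3)) (b (l 3) (l 3)))), by decide +kernel⟩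

theorem c_pp_213_s : CertNE 0 536870912 0 1230186008 780900216 37827925 3 eng mog cd0q2 cd5q3 pd1 false true true .pnn 2 1 3
    ndB0q2 ndB5q3 pcB1 cut_pp_213_s Ext.none :=
  certNE0 (fam := false) (s1 := true) (s2 := true) (a := 2) (b := 1) (c := 3) (cn := .pnn) (n1 := ndB0q2) (n2 := ndB5q3) (pc := pcB1) (cut := cut_pp_213_s) (xt := Ext.none) (P1 := 0) (W1 := 536870912) (P2 := 0) (W2 := 1230186008) (P3 := 780900216) (W3 := 37827925) (N0 := 3) (En := eng) (mo := mog) (C1 := cd0q2) (C2 := cd5q3) (C3 := pd1)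
    rfl k0_pp_213_s

noncomputable def cut_pm_001_s : Cut := Cut.of [[⟨4, 0, 0, 1449551462⟩]]

noncomputable def f_pm_001_s : ℕ → ℕ → ℕ → ℕ → Bool := onCell 0 536870912 536870912 536870912 780900216 37827925
    (rowNE 3 eng mog cd0q0 cd5q1 pd0 0 false true false .up 0 0 1 (qsf 0 536870912 536870912 536870912 0) ndB0q0 ndB5q1 pcB0 cut_pm_001_s Ext.none)

def k0_pm_001_s : ∃ t, chk3 f_pm_001_s t 1 1 1 = true :=
  ⟨(l 4), by decide +kernel⟩

theorem c_pm_001_s : CertNE 0 536870912 536870912 536870912 780900216 37827925 3 eng mog cd0q0 cd5q1 pd0 false true false .up 0 0 1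
    ndB0q0 ndB5q1 pcB0 cut_pm_001_s Ext.none :=
  certNE0 (fam := false) (s1 := true) (s2 := false) (a := 0) (b := 0) (c := 1) (cn := .up) (n1 := ndB0q0) (n2 := ndB5q1) (pc := pcB0) (cut := cut_pm_001_s) (xt := Ext.none) (P1 := 0) (W1 := 536870912) (P2 := 536870912) (W2 := 536870912) (P3 := 780900216) (W3 := 37827925) (N0 := 3) (En := eng) (mo := mog) (C1 := cd0q0) (C2 := cd5q1) (C3 := pd0)
    rfl k0_pm_001_s

noncomputable def cut_pm_011_s : Cut := Cut.of [[⟨4, 0, 0, 1449551462⟩]]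

noncomputable def f_pm_011_s : ℕ → ℕ → ℕ → ℕ → Bool := onCell 0 536870912 536870912 536870912 780900216 37827925
    (rowNE 3 eng mog cd0q0 cd5q1 pd1 0 false true false .pnn 0 1 1 (qsf 0 536870912 536870912 536870912 1) ndB0q0 ndB5q1 pcB1 cut_pm_011_s Ext.none)

def k0_pm_011_s : ∃ t, chk3 f_pm_011_s t 1 1 1 = true :=
  ⟨(l 4), by decide +kernel⟩

theorem c_pm_011_s : CertNE 0 536870912 536870912 536870912 780900216 37827925 3 eng mog cd0q0 cd5q1 pd1 false true false .pnn 0 1 1
    ndB0q0 ndB5q1 pcB1 cut_pm_011_s Ext.none :=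
  certNE0 (fam := false) (s1 := true) (s2 := false) (a := 0) (b := 1) (c := 1) (cn := .pnn) (n1 := ndB0q0) (n2 := ndB5q1) (pc := pcB1) (cut := cut_pm_011_s) (xt := Ext.none) (P1 := 0) (W1 := 536870912) (P2 := 536870912) (W2 := 536870912) (P3 := 780900216) (W3 := 37827925) (N0 := 3) (En := eng) (mo := mog) (C1 := cd0q0) (C2 := cd5q1) (C3 := pd1)
    rfl k0_pm_011_s

noncomputable def cut_pm_012_s : Cut := Cut.of [[⟨4, 0, 0, 1449551462⟩]]

noncomputable def f_pm_012_s : ℕ → ℕ → ℕ → ℕ → Bool := onCell 0 536870912 1073741824 536870912 780900216 37827925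
    (rowNE 3 eng mog cd0q0 cd5q2 pd1 0 false true false .pnp 0 1 2 (qsf 0 536870912 1073741824 536870912 1) ndB0q0 ndB5q2 pcB1 cut_pm_012_s Ext.none)

def k0_pm_012_s : ∃ t, chk3 f_pm_012_s t 1 1 1 = true :=
  ⟨(l 4), by decide +kernel⟩

theorem c_pm_012_s : CertNE 0 536870912 1073741824 536870912 780900216 37827925 3 eng mog cd0q0 cd5q2 pd1 false true false .pnp 0 1 2
    ndB0q0 ndB5q2 pcB1 cut_pm_012_s Ext.none :=
  certNE0 (fam := false) (s1 := true) (s2 := false) (a := 0) (b := 1) (c := 2) (cn := .pnp) (n1 := ndB0q0) (n2 := ndB5q2) (pc := pcB1) (cut := cut_pm_012_s) (xt := Ext.none) (P1 := 0) (W1 := 536870912) (P2 := 1073741824) (W2 := 536870912) (P3 := 780900216) (W3 := 37827925) (N0 := 3) (En := eng) (mo := mog) (C1 := cd0q0) (C2 := cd5q2) (C3 := pd1)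
    rfl k0_pm_012_s

noncomputable def cut_pm_022_s : Cut := Cut.of [[⟨4, 0, 0, 1449551462⟩]]

noncomputable def f_pm_022_s : ℕ → ℕ → ℕ → ℕ → Bool := onCell 0 536870912 1073741824 536870912 780900216 37827925
    (rowNE 3 eng mog cd0q0 cd5q2 pd2 0 false true false .pp 0 2 2 (qsf 0 536870912 1073741824 536870912 2) ndB0q0 ndB5q2 pcB2 cut_pm_022_s Ext.none)

def k0_pm_022_s : ∃ t, chk3 f_pm_022_s t 1 1 1 = true :=
  ⟨(l 4), by decide +kernel⟩

theorem c_pm_022_s : CertNE 0 536870912 1073741824 536870912 780900216 37827925 3 eng mog cd0q0 cd5q2 pd2 false true false .pp 0 2 2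
    ndB0q0 ndB5q2 pcB2 cut_pm_022_s Ext.none :=
  certNE0 (fam := false) (s1 := true) (s2 := false) (a := 0) (b := 2) (c := 2) (cn := .pp) (n1 := ndB0q0) (n2 := ndB5q2) (pc := pcB2) (cut := cut_pm_022_s) (xt := Ext.none) (P1 := 0) (W1 := 536870912) (P2 := 1073741824) (W2 := 536870912) (P3 := 780900216) (W3 := 37827925) (N0 := 3) (En := eng) (mo := mog) (C1 := cd0q0) (C2 := cd5q2) (C3 := pd2)
    rfl k0_pm_022_s

noncomputable def cut_pm_023_s : Cut := Cut.of [[⟨4, 0, 0, 1449551462⟩]]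

noncomputable def f_pm_023_s : ℕ → ℕ → ℕ → ℕ → Bool := onCell 0 536870912 0 1230186008 780900216 37827925
    (rowNE 3 eng mog cd0q0 cd5q3 pd2 0 false true false .up 0 2 3 (qsf 0 536870912 0 1230186008 2) ndB0q0 ndB5q3 pcB2 cut_pm_023_s Ext.none)

def k0_pm_023_s : ∃ t, chk3 f_pm_023_s t 1 1 1 = true :=
  ⟨(l 6), by decide +kernel⟩

theorem c_pm_023_s : CertNE 0 536870912 0 1230186008 780900216 37827925 3 eng mog cd0q0 cd5q3 pd2 false true false .up 0 2 3
    ndB0q0 ndB5q3 pcB2 cut_pm_023_s Ext.none :=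
  certNE0 (fam := false) (s1 := true) (s2 := false) (a := 0) (b := 2) (c := 3) (cn := .up) (n1 := ndB0q0) (n2 := ndB5q3) (pc := pcB2) (cut := cut_pm_023_s) (xt := Ext.none) (P1 := 0) (W1 := 536870912) (P2 := 0) (W2 := 1230186008) (P3 := 780900216) (W3 := 37827925) (N0 := 3) (En := eng) (mo := mog) (C1 := cd0q0) (C2 := cd5q3) (C3 := pd2)
    rfl k0_pm_023_s

noncomputable def cut_pm_033_s : Cut := Cut.of [[⟨4, 0, 0, 1449551462⟩]]

noncomputable def f_pm_033_s : ℕ → ℕ → ℕ → ℕ → Bool := onCell 0 536870912 0 1230186008 780900216 37827925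
    (rowNE 3 eng mog cd0q0 cd5q3 pd3 0 false true false .pnn 0 3 3 (qsf 0 536870912 0 1230186008 3) ndB0q0 ndB5q3 pcB3 cut_pm_033_s Ext.none)

def k0_pm_033_s : ∃ t, chk3 f_pm_033_s t 1 1 1 = true :=
  ⟨(l 6), by decide +kernel⟩

theorem c_pm_033_s : CertNE 0 536870912 0 1230186008 780900216 37827925 3 eng mog cd0q0 cd5q3 pd3 false true false .pnn 0 3 3
    ndB0q0 ndB5q3 pcB3 cut_pm_033_s Ext.none :=
  certNE0 (fam := false) (s1 := true) (s2 := false) (a := 0) (b := 3) (c := 3) (cn := .pnn) (n1 := ndB0q0) (n2 := ndB5q3) (pc := pcB3) (cut := cut_pm_033_s) (xt := Ext.none) (P1 := 0) (W1 := 536870912) (P2 := 0) (W2 := 1230186008) (P3 := 780900216) (W3 := 37827925) (N0 := 3) (En := eng) (mo := mog) (C1 := cd0q0) (C2 := cd5q3) (C3 := pd3)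
    rfl k0_pm_033_s

noncomputable def cut_pm_101_s : Cut := Cut.of [[⟨4, 0, 0, 1449551462⟩]]

noncomputable def f_pm_101_s : ℕ → ℕ → ℕ → ℕ → Bool := onCell 536870912 536870912 536870912 536870912 780900216 37827925
    (rowNE 3 eng mog cd0q1 cd5q1 pd0 0 false true false .npn 1 0 1 (qsf 536870912 536870912 536870912 536870912 0) ndB0q1 ndB5q1 pcB0 cut_pm_101_s Ext.none)

def k0_pm_101_s : ∃ t, chk3 f_pm_101_s t 1 1 1 = true :=
  ⟨(l 4), by decide +kernel⟩

theorem c_pm_101_s : CertNE 536870912 536870912 536870912 536870912 780900216 37827925 3 eng mog cd0q1 cd5q1 pd0 false true false .npn 1 0 1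
    ndB0q1 ndB5q1 pcB0 cut_pm_101_s Ext.none :=
  certNE0 (fam := false) (s1 := true) (s2 := false) (a := 1) (b := 0) (c := 1) (cn := .npn) (n1 := ndB0q1) (n2 := ndB5q1) (pc := pcB0) (cut := cut_pm_101_s) (xt := Ext.none) (P1 := 536870912) (W1 := 536870912) (P2 := 536870912) (W2 := 536870912) (P3 := 780900216) (W3 := 37827925) (N0 := 3) (En := eng) (mo := mog) (C1 := cd0q1) (C2 := cd5q1) (C3 := pd0)
    rfl k0_pm_101_s

noncomputable def cut_pm_102_s : Cut := Cut.of [[⟨4, 0, 0, 1449551462⟩]]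

noncomputable def f_pm_102_s : ℕ → ℕ → ℕ → ℕ → Bool := onCell 536870912 536870912 1073741824 536870912 780900216 37827925
    (rowNE 3 eng mog cd0q1 cd5q2 pd0 0 false true false .npp 1 0 2 (qsf 536870912 536870912 1073741824 536870912 0) ndB0q1 ndB5q2 pcB0 cut_pm_102_s Ext.none)

def k0_pm_102_s : ∃ t, chk3 f_pm_102_s t 1 1 1 = true :=
  ⟨(l 6), by decide +kernel⟩

theorem c_pm_102_s : CertNE 536870912 536870912 1073741824 536870912 780900216 37827925 3 eng mog cd0q1 cd5q2 pd0 false true false .npp 1 0 2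
    ndB0q1 ndB5q2 pcB0 cut_pm_102_s Ext.none :=
  certNE0 (fam := false) (s1 := true) (s2 := false) (a := 1) (b := 0) (c := 2) (cn := .npp) (n1 := ndB0q1) (n2 := ndB5q2) (pc := pcB0) (cut := cut_pm_102_s) (xt := Ext.none) (P1 := 536870912) (W1 := 536870912) (P2 := 1073741824) (W2 := 536870912) (P3 := 780900216) (W3 := 37827925) (N0 := 3) (En := eng) (mo := mog) (C1 := cd0q1) (C2 := cd5q2) (C3 := pd0)
    rfl k0_pm_102_s

noncomputable def cut_pm_112_s : Cut := Cut.of [[⟨4, 0, 0, 1449551462⟩]]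

noncomputable def f_pm_112_s : ℕ → ℕ → ℕ → ℕ → Bool := onCell 536870912 536870912 1073741824 536870912 780900216 37827925
    (rowNE 3 eng mog cd0q1 cd5q2 pd1 0 false true false .dn 1 1 2 (qsf 536870912 536870912 1073741824 536870912 1) ndB0q1 ndB5q2 pcB1 cut_pm_112_s Ext.none)

def k0_pm_112_s : ∃ t, chk3 f_pm_112_s t 1 1 1 = true :=
  ⟨(l 6), by decide +kernel⟩

theorem c_pm_112_s : CertNE 536870912 536870912 1073741824 536870912 780900216 37827925 3 eng mog cd0q1 cd5q2 pd1 false true false .dn 1 1 2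
    ndB0q1 ndB5q2 pcB1 cut_pm_112_s Ext.none :=
  certNE0 (fam := false) (s1 := true) (s2 := false) (a := 1) (b := 1) (c := 2) (cn := .dn) (n1 := ndB0q1) (n2 := ndB5q2) (pc := pcB1) (cut := cut_pm_112_s) (xt := Ext.none) (P1 := 536870912) (W1 := 536870912) (P2 := 1073741824) (W2 := 536870912) (P3 := 780900216) (W3 := 37827925) (N0 := 3) (En := eng) (mo := mog) (C1 := cd0q1) (C2 := cd5q2) (C3 := pd1)
    rfl k0_pm_112_s

noncomputable def cut_pm_113_s : Cut := Cut.of [[⟨4, 0, 0, 1449551462⟩], [⟨0, 1, 0, 67108864⟩, ⟨1, 1, 0, 67108864⟩, ⟨2, 2, 0, 16777216⟩]]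

noncomputable def f_pm_113_s : ℕ → ℕ → ℕ → ℕ → Bool := onCell 536870912 536870912 0 1230186008 780900216 37827925
    (rowNE 3 eng mog cd0q1 cd5q3 pd1 0 false true false .nn 1 1 3 (qsf 536870912 536870912 0 1230186008 1) ndB0q1 ndB5q3 pcB1 cut_pm_113_s Ext.none)

def k0_pm_113_s : ∃ t, chk3 f_pm_113_s t 1 1 1 = true :=
  ⟨(b (a (l 2) (a (l 2) (b (a (l 2) (a (l 2) (b (l 14) (b (l 14) (l 16732368))))) (a (l 6) (b (a (l 6) (l 16695640)) (l 6)))))) (b (l 6) (l 6))), by decide +kernel⟩

theorem c_pm_113_s : CertNE 536870912 536870912 0 1230186008 780900216 37827925 3 eng mog cd0q1 cd5q3 pd1 false true false .nn 1 1 3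
    ndB0q1 ndB5q3 pcB1 cut_pm_113_s Ext.none :=
  certNE0 (fam := false) (s1 := true) (s2 := false) (a := 1) (b := 1) (c := 3) (cn := .nn) (n1 := ndB0q1) (n2 := ndB5q3) (pc := pcB1) (cut := cut_pm_113_s) (xt := Ext.none) (P1 := 536870912) (W1 := 536870912) (P2 := 0) (W2 := 1230186008) (P3 := 780900216) (W3 := 37827925) (N0 := 3) (En := eng) (mo := mog) (C1 := cd0q1) (C2 := cd5q3) (C3 := pd1)
    rfl k0_pm_113_s

noncomputable def cut_pm_123_s : Cut := Cut.of [[⟨4, 0, 0, 1449551462⟩], [⟨0, 1, 0, 67108864⟩, ⟨1, 1, 0, 67108864⟩, ⟨2, 2, 0, 16777216⟩]]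

noncomputable def f_pm_123_s : ℕ → ℕ → ℕ → ℕ → Bool := onCell 1073741824 536870912 0 1230186008 780900216 37827925
    (rowNE 3 eng mog cd0q1 cd5q3 pd2 2 false true false .npn 1 2 3 (qsf 536870912 536870912 0 1230186008 2) ndB0q1 ndB5q3 pcB2 cut_pm_123_s Ext.none)

def k0_pm_123_s : ∃ t, chk3 f_pm_123_s t 1 1 1 = true :=
  ⟨(b (a (b (b (a (a (a (l 14) (b (a (l 14) (l 16677840)) (l 16644264))) (a (c (l 16624320) (l 16635992)) (b (l 16568432) (l 6)))) (l 6)) (a (a (a (b (l 14) (l 16604816)) (b (l 16603576) (l 6))) (l 6)) (l 6))) (b (l 6) (l 6))) (l 6)) (l 6)), by decide +kernel⟩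

theorem c_pm_123_s : CertNE 536870912 536870912 0 1230186008 780900216 37827925 3 eng mog cd0q1 cd5q3 pd2 false true false .npn 1 2 3
    ndB0q1 ndB5q3 pcB2 cut_pm_123_s Ext.none :=
  certNE2 (fam := false) (s1 := true) (s2 := false) (a := 1) (b := 2) (c := 3) (cn := .npn) (n1 := ndB0q1) (n2 := ndB5q3) (pc := pcB2) (cut := cut_pm_123_s) (xt := Ext.none) (P1 := 536870912) (W1 := 536870912) (P2 := 0) (W2 := 1230186008) (P3 := 780900216) (W3 := 37827925) (N0 := 3) (En := eng) (mo := mog) (C1 := cd0q1) (C2 := cd5q3) (C3 := pd2)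
    rfl (fun _ => rfl) k0_pm_123_s

noncomputable def cut_pm_133_s : Cut := Cut.of [[⟨4, 0, 0, 1449551462⟩]]

noncomputable def f_pm_133_s : ℕ → ℕ → ℕ → ℕ → Bool := onCell 1610612736 536870912 0 1230186008 780900216 37827925
    (rowNE 3 eng mog cd0q1 cd5q3 pd3 2 false true false .dn 1 3 3 (qsf 536870912 536870912 0 1230186008 3) ndB0q1 ndB5q3 pcB3 cut_pm_133_s Ext.none)

def k0_pm_133_s : ∃ t, chk3 f_pm_133_s t 1 1 1 = true :=
  ⟨(l 6), by decide +kernel⟩

theorem c_pm_133_s : CertNE 536870912 536870912 0 1230186008 780900216 37827925 3 eng mog cd0q1 cd5q3 pd3 false true false .dn 1 3 3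
    ndB0q1 ndB5q3 pcB3 cut_pm_133_s Ext.none :=
  certNE2 (fam := false) (s1 := true) (s2 := false) (a := 1) (b := 3) (c := 3) (cn := .dn) (n1 := ndB0q1) (n2 := ndB5q3) (pc := pcB3) (cut := cut_pm_133_s) (xt := Ext.none) (P1 := 536870912) (W1 := 536870912) (P2 := 0) (W2 := 1230186008) (P3 := 780900216) (W3 := 37827925) (N0 := 3) (En := eng) (mo := mog) (C1 := cd0q1) (C2 := cd5q3) (C3 := pd3)
    rfl (fun _ => rfl) k0_pm_133_s

noncomputable def cut_pm_202_s : Cut := Cut.of [[⟨4, 0, 0, 1449551462⟩]]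

noncomputable def f_pm_202_s : ℕ → ℕ → ℕ → ℕ → Bool := onCell 0 536870912 1073741824 536870912 780900216 37827925
    (rowNE 3 eng mog cd0q2 cd5q2 pd0 0 false true false .pp 2 0 2 (qsf 0 536870912 1073741824 536870912 0) ndB0q2 ndB5q2 pcB0 cut_pm_202_s Ext.none)

def k0_pm_202_s : ∃ t, chk3 f_pm_202_s t 1 1 1 = true :=
  ⟨(a (b (l 6) (a (l 6) (l 6))) (l 6)), by decide +kernel⟩

theorem c_pm_202_s : CertNE 0 536870912 1073741824 536870912 780900216 37827925 3 eng mog cd0q2 cd5q2 pd0 false true false .pp 2 0 2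
    ndB0q2 ndB5q2 pcB0 cut_pm_202_s Ext.none :=
  certNE0 (fam := false) (s1 := true) (s2 := false) (a := 2) (b := 0) (c := 2) (cn := .pp) (n1 := ndB0q2) (n2 := ndB5q2) (pc := pcB0) (cut := cut_pm_202_s) (xt := Ext.none) (P1 := 0) (W1 := 536870912) (P2 := 1073741824) (W2 := 536870912) (P3 := 780900216) (W3 := 37827925) (N0 := 3) (En := eng) (mo := mog) (C1 := cd0q2) (C2 := cd5q2) (C3 := pd0)
    rfl k0_pm_202_s

noncomputable def cut_pm_203_s : Cut := Cut.of [[⟨4, 0, 0, 1449551462⟩]]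

noncomputable def f_pm_203_s : ℕ → ℕ → ℕ → ℕ → Bool := onCell 0 536870912 0 1230186008 780900216 37827925
    (rowNE 3 eng mog cd0q2 cd5q3 pd0 0 false true false .up 2 0 3 (qsf 0 536870912 0 1230186008 0) ndB0q2 ndB5q3 pcB0 cut_pm_203_s Ext.none)

def k0_pm_203_s : ∃ t, chk3 f_pm_203_s t 1 1 1 = true :=
  ⟨(b (l 2) (b (l 2) (a (b (b (l 2) (a (a (b (l 2) (a (l 16732848) (l 16718488))) (l 16703816)) (a (l 16668040) (l 6)))) (a (a (b (b (a (l 16713736) (l 16697184)) (l 16680904)) (b (l 16651920) (l 16622304))) (b (b (l 16669112) (l 6)) (l 6))) (l 6))) (l 6)))), by decide +kernel⟩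

theorem c_pm_203_s : CertNE 0 536870912 0 1230186008 780900216 37827925 3 eng mog cd0q2 cd5q3 pd0 false true false .up 2 0 3
    ndB0q2 ndB5q3 pcB0 cut_pm_203_s Ext.none :=
  certNE0 (fam := false) (s1 := true) (s2 := false) (a := 2) (b := 0) (c := 3) (cn := .up) (n1 := ndB0q2) (n2 := ndB5q3) (pc := pcB0) (cut := cut_pm_203_s) (xt := Ext.none) (P1 := 0) (W1 := 536870912) (P2 := 0) (W2 := 1230186008) (P3 := 780900216) (W3 := 37827925) (N0 := 3) (En := eng) (mo := mog) (C1 := cd0q2) (C2 := cd5q3) (C3 := pd0)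
    rfl k0_pm_203_s

noncomputable def cut_pm_213_s : Cut := Cut.of [[⟨4, 0, 0, 1449551462⟩], [⟨0, 1, 0, 67108864⟩, ⟨1, 1, 0, 67108864⟩, ⟨2, 2, 0, 16777216⟩]]

noncomputable def f_pm_213_s : ℕ → ℕ → ℕ → ℕ → Bool := onCell 0 536870912 0 1230186008 780900216 37827925
    (rowNE 3 eng mog cd0q2 cd5q3 pd1 0 false true false .pnn 2 1 3 (qsf 0 536870912 0 1230186008 1) ndB0q2 ndB5q3 pcB1 cut_pm_213_s Ext.none)

def k0_pm_213_s : ∃ t, chk3 f_pm_213_s t 2 2 1 = true :=
  ⟨(b (l 3) (a (l 3) (b (l 3) (a (b (l 3) (a (l 3) (b (l 3) (l 333027723191)))) (b (a (l 3) (b (a (l 3) (l 313163526855)) (a (b (l 3) (l 294909899111)) (b (a (l 301889221959) (l 259476433671)) (l 236927825463))))) (a (b (a (l 3) (b (l 321216571623) (l 278803772343))) (a (b (l 297057382231) (l 244980921991)) (b (l 218674216263) (l 16766784)))) (b (a (b (a (l 273971935063) (l 16773240)) (l 16769768)) (l 16765104)) (l 16757776)))))))), by decide +kernel⟩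

def k1_pm_213_s : ∃ t, chk3 f_pm_213_s t 3 8 1 = true :=
  ⟨(a (l 3) (a (a (l 3) (l 14)) (l 14))), by decide +kernel⟩

def k2_pm_213_s : ∃ t, chk3 f_pm_213_s t 6 9 1 = true :=
  ⟨(a (l 3) (b (l 3) (a (l 3) (a (b (l 3) (b (l 3) (c (a (l 334101474983) (b (l 307257932695) (l 255181448615))) (a (l 333564603799) (b (l 306721061783) (l 253033964455)))))) (a (b (l 3) (c (b (b (l 317995349607) (l 264845131751)) (l 16776736)) (b (b (l 319069091271) (l 262160766423)) (l 16774792)))) (b (b (l 3) (b (l 340543927735) (a (l 320142833799) (b (l 303499834711) (l 255181452391))))) (b (a (c (l 254107707063) (l 250886481399)) (l 16776712)) (l 16776016)))))))), by decide +kernel⟩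

def k3_pm_213_s : ∃ t, chk3 f_pm_213_s t 7 9 1 = true :=
  ⟨(a (b (b (a (l 3) (a (a (b (l 3) (a (b (l 3) (c (l 323364059319) (l 326048413751))) (c (b (l 331953993239) (l 270750712103)) (b (l 335175218503) (b (l 269140099191) (l 16777064)))))) (l 14)) (l 14))) (a (b (a (l 3) (a (c (l 353965696535) (l 354502566919)) (b (a (l 3) (b (l 335712090119) (a (l 322827189399) (l 264845128727)))) (c (a (b (l 323900930791) (l 262697643399)) (l 16777288)) (a (b (l 327122156183) (l 264308260983)) (l 16775656)))))) (a (a (l 3) (a (l 3) (c (l 341617668503) (l 331953991815)))) (b (c (a (a (l 332490864103) (l 269140098919)) (l 16777304)) (a (a (l 334638347543) (b (l 315847867719) (l 259476419271))) (l 16776888))) (a (a (c (l 266455744807) (l 262697648183)) (l 16777120)) (l 16777008))))) (a (b (a (a (b (c (l 264845127383) (l 261623901879)) (l 16777104)) (l 16777104)) (l 16777032)) (l 16776896)) (l 14)))) (a (b (a (a (b (a (l 3) (b (l 3) (c (l 308868545911) (l 309942287735)))) (b (a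 (b (l 312089771287) (l 260013289559)) (l 246054646455)) (l 16774280))) (b (c (b (a (l 315310996247) (l 260013288823)) (l 248202128279)) (b (a (l 317458479831) (l 258402675911)) (l 246054644663))) (l 16776896))) (b (a (b (l 16777040) (l 16776912)) (l 16776848)) (l 16776672))) (a (b (l 16776528) (l 16775960)) (l 16776304))) (b (l 16797192) (l 16775856)))) (b (a (b (l 14) (l 16778456)) (l 16784056)) (a (l 16778424) (l 16779824)))), by decide +kernel⟩

def k4_pm_213_s : ∃ t, chk3 f_pm_213_s t 3 5 1 = true :=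
  ⟨(a (b (a (b (a (l 3) (b (l 3) (a (l 3) (b (l 3) (a (l 3) (l 313700381207)))))) (a (b (l 3) (a (l 3) (b (l 305647315559) (a (l 293836158663) (l 263234529495))))) (b (a (b (l 3) (a (l 3) (l 284172483303))) (b (a (l 293299288039) (b (l 265382001463) (l 16775640))) (a (l 247128379047) (l 16773552)))) (a (b (a (l 272361322951) (l 16774720)) (l 16772496)) (l 16769896))))) (b (a (b (a (l 3) (a (b (l 3) (b (l 327122154215) (c (l 294373031607) (l 293299289687)))) (b (c (l 310479156231) (l 310479156071)) (b (a (l 267529480727) (l 16776520)) (l 16775944))))) (a (b (a (l 323364056215) (b (l 302426093703) (a (l 290614935207) (l 16776464)))) (a (b (l 291688676759) (l 249812737895)) (b (l 16775760) (l 16774592)))) (a (b (c (l 242296545047) (l 241222802903)) (l 16773672)) (l 16773640)))) (b (a (c (b (a (b (l 266992615207) (l 16776648)) (l 16776336)) (l 16775488)) (b (a (b (l 265918873207) (l 16776248)) (l 16775528)) (l 16774200))) (l 16774680)) (a (l 16772352) (l 16771872))))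 (a (b (a (b (l 16773528) (l 16770816)) (l 16769440)) (l 16764640)) (l 16765368)))) (a (b (a (b (a (b (l 295446770375) (a (l 272361322647) (l 16774024))) (b (a (l 242296539271) (l 16772544)) (l 16769768))) (a (b (l 16771056) (l 16766312)) (l 16763264))) (b (l 16764656) (l 16756568))) (a (b (l 16756136) (l 16745744)) (l 16739688))) (b (a (l 16754344) (l 16749320)) (l 16798592)))) (b (a (b (a (b (l 16774936) (l 16772888)) (l 16772912)) (a (l 16764976) (l 16761752))) (b (a (l 16770144) (l 16761104)) (l 16742808))) (a (b (l 16745344) (l 16721328)) (l 16842880)))), by decide +kernel⟩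

def k5_pm_213_s : ∃ t, chk3 f_pm_213_s t 1 3 1 = true :=
  ⟨(b (a (b (a (b (l 3) (a (l 3) (a (l 3) (b (a (l 3) (l 317458470279)) (a (b (l 332490856999) (l 287930576759)) (b (l 241759693143) (l 16769280))))))) (a (b (a (b (l 3) (a (l 3) (b (l 311552893943) (l 273971932519)))) (b (a (l 304036700695) (b (l 278266900967) (l 16771632))) (a (b (l 238538468983) (l 16768488)) (l 16763256)))) (a (b (a (b (l 294373027399) (l 225116696439)) (l 16768016)) (l 16759880)) (b (l 16755536) (l 16743176)))) (b (a (b (l 16762360) (l 16750912)) (l 16741312)) (b (l 16727704) (l 16695248))))) (a (b (a (a (l 3) (b (l 3) (a (l 3) (l 305647344695)))) (a (b (a (l 321753436711) (b (l 302962961063) (l 231022276951))) (a (b (l 244980919159) (l 16769464)) (l 16763760))) (b (a (l 210621192775) (l 16759656)) (l 16750624)))) (b (a (a (l 337859555767) (a (b (l 307794798599) (l 232096016343)) (l 212768676919))) (l 16767296)) (a (a (a (l 308868558455) (b (l 243370289703) (l 16770256))) (l 16760072))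 (l 16729760)))) (b (a (a (l 16740872) (l 16762584)) (a (l 16710704) (l 16693456))) (a (a (l 16778032) (l 16702520)) (l 16675576))))) (a (b (a (b (a (l 16726000) (l 16723008)) (a (l 16708016) (l 16698040))) (l 16702440)) (b (a (l 16677840) (l 6)) (l 6))) (b (l 6) (l 6)))) (a (a (b (b (a (b (a (b (l 207399921319) (l 16761544)) (l 16746616)) (a (l 16750136) (l 16729792))) (a (b (l 16725680) (l 16711040)) (l 16767240))) (a (b (a (l 16730848) (l 16708608)) (a (b (l 16709568) (l 1)) (l 16681896))) (l 16662136))) (l 1)) (b (a (b (l 16674168) (l 16617128)) (l 6)) (l 6))) (l 6))), by decide +kernel⟩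

theorem s6_pm_213_s : ∃ t, chk3 f_pm_213_s t 3 9 1 = true := ex3_a k2_pm_213_s k3_pm_213_s

theorem s7_pm_213_s : ∃ t, chk3 f_pm_213_s t 3 4 1 = true := ex3_b k1_pm_213_s s6_pm_213_s

theorem s8_pm_213_s : ∃ t, chk3 f_pm_213_s t 3 2 1 = true := ex3_b s7_pm_213_s k4_pm_213_s

theorem s9_pm_213_s : ∃ t, chk3 f_pm_213_s t 1 2 1 = true := ex3_a k0_pm_213_s s8_pm_213_s

theorem s10_pm_213_s : ∃ t, chk3 f_pm_213_s t 1 1 1 = true := ex3_b s9_pm_213_s k5_pm_213_s

theorem c_pm_213_s : CertNE 0 536870912 0 1230186008 780900216 37827925 3 eng mog cd0q2 cd5q3 pd1 false true false .pnn 2 1 3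
    ndB0q2 ndB5q3 pcB1 cut_pm_213_s Ext.none :=
  certNE0 (fam := false) (s1 := true) (s2 := false) (a := 2) (b := 1) (c := 3) (cn := .pnn) (n1 := ndB0q2) (n2 := ndB5q3) (pc := pcB1) (cut := cut_pm_213_s) (xt := Ext.none) (P1 := 0) (W1 := 536870912) (P2 := 0) (W2 := 1230186008) (P3 := 780900216) (W3 := 37827925) (N0 := 3) (En := eng) (mo := mog) (C1 := cd0q2) (C2 := cd5q3) (C3 := pd1)
    rfl s10_pm_213_s

noncomputable def cut_mm_001_s : Cut := Cut.of [[⟨4, 0, 0, 1449551462⟩]]

noncomputable def f_mm_001_s : ℕ → ℕ → ℕ → ℕ → Bool := onCell 0 536870912 0 536870912 780900216 37827925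
    (rowNE 3 eng mog cd0q0 cd5q1 pd0 1 false false false .up 0 0 1 (qsf 0 536870912 536870912 536870912 0) ndB0q0 ndB5q1 pcB0 cut_mm_001_s Ext.none)

def k0_mm_001_s : ∃ t, chk3 f_mm_001_s t 1 1 1 = true :=
  ⟨(l 3), by decide +kernel⟩

theorem c_mm_001_s : CertNE 0 536870912 536870912 536870912 780900216 37827925 3 eng mog cd0q0 cd5q1 pd0 false false false .up 0 0 1
    ndB0q0 ndB5q1 pcB0 cut_mm_001_s Ext.none :=
  certNE1 (fam := false) (s1 := false) (s2 := false) (a := 0) (b := 0) (c := 1) (cn := .up) (n1 := ndB0q0) (n2 := ndB5q1) (pc := pcB0) (cut := cut_mm_001_s) (xt := Ext.none) (P1 := 0) (W1 := 536870912) (P2 := 536870912) (W2 := 536870912) (P3 := 780900216) (W3 := 37827925) (N0 := 3) (En := eng) (mo := mog) (C1 := cd0q0) (C2 := cd5q1) (C3 := pd0)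
    rfl (fun _ => rfl) k0_mm_001_s

noncomputable def cut_mm_011_s : Cut := Cut.of [[⟨4, 0, 0, 1449551462⟩]]

noncomputable def f_mm_011_s : ℕ → ℕ → ℕ → ℕ → Bool := onCell 0 536870912 536870912 536870912 780900216 37827925
    (rowNE 3 eng mog cd0q0 cd5q1 pd1 1 false false false .pnn 0 1 1 (qsf 0 536870912 536870912 536870912 1) ndB0q0 ndB5q1 pcB1 cut_mm_011_s Ext.none)

def k0_mm_011_s : ∃ t, chk3 f_mm_011_s t 1 1 1 = true :=
  ⟨(l 5), by decide +kernel⟩

theorem c_mm_011_s : CertNE 0 536870912 536870912 536870912 780900216 37827925 3 eng mog cd0q0 cd5q1 pd1 false false false .pnn 0 1 1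
    ndB0q0 ndB5q1 pcB1 cut_mm_011_s Ext.none :=
  certNE1 (fam := false) (s1 := false) (s2 := false) (a := 0) (b := 1) (c := 1) (cn := .pnn) (n1 := ndB0q0) (n2 := ndB5q1) (pc := pcB1) (cut := cut_mm_011_s) (xt := Ext.none) (P1 := 0) (W1 := 536870912) (P2 := 536870912) (W2 := 536870912) (P3 := 780900216) (W3 := 37827925) (N0 := 3) (En := eng) (mo := mog) (C1 := cd0q0) (C2 := cd5q1) (C3 := pd1)
    rfl (fun _ => rfl) k0_mm_011_s

noncomputable def cut_mm_012_s : Cut := Cut.of [[⟨4, 0, 0, 1449551462⟩]]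

noncomputable def f_mm_012_s : ℕ → ℕ → ℕ → ℕ → Bool := onCell 0 536870912 1073741824 536870912 780900216 37827925
    (rowNE 3 eng mog cd0q0 cd5q2 pd1 0 false false false .pnp 0 1 2 (qsf 0 536870912 1073741824 536870912 1) ndB0q0 ndB5q2 pcB1 cut_mm_012_s Ext.none)

def k0_mm_012_s : ∃ t, chk3 f_mm_012_s t 1 1 1 = true :=
  ⟨(l 5), by decide +kernel⟩

theorem c_mm_012_s : CertNE 0 536870912 1073741824 536870912 780900216 37827925 3 eng mog cd0q0 cd5q2 pd1 false false false .pnp 0 1 2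
    ndB0q0 ndB5q2 pcB1 cut_mm_012_s Ext.none :=
  certNE0 (fam := false) (s1 := false) (s2 := false) (a := 0) (b := 1) (c := 2) (cn := .pnp) (n1 := ndB0q0) (n2 := ndB5q2) (pc := pcB1) (cut := cut_mm_012_s) (xt := Ext.none) (P1 := 0) (W1 := 536870912) (P2 := 1073741824) (W2 := 536870912) (P3 := 780900216) (W3 := 37827925) (N0 := 3) (En := eng) (mo := mog) (C1 := cd0q0) (C2 := cd5q2) (C3 := pd1)
    rfl k0_mm_012_s

noncomputable def cut_mm_022_s : Cut := Cut.of [[⟨4, 0, 0, 1449551462⟩]]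

noncomputable def f_mm_022_s : ℕ → ℕ → ℕ → ℕ → Bool := onCell 0 536870912 1073741824 536870912 780900216 37827925
    (rowNE 3 eng mog cd0q0 cd5q2 pd2 0 false false false .pp 0 2 2 (qsf 0 536870912 1073741824 536870912 2) ndB0q0 ndB5q2 pcB2 cut_mm_022_s Ext.none)

def k0_mm_022_s : ∃ t, chk3 f_mm_022_s t 1 1 1 = true :=
  ⟨(l 5), by decide +kernel⟩

theorem c_mm_022_s : CertNE 0 536870912 1073741824 536870912 780900216 37827925 3 eng mog cd0q0 cd5q2 pd2 false false false .pp 0 2 2
    ndB0q0 ndB5q2 pcB2 cut_mm_022_s Ext.none :=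
  certNE0 (fam := false) (s1 := false) (s2 := false) (a := 0) (b := 2) (c := 2) (cn := .pp) (n1 := ndB0q0) (n2 := ndB5q2) (pc := pcB2) (cut := cut_mm_022_s) (xt := Ext.none) (P1 := 0) (W1 := 536870912) (P2 := 1073741824) (W2 := 536870912) (P3 := 780900216) (W3 := 37827925) (N0 := 3) (En := eng) (mo := mog) (C1 := cd0q0) (C2 := cd5q2) (C3 := pd2)
    rfl k0_mm_022_s

noncomputable def cut_mm_023_s : Cut := Cut.of [[⟨4, 0, 0, 1449551462⟩]]

noncomputable def f_mm_023_s : ℕ → ℕ → ℕ → ℕ → Bool := onCell 0 536870912 0 1230186008 780900216 37827925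
    (rowNE 3 eng mog cd0q0 cd5q3 pd2 0 false false false .up 0 2 3 (qsf 0 536870912 0 1230186008 2) ndB0q0 ndB5q3 pcB2 cut_mm_023_s Ext.none)

def k0_mm_023_s : ∃ t, chk3 f_mm_023_s t 1 1 1 = true :=
  ⟨(l 5), by decide +kernel⟩

theorem c_mm_023_s : CertNE 0 536870912 0 1230186008 780900216 37827925 3 eng mog cd0q0 cd5q3 pd2 false false false .up 0 2 3
    ndB0q0 ndB5q3 pcB2 cut_mm_023_s Ext.none :=
  certNE0 (fam := false) (s1 := false) (s2 := false) (a := 0) (b := 2) (c := 3) (cn := .up) (n1 := ndB0q0) (n2 := ndB5q3) (pc := pcB2) (cut := cut_mm_023_s) (xt := Ext.none) (P1 := 0) (W1 := 536870912) (P2 := 0) (W2 := 1230186008) (P3 := 780900216) (W3 := 37827925) (N0 := 3) (En := eng) (mo := mog) (C1 := cd0q0) (C2 := cd5q3) (C3 := pd2)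
    rfl k0_mm_023_s

noncomputable def cut_mm_033_s : Cut := Cut.of [[⟨4, 0, 0, 1449551462⟩]]

noncomputable def f_mm_033_s : ℕ → ℕ → ℕ → ℕ → Bool := onCell 0 536870912 0 1230186008 780900216 37827925
    (rowNE 3 eng mog cd0q0 cd5q3 pd3 0 false false false .pnn 0 3 3 (qsf 0 536870912 0 1230186008 3) ndB0q0 ndB5q3 pcB3 cut_mm_033_s Ext.none)

def k0_mm_033_s : ∃ t, chk3 f_mm_033_s t 1 1 1 = true :=
  ⟨(l 5), by decide +kernel⟩

theorem c_mm_033_s : CertNE 0 536870912 0 1230186008 780900216 37827925 3 eng mog cd0q0 cd5q3 pd3 false false false .pnn 0 3 3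
    ndB0q0 ndB5q3 pcB3 cut_mm_033_s Ext.none :=
  certNE0 (fam := false) (s1 := false) (s2 := false) (a := 0) (b := 3) (c := 3) (cn := .pnn) (n1 := ndB0q0) (n2 := ndB5q3) (pc := pcB3) (cut := cut_mm_033_s) (xt := Ext.none) (P1 := 0) (W1 := 536870912) (P2 := 0) (W2 := 1230186008) (P3 := 780900216) (W3 := 37827925) (N0 := 3) (En := eng) (mo := mog) (C1 := cd0q0) (C2 := cd5q3) (C3 := pd3)
    rfl k0_mm_033_s

noncomputable def cut_mm_101_s : Cut := Cut.of [[⟨4, 0, 0, 1449551462⟩], [⟨0, 1, 0, 67108864⟩, ⟨1, 0, 0, 67108864⟩, ⟨2, 1, 0, 67108864⟩]]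

noncomputable def f_mm_101_s : ℕ → ℕ → ℕ → ℕ → Bool := onCell 536870912 536870912 0 536870912 780900216 37827925
    (rowNE 3 eng mog cd0q1 cd5q1 pd0 1 false false false .npn 1 0 1 (qsf 536870912 536870912 536870912 536870912 0) ndB0q1 ndB5q1 pcB0 cut_mm_101_s Ext.none)

def k0_mm_101_s : ∃ t, chk3 f_mm_101_s t 1 1 1 = true :=
  ⟨(a (l 3) (b (a (l 3) (b (a (l 3) (b (a (l 3) (b (l 14) (l 3))) (l 3))) (l 3))) (l 3))), by decide +kernel⟩

theorem c_mm_101_s : CertNE 536870912 536870912 536870912 536870912 780900216 37827925 3 eng mog cd0q1 cd5q1 pd0 false false false .npn 1 0 1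
    ndB0q1 ndB5q1 pcB0 cut_mm_101_s Ext.none :=
  certNE1 (fam := false) (s1 := false) (s2 := false) (a := 1) (b := 0) (c := 1) (cn := .npn) (n1 := ndB0q1) (n2 := ndB5q1) (pc := pcB0) (cut := cut_mm_101_s) (xt := Ext.none) (P1 := 536870912) (W1 := 536870912) (P2 := 536870912) (W2 := 536870912) (P3 := 780900216) (W3 := 37827925) (N0 := 3) (En := eng) (mo := mog) (C1 := cd0q1) (C2 := cd5q1) (C3 := pd0)
    rfl (fun _ => rfl) k0_mm_101_s

noncomputable def cut_mm_102_s : Cut := Cut.of [[⟨4, 0, 0, 1449551462⟩], [⟨0, 1, 0, 67108864⟩, ⟨1, 0, 0, 67108864⟩, ⟨2, 1, 0, 67108864⟩]]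

noncomputable def f_mm_102_s : ℕ → ℕ → ℕ → ℕ → Bool := onCell 536870912 536870912 0 536870912 780900216 37827925
    (rowNE 3 eng mog cd0q1 cd5q2 pd0 1 false false false .npp 1 0 2 (qsf 536870912 536870912 1073741824 536870912 0) ndB0q1 ndB5q2 pcB0 cut_mm_102_s Ext.none)

def k0_mm_102_s : ∃ t, chk3 f_mm_102_s t 1 1 1 = true :=
  ⟨(a (l 3) (b (a (l 3) (b (a (l 3) (b (a (l 3) (b (l 14) (l 3))) (l 3))) (l 3))) (l 3))), by decide +kernel⟩

theorem c_mm_102_s : CertNE 536870912 536870912 1073741824 536870912 780900216 37827925 3 eng mog cd0q1 cd5q2 pd0 false false false .npp 1 0 2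
    ndB0q1 ndB5q2 pcB0 cut_mm_102_s Ext.none :=
  certNE1 (fam := false) (s1 := false) (s2 := false) (a := 1) (b := 0) (c := 2) (cn := .npp) (n1 := ndB0q1) (n2 := ndB5q2) (pc := pcB0) (cut := cut_mm_102_s) (xt := Ext.none) (P1 := 536870912) (W1 := 536870912) (P2 := 1073741824) (W2 := 536870912) (P3 := 780900216) (W3 := 37827925) (N0 := 3) (En := eng) (mo := mog) (C1 := cd0q1) (C2 := cd5q2) (C3 := pd0)
    rfl (fun _ => rfl) k0_mm_102_s

noncomputable def cut_mm_112_s : Cut := Cut.of [[⟨4, 0, 0, 1449551462⟩]]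

noncomputable def f_mm_112_s : ℕ → ℕ → ℕ → ℕ → Bool := onCell 536870912 536870912 1073741824 536870912 780900216 37827925
    (rowNE 3 eng mog cd0q1 cd5q2 pd1 2 false false false .dn 1 1 2 (qsf 536870912 536870912 1073741824 536870912 1) ndB0q1 ndB5q2 pcB1 cut_mm_112_s Ext.none)

def k0_mm_112_s : ∃ t, chk3 f_mm_112_s t 1 1 1 = true :=
  ⟨(a (l 3) (l 5)), by decide +kernel⟩

theorem c_mm_112_s : CertNE 536870912 536870912 1073741824 536870912 780900216 37827925 3 eng mog cd0q1 cd5q2 pd1 false false false .dn 1 1 2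
    ndB0q1 ndB5q2 pcB1 cut_mm_112_s Ext.none :=
  certNE2 (fam := false) (s1 := false) (s2 := false) (a := 1) (b := 1) (c := 2) (cn := .dn) (n1 := ndB0q1) (n2 := ndB5q2) (pc := pcB1) (cut := cut_mm_112_s) (xt := Ext.none) (P1 := 536870912) (W1 := 536870912) (P2 := 1073741824) (W2 := 536870912) (P3 := 780900216) (W3 := 37827925) (N0 := 3) (En := eng) (mo := mog) (C1 := cd0q1) (C2 := cd5q2) (C3 := pd1)
    rfl (fun _ => rfl) k0_mm_112_s

noncomputable def cut_mm_113_s : Cut := Cut.of [[⟨4, 0, 0, 1449551462⟩]]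

noncomputable def f_mm_113_s : ℕ → ℕ → ℕ → ℕ → Bool := onCell 536870912 536870912 0 1230186008 780900216 37827925
    (rowNE 3 eng mog cd0q1 cd5q3 pd1 0 false false false .nn 1 1 3 (qsf 536870912 536870912 0 1230186008 1) ndB0q1 ndB5q3 pcB1 cut_mm_113_s Ext.none)

def k0_mm_113_s : ∃ t, chk3 f_mm_113_s t 1 1 1 = true :=
  ⟨(a (l 5) (b (l 5) (a (b (l 5) (l 3)) (l 3)))), by decide +kernel⟩

theorem c_mm_113_s : CertNE 536870912 536870912 0 1230186008 780900216 37827925 3 eng mog cd0q1 cd5q3 pd1 false false false .nn 1 1 3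
    ndB0q1 ndB5q3 pcB1 cut_mm_113_s Ext.none :=
  certNE0 (fam := false) (s1 := false) (s2 := false) (a := 1) (b := 1) (c := 3) (cn := .nn) (n1 := ndB0q1) (n2 := ndB5q3) (pc := pcB1) (cut := cut_mm_113_s) (xt := Ext.none) (P1 := 536870912) (W1 := 536870912) (P2 := 0) (W2 := 1230186008) (P3 := 780900216) (W3 := 37827925) (N0 := 3) (En := eng) (mo := mog) (C1 := cd0q1) (C2 := cd5q3) (C3 := pd1)
    rfl k0_mm_113_s

noncomputable def cut_mm_123_s : Cut := Cut.of [[⟨4, 0, 0, 1449551462⟩]]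

noncomputable def f_mm_123_s : ℕ → ℕ → ℕ → ℕ → Bool := onCell 1073741824 536870912 0 1230186008 780900216 37827925
    (rowNE 3 eng mog cd0q1 cd5q3 pd2 2 false false false .npn 1 2 3 (qsf 536870912 536870912 0 1230186008 2) ndB0q1 ndB5q3 pcB2 cut_mm_123_s Ext.none)

def k0_mm_123_s : ∃ t, chk3 f_mm_123_s t 1 1 1 = true :=
  ⟨(b (l 5) (l 5)), by decide +kernel⟩

theorem c_mm_123_s : CertNE 536870912 536870912 0 1230186008 780900216 37827925 3 eng mog cd0q1 cd5q3 pd2 false false false .npn 1 2 3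
    ndB0q1 ndB5q3 pcB2 cut_mm_123_s Ext.none :=
  certNE2 (fam := false) (s1 := false) (s2 := false) (a := 1) (b := 2) (c := 3) (cn := .npn) (n1 := ndB0q1) (n2 := ndB5q3) (pc := pcB2) (cut := cut_mm_123_s) (xt := Ext.none) (P1 := 536870912) (W1 := 536870912) (P2 := 0) (W2 := 1230186008) (P3 := 780900216) (W3 := 37827925) (N0 := 3) (En := eng) (mo := mog) (C1 := cd0q1) (C2 := cd5q3) (C3 := pd2)
    rfl (fun _ => rfl) k0_mm_123_s

noncomputable def cut_mm_133_s : Cut := Cut.of [[⟨4, 0, 0, 1449551462⟩]]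

noncomputable def f_mm_133_s : ℕ → ℕ → ℕ → ℕ → Bool := onCell 1610612736 536870912 0 1230186008 780900216 37827925
    (rowNE 3 eng mog cd0q1 cd5q3 pd3 2 false false false .dn 1 3 3 (qsf 536870912 536870912 0 1230186008 3) ndB0q1 ndB5q3 pcB3 cut_mm_133_s Ext.none)

def k0_mm_133_s : ∃ t, chk3 f_mm_133_s t 1 1 1 = true :=
  ⟨(l 5), by decide +kernel⟩

theorem c_mm_133_s : CertNE 536870912 536870912 0 1230186008 780900216 37827925 3 eng mog cd0q1 cd5q3 pd3 false false false .dn 1 3 3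
    ndB0q1 ndB5q3 pcB3 cut_mm_133_s Ext.none :=
  certNE2 (fam := false) (s1 := false) (s2 := false) (a := 1) (b := 3) (c := 3) (cn := .dn) (n1 := ndB0q1) (n2 := ndB5q3) (pc := pcB3) (cut := cut_mm_133_s) (xt := Ext.none) (P1 := 536870912) (W1 := 536870912) (P2 := 0) (W2 := 1230186008) (P3 := 780900216) (W3 := 37827925) (N0 := 3) (En := eng) (mo := mog) (C1 := cd0q1) (C2 := cd5q3) (C3 := pd3)
    rfl (fun _ => rfl) k0_mm_133_s

noncomputable def cut_mm_202_s : Cut := Cut.of [[⟨4, 0, 0, 1449551462⟩], [⟨0, 1, 0, 67108864⟩, ⟨1, 0, 0, 67108864⟩, ⟨2, 1, 0, 67108864⟩]]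

noncomputable def f_mm_202_s : ℕ → ℕ → ℕ → ℕ → Bool := onCell 0 536870912 0 536870912 780900216 37827925
    (rowNE 3 eng mog cd0q2 cd5q2 pd0 1 false false false .pp 2 0 2 (qsf 0 536870912 1073741824 536870912 0) ndB0q2 ndB5q2 pcB0 cut_mm_202_s Ext.none)

def k0_mm_202_s : ∃ t, chk3 f_mm_202_s t 2 2 1 = true :=
  ⟨(a (a (l 6) (b (l 6) (b (l 6) (b (l 16530352) (l 16571400))))) (b (b (a (l 6) (b (l 6) (b (l 16522048) (l 16437424)))) (a (b (l 6) (l 16457800)) (b (l 16469672) (l 16512032)))) (b (a (b (l 16499936) (l 16540544)) (b (a (l 16541864) (l 16598224)) (a (b (l 16573064) (l 16592616)) (b (l 16603408) (l 16621192))))) (a (b (a (l 16565984) (l 16592864)) (a (l 16603032) (l 16628312))) (b (b (l 16539928) (l 16642464)) (a (l 16654984) (b (l 16675392) (l 16650504)))))))), by decide +kernel⟩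

def k1_mm_202_s : ∃ t, chk3 f_mm_202_s t 4 6 1 = true :=
  ⟨(b (b (a (l 6) (a (l 16593512) (l 16614016))) (a (l 16599600) (l 16530288))) (a (b (l 16626416) (l 16654520)) (b (l 16664864) (b (l 16685712) (l 2))))), by decide +kernel⟩

def k2_mm_202_s : ∃ t, chk3 f_mm_202_s t 5 6 1 = true :=
  ⟨(b (a (b (l 16649560) (a (l 16669248) (b (l 16686904) (l 16701784)))) (b (a (b (l 16681136) (a (l 16690784) (l 16704336))) (b (a (l 16701960) (l 16717368)) (a (l 16718752) (l 16733992)))) (a (b (l 16734240) (l 16749392)) (b (a (l 16734608) (c (l 16750440) (l 16749304))) (b (a (l 16746000) (c (l 16761640) (l 16760952))) (a (l 16774312) (c (a (l 16764968) (l 215989888935)) (a (l 16764408) (l 188609472631))))))))) (a (b (a (b (l 16691136) (l 16704728)) (b (l 16736936) (l 16750528))) (a (b (l 16718048) (l 16730952)) (b (a (l 16736352) (l 16769944)) (c (l 220754605431) (l 200353510679))))) (a (b (b (c (l 16764456) (l 16741752)) (b (c (l 16753440) (l 16752136)) (a (l 16752488) (c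 (l 16766536) (l 16765928))))) (b (c (a (l 16773016) (a (b (l 16769360) (a (l 16773760) (l 251960241911))) (b (a (l 16774432) (l 305647319335)) (l 378124884183)))) (a (l 16772120) (b (c (l 223506086711) (l 221358603255)) (a (c (l 233706630887) (l 16775200)) (l 376514269911))))) (a (b (c (a (l 16768352) (l 236927855335)) (c (l 214916114247) (l 16771072))) (a (c (l 342624316775) (l 320612608935)) (c (l 346986374119) (l 337859567607)))) (b (c (l 379198620599) (l 377588005639)) (l 3))))) (b (b (b (c (a (l 16760872) (a (l 198273147191) (a (l 290078063223) (l 390472917335)))) (a (l 16760080) (a (l 181630148407) (a (l 252497115751) (l 388862302919))))) (a (c (a (l 16764080) (l 16771256)) (a (l 16763416) (l 16770952))) (a (a (c (l 247665275335) (l 241759695207)) (c (l 360945018855) (l 353428824855))) (l 3)))) (a (b (a (c (l 16770608) (l 16770256)) (c (a (l 239612210087) (l 338396442199)) (a (l 232096017111) (l 280414405767)))) (a (c (a (l 233169756647) (l 320679703591))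 (c (l 244980923559) (l 242833439847))) (l 3))) (l 3))) (a (a (b (c (l 388325423927) (l 387251689799)) (l 3)) (l 3)) (l 3)))))), by decide +kernel⟩

def k3_mm_202_s : ∃ t, chk3 f_mm_202_s t 2 7 1 = true :=
  ⟨(a (l 2) (a (l 2) (a (l 2) (l 3)))), by decide +kernel⟩

def k4_mm_202_s : ∃ t, chk3 f_mm_202_s t 6 4 1 = true :=
  ⟨(b (a (b (b (a (l 16431888) (l 16475368)) (l 16450128)) (l 16499160)) (a (b (l 16507112) (l 16561864)) (b (b (l 16565336) (l 16582512)) (b (l 16599816) (l 16617664))))) (a (b (a (l 16517944) (l 16556496)) (a (l 16561192) (b (l 16588408) (a (l 16601672) (l 16620936))))) (b (a (b (l 16589304) (b (l 16604088) (l 16614968))) (b (a (l 16623952) (b (l 16643960) (l 16653952))) (a (l 16622840) (l 16645992)))) (a (b (a (l 16620160) (l 16640384)) (l 16650896)) (b (a (l 16663600) (b (l 16682488) (l 16692872))) (a (l 16684936) (b (l 16682192) (l 16670808)))))))), by decide +kernel⟩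

def k5_mm_202_s : ∃ t, chk3 f_mm_202_s t 6 10 1 = true :=
  ⟨(a (b (a (b (l 16596048) (l 16616384)) (b (l 16632208) (l 16654400))) (a (l 16561880) (b (l 16612144) (a (l 16683448) (l 16702424))))) (b (a (b (a (l 16663024) (l 16684432)) (a (l 16685056) (b (l 16700184) (l 16710376)))) (b (a (b (l 16700568) (l 16710880)) (l 16729400)) (b (l 16767024) (a (l 16732656) (l 16776576))))) (a (b (a (l 16662376) (l 16683552)) (a (l 16723080) (l 16765088))) (b (a (b (l 16711152) (l 16752056)) (a (b (l 16759616) (a (l 16766240) (b (l 16769656) (l 166597762087)))) (b (a (l 16778800) (b (l 16771784) (a (l 16780312) (l 326048414903)))) (a (b (b (l 16774272) (l 211694919911)) (a (l 344302028567) (l 3))) (b (l 399062862999) (l 3)))))) (a (a (c (l 16781744) (l 16781240)) (b (l 16777600) (a (b (l 16771328) (a (l 16774568) (l 233169757351))) (b (a (l 16780784) (l 333564609799)) (l 406579058823))))) (a (b (a (b (l 16773336) (a (l 212768661383) (l 363629382775))) (b (a (l 235854111447)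 (l 409800282951)) (l 3))) (l 3)) (l 3))))))), by decide +kernel⟩

def k6_mm_202_s : ∃ t, chk3 f_mm_202_s t 6 11 1 = true :=
  ⟨(a (b (a (b (l 16673432) (a (l 16682032) (l 16699416))) (b (a (l 16700696) (l 16720808)) (c (l 16750520) (l 16727896)))) (a (b (a (l 16699144) (l 16717368)) (a (l 16716848) (b (l 16730496) (l 16739128)))) (b (b (l 16773456) (a (l 16740896) (a (l 16755776) (l 16776424)))) (a (c (b (l 16750120) (l 16758592)) (l 16753496)) (a (b (l 16774984) (a (c (l 16770728) (l 16770488)) (c (b (l 16773560) (l 258939562839)) (l 210621182535)))) (c (b (a (b (l 16770064) (l 16774312)) (b (l 199883757703) (l 364166249463))) (c (l 393694147703) (l 398525984215))) (b (a (l 16771992) (l 228874796647)) (l 403894690823)))))))) (b (a (b (a (l 16741344) (b (l 16778976) (a (l 16761760) (a (l 16769872) (b (l 16773080) (l 305647320487)))))) (a (b (l 16754888) (a (l 16737616) (b (l 16766888) (l 162839664439)))) (a (b (a (l 16768144) (b (l 16771272) (l 207399953095))) (a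 (b (l 190756952967) (a (l 247128401735) (l 456508046935))) (b (l 391009796231) (l 3)))) (b (a (b (l 222969211351) (l 421074567911)) (l 451676211255)) (l 3))))) (b (a (a (b (a (l 150491636135) (b (l 190756953799) (l 350207609191))) (a (b (l 325511546087) (l 3)) (l 3))) (b (a (b (l 373829930935) (l 3)) (l 3)) (l 3))) (l 3)) (l 3))) (a (a (b (b (b (a (l 16744296) (a (l 16773144) (b (l 233706627447) (l 395304762759)))) (a (l 16769696) (a (b (l 218137369287) (l 356113186311)) (l 3)))) (b (a (c (c (l 209547437863) (l 207936824823)) (l 204178728903)) (l 464561107575)) (a (a (c (l 213842403015) (l 16775760)) (l 429127628535)) (l 3)))) (b (c (c (l 440938787575) (l 448991847415)) (l 451139325351)) (l 3))) (l 3)) (l 3)))), by decide +kernel⟩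

def k7_mm_202_s : ∃ t, chk3 f_mm_202_s t 14 8 1 = true :=
  ⟨(b (b (a (l 16613920) (a (l 16649984) (l 16652400))) (a (l 16632096) (a (l 16668992) (l 16672008)))) (a (b (l 16608440) (a (l 16702656) (b (l 16702112) (l 16686256)))) (b (a (b (l 16683360) (l 16727824)) (b (a (l 16701720) (b (l 16711768) (l 16716312))) (b (l 16693600) (l 16719248)))) (a (b (b (l 16699904) (l 16704016)) (l 16711288)) (b (a (l 16720448) (l 16712136)) (a (l 16709256) (a (l 16717888) (l 16723616)))))))), by decide +kernel⟩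

def k8_mm_202_s : ∃ t, chk3 f_mm_202_s t 15 16 1 = true :=
  ⟨(a (b (l 14) (a (b (l 14) (b (l 16751216) (a (l 16719200) (l 16730776)))) (l 14))) (l 14)), by decide +kernel⟩

def k9_mm_202_s : ∃ t, chk3 f_mm_202_s t 30 34 1 = true :=
  ⟨(a (b (a (b (l 16723496) (l 16728360)) (l 16717144)) (a (b (l 16733008) (l 16737872)) (a (l 16744888) (b (l 16748456) (l 16752984))))) (a (a (b (a (l 16725360) (l 16749392)) (b (l 16754368) (l 16759368))) (b (b (l 14) (l 16745344)) (c (l 16772584) (l 16772320)))) (b (a (b (l 14) (l 16751888)) (l 14)) (a (b (a (l 16755144) (b (l 16767616) (l 16764824))) (a (l 16775784) (a (l 16776896) (a (b (l 16772944) (l 16778048)) (b (l 16771128) (b (l 16774312) (b (l 16776560) (a (l 16777624) (l 250349618375))))))))) (b (a (c (l 16777344) (l 16777256)) (b (l 14) (a (a (l 16777944) (b (l 16774208) (a (l 16777208) (b (l 16776656) (a (l 183240754007) (l 262697649111)))))) (b (a (l 16777640) (l 14)) (a (b (a (l 155860337527) (c (l 360945025319) (l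 365776863511))) (l 435033211703)) (l 3)))))) (a (b (a (l 16777592) (a (b (l 16774256) (a (l 16777592) (b (l 16776704) (c (l 236390974503) (l 238001587223))))) (b (l 16777648) (b (a (l 169818981319) (l 375977410919)) (l 3))))) (a (a (b (l 98952020935) (b (a (l 184314496039) (l 390472925623)) (l 3))) (b (b (c (l 144049177623) (l 142438564871)) (b (l 342691414199) (l 428053889639))) (l 3))) (b (a (b (l 398525989511) (l 3)) (l 3)) (l 3)))) (b (a (b (a (b (c (l 133311759287) (l 131701146535)) (a (a (l 192904430455) (l 271287583751)) (l 437717566055))) (b (a (l 368461218119) (l 3)) (l 3))) (l 3)) (l 3)) (l 3)))))))), by decide +kernel⟩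

def k10_mm_202_s : ∃ t, chk3 f_mm_202_s t 60 35 1 = true :=
  ⟨(b (a (c (l 16754848) (l 16754824)) (b (l 16744264) (a (l 16756432) (l 16752272)))) (b (a (l 16751872) (l 16774312)) (b (a (l 16755504) (a (l 16764984) (l 16776656))) (a (l 16757936) (a (l 16756976) (b (l 16775912) (a (l 16767680) (a (l 16775360) (a (l 16777880) (c (l 320679706679) (l 229411653751))))))))))), by decide +kernel⟩

def k11_mm_202_s : ∃ t, chk3 f_mm_202_s t 61 70 1 = true :=
  ⟨(a (a (b (a (l 16762640) (l 16765832)) (l 16774400)) (b (b (a (l 16767808) (l 16765784)) (l 16777136)) (a (a (l 16777128) (b (l 16770952) (b (l 16775456) (a (l 16776296) (b (l 16776792) (c (l 245517780519) (l 246054651415))))))) (b (a (l 16777824) (b (c (l 108615697639) (l 104320730375)) (a (b (l 16776728) (c (l 233706620359) (l 230485394951))) (b (l 358797541735) (l 3))))) (a (a (c (b (l 130090534215) (l 387251700567)) (b (l 16777872) (l 391546667847))) (b (b (l 191830689191) (l 415168987847)) (l 3))) (l 3))))))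 (a (b (b (a (l 16777544) (a (a (b (l 16774368) (b (l 16776616) (a (l 16777672) (l 270213842119)))) (b (l 105394472039) (b (a (l 200420623479) (l 407115923959)) (l 3)))) (b (a (b (c (l 154786595959) (l 153175983207)) (c (l 370608701911) (l 374903669191))) (c (l 423222051927) (l 428053890119))) (l 3)))) (a (a (a (l 16778168) (b (l 16774424) (b (l 16776672) (a (l 16777728) (l 286856840487))))) (a (a (b (l 16776344) (b (l 220284847223) (l 3))) (b (l 124184954007) (l 435033211847))) (b (b (a (l 16776848) (l 213305525319)) (l 382419862055)) (l 3)))) (a (a (b (l 432885728407) (l 3)) (l 3)) (l 3)))) (a (a (b (b (a (b (c (l 180019528951) (l 180019528935)) (l 394231022199)) (l 441475663063)) (l 3)) (l 3)) (l 3)) (l 3))) (l 3))), by decide +kernel⟩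

def k12_mm_202_s : ∃ t, chk3 f_mm_202_s t 61 71 1 = true :=
  ⟨(a (a (a (b (l 16777760) (b (a (c (l 16778104) (l 16778064)) (a (b (l 16776064) (a (l 183240754983) (l 345375768871))) (b (a (l 16776672) (l 177335174887)) (l 425369535575)))) (a (b (a (a (l 16776736) (l 193978173127)) (a (l 350207607143) (l 417316471703))) (l 438254438039)) (l 3)))) (a (b (b (l 16771080) (b (l 16775584) (a (l 16776432) (b (l 16777568) (l 360408154487))))) (a (b (b (a (l 339470188791) (l 404968440631)) (l 3)) (l 3)) (l 3))) (b (b (l 16777952) (a (b (a (l 16776600) (l 166060885623)) (l 406042182647)) (b (b (l 218137364055) (l 3)) (l 3)))) (l 3)))) (b (a (b (a (b (c (l 119889987111) (l 117742503431)) (a (b (l 16776856) (l 348060123415)) (l 396378506151))) (a (b (b (l 205252462071) (l 429127631639)) (l 3)) (l 3))) (l 3)) (l 3)) (l 3))) (l 3)), by decide +kernel⟩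

def k13_mm_202_s : ∃ t, chk3 f_mm_202_s t 31 17 1 = true :=
  ⟨(a (b (a (b (l 14) (b (b (l 14) (b (l 14) (l 3))) (l 3))) (l 3)) (l 3)) (l 3)), by decide +kernel⟩

def k14_mm_202_s : ∃ t, chk3 f_mm_202_s t 14 18 1 = true :=
  ⟨(a (b (a (b (l 16669920) (l 16678416)) (b (l 16695392) (l 16704440))) (a (l 16692904) (b (a (l 16707408) (l 16720480)) (a (l 16717312) (l 16729464))))) (b (a (b (a (l 16714120) (l 16706104)) (a (l 16723752) (b (l 16733248) (l 16738216)))) (b (a (b (l 16736488) (l 16741080)) (a (l 16748304) (l 16744088))) (b (l 16773328) (a (l 16750928) (l 16774168))))) (b (a (a (l 16711384) (l 16724560)) (a (l 16779296) (b (b (l 16777912) (a (l 16766720) (l 89825217351))) (a (l 16775736) (a (b (l 16774088) (a (l 16778416) (a (l 196662528967) (l 345375769127)))) (b (a (b (l 16775888) (l 200957496503)) (b (l 235854105911) (l 3))) (l 426980150327))))))) (a (l 16767472) (a (a (l 16775664) (b (l 16769096) (a (l 16772552) (b (l 16774520) (a (l 140291083575) (a (l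 229411655799) (l 377051153575))))))) (a (b (a (b (l 16767440) (l 121500601447)) (a (b (l 16775112) (a (l 213842399031) (l 360408154983))) (b (a (l 16778912) (l 204178721895)) (l 434496342391)))) (a (b (a (a (l 16778456) (l 221895462855)) (l 379735508471)) (l 3)) (l 3))) (b (a (a (b (a (l 352891962055) (l 425906407207)) (l 3)) (l 3)) (l 3)) (l 3)))))))), by decide +kernel⟩

def k15_mm_202_s : ∃ t, chk3 f_mm_202_s t 14 19 1 = true :=
  ⟨(a (b (a (b (l 16666256) (a (l 16711448) (l 16724168))) (b (a (l 16726744) (l 16739984)) (l 16764776))) (a (l 16754200) (a (b (l 16747536) (l 16757808)) (b (l 16781360) (a (l 16777872) (b (l 16771216) (a (b (l 16773440) (l 154786599079)) (b (l 171429598503) (l 384567347431))))))))) (b (a (b (b (l 16777704) (a (l 16755400) (a (l 16754528) (l 16776680)))) (a (l 16777784) (a (b (l 16770104) (a (l 16778808) (b (l 16779072) (a (l 216526754535) (l 397452248951))))) (b (a (b (l 16773640) (c (l 153712857495) (l 149417890263))) (b (a (l 16776016)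 (l 328732770439)) (l 403357829607))) (a (b (c (l 363629381191) (l 366313735703)) (l 3)) (l 3)))))) (a (b (a (b (a (l 16771184) (b (l 16773136) (l 137069858759))) (a (b (l 16774984) (a (l 160155308167) (l 366313735351))) (b (a (a (l 200420625975) (l 258939556183)) (l 418927085655)) (l 3)))) (b (a (a (b (l 16775552) (l 352355091271)) (b (c (l 209547432311) (l 207936819527)) (l 3))) (b (l 413021506279) (l 3))) (l 3))) (a (b (a (b (l 433959472455) (l 3)) (l 3)) (l 3)) (l 3))) (l 3))) (a (a (b (a (b (l 16756960) (a (l 16770920) (l 127406182711))) (b (a (l 16772240) (b (l 16774168) (c (l 198273142791) (l 195588789639)))) (a (b (l 154786599191) (l 359871284599)) (b (l 387788572983) (l 3))))) (a (b (a (b (l 16774728) (c (l 221358592839) (l 220284852279))) (b (c (l 334638350695) (l 336248963383)) (l 3))) (a (l 426980151911) (l 3))) (l 3))) (b (a (a (b (b (a (l 16779112) (l 357186929591)) (l 428590763175)) (l 3)) (l 3)) (l 3)) (l 3))) (l 3)))), by decide +kernel⟩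

def k16_mm_202_s : ∃ t, chk3 f_mm_202_s t 15 9 1 = true :=
  ⟨(b (a (a (b (a (a (b (b (l 16758432) (l 16752864)) (b (b (l 16767080) (l 16763024)) (a (l 16771728) (a (l 16778080) (b (l 16774512) (b (l 16776384) (l 338933317991))))))) (b (b (l 16756912) (l 16774992)) (b (a (l 83919636807) (b (b (l 16774512) (l 118816246183)) (a (a (l 137606728279) (b (l 16776616) (l 380809249543))) (b (l 353428832903) (l 3))))) (a (a (b (c (l 132238019223) (l 125795568375)) (c (l 385641088663) (l 389399185015))) (b (b (a (l 16776696) (l 247128394231)) (l 413021504871)) (l 3))) (l 3))))) (b (a (b (c (l 16777824) (l 16777680)) (a (a (l 16776416) (b (l 16771536) (a (l 127406180631) (b (l 16776448) (l 358797541911))))) (a (b (c (l 115058149383) (l 16778368)) (a (b (l 211158042871) (l 3)) (l 414632118007))) (b (c (b (l 164450273543) (l 369534960551)) (b (l 160692177207) (l 372756186007))) (l 3))))) (b (b (b (a (l 16771560) (a (b (l 16776304) (l 167671498711)) (a (l 374903669447) (l 3))))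 (a (l 103783859943) (a (a (a (l 212768655175) (l 367387476487)) (l 3)) (l 3)))) (a (a (a (l 117742503911) (b (l 16776296) (l 338396447015))) (b (a (l 186998851719) (l 384567345975)) (l 3))) (l 3))) (a (a (b (b (l 415168988551) (l 3)) (l 3)) (l 3)) (l 3)))) (a (b (a (b (a (b (a (l 16776536) (l 221358590343)) (l 385641088135)) (l 433959471431)) (l 3)) (l 3)) (l 3)) (l 3)))) (a (b (a (b (a (a (b (l 16774704) (b (l 16777872) (l 355576316551))) (b (c (l 141364825063) (l 134922374231)) (l 397989119879))) (a (b (b (l 214916140199) (l 431811987031)) (l 3)) (l 3))) (l 3)) (l 3)) (l 3)) (l 3))) (l 3)) (l 3)) (l 3)), by decide +kernel⟩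

def k17_mm_202_s : ∃ t, chk3 f_mm_202_s t 7 5 1 = true :=
  ⟨(b (a (a (b (b (b (a (l 16769912) (a (a (l 16764880) (b (l 16768680) (a (l 16772176) (b (l 16774064) (l 172503340295))))) (a (b (a (l 16773424) (b (l 16775304) (l 333027737847))) (a (b (c (l 221358594151) (l 219211110599)) (l 421074570343)) (l 3))) (b (a (b (l 357723800855) (l 3)) (l 3)) (l 3))))) (a (a (l 16732088) (a (l 16762464) (l 16779248))) (a (a (b (l 16777744) (a (b (l 16774728) (l 221895465383)) (b (l 331953996055) (l 3)))) (b (a (b (l 16778520) (l 356113188135)) (b (l 382419863799) (l 3))) (l 3))) (l 3)))) (a (a (b (l 16773888) (a (b (l 16746968) (l 16772848)) (b (a (l 16772456) (l 164450277783)) (a (b (l 16776080) (l 357723801223)) (l 403894702311))))) (b (a (b (l 16770112) (a (l 16773576) (b (l 16775392) (l 249275882631)))) (b (a (l 150491632695) (b (l 201494369623) (l 381882992999))) (a (b (l 355576317367) (l 3)) (l 3)))) (a (b (a (b (l 223506078231) (l 421611441559)) (l 3)) (l 3)) (l 3))))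 (a (b (a (b (a (l 423758926631) (l 3)) (l 3)) (l 3)) (l 3)) (l 3)))) (a (b (a (b (a (b (a (b (l 16775008) (l 229411658967)) (b (l 252497108183) (l 3))) (l 422685187415)) (l 3)) (l 3)) (l 3)) (l 3)) (l 3))) (l 3)) (l 3)) (l 3)), by decide +kernel⟩

def k18_mm_202_s : ∃ t, chk3 f_mm_202_s t 3 3 1 = true :=
  ⟨(a (b (a (b (a (a (b (b (l 16754944) (c (l 16772056) (l 16750032))) (c (b (a (l 16773000) (b (l 16767152) (b (l 16772888) (l 244980920583)))) (b (a (b (l 16771896) (l 233706629239)) (l 367924339111)) (c (l 379735489511) (l 379735493207)))) (b (a (l 16761896) (b (l 16766736) (a (l 16772424) (l 235854116455)))) (a (b (b (l 16771664) (l 227264178247)) (l 343765148183)) (b (l 370071820743) (l 3)))))) (b (c (b (l 16773336) (a (b (l 16760112) (l 16768112)) (b (l 16779688) (b (l 229411662215) (l 330343380519))))) (b (l 16751400) (b (l 16774632) (a (l 16767752) (a (l 200420632951) (l 340007055463)))))) (b (c (b (a (b (l 215989886727) (l 300278610775)) (l 415168976535))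 (l 407652778599)) (b (a (a (l 16773536) (l 244444053623)) (l 413558360407)) (l 406042161319))) (l 3)))) (b (a (b (c (a (b (l 16741208) (b (l 16768384) (l 16780008))) (b (c (l 197199407159) (l 185925117943)) (a (b (l 210621176263) (l 374366795335)) (l 416779594711)))) (a (b (l 16761608) (l 16770160)) (b (l 180019538407) (b (l 307257932455) (l 407652786999))))) (a (b (c (a (b (l 16774176) (l 266992626711)) (l 375440535463)) (a (l 216526762807) (l 381882984599))) (l 3)) (l 3))) (b (a (b (a (c (b (l 246591530343) (l 430201369207)) (l 323900929527)) (l 3)) (l 3)) (l 3)) (l 3))) (l 3))) (l 3)) (l 3)) (l 3)) (l 3)), by decide +kernel⟩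

theorem s19_mm_202_s : ∃ t, chk3 f_mm_202_s t 14 9 1 = true := ex3_b k14_mm_202_s k15_mm_202_s

theorem s20_mm_202_s : ∃ t, chk3 f_mm_202_s t 7 9 1 = true := ex3_a s19_mm_202_s k16_mm_202_s

theorem s21_mm_202_s : ∃ t, chk3 f_mm_202_s t 61 35 1 = true := ex3_b k11_mm_202_s k12_mm_202_s

theorem s22_mm_202_s : ∃ t, chk3 f_mm_202_s t 30 35 1 = true := ex3_a k10_mm_202_s s21_mm_202_s

theorem s23_mm_202_s : ∃ t, chk3 f_mm_202_s t 30 17 1 = true := ex3_b k9_mm_202_s s22_mm_202_s

theorem s24_mm_202_s : ∃ t, chk3 f_mm_202_s t 15 17 1 = true := ex3_a s23_mm_202_s k13_mm_202_s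

theorem s25_mm_202_s : ∃ t, chk3 f_mm_202_s t 15 8 1 = true := ex3_b k8_mm_202_s s24_mm_202_s

theorem s26_mm_202_s : ∃ t, chk3 f_mm_202_s t 7 8 1 = true := ex3_a k7_mm_202_s s25_mm_202_s

theorem s27_mm_202_s : ∃ t, chk3 f_mm_202_s t 7 4 1 = true := ex3_b s26_mm_202_s s20_mm_202_s

theorem s28_mm_202_s : ∃ t, chk3 f_mm_202_s t 7 2 1 = true := ex3_b s27_mm_202_s k17_mm_202_s

theorem s29_mm_202_s : ∃ t, chk3 f_mm_202_s t 6 5 1 = true := ex3_b k5_mm_202_s k6_mm_202_s

theorem s30_mm_202_s : ∃ t, chk3 f_mm_202_s t 6 2 1 = true := ex3_b k4_mm_202_s s29_mm_202_s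

theorem s31_mm_202_s : ∃ t, chk3 f_mm_202_s t 3 2 1 = true := ex3_a s30_mm_202_s s28_mm_202_s

theorem s32_mm_202_s : ∃ t, chk3 f_mm_202_s t 3 1 1 = true := ex3_b s31_mm_202_s k18_mm_202_s

theorem s33_mm_202_s : ∃ t, chk3 f_mm_202_s t 2 6 1 = true := ex3_a k1_mm_202_s k2_mm_202_s

theorem s34_mm_202_s : ∃ t, chk3 f_mm_202_s t 2 3 1 = true := ex3_b s33_mm_202_s k3_mm_202_s

theorem s35_mm_202_s : ∃ t, chk3 f_mm_202_s t 2 1 1 = true := ex3_b k0_mm_202_s s34_mm_202_s

theorem s36_mm_202_s : ∃ t, chk3 f_mm_202_s t 1 1 1 = true := ex3_a s35_mm_202_s s32_mm_202_s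

theorem c_mm_202_s : CertNE 0 536870912 1073741824 536870912 780900216 37827925 3 eng mog cd0q2 cd5q2 pd0 false false false .pp 2 0 2
    ndB0q2 ndB5q2 pcB0 cut_mm_202_s Ext.none :=
  certNE1 (fam := false) (s1 := false) (s2 := false) (a := 2) (b := 0) (c := 2) (cn := .pp) (n1 := ndB0q2) (n2 := ndB5q2) (pc := pcB0) (cut := cut_mm_202_s) (xt := Ext.none) (P1 := 0) (W1 := 536870912) (P2 := 1073741824) (W2 := 536870912) (P3 := 780900216) (W3 := 37827925) (N0 := 3) (En := eng) (mo := mog) (C1 := cd0q2) (C2 := cd5q2) (C3 := pd0)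
    rfl (fun _ => rfl) s36_mm_202_s

noncomputable def cut_mm_203_s : Cut := Cut.of [[⟨4, 0, 0, 1449551462⟩]]

noncomputable def f_mm_203_s : ℕ → ℕ → ℕ → ℕ → Bool := onCell 0 536870912 0 1230186008 780900216 37827925
    (rowNE 3 eng mog cd0q2 cd5q3 pd0 0 false false false .up 2 0 3 (qsf 0 536870912 0 1230186008 0) ndB0q2 ndB5q3 pcB0 cut_mm_203_s Ext.none)

def k0_mm_203_s : ∃ t, chk3 f_mm_203_s t 1 2 1 = true :=
  ⟨(l 2), by decide +kernel⟩

def k1_mm_203_s : ∃ t, chk3 f_mm_203_s t 1 6 1 = true :=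
  ⟨(l 2), by decide +kernel⟩

def k2_mm_203_s : ∃ t, chk3 f_mm_203_s t 2 14 1 = true :=
  ⟨(a (b (l 2) (b (l 2) (a (a (l 16747056) (b (l 16764480) (l 16757352))) (a (b (b (l 6043119638455) (a (a (l 16771760) (l 231559130247)) (l 336785822487))) (c (a (l 16769152) (l 252497118263)) (a (l 16767960) (a (l 228874770551) (l 304573574295))))) (l 3))))) (l 3)), by decide +kernel⟩

def k3_mm_203_s : ∃ t, chk3 f_mm_203_s t 4 15 1 = true :=
  ⟨(b (a (b (a (l 16729080) (l 16744568)) (a (l 16706800) (b (l 16729008) (l 16717344)))) (a (b (b (a (l 16760864) (c (l 16769672) (l 16768712))) (a (l 16752008) (l 16760696))) (b (l 16746496) (l 16735400))) (b (a (c (b (a (l 249812766151) (l 321216568583)) (l 216526736039)) (b (b (l 321216568951) (l 247665277751)) (b (l 211158026583) (l 16767440)))) (b (l 3) (c (a (l 292225566327) (l 358797527047)) (c (l 313700375479) (l 313700375063))))) (b (b (a (l 16763232) (c (l 233169741623) (a (l 16770720) (l 244980919415)))) (c (l 16764160) (l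 16773368))) (c (l 16756600) (l 16775656)))))) (a (b (a (l 16679792) (l 16697976)) (l 16658608)) (b (a (b (l 16723152) (l 16710136)) (b (a (l 16738632) (l 16749960)) (l 16731768))) (a (l 16688664) (b (l 16760064) (l 16703648)))))), by decide +kernel⟩

def k4_mm_203_s : ∃ t, chk3 f_mm_203_s t 5 15 1 = true :=
  ⟨(b (a (b (l 3) (a (a (c (b (b (l 370071811639) (l 319069085655)) (a (l 16770240) (b (l 306184188279) (l 16773576)))) (c (b (l 333027722919) (a (l 16769776) (l 246591542135))) (b (l 332490851399) (l 229411639415)))) (b (l 3) (a (b (l 3) (c (l 320679700711) (l 324437796487))) (l 3)))) (l 3))) (l 3)) (a (b (a (b (c (a (l 16762728) (a (b (l 234243485127) (l 16769136)) (b (l 335712083863) (l 247665275623)))) (a (l 16761512) (c (b (l 292225544711) (l 222432323303)) (l 248202127735)))) (b (a (l 16753304) (c (l 16766720) (l 16765880))) (c (l 16754480) (l 16752712)))) (a (b (b (l 3) (c (l 370071812087) (l 369534939287))) (b (c (a (l 258402678631) (l 372756171735))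 (c (l 311015996759) (l 307794797111))) (a (c (l 16770688) (l 16770184)) (c (a (l 246591530967) (l 324974669431)) (c (l 276656307815) (l 275045694983)))))) (l 3))) (a (b (c (l 16745040) (l 16742648)) (l 16771792)) (c (b (a (b (l 16773360) (l 16761904)) (a (b (a (l 253033983543) (l 350744470919)) (l 217063615191)) (b (l 3) (a (l 304573577319) (l 367387466807))))) (a (l 16772960) (b (c (l 216526742359) (l 210621162439)) (l 16763000)))) (b (a (b (a (l 16763784) (l 16771088)) (l 16760792)) (b (c (l 331953983639) (l 332490853879)) (a (l 204715584167) (a (l 275582543207) (l 370071820263))))) (a (l 16750256) (b (c (l 204178698167) (l 16768968)) (l 16762048))))))) (b (l 3) (a (b (l 3) (a (a (c (b (l 341617664439) (a (l 16772304) (l 244980920071))) (c (b (l 334101470903) (l 227264181207)) (l 262160794391))) (b (l 3) (c (l 356113176807) (l 347523240855)))) (l 3))) (l 3))))), by decide +kernel⟩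

def k5_mm_203_s : ∃ t, chk3 f_mm_203_s t 3 7 1 = true :=
  ⟨(l 3), by decide +kernel⟩

theorem s6_mm_203_s : ∃ t, chk3 f_mm_203_s t 2 15 1 = true := ex3_a k3_mm_203_s k4_mm_203_s

theorem s7_mm_203_s : ∃ t, chk3 f_mm_203_s t 2 7 1 = true := ex3_b k2_mm_203_s s6_mm_203_s

theorem s8_mm_203_s : ∃ t, chk3 f_mm_203_s t 1 7 1 = true := ex3_a s7_mm_203_s k5_mm_203_s

theorem s9_mm_203_s : ∃ t, chk3 f_mm_203_s t 1 3 1 = true := ex3_b k1_mm_203_s s8_mm_203_s

theorem s10_mm_203_s : ∃ t, chk3 f_mm_203_s t 1 1 1 = true := ex3_b k0_mm_203_s s9_mm_203_s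

theorem c_mm_203_s : CertNE 0 536870912 0 1230186008 780900216 37827925 3 eng mog cd0q2 cd5q3 pd0 false false false .up 2 0 3
    ndB0q2 ndB5q3 pcB0 cut_mm_203_s Ext.none :=
  certNE0 (fam := false) (s1 := false) (s2 := false) (a := 2) (b := 0) (c := 3) (cn := .up) (n1 := ndB0q2) (n2 := ndB5q3) (pc := pcB0) (cut := cut_mm_203_s) (xt := Ext.none) (P1 := 0) (W1 := 536870912) (P2 := 0) (W2 := 1230186008) (P3 := 780900216) (W3 := 37827925) (N0 := 3) (En := eng) (mo := mog) (C1 := cd0q2) (C2 := cd5q3) (C3 := pd0)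
    rfl s10_mm_203_s

noncomputable def cut_mm_213_s : Cut := Cut.of [[⟨4, 0, 0, 1449551462⟩]]

noncomputable def f_mm_213_s : ℕ → ℕ → ℕ → ℕ → Bool := onCell 0 536870912 0 1230186008 780900216 37827925
    (rowNE 3 eng mog cd0q2 cd5q3 pd1 0 false false false .pnn 2 1 3 (qsf 0 536870912 0 1230186008 1) ndB0q2 ndB5q3 pcB1 cut_mm_213_s Ext.none)

def k0_mm_213_s : ∃ t, chk3 f_mm_213_s t 1 1 1 = true :=
  ⟨(b (a (l 3) (b (l 5) (l 3))) (b (a (b (l 3) (a (l 3) (l 3))) (l 3)) (a (b (a (b (a (a (b (a (b (l 308331668695) (l 231559144215)) (l 329269625511)) (a (l 16764088) (b (l 244980921351) (l 16769304)))) (b (l 3) (a (b (l 342691399975) (a (l 241759692999) (l 309942282167))) (l 3)))) (l 3)) (b (a (a (b (l 16756624) (l 16747184)) (a (b (b (l 16772616) (l 16769024)) (l 16762840)) (b (a (l 288467469111) (l 331417115047)) (c (l 226190439095) (l 223506083879))))) (a (a (b (l 3) (b (l 3) (l 305647335095))) (l 3)) (l 3))) (b (a (a (l 16735864) (a (l 16753232) (l 16764104))) (a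 (b (a (a (l 16773880) (l 300815478791)) (l 3)) (a (a (l 16769720) (l 227264173607)) (l 330343371879))) (l 3))) (l 1)))) (l 3)) (a (l 1) (b (a (l 1) (l 3)) (l 1)))) (l 3)))), by decide +kernel⟩

theorem c_mm_213_s : CertNE 0 536870912 0 1230186008 780900216 37827925 3 eng mog cd0q2 cd5q3 pd1 false false false .pnn 2 1 3
    ndB0q2 ndB5q3 pcB1 cut_mm_213_s Ext.none :=
  certNE0 (fam := false) (s1 := false) (s2 := false) (a := 2) (b := 1) (c := 3) (cn := .pnn) (n1 := ndB0q2) (n2 := ndB5q3) (pc := pcB1) (cut := cut_mm_213_s) (xt := Ext.none) (P1 := 0) (W1 := 536870912) (P2 := 0) (W2 := 1230186008) (P3 := 780900216) (W3 := 37827925) (N0 := 3) (En := eng) (mo := mog) (C1 := cd0q2) (C2 := cd5q3) (C3 := pd1)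
    rfl k0_mm_213_s

end Pool.Agent.Strip051.G.I72727_7625.Tab.CS.BB05

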