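import Pool.Agent.Strip051.G.I72727_7625.Tab

/-! # Certificates B0 (generated) -/

set_option linter.all false
set_option maxRecDepth 100000

namespace Pool.Agent.Strip051.G.I72727_7625.Tab.C.BA00

open Pool.Agent.Strip051.PB Pool.Agent.Strip051.PB.T
open Pool.Agent.Strip051.G.I72727_7625.Tab

noncomputable def cut_pp_001 : Cut := Cut.of [[⟨3, 0, 0, 1449551462⟩], [⟨4, 0, 0, 2845415833⟩]]

noncomputable def f_pp_001 : ℕ → ℕ → ℕ → ℕ → Bool := onCell 0 536870912 0 536870912 780900216 37827925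
    (rowB 3 eng mog cd0q0 cd0q0 pd1 0 true true true .up 0 0 1 (qsf 0 536870912 0 536870912 1) ndB0q0 ndB0q0 pcB1 cut_pp_001 Ext.none)

def k0_pp_001 : ∃ t, chk3 f_pp_001 t 1 1 1 = true :=
  ⟨(l 4), by decide +kernel⟩

theorem c_pp_001 : CertB 0 536870912 0 536870912 780900216 37827925 3 eng mog cd0q0 cd0q0 pd1 true true true .up 0 0 1
    ndB0q0 ndB0q0 pcB1 cut_pp_001 Ext.none :=
  certB0 (fam := true) (s1 := true) (s2 := true) (a := 0) (b := 0) (c := 1) (cn := .up) (n1 := ndB0q0) (n2 := ndB0q0) (pc := pcB1) (cut := cut_pp_001) (xt := Ext.none) (P1 := 0) (W1 := 536870912) (P2 := 0) (W2 := 536870912) (P3 := 780900216) (W3 := 37827925) (N0 := 3) (En := eng) (mo := mog) (C1 := cd0q0) (C2 := cd0q0) (C3 := pd1)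
    rfl k0_pp_001

noncomputable def cut_pp_011 : Cut := Cut.of [[⟨3, 0, 0, 1449551462⟩], [⟨4, 0, 0, 2845415833⟩], [⟨0, 0, 0, 67108864⟩, ⟨1, 1, 0, 67108864⟩, ⟨2, 1, 0, 67108864⟩]]

noncomputable def f_pp_011 : ℕ → ℕ → ℕ → ℕ → Bool := onCell 0 536870912 536870912 536870912 780900216 37827925
    (rowB 3 eng mog cd0q0 cd0q1 pd1 0 true true true .pnn 0 1 1 (qsf 0 536870912 536870912 536870912 1) ndB0q0 ndB0q1 pcB1 cut_pp_011 Ext.none)

def k0_pp_011 : ∃ t, chk3 f_pp_011 t 1 1 1 = true :=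
  ⟨(l 14), by decide +kernel⟩

theorem c_pp_011 : CertB 0 536870912 536870912 536870912 780900216 37827925 3 eng mog cd0q0 cd0q1 pd1 true true true .pnn 0 1 1
    ndB0q0 ndB0q1 pcB1 cut_pp_011 Ext.none :=
  certB0 (fam := true) (s1 := true) (s2 := true) (a := 0) (b := 1) (c := 1) (cn := .pnn) (n1 := ndB0q0) (n2 := ndB0q1) (pc := pcB1) (cut := cut_pp_011) (xt := Ext.none) (P1 := 0) (W1 := 536870912) (P2 := 536870912) (W2 := 536870912) (P3 := 780900216) (W3 := 37827925) (N0 := 3) (En := eng) (mo := mog) (C1 := cd0q0) (C2 := cd0q1) (C3 := pd1)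
    rfl k0_pp_011

noncomputable def cut_pp_012 : Cut := Cut.of [[⟨3, 0, 0, 1449551462⟩], [⟨4, 0, 0, 2845415833⟩], [⟨0, 0, 0, 67108864⟩, ⟨1, 1, 0, 67108864⟩, ⟨2, 1, 0, 67108864⟩]]

noncomputable def f_pp_012 : ℕ → ℕ → ℕ → ℕ → Bool := onCell 0 536870912 536870912 536870912 780900216 37827925
    (rowB 3 eng mog cd0q0 cd0q1 pd2 0 true true true .pnp 0 1 2 (qsf 0 536870912 536870912 536870912 2) ndB0q0 ndB0q1 pcB2 cut_pp_012 Ext.none)

def k0_pp_012 : ∃ t, chk3 f_pp_012 t 1 1 1 = true :=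
  ⟨(l 14), by decide +kernel⟩

theorem c_pp_012 : CertB 0 536870912 536870912 536870912 780900216 37827925 3 eng mog cd0q0 cd0q1 pd2 true true true .pnp 0 1 2
    ndB0q0 ndB0q1 pcB2 cut_pp_012 Ext.none :=
  certB0 (fam := true) (s1 := true) (s2 := true) (a := 0) (b := 1) (c := 2) (cn := .pnp) (n1 := ndB0q0) (n2 := ndB0q1) (pc := pcB2) (cut := cut_pp_012) (xt := Ext.none) (P1 := 0) (W1 := 536870912) (P2 := 536870912) (W2 := 536870912) (P3 := 780900216) (W3 := 37827925) (N0 := 3) (En := eng) (mo := mog) (C1 := cd0q0) (C2 := cd0q1) (C3 := pd2)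
    rfl k0_pp_012

noncomputable def cut_pp_022 : Cut := Cut.of [[⟨3, 0, 0, 1449551462⟩], [⟨4, 0, 0, 2845415833⟩], [⟨0, 0, 0, 67108864⟩, ⟨1, 1, 0, 67108864⟩, ⟨2, 1, 0, 67108864⟩]]

noncomputable def f_pp_022 : ℕ → ℕ → ℕ → ℕ → Bool := onCell 0 536870912 0 536870912 780900216 37827925
    (rowB 3 eng mog cd0q0 cd0q2 pd2 0 true true true .pp 0 2 2 (qsf 0 536870912 0 536870912 2) ndB0q0 ndB0q2 pcB2 cut_pp_022 Ext.none)

def k0_pp_022 : ∃ t, chk3 f_pp_022 t 2 2 1 = true :=
  ⟨(a (b (a (a (b (b (l 16393912) (a (l 16399320) (l 16408576))) (a (l 16397200) (l 16429368))) (b (b (l 16475304) (l 16422512)) (b (l 16435952) (l 16451112)))) (a (b (b (l 16446536) (l 16437304)) (a (l 16456080) (l 16462848))) (b (b (l 16439488) (l 16452048)) (b (l 16466424) (l 16482952))))) (a (a (b (a (b (l 16438848) (l 16454184)) (b (l 16452528) (l 16470504))) (a (b (l 16471632) (b (l 16486320) (l 16496696))) (b (a (l 16486440) (l 16494376)) (b (l 16506096) (l 16516760))))) (b (b (l 16467808)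 (l 16486936)) (b (a (l 16503296) (l 16514192)) (a (b (l 16521056) (a (l 16530024) (l 16536560))) (l 16559952))))) (a (b (b (a (l 16481536) (l 16488976)) (a (l 16501568) (l 16509800))) (b (a (l 16524360) (b (l 16527104) (l 16539600))) (a (l 16570752) (b (l 16531800) (a (l 16563976) (l 16568880)))))) (b (a (b (l 16496984) (l 16518048)) (b (l 16506544) (l 16527880))) (b (a (l 16542048) (l 16539008)) (a (b (l 16561856) (a (l 16573616) (l 16578392))) (a (l 16618472) (l 16624048)))))))) (b (a (a (b (a (l 16461616) (l 16474688)) (b (l 16488800) (l 16484784))) (b (l 16580296) (b (l 16517776) (l 16472144)))) (a (a (b (l 16518200) (l 16569800)) (b (l 16532352) (l 16479392))) (b (l 16574248) (b (l 16575512) (l 16593472))))) (a (b (b (a (a (l 16518056) (l 16531888)) (a (l 16547072) (l 16562368))) (a (a (l 16539632) (l 16553672)) (a (l 16569104) (l 16584648)))) (a (b (a (l 16585040) (l 16620224)) (a (b (l 16584184) (l 14)) (l 14))) (b (a (l 16635816) (l 14)) (l 14))))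 (b (a (b (l 16584872) (a (l 16600008) (l 14))) (b (l 16635008) (l 14))) (l 14))))), by decide +kernel⟩

def k1_pp_022 : ∃ t, chk3 f_pp_022 t 2 3 1 = true :=
  ⟨(a (b (a (b (a (a (b (b (l 16528136) (a (l 16512360) (l 16523024))) (a (b (l 16523208) (b (l 16531744) (l 16537704))) (b (l 16533992) (b (l 16542600) (l 16548616))))) (b (b (l 16522216) (a (l 16533320) (l 16543200))) (b (a (l 16544432) (l 16554504)) (a (l 16573240) (b (l 16563360) (l 16569512)))))) (a (a (b (b (l 16541504) (l 16552672)) (b (l 16564160) (b (l 16573160) (l 14)))) (b (b (l 16549184) (b (l 16558464) (l 16564480))) (b (b (l 16570400) (l 16576392)) (l 14)))) (b (b (l 16558384) (a (l 16568512) (l 16574696))) (b (a (b (l 16578400) (l 14)) (l 14)) (l 14))))) (b (b (a (a (a (b (l 16564840) (a (l 16547448) (l 16553024))) (a (l 16576296) (l 16581712))) (l 14)) (l 14)) (l 14)) (l 14))) (b (b (a (a (b (l 16569816) (l 16604568)) (b (l 16580408) (l 14))) (l 14)) (l 14)) (l 14))) (l 14)) (l 14)),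 by decide +kernel⟩

def k2_pp_022 : ∃ t, chk3 f_pp_022 t 3 1 1 = true :=
  ⟨(b (b (b (a (b (a (a (l 16574552) (l 16601752)) (a (l 16625696) (l 16646864))) (a (a (l 16588344) (l 16615984)) (a (l 16640488) (l 14)))) (l 2)) (a (a (a (c (l 16611736) (l 16615592)) (c (l 16682048) (l 16664568))) (l 14)) (l 2))) (l 14)) (l 14)), by decide +kernel⟩

theorem s3_pp_022 : ∃ t, chk3 f_pp_022 t 2 1 1 = true := ex3_b k0_pp_022 k1_pp_022

theorem s4_pp_022 : ∃ t, chk3 f_pp_022 t 1 1 1 = true := ex3_a s3_pp_022 k2_pp_022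

theorem c_pp_022 : CertB 0 536870912 0 536870912 780900216 37827925 3 eng mog cd0q0 cd0q2 pd2 true true true .pp 0 2 2
    ndB0q0 ndB0q2 pcB2 cut_pp_022 Ext.none :=
  certB0 (fam := true) (s1 := true) (s2 := true) (a := 0) (b := 2) (c := 2) (cn := .pp) (n1 := ndB0q0) (n2 := ndB0q2) (pc := pcB2) (cut := cut_pp_022) (xt := Ext.none) (P1 := 0) (W1 := 536870912) (P2 := 0) (W2 := 536870912) (P3 := 780900216) (W3 := 37827925) (N0 := 3) (En := eng) (mo := mog) (C1 := cd0q0) (C2 := cd0q2) (C3 := pd2)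
    rfl s4_pp_022

noncomputable def cut_pp_023 : Cut := Cut.of [[⟨3, 0, 0, 1449551462⟩], [⟨4, 0, 0, 2845415833⟩]]

noncomputable def f_pp_023 : ℕ → ℕ → ℕ → ℕ → Bool := onCell 1610612736 536870912 0 536870912 780900216 37827925
    (rowB 3 eng mog cd0q0 cd0q2 pd3 2 true true true .up 0 2 3 (qsf 0 536870912 0 536870912 3) ndB0q0 ndB0q2 pcB3 cut_pp_023 Ext.none)

def k0_pp_023 : ∃ t, chk3 f_pp_023 t 1 1 1 = true :=
  ⟨(a (b (a (a (b (b (a (c (a (l 16638992) (l 16653960)) (l 16650480)) (l 14)) (l 14)) (l 14)) (l 14)) (l 14)) (l 4)) (l 2)), by decide +kernel⟩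

theorem c_pp_023 : CertB 0 536870912 0 536870912 780900216 37827925 3 eng mog cd0q0 cd0q2 pd3 true true true .up 0 2 3
    ndB0q0 ndB0q2 pcB3 cut_pp_023 Ext.none :=
  certB2 (fam := true) (s1 := true) (s2 := true) (a := 0) (b := 2) (c := 3) (cn := .up) (n1 := ndB0q0) (n2 := ndB0q2) (pc := pcB3) (cut := cut_pp_023) (xt := Ext.none) (P1 := 0) (W1 := 536870912) (P2 := 0) (W2 := 536870912) (P3 := 780900216) (W3 := 37827925) (N0 := 3) (En := eng) (mo := mog) (C1 := cd0q0) (C2 := cd0q2) (C3 := pd3)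
    rfl (fun _ => rfl) k0_pp_023

noncomputable def cut_pp_101 : Cut := Cut.of [[⟨3, 0, 0, 1449551462⟩], [⟨4, 0, 0, 2845415833⟩]]

noncomputable def f_pp_101 : ℕ → ℕ → ℕ → ℕ → Bool := onCell 536870912 536870912 0 536870912 780900216 37827925
    (rowB 3 eng mog cd0q1 cd0q0 pd1 0 true true true .npn 1 0 1 (qsf 536870912 536870912 0 536870912 1) ndB0q1 ndB0q0 pcB1 cut_pp_101 Ext.none)

def k0_pp_101 : ∃ t, chk3 f_pp_101 t 1 1 1 = true :=
  ⟨(l 14), by decide +kernel⟩

theorem c_pp_101 : CertB 536870912 536870912 0 536870912 780900216 37827925 3 eng mog cd0q1 cd0q0 pd1 true true true .npn 1 0 1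
    ndB0q1 ndB0q0 pcB1 cut_pp_101 Ext.none :=
  certB0 (fam := true) (s1 := true) (s2 := true) (a := 1) (b := 0) (c := 1) (cn := .npn) (n1 := ndB0q1) (n2 := ndB0q0) (pc := pcB1) (cut := cut_pp_101) (xt := Ext.none) (P1 := 536870912) (W1 := 536870912) (P2 := 0) (W2 := 536870912) (P3 := 780900216) (W3 := 37827925) (N0 := 3) (En := eng) (mo := mog) (C1 := cd0q1) (C2 := cd0q0) (C3 := pd1)
    rfl k0_pp_101

noncomputable def cut_pp_102 : Cut := Cut.of [[⟨3, 0, 0, 1449551462⟩], [⟨4, 0, 0, 2845415833⟩]]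

noncomputable def f_pp_102 : ℕ → ℕ → ℕ → ℕ → Bool := onCell 536870912 536870912 0 536870912 780900216 37827925
    (rowB 3 eng mog cd0q1 cd0q0 pd2 0 true true true .npp 1 0 2 (qsf 536870912 536870912 0 536870912 2) ndB0q1 ndB0q0 pcB2 cut_pp_102 Ext.none)

def k0_pp_102 : ∃ t, chk3 f_pp_102 t 1 1 1 = true :=
  ⟨(l 14), by decide +kernel⟩

theorem c_pp_102 : CertB 536870912 536870912 0 536870912 780900216 37827925 3 eng mog cd0q1 cd0q0 pd2 true true true .npp 1 0 2
    ndB0q1 ndB0q0 pcB2 cut_pp_102 Ext.none :=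
  certB0 (fam := true) (s1 := true) (s2 := true) (a := 1) (b := 0) (c := 2) (cn := .npp) (n1 := ndB0q1) (n2 := ndB0q0) (pc := pcB2) (cut := cut_pp_102) (xt := Ext.none) (P1 := 536870912) (W1 := 536870912) (P2 := 0) (W2 := 536870912) (P3 := 780900216) (W3 := 37827925) (N0 := 3) (En := eng) (mo := mog) (C1 := cd0q1) (C2 := cd0q0) (C3 := pd2)
    rfl k0_pp_102

noncomputable def cut_pp_112 : Cut := Cut.of [[⟨3, 0, 0, 1449551462⟩], [⟨4, 0, 0, 2845415833⟩]]

noncomputable def f_pp_112 : ℕ → ℕ → ℕ → ℕ → Bool := onCell 536870912 536870912 536870912 536870912 780900216 37827925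
    (rowB 3 eng mog cd0q1 cd0q1 pd2 0 true true true .dn 1 1 2 (qsf 536870912 536870912 536870912 536870912 2) ndB0q1 ndB0q1 pcB2 cut_pp_112 Ext.none)

def k0_pp_112 : ∃ t, chk3 f_pp_112 t 1 1 1 = true :=
  ⟨(l 4), by decide +kernel⟩

theorem c_pp_112 : CertB 536870912 536870912 536870912 536870912 780900216 37827925 3 eng mog cd0q1 cd0q1 pd2 true true true .dn 1 1 2
    ndB0q1 ndB0q1 pcB2 cut_pp_112 Ext.none :=
  certB0 (fam := true) (s1 := true) (s2 := true) (a := 1) (b := 1) (c := 2) (cn := .dn) (n1 := ndB0q1) (n2 := ndB0q1) (pc := pcB2) (cut := cut_pp_112) (xt := Ext.none) (P1 := 536870912) (W1 := 536870912) (P2 := 536870912) (W2 := 536870912) (P3 := 780900216) (W3 := 37827925) (N0 := 3) (En := eng) (mo := mog) (C1 := cd0q1) (C2 := cd0q1) (C3 := pd2)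
    rfl k0_pp_112

noncomputable def cut_pp_113 : Cut := Cut.of [[⟨3, 0, 0, 1449551462⟩], [⟨4, 0, 0, 2845415833⟩]]

noncomputable def f_pp_113 : ℕ → ℕ → ℕ → ℕ → Bool := onCell 536870912 536870912 536870912 536870912 780900216 37827925
    (rowB 3 eng mog cd0q1 cd0q1 pd3 0 true true true .nn 1 1 3 (qsf 536870912 536870912 536870912 536870912 3) ndB0q1 ndB0q1 pcB3 cut_pp_113 Ext.none)

def k0_pp_113 : ∃ t, chk3 f_pp_113 t 1 1 1 = true :=
  ⟨(l 4), by decide +kernel⟩

theorem c_pp_113 : CertB 536870912 536870912 536870912 536870912 780900216 37827925 3 eng mog cd0q1 cd0q1 pd3 true true true .nn 1 1 3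
    ndB0q1 ndB0q1 pcB3 cut_pp_113 Ext.none :=
  certB0 (fam := true) (s1 := true) (s2 := true) (a := 1) (b := 1) (c := 3) (cn := .nn) (n1 := ndB0q1) (n2 := ndB0q1) (pc := pcB3) (cut := cut_pp_113) (xt := Ext.none) (P1 := 536870912) (W1 := 536870912) (P2 := 536870912) (W2 := 536870912) (P3 := 780900216) (W3 := 37827925) (N0 := 3) (En := eng) (mo := mog) (C1 := cd0q1) (C2 := cd0q1) (C3 := pd3)
    rfl k0_pp_113

noncomputable def cut_pp_123 : Cut := Cut.of [[⟨3, 0, 0, 1449551462⟩], [⟨4, 0, 0, 2845415833⟩]]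

noncomputable def f_pp_123 : ℕ → ℕ → ℕ → ℕ → Bool := onCell 536870912 536870912 0 536870912 780900216 37827925
    (rowB 3 eng mog cd0q1 cd0q2 pd3 0 true true true .npn 1 2 3 (qsf 536870912 536870912 0 536870912 3) ndB0q1 ndB0q2 pcB3 cut_pp_123 Ext.none)

def k0_pp_123 : ∃ t, chk3 f_pp_123 t 1 1 1 = true :=
  ⟨(a (l 14) (l 4)), by decide +kernel⟩

theorem c_pp_123 : CertB 536870912 536870912 0 536870912 780900216 37827925 3 eng mog cd0q1 cd0q2 pd3 true true true .npn 1 2 3
    ndB0q1 ndB0q2 pcB3 cut_pp_123 Ext.none :=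
  certB0 (fam := true) (s1 := true) (s2 := true) (a := 1) (b := 2) (c := 3) (cn := .npn) (n1 := ndB0q1) (n2 := ndB0q2) (pc := pcB3) (cut := cut_pp_123) (xt := Ext.none) (P1 := 536870912) (W1 := 536870912) (P2 := 0) (W2 := 536870912) (P3 := 780900216) (W3 := 37827925) (N0 := 3) (En := eng) (mo := mog) (C1 := cd0q1) (C2 := cd0q2) (C3 := pd3)
    rfl k0_pp_123

noncomputable def cut_pp_202 : Cut := Cut.of [[⟨3, 0, 0, 1449551462⟩], [⟨4, 0, 0, 2845415833⟩]]

noncomputable def f_pp_202 : ℕ → ℕ → ℕ → ℕ → Bool := onCell 0 536870912 0 536870912 780900216 37827925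
    (rowB 3 eng mog cd0q2 cd0q0 pd2 0 true true true .pp 2 0 2 (qsf 0 536870912 0 536870912 2) ndB0q2 ndB0q0 pcB2 cut_pp_202 Ext.none)

def k0_pp_202 : ∃ t, chk3 f_pp_202 t 1 1 1 = true :=
  ⟨(l 5), by decide +kernel⟩

theorem c_pp_202 : CertB 0 536870912 0 536870912 780900216 37827925 3 eng mog cd0q2 cd0q0 pd2 true true true .pp 2 0 2
    ndB0q2 ndB0q0 pcB2 cut_pp_202 Ext.none :=
  certB0 (fam := true) (s1 := true) (s2 := true) (a := 2) (b := 0) (c := 2) (cn := .pp) (n1 := ndB0q2) (n2 := ndB0q0) (pc := pcB2) (cut := cut_pp_202) (xt := Ext.none) (P1 := 0) (W1 := 536870912) (P2 := 0) (W2 := 536870912) (P3 := 780900216) (W3 := 37827925) (N0 := 3) (En := eng) (mo := mog) (C1 := cd0q2) (C2 := cd0q0) (C3 := pd2)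
    rfl k0_pp_202

noncomputable def cut_pp_203 : Cut := Cut.of [[⟨3, 0, 0, 1449551462⟩], [⟨4, 0, 0, 2845415833⟩]]

noncomputable def f_pp_203 : ℕ → ℕ → ℕ → ℕ → Bool := onCell 0 536870912 0 536870912 780900216 37827925
    (rowB 3 eng mog cd0q2 cd0q0 pd3 0 true true true .up 2 0 3 (qsf 0 536870912 0 536870912 3) ndB0q2 ndB0q0 pcB3 cut_pp_203 Ext.none)

def k0_pp_203 : ∃ t, chk3 f_pp_203 t 1 1 1 = true :=
  ⟨(l 5), by decide +kernel⟩

theorem c_pp_203 : CertB 0 536870912 0 536870912 780900216 37827925 3 eng mog cd0q2 cd0q0 pd3 true true true .up 2 0 3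
    ndB0q2 ndB0q0 pcB3 cut_pp_203 Ext.none :=
  certB0 (fam := true) (s1 := true) (s2 := true) (a := 2) (b := 0) (c := 3) (cn := .up) (n1 := ndB0q2) (n2 := ndB0q0) (pc := pcB3) (cut := cut_pp_203) (xt := Ext.none) (P1 := 0) (W1 := 536870912) (P2 := 0) (W2 := 536870912) (P3 := 780900216) (W3 := 37827925) (N0 := 3) (En := eng) (mo := mog) (C1 := cd0q2) (C2 := cd0q0) (C3 := pd3)
    rfl k0_pp_203

noncomputable def cut_pp_213 : Cut := Cut.of [[⟨3, 0, 0, 1449551462⟩], [⟨4, 0, 0, 2845415833⟩]]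

noncomputable def f_pp_213 : ℕ → ℕ → ℕ → ℕ → Bool := onCell 0 536870912 536870912 536870912 780900216 37827925
    (rowB 3 eng mog cd0q2 cd0q1 pd3 0 true true true .pnn 2 1 3 (qsf 0 536870912 536870912 536870912 3) ndB0q2 ndB0q1 pcB3 cut_pp_213 Ext.none)

def k0_pp_213 : ∃ t, chk3 f_pp_213 t 1 1 1 = true :=
  ⟨(a (l 5) (l 4)), by decide +kernel⟩

theorem c_pp_213 : CertB 0 536870912 536870912 536870912 780900216 37827925 3 eng mog cd0q2 cd0q1 pd3 true true true .pnn 2 1 3
    ndB0q2 ndB0q1 pcB3 cut_pp_213 Ext.none :=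
  certB0 (fam := true) (s1 := true) (s2 := true) (a := 2) (b := 1) (c := 3) (cn := .pnn) (n1 := ndB0q2) (n2 := ndB0q1) (pc := pcB3) (cut := cut_pp_213) (xt := Ext.none) (P1 := 0) (W1 := 536870912) (P2 := 536870912) (W2 := 536870912) (P3 := 780900216) (W3 := 37827925) (N0 := 3) (En := eng) (mo := mog) (C1 := cd0q2) (C2 := cd0q1) (C3 := pd3)
    rfl k0_pp_213

noncomputable def cut_pm_001 : Cut := Cut.of [[⟨3, 0, 0, 1449551462⟩], [⟨4, 0, 0, 2845415833⟩]]

noncomputable def f_pm_001 : ℕ → ℕ → ℕ → ℕ → Bool := onCell 0 536870912 0 536870912 780900216 37827925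
    (rowB 3 eng mog cd0q0 cd0q0 pd1 0 true true false .up 0 0 1 (qsf 0 536870912 0 536870912 1) ndB0q0 ndB0q0 pcB1 cut_pm_001 Ext.none)

def k0_pm_001 : ∃ t, chk3 f_pm_001 t 1 1 1 = true :=
  ⟨(l 3), by decide +kernel⟩

theorem c_pm_001 : CertB 0 536870912 0 536870912 780900216 37827925 3 eng mog cd0q0 cd0q0 pd1 true true false .up 0 0 1
    ndB0q0 ndB0q0 pcB1 cut_pm_001 Ext.none :=
  certB0 (fam := true) (s1 := true) (s2 := false) (a := 0) (b := 0) (c := 1) (cn := .up) (n1 := ndB0q0) (n2 := ndB0q0) (pc := pcB1) (cut := cut_pm_001) (xt := Ext.none) (P1 := 0) (W1 := 536870912) (P2 := 0) (W2 := 536870912) (P3 := 780900216) (W3 := 37827925) (N0 := 3) (En := eng) (mo := mog) (C1 := cd0q0) (C2 := cd0q0) (C3 := pd1)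
    rfl k0_pm_001

noncomputable def cut_pm_011 : Cut := Cut.of [[⟨3, 0, 0, 1449551462⟩], [⟨4, 0, 0, 2845415833⟩], [⟨0, 0, 0, 67108864⟩, ⟨1, 1, 0, 67108864⟩, ⟨2, 1, 0, 67108864⟩]]

noncomputable def f_pm_011 : ℕ → ℕ → ℕ → ℕ → Bool := onCell 0 536870912 536870912 536870912 780900216 37827925
    (rowB 3 eng mog cd0q0 cd0q1 pd1 1 true true false .pnn 0 1 1 (qsf 0 536870912 536870912 536870912 1) ndB0q0 ndB0q1 pcB1 cut_pm_011 Ext.none)

def k0_pm_011 : ∃ t, chk3 f_pm_011 t 1 1 1 = true :=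
  ⟨(l 6), by decide +kernel⟩

theorem c_pm_011 : CertB 0 536870912 536870912 536870912 780900216 37827925 3 eng mog cd0q0 cd0q1 pd1 true true false .pnn 0 1 1
    ndB0q0 ndB0q1 pcB1 cut_pm_011 Ext.none :=
  certB1 (fam := true) (s1 := true) (s2 := false) (a := 0) (b := 1) (c := 1) (cn := .pnn) (n1 := ndB0q0) (n2 := ndB0q1) (pc := pcB1) (cut := cut_pm_011) (xt := Ext.none) (P1 := 0) (W1 := 536870912) (P2 := 536870912) (W2 := 536870912) (P3 := 780900216) (W3 := 37827925) (N0 := 3) (En := eng) (mo := mog) (C1 := cd0q0) (C2 := cd0q1) (C3 := pd1)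
    rfl (fun _ => rfl) k0_pm_011

noncomputable def cut_pm_012 : Cut := Cut.of [[⟨3, 0, 0, 1449551462⟩], [⟨4, 0, 0, 2845415833⟩], [⟨0, 0, 0, 67108864⟩, ⟨1, 1, 0, 67108864⟩, ⟨2, 1, 0, 67108864⟩]]

noncomputable def f_pm_012 : ℕ → ℕ → ℕ → ℕ → Bool := onCell 0 536870912 536870912 536870912 780900216 37827925
    (rowB 3 eng mog cd0q0 cd0q1 pd2 0 true true false .pnp 0 1 2 (qsf 0 536870912 536870912 536870912 2) ndB0q0 ndB0q1 pcB2 cut_pm_012 Ext.none)

def k0_pm_012 : ∃ t, chk3 f_pm_012 t 1 2 1 = true :=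
  ⟨(l 6), by decide +kernel⟩

def k1_pm_012 : ∃ t, chk3 f_pm_012 t 2 3 1 = true :=
  ⟨(b (l 6) (a (l 6) (b (l 6) (a (l 6) (b (l 6) (a (l 6) (b (l 6) (a (b (l 6) (c (a (l 16483840) (l 16475648)) (a (l 16465152) (l 16455624)))) (b (c (a (l 16484736) (l 16476400)) (c (l 16465816) (l 16455096))) (c (a (l 16467504) (l 16459416)) (c (l 16447328) (l 16435592)))))))))))), by decide +kernel⟩

def k2_pm_012 : ∃ t, chk3 f_pm_012 t 3 6 1 = true :=
  ⟨(a (l 6) (b (l 6) (a (b (l 6) (b (l 6) (a (l 6) (a (l 6) (b (l 6) (l 16510832)))))) (b (a (l 6) (a (b (l 6) (c (l 16529664) (l 16526632))) (b (c (l 16544288) (l 16541152)) (l 16515560)))) (a (c (b (a (l 16532488) (l 16516832)) (a (l 16505216) (l 16490216))) (b (a (l 16527800) (l 16512440)) (l 16532800))) (c (b (a (l 16502136) (l 16488616)) (l 16511440)) (b (a (l 16498160) (l 16485024)) (l 16463680)))))))), by decide +kernel⟩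

def k3_pm_012 : ∃ t, chk3 f_pm_012 t 6 14 1 = true :=
  ⟨(a (l 6) (b (l 6) (a (a (l 6) (b (l 6) (b (l 6) (c (l 16487496) (l 16469424))))) (c (b (a (b (l 6) (l 16502856)) (l 16494896)) (a (b (l 16487032) (l 16472112)) (b (l 16471584) (l 16457048)))) (b (a (l 16516952) (l 16479656)) (a (c (l 16466512) (l 16456368)) (l 16446024))))))), by decide +kernel⟩

def k4_pm_012 : ∃ t, chk3 f_pm_012 t 12 15 1 = true :=
  ⟨(b (a (a (l 6) (a (l 6) (b (l 6) (b (l 6) (c (l 16490440) (l 16470848)))))) (a (b (l 6) (c (b (l 16492512) (c (l 16482312) (l 16472856))) (c (l 16470368) (l 16459424)))) (b (a (l 6) (c (l 16514384) (l 16474664))) (c (b (a (l 16479944) (l 16471848)) (c (l 16466376) (l 16456384))) (c (b (l 16460776) (l 16445280)) (l 16441192)))))) (a (b (c (a (b (c (l 16500776) (l 16492112)) (c (l 16485008) (l 16475560))) (b (c (l 16483960) (l 16474456)) (a (l 16467792) (l 16459528)))) (a (b (l 16477760) (c (l 16465320) (l 16454288))) (b (c (l 16464080) (l 16452832))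 (c (l 16447160) (l 16434984))))) (a (c (b (a (l 16468112) (l 16459904)) (a (l 16451384) (l 16464392))) (b (c (l 16447632) (l 16435632)) (c (l 16429656) (l 16416640)))) (c (b (a (l 16451776) (c (l 16449264) (l 16437992))) (a (c (l 16441288) (l 16429544)) (c (l 16433760) (l 16421600)))) (b (c (l 16429968) (l 16416832)) (c (a (l 16416728) (l 16408280)) (a (l 16402848) (l 16393824))))))) (b (c (a (b (a (l 16466768) (l 16458672)) (a (l 16472416) (l 16443616))) (b (c (l 16452232) (l 16441480)) (c (l 16437960) (l 16426384)))) (a (b (c (l 16446256) (l 16434016)) (c (l 16429808) (l 16416616))) (c (b (l 16429528) (l 16413520)) (b (l 16416392) (l 16399376))))) (c (a (b (a (c (l 16441632) (l 16429992)) (l 16449376)) (c (a (l 16426440) (l 16419304)) (l 16431072))) (b (c (l 16423536) (l 16411088)) (a (c (l 16412352) (l 16399112)) (l 16420000)))) (a (b (c (l 16413072) (l 16398848)) (c (l 16396048) (l 16380712))) (c (b (l 16397256) (l 16380728)) (b (l 16382048) (l 16364400)))))))),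 by decide +kernel⟩

def k5_pm_012 : ∃ t, chk3 f_pm_012 t 13 15 1 = true :=
  ⟨(a (b (c (b (a (b (l 16488528) (l 16495120)) (b (l 16472936) (l 16458976))) (a (b (c (l 16464888) (l 16455200)) (c (l 16451352) (l 16440936))) (b (l 16445456) (l 16452960)))) (b (a (c (l 16467016) (l 16456192)) (c (l 16451112) (l 16439752))) (a (b (l 16475136) (c (l 16429248) (l 16416280))) (c (l 16421664) (l 16408576))))) (c (b (a (b (c (l 16437672) (l 16426496)) (c (l 16423856) (l 16411856))) (b (c (l 16423880) (l 16412472)) (c (l 16410496) (l 16398280)))) (a (b (c (l 16409888) (l 16397024)) (c (l 16416736) (l 16381992))) (b (c (l 16396968) (l 16383896)) (a (l 16400576) (l 16373504))))) (b (a (c (b (l 16413936) (l 16398392)) (l 16391744)) (c (b (l 16399528) (l 16384432)) (l 16376992))) (a (c (b (l 16382600) (l 16366560)) (b (l 16366624) (l 16349472))) (c (b (l 16369104) (l 16353536)) (b (l 16352576) (l 16335920))))))) (b (c (b (a (b (l 16457952) (l 16444400)) (b (l 16443272)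 (l 16430120))) (a (b (l 16431280) (l 16418224)) (b (l 16417400) (l 16404760)))) (b (a (c (l 16436008) (l 16424224)) (c (l 16421384) (l 16409304))) (a (c (l 16407400) (l 16393904)) (c (l 16393624) (l 16379856))))) (c (b (a (b (l 16426000) (c (l 16397576) (l 16385320))) (b (l 16391984) (l 16400024))) (a (b (c (l 16384480) (l 16371384)) (c (l 16371240) (l 16357272))) (b (c (l 16372216) (l 16359232)) (c (l 16359416) (l 16345568))))) (b (a (c (l 16378584) (l 16363224)) (c (l 16365688) (l 16350088))) (c (a (b (l 16356400) (l 16341296)) (c (l 16340952) (l 16332664))) (a (b (l 16339512) (l 16323336)) (b (l 16327088) (l 16311408)))))))), by decide +kernel⟩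

def k6_pm_012 : ∃ t, chk3 f_pm_012 t 7 14 1 = true :=
  ⟨(a (b (c (a (b (c (l 16576744) (l 16531008)) (a (l 16510584) (l 16494608))) (b (a (l 16508536) (l 16492840)) (a (l 16479096) (l 16464120)))) (a (b (a (l 6) (l 16514824)) (c (l 16493624) (l 16486048))) (b (l 16538104) (c (l 16462936) (l 16455240))))) (a (c (b (a (l 16479240) (l 16463992)) (a (l 16449280) (l 16434784))) (b (a (l 16463864) (l 16448656)) (a (l 16431016) (l 16416608)))) (b (c (a (l 16449216) (l 16434984)) (c (l 16431432) (l 16422224))) (c (a (l 16420776) (l 16407320)) (c (l 16401360) (l 16390624)))))) (b (a (c (b (a (l 16477744) (l 16463464)) (l 16463864)) (b (l 16461416) (l 16431328))) (c (b (l 16443816) (l 16417672)) (b (l 16435776) (l 16407304)))) (a (c (b (a (l 16421376) (l 16408600)) (a (l 16394504) (l 16382520))) (b (l 16421696) (a (l 16377424) (l 16366056)))) (c (b (l 16391200) (a (l 16371480) (l 16361368))) (b (l 16378392) (l 16351080)))))), by decide +kernel⟩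

def k7_pm_012 : ∃ t, chk3 f_pm_012 t 14 15 1 = true :=
  ⟨(b (a (c (b (a (c (l 16426696) (l 16417840)) (c (l 16412864) (l 16404224))) (a (b (l 16403880) (l 16391656)) (c (l 16389528) (l 16379632)))) (b (a (c (l 16407280) (l 16395024)) (c (l 16393736) (l 16381408))) (a (c (l 16380368) (l 16366456)) (c (l 16367696) (l 16353744))))) (c (b (a (l 16395560) (l 16382904)) (a (c (l 16376944) (l 16367376)) (c (l 16364904) (l 16355744)))) (b (a (l 16374888) (l 16362696)) (c (l 16370856) (l 16336056))))) (a (c (b (a (c (l 16399544) (l 16366984)) (b (l 16367024) (l 16381160))) (a (b (c (l 16360248) (l 16347496)) (c (l 16347880) (l 16334280))) (c (b (l 16348656) (l 16336712)) (b (l 16336232) (l 16323472))))) (b (a (c (l 16353328) (l 16337616)) (c (l 16341560) (l 16325848))) (c (a (b (l 16332520) (l 16318376)) (l 16314624)) (a (c (l 16312392) (l 16302984)) (c (l 16301624) (l 16292208)))))) (c (b (a (c (l 16354584) (l 16343680)) (c (l 16343368) (l 16332928))) (a (b (l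 16352808) (c (l 16326000) (l 16313232))) (b (l 16321528) (l 16331048)))) (b (a (c (l 16330424) (l 16314832)) (c (l 16320008) (l 16304608))) (c (a (l 16304456) (l 16295016)) (a (l 16286992) (l 16277824))))))), by decide +kernel⟩

def k8_pm_012 : ∃ t, chk3 f_pm_012 t 15 15 1 = true :=
  ⟨(b (a (c (b (a (l 16370912) (l 16359760)) (a (l 16349472) (l 16339176))) (b (a (l 16351272) (l 16340824)) (a (l 16327224) (l 16317752)))) (c (b (a (l 16349544) (l 16340248)) (a (l 16329808) (l 16321352))) (b (a (l 16331504) (l 16323272)) (a (l 16309408) (l 16302168))))) (a (b (c (a (c (l 16332816) (l 16322904)) (c (l 16323088) (l 16313776))) (a (l 16324120) (l 16294696))) (c (a (b (l 16311920) (l 16300928)) (b (l 16303176) (l 16292648))) (a (c (l 16286400) (l 16269560)) (c (l 16278784) (l 16262392))))) (c (b (a (c (l 16314232) (l 16305616)) (l 16302688)) (a (b (l 16295352) (l 16285272)) (b (l 16288424) (l 16278792)))) (b (a (l 16287376) (l 16281160)) (a (c (l 16272240) (l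 16256408)) (c (l 16266760) (l 16251592))))))), by decide +kernel⟩

theorem s9_pm_012 : ∃ t, chk3 f_pm_012 t 7 15 1 = true := ex3_a k7_pm_012 k8_pm_012

theorem s10_pm_012 : ∃ t, chk3 f_pm_012 t 7 7 1 = true := ex3_b k6_pm_012 s9_pm_012

theorem s11_pm_012 : ∃ t, chk3 f_pm_012 t 6 15 1 = true := ex3_a k4_pm_012 k5_pm_012

theorem s12_pm_012 : ∃ t, chk3 f_pm_012 t 6 7 1 = true := ex3_b k3_pm_012 s11_pm_012

theorem s13_pm_012 : ∃ t, chk3 f_pm_012 t 3 7 1 = true := ex3_a s12_pm_012 s10_pm_012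

theorem s14_pm_012 : ∃ t, chk3 f_pm_012 t 3 3 1 = true := ex3_b k2_pm_012 s13_pm_012

theorem s15_pm_012 : ∃ t, chk3 f_pm_012 t 1 3 1 = true := ex3_a k1_pm_012 s14_pm_012

theorem s16_pm_012 : ∃ t, chk3 f_pm_012 t 1 1 1 = true := ex3_b k0_pm_012 s15_pm_012

theorem c_pm_012 : CertB 0 536870912 536870912 536870912 780900216 37827925 3 eng mog cd0q0 cd0q1 pd2 true true false .pnp 0 1 2
    ndB0q0 ndB0q1 pcB2 cut_pm_012 Ext.none :=
  certB0 (fam := true) (s1 := true) (s2 := false) (a := 0) (b := 1) (c := 2) (cn := .pnp) (n1 := ndB0q0) (n2 := ndB0q1) (pc := pcB2) (cut := cut_pm_012) (xt := Ext.none) (P1 := 0) (W1 := 536870912) (P2 := 536870912) (W2 := 536870912) (P3 := 780900216) (W3 := 37827925) (N0 := 3) (En := eng) (mo := mog) (C1 := cd0q0) (C2 := cd0q1) (C3 := pd2)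
    rfl s16_pm_012

noncomputable def cut_pm_022 : Cut := Cut.of [[⟨3, 0, 0, 1449551462⟩], [⟨4, 0, 0, 2845415833⟩], [⟨0, 0, 0, 67108864⟩, ⟨1, 1, 0, 67108864⟩, ⟨2, 1, 0, 67108864⟩]]

noncomputable def f_pm_022 : ℕ → ℕ → ℕ → ℕ → Bool := onCell 1073741824 536870912 0 536870912 780900216 37827925
    (rowB 3 eng mog cd0q0 cd0q2 pd2 2 true true false .pp 0 2 2 (qsf 0 536870912 0 536870912 2) ndB0q0 ndB0q2 pcB2 cut_pm_022 Ext.none)

def k0_pm_022 : ∃ t, chk3 f_pm_022 t 4 1 1 = true :=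
  ⟨(b (b (l 1) (a (l 1) (b (l 1) (a (l 1) (a (l 1) (b (l 1) (l 16435592))))))) (b (a (l 1) (a (b (l 1) (b (a (l 1) (b (l 16542632) (l 6))) (l 6))) (b (a (b (l 16483280) (a (l 16500080) (l 16526864))) (b (l 16468632) (l 16527032))) (b (a (b (a (l 16530176) (l 16535328)) (a (l 16546920) (l 16551216))) (b (l 16534088) (l 16549344))) (a (a (l 6) (b (l 16567608) (l 6))) (b (l 16564840) (l 16559768))))))) (l 6))), by decide +kernel⟩

def k1_pm_022 : ∃ t, chk3 f_pm_022 t 5 2 1 = true :=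
  ⟨(a (b (a (a (l 1) (b (l 16368328) (b (l 16368336) (l 16374888)))) (b (b (l 16387304) (l 16383224)) (b (l 16383296) (l 16388024)))) (a (b (a (b (l 16374688) (l 16392944)) (b (l 16386720) (l 16402448))) (a (b (l 16414600) (l 16439664)) (b (l 16421400) (l 16443552)))) (b (b (l 16397568) (l 16410720)) (b (l 16426840) (l 16445872))))) (a (b (b (a (l 16397920) (l 16405912)) (a (l 16396512) (l 16403144))) (b (a (l 16411152) (b (l 16410608) (l 16420240))) (a (b (l 16430416) (l 16446760)) (b (l 16432568) (l 16447464))))) (b (b (b (l 16417656) (l 16411928)) (a (l 16408264) (l 16413472))) (b (b (l 16479384) (a (l 16423144) (l 16426600))) (b (a (l 16434376) (l 16437272)) (a (l 16448336) (l 16450648))))))), by decide +kernel⟩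

def k2_pm_022 : ∃ t, chk3 f_pm_022 t 5 3 1 = true :=
  ⟨(b (a (a (b (b (a (l 16469352) (l 16469992)) (a (l 16503072) (l 16500112))) (a (b (b (l 16528864) (l 16543608)) (l 16565856)) (a (b (l 16532336) (l 16560816)) (a (b (l 16530264) (l 16558464)) (b (a (l 16529240) (l 16528440)) (l 16557192)))))) (b (b (l 16468696) (l 16536504)) (b (a (l 16525024) (l 16518992)) (l 16548728)))) (b (a (a (b (l 16466584) (l 16489424)) (b (l 16465616) (l 16486888))) (b (a (l 16465624) (l 16467288)) (a (l 16485920) (l 16466096)))) (a (b (a (l 16513680) (l 16468008)) (l 16578288)) (a (b (l 16508360) (l 16531584)) (b (l 16508200) (l 16530064)))))) (a (a (b (b (a (l 16595640) (a (l 16589608) (a (l 16587120) (l 16586104)))) (a (l 6) (a (l 6) (a (l 6) (l 16608440))))) (l 6)) (b (b (l 16576016) (a (l 16578960) (l 16566200))) (b (b (a (l 6) (l 16556800)) (l 6)) (l 6)))) (b (b (a (c (l 16559720) (l 16558080)) (b (l 16538904) (l 16530176))) (a (a (l 16552760) (l 16538808)) (b (l 16521568)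 (a (l 16519768) (l 16505728))))) (b (a (a (b (l 16541024) (l 16531200)) (b (l 16525416) (l 16514816))) (a (b (l 16510200) (l 16498976)) (b (l 16495544) (l 16483608)))) (a (b (a (l 16519128) (a (l 16506232) (l 16497816))) (a (l 6) (a (b (l 16495272) (l 6)) (b (l 16486648) (c (l 16486992) (l 16469368)))))) (b (a (a (l 16489584) (l 16481464)) (c (l 16478840) (l 16459416))) (a (a (b (l 16478160) (l 16490760)) (c (l 16475128) (l 16455336))) (a (c (l 16467320) (l 16446240)) (c (l 16459552) (l 16437272)))))))))), by decide +kernel⟩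

def k3_pm_022 : ∃ t, chk3 f_pm_022 t 3 2 1 = true :=
  ⟨(a (b (b (b (a (a (l 16432296) (l 16495008)) (a (l 16480248) (l 16508920))) (a (a (l 16425496) (l 16446392)) (a (l 16473816) (a (l 16494448) (l 16507560))))) (a (a (a (l 16419592) (l 16427536)) (a (l 16437744) (l 16449672))) (a (a (l 16462648) (l 16475504)) (c (l 16490776) (l 16498864))))) (a (b (a (b (a (l 16424208) (l 16431648)) (a (l 16431704) (l 16438784))) (b (a (l 16441368) (l 16452664)) (a (l 16448080) (l 16458432)))) (a (a (b (l 16441928) (l 16454912)) (b (l 16448816) (l 16503296))) (a (b (l 16457168) (l 16489856)) (b (l 16466456) (l 16497352))))) (c (b (a (b (l 16466488) (l 16469720)) (b (l 16487720) (l 16488376))) (a (b (l 16474672) (l 16502256)) (b (l 16490648) (l 16493736)))) (b (a (l 16413968) (l 16499280)) (a (b (l 16485616) (l 16493992)) (l 16506880)))))) (b (a (b (a (c (l 16591208) (l 16472424)) (c (l 16577024) (l 16563152))) (a (c (l 16514952) (l 16524168)) (c (l 16519392) (l 16549440))))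 (b (a (c (l 16519520) (l 16588736)) (l 16670696)) (a (c (l 16563560) (l 16571416)) (c (l 16583296) (l 16588872))))) (a (a (b (c (l 16550408) (l 16520424)) (c (b (l 16506688) (l 16506576)) (l 16521632))) (b (c (l 16507840) (l 16540280)) (c (b (l 16522104) (l 16518216)) (l 16533328)))) (b (a (c (l 16547184) (l 16556416)) (c (l 16562232) (l 16567128))) (a (c (b (l 16534944) (l 16526552)) (l 16535992)) (b (l 16547328) (l 16533456))))))), by decide +kernel⟩

def k4_pm_022 : ∃ t, chk3 f_pm_022 t 6 6 1 = true :=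
  ⟨(a (b (a (b (a (l 16492136) (c (l 16473328) (l 16479840))) (a (l 16531672) (c (l 16489336) (l 16498104)))) (a (b (l 16524208) (l 16381376)) (b (c (l 16482360) (l 16494216)) (l 16394848)))) (a (b (a (l 16509304) (l 16405416)) (c (l 16521624) (l 16524888))) (c (b (l 16540656) (l 16514472)) (b (l 16518944) (l 16502840))))) (b (c (a (b (a (l 16486600) (l 16490808)) (a (l 16495056) (l 16496816))) (b (l 16497120) (l 16499712))) (b (a (l 16503224) (l 16513448)) (a (l 16512352) (l 16509056)))) (a (b (c (l 16502144) (l 16504488)) (c (l 16500736) (l 16483240))) (a (b (l 16502144) (l 16481064)) (b (l 16496088) (l 16473880)))))), by decide +kernel⟩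

def k5_pm_022 : ∃ t, chk3 f_pm_022 t 12 7 1 = true :=
  ⟨(b (a (b (a (l 16516664) (l 16505320)) (c (b (l 16503000) (l 16514656)) (a (l 16489544) (l 16475496)))) (b (a (l 16494360) (l 16462896)) (c (b (l 16481176) (l 16470408)) (a (l 16461864) (l 16448720))))) (b (b (a (a (l 16481320) (l 16467552)) (a (l 16454104) (l 16441096))) (a (a (l 16468720) (l 16475112)) (a (c (l 16451376) (l 16427200)) (c (l 16438648) (l 16412536))))) (a (b (a (c (l 16464216) (l 16442472)) (c (l 16449896) (l 16425992))) (a (c (b (l 16452312) (a (l 16447480) (l 16439744))) (b (l 16428928) (a (l 16423488) (l 16414704)))) (c (b (l 16437392) (a (l 16432088) (l 16424608))) (b (l 16411896) (a (l 16406056) (l 16397480)))))) (b (a (c (l 16436040) (l 16409928)) (c (l 16422704) (l 16394776))) (a (c (b (l 16423080) (a (l 16417288) (l 16410160))) (b (l 16395472) (c (l 16392728) (l 16377064)))) (c (b (l 16409408) (a (l 16403232) (l 16396512))) (b (l 16380072) (c (l 16377712) (l 16361048))))))))),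 by decide +kernel⟩

def k6_pm_022 : ∃ t, chk3 f_pm_022 t 13 7 1 = true :=
  ⟨(b (b (c (a (l 16478384) (l 16461280)) (a (a (l 16462696) (l 16452136)) (l 16459000))) (a (c (a (l 16459808) (l 16449592)) (a (l 16436216) (l 16424640))) (c (b (l 16441592) (l 16428640)) (a (l 16413952) (l 16404472))))) (b (b (a (a (l 16428768) (l 16417208)) (c (l 16414648) (l 16386448))) (a (c (a (l 16426480) (l 16415032)) (a (l 16398832) (l 16386296))) (c (l 16441136) (a (l 16374952) (l 16364536))))) (a (b (c (a (l 16410120) (l 16398288)) (a (l 16380800) (l 16368016))) (b (c (a (l 16396536) (l 16384472)) (a (l 16365928) (l 16353040))) (c (a (a (l 16389992) (l 16383672)) (a (l 16377568) (l 16371616))) (a (c (l 16363840) (l 16346400)) (c (l 16351120) (l 16333128)))))) (b (c (a (l 16387184) (l 16376544)) (a (l 16356408) (l 16345632))) (c (a (b (l 16373000) (a (l 16365792) (l 16360032))) (b (l 16361952) (l 16372504))) (a (b (l 16341152) (c (l 16339240) (l 16320904))) (c (l 16333424)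 (l 16315056)))))))), by decide +kernel⟩

def k7_pm_022 : ∃ t, chk3 f_pm_022 t 7 6 1 = true :=
  ⟨(a (a (b (c (b (l 16505656) (l 16502512)) (l 16509304)) (b (a (l 16490600) (l 16485728)) (c (l 16473112) (l 16452656)))) (b (c (b (l 16512176) (l 16502552)) (l 16504032)) (c (b (l 16485384) (l 16461672)) (b (l 16469904) (l 16463064))))) (b (c (b (a (l 16515216) (l 16515824)) (a (l 16499192) (l 16495336))) (a (l 16501168) (l 16500512))) (c (a (b (l 16477464) (l 16451624)) (b (l 16471600) (l 16443672))) (a (b (l 16463944) (l 16434200)) (b (l 16460520) (l 16428968)))))), by decide +kernel⟩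

def k8_pm_022 : ∃ t, chk3 f_pm_022 t 7 7 1 = true :=
  ⟨(a (b (a (b (c (l 16446080) (l 16422264)) (c (b (l 16424984) (l 16410960)) (a (l 16395792) (l 16387888)))) (b (c (l 16432568) (l 16409768)) (c (l 16423672) (l 16377416)))) (b (a (c (b (l 16396096) (l 16379632)) (b (l 16367944) (l 16371264))) (a (c (l 16374600) (l 16346656)) (c (l 16366296) (l 16339184)))) (a (b (c (a (l 16366200) (l 16356232)) (a (l 16335440) (l 16325880))) (c (a (b (l 16351200) (l 16361472)) (b (l 16340840) (c (l 16336304) (l 16322832)))) (a (c (l 16322736) (l 16304312)) (c (l 16312640) (l 16294288))))) (b (c (a (l 16346712) (l 16337728)) (a (l 16317000) (l 16308872))) (c (a (a (l 16348832) (l 16323000)) (b (l 16321648) (l 16310232))) (a (c (l 16303192) (l 16285032)) (c (l 16294472) (l 16276608)))))))) (b (a (c (b (l 16420656) (l 16409952)) (b (l 16399872) (l 16365712))) (b (c (b (l 16419416) (l 16402568)) (l 16392928)) (c (l 16419792) (l 16357256)))) (b (a (c (b (l 16364024) (l 16366696))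 (b (l 16339096) (l 16319632))) (c (b (l 16351840) (l 16332864)) (b (l 16329584) (l 16309528)))) (a (c (b (a (l 16329384) (l 16321792)) (a (b (l 16313008) (l 16301400)) (b (l 16305176) (l 16293416)))) (b (a (l 16301560) (l 16295152)) (a (c (l 16286552) (l 16269088)) (b (l 16277632) (l 16265240))))) (c (b (a (l 16315064) (l 16309200)) (a (b (l 16298232) (l 16286344)) (b (l 16292168) (l 16280152)))) (b (a (l 16289792) (l 16285536)) (a (b (l 16272088) (l 16259600)) (b (l 16267664) (l 16255080))))))))), by decide +kernel⟩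

theorem s9_pm_022 : ∃ t, chk3 f_pm_022 t 7 3 1 = true := ex3_b k7_pm_022 k8_pm_022

theorem s10_pm_022 : ∃ t, chk3 f_pm_022 t 6 7 1 = true := ex3_a k5_pm_022 k6_pm_022

theorem s11_pm_022 : ∃ t, chk3 f_pm_022 t 6 3 1 = true := ex3_b k4_pm_022 s10_pm_022

theorem s12_pm_022 : ∃ t, chk3 f_pm_022 t 3 3 1 = true := ex3_a s11_pm_022 s9_pm_022

theorem s13_pm_022 : ∃ t, chk3 f_pm_022 t 3 1 1 = true := ex3_b k3_pm_022 s12_pm_022

theorem s14_pm_022 : ∃ t, chk3 f_pm_022 t 5 1 1 = true := ex3_b k1_pm_022 k2_pm_022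

theorem s15_pm_022 : ∃ t, chk3 f_pm_022 t 2 1 1 = true := ex3_a k0_pm_022 s14_pm_022

theorem s16_pm_022 : ∃ t, chk3 f_pm_022 t 1 1 1 = true := ex3_a s15_pm_022 s13_pm_022

theorem c_pm_022 : CertB 0 536870912 0 536870912 780900216 37827925 3 eng mog cd0q0 cd0q2 pd2 true true false .pp 0 2 2
    ndB0q0 ndB0q2 pcB2 cut_pm_022 Ext.none :=
  certB2 (fam := true) (s1 := true) (s2 := false) (a := 0) (b := 2) (c := 2) (cn := .pp) (n1 := ndB0q0) (n2 := ndB0q2) (pc := pcB2) (cut := cut_pm_022) (xt := Ext.none) (P1 := 0) (W1 := 536870912) (P2 := 0) (W2 := 536870912) (P3 := 780900216) (W3 := 37827925) (N0 := 3) (En := eng) (mo := mog) (C1 := cd0q0) (C2 := cd0q2) (C3 := pd2)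
    rfl (fun _ => rfl) s16_pm_022

noncomputable def cut_pm_023 : Cut := Cut.of [[⟨3, 0, 0, 1449551462⟩], [⟨4, 0, 0, 2845415833⟩]]

noncomputable def f_pm_023 : ℕ → ℕ → ℕ → ℕ → Bool := onCell 1610612736 536870912 0 536870912 780900216 37827925
    (rowB 3 eng mog cd0q0 cd0q2 pd3 2 true true false .up 0 2 3 (qsf 0 536870912 0 536870912 3) ndB0q0 ndB0q2 pcB3 cut_pm_023 Ext.none)

def k0_pm_023 : ∃ t, chk3 f_pm_023 t 4 2 1 = true :=
  ⟨(b (a (a (b (c (l 16623448) (l 16618832)) (c (b (l 16591048) (l 16619936)) (l 16634384))) (b (c (l 16642200) (l 16644592)) (c (a (l 16606912) (l 16620000)) (l 16616648)))) (c (a (b (l 16665784) (l 16635320)) (b (l 16746584) (l 16648040))) (a (b (l 16663744) (l 16632424)) (b (l 16684608) (l 16652896))))) (a (b (a (c (b (l 16567768) (l 16557944)) (l 16572368)) (c (l 16586104) (l 16586104))) (a (c (b (l 16547208) (l 16534440)) (l 16546008)) (c (l 16551464) (l 16553216)))) (b (a (c (l 16598176) (l 16600752)) (b (l 16626176) (l 16608352)))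 (a (c (l 16561272) (l 16564368)) (b (l 16589536) (l 16569264)))))), by decide +kernel⟩

def k1_pm_023 : ∃ t, chk3 f_pm_023 t 4 3 1 = true :=
  ⟨(b (a (b (a (c (b (l 16516592) (l 16491344)) (b (l 16516872) (l 16491072))) (c (b (l 16519344) (l 16496264)) (b (l 16521280) (l 16493976)))) (a (c (b (l 16467080) (l 16437888)) (b (l 16461480) (l 16427536))) (c (b (l 16469416) (l 16438408)) (b (l 16463192) (l 16428568))))) (b (a (b (l 16532200) (a (l 16503040) (l 16507912))) (b (l 16544896) (l 31775592599))) (b (a (c (l 16476960) (l 16469672)) (l 108011248167)) (a (a (l 16439376) (l 16443096)) (l 2))))) (a (b (a (c (b (a (l 16405400) (l 16403392)) (a (l 16371712) (l 16369496))) (b (a (l 16389920) (l 16388888)) (a (l 16352048) (l 16351056)))) (b (c (b (l 16411976) (l 16394288)) (l 16389904)) (c (l 16369000) (l 31775309735)))) (b (b (a (c (l 16344296) (l 16322728)) (c (l 16343256) (l 16323944))) (a (c (a (l 16326760) (l 16324832)) (a (l 16302944) (l 16302320))) (l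 2))) (a (a (b (c (l 16306392) (l 16281016)) (b (c (l 16290096) (l 16263560)) (a (c (l 16279296) (l 16251648)) (l 2)))) (b (c (l 16304696) (l 16280624)) (l 2))) (l 2)))) (b (a (b (c (l 16428816) (l 16395424)) (l 2)) (l 2)) (l 2)))), by decide +kernel⟩

def k2_pm_023 : ∃ t, chk3 f_pm_023 t 5 1 1 = true :=
  ⟨(b (a (a (b (b (l 14) (a (l 16668144) (l 16678368))) (b (b (l 16646088) (l 16626640)) (l 140223577287))) (b (b (l 2) (l 2)) (l 2))) (l 2)) (b (l 2) (l 2))), by decide +kernel⟩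

def k3_pm_023 : ∃ t, chk3 f_pm_023 t 3 1 1 = true :=
  ⟨(l 2), by decide +kernel⟩

theorem s4_pm_023 : ∃ t, chk3 f_pm_023 t 4 1 1 = true := ex3_b k0_pm_023 k1_pm_023

theorem s5_pm_023 : ∃ t, chk3 f_pm_023 t 2 1 1 = true := ex3_a s4_pm_023 k2_pm_023

theorem s6_pm_023 : ∃ t, chk3 f_pm_023 t 1 1 1 = true := ex3_a s5_pm_023 k3_pm_023

theorem c_pm_023 : CertB 0 536870912 0 536870912 780900216 37827925 3 eng mog cd0q0 cd0q2 pd3 true true false .up 0 2 3
    ndB0q0 ndB0q2 pcB3 cut_pm_023 Ext.none :=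
  certB2 (fam := true) (s1 := true) (s2 := false) (a := 0) (b := 2) (c := 3) (cn := .up) (n1 := ndB0q0) (n2 := ndB0q2) (pc := pcB3) (cut := cut_pm_023) (xt := Ext.none) (P1 := 0) (W1 := 536870912) (P2 := 0) (W2 := 536870912) (P3 := 780900216) (W3 := 37827925) (N0 := 3) (En := eng) (mo := mog) (C1 := cd0q0) (C2 := cd0q2) (C3 := pd3)
    rfl (fun _ => rfl) s6_pm_023

noncomputable def cut_pm_101 : Cut := Cut.of [[⟨3, 0, 0, 1449551462⟩], [⟨4, 0, 0, 2845415833⟩], [⟨0, 1, 0, 67108864⟩, ⟨1, 0, 0, 67108864⟩, ⟨2, 1, 0, 67108864⟩]]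

noncomputable def f_pm_101 : ℕ → ℕ → ℕ → ℕ → Bool := onCell 536870912 536870912 536870912 536870912 780900216 37827925
    (rowB 3 eng mog cd0q1 cd0q0 pd1 1 true true false .npn 1 0 1 (qsf 536870912 536870912 0 536870912 1) ndB0q1 ndB0q0 pcB1 cut_pm_101 Ext.none)

def k0_pm_101 : ∃ t, chk3 f_pm_101 t 1 1 1 = true :=
  ⟨(l 6), by decide +kernel⟩

theorem c_pm_101 : CertB 536870912 536870912 0 536870912 780900216 37827925 3 eng mog cd0q1 cd0q0 pd1 true true false .npn 1 0 1
    ndB0q1 ndB0q0 pcB1 cut_pm_101 Ext.none :=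
  certB1 (fam := true) (s1 := true) (s2 := false) (a := 1) (b := 0) (c := 1) (cn := .npn) (n1 := ndB0q1) (n2 := ndB0q0) (pc := pcB1) (cut := cut_pm_101) (xt := Ext.none) (P1 := 536870912) (W1 := 536870912) (P2 := 0) (W2 := 536870912) (P3 := 780900216) (W3 := 37827925) (N0 := 3) (En := eng) (mo := mog) (C1 := cd0q1) (C2 := cd0q0) (C3 := pd1)
    rfl (fun _ => rfl) k0_pm_101

noncomputable def cut_pm_102 : Cut := Cut.of [[⟨3, 0, 0, 1449551462⟩], [⟨4, 0, 0, 2845415833⟩], [⟨0, 1, 0, 67108864⟩, ⟨1, 0, 0, 67108864⟩, ⟨2, 1, 0, 67108864⟩]]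

noncomputable def f_pm_102 : ℕ → ℕ → ℕ → ℕ → Bool := onCell 536870912 536870912 0 536870912 780900216 37827925
    (rowB 3 eng mog cd0q1 cd0q0 pd2 0 true true false .npp 1 0 2 (qsf 536870912 536870912 0 536870912 2) ndB0q1 ndB0q0 pcB2 cut_pm_102 Ext.none)

def k0_pm_102 : ∃ t, chk3 f_pm_102 t 2 1 1 = true :=
  ⟨(l 6), by decide +kernel⟩

def k1_pm_102 : ∃ t, chk3 f_pm_102 t 3 2 1 = true :=
  ⟨(a (l 6) (b (l 6) (a (l 6) (b (l 6) (b (l 6) (a (l 6) (a (l 6) (a (b (l 6) (c (b (l 16484736) (l 16476400)) (c (l 16465816) (l 16455096)))) (b (c (b (l 16483840) (l 16475648)) (b (l 16465152) (l 16455624))) (c (b (l 16467504) (l 16459416)) (c (l 16447328) (l 16435592)))))))))))), by decide +kernel⟩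

def k2_pm_102 : ∃ t, chk3 f_pm_102 t 6 3 1 = true :=
  ⟨(b (l 6) (a (l 6) (b (a (l 6) (a (l 6) (a (l 6) (b (l 6) (c (l 16522072) (l 16514184)))))) (a (b (l 6) (a (c (b (l 6) (l 16544288)) (l 16589800)) (b (c (l 16529664) (l 16526632)) (l 16515560)))) (b (c (a (b (l 16532488) (l 16516832)) (b (l 16505216) (l 16490216))) (c (a (l 16521712) (l 16493128)) (a (l 16518008) (l 16488200)))) (c (a (b (l 16502136) (l 16488616)) (l 16511440)) (a (b (l 16498160) (l 16485024)) (l 16463680)))))))), by decide +kernel⟩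

def k3_pm_102 : ∃ t, chk3 f_pm_102 t 14 6 1 = true :=
  ⟨(b (l 6) (a (l 6) (b (b (l 6) (a (l 6) (a (l 6) (c (l 16487496) (l 16469424))))) (c (a (b (a (l 6) (l 16502856)) (l 16494896)) (b (a (l 16487032) (l 16472112)) (l 16485152))) (a (c (b (l 16500120) (l 16483920)) (b (l 16491576) (l 16475088))) (c (b (l 16466512) (l 16451080)) (b (l 16456368) (l 16440624)))))))), by decide +kernel⟩

def k4_pm_102 : ∃ t, chk3 f_pm_102 t 15 12 1 = true :=
  ⟨(a (b (b (l 6) (a (l 6) (a (l 6) (a (l 6) (b (l 6) (l 16498032)))))) (b (a (l 6) (c (a (l 16492512) (c (l 16482312) (l 16472856))) (a (l 16473232) (c (l 16462448) (l 16451080))))) (a (a (l 6) (c (l 16490280) (l 16471104))) (c (a (b (l 16479944) (l 16471848)) (c (l 16466376) (l 16456384))) (c (a (l 16460776) (l 16445280)) (a (l 16449424) (l 16433072))))))) (b (a (c (b (a (c (l 16500776) (l 16492112)) (c (l 16485008) (l 16475560))) (a (b (l 16483584) (l 16475080)) (b (l 16467792) (l 16459528)))) (b (a (l 16477760) (c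 (l 16465320) (l 16454288))) (a (c (l 16464080) (l 16452832)) (c (l 16447160) (l 16434984))))) (b (c (a (b (l 16468112) (l 16459904)) (b (l 16451384) (l 16443424))) (a (c (l 16447632) (l 16435632)) (c (l 16429656) (l 16416640)))) (c (a (b (l 16451776) (c (l 16449264) (l 16437992))) (b (c (l 16441288) (l 16429544)) (c (l 16433760) (l 16421600)))) (c (a (l 16429968) (b (l 16416728) (l 16408280))) (a (l 16416832) (b (l 16402848) (l 16393824))))))) (a (c (b (a (b (l 16466768) (l 16458672)) (b (l 16451448) (l 16443616))) (a (c (l 16452232) (l 16441480)) (c (l 16437960) (l 16426384)))) (b (c (a (l 16446256) (l 16429808)) (a (l 16434016) (l 16416616))) (c (a (l 16429528) (l 16413520)) (a (l 16416392) (l 16399376))))) (c (b (a (b (c (l 16441632) (l 16429992)) (l 16428408)) (c (b (l 16426440) (l 16419304)) (l 16431072))) (a (c (l 16423536) (l 16411088)) (b (l 16426888) (l 16420000)))) (b (a (c (l 16413072) (b (l 16403256) (l 16394520))) (c (l 16396048) (c (l 16384664)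 (l 16376672)))) (c (a (l 16397256) (l 16380728)) (a (c (l 16385976) (l 16378032)) (c (l 16368624) (l 16360088))))))))), by decide +kernel⟩

def k5_pm_102 : ∃ t, chk3 f_pm_102 t 15 13 1 = true :=
  ⟨(b (a (c (a (b (a (l 16488528) (l 16495120)) (a (l 16472936) (l 16458976))) (b (a (c (l 16464888) (l 16455200)) (c (l 16451352) (l 16440936))) (a (l 16445456) (l 16452960)))) (a (b (c (l 16467016) (l 16456192)) (c (l 16451112) (l 16439752))) (b (c (a (l 16444320) (l 16429248)) (a (l 16432256) (l 16416280))) (c (l 16421664) (c (l 16411984) (l 16405088)))))) (c (a (b (a (c (l 16437672) (l 16426496)) (c (l 16423856) (l 16411856))) (a (c (l 16423880) (l 16412472)) (c (l 16410496) (l 16398280)))) (b (a (c (l 16409888) (l 16397024)) (c (l 16416736) (l 16381992))) (a (c (l 16396968) (l 16383896)) (b (l 16400576) (l 16373504))))) (a (b (c (a (l 16413936) (l 16398392)) (a (l 16400024) (l 16383472))) (c (a (l 16399528) (l 16384432)) (c (l 16380888) (l 16373000)))) (b (c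 (a (l 16382600) (l 16366560)) (a (l 16377112) (c (l 16353896) (l 16344944)))) (c (a (l 16369104) (l 16353536)) (a (c (l 16356872) (l 16348176)) (c (l 16340496) (l 16331224)))))))) (a (c (a (b (a (l 16457952) (l 16444400)) (a (l 16443272) (l 16430120))) (b (a (l 16431280) (l 16418224)) (a (l 16417400) (l 16404760)))) (a (c (b (l 16436008) (l 16421384)) (b (l 16424224) (l 16409304))) (c (b (l 16407400) (l 16393624)) (b (l 16393904) (l 16379856))))) (c (a (b (a (l 16426000) (c (l 16397576) (l 16385320))) (a (l 16391984) (l 16400024))) (b (a (c (l 16384480) (l 16371384)) (c (l 16371240) (l 16357272))) (a (c (l 16372216) (l 16359232)) (c (l 16359416) (l 16345568))))) (a (c (b (l 16399560) (l 16365688)) (b (c (l 16367224) (l 16359112)) (c (l 16354168) (l 16345888)))) (c (b (c (l 16352896) (l 16344672)) (c (l 16340952) (l 16332664))) (b (c (l 16335968) (l 16326768)) (c (l 16323856) (l 16314520)))))))), by decide +kernel⟩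

def k6_pm_102 : ∃ t, chk3 f_pm_102 t 14 7 1 = true :=
  ⟨(b (a (c (b (a (b (l 6) (l 16524760)) (b (l 16510584) (l 16494608))) (a (b (l 16508536) (l 16492840)) (b (l 16479096) (l 16464120)))) (b (a (c (l 16526040) (l 16519904)) (c (l 16493624) (l 16507024))) (a (c (l 16493880) (l 16487600)) (c (l 16462936) (l 16455240))))) (b (c (a (b (l 16479240) (l 16463992)) (b (l 16449280) (l 16434784))) (a (c (l 16460584) (b (l 16459168) (l 16443888))) (c (b (l 16436152) (l 16421784)) (b (l 16425496) (l 16411024))))) (a (c (b (l 16449216) (l 16434984)) (c (l 16431432) (l 16422224))) (c (b (l 16420776) (l 16407320)) (c (l 16401360) (l 16390624)))))) (a (b (c (a (b (l 16477744) (l 16463464)) (l 16463864)) (a (c (l 16464312) (l 16458104)) (c (l 16434896) (l 16427320)))) (c (a (l 16443816) (l 16417672)) (a (l 16435776) (l 16407304)))) (b (c (a (b (l 16421376) (l 16408600)) (b (l 16394504) (l 16382520))) (a (b (l 16406952) (l 16394696)) (b (l 16377424) (l 16366056)))) (c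 (a (l 16391200) (b (l 16371480) (l 16361368))) (a (l 16378392) (b (l 16355792) (l 16346624))))))), by decide +kernel⟩

def k7_pm_102 : ∃ t, chk3 f_pm_102 t 15 14 1 = true :=
  ⟨(a (b (c (a (b (c (l 16426696) (l 16417840)) (c (l 16412864) (l 16404224))) (b (a (l 16403880) (l 16391656)) (c (l 16389528) (l 16379632)))) (a (c (b (l 16407280) (l 16393736)) (b (l 16395024) (l 16381408))) (c (b (l 16380368) (l 16367696)) (b (l 16366456) (l 16353744))))) (c (a (b (l 16395560) (l 16382904)) (b (c (l 16376944) (l 16367376)) (l 16381584))) (a (c (l 16374592) (l 16383296)) (c (b (l 16355640) (l 16344280)) (b (l 16341752) (l 16330536)))))) (b (c (a (a (b (l 16379288) (l 16367024)) (b (l 16366792) (l 16375920))) (b (a (c (l 16360248) (l 16347496)) (c (l 16347880) (l 16334280))) (c (a (l 16348656) (l 16336712)) (a (l 16336232) (l 16323472))))) (c (a (b (l 16353328) (l 16341560)) (b (l 16346424) (a (l 16321448) (l 16307792)))) (a (b (l 16337616) (l 16325848)) (b (c (l 16312392)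 (l 16302984)) (c (l 16301624) (l 16292208)))))) (c (a (b (c (l 16354584) (l 16343680)) (c (l 16343368) (l 16332928))) (a (b (l 16352808) (l 16321528)) (b (c (l 16326000) (l 16313232)) (l 16331048)))) (a (c (b (l 16330424) (l 16320008)) (b (l 16314832) (l 16304608))) (c (b (l 16304456) (l 16295016)) (b (c (l 16291592) (l 16282224)) (l 16277824))))))), by decide +kernel⟩

def k8_pm_102 : ∃ t, chk3 f_pm_102 t 15 15 1 = true :=
  ⟨(a (b (c (a (b (l 16370912) (l 16359760)) (b (l 16349472) (l 16339176))) (a (c (l 16351624) (l 16339696)) (c (l 16328768) (b (l 16320160) (l 16310824))))) (c (a (b (l 16349544) (l 16340248)) (b (l 16329808) (l 16321352))) (a (b (l 16331504) (l 16323272)) (b (l 16309408) (l 16302168))))) (b (c (a (b (c (l 16332816) (l 16322904)) (c (l 16323088) (l 16313776))) (b (a (l 16311920) (l 16300928)) (a (l 16303176) (l 16292648)))) (a (c (b (l 16310384) (l 16301736)) (b (l 16295264) (l 16286984))) (c (b (l 16286400) (l 16278784)) (b (l 16269560)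 (l 16262392))))) (c (a (b (l 16331248) (l 16302688)) (b (a (l 16295352) (l 16285272)) (a (l 16288424) (l 16278792)))) (a (b (c (l 16294168) (l 16279880)) (l 16302136)) (b (c (l 16272240) (l 16256408)) (c (l 16266760) (l 16251592))))))), by decide +kernel⟩

theorem s9_pm_102 : ∃ t, chk3 f_pm_102 t 15 7 1 = true := ex3_b k7_pm_102 k8_pm_102

theorem s10_pm_102 : ∃ t, chk3 f_pm_102 t 7 7 1 = true := ex3_a k6_pm_102 s9_pm_102

theorem s11_pm_102 : ∃ t, chk3 f_pm_102 t 15 6 1 = true := ex3_b k4_pm_102 k5_pm_102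

theorem s12_pm_102 : ∃ t, chk3 f_pm_102 t 7 6 1 = true := ex3_a k3_pm_102 s11_pm_102

theorem s13_pm_102 : ∃ t, chk3 f_pm_102 t 7 3 1 = true := ex3_b s12_pm_102 s10_pm_102

theorem s14_pm_102 : ∃ t, chk3 f_pm_102 t 3 3 1 = true := ex3_a k2_pm_102 s13_pm_102

theorem s15_pm_102 : ∃ t, chk3 f_pm_102 t 3 1 1 = true := ex3_b k1_pm_102 s14_pm_102

theorem s16_pm_102 : ∃ t, chk3 f_pm_102 t 1 1 1 = true := ex3_a k0_pm_102 s15_pm_102

theorem c_pm_102 : CertB 536870912 536870912 0 536870912 780900216 37827925 3 eng mog cd0q1 cd0q0 pd2 true true false .npp 1 0 2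
    ndB0q1 ndB0q0 pcB2 cut_pm_102 Ext.none :=
  certB0 (fam := true) (s1 := true) (s2 := false) (a := 1) (b := 0) (c := 2) (cn := .npp) (n1 := ndB0q1) (n2 := ndB0q0) (pc := pcB2) (cut := cut_pm_102) (xt := Ext.none) (P1 := 536870912) (W1 := 536870912) (P2 := 0) (W2 := 536870912) (P3 := 780900216) (W3 := 37827925) (N0 := 3) (En := eng) (mo := mog) (C1 := cd0q1) (C2 := cd0q0) (C3 := pd2)
    rfl s16_pm_102

noncomputable def cut_pm_112 : Cut := Cut.of [[⟨3, 0, 0, 1449551462⟩], [⟨4, 0, 0, 2845415833⟩]]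

noncomputable def f_pm_112 : ℕ → ℕ → ℕ → ℕ → Bool := onCell 536870912 536870912 536870912 536870912 780900216 37827925
    (rowB 3 eng mog cd0q1 cd0q1 pd2 0 true true false .dn 1 1 2 (qsf 536870912 536870912 536870912 536870912 2) ndB0q1 ndB0q1 pcB2 cut_pm_112 Ext.none)

def k0_pm_112 : ∃ t, chk3 f_pm_112 t 2 2 1 = true :=
  ⟨(b (a (l 6) (a (l 6) (b (l 6) (a (b (l 6) (l 16627024)) (b (a (l 6) (l 16619680)) (a (l 16599816) (l 16581312))))))) (a (b (l 6) (a (l 6) (b (a (l 6) (l 16627024)) (a (b (l 6) (l 16619680)) (b (l 16599816) (l 16581312)))))) (b (a (b (a (l 6) (l 16638840)) (a (l 16638840) (l 16615920))) (a (b (l 16608344) (l 16590080)) (b (l 16575640) (l 16562664)))) (a (b (a (l 16608344) (l 16590080)) (a (l 16575640) (l 16562664))) (b (a (l 16570320) (l 16550128)) (a (l 16550128) (l 16538872))))))), by decide +kernel⟩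

def k1_pm_112 : ∃ t, chk3 f_pm_112 t 2 6 1 = true :=
  ⟨(a (b (b (a (a (l 6) (b (l 6) (a (l 6) (l 16571136)))) (a (b (l 16599304) (l 16578528)) (b (l 16562432) (l 16543120)))) (b (a (a (a (l 6) (l 16569704)) (a (l 16558928) (l 16549120))) (a (l 16557312) (l 16523344))) (a (a (a (c (l 16558368) (l 16554784)) (l 16545704)) (c (l 16532368) (l 16527384))) (a (l 16555824) (l 16502280))))) (a (b (a (a (b (l 16531040) (l 16503512)) (b (l 16519928) (l 16492632))) (b (c (l 16506664) (l 16502264)) (c (l 16479336) (l 16475600)))) (a (c (b (a (l 16476336) (l 16465304)) (l 16487024)) (b (l 16509584) (l 16440752))) (b (c (l 16451200) (l 16448232)) (c (l 16466496) (l 16421648))))) (b (a (c (b (l 16491816) (l 16465104)) (l 16472904)) (b (l 16479208) (l 16454384))) (a (b (l 16457512) (a (l 16412656) (l 16407088))) (b (l 16428600) (l 16402432)))))) (a (b (b (a (b (l 16550536) (l 16533256)) (l 16534584)) (a (b (l 16515496) (l 16496432)) (b (l 16512704) (l 16496672)))) (b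 (a (b (l 16475320) (l 16452368)) (b (l 16478672) (l 16458792))) (a (b (l 16428352) (l 16424792)) (b (l 16437760) (l 2))))) (b (b (a (l 16530168) (l 16529376)) (a (b (l 16514880) (l 16503512)) (l 16520392))) (b (a (b (l 16490304) (l 2)) (l 2)) (l 2))))), by decide +kernel⟩

def k2_pm_112 : ∃ t, chk3 f_pm_112 t 2 7 1 = true :=
  ⟨(a (b (a (b (a (c (b (l 16420800) (l 16396128)) (b (l 16414408) (l 16387576))) (c (b (l 16401240) (l 16378104)) (b (l 16396704) (l 16371616)))) (a (c (b (l 16371176) (l 16347856)) (b (l 16360376) (l 16334864))) (b (a (l 16355240) (l 16348672)) (c (l 16333064) (l 16322640))))) (b (a (b (a (l 16388896) (l 16382936)) (c (l 16364560) (l 16359816))) (b (a (l 16378728) (l 16376824)) (c (l 16357184) (l 16353480)))) (a (b (c (l 16342968) (l 16336496)) (c (l 16323144) (l 16315056))) (b (c (l 16337688) (l 16332560)) (l 2))))) (a (b (a (c (b (a (l 16331832) (l 16324288)) (a (l 16313776) (l 16307064))) (b (l 16333904) (a (l 16296008) (l 16290880))))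 (b (c (l 16314856) (l 16302720)) (c (a (l 16301368) (l 16296872)) (l 16306176)))) (a (c (b (a (l 16295968) (l 16290112)) (a (b (l 16282352) (l 16273168)) (l 86535896855))) (b (a (l 16276040) (l 16271960)) (a (c (l 16262312) (l 16247928)) (l 102105131175)))) (b (c (a (l 16295792) (l 2)) (l 106937033623)) (l 2)))) (b (a (b (c (l 16306856) (l 16297408)) (l 2)) (l 2)) (l 2)))) (b (a (b (a (b (a (l 16377528) (l 2)) (l 2)) (l 2)) (l 2)) (l 2)) (l 2))), by decide +kernel⟩

def k3_pm_112 : ∃ t, chk3 f_pm_112 t 6 2 1 = true :=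
  ⟨(b (a (a (b (b (l 6) (a (l 6) (b (l 6) (l 16571136)))) (b (a (l 16599304) (l 16578528)) (a (l 16562432) (l 16543120)))) (a (b (b (b (l 6) (l 16569704)) (b (l 16558928) (l 16549120))) (b (l 16557312) (l 16523344))) (b (b (b (c (l 16558368) (l 16554784)) (l 16545704)) (c (l 16532368) (l 16527384))) (b (l 16555824) (l 16502280))))) (b (a (b (a (b (l 16531040) (l 16519928)) (c (l 16519752) (l 16495512))) (a (c (l 16506664) (l 16502264)) (c (l 16479336) (l 16475600)))) (b (c (a (b (l 16476336) (l 16465304)) (l 16487024)) (a (l 16509584) (l 16440752))) (a (c (l 16451200) (l 16448232)) (c (l 16466496) (l 16421648))))) (a (b (c (a (l 16491816) (l 16465104)) (l 16472904)) (a (l 16479208) (l 16454384))) (b (a (l 16457512) (b (l 16412656) (l 16407088))) (a (l 16428600) (l 16402432)))))) (b (a (a (b (a (l 16550536) (l 16533256)) (l 16534584)) (b (a (l 16515496) (l 16496432)) (a (l 16512704) (l 16496672)))) (a (b (a (l 16475320) (l 16452368)) (a (l 16478672) (l 16458792)))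 (b (a (l 16428352) (l 16424792)) (a (l 16437760) (l 2))))) (a (a (b (l 16530168) (l 16529376)) (b (a (l 16514880) (l 16503512)) (l 16520392))) (a (b (a (l 16490304) (l 2)) (l 2)) (l 2))))), by decide +kernel⟩

def k4_pm_112 : ∃ t, chk3 f_pm_112 t 7 2 1 = true :=
  ⟨(b (a (b (a (b (c (a (l 16420800) (l 16396128)) (a (l 16414408) (l 16387576))) (c (a (l 16401240) (l 16378104)) (a (l 16396704) (l 16371616)))) (b (c (a (l 16371176) (l 16347856)) (a (l 16360376) (l 16334864))) (a (c (l 16354736) (l 16346240)) (c (l 16333064) (l 16322640))))) (a (b (a (b (l 16388896) (l 16382936)) (c (l 16364560) (l 16359816))) (a (b (l 16378728) (l 16376824)) (c (l 16357184) (l 16353480)))) (b (a (c (l 16342968) (l 16336496)) (b (l 16322240) (l 16319360))) (a (c (l 16337688) (l 16332560)) (l 2))))) (b (a (b (c (a (b (l 16331832) (l 16324288)) (b (l 16313776) (l 16307064))) (a (l 16333904) (b (l 16296008) (l 16290880)))) (a (c (l 16314856) (l 16302720)) (b (a (l 16299864) (l 16291512))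 (l 99957732343)))) (b (c (a (b (l 16295968) (l 16290112)) (b (a (l 16282352) (l 16273168)) (l 86535896855))) (a (b (l 16276040) (l 16271960)) (b (c (l 16262312) (l 16247928)) (l 102642002087)))) (a (c (b (l 16295792) (l 2)) (l 106937033623)) (l 2)))) (a (b (a (b (l 16304800) (l 2)) (l 2)) (l 2)) (l 2)))) (a (b (a (b (a (b (l 16377528) (l 2)) (l 2)) (l 2)) (l 2)) (l 2)) (l 2))), by decide +kernel⟩

def k5_pm_112 : ∃ t, chk3 f_pm_112 t 3 3 1 = true :=
  ⟨(a (b (b (a (a (b (l 16532600) (l 2)) (l 2)) (l 2)) (l 2)) (l 2)) (l 2)), by decide +kernel⟩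

theorem s6_pm_112 : ∃ t, chk3 f_pm_112 t 3 2 1 = true := ex3_a k3_pm_112 k4_pm_112

theorem s7_pm_112 : ∃ t, chk3 f_pm_112 t 3 1 1 = true := ex3_b s6_pm_112 k5_pm_112

theorem s8_pm_112 : ∃ t, chk3 f_pm_112 t 2 3 1 = true := ex3_b k1_pm_112 k2_pm_112

theorem s9_pm_112 : ∃ t, chk3 f_pm_112 t 2 1 1 = true := ex3_b k0_pm_112 s8_pm_112

theorem s10_pm_112 : ∃ t, chk3 f_pm_112 t 1 1 1 = true := ex3_a s9_pm_112 s7_pm_112

theorem c_pm_112 : CertB 536870912 536870912 536870912 536870912 780900216 37827925 3 eng mog cd0q1 cd0q1 pd2 true true false .dn 1 1 2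
    ndB0q1 ndB0q1 pcB2 cut_pm_112 Ext.none :=
  certB0 (fam := true) (s1 := true) (s2 := false) (a := 1) (b := 1) (c := 2) (cn := .dn) (n1 := ndB0q1) (n2 := ndB0q1) (pc := pcB2) (cut := cut_pm_112) (xt := Ext.none) (P1 := 536870912) (W1 := 536870912) (P2 := 536870912) (W2 := 536870912) (P3 := 780900216) (W3 := 37827925) (N0 := 3) (En := eng) (mo := mog) (C1 := cd0q1) (C2 := cd0q1) (C3 := pd2)
    rfl s10_pm_112

end Pool.Agent.Strip051.G.I72727_7625.Tab.C.BA00

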