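import Pool.Agent.Strip051.G.I72727_7625.Tab
import Pool.Agent.Strip051.PB.ExtD2

/-! # Certificates B2 (generated) -/

set_option linter.all false
set_option maxRecDepth 100000

namespace Pool.Agent.Strip051.G.I72727_7625.Tab.C.BA00

open Pool.Agent.Strip051.PB Pool.Agent.Strip051.PB.T
open Pool.Agent.Strip051.G.I72727_7625.Tab

noncomputable def cut_pm_202 : Cut := Cut.of [[⟨3, 0, 0, 1449551462⟩], [⟨4, 0, 0, 2845415833⟩], [⟨0, 1, 0, 67108864⟩, ⟨1, 0, 0, 67108864⟩, ⟨2, 1, 0, 67108864⟩]]

noncomputable def f_pm_202 : ℕ → ℕ → ℕ → ℕ → Bool := onCell 0 536870912 1073741824 536870912 780900216 37827925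
    (rowB 3 eng mog cd0q2 cd0q0 pd2 1 true true false .pp 2 0 2 (qsf 0 536870912 0 536870912 2) ndB0q2 ndB0q0 pcB2 cut_pm_202 Ext.none)

def k0_pm_202 : ∃ t, chk3 f_pm_202 t 1 4 1 = true :=
  ⟨(a (a (l 1) (b (l 1) (a (l 1) (b (l 1) (b (l 1) (a (l 1) (l 16435592))))))) (a (b (l 1) (a (b (l 1) (b (a (b (l 1) (l 16465832)) (b (l 16500080) (l 16526864))) (a (l 16468632) (l 16527032)))) (b (a (a (a (l 1) (b (l 1) (l 16526104))) (l 6)) (l 6)) (a (b (a (b (l 16530176) (l 16535328)) (b (l 16546920) (l 16551216))) (a (l 16534088) (l 16549344))) (b (b (l 6) (a (l 16567608) (l 6))) (a (l 16564840) (l 16559768))))))) (l 6))), by decide +kernel⟩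

def k1_pm_202 : ∃ t, chk3 f_pm_202 t 2 5 1 = true :=
  ⟨(b (a (b (b (l 1) (a (l 16389304) (a (l 16368336) (l 16374888)))) (a (a (l 16387304) (l 16383224)) (a (l 16383296) (l 16388024)))) (b (a (b (a (l 16374688) (l 16392944)) (a (l 16386720) (l 16402448))) (b (a (l 16414600) (l 16439664)) (a (l 16421400) (l 16443552)))) (a (a (l 16397568) (l 16410720)) (a (l 16426840) (l 16466840))))) (b (a (a (b (l 16397920) (l 16405912)) (b (l 16396512) (l 16403144))) (a (b (l 16411152) (a (l 16410608) (l 16420240))) (b (a (l 16430416) (l 16446760)) (a (l 16432568) (l 16447464))))) (a (a (a (l 16417656) (l 16411928)) (b (l 16408264) (l 16413472))) (a (a (b (l 16414456) (l 16418616)) (b (l 16423144) (l 16426600))) (b (a (l 16434376) (l 16448336)) (a (l 16437272) (l 16450648))))))), by decide +kernel⟩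

def k2_pm_202 : ∃ t, chk3 f_pm_202 t 3 5 1 = true :=
  ⟨(a (b (b (a (a (b (l 16469352) (l 16469992)) (b (l 16503072) (l 16500112))) (b (a (a (l 16528864) (l 16543608)) (l 16565856)) (b (a (l 16532336) (l 16560816)) (b (a (l 16530264) (l 16558464)) (a (b (l 16529240) (l 16528440)) (l 16557192)))))) (a (a (l 16489664) (l 16557472)) (a (b (l 16525024) (l 16518992)) (l 16548728)))) (a (b (b (a (l 16466584) (l 16489424)) (a (l 16465616) (l 16486888))) (a (b (l 16465624) (l 16467288)) (b (l 16485920) (l 16466096)))) (b (a (b (l 16513680) (l 16468008)) (l 16578288)) (a (b (l 16508360) (l 16508200)) (c (l 16527312) (l 16533984)))))) (b (b (a (a (b (l 16595640) (b (l 16589608) (a (l 16621544) (l 16634752)))) (b (l 6) (b (l 6) (b (l 6) (l 16608440))))) (l 6)) (a (a (l 16576016) (b (l 16578960) (l 16566200))) (a (a (b (l 6) (l 16556800)) (l 6)) (l 6)))) (a (b (a (c (l 16559720) (l 16558080)) (b (l 16552760) (l 16538808))) (a (a (l 16538904) (l 16530176)) (b (l 16524280) (a (l 16514912) (l 16505728))))) (a (b (b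 (a (l 16541024) (l 16531200)) (a (l 16525416) (l 16514816))) (b (a (l 16510200) (l 16498976)) (a (l 16495544) (l 16483608)))) (b (a (b (l 16519128) (b (l 16506232) (l 16497816))) (b (l 6) (b (a (l 16495272) (l 6)) (a (l 16486648) (c (l 16486992) (l 16469368)))))) (a (b (b (l 16489584) (l 16481464)) (c (l 16478840) (l 16459416))) (b (b (a (l 16478160) (l 16490760)) (c (l 16475128) (l 16455336))) (b (c (l 16467320) (l 16446240)) (c (l 16459552) (l 16437272)))))))))), by decide +kernel⟩

def k3_pm_202 : ∃ t, chk3 f_pm_202 t 2 3 1 = true :=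
  ⟨(b (a (a (a (b (b (l 16432296) (l 16515984)) (b (l 16480248) (l 16508920))) (b (b (l 16425496) (l 16446392)) (b (l 16473816) (b (l 16494448) (l 16507560))))) (a (b (b (l 16422656) (l 16443152)) (b (l 16469360) (l 16495488))) (b (b (l 16465296) (l 16485232)) (b (l 16468248) (l 16513760))))) (b (a (b (b (a (l 16424208) (l 16431704)) (a (l 16431648) (l 16438784))) (b (a (l 16441368) (l 16448080)) (a (l 16452664) (l 16458432)))) (b (b (a (l 16441928) (l 16454912)) (a (l 16448816) (l 16503296))) (a (b (l 16457168) (l 16466456)) (c (l 16531600) (l 16477392))))) (c (a (b (a (l 16466488) (l 16469720)) (a (l 16487720) (l 16488376))) (b (a (l 16474672) (l 16502256)) (a (l 16490648) (l 16493736)))) (a (b (l 16413968) (l 16499280)) (b (a (l 16485616) (l 16493992)) (b (l 16502784) (l 16510528))))))) (a (b (a (b (c (l 16591208) (l 16451456)) (c (l 16577024) (l 16563152))) (b (c (l 16514952) (l 16524168)) (c (l 16519392) (l 16549440)))) (a (b (c (l 16519520) (l 16588736)) (c (l 16605600) (l 16610200))) (b (c (l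 16563560) (l 16571416)) (c (l 16583296) (l 16588872))))) (b (b (a (c (l 16550408) (l 16520424)) (c (a (l 16506688) (l 16506576)) (l 16521632))) (a (c (l 16507840) (l 16540280)) (c (a (l 16522104) (l 16518216)) (l 16533328)))) (a (b (c (l 16547184) (l 16556416)) (c (l 16562232) (l 16567128))) (c (b (a (l 16534944) (l 16526552)) (a (l 16545032) (l 16532240))) (b (l 16535992) (l 16539472))))))), by decide +kernel⟩

def k4_pm_202 : ∃ t, chk3 f_pm_202 t 6 6 1 = true :=
  ⟨(b (a (b (a (b (l 16492136) (c (l 16473328) (l 16479840))) (b (l 16531672) (c (l 16489336) (l 16498104)))) (b (a (l 16524208) (l 16391864)) (a (c (l 16482360) (l 16494216)) (l 16394848)))) (a (b (b (l 16509304) (l 16405416)) (c (l 16535416) (l 16518944))) (b (c (l 16521624) (l 16524888)) (c (l 16514472) (l 16502840))))) (a (b (b (a (c (l 16486600) (l 16500384)) (l 16397528)) (a (l 16372048) (l 16483744))) (a (c (l 16497120) (l 16513448)) (c (l 16499712) (l 16509056)))) (b (a (c (l 16502144) (l 16504488)) (c (l 16500736) (l 16483240))) (a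 (c (l 16500184) (l 16490024)) (c (l 16486048) (l 16466248)))))), by decide +kernel⟩

def k5_pm_202 : ∃ t, chk3 f_pm_202 t 7 12 1 = true :=
  ⟨(a (b (a (b (l 16516664) (l 16505320)) (c (a (l 16503000) (l 16514656)) (b (l 16489544) (l 16475496)))) (a (b (l 16494360) (l 16441928)) (c (a (l 16481176) (l 16470408)) (b (l 16461864) (l 16448720))))) (a (b (b (a (l 16481320) (l 16468720)) (a (l 16467552) (l 16475112))) (c (b (l 16500000) (l 16466656)) (a (l 16456088) (b (l 16427200) (l 16412536))))) (b (a (b (c (l 16464216) (l 16442472)) (c (l 16449896) (l 16425992))) (b (c (a (l 16452312) (b (l 16447480) (l 16439744))) (a (l 16428928) (b (l 16423488) (l 16414704)))) (c (a (l 16437392) (b (l 16432088) (l 16424608))) (a (l 16411896) (b (l 16406056) (l 16397480)))))) (a (b (c (l 16436040) (l 16409928)) (c (l 16422704) (c (l 16402328) (l 16386840)))) (b (c (a (l 16423080) (b (l 16417288) (l 16410160))) (a (l 16416440) (c (l 16392728) (b (l 16381272) (l 16372928))))) (c (a (l 16409408) (b (l 16403232) (l 16396512)))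 (a (c (l 16387976) (l 16371792)) (c (l 16377712) (c (l 16365360) (l 16356648)))))))))), by decide +kernel⟩

def k6_pm_202 : ∃ t, chk3 f_pm_202 t 7 13 1 = true :=
  ⟨(a (a (c (b (l 16478384) (l 16461280)) (b (b (l 16462696) (l 16452136)) (l 16479976))) (b (c (b (l 16459808) (l 16449592)) (b (l 16436216) (l 16424640))) (c (b (l 16439888) (l 16430880)) (b (l 16413952) (l 16404472))))) (a (b (c (b (l 16475784) (l 16443496)) (a (b (l 16414904) (l 16402624)) (b (l 16398832) (l 16386296)))) (a (b (l 16427552) (l 16417784)) (c (l 16441136) (b (l 16374952) (l 16364536))))) (b (a (c (b (l 16410120) (l 16398288)) (b (c (l 16388768) (l 16372400)) (c (l 16376296) (l 16359264)))) (c (b (a (l 16396536) (b (l 16389992) (l 16383672))) (a (l 16384472) (b (l 16377568) (l 16371616)))) (b (c (a (l 16374216) (l 16363840)) (a (l 16357208) (c (l 16350920) (l 16341776)))) (c (a (l 16361608) (l 16351120)) (a (l 16344008) (c (l 16337800) (l 16328336))))))) (a (c (b (l 16387184) (l 16376544)) (b (c (l 16364880) (l 16347416)) (c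 (l 16354208) (l 16336496)))) (c (b (a (l 16373000) (b (l 16365792) (l 16360032))) (a (l 16361952) (l 16372504))) (b (c (a (l 16349888) (l 16339240)) (a (l 16331896) (l 16320904))) (c (l 16333424) (a (l 16320648) (l 16309352))))))))), by decide +kernel⟩

def k7_pm_202 : ∃ t, chk3 f_pm_202 t 6 7 1 = true :=
  ⟨(b (a (a (c (b (l 16505656) (l 16512176)) (b (l 16517384) (l 16513312))) (c (b (l 16502512) (l 16502552)) (b (l 16499872) (l 16493472)))) (a (c (b (l 16494680) (l 16485384)) (b (l 16478424) (l 16469904))) (c (b (l 16473112) (l 16461672)) (b (a (l 16459504) (l 16445240)) (b (l 16444432) (l 16439888)))))) (a (c (b (a (l 16515216) (l 16499192)) (a (l 16515824) (l 16495336))) (b (a (l 16511528) (l 16489552)) (a (l 16511864) (l 16487960)))) (c (b (a (l 16477464) (l 16451624)) (a (l 16471600) (l 16443672))) (b (a (l 16463944) (l 16434200)) (a (l 16460520) (l 16428968)))))), by decide +kernel⟩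

def k8_pm_202 : ∃ t, chk3 f_pm_202 t 7 7 1 = true :=
  ⟨(b (a (b (a (c (l 16446080) (l 16443232)) (c (a (l 16424984) (l 16410960)) (b (l 16395792) (l 16387888)))) (a (c (l 16432568) (l 16409768)) (c (l 16423672) (a (l 16385256) (l 16369104))))) (a (c (b (a (l 16396096) (l 16379632)) (a (l 16379048) (l 16361592))) (b (a (l 16367944) (c (l 16358592) (l 16341360))) (a (c (l 16359944) (l 16343472)) (c (l 16341600) (l 16324640))))) (b (a (c (b (l 16366200) (l 16356232)) (c (l 16339184) (b (l 16326232) (l 16316672)))) (c (b (a (l 16351200) (l 16361472)) (a (l 16340840) (c (l 16336304) (l 16322832)))) (c (b (l 16322736) (l 16312640)) (b (a (l 16310016) (l 16298480)) (a (l 16300112) (l 16288344)))))) (a (c (b (l 16346712) (l 16337728)) (c (l 16321240) (b (l 16307864) (l 16299856)))) (c (b (b (l 16348832) (l 16323000)) (a (l 16321648) (l 16310232))) (c (b (l 16303192) (l 16294472)) (b (a (l 16290968) (l 16278984)) (l 16276608)))))))) (a (b (c (a (l 16420656) (l 16409952)) (a (l 16399872) (c (l 16372848) (l 16357720))))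 (c (a (a (l 16419416) (l 16402568)) (l 16419792)) (a (b (l 16394376) (l 16391744)) (c (l 16363848) (l 16349728))))) (a (b (c (a (l 16364024) (l 16345728)) (a (c (l 16346568) (l 16330792)) (b (l 16322800) (l 16316736)))) (c (a (l 16351840) (l 16332864)) (a (l 16329584) (b (l 16311664) (l 16307640))))) (b (c (a (b (l 16329384) (l 16321792)) (b (a (l 16313008) (l 16301400)) (a (l 16305176) (l 16293416)))) (a (b (l 16301560) (l 16295152)) (b (c (l 16286552) (l 16269088)) (c (l 16279608) (l 16262624))))) (c (a (b (l 16315064) (l 16309200)) (b (a (l 16298232) (l 16286344)) (a (l 16292168) (l 16280152)))) (a (b (l 16289792) (l 16285536)) (b (c (l 16273696) (l 16257304)) (c (l 16268856) (l 16253168))))))))), by decide +kernel⟩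

theorem s9_pm_202 : ∃ t, chk3 f_pm_202 t 3 7 1 = true := ex3_a k7_pm_202 k8_pm_202

theorem s10_pm_202 : ∃ t, chk3 f_pm_202 t 7 6 1 = true := ex3_b k5_pm_202 k6_pm_202

theorem s11_pm_202 : ∃ t, chk3 f_pm_202 t 3 6 1 = true := ex3_a k4_pm_202 s10_pm_202

theorem s12_pm_202 : ∃ t, chk3 f_pm_202 t 3 3 1 = true := ex3_b s11_pm_202 s9_pm_202

theorem s13_pm_202 : ∃ t, chk3 f_pm_202 t 1 3 1 = true := ex3_a k3_pm_202 s12_pm_202

theorem s14_pm_202 : ∃ t, chk3 f_pm_202 t 1 5 1 = true := ex3_a k1_pm_202 k2_pm_202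

theorem s15_pm_202 : ∃ t, chk3 f_pm_202 t 1 2 1 = true := ex3_b k0_pm_202 s14_pm_202

theorem s16_pm_202 : ∃ t, chk3 f_pm_202 t 1 1 1 = true := ex3_b s15_pm_202 s13_pm_202

theorem c_pm_202 : CertB 0 536870912 0 536870912 780900216 37827925 3 eng mog cd0q2 cd0q0 pd2 true true false .pp 2 0 2
    ndB0q2 ndB0q0 pcB2 cut_pm_202 Ext.none :=
  certB1 (fam := true) (s1 := true) (s2 := false) (a := 2) (b := 0) (c := 2) (cn := .pp) (n1 := ndB0q2) (n2 := ndB0q0) (pc := pcB2) (cut := cut_pm_202) (xt := Ext.none) (P1 := 0) (W1 := 536870912) (P2 := 0) (W2 := 536870912) (P3 := 780900216) (W3 := 37827925) (N0 := 3) (En := eng) (mo := mog) (C1 := cd0q2) (C2 := cd0q0) (C3 := pd2)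
    rfl (fun _ => rfl) s16_pm_202

noncomputable def cut_pm_203 : Cut := Cut.of [[⟨3, 0, 0, 1449551462⟩], [⟨4, 0, 0, 2845415833⟩]]

noncomputable def f_pm_203 : ℕ → ℕ → ℕ → ℕ → Bool := onCell 0 536870912 1610612736 536870912 780900216 37827925
    (rowB 3 eng mog cd0q2 cd0q0 pd3 1 true true false .up 2 0 3 (qsf 0 536870912 0 536870912 3) ndB0q2 ndB0q0 pcB3 cut_pm_203 Ext.none)

def k0_pm_203 : ∃ t, chk3 f_pm_203 t 2 1 1 = true :=
  ⟨(b (b (a (a (b (b (c (l 16623448) (l 16618832)) (c (l 16642200) (l 16644592))) (b (c (l 16665784) (l 16663744)) (c (l 16746584) (l 16684608)))) (b (b (c (a (l 16591048) (l 16619936)) (a (l 16598624) (l 16586720))) (c (b (l 16606912) (l 16620000)) (l 16616648))) (b (c (l 16635320) (l 16632424)) (c (l 16648040) (l 16652896))))) (b (a (b (c (a (l 16567768) (l 16557944)) (l 16572368)) (c (l 16586104) (l 16586104))) (c (b (a (l 16547208) (l 16534440)) (l 16551464)) (b (l 16546008) (l 16553216)))) (a (b (c (l 16598176) (l 16600752)) (c (l 16615336) (l 16618080))) (b (c (l 16561272)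 (l 16564368)) (c (l 16579224) (l 16578280)))))) (b (b (a (a (l 14) (b (l 16668144) (l 16678368))) (a (a (l 16646088) (l 16626640)) (b (l 16592064) (l 2)))) (a (a (l 2) (l 2)) (l 2))) (l 2))) (l 2)), by decide +kernel⟩

def k1_pm_203 : ∃ t, chk3 f_pm_203 t 3 1 1 = true :=
  ⟨(b (b (a (b (a (b (c (a (l 16516592) (l 16491344)) (c (l 16506128) (l 16501800))) (c (a (l 16519344) (l 16496264)) (a (l 16521280) (l 16493976)))) (b (c (a (l 16467080) (l 16437888)) (a (c (l 16464976) (l 16456648)) (l 16448504))) (c (a (l 16469416) (l 16438408)) (a (l 16463192) (l 16428568))))) (a (b (c (a (l 16531128) (l 16505856)) (a (l 16529864) (l 16501416))) (c (l 66135268423) (l 19427757671))) (a (b (c (l 16476960) (l 16469672)) (c (l 16488384) (l 16479720))) (b (b (l 16439376) (l 16443096)) (l 2))))) (b (a (b (c (a (b (l 16405400) (l 16403392)) (b (l 16371712) (l 16369496))) (a (b (l 16389920) (l 16388888)) (b (l 16352048) (l 16351056)))) (a (c (a (l 16411976) (l 16394288)) (b (l 16389248) (l 16390880))) (c (l 16369000) (b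 (l 16351496) (l 16353216))))) (a (a (b (b (l 16336672) (l 16335096)) (c (l 16343256) (l 16323944))) (b (c (b (l 16326760) (l 16324832)) (b (l 16302944) (l 16302320))) (l 2))) (b (b (a (c (l 16306392) (c (l 16288864) (l 16272176))) (b (c (a (l 16290720) (l 16279296)) (a (l 16263840) (c (l 16259984) (l 16242344)))) (c (l 263703310583) (l 258334511991)))) (a (c (l 16304696) (l 251355243991)) (l 2))) (l 2)))) (a (b (a (c (l 16449784) (l 261019308439)) (l 2)) (l 2)) (l 2)))) (a (l 2) (l 2))) (l 2)), by decide +kernel⟩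

theorem s2_pm_203 : ∃ t, chk3 f_pm_203 t 1 1 1 = true := ex3_a k0_pm_203 k1_pm_203

theorem c_pm_203 : CertB 0 536870912 0 536870912 780900216 37827925 3 eng mog cd0q2 cd0q0 pd3 true true false .up 2 0 3
    ndB0q2 ndB0q0 pcB3 cut_pm_203 Ext.none :=
  certB1 (fam := true) (s1 := true) (s2 := false) (a := 2) (b := 0) (c := 3) (cn := .up) (n1 := ndB0q2) (n2 := ndB0q0) (pc := pcB3) (cut := cut_pm_203) (xt := Ext.none) (P1 := 0) (W1 := 536870912) (P2 := 0) (W2 := 536870912) (P3 := 780900216) (W3 := 37827925) (N0 := 3) (En := eng) (mo := mog) (C1 := cd0q2) (C2 := cd0q0) (C3 := pd3)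
    rfl (fun _ => rfl) s2_pm_203

noncomputable def cut_pm_213 : Cut := Cut.of [[⟨3, 0, 0, 1449551462⟩], [⟨4, 0, 0, 2845415833⟩], [⟨0, 1, 0, 67108864⟩, ⟨1, 1, 0, 67108864⟩, ⟨2, 2, 0, 16777216⟩], [⟨0, 1, 0, 33554432⟩, ⟨1, 0, 1, 26214400⟩, ⟨2, 1, 1, 26214400⟩]]

noncomputable def xt_pm_213 : Ext := extD2 3 ⟨4, 1, 1, 5, 5, 2, 24, 25, 43, 100, 1, 8⟩ eng cd0q2 cd0q1 pd3 true true false .pnn 2 1 3 rfl ndB0q2 ndB0q1 pcB3

noncomputable def f_pm_213 : ℕ → ℕ → ℕ → ℕ → Bool := onCell 0 536870912 1610612736 536870912 780900216 37827925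
    (rowB 3 eng mog cd0q2 cd0q1 pd3 1 true true false .pnn 2 1 3 (qsf 0 536870912 536870912 536870912 3) ndB0q2 ndB0q1 pcB3 cut_pm_213 xt_pm_213)

def k0_pm_213 : ∃ t, chk3 f_pm_213 t 2 1 1 = true :=
  ⟨(b (b (a (l 1) (b (l 1) (a (l 1) (b (l 1) (c (l 16579160) (l 16578224)))))) (b (b (b (a (l 1) (a (l 16632264) (l 16592056))) (a (a (l 14) (l 16678352)) (a (l 16641528) (l 16600544)))) (a (a (l 14) (l 14)) (a (a (l 16665120) (l 16644912)) (a (l 16624624) (l 16602984))))) (a (l 14) (b (a (a (l 14) (l 16664696)) (a (b (l 16639584) (l 16650224)) (l 16666104))) (a (l 14) (a (b (l 16661432) (l 14)) (b (l 16642056) (l 16654864)))))))) (a (l 14) (b (b (b (a (l 14) (a (l 14) (b (a (l 14) (l 16663920)) (l 14)))) (l 14)) (l 14)) (l 14)))), by decide +kernel⟩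

def k1_pm_213 : ∃ t, chk3 f_pm_213 t 6 4 1 = true :=
  ⟨(b (l 1) (a (b (l 1) (c (a (l 16545664) (l 16518480)) (a (l 16541656) (l 16512112)))) (b (c (a (l 16476920) (l 16444080)) (a (l 16469648) (l 16434272))) (c (a (l 16488376) (l 16455256)) (a (l 16479712) (l 16444248)))))), by decide +kernel⟩

def k2_pm_213 : ∃ t, chk3 f_pm_213 t 7 8 1 = true :=
  ⟨(a (b (l 1) (b (a (l 1) (c (l 16368848) (l 16351496))) (a (c (l 16403832) (l 16390872)) (c (l 16369664) (l 16353208))))) (a (a (b (b (l 1) (l 16335096)) (b (l 16335016) (l 16336416))) (b (b (l 1) (a (l 16320616) (l 16310488))) (b (c (l 16324512) (l 16303128)) (l 16317400)))) (b (a (c (b (l 16306384) (l 16304696)) (b (c (l 16288864) (l 16272176)) (c (l 16288080) (l 16272208)))) (b (c (a (l 16290088) (b (l 16279296) (l 16278240))) (c (b (l 16266040) (l 16265408)) (a (l 16254512) (b (l 16242352) (l 16242160))))) (c (a (l 16288640) (b (l 16277608) (l 16277424))) (a (b (l 16263272) (l 16263552)) (b (c (l 16259208) (l 16242336)) (l 16251592)))))) (a (b (c (l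 16304728) (l 16281696)) (c (l 16306568) (l 16284232))) (b (c (a (l 16288968) (b (l 16277728) (l 16278520))) (a (l 16264680) (b (l 16252344) (l 16253488)))) (c (a (l 16291280) (b (l 16279832) (a (l 16284328) (l 16279008)))) (a (l 16267528) (b (l 16255024) (a (l 16259896) (l 16254048)))))))))), by decide +kernel⟩

def k3_pm_213 : ∃ t, chk3 f_pm_213 t 7 9 1 = true :=
  ⟨(a (b (a (c (a (l 16416784) (l 16398784)) (b (l 16393624) (l 16397504))) (b (c (l 16372088) (l 16356184)) (l 16369920))) (a (b (l 16431392) (l 16417040)) (b (l 16375600) (l 16383064)))) (a (b (c (a (l 16349008) (l 16331688)) (b (l 16318672) (l 16323632))) (b (a (l 16350408) (l 16333024)) (a (l 16358832) (l 16342248)))) (b (a (b (c (l 16310488) (l 16288320)) (c (l 16316632) (l 16294040))) (b (c (a (l 16295712) (b (a (l 16286688) (l 16281456)) (a (l 16289624) (l 16284504)))) (a (l 16272008) (b (a (l 16262232) (l 16256464)) (a (l 16265008) (l 16259320))))) (c (a (l 16302472) (b (a (l 16293168) (l 16288168)) (a (l 16297360) (l 16292488)))) (c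 (a (l 16285344) (b (l 16272840) (l 16276672))) (a (l 16270336) (b (l 16257320) (l 16261024))))))) (a (b (c (l 16325224) (l 16301512)) (c (l 16336536) (l 16310880))) (a (b (c (l 16311808) (l 16286256)) (c (b (l 16320664) (l 16327544)) (l 16296360))) (b (c (b (b (l 16298568) (l 16301216)) (a (l 16307808) (c (l 16308600) (l 16297264)))) (b (a (l 16276120) (l 16270744)) (b (l 16276960) (l 16279480)))) (b (c (a (l 16314152) (c (a (l 16316544) (l 16314432)) (l 16303448))) (c (l 16291520) (l 16274952))) (c (c (l 140037682638422047) (a (l 16314776) (b (l 16308584) (l 16312256)))) (a (l 16291904) (c (l 16295328) (l 16278056))))))))))), by decide +kernel⟩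

def k4_pm_213 : ∃ t, chk3 f_pm_213 t 6 5 1 = true :=
  ⟨(b (a (a (b (l 16560024) (l 16578200)) (b (l 16531024) (l 16550040))) (b (a (l 16499952) (l 16487312)) (a (l 16520144) (b (l 16482120) (l 16494880))))) (b (a (a (b (l 16594536) (l 16606720)) (b (l 16567512) (l 16580832))) (b (a (l 16539216) (l 16509608)) (a (l 16554064) (l 16526432)))) (a (b (a (l 16619984) (l 16595608)) (a (l 16634200) (l 16611912))) (a (b (l 16570784) (l 16590232)) (b (l 16546280) (l 16569704)))))), by decide +kernel⟩

def k5_pm_213 : ∃ t, chk3 f_pm_213 t 7 10 1 = true :=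
  ⟨(a (b (a (b (l 16425376) (l 16435560)) (b (l 16392464) (l 16403992))) (a (b (l 16447776) (l 16462216)) (b (l 16417896) (a (l 16440312) (l 16428264))))) (a (b (b (a (l 16369416) (l 16353816)) (a (l 16382408) (l 16368024))) (b (a (l 16398040) (b (l 16380584) (l 16390088))) (a (l 16417072) (c (l 16426600) (l 16385712))))) (b (c (a (b (l 16350896) (l 140648736314376223)) (a (b (b (l 16335264) (l 16343864)) (l 140333176456691743)) (b (b (a (l 16329320) (l 140024282340573215)) (l 140117947009941535)) (b (l 140197799062634527) (l 140291326293770271))))) (a (b (l 16322368) (b (l 16332520) (l 16340104))) (b (a (b (l 16305424) (l 16312248)) (b (a (l 16298352) (c (a (l 16303440) (l 16311632)) (l 16284384))) (a (l 16305464) (c (l 139884919210344479) (a (l 16292520) (l 16290136)))))) (b (a (l 16319744) (a (c (l 16322648) (l 16303520)) (l 139860111477194783))) (a (l 16328064) (l 139953226390749215)))))) (a (b (c (b (l 16384736) (l 16397040)) (a (l 16356664) (l 16349440))) (c (b (l 140830293258518559) (l 140971099498233887))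 (b (l 16368240) (l 140538647735615519)))) (b (c (a (b (l 140479686416941087) (l 140598021383700511)) (b (c (l 140484221910532127) (l 140314209886011423)) (a (l 140545519696494623) (l 140691617299628063)))) (a (l 140171410775146527) (b (l 140029848627724319) (l 140119665006657567)))) (c (c (a (l 141096031503532063) (b (l 140960654110081055) (a (l 140970755913826335) (l 140951308300451871)))) (a (l 140701993976430623) (b (l 140566616583143455) (l 140901555347750943)))) (a (b (l 140309399519051807) (l 140419831744659487)) (b (c (l 140341216650379295) (l 140104065685372959)) (c (l 140472470881501215) (l 140214085594251295)))))))))), by decide +kernel⟩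

def k6_pm_213 : ∃ t, chk3 f_pm_213 t 14 11 1 = true :=
  ⟨(b (a (b (b (l 16474520) (l 16483696)) (a (l 16505472) (l 16492680))) (b (b (l 16469968) (c (l 16481456) (l 16438792))) (a (b (l 16476144) (l 16489000)) (a (l 16497504) (l 16515304))))) (a (b (a (l 16528328) (l 16518256)) (a (l 16556040) (l 16549288))) (b (b (a (l 16545192) (l 16498224)) (a (b (l 16514912) (l 16523192)) (l 16515848))) (b (a (b (l 16531880) (l 16541000)) (l 16535368)) (a (c (l 16578008) (l 16533040)) (l 16556720)))))), by decide +kernel⟩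

def k7_pm_213 : ∃ t, chk3 f_pm_213 t 30 22 1 = true :=
  ⟨(b (b (a (l 16434056) (l 16467640)) (a (l 16447080) (a (l 16441944) (l 16459896)))) (a (c (l 16515920) (l 16444264)) (b (a (l 16457824) (l 16455848)) (a (l 16475504) (l 16474680))))), by decide +kernel⟩

def k8_pm_213 : ∃ t, chk3 f_pm_213 t 31 22 1 = true :=
  ⟨(a (a (b (b (l 140922720973504543) (c (l 16463800) (l 16408920))) (c (b (l 16483432) (l 16504488)) (b (l 16425480) (l 16444640)))) (c (b (b (l 141108607204638751) (l 141295799100211231)) (b (l 141492955322089503) (l 141704611356508191))) (b (b (l 16390632) (l 140747761155981343)) (b (l 140908770926329887) (l 141096993614741535))))) (b (c (a (b (l 141247695422210079) (b (l 141215534739390495) (l 141321431475978271))) (b (c (a (l 141171897866158111) (b (l 141104896364478495) (l 141215397307007007))) (a (l 140907396543053855) (l 141068062678335519))) (b (a (l 141196362005299231) (c (a (l 141334213307219999) (l 141331395809378335)) (l 141037963580342303))) (a (c (l 141459214060306463) (l 141155817505751071))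 (c (a (l 141457015038492703) (b (l 141424854317760543) (l 141488213688877087))) (a (l 141147983485796383) (l 141143585439678495))))))) (a (b (l 140546413050347551) (b (l 140652790824665119) (l 140730031533932575))) (b (c (l 140802736720822303) (l 140340392022147103)) (b (c (l 140748448362332191) (l 140446701077086239)) (a (l 140693472769146911) (c (l 140830568156725279) (l 140511022523629599))))))) (a (b (b (c (l 141426228700872735) (l 140817580166905887)) (c (l 141714506929291295) (l 140913031541178399))) (b (c (l 141829199760670751) (l 141015217425285151)) (c (l 141769551280685087) (l 141123313185439775)))) (b (c (b (a (c (l 141574800245145631) (l 141262263998398495)) (c (a (l 141575899758854175) (c (l 141657538515877919) (l 141497559539826719))) (a (l 141257659794423839) (l 141255598210924575)))) (a (l 141713957177016351) (c (a (l 141697395819790367) (c (b (l 141750790865813535) (l 30)) (l 141619330478735391))) (a (l 141372558784217119) (l 141372352626966559))))) (c (a (l 140998037555134495) (b (l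 140932341723922463) (l 141041605715443743))) (b (l 140615132552200223) (l 140715531729502239)))) (c (a (b (c (l 141816899013672991) (l 141491512222122015)) (c (l 141946985010921503) (l 141615001148211231))) (b (c (a (l 141824664317935647) (c (l 30) (b (l 141714575693856799) (l 141780065369161759)))) (a (l 141493161491726367) (c (l 141579335734968351) (l 141410491944992799)))) (c (l 30) (a (l 141619811514384415) (c (a (l 141708597097971743) (l 141891459626729503)) (l 141537485565100063)))))) (a (c (l 141220070232244255) (l 140883482165411871)) (c (b (l 141156367266201631) (a (l 141277244850995231) (l 141276832535281695))) (b (l 140814350359691295) (l 140927874959573023))))))))), by decide +kernel⟩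

def k9_pm_213 : ∃ t, chk3 f_pm_213 t 15 23 1 = true :=
  ⟨(a (b (a (b (l 16516584) (l 16599360)) (b (b (l 16490080) (l 16500720)) (b (l 16511880) (l 16523592)))) (a (b (c (l 16564728) (l 16509832)) (c (l 16589152) (l 16532976))) (b (c (l 16572632) (l 16511568)) (c (l 16600040) (l 16537176))))) (a (b (b (a (c (l 16527704) (l 16465824)) (c (l 141941006407221279) (l 141310230197092383))) (a (c (l 16553136) (l 16489120)) (c (l 142200559926165535) (l 141546144211124255)))) (b (a (c (l 16580776) (l 16514568)) (c (l 142485127339638815) (l 141806247485751327))) (c (l 30) (a (l 16542384) (l 142092601605701663))))) (b (a (b (b (c (l 142076040173928479) (l 141236975224307743)) (c (l 142208531396231199) (l 141356478419861535))) (b (c (l 142347344768712735) (l 141482028930564127)) (c (l 142492823931764767) (l 141613970353864735)))) (b (a (c (c (l 30) (b (l 141744537389465631) (l 141880533262827551))) (c (l 141825901191528479) (l 141115135570984991))) (c (c (l 30) (b (c (l 30) (b (l 141634586205798431) (l 141882526092247071)))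 (a (l 141892284297527327) (l 30)))) (c (b (b (l 141371527993786399) (l 141616719100592159)) (a (l 141535286541008927) (c (l 141810301907894303) (l 141448081508089887)))) (b (l 141047446874587167) (l 141353386011738143))))) (c (l 30) (a (b (l 141846310881198111) (c (l 141808446517035039) (l 141439491569942559))) (b (c (a (l 141674237352362015) (c (l 30) (l 141587375916892191))) (a (l 141305144966365215) (l 141486358227976223))) (c (a (l 141820128832258079) (c (l 30) (a (l 141731893006630943) (l 30)))) (a (l 141443202424274975) (c (l 141542639528820767) (l 141350293673852959))))))))) (c (l 30) (c (b (a (a (l 141997631271862303) (l 142014879866388511)) (a (b (l 141957842690916383) (l 30)) (l 30))) (l 30)) (a (b (l 141822052936024095) (a (l 141931935439142943) (l 141948221960765471))) (a (b (b (l 141581191160823839) (l 141730037578711071)) (b (l 141886511860006943) (l 30))) (b (b (a (l 141588406709157919) (c (a (l 141690455154049055) (l 30)) (l 141495841556185119))) (a (l 141741032699019295) (b (c (l 30)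 (l 141609915911471135)) (l 30)))) (l 30))))))))), by decide +kernel⟩

def k10_pm_213 : ∃ t, chk3 f_pm_213 t 6 3 1 = true :=
  ⟨(b (b (b (a (a (b (b (l 16645768) (l 16653936)) (a (l 14) (b (l 16658480) (l 16668288)))) (b (b (l 16625504) (l 16635480)) (b (l 16646200) (b (l 16654728) (l 16660664))))) (b (a (l 16612712) (l 16597752)) (a (b (l 16632160) (l 16646408)) (a (l 16632368) (l 16629408))))) (a (b (a (l 14) (b (a (b (l 16669632) (l 16675640)) (l 16667336)) (c (l 16692648) (l 16670584)))) (l 14)) (b (a (b (a (l 16663144) (l 16660344)) (l 16678320)) (b (a (l 16658880) (l 16658272)) (l 16669264))) (a (a (l 16693104) (l 16688648)) (l 16681688))))) (a (l 14) (b (a (l 14) (b (l 16696640) (l 14))) (l 14)))) (l 14)), by decide +kernel⟩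

def k11_pm_213 : ∃ t, chk3 f_pm_213 t 14 24 1 = true :=
  ⟨(a (b (a (l 16589328) (l 16586568)) (a (l 16628264) (l 16630240))) (b (b (a (c (l 16599072) (l 16553640)) (l 16580016)) (a (c (l 16621936) (l 16576008)) (l 16626144))) (a (b (a (l 16621864) (l 16625312)) (a (l 16640128) (l 16639792))) (b (c (l 16633832) (l 16606024)) (c (l 16631744) (l 16635056)))))), by decide +kernel⟩

def k12_pm_213 : ∃ t, chk3 f_pm_213 t 30 24 1 = true :=
  ⟨(b (a (b (c (l 16615528) (l 16558120)) (c (l 16626192) (l 16585464))) (b (b (l 16590048) (l 16605104)) (b (l 16618144) (l 16622952)))) (a (b (b (l 16627496) (l 16632240)) (b (l 16636888) (l 16644048))) (b (c (l 16615256) (l 16623896)) (c (l 16623488) (l 16633720))))), by decide +kernel⟩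

def k13_pm_213 : ∃ t, chk3 f_pm_213 t 62 24 1 = true :=
  ⟨(b (b (c (a (l 16598640) (l 142828930905800735)) (a (l 16572784) (l 142407680472612895))) (c (a (l 16607592) (l 142841506588278815)) (a (l 16605992) (l 30)))) (b (c (a (l 16616152) (b (l 142824945250467935) (l 142872567856365663))) (c (a (l 16626376) (l 142714100714766367)) (l 30))) (a (b (l 16615600) (l 16619912)) (a (b (l 142836902398132255) (l 142885006040580127)) (b (l 142830648925601823) (l 142878890006937695)))))), by decide +kernel⟩

def k14_pm_213 : ∃ t, chk3 f_pm_213 t 126 24 1 = true :=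
  ⟨(b (c (a (b (l 142644487831306271) (l 142747910661947487)) (b (b (l 142615488251117599) (l 142668608415891615)) (b (l 142720629068841055) (l 142771412771012703)))) (l 30)) (b (c (b (a (l 143002310220857439) (c (l 143051513375850591) (l 142950495727042655))) (c (a (l 143097349274124383) (l 143098861103579231)) (l 142821646716747871))) (a (l 142742344367636511) (b (l 142615213330202655) (l 142668608372965407)))) (c (a (b (l 143097486712914015) (l 143143322612007007)) (b (c (l 143145178038960223) (l 143048833315422303)) (c (l 143190326743040223) (l 143096249762676831)))) (a (l 142869475418144863) (b (l 142720766464966751) (l 142771825045143647)))))), by decide +kernel⟩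

def k15_pm_213 : ∃ t, chk3 f_pm_213 t 127 48 1 = true :=
  ⟨(b (a (c (c (b (l 142670188965462175) (l 142722553215762527)) (l 30)) (l 30)) (c (b (c (c (c (a (l 142893389834322079) (b (a (l 142880676729290911) (l 142881089046429855)) (l 142907271171424415))) (a (l 142864733807378591) (b (l 30) (a (l 142878271546933407) (l 142878546425102495))))) (l 30)) (l 30)) (c (a (b (l 142889953859567711) (l 142916067265183839)) (b (c (a (l 142918884764745823) (b (l 142912768730480735) (l 142925825433272415))) (l 30)) (b (a (l 142909882511523935) (c (l 142938813416587359) (l 142881295204319391))) (a (l 142922870494855263) (c (l 142951732680425567) (l 142894489346097311)))))) (l 30))) (l 30))) (a (c (a (b (l 142719529546989663) (l 142770588116303967)) (b (b (l 142705991818903647) (l 142731899066089567)) (c (l 143004371807567967) (l 142896001173553247)))) (l 30)) (c (a (b (c (b (l 142941837073383519) (l 142967332003610719)) (a (l 142662561102217375) (l 142661873867276447))) (b (c (l 142992552055898207) (l 142881707520327839))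 (c (l 143017565949689951) (l 142907683486974047)))) (b (b (c (b (a (l 142935789758677087) (c (l 142964583224754271) (l 142907546048905311))) (a (l 142948709022498911) (c (l 142977365049606239) (l 142920534032220255)))) (l 30)) (b (c (a (l 142961490847367263) (c (l 142990078154965087) (l 142933522015535199))) (a (l 142848034971238559) (c (l 142876278681321631) (l 30)))) (c (a (l 142974203952726111) (c (l 143002791260307551) (l 142946372559863903))) (a (l 142861229113032863) (c (l 142889404103606431) (l 30)))))) (a (c (b (l 142993239251026015) (l 143018321864294495)) (b (c (l 142909195316101215) (l 30)) (c (l 142934965124284511) (l 142878615143530655)))) (b (c (c (l 143021620400144479) (b (l 142959223104192607) (l 142971936209567839))) (c (a (l 142908989157769311) (b (l 142902323367493727) (l 142915311350792287))) (l 30))) (b (c (c (l 143040380820471903) (l 142984580595433567)) (c (l 142928299334058079) (l 30))) (c (c (l 143052750328381535) (l 142997224981299295)) (c (l 142941081158926431) (l 142884387580723359))))))))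 (l 30)))), by decide +kernel⟩

def k16_pm_213 : ∃ t, chk3 f_pm_213 t 127 98 1 = true :=
  ⟨(a (b (c (c (a (l 143052544168722527) (l 143053506241871967)) (a (l 142948365423476831) (l 142947128473059423))) (c (l 142660293315526815) (l 30))) (c (c (a (l 143100372932771935) (l 143101541164351583)) (a (l 142998324491714655) (l 142997224980217951))) (c (l 142712382687903839) (l 30)))) (b (c (c (a (b (l 143042236246065247) (l 143066700383961183)) (b (a (l 143043129599623263) (c (l 143071235870752863) (l 143016054121119839))) (a (l 143067662456995935) (c (l 143095631289139423) (l 143040861856432223))))) (a (b (l 142933315856203871) (l 142958673347461215)) (b (c (a (l 142960391335018591) (b (l 142953862983762015) (l 142966576089120863))) (a (l 142904591110160479) (a (l 142904041354379359) (b (l 142897169405624415) (l 142910088669446239))))) (b (a (l 142951663959851103) (c (l 142979220474986591) (l 142923145372205151))) (a (l 142964308345733215) (c (l 142991796141359199) (l 142935927197057119))))))) (b (l 30)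 (b (l 30) (b (l 30) (b (l 30) (a (l 142623940718854303) (c (c (l 142884937336455327) (l 30)) (l 30)))))))) (c (c (b (a (l 143090889643901023) (c (l 143119270793068767) (a (l 143064982396731487) (l 143065463433265247)))) (a (l 143114804025884767) (a (l 143115972257333471) (l 143116796891300063)))) (a (b (l 142983824680239199) (l 143008701135077471)) (b (c (b (l 143004303088189535) (l 143016741315592287)) (a (l 142955649690091615) (b (l 142948640302415967) (l 142961284688281695)))) (c (a (l 143035295577407583) (l 143035295577505887)) (a (l 142980801022869599) (b (l 142973860354670687) (l 142986367301550175))))))) (c (c (a (b (l 142902048488767647) (l 142927612138504287)) (b (a (l 142900124343320671) (a (l 142899162270597215) (b (l 142847072906100831) (l 142904934707691615)))) (a (l 142925687993040991) (a (l 142924794639777887) (b (l 142917785252020319) (l 142930498357379167)))))) (l 30)) (l 30))))), by decide +kernel⟩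

def k17_pm_213 : ∃ t, chk3 f_pm_213 t 127 99 1 = true :=
  ⟨(a (a (b (c (c (l 143147102185013343) (l 143047115328651359)) (l 142713413480218719)) (c (c (l 143192731925446879) (l 143094875373256799)) (l 142764403340836959))) (b (b (c (l 143085735681671263) (l 142695752571977823)) (c (l 143109443905224799) (l 142721453660733535))) (b (c (l 143132945970298975) (l 142746948612472927)) (c (l 143156173157433439) (l 142772168664793183))))) (b (c (c (a (l 143150263281909983) (b (a (l 143139749200314591) (l 143140711273234655)) (l 143163801021284575))) (a (b (l 143033233992482911) (l 143057629410885727)) (b (a (l 143032752956227679) (c (l 143059759715385439) (b (l 142998874248429663) (l 143011243756355679)))) (c (l 143083948975259871) (b (l 143023888142172255) (l 143036120211112031)))))) (c (b (a (l 142925825431814239) (a (c (l 142951045484265567) (l 142895795015565407)) (c (b (l 142943486340661343) (l 142956130726527071)) (c (b (l 142901567452708959) (l 142914349277560927)) (l 30))))) (a (l 142951114203594847)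 (c (a (l 142976128097550431) (b (l 142968637673422943) (l 142981144620318815))) (a (l 142921358665269343) (a (l 142919984275587167) (b (l 142912700009873503) (l 142925344395755615))))))) (l 30))) (c (b (c (a (l 143185035343053023) (l 143187165647323359)) (a (l 143081681231855711) (a (l 143081337634521183) (c (l 143108000796213471) (l 143054193436590175))))) (a (c (l 143207987652182239) (l 143105526894346335)) (c (l 143210255395406047) (b (l 143099204701552863) (l 143111093173043423))))) (b (a (c (l 142976128097402975) (l 142688330910695583)) (c (c (a (l 143000935832879199) (b (l 142993582847705183) (l 143005952355614815))) (a (l 142946578717556831) (b (l 142938469818007647) (l 142951045484380255)))) (c (a (l 142891740565880927) (c (b (l 142896757088600223) (l 142909470193975391)) (l 30))) (l 30)))) (a (c (l 143000867113271391) (l 142714031999402079)) (c (c (b (l 143018802899927135) (l 143031034968850527)) (a (l 142971592611348575) (b (l 142963552431276127) (l 142975990658678879)))) (c (a (l 142917166776615007)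 (a (l 142915311350497375) (b (l 142885143498948703) (l 142920327873200223)))) (l 30)))))))), by decide +kernel⟩

def k18_pm_213 : ∃ t, chk3 f_pm_213 t 14 25 1 = true :=
  ⟨(b (a (b (l 16631232) (l 16660640)) (b (a (b (l 16646768) (l 16651192)) (a (b (l 16646512) (a (l 16651040) (l 16650928))) (b (l 16646176) (l 16650640)))) (a (l 16657376) (a (l 16657144) (l 16656880))))) (a (l 16672624) (a (a (l 16669216) (l 16647800)) (a (a (l 16647688) (b (l 16643944) (l 16651264))) (b (l 16664752) (l 16651224)))))), by decide +kernel⟩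

def k19_pm_213 : ∃ t, chk3 f_pm_213 t 30 25 1 = true :=
  ⟨(b (b (b (a (b (l 16644760) (l 16625992)) (b (l 16623456) (l 16625592))) (a (c (l 16632088) (l 16647688)) (a (l 16628880) (c (l 16654464) (l 16644840))))) (a (c (l 16659184) (l 16633128)) (b (l 16638224) (l 16637120)))) (a (a (a (l 16652664) (l 16647352)) (a (l 16647280) (l 16647200))) (a (a (l 16647120) (l 16647024)) (c (a (l 16671904) (l 16672248)) (l 16642520))))), by decide +kernel⟩

def k20_pm_213 : ∃ t, chk3 f_pm_213 t 62 50 1 = true :=
  ⟨(b (b (a (l 16624128) (c (a (l 16651576) (l 16646608)) (l 142848928352731231))) (a (a (l 16628352) (l 16628192)) (c (c (l 16658896) (c (l 16653888) (l 16650584))) (a (l 16621736) (l 142892977502683231))))) (a (b (l 16653456) (l 16657632)) (c (a (l 16661464) (l 16661728)) (l 142991246411530335)))), by decide +kernel⟩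

def k21_pm_213 : ∃ t, chk3 f_pm_213 t 126 100 1 = true :=
  ⟨(b (c (a (l 143187990279815263) (c (l 143234444654805215) (l 143142635417600095))) (b (l 142814499847389279) (l 142839170143912031))) (b (c (a (l 143220769476034655) (l 143221868988203231)) (a (l 143048902034800735) (l 143038525392535647))) (b (a (c (l 143236918555951327) (l 143067043979903071)) (c (l 143238292946026719) (c (l 143102709394817119) (l 143010281683009631)))) (c (l 143251830684729567) (l 142896482240249951))))), by decide +kernel⟩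

def k22_pm_213 : ∃ t, chk3 f_pm_213 t 127 100 2 = true :=
  ⟨(a (c (a (b (l 143237330873549023) (b (l 143270041350127839) (l 143293405975986399))) (b (l 143239529897279711) (b (l 143272515251765471) (b (l 143288870490030303) (l 143303301582110943))))) (a (c (b (l 143165725166092511) (b (l 143199603873988831) (l 143223586975301855))) (b (l 143117346646016095) (b (l 143152049987797215) (l 143176514125545695)))) (b (l 143141123589259487) (b (l 143175552053035231) (b (l 143192663205675231) (l 143207300456284383)))))) (c (b (a (l 143241935079456991) (b (l 143233070265532639) (l 143255678977179871))) (b (l 143276638410375391) (b (a (l 143291687989051615) (l 143294711646519583)) (l 143307768348836063)))) (b (a (l 143140779981193439) (a (c (l 143166687239225567) (l 143114529147338975)) (b (l 143128822801055967) (l 143152324866064607)))) (b (a (l 143175483333591263) (l 143175552053117151)) (b (a (l 143192663205707999) (l 143192800644694239)) (l 143207506614780127)))))), by decide +kernel⟩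

def k23_pm_213 : ∃ t, chk3 f_pm_213 t 127 100 3 = true :=
  ⟨(b (a (c (b (l 143030141615128671) (l 143054330875117663)) (l 142761242244792415)) (c (a (b (l 143025399970660447) (l 143049657950109791)) (b (c (b (l 143043198318297183) (l 143055292948267231)) (a (l 142996331627184223) (b (l 142988360166604895) (l 143000729674498143)))) (c (l 143073366173712607) (a (l 143020864484556895) (b (l 143012961743437919) (l 143025193812377695)))))) (b (a (l 142739458210168927) (a (c (l 142942386828886111) (l 142887823555280991)) (c (b (a (l 142934209209811039) (l 142932972259049567)) (l 142915173916803167)) (c (b (l 30) (l 142904797268934751)) (l 30))))) (a (c (l 142971180294455391) (l 142918266288554079)) (c (a (l 142967332003201119) (b (l 142958604628213855) (l 142970974136139871))) (a (l 142913249766015071) (c (b (l 142917441654816863) (l 142930017321189471)) (b (l 30) (l 142902460806479967))))))))) (b (a (c (l 143078245257166943) (l 142978876877078623)) (c (a (l 143073641051586655) (a (l 143071442028019807)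 (b (l 143064089042780383) (l 143076046233764063)))) (a (c (l 142995850590830687) (l 142943417621364831)) (c (a (l 142992002299560031) (b (l 142983343644049503) (l 142995644432466015))) (a (l 142938401098793055) (a (l 142935927197253727) (b (l 142928024456101983) (l 142940462683521119)))))))) (a (b (c (l 143096043604721759) (a (l 143000592235413599) (l 142994338762096735))) (c (l 143110887013875807) (l 143012618145661023))) (b (c (a (l 143091508118601951) (c (l 143114941464183007) (l 143062371055583455))) (a (c (l 143014267413758047) (l 142962178041741407)) (c (a (l 143010419122454623) (b (l 143004784124444767) (b (l 143009388330156127) (c (l 143025949726818527) (l 142999080406925407))))) (a (b (l 142953931703205983) (l 142960253896130655)) (b (l 142950633167798367) (b (l 142955306093002847) (b (l 142957642555605087) (l 142959291823325279)))))))) (c (a (l 143106488966709471) (l 143103808906674399)) (a (l 143003547173339231) (a (l 142999217845616735) (c (l 143023269666455647) (l 142969324868321375))))))))),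 by decide +kernel⟩

def k24_pm_213 : ∃ t, chk3 f_pm_213 t 126 101 1 = true :=
  ⟨(a (b (c (l 143292512619938015) (l 143123325239361631)) (c (a (l 16663904) (l 16664032)) (c (l 16653664) (l 142966301237117023)))) (c (b (l 143294505485287647) (b (a (l 143343846075646175) (c (l 143389338377175327) (l 143299453286269151))) (a (c (l 16668744) (l 16661560)) (c (l 143410847577375007) (l 143322955351507167))))) (a (b (l 143116109693321311) (b (l 143166343637631071) (c (l 143242347390648543) (l 143152668459024479)))) (b (l 143111505487741023) (b (c (l 143207987647496415) (b (l 143106970000392287) (l 143123256518688863))) (c (l 143233345138819295) (l 143142223097741407))))))), by decide +kernel⟩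

def k25_pm_213 : ∃ t, chk3 f_pm_213 t 127 101 2 = true :=
  ⟨(a (b (b (l 143280349271507167) (a (l 143313334624370911) (c (b (l 143353879123116319) (l 143366867106234655)) (b (l 143258290314494175) (a (l 143274233235210463) (l 143270659822452959)))))) (b (c (a (b (l 143382397709500703) (l 143391674840858911)) (l 143377175030776095)) (a (b (l 143290038716956895) (l 143300552798994655)) (l 143284747318378719))) (c (l 143393117953163551) (l 143304675970842847)))) (a (c (b (b (b (l 143323230232903967) (a (l 143339448031330591) (l 143339791628960031))) (b (a (l 143353329367662879) (l 143349068760351007)) (l 143357246379983135))) (l 143369890768814367)) (b (b (b (l 143224549047156959) (a (l 143241660199010527) (b (l 143237537029882079) (l 143244615137067231)))) (b (a (l 143256160010748127) (l 143251349647392991)) (l 143261588851572959))) (c (l 143301995913429279) (l 143256091294728415)))) (c (b (b (b (a (l 143325360537043231) (b (l 143322062001881375) (l 143327215963668767))) (a (l 143337042850119967) (l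 143331476572750111))) (l 143342402972516639)) (c (l 143380267414634783) (l 143335256148902175))) (a (b (b (a (b (l 143224755205603551) (l 143238773981020383)) (b (l 143224617766666463) (l 143236162640920799))) (l 143248532149960927)) (c (l 143292787503743263) (l 143246814165418207))) (b (b (b (b (a (l 143220632036475103) (l 143219738683293919)) (a (l 143227229107323103) (l 143224411608793311))) (l 143231420997042399)) (c (l 143266742815703327) (l 143217608381137119))) (b (l 143256572333195487) (l 143270865988780319))))))), by decide +kernel⟩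

def k26_pm_213 : ∃ t, chk3 f_pm_213 t 254 101 3 = true :=
  ⟨(a (b (c (l 143155142362792031) (l 143058660201513055)) (b (c (b (l 143195961737560287) (l 143207644050833631)) (b (a (l 143102571953225823) (l 143098242625749087)) (l 143113017315819615))) (c (l 143220838193709279) (l 143129028957405279)))) (b (b (c (l 143135213711851743) (l 143035570454036575)) (c (b (l 143160777360572639) (a (l 143177751073685727) (l 143173421746454751))) (b (a (l 143062920809562207) (l 143059965871620191)) (a (l 143079413486338143) (l 143074259525156959))))) (c (b (l 143190395460681951) (l 143207918931771615)) (b (c (l 143118377437020383) (l 143069792758939743)) (l 143115559939211359))))), by decide +kernel⟩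

def k27_pm_213 : ∃ t, chk3 f_pm_213 t 255 101 3 = true :=
  ⟨(a (a (c (b (b (l 143133152127221983) (b (l 143156860350087391) (l 143167168273858783))) (c (l 143212866735685855) (l 143166000044392671))) (c (b (b (l 143056873495363679) (b (l 143081131474190559) (l 143092607629148383))) (l 143118652316762335)) (b (b (l 143005471318327391) (b (l 143030004175143007) (l 143042373683363935))) (l 143070754833350751)))) (b (b (b (l 142823983191425119) (c (b (l 143136175784558815) (l 143143597489176799)) (b (l 143032752954949727) (c (l 143066494223483103) (l 143014473571074143))))) (c (c (l 143180980891599071) (l 143131021823557855)) (c (l 143080581719179487) (l 143029660578480223)))) (c (c (l 143206544543727839) (l 143159609132859615)) (c (l 143112055246684383) (b (l 143052544169115743) (l 143075496479277279)))))) (c (b (a (b (b (b (l 143117552803856607) (l 143126005300642015)) (b (l 143132945968939231) (l 143138099930824927))) (l 143149438647353567)) (b (b (b (a (l 143116590731018463) (c (l 143141467185938655)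 (l 143088621899432159))) (a (l 143123600118792415) (l 143120576461717727))) (l 143129097678602463)) (c (l 143167992910250207) (l 143117758964056287)))) (b (c (l 143188471318937823) (a (l 143143597492224223) (l 143137137861214431))) (a (l 143185859979296991) (b (l 143175071020171487) (l 143184210712920287))))) (a (b (b (b (b (l 143012411986968671) (a (l 143021895276068959) (c (l 143046771730792671) (l 142993582847066207)))) (b (c (l 143054743191388383) (a (l 143003547172667487) (l 143000592234905695))) (l 143034402223145055))) (c (l 143073778490622175) (l 143022582471884895))) (c (l 143105595615576287) (b (l 143045740940476511) (l 143068968128594143)))) (a (b (b (b (b (c (l 143037082283180255) (l 142983343643541599)) (c (l 143044435268387039) (b (l 142989459677888607) (l 142992689493917791)))) (c (l 143052681607381215) (l 142999905040498783))) (c (l 143068693249065183) (c (l 143030279055081695) (l 143004440527503455)))) (c (b (l 143089996291686623) (l 143111368053833951)) (b (l 143040724418347231) (l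 143064089045450975)))) (c (b (b (b (b (l 143035158137635039) (l 143041205452783839)) (l 143049245633364191)) (l 143065325994541279)) (b (l 143086766476132575) (l 143108206957773023))) (b (b (b (b (a (b (l 142979976388673631) (l 142983962118946911)) (b (b (l 142978052243046495) (l 142979976388706399)) (l 142982312851374175))) (l 142987604252065887)) (c (l 143009663208144991) (l 142983068766240863))) (c (l 143026843081031903) (b (l 142995025957683295) (l 143006983149142111)))) (b (b (l 143031516007006431) (l 143043198320558303)) (a (l 143061683863617759) (l 143060034590720223))))))))), by decide +kernel⟩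

def k28_pm_213 : ∃ t, chk3 f_pm_213 t 62 51 1 = true :=
  ⟨(c (b (a (l 16668848) (a (l 16669304) (b (l 16667632) (l 16671512)))) (a (l 16676464) (a (l 16676952) (l 16677384)))) (b (a (l 16658488) (a (l 16657752) (b (l 16655120) (l 16659344)))) (a (l 16666632) (b (l 16663768) (l 16668024))))), by decide +kernel⟩

def k29_pm_213 : ∃ t, chk3 f_pm_213 t 126 51 1 = true :=
  ⟨(b (c (a (b (c (l 16671280) (l 16664544)) (l 16671840)) (b (c (l 143432013182009631) (l 143349755953758431)) (b (l 143407068010774815) (l 143417788253307167)))) (a (b (c (l 16657880) (a (l 16651472) (l 16651096))) (c (l 16662104) (l 16655704))) (b (c (l 143265918177640671) (a (l 143187096923783263) (l 143173627905589343))) (c (l 143298972254830815) (l 143221319232192735))))) (c (c (b (l 16679384) (l 16683392)) (a (l 16674760) (b (l 16673008) (l 16677280)))) (a (b (c (l 16666400) (l 16660200)) (l 16667752)) (b (c (l 143332026332217567) (l 143262344769306847)) (c (l 143364805531795743) (l 143303370306568415)))))), by decide +kernel⟩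

def k30_pm_213 : ∃ t, chk3 f_pm_213 t 127 102 1 = true :=
  ⟨(a (c (b (c (l 143407411610435871) (a (l 143330926817312991) (l 143318763470160159))) (c (l 143425897157951775) (l 143351336510751007))) (b (b (c (l 143231764594884831) (c (l 143165793885683935) (l 143121194937630815))) (c (l 143249081907593439) (l 143164900533469407))) (b (c (l 143266399220334815) (l 143186203576090847)) (c (l 143283647813632223) (l 143207506618761439))))) (c (b (a (c (l 143389475827974431) (c (l 143327628286902559) (l 143285778117574943))) (b (c (l 143372776993718559) (a (l 143290932080312607) (l 143284953485984031))) (c (l 143382535163625759) (a (l 143304813419069727) (l 143298972263727391))))) (a (c (l 143408373692481823) (l 143333950483677471)) (b (c (l 143392087175151903) (a (l 143318557318922527) (l 143312853602550047))) (c (l 143401433028264223) (l 143329346270658847))))) (a (c (b (c (l 143243446911942879) (l 143200565950480607)) (c (l 143276913306386719) (l 143238224233267423))) (b (c (l 143157203952713951) (l 143113292199149791))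 (c (l 143198985404367071) (l 143159196819652831)))) (a (c (b (c (l 143234444660457695) (l 143191494979371231)) (c (l 143268323371876639) (l 143229634298609887))) (b (c (l 143147995542487263) (l 143103877630312671)) (c (l 143190326750052575) (l 143150469445714143)))) (c (a (b (c (l 143229977894469855) (l 143187028213301471)) (c (l 143264062764351775) (l 143225373691019551))) (b (b (c (l 143218433020035359) (l 143174315107647711)) (c (l 143235612893921567) (l 143193625285427423))) (b (l 143232932835016991) (l 143251006062215455)))) (a (b (c (l 143143391337382111) (b (l 143087522392064223) (l 143110955738710239))) (c (l 143186066142396639) (l 143146208837959903))) (b (b (c (l 143129647439446239) (l 143084361285222623)) (c (l 143151087921152223) (l 143107932081586399))) (b (c (l 143172528402890975) (l 143131502867235039)) (c (l 143193900165185759) (l 143155073652916447)))))))))), by decide +kernel⟩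

def k31_pm_213 : ∃ t, chk3 f_pm_213 t 127 103 1 = true :=
  ⟨(a (c (a (b (c (l 16680272) (l 143382947478667551)) (c (l 16684384) (l 16677640))) (b (c (l 143437785636192543) (l 143371677484941599)) (c (l 16684824) (l 143397172419805471)))) (c (a (b (l 143314915182526687) (l 143348587735499039)) (b (l 143303782627361055) (l 143338004936278303))) (b (b (l 143228878380941535) (l 143250181423661279)) (a (l 143287289948651743) (l 143276913307484383))))) (c (a (c (b (l 143426378203906399) (l 143443420642722143)) (b (l 143360544930185503) (l 143386452182008095))) (c (b (a (l 143417856989430111) (l 143412290712256863)) (l 143432356807917919)) (b (b (l 143342815303401759) (l 143356146886459679)) (c (l 143390094318600543) (l 143361438289395999))))) (b (b (a (c (l 143283991415767327) (l 143212042108616927)) (c (a (l 143275813798101279) (l 143270384959488287)) (c (l 143219326376689887) (l 143182698887905503)))) (a (c (l 143301514887119135) (l 143233894907265247)) (c (l 143290863368388895) (c (l 143240491980587295)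 (l 143206063515189471))))) (a (c (l 143327628295504159) (c (l 143282135991140639) (l 143251074780496095))) (c (c (l 143332163784900895) (l 143302408244101407)) (c (l 143272102947504415) (l 143241110456156447))))))), by decide +kernel⟩

def k32_pm_213 : ∃ t, chk3 f_pm_213 t 14 13 1 = true :=
  ⟨(b (a (b (a (l 16688952) (l 16685040)) (a (l 16701992) (l 16676888))) (b (a (b (l 16658672) (l 16665328)) (a (b (l 16658216) (l 16664776)) (a (b (a (l 16658208) (l 16658200)) (c (a (l 16687392) (l 16687384)) (a (l 16684288) (l 16684328)))) (b (l 16679128) (c (l 16687480) (l 16684104)))))) (a (a (l 16674880) (b (l 16692264) (l 16698240))) (a (b (c (l 16694032) (l 16690040)) (c (l 16700440) (l 16695992))) (b (b (a (a (l 16690376) (l 16690384)) (c (l 16692304) (l 16688832))) (a (a (l 16693424) (l 16693472)) (c (l 16695488) (l 16691936)))) (b (a (a (l 16696552) (l 16696632)) (a (c (l 16698640) (l 16695040)) (c (l 16698824) (l 16695160)))) (a (a (l 16699752) (l 16699872)) (a (c (l 16702016) (l 16698216)) (c (c (l 16703224)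 (l 16701152)) (c (l 16699288) (l 16697624))))))))))) (a (l 14) (b (a (b (a (l 16704808) (l 16704304)) (l 14)) (b (b (a (l 16702776) (a (l 16703096) (c (a (l 16705440) (l 16705568)) (a (l 16701456) (c (l 16702624) (l 16700904)))))) (a (l 16706024) (a (l 16706448) (c (l 16708992) (l 16704928))))) (a (l 14) (b (c (l 16712392) (l 16707976)) (l 14))))) (l 14)))), by decide +kernel⟩

def k33_pm_213 : ∃ t, chk3 f_pm_213 t 30 26 1 = true :=
  ⟨(b (b (a (a (l 16658120) (a (l 16679048) (l 16678976))) (a (c (l 16682432) (l 16675712)) (c (l 16683160) (l 16675160)))) (a (a (c (l 16687952) (l 16691608)) (c (l 16688656) (l 16683328))) (a (b (l 16684304) (l 16687952)) (b (l 16684688) (l 16688552))))) (a (a (b (a (c (l 16694256) (l 16690296)) (b (l 16690696) (l 16694072))) (c (b (a (l 16699224) (l 16699816)) (a (l 16702608) (l 16703280))) (a (b (l 16695248) (l 16698624)) (b (l 16695408) (l 16698904))))) (b (c (l 16695496) (c (l 16691544) (l 16689144))) (c (a (l 16702224) (l 16702944)) (a (c (l 16698552) (l 16696328))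 (l 16697720))))) (b (a (c (l 16696704) (l 16690544)) (c (l 16698096) (l 16690960))) (a (c (l 16704128) (a (l 16698072) (l 16698464))) (c (l 16705832) (b (l 16697080) (l 16701200))))))), by decide +kernel⟩

def k34_pm_213 : ∃ t, chk3 f_pm_213 t 62 26 1 = true :=
  ⟨(b (b (a (c (l 16683984) (l 16674704)) (c (l 16685120) (a (l 16674544) (l 16674528)))) (a (c (l 16691760) (l 16683048)) (c (l 16693240) (a (l 16683264) (l 16683488))))) (a (b (c (l 16699696) (l 16691568)) (c (l 16707712) (b (l 16698016) (l 16702344)))) (b (c (l 16701480) (c (l 16694608) (l 16690152))) (c (l 16709760) (b (l 16699128) (l 16703648)))))), by decide +kernel⟩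

def k35_pm_213 : ∃ t, chk3 f_pm_213 t 63 52 1 = true :=
  ⟨(a (b (c (a (l 16686104) (c (l 16689936) (l 16683776))) (b (a (l 16672272) (c (l 16675384) (l 143344258404974815))) (a (l 16676840) (c (l 16679960) (l 143384871625556255))))) (c (a (l 16694472) (l 16695368)) (a (c (l 16686408) (l 16681144)) (c (l 16686888) (b (l 16678880) (l 16683744)))))) (b (a (b (b (c (a (l 16684200) (l 143441359057010975)) (c (l 143368447671501087) (l 143313884393570591))) (c (a (l 16686344) (l 16686752)) (c (l 143385009070178591) (l 143334981277958431)))) (c (b (l 16683464) (l 16690872)) (c (l 143409679369535775) (c (l 143377518644822303) (l 143355390966956319))))) (b (c (b (c (l 143450086438961503) (l 143400127365087583)) (c (l 143457851744190815) (l 143412565595013471))) (c (c (l 143369615909175583) (l 143344395854201119)) (c (a (l 143323298967798047) (l 143313953119060255)) (a (l 143296841962373407) (l 143287633552408863))))) (c (a (c (l 16693752) (l 143435792784703839)) (c (l 143463624187347295) (l 143425828461363551)))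 (c (c (l 143401158158680415) (l 143380679747862815)) (c (l 143359720300740895) (a (l 143342265546916127) (l 143333813051326751))))))) (c (b (a (a (l 16693896) (l 16694368)) (c (l 143482796929581407) (a (l 16686456) (l 143449399251222879)))) (a (l 16698488) (a (l 16688760) (c (l 16702880) (l 143471939248947551))))) (b (a (c (l 143441977533235487) (c (l 143416826195542303) (l 143399440161833247))) (c (c (l 143431875774480735) (l 143416345166266719)) (c (l 143400264802271519) (l 143383497243525407)))) (c (a (l 16689760) (c (l 143461768756592991) (l 143451254670459231))) (a (c (l 143455652709957983) (l 143443008320405791)) (c (l 143440190828527967) (l 143428439791862047)))))))), by decide +kernel⟩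

def k36_pm_213 : ∃ t, chk3 f_pm_213 t 63 53 1 = true :=
  ⟨(c (a (b (c (l 16706032) (l 16700896)) (b (l 16709848) (l 16714064))) (b (a (c (l 16707776) (l 16702288)) (b (c (l 16706864) (l 143497846500524383)) (a (l 16708040) (l 16708616)))) (b (c (l 16714736) (l 16709520)) (a (l 16715792) (l 16711696))))) (a (b (a (l 16693064) (b (l 16691208) (l 16695968))) (a (l 16702408) (c (l 16705432) (l 16700816)))) (b (b (c (a (l 16694488) (c (l 143490630946537823) (l 143485339540914527))) (a (l 143490012455600479) (c (l 143479429660033375) (l 143472832584401247)))) (c (c (l 143526708680720735) (l 143525952760955231)) (a (l 143529938481791327) (c (l 143517912577278303) (l 143516675621110111))))) (b (a (c (l 16703928) (l 16698960)) (c (l 143547599409381727) (c (l 143555021104857439) (l 143559212987646303)))) (c (a (l 16708576) (l 16709424)) (a (l 16703864) (c (l 16705728) (l 143600238525514079)))))))), by decide +kernel⟩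

def k37_pm_213 : ∃ t, chk3 f_pm_213 t 15 27 1 = true :=
  ⟨(a (b (a (b (a (c (a (b (l 16706040) (l 16709528)) (l 16708568)) (b (c (l 16703224) (l 16701320)) (b (l 16704888) (l 16706656)))) (a (b (l 16705144) (l 16708800)) (b (l 16705800) (l 16709544)))) (a (c (a (b (l 16713040) (l 14)) (l 16715688)) (a (b (l 16709008) (l 14)) (l 16711448))) (c (l 16717168) (c (l 16713624) (l 16711456))))) (b (a (c (l 16711664) (a (l 16705824) (l 16706432))) (c (l 16713632) (l 16707424))) (a (c (l 16719288) (l 16714112)) (c (l 16721440) (l 16715712))))) (a (l 14) (b (a (a (l 16723736) (l 16724760)) (c (l 16729032) (l 16723784))) (l 14)))) (a (b (c (b (a (l 16715792) (l 16718008)) (a (l 16723688) (l 16725960))) (b (a (l 16708888) (c (l 16712272) (l 16708584))) (a (l 16717408) (l 16719128)))) (c (b (l 16732416) (l 16739432)) (b (a (l 16725592) (l 16727336)) (a (l 14) (l 16735040))))) (b (c (b (a (a (l 16719680) (l 16720848)) (c (l 16724856) (a (l 16719736) (l 16720760)))) (a (l 16728168) (c (l 16732368) (l 16728296))))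 (b (a (b (l 16709696) (l 16714232)) (c (a (l 16715328) (l 16716176)) (a (l 16710992) (b (c (l 16710448) (l 16708144)) (l 16713960))))) (a (l 16720768) (a (a (l 16721736) (l 16722120)) (b (l 16720544) (l 16724808)))))) (c (a (b (l 16735536) (l 16742408)) (b (c (l 16739376) (l 16735800)) (l 16744320))) (b (a (l 16729016) (c (l 16732320) (a (l 16728552) (l 16729264)))) (a (l 16736744) (c (l 16739800) (l 16736920)))))))), by decide +kernel⟩

def k38_pm_213 : ∃ t, chk3 f_pm_213 t 7 7 1 = true :=
  ⟨(b (l 14) (l 14)), by decide +kernel⟩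

theorem s39_pm_213 : ∃ t, chk3 f_pm_213 t 63 26 1 = true := ex3_b k35_pm_213 k36_pm_213

theorem s40_pm_213 : ∃ t, chk3 f_pm_213 t 31 26 1 = true := ex3_a k34_pm_213 s39_pm_213

theorem s41_pm_213 : ∃ t, chk3 f_pm_213 t 15 26 1 = true := ex3_a k33_pm_213 s40_pm_213

theorem s42_pm_213 : ∃ t, chk3 f_pm_213 t 15 13 1 = true := ex3_b s41_pm_213 k37_pm_213

theorem s43_pm_213 : ∃ t, chk3 f_pm_213 t 7 13 1 = true := ex3_a k32_pm_213 s42_pm_213

theorem s44_pm_213 : ∃ t, chk3 f_pm_213 t 127 51 1 = true := ex3_b k30_pm_213 k31_pm_213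

theorem s45_pm_213 : ∃ t, chk3 f_pm_213 t 63 51 1 = true := ex3_a k29_pm_213 s44_pm_213

theorem s46_pm_213 : ∃ t, chk3 f_pm_213 t 31 51 1 = true := ex3_a k28_pm_213 s45_pm_213

theorem s47_pm_213 : ∃ t, chk3 f_pm_213 t 127 101 3 = true := ex3_a k26_pm_213 k27_pm_213

theorem s48_pm_213 : ∃ t, chk3 f_pm_213 t 127 101 1 = true := ex3_c k25_pm_213 s47_pm_213

theorem s49_pm_213 : ∃ t, chk3 f_pm_213 t 63 101 1 = true := ex3_a k24_pm_213 s48_pm_213

theorem s50_pm_213 : ∃ t, chk3 f_pm_213 t 127 100 1 = true := ex3_c k22_pm_213 k23_pm_213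

theorem s51_pm_213 : ∃ t, chk3 f_pm_213 t 63 100 1 = true := ex3_a k21_pm_213 s50_pm_213

theorem s52_pm_213 : ∃ t, chk3 f_pm_213 t 63 50 1 = true := ex3_b s51_pm_213 s49_pm_213

theorem s53_pm_213 : ∃ t, chk3 f_pm_213 t 31 50 1 = true := ex3_a k20_pm_213 s52_pm_213

theorem s54_pm_213 : ∃ t, chk3 f_pm_213 t 31 25 1 = true := ex3_b s53_pm_213 s46_pm_213

theorem s55_pm_213 : ∃ t, chk3 f_pm_213 t 15 25 1 = true := ex3_a k19_pm_213 s54_pm_213

theorem s56_pm_213 : ∃ t, chk3 f_pm_213 t 7 25 1 = true := ex3_a k18_pm_213 s55_pm_213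

theorem s57_pm_213 : ∃ t, chk3 f_pm_213 t 127 49 1 = true := ex3_b k16_pm_213 k17_pm_213

theorem s58_pm_213 : ∃ t, chk3 f_pm_213 t 127 24 1 = true := ex3_b k15_pm_213 s57_pm_213

theorem s59_pm_213 : ∃ t, chk3 f_pm_213 t 63 24 1 = true := ex3_a k14_pm_213 s58_pm_213

theorem s60_pm_213 : ∃ t, chk3 f_pm_213 t 31 24 1 = true := ex3_a k13_pm_213 s59_pm_213

theorem s61_pm_213 : ∃ t, chk3 f_pm_213 t 15 24 1 = true := ex3_a k12_pm_213 s60_pm_213

theorem s62_pm_213 : ∃ t, chk3 f_pm_213 t 7 24 1 = true := ex3_a k11_pm_213 s61_pm_213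

theorem s63_pm_213 : ∃ t, chk3 f_pm_213 t 7 12 1 = true := ex3_b s62_pm_213 s56_pm_213

theorem s64_pm_213 : ∃ t, chk3 f_pm_213 t 7 6 1 = true := ex3_b s63_pm_213 s43_pm_213

theorem s65_pm_213 : ∃ t, chk3 f_pm_213 t 7 3 1 = true := ex3_b s64_pm_213 k38_pm_213

theorem s66_pm_213 : ∃ t, chk3 f_pm_213 t 3 3 1 = true := ex3_a k10_pm_213 s65_pm_213

theorem s67_pm_213 : ∃ t, chk3 f_pm_213 t 15 22 1 = true := ex3_a k7_pm_213 k8_pm_213

theorem s68_pm_213 : ∃ t, chk3 f_pm_213 t 15 11 1 = true := ex3_b s67_pm_213 k9_pm_213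

theorem s69_pm_213 : ∃ t, chk3 f_pm_213 t 7 11 1 = true := ex3_a k6_pm_213 s68_pm_213

theorem s70_pm_213 : ∃ t, chk3 f_pm_213 t 7 5 1 = true := ex3_b k5_pm_213 s69_pm_213

theorem s71_pm_213 : ∃ t, chk3 f_pm_213 t 3 5 1 = true := ex3_a k4_pm_213 s70_pm_213

theorem s72_pm_213 : ∃ t, chk3 f_pm_213 t 7 4 1 = true := ex3_b k2_pm_213 k3_pm_213

theorem s73_pm_213 : ∃ t, chk3 f_pm_213 t 3 4 1 = true := ex3_a k1_pm_213 s72_pm_213

theorem s74_pm_213 : ∃ t, chk3 f_pm_213 t 3 2 1 = true := ex3_b s73_pm_213 s71_pm_213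

theorem s75_pm_213 : ∃ t, chk3 f_pm_213 t 3 1 1 = true := ex3_b s74_pm_213 s66_pm_213

theorem s76_pm_213 : ∃ t, chk3 f_pm_213 t 1 1 1 = true := ex3_a k0_pm_213 s75_pm_213

theorem c_pm_213 : CertB 0 536870912 536870912 536870912 780900216 37827925 3 eng mog cd0q2 cd0q1 pd3 true true false .pnn 2 1 3
    ndB0q2 ndB0q1 pcB3 cut_pm_213 xt_pm_213 :=
  certB1 (fam := true) (s1 := true) (s2 := false) (a := 2) (b := 1) (c := 3) (cn := .pnn) (n1 := ndB0q2) (n2 := ndB0q1) (pc := pcB3) (cut := cut_pm_213) (xt := xt_pm_213) (P1 := 0) (W1 := 536870912) (P2 := 536870912) (W2 := 536870912) (P3 := 780900216) (W3 := 37827925) (N0 := 3) (En := eng) (mo := mog) (C1 := cd0q2) (C2 := cd0q1) (C3 := pd3)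
    rfl (fun _ => rfl) s76_pm_213

noncomputable def cut_mm_001 : Cut := Cut.of [[⟨3, 0, 0, 1449551462⟩], [⟨4, 0, 0, 2845415833⟩]]

noncomputable def f_mm_001 : ℕ → ℕ → ℕ → ℕ → Bool := onCell 0 536870912 0 536870912 780900216 37827925
    (rowB 3 eng mog cd0q0 cd0q0 pd1 0 true false false .up 0 0 1 (qsf 0 536870912 0 536870912 1) ndB0q0 ndB0q0 pcB1 cut_mm_001 Ext.none)

def k0_mm_001 : ∃ t, chk3 f_mm_001 t 1 1 1 = true :=
  ⟨(l 4), by decide +kernel⟩

theorem c_mm_001 : CertB 0 536870912 0 536870912 780900216 37827925 3 eng mog cd0q0 cd0q0 pd1 true false false .up 0 0 1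
    ndB0q0 ndB0q0 pcB1 cut_mm_001 Ext.none :=
  certB0 (fam := true) (s1 := false) (s2 := false) (a := 0) (b := 0) (c := 1) (cn := .up) (n1 := ndB0q0) (n2 := ndB0q0) (pc := pcB1) (cut := cut_mm_001) (xt := Ext.none) (P1 := 0) (W1 := 536870912) (P2 := 0) (W2 := 536870912) (P3 := 780900216) (W3 := 37827925) (N0 := 3) (En := eng) (mo := mog) (C1 := cd0q0) (C2 := cd0q0) (C3 := pd1)
    rfl k0_mm_001

noncomputable def cut_mm_011 : Cut := Cut.of [[⟨3, 0, 0, 1449551462⟩], [⟨4, 0, 0, 2845415833⟩]]

noncomputable def f_mm_011 : ℕ → ℕ → ℕ → ℕ → Bool := onCell 0 536870912 536870912 536870912 780900216 37827925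
    (rowB 3 eng mog cd0q0 cd0q1 pd1 0 true false false .pnn 0 1 1 (qsf 0 536870912 536870912 536870912 1) ndB0q0 ndB0q1 pcB1 cut_mm_011 Ext.none)

def k0_mm_011 : ∃ t, chk3 f_mm_011 t 1 1 1 = true :=
  ⟨(l 14), by decide +kernel⟩

theorem c_mm_011 : CertB 0 536870912 536870912 536870912 780900216 37827925 3 eng mog cd0q0 cd0q1 pd1 true false false .pnn 0 1 1
    ndB0q0 ndB0q1 pcB1 cut_mm_011 Ext.none :=
  certB0 (fam := true) (s1 := false) (s2 := false) (a := 0) (b := 1) (c := 1) (cn := .pnn) (n1 := ndB0q0) (n2 := ndB0q1) (pc := pcB1) (cut := cut_mm_011) (xt := Ext.none) (P1 := 0) (W1 := 536870912) (P2 := 536870912) (W2 := 536870912) (P3 := 780900216) (W3 := 37827925) (N0 := 3) (En := eng) (mo := mog) (C1 := cd0q0) (C2 := cd0q1) (C3 := pd1)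
    rfl k0_mm_011

noncomputable def cut_mm_012 : Cut := Cut.of [[⟨3, 0, 0, 1449551462⟩], [⟨4, 0, 0, 2845415833⟩]]

noncomputable def f_mm_012 : ℕ → ℕ → ℕ → ℕ → Bool := onCell 0 536870912 536870912 536870912 780900216 37827925
    (rowB 3 eng mog cd0q0 cd0q1 pd2 0 true false false .pnp 0 1 2 (qsf 0 536870912 536870912 536870912 2) ndB0q0 ndB0q1 pcB2 cut_mm_012 Ext.none)

def k0_mm_012 : ∃ t, chk3 f_mm_012 t 1 1 1 = true :=
  ⟨(l 14), by decide +kernel⟩

theorem c_mm_012 : CertB 0 536870912 536870912 536870912 780900216 37827925 3 eng mog cd0q0 cd0q1 pd2 true false false .pnp 0 1 2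
    ndB0q0 ndB0q1 pcB2 cut_mm_012 Ext.none :=
  certB0 (fam := true) (s1 := false) (s2 := false) (a := 0) (b := 1) (c := 2) (cn := .pnp) (n1 := ndB0q0) (n2 := ndB0q1) (pc := pcB2) (cut := cut_mm_012) (xt := Ext.none) (P1 := 0) (W1 := 536870912) (P2 := 536870912) (W2 := 536870912) (P3 := 780900216) (W3 := 37827925) (N0 := 3) (En := eng) (mo := mog) (C1 := cd0q0) (C2 := cd0q1) (C3 := pd2)
    rfl k0_mm_012

noncomputable def cut_mm_022 : Cut := Cut.of [[⟨3, 0, 0, 1449551462⟩], [⟨4, 0, 0, 2845415833⟩]]

noncomputable def f_mm_022 : ℕ → ℕ → ℕ → ℕ → Bool := onCell 0 536870912 0 536870912 780900216 37827925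
    (rowB 3 eng mog cd0q0 cd0q2 pd2 0 true false false .pp 0 2 2 (qsf 0 536870912 0 536870912 2) ndB0q0 ndB0q2 pcB2 cut_mm_022 Ext.none)

def k0_mm_022 : ∃ t, chk3 f_mm_022 t 1 1 1 = true :=
  ⟨(l 5), by decide +kernel⟩

theorem c_mm_022 : CertB 0 536870912 0 536870912 780900216 37827925 3 eng mog cd0q0 cd0q2 pd2 true false false .pp 0 2 2
    ndB0q0 ndB0q2 pcB2 cut_mm_022 Ext.none :=
  certB0 (fam := true) (s1 := false) (s2 := false) (a := 0) (b := 2) (c := 2) (cn := .pp) (n1 := ndB0q0) (n2 := ndB0q2) (pc := pcB2) (cut := cut_mm_022) (xt := Ext.none) (P1 := 0) (W1 := 536870912) (P2 := 0) (W2 := 536870912) (P3 := 780900216) (W3 := 37827925) (N0 := 3) (En := eng) (mo := mog) (C1 := cd0q0) (C2 := cd0q2) (C3 := pd2)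
    rfl k0_mm_022

noncomputable def cut_mm_023 : Cut := Cut.of [[⟨3, 0, 0, 1449551462⟩], [⟨4, 0, 0, 2845415833⟩]]

noncomputable def f_mm_023 : ℕ → ℕ → ℕ → ℕ → Bool := onCell 0 536870912 0 536870912 780900216 37827925
    (rowB 3 eng mog cd0q0 cd0q2 pd3 0 true false false .up 0 2 3 (qsf 0 536870912 0 536870912 3) ndB0q0 ndB0q2 pcB3 cut_mm_023 Ext.none)

def k0_mm_023 : ∃ t, chk3 f_mm_023 t 1 1 1 = true :=
  ⟨(l 5), by decide +kernel⟩

theorem c_mm_023 : CertB 0 536870912 0 536870912 780900216 37827925 3 eng mog cd0q0 cd0q2 pd3 true false false .up 0 2 3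
    ndB0q0 ndB0q2 pcB3 cut_mm_023 Ext.none :=
  certB0 (fam := true) (s1 := false) (s2 := false) (a := 0) (b := 2) (c := 3) (cn := .up) (n1 := ndB0q0) (n2 := ndB0q2) (pc := pcB3) (cut := cut_mm_023) (xt := Ext.none) (P1 := 0) (W1 := 536870912) (P2 := 0) (W2 := 536870912) (P3 := 780900216) (W3 := 37827925) (N0 := 3) (En := eng) (mo := mog) (C1 := cd0q0) (C2 := cd0q2) (C3 := pd3)
    rfl k0_mm_023

noncomputable def cut_mm_101 : Cut := Cut.of [[⟨3, 0, 0, 1449551462⟩], [⟨4, 0, 0, 2845415833⟩], [⟨0, 1, 0, 67108864⟩, ⟨1, 0, 0, 67108864⟩, ⟨2, 1, 0, 67108864⟩]]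

noncomputable def f_mm_101 : ℕ → ℕ → ℕ → ℕ → Bool := onCell 536870912 536870912 0 536870912 780900216 37827925
    (rowB 3 eng mog cd0q1 cd0q0 pd1 0 true false false .npn 1 0 1 (qsf 536870912 536870912 0 536870912 1) ndB0q1 ndB0q0 pcB1 cut_mm_101 Ext.none)

def k0_mm_101 : ∃ t, chk3 f_mm_101 t 1 1 1 = true :=
  ⟨(l 14), by decide +kernel⟩

theorem c_mm_101 : CertB 536870912 536870912 0 536870912 780900216 37827925 3 eng mog cd0q1 cd0q0 pd1 true false false .npn 1 0 1
    ndB0q1 ndB0q0 pcB1 cut_mm_101 Ext.none :=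
  certB0 (fam := true) (s1 := false) (s2 := false) (a := 1) (b := 0) (c := 1) (cn := .npn) (n1 := ndB0q1) (n2 := ndB0q0) (pc := pcB1) (cut := cut_mm_101) (xt := Ext.none) (P1 := 536870912) (W1 := 536870912) (P2 := 0) (W2 := 536870912) (P3 := 780900216) (W3 := 37827925) (N0 := 3) (En := eng) (mo := mog) (C1 := cd0q1) (C2 := cd0q0) (C3 := pd1)
    rfl k0_mm_101

noncomputable def cut_mm_102 : Cut := Cut.of [[⟨3, 0, 0, 1449551462⟩], [⟨4, 0, 0, 2845415833⟩], [⟨0, 1, 0, 67108864⟩, ⟨1, 0, 0, 67108864⟩, ⟨2, 1, 0, 67108864⟩]]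

noncomputable def f_mm_102 : ℕ → ℕ → ℕ → ℕ → Bool := onCell 536870912 536870912 0 536870912 780900216 37827925
    (rowB 3 eng mog cd0q1 cd0q0 pd2 0 true false false .npp 1 0 2 (qsf 536870912 536870912 0 536870912 2) ndB0q1 ndB0q0 pcB2 cut_mm_102 Ext.none)

def k0_mm_102 : ∃ t, chk3 f_mm_102 t 1 1 1 = true :=
  ⟨(l 14), by decide +kernel⟩

theorem c_mm_102 : CertB 536870912 536870912 0 536870912 780900216 37827925 3 eng mog cd0q1 cd0q0 pd2 true false false .npp 1 0 2
    ndB0q1 ndB0q0 pcB2 cut_mm_102 Ext.none :=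
  certB0 (fam := true) (s1 := false) (s2 := false) (a := 1) (b := 0) (c := 2) (cn := .npp) (n1 := ndB0q1) (n2 := ndB0q0) (pc := pcB2) (cut := cut_mm_102) (xt := Ext.none) (P1 := 536870912) (W1 := 536870912) (P2 := 0) (W2 := 536870912) (P3 := 780900216) (W3 := 37827925) (N0 := 3) (En := eng) (mo := mog) (C1 := cd0q1) (C2 := cd0q0) (C3 := pd2)
    rfl k0_mm_102

noncomputable def cut_mm_112 : Cut := Cut.of [[⟨3, 0, 0, 1449551462⟩], [⟨4, 0, 0, 2845415833⟩]]

noncomputable def f_mm_112 : ℕ → ℕ → ℕ → ℕ → Bool := onCell 536870912 536870912 536870912 536870912 780900216 37827925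
    (rowB 3 eng mog cd0q1 cd0q1 pd2 0 true false false .dn 1 1 2 (qsf 536870912 536870912 536870912 536870912 2) ndB0q1 ndB0q1 pcB2 cut_mm_112 Ext.none)

def k0_mm_112 : ∃ t, chk3 f_mm_112 t 1 1 1 = true :=
  ⟨(l 4), by decide +kernel⟩

theorem c_mm_112 : CertB 536870912 536870912 536870912 536870912 780900216 37827925 3 eng mog cd0q1 cd0q1 pd2 true false false .dn 1 1 2
    ndB0q1 ndB0q1 pcB2 cut_mm_112 Ext.none :=
  certB0 (fam := true) (s1 := false) (s2 := false) (a := 1) (b := 1) (c := 2) (cn := .dn) (n1 := ndB0q1) (n2 := ndB0q1) (pc := pcB2) (cut := cut_mm_112) (xt := Ext.none) (P1 := 536870912) (W1 := 536870912) (P2 := 536870912) (W2 := 536870912) (P3 := 780900216) (W3 := 37827925) (N0 := 3) (En := eng) (mo := mog) (C1 := cd0q1) (C2 := cd0q1) (C3 := pd2)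
    rfl k0_mm_112

noncomputable def cut_mm_113 : Cut := Cut.of [[⟨3, 0, 0, 1449551462⟩], [⟨4, 0, 0, 2845415833⟩]]

noncomputable def f_mm_113 : ℕ → ℕ → ℕ → ℕ → Bool := onCell 536870912 536870912 536870912 536870912 780900216 37827925
    (rowB 3 eng mog cd0q1 cd0q1 pd3 0 true false false .nn 1 1 3 (qsf 536870912 536870912 536870912 536870912 3) ndB0q1 ndB0q1 pcB3 cut_mm_113 Ext.none)

def k0_mm_113 : ∃ t, chk3 f_mm_113 t 1 1 1 = true :=
  ⟨(l 4), by decide +kernel⟩

theorem c_mm_113 : CertB 536870912 536870912 536870912 536870912 780900216 37827925 3 eng mog cd0q1 cd0q1 pd3 true false false .nn 1 1 3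
    ndB0q1 ndB0q1 pcB3 cut_mm_113 Ext.none :=
  certB0 (fam := true) (s1 := false) (s2 := false) (a := 1) (b := 1) (c := 3) (cn := .nn) (n1 := ndB0q1) (n2 := ndB0q1) (pc := pcB3) (cut := cut_mm_113) (xt := Ext.none) (P1 := 536870912) (W1 := 536870912) (P2 := 536870912) (W2 := 536870912) (P3 := 780900216) (W3 := 37827925) (N0 := 3) (En := eng) (mo := mog) (C1 := cd0q1) (C2 := cd0q1) (C3 := pd3)
    rfl k0_mm_113

noncomputable def cut_mm_123 : Cut := Cut.of [[⟨3, 0, 0, 1449551462⟩], [⟨4, 0, 0, 2845415833⟩]]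

noncomputable def f_mm_123 : ℕ → ℕ → ℕ → ℕ → Bool := onCell 536870912 536870912 0 536870912 780900216 37827925
    (rowB 3 eng mog cd0q1 cd0q2 pd3 0 true false false .npn 1 2 3 (qsf 536870912 536870912 0 536870912 3) ndB0q1 ndB0q2 pcB3 cut_mm_123 Ext.none)

def k0_mm_123 : ∃ t, chk3 f_mm_123 t 1 1 1 = true :=
  ⟨(a (l 5) (l 4)), by decide +kernel⟩

theorem c_mm_123 : CertB 536870912 536870912 0 536870912 780900216 37827925 3 eng mog cd0q1 cd0q2 pd3 true false false .npn 1 2 3
    ndB0q1 ndB0q2 pcB3 cut_mm_123 Ext.none :=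
  certB0 (fam := true) (s1 := false) (s2 := false) (a := 1) (b := 2) (c := 3) (cn := .npn) (n1 := ndB0q1) (n2 := ndB0q2) (pc := pcB3) (cut := cut_mm_123) (xt := Ext.none) (P1 := 536870912) (W1 := 536870912) (P2 := 0) (W2 := 536870912) (P3 := 780900216) (W3 := 37827925) (N0 := 3) (En := eng) (mo := mog) (C1 := cd0q1) (C2 := cd0q2) (C3 := pd3)
    rfl k0_mm_123

noncomputable def cut_mm_202 : Cut := Cut.of [[⟨3, 0, 0, 1449551462⟩], [⟨4, 0, 0, 2845415833⟩], [⟨0, 1, 0, 67108864⟩, ⟨1, 0, 0, 67108864⟩, ⟨2, 1, 0, 67108864⟩]]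

noncomputable def f_mm_202 : ℕ → ℕ → ℕ → ℕ → Bool := onCell 0 536870912 0 536870912 780900216 37827925
    (rowB 3 eng mog cd0q2 cd0q0 pd2 0 true false false .pp 2 0 2 (qsf 0 536870912 0 536870912 2) ndB0q2 ndB0q0 pcB2 cut_mm_202 Ext.none)

def k0_mm_202 : ∃ t, chk3 f_mm_202 t 2 2 1 = true :=
  ⟨(b (a (b (a (a (b (l 16393912) (l 16475304)) (b (b (l 16399320) (l 16408576)) (l 16422512))) (b (b (a (l 16411760) (l 16425016)) (l 16429368)) (a (l 16435952) (l 16451112)))) (b (a (a (l 16446536) (l 16437304)) (b (l 16456080) (l 16462848))) (a (a (l 16439488) (l 16452048)) (a (l 16466424) (l 16482952))))) (b (b (a (b (a (l 16438848) (l 16454184)) (a (l 16452528) (l 16470504))) (b (a (l 16471632) (a (l 16486320) (l 16496696))) (a (b (l 16486440) (l 16494376)) (a (l 16506096) (l 16516760))))) (a (a (l 16467808) (l 16486936)) (a (b (l 16503296) (l 16514192)) (b (a (l 16521056) (b (l 16530024) (l 16536560))) (l 16559952))))) (b (a (a (b (l 16481536) (l 16488976)) (b (l 16501568) (l 16509800))) (a (b (l 16524360)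 (a (l 16527104) (l 16539600))) (b (l 16591720) (a (l 16531800) (b (l 16563976) (l 16568880)))))) (a (b (a (l 16496984) (l 16518048)) (a (l 16506544) (l 16527880))) (a (b (l 16542048) (l 16540320)) (b (a (l 16561856) (b (l 16573616) (l 16578392))) (a (l 16572088) (l 14)))))))) (a (b (b (a (b (l 16461616) (l 16474688)) (b (l 16490760) (l 16504240))) (a (c (l 16495336) (l 16498088)) (a (l 16517776) (l 16440688)))) (b (a (b (l 16518200) (l 16532352)) (b (l 16590768) (a (l 16554280) (l 16572024)))) (a (c (l 16572008) (l 16493272)) (a (l 16575512) (l 16593472))))) (b (a (a (b (b (l 16518056) (l 16531888)) (b (l 16547072) (l 16562368))) (b (b (l 16539632) (l 16553672)) (b (l 16569104) (l 16584648)))) (b (a (b (l 16585040) (l 16620224)) (b (a (l 16584184) (l 14)) (l 14))) (a (b (l 16635816) (l 14)) (l 14)))) (a (b (b (a (l 16577496) (l 16600008)) (a (l 16592256) (l 14))) (a (a (l 16608560) (l 14)) (l 14))) (l 14))))), by decide +kernel⟩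

def k1_mm_202 : ∃ t, chk3 f_mm_202 t 3 2 1 = true :=
  ⟨(b (a (b (a (b (b (a (a (l 16528136) (b (l 16512360) (l 16523024))) (a (b (l 16523208) (l 16533992)) (b (a (l 16531744) (l 16537704)) (a (l 16542600) (l 16548616))))) (a (a (l 16523520) (b (l 16533320) (l 16543200))) (a (b (l 16544432) (l 16554504)) (b (a (l 16553152) (l 16559224)) (a (l 16563360) (l 16569512)))))) (b (b (a (a (l 16541504) (l 16552672)) (a (l 16564160) (a (l 16573160) (l 14)))) (a (a (l 16549184) (a (l 16558464) (l 16564480))) (a (a (l 16570400) (l 16576392)) (l 14)))) (a (a (l 16558384) (b (l 16568512) (l 16574696))) (a (b (a (l 16578400) (l 14)) (l 14)) (l 14))))) (a (a (b (b (a (b (l 16564840) (l 16554824)) (b (a (l 16548624) (l 16551864)) (l 14))) (l 14)) (l 14)) (l 14)) (l 14))) (a (b (a (b (a (l 16569816) (l 16580968)) (a (l 16580408) (l 14))) (l 14)) (l 14)) (l 14))) (l 14)) (l 14)), by decide +kernel⟩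

def k2_mm_202 : ∃ t, chk3 f_mm_202 t 1 3 1 = true :=
  ⟨(a (a (a (b (a (b (b (l 16574552) (l 16601752)) (b (l 16625696) (l 16667840))) (b (b (l 16588344) (l 16657920)) (b (l 16692912) (l 14)))) (l 2)) (b (b (b (b (l 16627120) (l 16652048)) (c (l 16682048) (l 16685536))) (l 14)) (l 2))) (l 14)) (l 14)), by decide +kernel⟩

theorem s3_mm_202 : ∃ t, chk3 f_mm_202 t 1 2 1 = true := ex3_a k0_mm_202 k1_mm_202

theorem s4_mm_202 : ∃ t, chk3 f_mm_202 t 1 1 1 = true := ex3_b s3_mm_202 k2_mm_202

theorem c_mm_202 : CertB 0 536870912 0 536870912 780900216 37827925 3 eng mog cd0q2 cd0q0 pd2 true false false .pp 2 0 2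
    ndB0q2 ndB0q0 pcB2 cut_mm_202 Ext.none :=
  certB0 (fam := true) (s1 := false) (s2 := false) (a := 2) (b := 0) (c := 2) (cn := .pp) (n1 := ndB0q2) (n2 := ndB0q0) (pc := pcB2) (cut := cut_mm_202) (xt := Ext.none) (P1 := 0) (W1 := 536870912) (P2 := 0) (W2 := 536870912) (P3 := 780900216) (W3 := 37827925) (N0 := 3) (En := eng) (mo := mog) (C1 := cd0q2) (C2 := cd0q0) (C3 := pd2)
    rfl s4_mm_202

noncomputable def cut_mm_203 : Cut := Cut.of [[⟨3, 0, 0, 1449551462⟩], [⟨4, 0, 0, 2845415833⟩]]

noncomputable def f_mm_203 : ℕ → ℕ → ℕ → ℕ → Bool := onCell 0 536870912 1610612736 536870912 780900216 37827925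
    (rowB 3 eng mog cd0q2 cd0q0 pd3 1 true false false .up 2 0 3 (qsf 0 536870912 0 536870912 3) ndB0q2 ndB0q0 pcB3 cut_mm_203 Ext.none)

def k0_mm_203 : ∃ t, chk3 f_mm_203 t 1 1 1 = true :=
  ⟨(a (b (b (b (a (a (a (b (b (l 16631680) (l 16646464)) (l 14)) (l 14)) (l 14)) (l 14)) (l 14)) (l 14)) (l 2)) (l 14)), by decide +kernel⟩

theorem c_mm_203 : CertB 0 536870912 0 536870912 780900216 37827925 3 eng mog cd0q2 cd0q0 pd3 true false false .up 2 0 3
    ndB0q2 ndB0q0 pcB3 cut_mm_203 Ext.none :=
  certB1 (fam := true) (s1 := false) (s2 := false) (a := 2) (b := 0) (c := 3) (cn := .up) (n1 := ndB0q2) (n2 := ndB0q0) (pc := pcB3) (cut := cut_mm_203) (xt := Ext.none) (P1 := 0) (W1 := 536870912) (P2 := 0) (W2 := 536870912) (P3 := 780900216) (W3 := 37827925) (N0 := 3) (En := eng) (mo := mog) (C1 := cd0q2) (C2 := cd0q0) (C3 := pd3)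
    rfl (fun _ => rfl) k0_mm_203

noncomputable def cut_mm_213 : Cut := Cut.of [[⟨3, 0, 0, 1449551462⟩], [⟨4, 0, 0, 2845415833⟩]]

noncomputable def f_mm_213 : ℕ → ℕ → ℕ → ℕ → Bool := onCell 0 536870912 536870912 536870912 780900216 37827925
    (rowB 3 eng mog cd0q2 cd0q1 pd3 0 true false false .pnn 2 1 3 (qsf 0 536870912 536870912 536870912 3) ndB0q2 ndB0q1 pcB3 cut_mm_213 Ext.none)

def k0_mm_213 : ∃ t, chk3 f_mm_213 t 1 1 1 = true :=
  ⟨(a (l 14) (l 4)), by decide +kernel⟩

theorem c_mm_213 : CertB 0 536870912 536870912 536870912 780900216 37827925 3 eng mog cd0q2 cd0q1 pd3 true false false .pnn 2 1 3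
    ndB0q2 ndB0q1 pcB3 cut_mm_213 Ext.none :=
  certB0 (fam := true) (s1 := false) (s2 := false) (a := 2) (b := 1) (c := 3) (cn := .pnn) (n1 := ndB0q2) (n2 := ndB0q1) (pc := pcB3) (cut := cut_mm_213) (xt := Ext.none) (P1 := 0) (W1 := 536870912) (P2 := 536870912) (W2 := 536870912) (P3 := 780900216) (W3 := 37827925) (N0 := 3) (En := eng) (mo := mog) (C1 := cd0q2) (C2 := cd0q1) (C3 := pd3)
    rfl k0_mm_213

end Pool.Agent.Strip051.G.I72727_7625.Tab.C.BA00

namespace Pool.Agent.Strip051.G.I72727_7625.Tab.C.BA01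

open Pool.Agent.Strip051.PB Pool.Agent.Strip051.PB.T
open Pool.Agent.Strip051.G.I72727_7625.Tab

noncomputable def f_pp_001 : ℕ → ℕ → ℕ → ℕ → Bool := onCell 0 536870912 0 536870912 780900216 37827925
    (rowB 3 eng mog cd0q0 cd1q0 pd1 0 true true true .up 0 0 1 (qsf 0 536870912 0 536870912 1) ndB0q0 ndB1q0 pcB1 Cut.none Ext.none)

def k0_pp_001 : ∃ t, chk3 f_pp_001 t 1 1 1 = true :=
  ⟨(l 4), by decide +kernel⟩

theorem c_pp_001 : CertB 0 536870912 0 536870912 780900216 37827925 3 eng mog cd0q0 cd1q0 pd1 true true true .up 0 0 1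
    ndB0q0 ndB1q0 pcB1 Cut.none Ext.none :=
  certB0 (fam := true) (s1 := true) (s2 := true) (a := 0) (b := 0) (c := 1) (cn := .up) (n1 := ndB0q0) (n2 := ndB1q0) (pc := pcB1) (cut := Cut.none) (xt := Ext.none) (P1 := 0) (W1 := 536870912) (P2 := 0) (W2 := 536870912) (P3 := 780900216) (W3 := 37827925) (N0 := 3) (En := eng) (mo := mog) (C1 := cd0q0) (C2 := cd1q0) (C3 := pd1)
    rfl k0_pp_001

noncomputable def f_pp_011 : ℕ → ℕ → ℕ → ℕ → Bool := onCell 0 536870912 536870912 536870912 780900216 37827925
    (rowB 3 eng mog cd0q0 cd1q1 pd1 0 true true true .pnn 0 1 1 (qsf 0 536870912 536870912 536870912 1) ndB0q0 ndB1q1 pcB1 Cut.none Ext.none)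

def k0_pp_011 : ∃ t, chk3 f_pp_011 t 1 1 1 = true :=
  ⟨(l 4), by decide +kernel⟩

theorem c_pp_011 : CertB 0 536870912 536870912 536870912 780900216 37827925 3 eng mog cd0q0 cd1q1 pd1 true true true .pnn 0 1 1
    ndB0q0 ndB1q1 pcB1 Cut.none Ext.none :=
  certB0 (fam := true) (s1 := true) (s2 := true) (a := 0) (b := 1) (c := 1) (cn := .pnn) (n1 := ndB0q0) (n2 := ndB1q1) (pc := pcB1) (cut := Cut.none) (xt := Ext.none) (P1 := 0) (W1 := 536870912) (P2 := 536870912) (W2 := 536870912) (P3 := 780900216) (W3 := 37827925) (N0 := 3) (En := eng) (mo := mog) (C1 := cd0q0) (C2 := cd1q1) (C3 := pd1)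
    rfl k0_pp_011

noncomputable def f_pp_012 : ℕ → ℕ → ℕ → ℕ → Bool := onCell 0 536870912 536870912 536870912 780900216 37827925
    (rowB 3 eng mog cd0q0 cd1q1 pd2 0 true true true .pnp 0 1 2 (qsf 0 536870912 536870912 536870912 2) ndB0q0 ndB1q1 pcB2 Cut.none Ext.none)

def k0_pp_012 : ∃ t, chk3 f_pp_012 t 1 1 1 = true :=
  ⟨(l 4), by decide +kernel⟩

theorem c_pp_012 : CertB 0 536870912 536870912 536870912 780900216 37827925 3 eng mog cd0q0 cd1q1 pd2 true true true .pnp 0 1 2
    ndB0q0 ndB1q1 pcB2 Cut.none Ext.none :=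
  certB0 (fam := true) (s1 := true) (s2 := true) (a := 0) (b := 1) (c := 2) (cn := .pnp) (n1 := ndB0q0) (n2 := ndB1q1) (pc := pcB2) (cut := Cut.none) (xt := Ext.none) (P1 := 0) (W1 := 536870912) (P2 := 536870912) (W2 := 536870912) (P3 := 780900216) (W3 := 37827925) (N0 := 3) (En := eng) (mo := mog) (C1 := cd0q0) (C2 := cd1q1) (C3 := pd2)
    rfl k0_pp_012

noncomputable def cut_pp_022_a : Cut := Cut.of [[⟨0, 0, 0, 67108864⟩, ⟨1, 1, 0, 67108864⟩, ⟨2, 1, 0, 67108864⟩]]

noncomputable def f_pp_022_a : ℕ → ℕ → ℕ → ℕ → Bool := onCell 0 536870912 0 536870912 780900216 37827925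
    (rowB 3 eng mog cd0q0 cd1q2a pd2 0 true true true .pp 0 2 2 (qsf 0 536870912 0 536870912 2) ndB0q0 ndB1q2a pcB2 cut_pp_022_a Ext.none)

def k0_pp_022_a : ∃ t, chk3 f_pp_022_a t 4 2 1 = true :=
  ⟨(a (b (a (b (a (l 16415144) (l 16425840)) (a (b (l 16429672) (l 16442216)) (l 16448184))) (b (a (l 16435992) (l 16445528)) (a (l 16458872) (l 16426880)))) (a (b (a (a (l 16438808) (l 16468904)) (l 16500472)) (a (b (l 16467912) (a (l 16502128) (l 16512120))) (b (l 16506768) (b (l 16521296) (l 16510144))))) (a (b (l 16428224) (b (l 16499232) (l 16573320))) (b (l 16501808) (b (l 16510728) (l 16554296)))))) (b (a (b (l 16477976) (a (l 16435576) (l 16485240))) (b (a (l 16468960) (l 16478728)) (a (l 16493760) (l 16503832)))) (a (b (a (l 16532368) (l 16540912)) (a (b (l 16521288) (l 16565608)) (b (l 16551608) (l 16596784)))) (b (a (b (l 16518448) (l 16538360)) (b (l 16528696) (l 16548744))) (a (b (l 16518816) (l 16606664)) (b (b (l 16565296) (l 16577208)) (b (l 16589752) (l 16571448)))))))), by decide +kernel⟩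

def k1_pp_022_a : ∃ t, chk3 f_pp_022_a t 5 2 1 = true :=
  ⟨(a (b (a (a (b (l 16490456) (l 16515840)) (b (l 16504504) (l 16530160))) (b (a (l 16519880) (l 16535312)) (a (l 16482888) (l 16498568)))) (a (b (a (b (l 16540864) (l 16561008)) (b (l 16555320) (l 16533576))) (a (b (b (l 16577664) (l 16589664)) (b (l 16581336) (a (l 16612224) (l 16619088)))) (b (c (l 16556648) (l 16556208)) (a (b (l 16613168) (l 16626536)) (b (l 16621032) (l 16634448)))))) (b (a (l 16602368) (l 16618264)) (a (b (c (l 16572400) (l 16572400)) (l 16668728)) (b (l 16630384) (a (l 16652064) (l 16660184))))))) (b (a (b (l 16558032) (a (l 16493088) (l 16592080))) (b (l 16587520) (a (l 16606928) (l 16621864)))) (a (b (a (l 16654912) (l 16670184)) (b (a (l 16646296) (l 16661768)) (a (a (l 16668248) (l 16676208)) (c (l 16708688) (l 16709144))))) (b (a (b (l 16590832) (l 16653496)) (b (l 16647776) (l 16668560))) (a (b (l 16697928) (a (l 16720408) (l 16733288))) (b (l 16723568) (b (l 16732496) (a (l 16742240) (l 16739944))))))))), by decide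 +kernel⟩

def k2_pp_022_a : ∃ t, chk3 f_pp_022_a t 8 6 1 = true :=
  ⟨(b (a (a (b (a (l 16516312) (l 16500336)) (b (a (l 16537368) (l 16547800)) (a (l 16549424) (l 16559920)))) (b (a (l 16507592) (l 16519672)) (a (b (l 16557904) (l 16570136)) (b (l 16567640) (l 16580024))))) (b (a (a (l 16560136) (l 16589136)) (b (l 16572112) (l 16584472))) (b (a (l 16581488) (a (l 16593952) (l 16600952))) (a (l 16594144) (a (l 16607272) (l 16615008)))))) (a (b (b (a (a (l 16561912) (l 16572496)) (a (l 16582816) (l 16592824))) (a (a (l 16574840) (l 16585512)) (a (l 16595912) (l 16606064)))) (a (a (b (l 16588176) (l 16601904)) (b (l 16598952) (l 16612800))) (b (a (l 16609464) (l 16619712)) (a (l 16623432) (l 16633808))))) (b (a (b (l 16607240) (a (l 16594936) (l 16625432))) (b (a (l 16620720) (l 16629112)) (a (l 16634568) (l 16643296)))) (a (b (a (l 16608744) (l 16618456)) (a (l 16622960) (l 16632856))) (b (a (l 16648816) (l 16657816)) (a (l 16663424) (l 16672712))))))), by decide +kernel⟩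

def k3_pp_022_a : ∃ t, chk3 f_pp_022_a t 9 6 1 = true :=
  ⟨(b (a (b (a (l 16590680) (l 16601952)) (a (b (l 16610704) (l 16625232)) (b (l 16622808) (l 16637880)))) (b (a (a (l 16630960) (l 16636376)) (c (l 16645240) (l 16644568))) (b (a (a (l 16610568) (l 16637360)) (b (l 16642280) (l 16660752))) (a (l 16650112) (a (l 16659312) (l 16665592)))))) (b (a (a (b (a (l 16636640) (l 16643520)) (a (b (l 16647768) (l 16655200)) (l 16658008))) (b (l 16653392) (l 16667976))) (a (b (l 16666240) (a (l 16678344) (l 16685384))) (b (a (l 16675880) (l 16682472)) (a (l 16692536) (b (l 16695440) (l 16703392)))))) (a (a (b (a (l 16666408) (b (l 16669280) (l 16677304))) (a (l 16681608) (l 16679592))) (b (a (l 16679768) (l 16686544)) (a (b (l 16692000) (l 16700664)) (l 16703000)))) (a (b (a (l 16693424) (l 16700408)) (a (l 16709824) (l 16716736))) (b (a (l 16707488) (l 16714680)) (a (l 16723752) (b (l 16726680) (l 16746456)))))))), by decide +kernel⟩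

def k4_pp_022_a : ∃ t, chk3 f_pp_022_a t 8 14 1 = true :=
  ⟨(a (b (a (b (a (l 16636984) (l 16621800)) (a (a (l 16650712) (l 16635352)) (c (l 16665232) (l 16643088)))) (b (a (l 16636496) (b (l 16644608) (l 16651960))) (a (b (l 16649624) (l 16659328)) (c (l 16686520) (l 16685600))))) (a (b (a (a (l 6) (l 16676312)) (b (l 16679448) (a (l 16665976) (l 16671440)))) (a (l 6) (b (a (l 6) (l 16681944)) (l 6)))) (a (b (b (l 16669296) (a (l 16676840) (l 16682184))) (a (b (l 16687344) (l 6)) (b (l 16692672) (l 16713920)))) (b (b (l 16700840) (a (l 16687464) (l 16692680))) (b (c (l 16711312) (l 16710808)) (a (b (l 16705968) (l 16711416)) (b (l 16711176) (l 16716624)))))))) (b (a (b (a (b (l 16654840) (l 16662264)) (b (l 16664832) (l 16672336))) (a (b (l 16670560) (l 16680248)) (b (l 16680672) (l 16669384)))) (b (a (l 16678424) (l 16687944)) (a (b (l 16669592) (l 16679272)) (l 16715592)))) (a (a (a (b (b (l 16687632) (l 16697840)) (b (l 16708312) (b (l 16716328) (l 16721768)))) (b (b (l 16692736) (l 16702944))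 (b (l 16702928) (c (l 16713792) (l 16713536))))) (b (b (b (l 16697776) (l 16702808)) (c (l 16689720) (l 16689352))) (b (a (l 16707968) (l 16712960)) (b (l 16728968) (l 16734392))))) (b (a (c (l 16720696) (l 16720400)) (b (l 16719856) (l 16730040))) (a (b (a (l 16717888) (l 16733256)) (a (l 16739096) (l 16743968))) (b (a (l 16738088) (l 16742864)) (a (l 16748032) (b (l 16748952) (l 16753600))))))))), by decide +kernel⟩

def k5_pp_022_a : ∃ t, chk3 f_pp_022_a t 8 15 1 = true :=
  ⟨(a (b (a (l 6) (b (b (a (l 6) (a (c (l 16730376) (l 16730064)) (b (l 16722128) (l 16717224)))) (a (l 6) (a (l 6) (b (a (l 16732064) (l 16734648)) (b (l 16737640) (l 6)))))) (l 6))) (l 6)) (b (a (b (a (b (a (b (l 16727272) (l 16722360)) (b (l 16721872) (l 16727448))) (b (c (l 16741104) (l 16740992)) (a (a (l 16732448) (l 16735000)) (l 16749288)))) (b (a (l 16740184) (b (l 16742368) (l 16747936))) (a (b (l 16748600) (l 16754312)) (b (l 16753568) (c (l 16758048) (l 16758016)))))) (a (b (a (b (l 16751800) (l 6)) (b (c (l 16755072)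 (l 16755072)) (a (l 16759464) (b (l 16759896) (l 16762400))))) (a (l 6) (a (l 6) (l 4)))) (b (a (a (b (l 16758240) (c (l 16763304) (l 16763288))) (b (l 16760032) (l 4))) (a (b (l 16762168) (l 4)) (l 4))) (l 4)))) (b (a (b (a (b (l 16747296) (l 16752376)) (b (l 16751208) (c (l 16755792) (l 16755736)))) (a (b (c (l 16756912) (l 16756864)) (c (l 16762248) (l 16762248))) (b (l 25467779239) (l 4)))) (b (a (b (l 16754672) (l 4)) (l 4)) (l 4))) (l 4))) (l 4))), by decide +kernel⟩

def k6_pp_022_a : ∃ t, chk3 f_pp_022_a t 9 7 1 = true :=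
  ⟨(b (a (b (a (b (a (l 16697168) (l 16705992)) (a (l 16719752) (b (l 16718688) (l 16728496)))) (b (a (b (l 16709712) (l 16718496)) (b (l 16716272) (l 16725624))) (a (b (l 16727360) (l 16735624)) (b (l 16744936) (c (l 16753200) (l 16753128)))))) (a (b (a (b (l 16729320) (l 16739208)) (b (l 16737200) (a (l 16743736) (l 16752536)))) (a (b (a (l 16745824) (l 16751888)) (a (b (l 16752560) (l 4)) (l 4))) (b (a (c (l 16758560) (l 16758496)) (l 4)) (l 4)))) (b (a (b (a (l 16741952) (l 16756200)) (a (l 16761936) (l 4))) (b (a (l 16760496) (l 4)) (l 4))) (l 4)))) (b (a (b (a (l 16738152) (b (l 16729904) (l 34594572279))) (a (a (b (l 16750136) (b (l 16756848) (l 4))) (b (l 16754168) (l 4))) (l 4))) (b (b (a (l 16748128) (l 4)) (l 4)) (l 4))) (l 4))) (l 4)), by decide +kernel⟩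

def k7_pp_022_a : ∃ t, chk3 f_pp_022_a t 5 3 1 = true :=
  ⟨(b (a (b (a (b (a (a (b (l 16626112) (l 16619656)) (b (l 16633048) (l 16626672))) (a (b (l 16640560) (l 16629032)) (l 16676944))) (a (a (c (l 16670888) (l 16669344)) (b (c (l 16642256) (l 16642016)) (l 16679456))) (b (a (l 16670768) (l 16678880)) (a (l 16687184) (l 16695344))))) (b (b (a (l 16660744) (l 16677144)) (a (b (l 16671784) (l 16679384)) (a (l 16687960) (l 16696208)))) (a (b (a (l 16687120) (l 16695392)) (a (l 16703624) (l 16711928))) (b (a (l 16703688) (l 16711976)) (a (b (l 16715992) (l 16724104)) (b (l 16723888) (l 16731152))))))) (a (b (a (b (a (l 16689256) (l 16696520)) (a (c (l 16706856) (l 16706984)) (c (l 16714200) (l 16714352)))) (b (a (l 16704320) (c (l 16712480) (l 16712616))) (a (b (l 16717592) (l 16725360)) (b (l 16725040) (l 16733432))))) (b (b (a (a (l 16718168) (l 16725648)) (a (l 16736504) (l 4))) (a (a (a (l 16724016) (l 16727800)) (a (l 16731976) (l 16736528))) (l 4))) (a (a (b (l 16734864) (l 4)) (l 4)) (l 4))))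 (b (a (b (a (b (l 16716448) (l 16724832)) (b (l 16724480) (l 16732152))) (a (b (l 16732864) (l 4)) (l 4))) (b (a (b (l 16731576) (l 4)) (l 4)) (l 4))) (l 4)))) (b (a (b (a (b (l 16714392) (a (l 16704440) (l 16712592))) (b (a (l 16705392) (l 16713176)) (a (l 16741224) (l 16743024)))) (a (b (a (b (l 16716176) (l 16723824)) (b (l 16723888) (l 4))) (a (b (l 16730880) (l 4)) (l 4))) (l 4))) (b (a (b (a (l 16741520) (l 16740584)) (l 4)) (l 4)) (l 4))) (l 4))) (l 4)), by decide +kernel⟩

def k8_pp_022_a : ∃ t, chk3 f_pp_022_a t 3 1 1 = true :=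
  ⟨(b (a (a (b (a (b (l 16664512) (c (l 16690936) (l 16687576))) (a (b (l 16639504) (l 16709040)) (b (l 16653624) (l 16728720)))) (b (b (a (a (l 16662880) (l 16678136)) (a (l 16693216) (l 16739224))) (a (a (l 16683680) (l 16719912)) (b (a (l 16708472) (a (l 16719456) (l 16726472))) (a (l 16340942007) (a (l 16740560) (l 4)))))) (a (a (b (c (l 16738392) (l 16733744)) (b (a (l 16743480) (l 34057672439)) (l 4))) (b (b (l 16739744) (a (l 16745400) (l 42647607751))) (l 4))) (b (a (b (a (l 16748072) (l 56606253591)) (l 4)) (l 4)) (l 4))))) (b (b (a (c (l 16693224) (l 16695296)) (a (l 16733168) (l 2))) (b (a (c (l 16713728) (l 16715368)) (a (l 16733104) (l 2))) (a (a (l 16703240) (l 16737160)) (a (a (l 16746544) (b (l 16727400) (l 50163816711))) (l 2))))) (b (a (a (a (b (l 16718264) (b (l 48553197655) (l 4))) (b (l 31910209143) (l 4))) (b (b (a (l 16726608) (l 16743384)) (a (l 59827489847) (l 4))) (l 4))) (b (a (b (a (l 68417427607) (l 4)) (l 4)) (l 4)) (l 4))) (l 4)))) (b (l 2) (l 4))) (a (l 4) (l 4))), by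 decide +kernel⟩

theorem s9_pp_022_a : ∃ t, chk3 f_pp_022_a t 8 7 1 = true := ex3_b k4_pp_022_a k5_pp_022_a

theorem s10_pp_022_a : ∃ t, chk3 f_pp_022_a t 4 7 1 = true := ex3_a s9_pp_022_a k6_pp_022_a

theorem s11_pp_022_a : ∃ t, chk3 f_pp_022_a t 4 6 1 = true := ex3_a k2_pp_022_a k3_pp_022_a

theorem s12_pp_022_a : ∃ t, chk3 f_pp_022_a t 4 3 1 = true := ex3_b s11_pp_022_a s10_pp_022_a

theorem s13_pp_022_a : ∃ t, chk3 f_pp_022_a t 2 3 1 = true := ex3_a s12_pp_022_a k7_pp_022_a

theorem s14_pp_022_a : ∃ t, chk3 f_pp_022_a t 2 2 1 = true := ex3_a k0_pp_022_a k1_pp_022_a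

theorem s15_pp_022_a : ∃ t, chk3 f_pp_022_a t 2 1 1 = true := ex3_b s14_pp_022_a s13_pp_022_a

theorem s16_pp_022_a : ∃ t, chk3 f_pp_022_a t 1 1 1 = true := ex3_a s15_pp_022_a k8_pp_022_a

theorem c_pp_022_a : CertB 0 536870912 0 536870912 780900216 37827925 3 eng mog cd0q0 cd1q2a pd2 true true true .pp 0 2 2
    ndB0q0 ndB1q2a pcB2 cut_pp_022_a Ext.none :=
  certB0 (fam := true) (s1 := true) (s2 := true) (a := 0) (b := 2) (c := 2) (cn := .pp) (n1 := ndB0q0) (n2 := ndB1q2a) (pc := pcB2) (cut := cut_pp_022_a) (xt := Ext.none) (P1 := 0) (W1 := 536870912) (P2 := 0) (W2 := 536870912) (P3 := 780900216) (W3 := 37827925) (N0 := 3) (En := eng) (mo := mog) (C1 := cd0q0) (C2 := cd1q2a) (C3 := pd2)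
    rfl s16_pp_022_a

noncomputable def cut_pp_022_b : Cut := Cut.of [[⟨0, 0, 0, 67108864⟩, ⟨1, 1, 0, 67108864⟩, ⟨2, 1, 0, 67108864⟩]]

noncomputable def f_pp_022_b : ℕ → ℕ → ℕ → ℕ → Bool := onCell 1073741824 536870912 1239849684 370763052 780900216 37827925
    (rowB 3 eng mog cd0q0 cd1q2b pd2 2 true true true .pp 0 2 2 (qsf 0 536870912 1239849684 370763052 2) ndB0q0 ndB1q2b pcB2 cut_pp_022_b Ext.none)

def k0_pp_022_b : ∃ t, chk3 f_pp_022_b t 1 1 1 = true :=
  ⟨(a (a (l 1) (b (b (a (b (a (b (l 16409248) (l 1)) (b (a (l 16373728) (l 16384800)) (l 16308776))) (l 1)) (b (a (a (a (l 16400856) (l 16364552)) (l 16435496)) (b (l 16459320) (l 16353752))) (a (a (l 16221240) (l 16298480)) (b (l 16287776) (l 16219552))))) (a (l 1) (b (a (l 1) (b (l 16149040) (l 1))) (l 1)))) (l 1))) (a (b (b (a (b (a (a (l 16440752) (l 16471320)) (b (l 16520032) (l 16393504))) (a (a (l 16271648) (l 16282944)) (a (l 16294984) (l 16307080)))) (b (b (a (a (l 16478544) (l 16494712)) (a (l 16510616) (l 16526184))) (a (l 16421584)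 (l 16495848))) (a (b (l 16357464) (l 16295856)) (b (l 16390328) (l 16326472))))) (a (b (a (l 16248200) (l 16173440)) (a (l 1) (l 16037336))) (b (a (l 16202648) (l 16232792)) (a (l 16073616) (l 16108248))))) (a (l 1) (b (b (a (l 15935712) (l 15977768)) (l 15918616)) (l 1)))) (b (b (a (b (b (a (l 16549304) (l 16601136)) (a (l 16510456) (a (l 16514776) (l 16531472)))) (a (b (l 16427584) (l 16362776)) (b (l 16464200) (l 16402960)))) (b (a (a (l 16649600) (l 16670864)) (b (c (l 16638040) (l 16640528)) (l 16589960))) (a (b (l 16500696) (l 16442712)) (l 16572896)))) (a (b (a (l 16309096) (l 16390624)) (a (l 16143064) (l 16182464))) (a (b (l 16393296) (l 16223728)) (b (l 16416200) (l 16269800))))) (a (b (b (a (l 16018488) (l 16058008)) (a (l 15886056) (l 15932568))) (a (l 1) (l 15728856))) (b (a (b (l 16099384) (l 15977648)) (b (l 16145352) (l 16023056))) (b (l 16085568) (l 15745776))))))), by decide +kernel⟩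

theorem c_pp_022_b : CertB 0 536870912 1239849684 370763052 780900216 37827925 3 eng mog cd0q0 cd1q2b pd2 true true true .pp 0 2 2
    ndB0q0 ndB1q2b pcB2 cut_pp_022_b Ext.none :=
  certB2 (fam := true) (s1 := true) (s2 := true) (a := 0) (b := 2) (c := 2) (cn := .pp) (n1 := ndB0q0) (n2 := ndB1q2b) (pc := pcB2) (cut := cut_pp_022_b) (xt := Ext.none) (P1 := 0) (W1 := 536870912) (P2 := 1239849684) (W2 := 370763052) (P3 := 780900216) (W3 := 37827925) (N0 := 3) (En := eng) (mo := mog) (C1 := cd0q0) (C2 := cd1q2b) (C3 := pd2)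
    rfl (fun _ => rfl) k0_pp_022_b

noncomputable def f_pp_023_a : ℕ → ℕ → ℕ → ℕ → Bool := onCell 1610612736 536870912 0 536870912 780900216 37827925
    (rowB 3 eng mog cd0q0 cd1q2a pd3 2 true true true .up 0 2 3 (qsf 0 536870912 0 536870912 3) ndB0q0 ndB1q2a pcB3 Cut.none Ext.none)

def k0_pp_023_a : ∃ t, chk3 f_pp_023_a t 1 1 1 = true :=
  ⟨(a (a (b (a (b (a (a (c (b (l 16689136) (b (l 16714752) (b (l 16747928) (a (l 51237559687) (l 52848203111))))) (b (l 16690712) (b (l 16715768) (b (l 16751600) (a (l 43184517351) (l 52848205671)))))) (b (c (l 16702744) (l 16703944)) (a (b (l 16724992) (b (l 52848176071) (l 4))) (b (l 16752336) (b (l 68954310455) (l 4)))))) (b (a (c (l 16757648) (l 16758528)) (b (l 16741880) (c (l 36205191351) (l 16765032)))) (b (b (a (c (l 16756656) (l 16757512)) (c (a (l 52848202535) (l 63048762647)) (a (l 16766752) (l 63048763879)))) (a (a (c (l 50163842919) (l 49090103591)) (b (l 50700722263) (l 4))) (l 4))) (l 4)))) (l 4)) (b (b (b (a (a (l 16767120) (a (l 16742096) (l 16769120)))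 (a (b (a (l 16750584) (l 16756608)) (a (b (l 16755920) (l 87207939319)) (b (l 88818556487) (l 4)))) (b (a (b (l 16760728) (l 90429173703)) (a (l 83986722871) (l 108145915623))) (l 4)))) (a (a (a (a (l 16767120) (l 44795152311)) (b (l 16747104) (b (l 62511893287) (l 4)))) (b (a (c (l 57143183015) (l 56606312183)) (b (l 87744805751) (l 4))) (l 4))) (l 4))) (l 4)) (l 4))) (l 4)) (b (a (b (l 4) (l 4)) (l 2)) (l 4))) (l 2)), by decide +kernel⟩

theorem c_pp_023_a : CertB 0 536870912 0 536870912 780900216 37827925 3 eng mog cd0q0 cd1q2a pd3 true true true .up 0 2 3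
    ndB0q0 ndB1q2a pcB3 Cut.none Ext.none :=
  certB2 (fam := true) (s1 := true) (s2 := true) (a := 0) (b := 2) (c := 3) (cn := .up) (n1 := ndB0q0) (n2 := ndB1q2a) (pc := pcB3) (cut := Cut.none) (xt := Ext.none) (P1 := 0) (W1 := 536870912) (P2 := 0) (W2 := 536870912) (P3 := 780900216) (W3 := 37827925) (N0 := 3) (En := eng) (mo := mog) (C1 := cd0q0) (C2 := cd1q2a) (C3 := pd3)
    rfl (fun _ => rfl) k0_pp_023_a

noncomputable def f_pp_023_b : ℕ → ℕ → ℕ → ℕ → Bool := onCell 1610612736 536870912 1239849684 370763052 780900216 37827925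
    (rowB 3 eng mog cd0q0 cd1q2b pd3 2 true true true .up 0 2 3 (qsf 0 536870912 1239849684 370763052 3) ndB0q0 ndB1q2b pcB3 Cut.none Ext.none)

def k0_pp_023_b : ∃ t, chk3 f_pp_023_b t 1 1 1 = true :=
  ⟨(a (b (a (b (a (b (a (a (b (l 16653320) (l 16607640)) (b (l 16667504) (l 16623672))) (b (c (a (l 16638608) (l 16693720)) (l 16740720)) (c (l 16645584) (l 16646704)))) (a (a (l 16574848) (l 16594416)) (b (a (l 16593624) (l 16609104)) (l 16428688)))) (b (b (a (c (a (l 16706512) (l 16740064)) (a (l 16707288) (l 16719664))) (a (c (b (l 16741016) (l 16722048)) (b (l 16741272) (l 16722400))) (b (a (l 16771088) (a (l 16754488) (l 80765514231))) (l 34057746103)))) (a (c (l 16672544) (l 16673272)) (a (c (l 16692672) (l 16692928)) (l 62511798727)))) (a (c (b (l 16588736) (l 16587584)) (l 16652096)) (a (b (l 16652136) (l 16609936)) (l 4))))) (a (b (a (l 16497904) (b (l 16504656) (l 16451720))) (a (l 16318912) (l 16368808))) (a (b (b (l 16541872) (l 16493576)) (l 16435528)) (l 4)))) (a (a (a (l 4) (l 4)) (l 4))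 (l 4))) (a (a (b (b (a (l 16194400) (l 16249984)) (a (l 16070984) (l 16125032))) (a (l 15891024) (l 16012256))) (a (a (b (l 16250840) (l 15988328)) (l 4)) (l 4))) (l 4))) (l 4)), by decide +kernel⟩

theorem c_pp_023_b : CertB 0 536870912 1239849684 370763052 780900216 37827925 3 eng mog cd0q0 cd1q2b pd3 true true true .up 0 2 3
    ndB0q0 ndB1q2b pcB3 Cut.none Ext.none :=
  certB2 (fam := true) (s1 := true) (s2 := true) (a := 0) (b := 2) (c := 3) (cn := .up) (n1 := ndB0q0) (n2 := ndB1q2b) (pc := pcB3) (cut := Cut.none) (xt := Ext.none) (P1 := 0) (W1 := 536870912) (P2 := 1239849684) (W2 := 370763052) (P3 := 780900216) (W3 := 37827925) (N0 := 3) (En := eng) (mo := mog) (C1 := cd0q0) (C2 := cd1q2b) (C3 := pd3)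
    rfl (fun _ => rfl) k0_pp_023_b

noncomputable def f_pp_033 : ℕ → ℕ → ℕ → ℕ → Bool := onCell 0 536870912 1610612736 536870912 780900216 37827925
    (rowB 3 eng mog cd0q0 cd1q3 pd3 1 true true true .pnn 0 3 3 (qsf 0 536870912 1610612736 536870912 3) ndB0q0 ndB1q3 pcB3 Cut.none Ext.none)

def k0_pp_033 : ∃ t, chk3 f_pp_033 t 1 1 1 = true :=
  ⟨(b (a (b (a (b (a (l 15805336) (l 16147896)) (a (l 15871880) (l 74120599095))) (b (l 1) (b (l 1) (l 4)))) (l 4)) (b (l 1) (a (l 4) (l 1)))) (l 4)), by decide +kernel⟩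

theorem c_pp_033 : CertB 0 536870912 1610612736 536870912 780900216 37827925 3 eng mog cd0q0 cd1q3 pd3 true true true .pnn 0 3 3
    ndB0q0 ndB1q3 pcB3 Cut.none Ext.none :=
  certB1 (fam := true) (s1 := true) (s2 := true) (a := 0) (b := 3) (c := 3) (cn := .pnn) (n1 := ndB0q0) (n2 := ndB1q3) (pc := pcB3) (cut := Cut.none) (xt := Ext.none) (P1 := 0) (W1 := 536870912) (P2 := 1610612736) (W2 := 536870912) (P3 := 780900216) (W3 := 37827925) (N0 := 3) (En := eng) (mo := mog) (C1 := cd0q0) (C2 := cd1q3) (C3 := pd3)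
    rfl (fun _ => rfl) k0_pp_033

noncomputable def f_pp_101 : ℕ → ℕ → ℕ → ℕ → Bool := onCell 536870912 536870912 0 536870912 780900216 37827925
    (rowB 3 eng mog cd0q1 cd1q0 pd1 0 true true true .npn 1 0 1 (qsf 536870912 536870912 0 536870912 1) ndB0q1 ndB1q0 pcB1 Cut.none Ext.none)

def k0_pp_101 : ∃ t, chk3 f_pp_101 t 1 1 1 = true :=
  ⟨(a (l 4) (l 5)), by decide +kernel⟩

theorem c_pp_101 : CertB 536870912 536870912 0 536870912 780900216 37827925 3 eng mog cd0q1 cd1q0 pd1 true true true .npn 1 0 1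
    ndB0q1 ndB1q0 pcB1 Cut.none Ext.none :=
  certB0 (fam := true) (s1 := true) (s2 := true) (a := 1) (b := 0) (c := 1) (cn := .npn) (n1 := ndB0q1) (n2 := ndB1q0) (pc := pcB1) (cut := Cut.none) (xt := Ext.none) (P1 := 536870912) (W1 := 536870912) (P2 := 0) (W2 := 536870912) (P3 := 780900216) (W3 := 37827925) (N0 := 3) (En := eng) (mo := mog) (C1 := cd0q1) (C2 := cd1q0) (C3 := pd1)
    rfl k0_pp_101

noncomputable def f_pp_102 : ℕ → ℕ → ℕ → ℕ → Bool := onCell 536870912 536870912 0 536870912 780900216 37827925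
    (rowB 3 eng mog cd0q1 cd1q0 pd2 0 true true true .npp 1 0 2 (qsf 536870912 536870912 0 536870912 2) ndB0q1 ndB1q0 pcB2 Cut.none Ext.none)

def k0_pp_102 : ∃ t, chk3 f_pp_102 t 1 1 1 = true :=
  ⟨(a (l 4) (l 5)), by decide +kernel⟩

theorem c_pp_102 : CertB 536870912 536870912 0 536870912 780900216 37827925 3 eng mog cd0q1 cd1q0 pd2 true true true .npp 1 0 2
    ndB0q1 ndB1q0 pcB2 Cut.none Ext.none :=
  certB0 (fam := true) (s1 := true) (s2 := true) (a := 1) (b := 0) (c := 2) (cn := .npp) (n1 := ndB0q1) (n2 := ndB1q0) (pc := pcB2) (cut := Cut.none) (xt := Ext.none) (P1 := 536870912) (W1 := 536870912) (P2 := 0) (W2 := 536870912) (P3 := 780900216) (W3 := 37827925) (N0 := 3) (En := eng) (mo := mog) (C1 := cd0q1) (C2 := cd1q0) (C3 := pd2)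
    rfl k0_pp_102

noncomputable def f_pp_112 : ℕ → ℕ → ℕ → ℕ → Bool := onCell 536870912 536870912 536870912 536870912 780900216 37827925
    (rowB 3 eng mog cd0q1 cd1q1 pd2 0 true true true .dn 1 1 2 (qsf 536870912 536870912 536870912 536870912 2) ndB0q1 ndB1q1 pcB2 Cut.none Ext.none)

def k0_pp_112 : ∃ t, chk3 f_pp_112 t 1 1 1 = true :=
  ⟨(l 4), by decide +kernel⟩

theorem c_pp_112 : CertB 536870912 536870912 536870912 536870912 780900216 37827925 3 eng mog cd0q1 cd1q1 pd2 true true true .dn 1 1 2
    ndB0q1 ndB1q1 pcB2 Cut.none Ext.none :=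
  certB0 (fam := true) (s1 := true) (s2 := true) (a := 1) (b := 1) (c := 2) (cn := .dn) (n1 := ndB0q1) (n2 := ndB1q1) (pc := pcB2) (cut := Cut.none) (xt := Ext.none) (P1 := 536870912) (W1 := 536870912) (P2 := 536870912) (W2 := 536870912) (P3 := 780900216) (W3 := 37827925) (N0 := 3) (En := eng) (mo := mog) (C1 := cd0q1) (C2 := cd1q1) (C3 := pd2)
    rfl k0_pp_112

noncomputable def f_pp_113 : ℕ → ℕ → ℕ → ℕ → Bool := onCell 536870912 536870912 536870912 536870912 780900216 37827925
    (rowB 3 eng mog cd0q1 cd1q1 pd3 0 true true true .nn 1 1 3 (qsf 536870912 536870912 536870912 536870912 3) ndB0q1 ndB1q1 pcB3 Cut.none Ext.none)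

def k0_pp_113 : ∃ t, chk3 f_pp_113 t 1 1 1 = true :=
  ⟨(l 4), by decide +kernel⟩

theorem c_pp_113 : CertB 536870912 536870912 536870912 536870912 780900216 37827925 3 eng mog cd0q1 cd1q1 pd3 true true true .nn 1 1 3
    ndB0q1 ndB1q1 pcB3 Cut.none Ext.none :=
  certB0 (fam := true) (s1 := true) (s2 := true) (a := 1) (b := 1) (c := 3) (cn := .nn) (n1 := ndB0q1) (n2 := ndB1q1) (pc := pcB3) (cut := Cut.none) (xt := Ext.none) (P1 := 536870912) (W1 := 536870912) (P2 := 536870912) (W2 := 536870912) (P3 := 780900216) (W3 := 37827925) (N0 := 3) (En := eng) (mo := mog) (C1 := cd0q1) (C2 := cd1q1) (C3 := pd3)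
    rfl k0_pp_113

noncomputable def f_pp_123_a : ℕ → ℕ → ℕ → ℕ → Bool := onCell 536870912 536870912 0 536870912 780900216 37827925
    (rowB 3 eng mog cd0q1 cd1q2a pd3 0 true true true .npn 1 2 3 (qsf 536870912 536870912 0 536870912 3) ndB0q1 ndB1q2a pcB3 Cut.none Ext.none)

def k0_pp_123_a : ∃ t, chk3 f_pp_123_a t 1 1 1 = true :=
  ⟨(a (b (l 4) (l 4)) (l 4)), by decide +kernel⟩

theorem c_pp_123_a : CertB 536870912 536870912 0 536870912 780900216 37827925 3 eng mog cd0q1 cd1q2a pd3 true true true .npn 1 2 3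
    ndB0q1 ndB1q2a pcB3 Cut.none Ext.none :=
  certB0 (fam := true) (s1 := true) (s2 := true) (a := 1) (b := 2) (c := 3) (cn := .npn) (n1 := ndB0q1) (n2 := ndB1q2a) (pc := pcB3) (cut := Cut.none) (xt := Ext.none) (P1 := 536870912) (W1 := 536870912) (P2 := 0) (W2 := 536870912) (P3 := 780900216) (W3 := 37827925) (N0 := 3) (En := eng) (mo := mog) (C1 := cd0q1) (C2 := cd1q2a) (C3 := pd3)
    rfl k0_pp_123_a

noncomputable def f_pp_123_b : ℕ → ℕ → ℕ → ℕ → Bool := onCell 536870912 536870912 1239849684 370763052 780900216 37827925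
    (rowB 3 eng mog cd0q1 cd1q2b pd3 0 true true true .npn 1 2 3 (qsf 536870912 536870912 1239849684 370763052 3) ndB0q1 ndB1q2b pcB3 Cut.none Ext.none)

def k0_pp_123_b : ∃ t, chk3 f_pp_123_b t 1 1 1 = true :=
  ⟨(a (b (a (l 4) (l 4)) (l 4)) (l 4)), by decide +kernel⟩

theorem c_pp_123_b : CertB 536870912 536870912 1239849684 370763052 780900216 37827925 3 eng mog cd0q1 cd1q2b pd3 true true true .npn 1 2 3
    ndB0q1 ndB1q2b pcB3 Cut.none Ext.none :=
  certB0 (fam := true) (s1 := true) (s2 := true) (a := 1) (b := 2) (c := 3) (cn := .npn) (n1 := ndB0q1) (n2 := ndB1q2b) (pc := pcB3) (cut := Cut.none) (xt := Ext.none) (P1 := 536870912) (W1 := 536870912) (P2 := 1239849684) (W2 := 370763052) (P3 := 780900216) (W3 := 37827925) (N0 := 3) (En := eng) (mo := mog) (C1 := cd0q1) (C2 := cd1q2b) (C3 := pd3)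
    rfl k0_pp_123_b

noncomputable def f_pp_133 : ℕ → ℕ → ℕ → ℕ → Bool := onCell 536870912 536870912 1610612736 536870912 780900216 37827925
    (rowB 3 eng mog cd0q1 cd1q3 pd3 0 true true true .dn 1 3 3 (qsf 536870912 536870912 1610612736 536870912 3) ndB0q1 ndB1q3 pcB3 Cut.none Ext.none)

def k0_pp_133 : ∃ t, chk3 f_pp_133 t 1 1 1 = true :=
  ⟨(l 4), by decide +kernel⟩

theorem c_pp_133 : CertB 536870912 536870912 1610612736 536870912 780900216 37827925 3 eng mog cd0q1 cd1q3 pd3 true true true .dn 1 3 3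
    ndB0q1 ndB1q3 pcB3 Cut.none Ext.none :=
  certB0 (fam := true) (s1 := true) (s2 := true) (a := 1) (b := 3) (c := 3) (cn := .dn) (n1 := ndB0q1) (n2 := ndB1q3) (pc := pcB3) (cut := Cut.none) (xt := Ext.none) (P1 := 536870912) (W1 := 536870912) (P2 := 1610612736) (W2 := 536870912) (P3 := 780900216) (W3 := 37827925) (N0 := 3) (En := eng) (mo := mog) (C1 := cd0q1) (C2 := cd1q3) (C3 := pd3)
    rfl k0_pp_133

noncomputable def f_pp_202 : ℕ → ℕ → ℕ → ℕ → Bool := onCell 0 536870912 0 536870912 780900216 37827925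
    (rowB 3 eng mog cd0q2 cd1q0 pd2 0 true true true .pp 2 0 2 (qsf 0 536870912 0 536870912 2) ndB0q2 ndB1q0 pcB2 Cut.none Ext.none)

def k0_pp_202 : ∃ t, chk3 f_pp_202 t 1 1 1 = true :=
  ⟨(l 5), by decide +kernel⟩

theorem c_pp_202 : CertB 0 536870912 0 536870912 780900216 37827925 3 eng mog cd0q2 cd1q0 pd2 true true true .pp 2 0 2
    ndB0q2 ndB1q0 pcB2 Cut.none Ext.none :=
  certB0 (fam := true) (s1 := true) (s2 := true) (a := 2) (b := 0) (c := 2) (cn := .pp) (n1 := ndB0q2) (n2 := ndB1q0) (pc := pcB2) (cut := Cut.none) (xt := Ext.none) (P1 := 0) (W1 := 536870912) (P2 := 0) (W2 := 536870912) (P3 := 780900216) (W3 := 37827925) (N0 := 3) (En := eng) (mo := mog) (C1 := cd0q2) (C2 := cd1q0) (C3 := pd2)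
    rfl k0_pp_202

noncomputable def f_pp_203 : ℕ → ℕ → ℕ → ℕ → Bool := onCell 0 536870912 0 536870912 780900216 37827925
    (rowB 3 eng mog cd0q2 cd1q0 pd3 0 true true true .up 2 0 3 (qsf 0 536870912 0 536870912 3) ndB0q2 ndB1q0 pcB3 Cut.none Ext.none)

def k0_pp_203 : ∃ t, chk3 f_pp_203 t 1 1 1 = true :=
  ⟨(l 5), by decide +kernel⟩

theorem c_pp_203 : CertB 0 536870912 0 536870912 780900216 37827925 3 eng mog cd0q2 cd1q0 pd3 true true true .up 2 0 3
    ndB0q2 ndB1q0 pcB3 Cut.none Ext.none :=
  certB0 (fam := true) (s1 := true) (s2 := true) (a := 2) (b := 0) (c := 3) (cn := .up) (n1 := ndB0q2) (n2 := ndB1q0) (pc := pcB3) (cut := Cut.none) (xt := Ext.none) (P1 := 0) (W1 := 536870912) (P2 := 0) (W2 := 536870912) (P3 := 780900216) (W3 := 37827925) (N0 := 3) (En := eng) (mo := mog) (C1 := cd0q2) (C2 := cd1q0) (C3 := pd3)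
    rfl k0_pp_203

noncomputable def f_pp_213 : ℕ → ℕ → ℕ → ℕ → Bool := onCell 0 536870912 536870912 536870912 780900216 37827925
    (rowB 3 eng mog cd0q2 cd1q1 pd3 0 true true true .pnn 2 1 3 (qsf 0 536870912 536870912 536870912 3) ndB0q2 ndB1q1 pcB3 Cut.none Ext.none)

def k0_pp_213 : ∃ t, chk3 f_pp_213 t 1 1 1 = true :=
  ⟨(l 5), by decide +kernel⟩

theorem c_pp_213 : CertB 0 536870912 536870912 536870912 780900216 37827925 3 eng mog cd0q2 cd1q1 pd3 true true true .pnn 2 1 3
    ndB0q2 ndB1q1 pcB3 Cut.none Ext.none :=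
  certB0 (fam := true) (s1 := true) (s2 := true) (a := 2) (b := 1) (c := 3) (cn := .pnn) (n1 := ndB0q2) (n2 := ndB1q1) (pc := pcB3) (cut := Cut.none) (xt := Ext.none) (P1 := 0) (W1 := 536870912) (P2 := 536870912) (W2 := 536870912) (P3 := 780900216) (W3 := 37827925) (N0 := 3) (En := eng) (mo := mog) (C1 := cd0q2) (C2 := cd1q1) (C3 := pd3)
    rfl k0_pp_213

noncomputable def f_pm_001 : ℕ → ℕ → ℕ → ℕ → Bool := onCell 0 536870912 0 536870912 780900216 37827925
    (rowB 3 eng mog cd0q0 cd1q0 pd1 0 true true false .up 0 0 1 (qsf 0 536870912 0 536870912 1) ndB0q0 ndB1q0 pcB1 Cut.none Ext.none)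

def k0_pm_001 : ∃ t, chk3 f_pm_001 t 1 1 1 = true :=
  ⟨(l 3), by decide +kernel⟩

theorem c_pm_001 : CertB 0 536870912 0 536870912 780900216 37827925 3 eng mog cd0q0 cd1q0 pd1 true true false .up 0 0 1
    ndB0q0 ndB1q0 pcB1 Cut.none Ext.none :=
  certB0 (fam := true) (s1 := true) (s2 := false) (a := 0) (b := 0) (c := 1) (cn := .up) (n1 := ndB0q0) (n2 := ndB1q0) (pc := pcB1) (cut := Cut.none) (xt := Ext.none) (P1 := 0) (W1 := 536870912) (P2 := 0) (W2 := 536870912) (P3 := 780900216) (W3 := 37827925) (N0 := 3) (En := eng) (mo := mog) (C1 := cd0q0) (C2 := cd1q0) (C3 := pd1)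
    rfl k0_pm_001

noncomputable def f_pm_011 : ℕ → ℕ → ℕ → ℕ → Bool := onCell 0 536870912 536870912 536870912 780900216 37827925
    (rowB 3 eng mog cd0q0 cd1q1 pd1 1 true true false .pnn 0 1 1 (qsf 0 536870912 536870912 536870912 1) ndB0q0 ndB1q1 pcB1 Cut.none Ext.none)

def k0_pm_011 : ∃ t, chk3 f_pm_011 t 1 1 1 = true :=
  ⟨(l 3), by decide +kernel⟩

theorem c_pm_011 : CertB 0 536870912 536870912 536870912 780900216 37827925 3 eng mog cd0q0 cd1q1 pd1 true true false .pnn 0 1 1
    ndB0q0 ndB1q1 pcB1 Cut.none Ext.none :=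
  certB1 (fam := true) (s1 := true) (s2 := false) (a := 0) (b := 1) (c := 1) (cn := .pnn) (n1 := ndB0q0) (n2 := ndB1q1) (pc := pcB1) (cut := Cut.none) (xt := Ext.none) (P1 := 0) (W1 := 536870912) (P2 := 536870912) (W2 := 536870912) (P3 := 780900216) (W3 := 37827925) (N0 := 3) (En := eng) (mo := mog) (C1 := cd0q0) (C2 := cd1q1) (C3 := pd1)
    rfl (fun _ => rfl) k0_pm_011

noncomputable def f_pm_012 : ℕ → ℕ → ℕ → ℕ → Bool := onCell 1073741824 536870912 536870912 536870912 780900216 37827925
    (rowB 3 eng mog cd0q0 cd1q1 pd2 2 true true false .pnp 0 1 2 (qsf 0 536870912 536870912 536870912 2) ndB0q0 ndB1q1 pcB2 Cut.none Ext.none)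

def k0_pm_012 : ∃ t, chk3 f_pm_012 t 4 1 1 = true :=
  ⟨(b (l 3) (a (l 3) (b (l 3) (a (l 3) (b (l 3) (a (b (l 3) (b (l 3) (a (l 3) (a (b (l 3) (l 16605112)) (a (l 16610024) (l 16598264)))))) (b (a (a (l 3) (b (l 3) (l 16638368))) (b (a (l 3) (l 16644528)) (a (l 16634904) (l 16630848)))) (a (b (a (l 143512004871) (b (l 16628232) (l 16620736))) (a (l 16594032) (l 16588448))) (a (b (l 16619728) (b (l 16607976) (l 16600168))) (b (l 16615088) (b (l 16602872) (l 16595072)))))))))))), by decide +kernel⟩

def k1_pm_012 : ∃ t, chk3 f_pm_012 t 5 2 1 = true :=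
  ⟨(a (a (a (b (b (l 2) (l 3)) (l 3)) (b (l 2) (a (l 3) (a (b (b (b (l 2) (l 3)) (l 3)) (l 3)) (b (a (a (b (l 16681256) (l 3)) (b (l 16659416) (l 16654152))) (b (l 16658136) (l 16652608))) (a (a (l 3) (b (l 3) (l 16643048))) (b (l 16647096) (l 16641096)))))))) (a (b (l 2) (b (b (b (l 2) (l 16649008)) (b (l 16645520) (l 16641808))) (b (b (l 16638248) (l 16634816)) (b (l 16631272) (l 16627544))))) (b (l 2) (b (b (l 2) (l 16649632)) (b (l 16639760) (l 16651464)))))) (b (l 2) (b (a (b (l 2) (a (l 16614656) (l 2))) (l 2)) (a (a (b (l 16602712) (l 16590824)) (b (l 16587608) (l 16573264))) (b (l 16567392) (l 16571232)))))), by decide +kernel⟩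

def k2_pm_012 : ∃ t, chk3 f_pm_012 t 10 6 1 = true :=
  ⟨(a (a (b (l 3) (l 3)) (a (b (l 3) (a (b (l 3) (b (l 16630024) (l 16627360))) (b (b (l 16631224) (l 38822237239)) (b (l 16655160) (l 16620992))))) (a (b (b (l 3) (a (l 16654600) (b (l 16632856) (l 16628320)))) (b (a (b (l 16626664) (l 16622448)) (b (l 16623624) (l 16619296))) (a (l 16638560) (l 16635088)))) (b (a (a (b (c (l 16640056) (l 16633952)) (l 16628456)) (b (c (l 16638712) (l 16632528)) (l 16626992))) (b (c (l 16636696) (l 16630392)) (l 16624792))) (a (a (b (l 16619176) (l 16611600)) (b (l 16617600) (l 16631000))) (b (b (l 16617512) (l 16612944)) (b (l 16609200) (l 16606336)))))))) (b (b (c (a (l 16645656) (l 16603968)) (a (l 16638688) (l 16595776))) (c (b (l 16627952) (l 16622888)) (a (l 16607784) (l 16584672)))) (b (a (b (l 16624936) (l 16619992)) (b (l 16580728) (l 16574960))) (a (b (l 16615584) (l 16612136)) (b (l 16569656) (l 16565000)))))), by decide +kernel⟩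

def k3_pm_012 : ∃ t, chk3 f_pm_012 t 10 7 1 = true :=
  ⟨(a (a (b (a (b (l 3) (b (l 155323240935) (a (l 16646144) (l 16639424)))) (b (a (l 222968926295) (b (l 16631632) (l 16629632))) (b (a (l 16634280) (l 16628160)) (l 16651272)))) (b (a (b (l 16659320) (a (l 16626424) (l 16621792))) (b (c (l 16626856) (l 16627144)) (a (l 16617232) (l 16612680)))) (a (b (c (a (l 16609312) (l 16604800)) (l 16609464)) (a (b (l 16598144) (l 16589592)) (l 16567896))) (b (b (l 16603064) (l 16594656)) (c (l 16559424) (l 16582800)))))) (a (b (b (a (b (l 16625208) (l 16623392)) (b (l 16618824) (l 16616856))) (a (b (l 16621920) (l 16620960)) (b (l 16615488) (l 16614728)))) (b (a (b (l 16620976) (l 16607736)) (l 16610032)) (b (l 16589552) (a (l 16574544) (l 16570040))))) (b (a (b (a (b (l 16613736) (l 16611912)) (b (l 16610360) (l 16608752))) (b (l 16609272) (l 16608960))) (a (b (a (l 16607232) (l 16626816)) (l 16604904)) (b (b (l 16604320) (l 16602928)) (l 16622896)))) (b (a (l 16625824) (a (l 16600976) (b (l 16602272) (b (l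 16595456) (l 16609840))))) (a (b (l 16582704) (b (l 16570384) (l 16541808))) (a (b (l 16580272) (b (l 16570536) (l 16565744))) (b (b (b (l 16584288) (l 16581888)) (l 16578768)) (l 16530336)))))))) (b (b (a (b (l 16609648) (l 16586960)) (a (l 16608960) (l 16574600))) (a (b (l 16586008) (l 16585688)) (b (l 16578552) (l 16557128)))) (b (a (b (l 16586128) (l 16585704)) (b (l 16557568) (l 16558856))) (b (a (l 16576888) (l 16557488)) (a (c (l 16564912) (l 16572792)) (l 16554232)))))), by decide +kernel⟩

def k4_pm_012 : ∃ t, chk3 f_pm_012 t 11 3 1 = true :=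
  ⟨(b (b (a (a (b (l 16621272) (a (l 16572904) (l 16562304))) (b (l 16559968) (l 16567824))) (b (b (l 16537248) (l 16529272)) (a (l 16526944) (l 16508328)))) (a (b (c (b (l 16552856) (l 16546576)) (b (l 16541616) (l 16534928))) (b (c (l 16561224) (l 16549104)) (c (l 16555656) (l 16522136)))) (b (c (l 16550952) (l 16495376)) (c (a (l 16505008) (l 16484392)) (a (l 16491144) (l 16469512)))))) (b (b (a (a (c (l 16560880) (l 16527344)) (b (l 16511544) (l 16506952))) (b (a (l 16488624) (l 16466824)) (c (l 16479336) (l 16463528)))) (a (a (b (l 16530128) (l 16529208)) (b (l 16503816) (l 16502248))) (b (a (l 16478960) (l 16455624)) (a (l 16476408) (l 16452000))))) (b (b (a (a (l 16529552) (l 16502152)) (a (l 16475696) (l 16450328))) (a (a (l 16530968) (l 16503584)) (c (l 16472712) (l 16474512)))) (b (a (a (l 16529936) (l 16503120)) (a (l 16476832) (l 16451064))) (a (a (l 16526720) (l 16499920)) (c (l 16471160) (l 16491720))))))), by decide +kernel⟩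

def k5_pm_012 : ∃ t, chk3 f_pm_012 t 3 1 1 = true :=
  ⟨(b (a (b (l 2) (a (b (l 2) (a (b (l 2) (l 16524032)) (l 2))) (l 2))) (l 2)) (b (a (a (b (a (b (l 16503144) (b (l 16487616) (l 16478104))) (b (l 16478656) (l 16454464))) (b (a (b (l 16468800) (l 16459872)) (l 16494600)) (a (c (l 16455296) (l 16438896)) (a (l 16419648) (l 16402752))))) (b (b (l 2) (a (l 16431896) (l 2))) (b (a (l 16404912) (l 16384328)) (a (b (l 16385768) (l 16374288)) (l 16355224))))) (a (b (l 2) (b (l 2) (a (l 16336576) (l 2)))) (l 2))) (a (a (b (a (b (c (l 16482432) (l 16423240)) (a (l 16473152) (l 16451600))) (b (c (l 16402504) (l 16383528)) (c (l 16388960) (l 16368736)))) (b (b (a (a (l 16426368) (l 16403848)) (l 16413984)) (a (a (l 16425928) (l 16402400)) (l 16390624))) (a (c (b (l 16425032) (l 16422960)) (a (l 16433424) (l 16408728))) (c (b (l 16401448) (l 16378072)) (b (l 16355216) (l 16350648)))))) (b (b (a (b (l 16363592) (l 16353960)) (b (l 16335240) (l 16323592))) (a (c (l 16352120) (l 16330632)) (b (l 16313208) (l 16304408))))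 (b (a (c (l 16342056) (l 16318600)) (c (l 16306072) (l 16281984))) (a (b (c (l 16339632) (l 16313488)) (l 16387104)) (b (l 16331784) (l 16307912)))))) (b (a (b (a (l 16306240) (l 16289360)) (a (b (l 16286392) (l 16275408)) (l 16259064))) (b (l 2) (a (l 16243648) (l 2)))) (a (b (a (c (l 16274224) (l 16249496)) (l 16298896)) (a (c (l 16329168) (l 16238928)) (b (l 16225008) (l 16221056)))) (b (a (l 16215176) (l 16200752)) (a (b (l 16200120) (l 16194088)) (b (l 16181304) (l 16172456))))))))), by decide +kernel⟩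

theorem s6_pm_012 : ∃ t, chk3 f_pm_012 t 10 3 1 = true := ex3_b k2_pm_012 k3_pm_012

theorem s7_pm_012 : ∃ t, chk3 f_pm_012 t 5 3 1 = true := ex3_a s6_pm_012 k4_pm_012

theorem s8_pm_012 : ∃ t, chk3 f_pm_012 t 5 1 1 = true := ex3_b k1_pm_012 s7_pm_012

theorem s9_pm_012 : ∃ t, chk3 f_pm_012 t 2 1 1 = true := ex3_a k0_pm_012 s8_pm_012

theorem s10_pm_012 : ∃ t, chk3 f_pm_012 t 1 1 1 = true := ex3_a s9_pm_012 k5_pm_012

theorem c_pm_012 : CertB 0 536870912 536870912 536870912 780900216 37827925 3 eng mog cd0q0 cd1q1 pd2 true true false .pnp 0 1 2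
    ndB0q0 ndB1q1 pcB2 Cut.none Ext.none :=
  certB2 (fam := true) (s1 := true) (s2 := false) (a := 0) (b := 1) (c := 2) (cn := .pnp) (n1 := ndB0q0) (n2 := ndB1q1) (pc := pcB2) (cut := Cut.none) (xt := Ext.none) (P1 := 0) (W1 := 536870912) (P2 := 536870912) (W2 := 536870912) (P3 := 780900216) (W3 := 37827925) (N0 := 3) (En := eng) (mo := mog) (C1 := cd0q0) (C2 := cd1q1) (C3 := pd2)
    rfl (fun _ => rfl) s10_pm_012

noncomputable def cut_pm_022_a : Cut := Cut.of [[⟨0, 0, 0, 67108864⟩, ⟨1, 1, 0, 67108864⟩, ⟨2, 1, 0, 67108864⟩]]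

noncomputable def f_pm_022_a : ℕ → ℕ → ℕ → ℕ → Bool := onCell 1073741824 536870912 0 536870912 780900216 37827925
    (rowB 3 eng mog cd0q0 cd1q2a pd2 2 true true false .pp 0 2 2 (qsf 0 536870912 0 536870912 2) ndB0q0 ndB1q2a pcB2 cut_pm_022_a Ext.none)

def k0_pm_022_a : ∃ t, chk3 f_pm_022_a t 8 1 1 = true :=
  ⟨(b (l 1) (b (l 1) (b (a (l 1) (b (a (l 1) (b (l 1) (a (l 1) (a (b (l 1) (l 6)) (b (l 16599592) (l 16610552)))))) (a (l 6) (a (l 6) (a (l 6) (a (l 6) (b (l 16627408) (l 16649688)))))))) (a (l 6) (a (l 6) (a (l 6) (a (l 6) (b (b (l 16651208) (l 16692200)) (b (c (l 16685688) (l 16667288)) (b (l 16692344) (b (l 16689456) (c (c (l 16676888) (l 16676872)) (l 16677096))))))))))))), by decide +kernel⟩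

def k1_pm_022_a : ∃ t, chk3 f_pm_022_a t 9 2 1 = true :=
  ⟨(b (l 1) (a (l 1) (b (l 1) (a (l 1) (b (l 1) (l 16426032)))))), by decide +kernel⟩

def k2_pm_022_a : ∃ t, chk3 f_pm_022_a t 9 6 1 = true :=
  ⟨(a (b (l 1) (b (a (l 1) (b (l 16543624) (a (l 16518880) (l 16522968)))) (a (a (l 1) (b (l 16536480) (a (l 16558616) (l 16559536)))) (a (b (l 16539512) (l 16560976)) (b (l 16542584) (l 16563000)))))) (b (a (b (b (l 1) (a (l 1) (l 16467080))) (a (l 16505176) (b (l 16482344) (l 16497664)))) (b (b (l 16451008) (l 16468352)) (b (l 16483240) (l 16497832)))) (a (b (a (b (l 16509144) (l 16527008)) (b (l 16513864) (l 16530896))) (a (b (l 16545688) (l 16565112)) (b (l 16548696) (l 16567192)))) (b (a (l 16522512) (l 16520376)) (b (l 16546328) (l 16563856)))))), by decide +kernel⟩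

def k3_pm_022_a : ∃ t, chk3 f_pm_022_a t 9 14 1 = true :=
  ⟨(a (b (a (a (b (a (b (l 1) (l 16588152)) (b (l 16575840) (l 16588200))) (a (b (l 16600128) (l 16610840)) (b (l 16599864) (l 16610280)))) (b (a (l 16582320) (l 16582640)) (b (l 16599600) (l 16609584)))) (b (a (l 16583216) (l 16584136)) (a (l 16625192) (l 16604064)))) (a (b (a (a (l 16648056) (l 16626080)) (l 16645704)) (a (c (l 16651360) (l 16644656)) (b (l 16639944) (l 16650176)))) (b (a (l 16623248) (l 16601104)) (a (l 16642488) (l 16640256))))) (b (a (b (a (l 16585200) (l 16586312)) (a (l 16604120) (l 16604288))) (b (l 16602912) (l 16598912))) (b (a (a (l 16621168) (l 16620448)) (l 16614160)) (a (a (l 16638368) (l 16636712)) (l 16629424))))), by decide +kernel⟩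

def k4_pm_022_a : ∃ t, chk3 f_pm_022_a t 9 15 1 = true :=
  ⟨(a (b (b (a (a (b (l 16664376) (l 16675280)) (l 16665624)) (a (l 16661856) (l 16658536))) (a (a (c (l 16682928) (l 16687192)) (l 16676560)) (c (l 16660608) (l 16665464)))) (b (a (a (b (l 16660312) (c (l 16677240) (l 16679568))) (a (l 16631904) (l 16648672))) (a (c (l 16661528) (l 16664808)) (c (l 16652200) (l 16655648)))) (a (b (a (c (l 16674288) (l 16675776)) (l 16688096)) (a (a (b (l 16673952) (c (a (l 16672736) (l 16670928)) (l 16672144))) (b (l 16670288) (c (l 16668128) (l 16668616)))) (c (b (l 16663936) (l 16672712)) (b (l 16665112) (l 16662968))))) (a (b (l 16658616) (c (l 16675584) (l 16655824))) (b (l 16649472) (c (l 16645400) (l 16646784))))))) (b (a (a (c (l 16646984) (l 16652688)) (a (l 16600000) (l 16584304))) (a (c (l 16629192) (l 16633616)) (l 16582168))) (b (a (a (l 16664904) (a (l 16636096) (l 16630824))) (a (l 16624824) (l 16616720))) (a (a (b (l 16639608) (c (l 16635424) (l 16636888))) (a (l 16650864) (b (l 16626216) (l 16622424))))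 (a (b (l 16619832) (c (l 16615880) (l 16615824))) (b (l 16611136) (a (l 16609008) (l 16604208)))))))), by decide +kernel⟩

def k5_pm_022_a : ∃ t, chk3 f_pm_022_a t 5 2 1 = true :=
  ⟨(a (a (a (b (l 1) (b (l 16432760) (b (l 16400856) (l 16427616)))) (b (b (l 16349056) (l 16375776)) (b (b (l 16369512) (l 16385184)) (b (l 16405096) (l 16429144))))) (b (b (l 16405016) (a (l 16363200) (l 16369272))) (b (a (l 16383192) (l 16387200)) (b (l 16408904) (l 16429912))))) (a (b (b (a (l 16373904) (l 16380768)) (a (l 16375160) (l 16380808))) (b (a (l 16391048) (l 16436552)) (a (l 16420968) (b (l 16413264) (l 16430136))))) (a (b (b (l 16386232) (l 16385360)) (b (l 16397712) (b (l 16414848) (l 16430760)))) (b (b (l 16391592) (l 16390056)) (b (l 16401240) (b (l 16417584) (l 16432880))))))), by decide +kernel⟩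

def k6_pm_022_a : ∃ t, chk3 f_pm_022_a t 5 6 1 = true :=
  ⟨(a (a (a (b (b (a (l 16458736) (l 16458056)) (l 16529984)) (b (l 16538272) (l 16591136))) (b (a (b (l 16457344) (l 16486048)) (a (b (l 16456872) (l 16485080)) (a (b (l 16456576) (l 16484640)) (b (l 16456184) (l 16484184))))) (a (b (l 16514432) (l 16545208)) (a (b (l 16513224) (l 16543600)) (b (a (l 16512888) (l 16512728)) (a (l 16543312) (l 16543232))))))) (b (b (l 16454416) (a (l 16482440) (l 16478600))) (b (l 16485720) (a (l 16539120) (l 16531776))))) (b (a (b (a (l 16451552) (l 16450080)) (a (l 16475080) (l 16472320))) (b (a (l 16449840) (l 16451312)) (a (l 16471240) (l 16472288)))) (a (b (a (l 16499104) (l 16495720)) (a (l 16525840) (l 16522056))) (b (a (l 16494464) (l 16494600)) (a (l 16519432) (l 16518224)))))), by decide +kernel⟩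

def k7_pm_022_a : ∃ t, chk3 f_pm_022_a t 5 7 1 = true :=
  ⟨(a (a (b (b (a (b (l 16574328) (l 16590192)) (a (l 16577096) (a (l 16575208) (l 16574792)))) (a (l 16611952) (a (l 16605912) (a (l 16599704) (l 16594008))))) (a (a (b (l 16616456) (b (l 16607800) (b (l 16601536) (a (l 16599168) (l 16593864))))) (b (l 16607912) (b (l 16597928) (b (l 16590896) (a (l 16588280) (l 16582384)))))) (b (a (b (l 16601032) (l 16595032)) (a (l 16589976) (a (l 16584720) (l 16538968)))) (b (a (l 16586760) (a (l 16577128) (a (l 16571048) (l 16566640)))) (b (a (l 16578848) (a (l 16568480) (a (l 16561936) (l 16557208)))) (b (a (a (l 16577696) (l 16571016)) (a (l 16563512) (a (l 16556760) (l 16572864)))) (a (a (l 16574488) (l 16567624)) (a (l 16559968) (a (l 16553096) (a (a (a (l 16549864) (l 16548512)) (l 16547432)) (l 16546528))))))))))) (b (b (l 16565368) (a (l 16584840) (l 16571384))) (b (b (l 16568096) (a (l 16566920) (l 16550240))) (b (a (l 16555816) (l 16537784)) (a (b (l 16545880) (a (l 16543048) (l 16533504))) (b (l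 16527136) (a (l 16524032) (l 16514656)))))))) (b (a (b (l 16614720) (a (l 16557264) (l 16542656))) (b (l 16536856) (a (l 16527488) (l 16513168)))) (b (a (a (l 16570256) (b (l 16528056) (l 16516344))) (a (b (l 16512384) (l 16500184)) (b (l 16497288) (l 16484496)))) (a (b (a (l 16520032) (a (l 16506984) (l 16498472))) (a (b (l 16508912) (a (l 16505392) (l 16496264))) (a (b (l 16495560) (l 16487288)) (c (l 16490984) (l 16474000))))) (b (a (l 16527968) (l 16511768)) (a (b (a (l 16478352) (l 16469936)) (c (l 16496040) (l 16455360))) (a (c (l 16467344) (l 16446296)) (c (l 16459544) (l 16437296))))))))), by decide +kernel⟩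

def k8_pm_022_a : ∃ t, chk3 f_pm_022_a t 3 2 1 = true :=
  ⟨(a (a (b (a (b (a (l 16397728) (l 16405472)) (a (l 16395624) (l 16402992))) (b (a (l 16415184) (l 16427168)) (a (l 16412592) (l 16423880)))) (a (b (a (l 16406280) (l 16455152)) (a (b (l 16422040) (l 16436920)) (b (l 16428720) (l 16443136)))) (b (a (l 16443360) (l 16432872)) (c (a (l 16440512) (l 16447792)) (a (l 16447480) (l 16457456)))))) (b (a (b (l 16509736) (a (l 16436200) (l 16448368))) (b (l 16514712) (c (l 16461632) (l 16471728)))) (a (b (a (l 16443416) (l 16453832)) (c (a (l 16454608) (l 16461264)) (l 16470632))) (b (c (l 16463152) (l 16475720)) (a (c (l 16467968) (l 16482944)) (l 16314168)))))) (c (b (a (a (b (l 16493744) (l 16484096)) (b (l 16518912) (l 16507088))) (a (b (l 16543192) (l 16528832)) (b (l 16564640) (l 16547232)))) (a (b (a (l 16482120) (l 16501336)) (a (l 16484968) (l 16497608))) (a (b (l 16518568) (l 16507632)) (b (l 16532432) (l 16515088))))) (b (a (a (l 16500208) (l 16524384)) (a (l 16546024) (l 16563192))) (a (b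 (a (l 16495936) (l 16514680)) (a (l 16501056) (l 16512040))) (b (l 16555512) (a (l 16515224) (l 16516232))))))), by decide +kernel⟩

def k9_pm_022_a : ∃ t, chk3 f_pm_022_a t 6 6 1 = true :=
  ⟨(a (b (a (b (a (l 16454984) (l 16459832)) (c (a (l 16472296) (l 16474400)) (l 16479944))) (b (c (l 16463192) (l 16474312)) (c (l 16392936) (l 16490000)))) (a (b (c (l 16492112) (l 16501576)) (l 16515968)) (b (c (l 16491072) (l 16505984)) (c (l 16503632) (l 16502264))))) (c (b (a (b (l 16470976) (l 16480416)) (b (l 16478680) (l 16483688))) (a (b (l 16489336) (l 16495968)) (c (l 16484336) (l 16486904)))) (b (a (l 16345696) (l 16500016)) (b (a (l 16500320) (l 16483824)) (a (l 16480856) (l 16462048)))))), by decide +kernel⟩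

def k10_pm_022_a : ∃ t, chk3 f_pm_022_a t 6 7 1 = true :=
  ⟨(a (b (a (b (a (l 16517608) (l 16505448)) (a (l 16499408) (b (l 16491176) (l 16480680)))) (b (b (l 16493280) (l 16482384)) (c (b (l 16481408) (l 16470848)) (l 16477088)))) (b (b (a (a (l 16482640) (l 16468456)) (a (l 16454608) (l 16441208))) (a (a (l 16469296) (l 16454424)) (a (l 16460904) (l 16447032)))) (a (b (a (c (l 16464288) (l 16442656)) (c (l 16449776) (l 16426000))) (a (a (c (l 16451808) (l 16428424)) (b (l 16437040) (a (l 16429736) (l 16446624)))) (c (b (l 16437248) (a (l 16432032) (l 16424528))) (b (l 16411808) (a (l 16406016) (l 16397424)))))) (b (a (c (l 16435736) (l 16409768)) (c (l 16422232) (l 16394448))) (b (a (c (l 16422848) (l 16395304)) (c (l 16409080) (l 16379816))) (c (a (a (l 16417192) (l 16410056)) (a (l 16403112) (l 16396376))) (a (c (l 16392640) (l 16376992)) (c (l 16377600) (l 16360952))))))))) (b (b (c (a (l 16475440) (l 16456920)) (a (l 16455216) (l 16434584))) (a (c (b (l 16459456) (l 16447832)) (l 16472120)) (c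 (b (l 16439496) (l 16427168)) (l 16429128)))) (b (a (a (b (l 16428504) (l 16433928)) (c (l 16421680) (l 16394080))) (c (b (l 16413248) (l 16397824)) (b (l 16385536) (l 16431536)))) (a (b (c (a (l 16409480) (l 16397480)) (a (l 16380320) (l 16367384))) (b (c (a (l 16396120) (l 16383984)) (a (l 16365592) (l 16352632))) (c (a (a (l 16389840) (l 16383504)) (a (l 16377392) (l 16371424))) (a (c (l 16363704) (l 16346272)) (c (l 16350952) (l 16332976)))))) (b (c (a (l 16386216) (l 16375424)) (a (l 16355616) (l 16344696))) (c (a (b (l 16372432) (l 16394152)) (b (l 16361312) (l 16372264))) (a (b (l 16340664) (c (l 16339048) (l 16320728))) (c (l 16333008) (l 16314672))))))))), by decide +kernel⟩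

def k11_pm_022_a : ∃ t, chk3 f_pm_022_a t 7 6 1 = true :=
  ⟨(a (b (a (c (l 16555000) (l 16496784)) (c (l 16489416) (l 16489248))) (b (a (c (l 16483448) (l 16470392)) (c (l 16474864) (l 16460120))) (c (a (l 16466016) (l 16453040)) (a (l 16446696) (l 16434488))))) (b (c (a (l 16489224) (l 16486304)) (a (l 16484280) (l 16481688))) (c (a (b (l 16465088) (l 16441616)) (b (l 16457448) (l 16432440))) (a (b (l 16452464) (l 16425072)) (b (l 16447448) (l 16418552)))))), by decide +kernel⟩

def k12_pm_022_a : ∃ t, chk3 f_pm_022_a t 7 7 1 = true :=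
  ⟨(a (b (a (b (c (l 16440416) (l 16417544)) (c (l 16457336) (l 16389720))) (b (c (l 16425704) (l 16403832)) (c (l 16399032) (l 16374480)))) (b (a (c (b (l 16394024) (l 16377784)) (b (l 16366376) (l 16348776))) (c (b (l 16376376) (l 16359312)) (b (l 16349888) (l 16331512)))) (a (b (c (a (l 16364936) (l 16354832)) (a (l 16334360) (l 16324656))) (c (a (b (l 16350480) (l 16340240)) (a (l 16337456) (l 16332304))) (a (c (l 16322272) (l 16303880)) (c (l 16312128) (l 16293808))))) (c (b (a (l 16345184) (l 16336080)) (a (a (l 16327280) (l 16322400)) (b (l 16320728) (l 16309904)))) (b (a (l 16315648) (l 16307384)) (a (c (l 16302632) (l 16284504)) (c (l 16293872) (l 16276040)))))))) (b (a (c (b (l 16412720) (l 16384544)) (b (l 16392808) (l 16361960))) (c (b (l 16402232) (l 16372744)) (b (l 16384864) (l 16352744)))) (b (a (c (b (l 16360808) (l 16343056)) (b (l 16336320) (l 16317248))) (c (b (l 16348144) (l 16329856)) (b (l 16326272) (l 16306752)))) (a (c (b (a (l 16327616) (l 16319912)) (a (b (l 16312032) (l 16301056))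 (b (l 16304144) (l 16293056)))) (b (a (l 16299944) (l 16293416)) (a (b (l 16283344) (l 16271688)) (b (l 16276664) (l 16264896))))) (c (b (a (l 16313080) (l 16307120)) (a (b (l 16297144) (l 16285960)) (b (l 16291032) (l 16279752)))) (b (a (l 16287936) (l 16283560)) (a (l 16286152) (l 16281640)))))))), by decide +kernel⟩

theorem s13_pm_022_a : ∃ t, chk3 f_pm_022_a t 7 3 1 = true := ex3_b k11_pm_022_a k12_pm_022_a

theorem s14_pm_022_a : ∃ t, chk3 f_pm_022_a t 6 3 1 = true := ex3_b k9_pm_022_a k10_pm_022_a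

theorem s15_pm_022_a : ∃ t, chk3 f_pm_022_a t 3 3 1 = true := ex3_a s14_pm_022_a s13_pm_022_a

theorem s16_pm_022_a : ∃ t, chk3 f_pm_022_a t 3 1 1 = true := ex3_b k8_pm_022_a s15_pm_022_a

theorem s17_pm_022_a : ∃ t, chk3 f_pm_022_a t 5 3 1 = true := ex3_b k6_pm_022_a k7_pm_022_a

theorem s18_pm_022_a : ∃ t, chk3 f_pm_022_a t 5 1 1 = true := ex3_b k5_pm_022_a s17_pm_022_a

theorem s19_pm_022_a : ∃ t, chk3 f_pm_022_a t 9 7 1 = true := ex3_b k3_pm_022_a k4_pm_022_a

theorem s20_pm_022_a : ∃ t, chk3 f_pm_022_a t 9 3 1 = true := ex3_b k2_pm_022_a s19_pm_022_a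

theorem s21_pm_022_a : ∃ t, chk3 f_pm_022_a t 9 1 1 = true := ex3_b k1_pm_022_a s20_pm_022_a

theorem s22_pm_022_a : ∃ t, chk3 f_pm_022_a t 4 1 1 = true := ex3_a k0_pm_022_a s21_pm_022_a

theorem s23_pm_022_a : ∃ t, chk3 f_pm_022_a t 2 1 1 = true := ex3_a s22_pm_022_a s18_pm_022_a

theorem s24_pm_022_a : ∃ t, chk3 f_pm_022_a t 1 1 1 = true := ex3_a s23_pm_022_a s16_pm_022_a

theorem c_pm_022_a : CertB 0 536870912 0 536870912 780900216 37827925 3 eng mog cd0q0 cd1q2a pd2 true true false .pp 0 2 2
    ndB0q0 ndB1q2a pcB2 cut_pm_022_a Ext.none :=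
  certB2 (fam := true) (s1 := true) (s2 := false) (a := 0) (b := 2) (c := 2) (cn := .pp) (n1 := ndB0q0) (n2 := ndB1q2a) (pc := pcB2) (cut := cut_pm_022_a) (xt := Ext.none) (P1 := 0) (W1 := 536870912) (P2 := 0) (W2 := 536870912) (P3 := 780900216) (W3 := 37827925) (N0 := 3) (En := eng) (mo := mog) (C1 := cd0q0) (C2 := cd1q2a) (C3 := pd2)
    rfl (fun _ => rfl) s24_pm_022_a

noncomputable def cut_pm_022_b : Cut := Cut.of [[⟨0, 0, 0, 67108864⟩, ⟨1, 1, 0, 67108864⟩, ⟨2, 1, 0, 67108864⟩]]

noncomputable def f_pm_022_b : ℕ → ℕ → ℕ → ℕ → Bool := onCell 0 536870912 1239849684 370763052 780900216 37827925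
    (rowB 3 eng mog cd0q0 cd1q2b pd2 0 true true false .pp 0 2 2 (qsf 0 536870912 1239849684 370763052 2) ndB0q0 ndB1q2b pcB2 cut_pm_022_b Ext.none)

def k0_pm_022_b : ∃ t, chk3 f_pm_022_b t 1 1 1 = true :=
  ⟨(a (b (a (b (a (b (b (a (a (l 16330944) (l 16339888)) (a (l 16348456) (l 16356120))) (a (a (l 16271904) (l 16282736)) (a (l 16292584) (l 16301680)))) (a (a (b (l 16215600) (l 16161480)) (l 16326976)) (b (l 16265808) (l 16196016)))) (b (b (a (a (l 16362944) (l 16369568)) (c (l 16382496) (l 16380360))) (a (l 16377880) (l 16355368))) (a (b (l 16267136) (l 16222632)) (b (l 16290872) (l 16250496))))) (a (b (a (b (l 16118744) (l 16072528)) (c (l 16134592) (l 16124936))) (a (l 16093560) (l 16051656))) (b (a (l 16203920) (l 16195760)) (a (l 16092200) (l 16133368))))) (b (a (b (a (b (a (l 16396584) (l 16409664)) (l 16381576)) (b (l 16473288) (l 16393272))) (a (b (l 16321264) (l 16284912)) (l 16404432))) (b (a (b (l 16502096) (l 16426296)) (b (l 16530200) (l 16458544))) (a (b (l 16395104) (l 16366760)) (b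 (l 16431488) (l 16406184))))) (a (a (b (l 16257232) (l 16180072)) (b (l 16324184) (l 16233528))) (b (a (l 16328168) (l 16373504)) (a (l 16286288) (l 2)))))) (a (b (a (b (a (l 15937488) (l 15987120)) (a (l 15898944) (l 15933720))) (b (a (l 16034032) (l 16081984)) (a (l 15987616) (l 16041272)))) (a (b (a (l 15830248) (l 15892088)) (a (l 15793368) (l 15860480))) (b (a (l 15951344) (l 2)) (l 2)))) (b (a (b (a (l 16135472) (l 16194624)) (a (l 16100336) (l 2))) (l 2)) (l 2)))) (b (a (b (a (b (a (b (l 16516480) (l 16491112)) (b (l 16543704) (l 16521864))) (a (b (l 16467264) (l 16446248)) (l 16493344))) (b (a (b (l 16566792) (l 16549520)) (c (l 16579888) (l 16581128))) (l 2))) (a (b (a (l 16418240) (l 2)) (l 2)) (l 2))) (l 2)) (l 2))), by decide +kernel⟩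

theorem c_pm_022_b : CertB 0 536870912 1239849684 370763052 780900216 37827925 3 eng mog cd0q0 cd1q2b pd2 true true false .pp 0 2 2
    ndB0q0 ndB1q2b pcB2 cut_pm_022_b Ext.none :=
  certB0 (fam := true) (s1 := true) (s2 := false) (a := 0) (b := 2) (c := 2) (cn := .pp) (n1 := ndB0q0) (n2 := ndB1q2b) (pc := pcB2) (cut := cut_pm_022_b) (xt := Ext.none) (P1 := 0) (W1 := 536870912) (P2 := 1239849684) (W2 := 370763052) (P3 := 780900216) (W3 := 37827925) (N0 := 3) (En := eng) (mo := mog) (C1 := cd0q0) (C2 := cd1q2b) (C3 := pd2)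
    rfl k0_pm_022_b

noncomputable def f_pm_023_a : ℕ → ℕ → ℕ → ℕ → Bool := onCell 1610612736 536870912 0 536870912 780900216 37827925
    (rowB 3 eng mog cd0q0 cd1q2a pd3 2 true true false .up 0 2 3 (qsf 0 536870912 0 536870912 3) ndB0q0 ndB1q2a pcB3 Cut.none Ext.none)

def k0_pm_023_a : ∃ t, chk3 f_pm_023_a t 1 1 1 = true :=
  ⟨(a (a (b (a (b (a (b (c (l 16607064) (l 16573824)) (c (l 16549080) (l 16558832))) (b (c (l 16594328) (l 16597912)) (c (l 16574736) (l 16576864)))) (a (b (c (l 16535344) (l 16543920)) (c (l 16517008) (l 16520248))) (c (b (l 16554376) (l 16524240)) (l 16519832)))) (b (a (b (l 16699736) (l 16589704)) (b (l 16630960) (l 16606728))) (a (b (l 16563864) (l 16536008)) (b (l 16581856) (l 16550312))))) (b (a (b (a (c (l 16483672) (l 16483224)) (c (l 16485792) (l 16485840))) (a (c (b (l 16451648) (l 16425768)) (b (l 16446280) (l 16415368))) (c (b (l 16453008) (l 16425472)) (b (l 16447352) (l 16415936))))) (b (a (c (l 16495032) (l 16492784)) (l 51639711591)) (a (b (l 16479376) (a (l 16426224)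 (l 16429656))) (b (l 16468048) (l 2))))) (a (b (a (c (b (l 16394864) (l 16364912)) (b (l 16379456) (l 16345752))) (b (c (l 16393624) (l 16379856)) (c (l 16363560) (l 16346376)))) (b (a (c (b (l 16340488) (l 16322528)) (b (l 16318744) (l 16299224))) (c (l 302358220615) (l 302358153959))) (a (a (b (c (l 16304360) (l 16278880)) (b (c (l 16289000) (l 16262400)) (a (c (l 16278912) (l 16251240)) (l 2)))) (c (l 298063101639) (l 294304906007))) (l 2)))) (b (a (b (l 262629943191) (l 2)) (l 2)) (l 2))))) (b (a (b (a (b (l 16653672) (l 16627728)) (b (l 2) (l 2))) (a (b (l 16599968) (l 16565928)) (l 2))) (l 2)) (b (l 2) (l 2)))) (l 2)), by decide +kernel⟩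

theorem c_pm_023_a : CertB 0 536870912 0 536870912 780900216 37827925 3 eng mog cd0q0 cd1q2a pd3 true true false .up 0 2 3
    ndB0q0 ndB1q2a pcB3 Cut.none Ext.none :=
  certB2 (fam := true) (s1 := true) (s2 := false) (a := 0) (b := 2) (c := 3) (cn := .up) (n1 := ndB0q0) (n2 := ndB1q2a) (pc := pcB3) (cut := Cut.none) (xt := Ext.none) (P1 := 0) (W1 := 536870912) (P2 := 0) (W2 := 536870912) (P3 := 780900216) (W3 := 37827925) (N0 := 3) (En := eng) (mo := mog) (C1 := cd0q0) (C2 := cd1q2a) (C3 := pd3)
    rfl (fun _ => rfl) k0_pm_023_a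

noncomputable def f_pm_023_b : ℕ → ℕ → ℕ → ℕ → Bool := onCell 0 536870912 1610612736 536870912 780900216 37827925
    (rowB 3 eng mog cd0q0 cd1q2b pd3 1 true true false .up 0 2 3 (qsf 0 536870912 1239849684 370763052 3) ndB0q0 ndB1q2b pcB3 Cut.none Ext.none)

def k0_pm_023_b : ∃ t, chk3 f_pm_023_b t 1 1 1 = true :=
  ⟨(a (b (b (a (b (a (l 15815800) (l 16144384)) (a (l 15792120) (l 15949552))) (b (a (b (l 16144392) (l 16128688)) (b (l 16303304) (l 16288176))) (a (l 16128200) (l 16370448)))) (a (b (a (l 2) (l 15943568)) (l 2)) (b (a (l 16093560) (l 16246000)) (a (l 16110416) (l 16250304))))) (l 4)) (b (b (a (b (a (c (b (l 16444096) (l 16433184)) (l 16664568)) (b (a (l 16571656) (c (l 238940892247) (l 16580424))) (a (l 16516944) (l 16565040)))) (a (b (l 16413576) (l 16399224)) (b (l 16528264) (l 16514608)))) (b (a (b (a (c (l 252362592311) (l 255047070599)) (l 1)) (a (c (l 16583400) (l 16607384)) (l 232498588119))) (l 1)) (a (b (a (l 16594536) (l 211023696935)) (a (l 16583080) (l 16619784))) (a (b (l 315713372679)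 (l 258805235447)) (b (l 1) (l 348999422967)))))) (a (b (a (l 16445800) (l 16518240)) (a (l 16398176) (l 16484720))) (b (a (b (l 16593128) (l 16584536)) (b (a (l 16642200) (l 274374340567)) (a (l 16640864) (l 16662304)))) (a (b (l 16577184) (l 16571344)) (b (l 16673792) (l 16647736)))))) (b (a (l 4) (b (b (a (l 16567704) (l 16640640)) (l 4)) (l 4))) (l 4)))), by decide +kernel⟩

theorem c_pm_023_b : CertB 0 536870912 1239849684 370763052 780900216 37827925 3 eng mog cd0q0 cd1q2b pd3 true true false .up 0 2 3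
    ndB0q0 ndB1q2b pcB3 Cut.none Ext.none :=
  certB1 (fam := true) (s1 := true) (s2 := false) (a := 0) (b := 2) (c := 3) (cn := .up) (n1 := ndB0q0) (n2 := ndB1q2b) (pc := pcB3) (cut := Cut.none) (xt := Ext.none) (P1 := 0) (W1 := 536870912) (P2 := 1239849684) (W2 := 370763052) (P3 := 780900216) (W3 := 37827925) (N0 := 3) (En := eng) (mo := mog) (C1 := cd0q0) (C2 := cd1q2b) (C3 := pd3)
    rfl (fun _ => rfl) k0_pm_023_b

noncomputable def f_pm_033 : ℕ → ℕ → ℕ → ℕ → Bool := onCell 1610612736 536870912 1610612736 536870912 780900216 37827925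
    (rowB 3 eng mog cd0q0 cd1q3 pd3 2 true true false .pnn 0 3 3 (qsf 0 536870912 1610612736 536870912 3) ndB0q0 ndB1q3 pcB3 Cut.none Ext.none)

def k0_pm_033 : ∃ t, chk3 f_pm_033 t 1 1 1 = true :=
  ⟨(a (b (a (b (a (b (l 230886438807) (l 302289896023)) (b (a (l 15821784) (l 15887352)) (l 15690072))) (a (l 1) (a (l 1) (l 15460040)))) (b (a (b (a (l 15957776) (l 16027168)) (l 15842624)) (a (b (l 16104088) (l 15965336)) (l 4))) (a (a (l 15557560) (l 15655896)) (b (l 15875104) (l 4))))) (a (l 1) (a (l 1) (l 4)))) (a (l 4) (l 4))), by decide +kernel⟩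

theorem c_pm_033 : CertB 0 536870912 1610612736 536870912 780900216 37827925 3 eng mog cd0q0 cd1q3 pd3 true true false .pnn 0 3 3
    ndB0q0 ndB1q3 pcB3 Cut.none Ext.none :=
  certB2 (fam := true) (s1 := true) (s2 := false) (a := 0) (b := 3) (c := 3) (cn := .pnn) (n1 := ndB0q0) (n2 := ndB1q3) (pc := pcB3) (cut := Cut.none) (xt := Ext.none) (P1 := 0) (W1 := 536870912) (P2 := 1610612736) (W2 := 536870912) (P3 := 780900216) (W3 := 37827925) (N0 := 3) (En := eng) (mo := mog) (C1 := cd0q0) (C2 := cd1q3) (C3 := pd3)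
    rfl (fun _ => rfl) k0_pm_033

noncomputable def cut_pm_101 : Cut := Cut.of [[⟨0, 1, 0, 67108864⟩, ⟨1, 0, 0, 67108864⟩, ⟨2, 1, 0, 67108864⟩]]

noncomputable def f_pm_101 : ℕ → ℕ → ℕ → ℕ → Bool := onCell 536870912 536870912 0 536870912 780900216 37827925
    (rowB 3 eng mog cd0q1 cd1q0 pd1 2 true true false .npn 1 0 1 (qsf 536870912 536870912 0 536870912 1) ndB0q1 ndB1q0 pcB1 cut_pm_101 Ext.none)

def k0_pm_101 : ∃ t, chk3 f_pm_101 t 1 1 1 = true :=
  ⟨(a (l 3) (b (a (l 3) (b (a (l 3) (b (a (l 3) (a (l 3) (b (l 6) (l 3)))) (l 3))) (l 3))) (l 3))), by decide +kernel⟩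

theorem c_pm_101 : CertB 536870912 536870912 0 536870912 780900216 37827925 3 eng mog cd0q1 cd1q0 pd1 true true false .npn 1 0 1
    ndB0q1 ndB1q0 pcB1 cut_pm_101 Ext.none :=
  certB2 (fam := true) (s1 := true) (s2 := false) (a := 1) (b := 0) (c := 1) (cn := .npn) (n1 := ndB0q1) (n2 := ndB1q0) (pc := pcB1) (cut := cut_pm_101) (xt := Ext.none) (P1 := 536870912) (W1 := 536870912) (P2 := 0) (W2 := 536870912) (P3 := 780900216) (W3 := 37827925) (N0 := 3) (En := eng) (mo := mog) (C1 := cd0q1) (C2 := cd1q0) (C3 := pd1)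
    rfl (fun _ => rfl) k0_pm_101

end Pool.Agent.Strip051.G.I72727_7625.Tab.C.BA01

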