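import Pool.Agent.Strip051.G.I72727_7625.Tab
import Pool.Agent.Strip051.PB.ExtD2

/-! # Certificates B3 (generated) -/

set_option linter.all false
set_option maxRecDepth 100000

namespace Pool.Agent.Strip051.G.I72727_7625.Tab.C.BA01

open Pool.Agent.Strip051.PB Pool.Agent.Strip051.PB.T
open Pool.Agent.Strip051.G.I72727_7625.Tab

noncomputable def cut_pm_102 : Cut := Cut.of [[⟨0, 1, 0, 67108864⟩, ⟨1, 0, 0, 67108864⟩, ⟨2, 1, 0, 67108864⟩]]

noncomputable def f_pm_102 : ℕ → ℕ → ℕ → ℕ → Bool := onCell 536870912 536870912 1073741824 536870912 780900216 37827925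
    (rowB 3 eng mog cd0q1 cd1q0 pd2 1 true true false .npp 1 0 2 (qsf 536870912 536870912 0 536870912 2) ndB0q1 ndB1q0 pcB2 cut_pm_102 Ext.none)

def k0_pm_102 : ∃ t, chk3 f_pm_102 t 2 4 1 = true :=
  ⟨(b (l 3) (a (l 3) (b (l 3) (b (l 3) (a (l 3) (a (b (l 3) (a (l 3) (b (l 3) (l 16675352)))) (b (a (l 3) (l 134922216135)) (b (a (l 16677776) (l 16679640)) (a (l 16675896) (l 16676424)))))))))), by decide +kernel⟩

def k1_pm_102 : ∃ t, chk3 f_pm_102 t 6 4 1 = true :=
  ⟨(b (l 3) (b (a (b (l 3) (a (l 3) (b (l 3) (a (l 3) (b (l 3) (l 202031159335)))))) (b (a (l 3) (b (a (l 3) (b (l 3) (a (l 3) (b (l 3) (l 307794737095))))) (a (b (l 3) (a (l 3) (l 312626560039))) (b (a (l 317458408135) (l 208473613847)) (a (l 16723128) (l 16743112)))))) (a (b (a (l 3) (b (l 367387414423) (l 225116614599))) (a (b (l 211694841623) (l 16727664)) (b (l 16731392) (l 16726048)))) (b (a (b (a (l 308331597463) (l 16739624)) (l 16734744)) (b (l 16738512) (l 16712456))) (a (b (l 16729896) (l 16725048)) (b (l 16728408) (l 16725288)))))))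 (a (b (a (b (l 3) (a (l 95193776759) (b (l 16701176) (l 16697144)))) (b (a (b (l 3) (l 120426733399)) (b (l 16722208) (l 16716032))) (a (b (l 16707616) (l 16702472)) (b (l 16710928) (l 16706224))))) (a (b (a (b (l 16688304) (l 16685344)) (l 16691256)) (a (l 16678936) (l 16685088))) (b (a (l 16696688) (l 16701288)) (a (l 16674376) (l 16713664))))) (b (a (b (a (l 16719400) (l 16726888)) (a (b (l 16712504) (l 16708216)) (b (l 16713024) (l 16715088)))) (b (a (l 16718968) (l 16731464)) (b (l 16728936) (l 16726992)))) (a (b (a (l 16710928) (l 16724184)) (l 16722424)) (b (a (l 16724488) (l 16719488)) (a (l 16717368) (l 16708856)))))))), by decide +kernel⟩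

def k2_pm_102 : ∃ t, chk3 f_pm_102 t 14 16 1 = true :=
  ⟨(l 3), by decide +kernel⟩

def k3_pm_102 : ∃ t, chk3 f_pm_102 t 28 17 1 = true :=
  ⟨(b (l 3) (a (b (l 3) (b (l 3) (a (l 3) (b (l 3) (a (l 3) (l 290614906599)))))) (b (b (l 3) (a (l 3) (b (l 3) (a (l 3) (l 320142804791))))) (b (a (b (l 3) (a (l 3) (l 305647302359))) (b (a (l 322827173063) (c (l 186461968023) (l 189683187191))) (a (l 203641808503) (l 16761912)))) (a (b (a (l 298667975383) (l 217600446135)) (l 186461928423)) (b (l 16760528) (l 16757432))))))), by decide +kernel⟩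

def k4_pm_102 : ∃ t, chk3 f_pm_102 t 58 34 1 = true :=
  ⟨(b (l 3) (a (l 3) (b (l 3) (a (l 3) (a (l 3) (b (l 3) (a (b (l 3) (a (l 316921588023) (l 297594234103))) (b (l 3) (b (l 290078040263) (l 16764440)))))))))), by decide +kernel⟩

def k5_pm_102 : ∃ t, chk3 f_pm_102 t 59 34 1 = true :=
  ⟨(b (a (l 3) (b (l 3) (a (l 3) (b (l 3) (b (a (l 3) (c (l 295983632775) (a (l 3) (l 298131111111)))) (b (a (l 3) (a (l 290614919111) (l 254107694871))) (a (c (l 295983631351) (l 301889206951)) (c (l 16768968) (l 250349598087))))))))) (a (b (a (l 3) (b (l 3) (a (l 3) (c (b (l 312089757607) (a (c (l 287393693159) (l 289004303463)) (l 253570825991))) (b (l 317458461911) (b (a (l 316921588199) (l 272361302151)) (a (l 276656268967) (l 16764536)))))))) (a (b (b (l 3) (b (a (l 3) (c (l 289541174439) (a (l 3) (l 283635588199)))) (a (l 3) (a (a (l 302426071191) (l 272361299239)) (l 16764936))))) (a (c (b (b (l 293836141303) (l 254107694983)) (l 16765280)) (b (a (l 301889199575) (a (l 277730007079) (l 256792042407)))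 (l 16762592))) (c (l 222432309335) (b (l 16762896) (l 16761624))))) (b (b (b (a (c (l 287393691399) (a (l 3) (l 277193139351))) (l 16765336)) (a (a (a (l 295446749927) (l 266455719879)) (l 16765320)) (l 16764696))) (a (c (l 16765848) (l 16763280)) (l 16763736))) (l 16762256)))) (b (a (b (a (c (l 311016019143) (b (l 3) (l 315310979239))) (c (b (l 306721050295) (a (l 273971920983) (l 247665247639))) (b (a (l 3) (l 308868528391)) (a (b (l 308868526551) (l 264308239991)) (c (l 249812728503) (l 251960209799)))))) (b (b (a (a (l 311016011527) (a (l 277193141495) (l 251960207207))) (l 16766432)) (a (c (l 251960213559) (a (l 269676948039) (l 16765104))) (l 16765784))) (a (l 16765528) (l 16764824)))) (b (b (a (b (a (l 295446756999) (l 258939532839)) (c (l 248738990151) (a (l 261087015783) (l 16766240)))) (l 16766984)) (a (l 16766688) (l 16765832))) (l 16764440))) (a (b (l 16763256) (l 16760784)) (b (l 16762032) (l 16759416)))))), by decide +kernel⟩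

def k6_pm_102 : ∃ t, chk3 f_pm_102 t 29 35 1 = true :=
  ⟨(a (b (a (b (b (l 3) (b (l 3) (a (l 3) (a (l 3) (c (l 287930560471) (l 294373005575)))))) (b (b (a (l 3) (a (l 288467432423) (l 16763840))) (a (a (l 3) (l 289541174311)) (l 16763256))) (a (a (a (l 271287564823) (l 244980887015)) (l 16763432)) (l 16761368)))) (b (b (b (b (a (l 3) (a (c (l 301352333719) (l 308868520967)) (l 16764088))) (a (l 3) (a (c (l 247665243815) (l 250886463719)) (l 16763448)))) (b (a (a (l 3) (l 308331652871)) (a (l 16764008) (l 16762816))) (a (a (l 3) (c (l 244980889335) (l 248202109143))) (l 16762760)))) (a (b (a (a (l 312089749415) (l 273435043079)) (l 16763704)) (a (l 16763760) (l 16762440))) (l 16761200))) (b (a (l 16761200) (l 16758712)) (l 16757408)))) (b (a (b (l 16760192) (l 16757608)) (a (l 16775832) (l 16741104))) (a (a (l 16754960) (l 16730840)) (l 16735496)))) (b (a (b (b (a (l 16761552) (l 16759776)) (l 16747744)) (b (a (l 16756608) (l 16754280)) (l 16730928))) (b (a (b (l 16758352) (l 16754968)) (l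 16753760)) (l 16747952))) (b (a (l 16725472) (l 16745240)) (l 16763640)))), by decide +kernel⟩

def k7_pm_102 : ∃ t, chk3 f_pm_102 t 15 16 1 = true :=
  ⟨(a (b (l 3) (a (b (l 3) (a (l 3) (b (l 3) (a (b (l 3) (a (l 3) (c (l 300815480215) (l 309405411767)))) (b (a (l 3) (c (l 295983642951) (l 304036703911))) (b (a (l 301889218743) (a (l 263234514103) (l 248738996839))) (a (b (l 286856829975) (l 255181447063)) (l 16771208)))))))) (b (a (l 3) (a (a (a (l 3) (l 6)) (l 6)) (l 6))) (a (b (a (a (l 3) (b (l 3) (b (l 3) (l 291151802215)))) (b (a (l 3) (b (l 3) (l 282561868647))) (a (b (l 286856835463) (l 246591518327)) (c (l 16774000) (l 16776800))))) (b (a (b (a (l 294909898023) (c (l 246591519703) (l 250349613511))) (a (c (l 248739003031) (l 253033967575)) (l 16772072))) (l 16771504)) (a (a (l 16771056) (l 16770328)) (l 16779432)))) (a (b (b (a (b (l 267529490727) (l 16774328)) (l 16774008)) (a (l 16772576) (l 16771720))) (b (l 16758656) (l 16765560))) (b (b (l 6) (l 16790000)) (l 16763576))))))) (b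 (l 6) (a (b (l 6) (b (l 6) (a (b (l 6) (l 16736216)) (l 6)))) (l 6)))), by decide +kernel⟩

def k8_pm_102 : ∃ t, chk3 f_pm_102 t 30 17 1 = true :=
  ⟨(b (a (b (a (b (a (l 3) (b (l 3) (b (a (l 3) (a (l 300278600759) (b (l 294373019847) (l 257865796359)))) (a (a (l 304573567543) (b (l 300278599319) (l 264308246775))) (c (l 246054640311) (a (l 254107699735) (l 16768416))))))) (a (b (b (a (l 3) (a (l 3) (b (l 306184178839) (l 278803760903)))) (b (a (l 3) (a (l 280951244263) (l 16768864))) (a (a (l 3) (l 283098727591)) (l 16768480)))) (b (b (a (a (l 285783081831) (l 16768536)) (l 16767896)) (a (l 246591502903) (l 16767312))) (l 16766848))) (b (a (a (b (b (l 266992601095) (l 16769048)) (l 16768160)) (l 16768352)) (l 16767768)) (l 16765856)))) (b (a (b (b (a (l 3) (c (l 280414379191) (a (l 295446762087) (l 257865800567)))) (a (c (l 283098733159) (a (l 299741728695) (l 262697638279))) (l 242833412951))) (a (c (l 238538449335) (b (l 246591507751) (l 16767872))) (l 16768600))) (b (b (l 16773024) (l 16769240))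 (l 16767600))) (a (b (l 16766672) (l 16764296)) (b (l 16764808) (l 16761304))))) (b (a (a (b (l 16765144) (l 16763008)) (b (l 16763688) (l 16760624))) (a (l 16758992) (l 16756000))) (a (a (l 16747800) (l 16755272)) (l 16753432)))) (b (a (b (a (b (l 16757928) (l 16765216)) (b (l 16765472) (l 16761792))) (l 16758272)) (b (a (l 16760464) (l 16758576)) (a (l 16755704) (l 16751400)))) (a (a (l 16773952) (l 16728232)) (b (l 16746320) (l 16738872))))) (a (b (a (b (l 16750112) (l 16747784)) (b (l 16748352) (l 16741552))) (a (l 16737856) (l 16730512))) (b (a (l 16736856) (l 16727640)) (a (l 16722040) (l 16712640))))), by decide +kernel⟩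

def k9_pm_102 : ∃ t, chk3 f_pm_102 t 31 17 1 = true :=
  ⟨(a (b (b (a (b (a (l 16754080) (l 16749136)) (l 16744112)) (a (l 16761144) (l 6))) (a (l 16753760) (c (l 16722352) (l 16722160)))) (b (a (l 16717640) (l 16706888)) (a (l 16702464) (l 16691544)))) (b (a (b (l 6) (a (l 16713792) (l 6))) (l 6)) (a (b (l 16716344) (l 16679864)) (b (a (l 16686216) (l 6)) (l 16667360))))), by decide +kernel⟩

def k10_pm_102 : ∃ t, chk3 f_pm_102 t 7 9 1 = true :=
  ⟨(b (a (a (b (b (a (b (a (b (l 3) (l 311015972599)) (b (a (l 289004288855) (l 16758560)) (l 16745400))) (a (b (l 229411589495) (l 16751592)) (l 16751584))) (b (a (l 16755416) (a (l 16753896) (l 16731592))) (a (l 16729136) (l 16747120)))) (a (b (a (l 16747472) (l 16746504)) (a (l 16742512) (l 16740872))) (b (a (l 16744192) (l 16741752)) (l 16738464)))) (b (a (b (l 16725568) (l 16732352)) (l 16740688)) (a (l 16736392) (l 16733016)))) (b (b (a (b (a (l 16742288) (l 16741152)) (l 16741336)) (a (l 16740416) (l 16733888))) (a (a (l 16744232) (l 16740224))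 (a (l 16733072) (l 16724840)))) (a (b (a (l 16736480) (l 16730800)) (l 16700712)) (b (l 16718672) (l 16706480))))) (a (a (b (b (l 16706456) (l 16712088)) (b (l 16701144) (l 16689472))) (b (b (a (l 16709752) (l 16700504)) (l 16694792)) (b (l 16683480) (l 16671432)))) (b (a (b (a (l 16690176) (l 16679064)) (l 16695448)) (a (b (l 16667176) (l 16656672)) (b (l 16654456) (l 16643696)))) (a (b (l 16663280) (l 16651128)) (a (l 16660448) (l 16647144)))))) (a (a (b (b (a (l 16730800) (l 16701344)) (a (b (l 16724112) (l 16718824)) (l 16688624))) (b (a (l 16709880) (l 16695960)) (l 16689384))) (b (b (a (l 16708224) (l 16692880)) (a (l 16693936) (l 16678192))) (a (l 16673104) (l 16657104)))) (a (b (a (b (l 16677008) (l 16663288)) (b (l 16658776) (l 16645608))) (a (l 16642680) (l 16668904))) (b (a (b (l 16638120) (l 16624576)) (b (l 16613864) (l 16642152))) (a (l 16627800) (b (l 16588240) (l 16577168))))))), by decide +kernel⟩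

def k11_pm_102 : ∃ t, chk3 f_pm_102 t 2 5 1 = true :=
  ⟨(b (b (b (a (b (l 3) (l 2)) (a (b (a (l 3) (b (l 138680314759) (a (l 16675456) (l 16674696)))) (a (b (l 154786448839) (l 16678760)) (b (l 16701688) (l 16675672)))) (b (a (a (b (l 16674448) (l 16673928)) (b (l 16673992) (l 16672312))) (a (l 16671632) (l 16676328))) (a (b (l 16671280) (l 16682256)) (b (l 16689512) (l 16696512)))))) (a (l 2) (b (a (a (b (l 16679976) (l 16683280)) (b (l 16679696) (l 16687608))) (a (b (l 16690120) (l 16695640)) (l 16701800))) (b (a (a (b (l 16687736) (l 16690272)) (l 16672264)) (a (l 16699048) (l 16702792))) (a (a (l 16685576) (l 16677080)) (a (b (l 16700680) (l 16701112)) (b (l 16702400) (c (l 16725440) (l 16718296))))))))) (a (l 2) (a (a (l 16674192) (l 16694608)) (a (l 16692272) (b (l 16694304) (l 16681008)))))) (a (l 2) (a (b (a (l 2) (l 16676888)) (l 2)) (a (b (l 16669288) (l 16646688)) (b (l 16660144) (l 16633808)))))), by decide +kernel⟩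

def k12_pm_102 : ∃ t, chk3 f_pm_102 t 3 5 1 = true :=
  ⟨(a (b (b (b (a (b (a (a (l 16690608) (l 16703000)) (l 16715824)) (a (l 16707240) (l 16714088))) (a (b (l 16717008) (a (l 16711576) (l 16704480))) (b (l 16722312) (l 16687936)))) (a (b (a (l 16707336) (a (l 16708744) (l 16706328))) (b (a (l 16704056) (l 16699112)) (a (b (l 16700176) (l 16695680)) (l 16731760)))) (b (a (l 16695464) (l 16673544)) (a (b (l 16684088) (b (l 16677032) (l 16671912))) (b (l 16661904) (b (l 16654872) (l 16649824))))))) (a (a (l 16678960) (l 16688976)) (a (b (l 16660240) (l 16641688)) (b (l 16637344) (l 16617488))))) (a (a (b (l 16648560) (l 16619896)) (b (l 16655712) (l 16603960))) (a (b (l 16698848) (l 16582192)) (b (b (l 16598384) (l 16580184)) (l 16554672))))) (a (b (b (a (b (a (l 16675824) (l 16661232)) (b (l 16646672) (b (l 16634776) (b (l 16627680) (l 16622624))))) (b (a (l 16644952) (l 16628776)) (b (l 16635512) (b (l 16602448) (b (l 16595272) (l 16590184)))))) (a (a (l 16607136) (l 16591736)) (a (l 16574784)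 (l 16558176)))) (a (b (b (l 16569328) (l 16550448)) (l 16523928)) (b (a (l 16534640) (l 16517712)) (a (l 16498192) (l 16481072))))) (b (b (a (b (a (l 16614320) (l 16600144)) (b (a (l 16592088) (l 16577984)) (b (l 16572904) (b (l 16565744) (l 16560672))))) (b (a (b (l 16589336) (l 16576376)) (b (l 16565776) (l 16553976))) (b (a (l 16562016) (l 16541352)) (b (a (l 16550072) (l 16530800)) (a (b (l 16543008) (l 16538024)) (b (l 16524336) (l 16519640))))))) (a (a (l 16543560) (l 16529552)) (a (l 16513944) (l 16495872)))) (a (b (a (l 16502872) (l 16488792)) (a (l 16466128) (l 16451984))) (b (a (l 16473240) (l 16497320)) (a (l 16436456) (l 16418736))))))), by decide +kernel⟩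

def k13_pm_102 : ∃ t, chk3 f_pm_102 t 1 3 1 = true :=
  ⟨(a (a (l 2) (b (a (l 2) (b (a (l 2) (b (l 16610640) (l 2))) (l 2))) (l 2))) (a (b (a (b (a (b (l 16594328) (l 16572312)) (b (l 16576592) (l 16552952))) (a (l 2) (b (l 16533160) (l 2)))) (b (a (b (l 16553120) (l 16527952)) (b (l 16524104) (l 16497576))) (a (b (l 16506776) (l 16489640)) (b (l 16475144) (l 16456856))))) (a (l 2) (a (l 2) (b (l 16458208) (l 2))))) (b (a (b (a (b (l 16492136) (l 16464472)) (b (l 16456744) (l 16428240))) (a (b (l 16440992) (l 16421720)) (b (l 16403944) (l 16383912)))) (b (a (b (a (l 16433184) (l 16419056)) (l 16397120)) (b (a (l 16403624) (l 16386048)) (a (l 16374632) (l 16357256)))) (a (b (l 16372336) (l 16351824)) (b (l 16362152) (l 16320528))))) (b (a (a (b (l 16406688) (l 16395936)) (b (l 16368168) (l 16356768))) (a (b (l 16335632) (l 16323800)) (b (l 16304184) (l 16292224)))) (a (a (l 2) (l 16389784)) (a (b (l 16316384) (l 16313416)) (b (l 16284688) (l 16281648)))))))), by decide +kernel⟩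

theorem s14_pm_102 : ∃ t, chk3 f_pm_102 t 1 5 1 = true := ex3_a k11_pm_102 k12_pm_102

theorem s15_pm_102 : ∃ t, chk3 f_pm_102 t 15 17 1 = true := ex3_a k8_pm_102 k9_pm_102

theorem s16_pm_102 : ∃ t, chk3 f_pm_102 t 15 8 1 = true := ex3_b k7_pm_102 s15_pm_102

theorem s17_pm_102 : ∃ t, chk3 f_pm_102 t 29 34 1 = true := ex3_a k4_pm_102 k5_pm_102

theorem s18_pm_102 : ∃ t, chk3 f_pm_102 t 29 17 1 = true := ex3_b s17_pm_102 k6_pm_102

theorem s19_pm_102 : ∃ t, chk3 f_pm_102 t 14 17 1 = true := ex3_a k3_pm_102 s18_pm_102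

theorem s20_pm_102 : ∃ t, chk3 f_pm_102 t 14 8 1 = true := ex3_b k2_pm_102 s19_pm_102

theorem s21_pm_102 : ∃ t, chk3 f_pm_102 t 7 8 1 = true := ex3_a s20_pm_102 s16_pm_102

theorem s22_pm_102 : ∃ t, chk3 f_pm_102 t 7 4 1 = true := ex3_b s21_pm_102 k10_pm_102

theorem s23_pm_102 : ∃ t, chk3 f_pm_102 t 3 4 1 = true := ex3_a k1_pm_102 s22_pm_102

theorem s24_pm_102 : ∃ t, chk3 f_pm_102 t 1 4 1 = true := ex3_a k0_pm_102 s23_pm_102

theorem s25_pm_102 : ∃ t, chk3 f_pm_102 t 1 2 1 = true := ex3_b s24_pm_102 s14_pm_102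

theorem s26_pm_102 : ∃ t, chk3 f_pm_102 t 1 1 1 = true := ex3_b s25_pm_102 k13_pm_102

theorem c_pm_102 : CertB 536870912 536870912 0 536870912 780900216 37827925 3 eng mog cd0q1 cd1q0 pd2 true true false .npp 1 0 2
    ndB0q1 ndB1q0 pcB2 cut_pm_102 Ext.none :=
  certB1 (fam := true) (s1 := true) (s2 := false) (a := 1) (b := 0) (c := 2) (cn := .npp) (n1 := ndB0q1) (n2 := ndB1q0) (pc := pcB2) (cut := cut_pm_102) (xt := Ext.none) (P1 := 536870912) (W1 := 536870912) (P2 := 0) (W2 := 536870912) (P3 := 780900216) (W3 := 37827925) (N0 := 3) (En := eng) (mo := mog) (C1 := cd0q1) (C2 := cd1q0) (C3 := pd2)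
    rfl (fun _ => rfl) s26_pm_102

noncomputable def f_pm_112 : ℕ → ℕ → ℕ → ℕ → Bool := onCell 536870912 536870912 1073741824 536870912 780900216 37827925
    (rowB 3 eng mog cd0q1 cd1q1 pd2 1 true true false .dn 1 1 2 (qsf 536870912 536870912 536870912 536870912 2) ndB0q1 ndB1q1 pcB2 Cut.none Ext.none)

def k0_pm_112 : ∃ t, chk3 f_pm_112 t 1 4 1 = true :=
  ⟨(a (a (l 3) (a (l 3) (l 1))) (l 1)), by decide +kernel⟩

def k1_pm_112 : ∃ t, chk3 f_pm_112 t 1 5 1 = true :=
  ⟨(a (b (b (b (a (a (l 3) (b (l 3) (a (l 3) (b (l 3) (a (l 3) (l 16656264)))))) (a (a (b (l 3) (b (a (l 3) (l 1)) (a (b (l 16651632) (l 16653272)) (l 224982235303)))) (l 1)) (l 1))) (a (b (a (b (l 3) (l 3)) (b (a (l 3) (b (l 18421191991) (l 16681888))) (a (b (l 116668575575) (l 16687000)) (b (l 16662128) (l 16662984))))) (b (a (a (b (l 3) (a (l 3) (l 16663208))) (b (a (l 16665800) (l 16666376)) (a (l 16664720) (l 16665560)))) (a (b (l 16666040) (l 16665536)) (b (l 16663288) (l 16663176)))) (a (b (b (a (l 16681768) (l 16664168))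 (a (l 16659792) (l 16663408))) (a (l 16658304) (a (l 16661504) (l 16662840)))) (b (b (a (l 16664840) (l 16663008)) (a (l 16664416) (l 16663304))) (a (a (l 16663640) (l 16664032)) (l 16663792)))))) (a (a (b (b (a (l 16656024) (l 16652416)) (a (l 16658656) (l 16654912))) (b (b (l 16678840) (l 16679464)) (b (l 16659832) (l 16660776)))) (b (l 1) (b (l 1) (b (l 1) (l 16652384))))) (l 1)))) (a (a (a (a (l 16659152) (l 16642392)) (b (a (l 16653672) (l 16655968)) (l 16639936))) (a (b (a (l 16657824) (l 16659352)) (l 16646496)) (b (l 16660312) (l 16650824)))) (a (a (b (l 16658664) (l 16651688)) (b (l 16651336) (l 16646520))) (a (l 195454365847) (l 1))))) (a (a (b (a (l 16601672) (l 16614296)) (a (l 16559008) (l 16576048))) (b (a (l 16645648) (l 16632592)) (a (l 16591008) (l 16603352)))) (a (b (a (l 16637000) (l 16635080)) (a (l 16612184) (l 16614440))) (b (a (l 16624272) (l 187401309095)) (a (l 16607536) (l 16593016)))))) (a (b (l 1) (a (b (l 1) (a (l 16570464) (l 1))) (l 1))) (l 1))), by decide +kernel⟩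

def k2_pm_112 : ∃ t, chk3 f_pm_112 t 1 3 1 = true :=
  ⟨(a (a (b (a (b (a (l 16511536) (l 16513304)) (a (l 16415352) (l 16423288))) (b (a (l 16534512) (l 16574208)) (a (l 16452048) (l 16479216)))) (a (b (a (b (l 16321192) (l 16273816)) (l 16330248)) (a (b (l 16228784) (l 16187784)) (b (l 16261008) (l 16217264)))) (b (a (l 16365192) (l 16400552)) (a (l 16277456) (l 16319680))))) (b (b (a (a (l 16568376) (l 16576800)) (a (l 16575568) (b (l 16575864) (l 16556192)))) (a (a (l 16503184) (l 16520592)) (a (l 16527784) (l 16525312)))) (a (b (a (l 16434112) (l 16462176)) (a (l 16363104) (l 16403768))) (b (a (l 16480264) (l 16487000)) (a (l 16436312) (l 16456760)))))) (a (b (b (a (a (b (l 16557968) (l 16541944)) (b (l 16532104) (l 16520592))) (a (b (l 1) (l 16488704)) (l 1))) (a (a (b (l 16524248) (l 16506552)) (b (l 16506592) (l 16491800))) (a (b (l 16478736) (l 16467200)) (b (l 16441400) (l 16433448))))) (a (b (a (l 16525152) (l 16534576)) (a (l 16463352) (b (l 16458616) (l 16456552)))) (b (a (l 16450752)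 (l 16462744)) (a (l 16439768) (l 16412680))))) (b (a (b (l 1) (a (b (l 1) (l 16393752)) (l 1))) (l 1)) (a (b (a (b (l 16388216) (l 16382880)) (b (l 16346336) (l 16343584))) (a (l 16379744) (l 16426136))) (b (a (b (l 1) (l 16308472)) (l 1)) (a (b (l 16308880) (l 16311376)) (b (l 16276336) (l 16280296)))))))), by decide +kernel⟩

theorem s3_pm_112 : ∃ t, chk3 f_pm_112 t 1 2 1 = true := ex3_b k0_pm_112 k1_pm_112

theorem s4_pm_112 : ∃ t, chk3 f_pm_112 t 1 1 1 = true := ex3_b s3_pm_112 k2_pm_112

theorem c_pm_112 : CertB 536870912 536870912 536870912 536870912 780900216 37827925 3 eng mog cd0q1 cd1q1 pd2 true true false .dn 1 1 2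
    ndB0q1 ndB1q1 pcB2 Cut.none Ext.none :=
  certB1 (fam := true) (s1 := true) (s2 := false) (a := 1) (b := 1) (c := 2) (cn := .dn) (n1 := ndB0q1) (n2 := ndB1q1) (pc := pcB2) (cut := Cut.none) (xt := Ext.none) (P1 := 536870912) (W1 := 536870912) (P2 := 536870912) (W2 := 536870912) (P3 := 780900216) (W3 := 37827925) (N0 := 3) (En := eng) (mo := mog) (C1 := cd0q1) (C2 := cd1q1) (C3 := pd2)
    rfl (fun _ => rfl) s4_pm_112

noncomputable def f_pm_113 : ℕ → ℕ → ℕ → ℕ → Bool := onCell 536870912 536870912 1610612736 536870912 780900216 37827925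
    (rowB 3 eng mog cd0q1 cd1q1 pd3 1 true true false .nn 1 1 3 (qsf 536870912 536870912 536870912 536870912 3) ndB0q1 ndB1q1 pcB3 Cut.none Ext.none)

def k0_pm_113 : ∃ t, chk3 f_pm_113 t 2 1 1 = true :=
  ⟨(b (b (a (a (b (a (b (b (l 16169896) (l 16154928)) (b (l 130022200487) (l 2))) (b (l 16193368) (l 172972044263))) (b (a (l 2) (l 152570858487)) (l 2))) (b (a (b (l 16229784) (l 16197656)) (l 16254384)) (b (a (l 16213016) (l 16210912)) (a (l 178340773943) (l 16188672))))) (a (b (a (l 16297408) (l 16341632)) (a (l 16288840) (l 16299832))) (b (a (l 16384208) (l 16421136)) (a (l 16356752) (l 16412008))))) (b (a (a (l 2) (b (a (l 2) (l 202500007751)) (l 2))) (a (a (b (l 16218656) (l 231491114135)) (a (l 185320374071) (l 16289672))) (a (l 16345872) (l 16423904)))) (a (l 2) (a (b (a (l 2) (l 258334774375)) (l 2)) (a (b (l 16347440) (l 303431965895)) (l 16458424)))))) (a (l 2) (b (b (a (l 2) (b (a (l 2) (l 16474944)) (l 2))) (l 2)) (l 2)))), by decide +kernel⟩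

def k1_pm_113 : ∃ t, chk3 f_pm_113 t 3 1 1 = true :=
  ⟨(b (b (a (a (b (a (l 16448984) (b (l 16461312) (l 16469496))) (a (l 16460056) (l 16495984))) (b (a (l 16610544) (b (l 16436008) (l 16456848))) (a (b (l 16497288) (l 16533184)) (l 16509360)))) (a (b (a (b (l 16403200) (l 16426328)) (b (l 16362072) (l 16384880))) (a (l 16484608) (l 16443496))) (b (a (b (l 16324712) (l 16345296)) (b (l 16289592) (l 16307096))) (a (l 16399768) (l 16355032))))) (a (a (b (a (l 16499368) (l 16565152)) (a (l 16572960) (l 16683920))) (b (a (b (l 16582576) (l 16648296)) (l 16634032)) (b (a (l 16733680) (l 16786520)) (l 16652432)))) (b (a (a (l 16624880) (l 16588344)) (a (l 16538488) (l 16481112))) (a (b (b (l 16754536) (l 16829624)) (l 16796824)) (b (b (l 16651856) (l 16726152)) (b (l 16813576) (l 16887184))))))) (a (b (b (a (b (l 16592000) (a (l 365172219383) (l 16596280))) (a (a (l 16673512) (l 16716776)) (b (l 16803544) (l 16760608)))) (a (a (l 2) (b (l 16571368) (l 2))) (b (a (l 16640728) (l 16716304)) (a (l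 16593664) (l 16679416))))) (b (a (l 2) (a (l 2) (b (l 16651672) (l 2)))) (l 2))) (b (b (a (b (l 16726632) (a (l 16838936) (l 16919504))) (b (c (l 16814848) (l 16756736)) (b (l 16744440) (l 16938304)))) (a (a (b (l 16790096) (l 16745816)) (l 16839176)) (a (l 16903520) (l 16887848)))) (a (b (a (b (l 16707840) (l 173509424759)) (b (l 16770640) (l 16732200))) (b (a (l 2) (l 276052401111)) (l 2))) (a (b (b (l 16827784) (l 16785328)) (b (l 16747016) (b (l 16702176) (l 2)))) (b (b (l 16882744) (l 16833552)) (b (b (l 16801616) (l 16793176)) (b (b (l 16775832) (l 16761280)) (b (l 16741928) (b (l 16727832) (l 4))))))))))), by decide +kernel⟩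

theorem s2_pm_113 : ∃ t, chk3 f_pm_113 t 1 1 1 = true := ex3_a k0_pm_113 k1_pm_113

theorem c_pm_113 : CertB 536870912 536870912 536870912 536870912 780900216 37827925 3 eng mog cd0q1 cd1q1 pd3 true true false .nn 1 1 3
    ndB0q1 ndB1q1 pcB3 Cut.none Ext.none :=
  certB1 (fam := true) (s1 := true) (s2 := false) (a := 1) (b := 1) (c := 3) (cn := .nn) (n1 := ndB0q1) (n2 := ndB1q1) (pc := pcB3) (cut := Cut.none) (xt := Ext.none) (P1 := 536870912) (W1 := 536870912) (P2 := 536870912) (W2 := 536870912) (P3 := 780900216) (W3 := 37827925) (N0 := 3) (En := eng) (mo := mog) (C1 := cd0q1) (C2 := cd1q1) (C3 := pd3)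
    rfl (fun _ => rfl) s2_pm_113

noncomputable def cut_pm_123_a : Cut := Cut.of [[⟨0, 1, 0, 67108864⟩, ⟨1, 1, 0, 67108864⟩, ⟨2, 2, 0, 16777216⟩], [⟨0, 0, 1, 26214400⟩, ⟨1, 1, 0, 33554432⟩, ⟨2, 1, 1, 26214400⟩]]

noncomputable def xt_pm_123_a : Ext := extD2 3 ⟨4, 1, 1, 5, 5, 2, 24, 25, 43, 100, 1, 8⟩ eng cd0q1 cd1q2a pd3 true true false .npn 1 2 3 rfl ndB0q1 ndB1q2a pcB3

noncomputable def f_pm_123_a : ℕ → ℕ → ℕ → ℕ → Bool := onCell 1610612736 536870912 0 536870912 780900216 37827925
    (rowB 3 eng mog cd0q1 cd1q2a pd3 2 true true false .npn 1 2 3 (qsf 536870912 536870912 0 536870912 3) ndB0q1 ndB1q2a pcB3 cut_pm_123_a xt_pm_123_a)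

def k0_pm_123_a : ∃ t, chk3 f_pm_123_a t 4 2 1 = true :=
  ⟨(a (l 1) (b (l 1) (a (l 1) (b (l 1) (l 16550256))))), by decide +kernel⟩

def k1_pm_123_a : ∃ t, chk3 f_pm_123_a t 4 6 1 = true :=
  ⟨(a (l 1) (b (a (l 1) (b (l 16518768) (l 16494600))) (a (b (c (l 16459760) (l 16453200)) (a (l 16426216) (l 16429648))) (b (l 16468040) (a (l 16434312) (l 16440264)))))), by decide +kernel⟩

def k2_pm_123_a : ∃ t, chk3 f_pm_123_a t 8 7 1 = true :=
  ⟨(b (a (l 1) (b (c (l 16393592) (l 16379840)) (c (l 16363544) (l 16346368)))) (b (a (a (l 1) (b (l 16331128) (l 16312400))) (c (b (l 16339384) (l 16321912)) (b (l 16319800) (l 16300736)))) (a (b (a (c (l 16304360) (l 16278880)) (c (l 16302656) (l 16278448))) (c (a (b (l 16289000) (a (l 16278912) (l 16277856))) (b (l 16287544) (a (l 16277224) (l 16277040)))) (a (b (l 16262400) (a (l 16251240) (l 16250840))) (b (l 16262192) (a (l 16250816) (l 16251176)))))) (b (a (c (l 16302672) (l 16279496)) (c (l 16304504) (l 16281992))) (a (c (b (l 16287864) (a (l 16277336)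 (l 16278136))) (b (l 16263488) (a (l 16251928) (l 16253064)))) (c (b (l 16290168) (a (l 16279440) (l 16281288))) (b (l 16266328) (a (l 16254608) (l 16256560))))))))), by decide +kernel⟩

def k3_pm_123_a : ∃ t, chk3 f_pm_123_a t 9 7 1 = true :=
  ⟨(b (a (b (c (l 16397912) (l 16385088)) (a (l 16360184) (l 16364096))) (b (a (l 16400040) (l 16406536)) (a (l 16369728) (l 16377144)))) (b (b (a (a (l 16335224) (l 16339816)) (l 16350184)) (a (a (l 16317472) (l 16322608)) (a (l 16329680) (l 16338880)))) (a (b (a (c (l 16308408) (l 16286064)) (c (l 16314536) (l 16291760))) (a (c (b (l 16294592) (a (l 16283688) (l 16286680))) (b (l 16270784) (a (l 16258936) (l 16261744)))) (c (b (l 16301344) (a (l 16290280) (b (l 16296768) (l 16292288)))) (b (l 16276968) (a (b (l 16267600) (l 16262424)) (l 16284488)))))) (b (a (c (l 16323104) (l 16299208)) (c (l 16334392) (l 16308576))) (b (a (c (l 16310664) (l 16285016)) (c (l 16322864) (l 16295120))) (b (a (c (a (l 16301632) (l 16307216)) (l 16277768)) (a (c (l 16313552)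 (l 16285432)) (c (l 16320704) (l 16291264)))) (a (c (a (l 16318272) (c (l 16308400) (l 16297056))) (a (l 16270528) (c (l 16283216) (l 16266872)))) (a (c (c (b (l 16316248) (l 16314328)) (l 16303240)) (c (l 16288840) (l 16272080))) (c (b (l 16338824) (c (l 139998375091339279) (l 16309192))) (c (l 16295112) (l 16277832))))))))))), by decide +kernel⟩

def k4_pm_123_a : ∃ t, chk3 f_pm_123_a t 5 2 1 = true :=
  ⟨(a (b (a (b (l 16653632) (l 16627688)) (b (l 16673728) (l 16647088))) (a (b (l 16599936) (l 16565904)) (b (l 16618808) (l 16583680)))) (b (a (b (l 16692904) (l 16666680)) (b (a (l 16707440) (l 16717104)) (l 16687072))) (a (b (l 16638648) (l 16604880)) (b (l 16660504) (l 16629560))))), by decide +kernel⟩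

def k5_pm_123_a : ∃ t, chk3 f_pm_123_a t 10 3 1 = true :=
  ⟨(b (b (a (l 16647360) (l 16539776)) (a (b (l 16482288) (l 16452216)) (b (l 16502384) (l 16474112)))) (b (a (b (a (l 16414744) (l 16424816)) (a (l 16386512) (l 16398024))) (b (a (l 16436920) (l 16451288)) (a (l 16411920) (l 16428432)))) (b (a (a (l 16357856) (b (l 16378160) (l 16364632))) (a (b (l 16393784) (l 16381840)) (b (l 16412840) (l 16403040)))) (a (c (b (a (l 16348728) (l 16366448)) (b (a (b (l 16340032) (l 16336552)) (l 140323212130140175)) (a (a (b (l 16328720) (l 140022564353228815)) (l 140114442315792399)) (a (l 140194294368485391) (l 140287752880128015))))) (b (a (l 16320064) (l 16333912)) (b (a (l 16307520) (a (l 16318504) (l 16326832))) (a (a (b (l 16297712) (c (b (l 16303112) (l 16301040)) (l 16284168))) (b (l 16304824) (c (l 139883132503506959) (b (l 16292192) (l 16290024))))) (a (b (l 16312656) (l 139858324770340879)) (l 139949652977074191)))))) (c (b (a (l 140635061179383823) (b (l 16417832) (l 140851665023582223)))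 (a (b (l 140526827989073935) (a (b (l 140415227538128911) (l 140379974441992207)) (b (l 140540228295524367) (l 140689830592790543)))) (c (b (l 140905334953082895) (a (l 140776829508943887) (b (l 140965189634916367) (l 140949452874137615)))) (b (l 140691823491399695) (a (l 140563043169484815) (l 140717799466090511)))))) (b (a (l 16371824) (l 140470203120041999)) (a (b (l 140161309009559567) (a (l 140026275214049295) (l 140116160312475663))) (b (a (l 140299435192451087) (l 140409936137568271)) (a (l 140400727691182095) (c (l 140468966187335695) (l 140210649619562511))))))))))), by decide +kernel⟩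

def k6_pm_123_a : ∃ t, chk3 f_pm_123_a t 11 6 1 = true :=
  ⟨(a (b (l 16626232) (a (l 16508920) (l 16524840))) (a (b (l 16584576) (l 16543672)) (b (l 16600640) (l 16566072)))), by decide +kernel⟩

def k7_pm_123_a : ∃ t, chk3 f_pm_123_a t 11 14 1 = true :=
  ⟨(a (b (a (b (l 16474224) (l 16461920)) (b (l 16493552) (l 16482848))) (a (l 16511408) (l 16493848))) (b (a (a (l 16506072) (l 16540592)) (a (l 16534544) (l 16550944))) (a (l 16545104) (l 16582216)))), by decide +kernel⟩

def k8_pm_123_a : ∃ t, chk3 f_pm_123_a t 22 15 1 = true :=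
  ⟨(b (a (b (l 16436240) (a (l 16422336) (l 16437072))) (b (l 16465312) (b (l 16462904) (l 16482960)))) (b (b (a (a (l 16417568) (l 16433792)) (a (l 16451864) (l 16472008))) (a (a (l 140848297769664527) (c (l 16481832) (l 16403736))) (b (a (l 16472560) (l 16493712)) (a (l 141179457003257871) (l 141563873800781839))))) (a (c (b (a (l 141056998871760911) (a (l 141204814498480143) (l 141310711235067919))) (a (b (l 141035008638697487) (c (a (l 141102972218671119) (l 141213473161199631)) (l 140886093503496207))) (b (a (l 141190795726356495) (l 141302396180693007)) (a (c (b (l 141331327088525327) (l 141330433736458255)) (l 141036108154028047)) (c (b (l 141454128819781647) (a (l 141423892244856847) (l 141487251615957007))) (b (l 141145234706071567) (l 141142623366791183))))))) (b (a (l 140536654882242575) (l 140681446852689935)) (a (c (l 140619118278131727) (l 140337024766951439)) (b (l 140826994701910031) (a (l 140583659024121871) (c (l 140828850169380879) (l 140509373255778319))))))) (b (a (c (b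 (l 141469659418083343) (l 141468697347817487)) (l 140855375887171599)) (c (b (l 141694715753021455) (l 141702137460523023)) (l 141059197899538447))) (a (c (b (a (l 141413378159689743) (l 141528345869041679)) (b (a (c (l 141573013540143119) (l 141254911014699023)) (l 141892902695911439)) (a (c (c (l 141656576442974223) (l 141496597466923023)) (l 141254704857513999)) (c (a (l 141848853541519375) (a (l 141715950083637263) (l 141747973366628367))) (l 141371459273555983))))) (c (b (l 140992952312610831) (a (l 140930623736578063) (l 141039819008622607))) (a (l 140611902735974415) (l 140712233193799695)))) (c (c (b (l 141875722898210831) (a (b (l 141821778099240975) (c (l 14) (a (l 141713613620953103) (l 141779103296258063)))) (l 14))) (b (l 141547312449028111) (a (b (l 141490481431478287) (c (l 141578442381541391) (l 141409529872105487))) (b (l 141617131454136335) (a (l 141590124695257103) (l 141836277874982927)))))) (b (c (l 141214984989720591) (l 140878603081334799)) (c (a (l 141154580559380495)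 (b (l 141274702229733391) (l 141275939181871119))) (a (l 140812632372346895) (l 140926225691705359)))))))))), by decide +kernel⟩

def k9_pm_123_a : ∃ t, chk3 f_pm_123_a t 23 15 1 = true :=
  ⟨(b (a (b (l 16501352) (c (l 16532256) (l 16473888))) (b (l 16544920) (b (l 16549824) (l 16554144)))) (b (a (a (b (l 16494248) (l 142151906410856463)) (b (l 16518648) (l 142400052494270479))) (a (b (l 16545248) (c (l 16585816) (l 16515832))) (b (l 16574248) (c (l 14) (l 16545304))))) (b (c (a (a (b (l 141943480312004623) (l 141959354516832271)) (b (l 142216777729064975) (l 142242135223582735))) (l 14)) (a (a (l 141286521977290767) (l 141897987934699535)) (a (b (l 141807553159135247) (l 141822465291124751)) (b (l 142107994774585359) (l 142133008671653903))))) (c (c (l 14) (a (a (b (l 141806659809476623) (a (c (l 14) (a (l 141632799498977295) (l 141700625636900879))) (b (l 141889672956772367) (l 14)))) (l 14)) (l 14))) (b (a (a (a (l 141223781085593615) (l 141349194157309967)) (a (l 141480998141624335) (l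 141619467916509199))) (a (a (l 141765015798890511) (l 141917847947264015)) (a (l 142078376678539279) (l 14)))) (a (a (a (c (a (l 141369810006441999) (l 141434818645245967)) (l 141045728887242767)) (c (b (l 141532743919730703) (c (l 141809408554467343) (l 141447188154679311))) (l 141171554275868687))) (a (b (c (l 141671626011607055) (l 141302602345086991)) (c (c (l 14) (l 141586551282958351)) (l 141485533594042383))) (c (b (l 141817586210979855) (b (l 142005533982392335) (l 14))) (b (l 141440659802996751) (c (l 141541814894886927) (l 141349400320442383)))))) (c (l 14) (a (a (b (l 141585864087879695) (c (b (l 141689149483663375) (l 14)) (l 141494948202758159))) (b (l 141738490077724687) (b (l 141745980503179279) (c (l 14) (l 141830505440526351))))) (l 14))))))))), by decide +kernel⟩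

def k10_pm_123_a : ∃ t, chk3 f_pm_123_a t 3 2 1 = true :=
  ⟨(a (a (b (a (b (a (l 16726632) (l 16756864)) (a (l 16702680) (l 16713128))) (b (a (a (l 16742520) (l 16746872)) (b (l 16779248) (l 16747992))) (a (l 16723696) (l 16734456)))) (a (b (a (l 16677952) (l 16689992)) (a (l 16650080) (l 16665248))) (b (a (l 16703192) (l 16718072)) (a (b (l 16687160) (l 16677080)) (l 16702440))))) (b (a (b (b (a (a (l 16764352) (b (l 83986730039) (l 16767200))) (a (a (l 95797879655) (l 136600082583)) (l 192434655719))) (a (l 16756304) (a (l 16762496) (l 16768832)))) (a (l 16744160) (l 16753000))) (b (a (b (l 4) (a (l 95260997031) (l 141431917959))) (l 4)) (b (a (l 21709696279) (a (l 68954319783) (l 103314030231))) (a (l 16757992) (l 16765872))))) (a (b (a (l 16730296) (l 16741776)) (a (l 16717744) (l 16731736))) (b (a (l 16751480) (l 16759456)) (a (l 16743496) (l 16752912)))))) (a (a (b (b (l 4) (a (b (l 4) (a (l 16770760) (l 87744765655))) (l 4))) (b (a (b (l 16767288) (l 16763824)) (b (a (l 79154852487)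 (l 84523531671)) (a (l 16767504) (l 16770960)))) (a (l 16760176) (b (l 16766240) (l 16763840))))) (b (l 4) (b (a (b (l 4) (a (l 74323003207) (b (l 4) (l 16771560)))) (l 4)) (a (b (a (l 16768936) (l 16771440)) (l 16767560)) (b (a (b (l 80765452423) (l 16771936)) (b (l 4) (l 99019058631))) (a (l 16769584) (l 46405726279))))))) (a (b (l 4) (a (b (l 4) (b (l 4) (a (b (l 122641442247) (l 68417432663)) (a (l 145189927767) (l 4))))) (l 4))) (l 4)))), by decide +kernel⟩

def k11_pm_123_a : ∃ t, chk3 f_pm_123_a t 12 6 1 = true :=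
  ⟨(a (a (b (l 16618984) (l 16591832)) (b (l 16639760) (l 16622976))) (b (a (b (l 16667528) (l 16660536)) (l 16687528)) (a (b (l 16657920) (l 16654304)) (l 16674768)))), by decide +kernel⟩

def k12_pm_123_a : ∃ t, chk3 f_pm_123_a t 24 14 1 = true :=
  ⟨(b (a (b (l 16579192) (l 16578152)) (b (l 16619168) (l 16622760))) (a (a (l 16572728) (l 16596888)) (a (l 16622848) (l 16634776)))), by decide +kernel⟩

def k13_pm_123_a : ∃ t, chk3 f_pm_123_a t 24 30 1 = true :=
  ⟨(a (a (l 16588472) (l 16616936)) (b (l 16630664) (a (l 16626816) (l 16614904)))), by decide +kernel⟩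

def k14_pm_123_a : ∃ t, chk3 f_pm_123_a t 24 62 1 = true :=
  ⟨(a (a (b (l 16605872) (a (l 16606616) (l 16611944))) (c (l 16611272) (b (l 16603496) (l 14)))) (a (c (l 16614632) (b (l 16620200) (l 16599200))) (b (l 16615416) (a (l 16613696) (l 16617952))))), by decide +kernel⟩

def k15_pm_123_a : ∃ t, chk3 f_pm_123_a t 24 126 1 = true :=
  ⟨(c (a (a (b (l 142634454828072975) (l 142635073304789007)) (b (l 142738702292533327) (l 142739595647074383))) (a (b (l 142838208112296015) (l 142839582503092303)) (b (a (l 16643152) (l 16647128)) (a (l 143091576836800591) (l 143138237369614415))))) (a (l 14) (a (b (l 142640983179509775) (l 142724133703417871)) (b (l 142745986558476367) (l 142828793484787791))))), by decide +kernel⟩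

def k16_pm_123_a : ∃ t, chk3 f_pm_123_a t 48 127 1 = true :=
  ⟨(a (b (c (a (l 142699119853895695) (l 142662698540466255)) (l 14)) (c (c (c (c (a (b (l 142891190810509455) (a (b (l 142879577217368207) (l 142880745448947855)) (l 142906583976476815))) (b (l 142943280182788175) (b (l 142945066889887823) (a (l 142933315857612879) (l 142959223104749647))))) (a (b (l 142862603503026319) (a (l 14) (b (l 142877172035027087) (l 142878202827620495)))) (b (l 142915105192263823) (b (l 142916617021407311) (a (l 142904522391715983) (l 142930635797315663)))))) (c (a (l 14) (a (l 14) (b (l 142899849465593999) (l 142901567453331599)))) (l 14))) (l 14)) (l 14))) (b (c (a (l 142715131510259791) (l 142766464968228943)) (l 14)) (c (b (a (a (l 142703449198035023) (l 142729493884174415)) (c (a (l 142990696629485647) (l 143015710523293775)) (l 142712451450781775))) (a (c (b (a (l 142941287317651535) (l 142966919686832207)) (a (a (c (l 142964239627288655) (l 142907202451423311)) (c (l 142977021452124239) (l 142920190434738255)))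 (c (b (l 142995781872402511) (l 142996469067399247)) (a (l 142933178418053199) (l 142946028962398287))))) (a (l 14) (b (l 142853532530213007) (c (a (l 142875935083839631) (l 142889060506124431)) (l 14))))) (a (c (b (l 142992277178073167) (c (l 143021345522139215) (a (l 142958879506726991) (l 142971592612085839)))) (b (l 142879783374815311) (c (a (l 142857037232193615) (l 142915036472754255)) (l 14)))) (b (c (l 143017359791358031) (l 142905759341461583)) (c (c (l 143046290696437839) (a (l 142984305717428303) (l 142996881383817295))) (a (c (l 142927955736576079) (l 14)) (c (l 142940737561444431) (l 142884043983241359)))))))) (l 14)))), by decide +kernel⟩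

def k17_pm_123_a : ∃ t, chk3 f_pm_123_a t 98 127 1 = true :=
  ⟨(b (a (c (c (l 143049520510943311) (l 142943692498010191)) (l 142735884729335823)) (c (c (l 143097692872409167) (l 142993857724678223)) (l 142744131075768399))) (a (c (a (b (l 142760967417610319) (b (c (l 143042167526670415) (l 142931529149628495)) (c (c (l 143070960992763983) (l 143015710523637839)) (c (a (l 142953519386280015) (l 142966232491638863)) (b (l 142903491598417999) (a (l 142897031966621775) (l 142909951230443599))))))) (b (l 142740832615186511) (b (c (l 143066769103519823) (l 142956955360362575)) (a (c (l 143061890020048975) (c (l 142978876877504591) (l 142922801774723151))) (c (l 143074122088988751) (c (l 142991452543877199) (l 142935583599575119))))))) (c (c (a (l 14) (a (l 14) (a (l 14) (b (l 142883631665627279) (l 142882600873754767))))) (l 14)) (l 14))) (b (c (a (l 142765571631022159) (l 142789967049441359)) (c (l 142705029745852495) (l 14))) (c (a (c (b (l 143091095802413135) (c (l 143119545671041231) (l 143065188555276367)))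 (b (l 142982175412617295) (c (a (l 143003959490773071) (l 143016397718175823)) (a (l 142948296704933967) (l 142960941090799695))))) (c (b (l 143115147623350479) (l 143116522013311183)) (b (l 143007120586915919) (c (l 143034951980040271) (a (l 142973516757172303) (l 142986092423544911)))))) (c (c (a (b (l 142898956111904847) (b (l 142898612514619471) (a (l 142891878004883535) (l 142904797268688975)))) (b (l 142924588481101903) (b (l 142924176164323407) (a (l 142917579093540943) (l 142930360918376527))))) (l 14)) (l 14)))))), by decide +kernel⟩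

def k18_pm_123_a : ∃ t, chk3 f_pm_123_a t 99 127 1 = true :=
  ⟨(b (a (c (c (l 143144765722067023) (l 143042992158998607)) (l 142751277910360143)) (c (c (l 143190807779377359) (l 143090958362034255)) (l 142791066496237647))) (a (c (b (c (l 143148682733437135) (a (l 143031309846560847) (l 143055705264963663))) (a (c (l 143139680480788687) (b (l 143031790883258447) (c (l 143059484837380175) (a (l 142998530650947663) (l 143010900158873679))))) (c (l 143163319984783567) (c (l 143083399219249359) (a (l 143023200947208271) (l 143035501735624783)))))) (c (b (a (l 142923557688459343) (l 142948915179700303)) (b (a (l 142832298223452239) (l 142947678229200975)) (a (c (a (l 142943142743179343) (l 142955718409568335)) (c (a (l 142901223855226959) (l 142913936960585807)) (l 14))) (c (a (l 142968294075940943) (l 142980801022820431)) (b (l 142919365800132687) (a (l 142912493851394127) (l 142925206956736591))))))) (l 14))) (c (a (c (b (l 143183592233550031) (l 143186684610805967)) (b (l 143079825805410383)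 (b (l 143080444281045071) (c (l 143107725918224591) (l 143053849839108175))))) (c (b (l 143206544542679247) (l 143209774358888655)) (b (l 143103740187394127) (b (l 143104358663012559) (l 143104839688831183))))) (c (b (a (l 142973929073524815) (l 142998736808869967)) (a (b (l 142972692123009103) (c (a (l 142993239250223183) (l 143005540038656079)) (a (l 142938057501032527) (l 142950633167421519)))) (b (l 142997499858337871) (c (a (l 143017840827072591) (l 143030141615489103)) (a (l 142963140114301007) (l 142975647061196879)))))) (c (b (l 142905896780087375) (b (l 142723102971805775) (a (a (l 142882394710147215) (a (l 142891946724409423) (l 142898337636827215))) (b (l 142914624155549775) (a (l 142862466071576655) (l 142920121714704463)))))) (l 14)))))), by decide +kernel⟩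

def k19_pm_123_a : ∃ t, chk3 f_pm_123_a t 25 14 1 = true :=
  ⟨(a (b (a (b (l 16644608) (l 16642896)) (l 16652600)) (a (b (l 16643864) (l 16644040)) (l 16652832))) (b (l 16664824) (a (l 16660888) (l 16647520)))), by decide +kernel⟩

def k20_pm_123_a : ∃ t, chk3 f_pm_123_a t 25 30 1 = true :=
  ⟨(a (a (b (l 16644248) (l 16623624)) (l 16632128)) (b (l 16664944) (l 16644040))), by decide +kernel⟩

def k21_pm_123_a : ∃ t, chk3 f_pm_123_a t 50 62 1 = true :=
  ⟨(a (b (l 16623928) (a (l 142916960645054543) (a (l 16646144) (l 142976059405484111)))) (c (b (l 16659152) (l 16660160)) (l 16626424))), by decide +kernel⟩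

def k22_pm_123_a : ∃ t, chk3 f_pm_123_a t 100 126 1 = true :=
  ⟨(c (c (a (l 143227778863268047) (a (l 143260145742479567) (a (l 16659400) (l 16660376)))) (b (a (l 16647176) (l 16651112)) (c (a (l 143160502483878095) (a (l 16652456) (l 16654384))) (b (a (l 16645472) (l 16649448)) (a (l 143113360914743375) (l 143160639922864335)))))) (a (l 142817867144364111) (a (l 142854632070905935) (a (l 142872911454928975) (l 143067799893196879))))), by decide +kernel⟩

def k23_pm_123_a : ∃ t, chk3 f_pm_123_a t 100 127 1 = true :=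
  ⟨(c (b (c (b (c (a (l 143258152878162127) (l 143302545667621071)) (a (l 143210324113801423) (a (l 143243653065752783) (l 143267361289076943)))) (a (l 143237330873221327) (a (l 143270522386153679) (l 143294161889951951)))) (b (c (a (l 143162014313119951) (a (l 143196030459986127) (l 143220219719729359))) (a (l 143113154756624463) (a (l 143147995537359055) (l 143172597114061007)))) (a (l 143138237370319055) (a (l 143172871992525007) (l 143197336130224335))))) (b (c (a (l 143240560689430735) (a (l 143273958360793295) (a (l 143290519757471951) (l 143305019569045711)))) (a (l 143139062004449487) (a (l 143173834065608911) (a (l 143191013937709263) (l 143205788627288271))))) (c (a (a (l 143232657948508367) (l 143255266660155599)) (a (l 143277669213339855) (a (l 143294299329495311) (l 143308936580022543)))) (a (a (b (l 143127998167023823) (l 143128547923050703)) (l 143151775099322575)) (a (l 143175002297123023) (a (l 143192319608176847) (l 143207163017216207))))))) (a (b (b (l 142989047360389199)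 (l 142805703796277327)) (c (b (a (l 143023269666259023) (l 143047527645691983)) (a (b (l 143022032715710543) (c (l 143048352279920719) (a (l 142988016569106511) (l 143000317357539407)))) (c (l 143072678978732239) (a (l 142968087925047375) (l 143025331251232847))))) (b (l 142749559974723663) (b (c (a (l 142941149877960783) (l 142966095052275791)) (l 142724752238805071)) (c (a (a (b (l 142933590734356559) (l 142932766100570191)) (l 142945685364359247)) (a (l 142958192311238735) (l 142970561819164751))) (a (a (l 14) (c (l 142904316232482895) (l 14))) (b (l 142910088669528143) (a (c (l 142916410862485583) (l 14)) (l 142892702642864207))))))))) (b (a (a (l 143018115704275023) (l 143030279053770831)) (a (b (l 143044091670806607) (l 143040861855154255)) (l 143057491970900047))) (a (b (c (l 143071510747185231) (l 142967194563969103)) (b (c (l 143070411235557455) (l 142918953490972751)) (c (c (l 143096318482809039) (l 143042992159817935)) (c (a (l 142982931327074383) (l 142995232115490895)) (b (l 142935240002306127)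 (a (l 142927749578129487) (l 142940256525025359))))))) (b (a (c (l 143089446533677263) (l 142985817545359439)) (l 142782820222009423)) (a (a (c (l 143084979767148751) (b (l 142979426633138255) (c (l 143004371807453263) (l 142950220850806863)))) (c (l 143091027071385807) (b (l 142985680106586191) (c (a (l 143008976013181007) (b (l 143012549426528335) (l 143011724792725583))) (a (l 142954825056534607) (a (l 142957161519153231) (l 142958879506333775))))))) (c (l 143103121711694031) (b (l 142997980894675023) (c (l 143022857349480527) (l 142968843831853135)))))))))), by decide +kernel⟩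

def k24_pm_123_a : ∃ t, chk3 f_pm_123_a t 101 126 1 = true :=
  ⟨(a (c (l 143288458169204943) (l 142929948628697167)) (b (l 16613928) (c (c (l 16667176) (l 16659728)) (c (b (l 16652336) (l 16652328)) (l 142943898683818063))))), by decide +kernel⟩

def k25_pm_123_a : ∃ t, chk3 f_pm_123_a t 101 254 1 = true :=
  ⟨(c (a (a (l 143277669210915023) (b (l 143310310966247631) (c (a (l 143352023696474383) (l 143365080399069455)) (a (l 143255747692953807) (l 143269491590447311))))) (a (b (c (l 16666752) (a (l 143286602741891279) (l 143297185543422159))) (c (l 143375388323627279) (l 143282273416331471))) (c (l 143390987648483599) (l 143301789751787727)))) (a (a (l 142993307983151183) (c (b (l 143167649308393679) (a (l 143157547544150223) (l 143171978636525775))) (b (l 143070273793851471) (a (l 143057354530586703) (b (l 143075084158058575) (l 143070686111334479)))))) (a (b (c (l 143196923809956047) (a (l 143094669211615311) (l 143107725914538063))) (c (l 143187234363752655) (l 143090271165890639))) (c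 (l 143210736429285583) (l 143117758961516623))))), by decide +kernel⟩

def k26_pm_123_a : ∃ t, chk3 f_pm_123_a t 101 255 2 = true :=
  ⟨(b (c (a (a (a (l 143322062001324303) (l 143338211080405263)) (b (l 143355322232946959) (l 143350718028415247))) (l 143368859976204559)) (c (a (a (b (l 143256091291680975) (l 143256366169833679)) (a (l 143276500979581135) (l 143284266282565903))) (l 143300621523386639)) (a (a (a (l 143197885885333711) (l 143214378561929423)) (a (l 143227091667321039) (l 143235750323568847))) (l 143254579465699535)))) (c (a (a (a (b (l 143324810780983567) (a (l 143321855843385615) (l 143327009805156623))) (b (l 143336493094076687) (l 143331270414254351))) (l 143342059374969103)) (c (l 143379923817103631) (l 143334912551371023))) (a (a (a (b (l 143223861852127439) (a (b (l 143220219719483599) (l 143219601244291279)) (b (l 143226816790331599) (l 143224274169790671)))) (b (a (l 143234513372659919) (l 143238842700775631)) (l 143231146119037135))) (c (l 143269354155589903) (l 143220288440549583)))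 (a (a (l 143255610259194063) (l 143262757086970063)) (a (l 143269835195285775) (l 143276913303601423)))))), by decide +kernel⟩

def k27_pm_123_a : ∃ t, chk3 f_pm_123_a t 101 255 3 = true :=
  ⟨(b (b (c (c (a (a (l 143156173155467471) (l 143184554303832271)) (l 143210805150695631)) (a (a (l 143105389453639887) (l 143134595235856591)) (l 143163732300939471))) (c (a (a (l 143054193434984527) (l 143084086412083407)) (l 143116109695369423)) (a (a (l 143002447660499023) (l 143033165271449679)) (l 143068006053462095)))) (c (c (a (a (l 143155211082825935) (l 143179469062619343)) (l 143205101434241231)) (a (a (l 143103877625086159) (l 143129303836115151)) (l 143157959864893647))) (c (a (a (a (l 143043748073144399) (l 143060515627843663)) (l 143078726292750543)) (l 143110268539748559)) (a (a (a (l 142991315103776847) (l 143008220097478735)) (l 143027530274111567)) (l 143062027458789455))))) (c (a (a (a (b (b (l 143121057497432271) (l 143120507741618383)) (a (b (l 143116040975040719) (c (l 143141329746936015)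 (l 143088415740952783))) (b (l 143123119082291407) (l 143120370303221967)))) (b (a (l 143131915176460495) (l 143137069138362575)) (l 143128822800597199))) (c (l 143170604250218703) (l 143120370304073935))) (a (c (l 143187921562927311) (b (l 143142566699761871) (l 143136794263732431))) (b (l 143184897906311375) (a (l 143174727422673103) (l 143183935834915023))))) (b (a (a (a (a (l 143011175036026959) (c (l 143046290694209615) (l 142993170529976399))) (a (b (l 143028561066115151) (l 143026087164837967)) (l 143033165272203343))) (c (l 143072610259173583) (l 143021345520943183))) (c (l 143104496103620815) (a (l 143044503989551183) (l 143067799897145551)))) (b (c (a (a (a (l 143039968501629135) (l 143052063131926735)) (l 143068074773610703)) (l 143100166776520911)) (a (a (a (a (l 142982725168070735) (a (l 142988772482941007) (l 142992002298970191))) (l 142999286565027919)) (l 143016741315821647)) (a (l 143040105942876367) (l 143063470569980111)))) (a (c (a (a (a (l 143034951979139279) (l 143040999294304463))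 (l 143049039474868431)) (l 143065119836045519)) (a (a (a (a (a (l 142978258401476687) (b (l 142980801022459983) (l 142979907669196879))) (b (l 142983618521464911) (l 142982244131864655))) (l 142987398093570127)) (c (l 143009457049665615) (l 142982862607761487))) (c (l 143026636922536143) (a (l 142994819799203919) (l 143006776990646351))))) (a (c (l 143086560317653199) (a (l 143031309848510671) (l 143042992162062543))) (c (l 143108000799277263) (b (l 143061340266152143) (l 143059965871210703))))))))), by decide +kernel⟩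

def k28_pm_123_a : ∃ t, chk3 f_pm_123_a t 51 62 1 = true :=
  ⟨(a (b (l 16661456) (c (l 16668056) (l 16655680))) (b (l 16669448) (b (l 16669776) (l 16670120)))), by decide +kernel⟩

def k29_pm_123_a : ∃ t, chk3 f_pm_123_a t 51 126 1 = true :=
  ⟨(a (c (b (l 16668880) (a (l 16667480) (l 16671504))) (b (l 16655440) (a (c (l 16656680) (l 143173490464931919)) (a (l 16656440) (l 16658704))))) (c (a (l 16675248) (l 16679376)) (b (l 16664272) (a (b (l 16662096) (l 16662168)) (l 16666752))))), by decide +kernel⟩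

def k30_pm_123_a : ∃ t, chk3 f_pm_123_a t 51 254 1 = true :=
  ⟨(a (a (c (c (l 143405418744725775) (l 143322130723389647)) (b (c (l 143242553553764559) (l 143155623400505423)) (c (l 143231352279236815) (l 143144215967154383)))) (a (c (a (l 143378137109987599) (l 143383772109209871)) (c (l 143263031964827855) (l 143182011686731983))) (c (c (l 16676968) (l 143355322241597711)) (c (l 143280349277618383) (l 143203520887849167))))) (c (a (c (l 143441702645121295) (l 143374838579659023)) (c (l 16684192) (l 143400333514506511))) (b (a (c (l 16665752) (l 143240629412659407)) (c (l 16670344) (l 16663632))) (c (a (l 143301171286311183) (l 143335531034198287)) (a (l 143230733808074959) (l 143273889649508559)))))), by decide +kernel⟩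

def k31_pm_123_a : ∃ t, chk3 f_pm_123_a t 51 255 1 = true :=
  ⟨(a (c (c (b (a (l 143388513754841359) (l 143407411619365135)) (a (c (l 143397790889312527) (l 143356834072953103)) (c (l 143414833327915343) (l 143378137119375631)))) (b (a (l 143305431891394831) (l 143332644813111567)) (b (a (l 143297185554661647) (l 143324742073827599)) (a (a (l 143284747327455503) (l 143298766105198863)) (c (l 143338279815119119) (l 143300621533888783)))))) (b (a (c (c (l 143241797643927759) (l 143198710524002511)) (c (l 143155142367772879) (l 143110955736252623))) (c (c (l 143275332757864719) (l 143236437526282447)) (c (l 143196992538902735) (l 143157066515218639)))) (b (c (a (c (l 143233620026458319) (l 143190532906401999)) (c (l 143267567457337615) (l 143228740945101007))) (a (c (l 143146964750008527) (l 143102709398864079)) (c (l 143189364677066959) (l 143149369933758671)))) (c (b (a (c (l 143229565577461967) (l 143186547176816847)) (c (l 143263719166837007) (l 143224961373995279))) (a (a (c (l 143218295581032719)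 (l 143174177668628687)) (c (l 143235475454918927) (l 143193487846424783))) (a (l 143232726676537615) (l 143250868623212815)))) (b (a (c (l 143142910300881103) (l 143098654949671119)) (c (l 143185585105895631) (l 143145659081982159))) (b (a (c (l 143140917436055759) (a (l 143084842332258511) (l 143108413117874383))) (c (l 143183729680056527) (l 143143734936633551))) (a (a (c (l 143128822805659855) (l 143083536662167759)) (c (l 143150263287382223) (l 143107107447800015))) (a (a (l 143145659082145999) (l 143156929078870223)) (a (l 143168130356117711) (l 143179400352858319)))))))))) (c (b (a (c (l 143425484850266447) (l 143359307979096335)) (c (l 143442596008575311) (l 143385283950412047))) (a (a (c (l 143410297844908367) (l 143342402986361103)) (c (l 143419162661732687) (l 143355734569435407))) (c (l 143432081929863503) (c (l 143389750721053007) (l 143361025972355343))))) (c (b (a (l 143291275682136335) (l 143326116466458895)) (a (a (l 143272515263054095) (l 143290382331855119)) (c (l 143331751467860239)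 (l 143301927207584015)))) (b (a (c (l 143238842710163663) (l 143203177294299343)) (c (l 143280418003632399) (l 143249150634524879))) (a (c (a (l 143218707901202639) (l 143239873505083663)) (a (l 143182011692925135) (l 143205376320209103))) (c (l 143271484472017167) (l 143240491980652815))))))), by decide +kernel⟩

def k32_pm_123_a : ∃ t, chk3 f_pm_123_a t 13 6 1 = true :=
  ⟨(b (a (b (l 16713896) (l 16707600)) (b (l 16719408) (l 16733456))) (a (b (l 16701504) (l 16694208)) (b (l 16725744) (a (l 16713072) (l 16724112))))), by decide +kernel⟩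

def k33_pm_123_a : ∃ t, chk3 f_pm_123_a t 13 14 1 = true :=
  ⟨(a (b (b (l 16687552) (a (l 16678208) (l 16691328))) (a (b (l 16657744) (l 16657880)) (b (l 16670568) (l 16671368)))) (b (a (b (l 16705840) (l 16703256)) (b (l 16717664) (l 16715464))) (a (b (l 16683256) (a (l 16702064) (l 16708920))) (b (l 16717120) (a (l 16715928) (l 16723112)))))), by decide +kernel⟩

def k34_pm_123_a : ∃ t, chk3 f_pm_123_a t 13 30 1 = true :=
  ⟨(a (a (b (l 16658528) (a (l 16676552) (l 16684048))) (b (a (l 16689904) (l 16697104)) (a (l 16691824) (l 16699752)))) (b (a (a (l 16704472) (l 16711952)) (l 16723288)) (a (a (l 16707784) (l 16715872)) (a (l 16723736) (l 16731304))))), by decide +kernel⟩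

def k35_pm_123_a : ∃ t, chk3 f_pm_123_a t 26 31 1 = true :=
  ⟨(b (a (b (a (l 16677352) (l 16685520)) (a (c (l 16683832) (l 16672912)) (l 16686888))) (b (a (l 16693856) (l 16702288)) (a (l 16695568) (l 16704304)))) (a (b (a (c (b (l 16685160) (l 16686152)) (b (l 16673376) (c (l 16676856) (l 16670744)))) (c (l 16694152) (a (l 16680600) (l 16685320)))) (a (b (a (c (b (l 16684776) (l 16685312)) (c (l 143374013950460175) (l 143321099939987727))) (c (l 16689368) (c (l 16679832) (l 143363362428305679)))) (a (a (b (c (l 143429676746342735) (c (l 143351954996986127) (l 143297529157402895))) (c (c (l 143444314003276111) (l 143394629807128911)) (c (l 143343021465698575) (l 143289214101094671)))) (b (c (l 143439709794419023) (c (l 143368997432082703) (l 143319244517196047))) (c (c (l 143452148027998543) (l 143407136756547919)) (c (l 143360270059290895) (l 143311204338843919))))) (c (a (c (l 143464792415420751) (l 143424110471414095)) (c (l 143472007964868943) (l 143436067665019215))) (c (a (l 143381641821094159)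 (l 143398478097809743)) (c (l 143358689508213007) (l 143336905427370255)))))) (c (a (b (l 16693720) (c (l 143482315892965711) (a (l 143447818700194127) (l 143459294857462095)))) (b (l 16698080) (b (l 16699040) (c (l 16702808) (l 143471595651416399))))) (a (c (b (l 16684552) (c (l 143431119859908943) (l 143415520532201807))) (b (l 143405281319305487) (c (l 143399302729236751) (l 143382466450997519)))) (c (b (l 16689288) (c (l 143461081561497935) (l 143450430036394319))) (b (l 143446719174000911) (c (l 143439297474986319) (l 143427477718827279)))))))) (b (a (c (l 16702696) (b (l 16692016) (l 16692832))) (c (l 16711264) (b (l 16701432) (l 16702392)))) (c (a (b (l 16704632) (a (c (l 16706736) (l 16700864)) (l 16708200))) (b (l 16713296) (c (l 16717296) (l 16712088)))) (a (a (a (b (l 16690040) (c (l 143479498385539407) (l 143464929844527439))) (b (l 16692472) (c (l 143495028992213327) (l 143485683131728207)))) (b (l 16696128) (c (l 143517981304848719) (c (l 143517156662690127) (l 143515850987045199)))))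 (a (b (l 16700984) (c (l 16704616) (c (l 143554402629255503) (l 143558525792551247)))) (b (l 16705768) (b (l 16706536) (c (l 16709560) (l 143592267068866895)))))))))), by decide +kernel⟩

def k36_pm_123_a : ∃ t, chk3 f_pm_123_a t 27 31 1 = true :=
  ⟨(b (a (a (b (l 16710784) (l 16713008)) (b (l 16719096) (l 16721416))) (a (l 16728264) (l 16735704))) (a (b (a (c (l 16719568) (l 16711160)) (c (l 16727520) (l 16720032))) (c (a (b (l 16721616) (l 16722960)) (l 16730088)) (a (b (l 16712736) (c (l 16716032) (a (a (l 16707952) (l 16710320)) (l 16713816)))) (b (l 16721544) (c (l 16724576) (l 16720592)))))) (c (b (l 16738488) (a (l 16737352) (l 16744112))) (b (a (l 16728336) (l 16736120)) (a (b (l 16729840) (l 16730856)) (b (l 16737608) (l 16738592))))))), by decide +kernel⟩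

def k37_pm_123_a : ∃ t, chk3 f_pm_123_a t 14 3 1 = true :=
  ⟨(b (a (b (a (b (l 16754168) (l 16748560)) (b (l 16760248) (b (l 16757672) (l 16756680)))) (a (b (l 16742544) (l 16735200)) (b (l 16752672) (l 16747520)))) (b (a (b (l 16765536) (l 16743280)) (b (a (l 16768576) (l 16770256)) (a (l 16769104) (l 16771856)))) (a (b (b (l 16764360) (l 16762520)) (l 16759640)) (b (a (l 16771464) (l 16775216)) (a (l 16768448) (b (l 16774536) (l 16772264))))))) (b (a (b (a (b (l 16729720) (l 16728792)) (b (l 16742736) (l 16721008))) (a (b (l 16731000) (a (l 16730192) (l 16737128))) (b (l 16744416) (a (l 16743664) (l 16749800))))) (a (b (b (l 16755312) (l 16754360)) (b (l 16756352) (l 16758216))) (b (b (l 16766416) (l 16765024)) (a (l 16744280) (l 16749320))))) (a (b (a (b (a (l 16733992) (l 16740608)) (a (l 16738336) (l 16744888))) (b (a (l 16746776) (l 16752392)) (a (l 16750848) (l 16756496)))) (b (a (a (l 16742648) (b (l 16747984) (l 16750016))) (c (a (l 16756768) (l 16762136)) (a (l 16753440) (l 16759408))))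 (b (a (c (l 16751256) (a (l 16743320) (l 16750128))) (a (l 16758120) (l 16763944))) (a (a (c (l 16750352) (l 16745328)) (c (l 16756240) (l 16752168))) (c (a (l 16761928) (l 16767328)) (a (l 16758784) (l 16765080))))))) (b (a (b (l 16739544) (a (l 16761744) (l 16766784))) (b (a (l 16767880) (l 16772712)) (a (l 16771528) (l 16775872)))) (a (a (b (l 16766176) (b (l 16769432) (c (l 16772352) (l 16770968)))) (b (l 16771312) (b (l 16774512) (c (l 16776984) (l 16776416))))) (a (b (b (l 16774872) (l 16777168)) (b (l 16779072) (a (l 16779736) (l 16781464)))) (b (l 16759240) (b (l 16782464) (a (l 16782728) (l 16783640)))))))))), by decide +kernel⟩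

def k38_pm_123_a : ∃ t, chk3 f_pm_123_a t 30 3 1 = true :=
  ⟨(b (a (b (a (b (l 16771328) (l 16773520)) (b (a (l 16773312) (b (l 16771552) (l 16773152))) (l 16774200))) (b (a (l 16777152) (l 16778120)) (a (b (l 16778640) (l 16776480)) (b (l 16779904) (l 16769024))))) (b (a (b (b (l 4) (a (l 16773128) (l 180086567751))) (a (l 16774256) (l 86671126407))) (b (l 4) (a (b (l 172570379319) (l 16775232)) (b (l 4) (l 167201675127))))) (b (a (l 16778096) (a (l 16777816) (l 16777296))) (a (b (l 16780240) (l 16781496)) (b (l 16779944) (l 16781040)))))) (b (a (b (b (a (l 16773288) (l 16776984)) (a (l 16771936) (l 16775792))) (b (l 16733816) (l 16746208))) (b (a (b (b (l 16780472) (l 16779080)) (l 16779384)) (b (b (l 16781560) (l 16760728)) (a (l 16781800) (l 16782656)))) (a (l 16783096) (l 16785944)))) (b (a (b (a (l 16777264) (l 16781488)) (a (l 16758896) (l 16761744))) (b (a (l 16784600) (l 16786584)) (a (b (l 16784528) (l 16784360)) (c (l 16786016) (l 16763368))))) (a (b (a (b (l 16782336) (l 16783680))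 (b (l 16784296) (l 16784816))) (a (b (l 16784304) (c (l 16783872) (l 16785112))) (b (l 16763896) (c (l 16783776) (b (l 16785392) (l 16785288)))))) (b (a (c (l 16784976) (l 16763840)) (b (l 16784120) (l 16773312))) (a (b (c (l 16783968) (l 16785016)) (c (b (l 16783168) (l 16782600)) (b (l 16784800) (l 16784608)))) (b (c (l 16782808) (l 16768152)) (c (a (l 16782024) (l 16781400)) (a (l 16794416) (b (l 16783352) (l 16783248))))))))))), by decide +kernel⟩

def k39_pm_123_a : ∃ t, chk3 f_pm_123_a t 62 3 1 = true :=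
  ⟨(b (b (b (l 4) (l 4)) (a (b (a (b (a (l 16774256) (l 173107263767)) (l 16777360)) (b (a (l 270280885463) (l 4)) (b (l 196192712087) (l 16775336)))) (a (l 16780064) (l 16779344))) (b (a (b (l 4) (a (l 275649594023) (l 4))) (l 4)) (a (b (a (l 16775696) (l 199950810711)) (l 16778968)) (b (a (l 298198168999) (l 4)) (a (l 16776024) (b (l 297124447559) (l 16774864)))))))) (b (a (b (b (l 16781160) (a (l 16783840) (l 16784248))) (b (a (l 16786728) (l 16786848)) (l 16787936))) (b (a (b (l 16780056) (l 16782968)) (a (l 16780904) (l 16795808))) (b (a (b (l 16787024) (l 16787568)) (l 16784936)) (a (l 16787992) (b (l 16787168) (l 16787232)))))) (b (a (b (l 16787032) (a (l 16763928) (l 16763536))) (b (l 16765328) (a (l 16762992) (l 16783336)))) (b (a (b (c (l 16783224) (l 16761296)) (c (l 16782360) (l 16761416))) (b (a (l 16760720) (l 16760112)) (a (l 16781112) (c (l 16780496) (l 16780120))))) (a (b (b (l 16772816) (a (l 16782096) (l 16781432))) (c (a (b (l 16781048) (l 16780560)) (b (l 16780464) (l 16780016)))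 (a (b (l 16782720) (l 16782672)) (b (l 16782072) (b (l 16782080) (l 16782080)))))) (b (c (a (l 16780488) (l 16779872)) (a (l 16781280) (l 16772632))) (c (a (b (l 16779904) (b (l 16779600) (l 16779400))) (b (l 16779368) (a (l 16779136) (l 16781520)))) (a (b (l 16781400) (b (l 16781448) (l 16786720))) (b (l 16780704) (a (l 16786232) (b (l 16780624) (l 16780688)))))))))))), by decide +kernel⟩

def k40_pm_123_a : ∃ t, chk3 f_pm_123_a t 63 3 1 = true :=
  ⟨(b (a (b (l 4) (b (l 4) (a (b (l 4) (a (b (l 4) (l 326652344567)) (l 4))) (l 4)))) (l 4)) (a (b (b (b (a (a (l 16776256) (b (l 372286366919) (l 16774912))) (a (b (l 4) (l 416309796343)) (l 4))) (a (a (l 16780104) (l 16777936)) (a (a (l 16776152) (l 16774240)) (b (l 4) (a (l 16773808) (l 287460776119)))))) (b (a (l 16780720) (a (l 16777480) (c (l 16785496) (l 16785656)))) (a (a (b (l 16783368) (l 16785920)) (l 6)) (l 6)))) (a (a (a (b (b (l 16785432) (l 16782888)) (b (b (l 16780720) (l 16779800)) (b (l 16771856) (b (l 16779608) (c (l 16778720)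 (l 16780408)))))) (l 6)) (l 6)) (l 6))) (b (b (l 4) (a (a (a (b (b (l 254711651175) (l 6)) (l 6)) (l 6)) (l 6)) (l 6))) (l 6)))), by decide +kernel⟩

theorem s41_pm_123_a : ∃ t, chk3 f_pm_123_a t 31 3 1 = true := ex3_a k39_pm_123_a k40_pm_123_a

theorem s42_pm_123_a : ∃ t, chk3 f_pm_123_a t 15 3 1 = true := ex3_a k38_pm_123_a s41_pm_123_a

theorem s43_pm_123_a : ∃ t, chk3 f_pm_123_a t 7 3 1 = true := ex3_a k37_pm_123_a s42_pm_123_a

theorem s44_pm_123_a : ∃ t, chk3 f_pm_123_a t 13 31 1 = true := ex3_a k35_pm_123_a k36_pm_123_a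

theorem s45_pm_123_a : ∃ t, chk3 f_pm_123_a t 13 15 1 = true := ex3_b k34_pm_123_a s44_pm_123_a

theorem s46_pm_123_a : ∃ t, chk3 f_pm_123_a t 13 7 1 = true := ex3_b k33_pm_123_a s45_pm_123_a

theorem s47_pm_123_a : ∃ t, chk3 f_pm_123_a t 13 3 1 = true := ex3_b k32_pm_123_a s46_pm_123_a

theorem s48_pm_123_a : ∃ t, chk3 f_pm_123_a t 51 127 1 = true := ex3_b k30_pm_123_a k31_pm_123_a

theorem s49_pm_123_a : ∃ t, chk3 f_pm_123_a t 51 63 1 = true := ex3_b k29_pm_123_a s48_pm_123_a

theorem s50_pm_123_a : ∃ t, chk3 f_pm_123_a t 51 31 1 = true := ex3_b k28_pm_123_a s49_pm_123_a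

theorem s51_pm_123_a : ∃ t, chk3 f_pm_123_a t 101 255 1 = true := ex3_c k26_pm_123_a k27_pm_123_a

theorem s52_pm_123_a : ∃ t, chk3 f_pm_123_a t 101 127 1 = true := ex3_b k25_pm_123_a s51_pm_123_a

theorem s53_pm_123_a : ∃ t, chk3 f_pm_123_a t 101 63 1 = true := ex3_b k24_pm_123_a s52_pm_123_a

theorem s54_pm_123_a : ∃ t, chk3 f_pm_123_a t 100 63 1 = true := ex3_b k22_pm_123_a k23_pm_123_a

theorem s55_pm_123_a : ∃ t, chk3 f_pm_123_a t 50 63 1 = true := ex3_a s54_pm_123_a s53_pm_123_a

theorem s56_pm_123_a : ∃ t, chk3 f_pm_123_a t 50 31 1 = true := ex3_b k21_pm_123_a s55_pm_123_a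

theorem s57_pm_123_a : ∃ t, chk3 f_pm_123_a t 25 31 1 = true := ex3_a s56_pm_123_a s50_pm_123_a

theorem s58_pm_123_a : ∃ t, chk3 f_pm_123_a t 25 15 1 = true := ex3_b k20_pm_123_a s57_pm_123_a

theorem s59_pm_123_a : ∃ t, chk3 f_pm_123_a t 25 7 1 = true := ex3_b k19_pm_123_a s58_pm_123_a

theorem s60_pm_123_a : ∃ t, chk3 f_pm_123_a t 49 127 1 = true := ex3_a k17_pm_123_a k18_pm_123_a

theorem s61_pm_123_a : ∃ t, chk3 f_pm_123_a t 24 127 1 = true := ex3_a k16_pm_123_a s60_pm_123_a

theorem s62_pm_123_a : ∃ t, chk3 f_pm_123_a t 24 63 1 = true := ex3_b k15_pm_123_a s61_pm_123_a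

theorem s63_pm_123_a : ∃ t, chk3 f_pm_123_a t 24 31 1 = true := ex3_b k14_pm_123_a s62_pm_123_a

theorem s64_pm_123_a : ∃ t, chk3 f_pm_123_a t 24 15 1 = true := ex3_b k13_pm_123_a s63_pm_123_a

theorem s65_pm_123_a : ∃ t, chk3 f_pm_123_a t 24 7 1 = true := ex3_b k12_pm_123_a s64_pm_123_a

theorem s66_pm_123_a : ∃ t, chk3 f_pm_123_a t 12 7 1 = true := ex3_a s65_pm_123_a s59_pm_123_a

theorem s67_pm_123_a : ∃ t, chk3 f_pm_123_a t 12 3 1 = true := ex3_b k11_pm_123_a s66_pm_123_a

theorem s68_pm_123_a : ∃ t, chk3 f_pm_123_a t 6 3 1 = true := ex3_a s67_pm_123_a s47_pm_123_a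

theorem s69_pm_123_a : ∃ t, chk3 f_pm_123_a t 3 3 1 = true := ex3_a s68_pm_123_a s43_pm_123_a

theorem s70_pm_123_a : ∃ t, chk3 f_pm_123_a t 3 1 1 = true := ex3_b k10_pm_123_a s69_pm_123_a

theorem s71_pm_123_a : ∃ t, chk3 f_pm_123_a t 11 15 1 = true := ex3_a k8_pm_123_a k9_pm_123_a

theorem s72_pm_123_a : ∃ t, chk3 f_pm_123_a t 11 7 1 = true := ex3_b k7_pm_123_a s71_pm_123_a

theorem s73_pm_123_a : ∃ t, chk3 f_pm_123_a t 11 3 1 = true := ex3_b k6_pm_123_a s72_pm_123_a

theorem s74_pm_123_a : ∃ t, chk3 f_pm_123_a t 5 3 1 = true := ex3_a k5_pm_123_a s73_pm_123_a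

theorem s75_pm_123_a : ∃ t, chk3 f_pm_123_a t 5 1 1 = true := ex3_b k4_pm_123_a s74_pm_123_a

theorem s76_pm_123_a : ∃ t, chk3 f_pm_123_a t 4 7 1 = true := ex3_a k2_pm_123_a k3_pm_123_a

theorem s77_pm_123_a : ∃ t, chk3 f_pm_123_a t 4 3 1 = true := ex3_b k1_pm_123_a s76_pm_123_a

theorem s78_pm_123_a : ∃ t, chk3 f_pm_123_a t 4 1 1 = true := ex3_b k0_pm_123_a s77_pm_123_a

theorem s79_pm_123_a : ∃ t, chk3 f_pm_123_a t 2 1 1 = true := ex3_a s78_pm_123_a s75_pm_123_a

theorem s80_pm_123_a : ∃ t, chk3 f_pm_123_a t 1 1 1 = true := ex3_a s79_pm_123_a s70_pm_123_a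

theorem c_pm_123_a : CertB 536870912 536870912 0 536870912 780900216 37827925 3 eng mog cd0q1 cd1q2a pd3 true true false .npn 1 2 3
    ndB0q1 ndB1q2a pcB3 cut_pm_123_a xt_pm_123_a :=
  certB2 (fam := true) (s1 := true) (s2 := false) (a := 1) (b := 2) (c := 3) (cn := .npn) (n1 := ndB0q1) (n2 := ndB1q2a) (pc := pcB3) (cut := cut_pm_123_a) (xt := xt_pm_123_a) (P1 := 536870912) (W1 := 536870912) (P2 := 0) (W2 := 536870912) (P3 := 780900216) (W3 := 37827925) (N0 := 3) (En := eng) (mo := mog) (C1 := cd0q1) (C2 := cd1q2a) (C3 := pd3)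
    rfl (fun _ => rfl) s80_pm_123_a

noncomputable def cut_pm_123_b : Cut := Cut.of [[⟨0, 1, 0, 67108864⟩, ⟨1, 1, 0, 67108864⟩, ⟨2, 2, 0, 16777216⟩], [⟨0, 0, 1, 26214400⟩, ⟨1, 1, 0, 33554432⟩, ⟨2, 1, 1, 26214400⟩]]

noncomputable def f_pm_123_b : ℕ → ℕ → ℕ → ℕ → Bool := onCell 1610612736 536870912 1239849684 370763052 780900216 37827925
    (rowB 3 eng mog cd0q1 cd1q2b pd3 2 true true false .npn 1 2 3 (qsf 536870912 536870912 1239849684 370763052 3) ndB0q1 ndB1q2b pcB3 cut_pm_123_b Ext.none)

def k0_pm_123_b : ∃ t, chk3 f_pm_123_b t 1 1 1 = true :=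
  ⟨(a (b (a (l 1) (b (a (b (a (b (l 16655272) (l 1)) (b (l 16677296) (l 16662344))) (l 1)) (b (b (a (a (l 16692304) (l 16701264)) (a (l 16710288) (l 16718848))) (a (l 16682632) (l 16705584))) (a (l 16644896) (l 16605928)))) (a (l 1) (b (a (l 1) (l 16650432)) (l 1))))) (l 1)) (a (a (b (b (b (a (b (a (l 16726584) (b (l 16741816) (l 16736472))) (l 16728160)) (b (b (a (a (l 16748456) (l 16752864)) (a (l 16759048) (l 16743856))) (a (l 16749120) (l 16756840))) (a (l 16740784) (l 16745864)))) (a (l 16708856) (a (l 16718288) (l 16701960)))) (a (b (l 16673752) (l 1)) (b (l 16689440) (l 4)))) (l 1)) (b (b (a (b (b (a (b (a (l 16767568) (l 4)) (l 16770464)) (l 4)) (l 4)) (l 4)) (l 4)) (l 4)) (l 4))) (l 4))), by decide +kernel⟩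

theorem c_pm_123_b : CertB 536870912 536870912 1239849684 370763052 780900216 37827925 3 eng mog cd0q1 cd1q2b pd3 true true false .npn 1 2 3
    ndB0q1 ndB1q2b pcB3 cut_pm_123_b Ext.none :=
  certB2 (fam := true) (s1 := true) (s2 := false) (a := 1) (b := 2) (c := 3) (cn := .npn) (n1 := ndB0q1) (n2 := ndB1q2b) (pc := pcB3) (cut := cut_pm_123_b) (xt := Ext.none) (P1 := 536870912) (W1 := 536870912) (P2 := 1239849684) (W2 := 370763052) (P3 := 780900216) (W3 := 37827925) (N0 := 3) (En := eng) (mo := mog) (C1 := cd0q1) (C2 := cd1q2b) (C3 := pd3)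
    rfl (fun _ => rfl) k0_pm_123_b

noncomputable def f_pm_133 : ℕ → ℕ → ℕ → ℕ → Bool := onCell 536870912 536870912 1610612736 536870912 780900216 37827925
    (rowB 3 eng mog cd0q1 cd1q3 pd3 0 true true false .dn 1 3 3 (qsf 536870912 536870912 1610612736 536870912 3) ndB0q1 ndB1q3 pcB3 Cut.none Ext.none)

def k0_pm_133 : ∃ t, chk3 f_pm_133 t 1 1 1 = true :=
  ⟨(l 4), by decide +kernel⟩

theorem c_pm_133 : CertB 536870912 536870912 1610612736 536870912 780900216 37827925 3 eng mog cd0q1 cd1q3 pd3 true true false .dn 1 3 3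
    ndB0q1 ndB1q3 pcB3 Cut.none Ext.none :=
  certB0 (fam := true) (s1 := true) (s2 := false) (a := 1) (b := 3) (c := 3) (cn := .dn) (n1 := ndB0q1) (n2 := ndB1q3) (pc := pcB3) (cut := Cut.none) (xt := Ext.none) (P1 := 536870912) (W1 := 536870912) (P2 := 1610612736) (W2 := 536870912) (P3 := 780900216) (W3 := 37827925) (N0 := 3) (En := eng) (mo := mog) (C1 := cd0q1) (C2 := cd1q3) (C3 := pd3)
    rfl k0_pm_133

noncomputable def cut_pm_202 : Cut := Cut.of [[⟨0, 1, 0, 67108864⟩, ⟨1, 0, 0, 67108864⟩, ⟨2, 1, 0, 67108864⟩]]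

noncomputable def f_pm_202 : ℕ → ℕ → ℕ → ℕ → Bool := onCell 0 536870912 1073741824 536870912 780900216 37827925
    (rowB 3 eng mog cd0q2 cd1q0 pd2 1 true true false .pp 2 0 2 (qsf 0 536870912 0 536870912 2) ndB0q2 ndB1q0 pcB2 cut_pm_202 Ext.none)

def k0_pm_202 : ∃ t, chk3 f_pm_202 t 2 1 1 = true :=
  ⟨(b (b (b (l 1) (a (l 1) (a (l 1) (b (l 1) (b (l 1) (a (l 1) (l 16434968))))))) (a (b (b (b (l 1) (a (l 16388608) (a (l 16368000) (l 16375040)))) (a (a (l 16390248) (l 16386400)) (b (l 16384992) (l 16395112)))) (b (a (b (l 16405704) (l 16417336)) (b (l 16405464) (l 16415856))) (a (a (l 16435120) (l 16429344)) (l 16429344)))) (b (a (b (b (a (l 16373456) (l 16392368)) (a (l 16387568) (l 16404280))) (a (l 16402904) (l 16417384))) (b (b (a (l 16414984) (l 16441368)) (a (l 16424560) (l 16448432))) (a (l 16435208) (l 16456368)))) (a (b (b (l 16422544) (l 16430896)) (l 16504848)) (b (b (l 16454136) (l 16459688)) (a (l 16459488) (l 16475088))))))) (b (a (b (a (b (a (l 16454808) (l 16450336)) (l 16412280))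 (b (l 16448472) (l 16469968))) (a (b (l 16503808) (l 16535120)) (b (l 16497488) (l 16525160)))) (b (a (b (a (l 16454008) (l 16462176)) (l 16477168)) (a (b (l 16472880) (l 16489192)) (b (l 16485920) (l 16500720)))) (a (b (l 16501040) (l 16524480)) (b (l 16514120) (l 16530000))))) (a (b (a (l 16576376) (b (l 16550232) (l 16571432))) (a (l 16613624) (l 16593192))) (b (a (b (l 16544696) (l 16553872)) (b (l 16530488) (l 16533488))) (a (b (l 16564152) (l 16576952)) (l 16543144)))))), by decide +kernel⟩

def k1_pm_202 : ∃ t, chk3 f_pm_202 t 3 4 1 = true :=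
  ⟨(b (a (l 1) (a (b (l 1) (a (b (l 1) (b (l 1) (a (l 1) (b (l 129419151431) (l 153578347143))))) (b (l 6) (b (l 6) (b (l 6) (a (l 16640520) (l 16663680))))))) (b (l 6) (b (l 6) (b (l 6) (a (a (l 16685648) (l 16681280)) (a (l 16674800) (l 16687032)))))))) (a (b (a (l 1) (b (a (l 1) (b (l 1) (a (l 16551488) (l 171831888039)))) (a (a (l 100427960247) (a (l 143377642391) (l 158409972679))) (b (a (l 16557184) (l 16579008)) (a (l 16562992) (l 16583856)))))) (a (b (a (b (l 1) (l 16464912)) (b (l 16520392) (l 16506352))) (a (l 16469288) (l 16508520))) (b (a (b (a (l 16531120) (l 16549624)) (a (l 16538064) (l 16556176))) (b (a (l 16568864) (l 16588808)) (l 16584280))) (a (a (l 16539176) (l 16557680)) (l 16584576))))) (a (b (a (b (a (b (b (l 16593688) (l 16595248)) (l 16597760)) (b (a (l 16612688) (l 16624512)) (l 16578928))) (b (a (l 16601368) (l 16623408)) (l 16574016))) (a (b (c (b (l 16644952) (l 16645952)) (l 16597104)) (l 16645296)) (b (b (l 16664256) (l 16663360)) (l 16644824)))) (b (a (b (l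 16619472) (l 16615992)) (b (l 16626440) (l 16613360))) (a (l 16603448) (l 16599728)))) (b (a (a (b (b (l 16672472) (l 16660864)) (l 16642496)) (b (c (l 16682296) (l 16663872)) (l 16659504))) (b (a (b (l 16661704) (l 16650488)) (b (l 16653016) (l 16642008))) (a (l 16653448) (l 16666136)))) (b (a (b (l 16621352) (l 16629112)) (b (l 16630392) (a (l 16600016) (l 16591728)))) (a (l 16586888) (a (l 16584376) (l 16575048)))))))), by decide +kernel⟩

def k2_pm_202 : ∃ t, chk3 f_pm_202 t 3 5 1 = true :=
  ⟨(a (b (a (b (a (b (l 16472840) (l 16477056)) (b (l 16508864) (l 16509904))) (a (l 16481784) (l 16510896))) (b (b (a (l 16546600) (l 16581944)) (b (l 16521392) (b (l 16562480) (a (l 16543536) (l 16577552))))) (a (l 16541920) (l 16566080)))) (a (b (a (l 16445400) (l 16512216)) (a (l 16493824) (l 16515016))) (b (a (l 16538888) (l 16545856)) (a (l 16537240) (l 16525568))))) (b (b (b (a (a (l 16589304) (l 16583584)) (a (l 16575016) (a (l 16563792) (l 16553056)))) (a (b (a (l 16578568) (l 16571016)) (b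 (l 16569640) (a (l 16568912) (l 16558952)))) (b (a (l 16560136) (l 16541544)) (a (b (l 16551840) (l 16545384)) (b (l 16532136) (b (l 16526528) (l 16522552))))))) (a (a (l 16554744) (l 16542184)) (a (l 16526384) (a (l 16509488) (l 16494432))))) (a (a (b (l 16530832) (l 16505896)) (b (l 16451440) (l 16485040))) (a (b (l 16535504) (l 16460464)) (b (b (l 16473464) (l 16454760)) (l 16449456)))))), by decide +kernel⟩

def k3_pm_202 : ∃ t, chk3 f_pm_202 t 3 3 1 = true :=
  ⟨(a (b (b (b (a (a (l 16501760) (l 16519752)) (a (l 16521456) (l 16504104))) (a (c (l 16515304) (l 16520320)) (l 16495256))) (a (b (l 16515288) (l 16507880)) (b (l 16480120) (l 16468072)))) (b (a (b (l 16503400) (l 16501864)) (b (l 16459136) (l 16453424))) (a (l 16505192) (b (l 16451096) (l 16452216))))) (b (a (b (a (b (l 16481192) (l 16459776)) (b (l 16457568) (l 16433560))) (a (b (l 16441400) (l 16426072)) (b (l 16412880) (l 16395952)))) (b (a (b (l 16430752) (l 16404704)) (b (l 16417760) (l 16368944))) (a (b (l 16382336) (l 16363656))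 (b (l 16344904) (l 16324848))))) (a (b (a (b (l 16414256) (l 16406000)) (b (l 16382784) (l 16373248))) (b (l 16385336) (l 16384064))) (b (a (b (l 16348912) (l 16338136)) (b (l 16309000) (l 16297424))) (a (b (l 16331536) (l 16329232)) (l 16288208)))))), by decide +kernel⟩

theorem s4_pm_202 : ∃ t, chk3 f_pm_202 t 3 2 1 = true := ex3_b k1_pm_202 k2_pm_202

theorem s5_pm_202 : ∃ t, chk3 f_pm_202 t 3 1 1 = true := ex3_b s4_pm_202 k3_pm_202

theorem s6_pm_202 : ∃ t, chk3 f_pm_202 t 1 1 1 = true := ex3_a k0_pm_202 s5_pm_202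

theorem c_pm_202 : CertB 0 536870912 0 536870912 780900216 37827925 3 eng mog cd0q2 cd1q0 pd2 true true false .pp 2 0 2
    ndB0q2 ndB1q0 pcB2 cut_pm_202 Ext.none :=
  certB1 (fam := true) (s1 := true) (s2 := false) (a := 2) (b := 0) (c := 2) (cn := .pp) (n1 := ndB0q2) (n2 := ndB1q0) (pc := pcB2) (cut := cut_pm_202) (xt := Ext.none) (P1 := 0) (W1 := 536870912) (P2 := 0) (W2 := 536870912) (P3 := 780900216) (W3 := 37827925) (N0 := 3) (En := eng) (mo := mog) (C1 := cd0q2) (C2 := cd1q0) (C3 := pd2)
    rfl (fun _ => rfl) s6_pm_202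

noncomputable def f_pm_203 : ℕ → ℕ → ℕ → ℕ → Bool := onCell 0 536870912 1610612736 536870912 780900216 37827925
    (rowB 3 eng mog cd0q2 cd1q0 pd3 1 true true false .up 2 0 3 (qsf 0 536870912 0 536870912 3) ndB0q2 ndB1q0 pcB3 Cut.none Ext.none)

def k0_pm_203 : ∃ t, chk3 f_pm_203 t 1 1 1 = true :=
  ⟨(a (b (b (a (b (b (l 16636792) (l 16656152)) (b (l 16675672) (l 16590296))) (b (a (b (l 16595768) (l 16610760)) (b (l 16564240) (l 16574912))) (a (l 16635944) (l 16596552)))) (b (a (b (l 16713856) (l 16730600)) (a (l 16674080) (l 16634104))) (l 2))) (l 2)) (b (a (b (b (a (l 16523672) (b (l 16460424) (l 16465872))) (a (l 16546952) (l 16484504))) (l 2)) (b (a (b (b (l 16388016) (l 16393632)) (l 320612290455)) (b (b (a (l 16331160) (l 16289136)) (l 244376308679)) (l 2))) (l 2))) (l 2))), by decide +kernel⟩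

theorem c_pm_203 : CertB 0 536870912 0 536870912 780900216 37827925 3 eng mog cd0q2 cd1q0 pd3 true true false .up 2 0 3
    ndB0q2 ndB1q0 pcB3 Cut.none Ext.none :=
  certB1 (fam := true) (s1 := true) (s2 := false) (a := 2) (b := 0) (c := 3) (cn := .up) (n1 := ndB0q2) (n2 := ndB1q0) (pc := pcB3) (cut := Cut.none) (xt := Ext.none) (P1 := 0) (W1 := 536870912) (P2 := 0) (W2 := 536870912) (P3 := 780900216) (W3 := 37827925) (N0 := 3) (En := eng) (mo := mog) (C1 := cd0q2) (C2 := cd1q0) (C3 := pd3)
    rfl (fun _ => rfl) k0_pm_203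

noncomputable def f_pm_213 : ℕ → ℕ → ℕ → ℕ → Bool := onCell 0 536870912 1610612736 536870912 780900216 37827925
    (rowB 3 eng mog cd0q2 cd1q1 pd3 1 true true false .pnn 2 1 3 (qsf 0 536870912 536870912 536870912 3) ndB0q2 ndB1q1 pcB3 Cut.none Ext.none)

def k0_pm_213 : ∃ t, chk3 f_pm_213 t 1 1 1 = true :=
  ⟨(a (b (b (a (l 1) (b (l 1) (a (l 1) (l 16652240)))) (b (a (a (b (l 16702784) (l 16702400)) (l 16556632)) (a (l 16680512) (l 16646536))) (a (a (l 70028171879) (l 16776224)) (a (l 16716008) (l 16695624))))) (b (a (l 4) (b (b (l 16774416) (a (l 16693440) (l 16739736))) (a (l 4) (b (l 16706576) (l 16596384))))) (l 4))) (b (b (a (b (l 1) (a (l 16560640) (l 16498224))) (b (a (b (l 1) (l 16402816)) (c (a (l 16357272) (l 16316816)) (a (l 16319616) (l 16278328)))) (a (b (l 16418512) (l 16442144)) (a (l 16380128) (a (l 16355560) (l 16339112)))))) (b (a (a (l 16602688) (l 16549664)) (a (l 16496584) (b (l 16429032) (l 16495472)))) (b (a (l 16672784) (a (l 16580888) (l 16586480))) (a (l 16675392)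 (a (l 16658496) (l 16709744)))))) (a (b (b (b (l 16727200) (a (l 16770184) (l 16800704))) (a (b (l 16767000) (l 16729912)) (l 16825488))) (b (b (a (l 121030914519) (l 16761080)) (a (l 4) (b (l 16732120) (l 16711208)))) (l 4))) (a (b (b (b (l 16757168) (l 16867424)) (b (l 16882112) (l 16876920))) (b (b (l 16826336) (b (l 16795832) (l 16777856))) (b (b (l 16739960) (l 202098490119)) (l 4)))) (b (b (b (l 16850976) (l 16866648)) (l 16879072)) (b (b (l 16876104) (b (l 16845240) (l 16822424))) (b (b (a (l 16794896) (l 16813736)) (a (l 16779672) (l 16799312))) (b (a (l 378729037271) (l 16917312)) (b (l 541400897863) (l 4)))))))))), by decide +kernel⟩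

theorem c_pm_213 : CertB 0 536870912 536870912 536870912 780900216 37827925 3 eng mog cd0q2 cd1q1 pd3 true true false .pnn 2 1 3
    ndB0q2 ndB1q1 pcB3 Cut.none Ext.none :=
  certB1 (fam := true) (s1 := true) (s2 := false) (a := 2) (b := 1) (c := 3) (cn := .pnn) (n1 := ndB0q2) (n2 := ndB1q1) (pc := pcB3) (cut := Cut.none) (xt := Ext.none) (P1 := 0) (W1 := 536870912) (P2 := 536870912) (W2 := 536870912) (P3 := 780900216) (W3 := 37827925) (N0 := 3) (En := eng) (mo := mog) (C1 := cd0q2) (C2 := cd1q1) (C3 := pd3)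
    rfl (fun _ => rfl) k0_pm_213

noncomputable def f_mm_001 : ℕ → ℕ → ℕ → ℕ → Bool := onCell 0 536870912 0 536870912 780900216 37827925
    (rowB 3 eng mog cd0q0 cd1q0 pd1 0 true false false .up 0 0 1 (qsf 0 536870912 0 536870912 1) ndB0q0 ndB1q0 pcB1 Cut.none Ext.none)

def k0_mm_001 : ∃ t, chk3 f_mm_001 t 1 1 1 = true :=
  ⟨(l 4), by decide +kernel⟩

theorem c_mm_001 : CertB 0 536870912 0 536870912 780900216 37827925 3 eng mog cd0q0 cd1q0 pd1 true false false .up 0 0 1
    ndB0q0 ndB1q0 pcB1 Cut.none Ext.none :=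
  certB0 (fam := true) (s1 := false) (s2 := false) (a := 0) (b := 0) (c := 1) (cn := .up) (n1 := ndB0q0) (n2 := ndB1q0) (pc := pcB1) (cut := Cut.none) (xt := Ext.none) (P1 := 0) (W1 := 536870912) (P2 := 0) (W2 := 536870912) (P3 := 780900216) (W3 := 37827925) (N0 := 3) (En := eng) (mo := mog) (C1 := cd0q0) (C2 := cd1q0) (C3 := pd1)
    rfl k0_mm_001

noncomputable def f_mm_011 : ℕ → ℕ → ℕ → ℕ → Bool := onCell 0 536870912 536870912 536870912 780900216 37827925
    (rowB 3 eng mog cd0q0 cd1q1 pd1 0 true false false .pnn 0 1 1 (qsf 0 536870912 536870912 536870912 1) ndB0q0 ndB1q1 pcB1 Cut.none Ext.none)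

def k0_mm_011 : ∃ t, chk3 f_mm_011 t 1 1 1 = true :=
  ⟨(l 4), by decide +kernel⟩

theorem c_mm_011 : CertB 0 536870912 536870912 536870912 780900216 37827925 3 eng mog cd0q0 cd1q1 pd1 true false false .pnn 0 1 1
    ndB0q0 ndB1q1 pcB1 Cut.none Ext.none :=
  certB0 (fam := true) (s1 := false) (s2 := false) (a := 0) (b := 1) (c := 1) (cn := .pnn) (n1 := ndB0q0) (n2 := ndB1q1) (pc := pcB1) (cut := Cut.none) (xt := Ext.none) (P1 := 0) (W1 := 536870912) (P2 := 536870912) (W2 := 536870912) (P3 := 780900216) (W3 := 37827925) (N0 := 3) (En := eng) (mo := mog) (C1 := cd0q0) (C2 := cd1q1) (C3 := pd1)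
    rfl k0_mm_011

noncomputable def f_mm_012 : ℕ → ℕ → ℕ → ℕ → Bool := onCell 0 536870912 536870912 536870912 780900216 37827925
    (rowB 3 eng mog cd0q0 cd1q1 pd2 0 true false false .pnp 0 1 2 (qsf 0 536870912 536870912 536870912 2) ndB0q0 ndB1q1 pcB2 Cut.none Ext.none)

def k0_mm_012 : ∃ t, chk3 f_mm_012 t 1 1 1 = true :=
  ⟨(l 4), by decide +kernel⟩

theorem c_mm_012 : CertB 0 536870912 536870912 536870912 780900216 37827925 3 eng mog cd0q0 cd1q1 pd2 true false false .pnp 0 1 2
    ndB0q0 ndB1q1 pcB2 Cut.none Ext.none :=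
  certB0 (fam := true) (s1 := false) (s2 := false) (a := 0) (b := 1) (c := 2) (cn := .pnp) (n1 := ndB0q0) (n2 := ndB1q1) (pc := pcB2) (cut := Cut.none) (xt := Ext.none) (P1 := 0) (W1 := 536870912) (P2 := 536870912) (W2 := 536870912) (P3 := 780900216) (W3 := 37827925) (N0 := 3) (En := eng) (mo := mog) (C1 := cd0q0) (C2 := cd1q1) (C3 := pd2)
    rfl k0_mm_012

noncomputable def f_mm_022_a : ℕ → ℕ → ℕ → ℕ → Bool := onCell 0 536870912 0 536870912 780900216 37827925
    (rowB 3 eng mog cd0q0 cd1q2a pd2 0 true false false .pp 0 2 2 (qsf 0 536870912 0 536870912 2) ndB0q0 ndB1q2a pcB2 Cut.none Ext.none)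

def k0_mm_022_a : ∃ t, chk3 f_mm_022_a t 1 1 1 = true :=
  ⟨(l 5), by decide +kernel⟩

theorem c_mm_022_a : CertB 0 536870912 0 536870912 780900216 37827925 3 eng mog cd0q0 cd1q2a pd2 true false false .pp 0 2 2
    ndB0q0 ndB1q2a pcB2 Cut.none Ext.none :=
  certB0 (fam := true) (s1 := false) (s2 := false) (a := 0) (b := 2) (c := 2) (cn := .pp) (n1 := ndB0q0) (n2 := ndB1q2a) (pc := pcB2) (cut := Cut.none) (xt := Ext.none) (P1 := 0) (W1 := 536870912) (P2 := 0) (W2 := 536870912) (P3 := 780900216) (W3 := 37827925) (N0 := 3) (En := eng) (mo := mog) (C1 := cd0q0) (C2 := cd1q2a) (C3 := pd2)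
    rfl k0_mm_022_a

noncomputable def f_mm_022_b : ℕ → ℕ → ℕ → ℕ → Bool := onCell 0 536870912 1239849684 370763052 780900216 37827925
    (rowB 3 eng mog cd0q0 cd1q2b pd2 0 true false false .pp 0 2 2 (qsf 0 536870912 1239849684 370763052 2) ndB0q0 ndB1q2b pcB2 Cut.none Ext.none)

def k0_mm_022_b : ∃ t, chk3 f_mm_022_b t 1 1 1 = true :=
  ⟨(l 5), by decide +kernel⟩

theorem c_mm_022_b : CertB 0 536870912 1239849684 370763052 780900216 37827925 3 eng mog cd0q0 cd1q2b pd2 true false false .pp 0 2 2
    ndB0q0 ndB1q2b pcB2 Cut.none Ext.none :=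
  certB0 (fam := true) (s1 := false) (s2 := false) (a := 0) (b := 2) (c := 2) (cn := .pp) (n1 := ndB0q0) (n2 := ndB1q2b) (pc := pcB2) (cut := Cut.none) (xt := Ext.none) (P1 := 0) (W1 := 536870912) (P2 := 1239849684) (W2 := 370763052) (P3 := 780900216) (W3 := 37827925) (N0 := 3) (En := eng) (mo := mog) (C1 := cd0q0) (C2 := cd1q2b) (C3 := pd2)
    rfl k0_mm_022_b

noncomputable def f_mm_023_a : ℕ → ℕ → ℕ → ℕ → Bool := onCell 0 536870912 0 536870912 780900216 37827925
    (rowB 3 eng mog cd0q0 cd1q2a pd3 0 true false false .up 0 2 3 (qsf 0 536870912 0 536870912 3) ndB0q0 ndB1q2a pcB3 Cut.none Ext.none)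

def k0_mm_023_a : ∃ t, chk3 f_mm_023_a t 1 1 1 = true :=
  ⟨(l 5), by decide +kernel⟩

theorem c_mm_023_a : CertB 0 536870912 0 536870912 780900216 37827925 3 eng mog cd0q0 cd1q2a pd3 true false false .up 0 2 3
    ndB0q0 ndB1q2a pcB3 Cut.none Ext.none :=
  certB0 (fam := true) (s1 := false) (s2 := false) (a := 0) (b := 2) (c := 3) (cn := .up) (n1 := ndB0q0) (n2 := ndB1q2a) (pc := pcB3) (cut := Cut.none) (xt := Ext.none) (P1 := 0) (W1 := 536870912) (P2 := 0) (W2 := 536870912) (P3 := 780900216) (W3 := 37827925) (N0 := 3) (En := eng) (mo := mog) (C1 := cd0q0) (C2 := cd1q2a) (C3 := pd3)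
    rfl k0_mm_023_a

noncomputable def f_mm_023_b : ℕ → ℕ → ℕ → ℕ → Bool := onCell 0 536870912 1239849684 370763052 780900216 37827925
    (rowB 3 eng mog cd0q0 cd1q2b pd3 0 true false false .up 0 2 3 (qsf 0 536870912 1239849684 370763052 3) ndB0q0 ndB1q2b pcB3 Cut.none Ext.none)

def k0_mm_023_b : ∃ t, chk3 f_mm_023_b t 1 1 1 = true :=
  ⟨(l 5), by decide +kernel⟩

theorem c_mm_023_b : CertB 0 536870912 1239849684 370763052 780900216 37827925 3 eng mog cd0q0 cd1q2b pd3 true false false .up 0 2 3
    ndB0q0 ndB1q2b pcB3 Cut.none Ext.none :=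
  certB0 (fam := true) (s1 := false) (s2 := false) (a := 0) (b := 2) (c := 3) (cn := .up) (n1 := ndB0q0) (n2 := ndB1q2b) (pc := pcB3) (cut := Cut.none) (xt := Ext.none) (P1 := 0) (W1 := 536870912) (P2 := 1239849684) (W2 := 370763052) (P3 := 780900216) (W3 := 37827925) (N0 := 3) (En := eng) (mo := mog) (C1 := cd0q0) (C2 := cd1q2b) (C3 := pd3)
    rfl k0_mm_023_b

noncomputable def f_mm_033 : ℕ → ℕ → ℕ → ℕ → Bool := onCell 0 536870912 1610612736 536870912 780900216 37827925
    (rowB 3 eng mog cd0q0 cd1q3 pd3 0 true false false .pnn 0 3 3 (qsf 0 536870912 1610612736 536870912 3) ndB0q0 ndB1q3 pcB3 Cut.none Ext.none)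

def k0_mm_033 : ∃ t, chk3 f_mm_033 t 1 1 1 = true :=
  ⟨(l 5), by decide +kernel⟩

theorem c_mm_033 : CertB 0 536870912 1610612736 536870912 780900216 37827925 3 eng mog cd0q0 cd1q3 pd3 true false false .pnn 0 3 3
    ndB0q0 ndB1q3 pcB3 Cut.none Ext.none :=
  certB0 (fam := true) (s1 := false) (s2 := false) (a := 0) (b := 3) (c := 3) (cn := .pnn) (n1 := ndB0q0) (n2 := ndB1q3) (pc := pcB3) (cut := Cut.none) (xt := Ext.none) (P1 := 0) (W1 := 536870912) (P2 := 1610612736) (W2 := 536870912) (P3 := 780900216) (W3 := 37827925) (N0 := 3) (En := eng) (mo := mog) (C1 := cd0q0) (C2 := cd1q3) (C3 := pd3)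
    rfl k0_mm_033

noncomputable def cut_mm_101 : Cut := Cut.of [[⟨0, 1, 0, 67108864⟩, ⟨1, 0, 0, 67108864⟩, ⟨2, 1, 0, 67108864⟩]]

noncomputable def f_mm_101 : ℕ → ℕ → ℕ → ℕ → Bool := onCell 536870912 536870912 0 536870912 780900216 37827925
    (rowB 3 eng mog cd0q1 cd1q0 pd1 0 true false false .npn 1 0 1 (qsf 536870912 536870912 0 536870912 1) ndB0q1 ndB1q0 pcB1 cut_mm_101 Ext.none)

def k0_mm_101 : ∃ t, chk3 f_mm_101 t 1 1 1 = true :=
  ⟨(a (l 4) (b (a (l 4) (b (a (l 4) (b (a (l 4) (b (l 6) (l 4))) (l 4))) (l 4))) (l 4))), by decide +kernel⟩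

theorem c_mm_101 : CertB 536870912 536870912 0 536870912 780900216 37827925 3 eng mog cd0q1 cd1q0 pd1 true false false .npn 1 0 1
    ndB0q1 ndB1q0 pcB1 cut_mm_101 Ext.none :=
  certB0 (fam := true) (s1 := false) (s2 := false) (a := 1) (b := 0) (c := 1) (cn := .npn) (n1 := ndB0q1) (n2 := ndB1q0) (pc := pcB1) (cut := cut_mm_101) (xt := Ext.none) (P1 := 536870912) (W1 := 536870912) (P2 := 0) (W2 := 536870912) (P3 := 780900216) (W3 := 37827925) (N0 := 3) (En := eng) (mo := mog) (C1 := cd0q1) (C2 := cd1q0) (C3 := pd1)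
    rfl k0_mm_101

noncomputable def cut_mm_102 : Cut := Cut.of [[⟨0, 1, 0, 67108864⟩, ⟨1, 0, 0, 67108864⟩, ⟨2, 1, 0, 67108864⟩]]

noncomputable def f_mm_102 : ℕ → ℕ → ℕ → ℕ → Bool := onCell 536870912 536870912 0 536870912 780900216 37827925
    (rowB 3 eng mog cd0q1 cd1q0 pd2 0 true false false .npp 1 0 2 (qsf 536870912 536870912 0 536870912 2) ndB0q1 ndB1q0 pcB2 cut_mm_102 Ext.none)

def k0_mm_102 : ∃ t, chk3 f_mm_102 t 1 1 1 = true :=
  ⟨(a (l 4) (b (a (l 4) (b (a (l 4) (a (l 4) (b (b (l 6) (l 4)) (l 4)))) (l 4))) (l 4))), by decide +kernel⟩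

theorem c_mm_102 : CertB 536870912 536870912 0 536870912 780900216 37827925 3 eng mog cd0q1 cd1q0 pd2 true false false .npp 1 0 2
    ndB0q1 ndB1q0 pcB2 cut_mm_102 Ext.none :=
  certB0 (fam := true) (s1 := false) (s2 := false) (a := 1) (b := 0) (c := 2) (cn := .npp) (n1 := ndB0q1) (n2 := ndB1q0) (pc := pcB2) (cut := cut_mm_102) (xt := Ext.none) (P1 := 536870912) (W1 := 536870912) (P2 := 0) (W2 := 536870912) (P3 := 780900216) (W3 := 37827925) (N0 := 3) (En := eng) (mo := mog) (C1 := cd0q1) (C2 := cd1q0) (C3 := pd2)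
    rfl k0_mm_102

noncomputable def f_mm_112 : ℕ → ℕ → ℕ → ℕ → Bool := onCell 536870912 536870912 536870912 536870912 780900216 37827925
    (rowB 3 eng mog cd0q1 cd1q1 pd2 0 true false false .dn 1 1 2 (qsf 536870912 536870912 536870912 536870912 2) ndB0q1 ndB1q1 pcB2 Cut.none Ext.none)

def k0_mm_112 : ∃ t, chk3 f_mm_112 t 1 1 1 = true :=
  ⟨(l 4), by decide +kernel⟩

theorem c_mm_112 : CertB 536870912 536870912 536870912 536870912 780900216 37827925 3 eng mog cd0q1 cd1q1 pd2 true false false .dn 1 1 2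
    ndB0q1 ndB1q1 pcB2 Cut.none Ext.none :=
  certB0 (fam := true) (s1 := false) (s2 := false) (a := 1) (b := 1) (c := 2) (cn := .dn) (n1 := ndB0q1) (n2 := ndB1q1) (pc := pcB2) (cut := Cut.none) (xt := Ext.none) (P1 := 536870912) (W1 := 536870912) (P2 := 536870912) (W2 := 536870912) (P3 := 780900216) (W3 := 37827925) (N0 := 3) (En := eng) (mo := mog) (C1 := cd0q1) (C2 := cd1q1) (C3 := pd2)
    rfl k0_mm_112

noncomputable def f_mm_113 : ℕ → ℕ → ℕ → ℕ → Bool := onCell 536870912 536870912 536870912 536870912 780900216 37827925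
    (rowB 3 eng mog cd0q1 cd1q1 pd3 0 true false false .nn 1 1 3 (qsf 536870912 536870912 536870912 536870912 3) ndB0q1 ndB1q1 pcB3 Cut.none Ext.none)

def k0_mm_113 : ∃ t, chk3 f_mm_113 t 1 1 1 = true :=
  ⟨(l 4), by decide +kernel⟩

theorem c_mm_113 : CertB 536870912 536870912 536870912 536870912 780900216 37827925 3 eng mog cd0q1 cd1q1 pd3 true false false .nn 1 1 3
    ndB0q1 ndB1q1 pcB3 Cut.none Ext.none :=
  certB0 (fam := true) (s1 := false) (s2 := false) (a := 1) (b := 1) (c := 3) (cn := .nn) (n1 := ndB0q1) (n2 := ndB1q1) (pc := pcB3) (cut := Cut.none) (xt := Ext.none) (P1 := 536870912) (W1 := 536870912) (P2 := 536870912) (W2 := 536870912) (P3 := 780900216) (W3 := 37827925) (N0 := 3) (En := eng) (mo := mog) (C1 := cd0q1) (C2 := cd1q1) (C3 := pd3)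
    rfl k0_mm_113

noncomputable def f_mm_123_a : ℕ → ℕ → ℕ → ℕ → Bool := onCell 536870912 536870912 0 536870912 780900216 37827925
    (rowB 3 eng mog cd0q1 cd1q2a pd3 0 true false false .npn 1 2 3 (qsf 536870912 536870912 0 536870912 3) ndB0q1 ndB1q2a pcB3 Cut.none Ext.none)

def k0_mm_123_a : ∃ t, chk3 f_mm_123_a t 1 1 1 = true :=
  ⟨(a (l 5) (l 4)), by decide +kernel⟩

theorem c_mm_123_a : CertB 536870912 536870912 0 536870912 780900216 37827925 3 eng mog cd0q1 cd1q2a pd3 true false false .npn 1 2 3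
    ndB0q1 ndB1q2a pcB3 Cut.none Ext.none :=
  certB0 (fam := true) (s1 := false) (s2 := false) (a := 1) (b := 2) (c := 3) (cn := .npn) (n1 := ndB0q1) (n2 := ndB1q2a) (pc := pcB3) (cut := Cut.none) (xt := Ext.none) (P1 := 536870912) (W1 := 536870912) (P2 := 0) (W2 := 536870912) (P3 := 780900216) (W3 := 37827925) (N0 := 3) (En := eng) (mo := mog) (C1 := cd0q1) (C2 := cd1q2a) (C3 := pd3)
    rfl k0_mm_123_a

noncomputable def f_mm_123_b : ℕ → ℕ → ℕ → ℕ → Bool := onCell 536870912 536870912 1239849684 370763052 780900216 37827925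
    (rowB 3 eng mog cd0q1 cd1q2b pd3 0 true false false .npn 1 2 3 (qsf 536870912 536870912 1239849684 370763052 3) ndB0q1 ndB1q2b pcB3 Cut.none Ext.none)

def k0_mm_123_b : ∃ t, chk3 f_mm_123_b t 1 1 1 = true :=
  ⟨(l 5), by decide +kernel⟩

theorem c_mm_123_b : CertB 536870912 536870912 1239849684 370763052 780900216 37827925 3 eng mog cd0q1 cd1q2b pd3 true false false .npn 1 2 3
    ndB0q1 ndB1q2b pcB3 Cut.none Ext.none :=
  certB0 (fam := true) (s1 := false) (s2 := false) (a := 1) (b := 2) (c := 3) (cn := .npn) (n1 := ndB0q1) (n2 := ndB1q2b) (pc := pcB3) (cut := Cut.none) (xt := Ext.none) (P1 := 536870912) (W1 := 536870912) (P2 := 1239849684) (W2 := 370763052) (P3 := 780900216) (W3 := 37827925) (N0 := 3) (En := eng) (mo := mog) (C1 := cd0q1) (C2 := cd1q2b) (C3 := pd3)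
    rfl k0_mm_123_b

noncomputable def f_mm_133 : ℕ → ℕ → ℕ → ℕ → Bool := onCell 536870912 536870912 1610612736 536870912 780900216 37827925
    (rowB 3 eng mog cd0q1 cd1q3 pd3 0 true false false .dn 1 3 3 (qsf 536870912 536870912 1610612736 536870912 3) ndB0q1 ndB1q3 pcB3 Cut.none Ext.none)

def k0_mm_133 : ∃ t, chk3 f_mm_133 t 1 1 1 = true :=
  ⟨(l 4), by decide +kernel⟩

theorem c_mm_133 : CertB 536870912 536870912 1610612736 536870912 780900216 37827925 3 eng mog cd0q1 cd1q3 pd3 true false false .dn 1 3 3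
    ndB0q1 ndB1q3 pcB3 Cut.none Ext.none :=
  certB0 (fam := true) (s1 := false) (s2 := false) (a := 1) (b := 3) (c := 3) (cn := .dn) (n1 := ndB0q1) (n2 := ndB1q3) (pc := pcB3) (cut := Cut.none) (xt := Ext.none) (P1 := 536870912) (W1 := 536870912) (P2 := 1610612736) (W2 := 536870912) (P3 := 780900216) (W3 := 37827925) (N0 := 3) (En := eng) (mo := mog) (C1 := cd0q1) (C2 := cd1q3) (C3 := pd3)
    rfl k0_mm_133

noncomputable def cut_mm_202 : Cut := Cut.of [[⟨0, 1, 0, 67108864⟩, ⟨1, 0, 0, 67108864⟩, ⟨2, 1, 0, 67108864⟩]]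

noncomputable def f_mm_202 : ℕ → ℕ → ℕ → ℕ → Bool := onCell 0 536870912 0 536870912 780900216 37827925
    (rowB 3 eng mog cd0q2 cd1q0 pd2 0 true false false .pp 2 0 2 (qsf 0 536870912 0 536870912 2) ndB0q2 ndB1q0 pcB2 cut_mm_202 Ext.none)

def k0_mm_202 : ∃ t, chk3 f_mm_202 t 2 2 1 = true :=
  ⟨(b (a (b (b (a (a (l 16460288) (b (l 16400360) (l 16412704))) (b (l 16356472) (l 16433344))) (a (a (l 16483376) (l 16431616)) (l 16452512))) (b (a (l 16426880) (l 16475912)) (a (l 16469688) (l 16498184)))) (b (b (a (b (a (l 16440096) (l 16455472)) (a (l 16456576) (l 16474608))) (b (a (l 16472976) (a (l 16487712) (l 16498120))) (a (l 16452504) (a (l 16510408) (l 16521168))))) (a (l 16486984) (a (l 16518216) (b (l 16534816) (l 16550328))))) (b (a (l 16512464) (a (l 16545848) (l 16571944))) (a (l 16536080) (a (l 16570808) (l 16598408)))))) (a (b (a (b (l 16494168) (l 16522568)) (b (l 16523424) (l 16552376))) (b (l 16674768) (a (l 16583392) (l 16607712)))) (b (b (a (l 16562240) (l 16653248)) (a (l 16591896)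 (l 16631640))) (a (b (l 16617016) (l 16638616)) (b (l 16652720) (a (l 16666376) (l 16687304))))))), by decide +kernel⟩

def k1_mm_202 : ∃ t, chk3 f_mm_202 t 6 4 1 = true :=
  ⟨(b (a (b (a (b (a (l 16487656) (b (l 16513104) (l 16525272))) (a (l 16531976) (l 16542960))) (b (a (b (l 16523968) (l 16536304)) (b (b (l 16532352) (l 16538656)) (l 16548000))) (a (l 16512320) (b (l 16560240) (l 16572184))))) (b (a (b (l 16554112) (l 16563960)) (b (l 16535712) (l 16588736))) (a (l 16576648) (b (l 16599040) (l 16608328))))) (b (a (b (a (b (b (a (l 16541472) (l 16547848)) (l 16551048)) (l 16581480)) (b (b (c (l 16574856) (l 16577584)) (a (l 16560880) (l 16567688))) (a (l 16570416) (l 16577280)))) (a (b (l 16572904) (l 16585024)) (b (l 16586392) (l 16598696)))) (b (a (b (a (b (l 16578624) (l 16574640)) (b (c (l 16576368) (l 16574104)) (l 16581752))) (a (l 16584288) (l 16591464))) (a (b (b (c (l 16583592) (l 16581408)) (l 16589056)) (l 16598816)) (b (b (c (l 16591032) (l 16588928)) (l 16596576)) (l 16588696))))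 (a (b (l 16590088) (l 16613016)) (b (b (l 16612264) (l 16618616)) (l 16628056))))) (a (a (b (l 16602656) (l 16624688)) (b (l 16616624) (l 16639288))) (b (b (a (l 16625232) (l 16640424)) (l 16644936)) (a (l 16654456) (l 16670208)))))) (a (a (b (l 16596800) (l 16638400)) (b (b (l 16614816) (l 16624104)) (b (l 16634720) (l 16646072)))) (b (a (b (a (l 16633672) (l 16647408)) (l 16649656)) (b (a (l 16662328) (l 16678368)) (a (l 16671000) (l 16686648)))) (a (b (l 16639128) (l 16671456)) (b (l 16667928) (a (l 16692232) (l 16709296))))))), by decide +kernel⟩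

def k2_mm_202 : ∃ t, chk3 f_mm_202 t 7 4 1 = true :=
  ⟨(b (a (b (a (a (b (b (a (b (c (l 16598720) (l 16596688)) (l 16604336)) (b (c (l 16606704) (l 16604752)) (l 16612392))) (a (b (l 16610928) (l 16617464)) (b (l 16619024) (l 16625592)))) (b (a (l 16627160) (l 16635344)) (l 16623016))) (b (a (b (b (b (c (l 16613576) (l 16611688)) (l 16615984)) (l 16621016)) (b (l 16627680) (l 16634280))) (a (b (b (b (l 6) (l 16622888)) (l 16627936)) (l 16637936)) (b (b (l 6) (l 16632760)) (l 16642776)))) (b (a (l 16644080) (l 16653480)) (a (l 16656928) (l 16666368))))) (b (a (b (b (l 6) (a (c (l 16641096) (l 16639592)) (l 6))) (b (a (l 16647016) (l 16657632)) (a (l 16653656) (l 16664272)))) (b (l 6) (a (b (l 6) (l 16675464)) (l 6)))) (b (a (a (l 16663504) (l 16674136)) (a (b (l 16682048) (l 16688576)) (b (l 6) (l 16700304)))) (a (a (l 16676424) (l 16687072)) (a (l 16677296) (l 16689024)))))) (a (b (a (b (l 16635536) (l 16668800)) (b (l 16653296) (l 16686680))) (a (l 16686824) (l 16704928))) (b (a (b (l 16673464)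 (l 16706912)) (b (l 16716880) (l 16729352))) (a (l 16720760) (b (l 16733640) (l 16738232)))))) (b (a (b (l 6) (a (b (l 6) (a (l 16722136) (l 16734624))) (l 6))) (l 6)) (a (b (a (b (a (l 16734824) (l 16744648)) (a (l 16740864) (l 16749072))) (b (a (l 16760448) (b (l 6) (l 4))) (a (l 16770248) (l 4)))) (a (b (a (l 16745696) (l 4)) (l 4)) (l 4))) (l 4)))) (a (b (a (b (a (l 16695216) (l 16711944)) (a (l 16703272) (l 16721368))) (b (a (l 16728792) (b (l 16744696) (l 4))) (a (l 16763120) (l 4)))) (a (b (a (l 16714728) (l 16757176)) (a (l 4) (l 4))) (l 4))) (l 4))), by decide +kernel⟩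

def k3_mm_202 : ∃ t, chk3 f_mm_202 t 3 5 1 = true :=
  ⟨(a (b (a (b (a (l 16640320) (l 16664264)) (a (l 16662744) (l 16731296))) (b (b (a (l 16683784) (a (l 16664712) (l 4))) (a (l 16698464) (l 4))) (a (b (l 16714408) (l 4)) (l 4)))) (a (b (a (l 16686376) (l 16774280)) (a (l 16736208) (l 4))) (l 4))) (l 4)), by decide +kernel⟩

def k4_mm_202 : ∃ t, chk3 f_mm_202 t 1 3 1 = true :=
  ⟨(a (a (b (b (a (l 16613768) (b (l 16628824) (l 16651088))) (a (l 16656712) (b (l 16673848) (l 16696464)))) (l 2)) (b (b (a (b (l 16662032) (b (l 16680096) (l 16587528))) (b (a (l 16691952) (l 16716552)) (a (l 16719896) (l 4)))) (a (b (l 29225903719) (l 44258352119)) (l 4))) (l 4))) (l 4)), by decide +kernel⟩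

theorem s5_mm_202 : ∃ t, chk3 f_mm_202 t 3 4 1 = true := ex3_a k1_mm_202 k2_mm_202

theorem s6_mm_202 : ∃ t, chk3 f_mm_202 t 3 2 1 = true := ex3_b s5_mm_202 k3_mm_202

theorem s7_mm_202 : ∃ t, chk3 f_mm_202 t 1 2 1 = true := ex3_a k0_mm_202 s6_mm_202

theorem s8_mm_202 : ∃ t, chk3 f_mm_202 t 1 1 1 = true := ex3_b s7_mm_202 k4_mm_202

theorem c_mm_202 : CertB 0 536870912 0 536870912 780900216 37827925 3 eng mog cd0q2 cd1q0 pd2 true false false .pp 2 0 2
    ndB0q2 ndB1q0 pcB2 cut_mm_202 Ext.none :=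
  certB0 (fam := true) (s1 := false) (s2 := false) (a := 2) (b := 0) (c := 2) (cn := .pp) (n1 := ndB0q2) (n2 := ndB1q0) (pc := pcB2) (cut := cut_mm_202) (xt := Ext.none) (P1 := 0) (W1 := 536870912) (P2 := 0) (W2 := 536870912) (P3 := 780900216) (W3 := 37827925) (N0 := 3) (En := eng) (mo := mog) (C1 := cd0q2) (C2 := cd1q0) (C3 := pd2)
    rfl s8_mm_202

noncomputable def f_mm_203 : ℕ → ℕ → ℕ → ℕ → Bool := onCell 0 536870912 1610612736 536870912 780900216 37827925
    (rowB 3 eng mog cd0q2 cd1q0 pd3 1 true false false .up 2 0 3 (qsf 0 536870912 0 536870912 3) ndB0q2 ndB1q0 pcB3 Cut.none Ext.none)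

def k0_mm_203 : ∃ t, chk3 f_mm_203 t 1 1 1 = true :=
  ⟨(b (a (a (a (b (b (l 16683248) (b (l 16671568) (l 16731968))) (b (b (l 16742384) (l 2)) (l 2))) (b (b (b (l 16702936) (l 16723320)) (l 4)) (l 4))) (b (l 4) (l 4))) (l 4)) (l 2)), by decide +kernel⟩

theorem c_mm_203 : CertB 0 536870912 0 536870912 780900216 37827925 3 eng mog cd0q2 cd1q0 pd3 true false false .up 2 0 3
    ndB0q2 ndB1q0 pcB3 Cut.none Ext.none :=
  certB1 (fam := true) (s1 := false) (s2 := false) (a := 2) (b := 0) (c := 3) (cn := .up) (n1 := ndB0q2) (n2 := ndB1q0) (pc := pcB3) (cut := Cut.none) (xt := Ext.none) (P1 := 0) (W1 := 536870912) (P2 := 0) (W2 := 536870912) (P3 := 780900216) (W3 := 37827925) (N0 := 3) (En := eng) (mo := mog) (C1 := cd0q2) (C2 := cd1q0) (C3 := pd3)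
    rfl (fun _ => rfl) k0_mm_203

noncomputable def f_mm_213 : ℕ → ℕ → ℕ → ℕ → Bool := onCell 0 536870912 536870912 536870912 780900216 37827925
    (rowB 3 eng mog cd0q2 cd1q1 pd3 0 true false false .pnn 2 1 3 (qsf 0 536870912 536870912 536870912 3) ndB0q2 ndB1q1 pcB3 Cut.none Ext.none)

def k0_mm_213 : ∃ t, chk3 f_mm_213 t 1 1 1 = true :=
  ⟨(a (b (l 4) (l 4)) (l 4)), by decide +kernel⟩

theorem c_mm_213 : CertB 0 536870912 536870912 536870912 780900216 37827925 3 eng mog cd0q2 cd1q1 pd3 true false false .pnn 2 1 3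
    ndB0q2 ndB1q1 pcB3 Cut.none Ext.none :=
  certB0 (fam := true) (s1 := false) (s2 := false) (a := 2) (b := 1) (c := 3) (cn := .pnn) (n1 := ndB0q2) (n2 := ndB1q1) (pc := pcB3) (cut := Cut.none) (xt := Ext.none) (P1 := 0) (W1 := 536870912) (P2 := 536870912) (W2 := 536870912) (P3 := 780900216) (W3 := 37827925) (N0 := 3) (En := eng) (mo := mog) (C1 := cd0q2) (C2 := cd1q1) (C3 := pd3)
    rfl k0_mm_213

end Pool.Agent.Strip051.G.I72727_7625.Tab.C.BA01

namespace Pool.Agent.Strip051.G.I72727_7625.Tab.C.BA02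

open Pool.Agent.Strip051.PB Pool.Agent.Strip051.PB.T
open Pool.Agent.Strip051.G.I72727_7625.Tab

noncomputable def f_pp_001 : ℕ → ℕ → ℕ → ℕ → Bool := onCell 0 536870912 0 536870912 780900216 37827925
    (rowB 3 eng mog cd0q0 cd2q0 pd1 0 true true true .up 0 0 1 (qsf 0 536870912 0 536870912 1) ndB0q0 ndB2q0 pcB1 Cut.none Ext.none)

def k0_pp_001 : ∃ t, chk3 f_pp_001 t 1 1 1 = true :=
  ⟨(l 4), by decide +kernel⟩

theorem c_pp_001 : CertB 0 536870912 0 536870912 780900216 37827925 3 eng mog cd0q0 cd2q0 pd1 true true true .up 0 0 1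
    ndB0q0 ndB2q0 pcB1 Cut.none Ext.none :=
  certB0 (fam := true) (s1 := true) (s2 := true) (a := 0) (b := 0) (c := 1) (cn := .up) (n1 := ndB0q0) (n2 := ndB2q0) (pc := pcB1) (cut := Cut.none) (xt := Ext.none) (P1 := 0) (W1 := 536870912) (P2 := 0) (W2 := 536870912) (P3 := 780900216) (W3 := 37827925) (N0 := 3) (En := eng) (mo := mog) (C1 := cd0q0) (C2 := cd2q0) (C3 := pd1)
    rfl k0_pp_001

noncomputable def f_pp_011 : ℕ → ℕ → ℕ → ℕ → Bool := onCell 0 536870912 536870912 536870912 780900216 37827925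
    (rowB 3 eng mog cd0q0 cd2q1 pd1 0 true true true .pnn 0 1 1 (qsf 0 536870912 536870912 536870912 1) ndB0q0 ndB2q1 pcB1 Cut.none Ext.none)

def k0_pp_011 : ∃ t, chk3 f_pp_011 t 1 1 1 = true :=
  ⟨(l 4), by decide +kernel⟩

theorem c_pp_011 : CertB 0 536870912 536870912 536870912 780900216 37827925 3 eng mog cd0q0 cd2q1 pd1 true true true .pnn 0 1 1
    ndB0q0 ndB2q1 pcB1 Cut.none Ext.none :=
  certB0 (fam := true) (s1 := true) (s2 := true) (a := 0) (b := 1) (c := 1) (cn := .pnn) (n1 := ndB0q0) (n2 := ndB2q1) (pc := pcB1) (cut := Cut.none) (xt := Ext.none) (P1 := 0) (W1 := 536870912) (P2 := 536870912) (W2 := 536870912) (P3 := 780900216) (W3 := 37827925) (N0 := 3) (En := eng) (mo := mog) (C1 := cd0q0) (C2 := cd2q1) (C3 := pd1)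
    rfl k0_pp_011

noncomputable def f_pp_012 : ℕ → ℕ → ℕ → ℕ → Bool := onCell 0 536870912 536870912 536870912 780900216 37827925
    (rowB 3 eng mog cd0q0 cd2q1 pd2 0 true true true .pnp 0 1 2 (qsf 0 536870912 536870912 536870912 2) ndB0q0 ndB2q1 pcB2 Cut.none Ext.none)

def k0_pp_012 : ∃ t, chk3 f_pp_012 t 1 1 1 = true :=
  ⟨(l 4), by decide +kernel⟩

theorem c_pp_012 : CertB 0 536870912 536870912 536870912 780900216 37827925 3 eng mog cd0q0 cd2q1 pd2 true true true .pnp 0 1 2
    ndB0q0 ndB2q1 pcB2 Cut.none Ext.none :=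
  certB0 (fam := true) (s1 := true) (s2 := true) (a := 0) (b := 1) (c := 2) (cn := .pnp) (n1 := ndB0q0) (n2 := ndB2q1) (pc := pcB2) (cut := Cut.none) (xt := Ext.none) (P1 := 0) (W1 := 536870912) (P2 := 536870912) (W2 := 536870912) (P3 := 780900216) (W3 := 37827925) (N0 := 3) (En := eng) (mo := mog) (C1 := cd0q0) (C2 := cd2q1) (C3 := pd2)
    rfl k0_pp_012

noncomputable def cut_pp_022_a : Cut := Cut.of [[⟨0, 0, 0, 67108864⟩, ⟨1, 1, 0, 67108864⟩, ⟨2, 1, 0, 67108864⟩]]

noncomputable def f_pp_022_a : ℕ → ℕ → ℕ → ℕ → Bool := onCell 0 536870912 0 536870912 780900216 37827925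
    (rowB 3 eng mog cd0q0 cd2q2a pd2 0 true true true .pp 0 2 2 (qsf 0 536870912 0 536870912 2) ndB0q0 ndB2q2a pcB2 cut_pp_022_a Ext.none)

def k0_pp_022_a : ∃ t, chk3 f_pp_022_a t 4 2 1 = true :=
  ⟨(a (b (b (a (a (l 16455024) (l 16466912)) (a (l 16477792) (l 16487576))) (a (a (l 16467880) (l 16477976)) (a (l 16489400) (l 16501888)))) (a (b (a (b (l 16477152) (l 16487984)) (b (l 16486960) (l 16497224))) (a (b (l 16502488) (l 16520832)) (b (l 16511264) (l 16529400)))) (b (a (l 16503928) (l 16516768)) (a (b (l 16522712) (l 16540272)) (l 16544376))))) (b (b (a (l 16499992) (l 16517976)) (a (a (l 16515088) (l 16523328)) (a (l 16532360) (l 16542904)))) (a (b (a (b (l 16525480) (l 16536048)) (b (l 16540304) (l 16551096))) (a (l 16568928) (b (l 16565104) (l 16582488)))) (a (b (l 16560680) (b (l 16580800) (l 16598392))) (b (l 16572368) (b (l 16595976) (l 16615448))))))), by decide +kernel⟩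

def k1_pp_022_a : ∃ t, chk3 f_pp_022_a t 4 6 1 = true :=
  ⟨(a (a (b (b (a (l 16543232) (l 16551936)) (a (b (l 16562432) (l 16574008)) (b (l 16571328) (l 16585192)))) (a (b (a (l 16584480) (l 16594744)) (a (b (l 16600256) (l 16611048)) (l 16637376))) (b (b (l 16600232) (l 16615088)) (a (l 16647784) (b (l 16631144) (l 16642584)))))) (b (b (a (b (l 16556192) (l 16568424)) (l 16574752)) (a (b (l 16581528) (l 16595408)) (b (l 16593576) (l 16607232)))) (b (a (b (l 16610472) (l 16626824)) (b (l 16622168) (l 16638408))) (a (b (l 16644424) (a (l 16652624) (l 16662456))) (a (b (l 16652984) (l 16671432)) (b (l 16659808) (l 16678568))))))) (b (a (b (a (l 16546688) (l 16603744)) (a (b (l 16607264) (l 16599768)) (b (l 16622768) (l 16637512)))) (b (a (a (l 16616368) (l 16646760)) (l 4)) (l 4))) (a (a (b (b (l 16636040) (a (l 16648920) (l 4))) (b (l 4) (l 4))) (l 4)) (l 4)))), by decide +kernel⟩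

def k2_pp_022_a : ∃ t, chk3 f_pp_022_a t 4 7 1 = true :=
  ⟨(a (b (a (b (a (b (a (b (l 16619192) (l 16624664)) (l 16591000)) (a (b (l 16631664) (l 16641168)) (a (l 16613328) (l 16618816)))) (b (a (l 16643688) (l 16654192)) (a (a (l 16624248) (l 16629624)) (b (l 16643312) (l 16652768))))) (a (a (b (b (l 16671920) (l 6)) (l 6)) (b (b (a (l 16659272) (l 16664752)) (a (l 16669296) (l 16674760))) (b (b (l 16658728) (l 6)) (l 6)))) (b (b (a (l 16651896) (l 16662504)) (a (b (l 16680328) (l 16664416)) (b (l 16669920) (l 16674824)))) (a (b (a (l 16669456) (l 16674792)) (a (l 6) (a (l 16683968) (l 16686576)))) (b (c (l 65732942151) (l 16683088)) (c (l 230552333863) (l 227331113191))))))) (b (a (b (a (l 16664464) (l 16674096)) (a (b (l 16653704) (l 16652344)) (b (l 16683424) (l 4)))) (b (a (l 16681912) (l 4)) (l 4))) (a (b (a (b (l 64122297863) (l 16705432)) (l 4)) (l 4)) (l 4)))) (a (a (l 6) (a (b (l 6) (l 4)) (l 4))) (l 4))) (l 4)), by decide +kernel⟩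

def k3_pp_022_a : ∃ t, chk3 f_pp_022_a t 5 1 1 = true :=
  ⟨(b (a (b (a (b (l 16542936) (a (l 16555336) (l 16570016))) (b (l 16574048) (a (l 16585928) (l 16601680)))) (a (a (b (l 16605912) (b (l 16611520) (l 16652440))) (b (b (l 16590840) (l 16607568)) (b (l 16624704) (l 4)))) (b (a (b (l 16606456) (l 16621568)) (b (l 16620856) (l 4))) (l 4)))) (b (a (b (l 16657464) (a (l 16637528) (l 13656448935))) (b (a (l 16627304) (l 16673144)) (a (l 26541352503) (l 4)))) (l 4))) (l 4)), by decide +kernel⟩

def k4_pp_022_a : ∃ t, chk3 f_pp_022_a t 3 1 1 = true :=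
  ⟨(b (a (a (b (b (a (a (l 28151982071) (l 46405607911)) (l 4)) (l 4)) (l 4)) (l 4)) (l 4)) (l 4)), by decide +kernel⟩

theorem s5_pp_022_a : ∃ t, chk3 f_pp_022_a t 4 3 1 = true := ex3_b k1_pp_022_a k2_pp_022_a

theorem s6_pp_022_a : ∃ t, chk3 f_pp_022_a t 4 1 1 = true := ex3_b k0_pp_022_a s5_pp_022_a

theorem s7_pp_022_a : ∃ t, chk3 f_pp_022_a t 2 1 1 = true := ex3_a s6_pp_022_a k3_pp_022_a

theorem s8_pp_022_a : ∃ t, chk3 f_pp_022_a t 1 1 1 = true := ex3_a s7_pp_022_a k4_pp_022_a

theorem c_pp_022_a : CertB 0 536870912 0 536870912 780900216 37827925 3 eng mog cd0q0 cd2q2a pd2 true true true .pp 0 2 2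
    ndB0q0 ndB2q2a pcB2 cut_pp_022_a Ext.none :=
  certB0 (fam := true) (s1 := true) (s2 := true) (a := 0) (b := 2) (c := 2) (cn := .pp) (n1 := ndB0q0) (n2 := ndB2q2a) (pc := pcB2) (cut := cut_pp_022_a) (xt := Ext.none) (P1 := 0) (W1 := 536870912) (P2 := 0) (W2 := 536870912) (P3 := 780900216) (W3 := 37827925) (N0 := 3) (En := eng) (mo := mog) (C1 := cd0q0) (C2 := cd2q2a) (C3 := pd2)
    rfl s8_pp_022_a

noncomputable def cut_pp_022_b : Cut := Cut.of [[⟨0, 0, 0, 67108864⟩, ⟨1, 1, 0, 67108864⟩, ⟨2, 1, 0, 67108864⟩]]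

noncomputable def f_pp_022_b : ℕ → ℕ → ℕ → ℕ → Bool := onCell 1073741824 536870912 1239849684 370763052 780900216 37827925
    (rowB 3 eng mog cd0q0 cd2q2b pd2 2 true true true .pp 0 2 2 (qsf 0 536870912 1239849684 370763052 2) ndB0q0 ndB2q2b pcB2 cut_pp_022_b Ext.none)

def k0_pp_022_b : ∃ t, chk3 f_pp_022_b t 1 1 1 = true :=
  ⟨(a (a (l 1) (b (b (a (b (a (a (l 1) (b (l 16402008) (l 1))) (b (a (l 16417336) (l 16429400)) (l 16419512))) (l 1)) (b (a (b (a (l 16440536) (l 16450568)) (a (l 16375272) (l 16386304))) (b (a (l 16459168) (l 16467448)) (l 16400440))) (a (b (a (l 16308416) (l 16320528)) (l 1)) (b (l 16336184) (l 16270432))))) (a (l 1) (a (l 1) (b (l 16273448) (l 1))))) (l 1))) (a (b (b (a (b (b (a (l 16523192) (b (l 16521000) (l 16403848))) (a (l 16418824) (l 16439520))) (a (b (l 16356064) (l 16292720)) (b (l 16377104) (l 16314704)))) (b (b (a (b (l 16550880) (l 16517656)) (a (l 16559024) (l 16574688))) (a (l 16467224) (l 16498888))) (a (b (a (l 16394512) (l 16408168)) (l 16233216))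 (a (l 16390984) (l 16406992))))) (a (a (b (b (l 16227528) (l 16160776)) (l 1)) (b (l 16219448) (l 16087200))) (b (a (l 16244048) (l 16269784)) (a (b (l 16149056) (l 16083608)) (l 16144168))))) (a (l 1) (b (a (a (l 15903432) (l 15984408)) (b (l 16078168) (l 15921496))) (l 1)))) (b (a (b (b (b (a (a (l 16590200) (l 16605584)) (a (l 16621200) (l 4))) (a (l 16533600) (a (l 16558296) (l 4)))) (a (b (l 16467728) (l 16399624)) (a (l 16481600) (l 4)))) (b (a (l 16341952) (b (l 16367880) (l 37814546519))) (a (b (l 16203880) (l 16141648)) (l 16204928)))) (l 4)) (a (b (a (b (l 16089240) (l 15958496)) (b (b (l 16109016) (l 16047096)) (l 15973488))) (b (a (l 1) (l 15821040)) (l 1))) (b (l 4) (b (l 4) (a (l 15729312) (l 4)))))))), by decide +kernel⟩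

theorem c_pp_022_b : CertB 0 536870912 1239849684 370763052 780900216 37827925 3 eng mog cd0q0 cd2q2b pd2 true true true .pp 0 2 2
    ndB0q0 ndB2q2b pcB2 cut_pp_022_b Ext.none :=
  certB2 (fam := true) (s1 := true) (s2 := true) (a := 0) (b := 2) (c := 2) (cn := .pp) (n1 := ndB0q0) (n2 := ndB2q2b) (pc := pcB2) (cut := cut_pp_022_b) (xt := Ext.none) (P1 := 0) (W1 := 536870912) (P2 := 1239849684) (W2 := 370763052) (P3 := 780900216) (W3 := 37827925) (N0 := 3) (En := eng) (mo := mog) (C1 := cd0q0) (C2 := cd2q2b) (C3 := pd2)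
    rfl (fun _ => rfl) k0_pp_022_b

noncomputable def f_pp_023_a : ℕ → ℕ → ℕ → ℕ → Bool := onCell 1610612736 536870912 0 536870912 780900216 37827925
    (rowB 3 eng mog cd0q0 cd2q2a pd3 2 true true true .up 0 2 3 (qsf 0 536870912 0 536870912 3) ndB0q0 ndB2q2a pcB3 Cut.none Ext.none)

def k0_pp_023_a : ∃ t, chk3 f_pp_023_a t 1 1 1 = true :=
  ⟨(a (l 4) (l 2)), by decide +kernel⟩

theorem c_pp_023_a : CertB 0 536870912 0 536870912 780900216 37827925 3 eng mog cd0q0 cd2q2a pd3 true true true .up 0 2 3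
    ndB0q0 ndB2q2a pcB3 Cut.none Ext.none :=
  certB2 (fam := true) (s1 := true) (s2 := true) (a := 0) (b := 2) (c := 3) (cn := .up) (n1 := ndB0q0) (n2 := ndB2q2a) (pc := pcB3) (cut := Cut.none) (xt := Ext.none) (P1 := 0) (W1 := 536870912) (P2 := 0) (W2 := 536870912) (P3 := 780900216) (W3 := 37827925) (N0 := 3) (En := eng) (mo := mog) (C1 := cd0q0) (C2 := cd2q2a) (C3 := pd3)
    rfl (fun _ => rfl) k0_pp_023_a

noncomputable def f_pp_023_b : ℕ → ℕ → ℕ → ℕ → Bool := onCell 1610612736 536870912 1239849684 370763052 780900216 37827925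
    (rowB 3 eng mog cd0q0 cd2q2b pd3 2 true true true .up 0 2 3 (qsf 0 536870912 1239849684 370763052 3) ndB0q0 ndB2q2b pcB3 Cut.none Ext.none)

def k0_pp_023_b : ∃ t, chk3 f_pp_023_b t 1 1 1 = true :=
  ⟨(a (l 4) (l 4)), by decide +kernel⟩

theorem c_pp_023_b : CertB 0 536870912 1239849684 370763052 780900216 37827925 3 eng mog cd0q0 cd2q2b pd3 true true true .up 0 2 3
    ndB0q0 ndB2q2b pcB3 Cut.none Ext.none :=
  certB2 (fam := true) (s1 := true) (s2 := true) (a := 0) (b := 2) (c := 3) (cn := .up) (n1 := ndB0q0) (n2 := ndB2q2b) (pc := pcB3) (cut := Cut.none) (xt := Ext.none) (P1 := 0) (W1 := 536870912) (P2 := 1239849684) (W2 := 370763052) (P3 := 780900216) (W3 := 37827925) (N0 := 3) (En := eng) (mo := mog) (C1 := cd0q0) (C2 := cd2q2b) (C3 := pd3)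
    rfl (fun _ => rfl) k0_pp_023_b

noncomputable def f_pp_033 : ℕ → ℕ → ℕ → ℕ → Bool := onCell 0 536870912 1610612736 536870912 780900216 37827925
    (rowB 3 eng mog cd0q0 cd2q3 pd3 0 true true true .pnn 0 3 3 (qsf 0 536870912 1610612736 536870912 3) ndB0q0 ndB2q3 pcB3 Cut.none Ext.none)

def k0_pp_033 : ∃ t, chk3 f_pp_033 t 1 1 1 = true :=
  ⟨(a (b (l 4) (l 4)) (l 4)), by decide +kernel⟩

theorem c_pp_033 : CertB 0 536870912 1610612736 536870912 780900216 37827925 3 eng mog cd0q0 cd2q3 pd3 true true true .pnn 0 3 3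
    ndB0q0 ndB2q3 pcB3 Cut.none Ext.none :=
  certB0 (fam := true) (s1 := true) (s2 := true) (a := 0) (b := 3) (c := 3) (cn := .pnn) (n1 := ndB0q0) (n2 := ndB2q3) (pc := pcB3) (cut := Cut.none) (xt := Ext.none) (P1 := 0) (W1 := 536870912) (P2 := 1610612736) (W2 := 536870912) (P3 := 780900216) (W3 := 37827925) (N0 := 3) (En := eng) (mo := mog) (C1 := cd0q0) (C2 := cd2q3) (C3 := pd3)
    rfl k0_pp_033

noncomputable def f_pp_101 : ℕ → ℕ → ℕ → ℕ → Bool := onCell 536870912 536870912 0 536870912 780900216 37827925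
    (rowB 3 eng mog cd0q1 cd2q0 pd1 0 true true true .npn 1 0 1 (qsf 536870912 536870912 0 536870912 1) ndB0q1 ndB2q0 pcB1 Cut.none Ext.none)

def k0_pp_101 : ∃ t, chk3 f_pp_101 t 1 1 1 = true :=
  ⟨(l 5), by decide +kernel⟩

theorem c_pp_101 : CertB 536870912 536870912 0 536870912 780900216 37827925 3 eng mog cd0q1 cd2q0 pd1 true true true .npn 1 0 1
    ndB0q1 ndB2q0 pcB1 Cut.none Ext.none :=
  certB0 (fam := true) (s1 := true) (s2 := true) (a := 1) (b := 0) (c := 1) (cn := .npn) (n1 := ndB0q1) (n2 := ndB2q0) (pc := pcB1) (cut := Cut.none) (xt := Ext.none) (P1 := 536870912) (W1 := 536870912) (P2 := 0) (W2 := 536870912) (P3 := 780900216) (W3 := 37827925) (N0 := 3) (En := eng) (mo := mog) (C1 := cd0q1) (C2 := cd2q0) (C3 := pd1)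
    rfl k0_pp_101

noncomputable def f_pp_102 : ℕ → ℕ → ℕ → ℕ → Bool := onCell 536870912 536870912 0 536870912 780900216 37827925
    (rowB 3 eng mog cd0q1 cd2q0 pd2 0 true true true .npp 1 0 2 (qsf 536870912 536870912 0 536870912 2) ndB0q1 ndB2q0 pcB2 Cut.none Ext.none)

def k0_pp_102 : ∃ t, chk3 f_pp_102 t 1 1 1 = true :=
  ⟨(l 5), by decide +kernel⟩

theorem c_pp_102 : CertB 536870912 536870912 0 536870912 780900216 37827925 3 eng mog cd0q1 cd2q0 pd2 true true true .npp 1 0 2
    ndB0q1 ndB2q0 pcB2 Cut.none Ext.none :=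
  certB0 (fam := true) (s1 := true) (s2 := true) (a := 1) (b := 0) (c := 2) (cn := .npp) (n1 := ndB0q1) (n2 := ndB2q0) (pc := pcB2) (cut := Cut.none) (xt := Ext.none) (P1 := 536870912) (W1 := 536870912) (P2 := 0) (W2 := 536870912) (P3 := 780900216) (W3 := 37827925) (N0 := 3) (En := eng) (mo := mog) (C1 := cd0q1) (C2 := cd2q0) (C3 := pd2)
    rfl k0_pp_102

noncomputable def f_pp_112 : ℕ → ℕ → ℕ → ℕ → Bool := onCell 536870912 536870912 536870912 536870912 780900216 37827925
    (rowB 3 eng mog cd0q1 cd2q1 pd2 0 true true true .dn 1 1 2 (qsf 536870912 536870912 536870912 536870912 2) ndB0q1 ndB2q1 pcB2 Cut.none Ext.none)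

def k0_pp_112 : ∃ t, chk3 f_pp_112 t 1 1 1 = true :=
  ⟨(l 4), by decide +kernel⟩

theorem c_pp_112 : CertB 536870912 536870912 536870912 536870912 780900216 37827925 3 eng mog cd0q1 cd2q1 pd2 true true true .dn 1 1 2
    ndB0q1 ndB2q1 pcB2 Cut.none Ext.none :=
  certB0 (fam := true) (s1 := true) (s2 := true) (a := 1) (b := 1) (c := 2) (cn := .dn) (n1 := ndB0q1) (n2 := ndB2q1) (pc := pcB2) (cut := Cut.none) (xt := Ext.none) (P1 := 536870912) (W1 := 536870912) (P2 := 536870912) (W2 := 536870912) (P3 := 780900216) (W3 := 37827925) (N0 := 3) (En := eng) (mo := mog) (C1 := cd0q1) (C2 := cd2q1) (C3 := pd2)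
    rfl k0_pp_112

noncomputable def f_pp_113 : ℕ → ℕ → ℕ → ℕ → Bool := onCell 536870912 536870912 536870912 536870912 780900216 37827925
    (rowB 3 eng mog cd0q1 cd2q1 pd3 0 true true true .nn 1 1 3 (qsf 536870912 536870912 536870912 536870912 3) ndB0q1 ndB2q1 pcB3 Cut.none Ext.none)

def k0_pp_113 : ∃ t, chk3 f_pp_113 t 1 1 1 = true :=
  ⟨(l 4), by decide +kernel⟩

theorem c_pp_113 : CertB 536870912 536870912 536870912 536870912 780900216 37827925 3 eng mog cd0q1 cd2q1 pd3 true true true .nn 1 1 3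
    ndB0q1 ndB2q1 pcB3 Cut.none Ext.none :=
  certB0 (fam := true) (s1 := true) (s2 := true) (a := 1) (b := 1) (c := 3) (cn := .nn) (n1 := ndB0q1) (n2 := ndB2q1) (pc := pcB3) (cut := Cut.none) (xt := Ext.none) (P1 := 536870912) (W1 := 536870912) (P2 := 536870912) (W2 := 536870912) (P3 := 780900216) (W3 := 37827925) (N0 := 3) (En := eng) (mo := mog) (C1 := cd0q1) (C2 := cd2q1) (C3 := pd3)
    rfl k0_pp_113

noncomputable def f_pp_123_a : ℕ → ℕ → ℕ → ℕ → Bool := onCell 536870912 536870912 0 536870912 780900216 37827925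
    (rowB 3 eng mog cd0q1 cd2q2a pd3 0 true true true .npn 1 2 3 (qsf 536870912 536870912 0 536870912 3) ndB0q1 ndB2q2a pcB3 Cut.none Ext.none)

def k0_pp_123_a : ∃ t, chk3 f_pp_123_a t 1 1 1 = true :=
  ⟨(l 4), by decide +kernel⟩

theorem c_pp_123_a : CertB 536870912 536870912 0 536870912 780900216 37827925 3 eng mog cd0q1 cd2q2a pd3 true true true .npn 1 2 3
    ndB0q1 ndB2q2a pcB3 Cut.none Ext.none :=
  certB0 (fam := true) (s1 := true) (s2 := true) (a := 1) (b := 2) (c := 3) (cn := .npn) (n1 := ndB0q1) (n2 := ndB2q2a) (pc := pcB3) (cut := Cut.none) (xt := Ext.none) (P1 := 536870912) (W1 := 536870912) (P2 := 0) (W2 := 536870912) (P3 := 780900216) (W3 := 37827925) (N0 := 3) (En := eng) (mo := mog) (C1 := cd0q1) (C2 := cd2q2a) (C3 := pd3)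
    rfl k0_pp_123_a

noncomputable def f_pp_123_b : ℕ → ℕ → ℕ → ℕ → Bool := onCell 536870912 536870912 1239849684 370763052 780900216 37827925
    (rowB 3 eng mog cd0q1 cd2q2b pd3 0 true true true .npn 1 2 3 (qsf 536870912 536870912 1239849684 370763052 3) ndB0q1 ndB2q2b pcB3 Cut.none Ext.none)

def k0_pp_123_b : ∃ t, chk3 f_pp_123_b t 1 1 1 = true :=
  ⟨(l 4), by decide +kernel⟩

theorem c_pp_123_b : CertB 536870912 536870912 1239849684 370763052 780900216 37827925 3 eng mog cd0q1 cd2q2b pd3 true true true .npn 1 2 3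
    ndB0q1 ndB2q2b pcB3 Cut.none Ext.none :=
  certB0 (fam := true) (s1 := true) (s2 := true) (a := 1) (b := 2) (c := 3) (cn := .npn) (n1 := ndB0q1) (n2 := ndB2q2b) (pc := pcB3) (cut := Cut.none) (xt := Ext.none) (P1 := 536870912) (W1 := 536870912) (P2 := 1239849684) (W2 := 370763052) (P3 := 780900216) (W3 := 37827925) (N0 := 3) (En := eng) (mo := mog) (C1 := cd0q1) (C2 := cd2q2b) (C3 := pd3)
    rfl k0_pp_123_b

noncomputable def f_pp_133 : ℕ → ℕ → ℕ → ℕ → Bool := onCell 536870912 536870912 1610612736 536870912 780900216 37827925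
    (rowB 3 eng mog cd0q1 cd2q3 pd3 0 true true true .dn 1 3 3 (qsf 536870912 536870912 1610612736 536870912 3) ndB0q1 ndB2q3 pcB3 Cut.none Ext.none)

def k0_pp_133 : ∃ t, chk3 f_pp_133 t 1 1 1 = true :=
  ⟨(l 4), by decide +kernel⟩

theorem c_pp_133 : CertB 536870912 536870912 1610612736 536870912 780900216 37827925 3 eng mog cd0q1 cd2q3 pd3 true true true .dn 1 3 3
    ndB0q1 ndB2q3 pcB3 Cut.none Ext.none :=
  certB0 (fam := true) (s1 := true) (s2 := true) (a := 1) (b := 3) (c := 3) (cn := .dn) (n1 := ndB0q1) (n2 := ndB2q3) (pc := pcB3) (cut := Cut.none) (xt := Ext.none) (P1 := 536870912) (W1 := 536870912) (P2 := 1610612736) (W2 := 536870912) (P3 := 780900216) (W3 := 37827925) (N0 := 3) (En := eng) (mo := mog) (C1 := cd0q1) (C2 := cd2q3) (C3 := pd3)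
    rfl k0_pp_133

noncomputable def f_pp_202 : ℕ → ℕ → ℕ → ℕ → Bool := onCell 0 536870912 0 536870912 780900216 37827925
    (rowB 3 eng mog cd0q2 cd2q0 pd2 0 true true true .pp 2 0 2 (qsf 0 536870912 0 536870912 2) ndB0q2 ndB2q0 pcB2 Cut.none Ext.none)

def k0_pp_202 : ∃ t, chk3 f_pp_202 t 1 1 1 = true :=
  ⟨(l 5), by decide +kernel⟩

theorem c_pp_202 : CertB 0 536870912 0 536870912 780900216 37827925 3 eng mog cd0q2 cd2q0 pd2 true true true .pp 2 0 2
    ndB0q2 ndB2q0 pcB2 Cut.none Ext.none :=
  certB0 (fam := true) (s1 := true) (s2 := true) (a := 2) (b := 0) (c := 2) (cn := .pp) (n1 := ndB0q2) (n2 := ndB2q0) (pc := pcB2) (cut := Cut.none) (xt := Ext.none) (P1 := 0) (W1 := 536870912) (P2 := 0) (W2 := 536870912) (P3 := 780900216) (W3 := 37827925) (N0 := 3) (En := eng) (mo := mog) (C1 := cd0q2) (C2 := cd2q0) (C3 := pd2)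
    rfl k0_pp_202

noncomputable def f_pp_203 : ℕ → ℕ → ℕ → ℕ → Bool := onCell 0 536870912 0 536870912 780900216 37827925
    (rowB 3 eng mog cd0q2 cd2q0 pd3 0 true true true .up 2 0 3 (qsf 0 536870912 0 536870912 3) ndB0q2 ndB2q0 pcB3 Cut.none Ext.none)

def k0_pp_203 : ∃ t, chk3 f_pp_203 t 1 1 1 = true :=
  ⟨(l 5), by decide +kernel⟩

theorem c_pp_203 : CertB 0 536870912 0 536870912 780900216 37827925 3 eng mog cd0q2 cd2q0 pd3 true true true .up 2 0 3
    ndB0q2 ndB2q0 pcB3 Cut.none Ext.none :=
  certB0 (fam := true) (s1 := true) (s2 := true) (a := 2) (b := 0) (c := 3) (cn := .up) (n1 := ndB0q2) (n2 := ndB2q0) (pc := pcB3) (cut := Cut.none) (xt := Ext.none) (P1 := 0) (W1 := 536870912) (P2 := 0) (W2 := 536870912) (P3 := 780900216) (W3 := 37827925) (N0 := 3) (En := eng) (mo := mog) (C1 := cd0q2) (C2 := cd2q0) (C3 := pd3)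
    rfl k0_pp_203

noncomputable def f_pp_213 : ℕ → ℕ → ℕ → ℕ → Bool := onCell 0 536870912 536870912 536870912 780900216 37827925
    (rowB 3 eng mog cd0q2 cd2q1 pd3 0 true true true .pnn 2 1 3 (qsf 0 536870912 536870912 536870912 3) ndB0q2 ndB2q1 pcB3 Cut.none Ext.none)

def k0_pp_213 : ∃ t, chk3 f_pp_213 t 1 1 1 = true :=
  ⟨(l 4), by decide +kernel⟩

theorem c_pp_213 : CertB 0 536870912 536870912 536870912 780900216 37827925 3 eng mog cd0q2 cd2q1 pd3 true true true .pnn 2 1 3
    ndB0q2 ndB2q1 pcB3 Cut.none Ext.none :=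
  certB0 (fam := true) (s1 := true) (s2 := true) (a := 2) (b := 1) (c := 3) (cn := .pnn) (n1 := ndB0q2) (n2 := ndB2q1) (pc := pcB3) (cut := Cut.none) (xt := Ext.none) (P1 := 0) (W1 := 536870912) (P2 := 536870912) (W2 := 536870912) (P3 := 780900216) (W3 := 37827925) (N0 := 3) (En := eng) (mo := mog) (C1 := cd0q2) (C2 := cd2q1) (C3 := pd3)
    rfl k0_pp_213

noncomputable def f_pm_001 : ℕ → ℕ → ℕ → ℕ → Bool := onCell 0 536870912 0 536870912 780900216 37827925
    (rowB 3 eng mog cd0q0 cd2q0 pd1 0 true true false .up 0 0 1 (qsf 0 536870912 0 536870912 1) ndB0q0 ndB2q0 pcB1 Cut.none Ext.none)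

def k0_pm_001 : ∃ t, chk3 f_pm_001 t 1 1 1 = true :=
  ⟨(l 3), by decide +kernel⟩

theorem c_pm_001 : CertB 0 536870912 0 536870912 780900216 37827925 3 eng mog cd0q0 cd2q0 pd1 true true false .up 0 0 1
    ndB0q0 ndB2q0 pcB1 Cut.none Ext.none :=
  certB0 (fam := true) (s1 := true) (s2 := false) (a := 0) (b := 0) (c := 1) (cn := .up) (n1 := ndB0q0) (n2 := ndB2q0) (pc := pcB1) (cut := Cut.none) (xt := Ext.none) (P1 := 0) (W1 := 536870912) (P2 := 0) (W2 := 536870912) (P3 := 780900216) (W3 := 37827925) (N0 := 3) (En := eng) (mo := mog) (C1 := cd0q0) (C2 := cd2q0) (C3 := pd1)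
    rfl k0_pm_001

noncomputable def f_pm_011 : ℕ → ℕ → ℕ → ℕ → Bool := onCell 0 536870912 536870912 536870912 780900216 37827925
    (rowB 3 eng mog cd0q0 cd2q1 pd1 1 true true false .pnn 0 1 1 (qsf 0 536870912 536870912 536870912 1) ndB0q0 ndB2q1 pcB1 Cut.none Ext.none)

def k0_pm_011 : ∃ t, chk3 f_pm_011 t 1 1 1 = true :=
  ⟨(l 3), by decide +kernel⟩

theorem c_pm_011 : CertB 0 536870912 536870912 536870912 780900216 37827925 3 eng mog cd0q0 cd2q1 pd1 true true false .pnn 0 1 1
    ndB0q0 ndB2q1 pcB1 Cut.none Ext.none :=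
  certB1 (fam := true) (s1 := true) (s2 := false) (a := 0) (b := 1) (c := 1) (cn := .pnn) (n1 := ndB0q0) (n2 := ndB2q1) (pc := pcB1) (cut := Cut.none) (xt := Ext.none) (P1 := 0) (W1 := 536870912) (P2 := 536870912) (W2 := 536870912) (P3 := 780900216) (W3 := 37827925) (N0 := 3) (En := eng) (mo := mog) (C1 := cd0q0) (C2 := cd2q1) (C3 := pd1)
    rfl (fun _ => rfl) k0_pm_011

noncomputable def f_pm_012 : ℕ → ℕ → ℕ → ℕ → Bool := onCell 0 536870912 1073741824 536870912 780900216 37827925
    (rowB 3 eng mog cd0q0 cd2q1 pd2 1 true true false .pnp 0 1 2 (qsf 0 536870912 536870912 536870912 2) ndB0q0 ndB2q1 pcB2 Cut.none Ext.none)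

def k0_pm_012 : ∃ t, chk3 f_pm_012 t 1 4 1 = true :=
  ⟨(a (l 3) (b (l 3) (a (l 3) (b (l 3) (a (l 3) (b (l 3) (a (l 3) (b (l 3) (b (l 212231310567) (l 260012822551)))))))))), by decide +kernel⟩

def k1_pm_012 : ∃ t, chk3 f_pm_012 t 2 5 1 = true :=
  ⟨(b (a (b (b (a (l 2) (l 3)) (l 2)) (l 2)) (b (b (l 3) (b (l 3) (a (b (l 3) (b (a (l 3) (c (l 16466848) (l 16444776))) (a (l 16430544) (l 16429696)))) (b (a (l 3) (l 16447112)) (b (a (c (l 16488456) (l 16467176)) (c (l 16469976) (l 16428656))) (a (l 16430808) (l 16433904))))))) (a (a (a (l 2) (l 16383832)) (a (l 16382968) (l 16382944))) (a (a (l 16383768) (l 16385456)) (l 16410168))))) (a (l 2) (a (a (l 2) (b (a (l 2) (l 16297200)) (l 2))) (b (a (a (l 16297640) (l 16299496)) (l 16304384)) (a (a (l 2) (l 16216680)) (a (l 16218992) (l 16222568))))))), by decide +kernel⟩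

def k2_pm_012 : ∃ t, chk3 f_pm_012 t 3 5 1 = true :=
  ⟨(b (b (b (a (a (l 3) (b (l 3) (a (l 3) (b (l 3) (l 16490232))))) (a (b (a (l 3) (b (l 3) (a (l 16506080) (l 16505688)))) (a (b (l 16520840) (l 16493608)) (b (a (l 16500736) (l 16501072)) (l 16495960)))) (b (a (b (a (l 16509184) (l 16507816)) (a (l 16505088) (l 16504536))) (a (l 16505480) (l 16504864))) (a (b (l 16501200) (l 16497232)) (b (l 16501472) (l 16498568)))))) (a (b (a (b (l 3) (a (l 16460712) (l 16463568))) (a (b (l 16477408) (l 16468656)) (b (l 16482728) (l 16475048)))) (b (a (a (b (l 16452704) (l 16447496)) (b (l 16456232) (l 16451440))) (a (b (l 16462048) (l 16457672)) (b (l 16469168) (l 16465208)))) (a (b (a (l 16484424) (c (l 16497624) (l 16500248))) (a (l 16437480) (l 16441888))) (b (b (a (l 16454384) (l 16462216)) (a (l 16452128) (l 16460200))) (a (l 16448688) (l 16457168)))))) (b (a (a (b (l 16487240) (l 16480568)) (b (l 16490632) (l 16485008))) (b (a (l 16492960) (l 16495440)) (a (l 16488480) (l 16492256)))) (a (b (a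 (a (l 16472136) (l 16475168)) (l 16479352)) (a (a (l 16485960) (l 16510544)) (b (l 16475080) (l 16472120)))) (b (a (l 16484008) (l 16488808)) (a (b (l 16480544) (l 16478080)) (b (l 16486120) (l 16484120)))))))) (a (a (a (a (l 16393168) (l 16396144)) (b (l 16420504) (l 16381976))) (a (c (l 16420744) (l 16400712)) (c (l 16431504) (l 16412816)))) (a (a (c (l 16442008) (l 16424520)) (l 16464504)) (a (l 16473840) (l 16462416))))) (a (a (a (b (l 16312536) (l 16230032)) (b (l 16323024) (l 16242968))) (a (b (l 16357776) (l 16260232)) (b (l 16352936) (l 16280392)))) (a (a (b (l 16369224) (l 16301280)) (b (l 16385096) (l 16322232))) (a (b (l 16400320) (l 16342888)) (l 16474720))))), by decide +kernel⟩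

def k3_pm_012 : ∃ t, chk3 f_pm_012 t 1 3 1 = true :=
  ⟨(a (a (l 2) (b (b (a (l 2) (a (l 2) (b (l 16204792) (l 2)))) (l 2)) (l 2))) (a (b (a (b (a (b (a (l 16146368) (l 16151728)) (l 16135816)) (b (l 16162832) (a (l 16080368) (l 16088504)))) (a (l 2) (b (l 16073888) (l 2)))) (b (a (b (l 16224272) (l 16104568)) (b (l 16205720) (l 16130008))) (a (b (l 16133632) (l 16041560)) (b (c (l 16075440) (l 16033632)) (l 16023112))))) (a (l 2) (b (a (l 2) (b (l 15975296) (l 2))) (l 2)))) (b (a (b (a (b (l 16230520) (l 16157928)) (b (l 16256016) (l 16187360))) (a (b (c (l 16105392) (l 16063872)) (c (l 16034648) (l 15988608))) (b (l 16117152) (l 16046352)))) (b (a (l 16397032) (l 16279304)) (a (b (l 16151464) (l 16084024)) (b (l 16187592) (l 16124272))))) (a (b (a (b (c (l 15965824) (l 15915384)) (c (l 15901360) (l 15846656))) (b (c (l 16001752) (l 15950664)) (l 15970648))) (a (l 2) (b (l 15843680) (l 2)))) (b (a (b (l 16016144) (l 15948848)) (b (l 16059896) (l 15995240))) (a (b (l 15883448) (l 15822032))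 (b (l 15931192) (l 15868920)))))))), by decide +kernel⟩

theorem s4_pm_012 : ∃ t, chk3 f_pm_012 t 1 5 1 = true := ex3_a k1_pm_012 k2_pm_012

theorem s5_pm_012 : ∃ t, chk3 f_pm_012 t 1 2 1 = true := ex3_b k0_pm_012 s4_pm_012

theorem s6_pm_012 : ∃ t, chk3 f_pm_012 t 1 1 1 = true := ex3_b s5_pm_012 k3_pm_012

theorem c_pm_012 : CertB 0 536870912 536870912 536870912 780900216 37827925 3 eng mog cd0q0 cd2q1 pd2 true true false .pnp 0 1 2
    ndB0q0 ndB2q1 pcB2 Cut.none Ext.none :=
  certB1 (fam := true) (s1 := true) (s2 := false) (a := 0) (b := 1) (c := 2) (cn := .pnp) (n1 := ndB0q0) (n2 := ndB2q1) (pc := pcB2) (cut := Cut.none) (xt := Ext.none) (P1 := 0) (W1 := 536870912) (P2 := 536870912) (W2 := 536870912) (P3 := 780900216) (W3 := 37827925) (N0 := 3) (En := eng) (mo := mog) (C1 := cd0q0) (C2 := cd2q1) (C3 := pd2)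
    rfl (fun _ => rfl) s6_pm_012

noncomputable def cut_pm_022_a : Cut := Cut.of [[⟨0, 0, 0, 67108864⟩, ⟨1, 1, 0, 67108864⟩, ⟨2, 1, 0, 67108864⟩]]

noncomputable def f_pm_022_a : ℕ → ℕ → ℕ → ℕ → Bool := onCell 1073741824 536870912 0 536870912 780900216 37827925
    (rowB 3 eng mog cd0q0 cd2q2a pd2 2 true true false .pp 0 2 2 (qsf 0 536870912 0 536870912 2) ndB0q0 ndB2q2a pcB2 cut_pm_022_a Ext.none)

def k0_pm_022_a : ∃ t, chk3 f_pm_022_a t 8 1 1 = true :=
  ⟨(b (l 1) (b (l 1) (b (a (l 1) (b (a (l 1) (b (l 1) (a (l 1) (b (a (l 1) (l 16595912)) (a (l 6) (l 16607064)))))) (a (l 6) (a (l 6) (a (l 6) (a (l 6) (b (l 16624144) (l 16667840)))))))) (a (l 6) (b (a (l 6) (a (l 6) (a (l 6) (a (l 6) (b (l 16669872) (l 16690528)))))) (a (l 6) (a (l 6) (a (l 6) (a (l 6) (b (c (l 16683144) (l 16666096)) (b (l 16680000) (b (l 16677208) (c (l 16675136) (l 16675472)))))))))))))), by decide +kernel⟩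

def k1_pm_022_a : ∃ t, chk3 f_pm_022_a t 9 2 1 = true :=
  ⟨(b (l 1) (a (l 1) (b (l 1) (a (l 1) (b (l 1) (a (l 1) (b (l 16386656) (l 16421768)))))))), by decide +kernel⟩

def k2_pm_022_a : ∃ t, chk3 f_pm_022_a t 9 6 1 = true :=
  ⟨(a (b (l 1) (b (a (l 1) (a (b (l 1) (a (l 1) (b (l 1) (l 16504912)))) (b (a (l 1) (b (l 1) (l 16495656))) (a (b (l 16494672) (l 111165319911)) (b (l 16509288) (l 16507424)))))) (a (a (l 1) (b (a (l 1) (c (l 16531216) (l 16511112))) (b (a (l 16540384) (l 16561632)) (a (l 16553800) (l 16553800))))) (b (a (b (a (l 16515928) (l 86469280695)) (a (l 16544080) (l 16529040))) (a (b (l 16517848) (l 16529784)) (l 16545752))) (a (b (a (l 16541008) (l 16541440)) (l 16574936)) (b (l 16542216) (l 16554456))))))) (b (a (b (a (l 1) (b (l 1) (a (l 1) (b (l 1) (c (l 16448384) (l 16422728)))))) (a (b (l 1) (a (c (l 16473008) (l 16448488)) (b (l 16458424) (l 16478768)))) (b (a (b (l 16452736) (l 16451424)) (b (c (l 16457256) (l 16431736)) (a (l 16453384) (l 16454328)))) (a (b (l 16460848)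 (l 16470520)) (a (l 16467464) (l 16468288)))))) (b (a (b (b (l 16411352) (l 16419464)) (a (b (l 16427792) (l 16436520)) (l 16453216))) (b (c (l 16426824) (l 16404752)) (c (l 16443352) (l 16420816)))) (b (a (b (c (l 16457056) (l 16432808)) (l 16454072)) (b (l 16445080) (l 16453640))) (a (a (l 16468000) (l 16467560)) (l 16466968))))) (b (a (a (c (b (a (l 101501601671) (l 16494656)) (l 16524776)) (b (a (l 102575302487) (l 16471888)) (l 16493112))) (b (a (l 16485536) (l 16487336)) (a (l 16506296) (l 16507696)))) (b (a (l 16486792) (l 16485440)) (a (l 16506680) (l 16504752)))) (a (a (b (b (l 16520584) (l 16531936)) (l 16549392)) (b (a (l 16527920) (l 16528904)) (l 16571568))) (b (a (l 16527384) (l 16524824)) (l 16568176)))))), by decide +kernel⟩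

def k3_pm_022_a : ∃ t, chk3 f_pm_022_a t 9 14 1 = true :=
  ⟨(a (b (a (b (a (c (b (l 16576080) (l 16589792)) (b (l 16559544) (l 16574424))) (b (a (l 16567440) (l 16567168)) (l 16601976))) (a (b (a (l 16595880) (l 16594832)) (l 16627128)) (b (l 16593464) (l 16603824)))) (b (a (b (l 16566920) (l 16580072)) (l 16594200)) (a (l 16617976) (l 16595720)))) (a (b (a (a (l 16644392) (l 16621768)) (l 16640496)) (a (c (l 16670488) (l 16639528)) (c (l 16624536) (l 16635464)))) (b (a (l 16637920) (c (l 16620488) (l 16608696))) (a (l 16637168) (l 16634144))))) (b (a (b (a (l 16573248) (l 16594464)) (a (l 16594808) (l 16594160))) (b (l 16589896) (l 16588528))) (a (a (b (l 16613088) (l 16631560)) (b (l 16611664) (l 16629336))) (b (l 16605152) (l 16621848))))), by decide +kernel⟩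

def k4_pm_022_a : ∃ t, chk3 f_pm_022_a t 9 15 1 = true :=
  ⟨(a (b (b (a (a (b (l 16661424) (l 16672656)) (l 16662040)) (c (l 16659400) (l 16651312))) (a (a (c (l 16681936) (l 16686584)) (l 16655840)) (c (l 16659968) (l 16667016)))) (b (a (c (a (b (l 16678880) (l 16676472)) (l 16669600)) (a (l 16650360) (l 16653040))) (a (a (l 16623328) (l 16618856)) (a (l 16635208) (l 16651424)))) (a (b (a (c (l 16694728) (l 16675952)) (c (l 16665824) (l 16668352))) (a (c (b (l 16681992) (a (b (l 16672144) (l 16676560)) (l 16668024))) (b (l 16672712) (a (l 16672160) (l 16668640)))) (c (b (l 16663672) (l 16672624)) (b (l 16665208) (l 16662992))))) (b (a (l 16658520) (l 16649400)) (a (c (l 16664928) (l 16676872)) (c (l 16645232) (l 16646864))))))) (a (b (a (c (l 16646528) (l 16654776)) (a (l 16585016) (c (l 16633512) (l 16641704)))) (a (b (c (l 16641672) (l 16646568)) (b (l 16639536) (c (l 16635264) (l 16636968)))) (b (c (l 16610200) (l 16615064)) (a (b (l 16631584) (l 16627936)) (b (l 16626120) (l 16643344))))))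 (b (a (c (l 16628400) (l 16635296)) (l 16561152)) (b (a (l 16624680) (l 16616352)) (a (b (l 16619672) (c (l 16615696) (l 16615864))) (b (l 16610856) (a (l 16608904) (l 16604080)))))))), by decide +kernel⟩

def k5_pm_022_a : ∃ t, chk3 f_pm_022_a t 5 2 1 = true :=
  ⟨(a (b (a (a (l 1) (b (b (l 16309168) (l 16309592)) (b (l 16314440) (a (l 16322264) (l 16325264))))) (b (a (l 16317168) (l 16323568)) (a (l 16367272) (l 16330624)))) (a (a (a (b (l 1) (b (b (l 16363808) (l 16375376)) (b (l 16388072) (l 16401872)))) (b (b (l 16354920) (l 16372040)) (b (b (l 16365768) (l 16377096)) (b (l 16389520) (l 16403000))))) (a (b (b (b (l 16332264) (l 16340304)) (b (l 16348672) (l 16357648))) (b (l 16394328) (l 16418712))) (a (b (b (l 16338000) (l 16354808)) (b (l 16374816) (l 16398960))) (b (a (b (l 16338816) (l 16355592)) (b (b (l 16335616) (b (l 16341200) (l 16366000))) (c (l 16384888) (l 16348392)))) (a (b (l 16375680) (l 16399832)) (b (l 16376288) (l 16400480))))))) (b (a (b (l 16341800) (l 16358088)) (b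 (l 16345736) (l 16361040))) (b (a (l 16377536) (l 16379320)) (a (l 16400968) (l 16401256)))))) (b (a (b (a (l 16329728) (l 16335648)) (a (l 16335704) (l 16340568))) (b (a (l 16340880) (l 16346112)) (a (l 16344968) (l 16349616)))) (a (b (a (l 16356640) (b (l 16353032) (l 16365992))) (a (l 16433168) (l 16392008))) (b (a (l 16425464) (l 16387120)) (b (l 16447944) (l 16402928)))))), by decide +kernel⟩

def k6_pm_022_a : ∃ t, chk3 f_pm_022_a t 5 6 1 = true :=
  ⟨(a (a (a (b (b (a (b (l 16416736) (l 16432640)) (b (l 16417520) (l 16433040))) (b (a (l 16449200) (l 16449184)) (a (l 16466312) (l 16465864)))) (b (a (l 16493768) (l 16492584)) (b (l 16521576) (l 16541400)))) (b (a (b (l 16468112) (b (l 16449472) (l 16465768))) (b (a (l 16427056) (a (l 16427888) (l 16428536))) (a (l 16458168) (a (l 16458912) (b (l 16451448) (l 16467440)))))) (a (b (l 16491840) (l 16528648)) (a (b (l 16491776) (l 16527880)) (b (a (l 16492384) (l 16492960)) (a (l 16528312) (l 16528800))))))) (b (b (a (l 16428104) (l 16426624))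 (a (b (l 16450240) (l 16465688)) (l 16454512))) (b (a (l 16490192) (l 16484688)) (a (l 16524840) (l 16517296))))) (b (a (b (a (l 16424944) (l 16423656)) (a (l 16451264) (l 16448760))) (b (l 16424152) (l 16532608))) (a (b (a (l 16479792) (l 16476392)) (l 16527896)) (b (l 16390992) (l 16503008))))), by decide +kernel⟩

def k7_pm_022_a : ∃ t, chk3 f_pm_022_a t 5 7 1 = true :=
  ⟨(a (a (b (a (b (b (l 16561744) (l 16580056)) (l 16603824)) (a (b (l 16566304) (l 16598136)) (a (b (l 16564952) (l 16596608)) (b (a (l 16565144) (l 16565552)) (l 16590864))))) (a (a (b (l 16573976) (b (l 16607192) (b (l 16601136) (a (l 16599024) (l 16593696))))) (b (l 16593736) (b (l 16597056) (b (l 16590360) (a (l 16588096) (l 16582176)))))) (b (a (b (l 16599320) (l 16593448)) (a (l 16587752) (a (l 16582128) (l 16536104)))) (b (a (l 16585576) (a (l 16575672) (a (l 16569408) (l 16564856)))) (a (b (l 16578160) (a (b (l 16577344) (l 16574368)) (b (l 16570624) (l 16567488)))) (a (b (l 16567656) (a (l 16563576) (l 16559512)))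 (a (b (l 16561016) (l 16554632)) (a (b (l 16556800) (b (l 16551968) (a (a (l 16549688) (l 16548336)) (l 16547248)))) (l 16551416))))))))) (b (b (l 16606192) (l 16615048)) (b (b (l 16564112) (a (l 16563968) (l 16546760))) (b (a (l 16553816) (l 16535456)) (a (b (l 16544776) (a (l 16542672) (l 16533104))) (b (l 16525880) (a (l 16523608) (l 16514200)))))))) (b (b (a (l 16562152) (l 16527288)) (a (a (l 16551032) (l 16535424)) (a (l 16519272) (l 16504000)))) (b (a (a (l 16565688) (b (l 16522264) (l 16511840))) (a (b (l 16505912) (l 16495184)) (b (l 16490136) (l 16479016)))) (a (b (a (l 16517392) (l 16541728)) (a (b (l 16507496) (a (l 16504912) (l 16495752))) (a (b (l 16494032) (l 16486760)) (c (l 16489712) (l 16473096))))) (b (a (l 16503760) (l 16487272)) (c (a (b (l 16481064) (l 16474384)) (a (l 16465920) (l 16458080))) (a (b (l 16463136) (l 16454864)) (b (l 16444944) (l 16436416))))))))), by decide +kernel⟩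

def k8_pm_022_a : ∃ t, chk3 f_pm_022_a t 3 2 1 = true :=
  ⟨(a (a (b (a (b (a (l 16352048) (l 16359504)) (a (l 16355064) (l 16362256))) (b (a (l 16368904) (l 16380536)) (a (l 16371656) (l 16382720)))) (b (c (a (a (l 16372264) (l 16377680)) (a (l 16385120) (l 16393976))) (a (l 16374496) (l 16395288))) (a (a (l 16463024) (b (l 16397576) (l 16414616))) (b (a (l 16405488) (l 16414344)) (l 16425400))))) (b (a (b (l 16462512) (c (l 16396624) (l 16406104))) (b (l 16445576) (l 16486816))) (b (a (c (l 16407560) (l 16419016)) (c (l 16425520) (l 16440512))) (a (c (b (l 16420800) (l 16432464)) (l 16440856)) (c (b (l 16435152) (l 16442920)) (l 16457056)))))) (a (b (a (c (l 16557144) (l 16371912)) (c (l 16506616) (l 16478856))) (a (b (c (l 16443576) (l 16460312)) (c (l 16451792) (l 16471072))) (c (a (l 16465680) (l 16467328)) (l 16481344)))) (a (b (c (l 16528400) (l 16499016)) (b (l 16485184) (l 16480168))) (b (c (l 16504904) (l 16514016)) (b (l 16496312) (l 16484112)))))), by decide +kernel⟩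

def k9_pm_022_a : ∃ t, chk3 f_pm_022_a t 6 6 1 = true :=
  ⟨(a (b (a (b (l 16473320) (a (l 16451904) (l 16455520))) (b (l 16442384) (l 16460056))) (a (b (l 16476856) (l 16499800)) (b (l 16477944) (l 16494288)))) (a (b (c (l 16451264) (l 16468000)) (b (l 16477224) (l 16475104))) (b (c (l 16455896) (l 16475920)) (b (l 16474912) (l 16454968))))), by decide +kernel⟩

def k10_pm_022_a : ∃ t, chk3 f_pm_022_a t 6 7 1 = true :=
  ⟨(a (b (b (a (b (l 16504448) (l 16493928)) (b (l 16478848) (l 16467616))) (a (a (l 16489304) (l 16475040)) (c (l 16462440) (l 16445488)))) (b (a (a (b (l 16474840) (l 16463352)) (b (l 16460024) (l 16448024))) (a (b (l 16445552) (l 16433096)) (b (l 16431560) (l 16418792)))) (a (b (a (l 16492080) (c (l 16445160) (l 16422496))) (a (a (c (l 16450288) (l 16427288)) (b (l 16435000) (a (l 16429048) (l 16445912)))) (c (b (l 16434832) (a (l 16431208) (l 16423688))) (b (l 16409968) (a (l 16405392) (l 16396776)))))) (b (a (c (l 16430840) (l 16406016)) (c (l 16417072) (l 16390448)))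 (b (a (c (l 16420288) (l 16393336)) (c (l 16406392) (l 16377728))) (c (a (a (l 16416328) (l 16409168)) (a (l 16402200) (l 16395440))) (a (c (l 16391912) (l 16376376)) (c (l 16376832) (l 16360288))))))))) (b (b (a (c (l 16456448) (l 16440576)) (c (l 16435720) (l 16417848))) (a (c (l 16438232) (l 16417968)) (c (l 16437392) (l 16394432)))) (b (a (c (b (l 16423000) (l 16411048)) (b (l 16399360) (l 16385008))) (c (b (l 16400408) (l 16388240)) (b (l 16375280) (l 16360952)))) (a (b (c (a (l 16404056) (l 16391816)) (a (l 16376072) (l 16362904))) (a (c (b (l 16393304) (a (l 16388888) (l 16382528))) (b (l 16363384) (c (l 16362896) (l 16345576)))) (c (b (l 16381040) (a (l 16376400) (l 16370408))) (b (l 16350304) (c (l 16350104) (l 16332232)))))) (b (c (a (l 16380312) (l 16369296)) (a (l 16350912) (l 16339760))) (c (a (b (l 16369376) (l 16382624)) (b (l 16358136) (l 16350208))) (a (b (l 16338216) (c (l 16338160) (l 16319944))) (c (l 16331176) (l 16313064))))))))), by decide +kernel⟩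

def k11_pm_022_a : ∃ t, chk3 f_pm_022_a t 7 3 1 = true :=
  ⟨(b (c (a (a (b (l 16459672) (l 16454048)) (b (l 16460984) (l 16439400))) (b (a (l 16459320) (l 16455016)) (a (l 16426448) (l 16415864)))) (a (b (a (l 16480376) (l 16470376)) (a (l 16442856) (l 16428848))) (b (a (l 16462256) (l 16456808)) (a (l 16417856) (l 16409848))))) (a (b (a (b (c (l 16417176) (l 16398816)) (c (l 16396776) (l 16374568))) (b (c (l 16400600) (l 16383224)) (c (l 16379080) (l 16357968)))) (b (a (c (b (l 16380168) (l 16367472)) (b (l 16355112) (l 16340384))) (c (b (l 16361592) (l 16348336)) (b (l 16337672) (l 16322440)))) (a (b (c (a (l 16358592) (l 16348280)) (a (l 16329208) (l 16319296))) (c (a (b (l 16347200) (l 16339120)) (a (l 16335192) (l 16330008))) (a (c (l 16320360) (l 16302200)) (c (l 16310152) (l 16292056))))) (c (c (b (l 16338984) (a (l 16328448) (l 16318624))) (b (l 16327760) (a (l 16315848) (l 16306584)))) (b (a (l 16310080) (l 16301616)) (a (c (l 16300592) (l 16282688)) (c (l 16291760) (l 16274152))))))))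 (b (a (b (c (l 16385928) (l 16370432)) (c (l 16363392) (l 16344184))) (c (b (l 16373928) (l 16350512)) (b (l 16360856) (l 16333784)))) (b (a (c (b (l 16345192) (l 16331488)) (b (l 16323208) (l 16307536))) (c (b (l 16331784) (l 16317752)) (b (l 16312328) (l 16296440)))) (a (c (b (a (l 16320496) (l 16312624)) (a (b (l 16308368) (l 16299808)) (b (l 16300392) (l 16291784)))) (b (a (l 16293984) (l 16287264)) (a (b (l 16280272) (l 16270640)) (b (l 16273496) (l 16263816))))) (c (b (l 16323440) (a (b (l 16293320) (l 16284664)) (b (l 16287128) (l 16278424)))) (b (l 16279200) (a (l 16262992) (l 16258424))))))))), by decide +kernel⟩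

theorem s12_pm_022_a : ∃ t, chk3 f_pm_022_a t 6 3 1 = true := ex3_b k9_pm_022_a k10_pm_022_a

theorem s13_pm_022_a : ∃ t, chk3 f_pm_022_a t 3 3 1 = true := ex3_a s12_pm_022_a k11_pm_022_a

theorem s14_pm_022_a : ∃ t, chk3 f_pm_022_a t 3 1 1 = true := ex3_b k8_pm_022_a s13_pm_022_a

theorem s15_pm_022_a : ∃ t, chk3 f_pm_022_a t 5 3 1 = true := ex3_b k6_pm_022_a k7_pm_022_a

theorem s16_pm_022_a : ∃ t, chk3 f_pm_022_a t 5 1 1 = true := ex3_b k5_pm_022_a s15_pm_022_a

theorem s17_pm_022_a : ∃ t, chk3 f_pm_022_a t 9 7 1 = true := ex3_b k3_pm_022_a k4_pm_022_a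

theorem s18_pm_022_a : ∃ t, chk3 f_pm_022_a t 9 3 1 = true := ex3_b k2_pm_022_a s17_pm_022_a

theorem s19_pm_022_a : ∃ t, chk3 f_pm_022_a t 9 1 1 = true := ex3_b k1_pm_022_a s18_pm_022_a

theorem s20_pm_022_a : ∃ t, chk3 f_pm_022_a t 4 1 1 = true := ex3_a k0_pm_022_a s19_pm_022_a

theorem s21_pm_022_a : ∃ t, chk3 f_pm_022_a t 2 1 1 = true := ex3_a s20_pm_022_a s16_pm_022_a

theorem s22_pm_022_a : ∃ t, chk3 f_pm_022_a t 1 1 1 = true := ex3_a s21_pm_022_a s14_pm_022_a

theorem c_pm_022_a : CertB 0 536870912 0 536870912 780900216 37827925 3 eng mog cd0q0 cd2q2a pd2 true true false .pp 0 2 2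
    ndB0q0 ndB2q2a pcB2 cut_pm_022_a Ext.none :=
  certB2 (fam := true) (s1 := true) (s2 := false) (a := 0) (b := 2) (c := 2) (cn := .pp) (n1 := ndB0q0) (n2 := ndB2q2a) (pc := pcB2) (cut := cut_pm_022_a) (xt := Ext.none) (P1 := 0) (W1 := 536870912) (P2 := 0) (W2 := 536870912) (P3 := 780900216) (W3 := 37827925) (N0 := 3) (En := eng) (mo := mog) (C1 := cd0q0) (C2 := cd2q2a) (C3 := pd2)
    rfl (fun _ => rfl) s22_pm_022_a

noncomputable def cut_pm_022_b : Cut := Cut.of [[⟨0, 0, 0, 67108864⟩, ⟨1, 1, 0, 67108864⟩, ⟨2, 1, 0, 67108864⟩]]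

noncomputable def f_pm_022_b : ℕ → ℕ → ℕ → ℕ → Bool := onCell 0 536870912 1239849684 370763052 780900216 37827925
    (rowB 3 eng mog cd0q0 cd2q2b pd2 0 true true false .pp 0 2 2 (qsf 0 536870912 1239849684 370763052 2) ndB0q0 ndB2q2b pcB2 cut_pm_022_b Ext.none)

def k0_pm_022_b : ∃ t, chk3 f_pm_022_b t 2 2 1 = true :=
  ⟨(a (b (a (b (a (b (a (b (l 16301072) (l 16268768)) (l 16292944)) (a (b (l 16237600) (l 16249512)) (c (l 16239320) (l 16227712)))) (b (c (a (l 16306584) (l 16313080)) (a (l 16295296) (l 16303568))) (a (c (l 16248688) (l 16238896)) (l 16274136)))) (a (b (a (c (l 16170632) (l 16158728)) (l 16219376)) (a (c (l 16115864) (l 16105408)) (c (l 16130688) (l 16121880)))) (c (b (l 16200312) (l 16152168)) (b (l 16193168) (l 16145800))))) (b (a (c (b (a (l 16318808) (l 16324352)) (l 16311800)) (b (l 16315528) (l 16265432))) (c (b (a (l 16330576) (l 16338176)) (l 16287944)) (b (l 16332808) (l 16287560)))) (a (c (b (l 16222592) (l 16179712)) (l 16323072)) (c (b (l 16246024) (l 16208352))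 (l 16226016))))) (a (b (a (b (a (c (l 16065696) (l 16055992)) (l 16141088)) (c (a (l 16020224) (l 16040232)) (l 16021096))) (c (b (l 16108536) (l 16069456)) (l 16186544))) (a (c (a (b (l 15979416) (l 15943304)) (l 15984560)) (b (l 15980408) (l 15943200))) (c (b (l 16034864) (l 16004624)) (l 16008192)))) (b (a (c (l 16123680) (l 16118336)) (c (l 16159680) (l 16155192))) (a (c (l 16063808) (l 16052528)) (c (l 16108664) (l 16096848)))))) (b (c (a (b (a (b (l 16374312) (l 16312688)) (b (l 16379232) (l 16344080))) (a (l 16280288) (l 16298384))) (b (a (l 16474560) (l 16419784)) (a (l 16337904) (l 16376768)))) (a (a (b (b (l 16356712) (l 16316016)) (l 16260848)) (b (l 16431064) (l 16301608))) (b (a (l 16389408) (l 16430064)) (l 16560688)))) (a (b (a (c (l 16201832) (l 16197976)) (l 16268360)) (a (l 16151936) (l 16208216))) (b (a (l 16295768) (l 16342840)) (a (l 16264024) (l 2)))))), by decide +kernel⟩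

def k1_pm_022_b : ∃ t, chk3 f_pm_022_b t 2 3 1 = true :=
  ⟨(a (b (a (b (a (c (b (l 15925408) (l 15899312)) (b (l 15909408) (l 15878936))) (c (l 15967112) (l 15947864))) (a (c (b (l 15877352) (l 15859336)) (l 15839304)) (c (l 15930752) (l 15900080)))) (b (a (c (l 16019936) (l 15999280)) (l 16060120)) (a (l 15972696) (l 16031280)))) (a (b (a (c (l 15839216) (l 15797248)) (l 15884400)) (a (l 15793128) (l 15866864))) (b (a (l 15949496) (l 2)) (l 2)))) (b (a (b (a (l 16117680) (l 16180784)) (a (l 16095080) (l 2))) (l 2)) (l 2))), by decide +kernel⟩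

def k2_pm_022_b : ∃ t, chk3 f_pm_022_b t 3 1 1 = true :=
  ⟨(b (a (b (a (b (a (c (l 16449448) (l 16459544)) (c (l 16478408) (l 16486944))) (c (l 16540088) (l 16437224))) (b (c (a (l 16504120) (l 16527176)) (l 16519536)) (l 2))) (a (b (a (l 16389664) (l 2)) (l 2)) (l 2))) (l 2)) (l 2)), by decide +kernel⟩

theorem s3_pm_022_b : ∃ t, chk3 f_pm_022_b t 2 1 1 = true := ex3_b k0_pm_022_b k1_pm_022_b

theorem s4_pm_022_b : ∃ t, chk3 f_pm_022_b t 1 1 1 = true := ex3_a s3_pm_022_b k2_pm_022_b

theorem c_pm_022_b : CertB 0 536870912 1239849684 370763052 780900216 37827925 3 eng mog cd0q0 cd2q2b pd2 true true false .pp 0 2 2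
    ndB0q0 ndB2q2b pcB2 cut_pm_022_b Ext.none :=
  certB0 (fam := true) (s1 := true) (s2 := false) (a := 0) (b := 2) (c := 2) (cn := .pp) (n1 := ndB0q0) (n2 := ndB2q2b) (pc := pcB2) (cut := cut_pm_022_b) (xt := Ext.none) (P1 := 0) (W1 := 536870912) (P2 := 1239849684) (W2 := 370763052) (P3 := 780900216) (W3 := 37827925) (N0 := 3) (En := eng) (mo := mog) (C1 := cd0q0) (C2 := cd2q2b) (C3 := pd2)
    rfl s4_pm_022_b

noncomputable def f_pm_023_a : ℕ → ℕ → ℕ → ℕ → Bool := onCell 1610612736 536870912 0 536870912 780900216 37827925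
    (rowB 3 eng mog cd0q0 cd2q2a pd3 2 true true false .up 0 2 3 (qsf 0 536870912 0 536870912 3) ndB0q0 ndB2q2a pcB3 Cut.none Ext.none)

def k0_pm_023_a : ∃ t, chk3 f_pm_023_a t 1 1 1 = true :=
  ⟨(a (a (b (a (b (a (c (l 16511112) (l 16521224)) (c (l 16534672) (l 16533416))) (a (c (b (l 16496848) (l 16481480)) (l 16495984)) (c (l 16500392) (l 16500488)))) (b (a (l 16544768) (l 16559264)) (a (b (l 16518408) (l 16496288)) (l 16522328)))) (b (a (b (a (c (l 16449600) (l 16454568)) (c (l 16450016) (l 16455824))) (a (c (l 16408680) (b (l 16419240) (l 16388304))) (c (l 16407688) (l 16404088)))) (b (a (c (l 16457440) (l 16461520)) (l 16471552)) (a (b (l 16426792) (l 16397416)) (l 307190479895)))) (a (b (a (c (b (l 16365824) (l 16342224)) (b (l 16352952) (l 16325168))) (b (c (l 16364128) (l 16352848)) (c (l 16340640) (l 16325448)))) (b (a (c (b (l 16323896) (l 16310328)) (b (l 16303776) (l 16288240))) (c (l 329738605783) (l 336180996983))) (a (a (b (c (l 16296840) (l 16272136)) (b (c (l 16285152) (l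 16258952)) (a (c (l 16277616) (l 16250072)) (l 2)))) (b (l 335107190375) (l 2))) (l 2)))) (b (a (b (l 16364488) (l 2)) (l 2)) (l 2))))) (b (a (b (a (l 16579344) (l 16598608)) (a (l 16537760) (l 2))) (l 2)) (b (l 2) (l 2)))) (l 2)), by decide +kernel⟩

theorem c_pm_023_a : CertB 0 536870912 0 536870912 780900216 37827925 3 eng mog cd0q0 cd2q2a pd3 true true false .up 0 2 3
    ndB0q0 ndB2q2a pcB3 Cut.none Ext.none :=
  certB2 (fam := true) (s1 := true) (s2 := false) (a := 0) (b := 2) (c := 3) (cn := .up) (n1 := ndB0q0) (n2 := ndB2q2a) (pc := pcB3) (cut := Cut.none) (xt := Ext.none) (P1 := 0) (W1 := 536870912) (P2 := 0) (W2 := 536870912) (P3 := 780900216) (W3 := 37827925) (N0 := 3) (En := eng) (mo := mog) (C1 := cd0q0) (C2 := cd2q2a) (C3 := pd3)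
    rfl (fun _ => rfl) k0_pm_023_a

noncomputable def f_pm_023_b : ℕ → ℕ → ℕ → ℕ → Bool := onCell 1610612736 536870912 1239849684 370763052 780900216 37827925
    (rowB 3 eng mog cd0q0 cd2q2b pd3 2 true true false .up 0 2 3 (qsf 0 536870912 1239849684 370763052 3) ndB0q0 ndB2q2b pcB3 Cut.none Ext.none)

def k0_pm_023_b : ∃ t, chk3 f_pm_023_b t 1 1 1 = true :=
  ⟨(a (a (b (b (a (b (a (c (l 16497376) (l 16506824)) (b (l 16540248) (l 16520656))) (a (c (l 16435040) (l 16439672)) (l 16479376))) (b (a (c (l 16557312) (l 16550464)) (b (l 16570992) (l 16569712))) (a (l 16515800) (l 16546736)))) (a (b (a (l 16354032) (l 16407840)) (a (l 16259328) (l 16321992))) (b (a (l 16455648) (l 16497848)) (a (l 16378984) (l 16431096))))) (b (a (b (a (l 16154336) (l 16224360)) (a (l 16049512) (l 16118992))) (b (a (l 16289664) (l 16351416)) (l 16393736))) (a (b (a (l 15947264) (l 16018032)) (a (l 15843168) (l 15914992))) (b (a (l 16086320) (l 16158968)) (a (l 15985160) (l 16057512)))))) (b (a (b (b (a (l 16581584)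 (l 16605120)) (a (l 16576136) (l 16602296))) (b (a (l 16534864) (l 16571472)) (a (l 16479432) (l 16522560)))) (b (b (a (l 16627616) (l 2)) (a (l 16626208) (l 16650120))) (b (l 16494560) (l 16496528)))) (b (a (b (l 16433672) (l 16421600)) (b (l 16530696) (l 16468384))) (a (b (l 16269136) (l 16273928)) (b (l 16400880) (l 16325536)))))) (b (b (l 2) (a (a (b (l 16673488) (l 16642728)) (a (l 208943546343) (l 2))) (l 2))) (a (a (b (b (l 16605464) (l 16665168)) (a (l 16457256) (l 16513000))) (b (a (l 16624584) (l 16638032)) (a (b (l 16573672) (l 4)) (l 4)))) (l 4)))), by decide +kernel⟩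

theorem c_pm_023_b : CertB 0 536870912 1239849684 370763052 780900216 37827925 3 eng mog cd0q0 cd2q2b pd3 true true false .up 0 2 3
    ndB0q0 ndB2q2b pcB3 Cut.none Ext.none :=
  certB2 (fam := true) (s1 := true) (s2 := false) (a := 0) (b := 2) (c := 3) (cn := .up) (n1 := ndB0q0) (n2 := ndB2q2b) (pc := pcB3) (cut := Cut.none) (xt := Ext.none) (P1 := 0) (W1 := 536870912) (P2 := 1239849684) (W2 := 370763052) (P3 := 780900216) (W3 := 37827925) (N0 := 3) (En := eng) (mo := mog) (C1 := cd0q0) (C2 := cd2q2b) (C3 := pd3)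
    rfl (fun _ => rfl) k0_pm_023_b

noncomputable def f_pm_033 : ℕ → ℕ → ℕ → ℕ → Bool := onCell 1610612736 536870912 1610612736 536870912 780900216 37827925
    (rowB 3 eng mog cd0q0 cd2q3 pd3 2 true true false .pnn 0 3 3 (qsf 0 536870912 1610612736 536870912 3) ndB0q0 ndB2q3 pcB3 Cut.none Ext.none)

def k0_pm_033 : ∃ t, chk3 f_pm_033 t 1 1 1 = true :=
  ⟨(a (b (a (b (a (b (a (l 15693312) (l 15762600)) (a (l 1) (l 15590808))) (b (a (l 15827024) (l 15889672)) (l 61235149639))) (a (l 1) (b (l 321617238759) (l 1)))) (b (a (b (a (l 15957112) (l 16023640)) (l 16036560)) (b (a (l 16097632) (l 16179872)) (a (l 15965216) (l 16046648)))) (a (b (l 15702680) (l 15543944)) (b (l 15880592) (l 15757432))))) (a (l 1) (b (a (l 1) (b (l 15621624) (l 1))) (l 1)))) (a (b (a (b (b (a (l 16261712) (l 16340672)) (a (l 16137832) (l 4))) (a (b (l 16029888) (l 4)) (l 4))) (l 4)) (l 4)) (l 4))), by decide +kernel⟩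

theorem c_pm_033 : CertB 0 536870912 1610612736 536870912 780900216 37827925 3 eng mog cd0q0 cd2q3 pd3 true true false .pnn 0 3 3
    ndB0q0 ndB2q3 pcB3 Cut.none Ext.none :=
  certB2 (fam := true) (s1 := true) (s2 := false) (a := 0) (b := 3) (c := 3) (cn := .pnn) (n1 := ndB0q0) (n2 := ndB2q3) (pc := pcB3) (cut := Cut.none) (xt := Ext.none) (P1 := 0) (W1 := 536870912) (P2 := 1610612736) (W2 := 536870912) (P3 := 780900216) (W3 := 37827925) (N0 := 3) (En := eng) (mo := mog) (C1 := cd0q0) (C2 := cd2q3) (C3 := pd3)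
    rfl (fun _ => rfl) k0_pm_033

noncomputable def cut_pm_101 : Cut := Cut.of [[⟨0, 1, 0, 67108864⟩, ⟨1, 0, 0, 67108864⟩, ⟨2, 1, 0, 67108864⟩]]

noncomputable def f_pm_101 : ℕ → ℕ → ℕ → ℕ → Bool := onCell 536870912 536870912 0 536870912 780900216 37827925
    (rowB 3 eng mog cd0q1 cd2q0 pd1 2 true true false .npn 1 0 1 (qsf 536870912 536870912 0 536870912 1) ndB0q1 ndB2q0 pcB1 cut_pm_101 Ext.none)

def k0_pm_101 : ∃ t, chk3 f_pm_101 t 1 1 1 = true :=
  ⟨(a (l 3) (b (a (l 3) (b (a (l 3) (b (a (l 3) (a (l 3) (b (l 6) (l 3)))) (l 3))) (l 3))) (l 3))), by decide +kernel⟩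

theorem c_pm_101 : CertB 536870912 536870912 0 536870912 780900216 37827925 3 eng mog cd0q1 cd2q0 pd1 true true false .npn 1 0 1
    ndB0q1 ndB2q0 pcB1 cut_pm_101 Ext.none :=
  certB2 (fam := true) (s1 := true) (s2 := false) (a := 1) (b := 0) (c := 1) (cn := .npn) (n1 := ndB0q1) (n2 := ndB2q0) (pc := pcB1) (cut := cut_pm_101) (xt := Ext.none) (P1 := 536870912) (W1 := 536870912) (P2 := 0) (W2 := 536870912) (P3 := 780900216) (W3 := 37827925) (N0 := 3) (En := eng) (mo := mog) (C1 := cd0q1) (C2 := cd2q0) (C3 := pd1)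
    rfl (fun _ => rfl) k0_pm_101

end Pool.Agent.Strip051.G.I72727_7625.Tab.C.BA02

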