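import Pool.Agent.Strip051.G.I72727_7625.Tab
import Pool.Agent.Strip051.PB.ExtD2

/-! # Certificates B4 (generated) -/

set_option linter.all false
set_option maxRecDepth 100000

namespace Pool.Agent.Strip051.G.I72727_7625.Tab.C.BA02

open Pool.Agent.Strip051.PB Pool.Agent.Strip051.PB.T
open Pool.Agent.Strip051.G.I72727_7625.Tab

noncomputable def cut_pm_102 : Cut := Cut.of [[⟨0, 1, 0, 67108864⟩, ⟨1, 0, 0, 67108864⟩, ⟨2, 1, 0, 67108864⟩]]

noncomputable def f_pm_102 : ℕ → ℕ → ℕ → ℕ → Bool := onCell 536870912 536870912 1073741824 536870912 780900216 37827925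
    (rowB 3 eng mog cd0q1 cd2q0 pd2 1 true true false .npp 1 0 2 (qsf 536870912 536870912 0 536870912 2) ndB0q1 ndB2q0 pcB2 cut_pm_102 Ext.none)

def k0_pm_102 : ∃ t, chk3 f_pm_102 t 2 4 1 = true :=
  ⟨(b (l 3) (a (b (l 3) (a (l 2) (b (a (b (l 3) (l 2)) (b (l 16515320) (l 16516232))) (b (a (l 2) (l 16522560)) (l 39828694375))))) (b (a (b (l 3) (a (l 56001907303) (l 46875132455))) (b (b (l 3) (a (l 362018396167) (b (a (l 3) (l 16565088)) (l 16555448)))) (a (b (l 16528280) (l 16526000)) (b (a (l 16541912) (l 16557424)) (l 16541616))))) (a (b (b (a (l 16511664) (l 16515448)) (a (l 16514112) (l 16515984))) (a (b (l 16517808) (l 16521496)) (l 16518080))) (b (a (b (l 16521536) (l 16520944)) (l 16533016)) (a (l 16515920) (l 16516064))))))), by decide +kernel⟩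

def k1_pm_102 : ∃ t, chk3 f_pm_102 t 6 4 1 = true :=
  ⟨(b (b (l 3) (a (b (l 3) (a (l 3) (b (l 3) (b (a (l 3) (a (l 301352152007) (a (l 266992400887) (l 233706403927)))) (a (b (l 307794568535) (l 16652640)) (l 16662440)))))) (b (a (l 3) (b (a (l 3) (b (l 3) (a (l 3) (b (l 3) (l 365776778295))))) (a (b (a (l 3) (b (l 3) (l 341617600551))) (a (b (l 3) (l 284709259719)) (b (l 302426015831) (l 16729144)))) (b (a (b (l 353965646055) (l 246591456567)) (b (l 241222762439) (l 16743960))) (a (l 16734304) (l 16736904)))))) (a (b (a (b (l 3) (a (b (l 3) (l 287393508903)) (b (l 283635426327) (l 16696944)))) (b (a (b (l 3) (l 278803601943)) (b (l 268066252407) (l 16713568))) (a (l 16683432) (l 16706376)))) (a (b (a (l 16669592) (l 16689656)) (b (l 16680144) (l 16653832))) (b (b (l 16676520) (l 16670840)) (l 16661144)))) (b (a (b (a (l 16719064) (l 16722128)) (a (l 16709376) (l 16710856))) (b (a (l 16724192) (l 16724808)) (l 16711400))) (a (b (l 16697232) (l 16683952)) (l 16691376))))))) (b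 (a (b (b (a (b (a (l 3) (l 16629256)) (b (l 16607792) (l 16603960))) (b (a (l 16645264) (l 16637592)) (a (l 16637160) (l 16628432)))) (a (b (a (l 16586728) (l 16612712)) (a (l 16582080) (l 16605456))) (b (b (l 16636424) (l 16631816)) (l 16625192)))) (a (b (a (l 16574264) (l 16592760)) (l 16569808)) (b (l 16612752) (l 16598120)))) (b (a (a (b (b (l 16645688) (l 16656960)) (l 16643320)) (b (l 16644832) (l 16648752))) (b (a (l 16647680) (l 16669800)) (l 16630912))) (a (b (l 16629616) (l 16613680)) (l 16627384)))) (a (b (a (b (l 16557088) (l 16545416)) (b (l 16583872) (l 16568664))) (a (l 16532696) (l 16556712))) (a (b (l 16589688) (l 16588952)) (b (l 16588616) (l 16608680)))))), by decide +kernel⟩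

def k2_pm_102 : ∃ t, chk3 f_pm_102 t 14 8 1 = true :=
  ⟨(b (a (b (l 3) (b (l 3) (a (l 3) (b (l 3) (a (l 3) (b (l 3) (a (l 298131109815) (l 279877495303)))))))) (b (l 3) (b (a (l 3) (b (l 3) (a (a (l 3) (b (l 3) (a (l 295446755319) (l 282561858055)))) (b (b (a (l 3) (l 291688662503)) (a (l 295983628615) (l 274508792055))) (a (a (l 274508792215) (l 264308241063)) (l 16764608)))))) (a (b (a (b (l 3) (a (l 3) (l 303499818119))) (b (a (l 3) (l 296520495431)) (a (l 282024986231) (l 239075305335)))) (a (b (a (l 290078048407) (l 231022242423)) (l 16759368)) (b (a (l 16760344) (l 16758752)) (l 16755472)))) (b (a (b (a (c (l 272361316583) (l 277193145319)) (l 16763008)) (a (l 16760728) (l 16759464))) (b (a (l 16762072) (l 16760608)) (a (l 16757552) (l 16755440)))) (a (b (a (l 16756880) (l 16754584)) (l 16750352)) (l 16748224))))))) (b (a (b (a (b (b (l 3) (a (l 3) (l 326048348631))) (a (b (l 317995284855) (l 16734520)) (b (l 16757576) (l 16753664)))) (b (a (b (l 319605896951) (l 16758504))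 (b (l 16759072) (l 16755520))) (a (b (l 16754744) (l 16750856)) (b (l 16751096) (l 16745864))))) (a (b (a (b (l 16750816) (l 16746432)) (l 16747480)) (a (l 16737728) (l 16736352))) (b (a (l 16742856) (l 16737288)) (l 16728680)))) (b (a (b (a (b (l 16755720) (l 16750896)) (b (l 16750408) (l 16744896))) (l 16739352)) (b (a (l 16741944) (l 16737176)) (l 16728320))) (a (b (l 16728056) (l 16716952)) (l 16691048)))) (a (b (a (l 16696384) (l 16711400)) (a (l 16691104) (l 16687984))) (a (b (l 16700376) (l 16680144)) (l 16683424))))), by decide +kernel⟩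

def k3_pm_102 : ∃ t, chk3 f_pm_102 t 15 8 1 = true :=
  ⟨(b (a (b (b (l 3) (a (b (l 3) (a (l 3) (b (l 3) (b (l 3) (a (l 3) (a (l 3) (l 289541192391))))))) (b (l 6) (a (b (l 6) (b (l 6) (a (a (l 16774352) (l 6)) (l 6)))) (l 6))))) (a (b (b (a (b (l 3) (b (a (l 3) (l 285246220295)) (a (l 287393701447) (l 16769224)))) (b (b (a (a (l 3) (l 297057382231)) (l 269140096999)) (a (l 283098738807) (l 16771400))) (b (a (l 16770296) (l 16769672)) (a (l 16768688) (l 16767376))))) (a (b (b (a (l 269676955287) (l 16767536)) (a (l 16766456) (l 16765752))) (a (l 16763672) (l 16762024))) (a (b (a (l 16765784) (l 16764936)) (l 16760096)) (l 16760776)))) (b (a (b (a (l 16758760) (l 16756672)) (l 16752208)) (b (l 16753640) (l 16748248))) (a (l 16743984) (l 16740136)))) (b (b (a (b (a (b (l 16772512) (l 16770488)) (l 6)) (a (l 16750312) (l 16764632))) (l 6)) (a (b (l 16760352) (l 16755040)) (l 16742808))) (a (b (l 16747032) (l 16736504)) (l 16737904))))) (b (l 6) (a (b (l 6) (a (l 16737896) (l 6)))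 (l 6)))) (a (b (a (b (b (l 16710296) (l 16720648)) (l 16706368)) (b (l 16721848) (l 16710656))) (a (l 16691600) (l 16684256))) (a (b (b (l 16717184) (l 16698520)) (b (l 16679816) (l 16661128))) (b (a (b (l 6) (l 16686456)) (l 6)) (a (l 16657848) (l 16648456)))))), by decide +kernel⟩

def k4_pm_102 : ∃ t, chk3 f_pm_102 t 7 9 1 = true :=
  ⟨(a (a (b (b (a (l 16661616) (l 16661712)) (l 16640352)) (b (l 16632544) (l 16608928))) (b (b (a (l 16662392) (l 16672400)) (l 16694544)) (b (a (l 16626944) (l 16617992)) (l 16592200)))) (a (b (b (a (l 16664736) (l 16652944)) (a (l 16637696) (l 16624080))) (b (a (l 16607160) (l 16593112)) (l 16591216))) (b (a (b (l 16637800) (l 16607704)) (b (b (l 16626848) (l 16611856)) (l 16588152))) (b (a (l 16575624) (l 16554904)) (a (l 16547064) (l 16525928)))))), by decide +kernel⟩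

def k5_pm_102 : ∃ t, chk3 f_pm_102 t 1 5 1 = true :=
  ⟨(a (b (a (b (b (a (l 2) (b (l 16577696) (l 2))) (l 2)) (l 2)) (b (a (b (a (l 16541208) (l 16541680)) (b (l 16549576) (l 16537328))) (b (a (l 16544360) (l 16548216)) (b (l 16544384) (b (l 16538072) (l 16529296))))) (a (l 16534536) (l 16569816)))) (a (l 2) (a (a (l 2) (l 16531336)) (a (l 16522800) (l 16516048))))) (a (b (b (a (b (l 16542360) (b (l 16558232) (b (l 16551080) (l 16647576)))) (b (a (l 16585840) (l 16590600)) (b (l 16573552) (a (l 16558416) (l 16556936))))) (a (a (l 16531832) (l 16537024)) (a (l 16538192) (l 16531456)))) (a (a (l 16511344) (l 16507112)) (a (l 16540168) (l 16545680)))) (b (a (b (b (a (l 16583096) (l 16563256)) (a (b (l 16562240) (l 16545840)) (b (l 16541072) (l 16545392)))) (a (l 16516864) (l 16493528))) (b (b (a (l 16541288) (a (l 16520712) (l 16500504))) (a (b (l 16518664) (b (l 16506832) (l 16498032))) (b (l 16490304) (b (l 16479360) (l 16471064))))) (a (l 16470312) (l 16443216)))) (a (a (b (l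 16478976) (l 16445752)) (b (l 16452760) (l 16417304))) (a (b (l 16427920) (l 16391072)) (b (l 16399992) (l 16362336))))))), by decide +kernel⟩

def k6_pm_102 : ∃ t, chk3 f_pm_102 t 1 3 1 = true :=
  ⟨(a (a (l 2) (b (a (l 2) (b (a (l 2) (l 16495136)) (l 2))) (l 2))) (a (b (a (b (a (l 16482768) (l 16470656)) (l 16480768)) (b (a (l 16454112) (l 16431968)) (l 16604312))) (a (l 2) (b (l 16409696) (l 2)))) (b (a (b (a (l 16405768) (l 16374608)) (a (l 16371920) (l 16337888))) (b (a (l 16388504) (b (l 16330416) (l 16304312))) (a (l 16307832) (l 16381576)))) (a (b (a (l 16361416) (l 16325192)) (l 16564128)) (b (a (l 16293512) (l 16261800)) (a (l 16304760) (l 16272568))))))), by decide +kernel⟩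

theorem s7_pm_102 : ∃ t, chk3 f_pm_102 t 7 8 1 = true := ex3_a k2_pm_102 k3_pm_102

theorem s8_pm_102 : ∃ t, chk3 f_pm_102 t 7 4 1 = true := ex3_b s7_pm_102 k4_pm_102

theorem s9_pm_102 : ∃ t, chk3 f_pm_102 t 3 4 1 = true := ex3_a k1_pm_102 s8_pm_102

theorem s10_pm_102 : ∃ t, chk3 f_pm_102 t 1 4 1 = true := ex3_a k0_pm_102 s9_pm_102

theorem s11_pm_102 : ∃ t, chk3 f_pm_102 t 1 2 1 = true := ex3_b s10_pm_102 k5_pm_102

theorem s12_pm_102 : ∃ t, chk3 f_pm_102 t 1 1 1 = true := ex3_b s11_pm_102 k6_pm_102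

theorem c_pm_102 : CertB 536870912 536870912 0 536870912 780900216 37827925 3 eng mog cd0q1 cd2q0 pd2 true true false .npp 1 0 2
    ndB0q1 ndB2q0 pcB2 cut_pm_102 Ext.none :=
  certB1 (fam := true) (s1 := true) (s2 := false) (a := 1) (b := 0) (c := 2) (cn := .npp) (n1 := ndB0q1) (n2 := ndB2q0) (pc := pcB2) (cut := cut_pm_102) (xt := Ext.none) (P1 := 536870912) (W1 := 536870912) (P2 := 0) (W2 := 536870912) (P3 := 780900216) (W3 := 37827925) (N0 := 3) (En := eng) (mo := mog) (C1 := cd0q1) (C2 := cd2q0) (C3 := pd2)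
    rfl (fun _ => rfl) s12_pm_102

noncomputable def f_pm_112 : ℕ → ℕ → ℕ → ℕ → Bool := onCell 536870912 536870912 1073741824 536870912 780900216 37827925
    (rowB 3 eng mog cd0q1 cd2q1 pd2 1 true true false .dn 1 1 2 (qsf 536870912 536870912 536870912 536870912 2) ndB0q1 ndB2q1 pcB2 Cut.none Ext.none)

def k0_pm_112 : ∃ t, chk3 f_pm_112 t 1 2 1 = true :=
  ⟨(b (a (b (l 3) (a (b (l 3) (a (b (l 3) (a (b (l 169818521383) (b (l 16526824) (l 16505280))) (b (l 114520790311) (l 16500864)))) (b (a (b (l 3) (b (l 16480864) (l 16484024))) (b (a (l 16464432) (l 1)) (b (l 16467592) (l 16472776)))) (b (a (l 16489360) (l 16480272)) (a (l 16495024) (l 16487584)))))) (b (l 1) (a (b (l 1) (a (b (l 1) (l 16480064)) (l 1))) (l 1))))) (l 1)) (a (b (a (b (b (a (b (a (a (l 16504320) (l 16503800)) (l 16502072)) (a (l 16522240) (l 16502112))) (b (a (l 16498504) (l 16494112)) (l 16500008))) (a (b (a (l 16497776) (l 16500768)) (b (a (l 16494232) (l 16498840)) (b (a (l 16492312) (l 16496664)) (a (l 16490376)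 (l 16493200))))) (b (l 16563912) (b (l 16519432) (b (l 16493488) (l 16488136)))))) (a (a (l 16472256) (l 16477944)) (l 16478664))) (b (a (a (b (l 16491056) (b (l 16493456) (l 16481440))) (b (l 1) (b (l 1) (l 16467248)))) (l 1)) (a (l 16466328) (l 202970351335)))) (a (a (a (b (l 16432400) (l 16386584)) (l 16468848)) (a (l 16438784) (l 16446864))) (a (b (l 16457928) (l 16441696)) (b (l 149820141159) (l 16431944))))) (a (b (l 1) (a (b (l 1) (l 193306606759)) (l 1))) (l 1)))), by decide +kernel⟩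

def k1_pm_112 : ∃ t, chk3 f_pm_112 t 1 3 1 = true :=
  ⟨(a (a (b (a (b (a (l 16309760) (l 16339000)) (a (l 16196584) (l 16236760))) (b (l 16458304) (l 16499776))) (a (b (a (b (l 16106480) (l 16045408)) (b (l 16154176) (l 16097552))) (a (b (l 15984168) (l 15923544)) (b (l 16040272) (l 15982936)))) (b (a (l 16237456) (l 16217888)) (a (b (l 16097056) (l 16044808)) (b (l 16149304) (l 16103640)))))) (b (a (b (l 16448544) (l 16345544)) (b (a (l 16414824) (l 16411800)) (l 16376752))) (a (b (l 16359312) (a (l 16177608) (l 16224560))) (b (l 16331368) (l 16305936))))) (a (b (a (b (a (l 16402848) (l 16387160)) (l 16401944)) (b (l 194380419479) (l 80563797223))) (a (b (l 16359680) (l 16341080)) (b (l 16349808) (l 16356096)))) (b (a (b (l 1) (l 249678058039)) (l 1)) (a (b (l 84321833175) (l 16448704)) (b (a (l 16252624) (l 1)) (a (l 16287280) (l 16261592))))))), by decide +kernel⟩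

theorem s2_pm_112 : ∃ t, chk3 f_pm_112 t 1 1 1 = true := ex3_b k0_pm_112 k1_pm_112

theorem c_pm_112 : CertB 536870912 536870912 536870912 536870912 780900216 37827925 3 eng mog cd0q1 cd2q1 pd2 true true false .dn 1 1 2
    ndB0q1 ndB2q1 pcB2 Cut.none Ext.none :=
  certB1 (fam := true) (s1 := true) (s2 := false) (a := 1) (b := 1) (c := 2) (cn := .dn) (n1 := ndB0q1) (n2 := ndB2q1) (pc := pcB2) (cut := Cut.none) (xt := Ext.none) (P1 := 536870912) (W1 := 536870912) (P2 := 536870912) (W2 := 536870912) (P3 := 780900216) (W3 := 37827925) (N0 := 3) (En := eng) (mo := mog) (C1 := cd0q1) (C2 := cd2q1) (C3 := pd2)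
    rfl (fun _ => rfl) s2_pm_112

noncomputable def f_pm_113 : ℕ → ℕ → ℕ → ℕ → Bool := onCell 536870912 536870912 1610612736 536870912 780900216 37827925
    (rowB 3 eng mog cd0q1 cd2q1 pd3 1 true true false .nn 1 1 3 (qsf 536870912 536870912 536870912 536870912 3) ndB0q1 ndB2q1 pcB3 Cut.none Ext.none)

def k0_pm_113 : ∃ t, chk3 f_pm_113 t 2 1 1 = true :=
  ⟨(b (b (a (a (b (a (b (l 15859320) (l 15804384)) (b (l 15911560) (l 15857272))) (a (l 2) (b (l 15806632) (l 2)))) (b (b (a (l 15966096) (l 16022448)) (a (l 15914360) (l 15974272))) (b (a (l 15864976) (l 15928184)) (a (l 15840608) (l 68281752167))))) (a (b (a (b (l 16080024) (l 16036424)) (b (l 16138136) (l 16100584))) (a (b (l 15994800) (b (l 15965152) (l 15946624))) (c (l 16100080) (l 15998952)))) (b (a (l 16180632) (l 16239056)) (a (b (l 16138544) (l 16114560)) (l 16205168))))) (a (b (a (l 2) (b (a (l 2) (l 95662073271)) (l 2))) (l 2)) (b (a (a (b (b (l 15929112) (l 15912840)) (a (l 2) (l 123042655719))) (b (a (l 15981824)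 (l 16025352)) (l 111231631351))) (a (b (l 16094824) (l 16080608)) (c (l 16249080) (l 16131136)))) (a (b (a (l 2) (b (l 147201908727) (l 2))) (l 2)) (b (a (l 97273044039) (l 16195928)) (a (l 155791903799) (l 104789224311))))))) (a (l 2) (b (b (a (l 2) (b (a (l 2) (l 157402503447)) (l 2))) (l 2)) (l 2)))), by decide +kernel⟩

def k1_pm_113 : ∃ t, chk3 f_pm_113 t 3 1 1 = true :=
  ⟨(b (b (a (a (b (a (l 16291936) (l 16336272)) (a (l 16280960) (l 16350344))) (b (l 16376672) (l 16431280))) (a (b (a (l 16379536) (l 16362696)) (a (l 16467240) (l 16464912))) (b (l 16331872) (l 16443136)))) (a (b (a (a (b (l 16287344) (l 16301472)) (l 16395752)) (a (l 16491848) (l 16571272))) (a (b (b (l 16382336) (l 16255920)) (a (l 16337216) (l 16416728))) (b (a (l 16537280) (l 16624536)) (a (l 16499072) (l 16583192))))) (b (a (b (l 16587304) (l 16699296)) (l 16644728)) (a (b (l 16756296) (l 16710328)) (a (l 16844344) (l 16915880)))))) (a (b (b (a (a (b (l 114989807063) (a (l 2) (l 164381935239))) (b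 (l 16381944) (b (l 16335480) (l 16340056)))) (b (a (l 16461176) (l 16542984)) (b (a (l 16433440) (l 16514120)) (a (l 16416432) (l 16495920))))) (a (a (l 2) (b (l 208405673991) (l 2))) (a (b (a (l 16373232) (l 16412336)) (l 271756612727)) (b (l 16470432) (l 16439248))))) (b (a (l 2) (b (a (l 2) (l 16412432)) (l 2))) (l 2))) (a (b (b (b (l 16666832) (a (l 16583184) (l 16659928))) (a (l 16527728) (l 16600048))) (b (b (a (l 16479744) (l 16545512)) (a (l 400606221879) (l 16585136))) (b (b (a (l 2) (l 16509296)) (l 2)) (l 2)))) (b (b (b (l 16802648) (l 16754328)) (b (l 16706456) (l 16665336))) (b (b (a (l 16604112) (l 16656248)) (a (l 16328368) (l 16590728))) (b (b (l 16390408) (l 4)) (l 4))))))), by decide +kernel⟩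

theorem s2_pm_113 : ∃ t, chk3 f_pm_113 t 1 1 1 = true := ex3_a k0_pm_113 k1_pm_113

theorem c_pm_113 : CertB 536870912 536870912 536870912 536870912 780900216 37827925 3 eng mog cd0q1 cd2q1 pd3 true true false .nn 1 1 3
    ndB0q1 ndB2q1 pcB3 Cut.none Ext.none :=
  certB1 (fam := true) (s1 := true) (s2 := false) (a := 1) (b := 1) (c := 3) (cn := .nn) (n1 := ndB0q1) (n2 := ndB2q1) (pc := pcB3) (cut := Cut.none) (xt := Ext.none) (P1 := 536870912) (W1 := 536870912) (P2 := 536870912) (W2 := 536870912) (P3 := 780900216) (W3 := 37827925) (N0 := 3) (En := eng) (mo := mog) (C1 := cd0q1) (C2 := cd2q1) (C3 := pd3)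
    rfl (fun _ => rfl) s2_pm_113

noncomputable def cut_pm_123_a : Cut := Cut.of [[⟨0, 1, 0, 67108864⟩, ⟨1, 1, 0, 67108864⟩, ⟨2, 2, 0, 16777216⟩], [⟨0, 0, 1, 26214400⟩, ⟨1, 1, 0, 33554432⟩, ⟨2, 1, 1, 26214400⟩]]

noncomputable def xt_pm_123_a : Ext := extD2 3 ⟨4, 1, 1, 5, 5, 2, 24, 25, 43, 100, 1, 8⟩ eng cd0q1 cd2q2a pd3 true true false .npn 1 2 3 rfl ndB0q1 ndB2q2a pcB3

noncomputable def f_pm_123_a : ℕ → ℕ → ℕ → ℕ → Bool := onCell 1610612736 536870912 0 536870912 780900216 37827925
    (rowB 3 eng mog cd0q1 cd2q2a pd3 2 true true false .npn 1 2 3 (qsf 536870912 536870912 0 536870912 3) ndB0q1 ndB2q2a pcB3 cut_pm_123_a xt_pm_123_a)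

def k0_pm_123_a : ∃ t, chk3 f_pm_123_a t 4 2 1 = true :=
  ⟨(a (l 1) (b (l 1) (a (l 1) (b (l 1) (l 16508880))))), by decide +kernel⟩

def k1_pm_123_a : ∃ t, chk3 f_pm_123_a t 4 6 1 = true :=
  ⟨(a (l 1) (b (a (l 1) (l 16471520)) (a (b (l 16426760) (l 16397392)) (b (l 16435408) (l 16406304))))), by decide +kernel⟩

def k2_pm_123_a : ∃ t, chk3 f_pm_123_a t 4 7 1 = true :=
  ⟨(a (b (a (l 1) (b (c (l 16364096) (l 16352832)) (a (l 16334664) (l 16335584)))) (b (a (a (l 1) (a (l 16308264) (l 16307856))) (c (b (l 16322672) (l 16309632)) (b (l 16304600) (l 16289584)))) (a (b (a (c (l 16296840) (l 16272136)) (c (l 16295112) (l 16271648))) (a (c (b (l 16285152) (a (l 16277616) (l 16276552))) (b (l 16258952) (a (l 16250072) (l 16249672)))) (c (b (l 16283688) (a (l 16275920) (l 16275736))) (b (l 16258720) (a (l 16249648) (l 16250000)))))) (b (a (c (l 16295112) (l 16272640)) (c (l 16296912) (l 16275104))) (a (c (b (l 16284008) (a (l 16276032) (l 16276824))) (b (l 16259984) (a (l 16250744)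 (l 16251880)))) (c (b (l 16286288) (a (l 16278136) (l 16279976))) (b (l 16262808) (a (l 16253416) (l 16255360))))))))) (b (a (b (l 16385448) (a (l 16337936) (l 16341752))) (b (l 16373976) (l 16350752))) (b (a (c (l 16343208) (l 16345800)) (a (l 16323872) (l 16332624))) (a (b (a (c (l 16300792) (l 16279128)) (l 16318232)) (a (c (b (l 16290704) (a (l 16282376) (l 16285360))) (b (l 16267240) (a (l 16257736) (l 16260544)))) (c (b (l 16297440) (a (l 16288968) (b (l 16294800) (l 16291632)))) (b (l 16273408) (a (l 16263816) (l 16288528)))))) (b (a (c (l 16315440) (l 16292216)) (c (l 16326696) (l 16301568))) (b (a (c (l 16306752) (l 16281448)) (c (l 16318928) (l 16291544))) (b (a (c (l 16302360) (l 16275960)) (a (c (l 16311568) (l 16283624)) (c (l 16318712) (l 16289456)))) (a (c (a (l 16317608) (c (l 16307720) (l 16296408))) (a (l 16269920) (c (l 16282592) (l 16266288)))) (a (c (c (b (l 16315232) (l 16313992)) (l 16302584)) (c (l 16288216) (l 16271496))) (c (b (l 16316848) (c (l 139995076555751439)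 (l 16308864))) (c (l 16294488) (l 16277248)))))))))))), by decide +kernel⟩

def k3_pm_123_a : ∃ t, chk3 f_pm_123_a t 5 2 1 = true :=
  ⟨(a (b (a (l 16579288) (l 16598592)) (a (l 16537704) (l 16555872))) (b (a (l 16618760) (l 16641144)) (a (l 16576488) (l 16601872)))), by decide +kernel⟩

def k4_pm_123_a : ∃ t, chk3 f_pm_123_a t 5 6 1 = true :=
  ⟨(a (b (a (l 16548096) (l 16503160)) (a (b (l 16448880) (l 16420656)) (b (l 16468728) (l 16442248)))) (a (b (l 16548216) (a (l 16476256) (l 16492568))) (b (l 16557928) (a (l 16512120) (l 16535640))))), by decide +kernel⟩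

def k5_pm_123_a : ∃ t, chk3 f_pm_123_a t 10 7 1 = true :=
  ⟨(b (a (b (l 16390248) (a (l 16363976) (l 16375480))) (b (l 16414504) (a (l 16389392) (l 16405960)))) (b (a (a (l 16343648) (l 16357224)) (b (l 16470448) (a (l 16369848) (l 16391080)))) (a (c (b (a (l 16340992) (l 16358680)) (b (a (l 16334344) (l 140285553848745999)) (a (a (b (l 16326720) (l 140016173440516111)) (l 140101797929336847)) (a (l 140181581262536719) (l 140275039774162959))))) (b (a (l 16313056) (l 16326928)) (b (a (l 16303944) (l 16355704)) (a (a (b (l 16295904) (c (b (l 16302176) (l 16300728)) (l 16283576))) (b (l 16303016) (c (l 139877291346706447) (b (l 16291312) (l 16289728))))) (a (b (l 16310848) (l 139852689772019727)) (l 139938520419385359)))))) (b (a (c (l 16380792) (l 16343904)) (c (l 140804660888518671) (l 16364800))) (b (a (c (l 140488894829723663) (l 140128461092421647)) (c (a (l 140685913615007759) (l 140841563264794639)) (l 140320463358083087))) (a (c (b (l 140816824170233871) (a (l 140373514809786383)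 (l 140503257212059663))) (a (l 140015142656360463) (l 140105096474263567))) (c (a (a (l 140619874189115407) (l 141013361930567695)) (b (l 140828918882680847) (c (l 140942718363959311) (l 140700344716738575)))) (a (l 140389732572463119) (b (l 140341354090086415) (l 140318882819866639)))))))))), by decide +kernel⟩

def k6_pm_123_a : ∃ t, chk3 f_pm_123_a t 11 14 1 = true :=
  ⟨(a (b (a (l 16438872) (l 16459256)) (a (l 16426144) (l 16450704))) (b (a (l 16484032) (l 16514504)) (a (l 16481248) (l 16518728)))), by decide +kernel⟩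

def k7_pm_123_a : ∃ t, chk3 f_pm_123_a t 22 15 1 = true :=
  ⟨(b (a (a (l 16411904) (l 16446792)) (c (l 16475216) (l 16424576))) (b (a (a (a (l 16446880) (l 140841425817747471)) (a (l 140918048051494927) (l 141540028053569551))) (a (a (l 141445813670117391) (l 141717667940433935)) (b (l 16463568) (l 141508760767102991)))) (b (c (a (a (l 141018515956498447) (l 141218489677365263)) (a (l 141430558028709903) (l 141660012411027471))) (a (a (l 140504356721049615) (l 140649354849992719)) (a (l 140823421323444239) (l 141027174616317967)))) (c (b (a (a (l 141015492303110159) (a (l 141171279390752783) (l 141282742406119439))) (a (a (l 141393793104609295) (l 141508829533454351)) (a (l 141629775838429199) (l 141756700739076111)))) (a (a (c (a (l 141096168989016079) (l 141206669931544591)) (l 140879840029753359)) (b (a (l 141175677440311311) (l 141650597768757263)) (a (c (l 141326997761900559) (l 141030610595430415)) (c (a (l 141420456270282767) (l 141483815641382927)) (l 141139462270173199)))))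 (b (a (a (l 141584695815241743) (l 141522848311574543)) (a (l 141827000742150159) (l 142137269207384079))) (a (a (c (c (l 141653071748907023) (l 141493230211842063)) (l 141251543760896015)) (c (a (l 141845417566945295) (a (l 141712514109063183) (l 141744537392070671))) (l 141368298176937999))) (a (c (c (l 14) (a (l 141710315085348879) (l 141775736041193487))) (c (l 141575212565446671) (l 141406506214457359))) (c (l 14) (c (b (l 141702412343689231) (l 141889398041968655)) (l 141533568554041359)))))))) (a (a (a (l 140431720224849935) (l 140865683737247759)) (b (l 140630731872763919) (a (l 140578230184247311) (c (l 140823146451550223) (l 140504288013352975))))) (a (b (l 140815793464492047) (a (c (l 140924920018763791) (l 140597334205300751)) (c (l 141034115290808335) (l 140699726247755791)))) (b (l 141031091631521807) (c (a (l 141148876841566223) (b (l 141266112293257231) (l 141273121682702351))) (a (l 140807547129921551) (l 140921071729803279)))))))))), by decide +kernel⟩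

def k8_pm_123_a : ∃ t, chk3 f_pm_123_a t 23 15 1 = true :=
  ⟨(b (a (c (l 16515248) (l 16461352)) (a (l 16522112) (l 16547552))) (b (a (a (b (l 16485848) (l 141553978231291919)) (b (l 16510304) (l 141802467912155151))) (b (l 16551200) (a (l 16597224) (l 16575664)))) (b (a (a (c (l 141913381175869455) (l 141254498694070287)) (c (l 142191832554700815) (l 141505599715459087))) (c (l 14) (a (l 141782676704198671) (l 142088066122956815)))) (c (c (l 14) (a (a (b (l 141788174266236943) (a (c (l 14) (a (l 141626683464220687) (l 141694509602144271))) (b (l 141880395825397775) (l 14)))) (l 14)) (l 14))) (b (a (a (l 141810095670722575) (a (l 141464780341542927) (l 141603250116427791))) (a (a (l 141748729279315983) (l 141901561427673103)) (a (l 142062090158948367) (l 14)))) (a (b (a (c (l 141457358637711375) (l 141100498321080335)) (a (l 141659668782628879) (l 141981825719533583))) (a (c (a (c (l 141490000397058063) (l 141311810756771855)) (c (l 141806453616328719) (l 141444370655510543)))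 (a (l 141042499071787023) (l 141169286533283855))) (a (c (c (l 14) (l 141583733783789583)) (l 141482922253352975)) (c (b (l 141821090905899023) (l 14)) (c (l 141539134834688015) (l 141346857699229711)))))) (c (l 14) (a (a (b (l 141578030065795087) (c (b (l 141685163753127951) (l 14)) (l 141492405581545487))) (b (l 141730587336163343) (b (l 141742063492120591) (c (l 14) (l 141829199770189839))))) (l 14))))))))), by decide +kernel⟩

def k9_pm_123_a : ∃ t, chk3 f_pm_123_a t 3 2 1 = true :=
  ⟨(a (a (a (b (l 16664928) (b (l 16640824) (l 16621104))) (b (b (l 16696264) (l 16684784)) (b (l 16674024) (l 16661816)))) (b (a (l 16780040) (l 16740368)) (a (b (l 16704056) (l 16695464)) (b (l 16731808) (l 16724408))))) (a (a (b (a (l 16754056) (l 16720832)) (b (l 16751896) (l 16767864))) (b (a (b (l 16764528) (l 16766864)) (b (l 201024686887) (l 105461685863))) (b (a (l 16761256) (l 16767880)) (a (l 16758568) (l 16763296))))) (a (b (a (b (l 4) (a (l 16755968) (l 4))) (l 4)) (a (b (a (l 16764936)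 (l 16763744)) (l 16767624)) (b (a (l 157000997383) (l 4)) (a (l 16767696) (c (l 210151499271) (l 211762097463)))))) (a (b (l 4) (a (b (l 4) (b (l 4) (l 235384156823))) (l 4))) (l 4))))), by decide +kernel⟩

def k10_pm_123_a : ∃ t, chk3 f_pm_123_a t 12 6 1 = true :=
  ⟨(a (b (l 16598704) (a (l 16562944) (l 16596192))) (b (a (l 16637296) (l 16659872)) (a (b (l 16633368) (l 16627200)) (l 16648168)))), by decide +kernel⟩

def k11_pm_123_a : ∃ t, chk3 f_pm_123_a t 12 14 1 = true :=
  ⟨(a (b (a (l 16551520) (l 16595176)) (a (l 16563416) (l 16607656))) (a (b (a (l 16616784) (l 16625944)) (l 16626456)) (b (l 16638608) (l 16643584)))), by decide +kernel⟩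

def k12_pm_123_a : ∃ t, chk3 f_pm_123_a t 24 30 1 = true :=
  ⟨(a (c (l 16604736) (l 16559032)) (c (l 16601712) (l 16612088))), by decide +kernel⟩

def k13_pm_123_a : ∃ t, chk3 f_pm_123_a t 24 62 1 = true :=
  ⟨(a (b (l 16605128) (a (l 16603440) (l 16591984))) (b (l 16602704) (a (l 16601096) (l 16609824)))), by decide +kernel⟩

def k14_pm_123_a : ∃ t, chk3 f_pm_123_a t 24 126 1 = true :=
  ⟨(c (a (a (l 142599064247468047) (l 142704548662575183)) (a (l 142805360195403855) (a (l 143057904285007951) (l 143105045854224463)))) (a (l 14) (a (l 142695271515914255) (l 142800549772656719)))), by decide +kernel⟩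

def k15_pm_123_a : ∃ t, chk3 f_pm_123_a t 24 254 1 = true :=
  ⟨(a (c (a (a (l 142591024112992271) (l 142644900192026703)) (a (l 142697608039759951) (a (l 142916479579832399) (l 142942043229569103)))) (l 14)) (a (a (c (c (l 143032409357320271) (l 142926856222376015)) (l 142584495761358863)) (c (c (l 143080925316186191) (l 142977296326967375)) (l 142637890803990607))) (a (c (c (l 143128341763260495) (l 143026636919734351)) (l 142690186334814287)) (c (c (l 143174727417987279) (l 143074946720170063)) (l 142741451073290319))))), by decide +kernel⟩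

def k16_pm_123_a : ∃ t, chk3 f_pm_123_a t 48 255 1 = true :=
  ⟨(a (c (c (a (b (l 142839032717901967) (b (b (l 142663729334124687) (l 142665653469298831)) (b (a (l 142654177325678735) (l 142861091674701967)) (c (a (a (l 14) (l 142872292951769231)) (a (l 142885555813040271) (l 142898749954834575))) (l 14))))) (b (l 142891946724048975) (b (a (l 142884662458908751) (l 142910844584017999)) (a (c (a (l 142910844584689743) (l 142923970006974543)) (l 14)) (a (c (l 142936957990289487) (l 142879439778021519)) (c (l 142949877254111311) (l 142892633919799439))))))) (l 14)) (l 14)) (b (c (c (a (l 142943761218371663) (l 142994544920346703)) (a (l 142831473573544079) (l 142703930233716815))) (l 14)) (c (a (a (c (b (l 142936820550647887) (a (c (l 142962727798456399) (l 142905690622607439)) (c (l 142975578342785103) (l 142918747325399119)))) (l 14)) (b (c (l 142962452919844943) (l 142849203202211983)) (b (c (l 142965476577640527) (l 142671357197123727)) (c (c (l 142995713152991311) (a (l 142932628662173775)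 (l 142945547925979215))) (c (a (l 142875316608467087) (l 142888442030751887)) (l 14)))))) (b (a (c (l 142987879130562639) (l 142875522766291023)) (c (l 143013030463324239) (l 142901498732937295))) (a (a (c (c (l 143013580219875407) (l 142957367677894735)) (c (l 142866864117039183) (l 14))) (c (c (l 143026087166771279) (l 142970149502746703)) (c (l 142913593363431503) (l 14)))) (c (c (l 143044847587082319) (b (l 142988222728093775) (l 142990146873966671))) (a (c (l 142926512627253327) (l 14)) (c (l 142939363171582031) (l 142882600873918607))))))) (l 14)))), by decide +kernel⟩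

def k17_pm_123_a : ∃ t, chk3 f_pm_123_a t 98 255 1 = true :=
  ⟨(a (c (b (c (l 143044229110480975) (l 142935583598608463)) (b (a (c (l 143037906918129743) (l 142927268541104207)) (c (l 143062508494979151) (l 142952763471315023))) (c (c (a (l 143069517883424847) (l 143093913301795023)) (a (l 143014267414298703) (l 143039143869087823))) (a (a (b (l 142923145372090447) (c (l 142952969630384207) (l 142896276052213839))) (c (l 142964789382299727) (b (l 142907820926058575) (l 142909195316035663)))) (a (c (l 142977433768165455) (l 142921358665384015)) (c (l 142990009434554447) (l 142934140490235983))))))) (a (l 14) (a (l 14) (a (l 14) (b (l 142791822428602511) (c (c (l 142879852088688783) (l 14)) (l 14))))))) (c (b (c (l 143092882508300367) (l 142986023703150671)) (a (a (b (l 142756294500139087) (c (l 143084911048573007) (c (l 143002516381433935) (l 142946922315071567)))) (c (l 143095012813177039) (b (l 142984236997017679) (c (l 143015023328313423) (l 142959566700937295))))) (c (b (l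 143110955734302927) (l 143115147623448783)) (b (l 143002997417345103) (c (l 143033577590177871) (a (l 142972142367326287) (l 142984718033698895))))))) (c (b (l 142696852126253135) (b (b (l 142699257308823631) (l 142711420656549967)) (c (a (b (l 142896550929842255) (a (l 142891190809952335) (l 142904110073774159))) (b (l 142922183299039311) (a (l 142916891898609743) (l 142929673723461711)))) (l 14)))) (l 14)))), by decide +kernel⟩

def k18_pm_123_a : ∃ t, chk3 f_pm_123_a t 99 255 1 = true :=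
  ⟨(a (c (c (b (l 143140505113755855) (a (l 143136931690332367) (l 143160571205058767))) (b (l 143035433015345231) (a (b (l 143027667713704015) (c (l 143058110447534159) (b (l 143002653820092495) (l 143004096929513551)))) (c (l 143080650439540943) (a (l 143020520886976591) (l 143032752955916367)))))) (c (b (a (l 142915517507813455) (l 142940874999054415)) (b (a (l 142918335007391823) (l 142943623779139663)) (a (c (a (l 142941768353333327) (l 142954412739199055)) (c (a (l 142899849465380943) (l 142912631290216527)) (l 14))) (a (c (l 142966919686094927) (b (l 142910982022430799) (l 142911806656462927))) (c (l 142979426632974415) (b (l 142923695127773263) (l 142924519761821775))))))) (l 14))) (c (c (b (l 143187096926896335) (a (l 143183935831097551) (l 143207094298656975))) (b (l 143083811535208527) (a (b (l 143076389830967375) (c (l 143106351528362191) (l 143052544168738895))) (a (l 143095974885310671) (l 143107863356817615))))) (b (c (l 142933384582512719) (l 142690804811546703))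 (c (a (a (b (l 142962452918976591) (c (l 142991864860377167) (l 142936751830663247))) (b (l 142974959865856079) (c (l 143004234368286799) (l 142949327497052239)))) (b (l 142993514127753295) (a (c (l 143016535156703311) (l 142961834443931727)) (c (l 143028767225643087) (l 142974272671350863))))) (c (b (a (l 142886517884387407) (l 142912012814598223)) (a (c (a (l 142895039101272207) (l 142907752206630991)) (l 14)) (b (l 142912700009742415) (a (l 142861778876645455) (l 142919503239266383))))) (l 14)))))), by decide +kernel⟩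

def k19_pm_123_a : ∃ t, chk3 f_pm_123_a t 25 30 1 = true :=
  ⟨(a (a (l 16630696) (l 16618424)) (b (l 16649584) (l 16632840))), by decide +kernel⟩

def k20_pm_123_a : ∃ t, chk3 f_pm_123_a t 25 62 1 = true :=
  ⟨(a (a (a (l 16614832) (c (l 16646408) (l 16633640))) (c (l 16652608) (l 16640408))) (b (l 16657576) (a (l 16656024) (l 16664272)))), by decide +kernel⟩

def k21_pm_123_a : ∃ t, chk3 f_pm_123_a t 50 126 1 = true :=
  ⟨(b (a (c (c (l 16652496) (l 16644944)) (l 16612784)) (b (l 16649272) (l 16649928))) (a (c (a (l 143157478824755279) (a (l 16651384) (l 16653296))) (a (l 142967950475182159) (l 142838139392311375))) (a (a (l 143156722908807247) (l 143190670334738511)) (c (l 16660448) (l 16645712))))), by decide +kernel⟩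

def k22_pm_123_a : ∃ t, chk3 f_pm_123_a t 100 127 1 = true :=
  ⟨(c (b (b (a (l 143167786749018191) (a (l 143201734176358607) (l 143225854716592335))) (c (a (l 143224205450002639) (a (l 143257603121381583) (l 143281380064133327))) (a (l 143125111947116751) (a (l 143159884008292559) (l 143184485584945359))))) (b (c (a (l 143232726667182287) (a (l 143266261777498319) (a (l 143282823174193359) (l 143297391705243855)))) (a (l 143131227982217423) (a (l 143166068762837199) (a (l 143183317354430671) (l 143198092044009679))))) (c (a (a (l 143229977888276687) (l 143252655319400655)) (a (l 143275057872584911) (a (l 143291756708233487) (l 143306393958744335)))) (a (b (l 143135900907897039) (a (l 143127242252681423) (l 143150744317690063))) (a (l 143172390956368079) (a (l 143189708267421903) (l 143204551676477647))))))) (a (b (l 142791616299941967) (c (b (l 143027598993506383) (a (b (l 143018115704602703) (c (l 143047046609551439) (a (l 142986710898737231) (l 142999011687170127)))) (c (l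 143070067637993679) (a (l 142965476584308815) (l 143022719910494287))))) (b (l 142741725952540751) (b (a (l 142909951230050383) (l 142935171282305103)) (c (a (b (l 142937920061997135) (a (l 142932078905638991) (l 142944585852534863))) (a (l 142956886640869455) (l 142969256148795471))) (a (a (l 14) (c (l 142903010562113615) (l 14))) (b (l 142908164523720783) (b (l 142908233243344975) (a (l 142856899793240143) (l 142914555436367951)))))))))) (c (b (a (l 143058522762379343) (a (l 143076458548887631) (l 143091439397011535))) (c (a (b (l 143089515252596943) (l 143093913300467919)) (a (b (l 143107313600102607) (l 143111711647957199)) (l 143124562191597775))) (a (b (l 143037838197342287) (b (l 143040105940910159) (l 143041686489448655))) (a (b (l 143055980142280911) (l 143059072519848143)) (l 143072678977896655))))) (a (b (l 142958329748455503) (b (l 142959429261262927) (b (l 142960116456620111) (c (a (l 142981625656705103) (l 142993926445121615)) (b (l 142933315856498767) (a (l 142927131102691407)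 (l 142939638049587279))))))) (b (a (l 142977021449355343) (l 142992208456007759)) (a (b (l 142978052242636879) (c (b (l 143005402599391311) (a (l 143003134856577103) (b (l 143009044732493903) (a (l 143007876501356623) (l 143011037597810767))))) (b (l 142951938837626959) (a (l 142948915180437583) (a (l 142953588105658447) (a (l 142955924568260687) (l 142957573835964495))))))) (b (l 142993376688242767) (b (l 142994132603060303) (c (l 143021551679127631) (l 142967606880960591)))))))))), by decide +kernel⟩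

def k23_pm_123_a : ∃ t, chk3 f_pm_123_a t 101 254 1 = true :=
  ⟨(b (a (c (l 143275676343550159) (l 143084223849037903)) (c (c (l 16665624) (l 16657912)) (c (l 16650256) (b (l 16642536) (l 16642736))))) (c (a (a (l 143266124335988943) (a (l 143291481826033871) (a (l 143302683102314703) (l 143308111942009039)))) (c (l 143367966619091215) (l 143276775857291471))) (a (a (l 143069174282272847) (b (a (l 143094531772432463) (l 143111024449175631)) (c (l 143152049984372943) (l 143051856970793039)))) (c (l 143183729669685455) (a (l 143077832937586767) (l 143099479577559119)))))), by decide +kernel⟩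

def k24_pm_123_a : ∃ t, chk3 f_pm_123_a t 101 255 2 = true :=
  ⟨(b (c (a (a (b (l 143320756329906447) (l 143324467182665999)) (a (l 143342128090726671) (l 143348587723571471))) (l 143361300831895823)) (c (a (a (l 143248325989040335) (a (l 143268941835256015) (l 143276707138257167))) (l 143293131098554639)) (a (a (l 143198298201407695) (a (l 143219463803535567) (l 143228122459783375))) (l 143247020321407183)))) (c (a (a (a (b (l 143320962489352463) (a (l 143320618892476687) (l 143325772854264079))) (b (l 143332713521905935) (l 143330033463345423))) (l 143339516753707279)) (c (l 143377449915318543) (l 143332369930092815))) (a (a (a (b (l 143220013560496335) (a (b (l 143218295573659855) (l 143218982768836815)) (b (l 143224961363984591) (l 143223586974859471)))) (b (l 143232726665855183) (l 143229909168144591))) (c (l 143266880253804815) (l 143217745819287759))) (a (a (l 143253067637932239) (l 143260214465724623)) (a (l 143267361293500687) (l 143274439401832719)))))), by decide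 +kernel⟩

def k25_pm_123_a : ∃ t, chk3 f_pm_123_a t 101 255 3 = true :=
  ⟨(b (a (a (b (l 143070892269928527) (a (l 143063401846276175) (c (l 143131640297586895) (a (l 143024369176674383) (l 143032203198218319))))) (c (b (l 143150744314937551) (l 143148132975444175)) (a (b (l 143044022949642319) (l 143041342890442831)) (l 143054193434787919)))) (c (c (l 143200428507922639) (l 143153355658117327)) (c (l 143105733052514511) (l 143057629410590799)))) (b (a (a (c (a (l 143116865608417487) (a (l 143128135604322511) (l 143133289566224591))) (a (c (l 143038113074954319) (l 142984992910704719)) (a (b (l 143024094299062351) (l 143022857348661327)) (l 143029385700065359)))) (c (l 143144697002229967) (c (l 143068830687035599) (l 143017565948821583)))) (c (c (l 143195618145648847) (l 143148476576202959)) (c (l 143100785250959567) (a (l 143040793136906319) (l 143064089044500687))))) (c (a (a (a (a (b (l 143114116829233359) (c (l 143140642552004815) (l 143087797265498319))) (b (l 143121194936484047)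 (l 143119751827783887))) (l 143127517130227919)) (c (l 143166412361875663) (l 143116178415681743))) (a (c (l 143183798394077391) (l 143135557312839887)) (c (l 143201115706835151) (l 143154936210030799)))) (b (c (a (a (a (l 143038113075298511) (l 143050207705596111)) (l 143066219347280079)) (l 143098311350190287)) (a (a (a (a (l 142980801022263375) (l 142988428885409871)) (l 142997362419220559)) (l 143014885889491023)) (l 143050001549590735))) (a (c (a (a (a (l 143034333503701199) (l 143040380818849999)) (l 143048420999430351)) (l 143064501360607439)) (a (a (a (a (a (l 142977639926038607) (b (l 142979838949556303) (l 142979564071731279))) (b (l 142982656448561231) (l 142981900534399055))) (l 142986779618132047)) (c (l 143008769854734415) (l 142982244132307023))) (c (l 143026018447098063) (a (l 142994132604272719) (l 143006089795731535))))) (a (c (l 143085941842198735) (a (l 143030691373072591) (l 143042373686624463))) (c (l 143107382323839183) (b (l 143060446912725199) (l 143059622273745103))))))))),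 by decide +kernel⟩

def k26_pm_123_a : ∃ t, chk3 f_pm_123_a t 51 126 1 = true :=
  ⟨(b (a (l 16658040) (l 16666544)) (a (c (l 16666584) (a (l 16650208) (l 16654712))) (c (l 16674792) (l 16661648)))), by decide +kernel⟩

def k27_pm_123_a : ∃ t, chk3 f_pm_123_a t 51 127 1 = true :=
  ⟨(b (a (a (c (c (l 143390575334048015) (l 143307287312744655)) (c (l 143222281304621263) (a (l 143124562190942287) (l 143146140111487183)))) (c (a (l 143366248637907215) (l 143377518636400911)) (c (l 143257328247029967) (l 143178644431339727)))) (c (a (a (l 143388513757004047) (l 16675776)) (b (l 16678448) (l 16679520))) (a (c (l 143292100311646415) (l 143221868992118991)) (c (l 16668776) (l 143265024833519823))))) (a (c (b (c (a (l 143381092049502479) (l 143400058633502991)) (a (l 143298010186072335) (l 143325360546742543))) (a (a (c (l 143369959494385935) (b (l 143286465313128719) (l 143283510376562959))) (c (l 143379717664309519) (b (l 143300415371378959) (l 143297529154322703)))) (a (c (l 143389338395312399)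 (a (l 143309348907221263) (l 143316220857155855))) (c (l 143398684248424719) (l 143326460062597391))))) (b (a (c (c (l 143234444658098383) (l 143191426257666255)) (c (l 143147858101453007) (l 143103740189425871))) (c (l 143248738314698959) (c (l 143189914431045839) (l 143149988407378127)))) (b (c (a (c (l 143229977893273807) (l 143186890773233871)) (c (l 143263925324169487) (l 143225167531425999))) (a (c (l 143143322616856783) (l 143099135985189071)) (c (l 143185791263391951) (l 143145865239560399)))) (c (b (a (c (l 143227778870608079) (l 143184691750486223)) (c (l 143261863740506383) (l 143223105947681039))) (a (a (c (l 143217677105578255) (l 143173559193190607)) (c (l 143234856979464463) (l 143192869370986703))) (a (l 143232176920576271) (l 143250250147774735)))) (b (a (c (l 143141054874566863) (l 143096868242833615)) (c (l 143183798399058127) (l 143143872375161039))) (b (a (c (l 143139955363152079) (a (l 143083948978831567) (l 143107519764447439))) (c (l 143182836326629583)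 (l 143142910302683343))) (a (a (c (l 143128479208210639) (l 143083193064718543)) (c (l 143149988409393359) (l 143106763850334415))) (a (a (l 143145315484680399) (l 143156585481404623)) (a (l 143167855478145231) (l 143179125474885839)))))))))) (c (c (b (a (l 143418200583897423) (l 143435380461683023)) (a (b (l 143413802539172175) (l 143410916322345295)) (l 143429676747571535))) (b (a (l 143352161151713551) (l 143378205842522383)) (a (a (l 143339997804085519) (l 143353398106620175)) (c (l 143387414258237775) (l 143358620790079759))))) (c (b (a (l 143284197574246671) (l 143319244517048591)) (a (a (l 143270178794881295) (l 143288045869056271)) (c (l 143329415005077775) (l 143299590744785167)))) (b (a (c (l 143231902041276623) (l 143196305344905423)) (l 143258152887861455)) (a (c (a (l 143216371438403791) (l 143237537042301199)) (a (l 143179743949619407) (l 143203177296380111))) (c (l 143269285448188175) (l 143238292956840207)))))))), by decide +kernel⟩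

def k28_pm_123_a : ∃ t, chk3 f_pm_123_a t 13 6 1 = true :=
  ⟨(b (a (l 16684456) (l 16713264)) (a (b (l 16675936) (l 16668472)) (b (l 16701552) (l 16693880)))), by decide +kernel⟩

def k29_pm_123_a : ∃ t, chk3 f_pm_123_a t 13 14 1 = true :=
  ⟨(b (a (b (l 16661536) (l 16660288)) (a (l 16679880) (l 16671776))) (a (b (l 16642416) (l 16646680)) (a (l 16665568) (l 16679384)))), by decide +kernel⟩

def k30_pm_123_a : ∃ t, chk3 f_pm_123_a t 13 30 1 = true :=
  ⟨(a (b (l 16651432) (a (l 16669720) (l 16685520))) (b (l 16681944) (a (l 16702112) (l 16718096)))), by decide +kernel⟩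

def k31_pm_123_a : ∃ t, chk3 f_pm_123_a t 13 62 1 = true :=
  ⟨(a (a (b (l 16673824) (a (l 16672760) (l 16681432))) (a (l 16688368) (l 16697088))) (a (b (l 16708000) (l 16722688)) (b (l 16724208) (l 16728304)))), by decide +kernel⟩

def k32_pm_123_a : ∃ t, chk3 f_pm_123_a t 26 63 1 = true :=
  ⟨(a (b (a (c (l 16682216) (b (l 16669568) (l 16671056))) (c (l 16690744) (l 16679792))) (b (a (a (c (l 16683296) (c (l 16673456) (l 143307905797112079))) (c (l 16687640) (c (l 16678168) (l 16671936)))) (c (l 16694192) (a (a (l 16678696) (l 16681128)) (l 16684800)))) (a (a (a (b (c (l 143422598638436687) (c (l 143345151767052559) (l 143290932085965071))) (c (c (l 143441908820967759) (l 143392293344330063)) (c (l 143340753722392847) (l 143287015077282063)))) (b (c (l 143432700405989711) (c (l 143362262921642255) (l 143312716165234959))) (c (c (l 143449742845706575) (l 143404800293732687)) (c (l 143358071035461903) (l 143309074034508047))))) (c (c (c (l 143473176196006223) (l 143454415772025167))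 (c (l 143435311750676815) (l 143415795412500815))) (c (a (l 143377175053959439) (l 143394080050168143)) (c (l 143354360180064527) (l 143332713538191631))))) (a (c (b (l 16693776) (c (l 143474825470099791) (l 143446856629846351))) (c (a (l 143410710168469839) (l 143427202847818063)) (c (l 143395110840058127) (l 143378412000788751)))) (c (b (l 16698184) (c (l 16702520) (l 143469396627571023))) (c (a (l 143443489368752463) (l 143459569731240271)) (c (l 143435243024777551) (l 143423560707588367)))))))) (b (a (c (l 16699344) (l 16689344)) (c (l 16707960) (l 16698920))) (c (a (b (l 16702944) (a (c (l 16706160) (l 143492967416234319)) (b (l 16707000) (l 16708272)))) (b (l 16711632) (c (l 16716728) (l 16711544)))) (b (a (c (l 16694816) (l 16689496)) (c (l 16704288) (l 16699496))) (a (a (a (c (l 143475375215837519) (l 143461012833304911)) (c (l 143490905822511439) (l 143481834839982415))) (c (l 143604018088640847) (a (l 143502450688213327) (l 143522860378014031)))) (a (b (l 16700976) (c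 (l 16704640) (l 143552203603312975))) (b (l 16705784) (c (l 16709296) (l 143590480361963855))))))))), by decide +kernel⟩

def k33_pm_123_a : ∃ t, chk3 f_pm_123_a t 27 63 1 = true :=
  ⟨(a (b (a (c (l 16716312) (l 16708232)) (l 16720688)) (c (a (b (l 16719976) (l 16722416)) (l 16729008)) (a (b (l 16711264) (b (l 16707520) (a (c (l 16713824) (l 16709136)) (l 16716008)))) (b (l 16720120) (c (l 16724080) (l 16720128)))))) (b (c (l 16735352) (l 16729632)) (c (a (l 16736296) (l 16743064)) (a (b (l 16728456) (l 16730392)) (b (l 16736264) (l 16738144)))))), by decide +kernel⟩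

def k34_pm_123_a : ∃ t, chk3 f_pm_123_a t 14 3 1 = true :=
  ⟨(b (a (b (b (l 16738432) (l 16731864)) (a (l 16716048) (l 16728320))) (b (a (l 16771496) (b (l 16761648) (l 16758528))) (b (l 16728136) (l 16680352)))) (b (a (b (b (l 16712304) (l 16691376)) (a (l 16693400) (l 16706896))) (b (a (l 16732024) (l 16743288)) (a (l 16718616) (b (l 16747640) (l 16752704))))) (a (b (b (a (l 16725064) (l 16737640)) (a (l 16732720) (l 16745192))) (c (b (a (l 16742048) (l 16753832)) (a (b (l 16748224) (a (l 16749320) (l 16755232))) (b (l 16759648) (a (l 16760936) (l 16766344))))) (b (a (l 16738736) (l 16751920)) (a (b (l 16744280) (a (l 16744464) (l 16751328))) (b (l 16757392) (a (l 16757968) (l 16764296))))))) (b (a (b (l 16748848) (l 16756192)) (b (l 16758616) (l 16766080))) (c (b (a (l 16764256) (l 16752584)) (a (b (l 16769968) (a (l 16771392) (l 16776040))) (a (l 16799168) (l 16801960)))) (b (a (l 16763608) (l 16753032)) (a (b (l 16769264) (a (l 16770208) (l 16775680))) (b (l 16757880) (a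 (l 16779992) (l 16783016)))))))))), by decide +kernel⟩

def k35_pm_123_a : ∃ t, chk3 f_pm_123_a t 30 3 1 = true :=
  ⟨(b (a (b (b (l 16766152) (l 16767192)) (b (l 16764336) (l 16759240))) (b (a (l 16768944) (l 16770888)) (b (l 16770336) (a (l 16764592) (l 16767640))))) (b (b (a (l 16753136) (l 16740176)) (a (l 16718032) (l 16789544))) (b (a (b (a (l 16765336) (l 16769608)) (a (l 16772384) (l 16775216))) (b (a (l 16772888) (l 16775128)) (b (l 16755432) (l 16757112)))) (b (a (a (l 16757368) (l 16759272)) (a (l 16759600) (b (l 16779296) (l 16780312)))) (a (b (c (l 16781800) (l 16762344)) (a (b (l 16783248) (l 16783960)) (c (l 16782896) (l 16795232)))) (b (a (l 16761288) (c (l 16780320) (l 16782168))) (b (a (l 16782816) (a (l 16782000) (l 16781384))) (a (a (l 16783400) (l 16782888)) (a (l 16792800) (c (l 16780696) (l 16782960))))))))))), by decide +kernel⟩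

def k36_pm_123_a : ∃ t, chk3 f_pm_123_a t 31 3 1 = true :=
  ⟨(a (b (b (b (a (l 54458691799) (l 4)) (a (l 16770328) (a (l 16769984) (l 194045105223)))) (a (b (l 16769624) (l 16769432)) (a (l 16769248) (b (l 16770424) (l 16768008))))) (b (b (a (l 16765344) (b (l 16767016) (l 16767144))) (a (l 16751264) (l 16772304))) (b (b (a (l 16775960) (l 16775664)) (a (l 16756024) (b (l 16775880) (l 16755016)))) (b (a (b (l 16778008) (l 16758000)) (b (a (l 16776808) (l 16775976)) (c (l 16776944) (l 16778008)))) (b (a (c (l 16779024) (l 16780776)) (a (l 16768360) (a (l 16778344) (l 16778016)))) (b (a (c (l 16779536) (l 16781576)) (a (l 16771728) (a (l 16779144) (l 16778848)))) (a (a (c (l 16780144) (l 16782392)) (c (l 16779608) (b (l 16781664) (l 16781944)))) (a (c (b (l 16779000) (l 16779200)) (b (l 16781048) (l 16786584))) (a (c (l 16778736) (l 16783344)) (b (l 16779256) (c (l 16778608) (l 16780552)))))))))))) (b (a (b (l 4) (a (b (b (l 4) (l 16771032)) (l 16769720)) (b (l 4) (a (l 16771696)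 (l 428120852215))))) (l 4)) (a (a (a (b (b (l 16766224) (l 16772304)) (a (b (l 16754392) (b (b (l 16775544) (l 16776592)) (b (l 16777768) (b (l 16778624) (c (l 16778328) (l 16780144)))))) (l 6))) (b (b (l 16765560) (l 16772024)) (l 6))) (b (b (a (l 16765216) (l 16798312)) (b (l 16769864) (l 6))) (l 6))) (b (b (a (a (b (l 394834916343) (l 16766416)) (a (a (l 469996837063) (l 4)) (l 4))) (l 4)) (a (a (b (l 16767736) (l 6)) (l 6)) (l 6))) (l 6))))), by decide +kernel⟩

theorem s37_pm_123_a : ∃ t, chk3 f_pm_123_a t 15 3 1 = true := ex3_a k35_pm_123_a k36_pm_123_a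

theorem s38_pm_123_a : ∃ t, chk3 f_pm_123_a t 7 3 1 = true := ex3_a k34_pm_123_a s37_pm_123_a

theorem s39_pm_123_a : ∃ t, chk3 f_pm_123_a t 13 63 1 = true := ex3_a k32_pm_123_a k33_pm_123_a

theorem s40_pm_123_a : ∃ t, chk3 f_pm_123_a t 13 31 1 = true := ex3_b k31_pm_123_a s39_pm_123_a

theorem s41_pm_123_a : ∃ t, chk3 f_pm_123_a t 13 15 1 = true := ex3_b k30_pm_123_a s40_pm_123_a

theorem s42_pm_123_a : ∃ t, chk3 f_pm_123_a t 13 7 1 = true := ex3_b k29_pm_123_a s41_pm_123_a

theorem s43_pm_123_a : ∃ t, chk3 f_pm_123_a t 13 3 1 = true := ex3_b k28_pm_123_a s42_pm_123_a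

theorem s44_pm_123_a : ∃ t, chk3 f_pm_123_a t 51 63 1 = true := ex3_b k26_pm_123_a k27_pm_123_a

theorem s45_pm_123_a : ∃ t, chk3 f_pm_123_a t 101 255 1 = true := ex3_c k24_pm_123_a k25_pm_123_a

theorem s46_pm_123_a : ∃ t, chk3 f_pm_123_a t 101 127 1 = true := ex3_b k23_pm_123_a s45_pm_123_a

theorem s47_pm_123_a : ∃ t, chk3 f_pm_123_a t 50 127 1 = true := ex3_a k22_pm_123_a s46_pm_123_a

theorem s48_pm_123_a : ∃ t, chk3 f_pm_123_a t 50 63 1 = true := ex3_b k21_pm_123_a s47_pm_123_a

theorem s49_pm_123_a : ∃ t, chk3 f_pm_123_a t 25 63 1 = true := ex3_a s48_pm_123_a s44_pm_123_a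

theorem s50_pm_123_a : ∃ t, chk3 f_pm_123_a t 25 31 1 = true := ex3_b k20_pm_123_a s49_pm_123_a

theorem s51_pm_123_a : ∃ t, chk3 f_pm_123_a t 25 15 1 = true := ex3_b k19_pm_123_a s50_pm_123_a

theorem s52_pm_123_a : ∃ t, chk3 f_pm_123_a t 49 255 1 = true := ex3_a k17_pm_123_a k18_pm_123_a

theorem s53_pm_123_a : ∃ t, chk3 f_pm_123_a t 24 255 1 = true := ex3_a k16_pm_123_a s52_pm_123_a

theorem s54_pm_123_a : ∃ t, chk3 f_pm_123_a t 24 127 1 = true := ex3_b k15_pm_123_a s53_pm_123_a

theorem s55_pm_123_a : ∃ t, chk3 f_pm_123_a t 24 63 1 = true := ex3_b k14_pm_123_a s54_pm_123_a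

theorem s56_pm_123_a : ∃ t, chk3 f_pm_123_a t 24 31 1 = true := ex3_b k13_pm_123_a s55_pm_123_a

theorem s57_pm_123_a : ∃ t, chk3 f_pm_123_a t 24 15 1 = true := ex3_b k12_pm_123_a s56_pm_123_a

theorem s58_pm_123_a : ∃ t, chk3 f_pm_123_a t 12 15 1 = true := ex3_a s57_pm_123_a s51_pm_123_a

theorem s59_pm_123_a : ∃ t, chk3 f_pm_123_a t 12 7 1 = true := ex3_b k11_pm_123_a s58_pm_123_a

theorem s60_pm_123_a : ∃ t, chk3 f_pm_123_a t 12 3 1 = true := ex3_b k10_pm_123_a s59_pm_123_a

theorem s61_pm_123_a : ∃ t, chk3 f_pm_123_a t 6 3 1 = true := ex3_a s60_pm_123_a s43_pm_123_a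

theorem s62_pm_123_a : ∃ t, chk3 f_pm_123_a t 3 3 1 = true := ex3_a s61_pm_123_a s38_pm_123_a

theorem s63_pm_123_a : ∃ t, chk3 f_pm_123_a t 3 1 1 = true := ex3_b k9_pm_123_a s62_pm_123_a

theorem s64_pm_123_a : ∃ t, chk3 f_pm_123_a t 11 15 1 = true := ex3_a k7_pm_123_a k8_pm_123_a

theorem s65_pm_123_a : ∃ t, chk3 f_pm_123_a t 11 7 1 = true := ex3_b k6_pm_123_a s64_pm_123_a

theorem s66_pm_123_a : ∃ t, chk3 f_pm_123_a t 5 7 1 = true := ex3_a k5_pm_123_a s65_pm_123_a

theorem s67_pm_123_a : ∃ t, chk3 f_pm_123_a t 5 3 1 = true := ex3_b k4_pm_123_a s66_pm_123_a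

theorem s68_pm_123_a : ∃ t, chk3 f_pm_123_a t 5 1 1 = true := ex3_b k3_pm_123_a s67_pm_123_a

theorem s69_pm_123_a : ∃ t, chk3 f_pm_123_a t 4 3 1 = true := ex3_b k1_pm_123_a k2_pm_123_a

theorem s70_pm_123_a : ∃ t, chk3 f_pm_123_a t 4 1 1 = true := ex3_b k0_pm_123_a s69_pm_123_a

theorem s71_pm_123_a : ∃ t, chk3 f_pm_123_a t 2 1 1 = true := ex3_a s70_pm_123_a s68_pm_123_a

theorem s72_pm_123_a : ∃ t, chk3 f_pm_123_a t 1 1 1 = true := ex3_a s71_pm_123_a s63_pm_123_a

theorem c_pm_123_a : CertB 536870912 536870912 0 536870912 780900216 37827925 3 eng mog cd0q1 cd2q2a pd3 true true false .npn 1 2 3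
    ndB0q1 ndB2q2a pcB3 cut_pm_123_a xt_pm_123_a :=
  certB2 (fam := true) (s1 := true) (s2 := false) (a := 1) (b := 2) (c := 3) (cn := .npn) (n1 := ndB0q1) (n2 := ndB2q2a) (pc := pcB3) (cut := cut_pm_123_a) (xt := xt_pm_123_a) (P1 := 536870912) (W1 := 536870912) (P2 := 0) (W2 := 536870912) (P3 := 780900216) (W3 := 37827925) (N0 := 3) (En := eng) (mo := mog) (C1 := cd0q1) (C2 := cd2q2a) (C3 := pd3)
    rfl (fun _ => rfl) s72_pm_123_a

noncomputable def cut_pm_123_b : Cut := Cut.of [[⟨0, 1, 0, 67108864⟩, ⟨1, 1, 0, 67108864⟩, ⟨2, 2, 0, 16777216⟩], [⟨0, 0, 1, 26214400⟩, ⟨1, 1, 0, 33554432⟩, ⟨2, 1, 1, 26214400⟩]]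

noncomputable def f_pm_123_b : ℕ → ℕ → ℕ → ℕ → Bool := onCell 1610612736 536870912 1239849684 370763052 780900216 37827925
    (rowB 3 eng mog cd0q1 cd2q2b pd3 2 true true false .npn 1 2 3 (qsf 536870912 536870912 1239849684 370763052 3) ndB0q1 ndB2q2b pcB3 cut_pm_123_b Ext.none)

def k0_pm_123_b : ∃ t, chk3 f_pm_123_b t 1 1 1 = true :=
  ⟨(a (b (a (l 1) (b (a (b (a (l 16581544) (l 16604920)) (l 1)) (b (a (l 16627568) (l 16647208)) (a (l 16626056) (l 16650072)))) (a (l 1) (b (l 16619496) (l 1))))) (l 1)) (b (a (a (b (b (a (l 16666288) (b (l 16696024) (l 16687264))) (a (l 16674480) (l 16697208))) (b (l 16778224) (l 16747000))) (b (b (a (l 16798608) (b (l 16740576) (l 16737552))) (a (l 16714840) (l 16721120))) (a (b (l 16695712) (l 16671032)) (b (l 16697472) (l 16673952))))) (a (b (a (b (a (l 16749512) (b (l 16757048) (l 16740640))) (a (l 16719344) (l 16719992))) (b (a (b (l 16778336) (l 4)) (l 4)) (l 4))) (a (b (l 71638752423) (l 4)) (l 4))) (l 4))) (a (a (l 1) (b (a (b (l 16640896)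 (l 1)) (b (l 16651384) (l 4))) (l 1))) (l 4)))), by decide +kernel⟩

theorem c_pm_123_b : CertB 536870912 536870912 1239849684 370763052 780900216 37827925 3 eng mog cd0q1 cd2q2b pd3 true true false .npn 1 2 3
    ndB0q1 ndB2q2b pcB3 cut_pm_123_b Ext.none :=
  certB2 (fam := true) (s1 := true) (s2 := false) (a := 1) (b := 2) (c := 3) (cn := .npn) (n1 := ndB0q1) (n2 := ndB2q2b) (pc := pcB3) (cut := cut_pm_123_b) (xt := Ext.none) (P1 := 536870912) (W1 := 536870912) (P2 := 1239849684) (W2 := 370763052) (P3 := 780900216) (W3 := 37827925) (N0 := 3) (En := eng) (mo := mog) (C1 := cd0q1) (C2 := cd2q2b) (C3 := pd3)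
    rfl (fun _ => rfl) k0_pm_123_b

noncomputable def f_pm_133 : ℕ → ℕ → ℕ → ℕ → Bool := onCell 536870912 536870912 1610612736 536870912 780900216 37827925
    (rowB 3 eng mog cd0q1 cd2q3 pd3 0 true true false .dn 1 3 3 (qsf 536870912 536870912 1610612736 536870912 3) ndB0q1 ndB2q3 pcB3 Cut.none Ext.none)

def k0_pm_133 : ∃ t, chk3 f_pm_133 t 1 1 1 = true :=
  ⟨(l 4), by decide +kernel⟩

theorem c_pm_133 : CertB 536870912 536870912 1610612736 536870912 780900216 37827925 3 eng mog cd0q1 cd2q3 pd3 true true false .dn 1 3 3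
    ndB0q1 ndB2q3 pcB3 Cut.none Ext.none :=
  certB0 (fam := true) (s1 := true) (s2 := false) (a := 1) (b := 3) (c := 3) (cn := .dn) (n1 := ndB0q1) (n2 := ndB2q3) (pc := pcB3) (cut := Cut.none) (xt := Ext.none) (P1 := 536870912) (W1 := 536870912) (P2 := 1610612736) (W2 := 536870912) (P3 := 780900216) (W3 := 37827925) (N0 := 3) (En := eng) (mo := mog) (C1 := cd0q1) (C2 := cd2q3) (C3 := pd3)
    rfl k0_pm_133

noncomputable def cut_pm_202 : Cut := Cut.of [[⟨0, 1, 0, 67108864⟩, ⟨1, 0, 0, 67108864⟩, ⟨2, 1, 0, 67108864⟩]]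

noncomputable def f_pm_202 : ℕ → ℕ → ℕ → ℕ → Bool := onCell 0 536870912 1073741824 536870912 780900216 37827925
    (rowB 3 eng mog cd0q2 cd2q0 pd2 1 true true false .pp 2 0 2 (qsf 0 536870912 0 536870912 2) ndB0q2 ndB2q0 pcB2 cut_pm_202 Ext.none)

def k0_pm_202 : ∃ t, chk3 f_pm_202 t 2 1 1 = true :=
  ⟨(b (a (b (l 1) (b (b (b (l 1) (a (l 102038347319) (a (l 16367304) (l 16375248)))) (a (b (l 16385592) (l 16401448)) (b (l 16389176) (l 16403920)))) (b (a (a (l 16365456) (l 16423560)) (l 16384672)) (a (l 16454760) (l 16454448))))) (b (b (l 1) (b (l 1) (a (l 1) (b (l 1) (a (l 1) (l 144451194407)))))) (b (b (a (b (a (l 16370888) (l 16391192)) (a (l 16389048) (l 16407424))) (b (a (l 16415616) (l 16444296)) (a (l 16429824) (l 16456320)))) (a (a (l 16411384) (l 16427752)) (a (l 16447936) (l 16471952)))) (a (b (b (l 16439256) (l 16452448)) (l 16470136)) (b (b (l 16475776) (l 16486176)) (l 16499928)))))) (b (a (b (a (l 16560088) (b (l 16481752) (l 16505848))) (b (l 16531304) (l 16539800)))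 (b (a (b (l 16492664) (l 16515104)) (b (l 16516808) (l 16513624))) (a (b (l 16519664) (l 16523880)) (l 16507232)))) (a (b (l 16559680) (l 16592848)) (b (a (l 16534880) (l 16510816)) (a (l 16558160) (l 16549464)))))), by decide +kernel⟩

def k1_pm_202 : ∃ t, chk3 f_pm_202 t 3 4 1 = true :=
  ⟨(b (a (l 1) (a (b (l 1) (a (b (l 1) (b (l 1) (a (l 1) (b (l 311955265095) (l 349536240263))))) (b (l 6) (b (l 6) (a (a (l 426308805815) (a (l 16646048) (l 16652824))) (l 16648776)))))) (b (l 6) (b (l 6) (b (l 6) (a (a (l 16674888) (l 16666280)) (l 16690600))))))) (a (b (a (l 1) (b (a (l 1) (b (l 1) (a (l 246456894167) (l 358126103511)))) (a (b (a (l 1) (l 272763539431)) (a (l 16542856) (l 16543872))) (a (b (l 345241167079) (l 16566904)) (b (l 16582504) (l 16590928)))))) (a (b (a (b (l 1) (l 300680677367)) (b (a (l 1) (l 16509768)) (l 311418227127))) (a (l 209412663335) (l 16533640))) (b (b (a (a (l 16532616) (l 16554080)) (l 16588080)) (a (a (l 16542104) (l 16564216)) (l 16597040))) (a (l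 16557776) (l 16589176))))) (a (b (b (a (b (a (b (l 285111679191) (l 369400423239)) (a (l 16614952) (l 16628472))) (a (a (l 16594208) (l 16607624)) (l 16627520))) (b (c (l 16595856) (l 16596216)) (l 16631208))) (a (a (l 16528016) (l 16635384)) (l 16606904))) (a (b (l 16583904) (l 16579336)) (b (l 16594440) (l 16567752)))) (b (a (b (a (l 16650384) (l 16641728)) (l 16676920)) (b (a (l 16630648) (l 16617000)) (a (l 16598560) (l 16585000)))) (a (b (b (l 16588792) (l 16571760)) (l 16552512)) (b (l 16621072) (l 16529392))))))), by decide +kernel⟩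

def k2_pm_202 : ∃ t, chk3 f_pm_202 t 3 5 1 = true :=
  ⟨(a (b (a (b (a (b (l 16478608) (l 16488112)) (l 16416440)) (l 16391760)) (b (a (l 16562448) (b (l 16572576) (b (l 16561144) (l 16617976)))) (l 16543864))) (a (b (l 16635496) (l 16522808)) (b (l 16518952) (l 16496360)))) (b (b (b (a (a (l 16559960) (l 16546568)) (a (l 16529584) (l 16504848))) (a (b (l 16550176) (b (l 16532368) (a (l 16514368) (l 16518352)))) (b (l 16562944) (a (l 16584704) (b (l 16476976) (l 16470072)))))) (a (a (l 16518080) (l 16498720)) (a (l 16476648) (l 16445408)))) (a (a (b (l 16489840) (l 16462240)) (b (l 16466944) (l 16435232))) (b (a (l 16439840) (l 16403992)) (a (l 16404280) (l 16366632)))))), by decide +kernel⟩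

def k3_pm_202 : ∃ t, chk3 f_pm_202 t 3 3 1 = true :=
  ⟨(b (a (b (a (b (l 16507848) (l 16494368)) (b (l 16474912) (l 16455792))) (a (l 16480512) (l 16435128))) (a (b (b (l 16464048) (l 16398928)) (b (l 16380552) (l 16367192))) (b (b (l 16564592) (l 16371536)) (b (l 16309168) (l 16294872))))) (a (b (a (b (l 16475368) (l 16476824)) (l 16423048)) (a (l 16485696) (l 16429496))) (a (b (l 16357032) (l 16362680)) (b (l 16326632) (l 16293112))))), by decide +kernel⟩

theorem s4_pm_202 : ∃ t, chk3 f_pm_202 t 3 2 1 = true := ex3_b k1_pm_202 k2_pm_202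

theorem s5_pm_202 : ∃ t, chk3 f_pm_202 t 3 1 1 = true := ex3_b s4_pm_202 k3_pm_202

theorem s6_pm_202 : ∃ t, chk3 f_pm_202 t 1 1 1 = true := ex3_a k0_pm_202 s5_pm_202

theorem c_pm_202 : CertB 0 536870912 0 536870912 780900216 37827925 3 eng mog cd0q2 cd2q0 pd2 true true false .pp 2 0 2
    ndB0q2 ndB2q0 pcB2 cut_pm_202 Ext.none :=
  certB1 (fam := true) (s1 := true) (s2 := false) (a := 2) (b := 0) (c := 2) (cn := .pp) (n1 := ndB0q2) (n2 := ndB2q0) (pc := pcB2) (cut := cut_pm_202) (xt := Ext.none) (P1 := 0) (W1 := 536870912) (P2 := 0) (W2 := 536870912) (P3 := 780900216) (W3 := 37827925) (N0 := 3) (En := eng) (mo := mog) (C1 := cd0q2) (C2 := cd2q0) (C3 := pd2)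
    rfl (fun _ => rfl) s6_pm_202

noncomputable def f_pm_203 : ℕ → ℕ → ℕ → ℕ → Bool := onCell 0 536870912 1610612736 536870912 780900216 37827925
    (rowB 3 eng mog cd0q2 cd2q0 pd3 1 true true false .up 2 0 3 (qsf 0 536870912 0 536870912 3) ndB0q2 ndB2q0 pcB3 Cut.none Ext.none)

def k0_pm_203 : ∃ t, chk3 f_pm_203 t 1 1 1 = true :=
  ⟨(b (b (a (b (a (b (l 16624080) (l 16638888)) (l 16669360)) (a (b (l 16654664) (l 16667656)) (b (l 16605184) (l 16622976)))) (a (b (a (l 16524152) (l 16464360)) (a (l 16554752) (l 16502720))) (b (a (l 16395656) (l 16327408)) (a (l 16444672) (l 2))))) (a (b (a (l 4) (l 16654128)) (l 2)) (a (l 2) (l 2)))) (l 2)), by decide +kernel⟩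

theorem c_pm_203 : CertB 0 536870912 0 536870912 780900216 37827925 3 eng mog cd0q2 cd2q0 pd3 true true false .up 2 0 3
    ndB0q2 ndB2q0 pcB3 Cut.none Ext.none :=
  certB1 (fam := true) (s1 := true) (s2 := false) (a := 2) (b := 0) (c := 3) (cn := .up) (n1 := ndB0q2) (n2 := ndB2q0) (pc := pcB3) (cut := Cut.none) (xt := Ext.none) (P1 := 0) (W1 := 536870912) (P2 := 0) (W2 := 536870912) (P3 := 780900216) (W3 := 37827925) (N0 := 3) (En := eng) (mo := mog) (C1 := cd0q2) (C2 := cd2q0) (C3 := pd3)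
    rfl (fun _ => rfl) k0_pm_203

noncomputable def f_pm_213 : ℕ → ℕ → ℕ → ℕ → Bool := onCell 0 536870912 1610612736 536870912 780900216 37827925
    (rowB 3 eng mog cd0q2 cd2q1 pd3 1 true true false .pnn 2 1 3 (qsf 0 536870912 536870912 536870912 3) ndB0q2 ndB2q1 pcB3 Cut.none Ext.none)

def k0_pm_213 : ∃ t, chk3 f_pm_213 t 1 1 1 = true :=
  ⟨(a (b (a (b (l 1) (l 4)) (b (b (l 1) (b (l 1) (l 16582496))) (b (b (l 16598360) (l 16603832)) (b (l 16587960) (l 4))))) (l 4)) (b (b (a (b (l 1) (a (l 16543752) (l 16505576))) (b (a (l 16396520) (l 16336512)) (a (l 16460416) (l 16427512)))) (b (a (l 16591040) (a (l 16566680) (l 16588008))) (a (l 16564992) (a (l 16729104) (l 16855784))))) (a (b (b (b (l 16636832) (l 16602728)) (l 4)) (l 4)) (b (b (a (l 16734192) (l 16804736)) (a (l 16449576) (l 16704752))) (b (a (l 4) (b (l 16648760) (l 4))) (l 4)))))), by decide +kernel⟩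

theorem c_pm_213 : CertB 0 536870912 536870912 536870912 780900216 37827925 3 eng mog cd0q2 cd2q1 pd3 true true false .pnn 2 1 3
    ndB0q2 ndB2q1 pcB3 Cut.none Ext.none :=
  certB1 (fam := true) (s1 := true) (s2 := false) (a := 2) (b := 1) (c := 3) (cn := .pnn) (n1 := ndB0q2) (n2 := ndB2q1) (pc := pcB3) (cut := Cut.none) (xt := Ext.none) (P1 := 0) (W1 := 536870912) (P2 := 536870912) (W2 := 536870912) (P3 := 780900216) (W3 := 37827925) (N0 := 3) (En := eng) (mo := mog) (C1 := cd0q2) (C2 := cd2q1) (C3 := pd3)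
    rfl (fun _ => rfl) k0_pm_213

noncomputable def f_mm_001 : ℕ → ℕ → ℕ → ℕ → Bool := onCell 0 536870912 0 536870912 780900216 37827925
    (rowB 3 eng mog cd0q0 cd2q0 pd1 0 true false false .up 0 0 1 (qsf 0 536870912 0 536870912 1) ndB0q0 ndB2q0 pcB1 Cut.none Ext.none)

def k0_mm_001 : ∃ t, chk3 f_mm_001 t 1 1 1 = true :=
  ⟨(l 4), by decide +kernel⟩

theorem c_mm_001 : CertB 0 536870912 0 536870912 780900216 37827925 3 eng mog cd0q0 cd2q0 pd1 true false false .up 0 0 1
    ndB0q0 ndB2q0 pcB1 Cut.none Ext.none :=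
  certB0 (fam := true) (s1 := false) (s2 := false) (a := 0) (b := 0) (c := 1) (cn := .up) (n1 := ndB0q0) (n2 := ndB2q0) (pc := pcB1) (cut := Cut.none) (xt := Ext.none) (P1 := 0) (W1 := 536870912) (P2 := 0) (W2 := 536870912) (P3 := 780900216) (W3 := 37827925) (N0 := 3) (En := eng) (mo := mog) (C1 := cd0q0) (C2 := cd2q0) (C3 := pd1)
    rfl k0_mm_001

noncomputable def f_mm_011 : ℕ → ℕ → ℕ → ℕ → Bool := onCell 0 536870912 536870912 536870912 780900216 37827925
    (rowB 3 eng mog cd0q0 cd2q1 pd1 0 true false false .pnn 0 1 1 (qsf 0 536870912 536870912 536870912 1) ndB0q0 ndB2q1 pcB1 Cut.none Ext.none)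

def k0_mm_011 : ∃ t, chk3 f_mm_011 t 1 1 1 = true :=
  ⟨(l 4), by decide +kernel⟩

theorem c_mm_011 : CertB 0 536870912 536870912 536870912 780900216 37827925 3 eng mog cd0q0 cd2q1 pd1 true false false .pnn 0 1 1
    ndB0q0 ndB2q1 pcB1 Cut.none Ext.none :=
  certB0 (fam := true) (s1 := false) (s2 := false) (a := 0) (b := 1) (c := 1) (cn := .pnn) (n1 := ndB0q0) (n2 := ndB2q1) (pc := pcB1) (cut := Cut.none) (xt := Ext.none) (P1 := 0) (W1 := 536870912) (P2 := 536870912) (W2 := 536870912) (P3 := 780900216) (W3 := 37827925) (N0 := 3) (En := eng) (mo := mog) (C1 := cd0q0) (C2 := cd2q1) (C3 := pd1)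
    rfl k0_mm_011

noncomputable def f_mm_012 : ℕ → ℕ → ℕ → ℕ → Bool := onCell 0 536870912 536870912 536870912 780900216 37827925
    (rowB 3 eng mog cd0q0 cd2q1 pd2 0 true false false .pnp 0 1 2 (qsf 0 536870912 536870912 536870912 2) ndB0q0 ndB2q1 pcB2 Cut.none Ext.none)

def k0_mm_012 : ∃ t, chk3 f_mm_012 t 1 1 1 = true :=
  ⟨(l 4), by decide +kernel⟩

theorem c_mm_012 : CertB 0 536870912 536870912 536870912 780900216 37827925 3 eng mog cd0q0 cd2q1 pd2 true false false .pnp 0 1 2
    ndB0q0 ndB2q1 pcB2 Cut.none Ext.none :=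
  certB0 (fam := true) (s1 := false) (s2 := false) (a := 0) (b := 1) (c := 2) (cn := .pnp) (n1 := ndB0q0) (n2 := ndB2q1) (pc := pcB2) (cut := Cut.none) (xt := Ext.none) (P1 := 0) (W1 := 536870912) (P2 := 536870912) (W2 := 536870912) (P3 := 780900216) (W3 := 37827925) (N0 := 3) (En := eng) (mo := mog) (C1 := cd0q0) (C2 := cd2q1) (C3 := pd2)
    rfl k0_mm_012

noncomputable def f_mm_022_a : ℕ → ℕ → ℕ → ℕ → Bool := onCell 0 536870912 0 536870912 780900216 37827925
    (rowB 3 eng mog cd0q0 cd2q2a pd2 0 true false false .pp 0 2 2 (qsf 0 536870912 0 536870912 2) ndB0q0 ndB2q2a pcB2 Cut.none Ext.none)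

def k0_mm_022_a : ∃ t, chk3 f_mm_022_a t 1 1 1 = true :=
  ⟨(l 5), by decide +kernel⟩

theorem c_mm_022_a : CertB 0 536870912 0 536870912 780900216 37827925 3 eng mog cd0q0 cd2q2a pd2 true false false .pp 0 2 2
    ndB0q0 ndB2q2a pcB2 Cut.none Ext.none :=
  certB0 (fam := true) (s1 := false) (s2 := false) (a := 0) (b := 2) (c := 2) (cn := .pp) (n1 := ndB0q0) (n2 := ndB2q2a) (pc := pcB2) (cut := Cut.none) (xt := Ext.none) (P1 := 0) (W1 := 536870912) (P2 := 0) (W2 := 536870912) (P3 := 780900216) (W3 := 37827925) (N0 := 3) (En := eng) (mo := mog) (C1 := cd0q0) (C2 := cd2q2a) (C3 := pd2)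
    rfl k0_mm_022_a

noncomputable def f_mm_022_b : ℕ → ℕ → ℕ → ℕ → Bool := onCell 0 536870912 1239849684 370763052 780900216 37827925
    (rowB 3 eng mog cd0q0 cd2q2b pd2 0 true false false .pp 0 2 2 (qsf 0 536870912 1239849684 370763052 2) ndB0q0 ndB2q2b pcB2 Cut.none Ext.none)

def k0_mm_022_b : ∃ t, chk3 f_mm_022_b t 1 1 1 = true :=
  ⟨(l 5), by decide +kernel⟩

theorem c_mm_022_b : CertB 0 536870912 1239849684 370763052 780900216 37827925 3 eng mog cd0q0 cd2q2b pd2 true false false .pp 0 2 2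
    ndB0q0 ndB2q2b pcB2 Cut.none Ext.none :=
  certB0 (fam := true) (s1 := false) (s2 := false) (a := 0) (b := 2) (c := 2) (cn := .pp) (n1 := ndB0q0) (n2 := ndB2q2b) (pc := pcB2) (cut := Cut.none) (xt := Ext.none) (P1 := 0) (W1 := 536870912) (P2 := 1239849684) (W2 := 370763052) (P3 := 780900216) (W3 := 37827925) (N0 := 3) (En := eng) (mo := mog) (C1 := cd0q0) (C2 := cd2q2b) (C3 := pd2)
    rfl k0_mm_022_b

noncomputable def f_mm_023_a : ℕ → ℕ → ℕ → ℕ → Bool := onCell 0 536870912 0 536870912 780900216 37827925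
    (rowB 3 eng mog cd0q0 cd2q2a pd3 0 true false false .up 0 2 3 (qsf 0 536870912 0 536870912 3) ndB0q0 ndB2q2a pcB3 Cut.none Ext.none)

def k0_mm_023_a : ∃ t, chk3 f_mm_023_a t 1 1 1 = true :=
  ⟨(l 5), by decide +kernel⟩

theorem c_mm_023_a : CertB 0 536870912 0 536870912 780900216 37827925 3 eng mog cd0q0 cd2q2a pd3 true false false .up 0 2 3
    ndB0q0 ndB2q2a pcB3 Cut.none Ext.none :=
  certB0 (fam := true) (s1 := false) (s2 := false) (a := 0) (b := 2) (c := 3) (cn := .up) (n1 := ndB0q0) (n2 := ndB2q2a) (pc := pcB3) (cut := Cut.none) (xt := Ext.none) (P1 := 0) (W1 := 536870912) (P2 := 0) (W2 := 536870912) (P3 := 780900216) (W3 := 37827925) (N0 := 3) (En := eng) (mo := mog) (C1 := cd0q0) (C2 := cd2q2a) (C3 := pd3)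
    rfl k0_mm_023_a

noncomputable def f_mm_023_b : ℕ → ℕ → ℕ → ℕ → Bool := onCell 0 536870912 1239849684 370763052 780900216 37827925
    (rowB 3 eng mog cd0q0 cd2q2b pd3 0 true false false .up 0 2 3 (qsf 0 536870912 1239849684 370763052 3) ndB0q0 ndB2q2b pcB3 Cut.none Ext.none)

def k0_mm_023_b : ∃ t, chk3 f_mm_023_b t 1 1 1 = true :=
  ⟨(l 5), by decide +kernel⟩

theorem c_mm_023_b : CertB 0 536870912 1239849684 370763052 780900216 37827925 3 eng mog cd0q0 cd2q2b pd3 true false false .up 0 2 3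
    ndB0q0 ndB2q2b pcB3 Cut.none Ext.none :=
  certB0 (fam := true) (s1 := false) (s2 := false) (a := 0) (b := 2) (c := 3) (cn := .up) (n1 := ndB0q0) (n2 := ndB2q2b) (pc := pcB3) (cut := Cut.none) (xt := Ext.none) (P1 := 0) (W1 := 536870912) (P2 := 1239849684) (W2 := 370763052) (P3 := 780900216) (W3 := 37827925) (N0 := 3) (En := eng) (mo := mog) (C1 := cd0q0) (C2 := cd2q2b) (C3 := pd3)
    rfl k0_mm_023_b

noncomputable def f_mm_033 : ℕ → ℕ → ℕ → ℕ → Bool := onCell 0 536870912 1610612736 536870912 780900216 37827925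
    (rowB 3 eng mog cd0q0 cd2q3 pd3 0 true false false .pnn 0 3 3 (qsf 0 536870912 1610612736 536870912 3) ndB0q0 ndB2q3 pcB3 Cut.none Ext.none)

def k0_mm_033 : ∃ t, chk3 f_mm_033 t 1 1 1 = true :=
  ⟨(l 5), by decide +kernel⟩

theorem c_mm_033 : CertB 0 536870912 1610612736 536870912 780900216 37827925 3 eng mog cd0q0 cd2q3 pd3 true false false .pnn 0 3 3
    ndB0q0 ndB2q3 pcB3 Cut.none Ext.none :=
  certB0 (fam := true) (s1 := false) (s2 := false) (a := 0) (b := 3) (c := 3) (cn := .pnn) (n1 := ndB0q0) (n2 := ndB2q3) (pc := pcB3) (cut := Cut.none) (xt := Ext.none) (P1 := 0) (W1 := 536870912) (P2 := 1610612736) (W2 := 536870912) (P3 := 780900216) (W3 := 37827925) (N0 := 3) (En := eng) (mo := mog) (C1 := cd0q0) (C2 := cd2q3) (C3 := pd3)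
    rfl k0_mm_033

noncomputable def cut_mm_101 : Cut := Cut.of [[⟨0, 1, 0, 67108864⟩, ⟨1, 0, 0, 67108864⟩, ⟨2, 1, 0, 67108864⟩]]

noncomputable def f_mm_101 : ℕ → ℕ → ℕ → ℕ → Bool := onCell 536870912 536870912 0 536870912 780900216 37827925
    (rowB 3 eng mog cd0q1 cd2q0 pd1 0 true false false .npn 1 0 1 (qsf 536870912 536870912 0 536870912 1) ndB0q1 ndB2q0 pcB1 cut_mm_101 Ext.none)

def k0_mm_101 : ∃ t, chk3 f_mm_101 t 1 1 1 = true :=
  ⟨(a (l 4) (b (a (l 4) (b (a (l 4) (b (a (l 4) (b (l 6) (l 4))) (l 4))) (l 4))) (l 4))), by decide +kernel⟩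

theorem c_mm_101 : CertB 536870912 536870912 0 536870912 780900216 37827925 3 eng mog cd0q1 cd2q0 pd1 true false false .npn 1 0 1
    ndB0q1 ndB2q0 pcB1 cut_mm_101 Ext.none :=
  certB0 (fam := true) (s1 := false) (s2 := false) (a := 1) (b := 0) (c := 1) (cn := .npn) (n1 := ndB0q1) (n2 := ndB2q0) (pc := pcB1) (cut := cut_mm_101) (xt := Ext.none) (P1 := 536870912) (W1 := 536870912) (P2 := 0) (W2 := 536870912) (P3 := 780900216) (W3 := 37827925) (N0 := 3) (En := eng) (mo := mog) (C1 := cd0q1) (C2 := cd2q0) (C3 := pd1)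
    rfl k0_mm_101

noncomputable def cut_mm_102 : Cut := Cut.of [[⟨0, 1, 0, 67108864⟩, ⟨1, 0, 0, 67108864⟩, ⟨2, 1, 0, 67108864⟩]]

noncomputable def f_mm_102 : ℕ → ℕ → ℕ → ℕ → Bool := onCell 536870912 536870912 0 536870912 780900216 37827925
    (rowB 3 eng mog cd0q1 cd2q0 pd2 0 true false false .npp 1 0 2 (qsf 536870912 536870912 0 536870912 2) ndB0q1 ndB2q0 pcB2 cut_mm_102 Ext.none)

def k0_mm_102 : ∃ t, chk3 f_mm_102 t 1 1 1 = true :=
  ⟨(a (l 4) (b (a (l 4) (b (a (l 4) (a (l 4) (b (b (l 6) (l 4)) (l 4)))) (l 4))) (l 4))), by decide +kernel⟩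

theorem c_mm_102 : CertB 536870912 536870912 0 536870912 780900216 37827925 3 eng mog cd0q1 cd2q0 pd2 true false false .npp 1 0 2
    ndB0q1 ndB2q0 pcB2 cut_mm_102 Ext.none :=
  certB0 (fam := true) (s1 := false) (s2 := false) (a := 1) (b := 0) (c := 2) (cn := .npp) (n1 := ndB0q1) (n2 := ndB2q0) (pc := pcB2) (cut := cut_mm_102) (xt := Ext.none) (P1 := 536870912) (W1 := 536870912) (P2 := 0) (W2 := 536870912) (P3 := 780900216) (W3 := 37827925) (N0 := 3) (En := eng) (mo := mog) (C1 := cd0q1) (C2 := cd2q0) (C3 := pd2)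
    rfl k0_mm_102

noncomputable def f_mm_112 : ℕ → ℕ → ℕ → ℕ → Bool := onCell 536870912 536870912 536870912 536870912 780900216 37827925
    (rowB 3 eng mog cd0q1 cd2q1 pd2 0 true false false .dn 1 1 2 (qsf 536870912 536870912 536870912 536870912 2) ndB0q1 ndB2q1 pcB2 Cut.none Ext.none)

def k0_mm_112 : ∃ t, chk3 f_mm_112 t 1 1 1 = true :=
  ⟨(l 4), by decide +kernel⟩

theorem c_mm_112 : CertB 536870912 536870912 536870912 536870912 780900216 37827925 3 eng mog cd0q1 cd2q1 pd2 true false false .dn 1 1 2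
    ndB0q1 ndB2q1 pcB2 Cut.none Ext.none :=
  certB0 (fam := true) (s1 := false) (s2 := false) (a := 1) (b := 1) (c := 2) (cn := .dn) (n1 := ndB0q1) (n2 := ndB2q1) (pc := pcB2) (cut := Cut.none) (xt := Ext.none) (P1 := 536870912) (W1 := 536870912) (P2 := 536870912) (W2 := 536870912) (P3 := 780900216) (W3 := 37827925) (N0 := 3) (En := eng) (mo := mog) (C1 := cd0q1) (C2 := cd2q1) (C3 := pd2)
    rfl k0_mm_112

noncomputable def f_mm_113 : ℕ → ℕ → ℕ → ℕ → Bool := onCell 536870912 536870912 536870912 536870912 780900216 37827925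
    (rowB 3 eng mog cd0q1 cd2q1 pd3 0 true false false .nn 1 1 3 (qsf 536870912 536870912 536870912 536870912 3) ndB0q1 ndB2q1 pcB3 Cut.none Ext.none)

def k0_mm_113 : ∃ t, chk3 f_mm_113 t 1 1 1 = true :=
  ⟨(l 4), by decide +kernel⟩

theorem c_mm_113 : CertB 536870912 536870912 536870912 536870912 780900216 37827925 3 eng mog cd0q1 cd2q1 pd3 true false false .nn 1 1 3
    ndB0q1 ndB2q1 pcB3 Cut.none Ext.none :=
  certB0 (fam := true) (s1 := false) (s2 := false) (a := 1) (b := 1) (c := 3) (cn := .nn) (n1 := ndB0q1) (n2 := ndB2q1) (pc := pcB3) (cut := Cut.none) (xt := Ext.none) (P1 := 536870912) (W1 := 536870912) (P2 := 536870912) (W2 := 536870912) (P3 := 780900216) (W3 := 37827925) (N0 := 3) (En := eng) (mo := mog) (C1 := cd0q1) (C2 := cd2q1) (C3 := pd3)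
    rfl k0_mm_113

noncomputable def f_mm_123_a : ℕ → ℕ → ℕ → ℕ → Bool := onCell 536870912 536870912 0 536870912 780900216 37827925
    (rowB 3 eng mog cd0q1 cd2q2a pd3 0 true false false .npn 1 2 3 (qsf 536870912 536870912 0 536870912 3) ndB0q1 ndB2q2a pcB3 Cut.none Ext.none)

def k0_mm_123_a : ∃ t, chk3 f_mm_123_a t 1 1 1 = true :=
  ⟨(l 4), by decide +kernel⟩

theorem c_mm_123_a : CertB 536870912 536870912 0 536870912 780900216 37827925 3 eng mog cd0q1 cd2q2a pd3 true false false .npn 1 2 3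
    ndB0q1 ndB2q2a pcB3 Cut.none Ext.none :=
  certB0 (fam := true) (s1 := false) (s2 := false) (a := 1) (b := 2) (c := 3) (cn := .npn) (n1 := ndB0q1) (n2 := ndB2q2a) (pc := pcB3) (cut := Cut.none) (xt := Ext.none) (P1 := 536870912) (W1 := 536870912) (P2 := 0) (W2 := 536870912) (P3 := 780900216) (W3 := 37827925) (N0 := 3) (En := eng) (mo := mog) (C1 := cd0q1) (C2 := cd2q2a) (C3 := pd3)
    rfl k0_mm_123_a

noncomputable def f_mm_123_b : ℕ → ℕ → ℕ → ℕ → Bool := onCell 536870912 536870912 1239849684 370763052 780900216 37827925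
    (rowB 3 eng mog cd0q1 cd2q2b pd3 0 true false false .npn 1 2 3 (qsf 536870912 536870912 1239849684 370763052 3) ndB0q1 ndB2q2b pcB3 Cut.none Ext.none)

def k0_mm_123_b : ∃ t, chk3 f_mm_123_b t 1 1 1 = true :=
  ⟨(l 4), by decide +kernel⟩

theorem c_mm_123_b : CertB 536870912 536870912 1239849684 370763052 780900216 37827925 3 eng mog cd0q1 cd2q2b pd3 true false false .npn 1 2 3
    ndB0q1 ndB2q2b pcB3 Cut.none Ext.none :=
  certB0 (fam := true) (s1 := false) (s2 := false) (a := 1) (b := 2) (c := 3) (cn := .npn) (n1 := ndB0q1) (n2 := ndB2q2b) (pc := pcB3) (cut := Cut.none) (xt := Ext.none) (P1 := 536870912) (W1 := 536870912) (P2 := 1239849684) (W2 := 370763052) (P3 := 780900216) (W3 := 37827925) (N0 := 3) (En := eng) (mo := mog) (C1 := cd0q1) (C2 := cd2q2b) (C3 := pd3)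
    rfl k0_mm_123_b

noncomputable def f_mm_133 : ℕ → ℕ → ℕ → ℕ → Bool := onCell 536870912 536870912 1610612736 536870912 780900216 37827925
    (rowB 3 eng mog cd0q1 cd2q3 pd3 0 true false false .dn 1 3 3 (qsf 536870912 536870912 1610612736 536870912 3) ndB0q1 ndB2q3 pcB3 Cut.none Ext.none)

def k0_mm_133 : ∃ t, chk3 f_mm_133 t 1 1 1 = true :=
  ⟨(l 4), by decide +kernel⟩

theorem c_mm_133 : CertB 536870912 536870912 1610612736 536870912 780900216 37827925 3 eng mog cd0q1 cd2q3 pd3 true false false .dn 1 3 3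
    ndB0q1 ndB2q3 pcB3 Cut.none Ext.none :=
  certB0 (fam := true) (s1 := false) (s2 := false) (a := 1) (b := 3) (c := 3) (cn := .dn) (n1 := ndB0q1) (n2 := ndB2q3) (pc := pcB3) (cut := Cut.none) (xt := Ext.none) (P1 := 536870912) (W1 := 536870912) (P2 := 1610612736) (W2 := 536870912) (P3 := 780900216) (W3 := 37827925) (N0 := 3) (En := eng) (mo := mog) (C1 := cd0q1) (C2 := cd2q3) (C3 := pd3)
    rfl k0_mm_133

noncomputable def cut_mm_202 : Cut := Cut.of [[⟨0, 1, 0, 67108864⟩, ⟨1, 0, 0, 67108864⟩, ⟨2, 1, 0, 67108864⟩]]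

noncomputable def f_mm_202 : ℕ → ℕ → ℕ → ℕ → Bool := onCell 0 536870912 0 536870912 780900216 37827925
    (rowB 3 eng mog cd0q2 cd2q0 pd2 0 true false false .pp 2 0 2 (qsf 0 536870912 0 536870912 2) ndB0q2 ndB2q0 pcB2 cut_mm_202 Ext.none)

def k0_mm_202 : ∃ t, chk3 f_mm_202 t 2 2 1 = true :=
  ⟨(b (a (b (b (a (b (a (l 16393296) (l 16402280)) (l 16329880)) (b (l 16327160) (l 16439928))) (a (l 16438632) (l 16465976))) (b (a (l 16470624) (l 16498376)) (l 16515016))) (b (b (a (b (a (l 16442296) (l 16457728)) (l 16472720)) (b (a (l 16475320) (a (l 16490112) (l 16500576))) (a (l 16501376) (l 16522984)))) (a (l 16500760) (b (l 16534960) (l 16545136)))) (b (a (l 16529624) (l 16593816)) (a (l 16541816) (l 16565416))))) (a (b (b (l 16531848) (l 16544024)) (a (l 16559792) (l 16576144))) (b (a (b (l 16556344) (l 16572448)) (b (l 16583176) (l 16604592))) (b (a (l 16528200) (l 40499551095)) (a (l 16511648) (l 4)))))), by decide +kernel⟩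

def k1_mm_202 : ∃ t, chk3 f_mm_202 t 6 4 1 = true :=
  ⟨(b (b (a (b (b (a (a (l 16503816) (l 16514392)) (a (l 16525288) (b (l 16533032) (l 16540688)))) (a (l 16523744) (a (l 16540240) (l 16552040)))) (a (l 16544992) (b (l 16539960) (l 16575296)))) (b (a (b (a (b (a (l 16542168) (l 16548552)) (l 16553136)) (b (a (l 16555160) (l 16561952)) (l 16566448))) (a (l 16564656) (l 16578128))) (b (a (b (b (a (l 16566872) (l 16573944)) (l 16595408)) (l 16580432)) (b (a (b (l 16581200) (l 16585264)) (b (l 16588680) (l 16592768))) (l 16605600))) (a (l 16581800) (b (l 16603152) (l 16611104))))) (a (a (l 16587192) (l 16601024)) (b (a (l 16607808) (l 16622912)) (l 16630760))))) (a (b (a (l 16567080) (l 16590328)) (a (l 16568840) (l 16590864))) (a (b (l 16616776) (l 16616624)) (b (l 16645880) (l 16645872))))) (a (b (a (l 16575488) (l 16575920)) (c (l 16645224) (l 16619928))) (b (a (l 16642448) (b (b (l 16647104) (l 16628248)) (l 53384679927))) (a (l 16683936) (l 4))))), by decide +kernel⟩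

def k2_mm_202 : ∃ t, chk3 f_mm_202 t 7 4 1 = true :=
  ⟨(b (a (b (a (a (c (b (b (b (a (l 16599480) (l 16607472)) (l 16611576)) (l 16623616)) (l 16647136)) (b (b (b (a (l 16597504) (l 16605568)) (l 16609864)) (l 16622256)) (l 16646568))) (b (b (b (a (b (c (l 16613968) (l 16612104)) (l 16617192)) (b (l 6) (l 16626520))) (a (l 16623432) (l 16632800))) (b (l 16636352) (l 16644536))) (b (l 16635712) (l 16672568)))) (b (b (a (b (l 6) (a (l 16642816) (l 6))) (l 6)) (a (a (l 16655296) (l 16634536)) (a (l 16645816) (l 6)))) (b (a (l 16677000) (l 16699704)) (a (l 16693040) (l 16713344))))) (a (b (b (l 16677616) (l 16677344)) (l 16678800)) (b (a (l 16699688) (l 16716176)) (a (l 16706744) (l 4))))) (b (a (b (l 6) (a (b (l 6) (l 16727448)) (l 6))) (l 6)) (a (b (b (a (l 16732136) (l 4)) (l 4)) (l 4)) (l 4)))) (a (b (a (b (l 16687192) (l 4)) (l 4)) (l 4)) (l 4))), by decide +kernel⟩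

def k3_mm_202 : ∃ t, chk3 f_mm_202 t 3 5 1 = true :=
  ⟨(a (b (a (b (b (l 16493056) (l 70564406727)) (l 4)) (l 4)) (l 4)) (l 4)), by decide +kernel⟩

def k4_mm_202 : ∃ t, chk3 f_mm_202 t 1 3 1 = true :=
  ⟨(a (b (b (a (a (l 16597760) (b (l 16609128) (l 16634344))) (a (l 4) (l 4))) (a (a (l 16640680) (l 4)) (l 4))) (l 4)) (l 4)), by decide +kernel⟩

theorem s5_mm_202 : ∃ t, chk3 f_mm_202 t 3 4 1 = true := ex3_a k1_mm_202 k2_mm_202

theorem s6_mm_202 : ∃ t, chk3 f_mm_202 t 3 2 1 = true := ex3_b s5_mm_202 k3_mm_202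

theorem s7_mm_202 : ∃ t, chk3 f_mm_202 t 1 2 1 = true := ex3_a k0_mm_202 s6_mm_202

theorem s8_mm_202 : ∃ t, chk3 f_mm_202 t 1 1 1 = true := ex3_b s7_mm_202 k4_mm_202

theorem c_mm_202 : CertB 0 536870912 0 536870912 780900216 37827925 3 eng mog cd0q2 cd2q0 pd2 true false false .pp 2 0 2
    ndB0q2 ndB2q0 pcB2 cut_mm_202 Ext.none :=
  certB0 (fam := true) (s1 := false) (s2 := false) (a := 2) (b := 0) (c := 2) (cn := .pp) (n1 := ndB0q2) (n2 := ndB2q0) (pc := pcB2) (cut := cut_mm_202) (xt := Ext.none) (P1 := 0) (W1 := 536870912) (P2 := 0) (W2 := 536870912) (P3 := 780900216) (W3 := 37827925) (N0 := 3) (En := eng) (mo := mog) (C1 := cd0q2) (C2 := cd2q0) (C3 := pd2)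
    rfl s8_mm_202

noncomputable def f_mm_203 : ℕ → ℕ → ℕ → ℕ → Bool := onCell 0 536870912 0 536870912 780900216 37827925
    (rowB 3 eng mog cd0q2 cd2q0 pd3 0 true false false .up 2 0 3 (qsf 0 536870912 0 536870912 3) ndB0q2 ndB2q0 pcB3 Cut.none Ext.none)

def k0_mm_203 : ∃ t, chk3 f_mm_203 t 1 1 1 = true :=
  ⟨(b (l 1) (a (b (b (l 1) (a (a (l 16746648) (l 4)) (l 4))) (l 4)) (l 4))), by decide +kernel⟩

theorem c_mm_203 : CertB 0 536870912 0 536870912 780900216 37827925 3 eng mog cd0q2 cd2q0 pd3 true false false .up 2 0 3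
    ndB0q2 ndB2q0 pcB3 Cut.none Ext.none :=
  certB0 (fam := true) (s1 := false) (s2 := false) (a := 2) (b := 0) (c := 3) (cn := .up) (n1 := ndB0q2) (n2 := ndB2q0) (pc := pcB3) (cut := Cut.none) (xt := Ext.none) (P1 := 0) (W1 := 536870912) (P2 := 0) (W2 := 536870912) (P3 := 780900216) (W3 := 37827925) (N0 := 3) (En := eng) (mo := mog) (C1 := cd0q2) (C2 := cd2q0) (C3 := pd3)
    rfl k0_mm_203

noncomputable def f_mm_213 : ℕ → ℕ → ℕ → ℕ → Bool := onCell 0 536870912 536870912 536870912 780900216 37827925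
    (rowB 3 eng mog cd0q2 cd2q1 pd3 0 true false false .pnn 2 1 3 (qsf 0 536870912 536870912 536870912 3) ndB0q2 ndB2q1 pcB3 Cut.none Ext.none)

def k0_mm_213 : ∃ t, chk3 f_mm_213 t 1 1 1 = true :=
  ⟨(l 4), by decide +kernel⟩

theorem c_mm_213 : CertB 0 536870912 536870912 536870912 780900216 37827925 3 eng mog cd0q2 cd2q1 pd3 true false false .pnn 2 1 3
    ndB0q2 ndB2q1 pcB3 Cut.none Ext.none :=
  certB0 (fam := true) (s1 := false) (s2 := false) (a := 2) (b := 1) (c := 3) (cn := .pnn) (n1 := ndB0q2) (n2 := ndB2q1) (pc := pcB3) (cut := Cut.none) (xt := Ext.none) (P1 := 0) (W1 := 536870912) (P2 := 536870912) (W2 := 536870912) (P3 := 780900216) (W3 := 37827925) (N0 := 3) (En := eng) (mo := mog) (C1 := cd0q2) (C2 := cd2q1) (C3 := pd3)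
    rfl k0_mm_213

end Pool.Agent.Strip051.G.I72727_7625.Tab.C.BA02

namespace Pool.Agent.Strip051.G.I72727_7625.Tab.C.BA03

open Pool.Agent.Strip051.PB Pool.Agent.Strip051.PB.T
open Pool.Agent.Strip051.G.I72727_7625.Tab

noncomputable def f_pp_001 : ℕ → ℕ → ℕ → ℕ → Bool := onCell 0 536870912 0 536870912 780900216 37827925
    (rowB 3 eng mog cd0q0 cd3q0 pd1 0 true true true .up 0 0 1 (qsf 0 536870912 0 536870912 1) ndB0q0 ndB3q0 pcB1 Cut.none Ext.none)

def k0_pp_001 : ∃ t, chk3 f_pp_001 t 1 1 1 = true :=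
  ⟨(l 4), by decide +kernel⟩

theorem c_pp_001 : CertB 0 536870912 0 536870912 780900216 37827925 3 eng mog cd0q0 cd3q0 pd1 true true true .up 0 0 1
    ndB0q0 ndB3q0 pcB1 Cut.none Ext.none :=
  certB0 (fam := true) (s1 := true) (s2 := true) (a := 0) (b := 0) (c := 1) (cn := .up) (n1 := ndB0q0) (n2 := ndB3q0) (pc := pcB1) (cut := Cut.none) (xt := Ext.none) (P1 := 0) (W1 := 536870912) (P2 := 0) (W2 := 536870912) (P3 := 780900216) (W3 := 37827925) (N0 := 3) (En := eng) (mo := mog) (C1 := cd0q0) (C2 := cd3q0) (C3 := pd1)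
    rfl k0_pp_001

noncomputable def f_pp_011 : ℕ → ℕ → ℕ → ℕ → Bool := onCell 0 536870912 536870912 536870912 780900216 37827925
    (rowB 3 eng mog cd0q0 cd3q1 pd1 0 true true true .pnn 0 1 1 (qsf 0 536870912 536870912 536870912 1) ndB0q0 ndB3q1 pcB1 Cut.none Ext.none)

def k0_pp_011 : ∃ t, chk3 f_pp_011 t 1 1 1 = true :=
  ⟨(l 4), by decide +kernel⟩

theorem c_pp_011 : CertB 0 536870912 536870912 536870912 780900216 37827925 3 eng mog cd0q0 cd3q1 pd1 true true true .pnn 0 1 1
    ndB0q0 ndB3q1 pcB1 Cut.none Ext.none :=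
  certB0 (fam := true) (s1 := true) (s2 := true) (a := 0) (b := 1) (c := 1) (cn := .pnn) (n1 := ndB0q0) (n2 := ndB3q1) (pc := pcB1) (cut := Cut.none) (xt := Ext.none) (P1 := 0) (W1 := 536870912) (P2 := 536870912) (W2 := 536870912) (P3 := 780900216) (W3 := 37827925) (N0 := 3) (En := eng) (mo := mog) (C1 := cd0q0) (C2 := cd3q1) (C3 := pd1)
    rfl k0_pp_011

noncomputable def f_pp_012 : ℕ → ℕ → ℕ → ℕ → Bool := onCell 0 536870912 536870912 536870912 780900216 37827925
    (rowB 3 eng mog cd0q0 cd3q1 pd2 0 true true true .pnp 0 1 2 (qsf 0 536870912 536870912 536870912 2) ndB0q0 ndB3q1 pcB2 Cut.none Ext.none)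

def k0_pp_012 : ∃ t, chk3 f_pp_012 t 1 1 1 = true :=
  ⟨(l 4), by decide +kernel⟩

theorem c_pp_012 : CertB 0 536870912 536870912 536870912 780900216 37827925 3 eng mog cd0q0 cd3q1 pd2 true true true .pnp 0 1 2
    ndB0q0 ndB3q1 pcB2 Cut.none Ext.none :=
  certB0 (fam := true) (s1 := true) (s2 := true) (a := 0) (b := 1) (c := 2) (cn := .pnp) (n1 := ndB0q0) (n2 := ndB3q1) (pc := pcB2) (cut := Cut.none) (xt := Ext.none) (P1 := 0) (W1 := 536870912) (P2 := 536870912) (W2 := 536870912) (P3 := 780900216) (W3 := 37827925) (N0 := 3) (En := eng) (mo := mog) (C1 := cd0q0) (C2 := cd3q1) (C3 := pd2)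
    rfl k0_pp_012

noncomputable def f_pp_022 : ℕ → ℕ → ℕ → ℕ → Bool := onCell 0 536870912 1073741824 536870912 780900216 37827925
    (rowB 3 eng mog cd0q0 cd3q2 pd2 0 true true true .pp 0 2 2 (qsf 0 536870912 1073741824 536870912 2) ndB0q0 ndB3q2 pcB2 Cut.none Ext.none)

def k0_pp_022 : ∃ t, chk3 f_pp_022 t 1 1 1 = true :=
  ⟨(l 4), by decide +kernel⟩

theorem c_pp_022 : CertB 0 536870912 1073741824 536870912 780900216 37827925 3 eng mog cd0q0 cd3q2 pd2 true true true .pp 0 2 2
    ndB0q0 ndB3q2 pcB2 Cut.none Ext.none :=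
  certB0 (fam := true) (s1 := true) (s2 := true) (a := 0) (b := 2) (c := 2) (cn := .pp) (n1 := ndB0q0) (n2 := ndB3q2) (pc := pcB2) (cut := Cut.none) (xt := Ext.none) (P1 := 0) (W1 := 536870912) (P2 := 1073741824) (W2 := 536870912) (P3 := 780900216) (W3 := 37827925) (N0 := 3) (En := eng) (mo := mog) (C1 := cd0q0) (C2 := cd3q2) (C3 := pd2)
    rfl k0_pp_022

noncomputable def f_pp_023 : ℕ → ℕ → ℕ → ℕ → Bool := onCell 0 536870912 1073741824 536870912 780900216 37827925
    (rowB 3 eng mog cd0q0 cd3q2 pd3 0 true true true .up 0 2 3 (qsf 0 536870912 1073741824 536870912 3) ndB0q0 ndB3q2 pcB3 Cut.none Ext.none)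

def k0_pp_023 : ∃ t, chk3 f_pp_023 t 1 1 1 = true :=
  ⟨(l 4), by decide +kernel⟩

theorem c_pp_023 : CertB 0 536870912 1073741824 536870912 780900216 37827925 3 eng mog cd0q0 cd3q2 pd3 true true true .up 0 2 3
    ndB0q0 ndB3q2 pcB3 Cut.none Ext.none :=
  certB0 (fam := true) (s1 := true) (s2 := true) (a := 0) (b := 2) (c := 3) (cn := .up) (n1 := ndB0q0) (n2 := ndB3q2) (pc := pcB3) (cut := Cut.none) (xt := Ext.none) (P1 := 0) (W1 := 536870912) (P2 := 1073741824) (W2 := 536870912) (P3 := 780900216) (W3 := 37827925) (N0 := 3) (En := eng) (mo := mog) (C1 := cd0q0) (C2 := cd3q2) (C3 := pd3)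
    rfl k0_pp_023

noncomputable def f_pp_033 : ℕ → ℕ → ℕ → ℕ → Bool := onCell 0 536870912 0 1230186008 780900216 37827925
    (rowB 3 eng mog cd0q0 cd3q3 pd3 0 true true true .pnn 0 3 3 (qsf 0 536870912 0 1230186008 3) ndB0q0 ndB3q3 pcB3 Cut.none Ext.none)

def k0_pp_033 : ∃ t, chk3 f_pp_033 t 1 1 1 = true :=
  ⟨(b (l 4) (l 4)), by decide +kernel⟩

theorem c_pp_033 : CertB 0 536870912 0 1230186008 780900216 37827925 3 eng mog cd0q0 cd3q3 pd3 true true true .pnn 0 3 3
    ndB0q0 ndB3q3 pcB3 Cut.none Ext.none :=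
  certB0 (fam := true) (s1 := true) (s2 := true) (a := 0) (b := 3) (c := 3) (cn := .pnn) (n1 := ndB0q0) (n2 := ndB3q3) (pc := pcB3) (cut := Cut.none) (xt := Ext.none) (P1 := 0) (W1 := 536870912) (P2 := 0) (W2 := 1230186008) (P3 := 780900216) (W3 := 37827925) (N0 := 3) (En := eng) (mo := mog) (C1 := cd0q0) (C2 := cd3q3) (C3 := pd3)
    rfl k0_pp_033

noncomputable def f_pp_101 : ℕ → ℕ → ℕ → ℕ → Bool := onCell 536870912 536870912 0 536870912 780900216 37827925
    (rowB 3 eng mog cd0q1 cd3q0 pd1 0 true true true .npn 1 0 1 (qsf 536870912 536870912 0 536870912 1) ndB0q1 ndB3q0 pcB1 Cut.none Ext.none)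

def k0_pp_101 : ∃ t, chk3 f_pp_101 t 1 1 1 = true :=
  ⟨(l 4), by decide +kernel⟩

theorem c_pp_101 : CertB 536870912 536870912 0 536870912 780900216 37827925 3 eng mog cd0q1 cd3q0 pd1 true true true .npn 1 0 1
    ndB0q1 ndB3q0 pcB1 Cut.none Ext.none :=
  certB0 (fam := true) (s1 := true) (s2 := true) (a := 1) (b := 0) (c := 1) (cn := .npn) (n1 := ndB0q1) (n2 := ndB3q0) (pc := pcB1) (cut := Cut.none) (xt := Ext.none) (P1 := 536870912) (W1 := 536870912) (P2 := 0) (W2 := 536870912) (P3 := 780900216) (W3 := 37827925) (N0 := 3) (En := eng) (mo := mog) (C1 := cd0q1) (C2 := cd3q0) (C3 := pd1)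
    rfl k0_pp_101

noncomputable def f_pp_102 : ℕ → ℕ → ℕ → ℕ → Bool := onCell 536870912 536870912 0 536870912 780900216 37827925
    (rowB 3 eng mog cd0q1 cd3q0 pd2 0 true true true .npp 1 0 2 (qsf 536870912 536870912 0 536870912 2) ndB0q1 ndB3q0 pcB2 Cut.none Ext.none)

def k0_pp_102 : ∃ t, chk3 f_pp_102 t 1 1 1 = true :=
  ⟨(l 4), by decide +kernel⟩

theorem c_pp_102 : CertB 536870912 536870912 0 536870912 780900216 37827925 3 eng mog cd0q1 cd3q0 pd2 true true true .npp 1 0 2
    ndB0q1 ndB3q0 pcB2 Cut.none Ext.none :=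
  certB0 (fam := true) (s1 := true) (s2 := true) (a := 1) (b := 0) (c := 2) (cn := .npp) (n1 := ndB0q1) (n2 := ndB3q0) (pc := pcB2) (cut := Cut.none) (xt := Ext.none) (P1 := 536870912) (W1 := 536870912) (P2 := 0) (W2 := 536870912) (P3 := 780900216) (W3 := 37827925) (N0 := 3) (En := eng) (mo := mog) (C1 := cd0q1) (C2 := cd3q0) (C3 := pd2)
    rfl k0_pp_102

noncomputable def f_pp_112 : ℕ → ℕ → ℕ → ℕ → Bool := onCell 536870912 536870912 536870912 536870912 780900216 37827925
    (rowB 3 eng mog cd0q1 cd3q1 pd2 0 true true true .dn 1 1 2 (qsf 536870912 536870912 536870912 536870912 2) ndB0q1 ndB3q1 pcB2 Cut.none Ext.none)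

def k0_pp_112 : ∃ t, chk3 f_pp_112 t 1 1 1 = true :=
  ⟨(l 4), by decide +kernel⟩

theorem c_pp_112 : CertB 536870912 536870912 536870912 536870912 780900216 37827925 3 eng mog cd0q1 cd3q1 pd2 true true true .dn 1 1 2
    ndB0q1 ndB3q1 pcB2 Cut.none Ext.none :=
  certB0 (fam := true) (s1 := true) (s2 := true) (a := 1) (b := 1) (c := 2) (cn := .dn) (n1 := ndB0q1) (n2 := ndB3q1) (pc := pcB2) (cut := Cut.none) (xt := Ext.none) (P1 := 536870912) (W1 := 536870912) (P2 := 536870912) (W2 := 536870912) (P3 := 780900216) (W3 := 37827925) (N0 := 3) (En := eng) (mo := mog) (C1 := cd0q1) (C2 := cd3q1) (C3 := pd2)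
    rfl k0_pp_112

noncomputable def f_pp_113 : ℕ → ℕ → ℕ → ℕ → Bool := onCell 536870912 536870912 536870912 536870912 780900216 37827925
    (rowB 3 eng mog cd0q1 cd3q1 pd3 0 true true true .nn 1 1 3 (qsf 536870912 536870912 536870912 536870912 3) ndB0q1 ndB3q1 pcB3 Cut.none Ext.none)

def k0_pp_113 : ∃ t, chk3 f_pp_113 t 1 1 1 = true :=
  ⟨(l 4), by decide +kernel⟩

theorem c_pp_113 : CertB 536870912 536870912 536870912 536870912 780900216 37827925 3 eng mog cd0q1 cd3q1 pd3 true true true .nn 1 1 3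
    ndB0q1 ndB3q1 pcB3 Cut.none Ext.none :=
  certB0 (fam := true) (s1 := true) (s2 := true) (a := 1) (b := 1) (c := 3) (cn := .nn) (n1 := ndB0q1) (n2 := ndB3q1) (pc := pcB3) (cut := Cut.none) (xt := Ext.none) (P1 := 536870912) (W1 := 536870912) (P2 := 536870912) (W2 := 536870912) (P3 := 780900216) (W3 := 37827925) (N0 := 3) (En := eng) (mo := mog) (C1 := cd0q1) (C2 := cd3q1) (C3 := pd3)
    rfl k0_pp_113

noncomputable def f_pp_123 : ℕ → ℕ → ℕ → ℕ → Bool := onCell 536870912 536870912 1073741824 536870912 780900216 37827925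
    (rowB 3 eng mog cd0q1 cd3q2 pd3 0 true true true .npn 1 2 3 (qsf 536870912 536870912 1073741824 536870912 3) ndB0q1 ndB3q2 pcB3 Cut.none Ext.none)

def k0_pp_123 : ∃ t, chk3 f_pp_123 t 1 1 1 = true :=
  ⟨(l 4), by decide +kernel⟩

theorem c_pp_123 : CertB 536870912 536870912 1073741824 536870912 780900216 37827925 3 eng mog cd0q1 cd3q2 pd3 true true true .npn 1 2 3
    ndB0q1 ndB3q2 pcB3 Cut.none Ext.none :=
  certB0 (fam := true) (s1 := true) (s2 := true) (a := 1) (b := 2) (c := 3) (cn := .npn) (n1 := ndB0q1) (n2 := ndB3q2) (pc := pcB3) (cut := Cut.none) (xt := Ext.none) (P1 := 536870912) (W1 := 536870912) (P2 := 1073741824) (W2 := 536870912) (P3 := 780900216) (W3 := 37827925) (N0 := 3) (En := eng) (mo := mog) (C1 := cd0q1) (C2 := cd3q2) (C3 := pd3)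
    rfl k0_pp_123

noncomputable def f_pp_133 : ℕ → ℕ → ℕ → ℕ → Bool := onCell 536870912 536870912 0 1230186008 780900216 37827925
    (rowB 3 eng mog cd0q1 cd3q3 pd3 0 true true true .dn 1 3 3 (qsf 536870912 536870912 0 1230186008 3) ndB0q1 ndB3q3 pcB3 Cut.none Ext.none)

def k0_pp_133 : ∃ t, chk3 f_pp_133 t 1 1 1 = true :=
  ⟨(l 4), by decide +kernel⟩

theorem c_pp_133 : CertB 536870912 536870912 0 1230186008 780900216 37827925 3 eng mog cd0q1 cd3q3 pd3 true true true .dn 1 3 3
    ndB0q1 ndB3q3 pcB3 Cut.none Ext.none :=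
  certB0 (fam := true) (s1 := true) (s2 := true) (a := 1) (b := 3) (c := 3) (cn := .dn) (n1 := ndB0q1) (n2 := ndB3q3) (pc := pcB3) (cut := Cut.none) (xt := Ext.none) (P1 := 536870912) (W1 := 536870912) (P2 := 0) (W2 := 1230186008) (P3 := 780900216) (W3 := 37827925) (N0 := 3) (En := eng) (mo := mog) (C1 := cd0q1) (C2 := cd3q3) (C3 := pd3)
    rfl k0_pp_133

noncomputable def f_pp_202 : ℕ → ℕ → ℕ → ℕ → Bool := onCell 0 536870912 0 536870912 780900216 37827925
    (rowB 3 eng mog cd0q2 cd3q0 pd2 0 true true true .pp 2 0 2 (qsf 0 536870912 0 536870912 2) ndB0q2 ndB3q0 pcB2 Cut.none Ext.none)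

def k0_pp_202 : ∃ t, chk3 f_pp_202 t 1 1 1 = true :=
  ⟨(l 5), by decide +kernel⟩

theorem c_pp_202 : CertB 0 536870912 0 536870912 780900216 37827925 3 eng mog cd0q2 cd3q0 pd2 true true true .pp 2 0 2
    ndB0q2 ndB3q0 pcB2 Cut.none Ext.none :=
  certB0 (fam := true) (s1 := true) (s2 := true) (a := 2) (b := 0) (c := 2) (cn := .pp) (n1 := ndB0q2) (n2 := ndB3q0) (pc := pcB2) (cut := Cut.none) (xt := Ext.none) (P1 := 0) (W1 := 536870912) (P2 := 0) (W2 := 536870912) (P3 := 780900216) (W3 := 37827925) (N0 := 3) (En := eng) (mo := mog) (C1 := cd0q2) (C2 := cd3q0) (C3 := pd2)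
    rfl k0_pp_202

noncomputable def f_pp_203 : ℕ → ℕ → ℕ → ℕ → Bool := onCell 0 536870912 0 536870912 780900216 37827925
    (rowB 3 eng mog cd0q2 cd3q0 pd3 0 true true true .up 2 0 3 (qsf 0 536870912 0 536870912 3) ndB0q2 ndB3q0 pcB3 Cut.none Ext.none)

def k0_pp_203 : ∃ t, chk3 f_pp_203 t 1 1 1 = true :=
  ⟨(l 5), by decide +kernel⟩

theorem c_pp_203 : CertB 0 536870912 0 536870912 780900216 37827925 3 eng mog cd0q2 cd3q0 pd3 true true true .up 2 0 3
    ndB0q2 ndB3q0 pcB3 Cut.none Ext.none :=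
  certB0 (fam := true) (s1 := true) (s2 := true) (a := 2) (b := 0) (c := 3) (cn := .up) (n1 := ndB0q2) (n2 := ndB3q0) (pc := pcB3) (cut := Cut.none) (xt := Ext.none) (P1 := 0) (W1 := 536870912) (P2 := 0) (W2 := 536870912) (P3 := 780900216) (W3 := 37827925) (N0 := 3) (En := eng) (mo := mog) (C1 := cd0q2) (C2 := cd3q0) (C3 := pd3)
    rfl k0_pp_203

noncomputable def f_pp_213 : ℕ → ℕ → ℕ → ℕ → Bool := onCell 0 536870912 536870912 536870912 780900216 37827925
    (rowB 3 eng mog cd0q2 cd3q1 pd3 0 true true true .pnn 2 1 3 (qsf 0 536870912 536870912 536870912 3) ndB0q2 ndB3q1 pcB3 Cut.none Ext.none)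

def k0_pp_213 : ∃ t, chk3 f_pp_213 t 1 1 1 = true :=
  ⟨(l 4), by decide +kernel⟩

theorem c_pp_213 : CertB 0 536870912 536870912 536870912 780900216 37827925 3 eng mog cd0q2 cd3q1 pd3 true true true .pnn 2 1 3
    ndB0q2 ndB3q1 pcB3 Cut.none Ext.none :=
  certB0 (fam := true) (s1 := true) (s2 := true) (a := 2) (b := 1) (c := 3) (cn := .pnn) (n1 := ndB0q2) (n2 := ndB3q1) (pc := pcB3) (cut := Cut.none) (xt := Ext.none) (P1 := 0) (W1 := 536870912) (P2 := 536870912) (W2 := 536870912) (P3 := 780900216) (W3 := 37827925) (N0 := 3) (En := eng) (mo := mog) (C1 := cd0q2) (C2 := cd3q1) (C3 := pd3)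
    rfl k0_pp_213

noncomputable def f_pm_001 : ℕ → ℕ → ℕ → ℕ → Bool := onCell 0 536870912 0 536870912 780900216 37827925
    (rowB 3 eng mog cd0q0 cd3q0 pd1 0 true true false .up 0 0 1 (qsf 0 536870912 0 536870912 1) ndB0q0 ndB3q0 pcB1 Cut.none Ext.none)

def k0_pm_001 : ∃ t, chk3 f_pm_001 t 1 1 1 = true :=
  ⟨(a (l 3) (b (l 3) (b (l 3) (a (l 3) (a (l 3) (b (l 3) (a (l 3) (b (b (l 3) (a (l 3) (l 36674257783))) (a (b (l 88213883543) (a (l 16323928) (l 16299784))) (b (l 59222766039) (l 16265480))))))))))), by decide +kernel⟩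

theorem c_pm_001 : CertB 0 536870912 0 536870912 780900216 37827925 3 eng mog cd0q0 cd3q0 pd1 true true false .up 0 0 1
    ndB0q0 ndB3q0 pcB1 Cut.none Ext.none :=
  certB0 (fam := true) (s1 := true) (s2 := false) (a := 0) (b := 0) (c := 1) (cn := .up) (n1 := ndB0q0) (n2 := ndB3q0) (pc := pcB1) (cut := Cut.none) (xt := Ext.none) (P1 := 0) (W1 := 536870912) (P2 := 0) (W2 := 536870912) (P3 := 780900216) (W3 := 37827925) (N0 := 3) (En := eng) (mo := mog) (C1 := cd0q0) (C2 := cd3q0) (C3 := pd1)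
    rfl k0_pm_001

noncomputable def cut_pm_011 : Cut := Cut.of [[⟨0, 0, 0, 67108864⟩, ⟨1, 1, 0, 67108864⟩, ⟨2, 1, 0, 67108864⟩]]

noncomputable def f_pm_011 : ℕ → ℕ → ℕ → ℕ → Bool := onCell 0 536870912 536870912 536870912 780900216 37827925
    (rowB 3 eng mog cd0q0 cd3q1 pd1 1 true true false .pnn 0 1 1 (qsf 0 536870912 536870912 536870912 1) ndB0q0 ndB3q1 pcB1 cut_pm_011 Ext.none)

def k0_pm_011 : ∃ t, chk3 f_pm_011 t 1 2 1 = true :=
  ⟨(l 3), by decide +kernel⟩

def k1_pm_011 : ∃ t, chk3 f_pm_011 t 2 3 1 = true :=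
  ⟨(b (l 3) (a (b (l 3) (a (b (l 3) (b (l 3) (a (l 6) (b (l 3) (a (l 6) (b (a (l 3) (b (l 3) (a (l 64055291191) (l 87140728471)))) (a (l 6) (b (c (l 16704584) (l 16714368)) (l 16700704))))))))) (b (l 3) (b (l 3) (b (a (l 3) (a (l 3) (b (l 3) (a (l 73181959063) (l 82308751223))))) (a (a (a (b (b (l 3) (l 103246834375)) (b (l 16692904) (l 16689544))) (b (b (l 3) (l 16695368)) (l 16679696))) (b (a (b (l 16677344) (l 16673360)) (b (l 16665864) (l 16662056))) (a (l 16668208) (l 16656888)))) (b (a (a (l 110762957335) (l 16663240)) (a (l 16631928) (l 16621856))) (a (l 16661480) (l 16619912))))))))) (b (l 3) (a (b (l 3) (b (l 3) (a (b (b (l 3) (a (a (l 90361804903) (l 103783560327)) (a (l 117205315991) (l 16593952)))) (a (b (l 16628640) (l 16600776)) (b (l 16590736) (l 16583832)))) (b (a (b (l 86066793511) (l 139753869031)) (b (l 77476828599) (l 16566744))) (a (l 16571664) (l 16556296)))))) (b (l 3) (a (b (l 3) (b (a (b (l 16579840) (l 16551416)) (l 130090121831)) (a (l 16540984) (l 16525552))))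 (b (b (l 3) (a (l 98951607159) (l 16545488))) (b (a (l 16524056) (l 16508792)) (l 16523432))))))))), by decide +kernel⟩

def k2_pm_011 : ∃ t, chk3 f_pm_011 t 3 3 1 = true :=
  ⟨(b (l 3) (a (b (l 3) (b (l 3) (b (b (a (l 3) (a (l 3) (l 16469120))) (a (a (a (l 16509056) (l 16493712)) (a (l 16478264) (l 16462496))) (a (a (l 16446416) (l 16430064)) (l 16426648)))) (a (a (a (l 16507656) (l 16471704)) (c (l 16493264) (l 16467232))) (a (a (l 16425048) (l 16408712)) (l 16426152)))))) (b (l 3) (a (b (l 3) (b (a (c (l 16384648) (l 16378672)) (c (l 16352736) (l 16346952))) (a (c (l 16355312) (l 16348880)) (l 16320624)))) (b (a (l 3) (b (l 1) (l 16339480))) (a (b (l 95193044823) (l 16288960)) (b (l 16285496) (l 16256648)))))))), by decide +kernel⟩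

theorem s3_pm_011 : ∃ t, chk3 f_pm_011 t 1 3 1 = true := ex3_a k1_pm_011 k2_pm_011

theorem s4_pm_011 : ∃ t, chk3 f_pm_011 t 1 1 1 = true := ex3_b k0_pm_011 s3_pm_011

theorem c_pm_011 : CertB 0 536870912 536870912 536870912 780900216 37827925 3 eng mog cd0q0 cd3q1 pd1 true true false .pnn 0 1 1
    ndB0q0 ndB3q1 pcB1 cut_pm_011 Ext.none :=
  certB1 (fam := true) (s1 := true) (s2 := false) (a := 0) (b := 1) (c := 1) (cn := .pnn) (n1 := ndB0q0) (n2 := ndB3q1) (pc := pcB1) (cut := cut_pm_011) (xt := Ext.none) (P1 := 0) (W1 := 536870912) (P2 := 536870912) (W2 := 536870912) (P3 := 780900216) (W3 := 37827925) (N0 := 3) (En := eng) (mo := mog) (C1 := cd0q0) (C2 := cd3q1) (C3 := pd1)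
    rfl (fun _ => rfl) s4_pm_011

noncomputable def cut_pm_012 : Cut := Cut.of [[⟨0, 0, 0, 67108864⟩, ⟨1, 1, 0, 67108864⟩, ⟨2, 1, 0, 67108864⟩]]

noncomputable def f_pm_012 : ℕ → ℕ → ℕ → ℕ → Bool := onCell 1073741824 536870912 536870912 536870912 780900216 37827925
    (rowB 3 eng mog cd0q0 cd3q1 pd2 2 true true false .pnp 0 1 2 (qsf 0 536870912 536870912 536870912 2) ndB0q0 ndB3q1 pcB2 cut_pm_012 Ext.none)

def k0_pm_012 : ∃ t, chk3 f_pm_012 t 4 2 1 = true :=
  ⟨(b (a (c (b (a (b (l 16199112) (l 16234328)) (l 16209672)) (a (b (l 16284600) (a (l 16312520) (l 16292336))) (l 16299944))) (b (a (b (l 16195104) (l 16229856)) (l 16170600)) (a (b (l 16264104) (l 16297960)) (l 16282104)))) (b (a (l 16211864) (l 2)) (a (b (l 16171496) (l 16198384)) (b (l 16187400) (l 16208264))))) (a (b (a (b (a (c (l 16346320) (l 16339984)) (l 16325304)) (a (a (l 16381944) (l 16373888)) (l 16360208))) (a (l 16384168) (l 16285504))) (b (a (a (a (l 16437008) (l 16408496)) (l 16395080)) (l 16346824)) (a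 (a (a (l 16469328) (l 16441344)) (l 16428944)) (l 16416368)))) (b (a (b (l 16223904) (l 16248040)) (b (l 16248248) (l 16307584))) (a (b (a (l 16288344) (l 16251528)) (l 16289216)) (a (b (l 16214808) (l 16229632)) (l 16228656)))))), by decide +kernel⟩

def k1_pm_012 : ∃ t, chk3 f_pm_012 t 8 6 1 = true :=
  ⟨(b (b (a (a (a (l 16522104) (l 16473280)) (l 16461456)) (l 16464624)) (a (a (a (b (l 16504528) (l 16520856)) (b (l 16497648) (l 16513984))) (l 16493840)) (l 16491880))) (a (a (b (a (b (l 16537048) (l 16553232)) (b (l 16530320) (l 16546536))) (a (b (a (l 16571136) (l 16567896)) (a (l 16588688) (l 16585232))) (b (l 16562840) (l 16579536)))) (b (a (l 16530784) (l 16522168)) (a (l 16562992) (l 16554944)))) (a (b (l 16483584) (l 16510208)) (b (l 16364224) (b (l 16444368) (l 16455472)))))), by decide +kernel⟩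

def k2_pm_012 : ∃ t, chk3 f_pm_012 t 8 7 1 = true :=
  ⟨(b (a (b (b (a (a (a (l 16629368) (l 16604232)) (l 16597816)) (l 16584584)) (a (a (a (a (l 16630688) (l 16628408)) (l 16624936)) (l 16575848)) (l 16602824))) (a (a (b (a (a (l 16674456) (l 16651056)) (l 16647256)) (a (b (l 16670000) (l 16692456)) (b (l 16664896) (l 16676840)))) (b (l 16639528) (l 16662744))) (a (b (l 16628800) (l 16642176)) (l 16605584)))) (a (b (b (l 16529744) (l 16542032)) (b (l 16552696) (a (l 16576960) (l 16544752)))) (b (b (l 16466528) (l 16478040)) (b (l 16488312) (l 16496840))))) (a (b (a (a (b (a (b (a (l 16694704) (l 16692192)) (l 6)) (b (l 16688312) (l 16699296))) (l 6)) (b (l 16695024) (a (l 6) (l 16685544)))) (b (a (l 16650496) (a (l 16625336) (l 16608784))) (a (a (b (l 16665704) (l 6)) (l 16629632)) (b (l 16622944) (l 16626832))))) (a (l 6) (b (a (l 6) (b (l 16651648) (l 6))) (l 6)))) (b (a (b (a (l 16584176) (l 16551856)) (a (b (l 16589576) (l 16592960)) (l 16537408))) (b (a (l 16519784) (l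 16487976)) (a (l 16525968) (l 16494096)))) (a (b (a (b (l 16596328) (l 16620624)) (b (l 16562720) (l 16565576))) (b (a (l 6) (a (l 6) (l 16559856))) (l 6))) (b (a (b (l 16529856) (l 16532232)) (b (l 16497592) (l 16499624))) (b (a (l 16555552) (l 16501512)) (a (b (l 16536312) (l 6)) (a (l 16511672) (l 16495096))))))))), by decide +kernel⟩

def k3_pm_012 : ∃ t, chk3 f_pm_012 t 9 3 1 = true :=
  ⟨(b (b (a (b (a (l 16329968) (l 16285136)) (a (l 16351008) (l 16300928))) (b (a (l 16241856) (l 16200624)) (a (l 16253032) (l 16207680)))) (a (b (a (l 16371504) (l 16316768)) (a (l 16390112) (l 16331304))) (a (b (l 16264776) (l 16275760)) (b (l 16214384) (l 16221008))))) (b (a (b (a (b (l 16403240) (l 16412464)) (l 16365720)) (a (b (l 16421672) (l 16429496)) (b (l 16354640) (l 16361232)))) (b (a (l 16347984) (l 16226616)) (a (a (l 16309728) (l 16278832)) (b (l 16230456) (l 16232624))))) (a (b (a (b (l 16478528) (a (l 16460120) (l 16424584))) (b (l 16367432) (a (l 16389936) (l 16356080))))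 (a (b (a (b (l 16463312) (l 16464968)) (l 16428160)) (a (b (l 16466400) (a (l 16477224) (l 16458224))) (b (l 16429728) (a (l 16439632) (l 16421376))))) (b (a (l 16393152) (l 16359112)) (a (b (l 16394344) (l 16415624)) (b (l 16360024) (l 16360104)))))) (b (a (b (a (l 16317600) (l 16285264)) (a (l 16322672) (l 16290272))) (b (l 16235648) (l 16281512))) (a (b (a (l 16325920) (l 16314424)) (a (b (l 16326696) (l 16326608)) (a (l 16302272) (l 16307120)))) (b (a (l 16259288) (l 16224976)) (a (b (l 16260256) (l 16260032)) (l 16246720)))))))), by decide +kernel⟩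

def k4_pm_012 : ∃ t, chk3 f_pm_012 t 5 2 1 = true :=
  ⟨(b (a (a (a (b (l 2) (l 16106624)) (l 2)) (l 2)) (l 2)) (a (a (b (a (l 16133592) (a (l 16114280) (l 16100968))) (a (l 16278336) (a (l 16127944) (b (l 16109080) (l 16112896))))) (b (l 16073880) (l 16262872))) (b (a (l 16037712) (l 2)) (a (l 16107136) (l 15978520))))), by decide +kernel⟩

def k5_pm_012 : ∃ t, chk3 f_pm_012 t 5 3 1 = true :=
  ⟨(b (a (a (b (a (b (l 16161680) (l 16164296)) (a (l 16133048) (b (l 16114296) (l 16113192)))) (a (b (l 16165920) (l 16168112)) (a (b (l 16131872) (l 16130328)) (b (l 16151888) (a (l 16112304) (l 16100648)))))) (b (b (l 16070312) (l 16064888)) (b (l 16056800) (l 16068920)))) (b (a (b (l 16006400) (l 15993832)) (b (l 15950808) (l 15930448))) (a (b (l 15978632) (l 16023648)) (b (l 15908440) (l 15883736))))) (a (b (a (a (b (l 16169952) (l 16212816)) (a (b (l 16129360) (l 16127728)) (b (a (l 16109864) (l 16097728)) (a (l 16107272) (l 16136776))))) (b (b (l 16040928) (l 16037216)) (b (l 16033448)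 (l 16029536)))) (a (a (b (b (l 16171632) (l 16173376)) (b (a (l 16191240) (l 16158336)) (a (l 16191664) (l 16158704)))) (b (a (l 16126664) (a (l 16105272) (a (l 16095440) (l 16089168)))) (a (b (l 16126904) (l 16126760)) (a (b (l 16104544) (l 16103856)) (a (b (l 16094496) (l 16093688)) (b (l 16088120) (l 16087256))))))) (b (b (l 16088760) (a (l 16053928) (l 15992752))) (b (a (l 16051968) (l 15988520)) (a (b (l 16050432) (l 16049352)) (b (l 15985144) (l 15982912))))))) (b (b (a (a (l 15965080) (l 15919784)) (a (l 15877064) (l 15836936))) (a (a (l 15950520) (l 15899976)) (a (l 15852208) (l 15807880)))) (a (b (a (l 15937400) (b (l 15886224) (l 15878312))) (a (b (l 15927840) (b (l 15922784) (l 15919328))) (b (l 15869920) (a (l 15875768) (l 15846400))))) (b (b (l 15894448) (a (l 15824856) (l 15774216))) (b (a (l 15814536) (l 15761720)) (a (l 15866632) (l 15790936)))))))), by decide +kernel⟩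

def k6_pm_012 : ∃ t, chk3 f_pm_012 t 3 1 1 = true :=
  ⟨(b (a (b (l 2) (a (b (l 2) (a (l 15941856) (l 2))) (l 2))) (l 2)) (b (a (a (b (a (l 15932896) (l 15848104)) (a (b (l 15846384) (l 15815112)) (b (l 15793552) (l 15755040)))) (b (a (l 15814176) (l 2)) (a (b (l 15750048) (l 15704544)) (b (l 15715744) (l 15663608))))) (a (b (l 2) (a (b (l 2) (l 15632232)) (l 2))) (l 2))) (a (b (a (a (b (c (l 15800640) (l 15763144)) (a (l 15766216) (l 15727208))) (b (l 15715112) (c (l 15695104) (l 15653224)))) (a (b (l 15657608) (c (l 15634408) (l 15586888))) (b (l 15609992) (l 15555520)))) (c (a (b (a (b (l 15739264) (l 15722760)) (b (l 15662712) (l 15642048))) (a (b (l 15748552) (a (l 15714720) (l 15666400))) (b (l 15621064) (a (l 15621064) (l 15579112))))) (b (a (l 15585160) (l 15528024)) (a (b (l 15547808) (a (l 15540536) (l 15504992))) (b (l 15485904) (l 15457024))))) (a (b (a (b (l 15701928) (l 15685760)) (l 15674536)) (a (a (l 15687008) (l 15638264)) (b (l 15581248) (l 15560736)))) (b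 (a (l 15539544) (l 15476120)) (a (b (l 15503728) (l 15479496)) (b (l 15436208) (l 15408848))))))) (a (b (a (b (l 15572280) (l 15511280)) (b (l 15544088) (l 15477176))) (a (b (c (l 15481376) (l 15421560)) (c (b (l 15434488) (l 15402376)) (l 15362576))) (b (a (l 15418992) (l 15401328)) (b (l 15359616) (a (l 15336504) (l 15314968)))))) (b (a (b (l 2) (l 15452736)) (l 2)) (a (b (l 15379824) (a (b (l 15332600) (l 15296080)) (l 15299072))) (b (l 15359560) (a (l 15286312) (l 15276000))))))))), by decide +kernel⟩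

theorem s7_pm_012 : ∃ t, chk3 f_pm_012 t 5 1 1 = true := ex3_b k4_pm_012 k5_pm_012

theorem s8_pm_012 : ∃ t, chk3 f_pm_012 t 8 3 1 = true := ex3_b k1_pm_012 k2_pm_012

theorem s9_pm_012 : ∃ t, chk3 f_pm_012 t 4 3 1 = true := ex3_a s8_pm_012 k3_pm_012

theorem s10_pm_012 : ∃ t, chk3 f_pm_012 t 4 1 1 = true := ex3_b k0_pm_012 s9_pm_012

theorem s11_pm_012 : ∃ t, chk3 f_pm_012 t 2 1 1 = true := ex3_a s10_pm_012 s7_pm_012

theorem s12_pm_012 : ∃ t, chk3 f_pm_012 t 1 1 1 = true := ex3_a s11_pm_012 k6_pm_012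

theorem c_pm_012 : CertB 0 536870912 536870912 536870912 780900216 37827925 3 eng mog cd0q0 cd3q1 pd2 true true false .pnp 0 1 2
    ndB0q0 ndB3q1 pcB2 cut_pm_012 Ext.none :=
  certB2 (fam := true) (s1 := true) (s2 := false) (a := 0) (b := 1) (c := 2) (cn := .pnp) (n1 := ndB0q0) (n2 := ndB3q1) (pc := pcB2) (cut := cut_pm_012) (xt := Ext.none) (P1 := 0) (W1 := 536870912) (P2 := 536870912) (W2 := 536870912) (P3 := 780900216) (W3 := 37827925) (N0 := 3) (En := eng) (mo := mog) (C1 := cd0q0) (C2 := cd3q1) (C3 := pd2)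
    rfl (fun _ => rfl) s12_pm_012

noncomputable def f_pm_022 : ℕ → ℕ → ℕ → ℕ → Bool := onCell 0 536870912 1073741824 536870912 780900216 37827925
    (rowB 3 eng mog cd0q0 cd3q2 pd2 1 true true false .pp 0 2 2 (qsf 0 536870912 1073741824 536870912 2) ndB0q0 ndB3q2 pcB2 Cut.none Ext.none)

def k0_pm_022 : ∃ t, chk3 f_pm_022 t 1 4 1 = true :=
  ⟨(a (b (l 3) (a (b (l 3) (a (b (a (a (b (b (l 16540560) (l 16527504)) (b (l 16513816) (l 16500568))) (b (c (l 188072059671) (l 16519720)) (l 16580536))) (b (a (l 16594416) (l 16607568)) (a (l 16568216) (l 16595960)))) (a (b (a (b (a (l 16477968) (l 16495272)) (a (l 16462248) (l 16481784))) (b (l 16518688) (l 16505440))) (a (a (b (l 16445496) (l 16428736)) (b (l 16467352) (l 16451928))) (b (l 16491952) (l 16478656)))) (b (a (b (l 16548400) (l 16535184)) (l 16569352)) (a (l 16515080) (l 16543048))))) (b (a (a (b (l 220284399975) (l 16595352)) (b (l 731922348103) (a (l 16567688) (l 16562800)))) (b (l 3) (a (b (a (l 16578632) (l 269542344983))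 (l 158946912311)) (b (l 1) (l 448857205783))))) (a (b (a (l 16592552) (l 16584056)) (a (l 16569176) (l 16581264))) (b (a (b (l 16574184) (l 16573248)) (a (l 263636777815) (l 427919253799))) (a (l 16508656) (c (l 16555120) (b (l 16553016) (l 16552952))))))))) (b (l 1) (a (b (l 1) (a (b (l 1) (a (b (l 1) (l 495564903223)) (l 1))) (l 1))) (l 1))))) (l 1)), by decide +kernel⟩

def k1_pm_022 : ∃ t, chk3 f_pm_022 t 4 10 1 = true :=
  ⟨(b (a (b (a (a (b (a (l 16404024) (l 16427440)) (a (l 16371968) (l 16395336))) (b (a (l 16449008) (l 16466672)) (a (l 16418024) (l 16438928)))) (a (b (l 16488928) (l 16463368)) (b (l 16516968) (l 16491512)))) (a (b (a (b (a (l 16350272) (l 16373128)) (l 16352536)) (b (l 16406408) (l 16396304))) (b (a (c (l 16352384) (l 16338128)) (l 16389104)) (a (b (a (l 16330656) (l 16353264)) (a (c (a (c (l 16355280) (l 16327072)) (l 16341856)) (l 16322064)) (l 16372808))) (b (l 16385912) (l 16384528))))) (b (a (b (l 16444416) (l 16435192)) (l 16468600)) (b (a (l 16429360)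 (l 16459424)) (b (a (l 16426912) (l 16458576)) (a (l 16425712) (l 16458704))))))) (b (a (b (a (l 16543208) (l 16567680)) (a (l 16517832) (l 16542424))) (b (a (l 16569616) (l 16495136)) (l 16498920))) (b (a (a (l 16473376) (l 16518520)) (l 16616320)) (a (b (l 16475104) (b (l 16495336) (l 16495584))) (b (l 16540656) (c (l 16536960) (l 16534776))))))) (a (a (a (b (b (c (l 16333536) (l 16320280)) (a (l 16290960) (l 16313536))) (c (a (l 16261904) (l 16283728)) (a (l 16248768) (l 16271912)))) (b (c (l 16363672) (l 16353184)) (c (l 16315272) (l 16305416)))) (a (b (l 16399616) (c (l 16355056) (l 16347800))) (b (l 16519616) (l 16389744)))) (b (a (a (l 16464064) (l 16487512)) (l 16520904)) (a (a (l 16465224) (l 16449688)) (l 16483352))))), by decide +kernel⟩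

def k2_pm_022 : ∃ t, chk3 f_pm_022 t 5 10 1 = true :=
  ⟨(b (a (b (a (a (b (c (l 16550960) (l 255583585895)) (l 107943982759)) (b (l 1) (l 417718618343))) (l 1)) (a (a (b (l 16519160) (b (l 16534768) (b (l 16525632) (l 16518640)))) (b (c (l 16532048) (l 264710358391)) (b (b (l 16521760) (l 16517912)) (b (l 16511160) (c (l 16512712) (l 16495400)))))) (b (l 1) (b (l 1) (a (b (l 1) (l 337724857607)) (l 1)))))) (l 1)) (a (a (a (a (l 16503664) (l 16477344)) (b (a (l 16498784) (l 16491208)) (l 16481816))) (a (b (b (l 213707632471) (l 193306538183)) (l 16509128)) (b (b (l 1) (l 317860495799)) (c (l 16462280) (l 225518683015))))) (a (b (l 1) (a (c (l 315712988903) (l 314639187735)) (l 1))) (l 1)))), by decide +kernel⟩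

def k3_pm_022 : ∃ t, chk3 f_pm_022 t 2 11 1 = true :=
  ⟨(a (a (a (b (a (b (c (a (l 16216304) (l 16237984)) (l 16214968)) (b (c (l 16194608) (l 16182304)) (c (l 16173576) (l 16161296)))) (b (c (l 16269360) (l 16259792)) (c (l 16225904) (l 16216328)))) (a (b (c (a (l 16131856) (l 16153560)) (a (l 16120032) (l 16142400))) (c (a (l 16092696) (l 16114304)) (l 16093472))) (c (b (l 16184720) (l 16145584)) (b (l 16175224) (l 16136664))))) (b (a (b (l 16305392) (l 16261696)) (b (l 16343752) (l 16299992))) (a (b (l 16220256) (l 16243984)) (c (l 16240952) (l 16236816))))) (a (b (b (a (l 16379376) (l 16431408)) (a (l 16335656) (l 16368616))) (a (c (l 16275240) (l 16273768)) (l 16370176))) (b (b (l 16446824) (a (l 16397928) (l 16422624))) (a (b (l 16358208) (l 16319056)) (b (l 16386472) (l 16348880)))))) (a (a (a (b (l 16462608) (l 16393296)) (b (l 16512464) (l 16417264))) (b (b (c (l 16373016) (l 16479360)) (a (l 16441320) (l 16365248))) (a (l 16419392) (l 16409064)))) (c (a (b (b (l 224445002711)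 (l 193843341895)) (b (l 16406720) (l 16394648))) (b (b (l 1) (l 320544705991)) (b (l 226592363895) (l 158946630423)))) (a (b (b (a (l 226592358631) (l 308733549831)) (a (l 16400264) (l 226592309767))) (a (l 16385744) (l 16368952))) (b (b (l 1) (l 309807254999)) (b (l 238940263159) (l 216928589719))))))), by decide +kernel⟩

def k4_pm_022 : ∃ t, chk3 f_pm_022 t 3 5 1 = true :=
  ⟨(b (l 1) (a (a (a (b (l 1) (b (l 1) (a (l 309270296455) (l 1)))) (l 1)) (l 1)) (l 1))), by decide +kernel⟩

def k5_pm_022 : ∃ t, chk3 f_pm_022 t 4 3 1 = true :=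
  ⟨(b (a (b (b (a (a (c (b (c (l 16070048) (l 16064048)) (c (l 16035904) (l 16029832))) (b (l 16057736) (l 16024048))) (c (b (l 16108560) (l 16073936)) (l 16146248))) (c (a (l 16172160) (l 16167032)) (a (l 16123944) (l 16162584)))) (a (c (a (b (c (l 16004096) (l 15997880)) (l 16013152)) (b (l 16041688) (l 16011760))) (a (b (l 15992576) (l 15963128)) (l 16019472))) (c (a (l 16065064) (l 16101552)) (a (l 16059408) (l 16097376))))) (a (c (b (a (b (l 15944216) (l 15919696)) (c (l 15975064) (l 15968352))) (a (c (l 15893264) (l 15882728)) (l 15925960))) (b (b (l 15956376) (l 15930384)) (a (l 15874208) (l 15914752)))) (b (c (a (l 16009216) (l 16045096)) (l 16021688)) (c (l 16043352) (l 15972088))))) (b (b (a (b (l 16234288) (a (l 16182432) (l 16215528))) (a (l 16285176) (l 16336320))) (a (a (l 16259624) (l 16187744)) (b (l 16229216) (l 16198280)))) (a (b (c (l 16094952) (l 16092472)) (c (l 16046720) (l 16041944))) (b (c (l 16155680) (l 16157168)) (l 16210368))))) (b (b (a (a (c (a (c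 (l 15860760) (l 15846120)) (l 15889976)) (a (l 15832840) (l 15872760))) (c (l 15942712) (l 15929304))) (a (c (l 16007256) (l 15998344)) (l 16084000))) (a (a (c (a (l 15869264) (l 15863032)) (a (l 15797960) (l 15837256))) (c (l 15913904) (l 15892984))) (a (l 16029960) (l 16027928)))) (a (b (a (c (a (l 15810440) (l 15844728)) (a (l 15769200) (l 15807896))) (c (l 15893640) (l 15862824))) (a (c (a (l 15801752) (l 15834592)) (a (l 15746168) (l 15784304))) (c (l 15881488) (l 15838456)))) (a (b (l 15940088) (l 15920064)) (b (l 15999944) (l 15978768)))))), by decide +kernel⟩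

def k6_pm_022 : ∃ t, chk3 f_pm_022 t 5 3 1 = true :=
  ⟨(b (a (b (a (b (a (c (l 16319552) (l 16328288)) (l 16351056)) (a (l 16258360) (l 16287320))) (b (c (l 16378904) (l 16381104)) (c (l 16319496) (l 16333992)))) (b (a (b (l 16229512) (l 16202816)) (l 16292256)) (a (l 16229184) (c (l 16219408) (l 16228544))))) (b (a (b (c (l 16374856) (l 16357176)) (a (l 16345912) (l 16336040))) (b (b (c (l 16359120) (l 16330536)) (a (l 16343208) (l 16329320))) (c (l 16331440) (l 16310528)))) (a (b (c (l 16304768) (l 16321448)) (l 16267648)) (b (b (l 16304960) (l 16295792)) (c (l 16287200) (l 16284336)))))) (a (b (a (b (l 16144848) (l 16088600)) (b (l 16181952) (l 16147456))) (c (a (l 16057960) (l 16114152)) (a (l 16042080) (l 16104272)))) (b (a (c (l 16208816) (l 16216832)) (b (l 16260736) (l 16231624))) (a (c (l 16162168) (l 16157872)) (l 16261248))))), by decide +kernel⟩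

def k7_pm_022 : ∃ t, chk3 f_pm_022 t 3 3 1 = true :=
  ⟨(a (b (b (a (c (a (b (a (l 160020303655) (l 219076050199)) (l 16351352)) (b (l 313028343143) (l 207264879383))) (a (b (b (l 236255826359) (l 203506711751)) (b (l 16281760) (l 16276416))) (b (b (l 1) (l 302290809511)) (b (l 229276394327) (l 215854626647))))) (b (l 1) (a (b (l 1) (a (l 295311494935) (l 1))) (l 1)))) (c (a (a (b (l 16290472) (l 16270896)) (b (l 16267784) (l 16252632))) (b (a (l 194379875287) (l 294774544167)) (a (l 16230144) (l 173441804215)))) (a (a (b (l 16267168) (l 16254536)) (b (l 16235448) (l 16227832))) (b (a (b (l 228739430151) (l 16198136)) (l 289405735687)) (a (l 16196880) (l 212096384935)))))) (a (a (b (b (l 16257304) (l 16250648)) (l 16224048)) (b (b (c (l 16237224) (l 16219976)) (l 16228408)) (b (l 16232576) (l 16227152)))) (b (a (b (l 16227960) (l 16199536)) (b (c (l 16195928) (l 16162792)) (l 16176448))) (a (b (l 16202944) (l 16212672)) (b (l 16151888) (l 16180688)))))) (b (b (l 1) (a (b (l 1)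 (a (c (l 295311405255) (l 285110692839)) (l 1))) (l 1))) (a (b (b (a (c (l 16188600) (l 254509106007)) (b (l 1) (l 280815760567))) (a (c (l 16164584) (l 16132136)) (c (l 16135960) (l 242161004247)))) (b (a (l 16149336) (c (l 16136680) (l 16105264))) (a (l 16149912) (l 16126224)))) (b (a (b (l 1) (a (l 292090040055) (l 1))) (l 1)) (a (b (c (l 16108104) (l 221223007719)) (l 16099312)) (b (a (l 302827386103) (l 1)) (a (l 16075664) (l 207801228871)))))))), by decide +kernel⟩

theorem s8_pm_022 : ∃ t, chk3 f_pm_022 t 2 3 1 = true := ex3_a k5_pm_022 k6_pm_022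

theorem s9_pm_022 : ∃ t, chk3 f_pm_022 t 1 3 1 = true := ex3_a s8_pm_022 k7_pm_022

theorem s10_pm_022 : ∃ t, chk3 f_pm_022 t 2 10 1 = true := ex3_a k1_pm_022 k2_pm_022

theorem s11_pm_022 : ∃ t, chk3 f_pm_022 t 2 5 1 = true := ex3_b s10_pm_022 k3_pm_022

theorem s12_pm_022 : ∃ t, chk3 f_pm_022 t 1 5 1 = true := ex3_a s11_pm_022 k4_pm_022

theorem s13_pm_022 : ∃ t, chk3 f_pm_022 t 1 2 1 = true := ex3_b k0_pm_022 s12_pm_022

theorem s14_pm_022 : ∃ t, chk3 f_pm_022 t 1 1 1 = true := ex3_b s13_pm_022 s9_pm_022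

theorem c_pm_022 : CertB 0 536870912 1073741824 536870912 780900216 37827925 3 eng mog cd0q0 cd3q2 pd2 true true false .pp 0 2 2
    ndB0q0 ndB3q2 pcB2 Cut.none Ext.none :=
  certB1 (fam := true) (s1 := true) (s2 := false) (a := 0) (b := 2) (c := 2) (cn := .pp) (n1 := ndB0q0) (n2 := ndB3q2) (pc := pcB2) (cut := Cut.none) (xt := Ext.none) (P1 := 0) (W1 := 536870912) (P2 := 1073741824) (W2 := 536870912) (P3 := 780900216) (W3 := 37827925) (N0 := 3) (En := eng) (mo := mog) (C1 := cd0q0) (C2 := cd3q2) (C3 := pd2)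
    rfl (fun _ => rfl) s14_pm_022

noncomputable def f_pm_023 : ℕ → ℕ → ℕ → ℕ → Bool := onCell 0 536870912 1610612736 536870912 780900216 37827925
    (rowB 3 eng mog cd0q0 cd3q2 pd3 1 true true false .up 0 2 3 (qsf 0 536870912 1073741824 536870912 3) ndB0q0 ndB3q2 pcB3 Cut.none Ext.none)

def k0_pm_023 : ∃ t, chk3 f_pm_023 t 2 1 1 = true :=
  ⟨(b (b (a (b (a (a (b (b (a (l 15761848) (l 15797888)) (l 193909110039)) (c (l 15815912) (l 15752792))) (b (c (l 15876928) (l 15822024)) (c (l 15876136) (l 15804824)))) (c (a (l 15932984) (l 15987568)) (a (l 15880496) (l 15944112)))) (b (a (a (l 2) (l 179413597671)) (a (l 15894216) (l 15951776))) (a (l 2) (a (l 15894056) (l 15950232))))) (c (a (b (a (l 16044280) (l 16101816)) (l 16217272)) (b (l 16173696) (l 16171672))) (a (b (a (l 16008736) (l 16073152)) (a (l 15978992) (l 16043208))) (b (l 16153368) (l 16125992))))) (b (a (a (l 2) (b (a (l 2) (l 15953968)) (l 2))) (a (b (a (l 16011344) (l 16070720)) (l 154718089399)) (b (l 16149176) (l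 16155952)))) (a (l 2) (a (b (l 121969326631) (l 2)) (b (l 16230824) (l 16185632)))))) (a (l 2) (b (b (a (l 2) (b (l 16211616) (l 2))) (l 2)) (l 2)))), by decide +kernel⟩

def k1_pm_023 : ∃ t, chk3 f_pm_023 t 3 1 1 = true :=
  ⟨(b (b (a (a (b (b (l 16221616) (l 16216824)) (l 16216432)) (b (a (l 16220496) (b (l 16192000) (l 16210976))) (b (l 16224000) (l 16219648)))) (a (b (a (b (l 16156264) (l 16185096)) (b (l 16125408) (l 16149464))) (a (l 16220888) (l 16200504))) (b (a (b (l 16104560) (l 16119720)) (b (a (l 16088512) (l 16077032)) (l 16100296))) (b (a (l 16149000) (l 16120040)) (a (l 16188992) (l 16153912)))))) (a (b (a (l 16228640) (l 16246704)) (a (b (l 16248208) (l 16266864)) (b (l 16281080) (l 16307224)))) (b (a (l 16248832) (b (l 16213344) (l 16249728))) (a (l 16256272) (b (l 16279488) (l 16300664)))))) (a (b (b (b (a (l 16291120) (l 16336480)) (a (l 16323744) (l 16370936))) (a (b (l 16367432) (l 2)) (b (l 16412096) (l 16457408)))) (b (b (a (l 2) (l 16497816)) (l 2)) (l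 2))) (b (b (b (a (l 16327096) (l 16313248)) (a (l 16375080) (l 16375736))) (a (l 16456736) (l 16459384))) (b (b (a (l 16526792) (l 16534512)) (a (l 16546552) (l 16440664))) (b (a (l 16596928) (l 16631920)) (l 4)))))), by decide +kernel⟩

theorem s2_pm_023 : ∃ t, chk3 f_pm_023 t 1 1 1 = true := ex3_a k0_pm_023 k1_pm_023

theorem c_pm_023 : CertB 0 536870912 1073741824 536870912 780900216 37827925 3 eng mog cd0q0 cd3q2 pd3 true true false .up 0 2 3
    ndB0q0 ndB3q2 pcB3 Cut.none Ext.none :=
  certB1 (fam := true) (s1 := true) (s2 := false) (a := 0) (b := 2) (c := 3) (cn := .up) (n1 := ndB0q0) (n2 := ndB3q2) (pc := pcB3) (cut := Cut.none) (xt := Ext.none) (P1 := 0) (W1 := 536870912) (P2 := 1073741824) (W2 := 536870912) (P3 := 780900216) (W3 := 37827925) (N0 := 3) (En := eng) (mo := mog) (C1 := cd0q0) (C2 := cd3q2) (C3 := pd3)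
    rfl (fun _ => rfl) s2_pm_023

noncomputable def f_pm_033 : ℕ → ℕ → ℕ → ℕ → Bool := onCell 1610612736 536870912 0 1230186008 780900216 37827925
    (rowB 3 eng mog cd0q0 cd3q3 pd3 2 true true false .pnn 0 3 3 (qsf 0 536870912 0 1230186008 3) ndB0q0 ndB3q3 pcB3 Cut.none Ext.none)

def k0_pm_033 : ∃ t, chk3 f_pm_033 t 1 2 1 = true :=
  ⟨(a (l 1) (a (l 1) (l 4))), by decide +kernel⟩

def k1_pm_033 : ∃ t, chk3 f_pm_033 t 1 6 1 = true :=
  ⟨(a (b (l 1) (a (l 1) (a (l 1) (b (l 1) (a (l 1) (l 15744256)))))) (b (a (a (l 1) (a (l 15859384) (l 4))) (l 4)) (a (a (b (a (l 15768808) (l 15864608)) (a (l 15845936) (l 15935392))) (b (a (l 16037984) (b (l 4) (l 16051480))) (a (l 16017896) (l 16100000)))) (a (b (l 4) (a (l 4) (l 4))) (l 4))))), by decide +kernel⟩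

def k2_pm_033 : ∃ t, chk3 f_pm_033 t 1 7 1 = true :=
  ⟨(a (b (a (l 1) (a (b (b (l 1) (l 303363655447)) (a (b (l 1) (l 293700119671)) (b (l 15726664) (l 15786184)))) (b (a (b (l 15706232) (l 15756664)) (l 15826488)) (a (b (l 15808320) (l 15860712)) (l 15914456))))) (a (b (a (l 1) (a (b (l 1) (a (b (l 1) (l 209948178199)) (b (l 242697337479) (l 191694656055)))) (b (a (l 281888899703) (l 110090267959)) (a (b (l 15742912) (l 15779368)) (l 15794576))))) (a (a (b (l 1) (a (c (l 215316850263) (l 198136770951)) (b (l 212095651223) (l 213169464823)))) (b (b (a (l 1) (l 210485045223)) (a (l 211558783143) (l 204042662887))) (b (a (l 208337627655) (l 15795880)) (a (l 15805008) (l 15835680))))) (b (a (b (a (l 15749856) (l 15783056)) (a (l 15788528) (l 15820288))) (b (l 15831200) (l 15866264))) (a (b (l 15842336) (l 15879976)) (b (l 15901808) (l 15938344)))))) (a (b (a (b (l 110090395223) (l 15952896)) (b (l 15845792) (l 15906976))) (b (a (a (l 15894632) (l 15924976)) (l 15973328)) (a (l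 15981464) (l 16046576)))) (b (a (b (l 15915088) (l 15974944)) (l 16018128)) (a (b (l 16041048) (l 16116192)) (b (l 16115184) (l 16185456))))))) (b (a (a (b (a (l 15923632) (l 16007576)) (a (l 16004128) (l 16089264))) (b (a (l 16089520) (l 16172760)) (a (l 16170880) (l 16258608)))) (a (b (a (a (l 16237216) (l 16276576)) (l 4)) (a (l 16343560) (l 16391288))) (l 4))) (a (a (b (a (l 16099312) (l 16189840)) (a (l 16224800) (b (l 16269488) (l 16324976)))) (b (a (l 16273200) (l 16349080)) (b (l 16381728) (l 16429632)))) (a (a (b (l 16422616) (l 16499640)) (b (l 16329808) (l 16559216))) (a (b (l 4) (l 16601328)) (l 4)))))), by decide +kernel⟩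

theorem s3_pm_033 : ∃ t, chk3 f_pm_033 t 1 3 1 = true := ex3_b k1_pm_033 k2_pm_033

theorem s4_pm_033 : ∃ t, chk3 f_pm_033 t 1 1 1 = true := ex3_b k0_pm_033 s3_pm_033

theorem c_pm_033 : CertB 0 536870912 0 1230186008 780900216 37827925 3 eng mog cd0q0 cd3q3 pd3 true true false .pnn 0 3 3
    ndB0q0 ndB3q3 pcB3 Cut.none Ext.none :=
  certB2 (fam := true) (s1 := true) (s2 := false) (a := 0) (b := 3) (c := 3) (cn := .pnn) (n1 := ndB0q0) (n2 := ndB3q3) (pc := pcB3) (cut := Cut.none) (xt := Ext.none) (P1 := 0) (W1 := 536870912) (P2 := 0) (W2 := 1230186008) (P3 := 780900216) (W3 := 37827925) (N0 := 3) (En := eng) (mo := mog) (C1 := cd0q0) (C2 := cd3q3) (C3 := pd3)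
    rfl (fun _ => rfl) s4_pm_033

noncomputable def xt_pm_101 : Ext := extD2 3 ⟨4, 1, 1, 5, 5, 2, 24, 25, 43, 100, 1, 8⟩ eng cd0q1 cd3q0 pd1 true true false .npn 1 0 1 rfl ndB0q1 ndB3q0 pcB1

noncomputable def f_pm_101 : ℕ → ℕ → ℕ → ℕ → Bool := onCell 536870912 536870912 0 536870912 780900216 37827925
    (rowB 3 eng mog cd0q1 cd3q0 pd1 2 true true false .npn 1 0 1 (qsf 536870912 536870912 0 536870912 1) ndB0q1 ndB3q0 pcB1 Cut.none xt_pm_101)

def k0_pm_101 : ∃ t, chk3 f_pm_101 t 2 1 1 = true :=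
  ⟨(l 3), by decide +kernel⟩

def k1_pm_101 : ∃ t, chk3 f_pm_101 t 3 2 1 = true :=
  ⟨(a (l 3) (b (a (l 3) (b (a (b (a (a (l 3) (b (a (b (a (l 172503457111) (l 16849768)) (l 16863856)) (l 16818432)) (l 16833392))) (a (b (l 16844064) (l 16875024)) (l 16820424))) (a (a (l 3) (b (l 16910864) (l 16906680))) (b (l 16850280) (l 16844608)))) (b (a (b (l 16791912) (l 16743544)) (l 16617696)) (a (b (l 16776896) (l 16769480)) (l 16706640)))) (a (b (a (a (l 3) (b (l 16899560) (l 16848072))) (a (l 16812392) (l 16815400))) (a (a (l 3) (b (l 16836792) (l 238538522615))) (a (b (l 16838592) (l 16825792)) (l 16793856)))) (b (a (b (l 16762184) (l 16754840)) (l 16665984)) (a (l 16738496) (l 16667480)))))) (b (a (l 3) (a (b (a (a (l 3) (b (l 227264200407) (l 188072612279))) (a (b (l 16810568) (l 16792200)) (l 16764448))) (a (a (l 3) (a (l 3) (b (l 197199336647) (l 188072485543)))) (a (b (a (l 16757216) (l 16760704)) (c (l 16730008) (l 16734784))) (b (l 16734288) (l 16709160))))) (b (a (l 16709704)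 (l 16639272)) (a (b (l 16682248) (l 16658456)) (l 16601752))))) (a (l 3) (b (a (a (b (a (l 3) (a (l 3) (l 386177885703))) (l 3)) (b (a (b (l 16721792) (l 148880784807)) (l 16680760)) (b (a (l 144585783431) (l 16658416)) (a (a (b (l 146733277287) (l 16647904)) (l 16673400)) (l 16648160))))) (b (a (l 16631192) (l 16565432)) (a (a (l 16620392) (l 16587464)) (l 16538856)))) (a (a (l 3) (c (b (b (a (l 137069605959) (l 16654304)) (a (l 134922118727) (l 16651608))) (a (b (l 132774582423) (l 131163911447)) (l 16646720))) (b (a (b (l 139753851207) (l 144164837569642543)) (l 16627016)) (a (b (l 143852507482390575) (l 143562167633248303)) (l 16550488))))) (b (a (c (l 16604536) (l 16584496)) (l 16528600)) (a (a (l 16592152) (l 16569936)) (l 16519824))))))))), by decide +kernel⟩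

def k2_pm_101 : ∃ t, chk3 f_pm_101 t 3 3 1 = true :=
  ⟨(a (l 3) (b (a (l 3) (b (a (b (c (a (l 3) (b (a (b (l 143911468845514799) (l 143635285211611183)) (b (l 16599648) (l 16571264))) (a (b (l 143375594256318511) (l 2652383248377807613320888367)) (b (l 16544992) (l 16520624))))) (a (l 3) (b (a (b (l 143292512351764527) (l 143040036943872047)) (l 143090614481305647)) (a (b (l 2671726061491134049359282223) (l 2729754500832415591461879855)) (l 142417232233087023))))) (a (l 3) (c (b (a (b (l 2681397468048537616586752047) (l 2691068874605239901572759599)) (l 142530688146980911)) (a (a (l 3) (b (l 142387889026875439) (l 116131248071))) (b (l 16474752) (l 16427912)))) (b (a (b (l 2768440127060309262334967855) (l 2768440127060121933003702319)) (l 141989384689827887)) (a (a (l 3) (b (l 141908295670448175) (l 120426158951))) (b (l 16453776) (l 16369240))))))) (b (b (a (a (l 16532408) (l 16516984)) (l 16489184)) (a (a (l 16482048) (l 16466200)) (l 16438488))) (b (a (a (l 141954818833399855)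 (l 16422936)) (l 16395680)) (a (b (l 16483336) (l 16374432)) (l 16350320))))) (a (a (l 3) (a (b (b (b (l 125794840631) (l 119352432791)) (l 115594310519)) (l 3)) (b (b (a (l 16371640) (l 16363440)) (l 16334560)) (b (l 16310152) (l 16293472))))) (b (a (b (l 16383744) (l 16306792)) (l 16368456)) (a (b (l 16280816) (l 16262560)) (l 16229744)))))) (a (l 3) (b (a (a (l 3) (a (l 3) (b (l 16280400) (l 16280320)))) (b (a (l 16247896) (l 16205064)) (a (l 16246520) (l 16202816)))) (a (a (l 3) (a (l 3) (b (l 16294248) (l 148209138407)))) (b (a (b (l 16255296) (l 16264416)) (l 16215536)) (a (c (l 69825960247) (l 16317464)) (l 16237344)))))))), by decide +kernel⟩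

theorem s3_pm_101 : ∃ t, chk3 f_pm_101 t 3 1 1 = true := ex3_b k1_pm_101 k2_pm_101

theorem s4_pm_101 : ∃ t, chk3 f_pm_101 t 1 1 1 = true := ex3_a k0_pm_101 s3_pm_101

theorem c_pm_101 : CertB 536870912 536870912 0 536870912 780900216 37827925 3 eng mog cd0q1 cd3q0 pd1 true true false .npn 1 0 1
    ndB0q1 ndB3q0 pcB1 Cut.none xt_pm_101 :=
  certB2 (fam := true) (s1 := true) (s2 := false) (a := 1) (b := 0) (c := 1) (cn := .npn) (n1 := ndB0q1) (n2 := ndB3q0) (pc := pcB1) (cut := Cut.none) (xt := xt_pm_101) (P1 := 536870912) (W1 := 536870912) (P2 := 0) (W2 := 536870912) (P3 := 780900216) (W3 := 37827925) (N0 := 3) (En := eng) (mo := mog) (C1 := cd0q1) (C2 := cd3q0) (C3 := pd1)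
    rfl (fun _ => rfl) s4_pm_101

noncomputable def f_pm_102 : ℕ → ℕ → ℕ → ℕ → Bool := onCell 1073741824 536870912 0 536870912 780900216 37827925
    (rowB 3 eng mog cd0q1 cd3q0 pd2 2 true true false .npp 1 0 2 (qsf 536870912 536870912 0 536870912 2) ndB0q1 ndB3q0 pcB2 Cut.none Ext.none)

def k0_pm_102 : ∃ t, chk3 f_pm_102 t 2 2 1 = true :=
  ⟨(a (b (a (b (a (b (a (b (l 16592288) (l 16633448)) (b (l 16536920) (l 16538736))) (a (l 16579216) (b (l 16547192) (l 16525640)))) (b (a (b (l 2) (l 16488544)) (l 2)) (a (b (l 16487920) (l 16499136)) (b (l 16441672) (l 16441624))))) (a (a (b (l 16559968) (b (l 16546048) (l 16536888))) (b (l 16505840) (l 16482128))) (b (a (l 16471424) (l 16453136)) (a (l 16434232) (l 16408360))))) (b (a (b (l 2) (a (b (l 2) (l 16382296)) (l 2))) (l 2)) (a (b (a (l 16402840) (l 16347232)) (a (l 16406960) (l 16368992))) (b (b (l 2) (l 16272768)) (a (l 16321336) (l 16275520)))))) (b (a (a (b (a (l 16517688) (l 16459840)) (a (b (l 16494272) (l 16475808)) (l 16429320)))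 (b (l 16571184) (l 16354320))) (a (b (a (l 16351384) (l 16357840)) (a (l 16300600) (l 16300680))) (b (a (l 16331688) (l 16300248)) (a (l 16309440) (l 16299040))))) (a (b (a (b (l 16405864) (a (l 16410152) (l 16381768))) (b (l 16328472) (l 16310984))) (a (a (b (l 16423344) (l 16415336)) (l 16374528)) (b (l 16307648) (l 16303648)))) (b (a (b (l 16260896) (l 16242880)) (b (l 16279480) (l 16254112))) (a (l 16236624) (a (l 16205448) (l 16238768))))))) (b (a (b (l 2) (a (b (l 2) (a (l 16230304) (l 2))) (l 2))) (l 2)) (b (a (a (b (l 16244800) (l 16266328)) (b (l 16159144) (l 16200496))) (b (l 2) (a (l 16123744) (l 2)))) (a (b (a (b (l 16267488) (l 16263688)) (b (l 16220592) (l 16228400))) (a (l 16266232) (l 16248560))) (b (a (b (l 16157136) (l 16175528)) (b (l 2) (l 16111192))) (a (l 16269664) (l 16154048))))))), by decide +kernel⟩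

def k1_pm_102 : ∃ t, chk3 f_pm_102 t 2 3 1 = true :=
  ⟨(b (a (a (b (b (a (a (b (l 16404728) (l 16363488)) (l 16353360)) (b (l 16295864) (l 16284064))) (a (a (b (l 16324920) (l 16283024)) (l 16286952)) (a (l 16265016) (l 16234456)))) (a (b (a (l 16240760) (l 16208992)) (a (l 16168240) (l 16159280))) (b (l 16180384) (l 16133936)))) (b (a (b (l 16222440) (l 16191360)) (b (l 16351520) (l 16150912))) (a (b (l 16113760) (l 16078232)) (b (l 16079536) (l 15991224))))) (b (a (b (a (l 16251328) (l 16259992)) (a (a (l 16178472) (l 16226768)) (l 16253784))) (b (a (l 16235720) (l 16196232)) (a (l 16245096) (l 16219928)))) (a (a (a (l 16088472) (a (l 16127192) (b (l 16174960) (l 16124528)))) (l 16181280)) (a (l 16206144) (l 16323496))))) (a (a (b (a (b (a (l 16145000) (l 16134864)) (l 16137616)) (b (l 16110968) (l 16106440))) (a (b (l 16150744) (a (l 16180608) (l 16166248))) (b (l 16116776) (l 16138512)))) (b (a (a (l 16071680) (l 16043768)) (l 16026008)) (a (l 16208864) (l 16048336)))) (a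 (a (a (b (l 16046768) (l 16056048)) (b (a (l 16065800) (l 16119232)) (a (l 16059912) (l 16062968)))) (b (l 16102344) (l 16070952))) (b (a (l 16132232) (l 16148584)) (a (l 16087296) (l 16100816)))))), by decide +kernel⟩

def k2_pm_102 : ∃ t, chk3 f_pm_102 t 3 1 1 = true :=
  ⟨(b (a (b (l 2) (b (l 2) (a (b (l 2) (a (l 16092856) (l 2))) (l 2)))) (l 2)) (a (b (b (a (b (a (l 16149056) (l 16093840)) (a (l 16184920) (l 16144168))) (b (l 2) (a (l 16095304) (l 2)))) (a (a (l 16248088) (l 16167352)) (a (l 16142104) (l 16115952)))) (a (b (a (l 16155616) (l 16148376)) (a (l 16111568) (l 16121096))) (b (a (l 16147656) (l 16149024)) (a (l 16130504) (l 16133976))))) (b (b (l 2) (a (a (l 16087864) (l 2)) (l 2))) (a (b (a (l 16148920) (l 16155032)) (a (l 16150144) (l 16174256))) (b (a (l 16159208) (l 2)) (a (l 16205960) (l 16247728))))))), by decide +kernel⟩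

theorem s3_pm_102 : ∃ t, chk3 f_pm_102 t 2 1 1 = true := ex3_b k0_pm_102 k1_pm_102

theorem s4_pm_102 : ∃ t, chk3 f_pm_102 t 1 1 1 = true := ex3_a s3_pm_102 k2_pm_102

theorem c_pm_102 : CertB 536870912 536870912 0 536870912 780900216 37827925 3 eng mog cd0q1 cd3q0 pd2 true true false .npp 1 0 2
    ndB0q1 ndB3q0 pcB2 Cut.none Ext.none :=
  certB2 (fam := true) (s1 := true) (s2 := false) (a := 1) (b := 0) (c := 2) (cn := .npp) (n1 := ndB0q1) (n2 := ndB3q0) (pc := pcB2) (cut := Cut.none) (xt := Ext.none) (P1 := 536870912) (W1 := 536870912) (P2 := 0) (W2 := 536870912) (P3 := 780900216) (W3 := 37827925) (N0 := 3) (En := eng) (mo := mog) (C1 := cd0q1) (C2 := cd3q0) (C3 := pd2)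
    rfl (fun _ => rfl) s4_pm_102

noncomputable def f_pm_112 : ℕ → ℕ → ℕ → ℕ → Bool := onCell 536870912 536870912 1073741824 536870912 780900216 37827925
    (rowB 3 eng mog cd0q1 cd3q1 pd2 1 true true false .dn 1 1 2 (qsf 536870912 536870912 536870912 536870912 2) ndB0q1 ndB3q1 pcB2 Cut.none Ext.none)

def k0_pm_112 : ∃ t, chk3 f_pm_112 t 1 1 1 = true :=
  ⟨(b (b (a (a (b (a (a (b (l 16180024) (l 16169600)) (l 339871771815)) (l 347924797719)) (a (b (l 16143528) (l 16124968)) (b (l 16082824) (l 16077456)))) (b (l 1) (a (b (l 1) (l 16028784)) (l 1)))) (l 1)) (a (a (b (b (b (a (l 16110712) (l 16076832)) (a (b (l 16101016) (l 16092456)) (b (l 16074256) (l 16070384)))) (a (l 16073168) (l 16063072))) (a (l 16012592) (l 16030424))) (a (b (b (b (l 16039040) (b (l 16042648) (l 16043640))) (l 16046568)) (l 16038904)) (b (b (l 1) (l 16029808)) (l 16043240)))) (a (b (l 1) (a (l 16042592) (l 1))) (l 1)))) (a (a (b (a (b (l 15899024) (a (l 15732016) (l 15778808))) (b (l 15952160) (l 15843280)))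 (a (b (b (l 15632752) (l 15544840)) (a (b (l 15416760) (l 15320688)) (l 15445648))) (b (l 15709696) (a (l 15519736) (l 15593064))))) (b (a (b (l 15995248) (l 15919584)) (b (l 16028880) (l 15985472))) (a (b (l 15819384) (l 15700160)) (b (l 15919872) (l 15838040))))) (a (b (a (b (l 16054168) (l 16041528)) (b (l 16060152) (l 16077416))) (a (l 16076280) (l 16085856))) (b (a (l 331281968087) (l 1)) (a (b (l 16118224) (l 16166448)) (b (l 16126064) (l 16212072))))))), by decide +kernel⟩

theorem c_pm_112 : CertB 536870912 536870912 536870912 536870912 780900216 37827925 3 eng mog cd0q1 cd3q1 pd2 true true false .dn 1 1 2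
    ndB0q1 ndB3q1 pcB2 Cut.none Ext.none :=
  certB1 (fam := true) (s1 := true) (s2 := false) (a := 1) (b := 1) (c := 2) (cn := .dn) (n1 := ndB0q1) (n2 := ndB3q1) (pc := pcB2) (cut := Cut.none) (xt := Ext.none) (P1 := 536870912) (W1 := 536870912) (P2 := 536870912) (W2 := 536870912) (P3 := 780900216) (W3 := 37827925) (N0 := 3) (En := eng) (mo := mog) (C1 := cd0q1) (C2 := cd3q1) (C3 := pd2)
    rfl (fun _ => rfl) k0_pm_112

noncomputable def f_pm_113 : ℕ → ℕ → ℕ → ℕ → Bool := onCell 536870912 536870912 1610612736 536870912 780900216 37827925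
    (rowB 3 eng mog cd0q1 cd3q1 pd3 1 true true false .nn 1 1 3 (qsf 536870912 536870912 536870912 536870912 3) ndB0q1 ndB3q1 pcB3 Cut.none Ext.none)

def k0_pm_113 : ∃ t, chk3 f_pm_113 t 1 1 1 = true :=
  ⟨(a (b (b (a (a (b (a (b (l 259943383335) (l 310408968631)) (b (l 15311360) (l 15338744))) (a (l 2) (b (l 314703912983) (l 2)))) (b (b (l 15442960) (l 15353176)) (b (l 248669192151) (l 309335385063)))) (a (b (l 15579048) (a (l 15372416) (l 15478936))) (b (l 15764120) (l 15650048)))) (a (b (a (l 2) (l 351211215159)) (l 2)) (b (a (l 267459885367) (l 15549416)) (a (l 373760069367) (l 15477656))))) (a (l 2) (b (b (a (l 2) (l 402214372503)) (l 2)) (l 2)))) (b (b (a (b (a (l 15949144) (l 16121208)) (a (l 15889096) (l 16139120))) (b (a (l 16252208) (l 16333792)) (a (l 16358656) (l 16523544)))) (a (b (a (l 15851408) (l 16117000)) (a (l 15807728) (l 16030616))) (b (a (l 16312632) (l 16460560)) (a (l 16232480) (l 16383144))))) (b (a (b (a (b (l 15742632) (l 15701296)) (b (l 15963776)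 (l 4))) (a (b (l 15660800) (l 2)) (l 4))) (b (l 4) (l 4))) (l 4)))), by decide +kernel⟩

theorem c_pm_113 : CertB 536870912 536870912 536870912 536870912 780900216 37827925 3 eng mog cd0q1 cd3q1 pd3 true true false .nn 1 1 3
    ndB0q1 ndB3q1 pcB3 Cut.none Ext.none :=
  certB1 (fam := true) (s1 := true) (s2 := false) (a := 1) (b := 1) (c := 3) (cn := .nn) (n1 := ndB0q1) (n2 := ndB3q1) (pc := pcB3) (cut := Cut.none) (xt := Ext.none) (P1 := 536870912) (W1 := 536870912) (P2 := 536870912) (W2 := 536870912) (P3 := 780900216) (W3 := 37827925) (N0 := 3) (En := eng) (mo := mog) (C1 := cd0q1) (C2 := cd3q1) (C3 := pd3)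
    rfl (fun _ => rfl) k0_pm_113

noncomputable def f_pm_123 : ℕ → ℕ → ℕ → ℕ → Bool := onCell 536870912 536870912 1610612736 536870912 780900216 37827925
    (rowB 3 eng mog cd0q1 cd3q2 pd3 1 true true false .npn 1 2 3 (qsf 536870912 536870912 1073741824 536870912 3) ndB0q1 ndB3q2 pcB3 Cut.none Ext.none)

def k0_pm_123 : ∃ t, chk3 f_pm_123 t 2 1 1 = true :=
  ⟨(b (b (a (a (b (a (c (l 211022546743) (b (l 241087144839) (l 16058680))) (b (l 322691479271) (l 228202269559))) (a (b (l 16101744) (l 16125304)) (b (l 16084416) (l 16109232)))) (a (b (b (l 1) (l 333965785143)) (b (l 236255294631) (l 16096096))) (b (l 1) (l 262562019559)))) (a (b (l 1) (a (l 358125041783) (l 1))) (l 1))) (a (b (a (a (l 16188168) (b (l 16136200) (l 16177120))) (a (b (l 16124296) (l 16154536)) (b (l 16117264) (l 16148688)))) (a (b (l 16243888) (l 16287816)) (b (l 16192600) (l 16241776)))) (a (b (a (l 261488615399) (l 284573885063)) (b (a (l 16185240) (l 16203624)) (l 16230808))) (b (a (l 386579443719) (l 1))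 (a (l 289943007767) (l 362420556871)))))) (a (b (b (a (b (l 16324912) (l 16366624)) (b (l 16295744) (l 16347168))) (a (l 16446928) (l 16425432))) (b (a (b (l 16520384) (a (l 16575256) (l 16562616))) (l 16329296)) (b (a (l 16621424) (b (l 16578376) (l 16607176))) (b (l 16712552) (b (l 16656432) (l 4)))))) (b (b (a (b (l 16276840) (l 16327072)) (b (l 16362048) (l 16362920))) (a (l 16402816) (a (l 16393304) (l 16405896)))) (b (a (b (l 16469576) (l 16512328)) (a (l 16478136) (l 16474160))) (b (a (a (l 16459000) (l 16550368)) (l 16661400)) (b (a (a (l 16606488) (l 16588944)) (l 16462312)) (b (a (l 16619976) (l 16591032)) (b (l 16620096) (b (l 16625984) (l 4)))))))))), by decide +kernel⟩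

def k1_pm_123 : ∃ t, chk3 f_pm_123 t 3 1 1 = true :=
  ⟨(b (a (a (b (l 1) (b (l 1) (a (l 401612379607) (l 1)))) (l 1)) (l 1)) (a (b (b (a (a (l 360810087287) (l 366179027463)) (a (l 404296938231) (l 1))) (a (a (l 16432296) (l 16452776)) (a (l 338798858487) (l 354367960599)))) (b (a (a (l 16449480) (b (l 16466528) (l 16484288))) (a (l 16668816) (b (l 16552696) (l 16534232)))) (b (a (a (l 16523096) (l 16518632)) (a (l 16515312) (l 16527192))) (b (a (l 16550120) (l 16709104)) (b (a (l 16712728) (l 16556936)) (b (a (l 16578696) (l 16566528)) (a (b (l 16584784) (b (l 16590664) (l 16430104))) (b (l 16571592) (b (l 16574256) (a (l 16725688) (a (l 16783720) (l 16739128)))))))))))) (b (b (l 1) (a (a (b (l 1) (l 365105772247)) (l 1)) (l 1))) (b (a (a (b (l 255584061607) (l 16578520)) (b (l 349536607015) (l 16671392))) (b (l 1) (a (l 355979136071) (l 1)))) (b (a (a (l 16562720) (b (l 16613416) (l 16606304))) (a (b (l 16650808) (l 16681336)) (a (l 16770032) (l 1)))) (b (a (a (l 16562224)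 (l 16600416)) (a (b (l 16633784) (a (l 16624104) (l 16638096))) (b (l 16661496) (a (l 16651168) (l 16667568))))) (b (a (a (l 16565888) (l 16586888)) (a (b (l 16630456) (l 16627488)) (l 410740005975))) (a (b (a (l 16573168) (l 16603656)) (b (a (l 16576368) (l 16595704)) (b (l 16436784) (a (l 689577338407) (l 4))))) (b (a (l 16621800) (l 16668176)) (b (l 1164171179303) (l 4))))))))))), by decide +kernel⟩

theorem s2_pm_123 : ∃ t, chk3 f_pm_123 t 1 1 1 = true := ex3_a k0_pm_123 k1_pm_123

theorem c_pm_123 : CertB 536870912 536870912 1073741824 536870912 780900216 37827925 3 eng mog cd0q1 cd3q2 pd3 true true false .npn 1 2 3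
    ndB0q1 ndB3q2 pcB3 Cut.none Ext.none :=
  certB1 (fam := true) (s1 := true) (s2 := false) (a := 1) (b := 2) (c := 3) (cn := .npn) (n1 := ndB0q1) (n2 := ndB3q2) (pc := pcB3) (cut := Cut.none) (xt := Ext.none) (P1 := 536870912) (W1 := 536870912) (P2 := 1073741824) (W2 := 536870912) (P3 := 780900216) (W3 := 37827925) (N0 := 3) (En := eng) (mo := mog) (C1 := cd0q1) (C2 := cd3q2) (C3 := pd3)
    rfl (fun _ => rfl) s2_pm_123

noncomputable def f_pm_133 : ℕ → ℕ → ℕ → ℕ → Bool := onCell 536870912 536870912 0 1230186008 780900216 37827925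
    (rowB 3 eng mog cd0q1 cd3q3 pd3 0 true true false .dn 1 3 3 (qsf 536870912 536870912 0 1230186008 3) ndB0q1 ndB3q3 pcB3 Cut.none Ext.none)

def k0_pm_133 : ∃ t, chk3 f_pm_133 t 1 1 1 = true :=
  ⟨(b (l 2) (b (l 2) (a (l 4) (l 2)))), by decide +kernel⟩

theorem c_pm_133 : CertB 536870912 536870912 0 1230186008 780900216 37827925 3 eng mog cd0q1 cd3q3 pd3 true true false .dn 1 3 3
    ndB0q1 ndB3q3 pcB3 Cut.none Ext.none :=
  certB0 (fam := true) (s1 := true) (s2 := false) (a := 1) (b := 3) (c := 3) (cn := .dn) (n1 := ndB0q1) (n2 := ndB3q3) (pc := pcB3) (cut := Cut.none) (xt := Ext.none) (P1 := 536870912) (W1 := 536870912) (P2 := 0) (W2 := 1230186008) (P3 := 780900216) (W3 := 37827925) (N0 := 3) (En := eng) (mo := mog) (C1 := cd0q1) (C2 := cd3q3) (C3 := pd3)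
    rfl k0_pm_133

noncomputable def f_pm_202 : ℕ → ℕ → ℕ → ℕ → Bool := onCell 0 536870912 0 536870912 780900216 37827925
    (rowB 3 eng mog cd0q2 cd3q0 pd2 0 true true false .pp 2 0 2 (qsf 0 536870912 0 536870912 2) ndB0q2 ndB3q0 pcB2 Cut.none Ext.none)

def k0_pm_202 : ∃ t, chk3 f_pm_202 t 2 1 1 = true :=
  ⟨(b (a (b (b (b (a (l 16426520) (l 16443800)) (l 16420704)) (b (l 16308984) (l 16413280))) (b (b (l 16415848) (l 16422880)) (b (a (l 16445520) (l 16425392)) (a (l 4) (l 16446792))))) (b (b (a (b (l 16519344) (l 16308952)) (b (l 16477072) (l 16463016))) (a (b (l 16418896) (l 16410680)) (b (a (l 16418808) (l 16417616)) (l 16426216)))) (b (a (l 16426536) (l 16557736)) (b (a (l 16408288) (l 16384552)) (l 16639952))))) (a (b (b (b (l 16643368) (l 4)) (l 4)) (l 2)) (b (b (b (a (l 16437952) (l 16404560)) (a (l 16458952) (l 16416448))) (a (b (l 4) (l 4)) (b (l 16422624) (l 16431304)))) (l 4)))), by decide +kernel⟩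

def k1_pm_202 : ∃ t, chk3 f_pm_202 t 3 1 1 = true :=
  ⟨(b (a (b (b (a (b (b (l 16504320) (l 16480064)) (a (l 16446144) (l 16446952))) (b (a (l 16499008) (l 16483304)) (a (l 16446912) (l 16444928)))) (a (b (l 16414152) (l 16408680)) (b (l 16443264) (l 16386840)))) (b (a (b (l 16413280) (l 16360424)) (b (l 16338256) (l 16315840))) (b (a (l 16350424) (b (l 16304680) (l 16300400))) (a (l 16353472) (l 16303520))))) (b (b (a (b (a (b (l 16530672) (l 16492160)) (b (l 16544184) (l 16502680))) (a (l 16441760) (l 16444000))) (b (a (b (a (l 16556728) (l 16566648)) (l 16516400)) (a (b (b (l 16590640) (l 16564816)) (l 16527552)) (b (l 16588720) (l 16536376)))) (a (l 16452232) (b (l 16484016) (l 16438808))))) (a (b (a (l 16387576) (l 16380984)) (a (l 16343000) (l 16330712))) (a (b (l 16377168) (l 16320064)) (b (l 16375600) (l 16307648))))) (b (a (b (l 16404640) (l 16269608)) (b (a (l 16273504) (l 16255960)) (a (l 16236504) (l 16213904)))) (b (a (b (l 16251920) (l 16243224)) (b (l 16200872)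 (l 16188560))) (a (l 16241176) (l 16331680)))))) (b (a (b (b (a (l 16361712) (l 16306048)) (a (l 16370296) (l 16310792))) (a (l 16373728) (l 16310824))) (b (a (b (l 16242528) (l 16245336)) (b (l 16181824) (l 16178816))) (a (l 16240256) (a (l 16187832) (l 16149928))))) (a (b (a (b (l 16386040) (l 2)) (l 16332856)) (l 2)) (b (a (l 16263528) (l 16192432)) (a (l 16326120) (l 16262608)))))), by decide +kernel⟩

theorem s2_pm_202 : ∃ t, chk3 f_pm_202 t 1 1 1 = true := ex3_a k0_pm_202 k1_pm_202

theorem c_pm_202 : CertB 0 536870912 0 536870912 780900216 37827925 3 eng mog cd0q2 cd3q0 pd2 true true false .pp 2 0 2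
    ndB0q2 ndB3q0 pcB2 Cut.none Ext.none :=
  certB0 (fam := true) (s1 := true) (s2 := false) (a := 2) (b := 0) (c := 2) (cn := .pp) (n1 := ndB0q2) (n2 := ndB3q0) (pc := pcB2) (cut := Cut.none) (xt := Ext.none) (P1 := 0) (W1 := 536870912) (P2 := 0) (W2 := 536870912) (P3 := 780900216) (W3 := 37827925) (N0 := 3) (En := eng) (mo := mog) (C1 := cd0q2) (C2 := cd3q0) (C3 := pd2)
    rfl s2_pm_202

noncomputable def f_pm_203 : ℕ → ℕ → ℕ → ℕ → Bool := onCell 0 536870912 1610612736 536870912 780900216 37827925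
    (rowB 3 eng mog cd0q2 cd3q0 pd3 1 true true false .up 2 0 3 (qsf 0 536870912 0 536870912 3) ndB0q2 ndB3q0 pcB3 Cut.none Ext.none)

def k0_pm_203 : ∃ t, chk3 f_pm_203 t 1 1 1 = true :=
  ⟨(b (a (b (l 4) (l 4)) (b (a (b (b (l 16375208) (l 16397368)) (b (l 16427928) (l 4))) (b (l 16341752) (b (l 16433944) (l 2)))) (a (l 2) (l 2)))) (l 2)), by decide +kernel⟩

theorem c_pm_203 : CertB 0 536870912 0 536870912 780900216 37827925 3 eng mog cd0q2 cd3q0 pd3 true true false .up 2 0 3
    ndB0q2 ndB3q0 pcB3 Cut.none Ext.none :=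
  certB1 (fam := true) (s1 := true) (s2 := false) (a := 2) (b := 0) (c := 3) (cn := .up) (n1 := ndB0q2) (n2 := ndB3q0) (pc := pcB3) (cut := Cut.none) (xt := Ext.none) (P1 := 0) (W1 := 536870912) (P2 := 0) (W2 := 536870912) (P3 := 780900216) (W3 := 37827925) (N0 := 3) (En := eng) (mo := mog) (C1 := cd0q2) (C2 := cd3q0) (C3 := pd3)
    rfl (fun _ => rfl) k0_pm_203

noncomputable def f_pm_213 : ℕ → ℕ → ℕ → ℕ → Bool := onCell 0 536870912 1610612736 536870912 780900216 37827925
    (rowB 3 eng mog cd0q2 cd3q1 pd3 1 true true false .pnn 2 1 3 (qsf 0 536870912 536870912 536870912 3) ndB0q2 ndB3q1 pcB3 Cut.none Ext.none)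

def k0_pm_213 : ∃ t, chk3 f_pm_213 t 1 1 1 = true :=
  ⟨(b (a (b (l 4) (l 4)) (b (a (b (l 1) (b (l 16395664) (l 4))) (b (l 16334720) (b (l 16432832) (l 16510984)))) (a (l 4) (b (a (l 4) (l 16502128)) (l 4))))) (l 4)), by decide +kernel⟩

theorem c_pm_213 : CertB 0 536870912 536870912 536870912 780900216 37827925 3 eng mog cd0q2 cd3q1 pd3 true true false .pnn 2 1 3
    ndB0q2 ndB3q1 pcB3 Cut.none Ext.none :=
  certB1 (fam := true) (s1 := true) (s2 := false) (a := 2) (b := 1) (c := 3) (cn := .pnn) (n1 := ndB0q2) (n2 := ndB3q1) (pc := pcB3) (cut := Cut.none) (xt := Ext.none) (P1 := 0) (W1 := 536870912) (P2 := 536870912) (W2 := 536870912) (P3 := 780900216) (W3 := 37827925) (N0 := 3) (En := eng) (mo := mog) (C1 := cd0q2) (C2 := cd3q1) (C3 := pd3)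
    rfl (fun _ => rfl) k0_pm_213

noncomputable def f_mm_001 : ℕ → ℕ → ℕ → ℕ → Bool := onCell 0 536870912 0 536870912 780900216 37827925
    (rowB 3 eng mog cd0q0 cd3q0 pd1 0 true false false .up 0 0 1 (qsf 0 536870912 0 536870912 1) ndB0q0 ndB3q0 pcB1 Cut.none Ext.none)

def k0_mm_001 : ∃ t, chk3 f_mm_001 t 1 1 1 = true :=
  ⟨(l 4), by decide +kernel⟩

theorem c_mm_001 : CertB 0 536870912 0 536870912 780900216 37827925 3 eng mog cd0q0 cd3q0 pd1 true false false .up 0 0 1
    ndB0q0 ndB3q0 pcB1 Cut.none Ext.none :=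
  certB0 (fam := true) (s1 := false) (s2 := false) (a := 0) (b := 0) (c := 1) (cn := .up) (n1 := ndB0q0) (n2 := ndB3q0) (pc := pcB1) (cut := Cut.none) (xt := Ext.none) (P1 := 0) (W1 := 536870912) (P2 := 0) (W2 := 536870912) (P3 := 780900216) (W3 := 37827925) (N0 := 3) (En := eng) (mo := mog) (C1 := cd0q0) (C2 := cd3q0) (C3 := pd1)
    rfl k0_mm_001

noncomputable def f_mm_011 : ℕ → ℕ → ℕ → ℕ → Bool := onCell 0 536870912 536870912 536870912 780900216 37827925
    (rowB 3 eng mog cd0q0 cd3q1 pd1 0 true false false .pnn 0 1 1 (qsf 0 536870912 536870912 536870912 1) ndB0q0 ndB3q1 pcB1 Cut.none Ext.none)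

def k0_mm_011 : ∃ t, chk3 f_mm_011 t 1 1 1 = true :=
  ⟨(l 4), by decide +kernel⟩

theorem c_mm_011 : CertB 0 536870912 536870912 536870912 780900216 37827925 3 eng mog cd0q0 cd3q1 pd1 true false false .pnn 0 1 1
    ndB0q0 ndB3q1 pcB1 Cut.none Ext.none :=
  certB0 (fam := true) (s1 := false) (s2 := false) (a := 0) (b := 1) (c := 1) (cn := .pnn) (n1 := ndB0q0) (n2 := ndB3q1) (pc := pcB1) (cut := Cut.none) (xt := Ext.none) (P1 := 0) (W1 := 536870912) (P2 := 536870912) (W2 := 536870912) (P3 := 780900216) (W3 := 37827925) (N0 := 3) (En := eng) (mo := mog) (C1 := cd0q0) (C2 := cd3q1) (C3 := pd1)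
    rfl k0_mm_011

noncomputable def f_mm_012 : ℕ → ℕ → ℕ → ℕ → Bool := onCell 0 536870912 536870912 536870912 780900216 37827925
    (rowB 3 eng mog cd0q0 cd3q1 pd2 0 true false false .pnp 0 1 2 (qsf 0 536870912 536870912 536870912 2) ndB0q0 ndB3q1 pcB2 Cut.none Ext.none)

def k0_mm_012 : ∃ t, chk3 f_mm_012 t 1 1 1 = true :=
  ⟨(l 4), by decide +kernel⟩

theorem c_mm_012 : CertB 0 536870912 536870912 536870912 780900216 37827925 3 eng mog cd0q0 cd3q1 pd2 true false false .pnp 0 1 2
    ndB0q0 ndB3q1 pcB2 Cut.none Ext.none :=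
  certB0 (fam := true) (s1 := false) (s2 := false) (a := 0) (b := 1) (c := 2) (cn := .pnp) (n1 := ndB0q0) (n2 := ndB3q1) (pc := pcB2) (cut := Cut.none) (xt := Ext.none) (P1 := 0) (W1 := 536870912) (P2 := 536870912) (W2 := 536870912) (P3 := 780900216) (W3 := 37827925) (N0 := 3) (En := eng) (mo := mog) (C1 := cd0q0) (C2 := cd3q1) (C3 := pd2)
    rfl k0_mm_012

noncomputable def f_mm_022 : ℕ → ℕ → ℕ → ℕ → Bool := onCell 0 536870912 1073741824 536870912 780900216 37827925
    (rowB 3 eng mog cd0q0 cd3q2 pd2 0 true false false .pp 0 2 2 (qsf 0 536870912 1073741824 536870912 2) ndB0q0 ndB3q2 pcB2 Cut.none Ext.none)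

def k0_mm_022 : ∃ t, chk3 f_mm_022 t 1 1 1 = true :=
  ⟨(l 4), by decide +kernel⟩

theorem c_mm_022 : CertB 0 536870912 1073741824 536870912 780900216 37827925 3 eng mog cd0q0 cd3q2 pd2 true false false .pp 0 2 2
    ndB0q0 ndB3q2 pcB2 Cut.none Ext.none :=
  certB0 (fam := true) (s1 := false) (s2 := false) (a := 0) (b := 2) (c := 2) (cn := .pp) (n1 := ndB0q0) (n2 := ndB3q2) (pc := pcB2) (cut := Cut.none) (xt := Ext.none) (P1 := 0) (W1 := 536870912) (P2 := 1073741824) (W2 := 536870912) (P3 := 780900216) (W3 := 37827925) (N0 := 3) (En := eng) (mo := mog) (C1 := cd0q0) (C2 := cd3q2) (C3 := pd2)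
    rfl k0_mm_022

noncomputable def f_mm_023 : ℕ → ℕ → ℕ → ℕ → Bool := onCell 0 536870912 1073741824 536870912 780900216 37827925
    (rowB 3 eng mog cd0q0 cd3q2 pd3 0 true false false .up 0 2 3 (qsf 0 536870912 1073741824 536870912 3) ndB0q0 ndB3q2 pcB3 Cut.none Ext.none)

def k0_mm_023 : ∃ t, chk3 f_mm_023 t 1 1 1 = true :=
  ⟨(l 4), by decide +kernel⟩

theorem c_mm_023 : CertB 0 536870912 1073741824 536870912 780900216 37827925 3 eng mog cd0q0 cd3q2 pd3 true false false .up 0 2 3
    ndB0q0 ndB3q2 pcB3 Cut.none Ext.none :=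
  certB0 (fam := true) (s1 := false) (s2 := false) (a := 0) (b := 2) (c := 3) (cn := .up) (n1 := ndB0q0) (n2 := ndB3q2) (pc := pcB3) (cut := Cut.none) (xt := Ext.none) (P1 := 0) (W1 := 536870912) (P2 := 1073741824) (W2 := 536870912) (P3 := 780900216) (W3 := 37827925) (N0 := 3) (En := eng) (mo := mog) (C1 := cd0q0) (C2 := cd3q2) (C3 := pd3)
    rfl k0_mm_023

noncomputable def f_mm_033 : ℕ → ℕ → ℕ → ℕ → Bool := onCell 0 536870912 0 1230186008 780900216 37827925
    (rowB 3 eng mog cd0q0 cd3q3 pd3 0 true false false .pnn 0 3 3 (qsf 0 536870912 0 1230186008 3) ndB0q0 ndB3q3 pcB3 Cut.none Ext.none)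

def k0_mm_033 : ∃ t, chk3 f_mm_033 t 1 1 1 = true :=
  ⟨(l 5), by decide +kernel⟩

theorem c_mm_033 : CertB 0 536870912 0 1230186008 780900216 37827925 3 eng mog cd0q0 cd3q3 pd3 true false false .pnn 0 3 3
    ndB0q0 ndB3q3 pcB3 Cut.none Ext.none :=
  certB0 (fam := true) (s1 := false) (s2 := false) (a := 0) (b := 3) (c := 3) (cn := .pnn) (n1 := ndB0q0) (n2 := ndB3q3) (pc := pcB3) (cut := Cut.none) (xt := Ext.none) (P1 := 0) (W1 := 536870912) (P2 := 0) (W2 := 1230186008) (P3 := 780900216) (W3 := 37827925) (N0 := 3) (En := eng) (mo := mog) (C1 := cd0q0) (C2 := cd3q3) (C3 := pd3)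
    rfl k0_mm_033

noncomputable def f_mm_101 : ℕ → ℕ → ℕ → ℕ → Bool := onCell 536870912 536870912 0 536870912 780900216 37827925
    (rowB 3 eng mog cd0q1 cd3q0 pd1 0 true false false .npn 1 0 1 (qsf 536870912 536870912 0 536870912 1) ndB0q1 ndB3q0 pcB1 Cut.none Ext.none)

def k0_mm_101 : ∃ t, chk3 f_mm_101 t 1 1 1 = true :=
  ⟨(l 4), by decide +kernel⟩

theorem c_mm_101 : CertB 536870912 536870912 0 536870912 780900216 37827925 3 eng mog cd0q1 cd3q0 pd1 true false false .npn 1 0 1
    ndB0q1 ndB3q0 pcB1 Cut.none Ext.none :=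
  certB0 (fam := true) (s1 := false) (s2 := false) (a := 1) (b := 0) (c := 1) (cn := .npn) (n1 := ndB0q1) (n2 := ndB3q0) (pc := pcB1) (cut := Cut.none) (xt := Ext.none) (P1 := 536870912) (W1 := 536870912) (P2 := 0) (W2 := 536870912) (P3 := 780900216) (W3 := 37827925) (N0 := 3) (En := eng) (mo := mog) (C1 := cd0q1) (C2 := cd3q0) (C3 := pd1)
    rfl k0_mm_101

noncomputable def f_mm_102 : ℕ → ℕ → ℕ → ℕ → Bool := onCell 536870912 536870912 0 536870912 780900216 37827925
    (rowB 3 eng mog cd0q1 cd3q0 pd2 0 true false false .npp 1 0 2 (qsf 536870912 536870912 0 536870912 2) ndB0q1 ndB3q0 pcB2 Cut.none Ext.none)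

def k0_mm_102 : ∃ t, chk3 f_mm_102 t 1 1 1 = true :=
  ⟨(l 4), by decide +kernel⟩

theorem c_mm_102 : CertB 536870912 536870912 0 536870912 780900216 37827925 3 eng mog cd0q1 cd3q0 pd2 true false false .npp 1 0 2
    ndB0q1 ndB3q0 pcB2 Cut.none Ext.none :=
  certB0 (fam := true) (s1 := false) (s2 := false) (a := 1) (b := 0) (c := 2) (cn := .npp) (n1 := ndB0q1) (n2 := ndB3q0) (pc := pcB2) (cut := Cut.none) (xt := Ext.none) (P1 := 536870912) (W1 := 536870912) (P2 := 0) (W2 := 536870912) (P3 := 780900216) (W3 := 37827925) (N0 := 3) (En := eng) (mo := mog) (C1 := cd0q1) (C2 := cd3q0) (C3 := pd2)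
    rfl k0_mm_102

noncomputable def f_mm_112 : ℕ → ℕ → ℕ → ℕ → Bool := onCell 536870912 536870912 536870912 536870912 780900216 37827925
    (rowB 3 eng mog cd0q1 cd3q1 pd2 0 true false false .dn 1 1 2 (qsf 536870912 536870912 536870912 536870912 2) ndB0q1 ndB3q1 pcB2 Cut.none Ext.none)

def k0_mm_112 : ∃ t, chk3 f_mm_112 t 1 1 1 = true :=
  ⟨(l 4), by decide +kernel⟩

theorem c_mm_112 : CertB 536870912 536870912 536870912 536870912 780900216 37827925 3 eng mog cd0q1 cd3q1 pd2 true false false .dn 1 1 2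
    ndB0q1 ndB3q1 pcB2 Cut.none Ext.none :=
  certB0 (fam := true) (s1 := false) (s2 := false) (a := 1) (b := 1) (c := 2) (cn := .dn) (n1 := ndB0q1) (n2 := ndB3q1) (pc := pcB2) (cut := Cut.none) (xt := Ext.none) (P1 := 536870912) (W1 := 536870912) (P2 := 536870912) (W2 := 536870912) (P3 := 780900216) (W3 := 37827925) (N0 := 3) (En := eng) (mo := mog) (C1 := cd0q1) (C2 := cd3q1) (C3 := pd2)
    rfl k0_mm_112

noncomputable def f_mm_113 : ℕ → ℕ → ℕ → ℕ → Bool := onCell 536870912 536870912 536870912 536870912 780900216 37827925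
    (rowB 3 eng mog cd0q1 cd3q1 pd3 0 true false false .nn 1 1 3 (qsf 536870912 536870912 536870912 536870912 3) ndB0q1 ndB3q1 pcB3 Cut.none Ext.none)

def k0_mm_113 : ∃ t, chk3 f_mm_113 t 1 1 1 = true :=
  ⟨(l 4), by decide +kernel⟩

theorem c_mm_113 : CertB 536870912 536870912 536870912 536870912 780900216 37827925 3 eng mog cd0q1 cd3q1 pd3 true false false .nn 1 1 3
    ndB0q1 ndB3q1 pcB3 Cut.none Ext.none :=
  certB0 (fam := true) (s1 := false) (s2 := false) (a := 1) (b := 1) (c := 3) (cn := .nn) (n1 := ndB0q1) (n2 := ndB3q1) (pc := pcB3) (cut := Cut.none) (xt := Ext.none) (P1 := 536870912) (W1 := 536870912) (P2 := 536870912) (W2 := 536870912) (P3 := 780900216) (W3 := 37827925) (N0 := 3) (En := eng) (mo := mog) (C1 := cd0q1) (C2 := cd3q1) (C3 := pd3)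
    rfl k0_mm_113

noncomputable def f_mm_123 : ℕ → ℕ → ℕ → ℕ → Bool := onCell 536870912 536870912 1073741824 536870912 780900216 37827925
    (rowB 3 eng mog cd0q1 cd3q2 pd3 0 true false false .npn 1 2 3 (qsf 536870912 536870912 1073741824 536870912 3) ndB0q1 ndB3q2 pcB3 Cut.none Ext.none)

def k0_mm_123 : ∃ t, chk3 f_mm_123 t 1 1 1 = true :=
  ⟨(l 4), by decide +kernel⟩

theorem c_mm_123 : CertB 536870912 536870912 1073741824 536870912 780900216 37827925 3 eng mog cd0q1 cd3q2 pd3 true false false .npn 1 2 3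
    ndB0q1 ndB3q2 pcB3 Cut.none Ext.none :=
  certB0 (fam := true) (s1 := false) (s2 := false) (a := 1) (b := 2) (c := 3) (cn := .npn) (n1 := ndB0q1) (n2 := ndB3q2) (pc := pcB3) (cut := Cut.none) (xt := Ext.none) (P1 := 536870912) (W1 := 536870912) (P2 := 1073741824) (W2 := 536870912) (P3 := 780900216) (W3 := 37827925) (N0 := 3) (En := eng) (mo := mog) (C1 := cd0q1) (C2 := cd3q2) (C3 := pd3)
    rfl k0_mm_123

noncomputable def f_mm_133 : ℕ → ℕ → ℕ → ℕ → Bool := onCell 536870912 536870912 0 1230186008 780900216 37827925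
    (rowB 3 eng mog cd0q1 cd3q3 pd3 0 true false false .dn 1 3 3 (qsf 536870912 536870912 0 1230186008 3) ndB0q1 ndB3q3 pcB3 Cut.none Ext.none)

def k0_mm_133 : ∃ t, chk3 f_mm_133 t 1 1 1 = true :=
  ⟨(l 4), by decide +kernel⟩

theorem c_mm_133 : CertB 536870912 536870912 0 1230186008 780900216 37827925 3 eng mog cd0q1 cd3q3 pd3 true false false .dn 1 3 3
    ndB0q1 ndB3q3 pcB3 Cut.none Ext.none :=
  certB0 (fam := true) (s1 := false) (s2 := false) (a := 1) (b := 3) (c := 3) (cn := .dn) (n1 := ndB0q1) (n2 := ndB3q3) (pc := pcB3) (cut := Cut.none) (xt := Ext.none) (P1 := 536870912) (W1 := 536870912) (P2 := 0) (W2 := 1230186008) (P3 := 780900216) (W3 := 37827925) (N0 := 3) (En := eng) (mo := mog) (C1 := cd0q1) (C2 := cd3q3) (C3 := pd3)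
    rfl k0_mm_133

noncomputable def f_mm_202 : ℕ → ℕ → ℕ → ℕ → Bool := onCell 0 536870912 0 536870912 780900216 37827925
    (rowB 3 eng mog cd0q2 cd3q0 pd2 0 true false false .pp 2 0 2 (qsf 0 536870912 0 536870912 2) ndB0q2 ndB3q0 pcB2 Cut.none Ext.none)

def k0_mm_202 : ∃ t, chk3 f_mm_202 t 1 1 1 = true :=
  ⟨(b (a (a (b (b (b (l 16411064) (l 16402680)) (a (l 16468224) (b (l 16401976) (l 16416520)))) (b (b (a (l 16419976) (l 16443472)) (l 16668912)) (l 4))) (b (b (b (a (l 16393344) (l 16283800)) (a (l 16407232) (l 16623392))) (a (b (l 16419536) (l 4)) (l 4))) (l 4))) (a (b (b (b (a (b (l 16467608) (l 16473352)) (l 4)) (l 4)) (l 4)) (l 4)) (l 4))) (l 4)), by decide +kernel⟩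

theorem c_mm_202 : CertB 0 536870912 0 536870912 780900216 37827925 3 eng mog cd0q2 cd3q0 pd2 true false false .pp 2 0 2
    ndB0q2 ndB3q0 pcB2 Cut.none Ext.none :=
  certB0 (fam := true) (s1 := false) (s2 := false) (a := 2) (b := 0) (c := 2) (cn := .pp) (n1 := ndB0q2) (n2 := ndB3q0) (pc := pcB2) (cut := Cut.none) (xt := Ext.none) (P1 := 0) (W1 := 536870912) (P2 := 0) (W2 := 536870912) (P3 := 780900216) (W3 := 37827925) (N0 := 3) (En := eng) (mo := mog) (C1 := cd0q2) (C2 := cd3q0) (C3 := pd2)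
    rfl k0_mm_202

noncomputable def f_mm_203 : ℕ → ℕ → ℕ → ℕ → Bool := onCell 0 536870912 1610612736 536870912 780900216 37827925
    (rowB 3 eng mog cd0q2 cd3q0 pd3 1 true false false .up 2 0 3 (qsf 0 536870912 0 536870912 3) ndB0q2 ndB3q0 pcB3 Cut.none Ext.none)

def k0_mm_203 : ∃ t, chk3 f_mm_203 t 1 1 1 = true :=
  ⟨(l 4), by decide +kernel⟩

theorem c_mm_203 : CertB 0 536870912 0 536870912 780900216 37827925 3 eng mog cd0q2 cd3q0 pd3 true false false .up 2 0 3
    ndB0q2 ndB3q0 pcB3 Cut.none Ext.none :=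
  certB1 (fam := true) (s1 := false) (s2 := false) (a := 2) (b := 0) (c := 3) (cn := .up) (n1 := ndB0q2) (n2 := ndB3q0) (pc := pcB3) (cut := Cut.none) (xt := Ext.none) (P1 := 0) (W1 := 536870912) (P2 := 0) (W2 := 536870912) (P3 := 780900216) (W3 := 37827925) (N0 := 3) (En := eng) (mo := mog) (C1 := cd0q2) (C2 := cd3q0) (C3 := pd3)
    rfl (fun _ => rfl) k0_mm_203

noncomputable def f_mm_213 : ℕ → ℕ → ℕ → ℕ → Bool := onCell 0 536870912 536870912 536870912 780900216 37827925
    (rowB 3 eng mog cd0q2 cd3q1 pd3 0 true false false .pnn 2 1 3 (qsf 0 536870912 536870912 536870912 3) ndB0q2 ndB3q1 pcB3 Cut.none Ext.none)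

def k0_mm_213 : ∃ t, chk3 f_mm_213 t 1 1 1 = true :=
  ⟨(l 4), by decide +kernel⟩

theorem c_mm_213 : CertB 0 536870912 536870912 536870912 780900216 37827925 3 eng mog cd0q2 cd3q1 pd3 true false false .pnn 2 1 3
    ndB0q2 ndB3q1 pcB3 Cut.none Ext.none :=
  certB0 (fam := true) (s1 := false) (s2 := false) (a := 2) (b := 1) (c := 3) (cn := .pnn) (n1 := ndB0q2) (n2 := ndB3q1) (pc := pcB3) (cut := Cut.none) (xt := Ext.none) (P1 := 0) (W1 := 536870912) (P2 := 536870912) (W2 := 536870912) (P3 := 780900216) (W3 := 37827925) (N0 := 3) (En := eng) (mo := mog) (C1 := cd0q2) (C2 := cd3q1) (C3 := pd3)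
    rfl k0_mm_213

end Pool.Agent.Strip051.G.I72727_7625.Tab.C.BA03

namespace Pool.Agent.Strip051.G.I72727_7625.Tab.C.BA04

open Pool.Agent.Strip051.PB Pool.Agent.Strip051.PB.T
open Pool.Agent.Strip051.G.I72727_7625.Tab

noncomputable def f_pp_001 : ℕ → ℕ → ℕ → ℕ → Bool := onCell 0 536870912 0 536870912 780900216 37827925
    (rowB 3 eng mog cd0q0 cd4q0 pd1 0 true true true .up 0 0 1 (qsf 0 536870912 0 536870912 1) ndB0q0 ndB4q0 pcB1 Cut.none Ext.none)

def k0_pp_001 : ∃ t, chk3 f_pp_001 t 1 1 1 = true :=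
  ⟨(l 4), by decide +kernel⟩

theorem c_pp_001 : CertB 0 536870912 0 536870912 780900216 37827925 3 eng mog cd0q0 cd4q0 pd1 true true true .up 0 0 1
    ndB0q0 ndB4q0 pcB1 Cut.none Ext.none :=
  certB0 (fam := true) (s1 := true) (s2 := true) (a := 0) (b := 0) (c := 1) (cn := .up) (n1 := ndB0q0) (n2 := ndB4q0) (pc := pcB1) (cut := Cut.none) (xt := Ext.none) (P1 := 0) (W1 := 536870912) (P2 := 0) (W2 := 536870912) (P3 := 780900216) (W3 := 37827925) (N0 := 3) (En := eng) (mo := mog) (C1 := cd0q0) (C2 := cd4q0) (C3 := pd1)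
    rfl k0_pp_001

noncomputable def f_pp_011 : ℕ → ℕ → ℕ → ℕ → Bool := onCell 0 536870912 536870912 536870912 780900216 37827925
    (rowB 3 eng mog cd0q0 cd4q1 pd1 0 true true true .pnn 0 1 1 (qsf 0 536870912 536870912 536870912 1) ndB0q0 ndB4q1 pcB1 Cut.none Ext.none)

def k0_pp_011 : ∃ t, chk3 f_pp_011 t 1 1 1 = true :=
  ⟨(l 4), by decide +kernel⟩

theorem c_pp_011 : CertB 0 536870912 536870912 536870912 780900216 37827925 3 eng mog cd0q0 cd4q1 pd1 true true true .pnn 0 1 1
    ndB0q0 ndB4q1 pcB1 Cut.none Ext.none :=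
  certB0 (fam := true) (s1 := true) (s2 := true) (a := 0) (b := 1) (c := 1) (cn := .pnn) (n1 := ndB0q0) (n2 := ndB4q1) (pc := pcB1) (cut := Cut.none) (xt := Ext.none) (P1 := 0) (W1 := 536870912) (P2 := 536870912) (W2 := 536870912) (P3 := 780900216) (W3 := 37827925) (N0 := 3) (En := eng) (mo := mog) (C1 := cd0q0) (C2 := cd4q1) (C3 := pd1)
    rfl k0_pp_011

noncomputable def f_pp_012 : ℕ → ℕ → ℕ → ℕ → Bool := onCell 0 536870912 536870912 536870912 780900216 37827925
    (rowB 3 eng mog cd0q0 cd4q1 pd2 0 true true true .pnp 0 1 2 (qsf 0 536870912 536870912 536870912 2) ndB0q0 ndB4q1 pcB2 Cut.none Ext.none)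

def k0_pp_012 : ∃ t, chk3 f_pp_012 t 1 1 1 = true :=
  ⟨(l 4), by decide +kernel⟩

theorem c_pp_012 : CertB 0 536870912 536870912 536870912 780900216 37827925 3 eng mog cd0q0 cd4q1 pd2 true true true .pnp 0 1 2
    ndB0q0 ndB4q1 pcB2 Cut.none Ext.none :=
  certB0 (fam := true) (s1 := true) (s2 := true) (a := 0) (b := 1) (c := 2) (cn := .pnp) (n1 := ndB0q0) (n2 := ndB4q1) (pc := pcB2) (cut := Cut.none) (xt := Ext.none) (P1 := 0) (W1 := 536870912) (P2 := 536870912) (W2 := 536870912) (P3 := 780900216) (W3 := 37827925) (N0 := 3) (En := eng) (mo := mog) (C1 := cd0q0) (C2 := cd4q1) (C3 := pd2)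
    rfl k0_pp_012

noncomputable def f_pp_022 : ℕ → ℕ → ℕ → ℕ → Bool := onCell 0 536870912 1073741824 536870912 780900216 37827925
    (rowB 3 eng mog cd0q0 cd4q2 pd2 0 true true true .pp 0 2 2 (qsf 0 536870912 1073741824 536870912 2) ndB0q0 ndB4q2 pcB2 Cut.none Ext.none)

def k0_pp_022 : ∃ t, chk3 f_pp_022 t 1 1 1 = true :=
  ⟨(l 4), by decide +kernel⟩

theorem c_pp_022 : CertB 0 536870912 1073741824 536870912 780900216 37827925 3 eng mog cd0q0 cd4q2 pd2 true true true .pp 0 2 2
    ndB0q0 ndB4q2 pcB2 Cut.none Ext.none :=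
  certB0 (fam := true) (s1 := true) (s2 := true) (a := 0) (b := 2) (c := 2) (cn := .pp) (n1 := ndB0q0) (n2 := ndB4q2) (pc := pcB2) (cut := Cut.none) (xt := Ext.none) (P1 := 0) (W1 := 536870912) (P2 := 1073741824) (W2 := 536870912) (P3 := 780900216) (W3 := 37827925) (N0 := 3) (En := eng) (mo := mog) (C1 := cd0q0) (C2 := cd4q2) (C3 := pd2)
    rfl k0_pp_022

noncomputable def f_pp_023 : ℕ → ℕ → ℕ → ℕ → Bool := onCell 0 536870912 1073741824 536870912 780900216 37827925
    (rowB 3 eng mog cd0q0 cd4q2 pd3 0 true true true .up 0 2 3 (qsf 0 536870912 1073741824 536870912 3) ndB0q0 ndB4q2 pcB3 Cut.none Ext.none)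

def k0_pp_023 : ∃ t, chk3 f_pp_023 t 1 1 1 = true :=
  ⟨(l 4), by decide +kernel⟩

theorem c_pp_023 : CertB 0 536870912 1073741824 536870912 780900216 37827925 3 eng mog cd0q0 cd4q2 pd3 true true true .up 0 2 3
    ndB0q0 ndB4q2 pcB3 Cut.none Ext.none :=
  certB0 (fam := true) (s1 := true) (s2 := true) (a := 0) (b := 2) (c := 3) (cn := .up) (n1 := ndB0q0) (n2 := ndB4q2) (pc := pcB3) (cut := Cut.none) (xt := Ext.none) (P1 := 0) (W1 := 536870912) (P2 := 1073741824) (W2 := 536870912) (P3 := 780900216) (W3 := 37827925) (N0 := 3) (En := eng) (mo := mog) (C1 := cd0q0) (C2 := cd4q2) (C3 := pd3)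
    rfl k0_pp_023

noncomputable def f_pp_033 : ℕ → ℕ → ℕ → ℕ → Bool := onCell 0 536870912 0 1230186008 780900216 37827925
    (rowB 3 eng mog cd0q0 cd4q3 pd3 0 true true true .pnn 0 3 3 (qsf 0 536870912 0 1230186008 3) ndB0q0 ndB4q3 pcB3 Cut.none Ext.none)

def k0_pp_033 : ∃ t, chk3 f_pp_033 t 1 1 1 = true :=
  ⟨(b (l 4) (l 4)), by decide +kernel⟩

theorem c_pp_033 : CertB 0 536870912 0 1230186008 780900216 37827925 3 eng mog cd0q0 cd4q3 pd3 true true true .pnn 0 3 3
    ndB0q0 ndB4q3 pcB3 Cut.none Ext.none :=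
  certB0 (fam := true) (s1 := true) (s2 := true) (a := 0) (b := 3) (c := 3) (cn := .pnn) (n1 := ndB0q0) (n2 := ndB4q3) (pc := pcB3) (cut := Cut.none) (xt := Ext.none) (P1 := 0) (W1 := 536870912) (P2 := 0) (W2 := 1230186008) (P3 := 780900216) (W3 := 37827925) (N0 := 3) (En := eng) (mo := mog) (C1 := cd0q0) (C2 := cd4q3) (C3 := pd3)
    rfl k0_pp_033

noncomputable def f_pp_101 : ℕ → ℕ → ℕ → ℕ → Bool := onCell 536870912 536870912 0 536870912 780900216 37827925
    (rowB 3 eng mog cd0q1 cd4q0 pd1 0 true true true .npn 1 0 1 (qsf 536870912 536870912 0 536870912 1) ndB0q1 ndB4q0 pcB1 Cut.none Ext.none)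

def k0_pp_101 : ∃ t, chk3 f_pp_101 t 1 1 1 = true :=
  ⟨(l 4), by decide +kernel⟩

theorem c_pp_101 : CertB 536870912 536870912 0 536870912 780900216 37827925 3 eng mog cd0q1 cd4q0 pd1 true true true .npn 1 0 1
    ndB0q1 ndB4q0 pcB1 Cut.none Ext.none :=
  certB0 (fam := true) (s1 := true) (s2 := true) (a := 1) (b := 0) (c := 1) (cn := .npn) (n1 := ndB0q1) (n2 := ndB4q0) (pc := pcB1) (cut := Cut.none) (xt := Ext.none) (P1 := 536870912) (W1 := 536870912) (P2 := 0) (W2 := 536870912) (P3 := 780900216) (W3 := 37827925) (N0 := 3) (En := eng) (mo := mog) (C1 := cd0q1) (C2 := cd4q0) (C3 := pd1)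
    rfl k0_pp_101

noncomputable def f_pp_102 : ℕ → ℕ → ℕ → ℕ → Bool := onCell 536870912 536870912 0 536870912 780900216 37827925
    (rowB 3 eng mog cd0q1 cd4q0 pd2 0 true true true .npp 1 0 2 (qsf 536870912 536870912 0 536870912 2) ndB0q1 ndB4q0 pcB2 Cut.none Ext.none)

def k0_pp_102 : ∃ t, chk3 f_pp_102 t 1 1 1 = true :=
  ⟨(l 4), by decide +kernel⟩

theorem c_pp_102 : CertB 536870912 536870912 0 536870912 780900216 37827925 3 eng mog cd0q1 cd4q0 pd2 true true true .npp 1 0 2
    ndB0q1 ndB4q0 pcB2 Cut.none Ext.none :=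
  certB0 (fam := true) (s1 := true) (s2 := true) (a := 1) (b := 0) (c := 2) (cn := .npp) (n1 := ndB0q1) (n2 := ndB4q0) (pc := pcB2) (cut := Cut.none) (xt := Ext.none) (P1 := 536870912) (W1 := 536870912) (P2 := 0) (W2 := 536870912) (P3 := 780900216) (W3 := 37827925) (N0 := 3) (En := eng) (mo := mog) (C1 := cd0q1) (C2 := cd4q0) (C3 := pd2)
    rfl k0_pp_102

noncomputable def f_pp_112 : ℕ → ℕ → ℕ → ℕ → Bool := onCell 536870912 536870912 536870912 536870912 780900216 37827925
    (rowB 3 eng mog cd0q1 cd4q1 pd2 0 true true true .dn 1 1 2 (qsf 536870912 536870912 536870912 536870912 2) ndB0q1 ndB4q1 pcB2 Cut.none Ext.none)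

def k0_pp_112 : ∃ t, chk3 f_pp_112 t 1 1 1 = true :=
  ⟨(l 4), by decide +kernel⟩

theorem c_pp_112 : CertB 536870912 536870912 536870912 536870912 780900216 37827925 3 eng mog cd0q1 cd4q1 pd2 true true true .dn 1 1 2
    ndB0q1 ndB4q1 pcB2 Cut.none Ext.none :=
  certB0 (fam := true) (s1 := true) (s2 := true) (a := 1) (b := 1) (c := 2) (cn := .dn) (n1 := ndB0q1) (n2 := ndB4q1) (pc := pcB2) (cut := Cut.none) (xt := Ext.none) (P1 := 536870912) (W1 := 536870912) (P2 := 536870912) (W2 := 536870912) (P3 := 780900216) (W3 := 37827925) (N0 := 3) (En := eng) (mo := mog) (C1 := cd0q1) (C2 := cd4q1) (C3 := pd2)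
    rfl k0_pp_112

noncomputable def f_pp_113 : ℕ → ℕ → ℕ → ℕ → Bool := onCell 536870912 536870912 536870912 536870912 780900216 37827925
    (rowB 3 eng mog cd0q1 cd4q1 pd3 0 true true true .nn 1 1 3 (qsf 536870912 536870912 536870912 536870912 3) ndB0q1 ndB4q1 pcB3 Cut.none Ext.none)

def k0_pp_113 : ∃ t, chk3 f_pp_113 t 1 1 1 = true :=
  ⟨(l 4), by decide +kernel⟩

theorem c_pp_113 : CertB 536870912 536870912 536870912 536870912 780900216 37827925 3 eng mog cd0q1 cd4q1 pd3 true true true .nn 1 1 3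
    ndB0q1 ndB4q1 pcB3 Cut.none Ext.none :=
  certB0 (fam := true) (s1 := true) (s2 := true) (a := 1) (b := 1) (c := 3) (cn := .nn) (n1 := ndB0q1) (n2 := ndB4q1) (pc := pcB3) (cut := Cut.none) (xt := Ext.none) (P1 := 536870912) (W1 := 536870912) (P2 := 536870912) (W2 := 536870912) (P3 := 780900216) (W3 := 37827925) (N0 := 3) (En := eng) (mo := mog) (C1 := cd0q1) (C2 := cd4q1) (C3 := pd3)
    rfl k0_pp_113

noncomputable def f_pp_123 : ℕ → ℕ → ℕ → ℕ → Bool := onCell 536870912 536870912 1073741824 536870912 780900216 37827925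
    (rowB 3 eng mog cd0q1 cd4q2 pd3 0 true true true .npn 1 2 3 (qsf 536870912 536870912 1073741824 536870912 3) ndB0q1 ndB4q2 pcB3 Cut.none Ext.none)

def k0_pp_123 : ∃ t, chk3 f_pp_123 t 1 1 1 = true :=
  ⟨(l 4), by decide +kernel⟩

theorem c_pp_123 : CertB 536870912 536870912 1073741824 536870912 780900216 37827925 3 eng mog cd0q1 cd4q2 pd3 true true true .npn 1 2 3
    ndB0q1 ndB4q2 pcB3 Cut.none Ext.none :=
  certB0 (fam := true) (s1 := true) (s2 := true) (a := 1) (b := 2) (c := 3) (cn := .npn) (n1 := ndB0q1) (n2 := ndB4q2) (pc := pcB3) (cut := Cut.none) (xt := Ext.none) (P1 := 536870912) (W1 := 536870912) (P2 := 1073741824) (W2 := 536870912) (P3 := 780900216) (W3 := 37827925) (N0 := 3) (En := eng) (mo := mog) (C1 := cd0q1) (C2 := cd4q2) (C3 := pd3)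
    rfl k0_pp_123

noncomputable def f_pp_133 : ℕ → ℕ → ℕ → ℕ → Bool := onCell 536870912 536870912 0 1230186008 780900216 37827925
    (rowB 3 eng mog cd0q1 cd4q3 pd3 0 true true true .dn 1 3 3 (qsf 536870912 536870912 0 1230186008 3) ndB0q1 ndB4q3 pcB3 Cut.none Ext.none)

def k0_pp_133 : ∃ t, chk3 f_pp_133 t 1 1 1 = true :=
  ⟨(l 4), by decide +kernel⟩

theorem c_pp_133 : CertB 536870912 536870912 0 1230186008 780900216 37827925 3 eng mog cd0q1 cd4q3 pd3 true true true .dn 1 3 3
    ndB0q1 ndB4q3 pcB3 Cut.none Ext.none :=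
  certB0 (fam := true) (s1 := true) (s2 := true) (a := 1) (b := 3) (c := 3) (cn := .dn) (n1 := ndB0q1) (n2 := ndB4q3) (pc := pcB3) (cut := Cut.none) (xt := Ext.none) (P1 := 536870912) (W1 := 536870912) (P2 := 0) (W2 := 1230186008) (P3 := 780900216) (W3 := 37827925) (N0 := 3) (En := eng) (mo := mog) (C1 := cd0q1) (C2 := cd4q3) (C3 := pd3)
    rfl k0_pp_133

noncomputable def f_pp_202 : ℕ → ℕ → ℕ → ℕ → Bool := onCell 0 536870912 0 536870912 780900216 37827925
    (rowB 3 eng mog cd0q2 cd4q0 pd2 0 true true true .pp 2 0 2 (qsf 0 536870912 0 536870912 2) ndB0q2 ndB4q0 pcB2 Cut.none Ext.none)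

def k0_pp_202 : ∃ t, chk3 f_pp_202 t 1 1 1 = true :=
  ⟨(l 5), by decide +kernel⟩

theorem c_pp_202 : CertB 0 536870912 0 536870912 780900216 37827925 3 eng mog cd0q2 cd4q0 pd2 true true true .pp 2 0 2
    ndB0q2 ndB4q0 pcB2 Cut.none Ext.none :=
  certB0 (fam := true) (s1 := true) (s2 := true) (a := 2) (b := 0) (c := 2) (cn := .pp) (n1 := ndB0q2) (n2 := ndB4q0) (pc := pcB2) (cut := Cut.none) (xt := Ext.none) (P1 := 0) (W1 := 536870912) (P2 := 0) (W2 := 536870912) (P3 := 780900216) (W3 := 37827925) (N0 := 3) (En := eng) (mo := mog) (C1 := cd0q2) (C2 := cd4q0) (C3 := pd2)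
    rfl k0_pp_202

noncomputable def f_pp_203 : ℕ → ℕ → ℕ → ℕ → Bool := onCell 0 536870912 0 536870912 780900216 37827925
    (rowB 3 eng mog cd0q2 cd4q0 pd3 0 true true true .up 2 0 3 (qsf 0 536870912 0 536870912 3) ndB0q2 ndB4q0 pcB3 Cut.none Ext.none)

def k0_pp_203 : ∃ t, chk3 f_pp_203 t 1 1 1 = true :=
  ⟨(l 5), by decide +kernel⟩

theorem c_pp_203 : CertB 0 536870912 0 536870912 780900216 37827925 3 eng mog cd0q2 cd4q0 pd3 true true true .up 2 0 3
    ndB0q2 ndB4q0 pcB3 Cut.none Ext.none :=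
  certB0 (fam := true) (s1 := true) (s2 := true) (a := 2) (b := 0) (c := 3) (cn := .up) (n1 := ndB0q2) (n2 := ndB4q0) (pc := pcB3) (cut := Cut.none) (xt := Ext.none) (P1 := 0) (W1 := 536870912) (P2 := 0) (W2 := 536870912) (P3 := 780900216) (W3 := 37827925) (N0 := 3) (En := eng) (mo := mog) (C1 := cd0q2) (C2 := cd4q0) (C3 := pd3)
    rfl k0_pp_203

noncomputable def f_pp_213 : ℕ → ℕ → ℕ → ℕ → Bool := onCell 0 536870912 536870912 536870912 780900216 37827925
    (rowB 3 eng mog cd0q2 cd4q1 pd3 0 true true true .pnn 2 1 3 (qsf 0 536870912 536870912 536870912 3) ndB0q2 ndB4q1 pcB3 Cut.none Ext.none)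

def k0_pp_213 : ∃ t, chk3 f_pp_213 t 1 1 1 = true :=
  ⟨(l 4), by decide +kernel⟩

theorem c_pp_213 : CertB 0 536870912 536870912 536870912 780900216 37827925 3 eng mog cd0q2 cd4q1 pd3 true true true .pnn 2 1 3
    ndB0q2 ndB4q1 pcB3 Cut.none Ext.none :=
  certB0 (fam := true) (s1 := true) (s2 := true) (a := 2) (b := 1) (c := 3) (cn := .pnn) (n1 := ndB0q2) (n2 := ndB4q1) (pc := pcB3) (cut := Cut.none) (xt := Ext.none) (P1 := 0) (W1 := 536870912) (P2 := 536870912) (W2 := 536870912) (P3 := 780900216) (W3 := 37827925) (N0 := 3) (En := eng) (mo := mog) (C1 := cd0q2) (C2 := cd4q1) (C3 := pd3)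
    rfl k0_pp_213

noncomputable def f_pm_001 : ℕ → ℕ → ℕ → ℕ → Bool := onCell 0 536870912 536870912 536870912 780900216 37827925
    (rowB 3 eng mog cd0q0 cd4q0 pd1 1 true true false .up 0 0 1 (qsf 0 536870912 0 536870912 1) ndB0q0 ndB4q0 pcB1 Cut.none Ext.none)

def k0_pm_001 : ∃ t, chk3 f_pm_001 t 1 1 1 = true :=
  ⟨(b (l 3) (a (b (l 3) (l 2)) (b (a (l 3) (b (l 3) (a (l 3) (b (l 3) (a (l 3) (b (l 3) (l 135458736983))))))) (a (b (b (b (l 3) (l 2)) (l 2)) (l 2)) (b (a (b (b (a (l 3) (l 80697968119)) (a (a (l 16506792) (l 16511200)) (l 16504752))) (a (a (l 2) (b (l 16450496) (l 2))) (b (l 16424320) (l 16388464)))) (b (a (b (l 16505872) (l 16424024)) (b (l 16430304) (l 16387792))) (a (l 16472712) (l 16350264)))) (a (b (a (l 2) (l 94589269495)) (l 2)) (b (a (l 16305536) (l 16266520)) (a (l 16250472) (l 16214384))))))))), by decide +kernel⟩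

theorem c_pm_001 : CertB 0 536870912 0 536870912 780900216 37827925 3 eng mog cd0q0 cd4q0 pd1 true true false .up 0 0 1
    ndB0q0 ndB4q0 pcB1 Cut.none Ext.none :=
  certB1 (fam := true) (s1 := true) (s2 := false) (a := 0) (b := 0) (c := 1) (cn := .up) (n1 := ndB0q0) (n2 := ndB4q0) (pc := pcB1) (cut := Cut.none) (xt := Ext.none) (P1 := 0) (W1 := 536870912) (P2 := 0) (W2 := 536870912) (P3 := 780900216) (W3 := 37827925) (N0 := 3) (En := eng) (mo := mog) (C1 := cd0q0) (C2 := cd4q0) (C3 := pd1)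
    rfl (fun _ => rfl) k0_pm_001

noncomputable def cut_pm_011 : Cut := Cut.of [[⟨0, 0, 0, 67108864⟩, ⟨1, 1, 0, 67108864⟩, ⟨2, 1, 0, 67108864⟩]]

noncomputable def f_pm_011 : ℕ → ℕ → ℕ → ℕ → Bool := onCell 0 536870912 536870912 536870912 780900216 37827925
    (rowB 3 eng mog cd0q0 cd4q1 pd1 1 true true false .pnn 0 1 1 (qsf 0 536870912 536870912 536870912 1) ndB0q0 ndB4q1 pcB1 cut_pm_011 Ext.none)

def k0_pm_011 : ∃ t, chk3 f_pm_011 t 1 2 1 = true :=
  ⟨(l 3), by decide +kernel⟩

def k1_pm_011 : ∃ t, chk3 f_pm_011 t 2 6 1 = true :=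
  ⟨(l 3), by decide +kernel⟩

def k2_pm_011 : ∃ t, chk3 f_pm_011 t 4 14 1 = true :=
  ⟨(l 3), by decide +kernel⟩

def k3_pm_011 : ∃ t, chk3 f_pm_011 t 8 15 1 = true :=
  ⟨(b (l 3) (a (b (l 3) (l 6)) (b (b (l 3) (a (l 3) (a (l 3) (b (l 3) (b (l 3) (a (l 3) (l 43654245911))))))) (b (b (b (a (l 3) (a (a (l 3) (c (l 16747696) (l 32916836567))) (a (c (l 82845824743) (l 70497793383)) (l 98415070791)))) (a (l 6) (a (a (c (l 66739709879) (b (l 38822420519) (l 83382702359))) (a (l 114521209927) (l 16736768))) (c (l 16741240) (l 16740800))))) (a (l 6) (a (b (a (a (l 6) (l 16737920)) (l 16734208)) (l 16743400)) (c (l 16735608) (l 16735120))))) (a (l 6) (b (a (l 16736448) (l 16717368)) (a (l 6) (l 16709920)))))))), by decide +kernel⟩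

def k4_pm_011 : ∃ t, chk3 f_pm_011 t 9 15 1 = true :=
  ⟨(b (a (l 3) (b (l 3) (a (l 3) (b (l 3) (a (l 3) (b (l 3) (c (l 42580431607) (l 16701936)))))))) (b (a (b (a (l 3) (a (l 3) (a (l 3) (b (l 3) (l 39359242279))))) (a (a (a (b (l 3) (b (l 3) (l 81235199799))) (b (l 3) (b (l 16729792) (l 16725576)))) (b (a (l 3) (c (l 40969877543) (l 33453683527))) (b (a (l 16724456) (l 16719208)) (l 16717920)))) (b (a (a (a (l 50633545271) (l 62444700615)) (l 73718986407)) (b (l 43117334743) (l 16705144))) (a (a (l 16712168) (l 16707064)) (l 16699480))))) (a (b (b (a (l 3) (c (l 39896099239) (l 35601129495))) (a (b (l 39359232823) (l 53317869399)) (b (l 61907792119) (l 16693056)))) (a (b (l 16718056) (l 16689536)) (l 16704568))) (b (b (a (b (l 43654176855) (l 16701800)) (l 79087641623)) (a (l 16685504) (l 16676384))) (b (l 16694320) (l 16665832))))) (a (a (b (b (a (b (a (l 16726784) (l 16721744)) (l 16720496)) (l 16712264)) (a (l 16714848) (l 16704752))) (b (l 16712808) (l 16715880))) (b (b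 (a (l 16702080) (l 16691944)) (l 16710480)) (b (l 16682056) (l 16674672)))) (b (a (b (l 16677128) (l 16669656)) (l 16654632)) (a (l 16679520) (l 16639896)))))), by decide +kernel⟩

def k5_pm_011 : ∃ t, chk3 f_pm_011 t 5 7 1 = true :=
  ⟨(b (a (l 3) (b (l 3) (b (l 3) (a (l 3) (a (l 3) (b (l 3) (l 57612674839))))))) (a (b (a (b (l 3) (a (b (l 3) (b (a (l 3) (l 41506664311)) (a (c (l 72108314663) (l 16703104)) (l 84456332807)))) (b (b (l 3) (a (l 3) (l 52780940151))) (b (a (l 74255781255) (l 16685072)) (a (l 16665552) (l 16656984)))))) (b (a (l 3) (b (l 3) (a (l 3) (b (l 3) (l 16672112))))) (a (b (b (a (l 3) (l 16682584)) (a (l 16678552) (l 16654016))) (b (l 16672192) (l 16644208))) (b (b (a (l 16673576) (l 16643632)) (l 16661968)) (l 16651520))))) (a (b (a (b (a (b (l 16675144) (l 16667608)) (l 16683920)) (l 16673096)) (b (a (l 16654744) (l 16646440)) (l 16636128))) (b (a (l 16637304) (l 16621656)) (a (l 16622728) (l 16607312)))) (b (b (a (l 16633744) (l 16616736)) (a (l 16619952)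 (l 16603112))) (c (l 16608584) (l 16608432))))) (b (a (b (a (b (l 3) (b (c (l 42580331831) (l 16664696)) (a (l 16641800) (l 16632536)))) (b (a (l 3) (l 38822231703)) (a (l 81771893879) (l 16638584)))) (a (b (b (l 16651064) (l 16623256)) (l 16613008)) (b (l 16608384) (l 16594872)))) (b (a (b (a (l 45801535175) (l 16634656)) (l 16624616)) (b (l 55465180215) (l 16585008))) (a (b (l 16589888) (l 16576456)) (l 16585544)))) (a (b (c (a (l 16593784) (l 16576064)) (l 16593016)) (l 16557696)) (b (l 16547496) (l 16522368)))))), by decide +kernel⟩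

def k6_pm_011 : ∃ t, chk3 f_pm_011 t 3 3 1 = true :=
  ⟨(b (a (l 3) (a (l 3) (l 1))) (a (b (a (b (l 3) (a (b (l 3) (a (b (l 3) (l 16616976)) (b (l 16593328) (l 16576608)))) (b (a (l 3) (l 16601088)) (a (l 16607072) (l 16566104))))) (b (a (l 3) (b (l 3) (c (l 16567856) (l 16565216)))) (a (a (b (l 16580576) (l 16524944)) (b (l 16539024) (l 16504576))) (b (c (l 16530720) (l 16527576)) (l 16515872))))) (a (b (a (b (a (b (l 16580520) (l 16566240)) (l 16575240)) (a (l 16545944) (l 16527168))) (b (a (l 16534976) (l 16515256)) (l 16498304))) (a (b (l 16510760) (l 16486288)) (l 16511808))) (b (a (b (a (l 16495160) (l 16474776)) (l 16458216)) (b (l 16465032) (l 16417192))) (a (l 16441920) (l 16379936))))) (b (a (b (a (b (l 3) (c (l 16505584) (l 16503032))) (b (l 1) (l 16504248))) (a (b (c (l 16468568) (l 16465312)) (l 16474824)) (b (l 16425168) (l 16391216)))) (b (l 1) (a (l 16385688) (l 1)))) (a (b (a (b (l 16423968) (l 16376072)) (l 16347728)) (a (l 16338904) (l 16297688))) (b (a (l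 16305280) (l 16261944)) (l 16318456)))))), by decide +kernel⟩

theorem s7_pm_011 : ∃ t, chk3 f_pm_011 t 4 15 1 = true := ex3_a k3_pm_011 k4_pm_011

theorem s8_pm_011 : ∃ t, chk3 f_pm_011 t 4 7 1 = true := ex3_b k2_pm_011 s7_pm_011

theorem s9_pm_011 : ∃ t, chk3 f_pm_011 t 2 7 1 = true := ex3_a s8_pm_011 k5_pm_011

theorem s10_pm_011 : ∃ t, chk3 f_pm_011 t 2 3 1 = true := ex3_b k1_pm_011 s9_pm_011

theorem s11_pm_011 : ∃ t, chk3 f_pm_011 t 1 3 1 = true := ex3_a s10_pm_011 k6_pm_011

theorem s12_pm_011 : ∃ t, chk3 f_pm_011 t 1 1 1 = true := ex3_b k0_pm_011 s11_pm_011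

theorem c_pm_011 : CertB 0 536870912 536870912 536870912 780900216 37827925 3 eng mog cd0q0 cd4q1 pd1 true true false .pnn 0 1 1
    ndB0q0 ndB4q1 pcB1 cut_pm_011 Ext.none :=
  certB1 (fam := true) (s1 := true) (s2 := false) (a := 0) (b := 1) (c := 1) (cn := .pnn) (n1 := ndB0q0) (n2 := ndB4q1) (pc := pcB1) (cut := cut_pm_011) (xt := Ext.none) (P1 := 0) (W1 := 536870912) (P2 := 536870912) (W2 := 536870912) (P3 := 780900216) (W3 := 37827925) (N0 := 3) (En := eng) (mo := mog) (C1 := cd0q0) (C2 := cd4q1) (C3 := pd1)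
    rfl (fun _ => rfl) s12_pm_011

end Pool.Agent.Strip051.G.I72727_7625.Tab.C.BA04

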