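import Pool.Agent.Strip051.G.I72727_7625.Tab
import Pool.Agent.Strip051.PB.ExtD2

/-! # Certificates B5 (generated) -/

set_option linter.all false
set_option maxRecDepth 100000

namespace Pool.Agent.Strip051.G.I72727_7625.Tab.C.BA04

open Pool.Agent.Strip051.PB Pool.Agent.Strip051.PB.T
open Pool.Agent.Strip051.G.I72727_7625.Tab

noncomputable def cut_pm_012 : Cut := Cut.of [[⟨0, 0, 0, 67108864⟩, ⟨1, 1, 0, 67108864⟩, ⟨2, 1, 0, 67108864⟩]]

noncomputable def xt_pm_012 : Ext := extD2 3 ⟨4, 1, 1, 5, 5, 2, 24, 25, 43, 100, 1, 8⟩ eng cd0q0 cd4q1 pd2 true true false .pnp 0 1 2 rfl ndB0q0 ndB4q1 pcB2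

noncomputable def f_pm_012 : ℕ → ℕ → ℕ → ℕ → Bool := onCell 1073741824 536870912 536870912 536870912 780900216 37827925
    (rowB 3 eng mog cd0q0 cd4q1 pd2 2 true true false .pnp 0 1 2 (qsf 0 536870912 536870912 536870912 2) ndB0q0 ndB4q1 pcB2 cut_pm_012 xt_pm_012)

def k0_pm_012 : ∃ t, chk3 f_pm_012 t 4 2 1 = true :=
  ⟨(b (a (b (a (b (l 16085296) (l 16134568)) (l 16178240)) (a (b (l 16182776) (l 16229912)) (b (l 16126896) (l 16173008)))) (b (a (l 16080416) (l 2)) (a (l 16189752) (l 16071416)))) (a (b (a (b (a (l 16288360) (l 16264600)) (a (l 16334968) (l 16311616))) (b (l 16216344) (l 16256296))) (a (a (b (l 16380424) (l 16423248)) (b (l 16357840) (l 16398992))) (b (l 16292616) (l 16326920)))) (b (a (b (l 16142952) (l 16261816)) (b (l 16053768) (l 16188152))) (a (a (l 16254552) (b (l 16188992) (l 16214920))) (a (b (l 16148976) (l 16172840)) (l 16165320)))))), by decide +kernel⟩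

def k1_pm_012 : ∃ t, chk3 f_pm_012 t 8 3 1 = true :=
  ⟨(b (b (b (a (a (l 16464408) (l 16438168)) (l 16380864)) (a (a (b (l 16494736) (l 16514456)) (l 16476144)) (a (l 16378392) (l 16365608)))) (a (a (b (b (l 16533872) (l 16552024)) (a (b (l 16573120) (l 16590816)) (l 16573064))) (b (l 16512944) (l 16572480))) (b (b (l 16416256) (l 16432232)) (a (l 16487648) (l 16489600))))) (b (a (b (a (a (b (l 16630680) (a (l 16632984) (l 16627856))) (l 16609720)) (b (l 16578224) (l 16594352))) (b (a (a (a (l 16655088) (l 16649656)) (l 16641320)) (l 16607992)) (a (a (a (b (l 16672056) (l 16683368)) (l 16651264)) (l 16663704)) (a (l 16636064) (l 16561288))))) (a (a (b (l 594890779015350023315007) (b (l 16559136) (l 16570632))) (b (l 16547104) (b (l 16526752) (l 16538296)))) (b (b (l 16449352) (l 16464448)) (b (l 16478168) (l 16511120))))) (a (b (a (a (b (a (b (l 16694568) (l 6)) (l 16694752)) (l 6)) (b (l 16680736) (a (l 6) (l 16682912)))) (b (a (l 16646648) (b (l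 16610752) (l 16615440))) (a (a (a (l 16669704) (l 16660960)) (l 16637456)) (b (l 16619960) (l 16624432))))) (a (l 6) (b (a (l 6) (b (a (l 6) (l 16620176)) (l 6))) (l 6)))) (b (a (b (a (l 16569704) (l 16547768)) (a (b (l 16586536) (l 16590520)) (l 16576552))) (b (a (l 16515592) (l 16483664)) (a (l 16523096) (l 16491144)))) (a (b (a (b (l 16594464) (a (l 6) (l 16589744))) (b (l 16560816) (l 16564240))) (b (a (l 6) (a (l 6) (l 16559072))) (l 6))) (b (a (b (l 16527904) (l 16530864)) (b (l 16495592) (l 16498224))) (b (a (l 16554752) (l 16500688)) (a (a (l 6) (l 16528176)) (a (l 16511408) (l 16494824)))))))))), by decide +kernel⟩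

def k2_pm_012 : ∃ t, chk3 f_pm_012 t 9 3 1 = true :=
  ⟨(b (b (a (a (b (l 16285088) (l 16312304)) (b (l 16238160) (l 16260728))) (b (a (l 16192792) (l 16149656)) (a (l 16211248) (l 16164208)))) (a (b (a (l 16338960) (l 16283240)) (a (l 16366000) (l 16306672))) (b (a (l 16230104) (l 16178256)) (a (l 16250376) (l 16194448))))) (b (a (b (a (a (l 16408696) (l 16375952)) (l 16370776)) (b (a (l 16411368) (l 16344304)) (a (l 16405688) (l 16354496)))) (b (a (a (l 16283368) (l 16254176)) (l 16209384)) (a (a (l 16301064) (l 16270016)) (b (l 16219168) (l 16225168))))) (b (a (a (b (a (l 16449928) (l 16414808)) (a (l 16457176) (l 16421720))) (b (l 16384208) (a (l 16387112) (l 16353264)))) (a (b (a (l 16313352) (l 16280928)) (a (l 16319840) (l 16287384))) (b (l 16230912) (l 16278336)))) (a (a (b (a (b (l 16461320) (l 16463576)) (l 16426528)) (a (b (l 16465584) (a (l 16476960) (l 16457960))) (b (l 16428952) (a (l 16439376) (l 16421120))))) (b (a (l 16391560) (l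 16357528)) (a (b (l 16393584) (l 16415376)) (b (l 16359280) (l 16359864))))) (a (b (a (l 16324336) (l 16312816)) (a (b (l 16325944) (l 16326368)) (a (l 16301776) (l 16306616)))) (b (a (l 16257576) (l 16223112)) (a (b (l 16259448) (l 16259768)) (l 16246136)))))))), by decide +kernel⟩

def k3_pm_012 : ∃ t, chk3 f_pm_012 t 5 2 1 = true :=
  ⟨(b (a (b (l 2) (a (a (l 16017400) (l 2)) (l 2))) (l 2)) (a (a (a (b (l 16048256) (l 16234544)) (b (a (l 16029024) (a (l 16019776) (l 16013888))) (a (l 16062416) (b (l 16039504) (l 16051352))))) (b (l 16031352) (l 16195920))) (b (a (l 15993528) (l 2)) (a (l 16205024) (l 15906552))))), by decide +kernel⟩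

def k4_pm_012 : ∃ t, chk3 f_pm_012 t 5 3 1 = true :=
  ⟨(b (a (b (a (a (b (l 16109040) (l 16119144)) (a (l 16104064) (b (l 16060024) (l 16066104)))) (b (l 16014320) (l 16016024))) (a (a (b (l 16128192) (l 16140128)) (a (b (l 16092944) (l 16101232)) (b (l 16216960) (a (l 16082592) (l 16070464))))) (b (l 16015296) (l 16079336)))) (b (a (b (l 15947584) (l 15942280)) (b (l 15889392) (l 15876448))) (a (b (l 15934696) (l 16031992)) (b (l 15862256) (l 15848208))))) (a (b (a (a (b (l 16151520) (l 16223504)) (a (b (l 16109952) (l 16116680)) (b (a (l 16089912) (l 16077320)) (a (l 16095768) (a (l 16086176) (l 16079872)))))) (b (b (l 16017144) (l 16017928)) (b (l 16018520) (l 16018952)))) (a (a (b (b (l 16166224) (l 16169696)) (b (a (l 16189224) (l 16156152)) (a (l 16191024) (l 16158008)))) (b (a (l 16121632) (a (l 16099936) (a (l 16089896) (l 16104440)))) (a (b (l 16124528) (l 16125992)) (a (b (l 16102000) (l 16103032)) (a (b (l 16091840) (l 16092824)) (b (l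 16085376) (l 16086368))))))) (b (b (a (l 16048648) (l 15989256)) (a (l 16049016) (l 15987496))) (b (a (l 16049088) (l 15985432)) (a (b (l 16049016) (l 16048888)) (b (l 15983616) (l 15982416))))))) (b (b (a (a (l 15942288) (l 15896176)) (a (l 15852680) (l 15811792))) (a (a (l 15936832) (l 15885680)) (a (l 15837336) (l 15792440)))) (a (b (a (l 15972584) (b (l 15877840) (l 15872408))) (a (b (l 15924544) (b (l 15921160) (l 15918792))) (b (l 15866432) (a (l 15874632) (l 15845240))))) (b (b (l 15906408) (a (l 15818648) (l 15767704))) (b (a (l 15810856) (l 15757856)) (a (l 15891632) (l 15831600)))))))), by decide +kernel⟩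

def k5_pm_012 : ∃ t, chk3 f_pm_012 t 3 1 1 = true :=
  ⟨(b (a (b (l 2) (a (b (l 2) (a (l 15867792) (l 2))) (l 2))) (l 2)) (a (b (a (b (a (b (l 15840176) (l 15819584)) (l 15786392)) (a (b (l 15798136) (l 15777792)) (b (l 15743360) (l 15716072)))) (b (a (l 15750488) (l 2)) (a (b (l 15698272) (l 15664040)) (b (l 15662264) (l 15621816))))) (b (a (a (b (c (l 15774584) (l 15736736)) (a (l 15750232) (l 15710696))) (b (l 15687528) (c (l 15677888) (l 15635888)))) (a (b (l 15628768) (c (l 15616248) (l 15568600))) (b (l 15579992) (l 15557400)))) (c (a (b (a (b (l 15729464) (l 15715824)) (b (l 15652152) (l 15634552))) (a (b (l 15765408) (a (l 15713392) (l 15665008))) (b (l 15616592) (a (l 15619616) (l 15577600))))) (b (a (l 15575528) (l 15517832)) (a (b (l 15543016) (a (l 15538968) (l 15503368))) (b (l 15480808) (l 15455328))))) (a (b (a (b (l 15692112) (l 15678800)) (l 15686488)) (a (a (l 15684312) (l 15635456)) (b (l 15576776) (l 15559248)))) (b (a (l 15529920)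 (l 15465936)) (a (b (l 15498936) (l 15477904)) (b (l 15431120) (l 15407152)))))))) (b (a (b (l 2) (a (l 15675120) (l 2))) (l 2)) (a (b (a (b (l 15541184) (l 15512328)) (b (l 15512000) (l 15456456))) (a (b (c (l 15470720) (l 15410904)) (c (b (l 15429120) (l 15400584)) (l 15358992))) (b (a (l 15407880) (l 15390008)) (b (l 15458832) (a (l 15334648) (l 15313096)))))) (b (a (b (l 2) (l 15431312)) (l 2)) (a (b (l 15368152) (a (b (l 15326792) (l 15294136)) (l 15295120))) (b (l 15347456) (b (l 15294664) (l 15258656))))))))), by decide +kernel⟩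

theorem s6_pm_012 : ∃ t, chk3 f_pm_012 t 5 1 1 = true := ex3_b k3_pm_012 k4_pm_012

theorem s7_pm_012 : ∃ t, chk3 f_pm_012 t 4 3 1 = true := ex3_a k1_pm_012 k2_pm_012

theorem s8_pm_012 : ∃ t, chk3 f_pm_012 t 4 1 1 = true := ex3_b k0_pm_012 s7_pm_012

theorem s9_pm_012 : ∃ t, chk3 f_pm_012 t 2 1 1 = true := ex3_a s8_pm_012 s6_pm_012

theorem s10_pm_012 : ∃ t, chk3 f_pm_012 t 1 1 1 = true := ex3_a s9_pm_012 k5_pm_012

theorem c_pm_012 : CertB 0 536870912 536870912 536870912 780900216 37827925 3 eng mog cd0q0 cd4q1 pd2 true true false .pnp 0 1 2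
    ndB0q0 ndB4q1 pcB2 cut_pm_012 xt_pm_012 :=
  certB2 (fam := true) (s1 := true) (s2 := false) (a := 0) (b := 1) (c := 2) (cn := .pnp) (n1 := ndB0q0) (n2 := ndB4q1) (pc := pcB2) (cut := cut_pm_012) (xt := xt_pm_012) (P1 := 0) (W1 := 536870912) (P2 := 536870912) (W2 := 536870912) (P3 := 780900216) (W3 := 37827925) (N0 := 3) (En := eng) (mo := mog) (C1 := cd0q0) (C2 := cd4q1) (C3 := pd2)
    rfl (fun _ => rfl) s10_pm_012

noncomputable def f_pm_022 : ℕ → ℕ → ℕ → ℕ → Bool := onCell 1073741824 536870912 1073741824 536870912 780900216 37827925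
    (rowB 3 eng mog cd0q0 cd4q2 pd2 2 true true false .pp 0 2 2 (qsf 0 536870912 1073741824 536870912 2) ndB0q0 ndB4q2 pcB2 Cut.none Ext.none)

def k0_pm_022 : ∃ t, chk3 f_pm_022 t 2 1 1 = true :=
  ⟨(a (l 3) (b (a (a (a (l 3) (b (a (b (b (a (l 3) (l 16418344)) (l 3)) (l 3)) (a (b (b (b (l 16369648) (l 16396520)) (l 16430344)) (b (l 16466384) (l 16457320))) (b (a (b (a (l 16375488) (l 16372432)) (l 16421520)) (b (l 16367720) (l 16415904))) (a (b (l 16457848) (l 16455528)) (l 16468240))))) (a (l 3) (a (l 3) (b (a (b (a (l 16413344) (l 16412808)) (l 1)) (b (l 16412032) (l 16348320))) (l 1)))))) (b (b (b (b (a (l 16325072) (l 16275624)) (l 16371568)) (b (l 16418344) (l 16378376))) (b (l 16406560) (l 16436952))) (b (b (l 16402520) (l 257730921527)) (b (l 357051683335) (l 1))))) (b (b (b (a (a (l 16243584) (l 16198400)) (a (l 16154984) (l 16113568))) (a (b (l 16264224) (l 16289544)) (a (l 16211888) (l 16170920)))) (b (a (b (l 16312008) (l 16331880)) (b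 (l 16229088) (l 16250960))) (a (l 16356024) (l 16278632)))) (b (b (c (l 16447112) (l 16407936)) (a (l 16330024) (l 16309888))) (b (a (l 280816188887) (l 16251680)) (a (l 353293439319) (l 16178360)))))) (a (l 1) (b (b (b (l 358125071223) (l 1)) (l 1)) (l 1))))), by decide +kernel⟩

def k1_pm_022 : ∃ t, chk3 f_pm_022 t 3 2 1 = true :=
  ⟨(b (a (b (a (b (a (b (l 16039528) (l 16070280)) (b (l 15968848) (l 15999104))) (a (b (l 16098984) (l 16126024)) (b (l 16027976) (l 16055336)))) (b (a (b (c (l 15930696) (l 15885368)) (l 15936784)) (c (b (l 15881872) (l 15906976)) (l 15847216))) (a (b (l 15965056) (l 15992040)) (b (l 15911296) (l 15937208))))) (a (b (a (l 16184016) (l 16092712)) (a (l 16204920) (l 16135856))) (b (a (l 16029696) (l 15974328)) (a (l 16073624) (l 16018448))))) (b (a (b (a (c (l 15854448) (l 15801872)) (c (l 15823496) (l 15764560))) (a (c (l 15900480) (l 15858624)) (c (l 15866608) (l 15819480)))) (b (a (b (a (l 15761968) (l 15752704)) (l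 15780216)) (b (a (l 15746200) (l 15742536)) (l 15869528))) (a (c (l 15841744) (l 15788312)) (b (l 15785320) (l 15805792))))) (a (b (a (l 15969208) (l 15909472)) (a (l 15970640) (l 15930592))) (a (b (a (l 15864848) (l 15851616)) (l 15898296)) (b (l 15835800) (l 15873728)))))) (a (b (a (b (a (l 16236592) (l 16170504)) (a (l 16271208) (l 16208112))) (b (a (l 16109600) (l 16055296)) (a (l 16149856) (l 16097368)))) (a (b (l 16290192) (a (l 16175088) (l 16166168))) (b (l 16160840) (l 16149184)))) (b (a (b (a (l 16007832) (l 15967456)) (a (l 16051232) (l 16011680))) (b (a (l 15934312) (l 15908376)) (l 16006680))) (a (b (l 16073408) (l 16101480)) (b (l 16011024) (l 16046264)))))), by decide +kernel⟩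

def k2_pm_022 : ∃ t, chk3 f_pm_022 t 3 3 1 = true :=
  ⟨(b (a (b (a (b (l 298532662951) (l 339334685559)) (b (l 16097536) (l 16164416))) (a (b (l 364567214087) (l 1)) (b (l 327523412023) (l 361883004759)))) (b (a (b (l 16084928) (l 16044992)) (b (l 16061776) (l 16043464))) (a (b (l 15991632) (l 15933104)) (b (l 16008672) (l 15966728))))) (a (b (a (l 1) (b (l 383357444055) (l 1))) (l 1)) (b (a (b (l 351682391479) (l 373694024295)) (b (l 15913760) (l 15857944))) (a (b (l 406979577623) (l 1)) (b (l 373694007943) (l 390873808359)))))), by decide +kernel⟩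

theorem s3_pm_022 : ∃ t, chk3 f_pm_022 t 3 1 1 = true := ex3_b k1_pm_022 k2_pm_022

theorem s4_pm_022 : ∃ t, chk3 f_pm_022 t 1 1 1 = true := ex3_a k0_pm_022 s3_pm_022

theorem c_pm_022 : CertB 0 536870912 1073741824 536870912 780900216 37827925 3 eng mog cd0q0 cd4q2 pd2 true true false .pp 0 2 2
    ndB0q0 ndB4q2 pcB2 Cut.none Ext.none :=
  certB2 (fam := true) (s1 := true) (s2 := false) (a := 0) (b := 2) (c := 2) (cn := .pp) (n1 := ndB0q0) (n2 := ndB4q2) (pc := pcB2) (cut := Cut.none) (xt := Ext.none) (P1 := 0) (W1 := 536870912) (P2 := 1073741824) (W2 := 536870912) (P3 := 780900216) (W3 := 37827925) (N0 := 3) (En := eng) (mo := mog) (C1 := cd0q0) (C2 := cd4q2) (C3 := pd2)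
    rfl (fun _ => rfl) s4_pm_022

noncomputable def f_pm_023 : ℕ → ℕ → ℕ → ℕ → Bool := onCell 0 536870912 1610612736 536870912 780900216 37827925
    (rowB 3 eng mog cd0q0 cd4q2 pd3 1 true true false .up 0 2 3 (qsf 0 536870912 1073741824 536870912 3) ndB0q0 ndB4q2 pcB3 Cut.none Ext.none)

def k0_pm_023 : ∃ t, chk3 f_pm_023 t 1 1 1 = true :=
  ⟨(a (b (b (a (a (b (b (l 15796216) (l 15778168)) (l 334032803879)) (b (l 16019048) (l 15886424))) (a (b (l 15981336) (l 15954296)) (b (l 16030880) (l 16014360)))) (a (b (a (l 2) (l 15863056)) (l 2)) (b (a (l 15950688) (l 16017672)) (a (l 15972368) (l 16044048))))) (a (l 2) (b (b (a (l 2) (l 16096704)) (l 2)) (l 2)))) (b (b (a (a (b (l 16029664) (l 16036440)) (b (a (l 15981568) (l 15938832)) (l 16019544))) (a (a (b (l 15897920) (l 15964944)) (b (a (l 15869264) (l 15852464)) (l 15923456))) (b (a (b (l 15811512) (l 15839184)) (b (l 15769368) (l 15802808))) (a (l 15885728) (b (l 15835968) (l 15868936)))))) (a (a (l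 16040936) (l 16069960)) (a (b (l 16029544) (l 16100680)) (b (a (l 15977288) (l 15938480)) (l 16069528))))) (a (b (b (a (l 16130072) (l 16140944)) (l 16240384)) (b (a (l 2) (l 16372992)) (l 2))) (b (b (a (l 16143680) (l 16170448)) (a (l 16285360) (l 16285536))) (b (a (l 16393048) (l 16398856)) (b (l 16317752) (b (l 16307168) (b (l 16444880) (b (l 16513464) (l 16511440)))))))))), by decide +kernel⟩

theorem c_pm_023 : CertB 0 536870912 1073741824 536870912 780900216 37827925 3 eng mog cd0q0 cd4q2 pd3 true true false .up 0 2 3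
    ndB0q0 ndB4q2 pcB3 Cut.none Ext.none :=
  certB1 (fam := true) (s1 := true) (s2 := false) (a := 0) (b := 2) (c := 3) (cn := .up) (n1 := ndB0q0) (n2 := ndB4q2) (pc := pcB3) (cut := Cut.none) (xt := Ext.none) (P1 := 0) (W1 := 536870912) (P2 := 1073741824) (W2 := 536870912) (P3 := 780900216) (W3 := 37827925) (N0 := 3) (En := eng) (mo := mog) (C1 := cd0q0) (C2 := cd4q2) (C3 := pd3)
    rfl (fun _ => rfl) k0_pm_023

noncomputable def f_pm_033 : ℕ → ℕ → ℕ → ℕ → Bool := onCell 1610612736 536870912 0 1230186008 780900216 37827925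
    (rowB 3 eng mog cd0q0 cd4q3 pd3 2 true true false .pnn 0 3 3 (qsf 0 536870912 0 1230186008 3) ndB0q0 ndB4q3 pcB3 Cut.none Ext.none)

def k0_pm_033 : ∃ t, chk3 f_pm_033 t 1 1 1 = true :=
  ⟨(b (a (l 1) (a (l 1) (a (b (l 1) (a (b (l 1) (l 15996968)) (l 4))) (l 4)))) (b (a (a (l 1) (a (l 1) (b (l 1) (a (l 1) (b (l 1) (l 15760192)))))) (b (a (a (l 1) (a (l 15868848) (l 15952440))) (a (a (a (l 16012272) (l 16047112)) (a (l 16053792) (l 4))) (l 4))) (a (a (a (b (l 15788248) (l 15842392)) (b (l 15869336) (l 15918792))) (b (a (l 15943800) (l 16014528)) (l 16027576))) (a (a (b (l 16087888) (l 16131520)) (a (l 16145960) (l 16195096))) (a (b (l 16200632) (l 16271488)) (l 4)))))) (a (a (b (l 1) (b (a (l 1) (a (l 326986134775) (l 15722512))) (a (b (l 411274962935) (l 15756264)) (b (l 15793312) (l 15861688))))) (b (a (b (l 307121613415) (l 324301942711)) (b (a (l 15730896) (l 15813200)) (a (l 15810136) (l 15878488)))) (a (b (a (l 15784008) (l 15842584)) (b (l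 15903136) (l 15965128))) (b (a (l 15904976) (l 15963672)) (a (l 16016928) (l 16080568)))))) (b (a (a (b (a (l 15892160) (l 15965320)) (a (l 15951560) (l 16024328))) (b (l 16078112) (l 16137992))) (a (a (b (l 16187552) (l 16258688)) (b (l 16266768) (l 16336128))) (a (b (l 16341872) (l 16395832)) (a (l 16404504) (a (l 16412608) (l 4)))))) (a (a (b (a (l 16030856) (l 16106424)) (l 16171328)) (b (l 16222344) (l 16299736))) (a (b (l 16355400) (l 16421448)) (a (b (l 16446520) (l 16495880)) (a (b (l 16485088) (l 16532264)) (a (l 16520376) (a (l 16527904) (l 533884569719))))))))))), by decide +kernel⟩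

theorem c_pm_033 : CertB 0 536870912 0 1230186008 780900216 37827925 3 eng mog cd0q0 cd4q3 pd3 true true false .pnn 0 3 3
    ndB0q0 ndB4q3 pcB3 Cut.none Ext.none :=
  certB2 (fam := true) (s1 := true) (s2 := false) (a := 0) (b := 3) (c := 3) (cn := .pnn) (n1 := ndB0q0) (n2 := ndB4q3) (pc := pcB3) (cut := Cut.none) (xt := Ext.none) (P1 := 0) (W1 := 536870912) (P2 := 0) (W2 := 1230186008) (P3 := 780900216) (W3 := 37827925) (N0 := 3) (En := eng) (mo := mog) (C1 := cd0q0) (C2 := cd4q3) (C3 := pd3)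
    rfl (fun _ => rfl) k0_pm_033

noncomputable def f_pm_101 : ℕ → ℕ → ℕ → ℕ → Bool := onCell 536870912 536870912 536870912 536870912 780900216 37827925
    (rowB 3 eng mog cd0q1 cd4q0 pd1 1 true true false .npn 1 0 1 (qsf 536870912 536870912 0 536870912 1) ndB0q1 ndB4q0 pcB1 Cut.none Ext.none)

def k0_pm_101 : ∃ t, chk3 f_pm_101 t 2 1 1 = true :=
  ⟨(b (a (l 3) (b (a (b (l 1) (l 3)) (l 1)) (l 3))) (b (a (b (l 3) (a (b (l 3) (a (b (l 3) (a (l 140290510327) (l 16448480))) (b (b (l 3) (l 142438004967)) (l 68886652999)))) (b (b (l 3) (a (l 3) (l 142974974039))) (a (b (l 135458700631) (l 16460480)) (b (l 135995595751) (l 16449376)))))) (b (a (l 3) (b (l 3) (b (l 3) (a (l 3) (l 244981172791))))) (a (b (b (a (l 3) (l 187535541991)) (a (a (l 145659414615) (l 148880703015)) (a (l 16634744) (l 16678552)))) (a (b (l 16537656) (l 16479824)) (b (l 16603400) (l 16538760)))) (b (a (b (l 184851303239) (l 16736240)) (b (l 203641821015) (l 16750464))) (a (l 16611480)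 (l 16625112)))))) (a (b (a (b (a (b (l 16406208) (l 16360248)) (b (l 16391416) (l 16342696))) (a (l 16296208) (l 16272552))) (b (a (b (l 16388000) (l 16335008)) (l 16366568)) (a (l 16258488) (l 16255552)))) (a (b (a (l 16228344) (l 16195464)) (l 16197200)) (b (a (l 16171496) (l 16157120)) (a (l 16102968) (l 16075816))))) (b (a (b (a (l 16386112) (l 16429128)) (a (l 16264024) (l 16282784))) (b (a (l 16459696) (l 16474752)) (l 16342632))) (a (b (a (l 16153456) (l 16157216)) (a (l 16055712) (l 16040536))) (b (l 16233568) (l 16011568))))))), by decide +kernel⟩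

def k1_pm_101 : ∃ t, chk3 f_pm_101 t 3 1 1 = true :=
  ⟨(b (a (b (l 1) (a (b (l 1) (l 3)) (l 1))) (l 1)) (a (b (b (b (l 3) (a (b (l 3) (a (b (l 3) (l 247665473607)) (b (a (l 162303204695) (l 17014952)) (l 16931280)))) (b (l 1) (a (b (l 1) (l 624951554391)) (l 1))))) (a (b (a (b (l 16838816) (l 16765056)) (b (l 16873736) (l 16778184))) (a (l 16639048) (l 16651552))) (b (a (b (l 442415211831) (l 16783936)) (l 590054427767)) (a (l 16656872) (l 16657152))))) (b (a (b (a (l 16489992) (l 16503664)) (a (l 16350768) (l 16366560))) (b (a (l 16510168) (l 16510920)) (a (l 16374088) (l 16374272)))) (a (b (l 16211016) (l 16041480)) (a (l 16149600) (l 16154680))))) (b (a (b (l 1) (b (l 1) (a (l 273300613079) (l 1)))) (l 1)) (b (a (b (a (l 16509328) (l 145525431047)) (a (l 16369944) (l 16374312))) (b (l 1) (a (l 147135612215) (l 1)))) (a (a (l 16157520) (b (l 16226976) (l 16082136))) (a (b (l 16236232) (l 16089248)) (b (l 165925624855) (a (l 16097640) (l 16100256))))))))),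 by decide +kernel⟩

theorem s2_pm_101 : ∃ t, chk3 f_pm_101 t 1 1 1 = true := ex3_a k0_pm_101 k1_pm_101

theorem c_pm_101 : CertB 536870912 536870912 0 536870912 780900216 37827925 3 eng mog cd0q1 cd4q0 pd1 true true false .npn 1 0 1
    ndB0q1 ndB4q0 pcB1 Cut.none Ext.none :=
  certB1 (fam := true) (s1 := true) (s2 := false) (a := 1) (b := 0) (c := 1) (cn := .npn) (n1 := ndB0q1) (n2 := ndB4q0) (pc := pcB1) (cut := Cut.none) (xt := Ext.none) (P1 := 536870912) (W1 := 536870912) (P2 := 0) (W2 := 536870912) (P3 := 780900216) (W3 := 37827925) (N0 := 3) (En := eng) (mo := mog) (C1 := cd0q1) (C2 := cd4q0) (C3 := pd1)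
    rfl (fun _ => rfl) s2_pm_101

noncomputable def f_pm_102 : ℕ → ℕ → ℕ → ℕ → Bool := onCell 536870912 536870912 1073741824 536870912 780900216 37827925
    (rowB 3 eng mog cd0q1 cd4q0 pd2 1 true true false .npp 1 0 2 (qsf 536870912 536870912 0 536870912 2) ndB0q1 ndB4q0 pcB2 Cut.none Ext.none)

def k0_pm_102 : ∃ t, chk3 f_pm_102 t 1 1 1 = true :=
  ⟨(a (b (b (a (b (a (a (l 16068240) (l 16019304)) (b (l 15973376) (l 15944016))) (a (b (l 16044416) (l 2)) (b (l 15935352) (l 15940784)))) (a (b (b (l 16032984) (l 15860272)) (l 15976968)) (b (b (l 15827304) (l 15779256)) (l 15917312)))) (a (b (a (l 2) (l 15998520)) (l 2)) (b (a (l 15924504) (l 15880080)) (a (l 15991168) (l 15941392))))) (a (l 2) (b (a (l 2) (b (l 15999384) (l 2))) (l 2)))) (b (a (b (a (b (b (l 15827120) (l 15775408)) (b (l 15736096) (l 15801824))) (b (b (a (l 15859080) (l 15872144)) (l 15817608)) (b (l 15792760) (l 15840808)))) (b (a (l 15956704) (b (l 15881232) (l 15910992))) (a (l 15925720)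 (l 15941080)))) (b (a (b (b (a (l 15884208) (l 16062864)) (a (l 15842112) (l 15860064))) (a (l 15864448) (b (l 15880896) (l 15889272)))) (b (a (b (b (l 16095328) (l 15904824)) (a (l 15890496) (l 15915192))) (b (b (a (b (l 15949344) (l 15937104)) (b (a (l 15957600) (l 15959928)) (a (l 15948112) (l 15949960)))) (a (l 15931720) (a (l 15945392) (l 15941600)))) (a (l 15927256) (b (l 15928792) (l 15913840))))) (a (b (l 15904272) (l 15896024)) (b (a (l 15906680) (l 15894344)) (a (l 15890152) (l 15875608)))))) (a (b (a (l 15912512) (l 15908560)) (a (l 15955040) (l 15951176))) (b (a (l 16088832) (b (l 15875832) (l 15883152))) (a (l 15939744) (l 16125408)))))) (a (b (a (b (l 15971216) (l 16027296)) (b (l 15972424) (l 16015416))) (a (l 2) (b (l 16080160) (l 2)))) (b (a (b (l 15981816) (l 16017840)) (b (a (l 15984864) (l 15972760)) (l 16028480))) (a (b (l 16080360) (l 16171760)) (b (l 16096648) (l 16198512))))))), by decide +kernel⟩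

theorem c_pm_102 : CertB 536870912 536870912 0 536870912 780900216 37827925 3 eng mog cd0q1 cd4q0 pd2 true true false .npp 1 0 2
    ndB0q1 ndB4q0 pcB2 Cut.none Ext.none :=
  certB1 (fam := true) (s1 := true) (s2 := false) (a := 1) (b := 0) (c := 2) (cn := .npp) (n1 := ndB0q1) (n2 := ndB4q0) (pc := pcB2) (cut := Cut.none) (xt := Ext.none) (P1 := 536870912) (W1 := 536870912) (P2 := 0) (W2 := 536870912) (P3 := 780900216) (W3 := 37827925) (N0 := 3) (En := eng) (mo := mog) (C1 := cd0q1) (C2 := cd4q0) (C3 := pd2)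
    rfl (fun _ => rfl) k0_pm_102

noncomputable def f_pm_112 : ℕ → ℕ → ℕ → ℕ → Bool := onCell 536870912 536870912 1073741824 536870912 780900216 37827925
    (rowB 3 eng mog cd0q1 cd4q1 pd2 1 true true false .dn 1 1 2 (qsf 536870912 536870912 536870912 536870912 2) ndB0q1 ndB4q1 pcB2 Cut.none Ext.none)

def k0_pm_112 : ∃ t, chk3 f_pm_112 t 1 1 1 = true :=
  ⟨(a (b (b (a (b (a (a (l 16058032) (l 16007096)) (l 287258073015)) (a (b (l 16019320) (l 16006232)) (b (l 15927504) (l 15931824)))) (a (b (l 1) (l 15852984)) (l 1))) (a (b (a (b (b (l 16003272) (b (l 15999752) (l 16185920))) (l 15983832)) (l 15953288)) (a (l 16101640) (l 15934168))) (b (a (l 15905280) (l 15862336)) (a (l 15923768) (l 15909248))))) (a (b (a (b (l 15915096) (a (l 15680480) (l 15718344))) (b (l 15869848) (l 15771720))) (a (b (a (l 15525752) (l 15576504)) (a (b (l 15400184) (l 15312584)) (l 15422616))) (b (l 15651304) (l 15516984)))) (b (a (b (l 15897008) (l 15834184)) (l 16116200))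 (a (b (l 15745032) (l 15639552)) (l 15843032))))) (b (a (b (l 1) (b (l 1) (a (l 15896288) (l 1)))) (l 1)) (a (b (a (l 15938600) (l 15960960)) (a (l 15906272) (l 16150416))) (b (a (l 347924767703) (l 1)) (b (a (l 16049048) (l 16080352)) (l 76805303143)))))), by decide +kernel⟩

theorem c_pm_112 : CertB 536870912 536870912 536870912 536870912 780900216 37827925 3 eng mog cd0q1 cd4q1 pd2 true true false .dn 1 1 2
    ndB0q1 ndB4q1 pcB2 Cut.none Ext.none :=
  certB1 (fam := true) (s1 := true) (s2 := false) (a := 1) (b := 1) (c := 2) (cn := .dn) (n1 := ndB0q1) (n2 := ndB4q1) (pc := pcB2) (cut := Cut.none) (xt := Ext.none) (P1 := 536870912) (W1 := 536870912) (P2 := 536870912) (W2 := 536870912) (P3 := 780900216) (W3 := 37827925) (N0 := 3) (En := eng) (mo := mog) (C1 := cd0q1) (C2 := cd4q1) (C3 := pd2)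
    rfl (fun _ => rfl) k0_pm_112

noncomputable def f_pm_113 : ℕ → ℕ → ℕ → ℕ → Bool := onCell 536870912 536870912 1610612736 536870912 780900216 37827925
    (rowB 3 eng mog cd0q1 cd4q1 pd3 1 true true false .nn 1 1 3 (qsf 536870912 536870912 536870912 536870912 3) ndB0q1 ndB4q1 pcB3 Cut.none Ext.none)

def k0_pm_113 : ∃ t, chk3 f_pm_113 t 1 1 1 = true :=
  ⟨(a (b (b (a (a (b (a (b (l 263701537383) (l 317925202903)) (b (l 15303200) (l 259943326103))) (a (l 2) (b (l 323293885447) (l 2)))) (b (b (l 15420056) (l 15340136)) (b (l 258332891367) (l 329199654535)))) (a (b (l 15539880) (a (l 15359072) (l 15455240))) (b (l 15707672) (l 15608424)))) (a (b (a (l 2) (l 356580005159)) (l 2)) (b (a (l 276586688887) (l 15529584)) (a (l 374833848167) (l 15477632))))) (a (l 2) (b (b (a (l 2) (l 410804349783)) (l 2)) (l 2)))) (b (b (a (b (a (l 15882104) (l 16053760)) (a (l 15832296) (l 16076352))) (b (a (l 16202712) (l 16326152)) (a (l 16292616) (l 16419432)))) (a (b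 (a (l 15813440) (l 16058184)) (a (l 15789072) (l 15993128))) (b (a (l 16240856) (l 16381904)) (a (l 16177752) (l 4))))) (b (a (b (a (b (l 15738640) (l 15705320)) (l 59825447671)) (a (b (l 477913846039) (l 2)) (l 4))) (l 4)) (l 4)))), by decide +kernel⟩

theorem c_pm_113 : CertB 536870912 536870912 536870912 536870912 780900216 37827925 3 eng mog cd0q1 cd4q1 pd3 true true false .nn 1 1 3
    ndB0q1 ndB4q1 pcB3 Cut.none Ext.none :=
  certB1 (fam := true) (s1 := true) (s2 := false) (a := 1) (b := 1) (c := 3) (cn := .nn) (n1 := ndB0q1) (n2 := ndB4q1) (pc := pcB3) (cut := Cut.none) (xt := Ext.none) (P1 := 536870912) (W1 := 536870912) (P2 := 536870912) (W2 := 536870912) (P3 := 780900216) (W3 := 37827925) (N0 := 3) (En := eng) (mo := mog) (C1 := cd0q1) (C2 := cd4q1) (C3 := pd3)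
    rfl (fun _ => rfl) k0_pm_113

noncomputable def f_pm_123 : ℕ → ℕ → ℕ → ℕ → Bool := onCell 1610612736 536870912 1073741824 536870912 780900216 37827925
    (rowB 3 eng mog cd0q1 cd4q2 pd3 2 true true false .npn 1 2 3 (qsf 536870912 536870912 1073741824 536870912 3) ndB0q1 ndB4q2 pcB3 Cut.none Ext.none)

def k0_pm_123 : ∃ t, chk3 f_pm_123 t 2 1 1 = true :=
  ⟨(b (a (b (b (a (a (b (a (l 15791360) (l 15786976)) (b (l 15780048) (l 1))) (b (a (l 15826560) (l 15742440)) (a (l 15784232) (l 15782440)))) (a (b (a (l 15744664) (l 15749568)) (a (l 15782640) (l 15784968))) (b (a (l 15757440) (l 15768640)) (l 15940200)))) (a (b (a (l 1) (l 15821112)) (l 1)) (b (a (b (l 15810320) (l 15827344)) (b (l 15816776) (l 15832360))) (a (l 15851304) (l 15854592))))) (b (a (l 1) (b (l 16068128) (l 1))) (l 1))) (b (a (b (a (b (a (l 15783240) (l 15802752)) (l 15857080)) (b (a (l 15827392) (l 15858352)) (a (l 15840432) (l 15863408)))) (b (a (l 15840016) (l 15867752)) (a (l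 15865928) (l 15886752)))) (b (b (a (a (l 15898232) (l 15946800)) (b (l 16057376) (l 16026568))) (a (a (l 15891704) (l 15926544)) (l 15995896))) (a (b (l 15910544) (l 15920608)) (b (l 15975200) (l 15969992))))) (a (b (b (a (l 15890184) (l 15907136)) (l 15931264)) (b (l 15974416) (l 1))) (b (b (l 16035960) (l 16000448)) (b (l 16016608) (l 16050368)))))) (a (l 1) (b (b (a (l 1) (l 16088808)) (l 1)) (l 1)))), by decide +kernel⟩

def k1_pm_123 : ∃ t, chk3 f_pm_123 t 3 2 1 = true :=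
  ⟨(a (a (b (b (b (b (a (a (l 16148632) (l 16173992)) (a (a (l 16192216) (l 16204304)) (l 16222960))) (a (l 16143344) (a (a (l 16174000) (l 16186296)) (l 16204264)))) (a (b (l 16126576) (l 16107288)) (a (l 16156384) (l 16180656)))) (b (a (l 16070416) (a (l 16127768) (l 16152304))) (a (l 16042000) (l 16116976)))) (b (a (l 16035488) (b (l 16100752) (l 16104848))) (a (l 16088504) (l 16135480)))) (b (b (a (b (a (l 16238288) (l 16262632)) (l 16278080)) (b (l 16300864) (l 16261992))) (a (b (l 16188592) (l 16164000)) (b (l 16231568) (l 16210264)))) (b (b (a (l 16144712) (l 16190520)) (l 16172496)) (b (l 16187624) (l 16210984))))) (a (b (b (a (b (a (l 16335392) (l 16362592)) (b (l 16317256) (l 16298960))) (a (b (l 16391744) (l 16348768)) (b (l 16405384) (l 16375168)))) (a (b (l 16340512) (l 16250976)) (a (l 16466296) (b (l 16342008) (l 16309936))))) (b (a (b (l 16234264) (l 16234560)) (a (l 16264128) (l 16349728))) (a (l 16261912) (l 16321936)))) (b (a (b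 (a (b (l 4) (l 16361200)) (l 4)) (a (b (l 16365616) (l 16340936)) (l 16441672))) (l 4)) (b (a (a (b (l 16315024) (l 16309776)) (l 16558952)) (a (l 16517056) (l 4))) (a (a (b (l 16324840) (l 16341792)) (l 16379944)) (a (l 16391864) (l 4))))))), by decide +kernel⟩

def k2_pm_123 : ∃ t, chk3 f_pm_123 t 3 3 1 = true :=
  ⟨(a (b (a (b (a (l 16137016) (l 16180280)) (l 16163064)) (b (l 16249312) (l 16273368))) (a (l 1) (b (l 16284640) (l 1)))) (a (b (b (a (l 16304864) (l 16342856)) (l 16366776)) (b (l 16388672) (l 16395872))) (a (b (b (b (l 16382168) (l 16390776)) (l 16419024)) (b (l 16450632) (l 16465000))) (b (a (b (l 16415144) (l 16448416)) (a (b (l 16423232) (l 16461752)) (a (l 16212192) (b (l 4) (l 546231453975))))) (a (b (l 16475360) (l 16495856)) (a (b (l 16488336) (l 16508992)) (b (a (l 16495568) (a (l 16497384) (l 16496680))) (a (l 16515304) (a (l 16518424) (l 16520568)))))))))), by decide +kernel⟩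

theorem s3_pm_123 : ∃ t, chk3 f_pm_123 t 3 1 1 = true := ex3_b k1_pm_123 k2_pm_123

theorem s4_pm_123 : ∃ t, chk3 f_pm_123 t 1 1 1 = true := ex3_a k0_pm_123 s3_pm_123

theorem c_pm_123 : CertB 536870912 536870912 1073741824 536870912 780900216 37827925 3 eng mog cd0q1 cd4q2 pd3 true true false .npn 1 2 3
    ndB0q1 ndB4q2 pcB3 Cut.none Ext.none :=
  certB2 (fam := true) (s1 := true) (s2 := false) (a := 1) (b := 2) (c := 3) (cn := .npn) (n1 := ndB0q1) (n2 := ndB4q2) (pc := pcB3) (cut := Cut.none) (xt := Ext.none) (P1 := 536870912) (W1 := 536870912) (P2 := 1073741824) (W2 := 536870912) (P3 := 780900216) (W3 := 37827925) (N0 := 3) (En := eng) (mo := mog) (C1 := cd0q1) (C2 := cd4q2) (C3 := pd3)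
    rfl (fun _ => rfl) s4_pm_123

noncomputable def f_pm_133 : ℕ → ℕ → ℕ → ℕ → Bool := onCell 536870912 536870912 0 1230186008 780900216 37827925
    (rowB 3 eng mog cd0q1 cd4q3 pd3 0 true true false .dn 1 3 3 (qsf 536870912 536870912 0 1230186008 3) ndB0q1 ndB4q3 pcB3 Cut.none Ext.none)

def k0_pm_133 : ∃ t, chk3 f_pm_133 t 1 1 1 = true :=
  ⟨(b (l 2) (b (l 2) (a (b (l 2) (a (b (l 2) (a (l 16629456) (l 2))) (l 2))) (l 2)))), by decide +kernel⟩

theorem c_pm_133 : CertB 536870912 536870912 0 1230186008 780900216 37827925 3 eng mog cd0q1 cd4q3 pd3 true true false .dn 1 3 3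
    ndB0q1 ndB4q3 pcB3 Cut.none Ext.none :=
  certB0 (fam := true) (s1 := true) (s2 := false) (a := 1) (b := 3) (c := 3) (cn := .dn) (n1 := ndB0q1) (n2 := ndB4q3) (pc := pcB3) (cut := Cut.none) (xt := Ext.none) (P1 := 536870912) (W1 := 536870912) (P2 := 0) (W2 := 1230186008) (P3 := 780900216) (W3 := 37827925) (N0 := 3) (En := eng) (mo := mog) (C1 := cd0q1) (C2 := cd4q3) (C3 := pd3)
    rfl k0_pm_133

noncomputable def f_pm_202 : ℕ → ℕ → ℕ → ℕ → Bool := onCell 0 536870912 0 536870912 780900216 37827925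
    (rowB 3 eng mog cd0q2 cd4q0 pd2 0 true true false .pp 2 0 2 (qsf 0 536870912 0 536870912 2) ndB0q2 ndB4q0 pcB2 Cut.none Ext.none)

def k0_pm_202 : ∃ t, chk3 f_pm_202 t 2 2 1 = true :=
  ⟨(b (a (b (b (a (l 16059232) (l 16053464)) (a (l 16100744) (l 16075632))) (a (l 4) (b (l 16111368) (l 4)))) (b (a (b (l 16053144) (l 16065128)) (b (a (l 16048336) (l 16044768)) (l 16049656))) (a (b (l 16084720) (l 16113312)) (b (l 16063696) (l 16083264))))) (a (l 4) (b (a (l 16338792) (l 16267760)) (a (l 4) (b (l 16168392) (l 16208976)))))), by decide +kernel⟩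

def k1_pm_202 : ∃ t, chk3 f_pm_202 t 3 2 1 = true :=
  ⟨(b (a (b (a (b (a (l 16039008) (l 16030888)) (a (l 16031040) (l 16014832))) (b (a (b (l 16029392) (l 16015344)) (b (a (l 16023608) (l 16019176)) (l 16004320))) (a (l 15998664) (l 15983072)))) (a (b (l 16028872) (l 16043680)) (b (a (l 15993072) (l 15967304)) (l 15988024)))) (a (b (b (a (b (a (l 16011088) (l 16003032)) (a (l 15994576) (l 15986104))) (b (a (l 15995720) (l 15989216)) (l 15974296))) (a (b (a (l 15978944) (l 15970072)) (l 15960752)) (b (l 15957952) (l 15942544)))) (b (a (l 15942448) (a (l 15929368) (l 15919672))) (a (l 15938880) (l 15911472)))) (b (a (b (b (b (a (l 15987976) (l 15981104)) (l 15973904)) (a (l 15963144) (l 15955328))) (b (a (l 15945760) (l 15937424)) (l 15925960))) (b (a (b (b (b (l 15976216) (l 15970472)) (l 15962176)) (l 15946896)) (b (a (b (b (b (l 15971400) (l 15968400)) (l 15964016)) (l 15955736)) (b (a (b (b (l 15968016) (l 15965024)) (l 15960728)) (b (l 15964368)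 (l 15958808))) (l 15951848))) (a (l 15940616) (l 15937208)))) (a (b (l 15928776) (l 15912936)) (b (l 15921016) (l 15905344))))) (a (b (b (l 15912632) (l 15901768)) (a (l 15893096) (l 15883536))) (b (a (l 15893248) (l 15885696)) (a (l 15875616) (l 15867680))))))) (a (b (a (l 16074720) (b (l 16003960) (l 16025880))) (a (l 16126240) (l 16063360))) (a (b (b (l 15977296) (l 15954224)) (l 16013384)) (b (a (b (l 15889200) (l 15904544)) (b (b (l 15863552) (l 15863208)) (l 15874960))) (b (a (l 15928240) (l 15898384)) (l 15940712)))))), by decide +kernel⟩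

def k2_pm_202 : ∃ t, chk3 f_pm_202 t 1 3 1 = true :=
  ⟨(a (l 4) (b (a (b (a (b (l 16176760) (l 16217056)) (l 16124032)) (a (l 4) (b (l 16171848) (l 16206576)))) (b (a (l 16054656) (l 15989080)) (a (l 16116776) (l 16053272)))) (a (b (a (l 4) (b (l 16240704) (l 4))) (l 2)) (b (a (l 16189528) (l 16130512)) (a (l 16290896) (l 16240552)))))), by decide +kernel⟩

theorem s3_pm_202 : ∃ t, chk3 f_pm_202 t 1 2 1 = true := ex3_a k0_pm_202 k1_pm_202

theorem s4_pm_202 : ∃ t, chk3 f_pm_202 t 1 1 1 = true := ex3_b s3_pm_202 k2_pm_202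

theorem c_pm_202 : CertB 0 536870912 0 536870912 780900216 37827925 3 eng mog cd0q2 cd4q0 pd2 true true false .pp 2 0 2
    ndB0q2 ndB4q0 pcB2 Cut.none Ext.none :=
  certB0 (fam := true) (s1 := true) (s2 := false) (a := 2) (b := 0) (c := 2) (cn := .pp) (n1 := ndB0q2) (n2 := ndB4q0) (pc := pcB2) (cut := Cut.none) (xt := Ext.none) (P1 := 0) (W1 := 536870912) (P2 := 0) (W2 := 536870912) (P3 := 780900216) (W3 := 37827925) (N0 := 3) (En := eng) (mo := mog) (C1 := cd0q2) (C2 := cd4q0) (C3 := pd2)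
    rfl s4_pm_202

noncomputable def f_pm_203 : ℕ → ℕ → ℕ → ℕ → Bool := onCell 0 536870912 1610612736 536870912 780900216 37827925
    (rowB 3 eng mog cd0q2 cd4q0 pd3 1 true true false .up 2 0 3 (qsf 0 536870912 0 536870912 3) ndB0q2 ndB4q0 pcB3 Cut.none Ext.none)

def k0_pm_203 : ∃ t, chk3 f_pm_203 t 1 1 1 = true :=
  ⟨(b (a (l 4) (b (a (l 4) (b (b (l 16288448) (l 16356160)) (l 124117060951))) (l 4))) (l 2)), by decide +kernel⟩

theorem c_pm_203 : CertB 0 536870912 0 536870912 780900216 37827925 3 eng mog cd0q2 cd4q0 pd3 true true false .up 2 0 3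
    ndB0q2 ndB4q0 pcB3 Cut.none Ext.none :=
  certB1 (fam := true) (s1 := true) (s2 := false) (a := 2) (b := 0) (c := 3) (cn := .up) (n1 := ndB0q2) (n2 := ndB4q0) (pc := pcB3) (cut := Cut.none) (xt := Ext.none) (P1 := 0) (W1 := 536870912) (P2 := 0) (W2 := 536870912) (P3 := 780900216) (W3 := 37827925) (N0 := 3) (En := eng) (mo := mog) (C1 := cd0q2) (C2 := cd4q0) (C3 := pd3)
    rfl (fun _ => rfl) k0_pm_203

noncomputable def f_pm_213 : ℕ → ℕ → ℕ → ℕ → Bool := onCell 0 536870912 1610612736 536870912 780900216 37827925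
    (rowB 3 eng mog cd0q2 cd4q1 pd3 1 true true false .pnn 2 1 3 (qsf 0 536870912 536870912 536870912 3) ndB0q2 ndB4q1 pcB3 Cut.none Ext.none)

def k0_pm_213 : ∃ t, chk3 f_pm_213 t 1 1 1 = true :=
  ⟨(b (a (l 4) (b (a (l 4) (b (b (l 16280496) (l 16348960)) (a (l 4) (l 16453496)))) (l 4))) (l 4)), by decide +kernel⟩

theorem c_pm_213 : CertB 0 536870912 536870912 536870912 780900216 37827925 3 eng mog cd0q2 cd4q1 pd3 true true false .pnn 2 1 3
    ndB0q2 ndB4q1 pcB3 Cut.none Ext.none :=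
  certB1 (fam := true) (s1 := true) (s2 := false) (a := 2) (b := 1) (c := 3) (cn := .pnn) (n1 := ndB0q2) (n2 := ndB4q1) (pc := pcB3) (cut := Cut.none) (xt := Ext.none) (P1 := 0) (W1 := 536870912) (P2 := 536870912) (W2 := 536870912) (P3 := 780900216) (W3 := 37827925) (N0 := 3) (En := eng) (mo := mog) (C1 := cd0q2) (C2 := cd4q1) (C3 := pd3)
    rfl (fun _ => rfl) k0_pm_213

noncomputable def f_mm_001 : ℕ → ℕ → ℕ → ℕ → Bool := onCell 0 536870912 0 536870912 780900216 37827925
    (rowB 3 eng mog cd0q0 cd4q0 pd1 0 true false false .up 0 0 1 (qsf 0 536870912 0 536870912 1) ndB0q0 ndB4q0 pcB1 Cut.none Ext.none)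

def k0_mm_001 : ∃ t, chk3 f_mm_001 t 1 1 1 = true :=
  ⟨(l 4), by decide +kernel⟩

theorem c_mm_001 : CertB 0 536870912 0 536870912 780900216 37827925 3 eng mog cd0q0 cd4q0 pd1 true false false .up 0 0 1
    ndB0q0 ndB4q0 pcB1 Cut.none Ext.none :=
  certB0 (fam := true) (s1 := false) (s2 := false) (a := 0) (b := 0) (c := 1) (cn := .up) (n1 := ndB0q0) (n2 := ndB4q0) (pc := pcB1) (cut := Cut.none) (xt := Ext.none) (P1 := 0) (W1 := 536870912) (P2 := 0) (W2 := 536870912) (P3 := 780900216) (W3 := 37827925) (N0 := 3) (En := eng) (mo := mog) (C1 := cd0q0) (C2 := cd4q0) (C3 := pd1)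
    rfl k0_mm_001

noncomputable def f_mm_011 : ℕ → ℕ → ℕ → ℕ → Bool := onCell 0 536870912 536870912 536870912 780900216 37827925
    (rowB 3 eng mog cd0q0 cd4q1 pd1 0 true false false .pnn 0 1 1 (qsf 0 536870912 536870912 536870912 1) ndB0q0 ndB4q1 pcB1 Cut.none Ext.none)

def k0_mm_011 : ∃ t, chk3 f_mm_011 t 1 1 1 = true :=
  ⟨(l 4), by decide +kernel⟩

theorem c_mm_011 : CertB 0 536870912 536870912 536870912 780900216 37827925 3 eng mog cd0q0 cd4q1 pd1 true false false .pnn 0 1 1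
    ndB0q0 ndB4q1 pcB1 Cut.none Ext.none :=
  certB0 (fam := true) (s1 := false) (s2 := false) (a := 0) (b := 1) (c := 1) (cn := .pnn) (n1 := ndB0q0) (n2 := ndB4q1) (pc := pcB1) (cut := Cut.none) (xt := Ext.none) (P1 := 0) (W1 := 536870912) (P2 := 536870912) (W2 := 536870912) (P3 := 780900216) (W3 := 37827925) (N0 := 3) (En := eng) (mo := mog) (C1 := cd0q0) (C2 := cd4q1) (C3 := pd1)
    rfl k0_mm_011

noncomputable def f_mm_012 : ℕ → ℕ → ℕ → ℕ → Bool := onCell 0 536870912 536870912 536870912 780900216 37827925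
    (rowB 3 eng mog cd0q0 cd4q1 pd2 0 true false false .pnp 0 1 2 (qsf 0 536870912 536870912 536870912 2) ndB0q0 ndB4q1 pcB2 Cut.none Ext.none)

def k0_mm_012 : ∃ t, chk3 f_mm_012 t 1 1 1 = true :=
  ⟨(l 4), by decide +kernel⟩

theorem c_mm_012 : CertB 0 536870912 536870912 536870912 780900216 37827925 3 eng mog cd0q0 cd4q1 pd2 true false false .pnp 0 1 2
    ndB0q0 ndB4q1 pcB2 Cut.none Ext.none :=
  certB0 (fam := true) (s1 := false) (s2 := false) (a := 0) (b := 1) (c := 2) (cn := .pnp) (n1 := ndB0q0) (n2 := ndB4q1) (pc := pcB2) (cut := Cut.none) (xt := Ext.none) (P1 := 0) (W1 := 536870912) (P2 := 536870912) (W2 := 536870912) (P3 := 780900216) (W3 := 37827925) (N0 := 3) (En := eng) (mo := mog) (C1 := cd0q0) (C2 := cd4q1) (C3 := pd2)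
    rfl k0_mm_012

noncomputable def f_mm_022 : ℕ → ℕ → ℕ → ℕ → Bool := onCell 0 536870912 1073741824 536870912 780900216 37827925
    (rowB 3 eng mog cd0q0 cd4q2 pd2 0 true false false .pp 0 2 2 (qsf 0 536870912 1073741824 536870912 2) ndB0q0 ndB4q2 pcB2 Cut.none Ext.none)

def k0_mm_022 : ∃ t, chk3 f_mm_022 t 1 1 1 = true :=
  ⟨(l 4), by decide +kernel⟩

theorem c_mm_022 : CertB 0 536870912 1073741824 536870912 780900216 37827925 3 eng mog cd0q0 cd4q2 pd2 true false false .pp 0 2 2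
    ndB0q0 ndB4q2 pcB2 Cut.none Ext.none :=
  certB0 (fam := true) (s1 := false) (s2 := false) (a := 0) (b := 2) (c := 2) (cn := .pp) (n1 := ndB0q0) (n2 := ndB4q2) (pc := pcB2) (cut := Cut.none) (xt := Ext.none) (P1 := 0) (W1 := 536870912) (P2 := 1073741824) (W2 := 536870912) (P3 := 780900216) (W3 := 37827925) (N0 := 3) (En := eng) (mo := mog) (C1 := cd0q0) (C2 := cd4q2) (C3 := pd2)
    rfl k0_mm_022

noncomputable def f_mm_023 : ℕ → ℕ → ℕ → ℕ → Bool := onCell 0 536870912 1073741824 536870912 780900216 37827925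
    (rowB 3 eng mog cd0q0 cd4q2 pd3 0 true false false .up 0 2 3 (qsf 0 536870912 1073741824 536870912 3) ndB0q0 ndB4q2 pcB3 Cut.none Ext.none)

def k0_mm_023 : ∃ t, chk3 f_mm_023 t 1 1 1 = true :=
  ⟨(l 4), by decide +kernel⟩

theorem c_mm_023 : CertB 0 536870912 1073741824 536870912 780900216 37827925 3 eng mog cd0q0 cd4q2 pd3 true false false .up 0 2 3
    ndB0q0 ndB4q2 pcB3 Cut.none Ext.none :=
  certB0 (fam := true) (s1 := false) (s2 := false) (a := 0) (b := 2) (c := 3) (cn := .up) (n1 := ndB0q0) (n2 := ndB4q2) (pc := pcB3) (cut := Cut.none) (xt := Ext.none) (P1 := 0) (W1 := 536870912) (P2 := 1073741824) (W2 := 536870912) (P3 := 780900216) (W3 := 37827925) (N0 := 3) (En := eng) (mo := mog) (C1 := cd0q0) (C2 := cd4q2) (C3 := pd3)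
    rfl k0_mm_023

noncomputable def f_mm_033 : ℕ → ℕ → ℕ → ℕ → Bool := onCell 0 536870912 0 1230186008 780900216 37827925
    (rowB 3 eng mog cd0q0 cd4q3 pd3 0 true false false .pnn 0 3 3 (qsf 0 536870912 0 1230186008 3) ndB0q0 ndB4q3 pcB3 Cut.none Ext.none)

def k0_mm_033 : ∃ t, chk3 f_mm_033 t 1 1 1 = true :=
  ⟨(l 5), by decide +kernel⟩

theorem c_mm_033 : CertB 0 536870912 0 1230186008 780900216 37827925 3 eng mog cd0q0 cd4q3 pd3 true false false .pnn 0 3 3
    ndB0q0 ndB4q3 pcB3 Cut.none Ext.none :=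
  certB0 (fam := true) (s1 := false) (s2 := false) (a := 0) (b := 3) (c := 3) (cn := .pnn) (n1 := ndB0q0) (n2 := ndB4q3) (pc := pcB3) (cut := Cut.none) (xt := Ext.none) (P1 := 0) (W1 := 536870912) (P2 := 0) (W2 := 1230186008) (P3 := 780900216) (W3 := 37827925) (N0 := 3) (En := eng) (mo := mog) (C1 := cd0q0) (C2 := cd4q3) (C3 := pd3)
    rfl k0_mm_033

noncomputable def f_mm_101 : ℕ → ℕ → ℕ → ℕ → Bool := onCell 536870912 536870912 0 536870912 780900216 37827925
    (rowB 3 eng mog cd0q1 cd4q0 pd1 0 true false false .npn 1 0 1 (qsf 536870912 536870912 0 536870912 1) ndB0q1 ndB4q0 pcB1 Cut.none Ext.none)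

def k0_mm_101 : ∃ t, chk3 f_mm_101 t 1 1 1 = true :=
  ⟨(l 4), by decide +kernel⟩

theorem c_mm_101 : CertB 536870912 536870912 0 536870912 780900216 37827925 3 eng mog cd0q1 cd4q0 pd1 true false false .npn 1 0 1
    ndB0q1 ndB4q0 pcB1 Cut.none Ext.none :=
  certB0 (fam := true) (s1 := false) (s2 := false) (a := 1) (b := 0) (c := 1) (cn := .npn) (n1 := ndB0q1) (n2 := ndB4q0) (pc := pcB1) (cut := Cut.none) (xt := Ext.none) (P1 := 536870912) (W1 := 536870912) (P2 := 0) (W2 := 536870912) (P3 := 780900216) (W3 := 37827925) (N0 := 3) (En := eng) (mo := mog) (C1 := cd0q1) (C2 := cd4q0) (C3 := pd1)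
    rfl k0_mm_101

noncomputable def f_mm_102 : ℕ → ℕ → ℕ → ℕ → Bool := onCell 536870912 536870912 0 536870912 780900216 37827925
    (rowB 3 eng mog cd0q1 cd4q0 pd2 0 true false false .npp 1 0 2 (qsf 536870912 536870912 0 536870912 2) ndB0q1 ndB4q0 pcB2 Cut.none Ext.none)

def k0_mm_102 : ∃ t, chk3 f_mm_102 t 1 1 1 = true :=
  ⟨(l 4), by decide +kernel⟩

theorem c_mm_102 : CertB 536870912 536870912 0 536870912 780900216 37827925 3 eng mog cd0q1 cd4q0 pd2 true false false .npp 1 0 2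
    ndB0q1 ndB4q0 pcB2 Cut.none Ext.none :=
  certB0 (fam := true) (s1 := false) (s2 := false) (a := 1) (b := 0) (c := 2) (cn := .npp) (n1 := ndB0q1) (n2 := ndB4q0) (pc := pcB2) (cut := Cut.none) (xt := Ext.none) (P1 := 536870912) (W1 := 536870912) (P2 := 0) (W2 := 536870912) (P3 := 780900216) (W3 := 37827925) (N0 := 3) (En := eng) (mo := mog) (C1 := cd0q1) (C2 := cd4q0) (C3 := pd2)
    rfl k0_mm_102

noncomputable def f_mm_112 : ℕ → ℕ → ℕ → ℕ → Bool := onCell 536870912 536870912 536870912 536870912 780900216 37827925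
    (rowB 3 eng mog cd0q1 cd4q1 pd2 0 true false false .dn 1 1 2 (qsf 536870912 536870912 536870912 536870912 2) ndB0q1 ndB4q1 pcB2 Cut.none Ext.none)

def k0_mm_112 : ∃ t, chk3 f_mm_112 t 1 1 1 = true :=
  ⟨(l 4), by decide +kernel⟩

theorem c_mm_112 : CertB 536870912 536870912 536870912 536870912 780900216 37827925 3 eng mog cd0q1 cd4q1 pd2 true false false .dn 1 1 2
    ndB0q1 ndB4q1 pcB2 Cut.none Ext.none :=
  certB0 (fam := true) (s1 := false) (s2 := false) (a := 1) (b := 1) (c := 2) (cn := .dn) (n1 := ndB0q1) (n2 := ndB4q1) (pc := pcB2) (cut := Cut.none) (xt := Ext.none) (P1 := 536870912) (W1 := 536870912) (P2 := 536870912) (W2 := 536870912) (P3 := 780900216) (W3 := 37827925) (N0 := 3) (En := eng) (mo := mog) (C1 := cd0q1) (C2 := cd4q1) (C3 := pd2)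
    rfl k0_mm_112

noncomputable def f_mm_113 : ℕ → ℕ → ℕ → ℕ → Bool := onCell 536870912 536870912 536870912 536870912 780900216 37827925
    (rowB 3 eng mog cd0q1 cd4q1 pd3 0 true false false .nn 1 1 3 (qsf 536870912 536870912 536870912 536870912 3) ndB0q1 ndB4q1 pcB3 Cut.none Ext.none)

def k0_mm_113 : ∃ t, chk3 f_mm_113 t 1 1 1 = true :=
  ⟨(l 4), by decide +kernel⟩

theorem c_mm_113 : CertB 536870912 536870912 536870912 536870912 780900216 37827925 3 eng mog cd0q1 cd4q1 pd3 true false false .nn 1 1 3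
    ndB0q1 ndB4q1 pcB3 Cut.none Ext.none :=
  certB0 (fam := true) (s1 := false) (s2 := false) (a := 1) (b := 1) (c := 3) (cn := .nn) (n1 := ndB0q1) (n2 := ndB4q1) (pc := pcB3) (cut := Cut.none) (xt := Ext.none) (P1 := 536870912) (W1 := 536870912) (P2 := 536870912) (W2 := 536870912) (P3 := 780900216) (W3 := 37827925) (N0 := 3) (En := eng) (mo := mog) (C1 := cd0q1) (C2 := cd4q1) (C3 := pd3)
    rfl k0_mm_113

noncomputable def f_mm_123 : ℕ → ℕ → ℕ → ℕ → Bool := onCell 536870912 536870912 1073741824 536870912 780900216 37827925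
    (rowB 3 eng mog cd0q1 cd4q2 pd3 0 true false false .npn 1 2 3 (qsf 536870912 536870912 1073741824 536870912 3) ndB0q1 ndB4q2 pcB3 Cut.none Ext.none)

def k0_mm_123 : ∃ t, chk3 f_mm_123 t 1 1 1 = true :=
  ⟨(l 4), by decide +kernel⟩

theorem c_mm_123 : CertB 536870912 536870912 1073741824 536870912 780900216 37827925 3 eng mog cd0q1 cd4q2 pd3 true false false .npn 1 2 3
    ndB0q1 ndB4q2 pcB3 Cut.none Ext.none :=
  certB0 (fam := true) (s1 := false) (s2 := false) (a := 1) (b := 2) (c := 3) (cn := .npn) (n1 := ndB0q1) (n2 := ndB4q2) (pc := pcB3) (cut := Cut.none) (xt := Ext.none) (P1 := 536870912) (W1 := 536870912) (P2 := 1073741824) (W2 := 536870912) (P3 := 780900216) (W3 := 37827925) (N0 := 3) (En := eng) (mo := mog) (C1 := cd0q1) (C2 := cd4q2) (C3 := pd3)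
    rfl k0_mm_123

noncomputable def f_mm_133 : ℕ → ℕ → ℕ → ℕ → Bool := onCell 536870912 536870912 0 1230186008 780900216 37827925
    (rowB 3 eng mog cd0q1 cd4q3 pd3 0 true false false .dn 1 3 3 (qsf 536870912 536870912 0 1230186008 3) ndB0q1 ndB4q3 pcB3 Cut.none Ext.none)

def k0_mm_133 : ∃ t, chk3 f_mm_133 t 1 1 1 = true :=
  ⟨(l 4), by decide +kernel⟩

theorem c_mm_133 : CertB 536870912 536870912 0 1230186008 780900216 37827925 3 eng mog cd0q1 cd4q3 pd3 true false false .dn 1 3 3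
    ndB0q1 ndB4q3 pcB3 Cut.none Ext.none :=
  certB0 (fam := true) (s1 := false) (s2 := false) (a := 1) (b := 3) (c := 3) (cn := .dn) (n1 := ndB0q1) (n2 := ndB4q3) (pc := pcB3) (cut := Cut.none) (xt := Ext.none) (P1 := 536870912) (W1 := 536870912) (P2 := 0) (W2 := 1230186008) (P3 := 780900216) (W3 := 37827925) (N0 := 3) (En := eng) (mo := mog) (C1 := cd0q1) (C2 := cd4q3) (C3 := pd3)
    rfl k0_mm_133

noncomputable def f_mm_202 : ℕ → ℕ → ℕ → ℕ → Bool := onCell 0 536870912 0 536870912 780900216 37827925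
    (rowB 3 eng mog cd0q2 cd4q0 pd2 0 true false false .pp 2 0 2 (qsf 0 536870912 0 536870912 2) ndB0q2 ndB4q0 pcB2 Cut.none Ext.none)

def k0_mm_202 : ∃ t, chk3 f_mm_202 t 1 1 1 = true :=
  ⟨(b (a (l 4) (l 4)) (l 4)), by decide +kernel⟩

theorem c_mm_202 : CertB 0 536870912 0 536870912 780900216 37827925 3 eng mog cd0q2 cd4q0 pd2 true false false .pp 2 0 2
    ndB0q2 ndB4q0 pcB2 Cut.none Ext.none :=
  certB0 (fam := true) (s1 := false) (s2 := false) (a := 2) (b := 0) (c := 2) (cn := .pp) (n1 := ndB0q2) (n2 := ndB4q0) (pc := pcB2) (cut := Cut.none) (xt := Ext.none) (P1 := 0) (W1 := 536870912) (P2 := 0) (W2 := 536870912) (P3 := 780900216) (W3 := 37827925) (N0 := 3) (En := eng) (mo := mog) (C1 := cd0q2) (C2 := cd4q0) (C3 := pd2)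
    rfl k0_mm_202

noncomputable def f_mm_203 : ℕ → ℕ → ℕ → ℕ → Bool := onCell 0 536870912 1610612736 536870912 780900216 37827925
    (rowB 3 eng mog cd0q2 cd4q0 pd3 1 true false false .up 2 0 3 (qsf 0 536870912 0 536870912 3) ndB0q2 ndB4q0 pcB3 Cut.none Ext.none)

def k0_mm_203 : ∃ t, chk3 f_mm_203 t 1 1 1 = true :=
  ⟨(l 4), by decide +kernel⟩

theorem c_mm_203 : CertB 0 536870912 0 536870912 780900216 37827925 3 eng mog cd0q2 cd4q0 pd3 true false false .up 2 0 3
    ndB0q2 ndB4q0 pcB3 Cut.none Ext.none :=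
  certB1 (fam := true) (s1 := false) (s2 := false) (a := 2) (b := 0) (c := 3) (cn := .up) (n1 := ndB0q2) (n2 := ndB4q0) (pc := pcB3) (cut := Cut.none) (xt := Ext.none) (P1 := 0) (W1 := 536870912) (P2 := 0) (W2 := 536870912) (P3 := 780900216) (W3 := 37827925) (N0 := 3) (En := eng) (mo := mog) (C1 := cd0q2) (C2 := cd4q0) (C3 := pd3)
    rfl (fun _ => rfl) k0_mm_203

noncomputable def f_mm_213 : ℕ → ℕ → ℕ → ℕ → Bool := onCell 0 536870912 536870912 536870912 780900216 37827925
    (rowB 3 eng mog cd0q2 cd4q1 pd3 0 true false false .pnn 2 1 3 (qsf 0 536870912 536870912 536870912 3) ndB0q2 ndB4q1 pcB3 Cut.none Ext.none)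

def k0_mm_213 : ∃ t, chk3 f_mm_213 t 1 1 1 = true :=
  ⟨(l 4), by decide +kernel⟩

theorem c_mm_213 : CertB 0 536870912 536870912 536870912 780900216 37827925 3 eng mog cd0q2 cd4q1 pd3 true false false .pnn 2 1 3
    ndB0q2 ndB4q1 pcB3 Cut.none Ext.none :=
  certB0 (fam := true) (s1 := false) (s2 := false) (a := 2) (b := 1) (c := 3) (cn := .pnn) (n1 := ndB0q2) (n2 := ndB4q1) (pc := pcB3) (cut := Cut.none) (xt := Ext.none) (P1 := 0) (W1 := 536870912) (P2 := 536870912) (W2 := 536870912) (P3 := 780900216) (W3 := 37827925) (N0 := 3) (En := eng) (mo := mog) (C1 := cd0q2) (C2 := cd4q1) (C3 := pd3)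
    rfl k0_mm_213

end Pool.Agent.Strip051.G.I72727_7625.Tab.C.BA04

namespace Pool.Agent.Strip051.G.I72727_7625.Tab.C.BA05

open Pool.Agent.Strip051.PB Pool.Agent.Strip051.PB.T
open Pool.Agent.Strip051.G.I72727_7625.Tab

noncomputable def cut_pp_001 : Cut := Cut.of [[⟨3, 0, 0, 1449551462⟩]]

noncomputable def f_pp_001 : ℕ → ℕ → ℕ → ℕ → Bool := onCell 0 536870912 0 536870912 780900216 37827925
    (rowB 3 eng mog cd0q0 cd5q0 pd1 0 true true true .up 0 0 1 (qsf 0 536870912 0 536870912 1) ndB0q0 ndB5q0 pcB1 cut_pp_001 Ext.none)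

def k0_pp_001 : ∃ t, chk3 f_pp_001 t 1 1 1 = true :=
  ⟨(l 4), by decide +kernel⟩

theorem c_pp_001 : CertB 0 536870912 0 536870912 780900216 37827925 3 eng mog cd0q0 cd5q0 pd1 true true true .up 0 0 1
    ndB0q0 ndB5q0 pcB1 cut_pp_001 Ext.none :=
  certB0 (fam := true) (s1 := true) (s2 := true) (a := 0) (b := 0) (c := 1) (cn := .up) (n1 := ndB0q0) (n2 := ndB5q0) (pc := pcB1) (cut := cut_pp_001) (xt := Ext.none) (P1 := 0) (W1 := 536870912) (P2 := 0) (W2 := 536870912) (P3 := 780900216) (W3 := 37827925) (N0 := 3) (En := eng) (mo := mog) (C1 := cd0q0) (C2 := cd5q0) (C3 := pd1)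
    rfl k0_pp_001

noncomputable def cut_pp_011 : Cut := Cut.of [[⟨3, 0, 0, 1449551462⟩]]

noncomputable def f_pp_011 : ℕ → ℕ → ℕ → ℕ → Bool := onCell 0 536870912 536870912 536870912 780900216 37827925
    (rowB 3 eng mog cd0q0 cd5q1 pd1 0 true true true .pnn 0 1 1 (qsf 0 536870912 536870912 536870912 1) ndB0q0 ndB5q1 pcB1 cut_pp_011 Ext.none)

def k0_pp_011 : ∃ t, chk3 f_pp_011 t 1 1 1 = true :=
  ⟨(l 4), by decide +kernel⟩

theorem c_pp_011 : CertB 0 536870912 536870912 536870912 780900216 37827925 3 eng mog cd0q0 cd5q1 pd1 true true true .pnn 0 1 1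
    ndB0q0 ndB5q1 pcB1 cut_pp_011 Ext.none :=
  certB0 (fam := true) (s1 := true) (s2 := true) (a := 0) (b := 1) (c := 1) (cn := .pnn) (n1 := ndB0q0) (n2 := ndB5q1) (pc := pcB1) (cut := cut_pp_011) (xt := Ext.none) (P1 := 0) (W1 := 536870912) (P2 := 536870912) (W2 := 536870912) (P3 := 780900216) (W3 := 37827925) (N0 := 3) (En := eng) (mo := mog) (C1 := cd0q0) (C2 := cd5q1) (C3 := pd1)
    rfl k0_pp_011

noncomputable def cut_pp_012 : Cut := Cut.of [[⟨3, 0, 0, 1449551462⟩]]

noncomputable def f_pp_012 : ℕ → ℕ → ℕ → ℕ → Bool := onCell 0 536870912 536870912 536870912 780900216 37827925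
    (rowB 3 eng mog cd0q0 cd5q1 pd2 0 true true true .pnp 0 1 2 (qsf 0 536870912 536870912 536870912 2) ndB0q0 ndB5q1 pcB2 cut_pp_012 Ext.none)

def k0_pp_012 : ∃ t, chk3 f_pp_012 t 1 1 1 = true :=
  ⟨(l 4), by decide +kernel⟩

theorem c_pp_012 : CertB 0 536870912 536870912 536870912 780900216 37827925 3 eng mog cd0q0 cd5q1 pd2 true true true .pnp 0 1 2
    ndB0q0 ndB5q1 pcB2 cut_pp_012 Ext.none :=
  certB0 (fam := true) (s1 := true) (s2 := true) (a := 0) (b := 1) (c := 2) (cn := .pnp) (n1 := ndB0q0) (n2 := ndB5q1) (pc := pcB2) (cut := cut_pp_012) (xt := Ext.none) (P1 := 0) (W1 := 536870912) (P2 := 536870912) (W2 := 536870912) (P3 := 780900216) (W3 := 37827925) (N0 := 3) (En := eng) (mo := mog) (C1 := cd0q0) (C2 := cd5q1) (C3 := pd2)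
    rfl k0_pp_012

noncomputable def cut_pp_022 : Cut := Cut.of [[⟨3, 0, 0, 1449551462⟩]]

noncomputable def f_pp_022 : ℕ → ℕ → ℕ → ℕ → Bool := onCell 0 536870912 1073741824 536870912 780900216 37827925
    (rowB 3 eng mog cd0q0 cd5q2 pd2 0 true true true .pp 0 2 2 (qsf 0 536870912 1073741824 536870912 2) ndB0q0 ndB5q2 pcB2 cut_pp_022 Ext.none)

def k0_pp_022 : ∃ t, chk3 f_pp_022 t 1 1 1 = true :=
  ⟨(l 4), by decide +kernel⟩

theorem c_pp_022 : CertB 0 536870912 1073741824 536870912 780900216 37827925 3 eng mog cd0q0 cd5q2 pd2 true true true .pp 0 2 2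
    ndB0q0 ndB5q2 pcB2 cut_pp_022 Ext.none :=
  certB0 (fam := true) (s1 := true) (s2 := true) (a := 0) (b := 2) (c := 2) (cn := .pp) (n1 := ndB0q0) (n2 := ndB5q2) (pc := pcB2) (cut := cut_pp_022) (xt := Ext.none) (P1 := 0) (W1 := 536870912) (P2 := 1073741824) (W2 := 536870912) (P3 := 780900216) (W3 := 37827925) (N0 := 3) (En := eng) (mo := mog) (C1 := cd0q0) (C2 := cd5q2) (C3 := pd2)
    rfl k0_pp_022

noncomputable def cut_pp_023 : Cut := Cut.of [[⟨3, 0, 0, 1449551462⟩]]

noncomputable def f_pp_023 : ℕ → ℕ → ℕ → ℕ → Bool := onCell 0 536870912 1073741824 536870912 780900216 37827925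
    (rowB 3 eng mog cd0q0 cd5q2 pd3 0 true true true .up 0 2 3 (qsf 0 536870912 1073741824 536870912 3) ndB0q0 ndB5q2 pcB3 cut_pp_023 Ext.none)

def k0_pp_023 : ∃ t, chk3 f_pp_023 t 1 1 1 = true :=
  ⟨(l 4), by decide +kernel⟩

theorem c_pp_023 : CertB 0 536870912 1073741824 536870912 780900216 37827925 3 eng mog cd0q0 cd5q2 pd3 true true true .up 0 2 3
    ndB0q0 ndB5q2 pcB3 cut_pp_023 Ext.none :=
  certB0 (fam := true) (s1 := true) (s2 := true) (a := 0) (b := 2) (c := 3) (cn := .up) (n1 := ndB0q0) (n2 := ndB5q2) (pc := pcB3) (cut := cut_pp_023) (xt := Ext.none) (P1 := 0) (W1 := 536870912) (P2 := 1073741824) (W2 := 536870912) (P3 := 780900216) (W3 := 37827925) (N0 := 3) (En := eng) (mo := mog) (C1 := cd0q0) (C2 := cd5q2) (C3 := pd3)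
    rfl k0_pp_023

noncomputable def cut_pp_033 : Cut := Cut.of [[⟨3, 0, 0, 1449551462⟩]]

noncomputable def f_pp_033 : ℕ → ℕ → ℕ → ℕ → Bool := onCell 0 536870912 0 1230186008 780900216 37827925
    (rowB 3 eng mog cd0q0 cd5q3 pd3 0 true true true .pnn 0 3 3 (qsf 0 536870912 0 1230186008 3) ndB0q0 ndB5q3 pcB3 cut_pp_033 Ext.none)

def k0_pp_033 : ∃ t, chk3 f_pp_033 t 1 1 1 = true :=
  ⟨(l 4), by decide +kernel⟩

theorem c_pp_033 : CertB 0 536870912 0 1230186008 780900216 37827925 3 eng mog cd0q0 cd5q3 pd3 true true true .pnn 0 3 3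
    ndB0q0 ndB5q3 pcB3 cut_pp_033 Ext.none :=
  certB0 (fam := true) (s1 := true) (s2 := true) (a := 0) (b := 3) (c := 3) (cn := .pnn) (n1 := ndB0q0) (n2 := ndB5q3) (pc := pcB3) (cut := cut_pp_033) (xt := Ext.none) (P1 := 0) (W1 := 536870912) (P2 := 0) (W2 := 1230186008) (P3 := 780900216) (W3 := 37827925) (N0 := 3) (En := eng) (mo := mog) (C1 := cd0q0) (C2 := cd5q3) (C3 := pd3)
    rfl k0_pp_033

noncomputable def cut_pp_101 : Cut := Cut.of [[⟨3, 0, 0, 1449551462⟩]]

noncomputable def f_pp_101 : ℕ → ℕ → ℕ → ℕ → Bool := onCell 536870912 536870912 0 536870912 780900216 37827925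
    (rowB 3 eng mog cd0q1 cd5q0 pd1 0 true true true .npn 1 0 1 (qsf 536870912 536870912 0 536870912 1) ndB0q1 ndB5q0 pcB1 cut_pp_101 Ext.none)

def k0_pp_101 : ∃ t, chk3 f_pp_101 t 1 1 1 = true :=
  ⟨(l 4), by decide +kernel⟩

theorem c_pp_101 : CertB 536870912 536870912 0 536870912 780900216 37827925 3 eng mog cd0q1 cd5q0 pd1 true true true .npn 1 0 1
    ndB0q1 ndB5q0 pcB1 cut_pp_101 Ext.none :=
  certB0 (fam := true) (s1 := true) (s2 := true) (a := 1) (b := 0) (c := 1) (cn := .npn) (n1 := ndB0q1) (n2 := ndB5q0) (pc := pcB1) (cut := cut_pp_101) (xt := Ext.none) (P1 := 536870912) (W1 := 536870912) (P2 := 0) (W2 := 536870912) (P3 := 780900216) (W3 := 37827925) (N0 := 3) (En := eng) (mo := mog) (C1 := cd0q1) (C2 := cd5q0) (C3 := pd1)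
    rfl k0_pp_101

noncomputable def cut_pp_102 : Cut := Cut.of [[⟨3, 0, 0, 1449551462⟩]]

noncomputable def f_pp_102 : ℕ → ℕ → ℕ → ℕ → Bool := onCell 536870912 536870912 0 536870912 780900216 37827925
    (rowB 3 eng mog cd0q1 cd5q0 pd2 0 true true true .npp 1 0 2 (qsf 536870912 536870912 0 536870912 2) ndB0q1 ndB5q0 pcB2 cut_pp_102 Ext.none)

def k0_pp_102 : ∃ t, chk3 f_pp_102 t 1 1 1 = true :=
  ⟨(l 4), by decide +kernel⟩

theorem c_pp_102 : CertB 536870912 536870912 0 536870912 780900216 37827925 3 eng mog cd0q1 cd5q0 pd2 true true true .npp 1 0 2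
    ndB0q1 ndB5q0 pcB2 cut_pp_102 Ext.none :=
  certB0 (fam := true) (s1 := true) (s2 := true) (a := 1) (b := 0) (c := 2) (cn := .npp) (n1 := ndB0q1) (n2 := ndB5q0) (pc := pcB2) (cut := cut_pp_102) (xt := Ext.none) (P1 := 536870912) (W1 := 536870912) (P2 := 0) (W2 := 536870912) (P3 := 780900216) (W3 := 37827925) (N0 := 3) (En := eng) (mo := mog) (C1 := cd0q1) (C2 := cd5q0) (C3 := pd2)
    rfl k0_pp_102

noncomputable def cut_pp_112 : Cut := Cut.of [[⟨3, 0, 0, 1449551462⟩]]

noncomputable def f_pp_112 : ℕ → ℕ → ℕ → ℕ → Bool := onCell 536870912 536870912 536870912 536870912 780900216 37827925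
    (rowB 3 eng mog cd0q1 cd5q1 pd2 0 true true true .dn 1 1 2 (qsf 536870912 536870912 536870912 536870912 2) ndB0q1 ndB5q1 pcB2 cut_pp_112 Ext.none)

def k0_pp_112 : ∃ t, chk3 f_pp_112 t 1 1 1 = true :=
  ⟨(l 4), by decide +kernel⟩

theorem c_pp_112 : CertB 536870912 536870912 536870912 536870912 780900216 37827925 3 eng mog cd0q1 cd5q1 pd2 true true true .dn 1 1 2
    ndB0q1 ndB5q1 pcB2 cut_pp_112 Ext.none :=
  certB0 (fam := true) (s1 := true) (s2 := true) (a := 1) (b := 1) (c := 2) (cn := .dn) (n1 := ndB0q1) (n2 := ndB5q1) (pc := pcB2) (cut := cut_pp_112) (xt := Ext.none) (P1 := 536870912) (W1 := 536870912) (P2 := 536870912) (W2 := 536870912) (P3 := 780900216) (W3 := 37827925) (N0 := 3) (En := eng) (mo := mog) (C1 := cd0q1) (C2 := cd5q1) (C3 := pd2)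
    rfl k0_pp_112

noncomputable def cut_pp_113 : Cut := Cut.of [[⟨3, 0, 0, 1449551462⟩]]

noncomputable def f_pp_113 : ℕ → ℕ → ℕ → ℕ → Bool := onCell 536870912 536870912 536870912 536870912 780900216 37827925
    (rowB 3 eng mog cd0q1 cd5q1 pd3 0 true true true .nn 1 1 3 (qsf 536870912 536870912 536870912 536870912 3) ndB0q1 ndB5q1 pcB3 cut_pp_113 Ext.none)

def k0_pp_113 : ∃ t, chk3 f_pp_113 t 1 1 1 = true :=
  ⟨(l 4), by decide +kernel⟩

theorem c_pp_113 : CertB 536870912 536870912 536870912 536870912 780900216 37827925 3 eng mog cd0q1 cd5q1 pd3 true true true .nn 1 1 3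
    ndB0q1 ndB5q1 pcB3 cut_pp_113 Ext.none :=
  certB0 (fam := true) (s1 := true) (s2 := true) (a := 1) (b := 1) (c := 3) (cn := .nn) (n1 := ndB0q1) (n2 := ndB5q1) (pc := pcB3) (cut := cut_pp_113) (xt := Ext.none) (P1 := 536870912) (W1 := 536870912) (P2 := 536870912) (W2 := 536870912) (P3 := 780900216) (W3 := 37827925) (N0 := 3) (En := eng) (mo := mog) (C1 := cd0q1) (C2 := cd5q1) (C3 := pd3)
    rfl k0_pp_113

noncomputable def cut_pp_123 : Cut := Cut.of [[⟨3, 0, 0, 1449551462⟩]]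

noncomputable def f_pp_123 : ℕ → ℕ → ℕ → ℕ → Bool := onCell 536870912 536870912 1073741824 536870912 780900216 37827925
    (rowB 3 eng mog cd0q1 cd5q2 pd3 0 true true true .npn 1 2 3 (qsf 536870912 536870912 1073741824 536870912 3) ndB0q1 ndB5q2 pcB3 cut_pp_123 Ext.none)

def k0_pp_123 : ∃ t, chk3 f_pp_123 t 1 1 1 = true :=
  ⟨(l 4), by decide +kernel⟩

theorem c_pp_123 : CertB 536870912 536870912 1073741824 536870912 780900216 37827925 3 eng mog cd0q1 cd5q2 pd3 true true true .npn 1 2 3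
    ndB0q1 ndB5q2 pcB3 cut_pp_123 Ext.none :=
  certB0 (fam := true) (s1 := true) (s2 := true) (a := 1) (b := 2) (c := 3) (cn := .npn) (n1 := ndB0q1) (n2 := ndB5q2) (pc := pcB3) (cut := cut_pp_123) (xt := Ext.none) (P1 := 536870912) (W1 := 536870912) (P2 := 1073741824) (W2 := 536870912) (P3 := 780900216) (W3 := 37827925) (N0 := 3) (En := eng) (mo := mog) (C1 := cd0q1) (C2 := cd5q2) (C3 := pd3)
    rfl k0_pp_123

noncomputable def cut_pp_133 : Cut := Cut.of [[⟨3, 0, 0, 1449551462⟩]]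

noncomputable def f_pp_133 : ℕ → ℕ → ℕ → ℕ → Bool := onCell 536870912 536870912 0 1230186008 780900216 37827925
    (rowB 3 eng mog cd0q1 cd5q3 pd3 0 true true true .dn 1 3 3 (qsf 536870912 536870912 0 1230186008 3) ndB0q1 ndB5q3 pcB3 cut_pp_133 Ext.none)

def k0_pp_133 : ∃ t, chk3 f_pp_133 t 1 1 1 = true :=
  ⟨(l 4), by decide +kernel⟩

theorem c_pp_133 : CertB 536870912 536870912 0 1230186008 780900216 37827925 3 eng mog cd0q1 cd5q3 pd3 true true true .dn 1 3 3
    ndB0q1 ndB5q3 pcB3 cut_pp_133 Ext.none :=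
  certB0 (fam := true) (s1 := true) (s2 := true) (a := 1) (b := 3) (c := 3) (cn := .dn) (n1 := ndB0q1) (n2 := ndB5q3) (pc := pcB3) (cut := cut_pp_133) (xt := Ext.none) (P1 := 536870912) (W1 := 536870912) (P2 := 0) (W2 := 1230186008) (P3 := 780900216) (W3 := 37827925) (N0 := 3) (En := eng) (mo := mog) (C1 := cd0q1) (C2 := cd5q3) (C3 := pd3)
    rfl k0_pp_133

noncomputable def cut_pp_202 : Cut := Cut.of [[⟨3, 0, 0, 1449551462⟩]]

noncomputable def f_pp_202 : ℕ → ℕ → ℕ → ℕ → Bool := onCell 0 536870912 0 536870912 780900216 37827925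
    (rowB 3 eng mog cd0q2 cd5q0 pd2 0 true true true .pp 2 0 2 (qsf 0 536870912 0 536870912 2) ndB0q2 ndB5q0 pcB2 cut_pp_202 Ext.none)

def k0_pp_202 : ∃ t, chk3 f_pp_202 t 1 1 1 = true :=
  ⟨(l 4), by decide +kernel⟩

theorem c_pp_202 : CertB 0 536870912 0 536870912 780900216 37827925 3 eng mog cd0q2 cd5q0 pd2 true true true .pp 2 0 2
    ndB0q2 ndB5q0 pcB2 cut_pp_202 Ext.none :=
  certB0 (fam := true) (s1 := true) (s2 := true) (a := 2) (b := 0) (c := 2) (cn := .pp) (n1 := ndB0q2) (n2 := ndB5q0) (pc := pcB2) (cut := cut_pp_202) (xt := Ext.none) (P1 := 0) (W1 := 536870912) (P2 := 0) (W2 := 536870912) (P3 := 780900216) (W3 := 37827925) (N0 := 3) (En := eng) (mo := mog) (C1 := cd0q2) (C2 := cd5q0) (C3 := pd2)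
    rfl k0_pp_202

noncomputable def cut_pp_203 : Cut := Cut.of [[⟨3, 0, 0, 1449551462⟩]]

noncomputable def f_pp_203 : ℕ → ℕ → ℕ → ℕ → Bool := onCell 0 536870912 0 536870912 780900216 37827925
    (rowB 3 eng mog cd0q2 cd5q0 pd3 0 true true true .up 2 0 3 (qsf 0 536870912 0 536870912 3) ndB0q2 ndB5q0 pcB3 cut_pp_203 Ext.none)

def k0_pp_203 : ∃ t, chk3 f_pp_203 t 1 1 1 = true :=
  ⟨(l 4), by decide +kernel⟩

theorem c_pp_203 : CertB 0 536870912 0 536870912 780900216 37827925 3 eng mog cd0q2 cd5q0 pd3 true true true .up 2 0 3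
    ndB0q2 ndB5q0 pcB3 cut_pp_203 Ext.none :=
  certB0 (fam := true) (s1 := true) (s2 := true) (a := 2) (b := 0) (c := 3) (cn := .up) (n1 := ndB0q2) (n2 := ndB5q0) (pc := pcB3) (cut := cut_pp_203) (xt := Ext.none) (P1 := 0) (W1 := 536870912) (P2 := 0) (W2 := 536870912) (P3 := 780900216) (W3 := 37827925) (N0 := 3) (En := eng) (mo := mog) (C1 := cd0q2) (C2 := cd5q0) (C3 := pd3)
    rfl k0_pp_203

noncomputable def cut_pp_213 : Cut := Cut.of [[⟨3, 0, 0, 1449551462⟩]]

noncomputable def f_pp_213 : ℕ → ℕ → ℕ → ℕ → Bool := onCell 0 536870912 536870912 536870912 780900216 37827925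
    (rowB 3 eng mog cd0q2 cd5q1 pd3 0 true true true .pnn 2 1 3 (qsf 0 536870912 536870912 536870912 3) ndB0q2 ndB5q1 pcB3 cut_pp_213 Ext.none)

def k0_pp_213 : ∃ t, chk3 f_pp_213 t 1 1 1 = true :=
  ⟨(l 4), by decide +kernel⟩

theorem c_pp_213 : CertB 0 536870912 536870912 536870912 780900216 37827925 3 eng mog cd0q2 cd5q1 pd3 true true true .pnn 2 1 3
    ndB0q2 ndB5q1 pcB3 cut_pp_213 Ext.none :=
  certB0 (fam := true) (s1 := true) (s2 := true) (a := 2) (b := 1) (c := 3) (cn := .pnn) (n1 := ndB0q2) (n2 := ndB5q1) (pc := pcB3) (cut := cut_pp_213) (xt := Ext.none) (P1 := 0) (W1 := 536870912) (P2 := 536870912) (W2 := 536870912) (P3 := 780900216) (W3 := 37827925) (N0 := 3) (En := eng) (mo := mog) (C1 := cd0q2) (C2 := cd5q1) (C3 := pd3)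
    rfl k0_pp_213

noncomputable def cut_pm_001 : Cut := Cut.of [[⟨3, 0, 0, 1449551462⟩]]

noncomputable def f_pm_001 : ℕ → ℕ → ℕ → ℕ → Bool := onCell 0 536870912 536870912 536870912 780900216 37827925
    (rowB 3 eng mog cd0q0 cd5q0 pd1 1 true true false .up 0 0 1 (qsf 0 536870912 0 536870912 1) ndB0q0 ndB5q0 pcB1 cut_pm_001 Ext.none)

def k0_pm_001 : ∃ t, chk3 f_pm_001 t 1 1 1 = true :=
  ⟨(a (l 6) (b (l 6) (b (l 6) (a (l 6) (a (l 6) (a (l 6) (b (l 6) (l 16303120)))))))), by decide +kernel⟩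

theorem c_pm_001 : CertB 0 536870912 0 536870912 780900216 37827925 3 eng mog cd0q0 cd5q0 pd1 true true false .up 0 0 1
    ndB0q0 ndB5q0 pcB1 cut_pm_001 Ext.none :=
  certB1 (fam := true) (s1 := true) (s2 := false) (a := 0) (b := 0) (c := 1) (cn := .up) (n1 := ndB0q0) (n2 := ndB5q0) (pc := pcB1) (cut := cut_pm_001) (xt := Ext.none) (P1 := 0) (W1 := 536870912) (P2 := 0) (W2 := 536870912) (P3 := 780900216) (W3 := 37827925) (N0 := 3) (En := eng) (mo := mog) (C1 := cd0q0) (C2 := cd5q0) (C3 := pd1)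
    rfl (fun _ => rfl) k0_pm_001

noncomputable def cut_pm_011 : Cut := Cut.of [[⟨3, 0, 0, 1449551462⟩], [⟨0, 0, 0, 67108864⟩, ⟨1, 1, 0, 67108864⟩, ⟨2, 1, 0, 67108864⟩]]

noncomputable def f_pm_011 : ℕ → ℕ → ℕ → ℕ → Bool := onCell 0 536870912 536870912 536870912 780900216 37827925
    (rowB 3 eng mog cd0q0 cd5q1 pd1 1 true true false .pnn 0 1 1 (qsf 0 536870912 536870912 536870912 1) ndB0q0 ndB5q1 pcB1 cut_pm_011 Ext.none)

def k0_pm_011 : ∃ t, chk3 f_pm_011 t 1 1 1 = true :=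
  ⟨(b (l 6) (a (l 6) (b (l 6) (a (l 6) (b (l 6) (a (l 6) (b (l 6) (l 16246648)))))))), by decide +kernel⟩

theorem c_pm_011 : CertB 0 536870912 536870912 536870912 780900216 37827925 3 eng mog cd0q0 cd5q1 pd1 true true false .pnn 0 1 1
    ndB0q0 ndB5q1 pcB1 cut_pm_011 Ext.none :=
  certB1 (fam := true) (s1 := true) (s2 := false) (a := 0) (b := 1) (c := 1) (cn := .pnn) (n1 := ndB0q0) (n2 := ndB5q1) (pc := pcB1) (cut := cut_pm_011) (xt := Ext.none) (P1 := 0) (W1 := 536870912) (P2 := 536870912) (W2 := 536870912) (P3 := 780900216) (W3 := 37827925) (N0 := 3) (En := eng) (mo := mog) (C1 := cd0q0) (C2 := cd5q1) (C3 := pd1)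
    rfl (fun _ => rfl) k0_pm_011

noncomputable def cut_pm_012 : Cut := Cut.of [[⟨3, 0, 0, 1449551462⟩], [⟨0, 0, 0, 67108864⟩, ⟨1, 1, 0, 67108864⟩, ⟨2, 1, 0, 67108864⟩]]

noncomputable def f_pm_012 : ℕ → ℕ → ℕ → ℕ → Bool := onCell 0 536870912 1073741824 536870912 780900216 37827925
    (rowB 3 eng mog cd0q0 cd5q1 pd2 1 true true false .pnp 0 1 2 (qsf 0 536870912 536870912 536870912 2) ndB0q0 ndB5q1 pcB2 cut_pm_012 Ext.none)

def k0_pm_012 : ∃ t, chk3 f_pm_012 t 1 2 1 = true :=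
  ⟨(b (a (l 6) (a (b (l 6) (a (l 6) (b (l 6) (a (b (l 6) (l 16113672)) (l 16170080))))) (b (a (a (l 6) (l 16238584)) (c (l 16238448) (l 16234176))) (a (a (b (l 16108040) (l 16100688)) (b (l 16088512) (l 16047920))) (a (l 16030928) (l 15989704)))))) (a (a (b (l 6) (l 2)) (b (a (l 6) (b (l 6) (a (l 6) (a (l 16011016) (l 16007816))))) (a (b (b (l 6) (l 2)) (l 2)) (a (b (b (a (a (l 6) (l 15918408)) (l 15920664)) (a (b (l 15867344) (l 2)) (b (l 15872648) (l 15839984)))) (a (l 2) (b (l 15832016) (l 2)))) (b (b (a (l 15922856) (l 15923912)) (a (l 15861456) (l 15865368))) (a (b (c (l 15814328) (l 15781960)) (l 15753680)) (b (l 15804824) (l 44658967719)))))))) (a (b (a (a (b (l 6) (a (l 16003624) (l 15998240))) (b (b (l 16095760) (b (l 16064824) (b (l 16049256) (l 16039176)))) (l 15989760))) (b (b (a (l 16076512) (l 16059376)) (b (a (l 16048048) (l 16033576)) (b (l 16089408) (a (l 16023936) (l 16010984))))) (a (l 15979448) (l 15969536)))) (a (a (b (b (l 15923456)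 (l 15869120)) (a (b (l 15810464) (l 15750832)) (b (l 15815032) (l 15758208)))) (b (b (l 15920016) (l 15871392)) (a (l 15791984) (l 15796728)))) (a (b (l 15894320) (a (l 15801112) (l 15804952))) (b (l 15892784) (l 15809976))))) (b (a (b (b (a (l 16040464) (l 16017600)) (b (l 16050432) (a (b (l 16006552) (l 15998688)) (l 16113592)))) (a (l 15961184) (l 15951696))) (b (l 16012280) (l 15933488))) (a (a (b (l 15889704) (l 15814944)) (b (l 15888200) (l 15818232))) (b (l 16030480) (l 15826448))))))), by decide +kernel⟩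

def k1_pm_012 : ∃ t, chk3 f_pm_012 t 1 3 1 = true :=
  ⟨(a (a (l 2) (a (l 2) (b (b (a (l 2) (b (b (a (l 2) (l 15678008)) (l 2)) (l 2))) (l 2)) (l 2)))) (a (b (a (b (a (b (b (a (l 58080616775) (l 15699512)) (a (l 15646992) (l 71502304359))) (a (l 2) (b (l 15597760) (l 2)))) (b (b (a (l 15708848) (l 15717656)) (a (l 15651136) (l 15662680))) (a (b (l 87608339991) (l 15530560)) (b (l 15605968) (l 104251255303))))) (a (l 2) (a (l 2) (b (b (l 15487576) (l 2)) (l 2))))) (b (a (b (a (l 15700048) (l 15709352)) (a (c (l 15612424) (l 15572680)) (c (l 15627312) (l 15586904)))) (b (l 15721328) (c (l 15647896) (l 15606552)))) (a (b (a (c (l 89218755079) (l 15457224)) (c (l 111767315159) (l 15476552))) (c (a (l 2) (l 99419052391)) (l 91902777479))) (b (c (a (l 15538888) (l 15557120)) (l 15503680)) (c (a (l 120357070071) (l 15453840)) (l 135926280663)))))) (a (l 2) (b (a (l 2) (a (l 2) (a (l 2) (b (l 141294942119) (l 2))))) (l 2)))) (b (a (b (a (b (l 15734752) (l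 15649264)) (b (l 15745800) (l 15668552))) (a (b (c (l 15582288) (l 15535736)) (c (a (l 15476224) (l 15497416)) (l 15436632))) (b (l 15586504) (l 15499416)))) (b (b (l 15783424) (l 15904768)) (a (b (l 15611560) (l 15533256)) (l 15600208)))) (a (b (a (b (c (a (l 146663636935) (l 15399024)) (l 143442350567)) (c (l 116598707911) (l 111766743399))) (b (c (l 15436424) (l 15378624)) (a (l 155253559063) (l 175117845703)))) (a (l 2) (b (b (l 162232767255) (l 2)) (l 2)))) (b (a (b (l 15450392) (a (l 15411832) (l 15374856))) (b (l 15490352) (l 15411896))) (a (b (a (l 186928931143) (l 190150155479)) (a (l 2) (l 235784006855))) (b (a (l 15313864) (l 15342584)) (a (l 228804752343) (l 15256920))))))))), by decide +kernel⟩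

theorem s2_pm_012 : ∃ t, chk3 f_pm_012 t 1 1 1 = true := ex3_b k0_pm_012 k1_pm_012

theorem c_pm_012 : CertB 0 536870912 536870912 536870912 780900216 37827925 3 eng mog cd0q0 cd5q1 pd2 true true false .pnp 0 1 2
    ndB0q0 ndB5q1 pcB2 cut_pm_012 Ext.none :=
  certB1 (fam := true) (s1 := true) (s2 := false) (a := 0) (b := 1) (c := 2) (cn := .pnp) (n1 := ndB0q0) (n2 := ndB5q1) (pc := pcB2) (cut := cut_pm_012) (xt := Ext.none) (P1 := 0) (W1 := 536870912) (P2 := 536870912) (W2 := 536870912) (P3 := 780900216) (W3 := 37827925) (N0 := 3) (En := eng) (mo := mog) (C1 := cd0q0) (C2 := cd5q1) (C3 := pd2)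
    rfl (fun _ => rfl) s2_pm_012

noncomputable def cut_pm_022 : Cut := Cut.of [[⟨3, 0, 0, 1449551462⟩], [⟨0, 0, 0, 67108864⟩, ⟨1, 1, 0, 67108864⟩, ⟨2, 1, 0, 67108864⟩]]

noncomputable def f_pm_022 : ℕ → ℕ → ℕ → ℕ → Bool := onCell 1073741824 536870912 1073741824 536870912 780900216 37827925
    (rowB 3 eng mog cd0q0 cd5q2 pd2 2 true true false .pp 0 2 2 (qsf 0 536870912 1073741824 536870912 2) ndB0q0 ndB5q2 pcB2 cut_pm_022 Ext.none)

def k0_pm_022 : ∃ t, chk3 f_pm_022 t 2 1 1 = true :=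
  ⟨(a (l 6) (b (a (l 6) (a (b (b (b (a (b (b (l 15932184) (l 6)) (l 6)) (b (b (l 15870992) (l 15899544)) (l 15941080))) (a (l 6) (b (l 15993832) (l 16043576)))) (l 6)) (l 6)) (b (b (b (b (a (c (l 15842256) (l 15812032)) (c (l 15787288) (l 15756032))) (a (l 15882784) (l 15827248))) (b (a (l 15935568) (l 15880120)) (l 15957472))) (b (b (l 16025760) (l 16048112)) (a (l 16132848) (l 16080080)))) (b (b (l 16318920) (l 6)) (l 6))))) (l 6))), by decide +kernel⟩

def k1_pm_022 : ∃ t, chk3 f_pm_022 t 3 2 1 = true :=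
  ⟨(b (a (b (a (b (c (a (b (a (l 15735056) (l 15685544)) (l 15763880)) (b (a (l 15638888) (l 15595376)) (l 15670328))) (a (a (l 15731912) (l 15743800)) (b (l 15580680) (l 15638672)))) (a (a (l 15873696) (l 15865568)) (a (l 15755344) (l 15710416)))) (b (a (b (c (a (l 15555216) (l 15518368)) (l 15496568)) (c (l 15588800) (l 15553408))) (b (c (a (l 15484528) (l 15453560)) (l 15423648)) (c (l 15519960) (l 15479824)))) (a (b (l 15685904) (l 15673096)) (b (l 15592416) (l 15599672))))) (a (b (a (b (l 15899432) (l 15943648)) (b (l 15804848) (l 15849448))) (a (b (l 15985280) (l 16023184)) (l 15973856))) (b (a (b (l 15720608) (l 15765488)) (l 15753312)) (a (l 15827256) (l 15753520))))) (a (b (b (a (c (b (l 15412096) (l 15462552)) (b (l 15360752) (l 15416456))) (c (b (l 15366288) (l 15415760)) (l 15376688))) (a (c (l 15533992) (l 15495256)) (c (l 15485984) (l 15440496)))) (b (a (l 15669184) (l 15553352)) (a (l 15689744) (l 15635992)))) (b (a (b (b (a (l 15304328)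 (l 15287016)) (l 15367856)) (c (l 15448336) (l 15394600))) (b (b (l 15266224) (l 15400304)) (b (l 15364672) (l 15410952)))) (b (a (l 15510176) (l 15476376)) (a (l 15591824) (l 15556744)))))) (a (b (a (b (a (a (l 16098176) (l 16050752)) (l 16046264)) (a (l 16144168) (a (l 16067240) (l 16025096)))) (b (a (l 15900760) (l 15827704)) (a (l 15965720) (l 15893992)))) (a (a (b (l 16185488) (l 16227848)) (b (l 16100456) (l 16145968))) (b (a (l 16056928) (l 15953240)) (a (l 16071072) (l 16003736))))) (b (a (b (a (l 15764192) (l 15710216)) (a (l 15831400) (l 15777928))) (b (a (l 15665600) (l 15629896)) (a (l 15733544) (l 15697840)))) (a (b (a (l 15892336) (l 15840136)) (a (l 15944720) (l 15894696))) (b (l 15799080) (l 15877456)))))), by decide +kernel⟩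

def k2_pm_022 : ∃ t, chk3 f_pm_022 t 3 3 1 = true :=
  ⟨(b (a (a (b (a (b (l 401611560343) (l 6)) (b (l 16166080) (l 385505277527))) (b (l 641592876423) (l 1))) (b (b (a (l 16106056) (l 16041320)) (a (l 16100936) (l 16064032))) (a (b (l 16048344) (l 585221151319)) (b (l 16037976) (l 15983528))))) (b (a (b (l 16063792) (l 16112128)) (a (b (l 15896712) (l 15924848)) (l 15882416))) (a (b (l 15996272) (l 16012248)) (a (l 15941464) (l 15912592))))) (a (b (a (l 1) (b (l 622802171655) (l 1))) (l 1)) (b (a (b (l 352219436455) (l 456909031351)) (b (l 15903136) (l 15864696))) (a (l 579315311479) (b (l 15812464) (l 15747192)))))), by decide +kernel⟩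

theorem s3_pm_022 : ∃ t, chk3 f_pm_022 t 3 1 1 = true := ex3_b k1_pm_022 k2_pm_022

theorem s4_pm_022 : ∃ t, chk3 f_pm_022 t 1 1 1 = true := ex3_a k0_pm_022 s3_pm_022

theorem c_pm_022 : CertB 0 536870912 1073741824 536870912 780900216 37827925 3 eng mog cd0q0 cd5q2 pd2 true true false .pp 0 2 2
    ndB0q0 ndB5q2 pcB2 cut_pm_022 Ext.none :=
  certB2 (fam := true) (s1 := true) (s2 := false) (a := 0) (b := 2) (c := 2) (cn := .pp) (n1 := ndB0q0) (n2 := ndB5q2) (pc := pcB2) (cut := cut_pm_022) (xt := Ext.none) (P1 := 0) (W1 := 536870912) (P2 := 1073741824) (W2 := 536870912) (P3 := 780900216) (W3 := 37827925) (N0 := 3) (En := eng) (mo := mog) (C1 := cd0q0) (C2 := cd5q2) (C3 := pd2)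
    rfl (fun _ => rfl) s4_pm_022

noncomputable def cut_pm_023 : Cut := Cut.of [[⟨3, 0, 0, 1449551462⟩]]

noncomputable def f_pm_023 : ℕ → ℕ → ℕ → ℕ → Bool := onCell 0 536870912 1610612736 536870912 780900216 37827925
    (rowB 3 eng mog cd0q0 cd5q2 pd3 1 true true false .up 0 2 3 (qsf 0 536870912 1073741824 536870912 3) ndB0q0 ndB5q2 pcB3 cut_pm_023 Ext.none)

def k0_pm_023 : ∃ t, chk3 f_pm_023 t 1 1 1 = true :=
  ⟨(a (b (b (a (a (b (b (l 15840824) (l 15750664)) (l 373224199799)) (b (b (l 15855952) (l 15828856)) (b (l 15807728) (l 15792592)))) (a (b (a (l 15875816) (l 15891576)) (l 15885128)) (b (b (l 15886912) (l 15889744)) (l 15880048)))) (a (b (a (l 2) (l 15786528)) (l 2)) (b (a (l 15831440) (l 15838432)) (a (l 15844472) (l 15847056))))) (a (l 2) (b (b (a (l 2) (l 15939800)) (l 2)) (l 2)))) (b (b (a (a (b (a (l 15842648) (l 15813176)) (l 15934240)) (a (b (l 15731928) (l 15817424)) (b (l 15687440) (l 15762840)))) (a (b (a (b (l 15569240) (l 15621176))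 (b (l 15492104) (l 15551392))) (b (l 15643816) (l 15700088))) (b (b (a (b (l 15392088) (l 15426880)) (b (l 15300192) (l 15339408))) (a (l 15476832) (l 15396352))) (b (a (l 15541840) (l 15469240)) (l 15719608))))) (a (b (a (l 15904280) (l 15854144)) (a (l 15914192) (l 15945824))) (b (a (b (l 15758960) (l 15818904)) (b (l 15642296) (l 15711528))) (a (b (l 15876024) (l 15930856)) (b (l 15784320) (l 15859296)))))) (a (b (b (a (l 15960472) (l 16001456)) (a (l 16123696) (l 16140400))) (b (a (l 2) (l 16268264)) (l 2))) (a (b (b (b (l 15983808) (l 16035800)) (l 16136712)) (b (l 16275800) (b (l 16357272) (l 2)))) (b (b (b (l 15932744) (l 16006016)) (l 16122624)) (b (b (l 16235976) (l 16306232)) (b (l 16362128) (b (l 16396824) (b (l 16413272) (l 4)))))))))), by decide +kernel⟩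

theorem c_pm_023 : CertB 0 536870912 1073741824 536870912 780900216 37827925 3 eng mog cd0q0 cd5q2 pd3 true true false .up 0 2 3
    ndB0q0 ndB5q2 pcB3 cut_pm_023 Ext.none :=
  certB1 (fam := true) (s1 := true) (s2 := false) (a := 0) (b := 2) (c := 3) (cn := .up) (n1 := ndB0q0) (n2 := ndB5q2) (pc := pcB3) (cut := cut_pm_023) (xt := Ext.none) (P1 := 0) (W1 := 536870912) (P2 := 1073741824) (W2 := 536870912) (P3 := 780900216) (W3 := 37827925) (N0 := 3) (En := eng) (mo := mog) (C1 := cd0q0) (C2 := cd5q2) (C3 := pd3)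
    rfl (fun _ => rfl) k0_pm_023

noncomputable def cut_pm_033 : Cut := Cut.of [[⟨3, 0, 0, 1449551462⟩]]

noncomputable def f_pm_033 : ℕ → ℕ → ℕ → ℕ → Bool := onCell 1610612736 536870912 0 1230186008 780900216 37827925
    (rowB 3 eng mog cd0q0 cd5q3 pd3 2 true true false .pnn 0 3 3 (qsf 0 536870912 0 1230186008 3) ndB0q0 ndB5q3 pcB3 cut_pm_033 Ext.none)

def k0_pm_033 : ∃ t, chk3 f_pm_033 t 1 1 1 = true :=
  ⟨(b (a (l 1) (b (a (l 1) (l 4)) (a (l 1) (a (a (b (l 1) (l 418791760791)) (b (l 4) (l 69825768183))) (a (b (l 4) (l 16270896)) (l 4)))))) (b (a (a (l 1) (b (l 1) (a (l 1) (b (l 1) (l 413422255255))))) (b (a (a (l 1) (a (l 424697175847) (b (l 15944272) (l 15968136)))) (a (a (b (l 16008320) (l 16029192)) (b (l 16068448) (l 16100360))) (a (a (l 16120416) (l 16151360)) (a (l 16167992) (l 4))))) (a (a (b (l 394631691383) (l 15874688)) (b (l 15962440) (l 15993960))) (a (b (a (l 16055408) (l 16119240)) (l 16123928)) (a (b (l 16194360) (l 16231272)) (a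 (l 16045368) (a (l 16278624) (a (l 16285216) (l 235382792935))))))))) (a (a (b (l 1) (b (a (l 1) (l 15718048)) (a (b (l 15647488) (l 15726872)) (b (l 15738736) (l 15781296))))) (b (a (b (l 15661216) (l 15676664)) (b (l 15755000) (l 15793880))) (b (a (l 15752144) (l 15832376)) (a (l 15811688) (l 15909320))))) (b (a (a (b (l 15900368) (l 15916664)) (b (l 16031960) (l 16066488))) (a (b (l 16162560) (l 16221976)) (a (b (l 16276984) (l 16318536)) (a (l 16175872) (a (b (l 16351672) (l 16384896)) (a (l 16250504) (b (l 16362128) (l 16233816)))))))) (a (a (b (l 15924456) (l 15949248)) (b (l 16109792) (l 16129616))) (a (b (l 16255760) (l 16274104)) (a (b (l 16348520) (l 16359240)) (a (b (l 16386016) (l 16398368)) (a (b (l 16405704) (l 16413920)) (a (l 16253888) (b (l 16423224) (l 4)))))))))))), by decide +kernel⟩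

theorem c_pm_033 : CertB 0 536870912 0 1230186008 780900216 37827925 3 eng mog cd0q0 cd5q3 pd3 true true false .pnn 0 3 3
    ndB0q0 ndB5q3 pcB3 cut_pm_033 Ext.none :=
  certB2 (fam := true) (s1 := true) (s2 := false) (a := 0) (b := 3) (c := 3) (cn := .pnn) (n1 := ndB0q0) (n2 := ndB5q3) (pc := pcB3) (cut := cut_pm_033) (xt := Ext.none) (P1 := 0) (W1 := 536870912) (P2 := 0) (W2 := 1230186008) (P3 := 780900216) (W3 := 37827925) (N0 := 3) (En := eng) (mo := mog) (C1 := cd0q0) (C2 := cd5q3) (C3 := pd3)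
    rfl (fun _ => rfl) k0_pm_033

noncomputable def cut_pm_101 : Cut := Cut.of [[⟨3, 0, 0, 1449551462⟩]]

noncomputable def f_pm_101 : ℕ → ℕ → ℕ → ℕ → Bool := onCell 536870912 536870912 536870912 536870912 780900216 37827925
    (rowB 3 eng mog cd0q1 cd5q0 pd1 1 true true false .npn 1 0 1 (qsf 536870912 536870912 0 536870912 1) ndB0q1 ndB5q0 pcB1 cut_pm_101 Ext.none)

def k0_pm_101 : ∃ t, chk3 f_pm_101 t 1 1 1 = true :=
  ⟨(b (a (b (l 6) (a (l 6) (b (l 6) (a (l 6) (a (l 6) (l 16324144)))))) (a (b (l 1) (a (b (l 1) (a (l 16283024) (l 1))) (l 1))) (l 1))) (a (b (a (l 6) (a (b (a (l 6) (l 16280072)) (a (l 16122424) (l 16098856))) (b (a (l 16238368) (l 16191376)) (a (l 16067520) (l 16030984))))) (a (b (a (l 6) (a (l 16061120) (l 15981664))) (a (a (l 16154760) (l 16025256)) (l 16082144))) (a (b (l 16080400) (l 15974680)) (b (l 15862408) (l 15765056))))) (a (b (a (b (l 16331912) (a (l 15990872) (l 15944944))) (b (a (l 16053104) (l 1)) (a (l 15892568) (l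 15839712)))) (a (b (a (l 15785616) (l 15754288)) (a (l 15556784) (l 15505320))) (b (a (l 15713664) (l 15661352)) (a (l 15451256) (l 15408256))))) (a (b (b (l 1) (a (b (l 1) (l 15743560)) (l 1))) (b (a (l 15601344) (b (a (l 15601248) (l 1)) (a (l 15498928) (l 15468888)))) (a (l 15447224) (b (l 15378776) (l 15239472))))) (b (l 1) (b (a (b (l 1) (a (b (l 1) (l 15415424)) (l 1))) (l 1)) (a (b (a (l 15335744) (b (l 15382216) (l 15306352))) (a (l 15210488) (l 15187576))) (b (b (l 1) (l 214779158871)) (b (l 177734977687) (l 15204224)))))))))), by decide +kernel⟩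

theorem c_pm_101 : CertB 536870912 536870912 0 536870912 780900216 37827925 3 eng mog cd0q1 cd5q0 pd1 true true false .npn 1 0 1
    ndB0q1 ndB5q0 pcB1 cut_pm_101 Ext.none :=
  certB1 (fam := true) (s1 := true) (s2 := false) (a := 1) (b := 0) (c := 1) (cn := .npn) (n1 := ndB0q1) (n2 := ndB5q0) (pc := pcB1) (cut := cut_pm_101) (xt := Ext.none) (P1 := 536870912) (W1 := 536870912) (P2 := 0) (W2 := 536870912) (P3 := 780900216) (W3 := 37827925) (N0 := 3) (En := eng) (mo := mog) (C1 := cd0q1) (C2 := cd5q0) (C3 := pd1)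
    rfl (fun _ => rfl) k0_pm_101

noncomputable def cut_pm_102 : Cut := Cut.of [[⟨3, 0, 0, 1449551462⟩]]

noncomputable def f_pm_102 : ℕ → ℕ → ℕ → ℕ → Bool := onCell 536870912 536870912 1073741824 536870912 780900216 37827925
    (rowB 3 eng mog cd0q1 cd5q0 pd2 1 true true false .npp 1 0 2 (qsf 536870912 536870912 0 536870912 2) ndB0q1 ndB5q0 pcB2 cut_pm_102 Ext.none)

def k0_pm_102 : ∃ t, chk3 f_pm_102 t 1 1 1 = true :=
  ⟨(a (b (a (b (a (b (b (l 16073016) (l 15968184)) (a (l 2) (l 15897048))) (b (b (l 15793320) (l 15798160)) (b (l 15813928) (l 15822488)))) (a (l 2) (b (b (l 15836992) (l 2)) (l 2)))) (b (a (b (a (l 15685104) (l 15624056)) (b (l 15701256) (l 15724008))) (b (b (l 15524048) (l 15571368)) (l 15603976))) (b (a (b (l 15753200) (l 15779896)) (b (l 15675296) (l 15714840))) (a (b (l 15798776) (l 2)) (l 51101918039))))) (a (l 2) (b (a (l 2) (b (l 15834856) (l 2))) (l 2)))) (b (a (b (a (b (a (l 15489912) (l 15455992)) (a (l 15573672) (l 15545056)))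 (b (a (l 15424888) (l 15391000)) (a (l 15519368) (l 15490768)))) (b (a (l 15804728) (b (l 15563928) (l 15615904))) (a (l 15731120) (l 15702248)))) (b (a (b (a (b (l 15319200) (l 15379400)) (b (l 15258616) (l 15322920))) (a (l 15457960) (l 15411136))) (b (a (b (l 15193192) (l 15266544)) (b (a (l 15147864) (l 15115184)) (l 15211600))) (a (b (l 15335472) (l 15401264)) (b (l 15288504) (l 15362656))))) (a (b (b (l 15509088) (l 15570360)) (l 15689752)) (b (b (l 15446664) (l 15521376)) (b (l 15598840) (l 15674128)))))) (a (b (a (b (l 15794608) (l 15818376)) (b (l 15798176) (l 15857752))) (a (l 2) (b (l 15895248) (l 2)))) (b (a (b (l 15785392) (l 15881280)) (b (l 15776880) (l 15901840))) (b (a (l 15961944) (l 16023352)) (a (l 16041280) (l 16152040))))))), by decide +kernel⟩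

theorem c_pm_102 : CertB 536870912 536870912 0 536870912 780900216 37827925 3 eng mog cd0q1 cd5q0 pd2 true true false .npp 1 0 2
    ndB0q1 ndB5q0 pcB2 cut_pm_102 Ext.none :=
  certB1 (fam := true) (s1 := true) (s2 := false) (a := 1) (b := 0) (c := 2) (cn := .npp) (n1 := ndB0q1) (n2 := ndB5q0) (pc := pcB2) (cut := cut_pm_102) (xt := Ext.none) (P1 := 536870912) (W1 := 536870912) (P2 := 0) (W2 := 536870912) (P3 := 780900216) (W3 := 37827925) (N0 := 3) (En := eng) (mo := mog) (C1 := cd0q1) (C2 := cd5q0) (C3 := pd2)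
    rfl (fun _ => rfl) k0_pm_102

noncomputable def cut_pm_112 : Cut := Cut.of [[⟨3, 0, 0, 1449551462⟩]]

noncomputable def f_pm_112 : ℕ → ℕ → ℕ → ℕ → Bool := onCell 536870912 536870912 1073741824 536870912 780900216 37827925
    (rowB 3 eng mog cd0q1 cd5q1 pd2 1 true true false .dn 1 1 2 (qsf 536870912 536870912 536870912 536870912 2) ndB0q1 ndB5q1 pcB2 cut_pm_112 Ext.none)

def k0_pm_112 : ∃ t, chk3 f_pm_112 t 1 1 1 = true :=
  ⟨(a (b (a (b (a (b (l 196527048471) (l 15943584)) (b (l 15796544) (l 15820216))) (a (b (a (l 15920160) (l 15892960)) (a (l 15857000) (l 15852984))) (b (l 15844936) (l 15838520)))) (b (a (b (l 1) (l 15714312)) (l 1)) (b (a (l 15769568) (l 15698368)) (a (l 15806912) (l 15768360))))) (a (b (a (b (a (l 15752504) (l 15767504)) (a (l 15628288) (l 15655472))) (b (l 15786400) (l 15696272))) (a (b (a (l 15493192) (l 15532112)) (a (b (l 15383632) (l 15304864)) (l 15399304))) (b (l 15591616) (a (l 15451384) (l 15500488))))) (b (a (b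 (l 15797680) (l 15747360)) (b (l 15800096) (l 15788632))) (a (b (l 15666576) (l 15577568)) (b (l 15746744) (l 15683656)))))) (b (a (b (l 1) (b (l 1) (a (l 15735600) (l 1)))) (l 1)) (a (b (a (b (l 15800440) (l 15826208)) (b (l 15803432) (l 15863824))) (a (b (l 15824840) (l 15806120)) (b (l 15902872) (l 15930040)))) (b (a (b (l 1) (l 15886040)) (l 1)) (b (a (l 15967000) (l 16026080)) (a (l 16047144) (l 16154248))))))), by decide +kernel⟩

theorem c_pm_112 : CertB 536870912 536870912 536870912 536870912 780900216 37827925 3 eng mog cd0q1 cd5q1 pd2 true true false .dn 1 1 2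
    ndB0q1 ndB5q1 pcB2 cut_pm_112 Ext.none :=
  certB1 (fam := true) (s1 := true) (s2 := false) (a := 1) (b := 1) (c := 2) (cn := .dn) (n1 := ndB0q1) (n2 := ndB5q1) (pc := pcB2) (cut := cut_pm_112) (xt := Ext.none) (P1 := 536870912) (W1 := 536870912) (P2 := 536870912) (W2 := 536870912) (P3 := 780900216) (W3 := 37827925) (N0 := 3) (En := eng) (mo := mog) (C1 := cd0q1) (C2 := cd5q1) (C3 := pd2)
    rfl (fun _ => rfl) k0_pm_112

noncomputable def cut_pm_113 : Cut := Cut.of [[⟨3, 0, 0, 1449551462⟩]]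

noncomputable def f_pm_113 : ℕ → ℕ → ℕ → ℕ → Bool := onCell 536870912 536870912 1610612736 536870912 780900216 37827925
    (rowB 3 eng mog cd0q1 cd5q1 pd3 1 true true false .nn 1 1 3 (qsf 536870912 536870912 536870912 536870912 3) ndB0q1 ndB5q1 pcB3 cut_pm_113 Ext.none)

def k0_pm_113 : ∃ t, chk3 f_pm_113 t 1 1 1 = true :=
  ⟨(a (b (b (a (a (b (a (b (b (l 15244408) (l 309872272871)) (l 330273268663)) (b (l 15295432) (l 272291380103))) (a (l 2) (b (l 336178822439) (l 2)))) (b (a (b (l 15364368) (l 15290432)) (l 15396616)) (b (l 350137850599) (l 347453312823)))) (a (b (l 15604648) (a (l 15346048) (l 15431272))) (b (l 15647992) (l 15567984)))) (b (a (a (l 2) (a (l 2) (l 363559337751))) (a (a (l 15223640) (l 15333120)) (l 15593960))) (a (l 2) (a (b (l 370538818135) (l 2)) (l 15476480))))) (a (l 2) (b (b (a (l 2) (l 426373628695)) (l 2)) (l 2)))) (a (b (b (b (a (l 15806304) (l 15977440)) (a (l 15771584) (l 16011744))) (b (a (l 15774464) (l 15998440))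 (a (l 15770312) (l 15955000)))) (b (b (a (b (l 15734640) (l 15707496)) (a (l 15862744) (l 4))) (a (b (l 496167548919) (l 2)) (l 4))) (l 4))) (b (a (b (b (l 16148472) (l 16201840)) (b (l 16168744) (l 16122496))) (b (b (l 16314960) (l 16333336)) (l 4))) (l 4)))), by decide +kernel⟩

theorem c_pm_113 : CertB 536870912 536870912 536870912 536870912 780900216 37827925 3 eng mog cd0q1 cd5q1 pd3 true true false .nn 1 1 3
    ndB0q1 ndB5q1 pcB3 cut_pm_113 Ext.none :=
  certB1 (fam := true) (s1 := true) (s2 := false) (a := 1) (b := 1) (c := 3) (cn := .nn) (n1 := ndB0q1) (n2 := ndB5q1) (pc := pcB3) (cut := cut_pm_113) (xt := Ext.none) (P1 := 536870912) (W1 := 536870912) (P2 := 536870912) (W2 := 536870912) (P3 := 780900216) (W3 := 37827925) (N0 := 3) (En := eng) (mo := mog) (C1 := cd0q1) (C2 := cd5q1) (C3 := pd3)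
    rfl (fun _ => rfl) k0_pm_113

noncomputable def cut_pm_123 : Cut := Cut.of [[⟨3, 0, 0, 1449551462⟩]]

noncomputable def f_pm_123 : ℕ → ℕ → ℕ → ℕ → Bool := onCell 536870912 536870912 1610612736 536870912 780900216 37827925
    (rowB 3 eng mog cd0q1 cd5q2 pd3 1 true true false .npn 1 2 3 (qsf 536870912 536870912 1073741824 536870912 3) ndB0q1 ndB5q2 pcB3 cut_pm_123 Ext.none)

def k0_pm_123 : ∃ t, chk3 f_pm_123 t 1 1 1 = true :=
  ⟨(a (b (b (a (a (b (b (a (b (l 193304156455) (l 15244264)) (l 388725087015)) (a (l 15308368) (l 195988602679))) (b (a (l 15390224) (l 15304744)) (a (l 15468624) (l 15392328)))) (b (b (l 1) (a (l 400536243287) (l 1))) (b (a (l 15214240) (l 412884286407)) (l 133711856791)))) (a (b (l 1) (b (l 1) (l 445633576583))) (l 1))) (a (b (a (b (l 15511088) (l 15590912)) (b (l 15368352) (l 15465088))) (a (b (l 15673976) (l 15758040)) (b (l 15561840) (l 15659096)))) (b (a (b (l 211021177287) (l 15340544)) (b (l 1) (l 490731036023))) (a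 (b (l 15460016) (l 15580288)) (l 175588091719))))) (a (b (b (a (b (l 15847408) (l 15941128)) (b (l 15761904) (l 15867896))) (a (l 16077760) (l 16007032))) (b (a (b (l 16199112) (l 16272536)) (b (l 16141520) (l 16215536))) (b (a (l 16337680) (l 16277056)) (b (a (l 16373800) (l 4)) (l 4))))) (b (b (a (b (l 15702968) (l 15815288)) (a (l 15744832) (l 15734368))) (a (l 15943800) (b (l 15861600) (l 15940296)))) (b (a (b (l 16074064) (l 16134016)) (b (l 16013984) (l 4))) (l 4))))) (a (b (b (l 1) (b (l 1) (a (l 520259045207) (l 1)))) (b (b (a (b (l 15680064) (l 15758824)) (b (l 1) (l 4))) (a (b (l 15832152) (l 4)) (l 4))) (l 4))) (b (l 1) (l 4)))), by decide +kernel⟩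

theorem c_pm_123 : CertB 536870912 536870912 1073741824 536870912 780900216 37827925 3 eng mog cd0q1 cd5q2 pd3 true true false .npn 1 2 3
    ndB0q1 ndB5q2 pcB3 cut_pm_123 Ext.none :=
  certB1 (fam := true) (s1 := true) (s2 := false) (a := 1) (b := 2) (c := 3) (cn := .npn) (n1 := ndB0q1) (n2 := ndB5q2) (pc := pcB3) (cut := cut_pm_123) (xt := Ext.none) (P1 := 536870912) (W1 := 536870912) (P2 := 1073741824) (W2 := 536870912) (P3 := 780900216) (W3 := 37827925) (N0 := 3) (En := eng) (mo := mog) (C1 := cd0q1) (C2 := cd5q2) (C3 := pd3)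
    rfl (fun _ => rfl) k0_pm_123

noncomputable def cut_pm_133 : Cut := Cut.of [[⟨3, 0, 0, 1449551462⟩]]

noncomputable def f_pm_133 : ℕ → ℕ → ℕ → ℕ → Bool := onCell 536870912 536870912 0 1230186008 780900216 37827925
    (rowB 3 eng mog cd0q1 cd5q3 pd3 0 true true false .dn 1 3 3 (qsf 536870912 536870912 0 1230186008 3) ndB0q1 ndB5q3 pcB3 cut_pm_133 Ext.none)

def k0_pm_133 : ∃ t, chk3 f_pm_133 t 1 1 1 = true :=
  ⟨(b (l 2) (b (l 2) (a (b (l 2) (l 4)) (l 2)))), by decide +kernel⟩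

theorem c_pm_133 : CertB 536870912 536870912 0 1230186008 780900216 37827925 3 eng mog cd0q1 cd5q3 pd3 true true false .dn 1 3 3
    ndB0q1 ndB5q3 pcB3 cut_pm_133 Ext.none :=
  certB0 (fam := true) (s1 := true) (s2 := false) (a := 1) (b := 3) (c := 3) (cn := .dn) (n1 := ndB0q1) (n2 := ndB5q3) (pc := pcB3) (cut := cut_pm_133) (xt := Ext.none) (P1 := 536870912) (W1 := 536870912) (P2 := 0) (W2 := 1230186008) (P3 := 780900216) (W3 := 37827925) (N0 := 3) (En := eng) (mo := mog) (C1 := cd0q1) (C2 := cd5q3) (C3 := pd3)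
    rfl k0_pm_133

noncomputable def cut_pm_202 : Cut := Cut.of [[⟨3, 0, 0, 1449551462⟩]]

noncomputable def f_pm_202 : ℕ → ℕ → ℕ → ℕ → Bool := onCell 0 536870912 0 536870912 780900216 37827925
    (rowB 3 eng mog cd0q2 cd5q0 pd2 0 true true false .pp 2 0 2 (qsf 0 536870912 0 536870912 2) ndB0q2 ndB5q0 pcB2 cut_pm_202 Ext.none)

def k0_pm_202 : ∃ t, chk3 f_pm_202 t 1 1 1 = true :=
  ⟨(b (a (l 4) (b (a (b (a (b (l 15401264) (l 15460088)) (b (a (l 15310256) (l 15271696)) (l 15356552))) (a (l 4) (b (l 15428760) (l 15509080)))) (a (b (b (a (l 15229400) (b (l 15174208) (l 15205104))) (a (l 15293608) (l 15253240))) (b (a (l 15361176) (l 15321072)) (l 15414160))) (b (a (b (b (a (l 15144992) (l 15124352)) (l 15165488)) (l 15215488)) (b (a (b (b (a (l 15101688) (l 15090624)) (l 15111320)) (l 15136280)) (b (a (b (b (l 15075824) (l 15083592)) (l 15096048)) (b (a (l 15071576) (l 15068200)) (l 15088520))) (l 15121208))) (a (l 15190568) (l 15181336)))) (a (b (l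 15286456) (l 15359888)) (b (l 15262832) (l 15340112)))))) (a (a (l 4) (a (l 4) (b (l 15604920) (l 4)))) (a (b (b (l 15494000) (l 15575464)) (b (l 15658088) (l 15737848))) (b (b (a (l 15439304) (l 15418224)) (l 15510480)) (b (l 15594464) (l 15676240))))))) (a (l 4) (a (l 4) (b (b (a (b (l 15815096) (l 15890288)) (l 15788536)) (a (b (l 15963096) (l 4)) (a (l 15942128) (l 15921896)))) (a (l 4) (b (b (l 16036672) (l 16107424)) (b (l 16180392) (l 4)))))))), by decide +kernel⟩

theorem c_pm_202 : CertB 0 536870912 0 536870912 780900216 37827925 3 eng mog cd0q2 cd5q0 pd2 true true false .pp 2 0 2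
    ndB0q2 ndB5q0 pcB2 cut_pm_202 Ext.none :=
  certB0 (fam := true) (s1 := true) (s2 := false) (a := 2) (b := 0) (c := 2) (cn := .pp) (n1 := ndB0q2) (n2 := ndB5q0) (pc := pcB2) (cut := cut_pm_202) (xt := Ext.none) (P1 := 0) (W1 := 536870912) (P2 := 0) (W2 := 536870912) (P3 := 780900216) (W3 := 37827925) (N0 := 3) (En := eng) (mo := mog) (C1 := cd0q2) (C2 := cd5q0) (C3 := pd2)
    rfl k0_pm_202

noncomputable def cut_pm_203 : Cut := Cut.of [[⟨3, 0, 0, 1449551462⟩]]

noncomputable def f_pm_203 : ℕ → ℕ → ℕ → ℕ → Bool := onCell 0 536870912 1610612736 536870912 780900216 37827925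
    (rowB 3 eng mog cd0q2 cd5q0 pd3 1 true true false .up 2 0 3 (qsf 0 536870912 0 536870912 3) ndB0q2 ndB5q0 pcB3 cut_pm_203 Ext.none)

def k0_pm_203 : ∃ t, chk3 f_pm_203 t 1 1 1 = true :=
  ⟨(a (l 4) (b (l 4) (l 2))), by decide +kernel⟩

theorem c_pm_203 : CertB 0 536870912 0 536870912 780900216 37827925 3 eng mog cd0q2 cd5q0 pd3 true true false .up 2 0 3
    ndB0q2 ndB5q0 pcB3 cut_pm_203 Ext.none :=
  certB1 (fam := true) (s1 := true) (s2 := false) (a := 2) (b := 0) (c := 3) (cn := .up) (n1 := ndB0q2) (n2 := ndB5q0) (pc := pcB3) (cut := cut_pm_203) (xt := Ext.none) (P1 := 0) (W1 := 536870912) (P2 := 0) (W2 := 536870912) (P3 := 780900216) (W3 := 37827925) (N0 := 3) (En := eng) (mo := mog) (C1 := cd0q2) (C2 := cd5q0) (C3 := pd3)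
    rfl (fun _ => rfl) k0_pm_203

noncomputable def cut_pm_213 : Cut := Cut.of [[⟨3, 0, 0, 1449551462⟩]]

noncomputable def f_pm_213 : ℕ → ℕ → ℕ → ℕ → Bool := onCell 0 536870912 536870912 536870912 780900216 37827925
    (rowB 3 eng mog cd0q2 cd5q1 pd3 0 true true false .pnn 2 1 3 (qsf 0 536870912 536870912 536870912 3) ndB0q2 ndB5q1 pcB3 cut_pm_213 Ext.none)

def k0_pm_213 : ∃ t, chk3 f_pm_213 t 1 1 1 = true :=
  ⟨(a (l 4) (b (l 4) (l 4))), by decide +kernel⟩

theorem c_pm_213 : CertB 0 536870912 536870912 536870912 780900216 37827925 3 eng mog cd0q2 cd5q1 pd3 true true false .pnn 2 1 3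
    ndB0q2 ndB5q1 pcB3 cut_pm_213 Ext.none :=
  certB0 (fam := true) (s1 := true) (s2 := false) (a := 2) (b := 1) (c := 3) (cn := .pnn) (n1 := ndB0q2) (n2 := ndB5q1) (pc := pcB3) (cut := cut_pm_213) (xt := Ext.none) (P1 := 0) (W1 := 536870912) (P2 := 536870912) (W2 := 536870912) (P3 := 780900216) (W3 := 37827925) (N0 := 3) (En := eng) (mo := mog) (C1 := cd0q2) (C2 := cd5q1) (C3 := pd3)
    rfl k0_pm_213

noncomputable def cut_mm_001 : Cut := Cut.of [[⟨3, 0, 0, 1449551462⟩]]

noncomputable def f_mm_001 : ℕ → ℕ → ℕ → ℕ → Bool := onCell 0 536870912 0 536870912 780900216 37827925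
    (rowB 3 eng mog cd0q0 cd5q0 pd1 0 true false false .up 0 0 1 (qsf 0 536870912 0 536870912 1) ndB0q0 ndB5q0 pcB1 cut_mm_001 Ext.none)

def k0_mm_001 : ∃ t, chk3 f_mm_001 t 1 1 1 = true :=
  ⟨(l 4), by decide +kernel⟩

theorem c_mm_001 : CertB 0 536870912 0 536870912 780900216 37827925 3 eng mog cd0q0 cd5q0 pd1 true false false .up 0 0 1
    ndB0q0 ndB5q0 pcB1 cut_mm_001 Ext.none :=
  certB0 (fam := true) (s1 := false) (s2 := false) (a := 0) (b := 0) (c := 1) (cn := .up) (n1 := ndB0q0) (n2 := ndB5q0) (pc := pcB1) (cut := cut_mm_001) (xt := Ext.none) (P1 := 0) (W1 := 536870912) (P2 := 0) (W2 := 536870912) (P3 := 780900216) (W3 := 37827925) (N0 := 3) (En := eng) (mo := mog) (C1 := cd0q0) (C2 := cd5q0) (C3 := pd1)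
    rfl k0_mm_001

noncomputable def cut_mm_011 : Cut := Cut.of [[⟨3, 0, 0, 1449551462⟩]]

noncomputable def f_mm_011 : ℕ → ℕ → ℕ → ℕ → Bool := onCell 0 536870912 536870912 536870912 780900216 37827925
    (rowB 3 eng mog cd0q0 cd5q1 pd1 0 true false false .pnn 0 1 1 (qsf 0 536870912 536870912 536870912 1) ndB0q0 ndB5q1 pcB1 cut_mm_011 Ext.none)

def k0_mm_011 : ∃ t, chk3 f_mm_011 t 1 1 1 = true :=
  ⟨(l 4), by decide +kernel⟩

theorem c_mm_011 : CertB 0 536870912 536870912 536870912 780900216 37827925 3 eng mog cd0q0 cd5q1 pd1 true false false .pnn 0 1 1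
    ndB0q0 ndB5q1 pcB1 cut_mm_011 Ext.none :=
  certB0 (fam := true) (s1 := false) (s2 := false) (a := 0) (b := 1) (c := 1) (cn := .pnn) (n1 := ndB0q0) (n2 := ndB5q1) (pc := pcB1) (cut := cut_mm_011) (xt := Ext.none) (P1 := 0) (W1 := 536870912) (P2 := 536870912) (W2 := 536870912) (P3 := 780900216) (W3 := 37827925) (N0 := 3) (En := eng) (mo := mog) (C1 := cd0q0) (C2 := cd5q1) (C3 := pd1)
    rfl k0_mm_011

noncomputable def cut_mm_012 : Cut := Cut.of [[⟨3, 0, 0, 1449551462⟩]]

noncomputable def f_mm_012 : ℕ → ℕ → ℕ → ℕ → Bool := onCell 0 536870912 536870912 536870912 780900216 37827925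
    (rowB 3 eng mog cd0q0 cd5q1 pd2 0 true false false .pnp 0 1 2 (qsf 0 536870912 536870912 536870912 2) ndB0q0 ndB5q1 pcB2 cut_mm_012 Ext.none)

def k0_mm_012 : ∃ t, chk3 f_mm_012 t 1 1 1 = true :=
  ⟨(l 4), by decide +kernel⟩

theorem c_mm_012 : CertB 0 536870912 536870912 536870912 780900216 37827925 3 eng mog cd0q0 cd5q1 pd2 true false false .pnp 0 1 2
    ndB0q0 ndB5q1 pcB2 cut_mm_012 Ext.none :=
  certB0 (fam := true) (s1 := false) (s2 := false) (a := 0) (b := 1) (c := 2) (cn := .pnp) (n1 := ndB0q0) (n2 := ndB5q1) (pc := pcB2) (cut := cut_mm_012) (xt := Ext.none) (P1 := 0) (W1 := 536870912) (P2 := 536870912) (W2 := 536870912) (P3 := 780900216) (W3 := 37827925) (N0 := 3) (En := eng) (mo := mog) (C1 := cd0q0) (C2 := cd5q1) (C3 := pd2)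
    rfl k0_mm_012

noncomputable def cut_mm_022 : Cut := Cut.of [[⟨3, 0, 0, 1449551462⟩]]

noncomputable def f_mm_022 : ℕ → ℕ → ℕ → ℕ → Bool := onCell 0 536870912 1073741824 536870912 780900216 37827925
    (rowB 3 eng mog cd0q0 cd5q2 pd2 0 true false false .pp 0 2 2 (qsf 0 536870912 1073741824 536870912 2) ndB0q0 ndB5q2 pcB2 cut_mm_022 Ext.none)

def k0_mm_022 : ∃ t, chk3 f_mm_022 t 1 1 1 = true :=
  ⟨(l 4), by decide +kernel⟩

theorem c_mm_022 : CertB 0 536870912 1073741824 536870912 780900216 37827925 3 eng mog cd0q0 cd5q2 pd2 true false false .pp 0 2 2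
    ndB0q0 ndB5q2 pcB2 cut_mm_022 Ext.none :=
  certB0 (fam := true) (s1 := false) (s2 := false) (a := 0) (b := 2) (c := 2) (cn := .pp) (n1 := ndB0q0) (n2 := ndB5q2) (pc := pcB2) (cut := cut_mm_022) (xt := Ext.none) (P1 := 0) (W1 := 536870912) (P2 := 1073741824) (W2 := 536870912) (P3 := 780900216) (W3 := 37827925) (N0 := 3) (En := eng) (mo := mog) (C1 := cd0q0) (C2 := cd5q2) (C3 := pd2)
    rfl k0_mm_022

noncomputable def cut_mm_023 : Cut := Cut.of [[⟨3, 0, 0, 1449551462⟩]]

noncomputable def f_mm_023 : ℕ → ℕ → ℕ → ℕ → Bool := onCell 0 536870912 1073741824 536870912 780900216 37827925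
    (rowB 3 eng mog cd0q0 cd5q2 pd3 0 true false false .up 0 2 3 (qsf 0 536870912 1073741824 536870912 3) ndB0q0 ndB5q2 pcB3 cut_mm_023 Ext.none)

def k0_mm_023 : ∃ t, chk3 f_mm_023 t 1 1 1 = true :=
  ⟨(l 4), by decide +kernel⟩

theorem c_mm_023 : CertB 0 536870912 1073741824 536870912 780900216 37827925 3 eng mog cd0q0 cd5q2 pd3 true false false .up 0 2 3
    ndB0q0 ndB5q2 pcB3 cut_mm_023 Ext.none :=
  certB0 (fam := true) (s1 := false) (s2 := false) (a := 0) (b := 2) (c := 3) (cn := .up) (n1 := ndB0q0) (n2 := ndB5q2) (pc := pcB3) (cut := cut_mm_023) (xt := Ext.none) (P1 := 0) (W1 := 536870912) (P2 := 1073741824) (W2 := 536870912) (P3 := 780900216) (W3 := 37827925) (N0 := 3) (En := eng) (mo := mog) (C1 := cd0q0) (C2 := cd5q2) (C3 := pd3)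
    rfl k0_mm_023

noncomputable def cut_mm_033 : Cut := Cut.of [[⟨3, 0, 0, 1449551462⟩]]

noncomputable def f_mm_033 : ℕ → ℕ → ℕ → ℕ → Bool := onCell 0 536870912 0 1230186008 780900216 37827925
    (rowB 3 eng mog cd0q0 cd5q3 pd3 0 true false false .pnn 0 3 3 (qsf 0 536870912 0 1230186008 3) ndB0q0 ndB5q3 pcB3 cut_mm_033 Ext.none)

def k0_mm_033 : ∃ t, chk3 f_mm_033 t 1 1 1 = true :=
  ⟨(l 4), by decide +kernel⟩

theorem c_mm_033 : CertB 0 536870912 0 1230186008 780900216 37827925 3 eng mog cd0q0 cd5q3 pd3 true false false .pnn 0 3 3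
    ndB0q0 ndB5q3 pcB3 cut_mm_033 Ext.none :=
  certB0 (fam := true) (s1 := false) (s2 := false) (a := 0) (b := 3) (c := 3) (cn := .pnn) (n1 := ndB0q0) (n2 := ndB5q3) (pc := pcB3) (cut := cut_mm_033) (xt := Ext.none) (P1 := 0) (W1 := 536870912) (P2 := 0) (W2 := 1230186008) (P3 := 780900216) (W3 := 37827925) (N0 := 3) (En := eng) (mo := mog) (C1 := cd0q0) (C2 := cd5q3) (C3 := pd3)
    rfl k0_mm_033

noncomputable def cut_mm_101 : Cut := Cut.of [[⟨3, 0, 0, 1449551462⟩]]

noncomputable def f_mm_101 : ℕ → ℕ → ℕ → ℕ → Bool := onCell 536870912 536870912 0 536870912 780900216 37827925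
    (rowB 3 eng mog cd0q1 cd5q0 pd1 0 true false false .npn 1 0 1 (qsf 536870912 536870912 0 536870912 1) ndB0q1 ndB5q0 pcB1 cut_mm_101 Ext.none)

def k0_mm_101 : ∃ t, chk3 f_mm_101 t 1 1 1 = true :=
  ⟨(l 4), by decide +kernel⟩

theorem c_mm_101 : CertB 536870912 536870912 0 536870912 780900216 37827925 3 eng mog cd0q1 cd5q0 pd1 true false false .npn 1 0 1
    ndB0q1 ndB5q0 pcB1 cut_mm_101 Ext.none :=
  certB0 (fam := true) (s1 := false) (s2 := false) (a := 1) (b := 0) (c := 1) (cn := .npn) (n1 := ndB0q1) (n2 := ndB5q0) (pc := pcB1) (cut := cut_mm_101) (xt := Ext.none) (P1 := 536870912) (W1 := 536870912) (P2 := 0) (W2 := 536870912) (P3 := 780900216) (W3 := 37827925) (N0 := 3) (En := eng) (mo := mog) (C1 := cd0q1) (C2 := cd5q0) (C3 := pd1)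
    rfl k0_mm_101

noncomputable def cut_mm_102 : Cut := Cut.of [[⟨3, 0, 0, 1449551462⟩]]

noncomputable def f_mm_102 : ℕ → ℕ → ℕ → ℕ → Bool := onCell 536870912 536870912 0 536870912 780900216 37827925
    (rowB 3 eng mog cd0q1 cd5q0 pd2 0 true false false .npp 1 0 2 (qsf 536870912 536870912 0 536870912 2) ndB0q1 ndB5q0 pcB2 cut_mm_102 Ext.none)

def k0_mm_102 : ∃ t, chk3 f_mm_102 t 1 1 1 = true :=
  ⟨(l 4), by decide +kernel⟩

theorem c_mm_102 : CertB 536870912 536870912 0 536870912 780900216 37827925 3 eng mog cd0q1 cd5q0 pd2 true false false .npp 1 0 2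
    ndB0q1 ndB5q0 pcB2 cut_mm_102 Ext.none :=
  certB0 (fam := true) (s1 := false) (s2 := false) (a := 1) (b := 0) (c := 2) (cn := .npp) (n1 := ndB0q1) (n2 := ndB5q0) (pc := pcB2) (cut := cut_mm_102) (xt := Ext.none) (P1 := 536870912) (W1 := 536870912) (P2 := 0) (W2 := 536870912) (P3 := 780900216) (W3 := 37827925) (N0 := 3) (En := eng) (mo := mog) (C1 := cd0q1) (C2 := cd5q0) (C3 := pd2)
    rfl k0_mm_102

noncomputable def cut_mm_112 : Cut := Cut.of [[⟨3, 0, 0, 1449551462⟩]]

noncomputable def f_mm_112 : ℕ → ℕ → ℕ → ℕ → Bool := onCell 536870912 536870912 536870912 536870912 780900216 37827925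
    (rowB 3 eng mog cd0q1 cd5q1 pd2 0 true false false .dn 1 1 2 (qsf 536870912 536870912 536870912 536870912 2) ndB0q1 ndB5q1 pcB2 cut_mm_112 Ext.none)

def k0_mm_112 : ∃ t, chk3 f_mm_112 t 1 1 1 = true :=
  ⟨(l 4), by decide +kernel⟩

theorem c_mm_112 : CertB 536870912 536870912 536870912 536870912 780900216 37827925 3 eng mog cd0q1 cd5q1 pd2 true false false .dn 1 1 2
    ndB0q1 ndB5q1 pcB2 cut_mm_112 Ext.none :=
  certB0 (fam := true) (s1 := false) (s2 := false) (a := 1) (b := 1) (c := 2) (cn := .dn) (n1 := ndB0q1) (n2 := ndB5q1) (pc := pcB2) (cut := cut_mm_112) (xt := Ext.none) (P1 := 536870912) (W1 := 536870912) (P2 := 536870912) (W2 := 536870912) (P3 := 780900216) (W3 := 37827925) (N0 := 3) (En := eng) (mo := mog) (C1 := cd0q1) (C2 := cd5q1) (C3 := pd2)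
    rfl k0_mm_112

noncomputable def cut_mm_113 : Cut := Cut.of [[⟨3, 0, 0, 1449551462⟩]]

noncomputable def f_mm_113 : ℕ → ℕ → ℕ → ℕ → Bool := onCell 536870912 536870912 536870912 536870912 780900216 37827925
    (rowB 3 eng mog cd0q1 cd5q1 pd3 0 true false false .nn 1 1 3 (qsf 536870912 536870912 536870912 536870912 3) ndB0q1 ndB5q1 pcB3 cut_mm_113 Ext.none)

def k0_mm_113 : ∃ t, chk3 f_mm_113 t 1 1 1 = true :=
  ⟨(l 4), by decide +kernel⟩

theorem c_mm_113 : CertB 536870912 536870912 536870912 536870912 780900216 37827925 3 eng mog cd0q1 cd5q1 pd3 true false false .nn 1 1 3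
    ndB0q1 ndB5q1 pcB3 cut_mm_113 Ext.none :=
  certB0 (fam := true) (s1 := false) (s2 := false) (a := 1) (b := 1) (c := 3) (cn := .nn) (n1 := ndB0q1) (n2 := ndB5q1) (pc := pcB3) (cut := cut_mm_113) (xt := Ext.none) (P1 := 536870912) (W1 := 536870912) (P2 := 536870912) (W2 := 536870912) (P3 := 780900216) (W3 := 37827925) (N0 := 3) (En := eng) (mo := mog) (C1 := cd0q1) (C2 := cd5q1) (C3 := pd3)
    rfl k0_mm_113

noncomputable def cut_mm_123 : Cut := Cut.of [[⟨3, 0, 0, 1449551462⟩]]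

noncomputable def f_mm_123 : ℕ → ℕ → ℕ → ℕ → Bool := onCell 536870912 536870912 1073741824 536870912 780900216 37827925
    (rowB 3 eng mog cd0q1 cd5q2 pd3 0 true false false .npn 1 2 3 (qsf 536870912 536870912 1073741824 536870912 3) ndB0q1 ndB5q2 pcB3 cut_mm_123 Ext.none)

def k0_mm_123 : ∃ t, chk3 f_mm_123 t 1 1 1 = true :=
  ⟨(l 4), by decide +kernel⟩

theorem c_mm_123 : CertB 536870912 536870912 1073741824 536870912 780900216 37827925 3 eng mog cd0q1 cd5q2 pd3 true false false .npn 1 2 3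
    ndB0q1 ndB5q2 pcB3 cut_mm_123 Ext.none :=
  certB0 (fam := true) (s1 := false) (s2 := false) (a := 1) (b := 2) (c := 3) (cn := .npn) (n1 := ndB0q1) (n2 := ndB5q2) (pc := pcB3) (cut := cut_mm_123) (xt := Ext.none) (P1 := 536870912) (W1 := 536870912) (P2 := 1073741824) (W2 := 536870912) (P3 := 780900216) (W3 := 37827925) (N0 := 3) (En := eng) (mo := mog) (C1 := cd0q1) (C2 := cd5q2) (C3 := pd3)
    rfl k0_mm_123

noncomputable def cut_mm_133 : Cut := Cut.of [[⟨3, 0, 0, 1449551462⟩]]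

noncomputable def f_mm_133 : ℕ → ℕ → ℕ → ℕ → Bool := onCell 536870912 536870912 0 1230186008 780900216 37827925
    (rowB 3 eng mog cd0q1 cd5q3 pd3 0 true false false .dn 1 3 3 (qsf 536870912 536870912 0 1230186008 3) ndB0q1 ndB5q3 pcB3 cut_mm_133 Ext.none)

def k0_mm_133 : ∃ t, chk3 f_mm_133 t 1 1 1 = true :=
  ⟨(l 4), by decide +kernel⟩

theorem c_mm_133 : CertB 536870912 536870912 0 1230186008 780900216 37827925 3 eng mog cd0q1 cd5q3 pd3 true false false .dn 1 3 3
    ndB0q1 ndB5q3 pcB3 cut_mm_133 Ext.none :=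
  certB0 (fam := true) (s1 := false) (s2 := false) (a := 1) (b := 3) (c := 3) (cn := .dn) (n1 := ndB0q1) (n2 := ndB5q3) (pc := pcB3) (cut := cut_mm_133) (xt := Ext.none) (P1 := 536870912) (W1 := 536870912) (P2 := 0) (W2 := 1230186008) (P3 := 780900216) (W3 := 37827925) (N0 := 3) (En := eng) (mo := mog) (C1 := cd0q1) (C2 := cd5q3) (C3 := pd3)
    rfl k0_mm_133

noncomputable def cut_mm_202 : Cut := Cut.of [[⟨3, 0, 0, 1449551462⟩]]

noncomputable def f_mm_202 : ℕ → ℕ → ℕ → ℕ → Bool := onCell 0 536870912 0 536870912 780900216 37827925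
    (rowB 3 eng mog cd0q2 cd5q0 pd2 0 true false false .pp 2 0 2 (qsf 0 536870912 0 536870912 2) ndB0q2 ndB5q0 pcB2 cut_mm_202 Ext.none)

def k0_mm_202 : ∃ t, chk3 f_mm_202 t 1 1 1 = true :=
  ⟨(l 4), by decide +kernel⟩

theorem c_mm_202 : CertB 0 536870912 0 536870912 780900216 37827925 3 eng mog cd0q2 cd5q0 pd2 true false false .pp 2 0 2
    ndB0q2 ndB5q0 pcB2 cut_mm_202 Ext.none :=
  certB0 (fam := true) (s1 := false) (s2 := false) (a := 2) (b := 0) (c := 2) (cn := .pp) (n1 := ndB0q2) (n2 := ndB5q0) (pc := pcB2) (cut := cut_mm_202) (xt := Ext.none) (P1 := 0) (W1 := 536870912) (P2 := 0) (W2 := 536870912) (P3 := 780900216) (W3 := 37827925) (N0 := 3) (En := eng) (mo := mog) (C1 := cd0q2) (C2 := cd5q0) (C3 := pd2)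
    rfl k0_mm_202

noncomputable def cut_mm_203 : Cut := Cut.of [[⟨3, 0, 0, 1449551462⟩]]

noncomputable def f_mm_203 : ℕ → ℕ → ℕ → ℕ → Bool := onCell 0 536870912 0 536870912 780900216 37827925
    (rowB 3 eng mog cd0q2 cd5q0 pd3 0 true false false .up 2 0 3 (qsf 0 536870912 0 536870912 3) ndB0q2 ndB5q0 pcB3 cut_mm_203 Ext.none)

def k0_mm_203 : ∃ t, chk3 f_mm_203 t 1 1 1 = true :=
  ⟨(l 4), by decide +kernel⟩

theorem c_mm_203 : CertB 0 536870912 0 536870912 780900216 37827925 3 eng mog cd0q2 cd5q0 pd3 true false false .up 2 0 3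
    ndB0q2 ndB5q0 pcB3 cut_mm_203 Ext.none :=
  certB0 (fam := true) (s1 := false) (s2 := false) (a := 2) (b := 0) (c := 3) (cn := .up) (n1 := ndB0q2) (n2 := ndB5q0) (pc := pcB3) (cut := cut_mm_203) (xt := Ext.none) (P1 := 0) (W1 := 536870912) (P2 := 0) (W2 := 536870912) (P3 := 780900216) (W3 := 37827925) (N0 := 3) (En := eng) (mo := mog) (C1 := cd0q2) (C2 := cd5q0) (C3 := pd3)
    rfl k0_mm_203

noncomputable def cut_mm_213 : Cut := Cut.of [[⟨3, 0, 0, 1449551462⟩]]

noncomputable def f_mm_213 : ℕ → ℕ → ℕ → ℕ → Bool := onCell 0 536870912 536870912 536870912 780900216 37827925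
    (rowB 3 eng mog cd0q2 cd5q1 pd3 0 true false false .pnn 2 1 3 (qsf 0 536870912 536870912 536870912 3) ndB0q2 ndB5q1 pcB3 cut_mm_213 Ext.none)

def k0_mm_213 : ∃ t, chk3 f_mm_213 t 1 1 1 = true :=
  ⟨(l 4), by decide +kernel⟩

theorem c_mm_213 : CertB 0 536870912 536870912 536870912 780900216 37827925 3 eng mog cd0q2 cd5q1 pd3 true false false .pnn 2 1 3
    ndB0q2 ndB5q1 pcB3 cut_mm_213 Ext.none :=
  certB0 (fam := true) (s1 := false) (s2 := false) (a := 2) (b := 1) (c := 3) (cn := .pnn) (n1 := ndB0q2) (n2 := ndB5q1) (pc := pcB3) (cut := cut_mm_213) (xt := Ext.none) (P1 := 0) (W1 := 536870912) (P2 := 536870912) (W2 := 536870912) (P3 := 780900216) (W3 := 37827925) (N0 := 3) (En := eng) (mo := mog) (C1 := cd0q2) (C2 := cd5q1) (C3 := pd3)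
    rfl k0_mm_213

end Pool.Agent.Strip051.G.I72727_7625.Tab.C.BA05

namespace Pool.Agent.Strip051.G.I72727_7625.Tab.C.BA11

open Pool.Agent.Strip051.PB Pool.Agent.Strip051.PB.T
open Pool.Agent.Strip051.G.I72727_7625.Tab

noncomputable def f_pp_001 : ℕ → ℕ → ℕ → ℕ → Bool := onCell 0 536870912 0 536870912 780900216 37827925
    (rowB 3 eng mog cd1q0 cd1q0 pd1 0 true true true .up 0 0 1 (qsf 0 536870912 0 536870912 1) ndB1q0 ndB1q0 pcB1 Cut.none Ext.none)

def k0_pp_001 : ∃ t, chk3 f_pp_001 t 1 1 1 = true :=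
  ⟨(l 4), by decide +kernel⟩

theorem c_pp_001 : CertB 0 536870912 0 536870912 780900216 37827925 3 eng mog cd1q0 cd1q0 pd1 true true true .up 0 0 1
    ndB1q0 ndB1q0 pcB1 Cut.none Ext.none :=
  certB0 (fam := true) (s1 := true) (s2 := true) (a := 0) (b := 0) (c := 1) (cn := .up) (n1 := ndB1q0) (n2 := ndB1q0) (pc := pcB1) (cut := Cut.none) (xt := Ext.none) (P1 := 0) (W1 := 536870912) (P2 := 0) (W2 := 536870912) (P3 := 780900216) (W3 := 37827925) (N0 := 3) (En := eng) (mo := mog) (C1 := cd1q0) (C2 := cd1q0) (C3 := pd1)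
    rfl k0_pp_001

noncomputable def f_pp_011 : ℕ → ℕ → ℕ → ℕ → Bool := onCell 0 536870912 536870912 536870912 780900216 37827925
    (rowB 3 eng mog cd1q0 cd1q1 pd1 0 true true true .pnn 0 1 1 (qsf 0 536870912 536870912 536870912 1) ndB1q0 ndB1q1 pcB1 Cut.none Ext.none)

def k0_pp_011 : ∃ t, chk3 f_pp_011 t 1 1 1 = true :=
  ⟨(l 4), by decide +kernel⟩

theorem c_pp_011 : CertB 0 536870912 536870912 536870912 780900216 37827925 3 eng mog cd1q0 cd1q1 pd1 true true true .pnn 0 1 1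
    ndB1q0 ndB1q1 pcB1 Cut.none Ext.none :=
  certB0 (fam := true) (s1 := true) (s2 := true) (a := 0) (b := 1) (c := 1) (cn := .pnn) (n1 := ndB1q0) (n2 := ndB1q1) (pc := pcB1) (cut := Cut.none) (xt := Ext.none) (P1 := 0) (W1 := 536870912) (P2 := 536870912) (W2 := 536870912) (P3 := 780900216) (W3 := 37827925) (N0 := 3) (En := eng) (mo := mog) (C1 := cd1q0) (C2 := cd1q1) (C3 := pd1)
    rfl k0_pp_011

noncomputable def f_pp_012 : ℕ → ℕ → ℕ → ℕ → Bool := onCell 0 536870912 536870912 536870912 780900216 37827925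
    (rowB 3 eng mog cd1q0 cd1q1 pd2 0 true true true .pnp 0 1 2 (qsf 0 536870912 536870912 536870912 2) ndB1q0 ndB1q1 pcB2 Cut.none Ext.none)

def k0_pp_012 : ∃ t, chk3 f_pp_012 t 1 1 1 = true :=
  ⟨(l 4), by decide +kernel⟩

theorem c_pp_012 : CertB 0 536870912 536870912 536870912 780900216 37827925 3 eng mog cd1q0 cd1q1 pd2 true true true .pnp 0 1 2
    ndB1q0 ndB1q1 pcB2 Cut.none Ext.none :=
  certB0 (fam := true) (s1 := true) (s2 := true) (a := 0) (b := 1) (c := 2) (cn := .pnp) (n1 := ndB1q0) (n2 := ndB1q1) (pc := pcB2) (cut := Cut.none) (xt := Ext.none) (P1 := 0) (W1 := 536870912) (P2 := 536870912) (W2 := 536870912) (P3 := 780900216) (W3 := 37827925) (N0 := 3) (En := eng) (mo := mog) (C1 := cd1q0) (C2 := cd1q1) (C3 := pd2)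
    rfl k0_pp_012

noncomputable def cut_pp_022_a : Cut := Cut.of [[⟨0, 0, 0, 67108864⟩, ⟨1, 1, 0, 67108864⟩, ⟨2, 1, 0, 67108864⟩]]

noncomputable def f_pp_022_a : ℕ → ℕ → ℕ → ℕ → Bool := onCell 0 536870912 0 536870912 780900216 37827925
    (rowB 3 eng mog cd1q0 cd1q2a pd2 0 true true true .pp 0 2 2 (qsf 0 536870912 0 536870912 2) ndB1q0 ndB1q2a pcB2 cut_pp_022_a Ext.none)

def k0_pp_022_a : ∃ t, chk3 f_pp_022_a t 2 2 1 = true :=
  ⟨(a (a (b (a (b (l 16333968) (a (l 16374256) (l 16452152))) (b (l 16386672) (l 16472728))) (b (a (a (a (l 16439424) (l 16470808)) (l 16483576)) (l 16505728)) (a (a (b (l 16469256) (l 16456136)) (a (l 16557984) (l 16546880))) (a (l 16591304) (l 16550880))))) (b (a (b (l 16473264) (l 16497760)) (l 16551792)) (a (b (l 16553160) (a (l 16559960) (l 16570456))) (b (l 16556800) (a (l 16581848) (l 16593728)))))) (b (a (a (l 16536296) (l 16566240)) (a (l 16595576) (l 16617864))) (a (a (b (l 16582408) (l 16611360)) (b (l 16603728)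 (b (l 16625704) (l 16645680)))) (b (a (l 16626536) (l 16653776)) (a (b (l 16651912) (l 16676176)) (l 4)))))), by decide +kernel⟩

def k1_pp_022_a : ∃ t, chk3 f_pp_022_a t 4 3 1 = true :=
  ⟨(b (a (a (b (a (b (b (l 16502120) (l 16512208)) (b (a (l 16538128) (l 16550112)) (a (l 16550200) (l 16562304)))) (b (l 16551048) (a (l 16568072) (l 16579560)))) (a (b (a (b (l 16562720) (l 16575672)) (b (l 16574952) (l 16588048))) (a (b (l 16589040) (l 16581832)) (b (l 16601576) (l 16615512)))) (b (a (l 16593696) (l 16605504)) (a (l 16621032) (l 16633200))))) (b (a (b (l 16569992) (l 16593232)) (b (l 16577304) (l 16599608))) (b (a (l 16619408) (l 16625280)) (a (b (l 16641592) (l 16657824)) (l 16655760))))) (b (a (b (l 16591520) (l 16613368)) (b (l 16635872) (a (l 16630600) (l 16643272)))) (a (b (a (l 16633384) (l 16643344)) (a (b (l 16655216) (l 16650504)) (c (l 16696504) (l 16673536)))) (a (b (l 16655440) (l 71638425559)) (b (l 16671248) (l 4)))))) (a (b (a (b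 (a (a (b (b (l 16613328) (l 16620488)) (b (l 16628632) (l 16638376))) (b (l 16629840) (b (l 16641664) (l 16651424)))) (b (a (l 16642520) (l 16654968)) (a (l 16638408) (l 16671960)))) (a (a (a (l 6) (b (l 16677808) (l 6))) (b (b (l 16661464) (l 16650792)) (b (l 16661360) (l 6)))) (b (a (l 16648032) (l 16692112)) (a (a (l 16676480) (l 16703840)) (l 16713336))))) (b (a (b (l 16673264) (l 16690456)) (b (l 16681464) (l 16698424))) (a (b (l 16706032) (a (l 16719432) (l 16724392))) (b (a (l 16712056) (l 16697744)) (a (l 16731776) (l 4)))))) (a (b (a (l 6) (b (a (l 6) (b (l 16727664) (l 16735728))) (l 6))) (l 6)) (b (a (b (a (b (l 16731992) (l 16742304)) (l 4)) (l 4)) (l 4)) (l 4)))) (b (a (b (a (b (l 16690240) (l 16710552)) (l 4)) (l 4)) (l 4)) (l 4)))), by decide +kernel⟩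

def k2_pp_022_a : ∃ t, chk3 f_pp_022_a t 5 3 1 = true :=
  ⟨(b (a (b (b (a (l 16641248) (l 16672088)) (a (a (l 16616760) (l 16676624)) (l 4))) (l 4)) (l 4)) (l 4)), by decide +kernel⟩

def k3_pp_022_a : ∃ t, chk3 f_pp_022_a t 3 1 1 = true :=
  ⟨(b (a (b (a (b (a (l 16631664) (l 16655712)) (a (l 16652216) (l 16679704))) (a (b (l 16680704) (l 16708056)) (b (l 16706488) (l 4)))) (a (b (a (l 16705248) (l 4)) (l 4)) (l 4))) (b (l 2) (l 4))) (l 4)), by decide +kernel⟩

theorem s4_pp_022_a : ∃ t, chk3 f_pp_022_a t 2 3 1 = true := ex3_a k1_pp_022_a k2_pp_022_a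

theorem s5_pp_022_a : ∃ t, chk3 f_pp_022_a t 2 1 1 = true := ex3_b k0_pp_022_a s4_pp_022_a

theorem s6_pp_022_a : ∃ t, chk3 f_pp_022_a t 1 1 1 = true := ex3_a s5_pp_022_a k3_pp_022_a

theorem c_pp_022_a : CertB 0 536870912 0 536870912 780900216 37827925 3 eng mog cd1q0 cd1q2a pd2 true true true .pp 0 2 2
    ndB1q0 ndB1q2a pcB2 cut_pp_022_a Ext.none :=
  certB0 (fam := true) (s1 := true) (s2 := true) (a := 0) (b := 2) (c := 2) (cn := .pp) (n1 := ndB1q0) (n2 := ndB1q2a) (pc := pcB2) (cut := cut_pp_022_a) (xt := Ext.none) (P1 := 0) (W1 := 536870912) (P2 := 0) (W2 := 536870912) (P3 := 780900216) (W3 := 37827925) (N0 := 3) (En := eng) (mo := mog) (C1 := cd1q0) (C2 := cd1q2a) (C3 := pd2)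
    rfl s6_pp_022_a

noncomputable def cut_pp_022_b : Cut := Cut.of [[⟨0, 0, 0, 67108864⟩, ⟨1, 1, 0, 67108864⟩, ⟨2, 1, 0, 67108864⟩]]

noncomputable def f_pp_022_b : ℕ → ℕ → ℕ → ℕ → Bool := onCell 1073741824 536870912 1239849684 370763052 780900216 37827925
    (rowB 3 eng mog cd1q0 cd1q2b pd2 2 true true true .pp 0 2 2 (qsf 0 536870912 1239849684 370763052 2) ndB1q0 ndB1q2b pcB2 cut_pp_022_b Ext.none)

def k0_pp_022_b : ∃ t, chk3 f_pp_022_b t 1 1 1 = true :=
  ⟨(a (b (a (l 1) (a (b (b (a (b (l 16406920) (l 1)) (b (l 16380440) (l 16307544))) (l 1)) (l 1)) (b (b (a (b (l 16365312) (l 16335976)) (b (l 16431328) (l 16362056))) (a (a (l 16219984) (l 16235192)) (b (l 16291632) (l 16220288)))) (b (a (l 1) (l 16112568)) (l 1))))) (l 1)) (b (a (a (b (b (a (b (l 16455392) (l 16387920)) (l 16449184)) (a (l 16285032) (l 16315192))) (a (b (l 16144264) (l 1)) (b (l 16178064) (l 16037752)))) (b (b (a (l 16479632) (l 16513184)) (a (l 16347120) (l 16339128))) (b (a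 (l 16213080) (l 16249104)) (a (l 16076056) (l 16115400))))) (a (b (a (l 16589880) (l 16521592)) (a (b (l 16286848) (l 16155408)) (b (l 16327984) (l 16197152)))) (b (a (l 16556944) (l 16589208)) (a (l 16309504) (l 16356752))))) (a (b (a (l 1) (a (l 62309162407) (b (l 15978904) (l 15841184)))) (l 1)) (a (a (b (l 16081432) (l 1)) (b (l 16001536) (l 15735856))) (b (a (l 16049184) (l 16098992)) (a (l 15787360) (l 15841208))))))), by decide +kernel⟩

theorem c_pp_022_b : CertB 0 536870912 1239849684 370763052 780900216 37827925 3 eng mog cd1q0 cd1q2b pd2 true true true .pp 0 2 2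
    ndB1q0 ndB1q2b pcB2 cut_pp_022_b Ext.none :=
  certB2 (fam := true) (s1 := true) (s2 := true) (a := 0) (b := 2) (c := 2) (cn := .pp) (n1 := ndB1q0) (n2 := ndB1q2b) (pc := pcB2) (cut := cut_pp_022_b) (xt := Ext.none) (P1 := 0) (W1 := 536870912) (P2 := 1239849684) (W2 := 370763052) (P3 := 780900216) (W3 := 37827925) (N0 := 3) (En := eng) (mo := mog) (C1 := cd1q0) (C2 := cd1q2b) (C3 := pd2)
    rfl (fun _ => rfl) k0_pp_022_b

noncomputable def f_pp_023_a : ℕ → ℕ → ℕ → ℕ → Bool := onCell 1610612736 536870912 0 536870912 780900216 37827925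
    (rowB 3 eng mog cd1q0 cd1q2a pd3 2 true true true .up 0 2 3 (qsf 0 536870912 0 536870912 3) ndB1q0 ndB1q2a pcB3 Cut.none Ext.none)

def k0_pp_023_a : ∃ t, chk3 f_pp_023_a t 1 1 1 = true :=
  ⟨(a (a (a (b (a (b (l 23857332599) (l 4)) (l 4)) (l 4)) (l 4)) (l 4)) (l 2)), by decide +kernel⟩

theorem c_pp_023_a : CertB 0 536870912 0 536870912 780900216 37827925 3 eng mog cd1q0 cd1q2a pd3 true true true .up 0 2 3
    ndB1q0 ndB1q2a pcB3 Cut.none Ext.none :=
  certB2 (fam := true) (s1 := true) (s2 := true) (a := 0) (b := 2) (c := 3) (cn := .up) (n1 := ndB1q0) (n2 := ndB1q2a) (pc := pcB3) (cut := Cut.none) (xt := Ext.none) (P1 := 0) (W1 := 536870912) (P2 := 0) (W2 := 536870912) (P3 := 780900216) (W3 := 37827925) (N0 := 3) (En := eng) (mo := mog) (C1 := cd1q0) (C2 := cd1q2a) (C3 := pd3)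
    rfl (fun _ => rfl) k0_pp_023_a

noncomputable def f_pp_023_b : ℕ → ℕ → ℕ → ℕ → Bool := onCell 1610612736 536870912 1239849684 370763052 780900216 37827925
    (rowB 3 eng mog cd1q0 cd1q2b pd3 2 true true true .up 0 2 3 (qsf 0 536870912 1239849684 370763052 3) ndB1q0 ndB1q2b pcB3 Cut.none Ext.none)

def k0_pp_023_b : ∃ t, chk3 f_pp_023_b t 1 1 1 = true :=
  ⟨(a (a (a (a (b (b (l 16620000) (l 16403792)) (b (b (l 16212664) (l 16084824)) (l 15896288))) (b (l 4) (b (l 15974328) (l 15953312)))) (l 4)) (l 4)) (l 4)), by decide +kernel⟩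

theorem c_pp_023_b : CertB 0 536870912 1239849684 370763052 780900216 37827925 3 eng mog cd1q0 cd1q2b pd3 true true true .up 0 2 3
    ndB1q0 ndB1q2b pcB3 Cut.none Ext.none :=
  certB2 (fam := true) (s1 := true) (s2 := true) (a := 0) (b := 2) (c := 3) (cn := .up) (n1 := ndB1q0) (n2 := ndB1q2b) (pc := pcB3) (cut := Cut.none) (xt := Ext.none) (P1 := 0) (W1 := 536870912) (P2 := 1239849684) (W2 := 370763052) (P3 := 780900216) (W3 := 37827925) (N0 := 3) (En := eng) (mo := mog) (C1 := cd1q0) (C2 := cd1q2b) (C3 := pd3)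
    rfl (fun _ => rfl) k0_pp_023_b

noncomputable def f_pp_033 : ℕ → ℕ → ℕ → ℕ → Bool := onCell 0 536870912 1610612736 536870912 780900216 37827925
    (rowB 3 eng mog cd1q0 cd1q3 pd3 1 true true true .pnn 0 3 3 (qsf 0 536870912 1610612736 536870912 3) ndB1q0 ndB1q3 pcB3 Cut.none Ext.none)

def k0_pp_033 : ∃ t, chk3 f_pp_033 t 1 1 1 = true :=
  ⟨(b (b (a (b (a (b (l 16019128) (a (l 15792688) (l 15974672))) (l 1)) (a (b (l 15864288) (l 4)) (l 4))) (l 1)) (l 4)) (l 4)), by decide +kernel⟩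

theorem c_pp_033 : CertB 0 536870912 1610612736 536870912 780900216 37827925 3 eng mog cd1q0 cd1q3 pd3 true true true .pnn 0 3 3
    ndB1q0 ndB1q3 pcB3 Cut.none Ext.none :=
  certB1 (fam := true) (s1 := true) (s2 := true) (a := 0) (b := 3) (c := 3) (cn := .pnn) (n1 := ndB1q0) (n2 := ndB1q3) (pc := pcB3) (cut := Cut.none) (xt := Ext.none) (P1 := 0) (W1 := 536870912) (P2 := 1610612736) (W2 := 536870912) (P3 := 780900216) (W3 := 37827925) (N0 := 3) (En := eng) (mo := mog) (C1 := cd1q0) (C2 := cd1q3) (C3 := pd3)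
    rfl (fun _ => rfl) k0_pp_033

noncomputable def f_pp_101 : ℕ → ℕ → ℕ → ℕ → Bool := onCell 536870912 536870912 0 536870912 780900216 37827925
    (rowB 3 eng mog cd1q1 cd1q0 pd1 0 true true true .npn 1 0 1 (qsf 536870912 536870912 0 536870912 1) ndB1q1 ndB1q0 pcB1 Cut.none Ext.none)

def k0_pp_101 : ∃ t, chk3 f_pp_101 t 1 1 1 = true :=
  ⟨(l 4), by decide +kernel⟩

theorem c_pp_101 : CertB 536870912 536870912 0 536870912 780900216 37827925 3 eng mog cd1q1 cd1q0 pd1 true true true .npn 1 0 1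
    ndB1q1 ndB1q0 pcB1 Cut.none Ext.none :=
  certB0 (fam := true) (s1 := true) (s2 := true) (a := 1) (b := 0) (c := 1) (cn := .npn) (n1 := ndB1q1) (n2 := ndB1q0) (pc := pcB1) (cut := Cut.none) (xt := Ext.none) (P1 := 536870912) (W1 := 536870912) (P2 := 0) (W2 := 536870912) (P3 := 780900216) (W3 := 37827925) (N0 := 3) (En := eng) (mo := mog) (C1 := cd1q1) (C2 := cd1q0) (C3 := pd1)
    rfl k0_pp_101

noncomputable def f_pp_102 : ℕ → ℕ → ℕ → ℕ → Bool := onCell 536870912 536870912 0 536870912 780900216 37827925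
    (rowB 3 eng mog cd1q1 cd1q0 pd2 0 true true true .npp 1 0 2 (qsf 536870912 536870912 0 536870912 2) ndB1q1 ndB1q0 pcB2 Cut.none Ext.none)

def k0_pp_102 : ∃ t, chk3 f_pp_102 t 1 1 1 = true :=
  ⟨(l 4), by decide +kernel⟩

theorem c_pp_102 : CertB 536870912 536870912 0 536870912 780900216 37827925 3 eng mog cd1q1 cd1q0 pd2 true true true .npp 1 0 2
    ndB1q1 ndB1q0 pcB2 Cut.none Ext.none :=
  certB0 (fam := true) (s1 := true) (s2 := true) (a := 1) (b := 0) (c := 2) (cn := .npp) (n1 := ndB1q1) (n2 := ndB1q0) (pc := pcB2) (cut := Cut.none) (xt := Ext.none) (P1 := 536870912) (W1 := 536870912) (P2 := 0) (W2 := 536870912) (P3 := 780900216) (W3 := 37827925) (N0 := 3) (En := eng) (mo := mog) (C1 := cd1q1) (C2 := cd1q0) (C3 := pd2)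
    rfl k0_pp_102

noncomputable def f_pp_112 : ℕ → ℕ → ℕ → ℕ → Bool := onCell 536870912 536870912 536870912 536870912 780900216 37827925
    (rowB 3 eng mog cd1q1 cd1q1 pd2 0 true true true .dn 1 1 2 (qsf 536870912 536870912 536870912 536870912 2) ndB1q1 ndB1q1 pcB2 Cut.none Ext.none)

def k0_pp_112 : ∃ t, chk3 f_pp_112 t 1 1 1 = true :=
  ⟨(l 4), by decide +kernel⟩

theorem c_pp_112 : CertB 536870912 536870912 536870912 536870912 780900216 37827925 3 eng mog cd1q1 cd1q1 pd2 true true true .dn 1 1 2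
    ndB1q1 ndB1q1 pcB2 Cut.none Ext.none :=
  certB0 (fam := true) (s1 := true) (s2 := true) (a := 1) (b := 1) (c := 2) (cn := .dn) (n1 := ndB1q1) (n2 := ndB1q1) (pc := pcB2) (cut := Cut.none) (xt := Ext.none) (P1 := 536870912) (W1 := 536870912) (P2 := 536870912) (W2 := 536870912) (P3 := 780900216) (W3 := 37827925) (N0 := 3) (En := eng) (mo := mog) (C1 := cd1q1) (C2 := cd1q1) (C3 := pd2)
    rfl k0_pp_112

noncomputable def f_pp_113 : ℕ → ℕ → ℕ → ℕ → Bool := onCell 536870912 536870912 536870912 536870912 780900216 37827925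
    (rowB 3 eng mog cd1q1 cd1q1 pd3 0 true true true .nn 1 1 3 (qsf 536870912 536870912 536870912 536870912 3) ndB1q1 ndB1q1 pcB3 Cut.none Ext.none)

def k0_pp_113 : ∃ t, chk3 f_pp_113 t 1 1 1 = true :=
  ⟨(l 4), by decide +kernel⟩

theorem c_pp_113 : CertB 536870912 536870912 536870912 536870912 780900216 37827925 3 eng mog cd1q1 cd1q1 pd3 true true true .nn 1 1 3
    ndB1q1 ndB1q1 pcB3 Cut.none Ext.none :=
  certB0 (fam := true) (s1 := true) (s2 := true) (a := 1) (b := 1) (c := 3) (cn := .nn) (n1 := ndB1q1) (n2 := ndB1q1) (pc := pcB3) (cut := Cut.none) (xt := Ext.none) (P1 := 536870912) (W1 := 536870912) (P2 := 536870912) (W2 := 536870912) (P3 := 780900216) (W3 := 37827925) (N0 := 3) (En := eng) (mo := mog) (C1 := cd1q1) (C2 := cd1q1) (C3 := pd3)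
    rfl k0_pp_113

noncomputable def f_pp_123_a : ℕ → ℕ → ℕ → ℕ → Bool := onCell 536870912 536870912 0 536870912 780900216 37827925
    (rowB 3 eng mog cd1q1 cd1q2a pd3 0 true true true .npn 1 2 3 (qsf 536870912 536870912 0 536870912 3) ndB1q1 ndB1q2a pcB3 Cut.none Ext.none)

def k0_pp_123_a : ∃ t, chk3 f_pp_123_a t 1 1 1 = true :=
  ⟨(l 4), by decide +kernel⟩

theorem c_pp_123_a : CertB 536870912 536870912 0 536870912 780900216 37827925 3 eng mog cd1q1 cd1q2a pd3 true true true .npn 1 2 3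
    ndB1q1 ndB1q2a pcB3 Cut.none Ext.none :=
  certB0 (fam := true) (s1 := true) (s2 := true) (a := 1) (b := 2) (c := 3) (cn := .npn) (n1 := ndB1q1) (n2 := ndB1q2a) (pc := pcB3) (cut := Cut.none) (xt := Ext.none) (P1 := 536870912) (W1 := 536870912) (P2 := 0) (W2 := 536870912) (P3 := 780900216) (W3 := 37827925) (N0 := 3) (En := eng) (mo := mog) (C1 := cd1q1) (C2 := cd1q2a) (C3 := pd3)
    rfl k0_pp_123_a

noncomputable def f_pp_123_b : ℕ → ℕ → ℕ → ℕ → Bool := onCell 536870912 536870912 1239849684 370763052 780900216 37827925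
    (rowB 3 eng mog cd1q1 cd1q2b pd3 0 true true true .npn 1 2 3 (qsf 536870912 536870912 1239849684 370763052 3) ndB1q1 ndB1q2b pcB3 Cut.none Ext.none)

def k0_pp_123_b : ∃ t, chk3 f_pp_123_b t 1 1 1 = true :=
  ⟨(a (l 4) (l 4)), by decide +kernel⟩

theorem c_pp_123_b : CertB 536870912 536870912 1239849684 370763052 780900216 37827925 3 eng mog cd1q1 cd1q2b pd3 true true true .npn 1 2 3
    ndB1q1 ndB1q2b pcB3 Cut.none Ext.none :=
  certB0 (fam := true) (s1 := true) (s2 := true) (a := 1) (b := 2) (c := 3) (cn := .npn) (n1 := ndB1q1) (n2 := ndB1q2b) (pc := pcB3) (cut := Cut.none) (xt := Ext.none) (P1 := 536870912) (W1 := 536870912) (P2 := 1239849684) (W2 := 370763052) (P3 := 780900216) (W3 := 37827925) (N0 := 3) (En := eng) (mo := mog) (C1 := cd1q1) (C2 := cd1q2b) (C3 := pd3)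
    rfl k0_pp_123_b

noncomputable def f_pp_133 : ℕ → ℕ → ℕ → ℕ → Bool := onCell 536870912 536870912 1610612736 536870912 780900216 37827925
    (rowB 3 eng mog cd1q1 cd1q3 pd3 0 true true true .dn 1 3 3 (qsf 536870912 536870912 1610612736 536870912 3) ndB1q1 ndB1q3 pcB3 Cut.none Ext.none)

def k0_pp_133 : ∃ t, chk3 f_pp_133 t 1 1 1 = true :=
  ⟨(l 4), by decide +kernel⟩

theorem c_pp_133 : CertB 536870912 536870912 1610612736 536870912 780900216 37827925 3 eng mog cd1q1 cd1q3 pd3 true true true .dn 1 3 3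
    ndB1q1 ndB1q3 pcB3 Cut.none Ext.none :=
  certB0 (fam := true) (s1 := true) (s2 := true) (a := 1) (b := 3) (c := 3) (cn := .dn) (n1 := ndB1q1) (n2 := ndB1q3) (pc := pcB3) (cut := Cut.none) (xt := Ext.none) (P1 := 536870912) (W1 := 536870912) (P2 := 1610612736) (W2 := 536870912) (P3 := 780900216) (W3 := 37827925) (N0 := 3) (En := eng) (mo := mog) (C1 := cd1q1) (C2 := cd1q3) (C3 := pd3)
    rfl k0_pp_133

noncomputable def f_pp_202_a : ℕ → ℕ → ℕ → ℕ → Bool := onCell 0 536870912 0 536870912 780900216 37827925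
    (rowB 3 eng mog cd1q2a cd1q0 pd2 0 true true true .pp 2 0 2 (qsf 0 536870912 0 536870912 2) ndB1q2a ndB1q0 pcB2 Cut.none Ext.none)

def k0_pp_202_a : ∃ t, chk3 f_pp_202_a t 1 1 1 = true :=
  ⟨(l 5), by decide +kernel⟩

theorem c_pp_202_a : CertB 0 536870912 0 536870912 780900216 37827925 3 eng mog cd1q2a cd1q0 pd2 true true true .pp 2 0 2
    ndB1q2a ndB1q0 pcB2 Cut.none Ext.none :=
  certB0 (fam := true) (s1 := true) (s2 := true) (a := 2) (b := 0) (c := 2) (cn := .pp) (n1 := ndB1q2a) (n2 := ndB1q0) (pc := pcB2) (cut := Cut.none) (xt := Ext.none) (P1 := 0) (W1 := 536870912) (P2 := 0) (W2 := 536870912) (P3 := 780900216) (W3 := 37827925) (N0 := 3) (En := eng) (mo := mog) (C1 := cd1q2a) (C2 := cd1q0) (C3 := pd2)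
    rfl k0_pp_202_a

noncomputable def f_pp_202_b : ℕ → ℕ → ℕ → ℕ → Bool := onCell 1239849684 370763052 0 536870912 780900216 37827925
    (rowB 3 eng mog cd1q2b cd1q0 pd2 0 true true true .pp 2 0 2 (qsf 1239849684 370763052 0 536870912 2) ndB1q2b ndB1q0 pcB2 Cut.none Ext.none)

def k0_pp_202_b : ∃ t, chk3 f_pp_202_b t 1 1 1 = true :=
  ⟨(l 5), by decide +kernel⟩

theorem c_pp_202_b : CertB 1239849684 370763052 0 536870912 780900216 37827925 3 eng mog cd1q2b cd1q0 pd2 true true true .pp 2 0 2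
    ndB1q2b ndB1q0 pcB2 Cut.none Ext.none :=
  certB0 (fam := true) (s1 := true) (s2 := true) (a := 2) (b := 0) (c := 2) (cn := .pp) (n1 := ndB1q2b) (n2 := ndB1q0) (pc := pcB2) (cut := Cut.none) (xt := Ext.none) (P1 := 1239849684) (W1 := 370763052) (P2 := 0) (W2 := 536870912) (P3 := 780900216) (W3 := 37827925) (N0 := 3) (En := eng) (mo := mog) (C1 := cd1q2b) (C2 := cd1q0) (C3 := pd2)
    rfl k0_pp_202_b

noncomputable def f_pp_203_a : ℕ → ℕ → ℕ → ℕ → Bool := onCell 0 536870912 0 536870912 780900216 37827925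
    (rowB 3 eng mog cd1q2a cd1q0 pd3 0 true true true .up 2 0 3 (qsf 0 536870912 0 536870912 3) ndB1q2a ndB1q0 pcB3 Cut.none Ext.none)

def k0_pp_203_a : ∃ t, chk3 f_pp_203_a t 1 1 1 = true :=
  ⟨(l 5), by decide +kernel⟩

theorem c_pp_203_a : CertB 0 536870912 0 536870912 780900216 37827925 3 eng mog cd1q2a cd1q0 pd3 true true true .up 2 0 3
    ndB1q2a ndB1q0 pcB3 Cut.none Ext.none :=
  certB0 (fam := true) (s1 := true) (s2 := true) (a := 2) (b := 0) (c := 3) (cn := .up) (n1 := ndB1q2a) (n2 := ndB1q0) (pc := pcB3) (cut := Cut.none) (xt := Ext.none) (P1 := 0) (W1 := 536870912) (P2 := 0) (W2 := 536870912) (P3 := 780900216) (W3 := 37827925) (N0 := 3) (En := eng) (mo := mog) (C1 := cd1q2a) (C2 := cd1q0) (C3 := pd3)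
    rfl k0_pp_203_a

noncomputable def f_pp_203_b : ℕ → ℕ → ℕ → ℕ → Bool := onCell 1239849684 370763052 0 536870912 780900216 37827925
    (rowB 3 eng mog cd1q2b cd1q0 pd3 0 true true true .up 2 0 3 (qsf 1239849684 370763052 0 536870912 3) ndB1q2b ndB1q0 pcB3 Cut.none Ext.none)

def k0_pp_203_b : ∃ t, chk3 f_pp_203_b t 1 1 1 = true :=
  ⟨(l 5), by decide +kernel⟩

theorem c_pp_203_b : CertB 1239849684 370763052 0 536870912 780900216 37827925 3 eng mog cd1q2b cd1q0 pd3 true true true .up 2 0 3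
    ndB1q2b ndB1q0 pcB3 Cut.none Ext.none :=
  certB0 (fam := true) (s1 := true) (s2 := true) (a := 2) (b := 0) (c := 3) (cn := .up) (n1 := ndB1q2b) (n2 := ndB1q0) (pc := pcB3) (cut := Cut.none) (xt := Ext.none) (P1 := 1239849684) (W1 := 370763052) (P2 := 0) (W2 := 536870912) (P3 := 780900216) (W3 := 37827925) (N0 := 3) (En := eng) (mo := mog) (C1 := cd1q2b) (C2 := cd1q0) (C3 := pd3)
    rfl k0_pp_203_b

noncomputable def f_pp_213_a : ℕ → ℕ → ℕ → ℕ → Bool := onCell 0 536870912 536870912 536870912 780900216 37827925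
    (rowB 3 eng mog cd1q2a cd1q1 pd3 0 true true true .pnn 2 1 3 (qsf 0 536870912 536870912 536870912 3) ndB1q2a ndB1q1 pcB3 Cut.none Ext.none)

def k0_pp_213_a : ∃ t, chk3 f_pp_213_a t 1 1 1 = true :=
  ⟨(l 4), by decide +kernel⟩

theorem c_pp_213_a : CertB 0 536870912 536870912 536870912 780900216 37827925 3 eng mog cd1q2a cd1q1 pd3 true true true .pnn 2 1 3
    ndB1q2a ndB1q1 pcB3 Cut.none Ext.none :=
  certB0 (fam := true) (s1 := true) (s2 := true) (a := 2) (b := 1) (c := 3) (cn := .pnn) (n1 := ndB1q2a) (n2 := ndB1q1) (pc := pcB3) (cut := Cut.none) (xt := Ext.none) (P1 := 0) (W1 := 536870912) (P2 := 536870912) (W2 := 536870912) (P3 := 780900216) (W3 := 37827925) (N0 := 3) (En := eng) (mo := mog) (C1 := cd1q2a) (C2 := cd1q1) (C3 := pd3)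
    rfl k0_pp_213_a

noncomputable def f_pp_213_b : ℕ → ℕ → ℕ → ℕ → Bool := onCell 1239849684 370763052 536870912 536870912 780900216 37827925
    (rowB 3 eng mog cd1q2b cd1q1 pd3 0 true true true .pnn 2 1 3 (qsf 1239849684 370763052 536870912 536870912 3) ndB1q2b ndB1q1 pcB3 Cut.none Ext.none)

def k0_pp_213_b : ∃ t, chk3 f_pp_213_b t 1 1 1 = true :=
  ⟨(l 5), by decide +kernel⟩

theorem c_pp_213_b : CertB 1239849684 370763052 536870912 536870912 780900216 37827925 3 eng mog cd1q2b cd1q1 pd3 true true true .pnn 2 1 3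
    ndB1q2b ndB1q1 pcB3 Cut.none Ext.none :=
  certB0 (fam := true) (s1 := true) (s2 := true) (a := 2) (b := 1) (c := 3) (cn := .pnn) (n1 := ndB1q2b) (n2 := ndB1q1) (pc := pcB3) (cut := Cut.none) (xt := Ext.none) (P1 := 1239849684) (W1 := 370763052) (P2 := 536870912) (W2 := 536870912) (P3 := 780900216) (W3 := 37827925) (N0 := 3) (En := eng) (mo := mog) (C1 := cd1q2b) (C2 := cd1q1) (C3 := pd3)
    rfl k0_pp_213_b

noncomputable def f_pp_303 : ℕ → ℕ → ℕ → ℕ → Bool := onCell 1610612736 536870912 0 536870912 780900216 37827925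
    (rowB 3 eng mog cd1q3 cd1q0 pd3 0 true true true .npn 3 0 3 (qsf 1610612736 536870912 0 536870912 3) ndB1q3 ndB1q0 pcB3 Cut.none Ext.none)

def k0_pp_303 : ∃ t, chk3 f_pp_303 t 1 1 1 = true :=
  ⟨(l 5), by decide +kernel⟩

theorem c_pp_303 : CertB 1610612736 536870912 0 536870912 780900216 37827925 3 eng mog cd1q3 cd1q0 pd3 true true true .npn 3 0 3
    ndB1q3 ndB1q0 pcB3 Cut.none Ext.none :=
  certB0 (fam := true) (s1 := true) (s2 := true) (a := 3) (b := 0) (c := 3) (cn := .npn) (n1 := ndB1q3) (n2 := ndB1q0) (pc := pcB3) (cut := Cut.none) (xt := Ext.none) (P1 := 1610612736) (W1 := 536870912) (P2 := 0) (W2 := 536870912) (P3 := 780900216) (W3 := 37827925) (N0 := 3) (En := eng) (mo := mog) (C1 := cd1q3) (C2 := cd1q0) (C3 := pd3)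
    rfl k0_pp_303

noncomputable def f_pp_313 : ℕ → ℕ → ℕ → ℕ → Bool := onCell 1610612736 536870912 536870912 536870912 780900216 37827925
    (rowB 3 eng mog cd1q3 cd1q1 pd3 0 true true true .dn 3 1 3 (qsf 1610612736 536870912 536870912 536870912 3) ndB1q3 ndB1q1 pcB3 Cut.none Ext.none)

def k0_pp_313 : ∃ t, chk3 f_pp_313 t 1 1 1 = true :=
  ⟨(l 4), by decide +kernel⟩

theorem c_pp_313 : CertB 1610612736 536870912 536870912 536870912 780900216 37827925 3 eng mog cd1q3 cd1q1 pd3 true true true .dn 3 1 3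
    ndB1q3 ndB1q1 pcB3 Cut.none Ext.none :=
  certB0 (fam := true) (s1 := true) (s2 := true) (a := 3) (b := 1) (c := 3) (cn := .dn) (n1 := ndB1q3) (n2 := ndB1q1) (pc := pcB3) (cut := Cut.none) (xt := Ext.none) (P1 := 1610612736) (W1 := 536870912) (P2 := 536870912) (W2 := 536870912) (P3 := 780900216) (W3 := 37827925) (N0 := 3) (En := eng) (mo := mog) (C1 := cd1q3) (C2 := cd1q1) (C3 := pd3)
    rfl k0_pp_313

noncomputable def f_pm_001 : ℕ → ℕ → ℕ → ℕ → Bool := onCell 0 536870912 0 536870912 780900216 37827925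
    (rowB 3 eng mog cd1q0 cd1q0 pd1 0 true true false .up 0 0 1 (qsf 0 536870912 0 536870912 1) ndB1q0 ndB1q0 pcB1 Cut.none Ext.none)

def k0_pm_001 : ∃ t, chk3 f_pm_001 t 1 1 1 = true :=
  ⟨(l 3), by decide +kernel⟩

theorem c_pm_001 : CertB 0 536870912 0 536870912 780900216 37827925 3 eng mog cd1q0 cd1q0 pd1 true true false .up 0 0 1
    ndB1q0 ndB1q0 pcB1 Cut.none Ext.none :=
  certB0 (fam := true) (s1 := true) (s2 := false) (a := 0) (b := 0) (c := 1) (cn := .up) (n1 := ndB1q0) (n2 := ndB1q0) (pc := pcB1) (cut := Cut.none) (xt := Ext.none) (P1 := 0) (W1 := 536870912) (P2 := 0) (W2 := 536870912) (P3 := 780900216) (W3 := 37827925) (N0 := 3) (En := eng) (mo := mog) (C1 := cd1q0) (C2 := cd1q0) (C3 := pd1)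
    rfl k0_pm_001

noncomputable def f_pm_011 : ℕ → ℕ → ℕ → ℕ → Bool := onCell 0 536870912 536870912 536870912 780900216 37827925
    (rowB 3 eng mog cd1q0 cd1q1 pd1 1 true true false .pnn 0 1 1 (qsf 0 536870912 536870912 536870912 1) ndB1q0 ndB1q1 pcB1 Cut.none Ext.none)

def k0_pm_011 : ∃ t, chk3 f_pm_011 t 1 1 1 = true :=
  ⟨(l 3), by decide +kernel⟩

theorem c_pm_011 : CertB 0 536870912 536870912 536870912 780900216 37827925 3 eng mog cd1q0 cd1q1 pd1 true true false .pnn 0 1 1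
    ndB1q0 ndB1q1 pcB1 Cut.none Ext.none :=
  certB1 (fam := true) (s1 := true) (s2 := false) (a := 0) (b := 1) (c := 1) (cn := .pnn) (n1 := ndB1q0) (n2 := ndB1q1) (pc := pcB1) (cut := Cut.none) (xt := Ext.none) (P1 := 0) (W1 := 536870912) (P2 := 536870912) (W2 := 536870912) (P3 := 780900216) (W3 := 37827925) (N0 := 3) (En := eng) (mo := mog) (C1 := cd1q0) (C2 := cd1q1) (C3 := pd1)
    rfl (fun _ => rfl) k0_pm_011

noncomputable def f_pm_012 : ℕ → ℕ → ℕ → ℕ → Bool := onCell 1073741824 536870912 536870912 536870912 780900216 37827925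
    (rowB 3 eng mog cd1q0 cd1q1 pd2 2 true true false .pnp 0 1 2 (qsf 0 536870912 536870912 536870912 2) ndB1q0 ndB1q1 pcB2 Cut.none Ext.none)

def k0_pm_012 : ∃ t, chk3 f_pm_012 t 2 1 1 = true :=
  ⟨(a (a (l 3) (b (l 3) (b (l 3) (a (b (l 3) (a (l 3) (b (l 3) (a (l 3) (b (l 3) (l 254107531255)))))) (b (a (l 3) (a (l 133848401847) (l 16632552))) (a (b (b (l 158544590023) (l 174113842039)) (a (b (l 16668320) (l 16654696)) (b (l 16652952) (l 16647600)))) (a (b (l 16644776) (l 16684432)) (b (l 16632032) (l 16631784))))))))) (a (b (a (a (l 3) (b (l 2) (b (a (l 3) (a (l 16633656) (a (l 16630680) (l 16628712)))) (a (l 16646000) (a (l 16617736) (a (l 16614072) (l 16611656))))))) (b (l 2) (b (l 16612784) (l 16591704)))) (a (a (b (b (a (l 3) (l 16623656)) (a (l 16647344) (l 16612880))) (b (a (b (l 16619400) (l 16617520)) (b (l 16606032) (l 16582752))) (b (a (l 16618512) (l 16607360)) (a (l 16623672) (l 16613312))))) (a (b (b (l 16695904) (a (l 16603528) (l 16597240)))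 (b (b (l 16676864) (l 16592320)) (b (l 16595072) (l 16599168)))) (b (a (b (l 16603568) (l 16591248)) (b (a (l 16599384) (l 16596696)) (l 16585608))) (b (a (l 16583640) (b (l 16578144) (a (l 16578352) (l 16574224)))) (b (a (l 16584584) (l 16572696)) (a (l 16584344) (l 16568992))))))) (b (b (l 16572904) (l 16598872)) (b (b (l 16548120) (l 16543536)) (b (l 16536408) (l 16530304)))))) (b (b (l 2) (b (l 16575784) (l 16669176))) (b (b (a (l 16531952) (l 16496328)) (a (l 16509408) (l 16467000))) (b (b (a (l 16496720) (l 16449936)) (a (l 16489952) (l 16440888))) (b (a (l 16480792) (l 16429912)) (a (l 16514856) (l 16420272)))))))), by decide +kernel⟩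

def k1_pm_012 : ∃ t, chk3 f_pm_012 t 3 1 1 = true :=
  ⟨(b (a (b (l 2) (a (b (l 2) (l 16497984)) (l 2))) (l 2)) (b (a (b (a (l 16516048) (l 16415368)) (a (a (l 16429800) (l 16397920)) (l 16360344))) (a (b (l 2) (l 16330200)) (l 2))) (a (b (a (b (l 16388944) (a (l 16396464) (l 16356912))) (b (l 16325464) (l 16306888))) (a (b (a (l 16383688) (l 16342224)) (a (l 16372440) (l 16329344))) (b (l 16289432) (l 16336832)))) (b (a (b (l 16283320) (l 16258024)) (l 16289136)) (a (b (l 16236880) (l 16218008)) (b (l 16205160) (l 16183224))))))), by decide +kernel⟩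

theorem s2_pm_012 : ∃ t, chk3 f_pm_012 t 1 1 1 = true := ex3_a k0_pm_012 k1_pm_012

theorem c_pm_012 : CertB 0 536870912 536870912 536870912 780900216 37827925 3 eng mog cd1q0 cd1q1 pd2 true true false .pnp 0 1 2
    ndB1q0 ndB1q1 pcB2 Cut.none Ext.none :=
  certB2 (fam := true) (s1 := true) (s2 := false) (a := 0) (b := 1) (c := 2) (cn := .pnp) (n1 := ndB1q0) (n2 := ndB1q1) (pc := pcB2) (cut := Cut.none) (xt := Ext.none) (P1 := 0) (W1 := 536870912) (P2 := 536870912) (W2 := 536870912) (P3 := 780900216) (W3 := 37827925) (N0 := 3) (En := eng) (mo := mog) (C1 := cd1q0) (C2 := cd1q1) (C3 := pd2)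
    rfl (fun _ => rfl) s2_pm_012

noncomputable def cut_pm_022_a : Cut := Cut.of [[⟨0, 0, 0, 67108864⟩, ⟨1, 1, 0, 67108864⟩, ⟨2, 1, 0, 67108864⟩]]

noncomputable def f_pm_022_a : ℕ → ℕ → ℕ → ℕ → Bool := onCell 1073741824 536870912 0 536870912 780900216 37827925
    (rowB 3 eng mog cd1q0 cd1q2a pd2 2 true true false .pp 0 2 2 (qsf 0 536870912 0 536870912 2) ndB1q0 ndB1q2a pcB2 cut_pm_022_a Ext.none)

def k0_pm_022_a : ∃ t, chk3 f_pm_022_a t 2 2 1 = true :=
  ⟨(a (a (l 1) (b (l 1) (a (l 1) (b (l 1) (a (l 1) (b (l 1) (l 16425408))))))) (a (b (a (a (l 1) (b (l 16348368) (l 16354728))) (b (l 16366160) (a (l 16365672) (l 16374800)))) (a (b (a (l 16389944) (b (l 16370360) (l 16387016))) (a (b (l 16401232) (l 16429328)) (b (l 16408248) (l 16434032)))) (b (a (l 16387520) (l 16394904)) (b (l 16417296) (l 16440440))))) (b (a (b (a (l 16381728) (l 16392264)) (a (l 16384152) (l 16393600))) (b (l 16406224) (l 16406336))) (a (b (a (l 16402488) (l 16410176)) (a (l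 16436528) (l 16441576))) (b (l 16420792) (l 16344416)))))), by decide +kernel⟩

def k1_pm_022_a : ∃ t, chk3 f_pm_022_a t 4 3 1 = true :=
  ⟨(a (b (l 1) (a (b (l 1) (l 6)) (a (b (b (l 1) (l 6)) (l 6)) (a (b (b (l 1) (l 6)) (l 6)) (b (b (b (l 1) (a (b (l 1) (l 6)) (b (l 168610690231) (l 16611392)))) (a (l 6) (b (l 16650568) (l 16633352)))) (b (a (l 6) (l 16643488)) (b (l 16677304) (l 16687792)))))))) (b (a (b (l 1) (a (b (l 1) (a (l 1) (b (l 16534904) (a (l 16558200) (l 16560088))))) (b (a (l 80563710023) (b (l 16503232) (l 16523560))) (a (b (l 126734658071) (l 16563088)) (b (l 16544952) (l 16567360)))))) (b (a (b (a (l 1) (l 84858585527)) (a (l 126734531463) (b (l 16482376) (l 16499152)))) (b (a (l 16481032) (l 16460808)) (b (l 16486304) (l 16502480)))) (a (b (a (b (l 16510144) (l 16529712)) (l 16547512)) (a (l 16582184) (b (l 16555704) (l 16576456)))) (b (l 16507864) (l 16566896))))) (b (a (a (a (b (b (a (l 99354331159) (l 141767116503)) (b (a (l 16600976)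 (l 16601728)) (l 16612928))) (b (b (l 16624664) (l 16636544)) (l 16654672))) (b (b (a (l 16583736) (l 16585120)) (l 16629680)) (c (l 16583216) (l 16597488)))) (b (b (a (l 16587392) (l 16590720)) (a (l 16610720) (l 16613128))) (a (l 16622544) (l 16644568)))) (b (a (a (l 16584240) (l 16608512)) (l 16607328)) (a (a (l 16636840) (l 16623712)) (l 16609512)))) (a (b (a (a (c (l 16674304) (l 16678208)) (l 16622864)) (b (l 16649680) (l 16643328))) (a (b (a (l 16664224) (l 16653088)) (a (l 16653776) (l 16642800))) (b (l 16635144) (a (l 16631104) (l 16618784))))) (b (a (a (l 16627464) (l 16603744)) (l 16599184)) (a (a (l 16590152) (b (l 16602688) (l 16592544))) (b (l 16586872) (l 16575800)))))))), by decide +kernel⟩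

def k2_pm_022_a : ∃ t, chk3 f_pm_022_a t 5 3 1 = true :=
  ⟨(a (b (a (a (b (b (l 16461968) (l 16477640)) (b (l 16529016) (l 16565352))) (b (b (l 16464248) (a (l 16496680) (a (l 16496936) (a (l 16497016) (l 16496904))))) (a (l 16547280) (a (l 16547224) (b (l 16529080) (l 16564320)))))) (b (b (l 16467584) (l 16497168)) (l 16545192))) (a (a (b (b (l 16599640) (l 16592288)) (b (l 16580104) (b (l 16565960) (l 16553696)))) (b (a (l 16583816) (b (l 16578520) (l 16568144))) (a (b (l 16564648) (l 16542704)) (a (b (l 16555992) (l 16533176)) (b (l 16549216) (a (l 16527480) (l 16523448))))))) (b (b (l 16560776) (l 16547808)) (b (l 16529608) (b (l 16510720) (l 16494752)))))) (a (b (b (a (l 16484688) (l 16444440)) (l 16603864)) (b (b (l 16534984) (l 16518632)) (b (a (l 16504928) (l 16487320)) (a (l 16473984) (l 16455144))))) (b (b (l 16489880) (l 16535336)) (b (b (l 16508456) (l 16488064)) (b (l 16462112) (l 16428680)))))), by decide +kernel⟩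

def k3_pm_022_a : ∃ t, chk3 f_pm_022_a t 3 1 1 = true :=
  ⟨(b (a (b (a (a (b (l 16425608) (l 16424464)) (b (l 16447472) (l 16444832))) (a (b (l 16473752) (l 16470184)) (l 16501344))) (a (a (b (l 16457584) (a (l 16457944) (l 16464024))) (b (l 16370960) (l 16476448))) (a (b (l 16478056) (l 16494736)) (b (l 16500848) (l 16510368))))) (b (a (a (l 16527584) (l 16549304)) (a (l 16563824) (l 16578336))) (a (a (l 16522704) (l 16526480)) (b (l 16545352) (l 16522648))))) (a (b (a (a (b (b (l 16485784) (l 16505384)) (l 16514096)) (b (l 16506320) (l 16494088))) (b (a (l 16508152) (l 16498288)) (a (l 16476792) (l 16463000)))) (b (a (b (a (l 16482016) (l 16458640)) (a (l 16459408) (l 16434280))) (b (a (l 16438768) (l 16422600)) (l 16487192))) (a (a (b (l 16431664) (l 16396728)) (b (l 16404936) (l 16368648))) (b (a (l 16381920) (l 16362640)) (a (l 16344384) (l 16324128)))))) (b (a (b (l 16489304) (a (l 16452416) (l 16445168))) (b (l 16488256) (l 16440872))) (a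 (a (b (a (l 16398608) (l 16392808)) (l 16370160)) (b (l 16532632) (l 16316704))) (b (b (l 16393128) (l 16403952)) (a (l 16309432) (l 16306448))))))), by decide +kernel⟩

theorem s4_pm_022_a : ∃ t, chk3 f_pm_022_a t 2 3 1 = true := ex3_a k1_pm_022_a k2_pm_022_a

theorem s5_pm_022_a : ∃ t, chk3 f_pm_022_a t 2 1 1 = true := ex3_b k0_pm_022_a s4_pm_022_a

theorem s6_pm_022_a : ∃ t, chk3 f_pm_022_a t 1 1 1 = true := ex3_a s5_pm_022_a k3_pm_022_a

theorem c_pm_022_a : CertB 0 536870912 0 536870912 780900216 37827925 3 eng mog cd1q0 cd1q2a pd2 true true false .pp 0 2 2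
    ndB1q0 ndB1q2a pcB2 cut_pm_022_a Ext.none :=
  certB2 (fam := true) (s1 := true) (s2 := false) (a := 0) (b := 2) (c := 2) (cn := .pp) (n1 := ndB1q0) (n2 := ndB1q2a) (pc := pcB2) (cut := cut_pm_022_a) (xt := Ext.none) (P1 := 0) (W1 := 536870912) (P2 := 0) (W2 := 536870912) (P3 := 780900216) (W3 := 37827925) (N0 := 3) (En := eng) (mo := mog) (C1 := cd1q0) (C2 := cd1q2a) (C3 := pd2)
    rfl (fun _ => rfl) s6_pm_022_a

noncomputable def cut_pm_022_b : Cut := Cut.of [[⟨0, 0, 0, 67108864⟩, ⟨1, 1, 0, 67108864⟩, ⟨2, 1, 0, 67108864⟩]]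

noncomputable def f_pm_022_b : ℕ → ℕ → ℕ → ℕ → Bool := onCell 0 536870912 1073741824 536870912 780900216 37827925
    (rowB 3 eng mog cd1q0 cd1q2b pd2 1 true true false .pp 0 2 2 (qsf 0 536870912 1239849684 370763052 2) ndB1q0 ndB1q2b pcB2 cut_pm_022_b Ext.none)

def k0_pm_022_b : ∃ t, chk3 f_pm_022_b t 1 1 1 = true :=
  ⟨(b (a (b (l 1) (a (b (a (b (a (b (l 1) (a (l 16401656) (l 1))) (l 1)) (a (a (l 16336240) (l 16391368)) (b (l 1) (l 16491904)))) (l 1)) (a (b (b (a (l 16299360) (l 16406720)) (a (l 16258496) (l 16365328))) (a (l 16219440) (l 16304304))) (a (b (b (l 1) (l 16530520)) (l 16510712)) (b (l 1) (l 16502824))))) (l 1))) (l 1)) (b (a (a (b (b (a (a (l 16124536) (l 16228944)) (a (l 16329408) (l 16509672))) (a (a (l 16058016) (l 16160856)) (a (l 16260112) (l 16355664)))) (a (a (b (l 15998688) (l 15946328)) (l 16071952)) (b (l 16287640) (l 16189472)))) (b (a (a (b (l 16518672) (l 16448416)) (b (l 1) (l 16538224))) (l 1)) (a (a (l 16564808) (b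 (l 16474936) (l 16417560))) (b (l 236256058295) (a (l 16505504) (l 16575288)))))) (l 1)) (a (a (b (a (b (l 15950104) (l 15909688)) (b (l 16139592) (l 16096256))) (a (b (l 15875512) (l 15846992)) (l 16042056))) (b (a (b (l 16384480) (l 16276176)) (b (l 16495528) (l 16450512))) (a (l 16260464) (l 16392272)))) (a (b (a (b (l 288869527191) (l 243235525031)) (l 1)) (a (b (l 16552992) (l 16521792)) (l 312491955783))) (l 1))))), by decide +kernel⟩

theorem c_pm_022_b : CertB 0 536870912 1239849684 370763052 780900216 37827925 3 eng mog cd1q0 cd1q2b pd2 true true false .pp 0 2 2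
    ndB1q0 ndB1q2b pcB2 cut_pm_022_b Ext.none :=
  certB1 (fam := true) (s1 := true) (s2 := false) (a := 0) (b := 2) (c := 2) (cn := .pp) (n1 := ndB1q0) (n2 := ndB1q2b) (pc := pcB2) (cut := cut_pm_022_b) (xt := Ext.none) (P1 := 0) (W1 := 536870912) (P2 := 1239849684) (W2 := 370763052) (P3 := 780900216) (W3 := 37827925) (N0 := 3) (En := eng) (mo := mog) (C1 := cd1q0) (C2 := cd1q2b) (C3 := pd2)
    rfl (fun _ => rfl) k0_pm_022_b

noncomputable def f_pm_023_a : ℕ → ℕ → ℕ → ℕ → Bool := onCell 1610612736 536870912 0 536870912 780900216 37827925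
    (rowB 3 eng mog cd1q0 cd1q2a pd3 2 true true false .up 0 2 3 (qsf 0 536870912 0 536870912 3) ndB1q0 ndB1q2a pcB3 Cut.none Ext.none)

def k0_pm_023_a : ∃ t, chk3 f_pm_023_a t 1 1 1 = true :=
  ⟨(a (a (b (a (b (a (l 16595720) (l 16614296)) (a (l 16553464) (l 16564744))) (b (l 16642920) (l 16566016))) (b (a (b (l 16502312) (l 16448960)) (b (l 16524400) (l 16470032))) (a (a (b (l 16380280) (l 16433808)) (b (l 16385480) (l 16315544))) (b (l 16468056) (l 2))))) (b (a (b (l 16682888) (l 16624840)) (l 2)) (b (l 2) (l 2)))) (l 2)), by decide +kernel⟩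

theorem c_pm_023_a : CertB 0 536870912 0 536870912 780900216 37827925 3 eng mog cd1q0 cd1q2a pd3 true true false .up 0 2 3
    ndB1q0 ndB1q2a pcB3 Cut.none Ext.none :=
  certB2 (fam := true) (s1 := true) (s2 := false) (a := 0) (b := 2) (c := 3) (cn := .up) (n1 := ndB1q0) (n2 := ndB1q2a) (pc := pcB3) (cut := Cut.none) (xt := Ext.none) (P1 := 0) (W1 := 536870912) (P2 := 0) (W2 := 536870912) (P3 := 780900216) (W3 := 37827925) (N0 := 3) (En := eng) (mo := mog) (C1 := cd1q0) (C2 := cd1q2a) (C3 := pd3)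
    rfl (fun _ => rfl) k0_pm_023_a

noncomputable def f_pm_023_b : ℕ → ℕ → ℕ → ℕ → Bool := onCell 1610612736 536870912 1239849684 370763052 780900216 37827925
    (rowB 3 eng mog cd1q0 cd1q2b pd3 2 true true false .up 0 2 3 (qsf 0 536870912 1239849684 370763052 3) ndB1q0 ndB1q2b pcB3 Cut.none Ext.none)

def k0_pm_023_b : ∃ t, chk3 f_pm_023_b t 1 1 1 = true :=
  ⟨(a (a (b (a (b (a (l 16555376) (l 16587688)) (l 16458240)) (b (l 16732176) (l 16496104))) (a (b (a (l 16136752) (l 16202720)) (a (l 15901408) (l 15969600))) (b (l 16299808) (l 16284808)))) (a (b (b (l 16685016) (l 16582416)) (b (l 16420712) (l 16324240))) (b (b (l 16985688) (l 16657648)) (b (l 4) (l 4))))) (a (l 4) (l 4))), by decide +kernel⟩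

theorem c_pm_023_b : CertB 0 536870912 1239849684 370763052 780900216 37827925 3 eng mog cd1q0 cd1q2b pd3 true true false .up 0 2 3
    ndB1q0 ndB1q2b pcB3 Cut.none Ext.none :=
  certB2 (fam := true) (s1 := true) (s2 := false) (a := 0) (b := 2) (c := 3) (cn := .up) (n1 := ndB1q0) (n2 := ndB1q2b) (pc := pcB3) (cut := Cut.none) (xt := Ext.none) (P1 := 0) (W1 := 536870912) (P2 := 1239849684) (W2 := 370763052) (P3 := 780900216) (W3 := 37827925) (N0 := 3) (En := eng) (mo := mog) (C1 := cd1q0) (C2 := cd1q2b) (C3 := pd3)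
    rfl (fun _ => rfl) k0_pm_023_b

noncomputable def f_pm_033 : ℕ → ℕ → ℕ → ℕ → Bool := onCell 0 536870912 1610612736 536870912 780900216 37827925
    (rowB 3 eng mog cd1q0 cd1q3 pd3 1 true true false .pnn 0 3 3 (qsf 0 536870912 1610612736 536870912 3) ndB1q0 ndB1q3 pcB3 Cut.none Ext.none)

def k0_pm_033 : ∃ t, chk3 f_pm_033 t 1 1 1 = true :=
  ⟨(b (b (a (a (b (a (l 15809152) (l 15978888)) (a (l 15774728) (l 15939808))) (b (l 1) (l 16297080))) (l 1)) (a (b (a (b (l 15847184) (l 15850584)) (l 16163720)) (l 4)) (b (l 1) (a (l 4) (l 1))))) (l 4)), by decide +kernel⟩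

theorem c_pm_033 : CertB 0 536870912 1610612736 536870912 780900216 37827925 3 eng mog cd1q0 cd1q3 pd3 true true false .pnn 0 3 3
    ndB1q0 ndB1q3 pcB3 Cut.none Ext.none :=
  certB1 (fam := true) (s1 := true) (s2 := false) (a := 0) (b := 3) (c := 3) (cn := .pnn) (n1 := ndB1q0) (n2 := ndB1q3) (pc := pcB3) (cut := Cut.none) (xt := Ext.none) (P1 := 0) (W1 := 536870912) (P2 := 1610612736) (W2 := 536870912) (P3 := 780900216) (W3 := 37827925) (N0 := 3) (En := eng) (mo := mog) (C1 := cd1q0) (C2 := cd1q3) (C3 := pd3)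
    rfl (fun _ => rfl) k0_pm_033

noncomputable def f_pm_101 : ℕ → ℕ → ℕ → ℕ → Bool := onCell 536870912 536870912 0 536870912 780900216 37827925
    (rowB 3 eng mog cd1q1 cd1q0 pd1 2 true true false .npn 1 0 1 (qsf 536870912 536870912 0 536870912 1) ndB1q1 ndB1q0 pcB1 Cut.none Ext.none)

def k0_pm_101 : ∃ t, chk3 f_pm_101 t 1 1 1 = true :=
  ⟨(l 3), by decide +kernel⟩

theorem c_pm_101 : CertB 536870912 536870912 0 536870912 780900216 37827925 3 eng mog cd1q1 cd1q0 pd1 true true false .npn 1 0 1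
    ndB1q1 ndB1q0 pcB1 Cut.none Ext.none :=
  certB2 (fam := true) (s1 := true) (s2 := false) (a := 1) (b := 0) (c := 1) (cn := .npn) (n1 := ndB1q1) (n2 := ndB1q0) (pc := pcB1) (cut := Cut.none) (xt := Ext.none) (P1 := 536870912) (W1 := 536870912) (P2 := 0) (W2 := 536870912) (P3 := 780900216) (W3 := 37827925) (N0 := 3) (En := eng) (mo := mog) (C1 := cd1q1) (C2 := cd1q0) (C3 := pd1)
    rfl (fun _ => rfl) k0_pm_101

noncomputable def f_pm_102 : ℕ → ℕ → ℕ → ℕ → Bool := onCell 536870912 536870912 1073741824 536870912 780900216 37827925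
    (rowB 3 eng mog cd1q1 cd1q0 pd2 1 true true false .npp 1 0 2 (qsf 536870912 536870912 0 536870912 2) ndB1q1 ndB1q0 pcB2 Cut.none Ext.none)

def k0_pm_102 : ∃ t, chk3 f_pm_102 t 1 2 1 = true :=
  ⟨(b (b (l 3) (a (l 3) (a (l 3) (b (a (l 3) (b (l 3) (a (l 3) (b (l 3) (a (l 3) (l 254107531255)))))) (a (b (l 3) (b (l 133848401847) (l 16632552))) (b (a (a (l 158544590023) (l 174113842039)) (b (a (l 16668320) (l 16654696)) (a (l 16652952) (l 16647600)))) (a (b (l 16644776) (l 16632032)) (b (l 16684432) (l 16631784))))))))) (b (a (b (b (l 3) (a (l 2) (a (b (l 3) (b (l 16633656) (b (l 16630680) (l 16628712)))) (b (l 16646000) (b (l 16617736) (b (l 16614072) (l 16611656))))))) (a (l 2) (a (l 16612784) (l 16591704)))) (b (b (a (a (b (l 3) (l 16623656)) (b (l 16647344) (l 16633848))) (a (b (a (l 16619400) (l 16617520)) (a (l 16606032) (l 16582752))) (a (b (l 16618512) (l 16607360)) (b (l 16623672) (l 16613312))))) (b (a (a (l 16695904) (b (l 16603528) (l 16597240)))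 (a (a (l 16676864) (l 16592320)) (a (l 16595072) (l 16599168)))) (a (b (a (l 16603568) (l 16591248)) (a (b (l 16599384) (l 16596696)) (l 16585608))) (a (b (l 16583640) (a (l 16578144) (b (l 16578352) (l 16574224)))) (a (b (l 16584584) (l 16572696)) (b (l 16584344) (l 16568992))))))) (a (a (l 16572904) (l 16598872)) (a (a (l 16548120) (l 16543536)) (a (l 16536408) (l 16530304)))))) (a (a (l 2) (a (l 16575784) (l 16669176))) (a (a (b (l 16531952) (l 16496328)) (b (l 16509408) (l 16467000))) (a (a (b (l 16496720) (l 16449936)) (b (l 16489952) (l 16440888))) (a (b (l 16480792) (l 16429912)) (b (l 16514856) (l 16420272)))))))), by decide +kernel⟩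

def k1_pm_102 : ∃ t, chk3 f_pm_102 t 1 3 1 = true :=
  ⟨(a (b (a (l 2) (b (a (l 2) (l 16497984)) (l 2))) (l 2)) (a (b (a (b (l 16516048) (l 16415368)) (b (b (l 16429800) (l 16397920)) (l 16381312))) (b (a (l 2) (l 16330200)) (l 2))) (b (a (b (a (l 16388944) (b (l 16396464) (l 16356912))) (a (l 16325464) (l 16306888))) (b (a (b (l 16383688) (l 16342224)) (b (l 16372440) (l 16329344))) (a (l 16289432) (l 16336832)))) (a (b (a (l 16283320) (l 16258024)) (l 16331080)) (b (b (l 16239296) (l 16217416)) (a (l 16205160) (l 16183224))))))), by decide +kernel⟩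

theorem s2_pm_102 : ∃ t, chk3 f_pm_102 t 1 1 1 = true := ex3_b k0_pm_102 k1_pm_102

theorem c_pm_102 : CertB 536870912 536870912 0 536870912 780900216 37827925 3 eng mog cd1q1 cd1q0 pd2 true true false .npp 1 0 2
    ndB1q1 ndB1q0 pcB2 Cut.none Ext.none :=
  certB1 (fam := true) (s1 := true) (s2 := false) (a := 1) (b := 0) (c := 2) (cn := .npp) (n1 := ndB1q1) (n2 := ndB1q0) (pc := pcB2) (cut := Cut.none) (xt := Ext.none) (P1 := 536870912) (W1 := 536870912) (P2 := 0) (W2 := 536870912) (P3 := 780900216) (W3 := 37827925) (N0 := 3) (En := eng) (mo := mog) (C1 := cd1q1) (C2 := cd1q0) (C3 := pd2)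
    rfl (fun _ => rfl) s2_pm_102

noncomputable def f_pm_112 : ℕ → ℕ → ℕ → ℕ → Bool := onCell 536870912 536870912 1073741824 536870912 780900216 37827925
    (rowB 3 eng mog cd1q1 cd1q1 pd2 1 true true false .dn 1 1 2 (qsf 536870912 536870912 536870912 536870912 2) ndB1q1 ndB1q1 pcB2 Cut.none Ext.none)

def k0_pm_112 : ∃ t, chk3 f_pm_112 t 1 1 1 = true :=
  ⟨(b (a (b (l 3) (b (b (b (l 3) (b (a (l 3) (a (l 3) (l 1))) (a (b (l 3) (b (a (l 16600720) (l 16606576)) (l 16605000))) (a (b (l 16588712) (b (l 16586664) (l 16585256))) (l 1))))) (a (a (l 16579384) (l 16588920)) (a (l 16573024) (l 16532744)))) (a (a (l 16586408) (l 16542208)) (a (l 16535792) (l 138009254071))))) (b (l 1) (b (l 1) (a (a (l 173442631655) (l 1)) (l 1))))) (a (b (b (a (a (l 16466496) (l 16476936)) (a (l 16483576) (l 16463704))) (a (a (l 16365688) (l 16410128)) (a (l 16432384) (l 16424544)))) (a (b (a (b (l 16305784) (l 16267688)) (l 16343272)) (a (b (l 16232600) (l 16202272)) (l 16341536)))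 (a (b (l 16384728) (l 16341784)) (l 16572648)))) (a (b (b (a (l 16484960) (l 169684359815)) (a (l 16389448) (l 16338184))) (a (b (l 16366736) (l 16364200)) (b (l 16314984) (l 16311168)))) (b (a (b (l 1) (l 166463050695)) (l 1)) (a (b (l 108480901959) (l 16244088)) (b (l 155188431671) (l 16296288))))))), by decide +kernel⟩

theorem c_pm_112 : CertB 536870912 536870912 536870912 536870912 780900216 37827925 3 eng mog cd1q1 cd1q1 pd2 true true false .dn 1 1 2
    ndB1q1 ndB1q1 pcB2 Cut.none Ext.none :=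
  certB1 (fam := true) (s1 := true) (s2 := false) (a := 1) (b := 1) (c := 2) (cn := .dn) (n1 := ndB1q1) (n2 := ndB1q1) (pc := pcB2) (cut := Cut.none) (xt := Ext.none) (P1 := 536870912) (W1 := 536870912) (P2 := 536870912) (W2 := 536870912) (P3 := 780900216) (W3 := 37827925) (N0 := 3) (En := eng) (mo := mog) (C1 := cd1q1) (C2 := cd1q1) (C3 := pd2)
    rfl (fun _ => rfl) k0_pm_112

noncomputable def f_pm_113 : ℕ → ℕ → ℕ → ℕ → Bool := onCell 536870912 536870912 1610612736 536870912 780900216 37827925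
    (rowB 3 eng mog cd1q1 cd1q1 pd3 1 true true false .nn 1 1 3 (qsf 536870912 536870912 536870912 536870912 3) ndB1q1 ndB1q1 pcB3 Cut.none Ext.none)

def k0_pm_113 : ∃ t, chk3 f_pm_113 t 1 1 1 = true :=
  ⟨(a (b (b (a (b (a (b (l 16189824) (l 16175752)) (b (l 16259096) (l 16242624))) (a (b (l 140223068119) (l 2)) (b (l 16232688) (l 16231488)))) (b (a (l 16325600) (l 16379712)) (a (l 16322624) (l 16409704)))) (b (a (a (l 2) (b (l 16242112) (l 2))) (a (b (l 16336648) (l 16359120)) (l 16474552))) (a (l 2) (b (a (l 16394920) (l 16549840)) (a (l 2) (l 16620280)))))) (a (l 2) (b (b (a (l 2) (b (l 16682448) (l 2))) (l 2)) (l 2)))) (b (b (a (b (a (l 16391712) (l 16355984)) (l 16457008)) (b (a (l 16287848) (l 16211904)) (a (l 16367288) (l 16272536)))) (b (a (l 16600568) (a (l 16530640) (l 16407352))) (a (a (l 16768328) (l 16875096)) (a (l 16835688) (l 16674992))))) (a (b (b (b (l 146666092647) (a (l 16758136) (l 16875800))) (a (b (l 298600484039) (l 2)) (b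 (l 16831928) (l 16731136)))) (b (a (l 2) (b (l 16694592) (l 2))) (l 2))) (a (b (b (l 16980176) (l 16930528)) (b (b (l 16846800) (l 16797688)) (b (l 350677807511) (l 2)))) (b (b (l 16829136) (l 16865240)) (b (l 16865608) (b (l 16826656) (b (l 16786080) (b (l 16766000) (b (l 16758456) (b (l 16757208) (c (l 17011584) (l 109622798919))))))))))))), by decide +kernel⟩

theorem c_pm_113 : CertB 536870912 536870912 536870912 536870912 780900216 37827925 3 eng mog cd1q1 cd1q1 pd3 true true false .nn 1 1 3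
    ndB1q1 ndB1q1 pcB3 Cut.none Ext.none :=
  certB1 (fam := true) (s1 := true) (s2 := false) (a := 1) (b := 1) (c := 3) (cn := .nn) (n1 := ndB1q1) (n2 := ndB1q1) (pc := pcB3) (cut := Cut.none) (xt := Ext.none) (P1 := 536870912) (W1 := 536870912) (P2 := 536870912) (W2 := 536870912) (P3 := 780900216) (W3 := 37827925) (N0 := 3) (En := eng) (mo := mog) (C1 := cd1q1) (C2 := cd1q1) (C3 := pd3)
    rfl (fun _ => rfl) k0_pm_113

noncomputable def f_pm_123_a : ℕ → ℕ → ℕ → ℕ → Bool := onCell 1610612736 536870912 0 536870912 780900216 37827925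
    (rowB 3 eng mog cd1q1 cd1q2a pd3 2 true true false .npn 1 2 3 (qsf 536870912 536870912 0 536870912 3) ndB1q1 ndB1q2a pcB3 Cut.none Ext.none)

def k0_pm_123_a : ∃ t, chk3 f_pm_123_a t 1 1 1 = true :=
  ⟨(a (a (b (a (l 1) (b (l 1) (l 16625440))) (b (a (l 1) (b (l 16539856) (l 16484456))) (a (a (b (l 1) (a (l 16310360) (l 16314864))) (b (l 16394896) (l 16345976))) (b (l 16483680) (a (l 16346272) (l 16378896)))))) (b (a (b (l 16773440) (l 16723696)) (b (l 16721072) (l 16688736))) (a (b (l 16685408) (b (l 16487888) (a (l 16426248) (l 16492680)))) (b (a (l 16613872) (l 16660464)) (a (b (l 16572672) (l 16583792)) (b (l 16651128) (l 16707344))))))) (b (a (a (a (b (l 16714960) (l 16728824)) (b (l 83986537895) (l 16748480))) (b (l 4) (a (l 16721320) (l 16734504)))) (a (b (l 4) (a (l 119956794455) (l 4))) (l 4))) (a (a (b (a (l 16715480) (l 16778192)) (a (b (l 16751312) (l 16848784)) (b (l 16860456) (l 16864880)))) (b (a (l 16835656) (l 16787240)) (b (l 16879320)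 (l 16877624)))) (b (a (a (b (l 16722176) (l 16775984)) (a (l 16825816) (l 153780107783))) (a (a (l 187602902935) (l 4)) (l 4))) (b (a (a (l 16834040) (a (l 16801584) (l 16783344))) (a (a (l 16765728) (l 16721232)) (l 4))) (a (a (l 16875384) (l 16835952)) (a (a (l 16804184) (b (l 16781288) (l 16799648))) (a (a (l 16763328) (l 16743920)) (a (l 541937752823) (l 4)))))))))), by decide +kernel⟩

theorem c_pm_123_a : CertB 536870912 536870912 0 536870912 780900216 37827925 3 eng mog cd1q1 cd1q2a pd3 true true false .npn 1 2 3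
    ndB1q1 ndB1q2a pcB3 Cut.none Ext.none :=
  certB2 (fam := true) (s1 := true) (s2 := false) (a := 1) (b := 2) (c := 3) (cn := .npn) (n1 := ndB1q1) (n2 := ndB1q2a) (pc := pcB3) (cut := Cut.none) (xt := Ext.none) (P1 := 536870912) (W1 := 536870912) (P2 := 0) (W2 := 536870912) (P3 := 780900216) (W3 := 37827925) (N0 := 3) (En := eng) (mo := mog) (C1 := cd1q1) (C2 := cd1q2a) (C3 := pd3)
    rfl (fun _ => rfl) k0_pm_123_a

noncomputable def f_pm_123_b : ℕ → ℕ → ℕ → ℕ → Bool := onCell 1610612736 536870912 1239849684 370763052 780900216 37827925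
    (rowB 3 eng mog cd1q1 cd1q2b pd3 2 true true false .npn 1 2 3 (qsf 536870912 536870912 1239849684 370763052 3) ndB1q1 ndB1q2b pcB3 Cut.none Ext.none)

def k0_pm_123_b : ∃ t, chk3 f_pm_123_b t 1 1 1 = true :=
  ⟨(a (b (a (l 1) (a (b (l 16711752) (l 1)) (a (l 16950408) (l 16990888)))) (l 1)) (a (l 4) (l 4))), by decide +kernel⟩

theorem c_pm_123_b : CertB 536870912 536870912 1239849684 370763052 780900216 37827925 3 eng mog cd1q1 cd1q2b pd3 true true false .npn 1 2 3
    ndB1q1 ndB1q2b pcB3 Cut.none Ext.none :=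
  certB2 (fam := true) (s1 := true) (s2 := false) (a := 1) (b := 2) (c := 3) (cn := .npn) (n1 := ndB1q1) (n2 := ndB1q2b) (pc := pcB3) (cut := Cut.none) (xt := Ext.none) (P1 := 536870912) (W1 := 536870912) (P2 := 1239849684) (W2 := 370763052) (P3 := 780900216) (W3 := 37827925) (N0 := 3) (En := eng) (mo := mog) (C1 := cd1q1) (C2 := cd1q2b) (C3 := pd3)
    rfl (fun _ => rfl) k0_pm_123_b

noncomputable def f_pm_133 : ℕ → ℕ → ℕ → ℕ → Bool := onCell 536870912 536870912 1610612736 536870912 780900216 37827925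
    (rowB 3 eng mog cd1q1 cd1q3 pd3 0 true true false .dn 1 3 3 (qsf 536870912 536870912 1610612736 536870912 3) ndB1q1 ndB1q3 pcB3 Cut.none Ext.none)

def k0_pm_133 : ∃ t, chk3 f_pm_133 t 1 1 1 = true :=
  ⟨(l 4), by decide +kernel⟩

theorem c_pm_133 : CertB 536870912 536870912 1610612736 536870912 780900216 37827925 3 eng mog cd1q1 cd1q3 pd3 true true false .dn 1 3 3
    ndB1q1 ndB1q3 pcB3 Cut.none Ext.none :=
  certB0 (fam := true) (s1 := true) (s2 := false) (a := 1) (b := 3) (c := 3) (cn := .dn) (n1 := ndB1q1) (n2 := ndB1q3) (pc := pcB3) (cut := Cut.none) (xt := Ext.none) (P1 := 536870912) (W1 := 536870912) (P2 := 1610612736) (W2 := 536870912) (P3 := 780900216) (W3 := 37827925) (N0 := 3) (En := eng) (mo := mog) (C1 := cd1q1) (C2 := cd1q3) (C3 := pd3)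
    rfl k0_pm_133

noncomputable def cut_pm_202_a : Cut := Cut.of [[⟨0, 1, 0, 67108864⟩, ⟨1, 0, 0, 67108864⟩, ⟨2, 1, 0, 67108864⟩]]

noncomputable def f_pm_202_a : ℕ → ℕ → ℕ → ℕ → Bool := onCell 0 536870912 1073741824 536870912 780900216 37827925
    (rowB 3 eng mog cd1q2a cd1q0 pd2 1 true true false .pp 2 0 2 (qsf 0 536870912 0 536870912 2) ndB1q2a ndB1q0 pcB2 cut_pm_202_a Ext.none)

def k0_pm_202_a : ∃ t, chk3 f_pm_202_a t 2 1 1 = true :=
  ⟨(b (b (b (l 1) (a (l 1) (b (l 1) (a (l 1) (b (l 1) (a (l 1) (l 16472592))))))) (b (a (b (b (l 1) (a (l 16348368) (l 16417640))) (a (l 16387128) (b (l 16365672) (l 16374800)))) (b (a (b (a (l 16359464) (l 16377944)) (a (l 16370360) (l 16387016))) (b (a (l 16401232) (l 16429328)) (a (l 16408248) (l 16434032)))) (a (b (l 16387520) (l 16394904)) (a (l 16417296) (l 16440440))))) (a (b (a (b (l 16381728) (l 16392264)) (b (l 16384152) (l 16393600))) (a (l 16406224) (l 16406336))) (b (a (b (l 16402488) (l 16410176))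 (b (l 16436528) (l 16441576))) (a (l 16441760) (l 16344416)))))) (b (a (b (b (a (l 16425608) (l 16424464)) (a (l 16447472) (l 16444832))) (b (a (l 16473752) (l 16470184)) (l 16501344))) (b (b (a (l 16457584) (b (l 16457944) (l 16464024))) (a (l 16370960) (l 16476448))) (b (a (l 16478056) (l 16494736)) (a (l 16500848) (l 16510368))))) (a (a (b (l 16542624) (l 16578448)) (b (l 16532712) (l 16561968))) (a (b (l 16528856) (l 16545352)) (b (l 16516152) (l 16522648)))))), by decide +kernel⟩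

def k1_pm_202_a : ∃ t, chk3 f_pm_202_a t 3 8 1 = true :=
  ⟨(a (l 1) (b (a (l 1) (l 6)) (b (a (a (l 1) (l 6)) (l 6)) (b (a (a (l 1) (l 6)) (l 6)) (a (a (a (l 1) (b (a (l 1) (l 6)) (a (l 169147561143) (l 16611392)))) (b (l 6) (a (l 16650568) (l 16633352)))) (a (c (l 16645408) (l 16627208)) (a (l 16677304) (l 16687792)))))))), by decide +kernel⟩

def k2_pm_202_a : ∃ t, chk3 f_pm_202_a t 3 9 1 = true :=
  ⟨(a (b (a (l 1) (b (a (l 1) (b (l 1) (a (l 61773265495) (b (l 16558200) (l 16560088))))) (a (b (a (l 1) (l 16517560)) (a (l 16503232) (l 16523560))) (b (a (l 126197787159) (l 16563088)) (a (l 16544952) (l 16567360)))))) (a (b (a (b (l 1) (a (l 1) (l 16465952))) (b (a (l 1) (l 16491640)) (a (l 16482376) (l 16499152)))) (a (b (l 76805503143) (l 16460808)) (a (l 16486304) (l 16502480)))) (b (a (b (a (l 16510144) (l 16529712)) (l 16547512)) (b (l 16582184) (a (l 16555704) (l 16576456)))) (a (l 16507864) (l 16566896))))) (a (b (b (b (a (a (b (a (l 1) (l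 16588056)) (a (l 16575784) (l 16589072))) (a (b (l 16600976) (l 16601728)) (l 16612928))) (a (a (l 16624664) (l 16636544)) (l 16654672))) (a (a (b (l 16583736) (l 16585120)) (l 16629680)) (c (l 16583216) (l 16597488)))) (a (a (b (l 16587392) (l 16590720)) (b (l 16610720) (l 16613128))) (b (l 16622544) (l 16644568)))) (a (b (b (l 16563272) (l 16608512)) (l 16607328)) (b (b (l 16636840) (l 16623712)) (l 16609512)))) (b (a (b (b (c (l 16674304) (l 16678208)) (l 16622864)) (a (l 16649680) (l 16643328))) (b (a (b (l 16664224) (l 16653088)) (b (l 16653776) (l 16642800))) (a (l 16635144) (b (l 16631104) (l 16618784))))) (a (b (b (l 16627464) (l 16603744)) (l 16599184)) (b (b (l 16611120) (a (l 16602688) (l 16592544))) (a (l 16586872) (l 16575800))))))), by decide +kernel⟩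

def k3_pm_202_a : ∃ t, chk3 f_pm_202_a t 3 5 1 = true :=
  ⟨(b (a (b (b (a (a (l 16461968) (a (l 16487888) (l 16503720))) (a (l 16529016) (l 16565352))) (a (a (l 16464248) (b (l 16496680) (b (l 16496936) (b (l 16497016) (l 16496904))))) (b (l 16547280) (a (b (l 16529288) (l 16529080)) (l 16637528))))) (a (a (l 16467584) (l 16497168)) (l 16545192))) (b (b (a (a (l 16599640) (l 16592288)) (a (l 16580104) (a (l 16565960) (l 16553696)))) (a (b (l 16583816) (a (l 16578520) (l 16589112))) (b (a (l 16564648) (l 16542704)) (b (a (l 16555992) (l 16533176)) (a (l 16549216) (b (l 16527480) (l 16523448))))))) (a (a (l 16560776) (l 16547808)) (a (l 16529608) (a (l 16510720) (l 16494752)))))) (b (a (a (b (l 16484688) (l 16444440)) (l 16603864)) (a (a (l 16534984) (l 16518632)) (a (b (l 16504928) (l 16487320)) (b (l 16473984) (l 16455144))))) (a (a (l 16489880) (l 16535336)) (a (a (l 16508456) (l 16488064)) (a (l 16462112) (l 16428680)))))), by decide +kernel⟩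

def k4_pm_202_a : ∃ t, chk3 f_pm_202_a t 3 3 1 = true :=
  ⟨(b (a (b (b (a (a (l 16485784) (l 16505384)) (l 16514096)) (a (l 16506320) (l 16494088))) (a (b (l 16508152) (l 16498288)) (b (l 16476792) (l 16463000)))) (a (b (a (b (l 16482016) (l 16458640)) (b (l 16459408) (l 16434280))) (a (b (l 16438768) (l 16422600)) (l 16487192))) (b (b (a (l 16431664) (l 16396728)) (a (l 16404936) (l 16368648))) (a (b (l 16381920) (l 16362640)) (b (l 16344384) (l 16324128)))))) (a (b (a (l 16489304) (b (l 16452416) (l 16445168))) (a (l 16488256) (l 16440872))) (b (a (c (a (l 16419432) (l 16391344)) (l 16560328)) (b (l 16391128) (l 16316704))) (a (a (l 16393128) (l 16445896)) (a (l 16327016) (l 16286872)))))), by decide +kernel⟩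

theorem s5_pm_202_a : ∃ t, chk3 f_pm_202_a t 3 4 1 = true := ex3_b k1_pm_202_a k2_pm_202_a

theorem s6_pm_202_a : ∃ t, chk3 f_pm_202_a t 3 2 1 = true := ex3_b s5_pm_202_a k3_pm_202_a

theorem s7_pm_202_a : ∃ t, chk3 f_pm_202_a t 3 1 1 = true := ex3_b s6_pm_202_a k4_pm_202_a

theorem s8_pm_202_a : ∃ t, chk3 f_pm_202_a t 1 1 1 = true := ex3_a k0_pm_202_a s7_pm_202_a

theorem c_pm_202_a : CertB 0 536870912 0 536870912 780900216 37827925 3 eng mog cd1q2a cd1q0 pd2 true true false .pp 2 0 2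
    ndB1q2a ndB1q0 pcB2 cut_pm_202_a Ext.none :=
  certB1 (fam := true) (s1 := true) (s2 := false) (a := 2) (b := 0) (c := 2) (cn := .pp) (n1 := ndB1q2a) (n2 := ndB1q0) (pc := pcB2) (cut := cut_pm_202_a) (xt := Ext.none) (P1 := 0) (W1 := 536870912) (P2 := 0) (W2 := 536870912) (P3 := 780900216) (W3 := 37827925) (N0 := 3) (En := eng) (mo := mog) (C1 := cd1q2a) (C2 := cd1q0) (C3 := pd2)
    rfl (fun _ => rfl) s8_pm_202_a

noncomputable def cut_pm_202_b : Cut := Cut.of [[⟨0, 1, 0, 67108864⟩, ⟨1, 0, 0, 67108864⟩, ⟨2, 1, 0, 67108864⟩]]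

noncomputable def f_pm_202_b : ℕ → ℕ → ℕ → ℕ → Bool := onCell 1073741824 536870912 0 536870912 780900216 37827925
    (rowB 3 eng mog cd1q2b cd1q0 pd2 2 true true false .pp 2 0 2 (qsf 1239849684 370763052 0 536870912 2) ndB1q2b ndB1q0 pcB2 cut_pm_202_b Ext.none)

def k0_pm_202_b : ∃ t, chk3 f_pm_202_b t 1 1 1 = true :=
  ⟨(a (b (a (l 1) (b (a (b (a (b (a (l 1) (b (l 16401656) (l 1))) (l 1)) (b (b (l 16336240) (l 16391368)) (a (l 1) (l 16491904)))) (l 1)) (b (a (a (b (l 16299360) (l 16406720)) (b (l 16258496) (l 16365328))) (b (l 16219440) (l 16304304))) (b (a (a (l 1) (l 16530520)) (l 16510712)) (a (l 1) (l 16502824))))) (l 1))) (l 1)) (a (b (b (a (a (b (b (l 16124536) (l 16228944)) (b (l 16329408) (l 16509672))) (b (b (l 16058016) (l 16160856)) (b (l 16260112) (l 16355664)))) (b (b (a (l 15998688) (l 15946328)) (l 16071952)) (a (l 16287640) (l 16189472)))) (a (b (b (a (l 16518672) (l 16448416)) (a (l 1) (l 16538224))) (l 1)) (b (b (l 16564808) (a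 (l 16474936) (l 16417560))) (a (l 236256058295) (b (l 16505504) (l 16575288)))))) (l 1)) (b (b (a (b (a (l 15950104) (l 15909688)) (a (l 16139592) (l 16096256))) (b (a (l 15875512) (l 15846992)) (l 16042056))) (a (b (a (l 16384480) (l 16276176)) (a (l 16495528) (l 16450512))) (b (l 16260464) (l 16392272)))) (b (a (b (a (l 288869527191) (l 243235525031)) (l 1)) (b (a (l 16552992) (l 16521792)) (l 312491955783))) (l 1))))), by decide +kernel⟩

theorem c_pm_202_b : CertB 1239849684 370763052 0 536870912 780900216 37827925 3 eng mog cd1q2b cd1q0 pd2 true true false .pp 2 0 2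
    ndB1q2b ndB1q0 pcB2 cut_pm_202_b Ext.none :=
  certB2 (fam := true) (s1 := true) (s2 := false) (a := 2) (b := 0) (c := 2) (cn := .pp) (n1 := ndB1q2b) (n2 := ndB1q0) (pc := pcB2) (cut := cut_pm_202_b) (xt := Ext.none) (P1 := 1239849684) (W1 := 370763052) (P2 := 0) (W2 := 536870912) (P3 := 780900216) (W3 := 37827925) (N0 := 3) (En := eng) (mo := mog) (C1 := cd1q2b) (C2 := cd1q0) (C3 := pd2)
    rfl (fun _ => rfl) k0_pm_202_b

noncomputable def f_pm_203_a : ℕ → ℕ → ℕ → ℕ → Bool := onCell 0 536870912 1610612736 536870912 780900216 37827925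
    (rowB 3 eng mog cd1q2a cd1q0 pd3 1 true true false .up 2 0 3 (qsf 0 536870912 0 536870912 3) ndB1q2a ndB1q0 pcB3 Cut.none Ext.none)

def k0_pm_203_a : ∃ t, chk3 f_pm_203_a t 1 1 1 = true :=
  ⟨(b (b (a (b (a (b (l 16595720) (l 16614296)) (a (l 16571840) (l 16543256))) (a (l 16642920) (b (l 16578896) (l 16595696)))) (a (b (a (l 16502312) (l 16448960)) (a (l 16524400) (l 16470032))) (b (a (b (l 16380280) (l 16385480)) (c (l 16554944) (b (l 16289608) (l 16298568)))) (a (l 16551944) (l 2))))) (a (b (a (l 16682888) (l 16624840)) (l 2)) (a (l 2) (l 2)))) (l 2)), by decide +kernel⟩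

theorem c_pm_203_a : CertB 0 536870912 0 536870912 780900216 37827925 3 eng mog cd1q2a cd1q0 pd3 true true false .up 2 0 3
    ndB1q2a ndB1q0 pcB3 Cut.none Ext.none :=
  certB1 (fam := true) (s1 := true) (s2 := false) (a := 2) (b := 0) (c := 3) (cn := .up) (n1 := ndB1q2a) (n2 := ndB1q0) (pc := pcB3) (cut := Cut.none) (xt := Ext.none) (P1 := 0) (W1 := 536870912) (P2 := 0) (W2 := 536870912) (P3 := 780900216) (W3 := 37827925) (N0 := 3) (En := eng) (mo := mog) (C1 := cd1q2a) (C2 := cd1q0) (C3 := pd3)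
    rfl (fun _ => rfl) k0_pm_203_a

noncomputable def f_pm_203_b : ℕ → ℕ → ℕ → ℕ → Bool := onCell 1239849684 370763052 1610612736 536870912 780900216 37827925
    (rowB 3 eng mog cd1q2b cd1q0 pd3 1 true true false .up 2 0 3 (qsf 1239849684 370763052 0 536870912 3) ndB1q2b ndB1q0 pcB3 Cut.none Ext.none)

def k0_pm_203_b : ∃ t, chk3 f_pm_203_b t 1 1 1 = true :=
  ⟨(b (b (a (b (a (b (l 16555376) (l 16587688)) (l 16458240)) (a (b (l 16611952) (l 16642200)) (l 16496104))) (b (a (b (l 16136752) (l 16202720)) (b (l 15901408) (l 15969600))) (a (l 16299808) (l 16284808)))) (b (a (a (l 16789872) (l 16582416)) (a (l 16420712) (l 16345216))) (a (a (l 338866625719) (l 16657648)) (a (l 4) (l 4))))) (b (l 4) (l 4))), by decide +kernel⟩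

theorem c_pm_203_b : CertB 1239849684 370763052 0 536870912 780900216 37827925 3 eng mog cd1q2b cd1q0 pd3 true true false .up 2 0 3
    ndB1q2b ndB1q0 pcB3 Cut.none Ext.none :=
  certB1 (fam := true) (s1 := true) (s2 := false) (a := 2) (b := 0) (c := 3) (cn := .up) (n1 := ndB1q2b) (n2 := ndB1q0) (pc := pcB3) (cut := Cut.none) (xt := Ext.none) (P1 := 1239849684) (W1 := 370763052) (P2 := 0) (W2 := 536870912) (P3 := 780900216) (W3 := 37827925) (N0 := 3) (En := eng) (mo := mog) (C1 := cd1q2b) (C2 := cd1q0) (C3 := pd3)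
    rfl (fun _ => rfl) k0_pm_203_b

noncomputable def f_pm_213_a : ℕ → ℕ → ℕ → ℕ → Bool := onCell 0 536870912 1610612736 536870912 780900216 37827925
    (rowB 3 eng mog cd1q2a cd1q1 pd3 1 true true false .pnn 2 1 3 (qsf 0 536870912 536870912 536870912 3) ndB1q2a ndB1q1 pcB3 Cut.none Ext.none)

def k0_pm_213_a : ∃ t, chk3 f_pm_213_a t 1 1 1 = true :=
  ⟨(a (b (b (b (l 1) (a (l 1) (l 16709328))) (b (a (l 16773440) (l 16765632)) (a (l 16721072) (l 16688736)))) (a (b (b (b (l 16714960) (l 83986537895)) (l 4)) (l 4)) (b (b (b (l 16728824) (l 16748480)) (b (l 16721320) (l 16713536))) (b (b (l 115661827159) (l 4)) (l 4))))) (b (b (a (b (l 1) (a (l 16539856) (l 16484456))) (b (a (b (l 1) (l 16394896)) (b (a (l 16332288) (l 16292120)) (a (l 16343528) (l 16306120)))) (a (l 16609512) (b (l 16346272) (l 16378896))))) (b (a (l 16748320) (a (l 16487888) (b (l 16426248) (l 16492680)))) (a (b (l 16613872) (l 16660464)) (b (a (l 16572672) (l 16583792)) (a (l 16651128)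 (l 16707344)))))) (a (b (b (b (l 16715480) (l 16778192)) (b (l 16835656) (l 16787240))) (b (b (a (l 16722176) (l 16775984)) (b (l 16762904) (l 110830434823))) (b (b (l 187066032023) (l 4)) (l 4)))) (a (b (b (b (l 16751312) (l 16860456)) (l 16879320)) (b (b (l 16834040) (b (l 16801584) (l 16783344))) (b (b (l 16765728) (l 16721232)) (l 4)))) (b (b (b (l 16848784) (l 16864880)) (l 16877624)) (b (b (l 16875384) (l 16835952)) (b (b (l 16804184) (a (l 16781288) (l 16799648))) (b (b (l 16763328) (l 16743920)) (b (l 541937752823) (l 4)))))))))), by decide +kernel⟩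

theorem c_pm_213_a : CertB 0 536870912 536870912 536870912 780900216 37827925 3 eng mog cd1q2a cd1q1 pd3 true true false .pnn 2 1 3
    ndB1q2a ndB1q1 pcB3 Cut.none Ext.none :=
  certB1 (fam := true) (s1 := true) (s2 := false) (a := 2) (b := 1) (c := 3) (cn := .pnn) (n1 := ndB1q2a) (n2 := ndB1q1) (pc := pcB3) (cut := Cut.none) (xt := Ext.none) (P1 := 0) (W1 := 536870912) (P2 := 536870912) (W2 := 536870912) (P3 := 780900216) (W3 := 37827925) (N0 := 3) (En := eng) (mo := mog) (C1 := cd1q2a) (C2 := cd1q1) (C3 := pd3)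
    rfl (fun _ => rfl) k0_pm_213_a

noncomputable def f_pm_213_b : ℕ → ℕ → ℕ → ℕ → Bool := onCell 1239849684 370763052 1610612736 536870912 780900216 37827925
    (rowB 3 eng mog cd1q2b cd1q1 pd3 1 true true false .pnn 2 1 3 (qsf 1239849684 370763052 536870912 536870912 3) ndB1q2b ndB1q1 pcB3 Cut.none Ext.none)

def k0_pm_213_b : ∃ t, chk3 f_pm_213_b t 1 1 1 = true :=
  ⟨(b (a (b (l 1) (a (b (l 16711752) (l 14730832759)) (b (l 1) (l 16731016)))) (l 1)) (b (l 4) (l 4))), by decide +kernel⟩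

theorem c_pm_213_b : CertB 1239849684 370763052 536870912 536870912 780900216 37827925 3 eng mog cd1q2b cd1q1 pd3 true true false .pnn 2 1 3
    ndB1q2b ndB1q1 pcB3 Cut.none Ext.none :=
  certB1 (fam := true) (s1 := true) (s2 := false) (a := 2) (b := 1) (c := 3) (cn := .pnn) (n1 := ndB1q2b) (n2 := ndB1q1) (pc := pcB3) (cut := Cut.none) (xt := Ext.none) (P1 := 1239849684) (W1 := 370763052) (P2 := 536870912) (W2 := 536870912) (P3 := 780900216) (W3 := 37827925) (N0 := 3) (En := eng) (mo := mog) (C1 := cd1q2b) (C2 := cd1q1) (C3 := pd3)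
    rfl (fun _ => rfl) k0_pm_213_b

noncomputable def f_pm_303 : ℕ → ℕ → ℕ → ℕ → Bool := onCell 1610612736 536870912 0 536870912 780900216 37827925
    (rowB 3 eng mog cd1q3 cd1q0 pd3 2 true true false .npn 3 0 3 (qsf 1610612736 536870912 0 536870912 3) ndB1q3 ndB1q0 pcB3 Cut.none Ext.none)

def k0_pm_303 : ∃ t, chk3 f_pm_303 t 1 1 1 = true :=
  ⟨(a (a (b (b (a (b (l 15809152) (l 15978888)) (b (l 15774728) (l 15939808))) (a (l 1) (l 257193808199))) (l 1)) (b (a (b (a (l 15847184) (l 15850584)) (l 16163720)) (l 4)) (a (l 1) (b (l 4) (l 1))))) (l 4)), by decide +kernel⟩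

theorem c_pm_303 : CertB 1610612736 536870912 0 536870912 780900216 37827925 3 eng mog cd1q3 cd1q0 pd3 true true false .npn 3 0 3
    ndB1q3 ndB1q0 pcB3 Cut.none Ext.none :=
  certB2 (fam := true) (s1 := true) (s2 := false) (a := 3) (b := 0) (c := 3) (cn := .npn) (n1 := ndB1q3) (n2 := ndB1q0) (pc := pcB3) (cut := Cut.none) (xt := Ext.none) (P1 := 1610612736) (W1 := 536870912) (P2 := 0) (W2 := 536870912) (P3 := 780900216) (W3 := 37827925) (N0 := 3) (En := eng) (mo := mog) (C1 := cd1q3) (C2 := cd1q0) (C3 := pd3)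
    rfl (fun _ => rfl) k0_pm_303

noncomputable def f_pm_313 : ℕ → ℕ → ℕ → ℕ → Bool := onCell 1610612736 536870912 536870912 536870912 780900216 37827925
    (rowB 3 eng mog cd1q3 cd1q1 pd3 0 true true false .dn 3 1 3 (qsf 1610612736 536870912 536870912 536870912 3) ndB1q3 ndB1q1 pcB3 Cut.none Ext.none)

def k0_pm_313 : ∃ t, chk3 f_pm_313 t 1 1 1 = true :=
  ⟨(l 4), by decide +kernel⟩

theorem c_pm_313 : CertB 1610612736 536870912 536870912 536870912 780900216 37827925 3 eng mog cd1q3 cd1q1 pd3 true true false .dn 3 1 3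
    ndB1q3 ndB1q1 pcB3 Cut.none Ext.none :=
  certB0 (fam := true) (s1 := true) (s2 := false) (a := 3) (b := 1) (c := 3) (cn := .dn) (n1 := ndB1q3) (n2 := ndB1q1) (pc := pcB3) (cut := Cut.none) (xt := Ext.none) (P1 := 1610612736) (W1 := 536870912) (P2 := 536870912) (W2 := 536870912) (P3 := 780900216) (W3 := 37827925) (N0 := 3) (En := eng) (mo := mog) (C1 := cd1q3) (C2 := cd1q1) (C3 := pd3)
    rfl k0_pm_313

noncomputable def f_mm_001 : ℕ → ℕ → ℕ → ℕ → Bool := onCell 0 536870912 0 536870912 780900216 37827925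
    (rowB 3 eng mog cd1q0 cd1q0 pd1 0 true false false .up 0 0 1 (qsf 0 536870912 0 536870912 1) ndB1q0 ndB1q0 pcB1 Cut.none Ext.none)

def k0_mm_001 : ∃ t, chk3 f_mm_001 t 1 1 1 = true :=
  ⟨(l 4), by decide +kernel⟩

theorem c_mm_001 : CertB 0 536870912 0 536870912 780900216 37827925 3 eng mog cd1q0 cd1q0 pd1 true false false .up 0 0 1
    ndB1q0 ndB1q0 pcB1 Cut.none Ext.none :=
  certB0 (fam := true) (s1 := false) (s2 := false) (a := 0) (b := 0) (c := 1) (cn := .up) (n1 := ndB1q0) (n2 := ndB1q0) (pc := pcB1) (cut := Cut.none) (xt := Ext.none) (P1 := 0) (W1 := 536870912) (P2 := 0) (W2 := 536870912) (P3 := 780900216) (W3 := 37827925) (N0 := 3) (En := eng) (mo := mog) (C1 := cd1q0) (C2 := cd1q0) (C3 := pd1)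
    rfl k0_mm_001

noncomputable def f_mm_011 : ℕ → ℕ → ℕ → ℕ → Bool := onCell 0 536870912 536870912 536870912 780900216 37827925
    (rowB 3 eng mog cd1q0 cd1q1 pd1 0 true false false .pnn 0 1 1 (qsf 0 536870912 536870912 536870912 1) ndB1q0 ndB1q1 pcB1 Cut.none Ext.none)

def k0_mm_011 : ∃ t, chk3 f_mm_011 t 1 1 1 = true :=
  ⟨(l 4), by decide +kernel⟩

theorem c_mm_011 : CertB 0 536870912 536870912 536870912 780900216 37827925 3 eng mog cd1q0 cd1q1 pd1 true false false .pnn 0 1 1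
    ndB1q0 ndB1q1 pcB1 Cut.none Ext.none :=
  certB0 (fam := true) (s1 := false) (s2 := false) (a := 0) (b := 1) (c := 1) (cn := .pnn) (n1 := ndB1q0) (n2 := ndB1q1) (pc := pcB1) (cut := Cut.none) (xt := Ext.none) (P1 := 0) (W1 := 536870912) (P2 := 536870912) (W2 := 536870912) (P3 := 780900216) (W3 := 37827925) (N0 := 3) (En := eng) (mo := mog) (C1 := cd1q0) (C2 := cd1q1) (C3 := pd1)
    rfl k0_mm_011

noncomputable def f_mm_012 : ℕ → ℕ → ℕ → ℕ → Bool := onCell 0 536870912 536870912 536870912 780900216 37827925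
    (rowB 3 eng mog cd1q0 cd1q1 pd2 0 true false false .pnp 0 1 2 (qsf 0 536870912 536870912 536870912 2) ndB1q0 ndB1q1 pcB2 Cut.none Ext.none)

def k0_mm_012 : ∃ t, chk3 f_mm_012 t 1 1 1 = true :=
  ⟨(l 4), by decide +kernel⟩

theorem c_mm_012 : CertB 0 536870912 536870912 536870912 780900216 37827925 3 eng mog cd1q0 cd1q1 pd2 true false false .pnp 0 1 2
    ndB1q0 ndB1q1 pcB2 Cut.none Ext.none :=
  certB0 (fam := true) (s1 := false) (s2 := false) (a := 0) (b := 1) (c := 2) (cn := .pnp) (n1 := ndB1q0) (n2 := ndB1q1) (pc := pcB2) (cut := Cut.none) (xt := Ext.none) (P1 := 0) (W1 := 536870912) (P2 := 536870912) (W2 := 536870912) (P3 := 780900216) (W3 := 37827925) (N0 := 3) (En := eng) (mo := mog) (C1 := cd1q0) (C2 := cd1q1) (C3 := pd2)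
    rfl k0_mm_012

noncomputable def f_mm_022_a : ℕ → ℕ → ℕ → ℕ → Bool := onCell 0 536870912 0 536870912 780900216 37827925
    (rowB 3 eng mog cd1q0 cd1q2a pd2 0 true false false .pp 0 2 2 (qsf 0 536870912 0 536870912 2) ndB1q0 ndB1q2a pcB2 Cut.none Ext.none)

def k0_mm_022_a : ∃ t, chk3 f_mm_022_a t 1 1 1 = true :=
  ⟨(l 5), by decide +kernel⟩

theorem c_mm_022_a : CertB 0 536870912 0 536870912 780900216 37827925 3 eng mog cd1q0 cd1q2a pd2 true false false .pp 0 2 2
    ndB1q0 ndB1q2a pcB2 Cut.none Ext.none :=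
  certB0 (fam := true) (s1 := false) (s2 := false) (a := 0) (b := 2) (c := 2) (cn := .pp) (n1 := ndB1q0) (n2 := ndB1q2a) (pc := pcB2) (cut := Cut.none) (xt := Ext.none) (P1 := 0) (W1 := 536870912) (P2 := 0) (W2 := 536870912) (P3 := 780900216) (W3 := 37827925) (N0 := 3) (En := eng) (mo := mog) (C1 := cd1q0) (C2 := cd1q2a) (C3 := pd2)
    rfl k0_mm_022_a

noncomputable def f_mm_022_b : ℕ → ℕ → ℕ → ℕ → Bool := onCell 0 536870912 1239849684 370763052 780900216 37827925
    (rowB 3 eng mog cd1q0 cd1q2b pd2 0 true false false .pp 0 2 2 (qsf 0 536870912 1239849684 370763052 2) ndB1q0 ndB1q2b pcB2 Cut.none Ext.none)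

def k0_mm_022_b : ∃ t, chk3 f_mm_022_b t 1 1 1 = true :=
  ⟨(l 5), by decide +kernel⟩

theorem c_mm_022_b : CertB 0 536870912 1239849684 370763052 780900216 37827925 3 eng mog cd1q0 cd1q2b pd2 true false false .pp 0 2 2
    ndB1q0 ndB1q2b pcB2 Cut.none Ext.none :=
  certB0 (fam := true) (s1 := false) (s2 := false) (a := 0) (b := 2) (c := 2) (cn := .pp) (n1 := ndB1q0) (n2 := ndB1q2b) (pc := pcB2) (cut := Cut.none) (xt := Ext.none) (P1 := 0) (W1 := 536870912) (P2 := 1239849684) (W2 := 370763052) (P3 := 780900216) (W3 := 37827925) (N0 := 3) (En := eng) (mo := mog) (C1 := cd1q0) (C2 := cd1q2b) (C3 := pd2)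
    rfl k0_mm_022_b

noncomputable def f_mm_023_a : ℕ → ℕ → ℕ → ℕ → Bool := onCell 0 536870912 0 536870912 780900216 37827925
    (rowB 3 eng mog cd1q0 cd1q2a pd3 0 true false false .up 0 2 3 (qsf 0 536870912 0 536870912 3) ndB1q0 ndB1q2a pcB3 Cut.none Ext.none)

def k0_mm_023_a : ∃ t, chk3 f_mm_023_a t 1 1 1 = true :=
  ⟨(l 5), by decide +kernel⟩

theorem c_mm_023_a : CertB 0 536870912 0 536870912 780900216 37827925 3 eng mog cd1q0 cd1q2a pd3 true false false .up 0 2 3
    ndB1q0 ndB1q2a pcB3 Cut.none Ext.none :=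
  certB0 (fam := true) (s1 := false) (s2 := false) (a := 0) (b := 2) (c := 3) (cn := .up) (n1 := ndB1q0) (n2 := ndB1q2a) (pc := pcB3) (cut := Cut.none) (xt := Ext.none) (P1 := 0) (W1 := 536870912) (P2 := 0) (W2 := 536870912) (P3 := 780900216) (W3 := 37827925) (N0 := 3) (En := eng) (mo := mog) (C1 := cd1q0) (C2 := cd1q2a) (C3 := pd3)
    rfl k0_mm_023_a

noncomputable def f_mm_023_b : ℕ → ℕ → ℕ → ℕ → Bool := onCell 0 536870912 1239849684 370763052 780900216 37827925
    (rowB 3 eng mog cd1q0 cd1q2b pd3 0 true false false .up 0 2 3 (qsf 0 536870912 1239849684 370763052 3) ndB1q0 ndB1q2b pcB3 Cut.none Ext.none)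

def k0_mm_023_b : ∃ t, chk3 f_mm_023_b t 1 1 1 = true :=
  ⟨(l 5), by decide +kernel⟩

theorem c_mm_023_b : CertB 0 536870912 1239849684 370763052 780900216 37827925 3 eng mog cd1q0 cd1q2b pd3 true false false .up 0 2 3
    ndB1q0 ndB1q2b pcB3 Cut.none Ext.none :=
  certB0 (fam := true) (s1 := false) (s2 := false) (a := 0) (b := 2) (c := 3) (cn := .up) (n1 := ndB1q0) (n2 := ndB1q2b) (pc := pcB3) (cut := Cut.none) (xt := Ext.none) (P1 := 0) (W1 := 536870912) (P2 := 1239849684) (W2 := 370763052) (P3 := 780900216) (W3 := 37827925) (N0 := 3) (En := eng) (mo := mog) (C1 := cd1q0) (C2 := cd1q2b) (C3 := pd3)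
    rfl k0_mm_023_b

noncomputable def f_mm_033 : ℕ → ℕ → ℕ → ℕ → Bool := onCell 0 536870912 1610612736 536870912 780900216 37827925
    (rowB 3 eng mog cd1q0 cd1q3 pd3 0 true false false .pnn 0 3 3 (qsf 0 536870912 1610612736 536870912 3) ndB1q0 ndB1q3 pcB3 Cut.none Ext.none)

def k0_mm_033 : ∃ t, chk3 f_mm_033 t 1 1 1 = true :=
  ⟨(l 5), by decide +kernel⟩

theorem c_mm_033 : CertB 0 536870912 1610612736 536870912 780900216 37827925 3 eng mog cd1q0 cd1q3 pd3 true false false .pnn 0 3 3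
    ndB1q0 ndB1q3 pcB3 Cut.none Ext.none :=
  certB0 (fam := true) (s1 := false) (s2 := false) (a := 0) (b := 3) (c := 3) (cn := .pnn) (n1 := ndB1q0) (n2 := ndB1q3) (pc := pcB3) (cut := Cut.none) (xt := Ext.none) (P1 := 0) (W1 := 536870912) (P2 := 1610612736) (W2 := 536870912) (P3 := 780900216) (W3 := 37827925) (N0 := 3) (En := eng) (mo := mog) (C1 := cd1q0) (C2 := cd1q3) (C3 := pd3)
    rfl k0_mm_033

noncomputable def f_mm_101 : ℕ → ℕ → ℕ → ℕ → Bool := onCell 536870912 536870912 0 536870912 780900216 37827925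
    (rowB 3 eng mog cd1q1 cd1q0 pd1 0 true false false .npn 1 0 1 (qsf 536870912 536870912 0 536870912 1) ndB1q1 ndB1q0 pcB1 Cut.none Ext.none)

def k0_mm_101 : ∃ t, chk3 f_mm_101 t 1 1 1 = true :=
  ⟨(l 4), by decide +kernel⟩

theorem c_mm_101 : CertB 536870912 536870912 0 536870912 780900216 37827925 3 eng mog cd1q1 cd1q0 pd1 true false false .npn 1 0 1
    ndB1q1 ndB1q0 pcB1 Cut.none Ext.none :=
  certB0 (fam := true) (s1 := false) (s2 := false) (a := 1) (b := 0) (c := 1) (cn := .npn) (n1 := ndB1q1) (n2 := ndB1q0) (pc := pcB1) (cut := Cut.none) (xt := Ext.none) (P1 := 536870912) (W1 := 536870912) (P2 := 0) (W2 := 536870912) (P3 := 780900216) (W3 := 37827925) (N0 := 3) (En := eng) (mo := mog) (C1 := cd1q1) (C2 := cd1q0) (C3 := pd1)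
    rfl k0_mm_101

noncomputable def f_mm_102 : ℕ → ℕ → ℕ → ℕ → Bool := onCell 536870912 536870912 0 536870912 780900216 37827925
    (rowB 3 eng mog cd1q1 cd1q0 pd2 0 true false false .npp 1 0 2 (qsf 536870912 536870912 0 536870912 2) ndB1q1 ndB1q0 pcB2 Cut.none Ext.none)

def k0_mm_102 : ∃ t, chk3 f_mm_102 t 1 1 1 = true :=
  ⟨(l 4), by decide +kernel⟩

theorem c_mm_102 : CertB 536870912 536870912 0 536870912 780900216 37827925 3 eng mog cd1q1 cd1q0 pd2 true false false .npp 1 0 2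
    ndB1q1 ndB1q0 pcB2 Cut.none Ext.none :=
  certB0 (fam := true) (s1 := false) (s2 := false) (a := 1) (b := 0) (c := 2) (cn := .npp) (n1 := ndB1q1) (n2 := ndB1q0) (pc := pcB2) (cut := Cut.none) (xt := Ext.none) (P1 := 536870912) (W1 := 536870912) (P2 := 0) (W2 := 536870912) (P3 := 780900216) (W3 := 37827925) (N0 := 3) (En := eng) (mo := mog) (C1 := cd1q1) (C2 := cd1q0) (C3 := pd2)
    rfl k0_mm_102

noncomputable def f_mm_112 : ℕ → ℕ → ℕ → ℕ → Bool := onCell 536870912 536870912 536870912 536870912 780900216 37827925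
    (rowB 3 eng mog cd1q1 cd1q1 pd2 0 true false false .dn 1 1 2 (qsf 536870912 536870912 536870912 536870912 2) ndB1q1 ndB1q1 pcB2 Cut.none Ext.none)

def k0_mm_112 : ∃ t, chk3 f_mm_112 t 1 1 1 = true :=
  ⟨(l 4), by decide +kernel⟩

theorem c_mm_112 : CertB 536870912 536870912 536870912 536870912 780900216 37827925 3 eng mog cd1q1 cd1q1 pd2 true false false .dn 1 1 2
    ndB1q1 ndB1q1 pcB2 Cut.none Ext.none :=
  certB0 (fam := true) (s1 := false) (s2 := false) (a := 1) (b := 1) (c := 2) (cn := .dn) (n1 := ndB1q1) (n2 := ndB1q1) (pc := pcB2) (cut := Cut.none) (xt := Ext.none) (P1 := 536870912) (W1 := 536870912) (P2 := 536870912) (W2 := 536870912) (P3 := 780900216) (W3 := 37827925) (N0 := 3) (En := eng) (mo := mog) (C1 := cd1q1) (C2 := cd1q1) (C3 := pd2)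
    rfl k0_mm_112

noncomputable def f_mm_113 : ℕ → ℕ → ℕ → ℕ → Bool := onCell 536870912 536870912 536870912 536870912 780900216 37827925
    (rowB 3 eng mog cd1q1 cd1q1 pd3 0 true false false .nn 1 1 3 (qsf 536870912 536870912 536870912 536870912 3) ndB1q1 ndB1q1 pcB3 Cut.none Ext.none)

def k0_mm_113 : ∃ t, chk3 f_mm_113 t 1 1 1 = true :=
  ⟨(l 4), by decide +kernel⟩

theorem c_mm_113 : CertB 536870912 536870912 536870912 536870912 780900216 37827925 3 eng mog cd1q1 cd1q1 pd3 true false false .nn 1 1 3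
    ndB1q1 ndB1q1 pcB3 Cut.none Ext.none :=
  certB0 (fam := true) (s1 := false) (s2 := false) (a := 1) (b := 1) (c := 3) (cn := .nn) (n1 := ndB1q1) (n2 := ndB1q1) (pc := pcB3) (cut := Cut.none) (xt := Ext.none) (P1 := 536870912) (W1 := 536870912) (P2 := 536870912) (W2 := 536870912) (P3 := 780900216) (W3 := 37827925) (N0 := 3) (En := eng) (mo := mog) (C1 := cd1q1) (C2 := cd1q1) (C3 := pd3)
    rfl k0_mm_113

noncomputable def f_mm_123_a : ℕ → ℕ → ℕ → ℕ → Bool := onCell 536870912 536870912 0 536870912 780900216 37827925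
    (rowB 3 eng mog cd1q1 cd1q2a pd3 0 true false false .npn 1 2 3 (qsf 536870912 536870912 0 536870912 3) ndB1q1 ndB1q2a pcB3 Cut.none Ext.none)

def k0_mm_123_a : ∃ t, chk3 f_mm_123_a t 1 1 1 = true :=
  ⟨(l 4), by decide +kernel⟩

theorem c_mm_123_a : CertB 536870912 536870912 0 536870912 780900216 37827925 3 eng mog cd1q1 cd1q2a pd3 true false false .npn 1 2 3
    ndB1q1 ndB1q2a pcB3 Cut.none Ext.none :=
  certB0 (fam := true) (s1 := false) (s2 := false) (a := 1) (b := 2) (c := 3) (cn := .npn) (n1 := ndB1q1) (n2 := ndB1q2a) (pc := pcB3) (cut := Cut.none) (xt := Ext.none) (P1 := 536870912) (W1 := 536870912) (P2 := 0) (W2 := 536870912) (P3 := 780900216) (W3 := 37827925) (N0 := 3) (En := eng) (mo := mog) (C1 := cd1q1) (C2 := cd1q2a) (C3 := pd3)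
    rfl k0_mm_123_a

noncomputable def f_mm_123_b : ℕ → ℕ → ℕ → ℕ → Bool := onCell 536870912 536870912 1239849684 370763052 780900216 37827925
    (rowB 3 eng mog cd1q1 cd1q2b pd3 0 true false false .npn 1 2 3 (qsf 536870912 536870912 1239849684 370763052 3) ndB1q1 ndB1q2b pcB3 Cut.none Ext.none)

def k0_mm_123_b : ∃ t, chk3 f_mm_123_b t 1 1 1 = true :=
  ⟨(l 5), by decide +kernel⟩

theorem c_mm_123_b : CertB 536870912 536870912 1239849684 370763052 780900216 37827925 3 eng mog cd1q1 cd1q2b pd3 true false false .npn 1 2 3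
    ndB1q1 ndB1q2b pcB3 Cut.none Ext.none :=
  certB0 (fam := true) (s1 := false) (s2 := false) (a := 1) (b := 2) (c := 3) (cn := .npn) (n1 := ndB1q1) (n2 := ndB1q2b) (pc := pcB3) (cut := Cut.none) (xt := Ext.none) (P1 := 536870912) (W1 := 536870912) (P2 := 1239849684) (W2 := 370763052) (P3 := 780900216) (W3 := 37827925) (N0 := 3) (En := eng) (mo := mog) (C1 := cd1q1) (C2 := cd1q2b) (C3 := pd3)
    rfl k0_mm_123_b

noncomputable def f_mm_133 : ℕ → ℕ → ℕ → ℕ → Bool := onCell 536870912 536870912 1610612736 536870912 780900216 37827925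
    (rowB 3 eng mog cd1q1 cd1q3 pd3 0 true false false .dn 1 3 3 (qsf 536870912 536870912 1610612736 536870912 3) ndB1q1 ndB1q3 pcB3 Cut.none Ext.none)

def k0_mm_133 : ∃ t, chk3 f_mm_133 t 1 1 1 = true :=
  ⟨(l 4), by decide +kernel⟩

theorem c_mm_133 : CertB 536870912 536870912 1610612736 536870912 780900216 37827925 3 eng mog cd1q1 cd1q3 pd3 true false false .dn 1 3 3
    ndB1q1 ndB1q3 pcB3 Cut.none Ext.none :=
  certB0 (fam := true) (s1 := false) (s2 := false) (a := 1) (b := 3) (c := 3) (cn := .dn) (n1 := ndB1q1) (n2 := ndB1q3) (pc := pcB3) (cut := Cut.none) (xt := Ext.none) (P1 := 536870912) (W1 := 536870912) (P2 := 1610612736) (W2 := 536870912) (P3 := 780900216) (W3 := 37827925) (N0 := 3) (En := eng) (mo := mog) (C1 := cd1q1) (C2 := cd1q3) (C3 := pd3)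
    rfl k0_mm_133

noncomputable def cut_mm_202_a : Cut := Cut.of [[⟨0, 1, 0, 67108864⟩, ⟨1, 0, 0, 67108864⟩, ⟨2, 1, 0, 67108864⟩]]

noncomputable def f_mm_202_a : ℕ → ℕ → ℕ → ℕ → Bool := onCell 0 536870912 0 536870912 780900216 37827925
    (rowB 3 eng mog cd1q2a cd1q0 pd2 0 true false false .pp 2 0 2 (qsf 0 536870912 0 536870912 2) ndB1q2a ndB1q0 pcB2 cut_mm_202_a Ext.none)

def k0_mm_202_a : ∃ t, chk3 f_mm_202_a t 2 2 1 = true :=
  ⟨(b (b (a (b (a (b (l 16416336) (l 16429768)) (b (l 16353280) (l 16452152))) (a (l 16386672) (l 16472728))) (a (b (b (b (l 16439424) (l 16470808)) (l 16483576)) (l 16505728)) (b (b (a (l 16469256) (a (l 16503776) (l 16513264))) (a (l 16510976) (l 16530616))) (b (l 16599168) (l 16550880))))) (a (b (a (l 16473264) (l 16497760)) (l 16593736)) (b (a (l 16553160) (b (l 16559960) (l 16570456))) (a (l 16556800) (b (l 16581848) (l 16593728)))))) (a (b (b (l 16536296) (l 16566240)) (b (l 16595576) (l 16617864))) (b (b (a (l 16582408)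 (l 16611360)) (a (l 16603728) (a (l 16625704) (l 16645680)))) (b (a (l 16626536) (a (l 16651912) (l 16676176))) (a (l 16653776) (l 4)))))), by decide +kernel⟩

def k1_mm_202_a : ∃ t, chk3 f_mm_202_a t 3 4 1 = true :=
  ⟨(a (b (a (b (b (a (a (l 16502120) (l 16512208)) (a (b (l 16538128) (l 16550112)) (b (l 16550200) (l 16562304)))) (a (l 16551048) (b (l 16568072) (l 16579560)))) (b (a (l 16569992) (l 16593232)) (a (l 16577304) (l 16599608)))) (b (b (a (b (a (l 16562720) (l 16575672)) (a (l 16574952) (l 16588048))) (b (a (l 16589040) (l 16581832)) (a (l 16601576) (l 16615512)))) (a (b (l 16593696) (l 16605504)) (b (l 16621032) (l 16633200)))) (a (b (l 16619408) (l 16625280)) (b (a (l 16641592) (l 16657824)) (l 16655760))))) (a (a (b (l 16591520) (l 16635872)) (b (l 16613368) (a (l 16631152) (l 16642336)))) (b (a (b (l 16633384) (l 16643344)) (b (a (l 16655216) (l 16650504)) (c (l 16696504) (l 16673536)))) (a (b (l 16634464) (l 16671248)) (b (l 71638425559)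 (l 4)))))) (b (a (b (a (b (b (a (a (l 16613328) (l 16620488)) (a (l 16628632) (l 16617408))) (a (l 16629840) (a (l 16641664) (l 16651424)))) (a (b (l 16642520) (l 16654968)) (b (l 16638408) (l 16671960)))) (b (b (a (b (l 6) (l 16677808)) (l 6)) (a (a (l 16661464) (l 16650792)) (a (l 16661360) (l 6)))) (a (b (l 16648032) (l 16692112)) (b (b (l 16676480) (l 16703840)) (l 16713336))))) (a (b (a (l 16673264) (l 16690456)) (a (l 16681464) (l 16698424))) (b (a (l 16706032) (b (l 16719432) (l 16724392))) (a (b (l 16712056) (l 16697744)) (b (l 16731776) (l 4)))))) (b (a (b (l 6) (a (b (l 6) (a (l 16727664) (l 16735728))) (l 6))) (l 6)) (a (b (a (b (a (l 16731992) (l 16742304)) (l 4)) (l 4)) (l 4)) (l 4)))) (a (a (b (b (a (l 16690240) (l 16710552)) (l 4)) (l 4)) (l 4)) (l 4)))), by decide +kernel⟩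

def k2_mm_202_a : ∃ t, chk3 f_mm_202_a t 3 5 1 = true :=
  ⟨(a (b (a (a (b (l 16641248) (l 16693056)) (b (b (l 16616760) (l 16676624)) (l 4))) (l 4)) (l 4)) (l 4)), by decide +kernel⟩

def k3_mm_202_a : ∃ t, chk3 f_mm_202_a t 1 3 1 = true :=
  ⟨(a (b (a (b (b (a (l 16631664) (l 16652216)) (a (l 16655712) (l 16679704))) (b (a (l 16680704) (l 16708056)) (a (l 16706488) (l 4)))) (b (a (b (l 16705248) (l 4)) (l 4)) (l 4))) (a (l 2) (l 4))) (l 4)), by decide +kernel⟩

theorem s4_mm_202_a : ∃ t, chk3 f_mm_202_a t 3 2 1 = true := ex3_b k1_mm_202_a k2_mm_202_a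

theorem s5_mm_202_a : ∃ t, chk3 f_mm_202_a t 1 2 1 = true := ex3_a k0_mm_202_a s4_mm_202_a

theorem s6_mm_202_a : ∃ t, chk3 f_mm_202_a t 1 1 1 = true := ex3_b s5_mm_202_a k3_mm_202_a

theorem c_mm_202_a : CertB 0 536870912 0 536870912 780900216 37827925 3 eng mog cd1q2a cd1q0 pd2 true false false .pp 2 0 2
    ndB1q2a ndB1q0 pcB2 cut_mm_202_a Ext.none :=
  certB0 (fam := true) (s1 := false) (s2 := false) (a := 2) (b := 0) (c := 2) (cn := .pp) (n1 := ndB1q2a) (n2 := ndB1q0) (pc := pcB2) (cut := cut_mm_202_a) (xt := Ext.none) (P1 := 0) (W1 := 536870912) (P2 := 0) (W2 := 536870912) (P3 := 780900216) (W3 := 37827925) (N0 := 3) (En := eng) (mo := mog) (C1 := cd1q2a) (C2 := cd1q0) (C3 := pd2)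
    rfl s6_mm_202_a

noncomputable def cut_mm_202_b : Cut := Cut.of [[⟨0, 1, 0, 67108864⟩, ⟨1, 0, 0, 67108864⟩, ⟨2, 1, 0, 67108864⟩]]

noncomputable def f_mm_202_b : ℕ → ℕ → ℕ → ℕ → Bool := onCell 1239849684 370763052 1073741824 536870912 780900216 37827925
    (rowB 3 eng mog cd1q2b cd1q0 pd2 1 true false false .pp 2 0 2 (qsf 1239849684 370763052 0 536870912 2) ndB1q2b ndB1q0 pcB2 cut_mm_202_b Ext.none)

def k0_mm_202_b : ∃ t, chk3 f_mm_202_b t 1 1 1 = true :=
  ⟨(b (a (b (l 1) (b (a (a (b (b (l 1) (a (l 16356048) (l 1))) (a (l 16380440) (l 16286568))) (l 1)) (l 1)) (a (a (b (a (l 16365312) (l 16338592)) (a (l 16431328) (l 16362056))) (b (b (l 16219984) (l 16235192)) (a (l 16291632) (l 16220288)))) (a (b (l 1) (l 16196456)) (l 1))))) (l 1)) (a (b (b (a (a (b (a (l 16455392) (l 16387920)) (l 16449184)) (b (l 16285032) (l 16315192))) (b (a (l 16165232) (l 1)) (a (l 16178064) (l 16037752)))) (a (a (b (l 16479632) (l 16513184)) (b (l 16347120) (l 16339128)))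 (a (b (l 16213080) (l 16249104)) (b (l 16076056) (l 16115400))))) (b (a (b (l 16589880) (l 16521592)) (b (a (l 16286848) (l 16155408)) (a (l 16327984) (l 16197152)))) (a (b (l 16556944) (l 16589208)) (b (l 16309504) (l 16356752))))) (b (a (b (l 1) (b (a (l 15936728) (l 1)) (a (l 15978904) (l 15841184)))) (l 1)) (b (a (b (l 27412580695) (l 16001536)) (b (l 1) (l 15735856))) (a (b (l 16049184) (l 16098992)) (b (l 15787360) (l 15841208))))))), by decide +kernel⟩

theorem c_mm_202_b : CertB 1239849684 370763052 0 536870912 780900216 37827925 3 eng mog cd1q2b cd1q0 pd2 true false false .pp 2 0 2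
    ndB1q2b ndB1q0 pcB2 cut_mm_202_b Ext.none :=
  certB1 (fam := true) (s1 := false) (s2 := false) (a := 2) (b := 0) (c := 2) (cn := .pp) (n1 := ndB1q2b) (n2 := ndB1q0) (pc := pcB2) (cut := cut_mm_202_b) (xt := Ext.none) (P1 := 1239849684) (W1 := 370763052) (P2 := 0) (W2 := 536870912) (P3 := 780900216) (W3 := 37827925) (N0 := 3) (En := eng) (mo := mog) (C1 := cd1q2b) (C2 := cd1q0) (C3 := pd2)
    rfl (fun _ => rfl) k0_mm_202_b

noncomputable def f_mm_203_a : ℕ → ℕ → ℕ → ℕ → Bool := onCell 0 536870912 1610612736 536870912 780900216 37827925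
    (rowB 3 eng mog cd1q2a cd1q0 pd3 1 true false false .up 2 0 3 (qsf 0 536870912 0 536870912 3) ndB1q2a ndB1q0 pcB3 Cut.none Ext.none)

def k0_mm_203_a : ∃ t, chk3 f_mm_203_a t 1 1 1 = true :=
  ⟨(b (b (a (a (b (b (l 23857332599) (l 4)) (l 4)) (l 4)) (l 4)) (l 4)) (l 2)), by decide +kernel⟩

theorem c_mm_203_a : CertB 0 536870912 0 536870912 780900216 37827925 3 eng mog cd1q2a cd1q0 pd3 true false false .up 2 0 3
    ndB1q2a ndB1q0 pcB3 Cut.none Ext.none :=
  certB1 (fam := true) (s1 := false) (s2 := false) (a := 2) (b := 0) (c := 3) (cn := .up) (n1 := ndB1q2a) (n2 := ndB1q0) (pc := pcB3) (cut := Cut.none) (xt := Ext.none) (P1 := 0) (W1 := 536870912) (P2 := 0) (W2 := 536870912) (P3 := 780900216) (W3 := 37827925) (N0 := 3) (En := eng) (mo := mog) (C1 := cd1q2a) (C2 := cd1q0) (C3 := pd3)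
    rfl (fun _ => rfl) k0_mm_203_a

noncomputable def f_mm_203_b : ℕ → ℕ → ℕ → ℕ → Bool := onCell 1239849684 370763052 1610612736 536870912 780900216 37827925
    (rowB 3 eng mog cd1q2b cd1q0 pd3 1 true false false .up 2 0 3 (qsf 1239849684 370763052 0 536870912 3) ndB1q2b ndB1q0 pcB3 Cut.none Ext.none)

def k0_mm_203_b : ∃ t, chk3 f_mm_203_b t 1 1 1 = true :=
  ⟨(b (b (b (b (a (a (l 16620000) (l 16403792)) (a (a (l 16212664) (l 16084824)) (l 15896288))) (a (l 4) (a (l 15974328) (l 15953312)))) (l 4)) (l 4)) (l 4)), by decide +kernel⟩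

theorem c_mm_203_b : CertB 1239849684 370763052 0 536870912 780900216 37827925 3 eng mog cd1q2b cd1q0 pd3 true false false .up 2 0 3
    ndB1q2b ndB1q0 pcB3 Cut.none Ext.none :=
  certB1 (fam := true) (s1 := false) (s2 := false) (a := 2) (b := 0) (c := 3) (cn := .up) (n1 := ndB1q2b) (n2 := ndB1q0) (pc := pcB3) (cut := Cut.none) (xt := Ext.none) (P1 := 1239849684) (W1 := 370763052) (P2 := 0) (W2 := 536870912) (P3 := 780900216) (W3 := 37827925) (N0 := 3) (En := eng) (mo := mog) (C1 := cd1q2b) (C2 := cd1q0) (C3 := pd3)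
    rfl (fun _ => rfl) k0_mm_203_b

noncomputable def f_mm_213_a : ℕ → ℕ → ℕ → ℕ → Bool := onCell 0 536870912 536870912 536870912 780900216 37827925
    (rowB 3 eng mog cd1q2a cd1q1 pd3 0 true false false .pnn 2 1 3 (qsf 0 536870912 536870912 536870912 3) ndB1q2a ndB1q1 pcB3 Cut.none Ext.none)

def k0_mm_213_a : ∃ t, chk3 f_mm_213_a t 1 1 1 = true :=
  ⟨(l 4), by decide +kernel⟩

theorem c_mm_213_a : CertB 0 536870912 536870912 536870912 780900216 37827925 3 eng mog cd1q2a cd1q1 pd3 true false false .pnn 2 1 3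
    ndB1q2a ndB1q1 pcB3 Cut.none Ext.none :=
  certB0 (fam := true) (s1 := false) (s2 := false) (a := 2) (b := 1) (c := 3) (cn := .pnn) (n1 := ndB1q2a) (n2 := ndB1q1) (pc := pcB3) (cut := Cut.none) (xt := Ext.none) (P1 := 0) (W1 := 536870912) (P2 := 536870912) (W2 := 536870912) (P3 := 780900216) (W3 := 37827925) (N0 := 3) (En := eng) (mo := mog) (C1 := cd1q2a) (C2 := cd1q1) (C3 := pd3)
    rfl k0_mm_213_a

noncomputable def f_mm_213_b : ℕ → ℕ → ℕ → ℕ → Bool := onCell 1239849684 370763052 536870912 536870912 780900216 37827925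
    (rowB 3 eng mog cd1q2b cd1q1 pd3 0 true false false .pnn 2 1 3 (qsf 1239849684 370763052 536870912 536870912 3) ndB1q2b ndB1q1 pcB3 Cut.none Ext.none)

def k0_mm_213_b : ∃ t, chk3 f_mm_213_b t 1 1 1 = true :=
  ⟨(b (l 4) (l 4)), by decide +kernel⟩

theorem c_mm_213_b : CertB 1239849684 370763052 536870912 536870912 780900216 37827925 3 eng mog cd1q2b cd1q1 pd3 true false false .pnn 2 1 3
    ndB1q2b ndB1q1 pcB3 Cut.none Ext.none :=
  certB0 (fam := true) (s1 := false) (s2 := false) (a := 2) (b := 1) (c := 3) (cn := .pnn) (n1 := ndB1q2b) (n2 := ndB1q1) (pc := pcB3) (cut := Cut.none) (xt := Ext.none) (P1 := 1239849684) (W1 := 370763052) (P2 := 536870912) (W2 := 536870912) (P3 := 780900216) (W3 := 37827925) (N0 := 3) (En := eng) (mo := mog) (C1 := cd1q2b) (C2 := cd1q1) (C3 := pd3)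
    rfl k0_mm_213_b

noncomputable def f_mm_303 : ℕ → ℕ → ℕ → ℕ → Bool := onCell 1610612736 536870912 0 536870912 780900216 37827925
    (rowB 3 eng mog cd1q3 cd1q0 pd3 2 true false false .npn 3 0 3 (qsf 1610612736 536870912 0 536870912 3) ndB1q3 ndB1q0 pcB3 Cut.none Ext.none)

def k0_mm_303 : ∃ t, chk3 f_mm_303 t 1 1 1 = true :=
  ⟨(a (a (b (a (b (a (l 16019128) (b (l 15792688) (l 15974672))) (l 1)) (b (a (l 15864288) (l 4)) (l 4))) (l 1)) (l 4)) (l 4)), by decide +kernel⟩

theorem c_mm_303 : CertB 1610612736 536870912 0 536870912 780900216 37827925 3 eng mog cd1q3 cd1q0 pd3 true false false .npn 3 0 3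
    ndB1q3 ndB1q0 pcB3 Cut.none Ext.none :=
  certB2 (fam := true) (s1 := false) (s2 := false) (a := 3) (b := 0) (c := 3) (cn := .npn) (n1 := ndB1q3) (n2 := ndB1q0) (pc := pcB3) (cut := Cut.none) (xt := Ext.none) (P1 := 1610612736) (W1 := 536870912) (P2 := 0) (W2 := 536870912) (P3 := 780900216) (W3 := 37827925) (N0 := 3) (En := eng) (mo := mog) (C1 := cd1q3) (C2 := cd1q0) (C3 := pd3)
    rfl (fun _ => rfl) k0_mm_303

noncomputable def f_mm_313 : ℕ → ℕ → ℕ → ℕ → Bool := onCell 1610612736 536870912 536870912 536870912 780900216 37827925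
    (rowB 3 eng mog cd1q3 cd1q1 pd3 0 true false false .dn 3 1 3 (qsf 1610612736 536870912 536870912 536870912 3) ndB1q3 ndB1q1 pcB3 Cut.none Ext.none)

def k0_mm_313 : ∃ t, chk3 f_mm_313 t 1 1 1 = true :=
  ⟨(l 4), by decide +kernel⟩

theorem c_mm_313 : CertB 1610612736 536870912 536870912 536870912 780900216 37827925 3 eng mog cd1q3 cd1q1 pd3 true false false .dn 3 1 3
    ndB1q3 ndB1q1 pcB3 Cut.none Ext.none :=
  certB0 (fam := true) (s1 := false) (s2 := false) (a := 3) (b := 1) (c := 3) (cn := .dn) (n1 := ndB1q3) (n2 := ndB1q1) (pc := pcB3) (cut := Cut.none) (xt := Ext.none) (P1 := 1610612736) (W1 := 536870912) (P2 := 536870912) (W2 := 536870912) (P3 := 780900216) (W3 := 37827925) (N0 := 3) (En := eng) (mo := mog) (C1 := cd1q3) (C2 := cd1q1) (C3 := pd3)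
    rfl k0_mm_313

end Pool.Agent.Strip051.G.I72727_7625.Tab.C.BA11

namespace Pool.Agent.Strip051.G.I72727_7625.Tab.C.BA12

open Pool.Agent.Strip051.PB Pool.Agent.Strip051.PB.T
open Pool.Agent.Strip051.G.I72727_7625.Tab

noncomputable def f_pp_001 : ℕ → ℕ → ℕ → ℕ → Bool := onCell 0 536870912 0 536870912 780900216 37827925
    (rowB 3 eng mog cd1q0 cd2q0 pd1 0 true true true .up 0 0 1 (qsf 0 536870912 0 536870912 1) ndB1q0 ndB2q0 pcB1 Cut.none Ext.none)

def k0_pp_001 : ∃ t, chk3 f_pp_001 t 1 1 1 = true :=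
  ⟨(l 4), by decide +kernel⟩

theorem c_pp_001 : CertB 0 536870912 0 536870912 780900216 37827925 3 eng mog cd1q0 cd2q0 pd1 true true true .up 0 0 1
    ndB1q0 ndB2q0 pcB1 Cut.none Ext.none :=
  certB0 (fam := true) (s1 := true) (s2 := true) (a := 0) (b := 0) (c := 1) (cn := .up) (n1 := ndB1q0) (n2 := ndB2q0) (pc := pcB1) (cut := Cut.none) (xt := Ext.none) (P1 := 0) (W1 := 536870912) (P2 := 0) (W2 := 536870912) (P3 := 780900216) (W3 := 37827925) (N0 := 3) (En := eng) (mo := mog) (C1 := cd1q0) (C2 := cd2q0) (C3 := pd1)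
    rfl k0_pp_001

noncomputable def f_pp_011 : ℕ → ℕ → ℕ → ℕ → Bool := onCell 0 536870912 536870912 536870912 780900216 37827925
    (rowB 3 eng mog cd1q0 cd2q1 pd1 0 true true true .pnn 0 1 1 (qsf 0 536870912 536870912 536870912 1) ndB1q0 ndB2q1 pcB1 Cut.none Ext.none)

def k0_pp_011 : ∃ t, chk3 f_pp_011 t 1 1 1 = true :=
  ⟨(l 4), by decide +kernel⟩

theorem c_pp_011 : CertB 0 536870912 536870912 536870912 780900216 37827925 3 eng mog cd1q0 cd2q1 pd1 true true true .pnn 0 1 1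
    ndB1q0 ndB2q1 pcB1 Cut.none Ext.none :=
  certB0 (fam := true) (s1 := true) (s2 := true) (a := 0) (b := 1) (c := 1) (cn := .pnn) (n1 := ndB1q0) (n2 := ndB2q1) (pc := pcB1) (cut := Cut.none) (xt := Ext.none) (P1 := 0) (W1 := 536870912) (P2 := 536870912) (W2 := 536870912) (P3 := 780900216) (W3 := 37827925) (N0 := 3) (En := eng) (mo := mog) (C1 := cd1q0) (C2 := cd2q1) (C3 := pd1)
    rfl k0_pp_011

noncomputable def f_pp_012 : ℕ → ℕ → ℕ → ℕ → Bool := onCell 0 536870912 536870912 536870912 780900216 37827925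
    (rowB 3 eng mog cd1q0 cd2q1 pd2 0 true true true .pnp 0 1 2 (qsf 0 536870912 536870912 536870912 2) ndB1q0 ndB2q1 pcB2 Cut.none Ext.none)

def k0_pp_012 : ∃ t, chk3 f_pp_012 t 1 1 1 = true :=
  ⟨(l 4), by decide +kernel⟩

theorem c_pp_012 : CertB 0 536870912 536870912 536870912 780900216 37827925 3 eng mog cd1q0 cd2q1 pd2 true true true .pnp 0 1 2
    ndB1q0 ndB2q1 pcB2 Cut.none Ext.none :=
  certB0 (fam := true) (s1 := true) (s2 := true) (a := 0) (b := 1) (c := 2) (cn := .pnp) (n1 := ndB1q0) (n2 := ndB2q1) (pc := pcB2) (cut := Cut.none) (xt := Ext.none) (P1 := 0) (W1 := 536870912) (P2 := 536870912) (W2 := 536870912) (P3 := 780900216) (W3 := 37827925) (N0 := 3) (En := eng) (mo := mog) (C1 := cd1q0) (C2 := cd2q1) (C3 := pd2)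
    rfl k0_pp_012

noncomputable def cut_pp_022_a : Cut := Cut.of [[⟨0, 0, 0, 67108864⟩, ⟨1, 1, 0, 67108864⟩, ⟨2, 1, 0, 67108864⟩]]

noncomputable def f_pp_022_a : ℕ → ℕ → ℕ → ℕ → Bool := onCell 0 536870912 0 536870912 780900216 37827925
    (rowB 3 eng mog cd1q0 cd2q2a pd2 0 true true true .pp 0 2 2 (qsf 0 536870912 0 536870912 2) ndB1q0 ndB2q2a pcB2 cut_pp_022_a Ext.none)

def k0_pp_022_a : ∃ t, chk3 f_pp_022_a t 1 1 1 = true :=
  ⟨(a (b (a (a (b (b (a (a (l 16456216) (l 16470816)) (l 16483800)) (a (a (l 16466504) (l 16473888)) (a (l 16482696) (l 16492784)))) (a (b (a (b (l 16475744) (l 16486544)) (l 16487984)) (a (b (l 16501000) (l 16519296)) (b (l 16506928) (l 16524920)))) (b (l 16522808) (a (b (l 16515536) (l 16490984)) (l 16492312))))) (b (a (b (l 16505024) (l 16510016)) (b (l 16527984) (l 16535048))) (a (b (a (l 16518952) (l 16531704)) (a (l 16482880) (l 16581856))) (b (a (l 16545736) (l 16561368)) (a (l 16599952) (l 4)))))) (a (b (a (b (l 16551208)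 (l 16562240)) (b (l 16576880) (l 16593856))) (a (b (l 16608792) (l 4)) (l 4))) (b (a (b (l 16607544) (l 4)) (l 4)) (l 4)))) (a (b (a (a (a (b (b (l 16541624) (b (l 16560776) (l 16574512))) (b (a (l 16585304) (l 16597240)) (a (b (l 16601120) (l 16611944)) (l 16619072)))) (b (b (l 16547248) (l 16573336)) (b (l 16603144) (a (l 16631296) (l 16639576))))) (b (b (a (l 16554720) (l 16543216)) (a (l 16580464) (b (l 16583112) (l 16597656)))) (a (b (l 16610608) (b (l 16637256) (l 16657872))) (b (b (l 16614176) (l 4)) (l 4))))) (b (a (a (b (l 16577304) (l 16606584)) (l 4)) (l 4)) (l 4))) (a (b (a (a (b (b (a (l 16601920) (l 16635752)) (a (a (l 16613120) (l 16619696)) (l 16608512))) (a (b (b (l 16630968) (l 6)) (l 6)) (a (b (l 16645840) (l 6)) (b (l 16652328) (l 16693888))))) (b (b (a (l 16648400) (l 16660368)) (a (l 16663272) (l 16673800))) (a (b (l 16682168) (a (l 16699120) (l 4))) (l 4)))) (a (b (b (l 16672848) (l 4)) (l 4)) (l 4))) (a (a (l 6) (l 4)) (l 4)))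 (l 4))) (l 4))) (l 4)), by decide +kernel⟩

theorem c_pp_022_a : CertB 0 536870912 0 536870912 780900216 37827925 3 eng mog cd1q0 cd2q2a pd2 true true true .pp 0 2 2
    ndB1q0 ndB2q2a pcB2 cut_pp_022_a Ext.none :=
  certB0 (fam := true) (s1 := true) (s2 := true) (a := 0) (b := 2) (c := 2) (cn := .pp) (n1 := ndB1q0) (n2 := ndB2q2a) (pc := pcB2) (cut := cut_pp_022_a) (xt := Ext.none) (P1 := 0) (W1 := 536870912) (P2 := 0) (W2 := 536870912) (P3 := 780900216) (W3 := 37827925) (N0 := 3) (En := eng) (mo := mog) (C1 := cd1q0) (C2 := cd2q2a) (C3 := pd2)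
    rfl k0_pp_022_a

noncomputable def cut_pp_022_b : Cut := Cut.of [[⟨0, 0, 0, 67108864⟩, ⟨1, 1, 0, 67108864⟩, ⟨2, 1, 0, 67108864⟩]]

noncomputable def f_pp_022_b : ℕ → ℕ → ℕ → ℕ → Bool := onCell 0 536870912 1073741824 536870912 780900216 37827925
    (rowB 3 eng mog cd1q0 cd2q2b pd2 1 true true true .pp 0 2 2 (qsf 0 536870912 1239849684 370763052 2) ndB1q0 ndB2q2b pcB2 cut_pp_022_b Ext.none)

def k0_pp_022_b : ∃ t, chk3 f_pp_022_b t 1 1 1 = true :=
  ⟨(b (a (b (l 1) (a (b (a (b (a (b (l 1) (l 25802743671)) (l 1)) (a (a (l 16428800) (l 16478008)) (b (l 1) (l 16527536)))) (l 1)) (b (a (a (b (l 16400136) (l 16363584)) (b (l 16497296) (l 16463024))) (a (b (l 1) (l 16544976)) (l 1))) (a (a (l 16307688) (l 16407160)) (a (b (l 16517072) (l 16486944)) (b (l 1) (l 16566704)))))) (l 1))) (l 1)) (b (a (a (b (b (a (a (l 16234864) (l 16334024)) (a (l 16432360) (l 16525632))) (a (a (l 16164736) (l 16263496)) (a (l 16361544) (l 16458944)))) (b (a (l 16146584) (l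 16383952)) (a (l 16081184) (l 16275432)))) (b (a (b (a (l 246457103271) (l 1)) (a (l 16547952) (l 279206238103))) (l 1)) (a (b (a (l 16488040) (l 16634136)) (a (l 16420544) (l 16518752))) (b (a (l 380674833879) (l 1)) (a (l 226592836103) (l 408592146311)))))) (l 1)) (a (b (a (a (b (l 16018184) (l 15957720)) (b (l 16209400) (l 4))) (l 4)) (l 4)) (a (l 4) (l 1))))), by decide +kernel⟩

theorem c_pp_022_b : CertB 0 536870912 1239849684 370763052 780900216 37827925 3 eng mog cd1q0 cd2q2b pd2 true true true .pp 0 2 2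
    ndB1q0 ndB2q2b pcB2 cut_pp_022_b Ext.none :=
  certB1 (fam := true) (s1 := true) (s2 := true) (a := 0) (b := 2) (c := 2) (cn := .pp) (n1 := ndB1q0) (n2 := ndB2q2b) (pc := pcB2) (cut := cut_pp_022_b) (xt := Ext.none) (P1 := 0) (W1 := 536870912) (P2 := 1239849684) (W2 := 370763052) (P3 := 780900216) (W3 := 37827925) (N0 := 3) (En := eng) (mo := mog) (C1 := cd1q0) (C2 := cd2q2b) (C3 := pd2)
    rfl (fun _ => rfl) k0_pp_022_b

noncomputable def f_pp_023_a : ℕ → ℕ → ℕ → ℕ → Bool := onCell 0 536870912 0 536870912 780900216 37827925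
    (rowB 3 eng mog cd1q0 cd2q2a pd3 0 true true true .up 0 2 3 (qsf 0 536870912 0 536870912 3) ndB1q0 ndB2q2a pcB3 Cut.none Ext.none)

def k0_pp_023_a : ∃ t, chk3 f_pp_023_a t 1 1 1 = true :=
  ⟨(a (l 1) (l 4)), by decide +kernel⟩

theorem c_pp_023_a : CertB 0 536870912 0 536870912 780900216 37827925 3 eng mog cd1q0 cd2q2a pd3 true true true .up 0 2 3
    ndB1q0 ndB2q2a pcB3 Cut.none Ext.none :=
  certB0 (fam := true) (s1 := true) (s2 := true) (a := 0) (b := 2) (c := 3) (cn := .up) (n1 := ndB1q0) (n2 := ndB2q2a) (pc := pcB3) (cut := Cut.none) (xt := Ext.none) (P1 := 0) (W1 := 536870912) (P2 := 0) (W2 := 536870912) (P3 := 780900216) (W3 := 37827925) (N0 := 3) (En := eng) (mo := mog) (C1 := cd1q0) (C2 := cd2q2a) (C3 := pd3)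
    rfl k0_pp_023_a

noncomputable def f_pp_023_b : ℕ → ℕ → ℕ → ℕ → Bool := onCell 0 536870912 1610612736 536870912 780900216 37827925
    (rowB 3 eng mog cd1q0 cd2q2b pd3 1 true true true .up 0 2 3 (qsf 0 536870912 1239849684 370763052 3) ndB1q0 ndB2q2b pcB3 Cut.none Ext.none)

def k0_pp_023_b : ∃ t, chk3 f_pp_023_b t 1 1 1 = true :=
  ⟨(b (l 4) (l 4)), by decide +kernel⟩

theorem c_pp_023_b : CertB 0 536870912 1239849684 370763052 780900216 37827925 3 eng mog cd1q0 cd2q2b pd3 true true true .up 0 2 3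
    ndB1q0 ndB2q2b pcB3 Cut.none Ext.none :=
  certB1 (fam := true) (s1 := true) (s2 := true) (a := 0) (b := 2) (c := 3) (cn := .up) (n1 := ndB1q0) (n2 := ndB2q2b) (pc := pcB3) (cut := Cut.none) (xt := Ext.none) (P1 := 0) (W1 := 536870912) (P2 := 1239849684) (W2 := 370763052) (P3 := 780900216) (W3 := 37827925) (N0 := 3) (En := eng) (mo := mog) (C1 := cd1q0) (C2 := cd2q2b) (C3 := pd3)
    rfl (fun _ => rfl) k0_pp_023_b

noncomputable def f_pp_033 : ℕ → ℕ → ℕ → ℕ → Bool := onCell 0 536870912 1610612736 536870912 780900216 37827925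
    (rowB 3 eng mog cd1q0 cd2q3 pd3 1 true true true .pnn 0 3 3 (qsf 0 536870912 1610612736 536870912 3) ndB1q0 ndB2q3 pcB3 Cut.none Ext.none)

def k0_pp_033 : ∃ t, chk3 f_pp_033 t 1 1 1 = true :=
  ⟨(b (l 4) (l 4)), by decide +kernel⟩

theorem c_pp_033 : CertB 0 536870912 1610612736 536870912 780900216 37827925 3 eng mog cd1q0 cd2q3 pd3 true true true .pnn 0 3 3
    ndB1q0 ndB2q3 pcB3 Cut.none Ext.none :=
  certB1 (fam := true) (s1 := true) (s2 := true) (a := 0) (b := 3) (c := 3) (cn := .pnn) (n1 := ndB1q0) (n2 := ndB2q3) (pc := pcB3) (cut := Cut.none) (xt := Ext.none) (P1 := 0) (W1 := 536870912) (P2 := 1610612736) (W2 := 536870912) (P3 := 780900216) (W3 := 37827925) (N0 := 3) (En := eng) (mo := mog) (C1 := cd1q0) (C2 := cd2q3) (C3 := pd3)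
    rfl (fun _ => rfl) k0_pp_033

noncomputable def f_pp_101 : ℕ → ℕ → ℕ → ℕ → Bool := onCell 536870912 536870912 0 536870912 780900216 37827925
    (rowB 3 eng mog cd1q1 cd2q0 pd1 0 true true true .npn 1 0 1 (qsf 536870912 536870912 0 536870912 1) ndB1q1 ndB2q0 pcB1 Cut.none Ext.none)

def k0_pp_101 : ∃ t, chk3 f_pp_101 t 1 1 1 = true :=
  ⟨(l 4), by decide +kernel⟩

theorem c_pp_101 : CertB 536870912 536870912 0 536870912 780900216 37827925 3 eng mog cd1q1 cd2q0 pd1 true true true .npn 1 0 1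
    ndB1q1 ndB2q0 pcB1 Cut.none Ext.none :=
  certB0 (fam := true) (s1 := true) (s2 := true) (a := 1) (b := 0) (c := 1) (cn := .npn) (n1 := ndB1q1) (n2 := ndB2q0) (pc := pcB1) (cut := Cut.none) (xt := Ext.none) (P1 := 536870912) (W1 := 536870912) (P2 := 0) (W2 := 536870912) (P3 := 780900216) (W3 := 37827925) (N0 := 3) (En := eng) (mo := mog) (C1 := cd1q1) (C2 := cd2q0) (C3 := pd1)
    rfl k0_pp_101

noncomputable def f_pp_102 : ℕ → ℕ → ℕ → ℕ → Bool := onCell 536870912 536870912 0 536870912 780900216 37827925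
    (rowB 3 eng mog cd1q1 cd2q0 pd2 0 true true true .npp 1 0 2 (qsf 536870912 536870912 0 536870912 2) ndB1q1 ndB2q0 pcB2 Cut.none Ext.none)

def k0_pp_102 : ∃ t, chk3 f_pp_102 t 1 1 1 = true :=
  ⟨(l 4), by decide +kernel⟩

theorem c_pp_102 : CertB 536870912 536870912 0 536870912 780900216 37827925 3 eng mog cd1q1 cd2q0 pd2 true true true .npp 1 0 2
    ndB1q1 ndB2q0 pcB2 Cut.none Ext.none :=
  certB0 (fam := true) (s1 := true) (s2 := true) (a := 1) (b := 0) (c := 2) (cn := .npp) (n1 := ndB1q1) (n2 := ndB2q0) (pc := pcB2) (cut := Cut.none) (xt := Ext.none) (P1 := 536870912) (W1 := 536870912) (P2 := 0) (W2 := 536870912) (P3 := 780900216) (W3 := 37827925) (N0 := 3) (En := eng) (mo := mog) (C1 := cd1q1) (C2 := cd2q0) (C3 := pd2)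
    rfl k0_pp_102

noncomputable def f_pp_112 : ℕ → ℕ → ℕ → ℕ → Bool := onCell 536870912 536870912 536870912 536870912 780900216 37827925
    (rowB 3 eng mog cd1q1 cd2q1 pd2 0 true true true .dn 1 1 2 (qsf 536870912 536870912 536870912 536870912 2) ndB1q1 ndB2q1 pcB2 Cut.none Ext.none)

def k0_pp_112 : ∃ t, chk3 f_pp_112 t 1 1 1 = true :=
  ⟨(l 4), by decide +kernel⟩

theorem c_pp_112 : CertB 536870912 536870912 536870912 536870912 780900216 37827925 3 eng mog cd1q1 cd2q1 pd2 true true true .dn 1 1 2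
    ndB1q1 ndB2q1 pcB2 Cut.none Ext.none :=
  certB0 (fam := true) (s1 := true) (s2 := true) (a := 1) (b := 1) (c := 2) (cn := .dn) (n1 := ndB1q1) (n2 := ndB2q1) (pc := pcB2) (cut := Cut.none) (xt := Ext.none) (P1 := 536870912) (W1 := 536870912) (P2 := 536870912) (W2 := 536870912) (P3 := 780900216) (W3 := 37827925) (N0 := 3) (En := eng) (mo := mog) (C1 := cd1q1) (C2 := cd2q1) (C3 := pd2)
    rfl k0_pp_112

noncomputable def f_pp_113 : ℕ → ℕ → ℕ → ℕ → Bool := onCell 536870912 536870912 536870912 536870912 780900216 37827925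
    (rowB 3 eng mog cd1q1 cd2q1 pd3 0 true true true .nn 1 1 3 (qsf 536870912 536870912 536870912 536870912 3) ndB1q1 ndB2q1 pcB3 Cut.none Ext.none)

def k0_pp_113 : ∃ t, chk3 f_pp_113 t 1 1 1 = true :=
  ⟨(l 4), by decide +kernel⟩

theorem c_pp_113 : CertB 536870912 536870912 536870912 536870912 780900216 37827925 3 eng mog cd1q1 cd2q1 pd3 true true true .nn 1 1 3
    ndB1q1 ndB2q1 pcB3 Cut.none Ext.none :=
  certB0 (fam := true) (s1 := true) (s2 := true) (a := 1) (b := 1) (c := 3) (cn := .nn) (n1 := ndB1q1) (n2 := ndB2q1) (pc := pcB3) (cut := Cut.none) (xt := Ext.none) (P1 := 536870912) (W1 := 536870912) (P2 := 536870912) (W2 := 536870912) (P3 := 780900216) (W3 := 37827925) (N0 := 3) (En := eng) (mo := mog) (C1 := cd1q1) (C2 := cd2q1) (C3 := pd3)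
    rfl k0_pp_113

noncomputable def f_pp_123_a : ℕ → ℕ → ℕ → ℕ → Bool := onCell 536870912 536870912 0 536870912 780900216 37827925
    (rowB 3 eng mog cd1q1 cd2q2a pd3 0 true true true .npn 1 2 3 (qsf 536870912 536870912 0 536870912 3) ndB1q1 ndB2q2a pcB3 Cut.none Ext.none)

def k0_pp_123_a : ∃ t, chk3 f_pp_123_a t 1 1 1 = true :=
  ⟨(l 4), by decide +kernel⟩

theorem c_pp_123_a : CertB 536870912 536870912 0 536870912 780900216 37827925 3 eng mog cd1q1 cd2q2a pd3 true true true .npn 1 2 3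
    ndB1q1 ndB2q2a pcB3 Cut.none Ext.none :=
  certB0 (fam := true) (s1 := true) (s2 := true) (a := 1) (b := 2) (c := 3) (cn := .npn) (n1 := ndB1q1) (n2 := ndB2q2a) (pc := pcB3) (cut := Cut.none) (xt := Ext.none) (P1 := 536870912) (W1 := 536870912) (P2 := 0) (W2 := 536870912) (P3 := 780900216) (W3 := 37827925) (N0 := 3) (En := eng) (mo := mog) (C1 := cd1q1) (C2 := cd2q2a) (C3 := pd3)
    rfl k0_pp_123_a

noncomputable def f_pp_123_b : ℕ → ℕ → ℕ → ℕ → Bool := onCell 536870912 536870912 1239849684 370763052 780900216 37827925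
    (rowB 3 eng mog cd1q1 cd2q2b pd3 0 true true true .npn 1 2 3 (qsf 536870912 536870912 1239849684 370763052 3) ndB1q1 ndB2q2b pcB3 Cut.none Ext.none)

def k0_pp_123_b : ∃ t, chk3 f_pp_123_b t 1 1 1 = true :=
  ⟨(l 4), by decide +kernel⟩

theorem c_pp_123_b : CertB 536870912 536870912 1239849684 370763052 780900216 37827925 3 eng mog cd1q1 cd2q2b pd3 true true true .npn 1 2 3
    ndB1q1 ndB2q2b pcB3 Cut.none Ext.none :=
  certB0 (fam := true) (s1 := true) (s2 := true) (a := 1) (b := 2) (c := 3) (cn := .npn) (n1 := ndB1q1) (n2 := ndB2q2b) (pc := pcB3) (cut := Cut.none) (xt := Ext.none) (P1 := 536870912) (W1 := 536870912) (P2 := 1239849684) (W2 := 370763052) (P3 := 780900216) (W3 := 37827925) (N0 := 3) (En := eng) (mo := mog) (C1 := cd1q1) (C2 := cd2q2b) (C3 := pd3)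
    rfl k0_pp_123_b

noncomputable def f_pp_133 : ℕ → ℕ → ℕ → ℕ → Bool := onCell 536870912 536870912 1610612736 536870912 780900216 37827925
    (rowB 3 eng mog cd1q1 cd2q3 pd3 0 true true true .dn 1 3 3 (qsf 536870912 536870912 1610612736 536870912 3) ndB1q1 ndB2q3 pcB3 Cut.none Ext.none)

def k0_pp_133 : ∃ t, chk3 f_pp_133 t 1 1 1 = true :=
  ⟨(l 4), by decide +kernel⟩

theorem c_pp_133 : CertB 536870912 536870912 1610612736 536870912 780900216 37827925 3 eng mog cd1q1 cd2q3 pd3 true true true .dn 1 3 3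
    ndB1q1 ndB2q3 pcB3 Cut.none Ext.none :=
  certB0 (fam := true) (s1 := true) (s2 := true) (a := 1) (b := 3) (c := 3) (cn := .dn) (n1 := ndB1q1) (n2 := ndB2q3) (pc := pcB3) (cut := Cut.none) (xt := Ext.none) (P1 := 536870912) (W1 := 536870912) (P2 := 1610612736) (W2 := 536870912) (P3 := 780900216) (W3 := 37827925) (N0 := 3) (En := eng) (mo := mog) (C1 := cd1q1) (C2 := cd2q3) (C3 := pd3)
    rfl k0_pp_133

noncomputable def f_pp_202_a : ℕ → ℕ → ℕ → ℕ → Bool := onCell 0 536870912 0 536870912 780900216 37827925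
    (rowB 3 eng mog cd1q2a cd2q0 pd2 0 true true true .pp 2 0 2 (qsf 0 536870912 0 536870912 2) ndB1q2a ndB2q0 pcB2 Cut.none Ext.none)

def k0_pp_202_a : ∃ t, chk3 f_pp_202_a t 1 1 1 = true :=
  ⟨(l 5), by decide +kernel⟩

theorem c_pp_202_a : CertB 0 536870912 0 536870912 780900216 37827925 3 eng mog cd1q2a cd2q0 pd2 true true true .pp 2 0 2
    ndB1q2a ndB2q0 pcB2 Cut.none Ext.none :=
  certB0 (fam := true) (s1 := true) (s2 := true) (a := 2) (b := 0) (c := 2) (cn := .pp) (n1 := ndB1q2a) (n2 := ndB2q0) (pc := pcB2) (cut := Cut.none) (xt := Ext.none) (P1 := 0) (W1 := 536870912) (P2 := 0) (W2 := 536870912) (P3 := 780900216) (W3 := 37827925) (N0 := 3) (En := eng) (mo := mog) (C1 := cd1q2a) (C2 := cd2q0) (C3 := pd2)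
    rfl k0_pp_202_a

noncomputable def f_pp_202_b : ℕ → ℕ → ℕ → ℕ → Bool := onCell 1239849684 370763052 0 536870912 780900216 37827925
    (rowB 3 eng mog cd1q2b cd2q0 pd2 0 true true true .pp 2 0 2 (qsf 1239849684 370763052 0 536870912 2) ndB1q2b ndB2q0 pcB2 Cut.none Ext.none)

def k0_pp_202_b : ∃ t, chk3 f_pp_202_b t 1 1 1 = true :=
  ⟨(l 5), by decide +kernel⟩

theorem c_pp_202_b : CertB 1239849684 370763052 0 536870912 780900216 37827925 3 eng mog cd1q2b cd2q0 pd2 true true true .pp 2 0 2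
    ndB1q2b ndB2q0 pcB2 Cut.none Ext.none :=
  certB0 (fam := true) (s1 := true) (s2 := true) (a := 2) (b := 0) (c := 2) (cn := .pp) (n1 := ndB1q2b) (n2 := ndB2q0) (pc := pcB2) (cut := Cut.none) (xt := Ext.none) (P1 := 1239849684) (W1 := 370763052) (P2 := 0) (W2 := 536870912) (P3 := 780900216) (W3 := 37827925) (N0 := 3) (En := eng) (mo := mog) (C1 := cd1q2b) (C2 := cd2q0) (C3 := pd2)
    rfl k0_pp_202_b

noncomputable def f_pp_203_a : ℕ → ℕ → ℕ → ℕ → Bool := onCell 0 536870912 0 536870912 780900216 37827925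
    (rowB 3 eng mog cd1q2a cd2q0 pd3 0 true true true .up 2 0 3 (qsf 0 536870912 0 536870912 3) ndB1q2a ndB2q0 pcB3 Cut.none Ext.none)

def k0_pp_203_a : ∃ t, chk3 f_pp_203_a t 1 1 1 = true :=
  ⟨(l 5), by decide +kernel⟩

theorem c_pp_203_a : CertB 0 536870912 0 536870912 780900216 37827925 3 eng mog cd1q2a cd2q0 pd3 true true true .up 2 0 3
    ndB1q2a ndB2q0 pcB3 Cut.none Ext.none :=
  certB0 (fam := true) (s1 := true) (s2 := true) (a := 2) (b := 0) (c := 3) (cn := .up) (n1 := ndB1q2a) (n2 := ndB2q0) (pc := pcB3) (cut := Cut.none) (xt := Ext.none) (P1 := 0) (W1 := 536870912) (P2 := 0) (W2 := 536870912) (P3 := 780900216) (W3 := 37827925) (N0 := 3) (En := eng) (mo := mog) (C1 := cd1q2a) (C2 := cd2q0) (C3 := pd3)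
    rfl k0_pp_203_a

noncomputable def f_pp_203_b : ℕ → ℕ → ℕ → ℕ → Bool := onCell 1239849684 370763052 0 536870912 780900216 37827925
    (rowB 3 eng mog cd1q2b cd2q0 pd3 0 true true true .up 2 0 3 (qsf 1239849684 370763052 0 536870912 3) ndB1q2b ndB2q0 pcB3 Cut.none Ext.none)

def k0_pp_203_b : ∃ t, chk3 f_pp_203_b t 1 1 1 = true :=
  ⟨(l 5), by decide +kernel⟩

theorem c_pp_203_b : CertB 1239849684 370763052 0 536870912 780900216 37827925 3 eng mog cd1q2b cd2q0 pd3 true true true .up 2 0 3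
    ndB1q2b ndB2q0 pcB3 Cut.none Ext.none :=
  certB0 (fam := true) (s1 := true) (s2 := true) (a := 2) (b := 0) (c := 3) (cn := .up) (n1 := ndB1q2b) (n2 := ndB2q0) (pc := pcB3) (cut := Cut.none) (xt := Ext.none) (P1 := 1239849684) (W1 := 370763052) (P2 := 0) (W2 := 536870912) (P3 := 780900216) (W3 := 37827925) (N0 := 3) (En := eng) (mo := mog) (C1 := cd1q2b) (C2 := cd2q0) (C3 := pd3)
    rfl k0_pp_203_b

noncomputable def f_pp_213_a : ℕ → ℕ → ℕ → ℕ → Bool := onCell 0 536870912 536870912 536870912 780900216 37827925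
    (rowB 3 eng mog cd1q2a cd2q1 pd3 0 true true true .pnn 2 1 3 (qsf 0 536870912 536870912 536870912 3) ndB1q2a ndB2q1 pcB3 Cut.none Ext.none)

def k0_pp_213_a : ∃ t, chk3 f_pp_213_a t 1 1 1 = true :=
  ⟨(l 4), by decide +kernel⟩

theorem c_pp_213_a : CertB 0 536870912 536870912 536870912 780900216 37827925 3 eng mog cd1q2a cd2q1 pd3 true true true .pnn 2 1 3
    ndB1q2a ndB2q1 pcB3 Cut.none Ext.none :=
  certB0 (fam := true) (s1 := true) (s2 := true) (a := 2) (b := 1) (c := 3) (cn := .pnn) (n1 := ndB1q2a) (n2 := ndB2q1) (pc := pcB3) (cut := Cut.none) (xt := Ext.none) (P1 := 0) (W1 := 536870912) (P2 := 536870912) (W2 := 536870912) (P3 := 780900216) (W3 := 37827925) (N0 := 3) (En := eng) (mo := mog) (C1 := cd1q2a) (C2 := cd2q1) (C3 := pd3)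
    rfl k0_pp_213_a

noncomputable def f_pp_213_b : ℕ → ℕ → ℕ → ℕ → Bool := onCell 1239849684 370763052 536870912 536870912 780900216 37827925
    (rowB 3 eng mog cd1q2b cd2q1 pd3 0 true true true .pnn 2 1 3 (qsf 1239849684 370763052 536870912 536870912 3) ndB1q2b ndB2q1 pcB3 Cut.none Ext.none)

def k0_pp_213_b : ∃ t, chk3 f_pp_213_b t 1 1 1 = true :=
  ⟨(l 4), by decide +kernel⟩

theorem c_pp_213_b : CertB 1239849684 370763052 536870912 536870912 780900216 37827925 3 eng mog cd1q2b cd2q1 pd3 true true true .pnn 2 1 3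
    ndB1q2b ndB2q1 pcB3 Cut.none Ext.none :=
  certB0 (fam := true) (s1 := true) (s2 := true) (a := 2) (b := 1) (c := 3) (cn := .pnn) (n1 := ndB1q2b) (n2 := ndB2q1) (pc := pcB3) (cut := Cut.none) (xt := Ext.none) (P1 := 1239849684) (W1 := 370763052) (P2 := 536870912) (W2 := 536870912) (P3 := 780900216) (W3 := 37827925) (N0 := 3) (En := eng) (mo := mog) (C1 := cd1q2b) (C2 := cd2q1) (C3 := pd3)
    rfl k0_pp_213_b

noncomputable def f_pp_303 : ℕ → ℕ → ℕ → ℕ → Bool := onCell 1610612736 536870912 0 536870912 780900216 37827925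
    (rowB 3 eng mog cd1q3 cd2q0 pd3 0 true true true .npn 3 0 3 (qsf 1610612736 536870912 0 536870912 3) ndB1q3 ndB2q0 pcB3 Cut.none Ext.none)

def k0_pp_303 : ∃ t, chk3 f_pp_303 t 1 1 1 = true :=
  ⟨(l 5), by decide +kernel⟩

theorem c_pp_303 : CertB 1610612736 536870912 0 536870912 780900216 37827925 3 eng mog cd1q3 cd2q0 pd3 true true true .npn 3 0 3
    ndB1q3 ndB2q0 pcB3 Cut.none Ext.none :=
  certB0 (fam := true) (s1 := true) (s2 := true) (a := 3) (b := 0) (c := 3) (cn := .npn) (n1 := ndB1q3) (n2 := ndB2q0) (pc := pcB3) (cut := Cut.none) (xt := Ext.none) (P1 := 1610612736) (W1 := 536870912) (P2 := 0) (W2 := 536870912) (P3 := 780900216) (W3 := 37827925) (N0 := 3) (En := eng) (mo := mog) (C1 := cd1q3) (C2 := cd2q0) (C3 := pd3)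
    rfl k0_pp_303

noncomputable def f_pp_313 : ℕ → ℕ → ℕ → ℕ → Bool := onCell 1610612736 536870912 536870912 536870912 780900216 37827925
    (rowB 3 eng mog cd1q3 cd2q1 pd3 0 true true true .dn 3 1 3 (qsf 1610612736 536870912 536870912 536870912 3) ndB1q3 ndB2q1 pcB3 Cut.none Ext.none)

def k0_pp_313 : ∃ t, chk3 f_pp_313 t 1 1 1 = true :=
  ⟨(l 4), by decide +kernel⟩

theorem c_pp_313 : CertB 1610612736 536870912 536870912 536870912 780900216 37827925 3 eng mog cd1q3 cd2q1 pd3 true true true .dn 3 1 3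
    ndB1q3 ndB2q1 pcB3 Cut.none Ext.none :=
  certB0 (fam := true) (s1 := true) (s2 := true) (a := 3) (b := 1) (c := 3) (cn := .dn) (n1 := ndB1q3) (n2 := ndB2q1) (pc := pcB3) (cut := Cut.none) (xt := Ext.none) (P1 := 1610612736) (W1 := 536870912) (P2 := 536870912) (W2 := 536870912) (P3 := 780900216) (W3 := 37827925) (N0 := 3) (En := eng) (mo := mog) (C1 := cd1q3) (C2 := cd2q1) (C3 := pd3)
    rfl k0_pp_313

noncomputable def f_pm_001 : ℕ → ℕ → ℕ → ℕ → Bool := onCell 0 536870912 0 536870912 780900216 37827925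
    (rowB 3 eng mog cd1q0 cd2q0 pd1 0 true true false .up 0 0 1 (qsf 0 536870912 0 536870912 1) ndB1q0 ndB2q0 pcB1 Cut.none Ext.none)

def k0_pm_001 : ∃ t, chk3 f_pm_001 t 1 1 1 = true :=
  ⟨(l 3), by decide +kernel⟩

theorem c_pm_001 : CertB 0 536870912 0 536870912 780900216 37827925 3 eng mog cd1q0 cd2q0 pd1 true true false .up 0 0 1
    ndB1q0 ndB2q0 pcB1 Cut.none Ext.none :=
  certB0 (fam := true) (s1 := true) (s2 := false) (a := 0) (b := 0) (c := 1) (cn := .up) (n1 := ndB1q0) (n2 := ndB2q0) (pc := pcB1) (cut := Cut.none) (xt := Ext.none) (P1 := 0) (W1 := 536870912) (P2 := 0) (W2 := 536870912) (P3 := 780900216) (W3 := 37827925) (N0 := 3) (En := eng) (mo := mog) (C1 := cd1q0) (C2 := cd2q0) (C3 := pd1)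
    rfl k0_pm_001

noncomputable def f_pm_011 : ℕ → ℕ → ℕ → ℕ → Bool := onCell 0 536870912 536870912 536870912 780900216 37827925
    (rowB 3 eng mog cd1q0 cd2q1 pd1 1 true true false .pnn 0 1 1 (qsf 0 536870912 536870912 536870912 1) ndB1q0 ndB2q1 pcB1 Cut.none Ext.none)

def k0_pm_011 : ∃ t, chk3 f_pm_011 t 1 1 1 = true :=
  ⟨(l 3), by decide +kernel⟩

theorem c_pm_011 : CertB 0 536870912 536870912 536870912 780900216 37827925 3 eng mog cd1q0 cd2q1 pd1 true true false .pnn 0 1 1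
    ndB1q0 ndB2q1 pcB1 Cut.none Ext.none :=
  certB1 (fam := true) (s1 := true) (s2 := false) (a := 0) (b := 1) (c := 1) (cn := .pnn) (n1 := ndB1q0) (n2 := ndB2q1) (pc := pcB1) (cut := Cut.none) (xt := Ext.none) (P1 := 0) (W1 := 536870912) (P2 := 536870912) (W2 := 536870912) (P3 := 780900216) (W3 := 37827925) (N0 := 3) (En := eng) (mo := mog) (C1 := cd1q0) (C2 := cd2q1) (C3 := pd1)
    rfl (fun _ => rfl) k0_pm_011

noncomputable def f_pm_012 : ℕ → ℕ → ℕ → ℕ → Bool := onCell 1073741824 536870912 536870912 536870912 780900216 37827925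
    (rowB 3 eng mog cd1q0 cd2q1 pd2 2 true true false .pnp 0 1 2 (qsf 0 536870912 536870912 536870912 2) ndB1q0 ndB2q1 pcB2 Cut.none Ext.none)

def k0_pm_012 : ∃ t, chk3 f_pm_012 t 1 1 1 = true :=
  ⟨(a (a (b (l 3) (l 3)) (a (b (b (a (a (a (l 16620048) (l 2)) (l 2)) (l 2)) (a (a (l 3) (a (b (l 16480072) (l 16464424)) (a (b (l 16473960) (l 16455920)) (a (a (l 16461928) (l 16460776)) (l 16501016))))) (b (l 16452976) (l 16426512)))) (a (a (l 3) (a (b (l 3) (l 3)) (b (a (b (l 16440168) (l 16427288)) (b (a (l 16434864) (l 16431376)) (a (l 16420904) (l 16416744)))) (a (l 3) (b (a (l 16431776) (l 16405976)) (a (b (l 3) (l 16409560)) (l 16402968))))))) (b (b (l 16402840) (l 16382240)) (b (l 16365824) (b (l 16358096) (l 16356864)))))) (b (b (l 2) (b (l 16416904) (l 16373936))) (b (b (l 16333624) (l 16296512)) (b (b (l 16271488) (l 16256960)) (b (l 16244840) (l 16236136))))))) (b (a (b (l 2) (a (b (l 2) (l 16329488)) (l 2))) (l 2)) (b (a (a (b (l 16267984) (l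 16209520)) (b (l 16233648) (l 16154544))) (a (b (l 2) (l 16132712)) (l 2))) (a (b (a (l 16155936) (l 16080016)) (a (b (l 16121232) (l 16102736)) (l 16035976))) (b (a (l 16037448) (l 16029648)) (a (l 15951112) (l 15921432))))))), by decide +kernel⟩

theorem c_pm_012 : CertB 0 536870912 536870912 536870912 780900216 37827925 3 eng mog cd1q0 cd2q1 pd2 true true false .pnp 0 1 2
    ndB1q0 ndB2q1 pcB2 Cut.none Ext.none :=
  certB2 (fam := true) (s1 := true) (s2 := false) (a := 0) (b := 1) (c := 2) (cn := .pnp) (n1 := ndB1q0) (n2 := ndB2q1) (pc := pcB2) (cut := Cut.none) (xt := Ext.none) (P1 := 0) (W1 := 536870912) (P2 := 536870912) (W2 := 536870912) (P3 := 780900216) (W3 := 37827925) (N0 := 3) (En := eng) (mo := mog) (C1 := cd1q0) (C2 := cd2q1) (C3 := pd2)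
    rfl (fun _ => rfl) k0_pm_012

noncomputable def cut_pm_022_a : Cut := Cut.of [[⟨0, 0, 0, 67108864⟩, ⟨1, 1, 0, 67108864⟩, ⟨2, 1, 0, 67108864⟩]]

noncomputable def f_pm_022_a : ℕ → ℕ → ℕ → ℕ → Bool := onCell 1073741824 536870912 0 536870912 780900216 37827925
    (rowB 3 eng mog cd1q0 cd2q2a pd2 2 true true false .pp 0 2 2 (qsf 0 536870912 0 536870912 2) ndB1q0 ndB2q2a pcB2 cut_pm_022_a Ext.none)

def k0_pm_022_a : ∃ t, chk3 f_pm_022_a t 2 2 1 = true :=
  ⟨(a (a (l 1) (b (l 1) (a (l 1) (b (l 1) (a (l 1) (b (l 1) (a (l 1) (b (l 16385856) (l 171831550855))))))))) (a (b (a (a (l 1) (b (l 98280104903) (a (l 95058895703) (b (l 16316464) (l 16325984))))) (b (a (l 16318808) (l 16328104)) (a (l 16327808) (l 16336184)))) (a (a (a (b (l 1) (b (b (l 16363048) (l 16375432)) (b (l 16389064) (l 16403928)))) (b (b (l 34929372247) (l 126734291495)) (b (b (l 16366712) (l 16378912)) (l 16399712)))) (a (b (b (a (l 16335672) (l 16337440)) (b (l 16349888) (l 16359504)))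 (b (l 16376480) (l 16402928))) (b (b (l 16340160) (a (l 16357568) (a (l 16358880) (l 16359592)))) (a (b (l 16379184) (l 16405440)) (a (l 16415056) (b (l 16381552) (l 16407880))))))) (b (a (b (l 16345496) (l 16363280)) (l 16361400)) (b (l 16408784) (l 16412696))))) (b (a (b (a (l 16337624) (l 16347272)) (a (l 16344768) (l 16353496))) (b (l 16361104) (l 16366200))) (b (a (a (l 16368408) (l 16375464)) (l 16386040)) (a (a (l 16407904) (l 16412472)) (l 16503856)))))), by decide +kernel⟩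

def k1_pm_022_a : ∃ t, chk3 f_pm_022_a t 8 3 1 = true :=
  ⟨(b (l 1) (b (a (l 1) (b (a (l 1) (b (l 1) (a (l 1) (b (a (l 1) (l 16606288)) (a (l 6) (l 16607912)))))) (a (l 6) (a (l 6) (a (l 6) (a (l 6) (b (l 16626824) (l 16651904)))))))) (a (l 6) (a (l 6) (a (l 6) (b (a (l 6) (l 16622704)) (b (l 16625296) (l 16692872)))))))), by decide +kernel⟩

def k2_pm_022_a : ∃ t, chk3 f_pm_022_a t 9 6 1 = true :=
  ⟨(a (b (l 1) (b (a (l 1) (a (b (l 1) (a (l 1) (b (l 1) (l 156799343991)))) (b (a (l 1) (b (l 1) (l 190085297191))) (a (b (l 171831707415) (l 243772434023)) (b (l 271689699751) (l 16508952)))))) (a (a (l 1) (c (b (l 129955841479) (b (l 136398331703) (l 198138513831))) (b (l 124050219751) (b (l 129955843431) (l 198138478743))))) (a (b (a (b (l 144988206983) (l 195990969495)) (b (l 218539523751) (l 16530248))) (b (a (l 16542104) (l 16543592)) (l 16556560))) (b (c (l 16536104) (l 16516664)) (l 16552736)))))) (b (a (b (a (l 1) (b (l 1) (a (l 1) (c (l 105796477287)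 (l 110628276471))))) (a (b (l 1) (a (b (l 1) (l 110091488839)) (b (l 141766854199) (l 237866769271)))) (b (a (b (l 90227205639) (l 183105896855)) (b (a (l 157336072311) (l 256657193751)) (a (l 16454000) (l 16455456)))) (a (b (l 16471920) (l 16471864)) (l 16475128))))) (b (a (b (a (l 16414256) (l 16436456)) (c (l 108480839895) (l 88079697975))) (b (l 178810908103) (l 16435000))) (a (b (c (l 16468496) (l 16460504)) (l 16471360)) (b (l 16453456) (l 16472664))))) (a (b (a (b (a (b (l 204580791639) (l 16487816)) (b (l 16479496) (l 16490664))) (a (l 16505432) (l 16508016))) (b (a (l 16488112) (l 16491016)) (l 16511960))) (a (b (l 16530920) (l 16556160)) (b (l 16535424) (l 16559880)))) (b (b (l 16513520) (l 16514104)) (b (l 16536640) (l 16560088)))))), by decide +kernel⟩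

def k3_pm_022_a : ∃ t, chk3 f_pm_022_a t 9 7 1 = true :=
  ⟨(a (b (a (b (b (a (b (a (l 1) (l 16580872)) (a (l 16593128) (l 16582832))) (b (a (l 16568368) (l 16569128)) (l 16583448))) (a (b (a (l 16596720) (l 16596696)) (l 16608544)) (l 16623736))) (a (b (b (l 16620536) (l 16632688)) (l 16630280)) (c (l 16580080) (l 16569856)))) (b (b (a (l 16598680) (l 16579824)) (a (l 16603504) (l 16604784))) (a (l 16553816) (l 16637888)))) (a (b (a (c (l 16652392) (l 16679824)) (l 16602416)) (b (a (l 16664032) (l 16653008)) (a (l 16674600) (l 16642688)))) (b (b (l 16650776) (l 16643752)) (b (l 16635168) (a (l 16631024) (l 16618712)))))) (b (a (a (b (b (l 16561408) (l 16606536)) (l 16638552)) (b (b (l 16585240) (l 16608592)) (l 16626280))) (b (l 16595656) (l 16611192))) (b (a (a (l 16628248) (l 16552048)) (l 16536464)) (a (b (a (l 16616032) (l 16602712)) (a (l 16605832) (l 16592464))) (b (l 16586624) (l 16575632)))))), by decide +kernel⟩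

def k4_pm_022_a : ∃ t, chk3 f_pm_022_a t 5 3 1 = true :=
  ⟨(a (b (a (a (b (b (a (b (l 16419992) (l 16437256)) (l 16431256)) (b (l 16477352) (l 16474984))) (b (l 16484008) (l 16547816))) (b (a (b (l 16433960) (l 16468688)) (a (b (l 16436168) (l 16470496)) (b (l 16479960) (l 16556088)))) (a (b (l 16506640) (l 16547904)) (a (l 16507784) (a (l 16529760) (l 16530560)))))) (b (b (l 16441752) (l 16474016)) (b (l 16508944) (l 16546544)))) (a (b (a (b (l 16592368) (l 16592336)) (a (l 16583344) (b (l 16577192) (l 16586328)))) (a (b (l 16579312) (b (l 16565216) (l 16553360))) (a (b (l 16562984) (l 16541832)) (a (b (l 16553784) (l 16532120)) (b (l 16546512) (a (l 16526304) (l 16522176))))))) (b (b (l 16556856) (l 16543168)) (b (l 16525984) (b (l 16508552) (l 16493952)))))) (b (b (a (b (l 16446952) (l 16475656)) (l 16466584)) (a (l 16523944) (l 16520784))) (b (b (l 16607416) (a (l 16511928) (l 16479400))) (b (a (l 16512080) (l 16456072)) (a (a (l 16472144) (l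 16453104)) (l 16426344)))))), by decide +kernel⟩

def k5_pm_022_a : ∃ t, chk3 f_pm_022_a t 3 1 1 = true :=
  ⟨(b (a (a (b (a (b (l 16380312) (l 16384312)) (b (l 16401760) (l 16404464))) (a (b (l 16401848) (l 16348024)) (b (l 16419928) (l 16447184)))) (b (a (b (l 16427536) (l 16429560)) (l 16457208)) (a (b (l 16443000) (l 16465392)) (l 16474696)))) (b (a (a (l 16482480) (l 16504576)) (l 16529712)) (a (b (l 16493856) (l 16495264)) (l 16504512)))) (a (b (a (b (a (l 16473256) (l 16482832)) (a (l 16506640) (l 16483208))) (b (l 16721672) (a (l 16462944) (l 16446512)))) (b (a (b (l 16456656) (a (l 16448896) (l 16422024))) (b (l 16412368) (l 16430568))) (a (a (b (l 16424512) (l 16394016)) (b (l 16396728) (l 16365592))) (b (a (l 16372728) (l 16352520)) (a (l 16340992) (l 16320424)))))) (b (a (b (l 16470272) (a (l 16433568) (l 16423848))) (b (l 16463216) (l 16416080))) (a (b (b (l 16445320) (l 16357304)) (b (l 16329832) (l 16339496))) (b (a (l 16357648) (l 16354344))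 (b (l 16314264) (l 16282248))))))), by decide +kernel⟩

theorem s6_pm_022_a : ∃ t, chk3 f_pm_022_a t 9 3 1 = true := ex3_b k2_pm_022_a k3_pm_022_a

theorem s7_pm_022_a : ∃ t, chk3 f_pm_022_a t 4 3 1 = true := ex3_a k1_pm_022_a s6_pm_022_a

theorem s8_pm_022_a : ∃ t, chk3 f_pm_022_a t 2 3 1 = true := ex3_a s7_pm_022_a k4_pm_022_a

theorem s9_pm_022_a : ∃ t, chk3 f_pm_022_a t 2 1 1 = true := ex3_b k0_pm_022_a s8_pm_022_a

theorem s10_pm_022_a : ∃ t, chk3 f_pm_022_a t 1 1 1 = true := ex3_a s9_pm_022_a k5_pm_022_a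

theorem c_pm_022_a : CertB 0 536870912 0 536870912 780900216 37827925 3 eng mog cd1q0 cd2q2a pd2 true true false .pp 0 2 2
    ndB1q0 ndB2q2a pcB2 cut_pm_022_a Ext.none :=
  certB2 (fam := true) (s1 := true) (s2 := false) (a := 0) (b := 2) (c := 2) (cn := .pp) (n1 := ndB1q0) (n2 := ndB2q2a) (pc := pcB2) (cut := cut_pm_022_a) (xt := Ext.none) (P1 := 0) (W1 := 536870912) (P2 := 0) (W2 := 536870912) (P3 := 780900216) (W3 := 37827925) (N0 := 3) (En := eng) (mo := mog) (C1 := cd1q0) (C2 := cd2q2a) (C3 := pd2)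
    rfl (fun _ => rfl) s10_pm_022_a

noncomputable def cut_pm_022_b : Cut := Cut.of [[⟨0, 0, 0, 67108864⟩, ⟨1, 1, 0, 67108864⟩, ⟨2, 1, 0, 67108864⟩]]

noncomputable def f_pm_022_b : ℕ → ℕ → ℕ → ℕ → Bool := onCell 0 536870912 1239849684 370763052 780900216 37827925
    (rowB 3 eng mog cd1q0 cd2q2b pd2 0 true true false .pp 0 2 2 (qsf 0 536870912 1239849684 370763052 2) ndB1q0 ndB2q2b pcB2 cut_pm_022_b Ext.none)

def k0_pm_022_b : ∃ t, chk3 f_pm_022_b t 2 1 1 = true :=
  ⟨(b (a (b (a (b (a (b (a (b (l 16302272) (l 16269928)) (l 16296856)) (a (a (l 16220176) (l 16331752)) (c (l 16242768) (l 16231544)))) (a (c (b (l 16313320) (l 16254984)) (l 16357768)) (b (l 16339760) (l 16263176)))) (a (a (b (c (l 16171560) (l 16159768)) (c (l 16116696) (l 16106336))) (c (l 16264056) (l 16150248))) (c (b (l 16207688) (l 16159008)) (l 16281776)))) (b (a (b (c (l 16337264) (l 16332904)) (l 16366768)) (b (l 16398648) (l 16309864))) (a (c (l 16235488) (l 16212344)) (c (l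 16247272) (l 16248040))))) (a (c (a (b (a (b (l 16066416) (l 16020840)) (l 16063520)) (a (b (l 15979928) (l 15943720)) (l 15986392))) (b (l 16094520) (l 16024288))) (a (b (b (l 16088280) (l 16022712)) (a (l 15949848) (l 15975408))) (b (l 16088312) (l 16013688)))) (b (a (c (l 16136104) (l 16131696)) (l 16175744)) (a (l 16089176) (l 16119040))))) (b (a (b (a (b (l 16381088) (l 16339264)) (c (l 16387256) (l 16395128))) (c (l 16512624) (l 16390064))) (b (a (l 16425376) (l 16458128)) (a (l 16368232) (l 16410936)))) (a (b (a (l 16220832) (l 16269680)) (l 16452064)) (b (l 16348904) (l 16319192))))) (a (b (a (a (b (c (a (l 15981816) (l 15927208)) (a (l 15880160) (l 15909048))) (c (a (l 15851800) (l 15884648)) (l 15839848))) (b (c (l 15971168) (l 15952328)) (l 15958888))) (b (a (l 16017992) (l 16075904)) (a (l 15981200) (l 16045344)))) (a (b (a (c (l 15839280) (l 15797456)) (l 15886824)) (a (l 15792960) (l 15868472))) (b (a (l 15956760) (l 2)) (l 2)))) (b (a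 (b (l 16335536) (a (l 16111232) (l 2))) (l 2)) (l 2)))), by decide +kernel⟩

def k1_pm_022_b : ∃ t, chk3 f_pm_022_b t 3 1 1 = true :=
  ⟨(b (a (b (a (b (a (l 16488288) (l 16515272)) (l 16470744)) (b (l 16547592) (l 2))) (a (b (l 16447128) (l 2)) (l 2))) (l 2)) (l 2)), by decide +kernel⟩

theorem s2_pm_022_b : ∃ t, chk3 f_pm_022_b t 1 1 1 = true := ex3_a k0_pm_022_b k1_pm_022_b

theorem c_pm_022_b : CertB 0 536870912 1239849684 370763052 780900216 37827925 3 eng mog cd1q0 cd2q2b pd2 true true false .pp 0 2 2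
    ndB1q0 ndB2q2b pcB2 cut_pm_022_b Ext.none :=
  certB0 (fam := true) (s1 := true) (s2 := false) (a := 0) (b := 2) (c := 2) (cn := .pp) (n1 := ndB1q0) (n2 := ndB2q2b) (pc := pcB2) (cut := cut_pm_022_b) (xt := Ext.none) (P1 := 0) (W1 := 536870912) (P2 := 1239849684) (W2 := 370763052) (P3 := 780900216) (W3 := 37827925) (N0 := 3) (En := eng) (mo := mog) (C1 := cd1q0) (C2 := cd2q2b) (C3 := pd2)
    rfl s2_pm_022_b

noncomputable def f_pm_023_a : ℕ → ℕ → ℕ → ℕ → Bool := onCell 1610612736 536870912 0 536870912 780900216 37827925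
    (rowB 3 eng mog cd1q0 cd2q2a pd3 2 true true false .up 0 2 3 (qsf 0 536870912 0 536870912 3) ndB1q0 ndB2q2a pcB3 Cut.none Ext.none)

def k0_pm_023_a : ∃ t, chk3 f_pm_023_a t 1 1 1 = true :=
  ⟨(a (a (b (a (b (l 16552592) (l 16519744)) (b (l 16587344) (l 16545056))) (b (a (b (l 16470944) (l 16419584)) (b (l 16490928) (l 16438992))) (a (b (a (l 16355520) (l 16360080)) (a (l 16298520) (l 16305912))) (b (l 16378936) (l 2))))) (b (a (b (l 16627576) (l 16582368)) (l 2)) (b (l 2) (l 2)))) (l 2)), by decide +kernel⟩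

theorem c_pm_023_a : CertB 0 536870912 0 536870912 780900216 37827925 3 eng mog cd1q0 cd2q2a pd3 true true false .up 0 2 3
    ndB1q0 ndB2q2a pcB3 Cut.none Ext.none :=
  certB2 (fam := true) (s1 := true) (s2 := false) (a := 0) (b := 2) (c := 3) (cn := .up) (n1 := ndB1q0) (n2 := ndB2q2a) (pc := pcB3) (cut := Cut.none) (xt := Ext.none) (P1 := 0) (W1 := 536870912) (P2 := 0) (W2 := 536870912) (P3 := 780900216) (W3 := 37827925) (N0 := 3) (En := eng) (mo := mog) (C1 := cd1q0) (C2 := cd2q2a) (C3 := pd3)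
    rfl (fun _ => rfl) k0_pm_023_a

noncomputable def f_pm_023_b : ℕ → ℕ → ℕ → ℕ → Bool := onCell 1610612736 536870912 1239849684 370763052 780900216 37827925
    (rowB 3 eng mog cd1q0 cd2q2b pd3 2 true true false .up 0 2 3 (qsf 0 536870912 1239849684 370763052 3) ndB1q0 ndB2q2b pcB3 Cut.none Ext.none)

def k0_pm_023_b : ∃ t, chk3 f_pm_023_b t 1 1 1 = true :=
  ⟨(a (a (b (a (b (b (l 16552640) (l 16494784)) (b (l 16413264) (l 16317136))) (b (l 16433392) (l 16478856))) (a (b (a (l 16120768) (l 16192688)) (a (b (l 15955120) (l 15844488)) (l 15975528))) (b (l 16299616) (a (l 16050368) (l 16125720))))) (b (a (b (l 16636624) (l 16571512)) (b (l 16687608) (l 16648776))) (a (b (l 16428360) (l 16262760)) (b (l 16539944) (l 16390016))))) (a (b (b (l 2) (a (l 16703576) (l 4))) (a (b (l 16625080) (l 16518424)) (l 4))) (l 4))), by decide +kernel⟩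

theorem c_pm_023_b : CertB 0 536870912 1239849684 370763052 780900216 37827925 3 eng mog cd1q0 cd2q2b pd3 true true false .up 0 2 3
    ndB1q0 ndB2q2b pcB3 Cut.none Ext.none :=
  certB2 (fam := true) (s1 := true) (s2 := false) (a := 0) (b := 2) (c := 3) (cn := .up) (n1 := ndB1q0) (n2 := ndB2q2b) (pc := pcB3) (cut := Cut.none) (xt := Ext.none) (P1 := 0) (W1 := 536870912) (P2 := 1239849684) (W2 := 370763052) (P3 := 780900216) (W3 := 37827925) (N0 := 3) (En := eng) (mo := mog) (C1 := cd1q0) (C2 := cd2q2b) (C3 := pd3)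
    rfl (fun _ => rfl) k0_pm_023_b

noncomputable def f_pm_033 : ℕ → ℕ → ℕ → ℕ → Bool := onCell 0 536870912 1610612736 536870912 780900216 37827925
    (rowB 3 eng mog cd1q0 cd2q3 pd3 1 true true false .pnn 0 3 3 (qsf 0 536870912 1610612736 536870912 3) ndB1q0 ndB2q3 pcB3 Cut.none Ext.none)

def k0_pm_033 : ∃ t, chk3 f_pm_033 t 1 1 1 = true :=
  ⟨(b (b (a (a (b (a (b (l 15818728) (l 15803336)) (l 320007443735)) (a (b (l 15788808) (l 15778320)) (l 15939400))) (b (l 1) (a (l 16096368) (l 1)))) (l 1)) (a (b (a (a (l 15777416) (l 15924880)) (a (l 16074528) (l 16231512))) (a (b (l 15871736) (l 15904712)) (l 16136184))) (a (b (l 1) (l 16426360)) (l 1)))) (b (a (b (a (l 4) (b (l 16188904) (l 4))) (l 4)) (b (a (b (l 16430272) (l 4)) (l 1)) (l 4))) (l 4))), by decide +kernel⟩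

theorem c_pm_033 : CertB 0 536870912 1610612736 536870912 780900216 37827925 3 eng mog cd1q0 cd2q3 pd3 true true false .pnn 0 3 3
    ndB1q0 ndB2q3 pcB3 Cut.none Ext.none :=
  certB1 (fam := true) (s1 := true) (s2 := false) (a := 0) (b := 3) (c := 3) (cn := .pnn) (n1 := ndB1q0) (n2 := ndB2q3) (pc := pcB3) (cut := Cut.none) (xt := Ext.none) (P1 := 0) (W1 := 536870912) (P2 := 1610612736) (W2 := 536870912) (P3 := 780900216) (W3 := 37827925) (N0 := 3) (En := eng) (mo := mog) (C1 := cd1q0) (C2 := cd2q3) (C3 := pd3)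
    rfl (fun _ => rfl) k0_pm_033

noncomputable def f_pm_101 : ℕ → ℕ → ℕ → ℕ → Bool := onCell 536870912 536870912 0 536870912 780900216 37827925
    (rowB 3 eng mog cd1q1 cd2q0 pd1 2 true true false .npn 1 0 1 (qsf 536870912 536870912 0 536870912 1) ndB1q1 ndB2q0 pcB1 Cut.none Ext.none)

def k0_pm_101 : ∃ t, chk3 f_pm_101 t 1 1 1 = true :=
  ⟨(l 3), by decide +kernel⟩

theorem c_pm_101 : CertB 536870912 536870912 0 536870912 780900216 37827925 3 eng mog cd1q1 cd2q0 pd1 true true false .npn 1 0 1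
    ndB1q1 ndB2q0 pcB1 Cut.none Ext.none :=
  certB2 (fam := true) (s1 := true) (s2 := false) (a := 1) (b := 0) (c := 1) (cn := .npn) (n1 := ndB1q1) (n2 := ndB2q0) (pc := pcB1) (cut := Cut.none) (xt := Ext.none) (P1 := 536870912) (W1 := 536870912) (P2 := 0) (W2 := 536870912) (P3 := 780900216) (W3 := 37827925) (N0 := 3) (En := eng) (mo := mog) (C1 := cd1q1) (C2 := cd2q0) (C3 := pd1)
    rfl (fun _ => rfl) k0_pm_101

end Pool.Agent.Strip051.G.I72727_7625.Tab.C.BA12

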