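import Pool.Agent.Strip051.G.I72727_7625.Gn
import Pool.Agent.Strip051.PB.Corns
import Pool.Agent.Strip051.PB.CornW

/-! # Certificates of the aligned corners (generated) -/

set_option linter.all false

namespace Pool.Agent.Strip051.G.I72727_7625.Tab.CG

open Pool.Agent.Strip051.PB

def B102L_421 :
    ∃ t, chk3 (onCell 0 67108864 0 1073741824 780900216 37827925 (corT true 1 c0B cB102L gB4q1 gB2q2 gB1q0 gB2q0 true true)) t 1 1 1 = true :=
  ⟨(T.a (T.l 0) (T.a (T.l 0) (T.b (T.b (T.l 204) (T.l 204)) (T.b (T.l 204) (T.l 0))))), by decide +kernel⟩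

def B102L_422 :
    ∃ t, chk3 (onCell 0 67108864 0 1073741824 780900216 37827925 (corT true 1 c0B cB102L gB4q1 gB2q2 gB2q0 gB3q0 true false)) t 1 1 1 = true :=
  ⟨(T.b (T.a (T.l 204) (T.b (T.a (T.l 204) (T.l 204)) (T.l 204))) (T.l 1)), by decide +kernel⟩

def B102L_500 :
    ∃ t, chk3 (onCell 0 67108864 0 1073741824 780900216 37827925 (corT true 1 c0B cB102L gB5q1 gB0q2 gB0q0 gB1q0 true true)) t 1 1 1 = true :=
  ⟨(T.b (T.l 2) (T.l 2)), by decide +kernel⟩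

def B102L_501 :
    ∃ t, chk3 (onCell 0 67108864 0 1073741824 780900216 37827925 (corT true 1 c0B cB102L gB5q1 gB0q2 gB1q0 gB2q0 true true)) t 1 1 1 = true :=
  ⟨(T.b (T.l 2) (T.a (T.l 204) (T.b (T.l 2) (T.l 204)))), by decide +kernel⟩

def B102L_502 :
    ∃ t, chk3 (onCell 0 67108864 0 1073741824 780900216 37827925 (corT true 1 c0B cB102L gB5q1 gB0q2 gB2q0 gB3q0 true false)) t 1 1 1 = true :=
  ⟨(T.b (T.b (T.b (T.a (T.a (T.l 204) (T.l 204)) (T.a (T.l 204) (T.l 204))) (T.a (T.l 204) (T.a (T.l 204) (T.l 204)))) (T.a (T.l 204) (T.a (T.l 204) (T.b (T.l 204) (T.l 204))))) (T.a (T.l 0) (T.b (T.b (T.b (T.l 204) (T.l 204)) (T.l 204)) (T.l 204)))), by decide +kernel⟩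

def B102L_510 :
    ∃ t, chk3 (onCell 0 67108864 0 1073741824 780900216 37827925 (corT true 1 c0B cB102L gB5q1 gB1q2 gB0q0 gB1q0 true true)) t 1 1 1 = true :=
  ⟨(T.l 2), by decide +kernel⟩

def B102L_511 :
    ∃ t, chk3 (onCell 0 67108864 0 1073741824 780900216 37827925 (corT true 1 c0B cB102L gB5q1 gB1q2 gB1q0 gB2q0 true true)) t 1 1 1 = true :=
  ⟨(T.b (T.b (T.l 2) (T.l 2)) (T.a (T.l 204) (T.b (T.l 204) (T.l 204)))), by decide +kernel⟩

def B102L_512 :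
    ∃ t, chk3 (onCell 0 67108864 0 1073741824 780900216 37827925 (corT true 1 c0B cB102L gB5q1 gB1q2 gB2q0 gB3q0 true false)) t 1 1 1 = true :=
  ⟨(T.a (T.l 0) (T.b (T.b (T.a (T.l 204) (T.l 204)) (T.l 204)) (T.l 204))), by decide +kernel⟩

def B102L_520 :
    ∃ t, chk3 (onCell 0 67108864 0 1073741824 780900216 37827925 (corT true 1 c0B cB102L gB5q1 gB2q2 gB0q0 gB1q0 true true)) t 1 1 1 = true :=
  ⟨(T.l 2), by decide +kernel⟩

def B102L_521 :
    ∃ t, chk3 (onCell 0 67108864 0 1073741824 780900216 37827925 (corT true 1 c0B cB102L gB5q1 gB2q2 gB1q0 gB2q0 true true)) t 1 1 1 = true :=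
  ⟨(T.a (T.l 0) (T.b (T.b (T.b (T.l 2) (T.l 2)) (T.l 204)) (T.l 204))), by decide +kernel⟩

def B102L_522 :
    ∃ t, chk3 (onCell 0 67108864 0 1073741824 780900216 37827925 (corT true 1 c0B cB102L gB5q1 gB2q2 gB2q0 gB3q0 true false)) t 1 1 1 = true :=
  ⟨(T.a (T.l 0) (T.b (T.b (T.a (T.l 204) (T.l 204)) (T.l 204)) (T.l 1))), by decide +kernel⟩

def B102R_050 :
    ∃ t, chk3 (onCell 0 67108864 0 1073741824 780900216 37827925 (corT true 1 c0B cB102R gB0q1 gB5q2 gB0q0 gB1q0 true true)) t 1 1 1 = true :=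
  ⟨(T.l 1), by decide +kernel⟩

def B102R_051 :
    ∃ t, chk3 (onCell 0 67108864 0 1073741824 780900216 37827925 (corT true 1 c0B cB102R gB0q1 gB5q2 gB1q0 gB2q0 true true)) t 1 1 1 = true :=
  ⟨(T.l 1), by decide +kernel⟩

def B102R_052 :
    ∃ t, chk3 (onCell 0 67108864 0 1073741824 780900216 37827925 (corT true 1 c0B cB102R gB0q1 gB5q2 gB2q0 gB3q0 true false)) t 1 1 1 = true :=
  ⟨(T.l 1), by decide +kernel⟩

def B202E_000 :
    ∃ t, chk3 (onCell 0 67108864 0 1073741824 780900216 37827925 (corT true 1 c0B cB202E gB0q2 gB0q2 gB0q0 gB1q0 true true)) t 1 1 1 = true :=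
  ⟨(T.l 1), by decide +kernel⟩

def B202E_001 :
    ∃ t, chk3 (onCell 0 67108864 0 1073741824 780900216 37827925 (corT true 1 c0B cB202E gB0q2 gB0q2 gB1q0 gB2q0 true true)) t 1 1 1 = true :=
  ⟨(T.l 1), by decide +kernel⟩

def B202E_002 :
    ∃ t, chk3 (onCell 0 67108864 0 1073741824 780900216 37827925 (corT true 1 c0B cB202E gB0q2 gB0q2 gB2q0 gB3q0 true false)) t 1 1 1 = true :=
  ⟨(T.l 1), by decide +kernel⟩

def B202E_010 :
    ∃ t, chk3 (onCell 0 67108864 0 1073741824 780900216 37827925 (corT true 1 c0B cB202E gB0q2 gB1q2 gB0q0 gB1q0 true true)) t 1 1 1 = true :=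
  ⟨(T.l 1), by decide +kernel⟩

def B202E_011 :
    ∃ t, chk3 (onCell 0 67108864 0 1073741824 780900216 37827925 (corT true 1 c0B cB202E gB0q2 gB1q2 gB1q0 gB2q0 true true)) t 1 1 1 = true :=
  ⟨(T.l 1), by decide +kernel⟩

def B202E_012 :
    ∃ t, chk3 (onCell 0 67108864 0 1073741824 780900216 37827925 (corT true 1 c0B cB202E gB0q2 gB1q2 gB2q0 gB3q0 true false)) t 1 1 1 = true :=
  ⟨(T.l 1), by decide +kernel⟩

def B202E_020 :
    ∃ t, chk3 (onCell 0 67108864 0 1073741824 780900216 37827925 (corT true 1 c0B cB202E gB0q2 gB2q2 gB0q0 gB1q0 true true)) t 1 1 1 = true :=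
  ⟨(T.l 1), by decide +kernel⟩

def B202E_021 :
    ∃ t, chk3 (onCell 0 67108864 0 1073741824 780900216 37827925 (corT true 1 c0B cB202E gB0q2 gB2q2 gB1q0 gB2q0 true true)) t 1 1 1 = true :=
  ⟨(T.l 1), by decide +kernel⟩

def B202E_022 :
    ∃ t, chk3 (onCell 0 67108864 0 1073741824 780900216 37827925 (corT true 1 c0B cB202E gB0q2 gB2q2 gB2q0 gB3q0 true false)) t 1 1 1 = true :=
  ⟨(T.l 1), by decide +kernel⟩

def B202E_100 :
    ∃ t, chk3 (onCell 0 67108864 0 1073741824 780900216 37827925 (corT true 1 c0B cB202E gB1q2 gB0q2 gB0q0 gB1q0 true true)) t 1 1 1 = true :=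
  ⟨(T.l 1), by decide +kernel⟩

def B202E_101 :
    ∃ t, chk3 (onCell 0 67108864 0 1073741824 780900216 37827925 (corT true 1 c0B cB202E gB1q2 gB0q2 gB1q0 gB2q0 true true)) t 1 1 1 = true :=
  ⟨(T.l 1), by decide +kernel⟩

def B202E_102 :
    ∃ t, chk3 (onCell 0 67108864 0 1073741824 780900216 37827925 (corT true 1 c0B cB202E gB1q2 gB0q2 gB2q0 gB3q0 true false)) t 1 1 1 = true :=
  ⟨(T.l 1), by decide +kernel⟩

def B202E_110 :
    ∃ t, chk3 (onCell 0 67108864 0 1073741824 780900216 37827925 (corT true 1 c0B cB202E gB1q2 gB1q2 gB0q0 gB1q0 true true)) t 1 1 1 = true :=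
  ⟨(T.l 1), by decide +kernel⟩

def B202E_111 :
    ∃ t, chk3 (onCell 0 67108864 0 1073741824 780900216 37827925 (corT true 1 c0B cB202E gB1q2 gB1q2 gB1q0 gB2q0 true true)) t 1 1 1 = true :=
  ⟨(T.l 1), by decide +kernel⟩

def B202E_112 :
    ∃ t, chk3 (onCell 0 67108864 0 1073741824 780900216 37827925 (corT true 1 c0B cB202E gB1q2 gB1q2 gB2q0 gB3q0 true false)) t 1 1 1 = true :=
  ⟨(T.l 1), by decide +kernel⟩

def B202E_120 :
    ∃ t, chk3 (onCell 0 67108864 0 1073741824 780900216 37827925 (corT true 1 c0B cB202E gB1q2 gB2q2 gB0q0 gB1q0 true true)) t 1 1 1 = true :=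
  ⟨(T.l 1), by decide +kernel⟩

def B202E_121 :
    ∃ t, chk3 (onCell 0 67108864 0 1073741824 780900216 37827925 (corT true 1 c0B cB202E gB1q2 gB2q2 gB1q0 gB2q0 true true)) t 1 1 1 = true :=
  ⟨(T.l 1), by decide +kernel⟩

def B202E_122 :
    ∃ t, chk3 (onCell 0 67108864 0 1073741824 780900216 37827925 (corT true 1 c0B cB202E gB1q2 gB2q2 gB2q0 gB3q0 true false)) t 1 1 1 = true :=
  ⟨(T.l 1), by decide +kernel⟩

def B202E_200 :
    ∃ t, chk3 (onCell 0 67108864 0 1073741824 780900216 37827925 (corT true 1 c0B cB202E gB2q2 gB0q2 gB0q0 gB1q0 true true)) t 1 1 1 = true :=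
  ⟨(T.l 1), by decide +kernel⟩

def B202E_201 :
    ∃ t, chk3 (onCell 0 67108864 0 1073741824 780900216 37827925 (corT true 1 c0B cB202E gB2q2 gB0q2 gB1q0 gB2q0 true true)) t 1 1 1 = true :=
  ⟨(T.l 1), by decide +kernel⟩

def B202E_202 :
    ∃ t, chk3 (onCell 0 67108864 0 1073741824 780900216 37827925 (corT true 1 c0B cB202E gB2q2 gB0q2 gB2q0 gB3q0 true false)) t 1 1 1 = true :=
  ⟨(T.l 1), by decide +kernel⟩

def B202E_210 :
    ∃ t, chk3 (onCell 0 67108864 0 1073741824 780900216 37827925 (corT true 1 c0B cB202E gB2q2 gB1q2 gB0q0 gB1q0 true true)) t 1 1 1 = true :=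
  ⟨(T.l 1), by decide +kernel⟩

def B202E_211 :
    ∃ t, chk3 (onCell 0 67108864 0 1073741824 780900216 37827925 (corT true 1 c0B cB202E gB2q2 gB1q2 gB1q0 gB2q0 true true)) t 1 1 1 = true :=
  ⟨(T.l 1), by decide +kernel⟩

def B202E_212 :
    ∃ t, chk3 (onCell 0 67108864 0 1073741824 780900216 37827925 (corT true 1 c0B cB202E gB2q2 gB1q2 gB2q0 gB3q0 true false)) t 1 1 1 = true :=
  ⟨(T.l 1), by decide +kernel⟩

def B202E_220 :
    ∃ t, chk3 (onCell 0 67108864 0 1073741824 780900216 37827925 (corT true 1 c0B cB202E gB2q2 gB2q2 gB0q0 gB1q0 true true)) t 1 1 1 = true :=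
  ⟨(T.l 1), by decide +kernel⟩

def B202E_221 :
    ∃ t, chk3 (onCell 0 67108864 0 1073741824 780900216 37827925 (corT true 1 c0B cB202E gB2q2 gB2q2 gB1q0 gB2q0 true true)) t 1 1 1 = true :=
  ⟨(T.l 1), by decide +kernel⟩

def B202E_222 :
    ∃ t, chk3 (onCell 0 67108864 0 1073741824 780900216 37827925 (corT true 1 c0B cB202E gB2q2 gB2q2 gB2q0 gB3q0 true false)) t 1 1 1 = true :=
  ⟨(T.l 1), by decide +kernel⟩

def B202L_500 :
    ∃ t, chk3 (onCell 0 67108864 0 1073741824 780900216 37827925 (corT true 1 c0B cB202L gB5q2 gB0q2 gB0q0 gB1q0 true true)) t 1 1 1 = true :=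
  ⟨(T.l 2), by decide +kernel⟩

def B202L_501 :
    ∃ t, chk3 (onCell 0 67108864 0 1073741824 780900216 37827925 (corT true 1 c0B cB202L gB5q2 gB0q2 gB1q0 gB2q0 true true)) t 1 1 1 = true :=
  ⟨(T.l 2), by decide +kernel⟩

def B202L_502 :
    ∃ t, chk3 (onCell 0 67108864 0 1073741824 780900216 37827925 (corT true 1 c0B cB202L gB5q2 gB0q2 gB2q0 gB3q0 true false)) t 1 1 1 = true :=
  ⟨(T.a (T.a (T.l 204) (T.l 0)) (T.b (T.a (T.l 204) (T.l 204)) (T.l 16))), by decide +kernel⟩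

def B202L_510 :
    ∃ t, chk3 (onCell 0 67108864 0 1073741824 780900216 37827925 (corT true 1 c0B cB202L gB5q2 gB1q2 gB0q0 gB1q0 true true)) t 1 1 1 = true :=
  ⟨(T.l 2), by decide +kernel⟩

def B202L_511 :
    ∃ t, chk3 (onCell 0 67108864 0 1073741824 780900216 37827925 (corT true 1 c0B cB202L gB5q2 gB1q2 gB1q0 gB2q0 true true)) t 1 1 1 = true :=
  ⟨(T.l 2), by decide +kernel⟩

def B202L_512 :
    ∃ t, chk3 (onCell 0 67108864 0 1073741824 780900216 37827925 (corT true 1 c0B cB202L gB5q2 gB1q2 gB2q0 gB3q0 true false)) t 1 1 1 = true :=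
  ⟨(T.a (T.l 0) (T.b (T.a (T.l 204) (T.b (T.l 204) (T.l 204))) (T.l 0))), by decide +kernel⟩

def B202L_520 :
    ∃ t, chk3 (onCell 0 67108864 0 1073741824 780900216 37827925 (corT true 1 c0B cB202L gB5q2 gB2q2 gB0q0 gB1q0 true true)) t 1 1 1 = true :=
  ⟨(T.l 2), by decide +kernel⟩

def B202L_521 :
    ∃ t, chk3 (onCell 0 67108864 0 1073741824 780900216 37827925 (corT true 1 c0B cB202L gB5q2 gB2q2 gB1q0 gB2q0 true true)) t 1 1 1 = true :=
  ⟨(T.a (T.l 0) (T.l 2)), by decide +kernel⟩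

def B202L_522 :
    ∃ t, chk3 (onCell 0 67108864 0 1073741824 780900216 37827925 (corT true 1 c0B cB202L gB5q2 gB2q2 gB2q0 gB3q0 true false)) t 1 1 1 = true :=
  ⟨(T.a (T.l 0) (T.b (T.a (T.l 204) (T.b (T.l 204) (T.l 204))) (T.l 0))), by decide +kernel⟩

def B202R_050 :
    ∃ t, chk3 (onCell 0 67108864 0 1073741824 780900216 37827925 (corX 1 c0B cB202R tB202R gB0q2 gB5q2 gB0q0 gB1q0 gB0q0 true true)) t 1 1 1 = true :=
  ⟨(T.b (T.b (T.l 1) (T.a (T.l 3) (T.b (T.l 207) (T.b (T.l 207) (T.a (T.l 2) (T.l 2)))))) (T.b (T.l 2) (T.l 2))), by decide +kernel⟩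

def B202R_051 :
    ∃ t, chk3 (onCell 0 67108864 0 1073741824 780900216 37827925 (corT true 1 c0B cB202R gB0q2 gB5q2 gB1q0 gB2q0 true true)) t 1 1 1 = true :=
  ⟨(T.b (T.b (T.l 1) (T.b (T.l 1) (T.a (T.l 0) (T.a (T.l 204) (T.b (T.l 204) (T.l 204)))))) (T.b (T.a (T.l 204) (T.b (T.a (T.l 204) (T.l 0)) (T.l 2))) (T.l 2))), by decide +kernel⟩

def B202R_052 :
    ∃ t, chk3 (onCell 0 67108864 0 1073741824 780900216 37827925 (corT true 1 c0B cB202R gB0q2 gB5q2 gB2q0 gB3q0 true false)) t 1 1 1 = true :=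
  ⟨(T.b (T.l 1) (T.b (T.a (T.l 0) (T.a (T.b (T.l 204) (T.l 204)) (T.b (T.l 0) (T.l 0)))) (T.a (T.a (T.l 204) (T.b (T.l 204) (T.l 204))) (T.a (T.b (T.l 0) (T.l 0)) (T.b (T.l 0) (T.l 204)))))), by decide +kernel⟩

def B202R_150 :
    ∃ t, chk3 (onCell 0 67108864 0 1073741824 780900216 37827925 (corT true 1 c0B cB202R gB1q2 gB5q2 gB0q0 gB1q0 true true)) t 1 1 1 = true :=
  ⟨(T.b (T.b (T.l 1) (T.b (T.l 1) (T.b (T.b (T.a (T.l 1) (T.b (T.l 1) (T.a (T.l 1) (T.l 0)))) (T.l 0)) (T.l 0)))) (T.b (T.l 0) (T.l 2))), by decide +kernel⟩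

def B202R_151 :
    ∃ t, chk3 (onCell 0 67108864 0 1073741824 780900216 37827925 (corT true 1 c0B cB202R gB1q2 gB5q2 gB1q0 gB2q0 true true)) t 1 1 1 = true :=
  ⟨(T.b (T.b (T.l 1) (T.l 1)) (T.b (T.l 0) (T.l 2))), by decide +kernel⟩

def B202R_152 :
    ∃ t, chk3 (onCell 0 67108864 0 1073741824 780900216 37827925 (corT true 1 c0B cB202R gB1q2 gB5q2 gB2q0 gB3q0 true false)) t 1 1 1 = true :=
  ⟨(T.b (T.l 1) (T.b (T.b (T.l 0) (T.l 0)) (T.b (T.l 204) (T.a (T.l 204) (T.b (T.l 204) (T.l 0)))))), by decide +kernel⟩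

def B202R_250 :
    ∃ t, chk3 (onCell 0 67108864 0 1073741824 780900216 37827925 (corT true 1 c0B cB202R gB2q2 gB5q2 gB0q0 gB1q0 true true)) t 1 1 1 = true :=
  ⟨(T.b (T.l 1) (T.b (T.b (T.l 1) (T.l 816)) (T.b (T.l 0) (T.l 2)))), by decide +kernel⟩

def B202R_251 :
    ∃ t, chk3 (onCell 0 67108864 0 1073741824 780900216 37827925 (corT true 1 c0B cB202R gB2q2 gB5q2 gB1q0 gB2q0 true true)) t 1 1 1 = true :=
  ⟨(T.b (T.l 1) (T.b (T.b (T.l 1) (T.l 816)) (T.b (T.l 0) (T.l 2)))), by decide +kernel⟩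

def B202R_252 :
    ∃ t, chk3 (onCell 0 67108864 0 1073741824 780900216 37827925 (corT true 1 c0B cB202R gB2q2 gB5q2 gB2q0 gB3q0 true false)) t 1 1 1 = true :=
  ⟨(T.b (T.l 1) (T.b (T.l 1) (T.b (T.l 0) (T.a (T.l 0) (T.b (T.l 0) (T.l 0)))))), by decide +kernel⟩

end Pool.Agent.Strip051.G.I72727_7625.Tab.CG
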