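import Pool.Agent.Strip051.G.I72727_7625.StH
import Pool.Agent.Strip051.G.I72727_7625.StF

/-! # Unit strips 8 (generated) -/

set_option linter.all false
set_option maxRecDepth 100000

namespace Pool.Agent.Strip051.G.I72727_7625.Tab.St.C

open Pool.Agent.Strip051.PB Pool.Agent.Strip051.PB.T Pool.Agent.StripNear Pool.Agent.Strip051.LC
open Pool.Agent.Strip051.G.I72727_7625.Tab Pool.Agent.Strip051.G.I72727_7625.Tab.St

noncomputable def cut_B05pp_023_s1 : Cut := Cut.of [[⟨4, 0, 0, 1449551462⟩]]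

noncomputable def xt_B05pp_023_s1 : Ext := strExt dd false true true .u0 .s2 .u2 .up 0 2 3 rfl rfl gf2 vv ndB0q0 ndB5q3

noncomputable def f_B05pp_023_s1 : ℕ → ℕ → ℕ → ℕ → Bool := onCell 1073741824 536870912 0 1230186008 780900216 37827925
    (rowF 2 false true true .up 0 2 3 (qsf 0 536870912 0 1230186008 2) ndB0q0 ndB5q3 pcB2 cut_B05pp_023_s1 xt_B05pp_023_s1)

def k0_B05pp_023_s1 : ∃ t, chk3 f_B05pp_023_s1 t 1 2 1 = true :=
  ⟨(a (l 2) (a (l 2) (l 6))), by decide +kernel⟩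

def k1_B05pp_023_s1 : ∃ t, chk3 f_B05pp_023_s1 t 4 3 1 = true :=
  ⟨(b (l 2) (b (l 2) (l 3))), by decide +kernel⟩

def k2_B05pp_023_s1 : ∃ t, chk3 f_B05pp_023_s1 t 5 6 1 = true :=
  ⟨(a (l 2) (b (l 2) (a (l 2) (b (l 2) (l 377520464215))))), by decide +kernel⟩

def k3_B05pp_023_s1 : ∃ t, chk3 f_B05pp_023_s1 t 40 7 1 = true :=
  ⟨(b (l 3) (b (l 3) (a (b (l 3) (a (l 3) (b (l 3) (l 525850239)))) (a (b (l 3) (b (l 525797503) (l 525811327))) (b (b (b (l 3) (l 525767295)) (l 525800063)) (b (l 525833343) (l 525853567))))))), by decide +kernel⟩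

def k4_B05pp_023_s1 : ∃ t, chk3 f_B05pp_023_s1 t 41 14 1 = true :=
  ⟨(a (l 3) (a (b (l 2) (b (l 2) (a (b (l 3) (a (l 3) (l 529241471))) (b (a (l 531510399) (b (l 2) (l 530636047))) (a (l 529652351) (b (l 530220047) (l 529819151))))))) (b (l 2) (a (b (l 2) (b (b (a (a (l 531899519) (l 28017946695)) (l 16774104)) (a (a (l 530951551) (l 16774184)) (l 16767800))) (a (b (b (l 16773672) (l 16773016)) (l 16771920)) (b (l 16771776) (l 16770304))))) (b (l 2) (b (b (l 16766664) (l 16770768)) (a (l 16769464) (l 16757360)))))))), by decide +kernel⟩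

def k5_B05pp_023_s1 : ∃ t, chk3 f_B05pp_023_s1 t 82 15 1 = true :=
  ⟨(b (b (a (l 3) (a (b (l 3) (l 3)) (b (b (l 3) (l 527549055)) (l 527163775)))) (a (b (l 3) (a (b (l 3) (l 525769855)) (l 525856895))) (b (a (b (l 526177551) (a (l 525883263) (l 526153343))) (b (l 526805119) (a (l 526451071) (l 526707327)))) (a (b (a (l 525944959) (l 526057343)) (l 525275775)) (b (l 526446351) (l 526426495)))))) (b (a (b (a (b (l 525805439) (l 525835903)) (b (l 525912703) (l 525942143))) (a (l 525871743) (b (l 525966463) (l 16761976)))) (b (a (b (l 526080895) (l 16768840)) (b (l 16761664) (l 16758400))) (a (b (l 16760144) (l 16756536)) (l 16758448)))) (a (b (a (l 525906815) (l 526006399)) (b (l 16757992) (l 16748416))) (a (b (l 16756048) (l 16742592)) (b (l 16745744) (l 16737368)))))), by decide +kernel⟩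

def k6_B05pp_023_s1 : ∃ t, chk3 f_B05pp_023_s1 t 83 30 1 = true :=
  ⟨(a (b (a (b (a (l 528198783) (l 528564095)) (a (l 527620991) (l 527944319))) (b (a (b (l 529101695) (l 528755071)) (b (l 16771968) (l 16770144))) (b (a (l 16770016) (l 16768096)) (l 16769376)))) (b (a (a (b (l 527221887) (l 16766968)) (b (l 16767384) (l 16764696))) (b (l 16764240) (l 16761528))) (a (b (l 16762976) (l 16760008)) (l 16757184)))) (a (a (b (b (b (l 16770280) (l 16768408)) (l 16767760)) (b (l 16759984) (l 16754104))) (a (b (b (l 16768080) (l 16763768)) (b (l 16758536) (l 16752376))) (a (a (b (b (l 16767536) (l 16763184)) (b (l 16757912) (l 16751488))) (a (b (b (l 529763967) (l 16763016)) (b (l 16757712) (l 16751152))) (a (b (b (l 529770623) (l 16752440)) (b (l 16757608) (l 16750992))) (b (b (l 529775487) (l 16752384)) (b (l 16757544) (l 16750880)))))) (b (b (b (l 16767968) (l 16766016)) (l 16752136)) (b (l 16757152) (l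 16750368)))))) (a (a (b (b (b (l 16767352) (a (l 16765592) (l 16754608))) (a (l 16762128) (b (l 16752216) (l 16738936)))) (b (b (l 16746768) (l 16732944)) (l 16748640))) (a (a (b (b (l 16765768) (l 16760560)) (b (l 16754264) (l 16747312))) (a (b (b (l 16755128) (l 16760400)) (b (l 16754096) (l 16747136))) (a (b (b (l 16776024) (l 16760320)) (b (l 16754008) (l 16747048))) (b (b (l 16775968) (l 16760264)) (b (l 16753952) (l 16746992)))))) (b (b (l 16754752) (l 16760008)) (b (l 16753696) (l 16746720))))) (b (b (l 16753664) (l 16758840)) (b (l 16752528) (l 16745520)))))), by decide +kernel⟩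

def k7_B05pp_023_s1 : ∃ t, chk3 f_B05pp_023_s1 t 83 31 1 = true :=
  ⟨(a (b (a (b (a (l 16756432) (l 16754160)) (l 16748464)) (b (l 16750848) (l 16743584))) (b (a (l 16740736) (l 16735224)) (a (l 16731872) (l 16725912)))) (b (b (a (a (l 16747296) (l 16744080)) (l 16739664)) (a (l 16737504) (l 16731600))) (b (a (l 16728872) (l 16723008)) (a (l 16719696) (l 16713864))))), by decide +kernel⟩

def k8_B05pp_023_s1 : ∃ t, chk3 f_B05pp_023_s1 t 21 7 1 = true :=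
  ⟨(b (a (b (l 2) (b (b (l 2) (l 245450667767)) (b (a (l 16774192) (l 16751320)) (b (l 16775824) (l 16773760))))) (b (l 532678239) (b (l 16780632) (a (l 16736256) (l 16722784))))) (b (a (a (b (b (a (l 16759784) (l 16752760)) (l 16750616)) (b (l 16744032) (l 16736744))) (b (b (l 16742008) (l 16735768)) (b (l 16728536) (l 16720840)))) (b (a (l 16724216) (l 16625560)) (l 16711392))) (b (a (b (a (l 16728960) (l 16712536)) (l 16733136)) (l 16703608)) (a (b (l 16702984) (l 16693320)) (l 16682968))))), by decide +kernel⟩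

def k9_B05pp_023_s1 : ∃ t, chk3 f_B05pp_023_s1 t 11 7 1 = true :=
  ⟨(b (b (b (l 233102618183) (a (l 16714464) (l 16671696))) (a (b (l 16703344) (l 16689064)) (b (l 16654144) (l 16633408)))) (a (b (b (l 16671904) (l 16673736)) (b (a (l 16648776) (l 16529720)) (a (l 16624632) (l 16586360)))) (b (b (l 16611392) (l 16503912)) (b (l 16391584) (l 16525760))))), by decide +kernel⟩

def k10_B05pp_023_s1 : ∃ t, chk3 f_B05pp_023_s1 t 3 3 1 = true :=
  ⟨(a (b (b (a (l 2) (b (l 16648168) (l 16645904))) (a (b (l 16717128) (a (l 16584456) (l 16635368))) (a (a (l 16627952) (l 16612224)) (l 6)))) (b (a (b (l 16687352) (a (l 16421648) (l 16535368))) (a (b (l 16544360) (l 16477024)) (l 6))) (a (b (a (l 16555640) (b (l 16485160) (l 16446200))) (b (l 16442784) (l 16483392))) (a (b (l 16391632) (a (l 16312632) (l 16268048))) (l 6))))) (l 6)), by decide +kernel⟩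

theorem t11_B05pp_023_s1 : ∃ t, chk3 f_B05pp_023_s1 t 83 15 1 = true := ex3_b k6_B05pp_023_s1 k7_B05pp_023_s1

theorem t12_B05pp_023_s1 : ∃ t, chk3 f_B05pp_023_s1 t 41 15 1 = true := ex3_a k5_B05pp_023_s1 t11_B05pp_023_s1

theorem t13_B05pp_023_s1 : ∃ t, chk3 f_B05pp_023_s1 t 41 7 1 = true := ex3_b k4_B05pp_023_s1 t12_B05pp_023_s1

theorem t14_B05pp_023_s1 : ∃ t, chk3 f_B05pp_023_s1 t 20 7 1 = true := ex3_a k3_B05pp_023_s1 t13_B05pp_023_s1

theorem t15_B05pp_023_s1 : ∃ t, chk3 f_B05pp_023_s1 t 10 7 1 = true := ex3_a t14_B05pp_023_s1 k8_B05pp_023_s1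

theorem t16_B05pp_023_s1 : ∃ t, chk3 f_B05pp_023_s1 t 5 7 1 = true := ex3_a t15_B05pp_023_s1 k9_B05pp_023_s1

theorem t17_B05pp_023_s1 : ∃ t, chk3 f_B05pp_023_s1 t 5 3 1 = true := ex3_b k2_B05pp_023_s1 t16_B05pp_023_s1

theorem t18_B05pp_023_s1 : ∃ t, chk3 f_B05pp_023_s1 t 2 3 1 = true := ex3_a k1_B05pp_023_s1 t17_B05pp_023_s1

theorem t19_B05pp_023_s1 : ∃ t, chk3 f_B05pp_023_s1 t 1 3 1 = true := ex3_a t18_B05pp_023_s1 k10_B05pp_023_s1

theorem t20_B05pp_023_s1 : ∃ t, chk3 f_B05pp_023_s1 t 1 1 1 = true := ex3_b k0_B05pp_023_s1 t19_B05pp_023_s1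

theorem c_B05pp_023_s1 : CertF 0 536870912 0 1230186008 780900216 37827925 false true true .up 0 2 3
    ndB0q0 ndB5q3 pcB2 cut_B05pp_023_s1 xt_B05pp_023_s1 :=
  certF2 (fam := false) (s1 := true) (s2 := true) (a := 0) (b := 2) (c := 3) (cn := .up) (n1 := ndB0q0) (n2 := ndB5q3) (pc := pcB2) (cut := cut_B05pp_023_s1) (xt := xt_B05pp_023_s1) (P1 := 0) (W1 := 536870912) (P2 := 0) (W2 := 1230186008) (P3 := 780900216) (W3 := 37827925)
    rfl (fun _ => rfl) t20_B05pp_023_s1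

theorem s_B05pp_023_s1 {κ x : ℝ} (hκ : κ * h0 = ken x) (hx : ((780900216 : ℕ) : ℝ) / S ≤ x)
    (hx' : x ≤ (((780900216 : ℕ) : ℝ) + (37827925 : ℕ)) / S) :
    AltB (VFD κ) PP tK tL pcB [⟨3, 0, 0, 1449551462⟩] 0 2 3 0 5 (sgb true) (sgb true) x :=
  strip_altBD (m := 1449551462) true rfl hκ (SH.κ0 hκ (SH.hx1 hx).le (SH.hx2 hx').le) (SH.hx1 hx).le (SH.hx2 hx') (covB00).cov (covB53).cov hx hx' c_B05pp_023_s1 cutB_nil ((okx hx hx').extB (T := tt) (sideB hx hx') hκ rfl rfl (.O 0 true) (.N 3 true) rfl)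

noncomputable def cut_B05pp_033_s1 : Cut := Cut.of [[⟨4, 0, 0, 1449551462⟩]]

noncomputable def f_B05pp_033_s1 : ℕ → ℕ → ℕ → ℕ → Bool := onCell 1610612736 536870912 0 1230186008 780900216 37827925
    (rowF 2 false true true .pnn 0 3 3 (qsf 0 536870912 0 1230186008 3) ndB0q0 ndB5q3 pcB3 cut_B05pp_033_s1 Ext.none)

def k0_B05pp_033_s1 : ∃ t, chk3 f_B05pp_033_s1 t 1 1 1 = true :=
  ⟨(b (l 6) (l 6)), by decide +kernel⟩

theorem c_B05pp_033_s1 : CertF 0 536870912 0 1230186008 780900216 37827925 false true true .pnn 0 3 3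
    ndB0q0 ndB5q3 pcB3 cut_B05pp_033_s1 Ext.none :=
  certF2 (fam := false) (s1 := true) (s2 := true) (a := 0) (b := 3) (c := 3) (cn := .pnn) (n1 := ndB0q0) (n2 := ndB5q3) (pc := pcB3) (cut := cut_B05pp_033_s1) (xt := Ext.none) (P1 := 0) (W1 := 536870912) (P2 := 0) (W2 := 1230186008) (P3 := 780900216) (W3 := 37827925)
    rfl (fun _ => rfl) k0_B05pp_033_s1

theorem s_B05pp_033_s1 {κ x : ℝ} (hκ : κ * h0 = ken x) (hx : ((780900216 : ℕ) : ℝ) / S ≤ x)
    (hx' : x ≤ (((780900216 : ℕ) : ℝ) + (37827925 : ℕ)) / S) :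
    AltB (VFD κ) PP tK tL pcB [⟨3, 0, 0, 1449551462⟩] 0 3 3 0 5 (sgb true) (sgb true) x :=
  strip_altBD (m := 1449551462) true rfl hκ (SH.κ0 hκ (SH.hx1 hx).le (SH.hx2 hx').le) (SH.hx1 hx).le (SH.hx2 hx') (covB00).cov (covB53).cov hx hx' c_B05pp_033_s1 cutB_nil (noExt_B)

noncomputable def cut_B05pp_101_s1 : Cut := Cut.of [[⟨4, 0, 0, 1449551462⟩]]

noncomputable def f_B05pp_101_s1 : ℕ → ℕ → ℕ → ℕ → Bool := onCell 536870912 536870912 536870912 536870912 780900216 37827925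
    (rowF 0 false true true .npn 1 0 1 (qsf 536870912 536870912 536870912 536870912 0) ndB0q1 ndB5q1 pcB0 cut_B05pp_101_s1 Ext.none)

def k0_B05pp_101_s1 : ∃ t, chk3 f_B05pp_101_s1 t 1 1 1 = true :=
  ⟨(a (l 3) (l 5)), by decide +kernel⟩

theorem c_B05pp_101_s1 : CertF 536870912 536870912 536870912 536870912 780900216 37827925 false true true .npn 1 0 1
    ndB0q1 ndB5q1 pcB0 cut_B05pp_101_s1 Ext.none :=
  certF0 (fam := false) (s1 := true) (s2 := true) (a := 1) (b := 0) (c := 1) (cn := .npn) (n1 := ndB0q1) (n2 := ndB5q1) (pc := pcB0) (cut := cut_B05pp_101_s1) (xt := Ext.none) (P1 := 536870912) (W1 := 536870912) (P2 := 536870912) (W2 := 536870912) (P3 := 780900216) (W3 := 37827925)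
    rfl k0_B05pp_101_s1

theorem s_B05pp_101_s1 {κ x : ℝ} (hκ : κ * h0 = ken x) (hx : ((780900216 : ℕ) : ℝ) / S ≤ x)
    (hx' : x ≤ (((780900216 : ℕ) : ℝ) + (37827925 : ℕ)) / S) :
    AltB (VFD κ) PP tK tL pcB [⟨3, 0, 0, 1449551462⟩] 1 0 1 0 5 (sgb true) (sgb true) x :=
  strip_altBD (m := 1449551462) true rfl hκ (SH.κ0 hκ (SH.hx1 hx).le (SH.hx2 hx').le) (SH.hx1 hx).le (SH.hx2 hx') (covB01).cov (covB51).cov hx hx' c_B05pp_101_s1 cutB_nil (noExt_B)

noncomputable def cut_B05pp_102_s1 : Cut := Cut.of [[⟨4, 0, 0, 1449551462⟩]]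

noncomputable def f_B05pp_102_s1 : ℕ → ℕ → ℕ → ℕ → Bool := onCell 536870912 536870912 1073741824 536870912 780900216 37827925
    (rowF 0 false true true .npp 1 0 2 (qsf 536870912 536870912 1073741824 536870912 0) ndB0q1 ndB5q2 pcB0 cut_B05pp_102_s1 Ext.none)

def k0_B05pp_102_s1 : ∃ t, chk3 f_B05pp_102_s1 t 1 1 1 = true :=
  ⟨(a (l 3) (b (l 5) (l 3))), by decide +kernel⟩

theorem c_B05pp_102_s1 : CertF 536870912 536870912 1073741824 536870912 780900216 37827925 false true true .npp 1 0 2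
    ndB0q1 ndB5q2 pcB0 cut_B05pp_102_s1 Ext.none :=
  certF0 (fam := false) (s1 := true) (s2 := true) (a := 1) (b := 0) (c := 2) (cn := .npp) (n1 := ndB0q1) (n2 := ndB5q2) (pc := pcB0) (cut := cut_B05pp_102_s1) (xt := Ext.none) (P1 := 536870912) (W1 := 536870912) (P2 := 1073741824) (W2 := 536870912) (P3 := 780900216) (W3 := 37827925)
    rfl k0_B05pp_102_s1

theorem s_B05pp_102_s1 {κ x : ℝ} (hκ : κ * h0 = ken x) (hx : ((780900216 : ℕ) : ℝ) / S ≤ x)
    (hx' : x ≤ (((780900216 : ℕ) : ℝ) + (37827925 : ℕ)) / S) :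
    AltB (VFD κ) PP tK tL pcB [⟨3, 0, 0, 1449551462⟩] 1 0 2 0 5 (sgb true) (sgb true) x :=
  strip_altBD (m := 1449551462) true rfl hκ (SH.κ0 hκ (SH.hx1 hx).le (SH.hx2 hx').le) (SH.hx1 hx).le (SH.hx2 hx') (covB01).cov (covB52).cov hx hx' c_B05pp_102_s1 cutB_nil (noExt_B)

noncomputable def cut_B05pp_112_s1 : Cut := Cut.of [[⟨4, 0, 0, 1449551462⟩]]

noncomputable def f_B05pp_112_s1 : ℕ → ℕ → ℕ → ℕ → Bool := onCell 536870912 536870912 1073741824 536870912 780900216 37827925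
    (rowF 0 false true true .dn 1 1 2 (qsf 536870912 536870912 1073741824 536870912 1) ndB0q1 ndB5q2 pcB1 cut_B05pp_112_s1 Ext.none)

def k0_B05pp_112_s1 : ∃ t, chk3 f_B05pp_112_s1 t 1 1 1 = true :=
  ⟨(a (l 3) (b (l 5) (l 3))), by decide +kernel⟩

theorem c_B05pp_112_s1 : CertF 536870912 536870912 1073741824 536870912 780900216 37827925 false true true .dn 1 1 2
    ndB0q1 ndB5q2 pcB1 cut_B05pp_112_s1 Ext.none :=
  certF0 (fam := false) (s1 := true) (s2 := true) (a := 1) (b := 1) (c := 2) (cn := .dn) (n1 := ndB0q1) (n2 := ndB5q2) (pc := pcB1) (cut := cut_B05pp_112_s1) (xt := Ext.none) (P1 := 536870912) (W1 := 536870912) (P2 := 1073741824) (W2 := 536870912) (P3 := 780900216) (W3 := 37827925)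
    rfl k0_B05pp_112_s1

theorem s_B05pp_112_s1 {κ x : ℝ} (hκ : κ * h0 = ken x) (hx : ((780900216 : ℕ) : ℝ) / S ≤ x)
    (hx' : x ≤ (((780900216 : ℕ) : ℝ) + (37827925 : ℕ)) / S) :
    AltB (VFD κ) PP tK tL pcB [⟨3, 0, 0, 1449551462⟩] 1 1 2 0 5 (sgb true) (sgb true) x :=
  strip_altBD (m := 1449551462) true rfl hκ (SH.κ0 hκ (SH.hx1 hx).le (SH.hx2 hx').le) (SH.hx1 hx).le (SH.hx2 hx') (covB01).cov (covB52).cov hx hx' c_B05pp_112_s1 cutB_nil (noExt_B)

noncomputable def cut_B05pp_113_s1 : Cut := Cut.of [[⟨4, 0, 0, 1449551462⟩], [⟨0, 1, 0, 67108864⟩, ⟨1, 1, 0, 67108864⟩, ⟨2, 2, 0, 16777216⟩]]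

noncomputable def f_B05pp_113_s1 : ℕ → ℕ → ℕ → ℕ → Bool := onCell 536870912 536870912 0 1230186008 780900216 37827925
    (rowF 2 false true true .nn 1 1 3 (qsf 536870912 536870912 0 1230186008 1) ndB0q1 ndB5q3 pcB1 cut_B05pp_113_s1 Ext.none)

def k0_B05pp_113_s1 : ∃ t, chk3 f_B05pp_113_s1 t 1 1 1 = true :=
  ⟨(b (a (l 2) (a (l 2) (b (a (l 2) (b (a (l 2) (l 14)) (l 3))) (l 3)))) (a (b (a (l 2) (b (l 2) (a (l 2) (l 3)))) (a (b (l 2) (l 3)) (l 3))) (b (a (l 3) (l 3)) (l 3)))), by decide +kernel⟩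

theorem c_B05pp_113_s1 : CertF 536870912 536870912 0 1230186008 780900216 37827925 false true true .nn 1 1 3
    ndB0q1 ndB5q3 pcB1 cut_B05pp_113_s1 Ext.none :=
  certF2 (fam := false) (s1 := true) (s2 := true) (a := 1) (b := 1) (c := 3) (cn := .nn) (n1 := ndB0q1) (n2 := ndB5q3) (pc := pcB1) (cut := cut_B05pp_113_s1) (xt := Ext.none) (P1 := 536870912) (W1 := 536870912) (P2 := 0) (W2 := 1230186008) (P3 := 780900216) (W3 := 37827925)
    rfl (fun _ => rfl) k0_B05pp_113_s1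

theorem s_B05pp_113_s1 {κ x : ℝ} (hκ : κ * h0 = ken x) (hx : ((780900216 : ℕ) : ℝ) / S ≤ x)
    (hx' : x ≤ (((780900216 : ℕ) : ℝ) + (37827925 : ℕ)) / S)
    (H : CutB (VFD κ) PP tK tL pcB (Cut.of [[⟨0, 1, 0, 67108864⟩, ⟨1, 1, 0, 67108864⟩, ⟨2, 2, 0, 16777216⟩]]) 1 1 3 0 5 (sgb true) (sgb true) x) :
    AltB (VFD κ) PP tK tL pcB [⟨3, 0, 0, 1449551462⟩] 1 1 3 0 5 (sgb true) (sgb true) x :=
  strip_altBD (m := 1449551462) true rfl hκ (SH.κ0 hκ (SH.hx1 hx).le (SH.hx2 hx').le) (SH.hx1 hx).le (SH.hx2 hx') (covB01).cov (covB53).cov hx hx' c_B05pp_113_s1 H (noExt_B)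

noncomputable def cut_B05pp_123_s1 : Cut := Cut.of [[⟨4, 0, 0, 1449551462⟩], [⟨0, 1, 0, 67108864⟩, ⟨1, 1, 0, 67108864⟩, ⟨2, 2, 0, 16777216⟩]]

noncomputable def xt_B05pp_123_s1 : Ext := strExt dd false true true .u0 .s2 .u2 .npn 1 2 3 rfl rfl gf2 vv ndB0q1 ndB5q3

noncomputable def f_B05pp_123_s1 : ℕ → ℕ → ℕ → ℕ → Bool := onCell 1073741824 536870912 0 1230186008 780900216 37827925
    (rowF 2 false true true .npn 1 2 3 (qsf 536870912 536870912 0 1230186008 2) ndB0q1 ndB5q3 pcB2 cut_B05pp_123_s1 xt_B05pp_123_s1)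

def k0_B05pp_123_s1 : ∃ t, chk3 f_B05pp_123_s1 t 8 4 1 = true :=
  ⟨(b (a (l 14) (a (l 14) (a (l 14) (b (l 16714328) (b (l 16741736) (c (l 16768656) (l 16759672))))))) (a (l 3) (b (a (l 14) (b (a (b (a (l 14) (b (l 14) (a (l 14) (b (l 16775368) (l 16774864))))) (l 535557263)) (b (a (b (l 16771024) (l 16774200)) (l 16767304)) (a (b (a (b (l 16775080) (l 16775280)) (l 16775944)) (a (l 535836559) (l 16775424))) (b (l 16772240) (a (l 16775992) (l 16773952)))))) (a (l 535468943) (b (a (l 535865743) (b (a (l 16775944) (b (l 16775928) (l 16775936))) (l 536193935))) (l 535968399))))) (l 3)))), by decide +kernel⟩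

def k1_B05pp_123_s1 : ∃ t, chk3 f_B05pp_123_s1 t 9 4 1 = true :=
  ⟨(b (a (b (l 16689416) (a (l 16779408) (l 16719008))) (b (l 16639216) (l 16686208))) (a (b (a (b (a (b (a (l 16763472) (l 16760880)) (a (l 16769760) (l 16767488))) (b (l 16755208) (l 16763024))) (a (b (a (b (l 16773928) (a (l 16775864) (l 16775664))) (l 16772488)) (a (b (a (l 16776448) (l 16775608)) (l 536180623)) (b (a (l 16775184) (l 16775144)) (a (l 16775576) (l 16774816))))) (b (a (l 16770056) (l 16767760)) (a (b (l 16773104) (l 16774928)) (l 16771600))))) (b (l 16745336) (a (b (l 16762552) (l 16768352)) (b (l 16753064) (l 16761280))))) (a (b (a (l 535982367) (b (a (b (a (l 16774696) (l 16774608)) (l 16775232)) (b (l 16774368) (l 16774560))) (a (l 535843727) (b (a (l 16774896) (l 16774104)) (l 16775392))))) (a (l 3) (l 535733391))) (b (a (b (l 16771656) (a (b (l 16774480) (l 16774080)) (l 16773400))) (b (l 16767384) (l 16770536)))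 (b (a (a (b (l 16774656) (l 535788175)) (b (l 16774056) (l 16773984))) (a (l 16773544) (l 16771760))) (a (l 535767951) (a (b (l 16773840) (l 16774200)) (l 16773568))))))) (b (a (l 16731776) (l 16710256)) (a (b (a (l 16762312) (l 16752384)) (a (b (l 16769616) (l 16771072)) (b (l 16763976) (l 16767976)))) (b (l 16735944) (a (l 16757864) (l 16746848))))))), by decide +kernel⟩

def k2_B05pp_123_s1 : ∃ t, chk3 f_B05pp_123_s1 t 4 5 1 = true :=
  ⟨(a (l 3) (a (a (l 3) (b (b (b (a (l 535670927) (b (a (l 535815823) (b (l 16773800) (l 16774520))) (l 535797903))) (a (l 3) (l 535703695))) (l 3)) (l 3))) (b (a (b (b (a (b (a (l 16773512) (l 16771848)) (a (b (l 16773896) (l 16774688)) (l 16773256))) (b (l 16769376) (l 16770584))) (a (a (l 535826063) (b (l 16779664) (l 535927439))) (a (b (l 16772752) (l 16774304)) (b (l 16770848) (l 16787832))))) (a (b (l 535765647) (l 3)) (b (a (l 535736719) (b (l 16773680) (l 535572111)))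 (l 535542671)))) (b (b (a (l 16808800) (l 16760696)) (a (a (l 16769992) (l 16768712)) (l 16766592))) (a (b (b (a (l 16771800) (l 16770176)) (a (l 16773296) (l 16771400))) (b (l 535483791) (l 535397263))) (b (a (l 16769096) (l 16767552)) (a (b (l 16770888) (l 16772488)) (l 16790584)))))) (a (l 3) (b (a (b (l 535328655) (l 3)) (b (a (l 535308575) (b (l 16772096) (l 16778960))) (a (l 535227423) (l 535222047)))) (a (l 3) (a (l 3) (b (b (l 535166751) (l 3)) (l 3))))))))), by decide +kernel⟩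

def k3_B05pp_123_s1 : ∃ t, chk3 f_B05pp_123_s1 t 5 2 1 = true :=
  ⟨(b (a (b (a (a (l 16634808) (a (l 16622632) (l 16444904))) (l 16598600)) (a (a (l 16788664) (a (l 16520072) (a (l 16678296) (l 16502576)))) (b (l 16646264) (l 16667104)))) (b (l 6) (a (l 16555704) (l 16629384)))) (a (a (a (b (b (b (l 16743344) (a (l 16760968) (l 16750568))) (a (b (l 16765240) (l 16767264)) (b (l 16759960) (l 16764096)))) (b (a (b (a (b (l 16770008) (l 16771704)) (l 16768880)) (a (b (l 16773264) (l 535224607)) (b (l 16771392) (l 16772912)))) (b (l 16766680) (a (l 16791184) (l 16768400)))) (b (a (b (l 535276831) (l 535197215)) (a (l 535270031) (b (l 16770272) (l 16771568)))) (a (a (l 3) (l 535132047)) (l 535160095))))) (b (b (a (l 16729896) (l 16712328)) (a (b (l 16749360) (l 16758608)) (a (l 16743840) (l 16733352)))) (a (b (b (l 16763416) (l 16766008)) (b (a (l 16768824) (l 16766976)) (a (b (l 16770520) (l 16771736))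 (l 16768728)))) (b (a (b (l 16759256) (l 16763344)) (a (l 16757280) (a (l 16732648) (l 16751272)))) (b (a (l 16765088) (a (l 16763704) (l 16762456))) (a (l 16766712) (l 16785360))))))) (b (b (l 16690144) (l 16755736)) (b (a (l 16743528) (l 16729232)) (b (l 16800632) (a (l 16757288) (l 16744656)))))) (a (b (b (l 16669144) (l 16689760)) (b (l 16708960) (a (l 16730096) (l 16717416)))) (b (l 16659808) (b (l 16685432) (l 16700192)))))), by decide +kernel⟩

def k4_B05pp_123_s1 : ∃ t, chk3 f_B05pp_123_s1 t 3 2 1 = true :=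
  ⟨(a (b (l 6) (a (b (a (l 16392688) (l 6)) (a (l 16757248) (l 16657720))) (l 6))) (l 6)), by decide +kernel⟩

def k5_B05pp_123_s1 : ∃ t, chk3 f_B05pp_123_s1 t 4 6 1 = true :=
  ⟨(l 3), by decide +kernel⟩

def k6_B05pp_123_s1 : ∃ t, chk3 f_B05pp_123_s1 t 40 6 1 = true :=
  ⟨(a (l 3) (b (b (b (l 535036959) (b (l 534910607) (l 3))) (l 3)) (l 3))), by decide +kernel⟩

def k7_B05pp_123_s1 : ∃ t, chk3 f_B05pp_123_s1 t 82 6 1 = true :=
  ⟨(b (b (b (a (b (l 16783592) (l 534956575)) (a (l 16771752) (l 16770360))) (a (a (l 534874399) (l 534849823)) (a (b (l 16773696) (l 534771855)) (b (l 16772240) (l 16773496))))) (b (a (b (l 534748815) (l 3)) (b (a (l 534709135) (l 534656543)) (a (c (l 534689311) (l 534589471)) (l 534542223)))) (a (l 3) (a (b (l 534618255) (l 3)) (b (l 534528655) (l 534508431)))))) (l 3)), by decide +kernel⟩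

def k8_B05pp_123_s1 : ∃ t, chk3 f_B05pp_123_s1 t 83 12 1 = true :=
  ⟨(a (b (b (a (l 16768992) (l 16767880)) (a (b (l 16770656) (l 16771904)) (l 16769744))) (b (a (b (l 16773112) (l 534413967)) (b (l 16771344) (l 16772568))) (a (b (l 534397071) (l 534365071)) (b (l 16773792) (a (l 534254623) (l 16774448)))))) (b (b (a (l 16766912) (l 16765776)) (a (a (l 16768752) (l 16768296)) (l 16767352))) (a (b (a (l 16770624) (l 16769952)) (b (a (l 16772368) (l 16771440)) (a (l 16763008) (l 16772520)))) (b (l 16774312) (a (a (b (l 16771024) (a (l 16771912) (a (l 16771792) (l 16771800)))) (l 16760744)) (l 16760048)))))), by decide +kernel⟩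

def k9_B05pp_123_s1 : ∃ t, chk3 f_B05pp_123_s1 t 166 13 1 = true :=
  ⟨(b (b (a (b (l 534332047) (l 3)) (b (l 534130207) (l 534033951))) (a (l 3) (b (a (l 3) (l 533740687)) (l 3)))) (l 3)), by decide +kernel⟩

def k10_B05pp_123_s1 : ∃ t, chk3 f_B05pp_123_s1 t 334 13 1 = true :=
  ⟨(a (b (b (b (l 16777144) (a (l 533800335) (l 533744783))) (b (a (l 533580943) (l 535112335)) (a (b (l 533360671) (l 533367119)) (l 533456015)))) (b (l 533227343) (l 3))) (a (b (b (b (l 16773792) (l 533718671)) (b (l 533564559) (l 533495183))) (b (l 533297487) (l 3))) (a (a (b (b (b (l 16773488) (l 16774432)) (b (l 533574031) (l 533495439))) (b (l 533326671) (l 3))) (a (b (b (b (l 16773400) (l 16774344)) (b (l 533578127) (l 533502351))) (b (l 533333839) (l 3))) (a (b (b (b (l 16773352) (l 16774296)) (b (l 533579663) (l 533504911))) (b (l 533336911) (l 3))) (b (b (b (l 16773320) (l 16774264)) (b (l 533579919) (l 533505679)))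 (b (l 533338447) (l 3)))))) (b (b (b (l 16773184) (l 16774128)) (b (l 533580175) (l 533506703))) (b (l 533340751) (l 533080911)))))), by decide +kernel⟩

def k11_B05pp_123_s1 : ∃ t, chk3 f_B05pp_123_s1 t 335 13 1 = true :=
  ⟨(a (a (b (b (b (a (l 16772928) (b (l 16772456) (l 16772928))) (l 16773752)) (b (b (l 16774432) (l 16774880)) (b (l 16775288) (l 16775648)))) (b (l 533343791) (l 533084719))) (a (a (b (b (b (l 16772512) (l 16773448)) (b (l 16774360) (b (l 16774984) (l 16775336)))) (b (b (l 533403439) (l 533285423)) (b (l 533155887) (l 533014319)))) (a (b (b (b (l 16772416) (l 16773352)) (b (l 16774264) (l 16775080))) (b (b (b (l 16775576) (l 16775872)) (b (l 16776136) (l 16776368))) (b (b (l 533189935) (l 533122351)) (b (l 533051439) (l 532977455))))) (a (b (b (b (l 16772368) (l 16773304)) (b (l 16774224) (l 16775032))) (b (b (b (l 16775528) (l 16775824)) (b (l 16776088) (l 16776320))) (b (b (l 16776512)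 (l 16776664)) (b (b (l 16776760) (l 16776808)) (b (l 16776848) (l 16776872)))))) (b (b (b (l 16772336) (l 16773280)) (b (l 16774192) (l 16775000))) (b (b (b (l 16775496) (l 16775792)) (b (l 16776056) (l 16776288))) (b (b (l 16776480) (l 16776632)) (b (b (l 16776728) (l 16776776)) (b (l 16776808) (l 16776840))))))))) (b (b (b (l 16772208) (l 16773144)) (b (l 16774056) (l 16774872))) (b (b (b (l 16775360) (l 16775656)) (b (l 16775920) (l 16776144))) (b (b (l 16776336) (l 16776488)) (b (l 533068127) (l 532987487))))))) (b (b (b (l 16771624) (l 16772560)) (b (l 16773480) (l 16774280))) (b (l 533394783) (l 533110111)))), by decide +kernel⟩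

def k12_B05pp_123_s1 : ∃ t, chk3 f_B05pp_123_s1 t 21 6 1 = true :=
  ⟨(b (a (b (b (l 16758376) (a (l 16763216) (l 16756240))) (b (a (l 16764744) (l 16757664)) (b (l 16762528) (l 16773776)))) (b (l 16745816) (b (l 16747712) (l 16749800)))) (b (a (a (a (b (b (l 16769312) (l 16770248)) (b (l 16760704) (l 16771944))) (b (b (l 16765688) (l 16766656)) (b (l 16767560) (l 16768216)))) (b (l 16719088) (l 16720576))) (b (l 16709264) (l 16752024))) (a (l 533305439) (b (l 16751656) (l 16750416))))), by decide +kernel⟩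

def k13_B05pp_123_s1 : ∃ t, chk3 f_B05pp_123_s1 t 11 6 1 = true :=
  ⟨(b (a (b (a (l 16733480) (l 16723056)) (a (l 16736816) (l 16642040))) (b (l 16708152) (l 16711272))) (a (b (a (l 16738864) (l 16642616)) (b (l 16729816) (l 16726432))) (b (l 16708840) (b (l 16702328) (l 16695240))))), by decide +kernel⟩

def k14_B05pp_123_s1 : ∃ t, chk3 f_B05pp_123_s1 t 3 6 1 = true :=
  ⟨(a (b (a (b (l 16681704) (a (l 16692520) (l 16675184))) (b (l 16564248) (l 16645680))) (a (b (a (l 16602752) (l 16663376)) (a (l 16500400) (l 16634976))) (b (l 16623848) (l 1)))) (l 6)), by decide +kernel⟩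

def k15_B05pp_123_s1 : ∃ t, chk3 f_B05pp_123_s1 t 4 7 1 = true :=
  ⟨(b (l 3) (l 3)), by decide +kernel⟩

def k16_B05pp_123_s1 : ∃ t, chk3 f_B05pp_123_s1 t 20 28 1 = true :=
  ⟨(a (l 3) (a (l 3) (a (l 3) (a (b (l 3) (a (l 3) (l 534059327))) (a (a (b (l 532775471) (l 532413231)) (a (a (b (b (l 532859695) (l 532692015)) (b (l 532511023) (l 532316207))) (a (b (b (b (l 532900143) (l 532819759)) (b (l 532735791) (l 532648751))) (b (b (l 532558127) (l 16776328)) (b (l 16776024) (l 16775656)))) (a (b (b (b (b (l 16776888) (l 16776888)) (b (l 16776880) (l 16776856))) (b (b (l 16776824) (l 16776776)) (b (l 16776720) (l 16776648)))) (b (b (l 16776504) (b (l 16776336) (l 16776200))) (b (l 16775968) (l 16775600)))) (b (b (b (b (l 16776848) (l 16776856)) (b (l 16776848) (l 16776824))) (b (b (l 16776792) (l 16776744)) (b (l 16776680) (l 16776608)))) (b (b (l 16776464) (b (l 16776296) (l 16776160))) (b (l 16775928)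 (l 16775560))))))) (b (a (a (b (b (l 532902751) (l 532815199)) (b (l 532724063) (l 532629599))) (b (l 532859743) (l 532677471))) (b (l 532860255) (l 532677983))) (b (b (l 16776296) (l 532430175)) (b (l 16775752) (l 16775376)))))) (b (l 532772959) (l 532379487))))))), by decide +kernel⟩

def k17_B05pp_123_s1 : ∃ t, chk3 f_B05pp_123_s1 t 20 29 2 = true :=
  ⟨(a (l 3) (a (l 3) (b (a (b (l 3) (a (l 3) (a (l 3) (b (l 3) (l 531676031))))) (a (b (l 532319551) (b (l 532144959) (a (a (l 532805759) (l 531935359)) (l 16777656)))) (a (a (b (l 532247087) (b (l 16774720) (l 16774016))) (a (a (b (l 532248111) (b (l 16774304) (l 16773592))) (a (b (b (l 16775272) (l 16774768)) (b (l 16774184) (l 16773464))) (a (b (b (l 16775216) (l 16774712)) (b (l 16774120) (l 16773400))) (b (b (l 16775176) (l 16774672)) (b (l 16774080) (l 16773352)))))) (b (b (l 16774992) (l 16774480)) (b (l 16773888) (l 16773152))))) (b (l 532158815)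 (b (l 16773032) (l 16772264)))))) (b (b (a (a (l 3) (a (l 3) (l 532008063))) (a (a (a (l 531477887) (l 531585919)) (a (l 531599743) (l 16773816))) (l 16772024))) (a (a (l 3) (l 530477839)) (a (a (a (l 531042431) (l 1)) (l 1)) (l 1)))) (l 1))))), by decide +kernel⟩

def k18_B05pp_123_s1 : ∃ t, chk3 f_B05pp_123_s1 t 20 29 3 = true :=
  ⟨(a (l 3) (b (a (l 3) (a (b (l 3) (a (l 3) (a (l 3) (b (l 3) (l 531443327))))) (a (b (l 532023103) (b (l 531852351) (a (a (l 531979391) (l 531657087)) (l 16777536)))) (a (a (b (l 531965743) (b (l 16774568) (l 16773840))) (a (a (b (l 531966767) (b (l 16774136) (l 16773392))) (a (b (b (l 16775152) (l 16774624)) (b (l 16774008) (l 16773256))) (a (b (b (l 16775096) (l 16774560)) (b (l 16773944) (l 16773192))) (b (b (l 16775048) (l 16774512)) (b (l 16773896) (l 16773144)))))) (b (b (l 16774864) (l 16774320)) (b (l 16773704) (l 16772936))))) (b (l 531937375) (b (l 16772824) (l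 16772032))))))) (b (a (l 3) (a (a (l 3) (a (l 530403711) (l 532382991))) (b (a (a (a (l 531246719) (l 531336319)) (a (l 16774408) (l 16773656))) (l 16771792)) (a (a (a (l 530859135) (l 1)) (l 1)) (l 1))))) (a (l 3) (l 1))))), by decide +kernel⟩

def k19_B05pp_123_s1 : ∃ t, chk3 f_B05pp_123_s1 t 21 14 1 = true :=
  ⟨(a (b (l 532618591) (b (b (l 532072287) (a (b (l 16766640) (l 16765632)) (l 16754664))) (a (b (l 16774184) (l 1)) (l 1)))) (b (l 532678239) (b (l 531939935) (l 1)))), by decide +kernel⟩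

def k20_B05pp_123_s1 : ∃ t, chk3 f_B05pp_123_s1 t 10 15 1 = true :=
  ⟨(a (b (a (l 3) (l 1)) (l 1)) (l 1)), by decide +kernel⟩

def k21_B05pp_123_s1 : ∃ t, chk3 f_B05pp_123_s1 t 11 7 1 = true :=
  ⟨(b (b (a (b (l 16721816) (l 16798272)) (l 16760968)) (l 1)) (l 1)), by decide +kernel⟩

def k22_B05pp_123_s1 : ∃ t, chk3 f_B05pp_123_s1 t 3 7 1 = true :=
  ⟨(l 1), by decide +kernel⟩

theorem t23_B05pp_123_s1 : ∃ t, chk3 f_B05pp_123_s1 t 20 29 1 = true := ex3_c k17_B05pp_123_s1 k18_B05pp_123_s1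

theorem t24_B05pp_123_s1 : ∃ t, chk3 f_B05pp_123_s1 t 20 14 1 = true := ex3_b k16_B05pp_123_s1 t23_B05pp_123_s1

theorem t25_B05pp_123_s1 : ∃ t, chk3 f_B05pp_123_s1 t 10 14 1 = true := ex3_a t24_B05pp_123_s1 k19_B05pp_123_s1

theorem t26_B05pp_123_s1 : ∃ t, chk3 f_B05pp_123_s1 t 10 7 1 = true := ex3_b t25_B05pp_123_s1 k20_B05pp_123_s1

theorem t27_B05pp_123_s1 : ∃ t, chk3 f_B05pp_123_s1 t 5 7 1 = true := ex3_a t26_B05pp_123_s1 k21_B05pp_123_s1

theorem t28_B05pp_123_s1 : ∃ t, chk3 f_B05pp_123_s1 t 2 7 1 = true := ex3_a k15_B05pp_123_s1 t27_B05pp_123_s1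

theorem t29_B05pp_123_s1 : ∃ t, chk3 f_B05pp_123_s1 t 1 7 1 = true := ex3_a t28_B05pp_123_s1 k22_B05pp_123_s1

theorem t30_B05pp_123_s1 : ∃ t, chk3 f_B05pp_123_s1 t 167 13 1 = true := ex3_a k10_B05pp_123_s1 k11_B05pp_123_s1

theorem t31_B05pp_123_s1 : ∃ t, chk3 f_B05pp_123_s1 t 83 13 1 = true := ex3_a k9_B05pp_123_s1 t30_B05pp_123_s1

theorem t32_B05pp_123_s1 : ∃ t, chk3 f_B05pp_123_s1 t 83 6 1 = true := ex3_b k8_B05pp_123_s1 t31_B05pp_123_s1

theorem t33_B05pp_123_s1 : ∃ t, chk3 f_B05pp_123_s1 t 41 6 1 = true := ex3_a k7_B05pp_123_s1 t32_B05pp_123_s1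

theorem t34_B05pp_123_s1 : ∃ t, chk3 f_B05pp_123_s1 t 20 6 1 = true := ex3_a k6_B05pp_123_s1 t33_B05pp_123_s1

theorem t35_B05pp_123_s1 : ∃ t, chk3 f_B05pp_123_s1 t 10 6 1 = true := ex3_a t34_B05pp_123_s1 k12_B05pp_123_s1

theorem t36_B05pp_123_s1 : ∃ t, chk3 f_B05pp_123_s1 t 5 6 1 = true := ex3_a t35_B05pp_123_s1 k13_B05pp_123_s1

theorem t37_B05pp_123_s1 : ∃ t, chk3 f_B05pp_123_s1 t 2 6 1 = true := ex3_a k5_B05pp_123_s1 t36_B05pp_123_s1

theorem t38_B05pp_123_s1 : ∃ t, chk3 f_B05pp_123_s1 t 1 6 1 = true := ex3_a t37_B05pp_123_s1 k14_B05pp_123_s1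

theorem t39_B05pp_123_s1 : ∃ t, chk3 f_B05pp_123_s1 t 1 3 1 = true := ex3_b t38_B05pp_123_s1 t29_B05pp_123_s1

theorem t40_B05pp_123_s1 : ∃ t, chk3 f_B05pp_123_s1 t 4 4 1 = true := ex3_a k0_B05pp_123_s1 k1_B05pp_123_s1

theorem t41_B05pp_123_s1 : ∃ t, chk3 f_B05pp_123_s1 t 4 2 1 = true := ex3_b t40_B05pp_123_s1 k2_B05pp_123_s1

theorem t42_B05pp_123_s1 : ∃ t, chk3 f_B05pp_123_s1 t 2 2 1 = true := ex3_a t41_B05pp_123_s1 k3_B05pp_123_s1

theorem t43_B05pp_123_s1 : ∃ t, chk3 f_B05pp_123_s1 t 1 2 1 = true := ex3_a t42_B05pp_123_s1 k4_B05pp_123_s1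

theorem t44_B05pp_123_s1 : ∃ t, chk3 f_B05pp_123_s1 t 1 1 1 = true := ex3_b t43_B05pp_123_s1 t39_B05pp_123_s1

theorem c_B05pp_123_s1 : CertF 536870912 536870912 0 1230186008 780900216 37827925 false true true .npn 1 2 3
    ndB0q1 ndB5q3 pcB2 cut_B05pp_123_s1 xt_B05pp_123_s1 :=
  certF2 (fam := false) (s1 := true) (s2 := true) (a := 1) (b := 2) (c := 3) (cn := .npn) (n1 := ndB0q1) (n2 := ndB5q3) (pc := pcB2) (cut := cut_B05pp_123_s1) (xt := xt_B05pp_123_s1) (P1 := 536870912) (W1 := 536870912) (P2 := 0) (W2 := 1230186008) (P3 := 780900216) (W3 := 37827925)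
    rfl (fun _ => rfl) t44_B05pp_123_s1

theorem s_B05pp_123_s1 {κ x : ℝ} (hκ : κ * h0 = ken x) (hx : ((780900216 : ℕ) : ℝ) / S ≤ x)
    (hx' : x ≤ (((780900216 : ℕ) : ℝ) + (37827925 : ℕ)) / S)
    (H : CutB (VFD κ) PP tK tL pcB (Cut.of [[⟨0, 1, 0, 67108864⟩, ⟨1, 1, 0, 67108864⟩, ⟨2, 2, 0, 16777216⟩]]) 1 2 3 0 5 (sgb true) (sgb true) x) :
    AltB (VFD κ) PP tK tL pcB [⟨3, 0, 0, 1449551462⟩] 1 2 3 0 5 (sgb true) (sgb true) x :=
  strip_altBD (m := 1449551462) true rfl hκ (SH.κ0 hκ (SH.hx1 hx).le (SH.hx2 hx').le) (SH.hx1 hx).le (SH.hx2 hx') (covB01).cov (covB53).cov hx hx' c_B05pp_123_s1 H ((okx hx hx').extB (T := tt) (sideB hx hx') hκ rfl rfl (.O 1 true) (.N 3 true) rfl)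

noncomputable def cut_B05pp_133_s1 : Cut := Cut.of [[⟨4, 0, 0, 1449551462⟩]]

noncomputable def f_B05pp_133_s1 : ℕ → ℕ → ℕ → ℕ → Bool := onCell 1610612736 536870912 0 1230186008 780900216 37827925
    (rowF 2 false true true .dn 1 3 3 (qsf 536870912 536870912 0 1230186008 3) ndB0q1 ndB5q3 pcB3 cut_B05pp_133_s1 Ext.none)

def k0_B05pp_133_s1 : ∃ t, chk3 f_B05pp_133_s1 t 1 1 1 = true :=
  ⟨(b (l 6) (l 1)), by decide +kernel⟩

theorem c_B05pp_133_s1 : CertF 536870912 536870912 0 1230186008 780900216 37827925 false true true .dn 1 3 3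
    ndB0q1 ndB5q3 pcB3 cut_B05pp_133_s1 Ext.none :=
  certF2 (fam := false) (s1 := true) (s2 := true) (a := 1) (b := 3) (c := 3) (cn := .dn) (n1 := ndB0q1) (n2 := ndB5q3) (pc := pcB3) (cut := cut_B05pp_133_s1) (xt := Ext.none) (P1 := 536870912) (W1 := 536870912) (P2 := 0) (W2 := 1230186008) (P3 := 780900216) (W3 := 37827925)
    rfl (fun _ => rfl) k0_B05pp_133_s1

theorem s_B05pp_133_s1 {κ x : ℝ} (hκ : κ * h0 = ken x) (hx : ((780900216 : ℕ) : ℝ) / S ≤ x)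
    (hx' : x ≤ (((780900216 : ℕ) : ℝ) + (37827925 : ℕ)) / S) :
    AltB (VFD κ) PP tK tL pcB [⟨3, 0, 0, 1449551462⟩] 1 3 3 0 5 (sgb true) (sgb true) x :=
  strip_altBD (m := 1449551462) true rfl hκ (SH.κ0 hκ (SH.hx1 hx).le (SH.hx2 hx').le) (SH.hx1 hx).le (SH.hx2 hx') (covB01).cov (covB53).cov hx hx' c_B05pp_133_s1 cutB_nil (noExt_B)

noncomputable def cut_B05pp_202_s1 : Cut := Cut.of [[⟨4, 0, 0, 1449551462⟩]]

noncomputable def f_B05pp_202_s1 : ℕ → ℕ → ℕ → ℕ → Bool := onCell 0 536870912 1073741824 536870912 780900216 37827925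
    (rowF 0 false true true .pp 2 0 2 (qsf 0 536870912 1073741824 536870912 0) ndB0q2 ndB5q2 pcB0 cut_B05pp_202_s1 Ext.none)

def k0_B05pp_202_s1 : ∃ t, chk3 f_B05pp_202_s1 t 1 1 1 = true :=
  ⟨(l 5), by decide +kernel⟩

theorem c_B05pp_202_s1 : CertF 0 536870912 1073741824 536870912 780900216 37827925 false true true .pp 2 0 2
    ndB0q2 ndB5q2 pcB0 cut_B05pp_202_s1 Ext.none :=
  certF0 (fam := false) (s1 := true) (s2 := true) (a := 2) (b := 0) (c := 2) (cn := .pp) (n1 := ndB0q2) (n2 := ndB5q2) (pc := pcB0) (cut := cut_B05pp_202_s1) (xt := Ext.none) (P1 := 0) (W1 := 536870912) (P2 := 1073741824) (W2 := 536870912) (P3 := 780900216) (W3 := 37827925)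
    rfl k0_B05pp_202_s1

theorem s_B05pp_202_s1 {κ x : ℝ} (hκ : κ * h0 = ken x) (hx : ((780900216 : ℕ) : ℝ) / S ≤ x)
    (hx' : x ≤ (((780900216 : ℕ) : ℝ) + (37827925 : ℕ)) / S) :
    AltB (VFD κ) PP tK tL pcB [⟨3, 0, 0, 1449551462⟩] 2 0 2 0 5 (sgb true) (sgb true) x :=
  strip_altBD (m := 1449551462) true rfl hκ (SH.κ0 hκ (SH.hx1 hx).le (SH.hx2 hx').le) (SH.hx1 hx).le (SH.hx2 hx') (covB02).cov (covB52).cov hx hx' c_B05pp_202_s1 cutB_nil (noExt_B)

noncomputable def cut_B05pp_203_s1 : Cut := Cut.of [[⟨4, 0, 0, 1449551462⟩]]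

noncomputable def f_B05pp_203_s1 : ℕ → ℕ → ℕ → ℕ → Bool := onCell 0 536870912 0 1230186008 780900216 37827925
    (rowF 0 false true true .up 2 0 3 (qsf 0 536870912 0 1230186008 0) ndB0q2 ndB5q3 pcB0 cut_B05pp_203_s1 Ext.none)

def k0_B05pp_203_s1 : ∃ t, chk3 f_B05pp_203_s1 t 1 1 1 = true :=
  ⟨(b (l 2) (b (l 2) (a (l 5) (l 3)))), by decide +kernel⟩

theorem c_B05pp_203_s1 : CertF 0 536870912 0 1230186008 780900216 37827925 false true true .up 2 0 3
    ndB0q2 ndB5q3 pcB0 cut_B05pp_203_s1 Ext.none :=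
  certF0 (fam := false) (s1 := true) (s2 := true) (a := 2) (b := 0) (c := 3) (cn := .up) (n1 := ndB0q2) (n2 := ndB5q3) (pc := pcB0) (cut := cut_B05pp_203_s1) (xt := Ext.none) (P1 := 0) (W1 := 536870912) (P2 := 0) (W2 := 1230186008) (P3 := 780900216) (W3 := 37827925)
    rfl k0_B05pp_203_s1

theorem s_B05pp_203_s1 {κ x : ℝ} (hκ : κ * h0 = ken x) (hx : ((780900216 : ℕ) : ℝ) / S ≤ x)
    (hx' : x ≤ (((780900216 : ℕ) : ℝ) + (37827925 : ℕ)) / S) :
    AltB (VFD κ) PP tK tL pcB [⟨3, 0, 0, 1449551462⟩] 2 0 3 0 5 (sgb true) (sgb true) x :=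
  strip_altBD (m := 1449551462) true rfl hκ (SH.κ0 hκ (SH.hx1 hx).le (SH.hx2 hx').le) (SH.hx1 hx).le (SH.hx2 hx') (covB02).cov (covB53).cov hx hx' c_B05pp_203_s1 cutB_nil (noExt_B)

noncomputable def cut_B05pp_213_s1 : Cut := Cut.of [[⟨4, 0, 0, 1449551462⟩], [⟨0, 1, 0, 67108864⟩, ⟨1, 1, 0, 67108864⟩, ⟨2, 2, 0, 16777216⟩]]

noncomputable def f_B05pp_213_s1 : ℕ → ℕ → ℕ → ℕ → Bool := onCell 0 536870912 0 1230186008 780900216 37827925
    (rowF 0 false true true .pnn 2 1 3 (qsf 0 536870912 0 1230186008 1) ndB0q2 ndB5q3 pcB1 cut_B05pp_213_s1 Ext.none)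

def k0_B05pp_213_s1 : ∃ t, chk3 f_B05pp_213_s1 t 1 1 1 = true :=
  ⟨(a (b (l 3) (l 5)) (b (b (a (l 3) (b (a (l 3) (l 14)) (l 3))) (l 3)) (b (l 3) (l 3)))), by decide +kernel⟩

theorem c_B05pp_213_s1 : CertF 0 536870912 0 1230186008 780900216 37827925 false true true .pnn 2 1 3
    ndB0q2 ndB5q3 pcB1 cut_B05pp_213_s1 Ext.none :=
  certF0 (fam := false) (s1 := true) (s2 := true) (a := 2) (b := 1) (c := 3) (cn := .pnn) (n1 := ndB0q2) (n2 := ndB5q3) (pc := pcB1) (cut := cut_B05pp_213_s1) (xt := Ext.none) (P1 := 0) (W1 := 536870912) (P2 := 0) (W2 := 1230186008) (P3 := 780900216) (W3 := 37827925)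
    rfl k0_B05pp_213_s1

theorem s_B05pp_213_s1 {κ x : ℝ} (hκ : κ * h0 = ken x) (hx : ((780900216 : ℕ) : ℝ) / S ≤ x)
    (hx' : x ≤ (((780900216 : ℕ) : ℝ) + (37827925 : ℕ)) / S)
    (H : CutB (VFD κ) PP tK tL pcB (Cut.of [[⟨0, 1, 0, 67108864⟩, ⟨1, 1, 0, 67108864⟩, ⟨2, 2, 0, 16777216⟩]]) 2 1 3 0 5 (sgb true) (sgb true) x) :
    AltB (VFD κ) PP tK tL pcB [⟨3, 0, 0, 1449551462⟩] 2 1 3 0 5 (sgb true) (sgb true) x :=
  strip_altBD (m := 1449551462) true rfl hκ (SH.κ0 hκ (SH.hx1 hx).le (SH.hx2 hx').le) (SH.hx1 hx).le (SH.hx2 hx') (covB02).cov (covB53).cov hx hx' c_B05pp_213_s1 H (noExt_B)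

noncomputable def cut_B05pm_001_s1 : Cut := Cut.of [[⟨4, 0, 0, 1449551462⟩]]

noncomputable def f_B05pm_001_s1 : ℕ → ℕ → ℕ → ℕ → Bool := onCell 0 536870912 536870912 536870912 780900216 37827925
    (rowF 0 false true false .up 0 0 1 (qsf 0 536870912 536870912 536870912 0) ndB0q0 ndB5q1 pcB0 cut_B05pm_001_s1 Ext.none)

def k0_B05pm_001_s1 : ∃ t, chk3 f_B05pm_001_s1 t 1 1 1 = true :=
  ⟨(l 4), by decide +kernel⟩

theorem c_B05pm_001_s1 : CertF 0 536870912 536870912 536870912 780900216 37827925 false true false .up 0 0 1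
    ndB0q0 ndB5q1 pcB0 cut_B05pm_001_s1 Ext.none :=
  certF0 (fam := false) (s1 := true) (s2 := false) (a := 0) (b := 0) (c := 1) (cn := .up) (n1 := ndB0q0) (n2 := ndB5q1) (pc := pcB0) (cut := cut_B05pm_001_s1) (xt := Ext.none) (P1 := 0) (W1 := 536870912) (P2 := 536870912) (W2 := 536870912) (P3 := 780900216) (W3 := 37827925)
    rfl k0_B05pm_001_s1

theorem s_B05pm_001_s1 {κ x : ℝ} (hκ : κ * h0 = ken x) (hx : ((780900216 : ℕ) : ℝ) / S ≤ x)
    (hx' : x ≤ (((780900216 : ℕ) : ℝ) + (37827925 : ℕ)) / S) :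
    AltB (VFD κ) PP tK tL pcB [⟨3, 0, 0, 1449551462⟩] 0 0 1 0 5 (sgb true) (sgb false) x :=
  strip_altBD (m := 1449551462) true rfl hκ (SH.κ0 hκ (SH.hx1 hx).le (SH.hx2 hx').le) (SH.hx1 hx).le (SH.hx2 hx') (covB00).cov (covB51).cov hx hx' c_B05pm_001_s1 cutB_nil (noExt_B)

noncomputable def cut_B05pm_011_s1 : Cut := Cut.of [[⟨4, 0, 0, 1449551462⟩]]

noncomputable def f_B05pm_011_s1 : ℕ → ℕ → ℕ → ℕ → Bool := onCell 0 536870912 536870912 536870912 780900216 37827925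
    (rowF 0 false true false .pnn 0 1 1 (qsf 0 536870912 536870912 536870912 1) ndB0q0 ndB5q1 pcB1 cut_B05pm_011_s1 Ext.none)

def k0_B05pm_011_s1 : ∃ t, chk3 f_B05pm_011_s1 t 1 1 1 = true :=
  ⟨(l 4), by decide +kernel⟩

theorem c_B05pm_011_s1 : CertF 0 536870912 536870912 536870912 780900216 37827925 false true false .pnn 0 1 1
    ndB0q0 ndB5q1 pcB1 cut_B05pm_011_s1 Ext.none :=
  certF0 (fam := false) (s1 := true) (s2 := false) (a := 0) (b := 1) (c := 1) (cn := .pnn) (n1 := ndB0q0) (n2 := ndB5q1) (pc := pcB1) (cut := cut_B05pm_011_s1) (xt := Ext.none) (P1 := 0) (W1 := 536870912) (P2 := 536870912) (W2 := 536870912) (P3 := 780900216) (W3 := 37827925)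
    rfl k0_B05pm_011_s1

theorem s_B05pm_011_s1 {κ x : ℝ} (hκ : κ * h0 = ken x) (hx : ((780900216 : ℕ) : ℝ) / S ≤ x)
    (hx' : x ≤ (((780900216 : ℕ) : ℝ) + (37827925 : ℕ)) / S) :
    AltB (VFD κ) PP tK tL pcB [⟨3, 0, 0, 1449551462⟩] 0 1 1 0 5 (sgb true) (sgb false) x :=
  strip_altBD (m := 1449551462) true rfl hκ (SH.κ0 hκ (SH.hx1 hx).le (SH.hx2 hx').le) (SH.hx1 hx).le (SH.hx2 hx') (covB00).cov (covB51).cov hx hx' c_B05pm_011_s1 cutB_nil (noExt_B)

noncomputable def cut_B05pm_012_s1 : Cut := Cut.of [[⟨4, 0, 0, 1449551462⟩]]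

noncomputable def f_B05pm_012_s1 : ℕ → ℕ → ℕ → ℕ → Bool := onCell 0 536870912 1073741824 536870912 780900216 37827925
    (rowF 0 false true false .pnp 0 1 2 (qsf 0 536870912 1073741824 536870912 1) ndB0q0 ndB5q2 pcB1 cut_B05pm_012_s1 Ext.none)

def k0_B05pm_012_s1 : ∃ t, chk3 f_B05pm_012_s1 t 1 1 1 = true :=
  ⟨(l 4), by decide +kernel⟩

theorem c_B05pm_012_s1 : CertF 0 536870912 1073741824 536870912 780900216 37827925 false true false .pnp 0 1 2
    ndB0q0 ndB5q2 pcB1 cut_B05pm_012_s1 Ext.none :=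
  certF0 (fam := false) (s1 := true) (s2 := false) (a := 0) (b := 1) (c := 2) (cn := .pnp) (n1 := ndB0q0) (n2 := ndB5q2) (pc := pcB1) (cut := cut_B05pm_012_s1) (xt := Ext.none) (P1 := 0) (W1 := 536870912) (P2 := 1073741824) (W2 := 536870912) (P3 := 780900216) (W3 := 37827925)
    rfl k0_B05pm_012_s1

theorem s_B05pm_012_s1 {κ x : ℝ} (hκ : κ * h0 = ken x) (hx : ((780900216 : ℕ) : ℝ) / S ≤ x)
    (hx' : x ≤ (((780900216 : ℕ) : ℝ) + (37827925 : ℕ)) / S) :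
    AltB (VFD κ) PP tK tL pcB [⟨3, 0, 0, 1449551462⟩] 0 1 2 0 5 (sgb true) (sgb false) x :=
  strip_altBD (m := 1449551462) true rfl hκ (SH.κ0 hκ (SH.hx1 hx).le (SH.hx2 hx').le) (SH.hx1 hx).le (SH.hx2 hx') (covB00).cov (covB52).cov hx hx' c_B05pm_012_s1 cutB_nil (noExt_B)

noncomputable def cut_B05pm_022_s1 : Cut := Cut.of [[⟨4, 0, 0, 1449551462⟩]]

noncomputable def f_B05pm_022_s1 : ℕ → ℕ → ℕ → ℕ → Bool := onCell 0 536870912 1073741824 536870912 780900216 37827925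
    (rowF 0 false true false .pp 0 2 2 (qsf 0 536870912 1073741824 536870912 2) ndB0q0 ndB5q2 pcB2 cut_B05pm_022_s1 Ext.none)

def k0_B05pm_022_s1 : ∃ t, chk3 f_B05pm_022_s1 t 1 1 1 = true :=
  ⟨(l 4), by decide +kernel⟩

theorem c_B05pm_022_s1 : CertF 0 536870912 1073741824 536870912 780900216 37827925 false true false .pp 0 2 2
    ndB0q0 ndB5q2 pcB2 cut_B05pm_022_s1 Ext.none :=
  certF0 (fam := false) (s1 := true) (s2 := false) (a := 0) (b := 2) (c := 2) (cn := .pp) (n1 := ndB0q0) (n2 := ndB5q2) (pc := pcB2) (cut := cut_B05pm_022_s1) (xt := Ext.none) (P1 := 0) (W1 := 536870912) (P2 := 1073741824) (W2 := 536870912) (P3 := 780900216) (W3 := 37827925)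
    rfl k0_B05pm_022_s1

theorem s_B05pm_022_s1 {κ x : ℝ} (hκ : κ * h0 = ken x) (hx : ((780900216 : ℕ) : ℝ) / S ≤ x)
    (hx' : x ≤ (((780900216 : ℕ) : ℝ) + (37827925 : ℕ)) / S) :
    AltB (VFD κ) PP tK tL pcB [⟨3, 0, 0, 1449551462⟩] 0 2 2 0 5 (sgb true) (sgb false) x :=
  strip_altBD (m := 1449551462) true rfl hκ (SH.κ0 hκ (SH.hx1 hx).le (SH.hx2 hx').le) (SH.hx1 hx).le (SH.hx2 hx') (covB00).cov (covB52).cov hx hx' c_B05pm_022_s1 cutB_nil (noExt_B)

noncomputable def cut_B05pm_023_s1 : Cut := Cut.of [[⟨4, 0, 0, 1449551462⟩]]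

noncomputable def f_B05pm_023_s1 : ℕ → ℕ → ℕ → ℕ → Bool := onCell 0 536870912 0 1230186008 780900216 37827925
    (rowF 0 false true false .up 0 2 3 (qsf 0 536870912 0 1230186008 2) ndB0q0 ndB5q3 pcB2 cut_B05pm_023_s1 Ext.none)

def k0_B05pm_023_s1 : ∃ t, chk3 f_B05pm_023_s1 t 1 1 1 = true :=
  ⟨(l 6), by decide +kernel⟩

theorem c_B05pm_023_s1 : CertF 0 536870912 0 1230186008 780900216 37827925 false true false .up 0 2 3
    ndB0q0 ndB5q3 pcB2 cut_B05pm_023_s1 Ext.none :=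
  certF0 (fam := false) (s1 := true) (s2 := false) (a := 0) (b := 2) (c := 3) (cn := .up) (n1 := ndB0q0) (n2 := ndB5q3) (pc := pcB2) (cut := cut_B05pm_023_s1) (xt := Ext.none) (P1 := 0) (W1 := 536870912) (P2 := 0) (W2 := 1230186008) (P3 := 780900216) (W3 := 37827925)
    rfl k0_B05pm_023_s1

theorem s_B05pm_023_s1 {κ x : ℝ} (hκ : κ * h0 = ken x) (hx : ((780900216 : ℕ) : ℝ) / S ≤ x)
    (hx' : x ≤ (((780900216 : ℕ) : ℝ) + (37827925 : ℕ)) / S) :
    AltB (VFD κ) PP tK tL pcB [⟨3, 0, 0, 1449551462⟩] 0 2 3 0 5 (sgb true) (sgb false) x :=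
  strip_altBD (m := 1449551462) true rfl hκ (SH.κ0 hκ (SH.hx1 hx).le (SH.hx2 hx').le) (SH.hx1 hx).le (SH.hx2 hx') (covB00).cov (covB53).cov hx hx' c_B05pm_023_s1 cutB_nil (noExt_B)

noncomputable def cut_B05pm_033_s1 : Cut := Cut.of [[⟨4, 0, 0, 1449551462⟩]]

noncomputable def f_B05pm_033_s1 : ℕ → ℕ → ℕ → ℕ → Bool := onCell 0 536870912 0 1230186008 780900216 37827925
    (rowF 0 false true false .pnn 0 3 3 (qsf 0 536870912 0 1230186008 3) ndB0q0 ndB5q3 pcB3 cut_B05pm_033_s1 Ext.none)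

def k0_B05pm_033_s1 : ∃ t, chk3 f_B05pm_033_s1 t 1 1 1 = true :=
  ⟨(l 6), by decide +kernel⟩

theorem c_B05pm_033_s1 : CertF 0 536870912 0 1230186008 780900216 37827925 false true false .pnn 0 3 3
    ndB0q0 ndB5q3 pcB3 cut_B05pm_033_s1 Ext.none :=
  certF0 (fam := false) (s1 := true) (s2 := false) (a := 0) (b := 3) (c := 3) (cn := .pnn) (n1 := ndB0q0) (n2 := ndB5q3) (pc := pcB3) (cut := cut_B05pm_033_s1) (xt := Ext.none) (P1 := 0) (W1 := 536870912) (P2 := 0) (W2 := 1230186008) (P3 := 780900216) (W3 := 37827925)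
    rfl k0_B05pm_033_s1

theorem s_B05pm_033_s1 {κ x : ℝ} (hκ : κ * h0 = ken x) (hx : ((780900216 : ℕ) : ℝ) / S ≤ x)
    (hx' : x ≤ (((780900216 : ℕ) : ℝ) + (37827925 : ℕ)) / S) :
    AltB (VFD κ) PP tK tL pcB [⟨3, 0, 0, 1449551462⟩] 0 3 3 0 5 (sgb true) (sgb false) x :=
  strip_altBD (m := 1449551462) true rfl hκ (SH.κ0 hκ (SH.hx1 hx).le (SH.hx2 hx').le) (SH.hx1 hx).le (SH.hx2 hx') (covB00).cov (covB53).cov hx hx' c_B05pm_033_s1 cutB_nil (noExt_B)

noncomputable def cut_B05pm_101_s1 : Cut := Cut.of [[⟨4, 0, 0, 1449551462⟩]]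

noncomputable def f_B05pm_101_s1 : ℕ → ℕ → ℕ → ℕ → Bool := onCell 536870912 536870912 536870912 536870912 780900216 37827925
    (rowF 0 false true false .npn 1 0 1 (qsf 536870912 536870912 536870912 536870912 0) ndB0q1 ndB5q1 pcB0 cut_B05pm_101_s1 Ext.none)

def k0_B05pm_101_s1 : ∃ t, chk3 f_B05pm_101_s1 t 1 1 1 = true :=
  ⟨(l 4), by decide +kernel⟩

theorem c_B05pm_101_s1 : CertF 536870912 536870912 536870912 536870912 780900216 37827925 false true false .npn 1 0 1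
    ndB0q1 ndB5q1 pcB0 cut_B05pm_101_s1 Ext.none :=
  certF0 (fam := false) (s1 := true) (s2 := false) (a := 1) (b := 0) (c := 1) (cn := .npn) (n1 := ndB0q1) (n2 := ndB5q1) (pc := pcB0) (cut := cut_B05pm_101_s1) (xt := Ext.none) (P1 := 536870912) (W1 := 536870912) (P2 := 536870912) (W2 := 536870912) (P3 := 780900216) (W3 := 37827925)
    rfl k0_B05pm_101_s1

theorem s_B05pm_101_s1 {κ x : ℝ} (hκ : κ * h0 = ken x) (hx : ((780900216 : ℕ) : ℝ) / S ≤ x)
    (hx' : x ≤ (((780900216 : ℕ) : ℝ) + (37827925 : ℕ)) / S) :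
    AltB (VFD κ) PP tK tL pcB [⟨3, 0, 0, 1449551462⟩] 1 0 1 0 5 (sgb true) (sgb false) x :=
  strip_altBD (m := 1449551462) true rfl hκ (SH.κ0 hκ (SH.hx1 hx).le (SH.hx2 hx').le) (SH.hx1 hx).le (SH.hx2 hx') (covB01).cov (covB51).cov hx hx' c_B05pm_101_s1 cutB_nil (noExt_B)

noncomputable def cut_B05pm_102_s1 : Cut := Cut.of [[⟨4, 0, 0, 1449551462⟩]]

noncomputable def f_B05pm_102_s1 : ℕ → ℕ → ℕ → ℕ → Bool := onCell 536870912 536870912 1073741824 536870912 780900216 37827925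
    (rowF 0 false true false .npp 1 0 2 (qsf 536870912 536870912 1073741824 536870912 0) ndB0q1 ndB5q2 pcB0 cut_B05pm_102_s1 Ext.none)

def k0_B05pm_102_s1 : ∃ t, chk3 f_B05pm_102_s1 t 1 1 1 = true :=
  ⟨(l 6), by decide +kernel⟩

theorem c_B05pm_102_s1 : CertF 536870912 536870912 1073741824 536870912 780900216 37827925 false true false .npp 1 0 2
    ndB0q1 ndB5q2 pcB0 cut_B05pm_102_s1 Ext.none :=
  certF0 (fam := false) (s1 := true) (s2 := false) (a := 1) (b := 0) (c := 2) (cn := .npp) (n1 := ndB0q1) (n2 := ndB5q2) (pc := pcB0) (cut := cut_B05pm_102_s1) (xt := Ext.none) (P1 := 536870912) (W1 := 536870912) (P2 := 1073741824) (W2 := 536870912) (P3 := 780900216) (W3 := 37827925)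
    rfl k0_B05pm_102_s1

theorem s_B05pm_102_s1 {κ x : ℝ} (hκ : κ * h0 = ken x) (hx : ((780900216 : ℕ) : ℝ) / S ≤ x)
    (hx' : x ≤ (((780900216 : ℕ) : ℝ) + (37827925 : ℕ)) / S) :
    AltB (VFD κ) PP tK tL pcB [⟨3, 0, 0, 1449551462⟩] 1 0 2 0 5 (sgb true) (sgb false) x :=
  strip_altBD (m := 1449551462) true rfl hκ (SH.κ0 hκ (SH.hx1 hx).le (SH.hx2 hx').le) (SH.hx1 hx).le (SH.hx2 hx') (covB01).cov (covB52).cov hx hx' c_B05pm_102_s1 cutB_nil (noExt_B)

noncomputable def cut_B05pm_112_s1 : Cut := Cut.of [[⟨4, 0, 0, 1449551462⟩]]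

noncomputable def f_B05pm_112_s1 : ℕ → ℕ → ℕ → ℕ → Bool := onCell 536870912 536870912 1073741824 536870912 780900216 37827925
    (rowF 0 false true false .dn 1 1 2 (qsf 536870912 536870912 1073741824 536870912 1) ndB0q1 ndB5q2 pcB1 cut_B05pm_112_s1 Ext.none)

def k0_B05pm_112_s1 : ∃ t, chk3 f_B05pm_112_s1 t 1 1 1 = true :=
  ⟨(l 6), by decide +kernel⟩

theorem c_B05pm_112_s1 : CertF 536870912 536870912 1073741824 536870912 780900216 37827925 false true false .dn 1 1 2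
    ndB0q1 ndB5q2 pcB1 cut_B05pm_112_s1 Ext.none :=
  certF0 (fam := false) (s1 := true) (s2 := false) (a := 1) (b := 1) (c := 2) (cn := .dn) (n1 := ndB0q1) (n2 := ndB5q2) (pc := pcB1) (cut := cut_B05pm_112_s1) (xt := Ext.none) (P1 := 536870912) (W1 := 536870912) (P2 := 1073741824) (W2 := 536870912) (P3 := 780900216) (W3 := 37827925)
    rfl k0_B05pm_112_s1

theorem s_B05pm_112_s1 {κ x : ℝ} (hκ : κ * h0 = ken x) (hx : ((780900216 : ℕ) : ℝ) / S ≤ x)
    (hx' : x ≤ (((780900216 : ℕ) : ℝ) + (37827925 : ℕ)) / S) :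
    AltB (VFD κ) PP tK tL pcB [⟨3, 0, 0, 1449551462⟩] 1 1 2 0 5 (sgb true) (sgb false) x :=
  strip_altBD (m := 1449551462) true rfl hκ (SH.κ0 hκ (SH.hx1 hx).le (SH.hx2 hx').le) (SH.hx1 hx).le (SH.hx2 hx') (covB01).cov (covB52).cov hx hx' c_B05pm_112_s1 cutB_nil (noExt_B)

noncomputable def cut_B05pm_113_s1 : Cut := Cut.of [[⟨4, 0, 0, 1449551462⟩], [⟨0, 1, 0, 67108864⟩, ⟨1, 1, 0, 67108864⟩, ⟨2, 2, 0, 16777216⟩]]

noncomputable def f_B05pm_113_s1 : ℕ → ℕ → ℕ → ℕ → Bool := onCell 536870912 536870912 0 1230186008 780900216 37827925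
    (rowF 0 false true false .nn 1 1 3 (qsf 536870912 536870912 0 1230186008 1) ndB0q1 ndB5q3 pcB1 cut_B05pm_113_s1 Ext.none)

def k0_B05pm_113_s1 : ∃ t, chk3 f_B05pm_113_s1 t 1 1 1 = true :=
  ⟨(b (a (l 2) (a (l 2) (b (a (l 2) (a (l 2) (b (l 14) (b (l 14) (l 16732368))))) (a (l 6) (b (a (l 6) (l 16695640)) (l 6)))))) (a (l 6) (l 6))), by decide +kernel⟩

theorem c_B05pm_113_s1 : CertF 536870912 536870912 0 1230186008 780900216 37827925 false true false .nn 1 1 3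
    ndB0q1 ndB5q3 pcB1 cut_B05pm_113_s1 Ext.none :=
  certF0 (fam := false) (s1 := true) (s2 := false) (a := 1) (b := 1) (c := 3) (cn := .nn) (n1 := ndB0q1) (n2 := ndB5q3) (pc := pcB1) (cut := cut_B05pm_113_s1) (xt := Ext.none) (P1 := 536870912) (W1 := 536870912) (P2 := 0) (W2 := 1230186008) (P3 := 780900216) (W3 := 37827925)
    rfl k0_B05pm_113_s1

theorem s_B05pm_113_s1 {κ x : ℝ} (hκ : κ * h0 = ken x) (hx : ((780900216 : ℕ) : ℝ) / S ≤ x)
    (hx' : x ≤ (((780900216 : ℕ) : ℝ) + (37827925 : ℕ)) / S)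
    (H : CutB (VFD κ) PP tK tL pcB (Cut.of [[⟨0, 1, 0, 67108864⟩, ⟨1, 1, 0, 67108864⟩, ⟨2, 2, 0, 16777216⟩]]) 1 1 3 0 5 (sgb true) (sgb false) x) :
    AltB (VFD κ) PP tK tL pcB [⟨3, 0, 0, 1449551462⟩] 1 1 3 0 5 (sgb true) (sgb false) x :=
  strip_altBD (m := 1449551462) true rfl hκ (SH.κ0 hκ (SH.hx1 hx).le (SH.hx2 hx').le) (SH.hx1 hx).le (SH.hx2 hx') (covB01).cov (covB53).cov hx hx' c_B05pm_113_s1 H (noExt_B)

noncomputable def cut_B05pm_123_s1 : Cut := Cut.of [[⟨4, 0, 0, 1449551462⟩], [⟨0, 1, 0, 67108864⟩, ⟨1, 1, 0, 67108864⟩, ⟨2, 2, 0, 16777216⟩]]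

noncomputable def f_B05pm_123_s1 : ℕ → ℕ → ℕ → ℕ → Bool := onCell 1073741824 536870912 0 1230186008 780900216 37827925
    (rowF 2 false true false .npn 1 2 3 (qsf 536870912 536870912 0 1230186008 2) ndB0q1 ndB5q3 pcB2 cut_B05pm_123_s1 Ext.none)

def k0_B05pm_123_s1 : ∃ t, chk3 f_B05pm_123_s1 t 1 1 1 = true :=
  ⟨(b (a (a (b (a (b (a (l 14) (b (a (l 14) (l 16677840)) (l 16644264))) (b (a (l 14) (l 16603576)) (a (l 16604816) (l 6)))) (b (a (b (l 16557112) (l 16596384)) (b (l 16505520) (l 6))) (l 6))) (a (l 6) (l 6))) (b (b (l 6) (l 6)) (l 6))) (l 6)) (l 6)), by decide +kernel⟩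

theorem c_B05pm_123_s1 : CertF 536870912 536870912 0 1230186008 780900216 37827925 false true false .npn 1 2 3
    ndB0q1 ndB5q3 pcB2 cut_B05pm_123_s1 Ext.none :=
  certF2 (fam := false) (s1 := true) (s2 := false) (a := 1) (b := 2) (c := 3) (cn := .npn) (n1 := ndB0q1) (n2 := ndB5q3) (pc := pcB2) (cut := cut_B05pm_123_s1) (xt := Ext.none) (P1 := 536870912) (W1 := 536870912) (P2 := 0) (W2 := 1230186008) (P3 := 780900216) (W3 := 37827925)
    rfl (fun _ => rfl) k0_B05pm_123_s1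

theorem s_B05pm_123_s1 {κ x : ℝ} (hκ : κ * h0 = ken x) (hx : ((780900216 : ℕ) : ℝ) / S ≤ x)
    (hx' : x ≤ (((780900216 : ℕ) : ℝ) + (37827925 : ℕ)) / S)
    (H : CutB (VFD κ) PP tK tL pcB (Cut.of [[⟨0, 1, 0, 67108864⟩, ⟨1, 1, 0, 67108864⟩, ⟨2, 2, 0, 16777216⟩]]) 1 2 3 0 5 (sgb true) (sgb false) x) :
    AltB (VFD κ) PP tK tL pcB [⟨3, 0, 0, 1449551462⟩] 1 2 3 0 5 (sgb true) (sgb false) x :=
  strip_altBD (m := 1449551462) true rfl hκ (SH.κ0 hκ (SH.hx1 hx).le (SH.hx2 hx').le) (SH.hx1 hx).le (SH.hx2 hx') (covB01).cov (covB53).cov hx hx' c_B05pm_123_s1 H (noExt_B)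

noncomputable def cut_B05pm_133_s1 : Cut := Cut.of [[⟨4, 0, 0, 1449551462⟩]]

noncomputable def f_B05pm_133_s1 : ℕ → ℕ → ℕ → ℕ → Bool := onCell 1610612736 536870912 0 1230186008 780900216 37827925
    (rowF 2 false true false .dn 1 3 3 (qsf 536870912 536870912 0 1230186008 3) ndB0q1 ndB5q3 pcB3 cut_B05pm_133_s1 Ext.none)

def k0_B05pm_133_s1 : ∃ t, chk3 f_B05pm_133_s1 t 1 1 1 = true :=
  ⟨(l 6), by decide +kernel⟩

theorem c_B05pm_133_s1 : CertF 536870912 536870912 0 1230186008 780900216 37827925 false true false .dn 1 3 3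
    ndB0q1 ndB5q3 pcB3 cut_B05pm_133_s1 Ext.none :=
  certF2 (fam := false) (s1 := true) (s2 := false) (a := 1) (b := 3) (c := 3) (cn := .dn) (n1 := ndB0q1) (n2 := ndB5q3) (pc := pcB3) (cut := cut_B05pm_133_s1) (xt := Ext.none) (P1 := 536870912) (W1 := 536870912) (P2 := 0) (W2 := 1230186008) (P3 := 780900216) (W3 := 37827925)
    rfl (fun _ => rfl) k0_B05pm_133_s1

theorem s_B05pm_133_s1 {κ x : ℝ} (hκ : κ * h0 = ken x) (hx : ((780900216 : ℕ) : ℝ) / S ≤ x)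
    (hx' : x ≤ (((780900216 : ℕ) : ℝ) + (37827925 : ℕ)) / S) :
    AltB (VFD κ) PP tK tL pcB [⟨3, 0, 0, 1449551462⟩] 1 3 3 0 5 (sgb true) (sgb false) x :=
  strip_altBD (m := 1449551462) true rfl hκ (SH.κ0 hκ (SH.hx1 hx).le (SH.hx2 hx').le) (SH.hx1 hx).le (SH.hx2 hx') (covB01).cov (covB53).cov hx hx' c_B05pm_133_s1 cutB_nil (noExt_B)

noncomputable def cut_B05pm_202_s1 : Cut := Cut.of [[⟨4, 0, 0, 1449551462⟩]]

noncomputable def f_B05pm_202_s1 : ℕ → ℕ → ℕ → ℕ → Bool := onCell 0 536870912 1073741824 536870912 780900216 37827925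
    (rowF 0 false true false .pp 2 0 2 (qsf 0 536870912 1073741824 536870912 0) ndB0q2 ndB5q2 pcB0 cut_B05pm_202_s1 Ext.none)

def k0_B05pm_202_s1 : ∃ t, chk3 f_B05pm_202_s1 t 1 1 1 = true :=
  ⟨(a (b (l 6) (b (l 6) (l 6))) (l 6)), by decide +kernel⟩

theorem c_B05pm_202_s1 : CertF 0 536870912 1073741824 536870912 780900216 37827925 false true false .pp 2 0 2
    ndB0q2 ndB5q2 pcB0 cut_B05pm_202_s1 Ext.none :=
  certF0 (fam := false) (s1 := true) (s2 := false) (a := 2) (b := 0) (c := 2) (cn := .pp) (n1 := ndB0q2) (n2 := ndB5q2) (pc := pcB0) (cut := cut_B05pm_202_s1) (xt := Ext.none) (P1 := 0) (W1 := 536870912) (P2 := 1073741824) (W2 := 536870912) (P3 := 780900216) (W3 := 37827925)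
    rfl k0_B05pm_202_s1

theorem s_B05pm_202_s1 {κ x : ℝ} (hκ : κ * h0 = ken x) (hx : ((780900216 : ℕ) : ℝ) / S ≤ x)
    (hx' : x ≤ (((780900216 : ℕ) : ℝ) + (37827925 : ℕ)) / S) :
    AltB (VFD κ) PP tK tL pcB [⟨3, 0, 0, 1449551462⟩] 2 0 2 0 5 (sgb true) (sgb false) x :=
  strip_altBD (m := 1449551462) true rfl hκ (SH.κ0 hκ (SH.hx1 hx).le (SH.hx2 hx').le) (SH.hx1 hx).le (SH.hx2 hx') (covB02).cov (covB52).cov hx hx' c_B05pm_202_s1 cutB_nil (noExt_B)

noncomputable def cut_B05pm_203_s1 : Cut := Cut.of [[⟨4, 0, 0, 1449551462⟩]]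

noncomputable def f_B05pm_203_s1 : ℕ → ℕ → ℕ → ℕ → Bool := onCell 0 536870912 0 1230186008 780900216 37827925
    (rowF 0 false true false .up 2 0 3 (qsf 0 536870912 0 1230186008 0) ndB0q2 ndB5q3 pcB0 cut_B05pm_203_s1 Ext.none)

def k0_B05pm_203_s1 : ∃ t, chk3 f_B05pm_203_s1 t 1 1 1 = true :=
  ⟨(b (l 2) (b (l 2) (a (b (b (l 2) (a (a (b (l 2) (l 16726088)) (l 16703816)) (a (l 16668040) (l 6)))) (a (a (b (b (l 16707976) (l 16680904)) (b (l 16651920) (l 16622304))) (b (b (l 16669112) (l 6)) (l 6))) (l 6))) (l 6)))), by decide +kernel⟩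

theorem c_B05pm_203_s1 : CertF 0 536870912 0 1230186008 780900216 37827925 false true false .up 2 0 3
    ndB0q2 ndB5q3 pcB0 cut_B05pm_203_s1 Ext.none :=
  certF0 (fam := false) (s1 := true) (s2 := false) (a := 2) (b := 0) (c := 3) (cn := .up) (n1 := ndB0q2) (n2 := ndB5q3) (pc := pcB0) (cut := cut_B05pm_203_s1) (xt := Ext.none) (P1 := 0) (W1 := 536870912) (P2 := 0) (W2 := 1230186008) (P3 := 780900216) (W3 := 37827925)
    rfl k0_B05pm_203_s1

theorem s_B05pm_203_s1 {κ x : ℝ} (hκ : κ * h0 = ken x) (hx : ((780900216 : ℕ) : ℝ) / S ≤ x)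
    (hx' : x ≤ (((780900216 : ℕ) : ℝ) + (37827925 : ℕ)) / S) :
    AltB (VFD κ) PP tK tL pcB [⟨3, 0, 0, 1449551462⟩] 2 0 3 0 5 (sgb true) (sgb false) x :=
  strip_altBD (m := 1449551462) true rfl hκ (SH.κ0 hκ (SH.hx1 hx).le (SH.hx2 hx').le) (SH.hx1 hx).le (SH.hx2 hx') (covB02).cov (covB53).cov hx hx' c_B05pm_203_s1 cutB_nil (noExt_B)

noncomputable def cut_B05pm_213_s1 : Cut := Cut.of [[⟨4, 0, 0, 1449551462⟩], [⟨0, 1, 0, 67108864⟩, ⟨1, 1, 0, 67108864⟩, ⟨2, 2, 0, 16777216⟩]]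

noncomputable def xt_B05pm_213_s1 : Ext := strExt dd false true false .u2 .s2m .u0m .pnn 2 1 3 rfl rfl gf1 vv ndB0q2 ndB5q3

noncomputable def f_B05pm_213_s1 : ℕ → ℕ → ℕ → ℕ → Bool := onCell 0 536870912 0 1230186008 780900216 37827925
    (rowF 0 false true false .pnn 2 1 3 (qsf 0 536870912 0 1230186008 1) ndB0q2 ndB5q3 pcB1 cut_B05pm_213_s1 xt_B05pm_213_s1)

def k0_B05pm_213_s1 : ∃ t, chk3 f_B05pm_213_s1 t 1 2 1 = true :=
  ⟨(a (b (l 3) (a (l 3) (b (l 3) (a (b (l 3) (a (l 3) (l 535048719))) (b (a (l 3) (b (a (l 3) (l 535314191)) (l 535181327))) (a (l 535106319) (b (l 534380559) (l 16778744)))))))) (b (a (a (l 3) (b (l 3) (a (l 3) (b (l 3) (l 536558863))))) (b (a (a (l 3) (l 14)) (l 14)) (a (a (b (a (l 536786959) (l 536804879)) (a (l 536747535) (l 536828175))) (a (b (l 536811535) (l 536762639)) (b (l 14) (l 16776936)))) (b (a (a (l 14) (l 14)) (l 16784056)) (a (l 16778424) (l 16779824)))))) (a (b (a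 (b (a (l 3) (l 535992079)) (a (l 535646223) (l 535914511))) (a (b (l 536197135) (l 536089359)) (b (l 536493071) (l 16765368)))) (a (b (a (l 535515151) (b (l 535827727) (l 16756568))) (a (b (l 16756136) (l 16745744)) (l 16739688))) (b (a (l 16754344) (l 16749320)) (l 16735680)))) (b (a (b (a (b (l 16774936) (l 16772888)) (l 16772912)) (a (l 16764976) (l 16761752))) (b (a (l 16770144) (l 16761104)) (l 16742808))) (a (b (l 16745344) (l 16721328)) (b (l 6) (l 6))))))), by decide +kernel⟩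

def k1_B05pm_213_s1 : ∃ t, chk3 f_B05pm_213_s1 t 1 3 1 = true :=
  ⟨(b (a (b (a (a (l 3) (b (l 3) (b (b (l 3) (l 534914575)) (l 534888975)))) (a (b (a (l 535078159) (l 535111695)) (b (a (l 535123727) (l 16755536)) (a (l 535089935) (l 16743176)))) (b (a (l 535160591) (l 16741312)) (a (l 16729472) (l 16715896))))) (a (a (b (l 535582991) (l 534989583)) (b (a (l 534791695) (l 534971407)) (a (l 534972175) (l 16768640)))) (a (b (b (l 16738064) (l 16805608)) (b (l 16713736) (l 16704216))) (b (a (l 16710704) (l 16693456)) (l 16675576))))) (a (b (a (b (a (l 16726000) (l 16723008)) (a (l 16708016) (l 16698040))) (l 16702440)) (a (b (l 16677840) (l 6)) (l 6))) (b (l 6) (l 6)))) (a (b (a (b (a (a (l 535033359) (b (l 16746616) (l 16729792))) (b (l 16674608) (l 16703800))) (a (b (a (l 16730848) (l 16708608)) (l 16799888)) (l 16662136))) (a (b (l 16674168) (l 16617128)) (l 6))) (a (l 1) (l 6))) (l 6))), by decide +kernel⟩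

theorem t2_B05pm_213_s1 : ∃ t, chk3 f_B05pm_213_s1 t 1 1 1 = true := ex3_b k0_B05pm_213_s1 k1_B05pm_213_s1

theorem c_B05pm_213_s1 : CertF 0 536870912 0 1230186008 780900216 37827925 false true false .pnn 2 1 3
    ndB0q2 ndB5q3 pcB1 cut_B05pm_213_s1 xt_B05pm_213_s1 :=
  certF0 (fam := false) (s1 := true) (s2 := false) (a := 2) (b := 1) (c := 3) (cn := .pnn) (n1 := ndB0q2) (n2 := ndB5q3) (pc := pcB1) (cut := cut_B05pm_213_s1) (xt := xt_B05pm_213_s1) (P1 := 0) (W1 := 536870912) (P2 := 0) (W2 := 1230186008) (P3 := 780900216) (W3 := 37827925)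
    rfl t2_B05pm_213_s1

theorem s_B05pm_213_s1 {κ x : ℝ} (hκ : κ * h0 = ken x) (hx : ((780900216 : ℕ) : ℝ) / S ≤ x)
    (hx' : x ≤ (((780900216 : ℕ) : ℝ) + (37827925 : ℕ)) / S)
    (H : CutB (VFD κ) PP tK tL pcB (Cut.of [[⟨0, 1, 0, 67108864⟩, ⟨1, 1, 0, 67108864⟩, ⟨2, 2, 0, 16777216⟩]]) 2 1 3 0 5 (sgb true) (sgb false) x) :
    AltB (VFD κ) PP tK tL pcB [⟨3, 0, 0, 1449551462⟩] 2 1 3 0 5 (sgb true) (sgb false) x :=
  strip_altBD (m := 1449551462) true rfl hκ (SH.κ0 hκ (SH.hx1 hx).le (SH.hx2 hx').le) (SH.hx1 hx).le (SH.hx2 hx') (covB02).cov (covB53).cov hx hx' c_B05pm_213_s1 H ((okx hx hx').extB (T := tt) (sideB hx hx') hκ rfl rfl (.O 2 true) (.N 3 false) (Or.inr rfl))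

noncomputable def cut_B05mm_001_s1 : Cut := Cut.of [[⟨4, 0, 0, 1449551462⟩]]

noncomputable def f_B05mm_001_s1 : ℕ → ℕ → ℕ → ℕ → Bool := onCell 0 536870912 0 536870912 780900216 37827925
    (rowF 1 false false false .up 0 0 1 (qsf 0 536870912 536870912 536870912 0) ndB0q0 ndB5q1 pcB0 cut_B05mm_001_s1 Ext.none)

def k0_B05mm_001_s1 : ∃ t, chk3 f_B05mm_001_s1 t 1 1 1 = true :=
  ⟨(l 3), by decide +kernel⟩

theorem c_B05mm_001_s1 : CertF 0 536870912 536870912 536870912 780900216 37827925 false false false .up 0 0 1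
    ndB0q0 ndB5q1 pcB0 cut_B05mm_001_s1 Ext.none :=
  certF1 (fam := false) (s1 := false) (s2 := false) (a := 0) (b := 0) (c := 1) (cn := .up) (n1 := ndB0q0) (n2 := ndB5q1) (pc := pcB0) (cut := cut_B05mm_001_s1) (xt := Ext.none) (P1 := 0) (W1 := 536870912) (P2 := 536870912) (W2 := 536870912) (P3 := 780900216) (W3 := 37827925)
    rfl (fun _ => rfl) k0_B05mm_001_s1

theorem s_B05mm_001_s1 {κ x : ℝ} (hκ : κ * h0 = ken x) (hx : ((780900216 : ℕ) : ℝ) / S ≤ x)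
    (hx' : x ≤ (((780900216 : ℕ) : ℝ) + (37827925 : ℕ)) / S) :
    AltB (VFD κ) PP tK tL pcB [⟨3, 0, 0, 1449551462⟩] 0 0 1 0 5 (sgb false) (sgb false) x :=
  strip_altBD (m := 1449551462) true rfl hκ (SH.κ0 hκ (SH.hx1 hx).le (SH.hx2 hx').le) (SH.hx1 hx).le (SH.hx2 hx') (covB00).cov (covB51).cov hx hx' c_B05mm_001_s1 cutB_nil (noExt_B)

noncomputable def cut_B05mm_011_s1 : Cut := Cut.of [[⟨4, 0, 0, 1449551462⟩]]

noncomputable def f_B05mm_011_s1 : ℕ → ℕ → ℕ → ℕ → Bool := onCell 0 536870912 536870912 536870912 780900216 37827925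
    (rowF 1 false false false .pnn 0 1 1 (qsf 0 536870912 536870912 536870912 1) ndB0q0 ndB5q1 pcB1 cut_B05mm_011_s1 Ext.none)

def k0_B05mm_011_s1 : ∃ t, chk3 f_B05mm_011_s1 t 1 1 1 = true :=
  ⟨(l 5), by decide +kernel⟩

theorem c_B05mm_011_s1 : CertF 0 536870912 536870912 536870912 780900216 37827925 false false false .pnn 0 1 1
    ndB0q0 ndB5q1 pcB1 cut_B05mm_011_s1 Ext.none :=
  certF1 (fam := false) (s1 := false) (s2 := false) (a := 0) (b := 1) (c := 1) (cn := .pnn) (n1 := ndB0q0) (n2 := ndB5q1) (pc := pcB1) (cut := cut_B05mm_011_s1) (xt := Ext.none) (P1 := 0) (W1 := 536870912) (P2 := 536870912) (W2 := 536870912) (P3 := 780900216) (W3 := 37827925)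
    rfl (fun _ => rfl) k0_B05mm_011_s1

theorem s_B05mm_011_s1 {κ x : ℝ} (hκ : κ * h0 = ken x) (hx : ((780900216 : ℕ) : ℝ) / S ≤ x)
    (hx' : x ≤ (((780900216 : ℕ) : ℝ) + (37827925 : ℕ)) / S) :
    AltB (VFD κ) PP tK tL pcB [⟨3, 0, 0, 1449551462⟩] 0 1 1 0 5 (sgb false) (sgb false) x :=
  strip_altBD (m := 1449551462) true rfl hκ (SH.κ0 hκ (SH.hx1 hx).le (SH.hx2 hx').le) (SH.hx1 hx).le (SH.hx2 hx') (covB00).cov (covB51).cov hx hx' c_B05mm_011_s1 cutB_nil (noExt_B)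

noncomputable def cut_B05mm_012_s1 : Cut := Cut.of [[⟨4, 0, 0, 1449551462⟩]]

noncomputable def f_B05mm_012_s1 : ℕ → ℕ → ℕ → ℕ → Bool := onCell 0 536870912 1073741824 536870912 780900216 37827925
    (rowF 0 false false false .pnp 0 1 2 (qsf 0 536870912 1073741824 536870912 1) ndB0q0 ndB5q2 pcB1 cut_B05mm_012_s1 Ext.none)

def k0_B05mm_012_s1 : ∃ t, chk3 f_B05mm_012_s1 t 1 1 1 = true :=
  ⟨(l 5), by decide +kernel⟩

theorem c_B05mm_012_s1 : CertF 0 536870912 1073741824 536870912 780900216 37827925 false false false .pnp 0 1 2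
    ndB0q0 ndB5q2 pcB1 cut_B05mm_012_s1 Ext.none :=
  certF0 (fam := false) (s1 := false) (s2 := false) (a := 0) (b := 1) (c := 2) (cn := .pnp) (n1 := ndB0q0) (n2 := ndB5q2) (pc := pcB1) (cut := cut_B05mm_012_s1) (xt := Ext.none) (P1 := 0) (W1 := 536870912) (P2 := 1073741824) (W2 := 536870912) (P3 := 780900216) (W3 := 37827925)
    rfl k0_B05mm_012_s1

theorem s_B05mm_012_s1 {κ x : ℝ} (hκ : κ * h0 = ken x) (hx : ((780900216 : ℕ) : ℝ) / S ≤ x)
    (hx' : x ≤ (((780900216 : ℕ) : ℝ) + (37827925 : ℕ)) / S) :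
    AltB (VFD κ) PP tK tL pcB [⟨3, 0, 0, 1449551462⟩] 0 1 2 0 5 (sgb false) (sgb false) x :=
  strip_altBD (m := 1449551462) true rfl hκ (SH.κ0 hκ (SH.hx1 hx).le (SH.hx2 hx').le) (SH.hx1 hx).le (SH.hx2 hx') (covB00).cov (covB52).cov hx hx' c_B05mm_012_s1 cutB_nil (noExt_B)

noncomputable def cut_B05mm_022_s1 : Cut := Cut.of [[⟨4, 0, 0, 1449551462⟩]]

noncomputable def f_B05mm_022_s1 : ℕ → ℕ → ℕ → ℕ → Bool := onCell 0 536870912 1073741824 536870912 780900216 37827925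
    (rowF 0 false false false .pp 0 2 2 (qsf 0 536870912 1073741824 536870912 2) ndB0q0 ndB5q2 pcB2 cut_B05mm_022_s1 Ext.none)

def k0_B05mm_022_s1 : ∃ t, chk3 f_B05mm_022_s1 t 1 1 1 = true :=
  ⟨(l 5), by decide +kernel⟩

theorem c_B05mm_022_s1 : CertF 0 536870912 1073741824 536870912 780900216 37827925 false false false .pp 0 2 2
    ndB0q0 ndB5q2 pcB2 cut_B05mm_022_s1 Ext.none :=
  certF0 (fam := false) (s1 := false) (s2 := false) (a := 0) (b := 2) (c := 2) (cn := .pp) (n1 := ndB0q0) (n2 := ndB5q2) (pc := pcB2) (cut := cut_B05mm_022_s1) (xt := Ext.none) (P1 := 0) (W1 := 536870912) (P2 := 1073741824) (W2 := 536870912) (P3 := 780900216) (W3 := 37827925)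
    rfl k0_B05mm_022_s1

theorem s_B05mm_022_s1 {κ x : ℝ} (hκ : κ * h0 = ken x) (hx : ((780900216 : ℕ) : ℝ) / S ≤ x)
    (hx' : x ≤ (((780900216 : ℕ) : ℝ) + (37827925 : ℕ)) / S) :
    AltB (VFD κ) PP tK tL pcB [⟨3, 0, 0, 1449551462⟩] 0 2 2 0 5 (sgb false) (sgb false) x :=
  strip_altBD (m := 1449551462) true rfl hκ (SH.κ0 hκ (SH.hx1 hx).le (SH.hx2 hx').le) (SH.hx1 hx).le (SH.hx2 hx') (covB00).cov (covB52).cov hx hx' c_B05mm_022_s1 cutB_nil (noExt_B)

noncomputable def cut_B05mm_023_s1 : Cut := Cut.of [[⟨4, 0, 0, 1449551462⟩]]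

noncomputable def f_B05mm_023_s1 : ℕ → ℕ → ℕ → ℕ → Bool := onCell 0 536870912 0 1230186008 780900216 37827925
    (rowF 0 false false false .up 0 2 3 (qsf 0 536870912 0 1230186008 2) ndB0q0 ndB5q3 pcB2 cut_B05mm_023_s1 Ext.none)

def k0_B05mm_023_s1 : ∃ t, chk3 f_B05mm_023_s1 t 1 1 1 = true :=
  ⟨(l 5), by decide +kernel⟩

theorem c_B05mm_023_s1 : CertF 0 536870912 0 1230186008 780900216 37827925 false false false .up 0 2 3
    ndB0q0 ndB5q3 pcB2 cut_B05mm_023_s1 Ext.none :=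
  certF0 (fam := false) (s1 := false) (s2 := false) (a := 0) (b := 2) (c := 3) (cn := .up) (n1 := ndB0q0) (n2 := ndB5q3) (pc := pcB2) (cut := cut_B05mm_023_s1) (xt := Ext.none) (P1 := 0) (W1 := 536870912) (P2 := 0) (W2 := 1230186008) (P3 := 780900216) (W3 := 37827925)
    rfl k0_B05mm_023_s1

theorem s_B05mm_023_s1 {κ x : ℝ} (hκ : κ * h0 = ken x) (hx : ((780900216 : ℕ) : ℝ) / S ≤ x)
    (hx' : x ≤ (((780900216 : ℕ) : ℝ) + (37827925 : ℕ)) / S) :
    AltB (VFD κ) PP tK tL pcB [⟨3, 0, 0, 1449551462⟩] 0 2 3 0 5 (sgb false) (sgb false) x :=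
  strip_altBD (m := 1449551462) true rfl hκ (SH.κ0 hκ (SH.hx1 hx).le (SH.hx2 hx').le) (SH.hx1 hx).le (SH.hx2 hx') (covB00).cov (covB53).cov hx hx' c_B05mm_023_s1 cutB_nil (noExt_B)

noncomputable def cut_B05mm_033_s1 : Cut := Cut.of [[⟨4, 0, 0, 1449551462⟩]]

noncomputable def f_B05mm_033_s1 : ℕ → ℕ → ℕ → ℕ → Bool := onCell 0 536870912 0 1230186008 780900216 37827925
    (rowF 0 false false false .pnn 0 3 3 (qsf 0 536870912 0 1230186008 3) ndB0q0 ndB5q3 pcB3 cut_B05mm_033_s1 Ext.none)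

def k0_B05mm_033_s1 : ∃ t, chk3 f_B05mm_033_s1 t 1 1 1 = true :=
  ⟨(l 5), by decide +kernel⟩

theorem c_B05mm_033_s1 : CertF 0 536870912 0 1230186008 780900216 37827925 false false false .pnn 0 3 3
    ndB0q0 ndB5q3 pcB3 cut_B05mm_033_s1 Ext.none :=
  certF0 (fam := false) (s1 := false) (s2 := false) (a := 0) (b := 3) (c := 3) (cn := .pnn) (n1 := ndB0q0) (n2 := ndB5q3) (pc := pcB3) (cut := cut_B05mm_033_s1) (xt := Ext.none) (P1 := 0) (W1 := 536870912) (P2 := 0) (W2 := 1230186008) (P3 := 780900216) (W3 := 37827925)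
    rfl k0_B05mm_033_s1

theorem s_B05mm_033_s1 {κ x : ℝ} (hκ : κ * h0 = ken x) (hx : ((780900216 : ℕ) : ℝ) / S ≤ x)
    (hx' : x ≤ (((780900216 : ℕ) : ℝ) + (37827925 : ℕ)) / S) :
    AltB (VFD κ) PP tK tL pcB [⟨3, 0, 0, 1449551462⟩] 0 3 3 0 5 (sgb false) (sgb false) x :=
  strip_altBD (m := 1449551462) true rfl hκ (SH.κ0 hκ (SH.hx1 hx).le (SH.hx2 hx').le) (SH.hx1 hx).le (SH.hx2 hx') (covB00).cov (covB53).cov hx hx' c_B05mm_033_s1 cutB_nil (noExt_B)

noncomputable def cut_B05mm_101_s1 : Cut := Cut.of [[⟨4, 0, 0, 1449551462⟩], [⟨0, 1, 0, 67108864⟩, ⟨1, 0, 0, 67108864⟩, ⟨2, 1, 0, 67108864⟩]]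

noncomputable def f_B05mm_101_s1 : ℕ → ℕ → ℕ → ℕ → Bool := onCell 536870912 536870912 0 536870912 780900216 37827925
    (rowF 1 false false false .npn 1 0 1 (qsf 536870912 536870912 536870912 536870912 0) ndB0q1 ndB5q1 pcB0 cut_B05mm_101_s1 Ext.none)

def k0_B05mm_101_s1 : ∃ t, chk3 f_B05mm_101_s1 t 1 1 1 = true :=
  ⟨(a (l 3) (b (a (l 3) (b (a (l 3) (b (a (l 3) (b (l 14) (l 3))) (l 3))) (l 3))) (l 3))), by decide +kernel⟩

theorem c_B05mm_101_s1 : CertF 536870912 536870912 536870912 536870912 780900216 37827925 false false false .npn 1 0 1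
    ndB0q1 ndB5q1 pcB0 cut_B05mm_101_s1 Ext.none :=
  certF1 (fam := false) (s1 := false) (s2 := false) (a := 1) (b := 0) (c := 1) (cn := .npn) (n1 := ndB0q1) (n2 := ndB5q1) (pc := pcB0) (cut := cut_B05mm_101_s1) (xt := Ext.none) (P1 := 536870912) (W1 := 536870912) (P2 := 536870912) (W2 := 536870912) (P3 := 780900216) (W3 := 37827925)
    rfl (fun _ => rfl) k0_B05mm_101_s1

theorem s_B05mm_101_s1 {κ x : ℝ} (hκ : κ * h0 = ken x) (hx : ((780900216 : ℕ) : ℝ) / S ≤ x)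
    (hx' : x ≤ (((780900216 : ℕ) : ℝ) + (37827925 : ℕ)) / S)
    (H : CutB (VFD κ) PP tK tL pcB (Cut.of [[⟨0, 1, 0, 67108864⟩, ⟨1, 0, 0, 67108864⟩, ⟨2, 1, 0, 67108864⟩]]) 1 0 1 0 5 (sgb false) (sgb false) x) :
    AltB (VFD κ) PP tK tL pcB [⟨3, 0, 0, 1449551462⟩] 1 0 1 0 5 (sgb false) (sgb false) x :=
  strip_altBD (m := 1449551462) true rfl hκ (SH.κ0 hκ (SH.hx1 hx).le (SH.hx2 hx').le) (SH.hx1 hx).le (SH.hx2 hx') (covB01).cov (covB51).cov hx hx' c_B05mm_101_s1 H (noExt_B)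

noncomputable def cut_B05mm_102_s1 : Cut := Cut.of [[⟨4, 0, 0, 1449551462⟩], [⟨0, 1, 0, 67108864⟩, ⟨1, 0, 0, 67108864⟩, ⟨2, 1, 0, 67108864⟩]]

noncomputable def f_B05mm_102_s1 : ℕ → ℕ → ℕ → ℕ → Bool := onCell 536870912 536870912 0 536870912 780900216 37827925
    (rowF 1 false false false .npp 1 0 2 (qsf 536870912 536870912 1073741824 536870912 0) ndB0q1 ndB5q2 pcB0 cut_B05mm_102_s1 Ext.none)

def k0_B05mm_102_s1 : ∃ t, chk3 f_B05mm_102_s1 t 1 1 1 = true :=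
  ⟨(a (l 3) (b (a (l 3) (b (a (l 3) (a (l 3) (b (b (l 14) (l 3)) (l 3)))) (l 3))) (l 3))), by decide +kernel⟩

theorem c_B05mm_102_s1 : CertF 536870912 536870912 1073741824 536870912 780900216 37827925 false false false .npp 1 0 2
    ndB0q1 ndB5q2 pcB0 cut_B05mm_102_s1 Ext.none :=
  certF1 (fam := false) (s1 := false) (s2 := false) (a := 1) (b := 0) (c := 2) (cn := .npp) (n1 := ndB0q1) (n2 := ndB5q2) (pc := pcB0) (cut := cut_B05mm_102_s1) (xt := Ext.none) (P1 := 536870912) (W1 := 536870912) (P2 := 1073741824) (W2 := 536870912) (P3 := 780900216) (W3 := 37827925)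
    rfl (fun _ => rfl) k0_B05mm_102_s1

theorem s_B05mm_102_s1 {κ x : ℝ} (hκ : κ * h0 = ken x) (hx : ((780900216 : ℕ) : ℝ) / S ≤ x)
    (hx' : x ≤ (((780900216 : ℕ) : ℝ) + (37827925 : ℕ)) / S)
    (H : CutB (VFD κ) PP tK tL pcB (Cut.of [[⟨0, 1, 0, 67108864⟩, ⟨1, 0, 0, 67108864⟩, ⟨2, 1, 0, 67108864⟩]]) 1 0 2 0 5 (sgb false) (sgb false) x) :
    AltB (VFD κ) PP tK tL pcB [⟨3, 0, 0, 1449551462⟩] 1 0 2 0 5 (sgb false) (sgb false) x :=
  strip_altBD (m := 1449551462) true rfl hκ (SH.κ0 hκ (SH.hx1 hx).le (SH.hx2 hx').le) (SH.hx1 hx).le (SH.hx2 hx') (covB01).cov (covB52).cov hx hx' c_B05mm_102_s1 H (noExt_B)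

noncomputable def cut_B05mm_112_s1 : Cut := Cut.of [[⟨4, 0, 0, 1449551462⟩]]

noncomputable def f_B05mm_112_s1 : ℕ → ℕ → ℕ → ℕ → Bool := onCell 536870912 536870912 1073741824 536870912 780900216 37827925
    (rowF 2 false false false .dn 1 1 2 (qsf 536870912 536870912 1073741824 536870912 1) ndB0q1 ndB5q2 pcB1 cut_B05mm_112_s1 Ext.none)

def k0_B05mm_112_s1 : ∃ t, chk3 f_B05mm_112_s1 t 1 1 1 = true :=
  ⟨(a (l 3) (l 5)), by decide +kernel⟩

theorem c_B05mm_112_s1 : CertF 536870912 536870912 1073741824 536870912 780900216 37827925 false false false .dn 1 1 2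
    ndB0q1 ndB5q2 pcB1 cut_B05mm_112_s1 Ext.none :=
  certF2 (fam := false) (s1 := false) (s2 := false) (a := 1) (b := 1) (c := 2) (cn := .dn) (n1 := ndB0q1) (n2 := ndB5q2) (pc := pcB1) (cut := cut_B05mm_112_s1) (xt := Ext.none) (P1 := 536870912) (W1 := 536870912) (P2 := 1073741824) (W2 := 536870912) (P3 := 780900216) (W3 := 37827925)
    rfl (fun _ => rfl) k0_B05mm_112_s1

theorem s_B05mm_112_s1 {κ x : ℝ} (hκ : κ * h0 = ken x) (hx : ((780900216 : ℕ) : ℝ) / S ≤ x)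
    (hx' : x ≤ (((780900216 : ℕ) : ℝ) + (37827925 : ℕ)) / S) :
    AltB (VFD κ) PP tK tL pcB [⟨3, 0, 0, 1449551462⟩] 1 1 2 0 5 (sgb false) (sgb false) x :=
  strip_altBD (m := 1449551462) true rfl hκ (SH.κ0 hκ (SH.hx1 hx).le (SH.hx2 hx').le) (SH.hx1 hx).le (SH.hx2 hx') (covB01).cov (covB52).cov hx hx' c_B05mm_112_s1 cutB_nil (noExt_B)

noncomputable def cut_B05mm_113_s1 : Cut := Cut.of [[⟨4, 0, 0, 1449551462⟩]]

noncomputable def f_B05mm_113_s1 : ℕ → ℕ → ℕ → ℕ → Bool := onCell 536870912 536870912 0 1230186008 780900216 37827925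
    (rowF 0 false false false .nn 1 1 3 (qsf 536870912 536870912 0 1230186008 1) ndB0q1 ndB5q3 pcB1 cut_B05mm_113_s1 Ext.none)

def k0_B05mm_113_s1 : ∃ t, chk3 f_B05mm_113_s1 t 1 1 1 = true :=
  ⟨(a (l 5) (b (l 5) (a (b (l 5) (l 3)) (l 3)))), by decide +kernel⟩

theorem c_B05mm_113_s1 : CertF 536870912 536870912 0 1230186008 780900216 37827925 false false false .nn 1 1 3
    ndB0q1 ndB5q3 pcB1 cut_B05mm_113_s1 Ext.none :=
  certF0 (fam := false) (s1 := false) (s2 := false) (a := 1) (b := 1) (c := 3) (cn := .nn) (n1 := ndB0q1) (n2 := ndB5q3) (pc := pcB1) (cut := cut_B05mm_113_s1) (xt := Ext.none) (P1 := 536870912) (W1 := 536870912) (P2 := 0) (W2 := 1230186008) (P3 := 780900216) (W3 := 37827925)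
    rfl k0_B05mm_113_s1

theorem s_B05mm_113_s1 {κ x : ℝ} (hκ : κ * h0 = ken x) (hx : ((780900216 : ℕ) : ℝ) / S ≤ x)
    (hx' : x ≤ (((780900216 : ℕ) : ℝ) + (37827925 : ℕ)) / S) :
    AltB (VFD κ) PP tK tL pcB [⟨3, 0, 0, 1449551462⟩] 1 1 3 0 5 (sgb false) (sgb false) x :=
  strip_altBD (m := 1449551462) true rfl hκ (SH.κ0 hκ (SH.hx1 hx).le (SH.hx2 hx').le) (SH.hx1 hx).le (SH.hx2 hx') (covB01).cov (covB53).cov hx hx' c_B05mm_113_s1 cutB_nil (noExt_B)

noncomputable def cut_B05mm_123_s1 : Cut := Cut.of [[⟨4, 0, 0, 1449551462⟩]]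

noncomputable def f_B05mm_123_s1 : ℕ → ℕ → ℕ → ℕ → Bool := onCell 1073741824 536870912 0 1230186008 780900216 37827925
    (rowF 2 false false false .npn 1 2 3 (qsf 536870912 536870912 0 1230186008 2) ndB0q1 ndB5q3 pcB2 cut_B05mm_123_s1 Ext.none)

def k0_B05mm_123_s1 : ∃ t, chk3 f_B05mm_123_s1 t 1 1 1 = true :=
  ⟨(b (l 5) (l 5)), by decide +kernel⟩

theorem c_B05mm_123_s1 : CertF 536870912 536870912 0 1230186008 780900216 37827925 false false false .npn 1 2 3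
    ndB0q1 ndB5q3 pcB2 cut_B05mm_123_s1 Ext.none :=
  certF2 (fam := false) (s1 := false) (s2 := false) (a := 1) (b := 2) (c := 3) (cn := .npn) (n1 := ndB0q1) (n2 := ndB5q3) (pc := pcB2) (cut := cut_B05mm_123_s1) (xt := Ext.none) (P1 := 536870912) (W1 := 536870912) (P2 := 0) (W2 := 1230186008) (P3 := 780900216) (W3 := 37827925)
    rfl (fun _ => rfl) k0_B05mm_123_s1

theorem s_B05mm_123_s1 {κ x : ℝ} (hκ : κ * h0 = ken x) (hx : ((780900216 : ℕ) : ℝ) / S ≤ x)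
    (hx' : x ≤ (((780900216 : ℕ) : ℝ) + (37827925 : ℕ)) / S) :
    AltB (VFD κ) PP tK tL pcB [⟨3, 0, 0, 1449551462⟩] 1 2 3 0 5 (sgb false) (sgb false) x :=
  strip_altBD (m := 1449551462) true rfl hκ (SH.κ0 hκ (SH.hx1 hx).le (SH.hx2 hx').le) (SH.hx1 hx).le (SH.hx2 hx') (covB01).cov (covB53).cov hx hx' c_B05mm_123_s1 cutB_nil (noExt_B)

noncomputable def cut_B05mm_133_s1 : Cut := Cut.of [[⟨4, 0, 0, 1449551462⟩]]

noncomputable def f_B05mm_133_s1 : ℕ → ℕ → ℕ → ℕ → Bool := onCell 1610612736 536870912 0 1230186008 780900216 37827925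
    (rowF 2 false false false .dn 1 3 3 (qsf 536870912 536870912 0 1230186008 3) ndB0q1 ndB5q3 pcB3 cut_B05mm_133_s1 Ext.none)

def k0_B05mm_133_s1 : ∃ t, chk3 f_B05mm_133_s1 t 1 1 1 = true :=
  ⟨(l 5), by decide +kernel⟩

theorem c_B05mm_133_s1 : CertF 536870912 536870912 0 1230186008 780900216 37827925 false false false .dn 1 3 3
    ndB0q1 ndB5q3 pcB3 cut_B05mm_133_s1 Ext.none :=
  certF2 (fam := false) (s1 := false) (s2 := false) (a := 1) (b := 3) (c := 3) (cn := .dn) (n1 := ndB0q1) (n2 := ndB5q3) (pc := pcB3) (cut := cut_B05mm_133_s1) (xt := Ext.none) (P1 := 536870912) (W1 := 536870912) (P2 := 0) (W2 := 1230186008) (P3 := 780900216) (W3 := 37827925)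
    rfl (fun _ => rfl) k0_B05mm_133_s1

theorem s_B05mm_133_s1 {κ x : ℝ} (hκ : κ * h0 = ken x) (hx : ((780900216 : ℕ) : ℝ) / S ≤ x)
    (hx' : x ≤ (((780900216 : ℕ) : ℝ) + (37827925 : ℕ)) / S) :
    AltB (VFD κ) PP tK tL pcB [⟨3, 0, 0, 1449551462⟩] 1 3 3 0 5 (sgb false) (sgb false) x :=
  strip_altBD (m := 1449551462) true rfl hκ (SH.κ0 hκ (SH.hx1 hx).le (SH.hx2 hx').le) (SH.hx1 hx).le (SH.hx2 hx') (covB01).cov (covB53).cov hx hx' c_B05mm_133_s1 cutB_nil (noExt_B)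

noncomputable def cut_B05mm_202_s1 : Cut := Cut.of [[⟨4, 0, 0, 1449551462⟩], [⟨0, 1, 0, 67108864⟩, ⟨1, 0, 0, 67108864⟩, ⟨2, 1, 0, 67108864⟩]]

noncomputable def xt_B05mm_202_s1 : Ext := strExt dd false false false .u2 .s2m .u0m .pp 2 0 2 rfl rfl gf0 vv ndB0q2 ndB5q2

noncomputable def f_B05mm_202_s1 : ℕ → ℕ → ℕ → ℕ → Bool := onCell 0 536870912 0 536870912 780900216 37827925
    (rowF 1 false false false .pp 2 0 2 (qsf 0 536870912 1073741824 536870912 0) ndB0q2 ndB5q2 pcB0 cut_B05mm_202_s1 xt_B05mm_202_s1)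

def k0_B05mm_202_s1 : ∃ t, chk3 f_B05mm_202_s1 t 2 1 1 = true :=
  ⟨(b (a (a (l 6) (b (l 6) (b (l 6) (b (l 16530352) (l 16571400))))) (b (b (a (l 6) (b (l 6) (a (l 6) (l 16443424)))) (a (b (l 6) (l 16457800)) (b (l 16469672) (l 16512032)))) (b (a (b (l 16499936) (l 16540544)) (b (a (l 16541864) (l 16577248)) (a (b (l 16573064) (l 16592616)) (b (l 16603408) (l 16621192))))) (a (b (a (l 16565984) (l 16508984)) (a (l 16603032) (l 16628312))) (b (a (b (l 16610112) (l 16628424)) (l 16648392)) (a (l 16654984) (b (l 16675392) (l 16608560)))))))) (b (a (b (b (a (l 6) (a (l 16593512) (l 16614016))) (a (l 16599600) (l 16467376))) (a (b (l 16626416) (l 16654520)) (b (l 16664864) (a (l 16682144) (l 16618144))))) (b (a (b (l 16481792) (a (l 16669248) (b (l 16686904) (l 16701784)))) (b (a (b (l 16681136) (l 16697480)) (a (b (l 16701960) (l 16718752)) (l 16767640))) (a (b (l 16713272) (l 16728424)) (a (l 533183503)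 (l 532399375))))) (a (a (b (b (l 16691136) (l 16704728)) (l 16724488)) (b (l 16743760) (l 533544463))) (a (b (b (l 16784552) (l 533169167)) (l 533282063)) (b (a (l 532877071) (l 532623887)) (a (l 533108495) (l 3))))))) (a (l 2) (a (l 2) (a (l 2) (l 3)))))), by decide +kernel⟩

def k1_B05mm_202_s1 : ∃ t, chk3 f_B05mm_202_s1 t 6 2 1 = true :=
  ⟨(b (b (a (b (a (b (l 16431888) (l 16452832)) (l 16398312)) (l 16499160)) (b (b (l 16458712) (l 16475320)) (a (l 16561864) (b (l 16599816) (l 16617664))))) (a (b (l 16536688) (a (l 16561192) (b (l 16588408) (l 16635912)))) (a (b (b (l 16589304) (l 16656056)) (b (a (l 16620160) (l 16640384)) (l 16650896))) (b (b (a (l 16623952) (b (l 16643960) (l 16653952))) (a (l 16643808) (l 16583072))) (b (a (l 16663600) (b (l 16682488) (l 16692872))) (a (l 16684936) (b (l 16703160) (l 16712752)))))))) (b (a (b (a (b (l 16596048) (l 16616384)) (b (l 16632208) (l 16654400))) (a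 (l 16561880) (b (l 16591176) (a (l 16683448) (l 16702424))))) (b (a (b (a (l 16663024) (l 16684432)) (a (l 16685056) (b (l 16700184) (l 16710376)))) (b (a (a (l 16700368) (l 16794944)) (l 16771336)) (l 530228239))) (a (a (b (l 16662376) (l 16723080)) (l 531238415)) (a (l 531004175) (l 529970959))))) (a (a (b (b (l 16673432) (a (l 16682032) (l 16699416))) (b (a (l 16699144) (l 16717368)) (l 16725784))) (b (a (b (l 16700696) (l 16718784)) (l 531922703)) (a (l 531392783) (l 531200271)))) (a (b (b (l 530841359) (l 530863887)) (a (l 531003407) (l 3))) (b (b (l 530346255) (l 3)) (l 3)))))), by decide +kernel⟩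

def k2_B05mm_202_s1 : ∃ t, chk3 f_B05mm_202_s1 t 7 8 1 = true :=
  ⟨(a (b (a (b (l 16613920) (l 16632096)) (b (a (l 16649984) (l 16673368)) (a (l 16668992) (l 16692984)))) (a (b (l 16650384) (a (l 16660720) (b (l 16681144) (l 16686256)))) (a (b (b (l 16683360) (l 16696368)) (b (a (l 16696184) (l 16707936)) (l 16711288))) (b (b (a (l 16701720) (l 16758528)) (a (l 16711048) (l 16723200))) (a (b (l 16720448) (l 16730224)) (b (l 16691168) (a (l 16738856) (l 16723616)))))))) (b (a (b (l 14) (a (b (l 14) (b (l 16764320) (a (l 16719200) (l 16730776)))) (l 14))) (l 14)) (a (b (a (a (b (b (l 16723496) (l 16728360)) (b (l 16733008) (l 16737872))) (b (l 16717144) (b (l 16724592) (a (l 16746912) (l 16752984))))) (a (b (b (a (l 16745048) (l 14)) (a (l 16750016) (l 16745344))) (a (b (l 16754368) (l 16759368)) (l 529487887))) (a (b (b (l 14) (l 16751888)) (l 529418255)) (l 529350415)))) (a (a (b (b (l 16721592) (l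 16767720)) (l 529580559)) (l 529463055)) (a (a (l 529372687) (l 528495887)) (a (l 529228559) (l 3))))) (b (a (a (a (l 530887951) (a (l 529236495) (l 529200655))) (l 3)) (l 3)) (l 3))))), by decide +kernel⟩

def k3_B05mm_202_s1 : ∃ t, chk3 f_B05mm_202_s1 t 7 9 1 = true :=
  ⟨(a (b (a (a (b (b (l 16669920) (l 16678416)) (l 16692904)) (b (b (l 16695392) (l 16704440)) (b (a (l 16707408) (l 16720480)) (a (l 16717312) (l 16729464))))) (a (b (b (a (l 16714120) (l 16727080)) (a (l 16723752) (l 16714472))) (a (b (l 16732360) (l 16742696)) (l 529569551))) (b (a (b (a (l 16735712) (l 16741744)) (l 529617167)) (l 528491279)) (a (l 529494287) (l 529410319))))) (a (a (b (b (l 16792080) (a (l 16711448) (l 16724168))) (c (l 16754944) (l 16753440))) (b (b (a (l 16726744) (l 16739984)) (l 16764776)) (a (l 529655823) (l 529623055)))) (a (b (l 529543439) (l 529537551)) (b (l 530459663) (l 3))))) (b (a (a (a (a (l 529331215)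 (l 529260815)) (b (l 529279759) (l 3))) (l 3)) (l 3)) (l 3))), by decide +kernel⟩

def k4_B05mm_202_s1 : ∃ t, chk3 f_B05mm_202_s1 t 7 5 1 = true :=
  ⟨(b (a (a (b (a (a (l 529842703) (l 529813007)) (a (l 529796623) (l 529774351))) (a (a (l 530081039) (l 3)) (l 3))) (l 3)) (l 3)) (l 3)), by decide +kernel⟩

def k5_B05mm_202_s1 : ∃ t, chk3 f_B05mm_202_s1 t 3 3 1 = true :=
  ⟨(b (a (a (b (a (b (l 531806735) (l 533084431)) (b (a (l 531497487) (l 531299855)) (l 3))) (l 3)) (l 3)) (l 3)) (l 3)), by decide +kernel⟩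

theorem t6_B05mm_202_s1 : ∃ t, chk3 f_B05mm_202_s1 t 7 4 1 = true := ex3_b k2_B05mm_202_s1 k3_B05mm_202_s1

theorem t7_B05mm_202_s1 : ∃ t, chk3 f_B05mm_202_s1 t 7 2 1 = true := ex3_b t6_B05mm_202_s1 k4_B05mm_202_s1

theorem t8_B05mm_202_s1 : ∃ t, chk3 f_B05mm_202_s1 t 3 2 1 = true := ex3_a k1_B05mm_202_s1 t7_B05mm_202_s1

theorem t9_B05mm_202_s1 : ∃ t, chk3 f_B05mm_202_s1 t 3 1 1 = true := ex3_b t8_B05mm_202_s1 k5_B05mm_202_s1

theorem t10_B05mm_202_s1 : ∃ t, chk3 f_B05mm_202_s1 t 1 1 1 = true := ex3_a k0_B05mm_202_s1 t9_B05mm_202_s1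

theorem c_B05mm_202_s1 : CertF 0 536870912 1073741824 536870912 780900216 37827925 false false false .pp 2 0 2
    ndB0q2 ndB5q2 pcB0 cut_B05mm_202_s1 xt_B05mm_202_s1 :=
  certF1 (fam := false) (s1 := false) (s2 := false) (a := 2) (b := 0) (c := 2) (cn := .pp) (n1 := ndB0q2) (n2 := ndB5q2) (pc := pcB0) (cut := cut_B05mm_202_s1) (xt := xt_B05mm_202_s1) (P1 := 0) (W1 := 536870912) (P2 := 1073741824) (W2 := 536870912) (P3 := 780900216) (W3 := 37827925)
    rfl (fun _ => rfl) t10_B05mm_202_s1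

theorem s_B05mm_202_s1 {κ x : ℝ} (hκ : κ * h0 = ken x) (hx : ((780900216 : ℕ) : ℝ) / S ≤ x)
    (hx' : x ≤ (((780900216 : ℕ) : ℝ) + (37827925 : ℕ)) / S)
    (H : CutB (VFD κ) PP tK tL pcB (Cut.of [[⟨0, 1, 0, 67108864⟩, ⟨1, 0, 0, 67108864⟩, ⟨2, 1, 0, 67108864⟩]]) 2 0 2 0 5 (sgb false) (sgb false) x) :
    AltB (VFD κ) PP tK tL pcB [⟨3, 0, 0, 1449551462⟩] 2 0 2 0 5 (sgb false) (sgb false) x :=
  strip_altBD (m := 1449551462) true rfl hκ (SH.κ0 hκ (SH.hx1 hx).le (SH.hx2 hx').le) (SH.hx1 hx).le (SH.hx2 hx') (covB02).cov (covB52).cov hx hx' c_B05mm_202_s1 H ((okx hx hx').extB (T := tt) (sideB hx hx') hκ rfl rfl (.O 2 false) (.N 2 false) (Or.inl rfl))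

noncomputable def cut_B05mm_203_s1 : Cut := Cut.of [[⟨4, 0, 0, 1449551462⟩]]

noncomputable def xt_B05mm_203_s1 : Ext := strExt dd false false false .u2 .s2m .u0m .up 2 0 3 rfl rfl gf0 vv ndB0q2 ndB5q3

noncomputable def f_B05mm_203_s1 : ℕ → ℕ → ℕ → ℕ → Bool := onCell 0 536870912 0 1230186008 780900216 37827925
    (rowF 0 false false false .up 2 0 3 (qsf 0 536870912 0 1230186008 0) ndB0q2 ndB5q3 pcB0 cut_B05mm_203_s1 xt_B05mm_203_s1)

def k0_B05mm_203_s1 : ∃ t, chk3 f_B05mm_203_s1 t 1 1 1 = true :=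
  ⟨(b (l 2) (b (l 2) (a (a (b (b (l 2) (b (l 2) (a (l 535338767) (a (l 535132175) (l 3))))) (b (a (a (b (l 16729080) (l 16706800)) (b (l 16744568) (l 16723224))) (b (a (l 534891791) (l 534672399)) (a (l 16741048) (a (l 534481423) (l 534350863))))) (a (b (a (l 16679792) (l 16697976)) (l 16658608)) (a (b (b (l 16723152) (l 16710136)) (l 16688664)) (b (l 16759032) (b (l 16718120) (l 16703648))))))) (b (l 3) (b (a (b (l 3) (a (l 535023375) (l 3))) (l 3)) (a (b (a (l 534032399) (l 533850383)) (a (l 533846799) (l 533654543))) (a (b (l 3) (l 533435919)) (l 3)))))) (l 3)))), by decide +kernel⟩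

theorem c_B05mm_203_s1 : CertF 0 536870912 0 1230186008 780900216 37827925 false false false .up 2 0 3
    ndB0q2 ndB5q3 pcB0 cut_B05mm_203_s1 xt_B05mm_203_s1 :=
  certF0 (fam := false) (s1 := false) (s2 := false) (a := 2) (b := 0) (c := 3) (cn := .up) (n1 := ndB0q2) (n2 := ndB5q3) (pc := pcB0) (cut := cut_B05mm_203_s1) (xt := xt_B05mm_203_s1) (P1 := 0) (W1 := 536870912) (P2 := 0) (W2 := 1230186008) (P3 := 780900216) (W3 := 37827925)
    rfl k0_B05mm_203_s1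

theorem s_B05mm_203_s1 {κ x : ℝ} (hκ : κ * h0 = ken x) (hx : ((780900216 : ℕ) : ℝ) / S ≤ x)
    (hx' : x ≤ (((780900216 : ℕ) : ℝ) + (37827925 : ℕ)) / S) :
    AltB (VFD κ) PP tK tL pcB [⟨3, 0, 0, 1449551462⟩] 2 0 3 0 5 (sgb false) (sgb false) x :=
  strip_altBD (m := 1449551462) true rfl hκ (SH.κ0 hκ (SH.hx1 hx).le (SH.hx2 hx').le) (SH.hx1 hx).le (SH.hx2 hx') (covB02).cov (covB53).cov hx hx' c_B05mm_203_s1 cutB_nil ((okx hx hx').extB (T := tt) (sideB hx hx') hκ rfl rfl (.O 2 false) (.N 3 false) (Or.inl rfl))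

noncomputable def cut_B05mm_213_s1 : Cut := Cut.of [[⟨4, 0, 0, 1449551462⟩]]

noncomputable def xt_B05mm_213_s1 : Ext := strExt dd false false false .u2 .s2m .u0m .pnn 2 1 3 rfl rfl gf1 vv ndB0q2 ndB5q3

noncomputable def f_B05mm_213_s1 : ℕ → ℕ → ℕ → ℕ → Bool := onCell 0 536870912 0 1230186008 780900216 37827925
    (rowF 0 false false false .pnn 2 1 3 (qsf 0 536870912 0 1230186008 1) ndB0q2 ndB5q3 pcB1 cut_B05mm_213_s1 xt_B05mm_213_s1)

def k0_B05mm_213_s1 : ∃ t, chk3 f_B05mm_213_s1 t 1 1 1 = true :=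
  ⟨(b (a (l 3) (b (l 5) (l 3))) (b (a (a (b (l 3) (l 3)) (l 3)) (l 3)) (a (a (b (b (a (l 535101711) (l 3)) (a (a (l 534512399) (l 534704911)) (a (l 534759951) (b (l 3) (l 3))))) (l 1)) (b (l 3) (b (a (l 1) (l 3)) (l 1)))) (l 3)))), by decide +kernel⟩

theorem c_B05mm_213_s1 : CertF 0 536870912 0 1230186008 780900216 37827925 false false false .pnn 2 1 3
    ndB0q2 ndB5q3 pcB1 cut_B05mm_213_s1 xt_B05mm_213_s1 :=
  certF0 (fam := false) (s1 := false) (s2 := false) (a := 2) (b := 1) (c := 3) (cn := .pnn) (n1 := ndB0q2) (n2 := ndB5q3) (pc := pcB1) (cut := cut_B05mm_213_s1) (xt := xt_B05mm_213_s1) (P1 := 0) (W1 := 536870912) (P2 := 0) (W2 := 1230186008) (P3 := 780900216) (W3 := 37827925)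
    rfl k0_B05mm_213_s1

theorem s_B05mm_213_s1 {κ x : ℝ} (hκ : κ * h0 = ken x) (hx : ((780900216 : ℕ) : ℝ) / S ≤ x)
    (hx' : x ≤ (((780900216 : ℕ) : ℝ) + (37827925 : ℕ)) / S) :
    AltB (VFD κ) PP tK tL pcB [⟨3, 0, 0, 1449551462⟩] 2 1 3 0 5 (sgb false) (sgb false) x :=
  strip_altBD (m := 1449551462) true rfl hκ (SH.κ0 hκ (SH.hx1 hx).le (SH.hx2 hx').le) (SH.hx1 hx).le (SH.hx2 hx') (covB02).cov (covB53).cov hx hx' c_B05mm_213_s1 cutB_nil ((okx hx hx').extB (T := tt) (sideB hx hx') hκ rfl rfl (.O 2 false) (.N 3 false) (Or.inr rfl))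

noncomputable def cut_B50pp_001_s1 : Cut := Cut.of [[⟨4, 0, 0, 1449551462⟩]]

noncomputable def xt_B50pp_001_s1 : Ext := strExt dd false true true .s0 .u0 .u0m .up 0 0 1 rfl rfl gf0 vv ndB5q0 ndB0q1

noncomputable def f_B50pp_001_s1 : ℕ → ℕ → ℕ → ℕ → Bool := onCell 0 536870912 536870912 536870912 780900216 37827925
    (rowF 2 false true true .up 0 0 1 (qsf 0 536870912 536870912 536870912 0) ndB5q0 ndB0q1 pcB0 cut_B50pp_001_s1 xt_B50pp_001_s1)

def k0_B50pp_001_s1 : ∃ t, chk3 f_B50pp_001_s1 t 1 1 1 = true :=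
  ⟨(a (b (l 3) (b (b (l 3) (l 2)) (l 2))) (b (a (l 3) (b (l 3) (b (a (l 3) (a (b (l 3) (l 525290767)) (b (l 527010063) (l 526266639)))) (a (b (a (l 3) (l 525324303)) (l 525860367)) (a (b (b (l 525374991) (l 525660943)) (l 526125839)) (b (b (l 525935375) (l 526044431)) (l 526450959))))))) (b (a (b (a (b (l 3) (a (l 3) (b (l 3) (l 526233871)))) (b (a (l 3) (l 526289935)) (a (b (l 526533903) (l 526604559)) (b (l 526699279) (l 526803983))))) (a (b (a (l 2) (l 526401551)) (l 2)) (b (a (l 526747407) (a (l 526952463) (l 16732272))) (a (l 527088143) (l 16645288))))) (b (a (b (l 526416655) (a (l 526890255) (l 527100687))) (b (a (l 526706959) (l 16596552)) (a (l 16584728) (l 16541632)))) (a (a (b (l 527136271) (b (l 16564008) (l 16531064))) (b (l 527325711) (b (l 16519112) (l 16487616)))) (b (a (l 16607072) (l 16482800)) (a (l 16460984) (l 16420232)))))) (a (b (a (l 2) (a (l 2) (b (l 16525712) (l 2)))) (l 2)) (b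 (a (b (a (l 16313968) (l 16438960)) (l 16440280)) (a (b (l 16398048) (l 16335928)) (l 16326368))) (a (b (a (l 2) (l 16313368)) (l 2)) (b (a (l 16278512) (l 6)) (l 6)))))))), by decide +kernel⟩

theorem c_B50pp_001_s1 : CertF 0 536870912 536870912 536870912 780900216 37827925 false true true .up 0 0 1
    ndB5q0 ndB0q1 pcB0 cut_B50pp_001_s1 xt_B50pp_001_s1 :=
  certF2 (fam := false) (s1 := true) (s2 := true) (a := 0) (b := 0) (c := 1) (cn := .up) (n1 := ndB5q0) (n2 := ndB0q1) (pc := pcB0) (cut := cut_B50pp_001_s1) (xt := xt_B50pp_001_s1) (P1 := 0) (W1 := 536870912) (P2 := 536870912) (W2 := 536870912) (P3 := 780900216) (W3 := 37827925)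
    rfl (fun _ => rfl) k0_B50pp_001_s1

theorem s_B50pp_001_s1 {κ x : ℝ} (hκ : κ * h0 = ken x) (hx : ((780900216 : ℕ) : ℝ) / S ≤ x)
    (hx' : x ≤ (((780900216 : ℕ) : ℝ) + (37827925 : ℕ)) / S) :
    AltB (VFD κ) PP tK tL pcB [⟨3, 0, 0, 1449551462⟩] 0 0 1 5 0 (sgb true) (sgb true) x :=
  strip_altBD (m := 1449551462) true rfl hκ (SH.κ0 hκ (SH.hx1 hx).le (SH.hx2 hx').le) (SH.hx1 hx).le (SH.hx2 hx') (covB50).cov (covB01).cov hx hx' c_B50pp_001_s1 cutB_nil ((okx hx hx').extB (T := tt) (sideB hx hx') hκ rfl rfl (.N 0 true) (.O 1 true) (Or.inl rfl))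

noncomputable def cut_B50pp_011_s1 : Cut := Cut.of [[⟨4, 0, 0, 1449551462⟩]]

noncomputable def xt_B50pp_011_s1 : Ext := strExt dd false true true .s0 .u0 .u0m .pnn 0 1 1 rfl rfl gf1 vv ndB5q0 ndB0q1

noncomputable def f_B50pp_011_s1 : ℕ → ℕ → ℕ → ℕ → Bool := onCell 536870912 536870912 536870912 536870912 780900216 37827925
    (rowF 2 false true true .pnn 0 1 1 (qsf 0 536870912 536870912 536870912 1) ndB5q0 ndB0q1 pcB1 cut_B50pp_011_s1 xt_B50pp_011_s1)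

def k0_B50pp_011_s1 : ∃ t, chk3 f_B50pp_011_s1 t 1 1 1 = true :=
  ⟨(a (b (a (b (a (b (l 3) (a (a (l 3) (l 526889231)) (l 527234575))) (b (b (l 1) (l 527962895)) (l 527844111))) (b (a (a (b (l 526317583) (l 525970959)) (b (l 527310863) (l 526918671))) (b (a (l 527748111) (l 16727888)) (l 527933711))) (a (b (a (b (l 525411855) (l 16718992)) (l 16735296)) (a (l 16673288) (l 16542792))) (b (l 527771919) (a (l 16500432) (l 16464720)))))) (b (a (b (l 1) (a (l 528276751) (l 1))) (l 1)) (b (a (a (b (l 16602208) (l 16550664)) (l 125661244647)) (b (l 1) (l 138546196311))) (a (b (a (l 16493456) (l 16447240)) (l 16660160)) (b (l 16473680) (l 16318096)))))) (b (a (b (a (b (a (l 16529720) (l 16485056)) (a (l 16469480) (l 16429888))) (b (a (l 16438472) (l 16389584)) (l 16360656))) (a (b (l 16557784) (l 16323544)) (b (l 16302264) (l 16241336)))) (b (a (b (l 16334216) (l 16256192)) (l 16549120)) (a (l 16339200) (l 6))))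 (a (b (a (b (l 16260064) (l 16197216)) (b (l 6) (l 6))) (l 6)) (l 6)))) (b (a (b (l 1) (a (b (l 1) (l 154652254471)) (l 1))) (l 1)) (b (a (a (l 6) (l 6)) (l 6)) (l 6)))), by decide +kernel⟩

theorem c_B50pp_011_s1 : CertF 0 536870912 536870912 536870912 780900216 37827925 false true true .pnn 0 1 1
    ndB5q0 ndB0q1 pcB1 cut_B50pp_011_s1 xt_B50pp_011_s1 :=
  certF2 (fam := false) (s1 := true) (s2 := true) (a := 0) (b := 1) (c := 1) (cn := .pnn) (n1 := ndB5q0) (n2 := ndB0q1) (pc := pcB1) (cut := cut_B50pp_011_s1) (xt := xt_B50pp_011_s1) (P1 := 0) (W1 := 536870912) (P2 := 536870912) (W2 := 536870912) (P3 := 780900216) (W3 := 37827925)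
    rfl (fun _ => rfl) k0_B50pp_011_s1

theorem s_B50pp_011_s1 {κ x : ℝ} (hκ : κ * h0 = ken x) (hx : ((780900216 : ℕ) : ℝ) / S ≤ x)
    (hx' : x ≤ (((780900216 : ℕ) : ℝ) + (37827925 : ℕ)) / S) :
    AltB (VFD κ) PP tK tL pcB [⟨3, 0, 0, 1449551462⟩] 0 1 1 5 0 (sgb true) (sgb true) x :=
  strip_altBD (m := 1449551462) true rfl hκ (SH.κ0 hκ (SH.hx1 hx).le (SH.hx2 hx').le) (SH.hx1 hx).le (SH.hx2 hx') (covB50).cov (covB01).cov hx hx' c_B50pp_011_s1 cutB_nil ((okx hx hx').extB (T := tt) (sideB hx hx') hκ rfl rfl (.N 0 true) (.O 1 true) (Or.inr rfl))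

noncomputable def cut_B50pp_012_s1 : Cut := Cut.of [[⟨4, 0, 0, 1449551462⟩]]

noncomputable def f_B50pp_012_s1 : ℕ → ℕ → ℕ → ℕ → Bool := onCell 0 536870912 0 536870912 780900216 37827925
    (rowF 0 false true true .pnp 0 1 2 (qsf 0 536870912 0 536870912 1) ndB5q0 ndB0q2 pcB1 cut_B50pp_012_s1 Ext.none)

def k0_B50pp_012_s1 : ∃ t, chk3 f_B50pp_012_s1 t 1 1 1 = true :=
  ⟨(b (l 6) (l 6)), by decide +kernel⟩

theorem c_B50pp_012_s1 : CertF 0 536870912 0 536870912 780900216 37827925 false true true .pnp 0 1 2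
    ndB5q0 ndB0q2 pcB1 cut_B50pp_012_s1 Ext.none :=
  certF0 (fam := false) (s1 := true) (s2 := true) (a := 0) (b := 1) (c := 2) (cn := .pnp) (n1 := ndB5q0) (n2 := ndB0q2) (pc := pcB1) (cut := cut_B50pp_012_s1) (xt := Ext.none) (P1 := 0) (W1 := 536870912) (P2 := 0) (W2 := 536870912) (P3 := 780900216) (W3 := 37827925)
    rfl k0_B50pp_012_s1

theorem s_B50pp_012_s1 {κ x : ℝ} (hκ : κ * h0 = ken x) (hx : ((780900216 : ℕ) : ℝ) / S ≤ x)
    (hx' : x ≤ (((780900216 : ℕ) : ℝ) + (37827925 : ℕ)) / S) :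
    AltB (VFD κ) PP tK tL pcB [⟨3, 0, 0, 1449551462⟩] 0 1 2 5 0 (sgb true) (sgb true) x :=
  strip_altBD (m := 1449551462) true rfl hκ (SH.κ0 hκ (SH.hx1 hx).le (SH.hx2 hx').le) (SH.hx1 hx).le (SH.hx2 hx') (covB50).cov (covB02).cov hx hx' c_B50pp_012_s1 cutB_nil (noExt_B)

noncomputable def cut_B50pp_022_s1 : Cut := Cut.of [[⟨4, 0, 0, 1449551462⟩]]

noncomputable def f_B50pp_022_s1 : ℕ → ℕ → ℕ → ℕ → Bool := onCell 1073741824 536870912 0 536870912 780900216 37827925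
    (rowF 2 false true true .pp 0 2 2 (qsf 0 536870912 0 536870912 2) ndB5q0 ndB0q2 pcB2 cut_B50pp_022_s1 Ext.none)

def k0_B50pp_022_s1 : ∃ t, chk3 f_B50pp_022_s1 t 1 1 1 = true :=
  ⟨(l 6), by decide +kernel⟩

theorem c_B50pp_022_s1 : CertF 0 536870912 0 536870912 780900216 37827925 false true true .pp 0 2 2
    ndB5q0 ndB0q2 pcB2 cut_B50pp_022_s1 Ext.none :=
  certF2 (fam := false) (s1 := true) (s2 := true) (a := 0) (b := 2) (c := 2) (cn := .pp) (n1 := ndB5q0) (n2 := ndB0q2) (pc := pcB2) (cut := cut_B50pp_022_s1) (xt := Ext.none) (P1 := 0) (W1 := 536870912) (P2 := 0) (W2 := 536870912) (P3 := 780900216) (W3 := 37827925)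
    rfl (fun _ => rfl) k0_B50pp_022_s1

theorem s_B50pp_022_s1 {κ x : ℝ} (hκ : κ * h0 = ken x) (hx : ((780900216 : ℕ) : ℝ) / S ≤ x)
    (hx' : x ≤ (((780900216 : ℕ) : ℝ) + (37827925 : ℕ)) / S) :
    AltB (VFD κ) PP tK tL pcB [⟨3, 0, 0, 1449551462⟩] 0 2 2 5 0 (sgb true) (sgb true) x :=
  strip_altBD (m := 1449551462) true rfl hκ (SH.κ0 hκ (SH.hx1 hx).le (SH.hx2 hx').le) (SH.hx1 hx).le (SH.hx2 hx') (covB50).cov (covB02).cov hx hx' c_B50pp_022_s1 cutB_nil (noExt_B)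

noncomputable def cut_B50pp_101_s1 : Cut := Cut.of [[⟨4, 0, 0, 1449551462⟩], [⟨0, 1, 0, 67108864⟩, ⟨1, 0, 0, 67108864⟩, ⟨2, 1, 0, 67108864⟩]]

noncomputable def xt_B50pp_101_s1 : Ext := strExt dd false true true .s0 .u0 .u0m .npn 1 0 1 rfl rfl gf0 vv ndB5q1 ndB0q1

noncomputable def f_B50pp_101_s1 : ℕ → ℕ → ℕ → ℕ → Bool := onCell 0 536870912 536870912 536870912 780900216 37827925
    (rowF 2 false true true .npn 1 0 1 (qsf 536870912 536870912 536870912 536870912 0) ndB5q1 ndB0q1 pcB0 cut_B50pp_101_s1 xt_B50pp_101_s1)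

def k0_B50pp_101_s1 : ∃ t, chk3 f_B50pp_101_s1 t 2 2 1 = true :=
  ⟨(l 3), by decide +kernel⟩

def k1_B50pp_101_s1 : ∃ t, chk3 f_B50pp_101_s1 t 4 3 1 = true :=
  ⟨(b (l 3) (b (b (l 3) (a (l 3) (a (l 3) (a (l 3) (l 527216143))))) (a (b (b (l 3) (a (l 3) (a (l 3) (l 528370959)))) (b (a (b (l 3) (l 14)) (a (a (b (l 3) (l 528683535)) (b (l 528506639) (l 528638735))) (a (l 528460047) (l 528418575)))) (a (l 14) (b (a (a (l 14) (b (l 528770831) (l 14))) (a (b (a (l 16747656) (l 16741992)) (l 16735200)) (b (l 16733896) (l 16723912)))) (a (l 14) (b (l 16677368) (l 16709176))))))) (b (b (a (a (l 3) (l 527504143)) (l 527482895)) (a (a (l 528033295) (l 526342671)) (a (l 527844623) (b (l 527686415) (l 16744240))))) (b (a (a (b (l 528267535) (b (l 528386831) (a (l 16732624) (l 16721608)))) (b (l 16750784) (a (l 16673384) (l 16704264)))) (b (a (a (l 16711944) (l 16700392)) (l 16682768)) (a (l 16686760) (l 16662360))))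 (a (b (a (a (l 16676296) (l 16706552)) (l 16689448)) (a (l 16691928) (l 16669160))) (b (l 16570288) (l 16633928)))))))), by decide +kernel⟩

def k2_B50pp_101_s1 : ∃ t, chk3 f_B50pp_101_s1 t 5 3 1 = true :=
  ⟨(b (a (l 3) (b (l 3) (b (l 3) (a (b (l 3) (l 526565903)) (l 526479375))))) (b (a (b (a (l 3) (l 527648527)) (a (b (l 527038991) (a (l 527256079) (l 527314703))) (c (l 527966735) (l 527221775)))) (b (a (l 526903567) (l 527301135)) (a (l 527382799) (b (l 527389711) (a (l 16628248) (l 16605616)))))) (a (b (a (b (a (l 527462927) (l 527548175)) (a (b (l 16699304) (l 16678472)) (b (l 16675672) (l 16656368)))) (b (a (l 527600655) (b (l 16669736) (l 16649040))) (a (b (l 16653312) (l 16632632)) (l 16618560)))) (b (a (a (l 16648408) (l 16625416)) (l 16588920)) (a (l 16596696) (l 16547712)))) (a (b (b (a (l 16636008) (l 16613488)) (l 16583000)) (b (l 16541096) (l 16499056))) (b (b (l 16578688) (l 16538520))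 (l 16433824)))))), by decide +kernel⟩

def k3_B50pp_101_s1 : ∃ t, chk3 f_B50pp_101_s1 t 3 1 1 = true :=
  ⟨(b (a (l 3) (l 1)) (b (a (b (a (b (l 3) (a (l 3) (b (l 3) (l 526233871)))) (b (l 1) (a (b (l 1) (l 526604559)) (l 1)))) (a (b (a (l 526098959) (l 526401551)) (a (l 526600719) (l 526799375))) (b (a (l 526747407) (l 158947236439)) (a (l 527088143) (l 527297551))))) (b (l 1) (a (a (b (l 1) (l 404296639079)) (l 1)) (l 1)))) (a (b (a (b (a (l 527112719) (b (l 527180815) (l 16513320))) (b (a (a (l 16619064) (l 16595744)) (l 16562544)) (a (l 16571624) (l 16525680)))) (b (a (b (l 16587408) (l 16553232)) (b (l 16543104) (l 16508800))) (a (l 16499480) (l 16456864)))) (a (b (a (l 16598040) (l 16471032)) (a (l 16434904) (l 16394664))) (b (l 16576408) (a (l 16355960) (l 16318304))))) (b (a (b (a (l 16482400) (l 16439528)) (l 16478872)) (b (l 1) (l 16317728))) (a (b (l 16332384) (l 16350344)) (b (l 16261920) (l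 6))))))), by decide +kernel⟩

theorem t4_B50pp_101_s1 : ∃ t, chk3 f_B50pp_101_s1 t 2 3 1 = true := ex3_a k1_B50pp_101_s1 k2_B50pp_101_s1

theorem t5_B50pp_101_s1 : ∃ t, chk3 f_B50pp_101_s1 t 2 1 1 = true := ex3_b k0_B50pp_101_s1 t4_B50pp_101_s1

theorem t6_B50pp_101_s1 : ∃ t, chk3 f_B50pp_101_s1 t 1 1 1 = true := ex3_a t5_B50pp_101_s1 k3_B50pp_101_s1

theorem c_B50pp_101_s1 : CertF 536870912 536870912 536870912 536870912 780900216 37827925 false true true .npn 1 0 1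
    ndB5q1 ndB0q1 pcB0 cut_B50pp_101_s1 xt_B50pp_101_s1 :=
  certF2 (fam := false) (s1 := true) (s2 := true) (a := 1) (b := 0) (c := 1) (cn := .npn) (n1 := ndB5q1) (n2 := ndB0q1) (pc := pcB0) (cut := cut_B50pp_101_s1) (xt := xt_B50pp_101_s1) (P1 := 536870912) (W1 := 536870912) (P2 := 536870912) (W2 := 536870912) (P3 := 780900216) (W3 := 37827925)
    rfl (fun _ => rfl) t6_B50pp_101_s1

theorem s_B50pp_101_s1 {κ x : ℝ} (hκ : κ * h0 = ken x) (hx : ((780900216 : ℕ) : ℝ) / S ≤ x)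
    (hx' : x ≤ (((780900216 : ℕ) : ℝ) + (37827925 : ℕ)) / S)
    (H : CutB (VFD κ) PP tK tL pcB (Cut.of [[⟨0, 1, 0, 67108864⟩, ⟨1, 0, 0, 67108864⟩, ⟨2, 1, 0, 67108864⟩]]) 1 0 1 5 0 (sgb true) (sgb true) x) :
    AltB (VFD κ) PP tK tL pcB [⟨3, 0, 0, 1449551462⟩] 1 0 1 5 0 (sgb true) (sgb true) x :=
  strip_altBD (m := 1449551462) true rfl hκ (SH.κ0 hκ (SH.hx1 hx).le (SH.hx2 hx').le) (SH.hx1 hx).le (SH.hx2 hx') (covB51).cov (covB01).cov hx hx' c_B50pp_101_s1 H ((okx hx hx').extB (T := tt) (sideB hx hx') hκ rfl rfl (.N 1 true) (.O 1 true) (Or.inl rfl))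

noncomputable def cut_B50pp_102_s1 : Cut := Cut.of [[⟨4, 0, 0, 1449551462⟩], [⟨0, 1, 0, 67108864⟩, ⟨1, 0, 0, 67108864⟩, ⟨2, 1, 0, 67108864⟩]]

noncomputable def f_B50pp_102_s1 : ℕ → ℕ → ℕ → ℕ → Bool := onCell 536870912 536870912 0 536870912 780900216 37827925
    (rowF 0 false true true .npp 1 0 2 (qsf 536870912 536870912 0 536870912 0) ndB5q1 ndB0q2 pcB0 cut_B50pp_102_s1 Ext.none)

def k0_B50pp_102_s1 : ∃ t, chk3 f_B50pp_102_s1 t 1 1 1 = true :=
  ⟨(a (b (l 6) (a (l 6) (b (l 6) (b (l 6) (a (b (l 6) (l 16268304)) (b (l 16261328) (a (l 16318160) (b (l 16332136) (l 16372088))))))))) (b (l 6) (a (b (l 6) (b (a (a (l 6) (l 16302480)) (b (a (l 6) (l 16232208)) (a (l 16283984) (l 16320608)))) (a (b (a (l 16304392) (b (l 16314272) (l 16357592))) (a (l 16388296) (l 16343968))) (b (a (l 16374104) (l 16417816)) (a (l 16641464) (b (l 16496216) (l 16549136))))))) (b (b (l 6) (a (a (l 6) (l 16163904)) (a (l 16355144)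 (b (l 16162112) (l 16254568))))) (b (a (b (a (l 16266152) (l 16298824)) (a (l 16360128) (l 16395648))) (b (a (l 16327848) (l 16439304)) (a (l 16429016) (a (l 16453248) (l 16468608))))) (a (b (a (l 16438968) (l 16582752)) (b (a (l 16539928) (b (l 16567672) (l 16596512))) (a (l 16595016) (l 16682240)))) (a (b (a (l 16527416) (l 16545816)) (b (a (l 16697608) (l 16633008)) (a (l 16714664) (l 14)))) (b (a (b (l 16534992) (l 14)) (l 14)) (l 14))))))))), by decide +kernel⟩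

theorem c_B50pp_102_s1 : CertF 536870912 536870912 0 536870912 780900216 37827925 false true true .npp 1 0 2
    ndB5q1 ndB0q2 pcB0 cut_B50pp_102_s1 Ext.none :=
  certF0 (fam := false) (s1 := true) (s2 := true) (a := 1) (b := 0) (c := 2) (cn := .npp) (n1 := ndB5q1) (n2 := ndB0q2) (pc := pcB0) (cut := cut_B50pp_102_s1) (xt := Ext.none) (P1 := 536870912) (W1 := 536870912) (P2 := 0) (W2 := 536870912) (P3 := 780900216) (W3 := 37827925)
    rfl k0_B50pp_102_s1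

theorem s_B50pp_102_s1 {κ x : ℝ} (hκ : κ * h0 = ken x) (hx : ((780900216 : ℕ) : ℝ) / S ≤ x)
    (hx' : x ≤ (((780900216 : ℕ) : ℝ) + (37827925 : ℕ)) / S)
    (H : CutB (VFD κ) PP tK tL pcB (Cut.of [[⟨0, 1, 0, 67108864⟩, ⟨1, 0, 0, 67108864⟩, ⟨2, 1, 0, 67108864⟩]]) 1 0 2 5 0 (sgb true) (sgb true) x) :
    AltB (VFD κ) PP tK tL pcB [⟨3, 0, 0, 1449551462⟩] 1 0 2 5 0 (sgb true) (sgb true) x :=
  strip_altBD (m := 1449551462) true rfl hκ (SH.κ0 hκ (SH.hx1 hx).le (SH.hx2 hx').le) (SH.hx1 hx).le (SH.hx2 hx') (covB51).cov (covB02).cov hx hx' c_B50pp_102_s1 H (noExt_B)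

noncomputable def cut_B50pp_112_s1 : Cut := Cut.of [[⟨4, 0, 0, 1449551462⟩]]

noncomputable def f_B50pp_112_s1 : ℕ → ℕ → ℕ → ℕ → Bool := onCell 536870912 536870912 0 536870912 780900216 37827925
    (rowF 2 false true true .dn 1 1 2 (qsf 536870912 536870912 0 536870912 1) ndB5q1 ndB0q2 pcB1 cut_B50pp_112_s1 Ext.none)

def k0_B50pp_112_s1 : ∃ t, chk3 f_B50pp_112_s1 t 1 1 1 = true :=
  ⟨(b (l 6) (l 6)), by decide +kernel⟩

theorem c_B50pp_112_s1 : CertF 536870912 536870912 0 536870912 780900216 37827925 false true true .dn 1 1 2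
    ndB5q1 ndB0q2 pcB1 cut_B50pp_112_s1 Ext.none :=
  certF2 (fam := false) (s1 := true) (s2 := true) (a := 1) (b := 1) (c := 2) (cn := .dn) (n1 := ndB5q1) (n2 := ndB0q2) (pc := pcB1) (cut := cut_B50pp_112_s1) (xt := Ext.none) (P1 := 536870912) (W1 := 536870912) (P2 := 0) (W2 := 536870912) (P3 := 780900216) (W3 := 37827925)
    rfl (fun _ => rfl) k0_B50pp_112_s1

theorem s_B50pp_112_s1 {κ x : ℝ} (hκ : κ * h0 = ken x) (hx : ((780900216 : ℕ) : ℝ) / S ≤ x)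
    (hx' : x ≤ (((780900216 : ℕ) : ℝ) + (37827925 : ℕ)) / S) :
    AltB (VFD κ) PP tK tL pcB [⟨3, 0, 0, 1449551462⟩] 1 1 2 5 0 (sgb true) (sgb true) x :=
  strip_altBD (m := 1449551462) true rfl hκ (SH.κ0 hκ (SH.hx1 hx).le (SH.hx2 hx').le) (SH.hx1 hx).le (SH.hx2 hx') (covB51).cov (covB02).cov hx hx' c_B50pp_112_s1 cutB_nil (noExt_B)

noncomputable def cut_B50pp_202_s1 : Cut := Cut.of [[⟨4, 0, 0, 1449551462⟩], [⟨0, 1, 0, 67108864⟩, ⟨1, 0, 0, 67108864⟩, ⟨2, 1, 0, 67108864⟩]]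

noncomputable def f_B50pp_202_s1 : ℕ → ℕ → ℕ → ℕ → Bool := onCell 0 536870912 0 536870912 780900216 37827925
    (rowF 2 false true true .pp 2 0 2 (qsf 1073741824 536870912 0 536870912 0) ndB5q2 ndB0q2 pcB0 cut_B50pp_202_s1 Ext.none)

def k0_B50pp_202_s1 : ∃ t, chk3 f_B50pp_202_s1 t 1 1 1 = true :=
  ⟨(a (b (a (l 6) (l 6)) (b (a (a (b (a (b (l 16373768) (l 16419472)) (b (l 6) (l 16315048))) (a (b (l 16462704) (l 16505664)) (b (l 16352056) (l 16391896)))) (b (l 6) (a (l 131566154503) (l 377452662391)))) (l 1)) (a (b (b (a (a (a (l 16579040) (l 16524352)) (l 16518480)) (a (l 16301584) (l 1))) (a (a (l 14) (a (l 14) (l 16443048))) (l 1))) (a (a (l 14) (a (l 14) (l 1))) (l 1))) (l 1)))) (l 1)), by decide +kernel⟩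

theorem c_B50pp_202_s1 : CertF 1073741824 536870912 0 536870912 780900216 37827925 false true true .pp 2 0 2
    ndB5q2 ndB0q2 pcB0 cut_B50pp_202_s1 Ext.none :=
  certF2 (fam := false) (s1 := true) (s2 := true) (a := 2) (b := 0) (c := 2) (cn := .pp) (n1 := ndB5q2) (n2 := ndB0q2) (pc := pcB0) (cut := cut_B50pp_202_s1) (xt := Ext.none) (P1 := 1073741824) (W1 := 536870912) (P2 := 0) (W2 := 536870912) (P3 := 780900216) (W3 := 37827925)
    rfl (fun _ => rfl) k0_B50pp_202_s1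

theorem s_B50pp_202_s1 {κ x : ℝ} (hκ : κ * h0 = ken x) (hx : ((780900216 : ℕ) : ℝ) / S ≤ x)
    (hx' : x ≤ (((780900216 : ℕ) : ℝ) + (37827925 : ℕ)) / S)
    (H : CutB (VFD κ) PP tK tL pcB (Cut.of [[⟨0, 1, 0, 67108864⟩, ⟨1, 0, 0, 67108864⟩, ⟨2, 1, 0, 67108864⟩]]) 2 0 2 5 0 (sgb true) (sgb true) x) :
    AltB (VFD κ) PP tK tL pcB [⟨3, 0, 0, 1449551462⟩] 2 0 2 5 0 (sgb true) (sgb true) x :=
  strip_altBD (m := 1449551462) true rfl hκ (SH.κ0 hκ (SH.hx1 hx).le (SH.hx2 hx').le) (SH.hx1 hx).le (SH.hx2 hx') (covB52).cov (covB02).cov hx hx' c_B50pp_202_s1 H (noExt_B)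

noncomputable def cut_B50pm_001_s1 : Cut := Cut.of [[⟨4, 0, 0, 1449551462⟩]]

noncomputable def f_B50pm_001_s1 : ℕ → ℕ → ℕ → ℕ → Bool := onCell 0 536870912 536870912 536870912 780900216 37827925
    (rowF 0 false true false .up 0 0 1 (qsf 0 536870912 536870912 536870912 0) ndB5q0 ndB0q1 pcB0 cut_B50pm_001_s1 Ext.none)

def k0_B50pm_001_s1 : ∃ t, chk3 f_B50pm_001_s1 t 1 1 1 = true :=
  ⟨(l 4), by decide +kernel⟩

theorem c_B50pm_001_s1 : CertF 0 536870912 536870912 536870912 780900216 37827925 false true false .up 0 0 1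
    ndB5q0 ndB0q1 pcB0 cut_B50pm_001_s1 Ext.none :=
  certF0 (fam := false) (s1 := true) (s2 := false) (a := 0) (b := 0) (c := 1) (cn := .up) (n1 := ndB5q0) (n2 := ndB0q1) (pc := pcB0) (cut := cut_B50pm_001_s1) (xt := Ext.none) (P1 := 0) (W1 := 536870912) (P2 := 536870912) (W2 := 536870912) (P3 := 780900216) (W3 := 37827925)
    rfl k0_B50pm_001_s1

theorem s_B50pm_001_s1 {κ x : ℝ} (hκ : κ * h0 = ken x) (hx : ((780900216 : ℕ) : ℝ) / S ≤ x)
    (hx' : x ≤ (((780900216 : ℕ) : ℝ) + (37827925 : ℕ)) / S) :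
    AltB (VFD κ) PP tK tL pcB [⟨3, 0, 0, 1449551462⟩] 0 0 1 5 0 (sgb true) (sgb false) x :=
  strip_altBD (m := 1449551462) true rfl hκ (SH.κ0 hκ (SH.hx1 hx).le (SH.hx2 hx').le) (SH.hx1 hx).le (SH.hx2 hx') (covB50).cov (covB01).cov hx hx' c_B50pm_001_s1 cutB_nil (noExt_B)

noncomputable def cut_B50pm_011_s1 : Cut := Cut.of [[⟨4, 0, 0, 1449551462⟩]]

noncomputable def f_B50pm_011_s1 : ℕ → ℕ → ℕ → ℕ → Bool := onCell 0 536870912 536870912 536870912 780900216 37827925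
    (rowF 0 false true false .pnn 0 1 1 (qsf 0 536870912 536870912 536870912 1) ndB5q0 ndB0q1 pcB1 cut_B50pm_011_s1 Ext.none)

def k0_B50pm_011_s1 : ∃ t, chk3 f_B50pm_011_s1 t 1 1 1 = true :=
  ⟨(l 4), by decide +kernel⟩

theorem c_B50pm_011_s1 : CertF 0 536870912 536870912 536870912 780900216 37827925 false true false .pnn 0 1 1
    ndB5q0 ndB0q1 pcB1 cut_B50pm_011_s1 Ext.none :=
  certF0 (fam := false) (s1 := true) (s2 := false) (a := 0) (b := 1) (c := 1) (cn := .pnn) (n1 := ndB5q0) (n2 := ndB0q1) (pc := pcB1) (cut := cut_B50pm_011_s1) (xt := Ext.none) (P1 := 0) (W1 := 536870912) (P2 := 536870912) (W2 := 536870912) (P3 := 780900216) (W3 := 37827925)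
    rfl k0_B50pm_011_s1

theorem s_B50pm_011_s1 {κ x : ℝ} (hκ : κ * h0 = ken x) (hx : ((780900216 : ℕ) : ℝ) / S ≤ x)
    (hx' : x ≤ (((780900216 : ℕ) : ℝ) + (37827925 : ℕ)) / S) :
    AltB (VFD κ) PP tK tL pcB [⟨3, 0, 0, 1449551462⟩] 0 1 1 5 0 (sgb true) (sgb false) x :=
  strip_altBD (m := 1449551462) true rfl hκ (SH.κ0 hκ (SH.hx1 hx).le (SH.hx2 hx').le) (SH.hx1 hx).le (SH.hx2 hx') (covB50).cov (covB01).cov hx hx' c_B50pm_011_s1 cutB_nil (noExt_B)

noncomputable def cut_B50pm_012_s1 : Cut := Cut.of [[⟨4, 0, 0, 1449551462⟩]]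

noncomputable def f_B50pm_012_s1 : ℕ → ℕ → ℕ → ℕ → Bool := onCell 0 536870912 0 536870912 780900216 37827925
    (rowF 0 false true false .pnp 0 1 2 (qsf 0 536870912 0 536870912 1) ndB5q0 ndB0q2 pcB1 cut_B50pm_012_s1 Ext.none)

def k0_B50pm_012_s1 : ∃ t, chk3 f_B50pm_012_s1 t 1 1 1 = true :=
  ⟨(l 6), by decide +kernel⟩

theorem c_B50pm_012_s1 : CertF 0 536870912 0 536870912 780900216 37827925 false true false .pnp 0 1 2
    ndB5q0 ndB0q2 pcB1 cut_B50pm_012_s1 Ext.none :=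
  certF0 (fam := false) (s1 := true) (s2 := false) (a := 0) (b := 1) (c := 2) (cn := .pnp) (n1 := ndB5q0) (n2 := ndB0q2) (pc := pcB1) (cut := cut_B50pm_012_s1) (xt := Ext.none) (P1 := 0) (W1 := 536870912) (P2 := 0) (W2 := 536870912) (P3 := 780900216) (W3 := 37827925)
    rfl k0_B50pm_012_s1

theorem s_B50pm_012_s1 {κ x : ℝ} (hκ : κ * h0 = ken x) (hx : ((780900216 : ℕ) : ℝ) / S ≤ x)
    (hx' : x ≤ (((780900216 : ℕ) : ℝ) + (37827925 : ℕ)) / S) :
    AltB (VFD κ) PP tK tL pcB [⟨3, 0, 0, 1449551462⟩] 0 1 2 5 0 (sgb true) (sgb false) x :=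
  strip_altBD (m := 1449551462) true rfl hκ (SH.κ0 hκ (SH.hx1 hx).le (SH.hx2 hx').le) (SH.hx1 hx).le (SH.hx2 hx') (covB50).cov (covB02).cov hx hx' c_B50pm_012_s1 cutB_nil (noExt_B)

noncomputable def cut_B50pm_022_s1 : Cut := Cut.of [[⟨4, 0, 0, 1449551462⟩]]

noncomputable def f_B50pm_022_s1 : ℕ → ℕ → ℕ → ℕ → Bool := onCell 0 536870912 0 536870912 780900216 37827925
    (rowF 0 false true false .pp 0 2 2 (qsf 0 536870912 0 536870912 2) ndB5q0 ndB0q2 pcB2 cut_B50pm_022_s1 Ext.none)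

def k0_B50pm_022_s1 : ∃ t, chk3 f_B50pm_022_s1 t 1 1 1 = true :=
  ⟨(l 6), by decide +kernel⟩

theorem c_B50pm_022_s1 : CertF 0 536870912 0 536870912 780900216 37827925 false true false .pp 0 2 2
    ndB5q0 ndB0q2 pcB2 cut_B50pm_022_s1 Ext.none :=
  certF0 (fam := false) (s1 := true) (s2 := false) (a := 0) (b := 2) (c := 2) (cn := .pp) (n1 := ndB5q0) (n2 := ndB0q2) (pc := pcB2) (cut := cut_B50pm_022_s1) (xt := Ext.none) (P1 := 0) (W1 := 536870912) (P2 := 0) (W2 := 536870912) (P3 := 780900216) (W3 := 37827925)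
    rfl k0_B50pm_022_s1

theorem s_B50pm_022_s1 {κ x : ℝ} (hκ : κ * h0 = ken x) (hx : ((780900216 : ℕ) : ℝ) / S ≤ x)
    (hx' : x ≤ (((780900216 : ℕ) : ℝ) + (37827925 : ℕ)) / S) :
    AltB (VFD κ) PP tK tL pcB [⟨3, 0, 0, 1449551462⟩] 0 2 2 5 0 (sgb true) (sgb false) x :=
  strip_altBD (m := 1449551462) true rfl hκ (SH.κ0 hκ (SH.hx1 hx).le (SH.hx2 hx').le) (SH.hx1 hx).le (SH.hx2 hx') (covB50).cov (covB02).cov hx hx' c_B50pm_022_s1 cutB_nil (noExt_B)

noncomputable def cut_B50pm_101_s1 : Cut := Cut.of [[⟨4, 0, 0, 1449551462⟩]]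

noncomputable def f_B50pm_101_s1 : ℕ → ℕ → ℕ → ℕ → Bool := onCell 536870912 536870912 536870912 536870912 780900216 37827925
    (rowF 0 false true false .npn 1 0 1 (qsf 536870912 536870912 536870912 536870912 0) ndB5q1 ndB0q1 pcB0 cut_B50pm_101_s1 Ext.none)

def k0_B50pm_101_s1 : ∃ t, chk3 f_B50pm_101_s1 t 1 1 1 = true :=
  ⟨(l 4), by decide +kernel⟩

theorem c_B50pm_101_s1 : CertF 536870912 536870912 536870912 536870912 780900216 37827925 false true false .npn 1 0 1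
    ndB5q1 ndB0q1 pcB0 cut_B50pm_101_s1 Ext.none :=
  certF0 (fam := false) (s1 := true) (s2 := false) (a := 1) (b := 0) (c := 1) (cn := .npn) (n1 := ndB5q1) (n2 := ndB0q1) (pc := pcB0) (cut := cut_B50pm_101_s1) (xt := Ext.none) (P1 := 536870912) (W1 := 536870912) (P2 := 536870912) (W2 := 536870912) (P3 := 780900216) (W3 := 37827925)
    rfl k0_B50pm_101_s1

theorem s_B50pm_101_s1 {κ x : ℝ} (hκ : κ * h0 = ken x) (hx : ((780900216 : ℕ) : ℝ) / S ≤ x)
    (hx' : x ≤ (((780900216 : ℕ) : ℝ) + (37827925 : ℕ)) / S) :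
    AltB (VFD κ) PP tK tL pcB [⟨3, 0, 0, 1449551462⟩] 1 0 1 5 0 (sgb true) (sgb false) x :=
  strip_altBD (m := 1449551462) true rfl hκ (SH.κ0 hκ (SH.hx1 hx).le (SH.hx2 hx').le) (SH.hx1 hx).le (SH.hx2 hx') (covB51).cov (covB01).cov hx hx' c_B50pm_101_s1 cutB_nil (noExt_B)

noncomputable def cut_B50pm_102_s1 : Cut := Cut.of [[⟨4, 0, 0, 1449551462⟩]]

noncomputable def f_B50pm_102_s1 : ℕ → ℕ → ℕ → ℕ → Bool := onCell 536870912 536870912 0 536870912 780900216 37827925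
    (rowF 0 false true false .npp 1 0 2 (qsf 536870912 536870912 0 536870912 0) ndB5q1 ndB0q2 pcB0 cut_B50pm_102_s1 Ext.none)

def k0_B50pm_102_s1 : ∃ t, chk3 f_B50pm_102_s1 t 1 1 1 = true :=
  ⟨(l 6), by decide +kernel⟩

theorem c_B50pm_102_s1 : CertF 536870912 536870912 0 536870912 780900216 37827925 false true false .npp 1 0 2
    ndB5q1 ndB0q2 pcB0 cut_B50pm_102_s1 Ext.none :=
  certF0 (fam := false) (s1 := true) (s2 := false) (a := 1) (b := 0) (c := 2) (cn := .npp) (n1 := ndB5q1) (n2 := ndB0q2) (pc := pcB0) (cut := cut_B50pm_102_s1) (xt := Ext.none) (P1 := 536870912) (W1 := 536870912) (P2 := 0) (W2 := 536870912) (P3 := 780900216) (W3 := 37827925)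
    rfl k0_B50pm_102_s1

theorem s_B50pm_102_s1 {κ x : ℝ} (hκ : κ * h0 = ken x) (hx : ((780900216 : ℕ) : ℝ) / S ≤ x)
    (hx' : x ≤ (((780900216 : ℕ) : ℝ) + (37827925 : ℕ)) / S) :
    AltB (VFD κ) PP tK tL pcB [⟨3, 0, 0, 1449551462⟩] 1 0 2 5 0 (sgb true) (sgb false) x :=
  strip_altBD (m := 1449551462) true rfl hκ (SH.κ0 hκ (SH.hx1 hx).le (SH.hx2 hx').le) (SH.hx1 hx).le (SH.hx2 hx') (covB51).cov (covB02).cov hx hx' c_B50pm_102_s1 cutB_nil (noExt_B)

noncomputable def cut_B50pm_112_s1 : Cut := Cut.of [[⟨4, 0, 0, 1449551462⟩]]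

noncomputable def f_B50pm_112_s1 : ℕ → ℕ → ℕ → ℕ → Bool := onCell 536870912 536870912 0 536870912 780900216 37827925
    (rowF 0 false true false .dn 1 1 2 (qsf 536870912 536870912 0 536870912 1) ndB5q1 ndB0q2 pcB1 cut_B50pm_112_s1 Ext.none)

def k0_B50pm_112_s1 : ∃ t, chk3 f_B50pm_112_s1 t 1 1 1 = true :=
  ⟨(l 6), by decide +kernel⟩

theorem c_B50pm_112_s1 : CertF 536870912 536870912 0 536870912 780900216 37827925 false true false .dn 1 1 2
    ndB5q1 ndB0q2 pcB1 cut_B50pm_112_s1 Ext.none :=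
  certF0 (fam := false) (s1 := true) (s2 := false) (a := 1) (b := 1) (c := 2) (cn := .dn) (n1 := ndB5q1) (n2 := ndB0q2) (pc := pcB1) (cut := cut_B50pm_112_s1) (xt := Ext.none) (P1 := 536870912) (W1 := 536870912) (P2 := 0) (W2 := 536870912) (P3 := 780900216) (W3 := 37827925)
    rfl k0_B50pm_112_s1

theorem s_B50pm_112_s1 {κ x : ℝ} (hκ : κ * h0 = ken x) (hx : ((780900216 : ℕ) : ℝ) / S ≤ x)
    (hx' : x ≤ (((780900216 : ℕ) : ℝ) + (37827925 : ℕ)) / S) :
    AltB (VFD κ) PP tK tL pcB [⟨3, 0, 0, 1449551462⟩] 1 1 2 5 0 (sgb true) (sgb false) x :=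
  strip_altBD (m := 1449551462) true rfl hκ (SH.κ0 hκ (SH.hx1 hx).le (SH.hx2 hx').le) (SH.hx1 hx).le (SH.hx2 hx') (covB51).cov (covB02).cov hx hx' c_B50pm_112_s1 cutB_nil (noExt_B)

noncomputable def cut_B50pm_202_s1 : Cut := Cut.of [[⟨4, 0, 0, 1449551462⟩]]

noncomputable def f_B50pm_202_s1 : ℕ → ℕ → ℕ → ℕ → Bool := onCell 0 536870912 0 536870912 780900216 37827925
    (rowF 2 false true false .pp 2 0 2 (qsf 1073741824 536870912 0 536870912 0) ndB5q2 ndB0q2 pcB0 cut_B50pm_202_s1 Ext.none)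

def k0_B50pm_202_s1 : ∃ t, chk3 f_B50pm_202_s1 t 1 1 1 = true :=
  ⟨(l 6), by decide +kernel⟩

theorem c_B50pm_202_s1 : CertF 1073741824 536870912 0 536870912 780900216 37827925 false true false .pp 2 0 2
    ndB5q2 ndB0q2 pcB0 cut_B50pm_202_s1 Ext.none :=
  certF2 (fam := false) (s1 := true) (s2 := false) (a := 2) (b := 0) (c := 2) (cn := .pp) (n1 := ndB5q2) (n2 := ndB0q2) (pc := pcB0) (cut := cut_B50pm_202_s1) (xt := Ext.none) (P1 := 1073741824) (W1 := 536870912) (P2 := 0) (W2 := 536870912) (P3 := 780900216) (W3 := 37827925)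
    rfl (fun _ => rfl) k0_B50pm_202_s1

theorem s_B50pm_202_s1 {κ x : ℝ} (hκ : κ * h0 = ken x) (hx : ((780900216 : ℕ) : ℝ) / S ≤ x)
    (hx' : x ≤ (((780900216 : ℕ) : ℝ) + (37827925 : ℕ)) / S) :
    AltB (VFD κ) PP tK tL pcB [⟨3, 0, 0, 1449551462⟩] 2 0 2 5 0 (sgb true) (sgb false) x :=
  strip_altBD (m := 1449551462) true rfl hκ (SH.κ0 hκ (SH.hx1 hx).le (SH.hx2 hx').le) (SH.hx1 hx).le (SH.hx2 hx') (covB52).cov (covB02).cov hx hx' c_B50pm_202_s1 cutB_nil (noExt_B)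

noncomputable def cut_B50mm_001_s1 : Cut := Cut.of [[⟨4, 0, 0, 1449551462⟩]]

noncomputable def f_B50mm_001_s1 : ℕ → ℕ → ℕ → ℕ → Bool := onCell 0 536870912 536870912 536870912 780900216 37827925
    (rowF 0 false false false .up 0 0 1 (qsf 0 536870912 536870912 536870912 0) ndB5q0 ndB0q1 pcB0 cut_B50mm_001_s1 Ext.none)

def k0_B50mm_001_s1 : ∃ t, chk3 f_B50mm_001_s1 t 1 1 1 = true :=
  ⟨(l 5), by decide +kernel⟩

theorem c_B50mm_001_s1 : CertF 0 536870912 536870912 536870912 780900216 37827925 false false false .up 0 0 1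
    ndB5q0 ndB0q1 pcB0 cut_B50mm_001_s1 Ext.none :=
  certF0 (fam := false) (s1 := false) (s2 := false) (a := 0) (b := 0) (c := 1) (cn := .up) (n1 := ndB5q0) (n2 := ndB0q1) (pc := pcB0) (cut := cut_B50mm_001_s1) (xt := Ext.none) (P1 := 0) (W1 := 536870912) (P2 := 536870912) (W2 := 536870912) (P3 := 780900216) (W3 := 37827925)
    rfl k0_B50mm_001_s1

theorem s_B50mm_001_s1 {κ x : ℝ} (hκ : κ * h0 = ken x) (hx : ((780900216 : ℕ) : ℝ) / S ≤ x)
    (hx' : x ≤ (((780900216 : ℕ) : ℝ) + (37827925 : ℕ)) / S) :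
    AltB (VFD κ) PP tK tL pcB [⟨3, 0, 0, 1449551462⟩] 0 0 1 5 0 (sgb false) (sgb false) x :=
  strip_altBD (m := 1449551462) true rfl hκ (SH.κ0 hκ (SH.hx1 hx).le (SH.hx2 hx').le) (SH.hx1 hx).le (SH.hx2 hx') (covB50).cov (covB01).cov hx hx' c_B50mm_001_s1 cutB_nil (noExt_B)

noncomputable def cut_B50mm_011_s1 : Cut := Cut.of [[⟨4, 0, 0, 1449551462⟩]]

noncomputable def f_B50mm_011_s1 : ℕ → ℕ → ℕ → ℕ → Bool := onCell 0 536870912 536870912 536870912 780900216 37827925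
    (rowF 0 false false false .pnn 0 1 1 (qsf 0 536870912 536870912 536870912 1) ndB5q0 ndB0q1 pcB1 cut_B50mm_011_s1 Ext.none)

def k0_B50mm_011_s1 : ∃ t, chk3 f_B50mm_011_s1 t 1 1 1 = true :=
  ⟨(l 5), by decide +kernel⟩

theorem c_B50mm_011_s1 : CertF 0 536870912 536870912 536870912 780900216 37827925 false false false .pnn 0 1 1
    ndB5q0 ndB0q1 pcB1 cut_B50mm_011_s1 Ext.none :=
  certF0 (fam := false) (s1 := false) (s2 := false) (a := 0) (b := 1) (c := 1) (cn := .pnn) (n1 := ndB5q0) (n2 := ndB0q1) (pc := pcB1) (cut := cut_B50mm_011_s1) (xt := Ext.none) (P1 := 0) (W1 := 536870912) (P2 := 536870912) (W2 := 536870912) (P3 := 780900216) (W3 := 37827925)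
    rfl k0_B50mm_011_s1

theorem s_B50mm_011_s1 {κ x : ℝ} (hκ : κ * h0 = ken x) (hx : ((780900216 : ℕ) : ℝ) / S ≤ x)
    (hx' : x ≤ (((780900216 : ℕ) : ℝ) + (37827925 : ℕ)) / S) :
    AltB (VFD κ) PP tK tL pcB [⟨3, 0, 0, 1449551462⟩] 0 1 1 5 0 (sgb false) (sgb false) x :=
  strip_altBD (m := 1449551462) true rfl hκ (SH.κ0 hκ (SH.hx1 hx).le (SH.hx2 hx').le) (SH.hx1 hx).le (SH.hx2 hx') (covB50).cov (covB01).cov hx hx' c_B50mm_011_s1 cutB_nil (noExt_B)

noncomputable def cut_B50mm_012_s1 : Cut := Cut.of [[⟨4, 0, 0, 1449551462⟩]]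

noncomputable def f_B50mm_012_s1 : ℕ → ℕ → ℕ → ℕ → Bool := onCell 0 536870912 0 536870912 780900216 37827925
    (rowF 0 false false false .pnp 0 1 2 (qsf 0 536870912 0 536870912 1) ndB5q0 ndB0q2 pcB1 cut_B50mm_012_s1 Ext.none)

def k0_B50mm_012_s1 : ∃ t, chk3 f_B50mm_012_s1 t 1 1 1 = true :=
  ⟨(l 5), by decide +kernel⟩

theorem c_B50mm_012_s1 : CertF 0 536870912 0 536870912 780900216 37827925 false false false .pnp 0 1 2
    ndB5q0 ndB0q2 pcB1 cut_B50mm_012_s1 Ext.none :=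
  certF0 (fam := false) (s1 := false) (s2 := false) (a := 0) (b := 1) (c := 2) (cn := .pnp) (n1 := ndB5q0) (n2 := ndB0q2) (pc := pcB1) (cut := cut_B50mm_012_s1) (xt := Ext.none) (P1 := 0) (W1 := 536870912) (P2 := 0) (W2 := 536870912) (P3 := 780900216) (W3 := 37827925)
    rfl k0_B50mm_012_s1

theorem s_B50mm_012_s1 {κ x : ℝ} (hκ : κ * h0 = ken x) (hx : ((780900216 : ℕ) : ℝ) / S ≤ x)
    (hx' : x ≤ (((780900216 : ℕ) : ℝ) + (37827925 : ℕ)) / S) :
    AltB (VFD κ) PP tK tL pcB [⟨3, 0, 0, 1449551462⟩] 0 1 2 5 0 (sgb false) (sgb false) x :=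
  strip_altBD (m := 1449551462) true rfl hκ (SH.κ0 hκ (SH.hx1 hx).le (SH.hx2 hx').le) (SH.hx1 hx).le (SH.hx2 hx') (covB50).cov (covB02).cov hx hx' c_B50mm_012_s1 cutB_nil (noExt_B)

noncomputable def cut_B50mm_022_s1 : Cut := Cut.of [[⟨4, 0, 0, 1449551462⟩]]

noncomputable def f_B50mm_022_s1 : ℕ → ℕ → ℕ → ℕ → Bool := onCell 0 536870912 0 536870912 780900216 37827925
    (rowF 0 false false false .pp 0 2 2 (qsf 0 536870912 0 536870912 2) ndB5q0 ndB0q2 pcB2 cut_B50mm_022_s1 Ext.none)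

def k0_B50mm_022_s1 : ∃ t, chk3 f_B50mm_022_s1 t 1 1 1 = true :=
  ⟨(l 5), by decide +kernel⟩

theorem c_B50mm_022_s1 : CertF 0 536870912 0 536870912 780900216 37827925 false false false .pp 0 2 2
    ndB5q0 ndB0q2 pcB2 cut_B50mm_022_s1 Ext.none :=
  certF0 (fam := false) (s1 := false) (s2 := false) (a := 0) (b := 2) (c := 2) (cn := .pp) (n1 := ndB5q0) (n2 := ndB0q2) (pc := pcB2) (cut := cut_B50mm_022_s1) (xt := Ext.none) (P1 := 0) (W1 := 536870912) (P2 := 0) (W2 := 536870912) (P3 := 780900216) (W3 := 37827925)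
    rfl k0_B50mm_022_s1

theorem s_B50mm_022_s1 {κ x : ℝ} (hκ : κ * h0 = ken x) (hx : ((780900216 : ℕ) : ℝ) / S ≤ x)
    (hx' : x ≤ (((780900216 : ℕ) : ℝ) + (37827925 : ℕ)) / S) :
    AltB (VFD κ) PP tK tL pcB [⟨3, 0, 0, 1449551462⟩] 0 2 2 5 0 (sgb false) (sgb false) x :=
  strip_altBD (m := 1449551462) true rfl hκ (SH.κ0 hκ (SH.hx1 hx).le (SH.hx2 hx').le) (SH.hx1 hx).le (SH.hx2 hx') (covB50).cov (covB02).cov hx hx' c_B50mm_022_s1 cutB_nil (noExt_B)

noncomputable def cut_B50mm_101_s1 : Cut := Cut.of [[⟨4, 0, 0, 1449551462⟩]]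

noncomputable def f_B50mm_101_s1 : ℕ → ℕ → ℕ → ℕ → Bool := onCell 0 536870912 536870912 536870912 780900216 37827925
    (rowF 2 false false false .npn 1 0 1 (qsf 536870912 536870912 536870912 536870912 0) ndB5q1 ndB0q1 pcB0 cut_B50mm_101_s1 Ext.none)

def k0_B50mm_101_s1 : ∃ t, chk3 f_B50mm_101_s1 t 1 1 1 = true :=
  ⟨(l 5), by decide +kernel⟩

theorem c_B50mm_101_s1 : CertF 536870912 536870912 536870912 536870912 780900216 37827925 false false false .npn 1 0 1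
    ndB5q1 ndB0q1 pcB0 cut_B50mm_101_s1 Ext.none :=
  certF2 (fam := false) (s1 := false) (s2 := false) (a := 1) (b := 0) (c := 1) (cn := .npn) (n1 := ndB5q1) (n2 := ndB0q1) (pc := pcB0) (cut := cut_B50mm_101_s1) (xt := Ext.none) (P1 := 536870912) (W1 := 536870912) (P2 := 536870912) (W2 := 536870912) (P3 := 780900216) (W3 := 37827925)
    rfl (fun _ => rfl) k0_B50mm_101_s1

theorem s_B50mm_101_s1 {κ x : ℝ} (hκ : κ * h0 = ken x) (hx : ((780900216 : ℕ) : ℝ) / S ≤ x)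
    (hx' : x ≤ (((780900216 : ℕ) : ℝ) + (37827925 : ℕ)) / S) :
    AltB (VFD κ) PP tK tL pcB [⟨3, 0, 0, 1449551462⟩] 1 0 1 5 0 (sgb false) (sgb false) x :=
  strip_altBD (m := 1449551462) true rfl hκ (SH.κ0 hκ (SH.hx1 hx).le (SH.hx2 hx').le) (SH.hx1 hx).le (SH.hx2 hx') (covB51).cov (covB01).cov hx hx' c_B50mm_101_s1 cutB_nil (noExt_B)

noncomputable def cut_B50mm_102_s1 : Cut := Cut.of [[⟨4, 0, 0, 1449551462⟩]]

noncomputable def f_B50mm_102_s1 : ℕ → ℕ → ℕ → ℕ → Bool := onCell 536870912 536870912 0 536870912 780900216 37827925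
    (rowF 0 false false false .npp 1 0 2 (qsf 536870912 536870912 0 536870912 0) ndB5q1 ndB0q2 pcB0 cut_B50mm_102_s1 Ext.none)

def k0_B50mm_102_s1 : ∃ t, chk3 f_B50mm_102_s1 t 1 1 1 = true :=
  ⟨(l 5), by decide +kernel⟩

theorem c_B50mm_102_s1 : CertF 536870912 536870912 0 536870912 780900216 37827925 false false false .npp 1 0 2
    ndB5q1 ndB0q2 pcB0 cut_B50mm_102_s1 Ext.none :=
  certF0 (fam := false) (s1 := false) (s2 := false) (a := 1) (b := 0) (c := 2) (cn := .npp) (n1 := ndB5q1) (n2 := ndB0q2) (pc := pcB0) (cut := cut_B50mm_102_s1) (xt := Ext.none) (P1 := 536870912) (W1 := 536870912) (P2 := 0) (W2 := 536870912) (P3 := 780900216) (W3 := 37827925)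
    rfl k0_B50mm_102_s1

theorem s_B50mm_102_s1 {κ x : ℝ} (hκ : κ * h0 = ken x) (hx : ((780900216 : ℕ) : ℝ) / S ≤ x)
    (hx' : x ≤ (((780900216 : ℕ) : ℝ) + (37827925 : ℕ)) / S) :
    AltB (VFD κ) PP tK tL pcB [⟨3, 0, 0, 1449551462⟩] 1 0 2 5 0 (sgb false) (sgb false) x :=
  strip_altBD (m := 1449551462) true rfl hκ (SH.κ0 hκ (SH.hx1 hx).le (SH.hx2 hx').le) (SH.hx1 hx).le (SH.hx2 hx') (covB51).cov (covB02).cov hx hx' c_B50mm_102_s1 cutB_nil (noExt_B)

noncomputable def cut_B50mm_112_s1 : Cut := Cut.of [[⟨4, 0, 0, 1449551462⟩]]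

noncomputable def f_B50mm_112_s1 : ℕ → ℕ → ℕ → ℕ → Bool := onCell 536870912 536870912 0 536870912 780900216 37827925
    (rowF 0 false false false .dn 1 1 2 (qsf 536870912 536870912 0 536870912 1) ndB5q1 ndB0q2 pcB1 cut_B50mm_112_s1 Ext.none)

def k0_B50mm_112_s1 : ∃ t, chk3 f_B50mm_112_s1 t 1 1 1 = true :=
  ⟨(l 5), by decide +kernel⟩

theorem c_B50mm_112_s1 : CertF 536870912 536870912 0 536870912 780900216 37827925 false false false .dn 1 1 2
    ndB5q1 ndB0q2 pcB1 cut_B50mm_112_s1 Ext.none :=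
  certF0 (fam := false) (s1 := false) (s2 := false) (a := 1) (b := 1) (c := 2) (cn := .dn) (n1 := ndB5q1) (n2 := ndB0q2) (pc := pcB1) (cut := cut_B50mm_112_s1) (xt := Ext.none) (P1 := 536870912) (W1 := 536870912) (P2 := 0) (W2 := 536870912) (P3 := 780900216) (W3 := 37827925)
    rfl k0_B50mm_112_s1

theorem s_B50mm_112_s1 {κ x : ℝ} (hκ : κ * h0 = ken x) (hx : ((780900216 : ℕ) : ℝ) / S ≤ x)
    (hx' : x ≤ (((780900216 : ℕ) : ℝ) + (37827925 : ℕ)) / S) :
    AltB (VFD κ) PP tK tL pcB [⟨3, 0, 0, 1449551462⟩] 1 1 2 5 0 (sgb false) (sgb false) x :=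
  strip_altBD (m := 1449551462) true rfl hκ (SH.κ0 hκ (SH.hx1 hx).le (SH.hx2 hx').le) (SH.hx1 hx).le (SH.hx2 hx') (covB51).cov (covB02).cov hx hx' c_B50mm_112_s1 cutB_nil (noExt_B)

noncomputable def cut_B50mm_202_s1 : Cut := Cut.of [[⟨4, 0, 0, 1449551462⟩]]

noncomputable def f_B50mm_202_s1 : ℕ → ℕ → ℕ → ℕ → Bool := onCell 1073741824 536870912 0 536870912 780900216 37827925
    (rowF 0 false false false .pp 2 0 2 (qsf 1073741824 536870912 0 536870912 0) ndB5q2 ndB0q2 pcB0 cut_B50mm_202_s1 Ext.none)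

def k0_B50mm_202_s1 : ∃ t, chk3 f_B50mm_202_s1 t 1 1 1 = true :=
  ⟨(l 5), by decide +kernel⟩

theorem c_B50mm_202_s1 : CertF 1073741824 536870912 0 536870912 780900216 37827925 false false false .pp 2 0 2
    ndB5q2 ndB0q2 pcB0 cut_B50mm_202_s1 Ext.none :=
  certF0 (fam := false) (s1 := false) (s2 := false) (a := 2) (b := 0) (c := 2) (cn := .pp) (n1 := ndB5q2) (n2 := ndB0q2) (pc := pcB0) (cut := cut_B50mm_202_s1) (xt := Ext.none) (P1 := 1073741824) (W1 := 536870912) (P2 := 0) (W2 := 536870912) (P3 := 780900216) (W3 := 37827925)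
    rfl k0_B50mm_202_s1

theorem s_B50mm_202_s1 {κ x : ℝ} (hκ : κ * h0 = ken x) (hx : ((780900216 : ℕ) : ℝ) / S ≤ x)
    (hx' : x ≤ (((780900216 : ℕ) : ℝ) + (37827925 : ℕ)) / S) :
    AltB (VFD κ) PP tK tL pcB [⟨3, 0, 0, 1449551462⟩] 2 0 2 5 0 (sgb false) (sgb false) x :=
  strip_altBD (m := 1449551462) true rfl hκ (SH.κ0 hκ (SH.hx1 hx).le (SH.hx2 hx').le) (SH.hx1 hx).le (SH.hx2 hx') (covB52).cov (covB02).cov hx hx' c_B50mm_202_s1 cutB_nil (noExt_B)

end Pool.Agent.Strip051.G.I72727_7625.Tab.St.C
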