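import Pool.Agent.Strip051.G.I72727_7625.Tab
import Pool.Agent.Strip051.PB.StripB

/-! # Strips, near vertex: certificates 3 (generated) -/

set_option linter.all false
set_option maxRecDepth 100000

namespace Pool.Agent.Strip051.G.I72727_7625.Tab.CS.BB50

open Pool.Agent.Strip051.PB Pool.Agent.Strip051.PB.T
open Pool.Agent.Strip051.G.I72727_7625.Tab

noncomputable def cut_pp_001_s : Cut := Cut.of [[⟨4, 0, 0, 1449551462⟩]]

noncomputable def f_pp_001_s : ℕ → ℕ → ℕ → ℕ → Bool := onCell 0 536870912 536870912 536870912 780900216 37827925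
    (rowNE 3 eng mog cd5q0 cd0q1 pd0 2 false true true .up 0 0 1 (qsf 0 536870912 536870912 536870912 0) ndB5q0 ndB0q1 pcB0 cut_pp_001_s Ext.none)

def k0_pp_001_s : ∃ t, chk3 f_pp_001_s t 2 1 1 = true :=
  ⟨(b (l 3) (b (b (l 3) (l 2)) (l 2))), by decide +kernel⟩

def k1_pp_001_s : ∃ t, chk3 f_pp_001_s t 6 2 1 = true :=
  ⟨(l 3), by decide +kernel⟩

def k2_pp_001_s : ∃ t, chk3 f_pp_001_s t 7 4 1 = true :=
  ⟨(l 3), by decide +kernel⟩

def k3_pp_001_s : ∃ t, chk3 f_pp_001_s t 14 5 1 = true :=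
  ⟨(b (l 3) (b (a (l 3) (b (l 3) (a (l 3) (b (a (l 3) (b (l 506437028007) (a (l 493552132567) (l 256792045351)))) (a (b (l 487109678551) (a (l 412484628455) (l 16773656))) (b (l 158544670295) (l 16764112))))))) (a (b (a (l 3) (a (l 3) (a (l 3) (b (l 3) (l 487646548167))))) (a (b (l 3) (a (l 3) (b (l 502142060423) (a (l 477446005591) (l 267529462279))))) (b (a (b (l 3) (a (l 3) (b (l 473151040551) (l 270750693415)))) (b (a (l 407115908903) (l 193441284087)) (a (l 16772368) (l 16766144)))) (a (a (b (c (l 312626616167) (l 304573551127)) (l 16769576)) (l 16777664)) (l 16768352))))) (b (a (b (a (l 507510763191) (b (a (l 3) (l 306184162279)) (a (l 305647292551) (l 16771304)))) (a (b (a (l 490330906503) (l 268066333175)) (a (l 239612178487) (l 16768784))) (l 16773608))) (b (a (l 59223558663) (l 16752840)) (l 16765208))) (a (a (b (l 16771040) (l 16745448)) (l 16761488)) (l 16742872)))))), by decide +kernel⟩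

def k4_pp_001_s : ∃ t, chk3 f_pp_001_s t 15 5 1 = true :=
  ⟨(b (a (b (l 3) (b (l 3) (a (l 3) (b (a (l 3) (l 510195120071)) (a (l 503215800167) (b (a (l 499994583271) (l 256255175719)) (a (l 234780341223) (l 16769248)))))))) (b (b (l 3) (a (l 3) (b (l 3) (a (l 3) (b (l 489794033655) (a (l 470466685559) (l 205789316135))))))) (b (a (b (l 3) (a (l 3) (b (l 450065589127) (a (l 314237231127) (l 16772728))))) (b (a (b (l 480130358567) (a (l 422148305095) (l 16774184))) (b (l 124721808711) (l 16765880))) (a (l 59760431111) (l 16756160)))) (a (b (a (b (a (l 3) (l 313163489415)) (a (l 314774103575) (l 16771016))) (l 16775816)) (a (l 16763448) (l 16750952))) (b (l 16768984) (l 16733592)))))) (b (a (b (a (b (a (l 3) (b (l 3) (l 471540424039))) (a (b (l 3) (a (l 3) (l 311552873255))) (b (a (l 380809246151) (l 16772696)) (l 16768440)))) (b (a (b (a (l 460803009159) (l 16774616)) (l 16769520)) (l 16761488)) (a (l 16759352) (l 16746656)))) (a (a (b (b (a (l 313700359719)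 (l 16770616)) (l 16766312)) (l 16755048)) (l 16765448)) (l 16772776))) (b (a (l 16772200) (l 16711168)) (a (l 16706128) (l 16682128)))) (a (a (b (l 16768424) (l 16697168)) (b (l 16701624) (l 16672896))) (a (l 16684328) (l 16640080))))), by decide +kernel⟩

def k5_pp_001_s : ∃ t, chk3 f_pp_001_s t 12 6 1 = true :=
  ⟨(b (b (l 3) (a (l 3) (b (l 3) (a (l 3) (b (l 3) (a (b (l 3) (l 2)) (b (a (l 3) (c (l 396915361879) (l 398525984551))) (a (b (l 431811981367) (l 2)) (l 16771592))))))))) (b (a (l 2) (b (a (l 2) (b (a (l 2) (l 28554826311)) (l 2))) (l 2))) (l 2))), by decide +kernel⟩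

def k6_pp_001_s : ∃ t, chk3 f_pp_001_s t 13 12 1 = true :=
  ⟨(b (a (l 3) (b (a (l 3) (b (l 3) (a (a (l 3) (l 485499065783)) (b (a (l 501605194055) (c (l 303499828375) (l 304036678935))) (a (c (l 273435042279) (l 16765096)) (l 16769704)))))) (a (b (a (l 3) (b (l 3) (a (l 3) (b (l 467782331303) (l 277730014135))))) (a (b (l 496236491431) (a (l 446844364727) (c (l 269676945783) (l 16765808)))) (a (b (a (l 301352329559) (l 250349602743)) (l 16769160)) (l 16777480)))) (b (a (b (a (l 413558359271) (b (l 271824435751) (l 16772264))) (a (l 16771200) (l 16766488))) (l 16771712)) (a (l 16768440) (l 16745880)))))) (a (b (a (b (l 3) (a (l 3) (a (l 3) (b (l 3) (c (l 398525979879) (l 401210339223)))))) (b (a (b (l 3) (l 498920844935)) (b (a (l 3) (b (l 490867779159) (l 299204846695))) (a (b (l 414632112647) (a (l 195051919367) (l 16774136))) (l 16771608)))) (a (b (a (l 468856071207) (a (b (l 307794783479) (l 16775216)) (l 96804541735))) (a (b (a (l 204178725271) (l 16774296))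 (l 16771840)) (l 16767880))) (b (l 16777312) (l 16759008))))) (b (a (a (b (l 503752682375) (a (l 473151038119) (b (a (l 302962943111) (l 16776240)) (l 16773784)))) (b (a (b (l 439865044919) (a (l 209547434455) (l 16774336))) (l 16771824)) (l 16777296))) (a (l 16769416) (l 16747120))) (a (a (b (a (b (l 151565376903) (l 16771712)) (l 16767720)) (l 16773032)) (l 16775624)) (l 16757880)))) (b (a (b (a (b (a (c (l 93583317255) (l 16773312)) (l 16767424)) (l 16773168)) (l 16775544)) (c (l 16766232) (l 16765792))) (c (l 16771112) (l 16749464))) (a (c (l 16742640) (l 16741888)) (b (l 16705496) (l 16689560)))))), by decide +kernel⟩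

def k7_pp_001_s : ∃ t, chk3 f_pp_001_s t 13 13 1 = true :=
  ⟨(a (b (b (a (a (b (l 16750152) (l 16712480)) (l 16750864)) (l 16754176)) (b (a (l 259409109783) (l 16687200)) (l 16744720))) (b (l 103179724071) (l 2))) (b (b (c (l 16750952) (l 16718088)) (l 16664472)) (c (l 16636248) (l 16633400)))), by decide +kernel⟩

def k8_pp_001_s : ∃ t, chk3 f_pp_001_s t 7 6 1 = true :=
  ⟨(a (b (b (a (a (b (b (a (b (a (l 3) (l 424295787719)) (a (b (l 480667232711) (l 312089752327)) (l 16772760))) (b (a (l 223506052103) (l 16768128)) (l 16774064))) (a (a (l 16777904) (l 16761304)) (l 16752128))) (c (l 16777544) (l 16776992))) (b (a (b (l 16776032) (l 16739872)) (l 16756120)) (l 16732056))) (a (b (l 16737736) (l 16686952)) (l 16740496))) (a (b (a (l 16725824) (l 16701928)) (a (l 16673768) (l 16650184))) (b (a (l 16657240) (l 16633800)) (l 16636224)))) (b (a (b (a (l 16641608) (l 16618288)) (l 16617968)) (b (l 16583856) (l 16551616))) (a (b (l 16564008) (l 16531064)) (b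 (l 16519112) (l 16487616))))) (b (a (b (b (l 16656352) (l 16627816)) (l 16584728)) (b (l 16617520) (l 16541632))) (b (a (l 16586096) (l 16482800)) (a (l 16460984) (l 16420232))))), by decide +kernel⟩

def k9_pp_001_s : ∃ t, chk3 f_pp_001_s t 3 7 1 = true :=
  ⟨(a (b (a (l 2) (b (a (l 2) (b (l 16584648) (l 2))) (l 2))) (l 2)) (b (a (b (a (l 16565632) (l 16438960)) (a (l 16393632) (l 16374760))) (b (a (l 16398048) (l 16359072)) (a (l 16335928) (l 16298912)))) (a (b (a (l 2) (l 16313368)) (l 2)) (b (l 16406824) (l 6))))), by decide +kernel⟩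

theorem s10_pp_001_s : ∃ t, chk3 f_pp_001_s t 13 6 1 = true := ex3_b k6_pp_001_s k7_pp_001_s

theorem s11_pp_001_s : ∃ t, chk3 f_pp_001_s t 6 6 1 = true := ex3_a k5_pp_001_s s10_pp_001_s

theorem s12_pp_001_s : ∃ t, chk3 f_pp_001_s t 3 6 1 = true := ex3_a s11_pp_001_s k8_pp_001_s

theorem s13_pp_001_s : ∃ t, chk3 f_pp_001_s t 3 3 1 = true := ex3_b s12_pp_001_s k9_pp_001_s

theorem s14_pp_001_s : ∃ t, chk3 f_pp_001_s t 7 5 1 = true := ex3_a k3_pp_001_s k4_pp_001_s

theorem s15_pp_001_s : ∃ t, chk3 f_pp_001_s t 7 2 1 = true := ex3_b k2_pp_001_s s14_pp_001_s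

theorem s16_pp_001_s : ∃ t, chk3 f_pp_001_s t 3 2 1 = true := ex3_a k1_pp_001_s s15_pp_001_s

theorem s17_pp_001_s : ∃ t, chk3 f_pp_001_s t 3 1 1 = true := ex3_b s16_pp_001_s s13_pp_001_s

theorem s18_pp_001_s : ∃ t, chk3 f_pp_001_s t 1 1 1 = true := ex3_a k0_pp_001_s s17_pp_001_s

theorem c_pp_001_s : CertNE 0 536870912 536870912 536870912 780900216 37827925 3 eng mog cd5q0 cd0q1 pd0 false true true .up 0 0 1
    ndB5q0 ndB0q1 pcB0 cut_pp_001_s Ext.none :=
  certNE2 (fam := false) (s1 := true) (s2 := true) (a := 0) (b := 0) (c := 1) (cn := .up) (n1 := ndB5q0) (n2 := ndB0q1) (pc := pcB0) (cut := cut_pp_001_s) (xt := Ext.none) (P1 := 0) (W1 := 536870912) (P2 := 536870912) (W2 := 536870912) (P3 := 780900216) (W3 := 37827925) (N0 := 3) (En := eng) (mo := mog) (C1 := cd5q0) (C2 := cd0q1) (C3 := pd0)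
    rfl (fun _ => rfl) s18_pp_001_s

noncomputable def cut_pp_011_s : Cut := Cut.of [[⟨4, 0, 0, 1449551462⟩]]

noncomputable def f_pp_011_s : ℕ → ℕ → ℕ → ℕ → Bool := onCell 536870912 536870912 536870912 536870912 780900216 37827925
    (rowNE 3 eng mog cd5q0 cd0q1 pd1 2 false true true .pnn 0 1 1 (qsf 0 536870912 536870912 536870912 1) ndB5q0 ndB0q1 pcB1 cut_pp_011_s Ext.none)

def k0_pp_011_s : ∃ t, chk3 f_pp_011_s t 8 4 1 = true :=
  ⟨(b (l 3) (a (b (l 3) (a (l 3) (b (l 3) (b (l 3) (a (l 3) (b (l 3) (a (l 3) (l 363092485895)))))))) (b (b (l 3) (a (l 3) (b (l 3) (a (l 3) (b (l 3) (a (l 3) (l 445233748599))))))) (a (b (b (l 3) (a (l 3) (b (l 3) (a (l 3) (l 412484629159))))) (b (a (b (l 3) (a (l 3) (l 389936041095))) (b (a (l 401747200775) (l 16774040)) (a (l 16773800) (l 16768448)))) (a (b (a (l 377051139623) (l 16773528)) (l 16775728)) (l 16762528)))) (b (b (a (b (l 3) (a (l 3) (l 431275110519))) (b (a (l 438791303079) (a (l 174113936071) (l 16773488)))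 (a (a (l 167671485543) (l 16773352)) (l 16769344)))) (a (b (a (l 422685176183) (l 110226297831)) (a (l 103246976423) (l 16768960))) (a (l 16766392) (l 16761064)))) (a (b (l 16763208) (l 16751824)) (l 16767864))))))), by decide +kernel⟩

def k1_pp_011_s : ∃ t, chk3 f_pp_011_s t 9 4 1 = true :=
  ⟨(b (a (a (l 3) (l 1)) (l 1)) (a (b (a (b (b (l 3) (a (l 3) (b (l 3) (a (l 3) (b (l 3) (a (l 3) (l 309405405895))))))) (a (b (b (l 3) (a (l 3) (l 454897424759))) (b (a (l 450602457575) (a (l 181630128359) (l 16773672))) (a (a (l 178945773991) (l 16773592)) (l 16769592)))) (b (a (b (b (l 3) (l 420537683127)) (a (l 183240740871) (l 16773720))) (b (a (b (l 311016018791) (l 16775080)) (l 16773744)) (l 16780208))) (a (l 16766968) (l 16761640))))) (b (a (b (l 1) (b (l 1) (b (l 1) (l 57478738423)))) (l 1)) (a (b (a (b (l 16780240) (l 16764384)) (l 16761792)) (l 16753640)) (l 16769560)))) (a (b (a (b (a (l 16766752) (l 16761432)) (l 16753104)) (l 16768952)) (l 16752056)) (b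 (l 16753000) (l 16710064)))) (b (a (b (l 1) (l 16754720)) (l 1)) (a (l 16741896) (l 16700800))))), by decide +kernel⟩

def k2_pp_011_s : ∃ t, chk3 f_pp_011_s t 4 5 1 = true :=
  ⟨(a (b (a (b (a (b (b (l 3) (a (l 3) (b (l 3) (a (l 502142066855) (l 311016008327))))) (b (a (b (l 497847096039) (a (l 492478391511) (l 235854082551))) (a (b (l 300815461847) (l 16770424)) (l 16767848))) (a (a (b (l 218137343719) (l 16768952)) (l 16766312)) (l 16778464)))) (b (b (a (b (l 3) (a (l 3) (l 331417103159))) (a (b (l 347523229959) (l 16772504)) (l 16769912))) (a (b (a (l 312089749895) (l 16772080)) (l 16768768)) (l 16771128))) (a (b (l 16780288) (l 16746184)) (l 16762728)))) (a (b (b (a (l 16776232) (l 16743576)) (l 16755624)) (l 16732088)) (b (l 16740776) (l 16689592)))) (b (a (b (a (b (l 16766920) (l 16749712)) (l 16765944)) (l 16746632)) (b (l 16750080) (l 16704832))) (a (l 16747096) (l 16685072)))) (a (b (a (b (l 16678440) (l 16646880)) (l 16680504)) (a (l 16579720)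 (l 16577584))) (b (b (l 16626936) (l 16591720)) (l 16542792)))) (b (a (b (a (l 16759272) (l 16696704)) (l 16718200)) (b (l 16727888) (l 16593920))) (b (a (l 16572552) (l 16534552)) (a (l 16500432) (l 16464720))))), by decide +kernel⟩

def k3_pp_011_s : ∃ t, chk3 f_pp_011_s t 5 2 1 = true :=
  ⟨(b (a (b (l 1) (a (b (l 1) (l 117608234455)) (l 1))) (l 1)) (a (b (b (a (l 16623184) (l 16565120)) (a (l 16550664) (l 16506928))) (b (a (l 16493456) (l 16447240)) (a (l 16428376) (l 16386184)))) (b (b (l 1) (a (l 16469920) (l 1))) (b (a (l 16404048) (l 16369448)) (l 16318096))))), by decide +kernel⟩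

def k4_pp_011_s : ∃ t, chk3 f_pp_011_s t 2 3 1 = true :=
  ⟨(b (a (a (b (b (a (l 16550688) (l 16485056)) (a (l 16532392) (l 16429888))) (b (a (l 16407872) (l 16368328)) (l 16323544))) (b (b (a (l 16438472) (l 16389584)) (l 16402592)) (b (l 16302264) (l 16241336)))) (b (a (b (l 16334216) (l 16256192)) (b (l 16249784) (l 16176912))) (a (b (l 16201056) (l 6)) (l 6)))) (a (b (a (b (l 16260064) (l 16197216)) (b (l 6) (l 6))) (l 6)) (l 6))), by decide +kernel⟩

def k5_pp_011_s : ∃ t, chk3 f_pp_011_s t 3 1 1 = true :=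
  ⟨(b (a (b (l 1) (a (b (l 1) (b (l 1) (l 16253672))) (l 1))) (l 1)) (b (a (b (l 6) (l 6)) (l 6)) (l 6))), by decide +kernel⟩

theorem s6_pp_011_s : ∃ t, chk3 f_pp_011_s t 4 4 1 = true := ex3_a k0_pp_011_s k1_pp_011_s

theorem s7_pp_011_s : ∃ t, chk3 f_pp_011_s t 4 2 1 = true := ex3_b s6_pp_011_s k2_pp_011_s

theorem s8_pp_011_s : ∃ t, chk3 f_pp_011_s t 2 2 1 = true := ex3_a s7_pp_011_s k3_pp_011_s

theorem s9_pp_011_s : ∃ t, chk3 f_pp_011_s t 2 1 1 = true := ex3_b s8_pp_011_s k4_pp_011_s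

theorem s10_pp_011_s : ∃ t, chk3 f_pp_011_s t 1 1 1 = true := ex3_a s9_pp_011_s k5_pp_011_s

theorem c_pp_011_s : CertNE 0 536870912 536870912 536870912 780900216 37827925 3 eng mog cd5q0 cd0q1 pd1 false true true .pnn 0 1 1
    ndB5q0 ndB0q1 pcB1 cut_pp_011_s Ext.none :=
  certNE2 (fam := false) (s1 := true) (s2 := true) (a := 0) (b := 1) (c := 1) (cn := .pnn) (n1 := ndB5q0) (n2 := ndB0q1) (pc := pcB1) (cut := cut_pp_011_s) (xt := Ext.none) (P1 := 0) (W1 := 536870912) (P2 := 536870912) (W2 := 536870912) (P3 := 780900216) (W3 := 37827925) (N0 := 3) (En := eng) (mo := mog) (C1 := cd5q0) (C2 := cd0q1) (C3 := pd1)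
    rfl (fun _ => rfl) s10_pp_011_s

noncomputable def cut_pp_012_s : Cut := Cut.of [[⟨4, 0, 0, 1449551462⟩]]

noncomputable def f_pp_012_s : ℕ → ℕ → ℕ → ℕ → Bool := onCell 0 536870912 0 536870912 780900216 37827925
    (rowNE 3 eng mog cd5q0 cd0q2 pd1 0 false true true .pnp 0 1 2 (qsf 0 536870912 0 536870912 1) ndB5q0 ndB0q2 pcB1 cut_pp_012_s Ext.none)

def k0_pp_012_s : ∃ t, chk3 f_pp_012_s t 1 1 1 = true :=
  ⟨(a (l 6) (l 6)), by decide +kernel⟩

theorem c_pp_012_s : CertNE 0 536870912 0 536870912 780900216 37827925 3 eng mog cd5q0 cd0q2 pd1 false true true .pnp 0 1 2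
    ndB5q0 ndB0q2 pcB1 cut_pp_012_s Ext.none :=
  certNE0 (fam := false) (s1 := true) (s2 := true) (a := 0) (b := 1) (c := 2) (cn := .pnp) (n1 := ndB5q0) (n2 := ndB0q2) (pc := pcB1) (cut := cut_pp_012_s) (xt := Ext.none) (P1 := 0) (W1 := 536870912) (P2 := 0) (W2 := 536870912) (P3 := 780900216) (W3 := 37827925) (N0 := 3) (En := eng) (mo := mog) (C1 := cd5q0) (C2 := cd0q2) (C3 := pd1)
    rfl k0_pp_012_s

noncomputable def cut_pp_022_s : Cut := Cut.of [[⟨4, 0, 0, 1449551462⟩]]

noncomputable def f_pp_022_s : ℕ → ℕ → ℕ → ℕ → Bool := onCell 1073741824 536870912 0 536870912 780900216 37827925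
    (rowNE 3 eng mog cd5q0 cd0q2 pd2 2 false true true .pp 0 2 2 (qsf 0 536870912 0 536870912 2) ndB5q0 ndB0q2 pcB2 cut_pp_022_s Ext.none)

def k0_pp_022_s : ∃ t, chk3 f_pp_022_s t 1 1 1 = true :=
  ⟨(l 6), by decide +kernel⟩

theorem c_pp_022_s : CertNE 0 536870912 0 536870912 780900216 37827925 3 eng mog cd5q0 cd0q2 pd2 false true true .pp 0 2 2
    ndB5q0 ndB0q2 pcB2 cut_pp_022_s Ext.none :=
  certNE2 (fam := false) (s1 := true) (s2 := true) (a := 0) (b := 2) (c := 2) (cn := .pp) (n1 := ndB5q0) (n2 := ndB0q2) (pc := pcB2) (cut := cut_pp_022_s) (xt := Ext.none) (P1 := 0) (W1 := 536870912) (P2 := 0) (W2 := 536870912) (P3 := 780900216) (W3 := 37827925) (N0 := 3) (En := eng) (mo := mog) (C1 := cd5q0) (C2 := cd0q2) (C3 := pd2)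
    rfl (fun _ => rfl) k0_pp_022_s

noncomputable def cut_pp_101_s : Cut := Cut.of [[⟨4, 0, 0, 1449551462⟩], [⟨0, 1, 0, 67108864⟩, ⟨1, 0, 0, 67108864⟩, ⟨2, 1, 0, 67108864⟩]]

noncomputable def f_pp_101_s : ℕ → ℕ → ℕ → ℕ → Bool := onCell 0 536870912 536870912 536870912 780900216 37827925
    (rowNE 3 eng mog cd5q1 cd0q1 pd0 2 false true true .npn 1 0 1 (qsf 536870912 536870912 536870912 536870912 0) ndB5q1 ndB0q1 pcB0 cut_pp_101_s Ext.none)

def k0_pp_101_s : ∃ t, chk3 f_pp_101_s t 2 2 1 = true :=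
  ⟨(l 3), by decide +kernel⟩

def k1_pp_101_s : ∃ t, chk3 f_pp_101_s t 4 6 1 = true :=
  ⟨(l 3), by decide +kernel⟩

def k2_pp_101_s : ∃ t, chk3 f_pp_101_s t 4 14 1 = true :=
  ⟨(a (l 3) (b (l 3) (a (l 3) (b (l 3) (a (l 3) (b (l 3) (a (b (l 3) (a (l 3) (b (l 3) (a (l 458655535367) (b (l 418390214935) (a (l 212768657735) (l 16775968))))))) (b (a (l 3) (b (a (l 3) (l 465634857623)) (b (a (l 3) (a (l 271824458679) (l 16776584))) (a (l 347523252535) (l 16774920))))) (a (a (a (b (l 3) (l 109689442055)) (b (l 405505313079) (l 16774312))) (b (b (l 370608702487) (l 16778408)) (l 16772112))) (b (l 16779216) (l 16757208))))))))))), by decide +kernel⟩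

def k3_pp_101_s : ∃ t, chk3 f_pp_101_s t 8 30 1 = true :=
  ⟨(a (l 3) (b (l 3) (a (l 3) (b (l 3) (a (l 3) (b (l 3) (a (l 3) (b (l 3) (b (a (l 3) (a (l 3) (b (l 461876758023) (a (l 365776863623) (l 130090534519))))) (b (a (l 3) (a (a (l 382956732967) (c (l 164450272919) (l 164450272903))) (l 16776032))) (a (a (l 3) (a (l 400136602311) (a (l 219747976807) (l 132774888711)))) (l 16777760)))))))))))), by decide +kernel⟩

def k4_pp_101_s : ∃ t, chk3 f_pp_101_s t 16 31 1 = true :=
  ⟨(b (b (l 3) (l 14)) (l 14)), by decide +kernel⟩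

def k5_pp_101_s : ∃ t, chk3 f_pp_101_s t 34 62 1 = true :=
  ⟨(b (a (l 3) (b (l 3) (a (l 3) (a (l 3) (b (l 3) (b (l 3) (b (a (l 3) (b (a (l 3) (l 397452247511)) (a (l 414095245847) (c (l 144586048423) (l 145659790231))))) (a (b (a (l 3) (l 425369535047)) (a (l 435033211527) (a (l 212231783351) (l 16776920)))) (b (a (a (l 198273139591) (l 16776880)) (l 16775080)) (l 16776104)))))))))) (b (b (a (l 3) (b (a (l 3) (a (b (a (l 3) (b (a (l 3) (l 445770629815)) (a (l 456508048103) (a (c (l 247128392599) (l 249275876247)) (l 16777328))))) (a (a (l 3) (b (l 3) (a (l 368461218007) (l 149954757463)))) (a (a (b (c (l 257865810903) (l 262697649095)) (l 16776768)) (l 99488891719)) (l 16776256)))) (b (a (b (b (a (c (l 219747976167) (l 221358588903)) (l 16776632)) (l 89288344471)) (l 16776192)) (l 16773872)) (l 16777232)))) (a (a (l 3) (a (a (l 3) (b (l 3) (b (l 3) (a (l 424295793079) (a (l 248739005255) (l 178945786535)))))) (a (b (l 3) (b (a (l 404968440199) (a (l 235854103303)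 (l 165524013671))) (l 16777408))) (b (b (l 3) (a (l 393157280071) (c (l 180019528519) (l 182167012151)))) (l 16777064))))) (b (a (a (a (b (a (l 379735507223) (l 175724561143)) (l 16776680)) (l 16776336)) (c (l 16774056) (l 16774024))) (l 16770752)) (c (l 16777424) (l 16777360)))))) (a (l 14) (a (b (b (b (a (l 3) (a (a (b (l 430201373143) (a (l 425906405671) (l 16777448))) (l 16777528)) (l 16774512))) (a (l 14) (a (a (l 101636375319) (l 16774872)) (l 16772584)))) (a (l 14) (l 16777560))) (a (l 14) (a (a (l 14) (l 16773416)) (l 16772432)))) (b (l 16775544) (a (l 16770464) (l 16767824)))))) (a (l 14) (b (a (a (l 14) (a (l 14) (l 16768736))) (a (l 16766760) (l 16764112))) (l 16772312))))), by decide +kernel⟩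

def k6_pp_101_s : ∃ t, chk3 f_pp_101_s t 35 248 1 = true :=
  ⟨(a (a (l 3) (b (l 3) (b (b (l 3) (b (l 3) (a (l 3) (a (l 3) (a (l 3) (l 367387476247)))))) (a (b (l 3) (a (l 3) (a (l 3) (l 434496340903)))) (b (b (a (l 3) (a (l 378124894567) (l 16776864))) (a (a (l 3) (l 389936054695)) (l 103783859207))) (a (a (b (l 400673473015) (l 145659790439)) (l 100562633879)) (l 16775664))))))) (a (b (b (b (l 3) (a (l 3) (a (l 3) (a (l 444160017383) (b (l 420537696823) (l 16777696)))))) (b (a (l 3) (a (a (l 461339886695) (b (l 447918113463) (l 184851367191))) (c (l 110226310503) (l 98415150487)))) (b (a (l 3) (a (a (l 197736269143) (l 16776560)) (l 16772936))) (a (a (l 3) (a (l 3) (l 215453009223))) (l 16776920))))) (a (b (b (b (a (l 3) (a (l 225653556647) (l 16776664))) (a (a (l 3) (l 241759684007)) (l 16776384))) (a (b (a (l 255181456839) (l 16776768)) (l 16777792)) (l 16772840))) (l 16776896)) (l 16776752))) (b (a (b (a (b (b (l 417316471607) (a (l 399599731175) (l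 16776944))) (l 93046441335)) (l 70497862743)) (l 16773840)) (l 16777616)) (a (c (l 16764952) (l 16764808)) (l 16767408))))), by decide +kernel⟩

def k7_pp_101_s : ∃ t, chk3 f_pp_101_s t 35 249 1 = true :=
  ⟨(b (b (a (a (l 3) (a (a (b (c (l 451139339703) (l 457581790631)) (b (a (l 456508048103) (c (l 181093270711) (l 181630141623))) (a (c (l 196125656247) (l 194515043543)) (l 16776552)))) (b (b (a (l 431811986039) (l 160692175975)) (a (l 171429594295) (l 16776456))) (l 16775864))) (l 16777096))) (c (l 16774400) (l 16774864))) (a (a (a (l 3) (a (b (l 3) (b (a (l 3) (a (l 399062860135) (l 192904430423))) (a (c (l 346449510551) (l 350744477847)) (l 16776736)))) (b (b (a (l 3) (a (l 278266905623) (l 16777728))) (a (a (l 292762420311) (l 178408915735)) (l 16776648))) (l 16777360)))) (a (a (l 16776648) (l 16771384)) (l 16769384))) (l 16770512))) (a (a (b (a (a (b (l 3) (b (a (l 3) (c (l 375440540007) (l 381346120023))) (a (c (l 385104216487) (l 391546667415)) (l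 120963728295)))) (b (b (a (l 3) (c (l 355039445223) (l 360945025239))) (a (c (l 365239992615) (l 371145572631)) (l 16777480))) (c (l 16777552) (l 82845893415)))) (c (c (l 16777520) (l 16777496)) (a (l 16777480) (l 16771552)))) (b (a (a (a (b (l 131164275703) (l 16775040)) (l 16774688)) (l 16772384)) (l 16770392)) (c (l 16775768) (l 16775688)))) (l 16774872)) (a (l 16759008) (l 16758808)))), by decide +kernel⟩

def k8_pp_101_s : ∃ t, chk3 f_pp_101_s t 35 125 1 = true :=
  ⟨(a (b (b (a (l 16775920) (c (l 16754304) (l 16754064))) (l 16770256)) (a (b (l 16760112) (l 16755136)) (l 16752232))) (b (a (l 16746296) (l 16751312)) (l 16723056))), by decide +kernel⟩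

def k9_pp_101_s : ∃ t, chk3 f_pp_101_s t 17 63 1 = true :=
  ⟨(b (a (b (a (l 14) (a (l 14) (l 16753040))) (l 14)) (a (b (a (l 16747656) (l 16741992)) (l 16714224)) (b (l 16712920) (l 16723912)))) (a (l 14) (a (l 16698800) (l 16708744)))), by decide +kernel⟩

def k10_pp_101_s : ∃ t, chk3 f_pp_101_s t 18 60 1 = true :=
  ⟨(a (l 3) (b (l 3) (a (l 3) (b (l 3) (b (a (l 3) (b (a (l 3) (a (l 3) (l 382956733463))) (b (a (l 3) (a (l 265918876839) (l 16776344))) (a (l 418927085143) (l 16775808))))) (a (a (l 3) (b (l 448991857383) (a (b (l 454360565159) (l 192904432423)) (l 114521279303)))) (b (a (a (a (l 366313734727) (l 186998852727)) (l 16776048)) (l 16773952)) (l 16778128)))))))), by decide +kernel⟩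

def k11_pp_101_s : ∃ t, chk3 f_pp_101_s t 36 61 1 = true :=
  ⟨(b (a (l 3) (b (l 3) (a (b (l 3) (a (l 3) (a (l 3) (b (l 3) (l 440938792839))))) (b (b (l 3) (a (l 3) (a (l 3) (a (l 449528727175) (l 374366798551))))) (b (b (a (l 3) (a (l 372756185687) (l 16776408))) (a (a (l 3) (l 387788571431)) (l 91435829255))) (a (a (b (l 403894698983) (l 132238018791)) (l 96804538615)) (l 16774016))))))) (b (a (a (l 3) (b (l 3) (b (a (l 3) (b (a (l 3) (a (l 404968440567) (l 190220076919))) (a (a (l 436106953623) (l 211158042631)) (l 16776280)))) (b (a (a (l 3) (a (l 457044919351) (l 236390975543))) (l 81235281799)) (a (a (a (l 3) (l 359871283527)) (l 107541956279)) (l 16774496)))))) (a (b (b (b (a (l 3) (a (l 445233759575) (a (l 214916139047) (l 16776632)))) (a (l 461339887895) (a (a (l 241759684695) (l 16776760)) (l 16775752)))) (a (b (a (l 3) (a (l 267529488519) (l 16776880))) (a (a (l 385641087543) (l 165524014919)) (l 16776024))) (l 16774584))) (c (l 16778184) (a (l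 16776192) (l 16765536)))) (c (l 16777144) (l 16777616)))) (a (a (b (b (a (l 3) (b (a (l 3) (a (l 3) (l 378124894711))) (a (a (l 3) (l 396915376807)) (a (l 177872046023) (l 16776448))))) (b (a (a (l 3) (l 433959470311)) (b (a (a (l 291688678903) (l 16776872)) (l 16775864)) (l 16777888))) (a (a (l 448991855991) (a (a (l 266992617223) (l 191830689303)) (l 16776680))) (l 16775000)))) (b (a (a (a (b (l 348596994263) (l 16776256)) (l 93046441479)) (l 16775176)) (c (l 16770560) (l 16770472))) (l 16777264))) (b (b (a (a (a (a (l 115595019975) (l 16776208)) (l 16775712)) (l 16772064)) (l 16767392)) (l 16776760)) (a (l 16763920) (l 16766416)))) (c (l 16772640) (l 16772304))))), by decide +kernel⟩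

def k12_pp_101_s : ∃ t, chk3 f_pp_101_s t 37 61 1 = true :=
  ⟨(b (a (b (b (b (l 3) (a (l 3) (a (l 3) (a (l 401747215735) (b (l 255181458551) (l 16776432)))))) (b (a (l 3) (a (a (l 435033212695) (a (l 356113187239) (l 177872046407))) (l 16778384))) (a (a (l 3) (a (l 460266145943) (b (l 438254437639) (l 178945788503)))) (a (a (l 108615699047) (l 16774904)) (l 16767552))))) (a (b (b (b (a (l 3) (a (l 194515045175) (l 16775832))) (a (a (l 3) (l 216526752567)) (l 16775288))) (a (b (a (a (l 405505311463) (l 16777752)) (l 16776128)) (l 16775584)) (l 16768184))) (l 16776336)) (l 16775832))) (b (a (b (b (a (a (a (l 426980148695) (l 362018767367)) (a (l 183240756279) (l 16776368))) (l 16774632)) (l 49559898743)) (l 16769808)) (l 16777112)) (l 16769944))) (b (a (l 16772576) (a (l 16752264) (l 16746504))) (c (l 16755904) (l 16760368)))), by decide +kernel⟩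

def k13_pp_101_s : ∃ t, chk3 f_pp_101_s t 19 30 1 = true :=
  ⟨(b (a (a (b (l 3) (b (a (b (l 3) (b (a (l 3) (a (l 447918114775) (a (l 368461218391) (l 188072594583)))) (a (a (l 3) (l 358260670983)) (c (l 16778336) (l 95193926391))))) (b (b (a (l 3) (a (l 381882991607) (l 132774890919))) (a (a (l 409263408647) (a (l 222432333351) (l 16776712))) (l 16774992))) (a (l 71034735191) (l 16766024)))) (b (b (a (a (c (l 114521279959) (a (l 134922374279) (l 16775360))) (l 16768008)) (l 16758472)) (l 16778496)) (l 16776056)))) (a (b (b (l 3) (b (a (l 3) (a (l 3) (l 425369537383))) (b (a (l 448454986471) (a (l 211694915895) (l 16775976))) (a (a (l 355039445431) (l 16778952)) (l 16774240))))) (b (c (l 16774800) (l 16774600)) (l 16748968))) (b (b (a (l 3) (b (l 3) (a (l 464024243863) (b (l 3) (l 235317236087))))) (b (a (a (b (l 3) (l 183240757111)) (b (l 374366798679) (l 16775600))) (c (l 16778608) (l 80698412263))) (l 16771160))) (l 16769152)))) (b (a (b (a (b (a (l 3)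 (a (l 417853344391) (b (l 3) (l 141364825335)))) (a (b (a (l 422685181655) (l 197199401127)) (l 16775480)) (l 16773848))) (b (a (a (b (l 249275880119) (l 16775400)) (l 16777768)) (l 16773000)) (l 16769480))) (c (l 16775552) (l 16775232))) (c (l 16774096) (l 16776216))) (b (c (l 16759768) (l 16764248)) (a (l 16744720) (l 16732728))))) (b (a (b (a (a (b (l 16763416) (l 16758384)) (l 16755144)) (l 16725464)) (l 16757824)) (a (l 16708416) (l 16717296))) (a (a (b (l 16737792) (l 16727672)) (l 16721016)) (a (l 16708856) (l 16696384))))), by decide +kernel⟩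

def k14_pp_101_s : ∃ t, chk3 f_pp_101_s t 9 31 1 = true :=
  ⟨(a (b (a (b (b (a (b (c (l 16773544) (l 16773296)) (a (l 16752832) (l 16757808))) (a (l 16754760) (l 16749168))) (c (l 16766168) (l 16766176))) (a (b (l 16743016) (l 16732624)) (b (l 16731784) (l 16721608)))) (b (l 16753400) (a (b (l 16720072) (l 16710552)) (l 16704264)))) (b (a (a (b (l 16723128) (l 16712768)) (l 16706552)) (l 16689448)) (a (l 16670960) (l 16669160)))) (a (b (b (b (l 16711624) (l 16680296)) (l 16665792)) (b (l 16666256) (l 16646024))) (b (b (b (l 16687320) (l 16677432)) (l 16662360)) (l 16632200)))), by decide +kernel⟩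

def k15_pp_101_s : ∃ t, chk3 f_pp_101_s t 5 6 1 = true :=
  ⟨(a (l 3) (b (l 3) (b (l 3) (a (b (l 3) (a (l 3) (b (l 3) (a (l 3) (b (l 3) (a (l 3) (b (l 511805747943) (l 190756955415)))))))) (b (a (l 3) (b (a (l 3) (l 532743708311)) (a (b (l 3) (a (l 538649288103) (b (l 489794039575) (l 173577085319)))) (b (a (l 453286816695) (b (l 211158050967) (l 16772944))) (a (l 16772336) (l 16755752)))))) (a (b (a (l 3) (b (l 499457711959) (a (b (l 506973908967) (l 186461987879)) (l 97878285383)))) (a (b (a (l 474761653991) (b (l 236390985207) (l 16773648))) (a (l 97878285511) (l 16766872))) (l 16772744))) (b (a (b (a (b (l 227264179191) (l 16773416)) (l 16769552)) (l 16763608)) (l 16755840)) (l 16764904)))))))), by decide +kernel⟩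

def k16_pp_101_s : ∃ t, chk3 f_pp_101_s t 10 28 1 = true :=
  ⟨(a (l 3) (b (l 3) (a (b (l 3) (a (l 3) (b (l 3) (a (b (l 3) (a (l 3) (l 376514283479))) (b (a (l 476909145735) (l 213305531687)) (a (l 126869312919) (l 16773032))))))) (b (a (b (l 3) (a (l 3) (l 491941530823))) (b (a (l 3) (b (l 3) (a (l 496236495495) (l 199883759175)))) (a (b (l 415168988087) (a (l 184851372967) (l 16773968))) (l 69960996919)))) (a (b (a (b (l 3) (a (l 411410892599) (l 164987148615))) (b (a (l 235317240919) (l 16775200)) (l 16772048))) (a (l 16776168) (l 16754512))) (l 16776488)))))), by decide +kernel⟩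

def k17_pp_101_s : ∃ t, chk3 f_pp_101_s t 10 29 1 = true :=
  ⟨(a (b (a (l 3) (b (a (l 3) (b (l 3) (a (l 3) (b (l 3) (a (l 456508051991) (l 327659026999)))))) (a (b (a (l 3) (b (l 3) (a (l 3) (l 414095248791)))) (a (b (l 466708601495) (a (c (l 381346121815) (l 385104218151)) (a (l 180019532199) (l 16775352)))) (b (a (a (l 384030476039) (l 200420627463)) (l 16778944)) (l 16771680)))) (b (a (a (b (l 3) (b (l 246054657015) (l 16775704))) (b (l 371145572791) (l 16773992))) (a (b (l 119889991127) (l 16760584)) (l 16770544))) (l 16775768))))) (a (a (b (b (l 3) (a (b (l 3) (a (l 3) (c (l 422685183479) (l 427517021655)))) (b (a (l 3) (a (l 440401923367) (l 369534960807))) (a (b (l 378661766407) (l 16778544)) (l 16774248))))) (b (a (b (a (a (l 389936056135) (b (l 422148310743) (l 16776168))) (c (l 16779112) (l 97878282151))) (l 16771744)) (l 16778800)) (l 16771800))) (b (b (a (a (l 3) (b (l 3) (b (l 443086277319) (l 184851371111)))) (a (b (l 422685183543) (l 101099508039))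 (b (a (l 344302027079) (l 131701150663)) (l 16772272)))) (a (a (b (a (a (l 203104981479) (l 134385504743)) (l 16775448)) (l 16760816)) (l 16770808)) (l 16766360))) (l 16775400))) (a (a (b (b (b (l 16777960) (l 16757336)) (l 16749944)) (l 16724576)) (b (l 16769920) (l 16739656))) (c (l 16772800) (l 16769272))))) (b (a (b (a (b (a (l 3) (b (l 445770635127) (a (l 352891962375) (l 16775344)))) (a (b (a (l 397989120903) (c (l 170355858183) (l 168208373159))) (l 70497867031)) (l 16769800))) (a (b (b (a (c (l 191293824295) (l 190220082423)) (l 16774224)) (l 16770992)) (l 16753416)) (l 16773200))) (b (a (l 16773744) (l 16730480)) (l 16763544))) (b (l 16773408) (a (l 16713824) (l 16722872)))) (b (a (l 16754216) (l 16688568)) (c (l 16739192) (l 16739992))))), by decide +kernel⟩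

def k18_pp_101_s : ∃ t, chk3 f_pp_101_s t 11 14 1 = true :=
  ⟨(b (a (b (a (b (l 3) (a (b (l 3) (a (l 542407392983) (b (l 471003561399) (a (l 213305532455) (l 16774624))))) (b (a (b (l 3) (l 394231020871)) (b (a (l 446844370055) (l 16776344)) (l 16773368))) (a (l 84993383351) (l 16755976))))) (b (a (b (a (l 3) (l 462413624295)) (a (b (l 501605201847) (l 176261440663)) (l 96267672887))) (b (a (b (a (l 481204107527) (l 16776552)) (l 16773640)) (l 16769912)) (l 16763800))) (a (l 16772552) (b (l 16733672) (l 16745448))))) (a (b (a (b (a (b (a (l 404431568935) (l 16775896)) (l 16772840)) (l 16769184)) (l 16762864)) (l 16755536)) (l 16763800)) (c (l 16760168) (l 16759272)))) (b (b (a (l 16776416) (a (l 16731912) (l 16719744))) (c (l 16758304) (l 16758584))) (c (l 16737504) (l 16733320)))) (a (a (a (b (b (l 16729960) (l 16710944)) (l 16681920)) (a (l 16734296) (l 16717872))) (b (b (l 16700160) (l 16681224)) (l 16652376))) (b (a (l 16666912) (l 16643088)) (a (l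 16628248) (l 16605616))))), by decide +kernel⟩

def k19_pp_101_s : ∃ t, chk3 f_pp_101_s t 5 15 1 = true :=
  ⟨(a (b (a (b (b (a (c (l 16761728) (l 16760736)) (a (l 16722544) (l 16711048))) (a (a (l 16725864) (l 16713984)) (l 16696560))) (a (b (l 16699304) (l 16678472)) (b (l 16675672) (l 16656368)))) (b (a (b (l 16693712) (l 16673504)) (b (l 16669736) (l 16649040))) (a (b (l 16653312) (l 16632632)) (l 16618560)))) (a (b (a (l 16648408) (l 16625416)) (a (l 16608336) (l 16584888))) (b (a (l 16601824) (l 16576488)) (l 16526744)))) (b (a (b (a (l 16656976) (l 16613488)) (l 16583000)) (b (l 16578688) (l 16538520))) (a (b (l 16541096) (l 16499056)) (b (l 16497400) (l 16454960))))), by decide +kernel⟩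

def k20_pp_101_s : ∃ t, chk3 f_pp_101_s t 3 2 1 = true :=
  ⟨(a (l 3) (l 1)), by decide +kernel⟩

def k21_pp_101_s : ∃ t, chk3 f_pp_101_s t 12 6 1 = true :=
  ⟨(b (b (l 3) (a (l 3) (b (l 3) (a (l 3) (b (l 3) (a (b (l 3) (l 503752672023)) (b (a (l 3) (a (l 485499069943) (l 1))) (a (b (l 434496335943) (l 145122925511)) (l 16771600))))))))) (b (a (b (l 3) (a (b (l 3) (a (l 3) (b (l 3) (a (l 509658258999) (b (l 405505307783) (l 16774800)))))) (b (a (b (l 3) (l 501605191799)) (b (a (l 3) (b (l 479593491271) (l 171429601543))) (a (b (l 235317243191) (l 16773792)) (l 16769800)))) (a (b (a (b (l 512342615303) (l 211694921911)) (b (l 146733538439) (l 16771272))) (l 16778248)) (l 16780736))))) (b (a (b (a (l 3) (b (l 3) (a (l 3) (b (l 495699617079) (l 204178728551))))) (a (b (l 502142060471) (a (l 435570076103) (b (l 189683213351) (l 16772584)))) (b (a (b (l 401210340343) (l 16774896)) (l 16770936)) (l 16765496)))) (b (a (b (a (l 465097974903) (b (a (l 298131103831)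 (l 16775984)) (l 16773408))) (a (b (l 137069861479) (l 16771160)) (l 16767152))) (l 16777944)) (b (l 16776680) (l 16768232)))) (a (b (a (b (a (l 16772256) (l 16766120)) (l 16760536)) (l 16752624)) (l 16762360)) (c (l 16747240) (l 16746520))))) (a (b (a (b (a (b (a (l 3) (l 426443271623)) (a (b (l 458118656151) (l 152102247783)) (l 16771720))) (b (a (b (l 184851374983) (l 16772224)) (l 16768248)) (l 16762472))) (c (l 16776448) (l 16776096))) (c (l 16771288) (l 16770680))) (a (l 16759936) (a (l 16668272) (l 16698128)))) (b (b (c (l 16743944) (l 16742952)) (a (l 16706536) (l 16682864))) (a (l 16680240) (l 16656848)))))), by decide +kernel⟩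

def k22_pp_101_s : ∃ t, chk3 f_pp_101_s t 13 6 1 = true :=
  ⟨(b (b (l 1) (a (a (b (l 1) (b (l 1) (b (l 1) (l 16774920)))) (l 1)) (l 1))) (b (a (b (a (a (l 16762808) (l 16729952)) (l 16733304)) (a (b (l 16689704) (l 16693672)) (l 16636864))) (b (l 1) (l 366715970967))) (a (b (a (l 16668064) (l 16644928)) (a (l 16633752) (l 16610936))) (b (l 16631256) (l 16576736))))), by decide +kernel⟩

def k23_pp_101_s : ∃ t, chk3 f_pp_101_s t 7 6 1 = true :=
  ⟨(a (b (l 1) (b (l 1) (a (b (l 1) (l 16531352)) (l 1)))) (l 1)), by decide +kernel⟩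

def k24_pp_101_s : ∃ t, chk3 f_pp_101_s t 3 7 1 = true :=
  ⟨(a (b (a (b (a (a (b (b (l 16701552) (l 16683480)) (l 16656160)) (b (l 16668536) (l 16632544))) (b (a (l 16645016) (l 16621944)) (l 16639152))) (b (a (a (l 16619064) (l 16595744)) (a (l 16573624) (l 16551136))) (a (l 16613568) (l 16525680)))) (b (a (b (l 16608384) (l 16553232)) (b (l 16543104) (l 16508800))) (a (l 16499480) (l 16456864)))) (a (b (a (b (l 16533392) (l 16495032)) (l 16450056)) (a (l 16434904) (l 16394664))) (b (a (l 16429032) (l 16389016)) (a (l 16355960) (l 16318304))))) (b (a (b (a (l 16482400) (l 16439528)) (a (l 16415480) (l 16375512))) (b (l 1) (l 16317728))) (b (a (l 16395296) (l 16261920)) (a (l 16413264) (l 6))))), by decide +kernel⟩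

theorem s25_pp_101_s : ∃ t, chk3 f_pp_101_s t 6 6 1 = true := ex3_a k21_pp_101_s k22_pp_101_s

theorem s26_pp_101_s : ∃ t, chk3 f_pp_101_s t 3 6 1 = true := ex3_a s25_pp_101_s k23_pp_101_s

theorem s27_pp_101_s : ∃ t, chk3 f_pp_101_s t 3 3 1 = true := ex3_b s26_pp_101_s k24_pp_101_s

theorem s28_pp_101_s : ∃ t, chk3 f_pp_101_s t 3 1 1 = true := ex3_b k20_pp_101_s s27_pp_101_s

theorem s29_pp_101_s : ∃ t, chk3 f_pp_101_s t 10 14 1 = true := ex3_b k16_pp_101_s k17_pp_101_s

theorem s30_pp_101_s : ∃ t, chk3 f_pp_101_s t 5 14 1 = true := ex3_a s29_pp_101_s k18_pp_101_s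

theorem s31_pp_101_s : ∃ t, chk3 f_pp_101_s t 5 7 1 = true := ex3_b s30_pp_101_s k19_pp_101_s

theorem s32_pp_101_s : ∃ t, chk3 f_pp_101_s t 5 3 1 = true := ex3_b k15_pp_101_s s31_pp_101_s

theorem s33_pp_101_s : ∃ t, chk3 f_pp_101_s t 18 61 1 = true := ex3_a k11_pp_101_s k12_pp_101_s

theorem s34_pp_101_s : ∃ t, chk3 f_pp_101_s t 18 30 1 = true := ex3_b k10_pp_101_s s33_pp_101_s

theorem s35_pp_101_s : ∃ t, chk3 f_pp_101_s t 9 30 1 = true := ex3_a s34_pp_101_s k13_pp_101_s

theorem s36_pp_101_s : ∃ t, chk3 f_pp_101_s t 9 15 1 = true := ex3_b s35_pp_101_s k14_pp_101_s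

theorem s37_pp_101_s : ∃ t, chk3 f_pp_101_s t 35 124 1 = true := ex3_b k6_pp_101_s k7_pp_101_s

theorem s38_pp_101_s : ∃ t, chk3 f_pp_101_s t 35 62 1 = true := ex3_b s37_pp_101_s k8_pp_101_s

theorem s39_pp_101_s : ∃ t, chk3 f_pp_101_s t 17 62 1 = true := ex3_a k5_pp_101_s s38_pp_101_s

theorem s40_pp_101_s : ∃ t, chk3 f_pp_101_s t 17 31 1 = true := ex3_b s39_pp_101_s k9_pp_101_s

theorem s41_pp_101_s : ∃ t, chk3 f_pp_101_s t 8 31 1 = true := ex3_a k4_pp_101_s s40_pp_101_s

theorem s42_pp_101_s : ∃ t, chk3 f_pp_101_s t 8 15 1 = true := ex3_b k3_pp_101_s s41_pp_101_s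

theorem s43_pp_101_s : ∃ t, chk3 f_pp_101_s t 4 15 1 = true := ex3_a s42_pp_101_s s36_pp_101_s

theorem s44_pp_101_s : ∃ t, chk3 f_pp_101_s t 4 7 1 = true := ex3_b k2_pp_101_s s43_pp_101_s

theorem s45_pp_101_s : ∃ t, chk3 f_pp_101_s t 4 3 1 = true := ex3_b k1_pp_101_s s44_pp_101_s

theorem s46_pp_101_s : ∃ t, chk3 f_pp_101_s t 2 3 1 = true := ex3_a s45_pp_101_s s32_pp_101_s

theorem s47_pp_101_s : ∃ t, chk3 f_pp_101_s t 2 1 1 = true := ex3_b k0_pp_101_s s46_pp_101_s

theorem s48_pp_101_s : ∃ t, chk3 f_pp_101_s t 1 1 1 = true := ex3_a s47_pp_101_s s28_pp_101_s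

theorem c_pp_101_s : CertNE 536870912 536870912 536870912 536870912 780900216 37827925 3 eng mog cd5q1 cd0q1 pd0 false true true .npn 1 0 1
    ndB5q1 ndB0q1 pcB0 cut_pp_101_s Ext.none :=
  certNE2 (fam := false) (s1 := true) (s2 := true) (a := 1) (b := 0) (c := 1) (cn := .npn) (n1 := ndB5q1) (n2 := ndB0q1) (pc := pcB0) (cut := cut_pp_101_s) (xt := Ext.none) (P1 := 536870912) (W1 := 536870912) (P2 := 536870912) (W2 := 536870912) (P3 := 780900216) (W3 := 37827925) (N0 := 3) (En := eng) (mo := mog) (C1 := cd5q1) (C2 := cd0q1) (C3 := pd0)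
    rfl (fun _ => rfl) s48_pp_101_s

noncomputable def cut_pp_102_s : Cut := Cut.of [[⟨4, 0, 0, 1449551462⟩], [⟨0, 1, 0, 67108864⟩, ⟨1, 0, 0, 67108864⟩, ⟨2, 1, 0, 67108864⟩]]

noncomputable def f_pp_102_s : ℕ → ℕ → ℕ → ℕ → Bool := onCell 536870912 536870912 0 536870912 780900216 37827925
    (rowNE 3 eng mog cd5q1 cd0q2 pd0 0 false true true .npp 1 0 2 (qsf 536870912 536870912 0 536870912 0) ndB5q1 ndB0q2 pcB0 cut_pp_102_s Ext.none)

def k0_pp_102_s : ∃ t, chk3 f_pp_102_s t 1 1 1 = true :=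
  ⟨(b (l 6) (a (b (l 6) (a (l 6) (b (l 6) (a (b (l 6) (l 16268304)) (b (l 16261328) (a (l 16318160) (b (l 16332136) (l 16372088)))))))) (a (b (l 6) (b (a (a (l 6) (l 16470256)) (b (a (l 6) (l 16232208)) (a (l 16283984) (l 16320608)))) (a (a (b (l 16304392) (l 16388296)) (b (b (l 16314272) (l 16357592)) (b (l 16404480) (l 16452640)))) (b (a (l 16374104) (l 16417816)) (a (b (l 16448864) (l 16500440)) (b (l 16496216) (l 16549136))))))) (b (b (l 6) (a (a (l 6) (l 16163904)) (a (b (l 6) (l 16231552)) (b (l 16162112) (l 16254568))))) (b (a (b (a (l 16266152) (l 16298824)) (a (l 16360128) (l 16395648))) (a (b (l 16327848) (l 16491928)) (b (a (l 16348888) (l 16362216)) (a (l 16453248) (l 16510552))))) (a (b (a (b (l 16434232) (l 16485728)) (l 16497880)) (a (b (l 16518960) (l 16636960)) (b (b (l 16567672) (l 16575536)) (a (l 16629304) (b (l 16636496) (l 16666496)))))) (b (a (b (l 16508560) (l 16543440)) (a (b (l 16534992) (l 14)) (l 14))) (a (b (a (b (l 16598240)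 (l 16628304)) (l 16633008)) (a (b (l 16657696) (l 16646608)) (l 14))) (l 14))))))))), by decide +kernel⟩

theorem c_pp_102_s : CertNE 536870912 536870912 0 536870912 780900216 37827925 3 eng mog cd5q1 cd0q2 pd0 false true true .npp 1 0 2
    ndB5q1 ndB0q2 pcB0 cut_pp_102_s Ext.none :=
  certNE0 (fam := false) (s1 := true) (s2 := true) (a := 1) (b := 0) (c := 2) (cn := .npp) (n1 := ndB5q1) (n2 := ndB0q2) (pc := pcB0) (cut := cut_pp_102_s) (xt := Ext.none) (P1 := 536870912) (W1 := 536870912) (P2 := 0) (W2 := 536870912) (P3 := 780900216) (W3 := 37827925) (N0 := 3) (En := eng) (mo := mog) (C1 := cd5q1) (C2 := cd0q2) (C3 := pd0)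
    rfl k0_pp_102_s

noncomputable def cut_pp_112_s : Cut := Cut.of [[⟨4, 0, 0, 1449551462⟩]]

noncomputable def f_pp_112_s : ℕ → ℕ → ℕ → ℕ → Bool := onCell 536870912 536870912 0 536870912 780900216 37827925
    (rowNE 3 eng mog cd5q1 cd0q2 pd1 2 false true true .dn 1 1 2 (qsf 536870912 536870912 0 536870912 1) ndB5q1 ndB0q2 pcB1 cut_pp_112_s Ext.none)

def k0_pp_112_s : ∃ t, chk3 f_pp_112_s t 1 1 1 = true :=
  ⟨(b (l 6) (l 6)), by decide +kernel⟩

theorem c_pp_112_s : CertNE 536870912 536870912 0 536870912 780900216 37827925 3 eng mog cd5q1 cd0q2 pd1 false true true .dn 1 1 2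
    ndB5q1 ndB0q2 pcB1 cut_pp_112_s Ext.none :=
  certNE2 (fam := false) (s1 := true) (s2 := true) (a := 1) (b := 1) (c := 2) (cn := .dn) (n1 := ndB5q1) (n2 := ndB0q2) (pc := pcB1) (cut := cut_pp_112_s) (xt := Ext.none) (P1 := 536870912) (W1 := 536870912) (P2 := 0) (W2 := 536870912) (P3 := 780900216) (W3 := 37827925) (N0 := 3) (En := eng) (mo := mog) (C1 := cd5q1) (C2 := cd0q2) (C3 := pd1)
    rfl (fun _ => rfl) k0_pp_112_s

noncomputable def cut_pp_202_s : Cut := Cut.of [[⟨4, 0, 0, 1449551462⟩], [⟨0, 1, 0, 67108864⟩, ⟨1, 0, 0, 67108864⟩, ⟨2, 1, 0, 67108864⟩]]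

noncomputable def f_pp_202_s : ℕ → ℕ → ℕ → ℕ → Bool := onCell 0 536870912 0 536870912 780900216 37827925
    (rowNE 3 eng mog cd5q2 cd0q2 pd0 2 false true true .pp 2 0 2 (qsf 1073741824 536870912 0 536870912 0) ndB5q2 ndB0q2 pcB0 cut_pp_202_s Ext.none)

def k0_pp_202_s : ∃ t, chk3 f_pp_202_s t 1 1 1 = true :=
  ⟨(a (b (a (l 6) (l 6)) (b (a (a (b (a (b (l 16373768) (l 16419472)) (b (l 6) (l 16315048))) (a (b (l 16462704) (l 16505664)) (b (l 16352056) (l 16391896)))) (b (l 6) (a (b (l 16225800) (l 16262480)) (l 404833105127)))) (l 1)) (a (a (b (b (a (a (l 16579040) (l 16524352)) (a (l 16465672) (l 16403040))) (a (l 14) (a (l 14) (l 16464016)))) (a (l 14) (a (l 14) (l 1)))) (b (b (a (l 16322552) (l 1)) (l 1)) (l 1))) (l 1)))) (l 1)), by decide +kernel⟩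

theorem c_pp_202_s : CertNE 1073741824 536870912 0 536870912 780900216 37827925 3 eng mog cd5q2 cd0q2 pd0 false true true .pp 2 0 2
    ndB5q2 ndB0q2 pcB0 cut_pp_202_s Ext.none :=
  certNE2 (fam := false) (s1 := true) (s2 := true) (a := 2) (b := 0) (c := 2) (cn := .pp) (n1 := ndB5q2) (n2 := ndB0q2) (pc := pcB0) (cut := cut_pp_202_s) (xt := Ext.none) (P1 := 1073741824) (W1 := 536870912) (P2 := 0) (W2 := 536870912) (P3 := 780900216) (W3 := 37827925) (N0 := 3) (En := eng) (mo := mog) (C1 := cd5q2) (C2 := cd0q2) (C3 := pd0)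
    rfl (fun _ => rfl) k0_pp_202_s

noncomputable def cut_pm_001_s : Cut := Cut.of [[⟨4, 0, 0, 1449551462⟩]]

noncomputable def f_pm_001_s : ℕ → ℕ → ℕ → ℕ → Bool := onCell 0 536870912 536870912 536870912 780900216 37827925
    (rowNE 3 eng mog cd5q0 cd0q1 pd0 0 false true false .up 0 0 1 (qsf 0 536870912 536870912 536870912 0) ndB5q0 ndB0q1 pcB0 cut_pm_001_s Ext.none)

def k0_pm_001_s : ∃ t, chk3 f_pm_001_s t 1 1 1 = true :=
  ⟨(l 4), by decide +kernel⟩

theorem c_pm_001_s : CertNE 0 536870912 536870912 536870912 780900216 37827925 3 eng mog cd5q0 cd0q1 pd0 false true false .up 0 0 1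
    ndB5q0 ndB0q1 pcB0 cut_pm_001_s Ext.none :=
  certNE0 (fam := false) (s1 := true) (s2 := false) (a := 0) (b := 0) (c := 1) (cn := .up) (n1 := ndB5q0) (n2 := ndB0q1) (pc := pcB0) (cut := cut_pm_001_s) (xt := Ext.none) (P1 := 0) (W1 := 536870912) (P2 := 536870912) (W2 := 536870912) (P3 := 780900216) (W3 := 37827925) (N0 := 3) (En := eng) (mo := mog) (C1 := cd5q0) (C2 := cd0q1) (C3 := pd0)
    rfl k0_pm_001_s

noncomputable def cut_pm_011_s : Cut := Cut.of [[⟨4, 0, 0, 1449551462⟩]]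

noncomputable def f_pm_011_s : ℕ → ℕ → ℕ → ℕ → Bool := onCell 0 536870912 536870912 536870912 780900216 37827925
    (rowNE 3 eng mog cd5q0 cd0q1 pd1 0 false true false .pnn 0 1 1 (qsf 0 536870912 536870912 536870912 1) ndB5q0 ndB0q1 pcB1 cut_pm_011_s Ext.none)

def k0_pm_011_s : ∃ t, chk3 f_pm_011_s t 1 1 1 = true :=
  ⟨(l 4), by decide +kernel⟩

theorem c_pm_011_s : CertNE 0 536870912 536870912 536870912 780900216 37827925 3 eng mog cd5q0 cd0q1 pd1 false true false .pnn 0 1 1
    ndB5q0 ndB0q1 pcB1 cut_pm_011_s Ext.none :=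
  certNE0 (fam := false) (s1 := true) (s2 := false) (a := 0) (b := 1) (c := 1) (cn := .pnn) (n1 := ndB5q0) (n2 := ndB0q1) (pc := pcB1) (cut := cut_pm_011_s) (xt := Ext.none) (P1 := 0) (W1 := 536870912) (P2 := 536870912) (W2 := 536870912) (P3 := 780900216) (W3 := 37827925) (N0 := 3) (En := eng) (mo := mog) (C1 := cd5q0) (C2 := cd0q1) (C3 := pd1)
    rfl k0_pm_011_s

noncomputable def cut_pm_012_s : Cut := Cut.of [[⟨4, 0, 0, 1449551462⟩]]

noncomputable def f_pm_012_s : ℕ → ℕ → ℕ → ℕ → Bool := onCell 0 536870912 0 536870912 780900216 37827925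
    (rowNE 3 eng mog cd5q0 cd0q2 pd1 0 false true false .pnp 0 1 2 (qsf 0 536870912 0 536870912 1) ndB5q0 ndB0q2 pcB1 cut_pm_012_s Ext.none)

def k0_pm_012_s : ∃ t, chk3 f_pm_012_s t 1 1 1 = true :=
  ⟨(l 6), by decide +kernel⟩

theorem c_pm_012_s : CertNE 0 536870912 0 536870912 780900216 37827925 3 eng mog cd5q0 cd0q2 pd1 false true false .pnp 0 1 2
    ndB5q0 ndB0q2 pcB1 cut_pm_012_s Ext.none :=
  certNE0 (fam := false) (s1 := true) (s2 := false) (a := 0) (b := 1) (c := 2) (cn := .pnp) (n1 := ndB5q0) (n2 := ndB0q2) (pc := pcB1) (cut := cut_pm_012_s) (xt := Ext.none) (P1 := 0) (W1 := 536870912) (P2 := 0) (W2 := 536870912) (P3 := 780900216) (W3 := 37827925) (N0 := 3) (En := eng) (mo := mog) (C1 := cd5q0) (C2 := cd0q2) (C3 := pd1)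
    rfl k0_pm_012_s

noncomputable def cut_pm_022_s : Cut := Cut.of [[⟨4, 0, 0, 1449551462⟩]]

noncomputable def f_pm_022_s : ℕ → ℕ → ℕ → ℕ → Bool := onCell 0 536870912 0 536870912 780900216 37827925
    (rowNE 3 eng mog cd5q0 cd0q2 pd2 0 false true false .pp 0 2 2 (qsf 0 536870912 0 536870912 2) ndB5q0 ndB0q2 pcB2 cut_pm_022_s Ext.none)

def k0_pm_022_s : ∃ t, chk3 f_pm_022_s t 1 1 1 = true :=
  ⟨(l 6), by decide +kernel⟩

theorem c_pm_022_s : CertNE 0 536870912 0 536870912 780900216 37827925 3 eng mog cd5q0 cd0q2 pd2 false true false .pp 0 2 2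
    ndB5q0 ndB0q2 pcB2 cut_pm_022_s Ext.none :=
  certNE0 (fam := false) (s1 := true) (s2 := false) (a := 0) (b := 2) (c := 2) (cn := .pp) (n1 := ndB5q0) (n2 := ndB0q2) (pc := pcB2) (cut := cut_pm_022_s) (xt := Ext.none) (P1 := 0) (W1 := 536870912) (P2 := 0) (W2 := 536870912) (P3 := 780900216) (W3 := 37827925) (N0 := 3) (En := eng) (mo := mog) (C1 := cd5q0) (C2 := cd0q2) (C3 := pd2)
    rfl k0_pm_022_s

noncomputable def cut_pm_101_s : Cut := Cut.of [[⟨4, 0, 0, 1449551462⟩]]

noncomputable def f_pm_101_s : ℕ → ℕ → ℕ → ℕ → Bool := onCell 536870912 536870912 536870912 536870912 780900216 37827925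
    (rowNE 3 eng mog cd5q1 cd0q1 pd0 0 false true false .npn 1 0 1 (qsf 536870912 536870912 536870912 536870912 0) ndB5q1 ndB0q1 pcB0 cut_pm_101_s Ext.none)

def k0_pm_101_s : ∃ t, chk3 f_pm_101_s t 1 1 1 = true :=
  ⟨(l 4), by decide +kernel⟩

theorem c_pm_101_s : CertNE 536870912 536870912 536870912 536870912 780900216 37827925 3 eng mog cd5q1 cd0q1 pd0 false true false .npn 1 0 1
    ndB5q1 ndB0q1 pcB0 cut_pm_101_s Ext.none :=
  certNE0 (fam := false) (s1 := true) (s2 := false) (a := 1) (b := 0) (c := 1) (cn := .npn) (n1 := ndB5q1) (n2 := ndB0q1) (pc := pcB0) (cut := cut_pm_101_s) (xt := Ext.none) (P1 := 536870912) (W1 := 536870912) (P2 := 536870912) (W2 := 536870912) (P3 := 780900216) (W3 := 37827925) (N0 := 3) (En := eng) (mo := mog) (C1 := cd5q1) (C2 := cd0q1) (C3 := pd0)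
    rfl k0_pm_101_s

noncomputable def cut_pm_102_s : Cut := Cut.of [[⟨4, 0, 0, 1449551462⟩]]

noncomputable def f_pm_102_s : ℕ → ℕ → ℕ → ℕ → Bool := onCell 536870912 536870912 0 536870912 780900216 37827925
    (rowNE 3 eng mog cd5q1 cd0q2 pd0 0 false true false .npp 1 0 2 (qsf 536870912 536870912 0 536870912 0) ndB5q1 ndB0q2 pcB0 cut_pm_102_s Ext.none)

def k0_pm_102_s : ∃ t, chk3 f_pm_102_s t 1 1 1 = true :=
  ⟨(l 6), by decide +kernel⟩

theorem c_pm_102_s : CertNE 536870912 536870912 0 536870912 780900216 37827925 3 eng mog cd5q1 cd0q2 pd0 false true false .npp 1 0 2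
    ndB5q1 ndB0q2 pcB0 cut_pm_102_s Ext.none :=
  certNE0 (fam := false) (s1 := true) (s2 := false) (a := 1) (b := 0) (c := 2) (cn := .npp) (n1 := ndB5q1) (n2 := ndB0q2) (pc := pcB0) (cut := cut_pm_102_s) (xt := Ext.none) (P1 := 536870912) (W1 := 536870912) (P2 := 0) (W2 := 536870912) (P3 := 780900216) (W3 := 37827925) (N0 := 3) (En := eng) (mo := mog) (C1 := cd5q1) (C2 := cd0q2) (C3 := pd0)
    rfl k0_pm_102_s

noncomputable def cut_pm_112_s : Cut := Cut.of [[⟨4, 0, 0, 1449551462⟩]]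

noncomputable def f_pm_112_s : ℕ → ℕ → ℕ → ℕ → Bool := onCell 536870912 536870912 0 536870912 780900216 37827925
    (rowNE 3 eng mog cd5q1 cd0q2 pd1 0 false true false .dn 1 1 2 (qsf 536870912 536870912 0 536870912 1) ndB5q1 ndB0q2 pcB1 cut_pm_112_s Ext.none)

def k0_pm_112_s : ∃ t, chk3 f_pm_112_s t 1 1 1 = true :=
  ⟨(l 6), by decide +kernel⟩

theorem c_pm_112_s : CertNE 536870912 536870912 0 536870912 780900216 37827925 3 eng mog cd5q1 cd0q2 pd1 false true false .dn 1 1 2
    ndB5q1 ndB0q2 pcB1 cut_pm_112_s Ext.none :=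
  certNE0 (fam := false) (s1 := true) (s2 := false) (a := 1) (b := 1) (c := 2) (cn := .dn) (n1 := ndB5q1) (n2 := ndB0q2) (pc := pcB1) (cut := cut_pm_112_s) (xt := Ext.none) (P1 := 536870912) (W1 := 536870912) (P2 := 0) (W2 := 536870912) (P3 := 780900216) (W3 := 37827925) (N0 := 3) (En := eng) (mo := mog) (C1 := cd5q1) (C2 := cd0q2) (C3 := pd1)
    rfl k0_pm_112_s

noncomputable def cut_pm_202_s : Cut := Cut.of [[⟨4, 0, 0, 1449551462⟩]]

noncomputable def f_pm_202_s : ℕ → ℕ → ℕ → ℕ → Bool := onCell 0 536870912 0 536870912 780900216 37827925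
    (rowNE 3 eng mog cd5q2 cd0q2 pd0 2 false true false .pp 2 0 2 (qsf 1073741824 536870912 0 536870912 0) ndB5q2 ndB0q2 pcB0 cut_pm_202_s Ext.none)

def k0_pm_202_s : ∃ t, chk3 f_pm_202_s t 1 1 1 = true :=
  ⟨(l 6), by decide +kernel⟩

theorem c_pm_202_s : CertNE 1073741824 536870912 0 536870912 780900216 37827925 3 eng mog cd5q2 cd0q2 pd0 false true false .pp 2 0 2
    ndB5q2 ndB0q2 pcB0 cut_pm_202_s Ext.none :=
  certNE2 (fam := false) (s1 := true) (s2 := false) (a := 2) (b := 0) (c := 2) (cn := .pp) (n1 := ndB5q2) (n2 := ndB0q2) (pc := pcB0) (cut := cut_pm_202_s) (xt := Ext.none) (P1 := 1073741824) (W1 := 536870912) (P2 := 0) (W2 := 536870912) (P3 := 780900216) (W3 := 37827925) (N0 := 3) (En := eng) (mo := mog) (C1 := cd5q2) (C2 := cd0q2) (C3 := pd0)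
    rfl (fun _ => rfl) k0_pm_202_s

noncomputable def cut_mm_001_s : Cut := Cut.of [[⟨4, 0, 0, 1449551462⟩]]

noncomputable def f_mm_001_s : ℕ → ℕ → ℕ → ℕ → Bool := onCell 0 536870912 536870912 536870912 780900216 37827925
    (rowNE 3 eng mog cd5q0 cd0q1 pd0 0 false false false .up 0 0 1 (qsf 0 536870912 536870912 536870912 0) ndB5q0 ndB0q1 pcB0 cut_mm_001_s Ext.none)

def k0_mm_001_s : ∃ t, chk3 f_mm_001_s t 1 1 1 = true :=
  ⟨(l 5), by decide +kernel⟩

theorem c_mm_001_s : CertNE 0 536870912 536870912 536870912 780900216 37827925 3 eng mog cd5q0 cd0q1 pd0 false false false .up 0 0 1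
    ndB5q0 ndB0q1 pcB0 cut_mm_001_s Ext.none :=
  certNE0 (fam := false) (s1 := false) (s2 := false) (a := 0) (b := 0) (c := 1) (cn := .up) (n1 := ndB5q0) (n2 := ndB0q1) (pc := pcB0) (cut := cut_mm_001_s) (xt := Ext.none) (P1 := 0) (W1 := 536870912) (P2 := 536870912) (W2 := 536870912) (P3 := 780900216) (W3 := 37827925) (N0 := 3) (En := eng) (mo := mog) (C1 := cd5q0) (C2 := cd0q1) (C3 := pd0)
    rfl k0_mm_001_s

noncomputable def cut_mm_011_s : Cut := Cut.of [[⟨4, 0, 0, 1449551462⟩]]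

noncomputable def f_mm_011_s : ℕ → ℕ → ℕ → ℕ → Bool := onCell 0 536870912 536870912 536870912 780900216 37827925
    (rowNE 3 eng mog cd5q0 cd0q1 pd1 0 false false false .pnn 0 1 1 (qsf 0 536870912 536870912 536870912 1) ndB5q0 ndB0q1 pcB1 cut_mm_011_s Ext.none)

def k0_mm_011_s : ∃ t, chk3 f_mm_011_s t 1 1 1 = true :=
  ⟨(l 5), by decide +kernel⟩

theorem c_mm_011_s : CertNE 0 536870912 536870912 536870912 780900216 37827925 3 eng mog cd5q0 cd0q1 pd1 false false false .pnn 0 1 1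
    ndB5q0 ndB0q1 pcB1 cut_mm_011_s Ext.none :=
  certNE0 (fam := false) (s1 := false) (s2 := false) (a := 0) (b := 1) (c := 1) (cn := .pnn) (n1 := ndB5q0) (n2 := ndB0q1) (pc := pcB1) (cut := cut_mm_011_s) (xt := Ext.none) (P1 := 0) (W1 := 536870912) (P2 := 536870912) (W2 := 536870912) (P3 := 780900216) (W3 := 37827925) (N0 := 3) (En := eng) (mo := mog) (C1 := cd5q0) (C2 := cd0q1) (C3 := pd1)
    rfl k0_mm_011_s

noncomputable def cut_mm_012_s : Cut := Cut.of [[⟨4, 0, 0, 1449551462⟩]]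

noncomputable def f_mm_012_s : ℕ → ℕ → ℕ → ℕ → Bool := onCell 0 536870912 0 536870912 780900216 37827925
    (rowNE 3 eng mog cd5q0 cd0q2 pd1 0 false false false .pnp 0 1 2 (qsf 0 536870912 0 536870912 1) ndB5q0 ndB0q2 pcB1 cut_mm_012_s Ext.none)

def k0_mm_012_s : ∃ t, chk3 f_mm_012_s t 1 1 1 = true :=
  ⟨(l 5), by decide +kernel⟩

theorem c_mm_012_s : CertNE 0 536870912 0 536870912 780900216 37827925 3 eng mog cd5q0 cd0q2 pd1 false false false .pnp 0 1 2
    ndB5q0 ndB0q2 pcB1 cut_mm_012_s Ext.none :=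
  certNE0 (fam := false) (s1 := false) (s2 := false) (a := 0) (b := 1) (c := 2) (cn := .pnp) (n1 := ndB5q0) (n2 := ndB0q2) (pc := pcB1) (cut := cut_mm_012_s) (xt := Ext.none) (P1 := 0) (W1 := 536870912) (P2 := 0) (W2 := 536870912) (P3 := 780900216) (W3 := 37827925) (N0 := 3) (En := eng) (mo := mog) (C1 := cd5q0) (C2 := cd0q2) (C3 := pd1)
    rfl k0_mm_012_s

noncomputable def cut_mm_022_s : Cut := Cut.of [[⟨4, 0, 0, 1449551462⟩]]

noncomputable def f_mm_022_s : ℕ → ℕ → ℕ → ℕ → Bool := onCell 0 536870912 0 536870912 780900216 37827925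
    (rowNE 3 eng mog cd5q0 cd0q2 pd2 0 false false false .pp 0 2 2 (qsf 0 536870912 0 536870912 2) ndB5q0 ndB0q2 pcB2 cut_mm_022_s Ext.none)

def k0_mm_022_s : ∃ t, chk3 f_mm_022_s t 1 1 1 = true :=
  ⟨(l 5), by decide +kernel⟩

theorem c_mm_022_s : CertNE 0 536870912 0 536870912 780900216 37827925 3 eng mog cd5q0 cd0q2 pd2 false false false .pp 0 2 2
    ndB5q0 ndB0q2 pcB2 cut_mm_022_s Ext.none :=
  certNE0 (fam := false) (s1 := false) (s2 := false) (a := 0) (b := 2) (c := 2) (cn := .pp) (n1 := ndB5q0) (n2 := ndB0q2) (pc := pcB2) (cut := cut_mm_022_s) (xt := Ext.none) (P1 := 0) (W1 := 536870912) (P2 := 0) (W2 := 536870912) (P3 := 780900216) (W3 := 37827925) (N0 := 3) (En := eng) (mo := mog) (C1 := cd5q0) (C2 := cd0q2) (C3 := pd2)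
    rfl k0_mm_022_s

noncomputable def cut_mm_101_s : Cut := Cut.of [[⟨4, 0, 0, 1449551462⟩]]

noncomputable def f_mm_101_s : ℕ → ℕ → ℕ → ℕ → Bool := onCell 0 536870912 536870912 536870912 780900216 37827925
    (rowNE 3 eng mog cd5q1 cd0q1 pd0 2 false false false .npn 1 0 1 (qsf 536870912 536870912 536870912 536870912 0) ndB5q1 ndB0q1 pcB0 cut_mm_101_s Ext.none)

def k0_mm_101_s : ∃ t, chk3 f_mm_101_s t 1 1 1 = true :=
  ⟨(l 5), by decide +kernel⟩

theorem c_mm_101_s : CertNE 536870912 536870912 536870912 536870912 780900216 37827925 3 eng mog cd5q1 cd0q1 pd0 false false false .npn 1 0 1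
    ndB5q1 ndB0q1 pcB0 cut_mm_101_s Ext.none :=
  certNE2 (fam := false) (s1 := false) (s2 := false) (a := 1) (b := 0) (c := 1) (cn := .npn) (n1 := ndB5q1) (n2 := ndB0q1) (pc := pcB0) (cut := cut_mm_101_s) (xt := Ext.none) (P1 := 536870912) (W1 := 536870912) (P2 := 536870912) (W2 := 536870912) (P3 := 780900216) (W3 := 37827925) (N0 := 3) (En := eng) (mo := mog) (C1 := cd5q1) (C2 := cd0q1) (C3 := pd0)
    rfl (fun _ => rfl) k0_mm_101_s

noncomputable def cut_mm_102_s : Cut := Cut.of [[⟨4, 0, 0, 1449551462⟩]]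

noncomputable def f_mm_102_s : ℕ → ℕ → ℕ → ℕ → Bool := onCell 536870912 536870912 0 536870912 780900216 37827925
    (rowNE 3 eng mog cd5q1 cd0q2 pd0 0 false false false .npp 1 0 2 (qsf 536870912 536870912 0 536870912 0) ndB5q1 ndB0q2 pcB0 cut_mm_102_s Ext.none)

def k0_mm_102_s : ∃ t, chk3 f_mm_102_s t 1 1 1 = true :=
  ⟨(l 5), by decide +kernel⟩

theorem c_mm_102_s : CertNE 536870912 536870912 0 536870912 780900216 37827925 3 eng mog cd5q1 cd0q2 pd0 false false false .npp 1 0 2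
    ndB5q1 ndB0q2 pcB0 cut_mm_102_s Ext.none :=
  certNE0 (fam := false) (s1 := false) (s2 := false) (a := 1) (b := 0) (c := 2) (cn := .npp) (n1 := ndB5q1) (n2 := ndB0q2) (pc := pcB0) (cut := cut_mm_102_s) (xt := Ext.none) (P1 := 536870912) (W1 := 536870912) (P2 := 0) (W2 := 536870912) (P3 := 780900216) (W3 := 37827925) (N0 := 3) (En := eng) (mo := mog) (C1 := cd5q1) (C2 := cd0q2) (C3 := pd0)
    rfl k0_mm_102_s

noncomputable def cut_mm_112_s : Cut := Cut.of [[⟨4, 0, 0, 1449551462⟩]]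

noncomputable def f_mm_112_s : ℕ → ℕ → ℕ → ℕ → Bool := onCell 536870912 536870912 0 536870912 780900216 37827925
    (rowNE 3 eng mog cd5q1 cd0q2 pd1 0 false false false .dn 1 1 2 (qsf 536870912 536870912 0 536870912 1) ndB5q1 ndB0q2 pcB1 cut_mm_112_s Ext.none)

def k0_mm_112_s : ∃ t, chk3 f_mm_112_s t 1 1 1 = true :=
  ⟨(l 5), by decide +kernel⟩

theorem c_mm_112_s : CertNE 536870912 536870912 0 536870912 780900216 37827925 3 eng mog cd5q1 cd0q2 pd1 false false false .dn 1 1 2
    ndB5q1 ndB0q2 pcB1 cut_mm_112_s Ext.none :=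
  certNE0 (fam := false) (s1 := false) (s2 := false) (a := 1) (b := 1) (c := 2) (cn := .dn) (n1 := ndB5q1) (n2 := ndB0q2) (pc := pcB1) (cut := cut_mm_112_s) (xt := Ext.none) (P1 := 536870912) (W1 := 536870912) (P2 := 0) (W2 := 536870912) (P3 := 780900216) (W3 := 37827925) (N0 := 3) (En := eng) (mo := mog) (C1 := cd5q1) (C2 := cd0q2) (C3 := pd1)
    rfl k0_mm_112_s

noncomputable def cut_mm_202_s : Cut := Cut.of [[⟨4, 0, 0, 1449551462⟩]]

noncomputable def f_mm_202_s : ℕ → ℕ → ℕ → ℕ → Bool := onCell 1073741824 536870912 0 536870912 780900216 37827925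
    (rowNE 3 eng mog cd5q2 cd0q2 pd0 0 false false false .pp 2 0 2 (qsf 1073741824 536870912 0 536870912 0) ndB5q2 ndB0q2 pcB0 cut_mm_202_s Ext.none)

def k0_mm_202_s : ∃ t, chk3 f_mm_202_s t 1 1 1 = true :=
  ⟨(l 5), by decide +kernel⟩

theorem c_mm_202_s : CertNE 1073741824 536870912 0 536870912 780900216 37827925 3 eng mog cd5q2 cd0q2 pd0 false false false .pp 2 0 2
    ndB5q2 ndB0q2 pcB0 cut_mm_202_s Ext.none :=
  certNE0 (fam := false) (s1 := false) (s2 := false) (a := 2) (b := 0) (c := 2) (cn := .pp) (n1 := ndB5q2) (n2 := ndB0q2) (pc := pcB0) (cut := cut_mm_202_s) (xt := Ext.none) (P1 := 1073741824) (W1 := 536870912) (P2 := 0) (W2 := 536870912) (P3 := 780900216) (W3 := 37827925) (N0 := 3) (En := eng) (mo := mog) (C1 := cd5q2) (C2 := cd0q2) (C3 := pd0)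
    rfl k0_mm_202_s

end Pool.Agent.Strip051.G.I72727_7625.Tab.CS.BB50

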