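import Pool.Agent.Strip051.G.I72727_7625.Tab
import Pool.Agent.Strip051.PB.ExtD2

/-! # Certificates B10 (generated) -/

set_option linter.all false
set_option maxRecDepth 100000

namespace Pool.Agent.Strip051.G.I72727_7625.Tab.C.BB01

open Pool.Agent.Strip051.PB Pool.Agent.Strip051.PB.T
open Pool.Agent.Strip051.G.I72727_7625.Tab

noncomputable def cut_pm_102_a : Cut := Cut.of [[⟨0, 1, 0, 67108864⟩, ⟨1, 0, 0, 67108864⟩, ⟨2, 1, 0, 67108864⟩], [⟨0, 0, 1, 26214400⟩, ⟨1, 1, 2, 26214400⟩, ⟨2, 1, 0, 33554432⟩]]

noncomputable def xt_pm_102_a : Ext := extD2 3 ⟨4, 1, 1, 5, 5, 2, 24, 25, 43, 100, 1, 8⟩ eng cd0q1 cd1q2a pd0 false true false .npp 1 0 2 rfl ndB0q1 ndB1q2a pcB0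

noncomputable def f_pm_102_a : ℕ → ℕ → ℕ → ℕ → Bool := onCell 536870912 536870912 0 536870912 780900216 37827925
    (rowB 3 eng mog cd0q1 cd1q2a pd0 0 false true false .npp 1 0 2 (qsf 536870912 536870912 0 536870912 0) ndB0q1 ndB1q2a pcB0 cut_pm_102_a xt_pm_102_a)

def k0_pm_102_a : ∃ t, chk3 f_pm_102_a t 4 2 1 = true :=
  ⟨(b (l 2) (a (l 2) (b (l 2) (a (l 2) (l 16555176))))), by decide +kernel⟩

def k1_pm_102_a : ∃ t, chk3 f_pm_102_a t 10 2 1 = true :=
  ⟨(b (b (a (a (l 2) (b (b (l 16769872) (l 16738384)) (l 16722312))) (b (a (a (l 16771552) (b (a (l 16762624) (l 16765216)) (l 16754328))) (a (b (b (a (b (a (l 16769488) (l 44191173655)) (l 16768256)) (b (a (b (l 71571590199) (l 45264915463)) (l 134922355383)) (a (l 16769280) (b (l 46338656695) (l 16769408))))) (a (l 16765416) (l 16767368))) (l 16760144)) (b (b (a (b (l 3) (a (b (l 3) (l 47412397671)) (l 3))) (l 3)) (a (b (a (l 16768952) (b (l 71571588439) (l 44191171367))) (l 16767992)) (b (a (l 133848611863) (l 3)) (a (l 45264912439) (b (l 135996094583) (l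 47412396519)))))) (a (l 16763792) (b (b (l 16769032) (l 16766408)) (l 16763920)))))) (a (l 16756368) (a (l 16745424) (b (l 16756464) (l 16746760)))))) (a (b (a (l 2) (l 16699432)) (l 16690632)) (b (a (l 16712944) (l 16748080)) (a (l 16688136) (l 16681368))))) (b (a (l 16648296) (b (a (l 16660040) (l 16674880)) (l 16634120))) (a (l 16569640) (l 16610160)))), by decide +kernel⟩

def k2_pm_102_a : ∃ t, chk3 f_pm_102_a t 22 4 1 = true :=
  ⟨(b (b (a (b (l 3) (a (b (a (b (a (b (l 48486137239) (l 16767856)) (b (l 3) (l 73182197847))) (a (l 16767216) (l 44191169447))) (b (l 3) (a (b (l 74255937863) (l 47412394343)) (l 3)))) (a (l 16765560) (b (a (l 16766832) (b (l 48486135047) (l 16766768))) (l 16766000)))) (b (l 3) (a (b (a (l 79087774839) (l 3)) (a (l 44191167111) (b (l 50633615751) (l 47949263031)))) (l 3))))) (l 3)) (a (b (a (a (l 16760280) (l 16762352)) (b (a (l 16767776) (b (a (b (l 49023003719) (l 16765664)) (b (l 3) (l 50633615175))) (a (l 16765136) (l 44191164615)))) (a (l 16762400) (l 16763744)))) (a (l 16752872)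 (l 16758016))) (c (b (a (b (a (b (l 3) (a (l 52244227047) (l 3))) (l 3)) (a (b (a (l 16764912) (l 50633613975)) (l 16764312)) (b (a (l 53854836999) (l 3)) (a (l 16764368) (l 53317966647))))) (b (l 3) (a (l 135996082631) (l 3)))) (a (a (l 16761496) (l 16762728)) (b (a (b (a (l 51707353527) (l 56002318679)) (l 47949256055)) (b (l 3) (a (l 55465448103) (l 80161507751)))) (a (l 16762560) (b (a (l 16763072) (l 52781093127)) (l 16762640)))))) (b (a (b (a (b (l 3) (a (l 51170485383) (l 3))) (l 3)) (a (b (a (l 16764520) (l 49559872215)) (l 16763744)) (b (a (l 74792803015) (l 3)) (a (l 16764088) (l 52244225239))))) (b (l 3) (a (l 133848599143) (l 3)))) (a (a (l 16760368) (l 16761888)) (b (a (b (a (l 50096741111) (l 54391706343)) (l 16763152)) (b (l 3) (a (l 54391706807) (l 78550893719)))) (a (l 16761808) (b (a (l 16762760) (l 51170480903)) (l 16762136))))))))) (a (b (a (l 16737808) (l 16744552)) (l 16739392)) (c (b (a (l 16751648) (b (l 16759688) (l 16752816))) (l 16756144)) (b (a (l 16749672) (b (l 16758408) (l 16750856)))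 (l 16753520))))), by decide +kernel⟩

def k3_pm_102_a : ∃ t, chk3 f_pm_102_a t 23 8 1 = true :=
  ⟨(b (l 3) (a (a (b (l 3) (b (l 3) (c (a (b (a (l 59223542151) (l 3)) (a (l 50633608695) (b (l 60297283383) (l 56539188423)))) (b (l 3) (l 81772117495))) (a (b (l 74792801015) (a (l 16762344) (l 58149801143))) (l 130627369767))))) (l 3)) (l 3))), by decide +kernel⟩

def k4_pm_102_a : ∃ t, chk3 f_pm_102_a t 46 18 1 = true :=
  ⟨(b (c (a (b (a (l 16762032) (b (a (b (l 59223542103) (l 16761968)) (l 62444765719)) (a (l 16761848) (l 51707348439)))) (l 16760856)) (b (a (b (l 3) (a (b (l 64055378039) (l 59760411911)) (l 3))) (l 3)) (a (b (a (l 16761384) (b (a (l 55465444263) (l 64592248391)) (l 16761104))) (l 16761096)) (b (a (b (l 3) (l 64592248007)) (l 3)) (a (a (l 16760920) (l 54391701239)) (b (l 66202859863) (a (l 16760592) (l 64055376919)))))))) (a (b (a (l 16761504) (b (a (l 52781091671) (l 62444766039)) (l 49559865159))) (l 16759976)) (b (a (b (l 3) (a (b (l 64055378231) (l 59760412583)) (l 3))) (l 3)) (a (b (a (l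 16761168) (b (l 62981637287) (l 16761040))) (l 16760672)) (b (a (l 66202860487) (l 3)) (a (l 52244218231) (b (l 66739730839) (l 62444765271)))))))) (c (a (l 16757248) (b (a (l 16760264) (b (l 16760680) (l 16760360))) (l 16758872))) (a (l 16755696) (a (l 16758280) (b (l 16760120) (l 16758352)))))), by decide +kernel⟩

def k5_pm_102_a : ∃ t, chk3 f_pm_102_a t 47 18 1 = true :=
  ⟨(b (l 3) (c (a (b (a (b (a (b (a (l 57612926007) (l 65665988103)) (l 54391700167)) (b (l 3) (a (l 64055375975) (l 3)))) (a (l 16760312) (b (a (l 16760096) (l 58686666919)) (l 16760072)))) (b (l 3) (a (b (l 67813470839) (a (l 56539182983) (l 64592245879))) (l 3)))) (a (l 16759864) (b (a (l 16759824) (b (a (b (l 65129116631) (l 57076053383)) (l 67813470535)) (a (l 16759608) (l 57612923975)))) (l 16759680)))) (b (l 3) (a (b (a (b (l 3) (a (l 65129117111) (l 3))) (l 3)) (a (b (a (l 16759320) (b (l 65665986551) (l 58686665319))) (l 16759328)) (b (l 68887210967) (a (b (l 62981632279) (l 16759064)) (b (l 3) (l 64592244487)))))) (l 3)))) (a (b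 (a (b (a (b (a (l 56002314023) (l 66739730663)) (l 52781088151)) (b (l 3) (l 65665988695))) (a (l 16760056) (b (a (l 16760112) (l 57076054983)) (l 16759976)))) (b (l 3) (a (b (l 67276599767) (a (l 55465441943) (l 65129117703))) (l 3)))) (a (l 16759256) (b (a (l 16759720) (b (a (l 58686666871) (l 67276599543)) (a (l 16759608) (l 56539183031)))) (l 16759360)))) (b (l 3) (a (b (a (b (l 3) (a (l 65665987591) (l 3))) (l 3)) (a (b (a (l 16759392) (b (l 66202858247) (l 57612924327))) (l 16759288)) (b (l 67813468663) (a (b (l 62981633127) (l 16759176)) (l 66202857607))))) (l 3)))))), by decide +kernel⟩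

def k6_pm_102_a : ∃ t, chk3 f_pm_102_a t 23 19 1 = true :=
  ⟨(a (c (b (l 16763096) (l 16744072)) (a (l 16743184) (l 16770224))) (c (b (a (b (l 16758872) (l 16756920)) (b (a (a (l 16759272) (a (l 16759192) (b (l 55465438871) (l 16759064)))) (b (a (b (a (b (l 66739727335) (l 61371019063)) (l 69424081607)) (a (l 16758880) (b (l 63518502327) (l 16758696)))) (b (l 3) (a (b (l 3) (l 65665985399)) (l 3)))) (a (l 16758912) (b (a (l 57612921975) (b (l 67276597335) (l 62444760055))) (l 16758624))))) (a (l 16758432) (l 16758704)))) (a (l 16752552) (l 16756256))) (c (b (a (l 16757104) (b (a (b (a (l 16759136) (l 54391697911)) (l 16758760)) (b (a (b (a (l 61907890711) (l 68350339223)) (a (l 16758936) (l 59760407031))) (b (l 3) (l 67813468871))) (a (l 16758816) (b (a (l 57076052039) (b (l 67813469015) (l 62444761047))) (l 16758656))))) (a (l 16757736) (l 16758328)))) (a (l 16751016) (l 16755128))) (b (a (l 16756472) (b (a (b (a (l 16758952) (l 53854827287)) (l 16758472)) (b (a (b (a (l 61371020151) (l 68350339543)) (a (l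 16758920) (l 59223536439))) (b (l 3) (l 67813468919))) (a (l 16758704) (b (a (l 56539181415) (l 65129115751)) (l 16758624))))) (a (l 16757232) (l 16758032)))) (a (l 16749976) (l 16754352)))))), by decide +kernel⟩

def k7_pm_102_a : ∃ t, chk3 f_pm_102_a t 11 5 1 = true :=
  ⟨(b (a (b (a (l 16688264) (b (l 16715536) (l 16701144))) (a (l 16657728) (l 16676736))) (b (a (c (l 16727528) (l 16724616)) (c (b (l 16747528) (l 16737864)) (b (l 16745056) (l 16735000)))) (a (b (l 16704720) (l 16687624)) (c (l 16718336) (l 16694408))))) (a (b (l 16625608) (l 16599112)) (b (a (l 16655368) (b (l 16669096) (l 16666600))) (l 16628360)))), by decide +kernel⟩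

def k8_pm_102_a : ∃ t, chk3 f_pm_102_a t 4 3 1 = true :=
  ⟨(b (a (l 2) (b (a (l 2) (l 16495920)) (a (b (l 16435952) (l 16398800)) (l 16444024)))) (a (b (a (l 2) (b (l 16362616) (l 16328368))) (b (a (l 16304776) (l 16293216)) (a (b (l 16277608) (a (l 16262576) (l 16254416))) (a (l 16257744) (l 16253200))))) (b (a (b (l 16359392) (l 16324448)) (b (l 16364576) (l 16330192))) (b (a (l 16288984) (l 16296184)) (a (b (l 16260984) (a (l 16241304) (l 16242744))) (b (l 16291144) (a (b (l 16252792) (l 16243696)) (c (b (l 16277248) (a (l 16266472) (l 16274384))) (l 16243416))))))))), by decide +kernel⟩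

def k9_pm_102_a : ∃ t, chk3 f_pm_102_a t 5 6 1 = true :=
  ⟨(a (b (a (b (l 16524232) (l 16492536)) (b (l 16545312) (l 16535168))) (a (l 16459080) (l 16463136))) (b (a (b (l 16570760) (l 16540168)) (b (l 16603016) (l 16577416))) (a (b (l 16514024) (l 16481344)) (b (l 16551376) (l 16530160))))), by decide +kernel⟩

def k10_pm_102_a : ∃ t, chk3 f_pm_102_a t 10 7 1 = true :=
  ⟨(b (a (b (l 16381216) (l 16349264)) (b (l 16410512) (l 16383616))) (b (a (b (l 16326712) (l 16312104)) (a (l 16349256) (l 16375472))) (a (a (b (l 16289120) (a (c (l 139406081849114671) (l 16253256)) (c (l 139529776929538095) (l 16261704)))) (b (l 16308712) (b (c (l 139775655261323311) (l 16280792)) (c (a (l 139638559882903599) (l 139799638366928943)) (l 139255861046607919))))) (b (b (a (l 16336416) (l 16367264)) (a (l 16332120) (l 140486901939732527))) (b (a (c (l 140113205394767919) (l 16306512)) (c (l 140702612425900079) (l 140016860665856047))) (a (b (c (l 140084205773586479) (l 139592655261286447)) (c (a (l 139968138600562735) (c (l 140296823922638895)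 (l 140041049936166959))) (l 139556233934143535))) (c (a (b (l 140399009757921327) (c (a (l 140466011265024047) (l 140585651897909295)) (l 140257447610499119))) (b (l 140635061207023663) (c (a (l 140711064968052783) (l 140842456633933871)) (l 140495904241565743)))) (a (l 139861279746654255) (l 140077677419708463))))))))), by decide +kernel⟩

def k11_pm_102_a : ∃ t, chk3 f_pm_102_a t 11 14 1 = true :=
  ⟨(a (b (l 16452232) (l 16434056)) (b (l 16572064) (a (l 16485096) (l 16547616)))), by decide +kernel⟩

def k12_pm_102_a : ∃ t, chk3 f_pm_102_a t 11 30 1 = true :=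
  ⟨(a (a (l 16428216) (b (l 16445128) (l 16446536))) (a (b (l 16487968) (a (l 16482640) (l 16527752))) (b (l 16534896) (c (l 16572480) (l 16515200))))), by decide +kernel⟩

def k13_pm_102_a : ∃ t, chk3 f_pm_102_a t 22 62 1 = true :=
  ⟨(a (a (l 140638359727112239) (l 140869257213050927)) (a (l 141658912768819247) (b (l 16484608) (a (c (b (l 16489616) (l 141622697713631279)) (l 16432904)) (b (l 16473952) (l 141455228312813615)))))), by decide +kernel⟩

def k14_pm_102_a : ∃ t, chk3 f_pm_102_a t 44 63 1 = true :=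
  ⟨(b (a (l 141155336353775663) (c (l 141149770184736815) (l 140587507308412975))) (b (a (c (l 140893721368805423) (l 140322181362892847)) (c (l 141176570791526447) (l 140579192255348783))) (c (a (c (a (l 140979964334555183) (l 141124000386809903)) (l 140757931658182703)) (a (c (l 141454747258765359) (l 140971099517403183)) (b (l 141270304179650607) (a (l 141424922999308335) (a (c (b (l 141456602722041903) (l 141645787444412463)) (l 141146402938650671)) (b (c (a (l 141487182895415343) (l 141506493072343087)) (l 141181518597832751)) (c (a (b (l 141493436369911855) (l 141495772833234991)) (l 141510341365088303)) (l 141363900090794031)))))))) (a (l 140310292894728239) (a (l 140508067587047471) (b (l 140647224553504815) (a (l 140612521213050927) (a (l 140666466012839983) (b (l 140701100635488303) (l 140698489296109615)))))))))), by decide +kernel⟩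

def k15_pm_102_a : ∃ t, chk3 f_pm_102_a t 45 63 1 = true :=
  ⟨(b (a (a (l 141076309045952559) (c (b (l 141502644766801967) (a (b (l 141485945933299759) (l 141495291786149935)) (l 141554046950178863))) (b (l 140918322932367407) (a (l 140884512946880559) (l 140942099880493103))))) (b (a (a (l 141671488479625263) (l 141367198648680495)) (l 141450211794649135)) (c (l 141702412332417071) (l 141073972584939567)))) (b (c (a (b (a (a (l 141359433354919983) (l 141435299672637487)) (l 141528483302883375)) (a (a (l 141373314694021167) (a (l 141427465652863023) (l 141457702229082159))) (l 141530613609611311))) (a (l 141649567048204335) (l 141775461156601903))) (a (a (a (l 140751265858764847) (a (l 140981201237950511) (l 140830636870615087))) (l 140896676301946927)) (a (l 141003328952926255) (l 141115479163142191)))) (c (b (a (a (a (a (b (l 141364930917728303) (c (l 141526696601583663) (l 141212854684549167))) (b (l 141400115297124399) (l 141401283529719855))) (l 141444370650284079)) (l 141713407420809263)) (a (c (l 141820403707510831)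 (l 141492130697297967)) (c (l 14) (l 141618299683569711)))) (a (a (a (c (b (l 141545457023959087) (l 141547449890504751)) (l 141227148340707375)) (c (l 141606754811019311) (l 141284185518669871))) (c (b (l 141698151734050863) (a (l 141669908024328239) (l 141913518582939695))) (a (l 141342459647459375) (l 141402176885571631)))) (a (c (c (l 14) (a (l 141713476181311535) (l 141778897137139759))) (a (l 141463474671927343) (l 141526215567605807))) (c (l 14) (a (l 141770719479562287) (b (l 141654927174352943) (l 141658019552706607))))))) (b (a (a (a (a (l 140734567025754159) (l 140764185126404143)) (l 140803217797595183)) (l 140881970334957615)) (a (l 140991784082440239) (l 141107301547622447))) (a (a (c (l 140930348858572847) (l 140601045057863727)) (l 141052944393945135)) (a (c (l 141155886229684271) (l 140812632372330543)) (c (l 141277382290522159) (l 140926912886603823)))))))), by decide +kernel⟩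

def k16_pm_102_a : ∃ t, chk3 f_pm_102_a t 23 31 1 = true :=
  ⟨(b (a (a (b (l 16572656) (c (l 141920459268325423) (l 141325142314745903))) (b (l 16513000) (c (l 142173828033871919) (l 141551710478975023)))) (a (b (l 16539016) (c (l 142452348132900911) (l 141801918147870767))) (c (l 14) (b (l 16534768) (l 142077895625621551))))) (b (c (a (a (b (l 141939700732264495) (l 141956605731487791)) (b (l 142208600102404143) (l 142416476529492015))) (l 14)) (a (a (b (l 141308580924391471) (l 141300678187696175)) (b (l 141549305303334959) (l 141551366892552239))) (a (b (l 141815249735204911) (l 142188602659225647)) (b (l 142108613243699247) (a (l 142054118690996271) (l 14)))))) (a (b (a (c (a (l 142087791206613039) (l 142406580888731695)) (a (l 141233401810534447) (l 141357509212061743))) (c (l 14) (a (l 141487938806693935) (l 141805216659882031)))) (a (c (c (l 14) (c (l 14) (a (b (l 141664479181979695) (a (l 141636579070951471) (l 141704886245343279))) (b (l 141801712006185007) (l 14))))) (a (b (l 141228866327953455) (c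 (b (l 141404719507390511) (l 141585657891078191)) (l 141047240716042287))) (b (l 141536935769374767) (c (b (l 141538310198525999) (a (l 141505943319380015) (l 141575143847100463))) (l 141173890738569263))))) (c (l 14) (a (b (c (l 141673893753012271) (l 141307412707622959)) (b (a (l 141638709337899055) (l 141888848247996463)) (c (c (l 14) (l 141769070213660719)) (l 141307069113319471)))) (a (b (l 141596446887018543) (c (b (l 141788586585702447) (l 14)) (l 141411454019878959))) (b (l 141668877230784559) (c (l 14) (l 141663448356208687)))))))) (c (l 14) (c (b (a (a (l 141954681590874159) (l 14)) (l 14)) (l 14)) (b (a (a (l 141582702986084399) (l 141730037575286831)) (a (l 141884862588928047) (l 14))) (a (a (b (l 141589231341223983) (b (l 141593148354002991) (a (l 141558238853693487) (l 141904378873954351)))) (b (l 141741101416726575) (a (c (l 14) (l 141610190788821039)) (l 14)))) (l 14)))))))), by decide +kernel⟩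

def k17_pm_102_a : ∃ t, chk3 f_pm_102_a t 24 8 1 = true :=
  ⟨(l 3), by decide +kernel⟩

def k18_pm_102_a : ∃ t, chk3 f_pm_102_a t 24 18 1 = true :=
  ⟨(l 3), by decide +kernel⟩

def k19_pm_102_a : ∃ t, chk3 f_pm_102_a t 48 38 1 = true :=
  ⟨(a (c (b (a (b (l 3) (a (b (l 3) (a (b (l 64592243223) (l 58686663767)) (l 68350339127))) (l 3))) (l 3)) (a (b (a (b (a (l 16758456) (b (l 61371018199) (l 16758288))) (l 16758472)) (b (a (b (l 69424080823) (c (l 64055372375) (l 63518501703))) (l 3)) (a (l 16758184) (b (l 66202855623) (l 59760404935))))) (a (l 16758496) (l 16758272))) (b (a (b (l 3) (a (l 69424080199) (l 3))) (l 3)) (a (b (a (b (c (l 62981630119) (l 62981630695)) (l 16757952)) (b (l 3) (c (l 66202855207) (l 65665984887)))) (a (l 16758064) (l 57076049543))) (b (l 3) (a (b (l 68350338391) (l 60834146023)) (l 71571563095))))))) (b (a (b (l 3) (a (b (l 3) (a (b (l 64592244215) (l 57612922487)) (l 67276597575))) (l 3))) (l 3)) (a (b (a (b (a (l 16758488) (b (l 60834147847) (l 16758400))) (l 16758384)) (b (a (b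 (l 68350339031) (l 63518502087)) (l 3)) (a (l 16758296) (b (l 65665985223) (l 59223534647))))) (a (l 16758168) (l 16758184))) (b (a (b (l 3) (a (l 67813467527) (l 3))) (l 3)) (a (b (a (b (l 61907888999) (l 16758096)) (b (l 3) (l 64592243159))) (l 56539179399)) (b (l 3) (a (b (l 66739726183) (l 60834146743)) (l 68887208311)))))))) (l 3)), by decide +kernel⟩

def k20_pm_102_a : ∃ t, chk3 f_pm_102_a t 48 39 1 = true :=
  ⟨(c (a (b (a (l 16758168) (b (a (l 16758112) (b (a (l 16757808) (b (c (l 64055371239) (l 64055371831)) (l 16757624))) (l 16757848))) (l 16758024))) (l 16757376)) (b (a (b (a (b (a (b (l 3) (l 67813467175)) (l 3)) (a (l 57612919719) (b (l 69960950167) (l 61907887143)))) (b (l 3) (l 73719045447))) (a (l 16757672) (b (a (b (c (l 67276595943) (l 67276596551)) (l 16757312)) (b (l 3) (l 69960949975))) (a (l 16757456) (b (l 60297273943) (l 16757288)))))) (b (l 3) (a (b (l 3) (a (b (l 73182175175) (l 62981628151)) (l 3))) (l 3)))) (a (l 16756376) (b (a (b (a (l 16757200) (b (l 68887207799) (l 58686660743)))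 (l 16757272)) (b (a (l 73182174599) (l 3)) (a (b (l 61371014967) (l 16756992)) (b (l 75866529047) (l 68350336535))))) (a (l 16757424) (l 54928563351)))))) (a (b (a (l 16757472) (b (a (l 16757920) (b (a (l 16757896) (b (l 64055371927) (l 16757800))) (l 16757824))) (l 16757616))) (l 16756312)) (b (a (b (a (b (a (b (l 3) (l 66202855063)) (l 3)) (a (l 57612920727) (b (l 68887208919) (l 61907887943)))) (l 85530203399)) (a (l 16757632) (b (a (b (l 66202854839) (l 16757512)) (l 69424079159)) (a (l 16757520) (l 58686661943))))) (b (l 3) (a (b (l 3) (a (b (l 71034691639) (l 62981629079)) (l 3))) (l 3)))) (a (l 16757264) (b (a (b (a (l 16757344) (b (l 68350337735) (l 58686661639))) (l 16757296)) (b (l 71571560951) (a (l 59223532247) (b (l 88214559831) (l 64592241127))))) (a (l 16757192) (l 54928564279))))))), by decide +kernel⟩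

def k21_pm_102_a : ∃ t, chk3 f_pm_102_a t 49 19 1 = true :=
  ⟨(a (a (b (l 3) (b (l 3) (b (l 3) (c (a (b (a (b (l 71034690551) (l 60297272711)) (l 75866528487)) (a (l 16756896) (b (l 62981626919) (l 16756712)))) (b (l 3) (a (l 68887202567) (l 3)))) (a (b (a (b (l 70497820631) (l 60297273847)) (l 73182173735)) (a (l 16757008) (l 60297273479))) (b (l 3) (a (l 71571561671) (l 3)))))))) (l 3)) (l 3)), by decide +kernel⟩

def k22_pm_102_a : ∃ t, chk3 f_pm_102_a t 25 4 1 = true :=
  ⟨(l 3), by decide +kernel⟩

def k23_pm_102_a : ∃ t, chk3 f_pm_102_a t 24 10 1 = true :=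
  ⟨(b (a (b (c (a (l 16754544) (a (l 16756456) (l 16757064))) (a (l 16752760) (a (l 16755176) (l 16756168)))) (c (l 16761160) (l 16758896))) (b (c (a (b (a (b (a (l 16757032) (b (a (l 16755976) (b (l 73719044215) (l 61371013767))) (l 16756736))) (l 16757072)) (b (a (b (l 3) (a (b (l 69960947927) (l 16756440)) (l 75866528055))) (l 3)) (a (c (l 34527465415) (l 55465433111)) (b (a (l 69960944935) (l 3)) (a (l 16756368) (l 68350332679)))))) (a (l 16756952) (l 16754272))) (b (a (b (l 3) (l 83919588679)) (l 3)) (a (b (a (b (a (l 59223527127) (l 71571557239)) (l 16756240)) (b (l 3) (l 67276590583))) (a (l 16756512) (l 37211820727))) (b (l 3) (a (b (l 78550881063) (l 49559851319)) (l 3)))))) (a (b (a (b (a (l 16756952) (b (a (l 16756824) (l 69424078375)) (l 16756816))) (l 16756768)) (b (a (b (l 3) (a (l 66739723831) (l 73719044535))) (l 3)) (a (b (l 56539176103) (l 16756664)) (b (a (l 71571561287) (l 3)) (a (l 16756536) (l 68887206903)))))) (a (l 16756184) (l 16756488))) (b (a (b (l 3) (a (l 72645297287) (l 3))) (l 3))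 (a (b (a (b (a (l 59223530455) (l 73719044199)) (l 16756368)) (b (l 3) (l 71034684935))) (a (l 16756376) (b (l 57612916487) (l 16756256)))) (b (l 3) (a (b (l 73182168071) (l 60297267575)) (l 3))))))) (c (a (l 16755776) (b (a (l 16756616) (b (a (l 16756128) (b (l 67276590071) (l 16755776))) (l 16756272))) (l 16756384))) (a (l 16754384) (b (a (l 16756112) (b (a (l 16756136) (b (l 72108427031) (l 16755936))) (l 16756064))) (l 16755496)))))) (a (c (l 16778904) (l 16775992)) (a (b (l 16750144) (l 16741936)) (b (c (l 16754768) (l 16753112)) (l 16748416))))), by decide +kernel⟩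

def k24_pm_102_a : ∃ t, chk3 f_pm_102_a t 25 10 1 = true :=
  ⟨(b (a (b (l 3) (b (a (a (c (b (l 86603942551) (a (l 45801753511) (l 73182166487))) (b (l 79087748647) (a (l 42043657143) (l 70497814119)))) (l 3)) (l 3)) (a (c (a (l 16754776) (b (a (l 69424070119) (l 89825168087)) (a (l 16755760) (l 56002298407)))) (a (l 16753888) (b (a (l 63518493399) (l 79624618919)) (l 42580529175)))) (a (a (c (l 89825167175) (l 79624617191)) (l 3)) (l 3))))) (l 3)) (a (b (a (c (b (l 16756192) (l 16755840)) (b (l 16755552) (l 16754640))) (c (b (a (b (a (l 16755344) (l 78014006631)) (l 16755616)) (b (l 3) (l 85530202599))) (a (l 16755992) (b (l 53317942599) (l 16755608)))) (b (a (b (a (l 16755424) (l 70497814231)) (l 16755488)) (b (l 3) (l 72645296023))) (a (l 16755392) (l 42043658055))))) (c (a (l 16753800) (l 16755704)) (a (l 16751912) (l 16754472)))) (b (b (l 3) (a (a (a (b (l 87140807991) (l 16754984)) (b (l 3) (l 82845841255))) (l 92509510231)) (l 3))) (a (c (b (a (l 16755368) (b (l 83382716199) (l 16753320))) (l 16755496))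 (b (a (l 16754992) (b (l 74792779575) (l 16754496))) (l 16754736))) (c (b (a (l 97878227655) (l 3)) (a (b (l 67276584439) (l 16754616)) (b (l 102173194439) (l 78014000807)))) (b (a (l 95193873303) (l 3)) (a (b (l 64055361031) (l 16754280)) (b (l 101636323639) (l 78014002519))))))))), by decide +kernel⟩

def k25_pm_102_a : ∃ t, chk3 f_pm_102_a t 12 11 1 = true :=
  ⟨(a (b (a (b (l 16713568) (l 16682192)) (c (l 16707976) (l 16705152))) (a (l 16659880) (b (a (l 16687456) (l 16702920)) (l 16677264)))) (b (a (a (b (l 16746608) (l 16735792)) (b (l 16751744) (l 16744488))) (b (c (a (l 16755064) (b (a (l 16755072) (l 16753008)) (l 16755096))) (a (l 16753552) (b (a (l 16754320) (l 49022974663)) (l 16754000)))) (a (l 16750408) (a (l 16752976) (l 16753888))))) (b (a (l 16703840) (a (l 16741744) (l 16748896))) (a (a (l 16693304) (l 16706456)) (l 16731496))))), by decide +kernel⟩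

def k26_pm_102_a : ∃ t, chk3 f_pm_102_a t 13 2 1 = true :=
  ⟨(b (l 3) (a (b (l 3) (b (a (b (a (c (b (a (b (l 96267615367) (l 67813456503)) (l 108078771655)) (a (l 16754320) (b (l 81235227079) (l 16753600)))) (b (a (a (l 68350326599) (l 88214548135)) (l 104320675207)) (a (l 16753760) (b (l 80698355223) (l 71034679575))))) (a (a (b (l 3) (l 94656998855)) (l 3)) (l 3))) (b (a (a (l 16754304) (l 16753960)) (a (b (a (l 16753280) (l 79624614855)) (l 16753472)) (a (a (l 80698356839) (l 91435774327)) (l 105394416407)))) (a (l 16754120) (a (l 16753896) (b (l 56002295751) (l 16753480)))))) (a (b (l 3) (b (l 3) (a (b (a (l 93583257671) (l 3)) (a (l 16752920) (l 82308968343))) (l 119889929687)))) (l 3))) (a (a (b (l 16752760) (l 16747000)) (b (a (l 16753888) (l 16753984)) (l 16751960))) (a (a (b (b (l 16753352) (l 16753848)) (l 16753560)) (b (b (b (b (l 100562579655) (l 82308969063)) (l 58686649431)) (l 16753432)) (l 16753888))) (b (b (a (b (l 3) (a (l 99488837175) (l 3))) (l 3)) (a (b (a (l 16752704) (l 89288289783)) (l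 16753000)) (a (b (l 119353061703) (l 78014001559)) (l 118816189735)))) (b (a (l 16753560) (b (a (l 16752968) (l 68350325703)) (l 16753256))) (l 16753872))))))) (b (l 3) (a (b (l 3) (b (l 3) (a (b (a (b (a (l 104857547223) (l 3)) (a (l 16752800) (l 95193871095))) (b (l 3) (l 3))) (a (l 16753400) (b (a (b (l 99488838455) (l 80698357223)) (b (l 3) (l 108615639175))) (a (l 16753240) (b (l 85530195895) (l 16753088)))))) (b (l 3) (a (b (l 3) (a (l 113447483207) (l 3))) (l 3)))))) (l 3))))), by decide +kernel⟩

def k27_pm_102_a : ∃ t, chk3 f_pm_102_a t 7 2 1 = true :=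
  ⟨(l 3), by decide +kernel⟩

def k28_pm_102_a : ∃ t, chk3 f_pm_102_a t 12 6 1 = true :=
  ⟨(b (a (b (l 16644312) (l 16622576)) (b (a (b (l 16688608) (l 16675584)) (b (a (l 16703456) (l 16714984)) (l 16699152))) (a (l 16660880) (l 16683944)))) (b (a (l 16604288) (l 16657136)) (a (b (l 16593384) (l 16587912)) (a (b (l 16635728) (l 16630424)) (l 16657744))))), by decide +kernel⟩

def k29_pm_102_a : ∃ t, chk3 f_pm_102_a t 26 12 1 = true :=
  ⟨(b (b (a (l 16728168) (a (l 16750832) (l 16753624))) (a (a (l 16712272) (l 16722752)) (a (l 16739184) (l 16749120)))) (a (b (a (l 16704408) (l 16711944)) (l 16699560)) (b (a (l 16720560) (l 16730480)) (a (l 16713608) (l 16720000))))), by decide +kernel⟩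

def k30_pm_102_a : ∃ t, chk3 f_pm_102_a t 54 24 1 = true :=
  ⟨(b (a (b (a (l 16754040) (l 16753776)) (l 16754288)) (b (a (b (a (l 62981618599) (b (c (l 123648031639) (l 122574289575)) (l 90898905687))) (l 16752320)) (b (l 3) (a (b (l 111300000311) (l 73182166343)) (b (l 3) (c (l 128479870087) (l 127406128087)))))) (a (l 16754152) (a (l 16753888) (b (a (l 64055360807) (a (l 81772100823) (l 96267614695))) (l 16753880)))))) (a (l 16753424) (b (a (l 16754568) (l 16754512)) (l 16754616)))), by decide +kernel⟩

def k31_pm_102_a : ∃ t, chk3 f_pm_102_a t 55 24 1 = true :=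
  ⟨(b (a (b (l 3) (a (b (a (a (b (l 3) (a (l 95730743543) (l 116131838631))) (l 3)) (l 3)) (a (b (b (l 89825164663) (l 81235230247)) (l 16753760)) (b (l 133311709815) (a (a (l 16753584) (l 95193873367)) (l 114521223991))))) (l 3))) (l 3)) (a (b (a (a (l 16754312) (b (c (l 57612910759) (l 58686652471)) (l 16754320))) (b (a (a (b (a (l 100562581799) (l 119889934679)) (l 16752504)) (b (l 3) (a (l 94657003031) (l 113447483623)))) (l 3)) (a (c (l 16754224) (l 16754024)) (a (b (b (l 110226258855) (l 84993327255)) (l 16754072)) (b (l 132774841847) (a (l 16753976) (a (l 89825165607) (l 97341357767)))))))) (a (l 16754856) (b (a (l 16754536) (l 16754360)) (l 16754808)))) (b (a (b (l 3) (a (a (a (b (l 3) (a (l 103783808135) (l 115594968055))) (l 139754160215)) (l 3)) (l 3))) (l 3)) (a (b (a (b (c (a (l 83919585607) (b (l 134922323543) (c (l 112910617671) (l 112910617655)))) (a (l 84456457015) (b (l 134385452663) (c (l 107541905447) (l 107541905623))))) (c (l 75866523783) (l 76403395015))) (b (l 3) (a (a (b (l 112910614951)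 (l 16754176)) (b (l 3) (l 101636326183))) (l 140827903159)))) (a (l 16754584) (b (a (l 16754328) (a (b (l 94120133703) (l 16754296)) (b (l 125795517383) (l 91972653191)))) (l 16754496)))) (b (l 3) (a (a (a (b (c (l 131701099895) (b (l 3) (l 118279324615))) (c (l 16754360) (l 16754368))) (b (l 3) (b (a (l 108078780839) (l 133311713255)) (l 16754368)))) (a (b (l 3) (b (l 3) (a (l 97341362631) (l 119353070119)))) (b (l 3) (l 140827905287)))) (l 3))))))), by decide +kernel⟩

def k32_pm_102_a : ∃ t, chk3 f_pm_102_a t 27 25 1 = true :=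
  ⟨(a (b (a (l 16746808) (l 16753312)) (l 16734088)) (b (a (b (l 16755264) (l 16755360)) (b (a (b (a (l 16755008) (l 16754856)) (l 16755392)) (b (a (a (l 16754728) (a (b (l 16754504) (l 16754792)) (b (b (b (l 117742457655) (l 16754416)) (l 16754528)) (l 16754744)))) (a (a (b (c (b (l 132237970167) (l 97341362151)) (b (l 126332389143) (l 97341362279))) (l 16754688)) (b (b (l 3) (a (l 126869262999) (l 143512260391))) (c (l 16754624) (l 16754656)))) (a (b (l 3) (b (a (l 117205586791) (l 136532939271)) (l 16754656))) (b (l 3) (b (l 3) (b (l 131164230567) (l 100025717607))))))) (a (l 16755208) (c (l 16755096) (l 16753696))))) (a (l 16755944) (l 16755880)))) (a (l 16753320) (b (l 16756480) (l 16756304))))), by decide +kernel⟩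

def k33_pm_102_a : ∃ t, chk3 f_pm_102_a t 13 13 1 = true :=
  ⟨(a (b (a (l 16689096) (l 16707512)) (a (l 16678488) (l 16696016))) (b (a (b (a (l 16721904) (l 16728312)) (l 16720352)) (b (l 16744608) (a (l 16709312) (l 16737248)))) (a (l 16711728) (b (a (l 16725072) (l 16712656)) (l 16724576))))), by decide +kernel⟩

def k34_pm_102_a : ∃ t, chk3 f_pm_102_a t 12 14 1 = true :=
  ⟨(a (b (b (l 16582672) (a (l 16563376) (l 16603008))) (a (a (l 16559488) (l 16582624)) (l 16610000))) (b (b (a (l 16628272) (b (l 16652344) (l 16651976))) (a (l 16628240) (l 16651656))) (a (b (l 16631856) (l 16635896)) (b (l 16654504) (l 16636568))))), by decide +kernel⟩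

def k35_pm_102_a : ∃ t, chk3 f_pm_102_a t 24 30 1 = true :=
  ⟨(a (b (l 16584824) (b (l 16595424) (l 16602320))) (b (l 16617536) (b (l 16621464) (l 16603192)))), by decide +kernel⟩

def k36_pm_102_a : ∃ t, chk3 f_pm_102_a t 24 62 1 = true :=
  ⟨(a (a (b (l 16598336) (a (l 142656307583467567) (l 142717811526041647))) (b (l 16589976) (a (l 142772993276493871) (l 142826800637231151)))) (a (b (l 16600472) (a (l 142699257298681967) (l 142840613272453231))) (b (l 16610656) (a (l 142890641061462127) (l 142928161905541231))))), by decide +kernel⟩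

def k37_pm_102_a : ∃ t, chk3 f_pm_102_a t 24 126 1 = true :=
  ⟨(c (b (a (a (l 142623184826531951) (l 142729631315902575)) (a (l 142831198721687663) (a (l 143083467934580847) (l 143130609504682223)))) (a (a (a (l 142600713556279471) (l 142655001952780399)) (a (l 142708122117980271) (l 142760005332418671))) (a (b (l 142834909575397487) (l 142837520916824175)) (a (b (l 143087384946409583) (l 143089996287623279)) (b (l 143134663955267823) (l 143137412735303919)))))) (a (l 14) (a (b (l 142807009428521071) (a (l 142598583252746415) (l 142651772137521263))) (b (l 142731005706993775) (a (l 142703861510471791) (l 142754713932677231)))))), by decide +kernel⟩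

def k38_pm_102_a : ∃ t, chk3 f_pm_102_a t 48 127 1 = true :=
  ⟨(a (b (c (c (a (l 142662492379922607) (l 142715749983846511)) (l 14)) (l 14)) (b (c (c (a (l 142666752990298287) (a (l 142886655322783855) (l 142912974886944879))) (l 14)) (l 14)) (c (c (c (a (a (a (l 14) (a (l 14) (l 142875179169710255))) (b (l 142891053371228335) (a (l 142885899410260143) (l 142899093552054447)))) (a (b (l 142917372935340143) (b (l 142918472447639663) (a (l 142912631291428975) (l 142925687994237039)))) (b (l 142943417621512303) (a (l 142893321122709615) (l 142951320363286639))))) (a (l 14) (a (l 14) (b (l 142886380445597871) (a (l 142880882887147695) (l 142894008309465263)))))) (l 14)) (l 14)))) (b (c (a (b (l 142711558094225519) (l 142713757119070319)) (b (l 142763441308450927) (a (l 142932697378799727) (l 142958329748144239)))) (l 14)) (b (c (c (a (a (l 142939019573149807) (l 142964720661921903)) (a (l 142990215592214639) (l 143015435644567663))) (a (l 142692935109132463) (b (l 142711489376665711) (l 142712039133151343)))) (l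 14)) (c (a (a (c (b (c (l 142969187429711983) (l 142912562570756207)) (c (a (l 142964170907631727) (l 142977021451960431)) (b (l 142913387205066863) (a (l 142907339890376815) (l 142920396593184879))))) (l 14)) (b (c (c (l 142994682359971951) (l 142938538537418863)) (l 142673006464221359)) (c (c (a (l 142989734557335663) (l 143002447662694511)) (b (l 142939294452220015) (a (l 142933315857006703) (l 142946235120828527)))) (c (a (l 142875866364166319) (l 142888923066990767)) (l 14))))) (c (a (a (b (l 142985748826243183) (c (l 143015023329083503) (l 142958810787086447))) (b (l 142998393212125295) (c (l 143027598995456111) (l 142971592611938415)))) (b (l 143017291071488111) (a (c (l 143040105942351983) (l 142984305717297263)) (a (l 142931529165733999) (l 143027873873182831))))) (b (a (c (l 142907889645224047) (l 14)) (c (l 142933728172916847) (l 142877240753143983))) (b (a (c (l 142908370682069103) (l 14)) (c (l 142934209209745519) (l 142877378192572591))) (a (c (a (l 142902117208916079) (l 142915105192231023)) (l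 14)) (a (c (l 142928024456052847) (l 14)) (c (l 142940875000397935) (l 142883975263748271)))))))) (l 14))))), by decide +kernel⟩

def k39_pm_102_a : ∃ t, chk3 f_pm_102_a t 98 127 1 = true :=
  ⟨(b (c (a (c (b (l 143047184046637167) (l 143050138985496687)) (l 142761792041173103)) (b (a (l 143031378564038767) (l 143055911421640815)) (a (l 143033646307967087) (l 143058179165503599)))) (c (a (l 142652596773339311) (l 142704892304474223)) (l 14))) (a (c (b (a (c (l 143040312099471471) (l 142930567075577967)) (a (l 142734304263061615) (l 142746742490513519))) (a (c (b (l 143042236245819503) (b (l 142998118342246511) (a (l 143037563321155695) (l 143049932829065327)))) (b (c (l 142959291822669935) (l 142903216719822959)) (a (b (l 142925138237161583) (c (l 142953656825249903) (c (l 142911188181205103) (l 14)))) (c (l 142966232491507823) (b (l 142909813791129711) (l 142864871253622895)))))) (a (b (c (l 143060721788223599) (l 142950427008532591)) (c (c (l 143089377815544047) (l 143034402224373871)) (c (l 142978876877373551)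 (b (l 142922664335474799) (l 142922733055230063))))) (b (c (l 143072953857179759) (l 142963071394447471)) (c (c (l 143101541164990703) (l 143046771732283503)) (c (l 142991452543762543) (b (l 142935446160326767) (l 142935583599558767)))))))) (a (l 14) (a (l 14) (b (l 142614869775941807) (c (b (l 142850852469489839) (c (l 142879027454951599) (l 14))) (l 14)))))) (b (c (a (c (l 143089377814380783) (l 142981350777716847)) (c (l 143113567074386159) (l 143006364671606895))) (c (b (l 142704136391377007) (l 142703861513945199)) (l 14))) (c (a (b (c (l 143091301960614127) (c (l 143009594488275055) (l 142954412738805871))) (c (l 143092607631261935) (c (a (l 143003959490658415) (l 143016397718061167)) (b (l 142954550178136175) (a (l 142948296704917615) (l 142960941090783343)))))) (b (c (l 143115491220570351) (c (l 143034402223636591) (l 142979632791093359))) (c (l 143116728171692271) (a (c (l 143028835945463919) (l 142950976768688239)) (c (l 143041136733896815) (l 142986023703953519)))))) (c (c (a (b (l 142898612514029679)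 (a (b (l 142891946724032623) (c (l 142906034219434095) (l 14))) (c (l 142918884763648111) (l 14)))) (a (b (l 142917785251332207) (b (l 142917647812722799) (l 142895039105106031))) (b (l 142930567076200559) (b (l 142930429637574767) (l 142930292198834287))))) (l 14)) (l 14)))))), by decide +kernel⟩

def k40_pm_102_a : ∃ t, chk3 f_pm_102_a t 99 127 1 = true :=
  ⟨(b (a (b (a (l 142795739468398703) (l 142820615923466351)) (c (a (l 143082437145100399) (l 143106488966217839)) (l 142746605027000431))) (b (c (l 143139955356860655) (l 142753476983079023)) (c (a (l 143130197189902575) (l 143153699255107823)) (l 142786324893614191)))) (a (b (b (c (a (l 143083948974342255) (l 143108000795394159)) (a (l 142687368836300911) (l 142713138644598895))) (c (a (l 142792166076612719) (l 142793746628739183)) (a (l 142731761618665583) (l 142734991438545007)))) (c (c (a (b (l 143139336883077359) (l 143140642553643247)) (l 143163732301611247)) (a (b (l 142941699648979055) (c (l 143059553556791535) (a (l 142998530650849391) (l 143010900158775407))))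 (b (l 143056255020892271) (c (l 143083880255684847) (a (l 143023269666685039) (l 143035570455117935)))))) (c (a (b (c (l 142949602374533231) (l 142894077027827823)) (c (b (l 142949464935891055) (a (l 142943005304193135) (l 142955580970582127))) (c (b (l 142907614767415407) (a (l 142900948977254511) (l 142913662082629743))) (l 14)))) (b (c (l 142974684987867247) (l 142919640677580911)) (c (b (l 142974547549175919) (a (l 142968156636954735) (l 142980663583834223))) (c (a (l 142926581346336879) (l 142939225732202607)) (b (l 142905209585336431) (a (l 142898406356205679) (l 142911119461580911))))))) (l 14)))) (b (c (a (c (l 143184416867221743) (l 143079757085524207)) (c (l 143207506615419119) (l 143103671467606255))) (a (a (l 142743169059438703) (l 142744612170661999)) (b (l 142763853627310191) (l 142763166432804975)))) (c (a (c (l 143187165647159535) (a (l 143074671843967215) (l 143086766473937135))) (b (l 142796976452714735) (c (l 143210873870762223) (l 143104977138499823)))) (a (b (c (c (l 142999561442721903) (l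 142944929449361519)) (l 142704205108330607)) (c (c (a (l 142993170530648175) (l 143005540038557807)) (b (l 142944448413237359) (a (l 142937782623060079) (l 142950358289449071)))) (c (c (a (l 142896138613047471) (a (l 142905690621935727) (l 142912012814876783))) (l 14)) (l 14)))) (c (c (b (l 143024163019620463) (a (l 143017840826990703) (l 143030072895930479))) (b (l 142969943343202415) (b (l 142969462307045487) (a (l 142962865236344943) (l 142975303463747695))))) (c (b (l 142915105191493743) (b (a (l 142907889645502575) (l 142920534031384687)) (a (c (l 142921289945907311) (l 14)) (c (l 142933865612296303) (l 142906102939058287))))) (l 14)))))))), by decide +kernel⟩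

def k41_pm_102_a : ∃ t, chk3 f_pm_102_a t 25 30 1 = true :=
  ⟨(b (a (l 16619128) (l 16639504)) (a (a (l 16617768) (l 16627944)) (b (l 16641216) (a (l 16658744) (a (l 16664840) (l 16669560)))))), by decide +kernel⟩

def k42_pm_102_a : ∃ t, chk3 f_pm_102_a t 25 62 1 = true :=
  ⟨(a (b (a (l 16620552) (b (l 16650608) (l 16651280))) (b (a (l 142918197594980463) (b (l 16651712) (l 16610056))) (a (b (l 142921015094706287) (l 142923007960318063)) (a (b (l 16650064) (l 16613648)) (b (l 16654352) (l 16612616)))))) (b (a (a (l 16657568) (l 16661640)) (a (b (l 16665832) (l 16667160)) (l 16672376))) (a (a (b (l 16658136) (b (l 16637520) (c (l 16666944) (l 16651072)))) (b (l 16662936) (l 16622728))) (c (l 143523272665661743) (a (l 16662352) (l 16668552)))))), by decide +kernel⟩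

def k43_pm_102_a : ∃ t, chk3 f_pm_102_a t 50 126 1 = true :=
  ⟨(a (c (b (a (l 143176651563008239) (l 143221456670589167)) (a (b (l 143180843452334319) (l 143183660951699695)) (b (l 143225854718132463) (l 143228809656303855)))) (b (l 142830374089441391) (a (l 142804466843074671) (l 142853120241696879)))) (b (c (a (a (l 143263994033094895) (l 143307287307616495)) (a (l 143350443143053615) (a (l 16663424) (l 143404044340101423)))) (a (l 142914624181567599) (a (l 143150881749123311) (l 143007876522442991)))) (a (b (c (c (l 143338554676887855) (l 143242416111780079)) (l 142914418023596143)) (c (a (l 143271759335391471) (l 143315396207116527)) (b (l 142914143145885807) (l 142914005707063407)))) (a (b (c (l 143355459665559855) (l 143150950468944111)) (c (a (l 143348106681172271) (l 143370852830888239)) (a (l 143141604619419887) (l 143161533270655215)))) (b (c (l 143400196050305327) (a (l 143179743933513967) (l 143199810024128751))) (c (l 143405831049871663) (l 143192250882130159))))))), by decide +kernel⟩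

def k44_pm_102_a : ∃ t, chk3 f_pm_102_a t 100 254 1 = true :=
  ⟨(b (a (c (l 143186272292585711) (l 142803298612740207)) (a (l 142884525058621551) (l 142896482251800687))) (a (c (a (l 143176926442373359) (l 143199878751682799)) (c (a (l 143022445031391343) (l 143046703010988143)) (l 142749491253903471))) (a (c (l 143222624902529263) (l 142928849103716463)) (c (l 143245096175419631) (l 142953038363836527))))), by decide +kernel⟩

def k45_pm_102_a : ∃ t, chk3 f_pm_102_a t 100 255 2 = true :=
  ⟨(b (a (a (c (l 143230390205137135) (l 143127379691208943)) (c (l 143252998916915439) (l 143150813036855535))) (a (l 143134870131294447) (l 143247501357580527))) (b (a (a (l 142820341078786287) (l 143203658323968239)) (a (l 143226473194143983) (a (l 143243378188304623) (c (l 143305294447821103) (l 143203658323837167))))) (a (c (a (l 143233826179858671) (l 143256503611015407)) (a (l 143128754081480943) (l 143152256146505967))) (a (c (l 143278974883692783) (l 143175483333574895)) (a (c (l 143295536280371503) (l 143192663205675247))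 (c (l 143307562191372591) (a (b (l 143201184422265071) (l 143201940336918767)) (l 143208331249778927)))))))), by decide +kernel⟩

def k46_pm_102_a : ∃ t, chk3 f_pm_102_a t 100 255 3 = true :=
  ⟨(a (b (c (a (l 143022170154025071) (l 143046428133539951)) (b (l 142747910706200687) (b (l 142747017353134191) (l 142746467597402223)))) (c (b (a (c (l 143048489718563055) (l 142994682359087215)) (c (l 143072610259042543) (l 143019215216492655))) (c (a (l 143048420999332079) (l 143072541539762415)) (a (a (b (l 142988016568942703) (l 142987672971657327)) (l 142977639930101871)) (a (l 143012480706904175) (l 143024644056350831))))) (b (a (l 142732723699974255) (c (l 142965201698668655) (l 142910707144491119))) (a (c (a (b (l 142933178417266799) (c (l 142946441278685295) (l 142918747324924015))) (b (l 142945685364162671) (l 142945135608447087))) (a (l 14) (b (l 142890503615152239) (c (l 142903629037584495) (l 14))))) (b (a (l 142840682001268847) (l 142943211462705263)) (c (a (l 142957642555326575) (l 142970012063252591)) (a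 (c (l 142916273423450223) (l 14)) (c (l 142928849089839215) (l 142901223855620207))))))))) (b (a (b (l 143018046984765551) (c (l 143070273796243695) (l 142964033467187311))) (b (l 143042236244820079) (l 142805222769655919))) (a (b (c (l 143070067637977327) (c (l 142989940714537071) (l 142935789757825135))) (a (c (l 143063676725756143) (b (l 142955718409584751) (c (l 142982381571162223) (c (l 142941356036735087) (l 142913799522009199))))) (c (l 143075633916739823) (b (l 142968087917527151) (c (l 142994682359578735) (c (l 142953794264137839) (l 142926375188381807))))))) (a (b (c (l 143087797266022639) (l 142981350778601583)) (c (l 143087522388246767) (b (l 142980388705960047) (b (l 142889885155115119) (c (a (l 143003684612604015) (a (l 143008288818315375) (l 143011312475832431))) (a (l 142949190058508399) (a (l 142953862983729263) (c (l 142970630538838127) (b (l 142943348902051951) (l 142943211463114863)))))))))) (b (c (a (l 143096662080045295) (l 143102778114638063)) (a (l 142990490470580335) (b (l 142996881382965359)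 (a (l 142994819798450287) (l 142998255773040751))))) (c (a (b (l 143096593360716015) (l 143096868238999791)) (l 143103740188213487)) (a (a (b (l 142988016569188463) (c (b (l 143014748450209903) (l 143014748450406511)) (b (c (l 142974135232725103) (l 142946853595955311)) (c (l 142974066513428591) (l 142946784876658799))))) (b (c (l 143018184424587375) (b (l 142964239626289263) (l 142964102187466863))) (l 142991315105153135))) (c (l 143023819423301871) (b (l 142969668466344047) (l 142969874625364079)))))))))), by decide +kernel⟩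

def k47_pm_102_a : ∃ t, chk3 f_pm_102_a t 101 254 1 = true :=
  ⟨(c (a (a (b (c (l 143323436391121199) (l 143225442399846639)) (a (l 143266330496680175) (c (l 143338211080126767) (l 143237880626561263)))) (b (a (l 143307356027748591) (c (l 143380267403641135) (l 143278768719216879))) (a (b (l 143309829929550063) (l 143312235112251631)) (l 143334843823096047)))) (b (a (c (l 143416413853385007) (l 143312784865231151)) (l 143411878366544175)) (c (l 143447406343881007) (l 143340822418047279)))) (a (a (b (c (l 143125318104776943) (l 143023200944898159)) (a (c (l 143115422499356911) (l 143012205827686511)) (c (l 143135351149723887) (b (l 143031103685902447) (l 143030347771805807))))) (b (a (l 143103052988743791) (c (l 143175208450490607) (l 143069655316955247))) (a (b (c (l 143155485958652143) (l 143050001544413295)) (c (l 143156585471148271) (l 143050207703646319))) (l 143124356030939247)))) (b (a (c (l 143207163012235503) (l 143099617013907695)) (l 143194930944049391)) (c (l 143232108188418287) (l 143121332374470895))))),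 by decide +kernel⟩

def k48_pm_102_a : ∃ t, chk3 f_pm_102_a t 101 255 1 = true :=
  ⟨(c (b (a (a (a (a (c (l 143313197188645167) (l 143212866734866671)) (b (l 143273614762000623) (l 143275401469067503))) (b (c (l 143341509615960367) (l 143239873492222191)) (l 143293612133122287))) (c (l 143380404846002479) (l 143276363540562159))) (c (l 143454347013980463) (l 143346113820508463))) (a (a (a (c (a (l 143318076273262895) (l 143330583219913007)) (b (a (l 143214790881116399) (l 143226679352459503)) (l 143223174659621103))) (c (l 143349549798342959) (l 143245852090056943))) (c (l 143387208077230383) (c (l 143308111946105135) (l 143254648184275183)))) (c (c (l 143488569320849711) (l 143434212205855023)) (c (l 143379236615569711) (l 143323711269454127))))) (b (c (a (a (a (b (l 143115285060583663) (a (l 143110199818944751) (l 143120782619771119))) (b (l 143136107064721647) (l 143137481455370479))) (l 143170054492373231)) (c (l 143263512996249839) (l 143207712772309231))) (a (a (a (b (l 143010693999296623) (a (b (l 143005265160126575)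 (l 143004784123887727)) (b (l 143014817168638063) (l 143014954608033903)))) (b (a (l 143024987652292719) (l 143035226856013935)) (l 143030622651301999))) (c (l 143088965496570095) (l 143034264784240751))) (c (l 143151500231508207) (l 143094737934893295)))) (a (b (c (a (a (a (l 143110955733909743) (l 143122157010501871)) (l 143139062004646127)) (l 143172597114978543)) (a (a (a (c (l 143031584724893935) (b (l 142977914804338799) (l 142978052243832943))) (l 143015435645272175)) (l 143031378566758511)) (c (l 143090546046370031) (l 143035158139207791)))) (c (a (c (l 143156104438776047) (l 143102640676897007)) (c (l 143201665459454191) (l 143146896027517167))) (c (a (a (l 143037838199439599) (l 143059484838461679)) (l 143091576839766255)) (a (a (a (c (l 142991933581279343) (b (l 142964720663707759) (l 142964926822727791))) (l 142988909923991663)) (c (l 143018390584623215) (l 142990834069962863))) (c (l 143049726671700207) (a (l 143011449916784751) (l 143031859605143663))))))) (a (c (c (l 143245508492361967) (l 143189570829353199))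 (b (l 143104221225222383) (c (l 143133701886443759) (a (l 143066356788429039) (l 143086560318259439))))) (c (c (l 143289557684207855) (l 143232245631680751)) (b (l 143144765723787503) (c (l 143175002299236591) (a (l 143106488970150127) (l 143126211463577839))))))))), by decide +kernel⟩

def k49_pm_102_a : ∃ t, chk3 f_pm_102_a t 51 63 1 = true :=
  ⟨(b (a (c (a (b (b (l 16657272) (c (l 16672888) (l 16664792))) (c (l 143525883993440559) (l 143417444642292015))) (c (l 143611714630811951) (l 143498877233414447))) (b (a (a (l 143046290715574511) (l 143265230975123695)) (l 143322886626377967)) (c (a (l 143307149865255151) (l 143388170142040367)) (l 143052681632923887)))) (c (a (c (l 143702424353112431) (l 143583196044460335)) (c (l 143791072490553711) (l 143665315831693615))) (a (c (l 143462181029364015) (l 143339516746760431)) (l 143293062401425711)))) (a (b (a (c (c (l 143540040211235119) (l 143428439763779887)) (c (c (l 143343365038620975) (l 143286052986372335)) (c (l 143228259897786607) (l 143170054492324079))))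 (c (c (l 143633911030022447) (l 143516263268663599)) (c (l 143396485203493167) (c (l 143305431883841775) (l 143244202821419247))))) (c (a (a (c (l 143530763084284207) (l 143417307210531119)) (c (l 143578591847006511) (l 143462181035786543))) (c (c (l 143679197175398767) (l 143619273782919471)) (c (l 143558800634593583) (l 143497709010960687)))) (b (c (a (c (l 143349893392744751) (l 143291275670274287)) (l 143402876118548783)) (a (c (l 143232108191989999) (l 143172528396828911)) (c (l 143309761214349551) (l 143247226481705199)))) (c (a (c (l 143354360161370415) (a (l 143274164519616751) (l 143315396212605167))) (c (l 143438404095017263) (l 143375869362290991))) (a (a (b (l 143184485588467951) (c (l 143215478078161135) (a (l 143145796518002927) (l 143165106694488303)))) (b (l 143223449538740463) (c (l 143255266662154479) (l 143193762721497327)))) (a (c (l 143293543416889583) (l 143230802525683951)) (c (l 143331820172099823) (l 143267498732929263)))))))) (b (a (c (c (l 143725720263901551) (l 143601681591288111))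 (c (l 143475512614813999) (c (l 143379717651300655) (l 143315396212424943)))) (c (c (l 143815467912921455) (l 143684832170606895)) (c (l 143551997404938543) (l 143417444652237103)))) (a (c (c (l 143741731907780975) (c (l 143646486699884847) (l 143582165260878127))) (a (c (l 143420055998841135) (c (l 143367760463757615) (l 143302339513024751))) (c (l 143504306083692847) (c (l 143404525390184751) (l 143337523891486959))))) (c (c (l 143832166751535471) (c (l 143731905021886831) (l 143664285048013103))) (c (c (l 143596115318292783) (l 143527464552218927)) (c (l 143458332749758767) (b (l 143387482959266095) (l 143390094301593903))))))))), by decide +kernel⟩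

def k50_pm_102_a : ∃ t, chk3 f_pm_102_a t 13 14 1 = true :=
  ⟨(a (b (b (a (l 16651384) (l 16690840)) (a (a (l 16667544) (l 16657000)) (b (l 16668344) (b (l 16670208) (l 16670864))))) (a (b (l 16674408) (l 16655328)) (b (l 16671608) (l 16673200)))) (b (b (a (l 16706672) (l 16721496)) (a (b (l 16706016) (a (l 16681832) (l 16711784))) (l 16721744))) (b (a (b (l 16688656) (l 16690672)) (b (l 16725032) (l 16705704))) (a (l 16712352) (a (l 16725512) (l 16714296)))))), by decide +kernel⟩

def k51_pm_102_a : ∃ t, chk3 f_pm_102_a t 26 30 1 = true :=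
  ⟨(a (b (b (l 16656608) (l 16657968)) (a (b (l 16675368) (l 16677824)) (l 16697768))) (b (a (l 16692456) (l 16701968)) (a (l 16697368) (l 16706768)))), by decide +kernel⟩

def k52_pm_102_a : ∃ t, chk3 f_pm_102_a t 26 31 1 = true :=
  ⟨(b (c (a (a (b (l 16688432) (l 16692608)) (b (l 16699240) (l 16703352))) (a (l 16711128) (l 16720272))) (a (a (b (l 16673896) (l 143469396588691759)) (b (l 16684872) (l 16688232))) (a (b (l 16694928) (l 16698184)) (l 16705848)))) (a (b (c (c (a (b (l 16699960) (l 143929061220090223)) (l 16711848)) (a (a (l 143745305314607471) (l 16696032)) (b (l 16702816) (l 16705104)))) (b (a (l 143437098440458543) (l 16690992)) (b (a (l 143443626793828655) (l 143528632808603951)) (a (c (l 143654045842145583) (l 143511865227919663)) (c (l 16697560) (l 143635079271694639)))))) (a (c (c (a (b (l 143903291416052079) (l 143920677449384303)) (b (l 143989328212246895) (l 144007332720820591))) (a (b (l 143765783726129519) (l 143779802504659311)) (b (l 143844673696809327) (l 143859310950580591)))) (a (b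 (c (l 143626008293343535) (l 143484652312477999)) (c (c (l 143672531388334447) (l 143600375928946991)) (c (l 143527808152666415) (l 143454828059492655)))) (b (c (l 143697751438492015) (l 143549179912585519)) (c (l 143708815279014255) (c (l 143594672214917423) (l 143518187428430127)))))) (c (c (a (a (l 144062033429610863) (l 144103952315695471)) (l 144166006010855791)) (b (a (l 143921639521632623) (l 16710024)) (a (l 143936826531168623) (l 144012486685376879)))) (c (a (b (l 143767226840400239) (l 143778840436670831)) (b (l 143834571938038127) (l 143846804009533807))) (a (b (l 143611164891545903) (c (l 143659131094958447) (l 143578935456727343))) (c (l 143716649305227631) (l 143633498729628015))))))) (b (a (a (c (l 16715312) (l 16699456)) (c (l 16719960) (l 16704160))) (c (l 16726632) (b (l 16710008) (l 16711848)))) (c (c (a (a (l 144247507320095087) (l 144327565519864175)) (a (l 16733368) (l 144303926037381487))) (b (a (l 16717184) (l 16726128)) (a (a (l 144086360132731247) (l 144158584312185199)) (a (l 144229640260190575)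 (l 144298291025920367))))) (c (a (b (a (l 16706608) (l 16711256)) (a (l 143912705997619567) (l 143976683839897967))) (b (l 143875941096161647) (a (l 144039287292313967) (a (l 144085604226285935) (l 144114328971542895))))) (a (a (c (l 143776229101502831) (l 143689161515745647)) (c (l 143833747313033583) (l 143742556558672239))) (b (a (l 16707392) (l 143889616259481967)) (a (c (l 143895182536409455) (l 143798769101685103)) (b (l 143897106685198703) (a (l 143889410103607663) (l 143913599363383663))))))))))), by decide +kernel⟩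

def k53_pm_102_a : ∃ t, chk3 f_pm_102_a t 27 15 1 = true :=
  ⟨(b (a (b (l 16694528) (a (l 16715776) (l 16724440))) (b (l 16711384) (a (l 16732320) (b (l 16738144) (l 16738856))))) (b (a (a (b (l 16720208) (c (l 16730920) (l 16716264))) (b (l 16728560) (c (l 16738152) (l 16723960)))) (a (b (l 16735048) (l 16736640)) (l 16740640))) (a (b (a (a (b (l 16724360) (a (l 16725312) (l 16727360))) (c (l 16736664) (b (l 16720704) (l 16722024)))) (c (l 16740760) (l 16726080))) (a (a (b (c (l 16736120) (c (l 16724040) (l 143938544535142767))) (c (l 16737840) (c (l 144153086761501039) (l 143945279046746479)))) (c (l 16739760) (b (l 16723264) (c (l 16728656) (l 143988160007061871))))) (c (b (l 16742840) (l 16744408)) (b (l 16727848) (c (l 144095499855331695) (a (l 144029941455520111) (l 16726880))))))) (b (a (l 16738728) (l 16743552)) (a (c (l 16748384) (b (l 16733584) (a (l 16733560) (l 16736312)))) (c (l 16752736) (a (l 16738272) (l 16740808)))))))), by decide +kernel⟩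

def k54_pm_102_a : ∃ t, chk3 f_pm_102_a t 28 24 1 = true :=
  ⟨(l 3), by decide +kernel⟩

def k55_pm_102_a : ∃ t, chk3 f_pm_102_a t 56 50 1 = true :=
  ⟨(a (b (a (b (a (a (a (a (b (l 3) (l 141901647879)) (l 3)) (l 3)) (l 3)) (l 3)) (a (b (c (a (b (a (l 105394426375) (l 134922325351)) (l 91435782295)) (a (b (l 3) (l 127406132903)) (l 3))) (a (a (a (l 16754816) (b (l 107541908231) (l 16754864))) (b (l 132774841911) (l 96804490471))) (a (a (b (l 3) (l 112373746119)) (l 140827905191)) (l 3)))) (a (l 16755040) (a (c (l 16754936) (l 16754992)) (b (b (l 142438519815) (a (l 16754880) (l 127943005527))) (l 16754984))))) (a (b (l 3) (a (b (l 147270356375) (b (a (l 119889941991) (l 148880970615)) (l 101099460087))) (b (l 3) (l 140291036199)))) (l 3)))) (l 3)) (a (b (a (l 16755416) (b (c (a (a (l 16755136) (b (l 102710070487) (l 16755152))) (a (b (l 135459196903) (l 96267619863)) (b (l 3) (c (l 129016746231) (l 127943001879))))) (a (b (l 79087751687) (l 16755224)) (a (b (c (l 134385455255) (l 133311710951)) (l 79087751703))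 (b (l 3) (l 130090488519))))) (c (l 16754712) (l 16755376)))) (l 16755872)) (b (a (b (l 3) (c (a (b (a (a (l 108078780023) (l 119889938999)) (l 151028453287)) (l 87677686167)) (b (l 3) (l 144586003575))) (a (a (b (l 118816199415) (l 16755360)) (b (l 145659744423) (l 105394426631))) (l 149417840135)))) (l 3)) (a (a (l 16755648) (a (b (c (l 78550880999) (l 85530202807)) (l 16755712)) (b (b (l 139217294023) (l 83919590423)) (l 16755656)))) (a (a (b (a (b (l 3) (l 118816199367)) (l 149417840935)) (l 16755592)) (b (l 3) (b (a (l 107005039335) (l 129016746535)) (l 16755616)))) (a (b (l 3) (b (l 155323421303) (a (l 96267621335) (l 118279328263)))) (b (l 3) (l 152102195559)))))))) (l 3)), by decide +kernel⟩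

def k56_pm_102_a : ∃ t, chk3 f_pm_102_a t 112 51 1 = true :=
  ⟨(b (a (l 16756608) (b (a (l 16756160) (a (l 16756008) (b (c (l 80698364919) (b (c (l 91435782967) (l 97341362487)) (l 16755864))) (l 16756040)))) (l 16756608))) (l 16757352)), by decide +kernel⟩

def k57_pm_102_a : ∃ t, chk3 f_pm_102_a t 113 51 1 = true :=
  ⟨(b (a (b (a (a (a (b (b (l 145122874647) (l 93583266455)) (l 16755952)) (b (c (l 144586003319) (b (l 3) (l 142438520551))) (l 16755240))) (a (b (l 3) (b (a (l 109689393495) (l 125258649751)) (l 16755904))) (b (l 3) (b (l 158544647335) (a (l 102710071879) (l 116131844199)))))) (a (b (l 3) (c (l 155323420999) (l 156934034055))) (l 3))) (a (b (l 16756160) (l 16756448)) (a (a (b (c (l 94657008375) (b (l 107541909591) (l 16756136))) (l 16756304)) (b (c (b (l 147270358695) (l 16755928)) (b (l 152102197159) (l 104320684503))) (l 16756240))) (a (b (c (l 148880971143) (b (l 3) (l 148344101047))) (l 88214557351)) (b (l 3) (b (b (l 126869262455) (l 112373747943)) (l 16756184))))))) (b (l 3) (a (a (a (b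 (l 3) (b (l 3) (a (l 107005038983) (a (l 115058102679) (l 123111166183))))) (b (l 3) (c (l 157470905591) (l 158007776615)))) (l 3)) (l 3)))) (a (b (a (l 16756864) (l 16756648)) (l 16757304)) (b (a (b (c (a (b (c (l 98951975975) (l 102710071975)) (l 16756352)) (b (l 155860293351) (a (l 103246943431) (l 148880972247)))) (a (a (l 16756392) (a (l 16755048) (b (l 112910619079) (l 16756400)))) (b (l 155323422407) (a (l 105394426375) (l 150491584839))))) (c (l 79087752311) (a (l 16756624) (l 93583266375)))) (b (l 3) (c (a (a (b (l 120963682807) (l 16756400)) (b (l 3) (l 114521231975))) (l 162302743847)) (a (a (b (c (l 147807230663) (l 148880972311)) (l 16756528)) (b (l 3) (a (l 109689393863) (l 120426811927)))) (l 159618389159))))) (a (l 16756992) (b (a (l 16756656) (a (b (a (l 103783813863) (a (l 111836877431) (l 118279328263))) (l 16756640)) (c (b (l 156397165079) (l 106468168711)) (b (l 152639068375) (c (l 107541910487) (l 108078781079)))))) (l 16756896)))))), by decide +kernel⟩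

def k58_pm_102_a : ∃ t, chk3 f_pm_102_a t 57 25 1 = true :=
  ⟨(b (l 3) (a (b (l 3) (a (b (l 3) (a (a (a (b (c (l 157470906663) (b (l 3) (l 152102197735))) (c (l 97341363367) (l 103246942823))) (b (l 3) (b (a (a (l 112910619287) (l 119889941079)) (l 154786552471)) (l 16755440)))) (a (b (l 3) (a (b (l 3) (a (l 107005039495) (l 113984361159))) (c (l 156397165111) (b (l 3) (l 153712810759))))) (b (l 3) (l 160692131671)))) (l 3))) (l 3))) (l 3))), by decide +kernel⟩

def k59_pm_102_a : ∃ t, chk3 f_pm_102_a t 56 26 1 = true :=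
  ⟨(b (a (l 16757632) (b (a (l 16758016) (l 16757744)) (l 16758728))) (a (l 16746880) (l 16758432))), by decide +kernel⟩

def k60_pm_102_a : ∃ t, chk3 f_pm_102_a t 114 104 1 = true :=
  ⟨(a (b (a (a (l 16757176) (a (l 16755112) (a (b (c (l 102173201511) (l 103246942935)) (l 16757184)) (b (b (a (l 114521232071) (l 121500553879)) (l 16756920)) (l 16757160))))) (b (a (c (a (b (l 156934036151) (l 109152523239)) (l 158007777751)) (b (l 154786551831) (a (c (l 109689394103) (l 110763135607)) (a (b (l 3) (l 118279328951)) (l 151028455831))))) (l 3)) (c (a (b (l 103783814167) (l 16757120)) (a (b (l 153175940327) (l 16756992)) (a (b (l 3) (l 113984361831)) (l 157470907111)))) (a (b (c (l 103783814183) (l 104320684759)) (l 16757200)) (a (b (a (l 120426812135) (l 147807230599)) (l 16755672)) (b (l 3) (b (l 146733486343) (l 113447490519)))))))) (a (l 16757720) (b (c (l 16754688) (l 16754736)) (l 16757648)))) (b (a (b (l 3) (c (l 166060840023) (l 162839614263))) (l 3)) (a (b (c (a (a (a (l 104320685271) (b (l 120963683607)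 (l 16757168))) (b (l 156397165415) (c (l 111836878327) (l 111836878039)))) (b (l 3) (l 158007778039))) (c (a (b (a (b (l 144586003079) (l 16755400)) (l 150491585143)) (a (l 16757288) (l 112910619559))) (l 156934035495)) (a (b (a (b (l 123648037831) (l 16755320)) (l 150491584967)) (a (l 16757360) (b (l 118279328871) (l 16756824)))) (l 154786551687)))) (a (l 16757464) (a (b (c (l 107541910839) (l 109152523287)) (l 16757448)) (b (a (b (l 138143553255) (l 114521232727)) (l 151028453799)) (l 104857556199))))) (a (a (b (l 3) (b (l 3) (c (l 156934037159) (a (l 118816199703) (l 149954714695))))) (l 3)) (l 3))))), by decide +kernel⟩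

def k61_pm_102_a : ∃ t, chk3 f_pm_102_a t 114 105 1 = true :=
  ⟨(a (l 16758504) (b (a (l 16755264) (b (c (a (a (l 16757512) (b (a (l 112373749335) (a (l 122037425703) (l 151028456983))) (l 16757520))) (a (b (l 154249681959) (b (l 122574296551) (l 16755760))) (l 158544649015))) (a (a (l 16755008) (b (b (l 127943005367) (l 111300007287)) (l 16757464))) (b (l 152639068535) (a (a (l 108615652935) (l 120963683431)) (l 152102198231))))) (a (l 16757864) (a (l 16757768) (a (l 16755352) (b (b (l 123648038535) (l 16757016)) (l 16757752))))))) (l 16758400))), by decide +kernel⟩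

def k62_pm_102_a : ∃ t, chk3 f_pm_102_a t 115 52 1 = true :=
  ⟨(b (l 3) (a (b (a (a (a (b (l 3) (c (b (a (a (l 124721780503) (l 153175940711)) (l 155860294967)) (l 107005040279)) (b (a (l 149954716375) (l 154249681895)) (l 107005039831)))) (b (l 3) (a (b (l 3) (b (l 162302746951) (l 111300007751))) (b (l 3) (l 152639070903))))) (l 3)) (l 3)) (a (b (c (a (l 101636330967) (a (b (b (l 153175940871) (l 115058104167)) (l 16757648)) (b (l 156934036711) (a (l 111300007943) (a (l 120963684279) (l 130090489831)))))) (a (l 16755384) (a (b (a (l 117742458215) (l 152102198791)) (l 16757520)) (b (l 155323423639) (a (l 112910620199) (l 125258650967)))))) (c (l 16755568) (l 16755624))) (b (a (c (l 160692132487) (b (l 3) (l 155323423527))) (l 3)) (c (a (a (a (l 103783815191) (b (a (l 115058104503) (l 122574297143)) (l 16757872))) (a (b (l 154249682871) (l 16757496)) (b (l 157470907911) (l 113984362567)))) (a (b (l 3) (a (b (l 156397166455) (l 118816201319)) (l 156397166343))) (l 3))) (a (a (a (l 16755024) (b (l 120426812839)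 (l 16757752))) (b (l 154249682343) (l 109689394535))) (a (a (b (l 3) (l 127943005687)) (l 156397165511)) (l 3))))))) (l 3))), by decide +kernel⟩

def k63_pm_102_a : ∃ t, chk3 f_pm_102_a t 57 53 1 = true :=
  ⟨(a (b (l 16759432) (l 16760200)) (b (a (b (a (l 16758704) (a (l 16755912) (b (a (c (b (l 107005040647) (l 16758304)) (l 103783814599)) (b (b (l 155323425863) (a (l 16757112) (l 164987102455))) (l 16755688))) (l 16758576)))) (l 16759240)) (b (a (b (a (a (b (l 3) (b (c (l 154249684487) (l 133848586135)) (c (l 115058104567) (l 113447491511)))) (b (l 3) (l 157470907927))) (l 3)) (c (a (a (l 16758408) (b (a (l 111300008311) (b (l 161229005607) (l 16757224))) (l 16758136))) (a (b (l 156934037431) (c (b (l 120426813911) (l 16757648)) (l 114521233447))) (a (b (l 3) (l 155860297415)) (l 159081520631)))) (a (a (l 16758312) (a (l 105394427495) (b (l 125795522247) (l 16757816)))) (b (l 157470907639) (a (l 112910620151) (l 156397166471)))))) (l 3)) (a (a (l 16758968) (a (l 16756256) (b (c (b (c (l 111300008503) (l 109689395303))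 (l 16758552)) (l 105394427319)) (l 16758984)))) (b (c (a (a (b (a (b (l 161765876551) (l 16757920)) (l 158007779559)) (l 16755824)) (b (l 3) (a (b (l 163376489911) (l 16757464)) (l 156934038023)))) (b (l 3) (l 160692133431))) (a (a (b (l 155323427575) (l 16755032)) (b (l 3) (c (l 153712815239) (l 129016747543)))) (l 160155261719))) (c (a (l 16756224) (a (b (a (l 117205588503) (l 155860297831)) (l 16758208)) (b (l 160155263143) (c (b (l 127406136039) (l 16757728)) (l 117742459095))))) (a (l 16756160) (a (a (l 107541911127) (b (l 132237973591) (l 16757888))) (b (l 159618391895) (l 117205587623))))))))) (a (l 16760160) (b (a (l 16759576) (c (l 16756728) (l 16754104))) (l 16760120))))), by decide +kernel⟩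

def k64_pm_102_a : ∃ t, chk3 f_pm_102_a t 28 27 1 = true :=
  ⟨(a (b (a (l 16738824) (l 16746808)) (a (l 16735624) (l 16742672))) (b (a (l 16758000) (l 16761552)) (a (b (l 16749280) (l 16746488)) (l 16754576)))), by decide +kernel⟩

def k65_pm_102_a : ∃ t, chk3 f_pm_102_a t 29 12 1 = true :=
  ⟨(l 3), by decide +kernel⟩

def k66_pm_102_a : ∃ t, chk3 f_pm_102_a t 29 26 1 = true :=
  ⟨(a (b (l 3) (a (b (a (b (l 3) (a (a (a (b (l 3) (c (b (l 3) (l 159081521591)) (l 159618391671))) (l 3)) (l 3)) (l 3))) (l 3)) (a (b (a (b (c (a (b (a (b (l 119353072311) (l 16757904)) (a (l 157470909367) (l 161229005287))) (c (l 107541912039) (l 16755936))) (a (a (b (l 3) (a (l 127943007367) (l 148344103047))) (l 161229005063)) (l 3))) (a (a (l 107541911047) (b (l 158007779719) (l 16755112))) (b (l 3) (c (l 158544651943) (l 158544650455))))) (a (l 16759344) (a (l 103246944471) (b (a (b (l 166597716087) (l 16757672)) (l 159081523367)) (l 16758232))))) (a (a (b (l 3) (b (l 162839617799) (b (a (l 159618394663) (l 166060844567)) (l 112373750647))))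 (b (l 3) (c (l 162839617751) (l 162302746503)))) (l 3))) (a (l 16759800) (b (c (a (a (l 16759000) (a (l 16755808) (b (l 127943007207) (l 16758536)))) (a (b (l 161765876711) (l 113984363431)) (b (l 3) (l 160692135191)))) (a (b (l 110763136647) (l 16759024)) (a (b (l 160692134535) (l 16755200)) (l 161229005239)))) (c (a (l 16759776) (l 105394428375)) (l 16755184))))) (b (l 3) (a (b (l 3) (c (a (a (b (l 160155267223) (l 16758384)) (b (l 3) (c (l 131701103415) (l 131701103255)))) (l 165523972263)) (a (b (l 161229005687) (l 116668716567)) (l 164987101015)))) (l 3))))) (l 3))) (l 3)), by decide +kernel⟩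

def k67_pm_102_a : ∃ t, chk3 f_pm_102_a t 29 27 1 = true :=
  ⟨(a (b (a (b (a (b (l 16760368) (l 16761032)) (b (a (a (l 16755816) (a (b (c (b (l 122037426951) (l 16758824)) (l 112910620439)) (l 16760160)) (b (b (l 164450231399) (a (l 16758176) (l 130627362135))) (l 16759504)))) (a (a (b (c (l 164987102263) (l 164450231015)) (c (l 109152525143) (l 16756032))) (b (l 3) (b (l 162839619287) (l 16755808)))) (b (l 3) (c (b (l 3) (l 164450234743)) (l 163376489431))))) (a (l 16760712) (a (l 16760544) (a (l 16756256) (b (b (l 133311716215) (l 16758872)) (l 16760416))))))) (a (l 16761952) (l 16761632))) (b (a (b (l 3) (a (a (a (b (b (l 167671457223) (l 122037427287)) (l 16759616)) (b (l 167671457015) (l 111300008631))) (b (l 3) (a (b (l 166060845095) (l 16755928)) (l 166597718423)))) (l 3))) (l 3)) (a (b (a (c (l 103783815303) (l 16755712)) (a (b (b (l 166597718903) (l 118279330471)) (l 16760152)) (b (l 170892682535) (c (b (l 155860298903) (l 16756536)) (l 122037426167))))) (a (l 16761648) (l 16761408))) (b (a (l 175724519655)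 (l 3)) (a (a (b (c (l 118816201271) (l 117205588119)) (l 16761096)) (a (b (l 169282071431) (l 16759888)) (b (l 3) (l 129016749351)))) (b (l 3) (c (a (l 169282071863) (l 3)) (l 168745194615)))))))) (a (l 16763072) (b (a (l 16762528) (b (a (l 16761848) (a (l 107005040999) (b (a (l 139217296375) (l 173040168167)) (l 16760456)))) (l 16762336))) (l 16763240)))) (b (l 3) (a (b (a (b (a (a (b (l 3) (a (l 134922329527) (l 149954715031))) (l 176798262935)) (l 3)) (a (b (c (l 118816200327) (l 117205587415)) (l 16762288)) (b (l 177872005591) (l 170355815479)))) (l 3)) (a (b (a (l 16762664) (b (l 113447491735) (l 16762792))) (l 16763064)) (b (a (c (l 185925077543) (l 173040170135)) (l 3)) (a (l 16752672) (b (l 177872000359) (l 91435783847)))))) (b (l 3) (a (l 194515000791) (l 3)))))), by decide +kernel⟩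

def k68_pm_102_a : ∃ t, chk3 f_pm_102_a t 15 6 1 = true :=
  ⟨(l 3), by decide +kernel⟩

def k69_pm_102_a : ∃ t, chk3 f_pm_102_a t 14 14 1 = true :=
  ⟨(a (b (a (b (l 16735296) (l 16735416)) (b (a (l 16725008) (b (l 16729256) (a (l 16748376) (l 16730352)))) (a (l 16744560) (l 16727680)))) (a (b (l 16718824) (a (b (l 16740336) (l 16742368)) (b (l 16746112) (l 16726800)))) (a (b (l 16747200) (l 16726696)) (l 16739424)))) (b (a (b (a (b (l 16756096) (a (l 16730984) (l 16753784))) (b (l 16763176) (l 16756808))) (a (b (b (l 16730312) (l 16751560)) (l 16750632)) (b (a (l 16751976) (l 16754336)) (b (l 16731320) (l 16731968))))) (b (a (b (a (l 16763392) (l 16755680)) (l 16763216)) (b (a (b (a (b (l 129553628935) (l 16762136)) (b (l 3) (l 151028463335))) (a (l 16763808) (b (c (l 56002305319) (l 56539176039)) (l 16758168)))) (a (a (b (l 3) (b (l 3) (l 16758472))) (l 3)) (l 3))) (a (a (l 16763712) (l 16763912)) (b (b (a (a (l 16763192) (l 51707341463)) (l 146196626615)) (a (l 16764176) (a (a (l 16760000) (l 13589508871))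 (l 37211829319)))) (a (l 16764032) (a (l 16764224) (a (c (l 16759400) (l 16759040)) (b (b (l 16762088) (l 16763072)) (l 16764328))))))))) (a (b (a (l 16757056) (l 16762520)) (l 16755680)) (b (a (b (l 16763592) (l 16763848)) (b (a (l 16763984) (l 16764232)) (l 16764536))) (a (l 16762504) (l 16764968)))))) (a (b (a (l 16750728) (l 16752152)) (a (l 16751808) (l 16753000))) (b (a (b (a (l 16733360) (l 16734008)) (l 16734152)) (b (l 16759584) (a (l 16736128) (l 16758640)))) (a (l 16754904) (b (a (l 16756952) (l 16738656)) (l 16758080))))))), by decide +kernel⟩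

def k70_pm_102_a : ∃ t, chk3 f_pm_102_a t 14 15 1 = true :=
  ⟨(a (b (b (a (b (l 16723608) (l 16744432)) (b (a (l 16750568) (l 16730832)) (l 16750648))) (a (l 16744752) (l 16771968))) (b (a (a (l 16745032) (l 16748784)) (a (l 16751848) (l 16754336))) (a (a (b (l 16747936) (c (l 16756664) (b (l 16743704) (l 16745040)))) (b (l 16751672) (c (l 16759944) (b (l 16747864) (l 16749176))))) (a (b (l 16754712) (c (l 16762536) (b (l 16751304) (l 16752592)))) (b (l 16757160) (c (l 16764544) (l 16754744))))))) (b (a (b (b (a (l 16752480) (l 16754240)) (a (l 16733776) (b (l 16754704) (l 16755472)))) (a (l 16754296) (b (l 16756168) (l 16756288)))) (b (a (l 16735376) (l 16748264)) (b (a (b (a (l 16757224) (l 16757696)) (l 16758416)) (b (l 16759848) (l 16738928))) (a (l 16758296) (b (l 16740488) (l 16761240)))))) (a (b (a (l 16756336) (l 16757960)) (a (b (l 16759104) (c (l 16766056) (l 16757032))) (b (l 16760656) (a (l 16762736) (l 16763456))))) (b (a (l 16759888) (b (l 16761936) (l 16763256))) (a (b (l 16762496) (c (l 16768544)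 (b (l 16760504) (l 16761656)))) (b (l 16765024) (c (l 16770560) (b (l 16763376) (l 16764464))))))))), by decide +kernel⟩

def k71_pm_102_a : ∃ t, chk3 f_pm_102_a t 60 56 1 = true :=
  ⟨(a (b (l 3) (a (b (l 3) (a (c (b (a (a (l 43117410887) (l 3)) (l 3)) (b (a (a (l 16763464) (l 51170476311)) (l 3)) (b (a (l 16763976) (l 42043671751)) (a (l 16764392) (a (l 16762016) (l 16762800)))))) (b (a (c (l 39896184727) (l 39896184679)) (l 3)) (b (a (a (l 16763448) (l 16761408)) (l 3)) (a (l 16761720) (a (a (l 16760584) (l 16761592)) (l 16762608)))))) (l 3))) (l 3))) (l 3)), by decide +kernel⟩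

def k72_pm_102_a : ∃ t, chk3 f_pm_102_a t 60 57 1 = true :=
  ⟨(a (b (a (b (a (b (a (l 16764336) (a (b (l 16761648) (l 16764456)) (a (b (b (l 16761976) (l 16763904)) (l 16764504)) (b (b (l 16763024) (c (l 23790062535) (l 16762160))) (l 16764296))))) (l 16764600)) (b (a (a (a (c (b (l 39896192295) (l 69424090295)) (b (l 16762360) (l 16762536))) (b (l 3) (b (l 66739736071) (l 16762336)))) (b (l 3) (c (l 61371026023) (l 60834155063)))) (l 3)) (c (a (a (l 16764792) (a (l 16761880) (b (l 80698378935) (l 16764568)))) (a (b (l 64592251287) (l 67813476887)) (b (l 3) (l 67276605671)))) (a (a (l 16764752) (b (l 64055380231) (l 16764832))) (a (b (l 63518509399) (l 16762104)) (a (l 63518508823) (l 56002316791))))))) (a (l 16764944) (a (l 16765144) (b (c (l 73719056183) (l 16761792)) (l 16765392))))) (b (l 3) (a (a (a (b (b (a (l 75866540439) (l 64055380823)) (l 16761560)) (l 16765496)) (b (b (l 3) (l 73182185351)) (l 16762264))) (b (l 3) (a (b (l 75866539799) (l 16764496)) (b (l 16761728) (l 61371025079))))) (b (l 3) (l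 65665993927))))) (a (l 16765696) (b (a (c (l 16760736) (l 16760600)) (a (b (a (l 68350346135) (a (l 75866538871) (l 68887217207))) (l 16766032)) (b (l 57076056007) (c (l 64055377687) (l 63518506679))))) (a (l 16766304) (l 16766568))))) (b (l 3) (a (b (a (l 91435800247) (l 3)) (a (b (a (l 67276603223) (l 61907893895)) (l 72108440679)) (a (b (l 3) (l 64055377543)) (l 3)))) (l 3)))), by decide +kernel⟩

def k73_pm_102_a : ∃ t, chk3 f_pm_102_a t 61 28 1 = true :=
  ⟨(l 3), by decide +kernel⟩

def k74_pm_102_a : ∃ t, chk3 f_pm_102_a t 60 29 1 = true :=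
  ⟨(b (a (b (a (l 16766080) (l 16766992)) (l 16763728)) (b (a (b (a (l 16767192) (a (l 74255924327) (b (l 66202860759) (l 16765688)))) (l 16767656)) (b (a (a (b (l 3) (l 67813473783)) (l 117205591831)) (l 3)) (b (a (c (l 66202860263) (l 65665989223)) (l 132774849015)) (a (l 16767488) (a (l 84993343719) (l 132774860599)))))) (a (l 16768080) (b (a (l 16768264) (b (c (l 90898923431) (l 76940279623)) (l 16768416))) (l 16768632))))) (a (b (a (b (l 16760640) (l 16760896)) (l 16762752)) (a (l 16760480) (b (l 16762136) (l 16762320)))) (b (l 16768312) (a (b (l 16764240) (l 16742504)) (l 16766144))))), by decide +kernel⟩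

def k75_pm_102_a : ∃ t, chk3 f_pm_102_a t 61 58 1 = true :=
  ⟨(a (b (l 3) (a (b (a (b (l 153712820967) (a (l 93583279607) (l 136532952359))) (l 3)) (a (c (b (l 16761824) (l 16769016)) (l 87140827543)) (a (b (c (l 132774856823) (l 133848598391)) (l 16761344)) (b (l 3) (a (l 104320699207) (l 138680438471)))))) (l 3))) (l 3)), by decide +kernel⟩

def k76_pm_102_a : ∃ t, chk3 f_pm_102_a t 61 59 1 = true :=
  ⟨(a (b (a (b (a (l 16769176) (c (l 84456475175) (l 16761360))) (l 16769528)) (b (c (a (b (a (b (l 136532955831) (l 102710087975)) (l 151565344503)) (a (l 16767608) (b (l 131701117687) (l 96804508871)))) (l 151028472967)) (a (b (a (b (l 137069826471) (l 101099475175)) (l 152639086087)) (a (l 16767568) (b (l 132237988423) (l 97341379575)))) (l 152639085527))) (a (c (l 16761920) (l 16764472)) (a (b (b (a (l 102710090039) (l 141901667127)) (l 93583283975)) (l 16768648)) (a (b (c (l 149417862599) (l 150491604167)) (l 91435800791)) (b (l 3) (b (l 135459216535) (l 16766952)))))))) (a (l 16769696) (b (a (l 16770016)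 (c (l 16764912) (l 16764816))) (l 16770368)))) (b (a (b (l 3) (a (a (a (b (l 3) (a (b (l 3) (l 117205606663)) (l 149417863063))) (l 3)) (l 3)) (l 3))) (l 3)) (a (b (a (a (a (c (l 86603963095) (l 16763768)) (b (b (a (l 111836897703) (l 125795541351)) (l 16767504)) (l 16769288))) (a (b (b (l 149954734391) (a (l 107005059831) (l 125258671207))) (l 16763128)) (b (l 149417863447) (b (a (l 16765480) (l 118279349319)) (l 16768056))))) (a (a (b (l 3) (b (l 148880993351) (b (l 130090509895) (l 16767440)))) (b (l 3) (b (l 3) (l 148344125479)))) (l 3))) (a (l 16765216) (a (a (l 16765512) (b (b (b (l 124184931319) (l 16767712)) (l 16768600)) (l 16770368))) (a (b (c (b (l 147270381559) (c (l 98951997207) (l 98951997111))) (b (l 147807252247) (l 99488867799))) (l 16769464)) (b (a (b (l 3) (a (l 125258672919) (l 126332414007))) (l 148344124343)) (c (b (l 95730772023) (l 16769160)) (l 92509545783))))))) (b (l 3) (a (a (a (b (l 3) (c (b (b (l 147270382023) (l 132237995191)) (l 93046418055)) (b (c (l 146196643063) (l 146733511239))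 (l 16765584)))) (b (l 3) (b (l 3) (b (l 146733514039) (a (l 16767856) (l 133848607591)))))) (l 3)) (l 3)))))), by decide +kernel⟩

def k77_pm_102_a : ∃ t, chk3 f_pm_102_a t 31 14 1 = true :=
  ⟨(l 3), by decide +kernel⟩

def k78_pm_102_a : ∃ t, chk3 f_pm_102_a t 60 30 1 = true :=
  ⟨(b (a (b (l 16761344) (l 16761880)) (b (a (l 16743432) (b (l 16743960) (l 16765800))) (l 16743920))) (b (a (l 16762848) (l 16765760)) (a (b (a (l 16762784) (l 16764576)) (a (l 16763960) (l 16765368))) (a (l 16744824) (l 16767776))))), by decide +kernel⟩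

def k79_pm_102_a : ∃ t, chk3 f_pm_102_a t 61 60 1 = true :=
  ⟨(a (b (a (b (l 16767376) (l 16745520)) (l 16769256)) (a (b (l 16746408) (l 16767288)) (b (l 16747152) (a (l 16768720) (l 16768872))))) (b (a (b (a (l 16770824) (l 16765592)) (l 16771224)) (b (a (a (b (c (c (l 87140837719) (l 16765624)) (l 16765936)) (l 16770912)) (a (b (a (b (b (l 132774866151) (l 16768120)) (l 16769000)) (b (b (l 3) (l 122574319223)) (l 16768552))) (l 16770528)) (b (b (l 147807253319) (b (a (l 122574319623) (l 147270382919)) (a (l 16768392) (l 122037449111)))) (l 16767008)))) (b (a (a (a (b (l 3) (l 146733512007)) (l 3)) (l 3)) (l 3)) (c (a (a (a (b (c (l 101099483143) (l 101099483063)) (l 16769552)) (b (b (l 147270383991) (l 119353095127)) (l 16769112))) (a (b (l 145122899751) (l 97341387223)) (b (l 3) (b (l 147807255559) (l 16768528))))) (a (a (a (b (l 3) (l 140291063335)) (l 145659770535)) (l 3)) (l 3))) (a (a (b (b (l 128479899975) (l 100562612311)) (l 16769288)) (b (l 146733512199) (a (l 16767296) (a (l 109689417943) (l 119353094375)))))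 (a (a (b (l 3) (l 145122899975)) (l 3)) (l 3)))))) (a (l 16771240) (b (c (a (l 16766672) (a (a (b (l 16767624) (l 16770072)) (b (b (l 130090513111) (l 16768784)) (l 16769632))) (a (b (b (l 3) (l 122037449735)) (l 16769200)) (b (l 145659771143) (a (l 100025742583) (b (l 144049159719) (l 16768936))))))) (a (l 16765368) (a (a (l 16766840) (b (a (l 104857580135) (l 113984385559)) (l 16769592))) (a (b (c (l 141364804055) (l 141364803975)) (l 16769136)) (b (l 147270383719) (a (l 16767496) (l 109152547655))))))) (a (l 16771296) (l 16767200)))))) (a (l 16769744) (b (a (l 16771712) (l 16771656)) (l 16772016))))), by decide +kernel⟩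

def k80_pm_102_a : ∃ t, chk3 f_pm_102_a t 61 61 1 = true :=
  ⟨(a (b (a (l 16767928) (l 16769248)) (a (l 16769144) (l 16770408))) (b (a (b (a (l 16770184) (l 16749176)) (l 16770920)) (b (l 16771248) (l 6))) (a (l 16771464) (l 6)))), by decide +kernel⟩

def k81_pm_102_a : ∃ t, chk3 f_pm_102_a t 30 31 1 = true :=
  ⟨(b (a (b (a (l 16765096) (b (a (l 16767840) (l 16747824)) (l 16768672))) (a (l 16766312) (l 16769528))) (a (b (b (a (l 16770112) (l 16771544)) (a (l 16756360) (l 6))) (l 6)) (l 6))) (a (a (b (l 16767968) (c (l 16783440) (b (l 16766664) (l 16767680)))) (b (l 16781544) (l 6))) (l 6))), by decide +kernel⟩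

def k82_pm_102_a : ∃ t, chk3 f_pm_102_a t 31 15 1 = true :=
  ⟨(b (a (b (a (b (a (b (l 3) (a (b (a (a (a (b (l 3) (b (l 145659771463) (c (l 120426837703) (l 124721805159)))) (b (l 3) (l 145122901847))) (l 3)) (l 3)) (c (a (a (a (l 16767400) (b (b (l 120426838103) (l 16769304)) (l 16770152))) (a (b (b (l 143512288295) (l 120426838503)) (l 16769712)) (b (c (l 142975417399) (l 144049159143)) (b (l 120963709815) (l 16769560))))) (a (a (b (l 3) (b (l 145659773079) (l 120963710215))) (b (l 3) (b (l 3) (l 146196644279)))) (l 3))) (a (b (c (a (b (l 101636355255) (l 16769480)) (a (a (l 115058128215) (l 125795546679)) (l 144586029975))) (a (l 97341387559) (b (l 145659771607) (l 124184934135)))) (c (a (l 16770360) (l 93583291751)) (l 91435807655))) (a (a (b (l 3) (b (l 147270385655) (l 16769064))) (b (l 3) (c (l 143512288551) (l 144586030295)))) (l 3))))) (l 3))) (l 3)) (a (b (a (b (a (l 16768816) (c (b (c (a (l 89288325063) (a (b (l 144586031639) (l 16769400)) (b (l 3) (c (l 127406160391) (l 127943031271))))) (a (l 16767776)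 (a (b (l 130090514631) (l 16769368)) (b (l 3) (l 129553644103))))) (c (l 16767832) (l 16767816))) (b (a (l 16767744) (a (b (l 131701127415) (l 16769312)) (b (l 3) (l 131164256887)))) (l 16767800)))) (c (l 16769088) (l 16769008))) (a (b (b (l 3) (a (a (b (a (l 119353097239) (l 146196644679)) (l 6)) (l 6)) (l 6))) (l 6)) (l 6))) (a (l 16772104) (l 6))) (l 6))) (l 3)) (l 6)) (l 3)) (l 6)), by decide +kernel⟩

theorem s83_pm_102_a : ∃ t, chk3 f_pm_102_a t 61 30 1 = true := ex3_b k79_pm_102_a k80_pm_102_a

theorem s84_pm_102_a : ∃ t, chk3 f_pm_102_a t 30 30 1 = true := ex3_a k78_pm_102_a s83_pm_102_a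

theorem s85_pm_102_a : ∃ t, chk3 f_pm_102_a t 30 15 1 = true := ex3_b s84_pm_102_a k81_pm_102_a

theorem s86_pm_102_a : ∃ t, chk3 f_pm_102_a t 15 15 1 = true := ex3_a s85_pm_102_a k82_pm_102_a

theorem s87_pm_102_a : ∃ t, chk3 f_pm_102_a t 61 29 1 = true := ex3_b k75_pm_102_a k76_pm_102_a

theorem s88_pm_102_a : ∃ t, chk3 f_pm_102_a t 30 29 1 = true := ex3_a k74_pm_102_a s87_pm_102_a

theorem s89_pm_102_a : ∃ t, chk3 f_pm_102_a t 60 28 1 = true := ex3_b k71_pm_102_a k72_pm_102_a

theorem s90_pm_102_a : ∃ t, chk3 f_pm_102_a t 30 28 1 = true := ex3_a s89_pm_102_a k73_pm_102_a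

theorem s91_pm_102_a : ∃ t, chk3 f_pm_102_a t 30 14 1 = true := ex3_b s90_pm_102_a s88_pm_102_a

theorem s92_pm_102_a : ∃ t, chk3 f_pm_102_a t 15 14 1 = true := ex3_a s91_pm_102_a k77_pm_102_a

theorem s93_pm_102_a : ∃ t, chk3 f_pm_102_a t 15 7 1 = true := ex3_b s92_pm_102_a s86_pm_102_a

theorem s94_pm_102_a : ∃ t, chk3 f_pm_102_a t 14 7 1 = true := ex3_b k69_pm_102_a k70_pm_102_a

theorem s95_pm_102_a : ∃ t, chk3 f_pm_102_a t 7 7 1 = true := ex3_a s94_pm_102_a s93_pm_102_a

theorem s96_pm_102_a : ∃ t, chk3 f_pm_102_a t 29 13 1 = true := ex3_b k66_pm_102_a k67_pm_102_a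

theorem s97_pm_102_a : ∃ t, chk3 f_pm_102_a t 29 6 1 = true := ex3_b k65_pm_102_a s96_pm_102_a

theorem s98_pm_102_a : ∃ t, chk3 f_pm_102_a t 114 52 1 = true := ex3_b k60_pm_102_a k61_pm_102_a

theorem s99_pm_102_a : ∃ t, chk3 f_pm_102_a t 57 52 1 = true := ex3_a s98_pm_102_a k62_pm_102_a

theorem s100_pm_102_a : ∃ t, chk3 f_pm_102_a t 57 26 1 = true := ex3_b s99_pm_102_a k63_pm_102_a

theorem s101_pm_102_a : ∃ t, chk3 f_pm_102_a t 28 26 1 = true := ex3_a k59_pm_102_a s100_pm_102_a

theorem s102_pm_102_a : ∃ t, chk3 f_pm_102_a t 28 13 1 = true := ex3_b s101_pm_102_a k64_pm_102_a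

theorem s103_pm_102_a : ∃ t, chk3 f_pm_102_a t 56 51 1 = true := ex3_a k56_pm_102_a k57_pm_102_a

theorem s104_pm_102_a : ∃ t, chk3 f_pm_102_a t 56 25 1 = true := ex3_b k55_pm_102_a s103_pm_102_a

theorem s105_pm_102_a : ∃ t, chk3 f_pm_102_a t 28 25 1 = true := ex3_a s104_pm_102_a k58_pm_102_a

theorem s106_pm_102_a : ∃ t, chk3 f_pm_102_a t 28 12 1 = true := ex3_b k54_pm_102_a s105_pm_102_a

theorem s107_pm_102_a : ∃ t, chk3 f_pm_102_a t 28 6 1 = true := ex3_b s106_pm_102_a s102_pm_102_a

theorem s108_pm_102_a : ∃ t, chk3 f_pm_102_a t 14 6 1 = true := ex3_a s107_pm_102_a s97_pm_102_a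

theorem s109_pm_102_a : ∃ t, chk3 f_pm_102_a t 7 6 1 = true := ex3_a s108_pm_102_a k68_pm_102_a

theorem s110_pm_102_a : ∃ t, chk3 f_pm_102_a t 7 3 1 = true := ex3_b s109_pm_102_a s95_pm_102_a

theorem s111_pm_102_a : ∃ t, chk3 f_pm_102_a t 26 15 1 = true := ex3_b k51_pm_102_a k52_pm_102_a

theorem s112_pm_102_a : ∃ t, chk3 f_pm_102_a t 13 15 1 = true := ex3_a s111_pm_102_a k53_pm_102_a

theorem s113_pm_102_a : ∃ t, chk3 f_pm_102_a t 13 7 1 = true := ex3_b k50_pm_102_a s112_pm_102_a

theorem s114_pm_102_a : ∃ t, chk3 f_pm_102_a t 101 127 1 = true := ex3_b k47_pm_102_a k48_pm_102_a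

theorem s115_pm_102_a : ∃ t, chk3 f_pm_102_a t 100 255 1 = true := ex3_c k45_pm_102_a k46_pm_102_a

theorem s116_pm_102_a : ∃ t, chk3 f_pm_102_a t 100 127 1 = true := ex3_b k44_pm_102_a s115_pm_102_a

theorem s117_pm_102_a : ∃ t, chk3 f_pm_102_a t 50 127 1 = true := ex3_a s116_pm_102_a s114_pm_102_a

theorem s118_pm_102_a : ∃ t, chk3 f_pm_102_a t 50 63 1 = true := ex3_b k43_pm_102_a s117_pm_102_a

theorem s119_pm_102_a : ∃ t, chk3 f_pm_102_a t 25 63 1 = true := ex3_a s118_pm_102_a k49_pm_102_a

theorem s120_pm_102_a : ∃ t, chk3 f_pm_102_a t 25 31 1 = true := ex3_b k42_pm_102_a s119_pm_102_a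

theorem s121_pm_102_a : ∃ t, chk3 f_pm_102_a t 25 15 1 = true := ex3_b k41_pm_102_a s120_pm_102_a

theorem s122_pm_102_a : ∃ t, chk3 f_pm_102_a t 49 127 1 = true := ex3_a k39_pm_102_a k40_pm_102_a

theorem s123_pm_102_a : ∃ t, chk3 f_pm_102_a t 24 127 1 = true := ex3_a k38_pm_102_a s122_pm_102_a

theorem s124_pm_102_a : ∃ t, chk3 f_pm_102_a t 24 63 1 = true := ex3_b k37_pm_102_a s123_pm_102_a

theorem s125_pm_102_a : ∃ t, chk3 f_pm_102_a t 24 31 1 = true := ex3_b k36_pm_102_a s124_pm_102_a

theorem s126_pm_102_a : ∃ t, chk3 f_pm_102_a t 24 15 1 = true := ex3_b k35_pm_102_a s125_pm_102_a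

theorem s127_pm_102_a : ∃ t, chk3 f_pm_102_a t 12 15 1 = true := ex3_a s126_pm_102_a s121_pm_102_a

theorem s128_pm_102_a : ∃ t, chk3 f_pm_102_a t 12 7 1 = true := ex3_b k34_pm_102_a s127_pm_102_a

theorem s129_pm_102_a : ∃ t, chk3 f_pm_102_a t 6 7 1 = true := ex3_a s128_pm_102_a s113_pm_102_a

theorem s130_pm_102_a : ∃ t, chk3 f_pm_102_a t 27 24 1 = true := ex3_a k30_pm_102_a k31_pm_102_a

theorem s131_pm_102_a : ∃ t, chk3 f_pm_102_a t 27 12 1 = true := ex3_b s130_pm_102_a k32_pm_102_a

theorem s132_pm_102_a : ∃ t, chk3 f_pm_102_a t 13 12 1 = true := ex3_a k29_pm_102_a s131_pm_102_a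

theorem s133_pm_102_a : ∃ t, chk3 f_pm_102_a t 13 6 1 = true := ex3_b s132_pm_102_a k33_pm_102_a

theorem s134_pm_102_a : ∃ t, chk3 f_pm_102_a t 6 6 1 = true := ex3_a k28_pm_102_a s133_pm_102_a

theorem s135_pm_102_a : ∃ t, chk3 f_pm_102_a t 6 3 1 = true := ex3_b s134_pm_102_a s129_pm_102_a

theorem s136_pm_102_a : ∃ t, chk3 f_pm_102_a t 3 3 1 = true := ex3_a s135_pm_102_a s110_pm_102_a

theorem s137_pm_102_a : ∃ t, chk3 f_pm_102_a t 12 10 1 = true := ex3_a k23_pm_102_a k24_pm_102_a

theorem s138_pm_102_a : ∃ t, chk3 f_pm_102_a t 12 5 1 = true := ex3_b s137_pm_102_a k25_pm_102_a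

theorem s139_pm_102_a : ∃ t, chk3 f_pm_102_a t 48 19 1 = true := ex3_b k19_pm_102_a k20_pm_102_a

theorem s140_pm_102_a : ∃ t, chk3 f_pm_102_a t 24 19 1 = true := ex3_a s139_pm_102_a k21_pm_102_a

theorem s141_pm_102_a : ∃ t, chk3 f_pm_102_a t 24 9 1 = true := ex3_b k18_pm_102_a s140_pm_102_a

theorem s142_pm_102_a : ∃ t, chk3 f_pm_102_a t 24 4 1 = true := ex3_b k17_pm_102_a s141_pm_102_a

theorem s143_pm_102_a : ∃ t, chk3 f_pm_102_a t 12 4 1 = true := ex3_a s142_pm_102_a k22_pm_102_a

theorem s144_pm_102_a : ∃ t, chk3 f_pm_102_a t 12 2 1 = true := ex3_b s143_pm_102_a s138_pm_102_a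

theorem s145_pm_102_a : ∃ t, chk3 f_pm_102_a t 6 2 1 = true := ex3_a s144_pm_102_a k26_pm_102_a

theorem s146_pm_102_a : ∃ t, chk3 f_pm_102_a t 3 2 1 = true := ex3_a s145_pm_102_a k27_pm_102_a

theorem s147_pm_102_a : ∃ t, chk3 f_pm_102_a t 3 1 1 = true := ex3_b s146_pm_102_a s136_pm_102_a

theorem s148_pm_102_a : ∃ t, chk3 f_pm_102_a t 22 63 1 = true := ex3_a k14_pm_102_a k15_pm_102_a

theorem s149_pm_102_a : ∃ t, chk3 f_pm_102_a t 22 31 1 = true := ex3_b k13_pm_102_a s148_pm_102_a

theorem s150_pm_102_a : ∃ t, chk3 f_pm_102_a t 11 31 1 = true := ex3_a s149_pm_102_a k16_pm_102_a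

theorem s151_pm_102_a : ∃ t, chk3 f_pm_102_a t 11 15 1 = true := ex3_b k12_pm_102_a s150_pm_102_a

theorem s152_pm_102_a : ∃ t, chk3 f_pm_102_a t 11 7 1 = true := ex3_b k11_pm_102_a s151_pm_102_a

theorem s153_pm_102_a : ∃ t, chk3 f_pm_102_a t 5 7 1 = true := ex3_a k10_pm_102_a s152_pm_102_a

theorem s154_pm_102_a : ∃ t, chk3 f_pm_102_a t 5 3 1 = true := ex3_b k9_pm_102_a s153_pm_102_a

theorem s155_pm_102_a : ∃ t, chk3 f_pm_102_a t 2 3 1 = true := ex3_a k8_pm_102_a s154_pm_102_a

theorem s156_pm_102_a : ∃ t, chk3 f_pm_102_a t 23 18 1 = true := ex3_a k4_pm_102_a k5_pm_102_a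

theorem s157_pm_102_a : ∃ t, chk3 f_pm_102_a t 23 9 1 = true := ex3_b s156_pm_102_a k6_pm_102_a

theorem s158_pm_102_a : ∃ t, chk3 f_pm_102_a t 23 4 1 = true := ex3_b k3_pm_102_a s157_pm_102_a

theorem s159_pm_102_a : ∃ t, chk3 f_pm_102_a t 11 4 1 = true := ex3_a k2_pm_102_a s158_pm_102_a

theorem s160_pm_102_a : ∃ t, chk3 f_pm_102_a t 11 2 1 = true := ex3_b s159_pm_102_a k7_pm_102_a

theorem s161_pm_102_a : ∃ t, chk3 f_pm_102_a t 5 2 1 = true := ex3_a k1_pm_102_a s160_pm_102_a

theorem s162_pm_102_a : ∃ t, chk3 f_pm_102_a t 2 2 1 = true := ex3_a k0_pm_102_a s161_pm_102_a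

theorem s163_pm_102_a : ∃ t, chk3 f_pm_102_a t 2 1 1 = true := ex3_b s162_pm_102_a s155_pm_102_a

theorem s164_pm_102_a : ∃ t, chk3 f_pm_102_a t 1 1 1 = true := ex3_a s163_pm_102_a s147_pm_102_a

theorem c_pm_102_a : CertB 536870912 536870912 0 536870912 780900216 37827925 3 eng mog cd0q1 cd1q2a pd0 false true false .npp 1 0 2
    ndB0q1 ndB1q2a pcB0 cut_pm_102_a xt_pm_102_a :=
  certB0 (fam := false) (s1 := true) (s2 := false) (a := 1) (b := 0) (c := 2) (cn := .npp) (n1 := ndB0q1) (n2 := ndB1q2a) (pc := pcB0) (cut := cut_pm_102_a) (xt := xt_pm_102_a) (P1 := 536870912) (W1 := 536870912) (P2 := 0) (W2 := 536870912) (P3 := 780900216) (W3 := 37827925) (N0 := 3) (En := eng) (mo := mog) (C1 := cd0q1) (C2 := cd1q2a) (C3 := pd0)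
    rfl s164_pm_102_a

noncomputable def cut_pm_102_b : Cut := Cut.of [[⟨0, 1, 0, 67108864⟩, ⟨1, 0, 0, 67108864⟩, ⟨2, 1, 0, 67108864⟩], [⟨0, 0, 1, 26214400⟩, ⟨1, 1, 2, 26214400⟩, ⟨2, 1, 0, 33554432⟩]]

noncomputable def f_pm_102_b : ℕ → ℕ → ℕ → ℕ → Bool := onCell 0 536870912 1239849684 370763052 780900216 37827925
    (rowB 3 eng mog cd0q1 cd1q2b pd0 2 false true false .npp 1 0 2 (qsf 536870912 536870912 1239849684 370763052 0) ndB0q1 ndB1q2b pcB0 cut_pm_102_b Ext.none)

def k0_pm_102_b : ∃ t, chk3 f_pm_102_b t 1 1 1 = true :=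
  ⟨(a (l 3) (b (a (l 3) (b (a (l 3) (a (l 3) (b (a (b (a (l 3) (b (a (b (b (a (l 3) (a (l 3) (a (l 16770640) (l 16771416)))) (l 3)) (l 3)) (b (a (b (c (l 16769024) (l 16768592)) (l 47949261863)) (b (l 16768456) (l 16765680))) (a (l 3) (l 78550895703)))) (l 3))) (l 3)) (b (b (a (b (a (l 16771552) (l 16764696)) (a (a (l 16760936) (l 16760872)) (l 16760248))) (b (l 16761456) (l 16758288))) (b (a (a (l 84456464327) (l 16754744)) (l 16753768)) (a (l 137606675319) (l 16748496)))) (a (l 3) (b (a (l 101636307239) (l 16739480)) (l 3))))) (l 3)))) (l 3))) (a (l 3) (l 3)))), by decide +kernel⟩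

theorem c_pm_102_b : CertB 536870912 536870912 1239849684 370763052 780900216 37827925 3 eng mog cd0q1 cd1q2b pd0 false true false .npp 1 0 2
    ndB0q1 ndB1q2b pcB0 cut_pm_102_b Ext.none :=
  certB2 (fam := false) (s1 := true) (s2 := false) (a := 1) (b := 0) (c := 2) (cn := .npp) (n1 := ndB0q1) (n2 := ndB1q2b) (pc := pcB0) (cut := cut_pm_102_b) (xt := Ext.none) (P1 := 536870912) (W1 := 536870912) (P2 := 1239849684) (W2 := 370763052) (P3 := 780900216) (W3 := 37827925) (N0 := 3) (En := eng) (mo := mog) (C1 := cd0q1) (C2 := cd1q2b) (C3 := pd0)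
    rfl (fun _ => rfl) k0_pm_102_b

noncomputable def f_pm_112_a : ℕ → ℕ → ℕ → ℕ → Bool := onCell 536870912 536870912 0 536870912 780900216 37827925
    (rowB 3 eng mog cd0q1 cd1q2a pd1 0 false true false .dn 1 1 2 (qsf 536870912 536870912 0 536870912 1) ndB0q1 ndB1q2a pcB1 Cut.none Ext.none)

def k0_pm_112_a : ∃ t, chk3 f_pm_112_a t 1 1 1 = true :=
  ⟨(a (b (a (b (a (b (a (a (l 16595712) (l 16609016)) (a (l 16643208) (b (l 16647576) (l 16623456)))) (a (a (l 16554832) (l 16566536)) (a (l 16578160) (l 16589640)))) (b (a (b (a (b (l 16687088) (l 16654808)) (b (l 16679624) (l 16687720))) (a (l 16636096) (l 16670320))) (b (a (l 16686496) (l 16720920)) (a (b (a (l 16664096) (l 16670000)) (l 16655440)) (b (l 16680024) (a (l 16663592) (l 16669560)))))) (a (a (l 16601000) (l 16612256)) (b (a (l 16635848) (a (l 16644504) (l 16651112))) (l 16637040))))) (a (b (a (a (b (l 16526360) (l 16507488)) (l 16526816)) (b (l 16551400) (l 16529744))) (a (b (l 16557344) (l 16474608)) (b (l 16549024) (l 16485264)))) (b (a (b (l 16570904)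 (l 16546584)) (b (l 16590112) (l 16563224))) (a (b (l 16521152) (l 16515552)) (b (l 16534800) (l 16545336)))))) (a (a (b (b (b (a (a (l 16710448) (l 16738688)) (a (l 16746208) (b (l 16761368) (l 16725592)))) (a (l 16728312) (a (l 16696528) (l 16724536)))) (b (a (b (a (l 16662320) (l 16668480)) (a (l 16649288) (l 16655368))) (a (b (l 16674984) (l 16660136)) (l 16674008))) (a (l 16631928) (b (a (l 16646712) (l 16652208)) (l 16635200))))) (b (a (l 16632184) (l 36003690775)) (a (l 16549864) (l 1)))) (b (b (l 1) (l 1)) (l 1))) (l 1))) (a (b (a (b (a (b (l 16454224) (l 16432728)) (b (l 16460656) (l 16434696))) (a (l 16375800) (l 16390744))) (b (a (l 16535344) (b (l 16534928) (l 16437280))) (a (l 16384464) (l 16379072)))) (a (b (a (l 16336504) (l 16318608)) (a (b (l 16293224) (a (l 16266296) (l 16253928))) (l 179347403895))) (b (a (l 16300128) (l 1)) (l 1)))) (b (l 1) (l 1)))) (l 1)), by decide +kernel⟩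

theorem c_pm_112_a : CertB 536870912 536870912 0 536870912 780900216 37827925 3 eng mog cd0q1 cd1q2a pd1 false true false .dn 1 1 2
    ndB0q1 ndB1q2a pcB1 Cut.none Ext.none :=
  certB0 (fam := false) (s1 := true) (s2 := false) (a := 1) (b := 1) (c := 2) (cn := .dn) (n1 := ndB0q1) (n2 := ndB1q2a) (pc := pcB1) (cut := Cut.none) (xt := Ext.none) (P1 := 536870912) (W1 := 536870912) (P2 := 0) (W2 := 536870912) (P3 := 780900216) (W3 := 37827925) (N0 := 3) (En := eng) (mo := mog) (C1 := cd0q1) (C2 := cd1q2a) (C3 := pd1)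
    rfl k0_pm_112_a

noncomputable def f_pm_112_b : ℕ → ℕ → ℕ → ℕ → Bool := onCell 536870912 536870912 1239849684 370763052 780900216 37827925
    (rowB 3 eng mog cd0q1 cd1q2b pd1 0 false true false .dn 1 1 2 (qsf 536870912 536870912 1239849684 370763052 1) ndB0q1 ndB1q2b pcB1 Cut.none Ext.none)

def k0_pm_112_b : ∃ t, chk3 f_pm_112_b t 4 2 1 = true :=
  ⟨(b (a (b (a (b (a (l 16602528) (l 16617504)) (l 16578136)) (b (a (l 16632408) (b (l 16653784) (l 16640768))) (l 16611696))) (a (l 16546192) (l 16563992))) (b (a (a (b (a (l 16678848) (l 16665264)) (l 16636624)) (b (l 16696840) (l 16652136))) (b (a (b (l 16694920) (l 16684744)) (b (l 16729976) (l 16699056))) (a (l 16667408) (l 16682176)))) (a (b (l 16658872) (l 16587464)) (b (l 16649752) (l 16622448))))) (a (a (b (l 16447704) (l 16363704)) (b (l 16493368) (l 16416448))) (b (a (l 16538392) (b (l 16592920) (l 16563416))) (a (l 16467384) (l 16517120))))), by decide +kernel⟩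

def k1_pm_112_b : ∃ t, chk3 f_pm_112_b t 5 2 1 = true :=
  ⟨(b (a (b (a (b (a (b (a (l 16719896) (l 16748328)) (l 16713440)) (b (a (b (l 16737392) (l 16732352)) (b (l 24729578503) (l 16739760))) (a (l 16724184) (l 16731072)))) (a (l 16696488) (b (l 16715984) (l 16704072)))) (b (a (b (a (b (l 98280909287) (l 16747048)) (b (l 1) (l 90764712871))) (a (l 16737672) (l 49962517831))) (a (b (l 1) (b (l 1) (l 16745712))) (l 1))) (a (b (a (l 16725240) (l 16730752)) (l 16715640)) (a (b (l 16735568) (l 16722576)) (b (a (l 16738480) (l 135861856743)) (l 16726152)))))) (a (b (a (l 16672432) (l 16685920)) (l 16654424)) (b (a (l 16697216) (b (l 16711824) (l 16699640))) (a (l 16673008) (l 16681632))))) (a (b (b (l 1) (a (a (b (l 1) (l 152102183799)) (l 3)) (l 1))) (a (a (b (a (l 16730248) (l 146733475751)) (l 16685920)) (b (l 204178666215) (l 16727840))) (b (l 3) (a (l 200420522423) (l 3))))) (l 3))) (a (b (a (b (l 16628720) (l 16602088)) (b (l 16653848) (l 16630104))) (a (l 16600144) (b (l 16606232) (l 16581496)))) (a (b (a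 (b (l 16663936) (l 16641752)) (b (l 136532866887) (l 16644584))) (a (l 16609472) (l 16676880))) (b (a (b (l 3) (l 192367372455)) (l 3)) (a (b (l 129553457463) (l 16606056)) (l 182703727735)))))), by decide +kernel⟩

def k2_pm_112_b : ∃ t, chk3 f_pm_112_b t 2 3 1 = true :=
  ⟨(a (b (a (a (b (l 16274224) (l 16179984)) (l 16291288)) (a (l 16353336) (l 16412696))) (a (a (b (l 16081576) (l 15979504)) (b (l 16157328) (l 16063552))) (a (l 16188872) (l 16265016)))) (b (a (b (a (l 16499296) (l 16542320)) (a (l 16438128) (l 16487120))) (a (b (a (l 16565224) (l 16574496)) (l 16547592)) (b (a (l 16663248) (b (l 16586688) (l 16571920))) (b (l 16555544) (l 16539400))))) (a (a (l 16337848) (b (l 16433328) (l 16378136))) (b (a (l 16482112) (a (l 16508400) (l 16519792))) (a (l 16437512) (l 16483752)))))), by decide +kernel⟩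

def k3_pm_112_b : ∃ t, chk3 f_pm_112_b t 3 1 1 = true :=
  ⟨(a (a (b (l 3) (b (a (b (a (l 168745004999) (l 3)) (a (b (l 16554920) (l 16543312)) (b (l 3) (l 147270030471)))) (l 3)) (a (b (a (l 16525392) (b (l 16528984) (l 16521240))) (a (l 16504616) (l 16510368))) (b (a (b (l 3) (l 126332023223)) (l 3)) (a (b (l 16510720) (l 16508176)) (b (l 3) (l 16499504))))))) (l 3)) (l 3)), by decide +kernel⟩

theorem s4_pm_112_b : ∃ t, chk3 f_pm_112_b t 2 2 1 = true := ex3_a k0_pm_112_b k1_pm_112_b

theorem s5_pm_112_b : ∃ t, chk3 f_pm_112_b t 2 1 1 = true := ex3_b s4_pm_112_b k2_pm_112_b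

theorem s6_pm_112_b : ∃ t, chk3 f_pm_112_b t 1 1 1 = true := ex3_a s5_pm_112_b k3_pm_112_b

theorem c_pm_112_b : CertB 536870912 536870912 1239849684 370763052 780900216 37827925 3 eng mog cd0q1 cd1q2b pd1 false true false .dn 1 1 2
    ndB0q1 ndB1q2b pcB1 Cut.none Ext.none :=
  certB0 (fam := false) (s1 := true) (s2 := false) (a := 1) (b := 1) (c := 2) (cn := .dn) (n1 := ndB0q1) (n2 := ndB1q2b) (pc := pcB1) (cut := Cut.none) (xt := Ext.none) (P1 := 536870912) (W1 := 536870912) (P2 := 1239849684) (W2 := 370763052) (P3 := 780900216) (W3 := 37827925) (N0 := 3) (En := eng) (mo := mog) (C1 := cd0q1) (C2 := cd1q2b) (C3 := pd1)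
    rfl s6_pm_112_b

noncomputable def cut_pm_113 : Cut := Cut.of [[⟨0, 1, 0, 67108864⟩, ⟨1, 1, 0, 67108864⟩, ⟨2, 2, 0, 16777216⟩]]

noncomputable def f_pm_113 : ℕ → ℕ → ℕ → ℕ → Bool := onCell 536870912 536870912 536870912 536870912 780900216 37827925
    (rowB 3 eng mog cd0q1 cd1q3 pd1 1 false true false .nn 1 1 3 (qsf 536870912 536870912 1610612736 536870912 1) ndB0q1 ndB1q3 pcB1 cut_pm_113 Ext.none)

def k0_pm_113 : ∃ t, chk3 f_pm_113 t 1 2 1 = true :=
  ⟨(a (b (l 1) (a (l 1) (b (l 1) (a (l 1) (a (l 1) (l 16540928)))))) (a (a (b (l 1) (b (a (l 1) (b (l 1) (l 121500248039))) (b (a (l 16515032) (l 16597576)) (a (l 16501456) (l 16514984))))) (b (l 3) (b (l 3) (a (b (l 138143195143) (l 110762837575)) (l 3))))) (l 3))), by decide +kernel⟩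

def k1_pm_113 : ∃ t, chk3 f_pm_113 t 2 3 1 = true :=
  ⟨(b (a (a (l 1) (b (l 1) (l 16253592))) (b (a (a (l 1) (l 16399736)) (a (l 16420808) (l 16450976))) (a (l 16294680) (a (l 16355728) (l 16411352))))) (a (a (b (a (l 1) (l 16111640)) (a (l 15961368) (l 15972128))) (b (l 16132616) (a (l 15992944) (l 16025616)))) (a (b (l 16198896) (b (l 16127624) (l 16080904))) (b (l 16333992) (l 16297664))))), by decide +kernel⟩

def k2_pm_113 : ∃ t, chk3 f_pm_113 t 3 6 1 = true :=
  ⟨(a (b (a (a (l 16487232) (a (l 16517400) (l 16579808))) (b (a (l 16548152) (l 154786337463)) (a (l 16588088) (a (l 16624880) (l 100025650823))))) (a (b (l 16517232) (a (l 16484024) (l 16585240))) (b (a (l 16640976) (l 16732088)) (a (l 16709584) (l 16856384))))) (a (b (a (b (l 3) (l 261086837015)) (l 3)) (a (b (a (l 91435827047) (l 227264281303)) (b (l 16843208) (l 16878864))) (b (l 3) (a (b (l 242833559175) (l 171429647639)) (l 3))))) (l 3))), by decide +kernel⟩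

def k3_pm_113 : ∃ t, chk3 f_pm_113 t 3 7 1 = true :=
  ⟨(a (b (a (b (l 16556312) (l 16590768)) (b (a (l 16798048) (l 16854696)) (b (l 16708888) (l 16763728)))) (a (b (l 16595456) (l 16543312)) (b (a (l 16694752) (l 16749832)) (b (l 16684688) (l 16658184))))) (b (a (a (b (b (l 16924888) (l 16922088)) (l 16861192)) (b (a (b (l 16865632) (l 16938296)) (b (l 253034131815) (l 145123007687))) (b (a (l 16919752) (l 16892384)) (l 16889192)))) (a (b (a (b (l 3) (l 316384867527)) (l 3)) (a (b (a (l 16836728) (l 276119579783)) (l 16825472)) (b (l 3) (l 409800445655)))) (l 3))) (a (a (b (l 16795704) (l 16740880)) (b (a (l 16805896) (l 16844208)) (l 16775600))) (a (b (a (b (l 16873664) (l 16839088)) (b (a (l 16849016) (l 222969250695)) (a (l 16844928) (l 16848536)))) (a (l 16791096) (b (l 16813160) (l 16781288)))) (b (a (b (l 494089088167) (a (b (l 239075370807) (l 16817304)) (b (l 3) (l 423759000807)))) (l 3)) (a (b (a (l 16817640) (b (b (l 238538480695) (l 16792528)) (l 16791352))) (a (l 16784744) (l 16808216))) (a (b (b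 (l 545091789895) (a (b (l 239075345095) (l 16787648)) (b (l 3) (l 464024281351)))) (b (a (l 16797592) (b (c (l 231559144823) (l 211694924663)) (l 16784328))) (a (l 16781008) (l 16782264)))) (b (l 3) (a (b (b (l 571935315351) (a (b (l 250349624007) (l 16782688)) (c (l 509658286695) (l 490867806983)))) (b (a (l 16787424) (l 6)) (l 6))) (b (l 3) (l 6))))))))))), by decide +kernel⟩

theorem s4_pm_113 : ∃ t, chk3 f_pm_113 t 3 3 1 = true := ex3_b k2_pm_113 k3_pm_113

theorem s5_pm_113 : ∃ t, chk3 f_pm_113 t 1 3 1 = true := ex3_a k1_pm_113 s4_pm_113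

theorem s6_pm_113 : ∃ t, chk3 f_pm_113 t 1 1 1 = true := ex3_b k0_pm_113 s5_pm_113

theorem c_pm_113 : CertB 536870912 536870912 1610612736 536870912 780900216 37827925 3 eng mog cd0q1 cd1q3 pd1 false true false .nn 1 1 3
    ndB0q1 ndB1q3 pcB1 cut_pm_113 Ext.none :=
  certB1 (fam := false) (s1 := true) (s2 := false) (a := 1) (b := 1) (c := 3) (cn := .nn) (n1 := ndB0q1) (n2 := ndB1q3) (pc := pcB1) (cut := cut_pm_113) (xt := Ext.none) (P1 := 536870912) (W1 := 536870912) (P2 := 1610612736) (W2 := 536870912) (P3 := 780900216) (W3 := 37827925) (N0 := 3) (En := eng) (mo := mog) (C1 := cd0q1) (C2 := cd1q3) (C3 := pd1)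
    rfl (fun _ => rfl) s6_pm_113

noncomputable def cut_pm_123 : Cut := Cut.of [[⟨0, 1, 0, 67108864⟩, ⟨1, 1, 0, 67108864⟩, ⟨2, 2, 0, 16777216⟩]]

noncomputable def f_pm_123 : ℕ → ℕ → ℕ → ℕ → Bool := onCell 536870912 536870912 1073741824 536870912 780900216 37827925
    (rowB 3 eng mog cd0q1 cd1q3 pd2 1 false true false .npn 1 2 3 (qsf 536870912 536870912 1610612736 536870912 2) ndB0q1 ndB1q3 pcB2 cut_pm_123 Ext.none)

def k0_pm_123 : ∃ t, chk3 f_pm_123 t 1 1 1 = true :=
  ⟨(a (b (a (b (a (b (a (l 15859288) (l 15875936)) (l 15929856)) (b (b (l 15902040) (l 15942424)) (l 16003912))) (a (b (l 16009696) (l 16119336)) (b (l 16105944) (l 16230664)))) (b (a (b (b (l 16012952) (l 16063256)) (l 16139296)) (b (a (l 16194472) (l 16327320)) (l 16302896))) (a (b (l 16242408) (l 16334312)) (b (l 16352736) (l 16436264))))) (a (b (a (l 16288000) (b (l 16338360) (l 16435680))) (a (l 16480160) (l 16562240))) (b (a (l 16561488) (b (l 16527472) (l 16609992))) (a (b (l 16601544) (l 2)) (l 2))))) (b (a (b (b (a (b (b (l 16405520) (l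 16400000)) (l 16392520)) (b (b (l 16522120) (l 16533016)) (l 16499248))) (a (l 16386184) (b (l 16487656) (a (l 16481144) (l 16537536))))) (b (a (b (l 16436136) (l 16473864)) (b (b (l 16535016) (b (l 16550072) (l 69356075351))) (l 16581552))) (a (l 16306336) (a (l 16615480) (l 2))))) (b (b (a (a (b (l 16622120) (l 16603720)) (b (l 16655264) (l 16660072))) (a (b (a (l 16708312) (b (l 16729536) (l 16723504))) (l 16725552)) (b (b (b (a (a (l 16743920) (l 16752888)) (a (b (l 16783568) (l 6)) (l 6))) (a (a (l 16741376) (l 16750840)) (a (l 6) (l 798964511543)))) (a (l 16742928) (l 782858307623))) (a (l 560057081479) (l 2))))) (a (b (a (l 16595816) (l 16648600)) (a (l 16605104) (l 16646672))) (a (b (l 456441034871) (l 2)) (l 2)))) (a (b (b (b (l 16818208) (l 2)) (l 2)) (l 2)) (l 2)))) (a (b (a (b (l 16620704) (l 2)) (l 2)) (l 2)) (l 2)))), by decide +kernel⟩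

theorem c_pm_123 : CertB 536870912 536870912 1610612736 536870912 780900216 37827925 3 eng mog cd0q1 cd1q3 pd2 false true false .npn 1 2 3
    ndB0q1 ndB1q3 pcB2 cut_pm_123 Ext.none :=
  certB1 (fam := false) (s1 := true) (s2 := false) (a := 1) (b := 2) (c := 3) (cn := .npn) (n1 := ndB0q1) (n2 := ndB1q3) (pc := pcB2) (cut := cut_pm_123) (xt := Ext.none) (P1 := 536870912) (W1 := 536870912) (P2 := 1610612736) (W2 := 536870912) (P3 := 780900216) (W3 := 37827925) (N0 := 3) (En := eng) (mo := mog) (C1 := cd0q1) (C2 := cd1q3) (C3 := pd2)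
    rfl (fun _ => rfl) k0_pm_123

noncomputable def f_pm_133 : ℕ → ℕ → ℕ → ℕ → Bool := onCell 536870912 536870912 1610612736 536870912 780900216 37827925
    (rowB 3 eng mog cd0q1 cd1q3 pd3 0 false true false .dn 1 3 3 (qsf 536870912 536870912 1610612736 536870912 3) ndB0q1 ndB1q3 pcB3 Cut.none Ext.none)

def k0_pm_133 : ∃ t, chk3 f_pm_133 t 1 1 1 = true :=
  ⟨(a (b (l 1) (a (b (l 1) (a (b (l 1) (l 16587328)) (l 1))) (l 1))) (l 1)), by decide +kernel⟩

theorem c_pm_133 : CertB 536870912 536870912 1610612736 536870912 780900216 37827925 3 eng mog cd0q1 cd1q3 pd3 false true false .dn 1 3 3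
    ndB0q1 ndB1q3 pcB3 Cut.none Ext.none :=
  certB0 (fam := false) (s1 := true) (s2 := false) (a := 1) (b := 3) (c := 3) (cn := .dn) (n1 := ndB0q1) (n2 := ndB1q3) (pc := pcB3) (cut := Cut.none) (xt := Ext.none) (P1 := 536870912) (W1 := 536870912) (P2 := 1610612736) (W2 := 536870912) (P3 := 780900216) (W3 := 37827925) (N0 := 3) (En := eng) (mo := mog) (C1 := cd0q1) (C2 := cd1q3) (C3 := pd3)
    rfl k0_pm_133

noncomputable def cut_pm_202_a : Cut := Cut.of [[⟨0, 1, 0, 67108864⟩, ⟨1, 0, 0, 67108864⟩, ⟨2, 1, 0, 67108864⟩]]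

noncomputable def f_pm_202_a : ℕ → ℕ → ℕ → ℕ → Bool := onCell 0 536870912 0 536870912 780900216 37827925
    (rowB 3 eng mog cd0q2 cd1q2a pd0 0 false true false .pp 2 0 2 (qsf 0 536870912 0 536870912 0) ndB0q2 ndB1q2a pcB0 cut_pm_202_a Ext.none)

def k0_pm_202_a : ∃ t, chk3 f_pm_202_a t 1 1 1 = true :=
  ⟨(a (l 3) (b (l 3) (a (l 3) (b (l 3) (a (l 3) (b (l 3) (l 6))))))), by decide +kernel⟩

theorem c_pm_202_a : CertB 0 536870912 0 536870912 780900216 37827925 3 eng mog cd0q2 cd1q2a pd0 false true false .pp 2 0 2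
    ndB0q2 ndB1q2a pcB0 cut_pm_202_a Ext.none :=
  certB0 (fam := false) (s1 := true) (s2 := false) (a := 2) (b := 0) (c := 2) (cn := .pp) (n1 := ndB0q2) (n2 := ndB1q2a) (pc := pcB0) (cut := cut_pm_202_a) (xt := Ext.none) (P1 := 0) (W1 := 536870912) (P2 := 0) (W2 := 536870912) (P3 := 780900216) (W3 := 37827925) (N0 := 3) (En := eng) (mo := mog) (C1 := cd0q2) (C2 := cd1q2a) (C3 := pd0)
    rfl k0_pm_202_a

noncomputable def cut_pm_202_b : Cut := Cut.of [[⟨0, 1, 0, 67108864⟩, ⟨1, 0, 0, 67108864⟩, ⟨2, 1, 0, 67108864⟩]]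

noncomputable def f_pm_202_b : ℕ → ℕ → ℕ → ℕ → Bool := onCell 0 536870912 1239849684 370763052 780900216 37827925
    (rowB 3 eng mog cd0q2 cd1q2b pd0 0 false true false .pp 2 0 2 (qsf 0 536870912 1239849684 370763052 0) ndB0q2 ndB1q2b pcB0 cut_pm_202_b Ext.none)

def k0_pm_202_b : ∃ t, chk3 f_pm_202_b t 1 1 1 = true :=
  ⟨(l 3), by decide +kernel⟩

theorem c_pm_202_b : CertB 0 536870912 1239849684 370763052 780900216 37827925 3 eng mog cd0q2 cd1q2b pd0 false true false .pp 2 0 2
    ndB0q2 ndB1q2b pcB0 cut_pm_202_b Ext.none :=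
  certB0 (fam := false) (s1 := true) (s2 := false) (a := 2) (b := 0) (c := 2) (cn := .pp) (n1 := ndB0q2) (n2 := ndB1q2b) (pc := pcB0) (cut := cut_pm_202_b) (xt := Ext.none) (P1 := 0) (W1 := 536870912) (P2 := 1239849684) (W2 := 370763052) (P3 := 780900216) (W3 := 37827925) (N0 := 3) (En := eng) (mo := mog) (C1 := cd0q2) (C2 := cd1q2b) (C3 := pd0)
    rfl k0_pm_202_b

noncomputable def f_pm_203 : ℕ → ℕ → ℕ → ℕ → Bool := onCell 0 536870912 0 536870912 780900216 37827925
    (rowB 3 eng mog cd0q2 cd1q3 pd0 1 false true false .up 2 0 3 (qsf 0 536870912 1610612736 536870912 0) ndB0q2 ndB1q3 pcB0 Cut.none Ext.none)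

def k0_pm_203 : ∃ t, chk3 f_pm_203 t 1 1 1 = true :=
  ⟨(l 3), by decide +kernel⟩

theorem c_pm_203 : CertB 0 536870912 1610612736 536870912 780900216 37827925 3 eng mog cd0q2 cd1q3 pd0 false true false .up 2 0 3
    ndB0q2 ndB1q3 pcB0 Cut.none Ext.none :=
  certB1 (fam := false) (s1 := true) (s2 := false) (a := 2) (b := 0) (c := 3) (cn := .up) (n1 := ndB0q2) (n2 := ndB1q3) (pc := pcB0) (cut := Cut.none) (xt := Ext.none) (P1 := 0) (W1 := 536870912) (P2 := 1610612736) (W2 := 536870912) (P3 := 780900216) (W3 := 37827925) (N0 := 3) (En := eng) (mo := mog) (C1 := cd0q2) (C2 := cd1q3) (C3 := pd0)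
    rfl (fun _ => rfl) k0_pm_203

noncomputable def cut_pm_213 : Cut := Cut.of [[⟨0, 1, 0, 67108864⟩, ⟨1, 1, 0, 67108864⟩, ⟨2, 2, 0, 16777216⟩]]

noncomputable def f_pm_213 : ℕ → ℕ → ℕ → ℕ → Bool := onCell 0 536870912 1610612736 536870912 780900216 37827925
    (rowB 3 eng mog cd0q2 cd1q3 pd1 0 false true false .pnn 2 1 3 (qsf 0 536870912 1610612736 536870912 1) ndB0q2 ndB1q3 pcB1 cut_pm_213 Ext.none)

def k0_pm_213 : ∃ t, chk3 f_pm_213 t 1 1 1 = true :=
  ⟨(b (l 3) (a (l 3) (b (l 3) (a (l 3) (b (l 3) (a (l 3) (a (l 3) (b (l 3) (b (l 3) (b (l 3) (l 6))))))))))), by decide +kernel⟩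

theorem c_pm_213 : CertB 0 536870912 1610612736 536870912 780900216 37827925 3 eng mog cd0q2 cd1q3 pd1 false true false .pnn 2 1 3
    ndB0q2 ndB1q3 pcB1 cut_pm_213 Ext.none :=
  certB0 (fam := false) (s1 := true) (s2 := false) (a := 2) (b := 1) (c := 3) (cn := .pnn) (n1 := ndB0q2) (n2 := ndB1q3) (pc := pcB1) (cut := cut_pm_213) (xt := Ext.none) (P1 := 0) (W1 := 536870912) (P2 := 1610612736) (W2 := 536870912) (P3 := 780900216) (W3 := 37827925) (N0 := 3) (En := eng) (mo := mog) (C1 := cd0q2) (C2 := cd1q3) (C3 := pd1)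
    rfl k0_pm_213

noncomputable def f_mm_001 : ℕ → ℕ → ℕ → ℕ → Bool := onCell 0 536870912 536870912 536870912 780900216 37827925
    (rowB 3 eng mog cd0q0 cd1q1 pd0 0 false false false .up 0 0 1 (qsf 0 536870912 536870912 536870912 0) ndB0q0 ndB1q1 pcB0 Cut.none Ext.none)

def k0_mm_001 : ∃ t, chk3 f_mm_001 t 1 1 1 = true :=
  ⟨(l 3), by decide +kernel⟩

theorem c_mm_001 : CertB 0 536870912 536870912 536870912 780900216 37827925 3 eng mog cd0q0 cd1q1 pd0 false false false .up 0 0 1
    ndB0q0 ndB1q1 pcB0 Cut.none Ext.none :=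
  certB0 (fam := false) (s1 := false) (s2 := false) (a := 0) (b := 0) (c := 1) (cn := .up) (n1 := ndB0q0) (n2 := ndB1q1) (pc := pcB0) (cut := Cut.none) (xt := Ext.none) (P1 := 0) (W1 := 536870912) (P2 := 536870912) (W2 := 536870912) (P3 := 780900216) (W3 := 37827925) (N0 := 3) (En := eng) (mo := mog) (C1 := cd0q0) (C2 := cd1q1) (C3 := pd0)
    rfl k0_mm_001

noncomputable def f_mm_011 : ℕ → ℕ → ℕ → ℕ → Bool := onCell 0 536870912 536870912 536870912 780900216 37827925
    (rowB 3 eng mog cd0q0 cd1q1 pd1 0 false false false .pnn 0 1 1 (qsf 0 536870912 536870912 536870912 1) ndB0q0 ndB1q1 pcB1 Cut.none Ext.none)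

def k0_mm_011 : ∃ t, chk3 f_mm_011 t 1 1 1 = true :=
  ⟨(l 3), by decide +kernel⟩

theorem c_mm_011 : CertB 0 536870912 536870912 536870912 780900216 37827925 3 eng mog cd0q0 cd1q1 pd1 false false false .pnn 0 1 1
    ndB0q0 ndB1q1 pcB1 Cut.none Ext.none :=
  certB0 (fam := false) (s1 := false) (s2 := false) (a := 0) (b := 1) (c := 1) (cn := .pnn) (n1 := ndB0q0) (n2 := ndB1q1) (pc := pcB1) (cut := Cut.none) (xt := Ext.none) (P1 := 0) (W1 := 536870912) (P2 := 536870912) (W2 := 536870912) (P3 := 780900216) (W3 := 37827925) (N0 := 3) (En := eng) (mo := mog) (C1 := cd0q0) (C2 := cd1q1) (C3 := pd1)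
    rfl k0_mm_011

noncomputable def f_mm_012_a : ℕ → ℕ → ℕ → ℕ → Bool := onCell 0 536870912 0 536870912 780900216 37827925
    (rowB 3 eng mog cd0q0 cd1q2a pd1 0 false false false .pnp 0 1 2 (qsf 0 536870912 0 536870912 1) ndB0q0 ndB1q2a pcB1 Cut.none Ext.none)

def k0_mm_012_a : ∃ t, chk3 f_mm_012_a t 1 1 1 = true :=
  ⟨(l 5), by decide +kernel⟩

theorem c_mm_012_a : CertB 0 536870912 0 536870912 780900216 37827925 3 eng mog cd0q0 cd1q2a pd1 false false false .pnp 0 1 2
    ndB0q0 ndB1q2a pcB1 Cut.none Ext.none :=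
  certB0 (fam := false) (s1 := false) (s2 := false) (a := 0) (b := 1) (c := 2) (cn := .pnp) (n1 := ndB0q0) (n2 := ndB1q2a) (pc := pcB1) (cut := Cut.none) (xt := Ext.none) (P1 := 0) (W1 := 536870912) (P2 := 0) (W2 := 536870912) (P3 := 780900216) (W3 := 37827925) (N0 := 3) (En := eng) (mo := mog) (C1 := cd0q0) (C2 := cd1q2a) (C3 := pd1)
    rfl k0_mm_012_a

noncomputable def f_mm_012_b : ℕ → ℕ → ℕ → ℕ → Bool := onCell 0 536870912 1239849684 370763052 780900216 37827925
    (rowB 3 eng mog cd0q0 cd1q2b pd1 0 false false false .pnp 0 1 2 (qsf 0 536870912 1239849684 370763052 1) ndB0q0 ndB1q2b pcB1 Cut.none Ext.none)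

def k0_mm_012_b : ∃ t, chk3 f_mm_012_b t 1 1 1 = true :=
  ⟨(l 5), by decide +kernel⟩

theorem c_mm_012_b : CertB 0 536870912 1239849684 370763052 780900216 37827925 3 eng mog cd0q0 cd1q2b pd1 false false false .pnp 0 1 2
    ndB0q0 ndB1q2b pcB1 Cut.none Ext.none :=
  certB0 (fam := false) (s1 := false) (s2 := false) (a := 0) (b := 1) (c := 2) (cn := .pnp) (n1 := ndB0q0) (n2 := ndB1q2b) (pc := pcB1) (cut := Cut.none) (xt := Ext.none) (P1 := 0) (W1 := 536870912) (P2 := 1239849684) (W2 := 370763052) (P3 := 780900216) (W3 := 37827925) (N0 := 3) (En := eng) (mo := mog) (C1 := cd0q0) (C2 := cd1q2b) (C3 := pd1)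
    rfl k0_mm_012_b

noncomputable def f_mm_022_a : ℕ → ℕ → ℕ → ℕ → Bool := onCell 0 536870912 0 536870912 780900216 37827925
    (rowB 3 eng mog cd0q0 cd1q2a pd2 0 false false false .pp 0 2 2 (qsf 0 536870912 0 536870912 2) ndB0q0 ndB1q2a pcB2 Cut.none Ext.none)

def k0_mm_022_a : ∃ t, chk3 f_mm_022_a t 1 1 1 = true :=
  ⟨(l 5), by decide +kernel⟩

theorem c_mm_022_a : CertB 0 536870912 0 536870912 780900216 37827925 3 eng mog cd0q0 cd1q2a pd2 false false false .pp 0 2 2
    ndB0q0 ndB1q2a pcB2 Cut.none Ext.none :=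
  certB0 (fam := false) (s1 := false) (s2 := false) (a := 0) (b := 2) (c := 2) (cn := .pp) (n1 := ndB0q0) (n2 := ndB1q2a) (pc := pcB2) (cut := Cut.none) (xt := Ext.none) (P1 := 0) (W1 := 536870912) (P2 := 0) (W2 := 536870912) (P3 := 780900216) (W3 := 37827925) (N0 := 3) (En := eng) (mo := mog) (C1 := cd0q0) (C2 := cd1q2a) (C3 := pd2)
    rfl k0_mm_022_a

noncomputable def f_mm_022_b : ℕ → ℕ → ℕ → ℕ → Bool := onCell 0 536870912 1239849684 370763052 780900216 37827925
    (rowB 3 eng mog cd0q0 cd1q2b pd2 0 false false false .pp 0 2 2 (qsf 0 536870912 1239849684 370763052 2) ndB0q0 ndB1q2b pcB2 Cut.none Ext.none)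

def k0_mm_022_b : ∃ t, chk3 f_mm_022_b t 1 1 1 = true :=
  ⟨(l 5), by decide +kernel⟩

theorem c_mm_022_b : CertB 0 536870912 1239849684 370763052 780900216 37827925 3 eng mog cd0q0 cd1q2b pd2 false false false .pp 0 2 2
    ndB0q0 ndB1q2b pcB2 Cut.none Ext.none :=
  certB0 (fam := false) (s1 := false) (s2 := false) (a := 0) (b := 2) (c := 2) (cn := .pp) (n1 := ndB0q0) (n2 := ndB1q2b) (pc := pcB2) (cut := Cut.none) (xt := Ext.none) (P1 := 0) (W1 := 536870912) (P2 := 1239849684) (W2 := 370763052) (P3 := 780900216) (W3 := 37827925) (N0 := 3) (En := eng) (mo := mog) (C1 := cd0q0) (C2 := cd1q2b) (C3 := pd2)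
    rfl k0_mm_022_b

noncomputable def f_mm_023 : ℕ → ℕ → ℕ → ℕ → Bool := onCell 0 536870912 1610612736 536870912 780900216 37827925
    (rowB 3 eng mog cd0q0 cd1q3 pd2 0 false false false .up 0 2 3 (qsf 0 536870912 1610612736 536870912 2) ndB0q0 ndB1q3 pcB2 Cut.none Ext.none)

def k0_mm_023 : ∃ t, chk3 f_mm_023 t 1 1 1 = true :=
  ⟨(l 5), by decide +kernel⟩

theorem c_mm_023 : CertB 0 536870912 1610612736 536870912 780900216 37827925 3 eng mog cd0q0 cd1q3 pd2 false false false .up 0 2 3
    ndB0q0 ndB1q3 pcB2 Cut.none Ext.none :=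
  certB0 (fam := false) (s1 := false) (s2 := false) (a := 0) (b := 2) (c := 3) (cn := .up) (n1 := ndB0q0) (n2 := ndB1q3) (pc := pcB2) (cut := Cut.none) (xt := Ext.none) (P1 := 0) (W1 := 536870912) (P2 := 1610612736) (W2 := 536870912) (P3 := 780900216) (W3 := 37827925) (N0 := 3) (En := eng) (mo := mog) (C1 := cd0q0) (C2 := cd1q3) (C3 := pd2)
    rfl k0_mm_023

noncomputable def f_mm_033 : ℕ → ℕ → ℕ → ℕ → Bool := onCell 0 536870912 1610612736 536870912 780900216 37827925
    (rowB 3 eng mog cd0q0 cd1q3 pd3 0 false false false .pnn 0 3 3 (qsf 0 536870912 1610612736 536870912 3) ndB0q0 ndB1q3 pcB3 Cut.none Ext.none)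

def k0_mm_033 : ∃ t, chk3 f_mm_033 t 1 1 1 = true :=
  ⟨(l 5), by decide +kernel⟩

theorem c_mm_033 : CertB 0 536870912 1610612736 536870912 780900216 37827925 3 eng mog cd0q0 cd1q3 pd3 false false false .pnn 0 3 3
    ndB0q0 ndB1q3 pcB3 Cut.none Ext.none :=
  certB0 (fam := false) (s1 := false) (s2 := false) (a := 0) (b := 3) (c := 3) (cn := .pnn) (n1 := ndB0q0) (n2 := ndB1q3) (pc := pcB3) (cut := Cut.none) (xt := Ext.none) (P1 := 0) (W1 := 536870912) (P2 := 1610612736) (W2 := 536870912) (P3 := 780900216) (W3 := 37827925) (N0 := 3) (En := eng) (mo := mog) (C1 := cd0q0) (C2 := cd1q3) (C3 := pd3)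
    rfl k0_mm_033

noncomputable def f_mm_101 : ℕ → ℕ → ℕ → ℕ → Bool := onCell 536870912 536870912 536870912 536870912 780900216 37827925
    (rowB 3 eng mog cd0q1 cd1q1 pd0 0 false false false .npn 1 0 1 (qsf 536870912 536870912 536870912 536870912 0) ndB0q1 ndB1q1 pcB0 Cut.none Ext.none)

def k0_mm_101 : ∃ t, chk3 f_mm_101 t 1 1 1 = true :=
  ⟨(l 3), by decide +kernel⟩

theorem c_mm_101 : CertB 536870912 536870912 536870912 536870912 780900216 37827925 3 eng mog cd0q1 cd1q1 pd0 false false false .npn 1 0 1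
    ndB0q1 ndB1q1 pcB0 Cut.none Ext.none :=
  certB0 (fam := false) (s1 := false) (s2 := false) (a := 1) (b := 0) (c := 1) (cn := .npn) (n1 := ndB0q1) (n2 := ndB1q1) (pc := pcB0) (cut := Cut.none) (xt := Ext.none) (P1 := 536870912) (W1 := 536870912) (P2 := 536870912) (W2 := 536870912) (P3 := 780900216) (W3 := 37827925) (N0 := 3) (En := eng) (mo := mog) (C1 := cd0q1) (C2 := cd1q1) (C3 := pd0)
    rfl k0_mm_101

noncomputable def f_mm_102_a : ℕ → ℕ → ℕ → ℕ → Bool := onCell 536870912 536870912 0 536870912 780900216 37827925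
    (rowB 3 eng mog cd0q1 cd1q2a pd0 0 false false false .npp 1 0 2 (qsf 536870912 536870912 0 536870912 0) ndB0q1 ndB1q2a pcB0 Cut.none Ext.none)

def k0_mm_102_a : ∃ t, chk3 f_mm_102_a t 1 1 1 = true :=
  ⟨(a (l 5) (l 3)), by decide +kernel⟩

theorem c_mm_102_a : CertB 536870912 536870912 0 536870912 780900216 37827925 3 eng mog cd0q1 cd1q2a pd0 false false false .npp 1 0 2
    ndB0q1 ndB1q2a pcB0 Cut.none Ext.none :=
  certB0 (fam := false) (s1 := false) (s2 := false) (a := 1) (b := 0) (c := 2) (cn := .npp) (n1 := ndB0q1) (n2 := ndB1q2a) (pc := pcB0) (cut := Cut.none) (xt := Ext.none) (P1 := 536870912) (W1 := 536870912) (P2 := 0) (W2 := 536870912) (P3 := 780900216) (W3 := 37827925) (N0 := 3) (En := eng) (mo := mog) (C1 := cd0q1) (C2 := cd1q2a) (C3 := pd0)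
    rfl k0_mm_102_a

noncomputable def f_mm_102_b : ℕ → ℕ → ℕ → ℕ → Bool := onCell 536870912 536870912 1239849684 370763052 780900216 37827925
    (rowB 3 eng mog cd0q1 cd1q2b pd0 0 false false false .npp 1 0 2 (qsf 536870912 536870912 1239849684 370763052 0) ndB0q1 ndB1q2b pcB0 Cut.none Ext.none)

def k0_mm_102_b : ∃ t, chk3 f_mm_102_b t 1 1 1 = true :=
  ⟨(l 5), by decide +kernel⟩

theorem c_mm_102_b : CertB 536870912 536870912 1239849684 370763052 780900216 37827925 3 eng mog cd0q1 cd1q2b pd0 false false false .npp 1 0 2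
    ndB0q1 ndB1q2b pcB0 Cut.none Ext.none :=
  certB0 (fam := false) (s1 := false) (s2 := false) (a := 1) (b := 0) (c := 2) (cn := .npp) (n1 := ndB0q1) (n2 := ndB1q2b) (pc := pcB0) (cut := Cut.none) (xt := Ext.none) (P1 := 536870912) (W1 := 536870912) (P2 := 1239849684) (W2 := 370763052) (P3 := 780900216) (W3 := 37827925) (N0 := 3) (En := eng) (mo := mog) (C1 := cd0q1) (C2 := cd1q2b) (C3 := pd0)
    rfl k0_mm_102_b

noncomputable def f_mm_112_a : ℕ → ℕ → ℕ → ℕ → Bool := onCell 536870912 536870912 0 536870912 780900216 37827925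
    (rowB 3 eng mog cd0q1 cd1q2a pd1 2 false false false .dn 1 1 2 (qsf 536870912 536870912 0 536870912 1) ndB0q1 ndB1q2a pcB1 Cut.none Ext.none)

def k0_mm_112_a : ∃ t, chk3 f_mm_112_a t 1 1 1 = true :=
  ⟨(l 5), by decide +kernel⟩

theorem c_mm_112_a : CertB 536870912 536870912 0 536870912 780900216 37827925 3 eng mog cd0q1 cd1q2a pd1 false false false .dn 1 1 2
    ndB0q1 ndB1q2a pcB1 Cut.none Ext.none :=
  certB2 (fam := false) (s1 := false) (s2 := false) (a := 1) (b := 1) (c := 2) (cn := .dn) (n1 := ndB0q1) (n2 := ndB1q2a) (pc := pcB1) (cut := Cut.none) (xt := Ext.none) (P1 := 536870912) (W1 := 536870912) (P2 := 0) (W2 := 536870912) (P3 := 780900216) (W3 := 37827925) (N0 := 3) (En := eng) (mo := mog) (C1 := cd0q1) (C2 := cd1q2a) (C3 := pd1)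
    rfl (fun _ => rfl) k0_mm_112_a

noncomputable def f_mm_112_b : ℕ → ℕ → ℕ → ℕ → Bool := onCell 536870912 536870912 1239849684 370763052 780900216 37827925
    (rowB 3 eng mog cd0q1 cd1q2b pd1 0 false false false .dn 1 1 2 (qsf 536870912 536870912 1239849684 370763052 1) ndB0q1 ndB1q2b pcB1 Cut.none Ext.none)

def k0_mm_112_b : ∃ t, chk3 f_mm_112_b t 1 1 1 = true :=
  ⟨(l 5), by decide +kernel⟩

theorem c_mm_112_b : CertB 536870912 536870912 1239849684 370763052 780900216 37827925 3 eng mog cd0q1 cd1q2b pd1 false false false .dn 1 1 2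
    ndB0q1 ndB1q2b pcB1 Cut.none Ext.none :=
  certB0 (fam := false) (s1 := false) (s2 := false) (a := 1) (b := 1) (c := 2) (cn := .dn) (n1 := ndB0q1) (n2 := ndB1q2b) (pc := pcB1) (cut := Cut.none) (xt := Ext.none) (P1 := 536870912) (W1 := 536870912) (P2 := 1239849684) (W2 := 370763052) (P3 := 780900216) (W3 := 37827925) (N0 := 3) (En := eng) (mo := mog) (C1 := cd0q1) (C2 := cd1q2b) (C3 := pd1)
    rfl k0_mm_112_b

noncomputable def f_mm_113 : ℕ → ℕ → ℕ → ℕ → Bool := onCell 536870912 536870912 1610612736 536870912 780900216 37827925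
    (rowB 3 eng mog cd0q1 cd1q3 pd1 0 false false false .nn 1 1 3 (qsf 536870912 536870912 1610612736 536870912 1) ndB0q1 ndB1q3 pcB1 Cut.none Ext.none)

def k0_mm_113 : ∃ t, chk3 f_mm_113 t 1 1 1 = true :=
  ⟨(l 5), by decide +kernel⟩

theorem c_mm_113 : CertB 536870912 536870912 1610612736 536870912 780900216 37827925 3 eng mog cd0q1 cd1q3 pd1 false false false .nn 1 1 3
    ndB0q1 ndB1q3 pcB1 Cut.none Ext.none :=
  certB0 (fam := false) (s1 := false) (s2 := false) (a := 1) (b := 1) (c := 3) (cn := .nn) (n1 := ndB0q1) (n2 := ndB1q3) (pc := pcB1) (cut := Cut.none) (xt := Ext.none) (P1 := 536870912) (W1 := 536870912) (P2 := 1610612736) (W2 := 536870912) (P3 := 780900216) (W3 := 37827925) (N0 := 3) (En := eng) (mo := mog) (C1 := cd0q1) (C2 := cd1q3) (C3 := pd1)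
    rfl k0_mm_113

noncomputable def f_mm_123 : ℕ → ℕ → ℕ → ℕ → Bool := onCell 536870912 536870912 1610612736 536870912 780900216 37827925
    (rowB 3 eng mog cd0q1 cd1q3 pd2 0 false false false .npn 1 2 3 (qsf 536870912 536870912 1610612736 536870912 2) ndB0q1 ndB1q3 pcB2 Cut.none Ext.none)

def k0_mm_123 : ∃ t, chk3 f_mm_123 t 1 1 1 = true :=
  ⟨(l 5), by decide +kernel⟩

theorem c_mm_123 : CertB 536870912 536870912 1610612736 536870912 780900216 37827925 3 eng mog cd0q1 cd1q3 pd2 false false false .npn 1 2 3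
    ndB0q1 ndB1q3 pcB2 Cut.none Ext.none :=
  certB0 (fam := false) (s1 := false) (s2 := false) (a := 1) (b := 2) (c := 3) (cn := .npn) (n1 := ndB0q1) (n2 := ndB1q3) (pc := pcB2) (cut := Cut.none) (xt := Ext.none) (P1 := 536870912) (W1 := 536870912) (P2 := 1610612736) (W2 := 536870912) (P3 := 780900216) (W3 := 37827925) (N0 := 3) (En := eng) (mo := mog) (C1 := cd0q1) (C2 := cd1q3) (C3 := pd2)
    rfl k0_mm_123

noncomputable def f_mm_133 : ℕ → ℕ → ℕ → ℕ → Bool := onCell 536870912 536870912 1610612736 536870912 780900216 37827925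
    (rowB 3 eng mog cd0q1 cd1q3 pd3 0 false false false .dn 1 3 3 (qsf 536870912 536870912 1610612736 536870912 3) ndB0q1 ndB1q3 pcB3 Cut.none Ext.none)

def k0_mm_133 : ∃ t, chk3 f_mm_133 t 1 1 1 = true :=
  ⟨(l 5), by decide +kernel⟩

theorem c_mm_133 : CertB 536870912 536870912 1610612736 536870912 780900216 37827925 3 eng mog cd0q1 cd1q3 pd3 false false false .dn 1 3 3
    ndB0q1 ndB1q3 pcB3 Cut.none Ext.none :=
  certB0 (fam := false) (s1 := false) (s2 := false) (a := 1) (b := 3) (c := 3) (cn := .dn) (n1 := ndB0q1) (n2 := ndB1q3) (pc := pcB3) (cut := Cut.none) (xt := Ext.none) (P1 := 536870912) (W1 := 536870912) (P2 := 1610612736) (W2 := 536870912) (P3 := 780900216) (W3 := 37827925) (N0 := 3) (En := eng) (mo := mog) (C1 := cd0q1) (C2 := cd1q3) (C3 := pd3)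
    rfl k0_mm_133

noncomputable def f_mm_202_a : ℕ → ℕ → ℕ → ℕ → Bool := onCell 0 536870912 0 536870912 780900216 37827925
    (rowB 3 eng mog cd0q2 cd1q2a pd0 0 false false false .pp 2 0 2 (qsf 0 536870912 0 536870912 0) ndB0q2 ndB1q2a pcB0 Cut.none Ext.none)

def k0_mm_202_a : ∃ t, chk3 f_mm_202_a t 1 1 1 = true :=
  ⟨(l 3), by decide +kernel⟩

theorem c_mm_202_a : CertB 0 536870912 0 536870912 780900216 37827925 3 eng mog cd0q2 cd1q2a pd0 false false false .pp 2 0 2
    ndB0q2 ndB1q2a pcB0 Cut.none Ext.none :=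
  certB0 (fam := false) (s1 := false) (s2 := false) (a := 2) (b := 0) (c := 2) (cn := .pp) (n1 := ndB0q2) (n2 := ndB1q2a) (pc := pcB0) (cut := Cut.none) (xt := Ext.none) (P1 := 0) (W1 := 536870912) (P2 := 0) (W2 := 536870912) (P3 := 780900216) (W3 := 37827925) (N0 := 3) (En := eng) (mo := mog) (C1 := cd0q2) (C2 := cd1q2a) (C3 := pd0)
    rfl k0_mm_202_a

noncomputable def f_mm_202_b : ℕ → ℕ → ℕ → ℕ → Bool := onCell 0 536870912 1239849684 370763052 780900216 37827925
    (rowB 3 eng mog cd0q2 cd1q2b pd0 0 false false false .pp 2 0 2 (qsf 0 536870912 1239849684 370763052 0) ndB0q2 ndB1q2b pcB0 Cut.none Ext.none)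

def k0_mm_202_b : ∃ t, chk3 f_mm_202_b t 1 1 1 = true :=
  ⟨(l 3), by decide +kernel⟩

theorem c_mm_202_b : CertB 0 536870912 1239849684 370763052 780900216 37827925 3 eng mog cd0q2 cd1q2b pd0 false false false .pp 2 0 2
    ndB0q2 ndB1q2b pcB0 Cut.none Ext.none :=
  certB0 (fam := false) (s1 := false) (s2 := false) (a := 2) (b := 0) (c := 2) (cn := .pp) (n1 := ndB0q2) (n2 := ndB1q2b) (pc := pcB0) (cut := Cut.none) (xt := Ext.none) (P1 := 0) (W1 := 536870912) (P2 := 1239849684) (W2 := 370763052) (P3 := 780900216) (W3 := 37827925) (N0 := 3) (En := eng) (mo := mog) (C1 := cd0q2) (C2 := cd1q2b) (C3 := pd0)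
    rfl k0_mm_202_b

noncomputable def f_mm_203 : ℕ → ℕ → ℕ → ℕ → Bool := onCell 0 536870912 0 536870912 780900216 37827925
    (rowB 3 eng mog cd0q2 cd1q3 pd0 1 false false false .up 2 0 3 (qsf 0 536870912 1610612736 536870912 0) ndB0q2 ndB1q3 pcB0 Cut.none Ext.none)

def k0_mm_203 : ∃ t, chk3 f_mm_203 t 1 1 1 = true :=
  ⟨(l 3), by decide +kernel⟩

theorem c_mm_203 : CertB 0 536870912 1610612736 536870912 780900216 37827925 3 eng mog cd0q2 cd1q3 pd0 false false false .up 2 0 3
    ndB0q2 ndB1q3 pcB0 Cut.none Ext.none :=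
  certB1 (fam := false) (s1 := false) (s2 := false) (a := 2) (b := 0) (c := 3) (cn := .up) (n1 := ndB0q2) (n2 := ndB1q3) (pc := pcB0) (cut := Cut.none) (xt := Ext.none) (P1 := 0) (W1 := 536870912) (P2 := 1610612736) (W2 := 536870912) (P3 := 780900216) (W3 := 37827925) (N0 := 3) (En := eng) (mo := mog) (C1 := cd0q2) (C2 := cd1q3) (C3 := pd0)
    rfl (fun _ => rfl) k0_mm_203

noncomputable def f_mm_213 : ℕ → ℕ → ℕ → ℕ → Bool := onCell 0 536870912 1610612736 536870912 780900216 37827925
    (rowB 3 eng mog cd0q2 cd1q3 pd1 0 false false false .pnn 2 1 3 (qsf 0 536870912 1610612736 536870912 1) ndB0q2 ndB1q3 pcB1 Cut.none Ext.none)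

def k0_mm_213 : ∃ t, chk3 f_mm_213 t 1 1 1 = true :=
  ⟨(a (l 3) (l 5)), by decide +kernel⟩

theorem c_mm_213 : CertB 0 536870912 1610612736 536870912 780900216 37827925 3 eng mog cd0q2 cd1q3 pd1 false false false .pnn 2 1 3
    ndB0q2 ndB1q3 pcB1 Cut.none Ext.none :=
  certB0 (fam := false) (s1 := false) (s2 := false) (a := 2) (b := 1) (c := 3) (cn := .pnn) (n1 := ndB0q2) (n2 := ndB1q3) (pc := pcB1) (cut := Cut.none) (xt := Ext.none) (P1 := 0) (W1 := 536870912) (P2 := 1610612736) (W2 := 536870912) (P3 := 780900216) (W3 := 37827925) (N0 := 3) (En := eng) (mo := mog) (C1 := cd0q2) (C2 := cd1q3) (C3 := pd1)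
    rfl k0_mm_213

end Pool.Agent.Strip051.G.I72727_7625.Tab.C.BB01

namespace Pool.Agent.Strip051.G.I72727_7625.Tab.C.BB02

open Pool.Agent.Strip051.PB Pool.Agent.Strip051.PB.T
open Pool.Agent.Strip051.G.I72727_7625.Tab

noncomputable def f_pp_001 : ℕ → ℕ → ℕ → ℕ → Bool := onCell 0 536870912 536870912 536870912 780900216 37827925
    (rowB 3 eng mog cd0q0 cd2q1 pd0 0 false true true .up 0 0 1 (qsf 0 536870912 536870912 536870912 0) ndB0q0 ndB2q1 pcB0 Cut.none Ext.none)

def k0_pp_001 : ∃ t, chk3 f_pp_001 t 1 1 1 = true :=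
  ⟨(l 3), by decide +kernel⟩

theorem c_pp_001 : CertB 0 536870912 536870912 536870912 780900216 37827925 3 eng mog cd0q0 cd2q1 pd0 false true true .up 0 0 1
    ndB0q0 ndB2q1 pcB0 Cut.none Ext.none :=
  certB0 (fam := false) (s1 := true) (s2 := true) (a := 0) (b := 0) (c := 1) (cn := .up) (n1 := ndB0q0) (n2 := ndB2q1) (pc := pcB0) (cut := Cut.none) (xt := Ext.none) (P1 := 0) (W1 := 536870912) (P2 := 536870912) (W2 := 536870912) (P3 := 780900216) (W3 := 37827925) (N0 := 3) (En := eng) (mo := mog) (C1 := cd0q0) (C2 := cd2q1) (C3 := pd0)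
    rfl k0_pp_001

noncomputable def f_pp_011 : ℕ → ℕ → ℕ → ℕ → Bool := onCell 0 536870912 536870912 536870912 780900216 37827925
    (rowB 3 eng mog cd0q0 cd2q1 pd1 0 false true true .pnn 0 1 1 (qsf 0 536870912 536870912 536870912 1) ndB0q0 ndB2q1 pcB1 Cut.none Ext.none)

def k0_pp_011 : ∃ t, chk3 f_pp_011 t 1 1 1 = true :=
  ⟨(l 3), by decide +kernel⟩

theorem c_pp_011 : CertB 0 536870912 536870912 536870912 780900216 37827925 3 eng mog cd0q0 cd2q1 pd1 false true true .pnn 0 1 1
    ndB0q0 ndB2q1 pcB1 Cut.none Ext.none :=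
  certB0 (fam := false) (s1 := true) (s2 := true) (a := 0) (b := 1) (c := 1) (cn := .pnn) (n1 := ndB0q0) (n2 := ndB2q1) (pc := pcB1) (cut := Cut.none) (xt := Ext.none) (P1 := 0) (W1 := 536870912) (P2 := 536870912) (W2 := 536870912) (P3 := 780900216) (W3 := 37827925) (N0 := 3) (En := eng) (mo := mog) (C1 := cd0q0) (C2 := cd2q1) (C3 := pd1)
    rfl k0_pp_011

noncomputable def cut_pp_012_a : Cut := Cut.of [[⟨0, 0, 0, 67108864⟩, ⟨1, 1, 0, 67108864⟩, ⟨2, 1, 0, 67108864⟩]]

noncomputable def f_pp_012_a : ℕ → ℕ → ℕ → ℕ → Bool := onCell 536870912 536870912 0 536870912 780900216 37827925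
    (rowB 3 eng mog cd0q0 cd2q2a pd1 2 false true true .pnp 0 1 2 (qsf 0 536870912 0 536870912 1) ndB0q0 ndB2q2a pcB1 cut_pp_012_a Ext.none)

def k0_pp_012_a : ∃ t, chk3 f_pp_012_a t 2 1 1 = true :=
  ⟨(l 3), by decide +kernel⟩

def k1_pp_012_a : ∃ t, chk3 f_pp_012_a t 12 2 1 = true :=
  ⟨(b (l 3) (l 3)), by decide +kernel⟩

def k2_pp_012_a : ∃ t, chk3 f_pp_012_a t 26 4 1 = true :=
  ⟨(b (a (a (b (b (a (l 86603902679) (l 16721008)) (l 91435726023)) (l 3)) (a (b (b (l 16716192) (l 75866474839)) (l 3)) (b (b (l 16711176) (l 16721576)) (b (l 80698309975) (l 3))))) (a (a (b (l 16719296) (b (c (l 63518432935) (l 71571493495)) (l 3))) (b (l 16703832) (b (c (l 16711856) (l 16711448)) (c (l 64592163255) (l 73718977687))))) (b (l 16706976) (b (c (l 16704664) (l 16714192)) (c (b (l 16719208) (a (l 58149712487) (l 16709168))) (a (b (l 16710648) (l 67813388215)) (l 16707024))))))) (a (l 3) (b (a (l 3) (a (l 3) (b (b (c (c (l 16714456) (l 30769290935)) (l 36674872007)) (c (l 61370937303) (l 74255837383))) (l 3)))) (l 3)))),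 by decide +kernel⟩

def k3_pp_012_a : ∃ t, chk3 f_pp_012_a t 27 8 1 = true :=
  ⟨(a (b (c (a (l 16688064) (l 16679448)) (l 16707344)) (a (b (l 16694688) (c (l 16711224) (l 16709952))) (c (b (l 16686520) (l 16712712)) (l 16708000)))) (b (a (l 16669728) (l 16661808)) (a (c (l 16701656) (l 16677944)) (b (l 16668632) (l 16673712))))), by decide +kernel⟩

def k4_pp_012_a : ∃ t, chk3 f_pp_012_a t 27 9 1 = true :=
  ⟨(a (b (b (a (c (a (b (l 16707312) (c (l 16714064) (l 27011191015))) (l 16709360)) (b (l 16714472) (a (l 32379900967) (l 16704624)))) (c (l 16704016) (l 16706248))) (b (a (a (c (b (l 53854728311) (l 3)) (l 65129029751)) (c (c (l 16711816) (l 22716220551)) (l 29695541735))) (c (c (l 16707072) (l 16706712)) (a (l 16702880) (l 16698048)))) (a (a (l 3) (c (c (a (l 3) (l 42580444775)) (l 51707250951)) (l 56002221703))) (c (a (c (l 16710320) (l 19494991959)) (l 16702472)) (a (l 26474312487) (l 16701272)))))) (a (l 3) (b (b (c (a (c (a (l 41506704119) (l 32379895191)) (a (l 54928475719) (l 44727925207))) (c (l 16708288)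 (l 16710648))) (a (a (l 59760313207) (l 48486020887)) (l 23253083975))) (a (l 3) (c (c (a (l 30769284215) (l 22716216807)) (a (l 45264797047) (l 35601117383))) (a (l 49559763991) (l 40432954599))))) (l 3)))) (b (b (a (a (l 16692504) (l 16685504)) (l 16684416)) (b (a (c (a (l 16695048) (l 16690768)) (l 16691024)) (l 16686112)) (a (c (l 16699792) (l 16704688)) (c (l 16692712) (l 16685232))))) (a (b (c (a (b (l 16703736) (c (l 16709640) (l 16709328))) (c (l 16698552) (l 16703304))) (a (b (l 16699816) (l 16708432)) (l 16707336))) (a (a (b (c (c (a (l 24326831191) (l 20031862183)) (l 34527376919)) (l 39359214679)) (l 3)) (c (b (c (l 16709096) (l 16708848)) (c (b (l 18958121175) (l 3)) (l 35064248951))) (b (l 16708048) (l 39896086615)))) (c (b (c (l 16708496) (l 16708144)) (a (c (c (l 16710488) (l 72645197447)) (l 25937440151)) (c (l 16705424) (l 16705128)))) (b (l 16707184) (a (l 30769278007) (l 16704288)))))) (a (c (b (l 16694088) (c (l 16705880) (b (l 16698536) (l 16707088)))) (b (l 16692312) (b (l 16697360) (l 16706088))))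 (c (b (l 16689968) (l 16702648)) (b (l 16687912) (l 16702504))))))), by decide +kernel⟩

def k5_pp_012_a : ∃ t, chk3 f_pp_012_a t 13 5 1 = true :=
  ⟨(a (l 3) (b (a (l 3) (b (c (b (a (a (l 3) (a (l 3) (b (b (c (l 16710456) (l 16707600)) (l 3)) (l 3)))) (a (a (b (c (l 16710016) (l 15736891207)) (a (l 3) (b (l 15200024663) (l 3)))) (b (l 16708280) (c (c (l 16710432) (l 16707736)) (b (l 16706720) (l 16708368))))) (b (l 16706408) (a (a (l 16708768) (l 16705088)) (l 16703504))))) (a (l 3) (a (l 3) (b (a (c (c (l 9831315175) (l 16709000)) (l 71034585431)) (c (l 16709656) (l 61370904599))) (l 3))))) (a (a (l 3) (a (l 3) (b (b (l 32379892375) (l 3)) (l 3)))) (a (b (b (c (l 10905055063) (l 14663151191)) (a (l 36674860791) (c (l 16712344) (l 16711720)))) (l 3)) (b (b (l 16705136) (c (l 16709088) (l 16708376))) (b (a (l 28621795991) (l 12515665399)) (l 3)))))) (l 3))) (l 3))), by decide +kernel⟩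

def k6_pp_012_a : ∃ t, chk3 f_pp_012_a t 6 3 1 = true :=
  ⟨(l 3), by decide +kernel⟩

def k7_pp_012_a : ∃ t, chk3 f_pp_012_a t 14 4 1 = true :=
  ⟨(a (a (b (b (l 16650840) (c (l 16661552) (l 16678432))) (b (a (c (l 16675432) (l 16693328)) (c (l 16667960) (l 16664360))) (b (a (c (l 16683960) (l 16691992)) (c (l 16676232) (l 16673248))) (a (a (c (l 16692168) (l 16690288)) (c (l 16688152) (l 16686000))) (c (l 16682224) (l 16690168)))))) (b (b (l 16637672) (l 16645704)) (b (a (l 16658912) (l 16651904)) (a (c (l 16692696) (b (l 16665280) (l 16671528))) (a (l 16675120) (l 16661040)))))) (b (a (l 16650992) (l 16620864)) (a (b (l 16663216) (a (l 16666352) (l 16649440))) (b (l 16631856) (l 16662336))))), by decide +kernel⟩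

def k8_pp_012_a : ∃ t, chk3 f_pp_012_a t 28 10 1 = true :=
  ⟨(a (c (b (a (a (b (a (l 16704984) (l 16697672)) (c (b (l 16703944) (a (l 16709456) (l 16706240))) (a (a (l 16709224) (l 16708512)) (l 16706936)))) (b (l 16699840) (c (l 16704176) (l 16706376)))) (b (l 16699024) (a (l 16702472) (l 16693144)))) (b (a (a (a (l 3) (b (l 18958109879) (l 3))) (b (c (l 16706312) (l 16706448)) (c (l 16709344) (l 16709992)))) (a (b (l 16702408) (l 16705960)) (l 16702648))) (a (l 3) (b (a (l 16709224) (l 16705344)) (a (l 3) (l 16708576)))))) (b (a (b (a (b (l 16695488) (l 16704312)) (b (l 16691136) (l 16694680))) (a (b (c (l 16708312) (l 16702360)) (a (c (l 16710376) (l 16707200)) (l 16707976))) (b (l 16703552) (c (l 16707592) (l 16701648))))) (b (a (l 16699096) (l 16684360)) (a (b (l 16693936) (l 16702840)) (b (l 16689616) (l 16693240))))) (b (a (b (a (l 67813356583) (c (a (l 16709752) (l 16704968)) (l 16710720))) (a (l 3) (c (l 62981521031) (l 60297166247)))) (b (a (a (l 16702456) (l 16700240)) (a (l 16698040) (l 16695856)))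 (a (c (l 50633480535) (l 16710128)) (a (l 16701832) (l 16699632))))) (a (l 3) (a (b (a (l 16710048) (l 16707912)) (l 3)) (b (l 16704584) (l 16708472))))))) (b (a (c (b (l 16680712) (l 16697640)) (b (a (l 16680192) (l 16676104)) (a (b (l 16685376) (l 16688952)) (l 16669888)))) (c (l 16686888) (b (l 16649192) (a (l 16678912) (l 16674936))))) (b (c (a (b (l 16692152) (l 16695584)) (l 16685992)) (a (a (b (l 16692616) (l 16685864)) (a (l 16680792) (l 16678680))) (a (b (l 16684200) (l 16687840)) (l 16671464)))) (a (a (c (l 16702968) (a (l 16703224) (l 16701024))) (b (l 16696496) (l 16700176))) (c (l 16692776) (a (l 16693464) (l 16678800))))))), by decide +kernel⟩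

def k9_pp_012_a : ∃ t, chk3 f_pp_012_a t 28 11 1 = true :=
  ⟨(a (b (b (a (l 3) (a (l 3) (c (l 16708264) (l 31306152023)))) (l 3)) (l 3)) (b (b (a (c (a (l 16709720) (l 16705960)) (a (b (l 16708000) (l 16711952)) (l 16705576))) (c (a (l 16701872) (l 16697792)) (a (l 16701192) (l 16696904)))) (a (a (l 3) (c (l 16712896) (l 16713368))) (a (a (l 16710296) (l 16708128)) (l 16699672)))) (b (a (l 3) (a (l 16705768) (l 16702080))) (l 3)))), by decide +kernel⟩

def k10_pp_012_a : ∃ t, chk3 f_pp_012_a t 29 5 1 = true :=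
  ⟨(b (b (a (a (c (l 16669248) (l 16676448)) (c (l 16662600) (l 16658880))) (c (l 16652728) (l 16660440))) (a (a (a (b (l 16679264) (l 16686160)) (b (l 16675536) (l 16682312))) (b (l 16670184) (l 16687264))) (a (a (l 16668608) (l 16665688)) (l 16661216)))) (a (b (b (c (a (l 16691864) (l 16684392)) (a (l 16690672) (l 16682816))) (a (c (l 16698880) (l 16698408)) (c (l 16691152) (l 16690336)))) (a (b (a (l 16708344) (l 16704144)) (c (l 16713592) (l 16702904))) (b (a (l 16700080) (l 16696208)) (c (l 16705256) (l 16705968))))) (a (b (b (l 16676936) (l 16683864)) (b (l 16691032) (l 16698408))) (b (b (l 16669856) (l 16676176)) (b (l 16682944) (l 16690192)))))), by decide +kernel⟩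

def k11_pp_012_a : ∃ t, chk3 f_pp_012_a t 15 2 1 = true :=
  ⟨(b (a (a (b (l 16614216) (l 16668008)) (b (l 16597040) (l 16608264))) (b (a (b (l 16577696) (l 16580688)) (l 16583136)) (a (l 16589176) (a (l 16532032) (b (l 16561088) (l 16566488)))))) (a (b (a (b (l 16638128) (l 16679504)) (c (l 16643648) (l 16658032))) (a (b (a (l 16664144) (l 16654864)) (b (l 16669280) (l 16686888))) (b (l 16661304) (l 16668976)))) (a (b (b (l 16600160) (l 16567416)) (b (a (l 16625296) (l 16614976)) (a (l 16637984) (l 16627864)))) (b (b (l 16579376) (l 16588520)) (b (a (l 16604680) (l 16594408)) (b (l 16609248) (l 16595688))))))), by decide +kernel⟩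

def k12_pp_012_a : ∃ t, chk3 f_pp_012_a t 14 3 1 = true :=
  ⟨(b (a (l 3) (b (a (b (a (b (b (c (l 16719400) (l 16718568)) (l 3)) (l 3)) (b (c (l 16712664) (l 16712952)) (b (c (l 176798203639) (l 16718400)) (l 3)))) (l 3)) (a (b (b (l 16685008) (a (c (l 75329588839) (l 16714488)) (l 16722488))) (b (b (c (a (l 93046339911) (l 16716264)) (l 16718264)) (a (l 3) (l 158544544775))) (l 3))) (c (b (l 16713040) (b (l 16723968) (a (l 82308934919) (l 16720232)))) (b (l 16684352) (b (l 16711768) (l 16720272)))))) (a (l 3) (b (a (l 3) (b (a (l 3) (c (l 80698334855) (l 16727032))) (l 3))) (l 3))))) (l 3)), by decide +kernel⟩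

def k13_pp_012_a : ∃ t, chk3 f_pp_012_a t 15 6 1 = true :=
  ⟨(a (b (b (a (b (c (l 16685512) (l 16682464)) (a (l 16697016) (l 16687352))) (a (l 16673144) (b (l 16659096) (l 16667208)))) (b (a (a (l 16718560) (l 16695736)) (a (l 16685672) (l 16675680))) (a (a (c (l 16715936) (l 16711112)) (l 16704256)) (a (l 16694360) (l 16663648))))) (a (b (b (a (a (l 42043567767) (c (l 16722712) (l 16717920))) (c (l 16716176) (l 16710640))) (a (c (a (l 81235217799) (l 16731064)) (c (l 16731288) (l 101099370551))) (c (l 16726168) (a (l 16728440) (l 16718528))))) (a (l 3) (a (b (b (l 109689313751) (l 3)) (l 3)) (b (c (l 16732176) (b (l 16727016) (l 16732928))) (b (l 91972593463) (l 3)))))) (c (b (a (b (l 16706496) (l 16716864)) (l 16723400)) (a (b (l 16737816) (a (l 67813415127) (l 16731720))) (b (l 16719528) (b (l 16725048) (l 16727656))))) (b (a (b (l 16679960) (l 16722072)) (b (l 16691600) (b (l 16699736) (l 16705512)))) (a (a (b (a (l 16726672) (l 16724456)) (b (l 16735024) (l 16740496))) (b (l 16721160) (c (l 16734256) (l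 16738232)))) (b (l 16723248) (a (l 16735320) (l 16726016)))))))) (b (a (a (b (b (l 16649024) (l 16657288)) (b (l 16645104) (l 16675328))) (b (b (l 16639120) (l 16647720)) (b (l 16656800) (l 16666336)))) (b (a (l 16675880) (b (l 16620144) (l 16629248))) (b (a (l 16647752) (l 16638840)) (a (l 16657560) (l 16648896))))) (a (b (b (a (l 16664520) (l 16655824)) (a (l 16696648) (l 16688240))) (a (b (c (l 16711104) (l 16706432)) (c (l 16719080) (l 16730544))) (b (l 16700728) (l 16723680)))) (b (a (l 16684576) (b (l 16659856) (l 16650808))) (a (b (l 16692720) (l 16705688)) (b (l 16684736) (l 16698408))))))), by decide +kernel⟩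

def k14_pp_012_a : ∃ t, chk3 f_pp_012_a t 30 7 1 = true :=
  ⟨(b (b (a (l 3) (a (b (a (l 3) (c (b (l 16741296) (l 16744424)) (b (c (l 50096672871) (l 16740104)) (l 79087704407)))) (l 3)) (b (c (b (a (l 16732024) (l 16728200)) (a (b (l 16733848) (l 16735120)) (l 16730432))) (b (a (l 16735136) (l 16731248)) (a (b (l 16742000) (l 16743136)) (b (l 16732736) (l 16733664))))) (a (a (l 3) (b (b (c (l 16735640) (l 16743536)) (l 16745016)) (l 3))) (a (b (b (l 16739952) (l 16745192)) (b (c (l 16738944) (l 16746800)) (l 3))) (b (b (l 16743120) (l 16745672)) (b (l 28621866743) (c (l 16744592) (l 16747160))))))))) (a (l 3) (b (a (l 3) (a (l 3) (a (l 3) (a (l 3) (a (l 3) (b (b (l 16747696) (l 3)) (l 3))))))) (l 3)))) (l 3)), by decide +kernel⟩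

def k15_pp_012_a : ∃ t, chk3 f_pp_012_a t 62 28 1 = true :=
  ⟨(b (b (a (a (l 16725736) (l 16721792)) (l 16715840)) (a (c (a (l 16726408) (l 16722344)) (a (b (l 16728680) (l 16729528)) (l 16724984))) (c (l 16716208) (l 16703016)))) (b (a (a (b (l 16740000) (l 16742520)) (l 16735088)) (a (l 16732816) (l 16718136))) (a (a (c (a (l 16746280) (l 16733680)) (a (l 16744872) (l 16746640))) (c (l 16730488) (l 16743384))) (a (l 16737840) (l 16723120))))), by decide +kernel⟩

def k16_pp_012_a : ∃ t, chk3 f_pp_012_a t 124 29 1 = true :=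
  ⟨(b (c (b (a (a (b (l 16745000) (a (l 3) (l 16741936))) (b (l 16737560) (l 16745432))) (a (l 16747216) (l 16734592))) (a (a (l 3) (b (c (l 16747712) (l 16748776)) (c (l 16745496) (l 16746552)))) (a (b (l 16740664) (a (l 14126358391) (l 16742800))) (b (l 16738528) (l 16741192))))) (a (a (b (b (a (l 16748072) (l 16741664)) (a (l 3) (l 16747032))) (l 3)) (b (b (l 16740016) (c (l 16741960) (l 16748560))) (b (a (b (l 16745240) (l 3)) (l 11978876327)) (a (l 3) (c (l 16747024) (l 16748344)))))) (b (a (l 16744368) (l 16736944)) (a (b (l 16748272) (a (c (l 16750920) (l 16749608)) (l 16750360))) (b (l 16740840) (l 16748720)))))) (a (l 3) (b (b (b (a (c (l 16748528) (a (l 3) (l 16749808))) (c (l 16743208) (l 16750712))) (a (c (l 16747136) (c (l 16748808) (l 16749424))) (c (l 42580516983) (a (l 16752624) (l 16746264))))) (a (l 3) (c (a (b (l 16746616) (l 3)) (c (l 16750904) (l 16749264))) (a (b (l 16751472) (l 3)) (b (l 16752856) (l 16751984)))))) (b (a (l 3) (a (l 3) (b (c (l 16748400) (l 16751888)) (l 3)))) (l 3))))),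 by decide +kernel⟩

def k17_pp_012_a : ∃ t, chk3 f_pp_012_a t 125 29 1 = true :=
  ⟨(b (b (a (c (l 16731408) (l 16744176)) (l 16738728)) (a (a (b (l 16737464) (l 16745360)) (l 16741904)) (c (l 16732464) (l 16745096)))) (c (a (b (a (b (l 16741760) (l 16749728)) (l 16751488)) (a (a (b (c (l 16752664) (l 1778334759)) (l 3)) (b (l 16751952) (b (l 16754120) (l 6)))) (b (l 16745112) (l 6)))) (b (l 16748328) (l 6))) (a (b (a (b (l 16749200) (c (l 16751304) (l 16752504))) (b (l 16741792) (l 16744480))) (a (a (b (b (l 11442012279) (c (l 16750176) (l 16751352))) (l 3)) (b (b (l 16748136) (l 16754744)) (b (c (l 16750392) (l 16754168)) (l 6)))) (b (l 16752432) (l 6)))) (b (a (l 16751472) (l 16738848)) (l 6))))), by decide +kernel⟩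

def k18_pp_012_a : ∃ t, chk3 f_pp_012_a t 63 14 1 = true :=
  ⟨(b (a (b (c (l 16707416) (l 16710016)) (a (b (l 16713984) (l 16718960)) (b (l 16709928) (l 16714880)))) (b (c (l 16699720) (l 16702248)) (b (a (l 16705960) (l 16702104)) (a (l 16710896) (l 16707016))))) (a (b (a (b (l 16724072) (l 16739776)) (b (l 16719976) (l 16725184))) (b (a (l 16742488) (l 6)) (l 6))) (b (a (b (l 16715968) (l 6)) (l 6)) (l 6)))), by decide +kernel⟩

def k19_pp_012_a : ∃ t, chk3 f_pp_012_a t 31 15 1 = true :=
  ⟨(a (a (l 3) (b (l 6) (l 3))) (l 6)), by decide +kernel⟩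

theorem s20_pp_012_a : ∃ t, chk3 f_pp_012_a t 62 29 1 = true := ex3_a k16_pp_012_a k17_pp_012_a

theorem s21_pp_012_a : ∃ t, chk3 f_pp_012_a t 62 14 1 = true := ex3_b k15_pp_012_a s20_pp_012_a

theorem s22_pp_012_a : ∃ t, chk3 f_pp_012_a t 31 14 1 = true := ex3_a s21_pp_012_a k18_pp_012_a

theorem s23_pp_012_a : ∃ t, chk3 f_pp_012_a t 31 7 1 = true := ex3_b s22_pp_012_a k19_pp_012_a

theorem s24_pp_012_a : ∃ t, chk3 f_pp_012_a t 15 7 1 = true := ex3_a k14_pp_012_a s23_pp_012_a

theorem s25_pp_012_a : ∃ t, chk3 f_pp_012_a t 15 3 1 = true := ex3_b k13_pp_012_a s24_pp_012_a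

theorem s26_pp_012_a : ∃ t, chk3 f_pp_012_a t 7 3 1 = true := ex3_a k12_pp_012_a s25_pp_012_a

theorem s27_pp_012_a : ∃ t, chk3 f_pp_012_a t 28 5 1 = true := ex3_b k8_pp_012_a k9_pp_012_a

theorem s28_pp_012_a : ∃ t, chk3 f_pp_012_a t 14 5 1 = true := ex3_a s27_pp_012_a k10_pp_012_a

theorem s29_pp_012_a : ∃ t, chk3 f_pp_012_a t 14 2 1 = true := ex3_b k7_pp_012_a s28_pp_012_a

theorem s30_pp_012_a : ∃ t, chk3 f_pp_012_a t 7 2 1 = true := ex3_a s29_pp_012_a k11_pp_012_a

theorem s31_pp_012_a : ∃ t, chk3 f_pp_012_a t 7 1 1 = true := ex3_b s30_pp_012_a s26_pp_012_a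

theorem s32_pp_012_a : ∃ t, chk3 f_pp_012_a t 27 4 1 = true := ex3_b k3_pp_012_a k4_pp_012_a

theorem s33_pp_012_a : ∃ t, chk3 f_pp_012_a t 13 4 1 = true := ex3_a k2_pp_012_a s32_pp_012_a

theorem s34_pp_012_a : ∃ t, chk3 f_pp_012_a t 13 2 1 = true := ex3_b s33_pp_012_a k5_pp_012_a

theorem s35_pp_012_a : ∃ t, chk3 f_pp_012_a t 6 2 1 = true := ex3_a k1_pp_012_a s34_pp_012_a

theorem s36_pp_012_a : ∃ t, chk3 f_pp_012_a t 6 1 1 = true := ex3_b s35_pp_012_a k6_pp_012_a

theorem s37_pp_012_a : ∃ t, chk3 f_pp_012_a t 3 1 1 = true := ex3_a s36_pp_012_a s31_pp_012_a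

theorem s38_pp_012_a : ∃ t, chk3 f_pp_012_a t 1 1 1 = true := ex3_a k0_pp_012_a s37_pp_012_a

theorem c_pp_012_a : CertB 0 536870912 0 536870912 780900216 37827925 3 eng mog cd0q0 cd2q2a pd1 false true true .pnp 0 1 2
    ndB0q0 ndB2q2a pcB1 cut_pp_012_a Ext.none :=
  certB2 (fam := false) (s1 := true) (s2 := true) (a := 0) (b := 1) (c := 2) (cn := .pnp) (n1 := ndB0q0) (n2 := ndB2q2a) (pc := pcB1) (cut := cut_pp_012_a) (xt := Ext.none) (P1 := 0) (W1 := 536870912) (P2 := 0) (W2 := 536870912) (P3 := 780900216) (W3 := 37827925) (N0 := 3) (En := eng) (mo := mog) (C1 := cd0q0) (C2 := cd2q2a) (C3 := pd1)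
    rfl (fun _ => rfl) s38_pp_012_a

end Pool.Agent.Strip051.G.I72727_7625.Tab.C.BB02

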