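import Pool.Agent.Strip051.G.I72727_7625.Tab
import Pool.Agent.Strip051.PB.ExtD2

/-! # Certificates B11 (generated) -/

set_option linter.all false
set_option maxRecDepth 100000

namespace Pool.Agent.Strip051.G.I72727_7625.Tab.C.BB02

open Pool.Agent.Strip051.PB Pool.Agent.Strip051.PB.T
open Pool.Agent.Strip051.G.I72727_7625.Tab

noncomputable def cut_pp_012_b : Cut := Cut.of [[⟨0, 0, 0, 67108864⟩, ⟨1, 1, 0, 67108864⟩, ⟨2, 1, 0, 67108864⟩]]

noncomputable def f_pp_012_b : ℕ → ℕ → ℕ → ℕ → Bool := onCell 536870912 536870912 1239849684 370763052 780900216 37827925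
    (rowB 3 eng mog cd0q0 cd2q2b pd1 2 false true true .pnp 0 1 2 (qsf 0 536870912 1239849684 370763052 1) ndB0q0 ndB2q2b pcB1 cut_pp_012_b Ext.none)

def k0_pp_012_b : ∃ t, chk3 f_pp_012_b t 2 1 1 = true :=
  ⟨(b (l 3) (l 2)), by decide +kernel⟩

def k1_pp_012_b : ∃ t, chk3 f_pp_012_b t 6 1 1 = true :=
  ⟨(b (a (b (a (l 3) (b (l 3) (l 3))) (l 3)) (b (b (a (c (a (b (a (b (l 16724872) (l 16701824)) (l 16719352)) (a (l 16693600) (l 16673592))) (b (b (l 16711224) (l 16676912)) (l 16677312))) (a (b (a (b (l 16725080) (a (l 16704224) (l 16699456))) (a (l 16721312) (l 16694952))) (a (b (l 16689064) (l 16676504)) (l 16693440))) (b (b (a (l 16693624) (l 16683256)) (l 16695688)) (b (l 16682488) (l 16648872))))) (b (a (c (l 16685712) (b (l 16689608) (l 16653792))) (a (l 16649800) (l 16641560))) (a (c (b (l 16644064) (l 16630920)) (l 16674896)) (c (l 16639856) (l 16633584))))) (a (c (a (a (l 3) (b (l 16649640) (l 16626536))) (b (b (l 16639344) (l 16627432)) (l 16652136))) (b (a (a (l 3) (l 16648272))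 (l 16651464)) (a (l 16650848) (l 16607240)))) (b (a (c (l 16611992) (l 16606976)) (c (l 16591872) (l 16584744))) (a (c (l 16587752) (l 16582512)) (c (l 16566680) (l 16559144)))))) (c (a (a (l 3) (b (b (l 16609176) (l 60833840071)) (b (l 60296927335) (l 61907495319)))) (b (a (b (l 16564864) (l 16543440)) (b (l 16542720) (l 16520168))) (a (b (l 16523632) (l 16505784)) (b (l 16499080) (l 16479912))))) (a (a (l 3) (b (b (l 16585312) (l 16564688)) (b (l 16545800) (l 16528848)))) (b (c (a (l 16592552) (l 16526048)) (b (l 16586720) (l 16543816))) (b (a (l 16518856) (l 16491672)) (a (l 16501456) (l 16472888)))))))) (a (l 2) (b (a (l 3) (a (b (b (a (l 16496344) (l 16482016)) (l 71034202727)) (l 2)) (b (b (l 16460424) (l 16446192)) (b (l 16434392) (l 2))))) (l 2)))), by decide +kernel⟩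

def k2_pp_012_b : ∃ t, chk3 f_pp_012_b t 7 2 1 = true :=
  ⟨(a (b (a (b (b (a (c (l 16633056) (l 16647920)) (l 16616688)) (a (c (l 16622992) (l 16594112)) (c (l 16608432) (l 16578152)))) (a (b (c (l 16573512) (l 16564400)) (c (l 16546952) (l 16537136))) (b (l 16572832) (l 16544416)))) (b (b (a (l 16605256) (l 16596392)) (a (l 16570112) (l 16559976))) (b (a (l 16557920) (l 16525360)) (a (l 16506432) (l 16492816))))) (a (a (b (c (b (l 16522080) (l 16498448)) (l 16562920)) (b (c (l 16476296) (l 16466240)) (l 16451640))) (b (b (l 16517952) (l 16472480)) (c (l 16443928) (l 16431256)))) (b (a (b (l 16478608) (l 16452776)) (b (l 16463128) (l 16435728))) (b (a (l 16428400) (l 16410312)) (a (l 16405624) (l 16386368)))))) (b (a (a (b (b (l 16590144) (l 16552896)) (b (l 16516872) (l 16503696))) (b (b (l 16585080) (l 16547632)) (b (l 16510872) (l 16475320)))) (b (b (a (l 16569248) (l 16553384)) (b (l 16544008) (l 16524544))) (c (b (l 16505128) (l 16470016)) (b (l 16486696) (l 16511736))))) (a (b (b (a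 (l 16450872) (l 16441672)) (a (l 16421880) (l 16410512))) (b (a (l 16395040) (l 16382232)) (l 16404920))) (a (b (b (l 16431824) (l 16399608)) (b (l 16370256) (l 16343112))) (b (b (l 16418272) (l 16384736)) (b (l 16353552) (l 16325360))))))), by decide +kernel⟩

def k3_pp_012_b : ∃ t, chk3 f_pp_012_b t 7 3 1 = true :=
  ⟨(a (b (a (b (b (a (l 16433360) (l 16407952)) (a (l 16417392) (l 16390424))) (a (b (l 16404032) (l 2)) (b (l 16375256) (l 16362688)))) (b (b (a (l 16384576) (l 16364088)) (a (l 16365432) (l 16343568))) (b (a (l 16348608) (l 16325240)) (a (l 16334360) (l 16309304))))) (a (l 2) (b (b (l 16350832) (l 16298776)) (l 2)))) (b (a (b (c (b (l 16349048) (l 16326608)) (l 16378696)) (a (l 16317280) (a (l 16282360) (l 16273648)))) (b (b (a (l 16318016) (l 16299568)) (l 16326664)) (a (b (l 16272248) (l 16251680)) (l 16264248)))) (a (b (b (l 16262376) (l 16249336)) (b (l 16238808) (l 2))) (b (a (l 16225672) (l 16206584)) (b (l 16195664) (l 16185128)))))), by decide +kernel⟩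

theorem s4_pp_012_b : ∃ t, chk3 f_pp_012_b t 7 1 1 = true := ex3_b k2_pp_012_b k3_pp_012_b

theorem s5_pp_012_b : ∃ t, chk3 f_pp_012_b t 3 1 1 = true := ex3_a k1_pp_012_b s4_pp_012_b

theorem s6_pp_012_b : ∃ t, chk3 f_pp_012_b t 1 1 1 = true := ex3_a k0_pp_012_b s5_pp_012_b

theorem c_pp_012_b : CertB 0 536870912 1239849684 370763052 780900216 37827925 3 eng mog cd0q0 cd2q2b pd1 false true true .pnp 0 1 2
    ndB0q0 ndB2q2b pcB1 cut_pp_012_b Ext.none :=
  certB2 (fam := false) (s1 := true) (s2 := true) (a := 0) (b := 1) (c := 2) (cn := .pnp) (n1 := ndB0q0) (n2 := ndB2q2b) (pc := pcB1) (cut := cut_pp_012_b) (xt := Ext.none) (P1 := 0) (W1 := 536870912) (P2 := 1239849684) (W2 := 370763052) (P3 := 780900216) (W3 := 37827925) (N0 := 3) (En := eng) (mo := mog) (C1 := cd0q0) (C2 := cd2q2b) (C3 := pd1)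
    rfl (fun _ => rfl) s6_pp_012_b

noncomputable def cut_pp_022_a : Cut := Cut.of [[⟨0, 0, 0, 67108864⟩, ⟨1, 1, 0, 67108864⟩, ⟨2, 1, 0, 67108864⟩]]

noncomputable def f_pp_022_a : ℕ → ℕ → ℕ → ℕ → Bool := onCell 1073741824 536870912 0 536870912 780900216 37827925
    (rowB 3 eng mog cd0q0 cd2q2a pd2 2 false true true .pp 0 2 2 (qsf 0 536870912 0 536870912 2) ndB0q0 ndB2q2a pcB2 cut_pp_022_a Ext.none)

def k0_pp_022_a : ∃ t, chk3 f_pp_022_a t 8 2 1 = true :=
  ⟨(b (b (a (a (l 16488336) (l 16524032)) (l 16522384)) (a (a (b (l 16523640) (l 16536680)) (l 16543520)) (a (l 16539792) (l 16516784)))) (a (b (a (b (l 16552400) (l 16568800)) (l 16572328)) (a (b (l 16585544) (l 16602184)) (l 16591944))) (b (a (l 16549912) (l 16483952)) (a (a (l 16572824) (l 16517904)) (b (l 16535544) (l 16544416)))))), by decide +kernel⟩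

def k1_pp_022_a : ∃ t, chk3 f_pp_022_a t 8 3 1 = true :=
  ⟨(b (a (b (b (a (a (l 16594440) (l 16620832)) (l 16611272)) (a (b (l 16577528) (l 16595944)) (b (l 16622768) (l 16630744)))) (a (a (b (a (l 16624592) (l 16627240)) (b (l 16636608) (a (l 16662880) (l 16665544)))) (b (l 16651856) (b (l 16662528) (l 16648336)))) (b (a (l 16651584) (l 16636192)) (a (b (l 16666328) (l 16673832)) (l 16655072))))) (b (b (a (b (l 16580344) (l 16524120)) (b (l 16552168) (l 16578952))) (a (a (l 16604968) (a (l 16614752) (l 16607176))) (b (a (l 16571568) (l 16556192)) (l 16611816)))) (a (b (a (c (l 16624472) (l 16616168)) (l 16625384)) (a (b (l 16612456) (c (l 16646776) (l 16638632))) (a (l 16646208) (l 16637504)))) (b (a (l 16629976) (b (l 16568040) (l 16574632))) (a (b (l 16599240) (l 16628376)) (b (l 16581680) (a (l 16593800) (l 16584640)))))))) (a (b (b (a (b (a (a (c (l 16669288) (l 16669104)) (l 16671872)) (b (l 16653152) (l 16656256))) (b (a (a (l 16696048) (l 16677848)) (c (l 16680672) (l 16682960)))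 (l 6))) (b (a (l 16680328) (l 16670792)) (b (a (l 16686432) (l 16677712)) (l 6)))) (l 6)) (l 6)) (b (b (a (b (a (c (l 16635744) (l 16648760)) (l 16655616)) (a (c (l 16632392) (l 16655856)) (b (l 16661488) (l 6)))) (b (a (a (l 16620776) (l 16611440)) (a (l 16602024) (l 16613504))) (b (a (a (l 16626264) (l 16616664)) (a (l 16606992) (l 16597248))) (a (l 6) (a (l 6) (l 16597528)))))) (a (l 6) (a (l 6) (a (l 6) (l 1))))) (a (l 6) (l 1))))), by decide +kernel⟩

def k2_pp_022_a : ∃ t, chk3 f_pp_022_a t 9 2 1 = true :=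
  ⟨(b (a (b (l 16414160) (a (l 16493312) (l 16468632))) (a (b (l 16440096) (l 16442272)) (b (l 16407456) (l 16407624)))) (a (b (a (l 16458728) (b (l 16473072) (l 16475112))) (a (b (l 16507968) (l 16556776)) (b (l 16478400) (a (l 16491056) (l 16474952))))) (b (a (b (l 16445872) (l 16446448)) (b (l 16409792) (l 16409360))) (a (b (a (l 16455624) (l 16440032)) (a (l 16458648) (b (l 16441400) (l 16442688)))) (b (a (l 16420248) (l 16397872)) (a (b (l 16420936) (l 16421744)) (b (l 16397944) (l 131566226423)))))))), by decide +kernel⟩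

def k3_pp_022_a : ∃ t, chk3 f_pp_022_a t 9 6 1 = true :=
  ⟨(a (b (b (b (a (l 16520984) (a (l 16495808) (l 16478816))) (a (a (l 16534320) (l 16516976)) (a (l 16499488) (l 16481856)))) (a (b (c (l 16559168) (l 16522064)) (a (l 16544480) (l 16525664))) (a (b (b (l 16502304) (l 16504024)) (l 16527728)) (b (b (l 16484176) (l 16485552)) (a (l 16492512) (l 16503960)))))) (a (b (a (b (l 16549944) (l 16576792)) (b (l 16551312) (a (l 16540496) (l 16530256)))) (a (b (a (l 16567464) (l 16556800)) (a (l 16574456) (b (l 16561632) (l 16565000)))) (b (a (l 16567104) (b (l 16534112) (l 16536800))) (a (b (l 16550616) (l 16553736)) (b (l 16539592) (l 1)))))) (b (a (b (a (l 16515584) (l 16505728)) (a (b (l 16518864) (l 16521160)) (b (l 16508704) (l 16531768)))) (b (a (c (l 16506272) (l 16484840)) (b (l 16485192) (l 16497232))) (a (b (l 16509024) (l 16500432)) (c (l 16500312) (l 16477512))))) (a (b (a (b (l 16523544) (l 16526016)) (b (l 16512968) (l 1))) (l 1)) (l 1))))) (b (a (b (a (b (l 16461656) (c (l 16474736)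 (l 16452832))) (c (b (l 16454840) (a (l 16462080) (l 109017714743))) (b (l 16433096) (a (l 16438640) (l 16449952))))) (a (b (b (c (l 16477200) (l 16454000)) (a (l 16471632) (l 16462320))) (a (b (l 16472824) (l 16474072)) (c (l 16475680) (l 16451432)))) (a (b (b (l 16460048) (l 16452992)) (c (l 16466624) (l 16441320))) (b (b (c (l 16455320) (l 16429568)) (l 1)) (l 1))))) (b (b (a (a (l 16428712) (l 221223709767)) (l 162167875143)) (a (c (l 176126556231) (l 208875634119)) (l 1))) (l 1))) (a (b (a (a (b (a (l 36003328599) (l 16484088)) (l 1)) (l 1)) (l 1)) (l 1)) (l 1)))), by decide +kernel⟩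

def k4_pp_022_a : ∃ t, chk3 f_pp_022_a t 9 7 1 = true :=
  ⟨(a (b (b (a (b (c (a (a (l 16589352) (l 16578272)) (l 16561680)) (a (a (l 16574080) (l 16561840)) (l 16543496))) (a (a (l 16596840) (l 1)) (l 1))) (l 1)) (l 1)) (l 1)) (l 1)), by decide +kernel⟩

def k5_pp_022_a : ∃ t, chk3 f_pp_022_a t 5 1 1 = true :=
  ⟨(b (a (a (b (a (b (l 16368488) (b (l 16366184) (l 16365848))) (b (l 187937557575) (a (l 16354424) (l 445635561783)))) (a (b (b (a (l 16377336) (l 16375816)) (a (l 16376248) (l 167536483479))) (b (a (b (l 16375168) (l 16374720)) (l 160557169319)) (a (b (l 170220879159) (l 1)) (l 1)))) (a (b (b (b (l 16332008) (l 290479879271)) (l 144450996295)) (l 1)) (l 1)))) (b (b (l 1) (l 1)) (l 1))) (l 1)) (b (l 1) (l 1))), by decide +kernel⟩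

def k6_pp_022_a : ∃ t, chk3 f_pp_022_a t 3 1 1 = true :=
  ⟨(l 1), by decide +kernel⟩

theorem s7_pp_022_a : ∃ t, chk3 f_pp_022_a t 9 3 1 = true := ex3_b k3_pp_022_a k4_pp_022_a

theorem s8_pp_022_a : ∃ t, chk3 f_pp_022_a t 9 1 1 = true := ex3_b k2_pp_022_a s7_pp_022_a

theorem s9_pp_022_a : ∃ t, chk3 f_pp_022_a t 8 1 1 = true := ex3_b k0_pp_022_a k1_pp_022_a

theorem s10_pp_022_a : ∃ t, chk3 f_pp_022_a t 4 1 1 = true := ex3_a s9_pp_022_a s8_pp_022_a

theorem s11_pp_022_a : ∃ t, chk3 f_pp_022_a t 2 1 1 = true := ex3_a s10_pp_022_a k5_pp_022_a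

theorem s12_pp_022_a : ∃ t, chk3 f_pp_022_a t 1 1 1 = true := ex3_a s11_pp_022_a k6_pp_022_a

theorem c_pp_022_a : CertB 0 536870912 0 536870912 780900216 37827925 3 eng mog cd0q0 cd2q2a pd2 false true true .pp 0 2 2
    ndB0q0 ndB2q2a pcB2 cut_pp_022_a Ext.none :=
  certB2 (fam := false) (s1 := true) (s2 := true) (a := 0) (b := 2) (c := 2) (cn := .pp) (n1 := ndB0q0) (n2 := ndB2q2a) (pc := pcB2) (cut := cut_pp_022_a) (xt := Ext.none) (P1 := 0) (W1 := 536870912) (P2 := 0) (W2 := 536870912) (P3 := 780900216) (W3 := 37827925) (N0 := 3) (En := eng) (mo := mog) (C1 := cd0q0) (C2 := cd2q2a) (C3 := pd2)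
    rfl (fun _ => rfl) s12_pp_022_a

noncomputable def cut_pp_022_b : Cut := Cut.of [[⟨0, 0, 0, 67108864⟩, ⟨1, 1, 0, 67108864⟩, ⟨2, 1, 0, 67108864⟩]]

noncomputable def f_pp_022_b : ℕ → ℕ → ℕ → ℕ → Bool := onCell 0 536870912 1073741824 536870912 780900216 37827925
    (rowB 3 eng mog cd0q0 cd2q2b pd2 1 false true true .pp 0 2 2 (qsf 0 536870912 1239849684 370763052 2) ndB0q0 ndB2q2b pcB2 cut_pp_022_b Ext.none)

def k0_pp_022_b : ∃ t, chk3 f_pp_022_b t 2 2 1 = true :=
  ⟨(a (b (b (a (l 1) (b (a (l 1) (b (l 1) (l 242698853847))) (a (a (l 1) (l 229277134279)) (a (l 16592480) (l 16511592))))) (a (a (b (l 1) (b (l 1) (l 270079093223))) (b (b (l 1) (l 199749149255)) (b (a (l 16475648) (l 16439640)) (l 16443976)))) (a (b (b (l 291553722007) (l 233034708743)) (b (l 16397144) (l 16377200))) (b (l 16444192) (l 16371288))))) (b (a (b (a (a (b (l 290480084407) (c (l 16337120) (l 16324080))) (b (l 16370344) (l 16323512))) (b (l 16355888) (l 16312360))) (a (a (c (l 16265760) (l 16253880)) (l 16255992))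 (c (l 16251656) (l 16247408)))) (b (a (b (l 16335272) (l 16295488)) (c (l 16293768) (l 16299744))) (a (l 16238128) (l 16226976)))) (a (a (b (b (a (l 16193544) (l 16192720)) (a (l 16152360) (l 16153368))) (c (a (l 16099664) (l 16102408)) (l 16134136))) (b (b (l 16190224) (l 16153616)) (c (l 16105456) (l 16100248)))) (a (b (l 16272952) (l 16105760)) (b (l 16164432) (l 16109232)))))) (b (a (a (b (b (b (a (l 316249880151) (l 191695740631)) (a (l 16513152) (l 16484328))) (l 16496648)) (b (l 16417824) (l 16349872))) (b (b (b (b (l 16518776) (l 16491688)) (l 16440096)) (l 16419064)) (b (l 16387304) (l 16332208)))) (b (b (a (b (c (l 16408568) (l 16380392)) (a (l 16397504) (l 16370344))) (c (l 16351000) (l 16319976))) (a (l 16365256) (l 16315112))) (b (a (l 16336944) (l 16290264)) (l 16433008)))) (a (a (b (b (l 16282432) (l 16220808)) (b (l 16165832) (l 16117808))) (b (b (l 16272552) (l 16218888)) (l 16184592))) (b (b (l 16315896) (l 16211624)) (b (l 16176296) (l 16146728)))))), by decide +kernel⟩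

def k1_pp_022_b : ∃ t, chk3 f_pp_022_b t 3 2 1 = true :=
  ⟨(b (a (a (b (a (b (c (l 16302304) (l 16268080)) (c (l 16281192) (l 16253808))) (b (c (l 16257352) (l 16220888)) (l 16225864))) (b (a (l 16247224) (l 16208480)) (l 16208440))) (b (b (a (c (l 16217416) (l 16179880)) (c (l 16181904) (l 16144312))) (a (l 16188536) (l 16155848))) (b (a (l 16174488) (l 16144856)) (l 16147872)))) (b (a (a (c (l 16145344) (l 16154512)) (b (l 16105480) (l 16103408))) (b (a (l 16083368) (l 16067072)) (a (l 16084968) (l 16072360)))) (a (b (l 16129776) (l 16104976)) (b (l 16079784) (l 2))))) (a (b (a (b (l 16201952) (l 16189200)) (b (l 16150624) (l 16150264))) (a (l 16162728) (l 16140400))) (b (a (l 16122632) (l 2)) (l 2)))), by decide +kernel⟩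

def k2_pp_022_b : ∃ t, chk3 f_pp_022_b t 1 3 1 = true :=
  ⟨(a (a (b (a (b (a (b (c (a (l 16029840) (l 16036344)) (l 16024384)) (c (a (l 15969752) (l 15979768)) (l 15964568))) (b (c (l 16045008) (l 16038568)) (l 16050728))) (a (b (c (l 15947056) (l 15912128)) (c (l 15886552) (l 15866720))) (b (l 15942808) (l 15905448)))) (b (a (b (l 16051216) (l 16004472)) (b (l 16061392) (l 16020832))) (a (b (l 15965216) (l 15933104)) (l 15972952)))) (a (b (a (b (c (l 15855688) (l 15828104)) (l 15812376)) (b (l 15875344) (l 15852032))) (a (b (l 15791544) (l 15776944)) (l 15828648))) (b (a (l 15897408) (l 15931200)) (l 15911768)))) (b (a (b (a (l 16121592) (l 16081800)) (a (l 16002592) (l 16036928))) (b (l 16112608) (l 16084360))) (a (b (l 15990640) (l 2)) (l 2)))) (b (a (a (b (l 16142432) (l 2)) (l 2)) (l 2)) (l 2))), by decide +kernel⟩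

theorem s3_pp_022_b : ∃ t, chk3 f_pp_022_b t 1 2 1 = true := ex3_a k0_pp_022_b k1_pp_022_b

theorem s4_pp_022_b : ∃ t, chk3 f_pp_022_b t 1 1 1 = true := ex3_b s3_pp_022_b k2_pp_022_b

theorem c_pp_022_b : CertB 0 536870912 1239849684 370763052 780900216 37827925 3 eng mog cd0q0 cd2q2b pd2 false true true .pp 0 2 2
    ndB0q0 ndB2q2b pcB2 cut_pp_022_b Ext.none :=
  certB1 (fam := false) (s1 := true) (s2 := true) (a := 0) (b := 2) (c := 2) (cn := .pp) (n1 := ndB0q0) (n2 := ndB2q2b) (pc := pcB2) (cut := cut_pp_022_b) (xt := Ext.none) (P1 := 0) (W1 := 536870912) (P2 := 1239849684) (W2 := 370763052) (P3 := 780900216) (W3 := 37827925) (N0 := 3) (En := eng) (mo := mog) (C1 := cd0q0) (C2 := cd2q2b) (C3 := pd2)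
    rfl (fun _ => rfl) s4_pp_022_b

noncomputable def f_pp_023 : ℕ → ℕ → ℕ → ℕ → Bool := onCell 0 536870912 1073741824 536870912 780900216 37827925
    (rowB 3 eng mog cd0q0 cd2q3 pd2 1 false true true .up 0 2 3 (qsf 0 536870912 1610612736 536870912 2) ndB0q0 ndB2q3 pcB2 Cut.none Ext.none)

def k0_pp_023 : ∃ t, chk3 f_pp_023 t 1 1 1 = true :=
  ⟨(b (a (a (l 1) (b (l 1) (a (l 1) (b (l 1) (l 16394264))))) (b (a (a (l 1) (b (l 1) (b (l 1) (l 321081388071)))) (b (a (c (l 295848362903) (l 297458901175)) (b (a (l 317322978855) (l 26338883255)) (a (l 16079008) (l 16076296)))) (a (b (l 16115944) (l 16096976)) (b (l 16083672) (l 16094472))))) (a (b (a (l 326987036247) (b (l 16135768) (l 16145416))) (a (l 16164104) (l 16154280))) (b (a (b (l 16117008) (l 16137008)) (l 16138928)) (a (l 16161512) (l 16190936)))))) (a (a (b (a (l 1) (b (l 1) (l 317323000231))) (b (a (l 365641218967) (a (l 15914408) (l 15944080))) (a (a (l 15914808) (l 15830936)) (l 15886640)))) (b (a (b (l 340945511287) (l 228202351095))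 (b (l 16128992) (l 16087728))) (a (b (l 15994544) (l 15965616)) (b (l 16060856) (l 16048936))))) (b (a (a (b (l 16131392) (l 16115032)) (b (l 16147808) (l 16114344))) (a (b (l 16176888) (l 16164752)) (b (l 16226144) (l 16291168)))) (a (a (b (l 16111096) (l 16117616)) (b (l 16138600) (l 16224432))) (b (a (l 16262168) (l 16380064)) (a (l 16346368) (l 16445080))))))), by decide +kernel⟩

theorem c_pp_023 : CertB 0 536870912 1610612736 536870912 780900216 37827925 3 eng mog cd0q0 cd2q3 pd2 false true true .up 0 2 3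
    ndB0q0 ndB2q3 pcB2 Cut.none Ext.none :=
  certB1 (fam := false) (s1 := true) (s2 := true) (a := 0) (b := 2) (c := 3) (cn := .up) (n1 := ndB0q0) (n2 := ndB2q3) (pc := pcB2) (cut := Cut.none) (xt := Ext.none) (P1 := 0) (W1 := 536870912) (P2 := 1610612736) (W2 := 536870912) (P3 := 780900216) (W3 := 37827925) (N0 := 3) (En := eng) (mo := mog) (C1 := cd0q0) (C2 := cd2q3) (C3 := pd2)
    rfl (fun _ => rfl) k0_pp_023

noncomputable def f_pp_033 : ℕ → ℕ → ℕ → ℕ → Bool := onCell 1610612736 536870912 1610612736 536870912 780900216 37827925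
    (rowB 3 eng mog cd0q0 cd2q3 pd3 2 false true true .pnn 0 3 3 (qsf 0 536870912 1610612736 536870912 3) ndB0q0 ndB2q3 pcB3 Cut.none Ext.none)

def k0_pp_033 : ∃ t, chk3 f_pp_033 t 1 1 1 = true :=
  ⟨(a (a (b (b (a (b (a (l 15762776) (l 347387289831)) (a (l 15867680) (l 15802984))) (b (b (l 1) (l 452613872071)) (l 222296413319))) (a (b (a (l 15969552) (l 15905128)) (l 16041432)) (b (l 16000640) (l 15921120)))) (b (a (b (l 16157312) (l 16274856)) (b (l 16029832) (l 16183856))) (a (b (l 16389176) (l 16478624)) (b (l 16307064) (l 16415136))))) (b (b (a (b (l 1) (l 471941139863)) (l 1)) (a (b (l 15867488) (l 15828264)) (b (l 485362909399) (l 15756888)))) (b (a (b (l 15959120) (l 16092512)) (b (l 15903208) (l 16026048))) (a (b (l 16236232) (l 16353872)) (b (l 16147944) (l 4)))))) (a (b (b (l 1) (b (l 1) (l 4))) (l 4)) (l 4))), by decide +kernel⟩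

theorem c_pp_033 : CertB 0 536870912 1610612736 536870912 780900216 37827925 3 eng mog cd0q0 cd2q3 pd3 false true true .pnn 0 3 3
    ndB0q0 ndB2q3 pcB3 Cut.none Ext.none :=
  certB2 (fam := false) (s1 := true) (s2 := true) (a := 0) (b := 3) (c := 3) (cn := .pnn) (n1 := ndB0q0) (n2 := ndB2q3) (pc := pcB3) (cut := Cut.none) (xt := Ext.none) (P1 := 0) (W1 := 536870912) (P2 := 1610612736) (W2 := 536870912) (P3 := 780900216) (W3 := 37827925) (N0 := 3) (En := eng) (mo := mog) (C1 := cd0q0) (C2 := cd2q3) (C3 := pd3)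
    rfl (fun _ => rfl) k0_pp_033

noncomputable def f_pp_101 : ℕ → ℕ → ℕ → ℕ → Bool := onCell 536870912 536870912 536870912 536870912 780900216 37827925
    (rowB 3 eng mog cd0q1 cd2q1 pd0 0 false true true .npn 1 0 1 (qsf 536870912 536870912 536870912 536870912 0) ndB0q1 ndB2q1 pcB0 Cut.none Ext.none)

def k0_pp_101 : ∃ t, chk3 f_pp_101 t 1 1 1 = true :=
  ⟨(l 3), by decide +kernel⟩

theorem c_pp_101 : CertB 536870912 536870912 536870912 536870912 780900216 37827925 3 eng mog cd0q1 cd2q1 pd0 false true true .npn 1 0 1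
    ndB0q1 ndB2q1 pcB0 Cut.none Ext.none :=
  certB0 (fam := false) (s1 := true) (s2 := true) (a := 1) (b := 0) (c := 1) (cn := .npn) (n1 := ndB0q1) (n2 := ndB2q1) (pc := pcB0) (cut := Cut.none) (xt := Ext.none) (P1 := 536870912) (W1 := 536870912) (P2 := 536870912) (W2 := 536870912) (P3 := 780900216) (W3 := 37827925) (N0 := 3) (En := eng) (mo := mog) (C1 := cd0q1) (C2 := cd2q1) (C3 := pd0)
    rfl k0_pp_101

noncomputable def f_pp_102_a : ℕ → ℕ → ℕ → ℕ → Bool := onCell 536870912 536870912 0 536870912 780900216 37827925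
    (rowB 3 eng mog cd0q1 cd2q2a pd0 0 false true true .npp 1 0 2 (qsf 536870912 536870912 0 536870912 0) ndB0q1 ndB2q2a pcB0 Cut.none Ext.none)

def k0_pp_102_a : ∃ t, chk3 f_pp_102_a t 1 1 1 = true :=
  ⟨(l 3), by decide +kernel⟩

theorem c_pp_102_a : CertB 536870912 536870912 0 536870912 780900216 37827925 3 eng mog cd0q1 cd2q2a pd0 false true true .npp 1 0 2
    ndB0q1 ndB2q2a pcB0 Cut.none Ext.none :=
  certB0 (fam := false) (s1 := true) (s2 := true) (a := 1) (b := 0) (c := 2) (cn := .npp) (n1 := ndB0q1) (n2 := ndB2q2a) (pc := pcB0) (cut := Cut.none) (xt := Ext.none) (P1 := 536870912) (W1 := 536870912) (P2 := 0) (W2 := 536870912) (P3 := 780900216) (W3 := 37827925) (N0 := 3) (En := eng) (mo := mog) (C1 := cd0q1) (C2 := cd2q2a) (C3 := pd0)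
    rfl k0_pp_102_a

noncomputable def f_pp_102_b : ℕ → ℕ → ℕ → ℕ → Bool := onCell 536870912 536870912 0 536870912 780900216 37827925
    (rowB 3 eng mog cd0q1 cd2q2b pd0 1 false true true .npp 1 0 2 (qsf 536870912 536870912 1239849684 370763052 0) ndB0q1 ndB2q2b pcB0 Cut.none Ext.none)

def k0_pp_102_b : ∃ t, chk3 f_pp_102_b t 1 1 1 = true :=
  ⟨(l 3), by decide +kernel⟩

theorem c_pp_102_b : CertB 536870912 536870912 1239849684 370763052 780900216 37827925 3 eng mog cd0q1 cd2q2b pd0 false true true .npp 1 0 2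
    ndB0q1 ndB2q2b pcB0 Cut.none Ext.none :=
  certB1 (fam := false) (s1 := true) (s2 := true) (a := 1) (b := 0) (c := 2) (cn := .npp) (n1 := ndB0q1) (n2 := ndB2q2b) (pc := pcB0) (cut := Cut.none) (xt := Ext.none) (P1 := 536870912) (W1 := 536870912) (P2 := 1239849684) (W2 := 370763052) (P3 := 780900216) (W3 := 37827925) (N0 := 3) (En := eng) (mo := mog) (C1 := cd0q1) (C2 := cd2q2b) (C3 := pd0)
    rfl (fun _ => rfl) k0_pp_102_b

noncomputable def f_pp_112_a : ℕ → ℕ → ℕ → ℕ → Bool := onCell 536870912 536870912 0 536870912 780900216 37827925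
    (rowB 3 eng mog cd0q1 cd2q2a pd1 0 false true true .dn 1 1 2 (qsf 536870912 536870912 0 536870912 1) ndB0q1 ndB2q2a pcB1 Cut.none Ext.none)

def k0_pp_112_a : ∃ t, chk3 f_pp_112_a t 1 1 1 = true :=
  ⟨(l 3), by decide +kernel⟩

theorem c_pp_112_a : CertB 536870912 536870912 0 536870912 780900216 37827925 3 eng mog cd0q1 cd2q2a pd1 false true true .dn 1 1 2
    ndB0q1 ndB2q2a pcB1 Cut.none Ext.none :=
  certB0 (fam := false) (s1 := true) (s2 := true) (a := 1) (b := 1) (c := 2) (cn := .dn) (n1 := ndB0q1) (n2 := ndB2q2a) (pc := pcB1) (cut := Cut.none) (xt := Ext.none) (P1 := 536870912) (W1 := 536870912) (P2 := 0) (W2 := 536870912) (P3 := 780900216) (W3 := 37827925) (N0 := 3) (En := eng) (mo := mog) (C1 := cd0q1) (C2 := cd2q2a) (C3 := pd1)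
    rfl k0_pp_112_a

noncomputable def f_pp_112_b : ℕ → ℕ → ℕ → ℕ → Bool := onCell 536870912 536870912 536870912 536870912 780900216 37827925
    (rowB 3 eng mog cd0q1 cd2q2b pd1 1 false true true .dn 1 1 2 (qsf 536870912 536870912 1239849684 370763052 1) ndB0q1 ndB2q2b pcB1 Cut.none Ext.none)

def k0_pp_112_b : ∃ t, chk3 f_pp_112_b t 1 1 1 = true :=
  ⟨(b (a (l 3) (l 3)) (a (b (a (b (l 3) (b (l 3) (a (a (b (a (l 16476200) (l 16467880)) (a (l 16437536) (l 16429936))) (b (l 3) (l 82845267207))) (a (b (l 3) (l 119889342711)) (l 3))))) (l 3)) (a (b (a (b (a (b (l 16395016) (l 16357064)) (b (l 16382432) (l 16344840))) (a (l 16323336) (l 16290744))) (b (a (b (l 16375200) (l 16338240)) (b (l 93045758263) (l 16338696))) (a (l 16285168) (l 16371152)))) (a (b (a (l 16238216) (l 16227880)) (a (l 16180736) (l 16171008))) (b (a (l 16224216) (l 2)) (l 2)))) (b (a (b (b (b (l 3) (l 2)) (l 2)) (l 2)) (l 2)) (l 2)))) (b (l 3) (l 2)))), by decide +kernel⟩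

theorem c_pp_112_b : CertB 536870912 536870912 1239849684 370763052 780900216 37827925 3 eng mog cd0q1 cd2q2b pd1 false true true .dn 1 1 2
    ndB0q1 ndB2q2b pcB1 Cut.none Ext.none :=
  certB1 (fam := false) (s1 := true) (s2 := true) (a := 1) (b := 1) (c := 2) (cn := .dn) (n1 := ndB0q1) (n2 := ndB2q2b) (pc := pcB1) (cut := Cut.none) (xt := Ext.none) (P1 := 536870912) (W1 := 536870912) (P2 := 1239849684) (W2 := 370763052) (P3 := 780900216) (W3 := 37827925) (N0 := 3) (En := eng) (mo := mog) (C1 := cd0q1) (C2 := cd2q2b) (C3 := pd1)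
    rfl (fun _ => rfl) k0_pp_112_b

noncomputable def cut_pp_113 : Cut := Cut.of [[⟨0, 1, 0, 67108864⟩, ⟨1, 1, 0, 67108864⟩, ⟨2, 2, 0, 16777216⟩]]

noncomputable def f_pp_113 : ℕ → ℕ → ℕ → ℕ → Bool := onCell 536870912 536870912 536870912 536870912 780900216 37827925
    (rowB 3 eng mog cd0q1 cd2q3 pd1 1 false true true .nn 1 1 3 (qsf 536870912 536870912 1610612736 536870912 1) ndB0q1 ndB2q3 pcB1 cut_pp_113 Ext.none)

def k0_pp_113 : ∃ t, chk3 f_pp_113 t 1 2 1 = true :=
  ⟨(a (l 3) (l 3)), by decide +kernel⟩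

def k1_pp_113 : ∃ t, chk3 f_pp_113 t 2 3 1 = true :=
  ⟨(b (a (a (l 1) (a (l 1) (a (l 1) (l 3)))) (l 3)) (a (b (b (a (l 1) (a (b (l 1) (l 16368784)) (b (a (l 16409512) (l 16415152)) (l 16378488)))) (a (a (l 1) (l 16375832)) (a (l 16401336) (b (l 16345472) (l 16314800))))) (a (b (a (l 16250264) (l 16250432)) (a (l 16191128) (l 16192984))) (b (a (l 16257928) (l 16273936)) (a (l 16203536) (l 16223360))))) (b (a (b (a (b (a (l 102172590087) (l 165523370583)) (b (l 16404256) (l 16388688))) (b (l 3) (a (l 105930666471) (l 114520630567)))) (a (b (l 16365696) (l 16337384)) (b (a (l 16388232) (l 16407856)) (l 16372832)))) (b (a (b (l 3) (a (l 171428982503) (l 3))) (l 3)) (b (a (a (l 16431872) (l 117741894439)) (a (l 130626850887) (a (l 140827414439) (l 147806768695)))) (a (l 16426736) (b (l 16506224) (l 16502056)))))) (a (b (a (l 16300288) (l 16341312)) (a (l 16254720) (l 16303168))) (b (a (l 16446008) (a (l 16468992) (l 16522344))) (b (l 16473752) (l 16423560))))))), by decide +kernel⟩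

def k2_pp_113 : ∃ t, chk3 f_pp_113 t 3 6 1 = true :=
  ⟨(l 3), by decide +kernel⟩

def k3_pp_113 : ∃ t, chk3 f_pp_113 t 6 7 1 = true :=
  ⟨(b (a (b (l 3) (a (a (b (l 202567716599) (b (l 16580592) (l 16580944))) (b (l 3) (b (l 188072262199) (l 16645120)))) (b (l 3) (b (l 3) (a (l 171966276583) (l 196125603143)))))) (l 3)) (a (b (a (b (l 16616960) (l 16625856)) (b (a (l 16702072) (b (l 16731976) (l 16714760))) (l 16680280))) (a (l 16592960) (b (l 16649600) (l 16622160)))) (b (a (b (b (a (l 198273027239) (b (l 3) (l 232096001543))) (a (l 16737168) (b (l 217600404199) (l 16756816)))) (a (l 16712880) (a (l 16731448) (l 16744960)))) (b (b (l 3) (a (l 233169728215) (l 3))) (b (a (l 16751208) (l 222969236263)) (a (l 16757576) (l 16781560))))) (a (b (l 16697904) (l 16672208)) (b (l 16748096) (l 16720096)))))), by decide +kernel⟩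

def k4_pp_113 : ∃ t, chk3 f_pp_113 t 7 14 1 = true :=
  ⟨(l 3), by decide +kernel⟩

def k5_pp_113 : ∃ t, chk3 f_pp_113 t 14 15 1 = true :=
  ⟨(b (b (l 3) (a (b (a (l 249812834855) (l 3)) (a (l 190756990039) (b (l 255181560295) (l 224043026647)))) (a (l 3) (l 3)))) (a (b (a (l 16758672) (b (l 16796432) (l 16790560))) (a (l 16749464) (l 16766840))) (b (a (b (a (l 207400035095) (l 195052084279)) (l 16807416)) (a (b (l 305110486119) (l 16817440)) (b (l 3) (a (l 16842112) (l 169282268375))))) (a (l 16782376) (b (l 16802312) (l 16785176)))))), by decide +kernel⟩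

def k6_pp_113 : ∃ t, chk3 f_pp_113 t 15 15 1 = true :=
  ⟨(b (l 3) (a (b (b (l 3) (a (a (b (l 201494491959) (l 16846960)) (b (l 3) (c (l 320142954199) (l 192367682391)))) (a (l 3) (l 3)))) (b (a (c (l 16805096) (a (l 16809792) (l 16832720))) (a (b (c (l 173577178743) (a (l 16817600) (l 103783961031))) (l 16825480)) (b (a (c (l 357723900183) (l 253034065159)) (l 3)) (c (l 158007900935) (a (l 16808008) (l 90899037351)))))) (a (l 16789928) (a (l 16790616) (b (l 16816152) (l 16785840)))))) (b (l 3) (a (b (b (l 3) (a (a (c (l 170355931655) (b (l 267529556759) (l 16805624))) (b (l 3) (c (l 337322770647) (l 257328977175)))) (a (b (l 3) (l 3)) (l 3)))) (a (c (b (l 16792408) (l 16783472)) (b (a (l 16797872) (l 16797696)) (l 16787592))) (b (c (a (b (l 166060939335) (l 16789960)) (b (c (l 336248996663) (l 222432355367)) (l 153712896327))) (b (a (c (l 90362136791) (l 152102290119)) (a (l 301889262103) (l 3))) (a (l 16794832) (c (l 16795912) (l 122574380455))))) (c (a (l 16783184) (l 16782976)) (l 16792024)))))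 (b (l 3) (a (a (b (b (l 3) (b (a (c (l 346449550967) (l 312626671495)) (l 3)) (c (a (l 16788576) (l 174650853975)) (a (l 16792824) (c (l 212231815639) (l 313163538695)))))) (c (b (l 16795536) (l 16780488)) (c (l 16785096) (l 16792064)))) (b (a (a (a (a (l 3) (l 3)) (l 3)) (l 3)) (l 3)) (b (b (a (c (l 162302816935) (c (l 87140888231) (l 222432350743))) (l 6)) (l 6)) (l 6)))) (b (l 3) (l 6)))))))), by decide +kernel⟩

theorem s7_pp_113 : ∃ t, chk3 f_pp_113 t 7 15 1 = true := ex3_a k5_pp_113 k6_pp_113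

theorem s8_pp_113 : ∃ t, chk3 f_pp_113 t 7 7 1 = true := ex3_b k4_pp_113 s7_pp_113

theorem s9_pp_113 : ∃ t, chk3 f_pp_113 t 3 7 1 = true := ex3_a k3_pp_113 s8_pp_113

theorem s10_pp_113 : ∃ t, chk3 f_pp_113 t 3 3 1 = true := ex3_b k2_pp_113 s9_pp_113

theorem s11_pp_113 : ∃ t, chk3 f_pp_113 t 1 3 1 = true := ex3_a k1_pp_113 s10_pp_113

theorem s12_pp_113 : ∃ t, chk3 f_pp_113 t 1 1 1 = true := ex3_b k0_pp_113 s11_pp_113

theorem c_pp_113 : CertB 536870912 536870912 1610612736 536870912 780900216 37827925 3 eng mog cd0q1 cd2q3 pd1 false true true .nn 1 1 3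
    ndB0q1 ndB2q3 pcB1 cut_pp_113 Ext.none :=
  certB1 (fam := false) (s1 := true) (s2 := true) (a := 1) (b := 1) (c := 3) (cn := .nn) (n1 := ndB0q1) (n2 := ndB2q3) (pc := pcB1) (cut := cut_pp_113) (xt := Ext.none) (P1 := 536870912) (W1 := 536870912) (P2 := 1610612736) (W2 := 536870912) (P3 := 780900216) (W3 := 37827925) (N0 := 3) (En := eng) (mo := mog) (C1 := cd0q1) (C2 := cd2q3) (C3 := pd1)
    rfl (fun _ => rfl) s12_pp_113

noncomputable def cut_pp_123 : Cut := Cut.of [[⟨0, 1, 0, 67108864⟩, ⟨1, 1, 0, 67108864⟩, ⟨2, 2, 0, 16777216⟩]]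

noncomputable def f_pp_123 : ℕ → ℕ → ℕ → ℕ → Bool := onCell 536870912 536870912 1073741824 536870912 780900216 37827925
    (rowB 3 eng mog cd0q1 cd2q3 pd2 1 false true true .npn 1 2 3 (qsf 536870912 536870912 1610612736 536870912 2) ndB0q1 ndB2q3 pcB2 cut_pp_123 Ext.none)

def k0_pp_123 : ∃ t, chk3 f_pp_123 t 2 1 1 = true :=
  ⟨(b (b (a (b (a (b (a (l 16067672) (l 16076176)) (a (l 16080128) (l 16090720))) (b (a (l 16093528) (l 16120864)) (l 16123664))) (a (b (l 16098216) (l 16115568)) (b (l 16141248) (l 16163712)))) (b (a (b (a (l 16160552) (l 16218888)) (l 16210208)) (b (a (l 16305888) (l 16429880)) (l 16390000))) (a (b (l 16231192) (l 16257904)) (b (l 16377856) (l 16375408))))) (a (b (a (l 16170312) (l 16227784)) (a (l 16235728) (l 16310736))) (b (a (l 16322952) (l 16417232)) (a (l 16396904) (b (l 16460432) (l 16489608)))))) (a (b (b (a (l 16305152) (l 16395112)) (a (l 16393664) (l 16466016))) (b (a (l 16462856) (l 16519248)) (a (l 16495640) (l 16560792)))) (b (a (b (l 16339536) (l 16434832))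 (b (l 16387320) (l 16555144))) (a (b (l 16552936) (l 2)) (l 2))))), by decide +kernel⟩

def k1_pp_123 : ∃ t, chk3 f_pp_123 t 3 1 1 = true :=
  ⟨(b (a (b (b (a (b (a (l 16490296) (l 16542952)) (l 16497952)) (b (a (b (l 16604208) (l 16592200)) (b (l 16657272) (l 16643032))) (a (l 16572808) (l 16619888)))) (a (b (l 16481656) (l 16468624)) (b (l 16530120) (a (l 16530272) (l 16570784))))) (b (b (a (b (l 16478544) (b (l 16486376) (l 16491816))) (b (l 16553296) (b (l 16557640) (a (l 16547472) (l 16581224))))) (a (l 16506832) (l 16459496))) (a (b (l 16758232) (l 16545480)) (a (l 16505696) (l 2))))) (b (b (a (a (b (b (l 16785704) (l 16685752)) (l 16659352)) (b (b (a (l 16730128) (l 16744856)) (l 16720640)) (b (l 16701488) (l 16598128)))) (b (a (b (a (b (l 16758104) (l 16749440)) (b (a (l 16762192) (l 16764392)) (l 16754504))) (a (l 16735344) (b (l 16744976) (l 16735056)))) (b (a (b (a (b (l 16768656) (l 16764296)) (c (l 16767680) (l 16764144))) (a (l 16757392) (b (l 16761600) (l 6)))) (b (a (a (c (l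 16790280) (l 16786216)) (l 6)) (l 6)) (a (l 6) (l 262630486423)))) (a (l 16742624) (l 332423787399)))) (a (b (l 16715928) (l 16627824)) (a (l 16767784) (l 2))))) (a (b (a (b (l 16635264) (l 16622624)) (c (l 16649776) (l 16644616))) (a (l 16582752) (l 16554672))) (b (a (l 16653560) (l 2)) (l 2)))) (a (b (b (b (a (l 16601648) (l 2)) (l 2)) (l 2)) (l 2)) (l 2)))) (a (b (a (b (l 16641056) (l 2)) (l 2)) (l 2)) (l 2))), by decide +kernel⟩

theorem s2_pp_123 : ∃ t, chk3 f_pp_123 t 1 1 1 = true := ex3_a k0_pp_123 k1_pp_123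

theorem c_pp_123 : CertB 536870912 536870912 1610612736 536870912 780900216 37827925 3 eng mog cd0q1 cd2q3 pd2 false true true .npn 1 2 3
    ndB0q1 ndB2q3 pcB2 cut_pp_123 Ext.none :=
  certB1 (fam := false) (s1 := true) (s2 := true) (a := 1) (b := 2) (c := 3) (cn := .npn) (n1 := ndB0q1) (n2 := ndB2q3) (pc := pcB2) (cut := cut_pp_123) (xt := Ext.none) (P1 := 536870912) (W1 := 536870912) (P2 := 1610612736) (W2 := 536870912) (P3 := 780900216) (W3 := 37827925) (N0 := 3) (En := eng) (mo := mog) (C1 := cd0q1) (C2 := cd2q3) (C3 := pd2)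
    rfl (fun _ => rfl) s2_pp_123

noncomputable def f_pp_133 : ℕ → ℕ → ℕ → ℕ → Bool := onCell 536870912 536870912 1610612736 536870912 780900216 37827925
    (rowB 3 eng mog cd0q1 cd2q3 pd3 0 false true true .dn 1 3 3 (qsf 536870912 536870912 1610612736 536870912 3) ndB0q1 ndB2q3 pcB3 Cut.none Ext.none)

def k0_pp_133 : ∃ t, chk3 f_pp_133 t 1 1 1 = true :=
  ⟨(a (b (l 1) (a (b (l 1) (a (b (l 1) (l 16594752)) (l 1))) (l 1))) (l 1)), by decide +kernel⟩

theorem c_pp_133 : CertB 536870912 536870912 1610612736 536870912 780900216 37827925 3 eng mog cd0q1 cd2q3 pd3 false true true .dn 1 3 3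
    ndB0q1 ndB2q3 pcB3 Cut.none Ext.none :=
  certB0 (fam := false) (s1 := true) (s2 := true) (a := 1) (b := 3) (c := 3) (cn := .dn) (n1 := ndB0q1) (n2 := ndB2q3) (pc := pcB3) (cut := Cut.none) (xt := Ext.none) (P1 := 536870912) (W1 := 536870912) (P2 := 1610612736) (W2 := 536870912) (P3 := 780900216) (W3 := 37827925) (N0 := 3) (En := eng) (mo := mog) (C1 := cd0q1) (C2 := cd2q3) (C3 := pd3)
    rfl k0_pp_133

noncomputable def f_pp_202_a : ℕ → ℕ → ℕ → ℕ → Bool := onCell 0 536870912 0 536870912 780900216 37827925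
    (rowB 3 eng mog cd0q2 cd2q2a pd0 0 false true true .pp 2 0 2 (qsf 0 536870912 0 536870912 0) ndB0q2 ndB2q2a pcB0 Cut.none Ext.none)

def k0_pp_202_a : ∃ t, chk3 f_pp_202_a t 1 1 1 = true :=
  ⟨(l 3), by decide +kernel⟩

theorem c_pp_202_a : CertB 0 536870912 0 536870912 780900216 37827925 3 eng mog cd0q2 cd2q2a pd0 false true true .pp 2 0 2
    ndB0q2 ndB2q2a pcB0 Cut.none Ext.none :=
  certB0 (fam := false) (s1 := true) (s2 := true) (a := 2) (b := 0) (c := 2) (cn := .pp) (n1 := ndB0q2) (n2 := ndB2q2a) (pc := pcB0) (cut := Cut.none) (xt := Ext.none) (P1 := 0) (W1 := 536870912) (P2 := 0) (W2 := 536870912) (P3 := 780900216) (W3 := 37827925) (N0 := 3) (En := eng) (mo := mog) (C1 := cd0q2) (C2 := cd2q2a) (C3 := pd0)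
    rfl k0_pp_202_a

noncomputable def f_pp_202_b : ℕ → ℕ → ℕ → ℕ → Bool := onCell 0 536870912 1239849684 370763052 780900216 37827925
    (rowB 3 eng mog cd0q2 cd2q2b pd0 0 false true true .pp 2 0 2 (qsf 0 536870912 1239849684 370763052 0) ndB0q2 ndB2q2b pcB0 Cut.none Ext.none)

def k0_pp_202_b : ∃ t, chk3 f_pp_202_b t 1 1 1 = true :=
  ⟨(l 3), by decide +kernel⟩

theorem c_pp_202_b : CertB 0 536870912 1239849684 370763052 780900216 37827925 3 eng mog cd0q2 cd2q2b pd0 false true true .pp 2 0 2
    ndB0q2 ndB2q2b pcB0 Cut.none Ext.none :=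
  certB0 (fam := false) (s1 := true) (s2 := true) (a := 2) (b := 0) (c := 2) (cn := .pp) (n1 := ndB0q2) (n2 := ndB2q2b) (pc := pcB0) (cut := Cut.none) (xt := Ext.none) (P1 := 0) (W1 := 536870912) (P2 := 1239849684) (W2 := 370763052) (P3 := 780900216) (W3 := 37827925) (N0 := 3) (En := eng) (mo := mog) (C1 := cd0q2) (C2 := cd2q2b) (C3 := pd0)
    rfl k0_pp_202_b

noncomputable def f_pp_203 : ℕ → ℕ → ℕ → ℕ → Bool := onCell 0 536870912 0 536870912 780900216 37827925
    (rowB 3 eng mog cd0q2 cd2q3 pd0 1 false true true .up 2 0 3 (qsf 0 536870912 1610612736 536870912 0) ndB0q2 ndB2q3 pcB0 Cut.none Ext.none)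

def k0_pp_203 : ∃ t, chk3 f_pp_203 t 1 1 1 = true :=
  ⟨(l 3), by decide +kernel⟩

theorem c_pp_203 : CertB 0 536870912 1610612736 536870912 780900216 37827925 3 eng mog cd0q2 cd2q3 pd0 false true true .up 2 0 3
    ndB0q2 ndB2q3 pcB0 Cut.none Ext.none :=
  certB1 (fam := false) (s1 := true) (s2 := true) (a := 2) (b := 0) (c := 3) (cn := .up) (n1 := ndB0q2) (n2 := ndB2q3) (pc := pcB0) (cut := Cut.none) (xt := Ext.none) (P1 := 0) (W1 := 536870912) (P2 := 1610612736) (W2 := 536870912) (P3 := 780900216) (W3 := 37827925) (N0 := 3) (En := eng) (mo := mog) (C1 := cd0q2) (C2 := cd2q3) (C3 := pd0)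
    rfl (fun _ => rfl) k0_pp_203

noncomputable def cut_pp_213 : Cut := Cut.of [[⟨0, 1, 0, 67108864⟩, ⟨1, 1, 0, 67108864⟩, ⟨2, 2, 0, 16777216⟩]]

noncomputable def f_pp_213 : ℕ → ℕ → ℕ → ℕ → Bool := onCell 0 536870912 1610612736 536870912 780900216 37827925
    (rowB 3 eng mog cd0q2 cd2q3 pd1 0 false true true .pnn 2 1 3 (qsf 0 536870912 1610612736 536870912 1) ndB0q2 ndB2q3 pcB1 cut_pp_213 Ext.none)

def k0_pp_213 : ∃ t, chk3 f_pp_213 t 1 1 1 = true :=
  ⟨(b (l 3) (a (l 3) (b (l 3) (a (l 3) (b (l 3) (a (l 3) (b (l 3) (b (l 3) (b (l 3) (l 6)))))))))), by decide +kernel⟩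

theorem c_pp_213 : CertB 0 536870912 1610612736 536870912 780900216 37827925 3 eng mog cd0q2 cd2q3 pd1 false true true .pnn 2 1 3
    ndB0q2 ndB2q3 pcB1 cut_pp_213 Ext.none :=
  certB0 (fam := false) (s1 := true) (s2 := true) (a := 2) (b := 1) (c := 3) (cn := .pnn) (n1 := ndB0q2) (n2 := ndB2q3) (pc := pcB1) (cut := cut_pp_213) (xt := Ext.none) (P1 := 0) (W1 := 536870912) (P2 := 1610612736) (W2 := 536870912) (P3 := 780900216) (W3 := 37827925) (N0 := 3) (En := eng) (mo := mog) (C1 := cd0q2) (C2 := cd2q3) (C3 := pd1)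
    rfl k0_pp_213

noncomputable def f_pm_001 : ℕ → ℕ → ℕ → ℕ → Bool := onCell 0 536870912 536870912 536870912 780900216 37827925
    (rowB 3 eng mog cd0q0 cd2q1 pd0 0 false true false .up 0 0 1 (qsf 0 536870912 536870912 536870912 0) ndB0q0 ndB2q1 pcB0 Cut.none Ext.none)

def k0_pm_001 : ∃ t, chk3 f_pm_001 t 1 1 1 = true :=
  ⟨(l 4), by decide +kernel⟩

theorem c_pm_001 : CertB 0 536870912 536870912 536870912 780900216 37827925 3 eng mog cd0q0 cd2q1 pd0 false true false .up 0 0 1
    ndB0q0 ndB2q1 pcB0 Cut.none Ext.none :=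
  certB0 (fam := false) (s1 := true) (s2 := false) (a := 0) (b := 0) (c := 1) (cn := .up) (n1 := ndB0q0) (n2 := ndB2q1) (pc := pcB0) (cut := Cut.none) (xt := Ext.none) (P1 := 0) (W1 := 536870912) (P2 := 536870912) (W2 := 536870912) (P3 := 780900216) (W3 := 37827925) (N0 := 3) (En := eng) (mo := mog) (C1 := cd0q0) (C2 := cd2q1) (C3 := pd0)
    rfl k0_pm_001

noncomputable def f_pm_011 : ℕ → ℕ → ℕ → ℕ → Bool := onCell 0 536870912 536870912 536870912 780900216 37827925
    (rowB 3 eng mog cd0q0 cd2q1 pd1 0 false true false .pnn 0 1 1 (qsf 0 536870912 536870912 536870912 1) ndB0q0 ndB2q1 pcB1 Cut.none Ext.none)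

def k0_pm_011 : ∃ t, chk3 f_pm_011 t 1 1 1 = true :=
  ⟨(l 4), by decide +kernel⟩

theorem c_pm_011 : CertB 0 536870912 536870912 536870912 780900216 37827925 3 eng mog cd0q0 cd2q1 pd1 false true false .pnn 0 1 1
    ndB0q0 ndB2q1 pcB1 Cut.none Ext.none :=
  certB0 (fam := false) (s1 := true) (s2 := false) (a := 0) (b := 1) (c := 1) (cn := .pnn) (n1 := ndB0q0) (n2 := ndB2q1) (pc := pcB1) (cut := Cut.none) (xt := Ext.none) (P1 := 0) (W1 := 536870912) (P2 := 536870912) (W2 := 536870912) (P3 := 780900216) (W3 := 37827925) (N0 := 3) (En := eng) (mo := mog) (C1 := cd0q0) (C2 := cd2q1) (C3 := pd1)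
    rfl k0_pm_011

noncomputable def cut_pm_012_a : Cut := Cut.of [[⟨0, 0, 0, 67108864⟩, ⟨1, 1, 0, 67108864⟩, ⟨2, 1, 0, 67108864⟩]]

noncomputable def f_pm_012_a : ℕ → ℕ → ℕ → ℕ → Bool := onCell 0 536870912 0 536870912 780900216 37827925
    (rowB 3 eng mog cd0q0 cd2q2a pd1 0 false true false .pnp 0 1 2 (qsf 0 536870912 0 536870912 1) ndB0q0 ndB2q2a pcB1 cut_pm_012_a Ext.none)

def k0_pm_012_a : ∃ t, chk3 f_pm_012_a t 2 2 1 = true :=
  ⟨(a (b (l 2) (a (l 2) (a (l 2) (b (l 2) (a (l 2) (b (l 2) (a (l 2) (b (l 16254184) (l 16270272))))))))) (b (a (a (a (l 2) (b (b (l 16214608) (a (l 2) (l 16208808))) (b (a (l 2) (l 16205640)) (a (b (l 16201616) (l 16204376)) (l 16208000))))) (b (a (b (l 16225376) (l 16216736)) (b (l 16236048) (l 16227200))) (a (b (l 16213272) (l 16215160)) (b (l 16223328) (l 16224584))))) (a (b (a (l 16242512) (l 16253368)) (a (b (l 16233416) (l 16234048)) (l 16286072))) (b (a (l 16264824) (l 16276344)) (a (l 16254944) (l 16265696))))) (a (a (b (a (a (l 2) (b (l 16227536) (b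 (l 16216904) (l 16225888)))) (b (a (b (l 16208600) (l 16214288)) (l 16216016)) (a (l 16225880) (l 16229832)))) (a (b (a (b (l 16231920) (l 16244376)) (l 16263504)) (b (l 16260344) (l 16275760))) (b (b (l 16242128) (l 16253640)) (b (l 16266648) (l 16281152))))) (b (a (b (l 16243512) (l 16235528)) (b (l 16231112) (l 16242992))) (b (a (l 16254192) (l 16260280)) (a (l 16278560) (l 16283080))))) (a (b (a (b (l 16239704) (l 16250552)) (b (l 16248936) (l 16259000))) (b (a (l 16266744) (l 16274136)) (a (l 16288352) (l 16294256)))) (b (b (l 16263696) (l 16272200)) (b (l 16285344) (l 16303104))))))), by decide +kernel⟩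

def k1_pm_012_a : ∃ t, chk3 f_pm_012_a t 4 6 1 = true :=
  ⟨(a (l 2) (b (a (l 2) (a (b (a (l 2) (l 16290288)) (b (a (l 2) (l 16322080)) (a (l 16342072) (l 16345008)))) (b (b (l 16286160) (l 16305760)) (b (l 16326616) (l 16348664))))) (a (a (b (l 2) (a (l 2) (b (l 16417856) (l 16450064)))) (b (a (b (l 2) (l 16389744)) (b (l 16364568) (l 16392008))) (b (a (l 16419536) (l 16421088)) (l 16451392)))) (b (a (b (l 16368424) (l 16394864)) (l 16384896)) (a (b (l 16422856) (l 16452376)) (l 16437992)))))), by decide +kernel⟩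

def k2_pm_012_a : ∃ t, chk3 f_pm_012_a t 4 7 1 = true :=
  ⟨(a (b (a (l 2) (b (b (l 2) (a (l 2) (a (l 2) (b (l 16509832) (l 16524832))))) (a (l 6) (a (l 6) (b (l 16547936) (l 16579720)))))) (a (l 6) (a (l 6) (a (l 6) (a (l 6) (b (b (l 16612008) (l 16666880)) (b (l 16680848) (b (l 16692928) (b (l 16692808) (l 16692640)))))))))) (b (a (b (a (b (a (l 16483824) (l 16483920)) (a (l 16516712) (l 16516064))) (b (l 16484016) (l 16515032))) (a (b (a (l 16546656) (l 16545368)) (a (l 16577768) (l 16575816))) (b (l 16543384) (l 16572824)))) (b (a (b (l 16483360) (l 16512856)) (b (l 16481192) (l 16509304))) (a (b (l 16539928) (l 16568192)) (b (l 16535528) (l 16563024))))) (b (a (a (b (a (l 16610024) (l 16607368)) (b (l 16633264) (l 16650000))) (b (b (l 16595520) (l 16611032)) (l 16635080))) (a (b (l 16597792) (l 16628672)) (l 16575000))) (a (b (a (a (l 16677712) (l 16673616)) (b (l 16657304) (l 16656856))) (b (a (a (l 16663800) (l 16673488)) (a (l 16661840) (l 16650360))) (b (a (a (l 16684480) (l 16672832))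 (l 16655288)) (a (a (b (l 16684216) (l 16683968)) (l 16672272)) (a (l 16660496) (l 16648912)))))) (b (a (b (l 16635440) (l 16634768)) (b (l 16615256) (l 16614408))) (b (a (l 16633808) (l 16613280)) (a (b (l 16632904) (a (l 16637680) (l 16626856))) (b (l 16612216) (a (l 16616488) (l 16606472)))))))))), by decide +kernel⟩

def k3_pm_012_a : ∃ t, chk3 f_pm_012_a t 5 3 1 = true :=
  ⟨(b (a (b (a (b (a (b (l 16292736) (l 16311272)) (l 16305968)) (a (b (l 16331016) (l 16351880)) (l 16343184))) (b (a (l 16308592) (l 16311568)) (a (l 16343848) (l 16345168)))) (a (b (a (l 16386176) (l 16385464)) (a (l 16436496) (l 16433568))) (b (a (l 16384256) (l 16383400)) (a (l 16429984) (l 16426224))))) (b (a (b (a (l 16315296) (l 16319264)) (a (l 16346800) (l 16348560))) (b (l 16325376) (l 16351608))) (a (b (l 16382312) (l 16421040)) (b (l 16381408) (l 16414464))))) (a (b (a (b (b (l 16454536) (l 16480952)) (b (l 16463672) (l 16552104))) (b (b (l 16463936) (l 16487408)) (l 16521160))) (b (a (a (l 16597528) (l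 16583072)) (b (l 16556016) (l 16560616))) (a (b (a (l 16607008) (l 16580168)) (b (a (l 16594472) (l 16577728)) (a (a (l 16597280) (l 16588208)) (a (l 16579776) (l 16571856))))) (b (a (l 16565176) (l 16550560)) (a (b (l 16562480) (b (l 16560896) (l 16570232))) (b (l 16547600) (b (l 16545888) (l 16544648)))))))) (b (b (a (a (l 16465688) (l 16459280)) (l 16470424)) (a (l 16502400) (l 16483384))) (b (a (b (l 16532760) (l 16532336)) (b (l 16507800) (l 16504560))) (a (b (a (l 16536112) (l 16521680)) (a (b (l 16532896) (b (l 16531056) (l 16529728))) (b (l 16518208) (l 16536504)))) (b (l 16516056) (b (l 16517424) (a (l 16500792) (l 16486392))))))))), by decide +kernel⟩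

def k4_pm_012_a : ∃ t, chk3 f_pm_012_a t 3 1 1 = true :=
  ⟨(b (a (a (b (a (b (a (l 16287616) (l 16298760)) (a (l 16276192) (l 16286640))) (b (l 16316072) (l 16323808))) (b (a (a (l 16281608) (l 16290552)) (a (l 16299624) (l 16309096))) (a (b (l 16299760) (l 16314480)) (a (l 16317024) (l 16323872))))) (b (a (b (l 16340752) (l 16326016)) (b (l 16366344) (l 16350096))) (a (b (l 16345256) (l 16377080)) (b (l 16345152) (l 16350776))))) (a (a (b (b (l 16390752) (l 16372976)) (b (l 16364824) (l 16365224))) (b (b (l 16413752) (l 16394440)) (b (l 16383096) (l 16378304)))) (b (a (b (l 16435432) (l 16414584)) (b (l 16457064) (l 16434704))) (a (b (l 16400080) (l 16390168)) (b (l 16417056) (l 16402024)))))) (a (b (a (b (a (b (l 16333064) (l 16354960)) (b (l 16340688) (l 16358176))) (a (b (l 16379720) (l 16406880)) (l 16430960))) (b (a (l 16419800) (l 16364864)) (a (l 16406816) (l 16383376)))) (a (b (a (b (l 16435232) (l 16463240)) (b (l 16420848) (l 16442888))) (b (a (l 16480104) (l 16454184)) (b (a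 (l 16494016) (l 16467000)) (a (a (l 16473920) (l 16460144)) (a (l 16446336) (l 16432216)))))) (b (a (b (l 16407880) (l 16423824)) (b (l 16395376) (l 16405024))) (a (b (l 16427136) (a (l 16442528) (l 16428000))) (b (l 16399896) (c (l 16408600) (l 16404224))))))) (b (a (b (a (l 16371648) (l 16377088)) (a (l 16379656) (l 16374632))) (b (a (l 16381392) (l 16385688)) (a (l 16368568) (l 16362440)))) (a (a (b (b (l 16381536) (l 16384872)) (b (l 16373976) (c (l 16360392) (l 16355448)))) (b (l 16365640) (b (l 16349256) (c (l 16334080) (l 16328960))))) (a (b (l 16346600) (b (l 16325264) (c (l 16329176) (l 16303352)))) (b (l 16327384) (b (l 16301416) (b (l 16285944) (l 16274392))))))))), by decide +kernel⟩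

theorem s5_pm_012_a : ∃ t, chk3 f_pm_012_a t 4 3 1 = true := ex3_b k1_pm_012_a k2_pm_012_a

theorem s6_pm_012_a : ∃ t, chk3 f_pm_012_a t 2 3 1 = true := ex3_a s5_pm_012_a k3_pm_012_a

theorem s7_pm_012_a : ∃ t, chk3 f_pm_012_a t 2 1 1 = true := ex3_b k0_pm_012_a s6_pm_012_a

theorem s8_pm_012_a : ∃ t, chk3 f_pm_012_a t 1 1 1 = true := ex3_a s7_pm_012_a k4_pm_012_a

theorem c_pm_012_a : CertB 0 536870912 0 536870912 780900216 37827925 3 eng mog cd0q0 cd2q2a pd1 false true false .pnp 0 1 2
    ndB0q0 ndB2q2a pcB1 cut_pm_012_a Ext.none :=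
  certB0 (fam := false) (s1 := true) (s2 := false) (a := 0) (b := 1) (c := 2) (cn := .pnp) (n1 := ndB0q0) (n2 := ndB2q2a) (pc := pcB1) (cut := cut_pm_012_a) (xt := Ext.none) (P1 := 0) (W1 := 536870912) (P2 := 0) (W2 := 536870912) (P3 := 780900216) (W3 := 37827925) (N0 := 3) (En := eng) (mo := mog) (C1 := cd0q0) (C2 := cd2q2a) (C3 := pd1)
    rfl s8_pm_012_a

noncomputable def cut_pm_012_b : Cut := Cut.of [[⟨0, 0, 0, 67108864⟩, ⟨1, 1, 0, 67108864⟩, ⟨2, 1, 0, 67108864⟩]]

noncomputable def f_pm_012_b : ℕ → ℕ → ℕ → ℕ → Bool := onCell 0 536870912 1239849684 370763052 780900216 37827925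
    (rowB 3 eng mog cd0q0 cd2q2b pd1 0 false true false .pnp 0 1 2 (qsf 0 536870912 1239849684 370763052 1) ndB0q0 ndB2q2b pcB1 cut_pm_012_b Ext.none)

def k0_pm_012_b : ∃ t, chk3 f_pm_012_b t 2 1 1 = true :=
  ⟨(a (l 2) (b (a (b (b (a (a (l 2) (b (b (l 16238832) (l 2)) (l 2))) (b (a (b (a (l 16205592) (l 16211360)) (l 16162376)) (b (l 16219992) (l 16175472))) (a (l 2) (b (l 16130136) (l 16084032))))) (l 2)) (l 2)) (b (b (a (b (a (l 16231144) (l 16222752)) (a (b (l 16144872) (l 16100320)) (l 16138400))) (b (a (l 16235632) (l 16248632)) (a (l 16154192) (l 16169880)))) (a (b (a (l 16032080) (l 16050920)) (l 2)) (b (a (l 16069864) (l 16088576)) (a (l 15982584) (l 16004432))))) (a (l 2) (b (a (l 2) (b (l 15917544) (l 2))) (l 2))))) (l 2))), by decide +kernel⟩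

def k1_pm_012_b : ∃ t, chk3 f_pm_012_b t 6 1 1 = true :=
  ⟨(b (a (b (b (a (b (a (l 16261640) (l 16274464)) (l 16277536)) (b (l 16399040) (l 16225848))) (a (b (l 16116472) (a (l 16026088) (l 16047552))) (b (l 16154480) (l 16080416)))) (b (a (b (a (l 15942304) (l 15966888)) (a (l 15855992) (l 15883640))) (b (a (l 15991520) (l 16016536)) (a (l 15911384) (l 15939424)))) (a (l 2) (b (a (l 29089843639) (l 94588158439)) (a (l 2) (l 16204887783)))))) (b (b (a (c (l 16366240) (l 16363440)) (c (l 16334608) (l 16312256))) (a (b (l 16194512) (l 16126264)) (l 16225504))) (b (a (b (l 16055424) (a (l 15967800) (l 15996752))) (b (l 16107976) (l 16040456))) (a (b (a (l 15891360) (l 15923080)) (a (c (l 15834032) (l 15792336)) (l 15847392))) (b (l 15970768) (c (l 15921296) (l 15878072))))))) (a (l 2) (b (a (b (b (c (a (l 15754600) (l 15792704)) (l 15729128)) (l 2)) (l 2)) (a (b (b (l 116062901847) (l 54322596743)) (l 2)) (b (b (l 15844360) (l 95661740439)) (b (l 42511372967) (l 2))))) (l 2)))), by decide +kernel⟩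

def k2_pm_012_b : ∃ t, chk3 f_pm_012_b t 7 1 1 = true :=
  ⟨(b (a (b (b (a (c (l 16364600) (l 16343688)) (b (l 16405120) (l 16360624))) (a (l 16247024) (l 16287744))) (b (a (c (l 16146528) (l 16111232)) (l 16180856)) (a (c (l 16022160) (l 15979992)) (l 16064320)))) (b (a (b (b (l 16429984) (l 16391152)) (l 16326680)) (b (l 16522368) (l 16365088))) (b (a (l 16231096) (l 16280368)) (a (l 16126016) (l 16186392))))) (a (b (b (a (c (b (l 15923584) (l 15855864)) (a (l 15822080) (l 15859608))) (c (l 15965200) (l 15915352))) (a (a (b (l 78481812487) (l 2)) (c (l 76334287799) (l 15716760))) (c (a (l 15816624) (l 15859576)) (l 15780512)))) (a (l 2) (b (c (b (l 107472747383) (l 81702805735)) (l 100493232887)) (l 2)))) (b (b (a (l 16012832) (l 16084512)) (a (c (l 15923032) (l 15864256)) (l 15975888))) (c (a (b (b (l 15833080) (l 103177860167)) (b (l 99956507991) (l 2))) (b (l 15897024) (b (l 15812504) (l 109620281255)))) (a (b (l 93514094343) (l 96198172519)) (b (l 15828136) (l 114988870535))))))), by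 decide +kernel⟩

theorem s3_pm_012_b : ∃ t, chk3 f_pm_012_b t 3 1 1 = true := ex3_a k1_pm_012_b k2_pm_012_b

theorem s4_pm_012_b : ∃ t, chk3 f_pm_012_b t 1 1 1 = true := ex3_a k0_pm_012_b s3_pm_012_b

theorem c_pm_012_b : CertB 0 536870912 1239849684 370763052 780900216 37827925 3 eng mog cd0q0 cd2q2b pd1 false true false .pnp 0 1 2
    ndB0q0 ndB2q2b pcB1 cut_pm_012_b Ext.none :=
  certB0 (fam := false) (s1 := true) (s2 := false) (a := 0) (b := 1) (c := 2) (cn := .pnp) (n1 := ndB0q0) (n2 := ndB2q2b) (pc := pcB1) (cut := cut_pm_012_b) (xt := Ext.none) (P1 := 0) (W1 := 536870912) (P2 := 1239849684) (W2 := 370763052) (P3 := 780900216) (W3 := 37827925) (N0 := 3) (En := eng) (mo := mog) (C1 := cd0q0) (C2 := cd2q2b) (C3 := pd1)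
    rfl s4_pm_012_b

noncomputable def cut_pm_022_a : Cut := Cut.of [[⟨0, 0, 0, 67108864⟩, ⟨1, 1, 0, 67108864⟩, ⟨2, 1, 0, 67108864⟩]]

noncomputable def f_pm_022_a : ℕ → ℕ → ℕ → ℕ → Bool := onCell 1073741824 536870912 0 536870912 780900216 37827925
    (rowB 3 eng mog cd0q0 cd2q2a pd2 2 false true false .pp 0 2 2 (qsf 0 536870912 0 536870912 2) ndB0q0 ndB2q2a pcB2 cut_pm_022_a Ext.none)

def k0_pm_022_a : ∃ t, chk3 f_pm_022_a t 4 2 1 = true :=
  ⟨(a (b (a (b (a (b (l 16231288) (l 16222800)) (l 16260336)) (a (b (a (l 16209832) (l 16227824)) (a (l 16210608) (l 16228976))) (b (l 16253240) (l 16254936)))) (b (a (l 16290376) (l 16317992)) (a (l 16286064) (l 16315472)))) (a (b (a (b (a (l 16216680) (l 16235304)) (a (l 16249296) (l 16247192))) (b (l 16261760) (l 16274104))) (a (b (a (l 16266984) (l 16265128)) (a (b (l 16263320) (l 16277208)) (l 16289648))) (b (l 16292472) (a (l 16308328) (l 16326408))))) (b (a (b (l 16294656) (l 16307728)) (l 16374376)) (a (b (l 16326736) (l 16352544)) (b (l 16359288)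 (l 16386120)))))) (b (a (b (l 16376944) (a (l 16343000) (l 16369272))) (a (b (l 16391200) (l 16394464)) (b (l 16413280) (l 16418408)))) (a (b (b (l 16431416) (l 16446824)) (b (a (l 16390488) (l 16420560)) (a (l 16418560) (l 16449776)))) (b (a (l 16396624) (b (l 16434256) (l 16452344))) (a (b (l 16449344) (l 16437672)) (b (l 16476680) (l 16507920))))))), by decide +kernel⟩

def k1_pm_022_a : ∃ t, chk3 f_pm_022_a t 4 3 1 = true :=
  ⟨(b (a (b (a (a (b (a (b (l 16292960) (l 16310664)) (l 16321440)) (b (a (l 16330048) (l 16349864)) (a (l 16351136) (l 16371080)))) (b (a (l 16340432) (l 16358864)) (b (l 16378576) (l 16400224)))) (b (a (a (l 16376912) (l 16394600)) (l 16420648)) (a (b (l 16415584) (l 16437920)) (b (l 16451448) (l 16474464))))) (a (a (b (a (b (l 16374440) (l 16400104)) (l 16428576)) (a (b (l 16428376) (l 16459456)) (b (l 16449200) (l 16480712)))) (b (a (l 16427560) (l 16447264)) (a (b (l 16469768) (l 16501672)) (b (l 16490040) (l 16522320))))) (b (a (a (l 16466672) (l 16485776)) (b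 (l 16499864) (l 16569744))) (b (a (l 16561800) (a (l 16548936) (l 16567872))) (a (a (l 16542656) (l 16562648)) (a (l 16582288) (l 16601552))))))) (b (a (b (a (l 16454328) (b (l 16476408) (l 16496936))) (a (b (l 16486064) (l 16509704)) (b (l 16519288) (l 16543504)))) (b (a (l 16517592) (l 329134801895)) (a (b (l 16550968) (l 16519640)) (l 1)))) (a (b (a (a (l 16520136) (l 16558832)) (b (l 16570104) (l 204043991399))) (a (b (l 16595560) (c (l 196527847015) (l 201896572743))) (a (l 633540865367) (l 1)))) (b (a (l 656626255655) (l 1)) (l 1))))) (a (b (a (b (a (a (b (l 16493616) (c (l 16534976) (l 16519616))) (b (l 16515280) (l 16570528))) (b (a (l 16536640) (l 16557680)) (a (l 16571312) (l 16634680)))) (l 6)) (b (a (a (b (l 16599352) (l 16592840)) (b (l 16577752) (l 16634512))) (a (b (l 16618704) (l 16619272)) (b (l 16625736) (a (l 16591664) (l 512208049031))))) (a (l 6) (a (l 6) (a (l 6) (l 1)))))) (a (l 6) (a (l 6) (l 1)))) (b (a (a (b (a (b (l 229277009303) (l 564284571959)) (l 760779290503))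 (l 1)) (l 1)) (l 1)) (l 1)))), by decide +kernel⟩

def k2_pm_022_a : ∃ t, chk3 f_pm_022_a t 5 1 1 = true :=
  ⟨(b (a (b (a (b (l 16381312) (a (l 16441120) (l 16462760))) (a (l 444562106807) (l 1))) (a (a (b (l 16468008) (b (l 16502576) (l 373158179575))) (b (l 408054715991) (l 1))) (l 1))) (l 1)) (b (l 1) (l 1))), by decide +kernel⟩

def k3_pm_022_a : ∃ t, chk3 f_pm_022_a t 3 1 1 = true :=
  ⟨(l 1), by decide +kernel⟩

theorem s4_pm_022_a : ∃ t, chk3 f_pm_022_a t 4 1 1 = true := ex3_b k0_pm_022_a k1_pm_022_a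

theorem s5_pm_022_a : ∃ t, chk3 f_pm_022_a t 2 1 1 = true := ex3_a s4_pm_022_a k2_pm_022_a

theorem s6_pm_022_a : ∃ t, chk3 f_pm_022_a t 1 1 1 = true := ex3_a s5_pm_022_a k3_pm_022_a

theorem c_pm_022_a : CertB 0 536870912 0 536870912 780900216 37827925 3 eng mog cd0q0 cd2q2a pd2 false true false .pp 0 2 2
    ndB0q0 ndB2q2a pcB2 cut_pm_022_a Ext.none :=
  certB2 (fam := false) (s1 := true) (s2 := false) (a := 0) (b := 2) (c := 2) (cn := .pp) (n1 := ndB0q0) (n2 := ndB2q2a) (pc := pcB2) (cut := cut_pm_022_a) (xt := Ext.none) (P1 := 0) (W1 := 536870912) (P2 := 0) (W2 := 536870912) (P3 := 780900216) (W3 := 37827925) (N0 := 3) (En := eng) (mo := mog) (C1 := cd0q0) (C2 := cd2q2a) (C3 := pd2)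
    rfl (fun _ => rfl) s6_pm_022_a

noncomputable def cut_pm_022_b : Cut := Cut.of [[⟨0, 0, 0, 67108864⟩, ⟨1, 1, 0, 67108864⟩, ⟨2, 1, 0, 67108864⟩]]

noncomputable def f_pm_022_b : ℕ → ℕ → ℕ → ℕ → Bool := onCell 0 536870912 1073741824 536870912 780900216 37827925
    (rowB 3 eng mog cd0q0 cd2q2b pd2 1 false true false .pp 0 2 2 (qsf 0 536870912 1239849684 370763052 2) ndB0q0 ndB2q2b pcB2 cut_pm_022_b Ext.none)

def k0_pm_022_b : ∃ t, chk3 f_pm_022_b t 2 2 1 = true :=
  ⟨(b (a (a (b (l 1) (b (a (l 1) (a (l 1) (l 376379154151))) (a (a (l 1) (l 16485752)) (a (l 201359202839) (l 16437608))))) (b (b (a (l 1) (a (l 1) (b (l 1) (l 16320656)))) (a (b (l 1) (a (l 1) (l 16374960))) (b (a (l 16348840) (l 16293248)) (l 16335768)))) (a (b (a (l 16425768) (l 16372472)) (l 16446352)) (b (l 16360328) (l 16206768))))) (a (b (a (b (b (a (l 16289888) (b (l 16237544) (l 16225960))) (a (l 16264040) (l 16209520))) (b (l 16255936) (l 16192208))) (b (b (a (l 16218584) (l 16124688)) (l 16174056)) (c (l 16114768) (l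 16097056)))) (a (b (l 16223496) (l 16120336)) (b (l 16093456) (l 16041280)))) (b (a (b (b (a (l 16075680) (l 16029808)) (l 16038800)) (c (l 16029816) (l 16009216))) (b (c (l 15977352) (l 15947112)) (c (l 15956848) (l 15932640)))) (b (a (l 16015888) (l 15928560)) (a (l 15972504) (l 15914536)))))) (a (b (a (a (b (b (l 56404379703) (l 16507872)) (l 16484632)) (b (a (a (l 16270984) (l 16267040)) (l 16356528)) (l 16286472))) (b (a (l 16329520) (l 16160608)) (a (l 16201504) (l 16124472)))) (a (a (b (l 16428856) (l 16251152)) (b (l 16240920) (l 16197224))) (b (c (l 16355520) (l 16134680)) (l 16098216)))) (b (a (b (a (l 16082512) (l 16012368)) (a (l 16054992) (l 15994072))) (b (a (l 15952256) (l 15902512)) (l 15921328))) (a (b (a (l 16034992) (l 15983600)) (l 15995280)) (b (l 15924608) (l 15930424)))))), by decide +kernel⟩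

def k1_pm_022_b : ∃ t, chk3 f_pm_022_b t 3 2 1 = true :=
  ⟨(b (a (a (b (b (a (c (b (l 15910720) (l 15904224)) (l 15873160)) (c (b (l 15851568) (l 15849176)) (l 15811248))) (a (c (l 15895512) (l 15866880)) (c (l 15846512) (l 15812752)))) (b (a (l 15873160) (l 15829264)) (a (l 15867224) (l 15830944)))) (b (a (b (c (b (l 15806608) (l 15807864)) (l 15762792)) (c (l 15810560) (l 15771248))) (b (c (b (l 15774960) (l 15779440)) (l 15726880)) (c (l 15786888) (l 15741552)))) (a (b (l 15797352) (l 15805792)) (b (l 15776720) (l 15791144))))) (a (a (b (b (c (b (l 15755328) (l 15762792)) (l 15702024)) (c (l 15774640) (l 15722576))) (b (l 15766752) (l 15786752))) (b (b (c (l 15752936) (l 15688312)) (c (l 15773944) (l 15714416))) (b (l 15767592) (l 15792784)))) (b (a (b (c (l 15759128) (l 15686064)) (c (l 15785056) (l 15717392))) (b (c (l 15777744) (l 15695736)) (l 15668201463))) (b (a (l 15779496) (l 2)) (l 2))))) (a (b (a (b (l 16015416) (l 15859160)) (b (l 15852320) (l 15835944))) (a (b (l 15879520)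 (l 15902432)) (l 15889744))) (b (a (b (l 15812360) (l 2)) (l 2)) (l 2)))), by decide +kernel⟩

def k2_pm_022_b : ∃ t, chk3 f_pm_022_b t 1 3 1 = true :=
  ⟨(a (b (a (b (a (b (l 16360984) (l 16105184)) (b (l 16065872) (l 16030368))) (a (b (l 16040960) (l 15979520)) (l 16075512))) (a (b (b (l 15981080) (l 15963760)) (l 15931416)) (b (b (l 15935168) (l 15936808)) (l 15932936)))) (a (b (a (b (l 15921312) (l 15866904)) (l 15878808)) (a (l 674543136711) (l 15799752))) (b (a (l 15874320) (l 2)) (l 2)))) (b (a (a (b (l 15933952) (l 2)) (l 2)) (l 2)) (l 2))), by decide +kernel⟩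

theorem s3_pm_022_b : ∃ t, chk3 f_pm_022_b t 1 2 1 = true := ex3_a k0_pm_022_b k1_pm_022_b

theorem s4_pm_022_b : ∃ t, chk3 f_pm_022_b t 1 1 1 = true := ex3_b s3_pm_022_b k2_pm_022_b

theorem c_pm_022_b : CertB 0 536870912 1239849684 370763052 780900216 37827925 3 eng mog cd0q0 cd2q2b pd2 false true false .pp 0 2 2
    ndB0q0 ndB2q2b pcB2 cut_pm_022_b Ext.none :=
  certB1 (fam := false) (s1 := true) (s2 := false) (a := 0) (b := 2) (c := 2) (cn := .pp) (n1 := ndB0q0) (n2 := ndB2q2b) (pc := pcB2) (cut := cut_pm_022_b) (xt := Ext.none) (P1 := 0) (W1 := 536870912) (P2 := 1239849684) (W2 := 370763052) (P3 := 780900216) (W3 := 37827925) (N0 := 3) (En := eng) (mo := mog) (C1 := cd0q0) (C2 := cd2q2b) (C3 := pd2)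
    rfl (fun _ => rfl) s4_pm_022_b

noncomputable def f_pm_023 : ℕ → ℕ → ℕ → ℕ → Bool := onCell 0 536870912 1073741824 536870912 780900216 37827925
    (rowB 3 eng mog cd0q0 cd2q3 pd2 1 false true false .up 0 2 3 (qsf 0 536870912 1610612736 536870912 2) ndB0q0 ndB2q3 pcB2 Cut.none Ext.none)

def k0_pm_023 : ∃ t, chk3 f_pm_023 t 1 1 1 = true :=
  ⟨(b (a (b (l 1) (a (l 1) (b (l 1) (a (l 1) (l 404295856631))))) (b (a (a (l 1) (b (l 1) (a (l 1) (l 272225469239)))) (a (b (a (l 1) (l 202969028551)) (b (a (l 15789672) (l 15783272)) (l 15805744))) (b (a (b (l 15732272) (l 15759408)) (b (l 15736840) (l 15768080))) (b (a (l 15786448) (l 15799392)) (l 15821104))))) (a (b (a (l 321617955575) (b (l 15838264) (l 15860248))) (a (b (l 15910120) (l 15927280)) (l 15905552))) (b (a (b (l 15825872) (l 15858616)) (l 15956736)) (a (l 15922536) (l 15977768)))))) (a (b (a (b (l 1) (a (l 1) (l 15961168))) (a (b (l 16082680) (l 15936960)) (b (l 15957840) (l 15931272)))) (a (b (a (l 479994533927) (l 15877928)) (a (b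 (l 15812136) (l 4)) (l 15818904))) (b (a (l 15880936) (l 15881104)) (a (l 15842992) (l 15864216))))) (b (a (b (a (l 15946408) (l 15961904)) (a (l 15955784) (l 16004360))) (a (b (l 16006152) (l 16078336)) (b (l 16088208) (l 16185976)))) (a (b (a (l 15948520) (l 16034368)) (l 16014560)) (b (a (l 16154816) (l 16309872)) (a (l 16280552) (l 16411712))))))), by decide +kernel⟩

theorem c_pm_023 : CertB 0 536870912 1610612736 536870912 780900216 37827925 3 eng mog cd0q0 cd2q3 pd2 false true false .up 0 2 3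
    ndB0q0 ndB2q3 pcB2 Cut.none Ext.none :=
  certB1 (fam := false) (s1 := true) (s2 := false) (a := 0) (b := 2) (c := 3) (cn := .up) (n1 := ndB0q0) (n2 := ndB2q3) (pc := pcB2) (cut := Cut.none) (xt := Ext.none) (P1 := 0) (W1 := 536870912) (P2 := 1610612736) (W2 := 536870912) (P3 := 780900216) (W3 := 37827925) (N0 := 3) (En := eng) (mo := mog) (C1 := cd0q0) (C2 := cd2q3) (C3 := pd2)
    rfl (fun _ => rfl) k0_pm_023

noncomputable def f_pm_033 : ℕ → ℕ → ℕ → ℕ → Bool := onCell 1610612736 536870912 1610612736 536870912 780900216 37827925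
    (rowB 3 eng mog cd0q0 cd2q3 pd3 2 false true false .pnn 0 3 3 (qsf 0 536870912 1610612736 536870912 3) ndB0q0 ndB2q3 pcB3 Cut.none Ext.none)

def k0_pm_033 : ∃ t, chk3 f_pm_033 t 1 1 1 = true :=
  ⟨(a (b (a (b (l 4) (a (b (l 419529639143) (l 15849344)) (l 4))) (l 4)) (a (b (a (b (l 15965608) (l 16163784)) (b (l 15913640) (l 16112328))) (a (b (l 16328944) (l 16438008)) (b (l 16269584) (l 16403888)))) (b (l 4) (a (b (l 16218544) (l 16309072)) (l 4))))) (l 4)), by decide +kernel⟩

theorem c_pm_033 : CertB 0 536870912 1610612736 536870912 780900216 37827925 3 eng mog cd0q0 cd2q3 pd3 false true false .pnn 0 3 3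
    ndB0q0 ndB2q3 pcB3 Cut.none Ext.none :=
  certB2 (fam := false) (s1 := true) (s2 := false) (a := 0) (b := 3) (c := 3) (cn := .pnn) (n1 := ndB0q0) (n2 := ndB2q3) (pc := pcB3) (cut := Cut.none) (xt := Ext.none) (P1 := 0) (W1 := 536870912) (P2 := 1610612736) (W2 := 536870912) (P3 := 780900216) (W3 := 37827925) (N0 := 3) (En := eng) (mo := mog) (C1 := cd0q0) (C2 := cd2q3) (C3 := pd3)
    rfl (fun _ => rfl) k0_pm_033

noncomputable def f_pm_101 : ℕ → ℕ → ℕ → ℕ → Bool := onCell 0 536870912 536870912 536870912 780900216 37827925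
    (rowB 3 eng mog cd0q1 cd2q1 pd0 2 false true false .npn 1 0 1 (qsf 536870912 536870912 536870912 536870912 0) ndB0q1 ndB2q1 pcB0 Cut.none Ext.none)

def k0_pm_101 : ∃ t, chk3 f_pm_101 t 1 1 1 = true :=
  ⟨(a (b (l 4) (a (b (a (b (l 4) (a (b (l 4) (l 15795088)) (l 4))) (l 4)) (a (b (a (b (b (l 15730464) (l 15708832)) (a (l 15708912) (l 15692392))) (b (b (l 4) (l 15705552)) (a (l 15678552) (l 15663336)))) (b (a (a (b (l 15721240) (l 15741616)) (l 15892288)) (b (l 15660416) (l 15663896))) (a (b (a (l 15900552) (l 15730376)) (a (b (l 15793304) (l 15807944)) (l 15879184))) (b (a (l 15690800) (l 15653824)) (a (l 15709312) (l 15663160)))))) (b (b (l 4) (a (b (l 15669440) (l 15632312)) (l 15735256))) (b (a (l 15611072) (b (l 15577040) (l 15550464))) (a (b (l 15600592) (l 15663720)) (l 15553568)))))) (b (l 4) (b (l 4) (a (a (b (b (l 15566240) (l 15511464)) (l 15466080)) (b (l 4) (b (l 15470896) (l 15468424)))) (a (b (l 4) (l 15495544)) (l 4))))))) (l 4)), by decide +kernel⟩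

theorem c_pm_101 : CertB 536870912 536870912 536870912 536870912 780900216 37827925 3 eng mog cd0q1 cd2q1 pd0 false true false .npn 1 0 1
    ndB0q1 ndB2q1 pcB0 Cut.none Ext.none :=
  certB2 (fam := false) (s1 := true) (s2 := false) (a := 1) (b := 0) (c := 1) (cn := .npn) (n1 := ndB0q1) (n2 := ndB2q1) (pc := pcB0) (cut := Cut.none) (xt := Ext.none) (P1 := 536870912) (W1 := 536870912) (P2 := 536870912) (W2 := 536870912) (P3 := 780900216) (W3 := 37827925) (N0 := 3) (En := eng) (mo := mog) (C1 := cd0q1) (C2 := cd2q1) (C3 := pd0)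
    rfl (fun _ => rfl) k0_pm_101

noncomputable def cut_pm_102_a : Cut := Cut.of [[⟨0, 1, 0, 67108864⟩, ⟨1, 0, 0, 67108864⟩, ⟨2, 1, 0, 67108864⟩], [⟨0, 0, 1, 26214400⟩, ⟨1, 1, 2, 26214400⟩, ⟨2, 1, 0, 33554432⟩]]

noncomputable def xt_pm_102_a : Ext := extD2 3 ⟨4, 1, 1, 5, 5, 2, 24, 25, 43, 100, 1, 8⟩ eng cd0q1 cd2q2a pd0 false true false .npp 1 0 2 rfl ndB0q1 ndB2q2a pcB0

noncomputable def f_pm_102_a : ℕ → ℕ → ℕ → ℕ → Bool := onCell 536870912 536870912 0 536870912 780900216 37827925
    (rowB 3 eng mog cd0q1 cd2q2a pd0 0 false true false .npp 1 0 2 (qsf 536870912 536870912 0 536870912 0) ndB0q1 ndB2q2a pcB0 cut_pm_102_a xt_pm_102_a)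

def k0_pm_102_a : ∃ t, chk3 f_pm_102_a t 2 2 1 = true :=
  ⟨(a (b (l 2) (a (l 2) (b (l 2) (l 16484240)))) (a (b (a (l 16602024) (l 16623888)) (b (a (l 16550184) (l 16569728)) (l 16547992))) (b (a (b (l 16664688) (l 16634808)) (b (a (l 16684608) (b (l 16702528) (l 16690264))) (l 16663744))) (b (a (l 16597568) (l 16630312)) (a (l 16539968) (l 16574608)))))), by decide +kernel⟩

def k1_pm_102_a : ∃ t, chk3 f_pm_102_a t 4 3 1 = true :=
  ⟨(b (a (l 2) (b (l 16423408) (l 16451024))) (a (b (a (l 2) (b (l 16325408) (l 16300768))) (b (a (l 16289296) (l 16276384)) (a (b (l 16269744) (a (l 16259976) (l 16251704))) (a (l 16252128) (l 16247360))))) (b (a (l 16369936) (l 16393760)) (b (a (l 16270808) (l 16276744)) (a (b (l 16251760) (a (l 16238248) (l 16239576))) (b (l 16260304) (a (b (l 16247888) (l 16242056)) (b (l 16257672) (a (l 16249608) (c (l 16272552) (l 16240192))))))))))), by decide +kernel⟩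

def k2_pm_102_a : ∃ t, chk3 f_pm_102_a t 5 6 1 = true :=
  ⟨(a (b (l 16522648) (a (l 16379840) (l 16401608))) (b (a (l 16471936) (b (l 16508808) (l 16495088))) (a (l 16432992) (l 16475888)))), by decide +kernel⟩

def k3_pm_102_a : ∃ t, chk3 f_pm_102_a t 10 7 1 = true :=
  ⟨(b (a (b (l 16335088) (l 16315456)) (b (l 16362328) (l 16348456))) (b (a (l 16340776) (b (l 16341848) (l 16339136))) (a (b (a (l 16278832) (l 16298192)) (b (a (l 16273048) (l 139880589852016687)) (c (a (b (l 139424773548933167) (l 139402645918662703)) (a (l 139622754399371311) (l 139783558005440559))) (a (l 16251552) (l 139242873062129711))))) (a (b (l 16344464) (b (c (l 140064483273932847) (l 16301488)) (b (c (l 140059466755997743) (l 139572383010471983)) (c (a (l 139959892261371951) (c (l 140288096547029039) (l 140033009755439151))) (l 139549361984749615))))) (b (l 140957355457118255) (b (c (l 140472196008427567) (l 139975422810931247)) (c (a (b (l 140373720984469551) (c (a (l 140457146450460719) (l 140576718363852847))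 (l 140249269990817839))) (b (l 140609360116678703) (c (a (l 140702062714519599) (l 140833385703866415)) (l 140487589182930991)))) (a (l 139847260969910319) (l 140063452484517935))))))))), by decide +kernel⟩

def k4_pm_102_a : ∃ t, chk3 f_pm_102_a t 11 14 1 = true :=
  ⟨(a (b (l 16402832) (l 16398240)) (b (l 16459848) (a (l 16449472) (l 16491336)))), by decide +kernel⟩

def k5_pm_102_a : ∃ t, chk3 f_pm_102_a t 22 15 1 = true :=
  ⟨(b (a (l 16385680) (l 16465824)) (b (a (b (l 16392256) (l 140848091574026287)) (a (l 141025937646256175) (b (l 16450976) (b (l 16478200) (a (l 141806797113884719) (l 16467512)))))) (a (b (a (l 140568059694301231) (l 141723783903756335)) (b (a (c (l 140867745400537135) (l 140300672161382447)) (c (l 141150388664827951) (l 140557408175931439))) (c (a (c (a (l 140970893361528879) (l 141114860694323247)) (l 140749547880054831)) (a (c (l 141445538846801967) (l 140962647019798575)) (b (l 141257041317609519) (a (l 141600638700306479) (a (b (l 141293874966331439) (c (l 141643450981679151)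 (l 141147090134040623))) (b (c (l 141669839264940079) (l 141175127685021743)) (c (a (b (l 141490000395288623) (l 141494673321345071)) (l 141508073621831727)) (l 141361769786523695)))))))) (a (l 140303008628424751) (a (l 140500783320743983) (b (l 140636229434572847) (a (l 140608879079899183) (a (l 140662755160211503) (b (l 140695534356545583) (l 140696633869795375)))))))))) (b (a (a (l 141028686437269551) (c (b (l 141442309052235823) (a (l 141446019909091375) (l 141510341352898607))) (b (l 16416744) (a (l 140848229054365743) (l 140905678549008431))))) (b (a (c (l 141574937670074415) (l 16428808)) (l 141393724371370031)) (c (l 141658019540189231) (l 141036932778000431)))) (b (c (a (a (a (l 141700488114307119) (b (l 141404582059474991) (l 141600157696000047))) (l 141502850933407791)) (a (l 141622629007114287) (l 141748110798553135))) (a (a (a (l 140729275620900911) (a (l 140779097251577903) (l 140808646632751151))) (l 140874479905603631)) (l 141396747963777071))) (c (b (a (a (a (a (b (l 141349469031923759)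 (l 141539340949372975)) (b (l 141384653411303471) (l 141390150971949103))) (l 141431039068733487)) (l 141519755932270639)) (a (l 141823221167996975) (c (l 14) (l 141604968102002735)))) (a (a (a (c (b (l 141538516355235887) (l 141545182147248175)) (l 141222819012689967)) (c (l 141602081885536303) (l 141279856190636079))) (c (b (l 141691073626357807) (a (l 141667571561578543) (l 141911182120206383))) (b (l 141365549395836975) (l 141370153603153967)))) (a (c (c (l 14) (a (l 141708803255828527) (l 141774155492163631))) (a (l 141459076624400431) (l 141521748800585775))) (c (l 14) (b (l 141615276027707439) (a (l 141589506219769903) (l 141655751809450031))))))) (a (a (a (b (a (l 140723503187345455) (l 140753121287995439)) (l 140736697332580399)) (l 140790367253938223)) (b (l 140870769057546287) (l 141049164821807151))) (c (b (l 141206669930905647) (a (l 141151831779606575) (l 141453441588936751))) (a (l 140810570785931311) (l 140923614349410351)))))))))), by decide +kernel⟩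

def k6_pm_102_a : ∃ t, chk3 f_pm_102_a t 23 15 1 = true :=
  ⟨(b (a (b (l 16463088) (b (l 16472912) (l 16480056))) (b (l 16509712) (l 16546048))) (b (a (a (b (l 16476000) (l 141544426209165359)) (b (l 16499896) (l 141962378118217775))) (a (b (l 16525512) (l 142404244409942063)) (b (l 16553440) (a (l 142256566299901999) (l 142407405583433775))))) (b (b (a (a (l 141568340599504943) (l 142001548235210799)) (a (l 142280205772816431) (l 142586900862468143))) (c (a (a (l 141910838549397551) (l 142189083770044463)) (l 14)) (a (a (l 141262538868834351) (l 141511990622797871)) (a (l 141787418344095791) (l 142091227214872623))))) (a (b (a (c (a (l 141879846063603759) (l 142017972241285167)) (a (l 141210243341271087) (l 141333938425839663))) (c (l 14) (a (l 141463955703513135) (l 141600638771740719)))) (a (b (c (c (l 14) (a (l 141737184403423279) (l 141876066495414319))) (a (l 141217115294597167) (l 141344796109537327))) (c (a (c (l 14) (c (l 14) (a (l 141632112303931439) (l 141700350758830127)))) (l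 14)) (a (c (b (l 141398466033516591) (l 141583527586791471)) (l 141043461143904303)) (c (b (l 141531988005158959) (a (l 141503813015093295) (l 141573013542813743))) (l 141170042446938159))))) (c (l 14) (a (b (l 141659119024603183) (b (a (l 141452479554469935) (l 141702481025613871)) (c (c (l 14) (l 141766939909373999)) (l 141305144967495727)))) (b (c (l 141806110053859375) (l 141432963217801263)) (c (b (l 141819647795560495) (l 14)) (a (l 141407468289261615) (l 141659393906098223)))))))) (c (l 14) (b (a (a (l 141744262508478511) (l 141895170511192111)) (a (l 142053706377330735) (l 14))) (c (l 14) (a (a (b (l 141577205429862447) (b (l 141587101038575663) (c (l 14) (l 141495429239128111)))) (b (l 141728731907915823) (a (c (l 14) (l 141606205058187311)) (l 14)))) (l 14))))))))), by decide +kernel⟩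

def k7_pm_102_a : ∃ t, chk3 f_pm_102_a t 12 2 1 = true :=
  ⟨(b (a (b (a (b (l 16712320) (l 16702096)) (b (l 16720480) (l 16710688))) (a (l 16685056) (b (l 16702664) (l 16692376)))) (b (a (b (c (l 16726304) (l 16723296)) (l 16718096)) (b (c (a (l 16726184) (l 16724744)) (l 16724360)) (c (l 16721928) (l 16719032)))) (a (b (l 16710232) (l 16704368)) (b (l 16715960) (a (l 16709040) (l 16712224)))))) (a (b (l 16665752) (l 16619232)) (b (a (l 16690224) (b (l 16706496) (l 16698464))) (l 16646696)))), by decide +kernel⟩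

def k8_pm_102_a : ∃ t, chk3 f_pm_102_a t 26 4 1 = true :=
  ⟨(b (a (b (b (a (c (a (l 16723448) (l 89825083079)) (l 82308901287)) (l 3)) (a (a (l 16722272) (l 16721272)) (a (a (l 76940183399) (l 88214467671)) (l 95193784119)))) (a (c (l 16720264) (l 16718536)) (a (l 16718272) (b (l 51170378887) (l 16716664))))) (b (l 3) (b (b (a (a (l 97341271143) (l 3)) (l 3)) (a (a (l 58686569655) (l 101099359799)) (l 3))) (a (a (l 16715648) (b (c (l 67813373047) (l 73182090183)) (l 16714328))) (c (a (b (l 119889855783) (l 74255821175)) (l 125258560327)) (a (b (l 111836791479) (l 79087666999)) (l 118279237671))))))) (b (a (a (l 16716424) (l 16715528)) (c (a (l 16714808) (b (a (l 16713152) (b (a (l 66202760631) (l 103783721127)) (l 16711912))) (l 16712480))) (a (l 16712944) (b (a (l 16712160) (b (a (l 16711592) (l 106468080087)) (l 16711072))) (l 16710920))))) (a (l 16713576) (a (l 16712760) (a (l 16711832) (l 16711120)))))), by decide +kernel⟩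

def k9_pm_102_a : ∃ t, chk3 f_pm_102_a t 27 8 1 = true :=
  ⟨(l 3), by decide +kernel⟩

def k10_pm_102_a : ∃ t, chk3 f_pm_102_a t 54 9 1 = true :=
  ⟨(b (a (c (b (a (b (l 3) (a (b (l 101636239127) (l 16711024)) (l 117742366919))) (l 3)) (a (b (a (l 16711072) (l 60834050439)) (l 16710864)) (b (a (b (l 117205495399) (l 73182080055)) (l 127406040679)) (a (l 16710072) (c (l 76403303095) (l 87677595031)))))) (b (a (b (l 3) (a (l 85530114135) (l 113984270167))) (l 3)) (a (b (l 76403308167) (l 16709640)) (b (a (l 93583175383) (l 122037330183)) (a (l 16709104) (l 86603853255)))))) (b (l 3) (a (b (l 3) (a (b (c (l 130627265687) (l 131164135143)) (c (a (l 77477046311) (l 110763033303)) (l 106468076055))) (l 3))) (l 3)))) (a (b (a (l 16710304) (c (l 16710072) (l 16708680))) (l 16709976)) (b (a (b (a (c (b (l 59760305639) (l 16709264)) (l 16708240)) (b (c (a (l 94656905671) (l 124721685431)) (l 111836784103)) (c (c (l 16708160) (l 16708608)) (l 16707856)))) (c (l 16709200) (l 16707992))) (b (a (c (c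 (l 125258555127) (l 121500458407)) (l 119889844279)) (l 3)) (a (c (b (c (l 80161398519) (l 92509431351)) (l 16708568)) (l 88214464311)) (b (c (a (l 119889841239) (l 3)) (l 122037327767)) (c (c (a (l 16708296) (l 102709975895)) (l 102709978087)) (l 97878139863)))))) (a (l 16708904) (b (c (a (l 16708800) (l 16708368)) (l 16707400)) (l 16708288)))))), by decide +kernel⟩

def k11_pm_102_a : ∃ t, chk3 f_pm_102_a t 55 9 1 = true :=
  ⟨(b (l 3) (a (b (a (b (l 3) (c (c (l 135459099111) (l 130627260487)) (l 133311613559))) (l 3)) (a (b (a (b (c (a (c (l 85530107207) (l 97341268791)) (b (l 3) (l 105931194151))) (l 108078686455)) (c (c (l 16708136) (l 16707848)) (l 16707024))) (b (l 3) (c (a (b (l 111299903399) (l 91435678903)) (l 126869161783)) (l 114521136791)))) (c (a (l 16708312) (b (c (l 78013913175) (l 16707616)) (l 16708016))) (a (l 16707096) (l 89825076199)))) (b (l 3) (a (b (c (c (l 124721683351) (l 119889844679)) (l 120963587143)) (c (a (l 16707728) (c (l 100025618823) (l 105931202535))) (l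 98951881031))) (a (c (c (l 132774746071) (l 127406036471)) (l 126332293143)) (l 3)))))) (l 3))), by decide +kernel⟩

def k12_pm_102_a : ∃ t, chk3 f_pm_102_a t 13 5 1 = true :=
  ⟨(a (b (a (b (a (l 16709440) (l 16711536)) (l 16708408)) (b (a (l 16711808) (l 16711320)) (a (l 16709944) (l 16711288)))) (b (a (l 16701472) (b (l 16710304) (l 16708808))) (l 16697608))) (b (a (b (a (l 16710432) (b (l 16708984) (l 16709568))) (a (l 16711200) (l 16710728))) (b (a (b (c (a (l 16708776) (b (a (l 16707976) (b (a (c (l 16707672) (l 16707400)) (b (l 120963580135) (l 98415001415))) (l 16707736))) (l 16708288))) (a (l 16707232) (b (a (l 16706824) (b (a (l 16706608) (l 113984265799)) (l 16706688))) (l 16706952)))) (l 16704000)) (b (a (b (a (b (c (l 139754067415) (l 133848485591)) (c (a (c (l 98951875815) (l 103783718903)) (b (l 3) (l 113984258615))) (a (l 102173106103) (l 124184812519)))) (l 3)) (a (c (b (l 73182073287) (l 16707920)) (l 16706720)) (b (c (a (b (l 120426710007) (l 95730647095)) (l 140290939207))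 (a (l 114521136823) (l 134385359383))) (c (a (l 16707680) (l 92509423655)) (l 95730655591))))) (b (l 3) (a (b (l 3) (c (a (l 119889838231) (l 3)) (l 127942906551))) (l 3)))) (c (a (l 16707192) (b (a (b (a (l 16707664) (l 112373645575)) (l 16707888)) (b (l 145122777079) (a (l 93583164503) (l 120963578967)))) (a (l 16708352) (l 16708080)))) (a (l 16706504) (b (a (b (l 101099357447) (l 16706872)) (b (l 136532840775) (a (l 16706752) (l 125795425975)))) (l 16707112)))))) (a (b (l 16709504) (l 16710536)) (b (a (l 16708936) (l 16708568)) (l 16709936))))) (b (a (a (l 16710952) (l 16712192)) (a (l 16712224) (l 16711992))) (a (b (l 16712344) (l 16711176)) (b (l 16713760) (l 16734856)))))), by decide +kernel⟩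

def k13_pm_102_a : ∃ t, chk3 f_pm_102_a t 7 2 1 = true :=
  ⟨(a (b (l 3) (a (b (a (b (a (b (l 3) (a (b (a (c (l 151565226439) (l 144049031959)) (l 3)) (a (b (c (a (l 106468064999) (l 146196520087)) (a (l 108078686535) (l 137069714599))) (c (l 16704024) (l 16707056))) (b (l 3) (c (l 145659654615) (a (l 122574195895) (l 146196518199)))))) (l 3))) (l 3)) (a (b (a (b (a (l 16708016) (b (c (l 101636225751) (l 100025619127)) (l 16707992))) (l 16708520)) (b (a (b (c (l 153712712791) (l 140827809383)) (c (l 110763029623) (a (l 16707384) (l 121500451223)))) (b (l 3) (l 157470797799))) (a (c (l 16708672) (l 16707768)) (b (c (l 114521125303) (l 116131737751)) (l 84993229847))))) (c (l 16709920) (l 16706048))) (b (a (b (l 3) (a (b (l 3) (c (l 132237865799) (l 127406027399))) (l 3))) (l 3)) (a (b (a (c (l 98415000439) (l 74255819303)) (b (l 135459088967) (l 108615546455))) (l 16703960)) (b (a (l 165523872263) (l 3)) (a (b (l 116668609591) (l 16709136)) (b (l 3) (l 138143447751)))))))) (l 3)) (a (b (a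 (l 16701112) (b (a (l 16710336) (b (a (l 16709696) (l 95730648295)) (l 16710392))) (l 16711800))) (a (l 16714736) (l 16714496))) (b (a (b (a (b (a (b (l 144585899735) (l 111836775047)) (l 175187550567)) (a (l 16710160) (l 113447386231))) (b (l 3) (a (l 171966327479) (l 3)))) (a (l 16711336) (b (a (l 16710640) (l 142975287383)) (l 16711432)))) (b (l 3) (a (b (l 186461840263) (a (l 115058004439) (l 153712708247))) (l 3)))) (a (b (l 16712960) (l 16714856)) (b (a (b (l 16711992) (l 16712936)) (b (l 183777490791) (l 109689292375))) (l 16714224)))))) (b (l 3) (a (b (l 3) (a (b (a (l 196662389527) (l 3)) (a (b (l 120426706295) (l 16714232)) (b (l 207936681591) (l 127942896695)))) (l 3))) (l 3))))) (l 3)), by decide +kernel⟩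

def k14_pm_102_a : ∃ t, chk3 f_pm_102_a t 6 6 1 = true :=
  ⟨(a (b (a (b (l 16552704) (l 16542232)) (b (l 16609976) (a (l 16582032) (l 16609240)))) (a (a (l 16516856) (l 16548128)) (b (l 16611760) (l 16586976)))) (b (a (b (l 16676280) (l 16643112)) (a (b (l 16706664) (l 16685880)) (b (a (l 16713864) (l 16737720)) (l 16710080)))) (a (b (l 16654088) (a (l 16620160) (l 16639296))) (b (a (l 16662680) (l 16682216)) (a (b (l 16657840) (l 16654864)) (l 16674192)))))), by decide +kernel⟩

def k15_pm_102_a : ∃ t, chk3 f_pm_102_a t 12 14 1 = true :=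
  ⟨(a (b (b (l 16531776) (l 16537712)) (b (l 16550440) (l 16564488))) (b (a (l 16576720) (l 16599504)) (a (l 16594088) (l 16615352)))), by decide +kernel⟩

def k16_pm_102_a : ∃ t, chk3 f_pm_102_a t 24 30 1 = true :=
  ⟨(a (b (l 16558376) (c (l 16588160) (l 16550024))) (b (l 16588480) (c (l 16588416) (l 16593800)))), by decide +kernel⟩

def k17_pm_102_a : ∃ t, chk3 f_pm_102_a t 24 62 1 = true :=
  ⟨(c (a (b (l 16578504) (a (l 16581088) (l 16591064))) (b (l 16598616) (a (l 16600680) (l 142828862250991727)))) (a (b (l 16566376) (a (l 16562856) (l 14))) (b (l 16603120) (a (l 16583280) (l 16593176))))), by decide +kernel⟩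

def k18_pm_102_a : ∃ t, chk3 f_pm_102_a t 24 126 1 = true :=
  ⟨(c (a (a (b (l 142555221247737967) (l 142579685389729903)) (b (l 142662767248572527) (l 142731830330507375))) (a (a (l 142751965147398255) (b (l 16634400) (l 142993376681836655))) (b (a (l 16633616) (l 16638000)) (a (l 143042304958169199) (l 143090065003217135))))) (a (l 14) (a (b (l 142563398867615855) (l 142670532538515567)) (a (l 142651016218296431) (l 142702418396364911))))), by decide +kernel⟩

def k19_pm_102_a : ∃ t, chk3 f_pm_102_a t 48 127 1 = true :=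
  ⟨(b (c (a (a (l 142575905821851823) (l 142700631681712239)) (a (a (l 142670051521577071) (l 142696371085803631)) (b (l 142909676346556527) (a (l 142908301958545519) (l 142934071766843503))))) (l 14)) (a (b (c (a (c (l 142651634701811887) (l 14)) (a (l 142634386109841519) (l 142661186710405231))) (l 14)) (c (c (a (c (c (a (a (l 14) (l 142881295203975343)) (b (l 142897787880718511) (l 142904522391584943))) (a (l 14) (a (l 14) (l 142878890021634223)))) (l 14)) (a (b (l 142881157764137071) (c (b (l 142914692875501679) (a (l 142911325621076079) (l 142924451043360879))) (l 14))) (b (l 142907408608772207) (a (c (l 142935858478202991) (l 142878340265902255)) (c (l 142948777742024815) (l 142891534407696559)))))) (l 14)) (l 14))) (b (c (a (a (l 142687712433029231) (l 142713894558204015)) (c (a (l 142975372181586031) (l 143000660953399407)) (l 142697333161230447))) (l 14)) (c (a (b (a (c (l 142933453294911599) (l 14)) (c (l 142959223103111279) (l 142845767226949807))) (a (c (c (a (l 142961697005846639)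 (l 142974478830714991)) (b (l 142909676352405615) (a (l 142906102939500655) (l 142919159642292335)))) (l 14)) (c (c (a (l 142987260655550575) (l 142999905041432687)) (b (l 142935583599558767) (a (l 142932078906130543) (l 142944998169952367)))) (c (a (l 142873392462413999) (l 142886517884698799)) (l 14))))) (c (a (b (l 142984718033354863) (a (c (l 143012549427298415) (l 142956336885317743)) (c (l 143025125093687407) (l 142969118710153327)))) (b (l 143009938085625967) (a (c (l 143037563321090159) (l 142981831815512175)) (a (l 142929123983425647) (l 143025399971397743))))) (b (a (l 142872155510538351) (l 142898200196694127)) (a (c (b (l 142904659829424239) (a (l 142900880258039919) (l 142913868241354863))) (l 14)) (a (b (l 142895657576317039) (c (l 142926787505176687) (l 14))) (b (l 142908645559631983) (c (l 142939638049505391) (l 142882738312855727)))))))) (l 14))))), by decide +kernel⟩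

def k20_pm_102_a : ∃ t, chk3 f_pm_102_a t 98 127 1 = true :=
  ⟨(b (a (c (b (l 142960734926831727) (a (l 142959497977692271) (l 142984718030078063))) (l 142659262546034863)) (c (b (l 143010625275822191) (a (l 143009663204507759) (l 143034333500981359))) (c (l 142676923470397551) (l 14)))) (a (c (b (a (c (l 143025674847256687) (l 142916067262365807)) (c (l 143050413863157871) (l 142941699631628399))) (c (a (b (l 143034883259957359) (b (l 143039487466307695) (a (l 143036326370263151) (l 143048695878172783)))) (b (l 143059553556332655) (c (l 143093088667713775) (b (l 143036738686566511) (l 143039693624983663))))) (a (b (l 142924038724370543) (a (b (l 142921496103977071) (c (l 142952419874357359) (b (l 142895107820666991) (l 142896413491167343)))) (c (l 142963758589722735) (b (l 142906171657961583) (l 142908714279485551))))) (b (l 142949602374107247) (c (a (l 142976402975604847) (l 142989047361470575)) (b (l 142925481834217583) (a (l 142921564823814255) (l 142934346648666223)))))))) (a (l 14)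 (b (l 142594185208807599) (c (b (l 142837246010196143) (b (l 142660362078339247) (a (l 14) (c (l 142877721790087343) (l 14))))) (l 14))))) (b (c (c (l 143087247509045487) (a (l 142966988403458159) (l 142992071016792175))) (c (l 142689980175876207) (l 14))) (c (b (c (a (l 143084017694228719) (l 143108206954168559)) (a (l 142974891145871471) (l 142999905039695983))) (a (c (l 143090133729476847) (c (a (l 143001554308366447) (l 143013992535769199)) (b (l 142950976764428399) (a (l 142947059754025071) (l 142959772859383919))))) (c (l 143114322989383919) (a (c (l 143026430763171951) (l 142971111574765679)) (c (l 143038731551588463) (l 142983687241138287)))))) (c (c (a (b (l 142891465686663279) (c (a (l 142903697756504175) (l 142916479581372527)) (l 14))) (b (l 142917166775369839) (b (l 142920534030942319) (a (l 142871330885320815) (l 142929123967434863))))) (l 14)) (l 14)))))), by decide +kernel⟩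

def k21_pm_102_a : ∃ t, chk3 f_pm_102_a t 99 127 1 = true :=
  ⟨(b (a (b (c (l 143059484832481391) (l 142850715025326191)) (c (a (l 143058728919498863) (l 143082849460076655)) (l 142678572739182703))) (c (b (l 143107313596809455) (l 143118858472210671)) (a (l 142713001202303087) (l 142738358693707887)))) (a (b (c (c (l 143135144992604399) (a (l 143016810032709743) (l 143041342890164335))) (a (l 142718292597522543) (l 142721591136878703))) (c (c (b (l 143144215966122223) (a (l 143138237371334895) (l 143161876875346159))) (a (b (l 143024644055564399) (c (l 143057217093976303) (a (l 142996125468557423) (l 143008563695960175)))) (b (l 143049176912953455) (b (l 143053025204879471) (a (l 142959429277335663) (l 143061683860783215)))))) (c (a (b (l 142914899032244335) (c (b (l 142945891522199663) (a (l 142941768353300591) (l 142954412739166319))) (b (l 142890091297570927) (c (a (l 142899712026378351) (l 142912493851213935)) (l 14))))) (b (l 142940256523518063) (c (b (l 142971042854961263) (a (l 142966988405538927)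 (l 142979495352434799))) (b (l 142915654947274863) (a (b (l 142910707144425583) (l 142911737936953455)) (b (l 142923420249784431) (l 142924451042312303))))))) (l 14)))) (c (b (a (l 143118171278622959) (l 143141742063223023)) (c (a (l 143182355282542831) (l 143205582469611759)) (a (b (l 143073434892386543) (b (l 143077283184279791) (l 143079894525198575))) (b (l 143097417993879791) (l 143102640675668207))))) (a (b (l 142724614798295151) (b (c (l 142965339136819311) (l 142674861890011247)) (c (c (a (l 142990834067832943) (l 143003203575742575)) (b (l 142940943719039087) (a (l 142936614391660655) (l 142949190058033263)))) (c (b (l 142885418372464751) (c (a (l 142894764223266991) (l 142907477328642159)) (l 14))) (l 14))))) (b (l 142749903570124911) (c (b (l 142990146872180847) (c (a (l 143015504364175471) (l 143027736433115247)) (b (l 142966026332307567) (a (l 142961697004929135) (l 142974135232331887))))) (c (b (l 142908233242050671) (b (l 142910844583215215) (b (a (l 142905759341363311) (l 142918403727245423))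 (a (l 142861641437659247) (l 142919297080787055))))) (l 14)))))))), by decide +kernel⟩

def k22_pm_102_a : ∃ t, chk3 f_pm_102_a t 25 30 1 = true :=
  ⟨(b (a (l 16610440) (l 16609072)) (a (a (l 16595888) (l 16605784)) (b (l 16637552) (a (l 16638312) (l 16646728))))), by decide +kernel⟩

def k23_pm_102_a : ∃ t, chk3 f_pm_102_a t 25 62 1 = true :=
  ⟨(a (a (b (l 16625760) (a (l 142809071038546031) (l 142856281328386159))) (b (l 16635048) (b (l 16639144) (a (l 16639728) (l 16643904))))) (c (a (b (l 16650696) (a (l 16664912) (l 16659712))) (b (l 16660456) (l 16668976))) (b (a (l 16636280) (l 16646400)) (a (a (b (l 16637760) (l 16640552)) (l 16665664)) (l 16654056))))), by decide +kernel⟩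

def k24_pm_102_a : ∃ t, chk3 f_pm_102_a t 25 126 1 = true :=
  ⟨(a (a (c (b (a (l 16642296) (l 16646512)) (a (l 143136794255950063) (l 143182492716368111))) (b (l 142769282458321007) (b (l 142781377090388079) (l 142789554710937711)))) (b (a (c (l 16650632) (l 16634416)) (c (b (l 16653816) (l 16655304)) (l 142930086056050927))) (a (c (a (l 143225648553853167) (l 143269491584008431)) (l 142876897177616495)) (a (c (b (l 16655656) (l 143319725527613743)) (b (l 16639416) (a (l 143102640665329903) (l 143122775474995439)))) (b (c (l 16658288) (l 16642136)) (c (l 143366248620032303) (l 143153699244933359))))))) (a (b (a (b (l 16650848) (c (l 16660968) (l 16645096))) (b (l 16657456) (l 16659760))) (b (c (a (l 16663416) (l 16670120)) (l 143062920829239535)) (c (a (l 143435930180108591) (l 143526914781020463)) (l 143074190828028143)))) (b (a (l 16659832) (l 16671272)) (c (a (l 143608072493629743) (l 16683912)) (b (l 143214584740888815) (l 143226198336979183)))))), by decide +kernel⟩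

def k25_pm_102_a : ∃ t, chk3 f_pm_102_a t 100 254 1 = true :=
  ⟨(b (c (a (l 143154042849345775) (l 143199672590074095)) (a (l 142952076271616111) (l 143001141986803823))) (c (a (l 143165587724599535) (l 143211286184673519)) (a (a (l 142947265908818031) (l 142972073644294255)) (a (l 142996606501814383) (l 143020864481394799))))), by decide +kernel⟩

def k26_pm_102_a : ∃ t, chk3 f_pm_102_a t 100 255 1 = true :=
  ⟨(c (b (a (a (l 143165106689343727) (l 143188265157001455)) (a (l 143211080027226351) (l 143233688738988271))) (b (a (a (l 143173559187341551) (l 143196648935457007)) (a (l 143219532525109487) (a (l 143236437519270127) (c (l 143298353778753839) (l 143196786374279407))))) (a (c (a (l 143231489717010671) (l 143254167148167407)) (a (l 143126348899172591) (l 143149919683674351))) (a (c (l 143276638420844783) (l 143173146870743279)) (a (c (l 143293199817523503) (l 143190395462320367)) (c (l 143305225728524591) (b (l 143201115702673647) (l 143204345519243503)))))))) (b (a (c (a (l 143008426255057007)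 (l 143032752954048623)) (l 142734029368492143)) (a (c (l 143056873494561007) (l 142951320360386671)) (c (l 143080719157117167) (l 142975990656827503)))) (a (c (a (b (l 143014748449079407) (c (l 143046084536516847) (b (l 142990765348159599) (a (l 142986504740257903) (l 142998874248167535))))) (b (l 143039075148005487) (c (l 143070205076947183) (a (l 143010144244088943) (l 143022376313012335))))) (b (b (l 142737946380304495) (a (l 142906858852581487) (l 142932078904868975))) (a (c (b (l 142936064635469935) (a (b (l 142931048113111151) (l 142931941466652783)) (l 142944036096508015))) (a (l 14) (b (l 142887136359907439) (a (l 142885418373103727) (l 142891740566044783))))) (c (b (l 142961009809784943) (a (l 142956474323927151) (l 142968912551329903))) (b (l 142906171658223727) (a (a (l 142898131478462575) (l 142904453671403631)) (a (l 142910707144851567) (l 142917029337792623)))))))) (a (c (b (l 143063195688468719) (a (l 143061340262940911) (l 143073366173401327))) (b (l 142911188187889775) (c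 (b (l 142985748825636975) (a (l 142981282059239535) (l 142993582847656047))) (b (l 142931322991001711) (a (b (l 142926100310163567) (l 142926856224718959)) (b (l 142938607257059439) (l 142939363171614831))))))) (a (b (c (l 143080994035990767) (l 142974616268095599)) (c (l 143085254644891887) (b (l 142977090170191983) (b (l 142978258401755247) (b (c (l 143005952355614831) (l 142951595240505455)) (a (l 142886105583321199) (a (l 142980801023033455) (a (l 142983068766158959) (c (l 143011793512235119) (l 142957367677649007)))))))))) (b (c (l 143093019946549487) (a (l 142983824679551087) (b (l 142989116080013423) (l 142946028968886383)))) (c (a (b (l 143093157385961711) (l 143095768727060719)) (l 143101472444874991)) (a (a (b (l 142984718033404015) (c (b (l 143013030462849135) (l 143014198694445167)) (b (l 142958879506186351) (c (l 142973516757467247) (l 142946235120697455))))) (b (c (l 143014817169326191) (l 142960872371126383)) (l 142990215593214063))) (b (l 142993307969929327) (c (l 143022857350627567)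 (l 142968775113441391))))))))))), by decide +kernel⟩

def k27_pm_102_a : ∃ t, chk3 f_pm_102_a t 101 254 1 = true :=
  ⟨(b (a (a (c (l 143243034585858287) (l 143043748068802671)) (c (a (l 143275813779161327) (l 143298353769939183)) (a (l 143072404093714543) (l 143092126586077295)))) (c (a (l 143333675586011439) (l 143380954593263919)) (a (l 143123256514134255) (l 143164831804866799)))) (a (a (c (a (l 143243584343605487) (l 143265643297636591)) (a (l 143041892644438127) (b (l 143059141234540655) (l 143063195685044335)))) (c (a (b (l 143285022191534319) (l 143291825421992175)) (l 143312303828451567)) (a (b (l 143078795007262831) (l 143083811531112559)) (l 143102434511847535)))) (c (c (l 143425072507633967) (l 143318626020868399)) (c (l 143210186669277423) (l 143099823172337903))))), by decide +kernel⟩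

def k28_pm_102_a : ∃ t, chk3 f_pm_102_a t 101 255 1 = true :=
  ⟨(a (b (a (c (a (b (l 143252105560899823) (c (l 143308524261933359) (l 143207506613420271))) (b (l 143275057868734703) (l 143282204696838383))) (a (c (a (l 143096799517245679) (l 143107107440034031)) (b (l 142995232112869487) (a (l 142993995163025519) (l 143003890769117295)))) (b (c (l 143120439019733231) (l 143014817166458991)) (l 143005608767619183)))) (c (c (l 143366729666330927) (l 143262825799909615)) (c (l 143156722910232815) (l 143048558436270191)))) (c (a (a (c (b (l 143315808528810287) (l 143323642551927087)) (b (a (l 143207918931558639) (l 143219807402918127)) (l 143220906916266223))) (c (l 143344945592123695) (l 143241316603347183))) (c (l 143382603871011119) (c (l 143303576459395375) (l 143250181417042159)))) (a (a (c (b (a (l 143104152503877871) (l 143115422499946735)) (l 143082093555319023)) (a (b (b (l 142996950101770351) (l 142999424004079727)) (c (l 143030210335949039) (b (l 142974959867084911) (c (l 142990971508605039)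 (l 142963758591328367))))) (b (l 143008769854242927) (c (l 143041068015206639) (l 142986710900146287))))) (c (l 143135419871822063) (b (l 143024781495205999) (c (l 143057285814599919) (a (l 142997224982003823) (l 143007670344384623)))))) (c (c (l 143196167899414767) (l 143141673345433839)) (c (b (l 143083948974817519) (l 143089377815920879)) (b (l 143028629787148399) (c (l 143047527647854831) (a (l 143009250892939375) (l 143029729300775023))))))))) (a (b (c (l 143363293691101487) (c (l 143200772102275311) (l 143089858849243375))) (c (c (l 143432356779557167) (l 143323848707981615)) (c (c (l 143241041725145327) (l 143185172781646063)) (c (b (l 143126005302018287) (l 143131502862598383)) (a (c (l 143075908796154095) (l 143047458928312559)) (b (l 143079344770269423) (l 143084361294414063))))))) (b (c (l 143410847576260911) (c (l 143244065379909871) (l 143130403347824879))) (c (c (l 143481422493172015) (l 143370165642559791)) (c (c (l 143285159636484335) (l 143227847583973615)) (c (b (l 143167236995350767)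 (l 143172803275391215)) (b (l 143109169028612335) (a (l 143104358665797871) (l 143124081159209199))))))))), by decide +kernel⟩

def k29_pm_102_a : ∃ t, chk3 f_pm_102_a t 51 127 1 = true :=
  ⟨(a (b (a (c (c (l 143513789363618095) (l 143402395074707759)) (c (l 143289007920972015) (l 143173902780301551))) (c (c (l 143608072499314991) (l 143490630896517423)) (c (l 143371127709385007) (l 143249975254794479)))) (b (a (c (c (l 143537772469125423) (l 143423835559215407)) (c (c (l 143336905408004399) (l 143278356405059823)) (c (l 143219326365761775) (l 143159884009603311)))) (c (c (l 143632399202140463) (l 143512346258866479)) (c (l 143390094292287791) (c (l 143297185546584303) (l 143234719533449455))))) (c (a (c (c (l 143582577577885999) (l 143525334244917551)) (c (l 143467472436642095) (l 143408992153059631))) (c (c (l 143678922297770351) (l 143618655307858223)) (c (l 143557701123162415) (l 143496197182619951)))) (b (c (a (c (l 143346732296978735) (l 143287427379675375)) (l 143399715022733615))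 (a (c (l 143227710145511663) (l 143167443155517679)) (c (l 143305706765254895) (l 143242484837761263)))) (c (a (c (l 143353329369284911) (a (l 143272858849591535) (l 143314159262073071))) (c (l 143437510741885231) (l 143374701131219247))) (b (a (c (l 143231902035394799) (l 143171291447967983)) (c (l 143309967374598383) (l 143246333130195183))) (a (a (c (l 143214722163917039) (a (l 143144903164805359) (l 143164282060767471))) (c (l 143254579467387119) (l 143192938087776495))) (a (a (l 143252586603200751) (l 143271553182138607)) (a (l 143290313602613487) (l 143308936584102127)))))))))) (b (a (c (c (l 143700294050120047) (l 143576461536051503)) (c (l 143450636157108527) (l 143323092791181551))) (c (c (l 143790522735526255) (l 143660093151756591)) (c (l 143527533264126255) (l 143393392828465455)))) (c (a (c (l 143733210690208111) (c (l 143637965482344751) (l 143573712762831151))) (c (l 143823782972916079) (c (l 143723589962776943) (l 143656038708412719)))) (a (c (c (l 143508910287470895) (l 143443626775773487))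 (a (c (l 143359445404729647) (l 143294093173506287)) (c (l 143396279050649903) (l 143329346271461615)))) (c (c (l 143587868978708783) (l 143519218212651311)) (c (l 143450223849193775) (l 143380748449349935))))))), by decide +kernel⟩

def k30_pm_102_a : ∃ t, chk3 f_pm_102_a t 13 14 1 = true :=
  ⟨(a (b (a (l 16598472) (l 16616720)) (a (b (l 16628856) (l 16637416)) (a (l 16624872) (l 16634056)))) (b (a (l 16635088) (b (l 16671672) (l 16675656))) (a (l 16647832) (l 16666128)))), by decide +kernel⟩

def k31_pm_102_a : ∃ t, chk3 f_pm_102_a t 26 15 1 = true :=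
  ⟨(b (a (b (l 16626392) (a (b (l 16650304) (l 16657184)) (l 16664648))) (b (l 16666288) (a (l 16675008) (l 16684672)))) (b (a (a (c (l 16676448) (l 16683072)) (b (l 16676176) (l 16684448))) (a (b (l 16686352) (l 16694480)) (b (l 16695824) (l 16703800)))) (a (b (c (a (b (l 16687816) (l 143640370678055279)) (b (l 16698624) (l 16703328))) (a (a (l 143315602387943727) (l 143383634681528623)) (a (l 16682680) (l 16687864)))) (a (c (a (b (c (l 143878827275043183) (l 143741457024188783)) (c (l 143912431109734767) (l 143771624884535663))) (b (c (l 16704368) (l 143820828031254895)) (c (l 143999292539634031) (l 143851270769426799)))) (a (b (c (l 143602025188933935) (l 143460944086122799)) (c (c (l 143664422487720303) (l 143592335747825967)) (c (l 143519767971578159) (l 143446925317390639)))) (b (c (l 143674111931498863) (l 143525884003139887)) (c (l 143700843817386351) (c (l 143586838192275759) (l 143510353405804847)))))) (c (c (a (l 144067256107696495) (l 144150544123838831)) (b (a (l 16701496) (l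 16706592)) (a (l 143928992508461423) (l 144004790101655919)))) (c (a (b (l 143743999650316655) (l 143771075133489519)) (b (l 16698368) (l 143839107425829231))) (a (b (l 143588281299009839) (c (l 143651434511286639) (l 143571238873088303))) (c (l 143701531015823727) (l 143618517879226735))))))) (b (a (c (l 16710792) (b (l 16693152) (l 16697256))) (c (l 16719880) (l 16704392))) (c (a (a (b (l 16715536) (l 144029529131745647)) (a (l 144025405965287791) (l 144153292916113775))) (c (a (l 16731096) (l 144289632381616495)) (a (b (l 16720592) (l 144222355993362799)) (l 144095499843191151)))) (c (a (b (l 143909407456084335) (a (l 143905146852884847) (l 143969262134133103))) (b (l 16714624) (a (l 144032003025518959) (a (l 144078457398460783) (l 144107250863194479))))) (a (a (c (l 143761385690038639) (l 143674386823790959)) (c (l 143819178779492719) (l 143728056744657263))) (b (a (l 16704152) (l 16708568)) (a (l 143839794631524719) (b (l 143886523882488175) (a (l 143885836689703279) (l 143910094668972399)))))))))))),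 by decide +kernel⟩

def k32_pm_102_a : ∃ t, chk3 f_pm_102_a t 27 15 1 = true :=
  ⟨(b (a (b (l 16685256) (l 16719344)) (b (l 16702776) (b (l 16711392) (l 16717072)))) (b (a (a (b (l 16704888) (l 16712696)) (b (l 16713432) (l 16720336))) (b (a (l 16720192) (l 16725376)) (l 16728624))) (a (b (a (c (l 16728104) (b (l 16711112) (l 16714768))) (l 16727056)) (b (b (a (a (c (l 16731816) (l 16715824)) (l 16727056)) (l 16731336)) (a (a (c (l 16733840) (l 143846460440101231)) (l 16728840)) (l 16712128))) (c (a (a (l 16736736) (l 16739464)) (l 16743336)) (a (a (c (l 144146146092138863) (l 143938407096893807)) (c (l 16727584) (l 143981494215672175))) (c (l 144089040222372207) (a (l 144023481822593391) (l 16725856))))))) (b (a (l 16732456) (l 16737424)) (a (c (l 16746280) (b (l 16730520) (a (l 16732544) (l 16735304)))) (c (l 16750688) (a (l 16736272) (l 16738832)))))))), by decide +kernel⟩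

def k33_pm_102_a : ∃ t, chk3 f_pm_102_a t 14 6 1 = true :=
  ⟨(a (b (a (b (b (l 16716968) (a (l 16717832) (l 16718528))) (b (a (l 16718328) (l 16720216)) (l 16719584))) (b (a (l 16717864) (l 16717392)) (a (b (l 16720576) (l 16722944)) (b (l 16720752) (l 16723008))))) (a (b (l 16713008) (l 16690960)) (b (a (l 16723920) (b (l 16725824) (l 16726928))) (l 16708760)))) (b (a (b (a (b (a (l 16715792) (l 16705000)) (l 16717832)) (a (b (b (l 174650665015) (l 16715584)) (l 16717456)) (b (l 219210973559) (b (l 16700480) (l 16717856))))) (a (b (l 16720360) (l 16723216)) (b (c (l 16717432) (l 16721328)) (l 16722864)))) (b (a (b (l 3) (b (l 163913270343) (a (c (l 16715424) (l 16696192)) (l 3)))) (l 3)) (a (b (b (c (a (l 16717552) (l 65129001783)) (l 72645183559)) (a (l 16720616) (l 67813353831))) (a (l 16722856) (l 16702168))) (b (a (b (l 3) (l 67276483415)) (l 3)) (a (c (l 55465346471) (l 79087644535)) (b (l 3) (l 89825062871))))))) (a (b (a (b (l 16725664) (l 16728872)) (b (l 16725944) (l 16728528)))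 (a (l 16729040) (b (l 16690032) (l 16731512)))) (b (a (b (l 16726080) (l 16729216)) (b (a (l 16726672) (b (l 16704024) (l 16727952))) (l 16719200))) (a (b (l 16709896) (l 16711600)) (b (l 16731552) (a (l 16731584) (l 16732552)))))))), by decide +kernel⟩

def k34_pm_102_a : ∃ t, chk3 f_pm_102_a t 15 6 1 = true :=
  ⟨(a (b (l 3) (a (b (a (b (a (b (l 145659640119) (l 86603843847)) (b (l 3) (l 3))) (a (l 16709648) (b (a (l 82845756679) (l 145659652999)) (l 72645211767)))) (b (l 3) (a (b (l 3) (a (l 138143463639) (l 3))) (l 3)))) (a (b (a (l 16732360) (l 16733240)) (l 16733432)) (b (b (a (a (l 16712800) (b (l 139754086247) (l 16713384))) (a (l 174650706279) (l 3))) (a (l 16734512) (c (l 127406074007) (a (l 83919518103) (l 168745149335))))) (a (l 16734736) (b (c (l 16734200) (l 71571495063)) (l 16735672)))))) (b (l 3) (a (b (l 3) (a (b (a (b (l 146733424103) (l 122574237655)) (l 3)) (a (l 16736456) (b (l 134922274375) (l 16728928)))) (b (l 3) (a (b (l 3) (l 151565273735)) (l 3))))) (l 3))))) (l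 3)), by decide +kernel⟩

def k35_pm_102_a : ∃ t, chk3 f_pm_102_a t 14 7 1 = true :=
  ⟨(b (a (b (a (b (l 16688112) (l 16670096)) (b (l 16702264) (l 16704216))) (a (b (l 16700448) (l 16707576)) (b (l 16690048) (l 16717328)))) (b (a (b (l 16693256) (l 16711280)) (b (a (l 16729512) (b (l 16732016) (l 16731792))) (l 16702152))) (a (b (l 16715360) (b (l 16698976) (l 16703784))) (b (l 16722256) (a (l 16725064) (l 16729320)))))) (b (a (a (b (l 16715776) (l 16724512)) (b (l 16723416) (l 16731672))) (a (b (l 16728696) (l 16736552)) (b (a (b (l 16731600) (l 16734440)) (b (l 16733560) (l 16738568))) (l 16741696)))) (a (b (a (b (l 16732120) (l 16737768)) (b (l 16739000) (l 16744440))) (a (b (a (l 16741960) (l 16745840)) (a (c (l 16754664) (b (l 16740800) (l 16744072))) (c (l 16757992) (b (l 16745032) (l 16748240))))) (b (a (l 16749016) (l 16751600)) (a (c (l 16760624) (b (l 16748536) (l 16751672))) (c (l 16762680) (b (l 16751432) (l 16754496))))))) (b (a (a (l 16745328) (l 16747216)) (b (l 16748304) (l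 16774192))) (a (a (b (l 16753688) (c (l 16764240) (l 16755288))) (b (l 16755368) (c (l 16765400) (b (l 16755768) (l 16758672))))) (b (a (l 16757336) (l 16759992)) (a (c (l 16766816) (b (l 16758008) (l 16760824))) (c (l 16768880) (b (l 16760944) (l 16763664)))))))))), by decide +kernel⟩

def k36_pm_102_a : ∃ t, chk3 f_pm_102_a t 60 14 1 = true :=
  ⟨(b (a (b (a (l 16711032) (l 16733464)) (b (a (l 16733176) (l 16733320)) (l 16736000))) (b (a (l 16734296) (l 16735176)) (a (b (l 16734624) (l 16736800)) (l 16736744)))) (a (b (l 16734424) (l 16733544)) (b (b (a (l 16740000) (l 16740104)) (l 16742480)) (l 16738888)))), by decide +kernel⟩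

def k37_pm_102_a : ∃ t, chk3 f_pm_102_a t 61 14 1 = true :=
  ⟨(b (a (b (a (b (c (l 16735080) (l 16737704)) (l 16735744)) (b (b (a (c (l 16740544) (l 63518457639)) (l 182703798567)) (a (l 16731584) (c (l 144585974263) (a (l 16733232) (l 160155218375))))) (c (a (l 16735208) (b (l 16735464) (l 16735272))) (a (l 16737592) (b (a (l 16738216) (l 16738344)) (l 16737744)))))) (a (b (l 16736256) (l 16738608)) (b (b (l 16736288) (l 16737384)) (l 16739120)))) (b (a (b (l 3) (a (a (b (c (l 149954679751) (l 156397138327)) (l 16736624)) (b (l 3) (b (l 159081492791) (l 16741784)))) (b (l 3) (l 169818911447)))) (l 3)) (a (b (a (b (l 16741912) (l 16737736)) (a (b (b (c (l 134385423175) (l 135996041175)) (l 16737064)) (l 16737896)) (b (b (l 3) (l 154249653191)) (b (l 106468142919) (l 16738264))))) (a (l 16739440) (b (l 16739056) (l 16740184)))) (b (a (a (b (l 3) (b (l 163376448903) (c (l 131164199959) (l 133311689127)))) (l 3)) (l 3)) (a (a (b (l 16744416) (l 16740296)) (b (b (c (l 147807198839) (l 149954687831))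 (c (l 16738272) (l 103783791255))) (l 16740352))) (a (b (b (l 3) (l 160692108471)) (b (a (l 16745336) (l 146733464599)) (l 16740680))) (b (l 3) (b (l 3) (c (l 145122848071) (c (l 145659720871) (l 142438499383))))))))))) (b (a (a (b (l 16740968) (l 16722240)) (b (l 16741488) (l 16743952))) (a (b (a (l 16741792) (l 16741944)) (l 16744328)) (b (a (b (l 16741464) (l 16742640)) (a (b (l 16741536) (l 16742696)) (b (b (c (l 16742696) (l 102710052743)) (l 16741848)) (l 16742712)))) (a (l 16744480) (b (l 16743896) (l 16745144)))))) (a (b (a (l 16746184) (b (l 16745504) (l 16747368))) (l 16748504)) (b (a (l 16746936) (a (l 16747096) (l 16747128))) (a (a (l 16749928) (l 16749560)) (l 16749768)))))), by decide +kernel⟩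

def k38_pm_102_a : ∃ t, chk3 f_pm_102_a t 62 28 1 = true :=
  ⟨(l 3), by decide +kernel⟩

def k39_pm_102_a : ∃ t, chk3 f_pm_102_a t 124 58 1 = true :=
  ⟨(a (b (a (b (c (a (b (l 157470873703) (c (l 115058076503) (l 115594949927))) (l 173040128999)) (a (b (l 158007754887) (a (l 16743152) (l 135459178999))) (l 173577015383))) (c (a (l 16741624) (b (a (l 117205563607) (l 159081489111)) (l 97878212087))) (a (l 16743968) (a (b (l 122037407543) (l 16744272)) (b (l 160155235879) (l 107541893687)))))) (a (a (b (l 3) (b (l 3) (c (l 149417818663) (l 147270340711)))) (l 3)) (l 3))) (a (b (c (l 16742880) (l 16747696)) (l 16745144)) (a (a (b (b (l 95193863527) (l 16744192)) (l 16745120)) (b (b (b (l 158007759639) (l 117205571095)) (l 16744176)) (l 16745112))) (a (b (b (l 168745175031) (c (l 116668696103) (b (l 137606666215) (l 16745552)))) (c (l 16744048) (l 16746272))) (b (b (l 3) (c (l 155323396343) (b (l 3) (l 154249664279)))) (b (c (l 102710053207) (b (l 113447476023) (l 16746136))) (l 16745392)))))))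 (b (l 3) (a (b (l 3) (a (a (b (b (l 164450215527) (a (l 113447477127) (l 154249666087))) (c (l 16744296) (l 16746576))) (b (l 3) (c (b (l 148344080695) (l 16747000)) (b (l 151565311479) (l 112373735959))))) (b (l 3) (c (l 166597686839) (c (l 167671432039) (l 168208305527)))))) (l 3)))), by decide +kernel⟩

def k40_pm_102_a : ∃ t, chk3 f_pm_102_a t 124 59 1 = true :=
  ⟨(a (b (a (b (l 16746440) (l 16747800)) (b (c (l 16745448) (l 16747456)) (l 16747744))) (a (l 16749960) (l 16760384))) (b (a (a (b (c (l 16745320) (b (l 16747168) (l 16747776))) (l 16747672)) (a (b (b (b (a (l 111299994967) (l 151028442455)) (l 16748744)) (l 16746616)) (l 16747632)) (b (b (b (l 3) (a (a (l 124184897079) (l 148880958839)) (l 167134573319))) (c (l 101636314727) (b (l 111836866679) (l 16747920)))) (c (l 16746624) (l 16748704))))) (b (a (a (b (l 3) (c (b (l 159081497495) (l 126332376759)) (b (l 160155243847) (c (l 126869249879) (l 128479865351))))) (l 3)) (l 3)) (c (a (a (b (l 16746200) (l 16746936)) (b (b (l 142975375399)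 (l 16747600)) (l 16746872))) (a (b (l 160692111383) (b (l 123648024151) (l 16746992))) (b (l 3) (b (l 3) (l 142438506455))))) (a (a (b (l 16748376) (l 16749008)) (b (b (c (l 144049119159) (l 142438509239)) (l 109152513783)) (l 16749000))) (a (b (b (l 3) (l 158007762039)) (a (l 97878225271) (b (l 144585994151) (l 16749136)))) (b (l 3) (a (b (l 3) (l 131164222119)) (l 165523955399)))))))) (a (b (l 16749056) (l 16750528)) (a (b (c (l 16748032) (l 16749984)) (l 16750416)) (a (b (c (l 16747936) (l 16749960)) (l 16750352)) (b (b (c (l 98951964087) (b (l 106468160919) (l 16749768))) (l 16749200)) (l 16750304))))))), by decide +kernel⟩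

def k41_pm_102_a : ∃ t, chk3 f_pm_102_a t 125 29 1 = true :=
  ⟨(b (l 3) (a (b (l 3) (a (b (c (a (a (b (b (l 154249663223) (l 121500542487)) (l 16748184)) (b (l 170355789975) (b (l 140827895719) (l 16748280)))) (b (l 3) (b (l 3) (l 159618376263)))) (a (a (b (b (l 155860285511) (a (l 16749744) (l 142975383143))) (l 16750248)) (b (l 171966406999) (b (a (l 129016740183) (l 159618378087)) (l 104320678999)))) (a (a (b (l 3) (b (l 3) (l 154249673399))) (l 3)) (l 3)))) (a (b (a (l 16749888) (l 16752456)) (l 16750608)) (a (b (b (a (l 97878228823) (b (l 162839608279) (l 6))) (l 6)) (l 6)) (l 6)))) (b (l 3) (l 6)))) (l 3))), by decide +kernel⟩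

def k42_pm_102_a : ∃ t, chk3 f_pm_102_a t 63 14 1 = true :=
  ⟨(l 3), by decide +kernel⟩

def k43_pm_102_a : ∃ t, chk3 f_pm_102_a t 15 15 1 = true :=
  ⟨(a (b (a (b (a (b (l 16737824) (l 16740800)) (l 16743312)) (b (a (l 16725080) (l 16727504)) (a (l 16749112) (l 16732680)))) (a (b (b (l 16746160) (l 16748672)) (b (l 16752304) (a (l 16734864) (l 16735736)))) (b (a (l 16730536) (b (b (l 16731008) (l 16754104)) (l 16755672))) (b (l 16755120) (l 16738048))))) (a (b (a (l 16755672) (l 16759184)) (b (a (l 16763064) (l 16766264)) (a (c (l 16781800) (b (l 16764288) (l 16766896))) (l 6)))) (b (b (a (b (l 16759720) (l 16761520)) (l 6)) (l 6)) (l 6)))) (b (a (a (b (a (b (a (l 16752784) (l 16752984)) (a (l 16735760) (b (l 16755224) (l 6)))) (b (b (a (l 16752064) (l 16751904)) (l 16758840)) (l 6))) (l 6)) (l 6)) (l 6)) (l 6))), by decide +kernel⟩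

theorem s44_pm_102_a : ∃ t, chk3 f_pm_102_a t 124 29 1 = true := ex3_b k39_pm_102_a k40_pm_102_a

theorem s45_pm_102_a : ∃ t, chk3 f_pm_102_a t 62 29 1 = true := ex3_a s44_pm_102_a k41_pm_102_a

theorem s46_pm_102_a : ∃ t, chk3 f_pm_102_a t 62 14 1 = true := ex3_b k38_pm_102_a s45_pm_102_a

theorem s47_pm_102_a : ∃ t, chk3 f_pm_102_a t 31 14 1 = true := ex3_a s46_pm_102_a k42_pm_102_a

theorem s48_pm_102_a : ∃ t, chk3 f_pm_102_a t 30 14 1 = true := ex3_a k36_pm_102_a k37_pm_102_a

theorem s49_pm_102_a : ∃ t, chk3 f_pm_102_a t 15 14 1 = true := ex3_a s48_pm_102_a s47_pm_102_a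

theorem s50_pm_102_a : ∃ t, chk3 f_pm_102_a t 15 7 1 = true := ex3_b s49_pm_102_a k43_pm_102_a

theorem s51_pm_102_a : ∃ t, chk3 f_pm_102_a t 7 7 1 = true := ex3_a k35_pm_102_a s50_pm_102_a

theorem s52_pm_102_a : ∃ t, chk3 f_pm_102_a t 7 6 1 = true := ex3_a k33_pm_102_a k34_pm_102_a

theorem s53_pm_102_a : ∃ t, chk3 f_pm_102_a t 7 3 1 = true := ex3_b s52_pm_102_a s51_pm_102_a

theorem s54_pm_102_a : ∃ t, chk3 f_pm_102_a t 13 15 1 = true := ex3_a k31_pm_102_a k32_pm_102_a

theorem s55_pm_102_a : ∃ t, chk3 f_pm_102_a t 13 7 1 = true := ex3_b k30_pm_102_a s54_pm_102_a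

theorem s56_pm_102_a : ∃ t, chk3 f_pm_102_a t 101 127 1 = true := ex3_b k27_pm_102_a k28_pm_102_a

theorem s57_pm_102_a : ∃ t, chk3 f_pm_102_a t 100 127 1 = true := ex3_b k25_pm_102_a k26_pm_102_a

theorem s58_pm_102_a : ∃ t, chk3 f_pm_102_a t 50 127 1 = true := ex3_a s57_pm_102_a s56_pm_102_a

theorem s59_pm_102_a : ∃ t, chk3 f_pm_102_a t 25 127 1 = true := ex3_a s58_pm_102_a k29_pm_102_a

theorem s60_pm_102_a : ∃ t, chk3 f_pm_102_a t 25 63 1 = true := ex3_b k24_pm_102_a s59_pm_102_a

theorem s61_pm_102_a : ∃ t, chk3 f_pm_102_a t 25 31 1 = true := ex3_b k23_pm_102_a s60_pm_102_a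

theorem s62_pm_102_a : ∃ t, chk3 f_pm_102_a t 25 15 1 = true := ex3_b k22_pm_102_a s61_pm_102_a

theorem s63_pm_102_a : ∃ t, chk3 f_pm_102_a t 49 127 1 = true := ex3_a k20_pm_102_a k21_pm_102_a

theorem s64_pm_102_a : ∃ t, chk3 f_pm_102_a t 24 127 1 = true := ex3_a k19_pm_102_a s63_pm_102_a

theorem s65_pm_102_a : ∃ t, chk3 f_pm_102_a t 24 63 1 = true := ex3_b k18_pm_102_a s64_pm_102_a

theorem s66_pm_102_a : ∃ t, chk3 f_pm_102_a t 24 31 1 = true := ex3_b k17_pm_102_a s65_pm_102_a

theorem s67_pm_102_a : ∃ t, chk3 f_pm_102_a t 24 15 1 = true := ex3_b k16_pm_102_a s66_pm_102_a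

theorem s68_pm_102_a : ∃ t, chk3 f_pm_102_a t 12 15 1 = true := ex3_a s67_pm_102_a s62_pm_102_a

theorem s69_pm_102_a : ∃ t, chk3 f_pm_102_a t 12 7 1 = true := ex3_b k15_pm_102_a s68_pm_102_a

theorem s70_pm_102_a : ∃ t, chk3 f_pm_102_a t 6 7 1 = true := ex3_a s69_pm_102_a s55_pm_102_a

theorem s71_pm_102_a : ∃ t, chk3 f_pm_102_a t 6 3 1 = true := ex3_b k14_pm_102_a s70_pm_102_a

theorem s72_pm_102_a : ∃ t, chk3 f_pm_102_a t 3 3 1 = true := ex3_a s71_pm_102_a s53_pm_102_a

theorem s73_pm_102_a : ∃ t, chk3 f_pm_102_a t 27 9 1 = true := ex3_a k10_pm_102_a k11_pm_102_a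

theorem s74_pm_102_a : ∃ t, chk3 f_pm_102_a t 27 4 1 = true := ex3_b k9_pm_102_a s73_pm_102_a

theorem s75_pm_102_a : ∃ t, chk3 f_pm_102_a t 13 4 1 = true := ex3_a k8_pm_102_a s74_pm_102_a

theorem s76_pm_102_a : ∃ t, chk3 f_pm_102_a t 13 2 1 = true := ex3_b s75_pm_102_a k12_pm_102_a

theorem s77_pm_102_a : ∃ t, chk3 f_pm_102_a t 6 2 1 = true := ex3_a k7_pm_102_a s76_pm_102_a

theorem s78_pm_102_a : ∃ t, chk3 f_pm_102_a t 3 2 1 = true := ex3_a s77_pm_102_a k13_pm_102_a

theorem s79_pm_102_a : ∃ t, chk3 f_pm_102_a t 3 1 1 = true := ex3_b s78_pm_102_a s72_pm_102_a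

theorem s80_pm_102_a : ∃ t, chk3 f_pm_102_a t 11 15 1 = true := ex3_a k5_pm_102_a k6_pm_102_a

theorem s81_pm_102_a : ∃ t, chk3 f_pm_102_a t 11 7 1 = true := ex3_b k4_pm_102_a s80_pm_102_a

theorem s82_pm_102_a : ∃ t, chk3 f_pm_102_a t 5 7 1 = true := ex3_a k3_pm_102_a s81_pm_102_a

theorem s83_pm_102_a : ∃ t, chk3 f_pm_102_a t 5 3 1 = true := ex3_b k2_pm_102_a s82_pm_102_a

theorem s84_pm_102_a : ∃ t, chk3 f_pm_102_a t 2 3 1 = true := ex3_a k1_pm_102_a s83_pm_102_a

theorem s85_pm_102_a : ∃ t, chk3 f_pm_102_a t 2 1 1 = true := ex3_b k0_pm_102_a s84_pm_102_a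

theorem s86_pm_102_a : ∃ t, chk3 f_pm_102_a t 1 1 1 = true := ex3_a s85_pm_102_a s79_pm_102_a

theorem c_pm_102_a : CertB 536870912 536870912 0 536870912 780900216 37827925 3 eng mog cd0q1 cd2q2a pd0 false true false .npp 1 0 2
    ndB0q1 ndB2q2a pcB0 cut_pm_102_a xt_pm_102_a :=
  certB0 (fam := false) (s1 := true) (s2 := false) (a := 1) (b := 0) (c := 2) (cn := .npp) (n1 := ndB0q1) (n2 := ndB2q2a) (pc := pcB0) (cut := cut_pm_102_a) (xt := xt_pm_102_a) (P1 := 536870912) (W1 := 536870912) (P2 := 0) (W2 := 536870912) (P3 := 780900216) (W3 := 37827925) (N0 := 3) (En := eng) (mo := mog) (C1 := cd0q1) (C2 := cd2q2a) (C3 := pd0)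
    rfl s86_pm_102_a

noncomputable def cut_pm_102_b : Cut := Cut.of [[⟨0, 1, 0, 67108864⟩, ⟨1, 0, 0, 67108864⟩, ⟨2, 1, 0, 67108864⟩], [⟨0, 0, 1, 26214400⟩, ⟨1, 1, 2, 26214400⟩, ⟨2, 1, 0, 33554432⟩]]

noncomputable def f_pm_102_b : ℕ → ℕ → ℕ → ℕ → Bool := onCell 536870912 536870912 0 536870912 780900216 37827925
    (rowB 3 eng mog cd0q1 cd2q2b pd0 1 false true false .npp 1 0 2 (qsf 536870912 536870912 1239849684 370763052 0) ndB0q1 ndB2q2b pcB0 cut_pm_102_b Ext.none)

def k0_pm_102_b : ∃ t, chk3 f_pm_102_b t 2 1 1 = true :=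
  ⟨(b (l 1) (b (l 1) (a (l 1) (a (b (l 1) (b (a (l 1) (l 271153026599)) (a (l 294238645127) (l 16631304)))) (b (a (b (l 1) (b (l 1) (l 236256607927))) (b (a (l 1) (l 286185504039)) (a (l 46204296055) (l 16698968)))) (a (b (a (l 16671112) (l 16679888)) (l 16659472)) (b (a (l 16676784) (l 16666816)) (l 16643520)))))))), by decide +kernel⟩

def k1_pm_102_b : ∃ t, chk3 f_pm_102_b t 3 2 1 = true :=
  ⟨(a (l 1) (l 3)), by decide +kernel⟩

def k2_pm_102_b : ∃ t, chk3 f_pm_102_b t 6 6 1 = true :=
  ⟨(b (a (l 1) (l 3)) (a (b (a (l 1) (b (l 1) (a (l 1) (a (l 1) (b (l 1) (c (l 188475126343) (b (l 1) (l 16732216)))))))) (a (a (l 1) (b (l 1) (l 190622612215))) (c (a (b (b (l 1) (l 189012037767)) (b (l 16732280) (l 16721704))) (b (b (a (l 16736592) (l 16724024)) (l 16714600)) (l 16704248))) (a (b (l 242699083079) (a (l 16729488) (l 16719584))) (b (b (a (l 18287135543) (l 16724080)) (a (l 16725104) (l 16713232))) (a (l 16708696) (l 16697080))))))) (a (a (a (b (b (l 1) (b (l 3) (a (a (b (l 1) (l 16724056))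 (l 3)) (l 3)))) (c (b (a (l 16724848) (l 163913284519)) (l 16685472)) (b (b (l 86067002791) (l 7683755639)) (l 87140728119)))) (b (l 3) (b (l 3) (c (l 427516727031) (l 176798135623))))) (l 3)) (l 3)))), by decide +kernel⟩

def k3_pm_102_b : ∃ t, chk3 f_pm_102_b t 6 7 1 = true :=
  ⟨(b (a (a (a (b (b (l 216392417591) (l 16716160)) (l 16688672)) (b (b (l 16701768) (l 16702448)) (l 16694048))) (a (b (b (c (l 16706112) (l 16702896)) (l 16705064)) (c (l 16657024) (l 16651776))) (b (c (b (l 16683824) (l 16663960)) (c (l 16714056) (l 16712216))) (c (l 16635440) (l 16631432))))) (a (b (a (c (b (a (l 16665480) (l 16673032)) (a (l 16645872) (l 16633088))) (b (c (l 16678904) (l 87677540967)) (l 95730557335))) (b (l 3) (c (l 139217035527) (l 161765613287)))) (b (a (c (l 16620648) (l 16618016)) (c (l 120426522007) (l 122574006935))) (a (c (l 16602408) (l 16599168)) (c (l 104320359927) (l 115594651463))))) (l 3))) (a (a (b (c (l 16649368) (l 16640952)) (l 16613888)) (b (a (l 16618696) (c (l 16600272) (l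 16595088))) (c (l 16580040) (l 16573376)))) (a (b (c (a (l 16576640) (b (l 16559096) (l 16543088))) (a (l 16572592) (b (l 16556040) (l 16539696)))) (a (b (l 16551672) (l 16537576)) (c (l 16541984) (l 16517208)))) (a (b (b (l 3) (l 167134120647)) (b (l 125795036887) (l 102172692391))) (l 3))))), by decide +kernel⟩

def k4_pm_102_b : ∃ t, chk3 f_pm_102_b t 7 3 1 = true :=
  ⟨(l 3), by decide +kernel⟩

theorem s5_pm_102_b : ∃ t, chk3 f_pm_102_b t 6 3 1 = true := ex3_b k2_pm_102_b k3_pm_102_b

theorem s6_pm_102_b : ∃ t, chk3 f_pm_102_b t 3 3 1 = true := ex3_a s5_pm_102_b k4_pm_102_b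

theorem s7_pm_102_b : ∃ t, chk3 f_pm_102_b t 3 1 1 = true := ex3_b k1_pm_102_b s6_pm_102_b

theorem s8_pm_102_b : ∃ t, chk3 f_pm_102_b t 1 1 1 = true := ex3_a k0_pm_102_b s7_pm_102_b

theorem c_pm_102_b : CertB 536870912 536870912 1239849684 370763052 780900216 37827925 3 eng mog cd0q1 cd2q2b pd0 false true false .npp 1 0 2
    ndB0q1 ndB2q2b pcB0 cut_pm_102_b Ext.none :=
  certB1 (fam := false) (s1 := true) (s2 := false) (a := 1) (b := 0) (c := 2) (cn := .npp) (n1 := ndB0q1) (n2 := ndB2q2b) (pc := pcB0) (cut := cut_pm_102_b) (xt := Ext.none) (P1 := 536870912) (W1 := 536870912) (P2 := 1239849684) (W2 := 370763052) (P3 := 780900216) (W3 := 37827925) (N0 := 3) (En := eng) (mo := mog) (C1 := cd0q1) (C2 := cd2q2b) (C3 := pd0)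
    rfl (fun _ => rfl) s8_pm_102_b

noncomputable def f_pm_112_a : ℕ → ℕ → ℕ → ℕ → Bool := onCell 536870912 536870912 0 536870912 780900216 37827925
    (rowB 3 eng mog cd0q1 cd2q2a pd1 0 false true false .dn 1 1 2 (qsf 536870912 536870912 0 536870912 1) ndB0q1 ndB2q2a pcB1 Cut.none Ext.none)

def k0_pm_112_a : ∃ t, chk3 f_pm_112_a t 1 1 1 = true :=
  ⟨(a (b (a (a (b (b (a (l 16480320) (l 16500696)) (a (l 16455384) (l 16475248))) (b (a (l 16434584) (l 16451312)) (a (l 16414368) (l 16425952)))) (b (a (b (l 16521064) (l 16494432)) (b (l 16542136) (l 16509952))) (a (l 16535784) (b (l 16480368) (l 16445136))))) (a (a (b (b (l 16561560) (l 16527696)) (b (l 16493000) (l 16453216))) (b (b (l 1) (l 1)) (l 1))) (l 1))) (a (b (a (b (a (l 16390304) (l 16394192)) (l 16353000)) (b (a (l 16397032) (l 16399416)) (l 16338872))) (a (b (a (l 16307784) (l 16287584)) (a (b (l 16277928) (b (l 16261040) (l 16248536))) (l 270615501767))) (b (l 244308958615) (l 1)))) (b (l 1) (l 1)))) (l 1)), by decide +kernel⟩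

theorem c_pm_112_a : CertB 536870912 536870912 0 536870912 780900216 37827925 3 eng mog cd0q1 cd2q2a pd1 false true false .dn 1 1 2
    ndB0q1 ndB2q2a pcB1 Cut.none Ext.none :=
  certB0 (fam := false) (s1 := true) (s2 := false) (a := 1) (b := 1) (c := 2) (cn := .dn) (n1 := ndB0q1) (n2 := ndB2q2a) (pc := pcB1) (cut := Cut.none) (xt := Ext.none) (P1 := 536870912) (W1 := 536870912) (P2 := 0) (W2 := 536870912) (P3 := 780900216) (W3 := 37827925) (N0 := 3) (En := eng) (mo := mog) (C1 := cd0q1) (C2 := cd2q2a) (C3 := pd1)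
    rfl k0_pm_112_a

noncomputable def f_pm_112_b : ℕ → ℕ → ℕ → ℕ → Bool := onCell 536870912 536870912 1239849684 370763052 780900216 37827925
    (rowB 3 eng mog cd0q1 cd2q2b pd1 0 false true false .dn 1 1 2 (qsf 536870912 536870912 1239849684 370763052 1) ndB0q1 ndB2q2b pcB1 Cut.none Ext.none)

def k0_pm_112_b : ∃ t, chk3 f_pm_112_b t 2 1 1 = true :=
  ⟨(a (b (a (a (b (b (b (l 16480112) (l 16452360)) (l 16404232)) (b (l 16329888) (l 16245912))) (b (b (l 16493968) (l 16440552)) (l 16465480))) (b (b (a (l 16520520) (l 16546008)) (l 16576496)) (b (l 16440224) (l 16379704)))) (b (b (a (a (l 16154888) (l 16222904)) (l 16313288)) (a (a (l 16057296) (l 16136592)) (l 16241576))) (a (b (a (l 15954192) (l 16043864)) (a (b (l 15873840) (l 15819112)) (l 15947256))) (b (a (l 16128456) (l 16205432)) (a (l 16044976) (l 16133288)))))) (b (a (b (b (a (l 16632944) (l 226056010231)) (a (l 16540472) (l 16566576))) (b (l 16557520) (l 16469904))) (b (a (b (l 224445413911) (l 16584280)) (b (l 1) (a (l 16592104)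 (l 227666659911)))) (b (a (l 16553960) (a (l 16564728) (l 16570032))) (a (l 16517520) (l 16535304))))) (a (b (b (l 16419496) (l 16366104)) (b (l 16310896) (l 16275728))) (a (b (l 16457528) (l 16377568)) (b (l 16652504) (l 16423896)))))), by decide +kernel⟩

def k1_pm_112_b : ∃ t, chk3 f_pm_112_b t 3 1 1 = true :=
  ⟨(b (a (b (l 1) (a (a (b (a (l 16592384) (l 91838295111)) (a (l 16541840) (l 16543352))) (b (a (b (l 1) (l 16567848)) (l 1)) (a (l 16606016) (b (l 16549576) (l 16532592))))) (a (b (l 1) (a (b (l 1) (l 16527480)) (l 1))) (l 1)))) (l 1)) (a (b (a (b (a (a (l 16512128) (l 16513400)) (a (l 16513408) (l 16509776))) (a (l 16486248) (a (l 16488016) (l 16484416)))) (a (b (a (b (l 16510576) (l 16495592)) (b (a (l 16504280) (l 16499672)) (l 16485576))) (a (l 16476424) (b (l 16471336) (l 16459232)))) (b (a (b (b (l 1) (l 299070115927)) (a (l 16477264) (l 125795012663))) (l 3)) (a (b (a (l 16461912) (l 16455224)) (l 16445224)) (b (l 134384889447) (l 115057509703)))))) (a (a (b (l 16463456)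 (l 16445936)) (b (a (l 16468408) (l 16466576)) (a (l 16458208) (l 16458448)))) (a (b (a (l 16458600) (l 16445760)) (a (l 16451800) (l 16438712))) (b (a (b (l 16434360) (l 16426408)) (b (l 100025099591) (l 16434472))) (a (b (l 16421816) (l 16421128)) (b (l 16402056) (l 16399696))))))) (b (l 3) (a (a (b (l 3) (a (b (l 113983653511) (l 104319975719)) (l 3))) (l 3)) (l 3))))), by decide +kernel⟩

theorem s2_pm_112_b : ∃ t, chk3 f_pm_112_b t 1 1 1 = true := ex3_a k0_pm_112_b k1_pm_112_b

theorem c_pm_112_b : CertB 536870912 536870912 1239849684 370763052 780900216 37827925 3 eng mog cd0q1 cd2q2b pd1 false true false .dn 1 1 2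
    ndB0q1 ndB2q2b pcB1 Cut.none Ext.none :=
  certB0 (fam := false) (s1 := true) (s2 := false) (a := 1) (b := 1) (c := 2) (cn := .dn) (n1 := ndB0q1) (n2 := ndB2q2b) (pc := pcB1) (cut := Cut.none) (xt := Ext.none) (P1 := 536870912) (W1 := 536870912) (P2 := 1239849684) (W2 := 370763052) (P3 := 780900216) (W3 := 37827925) (N0 := 3) (En := eng) (mo := mog) (C1 := cd0q1) (C2 := cd2q2b) (C3 := pd1)
    rfl s2_pm_112_b

noncomputable def cut_pm_113 : Cut := Cut.of [[⟨0, 1, 0, 67108864⟩, ⟨1, 1, 0, 67108864⟩, ⟨2, 2, 0, 16777216⟩]]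

noncomputable def f_pm_113 : ℕ → ℕ → ℕ → ℕ → Bool := onCell 536870912 536870912 536870912 536870912 780900216 37827925
    (rowB 3 eng mog cd0q1 cd2q3 pd1 1 false true false .nn 1 1 3 (qsf 536870912 536870912 1610612736 536870912 1) ndB0q1 ndB2q3 pcB1 cut_pm_113 Ext.none)

def k0_pm_113 : ∃ t, chk3 f_pm_113 t 1 2 1 = true :=
  ⟨(a (b (l 1) (a (l 1) (a (l 1) (b (l 1) (a (l 1) (l 16408192)))))) (a (b (a (l 1) (b (l 1) (a (l 1) (b (l 1) (a (l 1) (l 59088705719)))))) (a (b (a (l 1) (b (l 1) (l 16465560))) (a (l 16433400) (b (l 16461192) (l 16462024)))) (b (a (b (l 16466432) (l 16468432)) (b (a (l 16452112) (l 16438968)) (a (l 16462048) (l 16453752)))) (a (b (l 16476888) (l 16493608)) (b (a (l 16481160) (l 16479864)) (l 16516400)))))) (b (a (b (l 3) (a (a (b (l 1) (b (l 118278646647) (l 108614974455))) (l 3)) (l 3))) (l 3)) (a (b (a (b (a (b (l 16419576) (l 16426264)) (b (l 3) (l 129016034183))) (a (b (l 16435752) (l 16448440)) (b (l 118278636839) (b (l 109151830455) (l 16437488))))) (l 3)) (a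 (b (a (l 16474432) (b (l 60833491799) (l 16476376))) (a (l 16524224) (a (l 16523680) (l 16521272)))) (a (b (a (b (l 135995379527) (l 117204940327)) (l 3)) (b (c (l 116668192119) (l 114520625367)) (c (l 104320232599) (l 101635782167)))) (l 3)))) (l 3))))), by decide +kernel⟩

def k1_pm_113 : ∃ t, chk3 f_pm_113 t 2 3 1 = true :=
  ⟨(a (b (a (l 1) (b (l 1) (a (l 1) (l 16146488)))) (a (b (a (l 1) (l 15987088)) (a (b (l 15861976) (l 15782400)) (b (l 15878192) (l 15803736)))) (b (a (b (l 16038608) (l 15972736)) (l 16157912)) (b (a (l 15905352) (l 15944848)) (a (l 15836984) (l 15884560)))))) (b (a (b (a (l 1) (l 16290112)) (a (l 16170176) (l 16205752))) (b (a (l 16320568) (l 16361488)) (a (l 16256056) (l 16323568)))) (a (b (a (l 16069936) (l 16123184)) (a (b (l 15995304) (l 15945920)) (b (l 16064448) (l 16027920)))) (a (b (l 16198224) (a (l 16121816) (l 16184008))) (b (l 16299664) (l 16296816)))))), by decide +kernel⟩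

def k2_pm_113 : ∃ t, chk3 f_pm_113 t 3 6 1 = true :=
  ⟨(a (a (b (a (l 16412960) (l 16578976)) (a (l 16410032) (l 16516888))) (b (a (b (l 16520072) (l 16558800)) (b (l 16567608) (l 16637968))) (a (b (l 16612136) (l 16682504)) (b (l 16731816) (l 16854832))))) (a (b (a (b (a (l 16595040) (l 16606600)) (a (l 16692328) (l 16722896))) (b (b (a (l 59759930807) (a (l 122573817511) (l 3))) (a (l 16640600) (a (l 79624229143) (l 133311494359)))) (a (b (l 16708024) (l 16787968)) (b (a (l 16716240) (l 115594701463)) (b (l 93583144615) (l 16777664)))))) (a (b (l 16832360) (l 16937232)) (b (a (l 16815080) (b (l 16757376) (l 16827800))) (a (l 16845952) (b (l 16833912) (l 16860592)))))) (a (b (a (b (l 3) (a (b (l 3) (l 127405994791)) (l 3))) (l 3)) (b (a (b (a (l 112373642919) (l 3)) (a (b (l 16777520) (l 16791848)) (b (l 128479773591) (l 112910543751)))) (l 3)) (a (b (a (l 16814160) (b (l 16761256) (l 16797536))) (a (l 16843256) (l 16819432))) (a (b (l 205789316151) (c (l 135996077687) (l 122037408727)))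 (l 3))))) (l 3)))), by decide +kernel⟩

def k3_pm_113 : ∃ t, chk3 f_pm_113 t 6 7 1 = true :=
  ⟨(b (a (a (l 16432432) (l 16604096)) (a (l 16723184) (b (l 16832280) (l 16777912)))) (a (a (l 16473544) (l 16445360)) (a (l 16560800) (a (l 16676792) (l 16604616))))), by decide +kernel⟩

def k4_pm_113 : ∃ t, chk3 f_pm_113 t 7 14 1 = true :=
  ⟨(a (a (b (l 16905264) (l 16795016)) (b (a (l 16954848) (l 16856720)) (a (l 16873856) (l 16895496)))) (a (b (a (b (l 16815336) (l 16870136)) (b (a (b (l 16795640) (l 16829072)) (a (l 194515038951) (l 3))) (a (l 16846648) (c (l 16825048) (l 110226306887))))) (a (b (l 16900920) (l 16891544)) (b (c (l 16812216) (l 16795608)) (l 16787592)))) (a (b (b (l 3) (a (l 299741792855) (l 3))) (a (b (b (l 212231778983) (l 157470957463)) (b (l 161229070007) (l 16800264))) (b (l 3) (a (b (l 199883840791) (l 166597777239)) (l 3))))) (l 3)))), by decide +kernel⟩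

def k5_pm_113 : ∃ t, chk3 f_pm_113 t 7 15 1 = true :=
  ⟨(a (a (b (l 16777184) (l 16723912)) (b (l 16818536) (l 16762784))) (a (b (a (l 16839488) (b (l 16845056) (l 16833064))) (a (l 16780080) (b (l 16802296) (l 16731360)))) (b (a (a (b (a (l 16853160) (l 16842568)) (l 16818848)) (b (b (c (l 182167023015) (l 171429618695)) (c (l 16787248) (l 145659825575))) (b (c (l 16825272) (l 16813016)) (l 16788496)))) (a (b (a (b (l 3) (l 269140187127)) (l 3)) (c (a (b (l 199346890471) (l 16784728)) (b (l 3) (l 258939597207))) (a (b (l 184314518055) (l 166060914631)) (b (l 3) (b (l 262160834727) (l 335175280791)))))) (l 3))) (a (b (a (l 16808200) (c (l 16817280) (l 16807408))) (c (l 16785472) (l 16795480))) (a (b (a (b (a (l 16817880) (l 16791672)) (l 16787024)) (b (c (b (l 220821717943) (l 177872047863)) (a (l 187535747735) (b (l 186461997991) (l 171429615703)))) (c (a (l 16804248) (l 16778408)) (c (l 16785656) (l 16794584))))) (c (b (l 16775936) (l 16781496)) (b (a (l 16788552) (l 16791416)) (l 16775224))))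 (b (a (b (a (c (l 267529517639) (l 351281391255)) (l 3)) (a (b (c (l 332490921591) (a (l 177872064983) (l 188609476503))) (c (l 199346883271) (c (l 16787960) (l 16790856)))) (a (b (l 3) (c (l 330343424695) (b (l 180556412311) (l 211158055463)))) (l 3)))) (l 3)) (a (a (b (b (c (l 16794496) (l 16786992)) (l 16771408)) (c (l 16782968) (l 16778808))) (b (b (c (a (l 213305526647) (b (l 324974705399) (l 213305559335))) (a (c (l 16794224) (l 16786192)) (c (l 182703891031) (l 196125669943)))) (c (b (l 16779136) (l 16789552)) (c (l 16781976) (l 16787856)))) (l 6))) (b (a (a (b (c (l 285246242535) (b (l 3) (l 365776887079))) (a (b (c (l 16791800) (l 254107734455)) (l 6)) (l 6))) (b (l 3) (l 6))) (l 3)) (l 6))))))))), by decide +kernel⟩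

theorem s6_pm_113 : ∃ t, chk3 f_pm_113 t 7 7 1 = true := ex3_b k4_pm_113 k5_pm_113

theorem s7_pm_113 : ∃ t, chk3 f_pm_113 t 3 7 1 = true := ex3_a k3_pm_113 s6_pm_113

theorem s8_pm_113 : ∃ t, chk3 f_pm_113 t 3 3 1 = true := ex3_b k2_pm_113 s7_pm_113

theorem s9_pm_113 : ∃ t, chk3 f_pm_113 t 1 3 1 = true := ex3_a k1_pm_113 s8_pm_113

theorem s10_pm_113 : ∃ t, chk3 f_pm_113 t 1 1 1 = true := ex3_b k0_pm_113 s9_pm_113

theorem c_pm_113 : CertB 536870912 536870912 1610612736 536870912 780900216 37827925 3 eng mog cd0q1 cd2q3 pd1 false true false .nn 1 1 3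
    ndB0q1 ndB2q3 pcB1 cut_pm_113 Ext.none :=
  certB1 (fam := false) (s1 := true) (s2 := false) (a := 1) (b := 1) (c := 3) (cn := .nn) (n1 := ndB0q1) (n2 := ndB2q3) (pc := pcB1) (cut := cut_pm_113) (xt := Ext.none) (P1 := 536870912) (W1 := 536870912) (P2 := 1610612736) (W2 := 536870912) (P3 := 780900216) (W3 := 37827925) (N0 := 3) (En := eng) (mo := mog) (C1 := cd0q1) (C2 := cd2q3) (C3 := pd1)
    rfl (fun _ => rfl) s10_pm_113

noncomputable def cut_pm_123 : Cut := Cut.of [[⟨0, 1, 0, 67108864⟩, ⟨1, 1, 0, 67108864⟩, ⟨2, 2, 0, 16777216⟩]]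

noncomputable def f_pm_123 : ℕ → ℕ → ℕ → ℕ → Bool := onCell 536870912 536870912 1073741824 536870912 780900216 37827925
    (rowB 3 eng mog cd0q1 cd2q3 pd2 1 false true false .npn 1 2 3 (qsf 536870912 536870912 1610612736 536870912 2) ndB0q1 ndB2q3 pcB2 cut_pm_123 Ext.none)

def k0_pm_123 : ∃ t, chk3 f_pm_123 t 2 1 1 = true :=
  ⟨(b (a (b (a (b (a (b (l 15790152) (l 15784464)) (b (l 15766448) (l 15807688))) (a (b (l 15820736) (l 15857072)) (l 15869880))) (b (a (b (l 15795752) (l 15842280)) (b (l 15839352) (l 15891520))) (b (l 15914752) (l 15965200)))) (a (b (b (l 15911800) (l 15967104)) (l 16067928)) (b (b (l 16019744) (l 16087368)) (l 16196808)))) (b (a (b (a (b (l 15900616) (l 15958736)) (b (l 15986856) (l 16051312))) (b (l 16063656) (l 16125856))) (b (a (b (l 16109216) (l 16179880)) (b (l 16277280) (l 16294312))) (b (l 16267896) (l 16279688)))) (b (a (b (l 16186752) (l 16229864)) (l 16325096)) (a (l 16307560) (b (l 16393608) (l 16446536)))))) (a (b (a (b (l 16199280) (l 16320264)) (b (l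 16314264) (l 16422688))) (a (b (l 16425760) (l 16519640)) (b (l 16523920) (l 16614544)))) (b (a (b (b (l 16389016) (l 16443288)) (l 16523504)) (b (l 16529112) (l 16633496))) (a (b (l 16621592) (l 2)) (l 2))))), by decide +kernel⟩

def k1_pm_123 : ∃ t, chk3 f_pm_123 t 3 1 1 = true :=
  ⟨(b (a (b (b (a (a (b (l 16337912) (l 16356272)) (b (b (l 16422864) (l 16416888)) (l 16409920))) (a (b (l 16478304) (l 16465568)) (b (l 16536760) (l 16521984)))) (a (b (c (l 16400728) (l 16359464)) (l 16385856)) (a (c (l 16478328) (l 16443776)) (b (l 16515648) (b (l 16518696) (l 16535872)))))) (b (a (b (l 16415960) (a (l 16430560) (l 16490256))) (b (a (l 16504352) (b (l 16563552) (l 16696864))) (a (l 16558152) (l 16627520)))) (a (b (l 16387376) (l 16566800)) (a (l 16635736) (l 2))))) (b (b (a (a (b (l 16655864) (l 16580680)) (b (a (l 16638168) (l 16667376)) (a (l 16630112) (l 16599536)))) (b (a (a (l 16608848) (b (l 16695952) (a (l 16710112) (l 16722784)))) (a (b (a (l 16713360) (b (l 16725240) (l 16705296)))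 (b (l 16742136) (l 16743912))) (a (b (a (b (l 16734544) (l 6)) (l 6)) (l 868220771943)) (b (a (l 6) (b (l 6) (l 2))) (l 2))))) (a (b (a (l 16691288) (l 16717568)) (l 267462425863)) (a (a (l 730245216743) (l 2)) (l 2))))) (b (a (a (a (l 16562512) (l 16600560)) (l 16649224)) (a (a (l 16704024) (l 2)) (l 2))) (a (a (l 16605696) (l 454830570455)) (l 2)))) (a (b (b (b (a (l 16643624) (l 2)) (l 2)) (l 2)) (l 2)) (l 2)))) (a (b (a (b (a (l 16616248) (l 2)) (l 2)) (l 2)) (l 2)) (l 2))), by decide +kernel⟩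

theorem s2_pm_123 : ∃ t, chk3 f_pm_123 t 1 1 1 = true := ex3_a k0_pm_123 k1_pm_123

theorem c_pm_123 : CertB 536870912 536870912 1610612736 536870912 780900216 37827925 3 eng mog cd0q1 cd2q3 pd2 false true false .npn 1 2 3
    ndB0q1 ndB2q3 pcB2 cut_pm_123 Ext.none :=
  certB1 (fam := false) (s1 := true) (s2 := false) (a := 1) (b := 2) (c := 3) (cn := .npn) (n1 := ndB0q1) (n2 := ndB2q3) (pc := pcB2) (cut := cut_pm_123) (xt := Ext.none) (P1 := 536870912) (W1 := 536870912) (P2 := 1610612736) (W2 := 536870912) (P3 := 780900216) (W3 := 37827925) (N0 := 3) (En := eng) (mo := mog) (C1 := cd0q1) (C2 := cd2q3) (C3 := pd2)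
    rfl (fun _ => rfl) s2_pm_123

noncomputable def f_pm_133 : ℕ → ℕ → ℕ → ℕ → Bool := onCell 536870912 536870912 1610612736 536870912 780900216 37827925
    (rowB 3 eng mog cd0q1 cd2q3 pd3 0 false true false .dn 1 3 3 (qsf 536870912 536870912 1610612736 536870912 3) ndB0q1 ndB2q3 pcB3 Cut.none Ext.none)

def k0_pm_133 : ∃ t, chk3 f_pm_133 t 1 1 1 = true :=
  ⟨(a (b (l 1) (a (b (l 1) (a (b (l 1) (l 16582352)) (l 1))) (l 1))) (l 1)), by decide +kernel⟩

theorem c_pm_133 : CertB 536870912 536870912 1610612736 536870912 780900216 37827925 3 eng mog cd0q1 cd2q3 pd3 false true false .dn 1 3 3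
    ndB0q1 ndB2q3 pcB3 Cut.none Ext.none :=
  certB0 (fam := false) (s1 := true) (s2 := false) (a := 1) (b := 3) (c := 3) (cn := .dn) (n1 := ndB0q1) (n2 := ndB2q3) (pc := pcB3) (cut := Cut.none) (xt := Ext.none) (P1 := 536870912) (W1 := 536870912) (P2 := 1610612736) (W2 := 536870912) (P3 := 780900216) (W3 := 37827925) (N0 := 3) (En := eng) (mo := mog) (C1 := cd0q1) (C2 := cd2q3) (C3 := pd3)
    rfl k0_pm_133

noncomputable def cut_pm_202_a : Cut := Cut.of [[⟨0, 1, 0, 67108864⟩, ⟨1, 0, 0, 67108864⟩, ⟨2, 1, 0, 67108864⟩]]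

noncomputable def f_pm_202_a : ℕ → ℕ → ℕ → ℕ → Bool := onCell 0 536870912 0 536870912 780900216 37827925
    (rowB 3 eng mog cd0q2 cd2q2a pd0 0 false true false .pp 2 0 2 (qsf 0 536870912 0 536870912 0) ndB0q2 ndB2q2a pcB0 cut_pm_202_a Ext.none)

def k0_pm_202_a : ∃ t, chk3 f_pm_202_a t 1 1 1 = true :=
  ⟨(a (l 3) (b (l 3) (a (l 3) (b (l 3) (a (l 3) (b (l 3) (l 6))))))), by decide +kernel⟩

theorem c_pm_202_a : CertB 0 536870912 0 536870912 780900216 37827925 3 eng mog cd0q2 cd2q2a pd0 false true false .pp 2 0 2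
    ndB0q2 ndB2q2a pcB0 cut_pm_202_a Ext.none :=
  certB0 (fam := false) (s1 := true) (s2 := false) (a := 2) (b := 0) (c := 2) (cn := .pp) (n1 := ndB0q2) (n2 := ndB2q2a) (pc := pcB0) (cut := cut_pm_202_a) (xt := Ext.none) (P1 := 0) (W1 := 536870912) (P2 := 0) (W2 := 536870912) (P3 := 780900216) (W3 := 37827925) (N0 := 3) (En := eng) (mo := mog) (C1 := cd0q2) (C2 := cd2q2a) (C3 := pd0)
    rfl k0_pm_202_a

noncomputable def cut_pm_202_b : Cut := Cut.of [[⟨0, 1, 0, 67108864⟩, ⟨1, 0, 0, 67108864⟩, ⟨2, 1, 0, 67108864⟩]]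

noncomputable def f_pm_202_b : ℕ → ℕ → ℕ → ℕ → Bool := onCell 0 536870912 1239849684 370763052 780900216 37827925
    (rowB 3 eng mog cd0q2 cd2q2b pd0 0 false true false .pp 2 0 2 (qsf 0 536870912 1239849684 370763052 0) ndB0q2 ndB2q2b pcB0 cut_pm_202_b Ext.none)

def k0_pm_202_b : ∃ t, chk3 f_pm_202_b t 1 1 1 = true :=
  ⟨(l 3), by decide +kernel⟩

theorem c_pm_202_b : CertB 0 536870912 1239849684 370763052 780900216 37827925 3 eng mog cd0q2 cd2q2b pd0 false true false .pp 2 0 2
    ndB0q2 ndB2q2b pcB0 cut_pm_202_b Ext.none :=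
  certB0 (fam := false) (s1 := true) (s2 := false) (a := 2) (b := 0) (c := 2) (cn := .pp) (n1 := ndB0q2) (n2 := ndB2q2b) (pc := pcB0) (cut := cut_pm_202_b) (xt := Ext.none) (P1 := 0) (W1 := 536870912) (P2 := 1239849684) (W2 := 370763052) (P3 := 780900216) (W3 := 37827925) (N0 := 3) (En := eng) (mo := mog) (C1 := cd0q2) (C2 := cd2q2b) (C3 := pd0)
    rfl k0_pm_202_b

noncomputable def f_pm_203 : ℕ → ℕ → ℕ → ℕ → Bool := onCell 0 536870912 0 536870912 780900216 37827925
    (rowB 3 eng mog cd0q2 cd2q3 pd0 1 false true false .up 2 0 3 (qsf 0 536870912 1610612736 536870912 0) ndB0q2 ndB2q3 pcB0 Cut.none Ext.none)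

def k0_pm_203 : ∃ t, chk3 f_pm_203 t 1 1 1 = true :=
  ⟨(l 3), by decide +kernel⟩

theorem c_pm_203 : CertB 0 536870912 1610612736 536870912 780900216 37827925 3 eng mog cd0q2 cd2q3 pd0 false true false .up 2 0 3
    ndB0q2 ndB2q3 pcB0 Cut.none Ext.none :=
  certB1 (fam := false) (s1 := true) (s2 := false) (a := 2) (b := 0) (c := 3) (cn := .up) (n1 := ndB0q2) (n2 := ndB2q3) (pc := pcB0) (cut := Cut.none) (xt := Ext.none) (P1 := 0) (W1 := 536870912) (P2 := 1610612736) (W2 := 536870912) (P3 := 780900216) (W3 := 37827925) (N0 := 3) (En := eng) (mo := mog) (C1 := cd0q2) (C2 := cd2q3) (C3 := pd0)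
    rfl (fun _ => rfl) k0_pm_203

noncomputable def cut_pm_213 : Cut := Cut.of [[⟨0, 1, 0, 67108864⟩, ⟨1, 1, 0, 67108864⟩, ⟨2, 2, 0, 16777216⟩]]

noncomputable def f_pm_213 : ℕ → ℕ → ℕ → ℕ → Bool := onCell 0 536870912 1610612736 536870912 780900216 37827925
    (rowB 3 eng mog cd0q2 cd2q3 pd1 0 false true false .pnn 2 1 3 (qsf 0 536870912 1610612736 536870912 1) ndB0q2 ndB2q3 pcB1 cut_pm_213 Ext.none)

def k0_pm_213 : ∃ t, chk3 f_pm_213 t 1 1 1 = true :=
  ⟨(b (l 3) (a (l 3) (b (l 3) (a (l 3) (b (l 3) (a (l 3) (a (l 3) (b (l 3) (b (l 3) (b (l 3) (l 6))))))))))), by decide +kernel⟩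

theorem c_pm_213 : CertB 0 536870912 1610612736 536870912 780900216 37827925 3 eng mog cd0q2 cd2q3 pd1 false true false .pnn 2 1 3
    ndB0q2 ndB2q3 pcB1 cut_pm_213 Ext.none :=
  certB0 (fam := false) (s1 := true) (s2 := false) (a := 2) (b := 1) (c := 3) (cn := .pnn) (n1 := ndB0q2) (n2 := ndB2q3) (pc := pcB1) (cut := cut_pm_213) (xt := Ext.none) (P1 := 0) (W1 := 536870912) (P2 := 1610612736) (W2 := 536870912) (P3 := 780900216) (W3 := 37827925) (N0 := 3) (En := eng) (mo := mog) (C1 := cd0q2) (C2 := cd2q3) (C3 := pd1)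
    rfl k0_pm_213

noncomputable def f_mm_001 : ℕ → ℕ → ℕ → ℕ → Bool := onCell 0 536870912 536870912 536870912 780900216 37827925
    (rowB 3 eng mog cd0q0 cd2q1 pd0 0 false false false .up 0 0 1 (qsf 0 536870912 536870912 536870912 0) ndB0q0 ndB2q1 pcB0 Cut.none Ext.none)

def k0_mm_001 : ∃ t, chk3 f_mm_001 t 1 1 1 = true :=
  ⟨(l 3), by decide +kernel⟩

theorem c_mm_001 : CertB 0 536870912 536870912 536870912 780900216 37827925 3 eng mog cd0q0 cd2q1 pd0 false false false .up 0 0 1
    ndB0q0 ndB2q1 pcB0 Cut.none Ext.none :=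
  certB0 (fam := false) (s1 := false) (s2 := false) (a := 0) (b := 0) (c := 1) (cn := .up) (n1 := ndB0q0) (n2 := ndB2q1) (pc := pcB0) (cut := Cut.none) (xt := Ext.none) (P1 := 0) (W1 := 536870912) (P2 := 536870912) (W2 := 536870912) (P3 := 780900216) (W3 := 37827925) (N0 := 3) (En := eng) (mo := mog) (C1 := cd0q0) (C2 := cd2q1) (C3 := pd0)
    rfl k0_mm_001

noncomputable def f_mm_011 : ℕ → ℕ → ℕ → ℕ → Bool := onCell 0 536870912 536870912 536870912 780900216 37827925
    (rowB 3 eng mog cd0q0 cd2q1 pd1 0 false false false .pnn 0 1 1 (qsf 0 536870912 536870912 536870912 1) ndB0q0 ndB2q1 pcB1 Cut.none Ext.none)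

def k0_mm_011 : ∃ t, chk3 f_mm_011 t 1 1 1 = true :=
  ⟨(l 3), by decide +kernel⟩

theorem c_mm_011 : CertB 0 536870912 536870912 536870912 780900216 37827925 3 eng mog cd0q0 cd2q1 pd1 false false false .pnn 0 1 1
    ndB0q0 ndB2q1 pcB1 Cut.none Ext.none :=
  certB0 (fam := false) (s1 := false) (s2 := false) (a := 0) (b := 1) (c := 1) (cn := .pnn) (n1 := ndB0q0) (n2 := ndB2q1) (pc := pcB1) (cut := Cut.none) (xt := Ext.none) (P1 := 0) (W1 := 536870912) (P2 := 536870912) (W2 := 536870912) (P3 := 780900216) (W3 := 37827925) (N0 := 3) (En := eng) (mo := mog) (C1 := cd0q0) (C2 := cd2q1) (C3 := pd1)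
    rfl k0_mm_011

noncomputable def f_mm_012_a : ℕ → ℕ → ℕ → ℕ → Bool := onCell 0 536870912 0 536870912 780900216 37827925
    (rowB 3 eng mog cd0q0 cd2q2a pd1 0 false false false .pnp 0 1 2 (qsf 0 536870912 0 536870912 1) ndB0q0 ndB2q2a pcB1 Cut.none Ext.none)

def k0_mm_012_a : ∃ t, chk3 f_mm_012_a t 1 1 1 = true :=
  ⟨(l 5), by decide +kernel⟩

theorem c_mm_012_a : CertB 0 536870912 0 536870912 780900216 37827925 3 eng mog cd0q0 cd2q2a pd1 false false false .pnp 0 1 2
    ndB0q0 ndB2q2a pcB1 Cut.none Ext.none :=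
  certB0 (fam := false) (s1 := false) (s2 := false) (a := 0) (b := 1) (c := 2) (cn := .pnp) (n1 := ndB0q0) (n2 := ndB2q2a) (pc := pcB1) (cut := Cut.none) (xt := Ext.none) (P1 := 0) (W1 := 536870912) (P2 := 0) (W2 := 536870912) (P3 := 780900216) (W3 := 37827925) (N0 := 3) (En := eng) (mo := mog) (C1 := cd0q0) (C2 := cd2q2a) (C3 := pd1)
    rfl k0_mm_012_a

noncomputable def f_mm_012_b : ℕ → ℕ → ℕ → ℕ → Bool := onCell 0 536870912 1239849684 370763052 780900216 37827925
    (rowB 3 eng mog cd0q0 cd2q2b pd1 0 false false false .pnp 0 1 2 (qsf 0 536870912 1239849684 370763052 1) ndB0q0 ndB2q2b pcB1 Cut.none Ext.none)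

def k0_mm_012_b : ∃ t, chk3 f_mm_012_b t 1 1 1 = true :=
  ⟨(l 5), by decide +kernel⟩

theorem c_mm_012_b : CertB 0 536870912 1239849684 370763052 780900216 37827925 3 eng mog cd0q0 cd2q2b pd1 false false false .pnp 0 1 2
    ndB0q0 ndB2q2b pcB1 Cut.none Ext.none :=
  certB0 (fam := false) (s1 := false) (s2 := false) (a := 0) (b := 1) (c := 2) (cn := .pnp) (n1 := ndB0q0) (n2 := ndB2q2b) (pc := pcB1) (cut := Cut.none) (xt := Ext.none) (P1 := 0) (W1 := 536870912) (P2 := 1239849684) (W2 := 370763052) (P3 := 780900216) (W3 := 37827925) (N0 := 3) (En := eng) (mo := mog) (C1 := cd0q0) (C2 := cd2q2b) (C3 := pd1)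
    rfl k0_mm_012_b

noncomputable def f_mm_022_a : ℕ → ℕ → ℕ → ℕ → Bool := onCell 0 536870912 0 536870912 780900216 37827925
    (rowB 3 eng mog cd0q0 cd2q2a pd2 0 false false false .pp 0 2 2 (qsf 0 536870912 0 536870912 2) ndB0q0 ndB2q2a pcB2 Cut.none Ext.none)

def k0_mm_022_a : ∃ t, chk3 f_mm_022_a t 1 1 1 = true :=
  ⟨(l 5), by decide +kernel⟩

theorem c_mm_022_a : CertB 0 536870912 0 536870912 780900216 37827925 3 eng mog cd0q0 cd2q2a pd2 false false false .pp 0 2 2
    ndB0q0 ndB2q2a pcB2 Cut.none Ext.none :=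
  certB0 (fam := false) (s1 := false) (s2 := false) (a := 0) (b := 2) (c := 2) (cn := .pp) (n1 := ndB0q0) (n2 := ndB2q2a) (pc := pcB2) (cut := Cut.none) (xt := Ext.none) (P1 := 0) (W1 := 536870912) (P2 := 0) (W2 := 536870912) (P3 := 780900216) (W3 := 37827925) (N0 := 3) (En := eng) (mo := mog) (C1 := cd0q0) (C2 := cd2q2a) (C3 := pd2)
    rfl k0_mm_022_a

noncomputable def f_mm_022_b : ℕ → ℕ → ℕ → ℕ → Bool := onCell 0 536870912 1239849684 370763052 780900216 37827925
    (rowB 3 eng mog cd0q0 cd2q2b pd2 0 false false false .pp 0 2 2 (qsf 0 536870912 1239849684 370763052 2) ndB0q0 ndB2q2b pcB2 Cut.none Ext.none)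

def k0_mm_022_b : ∃ t, chk3 f_mm_022_b t 1 1 1 = true :=
  ⟨(l 5), by decide +kernel⟩

theorem c_mm_022_b : CertB 0 536870912 1239849684 370763052 780900216 37827925 3 eng mog cd0q0 cd2q2b pd2 false false false .pp 0 2 2
    ndB0q0 ndB2q2b pcB2 Cut.none Ext.none :=
  certB0 (fam := false) (s1 := false) (s2 := false) (a := 0) (b := 2) (c := 2) (cn := .pp) (n1 := ndB0q0) (n2 := ndB2q2b) (pc := pcB2) (cut := Cut.none) (xt := Ext.none) (P1 := 0) (W1 := 536870912) (P2 := 1239849684) (W2 := 370763052) (P3 := 780900216) (W3 := 37827925) (N0 := 3) (En := eng) (mo := mog) (C1 := cd0q0) (C2 := cd2q2b) (C3 := pd2)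
    rfl k0_mm_022_b

noncomputable def f_mm_023 : ℕ → ℕ → ℕ → ℕ → Bool := onCell 0 536870912 1610612736 536870912 780900216 37827925
    (rowB 3 eng mog cd0q0 cd2q3 pd2 0 false false false .up 0 2 3 (qsf 0 536870912 1610612736 536870912 2) ndB0q0 ndB2q3 pcB2 Cut.none Ext.none)

def k0_mm_023 : ∃ t, chk3 f_mm_023 t 1 1 1 = true :=
  ⟨(l 5), by decide +kernel⟩

theorem c_mm_023 : CertB 0 536870912 1610612736 536870912 780900216 37827925 3 eng mog cd0q0 cd2q3 pd2 false false false .up 0 2 3
    ndB0q0 ndB2q3 pcB2 Cut.none Ext.none :=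
  certB0 (fam := false) (s1 := false) (s2 := false) (a := 0) (b := 2) (c := 3) (cn := .up) (n1 := ndB0q0) (n2 := ndB2q3) (pc := pcB2) (cut := Cut.none) (xt := Ext.none) (P1 := 0) (W1 := 536870912) (P2 := 1610612736) (W2 := 536870912) (P3 := 780900216) (W3 := 37827925) (N0 := 3) (En := eng) (mo := mog) (C1 := cd0q0) (C2 := cd2q3) (C3 := pd2)
    rfl k0_mm_023

noncomputable def f_mm_033 : ℕ → ℕ → ℕ → ℕ → Bool := onCell 0 536870912 1610612736 536870912 780900216 37827925
    (rowB 3 eng mog cd0q0 cd2q3 pd3 0 false false false .pnn 0 3 3 (qsf 0 536870912 1610612736 536870912 3) ndB0q0 ndB2q3 pcB3 Cut.none Ext.none)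

def k0_mm_033 : ∃ t, chk3 f_mm_033 t 1 1 1 = true :=
  ⟨(l 5), by decide +kernel⟩

theorem c_mm_033 : CertB 0 536870912 1610612736 536870912 780900216 37827925 3 eng mog cd0q0 cd2q3 pd3 false false false .pnn 0 3 3
    ndB0q0 ndB2q3 pcB3 Cut.none Ext.none :=
  certB0 (fam := false) (s1 := false) (s2 := false) (a := 0) (b := 3) (c := 3) (cn := .pnn) (n1 := ndB0q0) (n2 := ndB2q3) (pc := pcB3) (cut := Cut.none) (xt := Ext.none) (P1 := 0) (W1 := 536870912) (P2 := 1610612736) (W2 := 536870912) (P3 := 780900216) (W3 := 37827925) (N0 := 3) (En := eng) (mo := mog) (C1 := cd0q0) (C2 := cd2q3) (C3 := pd3)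
    rfl k0_mm_033

noncomputable def f_mm_101 : ℕ → ℕ → ℕ → ℕ → Bool := onCell 536870912 536870912 536870912 536870912 780900216 37827925
    (rowB 3 eng mog cd0q1 cd2q1 pd0 0 false false false .npn 1 0 1 (qsf 536870912 536870912 536870912 536870912 0) ndB0q1 ndB2q1 pcB0 Cut.none Ext.none)

def k0_mm_101 : ∃ t, chk3 f_mm_101 t 1 1 1 = true :=
  ⟨(l 3), by decide +kernel⟩

theorem c_mm_101 : CertB 536870912 536870912 536870912 536870912 780900216 37827925 3 eng mog cd0q1 cd2q1 pd0 false false false .npn 1 0 1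
    ndB0q1 ndB2q1 pcB0 Cut.none Ext.none :=
  certB0 (fam := false) (s1 := false) (s2 := false) (a := 1) (b := 0) (c := 1) (cn := .npn) (n1 := ndB0q1) (n2 := ndB2q1) (pc := pcB0) (cut := Cut.none) (xt := Ext.none) (P1 := 536870912) (W1 := 536870912) (P2 := 536870912) (W2 := 536870912) (P3 := 780900216) (W3 := 37827925) (N0 := 3) (En := eng) (mo := mog) (C1 := cd0q1) (C2 := cd2q1) (C3 := pd0)
    rfl k0_mm_101

noncomputable def f_mm_102_a : ℕ → ℕ → ℕ → ℕ → Bool := onCell 536870912 536870912 0 536870912 780900216 37827925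
    (rowB 3 eng mog cd0q1 cd2q2a pd0 0 false false false .npp 1 0 2 (qsf 536870912 536870912 0 536870912 0) ndB0q1 ndB2q2a pcB0 Cut.none Ext.none)

def k0_mm_102_a : ∃ t, chk3 f_mm_102_a t 1 1 1 = true :=
  ⟨(l 3), by decide +kernel⟩

theorem c_mm_102_a : CertB 536870912 536870912 0 536870912 780900216 37827925 3 eng mog cd0q1 cd2q2a pd0 false false false .npp 1 0 2
    ndB0q1 ndB2q2a pcB0 Cut.none Ext.none :=
  certB0 (fam := false) (s1 := false) (s2 := false) (a := 1) (b := 0) (c := 2) (cn := .npp) (n1 := ndB0q1) (n2 := ndB2q2a) (pc := pcB0) (cut := Cut.none) (xt := Ext.none) (P1 := 536870912) (W1 := 536870912) (P2 := 0) (W2 := 536870912) (P3 := 780900216) (W3 := 37827925) (N0 := 3) (En := eng) (mo := mog) (C1 := cd0q1) (C2 := cd2q2a) (C3 := pd0)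
    rfl k0_mm_102_a

noncomputable def f_mm_102_b : ℕ → ℕ → ℕ → ℕ → Bool := onCell 536870912 536870912 1239849684 370763052 780900216 37827925
    (rowB 3 eng mog cd0q1 cd2q2b pd0 0 false false false .npp 1 0 2 (qsf 536870912 536870912 1239849684 370763052 0) ndB0q1 ndB2q2b pcB0 Cut.none Ext.none)

def k0_mm_102_b : ∃ t, chk3 f_mm_102_b t 1 1 1 = true :=
  ⟨(l 5), by decide +kernel⟩

theorem c_mm_102_b : CertB 536870912 536870912 1239849684 370763052 780900216 37827925 3 eng mog cd0q1 cd2q2b pd0 false false false .npp 1 0 2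
    ndB0q1 ndB2q2b pcB0 Cut.none Ext.none :=
  certB0 (fam := false) (s1 := false) (s2 := false) (a := 1) (b := 0) (c := 2) (cn := .npp) (n1 := ndB0q1) (n2 := ndB2q2b) (pc := pcB0) (cut := Cut.none) (xt := Ext.none) (P1 := 536870912) (W1 := 536870912) (P2 := 1239849684) (W2 := 370763052) (P3 := 780900216) (W3 := 37827925) (N0 := 3) (En := eng) (mo := mog) (C1 := cd0q1) (C2 := cd2q2b) (C3 := pd0)
    rfl k0_mm_102_b

noncomputable def f_mm_112_a : ℕ → ℕ → ℕ → ℕ → Bool := onCell 536870912 536870912 0 536870912 780900216 37827925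
    (rowB 3 eng mog cd0q1 cd2q2a pd1 0 false false false .dn 1 1 2 (qsf 536870912 536870912 0 536870912 1) ndB0q1 ndB2q2a pcB1 Cut.none Ext.none)

def k0_mm_112_a : ∃ t, chk3 f_mm_112_a t 1 1 1 = true :=
  ⟨(l 3), by decide +kernel⟩

theorem c_mm_112_a : CertB 536870912 536870912 0 536870912 780900216 37827925 3 eng mog cd0q1 cd2q2a pd1 false false false .dn 1 1 2
    ndB0q1 ndB2q2a pcB1 Cut.none Ext.none :=
  certB0 (fam := false) (s1 := false) (s2 := false) (a := 1) (b := 1) (c := 2) (cn := .dn) (n1 := ndB0q1) (n2 := ndB2q2a) (pc := pcB1) (cut := Cut.none) (xt := Ext.none) (P1 := 536870912) (W1 := 536870912) (P2 := 0) (W2 := 536870912) (P3 := 780900216) (W3 := 37827925) (N0 := 3) (En := eng) (mo := mog) (C1 := cd0q1) (C2 := cd2q2a) (C3 := pd1)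
    rfl k0_mm_112_a

noncomputable def f_mm_112_b : ℕ → ℕ → ℕ → ℕ → Bool := onCell 536870912 536870912 1239849684 370763052 780900216 37827925
    (rowB 3 eng mog cd0q1 cd2q2b pd1 0 false false false .dn 1 1 2 (qsf 536870912 536870912 1239849684 370763052 1) ndB0q1 ndB2q2b pcB1 Cut.none Ext.none)

def k0_mm_112_b : ∃ t, chk3 f_mm_112_b t 1 1 1 = true :=
  ⟨(l 5), by decide +kernel⟩

theorem c_mm_112_b : CertB 536870912 536870912 1239849684 370763052 780900216 37827925 3 eng mog cd0q1 cd2q2b pd1 false false false .dn 1 1 2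
    ndB0q1 ndB2q2b pcB1 Cut.none Ext.none :=
  certB0 (fam := false) (s1 := false) (s2 := false) (a := 1) (b := 1) (c := 2) (cn := .dn) (n1 := ndB0q1) (n2 := ndB2q2b) (pc := pcB1) (cut := Cut.none) (xt := Ext.none) (P1 := 536870912) (W1 := 536870912) (P2 := 1239849684) (W2 := 370763052) (P3 := 780900216) (W3 := 37827925) (N0 := 3) (En := eng) (mo := mog) (C1 := cd0q1) (C2 := cd2q2b) (C3 := pd1)
    rfl k0_mm_112_b

noncomputable def f_mm_113 : ℕ → ℕ → ℕ → ℕ → Bool := onCell 536870912 536870912 1610612736 536870912 780900216 37827925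
    (rowB 3 eng mog cd0q1 cd2q3 pd1 0 false false false .nn 1 1 3 (qsf 536870912 536870912 1610612736 536870912 1) ndB0q1 ndB2q3 pcB1 Cut.none Ext.none)

def k0_mm_113 : ∃ t, chk3 f_mm_113 t 1 1 1 = true :=
  ⟨(l 5), by decide +kernel⟩

theorem c_mm_113 : CertB 536870912 536870912 1610612736 536870912 780900216 37827925 3 eng mog cd0q1 cd2q3 pd1 false false false .nn 1 1 3
    ndB0q1 ndB2q3 pcB1 Cut.none Ext.none :=
  certB0 (fam := false) (s1 := false) (s2 := false) (a := 1) (b := 1) (c := 3) (cn := .nn) (n1 := ndB0q1) (n2 := ndB2q3) (pc := pcB1) (cut := Cut.none) (xt := Ext.none) (P1 := 536870912) (W1 := 536870912) (P2 := 1610612736) (W2 := 536870912) (P3 := 780900216) (W3 := 37827925) (N0 := 3) (En := eng) (mo := mog) (C1 := cd0q1) (C2 := cd2q3) (C3 := pd1)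
    rfl k0_mm_113

noncomputable def f_mm_123 : ℕ → ℕ → ℕ → ℕ → Bool := onCell 536870912 536870912 1610612736 536870912 780900216 37827925
    (rowB 3 eng mog cd0q1 cd2q3 pd2 0 false false false .npn 1 2 3 (qsf 536870912 536870912 1610612736 536870912 2) ndB0q1 ndB2q3 pcB2 Cut.none Ext.none)

def k0_mm_123 : ∃ t, chk3 f_mm_123 t 1 1 1 = true :=
  ⟨(l 5), by decide +kernel⟩

theorem c_mm_123 : CertB 536870912 536870912 1610612736 536870912 780900216 37827925 3 eng mog cd0q1 cd2q3 pd2 false false false .npn 1 2 3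
    ndB0q1 ndB2q3 pcB2 Cut.none Ext.none :=
  certB0 (fam := false) (s1 := false) (s2 := false) (a := 1) (b := 2) (c := 3) (cn := .npn) (n1 := ndB0q1) (n2 := ndB2q3) (pc := pcB2) (cut := Cut.none) (xt := Ext.none) (P1 := 536870912) (W1 := 536870912) (P2 := 1610612736) (W2 := 536870912) (P3 := 780900216) (W3 := 37827925) (N0 := 3) (En := eng) (mo := mog) (C1 := cd0q1) (C2 := cd2q3) (C3 := pd2)
    rfl k0_mm_123

noncomputable def f_mm_133 : ℕ → ℕ → ℕ → ℕ → Bool := onCell 536870912 536870912 1610612736 536870912 780900216 37827925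
    (rowB 3 eng mog cd0q1 cd2q3 pd3 0 false false false .dn 1 3 3 (qsf 536870912 536870912 1610612736 536870912 3) ndB0q1 ndB2q3 pcB3 Cut.none Ext.none)

def k0_mm_133 : ∃ t, chk3 f_mm_133 t 1 1 1 = true :=
  ⟨(l 5), by decide +kernel⟩

theorem c_mm_133 : CertB 536870912 536870912 1610612736 536870912 780900216 37827925 3 eng mog cd0q1 cd2q3 pd3 false false false .dn 1 3 3
    ndB0q1 ndB2q3 pcB3 Cut.none Ext.none :=
  certB0 (fam := false) (s1 := false) (s2 := false) (a := 1) (b := 3) (c := 3) (cn := .dn) (n1 := ndB0q1) (n2 := ndB2q3) (pc := pcB3) (cut := Cut.none) (xt := Ext.none) (P1 := 536870912) (W1 := 536870912) (P2 := 1610612736) (W2 := 536870912) (P3 := 780900216) (W3 := 37827925) (N0 := 3) (En := eng) (mo := mog) (C1 := cd0q1) (C2 := cd2q3) (C3 := pd3)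
    rfl k0_mm_133

noncomputable def f_mm_202_a : ℕ → ℕ → ℕ → ℕ → Bool := onCell 0 536870912 0 536870912 780900216 37827925
    (rowB 3 eng mog cd0q2 cd2q2a pd0 0 false false false .pp 2 0 2 (qsf 0 536870912 0 536870912 0) ndB0q2 ndB2q2a pcB0 Cut.none Ext.none)

def k0_mm_202_a : ∃ t, chk3 f_mm_202_a t 1 1 1 = true :=
  ⟨(l 3), by decide +kernel⟩

theorem c_mm_202_a : CertB 0 536870912 0 536870912 780900216 37827925 3 eng mog cd0q2 cd2q2a pd0 false false false .pp 2 0 2
    ndB0q2 ndB2q2a pcB0 Cut.none Ext.none :=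
  certB0 (fam := false) (s1 := false) (s2 := false) (a := 2) (b := 0) (c := 2) (cn := .pp) (n1 := ndB0q2) (n2 := ndB2q2a) (pc := pcB0) (cut := Cut.none) (xt := Ext.none) (P1 := 0) (W1 := 536870912) (P2 := 0) (W2 := 536870912) (P3 := 780900216) (W3 := 37827925) (N0 := 3) (En := eng) (mo := mog) (C1 := cd0q2) (C2 := cd2q2a) (C3 := pd0)
    rfl k0_mm_202_a

noncomputable def f_mm_202_b : ℕ → ℕ → ℕ → ℕ → Bool := onCell 0 536870912 1239849684 370763052 780900216 37827925
    (rowB 3 eng mog cd0q2 cd2q2b pd0 0 false false false .pp 2 0 2 (qsf 0 536870912 1239849684 370763052 0) ndB0q2 ndB2q2b pcB0 Cut.none Ext.none)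

def k0_mm_202_b : ∃ t, chk3 f_mm_202_b t 1 1 1 = true :=
  ⟨(l 3), by decide +kernel⟩

theorem c_mm_202_b : CertB 0 536870912 1239849684 370763052 780900216 37827925 3 eng mog cd0q2 cd2q2b pd0 false false false .pp 2 0 2
    ndB0q2 ndB2q2b pcB0 Cut.none Ext.none :=
  certB0 (fam := false) (s1 := false) (s2 := false) (a := 2) (b := 0) (c := 2) (cn := .pp) (n1 := ndB0q2) (n2 := ndB2q2b) (pc := pcB0) (cut := Cut.none) (xt := Ext.none) (P1 := 0) (W1 := 536870912) (P2 := 1239849684) (W2 := 370763052) (P3 := 780900216) (W3 := 37827925) (N0 := 3) (En := eng) (mo := mog) (C1 := cd0q2) (C2 := cd2q2b) (C3 := pd0)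
    rfl k0_mm_202_b

noncomputable def f_mm_203 : ℕ → ℕ → ℕ → ℕ → Bool := onCell 0 536870912 0 536870912 780900216 37827925
    (rowB 3 eng mog cd0q2 cd2q3 pd0 1 false false false .up 2 0 3 (qsf 0 536870912 1610612736 536870912 0) ndB0q2 ndB2q3 pcB0 Cut.none Ext.none)

def k0_mm_203 : ∃ t, chk3 f_mm_203 t 1 1 1 = true :=
  ⟨(l 3), by decide +kernel⟩

theorem c_mm_203 : CertB 0 536870912 1610612736 536870912 780900216 37827925 3 eng mog cd0q2 cd2q3 pd0 false false false .up 2 0 3
    ndB0q2 ndB2q3 pcB0 Cut.none Ext.none :=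
  certB1 (fam := false) (s1 := false) (s2 := false) (a := 2) (b := 0) (c := 3) (cn := .up) (n1 := ndB0q2) (n2 := ndB2q3) (pc := pcB0) (cut := Cut.none) (xt := Ext.none) (P1 := 0) (W1 := 536870912) (P2 := 1610612736) (W2 := 536870912) (P3 := 780900216) (W3 := 37827925) (N0 := 3) (En := eng) (mo := mog) (C1 := cd0q2) (C2 := cd2q3) (C3 := pd0)
    rfl (fun _ => rfl) k0_mm_203

noncomputable def f_mm_213 : ℕ → ℕ → ℕ → ℕ → Bool := onCell 0 536870912 1610612736 536870912 780900216 37827925
    (rowB 3 eng mog cd0q2 cd2q3 pd1 0 false false false .pnn 2 1 3 (qsf 0 536870912 1610612736 536870912 1) ndB0q2 ndB2q3 pcB1 Cut.none Ext.none)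

def k0_mm_213 : ∃ t, chk3 f_mm_213 t 1 1 1 = true :=
  ⟨(a (l 3) (l 5)), by decide +kernel⟩

theorem c_mm_213 : CertB 0 536870912 1610612736 536870912 780900216 37827925 3 eng mog cd0q2 cd2q3 pd1 false false false .pnn 2 1 3
    ndB0q2 ndB2q3 pcB1 Cut.none Ext.none :=
  certB0 (fam := false) (s1 := false) (s2 := false) (a := 2) (b := 1) (c := 3) (cn := .pnn) (n1 := ndB0q2) (n2 := ndB2q3) (pc := pcB1) (cut := Cut.none) (xt := Ext.none) (P1 := 0) (W1 := 536870912) (P2 := 1610612736) (W2 := 536870912) (P3 := 780900216) (W3 := 37827925) (N0 := 3) (En := eng) (mo := mog) (C1 := cd0q2) (C2 := cd2q3) (C3 := pd1)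
    rfl k0_mm_213

end Pool.Agent.Strip051.G.I72727_7625.Tab.C.BB02

namespace Pool.Agent.Strip051.G.I72727_7625.Tab.C.BB03

open Pool.Agent.Strip051.PB Pool.Agent.Strip051.PB.T
open Pool.Agent.Strip051.G.I72727_7625.Tab

noncomputable def f_pp_001 : ℕ → ℕ → ℕ → ℕ → Bool := onCell 0 536870912 0 536870912 780900216 37827925
    (rowB 3 eng mog cd0q0 cd3q1 pd0 1 false true true .up 0 0 1 (qsf 0 536870912 536870912 536870912 0) ndB0q0 ndB3q1 pcB0 Cut.none Ext.none)

def k0_pp_001 : ∃ t, chk3 f_pp_001 t 1 1 1 = true :=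
  ⟨(l 3), by decide +kernel⟩

theorem c_pp_001 : CertB 0 536870912 536870912 536870912 780900216 37827925 3 eng mog cd0q0 cd3q1 pd0 false true true .up 0 0 1
    ndB0q0 ndB3q1 pcB0 Cut.none Ext.none :=
  certB1 (fam := false) (s1 := true) (s2 := true) (a := 0) (b := 0) (c := 1) (cn := .up) (n1 := ndB0q0) (n2 := ndB3q1) (pc := pcB0) (cut := Cut.none) (xt := Ext.none) (P1 := 0) (W1 := 536870912) (P2 := 536870912) (W2 := 536870912) (P3 := 780900216) (W3 := 37827925) (N0 := 3) (En := eng) (mo := mog) (C1 := cd0q0) (C2 := cd3q1) (C3 := pd0)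
    rfl (fun _ => rfl) k0_pp_001

noncomputable def cut_pp_011 : Cut := Cut.of [[⟨0, 0, 0, 67108864⟩, ⟨1, 1, 0, 67108864⟩, ⟨2, 1, 0, 67108864⟩]]

noncomputable def f_pp_011 : ℕ → ℕ → ℕ → ℕ → Bool := onCell 0 536870912 536870912 536870912 780900216 37827925
    (rowB 3 eng mog cd0q0 cd3q1 pd1 1 false true true .pnn 0 1 1 (qsf 0 536870912 536870912 536870912 1) ndB0q0 ndB3q1 pcB1 cut_pp_011 Ext.none)

def k0_pp_011 : ∃ t, chk3 f_pp_011 t 1 1 1 = true :=
  ⟨(b (l 3) (a (b (l 3) (a (b (l 3) (a (b (l 3) (a (l 6) (l 3))) (l 3))) (l 3))) (l 3))), by decide +kernel⟩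

theorem c_pp_011 : CertB 0 536870912 536870912 536870912 780900216 37827925 3 eng mog cd0q0 cd3q1 pd1 false true true .pnn 0 1 1
    ndB0q0 ndB3q1 pcB1 cut_pp_011 Ext.none :=
  certB1 (fam := false) (s1 := true) (s2 := true) (a := 0) (b := 1) (c := 1) (cn := .pnn) (n1 := ndB0q0) (n2 := ndB3q1) (pc := pcB1) (cut := cut_pp_011) (xt := Ext.none) (P1 := 0) (W1 := 536870912) (P2 := 536870912) (W2 := 536870912) (P3 := 780900216) (W3 := 37827925) (N0 := 3) (En := eng) (mo := mog) (C1 := cd0q0) (C2 := cd3q1) (C3 := pd1)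
    rfl (fun _ => rfl) k0_pp_011

noncomputable def f_pp_012 : ℕ → ℕ → ℕ → ℕ → Bool := onCell 0 536870912 536870912 536870912 780900216 37827925
    (rowB 3 eng mog cd0q0 cd3q2 pd1 1 false true true .pnp 0 1 2 (qsf 0 536870912 1073741824 536870912 1) ndB0q0 ndB3q2 pcB1 Cut.none Ext.none)

def k0_pp_012 : ∃ t, chk3 f_pp_012 t 1 1 1 = true :=
  ⟨(l 3), by decide +kernel⟩

theorem c_pp_012 : CertB 0 536870912 1073741824 536870912 780900216 37827925 3 eng mog cd0q0 cd3q2 pd1 false true true .pnp 0 1 2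
    ndB0q0 ndB3q2 pcB1 Cut.none Ext.none :=
  certB1 (fam := false) (s1 := true) (s2 := true) (a := 0) (b := 1) (c := 2) (cn := .pnp) (n1 := ndB0q0) (n2 := ndB3q2) (pc := pcB1) (cut := Cut.none) (xt := Ext.none) (P1 := 0) (W1 := 536870912) (P2 := 1073741824) (W2 := 536870912) (P3 := 780900216) (W3 := 37827925) (N0 := 3) (En := eng) (mo := mog) (C1 := cd0q0) (C2 := cd3q2) (C3 := pd1)
    rfl (fun _ => rfl) k0_pp_012

end Pool.Agent.Strip051.G.I72727_7625.Tab.C.BB03

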