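import Pool.Agent.Strip051.G.I72727_7625.Tab
import Pool.Agent.Strip051.PB.ExtD2

/-! # Certificates B12 (generated) -/

set_option linter.all false
set_option maxRecDepth 100000

namespace Pool.Agent.Strip051.G.I72727_7625.Tab.C.BB03

open Pool.Agent.Strip051.PB Pool.Agent.Strip051.PB.T
open Pool.Agent.Strip051.G.I72727_7625.Tab

noncomputable def f_pp_022 : ℕ → ℕ → ℕ → ℕ → Bool := onCell 0 536870912 1073741824 536870912 780900216 37827925
    (rowB 3 eng mog cd0q0 cd3q2 pd2 1 false true true .pp 0 2 2 (qsf 0 536870912 1073741824 536870912 2) ndB0q0 ndB3q2 pcB2 Cut.none Ext.none)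

def k0_pp_022 : ∃ t, chk3 f_pp_022 t 2 4 1 = true :=
  ⟨(b (l 3) (a (b (b (l 3) (b (l 3) (a (a (l 3) (a (l 16544072) (l 16537296))) (a (l 16547600) (l 103246320583))))) (a (a (b (b (a (a (l 16541128) (l 16543568)) (l 16519728)) (a (a (l 16532848) (l 16490232)) (l 16508256))) (b (a (b (l 16466344) (l 16449496)) (b (l 16463496) (l 16447320))) (a (b (l 16432872) (l 16416496)) (c (l 16430840) (l 16416064))))) (a (b (b (l 16514072) (l 16503928)) (b (l 16452640) (l 16422328))) (b (b (l 16508224) (l 16478600)) (b (l 16449664) (l 16420880))))) (b (a (b (l 16499160) (b (l 16478560) (l 16465384))) (b (l 16488920) (c (l 16466488) (l 16462888)))) (a (b (l 16444960) (a (l 16419280) (l 16417616))) (c (l 16451696) (l 16426216)))))) (b (b (l 3) (a (a (b (l 3) (l 16520736)) (b (l 16526168) (l 16506856))) (a (b (l 16522168) (l 16505728)) (b (l 16507216) (l 16503024))))) (a (b (a (b (a (l 16485320) (l 16485464)) (c (l 16462800) (l 16465264))) (b (c (l 16483360) (l 16492392))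 (c (l 16464848) (l 16473624)))) (a (b (l 16505304) (l 16442400)) (c (l 16437400) (l 16446056)))) (b (a (b (c (l 16482736) (l 16497424)) (c (l 16466952) (l 16481632))) (b (c (l 16481376) (l 16499752)) (l 16477208))) (a (c (l 16464968) (l 16458552)) (c (l 16429080) (l 16468576)))))))), by decide +kernel⟩

def k1_pp_022 : ∃ t, chk3 f_pp_022 t 3 4 1 = true :=
  ⟨(b (a (l 3) (l 3)) (a (b (a (a (b (l 3) (b (l 16490144) (l 16494496))) (b (c (l 16486248) (l 270750114039)) (b (l 16474912) (l 16479752)))) (a (b (c (l 16470536) (l 225116108263)) (b (l 16461880) (l 16466528))) (b (c (l 16455560) (l 16434960)) (b (l 16450560) (l 16454880))))) (c (a (b (b (l 16551904) (l 16470000)) (a (l 16455912) (l 16459928))) (b (a (l 16467912) (l 16459640)) (l 16457216))) (a (b (a (l 16488496) (l 16477120)) (l 16478120)) (b (a (l 16465696) (l 16456600)) (l 16462880))))) (b (a (a (b (c (l 16441520) (l 16423216)) (b (l 16461104) (l 16444728))) (b (c (l 16429160) (l 16413784)) (b (l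 16431488) (l 16436808)))) (a (a (b (b (l 16416648) (l 2)) (l 2)) (l 2)) (l 2))) (a (b (a (c (l 16448536) (l 16448480)) (l 16485312)) (a (l 16448264) (l 2))) (l 2))))), by decide +kernel⟩

def k2_pp_022 : ∃ t, chk3 f_pp_022 t 4 10 1 = true :=
  ⟨(b (a (b (a (b (a (c (l 16400632) (l 16383808)) (l 16413760)) (a (a (l 16360568) (l 16361584)) (c (l 16370480) (l 16355688)))) (b (a (l 16392976) (l 16392960)) (a (l 16365008) (l 16366736)))) (b (a (a (b (a (l 16339688) (l 16341776)) (l 16331984)) (b (l 16344784) (l 16336240))) (l 16387864)) (a (b (a (c (l 16332088) (l 16317352)) (l 16328992)) (b (a (a (l 16320248) (l 16322416)) (l 16325424)) (a (a (c (b (c (l 16352120) (l 16323928)) (l 16326280)) (l 16311480)) (l 16341768)) (l 16323664)))) (b (a (l 16332760) (l 16336056)) (a (b (l 16329016) (l 16327080)) (b (l 16332160) (l 16330048))))))) (b (a (b (l 16413504) (a (l 16368304) (l 16369792))) (b (l 16393568) (l 16373464))) (a (b (l 16372336) (b (l 16340120) (b (l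 16336000) (l 16333648)))) (b (l 16357224) (b (l 16346240) (l 16424256)))))) (a (a (a (b (c (a (l 16299984) (l 16302200)) (l 16287464)) (c (a (l 16252432) (l 16255680)) (l 16240856))) (b (c (l 16305296) (l 16292992)) (a (l 16252456) (l 16255696)))) (a (b (l 16345336) (l 16260304)) (b (l 16307256) (l 16266032)))) (a (a (l 16353648) (l 16357648)) (c (l 16301520) (l 16303064))))), by decide +kernel⟩

def k3_pp_022 : ∃ t, chk3 f_pp_022 t 4 11 1 = true :=
  ⟨(a (a (b (b (a (a (c (l 16207416) (l 16194056)) (b (l 16215792) (l 16194328))) (c (l 16217304) (l 16206048))) (a (b (c (l 16177552) (l 16164792)) (c (l 16156776) (l 16144640))) (c (l 16176352) (l 16166448)))) (a (c (b (a (l 16123648) (l 16129368)) (a (l 16085080) (l 16091760))) (b (a (l 16112232) (l 16119128)) (l 16078864))) (c (b (l 16137688) (l 16101432)) (b (l 16129104) (l 16093816))))) (b (b (a (l 16219448) (l 16226976)) (a (l 16201784) (l 16190072))) (c (a (l 16172592) (l 16141416)) (a (l 16124800)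 (l 16137752))))) (c (a (b (a (l 16218328) (l 16224632)) (l 16198416)) (b (l 16235008) (l 16177080))) (a (b (l 16350664) (l 16155896)) (b (l 16237968) (l 16179824))))), by decide +kernel⟩

def k4_pp_022 : ∃ t, chk3 f_pp_022 t 5 5 1 = true :=
  ⟨(b (b (a (b (a (b (l 16464272) (l 16384016)) (b (l 16436192) (l 16399856))) (b (a (l 16368696) (l 16385344)) (a (b (l 16357984) (l 16372760)) (b (l 16374912) (l 16368392))))) (b (a (c (l 16414944) (l 16429672)) (l 16454480)) (b (a (l 16400960) (l 16414216)) (a (b (l 16390800) (l 16362984)) (b (l 16404312) (l 16397144)))))) (a (a (c (l 16313560) (l 16320600)) (l 16420064)) (a (c (l 16348520) (l 16363016)) (l 16371280)))) (a (b (a (c (l 16254336) (l 16261400)) (l 16388176)) (a (c (l 16203240) (l 16208600)) (l 16258208))) (c (a (l 16388512) (l 16330440)) (b (l 16348032) (l 16350320))))), by decide +kernel⟩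

def k5_pp_022 : ∃ t, chk3 f_pp_022 t 3 5 1 = true :=
  ⟨(a (b (b (a (b (a (l 16443536) (l 16449992)) (b (a (l 16425616) (l 16433440)) (a (l 16411824) (l 16419504)))) (b (a (l 16450264) (l 16444504)) (b (l 16433472) (a (l 16420920) (l 16416184))))) (a (a (l 16385752) (l 16396648)) (c (l 16400288) (l 16400272)))) (a (c (a (l 16355152) (l 16356256)) (a (l 16341104) (l 16358624))) (c (l 16399840) (l 16369840)))) (b (b (a (b (l 16431184) (l 2)) (l 2)) (l 2)) (l 2))), by decide +kernel⟩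

def k6_pp_022 : ∃ t, chk3 f_pp_022 t 4 3 1 = true :=
  ⟨(b (a (b (a (b (c (a (b (c (l 16056072) (l 16050048)) (c (l 16022896) (l 16016824))) (b (l 16067504) (l 16035912))) (a (b (l 16044056) (l 16011440)) (b (l 16060656) (l 16029544)))) (c (a (c (a (l 15973024) (l 15982528)) (l 15971304)) (b (l 16006736) (l 15980016))) (a (c (l 15967384) (l 15966048)) (l 15986416)))) (b (c (a (l 16087160) (l 16080392)) (a (l 16061464) (l 16077208))) (c (a (l 16011224) (l 16028688)) (l 16077624)))) (a (c (b (a (b (l 15976408) (l 15911048)) (c (l 15948992) (l 15940832))) (a (c (l 15886648) (l 15875288)) (l 15926304))) (b (b (l 15978376) (l 15911912)) (a (l 15865936) (l 15890512)))) (b (c (a (l 15965696) (l 15986144)) (l 15966824)) (c (a (l 15929328) (l 15952472)) (l 15925448))))) (b (a (b (c (l 16121552) (l 16099280)) (c (l 16053608) (l 16049416))) (b (c (l 16127736) (l 16128256)) (c (l 16086784) (l 16083032)))) (b (a (c (l 16015376) (l 16005976)) (l 16110192)) (a (c (l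 15985600) (l 15968648)) (l 16017984))))) (a (b (a (c (b (a (c (l 15856344) (l 15840536)) (l 15875280)) (b (l 15885928) (l 15834880))) (b (a (l 15825912) (l 15852464)) (a (l 15792264) (l 15820592)))) (b (c (l 15914632) (l 15890280)) (c (l 15896544) (l 15860976)))) (a (b (c (a (l 15809096) (l 15840808)) (a (l 15764632) (l 15794528))) (c (a (l 15802024) (l 15835432)) (a (l 15742592) (l 15773848)))) (b (c (l 15886272) (l 15837168)) (c (l 15883328) (l 15818432))))) (b (a (b (c (l 15963920) (l 15937128)) (l 15970144)) (b (l 15995192) (l 15978544))) (a (b (l 15914216) (l 2)) (l 2))))), by decide +kernel⟩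

def k7_pp_022 : ∃ t, chk3 f_pp_022 t 5 3 1 = true :=
  ⟨(b (a (b (a (b (c (l 16160184) (l 16161952)) (l 16142680)) (b (l 16197776) (l 16164744))) (a (b (l 16090296) (l 16065256)) (b (l 16137880) (l 16116896)))) (a (b (b (l 16234304) (l 16206128)) (b (l 16183608) (l 2))) (b (c (l 16258672) (l 16253808)) (l 2)))) (a (b (a (b (l 16046240) (l 2)) (l 2)) (l 2)) (l 2))), by decide +kernel⟩

def k8_pp_022 : ∃ t, chk3 f_pp_022 t 3 3 1 = true :=
  ⟨(b (a (a (b (c (b (l 16317752) (l 2)) (l 16298928)) (l 2)) (l 2)) (l 2)) (l 2)), by decide +kernel⟩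

theorem s9_pp_022 : ∃ t, chk3 f_pp_022 t 2 3 1 = true := ex3_a k6_pp_022 k7_pp_022

theorem s10_pp_022 : ∃ t, chk3 f_pp_022 t 1 3 1 = true := ex3_a s9_pp_022 k8_pp_022

theorem s11_pp_022 : ∃ t, chk3 f_pp_022 t 4 5 1 = true := ex3_b k2_pp_022 k3_pp_022

theorem s12_pp_022 : ∃ t, chk3 f_pp_022 t 2 5 1 = true := ex3_a s11_pp_022 k4_pp_022

theorem s13_pp_022 : ∃ t, chk3 f_pp_022 t 1 5 1 = true := ex3_a s12_pp_022 k5_pp_022

theorem s14_pp_022 : ∃ t, chk3 f_pp_022 t 1 4 1 = true := ex3_a k0_pp_022 k1_pp_022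

theorem s15_pp_022 : ∃ t, chk3 f_pp_022 t 1 2 1 = true := ex3_b s14_pp_022 s13_pp_022

theorem s16_pp_022 : ∃ t, chk3 f_pp_022 t 1 1 1 = true := ex3_b s15_pp_022 s10_pp_022

theorem c_pp_022 : CertB 0 536870912 1073741824 536870912 780900216 37827925 3 eng mog cd0q0 cd3q2 pd2 false true true .pp 0 2 2
    ndB0q0 ndB3q2 pcB2 Cut.none Ext.none :=
  certB1 (fam := false) (s1 := true) (s2 := true) (a := 0) (b := 2) (c := 2) (cn := .pp) (n1 := ndB0q0) (n2 := ndB3q2) (pc := pcB2) (cut := Cut.none) (xt := Ext.none) (P1 := 0) (W1 := 536870912) (P2 := 1073741824) (W2 := 536870912) (P3 := 780900216) (W3 := 37827925) (N0 := 3) (En := eng) (mo := mog) (C1 := cd0q0) (C2 := cd3q2) (C3 := pd2)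
    rfl (fun _ => rfl) s16_pp_022

noncomputable def f_pp_023 : ℕ → ℕ → ℕ → ℕ → Bool := onCell 1073741824 536870912 0 1230186008 780900216 37827925
    (rowB 3 eng mog cd0q0 cd3q3 pd2 2 false true true .up 0 2 3 (qsf 0 536870912 0 1230186008 2) ndB0q0 ndB3q3 pcB2 Cut.none Ext.none)

def k0_pp_023 : ∃ t, chk3 f_pp_023 t 1 2 1 = true :=
  ⟨(a (l 2) (a (l 2) (b (a (l 2) (l 16517184)) (a (l 16658296) (l 16656360))))), by decide +kernel⟩

def k1_pp_023 : ∃ t, chk3 f_pp_023 t 1 6 1 = true :=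
  ⟨(a (b (l 2) (a (l 2) (a (l 2) (b (l 2) (l 256724161287))))) (b (a (a (l 2) (l 16255928)) (a (l 16315528) (l 16326928))) (a (b (a (l 194446923847) (l 16401792)) (a (l 16370992) (l 16364760))) (b (a (l 16267040) (l 16329312)) (a (l 16338808) (b (l 16290488) (l 16261520))))))), by decide +kernel⟩

def k2_pp_023 : ∃ t, chk3 f_pp_023 t 2 7 1 = true :=
  ⟨(a (b (l 2) (a (b (l 2) (l 3)) (a (b (b (l 2) (a (a (l 496705659255) (l 16418552)) (l 16471392))) (b (a (c (a (l 16413624) (l 16419304)) (a (l 16401864) (l 16409344))) (c (l 16428040) (l 16423600))) (a (c (a (l 16419040) (l 16424464)) (a (l 16406008) (l 16413480))) (c (l 16430032) (a (l 16421752) (l 16431032)))))) (b (a (b (l 16440672) (l 16439336)) (b (l 16438432) (l 16437080))) (b (a (c (l 16435904) (l 16439048)) (l 16438960)) (a (c (l 16439640) (l 16443504)) (l 16445448))))))) (b (a (b (a (l 2) (l 256724419143)) (a (a (l 16438416) (a (l 16430176) (l 16419520))) (l 16407872))) (b (b (l 16411632) (l 16399096))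 (a (l 16395480) (l 16367040)))) (a (b (a (a (b (l 16432328) (l 16430056)) (b (l 16415432) (a (l 16420408) (l 16408344)))) (b (l 16399920) (l 16395376))) (a (a (b (l 16430792) (l 16436400)) (b (a (l 16420480) (l 16408040)) (a (l 16427072) (l 16414768)))) (b (l 16393552) (l 16401056)))) (a (b (l 16375440) (b (l 16385136) (l 16375480))) (b (b (l 16371144) (l 16371216)) (b (l 16360128) (l 16336152))))))), by decide +kernel⟩

def k3_pp_023 : ∃ t, chk3 f_pp_023 t 3 7 1 = true :=
  ⟨(b (a (b (a (b (l 16348080) (l 16357968)) (b (l 16353648) (l 16342840))) (a (a (l 16362520) (l 16353792)) (b (l 16325960) (l 16301696)))) (b (a (b (l 16308200) (l 16279960)) (b (l 16227456) (l 16313016))) (a (b (l 16247648) (l 16209392)) (b (l 16140272) (a (l 16121488) (l 16057560)))))) (a (b (a (b (l 16347544) (l 16327040)) (b (l 16271768) (a (l 16259552) (l 16203960)))) (a (a (b (l 16321832) (l 16285632)) (b (l 16272560) (a (l 16242536) (l 16211856)))) (b (a (l 16215808) (l 16153104))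 (a (l 16162872) (b (l 16108592) (l 16077488)))))) (b (a (b (a (l 16192120) (l 16132048)) (a (l 16142688) (l 16075856))) (b (a (l 16066664) (l 16001792)) (a (l 16009368) (l 15945424)))) (a (b (a (l 16084752) (l 16016808)) (a (b (l 16038968) (l 16007304)) (b (l 15971904) (l 15941280)))) (b (a (l 15951168) (b (l 15902280) (l 15871496))) (a (b (l 15906384) (l 15874448)) (b (l 15838992) (c (l 15838432) (l 15775928))))))))), by decide +kernel⟩

theorem s4_pp_023 : ∃ t, chk3 f_pp_023 t 1 7 1 = true := ex3_a k2_pp_023 k3_pp_023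

theorem s5_pp_023 : ∃ t, chk3 f_pp_023 t 1 3 1 = true := ex3_b k1_pp_023 s4_pp_023

theorem s6_pp_023 : ∃ t, chk3 f_pp_023 t 1 1 1 = true := ex3_b k0_pp_023 s5_pp_023

theorem c_pp_023 : CertB 0 536870912 0 1230186008 780900216 37827925 3 eng mog cd0q0 cd3q3 pd2 false true true .up 0 2 3
    ndB0q0 ndB3q3 pcB2 Cut.none Ext.none :=
  certB2 (fam := false) (s1 := true) (s2 := true) (a := 0) (b := 2) (c := 3) (cn := .up) (n1 := ndB0q0) (n2 := ndB3q3) (pc := pcB2) (cut := Cut.none) (xt := Ext.none) (P1 := 0) (W1 := 536870912) (P2 := 0) (W2 := 1230186008) (P3 := 780900216) (W3 := 37827925) (N0 := 3) (En := eng) (mo := mog) (C1 := cd0q0) (C2 := cd3q3) (C3 := pd2)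
    rfl (fun _ => rfl) s6_pp_023

noncomputable def f_pp_033 : ℕ → ℕ → ℕ → ℕ → Bool := onCell 1610612736 536870912 0 1230186008 780900216 37827925
    (rowB 3 eng mog cd0q0 cd3q3 pd3 2 false true true .pnn 0 3 3 (qsf 0 536870912 0 1230186008 3) ndB0q0 ndB3q3 pcB3 Cut.none Ext.none)

def k0_pp_033 : ∃ t, chk3 f_pp_033 t 1 2 1 = true :=
  ⟨(b (a (a (a (l 16524144) (l 16456488)) (a (l 16403304) (l 16338584))) (l 4)) (a (a (a (b (l 16505912) (l 16462384)) (b (l 16436056) (l 16376272))) (a (b (l 16360376) (l 16293088)) (b (l 16286080) (l 16175520)))) (a (a (b (l 16004936) (a (l 16137376) (l 16098528))) (l 4)) (l 4)))), by decide +kernel⟩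

def k1_pp_033 : ∃ t, chk3 f_pp_033 t 1 6 1 = true :=
  ⟨(a (b (a (a (l 16288448) (b (l 16310184) (l 16244680))) (a (b (l 16212288) (l 16134096)) (b (l 16116312) (l 16047552)))) (a (b (a (l 16212560) (l 16160376)) (a (a (l 16226896) (l 16161864)) (b (l 16087072) (l 16039680)))) (a (b (b (l 16073528) (l 16026208)) (b (l 15979792) (l 15928024))) (b (b (l 15986760) (l 15943912)) (a (l 15889424) (l 15853680)))))) (b (a (a (a (l 16024584) (l 15991944)) (a (l 15961696) (l 4))) (l 4)) (a (a (b (a (l 15915760) (l 15861632)) (a (l 15819112) (l 15783952))) (b (a (l 504690867367) (l 1)) (l 1))) (l 1)))), by decide +kernel⟩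

def k2_pp_033 : ∃ t, chk3 f_pp_033 t 1 7 1 = true :=
  ⟨(a (a (b (b (a (b (l 16124272) (a (l 16108664) (l 16036592))) (b (l 15989560) (a (l 15970128) (l 15908456)))) (a (a (b (l 16052848) (l 15995440)) (b (l 15982840) (l 15928840))) (a (b (l 15917608) (l 15864392)) (b (l 15856136) (l 15799600))))) (b (c (a (b (a (l 15984640) (l 15922408)) (a (l 15924792) (l 15861400))) (b (a (l 15858280) (l 120290815495)) (a (b (l 173977939831) (l 182567790535)) (b (l 272225157063) (l 1))))) (a (b (a (l 15895192) (l 15828344)) (a (l 15839920) (l 15769256))) (b (a (l 15760264) (l 110090047639)) (a (b (l 15711896) (l 174514488647)) (b (l 271151171191) (l 1)))))) (a (b (a (b (l 15833512) (a (l 15818096) (l 15781976))) (b (a (l 15780288) (l 183104682983)) (a (l 179346573207) (l 188473313751)))) (a (b (a (l 15783312) (l 175051589191)) (c (l 172904051623) (l 161092680503))) (b (a (l 180420234727) (l 1)) (l 1)))) (b (a (b (a (l 196526392071) (l 1)) (l 1)) (l 1)) (l 1))))) (b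 (a (b (b (l 15877176) (a (l 15851176) (l 15795176))) (b (a (l 15794856) (l 15732304)) (a (l 114385238871) (l 318932915623)))) (b (a (a (l 367788390295) (l 368325181895)) (l 367251381847)) (l 1))) (a (b (b (a (l 301216263143) (l 1)) (l 1)) (l 1)) (l 1)))) (l 1)), by decide +kernel⟩

theorem s3_pp_033 : ∃ t, chk3 f_pp_033 t 1 3 1 = true := ex3_b k1_pp_033 k2_pp_033

theorem s4_pp_033 : ∃ t, chk3 f_pp_033 t 1 1 1 = true := ex3_b k0_pp_033 s3_pp_033

theorem c_pp_033 : CertB 0 536870912 0 1230186008 780900216 37827925 3 eng mog cd0q0 cd3q3 pd3 false true true .pnn 0 3 3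
    ndB0q0 ndB3q3 pcB3 Cut.none Ext.none :=
  certB2 (fam := false) (s1 := true) (s2 := true) (a := 0) (b := 3) (c := 3) (cn := .pnn) (n1 := ndB0q0) (n2 := ndB3q3) (pc := pcB3) (cut := Cut.none) (xt := Ext.none) (P1 := 0) (W1 := 536870912) (P2 := 0) (W2 := 1230186008) (P3 := 780900216) (W3 := 37827925) (N0 := 3) (En := eng) (mo := mog) (C1 := cd0q0) (C2 := cd3q3) (C3 := pd3)
    rfl (fun _ => rfl) s4_pp_033

noncomputable def f_pp_101 : ℕ → ℕ → ℕ → ℕ → Bool := onCell 536870912 536870912 536870912 536870912 780900216 37827925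
    (rowB 3 eng mog cd0q1 cd3q1 pd0 0 false true true .npn 1 0 1 (qsf 536870912 536870912 536870912 536870912 0) ndB0q1 ndB3q1 pcB0 Cut.none Ext.none)

def k0_pp_101 : ∃ t, chk3 f_pp_101 t 1 1 1 = true :=
  ⟨(a (l 3) (l 5)), by decide +kernel⟩

theorem c_pp_101 : CertB 536870912 536870912 536870912 536870912 780900216 37827925 3 eng mog cd0q1 cd3q1 pd0 false true true .npn 1 0 1
    ndB0q1 ndB3q1 pcB0 Cut.none Ext.none :=
  certB0 (fam := false) (s1 := true) (s2 := true) (a := 1) (b := 0) (c := 1) (cn := .npn) (n1 := ndB0q1) (n2 := ndB3q1) (pc := pcB0) (cut := Cut.none) (xt := Ext.none) (P1 := 536870912) (W1 := 536870912) (P2 := 536870912) (W2 := 536870912) (P3 := 780900216) (W3 := 37827925) (N0 := 3) (En := eng) (mo := mog) (C1 := cd0q1) (C2 := cd3q1) (C3 := pd0)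
    rfl k0_pp_101

noncomputable def f_pp_102 : ℕ → ℕ → ℕ → ℕ → Bool := onCell 536870912 536870912 0 536870912 780900216 37827925
    (rowB 3 eng mog cd0q1 cd3q2 pd0 1 false true true .npp 1 0 2 (qsf 536870912 536870912 1073741824 536870912 0) ndB0q1 ndB3q2 pcB0 Cut.none Ext.none)

def k0_pp_102 : ∃ t, chk3 f_pp_102 t 1 1 1 = true :=
  ⟨(l 3), by decide +kernel⟩

theorem c_pp_102 : CertB 536870912 536870912 1073741824 536870912 780900216 37827925 3 eng mog cd0q1 cd3q2 pd0 false true true .npp 1 0 2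
    ndB0q1 ndB3q2 pcB0 Cut.none Ext.none :=
  certB1 (fam := false) (s1 := true) (s2 := true) (a := 1) (b := 0) (c := 2) (cn := .npp) (n1 := ndB0q1) (n2 := ndB3q2) (pc := pcB0) (cut := Cut.none) (xt := Ext.none) (P1 := 536870912) (W1 := 536870912) (P2 := 1073741824) (W2 := 536870912) (P3 := 780900216) (W3 := 37827925) (N0 := 3) (En := eng) (mo := mog) (C1 := cd0q1) (C2 := cd3q2) (C3 := pd0)
    rfl (fun _ => rfl) k0_pp_102

noncomputable def f_pp_112 : ℕ → ℕ → ℕ → ℕ → Bool := onCell 536870912 536870912 1073741824 536870912 780900216 37827925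
    (rowB 3 eng mog cd0q1 cd3q2 pd1 0 false true true .dn 1 1 2 (qsf 536870912 536870912 1073741824 536870912 1) ndB0q1 ndB3q2 pcB1 Cut.none Ext.none)

def k0_pp_112 : ∃ t, chk3 f_pp_112 t 1 1 1 = true :=
  ⟨(a (l 3) (l 3)), by decide +kernel⟩

theorem c_pp_112 : CertB 536870912 536870912 1073741824 536870912 780900216 37827925 3 eng mog cd0q1 cd3q2 pd1 false true true .dn 1 1 2
    ndB0q1 ndB3q2 pcB1 Cut.none Ext.none :=
  certB0 (fam := false) (s1 := true) (s2 := true) (a := 1) (b := 1) (c := 2) (cn := .dn) (n1 := ndB0q1) (n2 := ndB3q2) (pc := pcB1) (cut := Cut.none) (xt := Ext.none) (P1 := 536870912) (W1 := 536870912) (P2 := 1073741824) (W2 := 536870912) (P3 := 780900216) (W3 := 37827925) (N0 := 3) (En := eng) (mo := mog) (C1 := cd0q1) (C2 := cd3q2) (C3 := pd1)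
    rfl k0_pp_112

noncomputable def cut_pp_113 : Cut := Cut.of [[⟨0, 1, 0, 67108864⟩, ⟨1, 1, 0, 67108864⟩, ⟨2, 2, 0, 16777216⟩]]

noncomputable def f_pp_113 : ℕ → ℕ → ℕ → ℕ → Bool := onCell 536870912 536870912 0 1230186008 780900216 37827925
    (rowB 3 eng mog cd0q1 cd3q3 pd1 2 false true true .nn 1 1 3 (qsf 536870912 536870912 0 1230186008 1) ndB0q1 ndB3q3 pcB1 cut_pp_113 Ext.none)

def k0_pp_113 : ∃ t, chk3 f_pp_113 t 1 1 1 = true :=
  ⟨(b (a (l 2) (a (l 2) (a (l 3) (a (l 3) (b (b (l 6) (l 3)) (l 3)))))) (b (a (l 3) (a (l 3) (l 3))) (a (b (l 3) (l 3)) (l 3)))), by decide +kernel⟩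

theorem c_pp_113 : CertB 536870912 536870912 0 1230186008 780900216 37827925 3 eng mog cd0q1 cd3q3 pd1 false true true .nn 1 1 3
    ndB0q1 ndB3q3 pcB1 cut_pp_113 Ext.none :=
  certB2 (fam := false) (s1 := true) (s2 := true) (a := 1) (b := 1) (c := 3) (cn := .nn) (n1 := ndB0q1) (n2 := ndB3q3) (pc := pcB1) (cut := cut_pp_113) (xt := Ext.none) (P1 := 536870912) (W1 := 536870912) (P2 := 0) (W2 := 1230186008) (P3 := 780900216) (W3 := 37827925) (N0 := 3) (En := eng) (mo := mog) (C1 := cd0q1) (C2 := cd3q3) (C3 := pd1)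
    rfl (fun _ => rfl) k0_pp_113

noncomputable def cut_pp_123 : Cut := Cut.of [[⟨0, 1, 0, 67108864⟩, ⟨1, 1, 0, 67108864⟩, ⟨2, 2, 0, 16777216⟩]]

noncomputable def f_pp_123 : ℕ → ℕ → ℕ → ℕ → Bool := onCell 1073741824 536870912 0 1230186008 780900216 37827925
    (rowB 3 eng mog cd0q1 cd3q3 pd2 2 false true true .npn 1 2 3 (qsf 536870912 536870912 0 1230186008 2) ndB0q1 ndB3q3 pcB2 cut_pp_123 Ext.none)

def k0_pp_123 : ∃ t, chk3 f_pp_123 t 8 4 1 = true :=
  ⟨(a (b (l 6) (a (a (l 3) (b (l 6) (a (l 3) (b (a (a (l 3) (a (b (b (l 356650064439) (l 3)) (l 3)) (b (b (l 16780032) (l 3)) (l 3)))) (a (a (b (b (l 16779880) (l 16780344)) (l 3)) (b (b (l 16779944) (l 16780168)) (b (l 16780672) (l 3)))) (b (b (l 16779600) (l 16780264)) (b (l 16780512) (l 16780960))))) (a (l 3) (a (l 3) (b (b (l 349133879223) (l 3)) (l 3)))))))) (a (b (l 6) (a (b (a (a (b (l 16767816) (b (l 16780384) (l 16780944))) (b (l 16777632) (l 16768680))) (b (l 16775568) (l 16777864))) (a (a (b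 (b (l 16781200) (l 16781712)) (c (l 355576310535) (l 361481888343))) (b (b (l 16781224) (l 16781640)) (b (l 16781976) (l 16782552)))) (a (b (l 16759136) (b (l 16782104) (l 16782456))) (b (l 16779560) (l 16781704))))) (b (a (l 16753048) (l 16771152)) (a (b (l 16777504) (l 16779928)) (l 16755008))))) (b (l 6) (b (l 16763992) (a (l 16750736) (l 16765624))))))) (b (a (l 6) (l 16704936)) (b (a (l 6) (l 16713408)) (a (l 16705576) (l 16718032))))), by decide +kernel⟩

def k1_pp_123 : ∃ t, chk3 f_pp_123 t 8 10 1 = true :=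
  ⟨(a (a (l 3) (a (b (a (b (a (b (c (l 356113184871) (l 360945026007)) (l 3)) (a (b (b (l 16782808) (l 16783384)) (l 373293054279)) (b (l 16783120) (l 16783872)))) (a (l 3) (b (l 356650057927) (l 3)))) (b (a (b (l 16760432) (a (l 16783768) (l 16783424))) (b (l 16779464) (l 16759752))) (a (b (c (l 206326194439) (l 209547420615)) (l 370608697047)) (a (b (l 16783936) (l 16784272)) (l 16761848))))) (a (l 3) (b (a (b (c (l 351818243207) (l 356650078183)) (l 3)) (b (c (l 204178703415) (l 209010542951)) (l 369534947015))) (a (l 3) (b (l 366313721207) (l 3)))))) (b (b (a (l 16755232) (l 16769888)) (a (a (b (l 16780672) (l 16760328)) (l 16778344)) (l 16752464))) (a (b (a (b (l 16761632) (a (l 16782936) (l 16782680))) (l 16758488)) (a (b (l 296520492055) (l 362555611255)) (b (l 16780216) (a (l 16778512) (l 16778032))))) (b (a (l 16777104) (l 16773280)) (b (l 16752968) (l 16752288))))))) (b (a (a (l 16760672) (l 16745624)) (l 16720824)) (a (a (b (l 16742520) (a (l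 16766800) (l 16758392))) (l 16725976)) (l 16719864)))), by decide +kernel⟩

def k2_pp_123 : ∃ t, chk3 f_pp_123 t 8 11 1 = true :=
  ⟨(a (a (l 3) (b (a (l 3) (a (b (a (b (c (l 364703163815) (l 371682470087)) (l 3)) (a (a (l 368461230247) (l 363092524103)) (a (l 356650071207) (l 16773952)))) (a (l 3) (a (l 3) (a (l 3) (l 406579051607))))) (b (a (b (l 16774560) (l 16771728)) (b (l 16771544) (l 16769912))) (a (b (l 16768808) (l 320142827095)) (b (l 16767440) (l 16763920)))))) (a (l 3) (a (l 3) (b (a (b (l 435570055079) (l 3)) (b (l 302426073671) (c (l 313700360999) (l 318532179911)))) (a (l 3) (b (l 488720256711) (l 3)))))))) (a (b (a (b (a (l 16764928) (l 16756600)) (a (a (b (l 16764640) (l 16762360)) (l 16759856)) (l 16753712))) (b (l 16743584) (l 16720088))) (a (b (a (b (a (l 16759112) (l 16756696)) (a (l 16755064) (l 16753736))) (a (l 16751632) (l 16747536))) (a (a (b (c (l 296520476711) (a (l 306184142055) (l 16748560))) (c (l 312626586535) (a (l 333564546215)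 (l 313700323303)))) (b (l 16749392) (b (l 16745744) (l 16743160)))) (a (b (l 16747344) (l 16743112)) (l 16741744)))) (b (a (l 16741312) (l 16732712)) (a (l 16735552) (l 16726880))))) (b (l 16715744) (b (l 16710064) (b (l 16705608) (l 16681320)))))), by decide +kernel⟩

def k3_pp_123 : ∃ t, chk3 f_pp_123 t 9 2 1 = true :=
  ⟨(b (a (b (a (l 16682744) (l 16658808)) (a (l 16689688) (l 16663672))) (b (l 16598976) (a (l 16635696) (l 16613736)))) (b (a (b (l 16679072) (l 16635792)) (a (l 16634056) (l 16610440))) (a (b (a (l 16686232) (l 16659144)) (a (l 16677032) (l 16651288))) (b (l 16617864) (l 16611160))))), by decide +kernel⟩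

def k4_pp_123 : ∃ t, chk3 f_pp_123 t 5 2 1 = true :=
  ⟨(b (a (a (b (a (l 16594440) (l 16393760)) (a (l 16597472) (l 16436560))) (l 16712088)) (a (l 16595208) (l 16545488))) (a (a (a (b (l 16591632) (l 16582200)) (b (l 16447784) (a (l 16567480) (l 16555688)))) (b (l 16556664) (l 16540640))) (b (l 16434040) (b (l 16526272) (l 16515136))))), by decide +kernel⟩

def k5_pp_123 : ∃ t, chk3 f_pp_123 t 3 2 1 = true :=
  ⟨(a (b (a (l 16389728) (l 16529600)) (a (b (l 16528000) (l 16381696)) (b (l 16524272) (l 16507736)))) (b (a (l 16527664) (l 16517288)) (a (b (l 16523360) (l 16498904)) (b (l 16506104) (l 16473184))))), by decide +kernel⟩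

def k6_pp_123 : ∃ t, chk3 f_pp_123 t 16 12 1 = true :=
  ⟨(l 3), by decide +kernel⟩

def k7_pp_123 : ∃ t, chk3 f_pp_123 t 17 12 1 = true :=
  ⟨(b (a (a (b (a (a (b (l 3) (l 3)) (b (c (l 291151743671) (b (l 284709283127) (l 294372956855))) (c (l 329269559431) (a (l 3) (l 326048327879))))) (a (b (l 16737536) (c (l 16733536) (l 16729552))) (b (l 16735704) (l 16729976)))) (a (l 3) (a (a (b (b (l 288467351351) (l 356113080327)) (l 3)) (b (c (l 16726544) (l 16722528)) (b (c (l 285246115943) (l 286856721399)) (l 374366676471)))) (b (l 16723272) (a (b (l 16718472) (l 265381875591)) (l 16715960)))))) (b (a (b (l 16729888) (l 16725072)) (l 16718904)) (a (a (b (l 16721624) (l 16714848)) (b (l 16718224) (l 16712744))) (l 16709336)))) (a (b (l 16705600) (l 16675576)) (l 16662160))) (a (a (a (l 3) (b (a (l 3) (a (b (b (c (l 282561745879) (l 285782964343)) (c (l 402283952407) (l 384030333751))) (l 3)) (b (b (l 16710728) (c (l 16709272) (l 262697504279))) (a (b (b (l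 389399035447) (l 3)) (l 3)) (b (c (l 266455599127) (l 268603076167)) (b (c (l 415705708327) (l 396915219911)) (l 3))))))) (l 3))) (a (b (b (a (c (l 16709888) (l 16706080)) (l 16706584)) (a (b (c (l 16704632) (l 16700936)) (c (a (c (l 258939402599) (l 259476269815)) (l 16700800)) (b (l 245517621943) (a (c (l 262160619559) (l 263234358535)) (l 16696384))))) (l 16699672))) (a (a (b (b (a (c (l 295446615223) (l 300815318455)) (c (l 158544531143) (l 150491461383))) (c (l 298667835783) (l 304036538311))) (l 3)) (b (b (l 16695512) (b (l 16693000) (l 260013121383))) (b (c (l 277729863111) (l 280414212439)) (l 301352172551)))) (b (c (l 16694752) (l 16691464)) (b (l 16687992) (c (l 16686208) (l 16683352)))))) (b (a (b (l 16703744) (l 16698168)) (l 16697320)) (a (b (l 16691888) (l 16685208)) (b (l 16689848) (l 16684080)))))) (b (a (a (l 16691568) (l 16683536)) (l 16671440)) (a (a (l 16660680) (l 16674288)) (l 16641632))))), by decide +kernel⟩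

def k8_pp_123 : ∃ t, chk3 f_pp_123 t 9 12 1 = true :=
  ⟨(a (b (a (l 16664696) (l 16641280)) (a (b (l 16653872) (l 16645592)) (l 16628176))) (b (a (l 16614424) (l 16591504)) (a (l 16601552) (l 16575608)))), by decide +kernel⟩

def k9_pp_123 : ∃ t, chk3 f_pp_123 t 5 12 1 = true :=
  ⟨(a (a (a (l 16561728) (a (l 16544664) (l 16530784))) (b (l 16521816) (l 16504096))) (b (l 16498904) (l 16479640))), by decide +kernel⟩

def k10_pp_123 : ∃ t, chk3 f_pp_123 t 2 13 1 = true :=
  ⟨(a (a (b (a (l 3) (b (a (a (l 3) (a (a (l 3) (b (b (l 263234288039) (l 277729802631)) (l 290614705895))) (a (b (l 16677936) (l 142438330103)) (l 16651840)))) (a (a (a (l 16650352) (l 16647344)) (l 16662696)) (l 16650864))) (a (a (l 3) (a (l 3) (b (a (l 264844896983) (l 16659752)) (b (b (l 253570605447) (a (l 297057144375) (l 16651176))) (a (l 3) (l 16647184)))))) (a (b (a (l 16657792) (l 16651760)) (a (c (l 16627528) (l 16647280)) (c (l 16643448) (l 16642752)))) (b (l 16639800) (l 16631080))))))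 (a (l 3) (a (b (a (l 3) (a (l 3) (b (b (l 274508541415) (l 283098465223)) (b (l 291151508215) (l 3))))) (l 3)) (b (b (a (a (a (l 16626264) (l 16635232)) (l 16632184)) (l 16620656)) (a (a (c (l 118815933879) (l 16585824)) (l 16603560)) (b (l 16597576) (l 16582776)))) (b (a (a (b (l 226190108407) (l 238001257047)) (l 16572000)) (a (l 16566008) (l 16557944))) (a (a (a (l 3) (l 232632505527)) (l 16543368)) (a (l 16539816) (l 16533504)))))))) (b (a (b (a (a (l 16638616) (l 16628768)) (l 16611376)) (a (a (b (l 16627696) (l 16618864)) (l 16613336)) (l 16595384))) (b (l 16571032) (a (l 16568264) (l 16542648)))) (a (a (b (a (a (l 16591552) (l 16585984)) (l 16577144)) (a (l 16558872) (l 16532312))) (b (l 16559336) (l 16521584))) (b (a (l 16534856) (l 16514584)) (a (l 16505480) (l 16490800)))))) (a (b (a (a (b (l 16534344) (l 16520208)) (b (l 16507912) (l 16494552))) (b (l 16484656) (l 16470560))) (a (a (l 16486072) (a (l 16472800) (l 16461248))) (l 16447800))) (b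 (b (l 16462032) (l 16445360)) (a (l 16433608) (l 16416296))))), by decide +kernel⟩

def k11_pp_123 : ∃ t, chk3 f_pp_123 t 3 6 1 = true :=
  ⟨(b (a (a (b (l 16485776) (l 16465064)) (b (l 16480216) (l 16448800))) (a (b (l 16462288) (l 1)) (l 1))) (a (b (a (b (l 16440224) (l 16418432)) (l 189547772247)) (a (b (l 16390152) (l 16358888)) (l 1))) (l 1))), by decide +kernel⟩

def k12_pp_123 : ∃ t, chk3 f_pp_123 t 1 7 1 = true :=
  ⟨(a (a (b (a (a (l 3) (a (l 3) (b (b (b (a (a (l 279877155767) (l 16518000)) (a (l 16516352) (l 16512048))) (a (a (l 3) (l 16516984)) (a (l 16495352) (l 16493256)))) (a (a (l 3) (b (l 241222377047) (l 16461752))) (a (b (l 16477192) (l 16461624)) (b (l 16477080) (l 16462792))))) (b (a (a (l 3) (l 290077550727)) (a (l 16442312) (l 16444080))) (a (l 3) (a (l 16422896) (l 16424368))))))) (a (b (b (a (a (a (l 16498880) (l 16497672)) (l 16497392)) (l 16492888)) (a (a (b (l 16475408) (l 16462944)) (l 16470384)) (l 16555792))) (a (b (a (a (l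 16445928) (l 16447424)) (l 16449952)) (a (b (l 16433304) (l 16426032)) (l 16434608))) (b (l 16455352) (l 16442880)))) (b (b (a (l 16482904) (l 16472632)) (a (l 16466216) (l 16458560))) (b (l 16493200) (a (l 16445376) (l 16442016)))))) (a (b (a (l 3) (a (l 3) (a (l 3) (a (l 3) (b (l 16411080) (l 16404368)))))) (l 3)) (a (b (a (b (a (a (l 16414488) (l 16419456)) (l 16424232)) (a (b (l 16411016) (l 16409728)) (l 16418544))) (b (l 16434712) (c (l 16429688) (l 16425560)))) (a (a (b (b (l 16409632) (l 1)) (l 1)) (l 1)) (l 1))) (b (a (b (l 16440664) (a (l 16439288) (l 1))) (b (l 16438400) (l 1))) (l 1))))) (b (a (b (a (a (l 16560248) (b (l 16444104) (l 16475456))) (b (l 16429800) (l 16421200))) (a (a (l 16438392) (a (l 16430128) (l 16419448))) (l 16407592))) (b (b (l 16411416) (l 16398616)) (l 1))) (a (b (a (a (b (l 16432272) (l 1)) (l 1)) (l 1)) (l 1)) (l 1)))) (l 1)), by decide +kernel⟩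

theorem s13_pp_123 : ∃ t, chk3 f_pp_123 t 8 12 1 = true := ex3_a k6_pp_123 k7_pp_123

theorem s14_pp_123 : ∃ t, chk3 f_pp_123 t 4 12 1 = true := ex3_a s13_pp_123 k8_pp_123

theorem s15_pp_123 : ∃ t, chk3 f_pp_123 t 2 12 1 = true := ex3_a s14_pp_123 k9_pp_123

theorem s16_pp_123 : ∃ t, chk3 f_pp_123 t 2 6 1 = true := ex3_b s15_pp_123 k10_pp_123

theorem s17_pp_123 : ∃ t, chk3 f_pp_123 t 1 6 1 = true := ex3_a s16_pp_123 k11_pp_123

theorem s18_pp_123 : ∃ t, chk3 f_pp_123 t 1 3 1 = true := ex3_b s17_pp_123 k12_pp_123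

theorem s19_pp_123 : ∃ t, chk3 f_pp_123 t 8 5 1 = true := ex3_b k1_pp_123 k2_pp_123

theorem s20_pp_123 : ∃ t, chk3 f_pp_123 t 8 2 1 = true := ex3_b k0_pp_123 s19_pp_123

theorem s21_pp_123 : ∃ t, chk3 f_pp_123 t 4 2 1 = true := ex3_a s20_pp_123 k3_pp_123

theorem s22_pp_123 : ∃ t, chk3 f_pp_123 t 2 2 1 = true := ex3_a s21_pp_123 k4_pp_123

theorem s23_pp_123 : ∃ t, chk3 f_pp_123 t 1 2 1 = true := ex3_a s22_pp_123 k5_pp_123

theorem s24_pp_123 : ∃ t, chk3 f_pp_123 t 1 1 1 = true := ex3_b s23_pp_123 s18_pp_123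

theorem c_pp_123 : CertB 536870912 536870912 0 1230186008 780900216 37827925 3 eng mog cd0q1 cd3q3 pd2 false true true .npn 1 2 3
    ndB0q1 ndB3q3 pcB2 cut_pp_123 Ext.none :=
  certB2 (fam := false) (s1 := true) (s2 := true) (a := 1) (b := 2) (c := 3) (cn := .npn) (n1 := ndB0q1) (n2 := ndB3q3) (pc := pcB2) (cut := cut_pp_123) (xt := Ext.none) (P1 := 536870912) (W1 := 536870912) (P2 := 0) (W2 := 1230186008) (P3 := 780900216) (W3 := 37827925) (N0 := 3) (En := eng) (mo := mog) (C1 := cd0q1) (C2 := cd3q3) (C3 := pd2)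
    rfl (fun _ => rfl) s24_pp_123

noncomputable def f_pp_133 : ℕ → ℕ → ℕ → ℕ → Bool := onCell 536870912 536870912 0 1230186008 780900216 37827925
    (rowB 3 eng mog cd0q1 cd3q3 pd3 0 false true true .dn 1 3 3 (qsf 536870912 536870912 0 1230186008 3) ndB0q1 ndB3q3 pcB3 Cut.none Ext.none)

def k0_pp_133 : ∃ t, chk3 f_pp_133 t 1 1 1 = true :=
  ⟨(b (b (a (a (a (l 16600728) (l 1)) (l 1)) (l 1)) (l 1)) (l 1)), by decide +kernel⟩

theorem c_pp_133 : CertB 536870912 536870912 0 1230186008 780900216 37827925 3 eng mog cd0q1 cd3q3 pd3 false true true .dn 1 3 3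
    ndB0q1 ndB3q3 pcB3 Cut.none Ext.none :=
  certB0 (fam := false) (s1 := true) (s2 := true) (a := 1) (b := 3) (c := 3) (cn := .dn) (n1 := ndB0q1) (n2 := ndB3q3) (pc := pcB3) (cut := Cut.none) (xt := Ext.none) (P1 := 536870912) (W1 := 536870912) (P2 := 0) (W2 := 1230186008) (P3 := 780900216) (W3 := 37827925) (N0 := 3) (En := eng) (mo := mog) (C1 := cd0q1) (C2 := cd3q3) (C3 := pd3)
    rfl k0_pp_133

noncomputable def f_pp_202 : ℕ → ℕ → ℕ → ℕ → Bool := onCell 0 536870912 1073741824 536870912 780900216 37827925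
    (rowB 3 eng mog cd0q2 cd3q2 pd0 0 false true true .pp 2 0 2 (qsf 0 536870912 1073741824 536870912 0) ndB0q2 ndB3q2 pcB0 Cut.none Ext.none)

def k0_pp_202 : ∃ t, chk3 f_pp_202 t 1 1 1 = true :=
  ⟨(l 3), by decide +kernel⟩

theorem c_pp_202 : CertB 0 536870912 1073741824 536870912 780900216 37827925 3 eng mog cd0q2 cd3q2 pd0 false true true .pp 2 0 2
    ndB0q2 ndB3q2 pcB0 Cut.none Ext.none :=
  certB0 (fam := false) (s1 := true) (s2 := true) (a := 2) (b := 0) (c := 2) (cn := .pp) (n1 := ndB0q2) (n2 := ndB3q2) (pc := pcB0) (cut := Cut.none) (xt := Ext.none) (P1 := 0) (W1 := 536870912) (P2 := 1073741824) (W2 := 536870912) (P3 := 780900216) (W3 := 37827925) (N0 := 3) (En := eng) (mo := mog) (C1 := cd0q2) (C2 := cd3q2) (C3 := pd0)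
    rfl k0_pp_202

noncomputable def f_pp_203 : ℕ → ℕ → ℕ → ℕ → Bool := onCell 0 536870912 0 1230186008 780900216 37827925
    (rowB 3 eng mog cd0q2 cd3q3 pd0 0 false true true .up 2 0 3 (qsf 0 536870912 0 1230186008 0) ndB0q2 ndB3q3 pcB0 Cut.none Ext.none)

def k0_pp_203 : ∃ t, chk3 f_pp_203 t 1 1 1 = true :=
  ⟨(b (l 2) (l 3)), by decide +kernel⟩

theorem c_pp_203 : CertB 0 536870912 0 1230186008 780900216 37827925 3 eng mog cd0q2 cd3q3 pd0 false true true .up 2 0 3
    ndB0q2 ndB3q3 pcB0 Cut.none Ext.none :=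
  certB0 (fam := false) (s1 := true) (s2 := true) (a := 2) (b := 0) (c := 3) (cn := .up) (n1 := ndB0q2) (n2 := ndB3q3) (pc := pcB0) (cut := Cut.none) (xt := Ext.none) (P1 := 0) (W1 := 536870912) (P2 := 0) (W2 := 1230186008) (P3 := 780900216) (W3 := 37827925) (N0 := 3) (En := eng) (mo := mog) (C1 := cd0q2) (C2 := cd3q3) (C3 := pd0)
    rfl k0_pp_203

noncomputable def cut_pp_213 : Cut := Cut.of [[⟨0, 1, 0, 67108864⟩, ⟨1, 1, 0, 67108864⟩, ⟨2, 2, 0, 16777216⟩]]

noncomputable def f_pp_213 : ℕ → ℕ → ℕ → ℕ → Bool := onCell 0 536870912 0 1230186008 780900216 37827925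
    (rowB 3 eng mog cd0q2 cd3q3 pd1 0 false true true .pnn 2 1 3 (qsf 0 536870912 0 1230186008 1) ndB0q2 ndB3q3 pcB1 cut_pp_213 Ext.none)

def k0_pp_213 : ∃ t, chk3 f_pp_213 t 1 1 1 = true :=
  ⟨(b (a (l 3) (b (a (l 3) (a (l 3) (b (l 6) (l 3)))) (l 3))) (l 3)), by decide +kernel⟩

theorem c_pp_213 : CertB 0 536870912 0 1230186008 780900216 37827925 3 eng mog cd0q2 cd3q3 pd1 false true true .pnn 2 1 3
    ndB0q2 ndB3q3 pcB1 cut_pp_213 Ext.none :=
  certB0 (fam := false) (s1 := true) (s2 := true) (a := 2) (b := 1) (c := 3) (cn := .pnn) (n1 := ndB0q2) (n2 := ndB3q3) (pc := pcB1) (cut := cut_pp_213) (xt := Ext.none) (P1 := 0) (W1 := 536870912) (P2 := 0) (W2 := 1230186008) (P3 := 780900216) (W3 := 37827925) (N0 := 3) (En := eng) (mo := mog) (C1 := cd0q2) (C2 := cd3q3) (C3 := pd1)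
    rfl k0_pp_213

noncomputable def f_pm_001 : ℕ → ℕ → ℕ → ℕ → Bool := onCell 0 536870912 536870912 536870912 780900216 37827925
    (rowB 3 eng mog cd0q0 cd3q1 pd0 0 false true false .up 0 0 1 (qsf 0 536870912 536870912 536870912 0) ndB0q0 ndB3q1 pcB0 Cut.none Ext.none)

def k0_pm_001 : ∃ t, chk3 f_pm_001 t 1 1 1 = true :=
  ⟨(l 4), by decide +kernel⟩

theorem c_pm_001 : CertB 0 536870912 536870912 536870912 780900216 37827925 3 eng mog cd0q0 cd3q1 pd0 false true false .up 0 0 1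
    ndB0q0 ndB3q1 pcB0 Cut.none Ext.none :=
  certB0 (fam := false) (s1 := true) (s2 := false) (a := 0) (b := 0) (c := 1) (cn := .up) (n1 := ndB0q0) (n2 := ndB3q1) (pc := pcB0) (cut := Cut.none) (xt := Ext.none) (P1 := 0) (W1 := 536870912) (P2 := 536870912) (W2 := 536870912) (P3 := 780900216) (W3 := 37827925) (N0 := 3) (En := eng) (mo := mog) (C1 := cd0q0) (C2 := cd3q1) (C3 := pd0)
    rfl k0_pm_001

noncomputable def f_pm_011 : ℕ → ℕ → ℕ → ℕ → Bool := onCell 0 536870912 536870912 536870912 780900216 37827925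
    (rowB 3 eng mog cd0q0 cd3q1 pd1 0 false true false .pnn 0 1 1 (qsf 0 536870912 536870912 536870912 1) ndB0q0 ndB3q1 pcB1 Cut.none Ext.none)

def k0_pm_011 : ∃ t, chk3 f_pm_011 t 1 1 1 = true :=
  ⟨(l 4), by decide +kernel⟩

theorem c_pm_011 : CertB 0 536870912 536870912 536870912 780900216 37827925 3 eng mog cd0q0 cd3q1 pd1 false true false .pnn 0 1 1
    ndB0q0 ndB3q1 pcB1 Cut.none Ext.none :=
  certB0 (fam := false) (s1 := true) (s2 := false) (a := 0) (b := 1) (c := 1) (cn := .pnn) (n1 := ndB0q0) (n2 := ndB3q1) (pc := pcB1) (cut := Cut.none) (xt := Ext.none) (P1 := 0) (W1 := 536870912) (P2 := 536870912) (W2 := 536870912) (P3 := 780900216) (W3 := 37827925) (N0 := 3) (En := eng) (mo := mog) (C1 := cd0q0) (C2 := cd3q1) (C3 := pd1)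
    rfl k0_pm_011

noncomputable def f_pm_012 : ℕ → ℕ → ℕ → ℕ → Bool := onCell 0 536870912 1073741824 536870912 780900216 37827925
    (rowB 3 eng mog cd0q0 cd3q2 pd1 0 false true false .pnp 0 1 2 (qsf 0 536870912 1073741824 536870912 1) ndB0q0 ndB3q2 pcB1 Cut.none Ext.none)

def k0_pm_012 : ∃ t, chk3 f_pm_012 t 1 1 1 = true :=
  ⟨(a (l 4) (b (a (b (a (l 4) (b (a (l 4) (b (l 4) (l 4))) (l 4))) (l 4)) (b (a (b (a (b (l 16194096) (l 16172128)) (b (l 16151472) (l 16137656))) (a (b (l 16127944) (a (l 4) (l 16070648))) (b (l 16101616) (l 16058008)))) (b (a (l 16213376) (l 16069240)) (a (l 16060904) (l 16039040)))) (a (a (b (l 4) (l 4)) (b (b (l 16013792) (l 15957368)) (b (l 15997104) (a (l 4) (l 15823208))))) (b (a (l 15991384) (l 15994752)) (a (b (l 15912432) (l 15848200)) (l 15910744)))))) (a (l 4) (b (a (a (l 4) (b (b (l 57141679911) (l 59288939063)) (b (l 648236104871) (l 4)))) (b (a (b (l 15777864) (l 15704712)) (b (l 15823872) (l 15757336))) (a (b (a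 (l 15613376) (l 15642432)) (a (l 15536608) (l 15564328))) (a (a (l 15626640) (l 15641576)) (l 15670840))))) (a (l 4) (b (a (b (a (l 15446408) (l 15478000)) (a (b (l 15378640) (l 15332128)) (b (l 15413472) (l 15368416)))) (b (l 15538232) (l 15453768))) (a (b (a (b (l 157401042327) (l 174580830727)) (l 15362760)) (b (l 179412557303) (l 2))) (b (l 15390304) (l 180486438663))))))))), by decide +kernel⟩

theorem c_pm_012 : CertB 0 536870912 1073741824 536870912 780900216 37827925 3 eng mog cd0q0 cd3q2 pd1 false true false .pnp 0 1 2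
    ndB0q0 ndB3q2 pcB1 Cut.none Ext.none :=
  certB0 (fam := false) (s1 := true) (s2 := false) (a := 0) (b := 1) (c := 2) (cn := .pnp) (n1 := ndB0q0) (n2 := ndB3q2) (pc := pcB1) (cut := Cut.none) (xt := Ext.none) (P1 := 0) (W1 := 536870912) (P2 := 1073741824) (W2 := 536870912) (P3 := 780900216) (W3 := 37827925) (N0 := 3) (En := eng) (mo := mog) (C1 := cd0q0) (C2 := cd3q2) (C3 := pd1)
    rfl k0_pm_012

noncomputable def f_pm_022 : ℕ → ℕ → ℕ → ℕ → Bool := onCell 1073741824 536870912 1073741824 536870912 780900216 37827925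
    (rowB 3 eng mog cd0q0 cd3q2 pd2 2 false true false .pp 0 2 2 (qsf 0 536870912 1073741824 536870912 2) ndB0q0 ndB3q2 pcB2 Cut.none Ext.none)

def k0_pm_022 : ∃ t, chk3 f_pm_022 t 1 1 1 = true :=
  ⟨(a (b (l 4) (a (b (l 4) (a (b (l 4) (a (b (a (b (l 15305768) (l 15295528)) (l 15348496)) (a (l 15298584) (l 15332056))) (b (l 4) (a (l 15370040) (l 15412280))))) (l 4))) (l 4))) (l 4)), by decide +kernel⟩

theorem c_pm_022 : CertB 0 536870912 1073741824 536870912 780900216 37827925 3 eng mog cd0q0 cd3q2 pd2 false true false .pp 0 2 2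
    ndB0q0 ndB3q2 pcB2 Cut.none Ext.none :=
  certB2 (fam := false) (s1 := true) (s2 := false) (a := 0) (b := 2) (c := 2) (cn := .pp) (n1 := ndB0q0) (n2 := ndB3q2) (pc := pcB2) (cut := Cut.none) (xt := Ext.none) (P1 := 0) (W1 := 536870912) (P2 := 1073741824) (W2 := 536870912) (P3 := 780900216) (W3 := 37827925) (N0 := 3) (En := eng) (mo := mog) (C1 := cd0q0) (C2 := cd3q2) (C3 := pd2)
    rfl (fun _ => rfl) k0_pm_022

noncomputable def f_pm_023 : ℕ → ℕ → ℕ → ℕ → Bool := onCell 0 536870912 0 1230186008 780900216 37827925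
    (rowB 3 eng mog cd0q0 cd3q3 pd2 0 false true false .up 0 2 3 (qsf 0 536870912 0 1230186008 2) ndB0q0 ndB3q3 pcB2 Cut.none Ext.none)

def k0_pm_023 : ∃ t, chk3 f_pm_023 t 1 1 1 = true :=
  ⟨(b (a (l 2) (a (l 2) (b (a (l 2) (l 16468272)) (a (b (l 16373632) (a (l 16289248) (l 16302560))) (b (l 16405240) (l 16321568)))))) (b (a (l 4) (a (l 4) (b (a (b (l 16210944) (l 16129592)) (b (l 16228328) (l 16142008))) (a (a (l 4) (b (l 16043608) (l 15964384))) (b (l 16046688) (l 16049672)))))) (a (l 4) (a (l 4) (b (b (a (a (l 4) (l 15874024)) (a (l 15844336) (l 15818296))) (a (l 4) (a (l 15722080) (b (l 15721880) (l 15655056))))) (a (l 4) (b (a (b (l 15626968) (l 15563192)) (b (l 15589304) (l 15520656))) (b (a (l 15495560) (b (l 15466080) (l 15427024))) (a (b (l 15441240) (l 15402128)) (b (l 15386008) (a (l 15357456) (l 15328648)))))))))))), by decide +kernel⟩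

theorem c_pm_023 : CertB 0 536870912 0 1230186008 780900216 37827925 3 eng mog cd0q0 cd3q3 pd2 false true false .up 0 2 3
    ndB0q0 ndB3q3 pcB2 Cut.none Ext.none :=
  certB0 (fam := false) (s1 := true) (s2 := false) (a := 0) (b := 2) (c := 3) (cn := .up) (n1 := ndB0q0) (n2 := ndB3q3) (pc := pcB2) (cut := Cut.none) (xt := Ext.none) (P1 := 0) (W1 := 536870912) (P2 := 0) (W2 := 1230186008) (P3 := 780900216) (W3 := 37827925) (N0 := 3) (En := eng) (mo := mog) (C1 := cd0q0) (C2 := cd3q3) (C3 := pd2)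
    rfl k0_pm_023

noncomputable def f_pm_033 : ℕ → ℕ → ℕ → ℕ → Bool := onCell 1610612736 536870912 0 1230186008 780900216 37827925
    (rowB 3 eng mog cd0q0 cd3q3 pd3 2 false true false .pnn 0 3 3 (qsf 0 536870912 0 1230186008 3) ndB0q0 ndB3q3 pcB3 Cut.none Ext.none)

def k0_pm_033 : ∃ t, chk3 f_pm_033 t 1 1 1 = true :=
  ⟨(a (b (a (b (a (l 16483408) (l 16429640)) (a (b (l 16392280) (l 16233320)) (l 91502565399))) (b (a (l 16386328) (l 4)) (l 4))) (b (b (l 4) (l 4)) (l 4))) (b (l 4) (l 4))), by decide +kernel⟩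

theorem c_pm_033 : CertB 0 536870912 0 1230186008 780900216 37827925 3 eng mog cd0q0 cd3q3 pd3 false true false .pnn 0 3 3
    ndB0q0 ndB3q3 pcB3 Cut.none Ext.none :=
  certB2 (fam := false) (s1 := true) (s2 := false) (a := 0) (b := 3) (c := 3) (cn := .pnn) (n1 := ndB0q0) (n2 := ndB3q3) (pc := pcB3) (cut := Cut.none) (xt := Ext.none) (P1 := 0) (W1 := 536870912) (P2 := 0) (W2 := 1230186008) (P3 := 780900216) (W3 := 37827925) (N0 := 3) (En := eng) (mo := mog) (C1 := cd0q0) (C2 := cd3q3) (C3 := pd3)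
    rfl (fun _ => rfl) k0_pm_033

noncomputable def f_pm_101 : ℕ → ℕ → ℕ → ℕ → Bool := onCell 536870912 536870912 536870912 536870912 780900216 37827925
    (rowB 3 eng mog cd0q1 cd3q1 pd0 0 false true false .npn 1 0 1 (qsf 536870912 536870912 536870912 536870912 0) ndB0q1 ndB3q1 pcB0 Cut.none Ext.none)

def k0_pm_101 : ∃ t, chk3 f_pm_101 t 1 1 1 = true :=
  ⟨(l 4), by decide +kernel⟩

theorem c_pm_101 : CertB 536870912 536870912 536870912 536870912 780900216 37827925 3 eng mog cd0q1 cd3q1 pd0 false true false .npn 1 0 1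
    ndB0q1 ndB3q1 pcB0 Cut.none Ext.none :=
  certB0 (fam := false) (s1 := true) (s2 := false) (a := 1) (b := 0) (c := 1) (cn := .npn) (n1 := ndB0q1) (n2 := ndB3q1) (pc := pcB0) (cut := Cut.none) (xt := Ext.none) (P1 := 536870912) (W1 := 536870912) (P2 := 536870912) (W2 := 536870912) (P3 := 780900216) (W3 := 37827925) (N0 := 3) (En := eng) (mo := mog) (C1 := cd0q1) (C2 := cd3q1) (C3 := pd0)
    rfl k0_pm_101

noncomputable def f_pm_102 : ℕ → ℕ → ℕ → ℕ → Bool := onCell 536870912 536870912 0 536870912 780900216 37827925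
    (rowB 3 eng mog cd0q1 cd3q2 pd0 1 false true false .npp 1 0 2 (qsf 536870912 536870912 1073741824 536870912 0) ndB0q1 ndB3q2 pcB0 Cut.none Ext.none)

def k0_pm_102 : ∃ t, chk3 f_pm_102 t 2 1 1 = true :=
  ⟨(b (a (l 1) (b (l 1) (b (l 1) (a (l 1) (b (l 1) (a (l 1) (l 388726730071))))))) (b (a (b (l 1) (a (l 1) (b (l 1) (a (l 1) (l 349534921559))))) (b (a (b (l 1) (a (l 1) (l 370472909831))) (b (a (l 389263473159) (l 317322822631)) (a (l 309269783703) (l 16008376)))) (a (b (a (l 351682357127) (l 15963712)) (a (l 15948288) (l 15944696))) (b (a (l 15964408) (l 15953384)) (a (l 15928544) (l 15894496)))))) (a (a (b (a (l 1) (l 425233655863)) (a (l 322691613335) (l 258267115783))) (b (a (b (l 340408166375) (l 16090072)) (b (l 15947008) (l 15948672))) (a (l 16015336) (l 15942584)))) (a (b (a (l 15973528) (l 15990696)) (a (l 15945952) (l 15987024))) (b (b (l 15993136) (l 15984072)) (a (l 16066480) (l 16103400))))))), by decide +kernel⟩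

def k1_pm_102 : ∃ t, chk3 f_pm_102 t 3 2 1 = true :=
  ⟨(a (b (a (l 1) (b (l 1) (a (l 1) (b (l 1) (l 426845322167))))) (b (a (b (l 1) (a (l 1) (l 393558849847))) (b (a (l 413423201239) (l 409128436711)) (a (l 386579769159) (l 16228200)))) (b (b (a (l 375842000135) (a (l 16181000) (l 16194208))) (a (a (l 383358026199) (l 16167280)) (a (l 16154976) (l 16178360)))) (a (a (l 347924527207) (b (l 16125552) (l 16110120))) (a (l 16204464) (b (l 16179416) (l 16184856))))))) (b (a (b (a (l 1) (b (l 1) (a (l 1) (b (l 1) (l 16423536))))) (a (b (b (l 1) (l 438656588823)) (l 331282409047)) (b (a (l 16387776) (l 16467960)) (a (l 16335968) (l 16346104))))) (b (a (b (a (l 1) (b (l 1) (l 409665586103))) (b (a (b (l 1) (l 16440336)) (l 283500894951)) (l 16486552))) (b (a (b (l 383359027191) (l 16467664)) (b (l 16485392) (l 16477352))) (a (b (l 16453136) (l 16460968)) (b (l 16480424) (l 16464072))))) (a (b (a (l 16390416) (b (l 16417160) (l 16428616))) (a (l 16399656) (l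 16412192))) (b (a (b (l 16458968) (l 16437056)) (l 16426008)) (l 16457032))))) (b (a (b (a (l 16285992) (a (l 16303728) (l 16338304))) (a (b (l 16257488) (l 16247096)) (a (l 16300280) (l 16340800)))) (a (b (a (l 16374384) (l 16377656)) (l 16356200)) (b (l 16364552) (l 16348000)))) (a (b (a (b (l 16235408) (l 16245368)) (b (l 16325328) (l 16325216))) (a (l 16289016) (l 16335064))) (b (a (l 16341864) (b (l 16335448) (l 16327888))) (a (l 16335784) (l 16320656))))))), by decide +kernel⟩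

def k2_pm_102 : ∃ t, chk3 f_pm_102 t 3 3 1 = true :=
  ⟨(b (a (b (a (b (a (l 16060920) (l 16093128)) (a (l 16024816) (l 16074960))) (b (a (b (l 16134304) (l 16137688)) (l 16267952)) (a (b (l 16144832) (l 16164328)) (l 16283816)))) (a (a (b (l 15970472) (l 16004656)) (b (l 16055072) (l 16140576))) (a (b (l 16210568) (l 16234352)) (l 16287472)))) (a (b (b (a (l 16322112) (l 16337432)) (a (l 16330296) (l 16330912))) (a (l 16310296) (l 16307728))) (b (b (a (l 16328256) (l 16308744)) (a (l 16317080) (l 16296680))) (a (l 16296848) (b (l 16285192) (l 16276064)))))) (a (a (b (a (b (l 16086216) (l 16125936)) (l 16187600)) (a (l 16162248) (l 16215552))) (b (a (l 16244872) (l 16280096)) (l 16275496))) (a (b (a (l 16295904) (l 16294376)) (a (l 16302272) (l 16301320))) (b (a (l 16288048) (b (l 16270832) (l 16269984))) (a (l 16293120) (l 16274568)))))), by decide +kernel⟩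

theorem s3_pm_102 : ∃ t, chk3 f_pm_102 t 3 1 1 = true := ex3_b k1_pm_102 k2_pm_102

theorem s4_pm_102 : ∃ t, chk3 f_pm_102 t 1 1 1 = true := ex3_a k0_pm_102 s3_pm_102

theorem c_pm_102 : CertB 536870912 536870912 1073741824 536870912 780900216 37827925 3 eng mog cd0q1 cd3q2 pd0 false true false .npp 1 0 2
    ndB0q1 ndB3q2 pcB0 Cut.none Ext.none :=
  certB1 (fam := false) (s1 := true) (s2 := false) (a := 1) (b := 0) (c := 2) (cn := .npp) (n1 := ndB0q1) (n2 := ndB3q2) (pc := pcB0) (cut := Cut.none) (xt := Ext.none) (P1 := 536870912) (W1 := 536870912) (P2 := 1073741824) (W2 := 536870912) (P3 := 780900216) (W3 := 37827925) (N0 := 3) (En := eng) (mo := mog) (C1 := cd0q1) (C2 := cd3q2) (C3 := pd0)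
    rfl (fun _ => rfl) s4_pm_102

noncomputable def f_pm_112 : ℕ → ℕ → ℕ → ℕ → Bool := onCell 536870912 536870912 1073741824 536870912 780900216 37827925
    (rowB 3 eng mog cd0q1 cd3q2 pd1 0 false true false .dn 1 1 2 (qsf 536870912 536870912 1073741824 536870912 1) ndB0q1 ndB3q2 pcB1 Cut.none Ext.none)

def k0_pm_112 : ∃ t, chk3 f_pm_112 t 1 1 1 = true :=
  ⟨(a (b (a (b (a (b (a (l 16031056) (l 15994120)) (a (l 16015936) (l 15991128))) (b (l 280278761767) (l 15994688))) (a (b (a (l 15996976) (l 15995184)) (a (l 15935664) (l 15960208))) (b (l 15992288) (l 15990704)))) (b (a (b (l 1) (l 15910696)) (l 1)) (a (b (l 15987496) (l 16027032)) (b (l 16160464) (l 16059936))))) (a (b (a (b (a (l 15836488) (l 15884704)) (a (b (l 15750504) (l 15684504)) (l 15777648))) (b (l 15943744) (b (l 15886936) (l 15849544)))) (a (b (a (b (l 15612280) (l 15539080)) (l 15657776)) (a (b (l 15461688) (l 15383664)) (b (l 15554184) (l 15483568)))) (b (l 15774840) (a (l 15615240)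 (l 15710080))))) (b (a (b (l 16013720) (l 15983824)) (b (l 16089320) (l 16086328))) (a (b (l 15923800) (l 15849456)) (b (l 16062328) (l 16026848)))))) (a (b (b (l 1) (a (b (l 1) (l 16093696)) (l 1))) (b (a (b (l 16148000) (l 16173824)) (b (l 16178560) (l 16225832))) (a (b (l 16181888) (l 16183224)) (b (l 16258304) (l 16288752))))) (b (l 1) (b (a (b (l 1) (l 391411801687)) (l 1)) (b (a (l 16268016) (a (l 461741884039) (l 1))) (a (a (l 16314560) (l 16307464)) (a (l 16291168) (l 16269520)))))))), by decide +kernel⟩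

theorem c_pm_112 : CertB 536870912 536870912 1073741824 536870912 780900216 37827925 3 eng mog cd0q1 cd3q2 pd1 false true false .dn 1 1 2
    ndB0q1 ndB3q2 pcB1 Cut.none Ext.none :=
  certB0 (fam := false) (s1 := true) (s2 := false) (a := 1) (b := 1) (c := 2) (cn := .dn) (n1 := ndB0q1) (n2 := ndB3q2) (pc := pcB1) (cut := Cut.none) (xt := Ext.none) (P1 := 536870912) (W1 := 536870912) (P2 := 1073741824) (W2 := 536870912) (P3 := 780900216) (W3 := 37827925) (N0 := 3) (En := eng) (mo := mog) (C1 := cd0q1) (C2 := cd3q2) (C3 := pd1)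
    rfl k0_pm_112

noncomputable def cut_pm_113 : Cut := Cut.of [[⟨0, 1, 0, 67108864⟩, ⟨1, 1, 0, 67108864⟩, ⟨2, 2, 0, 16777216⟩]]

noncomputable def f_pm_113 : ℕ → ℕ → ℕ → ℕ → Bool := onCell 536870912 536870912 0 1230186008 780900216 37827925
    (rowB 3 eng mog cd0q1 cd3q3 pd1 0 false true false .nn 1 1 3 (qsf 536870912 536870912 0 1230186008 1) ndB0q1 ndB3q3 pcB1 cut_pm_113 Ext.none)

def k0_pm_113 : ∃ t, chk3 f_pm_113 t 1 2 1 = true :=
  ⟨(a (l 2) (a (l 2) (b (a (l 2) (a (l 2) (b (l 6) (a (l 501538097063) (b (l 6) (l 16775080)))))) (a (b (a (l 2) (l 16660056)) (a (l 16578120) (l 16686440))) (b (a (a (l 16727704) (l 16763104)) (a (b (l 16781328) (l 16804808)) (b (l 16811144) (l 16820848)))) (a (b (l 16773120) (l 16798896)) (b (a (l 16833496) (l 16830992)) (a (l 16869640) (l 16839200))))))))), by decide +kernel⟩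

def k1_pm_113 : ∃ t, chk3 f_pm_113 t 1 6 1 = true :=
  ⟨(a (b (l 2) (a (l 2) (b (l 2) (a (l 2) (a (l 2) (b (l 2) (l 153644139207))))))) (b (a (a (l 2) (a (b (l 2) (b (l 183709727047) (l 169214246007))) (b (l 16489528) (l 16510592)))) (a (a (l 16427720) (l 16609312)) (a (b (l 16831736) (l 16872728)) (b (a (l 16904784) (l 16844144)) (a (l 16917064) (l 16847728)))))) (a (b (a (a (b (l 2) (l 121431899239)) (b (l 16230080) (l 104252257207))) (a (b (l 16385280) (l 16336368)) (b (l 16530616) (l 16546776)))) (a (a (b (l 127337543559) (l 16179560)) (b (l 16299304) (l 16316184))) (a (b (l 16436304) (l 16453632)) (a (l 16543760) (l 16607304))))) (a (b (a (b (l 16652008) (l 16670616)) (b (l 16779136) (l 16801856))) (a (l 16662072) (l 16821568))) (a (b (b (l 16908320) (l 16937352)) (l 16947760)) (b (b (l 16782784) (a (l 16926728) (l 16848080))) (a (l 16800184) (b (l 16846160) (l 16842840))))))))), by decide +kernel⟩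

def k2_pm_113 : ∃ t, chk3 f_pm_113 t 1 7 1 = true :=
  ⟨(a (b (a (l 2) (b (a (b (l 2) (a (l 2) (l 188540269575))) (a (b (l 166528897239) (l 153644005687)) (b (l 15998768) (l 15988080)))) (b (a (a (l 2) (l 184245321703)) (a (l 15812560) (l 15983184))) (a (a (l 193371924503) (l 15675616)) (a (l 15827944) (l 15984688)))))) (a (a (b (l 2) (b (a (l 2) (b (l 207330070615) (l 207330158359))) (a (b (l 212161847975) (l 212161947447)) (b (l 15387408) (l 15429568))))) (b (b (a (l 2) (l 199814202663)) (a (b (l 201961467047) (l 201961541319)) (l 189613788039))) (b (a (b (l 15424376) (l 15460272)) (l 15557952)) (a (l 15517024) (l 15625464))))) (a (b (a (b (l 182097747655) (l 15620440)) (b (l 15708376) (l 15747080))) (b (a (l 15674176) (l 15791320)) (l 15787568))) (b (b (l 15921128) (l 15941672)) (b (l 15967576) (l 15998448)))))) (b (a (b (a (a (b (l 16198240) (l 16177816)) (b (l 16334616) (l 16354288))) (b (a (l 16471456) (l 16606776)) (a (l 16491040) (l 16629640))))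 (a (a (l 16147632) (l 16307328)) (a (l 16454776) (l 16571976)))) (a (b (a (l 16670408) (l 16844728)) (b (l 16700480) (l 16601248))) (b (a (l 16833360) (b (l 16773472) (l 16652952))) (a (l 16600136) (b (l 16555064) (l 16477192)))))) (a (a (b (b (l 16200488) (l 16190112)) (b (l 16186168) (l 16188384))) (b (l 16406088) (l 16333784))) (a (b (a (l 16480160) (l 16477016)) (a (l 16376568) (l 16368032))) (b (a (l 16443456) (b (l 16413200) (l 16363080))) (a (l 16344992) (b (l 16324808) (l 16296496)))))))), by decide +kernel⟩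

theorem s3_pm_113 : ∃ t, chk3 f_pm_113 t 1 3 1 = true := ex3_b k1_pm_113 k2_pm_113

theorem s4_pm_113 : ∃ t, chk3 f_pm_113 t 1 1 1 = true := ex3_b k0_pm_113 s3_pm_113

theorem c_pm_113 : CertB 536870912 536870912 0 1230186008 780900216 37827925 3 eng mog cd0q1 cd3q3 pd1 false true false .nn 1 1 3
    ndB0q1 ndB3q3 pcB1 cut_pm_113 Ext.none :=
  certB0 (fam := false) (s1 := true) (s2 := false) (a := 1) (b := 1) (c := 3) (cn := .nn) (n1 := ndB0q1) (n2 := ndB3q3) (pc := pcB1) (cut := cut_pm_113) (xt := Ext.none) (P1 := 536870912) (W1 := 536870912) (P2 := 0) (W2 := 1230186008) (P3 := 780900216) (W3 := 37827925) (N0 := 3) (En := eng) (mo := mog) (C1 := cd0q1) (C2 := cd3q3) (C3 := pd1)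
    rfl s4_pm_113

noncomputable def cut_pm_123 : Cut := Cut.of [[⟨0, 1, 0, 67108864⟩, ⟨1, 1, 0, 67108864⟩, ⟨2, 2, 0, 16777216⟩]]

noncomputable def f_pm_123 : ℕ → ℕ → ℕ → ℕ → Bool := onCell 1073741824 536870912 0 1230186008 780900216 37827925
    (rowB 3 eng mog cd0q1 cd3q3 pd2 2 false true false .npn 1 2 3 (qsf 536870912 536870912 0 1230186008 2) ndB0q1 ndB3q3 pcB2 cut_pm_123 Ext.none)

def k0_pm_123 : ∃ t, chk3 f_pm_123 t 1 2 1 = true :=
  ⟨(a (a (a (b (a (b (l 6) (b (l 6) (a (l 16700256) (l 16674472)))) (b (a (l 6) (l 16684400)) (b (l 16664800) (l 16632792)))) (b (a (b (a (l 16666704) (l 16638832)) (l 16613512)) (b (l 16596224) (l 16556288))) (b (a (l 16569296) (l 16503408)) (a (l 16507816) (l 16440408))))) (b (a (b (l 16564360) (a (l 16605928) (l 16576592))) (b (l 16594104) (l 16521904))) (b (a (l 16517872) (l 16469016)) (a (a (l 16573768) (l 16400336)) (b (l 16396328) (l 16335280)))))) (b (a (a (b (a (l 16572424) (a (l 16565200) (l 16562136))) (l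 16519784)) (l 16316176)) (a (l 16534488) (l 16507400))) (a (b (a (l 16443392) (l 16425376)) (a (l 16397232) (l 16315320))) (b (l 16562248) (b (l 16338576) (l 16257168)))))) (a (b (a (l 16248488) (l 16345744)) (a (b (l 16410648) (l 16318336)) (b (l 16417784) (l 16327960)))) (b (a (l 16493640) (l 16490056)) (a (b (l 16421320) (l 16329520)) (b (l 16409352) (l 16313040)))))), by decide +kernel⟩

def k1_pm_123 : ∃ t, chk3 f_pm_123 t 1 6 1 = true :=
  ⟨(a (b (a (a (a (a (b (l 16450304) (l 16358952)) (b (l 16414872) (l 16324112))) (b (l 16366008) (a (l 16292440) (l 16264072)))) (b (a (l 16310072) (l 16264608)) (a (a (l 16237856) (l 16213216)) (b (l 16203168) (l 16156600))))) (a (a (b (l 16226096) (l 16140776)) (b (l 16207896) (l 16121560))) (a (l 16168312) (l 16167184)))) (a (b (a (a (b (l 16262968) (b (l 16220688) (a (l 16206720) (l 16174704)))) (a (b (l 16217120) (l 16159688)) (b (l 16189040) (l 16128480)))) (a (b (l 16150440) (l 16084544)) (b (l 16098808)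 (l 16037128)))) (b (a (a (b (l 16158168) (l 16118656)) (l 16069920)) (a (l 16007024) (l 15953032))) (a (a (a (l 16073040) (l 16016240)) (l 15951448)) (a (l 15894128) (l 15862944))))) (b (a (b (l 16052552) (l 15993544)) (b (l 16051072) (l 15990392))) (a (a (l 15883584) (l 15883592)) (a (l 15896576) (l 15916392)))))) (b (a (a (a (l 16174992) (l 16184760)) (l 16189000)) (a (a (l 16184376) (l 1)) (l 1))) (a (b (a (l 16038456) (l 16046104)) (a (l 16044712) (l 1))) (l 1)))), by decide +kernel⟩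

def k2_pm_123 : ∃ t, chk3 f_pm_123 t 1 7 1 = true :=
  ⟨(a (b (a (b (a (a (a (b (l 15905616) (l 15784392)) (b (l 15868368) (l 15742272))) (b (l 15828632) (l 15744432))) (b (a (l 15797192) (l 15783768)) (a (l 15713240) (l 15715240)))) (a (a (b (a (l 15644712) (l 15637888)) (a (l 15548400) (l 15551648))) (b (l 15635208) (l 15561696))) (a (b (l 15641696) (l 15580888)) (b (l 15655440) (l 15605664))))) (b (a (a (l 15752712) (l 15771144)) (a (l 15796936) (l 15823752))) (a (a (l 15653512) (l 15682648)) (l 1)))) (a (a (b (a (b (a (l 15469832) (l 15480896)) (a (l 15468976) (l 15423488))) (b (l 15500576) (a (l 15442000) (l 15461552)))) (b (a (a (b (l 15367304) (l 15345720)) (l 15463040)) (a (l 15402632) (l 15426504))) (a (b (a (l 15327448) (l 15353920)) (a (l 15312408) (l 15341104))) (a (l 15375056) (l 1))))) (b (a (b (l 15531336) (l 15491744)) (b (l 15564616) (l 15532472))) (b (a (l 15462672) (l 1)) (l 1)))) (a (b (a (b (l 15599304) (l 1)) (l 1)) (l 1)) (l 1))))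 (l 1)), by decide +kernel⟩

theorem s3_pm_123 : ∃ t, chk3 f_pm_123 t 1 3 1 = true := ex3_b k1_pm_123 k2_pm_123

theorem s4_pm_123 : ∃ t, chk3 f_pm_123 t 1 1 1 = true := ex3_b k0_pm_123 s3_pm_123

theorem c_pm_123 : CertB 536870912 536870912 0 1230186008 780900216 37827925 3 eng mog cd0q1 cd3q3 pd2 false true false .npn 1 2 3
    ndB0q1 ndB3q3 pcB2 cut_pm_123 Ext.none :=
  certB2 (fam := false) (s1 := true) (s2 := false) (a := 1) (b := 2) (c := 3) (cn := .npn) (n1 := ndB0q1) (n2 := ndB3q3) (pc := pcB2) (cut := cut_pm_123) (xt := Ext.none) (P1 := 536870912) (W1 := 536870912) (P2 := 0) (W2 := 1230186008) (P3 := 780900216) (W3 := 37827925) (N0 := 3) (En := eng) (mo := mog) (C1 := cd0q1) (C2 := cd3q3) (C3 := pd2)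
    rfl (fun _ => rfl) s4_pm_123

noncomputable def f_pm_133 : ℕ → ℕ → ℕ → ℕ → Bool := onCell 536870912 536870912 0 1230186008 780900216 37827925
    (rowB 3 eng mog cd0q1 cd3q3 pd3 0 false true false .dn 1 3 3 (qsf 536870912 536870912 0 1230186008 3) ndB0q1 ndB3q3 pcB3 Cut.none Ext.none)

def k0_pm_133 : ∃ t, chk3 f_pm_133 t 1 1 1 = true :=
  ⟨(b (b (a (a (a (l 16576896) (l 1)) (l 1)) (l 1)) (l 1)) (l 1)), by decide +kernel⟩

theorem c_pm_133 : CertB 536870912 536870912 0 1230186008 780900216 37827925 3 eng mog cd0q1 cd3q3 pd3 false true false .dn 1 3 3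
    ndB0q1 ndB3q3 pcB3 Cut.none Ext.none :=
  certB0 (fam := false) (s1 := true) (s2 := false) (a := 1) (b := 3) (c := 3) (cn := .dn) (n1 := ndB0q1) (n2 := ndB3q3) (pc := pcB3) (cut := Cut.none) (xt := Ext.none) (P1 := 536870912) (W1 := 536870912) (P2 := 0) (W2 := 1230186008) (P3 := 780900216) (W3 := 37827925) (N0 := 3) (En := eng) (mo := mog) (C1 := cd0q1) (C2 := cd3q3) (C3 := pd3)
    rfl k0_pm_133

noncomputable def f_pm_202 : ℕ → ℕ → ℕ → ℕ → Bool := onCell 0 536870912 0 536870912 780900216 37827925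
    (rowB 3 eng mog cd0q2 cd3q2 pd0 1 false true false .pp 2 0 2 (qsf 0 536870912 1073741824 536870912 0) ndB0q2 ndB3q2 pcB0 Cut.none Ext.none)

def k0_pm_202 : ∃ t, chk3 f_pm_202 t 2 1 1 = true :=
  ⟨(l 3), by decide +kernel⟩

def k1_pm_202 : ∃ t, chk3 f_pm_202 t 6 2 1 = true :=
  ⟨(b (b (a (b (l 3) (l 3)) (a (b (a (b (b (a (a (l 16569416) (l 16553088)) (l 16545136)) (a (a (l 16531688) (b (l 16536376) (l 16538792))) (b (l 16546528) (l 16507304)))) (b (a (b (a (l 16532016) (l 16537696)) (l 16533536)) (a (b (l 16543512) (l 16542152)) (l 16553528))) (a (l 16532576) (l 16562160)))) (b (l 16570384) (b (l 16571016) (l 16570440)))) (a (b (b (a (l 16531256) (l 16500552)) (l 94656452007)) (a (l 3) (l 16531192))) (a (b (a (l 16548864) (l 16555528)) (l 16548280)) (b (l 16574232) (l 16560192))))) (b (b (l 16602248) (l 16583880)) (b (a (l 16624072) (l 16565768)) (a (l 16637880) (l 16565128)))))) (a (l 3) (a (b (b (a (a (l 3) (l 16523880)) (a (l 16538504) (l 16555712)))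 (b (l 206862640391) (l 206862636311))) (a (b (l 16508584) (l 3)) (b (l 16508672) (l 16481016)))) (b (a (b (a (l 16571224) (l 16568424)) (l 16629024)) (b (l 16601056) (l 16552240))) (a (b (l 16562000) (l 16554288)) (b (l 16548072) (l 16543424))))))) (a (l 3) (b (a (a (l 3) (a (b (l 230484880487) (l 3)) (b (l 16521864) (l 193977762663)))) (a (b (l 16542312) (l 16575528)) (b (l 16534112) (l 16518808)))) (b (a (b (l 140290326215) (l 3)) (b (l 16514944) (l 16507304))) (a (l 3) (a (c (l 16510440) (l 16494560)) (l 16488688))))))), by decide +kernel⟩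

def k2_pm_202 : ∃ t, chk3 f_pm_202 t 7 2 1 = true :=
  ⟨(b (b (a (b (a (l 16577480) (l 16543768)) (a (b (l 16547680) (l 16536488)) (l 16519472))) (b (a (b (a (l 16567728) (b (l 16563960) (l 16553640))) (l 16538944)) (b (a (b (l 16536552) (l 16533816)) (l 16505824)) (a (l 16522656) (l 16500840)))) (a (l 16500792) (b (a (l 16499208) (l 16484032)) (l 16466416))))) (a (a (b (b (l 16531600) (a (l 16536880) (l 16517968))) (b (a (l 16530608) (l 16514400)) (a (l 16526168) (l 16508480)))) (b (l 16493768) (l 16483064))) (a (b (l 16460248) (l 16441736)) (b (l 16428296) (l 16395208))))) (b (b (a (a (b (l 16511168) (l 16505976)) (a (l 16482688) (l 16464288))) (l 16427160)) (a (a (a (l 16503832) (l 16485672)) (a (l 16468104) (l 16449576))) (a (b (l 16421600) (l 16414392)) (l 16366544)))) (a (a (b (a (l 16486192) (l 16469176)) (a (l 16471520) (b (l 16457416) (l 16449712)))) (b (l 16441752) (l 16425712))) (b (a (a (l 16412976) (l 16390640)) (l 16350520)) (a (l 16384416)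 (l 16337224)))))), by decide +kernel⟩

def k3_pm_202 : ∃ t, chk3 f_pm_202 t 3 3 1 = true :=
  ⟨(b (a (a (l 3) (a (l 3) (b (b (c (a (l 16497416) (l 16484672)) (a (l 16479032) (l 16463104))) (c (a (l 16485216) (l 16472624)) (a (l 16465704) (l 16449808)))) (b (c (l 101099053655) (a (l 3) (l 16439088))) (c (l 104320237623) (l 103246453735)))))) (a (b (a (b (a (l 16457752) (l 16459952)) (c (l 16449440) (l 16420960))) (b (l 16433240) (a (l 16408616) (l 16389312)))) (a (b (c (l 16438800) (l 16410072)) (c (l 16429072) (l 16401736))) (b (a (l 16397736) (l 16379256)) (a (l 16389536) (l 16370552))))) (b (a (b (l 16370256) (l 16357688)) (b (l 16322552) (l 16308224))) (a (l 16426920) (l 16294432))))) (a (b (a (l 3) (a (l 3) (b (c (l 106467676199) (l 109688907431)) (c (l 197735676359) (l 285782529783))))) (l 2)) (b (a (a (b (c (a (l 16427352) (l 16412480)) (l 16395448)) (c (l 16391408) (l 16412264))) (b (c (l 16389056) (l 16354960)) (c (l 16382840) (l 16352008)))) (a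 (b (l 16333968) (a (l 16340768) (l 16319600))) (l 16284544))) (a (b (a (c (l 408121902535) (l 388257735319)) (l 58082038023)) (l 2)) (a (b (a (l 16339344) (l 16318984)) (l 296452721975)) (l 16285480)))))), by decide +kernel⟩

theorem s4_pm_202 : ∃ t, chk3 f_pm_202 t 3 2 1 = true := ex3_a k1_pm_202 k2_pm_202

theorem s5_pm_202 : ∃ t, chk3 f_pm_202 t 3 1 1 = true := ex3_b s4_pm_202 k3_pm_202

theorem s6_pm_202 : ∃ t, chk3 f_pm_202 t 1 1 1 = true := ex3_a k0_pm_202 s5_pm_202

theorem c_pm_202 : CertB 0 536870912 1073741824 536870912 780900216 37827925 3 eng mog cd0q2 cd3q2 pd0 false true false .pp 2 0 2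
    ndB0q2 ndB3q2 pcB0 Cut.none Ext.none :=
  certB1 (fam := false) (s1 := true) (s2 := false) (a := 2) (b := 0) (c := 2) (cn := .pp) (n1 := ndB0q2) (n2 := ndB3q2) (pc := pcB0) (cut := Cut.none) (xt := Ext.none) (P1 := 0) (W1 := 536870912) (P2 := 1073741824) (W2 := 536870912) (P3 := 780900216) (W3 := 37827925) (N0 := 3) (En := eng) (mo := mog) (C1 := cd0q2) (C2 := cd3q2) (C3 := pd0)
    rfl (fun _ => rfl) s6_pm_202

noncomputable def f_pm_203 : ℕ → ℕ → ℕ → ℕ → Bool := onCell 0 536870912 0 1230186008 780900216 37827925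
    (rowB 3 eng mog cd0q2 cd3q3 pd0 0 false true false .up 2 0 3 (qsf 0 536870912 0 1230186008 0) ndB0q2 ndB3q3 pcB0 Cut.none Ext.none)

def k0_pm_203 : ∃ t, chk3 f_pm_203 t 1 1 1 = true :=
  ⟨(b (l 2) (a (l 3) (b (l 2) (b (l 2) (a (b (l 3) (a (l 3) (l 3))) (b (a (a (a (a (l 3) (l 2)) (l 2)) (l 2)) (l 2)) (a (b (a (c (a (l 16412688) (l 16397440)) (a (l 91435220839) (l 16382120))) (b (l 16370552) (l 16367840))) (a (c (a (l 84992674327) (l 16398224)) (b (l 16389504) (l 16390120))) (b (l 16366616) (l 16367024)))) (b (a (l 72040726711) (l 2)) (a (a (l 16340256) (l 16321544)) (l 16291192)))))))))), by decide +kernel⟩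

theorem c_pm_203 : CertB 0 536870912 0 1230186008 780900216 37827925 3 eng mog cd0q2 cd3q3 pd0 false true false .up 2 0 3
    ndB0q2 ndB3q3 pcB0 Cut.none Ext.none :=
  certB0 (fam := false) (s1 := true) (s2 := false) (a := 2) (b := 0) (c := 3) (cn := .up) (n1 := ndB0q2) (n2 := ndB3q3) (pc := pcB0) (cut := Cut.none) (xt := Ext.none) (P1 := 0) (W1 := 536870912) (P2 := 0) (W2 := 1230186008) (P3 := 780900216) (W3 := 37827925) (N0 := 3) (En := eng) (mo := mog) (C1 := cd0q2) (C2 := cd3q3) (C3 := pd0)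
    rfl k0_pm_203

noncomputable def cut_pm_213 : Cut := Cut.of [[⟨0, 1, 0, 67108864⟩, ⟨1, 1, 0, 67108864⟩, ⟨2, 2, 0, 16777216⟩]]

noncomputable def f_pm_213 : ℕ → ℕ → ℕ → ℕ → Bool := onCell 0 536870912 0 1230186008 780900216 37827925
    (rowB 3 eng mog cd0q2 cd3q3 pd1 0 false true false .pnn 2 1 3 (qsf 0 536870912 0 1230186008 1) ndB0q2 ndB3q3 pcB1 cut_pm_213 Ext.none)

def k0_pm_213 : ∃ t, chk3 f_pm_213 t 1 2 1 = true :=
  ⟨(a (l 3) (b (a (l 3) (a (l 3) (b (l 6) (a (l 3) (a (b (l 6) (a (a (l 3) (b (b (l 3) (l 382419864807)) (b (l 292225554855) (l 255718343399)))) (b (c (a (b (l 287393715495) (l 245517792407)) (l 16781240)) (a (b (l 294909916839) (l 255718312695)) (l 16769984))) (a (b (l 16781760) (l 16782888)) (l 16782936))))) (b (l 6) (b (a (l 16781536) (l 16782192)) (l 16763344)))))))) (a (l 3) (b (a (l 3) (a (a (l 3) (b (a (l 3) (b (l 3) (b (l 329269648999) (l 282561882007)))) (a (b (l 3) (a (l 3) (l 276119422023))) (b (b (l 276656303575) (l 235854081527))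 (b (l 218137338743) (l 16782400)))))) (b (a (a (b (a (b (l 330343392167) (l 275045698215)) (b (l 16783376) (l 16784632))) (b (l 239612187159) (l 16786344))) (b (l 16785248) (l 16788168))) (a (l 16767344) (l 16768704))) (a (b (a (l 16766664) (l 16790896)) (l 16769464)) (l 16775328))))) (a (l 3) (a (b (a (b (l 3) (l 3)) (b (a (b (l 250349610343) (l 222432331975)) (l 16762104)) (a (b (l 187535719527) (l 183777619335)) (l 16777432)))) (a (a (l 3) (b (a (l 3) (b (l 177335144519) (l 174650786343))) (b (a (a (l 3) (l 171429545639)) (l 51707340999)) (a (b (l 167134564839) (l 164450207111)) (l 16750976))))) (b (a (b (l 16765984) (l 16763840)) (l 16774080)) (b (l 16745664) (l 16743504))))) (b (a (b (l 16769600) (l 16789056)) (l 16780952)) (a (b (l 16787184) (l 16785128)) (l 16802848))))))))), by decide +kernel⟩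

def k1_pm_213 : ∃ t, chk3 f_pm_213 t 2 6 1 = true :=
  ⟨(l 3), by decide +kernel⟩

def k2_pm_213 : ∃ t, chk3 f_pm_213 t 3 12 1 = true :=
  ⟨(a (l 3) (a (a (l 3) (b (l 3) (a (l 3) (b (a (l 3) (a (l 3) (b (b (l 3) (b (l 3) (l 3))) (a (l 3) (b (c (l 152102099127) (a (l 3) (l 143512158567))) (c (b (l 145122769415) (l 139754056871)) (b (l 139754051207) (l 134385341639)))))))) (a (l 3) (b (a (l 3) (a (b (c (l 215452848471) (a (l 3) (l 212231620263))) (c (l 140827789127) (l 135995945335))) (b (c (l 16700272) (l 127942889175)) (l 16696440)))) (b (a (b (l 214915958887) (l 147807092119)) (b (l 127406006775) (l 16692280))) (a (a (l 3) (l 135459063143)) (l 16690816))))))))) (a (b (a (b (a (a (l 3) (b (a (l 3) (l 166060813319)) (b (l 161765830343) (l 158007729799)))) (b (a (b (l 160692106567) (l 16741008)) (l 16747752)) (a (b (l 16739080) (l 16737080)) (l 16744216)))) (a (a (b (b (l 3) (l 161765804343)) (a (b (l 3) (l 161228919623)) (b (l 154249609319) (c (l 16718688)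 (l 16714776))))) (a (b (b (l 156933979383) (l 115058042503)) (c (l 16723080) (l 16719280))) (b (l 16729024) (l 16724464)))) (b (a (l 16733904) (l 16740328)) (l 16732928)))) (b (a (l 16775816) (l 16766248)) (l 16733560))) (b (a (a (a (b (c (b (l 149417763543) (l 76403312935)) (a (b (l 149954623959) (l 90361947239)) (l 16711344))) (b (c (l 16709880) (l 16706344)) (b (l 16706376) (l 16705312)))) (b (l 16718280) (l 16713936))) (b (l 16728640) (l 16724520))) (l 16726704)) (a (a (b (a (b (l 16703752) (l 16701744)) (l 16709848)) (l 16681552)) (l 16697984)) (l 16740632)))) (b (b (l 16730256) (l 16791240)) (b (l 16788104) (l 16784432)))))), by decide +kernel⟩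

def k3_pm_213 : ∃ t, chk3 f_pm_213 t 3 13 1 = true :=
  ⟨(a (l 3) (b (a (a (l 3) (a (l 3) (a (b (a (l 3) (b (l 3) (l 196662294679))) (b (a (l 3) (l 124184723559)) (b (b (l 125258442711) (l 122037207623)) (c (l 119889721447) (l 116131609735))))) (b (b (b (a (l 131164048519) (l 16688744)) (l 120963519271)) (a (l 16654480) (l 16682976))) (b (l 16673808) (c (l 16668240) (l 16646320))))))) (a (b (a (a (a (l 16671896) (l 16700376)) (l 16711488)) (l 16734432)) (b (a (l 16697512) (l 16729392)) (b (a (l 16693544) (l 16726288)) (l 16686368)))) (b (l 16780536) (b (l 16777296) (l 16774736))))) (a (a (l 3) (b (a (b (l 3) (b (l 209010229751) (l 130627044055))) (b (a (b (l 112910390743) (l 16641384)) (l 16659992)) (b (l 16641096) (l 16623408)))) (a (a (l 3) (b (b (l 123647764375) (l 118279044007)) (c (l 110762840423) (l 107004669655)))) (b (a (l 16589888) (l 16606448)) (l 16566696))))) (b (a (a (b (l 16685472) (l 16674840)) (l 16716744)) (l 16769440)) (a (b (l 16656224)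 (l 16615648)) (l 16740512)))))), by decide +kernel⟩

def k4_pm_213 : ∃ t, chk3 f_pm_213 t 1 7 1 = true :=
  ⟨(b (a (l 3) (a (l 3) (b (a (a (l 3) (b (b (a (a (l 285245847751) (l 97877911783)) (l 16538184)) (a (a (l 111299634871) (l 16500368)) (l 16512736))) (b (a (b (l 16483736) (l 16474832)) (l 16490176)) (b (l 16470840) (l 16462264))))) (b (a (b (l 16578728) (l 16545208)) (l 16634264)) (a (a (l 16492896) (l 16510088)) (l 16547024)))) (a (a (a (l 3) (b (l 308331195047) (b (l 16429816) (l 16420592)))) (b (b (l 16450472) (l 16436248)) (b (l 16423424) (l 16412016)))) (a (b (l 16452944) (l 16414352)) (b (l 16477008) (l 16420544))))))) (a (l 3) (a (b (l 3) (l 1)) (b (a (b (a (a (l 3) (b (l 16412776) (l 16406336))) (b (l 16402000) (l 16393384))) (a (a (b (l 3) (l 16412400)) (b (l 16401256) (l 16397576))) (b (l 16386160) (l 16380392)))) (a (b (l 16384144) (l 16361264)) (b (l 16374696) (l 16339384)))) (b (b (a (a (a (l 95730095815) (l 16395088)) (l 16375888))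 (a (l 16348720) (l 16319536))) (a (a (l 1) (l 16372720)) (a (l 16342472) (l 16309040)))) (a (l 1) (a (a (l 16344664) (l 16389160)) (l 16296576)))))))), by decide +kernel⟩

theorem s5_pm_213 : ∃ t, chk3 f_pm_213 t 3 6 1 = true := ex3_b k2_pm_213 k3_pm_213

theorem s6_pm_213 : ∃ t, chk3 f_pm_213 t 1 6 1 = true := ex3_a k1_pm_213 s5_pm_213

theorem s7_pm_213 : ∃ t, chk3 f_pm_213 t 1 3 1 = true := ex3_b s6_pm_213 k4_pm_213

theorem s8_pm_213 : ∃ t, chk3 f_pm_213 t 1 1 1 = true := ex3_b k0_pm_213 s7_pm_213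

theorem c_pm_213 : CertB 0 536870912 0 1230186008 780900216 37827925 3 eng mog cd0q2 cd3q3 pd1 false true false .pnn 2 1 3
    ndB0q2 ndB3q3 pcB1 cut_pm_213 Ext.none :=
  certB0 (fam := false) (s1 := true) (s2 := false) (a := 2) (b := 1) (c := 3) (cn := .pnn) (n1 := ndB0q2) (n2 := ndB3q3) (pc := pcB1) (cut := cut_pm_213) (xt := Ext.none) (P1 := 0) (W1 := 536870912) (P2 := 0) (W2 := 1230186008) (P3 := 780900216) (W3 := 37827925) (N0 := 3) (En := eng) (mo := mog) (C1 := cd0q2) (C2 := cd3q3) (C3 := pd1)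
    rfl s8_pm_213

noncomputable def f_mm_001 : ℕ → ℕ → ℕ → ℕ → Bool := onCell 0 536870912 0 536870912 780900216 37827925
    (rowB 3 eng mog cd0q0 cd3q1 pd0 1 false false false .up 0 0 1 (qsf 0 536870912 536870912 536870912 0) ndB0q0 ndB3q1 pcB0 Cut.none Ext.none)

def k0_mm_001 : ∃ t, chk3 f_mm_001 t 1 1 1 = true :=
  ⟨(l 3), by decide +kernel⟩

theorem c_mm_001 : CertB 0 536870912 536870912 536870912 780900216 37827925 3 eng mog cd0q0 cd3q1 pd0 false false false .up 0 0 1
    ndB0q0 ndB3q1 pcB0 Cut.none Ext.none :=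
  certB1 (fam := false) (s1 := false) (s2 := false) (a := 0) (b := 0) (c := 1) (cn := .up) (n1 := ndB0q0) (n2 := ndB3q1) (pc := pcB0) (cut := Cut.none) (xt := Ext.none) (P1 := 0) (W1 := 536870912) (P2 := 536870912) (W2 := 536870912) (P3 := 780900216) (W3 := 37827925) (N0 := 3) (En := eng) (mo := mog) (C1 := cd0q0) (C2 := cd3q1) (C3 := pd0)
    rfl (fun _ => rfl) k0_mm_001

noncomputable def f_mm_011 : ℕ → ℕ → ℕ → ℕ → Bool := onCell 0 536870912 536870912 536870912 780900216 37827925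
    (rowB 3 eng mog cd0q0 cd3q1 pd1 1 false false false .pnn 0 1 1 (qsf 0 536870912 536870912 536870912 1) ndB0q0 ndB3q1 pcB1 Cut.none Ext.none)

def k0_mm_011 : ∃ t, chk3 f_mm_011 t 1 1 1 = true :=
  ⟨(l 5), by decide +kernel⟩

theorem c_mm_011 : CertB 0 536870912 536870912 536870912 780900216 37827925 3 eng mog cd0q0 cd3q1 pd1 false false false .pnn 0 1 1
    ndB0q0 ndB3q1 pcB1 Cut.none Ext.none :=
  certB1 (fam := false) (s1 := false) (s2 := false) (a := 0) (b := 1) (c := 1) (cn := .pnn) (n1 := ndB0q0) (n2 := ndB3q1) (pc := pcB1) (cut := Cut.none) (xt := Ext.none) (P1 := 0) (W1 := 536870912) (P2 := 536870912) (W2 := 536870912) (P3 := 780900216) (W3 := 37827925) (N0 := 3) (En := eng) (mo := mog) (C1 := cd0q0) (C2 := cd3q1) (C3 := pd1)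
    rfl (fun _ => rfl) k0_mm_011

noncomputable def f_mm_012 : ℕ → ℕ → ℕ → ℕ → Bool := onCell 0 536870912 1073741824 536870912 780900216 37827925
    (rowB 3 eng mog cd0q0 cd3q2 pd1 0 false false false .pnp 0 1 2 (qsf 0 536870912 1073741824 536870912 1) ndB0q0 ndB3q2 pcB1 Cut.none Ext.none)

def k0_mm_012 : ∃ t, chk3 f_mm_012 t 1 1 1 = true :=
  ⟨(l 5), by decide +kernel⟩

theorem c_mm_012 : CertB 0 536870912 1073741824 536870912 780900216 37827925 3 eng mog cd0q0 cd3q2 pd1 false false false .pnp 0 1 2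
    ndB0q0 ndB3q2 pcB1 Cut.none Ext.none :=
  certB0 (fam := false) (s1 := false) (s2 := false) (a := 0) (b := 1) (c := 2) (cn := .pnp) (n1 := ndB0q0) (n2 := ndB3q2) (pc := pcB1) (cut := Cut.none) (xt := Ext.none) (P1 := 0) (W1 := 536870912) (P2 := 1073741824) (W2 := 536870912) (P3 := 780900216) (W3 := 37827925) (N0 := 3) (En := eng) (mo := mog) (C1 := cd0q0) (C2 := cd3q2) (C3 := pd1)
    rfl k0_mm_012

noncomputable def f_mm_022 : ℕ → ℕ → ℕ → ℕ → Bool := onCell 0 536870912 1073741824 536870912 780900216 37827925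
    (rowB 3 eng mog cd0q0 cd3q2 pd2 0 false false false .pp 0 2 2 (qsf 0 536870912 1073741824 536870912 2) ndB0q0 ndB3q2 pcB2 Cut.none Ext.none)

def k0_mm_022 : ∃ t, chk3 f_mm_022 t 1 1 1 = true :=
  ⟨(l 5), by decide +kernel⟩

theorem c_mm_022 : CertB 0 536870912 1073741824 536870912 780900216 37827925 3 eng mog cd0q0 cd3q2 pd2 false false false .pp 0 2 2
    ndB0q0 ndB3q2 pcB2 Cut.none Ext.none :=
  certB0 (fam := false) (s1 := false) (s2 := false) (a := 0) (b := 2) (c := 2) (cn := .pp) (n1 := ndB0q0) (n2 := ndB3q2) (pc := pcB2) (cut := Cut.none) (xt := Ext.none) (P1 := 0) (W1 := 536870912) (P2 := 1073741824) (W2 := 536870912) (P3 := 780900216) (W3 := 37827925) (N0 := 3) (En := eng) (mo := mog) (C1 := cd0q0) (C2 := cd3q2) (C3 := pd2)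
    rfl k0_mm_022

noncomputable def f_mm_023 : ℕ → ℕ → ℕ → ℕ → Bool := onCell 0 536870912 0 1230186008 780900216 37827925
    (rowB 3 eng mog cd0q0 cd3q3 pd2 0 false false false .up 0 2 3 (qsf 0 536870912 0 1230186008 2) ndB0q0 ndB3q3 pcB2 Cut.none Ext.none)

def k0_mm_023 : ∃ t, chk3 f_mm_023 t 1 1 1 = true :=
  ⟨(l 5), by decide +kernel⟩

theorem c_mm_023 : CertB 0 536870912 0 1230186008 780900216 37827925 3 eng mog cd0q0 cd3q3 pd2 false false false .up 0 2 3
    ndB0q0 ndB3q3 pcB2 Cut.none Ext.none :=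
  certB0 (fam := false) (s1 := false) (s2 := false) (a := 0) (b := 2) (c := 3) (cn := .up) (n1 := ndB0q0) (n2 := ndB3q3) (pc := pcB2) (cut := Cut.none) (xt := Ext.none) (P1 := 0) (W1 := 536870912) (P2 := 0) (W2 := 1230186008) (P3 := 780900216) (W3 := 37827925) (N0 := 3) (En := eng) (mo := mog) (C1 := cd0q0) (C2 := cd3q3) (C3 := pd2)
    rfl k0_mm_023

noncomputable def f_mm_033 : ℕ → ℕ → ℕ → ℕ → Bool := onCell 0 536870912 0 1230186008 780900216 37827925
    (rowB 3 eng mog cd0q0 cd3q3 pd3 0 false false false .pnn 0 3 3 (qsf 0 536870912 0 1230186008 3) ndB0q0 ndB3q3 pcB3 Cut.none Ext.none)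

def k0_mm_033 : ∃ t, chk3 f_mm_033 t 1 1 1 = true :=
  ⟨(l 5), by decide +kernel⟩

theorem c_mm_033 : CertB 0 536870912 0 1230186008 780900216 37827925 3 eng mog cd0q0 cd3q3 pd3 false false false .pnn 0 3 3
    ndB0q0 ndB3q3 pcB3 Cut.none Ext.none :=
  certB0 (fam := false) (s1 := false) (s2 := false) (a := 0) (b := 3) (c := 3) (cn := .pnn) (n1 := ndB0q0) (n2 := ndB3q3) (pc := pcB3) (cut := Cut.none) (xt := Ext.none) (P1 := 0) (W1 := 536870912) (P2 := 0) (W2 := 1230186008) (P3 := 780900216) (W3 := 37827925) (N0 := 3) (En := eng) (mo := mog) (C1 := cd0q0) (C2 := cd3q3) (C3 := pd3)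
    rfl k0_mm_033

noncomputable def cut_mm_101 : Cut := Cut.of [[⟨0, 1, 0, 67108864⟩, ⟨1, 0, 0, 67108864⟩, ⟨2, 1, 0, 67108864⟩]]

noncomputable def f_mm_101 : ℕ → ℕ → ℕ → ℕ → Bool := onCell 536870912 536870912 0 536870912 780900216 37827925
    (rowB 3 eng mog cd0q1 cd3q1 pd0 1 false false false .npn 1 0 1 (qsf 536870912 536870912 536870912 536870912 0) ndB0q1 ndB3q1 pcB0 cut_mm_101 Ext.none)

def k0_mm_101 : ∃ t, chk3 f_mm_101 t 1 1 1 = true :=
  ⟨(a (l 3) (b (a (l 3) (b (a (l 3) (b (a (l 3) (b (l 6) (l 3))) (l 3))) (l 3))) (l 3))), by decide +kernel⟩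

theorem c_mm_101 : CertB 536870912 536870912 536870912 536870912 780900216 37827925 3 eng mog cd0q1 cd3q1 pd0 false false false .npn 1 0 1
    ndB0q1 ndB3q1 pcB0 cut_mm_101 Ext.none :=
  certB1 (fam := false) (s1 := false) (s2 := false) (a := 1) (b := 0) (c := 1) (cn := .npn) (n1 := ndB0q1) (n2 := ndB3q1) (pc := pcB0) (cut := cut_mm_101) (xt := Ext.none) (P1 := 536870912) (W1 := 536870912) (P2 := 536870912) (W2 := 536870912) (P3 := 780900216) (W3 := 37827925) (N0 := 3) (En := eng) (mo := mog) (C1 := cd0q1) (C2 := cd3q1) (C3 := pd0)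
    rfl (fun _ => rfl) k0_mm_101

noncomputable def f_mm_102 : ℕ → ℕ → ℕ → ℕ → Bool := onCell 536870912 536870912 0 536870912 780900216 37827925
    (rowB 3 eng mog cd0q1 cd3q2 pd0 1 false false false .npp 1 0 2 (qsf 536870912 536870912 1073741824 536870912 0) ndB0q1 ndB3q2 pcB0 Cut.none Ext.none)

def k0_mm_102 : ∃ t, chk3 f_mm_102 t 1 1 1 = true :=
  ⟨(l 3), by decide +kernel⟩

theorem c_mm_102 : CertB 536870912 536870912 1073741824 536870912 780900216 37827925 3 eng mog cd0q1 cd3q2 pd0 false false false .npp 1 0 2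
    ndB0q1 ndB3q2 pcB0 Cut.none Ext.none :=
  certB1 (fam := false) (s1 := false) (s2 := false) (a := 1) (b := 0) (c := 2) (cn := .npp) (n1 := ndB0q1) (n2 := ndB3q2) (pc := pcB0) (cut := Cut.none) (xt := Ext.none) (P1 := 536870912) (W1 := 536870912) (P2 := 1073741824) (W2 := 536870912) (P3 := 780900216) (W3 := 37827925) (N0 := 3) (En := eng) (mo := mog) (C1 := cd0q1) (C2 := cd3q2) (C3 := pd0)
    rfl (fun _ => rfl) k0_mm_102

noncomputable def f_mm_112 : ℕ → ℕ → ℕ → ℕ → Bool := onCell 536870912 536870912 1073741824 536870912 780900216 37827925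
    (rowB 3 eng mog cd0q1 cd3q2 pd1 2 false false false .dn 1 1 2 (qsf 536870912 536870912 1073741824 536870912 1) ndB0q1 ndB3q2 pcB1 Cut.none Ext.none)

def k0_mm_112 : ∃ t, chk3 f_mm_112 t 1 1 1 = true :=
  ⟨(l 5), by decide +kernel⟩

theorem c_mm_112 : CertB 536870912 536870912 1073741824 536870912 780900216 37827925 3 eng mog cd0q1 cd3q2 pd1 false false false .dn 1 1 2
    ndB0q1 ndB3q2 pcB1 Cut.none Ext.none :=
  certB2 (fam := false) (s1 := false) (s2 := false) (a := 1) (b := 1) (c := 2) (cn := .dn) (n1 := ndB0q1) (n2 := ndB3q2) (pc := pcB1) (cut := Cut.none) (xt := Ext.none) (P1 := 536870912) (W1 := 536870912) (P2 := 1073741824) (W2 := 536870912) (P3 := 780900216) (W3 := 37827925) (N0 := 3) (En := eng) (mo := mog) (C1 := cd0q1) (C2 := cd3q2) (C3 := pd1)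
    rfl (fun _ => rfl) k0_mm_112

noncomputable def f_mm_113 : ℕ → ℕ → ℕ → ℕ → Bool := onCell 536870912 536870912 0 1230186008 780900216 37827925
    (rowB 3 eng mog cd0q1 cd3q3 pd1 0 false false false .nn 1 1 3 (qsf 536870912 536870912 0 1230186008 1) ndB0q1 ndB3q3 pcB1 Cut.none Ext.none)

def k0_mm_113 : ∃ t, chk3 f_mm_113 t 1 1 1 = true :=
  ⟨(b (l 5) (l 5)), by decide +kernel⟩

theorem c_mm_113 : CertB 536870912 536870912 0 1230186008 780900216 37827925 3 eng mog cd0q1 cd3q3 pd1 false false false .nn 1 1 3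
    ndB0q1 ndB3q3 pcB1 Cut.none Ext.none :=
  certB0 (fam := false) (s1 := false) (s2 := false) (a := 1) (b := 1) (c := 3) (cn := .nn) (n1 := ndB0q1) (n2 := ndB3q3) (pc := pcB1) (cut := Cut.none) (xt := Ext.none) (P1 := 536870912) (W1 := 536870912) (P2 := 0) (W2 := 1230186008) (P3 := 780900216) (W3 := 37827925) (N0 := 3) (En := eng) (mo := mog) (C1 := cd0q1) (C2 := cd3q3) (C3 := pd1)
    rfl k0_mm_113

noncomputable def f_mm_123 : ℕ → ℕ → ℕ → ℕ → Bool := onCell 536870912 536870912 0 1230186008 780900216 37827925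
    (rowB 3 eng mog cd0q1 cd3q3 pd2 0 false false false .npn 1 2 3 (qsf 536870912 536870912 0 1230186008 2) ndB0q1 ndB3q3 pcB2 Cut.none Ext.none)

def k0_mm_123 : ∃ t, chk3 f_mm_123 t 1 1 1 = true :=
  ⟨(b (l 5) (l 5)), by decide +kernel⟩

theorem c_mm_123 : CertB 536870912 536870912 0 1230186008 780900216 37827925 3 eng mog cd0q1 cd3q3 pd2 false false false .npn 1 2 3
    ndB0q1 ndB3q3 pcB2 Cut.none Ext.none :=
  certB0 (fam := false) (s1 := false) (s2 := false) (a := 1) (b := 2) (c := 3) (cn := .npn) (n1 := ndB0q1) (n2 := ndB3q3) (pc := pcB2) (cut := Cut.none) (xt := Ext.none) (P1 := 536870912) (W1 := 536870912) (P2 := 0) (W2 := 1230186008) (P3 := 780900216) (W3 := 37827925) (N0 := 3) (En := eng) (mo := mog) (C1 := cd0q1) (C2 := cd3q3) (C3 := pd2)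
    rfl k0_mm_123

noncomputable def f_mm_133 : ℕ → ℕ → ℕ → ℕ → Bool := onCell 1610612736 536870912 0 1230186008 780900216 37827925
    (rowB 3 eng mog cd0q1 cd3q3 pd3 2 false false false .dn 1 3 3 (qsf 536870912 536870912 0 1230186008 3) ndB0q1 ndB3q3 pcB3 Cut.none Ext.none)

def k0_mm_133 : ∃ t, chk3 f_mm_133 t 1 1 1 = true :=
  ⟨(l 5), by decide +kernel⟩

theorem c_mm_133 : CertB 536870912 536870912 0 1230186008 780900216 37827925 3 eng mog cd0q1 cd3q3 pd3 false false false .dn 1 3 3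
    ndB0q1 ndB3q3 pcB3 Cut.none Ext.none :=
  certB2 (fam := false) (s1 := false) (s2 := false) (a := 1) (b := 3) (c := 3) (cn := .dn) (n1 := ndB0q1) (n2 := ndB3q3) (pc := pcB3) (cut := Cut.none) (xt := Ext.none) (P1 := 536870912) (W1 := 536870912) (P2 := 0) (W2 := 1230186008) (P3 := 780900216) (W3 := 37827925) (N0 := 3) (En := eng) (mo := mog) (C1 := cd0q1) (C2 := cd3q3) (C3 := pd3)
    rfl (fun _ => rfl) k0_mm_133

noncomputable def f_mm_202 : ℕ → ℕ → ℕ → ℕ → Bool := onCell 0 536870912 1073741824 536870912 780900216 37827925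
    (rowB 3 eng mog cd0q2 cd3q2 pd0 0 false false false .pp 2 0 2 (qsf 0 536870912 1073741824 536870912 0) ndB0q2 ndB3q2 pcB0 Cut.none Ext.none)

def k0_mm_202 : ∃ t, chk3 f_mm_202 t 1 1 1 = true :=
  ⟨(l 3), by decide +kernel⟩

theorem c_mm_202 : CertB 0 536870912 1073741824 536870912 780900216 37827925 3 eng mog cd0q2 cd3q2 pd0 false false false .pp 2 0 2
    ndB0q2 ndB3q2 pcB0 Cut.none Ext.none :=
  certB0 (fam := false) (s1 := false) (s2 := false) (a := 2) (b := 0) (c := 2) (cn := .pp) (n1 := ndB0q2) (n2 := ndB3q2) (pc := pcB0) (cut := Cut.none) (xt := Ext.none) (P1 := 0) (W1 := 536870912) (P2 := 1073741824) (W2 := 536870912) (P3 := 780900216) (W3 := 37827925) (N0 := 3) (En := eng) (mo := mog) (C1 := cd0q2) (C2 := cd3q2) (C3 := pd0)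
    rfl k0_mm_202

noncomputable def f_mm_203 : ℕ → ℕ → ℕ → ℕ → Bool := onCell 0 536870912 0 1230186008 780900216 37827925
    (rowB 3 eng mog cd0q2 cd3q3 pd0 0 false false false .up 2 0 3 (qsf 0 536870912 0 1230186008 0) ndB0q2 ndB3q3 pcB0 Cut.none Ext.none)

def k0_mm_203 : ∃ t, chk3 f_mm_203 t 1 1 1 = true :=
  ⟨(b (l 2) (l 3)), by decide +kernel⟩

theorem c_mm_203 : CertB 0 536870912 0 1230186008 780900216 37827925 3 eng mog cd0q2 cd3q3 pd0 false false false .up 2 0 3
    ndB0q2 ndB3q3 pcB0 Cut.none Ext.none :=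
  certB0 (fam := false) (s1 := false) (s2 := false) (a := 2) (b := 0) (c := 3) (cn := .up) (n1 := ndB0q2) (n2 := ndB3q3) (pc := pcB0) (cut := Cut.none) (xt := Ext.none) (P1 := 0) (W1 := 536870912) (P2 := 0) (W2 := 1230186008) (P3 := 780900216) (W3 := 37827925) (N0 := 3) (En := eng) (mo := mog) (C1 := cd0q2) (C2 := cd3q3) (C3 := pd0)
    rfl k0_mm_203

noncomputable def f_mm_213 : ℕ → ℕ → ℕ → ℕ → Bool := onCell 0 536870912 0 1230186008 780900216 37827925
    (rowB 3 eng mog cd0q2 cd3q3 pd1 0 false false false .pnn 2 1 3 (qsf 0 536870912 0 1230186008 1) ndB0q2 ndB3q3 pcB1 Cut.none Ext.none)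

def k0_mm_213 : ∃ t, chk3 f_mm_213 t 1 1 1 = true :=
  ⟨(b (a (l 3) (l 5)) (l 3)), by decide +kernel⟩

theorem c_mm_213 : CertB 0 536870912 0 1230186008 780900216 37827925 3 eng mog cd0q2 cd3q3 pd1 false false false .pnn 2 1 3
    ndB0q2 ndB3q3 pcB1 Cut.none Ext.none :=
  certB0 (fam := false) (s1 := false) (s2 := false) (a := 2) (b := 1) (c := 3) (cn := .pnn) (n1 := ndB0q2) (n2 := ndB3q3) (pc := pcB1) (cut := Cut.none) (xt := Ext.none) (P1 := 0) (W1 := 536870912) (P2 := 0) (W2 := 1230186008) (P3 := 780900216) (W3 := 37827925) (N0 := 3) (En := eng) (mo := mog) (C1 := cd0q2) (C2 := cd3q3) (C3 := pd1)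
    rfl k0_mm_213

end Pool.Agent.Strip051.G.I72727_7625.Tab.C.BB03

namespace Pool.Agent.Strip051.G.I72727_7625.Tab.C.BB04

open Pool.Agent.Strip051.PB Pool.Agent.Strip051.PB.T
open Pool.Agent.Strip051.G.I72727_7625.Tab

noncomputable def f_pp_001 : ℕ → ℕ → ℕ → ℕ → Bool := onCell 0 536870912 0 536870912 780900216 37827925
    (rowB 3 eng mog cd0q0 cd4q1 pd0 1 false true true .up 0 0 1 (qsf 0 536870912 536870912 536870912 0) ndB0q0 ndB4q1 pcB0 Cut.none Ext.none)

def k0_pp_001 : ∃ t, chk3 f_pp_001 t 1 1 1 = true :=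
  ⟨(l 3), by decide +kernel⟩

theorem c_pp_001 : CertB 0 536870912 536870912 536870912 780900216 37827925 3 eng mog cd0q0 cd4q1 pd0 false true true .up 0 0 1
    ndB0q0 ndB4q1 pcB0 Cut.none Ext.none :=
  certB1 (fam := false) (s1 := true) (s2 := true) (a := 0) (b := 0) (c := 1) (cn := .up) (n1 := ndB0q0) (n2 := ndB4q1) (pc := pcB0) (cut := Cut.none) (xt := Ext.none) (P1 := 0) (W1 := 536870912) (P2 := 536870912) (W2 := 536870912) (P3 := 780900216) (W3 := 37827925) (N0 := 3) (En := eng) (mo := mog) (C1 := cd0q0) (C2 := cd4q1) (C3 := pd0)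
    rfl (fun _ => rfl) k0_pp_001

noncomputable def cut_pp_011 : Cut := Cut.of [[⟨0, 0, 0, 67108864⟩, ⟨1, 1, 0, 67108864⟩, ⟨2, 1, 0, 67108864⟩]]

noncomputable def f_pp_011 : ℕ → ℕ → ℕ → ℕ → Bool := onCell 0 536870912 536870912 536870912 780900216 37827925
    (rowB 3 eng mog cd0q0 cd4q1 pd1 1 false true true .pnn 0 1 1 (qsf 0 536870912 536870912 536870912 1) ndB0q0 ndB4q1 pcB1 cut_pp_011 Ext.none)

def k0_pp_011 : ∃ t, chk3 f_pp_011 t 1 1 1 = true :=
  ⟨(b (l 3) (a (b (l 3) (a (b (l 3) (a (b (l 3) (a (l 6) (l 3))) (l 3))) (l 3))) (l 3))), by decide +kernel⟩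

theorem c_pp_011 : CertB 0 536870912 536870912 536870912 780900216 37827925 3 eng mog cd0q0 cd4q1 pd1 false true true .pnn 0 1 1
    ndB0q0 ndB4q1 pcB1 cut_pp_011 Ext.none :=
  certB1 (fam := false) (s1 := true) (s2 := true) (a := 0) (b := 1) (c := 1) (cn := .pnn) (n1 := ndB0q0) (n2 := ndB4q1) (pc := pcB1) (cut := cut_pp_011) (xt := Ext.none) (P1 := 0) (W1 := 536870912) (P2 := 536870912) (W2 := 536870912) (P3 := 780900216) (W3 := 37827925) (N0 := 3) (En := eng) (mo := mog) (C1 := cd0q0) (C2 := cd4q1) (C3 := pd1)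
    rfl (fun _ => rfl) k0_pp_011

noncomputable def f_pp_012 : ℕ → ℕ → ℕ → ℕ → Bool := onCell 0 536870912 536870912 536870912 780900216 37827925
    (rowB 3 eng mog cd0q0 cd4q2 pd1 1 false true true .pnp 0 1 2 (qsf 0 536870912 1073741824 536870912 1) ndB0q0 ndB4q2 pcB1 Cut.none Ext.none)

def k0_pp_012 : ∃ t, chk3 f_pp_012 t 1 1 1 = true :=
  ⟨(l 3), by decide +kernel⟩

theorem c_pp_012 : CertB 0 536870912 1073741824 536870912 780900216 37827925 3 eng mog cd0q0 cd4q2 pd1 false true true .pnp 0 1 2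
    ndB0q0 ndB4q2 pcB1 Cut.none Ext.none :=
  certB1 (fam := false) (s1 := true) (s2 := true) (a := 0) (b := 1) (c := 2) (cn := .pnp) (n1 := ndB0q0) (n2 := ndB4q2) (pc := pcB1) (cut := Cut.none) (xt := Ext.none) (P1 := 0) (W1 := 536870912) (P2 := 1073741824) (W2 := 536870912) (P3 := 780900216) (W3 := 37827925) (N0 := 3) (En := eng) (mo := mog) (C1 := cd0q0) (C2 := cd4q2) (C3 := pd1)
    rfl (fun _ => rfl) k0_pp_012

noncomputable def f_pp_022 : ℕ → ℕ → ℕ → ℕ → Bool := onCell 0 536870912 1073741824 536870912 780900216 37827925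
    (rowB 3 eng mog cd0q0 cd4q2 pd2 1 false true true .pp 0 2 2 (qsf 0 536870912 1073741824 536870912 2) ndB0q0 ndB4q2 pcB2 Cut.none Ext.none)

def k0_pp_022 : ∃ t, chk3 f_pp_022 t 1 2 1 = true :=
  ⟨(b (a (l 3) (l 3)) (a (b (b (b (l 3) (b (l 3) (a (b (l 3) (a (b (a (c (l 16470400) (l 16439664)) (l 16522392)) (a (l 16397344) (l 16412328))) (b (l 3) (a (l 16422880) (l 16433232))))) (b (l 3) (a (b (a (l 3) (l 16519552)) (a (l 16450272) (l 16473480))) (b (a (c (l 16497928) (l 16504008)) (l 16396480)) (a (l 16496744) (l 16518824)))))))) (a (a (a (a (l 16348296) (l 16357136)) (a (l 16364944) (l 16371656))) (a (l 16464096) (l 16477184))) (a (a (a (l 16407264) (l 16419248)) (b (l 16455104) (l 16423576))) (a (l 16549136) (c (l 16487632) (l 16493824)))))) (a (a (b (a (l 16353840) (l 16287576)) (a (l 16189592) (l 16211872))) (b (a (l 16304168) (l 16322520)) (a (l 16233936) (l 16257704)))) (a (b (a (l 16347624) (l 16379056)) (a (l 16288248) (l 16325224))) (a (b (l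 16410648) (l 16362424)) (b (l 16420240) (l 16398728)))))) (b (a (b (b (l 3) (b (a (l 3) (c (b (l 3) (l 16587224)) (l 315310833751))) (b (a (a (l 16548200) (l 16566944)) (a (l 16581272) (l 16591568))) (a (b (a (l 16543592) (l 16562952)) (a (l 16540440) (l 16560168))) (b (a (l 16577896) (l 16588904)) (a (l 16575576) (l 16587320))))))) (a (a (c (l 16512008) (l 16518664)) (c (l 16535176) (l 16541296))) (a (l 16577904) (l 16572728)))) (b (b (a (l 3) (l 2)) (l 2)) (l 2))) (a (a (b (a (l 16492648) (l 16500920)) (a (l 16435192) (l 16470456))) (b (a (l 16526312) (l 2)) (l 2))) (l 2))))), by decide +kernel⟩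

def k1_pp_022 : ∃ t, chk3 f_pp_022 t 1 3 1 = true :=
  ⟨(a (a (b (a (b (a (b (l 16114216) (l 16045112)) (b (l 16142200) (l 16078984))) (a (l 16121896) (b (l 16022664) (l 15973728)))) (b (a (b (l 16169904) (l 16112496)) (b (l 16199256) (l 16147592))) (a (b (l 16062160) (l 16019416)) (l 16230640)))) (b (a (a (b (l 15880040) (l 15840896)) (l 16020240)) (a (l 15970760) (l 16027464))) (a (a (l 15799216) (l 15869048)) (a (l 16062976) (l 2))))) (b (a (b (a (b (l 16235392) (l 16189504)) (b (l 16278064) (l 16238080))) (a (l 16197712) (l 16192448))) (b (a (l 16491784) (l 16453072)) (a (l 16250368) (l 2)))) (a (b (b (l 16131008) (l 2)) (l 2)) (l 2)))) (b (a (a (b (c (l 16610544) (l 16410160)) (l 2)) (l 2)) (l 2)) (l 2))), by decide +kernel⟩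

theorem s2_pp_022 : ∃ t, chk3 f_pp_022 t 1 1 1 = true := ex3_b k0_pp_022 k1_pp_022

theorem c_pp_022 : CertB 0 536870912 1073741824 536870912 780900216 37827925 3 eng mog cd0q0 cd4q2 pd2 false true true .pp 0 2 2
    ndB0q0 ndB4q2 pcB2 Cut.none Ext.none :=
  certB1 (fam := false) (s1 := true) (s2 := true) (a := 0) (b := 2) (c := 2) (cn := .pp) (n1 := ndB0q0) (n2 := ndB4q2) (pc := pcB2) (cut := Cut.none) (xt := Ext.none) (P1 := 0) (W1 := 536870912) (P2 := 1073741824) (W2 := 536870912) (P3 := 780900216) (W3 := 37827925) (N0 := 3) (En := eng) (mo := mog) (C1 := cd0q0) (C2 := cd4q2) (C3 := pd2)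
    rfl (fun _ => rfl) s2_pp_022

noncomputable def f_pp_023 : ℕ → ℕ → ℕ → ℕ → Bool := onCell 1073741824 536870912 0 1230186008 780900216 37827925
    (rowB 3 eng mog cd0q0 cd4q3 pd2 2 false true true .up 0 2 3 (qsf 0 536870912 0 1230186008 2) ndB0q0 ndB4q3 pcB2 Cut.none Ext.none)

def k0_pp_023 : ∃ t, chk3 f_pp_023 t 1 2 1 = true :=
  ⟨(a (l 2) (a (l 2) (b (b (l 16534248) (l 16672248)) (a (b (l 16591944) (b (l 16591952) (l 16587552))) (b (l 16569552) (l 16561408)))))), by decide +kernel⟩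

def k1_pp_023 : ∃ t, chk3 f_pp_023 t 2 3 1 = true :=
  ⟨(a (b (l 2) (b (l 2) (l 3))) (b (a (l 2) (b (l 2) (b (l 2) (l 313632693127)))) (a (a (a (b (b (l 2) (b (l 2) (a (l 3) (l 16630560)))) (b (b (a (l 3) (l 16623392)) (l 3)) (l 3))) (b (b (l 2) (a (a (l 16632216) (l 16632280)) (a (l 16631728) (l 16632936)))) (a (b (b (l 16619088) (a (l 16607432) (l 16605824))) (b (c (l 126332117303) (l 16604296)) (c (a (l 3) (l 16579032)) (l 132237703863)))) (b (a (b (l 16616008) (l 16606448)) (b (l 16614712) (a (l 16606664) (l 16607728)))) (a (b (l 16599352) (c (l 16574584) (l 16583080))) (b (a (l 16596624) (l 16595432)) (a (c (l 16570504) (l 16578928)) (c (l 16567912) (l 16576224))))))))) (b (b (l 471472983623) (b (l 16625544) (l 16611072))) (b (b (l 16605560) (c (l 16597520) (l 16593032))) (b (c (l 16574224) (l 16576472)) (c (b (l 16552592) (l 16534664)) (l 16550648)))))) (b (b (a (l 16618704) (l 16612808)) (a (l 16607296) (l 16585848))) (b (a (b (l 16582792) (l 16559920))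 (b (l 16547832) (l 16517784))) (b (a (l 16531464) (l 16480304)) (a (b (l 16504336) (l 16482848)) (l 16432864)))))))), by decide +kernel⟩

def k2_pp_023 : ∃ t, chk3 f_pp_023 t 3 3 1 = true :=
  ⟨(b (a (b (a (l 2) (l 16631576)) (a (b (l 16581856) (a (l 16603640) (l 16582416))) (b (l 16566312) (l 16537896)))) (b (a (l 16659384) (b (l 16531736) (l 16492040))) (a (b (l 16510576) (l 16465304)) (b (l 16441584) (l 16375064))))) (b (a (a (b (a (l 16588856) (l 16555768)) (a (l 16551520) (l 16491272))) (b (a (l 16516816) (l 16476112)) (a (l 16465024) (l 16410296)))) (a (b (l 16402832) (b (l 16344488) (l 16296648))) (b (l 16376864) (b (l 16214512) (l 16151784))))) (a (b (a (b (l 16483496) (l 16470960)) (b (l 16436040) (l 16316784))) (a (b (a (l 16421992) (l 16356928)) (a (l 16365816) (l 16294200))) (b (l 16250816) (a (l 16218456) (l 16138576))))) (b (a (b (l 16239200) (a (l 16210064) (l 16133880))) (b (l 16089216) (l 16065872))) (a (b (l 16096848) (a (l 16060264)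 (l 15984296))) (b (l 15948448) (l 15912464))))))), by decide +kernel⟩

theorem s3_pp_023 : ∃ t, chk3 f_pp_023 t 1 3 1 = true := ex3_a k1_pp_023 k2_pp_023

theorem s4_pp_023 : ∃ t, chk3 f_pp_023 t 1 1 1 = true := ex3_b k0_pp_023 s3_pp_023

theorem c_pp_023 : CertB 0 536870912 0 1230186008 780900216 37827925 3 eng mog cd0q0 cd4q3 pd2 false true true .up 0 2 3
    ndB0q0 ndB4q3 pcB2 Cut.none Ext.none :=
  certB2 (fam := false) (s1 := true) (s2 := true) (a := 0) (b := 2) (c := 3) (cn := .up) (n1 := ndB0q0) (n2 := ndB4q3) (pc := pcB2) (cut := Cut.none) (xt := Ext.none) (P1 := 0) (W1 := 536870912) (P2 := 0) (W2 := 1230186008) (P3 := 780900216) (W3 := 37827925) (N0 := 3) (En := eng) (mo := mog) (C1 := cd0q0) (C2 := cd4q3) (C3 := pd2)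
    rfl (fun _ => rfl) s4_pp_023

noncomputable def f_pp_033 : ℕ → ℕ → ℕ → ℕ → Bool := onCell 1610612736 536870912 0 1230186008 780900216 37827925
    (rowB 3 eng mog cd0q0 cd4q3 pd3 2 false true true .pnn 0 3 3 (qsf 0 536870912 0 1230186008 3) ndB0q0 ndB4q3 pcB3 Cut.none Ext.none)

def k0_pp_033 : ∃ t, chk3 f_pp_033 t 1 1 1 = true :=
  ⟨(b (b (a (a (a (l 16543776) (l 16694680)) (a (l 16232264) (l 16354392))) (a (a (l 16307160) (l 4)) (l 4))) (a (a (b (a (l 16551440) (l 16474024)) (a (a (l 16536920) (l 16496120)) (b (l 16446176) (l 16412768)))) (a (b (l 16395824) (l 16336448)) (b (l 16314128) (a (l 16261744) (l 16210000))))) (b (a (a (l 16197408) (a (l 16156216) (l 4))) (l 4)) (a (a (a (l 16165120) (l 16124032)) (a (l 16085136) (l 16038312))) (a (a (l 15993096) (l 4)) (l 4)))))) (b (a (a (b (a (b (l 16466296) (l 16409016)) (b (l 16370216) (l 16307888))) (a (b (l 16326856) (l 16229800)) (b (l 16220224) (l 16122360)))) (a (b (b (l 16260936) (l 16188704))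 (b (l 16104536) (l 15994208))) (b (a (l 16141896) (l 16094728)) (a (b (l 16024704) (l 15918344)) (b (l 15977232) (l 15868184)))))) (b (a (a (a (l 16049296) (b (l 16043984) (l 15975784))) (a (l 15970424) (l 15938104))) (a (a (l 317322989079) (l 1)) (l 1))) (a (a (a (l 294236999479) (b (l 15887232) (l 15763936))) (a (l 234643991815) (l 1))) (l 1)))) (a (a (b (a (b (a (l 16150232) (l 16079328)) (a (l 16029200) (l 15961064))) (b (a (l 16012088) (l 15949008)) (a (l 15890992) (l 15823856)))) (b (a (b (l 15903992) (l 15841832)) (a (l 15762128) (l 15683384))) (a (b (l 15774384) (l 15697640)) (b (l 104721542631) (l 1))))) (b (a (b (l 15964776) (l 100963673639)) (b (a (l 15771456) (l 15710416)) (l 1))) (a (b (b (l 15602400) (l 1)) (l 1)) (l 1)))) (l 1)))), by decide +kernel⟩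

theorem c_pp_033 : CertB 0 536870912 0 1230186008 780900216 37827925 3 eng mog cd0q0 cd4q3 pd3 false true true .pnn 0 3 3
    ndB0q0 ndB4q3 pcB3 Cut.none Ext.none :=
  certB2 (fam := false) (s1 := true) (s2 := true) (a := 0) (b := 3) (c := 3) (cn := .pnn) (n1 := ndB0q0) (n2 := ndB4q3) (pc := pcB3) (cut := Cut.none) (xt := Ext.none) (P1 := 0) (W1 := 536870912) (P2 := 0) (W2 := 1230186008) (P3 := 780900216) (W3 := 37827925) (N0 := 3) (En := eng) (mo := mog) (C1 := cd0q0) (C2 := cd4q3) (C3 := pd3)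
    rfl (fun _ => rfl) k0_pp_033

noncomputable def f_pp_101 : ℕ → ℕ → ℕ → ℕ → Bool := onCell 536870912 536870912 536870912 536870912 780900216 37827925
    (rowB 3 eng mog cd0q1 cd4q1 pd0 0 false true true .npn 1 0 1 (qsf 536870912 536870912 536870912 536870912 0) ndB0q1 ndB4q1 pcB0 Cut.none Ext.none)

def k0_pp_101 : ∃ t, chk3 f_pp_101 t 1 1 1 = true :=
  ⟨(a (l 3) (l 5)), by decide +kernel⟩

theorem c_pp_101 : CertB 536870912 536870912 536870912 536870912 780900216 37827925 3 eng mog cd0q1 cd4q1 pd0 false true true .npn 1 0 1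
    ndB0q1 ndB4q1 pcB0 Cut.none Ext.none :=
  certB0 (fam := false) (s1 := true) (s2 := true) (a := 1) (b := 0) (c := 1) (cn := .npn) (n1 := ndB0q1) (n2 := ndB4q1) (pc := pcB0) (cut := Cut.none) (xt := Ext.none) (P1 := 536870912) (W1 := 536870912) (P2 := 536870912) (W2 := 536870912) (P3 := 780900216) (W3 := 37827925) (N0 := 3) (En := eng) (mo := mog) (C1 := cd0q1) (C2 := cd4q1) (C3 := pd0)
    rfl k0_pp_101

noncomputable def f_pp_102 : ℕ → ℕ → ℕ → ℕ → Bool := onCell 536870912 536870912 1073741824 536870912 780900216 37827925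
    (rowB 3 eng mog cd0q1 cd4q2 pd0 0 false true true .npp 1 0 2 (qsf 536870912 536870912 1073741824 536870912 0) ndB0q1 ndB4q2 pcB0 Cut.none Ext.none)

def k0_pp_102 : ∃ t, chk3 f_pp_102 t 1 1 1 = true :=
  ⟨(l 3), by decide +kernel⟩

theorem c_pp_102 : CertB 536870912 536870912 1073741824 536870912 780900216 37827925 3 eng mog cd0q1 cd4q2 pd0 false true true .npp 1 0 2
    ndB0q1 ndB4q2 pcB0 Cut.none Ext.none :=
  certB0 (fam := false) (s1 := true) (s2 := true) (a := 1) (b := 0) (c := 2) (cn := .npp) (n1 := ndB0q1) (n2 := ndB4q2) (pc := pcB0) (cut := Cut.none) (xt := Ext.none) (P1 := 536870912) (W1 := 536870912) (P2 := 1073741824) (W2 := 536870912) (P3 := 780900216) (W3 := 37827925) (N0 := 3) (En := eng) (mo := mog) (C1 := cd0q1) (C2 := cd4q2) (C3 := pd0)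
    rfl k0_pp_102

noncomputable def f_pp_112 : ℕ → ℕ → ℕ → ℕ → Bool := onCell 536870912 536870912 1073741824 536870912 780900216 37827925
    (rowB 3 eng mog cd0q1 cd4q2 pd1 0 false true true .dn 1 1 2 (qsf 536870912 536870912 1073741824 536870912 1) ndB0q1 ndB4q2 pcB1 Cut.none Ext.none)

def k0_pp_112 : ∃ t, chk3 f_pp_112 t 1 1 1 = true :=
  ⟨(l 3), by decide +kernel⟩

theorem c_pp_112 : CertB 536870912 536870912 1073741824 536870912 780900216 37827925 3 eng mog cd0q1 cd4q2 pd1 false true true .dn 1 1 2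
    ndB0q1 ndB4q2 pcB1 Cut.none Ext.none :=
  certB0 (fam := false) (s1 := true) (s2 := true) (a := 1) (b := 1) (c := 2) (cn := .dn) (n1 := ndB0q1) (n2 := ndB4q2) (pc := pcB1) (cut := Cut.none) (xt := Ext.none) (P1 := 536870912) (W1 := 536870912) (P2 := 1073741824) (W2 := 536870912) (P3 := 780900216) (W3 := 37827925) (N0 := 3) (En := eng) (mo := mog) (C1 := cd0q1) (C2 := cd4q2) (C3 := pd1)
    rfl k0_pp_112

noncomputable def cut_pp_113 : Cut := Cut.of [[⟨0, 1, 0, 67108864⟩, ⟨1, 1, 0, 67108864⟩, ⟨2, 2, 0, 16777216⟩]]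

noncomputable def f_pp_113 : ℕ → ℕ → ℕ → ℕ → Bool := onCell 536870912 536870912 0 1230186008 780900216 37827925
    (rowB 3 eng mog cd0q1 cd4q3 pd1 2 false true true .nn 1 1 3 (qsf 536870912 536870912 0 1230186008 1) ndB0q1 ndB4q3 pcB1 cut_pp_113 Ext.none)

def k0_pp_113 : ∃ t, chk3 f_pp_113 t 1 1 1 = true :=
  ⟨(b (a (l 2) (a (l 2) (b (a (l 2) (a (l 2) (b (l 6) (l 3)))) (l 3)))) (b (a (b (l 2) (l 3)) (l 3)) (a (b (a (l 2) (l 3)) (l 3)) (l 3)))), by decide +kernel⟩

theorem c_pp_113 : CertB 536870912 536870912 0 1230186008 780900216 37827925 3 eng mog cd0q1 cd4q3 pd1 false true true .nn 1 1 3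
    ndB0q1 ndB4q3 pcB1 cut_pp_113 Ext.none :=
  certB2 (fam := false) (s1 := true) (s2 := true) (a := 1) (b := 1) (c := 3) (cn := .nn) (n1 := ndB0q1) (n2 := ndB4q3) (pc := pcB1) (cut := cut_pp_113) (xt := Ext.none) (P1 := 536870912) (W1 := 536870912) (P2 := 0) (W2 := 1230186008) (P3 := 780900216) (W3 := 37827925) (N0 := 3) (En := eng) (mo := mog) (C1 := cd0q1) (C2 := cd4q3) (C3 := pd1)
    rfl (fun _ => rfl) k0_pp_113

noncomputable def cut_pp_123 : Cut := Cut.of [[⟨0, 1, 0, 67108864⟩, ⟨1, 1, 0, 67108864⟩, ⟨2, 2, 0, 16777216⟩]]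

noncomputable def f_pp_123 : ℕ → ℕ → ℕ → ℕ → Bool := onCell 1073741824 536870912 0 1230186008 780900216 37827925
    (rowB 3 eng mog cd0q1 cd4q3 pd2 2 false true true .npn 1 2 3 (qsf 536870912 536870912 0 1230186008 2) ndB0q1 ndB4q3 pcB2 cut_pp_123 Ext.none)

def k0_pp_123 : ∃ t, chk3 f_pp_123 t 8 4 1 = true :=
  ⟨(a (b (l 6) (b (l 6) (l 3))) (b (a (l 6) (l 16779048)) (a (b (l 6) (a (b (a (l 3) (b (l 3) (l 3))) (l 3)) (b (a (b (a (a (b (b (l 357186933111) (l 404431567911)) (l 3)) (b (c (l 322827199351) (l 321753454775)) (b (l 383493607751) (l 3)))) (a (b (l 16786568) (b (l 314774132695) (l 364166254855))) (l 292762421783))) (a (l 3) (a (l 3) (b (b (l 356650062759) (l 397452248199)) (l 3))))) (b (a (b (l 16785848) (l 16787248)) (l 16785944)) (a (a (b (l 316921614935) (l 391546669239)) (b (l 16787360) (b (l 16779544) (l 355576316439)))) (b (l 16787664) (l 16777144))))) (a (l 3) (b (a (l 3) (a (b (b (l 357723802519) (l 382419863735)) (l 3)) (b (l 309405420391)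 (b (l 359871284823) (l 3))))) (l 3)))))) (b (a (b (l 16756808) (a (l 16793856) (l 16766352))) (l 16749248)) (a (b (a (b (a (l 16783552) (l 16780384)) (a (b (l 16787264) (l 16787928)) (l 16785600))) (b (l 16775360) (l 16781008))) (a (b (a (b (l 16787832) (c (l 317458494343) (a (l 326585282551) (l 16785320)))) (l 16777520)) (a (b (c (l 379735515223) (a (l 360945045383) (l 361481892279))) (l 3)) (b (c (l 16785040) (l 289004326791)) (c (a (l 364166279367) (l 328732783207)) (a (l 383493621143) (l 324974678775)))))) (b (a (l 16786952) (l 16784288)) (a (l 16776984) (l 16776616))))) (b (a (l 16770952) (l 16763328)) (a (b (l 16778936) (a (l 16785000) (l 16781768))) (l 16773560)))))))), by decide +kernel⟩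

def k1_pp_123 : ∃ t, chk3 f_pp_123 t 8 5 1 = true :=
  ⟨(b (a (l 3) (a (l 3) (b (a (b (a (b (a (l 3) (b (c (l 403894730119) (l 368461217191)) (l 3))) (l 3)) (b (a (b (a (a (l 346986382103) (l 336248960727)) (l 287393707239)) (c (l 361481904631) (l 386714824727))) (b (l 16786728) (c (l 300815491975) (l 297057390647)))) (a (l 3) (b (a (l 372756180583) (a (l 357723797687) (l 322290313767))) (l 3))))) (l 3)) (b (a (b (a (l 16785984) (l 16763888)) (a (b (l 263234511015) (c (a (l 365240018103) (l 302426112727)) (a (l 364166261495) (l 298131129239)))) (l 16763864))) (b (l 16779976) (a (l 16783976) (l 16781872)))) (a (b (a (b (c (l 371682450503) (l 399599743239)) (l 3)) (b (c (l 308331682375) (l 302426095639)) (c (l 374903673319) (l 372219322967)))) (l 3)) (b (a (c (l 252497105671) (l 248739002023)) (l 16782736)) (a (a (c (l 402284090663) (l 399062867879)) (b (a (l 327122165351) (l 269140105975)) (l 417316486391))) (b (l 16782840) (a (a (l 364166258391) (l 314237262903))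 (l 16780056)))))))) (a (l 3) (b (a (l 3) (b (a (l 3) (b (c (l 389399207431) (l 385104209687)) (l 3))) (l 3))) (l 3)))))) (l 3)), by decide +kernel⟩

def k2_pp_123 : ∃ t, chk3 f_pp_123 t 9 4 1 = true :=
  ⟨(a (b (b (l 16679728) (l 16704208)) (a (b (l 16671192) (b (l 16750728) (a (a (l 16767680) (l 16763992)) (l 16756848)))) (b (l 16713208) (l 16734064)))) (b (a (l 16651432) (l 16630184)) (b (a (l 16688824) (l 16667560)) (l 16697976)))), by decide +kernel⟩

def k3_pp_123 : ∃ t, chk3 f_pp_123 t 36 10 1 = true :=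
  ⟨(b (a (b (a (b (l 16774272) (l 16757280)) (l 16772528)) (a (b (a (l 16760928) (l 16780512)) (a (l 16782064) (l 16781728))) (b (l 16777872) (a (l 16760248) (l 16779616))))) (b (l 16746024) (a (l 16775488) (l 16772472)))) (a (b (a (c (b (a (b (l 273435081367) (a (l 405505333703) (l 331417141191))) (l 16786728)) (a (l 445233785783) (b (a (l 365240013351) (l 16787000)) (l 414632139431)))) (b (a (b (l 273435059911) (a (l 401747216183) (l 325511537159))) (l 16776376)) (a (l 439328183079) (b (a (l 360945023735) (l 16775816)) (l 409263401655))))) (b (a (l 16781384) (l 16781304)) (a (b (l 16781232) (c (l 293836177335) (l 293299278647))) (l 16780928)))) (a (l 3) (b (a (b (c (a (l 434496362407) (l 364166268103)) (a (l 429664499575) (l 358797527751))) (l 3)) (b (c (l 16786784) (l 16774440)) (c (a (b (l 330880271463) (l 437180715831)) (l 292762435639)) (a (b (l 328732765319) (l 432885722359)) (l 290078059095))))) (a (l 3) (a (l 3) (b (b (c (l 410337169351) (l 404968433415))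 (l 3)) (l 3))))))) (b (a (b (l 16758264) (a (l 16780760) (l 16780480))) (b (l 16776120) (l 16778144))) (a (b (a (b (l 16780504) (l 16780312)) (l 16780208)) (a (a (b (a (b (l 272898204055) (c (l 413558394343) (l 407652786855))) (c (l 288467467463) (l 285246220743))) (b (c (l 450065617319) (l 444696880151)) (l 3))) (b (b (l 16780072) (l 16779936)) (b (c (c (l 306184216327) (l 305110462231)) (c (l 303499837943) (l 301889213527))) (a (c (l 465098002343) (l 459729264503)) (b (c (l 309405435879) (l 306184186663)) (c (l 429127650247) (l 422685170407))))))) (b (l 16779808) (a (b (l 16779648) (c (l 16786544) (l 16772176))) (l 16779416))))) (b (a (l 16780128) (l 16779152)) (a (l 16779376) (l 16779080))))))), by decide +kernel⟩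

def k4_pp_123 : ∃ t, chk3 f_pp_123 t 37 10 1 = true :=
  ⟨(b (a (b (l 16757456) (l 16767304)) (l 16790864)) (a (b (l 16772848) (a (b (l 16776848) (a (l 16778696) (l 16777216))) (l 16774360))) (b (l 16766472) (l 16770408)))), by decide +kernel⟩

def k5_pp_123 : ∃ t, chk3 f_pp_123 t 36 11 1 = true :=
  ⟨(b (a (l 3) (b (a (b (a (l 3) (a (b (a (b (b (c (l 338933336215) (l 336248957703)) (c (l 399062878919) (l 398525978791))) (l 3)) (b (c (l 261623924311) (l 260013287479)) (c (l 383493621895) (l 382419850695)))) (l 3)) (b (b (l 16781688) (c (c (l 271287606135) (l 270213851927)) (l 269140092135))) (b (c (c (l 364703146119) (l 364166260935)) (c (l 363092504311) (l 362555618103))) (l 3))))) (l 3)) (b (a (a (b (l 16778720) (b (c (l 16785416) (l 16770624)) (c (c (l 335712115383) (l 334638359159)) (l 333027729143)))) (b (l 16778552) (l 16783008))) (l 16777896)) (a (b (c (a (l 399599742343) (b (l 274508822119) (l 362555652343))) (a (l 398525975719) (b (l 273435055959)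 (l 359871267591)))) (c (l 417316487959) (l 416242715751))) (b (c (l 16784000) (l 16768976)) (b (c (l 284709362903) (l 284709342119)) (a (c (l 388325454535) (l 385641069415)) (l 276119420471))))))) (a (l 3) (b (a (l 3) (a (l 3) (b (c (l 375440550887) (l 372756165511)) (l 3)))) (l 3))))) (l 3)), by decide +kernel⟩

def k6_pp_123 : ∃ t, chk3 f_pp_123 t 37 11 1 = true :=
  ⟨(b (a (b (a (b (a (l 16777504) (l 16777208)) (a (l 16778328) (l 16775224))) (b (l 16775136) (l 16774520))) (a (c (b (a (b (l 283098746119) (a (l 392083547207) (l 313700384295))) (l 16780728)) (a (l 411410900007) (b (l 315847865639) (l 380272370983)))) (b (a (b (l 283098725159) (a (l 389936032407) (l 312626623591))) (l 16765280)) (a (l 409263384823) (b (a (l 331953969079) (l 16763240)) (l 377588005655))))) (b (l 16772248) (a (b (l 16770760) (l 292225536167)) (l 16769464))))) (b (a (l 16771632) (l 16768952)) (a (b (l 16770640) (l 16768400)) (b (l 16767640) (l 16766208))))) (a (b (a (l 3)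 (b (a (b (a (l 377588006967) (l 316384724903)) (l 397989105655)) (b (l 16767544) (c (l 314774122103) (l 314774098615)))) (a (l 3) (b (a (l 410337127079) (l 352891940759)) (l 3))))) (l 3)) (b (a (b (l 16765888) (a (b (l 16764336) (c (a (l 375440528615) (l 16770944)) (l 331953935911))) (l 16763048))) (b (l 16764536) (l 16762032))) (a (b (a (b (c (a (l 3) (l 393694136919)) (l 393694105687)) (l 3)) (b (c (l 294909899495) (l 298667974775)) (c (a (l 411947745319) (b (l 16768240) (l 331953977079))) (a (l 399062810695) (l 317458452487))))) (b (a (l 3) (c (a (l 3) (l 385641089127)) (l 391546637815))) (l 3))) (b (a (b (l 16760608) (l 16759456)) (l 16759416)) (a (a (b (b (l 130090524183) (l 342691406087)) (l 387788564839)) (b (l 16758200) (l 16757464))) (l 16757288))))))), by decide +kernel⟩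

def k7_pp_123 : ∃ t, chk3 f_pp_123 t 19 5 1 = true :=
  ⟨(b (a (b (l 16730408) (a (b (l 16754624) (l 16763544)) (l 16745128))) (l 16776664)) (a (b (a (b (l 16765712) (l 16762760)) (b (l 16758000) (l 16758728))) (a (b (a (b (l 16761840) (l 16760544)) (l 16758488)) (a (b (l 16758416) (l 16756488)) (b (l 16756616) (l 16755280)))) (b (l 16755584) (a (l 16753568) (l 16752056))))) (b (a (b (l 16745392) (l 16752152)) (l 16735160)) (a (b (l 16753624) (l 16750976)) (b (l 16747288) (l 16749288)))))), by decide +kernel⟩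

def k8_pp_123 : ∃ t, chk3 f_pp_123 t 5 2 1 = true :=
  ⟨(b (a (a (a (b (l 16614480) (l 16657336)) (b (a (l 16603416) (l 16595456)) (a (l 16642920) (l 16631304)))) (b (l 16582680) (l 16616976))) (b (l 16692152) (a (l 16601960) (l 16591736)))) (a (b (a (a (b (l 16682080) (l 16697464)) (a (l 16671016) (b (l 16650072) (l 16661752)))) (l 16553632)) (a (a (b (l 16713880) (a (l 16736584) (l 16721744))) (a (b (l 16692184) (l 16704760)) (b (l 16673200) (l 16683072)))) (b (l 16651744) (l 16656216)))) (b (a (l 16622912) (l 16610616)) (b (l 16456800) (a (l 16633600) (l 16618680)))))), by decide +kernel⟩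

def k9_pp_123 : ∃ t, chk3 f_pp_123 t 3 2 1 = true :=
  ⟨(a (b (a (l 16586680) (l 16556520)) (a (b (a (l 16601728) (l 16596024)) (a (l 16608776) (l 16603984))) (b (a (l 16592872) (l 16593416)) (l 16602480)))) (b (b (l 16534304) (l 16777112)) (a (b (l 16591952) (l 16588224)) (b (l 16569160) (l 587370081191))))), by decide +kernel⟩

def k10_pp_123 : ∃ t, chk3 f_pp_123 t 2 6 1 = true :=
  ⟨(a (a (l 3) (a (b (a (l 3) (b (a (l 3) (a (l 3) (b (a (l 3) (b (l 16759432) (l 3))) (l 3)))) (l 3))) (l 3)) (b (a (a (b (a (b (b (l 16754760) (l 16753584)) (l 360944997207)) (b (l 16752528) (l 16749032))) (a (l 3) (b (l 16724704) (l 3)))) (b (a (b (l 16751408) (l 16746824)) (b (l 16748824) (l 16744960))) (b (a (l 16741528) (l 16738768)) (a (l 305110319447) (l 364702979415))))) (b (a (b (l 16747480) (l 16742120)) (l 16742920)) (a (b (l 16736080) (a (l 16728176) (l 16725704))) (b (l 16731712) (l 16721872))))) (a (b (l 3) (l 3)) (b (a (a (b (l 371682276775) (l 3)) (b (l 312626470455)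 (b (l 271824262215) (a (l 3) (l 244980698631))))) (b (a (l 16711304) (l 16708624)) (a (b (l 16697848) (a (l 16687552) (l 16686752))) (l 16690512)))) (a (l 3) (a (b (b (l 16678928) (l 16672168)) (l 3)) (b (l 16674192) (l 16662264))))))))) (a (b (a (a (b (a (l 16739264) (l 16730048)) (a (l 16723288) (l 16719408))) (a (b (l 16712920) (l 16709984)) (b (l 16687792) (l 16687128)))) (b (l 16658384) (l 16658056))) (a (a (b (a (b (l 16704792) (a (l 16689120) (l 16687608))) (l 16695264)) (a (b (l 16673704) (l 16661808)) (b (l 16672960) (l 16662488)))) (a (b (l 16692792) (l 16667912)) (b (a (l 16687168) (b (l 16676848) (l 16672584))) (a (l 16669088) (b (l 16668616) (l 16662944)))))) (b (l 16650896) (l 16647904)))) (b (b (a (l 16633960) (l 16618080)) (a (l 16631392) (l 16615688))) (b (a (l 16625568) (l 16606424)) (a (l 16613200) (l 16613648)))))), by decide +kernel⟩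

def k11_pp_123 : ∃ t, chk3 f_pp_123 t 3 6 1 = true :=
  ⟨(a (b (a (b (l 16606560) (l 16541656)) (b (l 16595064) (l 16584176))) (a (b (l 16497872) (a (l 16603488) (l 16582032))) (b (l 16544496) (l 1)))) (b (a (b (l 16569168) (l 1)) (l 1)) (l 1))), by decide +kernel⟩

def k12_pp_123 : ∃ t, chk3 f_pp_123 t 1 7 1 = true :=
  ⟨(a (a (a (l 3) (a (l 3) (b (b (l 3) (l 3)) (l 3)))) (a (b (a (a (b (a (b (l 16651632) (l 16643000)) (b (l 16652760) (l 16643536))) (a (b (l 16639576) (l 3)) (b (l 16635336) (l 16630544)))) (a (b (a (l 16648640) (l 16649296)) (a (l 16632184) (l 16632232))) (b (l 16629464) (a (b (l 16637008) (l 16627368)) (l 16632872))))) (b (b (l 16644048) (l 16636432)) (b (l 16625448) (l 16610848)))) (a (a (a (l 3) (a (l 3) (l 1))) (l 1)) (l 1))) (b (b (a (l 16618672) (l 16612560)) (l 1)) (l 1)))) (l 1)), by decide +kernel⟩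

theorem s13_pp_123 : ∃ t, chk3 f_pp_123 t 1 6 1 = true := ex3_a k10_pp_123 k11_pp_123

theorem s14_pp_123 : ∃ t, chk3 f_pp_123 t 1 3 1 = true := ex3_b s13_pp_123 k12_pp_123

theorem s15_pp_123 : ∃ t, chk3 f_pp_123 t 18 11 1 = true := ex3_a k5_pp_123 k6_pp_123

theorem s16_pp_123 : ∃ t, chk3 f_pp_123 t 18 10 1 = true := ex3_a k3_pp_123 k4_pp_123

theorem s17_pp_123 : ∃ t, chk3 f_pp_123 t 18 5 1 = true := ex3_b s16_pp_123 s15_pp_123

theorem s18_pp_123 : ∃ t, chk3 f_pp_123 t 9 5 1 = true := ex3_a s17_pp_123 k7_pp_123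

theorem s19_pp_123 : ∃ t, chk3 f_pp_123 t 9 2 1 = true := ex3_b k2_pp_123 s18_pp_123

theorem s20_pp_123 : ∃ t, chk3 f_pp_123 t 8 2 1 = true := ex3_b k0_pp_123 k1_pp_123

theorem s21_pp_123 : ∃ t, chk3 f_pp_123 t 4 2 1 = true := ex3_a s20_pp_123 s19_pp_123

theorem s22_pp_123 : ∃ t, chk3 f_pp_123 t 2 2 1 = true := ex3_a s21_pp_123 k8_pp_123

theorem s23_pp_123 : ∃ t, chk3 f_pp_123 t 1 2 1 = true := ex3_a s22_pp_123 k9_pp_123

theorem s24_pp_123 : ∃ t, chk3 f_pp_123 t 1 1 1 = true := ex3_b s23_pp_123 s14_pp_123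

theorem c_pp_123 : CertB 536870912 536870912 0 1230186008 780900216 37827925 3 eng mog cd0q1 cd4q3 pd2 false true true .npn 1 2 3
    ndB0q1 ndB4q3 pcB2 cut_pp_123 Ext.none :=
  certB2 (fam := false) (s1 := true) (s2 := true) (a := 1) (b := 2) (c := 3) (cn := .npn) (n1 := ndB0q1) (n2 := ndB4q3) (pc := pcB2) (cut := cut_pp_123) (xt := Ext.none) (P1 := 536870912) (W1 := 536870912) (P2 := 0) (W2 := 1230186008) (P3 := 780900216) (W3 := 37827925) (N0 := 3) (En := eng) (mo := mog) (C1 := cd0q1) (C2 := cd4q3) (C3 := pd2)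
    rfl (fun _ => rfl) s24_pp_123

noncomputable def f_pp_133 : ℕ → ℕ → ℕ → ℕ → Bool := onCell 1610612736 536870912 0 1230186008 780900216 37827925
    (rowB 3 eng mog cd0q1 cd4q3 pd3 2 false true true .dn 1 3 3 (qsf 536870912 536870912 0 1230186008 3) ndB0q1 ndB4q3 pcB3 Cut.none Ext.none)

def k0_pp_133 : ∃ t, chk3 f_pp_133 t 1 1 1 = true :=
  ⟨(b (b (a (a (a (l 16542720) (l 1)) (l 1)) (l 1)) (l 1)) (l 1)), by decide +kernel⟩

theorem c_pp_133 : CertB 536870912 536870912 0 1230186008 780900216 37827925 3 eng mog cd0q1 cd4q3 pd3 false true true .dn 1 3 3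
    ndB0q1 ndB4q3 pcB3 Cut.none Ext.none :=
  certB2 (fam := false) (s1 := true) (s2 := true) (a := 1) (b := 3) (c := 3) (cn := .dn) (n1 := ndB0q1) (n2 := ndB4q3) (pc := pcB3) (cut := Cut.none) (xt := Ext.none) (P1 := 536870912) (W1 := 536870912) (P2 := 0) (W2 := 1230186008) (P3 := 780900216) (W3 := 37827925) (N0 := 3) (En := eng) (mo := mog) (C1 := cd0q1) (C2 := cd4q3) (C3 := pd3)
    rfl (fun _ => rfl) k0_pp_133

noncomputable def f_pp_202 : ℕ → ℕ → ℕ → ℕ → Bool := onCell 0 536870912 1073741824 536870912 780900216 37827925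
    (rowB 3 eng mog cd0q2 cd4q2 pd0 0 false true true .pp 2 0 2 (qsf 0 536870912 1073741824 536870912 0) ndB0q2 ndB4q2 pcB0 Cut.none Ext.none)

def k0_pp_202 : ∃ t, chk3 f_pp_202 t 1 1 1 = true :=
  ⟨(l 5), by decide +kernel⟩

theorem c_pp_202 : CertB 0 536870912 1073741824 536870912 780900216 37827925 3 eng mog cd0q2 cd4q2 pd0 false true true .pp 2 0 2
    ndB0q2 ndB4q2 pcB0 Cut.none Ext.none :=
  certB0 (fam := false) (s1 := true) (s2 := true) (a := 2) (b := 0) (c := 2) (cn := .pp) (n1 := ndB0q2) (n2 := ndB4q2) (pc := pcB0) (cut := Cut.none) (xt := Ext.none) (P1 := 0) (W1 := 536870912) (P2 := 1073741824) (W2 := 536870912) (P3 := 780900216) (W3 := 37827925) (N0 := 3) (En := eng) (mo := mog) (C1 := cd0q2) (C2 := cd4q2) (C3 := pd0)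
    rfl k0_pp_202

noncomputable def f_pp_203 : ℕ → ℕ → ℕ → ℕ → Bool := onCell 0 536870912 0 1230186008 780900216 37827925
    (rowB 3 eng mog cd0q2 cd4q3 pd0 0 false true true .up 2 0 3 (qsf 0 536870912 0 1230186008 0) ndB0q2 ndB4q3 pcB0 Cut.none Ext.none)

def k0_pp_203 : ∃ t, chk3 f_pp_203 t 1 1 1 = true :=
  ⟨(b (l 2) (b (l 2) (l 3))), by decide +kernel⟩

theorem c_pp_203 : CertB 0 536870912 0 1230186008 780900216 37827925 3 eng mog cd0q2 cd4q3 pd0 false true true .up 2 0 3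
    ndB0q2 ndB4q3 pcB0 Cut.none Ext.none :=
  certB0 (fam := false) (s1 := true) (s2 := true) (a := 2) (b := 0) (c := 3) (cn := .up) (n1 := ndB0q2) (n2 := ndB4q3) (pc := pcB0) (cut := Cut.none) (xt := Ext.none) (P1 := 0) (W1 := 536870912) (P2 := 0) (W2 := 1230186008) (P3 := 780900216) (W3 := 37827925) (N0 := 3) (En := eng) (mo := mog) (C1 := cd0q2) (C2 := cd4q3) (C3 := pd0)
    rfl k0_pp_203

noncomputable def cut_pp_213 : Cut := Cut.of [[⟨0, 1, 0, 67108864⟩, ⟨1, 1, 0, 67108864⟩, ⟨2, 2, 0, 16777216⟩]]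

noncomputable def f_pp_213 : ℕ → ℕ → ℕ → ℕ → Bool := onCell 0 536870912 0 1230186008 780900216 37827925
    (rowB 3 eng mog cd0q2 cd4q3 pd1 0 false true true .pnn 2 1 3 (qsf 0 536870912 0 1230186008 1) ndB0q2 ndB4q3 pcB1 cut_pp_213 Ext.none)

def k0_pp_213 : ∃ t, chk3 f_pp_213 t 1 1 1 = true :=
  ⟨(b (a (l 3) (b (a (l 3) (a (l 3) (b (l 6) (l 3)))) (l 3))) (b (l 3) (l 3))), by decide +kernel⟩

theorem c_pp_213 : CertB 0 536870912 0 1230186008 780900216 37827925 3 eng mog cd0q2 cd4q3 pd1 false true true .pnn 2 1 3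
    ndB0q2 ndB4q3 pcB1 cut_pp_213 Ext.none :=
  certB0 (fam := false) (s1 := true) (s2 := true) (a := 2) (b := 1) (c := 3) (cn := .pnn) (n1 := ndB0q2) (n2 := ndB4q3) (pc := pcB1) (cut := cut_pp_213) (xt := Ext.none) (P1 := 0) (W1 := 536870912) (P2 := 0) (W2 := 1230186008) (P3 := 780900216) (W3 := 37827925) (N0 := 3) (En := eng) (mo := mog) (C1 := cd0q2) (C2 := cd4q3) (C3 := pd1)
    rfl k0_pp_213

noncomputable def f_pm_001 : ℕ → ℕ → ℕ → ℕ → Bool := onCell 0 536870912 536870912 536870912 780900216 37827925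
    (rowB 3 eng mog cd0q0 cd4q1 pd0 0 false true false .up 0 0 1 (qsf 0 536870912 536870912 536870912 0) ndB0q0 ndB4q1 pcB0 Cut.none Ext.none)

def k0_pm_001 : ∃ t, chk3 f_pm_001 t 1 1 1 = true :=
  ⟨(l 4), by decide +kernel⟩

theorem c_pm_001 : CertB 0 536870912 536870912 536870912 780900216 37827925 3 eng mog cd0q0 cd4q1 pd0 false true false .up 0 0 1
    ndB0q0 ndB4q1 pcB0 Cut.none Ext.none :=
  certB0 (fam := false) (s1 := true) (s2 := false) (a := 0) (b := 0) (c := 1) (cn := .up) (n1 := ndB0q0) (n2 := ndB4q1) (pc := pcB0) (cut := Cut.none) (xt := Ext.none) (P1 := 0) (W1 := 536870912) (P2 := 536870912) (W2 := 536870912) (P3 := 780900216) (W3 := 37827925) (N0 := 3) (En := eng) (mo := mog) (C1 := cd0q0) (C2 := cd4q1) (C3 := pd0)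
    rfl k0_pm_001

noncomputable def f_pm_011 : ℕ → ℕ → ℕ → ℕ → Bool := onCell 0 536870912 536870912 536870912 780900216 37827925
    (rowB 3 eng mog cd0q0 cd4q1 pd1 0 false true false .pnn 0 1 1 (qsf 0 536870912 536870912 536870912 1) ndB0q0 ndB4q1 pcB1 Cut.none Ext.none)

def k0_pm_011 : ∃ t, chk3 f_pm_011 t 1 1 1 = true :=
  ⟨(l 4), by decide +kernel⟩

theorem c_pm_011 : CertB 0 536870912 536870912 536870912 780900216 37827925 3 eng mog cd0q0 cd4q1 pd1 false true false .pnn 0 1 1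
    ndB0q0 ndB4q1 pcB1 Cut.none Ext.none :=
  certB0 (fam := false) (s1 := true) (s2 := false) (a := 0) (b := 1) (c := 1) (cn := .pnn) (n1 := ndB0q0) (n2 := ndB4q1) (pc := pcB1) (cut := Cut.none) (xt := Ext.none) (P1 := 0) (W1 := 536870912) (P2 := 536870912) (W2 := 536870912) (P3 := 780900216) (W3 := 37827925) (N0 := 3) (En := eng) (mo := mog) (C1 := cd0q0) (C2 := cd4q1) (C3 := pd1)
    rfl k0_pm_011

noncomputable def f_pm_012 : ℕ → ℕ → ℕ → ℕ → Bool := onCell 0 536870912 1073741824 536870912 780900216 37827925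
    (rowB 3 eng mog cd0q0 cd4q2 pd1 0 false true false .pnp 0 1 2 (qsf 0 536870912 1073741824 536870912 1) ndB0q0 ndB4q2 pcB1 Cut.none Ext.none)

def k0_pm_012 : ∃ t, chk3 f_pm_012 t 1 1 1 = true :=
  ⟨(l 4), by decide +kernel⟩

theorem c_pm_012 : CertB 0 536870912 1073741824 536870912 780900216 37827925 3 eng mog cd0q0 cd4q2 pd1 false true false .pnp 0 1 2
    ndB0q0 ndB4q2 pcB1 Cut.none Ext.none :=
  certB0 (fam := false) (s1 := true) (s2 := false) (a := 0) (b := 1) (c := 2) (cn := .pnp) (n1 := ndB0q0) (n2 := ndB4q2) (pc := pcB1) (cut := Cut.none) (xt := Ext.none) (P1 := 0) (W1 := 536870912) (P2 := 1073741824) (W2 := 536870912) (P3 := 780900216) (W3 := 37827925) (N0 := 3) (En := eng) (mo := mog) (C1 := cd0q0) (C2 := cd4q2) (C3 := pd1)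
    rfl k0_pm_012

noncomputable def f_pm_022 : ℕ → ℕ → ℕ → ℕ → Bool := onCell 0 536870912 1073741824 536870912 780900216 37827925
    (rowB 3 eng mog cd0q0 cd4q2 pd2 0 false true false .pp 0 2 2 (qsf 0 536870912 1073741824 536870912 2) ndB0q0 ndB4q2 pcB2 Cut.none Ext.none)

def k0_pm_022 : ∃ t, chk3 f_pm_022 t 1 1 1 = true :=
  ⟨(l 4), by decide +kernel⟩

theorem c_pm_022 : CertB 0 536870912 1073741824 536870912 780900216 37827925 3 eng mog cd0q0 cd4q2 pd2 false true false .pp 0 2 2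
    ndB0q0 ndB4q2 pcB2 Cut.none Ext.none :=
  certB0 (fam := false) (s1 := true) (s2 := false) (a := 0) (b := 2) (c := 2) (cn := .pp) (n1 := ndB0q0) (n2 := ndB4q2) (pc := pcB2) (cut := Cut.none) (xt := Ext.none) (P1 := 0) (W1 := 536870912) (P2 := 1073741824) (W2 := 536870912) (P3 := 780900216) (W3 := 37827925) (N0 := 3) (En := eng) (mo := mog) (C1 := cd0q0) (C2 := cd4q2) (C3 := pd2)
    rfl k0_pm_022

noncomputable def f_pm_023 : ℕ → ℕ → ℕ → ℕ → Bool := onCell 0 536870912 0 1230186008 780900216 37827925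
    (rowB 3 eng mog cd0q0 cd4q3 pd2 0 false true false .up 0 2 3 (qsf 0 536870912 0 1230186008 2) ndB0q0 ndB4q3 pcB2 Cut.none Ext.none)

def k0_pm_023 : ∃ t, chk3 f_pm_023 t 1 1 1 = true :=
  ⟨(a (b (l 2) (l 4)) (b (a (l 2) (b (a (l 2) (l 16452560)) (a (b (a (l 2) (l 16365248)) (l 4)) (b (a (l 16369664) (l 16373656)) (b (l 16314336) (l 4)))))) (b (l 4) (l 4)))), by decide +kernel⟩

theorem c_pm_023 : CertB 0 536870912 0 1230186008 780900216 37827925 3 eng mog cd0q0 cd4q3 pd2 false true false .up 0 2 3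
    ndB0q0 ndB4q3 pcB2 Cut.none Ext.none :=
  certB0 (fam := false) (s1 := true) (s2 := false) (a := 0) (b := 2) (c := 3) (cn := .up) (n1 := ndB0q0) (n2 := ndB4q3) (pc := pcB2) (cut := Cut.none) (xt := Ext.none) (P1 := 0) (W1 := 536870912) (P2 := 0) (W2 := 1230186008) (P3 := 780900216) (W3 := 37827925) (N0 := 3) (En := eng) (mo := mog) (C1 := cd0q0) (C2 := cd4q3) (C3 := pd2)
    rfl k0_pm_023

noncomputable def f_pm_033 : ℕ → ℕ → ℕ → ℕ → Bool := onCell 1610612736 536870912 0 1230186008 780900216 37827925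
    (rowB 3 eng mog cd0q0 cd4q3 pd3 2 false true false .pnn 0 3 3 (qsf 0 536870912 0 1230186008 3) ndB0q0 ndB4q3 pcB3 Cut.none Ext.none)

def k0_pm_033 : ∃ t, chk3 f_pm_033 t 1 1 1 = true :=
  ⟨(b (a (a (b (a (l 16480136) (a (l 16429368) (l 16411416))) (a (b (a (l 16370872) (l 16363552)) (l 4)) (l 4))) (b (a (l 16393944) (l 4)) (l 4))) (l 4)) (l 4)), by decide +kernel⟩

theorem c_pm_033 : CertB 0 536870912 0 1230186008 780900216 37827925 3 eng mog cd0q0 cd4q3 pd3 false true false .pnn 0 3 3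
    ndB0q0 ndB4q3 pcB3 Cut.none Ext.none :=
  certB2 (fam := false) (s1 := true) (s2 := false) (a := 0) (b := 3) (c := 3) (cn := .pnn) (n1 := ndB0q0) (n2 := ndB4q3) (pc := pcB3) (cut := Cut.none) (xt := Ext.none) (P1 := 0) (W1 := 536870912) (P2 := 0) (W2 := 1230186008) (P3 := 780900216) (W3 := 37827925) (N0 := 3) (En := eng) (mo := mog) (C1 := cd0q0) (C2 := cd4q3) (C3 := pd3)
    rfl (fun _ => rfl) k0_pm_033

noncomputable def f_pm_101 : ℕ → ℕ → ℕ → ℕ → Bool := onCell 536870912 536870912 536870912 536870912 780900216 37827925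
    (rowB 3 eng mog cd0q1 cd4q1 pd0 0 false true false .npn 1 0 1 (qsf 536870912 536870912 536870912 536870912 0) ndB0q1 ndB4q1 pcB0 Cut.none Ext.none)

def k0_pm_101 : ∃ t, chk3 f_pm_101 t 1 1 1 = true :=
  ⟨(l 4), by decide +kernel⟩

theorem c_pm_101 : CertB 536870912 536870912 536870912 536870912 780900216 37827925 3 eng mog cd0q1 cd4q1 pd0 false true false .npn 1 0 1
    ndB0q1 ndB4q1 pcB0 Cut.none Ext.none :=
  certB0 (fam := false) (s1 := true) (s2 := false) (a := 1) (b := 0) (c := 1) (cn := .npn) (n1 := ndB0q1) (n2 := ndB4q1) (pc := pcB0) (cut := Cut.none) (xt := Ext.none) (P1 := 536870912) (W1 := 536870912) (P2 := 536870912) (W2 := 536870912) (P3 := 780900216) (W3 := 37827925) (N0 := 3) (En := eng) (mo := mog) (C1 := cd0q1) (C2 := cd4q1) (C3 := pd0)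
    rfl k0_pm_101

noncomputable def f_pm_102 : ℕ → ℕ → ℕ → ℕ → Bool := onCell 536870912 536870912 0 536870912 780900216 37827925
    (rowB 3 eng mog cd0q1 cd4q2 pd0 1 false true false .npp 1 0 2 (qsf 536870912 536870912 1073741824 536870912 0) ndB0q1 ndB4q2 pcB0 Cut.none Ext.none)

def k0_pm_102 : ∃ t, chk3 f_pm_102 t 1 1 1 = true :=
  ⟨(a (l 4) (b (a (b (l 4) (b (l 4) (a (l 4) (a (l 4) (l 15451024))))) (b (a (b (a (l 1) (b (l 1) (a (l 1) (l 15263440)))) (a (b (l 348460112183) (l 15283160)) (b (l 15377832) (l 15390296)))) (b (a (b (a (l 1) (l 167534832951)) (a (l 15340680) (l 15480992))) (b (a (b (l 15457784) (l 15436072)) (b (l 15538776) (l 15534936))) (a (b (l 15469528) (l 15516072)) (b (l 15555496) (l 15590256))))) (a (b (a (l 15409568) (l 15494784)) (l 15536544)) (b (a (l 15573912) (l 15637888)) (a (l 15640336) (l 15695216)))))) (b (a (a (b (l 15361248) (l 15433608)) (b (l 15473128) (l 15546800))) (a (b (l 15607536) (l 15669864)) (b (l 15724624) (l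 15780632)))) (a (a (l 15533976) (l 15648360)) (b (a (l 15733072) (l 15846416)) (a (l 15802552) (l 15906568))))))) (b (a (a (l 4) (b (a (l 4) (l 15607632)) (a (l 15606840) (l 15700208)))) (b (a (a (l 15671960) (l 15793536)) (b (a (l 15872344) (l 15961552)) (a (l 15940832) (l 16016392)))) (a (a (l 15814728) (l 15921880)) (a (l 16007696) (l 16075576))))) (a (b (a (l 4) (l 15783456)) (a (l 4) (l 15899152))) (a (b (a (l 15924680) (l 16010376)) (a (l 16018512) (l 16092032))) (b (a (l 16085064) (b (l 16125456) (l 16158216))) (a (l 16161344) (l 16213752)))))))), by decide +kernel⟩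

theorem c_pm_102 : CertB 536870912 536870912 1073741824 536870912 780900216 37827925 3 eng mog cd0q1 cd4q2 pd0 false true false .npp 1 0 2
    ndB0q1 ndB4q2 pcB0 Cut.none Ext.none :=
  certB1 (fam := false) (s1 := true) (s2 := false) (a := 1) (b := 0) (c := 2) (cn := .npp) (n1 := ndB0q1) (n2 := ndB4q2) (pc := pcB0) (cut := Cut.none) (xt := Ext.none) (P1 := 536870912) (W1 := 536870912) (P2 := 1073741824) (W2 := 536870912) (P3 := 780900216) (W3 := 37827925) (N0 := 3) (En := eng) (mo := mog) (C1 := cd0q1) (C2 := cd4q2) (C3 := pd0)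
    rfl (fun _ => rfl) k0_pm_102

noncomputable def f_pm_112 : ℕ → ℕ → ℕ → ℕ → Bool := onCell 536870912 536870912 1073741824 536870912 780900216 37827925
    (rowB 3 eng mog cd0q1 cd4q2 pd1 2 false true false .dn 1 1 2 (qsf 536870912 536870912 1073741824 536870912 1) ndB0q1 ndB4q2 pcB1 Cut.none Ext.none)

def k0_pm_112 : ∃ t, chk3 f_pm_112 t 1 1 1 = true :=
  ⟨(b (l 4) (a (a (b (a (b (l 4) (l 15879096)) (b (l 4) (l 15802328))) (a (b (a (l 16041616) (l 16003944)) (b (l 16157136) (l 16240304))) (b (l 15927720) (b (l 16038728) (l 16152208))))) (b (l 4) (a (b (l 15797904) (l 15942640)) (b (l 4) (l 15789840))))) (a (b (l 4) (a (b (l 4) (l 4)) (l 4))) (l 4)))), by decide +kernel⟩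

theorem c_pm_112 : CertB 536870912 536870912 1073741824 536870912 780900216 37827925 3 eng mog cd0q1 cd4q2 pd1 false true false .dn 1 1 2
    ndB0q1 ndB4q2 pcB1 Cut.none Ext.none :=
  certB2 (fam := false) (s1 := true) (s2 := false) (a := 1) (b := 1) (c := 2) (cn := .dn) (n1 := ndB0q1) (n2 := ndB4q2) (pc := pcB1) (cut := Cut.none) (xt := Ext.none) (P1 := 536870912) (W1 := 536870912) (P2 := 1073741824) (W2 := 536870912) (P3 := 780900216) (W3 := 37827925) (N0 := 3) (En := eng) (mo := mog) (C1 := cd0q1) (C2 := cd4q2) (C3 := pd1)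
    rfl (fun _ => rfl) k0_pm_112

noncomputable def cut_pm_113 : Cut := Cut.of [[⟨0, 1, 0, 67108864⟩, ⟨1, 1, 0, 67108864⟩, ⟨2, 2, 0, 16777216⟩]]

noncomputable def f_pm_113 : ℕ → ℕ → ℕ → ℕ → Bool := onCell 536870912 536870912 0 1230186008 780900216 37827925
    (rowB 3 eng mog cd0q1 cd4q3 pd1 0 false true false .nn 1 1 3 (qsf 536870912 536870912 0 1230186008 1) ndB0q1 ndB4q3 pcB1 cut_pm_113 Ext.none)

def k0_pm_113 : ∃ t, chk3 f_pm_113 t 1 1 1 = true :=
  ⟨(b (a (l 2) (a (l 2) (b (a (l 2) (a (l 2) (b (l 6) (b (l 6) (a (l 16747424) (l 16781472)))))) (a (b (a (l 2) (l 16600808)) (a (b (l 2) (l 16450400)) (b (l 16566080) (l 16563176)))) (b (a (l 16671792) (b (l 16763784) (l 16762408))) (a (l 16663552) (l 16764456))))))) (b (a (a (l 2) (b (l 2) (a (l 2) (b (l 2) (l 240079676391))))) (a (b (a (l 2) (b (l 298063421735) (l 293768419063))) (a (b (l 318463279431) (l 15960872)) (b (l 16240248) (l 16241952)))) (a (b (a (b (l 16440888) (l 16436544)) (b (l 16563600)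 (l 16567096))) (b (l 16508392) (l 16513168))) (b (a (l 16587952) (l 16785408)) (b (l 16752056) (l 16770344)))))) (a (a (l 4) (a (b (b (a (l 2) (l 266923017767)) (a (l 4) (l 15327696))) (l 4)) (b (b (l 15569720) (b (l 15560744) (l 15569768))) (b (a (l 15529440) (l 15662016)) (b (l 15639608) (l 15688920)))))) (a (b (a (b (l 15963552) (l 15924984)) (l 16251520)) (b (a (a (l 15927328) (l 15960488)) (l 16184776)) (a (b (l 15868392) (l 15889944)) (b (l 16128552) (l 16106648))))) (b (a (l 16523392) (l 16781160)) (a (b (l 16423416) (l 16275472)) (l 16417624))))))), by decide +kernel⟩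

theorem c_pm_113 : CertB 536870912 536870912 0 1230186008 780900216 37827925 3 eng mog cd0q1 cd4q3 pd1 false true false .nn 1 1 3
    ndB0q1 ndB4q3 pcB1 cut_pm_113 Ext.none :=
  certB0 (fam := false) (s1 := true) (s2 := false) (a := 1) (b := 1) (c := 3) (cn := .nn) (n1 := ndB0q1) (n2 := ndB4q3) (pc := pcB1) (cut := cut_pm_113) (xt := Ext.none) (P1 := 536870912) (W1 := 536870912) (P2 := 0) (W2 := 1230186008) (P3 := 780900216) (W3 := 37827925) (N0 := 3) (En := eng) (mo := mog) (C1 := cd0q1) (C2 := cd4q3) (C3 := pd1)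
    rfl k0_pm_113

noncomputable def cut_pm_123 : Cut := Cut.of [[⟨0, 1, 0, 67108864⟩, ⟨1, 1, 0, 67108864⟩, ⟨2, 2, 0, 16777216⟩]]

noncomputable def f_pm_123 : ℕ → ℕ → ℕ → ℕ → Bool := onCell 1073741824 536870912 0 1230186008 780900216 37827925
    (rowB 3 eng mog cd0q1 cd4q3 pd2 2 false true false .npn 1 2 3 (qsf 536870912 536870912 0 1230186008 2) ndB0q1 ndB4q3 pcB2 cut_pm_123 Ext.none)

def k0_pm_123 : ∃ t, chk3 f_pm_123 t 1 1 1 = true :=
  ⟨(b (a (a (b (a (b (a (l 6) (a (l 6) (l 16668272))) (a (b (l 6) (l 16613376)) (b (l 16625416) (l 16586792)))) (a (b (l 16630992) (l 16557608)) (b (a (l 16588200) (l 16570904)) (l 16511200)))) (b (a (a (b (l 16593624) (l 16543736)) (b (l 16543376) (l 16489592))) (a (l 16461904) (l 16434832))) (b (a (a (l 16484256) (l 16421552)) (a (l 16366168) (l 16316728))) (a (a (l 16407712) (l 16529064)) (a (a (l 16298792) (l 16273904)) (l 16239640)))))) (b (a (b (a (a (l 16561144) (b (l 16400168) (l 16537072))) (l 16538144)) (a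 (l 16484840) (l 16466312))) (b (l 16522368) (l 16474344))) (b (a (a (l 16380720) (l 16356400)) (a (l 16351400) (l 16353160))) (a (a (b (l 16278656) (l 16197768)) (l 16223376)) (a (l 16217416) (l 16221360)))))) (a (b (b (a (l 16510848) (l 16502824)) (a (l 16444128) (l 16449272))) (b (a (l 16361352) (l 16364168)) (a (l 16232144) (l 16255304)))) (b (a (l 16227584) (l 16264024)) (a (b (l 16375608) (a (l 16272592) (l 16285360))) (b (l 16374544) (a (l 16292944) (l 1))))))) (b (a (a (b (b (a (a (b (l 16337584) (l 16283824)) (l 16369280)) (b (l 16375576) (l 16383624))) (a (a (l 16175304) (l 16110848)) (a (l 16061520) (l 16025472)))) (a (b (a (l 16017176) (l 15961912)) (c (l 15845640) (l 15742848))) (b (l 15907784) (a (l 15725128) (l 15707376))))) (b (a (a (l 16033264) (l 16043024)) (a (l 16046000) (l 16053392))) (a (b (l 15874168) (l 15815992)) (b (l 15903712) (l 4))))) (a (b (a (a (l 16072296) (l 16097840)) (b (l 16162256) (l 4))) (l 4)) (l 4))) (a (a (b (a (b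 (a (l 15509784) (l 15507728)) (a (l 15314976) (l 4))) (b (a (l 15529744) (l 4)) (l 4))) (l 4)) (l 4)) (l 1)))), by decide +kernel⟩

theorem c_pm_123 : CertB 536870912 536870912 0 1230186008 780900216 37827925 3 eng mog cd0q1 cd4q3 pd2 false true false .npn 1 2 3
    ndB0q1 ndB4q3 pcB2 cut_pm_123 Ext.none :=
  certB2 (fam := false) (s1 := true) (s2 := false) (a := 1) (b := 2) (c := 3) (cn := .npn) (n1 := ndB0q1) (n2 := ndB4q3) (pc := pcB2) (cut := cut_pm_123) (xt := Ext.none) (P1 := 536870912) (W1 := 536870912) (P2 := 0) (W2 := 1230186008) (P3 := 780900216) (W3 := 37827925) (N0 := 3) (En := eng) (mo := mog) (C1 := cd0q1) (C2 := cd4q3) (C3 := pd2)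
    rfl (fun _ => rfl) k0_pm_123

noncomputable def f_pm_133 : ℕ → ℕ → ℕ → ℕ → Bool := onCell 536870912 536870912 0 1230186008 780900216 37827925
    (rowB 3 eng mog cd0q1 cd4q3 pd3 0 false true false .dn 1 3 3 (qsf 536870912 536870912 0 1230186008 3) ndB0q1 ndB4q3 pcB3 Cut.none Ext.none)

def k0_pm_133 : ∃ t, chk3 f_pm_133 t 1 1 1 = true :=
  ⟨(b (b (a (a (a (l 346852285511) (l 1)) (l 1)) (l 1)) (l 1)) (l 1)), by decide +kernel⟩

theorem c_pm_133 : CertB 536870912 536870912 0 1230186008 780900216 37827925 3 eng mog cd0q1 cd4q3 pd3 false true false .dn 1 3 3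
    ndB0q1 ndB4q3 pcB3 Cut.none Ext.none :=
  certB0 (fam := false) (s1 := true) (s2 := false) (a := 1) (b := 3) (c := 3) (cn := .dn) (n1 := ndB0q1) (n2 := ndB4q3) (pc := pcB3) (cut := Cut.none) (xt := Ext.none) (P1 := 536870912) (W1 := 536870912) (P2 := 0) (W2 := 1230186008) (P3 := 780900216) (W3 := 37827925) (N0 := 3) (En := eng) (mo := mog) (C1 := cd0q1) (C2 := cd4q3) (C3 := pd3)
    rfl k0_pm_133

noncomputable def f_pm_202 : ℕ → ℕ → ℕ → ℕ → Bool := onCell 0 536870912 0 536870912 780900216 37827925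
    (rowB 3 eng mog cd0q2 cd4q2 pd0 1 false true false .pp 2 0 2 (qsf 0 536870912 1073741824 536870912 0) ndB0q2 ndB4q2 pcB0 Cut.none Ext.none)

def k0_pm_202 : ∃ t, chk3 f_pm_202 t 2 2 1 = true :=
  ⟨(a (b (b (a (b (l 16435392) (b (l 16435840) (b (l 16438800) (l 16463472)))) (b (a (l 16468744) (l 16451336)) (l 16476208))) (a (b (a (b (a (b (l 16428304) (l 16430680)) (l 16359376)) (a (b (l 16435968) (l 16436896)) (b (l 16443240) (l 16443312)))) (b (l 16449048) (l 16455448))) (a (a (b (l 16437400) (l 16441768)) (b (b (l 16444976) (l 16447376)) (l 16450440))) (b (l 16466952) (a (l 16457040) (l 16467240))))) (b (l 16492816) (a (l 16580616) (l 16502664))))) (b (a (a (b (a (l 145659317015) (l 16520328)) (a (l 3) (l 149954328551))) (b (a (b (l 16463416) (l 16467608)) (b (l 16470104) (l 16475224))) (a (l 16501680) (l 16383768)))) (b (a (b (l 16487224) (l 16488664)) (l 16605112)) (a (a (l 16493656) (l 16502688)) (b (l 16514280) (l 16519520))))) (a (a (l 3) (b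 (b (l 16499048) (l 16551760)) (b (l 162839214103) (l 160691747655)))) (a (b (b (l 16512400) (l 16521768)) (c (l 16528744) (l 16537048))) (b (a (l 16525256) (l 16533944)) (a (l 16541872) (l 16545616))))))) (b (b (a (b (a (l 16451192) (l 16392928)) (b (l 16432544) (l 16441016))) (b (b (l 16325272) (l 16337304)) (l 16469376))) (a (b (l 16455232) (l 16473976)) (b (a (b (l 16413136) (l 16422096)) (l 16379792)) (a (l 16437520) (l 16426144))))) (b (a (b (l 16491400) (a (l 16600928) (l 16495968))) (l 16449984)) (b (a (a (l 16528368) (l 16510288)) (l 16473736)) (a (a (l 16540664) (l 16523208)) (l 16491768)))))), by decide +kernel⟩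

def k1_pm_202 : ∃ t, chk3 f_pm_202 t 2 3 1 = true :=
  ⟨(b (a (b (a (b (a (l 3) (l 166597334487)) (l 3)) (b (a (b (l 16566120) (l 188609074983)) (l 16664216)) (a (c (l 188609099927) (l 166597439719)) (l 16633856)))) (a (l 3) (a (b (c (l 168208046391) (l 161228757399)) (l 3)) (b (c (l 16617640) (l 16584824)) (a (l 162839425111) (l 118212062231)))))) (b (a (a (b (l 16552472) (l 16564648)) (l 16542712)) (b (l 16567496) (a (l 16528784) (l 16503528)))) (a (b (a (l 16576760) (l 16561512)) (a (l 16586592) (l 16574528))) (b (l 16530952) (l 16545128))))) (a (l 2) (a (l 2) (b (b (a (l 2) (l 16547136)) (l 2)) (l 2))))), by decide +kernel⟩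

def k2_pm_202 : ∃ t, chk3 f_pm_202 t 3 2 1 = true :=
  ⟨(a (b (b (b (a (a (l 16256168) (b (l 16190528) (l 16201792))) (b (a (l 16122920) (a (l 16066936) (b (l 16106232) (l 16027232)))) (a (l 16134128) (l 16058032)))) (a (a (l 16283976) (l 16220400)) (a (l 16150768) (l 16074696)))) (a (b (l 16292568) (a (l 16363200) (l 16299176))) (b (a (l 16184104) (l 16102232)) (l 16207792)))) (b (a (b (a (l 16386736) (l 16338040)) (l 16423608)) (b (l 16228920) (l 16438160))) (b (a (l 16401896) (b (l 16291160) (l 16301784))) (a (l 16420880) (l 16322608))))) (b (b (a (b (a (b (a (l 15977464) (l 15921720)) (a (b (l 15990896) (l 15995744)) (l 15941536))) (b (b (l 15831936) (l 15843096)) (l 15859264))) (a (b (a (l 16004400) (a (l 15971872) (l 15947928))) (a (l 16017560) (l 15971104))) (b (l 15879920) (a (l 15927720) (l 15872608))))) (a (b (b (b (a (l 15742288) (l 15678568)) (l 15723072)) (a (l 15772168) (l 15710640))) (b (a (l 15795392) (l 15736000)) (l 15789176))) (b (a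 (b (b (b (l 15607856) (l 15614728)) (l 15625080)) (l 15646248)) (b (a (b (b (l 15554784) (l 15562176)) (l 15573576)) (b (a (b (l 15526792) (l 15535456)) (l 15514360)) (l 15539744))) (a (l 15597056) (l 15565640)))) (a (b (l 15674432) (l 15701768)) (b (l 15613328) (l 15644080)))))) (a (b (a (l 16014360) (b (a (l 15939832) (l 15892352)) (a (l 15954616) (l 15910024)))) (a (l 16052304) (b (l 15944496) (l 15968088)))) (b (a (b (l 15811480) (l 15832672)) (a (l 15740464) (l 15687176))) (a (a (b (l 15880000) (l 15894832)) (l 15837056)) (b (l 15751200) (l 15774752)))))) (b (a (b (l 16284424) (l 16100536)) (b (a (a (l 15932808) (l 15883488)) (b (l 15797528) (l 15825816))) (a (l 15962792) (l 15953240)))) (b (a (l 16375056) (a (l 16014536) (l 15922440))) (a (l 16191456) (l 16024216)))))), by decide +kernel⟩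

def k3_pm_202 : ∃ t, chk3 f_pm_202 t 3 3 1 = true :=
  ⟨(b (b (a (b (a (l 16437792) (l 16346968)) (l 16537128)) (a (b (l 16229440) (l 16253800)) (b (l 16076344) (l 16120416)))) (a (a (b (l 16469808) (l 16482656)) (l 16385176)) (a (b (l 16269584) (l 16286568)) (b (l 16150424) (l 16171424))))) (b (a (a (a (l 16525336) (l 16488856)) (b (l 16412920) (l 16434696))) (a (l 16320512) (b (l 16196328) (l 16227960)))) (a (l 2) (l 16478880)))), by decide +kernel⟩

theorem s4_pm_202 : ∃ t, chk3 f_pm_202 t 3 1 1 = true := ex3_b k2_pm_202 k3_pm_202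

theorem s5_pm_202 : ∃ t, chk3 f_pm_202 t 2 1 1 = true := ex3_b k0_pm_202 k1_pm_202

theorem s6_pm_202 : ∃ t, chk3 f_pm_202 t 1 1 1 = true := ex3_a s5_pm_202 s4_pm_202

theorem c_pm_202 : CertB 0 536870912 1073741824 536870912 780900216 37827925 3 eng mog cd0q2 cd4q2 pd0 false true false .pp 2 0 2
    ndB0q2 ndB4q2 pcB0 Cut.none Ext.none :=
  certB1 (fam := false) (s1 := true) (s2 := false) (a := 2) (b := 0) (c := 2) (cn := .pp) (n1 := ndB0q2) (n2 := ndB4q2) (pc := pcB0) (cut := Cut.none) (xt := Ext.none) (P1 := 0) (W1 := 536870912) (P2 := 1073741824) (W2 := 536870912) (P3 := 780900216) (W3 := 37827925) (N0 := 3) (En := eng) (mo := mog) (C1 := cd0q2) (C2 := cd4q2) (C3 := pd0)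
    rfl (fun _ => rfl) s6_pm_202

noncomputable def f_pm_203 : ℕ → ℕ → ℕ → ℕ → Bool := onCell 0 536870912 0 1230186008 780900216 37827925
    (rowB 3 eng mog cd0q2 cd4q3 pd0 0 false true false .up 2 0 3 (qsf 0 536870912 0 1230186008 0) ndB0q2 ndB4q3 pcB0 Cut.none Ext.none)

def k0_pm_203 : ∃ t, chk3 f_pm_203 t 1 1 1 = true :=
  ⟨(b (l 2) (b (l 2) (a (b (a (l 3) (b (l 2) (b (l 2) (a (a (l 3) (l 150491365511)) (a (l 16619824) (l 2)))))) (a (b (l 3) (a (l 3) (a (l 3) (b (c (l 192904101911) (l 168745009127)) (c (a (l 175187411991) (l 97877972711)) (b (l 16596808) (l 16583320))))))) (b (a (b (a (l 215452789143) (b (l 16620752) (l 16614264))) (a (b (l 154786398615) (l 160692013671)) (l 16604968))) (a (b (l 16608112) (l 16596000)) (b (l 16595192) (l 16581672)))) (b (a (a (c (a (l 16602320) (l 16598608)) (l 146196469527)) (l 16666936)) (a (l 16585488) (l 16570008))) (a (a (c (l 16584672) (l 16589800)) (b (l 16586064) (l 16582384))) (a (l 16575072) (l 16561168)))))))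 (b (l 2) (a (b (a (b (l 16564720) (l 16549848)) (l 16506320)) (a (b (l 16535856) (l 16525360)) (b (l 16474864) (l 16458736)))) (b (a (l 16455656) (l 2)) (a (l 16396448) (l 16343152)))))))), by decide +kernel⟩

theorem c_pm_203 : CertB 0 536870912 0 1230186008 780900216 37827925 3 eng mog cd0q2 cd4q3 pd0 false true false .up 2 0 3
    ndB0q2 ndB4q3 pcB0 Cut.none Ext.none :=
  certB0 (fam := false) (s1 := true) (s2 := false) (a := 2) (b := 0) (c := 3) (cn := .up) (n1 := ndB0q2) (n2 := ndB4q3) (pc := pcB0) (cut := Cut.none) (xt := Ext.none) (P1 := 0) (W1 := 536870912) (P2 := 0) (W2 := 1230186008) (P3 := 780900216) (W3 := 37827925) (N0 := 3) (En := eng) (mo := mog) (C1 := cd0q2) (C2 := cd4q3) (C3 := pd0)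
    rfl k0_pm_203

noncomputable def cut_pm_213 : Cut := Cut.of [[⟨0, 1, 0, 67108864⟩, ⟨1, 1, 0, 67108864⟩, ⟨2, 2, 0, 16777216⟩]]

noncomputable def xt_pm_213 : Ext := extD2 3 ⟨4, 1, 1, 5, 5, 2, 24, 25, 43, 100, 1, 8⟩ eng cd0q2 cd4q3 pd1 false true false .pnn 2 1 3 rfl ndB0q2 ndB4q3 pcB1

noncomputable def f_pm_213 : ℕ → ℕ → ℕ → ℕ → Bool := onCell 0 536870912 0 1230186008 780900216 37827925
    (rowB 3 eng mog cd0q2 cd4q3 pd1 0 false true false .pnn 2 1 3 (qsf 0 536870912 0 1230186008 1) ndB0q2 ndB4q3 pcB1 cut_pm_213 xt_pm_213)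

def k0_pm_213 : ∃ t, chk3 f_pm_213 t 2 2 1 = true :=
  ⟨(l 3), by decide +kernel⟩

def k1_pm_213 : ∃ t, chk3 f_pm_213 t 3 4 1 = true :=
  ⟨(a (l 3) (a (b (l 3) (a (l 3) (b (a (l 3) (l 6)) (a (b (l 3) (a (l 3) (b (a (l 3) (b (l 3) (a (l 3) (l 228874779639)))) (b (a (l 283635609719) (l 204178716247)) (c (l 204715596311) (l 210084294423)))))) (b (a (b (l 3) (a (b (l 3) (l 322827184151)) (b (a (l 3) (l 234780358039)) (l 211694911095)))) (b (a (b (a (l 3) (l 293836154903)) (a (l 263771388263) (l 215989880455))) (b (a (b (l 234243485031) (l 219211107895)) (l 232096010071)) (l 16777096))) (a (b (l 223506073751) (l 16789000)) (l 16789608)))) (a (b (a (b (a (l 266455742359) (l 209010558279)) (l 214379266967)) (l 16779096)) (l 16770472)) (l 16772264))))))) (b (l 6) (a (b (a (l 6) (l 6)) (a (b (a (b (l 16777488) (l 16789728)) (l 16788720)) (l 16792656)) (l 16791360))) (b (a (l 6) (l 6)) (l 16794456)))))), by decide +kernel⟩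

def k2_pm_213 : ∃ t, chk3 f_pm_213 t 6 10 1 = true :=
  ⟨(a (l 3) (b (l 3) (a (l 3) (a (l 3) (b (l 3) (b (l 3) (c (a (l 3) (a (b (l 3) (b (l 3) (l 189683220887))) (b (l 189146348167) (a (b (l 188072609671) (l 153175999047)) (l 152639132103))))) (a (l 3) (a (b (l 3) (a (l 3) (l 189683197975))) (b (l 188609452663) (a (b (l 188072581543) (l 155860332151)) (l 155323462759)))))))))))), by decide +kernel⟩

def k3_pm_213 : ∃ t, chk3 f_pm_213 t 12 11 1 = true :=
  ⟨(l 3), by decide +kernel⟩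

def k4_pm_213 : ∃ t, chk3 f_pm_213 t 13 22 1 = true :=
  ⟨(a (l 3) (a (b (l 3) (a (b (l 3) (a (l 3) (b (l 199883737591) (a (l 193441285047) (l 182703872951))))) (c (b (a (l 200957488455) (b (l 198810018903) (l 179482662919))) (b (l 179482665159) (l 16782832))) (b (a (l 202568070167) (b (l 199346859015) (l 178945757015))) (b (l 179482631799) (l 16767336)))))) (b (a (c (b (a (l 3) (b (l 3) (a (l 3) (l 205252476535)))) (a (b (l 206326214487) (l 184851373575)) (b (a (l 201494379191) (l 16786048)) (l 16786448)))) (b (a (l 3) (b (l 3) (a (l 3) (l 205252446855)))) (a (b (l 206863055255) (l 185388208887)) (b (a (l 200957478263) (l 16771152)) (l 16771504))))) (c (b (a (b (a (l 3745252189310319693695041887) (b (l 186998868007) (l 184851384839))) (a (l 183240769191) (l 16787752))) (b (a (l 16786640) (l 16789296)) (l 16789848))) (l 16790320)) (b (a (b (a (l 208473673575) (b (l 186461967959) (l 184851360791))) (a (l 184851359639) (l 16773144))) (b (a (l 16773496)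 (l 16774984)) (l 16775464))) (l 16775800)))) (a (b (b (c (l 177335190823) (l 177335159415)) (l 16779872)) (l 16781760)) (l 16766256))))), by decide +kernel⟩

def k5_pm_213 : ∃ t, chk3 f_pm_213 t 13 23 1 = true :=
  ⟨(a (b (a (l 3) (a (l 3) (b (c (l 198809993655) (l 199346829863)) (a (b (l 199346853367) (a (l 194515013383) (l 177335151191))) (b (a (l 189683183655) (l 175724544535)) (l 16766680)))))) (a (b (l 3) (a (l 3) (b (l 309405377223) (a (l 3) (l 197736228327))))) (b (a (c (a (b (l 3) (l 199346860839)) (b (l 194515037015) (a (l 169282092679) (l 16770528)))) (b (l 198273075863) (a (l 199346828151) (l 171429535591)))) (b (c (l 162839649879) (l 167671454951)) (l 16767608))) (a (b (a (b (a (l 278803738151) (b (l 190756936983) (l 16759824))) (l 189146326071)) (l 16763080)) (l 16762744)) (l 16770128))))) (b (a (a (b (b (a (l 190756932535) (l 178408907303)) (c (l 174113947751) (l 176798267927))) (a (l 16769936) (l 16773856))) (b (l 16777000) (l 16779744)))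 (l 16768816)) (a (b (l 16779008) (l 16782656)) (l 16797128)))), by decide +kernel⟩

def k6_pm_213 : ∃ t, chk3 f_pm_213 t 7 5 1 = true :=
  ⟨(b (a (a (b (a (l 3) (b (a (l 3) (b (l 3) (a (l 3) (b (l 3) (l 198273132615))))) (a (b (l 3) (a (b (l 3) (l 189146342759)) (b (l 191293818327) (l 184314480423)))) (c (b (a (l 195588805495) (l 192904433991)) (l 16770760)) (b (b (l 196125640679) (l 191830688151)) (l 16772544)))))) (a (b (c (a (b (l 3) (a (l 3) (l 189683220263))) (b (a (l 3) (l 190756964551)) (a (l 173577096679) (l 171429614055)))) (a (b (l 3) (a (l 3) (l 189146326263))) (b (a (l 3) (l 189146331111)) (a (l 175187676135) (l 173040204439))))) (c (a (b (b (l 188609480535) (a (l 188609481127) (l 16788776))) (a (b (l 156934099463) (l 16789768)) (l 16791392))) (b (l 16780984) (l 16795096))) (a (b (b (l 188072579671) (a (l 187535713399) (l 16776040))) (a (b (l 158544680903) (l 16775904)) (l 16778040))) (b (l 16779392) (l 16782216))))) (b (a (b (a (c (l 176261435239)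 (l 181093266951)) (l 16765224)) (l 16766696)) (l 16770496)) (a (l 16771480) (l 16798096))))) (b (a (b (a (c (b (a (l 299204869175) (l 223506075639)) (l 197736268215)) (b (a (l 300815490071) (l 206863064967)) (a (l 192367552439) (l 16785552)))) (b (a (b (l 206326199479) (l 16789632)) (l 16791176)) (l 16792480))) (a (b (l 16769056) (l 16792544)) (l 16796408))) (b (l 16776640) (l 16803768))) (b (a (l 16799720) (l 16810968)) (l 16813608)))) (a (b (a (l 16800632) (l 16800448)) (l 16813480)) (b (l 16803976) (l 16814496)))) (a (b (a (a (b (b (c (l 16774984) (l 16761376)) (l 16771280)) (l 16776160)) (b (l 16802600) (l 16810488))) (l 16785288)) (a (b (l 16812192) (l 16821840)) (l 16849800))) (a (b (l 16829792) (l 16845304)) (b (l 16822688) (l 16830544))))), by decide +kernel⟩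

def k7_pm_213 : ∃ t, chk3 f_pm_213 t 1 6 1 = true :=
  ⟨(a (b (l 3) (a (l 3) (a (l 3) (b (l 3) (a (l 3) (b (a (l 3) (b (a (l 3) (l 253033777495)) (l 172503127703))) (a (l 246591296151) (b (l 16668008) (l 16663328))))))))) (a (b (a (b (a (l 3) (b (l 3) (a (l 3) (l 290078011031)))) (a (b (l 3) (a (l 3) (l 193978077207))) (a (b (l 212768581655) (l 164450132295)) (b (l 16752424) (l 16758024))))) (b (a (b (a (b (a (l 336248916967) (b (l 191830659991) (l 16758448))) (l 179482573207)) (b (l 16769928) (l 16774200))) (a (l 16763144) (l 16781272))) (b (l 16777416) (l 16809080))) (a (l 16743600) (l 16827224)))) (a (b (a (b (a (a (l 3) (l 177871921607)) (b (l 197736160535) (l 152102077815))) (b (a (a (l 168745085559) (l 134922200343)) (l 16710744)) (a (a (b (l 176261259975) (l 184314314855)) (a (l 16692040) (l 16694808))) (l 16701440)))) (b (l 16728216) (l 16723376))) (a (b (a (b (l 191293612663) (l 16679000)) (l 16689184)) (l 16671376)) (l 16688264))) (b (a (l 16767896)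 (l 16815264)) (a (l 16703376) (l 16722104))))) (b (a (a (b (l 16839848) (l 16871264)) (b (l 16877832) (l 16902776))) (b (l 16854056) (l 16869896))) (a (b (l 16923344) (l 16795488)) (b (l 16895784) (l 16919800)))))), by decide +kernel⟩

def k8_pm_213 : ∃ t, chk3 f_pm_213 t 1 7 1 = true :=
  ⟨(a (b (a (l 3) (b (a (l 3) (a (b (l 243906928711) (l 146733323479)) (b (a (l 16674512) (l 16655416)) (l 16643904)))) (a (a (l 3) (b (l 221895299575) (b (l 149954496983) (l 16629184)))) (b (a (l 152101963367) (l 16632144)) (a (l 16627728) (l 16620080)))))) (a (l 1) (b (a (l 1) (b (a (l 16619816) (l 16608560)) (l 1))) (l 1)))) (a (b (b (a (b (l 16655192) (a (l 16639200) (l 16631880))) (a (l 16638640) (l 16642104))) (a (a (a (l 16639536) (l 16610256)) (l 16596856)) (l 16574608))) (b (a (b (l 16576664) (l 16557920)) (l 16514688)) (l 1))) (b (b (a (l 16670800) (l 16810840)) (a (l 16564480) (l 16617968))) (b (a (l 16470864) (l 16468600)) (l 16412328))))), by decide +kernel⟩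

theorem s9_pm_213 : ∃ t, chk3 f_pm_213 t 1 3 1 = true := ex3_b k7_pm_213 k8_pm_213

theorem s10_pm_213 : ∃ t, chk3 f_pm_213 t 13 11 1 = true := ex3_b k4_pm_213 k5_pm_213

theorem s11_pm_213 : ∃ t, chk3 f_pm_213 t 6 11 1 = true := ex3_a k3_pm_213 s10_pm_213

theorem s12_pm_213 : ∃ t, chk3 f_pm_213 t 6 5 1 = true := ex3_b k2_pm_213 s11_pm_213

theorem s13_pm_213 : ∃ t, chk3 f_pm_213 t 3 5 1 = true := ex3_a s12_pm_213 k6_pm_213

theorem s14_pm_213 : ∃ t, chk3 f_pm_213 t 3 2 1 = true := ex3_b k1_pm_213 s13_pm_213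

theorem s15_pm_213 : ∃ t, chk3 f_pm_213 t 1 2 1 = true := ex3_a k0_pm_213 s14_pm_213

theorem s16_pm_213 : ∃ t, chk3 f_pm_213 t 1 1 1 = true := ex3_b s15_pm_213 s9_pm_213

theorem c_pm_213 : CertB 0 536870912 0 1230186008 780900216 37827925 3 eng mog cd0q2 cd4q3 pd1 false true false .pnn 2 1 3
    ndB0q2 ndB4q3 pcB1 cut_pm_213 xt_pm_213 :=
  certB0 (fam := false) (s1 := true) (s2 := false) (a := 2) (b := 1) (c := 3) (cn := .pnn) (n1 := ndB0q2) (n2 := ndB4q3) (pc := pcB1) (cut := cut_pm_213) (xt := xt_pm_213) (P1 := 0) (W1 := 536870912) (P2 := 0) (W2 := 1230186008) (P3 := 780900216) (W3 := 37827925) (N0 := 3) (En := eng) (mo := mog) (C1 := cd0q2) (C2 := cd4q3) (C3 := pd1)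
    rfl s16_pm_213

noncomputable def f_mm_001 : ℕ → ℕ → ℕ → ℕ → Bool := onCell 0 536870912 0 536870912 780900216 37827925
    (rowB 3 eng mog cd0q0 cd4q1 pd0 1 false false false .up 0 0 1 (qsf 0 536870912 536870912 536870912 0) ndB0q0 ndB4q1 pcB0 Cut.none Ext.none)

def k0_mm_001 : ∃ t, chk3 f_mm_001 t 1 1 1 = true :=
  ⟨(l 3), by decide +kernel⟩

theorem c_mm_001 : CertB 0 536870912 536870912 536870912 780900216 37827925 3 eng mog cd0q0 cd4q1 pd0 false false false .up 0 0 1
    ndB0q0 ndB4q1 pcB0 Cut.none Ext.none :=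
  certB1 (fam := false) (s1 := false) (s2 := false) (a := 0) (b := 0) (c := 1) (cn := .up) (n1 := ndB0q0) (n2 := ndB4q1) (pc := pcB0) (cut := Cut.none) (xt := Ext.none) (P1 := 0) (W1 := 536870912) (P2 := 536870912) (W2 := 536870912) (P3 := 780900216) (W3 := 37827925) (N0 := 3) (En := eng) (mo := mog) (C1 := cd0q0) (C2 := cd4q1) (C3 := pd0)
    rfl (fun _ => rfl) k0_mm_001

noncomputable def f_mm_011 : ℕ → ℕ → ℕ → ℕ → Bool := onCell 0 536870912 536870912 536870912 780900216 37827925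
    (rowB 3 eng mog cd0q0 cd4q1 pd1 1 false false false .pnn 0 1 1 (qsf 0 536870912 536870912 536870912 1) ndB0q0 ndB4q1 pcB1 Cut.none Ext.none)

def k0_mm_011 : ∃ t, chk3 f_mm_011 t 1 1 1 = true :=
  ⟨(l 5), by decide +kernel⟩

theorem c_mm_011 : CertB 0 536870912 536870912 536870912 780900216 37827925 3 eng mog cd0q0 cd4q1 pd1 false false false .pnn 0 1 1
    ndB0q0 ndB4q1 pcB1 Cut.none Ext.none :=
  certB1 (fam := false) (s1 := false) (s2 := false) (a := 0) (b := 1) (c := 1) (cn := .pnn) (n1 := ndB0q0) (n2 := ndB4q1) (pc := pcB1) (cut := Cut.none) (xt := Ext.none) (P1 := 0) (W1 := 536870912) (P2 := 536870912) (W2 := 536870912) (P3 := 780900216) (W3 := 37827925) (N0 := 3) (En := eng) (mo := mog) (C1 := cd0q0) (C2 := cd4q1) (C3 := pd1)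
    rfl (fun _ => rfl) k0_mm_011

noncomputable def f_mm_012 : ℕ → ℕ → ℕ → ℕ → Bool := onCell 0 536870912 1073741824 536870912 780900216 37827925
    (rowB 3 eng mog cd0q0 cd4q2 pd1 0 false false false .pnp 0 1 2 (qsf 0 536870912 1073741824 536870912 1) ndB0q0 ndB4q2 pcB1 Cut.none Ext.none)

def k0_mm_012 : ∃ t, chk3 f_mm_012 t 1 1 1 = true :=
  ⟨(l 5), by decide +kernel⟩

theorem c_mm_012 : CertB 0 536870912 1073741824 536870912 780900216 37827925 3 eng mog cd0q0 cd4q2 pd1 false false false .pnp 0 1 2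
    ndB0q0 ndB4q2 pcB1 Cut.none Ext.none :=
  certB0 (fam := false) (s1 := false) (s2 := false) (a := 0) (b := 1) (c := 2) (cn := .pnp) (n1 := ndB0q0) (n2 := ndB4q2) (pc := pcB1) (cut := Cut.none) (xt := Ext.none) (P1 := 0) (W1 := 536870912) (P2 := 1073741824) (W2 := 536870912) (P3 := 780900216) (W3 := 37827925) (N0 := 3) (En := eng) (mo := mog) (C1 := cd0q0) (C2 := cd4q2) (C3 := pd1)
    rfl k0_mm_012

noncomputable def f_mm_022 : ℕ → ℕ → ℕ → ℕ → Bool := onCell 0 536870912 1073741824 536870912 780900216 37827925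
    (rowB 3 eng mog cd0q0 cd4q2 pd2 0 false false false .pp 0 2 2 (qsf 0 536870912 1073741824 536870912 2) ndB0q0 ndB4q2 pcB2 Cut.none Ext.none)

def k0_mm_022 : ∃ t, chk3 f_mm_022 t 1 1 1 = true :=
  ⟨(l 5), by decide +kernel⟩

theorem c_mm_022 : CertB 0 536870912 1073741824 536870912 780900216 37827925 3 eng mog cd0q0 cd4q2 pd2 false false false .pp 0 2 2
    ndB0q0 ndB4q2 pcB2 Cut.none Ext.none :=
  certB0 (fam := false) (s1 := false) (s2 := false) (a := 0) (b := 2) (c := 2) (cn := .pp) (n1 := ndB0q0) (n2 := ndB4q2) (pc := pcB2) (cut := Cut.none) (xt := Ext.none) (P1 := 0) (W1 := 536870912) (P2 := 1073741824) (W2 := 536870912) (P3 := 780900216) (W3 := 37827925) (N0 := 3) (En := eng) (mo := mog) (C1 := cd0q0) (C2 := cd4q2) (C3 := pd2)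
    rfl k0_mm_022

noncomputable def f_mm_023 : ℕ → ℕ → ℕ → ℕ → Bool := onCell 0 536870912 0 1230186008 780900216 37827925
    (rowB 3 eng mog cd0q0 cd4q3 pd2 0 false false false .up 0 2 3 (qsf 0 536870912 0 1230186008 2) ndB0q0 ndB4q3 pcB2 Cut.none Ext.none)

def k0_mm_023 : ∃ t, chk3 f_mm_023 t 1 1 1 = true :=
  ⟨(l 5), by decide +kernel⟩

theorem c_mm_023 : CertB 0 536870912 0 1230186008 780900216 37827925 3 eng mog cd0q0 cd4q3 pd2 false false false .up 0 2 3
    ndB0q0 ndB4q3 pcB2 Cut.none Ext.none :=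
  certB0 (fam := false) (s1 := false) (s2 := false) (a := 0) (b := 2) (c := 3) (cn := .up) (n1 := ndB0q0) (n2 := ndB4q3) (pc := pcB2) (cut := Cut.none) (xt := Ext.none) (P1 := 0) (W1 := 536870912) (P2 := 0) (W2 := 1230186008) (P3 := 780900216) (W3 := 37827925) (N0 := 3) (En := eng) (mo := mog) (C1 := cd0q0) (C2 := cd4q3) (C3 := pd2)
    rfl k0_mm_023

noncomputable def f_mm_033 : ℕ → ℕ → ℕ → ℕ → Bool := onCell 0 536870912 0 1230186008 780900216 37827925
    (rowB 3 eng mog cd0q0 cd4q3 pd3 0 false false false .pnn 0 3 3 (qsf 0 536870912 0 1230186008 3) ndB0q0 ndB4q3 pcB3 Cut.none Ext.none)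

def k0_mm_033 : ∃ t, chk3 f_mm_033 t 1 1 1 = true :=
  ⟨(l 5), by decide +kernel⟩

theorem c_mm_033 : CertB 0 536870912 0 1230186008 780900216 37827925 3 eng mog cd0q0 cd4q3 pd3 false false false .pnn 0 3 3
    ndB0q0 ndB4q3 pcB3 Cut.none Ext.none :=
  certB0 (fam := false) (s1 := false) (s2 := false) (a := 0) (b := 3) (c := 3) (cn := .pnn) (n1 := ndB0q0) (n2 := ndB4q3) (pc := pcB3) (cut := Cut.none) (xt := Ext.none) (P1 := 0) (W1 := 536870912) (P2 := 0) (W2 := 1230186008) (P3 := 780900216) (W3 := 37827925) (N0 := 3) (En := eng) (mo := mog) (C1 := cd0q0) (C2 := cd4q3) (C3 := pd3)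
    rfl k0_mm_033

noncomputable def cut_mm_101 : Cut := Cut.of [[⟨0, 1, 0, 67108864⟩, ⟨1, 0, 0, 67108864⟩, ⟨2, 1, 0, 67108864⟩]]

noncomputable def f_mm_101 : ℕ → ℕ → ℕ → ℕ → Bool := onCell 536870912 536870912 0 536870912 780900216 37827925
    (rowB 3 eng mog cd0q1 cd4q1 pd0 1 false false false .npn 1 0 1 (qsf 536870912 536870912 536870912 536870912 0) ndB0q1 ndB4q1 pcB0 cut_mm_101 Ext.none)

def k0_mm_101 : ∃ t, chk3 f_mm_101 t 1 1 1 = true :=
  ⟨(a (l 3) (b (a (l 3) (b (a (l 3) (b (a (l 3) (b (l 6) (l 3))) (l 3))) (l 3))) (l 3))), by decide +kernel⟩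

theorem c_mm_101 : CertB 536870912 536870912 536870912 536870912 780900216 37827925 3 eng mog cd0q1 cd4q1 pd0 false false false .npn 1 0 1
    ndB0q1 ndB4q1 pcB0 cut_mm_101 Ext.none :=
  certB1 (fam := false) (s1 := false) (s2 := false) (a := 1) (b := 0) (c := 1) (cn := .npn) (n1 := ndB0q1) (n2 := ndB4q1) (pc := pcB0) (cut := cut_mm_101) (xt := Ext.none) (P1 := 536870912) (W1 := 536870912) (P2 := 536870912) (W2 := 536870912) (P3 := 780900216) (W3 := 37827925) (N0 := 3) (En := eng) (mo := mog) (C1 := cd0q1) (C2 := cd4q1) (C3 := pd0)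
    rfl (fun _ => rfl) k0_mm_101

noncomputable def f_mm_102 : ℕ → ℕ → ℕ → ℕ → Bool := onCell 536870912 536870912 1073741824 536870912 780900216 37827925
    (rowB 3 eng mog cd0q1 cd4q2 pd0 0 false false false .npp 1 0 2 (qsf 536870912 536870912 1073741824 536870912 0) ndB0q1 ndB4q2 pcB0 Cut.none Ext.none)

def k0_mm_102 : ∃ t, chk3 f_mm_102 t 1 1 1 = true :=
  ⟨(l 3), by decide +kernel⟩

theorem c_mm_102 : CertB 536870912 536870912 1073741824 536870912 780900216 37827925 3 eng mog cd0q1 cd4q2 pd0 false false false .npp 1 0 2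
    ndB0q1 ndB4q2 pcB0 Cut.none Ext.none :=
  certB0 (fam := false) (s1 := false) (s2 := false) (a := 1) (b := 0) (c := 2) (cn := .npp) (n1 := ndB0q1) (n2 := ndB4q2) (pc := pcB0) (cut := Cut.none) (xt := Ext.none) (P1 := 536870912) (W1 := 536870912) (P2 := 1073741824) (W2 := 536870912) (P3 := 780900216) (W3 := 37827925) (N0 := 3) (En := eng) (mo := mog) (C1 := cd0q1) (C2 := cd4q2) (C3 := pd0)
    rfl k0_mm_102

noncomputable def f_mm_112 : ℕ → ℕ → ℕ → ℕ → Bool := onCell 536870912 536870912 1073741824 536870912 780900216 37827925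
    (rowB 3 eng mog cd0q1 cd4q2 pd1 0 false false false .dn 1 1 2 (qsf 536870912 536870912 1073741824 536870912 1) ndB0q1 ndB4q2 pcB1 Cut.none Ext.none)

def k0_mm_112 : ∃ t, chk3 f_mm_112 t 1 1 1 = true :=
  ⟨(l 3), by decide +kernel⟩

theorem c_mm_112 : CertB 536870912 536870912 1073741824 536870912 780900216 37827925 3 eng mog cd0q1 cd4q2 pd1 false false false .dn 1 1 2
    ndB0q1 ndB4q2 pcB1 Cut.none Ext.none :=
  certB0 (fam := false) (s1 := false) (s2 := false) (a := 1) (b := 1) (c := 2) (cn := .dn) (n1 := ndB0q1) (n2 := ndB4q2) (pc := pcB1) (cut := Cut.none) (xt := Ext.none) (P1 := 536870912) (W1 := 536870912) (P2 := 1073741824) (W2 := 536870912) (P3 := 780900216) (W3 := 37827925) (N0 := 3) (En := eng) (mo := mog) (C1 := cd0q1) (C2 := cd4q2) (C3 := pd1)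
    rfl k0_mm_112

noncomputable def f_mm_113 : ℕ → ℕ → ℕ → ℕ → Bool := onCell 536870912 536870912 0 1230186008 780900216 37827925
    (rowB 3 eng mog cd0q1 cd4q3 pd1 0 false false false .nn 1 1 3 (qsf 536870912 536870912 0 1230186008 1) ndB0q1 ndB4q3 pcB1 Cut.none Ext.none)

def k0_mm_113 : ∃ t, chk3 f_mm_113 t 1 1 1 = true :=
  ⟨(b (l 5) (b (l 5) (a (l 5) (l 3)))), by decide +kernel⟩

theorem c_mm_113 : CertB 536870912 536870912 0 1230186008 780900216 37827925 3 eng mog cd0q1 cd4q3 pd1 false false false .nn 1 1 3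
    ndB0q1 ndB4q3 pcB1 Cut.none Ext.none :=
  certB0 (fam := false) (s1 := false) (s2 := false) (a := 1) (b := 1) (c := 3) (cn := .nn) (n1 := ndB0q1) (n2 := ndB4q3) (pc := pcB1) (cut := Cut.none) (xt := Ext.none) (P1 := 536870912) (W1 := 536870912) (P2 := 0) (W2 := 1230186008) (P3 := 780900216) (W3 := 37827925) (N0 := 3) (En := eng) (mo := mog) (C1 := cd0q1) (C2 := cd4q3) (C3 := pd1)
    rfl k0_mm_113

noncomputable def f_mm_123 : ℕ → ℕ → ℕ → ℕ → Bool := onCell 1073741824 536870912 0 1230186008 780900216 37827925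
    (rowB 3 eng mog cd0q1 cd4q3 pd2 2 false false false .npn 1 2 3 (qsf 536870912 536870912 0 1230186008 2) ndB0q1 ndB4q3 pcB2 Cut.none Ext.none)

def k0_mm_123 : ∃ t, chk3 f_mm_123 t 1 1 1 = true :=
  ⟨(b (l 5) (l 5)), by decide +kernel⟩

theorem c_mm_123 : CertB 536870912 536870912 0 1230186008 780900216 37827925 3 eng mog cd0q1 cd4q3 pd2 false false false .npn 1 2 3
    ndB0q1 ndB4q3 pcB2 Cut.none Ext.none :=
  certB2 (fam := false) (s1 := false) (s2 := false) (a := 1) (b := 2) (c := 3) (cn := .npn) (n1 := ndB0q1) (n2 := ndB4q3) (pc := pcB2) (cut := Cut.none) (xt := Ext.none) (P1 := 536870912) (W1 := 536870912) (P2 := 0) (W2 := 1230186008) (P3 := 780900216) (W3 := 37827925) (N0 := 3) (En := eng) (mo := mog) (C1 := cd0q1) (C2 := cd4q3) (C3 := pd2)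
    rfl (fun _ => rfl) k0_mm_123

noncomputable def f_mm_133 : ℕ → ℕ → ℕ → ℕ → Bool := onCell 1610612736 536870912 0 1230186008 780900216 37827925
    (rowB 3 eng mog cd0q1 cd4q3 pd3 2 false false false .dn 1 3 3 (qsf 536870912 536870912 0 1230186008 3) ndB0q1 ndB4q3 pcB3 Cut.none Ext.none)

def k0_mm_133 : ∃ t, chk3 f_mm_133 t 1 1 1 = true :=
  ⟨(l 5), by decide +kernel⟩

theorem c_mm_133 : CertB 536870912 536870912 0 1230186008 780900216 37827925 3 eng mog cd0q1 cd4q3 pd3 false false false .dn 1 3 3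
    ndB0q1 ndB4q3 pcB3 Cut.none Ext.none :=
  certB2 (fam := false) (s1 := false) (s2 := false) (a := 1) (b := 3) (c := 3) (cn := .dn) (n1 := ndB0q1) (n2 := ndB4q3) (pc := pcB3) (cut := Cut.none) (xt := Ext.none) (P1 := 536870912) (W1 := 536870912) (P2 := 0) (W2 := 1230186008) (P3 := 780900216) (W3 := 37827925) (N0 := 3) (En := eng) (mo := mog) (C1 := cd0q1) (C2 := cd4q3) (C3 := pd3)
    rfl (fun _ => rfl) k0_mm_133

noncomputable def f_mm_202 : ℕ → ℕ → ℕ → ℕ → Bool := onCell 0 536870912 0 536870912 780900216 37827925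
    (rowB 3 eng mog cd0q2 cd4q2 pd0 1 false false false .pp 2 0 2 (qsf 0 536870912 1073741824 536870912 0) ndB0q2 ndB4q2 pcB0 Cut.none Ext.none)

def k0_mm_202 : ∃ t, chk3 f_mm_202 t 1 1 1 = true :=
  ⟨(a (b (b (a (a (a (b (b (b (l 16406384) (a (l 16410960) (l 16511824))) (b (a (b (l 16418688) (l 16500944)) (l 16503976)) (a (b (l 16443512) (l 16425952)) (l 16426400)))) (b (b (b (a (l 16430712) (l 16434712)) (l 16456136)) (c (l 120426374711) (l 118815759911))) (b (a (l 16435632) (l 3)) (l 3)))) (b (b (b (a (l 16484536) (l 3)) (l 107004559431)) (b (l 118815689095) (l 3))) (l 3))) (l 3)) (l 3)) (l 3)) (l 3)) (l 3)), by decide +kernel⟩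

theorem c_mm_202 : CertB 0 536870912 1073741824 536870912 780900216 37827925 3 eng mog cd0q2 cd4q2 pd0 false false false .pp 2 0 2
    ndB0q2 ndB4q2 pcB0 Cut.none Ext.none :=
  certB1 (fam := false) (s1 := false) (s2 := false) (a := 2) (b := 0) (c := 2) (cn := .pp) (n1 := ndB0q2) (n2 := ndB4q2) (pc := pcB0) (cut := Cut.none) (xt := Ext.none) (P1 := 0) (W1 := 536870912) (P2 := 1073741824) (W2 := 536870912) (P3 := 780900216) (W3 := 37827925) (N0 := 3) (En := eng) (mo := mog) (C1 := cd0q2) (C2 := cd4q2) (C3 := pd0)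
    rfl (fun _ => rfl) k0_mm_202

noncomputable def f_mm_203 : ℕ → ℕ → ℕ → ℕ → Bool := onCell 0 536870912 0 1230186008 780900216 37827925
    (rowB 3 eng mog cd0q2 cd4q3 pd0 0 false false false .up 2 0 3 (qsf 0 536870912 0 1230186008 0) ndB0q2 ndB4q3 pcB0 Cut.none Ext.none)

def k0_mm_203 : ∃ t, chk3 f_mm_203 t 1 1 1 = true :=
  ⟨(b (l 2) (b (l 2) (l 3))), by decide +kernel⟩

theorem c_mm_203 : CertB 0 536870912 0 1230186008 780900216 37827925 3 eng mog cd0q2 cd4q3 pd0 false false false .up 2 0 3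
    ndB0q2 ndB4q3 pcB0 Cut.none Ext.none :=
  certB0 (fam := false) (s1 := false) (s2 := false) (a := 2) (b := 0) (c := 3) (cn := .up) (n1 := ndB0q2) (n2 := ndB4q3) (pc := pcB0) (cut := Cut.none) (xt := Ext.none) (P1 := 0) (W1 := 536870912) (P2 := 0) (W2 := 1230186008) (P3 := 780900216) (W3 := 37827925) (N0 := 3) (En := eng) (mo := mog) (C1 := cd0q2) (C2 := cd4q3) (C3 := pd0)
    rfl k0_mm_203

noncomputable def f_mm_213 : ℕ → ℕ → ℕ → ℕ → Bool := onCell 0 536870912 0 1230186008 780900216 37827925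
    (rowB 3 eng mog cd0q2 cd4q3 pd1 0 false false false .pnn 2 1 3 (qsf 0 536870912 0 1230186008 1) ndB0q2 ndB4q3 pcB1 Cut.none Ext.none)

def k0_mm_213 : ∃ t, chk3 f_mm_213 t 1 1 1 = true :=
  ⟨(b (a (l 3) (b (l 5) (l 3))) (b (l 3) (l 3))), by decide +kernel⟩

theorem c_mm_213 : CertB 0 536870912 0 1230186008 780900216 37827925 3 eng mog cd0q2 cd4q3 pd1 false false false .pnn 2 1 3
    ndB0q2 ndB4q3 pcB1 Cut.none Ext.none :=
  certB0 (fam := false) (s1 := false) (s2 := false) (a := 2) (b := 1) (c := 3) (cn := .pnn) (n1 := ndB0q2) (n2 := ndB4q3) (pc := pcB1) (cut := Cut.none) (xt := Ext.none) (P1 := 0) (W1 := 536870912) (P2 := 0) (W2 := 1230186008) (P3 := 780900216) (W3 := 37827925) (N0 := 3) (En := eng) (mo := mog) (C1 := cd0q2) (C2 := cd4q3) (C3 := pd1)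
    rfl k0_mm_213

end Pool.Agent.Strip051.G.I72727_7625.Tab.C.BB04

namespace Pool.Agent.Strip051.G.I72727_7625.Tab.C.BB05

open Pool.Agent.Strip051.PB Pool.Agent.Strip051.PB.T
open Pool.Agent.Strip051.G.I72727_7625.Tab

noncomputable def cut_pp_001 : Cut := Cut.of [[⟨3, 0, 0, 1449551462⟩]]

noncomputable def f_pp_001 : ℕ → ℕ → ℕ → ℕ → Bool := onCell 0 536870912 536870912 536870912 780900216 37827925
    (rowB 3 eng mog cd0q0 cd5q1 pd0 0 false true true .up 0 0 1 (qsf 0 536870912 536870912 536870912 0) ndB0q0 ndB5q1 pcB0 cut_pp_001 Ext.none)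

def k0_pp_001 : ∃ t, chk3 f_pp_001 t 1 1 1 = true :=
  ⟨(l 6), by decide +kernel⟩

theorem c_pp_001 : CertB 0 536870912 536870912 536870912 780900216 37827925 3 eng mog cd0q0 cd5q1 pd0 false true true .up 0 0 1
    ndB0q0 ndB5q1 pcB0 cut_pp_001 Ext.none :=
  certB0 (fam := false) (s1 := true) (s2 := true) (a := 0) (b := 0) (c := 1) (cn := .up) (n1 := ndB0q0) (n2 := ndB5q1) (pc := pcB0) (cut := cut_pp_001) (xt := Ext.none) (P1 := 0) (W1 := 536870912) (P2 := 536870912) (W2 := 536870912) (P3 := 780900216) (W3 := 37827925) (N0 := 3) (En := eng) (mo := mog) (C1 := cd0q0) (C2 := cd5q1) (C3 := pd0)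
    rfl k0_pp_001

noncomputable def cut_pp_011 : Cut := Cut.of [[⟨3, 0, 0, 1449551462⟩], [⟨0, 0, 0, 67108864⟩, ⟨1, 1, 0, 67108864⟩, ⟨2, 1, 0, 67108864⟩]]

noncomputable def f_pp_011 : ℕ → ℕ → ℕ → ℕ → Bool := onCell 0 536870912 536870912 536870912 780900216 37827925
    (rowB 3 eng mog cd0q0 cd5q1 pd1 0 false true true .pnn 0 1 1 (qsf 0 536870912 536870912 536870912 1) ndB0q0 ndB5q1 pcB1 cut_pp_011 Ext.none)

def k0_pp_011 : ∃ t, chk3 f_pp_011 t 1 1 1 = true :=
  ⟨(l 6), by decide +kernel⟩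

theorem c_pp_011 : CertB 0 536870912 536870912 536870912 780900216 37827925 3 eng mog cd0q0 cd5q1 pd1 false true true .pnn 0 1 1
    ndB0q0 ndB5q1 pcB1 cut_pp_011 Ext.none :=
  certB0 (fam := false) (s1 := true) (s2 := true) (a := 0) (b := 1) (c := 1) (cn := .pnn) (n1 := ndB0q0) (n2 := ndB5q1) (pc := pcB1) (cut := cut_pp_011) (xt := Ext.none) (P1 := 0) (W1 := 536870912) (P2 := 536870912) (W2 := 536870912) (P3 := 780900216) (W3 := 37827925) (N0 := 3) (En := eng) (mo := mog) (C1 := cd0q0) (C2 := cd5q1) (C3 := pd1)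
    rfl k0_pp_011

noncomputable def cut_pp_012 : Cut := Cut.of [[⟨3, 0, 0, 1449551462⟩], [⟨0, 0, 0, 67108864⟩, ⟨1, 1, 0, 67108864⟩, ⟨2, 1, 0, 67108864⟩]]

noncomputable def f_pp_012 : ℕ → ℕ → ℕ → ℕ → Bool := onCell 0 536870912 536870912 536870912 780900216 37827925
    (rowB 3 eng mog cd0q0 cd5q2 pd1 1 false true true .pnp 0 1 2 (qsf 0 536870912 1073741824 536870912 1) ndB0q0 ndB5q2 pcB1 cut_pp_012 Ext.none)

def k0_pp_012 : ∃ t, chk3 f_pp_012 t 1 1 1 = true :=
  ⟨(l 6), by decide +kernel⟩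

theorem c_pp_012 : CertB 0 536870912 1073741824 536870912 780900216 37827925 3 eng mog cd0q0 cd5q2 pd1 false true true .pnp 0 1 2
    ndB0q0 ndB5q2 pcB1 cut_pp_012 Ext.none :=
  certB1 (fam := false) (s1 := true) (s2 := true) (a := 0) (b := 1) (c := 2) (cn := .pnp) (n1 := ndB0q0) (n2 := ndB5q2) (pc := pcB1) (cut := cut_pp_012) (xt := Ext.none) (P1 := 0) (W1 := 536870912) (P2 := 1073741824) (W2 := 536870912) (P3 := 780900216) (W3 := 37827925) (N0 := 3) (En := eng) (mo := mog) (C1 := cd0q0) (C2 := cd5q2) (C3 := pd1)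
    rfl (fun _ => rfl) k0_pp_012

noncomputable def cut_pp_022 : Cut := Cut.of [[⟨3, 0, 0, 1449551462⟩], [⟨0, 0, 0, 67108864⟩, ⟨1, 1, 0, 67108864⟩, ⟨2, 1, 0, 67108864⟩]]

noncomputable def f_pp_022 : ℕ → ℕ → ℕ → ℕ → Bool := onCell 0 536870912 1073741824 536870912 780900216 37827925
    (rowB 3 eng mog cd0q0 cd5q2 pd2 0 false true true .pp 0 2 2 (qsf 0 536870912 1073741824 536870912 2) ndB0q0 ndB5q2 pcB2 cut_pp_022 Ext.none)

def k0_pp_022 : ∃ t, chk3 f_pp_022 t 1 1 1 = true :=
  ⟨(a (b (l 6) (a (b (b (a (a (b (l 6) (l 16165240)) (l 6)) (l 6)) (a (b (a (l 16098064) (l 16194904)) (b (l 16097048) (l 16064648))) (b (l 6) (a (c (l 16100736) (l 16214272)) (l 6))))) (b (a (b (l 16122224) (l 15957000)) (b (a (b (l 16171648) (l 16139616)) (l 6)) (a (l 16135144) (b (l 16198024) (l 16167560))))) (a (b (l 15921784) (l 15851448)) (b (a (l 16036224) (l 16124936)) (l 16029872))))) (b (l 6) (a (b (l 6) (a (l 16243608) (a (l 16263640) (l 6)))) (l 6))))) (l 6)), by decide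 +kernel⟩

theorem c_pp_022 : CertB 0 536870912 1073741824 536870912 780900216 37827925 3 eng mog cd0q0 cd5q2 pd2 false true true .pp 0 2 2
    ndB0q0 ndB5q2 pcB2 cut_pp_022 Ext.none :=
  certB0 (fam := false) (s1 := true) (s2 := true) (a := 0) (b := 2) (c := 2) (cn := .pp) (n1 := ndB0q0) (n2 := ndB5q2) (pc := pcB2) (cut := cut_pp_022) (xt := Ext.none) (P1 := 0) (W1 := 536870912) (P2 := 1073741824) (W2 := 536870912) (P3 := 780900216) (W3 := 37827925) (N0 := 3) (En := eng) (mo := mog) (C1 := cd0q0) (C2 := cd5q2) (C3 := pd2)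
    rfl k0_pp_022

noncomputable def cut_pp_023 : Cut := Cut.of [[⟨3, 0, 0, 1449551462⟩]]

noncomputable def f_pp_023 : ℕ → ℕ → ℕ → ℕ → Bool := onCell 1073741824 536870912 0 1230186008 780900216 37827925
    (rowB 3 eng mog cd0q0 cd5q3 pd2 2 false true true .up 0 2 3 (qsf 0 536870912 0 1230186008 2) ndB0q0 ndB5q3 pcB2 cut_pp_023 Ext.none)

def k0_pp_023 : ∃ t, chk3 f_pp_023 t 1 1 1 = true :=
  ⟨(b (a (l 2) (a (l 2) (b (a (l 2) (b (l 16539912) (l 16611072))) (b (a (l 16621768) (l 16625624)) (a (l 16620376) (l 16603720)))))) (a (l 6) (b (a (b (a (l 2) (b (l 16648168) (l 16645904))) (a (l 6) (b (a (l 16638160) (l 16610848)) (a (l 16599608) (l 16561568))))) (b (a (b (l 16613432) (l 16600768)) (b (l 16577568) (l 16550056))) (a (b (a (l 16582176) (l 16550984)) (l 16629984)) (b (l 16502344) (l 16414880))))) (b (a (a (l 6) (a (b (l 16544360) (l 16477024)) (b (l 16497432) (l 16413768)))) (b (a (l 16563936) (l 16300960)) (a (b (l 16341552) (l 16284880)) (b (l 16199936)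 (l 16125160))))) (a (a (l 6) (b (b (l 16378496) (l 16454648)) (b (l 16441648) (a (l 16264040) (l 16170400))))) (b (a (b (l 16222488) (l 16154880)) (b (l 16054352) (l 15986720))) (a (b (l 16093136) (l 16141664)) (b (l 15919208) (l 15858104))))))))), by decide +kernel⟩

theorem c_pp_023 : CertB 0 536870912 0 1230186008 780900216 37827925 3 eng mog cd0q0 cd5q3 pd2 false true true .up 0 2 3
    ndB0q0 ndB5q3 pcB2 cut_pp_023 Ext.none :=
  certB2 (fam := false) (s1 := true) (s2 := true) (a := 0) (b := 2) (c := 3) (cn := .up) (n1 := ndB0q0) (n2 := ndB5q3) (pc := pcB2) (cut := cut_pp_023) (xt := Ext.none) (P1 := 0) (W1 := 536870912) (P2 := 0) (W2 := 1230186008) (P3 := 780900216) (W3 := 37827925) (N0 := 3) (En := eng) (mo := mog) (C1 := cd0q0) (C2 := cd5q3) (C3 := pd2)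
    rfl (fun _ => rfl) k0_pp_023

noncomputable def cut_pp_033 : Cut := Cut.of [[⟨3, 0, 0, 1449551462⟩]]

noncomputable def f_pp_033 : ℕ → ℕ → ℕ → ℕ → Bool := onCell 1610612736 536870912 0 1230186008 780900216 37827925
    (rowB 3 eng mog cd0q0 cd5q3 pd3 2 false true true .pnn 0 3 3 (qsf 0 536870912 0 1230186008 3) ndB0q0 ndB5q3 pcB3 cut_pp_033 Ext.none)

def k0_pp_033 : ∃ t, chk3 f_pp_033 t 1 1 1 = true :=
  ⟨(b (b (a (a (a (b (l 16548856) (l 16598976)) (b (l 16483240) (l 16521352))) (a (b (l 16426840) (l 16454168)) (b (l 16366760) (l 16377648)))) (a (a (b (l 16278584) (l 16291800)) (b (l 4) (l 16231744))) (l 4))) (a (a (b (a (l 16618760) (a (l 16554688) (l 16513992))) (a (b (l 16597632) (l 16562096)) (b (l 16514336) (l 16477792)))) (a (b (l 16447456) (b (l 16417976) (l 16378656))) (b (a (l 16380256) (l 16334288)) (a (l 16318264) (l 16260120))))) (b (a (a (a (l 16287744) (l 16238896)) (a (l 16192104) (l 16147376))) (a (a (l 16102280) (l 4)) (l 4))) (a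 (a (a (l 16209864) (l 16332648)) (a (l 16119504) (b (l 16108368) (l 16055576)))) (a (a (l 16047536) (l 376915874311)) (b (l 4) (l 1))))))) (b (a (a (b (a (b (l 16508384) (l 16436968)) (b (l 16426080) (l 16352816))) (a (b (l 16350328) (l 16248832)) (b (l 16248544) (l 16118480)))) (a (b (b (l 16319040) (l 16233168)) (b (l 16134184) (l 16008560))) (b (a (l 16191136) (l 16138608)) (b (l 16024728) (l 15901944))))) (b (a (a (a (l 16064064) (b (l 16076584) (l 15994712))) (a (l 15990120) (b (l 15988000) (l 15894672)))) (a (a (b (l 15946640) (l 1)) (l 1)) (l 1))) (a (a (b (l 15917528) (l 15782448)) (b (l 15798984) (l 1))) (l 1)))) (a (a (b (b (a (l 16165784) (l 15988280)) (a (l 16000872) (l 15847984))) (a (b (l 15864560) (l 15864896)) (b (l 15694632) (l 274909401479)))) (b (a (b (l 15855480) (l 15693312)) (b (l 15724120) (l 1))) (b (a (l 15506392) (l 1)) (l 1)))) (l 1)))), by decide +kernel⟩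

theorem c_pp_033 : CertB 0 536870912 0 1230186008 780900216 37827925 3 eng mog cd0q0 cd5q3 pd3 false true true .pnn 0 3 3
    ndB0q0 ndB5q3 pcB3 cut_pp_033 Ext.none :=
  certB2 (fam := false) (s1 := true) (s2 := true) (a := 0) (b := 3) (c := 3) (cn := .pnn) (n1 := ndB0q0) (n2 := ndB5q3) (pc := pcB3) (cut := cut_pp_033) (xt := Ext.none) (P1 := 0) (W1 := 536870912) (P2 := 0) (W2 := 1230186008) (P3 := 780900216) (W3 := 37827925) (N0 := 3) (En := eng) (mo := mog) (C1 := cd0q0) (C2 := cd5q3) (C3 := pd3)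
    rfl (fun _ => rfl) k0_pp_033

noncomputable def cut_pp_101 : Cut := Cut.of [[⟨3, 0, 0, 1449551462⟩]]

noncomputable def f_pp_101 : ℕ → ℕ → ℕ → ℕ → Bool := onCell 536870912 536870912 0 536870912 780900216 37827925
    (rowB 3 eng mog cd0q1 cd5q1 pd0 1 false true true .npn 1 0 1 (qsf 536870912 536870912 536870912 536870912 0) ndB0q1 ndB5q1 pcB0 cut_pp_101 Ext.none)

def k0_pp_101 : ∃ t, chk3 f_pp_101 t 1 1 1 = true :=
  ⟨(l 6), by decide +kernel⟩

theorem c_pp_101 : CertB 536870912 536870912 536870912 536870912 780900216 37827925 3 eng mog cd0q1 cd5q1 pd0 false true true .npn 1 0 1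
    ndB0q1 ndB5q1 pcB0 cut_pp_101 Ext.none :=
  certB1 (fam := false) (s1 := true) (s2 := true) (a := 1) (b := 0) (c := 1) (cn := .npn) (n1 := ndB0q1) (n2 := ndB5q1) (pc := pcB0) (cut := cut_pp_101) (xt := Ext.none) (P1 := 536870912) (W1 := 536870912) (P2 := 536870912) (W2 := 536870912) (P3 := 780900216) (W3 := 37827925) (N0 := 3) (En := eng) (mo := mog) (C1 := cd0q1) (C2 := cd5q1) (C3 := pd0)
    rfl (fun _ => rfl) k0_pp_101

noncomputable def cut_pp_102 : Cut := Cut.of [[⟨3, 0, 0, 1449551462⟩]]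

noncomputable def f_pp_102 : ℕ → ℕ → ℕ → ℕ → Bool := onCell 536870912 536870912 1073741824 536870912 780900216 37827925
    (rowB 3 eng mog cd0q1 cd5q2 pd0 0 false true true .npp 1 0 2 (qsf 536870912 536870912 1073741824 536870912 0) ndB0q1 ndB5q2 pcB0 cut_pp_102 Ext.none)

def k0_pp_102 : ∃ t, chk3 f_pp_102 t 1 1 1 = true :=
  ⟨(l 6), by decide +kernel⟩

theorem c_pp_102 : CertB 536870912 536870912 1073741824 536870912 780900216 37827925 3 eng mog cd0q1 cd5q2 pd0 false true true .npp 1 0 2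
    ndB0q1 ndB5q2 pcB0 cut_pp_102 Ext.none :=
  certB0 (fam := false) (s1 := true) (s2 := true) (a := 1) (b := 0) (c := 2) (cn := .npp) (n1 := ndB0q1) (n2 := ndB5q2) (pc := pcB0) (cut := cut_pp_102) (xt := Ext.none) (P1 := 536870912) (W1 := 536870912) (P2 := 1073741824) (W2 := 536870912) (P3 := 780900216) (W3 := 37827925) (N0 := 3) (En := eng) (mo := mog) (C1 := cd0q1) (C2 := cd5q2) (C3 := pd0)
    rfl k0_pp_102

noncomputable def cut_pp_112 : Cut := Cut.of [[⟨3, 0, 0, 1449551462⟩]]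

noncomputable def f_pp_112 : ℕ → ℕ → ℕ → ℕ → Bool := onCell 536870912 536870912 1073741824 536870912 780900216 37827925
    (rowB 3 eng mog cd0q1 cd5q2 pd1 0 false true true .dn 1 1 2 (qsf 536870912 536870912 1073741824 536870912 1) ndB0q1 ndB5q2 pcB1 cut_pp_112 Ext.none)

def k0_pp_112 : ∃ t, chk3 f_pp_112 t 1 1 1 = true :=
  ⟨(l 6), by decide +kernel⟩

theorem c_pp_112 : CertB 536870912 536870912 1073741824 536870912 780900216 37827925 3 eng mog cd0q1 cd5q2 pd1 false true true .dn 1 1 2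
    ndB0q1 ndB5q2 pcB1 cut_pp_112 Ext.none :=
  certB0 (fam := false) (s1 := true) (s2 := true) (a := 1) (b := 1) (c := 2) (cn := .dn) (n1 := ndB0q1) (n2 := ndB5q2) (pc := pcB1) (cut := cut_pp_112) (xt := Ext.none) (P1 := 536870912) (W1 := 536870912) (P2 := 1073741824) (W2 := 536870912) (P3 := 780900216) (W3 := 37827925) (N0 := 3) (En := eng) (mo := mog) (C1 := cd0q1) (C2 := cd5q2) (C3 := pd1)
    rfl k0_pp_112

noncomputable def cut_pp_113 : Cut := Cut.of [[⟨3, 0, 0, 1449551462⟩], [⟨0, 1, 0, 67108864⟩, ⟨1, 1, 0, 67108864⟩, ⟨2, 2, 0, 16777216⟩]]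

noncomputable def f_pp_113 : ℕ → ℕ → ℕ → ℕ → Bool := onCell 536870912 536870912 0 1230186008 780900216 37827925
    (rowB 3 eng mog cd0q1 cd5q3 pd1 0 false true true .nn 1 1 3 (qsf 536870912 536870912 0 1230186008 1) ndB0q1 ndB5q3 pcB1 cut_pp_113 Ext.none)

def k0_pp_113 : ∃ t, chk3 f_pp_113 t 1 1 1 = true :=
  ⟨(b (a (l 2) (a (l 2) (b (a (l 2) (l 6)) (l 6)))) (b (a (a (l 2) (l 6)) (l 6)) (l 6))), by decide +kernel⟩

theorem c_pp_113 : CertB 536870912 536870912 0 1230186008 780900216 37827925 3 eng mog cd0q1 cd5q3 pd1 false true true .nn 1 1 3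
    ndB0q1 ndB5q3 pcB1 cut_pp_113 Ext.none :=
  certB0 (fam := false) (s1 := true) (s2 := true) (a := 1) (b := 1) (c := 3) (cn := .nn) (n1 := ndB0q1) (n2 := ndB5q3) (pc := pcB1) (cut := cut_pp_113) (xt := Ext.none) (P1 := 536870912) (W1 := 536870912) (P2 := 0) (W2 := 1230186008) (P3 := 780900216) (W3 := 37827925) (N0 := 3) (En := eng) (mo := mog) (C1 := cd0q1) (C2 := cd5q3) (C3 := pd1)
    rfl k0_pp_113

noncomputable def cut_pp_123 : Cut := Cut.of [[⟨3, 0, 0, 1449551462⟩], [⟨0, 1, 0, 67108864⟩, ⟨1, 1, 0, 67108864⟩, ⟨2, 2, 0, 16777216⟩]]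

noncomputable def f_pp_123 : ℕ → ℕ → ℕ → ℕ → Bool := onCell 1073741824 536870912 0 1230186008 780900216 37827925
    (rowB 3 eng mog cd0q1 cd5q3 pd2 2 false true true .npn 1 2 3 (qsf 536870912 536870912 0 1230186008 2) ndB0q1 ndB5q3 pcB2 cut_pp_123 Ext.none)

def k0_pp_123 : ∃ t, chk3 f_pp_123 t 1 1 1 = true :=
  ⟨(b (a (a (a (l 6) (b (a (l 6) (b (a (l 6) (l 16651504)) (l 6))) (l 6))) (b (a (b (a (a (l 16634808) (a (l 16622632) (l 16465872))) (l 16598600)) (a (l 6) (b (l 16646264) (l 6)))) (b (a (l 16584576) (l 16576896)) (a (l 16576680) (l 16629384)))) (a (l 6) (b (a (l 6) (l 16659808)) (l 6))))) (b (a (a (b (l 16504144) (a (l 16621640) (l 16617088))) (b (l 16555592) (b (l 16612512) (l 16619256)))) (a (b (l 16552376) (l 16711712)) (b (l 16539936) (l 16610968)))) (a (b (a (b (l 16611864) (l 16646232)) (l 16624600)) (a (a (l 16715304) (l 16657720)) (b (l 16636664) (l 16644024)))) (b (a (l 16621776) (l 16625456)) (a (b (l 16621616) (l 16640448)) (l 246993842951))))))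 (a (l 6) (b (a (b (a (b (l 16702680) (l 6)) (b (l 16606192) (l 16645680))) (a (l 6) (b (l 16623848) (l 1)))) (b (a (b (l 16613016) (l 1)) (l 1)) (l 1))) (l 1)))), by decide +kernel⟩

theorem c_pp_123 : CertB 536870912 536870912 0 1230186008 780900216 37827925 3 eng mog cd0q1 cd5q3 pd2 false true true .npn 1 2 3
    ndB0q1 ndB5q3 pcB2 cut_pp_123 Ext.none :=
  certB2 (fam := false) (s1 := true) (s2 := true) (a := 1) (b := 2) (c := 3) (cn := .npn) (n1 := ndB0q1) (n2 := ndB5q3) (pc := pcB2) (cut := cut_pp_123) (xt := Ext.none) (P1 := 536870912) (W1 := 536870912) (P2 := 0) (W2 := 1230186008) (P3 := 780900216) (W3 := 37827925) (N0 := 3) (En := eng) (mo := mog) (C1 := cd0q1) (C2 := cd5q3) (C3 := pd2)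
    rfl (fun _ => rfl) k0_pp_123

noncomputable def cut_pp_133 : Cut := Cut.of [[⟨3, 0, 0, 1449551462⟩]]

noncomputable def f_pp_133 : ℕ → ℕ → ℕ → ℕ → Bool := onCell 536870912 536870912 0 1230186008 780900216 37827925
    (rowB 3 eng mog cd0q1 cd5q3 pd3 0 false true true .dn 1 3 3 (qsf 536870912 536870912 0 1230186008 3) ndB0q1 ndB5q3 pcB3 cut_pp_133 Ext.none)

def k0_pp_133 : ∃ t, chk3 f_pp_133 t 1 1 1 = true :=
  ⟨(b (b (a (a (a (b (l 16613648) (l 1)) (l 1)) (l 1)) (l 1)) (l 1)) (l 1)), by decide +kernel⟩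

theorem c_pp_133 : CertB 536870912 536870912 0 1230186008 780900216 37827925 3 eng mog cd0q1 cd5q3 pd3 false true true .dn 1 3 3
    ndB0q1 ndB5q3 pcB3 cut_pp_133 Ext.none :=
  certB0 (fam := false) (s1 := true) (s2 := true) (a := 1) (b := 3) (c := 3) (cn := .dn) (n1 := ndB0q1) (n2 := ndB5q3) (pc := pcB3) (cut := cut_pp_133) (xt := Ext.none) (P1 := 536870912) (W1 := 536870912) (P2 := 0) (W2 := 1230186008) (P3 := 780900216) (W3 := 37827925) (N0 := 3) (En := eng) (mo := mog) (C1 := cd0q1) (C2 := cd5q3) (C3 := pd3)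
    rfl k0_pp_133

noncomputable def cut_pp_202 : Cut := Cut.of [[⟨3, 0, 0, 1449551462⟩]]

noncomputable def f_pp_202 : ℕ → ℕ → ℕ → ℕ → Bool := onCell 0 536870912 1073741824 536870912 780900216 37827925
    (rowB 3 eng mog cd0q2 cd5q2 pd0 0 false true true .pp 2 0 2 (qsf 0 536870912 1073741824 536870912 0) ndB0q2 ndB5q2 pcB0 cut_pp_202 Ext.none)

def k0_pp_202 : ∃ t, chk3 f_pp_202 t 1 1 1 = true :=
  ⟨(l 5), by decide +kernel⟩

theorem c_pp_202 : CertB 0 536870912 1073741824 536870912 780900216 37827925 3 eng mog cd0q2 cd5q2 pd0 false true true .pp 2 0 2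
    ndB0q2 ndB5q2 pcB0 cut_pp_202 Ext.none :=
  certB0 (fam := false) (s1 := true) (s2 := true) (a := 2) (b := 0) (c := 2) (cn := .pp) (n1 := ndB0q2) (n2 := ndB5q2) (pc := pcB0) (cut := cut_pp_202) (xt := Ext.none) (P1 := 0) (W1 := 536870912) (P2 := 1073741824) (W2 := 536870912) (P3 := 780900216) (W3 := 37827925) (N0 := 3) (En := eng) (mo := mog) (C1 := cd0q2) (C2 := cd5q2) (C3 := pd0)
    rfl k0_pp_202

noncomputable def cut_pp_203 : Cut := Cut.of [[⟨3, 0, 0, 1449551462⟩]]

noncomputable def f_pp_203 : ℕ → ℕ → ℕ → ℕ → Bool := onCell 0 536870912 0 1230186008 780900216 37827925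
    (rowB 3 eng mog cd0q2 cd5q3 pd0 0 false true true .up 2 0 3 (qsf 0 536870912 0 1230186008 0) ndB0q2 ndB5q3 pcB0 cut_pp_203 Ext.none)

def k0_pp_203 : ∃ t, chk3 f_pp_203 t 1 1 1 = true :=
  ⟨(b (l 2) (a (l 5) (l 6))), by decide +kernel⟩

theorem c_pp_203 : CertB 0 536870912 0 1230186008 780900216 37827925 3 eng mog cd0q2 cd5q3 pd0 false true true .up 2 0 3
    ndB0q2 ndB5q3 pcB0 cut_pp_203 Ext.none :=
  certB0 (fam := false) (s1 := true) (s2 := true) (a := 2) (b := 0) (c := 3) (cn := .up) (n1 := ndB0q2) (n2 := ndB5q3) (pc := pcB0) (cut := cut_pp_203) (xt := Ext.none) (P1 := 0) (W1 := 536870912) (P2 := 0) (W2 := 1230186008) (P3 := 780900216) (W3 := 37827925) (N0 := 3) (En := eng) (mo := mog) (C1 := cd0q2) (C2 := cd5q3) (C3 := pd0)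
    rfl k0_pp_203

noncomputable def cut_pp_213 : Cut := Cut.of [[⟨3, 0, 0, 1449551462⟩], [⟨0, 1, 0, 67108864⟩, ⟨1, 1, 0, 67108864⟩, ⟨2, 2, 0, 16777216⟩]]

noncomputable def f_pp_213 : ℕ → ℕ → ℕ → ℕ → Bool := onCell 0 536870912 0 1230186008 780900216 37827925
    (rowB 3 eng mog cd0q2 cd5q3 pd1 0 false true true .pnn 2 1 3 (qsf 0 536870912 0 1230186008 1) ndB0q2 ndB5q3 pcB1 cut_pp_213 Ext.none)

def k0_pp_213 : ∃ t, chk3 f_pp_213 t 1 1 1 = true :=
  ⟨(b (l 6) (a (l 5) (l 6))), by decide +kernel⟩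

theorem c_pp_213 : CertB 0 536870912 0 1230186008 780900216 37827925 3 eng mog cd0q2 cd5q3 pd1 false true true .pnn 2 1 3
    ndB0q2 ndB5q3 pcB1 cut_pp_213 Ext.none :=
  certB0 (fam := false) (s1 := true) (s2 := true) (a := 2) (b := 1) (c := 3) (cn := .pnn) (n1 := ndB0q2) (n2 := ndB5q3) (pc := pcB1) (cut := cut_pp_213) (xt := Ext.none) (P1 := 0) (W1 := 536870912) (P2 := 0) (W2 := 1230186008) (P3 := 780900216) (W3 := 37827925) (N0 := 3) (En := eng) (mo := mog) (C1 := cd0q2) (C2 := cd5q3) (C3 := pd1)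
    rfl k0_pp_213

noncomputable def cut_pm_001 : Cut := Cut.of [[⟨3, 0, 0, 1449551462⟩]]

noncomputable def f_pm_001 : ℕ → ℕ → ℕ → ℕ → Bool := onCell 0 536870912 536870912 536870912 780900216 37827925
    (rowB 3 eng mog cd0q0 cd5q1 pd0 0 false true false .up 0 0 1 (qsf 0 536870912 536870912 536870912 0) ndB0q0 ndB5q1 pcB0 cut_pm_001 Ext.none)

def k0_pm_001 : ∃ t, chk3 f_pm_001 t 1 1 1 = true :=
  ⟨(l 4), by decide +kernel⟩

theorem c_pm_001 : CertB 0 536870912 536870912 536870912 780900216 37827925 3 eng mog cd0q0 cd5q1 pd0 false true false .up 0 0 1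
    ndB0q0 ndB5q1 pcB0 cut_pm_001 Ext.none :=
  certB0 (fam := false) (s1 := true) (s2 := false) (a := 0) (b := 0) (c := 1) (cn := .up) (n1 := ndB0q0) (n2 := ndB5q1) (pc := pcB0) (cut := cut_pm_001) (xt := Ext.none) (P1 := 0) (W1 := 536870912) (P2 := 536870912) (W2 := 536870912) (P3 := 780900216) (W3 := 37827925) (N0 := 3) (En := eng) (mo := mog) (C1 := cd0q0) (C2 := cd5q1) (C3 := pd0)
    rfl k0_pm_001

noncomputable def cut_pm_011 : Cut := Cut.of [[⟨3, 0, 0, 1449551462⟩]]

noncomputable def f_pm_011 : ℕ → ℕ → ℕ → ℕ → Bool := onCell 0 536870912 536870912 536870912 780900216 37827925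
    (rowB 3 eng mog cd0q0 cd5q1 pd1 0 false true false .pnn 0 1 1 (qsf 0 536870912 536870912 536870912 1) ndB0q0 ndB5q1 pcB1 cut_pm_011 Ext.none)

def k0_pm_011 : ∃ t, chk3 f_pm_011 t 1 1 1 = true :=
  ⟨(l 4), by decide +kernel⟩

theorem c_pm_011 : CertB 0 536870912 536870912 536870912 780900216 37827925 3 eng mog cd0q0 cd5q1 pd1 false true false .pnn 0 1 1
    ndB0q0 ndB5q1 pcB1 cut_pm_011 Ext.none :=
  certB0 (fam := false) (s1 := true) (s2 := false) (a := 0) (b := 1) (c := 1) (cn := .pnn) (n1 := ndB0q0) (n2 := ndB5q1) (pc := pcB1) (cut := cut_pm_011) (xt := Ext.none) (P1 := 0) (W1 := 536870912) (P2 := 536870912) (W2 := 536870912) (P3 := 780900216) (W3 := 37827925) (N0 := 3) (En := eng) (mo := mog) (C1 := cd0q0) (C2 := cd5q1) (C3 := pd1)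
    rfl k0_pm_011

noncomputable def cut_pm_012 : Cut := Cut.of [[⟨3, 0, 0, 1449551462⟩]]

noncomputable def f_pm_012 : ℕ → ℕ → ℕ → ℕ → Bool := onCell 0 536870912 1073741824 536870912 780900216 37827925
    (rowB 3 eng mog cd0q0 cd5q2 pd1 0 false true false .pnp 0 1 2 (qsf 0 536870912 1073741824 536870912 1) ndB0q0 ndB5q2 pcB1 cut_pm_012 Ext.none)

def k0_pm_012 : ∃ t, chk3 f_pm_012 t 1 1 1 = true :=
  ⟨(l 4), by decide +kernel⟩

theorem c_pm_012 : CertB 0 536870912 1073741824 536870912 780900216 37827925 3 eng mog cd0q0 cd5q2 pd1 false true false .pnp 0 1 2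
    ndB0q0 ndB5q2 pcB1 cut_pm_012 Ext.none :=
  certB0 (fam := false) (s1 := true) (s2 := false) (a := 0) (b := 1) (c := 2) (cn := .pnp) (n1 := ndB0q0) (n2 := ndB5q2) (pc := pcB1) (cut := cut_pm_012) (xt := Ext.none) (P1 := 0) (W1 := 536870912) (P2 := 1073741824) (W2 := 536870912) (P3 := 780900216) (W3 := 37827925) (N0 := 3) (En := eng) (mo := mog) (C1 := cd0q0) (C2 := cd5q2) (C3 := pd1)
    rfl k0_pm_012

noncomputable def cut_pm_022 : Cut := Cut.of [[⟨3, 0, 0, 1449551462⟩]]

noncomputable def f_pm_022 : ℕ → ℕ → ℕ → ℕ → Bool := onCell 0 536870912 1073741824 536870912 780900216 37827925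
    (rowB 3 eng mog cd0q0 cd5q2 pd2 0 false true false .pp 0 2 2 (qsf 0 536870912 1073741824 536870912 2) ndB0q0 ndB5q2 pcB2 cut_pm_022 Ext.none)

def k0_pm_022 : ∃ t, chk3 f_pm_022 t 1 1 1 = true :=
  ⟨(l 4), by decide +kernel⟩

theorem c_pm_022 : CertB 0 536870912 1073741824 536870912 780900216 37827925 3 eng mog cd0q0 cd5q2 pd2 false true false .pp 0 2 2
    ndB0q0 ndB5q2 pcB2 cut_pm_022 Ext.none :=
  certB0 (fam := false) (s1 := true) (s2 := false) (a := 0) (b := 2) (c := 2) (cn := .pp) (n1 := ndB0q0) (n2 := ndB5q2) (pc := pcB2) (cut := cut_pm_022) (xt := Ext.none) (P1 := 0) (W1 := 536870912) (P2 := 1073741824) (W2 := 536870912) (P3 := 780900216) (W3 := 37827925) (N0 := 3) (En := eng) (mo := mog) (C1 := cd0q0) (C2 := cd5q2) (C3 := pd2)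
    rfl k0_pm_022

noncomputable def cut_pm_023 : Cut := Cut.of [[⟨3, 0, 0, 1449551462⟩]]

noncomputable def f_pm_023 : ℕ → ℕ → ℕ → ℕ → Bool := onCell 0 536870912 0 1230186008 780900216 37827925
    (rowB 3 eng mog cd0q0 cd5q3 pd2 0 false true false .up 0 2 3 (qsf 0 536870912 0 1230186008 2) ndB0q0 ndB5q3 pcB2 cut_pm_023 Ext.none)

def k0_pm_023 : ∃ t, chk3 f_pm_023 t 1 1 1 = true :=
  ⟨(a (b (l 2) (l 4)) (b (a (l 2) (b (a (l 2) (l 34057758279)) (a (l 4) (l 4)))) (l 4))), by decide +kernel⟩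

theorem c_pm_023 : CertB 0 536870912 0 1230186008 780900216 37827925 3 eng mog cd0q0 cd5q3 pd2 false true false .up 0 2 3
    ndB0q0 ndB5q3 pcB2 cut_pm_023 Ext.none :=
  certB0 (fam := false) (s1 := true) (s2 := false) (a := 0) (b := 2) (c := 3) (cn := .up) (n1 := ndB0q0) (n2 := ndB5q3) (pc := pcB2) (cut := cut_pm_023) (xt := Ext.none) (P1 := 0) (W1 := 536870912) (P2 := 0) (W2 := 1230186008) (P3 := 780900216) (W3 := 37827925) (N0 := 3) (En := eng) (mo := mog) (C1 := cd0q0) (C2 := cd5q3) (C3 := pd2)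
    rfl k0_pm_023

noncomputable def cut_pm_033 : Cut := Cut.of [[⟨3, 0, 0, 1449551462⟩]]

noncomputable def f_pm_033 : ℕ → ℕ → ℕ → ℕ → Bool := onCell 1610612736 536870912 0 1230186008 780900216 37827925
    (rowB 3 eng mog cd0q0 cd5q3 pd3 2 false true false .pnn 0 3 3 (qsf 0 536870912 0 1230186008 3) ndB0q0 ndB5q3 pcB3 cut_pm_033 Ext.none)

def k0_pm_033 : ∃ t, chk3 f_pm_033 t 1 1 1 = true :=
  ⟨(b (b (a (a (a (l 16590208) (l 16445632)) (a (l 10434108455) (l 4))) (l 4)) (l 4)) (l 4)), by decide +kernel⟩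

theorem c_pm_033 : CertB 0 536870912 0 1230186008 780900216 37827925 3 eng mog cd0q0 cd5q3 pd3 false true false .pnn 0 3 3
    ndB0q0 ndB5q3 pcB3 cut_pm_033 Ext.none :=
  certB2 (fam := false) (s1 := true) (s2 := false) (a := 0) (b := 3) (c := 3) (cn := .pnn) (n1 := ndB0q0) (n2 := ndB5q3) (pc := pcB3) (cut := cut_pm_033) (xt := Ext.none) (P1 := 0) (W1 := 536870912) (P2 := 0) (W2 := 1230186008) (P3 := 780900216) (W3 := 37827925) (N0 := 3) (En := eng) (mo := mog) (C1 := cd0q0) (C2 := cd5q3) (C3 := pd3)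
    rfl (fun _ => rfl) k0_pm_033

noncomputable def cut_pm_101 : Cut := Cut.of [[⟨3, 0, 0, 1449551462⟩]]

noncomputable def f_pm_101 : ℕ → ℕ → ℕ → ℕ → Bool := onCell 536870912 536870912 536870912 536870912 780900216 37827925
    (rowB 3 eng mog cd0q1 cd5q1 pd0 0 false true false .npn 1 0 1 (qsf 536870912 536870912 536870912 536870912 0) ndB0q1 ndB5q1 pcB0 cut_pm_101 Ext.none)

def k0_pm_101 : ∃ t, chk3 f_pm_101 t 1 1 1 = true :=
  ⟨(l 4), by decide +kernel⟩

theorem c_pm_101 : CertB 536870912 536870912 536870912 536870912 780900216 37827925 3 eng mog cd0q1 cd5q1 pd0 false true false .npn 1 0 1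
    ndB0q1 ndB5q1 pcB0 cut_pm_101 Ext.none :=
  certB0 (fam := false) (s1 := true) (s2 := false) (a := 1) (b := 0) (c := 1) (cn := .npn) (n1 := ndB0q1) (n2 := ndB5q1) (pc := pcB0) (cut := cut_pm_101) (xt := Ext.none) (P1 := 536870912) (W1 := 536870912) (P2 := 536870912) (W2 := 536870912) (P3 := 780900216) (W3 := 37827925) (N0 := 3) (En := eng) (mo := mog) (C1 := cd0q1) (C2 := cd5q1) (C3 := pd0)
    rfl k0_pm_101

noncomputable def cut_pm_102 : Cut := Cut.of [[⟨3, 0, 0, 1449551462⟩]]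

noncomputable def f_pm_102 : ℕ → ℕ → ℕ → ℕ → Bool := onCell 536870912 536870912 0 536870912 780900216 37827925
    (rowB 3 eng mog cd0q1 cd5q2 pd0 1 false true false .npp 1 0 2 (qsf 536870912 536870912 1073741824 536870912 0) ndB0q1 ndB5q2 pcB0 cut_pm_102 Ext.none)

def k0_pm_102 : ∃ t, chk3 f_pm_102 t 1 1 1 = true :=
  ⟨(a (l 4) (b (l 4) (a (l 4) (b (l 4) (b (l 4) (a (l 4) (l 16095176))))))), by decide +kernel⟩

theorem c_pm_102 : CertB 536870912 536870912 1073741824 536870912 780900216 37827925 3 eng mog cd0q1 cd5q2 pd0 false true false .npp 1 0 2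
    ndB0q1 ndB5q2 pcB0 cut_pm_102 Ext.none :=
  certB1 (fam := false) (s1 := true) (s2 := false) (a := 1) (b := 0) (c := 2) (cn := .npp) (n1 := ndB0q1) (n2 := ndB5q2) (pc := pcB0) (cut := cut_pm_102) (xt := Ext.none) (P1 := 536870912) (W1 := 536870912) (P2 := 1073741824) (W2 := 536870912) (P3 := 780900216) (W3 := 37827925) (N0 := 3) (En := eng) (mo := mog) (C1 := cd0q1) (C2 := cd5q2) (C3 := pd0)
    rfl (fun _ => rfl) k0_pm_102

noncomputable def cut_pm_112 : Cut := Cut.of [[⟨3, 0, 0, 1449551462⟩]]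

noncomputable def f_pm_112 : ℕ → ℕ → ℕ → ℕ → Bool := onCell 536870912 536870912 1073741824 536870912 780900216 37827925
    (rowB 3 eng mog cd0q1 cd5q2 pd1 0 false true false .dn 1 1 2 (qsf 536870912 536870912 1073741824 536870912 1) ndB0q1 ndB5q2 pcB1 cut_pm_112 Ext.none)

def k0_pm_112 : ∃ t, chk3 f_pm_112 t 1 1 1 = true :=
  ⟨(a (l 4) (b (l 4) (a (l 4) (b (l 4) (a (l 4) (b (l 4) (l 16159288))))))), by decide +kernel⟩

theorem c_pm_112 : CertB 536870912 536870912 1073741824 536870912 780900216 37827925 3 eng mog cd0q1 cd5q2 pd1 false true false .dn 1 1 2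
    ndB0q1 ndB5q2 pcB1 cut_pm_112 Ext.none :=
  certB0 (fam := false) (s1 := true) (s2 := false) (a := 1) (b := 1) (c := 2) (cn := .dn) (n1 := ndB0q1) (n2 := ndB5q2) (pc := pcB1) (cut := cut_pm_112) (xt := Ext.none) (P1 := 536870912) (W1 := 536870912) (P2 := 1073741824) (W2 := 536870912) (P3 := 780900216) (W3 := 37827925) (N0 := 3) (En := eng) (mo := mog) (C1 := cd0q1) (C2 := cd5q2) (C3 := pd1)
    rfl k0_pm_112

noncomputable def cut_pm_113 : Cut := Cut.of [[⟨3, 0, 0, 1449551462⟩], [⟨0, 1, 0, 67108864⟩, ⟨1, 1, 0, 67108864⟩, ⟨2, 2, 0, 16777216⟩]]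

noncomputable def f_pm_113 : ℕ → ℕ → ℕ → ℕ → Bool := onCell 536870912 536870912 0 1230186008 780900216 37827925
    (rowB 3 eng mog cd0q1 cd5q3 pd1 0 false true false .nn 1 1 3 (qsf 536870912 536870912 0 1230186008 1) ndB0q1 ndB5q3 pcB1 cut_pm_113 Ext.none)

def k0_pm_113 : ∃ t, chk3 f_pm_113 t 1 1 1 = true :=
  ⟨(b (a (l 2) (a (l 2) (b (a (l 2) (a (l 2) (b (l 6) (b (l 14) (l 16732368))))) (a (b (a (l 2) (l 501000189783)) (b (l 16295792) (l 16341200))) (b (a (l 16477976) (l 16695640)) (a (b (l 16562808) (l 16528592)) (l 16646456))))))) (b (b (a (l 2) (a (a (l 2) (b (l 16069104) (l 16028496))) (a (b (l 16325760) (l 16291616)) (b (l 16552472) (l 16522448))))) (a (l 4) (a (a (b (l 400067154391) (l 15745544)) (b (l 15995176) (l 15980360))) (a (b (l 16264656) (l 16237584)) (l 16490424))))) (a (l 4) (a (b (a (l 4) (b (l 15999984) (l 16010504))) (l 4)) (b (a (b (a (l 16160136) (l 16274152)) (l 16227856)) (b (l 16454888) (l 16431040))) (b (a (l 16219960) (l 16404288))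 (a (l 4) (l 16330080)))))))), by decide +kernel⟩

theorem c_pm_113 : CertB 536870912 536870912 0 1230186008 780900216 37827925 3 eng mog cd0q1 cd5q3 pd1 false true false .nn 1 1 3
    ndB0q1 ndB5q3 pcB1 cut_pm_113 Ext.none :=
  certB0 (fam := false) (s1 := true) (s2 := false) (a := 1) (b := 1) (c := 3) (cn := .nn) (n1 := ndB0q1) (n2 := ndB5q3) (pc := pcB1) (cut := cut_pm_113) (xt := Ext.none) (P1 := 536870912) (W1 := 536870912) (P2 := 0) (W2 := 1230186008) (P3 := 780900216) (W3 := 37827925) (N0 := 3) (En := eng) (mo := mog) (C1 := cd0q1) (C2 := cd5q3) (C3 := pd1)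
    rfl k0_pm_113

noncomputable def cut_pm_123 : Cut := Cut.of [[⟨3, 0, 0, 1449551462⟩], [⟨0, 1, 0, 67108864⟩, ⟨1, 1, 0, 67108864⟩, ⟨2, 2, 0, 16777216⟩]]

noncomputable def f_pm_123 : ℕ → ℕ → ℕ → ℕ → Bool := onCell 1073741824 536870912 0 1230186008 780900216 37827925
    (rowB 3 eng mog cd0q1 cd5q3 pd2 2 false true false .npn 1 2 3 (qsf 536870912 536870912 0 1230186008 2) ndB0q1 ndB5q3 pcB2 cut_pm_123 Ext.none)

def k0_pm_123 : ∃ t, chk3 f_pm_123 t 1 1 1 = true :=
  ⟨(b (a (a (b (a (b (a (l 6) (b (l 6) (l 16644264))) (a (b (l 14) (l 16604816)) (b (l 16603576) (l 16560944)))) (b (a (c (l 16687232) (l 16677936)) (b (l 16568432) (l 16550704))) (a (l 16537216) (l 16490976)))) (a (b (a (b (l 16555064) (l 16493560)) (b (l 16507544) (l 16441400))) (b (a (b (l 16437744) (l 16392872)) (l 16352264)) (a (l 16295496) (l 16227528)))) (b (b (l 16452720) (a (l 16383792) (l 16337864))) (b (l 16497784) (l 16345088))))) (b (a (b (a (a (l 16551728) (a (l 16543400) (l 16560792)))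 (l 16527168)) (a (l 16458976) (l 16437720))) (b (l 16532464) (a (l 16423416) (l 16421384)))) (b (a (a (b (l 16365920) (l 16294352)) (l 16314464)) (a (l 16308488) (l 16305856))) (a (a (l 16158256) (l 16144144)) (b (l 16189544) (l 16107400)))))) (a (b (b (a (l 16500760) (l 16489936)) (a (l 16425136) (l 16427616))) (a (b (l 16313048) (a (l 16173072) (l 16198320))) (b (l 16326760) (a (l 16228208) (l 16259784))))) (b (a (b (l 16494872) (l 16430392)) (b (l 16489712) (l 16430824))) (b (a (a (l 16347328) (l 16363784)) (a (l 16375984) (l 4))) (l 4))))) (b (a (a (b (a (b (b (l 16154032) (l 16077648)) (b (l 15995848) (l 15908072))) (b (l 16051040) (b (l 15926680) (l 15850288)))) (b (a (a (l 15797936) (l 15786616)) (l 15806424)) (l 4))) (b (a (a (l 15961000) (l 15974584)) (b (l 16042728) (l 4))) (l 4))) (l 4)) (l 4))), by decide +kernel⟩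

theorem c_pm_123 : CertB 536870912 536870912 0 1230186008 780900216 37827925 3 eng mog cd0q1 cd5q3 pd2 false true false .npn 1 2 3
    ndB0q1 ndB5q3 pcB2 cut_pm_123 Ext.none :=
  certB2 (fam := false) (s1 := true) (s2 := false) (a := 1) (b := 2) (c := 3) (cn := .npn) (n1 := ndB0q1) (n2 := ndB5q3) (pc := pcB2) (cut := cut_pm_123) (xt := Ext.none) (P1 := 536870912) (W1 := 536870912) (P2 := 0) (W2 := 1230186008) (P3 := 780900216) (W3 := 37827925) (N0 := 3) (En := eng) (mo := mog) (C1 := cd0q1) (C2 := cd5q3) (C3 := pd2)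
    rfl (fun _ => rfl) k0_pm_123

noncomputable def cut_pm_133 : Cut := Cut.of [[⟨3, 0, 0, 1449551462⟩]]

noncomputable def f_pm_133 : ℕ → ℕ → ℕ → ℕ → Bool := onCell 1610612736 536870912 0 1230186008 780900216 37827925
    (rowB 3 eng mog cd0q1 cd5q3 pd3 2 false true false .dn 1 3 3 (qsf 536870912 536870912 0 1230186008 3) ndB0q1 ndB5q3 pcB3 cut_pm_133 Ext.none)

def k0_pm_133 : ∃ t, chk3 f_pm_133 t 1 1 1 = true :=
  ⟨(b (b (a (a (a (l 16588736) (l 1)) (l 1)) (l 1)) (l 1)) (l 1)), by decide +kernel⟩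

theorem c_pm_133 : CertB 536870912 536870912 0 1230186008 780900216 37827925 3 eng mog cd0q1 cd5q3 pd3 false true false .dn 1 3 3
    ndB0q1 ndB5q3 pcB3 cut_pm_133 Ext.none :=
  certB2 (fam := false) (s1 := true) (s2 := false) (a := 1) (b := 3) (c := 3) (cn := .dn) (n1 := ndB0q1) (n2 := ndB5q3) (pc := pcB3) (cut := cut_pm_133) (xt := Ext.none) (P1 := 536870912) (W1 := 536870912) (P2 := 0) (W2 := 1230186008) (P3 := 780900216) (W3 := 37827925) (N0 := 3) (En := eng) (mo := mog) (C1 := cd0q1) (C2 := cd5q3) (C3 := pd3)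
    rfl (fun _ => rfl) k0_pm_133

end Pool.Agent.Strip051.G.I72727_7625.Tab.C.BB05

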