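import Pool.Agent.Strip051.G.I72727_7625.Tab

/-! # Certificates B9 (generated) -/

set_option linter.all false
set_option maxRecDepth 100000

namespace Pool.Agent.Strip051.G.I72727_7625.Tab.C.BB01

open Pool.Agent.Strip051.PB Pool.Agent.Strip051.PB.T
open Pool.Agent.Strip051.G.I72727_7625.Tab

noncomputable def cut_pp_012_a : Cut := Cut.of [[⟨0, 0, 0, 67108864⟩, ⟨1, 1, 0, 67108864⟩, ⟨2, 1, 0, 67108864⟩]]

noncomputable def f_pp_012_a : ℕ → ℕ → ℕ → ℕ → Bool := onCell 536870912 536870912 0 536870912 780900216 37827925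
    (rowB 3 eng mog cd0q0 cd1q2a pd1 2 false true true .pnp 0 1 2 (qsf 0 536870912 0 536870912 1) ndB0q0 ndB1q2a pcB1 cut_pp_012_a Ext.none)

def k0_pp_012_a : ∃ t, chk3 f_pp_012_a t 4 1 1 = true :=
  ⟨(l 3), by decide +kernel⟩

def k1_pp_012_a : ∃ t, chk3 f_pp_012_a t 10 2 1 = true :=
  ⟨(b (a (l 3) (b (b (a (l 3) (b (a (b (a (a (l 3) (a (l 3) (b (l 124184942887) (l 3)))) (b (a (b (l 82845881159) (a (l 132238004551) (l 104320717447))) (l 16767792)) (a (l 3) (a (l 126869296391) (b (l 94120168855) (l 136532970695)))))) (l 3)) (b (a (b (l 16764560) (a (b (l 16767744) (c (l 94657041303) (l 96804523847))) (l 16766288))) (l 16761632)) (a (b (a (l 135459227783) (b (l 87677717799) (c (l 122037453671) (l 125258678551)))) (l 3)) (b (a (l 16769544) (l 16764760)) (a (b (c (l 113984388807) (l 109689425511)) (l 3)) (b (l 16766872) (c (l 98415135847) (l 101099489895)))))))) (a (l 3) (a (l 3) (a (l 3) (a (l 3) (l 142438550183))))))) (l 3)) (l 3))) (l 3)), by decide +kernel⟩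

def k2_pp_012_a : ∃ t, chk3 f_pp_012_a t 22 4 1 = true :=
  ⟨(b (b (a (b (a (a (l 16770576) (l 16755720)) (l 16770128)) (a (b (a (b (a (b (l 89288329847) (l 119889972583)) (l 75329684951)) (a (l 3) (b (l 110226295623) (l 3)))) (b (l 16762712) (a (b (l 16765936) (c (l 100025747063) (l 103246972055))) (l 16764432)))) (a (l 3) (b (a (l 134385485943) (b (l 92509553367) (l 123111195575))) (l 3)))) (b (l 16767976) (a (b (a (l 76403424807) (l 16762824)) (a (b (l 112910647927) (l 3)) (b (l 16764936) (c (l 110226287111) (l 105931324535))))) (l 16766144))))) (a (a (l 16769160) (l 16764848)) (l 16758448))) (a (b (a (l 3) (b (a (l 141364804311) (b (a (b (c (l 92509550855) (l 96804517895)) (l 124721806087)) (b (l 16763320) (l 85530227655))) (a (l 3) (b (l 114521258343) (l 3))))) (l 3))) (l 3)) (b (a (b (a (b (l 16760696) (a (b (l 16766536) (c (l 110763155911) (l 106468193351))) (l 16762424))) (l 16757712)) (a (b (a (l 135459223287) (b (c (l 93046419543) (l 96267644855)) (l 124721803767)))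 (l 3)) (b (a (c (l 75866549383) (l 76940291191)) (l 16760856)) (a (b (l 113447514247) (l 3)) (b (l 16765592) (c (l 109689412135) (l 104320707703))))))) (b (l 16751160) (a (l 16765528) (l 16754592)))) (a (l 3) (b (a (b (a (b (c (l 91435804711) (l 93583288311)) (l 122037447207)) (c (l 73182192599) (l 74255934823))) (a (l 3) (b (l 111836899367) (l 3)))) (b (l 16758832) (a (b (l 16764672) (c (l 107541926599) (l 102710093015))) (l 16760576)))) (a (l 3) (b (a (l 3) (b (c (l 88214577191) (l 89288319239)) (l 120963703255))) (l 3)))))))) (l 3)), by decide +kernel⟩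

def k3_pp_012_a : ∃ t, chk3 f_pp_012_a t 23 8 1 = true :=
  ⟨(a (b (c (l 16746552) (l 16744936)) (b (c (l 16762344) (l 16761464)) (a (b (a (l 16755856) (l 16751472)) (a (b (a (c (l 69424094311) (l 69960965399)) (l 16759008)) (a (b (l 110226284647) (l 3)) (b (l 68350350551) (c (l 105931311991) (l 101099478423))))) (c (l 16762440) (l 16757024)))) (c (l 16768960) (l 16768424))))) (b (l 16731688) (a (l 16754560) (l 16745992)))), by decide +kernel⟩

def k4_pp_012_a : ∃ t, chk3 f_pp_012_a t 46 9 1 = true :=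
  ⟨(b (b (b (a (a (l 3) (b (a (b (c (l 83919607911) (l 84456479079)) (l 119353088423)) (c (b (l 16759584) (l 73719059175)) (l 65665995991))) (a (l 3) (b (c (l 112910633271) (l 109152541031)) (l 3))))) (a (a (b (l 16758080) (b (l 64055381095) (a (l 115594989655) (l 89288314087)))) (l 16762544)) (l 16764480))) (a (l 3) (a (b (a (l 126332410295) (a (b (l 101636345143) (l 3)) (b (l 68350346919) (l 113984375959)))) (l 3)) (b (a (b (l 16758648) (c (a (l 79087765751) (l 16759488)) (l 68350348375))) (l 16757160)) (a (b (c (a (l 127406146887) (l 97878247943)) (l 105931313847)) (l 3)) (a (b (l 66739733111) (l 111836891351)) (a (b (l 16759024) (l 93046408039)) (l 61371023655)))))))) (a (l 3) (b (a (l 3) (b (a (l 3) (l 123648051271)) (l 3))) (l 3)))) (l 3)), by decide +kernel⟩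

def k5_pp_012_a : ∃ t, chk3 f_pp_012_a t 47 18 1 = true :=
  ⟨(c (b (a (b (l 16747616) (a (b (l 16753920) (l 16761936)) (l 16750984))) (l 16762776)) (a (b (a (b (a (b (a (l 95730763303) (l 16759312)) (a (l 3) (l 111836888359))) (b (l 16757696) (a (l 76403409191) (l 16758552)))) (a (l 3) (b (a (l 122574306919) (b (l 77477150151) (l 111836887655))) (l 3)))) (b (l 16755144) (a (b (l 58686667703) (a (l 109152532903) (b (l 16758824) (l 84456471639)))) (l 16756848)))) (a (l 3) (b (a (l 122574307623) (b (a (b (l 75329665431) (l 108078790391)) (l 16758392)) (a (l 3) (b (l 91435793111) (l 123111176263))))) (l 3)))) (b (a (l 16752216) (l 16747904)) (a (b (a (b (l 16756776) (a (b (l 16758360) (l 81235245271)) (l 16757632))) (l 16755304)) (a (b (a (l 116668725175) (b (l 72645309799) (l 104320693127))) (l 3)) (b (l 16760016) (a (b (l 88214566759) (l 119353079031)) (b (l 16757904) (l 78550889655)))))) (a (l 16759784) (l 16752384)))))) (b (a (a (b (l 16749392) (l 16760448)) (l 16758320))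 (l 16762104)) (b (a (a (b (a (b (a (l 97341376519) (l 16759408)) (l 112910634407)) (b (l 16757728) (a (l 75329667927) (l 16758632)))) (a (l 3) (b (a (l 122037437911) (l 94657021095)) (l 3)))) (b (l 16755088) (a (b (l 16758408) (a (l 106468181191) (l 73719054151))) (l 16756888)))) (a (l 16752056) (l 16747560))) (a (a (l 3) (b (a (l 124721791543) (b (a (b (l 74255924231) (l 107005050535)) (l 16758528)) (a (l 3) (l 103246954887)))) (l 3))) (a (b (a (b (l 16756840) (a (l 72108440551) (l 16757744))) (l 16755320)) (a (b (a (l 115594985671) (b (l 71034697895) (l 102710082567))) (l 3)) (b (l 16757520) (a (b (l 87677696631) (l 118816209735)) (b (l 16758064) (l 77477148695)))))) (b (l 16751936) (l 16760120))))))), by decide +kernel⟩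

def k6_pp_012_a : ∃ t, chk3 f_pp_012_a t 47 19 1 = true :=
  ⟨(c (b (a (l 3) (b (a (b (a (l 3) (b (a (l 3) (l 113984369767)) (l 3))) (l 3)) (b (a (b (a (b (l 69424083431) (l 96267630231)) (l 16757488)) (a (l 3) (b (c (l 83382727847) (l 83382728231)) (l 115058110903)))) (b (l 16755864) (a (b (l 16757456) (l 74792792391)) (l 16756720)))) (a (l 3) (b (a (b (l 105394433879) (l 3)) (b (l 16757768) (c (l 90898920247) (l 91435791639)))) (l 120963691879))))) (l 3))) (l 3)) (b (a (l 3) (b (a (a (l 3) (a (l 3) (b (l 118816209239) (l 3)))) (b (a (b (a (b (l 16758392) (l 97878243543)) (l 16757648)) (a (l 3) (b (l 83919599415) (l 114521241735)))) (b (l 16755952) (a (b (l 16757624) (l 74255922295)) (l 16756864)))) (a (l 3) (b (a (b (l 103783823223) (l 3)) (b (l 16757960) (c (l 89825179287) (l 93046404887)))) (l 122574305031))))) (l 3))) (l 3))), by decide +kernel⟩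

def k7_pp_012_a : ∃ t, chk3 f_pp_012_a t 11 5 1 = true :=
  ⟨(l 3), by decide +kernel⟩

def k8_pp_012_a : ∃ t, chk3 f_pp_012_a t 5 3 1 = true :=
  ⟨(l 3), by decide +kernel⟩

def k9_pp_012_a : ∃ t, chk3 f_pp_012_a t 24 8 2 = true :=
  ⟨(a (b (l 16693160) (l 16734232)) (b (l 16677328) (l 16696864))), by decide +kernel⟩

def k10_pp_012_a : ∃ t, chk3 f_pp_012_a t 24 18 2 = true :=
  ⟨(a (b (l 16750008) (a (l 16757328) (l 16735656))) (b (l 16712240) (l 16743864))), by decide +kernel⟩

def k11_pp_012_a : ∃ t, chk3 f_pp_012_a t 24 19 2 = true :=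
  ⟨(a (b (a (b (a (b (l 16753320) (a (b (l 16756496) (a (b (c (l 79624630583) (l 79624630983)) (l 110226271879)) (l 64592244327))) (l 16755040))) (l 16760888)) (a (b (a (b (a (l 3) (b (l 100562594839) (l 3))) (l 3)) (b (a (b (l 16757328) (c (l 84993339687) (l 85530210775))) (l 16756592)) (a (l 117205593975) (b (l 76403404263) (l 105931303767))))) (l 3)) (b (a (c (l 51170470999) (l 51707342311)) (l 16753512)) (a (b (a (b (c (l 88214565303) (l 91435790471)) (l 120426818775)) (b (l 16756888) (c (l 78014017399) (l 80698371735)))) (a (l 3) (l 113984367703))) (b (l 16755616) (a (b (l 68350340647) (l 101636335655)) (l 16756480))))))) (b (l 16754408) (a (b (l 16750272) (l 16758320)) (l 16747352)))) (a (b (a (l 3) (b (a (l 3) (b (a (l 3) (b (c (l 82845855367) (l 84993339207)) (l 116131850695))) (l 3))) (l 3))) (l 3)) (b (a (b (a (b (a (b (l 16756456) (l 72645307799)) (l 16755720)) (a (l 110763141463) (b (l 16758080) (c (l 87677693399) (l 89288306519))))) (l 16757432)) (a (l 3) (b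 (a (b (l 78014016775) (l 111300011719)) (l 59760405287)) (a (l 3) (b (l 101636334695) (l 3)))))) (b (l 16751568) (a (b (l 16754760) (a (b (l 16756352) (l 82308983847)) (l 16755624))) (l 16753304)))) (a (l 3) (b (a (b (a (l 117205592055) (b (l 69960952295) (l 106468172759))) (l 3)) (b (a (l 16757256) (l 16754872)) (a (b (l 87140821767) (l 3)) (b (l 16755928) (l 76940273943))))) (a (l 3) (b (l 115058108423) (l 3)))))))) (b (a (l 16759088) (l 16729552)) (a (b (a (l 16759136) (l 16744328)) (a (b (a (l 16759200) (l 16751800)) (a (b (a (b (l 16757552) (l 91435788759)) (l 16755536)) (a (l 3) (b (l 80698370119) (l 114521236135)))) (c (l 46875501879) (l 48486115079)))) (l 16755216))) (b (l 16737856) (l 16753960))))), by decide +kernel⟩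

def k12_pp_012_a : ∃ t, chk3 f_pp_012_a t 24 8 3 = true :=
  ⟨(a (b (l 16690016) (l 16732176)) (b (l 16673280) (l 16693944))), by decide +kernel⟩

def k13_pp_012_a : ∃ t, chk3 f_pp_012_a t 24 9 3 = true :=
  ⟨(b (a (a (b (l 16732248) (l 16759480)) (l 16750096)) (l 16736800)) (a (b (a (b (a (b (l 16753304) (a (b (l 16756640) (a (b (c (l 79624631287) (l 79624631575)) (l 109152531991)) (l 64592245047))) (l 16755120))) (l 16750264)) (a (b (a (b (a (l 3) (b (l 98415112647) (l 3))) (l 3)) (b (a (b (l 16757528) (c (l 85530211175) (l 86067082215))) (l 16756776)) (a (l 115058112423) (b (l 76403404887) (l 103246951335))))) (l 3)) (b (a (c (l 51707342615) (l 52244213735)) (l 16753560)) (a (b (a (b (c (l 91972661799) (l 92509533015)) (l 119889949175)) (b (l 16757104) (c (l 81772113959) (l 82308985175)))) (a (l 3) (l 110763144375))) (b (l 16755776) (a (b (l 72108436759) (l 97878241431)) (l 16756688))))))) (b (l 16764472) (a (b (l 16750168) (l 16758368)) (l 16747120)))) (a (b (a (l 3)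 (b (a (l 3) (b (a (l 3) (b (c (l 86603951943) (l 87140823095)) (l 113984368727))) (l 3))) (l 3))) (l 3)) (b (a (b (a (b (a (b (l 16756672) (l 77477145767)) (l 16755912)) (a (l 106468176647) (b (l 16757992) (l 93046402439)))) (l 16757576)) (a (l 3) (b (a (b (l 82845854615) (l 109152529847)) (l 64055372167)) (a (l 3) (b (l 97878240503) (l 3)))))) (b (l 16751560) (a (b (l 16754920) (a (b (l 16756592) (l 88214563447)) (l 16755840))) (l 16753392)))) (a (l 3) (b (a (b (a (l 114521239511) (b (l 74792790135) (l 103246949239))) (l 3)) (b (l 54391695111) (a (b (l 92509530615) (l 3)) (b (l 16756176) (l 82845853543))))) (a (l 3) (b (l 116668721719) (l 3)))))))) (b (a (l 16758400) (l 16728440)) (a (b (a (l 16748512) (l 16743984)) (a (b (a (l 16754104) (l 16751832)) (a (b (a (b (l 16757824) (l 97878239447)) (l 16755768)) (a (l 3) (l 93583272855))) (c (l 50096728007) (l 50096728407)))) (l 16755168))) (l 16755880))))), by decide +kernel⟩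

def k14_pp_012_a : ∃ t, chk3 f_pp_012_a t 25 4 1 = true :=
  ⟨(a (a (b (l 16694208) (b (l 16703904) (a (l 16749160) (l 16744776)))) (b (l 16686088) (b (l 16695368) (l 16743424)))) (a (b (l 16677976) (b (l 16686752) (l 16729280))) (b (l 16648912) (b (l 16678080) (l 16699264))))), by decide +kernel⟩

def k15_pp_012_a : ∃ t, chk3 f_pp_012_a t 24 5 1 = true :=
  ⟨(b (b (a (l 3) (c (b (a (b (a (b (a (l 3) (b (a (l 109152526919) (b (l 16755848) (l 84993337223))) (l 118816204519))) (l 3)) (b (a (b (l 16754584) (a (l 81772110983) (l 16755456))) (l 16753136)) (a (b (a (l 3) (l 105394429815)) (l 3)) (b (a (l 62444758151) (l 16754720)) (a (l 114521235783) (l 71034693159)))))) (l 3)) (a (b (b (l 16749888) (c (l 16757904) (l 16758024))) (b (a (b (a (l 87677691703) (l 16756688)) (l 112373752231)) (b (l 16753784) (a (l 66202853879) (l 16754664)))) (a (l 3) (b (a (l 3) (l 84456465127)) (l 3))))) (b (l 16757464) (b (l 16756488) (a (b (l 16757080) (a (l 94120141895) (l 16755304))) (l 16758264))))))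 (a (l 3) (b (a (l 3) (b (a (l 112373753031) (b (a (l 69960949623) (l 16754616)) (l 105931299943))) (l 3))) (l 3)))) (b (a (b (a (b (a (l 3) (b (a (l 105931303655) (l 73182177175)) (l 120426817831))) (l 3)) (b (a (b (l 16754792) (a (l 83382724855) (l 16755704))) (l 16753264)) (a (b (l 102173208471) (l 3)) (b (a (l 67813467287) (l 16754944)) (a (l 111836883191) (l 76940273255)))))) (l 3)) (b (a (c (l 33990600695) (l 34527471527)) (l 16746800)) (a (b (a (b (a (l 95193884487) (l 16755640)) (l 114521236455)) (b (l 16753960) (l 59223532967))) (a (l 3) (b (l 94120143735) (l 3)))) (b (l 16756536) (a (b (l 16754680) (l 81772111991)) (l 16753168)))))) (a (l 3) (b (a (l 3) (b (a (l 118279333623) (b (l 60297274663) (l 96804497799))) (l 3))) (l 3)))))) (l 3)) (l 3)), by decide +kernel⟩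

def k16_pp_012_a : ∃ t, chk3 f_pp_012_a t 50 10 1 = true :=
  ⟨(b (c (b (a (a (a (l 16757072) (l 16754904)) (l 16762144)) (c (l 16755760) (l 16755424))) (a (b (a (b (l 16755240) (a (l 97878236119) (l 50633595591))) (l 16749728)) (a (b (l 107005044247) (l 3)) (b (a (l 58149789767) (l 16758192)) (a (l 3) (l 73719047383))))) (c (b (l 16753688) (l 29158760615)) (a (l 31306242199) (l 16754264))))) (b (a (a (l 16755736) (l 16761664)) (l 16754768)) (a (b (a (b (a (l 16759128) (l 16751616)) (a (b (l 82308982759) (l 3)) (l 49022986071))) (l 16760184)) (a (a (l 3) (l 114521227543)) (b (a (b (l 16754592) (l 83919595047)) (l 16753096)) (a (l 3) (l 76403400791))))) (a (a (a (b (l 16746840) (l 16756808)) (l 16759216)) (l 16757480)) (l 16753968))))) (a (l 3) (b (b (b (a (a (l 82845853831) (l 47412371367)) (l 16751080)) (a (a (l 3) (l 91435788471)) (a (l 56002306807) (l 16752896)))) (a (l 3) (b (a (l 3) (l 67813467639)) (l 3)))) (l 3)))), by decide +kernel⟩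

def k17_pp_012_a : ∃ t, chk3 f_pp_012_a t 51 10 1 = true :=
  ⟨(c (b (a (l 16746208) (b (l 16716760) (l 16727928))) (b (a (b (l 16756176) (a (b (l 16757552) (l 53854825975)) (l 16749216))) (l 16749872)) (a (b (a (l 3) (b (l 42580533879) (l 62981631911))) (l 3)) (b (a (l 16755648) (l 16756256)) (a (b (l 51170469575) (l 3)) (b (a (l 16751360) (l 16749024)) (l 39896177415))))))) (b (a (b (l 16724440) (b (l 16733328) (l 16760312))) (b (l 16714880) (l 16726648))) (b (a (a (b (l 16758304) (b (a (l 16758792) (l 16751200)) (a (l 79087757895) (l 16757392)))) (b (l 16742976) (b (l 16747544) (l 16761096)))) (b (l 16735632) (l 16752192))) (a (b (a (l 3) (b (a (l 54928565927) (l 16752440)) (a (l 3) (l 64055371559)))) (l 3)) (b (a (a (l 16756744) (l 16749088)) (l 16745384)) (a (b (a (l 73719047895) (l 16758800)) (l 3)) (b (l 16750024) (a (l 52781081159) (l 16751872))))))))), by decide +kernel⟩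

def k18_pp_012_a : ∃ t, chk3 f_pp_012_a t 25 11 1 = true :=
  ⟨(b (a (l 3) (b (a (l 3) (a (l 3) (a (l 3) (b (l 61371018119) (l 3))))) (l 3))) (l 3)), by decide +kernel⟩

def k19_pp_012_a : ∃ t, chk3 f_pp_012_a t 13 4 1 = true :=
  ⟨(a (a (b (b (l 16627432) (l 16645856)) (b (l 16686136) (c (l 16708512) (l 16683952)))) (b (b (l 16634344) (l 16630592)) (b (l 16648928) (l 16689656)))) (b (a (b (l 16600032) (l 16616704)) (b (l 16586728) (l 16604904))) (a (b (l 16634512) (l 16653304)) (b (l 16622024) (l 16639976))))), by decide +kernel⟩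

def k20_pp_012_a : ∃ t, chk3 f_pp_012_a t 26 5 1 = true :=
  ⟨(b (a (a (b (l 16738504) (c (b (l 16751080) (a (b (l 16741112) (c (l 16757528) (l 16757416))) (l 16760368))) (b (l 16749848) (b (l 16758960) (a (l 16757120) (l 16741696)))))) (b (l 16724072) (b (l 16741104) (b (l 16728912) (l 16755840))))) (b (c (l 16712408) (l 16708984)) (b (a (l 16710912) (l 16702008)) (a (l 16743488) (l 16713432))))) (b (a (a (b (b (b (a (l 27011272583) (l 16746584)) (a (b (l 46875498247) (l 109689381591)) (a (l 16750840) (l 16748432)))) (a (l 3) (b (a (a (l 65129109047) (l 16755776)) (l 16754088)) (l 108615639047)))) (l 3)) (b (a (a (b (l 16744504) (l 24863786727)) (l 16751064)) (b (l 16738512) (b (l 16743064) (l 16746120)))) (b (a (b (a (l 66202852071) (c (l 16757960) (l 16752560))) (l 3)) (b (a (l 16750400) (l 16747992)) (a (c (l 41506789447) (l 16758376)) (l 16753664)))) (a (l 3) (b (l 101636316663) (l 3)))))) (a (b (b (l 16752376) (a (l 16739808) (l 16735072))) (b (a (c (l 16756624) (l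 16756136)) (l 16751632)) (a (b (a (l 25937530775) (l 16749344)) (a (l 57612917303) (c (l 16757624) (l 16752176)))) (b (l 16756224) (a (l 16750032) (l 16747632)))))) (a (b (l 16727440) (b (l 16736440) (l 16747784))) (b (l 16722904) (b (l 16731832) (l 16737896)))))) (a (l 3) (b (a (b (a (l 3) (b (a (c (l 16755608) (l 16758040)) (l 16753328)) (l 96267607175))) (l 3)) (b (a (b (l 16752400) (a (l 17347596247) (l 16749072))) (b (l 16742472) (l 16750800))) (a (b (a (l 45801757767) (c (l 16757400) (l 16751936))) (l 3)) (b (a (l 16749824) (l 16747488)) (a (c (l 16755456) (l 16757880)) (l 16753200)))))) (a (l 3) (b (a (l 3) (b (a (l 3) (c (l 31306241927) (l 16755960))) (l 3))) (l 3))))))), by decide +kernel⟩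

def k21_pp_012_a : ∃ t, chk3 f_pp_012_a t 27 5 1 = true :=
  ⟨(b (a (b (l 16694496) (a (l 16720184) (l 16712112))) (b (l 16680216) (b (l 16674528) (l 16706144)))) (a (b (a (b (l 16737280) (b (l 16725128) (l 16741600))) (b (l 16707928) (c (l 16741360) (l 16739584)))) (a (b (a (b (l 16749920) (a (l 16751976) (l 16749688))) (b (l 16734952) (l 16746296))) (a (b (b (a (c (l 16756688) (l 16751208)) (l 16749080)) (a (c (l 36674951463) (l 31843115223)) (b (l 16751400) (l 16754824)))) (b (l 93046386327) (l 3))) (b (b (l 16750904) (a (l 16752520) (l 16747624))) (a (b (b (l 16754808) (l 31306241431)) (l 3)) (b (c (l 16756064) (l 16750584)) (b (l 17347596759) (l 35601209687))))))) (b (b (l 16738896) (a (l 16747104) (l 16732264))) (a (a (b (l 16749080) (b (l 16748448) (b (l 16750768) (l 16754248)))) (b (l 16752088) (b (l 16746200) (l 16751896)))) (b (l 16743536) (b (l 16748096) (c (l 16751352) (l 16745672)))))))) (b (a (b (l 16699968) (l 16732320)) (b (l 16692416) (l 16703504))) (a (b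 (b (l 16720016) (l 16736376)) (a (b (l 16744440) (b (l 16738456) (l 16746720))) (b (l 16729704) (l 16740888)))) (b (b (l 16711968) (l 16738664)) (b (a (l 16725536) (l 16721456)) (a (l 16741896) (l 16727256)))))))), by decide +kernel⟩

def k22_pp_012_a : ∃ t, chk3 f_pp_012_a t 12 6 1 = true :=
  ⟨(l 3), by decide +kernel⟩

def k23_pp_012_a : ∃ t, chk3 f_pp_012_a t 26 12 1 = true :=
  ⟨(l 3), by decide +kernel⟩

def k24_pp_012_a : ∃ t, chk3 f_pp_012_a t 54 24 1 = true :=
  ⟨(b (a (l 3) (a (a (b (b (l 85530193463) (l 3)) (l 3)) (b (b (b (l 16754208) (c (l 16755736) (l 16752992))) (l 85530195751)) (l 3))) (b (a (b (c (l 16750208) (l 16749968)) (b (c (l 16752440) (l 16752304)) (c (l 16756480) (l 16756392)))) (b (l 16753096) (b (l 16750152) (l 16754304)))) (a (l 3) (b (c (l 79087742695) (l 79087742855)) (l 3)))))) (l 3)), by decide +kernel⟩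

def k25_pp_012_a : ∃ t, chk3 f_pp_012_a t 55 24 1 = true :=
  ⟨(a (b (a (b (b (l 16748440) (a (l 16751296) (l 16746448))) (a (c (b (l 16753752) (l 19495082615)) (b (l 16754264) (l 20568824503))) (b (l 16752112) (b (l 16754408) (c (l 16754608) (l 16755856)))))) (b (b (l 16745376) (l 16747072)) (b (a (l 16749888) (l 16745064)) (a (b (l 16749544) (l 16753688)) (l 16750704))))) (b (a (b (a (l 3) (l 79087745639)) (l 3)) (a (b (b (c (l 16755240) (l 16755160)) (c (l 16755360) (l 16755984))) (l 90362036599)) (b (b (l 16750360) (l 16754496)) (a (b (l 16755224) (l 3)) (b (l 16752832) (l 16755600)))))) (l 3))) (b (b (a (c (l 16748192) (l 16747400)) (b (l 16731632) (l 16734568))) (a (b (l 16744416) (c (l 16750232) (l 16749816))) (a (l 16745304) (l 16743176)))) (a (b (b (a (l 16751520) (l 16749320)) (a (b (l 16753784) (c (l 16755312) (l 16755272))) (c (l 16752408) (l 16752232)))) (b (a (b (a (l 9831406423) (l 16754928)) (l 75329650727)) (a (b (l 16752512) (a (l 16755576) (l 16755048)))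 (a (l 16754400) (l 16753192)))) (a (l 3) (a (l 3) (b (c (l 16755664) (l 16755712)) (l 3)))))) (b (b (c (l 16748896) (l 16748440)) (a (l 16750120) (l 16747944))) (b (a (c (l 16753176) (l 16752408)) (c (l 16751024) (l 16750816))) (a (a (b (c (l 16753296) (l 16754624)) (b (l 3925825047) (l 21642566039))) (b (l 16753504) (c (l 16754976) (l 16755024)))) (b (c (l 16750584) (l 16753112)) (c (l 16753352) (l 16753336))))))))), by decide +kernel⟩

def k26_pp_012_a : ∃ t, chk3 f_pp_012_a t 27 25 1 = true :=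
  ⟨(a (l 3) (b (a (l 3) (b (c (a (l 3) (b (a (a (l 3) (a (l 3) (b (l 16756152) (l 3)))) (a (b (l 16755368) (l 16756408)) (b (l 16752984) (l 16755792)))) (l 3))) (a (l 3) (a (a (l 3) (a (l 3) (b (b (l 16755912) (l 3)) (l 3)))) (b (b (a (c (l 16755416) (l 16754808)) (l 16754320)) (a (a (l 3) (l 16756016)) (b (l 16755504) (l 16755608)))) (l 3))))) (l 3))) (l 3))), by decide +kernel⟩

def k27_pp_012_a : ∃ t, chk3 f_pp_012_a t 13 13 1 = true :=
  ⟨(l 3), by decide +kernel⟩

def k28_pp_012_a : ∃ t, chk3 f_pp_012_a t 6 7 1 = true :=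
  ⟨(l 3), by decide +kernel⟩

def k29_pp_012_a : ∃ t, chk3 f_pp_012_a t 7 2 1 = true :=
  ⟨(a (b (a (b (a (l 16604768) (l 16572168)) (a (b (l 16611104) (l 16628576)) (b (l 16600528) (l 16618632)))) (a (b (l 16560944) (l 16599328)) (b (l 16550136) (l 16588536)))) (a (b (a (b (l 16646808) (a (l 16669632) (l 16663216))) (l 16674208)) (a (a (b (b (l 16685232) (l 16696040)) (b (b (l 16704280) (l 16709864)) (b (l 16699768) (a (l 16723192) (l 16719200))))) (b (b (l 16678368) (l 16688872)) (b (l 16678640) (a (l 16696768) (l 16687688))))) (b (l 16684280) (a (b (l 16671464) (b (l 16700352) (l 16705712))) (l 16706528))))) (b (a (b (l 16627064) (l 16643984)) (b (l 16619136) (l 16636248))) (b (a (l 16662128) (l 16653136)) (a (a (l 16684296) (l 16678360)) (l 16692016)))))) (b (a (b (l 16534928) (a (l 16578016) (l 16568272))) (b (l 16517176) (a (l 16559424) (l 16551488)))) (a (a (b (b (l 16610488) (l 16630384)) (b (l 16643504) (l 16658456))) (b (b (l 16601064) (l 16614264)) (b (l 16625344)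 (l 16639744)))) (b (a (l 16595080) (l 16579896)) (a (b (a (l 16611528) (l 16602728)) (a (l 16624976) (l 16615040))) (b (l 16590744) (a (b (l 16601712) (l 16609080)) (b (l 16593592) (l 16599696))))))))), by decide +kernel⟩

def k30_pp_012_a : ∃ t, chk3 f_pp_012_a t 56 24 1 = true :=
  ⟨(a (b (b (a (b (l 16727512) (l 16730408)) (l 16724896)) (a (c (l 16745672) (l 16744824)) (b (l 16729184) (l 16732064)))) (b (a (b (a (l 16740224) (l 16738104)) (c (l 16747576) (l 16747088))) (b (l 16740192) (l 16743088))) (a (b (a (l 16748744) (l 16746592)) (a (c (l 16751784) (l 16750984)) (c (l 16747024) (l 16749416)))) (b (c (l 16746240) (l 16745728)) (a (l 16747360) (l 16745200)))))) (b (a (c (l 16734848) (l 16733496)) (c (l 16741416) (l 16729400))) (a (b (c (l 16743136) (l 16736984)) (b (l 16741736) (c (l 16744864) (l 16744328)))) (b (b (l 16726672) (l 16729480)) (b (l 16737536) (l 16740352)))))), by decide +kernel⟩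

def k31_pp_012_a : ∃ t, chk3 f_pp_012_a t 112 50 1 = true :=
  ⟨(b (a (b (a (a (b (l 16753032) (c (l 16753416) (l 16754784))) (b (l 16752096) (l 16753648))) (b (c (l 16749208) (l 16751704)) (c (l 16753336) (l 16751976)))) (a (a (b (c (l 16755560) (b (l 16755296) (l 16756048))) (l 3)) (c (b (l 16755160) (c (l 16756624) (l 16756344))) (b (b (l 16753536) (l 16755632)) (l 58686654119)))) (b (c (l 16753544) (a (l 16754112) (l 16751680))) (c (a (l 16755264) (l 16753208)) (a (b (l 16753992) (l 52781073863)) (l 16754240)))))) (b (a (b (l 16749584) (l 16749800)) (c (l 16745680) (l 16748040))) (a (a (b (l 16750584) (l 16753104)) (a (l 16751512) (l 16751288))) (b (l 16749144) (c (l 16749424) (l 16750632)))))) (a (a (l 3) (a (a (l 3) (b (b (l 7683922439) (l 3)) (l 3))) (b (c (b (b (l 16754344) (l 16755744)) (l 56002301319)) (b (b (c (l 16754416) (l 50633590039)) (l 56002300055)) (c (l 16756280) (l 3388956551)))) (l 3)))) (c (b (b (a (a (l 16754944) (l 16752552)) (l 16752240)) (a (a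 (b (l 16755424) (l 55465429895)) (b (l 16753688) (l 16754440))) (a (l 16754288) (l 16751888)))) (b (a (a (l 3) (l 56002299751)) (a (b (l 16754104) (l 52244203143)) (c (l 16753384) (l 16754720)))) (a (l 3) (a (l 16755968) (b (l 16753216) (l 52244203799)))))) (b (a (a (b (b (l 16753312) (c (l 16754080) (l 16754136))) (l 16755592)) (b (l 16753888) (b (c (l 16753736) (l 16753784)) (c (l 16754520) (l 16753272))))) (a (b (l 16751448) (b (l 16752632) (l 16753416))) (b (l 16750328) (l 16753200)))) (b (a (a (l 3) (a (l 16755968) (l 16755424))) (a (l 16754592) (b (l 16753072) (l 16752544)))) (a (l 3) (a (a (l 16756384) (l 16755856)) (l 16755024)))))))), by decide +kernel⟩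

def k32_pp_012_a : ∃ t, chk3 f_pp_012_a t 112 51 1 = true :=
  ⟨(b (a (l 3) (a (l 3) (a (l 3) (a (l 3) (b (b (c (l 16756112) (l 16756272)) (l 3)) (l 3)))))) (l 3)), by decide +kernel⟩

def k33_pp_012_a : ∃ t, chk3 f_pp_012_a t 113 50 1 = true :=
  ⟨(a (b (b (a (l 16746000) (l 16743840)) (a (c (l 16749152) (l 16748928)) (l 16746864))) (b (a (b (l 16749848) (a (l 16752096) (l 16749680))) (b (l 16749136) (l 16749344))) (b (c (a (a (l 16752304) (l 16751224)) (l 16750912)) (a (a (a (l 16752616) (l 16752048)) (l 16751200)) (l 16750816))) (a (a (l 16753848) (a (b (l 16752632) (l 16753400)) (a (l 16752600) (l 16752320)))) (a (a (l 16753216) (l 16751352)) (l 16751832)))))) (a (b (b (l 16739072) (l 16744696)) (b (c (l 16745224) (l 16747568)) (b (l 16748664) (c (l 16748928) (l 16750120))))) (b (b (l 16736944) (l 16739928)) (b (l 16745536) (b (l 16745168) (l 16747984)))))), by decide +kernel⟩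

def k34_pp_012_a : ∃ t, chk3 f_pp_012_a t 226 51 1 = true :=
  ⟨(b (c (b (a (b (c (l 16754744) (l 16755120)) (a (l 16756776) (l 16755720))) (c (l 16753984) (c (l 16754000) (l 16754016)))) (a (l 3) (c (b (l 16755872) (a (l 3) (l 16756480))) (b (a (l 16756160) (l 16755072)) (a (l 3) (l 16756480)))))) (b (a (c (c (b (l 16754840) (a (l 16756800) (l 16755808))) (b (l 16755200) (a (l 16756760) (l 16755848)))) (b (a (l 16755496) (l 16754360)) (a (c (l 16756712) (l 16756824)) (l 16755824)))) (a (a (l 16754504) (l 16753688)) (l 16753160))) (a (l 3) (c (b (a (l 16756144) (l 16755136)) (a (l 3) (l 16756392))) (b (a (l 16756224) (l 16755208)) (a (l 3) (l 16756504))))))) (l 3)), by decide +kernel⟩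

def k35_pp_012_a : ∃ t, chk3 f_pp_012_a t 227 51 1 = true :=
  ⟨(b (c (b (a (b (c (l 16750432) (l 16751712)) (a (c (l 16752448) (l 16752456)) (l 16751360))) (b (l 16748256) (a (l 16750272) (l 16749192)))) (a (a (a (l 16755296) (l 16754416)) (l 16753600)) (a (b (l 16751760) (c (l 16751928) (l 16751952))) (b (l 16750680) (l 16750856))))) (b (a (a (b (l 16750920) (c (l 16751152) (l 16751176))) (b (l 16749792) (l 16750032))) (a (b (l 16748664) (l 16750208)) (l 16749624))) (b (a (l 16753704) (a (l 16750120) (l 16750624))) (a (a (l 16755496) (l 16754440)) (l 16752736))))) (c (b (b (a (a (l 16756776) (l 16755832)) (l 16754528)) (b (a (c (l 16757240) (l 16757240)) (l 16755320)) (a (l 3) (c (l 16756024) (l 16755968))))) (b (a (l 3) (a (l 3) (l 16756416))) (l 3))) (b (a (c (b (a (l 16756656) (l 16755784)) (a (l 3) (l 16756912))) (b (a (c (l 16756584) (l 16756528)) (l 16755704)) (a (l 3) (c (l 16756840) (l 16756784))))) (a (b (l 16754856) (a (l 16756216) (l 16755784))) (b (l 16753720)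 (l 16755152)))) (b (a (l 3) (a (l 3) (a (l 16756472) (l 16756040)))) (l 3))))), by decide +kernel⟩

def k36_pp_012_a : ∃ t, chk3 f_pp_012_a t 57 24 1 = true :=
  ⟨(a (b (b (l 16695376) (c (l 16738296) (l 16715680))) (b (a (b (l 16722624) (l 16725384)) (l 16720008)) (a (b (l 16728152) (l 16736168)) (b (l 16724088) (l 16726816))))) (b (b (l 16682696) (l 16693184)) (a (c (l 16729992) (l 16728552)) (b (l 16712320) (l 16717600))))), by decide +kernel⟩

def k37_pp_012_a : ∃ t, chk3 f_pp_012_a t 114 25 1 = true :=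
  ⟨(b (a (b (b (l 16739016) (c (l 16737032) (l 16741656))) (b (a (l 16743384) (l 16738624)) (a (c (l 16743912) (l 16746200)) (l 16744216)))) (b (b (l 16734864) (l 16737776)) (b (c (l 16735792) (l 16740368)) (a (l 16742088) (l 16737368))))) (a (b (b (a (b (l 16748616) (c (l 16747584) (l 16747408))) (c (l 16747344) (l 16747048))) (a (a (b (l 16749552) (c (l 16751080) (l 16749736))) (b (l 16748456) (a (l 16750240) (l 16749688)))) (a (b (l 16747368) (l 16748872)) (b (l 16746288) (l 16747784))))) (c (c (b (a (l 16753424) (b (l 16748592) (a (l 16751896) (l 16750840)))) (a (b (l 16754984) (a (l 16756720) (l 16755824))) (b (l 16752840) (l 16754312)))) (b (a (l 16753104) (b (a (l 16750400) (l 16749320)) (a (l 16751896) (l 16750808)))) (a (b (l 16755032) (a (l 16756640) (l 16755760))) (b (l 16752848) (l 16754352))))) (b (a (a (l 16753528) (l 16752240)) (l 16750888)) (b (a (a (l 16755400) (l 16754552)) (l 16752872)) (a (a (a (l 16756728) (l 16756296)) (l 16755648)) (c (l 16754392) (l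 16754344))))))) (c (a (b (b (l 16742624) (b (l 16744816) (l 16746280))) (b (b (l 16747752) (c (l 16749256) (l 16746576))) (l 16752096))) (b (b (l 16740552) (l 16746080)) (b (a (l 16746912) (l 16745864)) (l 16749320)))) (c (b (b (l 16743888) (a (l 16747976) (l 16743200))) (b (a (b (l 16747624) (l 16746520)) (b (l 16745456) (l 16746968))) (a (l 16751424) (b (l 16745856) (l 16747376))))) (b (b (l 16743664) (a (l 16747840) (l 16743016))) (b (a (b (l 16747528) (c (l 16746472) (l 16746440))) (b (l 16745320) (l 16746864))) (a (l 16751408) (b (l 16745784) (l 16747328))))))))), by decide +kernel⟩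

def k38_pp_012_a : ∃ t, chk3 f_pp_012_a t 115 25 1 = true :=
  ⟨(b (c (b (a (l 16738000) (l 16723656)) (a (b (l 16731760) (l 16734616)) (l 16734512))) (b (a (l 16731744) (l 16722488)) (a (b (l 16730928) (l 16733904)) (l 16733584)))) (b (a (a (b (l 16740856) (c (l 16741400) (l 16740968))) (b (l 16736176) (c (l 16739360) (l 16738848)))) (a (b (l 16734152) (l 16737072)) (b (l 16732160) (l 16735056)))) (a (b (a (b (l 16740784) (a (l 16745424) (l 16744368))) (c (l 16742256) (l 16741856))) (b (a (c (l 16746496) (l 16746264)) (l 16741656)) (c (l 16746920) (a (l 16745168) (l 16745632))))) (a (b (c (l 16740232) (l 16739752)) (c (l 16740504) (l 16740136))) (b (l 16732728) (c (l 16741112) (l 16740664))))))), by decide +kernel⟩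

def k39_pp_012_a : ∃ t, chk3 f_pp_012_a t 56 26 1 = true :=
  ⟨(l 3), by decide +kernel⟩

def k40_pp_012_a : ∃ t, chk3 f_pp_012_a t 114 52 1 = true :=
  ⟨(a (b (b (b (c (a (a (l 3) (l 16756944)) (c (l 16755640) (l 16755624))) (a (a (l 3) (c (l 16756816) (l 16756720))) (a (l 16756072) (l 16755048)))) (a (l 3) (a (c (l 16757208) (c (l 16757080) (l 9831408599))) (c (l 16756320) (l 16756328))))) (l 3)) (l 3)) (b (c (b (a (a (a (l 16755072) (l 16754632)) (l 16753872)) (c (l 16752280) (l 16752272))) (b (a (a (l 16756584) (l 16755688)) (l 16754344)) (a (a (l 3) (l 16756848)) (c (l 16755536) (l 16755480))))) (b (a (a (a (l 16754960) (l 16754528)) (l 16753888)) (c (l 16752272) (l 16752280))) (b (a (a (l 16756584) (l 16755552)) (l 16754256)) (a (a (l 3) (l 41506788439)) (c (l 16755408) (l 16755344)))))) (a (l 3) (b (c (b (a (l 16757120) (l 16756224)) (c (l 1778346199) (l 16757952))) (b (b (l 16756552) (l 40969917351)) (l 38285563671))) (l 3))))), by decide +kernel⟩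

def k41_pp_012_a : ∃ t, chk3 f_pp_012_a t 115 52 1 = true :=
  ⟨(a (b (c (b (a (l 16750168) (l 16748080)) (a (c (l 16753104) (l 16753112)) (l 16751008))) (b (a (l 16750080) (b (l 16744528) (l 16746048))) (a (c (l 16753088) (l 16753064)) (l 16750952)))) (c (b (b (a (l 16755032) (l 16753056)) (a (a (l 16756488) (l 16755592)) (l 16754232))) (a (b (a (l 16757992) (l 40969917623)) (l 3)) (a (b (l 16755856) (c (l 16757408) (l 16756992))) (a (l 16756096) (l 16755312))))) (b (a (a (a (l 16755984) (l 16755544)) (l 16754888)) (c (l 16753592) (l 16753560))) (a (b (a (l 16757464) (l 16757080)) (l 3)) (b (l 16755280) (c (l 16756464) (l 42043658023))))))) (b (b (c (l 16746312) (l 16746024)) (a (c (l 16748936) (l 16748800)) (l 16746784))) (c (b (a (l 16751816) (l 16749800)) (a (a (l 16754960) (l 16753712)) (c (l 16752344) (l 16752328)))) (b (a (l 16751816) (l 16749688)) (a (c (l 16754112) (l 16754072)) (l 16752312)))))), by decide +kernel⟩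

def k42_pp_012_a : ∃ t, chk3 f_pp_012_a t 57 53 1 = true :=
  ⟨(a (l 3) (b (a (b (a (l 3) (a (l 3) (b (a (l 16757776) (a (l 16757112) (l 16757544))) (l 3)))) (l 3)) (c (b (b (a (c (l 16756312) (l 16755920)) (l 16754120)) (a (a (l 2315216967) (c (l 16757376) (l 16756648))) (l 16755640))) (a (a (l 3) (b (l 16757872) (l 3))) (a (b (c (l 16757008) (l 16756928)) (l 3)) (c (b (l 16756088) (l 16757296)) (l 16756816))))) (b (a (a (b (l 16756248) (l 16757400)) (l 16755944)) (c (l 16754640) (l 16754592))) (b (a (c (l 16758168) (l 16758056)) (a (l 16756792) (l 16755912))) (a (l 3) (c (l 16757888) (l 16757464))))))) (l 3))), by decide +kernel⟩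

def k43_pp_012_a : ∃ t, chk3 f_pp_012_a t 28 27 1 = true :=
  ⟨(l 3), by decide +kernel⟩

def k44_pp_012_a : ∃ t, chk3 f_pp_012_a t 29 12 1 = true :=
  ⟨(a (b (a (b (l 16699256) (b (l 16696416) (a (l 16713880) (l 16710296)))) (b (l 16692816) (l 16713216))) (a (b (b (a (b (l 16717872) (l 16720688)) (l 16705136)) (a (b (l 16723520) (l 16726360)) (l 16710728))) (b (a (b (l 16721360) (a (l 16733072) (l 16731128))) (b (l 16714952) (l 16723024))) (a (b (a (l 16735968) (l 16734008)) (a (l 16734944) (l 16731648))) (l 16735176)))) (a (b (l 16725368) (b (b (l 16711296) (l 16714088)) (l 16728800))) (b (l 16711520) (b (l 16719704) (l 16725240)))))) (a (b (b (l 16687264) (l 16696864)) (b (l 16717480) (c (l 16728840) (l 16722336)))) (b (l 16687472) (b (l 16701888) (l 16721448))))), by decide +kernel⟩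

def k45_pp_012_a : ∃ t, chk3 f_pp_012_a t 58 26 1 = true :=
  ⟨(a (b (b (a (a (a (l 16744432) (l 16742760)) (a (l 16741760) (l 16740760))) (c (l 16741176) (l 16738016))) (a (c (b (a (l 16747760) (l 16745760)) (a (l 16750488) (l 16748624))) (b (a (l 16747576) (l 16745488)) (a (l 16750528) (l 16748480)))) (c (b (l 16742808) (l 16745656)) (b (l 16742424) (l 16745384))))) (a (b (c (b (a (c (l 16752880) (l 16752856)) (l 16751008)) (a (b (l 16754672) (a (l 16756992) (l 16755416))) (c (l 16753432) (l 16753400)))) (b (a (l 16752832) (l 16751024)) (a (c (l 16755184) (l 16755128)) (l 16753360)))) (c (b (a (a (b (l 16757536) (l 3)) (b (l 16757280) (l 16757832))) (a (b (l 16755696) (l 16756920)) (b (l 16754768) (l 16755992)))) (a (l 3) (b (a (l 16758120) (l 16757216)) (l 16758376)))) (a (b (a (l 12515764247) (a (l 16757272) (l 16756832))) (l 3)) (b (l 16755712) (l 34527466743))))) (b (c (b (a (l 16749128) (l 16747240)) (a (l 16751544) (l 16749656))) (a (b (l 16749208) (l 16751544))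 (b (l 16747328) (l 16749712)))) (c (b (a (l 16754224) (l 16752096)) (a (a (b (l 16756288) (l 16757512)) (a (l 16756200) (l 16755736))) (l 16754560))) (a (b (l 16753904) (a (l 16756736) (l 16755840))) (b (l 16752080) (l 16754472))))))) (b (b (a (c (l 16734792) (l 16734112)) (l 16730824)) (a (a (l 16741136) (l 16739216)) (c (l 16736728) (l 16736120)))) (a (b (c (a (l 16746536) (l 16744616)) (a (l 16746688) (l 16744776))) (c (a (b (l 16750192) (l 16752664)) (b (l 16748280) (l 16750752))) (a (b (l 16750232) (l 16752632)) (l 16749576)))) (b (c (b (l 16740480) (l 16742904)) (l 16741872)) (c (b (l 16745360) (l 16747840)) (a (l 16747688) (l 16745760))))))), by decide +kernel⟩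

def k46_pp_012_a : ∃ t, chk3 f_pp_012_a t 58 27 1 = true :=
  ⟨(b (a (b (a (l 3) (c (b (a (b (c (l 16758312) (l 16758216)) (l 3)) (c (b (l 16756456) (l 16757704)) (b (l 16756392) (l 16757616)))) (c (l 26474405431) (l 27548147191))) (a (a (l 3) (l 30232500071)) (b (a (l 16757336) (l 16756432)) (l 16759272))))) (l 3)) (b (b (a (a (c (b (l 16754536) (l 16755784)) (c (l 16752464) (l 16755032))) (l 16753232)) (a (l 16751328) (l 16749384))) (c (a (a (a (l 16757800) (l 16757208)) (c (l 16756472) (l 16755760))) (c (l 16752896) (l 16752880))) (a (a (l 23790047127) (l 16753056)) (l 16752856)))) (b (a (a (l 23253181399) (b (a (l 16758072) (l 16757152)) (l 16758192))) (a (a (l 16756848) (l 16755888)) (c (l 16754472) (l 16754400)))) (a (l 3) (c (a (l 31306242839) (l 16757072)) (l 16757864)))))) (a (l 3) (b (a (l 3) (b (a (l 3) (l 16756912)) (l 3))) (l 3)))), by decide +kernel⟩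

def k47_pp_012_a : ∃ t, chk3 f_pp_012_a t 59 13 1 = true :=
  ⟨(b (b (a (b (a (l 16727472) (l 16724240)) (a (l 16733008) (l 16728872))) (c (l 16727592) (l 16725576))) (a (b (a (c (l 16737648) (l 16737984)) (l 16733616)) (a (c (l 16743216) (l 16742768)) (c (l 16738360) (l 16738624)))) (a (b (l 16729288) (l 16734152)) (a (l 16730992) (l 16731320))))) (a (b (c (c (a (b (l 16747904) (c (l 16752624) (l 16752760))) (b (b (l 16736856) (a (l 16745728) (l 16743592))) (b (l 16749880) (l 16752512)))) (a (b (l 16747608) (l 16752416)) (b (b (l 16736920) (l 16739464)) (a (l 16744392) (l 16747512))))) (a (a (b (l 16748680) (l 16753712)) (b (l 16746664) (l 16751704))) (b (l 16743552) (l 16748608)))) (b (a (b (a (a (l 16758128) (l 16757144)) (l 16755624)) (a (l 16761168) (l 16755640))) (a (b (l 16753560) (l 16756224)) (b (l 16751448) (l 16754136)))) (a (a (l 3) (l 137606684887)) (b (a (l 16758896) (l 16756872)) (a (l 82308996839) (l 16762248)))))) (b (b (b (a (c (l 16737784) (l 16738000))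 (l 16728168)) (a (c (l 16740336) (l 16735248)) (l 16729408))) (b (a (c (l 16742928) (l 16743040)) (a (l 16739664) (l 16737448))) (a (c (l 16745568) (l 16745624)) (a (l 16742312) (l 16740128))))) (a (a (b (c (l 16750704) (l 16750672)) (c (l 16756280) (l 16756160))) (b (c (l 16748544) (l 16748544)) (l 16748912))) (b (a (c (l 16746400) (l 16746424)) (l 16744264)) (a (l 16746840) (l 16750000))))))), by decide +kernel⟩

def k48_pp_012_a : ∃ t, chk3 f_pp_012_a t 14 7 1 = true :=
  ⟨(b (a (l 3) (b (a (l 3) (b (a (l 3) (b (a (b (a (l 71034704967) (l 16758536)) (c (l 184314454903) (l 186461938199))) (b (l 16750256) (a (l 39896194311) (l 16757552)))) (a (l 3) (b (a (b (l 126332411063) (l 3)) (b (l 16759896) (c (l 69424093303) (l 76403414823)))) (a (l 3) (b (c (l 184851332263) (l 187535691879)) (l 3))))))) (l 3))) (l 3))) (l 3)), by decide +kernel⟩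

def k49_pp_012_a : ∃ t, chk3 f_pp_012_a t 15 6 1 = true :=
  ⟨(a (b (a (b (b (l 16670848) (l 16679800)) (b (l 16709592) (a (l 16701848) (l 16692312)))) (b (l 16677008) (b (l 16669280) (l 16693776)))) (a (b (a (b (l 16721272) (a (l 16727880) (b (l 16715544) (l 16720488)))) (a (b (l 16682736) (a (l 16714520) (l 16712216))) (b (l 16698936) (l 16708776)))) (a (b (a (b (c (l 16730072) (l 16730304)) (c (l 16735424) (l 16735576))) (b (l 16725664) (l 16736328))) (a (b (c (l 16741016) (l 16741104)) (c (l 16736376) (l 16746896))) (b (a (l 16737824) (l 16735680)) (l 16732192)))) (a (b (b (l 16721184) (l 16726696)) (b (l 16732464) (l 16738480))) (b (b (l 16716720) (l 16722328)) (a (l 16721792) (l 16719672)))))) (b (a (b (l 16670912) (a (l 16704224) (l 16699728))) (b (l 16682744) (l 16693128))) (b (a (a (l 16704632) (l 16710784)) (b (l 16701496) (l 16707376))) (a (a (l 16711264) (l 16701840)) (a (l 16697728) (l 16714648))))))) (b (a (b (a (l 16641488) (l 16631800)) (b (l 16618896) (a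 (l 16664056) (l 16655136)))) (b (a (l 16622384) (l 16592048)) (b (l 16632216) (l 16620968)))) (a (b (a (b (l 16673896) (l 16684568)) (b (l 16665248) (l 16676192))) (b (a (l 16696136) (l 16688016)) (a (l 16687688) (l 16679816)))) (b (a (b (l 16656704) (l 16667888)) (b (l 16648136) (l 16659544))) (b (a (l 16679944) (l 16671816)) (a (l 16671976) (b (l 16681552) (l 16688296)))))))), by decide +kernel⟩

def k50_pp_012_a : ∃ t, chk3 f_pp_012_a t 30 28 1 = true :=
  ⟨(a (b (a (b (a (b (l 16751408) (l 16749280)) (l 16738392)) (a (b (a (b (l 16757904) (l 16759512)) (l 16756712)) (b (a (c (l 16763776) (l 16763728)) (l 16759152)) (a (a (b (l 86067092551) (l 196662498663)) (a (a (l 113447508551) (l 16763712)) (l 16764656))) (c (l 16763432) (l 16763432))))) (b (l 16748456) (l 16762256)))) (a (a (l 16754296) (l 16752264)) (l 16749224))) (a (b (a (b (a (a (l 3) (a (l 3) (b (b (a (l 142438537959) (l 122037443015)) (l 3)) (l 3)))) (c (a (b (b (l 16763864) (a (l 97341381367) (l 16762992)))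 (l 136532956007)) (b (l 16764536) (b (l 16764128) (l 86603963815)))) (b (a (b (l 16763848) (a (l 105394444807) (l 16762976))) (b (l 16761576) (l 16762256))) (a (l 141364795399) (b (l 16762792) (l 92509543671)))))) (a (l 3) (a (l 3) (a (l 3) (l 144049145559))))) (a (a (b (c (b (l 16760920) (l 16762120)) (l 16762672)) (b (b (l 38285581319) (l 94657028295)) (l 146733505095))) (b (l 16761856) (b (l 16762264) (a (l 73719062775) (l 16764448))))) (b (l 16764312) (a (a (l 16763416) (l 16761624)) (l 16758272))))) (a (l 3) (a (l 3) (b (b (a (l 91435803911) (l 16762616)) (l 133848597783)) (l 3))))) (b (a (c (l 16761504) (l 16761272)) (l 16758592)) (a (a (b (c (l 16764408) (l 16765008)) (c (a (l 134922345591) (l 51170487031)) (l 127943017335))) (b (l 16754592) (c (l 16764864) (l 16764784)))) (l 16762064))))) (b (a (b (l 16724048) (l 16741304)) (l 16740432)) (a (b (l 16752688) (a (l 16754256) (l 16750400))) (b (l 16739688) (l 16744696))))), by decide +kernel⟩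

def k51_pp_012_a : ∃ t, chk3 f_pp_012_a t 30 29 1 = true :=
  ⟨(a (b (a (l 3) (b (a (a (l 3) (b (l 134922338935) (l 3))) (b (a (c (l 16768008) (l 16767896)) (l 16760832)) (a (c (l 98415131095) (l 135459217271)) (c (l 16768584) (l 16768456))))) (a (l 3) (b (a (l 3) (l 82845874455)) (l 3))))) (l 3)) (a (b (a (b (l 16761840) (a (b (l 93583277655) (c (l 99488868935) (l 105394448551))) (b (l 16762080) (a (l 16767624) (l 16766784))))) (b (l 16755416) (a (b (l 16760200) (l 16768032)) (b (l 16758328) (l 16760936))))) (b (a (b (a (l 3) (l 105931321015)) (l 3)) (b (a (b (l 45801773047) (c (l 16768608) (l 16765816))) (c (l 16763616) (l 16763528))) (a (l 3) (a (b (l 16765928) (l 3)) (b (l 16765104) (l 16768952)))))) (l 3))) (b (b (l 16753736) (a (l 16759480) (l 16753200))) (a (b (a (b (l 16761736) (c (b (l 16763784) (l 16767752)) (l 13052654087))) (b (l 16759920) (l 16765216))) (a (a (b (b (l 11978915047) (l 3)) (l 3)) (b (b (l 16768584) (c (l 16767232) (l 16767080))) (l 3))) (a (b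 (a (c (l 21105719079) (l 16768512)) (l 17347623351)) (a (l 3) (b (l 16768704) (l 3)))) (b (l 16767448) (a (b (l 17347624567) (l 3)) (b (l 16769232) (l 16769112))))))) (c (b (l 16761088) (b (a (l 16766088) (l 16761600)) (a (a (b (l 16765976) (a (l 18958237607) (l 16769712))) (l 16768352)) (l 16766944)))) (b (l 16761184) (b (a (l 16766072) (l 16761648)) (a (b (l 16765448) (a (c (l 16768512) (l 16769768)) (l 16766328))) (b (l 16763640) (l 16764976)))))))))), by decide +kernel⟩

def k52_pp_012_a : ∃ t, chk3 f_pp_012_a t 30 15 1 = true :=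
  ⟨(b (a (l 3) (b (a (l 3) (b (a (l 3) (a (b (b (b (a (l 16769408) (a (l 16768888) (l 16767152))) (c (a (l 3) (l 15737012759)) (l 46875521063))) (l 3)) (l 3)) (a (b (b (c (l 16769456) (l 16766760)) (a (b (l 18421367095) (l 3)) (b (l 16767576) (l 15200141959)))) (l 3)) (b (b (l 16765872) (c (l 29158785111) (l 16769808))) (b (b (a (l 13052658551) (l 16769312)) (a (l 3) (l 9831433479))) (l 3)))))) (l 3))) (l 3))) (l 3)), by decide +kernel⟩

def k53_pp_012_a : ∃ t, chk3 f_pp_012_a t 31 7 1 = true :=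
  ⟨(b (a (b (a (b (l 16722200) (b (l 16732112) (l 16737240))) (b (l 16714568) (b (l 16724600) (l 16729744)))) (a (b (a (l 16749520) (l 16743184)) (b (a (l 16754848) (l 16751128)) (a (c (l 16764080) (l 16764184)) (l 16761712)))) (b (b (l 16734960) (l 16740192)) (a (b (l 16747368) (l 16752688)) (b (l 16743552) (l 6)))))) (b (a (b (l 16717320) (b (l 16716920) (l 16722056))) (b (b (l 16674312) (l 16702440)) (b (l 16703648) (l 16714016)))) (a (b (b (l 16727232) (l 16729824)) (a (b (l 16739672) (l 6)) (l 6))) (b (a (l 16723824) (l 6)) (l 6))))) (a (b (b (a (b (a (a (a (a (b (l 16768480) (b (c (l 29158785767) (l 16769152)) (c (c (l 8757692583) (l 16770392)) (l 16770312)))) (b (l 16768016) (b (l 16770048) (b (a (l 16769840) (l 16768320)) (l 7147079383))))) (a (b (l 16764928) (b (l 16766960) (c (c (l 27011302759) (l 25400689927)) (l 18958239111)))) (b (l 16764464) (c (l 16769160) (l 16768456))))) (b (c (l 16768520) (l 16760712)) (b (c (l 16765328) (l 16765336)) (c (l 16769320) (l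 16767984))))) (a (a (l 16765872) (l 16762312)) (l 16763520))) (a (a (a (l 3) (b (b (b (a (l 3925854311) (a (l 19495110247) (l 16770048))) (c (l 16273885943) (l 16769488))) (l 3)) (l 3))) (a (b (a (b (b (l 16768400) (a (l 17347626839) (l 6))) (l 3)) (b (c (l 16769616) (l 16768240)) (l 6))) (l 3)) (l 6))) (l 6))) (l 6)) (l 6)) (l 6)) (l 6))), by decide +kernel⟩

theorem s54_pp_012_a : ∃ t, chk3 f_pp_012_a t 30 14 1 = true := ex3_b k50_pp_012_a k51_pp_012_a

theorem s55_pp_012_a : ∃ t, chk3 f_pp_012_a t 30 7 1 = true := ex3_b s54_pp_012_a k52_pp_012_a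

theorem s56_pp_012_a : ∃ t, chk3 f_pp_012_a t 15 7 1 = true := ex3_a s55_pp_012_a k53_pp_012_a

theorem s57_pp_012_a : ∃ t, chk3 f_pp_012_a t 15 3 1 = true := ex3_b k49_pp_012_a s56_pp_012_a

theorem s58_pp_012_a : ∃ t, chk3 f_pp_012_a t 58 13 1 = true := ex3_b k45_pp_012_a k46_pp_012_a

theorem s59_pp_012_a : ∃ t, chk3 f_pp_012_a t 29 13 1 = true := ex3_a s58_pp_012_a k47_pp_012_a

theorem s60_pp_012_a : ∃ t, chk3 f_pp_012_a t 29 6 1 = true := ex3_b k44_pp_012_a s59_pp_012_a

theorem s61_pp_012_a : ∃ t, chk3 f_pp_012_a t 57 52 1 = true := ex3_a k40_pp_012_a k41_pp_012_a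

theorem s62_pp_012_a : ∃ t, chk3 f_pp_012_a t 57 26 1 = true := ex3_b s61_pp_012_a k42_pp_012_a

theorem s63_pp_012_a : ∃ t, chk3 f_pp_012_a t 28 26 1 = true := ex3_a k39_pp_012_a s62_pp_012_a

theorem s64_pp_012_a : ∃ t, chk3 f_pp_012_a t 28 13 1 = true := ex3_b s63_pp_012_a k43_pp_012_a

theorem s65_pp_012_a : ∃ t, chk3 f_pp_012_a t 57 25 1 = true := ex3_a k37_pp_012_a k38_pp_012_a

theorem s66_pp_012_a : ∃ t, chk3 f_pp_012_a t 57 12 1 = true := ex3_b k36_pp_012_a s65_pp_012_a

theorem s67_pp_012_a : ∃ t, chk3 f_pp_012_a t 113 51 1 = true := ex3_a k34_pp_012_a k35_pp_012_a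

theorem s68_pp_012_a : ∃ t, chk3 f_pp_012_a t 113 25 1 = true := ex3_b k33_pp_012_a s67_pp_012_a

theorem s69_pp_012_a : ∃ t, chk3 f_pp_012_a t 112 25 1 = true := ex3_b k31_pp_012_a k32_pp_012_a

theorem s70_pp_012_a : ∃ t, chk3 f_pp_012_a t 56 25 1 = true := ex3_a s69_pp_012_a s68_pp_012_a

theorem s71_pp_012_a : ∃ t, chk3 f_pp_012_a t 56 12 1 = true := ex3_b k30_pp_012_a s70_pp_012_a

theorem s72_pp_012_a : ∃ t, chk3 f_pp_012_a t 28 12 1 = true := ex3_a s71_pp_012_a s66_pp_012_a

theorem s73_pp_012_a : ∃ t, chk3 f_pp_012_a t 28 6 1 = true := ex3_b s72_pp_012_a s64_pp_012_a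

theorem s74_pp_012_a : ∃ t, chk3 f_pp_012_a t 14 6 1 = true := ex3_a s73_pp_012_a s60_pp_012_a

theorem s75_pp_012_a : ∃ t, chk3 f_pp_012_a t 14 3 1 = true := ex3_b s74_pp_012_a k48_pp_012_a

theorem s76_pp_012_a : ∃ t, chk3 f_pp_012_a t 7 3 1 = true := ex3_a s75_pp_012_a s57_pp_012_a

theorem s77_pp_012_a : ∃ t, chk3 f_pp_012_a t 7 1 1 = true := ex3_b k29_pp_012_a s76_pp_012_a

theorem s78_pp_012_a : ∃ t, chk3 f_pp_012_a t 27 24 1 = true := ex3_a k24_pp_012_a k25_pp_012_a

theorem s79_pp_012_a : ∃ t, chk3 f_pp_012_a t 27 12 1 = true := ex3_b s78_pp_012_a k26_pp_012_a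

theorem s80_pp_012_a : ∃ t, chk3 f_pp_012_a t 13 12 1 = true := ex3_a k23_pp_012_a s79_pp_012_a

theorem s81_pp_012_a : ∃ t, chk3 f_pp_012_a t 13 6 1 = true := ex3_b s80_pp_012_a k27_pp_012_a

theorem s82_pp_012_a : ∃ t, chk3 f_pp_012_a t 6 6 1 = true := ex3_a k22_pp_012_a s81_pp_012_a

theorem s83_pp_012_a : ∃ t, chk3 f_pp_012_a t 6 3 1 = true := ex3_b s82_pp_012_a k28_pp_012_a

theorem s84_pp_012_a : ∃ t, chk3 f_pp_012_a t 13 5 1 = true := ex3_a k20_pp_012_a k21_pp_012_a

theorem s85_pp_012_a : ∃ t, chk3 f_pp_012_a t 13 2 1 = true := ex3_b k19_pp_012_a s84_pp_012_a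

theorem s86_pp_012_a : ∃ t, chk3 f_pp_012_a t 25 10 1 = true := ex3_a k16_pp_012_a k17_pp_012_a

theorem s87_pp_012_a : ∃ t, chk3 f_pp_012_a t 25 5 1 = true := ex3_b s86_pp_012_a k18_pp_012_a

theorem s88_pp_012_a : ∃ t, chk3 f_pp_012_a t 12 5 1 = true := ex3_a k15_pp_012_a s87_pp_012_a

theorem s89_pp_012_a : ∃ t, chk3 f_pp_012_a t 24 4 3 = true := ex3_b k12_pp_012_a k13_pp_012_a

theorem s90_pp_012_a : ∃ t, chk3 f_pp_012_a t 24 9 2 = true := ex3_b k10_pp_012_a k11_pp_012_a

theorem s91_pp_012_a : ∃ t, chk3 f_pp_012_a t 24 4 2 = true := ex3_b k9_pp_012_a s90_pp_012_a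

theorem s92_pp_012_a : ∃ t, chk3 f_pp_012_a t 24 4 1 = true := ex3_c s91_pp_012_a s89_pp_012_a

theorem s93_pp_012_a : ∃ t, chk3 f_pp_012_a t 12 4 1 = true := ex3_a s92_pp_012_a k14_pp_012_a

theorem s94_pp_012_a : ∃ t, chk3 f_pp_012_a t 12 2 1 = true := ex3_b s93_pp_012_a s88_pp_012_a

theorem s95_pp_012_a : ∃ t, chk3 f_pp_012_a t 6 2 1 = true := ex3_a s94_pp_012_a s85_pp_012_a

theorem s96_pp_012_a : ∃ t, chk3 f_pp_012_a t 6 1 1 = true := ex3_b s95_pp_012_a s83_pp_012_a

theorem s97_pp_012_a : ∃ t, chk3 f_pp_012_a t 3 1 1 = true := ex3_a s96_pp_012_a s77_pp_012_a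

theorem s98_pp_012_a : ∃ t, chk3 f_pp_012_a t 47 9 1 = true := ex3_b k5_pp_012_a k6_pp_012_a

theorem s99_pp_012_a : ∃ t, chk3 f_pp_012_a t 23 9 1 = true := ex3_a k4_pp_012_a s98_pp_012_a

theorem s100_pp_012_a : ∃ t, chk3 f_pp_012_a t 23 4 1 = true := ex3_b k3_pp_012_a s99_pp_012_a

theorem s101_pp_012_a : ∃ t, chk3 f_pp_012_a t 11 4 1 = true := ex3_a k2_pp_012_a s100_pp_012_a

theorem s102_pp_012_a : ∃ t, chk3 f_pp_012_a t 11 2 1 = true := ex3_b s101_pp_012_a k7_pp_012_a

theorem s103_pp_012_a : ∃ t, chk3 f_pp_012_a t 5 2 1 = true := ex3_a k1_pp_012_a s102_pp_012_a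

theorem s104_pp_012_a : ∃ t, chk3 f_pp_012_a t 5 1 1 = true := ex3_b s103_pp_012_a k8_pp_012_a

theorem s105_pp_012_a : ∃ t, chk3 f_pp_012_a t 2 1 1 = true := ex3_a k0_pp_012_a s104_pp_012_a

theorem s106_pp_012_a : ∃ t, chk3 f_pp_012_a t 1 1 1 = true := ex3_a s105_pp_012_a s97_pp_012_a

theorem c_pp_012_a : CertB 0 536870912 0 536870912 780900216 37827925 3 eng mog cd0q0 cd1q2a pd1 false true true .pnp 0 1 2
    ndB0q0 ndB1q2a pcB1 cut_pp_012_a Ext.none :=
  certB2 (fam := false) (s1 := true) (s2 := true) (a := 0) (b := 1) (c := 2) (cn := .pnp) (n1 := ndB0q0) (n2 := ndB1q2a) (pc := pcB1) (cut := cut_pp_012_a) (xt := Ext.none) (P1 := 0) (W1 := 536870912) (P2 := 0) (W2 := 536870912) (P3 := 780900216) (W3 := 37827925) (N0 := 3) (En := eng) (mo := mog) (C1 := cd0q0) (C2 := cd1q2a) (C3 := pd1)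
    rfl (fun _ => rfl) s106_pp_012_a

noncomputable def cut_pp_012_b : Cut := Cut.of [[⟨0, 0, 0, 67108864⟩, ⟨1, 1, 0, 67108864⟩, ⟨2, 1, 0, 67108864⟩]]

noncomputable def f_pp_012_b : ℕ → ℕ → ℕ → ℕ → Bool := onCell 536870912 536870912 1239849684 370763052 780900216 37827925
    (rowB 3 eng mog cd0q0 cd1q2b pd1 2 false true true .pnp 0 1 2 (qsf 0 536870912 1239849684 370763052 1) ndB0q0 ndB1q2b pcB1 cut_pp_012_b Ext.none)

def k0_pp_012_b : ∃ t, chk3 f_pp_012_b t 2 1 1 = true :=
  ⟨(b (a (l 2) (a (b (a (l 3) (b (a (l 3) (b (a (b (a (a (l 3) (a (l 3) (b (b (c (l 109689424279) (l 111300036263)) (l 3)) (l 3)))) (b (a (b (l 16767504) (l 16765320)) (l 16764328)) (a (l 123648055607) (l 16760152)))) (b (l 128479893223) (l 3))) (b (b (c (l 16769696) (l 16769048)) (l 16775696)) (b (l 16771624) (l 16756984)))) (a (l 3) (b (a (l 16741680) (l 16738520)) (l 216459566743))))) (l 2))) (l 2)) (b (b (a (b (a (b (a (b (l 16771104) (l 16745784)) (l 16760032)) (a (l 16739512) (l 16730200))) (b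 (a (l 16751272) (l 16721656)) (l 16747848))) (a (b (a (l 16731696) (l 16721968)) (a (l 16724288) (l 16714408))) (b (l 16728448) (l 16699256)))) (b (a (b (a (l 16713152) (l 16704768)) (l 16719592)) (c (l 16730312) (l 16727024))) (c (a (l 16727936) (l 16667744)) (a (l 16703552) (l 16663544))))) (b (a (a (a (l 2) (l 16704240)) (l 16740904)) (a (l 16688304) (l 16646976))) (a (l 2) (a (l 16653520) (l 16631256))))) (a (l 2) (b (b (a (l 2) (l 16618576)) (l 2)) (l 2)))))) (l 2)), by decide +kernel⟩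

def k1_pp_012_b : ∃ t, chk3 f_pp_012_b t 6 1 1 = true :=
  ⟨(b (a (b (a (b (b (c (a (l 16692904) (l 16655720)) (a (l 16688752) (l 16650616))) (c (a (l 16649944) (l 16632568)) (a (l 16644832) (l 16626456)))) (a (b (l 16627272) (l 16609632)) (b (l 16607896) (l 16588656)))) (b (b (c (a (l 16639776) (l 16624064)) (a (l 16633632) (l 16616824))) (a (c (l 16615296) (l 16608080)) (l 16594120))) (b (a (l 16609824) (l 16569808)) (a (l 16568024) (l 16547664))))) (a (b (a (l 16652120) (l 16649480)) (l 2)) (a (b (b (l 16549944) (l 16534648)) (l 16517856)) (b (b (l 16527776) (l 16510696)) (l 16491304))))) (b (b (b (b (a (a (l 16611808) (l 16596928)) (a (l 16582400) (l 16568936))) (a (a (l 16597368) (l 16581576)) (l 16600400))) (a (a (l 16576904) (c (l 16565312) (l 16554504))) (c (l 16582696) (l 16570160)))) (a (a (b (l 16551088) (l 16527504)) (b (l 16533024) (l 16507896))) (b (a (l 16514680) (l 16496232)) (c (l 16486632) (l 16471488))))) (a (b (b (a (l 16506080) (l 16485312)) (l 16496880))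 (b (l 16459224) (l 16445600))) (b (a (b (l 16465216) (l 16443328)) (l 16495432)) (b (l 16454496) (l 16395160)))))) (a (l 2) (b (a (b (b (l 16434880) (l 2)) (l 2)) (b (b (l 16380888) (l 16370504)) (l 16400560))) (l 2)))), by decide +kernel⟩

def k2_pp_012_b : ∃ t, chk3 f_pp_012_b t 7 1 1 = true :=
  ⟨(b (b (a (a (b (b (a (l 16546920) (l 16534544)) (a (l 16510712) (l 16496208))) (b (a (l 16478376) (l 16461176)) (l 16481608))) (b (b (l 16580064) (a (l 16482416) (l 16469256))) (b (l 16479528) (l 16402608)))) (b (b (a (a (l 16500376) (l 16489960)) (a (l 16480168) (l 16471200))) (a (l 16492408) (l 16469424))) (a (b (l 16408576) (l 16369448)) (b (l 16381960) (l 16339376))))) (a (b (a (b (l 16454072) (l 16387968)) (b (l 16371656) (l 16343744))) (a (b (l 16365784) (l 16346040)) (b (l 16318936) (l 16296464)))) (b (a (b (l 16333736) (l 16301536)) (b (l 16299232) (l 16262424))) (a (b (l 16272912) (l 16247592)) (b (l 16229512) (l 16199888)))))) (a (b (a (b (b (l 16329328) (l 16316128))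 (b (l 16305288) (l 16297264))) (b (b (l 16276672) (l 16259648)) (l 16240512))) (a (l 2) (b (l 16226944) (l 2)))) (b (b (a (l 16235624) (b (l 16173792) (l 16150960))) (a (l 16285312) (b (l 16130736) (l 16113336)))) (b (a (l 16159800) (l 16093880)) (a (l 16152592) (l 16080080)))))), by decide +kernel⟩

theorem s3_pp_012_b : ∃ t, chk3 f_pp_012_b t 3 1 1 = true := ex3_a k1_pp_012_b k2_pp_012_b

theorem s4_pp_012_b : ∃ t, chk3 f_pp_012_b t 1 1 1 = true := ex3_a k0_pp_012_b s3_pp_012_b

theorem c_pp_012_b : CertB 0 536870912 1239849684 370763052 780900216 37827925 3 eng mog cd0q0 cd1q2b pd1 false true true .pnp 0 1 2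
    ndB0q0 ndB1q2b pcB1 cut_pp_012_b Ext.none :=
  certB2 (fam := false) (s1 := true) (s2 := true) (a := 0) (b := 1) (c := 2) (cn := .pnp) (n1 := ndB0q0) (n2 := ndB1q2b) (pc := pcB1) (cut := cut_pp_012_b) (xt := Ext.none) (P1 := 0) (W1 := 536870912) (P2 := 1239849684) (W2 := 370763052) (P3 := 780900216) (W3 := 37827925) (N0 := 3) (En := eng) (mo := mog) (C1 := cd0q0) (C2 := cd1q2b) (C3 := pd1)
    rfl (fun _ => rfl) s4_pp_012_b

noncomputable def cut_pp_022_a : Cut := Cut.of [[⟨0, 0, 0, 67108864⟩, ⟨1, 1, 0, 67108864⟩, ⟨2, 1, 0, 67108864⟩]]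

noncomputable def f_pp_022_a : ℕ → ℕ → ℕ → ℕ → Bool := onCell 1073741824 536870912 0 536870912 780900216 37827925
    (rowB 3 eng mog cd0q0 cd1q2a pd2 2 false true true .pp 0 2 2 (qsf 0 536870912 0 536870912 2) ndB0q0 ndB1q2a pcB2 cut_pp_022_a Ext.none)

def k0_pp_022_a : ∃ t, chk3 f_pp_022_a t 4 2 1 = true :=
  ⟨(a (b (a (a (b (l 16446344) (l 16496024)) (b (l 16464952) (l 16512752))) (b (l 16486896) (l 16511056))) (a (b (a (b (l 16500720) (l 16519376)) (l 16524568)) (a (b (l 16538528) (a (l 16554480) (l 16560544))) (b (l 16550712) (l 16568432)))) (b (a (l 16535896) (l 16536504)) (c (l 16640480) (l 16621472))))) (b (a (b (l 16487928) (l 16492400)) (a (b (l 16456168) (l 16458104)) (b (l 16429456) (l 16428632)))) (a (b (a (l 16514088) (l 16490296)) (b (l 16513456) (a (l 16536544) (l 16509224)))) (a (b (l 16464680) (b (l 16472808) (l 16480160))) (b (l 16431768) (b (l 16436824) (l 16441824))))))), by decide +kernel⟩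

def k1_pp_022_a : ∃ t, chk3 f_pp_022_a t 8 3 1 = true :=
  ⟨(b (a (b (a (b (a (l 16576232) (l 16581512)) (b (l 16617168) (l 16629272))) (b (l 16588216) (l 16611200))) (a (b (a (b (l 16617864) (l 16629584)) (b (l 16622672) (l 16634408))) (a (b (l 16641040) (l 16673152)) (b (l 16645904) (l 16657176)))) (b (l 16635040) (a (l 16656168) (l 16660224))))) (b (a (b (l 16595544) (l 16612008)) (b (l 16574624) (l 16584440))) (a (b (l 16623720) (a (l 16644552) (b (l 16625248) (l 16631560)))) (b (c (l 16554032) (l 16570072)) (b (a (l 16609144) (l 16592680)) (a (l 16614712) (l 16597536))))))) (a (b (b (a (a (b (a (b (l 16658984) (l 16664320)) (l 16664360)) (a (c (l 16676976) (l 16681976)) (l 16687520))) (b (l 16689128) (c (l 16692784) (l 16689952)))) (a (b (l 16672784) (l 16685632)) (b (l 16672360) (l 16678744)))) (l 6)) (l 6)) (b (b (a (b (a (l 16634448) (l 16636832)) (b (a (l 16639256) (l 16642344)) (l 6))) (b (a (a (l 16624968) (l 16616080)) (a (l 16607112) (l 16619032))) (b (a (a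 (l 16628720) (l 16619536)) (a (l 16610264) (l 16600920))) (a (l 6) (a (l 6) (l 16601056)))))) (a (l 6) (a (l 6) (a (l 6) (l 1))))) (a (l 6) (l 1))))), by decide +kernel⟩

def k2_pp_022_a : ∃ t, chk3 f_pp_022_a t 9 3 1 = true :=
  ⟨(b (a (b (a (b (b (l 16545272) (l 16549832)) (b (l 16553208) (l 16556032))) (b (b (l 16516880) (l 16520744)) (b (l 16522392) (l 16523424)))) (a (b (a (l 16569296) (l 16572744)) (a (b (l 16574824) (a (l 16583784) (l 16573696))) (b (l 16555720) (l 89153733287)))) (b (b (l 135324584375) (a (l 16534816) (l 16516416))) (b (a (l 16536464) (l 1)) (l 1))))) (b (a (a (b (l 16496152) (l 16498440)) (b (l 141766956967) (l 139619439399))) (b (a (l 199212070759) (l 16456632)) (l 1))) (a (b (a (l 112775920599) (l 1)) (l 1)) (l 1)))) (a (b (b (a (b (a (a (b (l 16587040) (l 16589272)) (l 107407375015)) (l 56941486471)) (a (a (b (l 16590632) (l 1)) (l 1)) (l 1))) (l 1)) (l 1)) (l 1)) (l 1))), by decide +kernel⟩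

def k3_pp_022_a : ∃ t, chk3 f_pp_022_a t 5 1 1 = true :=
  ⟨(b (a (b (a (b (a (l 16398512) (l 16365752)) (a (l 16394080) (l 16357592))) (b (l 1) (l 1))) (a (b (a (l 16392768) (l 164852180919)) (a (b (l 16393880) (l 245382874567)) (l 1))) (l 1))) (l 1)) (b (l 1) (l 1))), by decide +kernel⟩

def k4_pp_022_a : ∃ t, chk3 f_pp_022_a t 3 1 1 = true :=
  ⟨(l 1), by decide +kernel⟩

theorem s5_pp_022_a : ∃ t, chk3 f_pp_022_a t 4 3 1 = true := ex3_a k1_pp_022_a k2_pp_022_a

theorem s6_pp_022_a : ∃ t, chk3 f_pp_022_a t 4 1 1 = true := ex3_b k0_pp_022_a s5_pp_022_a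

theorem s7_pp_022_a : ∃ t, chk3 f_pp_022_a t 2 1 1 = true := ex3_a s6_pp_022_a k3_pp_022_a

theorem s8_pp_022_a : ∃ t, chk3 f_pp_022_a t 1 1 1 = true := ex3_a s7_pp_022_a k4_pp_022_a

theorem c_pp_022_a : CertB 0 536870912 0 536870912 780900216 37827925 3 eng mog cd0q0 cd1q2a pd2 false true true .pp 0 2 2
    ndB0q0 ndB1q2a pcB2 cut_pp_022_a Ext.none :=
  certB2 (fam := false) (s1 := true) (s2 := true) (a := 0) (b := 2) (c := 2) (cn := .pp) (n1 := ndB0q0) (n2 := ndB1q2a) (pc := pcB2) (cut := cut_pp_022_a) (xt := Ext.none) (P1 := 0) (W1 := 536870912) (P2 := 0) (W2 := 536870912) (P3 := 780900216) (W3 := 37827925) (N0 := 3) (En := eng) (mo := mog) (C1 := cd0q0) (C2 := cd1q2a) (C3 := pd2)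
    rfl (fun _ => rfl) s8_pp_022_a

noncomputable def cut_pp_022_b : Cut := Cut.of [[⟨0, 0, 0, 67108864⟩, ⟨1, 1, 0, 67108864⟩, ⟨2, 1, 0, 67108864⟩]]

noncomputable def f_pp_022_b : ℕ → ℕ → ℕ → ℕ → Bool := onCell 0 536870912 1073741824 536870912 780900216 37827925
    (rowB 3 eng mog cd0q0 cd1q2b pd2 1 false true true .pp 0 2 2 (qsf 0 536870912 1239849684 370763052 2) ndB0q0 ndB1q2b pcB2 cut_pp_022_b Ext.none)

def k0_pp_022_b : ∃ t, chk3 f_pp_022_b t 1 1 1 = true :=
  ⟨(b (a (a (b (a (b (l 1) (b (a (l 1) (l 144451335575)) (a (l 224981618695) (l 16442912)))) (b (a (b (l 1) (a (l 1) (l 16524528))) (b (b (l 1) (l 16503816)) (l 16473608))) (a (b (l 16485848) (l 16415760)) (l 16493816)))) (b (a (b (a (a (l 16473504) (l 16402336)) (b (l 16385552) (l 16348424))) (a (l 16303096) (l 16289664))) (b (l 16352432) (l 16262408))) (a (b (a (l 16284448) (l 16214216)) (a (l 16145104) (l 16144032))) (a (l 16316968) (l 16160408))))) (b (a (b (a (b (a (l 82711174423) (l 16443304)) (l 16404696))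 (b (b (l 16374872) (l 16359760)) (l 16336160))) (a (l 16410160) (l 16286560))) (b (b (a (l 16319688) (l 16236016)) (a (l 16272632) (l 16214968))) (b (l 16280664) (l 16276464)))) (a (b (l 16464480) (l 16172344)) (b (l 16167344) (l 16134064))))) (a (b (a (b (b (a (l 16178784) (l 16128024)) (l 16244128)) (b (l 16124288) (l 16110008))) (b (a (b (l 16085064) (l 16078648)) (l 16111056)) (b (l 16056408) (l 16051960)))) (b (a (l 16103056) (l 16061792)) (a (l 16097216) (l 16080624)))) (b (a (b (c (l 16070688) (l 16092424)) (l 16099824)) (b (a (l 15984160) (l 15977000)) (l 16004832))) (b (a (l 16043616) (l 2)) (l 2))))) (a (b (a (b (a (a (b (l 16075040) (l 16012272)) (l 16050776)) (a (l 16055040) (l 16057880))) (a (a (l 15952320) (l 15950168)) (l 15972376))) (a (b (l 16068672) (l 16007472)) (l 16165112))) (a (b (a (b (l 15878824) (l 15844824)) (l 15911240)) (a (l 15804480) (l 15870368))) (a (b (l 15965768) (l 2)) (l 2)))) (b (a (a (l 16064280) (l 2)) (l 2)) (l 2)))), by decide +kernel⟩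

theorem c_pp_022_b : CertB 0 536870912 1239849684 370763052 780900216 37827925 3 eng mog cd0q0 cd1q2b pd2 false true true .pp 0 2 2
    ndB0q0 ndB1q2b pcB2 cut_pp_022_b Ext.none :=
  certB1 (fam := false) (s1 := true) (s2 := true) (a := 0) (b := 2) (c := 2) (cn := .pp) (n1 := ndB0q0) (n2 := ndB1q2b) (pc := pcB2) (cut := cut_pp_022_b) (xt := Ext.none) (P1 := 0) (W1 := 536870912) (P2 := 1239849684) (W2 := 370763052) (P3 := 780900216) (W3 := 37827925) (N0 := 3) (En := eng) (mo := mog) (C1 := cd0q0) (C2 := cd1q2b) (C3 := pd2)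
    rfl (fun _ => rfl) k0_pp_022_b

noncomputable def f_pp_023 : ℕ → ℕ → ℕ → ℕ → Bool := onCell 0 536870912 1073741824 536870912 780900216 37827925
    (rowB 3 eng mog cd0q0 cd1q3 pd2 1 false true true .up 0 2 3 (qsf 0 536870912 1610612736 536870912 2) ndB0q0 ndB1q3 pcB2 Cut.none Ext.none)

def k0_pp_023 : ∃ t, chk3 f_pp_023 t 1 1 1 = true :=
  ⟨(b (a (a (l 1) (b (l 1) (a (l 1) (b (l 1) (l 16127168))))) (a (b (a (l 1) (b (l 1) (l 278668510663))) (b (a (l 328597433527) (l 16054904)) (a (l 16093128) (l 16081304)))) (b (b (a (l 311417476615) (a (l 15980616) (l 15977384))) (a (l 16157104) (l 16006384))) (b (a (l 16042832) (l 16059608)) (a (l 16091040) (l 16128104)))))) (a (b (a (b (l 1) (l 402148427335)) (a (l 305512075559) (l 16079928))) (a (b (a (l 374768095431) (l 15915736)) (a (l 15805584) (l 15866888))) (a (b (l 15964128) (l 15931392)) (l 16110056)))) (b (a (a (l 16063888) (l 16095552)) (a (l 16141376) (l 16213448))) (a (b (l 16044808) (l 16105200)) (b (l 16297208) (l 16322152)))))),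 by decide +kernel⟩

theorem c_pp_023 : CertB 0 536870912 1610612736 536870912 780900216 37827925 3 eng mog cd0q0 cd1q3 pd2 false true true .up 0 2 3
    ndB0q0 ndB1q3 pcB2 Cut.none Ext.none :=
  certB1 (fam := false) (s1 := true) (s2 := true) (a := 0) (b := 2) (c := 3) (cn := .up) (n1 := ndB0q0) (n2 := ndB1q3) (pc := pcB2) (cut := Cut.none) (xt := Ext.none) (P1 := 0) (W1 := 536870912) (P2 := 1610612736) (W2 := 536870912) (P3 := 780900216) (W3 := 37827925) (N0 := 3) (En := eng) (mo := mog) (C1 := cd0q0) (C2 := cd1q3) (C3 := pd2)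
    rfl (fun _ => rfl) k0_pp_023

noncomputable def f_pp_033 : ℕ → ℕ → ℕ → ℕ → Bool := onCell 1610612736 536870912 1610612736 536870912 780900216 37827925
    (rowB 3 eng mog cd0q0 cd1q3 pd3 2 false true true .pnn 0 3 3 (qsf 0 536870912 1610612736 536870912 3) ndB0q0 ndB1q3 pcB3 Cut.none Ext.none)

def k0_pp_033 : ∃ t, chk3 f_pp_033 t 1 1 1 = true :=
  ⟨(a (b (a (b (a (b (l 423086206679) (l 15958264)) (b (l 477309841319) (l 431139212007))) (a (b (l 15898864) (l 15984472)) (b (l 15787824) (l 15884824)))) (a (b (b (l 1) (l 497710929799)) (b (l 15685888) (l 15804488))) (b (l 1) (a (l 15684352) (l 4))))) (a (b (a (b (l 16085216) (l 16239984)) (b (l 15986376) (l 16159024))) (a (b (l 16370752) (l 16472728)) (b (l 16294984) (l 16411760)))) (a (b (b (l 15928616) (l 16075144)) (b (l 16229032) (l 16352368))) (l 4)))) (a (l 4) (l 4))), by decide +kernel⟩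

theorem c_pp_033 : CertB 0 536870912 1610612736 536870912 780900216 37827925 3 eng mog cd0q0 cd1q3 pd3 false true true .pnn 0 3 3
    ndB0q0 ndB1q3 pcB3 Cut.none Ext.none :=
  certB2 (fam := false) (s1 := true) (s2 := true) (a := 0) (b := 3) (c := 3) (cn := .pnn) (n1 := ndB0q0) (n2 := ndB1q3) (pc := pcB3) (cut := Cut.none) (xt := Ext.none) (P1 := 0) (W1 := 536870912) (P2 := 1610612736) (W2 := 536870912) (P3 := 780900216) (W3 := 37827925) (N0 := 3) (En := eng) (mo := mog) (C1 := cd0q0) (C2 := cd1q3) (C3 := pd3)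
    rfl (fun _ => rfl) k0_pp_033

noncomputable def f_pp_101 : ℕ → ℕ → ℕ → ℕ → Bool := onCell 536870912 536870912 536870912 536870912 780900216 37827925
    (rowB 3 eng mog cd0q1 cd1q1 pd0 0 false true true .npn 1 0 1 (qsf 536870912 536870912 536870912 536870912 0) ndB0q1 ndB1q1 pcB0 Cut.none Ext.none)

def k0_pp_101 : ∃ t, chk3 f_pp_101 t 1 1 1 = true :=
  ⟨(l 3), by decide +kernel⟩

theorem c_pp_101 : CertB 536870912 536870912 536870912 536870912 780900216 37827925 3 eng mog cd0q1 cd1q1 pd0 false true true .npn 1 0 1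
    ndB0q1 ndB1q1 pcB0 Cut.none Ext.none :=
  certB0 (fam := false) (s1 := true) (s2 := true) (a := 1) (b := 0) (c := 1) (cn := .npn) (n1 := ndB0q1) (n2 := ndB1q1) (pc := pcB0) (cut := Cut.none) (xt := Ext.none) (P1 := 536870912) (W1 := 536870912) (P2 := 536870912) (W2 := 536870912) (P3 := 780900216) (W3 := 37827925) (N0 := 3) (En := eng) (mo := mog) (C1 := cd0q1) (C2 := cd1q1) (C3 := pd0)
    rfl k0_pp_101

noncomputable def f_pp_102_a : ℕ → ℕ → ℕ → ℕ → Bool := onCell 0 536870912 0 536870912 780900216 37827925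
    (rowB 3 eng mog cd0q1 cd1q2a pd0 2 false true true .npp 1 0 2 (qsf 536870912 536870912 0 536870912 0) ndB0q1 ndB1q2a pcB0 Cut.none Ext.none)

def k0_pp_102_a : ∃ t, chk3 f_pp_102_a t 1 1 1 = true :=
  ⟨(a (b (l 3) (l 3)) (l 3)), by decide +kernel⟩

theorem c_pp_102_a : CertB 536870912 536870912 0 536870912 780900216 37827925 3 eng mog cd0q1 cd1q2a pd0 false true true .npp 1 0 2
    ndB0q1 ndB1q2a pcB0 Cut.none Ext.none :=
  certB2 (fam := false) (s1 := true) (s2 := true) (a := 1) (b := 0) (c := 2) (cn := .npp) (n1 := ndB0q1) (n2 := ndB1q2a) (pc := pcB0) (cut := Cut.none) (xt := Ext.none) (P1 := 536870912) (W1 := 536870912) (P2 := 0) (W2 := 536870912) (P3 := 780900216) (W3 := 37827925) (N0 := 3) (En := eng) (mo := mog) (C1 := cd0q1) (C2 := cd1q2a) (C3 := pd0)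
    rfl (fun _ => rfl) k0_pp_102_a

noncomputable def f_pp_102_b : ℕ → ℕ → ℕ → ℕ → Bool := onCell 536870912 536870912 0 536870912 780900216 37827925
    (rowB 3 eng mog cd0q1 cd1q2b pd0 1 false true true .npp 1 0 2 (qsf 536870912 536870912 1239849684 370763052 0) ndB0q1 ndB1q2b pcB0 Cut.none Ext.none)

def k0_pp_102_b : ∃ t, chk3 f_pp_102_b t 1 1 1 = true :=
  ⟨(l 3), by decide +kernel⟩

theorem c_pp_102_b : CertB 536870912 536870912 1239849684 370763052 780900216 37827925 3 eng mog cd0q1 cd1q2b pd0 false true true .npp 1 0 2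
    ndB0q1 ndB1q2b pcB0 Cut.none Ext.none :=
  certB1 (fam := false) (s1 := true) (s2 := true) (a := 1) (b := 0) (c := 2) (cn := .npp) (n1 := ndB0q1) (n2 := ndB1q2b) (pc := pcB0) (cut := Cut.none) (xt := Ext.none) (P1 := 536870912) (W1 := 536870912) (P2 := 1239849684) (W2 := 370763052) (P3 := 780900216) (W3 := 37827925) (N0 := 3) (En := eng) (mo := mog) (C1 := cd0q1) (C2 := cd1q2b) (C3 := pd0)
    rfl (fun _ => rfl) k0_pp_102_b

noncomputable def f_pp_112_a : ℕ → ℕ → ℕ → ℕ → Bool := onCell 536870912 536870912 0 536870912 780900216 37827925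
    (rowB 3 eng mog cd0q1 cd1q2a pd1 0 false true true .dn 1 1 2 (qsf 536870912 536870912 0 536870912 1) ndB0q1 ndB1q2a pcB1 Cut.none Ext.none)

def k0_pp_112_a : ∃ t, chk3 f_pp_112_a t 1 1 1 = true :=
  ⟨(a (b (a (l 3) (l 3)) (l 3)) (l 1)), by decide +kernel⟩

theorem c_pp_112_a : CertB 536870912 536870912 0 536870912 780900216 37827925 3 eng mog cd0q1 cd1q2a pd1 false true true .dn 1 1 2
    ndB0q1 ndB1q2a pcB1 Cut.none Ext.none :=
  certB0 (fam := false) (s1 := true) (s2 := true) (a := 1) (b := 1) (c := 2) (cn := .dn) (n1 := ndB0q1) (n2 := ndB1q2a) (pc := pcB1) (cut := Cut.none) (xt := Ext.none) (P1 := 536870912) (W1 := 536870912) (P2 := 0) (W2 := 536870912) (P3 := 780900216) (W3 := 37827925) (N0 := 3) (En := eng) (mo := mog) (C1 := cd0q1) (C2 := cd1q2a) (C3 := pd1)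
    rfl k0_pp_112_a

noncomputable def f_pp_112_b : ℕ → ℕ → ℕ → ℕ → Bool := onCell 536870912 536870912 536870912 536870912 780900216 37827925
    (rowB 3 eng mog cd0q1 cd1q2b pd1 1 false true true .dn 1 1 2 (qsf 536870912 536870912 1239849684 370763052 1) ndB0q1 ndB1q2b pcB1 Cut.none Ext.none)

def k0_pp_112_b : ∃ t, chk3 f_pp_112_b t 1 1 1 = true :=
  ⟨(b (a (b (l 3) (a (b (a (b (l 3) (b (l 3) (a (b (l 3) (a (l 182166958023) (l 3))) (l 3)))) (l 3)) (a (b (a (b (a (b (l 16719696) (l 16705352)) (l 116131802855)) (a (l 16682216) (l 16673944))) (b (l 3) (l 16681880))) (a (b (l 16667912) (l 16615480)) (b (l 16632840) (l 16602208)))) (b (l 3) (a (l 52244094423) (l 16657008))))) (l 3))) (l 3)) (a (b (a (b (a (b (a (l 16588240) (l 16555104)) (a (l 16501304) (l 16490696))) (b (a (l 16547232) (l 16543296)) (l 16588984))) (a (b (a (l 16432496) (l 16423224)) (l 16505696)) (b (l 16419784) (l 16355040)))) (b (a (b (a (l 16583304) (l 103783559767)) (a (l 16489608) (l 16520048))) (b (l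 3) (a (l 109689129415) (l 3)))) (a (b (a (l 16430632) (l 16447248)) (l 16381088)) (b (a (l 16472464) (l 2)) (l 2))))) (a (b (a (b (l 16376464) (l 16224760)) (b (l 16293264) (l 16234256))) (a (l 16273280) (l 16287128))) (b (a (b (l 16327464) (l 2)) (l 2)) (l 2)))) (b (b (l 3) (l 2)) (l 2)))), by decide +kernel⟩

theorem c_pp_112_b : CertB 536870912 536870912 1239849684 370763052 780900216 37827925 3 eng mog cd0q1 cd1q2b pd1 false true true .dn 1 1 2
    ndB0q1 ndB1q2b pcB1 Cut.none Ext.none :=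
  certB1 (fam := false) (s1 := true) (s2 := true) (a := 1) (b := 1) (c := 2) (cn := .dn) (n1 := ndB0q1) (n2 := ndB1q2b) (pc := pcB1) (cut := Cut.none) (xt := Ext.none) (P1 := 536870912) (W1 := 536870912) (P2 := 1239849684) (W2 := 370763052) (P3 := 780900216) (W3 := 37827925) (N0 := 3) (En := eng) (mo := mog) (C1 := cd0q1) (C2 := cd1q2b) (C3 := pd1)
    rfl (fun _ => rfl) k0_pp_112_b

noncomputable def cut_pp_113 : Cut := Cut.of [[⟨0, 1, 0, 67108864⟩, ⟨1, 1, 0, 67108864⟩, ⟨2, 2, 0, 16777216⟩]]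

noncomputable def f_pp_113 : ℕ → ℕ → ℕ → ℕ → Bool := onCell 536870912 536870912 536870912 536870912 780900216 37827925
    (rowB 3 eng mog cd0q1 cd1q3 pd1 1 false true true .nn 1 1 3 (qsf 536870912 536870912 1610612736 536870912 1) ndB0q1 ndB1q3 pcB1 cut_pp_113 Ext.none)

def k0_pp_113 : ∃ t, chk3 f_pp_113 t 1 2 1 = true :=
  ⟨(a (a (l 1) (l 3)) (l 3)), by decide +kernel⟩

def k1_pp_113 : ∃ t, chk3 f_pp_113 t 2 3 1 = true :=
  ⟨(b (a (b (l 1) (a (l 1) (b (l 1) (l 16366544)))) (b (a (b (l 1) (a (l 1) (l 16530576))) (b (l 3) (a (l 109689153639) (l 3)))) (a (b (a (l 16443816) (l 16461768)) (l 16398264)) (b (a (l 16486752) (l 119352848807)) (a (l 16447352) (l 16495960)))))) (a (b (a (b (l 1) (l 16231120)) (b (l 16306424) (l 16248768))) (a (a (l 16119672) (l 16126968)) (b (l 16188136) (l 16122632)))) (b (a (b (l 16347416) (l 16303024)) (b (l 16566616) (l 16416592))) (a (b (l 16257752) (l 16209056)) (b (l 16402288) (l 16387400)))))), by decide +kernel⟩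

def k2_pp_113 : ∃ t, chk3 f_pp_113 t 3 3 1 = true :=
  ⟨(b (a (b (l 3) (a (b (a (l 172503128647) (l 3)) (a (l 121500397447) (l 165523803063))) (l 3))) (l 3)) (a (b (a (b (a (l 16561488) (l 16674104)) (b (l 16632376) (l 16648216))) (b (a (b (l 199346900855) (l 16846000)) (b (l 3) (a (l 224043069575) (l 3)))) (a (l 16723528) (b (a (l 16848440) (l 206326273479)) (l 16822400))))) (a (b (a (l 16592184) (l 16671928)) (a (l 16574080) (l 16621064))) (b (a (l 16722568) (b (l 16789120) (l 16759944))) (a (l 16670864) (l 16719288))))) (b (a (b (l 3) (a (b (c (l 242296778087) (l 238538630839)) (a (l 16860440) (b (l 271287822039) (l 16875488)))) (b (l 3) (l 3)))) (l 3)) (a (b (a (b (a (l 16824920) (l 16847480)) (l 16804704)) (b (a (b (l 119890243655) (l 16860000)) (l 297594439447)) (a (l 16834080) (l 16881424)))) (a (b (l 16774400) (l 16745800)) (c (l 16816008) (l 16853312)))) (b (a (b (l 3) (a (b (l 403894886375) (l 185925241623)) (l 520932637991))) (l 3)) (a (b (a (l 16823336) (b (a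 (l 16836408) (l 408189769671)) (l 80161629559))) (a (l 16789096) (l 16791936))) (a (b (b (l 3) (a (b (l 455434404247) (l 225653615831)) (l 553681744215))) (b (a (l 16802416) (b (a (l 16808232) (l 458118702727)) (l 89288387031))) (l 16800624))) (b (l 3) (a (b (b (l 3) (a (b (l 473687965799) (l 240149096839)) (l 568714077831))) (b (a (l 16790344) (b (a (l 16790520) (l 470466701783)) (l 101636394647))) (l 16786528))) (b (l 3) (b (b (l 3) (l 6)) (l 6)))))))))))), by decide +kernel⟩

theorem s3_pp_113 : ∃ t, chk3 f_pp_113 t 1 3 1 = true := ex3_a k1_pp_113 k2_pp_113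

theorem s4_pp_113 : ∃ t, chk3 f_pp_113 t 1 1 1 = true := ex3_b k0_pp_113 s3_pp_113

theorem c_pp_113 : CertB 536870912 536870912 1610612736 536870912 780900216 37827925 3 eng mog cd0q1 cd1q3 pd1 false true true .nn 1 1 3
    ndB0q1 ndB1q3 pcB1 cut_pp_113 Ext.none :=
  certB1 (fam := false) (s1 := true) (s2 := true) (a := 1) (b := 1) (c := 3) (cn := .nn) (n1 := ndB0q1) (n2 := ndB1q3) (pc := pcB1) (cut := cut_pp_113) (xt := Ext.none) (P1 := 536870912) (W1 := 536870912) (P2 := 1610612736) (W2 := 536870912) (P3 := 780900216) (W3 := 37827925) (N0 := 3) (En := eng) (mo := mog) (C1 := cd0q1) (C2 := cd1q3) (C3 := pd1)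
    rfl (fun _ => rfl) s4_pp_113

noncomputable def cut_pp_123 : Cut := Cut.of [[⟨0, 1, 0, 67108864⟩, ⟨1, 1, 0, 67108864⟩, ⟨2, 2, 0, 16777216⟩]]

noncomputable def f_pp_123 : ℕ → ℕ → ℕ → ℕ → Bool := onCell 536870912 536870912 1073741824 536870912 780900216 37827925
    (rowB 3 eng mog cd0q1 cd1q3 pd2 1 false true true .npn 1 2 3 (qsf 536870912 536870912 1610612736 536870912 2) ndB0q1 ndB1q3 pcB2 cut_pp_123 Ext.none)

def k0_pp_123 : ∃ t, chk3 f_pp_123 t 1 1 1 = true :=
  ⟨(a (b (a (b (a (b (a (l 15981840) (l 15994200)) (l 16031048)) (b (l 16030968) (l 16088824))) (a (b (l 16101672) (l 16186664)) (b (l 16175816) (l 16276200)))) (b (a (b (l 16126736) (l 16199712)) (b (c (l 16367960) (l 16281048)) (l 16342704))) (b (a (l 16288368) (l 16389592)) (a (l 16370048) (l 16458528))))) (a (b (a (l 16323784) (b (l 16370680) (l 16453008))) (b (l 16489728) (l 16549472))) (b (a (b (l 16450584) (l 16520152)) (b (l 16525280) (l 16578648))) (a (b (l 16574824) (l 2)) (l 2))))) (b (a (b (b (a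 (b (l 16470864) (l 16454624)) (a (l 16524264) (b (l 16613248) (l 16587776)))) (a (b (l 16442656) (l 16439592)) (b (l 16542008) (a (l 16505128) (l 16556200))))) (b (a (b (l 16463056) (l 16492696)) (b (b (l 16544816) (b (l 16554304) (l 16561640))) (l 16571792))) (a (l 16513576) (l 16552384)))) (b (b (a (b (a (l 16663080) (b (l 16713640) (l 16699608))) (a (l 16635440) (b (l 16685192) (l 16671464)))) (b (a (a (l 16708160) (b (l 16746368) (l 16732992))) (b (a (b (a (l 16756816) (l 16761792)) (l 16753176)) (b (a (b (l 16778768) (l 6)) (l 6)) (a (l 6) (l 418323036119)))) (a (l 16700808) (l 449998513559)))) (a (b (l 16712384) (l 16695216)) (a (l 16718632) (l 2))))) (a (b (a (l 16614768) (l 16647768)) (a (l 16604312) (l 16617816))) (a (b (l 16674136) (l 2)) (l 2)))) (a (b (b (b (l 16593584) (l 2)) (l 2)) (l 2)) (l 2)))) (a (b (a (b (l 16584384) (l 2)) (l 2)) (l 2)) (l 2)))), by decide +kernel⟩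

theorem c_pp_123 : CertB 536870912 536870912 1610612736 536870912 780900216 37827925 3 eng mog cd0q1 cd1q3 pd2 false true true .npn 1 2 3
    ndB0q1 ndB1q3 pcB2 cut_pp_123 Ext.none :=
  certB1 (fam := false) (s1 := true) (s2 := true) (a := 1) (b := 2) (c := 3) (cn := .npn) (n1 := ndB0q1) (n2 := ndB1q3) (pc := pcB2) (cut := cut_pp_123) (xt := Ext.none) (P1 := 536870912) (W1 := 536870912) (P2 := 1610612736) (W2 := 536870912) (P3 := 780900216) (W3 := 37827925) (N0 := 3) (En := eng) (mo := mog) (C1 := cd0q1) (C2 := cd1q3) (C3 := pd2)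
    rfl (fun _ => rfl) k0_pp_123

noncomputable def f_pp_133 : ℕ → ℕ → ℕ → ℕ → Bool := onCell 536870912 536870912 1610612736 536870912 780900216 37827925
    (rowB 3 eng mog cd0q1 cd1q3 pd3 0 false true true .dn 1 3 3 (qsf 536870912 536870912 1610612736 536870912 3) ndB0q1 ndB1q3 pcB3 Cut.none Ext.none)

def k0_pp_133 : ∃ t, chk3 f_pp_133 t 1 1 1 = true :=
  ⟨(a (b (l 1) (a (b (l 1) (a (b (l 1) (l 16591960)) (l 1))) (l 1))) (l 1)), by decide +kernel⟩

theorem c_pp_133 : CertB 536870912 536870912 1610612736 536870912 780900216 37827925 3 eng mog cd0q1 cd1q3 pd3 false true true .dn 1 3 3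
    ndB0q1 ndB1q3 pcB3 Cut.none Ext.none :=
  certB0 (fam := false) (s1 := true) (s2 := true) (a := 1) (b := 3) (c := 3) (cn := .dn) (n1 := ndB0q1) (n2 := ndB1q3) (pc := pcB3) (cut := Cut.none) (xt := Ext.none) (P1 := 536870912) (W1 := 536870912) (P2 := 1610612736) (W2 := 536870912) (P3 := 780900216) (W3 := 37827925) (N0 := 3) (En := eng) (mo := mog) (C1 := cd0q1) (C2 := cd1q3) (C3 := pd3)
    rfl k0_pp_133

noncomputable def f_pp_202_a : ℕ → ℕ → ℕ → ℕ → Bool := onCell 0 536870912 0 536870912 780900216 37827925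
    (rowB 3 eng mog cd0q2 cd1q2a pd0 0 false true true .pp 2 0 2 (qsf 0 536870912 0 536870912 0) ndB0q2 ndB1q2a pcB0 Cut.none Ext.none)

def k0_pp_202_a : ∃ t, chk3 f_pp_202_a t 1 1 1 = true :=
  ⟨(l 3), by decide +kernel⟩

theorem c_pp_202_a : CertB 0 536870912 0 536870912 780900216 37827925 3 eng mog cd0q2 cd1q2a pd0 false true true .pp 2 0 2
    ndB0q2 ndB1q2a pcB0 Cut.none Ext.none :=
  certB0 (fam := false) (s1 := true) (s2 := true) (a := 2) (b := 0) (c := 2) (cn := .pp) (n1 := ndB0q2) (n2 := ndB1q2a) (pc := pcB0) (cut := Cut.none) (xt := Ext.none) (P1 := 0) (W1 := 536870912) (P2 := 0) (W2 := 536870912) (P3 := 780900216) (W3 := 37827925) (N0 := 3) (En := eng) (mo := mog) (C1 := cd0q2) (C2 := cd1q2a) (C3 := pd0)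
    rfl k0_pp_202_a

noncomputable def f_pp_202_b : ℕ → ℕ → ℕ → ℕ → Bool := onCell 0 536870912 1239849684 370763052 780900216 37827925
    (rowB 3 eng mog cd0q2 cd1q2b pd0 0 false true true .pp 2 0 2 (qsf 0 536870912 1239849684 370763052 0) ndB0q2 ndB1q2b pcB0 Cut.none Ext.none)

def k0_pp_202_b : ∃ t, chk3 f_pp_202_b t 1 1 1 = true :=
  ⟨(l 3), by decide +kernel⟩

theorem c_pp_202_b : CertB 0 536870912 1239849684 370763052 780900216 37827925 3 eng mog cd0q2 cd1q2b pd0 false true true .pp 2 0 2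
    ndB0q2 ndB1q2b pcB0 Cut.none Ext.none :=
  certB0 (fam := false) (s1 := true) (s2 := true) (a := 2) (b := 0) (c := 2) (cn := .pp) (n1 := ndB0q2) (n2 := ndB1q2b) (pc := pcB0) (cut := Cut.none) (xt := Ext.none) (P1 := 0) (W1 := 536870912) (P2 := 1239849684) (W2 := 370763052) (P3 := 780900216) (W3 := 37827925) (N0 := 3) (En := eng) (mo := mog) (C1 := cd0q2) (C2 := cd1q2b) (C3 := pd0)
    rfl k0_pp_202_b

noncomputable def f_pp_203 : ℕ → ℕ → ℕ → ℕ → Bool := onCell 0 536870912 0 536870912 780900216 37827925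
    (rowB 3 eng mog cd0q2 cd1q3 pd0 1 false true true .up 2 0 3 (qsf 0 536870912 1610612736 536870912 0) ndB0q2 ndB1q3 pcB0 Cut.none Ext.none)

def k0_pp_203 : ∃ t, chk3 f_pp_203 t 1 1 1 = true :=
  ⟨(l 3), by decide +kernel⟩

theorem c_pp_203 : CertB 0 536870912 1610612736 536870912 780900216 37827925 3 eng mog cd0q2 cd1q3 pd0 false true true .up 2 0 3
    ndB0q2 ndB1q3 pcB0 Cut.none Ext.none :=
  certB1 (fam := false) (s1 := true) (s2 := true) (a := 2) (b := 0) (c := 3) (cn := .up) (n1 := ndB0q2) (n2 := ndB1q3) (pc := pcB0) (cut := Cut.none) (xt := Ext.none) (P1 := 0) (W1 := 536870912) (P2 := 1610612736) (W2 := 536870912) (P3 := 780900216) (W3 := 37827925) (N0 := 3) (En := eng) (mo := mog) (C1 := cd0q2) (C2 := cd1q3) (C3 := pd0)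
    rfl (fun _ => rfl) k0_pp_203

noncomputable def cut_pp_213 : Cut := Cut.of [[⟨0, 1, 0, 67108864⟩, ⟨1, 1, 0, 67108864⟩, ⟨2, 2, 0, 16777216⟩]]

noncomputable def f_pp_213 : ℕ → ℕ → ℕ → ℕ → Bool := onCell 0 536870912 1610612736 536870912 780900216 37827925
    (rowB 3 eng mog cd0q2 cd1q3 pd1 0 false true true .pnn 2 1 3 (qsf 0 536870912 1610612736 536870912 1) ndB0q2 ndB1q3 pcB1 cut_pp_213 Ext.none)

def k0_pp_213 : ∃ t, chk3 f_pp_213 t 1 1 1 = true :=
  ⟨(b (l 3) (a (l 3) (b (l 3) (a (l 3) (b (l 3) (a (l 3) (b (l 3) (b (l 3) (b (l 3) (l 6)))))))))), by decide +kernel⟩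

theorem c_pp_213 : CertB 0 536870912 1610612736 536870912 780900216 37827925 3 eng mog cd0q2 cd1q3 pd1 false true true .pnn 2 1 3
    ndB0q2 ndB1q3 pcB1 cut_pp_213 Ext.none :=
  certB0 (fam := false) (s1 := true) (s2 := true) (a := 2) (b := 1) (c := 3) (cn := .pnn) (n1 := ndB0q2) (n2 := ndB1q3) (pc := pcB1) (cut := cut_pp_213) (xt := Ext.none) (P1 := 0) (W1 := 536870912) (P2 := 1610612736) (W2 := 536870912) (P3 := 780900216) (W3 := 37827925) (N0 := 3) (En := eng) (mo := mog) (C1 := cd0q2) (C2 := cd1q3) (C3 := pd1)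
    rfl k0_pp_213

noncomputable def f_pm_001 : ℕ → ℕ → ℕ → ℕ → Bool := onCell 0 536870912 0 536870912 780900216 37827925
    (rowB 3 eng mog cd0q0 cd1q1 pd0 1 false true false .up 0 0 1 (qsf 0 536870912 536870912 536870912 0) ndB0q0 ndB1q1 pcB0 Cut.none Ext.none)

def k0_pm_001 : ∃ t, chk3 f_pm_001 t 1 1 1 = true :=
  ⟨(a (l 4) (b (l 4) (b (l 4) (a (l 4) (a (l 4) (b (b (l 34593886343) (a (l 4) (l 16258504))) (a (b (l 16305368) (l 16267064)) (b (l 16223272) (l 16195136))))))))), by decide +kernel⟩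

theorem c_pm_001 : CertB 0 536870912 536870912 536870912 780900216 37827925 3 eng mog cd0q0 cd1q1 pd0 false true false .up 0 0 1
    ndB0q0 ndB1q1 pcB0 Cut.none Ext.none :=
  certB1 (fam := false) (s1 := true) (s2 := false) (a := 0) (b := 0) (c := 1) (cn := .up) (n1 := ndB0q0) (n2 := ndB1q1) (pc := pcB0) (cut := Cut.none) (xt := Ext.none) (P1 := 0) (W1 := 536870912) (P2 := 536870912) (W2 := 536870912) (P3 := 780900216) (W3 := 37827925) (N0 := 3) (En := eng) (mo := mog) (C1 := cd0q0) (C2 := cd1q1) (C3 := pd0)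
    rfl (fun _ => rfl) k0_pm_001

noncomputable def f_pm_011 : ℕ → ℕ → ℕ → ℕ → Bool := onCell 536870912 536870912 536870912 536870912 780900216 37827925
    (rowB 3 eng mog cd0q0 cd1q1 pd1 2 false true false .pnn 0 1 1 (qsf 0 536870912 536870912 536870912 1) ndB0q0 ndB1q1 pcB1 Cut.none Ext.none)

def k0_pm_011 : ∃ t, chk3 f_pm_011 t 1 1 1 = true :=
  ⟨(a (b (l 4) (b (l 4) (b (l 4) (a (a (b (a (l 16271696) (l 16335672)) (a (l 16202440) (l 16242240))) (b (l 4) (a (l 16302480) (b (l 4) (l 16299912))))) (a (b (l 4) (a (l 4) (l 4))) (l 4)))))) (l 4)), by decide +kernel⟩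

theorem c_pm_011 : CertB 0 536870912 536870912 536870912 780900216 37827925 3 eng mog cd0q0 cd1q1 pd1 false true false .pnn 0 1 1
    ndB0q0 ndB1q1 pcB1 Cut.none Ext.none :=
  certB2 (fam := false) (s1 := true) (s2 := false) (a := 0) (b := 1) (c := 1) (cn := .pnn) (n1 := ndB0q0) (n2 := ndB1q1) (pc := pcB1) (cut := Cut.none) (xt := Ext.none) (P1 := 0) (W1 := 536870912) (P2 := 536870912) (W2 := 536870912) (P3 := 780900216) (W3 := 37827925) (N0 := 3) (En := eng) (mo := mog) (C1 := cd0q0) (C2 := cd1q1) (C3 := pd1)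
    rfl (fun _ => rfl) k0_pm_011

noncomputable def cut_pm_012_a : Cut := Cut.of [[⟨0, 0, 0, 67108864⟩, ⟨1, 1, 0, 67108864⟩, ⟨2, 1, 0, 67108864⟩]]

noncomputable def f_pm_012_a : ℕ → ℕ → ℕ → ℕ → Bool := onCell 0 536870912 0 536870912 780900216 37827925
    (rowB 3 eng mog cd0q0 cd1q2a pd1 0 false true false .pnp 0 1 2 (qsf 0 536870912 0 536870912 1) ndB0q0 ndB1q2a pcB1 cut_pm_012_a Ext.none)

def k0_pm_012_a : ∃ t, chk3 f_pm_012_a t 2 2 1 = true :=
  ⟨(a (a (l 2) (b (l 2) (a (l 2) (b (l 2) (a (l 2) (b (l 2) (a (l 2) (b (l 16323016) (l 16334336))))))))) (a (b (a (a (l 2) (b (l 16335424) (b (l 16315512) (l 16309184)))) (b (a (l 16345720) (l 16356032)) (a (l 16322096) (l 16331600)))) (a (b (a (b (l 16298672) (a (l 2) (l 16306760))) (b (l 16308272) (l 16313016))) (a (b (a (l 16314112) (l 16318320)) (a (l 16332672) (l 16336104))) (b (l 16323624) (l 16340232)))) (b (a (b (l 16316736) (l 16320456)) (b (l 16325144) (l 16327832))) (a (b (l 16329776) (l 16344808)) (b (l 16335848) (l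 16349368)))))) (b (a (b (a (l 16366528) (l 16377352)) (a (l 16341248) (l 16351272))) (b (l 16394128) (a (l 16361736) (l 16372104)))) (a (b (a (b (l 16333672) (l 16335352)) (b (l 16342728) (l 16343576))) (a (b (l 16342256) (l 16354536)) (b (l 16349408) (l 16360256)))) (b (b (l 16356952) (l 16356328)) (b (a (l 16356696) (l 16363768)) (a (l 16366008) (l 16371616)))))))), by decide +kernel⟩

def k1_pm_012_a : ∃ t, chk3 f_pm_012_a t 4 6 1 = true :=
  ⟨(a (l 2) (b (a (l 2) (a (b (a (l 2) (b (l 2) (l 16355088))) (a (b (l 2) (l 16407416)) (b (l 16371808) (l 16389424)))) (b (a (b (l 16343584) (l 16358744)) (b (l 16347312) (l 16361976))) (b (a (l 16374944) (l 16377648)) (l 16393176))))) (a (a (b (l 2) (a (l 2) (b (l 16445552) (l 16493248)))) (b (a (b (l 2) (l 16444072)) (b (l 16424456) (l 16425512))) (b (a (l 16468408) (l 16449192)) (a (l 16473456) (l 16474512))))) (b (a (b (a (l 16406232) (l 16408640)) (a (l 16427640) (l 16429440))) (b (l 16411528) (l 16431392))) (a (b (l 16451288)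 (l 16475544)) (b (l 16452760) (l 16475592))))))), by decide +kernel⟩

def k2_pm_012_a : ∃ t, chk3 f_pm_012_a t 4 7 1 = true :=
  ⟨(a (a (b (l 2) (l 6)) (a (b (b (l 2) (l 6)) (l 6)) (a (b (b (l 2) (l 6)) (l 6)) (b (b (b (l 2) (b (l 16522440) (l 16536296))) (b (l 16557768) (l 16587480))) (a (l 6) (b (b (l 16617872) (l 16649936)) (b (l 16683160) (b (l 16692736) (b (l 16692720) (l 16692616)))))))))) (b (a (b (a (b (a (l 16510752) (l 16500696)) (a (l 16529088) (l 16528792))) (b (a (l 16501128) (l 16501424)) (l 16528296))) (a (b (a (l 16556792) (l 16555816)) (a (l 16585792) (l 16584096))) (b (l 16554296) (l 16581496)))) (b (a (b (l 16501320) (l 16526848)) (b (l 16499848) (l 16524016))) (a (b (l 16551480) (l 16577400)) (b (l 16547672) (l 16572704))))) (b (a (a (b (a (l 16616048) (l 16613600)) (b (l 16637952) (l 16653768))) (b (a (l 16611144) (l 16608544)) (l 16639608))) (b (a (l 16604744) (l 16598912)) (a (l 16633472) (l 16616968)))) (a (b (a (b (l 16669856) (l 16679136)) (b (l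 16657328) (l 16656904))) (a (b (a (l 16663664) (l 16673424)) (a (b (l 16684416) (c (l 16684448) (l 16683720))) (b (l 16672800) (l 16672272)))) (b (a (l 16661848) (l 16650440)) (a (b (l 16661104) (l 16660504)) (l 16649272))))) (b (a (b (l 16635800) (l 16635056)) (b (l 16615960) (l 16614944))) (b (a (l 16634000) (l 16613616)) (a (a (l 16638088) (l 16627312)) (a (l 16616984) (l 16607040))))))))), by decide +kernel⟩

def k3_pm_012_a : ∃ t, chk3 f_pm_012_a t 5 3 1 = true :=
  ⟨(b (a (b (a (b (a (a (l 16357712) (l 16360208)) (b (l 16356440) (l 16369312))) (a (b (l 16380808) (l 16396552)) (b (l 16383144) (l 16397800)))) (b (a (l 16365624) (l 16368624)) (a (b (l 16384344) (l 16398120)) (l 16392696)))) (a (b (a (b (l 16413744) (l 16432368)) (b (l 16413848) (l 16431384))) (a (b (l 16452400) (l 16473928)) (l 16460816))) (b (a (l 16421752) (l 16421080)) (a (l 16457624) (l 16454272))))) (b (a (b (a (l 16372240) (l 16376112)) (a (l 16394328) (l 16396104))) (b (a (l 16380040) (l 16383952))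 (a (l 16398112) (l 16400048)))) (a (b (a (l 16420376) (l 16419984)) (a (l 16451016) (l 16448152))) (b (a (l 16419840) (l 16419464)) (l 16464840))))) (a (b (a (b (a (b (l 16497016) (l 16520200)) (l 16503856)) (a (l 16554832) (l 16547112))) (b (a (l 16497704) (l 16491448)) (l 16533800))) (b (a (a (l 16579248) (l 16585288)) (b (l 16564600) (l 16563248))) (a (b (a (l 16597440) (l 16581376)) (b (a (l 16594952) (l 16578368)) (a (a (l 16597440) (l 16588384)) (a (l 16579984) (l 16572088))))) (b (a (l 16566688) (l 16552360)) (a (b (l 16563272) (b (l 16561296) (l 16580848))) (b (l 16548536) (a (l 16549328) (l 16541888)))))))) (b (b (a (b (l 16474104) (l 16490840)) (l 16407752)) (a (l 16516024) (l 16498024))) (b (a (b (l 16539752) (l 16535944)) (b (l 16514032) (l 16509120))) (a (b (a (l 16538208) (l 16524064)) (a (b (l 16533976) (l 16543872)) (b (l 16519432) (l 16515952)))) (b (a (l 16510040) (l 16496368)) (a (b (l 16505000) (l 16501256)) (l 16509920)))))))), by decide +kernel⟩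

def k4_pm_012_a : ∃ t, chk3 f_pm_012_a t 3 2 1 = true :=
  ⟨(a (b (a (b (a (a (l 16410608) (l 16421976)) (b (l 16445496) (l 16429056))) (a (b (l 16392448) (l 16381888)) (b (l 16413712) (l 16402056)))) (a (b (b (l 16467560) (l 16472864)) (b (l 16436856) (l 16424080))) (b (a (l 16476848) (l 16488872)) (b (l 16502976) (l 16447136))))) (a (a (b (b (l 16375272) (l 16372720)) (b (a (l 16370800) (l 16377768)) (a (l 16377216) (l 16382656)))) (b (b (l 16393944) (l 16389432)) (b (l 16409496) (a (l 16388184) (l 16394152))))) (a (b (b (l 16414448) (l 16407960)) (b (l 16404560) (l 16425088))) (b (b (l 16435968) (l 16427488)) (b (l 16421584) (l 16418064)))))) (a (b (a (b (a (l 16500376) (l 16511880)) (a (b (l 16476872) (l 16463968)) (b (l 16488000) (l 16474728)))) (b (a (l 16523368) (l 16534832)) (b (l 16503688) (a (l 16484104) (l 16493560))))) (b (a (b (l 16456440) (l 16445952)) (b (a (l 16470952) (l 16480752)) (l 16463168))) (a (b (l 16437536) (l 16430912)) (b (l 16452240) (l 16442520)))))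 (b (a (b (a (l 16546264) (l 16557936)) (a (l 16511568) (l 16521720))) (b (a (l 16570072) (l 16582672)) (a (l 16532328) (l 16543368)))) (b (a (b (a (l 16489344) (l 16497424)) (l 16479264)) (b (l 16532216) (a (l 16491880) (l 16499592)))) (a (b (l 16465840) (l 16453048)) (b (l 16479488) (l 16463616))))))), by decide +kernel⟩

def k5_pm_012_a : ∃ t, chk3 f_pm_012_a t 3 3 1 = true :=
  ⟨(a (b (a (b (a (b (a (l 16387760) (l 16391360)) (a (l 16401760) (l 16403264))) (b (a (l 16395048) (l 16399168)) (a (l 16404864) (l 16406880)))) (a (b (a (l 16418832) (l 16417992)) (l 16437104)) (b (l 16417040) (l 16430256)))) (b (a (b (l 16448304) (a (l 16409376) (l 16412352))) (b (l 16416560) (l 16416808))) (a (b (l 16417344) (l 16424984)) (b (l 16418408) (l 16420336))))) (a (b (a (b (l 16415744) (l 16478920)) (b (l 16423616) (l 16459648))) (b (a (b (l 16489512) (l 16483496)) (l 16482808)) (a (b (l 16497392) (a (l 16475032) (l 16461344))) (a (b (l 16456688) (l 16447632)) (l 16459512))))) (b (a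 (a (l 16441352) (l 16434264)) (b (l 16421712) (l 16423928))) (b (a (l 16435896) (l 16409752)) (a (a (l 16445448) (l 16431104)) (c (l 16433384) (l 16428128))))))) (b (a (a (b (b (l 16425648) (l 16421568)) (a (l 16417688) (l 16415872))) (b (b (l 16433488) (l 16425080)) (b (l 16416896) (l 16407304)))) (b (a (b (l 16440280) (l 16427568)) (b (l 16447088) (l 16430048))) (a (l 16375920) (b (l 16412096) (l 16391032))))) (a (b (a (c (l 16407072) (l 16408232)) (b (l 16395440) (l 16382936))) (a (b (c (l 16385896) (l 16383832)) (c (l 16385536) (l 16358744))) (b (l 16361280) (c (l 16338624) (l 16332608))))) (a (b (l 16420016) (b (l 16338384) (c (l 16344568) (l 16328344)))) (b (l 16354864) (b (l 16315624) (b (l 16293168) (l 16276832)))))))), by decide +kernel⟩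

theorem s6_pm_012_a : ∃ t, chk3 f_pm_012_a t 3 1 1 = true := ex3_b k4_pm_012_a k5_pm_012_a

theorem s7_pm_012_a : ∃ t, chk3 f_pm_012_a t 4 3 1 = true := ex3_b k1_pm_012_a k2_pm_012_a

theorem s8_pm_012_a : ∃ t, chk3 f_pm_012_a t 2 3 1 = true := ex3_a s7_pm_012_a k3_pm_012_a

theorem s9_pm_012_a : ∃ t, chk3 f_pm_012_a t 2 1 1 = true := ex3_b k0_pm_012_a s8_pm_012_a

theorem s10_pm_012_a : ∃ t, chk3 f_pm_012_a t 1 1 1 = true := ex3_a s9_pm_012_a s6_pm_012_a

theorem c_pm_012_a : CertB 0 536870912 0 536870912 780900216 37827925 3 eng mog cd0q0 cd1q2a pd1 false true false .pnp 0 1 2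
    ndB0q0 ndB1q2a pcB1 cut_pm_012_a Ext.none :=
  certB0 (fam := false) (s1 := true) (s2 := false) (a := 0) (b := 1) (c := 2) (cn := .pnp) (n1 := ndB0q0) (n2 := ndB1q2a) (pc := pcB1) (cut := cut_pm_012_a) (xt := Ext.none) (P1 := 0) (W1 := 536870912) (P2 := 0) (W2 := 536870912) (P3 := 780900216) (W3 := 37827925) (N0 := 3) (En := eng) (mo := mog) (C1 := cd0q0) (C2 := cd1q2a) (C3 := pd1)
    rfl s10_pm_012_a

noncomputable def cut_pm_012_b : Cut := Cut.of [[⟨0, 0, 0, 67108864⟩, ⟨1, 1, 0, 67108864⟩, ⟨2, 1, 0, 67108864⟩]]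

noncomputable def f_pm_012_b : ℕ → ℕ → ℕ → ℕ → Bool := onCell 0 536870912 1239849684 370763052 780900216 37827925
    (rowB 3 eng mog cd0q0 cd1q2b pd1 0 false true false .pnp 0 1 2 (qsf 0 536870912 1239849684 370763052 1) ndB0q0 ndB1q2b pcB1 cut_pm_012_b Ext.none)

def k0_pm_012_b : ∃ t, chk3 f_pm_012_b t 2 1 1 = true :=
  ⟨(a (l 2) (b (a (b (b (a (b (a (l 2) (l 16311160)) (l 2)) (b (a (l 16322840) (l 16334584)) (a (l 2) (l 16253896)))) (l 2)) (l 2)) (b (b (a (b (l 16394608) (l 16338600)) (b (l 16377648) (l 16305560))) (a (b (l 16258928) (l 2)) (b (l 16230832) (l 16153536)))) (a (l 2) (b (a (l 2) (l 16044832)) (l 2))))) (l 2))), by decide +kernel⟩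

def k1_pm_012_b : ∃ t, chk3 f_pm_012_b t 3 1 1 = true :=
  ⟨(b (a (b (a (b (a (b (l 16444744) (l 16335400)) (a (l 16493680) (l 16464304))) (a (b (l 16265592) (l 16193248)) (b (l 16301128) (l 16233576)))) (b (a (a (l 16456312) (l 16490944)) (a (l 16505032) (l 16519144))) (a (b (l 16334824) (l 16273928)) (l 16362200)))) (a (a (b (b (l 16118488) (l 16041416)) (l 2)) (b (b (l 16163760) (l 16091656)) (b (l 16017336) (l 15941000)))) (b (a (a (l 16165496) (l 16190056)) (b (l 16254808) (l 16194136))) (a (a (l 16023720) (l 16053936)) (b (l 16131624) (l 16066240)))))) (b (a (b (a (a (l 16575200) (b (l 16507456) (l 16460936))) (b (a (l 16520544) (l 16533600)) (l 16483576))) (a (c (l 16388680) (l 16366456)) (l 16434712))) (a (b (b (a (l 16546632) (l 16559888)) (l 16513696)) (l 16470672)) (b (b (a (l 16573632) (l 16587840)) (l 16544984)) (l 16507600)))) (a (a (b (l 16269456) (a (l 16140600) (l 16167256))) (b (l 16313632) (l 16206472))) (a (b (l 16357440) (l 16258328)) (b (l 16401928)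 (l 16310568)))))) (a (a (l 2) (b (b (a (a (l 15874480) (l 15909432)) (a (l 15944536) (l 15979456))) (a (l 2) (a (l 2) (l 15837336)))) (l 2))) (b (a (a (b (a (l 16014432) (l 16046608)) (a (l 15876784) (l 15916688))) (b (l 16093048) (a (l 15954752) (l 15990608)))) (a (b (l 16153232) (l 16042808)) (b (l 16213496) (l 16111384)))) (a (b (a (l 2) (a (l 15820992) (l 15865208))) (l 2)) (a (b (a (l 15906720) (l 15946568)) (b (l 15834848) (l 2))) (b (l 16004816) (l 75260928311))))))), by decide +kernel⟩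

theorem s2_pm_012_b : ∃ t, chk3 f_pm_012_b t 1 1 1 = true := ex3_a k0_pm_012_b k1_pm_012_b

theorem c_pm_012_b : CertB 0 536870912 1239849684 370763052 780900216 37827925 3 eng mog cd0q0 cd1q2b pd1 false true false .pnp 0 1 2
    ndB0q0 ndB1q2b pcB1 cut_pm_012_b Ext.none :=
  certB0 (fam := false) (s1 := true) (s2 := false) (a := 0) (b := 1) (c := 2) (cn := .pnp) (n1 := ndB0q0) (n2 := ndB1q2b) (pc := pcB1) (cut := cut_pm_012_b) (xt := Ext.none) (P1 := 0) (W1 := 536870912) (P2 := 1239849684) (W2 := 370763052) (P3 := 780900216) (W3 := 37827925) (N0 := 3) (En := eng) (mo := mog) (C1 := cd0q0) (C2 := cd1q2b) (C3 := pd1)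
    rfl s2_pm_012_b

noncomputable def cut_pm_022_a : Cut := Cut.of [[⟨0, 0, 0, 67108864⟩, ⟨1, 1, 0, 67108864⟩, ⟨2, 1, 0, 67108864⟩]]

noncomputable def f_pm_022_a : ℕ → ℕ → ℕ → ℕ → Bool := onCell 1073741824 536870912 0 536870912 780900216 37827925
    (rowB 3 eng mog cd0q0 cd1q2a pd2 2 false true false .pp 0 2 2 (qsf 0 536870912 0 536870912 2) ndB0q0 ndB1q2a pcB2 cut_pm_022_a Ext.none)

def k0_pm_022_a : ∃ t, chk3 f_pm_022_a t 4 2 1 = true :=
  ⟨(a (b (a (b (a (b (l 16352240) (l 16336496)) (l 16369392)) (a (b (l 16324728) (l 16317384)) (l 16348072))) (b (l 16399336) (a (l 16372096) (l 16393928)))) (a (b (a (b (l 16315112) (l 16318072)) (b (l 16343792) (l 16347936))) (a (b (a (l 16318744) (l 16334936)) (a (l 16333904) (l 16350616))) (b (l 16357960) (l 16395504)))) (b (a (l 16372696) (l 16397344)) (a (b (l 16386560) (l 16404552)) (b (l 16413568) (l 16433152)))))) (b (a (b (l 16433688) (l 16423784)) (b (l 16463696) (l 16459832))) (b (a (a (l 16420688) (l 16442896)) (l 16474240))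 (a (a (l 16512960) (l 16475640)) (a (l 16500008) (b (l 16496192) (l 162167915671))))))), by decide +kernel⟩

def k1_pm_022_a : ∃ t, chk3 f_pm_022_a t 4 6 1 = true :=
  ⟨(a (b (a (a (b (a (b (l 16349752) (l 16362944)) (l 16373624)) (a (b (l 16377536) (l 16393440)) (b (l 16395248) (l 16411432)))) (b (a (l 16390312) (l 16406464)) (b (l 16420840) (l 16458656)))) (a (b (l 16472008) (b (l 16453776) (l 16471584))) (b (l 16460472) (a (l 16487040) (l 16502936))))) (a (a (b (a (b (l 16411480) (l 16431800)) (b (l 16429848) (l 16450632))) (a (b (l 16454656) (l 16480224)) (b (l 16473968) (l 16500128)))) (b (a (b (l 16447848) (l 16469136)) (l 16476472)) (a (b (l 16493048) (l 16519744)) (b (l 16511840) (l 16539072))))) (a (b (a (l 16494208) (l 16511656)) (a (b (l 16530344) (l 16558104)) (b (l 16548544) (l 16576800)))) (b (a (l 16549776) (b (l 16533768) (l 16557552))) (b (l 16543776) (l 16583240)))))) (b (a (a (b (l 16510800) (a (l 16539488) (l 16533776))) (b (l 16517960) (b (l 16545760)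 (l 16560792)))) (a (b (l 121902652343) (a (a (l 16546664) (l 16510376)) (l 367789609879))) (b (l 537440804663) (l 1)))) (a (a (b (a (l 16562128) (l 16578264)) (b (a (l 16599672) (l 16590816)) (a (l 16605400) (l 321618854679)))) (a (b (l 136935142439) (b (l 315176369975) (l 1))) (b (b (l 16540512) (l 340409266295)) (l 1)))) (a (b (a (l 366715940743) (l 1)) (l 1)) (l 1))))), by decide +kernel⟩

def k2_pm_022_a : ∃ t, chk3 f_pm_022_a t 4 7 1 = true :=
  ⟨(a (b (a (b (a (b (a (l 16508800) (l 16529264)) (a (a (l 16533120) (l 16543712)) (l 16559456))) (a (b (l 16549432) (l 16580184)) (b (l 16569304) (l 16621560)))) (l 6)) (b (a (b (a (l 16609816) (l 16608056)) (a (l 16620656) (l 16640368))) (b (c (l 16581672) (l 16583072)) (a (l 16605064) (b (l 16603960) (l 325913874983))))) (a (l 6) (a (l 6) (a (l 6) (l 1)))))) (a (l 6) (a (l 6) (l 1)))) (b (a (b (a (b (a (b (l 16609448) (l 332356289719)) (l 472479604407)) (a (l 526166729223) (l 1))) (l 1)) (l 1)) (l 1)) (l 1))), by decide +kernel⟩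

def k3_pm_022_a : ∃ t, chk3 f_pm_022_a t 5 1 1 = true :=
  ⟨(b (a (b (a (a (l 16444656) (b (l 16416968) (l 16429368))) (b (l 1) (l 1))) (a (b (a (l 16464936) (l 546567316615)) (a (l 555157481463) (l 1))) (l 1))) (l 1)) (b (l 1) (l 1))), by decide +kernel⟩

def k4_pm_022_a : ∃ t, chk3 f_pm_022_a t 3 1 1 = true :=
  ⟨(l 1), by decide +kernel⟩

theorem s5_pm_022_a : ∃ t, chk3 f_pm_022_a t 4 3 1 = true := ex3_b k1_pm_022_a k2_pm_022_a

theorem s6_pm_022_a : ∃ t, chk3 f_pm_022_a t 4 1 1 = true := ex3_b k0_pm_022_a s5_pm_022_a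

theorem s7_pm_022_a : ∃ t, chk3 f_pm_022_a t 2 1 1 = true := ex3_a s6_pm_022_a k3_pm_022_a

theorem s8_pm_022_a : ∃ t, chk3 f_pm_022_a t 1 1 1 = true := ex3_a s7_pm_022_a k4_pm_022_a

theorem c_pm_022_a : CertB 0 536870912 0 536870912 780900216 37827925 3 eng mog cd0q0 cd1q2a pd2 false true false .pp 0 2 2
    ndB0q0 ndB1q2a pcB2 cut_pm_022_a Ext.none :=
  certB2 (fam := false) (s1 := true) (s2 := false) (a := 0) (b := 2) (c := 2) (cn := .pp) (n1 := ndB0q0) (n2 := ndB1q2a) (pc := pcB2) (cut := cut_pm_022_a) (xt := Ext.none) (P1 := 0) (W1 := 536870912) (P2 := 0) (W2 := 536870912) (P3 := 780900216) (W3 := 37827925) (N0 := 3) (En := eng) (mo := mog) (C1 := cd0q0) (C2 := cd1q2a) (C3 := pd2)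
    rfl (fun _ => rfl) s8_pm_022_a

noncomputable def cut_pm_022_b : Cut := Cut.of [[⟨0, 0, 0, 67108864⟩, ⟨1, 1, 0, 67108864⟩, ⟨2, 1, 0, 67108864⟩]]

noncomputable def f_pm_022_b : ℕ → ℕ → ℕ → ℕ → Bool := onCell 0 536870912 1073741824 536870912 780900216 37827925
    (rowB 3 eng mog cd0q0 cd1q2b pd2 1 false true false .pp 0 2 2 (qsf 0 536870912 1239849684 370763052 2) ndB0q0 ndB1q2b pcB2 cut_pm_022_b Ext.none)

def k0_pm_022_b : ∃ t, chk3 f_pm_022_b t 1 1 1 = true :=
  ⟨(b (a (a (b (a (b (l 1) (a (b (l 1) (l 415571069431)) (b (l 112776046871) (l 16459416)))) (b (a (b (l 1) (l 51035782903)) (b (b (l 1) (l 281352970535)) (a (l 16451496) (l 16385304)))) (a (b (l 16439240) (l 16379976)) (b (l 16353032) (l 16299976))))) (a (b (a (b (l 108480823063) (l 16352280)) (l 16514088)) (a (b (l 16130592) (l 16203544)) (l 16227256))) (b (b (l 16305912) (l 16243152)) (l 16316704)))) (b (a (a (b (b (a (l 16432616) (l 16342424)) (l 16318824)) (b (l 16270576) (l 16224328))) (b (b (l 16271872)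 (l 16232632)) (l 16257144))) (b (a (b (l 16185464) (l 16154232)) (b (l 16108344) (l 16085104))) (b (a (l 16123648) (l 16061880)) (l 16085800)))) (a (b (b (l 16273496) (l 16120136)) (l 16090872)) (b (b (l 16038336) (l 16026520)) (l 16022592))))) (a (b (a (b (a (b (l 16040008) (l 16024264)) (b (l 15981392) (l 15972872))) (b (l 16111696) (l 15973928))) (b (a (b (l 15933808) (l 15931808)) (b (l 15896416) (l 15900336))) (a (l 15929600) (l 15906968)))) (a (b (b (l 15963328) (l 15965792)) (l 15985456)) (b (b (l 15920680) (l 15936752)) (l 15977816)))) (b (a (b (a (c (l 15897856) (l 15848216)) (b (l 15848608) (l 15863880))) (c (l 15910648) (l 15868512))) (b (a (l 15849232) (l 15851888)) (b (l 15884224) (l 2)))) (b (a (l 15925928) (l 2)) (l 2))))) (a (b (a (a (b (b (l 16130776) (l 16067376)) (b (l 16008560) (l 15954112))) (b (l 16078744) (l 15979160))) (a (b (l 16042024) (l 15972136)) (b (l 16009616) (l 15975848)))) (a (b (a (l 15943728) (l 15897192)) (a (l 15799016) (l 15832672)))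 (b (a (l 15911720) (l 2)) (l 2)))) (b (a (a (l 16092368) (l 2)) (l 2)) (l 2)))), by decide +kernel⟩

theorem c_pm_022_b : CertB 0 536870912 1239849684 370763052 780900216 37827925 3 eng mog cd0q0 cd1q2b pd2 false true false .pp 0 2 2
    ndB0q0 ndB1q2b pcB2 cut_pm_022_b Ext.none :=
  certB1 (fam := false) (s1 := true) (s2 := false) (a := 0) (b := 2) (c := 2) (cn := .pp) (n1 := ndB0q0) (n2 := ndB1q2b) (pc := pcB2) (cut := cut_pm_022_b) (xt := Ext.none) (P1 := 0) (W1 := 536870912) (P2 := 1239849684) (W2 := 370763052) (P3 := 780900216) (W3 := 37827925) (N0 := 3) (En := eng) (mo := mog) (C1 := cd0q0) (C2 := cd1q2b) (C3 := pd2)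
    rfl (fun _ => rfl) k0_pm_022_b

noncomputable def f_pm_023 : ℕ → ℕ → ℕ → ℕ → Bool := onCell 0 536870912 1073741824 536870912 780900216 37827925
    (rowB 3 eng mog cd0q0 cd1q3 pd2 1 false true false .up 0 2 3 (qsf 0 536870912 1610612736 536870912 2) ndB0q0 ndB1q3 pcB2 Cut.none Ext.none)

def k0_pm_023 : ∃ t, chk3 f_pm_023 t 1 1 1 = true :=
  ⟨(b (a (a (l 1) (b (l 1) (a (l 1) (b (l 1) (l 16033968))))) (b (a (a (l 1) (b (l 1) (l 296385020375))) (a (b (l 371546792263) (l 107943180727)) (b (a (l 15853088) (l 15851840)) (l 15896080)))) (a (b (a (l 321618135607) (l 349535300967)) (a (l 15994416) (l 15981928))) (b (a (l 15929240) (l 15953392)) (a (l 15993928) (l 16042496)))))) (a (b (a (b (l 1) (l 398390448791)) (a (l 240013811527) (l 256119916231))) (a (b (a (l 15894680) (l 15895024)) (a (l 15798624) (l 15838688))) (a (b (l 15918288) (l 15881856)) (l 16075328)))) (b (a (a (l 16004136) (l 16035320)) (a (l 16089520) (l 16171376))) (a (b (l 16000472) (l 16052320)) (b (l 16265056)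 (l 16281464)))))), by decide +kernel⟩

theorem c_pm_023 : CertB 0 536870912 1610612736 536870912 780900216 37827925 3 eng mog cd0q0 cd1q3 pd2 false true false .up 0 2 3
    ndB0q0 ndB1q3 pcB2 Cut.none Ext.none :=
  certB1 (fam := false) (s1 := true) (s2 := false) (a := 0) (b := 2) (c := 3) (cn := .up) (n1 := ndB0q0) (n2 := ndB1q3) (pc := pcB2) (cut := Cut.none) (xt := Ext.none) (P1 := 0) (W1 := 536870912) (P2 := 1610612736) (W2 := 536870912) (P3 := 780900216) (W3 := 37827925) (N0 := 3) (En := eng) (mo := mog) (C1 := cd0q0) (C2 := cd1q3) (C3 := pd2)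
    rfl (fun _ => rfl) k0_pm_023

noncomputable def f_pm_033 : ℕ → ℕ → ℕ → ℕ → Bool := onCell 1610612736 536870912 1610612736 536870912 780900216 37827925
    (rowB 3 eng mog cd0q0 cd1q3 pd3 2 false true false .pnn 0 3 3 (qsf 0 536870912 1610612736 536870912 3) ndB0q0 ndB1q3 pcB3 Cut.none Ext.none)

def k0_pm_033 : ∃ t, chk3 f_pm_033 t 1 1 1 = true :=
  ⟨(a (b (a (b (a (b (l 416643725495) (l 15776760)) (a (l 489121186487) (l 4))) (a (b (l 15840784) (l 15902504)) (b (l 97943855639) (l 15838696)))) (l 4)) (a (b (a (b (l 16013000) (l 16195632)) (b (l 15934864) (l 16127664))) (a (b (l 16346680) (l 16464872)) (b (l 16279160) (l 16407256)))) (a (a (b (l 15989744) (l 16302536)) (b (l 4) (l 16273032))) (l 4)))) (l 4)), by decide +kernel⟩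

theorem c_pm_033 : CertB 0 536870912 1610612736 536870912 780900216 37827925 3 eng mog cd0q0 cd1q3 pd3 false true false .pnn 0 3 3
    ndB0q0 ndB1q3 pcB3 Cut.none Ext.none :=
  certB2 (fam := false) (s1 := true) (s2 := false) (a := 0) (b := 3) (c := 3) (cn := .pnn) (n1 := ndB0q0) (n2 := ndB1q3) (pc := pcB3) (cut := Cut.none) (xt := Ext.none) (P1 := 0) (W1 := 536870912) (P2 := 1610612736) (W2 := 536870912) (P3 := 780900216) (W3 := 37827925) (N0 := 3) (En := eng) (mo := mog) (C1 := cd0q0) (C2 := cd1q3) (C3 := pd3)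
    rfl (fun _ => rfl) k0_pm_033

noncomputable def f_pm_101 : ℕ → ℕ → ℕ → ℕ → Bool := onCell 0 536870912 536870912 536870912 780900216 37827925
    (rowB 3 eng mog cd0q1 cd1q1 pd0 2 false true false .npn 1 0 1 (qsf 536870912 536870912 536870912 536870912 0) ndB0q1 ndB1q1 pcB0 Cut.none Ext.none)

def k0_pm_101 : ∃ t, chk3 f_pm_101 t 2 1 1 = true :=
  ⟨(b (a (b (l 4) (b (l 4) (a (a (b (l 10972110023) (l 16389504)) (b (l 16623536) (l 16480688))) (b (l 4) (a (l 10972069527) (l 16554160)))))) (l 4)) (a (b (a (b (a (b (l 16375080) (l 16380320)) (b (l 16369400) (l 16361848))) (a (b (l 16398096) (l 16429176)) (b (l 16372656) (l 16395040)))) (b (a (b (l 16365576) (l 16347248)) (b (l 16533200) (l 16334344))) (a (b (l 16345224) (l 16360768)) (b (l 16321720) (l 16324256))))) (b (a (b (a (b (l 16459032) (a (l 16484784) (l 16470592))) (b (l 16419936) (l 16444528))) (a (a (l 16497376) (l 16479872)) (b (l 16447008) (l 16459880)))) (b (a (l 16387256) (l 16344064)) (a (b (l 16411160) (l 16421528))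 (b (l 16370872) (l 16373400))))) (a (b (a (b (l 16505280) (l 16522352)) (a (l 16485096) (l 16465040))) (a (b (l 16544024) (l 16567056)) (b (l 16500560) (l 16523600)))) (a (b (l 16437880) (b (l 16456600) (l 16476864))) (b (l 16394048) (l 16423368)))))) (a (b (b (a (b (l 23856357079) (l 16321560)) (b (l 16382776) (l 16291512))) (b (a (l 16299560) (l 16276744)) (a (l 16291528) (l 16259568)))) (b (b (a (l 16298112) (l 16255648)) (a (b (l 16314440) (l 16328040)) (a (l 16285200) (l 16252952)))) (b (a (l 16343632) (b (l 16277968) (l 16293608))) (a (l 16372304) (a (l 16330216) (l 16299240)))))) (b (b (b (l 4) (a (l 16309872) (l 4))) (a (b (l 16252008) (l 16225800)) (b (l 16231168) (l 16188528)))) (b (a (a (l 16204312) (l 16201320)) (b (l 16167720) (l 16160648))) (a (b (a (l 16214192) (l 16206840)) (a (l 16266264) (l 16232432))) (b (b (l 16167816) (l 16164880)) (l 16187656)))))))), by decide +kernel⟩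

def k1_pm_101 : ∃ t, chk3 f_pm_101 t 3 1 1 = true :=
  ⟨(b (l 4) (a (b (b (l 4) (a (a (b (l 16251856) (l 16186480)) (b (l 4) (l 16212608))) (b (l 4) (a (l 16252264) (l 4))))) (a (b (a (b (l 16154208) (l 16131096)) (b (l 16160696) (l 16125144))) (a (b (b (l 16121504) (l 16122096)) (l 16130904)) (b (l 16105080) (a (l 16101816) (l 16085080))))) (b (a (l 16269560) (b (l 16233608) (l 16149464))) (b (a (l 16091688) (l 16099408)) (a (b (l 16073784) (l 16066752)) (b (l 16072320) (l 16055832))))))) (b (l 4) (a (b (a (b (l 16276528) (l 16178816)) (b (l 4) (l 16217984))) (b (a (l 16119160) (l 16149768)) (a (l 16073408) (l 16095640)))) (b (b (l 1) (a (l 16304384) (l 1))) (b (a (l 16187520) (l 16270872)) (a (l 16127208) (l 16163824)))))))), by decide +kernel⟩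

theorem s2_pm_101 : ∃ t, chk3 f_pm_101 t 1 1 1 = true := ex3_a k0_pm_101 k1_pm_101

theorem c_pm_101 : CertB 536870912 536870912 536870912 536870912 780900216 37827925 3 eng mog cd0q1 cd1q1 pd0 false true false .npn 1 0 1
    ndB0q1 ndB1q1 pcB0 Cut.none Ext.none :=
  certB2 (fam := false) (s1 := true) (s2 := false) (a := 1) (b := 0) (c := 1) (cn := .npn) (n1 := ndB0q1) (n2 := ndB1q1) (pc := pcB0) (cut := Cut.none) (xt := Ext.none) (P1 := 536870912) (W1 := 536870912) (P2 := 536870912) (W2 := 536870912) (P3 := 780900216) (W3 := 37827925) (N0 := 3) (En := eng) (mo := mog) (C1 := cd0q1) (C2 := cd1q1) (C3 := pd0)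
    rfl (fun _ => rfl) s2_pm_101

end Pool.Agent.Strip051.G.I72727_7625.Tab.C.BB01

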