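import Pool.Agent.Strip051.G.I72727_7625.Tab

/-! # Certificates B14 (generated) -/

set_option linter.all false
set_option maxRecDepth 100000

namespace Pool.Agent.Strip051.G.I72727_7625.Tab.C.BB13

open Pool.Agent.Strip051.PB Pool.Agent.Strip051.PB.T
open Pool.Agent.Strip051.G.I72727_7625.Tab

noncomputable def f_pp_022 : ℕ → ℕ → ℕ → ℕ → Bool := onCell 0 536870912 1073741824 536870912 780900216 37827925
    (rowB 3 eng mog cd1q0 cd3q2 pd2 1 false true true .pp 0 2 2 (qsf 0 536870912 1073741824 536870912 2) ndB1q0 ndB3q2 pcB2 Cut.none Ext.none)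

def k0_pp_022 : ∃ t, chk3 f_pp_022 t 1 4 1 = true :=
  ⟨(b (a (a (l 3) (b (l 3) (a (l 3) (b (l 3) (a (l 3) (l 16461768)))))) (a (b (l 3) (a (b (l 3) (a (l 16436840) (l 16416016))) (b (l 195588238327) (a (l 16395328) (l 16377128))))) (b (a (l 3) (b (l 3) (l 16328352))) (a (b (l 16394960) (l 16354080)) (b (l 16331920) (l 16335240)))))) (a (b (b (a (a (l 3) (a (l 3) (l 16583240))) (a (a (l 16539552) (l 16514376)) (a (l 16490872) (l 16465392)))) (b (a (a (l 3) (l 170892391271)) (a (a (l 16541104) (l 16517232)) (l 16481016))) (a (a (a (a (l 3) (l 16553560)) (a (l 16550288) (l 16545872))) (a (l 16538616) (l 16529960))) (a (a (l 16523760) (l 16520080)) (l 16487232))))) (a (a (a (b (a (b (a (l 16541488) (l 16523816)) (a (l 16527968) (l 16491360))) (b (l 16522304) (b (l 16497768) (l 16482024)))) (b (a (b (l 16467128) (l 16450176)) (l 16457728)) (a (a (l 16446144) (l 16425400)) (l 16425872)))) (b (b (l 16495960) (a (l 16508896) (l 16486144))) (b (l 16477848)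 (l 16427160)))) (b (a (b (l 16510552) (l 16483432)) (b (l 16505168) (l 16480712))) (a (b (l 16456160) (l 16429336)) (b (l 16456280) (l 16433240))))) (a (b (a (l 16490856) (l 16491800)) (a (l 16449448) (l 16456504))) (b (a (l 16494904) (l 16476440)) (l 16466384))))) (a (b (a (b (a (l 16442056) (l 16421832)) (l 16504392)) (b (l 16394472) (l 16402392))) (a (l 16606512) (l 16400456))) (b (a (b (l 16362344) (l 16370392)) (l 16346048)) (a (l 16371368) (l 2)))))), by decide +kernel⟩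

def k1_pp_022 : ∃ t, chk3 f_pp_022 t 2 5 1 = true :=
  ⟨(a (b (a (b (b (a (b (a (a (l 16392504) (l 16393432)) (l 16394952)) (a (a (l 16397584) (l 16362776)) (l 16408224))) (b (l 16398640) (l 16374352))) (b (a (a (a (b (l 16340464) (l 16331624)) (l 16339968)) (l 16345464)) (l 16355696)) (a (a (b (a (l 16324328) (l 16328096)) (b (a (l 16320960) (l 16324576)) (a (c (b (c (l 16352768) (l 16324600)) (l 16326928)) (l 16312192)) (l 16322888)))) (b (l 16333552) (b (l 16329824) (l 16327944)))) (b (l 16343776) (a (l 16335112) (l 16341280)))))) (a (a (c (a (b (l 16300608) (l 16253008)) (l 16301424)) (b (l 16288848) (l 16242136))) (b (l 16303136) (a (l 16255568) (l 16260136)))) (a (b (l 16310352) (l 16266824)) (l 16296016)))) (b (b (a (b (l 16405216) (l 16385272)) (l 16404312)) (b (a (l 16367640) (l 16378216)) (a (b (l 16355800) (l 16349744)) (l 16447600)))) (a (a (l 16303312) (l 16310176)) (l 16299320)))) (a (a (b (a (b (a (c (l 16207944) (l 16194624)) (l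 16259096)) (b (a (l 16210744) (l 16175016)) (c (l 16157728) (l 16145688)))) (b (l 16235880) (l 16216160))) (a (c (b (a (l 16124080) (l 16130688)) (a (l 16085456) (l 16092936))) (b (a (l 16112704) (l 16120608)) (l 16079752))) (c (b (l 16140472) (l 16103960)) (l 16156200)))) (b (a (b (l 16225544) (l 16186480)) (l 16300688)) (c (l 16267760) (l 16180056)))) (b (a (c (l 16233344) (l 16233232)) (l 16273696)) (a (l 16271576) (l 16192976))))) (b (b (a (b (a (l 16413560) (l 16424016)) (b (l 16395456) (a (l 16353368) (l 16386320)))) (b (l 16438728) (b (l 16418256) (l 16403920)))) (a (a (l 16334152) (l 16349528)) (l 16372720))) (a (a (b (l 16273232) (l 16219616)) (b (l 16295384) (l 16247952))) (b (l 16329320) (l 16291528))))), by decide +kernel⟩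

def k2_pp_022 : ∃ t, chk3 f_pp_022 t 3 5 1 = true :=
  ⟨(b (a (b (a (b (l 16424984) (l 16405808)) (b (l 16393040) (l 16379288))) (a (l 16382344) (l 16366456))) (b (b (l 16361360) (l 2)) (l 2))) (a (a (l 16341816) (l 16341792)) (l 2))), by decide +kernel⟩

def k3_pp_022 : ∃ t, chk3 f_pp_022 t 1 3 1 = true :=
  ⟨(a (b (a (a (b (a (b (a (c (b (a (l 16049416) (l 16057664)) (a (l 16015720) (l 16024664))) (b (l 16044864) (l 16012152))) (c (l 16137440) (l 16047408))) (c (a (a (b (l 15984344) (l 15955504)) (l 16021672)) (l 15994744)) (a (c (l 15967952) (l 15966680)) (l 15988480)))) (b (c (l 16120288) (l 16075264)) (c (l 16024176) (l 16019728)))) (a (c (b (a (c (b (l 15939024) (l 15916184)) (l 15919104)) (l 15945696)) (a (c (l 15886784) (l 15875480)) (l 15906136))) (b (b (l 15979512) (l 15912904)) (a (l 15866232) (l 15891712)))) (b (c (l 15979368) (l 15971056)) (c (l 15943632) (l 15928928))))) (b (a (b (l 16213800) (l 16101032)) (b (l 16140888) (l 16096256)))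 (a (b (l 16016904) (l 15982096)) (b (l 16058832) (l 16028320))))) (b (a (c (a (l 16153280) (l 16190120)) (a (l 16154456) (l 16190480))) (b (l 16259368) (l 16232712))) (a (a (l 16296616) (l 16132664)) (l 16223432)))) (a (a (b (a (c (b (a (c (l 15856336) (l 15840592)) (l 15875704)) (b (l 15886000) (l 15834832))) (b (a (l 15826064) (l 15853272)) (a (l 15792288) (l 15821032)))) (b (c (l 15916624) (l 15893048)) (a (l 15863640) (l 15891920)))) (a (b (a (c (l 15808880) (l 15764528)) (l 15835528)) (a (c (l 15801712) (l 15742368)) (l 15800936))) (b (a (l 15844992) (l 15874840)) (c (l 15883712) (l 15819296))))) (b (a (b (l 15954336) (l 15933256)) (b (l 16004400) (l 15986688))) (a (b (l 15918440) (l 2)) (l 2)))) (b (a (a (l 16046336) (l 2)) (l 2)) (l 2)))) (b (a (b (a (l 16301360) (l 2)) (l 2)) (l 2)) (l 2))), by decide +kernel⟩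

theorem s4_pp_022 : ∃ t, chk3 f_pp_022 t 1 5 1 = true := ex3_a k1_pp_022 k2_pp_022

theorem s5_pp_022 : ∃ t, chk3 f_pp_022 t 1 2 1 = true := ex3_b k0_pp_022 s4_pp_022

theorem s6_pp_022 : ∃ t, chk3 f_pp_022 t 1 1 1 = true := ex3_b s5_pp_022 k3_pp_022

theorem c_pp_022 : CertB 0 536870912 1073741824 536870912 780900216 37827925 3 eng mog cd1q0 cd3q2 pd2 false true true .pp 0 2 2
    ndB1q0 ndB3q2 pcB2 Cut.none Ext.none :=
  certB1 (fam := false) (s1 := true) (s2 := true) (a := 0) (b := 2) (c := 2) (cn := .pp) (n1 := ndB1q0) (n2 := ndB3q2) (pc := pcB2) (cut := Cut.none) (xt := Ext.none) (P1 := 0) (W1 := 536870912) (P2 := 1073741824) (W2 := 536870912) (P3 := 780900216) (W3 := 37827925) (N0 := 3) (En := eng) (mo := mog) (C1 := cd1q0) (C2 := cd3q2) (C3 := pd2)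
    rfl (fun _ => rfl) s6_pp_022

noncomputable def f_pp_023 : ℕ → ℕ → ℕ → ℕ → Bool := onCell 1073741824 536870912 0 1230186008 780900216 37827925
    (rowB 3 eng mog cd1q0 cd3q3 pd2 2 false true true .up 0 2 3 (qsf 0 536870912 0 1230186008 2) ndB1q0 ndB3q3 pcB2 Cut.none Ext.none)

def k0_pp_023 : ∃ t, chk3 f_pp_023 t 1 1 1 = true :=
  ⟨(b (a (l 2) (a (l 2) (b (l 16519672) (l 16499048)))) (b (a (b (l 2) (a (l 2) (a (l 2) (b (l 2) (l 16403752))))) (b (a (l 16453296) (l 16429456)) (a (b (l 16199152) (l 16282896)) (b (l 16344880) (l 16299632))))) (a (a (b (l 2) (a (b (l 2) (a (b (l 2) (l 235316468983)) (b (l 16328744) (l 16333096)))) (b (a (l 16342696) (l 16352240)) (a (l 16328680) (l 16364888))))) (b (a (b (a (l 2) (l 16377840)) (a (a (l 16362000) (l 16360936)) (l 16364944))) (b (l 16387216) (l 16370392))) (a (a (b (a (l 16358808) (l 16356464)) (a (l 16371056) (l 16366112))) (b (l 16358400) (l 16363176))) (b (l 16354912) (l 16348064))))) (b (a (b (a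 (l 16364120) (l 16310888)) (l 16314048)) (b (a (l 16285248) (l 16204416)) (a (l 16226952) (b (l 16141928) (l 16093376))))) (a (b (a (l 16319712) (l 16252728)) (a (b (l 16296320) (l 16263368)) (b (l 16191152) (a (l 16170472) (l 16101856))))) (b (a (b (l 16165952) (l 16115504)) (b (l 16040192) (l 15985024))) (a (b (a (l 16091816) (l 16024688)) (a (l 16033072) (l 15963888))) (b (a (l 15957752) (l 15889848)) (a (b (l 15910320) (l 15876488)) (b (l 15839504) (a (l 15821760) (l 15784888)))))))))))), by decide +kernel⟩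

theorem c_pp_023 : CertB 0 536870912 0 1230186008 780900216 37827925 3 eng mog cd1q0 cd3q3 pd2 false true true .up 0 2 3
    ndB1q0 ndB3q3 pcB2 Cut.none Ext.none :=
  certB2 (fam := false) (s1 := true) (s2 := true) (a := 0) (b := 2) (c := 3) (cn := .up) (n1 := ndB1q0) (n2 := ndB3q3) (pc := pcB2) (cut := Cut.none) (xt := Ext.none) (P1 := 0) (W1 := 536870912) (P2 := 0) (W2 := 1230186008) (P3 := 780900216) (W3 := 37827925) (N0 := 3) (En := eng) (mo := mog) (C1 := cd1q0) (C2 := cd3q3) (C3 := pd2)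
    rfl (fun _ => rfl) k0_pp_023

noncomputable def f_pp_033 : ℕ → ℕ → ℕ → ℕ → Bool := onCell 1610612736 536870912 0 1230186008 780900216 37827925
    (rowB 3 eng mog cd1q0 cd3q3 pd3 2 false true true .pnn 0 3 3 (qsf 0 536870912 0 1230186008 3) ndB1q0 ndB3q3 pcB3 Cut.none Ext.none)

def k0_pp_033 : ∃ t, chk3 f_pp_033 t 1 1 1 = true :=
  ⟨(b (b (a (a (l 16504416) (l 16474448)) (l 4)) (a (a (a (l 16499152) (l 16422200)) (a (l 16346760) (l 16267120))) (a (a (l 81300673351) (l 4)) (l 4)))) (b (a (b (a (a (l 16388648) (l 16287704)) (a (l 16187768) (l 16095496))) (a (b (a (l 16282832) (l 16167000)) (a (l 16201216) (l 16071488))) (a (b (l 16059368) (l 15958928)) (b (l 15972864) (a (l 15891320) (l 15854120)))))) (b (a (a (a (l 16034104) (l 15997024)) (a (l 15963120) (l 4))) (a (l 4) (l 1))) (a (a (b (b (l 15921560) (l 15877400)) (a (l 15820520) (l 631391721495))) (b (a (l 713533657511) (l 1)) (l 1))) (l 1)))) (a (b (a (b (a (b (l 16130280) (l 16078816))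 (b (l 15996128) (l 15944464))) (a (a (l 16032408) (l 15962360)) (a (l 15894808) (b (l 15857632) (l 15799176))))) (a (b (b (l 15879648) (l 15823456)) (a (b (l 15794256) (l 295310733991)) (l 522407123575))) (b (b (l 277594083207) (a (l 15740752) (l 1))) (l 1)))) (a (b (a (b (a (l 15946304) (l 15876464)) (a (l 15884168) (b (l 15829472) (l 15895872)))) (b (a (b (l 15821896) (l 15790736)) (b (l 15794544) (l 305511292759))) (a (b (a (l 15776032) (l 316785588615)) (a (l 333965421927) (l 359198307559))) (b (a (l 465498755927) (l 1)) (l 1))))) (a (c (b (a (l 15861112) (b (l 324838616423) (l 323764710039))) (a (b (l 318396147959) (l 321617214599)) (b (l 331280829207) (l 1)))) (b (a (b (l 15797336) (l 15764544)) (b (l 311953497303) (l 315711516823))) (a (b (l 303900433975) (l 308732159783)) (b (l 319469485207) (l 1))))) (b (a (b (a (l 349534611719) (l 1)) (l 1)) (l 1)) (l 1)))) (b (a (b (a (b (l 492879131479) (l 1)) (l 1)) (l 1)) (l 1)) (l 1)))) (l 1)))), by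 decide +kernel⟩

theorem c_pp_033 : CertB 0 536870912 0 1230186008 780900216 37827925 3 eng mog cd1q0 cd3q3 pd3 false true true .pnn 0 3 3
    ndB1q0 ndB3q3 pcB3 Cut.none Ext.none :=
  certB2 (fam := false) (s1 := true) (s2 := true) (a := 0) (b := 3) (c := 3) (cn := .pnn) (n1 := ndB1q0) (n2 := ndB3q3) (pc := pcB3) (cut := Cut.none) (xt := Ext.none) (P1 := 0) (W1 := 536870912) (P2 := 0) (W2 := 1230186008) (P3 := 780900216) (W3 := 37827925) (N0 := 3) (En := eng) (mo := mog) (C1 := cd1q0) (C2 := cd3q3) (C3 := pd3)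
    rfl (fun _ => rfl) k0_pp_033

noncomputable def f_pp_101 : ℕ → ℕ → ℕ → ℕ → Bool := onCell 536870912 536870912 536870912 536870912 780900216 37827925
    (rowB 3 eng mog cd1q1 cd3q1 pd0 0 false true true .npn 1 0 1 (qsf 536870912 536870912 536870912 536870912 0) ndB1q1 ndB3q1 pcB0 Cut.none Ext.none)

def k0_pp_101 : ∃ t, chk3 f_pp_101 t 1 1 1 = true :=
  ⟨(l 3), by decide +kernel⟩

theorem c_pp_101 : CertB 536870912 536870912 536870912 536870912 780900216 37827925 3 eng mog cd1q1 cd3q1 pd0 false true true .npn 1 0 1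
    ndB1q1 ndB3q1 pcB0 Cut.none Ext.none :=
  certB0 (fam := false) (s1 := true) (s2 := true) (a := 1) (b := 0) (c := 1) (cn := .npn) (n1 := ndB1q1) (n2 := ndB3q1) (pc := pcB0) (cut := Cut.none) (xt := Ext.none) (P1 := 536870912) (W1 := 536870912) (P2 := 536870912) (W2 := 536870912) (P3 := 780900216) (W3 := 37827925) (N0 := 3) (En := eng) (mo := mog) (C1 := cd1q1) (C2 := cd3q1) (C3 := pd0)
    rfl k0_pp_101

noncomputable def f_pp_102 : ℕ → ℕ → ℕ → ℕ → Bool := onCell 536870912 536870912 0 536870912 780900216 37827925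
    (rowB 3 eng mog cd1q1 cd3q2 pd0 1 false true true .npp 1 0 2 (qsf 536870912 536870912 1073741824 536870912 0) ndB1q1 ndB3q2 pcB0 Cut.none Ext.none)

def k0_pp_102 : ∃ t, chk3 f_pp_102 t 1 1 1 = true :=
  ⟨(l 3), by decide +kernel⟩

theorem c_pp_102 : CertB 536870912 536870912 1073741824 536870912 780900216 37827925 3 eng mog cd1q1 cd3q2 pd0 false true true .npp 1 0 2
    ndB1q1 ndB3q2 pcB0 Cut.none Ext.none :=
  certB1 (fam := false) (s1 := true) (s2 := true) (a := 1) (b := 0) (c := 2) (cn := .npp) (n1 := ndB1q1) (n2 := ndB3q2) (pc := pcB0) (cut := Cut.none) (xt := Ext.none) (P1 := 536870912) (W1 := 536870912) (P2 := 1073741824) (W2 := 536870912) (P3 := 780900216) (W3 := 37827925) (N0 := 3) (En := eng) (mo := mog) (C1 := cd1q1) (C2 := cd3q2) (C3 := pd0)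
    rfl (fun _ => rfl) k0_pp_102

noncomputable def f_pp_112 : ℕ → ℕ → ℕ → ℕ → Bool := onCell 536870912 536870912 1073741824 536870912 780900216 37827925
    (rowB 3 eng mog cd1q1 cd3q2 pd1 2 false true true .dn 1 1 2 (qsf 536870912 536870912 1073741824 536870912 1) ndB1q1 ndB3q2 pcB1 Cut.none Ext.none)

def k0_pp_112 : ∃ t, chk3 f_pp_112 t 1 1 1 = true :=
  ⟨(a (l 3) (l 3)), by decide +kernel⟩

theorem c_pp_112 : CertB 536870912 536870912 1073741824 536870912 780900216 37827925 3 eng mog cd1q1 cd3q2 pd1 false true true .dn 1 1 2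
    ndB1q1 ndB3q2 pcB1 Cut.none Ext.none :=
  certB2 (fam := false) (s1 := true) (s2 := true) (a := 1) (b := 1) (c := 2) (cn := .dn) (n1 := ndB1q1) (n2 := ndB3q2) (pc := pcB1) (cut := Cut.none) (xt := Ext.none) (P1 := 536870912) (W1 := 536870912) (P2 := 1073741824) (W2 := 536870912) (P3 := 780900216) (W3 := 37827925) (N0 := 3) (En := eng) (mo := mog) (C1 := cd1q1) (C2 := cd3q2) (C3 := pd1)
    rfl (fun _ => rfl) k0_pp_112

noncomputable def f_pp_113 : ℕ → ℕ → ℕ → ℕ → Bool := onCell 536870912 536870912 0 1230186008 780900216 37827925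
    (rowB 3 eng mog cd1q1 cd3q3 pd1 2 false true true .nn 1 1 3 (qsf 536870912 536870912 0 1230186008 1) ndB1q1 ndB3q3 pcB1 Cut.none Ext.none)

def k0_pp_113 : ∃ t, chk3 f_pp_113 t 1 1 1 = true :=
  ⟨(b (a (l 2) (a (l 2) (b (a (l 2) (a (l 2) (l 16766736))) (a (l 3) (a (b (l 16747824) (l 326048221031)) (b (l 16814624) (l 16872216))))))) (b (a (l 3) (a (l 3) (a (l 3) (a (b (l 492478258519) (l 3)) (b (l 16811976) (b (b (l 16900568) (l 16898256)) (a (l 406042312599) (l 16817504)))))))) (a (b (l 3) (l 3)) (a (l 3) (b (a (l 3) (a (l 3) (b (b (l 16770832) (l 16651112)) (l 149954359623)))) (l 3)))))), by decide +kernel⟩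

theorem c_pp_113 : CertB 536870912 536870912 0 1230186008 780900216 37827925 3 eng mog cd1q1 cd3q3 pd1 false true true .nn 1 1 3
    ndB1q1 ndB3q3 pcB1 Cut.none Ext.none :=
  certB2 (fam := false) (s1 := true) (s2 := true) (a := 1) (b := 1) (c := 3) (cn := .nn) (n1 := ndB1q1) (n2 := ndB3q3) (pc := pcB1) (cut := Cut.none) (xt := Ext.none) (P1 := 536870912) (W1 := 536870912) (P2 := 0) (W2 := 1230186008) (P3 := 780900216) (W3 := 37827925) (N0 := 3) (En := eng) (mo := mog) (C1 := cd1q1) (C2 := cd3q3) (C3 := pd1)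
    rfl (fun _ => rfl) k0_pp_113

noncomputable def f_pp_123 : ℕ → ℕ → ℕ → ℕ → Bool := onCell 1073741824 536870912 0 1230186008 780900216 37827925
    (rowB 3 eng mog cd1q1 cd3q3 pd2 2 false true true .npn 1 2 3 (qsf 536870912 536870912 0 1230186008 2) ndB1q1 ndB3q3 pcB2 Cut.none Ext.none)

def k0_pp_123 : ∃ t, chk3 f_pp_123 t 1 1 1 = true :=
  ⟨(b (a (a (a (b (l 16655712) (b (l 16695992) (l 16732368))) (b (l 16587264) (b (a (l 16621208) (l 16582520)) (l 16765024)))) (b (l 16559424) (a (b (l 16565400) (a (a (l 16575616) (l 16570224)) (l 16557024))) (l 16502928)))) (a (b (l 16552664) (l 16538064)) (b (l 16562544) (l 16546280)))) (b (a (b (a (a (l 16863576) (a (l 16663168) (l 16604240))) (a (a (a (l 16576632) (l 16563920)) (l 16546072)) (l 16523056))) (a (a (b (b (l 16763568) (l 16760664)) (a (l 16763376) (l 16641904))) (b (a (l 16660728) (l 16591984)) (a (l 16549992) (l 16492728)))) (a (b (a (a (l 16548672) (l 16528016)) (l 16505904)) (a (a (l 16470608)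 (l 16459240)) (l 16451344))) (b (l 16485328) (l 16452640))))) (b (a (l 16440744) (l 16526448)) (a (b (a (l 16477440) (l 16476816)) (l 16327176)) (l 1)))) (a (a (b (a (b (b (l 16570016) (l 16539144)) (a (l 93582892855) (l 16400688))) (b (a (l 16449496) (l 16423696)) (a (l 16387856) (l 16384800)))) (a (b (a (b (l 16371008) (l 16344720)) (l 16351688)) (a (b (l 16329776) (l 234242715031)) (b (l 16339040) (l 16338944)))) (b (a (l 16360272) (l 16373112)) (a (l 16361448) (l 1))))) (b (a (b (a (a (l 16417496) (l 16413304)) (l 16415872)) (a (a (l 16389848) (l 16390560)) (l 16400376))) (b (l 16434632) (l 1))) (a (a (b (a (l 16385536) (l 1)) (l 1)) (l 1)) (l 1)))) (l 1)))), by decide +kernel⟩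

theorem c_pp_123 : CertB 536870912 536870912 0 1230186008 780900216 37827925 3 eng mog cd1q1 cd3q3 pd2 false true true .npn 1 2 3
    ndB1q1 ndB3q3 pcB2 Cut.none Ext.none :=
  certB2 (fam := false) (s1 := true) (s2 := true) (a := 1) (b := 2) (c := 3) (cn := .npn) (n1 := ndB1q1) (n2 := ndB3q3) (pc := pcB2) (cut := Cut.none) (xt := Ext.none) (P1 := 536870912) (W1 := 536870912) (P2 := 0) (W2 := 1230186008) (P3 := 780900216) (W3 := 37827925) (N0 := 3) (En := eng) (mo := mog) (C1 := cd1q1) (C2 := cd3q3) (C3 := pd2)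
    rfl (fun _ => rfl) k0_pp_123

noncomputable def f_pp_133 : ℕ → ℕ → ℕ → ℕ → Bool := onCell 1610612736 536870912 0 1230186008 780900216 37827925
    (rowB 3 eng mog cd1q1 cd3q3 pd3 2 false true true .dn 1 3 3 (qsf 536870912 536870912 0 1230186008 3) ndB1q1 ndB3q3 pcB3 Cut.none Ext.none)

def k0_pp_133 : ∃ t, chk3 f_pp_133 t 1 1 1 = true :=
  ⟨(b (b (a (a (l 16588872) (l 1)) (l 1)) (l 1)) (l 1)), by decide +kernel⟩

theorem c_pp_133 : CertB 536870912 536870912 0 1230186008 780900216 37827925 3 eng mog cd1q1 cd3q3 pd3 false true true .dn 1 3 3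
    ndB1q1 ndB3q3 pcB3 Cut.none Ext.none :=
  certB2 (fam := false) (s1 := true) (s2 := true) (a := 1) (b := 3) (c := 3) (cn := .dn) (n1 := ndB1q1) (n2 := ndB3q3) (pc := pcB3) (cut := Cut.none) (xt := Ext.none) (P1 := 536870912) (W1 := 536870912) (P2 := 0) (W2 := 1230186008) (P3 := 780900216) (W3 := 37827925) (N0 := 3) (En := eng) (mo := mog) (C1 := cd1q1) (C2 := cd3q3) (C3 := pd3)
    rfl (fun _ => rfl) k0_pp_133

noncomputable def f_pp_202_a : ℕ → ℕ → ℕ → ℕ → Bool := onCell 0 536870912 1073741824 536870912 780900216 37827925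
    (rowB 3 eng mog cd1q2a cd3q2 pd0 0 false true true .pp 2 0 2 (qsf 0 536870912 1073741824 536870912 0) ndB1q2a ndB3q2 pcB0 Cut.none Ext.none)

def k0_pp_202_a : ∃ t, chk3 f_pp_202_a t 1 1 1 = true :=
  ⟨(l 3), by decide +kernel⟩

theorem c_pp_202_a : CertB 0 536870912 1073741824 536870912 780900216 37827925 3 eng mog cd1q2a cd3q2 pd0 false true true .pp 2 0 2
    ndB1q2a ndB3q2 pcB0 Cut.none Ext.none :=
  certB0 (fam := false) (s1 := true) (s2 := true) (a := 2) (b := 0) (c := 2) (cn := .pp) (n1 := ndB1q2a) (n2 := ndB3q2) (pc := pcB0) (cut := Cut.none) (xt := Ext.none) (P1 := 0) (W1 := 536870912) (P2 := 1073741824) (W2 := 536870912) (P3 := 780900216) (W3 := 37827925) (N0 := 3) (En := eng) (mo := mog) (C1 := cd1q2a) (C2 := cd3q2) (C3 := pd0)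
    rfl k0_pp_202_a

noncomputable def f_pp_202_b : ℕ → ℕ → ℕ → ℕ → Bool := onCell 1239849684 370763052 1073741824 536870912 780900216 37827925
    (rowB 3 eng mog cd1q2b cd3q2 pd0 0 false true true .pp 2 0 2 (qsf 1239849684 370763052 1073741824 536870912 0) ndB1q2b ndB3q2 pcB0 Cut.none Ext.none)

def k0_pp_202_b : ∃ t, chk3 f_pp_202_b t 1 1 1 = true :=
  ⟨(l 3), by decide +kernel⟩

theorem c_pp_202_b : CertB 1239849684 370763052 1073741824 536870912 780900216 37827925 3 eng mog cd1q2b cd3q2 pd0 false true true .pp 2 0 2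
    ndB1q2b ndB3q2 pcB0 Cut.none Ext.none :=
  certB0 (fam := false) (s1 := true) (s2 := true) (a := 2) (b := 0) (c := 2) (cn := .pp) (n1 := ndB1q2b) (n2 := ndB3q2) (pc := pcB0) (cut := Cut.none) (xt := Ext.none) (P1 := 1239849684) (W1 := 370763052) (P2 := 1073741824) (W2 := 536870912) (P3 := 780900216) (W3 := 37827925) (N0 := 3) (En := eng) (mo := mog) (C1 := cd1q2b) (C2 := cd3q2) (C3 := pd0)
    rfl k0_pp_202_b

noncomputable def f_pp_203_a : ℕ → ℕ → ℕ → ℕ → Bool := onCell 0 536870912 0 1230186008 780900216 37827925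
    (rowB 3 eng mog cd1q2a cd3q3 pd0 0 false true true .up 2 0 3 (qsf 0 536870912 0 1230186008 0) ndB1q2a ndB3q3 pcB0 Cut.none Ext.none)

def k0_pp_203_a : ∃ t, chk3 f_pp_203_a t 1 1 1 = true :=
  ⟨(b (l 2) (l 3)), by decide +kernel⟩

theorem c_pp_203_a : CertB 0 536870912 0 1230186008 780900216 37827925 3 eng mog cd1q2a cd3q3 pd0 false true true .up 2 0 3
    ndB1q2a ndB3q3 pcB0 Cut.none Ext.none :=
  certB0 (fam := false) (s1 := true) (s2 := true) (a := 2) (b := 0) (c := 3) (cn := .up) (n1 := ndB1q2a) (n2 := ndB3q3) (pc := pcB0) (cut := Cut.none) (xt := Ext.none) (P1 := 0) (W1 := 536870912) (P2 := 0) (W2 := 1230186008) (P3 := 780900216) (W3 := 37827925) (N0 := 3) (En := eng) (mo := mog) (C1 := cd1q2a) (C2 := cd3q3) (C3 := pd0)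
    rfl k0_pp_203_a

noncomputable def f_pp_203_b : ℕ → ℕ → ℕ → ℕ → Bool := onCell 1239849684 370763052 0 1230186008 780900216 37827925
    (rowB 3 eng mog cd1q2b cd3q3 pd0 0 false true true .up 2 0 3 (qsf 1239849684 370763052 0 1230186008 0) ndB1q2b ndB3q3 pcB0 Cut.none Ext.none)

def k0_pp_203_b : ∃ t, chk3 f_pp_203_b t 1 1 1 = true :=
  ⟨(b (l 3) (l 3)), by decide +kernel⟩

theorem c_pp_203_b : CertB 1239849684 370763052 0 1230186008 780900216 37827925 3 eng mog cd1q2b cd3q3 pd0 false true true .up 2 0 3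
    ndB1q2b ndB3q3 pcB0 Cut.none Ext.none :=
  certB0 (fam := false) (s1 := true) (s2 := true) (a := 2) (b := 0) (c := 3) (cn := .up) (n1 := ndB1q2b) (n2 := ndB3q3) (pc := pcB0) (cut := Cut.none) (xt := Ext.none) (P1 := 1239849684) (W1 := 370763052) (P2 := 0) (W2 := 1230186008) (P3 := 780900216) (W3 := 37827925) (N0 := 3) (En := eng) (mo := mog) (C1 := cd1q2b) (C2 := cd3q3) (C3 := pd0)
    rfl k0_pp_203_b

noncomputable def cut_pp_213_a : Cut := Cut.of [[⟨0, 1, 0, 67108864⟩, ⟨1, 1, 0, 67108864⟩, ⟨2, 2, 0, 16777216⟩]]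

noncomputable def f_pp_213_a : ℕ → ℕ → ℕ → ℕ → Bool := onCell 0 536870912 0 1230186008 780900216 37827925
    (rowB 3 eng mog cd1q2a cd3q3 pd1 0 false true true .pnn 2 1 3 (qsf 0 536870912 0 1230186008 1) ndB1q2a ndB3q3 pcB1 cut_pp_213_a Ext.none)

def k0_pp_213_a : ∃ t, chk3 f_pp_213_a t 1 1 1 = true :=
  ⟨(b (a (l 3) (b (a (l 3) (a (l 3) (b (l 6) (l 3)))) (l 3))) (l 3)), by decide +kernel⟩

theorem c_pp_213_a : CertB 0 536870912 0 1230186008 780900216 37827925 3 eng mog cd1q2a cd3q3 pd1 false true true .pnn 2 1 3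
    ndB1q2a ndB3q3 pcB1 cut_pp_213_a Ext.none :=
  certB0 (fam := false) (s1 := true) (s2 := true) (a := 2) (b := 1) (c := 3) (cn := .pnn) (n1 := ndB1q2a) (n2 := ndB3q3) (pc := pcB1) (cut := cut_pp_213_a) (xt := Ext.none) (P1 := 0) (W1 := 536870912) (P2 := 0) (W2 := 1230186008) (P3 := 780900216) (W3 := 37827925) (N0 := 3) (En := eng) (mo := mog) (C1 := cd1q2a) (C2 := cd3q3) (C3 := pd1)
    rfl k0_pp_213_a

noncomputable def cut_pp_213_b : Cut := Cut.of [[⟨0, 1, 0, 67108864⟩, ⟨1, 1, 0, 67108864⟩, ⟨2, 2, 0, 16777216⟩]]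

noncomputable def f_pp_213_b : ℕ → ℕ → ℕ → ℕ → Bool := onCell 1239849684 370763052 0 1230186008 780900216 37827925
    (rowB 3 eng mog cd1q2b cd3q3 pd1 0 false true true .pnn 2 1 3 (qsf 1239849684 370763052 0 1230186008 1) ndB1q2b ndB3q3 pcB1 cut_pp_213_b Ext.none)

def k0_pp_213_b : ∃ t, chk3 f_pp_213_b t 1 1 1 = true :=
  ⟨(b (l 3) (l 3)), by decide +kernel⟩

theorem c_pp_213_b : CertB 1239849684 370763052 0 1230186008 780900216 37827925 3 eng mog cd1q2b cd3q3 pd1 false true true .pnn 2 1 3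
    ndB1q2b ndB3q3 pcB1 cut_pp_213_b Ext.none :=
  certB0 (fam := false) (s1 := true) (s2 := true) (a := 2) (b := 1) (c := 3) (cn := .pnn) (n1 := ndB1q2b) (n2 := ndB3q3) (pc := pcB1) (cut := cut_pp_213_b) (xt := Ext.none) (P1 := 1239849684) (W1 := 370763052) (P2 := 0) (W2 := 1230186008) (P3 := 780900216) (W3 := 37827925) (N0 := 3) (En := eng) (mo := mog) (C1 := cd1q2b) (C2 := cd3q3) (C3 := pd1)
    rfl k0_pp_213_b

noncomputable def f_pp_303 : ℕ → ℕ → ℕ → ℕ → Bool := onCell 1610612736 536870912 0 1230186008 780900216 37827925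
    (rowB 3 eng mog cd1q3 cd3q3 pd0 0 false true true .npn 3 0 3 (qsf 1610612736 536870912 0 1230186008 0) ndB1q3 ndB3q3 pcB0 Cut.none Ext.none)

def k0_pp_303 : ∃ t, chk3 f_pp_303 t 1 1 1 = true :=
  ⟨(b (l 3) (l 3)), by decide +kernel⟩

theorem c_pp_303 : CertB 1610612736 536870912 0 1230186008 780900216 37827925 3 eng mog cd1q3 cd3q3 pd0 false true true .npn 3 0 3
    ndB1q3 ndB3q3 pcB0 Cut.none Ext.none :=
  certB0 (fam := false) (s1 := true) (s2 := true) (a := 3) (b := 0) (c := 3) (cn := .npn) (n1 := ndB1q3) (n2 := ndB3q3) (pc := pcB0) (cut := Cut.none) (xt := Ext.none) (P1 := 1610612736) (W1 := 536870912) (P2 := 0) (W2 := 1230186008) (P3 := 780900216) (W3 := 37827925) (N0 := 3) (En := eng) (mo := mog) (C1 := cd1q3) (C2 := cd3q3) (C3 := pd0)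
    rfl k0_pp_303

noncomputable def f_pp_313 : ℕ → ℕ → ℕ → ℕ → Bool := onCell 1610612736 536870912 0 1230186008 780900216 37827925
    (rowB 3 eng mog cd1q3 cd3q3 pd1 0 false true true .dn 3 1 3 (qsf 1610612736 536870912 0 1230186008 1) ndB1q3 ndB3q3 pcB1 Cut.none Ext.none)

def k0_pp_313 : ∃ t, chk3 f_pp_313 t 1 1 1 = true :=
  ⟨(b (l 3) (l 1)), by decide +kernel⟩

theorem c_pp_313 : CertB 1610612736 536870912 0 1230186008 780900216 37827925 3 eng mog cd1q3 cd3q3 pd1 false true true .dn 3 1 3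
    ndB1q3 ndB3q3 pcB1 Cut.none Ext.none :=
  certB0 (fam := false) (s1 := true) (s2 := true) (a := 3) (b := 1) (c := 3) (cn := .dn) (n1 := ndB1q3) (n2 := ndB3q3) (pc := pcB1) (cut := Cut.none) (xt := Ext.none) (P1 := 1610612736) (W1 := 536870912) (P2 := 0) (W2 := 1230186008) (P3 := 780900216) (W3 := 37827925) (N0 := 3) (En := eng) (mo := mog) (C1 := cd1q3) (C2 := cd3q3) (C3 := pd1)
    rfl k0_pp_313

noncomputable def f_pm_001 : ℕ → ℕ → ℕ → ℕ → Bool := onCell 0 536870912 536870912 536870912 780900216 37827925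
    (rowB 3 eng mog cd1q0 cd3q1 pd0 0 false true false .up 0 0 1 (qsf 0 536870912 536870912 536870912 0) ndB1q0 ndB3q1 pcB0 Cut.none Ext.none)

def k0_pm_001 : ∃ t, chk3 f_pm_001 t 1 1 1 = true :=
  ⟨(l 4), by decide +kernel⟩

theorem c_pm_001 : CertB 0 536870912 536870912 536870912 780900216 37827925 3 eng mog cd1q0 cd3q1 pd0 false true false .up 0 0 1
    ndB1q0 ndB3q1 pcB0 Cut.none Ext.none :=
  certB0 (fam := false) (s1 := true) (s2 := false) (a := 0) (b := 0) (c := 1) (cn := .up) (n1 := ndB1q0) (n2 := ndB3q1) (pc := pcB0) (cut := Cut.none) (xt := Ext.none) (P1 := 0) (W1 := 536870912) (P2 := 536870912) (W2 := 536870912) (P3 := 780900216) (W3 := 37827925) (N0 := 3) (En := eng) (mo := mog) (C1 := cd1q0) (C2 := cd3q1) (C3 := pd0)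
    rfl k0_pm_001

noncomputable def f_pm_011 : ℕ → ℕ → ℕ → ℕ → Bool := onCell 0 536870912 536870912 536870912 780900216 37827925
    (rowB 3 eng mog cd1q0 cd3q1 pd1 0 false true false .pnn 0 1 1 (qsf 0 536870912 536870912 536870912 1) ndB1q0 ndB3q1 pcB1 Cut.none Ext.none)

def k0_pm_011 : ∃ t, chk3 f_pm_011 t 1 1 1 = true :=
  ⟨(l 4), by decide +kernel⟩

theorem c_pm_011 : CertB 0 536870912 536870912 536870912 780900216 37827925 3 eng mog cd1q0 cd3q1 pd1 false true false .pnn 0 1 1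
    ndB1q0 ndB3q1 pcB1 Cut.none Ext.none :=
  certB0 (fam := false) (s1 := true) (s2 := false) (a := 0) (b := 1) (c := 1) (cn := .pnn) (n1 := ndB1q0) (n2 := ndB3q1) (pc := pcB1) (cut := Cut.none) (xt := Ext.none) (P1 := 0) (W1 := 536870912) (P2 := 536870912) (W2 := 536870912) (P3 := 780900216) (W3 := 37827925) (N0 := 3) (En := eng) (mo := mog) (C1 := cd1q0) (C2 := cd3q1) (C3 := pd1)
    rfl k0_pm_011

noncomputable def f_pm_012 : ℕ → ℕ → ℕ → ℕ → Bool := onCell 0 536870912 1073741824 536870912 780900216 37827925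
    (rowB 3 eng mog cd1q0 cd3q2 pd1 0 false true false .pnp 0 1 2 (qsf 0 536870912 1073741824 536870912 1) ndB1q0 ndB3q2 pcB1 Cut.none Ext.none)

def k0_pm_012 : ∃ t, chk3 f_pm_012 t 1 1 1 = true :=
  ⟨(a (l 4) (b (l 4) (l 4))), by decide +kernel⟩

theorem c_pm_012 : CertB 0 536870912 1073741824 536870912 780900216 37827925 3 eng mog cd1q0 cd3q2 pd1 false true false .pnp 0 1 2
    ndB1q0 ndB3q2 pcB1 Cut.none Ext.none :=
  certB0 (fam := false) (s1 := true) (s2 := false) (a := 0) (b := 1) (c := 2) (cn := .pnp) (n1 := ndB1q0) (n2 := ndB3q2) (pc := pcB1) (cut := Cut.none) (xt := Ext.none) (P1 := 0) (W1 := 536870912) (P2 := 1073741824) (W2 := 536870912) (P3 := 780900216) (W3 := 37827925) (N0 := 3) (En := eng) (mo := mog) (C1 := cd1q0) (C2 := cd3q2) (C3 := pd1)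
    rfl k0_pm_012

noncomputable def f_pm_022 : ℕ → ℕ → ℕ → ℕ → Bool := onCell 0 536870912 1073741824 536870912 780900216 37827925
    (rowB 3 eng mog cd1q0 cd3q2 pd2 0 false true false .pp 0 2 2 (qsf 0 536870912 1073741824 536870912 2) ndB1q0 ndB3q2 pcB2 Cut.none Ext.none)

def k0_pm_022 : ∃ t, chk3 f_pm_022 t 1 1 1 = true :=
  ⟨(a (l 4) (b (l 4) (l 4))), by decide +kernel⟩

theorem c_pm_022 : CertB 0 536870912 1073741824 536870912 780900216 37827925 3 eng mog cd1q0 cd3q2 pd2 false true false .pp 0 2 2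
    ndB1q0 ndB3q2 pcB2 Cut.none Ext.none :=
  certB0 (fam := false) (s1 := true) (s2 := false) (a := 0) (b := 2) (c := 2) (cn := .pp) (n1 := ndB1q0) (n2 := ndB3q2) (pc := pcB2) (cut := Cut.none) (xt := Ext.none) (P1 := 0) (W1 := 536870912) (P2 := 1073741824) (W2 := 536870912) (P3 := 780900216) (W3 := 37827925) (N0 := 3) (En := eng) (mo := mog) (C1 := cd1q0) (C2 := cd3q2) (C3 := pd2)
    rfl k0_pm_022

noncomputable def f_pm_023 : ℕ → ℕ → ℕ → ℕ → Bool := onCell 0 536870912 0 1230186008 780900216 37827925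
    (rowB 3 eng mog cd1q0 cd3q3 pd2 0 false true false .up 0 2 3 (qsf 0 536870912 0 1230186008 2) ndB1q0 ndB3q3 pcB2 Cut.none Ext.none)

def k0_pm_023 : ∃ t, chk3 f_pm_023 t 1 1 1 = true :=
  ⟨(a (b (l 2) (l 4)) (a (b (l 2) (l 4)) (b (b (a (l 2) (l 16481528)) (a (b (l 16408560) (l 4)) (b (l 16417288) (l 16336120)))) (b (b (a (l 4) (a (l 4) (l 16199168))) (l 4)) (l 4))))), by decide +kernel⟩

theorem c_pm_023 : CertB 0 536870912 0 1230186008 780900216 37827925 3 eng mog cd1q0 cd3q3 pd2 false true false .up 0 2 3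
    ndB1q0 ndB3q3 pcB2 Cut.none Ext.none :=
  certB0 (fam := false) (s1 := true) (s2 := false) (a := 0) (b := 2) (c := 3) (cn := .up) (n1 := ndB1q0) (n2 := ndB3q3) (pc := pcB2) (cut := Cut.none) (xt := Ext.none) (P1 := 0) (W1 := 536870912) (P2 := 0) (W2 := 1230186008) (P3 := 780900216) (W3 := 37827925) (N0 := 3) (En := eng) (mo := mog) (C1 := cd1q0) (C2 := cd3q3) (C3 := pd2)
    rfl k0_pm_023

noncomputable def f_pm_033 : ℕ → ℕ → ℕ → ℕ → Bool := onCell 0 536870912 0 1230186008 780900216 37827925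
    (rowB 3 eng mog cd1q0 cd3q3 pd3 0 false true false .pnn 0 3 3 (qsf 0 536870912 0 1230186008 3) ndB1q0 ndB3q3 pcB3 Cut.none Ext.none)

def k0_pm_033 : ∃ t, chk3 f_pm_033 t 1 1 1 = true :=
  ⟨(a (b (l 4) (l 4)) (a (b (b (a (l 4) (l 4)) (l 4)) (l 4)) (a (b (b (l 16466088) (b (l 16262536) (l 4))) (b (l 4) (l 1))) (b (b (l 16493416) (b (l 16403496) (l 16339464))) (l 1))))), by decide +kernel⟩

theorem c_pm_033 : CertB 0 536870912 0 1230186008 780900216 37827925 3 eng mog cd1q0 cd3q3 pd3 false true false .pnn 0 3 3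
    ndB1q0 ndB3q3 pcB3 Cut.none Ext.none :=
  certB0 (fam := false) (s1 := true) (s2 := false) (a := 0) (b := 3) (c := 3) (cn := .pnn) (n1 := ndB1q0) (n2 := ndB3q3) (pc := pcB3) (cut := Cut.none) (xt := Ext.none) (P1 := 0) (W1 := 536870912) (P2 := 0) (W2 := 1230186008) (P3 := 780900216) (W3 := 37827925) (N0 := 3) (En := eng) (mo := mog) (C1 := cd1q0) (C2 := cd3q3) (C3 := pd3)
    rfl k0_pm_033

noncomputable def f_pm_101 : ℕ → ℕ → ℕ → ℕ → Bool := onCell 536870912 536870912 536870912 536870912 780900216 37827925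
    (rowB 3 eng mog cd1q1 cd3q1 pd0 0 false true false .npn 1 0 1 (qsf 536870912 536870912 536870912 536870912 0) ndB1q1 ndB3q1 pcB0 Cut.none Ext.none)

def k0_pm_101 : ∃ t, chk3 f_pm_101 t 1 1 1 = true :=
  ⟨(l 4), by decide +kernel⟩

theorem c_pm_101 : CertB 536870912 536870912 536870912 536870912 780900216 37827925 3 eng mog cd1q1 cd3q1 pd0 false true false .npn 1 0 1
    ndB1q1 ndB3q1 pcB0 Cut.none Ext.none :=
  certB0 (fam := false) (s1 := true) (s2 := false) (a := 1) (b := 0) (c := 1) (cn := .npn) (n1 := ndB1q1) (n2 := ndB3q1) (pc := pcB0) (cut := Cut.none) (xt := Ext.none) (P1 := 536870912) (W1 := 536870912) (P2 := 536870912) (W2 := 536870912) (P3 := 780900216) (W3 := 37827925) (N0 := 3) (En := eng) (mo := mog) (C1 := cd1q1) (C2 := cd3q1) (C3 := pd0)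
    rfl k0_pm_101

noncomputable def f_pm_102 : ℕ → ℕ → ℕ → ℕ → Bool := onCell 536870912 536870912 0 536870912 780900216 37827925
    (rowB 3 eng mog cd1q1 cd3q2 pd0 1 false true false .npp 1 0 2 (qsf 536870912 536870912 1073741824 536870912 0) ndB1q1 ndB3q2 pcB0 Cut.none Ext.none)

def k0_pm_102 : ∃ t, chk3 f_pm_102 t 1 1 1 = true :=
  ⟨(a (b (b (l 1) (a (l 1) (b (l 1) (a (l 1) (l 365640584551))))) (b (a (b (l 1) (a (l 1) (l 330207624087))) (b (a (l 348997873015) (l 297995423911)) (a (l 15825984) (b (l 15868144) (l 15889824))))) (a (b (a (l 320544192935) (l 15906288)) (a (l 165388399335) (b (l 15934512) (l 15931408)))) (b (a (l 15897768) (l 15923792)) (a (l 16133760) (l 15968952)))))) (b (a (b (b (l 1) (a (l 1) (a (l 1) (b (l 1) (l 15793232))))) (b (a (b (l 1) (l 389263003191)) (b (l 340944827895) (l 259340638135))) (a (l 280815496295) (b (a (l 15854320) (l 15935512)) (a (l 15909200) (l 15965856)))))) (b (b (a (b (l 1) (a (l 1) (a (l 1) (b (l 1)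 (l 15974304))))) (a (b (a (l 1) (b (l 1) (l 16078200))) (a (l 248603589783) (l 16076008))) (b (l 16104104) (l 16095904)))) (a (a (b (l 365104460679) (l 15883928)) (b (a (l 15926320) (l 15950872)) (l 15974360))) (a (b (l 16048056) (l 16064608)) (b (l 16095912) (l 16089912))))) (b (a (a (b (l 15918960) (l 15970016)) (l 16028728)) (a (l 16074776) (l 16102616))) (b (a (l 16032288) (l 16215208)) (a (l 16060944) (l 16129304)))))) (b (b (a (a (b (l 15866872) (l 15905464)) (b (l 15977344) (l 16014968))) (a (b (l 16093552) (l 16118264)) (b (l 16147768) (l 16151064)))) (a (a (a (l 15925816) (l 15974672)) (l 16048704)) (a (l 16207688) (a (l 16134016) (l 16130024))))) (b (a (a (l 15993160) (l 16066056)) (a (l 16113944) (l 16129192))) (a (a (l 16022248) (l 16083392)) (a (l 16139136) (l 16152256))))))), by decide +kernel⟩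

theorem c_pm_102 : CertB 536870912 536870912 1073741824 536870912 780900216 37827925 3 eng mog cd1q1 cd3q2 pd0 false true false .npp 1 0 2
    ndB1q1 ndB3q2 pcB0 Cut.none Ext.none :=
  certB1 (fam := false) (s1 := true) (s2 := false) (a := 1) (b := 0) (c := 2) (cn := .npp) (n1 := ndB1q1) (n2 := ndB3q2) (pc := pcB0) (cut := Cut.none) (xt := Ext.none) (P1 := 536870912) (W1 := 536870912) (P2 := 1073741824) (W2 := 536870912) (P3 := 780900216) (W3 := 37827925) (N0 := 3) (En := eng) (mo := mog) (C1 := cd1q1) (C2 := cd3q2) (C3 := pd0)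
    rfl (fun _ => rfl) k0_pm_102

noncomputable def f_pm_112 : ℕ → ℕ → ℕ → ℕ → Bool := onCell 536870912 536870912 1073741824 536870912 780900216 37827925
    (rowB 3 eng mog cd1q1 cd3q2 pd1 2 false true false .dn 1 1 2 (qsf 536870912 536870912 1073741824 536870912 1) ndB1q1 ndB3q2 pcB1 Cut.none Ext.none)

def k0_pm_112 : ∃ t, chk3 f_pm_112 t 1 1 1 = true :=
  ⟨(a (b (a (b (a (a (l 15989936) (l 128008677271)) (l 4)) (a (b (l 15922328) (l 15943880)) (b (l 15919440) (l 15912072)))) (b (l 4) (a (b (l 4) (l 15888640)) (l 4)))) (a (b (a (b (l 15968368) (l 16036224)) (b (l 15928016) (l 15957272))) (b (l 16083688) (l 16173504))) (b (a (b (l 15857792) (l 15883960)) (b (l 15802720) (l 15800008))) (a (l 16021112) (b (l 15847592) (l 15955944)))))) (b (l 4) (a (b (a (b (l 4) (l 15691384)) (l 4)) (a (b (l 15706200) (l 15791160)) (b (l 15588096) (l 15648696)))) (b (l 4) (a (b (l 4) (l 15460184)) (l 4)))))), by decide +kernel⟩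

theorem c_pm_112 : CertB 536870912 536870912 1073741824 536870912 780900216 37827925 3 eng mog cd1q1 cd3q2 pd1 false true false .dn 1 1 2
    ndB1q1 ndB3q2 pcB1 Cut.none Ext.none :=
  certB2 (fam := false) (s1 := true) (s2 := false) (a := 1) (b := 1) (c := 2) (cn := .dn) (n1 := ndB1q1) (n2 := ndB3q2) (pc := pcB1) (cut := Cut.none) (xt := Ext.none) (P1 := 536870912) (W1 := 536870912) (P2 := 1073741824) (W2 := 536870912) (P3 := 780900216) (W3 := 37827925) (N0 := 3) (En := eng) (mo := mog) (C1 := cd1q1) (C2 := cd3q2) (C3 := pd1)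
    rfl (fun _ => rfl) k0_pm_112

noncomputable def f_pm_113 : ℕ → ℕ → ℕ → ℕ → Bool := onCell 536870912 536870912 0 1230186008 780900216 37827925
    (rowB 3 eng mog cd1q1 cd3q3 pd1 0 false true false .nn 1 1 3 (qsf 536870912 536870912 0 1230186008 1) ndB1q1 ndB3q3 pcB1 Cut.none Ext.none)

def k0_pm_113 : ∃ t, chk3 f_pm_113 t 1 1 1 = true :=
  ⟨(b (a (l 2) (a (l 2) (b (a (l 2) (a (l 2) (b (l 16733840) (l 16740544)))) (a (b (l 16560888) (l 16592272)) (b (l 16724384) (l 16770216)))))) (b (a (b (l 2) (b (l 2) (a (l 2) (a (l 2) (l 15973128))))) (b (a (a (l 2) (l 16432592)) (a (l 16644368) (l 16843904))) (a (b (a (l 16243152) (l 16474336)) (l 16398840)) (b (a (l 16694480) (l 16920096)) (a (l 16741184) (l 16988808)))))) (b (a (a (l 2) (b (a (l 15511528) (l 15901360)) (l 266386972375))) (a (b (l 16360120) (l 16337224)) (b (a (l 16797264) (l 16886216)) (a (l 16616416) (l 16589024))))) (a (a (b (a (l 2) (l 15306840)) (a (b (l 234173701831) (l 4)) (b (l 15390848)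 (a (l 15399328) (l 15502712))))) (b (a (l 15574984) (l 15845264)) (a (l 15638104) (l 15862720)))) (a (b (l 16212552) (l 16132688)) (b (l 16406192) (l 16258312))))))), by decide +kernel⟩

theorem c_pm_113 : CertB 536870912 536870912 0 1230186008 780900216 37827925 3 eng mog cd1q1 cd3q3 pd1 false true false .nn 1 1 3
    ndB1q1 ndB3q3 pcB1 Cut.none Ext.none :=
  certB0 (fam := false) (s1 := true) (s2 := false) (a := 1) (b := 1) (c := 3) (cn := .nn) (n1 := ndB1q1) (n2 := ndB3q3) (pc := pcB1) (cut := Cut.none) (xt := Ext.none) (P1 := 536870912) (W1 := 536870912) (P2 := 0) (W2 := 1230186008) (P3 := 780900216) (W3 := 37827925) (N0 := 3) (En := eng) (mo := mog) (C1 := cd1q1) (C2 := cd3q3) (C3 := pd1)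
    rfl k0_pm_113

noncomputable def f_pm_123 : ℕ → ℕ → ℕ → ℕ → Bool := onCell 1073741824 536870912 0 1230186008 780900216 37827925
    (rowB 3 eng mog cd1q1 cd3q3 pd2 2 false true false .npn 1 2 3 (qsf 536870912 536870912 0 1230186008 2) ndB1q1 ndB3q3 pcB2 Cut.none Ext.none)

def k0_pm_123 : ∃ t, chk3 f_pm_123 t 1 1 1 = true :=
  ⟨(b (a (a (b (a (l 16689024) (l 16560288)) (a (b (l 16576448) (l 16510352)) (b (l 16499088) (l 16419168)))) (b (a (l 16527096) (l 16517024)) (a (b (l 16441984) (l 16356504)) (b (l 16434856) (l 16338976))))) (a (b (l 16521904) (a (l 16394824) (l 16401920))) (b (l 16526552) (a (l 16420344) (l 16450088))))) (b (a (b (a (a (l 16399216) (l 16290448)) (a (l 16220960) (l 16207904))) (a (b (a (l 16250448) (l 16148456)) (a (l 16120776) (l 15949616))) (b (a (l 16079256) (l 16051192)) (a (l 15898592) (l 15929064))))) (b (a (a (l 16220584) (l 16251552)) (a (l 16304800) (l 1))) (a (b (a (l 16084160) (l 16158536)) (a (l 16016360) (l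 1))) (l 1)))) (a (b (a (b (a (l 15785520) (l 15736368)) (a (l 15541120) (l 15585824))) (a (b (l 15761312) (l 15684424)) (b (l 15853880) (l 1)))) (a (a (b (a (l 15357712) (l 15411648)) (a (l 15285064) (l 4))) (b (l 15514168) (l 4))) (l 4))) (l 1)))), by decide +kernel⟩

theorem c_pm_123 : CertB 536870912 536870912 0 1230186008 780900216 37827925 3 eng mog cd1q1 cd3q3 pd2 false true false .npn 1 2 3
    ndB1q1 ndB3q3 pcB2 Cut.none Ext.none :=
  certB2 (fam := false) (s1 := true) (s2 := false) (a := 1) (b := 2) (c := 3) (cn := .npn) (n1 := ndB1q1) (n2 := ndB3q3) (pc := pcB2) (cut := Cut.none) (xt := Ext.none) (P1 := 536870912) (W1 := 536870912) (P2 := 0) (W2 := 1230186008) (P3 := 780900216) (W3 := 37827925) (N0 := 3) (En := eng) (mo := mog) (C1 := cd1q1) (C2 := cd3q3) (C3 := pd2)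
    rfl (fun _ => rfl) k0_pm_123

noncomputable def f_pm_133 : ℕ → ℕ → ℕ → ℕ → Bool := onCell 1610612736 536870912 0 1230186008 780900216 37827925
    (rowB 3 eng mog cd1q1 cd3q3 pd3 2 false true false .dn 1 3 3 (qsf 536870912 536870912 0 1230186008 3) ndB1q1 ndB3q3 pcB3 Cut.none Ext.none)

def k0_pm_133 : ∃ t, chk3 f_pm_133 t 1 1 1 = true :=
  ⟨(b (a (a (a (l 197065286279) (l 1)) (l 1)) (l 1)) (l 1)), by decide +kernel⟩

theorem c_pm_133 : CertB 536870912 536870912 0 1230186008 780900216 37827925 3 eng mog cd1q1 cd3q3 pd3 false true false .dn 1 3 3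
    ndB1q1 ndB3q3 pcB3 Cut.none Ext.none :=
  certB2 (fam := false) (s1 := true) (s2 := false) (a := 1) (b := 3) (c := 3) (cn := .dn) (n1 := ndB1q1) (n2 := ndB3q3) (pc := pcB3) (cut := Cut.none) (xt := Ext.none) (P1 := 536870912) (W1 := 536870912) (P2 := 0) (W2 := 1230186008) (P3 := 780900216) (W3 := 37827925) (N0 := 3) (En := eng) (mo := mog) (C1 := cd1q1) (C2 := cd3q3) (C3 := pd3)
    rfl (fun _ => rfl) k0_pm_133

noncomputable def f_pm_202_a : ℕ → ℕ → ℕ → ℕ → Bool := onCell 0 536870912 0 536870912 780900216 37827925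
    (rowB 3 eng mog cd1q2a cd3q2 pd0 1 false true false .pp 2 0 2 (qsf 0 536870912 1073741824 536870912 0) ndB1q2a ndB3q2 pcB0 Cut.none Ext.none)

def k0_pm_202_a : ∃ t, chk3 f_pm_202_a t 2 1 1 = true :=
  ⟨(b (l 3) (l 3)), by decide +kernel⟩

def k1_pm_202_a : ∃ t, chk3 f_pm_202_a t 6 2 1 = true :=
  ⟨(b (b (a (b (a (a (l 3) (b (b (a (l 144585483335) (l 16518216)) (b (l 145659259495) (l 16514320))) (b (b (l 148343649895) (l 16470336)) (l 16491504)))) (b (a (b (l 16499232) (a (l 16488496) (l 16504288))) (l 16527008)) (b (a (a (a (l 16523648) (l 16491392)) (l 16499248)) (l 16523992)) (a (a (a (l 16481216) (l 16485544)) (l 16500616)) (l 16454768))))) (a (a (l 3) (b (b (l 16512696) (l 147269898279)) (l 148343679783))) (b (a (a (a (l 16477328) (l 16526856)) (a (l 16531056) (l 16536040))) (l 16544304)) (a (a (l 16475840) (l 16489432)) (a (b (l 16503120) (l 16500936)) (l 16516416)))))) (b (a (l 16528528) (l 16579200)) (a (a (b (l 16542136) (l 16539120))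 (l 16630664)) (l 16555832)))) (a (a (l 3) (b (a (b (l 139216925079) (l 16472512)) (b (a (l 16497112) (l 16509760)) (l 16497896))) (a (a (l 3) (l 197735822631)) (b (l 16490592) (l 16485648))))) (a (a (b (b (l 16531632) (l 16518880)) (b (l 16517872) (l 16512800))) (b (l 16664248) (b (l 16545696) (l 16537504)))) (b (a (l 16641760) (l 16539536)) (a (l 16543488) (l 16529872)))))) (b (a (a (l 3) (b (a (l 176260952855) (b (l 16482552) (l 16481928))) (b (l 218673669591) (l 174650105543)))) (b (a (a (l 16504728) (l 16529480)) (a (l 16533024) (l 16518888))) (a (a (l 16501224) (l 16521272)) (a (l 16518384) (l 16504752))))) (a (a (l 3) (b (b (l 135458399543) (l 140827111031)) (l 3))) (a (b (b (l 16509216) (l 16507384)) (b (l 16505304) (l 16376352))) (b (b (l 16499688) (l 16491704)) (a (l 16488328) (l 16473672))))))), by decide +kernel⟩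

def k2_pm_202_a : ∃ t, chk3 f_pm_202_a t 7 2 1 = true :=
  ⟨(b (b (a (b (b (l 16574824) (l 16551120)) (a (l 16530256) (l 16511424))) (b (b (a (a (l 16560840) (l 16550360)) (a (l 16526936) (l 16502960))) (a (l 16531736) (a (l 16518952) (l 16496696)))) (a (l 16495648) (b (l 16507936) (l 16464248))))) (a (b (a (l 16515600) (l 16484776)) (a (b (l 16508344) (l 16504800)) (l 16473344))) (b (a (l 16454464) (l 16425960)) (a (l 16435440) (l 16392688))))) (b (a (b (a (b (l 16498560) (l 16491792)) (b (l 16465496) (l 16460400))) (a (l 16491744) (l 16534528))) (b (l 16401624) (a (l 16410720) (l 16363824)))) (a (a (b (l 16464784) (l 16450384)) (b (b (l 16436400) (l 16429000)) (l 16417184))) (a (b (l 16396096) (l 16379144)) (b (l 16347864) (l 16334000)))))), by decide +kernel⟩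

def k3_pm_202_a : ∃ t, chk3 f_pm_202_a t 3 3 1 = true :=
  ⟨(b (a (a (l 3) (b (a (b (c (l 16587960) (l 16483320)) (c (l 16527584) (l 16471304))) (b (l 16468360) (c (l 16467048) (l 16443576)))) (a (a (l 3) (b (l 92509143031) (l 151028030487))) (b (c (l 16456592) (l 16433624)) (c (l 16446832) (l 16425968)))))) (b (a (a (b (a (l 16444120) (l 16427752)) (a (l 16432480) (l 16415896))) (b (l 16403128) (l 16391112))) (b (a (l 16364496) (l 16320440)) (a (l 16352272) (l 16306136)))) (a (a (b (c (l 16428160) (l 16397088)) (c (l 16419448) (l 16389672))) (b (l 16381528) (l 16415272))) (b (l 16319904) (l 16312232))))) (a (b (a (l 3) (a (b (l 3) (l 3)) (b (c (l 16437912) (l 16420192)) (c (l 16430600) (l 16416664))))) (l 2)) (b (a (a (c (b (l 16411568) (l 16404944)) (b (l 16384232) (l 16381096))) (b (a (l 16375704) (l 16358512)) (a (l 16371744) (l 16354816)))) (b (l 16307160) (l 16430752))) (a (b (a (l 253503061511) (l 16361832)) (l 2)) (a (b (l 16325696) (l 16327504))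 (l 16283928)))))), by decide +kernel⟩

theorem s4_pm_202_a : ∃ t, chk3 f_pm_202_a t 3 2 1 = true := ex3_a k1_pm_202_a k2_pm_202_a

theorem s5_pm_202_a : ∃ t, chk3 f_pm_202_a t 3 1 1 = true := ex3_b s4_pm_202_a k3_pm_202_a

theorem s6_pm_202_a : ∃ t, chk3 f_pm_202_a t 1 1 1 = true := ex3_a k0_pm_202_a s5_pm_202_a

theorem c_pm_202_a : CertB 0 536870912 1073741824 536870912 780900216 37827925 3 eng mog cd1q2a cd3q2 pd0 false true false .pp 2 0 2
    ndB1q2a ndB3q2 pcB0 Cut.none Ext.none :=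
  certB1 (fam := false) (s1 := true) (s2 := false) (a := 2) (b := 0) (c := 2) (cn := .pp) (n1 := ndB1q2a) (n2 := ndB3q2) (pc := pcB0) (cut := Cut.none) (xt := Ext.none) (P1 := 0) (W1 := 536870912) (P2 := 1073741824) (W2 := 536870912) (P3 := 780900216) (W3 := 37827925) (N0 := 3) (En := eng) (mo := mog) (C1 := cd1q2a) (C2 := cd3q2) (C3 := pd0)
    rfl (fun _ => rfl) s6_pm_202_a

noncomputable def f_pm_202_b : ℕ → ℕ → ℕ → ℕ → Bool := onCell 1239849684 370763052 1073741824 536870912 780900216 37827925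
    (rowB 3 eng mog cd1q2b cd3q2 pd0 0 false true false .pp 2 0 2 (qsf 1239849684 370763052 1073741824 536870912 0) ndB1q2b ndB3q2 pcB0 Cut.none Ext.none)

def k0_pm_202_b : ∃ t, chk3 f_pm_202_b t 1 1 1 = true :=
  ⟨(l 3), by decide +kernel⟩

theorem c_pm_202_b : CertB 1239849684 370763052 1073741824 536870912 780900216 37827925 3 eng mog cd1q2b cd3q2 pd0 false true false .pp 2 0 2
    ndB1q2b ndB3q2 pcB0 Cut.none Ext.none :=
  certB0 (fam := false) (s1 := true) (s2 := false) (a := 2) (b := 0) (c := 2) (cn := .pp) (n1 := ndB1q2b) (n2 := ndB3q2) (pc := pcB0) (cut := Cut.none) (xt := Ext.none) (P1 := 1239849684) (W1 := 370763052) (P2 := 1073741824) (W2 := 536870912) (P3 := 780900216) (W3 := 37827925) (N0 := 3) (En := eng) (mo := mog) (C1 := cd1q2b) (C2 := cd3q2) (C3 := pd0)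
    rfl k0_pm_202_b

noncomputable def f_pm_203_a : ℕ → ℕ → ℕ → ℕ → Bool := onCell 0 536870912 0 1230186008 780900216 37827925
    (rowB 3 eng mog cd1q2a cd3q3 pd0 0 false true false .up 2 0 3 (qsf 0 536870912 0 1230186008 0) ndB1q2a ndB3q3 pcB0 Cut.none Ext.none)

def k0_pm_203_a : ∃ t, chk3 f_pm_203_a t 1 1 1 = true :=
  ⟨(b (l 2) (b (l 2) (b (a (l 3) (l 2)) (a (l 3) (a (a (l 3) (a (l 3) (b (b (l 2) (b (l 2) (l 16448616))) (b (c (l 56538498631) (l 73181729271)) (c (l 60296781735) (b (l 16415472) (l 16416400))))))) (b (a (b (l 2) (a (b (l 2) (l 16397416)) (l 2))) (l 2)) (a (b (a (b (l 16394424) (l 16392688)) (l 16365296)) (a (c (l 16399568) (l 16380432)) (b (l 16362280) (l 16362296)))) (b (a (l 16334888) (l 2)) (a (b (l 16329080) (l 16327312)) (l 16289904)))))))))), by decide +kernel⟩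

theorem c_pm_203_a : CertB 0 536870912 0 1230186008 780900216 37827925 3 eng mog cd1q2a cd3q3 pd0 false true false .up 2 0 3
    ndB1q2a ndB3q3 pcB0 Cut.none Ext.none :=
  certB0 (fam := false) (s1 := true) (s2 := false) (a := 2) (b := 0) (c := 3) (cn := .up) (n1 := ndB1q2a) (n2 := ndB3q3) (pc := pcB0) (cut := Cut.none) (xt := Ext.none) (P1 := 0) (W1 := 536870912) (P2 := 0) (W2 := 1230186008) (P3 := 780900216) (W3 := 37827925) (N0 := 3) (En := eng) (mo := mog) (C1 := cd1q2a) (C2 := cd3q3) (C3 := pd0)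
    rfl k0_pm_203_a

noncomputable def f_pm_203_b : ℕ → ℕ → ℕ → ℕ → Bool := onCell 1239849684 370763052 0 1230186008 780900216 37827925
    (rowB 3 eng mog cd1q2b cd3q3 pd0 0 false true false .up 2 0 3 (qsf 1239849684 370763052 0 1230186008 0) ndB1q2b ndB3q3 pcB0 Cut.none Ext.none)

def k0_pm_203_b : ∃ t, chk3 f_pm_203_b t 1 1 1 = true :=
  ⟨(b (l 3) (l 3)), by decide +kernel⟩

theorem c_pm_203_b : CertB 1239849684 370763052 0 1230186008 780900216 37827925 3 eng mog cd1q2b cd3q3 pd0 false true false .up 2 0 3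
    ndB1q2b ndB3q3 pcB0 Cut.none Ext.none :=
  certB0 (fam := false) (s1 := true) (s2 := false) (a := 2) (b := 0) (c := 3) (cn := .up) (n1 := ndB1q2b) (n2 := ndB3q3) (pc := pcB0) (cut := Cut.none) (xt := Ext.none) (P1 := 1239849684) (W1 := 370763052) (P2 := 0) (W2 := 1230186008) (P3 := 780900216) (W3 := 37827925) (N0 := 3) (En := eng) (mo := mog) (C1 := cd1q2b) (C2 := cd3q3) (C3 := pd0)
    rfl k0_pm_203_b

noncomputable def cut_pm_213_a : Cut := Cut.of [[⟨0, 1, 0, 67108864⟩, ⟨1, 1, 0, 67108864⟩, ⟨2, 2, 0, 16777216⟩]]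

noncomputable def f_pm_213_a : ℕ → ℕ → ℕ → ℕ → Bool := onCell 0 536870912 0 1230186008 780900216 37827925
    (rowB 3 eng mog cd1q2a cd3q3 pd1 0 false true false .pnn 2 1 3 (qsf 0 536870912 0 1230186008 1) ndB1q2a ndB3q3 pcB1 cut_pm_213_a Ext.none)

def k0_pm_213_a : ∃ t, chk3 f_pm_213_a t 1 2 1 = true :=
  ⟨(a (l 3) (b (a (l 3) (a (l 3) (b (l 6) (a (b (l 3) (l 3)) (a (b (l 6) (a (b (b (l 375977412391) (l 279877522167)) (a (l 356113175191) (l 16761392))) (b (a (l 16770320) (l 16781208)) (l 16783128)))) (b (l 6) (l 16788440))))))) (a (l 3) (b (a (l 3) (a (b (a (l 3) (a (l 3) (b (l 372219302071) (l 236927832263)))) (a (l 3) (b (a (l 349133846023) (l 16785360)) (a (l 233169726071) (l 16784832))))) (b (a (b (a (l 16773920) (l 16785784)) (l 16766944)) (l 16768296)) (a (b (l 16790312) (l 16791504)) (l 16775568))))) (a (a (l 3) (b (l 3) (l 3))) (a (b (a (b (l 276656269399) (a (l 3) (l 191293823191))) (b (l 176798252743) (l 16755688))) (a (b (a (l 189146315543)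 (l 16760840)) (a (l 152102218327) (l 16755944))) (b (l 16773448) (l 16769832)))) (b (b (l 16734192) (l 16755640)) (a (l 16767384) (l 16803400))))))))), by decide +kernel⟩

def k1_pm_213_a : ∃ t, chk3 f_pm_213_a t 1 6 1 = true :=
  ⟨(a (l 3) (b (a (l 3) (a (a (l 3) (b (a (l 3) (b (l 160155164039) (b (l 149954672327) (l 144585957063)))) (a (b (l 3) (l 210620956503)) (b (a (l 137069662711) (l 16689984)) (b (l 16678584) (l 16674544)))))) (b (a (b (a (l 122574248071) (l 16765616)) (a (l 16716232) (l 16760144))) (b (l 16794752) (l 16793096))) (a (b (a (l 16708344) (l 16754040)) (a (l 16722352) (l 16747744))) (b (l 16790272) (l 16786928)))))) (a (l 3) (b (a (a (l 3) (b (a (l 137606486247) (l 16689400)) (b (a (l 127942788775) (l 16681864)) (a (a (l 135458954407) (l 16654768)) (l 16675952))))) (b (a (l 16729040) (l 16783344)) (a (b (l 16723832) (l 16719456)) (l 16737048)))) (a (a (a (l 3) (a (l 3) (b (l 3) (b (l 16567344) (l 16541080))))) (b (a (b (l 16630024)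 (l 16613232)) (l 16664512)) (b (l 16596360) (l 16566312)))) (a (b (l 16710744) (l 16643808)) (b (l 16772808) (l 16743800)))))))), by decide +kernel⟩

def k2_pm_213_a : ∃ t, chk3 f_pm_213_a t 1 7 1 = true :=
  ⟨(b (a (l 3) (a (b (l 3) (l 3)) (b (a (b (a (a (l 3) (b (l 115594636599) (l 16497064))) (b (l 16538960) (l 16514520))) (a (b (a (l 3) (l 16480000)) (l 80697948471)) (b (l 16492768) (l 16473528)))) (b (a (l 16568368) (l 16636808)) (a (l 16506248) (l 16548872)))) (a (b (a (a (l 16451456) (l 16446072)) (l 16448232)) (a (a (l 16431816) (l 16424960)) (l 16420408))) (a (b (l 16456448) (l 16416280)) (b (l 16478176) (l 16420904))))))) (a (l 3) (a (b (a (l 3) (a (l 3) (b (l 264844622215) (b (l 16431216) (l 81234697495))))) (l 1)) (b (a (b (a (b (l 16416520) (l 16410152)) (l 16398448)) (a (b (l 16405048) (l 16401168)) (l 16382480))) (a (b (l 16384688) (l 16360664)) (b (l 16374424) (l 16338808)))) (a (b (a (b (l 16398352) (l 1)) (b (l 16374080) (l 16370192)))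 (l 1)) (b (a (b (l 16347576) (l 16340696)) (l 16313216)) (a (b (l 16335080) (l 1)) (l 16295352)))))))), by decide +kernel⟩

theorem s3_pm_213_a : ∃ t, chk3 f_pm_213_a t 1 3 1 = true := ex3_b k1_pm_213_a k2_pm_213_a

theorem s4_pm_213_a : ∃ t, chk3 f_pm_213_a t 1 1 1 = true := ex3_b k0_pm_213_a s3_pm_213_a

theorem c_pm_213_a : CertB 0 536870912 0 1230186008 780900216 37827925 3 eng mog cd1q2a cd3q3 pd1 false true false .pnn 2 1 3
    ndB1q2a ndB3q3 pcB1 cut_pm_213_a Ext.none :=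
  certB0 (fam := false) (s1 := true) (s2 := false) (a := 2) (b := 1) (c := 3) (cn := .pnn) (n1 := ndB1q2a) (n2 := ndB3q3) (pc := pcB1) (cut := cut_pm_213_a) (xt := Ext.none) (P1 := 0) (W1 := 536870912) (P2 := 0) (W2 := 1230186008) (P3 := 780900216) (W3 := 37827925) (N0 := 3) (En := eng) (mo := mog) (C1 := cd1q2a) (C2 := cd3q3) (C3 := pd1)
    rfl s4_pm_213_a

noncomputable def cut_pm_213_b : Cut := Cut.of [[⟨0, 1, 0, 67108864⟩, ⟨1, 1, 0, 67108864⟩, ⟨2, 2, 0, 16777216⟩]]

noncomputable def f_pm_213_b : ℕ → ℕ → ℕ → ℕ → Bool := onCell 1239849684 370763052 0 1230186008 780900216 37827925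
    (rowB 3 eng mog cd1q2b cd3q3 pd1 0 false true false .pnn 2 1 3 (qsf 1239849684 370763052 0 1230186008 1) ndB1q2b ndB3q3 pcB1 cut_pm_213_b Ext.none)

def k0_pm_213_b : ∃ t, chk3 f_pm_213_b t 1 1 1 = true :=
  ⟨(b (l 3) (l 3)), by decide +kernel⟩

theorem c_pm_213_b : CertB 1239849684 370763052 0 1230186008 780900216 37827925 3 eng mog cd1q2b cd3q3 pd1 false true false .pnn 2 1 3
    ndB1q2b ndB3q3 pcB1 cut_pm_213_b Ext.none :=
  certB0 (fam := false) (s1 := true) (s2 := false) (a := 2) (b := 1) (c := 3) (cn := .pnn) (n1 := ndB1q2b) (n2 := ndB3q3) (pc := pcB1) (cut := cut_pm_213_b) (xt := Ext.none) (P1 := 1239849684) (W1 := 370763052) (P2 := 0) (W2 := 1230186008) (P3 := 780900216) (W3 := 37827925) (N0 := 3) (En := eng) (mo := mog) (C1 := cd1q2b) (C2 := cd3q3) (C3 := pd1)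
    rfl k0_pm_213_b

noncomputable def f_pm_303 : ℕ → ℕ → ℕ → ℕ → Bool := onCell 1610612736 536870912 0 1230186008 780900216 37827925
    (rowB 3 eng mog cd1q3 cd3q3 pd0 0 false true false .npn 3 0 3 (qsf 1610612736 536870912 0 1230186008 0) ndB1q3 ndB3q3 pcB0 Cut.none Ext.none)

def k0_pm_303 : ∃ t, chk3 f_pm_303 t 1 1 1 = true :=
  ⟨(b (l 3) (l 3)), by decide +kernel⟩

theorem c_pm_303 : CertB 1610612736 536870912 0 1230186008 780900216 37827925 3 eng mog cd1q3 cd3q3 pd0 false true false .npn 3 0 3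
    ndB1q3 ndB3q3 pcB0 Cut.none Ext.none :=
  certB0 (fam := false) (s1 := true) (s2 := false) (a := 3) (b := 0) (c := 3) (cn := .npn) (n1 := ndB1q3) (n2 := ndB3q3) (pc := pcB0) (cut := Cut.none) (xt := Ext.none) (P1 := 1610612736) (W1 := 536870912) (P2 := 0) (W2 := 1230186008) (P3 := 780900216) (W3 := 37827925) (N0 := 3) (En := eng) (mo := mog) (C1 := cd1q3) (C2 := cd3q3) (C3 := pd0)
    rfl k0_pm_303

noncomputable def f_pm_313 : ℕ → ℕ → ℕ → ℕ → Bool := onCell 1610612736 536870912 0 1230186008 780900216 37827925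
    (rowB 3 eng mog cd1q3 cd3q3 pd1 0 false true false .dn 3 1 3 (qsf 1610612736 536870912 0 1230186008 1) ndB1q3 ndB3q3 pcB1 Cut.none Ext.none)

def k0_pm_313 : ∃ t, chk3 f_pm_313 t 1 1 1 = true :=
  ⟨(b (l 3) (l 1)), by decide +kernel⟩

theorem c_pm_313 : CertB 1610612736 536870912 0 1230186008 780900216 37827925 3 eng mog cd1q3 cd3q3 pd1 false true false .dn 3 1 3
    ndB1q3 ndB3q3 pcB1 Cut.none Ext.none :=
  certB0 (fam := false) (s1 := true) (s2 := false) (a := 3) (b := 1) (c := 3) (cn := .dn) (n1 := ndB1q3) (n2 := ndB3q3) (pc := pcB1) (cut := Cut.none) (xt := Ext.none) (P1 := 1610612736) (W1 := 536870912) (P2 := 0) (W2 := 1230186008) (P3 := 780900216) (W3 := 37827925) (N0 := 3) (En := eng) (mo := mog) (C1 := cd1q3) (C2 := cd3q3) (C3 := pd1)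
    rfl k0_pm_313

noncomputable def f_mm_001 : ℕ → ℕ → ℕ → ℕ → Bool := onCell 0 536870912 0 536870912 780900216 37827925
    (rowB 3 eng mog cd1q0 cd3q1 pd0 1 false false false .up 0 0 1 (qsf 0 536870912 536870912 536870912 0) ndB1q0 ndB3q1 pcB0 Cut.none Ext.none)

def k0_mm_001 : ∃ t, chk3 f_mm_001 t 1 1 1 = true :=
  ⟨(l 3), by decide +kernel⟩

theorem c_mm_001 : CertB 0 536870912 536870912 536870912 780900216 37827925 3 eng mog cd1q0 cd3q1 pd0 false false false .up 0 0 1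
    ndB1q0 ndB3q1 pcB0 Cut.none Ext.none :=
  certB1 (fam := false) (s1 := false) (s2 := false) (a := 0) (b := 0) (c := 1) (cn := .up) (n1 := ndB1q0) (n2 := ndB3q1) (pc := pcB0) (cut := Cut.none) (xt := Ext.none) (P1 := 0) (W1 := 536870912) (P2 := 536870912) (W2 := 536870912) (P3 := 780900216) (W3 := 37827925) (N0 := 3) (En := eng) (mo := mog) (C1 := cd1q0) (C2 := cd3q1) (C3 := pd0)
    rfl (fun _ => rfl) k0_mm_001

noncomputable def f_mm_011 : ℕ → ℕ → ℕ → ℕ → Bool := onCell 0 536870912 536870912 536870912 780900216 37827925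
    (rowB 3 eng mog cd1q0 cd3q1 pd1 1 false false false .pnn 0 1 1 (qsf 0 536870912 536870912 536870912 1) ndB1q0 ndB3q1 pcB1 Cut.none Ext.none)

def k0_mm_011 : ∃ t, chk3 f_mm_011 t 1 1 1 = true :=
  ⟨(l 5), by decide +kernel⟩

theorem c_mm_011 : CertB 0 536870912 536870912 536870912 780900216 37827925 3 eng mog cd1q0 cd3q1 pd1 false false false .pnn 0 1 1
    ndB1q0 ndB3q1 pcB1 Cut.none Ext.none :=
  certB1 (fam := false) (s1 := false) (s2 := false) (a := 0) (b := 1) (c := 1) (cn := .pnn) (n1 := ndB1q0) (n2 := ndB3q1) (pc := pcB1) (cut := Cut.none) (xt := Ext.none) (P1 := 0) (W1 := 536870912) (P2 := 536870912) (W2 := 536870912) (P3 := 780900216) (W3 := 37827925) (N0 := 3) (En := eng) (mo := mog) (C1 := cd1q0) (C2 := cd3q1) (C3 := pd1)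
    rfl (fun _ => rfl) k0_mm_011

noncomputable def f_mm_012 : ℕ → ℕ → ℕ → ℕ → Bool := onCell 0 536870912 1073741824 536870912 780900216 37827925
    (rowB 3 eng mog cd1q0 cd3q2 pd1 0 false false false .pnp 0 1 2 (qsf 0 536870912 1073741824 536870912 1) ndB1q0 ndB3q2 pcB1 Cut.none Ext.none)

def k0_mm_012 : ∃ t, chk3 f_mm_012 t 1 1 1 = true :=
  ⟨(l 5), by decide +kernel⟩

theorem c_mm_012 : CertB 0 536870912 1073741824 536870912 780900216 37827925 3 eng mog cd1q0 cd3q2 pd1 false false false .pnp 0 1 2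
    ndB1q0 ndB3q2 pcB1 Cut.none Ext.none :=
  certB0 (fam := false) (s1 := false) (s2 := false) (a := 0) (b := 1) (c := 2) (cn := .pnp) (n1 := ndB1q0) (n2 := ndB3q2) (pc := pcB1) (cut := Cut.none) (xt := Ext.none) (P1 := 0) (W1 := 536870912) (P2 := 1073741824) (W2 := 536870912) (P3 := 780900216) (W3 := 37827925) (N0 := 3) (En := eng) (mo := mog) (C1 := cd1q0) (C2 := cd3q2) (C3 := pd1)
    rfl k0_mm_012

noncomputable def f_mm_022 : ℕ → ℕ → ℕ → ℕ → Bool := onCell 0 536870912 1073741824 536870912 780900216 37827925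
    (rowB 3 eng mog cd1q0 cd3q2 pd2 0 false false false .pp 0 2 2 (qsf 0 536870912 1073741824 536870912 2) ndB1q0 ndB3q2 pcB2 Cut.none Ext.none)

def k0_mm_022 : ∃ t, chk3 f_mm_022 t 1 1 1 = true :=
  ⟨(l 5), by decide +kernel⟩

theorem c_mm_022 : CertB 0 536870912 1073741824 536870912 780900216 37827925 3 eng mog cd1q0 cd3q2 pd2 false false false .pp 0 2 2
    ndB1q0 ndB3q2 pcB2 Cut.none Ext.none :=
  certB0 (fam := false) (s1 := false) (s2 := false) (a := 0) (b := 2) (c := 2) (cn := .pp) (n1 := ndB1q0) (n2 := ndB3q2) (pc := pcB2) (cut := Cut.none) (xt := Ext.none) (P1 := 0) (W1 := 536870912) (P2 := 1073741824) (W2 := 536870912) (P3 := 780900216) (W3 := 37827925) (N0 := 3) (En := eng) (mo := mog) (C1 := cd1q0) (C2 := cd3q2) (C3 := pd2)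
    rfl k0_mm_022

noncomputable def f_mm_023 : ℕ → ℕ → ℕ → ℕ → Bool := onCell 0 536870912 0 1230186008 780900216 37827925
    (rowB 3 eng mog cd1q0 cd3q3 pd2 0 false false false .up 0 2 3 (qsf 0 536870912 0 1230186008 2) ndB1q0 ndB3q3 pcB2 Cut.none Ext.none)

def k0_mm_023 : ∃ t, chk3 f_mm_023 t 1 1 1 = true :=
  ⟨(l 5), by decide +kernel⟩

theorem c_mm_023 : CertB 0 536870912 0 1230186008 780900216 37827925 3 eng mog cd1q0 cd3q3 pd2 false false false .up 0 2 3
    ndB1q0 ndB3q3 pcB2 Cut.none Ext.none :=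
  certB0 (fam := false) (s1 := false) (s2 := false) (a := 0) (b := 2) (c := 3) (cn := .up) (n1 := ndB1q0) (n2 := ndB3q3) (pc := pcB2) (cut := Cut.none) (xt := Ext.none) (P1 := 0) (W1 := 536870912) (P2 := 0) (W2 := 1230186008) (P3 := 780900216) (W3 := 37827925) (N0 := 3) (En := eng) (mo := mog) (C1 := cd1q0) (C2 := cd3q3) (C3 := pd2)
    rfl k0_mm_023

noncomputable def f_mm_033 : ℕ → ℕ → ℕ → ℕ → Bool := onCell 0 536870912 0 1230186008 780900216 37827925
    (rowB 3 eng mog cd1q0 cd3q3 pd3 0 false false false .pnn 0 3 3 (qsf 0 536870912 0 1230186008 3) ndB1q0 ndB3q3 pcB3 Cut.none Ext.none)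

def k0_mm_033 : ∃ t, chk3 f_mm_033 t 1 1 1 = true :=
  ⟨(l 5), by decide +kernel⟩

theorem c_mm_033 : CertB 0 536870912 0 1230186008 780900216 37827925 3 eng mog cd1q0 cd3q3 pd3 false false false .pnn 0 3 3
    ndB1q0 ndB3q3 pcB3 Cut.none Ext.none :=
  certB0 (fam := false) (s1 := false) (s2 := false) (a := 0) (b := 3) (c := 3) (cn := .pnn) (n1 := ndB1q0) (n2 := ndB3q3) (pc := pcB3) (cut := Cut.none) (xt := Ext.none) (P1 := 0) (W1 := 536870912) (P2 := 0) (W2 := 1230186008) (P3 := 780900216) (W3 := 37827925) (N0 := 3) (En := eng) (mo := mog) (C1 := cd1q0) (C2 := cd3q3) (C3 := pd3)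
    rfl k0_mm_033

noncomputable def f_mm_101 : ℕ → ℕ → ℕ → ℕ → Bool := onCell 536870912 536870912 536870912 536870912 780900216 37827925
    (rowB 3 eng mog cd1q1 cd3q1 pd0 0 false false false .npn 1 0 1 (qsf 536870912 536870912 536870912 536870912 0) ndB1q1 ndB3q1 pcB0 Cut.none Ext.none)

def k0_mm_101 : ∃ t, chk3 f_mm_101 t 1 1 1 = true :=
  ⟨(l 3), by decide +kernel⟩

theorem c_mm_101 : CertB 536870912 536870912 536870912 536870912 780900216 37827925 3 eng mog cd1q1 cd3q1 pd0 false false false .npn 1 0 1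
    ndB1q1 ndB3q1 pcB0 Cut.none Ext.none :=
  certB0 (fam := false) (s1 := false) (s2 := false) (a := 1) (b := 0) (c := 1) (cn := .npn) (n1 := ndB1q1) (n2 := ndB3q1) (pc := pcB0) (cut := Cut.none) (xt := Ext.none) (P1 := 536870912) (W1 := 536870912) (P2 := 536870912) (W2 := 536870912) (P3 := 780900216) (W3 := 37827925) (N0 := 3) (En := eng) (mo := mog) (C1 := cd1q1) (C2 := cd3q1) (C3 := pd0)
    rfl k0_mm_101

noncomputable def f_mm_102 : ℕ → ℕ → ℕ → ℕ → Bool := onCell 536870912 536870912 0 536870912 780900216 37827925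
    (rowB 3 eng mog cd1q1 cd3q2 pd0 1 false false false .npp 1 0 2 (qsf 536870912 536870912 1073741824 536870912 0) ndB1q1 ndB3q2 pcB0 Cut.none Ext.none)

def k0_mm_102 : ∃ t, chk3 f_mm_102 t 1 1 1 = true :=
  ⟨(l 3), by decide +kernel⟩

theorem c_mm_102 : CertB 536870912 536870912 1073741824 536870912 780900216 37827925 3 eng mog cd1q1 cd3q2 pd0 false false false .npp 1 0 2
    ndB1q1 ndB3q2 pcB0 Cut.none Ext.none :=
  certB1 (fam := false) (s1 := false) (s2 := false) (a := 1) (b := 0) (c := 2) (cn := .npp) (n1 := ndB1q1) (n2 := ndB3q2) (pc := pcB0) (cut := Cut.none) (xt := Ext.none) (P1 := 536870912) (W1 := 536870912) (P2 := 1073741824) (W2 := 536870912) (P3 := 780900216) (W3 := 37827925) (N0 := 3) (En := eng) (mo := mog) (C1 := cd1q1) (C2 := cd3q2) (C3 := pd0)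
    rfl (fun _ => rfl) k0_mm_102

noncomputable def f_mm_112 : ℕ → ℕ → ℕ → ℕ → Bool := onCell 536870912 536870912 536870912 536870912 780900216 37827925
    (rowB 3 eng mog cd1q1 cd3q2 pd1 1 false false false .dn 1 1 2 (qsf 536870912 536870912 1073741824 536870912 1) ndB1q1 ndB3q2 pcB1 Cut.none Ext.none)

def k0_mm_112 : ∃ t, chk3 f_mm_112 t 1 1 1 = true :=
  ⟨(l 5), by decide +kernel⟩

theorem c_mm_112 : CertB 536870912 536870912 1073741824 536870912 780900216 37827925 3 eng mog cd1q1 cd3q2 pd1 false false false .dn 1 1 2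
    ndB1q1 ndB3q2 pcB1 Cut.none Ext.none :=
  certB1 (fam := false) (s1 := false) (s2 := false) (a := 1) (b := 1) (c := 2) (cn := .dn) (n1 := ndB1q1) (n2 := ndB3q2) (pc := pcB1) (cut := Cut.none) (xt := Ext.none) (P1 := 536870912) (W1 := 536870912) (P2 := 1073741824) (W2 := 536870912) (P3 := 780900216) (W3 := 37827925) (N0 := 3) (En := eng) (mo := mog) (C1 := cd1q1) (C2 := cd3q2) (C3 := pd1)
    rfl (fun _ => rfl) k0_mm_112

noncomputable def f_mm_113 : ℕ → ℕ → ℕ → ℕ → Bool := onCell 536870912 536870912 0 1230186008 780900216 37827925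
    (rowB 3 eng mog cd1q1 cd3q3 pd1 0 false false false .nn 1 1 3 (qsf 536870912 536870912 0 1230186008 1) ndB1q1 ndB3q3 pcB1 Cut.none Ext.none)

def k0_mm_113 : ∃ t, chk3 f_mm_113 t 1 1 1 = true :=
  ⟨(l 5), by decide +kernel⟩

theorem c_mm_113 : CertB 536870912 536870912 0 1230186008 780900216 37827925 3 eng mog cd1q1 cd3q3 pd1 false false false .nn 1 1 3
    ndB1q1 ndB3q3 pcB1 Cut.none Ext.none :=
  certB0 (fam := false) (s1 := false) (s2 := false) (a := 1) (b := 1) (c := 3) (cn := .nn) (n1 := ndB1q1) (n2 := ndB3q3) (pc := pcB1) (cut := Cut.none) (xt := Ext.none) (P1 := 536870912) (W1 := 536870912) (P2 := 0) (W2 := 1230186008) (P3 := 780900216) (W3 := 37827925) (N0 := 3) (En := eng) (mo := mog) (C1 := cd1q1) (C2 := cd3q3) (C3 := pd1)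
    rfl k0_mm_113

noncomputable def f_mm_123 : ℕ → ℕ → ℕ → ℕ → Bool := onCell 536870912 536870912 0 1230186008 780900216 37827925
    (rowB 3 eng mog cd1q1 cd3q3 pd2 0 false false false .npn 1 2 3 (qsf 536870912 536870912 0 1230186008 2) ndB1q1 ndB3q3 pcB2 Cut.none Ext.none)

def k0_mm_123 : ∃ t, chk3 f_mm_123 t 1 1 1 = true :=
  ⟨(l 5), by decide +kernel⟩

theorem c_mm_123 : CertB 536870912 536870912 0 1230186008 780900216 37827925 3 eng mog cd1q1 cd3q3 pd2 false false false .npn 1 2 3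
    ndB1q1 ndB3q3 pcB2 Cut.none Ext.none :=
  certB0 (fam := false) (s1 := false) (s2 := false) (a := 1) (b := 2) (c := 3) (cn := .npn) (n1 := ndB1q1) (n2 := ndB3q3) (pc := pcB2) (cut := Cut.none) (xt := Ext.none) (P1 := 536870912) (W1 := 536870912) (P2 := 0) (W2 := 1230186008) (P3 := 780900216) (W3 := 37827925) (N0 := 3) (En := eng) (mo := mog) (C1 := cd1q1) (C2 := cd3q3) (C3 := pd2)
    rfl k0_mm_123

noncomputable def f_mm_133 : ℕ → ℕ → ℕ → ℕ → Bool := onCell 536870912 536870912 0 1230186008 780900216 37827925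
    (rowB 3 eng mog cd1q1 cd3q3 pd3 0 false false false .dn 1 3 3 (qsf 536870912 536870912 0 1230186008 3) ndB1q1 ndB3q3 pcB3 Cut.none Ext.none)

def k0_mm_133 : ∃ t, chk3 f_mm_133 t 1 1 1 = true :=
  ⟨(l 5), by decide +kernel⟩

theorem c_mm_133 : CertB 536870912 536870912 0 1230186008 780900216 37827925 3 eng mog cd1q1 cd3q3 pd3 false false false .dn 1 3 3
    ndB1q1 ndB3q3 pcB3 Cut.none Ext.none :=
  certB0 (fam := false) (s1 := false) (s2 := false) (a := 1) (b := 3) (c := 3) (cn := .dn) (n1 := ndB1q1) (n2 := ndB3q3) (pc := pcB3) (cut := Cut.none) (xt := Ext.none) (P1 := 536870912) (W1 := 536870912) (P2 := 0) (W2 := 1230186008) (P3 := 780900216) (W3 := 37827925) (N0 := 3) (En := eng) (mo := mog) (C1 := cd1q1) (C2 := cd3q3) (C3 := pd3)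
    rfl k0_mm_133

noncomputable def f_mm_202_a : ℕ → ℕ → ℕ → ℕ → Bool := onCell 0 536870912 1073741824 536870912 780900216 37827925
    (rowB 3 eng mog cd1q2a cd3q2 pd0 0 false false false .pp 2 0 2 (qsf 0 536870912 1073741824 536870912 0) ndB1q2a ndB3q2 pcB0 Cut.none Ext.none)

def k0_mm_202_a : ∃ t, chk3 f_mm_202_a t 1 1 1 = true :=
  ⟨(l 3), by decide +kernel⟩

theorem c_mm_202_a : CertB 0 536870912 1073741824 536870912 780900216 37827925 3 eng mog cd1q2a cd3q2 pd0 false false false .pp 2 0 2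
    ndB1q2a ndB3q2 pcB0 Cut.none Ext.none :=
  certB0 (fam := false) (s1 := false) (s2 := false) (a := 2) (b := 0) (c := 2) (cn := .pp) (n1 := ndB1q2a) (n2 := ndB3q2) (pc := pcB0) (cut := Cut.none) (xt := Ext.none) (P1 := 0) (W1 := 536870912) (P2 := 1073741824) (W2 := 536870912) (P3 := 780900216) (W3 := 37827925) (N0 := 3) (En := eng) (mo := mog) (C1 := cd1q2a) (C2 := cd3q2) (C3 := pd0)
    rfl k0_mm_202_a

noncomputable def f_mm_202_b : ℕ → ℕ → ℕ → ℕ → Bool := onCell 1239849684 370763052 1073741824 536870912 780900216 37827925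
    (rowB 3 eng mog cd1q2b cd3q2 pd0 0 false false false .pp 2 0 2 (qsf 1239849684 370763052 1073741824 536870912 0) ndB1q2b ndB3q2 pcB0 Cut.none Ext.none)

def k0_mm_202_b : ∃ t, chk3 f_mm_202_b t 1 1 1 = true :=
  ⟨(l 3), by decide +kernel⟩

theorem c_mm_202_b : CertB 1239849684 370763052 1073741824 536870912 780900216 37827925 3 eng mog cd1q2b cd3q2 pd0 false false false .pp 2 0 2
    ndB1q2b ndB3q2 pcB0 Cut.none Ext.none :=
  certB0 (fam := false) (s1 := false) (s2 := false) (a := 2) (b := 0) (c := 2) (cn := .pp) (n1 := ndB1q2b) (n2 := ndB3q2) (pc := pcB0) (cut := Cut.none) (xt := Ext.none) (P1 := 1239849684) (W1 := 370763052) (P2 := 1073741824) (W2 := 536870912) (P3 := 780900216) (W3 := 37827925) (N0 := 3) (En := eng) (mo := mog) (C1 := cd1q2b) (C2 := cd3q2) (C3 := pd0)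
    rfl k0_mm_202_b

noncomputable def f_mm_203_a : ℕ → ℕ → ℕ → ℕ → Bool := onCell 0 536870912 0 1230186008 780900216 37827925
    (rowB 3 eng mog cd1q2a cd3q3 pd0 0 false false false .up 2 0 3 (qsf 0 536870912 0 1230186008 0) ndB1q2a ndB3q3 pcB0 Cut.none Ext.none)

def k0_mm_203_a : ∃ t, chk3 f_mm_203_a t 1 1 1 = true :=
  ⟨(b (l 2) (l 3)), by decide +kernel⟩

theorem c_mm_203_a : CertB 0 536870912 0 1230186008 780900216 37827925 3 eng mog cd1q2a cd3q3 pd0 false false false .up 2 0 3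
    ndB1q2a ndB3q3 pcB0 Cut.none Ext.none :=
  certB0 (fam := false) (s1 := false) (s2 := false) (a := 2) (b := 0) (c := 3) (cn := .up) (n1 := ndB1q2a) (n2 := ndB3q3) (pc := pcB0) (cut := Cut.none) (xt := Ext.none) (P1 := 0) (W1 := 536870912) (P2 := 0) (W2 := 1230186008) (P3 := 780900216) (W3 := 37827925) (N0 := 3) (En := eng) (mo := mog) (C1 := cd1q2a) (C2 := cd3q3) (C3 := pd0)
    rfl k0_mm_203_a

noncomputable def f_mm_203_b : ℕ → ℕ → ℕ → ℕ → Bool := onCell 1239849684 370763052 0 1230186008 780900216 37827925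
    (rowB 3 eng mog cd1q2b cd3q3 pd0 0 false false false .up 2 0 3 (qsf 1239849684 370763052 0 1230186008 0) ndB1q2b ndB3q3 pcB0 Cut.none Ext.none)

def k0_mm_203_b : ∃ t, chk3 f_mm_203_b t 1 1 1 = true :=
  ⟨(b (l 3) (l 3)), by decide +kernel⟩

theorem c_mm_203_b : CertB 1239849684 370763052 0 1230186008 780900216 37827925 3 eng mog cd1q2b cd3q3 pd0 false false false .up 2 0 3
    ndB1q2b ndB3q3 pcB0 Cut.none Ext.none :=
  certB0 (fam := false) (s1 := false) (s2 := false) (a := 2) (b := 0) (c := 3) (cn := .up) (n1 := ndB1q2b) (n2 := ndB3q3) (pc := pcB0) (cut := Cut.none) (xt := Ext.none) (P1 := 1239849684) (W1 := 370763052) (P2 := 0) (W2 := 1230186008) (P3 := 780900216) (W3 := 37827925) (N0 := 3) (En := eng) (mo := mog) (C1 := cd1q2b) (C2 := cd3q3) (C3 := pd0)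
    rfl k0_mm_203_b

noncomputable def f_mm_213_a : ℕ → ℕ → ℕ → ℕ → Bool := onCell 0 536870912 0 1230186008 780900216 37827925
    (rowB 3 eng mog cd1q2a cd3q3 pd1 0 false false false .pnn 2 1 3 (qsf 0 536870912 0 1230186008 1) ndB1q2a ndB3q3 pcB1 Cut.none Ext.none)

def k0_mm_213_a : ∃ t, chk3 f_mm_213_a t 1 1 1 = true :=
  ⟨(b (a (l 3) (l 5)) (l 3)), by decide +kernel⟩

theorem c_mm_213_a : CertB 0 536870912 0 1230186008 780900216 37827925 3 eng mog cd1q2a cd3q3 pd1 false false false .pnn 2 1 3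
    ndB1q2a ndB3q3 pcB1 Cut.none Ext.none :=
  certB0 (fam := false) (s1 := false) (s2 := false) (a := 2) (b := 1) (c := 3) (cn := .pnn) (n1 := ndB1q2a) (n2 := ndB3q3) (pc := pcB1) (cut := Cut.none) (xt := Ext.none) (P1 := 0) (W1 := 536870912) (P2 := 0) (W2 := 1230186008) (P3 := 780900216) (W3 := 37827925) (N0 := 3) (En := eng) (mo := mog) (C1 := cd1q2a) (C2 := cd3q3) (C3 := pd1)
    rfl k0_mm_213_a

noncomputable def f_mm_213_b : ℕ → ℕ → ℕ → ℕ → Bool := onCell 1239849684 370763052 0 1230186008 780900216 37827925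
    (rowB 3 eng mog cd1q2b cd3q3 pd1 0 false false false .pnn 2 1 3 (qsf 1239849684 370763052 0 1230186008 1) ndB1q2b ndB3q3 pcB1 Cut.none Ext.none)

def k0_mm_213_b : ∃ t, chk3 f_mm_213_b t 1 1 1 = true :=
  ⟨(b (l 3) (l 3)), by decide +kernel⟩

theorem c_mm_213_b : CertB 1239849684 370763052 0 1230186008 780900216 37827925 3 eng mog cd1q2b cd3q3 pd1 false false false .pnn 2 1 3
    ndB1q2b ndB3q3 pcB1 Cut.none Ext.none :=
  certB0 (fam := false) (s1 := false) (s2 := false) (a := 2) (b := 1) (c := 3) (cn := .pnn) (n1 := ndB1q2b) (n2 := ndB3q3) (pc := pcB1) (cut := Cut.none) (xt := Ext.none) (P1 := 1239849684) (W1 := 370763052) (P2 := 0) (W2 := 1230186008) (P3 := 780900216) (W3 := 37827925) (N0 := 3) (En := eng) (mo := mog) (C1 := cd1q2b) (C2 := cd3q3) (C3 := pd1)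
    rfl k0_mm_213_b

noncomputable def f_mm_303 : ℕ → ℕ → ℕ → ℕ → Bool := onCell 1610612736 536870912 0 1230186008 780900216 37827925
    (rowB 3 eng mog cd1q3 cd3q3 pd0 0 false false false .npn 3 0 3 (qsf 1610612736 536870912 0 1230186008 0) ndB1q3 ndB3q3 pcB0 Cut.none Ext.none)

def k0_mm_303 : ∃ t, chk3 f_mm_303 t 1 1 1 = true :=
  ⟨(b (l 3) (l 3)), by decide +kernel⟩

theorem c_mm_303 : CertB 1610612736 536870912 0 1230186008 780900216 37827925 3 eng mog cd1q3 cd3q3 pd0 false false false .npn 3 0 3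
    ndB1q3 ndB3q3 pcB0 Cut.none Ext.none :=
  certB0 (fam := false) (s1 := false) (s2 := false) (a := 3) (b := 0) (c := 3) (cn := .npn) (n1 := ndB1q3) (n2 := ndB3q3) (pc := pcB0) (cut := Cut.none) (xt := Ext.none) (P1 := 1610612736) (W1 := 536870912) (P2 := 0) (W2 := 1230186008) (P3 := 780900216) (W3 := 37827925) (N0 := 3) (En := eng) (mo := mog) (C1 := cd1q3) (C2 := cd3q3) (C3 := pd0)
    rfl k0_mm_303

noncomputable def f_mm_313 : ℕ → ℕ → ℕ → ℕ → Bool := onCell 1610612736 536870912 0 1230186008 780900216 37827925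
    (rowB 3 eng mog cd1q3 cd3q3 pd1 0 false false false .dn 3 1 3 (qsf 1610612736 536870912 0 1230186008 1) ndB1q3 ndB3q3 pcB1 Cut.none Ext.none)

def k0_mm_313 : ∃ t, chk3 f_mm_313 t 1 1 1 = true :=
  ⟨(b (l 3) (l 1)), by decide +kernel⟩

theorem c_mm_313 : CertB 1610612736 536870912 0 1230186008 780900216 37827925 3 eng mog cd1q3 cd3q3 pd1 false false false .dn 3 1 3
    ndB1q3 ndB3q3 pcB1 Cut.none Ext.none :=
  certB0 (fam := false) (s1 := false) (s2 := false) (a := 3) (b := 1) (c := 3) (cn := .dn) (n1 := ndB1q3) (n2 := ndB3q3) (pc := pcB1) (cut := Cut.none) (xt := Ext.none) (P1 := 1610612736) (W1 := 536870912) (P2 := 0) (W2 := 1230186008) (P3 := 780900216) (W3 := 37827925) (N0 := 3) (En := eng) (mo := mog) (C1 := cd1q3) (C2 := cd3q3) (C3 := pd1)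
    rfl k0_mm_313

end Pool.Agent.Strip051.G.I72727_7625.Tab.C.BB13

namespace Pool.Agent.Strip051.G.I72727_7625.Tab.C.BB14

open Pool.Agent.Strip051.PB Pool.Agent.Strip051.PB.T
open Pool.Agent.Strip051.G.I72727_7625.Tab

noncomputable def f_pp_001 : ℕ → ℕ → ℕ → ℕ → Bool := onCell 0 536870912 0 536870912 780900216 37827925
    (rowB 3 eng mog cd1q0 cd4q1 pd0 1 false true true .up 0 0 1 (qsf 0 536870912 536870912 536870912 0) ndB1q0 ndB4q1 pcB0 Cut.none Ext.none)

def k0_pp_001 : ∃ t, chk3 f_pp_001 t 1 1 1 = true :=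
  ⟨(l 3), by decide +kernel⟩

theorem c_pp_001 : CertB 0 536870912 536870912 536870912 780900216 37827925 3 eng mog cd1q0 cd4q1 pd0 false true true .up 0 0 1
    ndB1q0 ndB4q1 pcB0 Cut.none Ext.none :=
  certB1 (fam := false) (s1 := true) (s2 := true) (a := 0) (b := 0) (c := 1) (cn := .up) (n1 := ndB1q0) (n2 := ndB4q1) (pc := pcB0) (cut := Cut.none) (xt := Ext.none) (P1 := 0) (W1 := 536870912) (P2 := 536870912) (W2 := 536870912) (P3 := 780900216) (W3 := 37827925) (N0 := 3) (En := eng) (mo := mog) (C1 := cd1q0) (C2 := cd4q1) (C3 := pd0)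
    rfl (fun _ => rfl) k0_pp_001

noncomputable def cut_pp_011 : Cut := Cut.of [[⟨0, 0, 0, 67108864⟩, ⟨1, 1, 0, 67108864⟩, ⟨2, 1, 0, 67108864⟩]]

noncomputable def f_pp_011 : ℕ → ℕ → ℕ → ℕ → Bool := onCell 0 536870912 536870912 536870912 780900216 37827925
    (rowB 3 eng mog cd1q0 cd4q1 pd1 1 false true true .pnn 0 1 1 (qsf 0 536870912 536870912 536870912 1) ndB1q0 ndB4q1 pcB1 cut_pp_011 Ext.none)

def k0_pp_011 : ∃ t, chk3 f_pp_011 t 1 1 1 = true :=
  ⟨(b (l 3) (b (l 3) (a (b (l 3) (a (a (b (l 3) (a (l 6) (l 3))) (l 3)) (l 2))) (l 2)))), by decide +kernel⟩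

theorem c_pp_011 : CertB 0 536870912 536870912 536870912 780900216 37827925 3 eng mog cd1q0 cd4q1 pd1 false true true .pnn 0 1 1
    ndB1q0 ndB4q1 pcB1 cut_pp_011 Ext.none :=
  certB1 (fam := false) (s1 := true) (s2 := true) (a := 0) (b := 1) (c := 1) (cn := .pnn) (n1 := ndB1q0) (n2 := ndB4q1) (pc := pcB1) (cut := cut_pp_011) (xt := Ext.none) (P1 := 0) (W1 := 536870912) (P2 := 536870912) (W2 := 536870912) (P3 := 780900216) (W3 := 37827925) (N0 := 3) (En := eng) (mo := mog) (C1 := cd1q0) (C2 := cd4q1) (C3 := pd1)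
    rfl (fun _ => rfl) k0_pp_011

noncomputable def f_pp_012 : ℕ → ℕ → ℕ → ℕ → Bool := onCell 0 536870912 536870912 536870912 780900216 37827925
    (rowB 3 eng mog cd1q0 cd4q2 pd1 1 false true true .pnp 0 1 2 (qsf 0 536870912 1073741824 536870912 1) ndB1q0 ndB4q2 pcB1 Cut.none Ext.none)

def k0_pp_012 : ∃ t, chk3 f_pp_012 t 1 1 1 = true :=
  ⟨(l 3), by decide +kernel⟩

theorem c_pp_012 : CertB 0 536870912 1073741824 536870912 780900216 37827925 3 eng mog cd1q0 cd4q2 pd1 false true true .pnp 0 1 2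
    ndB1q0 ndB4q2 pcB1 Cut.none Ext.none :=
  certB1 (fam := false) (s1 := true) (s2 := true) (a := 0) (b := 1) (c := 2) (cn := .pnp) (n1 := ndB1q0) (n2 := ndB4q2) (pc := pcB1) (cut := Cut.none) (xt := Ext.none) (P1 := 0) (W1 := 536870912) (P2 := 1073741824) (W2 := 536870912) (P3 := 780900216) (W3 := 37827925) (N0 := 3) (En := eng) (mo := mog) (C1 := cd1q0) (C2 := cd4q2) (C3 := pd1)
    rfl (fun _ => rfl) k0_pp_012

noncomputable def f_pp_022 : ℕ → ℕ → ℕ → ℕ → Bool := onCell 0 536870912 1073741824 536870912 780900216 37827925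
    (rowB 3 eng mog cd1q0 cd4q2 pd2 1 false true true .pp 0 2 2 (qsf 0 536870912 1073741824 536870912 2) ndB1q0 ndB4q2 pcB2 Cut.none Ext.none)

def k0_pp_022 : ∃ t, chk3 f_pp_022 t 1 2 1 = true :=
  ⟨(b (b (l 3) (a (l 3) (a (l 3) (a (l 3) (b (l 3) (l 2)))))) (b (a (b (b (l 3) (b (a (l 3) (a (l 3) (l 918753662519))) (a (b (l 3) (a (b (a (c (l 16471848) (l 16441312)) (l 3)) (a (l 16398856) (l 16417856))) (b (a (l 3) (l 16453160)) (l 16440992)))) (b (a (l 1374556808455) (l 16529928)) (a (b (l 16522352) (l 16476048)) (b (l 16524608) (l 16521080))))))) (a (a (a (a (l 16348832) (l 16359080)) (a (l 16368720) (l 16377624))) (a (l 16390072) (l 16407584))) (a (a (l 16427656) (l 16451360)) (l 16491712)))) (a (b (b (a (l 3) (l 482277626247)) (b (a (l 16563840) (l 16572840)) (b (a (l 16560776) (l 16573096)) (a (b (l 16558152) (l 16556376)) (l 16574744))))) (a (l 16536320) (l 16565472))) (b (b (a (l 16584928) (l 2)) (l 2)) (l 2)))) (a (a (a (b (a (l 16354672)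 (l 16291440)) (a (l 16190056) (l 16214872))) (b (a (l 16312712) (l 16335504)) (a (l 16241416) (l 16269696)))) (a (a (b (l 16361112) (l 16300968)) (b (l 16390688) (l 16336584))) (b (l 16441048) (l 16396864)))) (a (a (b (l 16501136) (l 16471416)) (l 16538632)) (l 2))))), by decide +kernel⟩

def k1_pp_022 : ∃ t, chk3 f_pp_022 t 1 3 1 = true :=
  ⟨(a (b (a (a (b (a (b (l 16114376) (l 16045040)) (b (l 16144512) (l 16080776))) (a (b (l 15982472) (l 15927160)) (l 16208216))) (b (a (b (l 16176584) (l 16118608)) (l 16351288)) (a (l 16066480) (l 16094768)))) (b (a (b (l 16310680) (l 16225984)) (b (l 16359672) (l 16329800))) (a (a (l 16147632) (l 16205336)) (b (l 16306216) (l 2))))) (a (a (b (a (b (l 15879632) (l 15840504)) (l 15916712)) (a (l 15861904) (l 15912824))) (b (a (l 15976944) (l 16039240)) (b (l 15983808) (l 2)))) (b (a (b (l 16144520) (l 2)) (l 2)) (l 2)))) (b (a (b (a (l 16434392) (l 2)) (l 2)) (l 2)) (l 2))), by decide +kernel⟩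

theorem s2_pp_022 : ∃ t, chk3 f_pp_022 t 1 1 1 = true := ex3_b k0_pp_022 k1_pp_022

theorem c_pp_022 : CertB 0 536870912 1073741824 536870912 780900216 37827925 3 eng mog cd1q0 cd4q2 pd2 false true true .pp 0 2 2
    ndB1q0 ndB4q2 pcB2 Cut.none Ext.none :=
  certB1 (fam := false) (s1 := true) (s2 := true) (a := 0) (b := 2) (c := 2) (cn := .pp) (n1 := ndB1q0) (n2 := ndB4q2) (pc := pcB2) (cut := Cut.none) (xt := Ext.none) (P1 := 0) (W1 := 536870912) (P2 := 1073741824) (W2 := 536870912) (P3 := 780900216) (W3 := 37827925) (N0 := 3) (En := eng) (mo := mog) (C1 := cd1q0) (C2 := cd4q2) (C3 := pd2)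
    rfl (fun _ => rfl) s2_pp_022

noncomputable def f_pp_023 : ℕ → ℕ → ℕ → ℕ → Bool := onCell 1073741824 536870912 0 1230186008 780900216 37827925
    (rowB 3 eng mog cd1q0 cd4q3 pd2 2 false true true .up 0 2 3 (qsf 0 536870912 0 1230186008 2) ndB1q0 ndB4q3 pcB2 Cut.none Ext.none)

def k0_pp_023 : ∃ t, chk3 f_pp_023 t 1 1 1 = true :=
  ⟨(a (b (l 2) (b (a (l 2) (a (l 2) (b (l 2) (l 16579024)))) (b (a (l 2) (a (a (b (l 2) (a (l 16606232) (l 16611144))) (l 16600472)) (l 16580232))) (b (a (a (l 2) (a (l 3) (a (l 3) (l 16586792)))) (a (a (a (l 16594576) (l 16601568)) (l 16594864)) (l 16560928))) (a (l 3) (a (a (a (l 172502811463) (a (l 16583984) (a (l 16583472) (l 16582984)))) (l 16572336)) (b (l 16528208) (l 16485360)))))))) (b (a (l 2) (b (b (l 16529248) (l 16555672)) (a (l 16578648) (l 16484640)))) (b (a (b (l 16566032) (l 16726632)) (b (l 16536880) (a (l 16489648) (l 16413984)))) (b (a (a (l 16534592) (l 16470928)) (a (l 16369264) (b (l 16296576)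 (l 16190824)))) (a (b (a (l 16480064) (l 16359248)) (a (b (l 16413376) (l 16351504)) (b (l 16269984) (l 16195328)))) (b (a (l 16216176) (l 16065352)) (a (b (l 16112832) (l 16035488)) (b (l 15957016) (l 15874576))))))))), by decide +kernel⟩

theorem c_pp_023 : CertB 0 536870912 0 1230186008 780900216 37827925 3 eng mog cd1q0 cd4q3 pd2 false true true .up 0 2 3
    ndB1q0 ndB4q3 pcB2 Cut.none Ext.none :=
  certB2 (fam := false) (s1 := true) (s2 := true) (a := 0) (b := 2) (c := 3) (cn := .up) (n1 := ndB1q0) (n2 := ndB4q3) (pc := pcB2) (cut := Cut.none) (xt := Ext.none) (P1 := 0) (W1 := 536870912) (P2 := 0) (W2 := 1230186008) (P3 := 780900216) (W3 := 37827925) (N0 := 3) (En := eng) (mo := mog) (C1 := cd1q0) (C2 := cd4q3) (C3 := pd2)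
    rfl (fun _ => rfl) k0_pp_023

noncomputable def f_pp_033 : ℕ → ℕ → ℕ → ℕ → Bool := onCell 1610612736 536870912 0 1230186008 780900216 37827925
    (rowB 3 eng mog cd1q0 cd4q3 pd3 2 false true true .pnn 0 3 3 (qsf 0 536870912 0 1230186008 3) ndB1q0 ndB4q3 pcB3 Cut.none Ext.none)

def k0_pp_033 : ∃ t, chk3 f_pp_033 t 1 1 1 = true :=
  ⟨(b (b (a (a (a (l 16558184) (l 16506688)) (a (l 16456000) (l 16380680))) (a (a (l 16284288) (l 4)) (l 4))) (a (a (b (l 16540184) (l 16495816)) (a (b (l 16419280) (l 16352288)) (b (l 16333680) (l 16253952)))) (b (a (a (l 16237856) (l 16136256)) (l 4)) (a (a (l 16242888) (a (l 16094960) (l 16041960))) (a (a (l 15993832) (l 4)) (l 4)))))) (b (a (a (b (a (l 16458864) (l 16351544)) (a (l 16295976) (b (l 16234288) (l 16117184)))) (a (b (l 16238320) (b (l 16115376) (l 15999272))) (b (a (l 16154600) (l 16104464)) (a (l 15978752) (l 190084157511))))) (b (a (a (a (l 16059056) (l 16015400)) (a (l 15972688) (l 518649684023)))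 (a (a (l 528313271559) (l 1)) (l 1))) (a (a (a (l 459593207639) (b (l 15887912) (l 530996836151))) (b (l 415033374615) (l 1))) (l 1)))) (a (b (a (a (b (l 16129216) (l 16006632)) (b (l 15991888) (l 15862632))) (a (b (l 15863904) (l 250750662711)) (b (a (l 15772088) (l 15714192)) (l 1)))) (a (b (a (a (l 15916080) (l 15839816)) (b (l 15760560) (l 236791911047))) (a (b (l 15775320) (l 220685681655)) (b (l 263635350183) (l 1)))) (b (a (b (l 275983289911) (l 1)) (l 1)) (l 1)))) (l 1)))), by decide +kernel⟩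

theorem c_pp_033 : CertB 0 536870912 0 1230186008 780900216 37827925 3 eng mog cd1q0 cd4q3 pd3 false true true .pnn 0 3 3
    ndB1q0 ndB4q3 pcB3 Cut.none Ext.none :=
  certB2 (fam := false) (s1 := true) (s2 := true) (a := 0) (b := 3) (c := 3) (cn := .pnn) (n1 := ndB1q0) (n2 := ndB4q3) (pc := pcB3) (cut := Cut.none) (xt := Ext.none) (P1 := 0) (W1 := 536870912) (P2 := 0) (W2 := 1230186008) (P3 := 780900216) (W3 := 37827925) (N0 := 3) (En := eng) (mo := mog) (C1 := cd1q0) (C2 := cd4q3) (C3 := pd3)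
    rfl (fun _ => rfl) k0_pp_033

noncomputable def f_pp_101 : ℕ → ℕ → ℕ → ℕ → Bool := onCell 536870912 536870912 0 536870912 780900216 37827925
    (rowB 3 eng mog cd1q1 cd4q1 pd0 1 false true true .npn 1 0 1 (qsf 536870912 536870912 536870912 536870912 0) ndB1q1 ndB4q1 pcB0 Cut.none Ext.none)

def k0_pp_101 : ∃ t, chk3 f_pp_101 t 1 1 1 = true :=
  ⟨(l 3), by decide +kernel⟩

theorem c_pp_101 : CertB 536870912 536870912 536870912 536870912 780900216 37827925 3 eng mog cd1q1 cd4q1 pd0 false true true .npn 1 0 1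
    ndB1q1 ndB4q1 pcB0 Cut.none Ext.none :=
  certB1 (fam := false) (s1 := true) (s2 := true) (a := 1) (b := 0) (c := 1) (cn := .npn) (n1 := ndB1q1) (n2 := ndB4q1) (pc := pcB0) (cut := Cut.none) (xt := Ext.none) (P1 := 536870912) (W1 := 536870912) (P2 := 536870912) (W2 := 536870912) (P3 := 780900216) (W3 := 37827925) (N0 := 3) (En := eng) (mo := mog) (C1 := cd1q1) (C2 := cd4q1) (C3 := pd0)
    rfl (fun _ => rfl) k0_pp_101

noncomputable def f_pp_102 : ℕ → ℕ → ℕ → ℕ → Bool := onCell 536870912 536870912 1073741824 536870912 780900216 37827925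
    (rowB 3 eng mog cd1q1 cd4q2 pd0 0 false true true .npp 1 0 2 (qsf 536870912 536870912 1073741824 536870912 0) ndB1q1 ndB4q2 pcB0 Cut.none Ext.none)

def k0_pp_102 : ∃ t, chk3 f_pp_102 t 1 1 1 = true :=
  ⟨(l 3), by decide +kernel⟩

theorem c_pp_102 : CertB 536870912 536870912 1073741824 536870912 780900216 37827925 3 eng mog cd1q1 cd4q2 pd0 false true true .npp 1 0 2
    ndB1q1 ndB4q2 pcB0 Cut.none Ext.none :=
  certB0 (fam := false) (s1 := true) (s2 := true) (a := 1) (b := 0) (c := 2) (cn := .npp) (n1 := ndB1q1) (n2 := ndB4q2) (pc := pcB0) (cut := Cut.none) (xt := Ext.none) (P1 := 536870912) (W1 := 536870912) (P2 := 1073741824) (W2 := 536870912) (P3 := 780900216) (W3 := 37827925) (N0 := 3) (En := eng) (mo := mog) (C1 := cd1q1) (C2 := cd4q2) (C3 := pd0)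
    rfl k0_pp_102

noncomputable def f_pp_112 : ℕ → ℕ → ℕ → ℕ → Bool := onCell 536870912 536870912 1073741824 536870912 780900216 37827925
    (rowB 3 eng mog cd1q1 cd4q2 pd1 0 false true true .dn 1 1 2 (qsf 536870912 536870912 1073741824 536870912 1) ndB1q1 ndB4q2 pcB1 Cut.none Ext.none)

def k0_pp_112 : ∃ t, chk3 f_pp_112 t 1 1 1 = true :=
  ⟨(l 3), by decide +kernel⟩

theorem c_pp_112 : CertB 536870912 536870912 1073741824 536870912 780900216 37827925 3 eng mog cd1q1 cd4q2 pd1 false true true .dn 1 1 2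
    ndB1q1 ndB4q2 pcB1 Cut.none Ext.none :=
  certB0 (fam := false) (s1 := true) (s2 := true) (a := 1) (b := 1) (c := 2) (cn := .dn) (n1 := ndB1q1) (n2 := ndB4q2) (pc := pcB1) (cut := Cut.none) (xt := Ext.none) (P1 := 536870912) (W1 := 536870912) (P2 := 1073741824) (W2 := 536870912) (P3 := 780900216) (W3 := 37827925) (N0 := 3) (En := eng) (mo := mog) (C1 := cd1q1) (C2 := cd4q2) (C3 := pd1)
    rfl k0_pp_112

noncomputable def f_pp_113 : ℕ → ℕ → ℕ → ℕ → Bool := onCell 536870912 536870912 0 1230186008 780900216 37827925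
    (rowB 3 eng mog cd1q1 cd4q3 pd1 2 false true true .nn 1 1 3 (qsf 536870912 536870912 0 1230186008 1) ndB1q1 ndB4q3 pcB1 Cut.none Ext.none)

def k0_pp_113 : ∃ t, chk3 f_pp_113 t 1 1 1 = true :=
  ⟨(a (b (l 2) (b (l 3) (a (l 3) (l 3)))) (b (a (l 2) (b (a (l 2) (a (l 2) (b (l 16756832) (l 16763624)))) (a (l 3) (a (l 3) (b (l 339469777655) (l 3)))))) (b (l 3) (l 3)))), by decide +kernel⟩

theorem c_pp_113 : CertB 536870912 536870912 0 1230186008 780900216 37827925 3 eng mog cd1q1 cd4q3 pd1 false true true .nn 1 1 3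
    ndB1q1 ndB4q3 pcB1 Cut.none Ext.none :=
  certB2 (fam := false) (s1 := true) (s2 := true) (a := 1) (b := 1) (c := 3) (cn := .nn) (n1 := ndB1q1) (n2 := ndB4q3) (pc := pcB1) (cut := Cut.none) (xt := Ext.none) (P1 := 536870912) (W1 := 536870912) (P2 := 0) (W2 := 1230186008) (P3 := 780900216) (W3 := 37827925) (N0 := 3) (En := eng) (mo := mog) (C1 := cd1q1) (C2 := cd4q3) (C3 := pd1)
    rfl (fun _ => rfl) k0_pp_113

noncomputable def f_pp_123 : ℕ → ℕ → ℕ → ℕ → Bool := onCell 1073741824 536870912 0 1230186008 780900216 37827925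
    (rowB 3 eng mog cd1q1 cd4q3 pd2 2 false true true .npn 1 2 3 (qsf 536870912 536870912 0 1230186008 2) ndB1q1 ndB4q3 pcB2 Cut.none Ext.none)

def k0_pp_123 : ∃ t, chk3 f_pp_123 t 1 1 1 = true :=
  ⟨(a (a (b (a (b (b (l 16658784) (l 16715088)) (b (a (l 16967144) (l 16763512)) (a (l 432885555191) (b (l 16821600) (l 16857192))))) (b (a (l 16628552) (l 16599936)) (a (b (l 16716752) (l 16794216)) (b (l 16671960) (l 16744480))))) (a (b (a (l 3) (b (a (l 16865952) (l 16885664)) (l 3))) (l 3)) (b (a (b (a (l 16862224) (l 16848432)) (a (l 16790064) (l 16752288))) (b (l 16808256) (b (l 16752104) (l 16795744)))) (a (b (b (l 16657024) (l 3)) (l 3)) (b (a (b (l 16646256) (l 16609904)) (l 16712144)) (a (l 3) (b (l 16599736) (l 1)))))))) (b (b (a (b (l 16579416) (a (l 16626960) (l 16604680))) (l 16583192)) (a (a (b (a (l 16651672) (l 16556176)) (a (l 16711808) (l 16687872))) (b (l 16629264) (l 16664032))) (l 16833392))) (b (a (b (a (l 16975432) (l 16693520))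 (a (a (l 16695784) (l 16673760)) (l 16652464))) (b (l 16649912) (l 16636000))) (a (a (a (b (l 16779272) (b (l 16611416) (l 1))) (b (a (l 16639416) (l 16632168)) (l 1))) (b (l 16627384) (l 1))) (b (l 16633312) (l 1)))))) (b (a (b (b (l 16568120) (l 16600200)) (b (l 16611016) (l 16615824))) (b (b (l 16573872) (l 16599264)) (b (l 16621688) (l 16632032)))) (b (a (b (l 16611664) (l 16684744)) (b (l 16629608) (l 1))) (l 1)))), by decide +kernel⟩

theorem c_pp_123 : CertB 536870912 536870912 0 1230186008 780900216 37827925 3 eng mog cd1q1 cd4q3 pd2 false true true .npn 1 2 3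
    ndB1q1 ndB4q3 pcB2 Cut.none Ext.none :=
  certB2 (fam := false) (s1 := true) (s2 := true) (a := 1) (b := 2) (c := 3) (cn := .npn) (n1 := ndB1q1) (n2 := ndB4q3) (pc := pcB2) (cut := Cut.none) (xt := Ext.none) (P1 := 536870912) (W1 := 536870912) (P2 := 0) (W2 := 1230186008) (P3 := 780900216) (W3 := 37827925) (N0 := 3) (En := eng) (mo := mog) (C1 := cd1q1) (C2 := cd4q3) (C3 := pd2)
    rfl (fun _ => rfl) k0_pp_123

noncomputable def f_pp_133 : ℕ → ℕ → ℕ → ℕ → Bool := onCell 536870912 536870912 0 1230186008 780900216 37827925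
    (rowB 3 eng mog cd1q1 cd4q3 pd3 0 false true true .dn 1 3 3 (qsf 536870912 536870912 0 1230186008 3) ndB1q1 ndB4q3 pcB3 Cut.none Ext.none)

def k0_pp_133 : ∃ t, chk3 f_pp_133 t 1 1 1 = true :=
  ⟨(b (b (a (a (a (l 16777776) (l 1)) (l 1)) (l 1)) (l 1)) (l 1)), by decide +kernel⟩

theorem c_pp_133 : CertB 536870912 536870912 0 1230186008 780900216 37827925 3 eng mog cd1q1 cd4q3 pd3 false true true .dn 1 3 3
    ndB1q1 ndB4q3 pcB3 Cut.none Ext.none :=
  certB0 (fam := false) (s1 := true) (s2 := true) (a := 1) (b := 3) (c := 3) (cn := .dn) (n1 := ndB1q1) (n2 := ndB4q3) (pc := pcB3) (cut := Cut.none) (xt := Ext.none) (P1 := 536870912) (W1 := 536870912) (P2 := 0) (W2 := 1230186008) (P3 := 780900216) (W3 := 37827925) (N0 := 3) (En := eng) (mo := mog) (C1 := cd1q1) (C2 := cd4q3) (C3 := pd3)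
    rfl k0_pp_133

noncomputable def f_pp_202_a : ℕ → ℕ → ℕ → ℕ → Bool := onCell 0 536870912 1073741824 536870912 780900216 37827925
    (rowB 3 eng mog cd1q2a cd4q2 pd0 0 false true true .pp 2 0 2 (qsf 0 536870912 1073741824 536870912 0) ndB1q2a ndB4q2 pcB0 Cut.none Ext.none)

def k0_pp_202_a : ∃ t, chk3 f_pp_202_a t 1 1 1 = true :=
  ⟨(l 5), by decide +kernel⟩

theorem c_pp_202_a : CertB 0 536870912 1073741824 536870912 780900216 37827925 3 eng mog cd1q2a cd4q2 pd0 false true true .pp 2 0 2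
    ndB1q2a ndB4q2 pcB0 Cut.none Ext.none :=
  certB0 (fam := false) (s1 := true) (s2 := true) (a := 2) (b := 0) (c := 2) (cn := .pp) (n1 := ndB1q2a) (n2 := ndB4q2) (pc := pcB0) (cut := Cut.none) (xt := Ext.none) (P1 := 0) (W1 := 536870912) (P2 := 1073741824) (W2 := 536870912) (P3 := 780900216) (W3 := 37827925) (N0 := 3) (En := eng) (mo := mog) (C1 := cd1q2a) (C2 := cd4q2) (C3 := pd0)
    rfl k0_pp_202_a

noncomputable def f_pp_202_b : ℕ → ℕ → ℕ → ℕ → Bool := onCell 1239849684 370763052 1073741824 536870912 780900216 37827925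
    (rowB 3 eng mog cd1q2b cd4q2 pd0 0 false true true .pp 2 0 2 (qsf 1239849684 370763052 1073741824 536870912 0) ndB1q2b ndB4q2 pcB0 Cut.none Ext.none)

def k0_pp_202_b : ∃ t, chk3 f_pp_202_b t 1 1 1 = true :=
  ⟨(l 5), by decide +kernel⟩

theorem c_pp_202_b : CertB 1239849684 370763052 1073741824 536870912 780900216 37827925 3 eng mog cd1q2b cd4q2 pd0 false true true .pp 2 0 2
    ndB1q2b ndB4q2 pcB0 Cut.none Ext.none :=
  certB0 (fam := false) (s1 := true) (s2 := true) (a := 2) (b := 0) (c := 2) (cn := .pp) (n1 := ndB1q2b) (n2 := ndB4q2) (pc := pcB0) (cut := Cut.none) (xt := Ext.none) (P1 := 1239849684) (W1 := 370763052) (P2 := 1073741824) (W2 := 536870912) (P3 := 780900216) (W3 := 37827925) (N0 := 3) (En := eng) (mo := mog) (C1 := cd1q2b) (C2 := cd4q2) (C3 := pd0)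
    rfl k0_pp_202_b

noncomputable def f_pp_203_a : ℕ → ℕ → ℕ → ℕ → Bool := onCell 0 536870912 0 1230186008 780900216 37827925
    (rowB 3 eng mog cd1q2a cd4q3 pd0 0 false true true .up 2 0 3 (qsf 0 536870912 0 1230186008 0) ndB1q2a ndB4q3 pcB0 Cut.none Ext.none)

def k0_pp_203_a : ∃ t, chk3 f_pp_203_a t 1 1 1 = true :=
  ⟨(b (l 2) (l 3)), by decide +kernel⟩

theorem c_pp_203_a : CertB 0 536870912 0 1230186008 780900216 37827925 3 eng mog cd1q2a cd4q3 pd0 false true true .up 2 0 3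
    ndB1q2a ndB4q3 pcB0 Cut.none Ext.none :=
  certB0 (fam := false) (s1 := true) (s2 := true) (a := 2) (b := 0) (c := 3) (cn := .up) (n1 := ndB1q2a) (n2 := ndB4q3) (pc := pcB0) (cut := Cut.none) (xt := Ext.none) (P1 := 0) (W1 := 536870912) (P2 := 0) (W2 := 1230186008) (P3 := 780900216) (W3 := 37827925) (N0 := 3) (En := eng) (mo := mog) (C1 := cd1q2a) (C2 := cd4q3) (C3 := pd0)
    rfl k0_pp_203_a

noncomputable def f_pp_203_b : ℕ → ℕ → ℕ → ℕ → Bool := onCell 1239849684 370763052 0 1230186008 780900216 37827925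
    (rowB 3 eng mog cd1q2b cd4q3 pd0 0 false true true .up 2 0 3 (qsf 1239849684 370763052 0 1230186008 0) ndB1q2b ndB4q3 pcB0 Cut.none Ext.none)

def k0_pp_203_b : ∃ t, chk3 f_pp_203_b t 1 1 1 = true :=
  ⟨(b (l 3) (l 3)), by decide +kernel⟩

theorem c_pp_203_b : CertB 1239849684 370763052 0 1230186008 780900216 37827925 3 eng mog cd1q2b cd4q3 pd0 false true true .up 2 0 3
    ndB1q2b ndB4q3 pcB0 Cut.none Ext.none :=
  certB0 (fam := false) (s1 := true) (s2 := true) (a := 2) (b := 0) (c := 3) (cn := .up) (n1 := ndB1q2b) (n2 := ndB4q3) (pc := pcB0) (cut := Cut.none) (xt := Ext.none) (P1 := 1239849684) (W1 := 370763052) (P2 := 0) (W2 := 1230186008) (P3 := 780900216) (W3 := 37827925) (N0 := 3) (En := eng) (mo := mog) (C1 := cd1q2b) (C2 := cd4q3) (C3 := pd0)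
    rfl k0_pp_203_b

noncomputable def cut_pp_213_a : Cut := Cut.of [[⟨0, 1, 0, 67108864⟩, ⟨1, 1, 0, 67108864⟩, ⟨2, 2, 0, 16777216⟩]]

noncomputable def f_pp_213_a : ℕ → ℕ → ℕ → ℕ → Bool := onCell 0 536870912 0 1230186008 780900216 37827925
    (rowB 3 eng mog cd1q2a cd4q3 pd1 0 false true true .pnn 2 1 3 (qsf 0 536870912 0 1230186008 1) ndB1q2a ndB4q3 pcB1 cut_pp_213_a Ext.none)

def k0_pp_213_a : ∃ t, chk3 f_pp_213_a t 1 1 1 = true :=
  ⟨(b (a (l 3) (b (a (l 3) (a (l 3) (b (l 6) (l 3)))) (l 3))) (l 3)), by decide +kernel⟩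

theorem c_pp_213_a : CertB 0 536870912 0 1230186008 780900216 37827925 3 eng mog cd1q2a cd4q3 pd1 false true true .pnn 2 1 3
    ndB1q2a ndB4q3 pcB1 cut_pp_213_a Ext.none :=
  certB0 (fam := false) (s1 := true) (s2 := true) (a := 2) (b := 1) (c := 3) (cn := .pnn) (n1 := ndB1q2a) (n2 := ndB4q3) (pc := pcB1) (cut := cut_pp_213_a) (xt := Ext.none) (P1 := 0) (W1 := 536870912) (P2 := 0) (W2 := 1230186008) (P3 := 780900216) (W3 := 37827925) (N0 := 3) (En := eng) (mo := mog) (C1 := cd1q2a) (C2 := cd4q3) (C3 := pd1)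
    rfl k0_pp_213_a

noncomputable def cut_pp_213_b : Cut := Cut.of [[⟨0, 1, 0, 67108864⟩, ⟨1, 1, 0, 67108864⟩, ⟨2, 2, 0, 16777216⟩]]

noncomputable def f_pp_213_b : ℕ → ℕ → ℕ → ℕ → Bool := onCell 1239849684 370763052 0 1230186008 780900216 37827925
    (rowB 3 eng mog cd1q2b cd4q3 pd1 0 false true true .pnn 2 1 3 (qsf 1239849684 370763052 0 1230186008 1) ndB1q2b ndB4q3 pcB1 cut_pp_213_b Ext.none)

def k0_pp_213_b : ∃ t, chk3 f_pp_213_b t 1 1 1 = true :=
  ⟨(b (l 3) (l 3)), by decide +kernel⟩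

theorem c_pp_213_b : CertB 1239849684 370763052 0 1230186008 780900216 37827925 3 eng mog cd1q2b cd4q3 pd1 false true true .pnn 2 1 3
    ndB1q2b ndB4q3 pcB1 cut_pp_213_b Ext.none :=
  certB0 (fam := false) (s1 := true) (s2 := true) (a := 2) (b := 1) (c := 3) (cn := .pnn) (n1 := ndB1q2b) (n2 := ndB4q3) (pc := pcB1) (cut := cut_pp_213_b) (xt := Ext.none) (P1 := 1239849684) (W1 := 370763052) (P2 := 0) (W2 := 1230186008) (P3 := 780900216) (W3 := 37827925) (N0 := 3) (En := eng) (mo := mog) (C1 := cd1q2b) (C2 := cd4q3) (C3 := pd1)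
    rfl k0_pp_213_b

noncomputable def f_pp_303 : ℕ → ℕ → ℕ → ℕ → Bool := onCell 1610612736 536870912 0 1230186008 780900216 37827925
    (rowB 3 eng mog cd1q3 cd4q3 pd0 0 false true true .npn 3 0 3 (qsf 1610612736 536870912 0 1230186008 0) ndB1q3 ndB4q3 pcB0 Cut.none Ext.none)

def k0_pp_303 : ∃ t, chk3 f_pp_303 t 1 1 1 = true :=
  ⟨(b (l 3) (l 5)), by decide +kernel⟩

theorem c_pp_303 : CertB 1610612736 536870912 0 1230186008 780900216 37827925 3 eng mog cd1q3 cd4q3 pd0 false true true .npn 3 0 3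
    ndB1q3 ndB4q3 pcB0 Cut.none Ext.none :=
  certB0 (fam := false) (s1 := true) (s2 := true) (a := 3) (b := 0) (c := 3) (cn := .npn) (n1 := ndB1q3) (n2 := ndB4q3) (pc := pcB0) (cut := Cut.none) (xt := Ext.none) (P1 := 1610612736) (W1 := 536870912) (P2 := 0) (W2 := 1230186008) (P3 := 780900216) (W3 := 37827925) (N0 := 3) (En := eng) (mo := mog) (C1 := cd1q3) (C2 := cd4q3) (C3 := pd0)
    rfl k0_pp_303

noncomputable def f_pp_313 : ℕ → ℕ → ℕ → ℕ → Bool := onCell 1610612736 536870912 0 1230186008 780900216 37827925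
    (rowB 3 eng mog cd1q3 cd4q3 pd1 0 false true true .dn 3 1 3 (qsf 1610612736 536870912 0 1230186008 1) ndB1q3 ndB4q3 pcB1 Cut.none Ext.none)

def k0_pp_313 : ∃ t, chk3 f_pp_313 t 1 1 1 = true :=
  ⟨(b (l 3) (l 1)), by decide +kernel⟩

theorem c_pp_313 : CertB 1610612736 536870912 0 1230186008 780900216 37827925 3 eng mog cd1q3 cd4q3 pd1 false true true .dn 3 1 3
    ndB1q3 ndB4q3 pcB1 Cut.none Ext.none :=
  certB0 (fam := false) (s1 := true) (s2 := true) (a := 3) (b := 1) (c := 3) (cn := .dn) (n1 := ndB1q3) (n2 := ndB4q3) (pc := pcB1) (cut := Cut.none) (xt := Ext.none) (P1 := 1610612736) (W1 := 536870912) (P2 := 0) (W2 := 1230186008) (P3 := 780900216) (W3 := 37827925) (N0 := 3) (En := eng) (mo := mog) (C1 := cd1q3) (C2 := cd4q3) (C3 := pd1)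
    rfl k0_pp_313

noncomputable def f_pm_001 : ℕ → ℕ → ℕ → ℕ → Bool := onCell 0 536870912 536870912 536870912 780900216 37827925
    (rowB 3 eng mog cd1q0 cd4q1 pd0 0 false true false .up 0 0 1 (qsf 0 536870912 536870912 536870912 0) ndB1q0 ndB4q1 pcB0 Cut.none Ext.none)

def k0_pm_001 : ∃ t, chk3 f_pm_001 t 1 1 1 = true :=
  ⟨(l 4), by decide +kernel⟩

theorem c_pm_001 : CertB 0 536870912 536870912 536870912 780900216 37827925 3 eng mog cd1q0 cd4q1 pd0 false true false .up 0 0 1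
    ndB1q0 ndB4q1 pcB0 Cut.none Ext.none :=
  certB0 (fam := false) (s1 := true) (s2 := false) (a := 0) (b := 0) (c := 1) (cn := .up) (n1 := ndB1q0) (n2 := ndB4q1) (pc := pcB0) (cut := Cut.none) (xt := Ext.none) (P1 := 0) (W1 := 536870912) (P2 := 536870912) (W2 := 536870912) (P3 := 780900216) (W3 := 37827925) (N0 := 3) (En := eng) (mo := mog) (C1 := cd1q0) (C2 := cd4q1) (C3 := pd0)
    rfl k0_pm_001

noncomputable def f_pm_011 : ℕ → ℕ → ℕ → ℕ → Bool := onCell 0 536870912 536870912 536870912 780900216 37827925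
    (rowB 3 eng mog cd1q0 cd4q1 pd1 0 false true false .pnn 0 1 1 (qsf 0 536870912 536870912 536870912 1) ndB1q0 ndB4q1 pcB1 Cut.none Ext.none)

def k0_pm_011 : ∃ t, chk3 f_pm_011 t 1 1 1 = true :=
  ⟨(l 4), by decide +kernel⟩

theorem c_pm_011 : CertB 0 536870912 536870912 536870912 780900216 37827925 3 eng mog cd1q0 cd4q1 pd1 false true false .pnn 0 1 1
    ndB1q0 ndB4q1 pcB1 Cut.none Ext.none :=
  certB0 (fam := false) (s1 := true) (s2 := false) (a := 0) (b := 1) (c := 1) (cn := .pnn) (n1 := ndB1q0) (n2 := ndB4q1) (pc := pcB1) (cut := Cut.none) (xt := Ext.none) (P1 := 0) (W1 := 536870912) (P2 := 536870912) (W2 := 536870912) (P3 := 780900216) (W3 := 37827925) (N0 := 3) (En := eng) (mo := mog) (C1 := cd1q0) (C2 := cd4q1) (C3 := pd1)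
    rfl k0_pm_011

noncomputable def f_pm_012 : ℕ → ℕ → ℕ → ℕ → Bool := onCell 0 536870912 1073741824 536870912 780900216 37827925
    (rowB 3 eng mog cd1q0 cd4q2 pd1 0 false true false .pnp 0 1 2 (qsf 0 536870912 1073741824 536870912 1) ndB1q0 ndB4q2 pcB1 Cut.none Ext.none)

def k0_pm_012 : ∃ t, chk3 f_pm_012 t 1 1 1 = true :=
  ⟨(l 4), by decide +kernel⟩

theorem c_pm_012 : CertB 0 536870912 1073741824 536870912 780900216 37827925 3 eng mog cd1q0 cd4q2 pd1 false true false .pnp 0 1 2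
    ndB1q0 ndB4q2 pcB1 Cut.none Ext.none :=
  certB0 (fam := false) (s1 := true) (s2 := false) (a := 0) (b := 1) (c := 2) (cn := .pnp) (n1 := ndB1q0) (n2 := ndB4q2) (pc := pcB1) (cut := Cut.none) (xt := Ext.none) (P1 := 0) (W1 := 536870912) (P2 := 1073741824) (W2 := 536870912) (P3 := 780900216) (W3 := 37827925) (N0 := 3) (En := eng) (mo := mog) (C1 := cd1q0) (C2 := cd4q2) (C3 := pd1)
    rfl k0_pm_012

noncomputable def f_pm_022 : ℕ → ℕ → ℕ → ℕ → Bool := onCell 0 536870912 1073741824 536870912 780900216 37827925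
    (rowB 3 eng mog cd1q0 cd4q2 pd2 0 false true false .pp 0 2 2 (qsf 0 536870912 1073741824 536870912 2) ndB1q0 ndB4q2 pcB2 Cut.none Ext.none)

def k0_pm_022 : ∃ t, chk3 f_pm_022 t 1 1 1 = true :=
  ⟨(l 4), by decide +kernel⟩

theorem c_pm_022 : CertB 0 536870912 1073741824 536870912 780900216 37827925 3 eng mog cd1q0 cd4q2 pd2 false true false .pp 0 2 2
    ndB1q0 ndB4q2 pcB2 Cut.none Ext.none :=
  certB0 (fam := false) (s1 := true) (s2 := false) (a := 0) (b := 2) (c := 2) (cn := .pp) (n1 := ndB1q0) (n2 := ndB4q2) (pc := pcB2) (cut := Cut.none) (xt := Ext.none) (P1 := 0) (W1 := 536870912) (P2 := 1073741824) (W2 := 536870912) (P3 := 780900216) (W3 := 37827925) (N0 := 3) (En := eng) (mo := mog) (C1 := cd1q0) (C2 := cd4q2) (C3 := pd2)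
    rfl k0_pm_022

noncomputable def f_pm_023 : ℕ → ℕ → ℕ → ℕ → Bool := onCell 0 536870912 0 1230186008 780900216 37827925
    (rowB 3 eng mog cd1q0 cd4q3 pd2 0 false true false .up 0 2 3 (qsf 0 536870912 0 1230186008 2) ndB1q0 ndB4q3 pcB2 Cut.none Ext.none)

def k0_pm_023 : ∃ t, chk3 f_pm_023 t 1 1 1 = true :=
  ⟨(a (b (l 2) (l 4)) (b (a (l 2) (b (a (l 2) (l 16474208)) (l 4))) (l 4))), by decide +kernel⟩

theorem c_pm_023 : CertB 0 536870912 0 1230186008 780900216 37827925 3 eng mog cd1q0 cd4q3 pd2 false true false .up 0 2 3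
    ndB1q0 ndB4q3 pcB2 Cut.none Ext.none :=
  certB0 (fam := false) (s1 := true) (s2 := false) (a := 0) (b := 2) (c := 3) (cn := .up) (n1 := ndB1q0) (n2 := ndB4q3) (pc := pcB2) (cut := Cut.none) (xt := Ext.none) (P1 := 0) (W1 := 536870912) (P2 := 0) (W2 := 1230186008) (P3 := 780900216) (W3 := 37827925) (N0 := 3) (En := eng) (mo := mog) (C1 := cd1q0) (C2 := cd4q3) (C3 := pd2)
    rfl k0_pm_023

noncomputable def f_pm_033 : ℕ → ℕ → ℕ → ℕ → Bool := onCell 0 536870912 0 1230186008 780900216 37827925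
    (rowB 3 eng mog cd1q0 cd4q3 pd3 0 false true false .pnn 0 3 3 (qsf 0 536870912 0 1230186008 3) ndB1q0 ndB4q3 pcB3 Cut.none Ext.none)

def k0_pm_033 : ∃ t, chk3 f_pm_033 t 1 1 1 = true :=
  ⟨(b (a (l 4) (a (b (l 4) (l 4)) (b (a (l 16498408) (l 16482344)) (l 4)))) (l 4)), by decide +kernel⟩

theorem c_pm_033 : CertB 0 536870912 0 1230186008 780900216 37827925 3 eng mog cd1q0 cd4q3 pd3 false true false .pnn 0 3 3
    ndB1q0 ndB4q3 pcB3 Cut.none Ext.none :=
  certB0 (fam := false) (s1 := true) (s2 := false) (a := 0) (b := 3) (c := 3) (cn := .pnn) (n1 := ndB1q0) (n2 := ndB4q3) (pc := pcB3) (cut := Cut.none) (xt := Ext.none) (P1 := 0) (W1 := 536870912) (P2 := 0) (W2 := 1230186008) (P3 := 780900216) (W3 := 37827925) (N0 := 3) (En := eng) (mo := mog) (C1 := cd1q0) (C2 := cd4q3) (C3 := pd3)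
    rfl k0_pm_033

noncomputable def f_pm_101 : ℕ → ℕ → ℕ → ℕ → Bool := onCell 536870912 536870912 536870912 536870912 780900216 37827925
    (rowB 3 eng mog cd1q1 cd4q1 pd0 0 false true false .npn 1 0 1 (qsf 536870912 536870912 536870912 536870912 0) ndB1q1 ndB4q1 pcB0 Cut.none Ext.none)

def k0_pm_101 : ∃ t, chk3 f_pm_101 t 1 1 1 = true :=
  ⟨(l 4), by decide +kernel⟩

theorem c_pm_101 : CertB 536870912 536870912 536870912 536870912 780900216 37827925 3 eng mog cd1q1 cd4q1 pd0 false true false .npn 1 0 1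
    ndB1q1 ndB4q1 pcB0 Cut.none Ext.none :=
  certB0 (fam := false) (s1 := true) (s2 := false) (a := 1) (b := 0) (c := 1) (cn := .npn) (n1 := ndB1q1) (n2 := ndB4q1) (pc := pcB0) (cut := Cut.none) (xt := Ext.none) (P1 := 536870912) (W1 := 536870912) (P2 := 536870912) (W2 := 536870912) (P3 := 780900216) (W3 := 37827925) (N0 := 3) (En := eng) (mo := mog) (C1 := cd1q1) (C2 := cd4q1) (C3 := pd0)
    rfl k0_pm_101

noncomputable def f_pm_102 : ℕ → ℕ → ℕ → ℕ → Bool := onCell 536870912 536870912 0 536870912 780900216 37827925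
    (rowB 3 eng mog cd1q1 cd4q2 pd0 1 false true false .npp 1 0 2 (qsf 536870912 536870912 1073741824 536870912 0) ndB1q1 ndB4q2 pcB0 Cut.none Ext.none)

def k0_pm_102 : ∃ t, chk3 f_pm_102 t 1 1 1 = true :=
  ⟨(a (l 4) (a (l 4) (b (b (l 4) (b (l 4) (a (l 4) (l 15575808)))) (b (a (l 4) (b (l 15718176) (l 15842424))) (b (l 15915288) (a (l 15941528) (l 16066664))))))), by decide +kernel⟩

theorem c_pm_102 : CertB 536870912 536870912 1073741824 536870912 780900216 37827925 3 eng mog cd1q1 cd4q2 pd0 false true false .npp 1 0 2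
    ndB1q1 ndB4q2 pcB0 Cut.none Ext.none :=
  certB1 (fam := false) (s1 := true) (s2 := false) (a := 1) (b := 0) (c := 2) (cn := .npp) (n1 := ndB1q1) (n2 := ndB4q2) (pc := pcB0) (cut := Cut.none) (xt := Ext.none) (P1 := 536870912) (W1 := 536870912) (P2 := 1073741824) (W2 := 536870912) (P3 := 780900216) (W3 := 37827925) (N0 := 3) (En := eng) (mo := mog) (C1 := cd1q1) (C2 := cd4q2) (C3 := pd0)
    rfl (fun _ => rfl) k0_pm_102

noncomputable def f_pm_112 : ℕ → ℕ → ℕ → ℕ → Bool := onCell 536870912 536870912 1073741824 536870912 780900216 37827925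
    (rowB 3 eng mog cd1q1 cd4q2 pd1 2 false true false .dn 1 1 2 (qsf 536870912 536870912 1073741824 536870912 1) ndB1q1 ndB4q2 pcB1 Cut.none Ext.none)

def k0_pm_112 : ∃ t, chk3 f_pm_112 t 1 1 1 = true :=
  ⟨(a (b (l 4) (a (b (l 4) (a (l 16021800) (l 15933280))) (l 4))) (l 4)), by decide +kernel⟩

theorem c_pm_112 : CertB 536870912 536870912 1073741824 536870912 780900216 37827925 3 eng mog cd1q1 cd4q2 pd1 false true false .dn 1 1 2
    ndB1q1 ndB4q2 pcB1 Cut.none Ext.none :=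
  certB2 (fam := false) (s1 := true) (s2 := false) (a := 1) (b := 1) (c := 2) (cn := .dn) (n1 := ndB1q1) (n2 := ndB4q2) (pc := pcB1) (cut := Cut.none) (xt := Ext.none) (P1 := 536870912) (W1 := 536870912) (P2 := 1073741824) (W2 := 536870912) (P3 := 780900216) (W3 := 37827925) (N0 := 3) (En := eng) (mo := mog) (C1 := cd1q1) (C2 := cd4q2) (C3 := pd1)
    rfl (fun _ => rfl) k0_pm_112

noncomputable def f_pm_113 : ℕ → ℕ → ℕ → ℕ → Bool := onCell 536870912 536870912 0 1230186008 780900216 37827925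
    (rowB 3 eng mog cd1q1 cd4q3 pd1 0 false true false .nn 1 1 3 (qsf 536870912 536870912 0 1230186008 1) ndB1q1 ndB4q3 pcB1 Cut.none Ext.none)

def k0_pm_113 : ∃ t, chk3 f_pm_113 t 1 1 1 = true :=
  ⟨(b (a (l 2) (a (l 2) (b (a (l 2) (b (a (l 2) (l 16718848)) (l 16655072))) (a (b (l 16466768) (l 16437864)) (b (l 16636624) (l 16631176)))))) (b (a (a (l 2) (b (l 2) (a (l 2) (l 325979232215)))) (a (b (b (l 16111808) (l 16111272)) (a (l 15999088) (l 16235536))) (b (a (l 16431928) (l 16631944)) (l 16555472)))) (a (b (l 4) (l 4)) (b (a (a (b (l 16029368) (l 15938744)) (b (l 16241056) (l 16281496))) (a (b (l 16471952) (l 16475152)) (l 16680136))) (a (a (l 4) (b (l 16116184) (l 16033872))) (b (a (l 16337016) (l 16463384)) (a (l 16175776) (l 16251448)))))))), by decide +kernel⟩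

theorem c_pm_113 : CertB 536870912 536870912 0 1230186008 780900216 37827925 3 eng mog cd1q1 cd4q3 pd1 false true false .nn 1 1 3
    ndB1q1 ndB4q3 pcB1 Cut.none Ext.none :=
  certB0 (fam := false) (s1 := true) (s2 := false) (a := 1) (b := 1) (c := 3) (cn := .nn) (n1 := ndB1q1) (n2 := ndB4q3) (pc := pcB1) (cut := Cut.none) (xt := Ext.none) (P1 := 536870912) (W1 := 536870912) (P2 := 0) (W2 := 1230186008) (P3 := 780900216) (W3 := 37827925) (N0 := 3) (En := eng) (mo := mog) (C1 := cd1q1) (C2 := cd4q3) (C3 := pd1)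
    rfl k0_pm_113

noncomputable def f_pm_123 : ℕ → ℕ → ℕ → ℕ → Bool := onCell 1073741824 536870912 0 1230186008 780900216 37827925
    (rowB 3 eng mog cd1q1 cd4q3 pd2 2 false true false .npn 1 2 3 (qsf 536870912 536870912 0 1230186008 2) ndB1q1 ndB4q3 pcB2 Cut.none Ext.none)

def k0_pm_123 : ∃ t, chk3 f_pm_123 t 1 1 1 = true :=
  ⟨(b (a (a (b (a (l 16753584) (l 16479760)) (a (b (l 16509192) (l 16402168)) (b (l 16437448) (l 16309256)))) (b (b (l 16379104) (l 16593528)) (a (b (l 16384496) (l 16255696)) (l 16312584)))) (a (b (b (l 16532600) (l 16282048)) (a (l 16330648) (b (l 16394272) (l 16317360)))) (b (a (l 16507600) (l 16517584)) (a (l 16477104) (l 16514144))))) (a (a (b (b (a (l 16210592) (l 16134248)) (a (l 15974368) (l 15934592))) (l 4)) (b (b (a (l 16104176) (l 16126944)) (l 4)) (l 4))) (a (b (b (a (l 16183936) (l 4)) (l 4)) (l 1)) (l 4)))), by decide +kernel⟩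

theorem c_pm_123 : CertB 536870912 536870912 0 1230186008 780900216 37827925 3 eng mog cd1q1 cd4q3 pd2 false true false .npn 1 2 3
    ndB1q1 ndB4q3 pcB2 Cut.none Ext.none :=
  certB2 (fam := false) (s1 := true) (s2 := false) (a := 1) (b := 2) (c := 3) (cn := .npn) (n1 := ndB1q1) (n2 := ndB4q3) (pc := pcB2) (cut := Cut.none) (xt := Ext.none) (P1 := 536870912) (W1 := 536870912) (P2 := 0) (W2 := 1230186008) (P3 := 780900216) (W3 := 37827925) (N0 := 3) (En := eng) (mo := mog) (C1 := cd1q1) (C2 := cd4q3) (C3 := pd2)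
    rfl (fun _ => rfl) k0_pm_123

noncomputable def f_pm_133 : ℕ → ℕ → ℕ → ℕ → Bool := onCell 536870912 536870912 0 1230186008 780900216 37827925
    (rowB 3 eng mog cd1q1 cd4q3 pd3 0 false true false .dn 1 3 3 (qsf 536870912 536870912 0 1230186008 3) ndB1q1 ndB4q3 pcB3 Cut.none Ext.none)

def k0_pm_133 : ∃ t, chk3 f_pm_133 t 1 1 1 = true :=
  ⟨(b (b (a (a (a (l 16545632) (l 1)) (l 1)) (l 1)) (l 1)) (l 1)), by decide +kernel⟩

theorem c_pm_133 : CertB 536870912 536870912 0 1230186008 780900216 37827925 3 eng mog cd1q1 cd4q3 pd3 false true false .dn 1 3 3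
    ndB1q1 ndB4q3 pcB3 Cut.none Ext.none :=
  certB0 (fam := false) (s1 := true) (s2 := false) (a := 1) (b := 3) (c := 3) (cn := .dn) (n1 := ndB1q1) (n2 := ndB4q3) (pc := pcB3) (cut := Cut.none) (xt := Ext.none) (P1 := 536870912) (W1 := 536870912) (P2 := 0) (W2 := 1230186008) (P3 := 780900216) (W3 := 37827925) (N0 := 3) (En := eng) (mo := mog) (C1 := cd1q1) (C2 := cd4q3) (C3 := pd3)
    rfl k0_pm_133

noncomputable def f_pm_202_a : ℕ → ℕ → ℕ → ℕ → Bool := onCell 0 536870912 0 536870912 780900216 37827925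
    (rowB 3 eng mog cd1q2a cd4q2 pd0 1 false true false .pp 2 0 2 (qsf 0 536870912 1073741824 536870912 0) ndB1q2a ndB4q2 pcB0 Cut.none Ext.none)

def k0_pm_202_a : ∃ t, chk3 f_pm_202_a t 2 1 1 = true :=
  ⟨(b (a (b (b (b (a (b (l 16436456) (l 16446112)) (l 16399176)) (a (l 16459584) (l 16429464))) (a (l 16485432) (l 16458240))) (b (a (b (l 16614456) (a (l 16502464) (l 16510144))) (l 16493264)) (b (a (b (l 16518216) (a (l 16520328) (l 16528016))) (l 16514528)) (a (a (l 16532360) (l 16538392)) (l 16569400))))) (b (b (b (a (l 16338968) (b (l 16256664) (l 16269472))) (a (l 16377392) (l 16298800))) (a (b (l 16412048) (l 16411752)) (b (l 16339984) (a (l 16397432) (l 16356200))))) (b (b (l 16489416) (l 16447920)) (b (l 16463976) (l 16629456))))) (b (b (a (b (a (a (l 16549216) (l 16550416)) (l 16540704)) (a (a (l 16562968) (l 16564832)) (a (l 16557312) (l 16548800)))) (b (a (l 16514632) (l 16472664)) (a (l 16528960) (l 16487464)))) (b (a (a (a (c (l 16574464)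 (l 16579336)) (l 16575248)) (a (l 16570448) (l 16561784))) (a (l 16543448) (l 16502560))) (a (b (a (a (l 16628680) (l 16582816)) (l 16576240)) (l 2)) (a (l 16557768) (l 16518192))))) (a (l 2) (b (a (l 2) (l 16542784)) (l 2))))), by decide +kernel⟩

def k1_pm_202_a : ∃ t, chk3 f_pm_202_a t 3 2 1 = true :=
  ⟨(a (b (b (a (b (b (l 16161208) (l 16172640)) (b (l 16185128) (l 16202608))) (b (a (b (l 16070224) (l 16084872)) (b (a (l 16021000) (l 15974592)) (a (l 16031752) (l 15995456)))) (a (l 16101976) (b (l 16023832) (l 16038864))))) (a (b (l 16235568) (l 16278048)) (b (l 16142928) (l 16144768)))) (b (a (b (l 16318624) (l 16432424)) (b (l 16189504) (l 16230912))) (b (a (l 16535832) (b (l 16257872) (l 16276288))) (a (l 16391312) (l 16300128))))) (b (b (a (b (a (b (l 15902720) (l 15923296)) (b (b (l 15798216) (l 15809824)) (l 15826736))) (a (b (l 15945184) (a (l 15979168) (l 15939288))) (l 15879840))) (a (b (b (b (a (l 15717728) (l 15660248)) (l 15701952))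 (a (l 15748464) (l 15692952))) (b (l 15745856) (l 15769952))) (b (a (b (b (b (l 15596368) (l 15603312)) (l 15613776)) (l 15635200)) (b (a (b (b (l 15548864) (l 15556296)) (l 15567752)) (b (a (b (l 15523784) (l 15532472)) (l 15513352)) (l 15537768))) (a (l 15591384) (l 15563720)))) (a (b (l 15663768) (l 15691512)) (b (l 15609656) (l 15640544)))))) (a (b (a (b (l 15970568) (l 15987696)) (b (l 15889416) (l 15909072))) (a (l 16020384) (b (l 15922368) (l 15943264)))) (b (a (l 15804136) (a (l 15730832) (l 15683856))) (a (b (l 15835880) (l 15859360)) (l 15757216))))) (b (a (b (l 16027616) (l 16076352)) (b (a (b (l 15882104) (l 15907080)) (l 15806256)) (a (l 15948792) (l 15865504)))) (b (a (l 16122240) (b (l 15944232) (l 15974048))) (a (l 16169184) (l 16017056)))))), by decide +kernel⟩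

def k2_pm_202_a : ∃ t, chk3 f_pm_202_a t 3 3 1 = true :=
  ⟨(b (b (a (b (a (l 16410184) (l 16326008)) (l 16387656)) (a (b (l 16213712) (l 16241832)) (b (l 16069584) (l 16114776)))) (a (l 16472248) (a (b (l 16256808) (l 16275168)) (l 16240400)))) (a (b (a (b (l 16475216) (l 2)) (l 16406520)) (l 2)) (b (a (l 16309792) (b (l 16192944) (l 16224704))) (l 16324408)))), by decide +kernel⟩

theorem s3_pm_202_a : ∃ t, chk3 f_pm_202_a t 3 1 1 = true := ex3_b k1_pm_202_a k2_pm_202_a

theorem s4_pm_202_a : ∃ t, chk3 f_pm_202_a t 1 1 1 = true := ex3_a k0_pm_202_a s3_pm_202_a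

theorem c_pm_202_a : CertB 0 536870912 1073741824 536870912 780900216 37827925 3 eng mog cd1q2a cd4q2 pd0 false true false .pp 2 0 2
    ndB1q2a ndB4q2 pcB0 Cut.none Ext.none :=
  certB1 (fam := false) (s1 := true) (s2 := false) (a := 2) (b := 0) (c := 2) (cn := .pp) (n1 := ndB1q2a) (n2 := ndB4q2) (pc := pcB0) (cut := Cut.none) (xt := Ext.none) (P1 := 0) (W1 := 536870912) (P2 := 1073741824) (W2 := 536870912) (P3 := 780900216) (W3 := 37827925) (N0 := 3) (En := eng) (mo := mog) (C1 := cd1q2a) (C2 := cd4q2) (C3 := pd0)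
    rfl (fun _ => rfl) s4_pm_202_a

noncomputable def f_pm_202_b : ℕ → ℕ → ℕ → ℕ → Bool := onCell 0 536870912 1073741824 536870912 780900216 37827925
    (rowB 3 eng mog cd1q2b cd4q2 pd0 2 false true false .pp 2 0 2 (qsf 1239849684 370763052 1073741824 536870912 0) ndB1q2b ndB4q2 pcB0 Cut.none Ext.none)

def k0_pm_202_b : ∃ t, chk3 f_pm_202_b t 1 1 1 = true :=
  ⟨(a (b (a (b (l 1) (a (a (b (b (l 271152811095) (l 16455896)) (l 16308912)) (b (l 292627693863) (l 16419576))) (b (l 1) (a (l 177737490071) (l 247530070215))))) (l 1)) (a (b (a (a (b (l 16129536) (l 15986368)) (b (l 16256904) (a (l 16057192) (l 16128392)))) (b (a (l 16337456) (b (l 16477416) (l 16389208))) (a (a (l 16263632) (l 16461944)) (b (l 16314800) (l 16243688))))) (b (a (a (b (l 15900656) (l 15875240)) (b (l 16064264) (l 15965208))) (a (b (l 16159720) (l 16054376)) (b (l 16182704) (l 16140240)))) (l 3))) (a (b (b (a (b (l 16536120) (l 16481872)) (b (l 1) (l 16550064))) (b (a (l 16403872)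 (l 16492736)) (a (l 16332824) (l 16422192)))) (a (b (b (l 16271560) (l 16214912)) (l 3)) (b (b (l 16360456) (l 16303744)) (b (l 16265192) (l 3))))) (b (b (l 1) (a (b (l 16561808) (l 16509456)) (l 245919689127))) (b (b (a (l 16447688) (l 16527096)) (a (l 16390272) (l 16470912))) (b (a (l 16345848) (l 16422384)) (l 3))))))) (b (l 1) (a (b (l 1) (a (b (a (b (l 16584464) (l 16543560)) (b (l 1) (l 200822734663))) (a (b (l 56001891943) (l 3)) (b (c (l 16556736) (l 16563672)) (l 29695304855)))) (b (l 1) (c (a (b (l 16690304) (l 16574128)) (b (l 1) (l 149283351751))) (a (b (l 16601704) (l 16579624)) (b (l 1) (l 222834578791))))))) (l 1)))), by decide +kernel⟩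

theorem c_pm_202_b : CertB 1239849684 370763052 1073741824 536870912 780900216 37827925 3 eng mog cd1q2b cd4q2 pd0 false true false .pp 2 0 2
    ndB1q2b ndB4q2 pcB0 Cut.none Ext.none :=
  certB2 (fam := false) (s1 := true) (s2 := false) (a := 2) (b := 0) (c := 2) (cn := .pp) (n1 := ndB1q2b) (n2 := ndB4q2) (pc := pcB0) (cut := Cut.none) (xt := Ext.none) (P1 := 1239849684) (W1 := 370763052) (P2 := 1073741824) (W2 := 536870912) (P3 := 780900216) (W3 := 37827925) (N0 := 3) (En := eng) (mo := mog) (C1 := cd1q2b) (C2 := cd4q2) (C3 := pd0)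
    rfl (fun _ => rfl) k0_pm_202_b

noncomputable def f_pm_203_a : ℕ → ℕ → ℕ → ℕ → Bool := onCell 0 536870912 0 1230186008 780900216 37827925
    (rowB 3 eng mog cd1q2a cd4q3 pd0 0 false true false .up 2 0 3 (qsf 0 536870912 0 1230186008 0) ndB1q2a ndB4q3 pcB0 Cut.none Ext.none)

def k0_pm_203_a : ∃ t, chk3 f_pm_203_a t 1 1 1 = true :=
  ⟨(b (l 2) (b (l 2) (a (b (b (l 2) (b (a (l 2) (l 2)) (a (a (l 3) (l 173576831639)) (a (l 16620448) (l 16599896))))) (a (b (a (b (l 3) (a (l 3) (l 181093097495))) (b (a (l 173039973991) (l 16615232)) (a (l 155323289399) (l 16602456)))) (a (b (a (l 3) (c (l 16596760) (l 16598384))) (a (c (l 196125364471) (l 204715230551)) (c (l 16573896) (l 16580752)))) (b (a (l 16593616) (l 16590288)) (a (l 16580800) (l 16580344))))) (b (b (a (l 16608928) (l 16585008)) (a (a (l 16598992) (l 16591152)) (l 16571816))) (a (b (a (l 16587440) (l 16579248)) (a (l 16575808) (l 16569352))) (l 16554064))))) (b (l 2) (a (b (a (l 16540800) (l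 16495872)) (a (l 16509360) (l 16452176))) (b (a (l 16450712) (l 2)) (l 16363296))))))), by decide +kernel⟩

theorem c_pm_203_a : CertB 0 536870912 0 1230186008 780900216 37827925 3 eng mog cd1q2a cd4q3 pd0 false true false .up 2 0 3
    ndB1q2a ndB4q3 pcB0 Cut.none Ext.none :=
  certB0 (fam := false) (s1 := true) (s2 := false) (a := 2) (b := 0) (c := 3) (cn := .up) (n1 := ndB1q2a) (n2 := ndB4q3) (pc := pcB0) (cut := Cut.none) (xt := Ext.none) (P1 := 0) (W1 := 536870912) (P2 := 0) (W2 := 1230186008) (P3 := 780900216) (W3 := 37827925) (N0 := 3) (En := eng) (mo := mog) (C1 := cd1q2a) (C2 := cd4q3) (C3 := pd0)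
    rfl k0_pm_203_a

noncomputable def f_pm_203_b : ℕ → ℕ → ℕ → ℕ → Bool := onCell 1239849684 370763052 0 1230186008 780900216 37827925
    (rowB 3 eng mog cd1q2b cd4q3 pd0 0 false true false .up 2 0 3 (qsf 1239849684 370763052 0 1230186008 0) ndB1q2b ndB4q3 pcB0 Cut.none Ext.none)

def k0_pm_203_b : ∃ t, chk3 f_pm_203_b t 1 1 1 = true :=
  ⟨(b (l 3) (b (l 3) (a (b (l 3) (b (l 3) (l 3))) (l 3)))), by decide +kernel⟩

theorem c_pm_203_b : CertB 1239849684 370763052 0 1230186008 780900216 37827925 3 eng mog cd1q2b cd4q3 pd0 false true false .up 2 0 3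
    ndB1q2b ndB4q3 pcB0 Cut.none Ext.none :=
  certB0 (fam := false) (s1 := true) (s2 := false) (a := 2) (b := 0) (c := 3) (cn := .up) (n1 := ndB1q2b) (n2 := ndB4q3) (pc := pcB0) (cut := Cut.none) (xt := Ext.none) (P1 := 1239849684) (W1 := 370763052) (P2 := 0) (W2 := 1230186008) (P3 := 780900216) (W3 := 37827925) (N0 := 3) (En := eng) (mo := mog) (C1 := cd1q2b) (C2 := cd4q3) (C3 := pd0)
    rfl k0_pm_203_b

noncomputable def cut_pm_213_a : Cut := Cut.of [[⟨0, 1, 0, 67108864⟩, ⟨1, 1, 0, 67108864⟩, ⟨2, 2, 0, 16777216⟩]]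

noncomputable def f_pm_213_a : ℕ → ℕ → ℕ → ℕ → Bool := onCell 0 536870912 0 1230186008 780900216 37827925
    (rowB 3 eng mog cd1q2a cd4q3 pd1 0 false true false .pnn 2 1 3 (qsf 0 536870912 0 1230186008 1) ndB1q2a ndB4q3 pcB1 cut_pm_213_a Ext.none)

def k0_pm_213_a : ∃ t, chk3 f_pm_213_a t 1 2 1 = true :=
  ⟨(a (b (l 3) (l 3)) (b (a (l 3) (a (b (l 3) (a (b (l 3) (a (l 3) (b (l 3) (l 321753453847)))) (a (b (l 3) (b (l 302962978839) (l 218137339015))) (b (l 6) (b (l 221895441207) (l 16790528)))))) (b (l 6) (a (b (a (l 6) (l 6)) (b (l 16787112) (l 16791000))) (b (a (l 6) (l 6)) (l 16794296)))))) (a (b (a (l 3) (b (l 3) (a (l 3) (b (a (l 3) (l 194514985815)) (a (l 204178698551) (l 16785200)))))) (a (b (l 3) (a (l 3) (b (l 199883709991) (a (l 245517729879) (l 166597655351))))) (b (a (a (l 241759660823) (b (l 202031163559) (l 16753432))) (b (l 132237934135) (l 16792632))) (a (b (l 145659677575) (l 16759080)) (l 16783304))))) (b (a (b (a (b (a (l 331417103735)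 (l 193978124695)) (a (l 193441252247) (l 16789608))) (b (a (l 16794448) (l 16795784)) (l 16803600))) (a (b (a (l 16786712) (l 16795544)) (l 16798616)) (l 16814296))) (b (a (l 16798352) (l 16803792)) (a (l 16811184) (l 16814080)))) (a (b (a (l 16756696) (l 16831880)) (a (l 16830304) (l 16850016))) (b (a (l 16826168) (l 16821728)) (l 16835344))))))), by decide +kernel⟩

def k1_pm_213_a : ∃ t, chk3 f_pm_213_a t 1 3 1 = true :=
  ⟨(b (a (a (l 3) (b (a (l 3) (b (l 3) (b (l 232095914615) (l 199346771367)))) (b (a (l 3) (a (b (l 185924966151) (l 188609271607)) (b (l 16719600) (l 16703200)))) (a (b (l 264844940423) (l 176798088327)) (b (a (l 16679512) (l 16689424)) (l 16673072)))))) (b (a (a (b (a (b (l 338396386839) (l 199346759095)) (b (l 162302659175) (l 16767520))) (a (l 170355678775) (l 16780056))) (b (a (l 16794720) (l 16826328)) (l 16838912))) (a (b (a (l 16857960) (l 16868800)) (l 16898752)) (l 16857192))) (a (b (a (a (l 16730048) (l 16751840)) (l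 16803496)) (a (b (l 16703696) (l 16680864)) (l 16716384))) (a (l 16872696) (l 16893472))))) (a (b (a (b (l 3) (a (l 3) (b (l 235316989351) (a (l 229948253943) (l 16620920))))) (b (a (b (l 174113721143) (a (l 16647992) (l 16648888))) (b (l 16659928) (l 16645368))) (a (b (a (l 16639976) (l 16639936)) (l 16632800)) (b (l 16631264) (l 16615016))))) (b (a (l 1) (b (a (l 1) (l 16598952)) (l 1))) (l 1))) (b (a (a (b (b (l 16655264) (l 16629888)) (b (l 16606368) (l 16583440))) (b (l 16640616) (l 16568888))) (b (a (l 16674080) (l 16813776)) (a (l 16562656) (l 16619736)))) (a (b (a (l 16548288) (l 16503048)) (l 1)) (b (a (l 16465552) (l 16468048)) (l 16363584)))))), by decide +kernel⟩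

theorem s2_pm_213_a : ∃ t, chk3 f_pm_213_a t 1 1 1 = true := ex3_b k0_pm_213_a k1_pm_213_a

theorem c_pm_213_a : CertB 0 536870912 0 1230186008 780900216 37827925 3 eng mog cd1q2a cd4q3 pd1 false true false .pnn 2 1 3
    ndB1q2a ndB4q3 pcB1 cut_pm_213_a Ext.none :=
  certB0 (fam := false) (s1 := true) (s2 := false) (a := 2) (b := 1) (c := 3) (cn := .pnn) (n1 := ndB1q2a) (n2 := ndB4q3) (pc := pcB1) (cut := cut_pm_213_a) (xt := Ext.none) (P1 := 0) (W1 := 536870912) (P2 := 0) (W2 := 1230186008) (P3 := 780900216) (W3 := 37827925) (N0 := 3) (En := eng) (mo := mog) (C1 := cd1q2a) (C2 := cd4q3) (C3 := pd1)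
    rfl s2_pm_213_a

noncomputable def cut_pm_213_b : Cut := Cut.of [[⟨0, 1, 0, 67108864⟩, ⟨1, 1, 0, 67108864⟩, ⟨2, 2, 0, 16777216⟩]]

noncomputable def f_pm_213_b : ℕ → ℕ → ℕ → ℕ → Bool := onCell 1239849684 370763052 0 1230186008 780900216 37827925
    (rowB 3 eng mog cd1q2b cd4q3 pd1 0 false true false .pnn 2 1 3 (qsf 1239849684 370763052 0 1230186008 1) ndB1q2b ndB4q3 pcB1 cut_pm_213_b Ext.none)

def k0_pm_213_b : ∃ t, chk3 f_pm_213_b t 1 1 1 = true :=
  ⟨(b (l 3) (b (l 3) (b (l 3) (l 1)))), by decide +kernel⟩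

theorem c_pm_213_b : CertB 1239849684 370763052 0 1230186008 780900216 37827925 3 eng mog cd1q2b cd4q3 pd1 false true false .pnn 2 1 3
    ndB1q2b ndB4q3 pcB1 cut_pm_213_b Ext.none :=
  certB0 (fam := false) (s1 := true) (s2 := false) (a := 2) (b := 1) (c := 3) (cn := .pnn) (n1 := ndB1q2b) (n2 := ndB4q3) (pc := pcB1) (cut := cut_pm_213_b) (xt := Ext.none) (P1 := 1239849684) (W1 := 370763052) (P2 := 0) (W2 := 1230186008) (P3 := 780900216) (W3 := 37827925) (N0 := 3) (En := eng) (mo := mog) (C1 := cd1q2b) (C2 := cd4q3) (C3 := pd1)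
    rfl k0_pm_213_b

noncomputable def f_pm_303 : ℕ → ℕ → ℕ → ℕ → Bool := onCell 1610612736 536870912 0 1230186008 780900216 37827925
    (rowB 3 eng mog cd1q3 cd4q3 pd0 0 false true false .npn 3 0 3 (qsf 1610612736 536870912 0 1230186008 0) ndB1q3 ndB4q3 pcB0 Cut.none Ext.none)

def k0_pm_303 : ∃ t, chk3 f_pm_303 t 1 1 1 = true :=
  ⟨(b (l 3) (b (l 3) (a (l 3) (l 1)))), by decide +kernel⟩

theorem c_pm_303 : CertB 1610612736 536870912 0 1230186008 780900216 37827925 3 eng mog cd1q3 cd4q3 pd0 false true false .npn 3 0 3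
    ndB1q3 ndB4q3 pcB0 Cut.none Ext.none :=
  certB0 (fam := false) (s1 := true) (s2 := false) (a := 3) (b := 0) (c := 3) (cn := .npn) (n1 := ndB1q3) (n2 := ndB4q3) (pc := pcB0) (cut := Cut.none) (xt := Ext.none) (P1 := 1610612736) (W1 := 536870912) (P2 := 0) (W2 := 1230186008) (P3 := 780900216) (W3 := 37827925) (N0 := 3) (En := eng) (mo := mog) (C1 := cd1q3) (C2 := cd4q3) (C3 := pd0)
    rfl k0_pm_303

noncomputable def f_pm_313 : ℕ → ℕ → ℕ → ℕ → Bool := onCell 1610612736 536870912 0 1230186008 780900216 37827925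
    (rowB 3 eng mog cd1q3 cd4q3 pd1 0 false true false .dn 3 1 3 (qsf 1610612736 536870912 0 1230186008 1) ndB1q3 ndB4q3 pcB1 Cut.none Ext.none)

def k0_pm_313 : ∃ t, chk3 f_pm_313 t 1 1 1 = true :=
  ⟨(b (l 3) (l 1)), by decide +kernel⟩

theorem c_pm_313 : CertB 1610612736 536870912 0 1230186008 780900216 37827925 3 eng mog cd1q3 cd4q3 pd1 false true false .dn 3 1 3
    ndB1q3 ndB4q3 pcB1 Cut.none Ext.none :=
  certB0 (fam := false) (s1 := true) (s2 := false) (a := 3) (b := 1) (c := 3) (cn := .dn) (n1 := ndB1q3) (n2 := ndB4q3) (pc := pcB1) (cut := Cut.none) (xt := Ext.none) (P1 := 1610612736) (W1 := 536870912) (P2 := 0) (W2 := 1230186008) (P3 := 780900216) (W3 := 37827925) (N0 := 3) (En := eng) (mo := mog) (C1 := cd1q3) (C2 := cd4q3) (C3 := pd1)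
    rfl k0_pm_313

noncomputable def f_mm_001 : ℕ → ℕ → ℕ → ℕ → Bool := onCell 0 536870912 0 536870912 780900216 37827925
    (rowB 3 eng mog cd1q0 cd4q1 pd0 1 false false false .up 0 0 1 (qsf 0 536870912 536870912 536870912 0) ndB1q0 ndB4q1 pcB0 Cut.none Ext.none)

def k0_mm_001 : ∃ t, chk3 f_mm_001 t 1 1 1 = true :=
  ⟨(l 3), by decide +kernel⟩

theorem c_mm_001 : CertB 0 536870912 536870912 536870912 780900216 37827925 3 eng mog cd1q0 cd4q1 pd0 false false false .up 0 0 1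
    ndB1q0 ndB4q1 pcB0 Cut.none Ext.none :=
  certB1 (fam := false) (s1 := false) (s2 := false) (a := 0) (b := 0) (c := 1) (cn := .up) (n1 := ndB1q0) (n2 := ndB4q1) (pc := pcB0) (cut := Cut.none) (xt := Ext.none) (P1 := 0) (W1 := 536870912) (P2 := 536870912) (W2 := 536870912) (P3 := 780900216) (W3 := 37827925) (N0 := 3) (En := eng) (mo := mog) (C1 := cd1q0) (C2 := cd4q1) (C3 := pd0)
    rfl (fun _ => rfl) k0_mm_001

noncomputable def f_mm_011 : ℕ → ℕ → ℕ → ℕ → Bool := onCell 0 536870912 536870912 536870912 780900216 37827925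
    (rowB 3 eng mog cd1q0 cd4q1 pd1 1 false false false .pnn 0 1 1 (qsf 0 536870912 536870912 536870912 1) ndB1q0 ndB4q1 pcB1 Cut.none Ext.none)

def k0_mm_011 : ∃ t, chk3 f_mm_011 t 1 1 1 = true :=
  ⟨(l 5), by decide +kernel⟩

theorem c_mm_011 : CertB 0 536870912 536870912 536870912 780900216 37827925 3 eng mog cd1q0 cd4q1 pd1 false false false .pnn 0 1 1
    ndB1q0 ndB4q1 pcB1 Cut.none Ext.none :=
  certB1 (fam := false) (s1 := false) (s2 := false) (a := 0) (b := 1) (c := 1) (cn := .pnn) (n1 := ndB1q0) (n2 := ndB4q1) (pc := pcB1) (cut := Cut.none) (xt := Ext.none) (P1 := 0) (W1 := 536870912) (P2 := 536870912) (W2 := 536870912) (P3 := 780900216) (W3 := 37827925) (N0 := 3) (En := eng) (mo := mog) (C1 := cd1q0) (C2 := cd4q1) (C3 := pd1)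
    rfl (fun _ => rfl) k0_mm_011

noncomputable def f_mm_012 : ℕ → ℕ → ℕ → ℕ → Bool := onCell 0 536870912 1073741824 536870912 780900216 37827925
    (rowB 3 eng mog cd1q0 cd4q2 pd1 0 false false false .pnp 0 1 2 (qsf 0 536870912 1073741824 536870912 1) ndB1q0 ndB4q2 pcB1 Cut.none Ext.none)

def k0_mm_012 : ∃ t, chk3 f_mm_012 t 1 1 1 = true :=
  ⟨(l 5), by decide +kernel⟩

theorem c_mm_012 : CertB 0 536870912 1073741824 536870912 780900216 37827925 3 eng mog cd1q0 cd4q2 pd1 false false false .pnp 0 1 2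
    ndB1q0 ndB4q2 pcB1 Cut.none Ext.none :=
  certB0 (fam := false) (s1 := false) (s2 := false) (a := 0) (b := 1) (c := 2) (cn := .pnp) (n1 := ndB1q0) (n2 := ndB4q2) (pc := pcB1) (cut := Cut.none) (xt := Ext.none) (P1 := 0) (W1 := 536870912) (P2 := 1073741824) (W2 := 536870912) (P3 := 780900216) (W3 := 37827925) (N0 := 3) (En := eng) (mo := mog) (C1 := cd1q0) (C2 := cd4q2) (C3 := pd1)
    rfl k0_mm_012

noncomputable def f_mm_022 : ℕ → ℕ → ℕ → ℕ → Bool := onCell 0 536870912 1073741824 536870912 780900216 37827925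
    (rowB 3 eng mog cd1q0 cd4q2 pd2 0 false false false .pp 0 2 2 (qsf 0 536870912 1073741824 536870912 2) ndB1q0 ndB4q2 pcB2 Cut.none Ext.none)

def k0_mm_022 : ∃ t, chk3 f_mm_022 t 1 1 1 = true :=
  ⟨(l 5), by decide +kernel⟩

theorem c_mm_022 : CertB 0 536870912 1073741824 536870912 780900216 37827925 3 eng mog cd1q0 cd4q2 pd2 false false false .pp 0 2 2
    ndB1q0 ndB4q2 pcB2 Cut.none Ext.none :=
  certB0 (fam := false) (s1 := false) (s2 := false) (a := 0) (b := 2) (c := 2) (cn := .pp) (n1 := ndB1q0) (n2 := ndB4q2) (pc := pcB2) (cut := Cut.none) (xt := Ext.none) (P1 := 0) (W1 := 536870912) (P2 := 1073741824) (W2 := 536870912) (P3 := 780900216) (W3 := 37827925) (N0 := 3) (En := eng) (mo := mog) (C1 := cd1q0) (C2 := cd4q2) (C3 := pd2)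
    rfl k0_mm_022

noncomputable def f_mm_023 : ℕ → ℕ → ℕ → ℕ → Bool := onCell 0 536870912 0 1230186008 780900216 37827925
    (rowB 3 eng mog cd1q0 cd4q3 pd2 0 false false false .up 0 2 3 (qsf 0 536870912 0 1230186008 2) ndB1q0 ndB4q3 pcB2 Cut.none Ext.none)

def k0_mm_023 : ∃ t, chk3 f_mm_023 t 1 1 1 = true :=
  ⟨(l 5), by decide +kernel⟩

theorem c_mm_023 : CertB 0 536870912 0 1230186008 780900216 37827925 3 eng mog cd1q0 cd4q3 pd2 false false false .up 0 2 3
    ndB1q0 ndB4q3 pcB2 Cut.none Ext.none :=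
  certB0 (fam := false) (s1 := false) (s2 := false) (a := 0) (b := 2) (c := 3) (cn := .up) (n1 := ndB1q0) (n2 := ndB4q3) (pc := pcB2) (cut := Cut.none) (xt := Ext.none) (P1 := 0) (W1 := 536870912) (P2 := 0) (W2 := 1230186008) (P3 := 780900216) (W3 := 37827925) (N0 := 3) (En := eng) (mo := mog) (C1 := cd1q0) (C2 := cd4q3) (C3 := pd2)
    rfl k0_mm_023

noncomputable def f_mm_033 : ℕ → ℕ → ℕ → ℕ → Bool := onCell 0 536870912 0 1230186008 780900216 37827925
    (rowB 3 eng mog cd1q0 cd4q3 pd3 0 false false false .pnn 0 3 3 (qsf 0 536870912 0 1230186008 3) ndB1q0 ndB4q3 pcB3 Cut.none Ext.none)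

def k0_mm_033 : ∃ t, chk3 f_mm_033 t 1 1 1 = true :=
  ⟨(l 5), by decide +kernel⟩

theorem c_mm_033 : CertB 0 536870912 0 1230186008 780900216 37827925 3 eng mog cd1q0 cd4q3 pd3 false false false .pnn 0 3 3
    ndB1q0 ndB4q3 pcB3 Cut.none Ext.none :=
  certB0 (fam := false) (s1 := false) (s2 := false) (a := 0) (b := 3) (c := 3) (cn := .pnn) (n1 := ndB1q0) (n2 := ndB4q3) (pc := pcB3) (cut := Cut.none) (xt := Ext.none) (P1 := 0) (W1 := 536870912) (P2 := 0) (W2 := 1230186008) (P3 := 780900216) (W3 := 37827925) (N0 := 3) (En := eng) (mo := mog) (C1 := cd1q0) (C2 := cd4q3) (C3 := pd3)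
    rfl k0_mm_033

noncomputable def f_mm_101 : ℕ → ℕ → ℕ → ℕ → Bool := onCell 536870912 536870912 0 536870912 780900216 37827925
    (rowB 3 eng mog cd1q1 cd4q1 pd0 1 false false false .npn 1 0 1 (qsf 536870912 536870912 536870912 536870912 0) ndB1q1 ndB4q1 pcB0 Cut.none Ext.none)

def k0_mm_101 : ∃ t, chk3 f_mm_101 t 1 1 1 = true :=
  ⟨(l 3), by decide +kernel⟩

theorem c_mm_101 : CertB 536870912 536870912 536870912 536870912 780900216 37827925 3 eng mog cd1q1 cd4q1 pd0 false false false .npn 1 0 1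
    ndB1q1 ndB4q1 pcB0 Cut.none Ext.none :=
  certB1 (fam := false) (s1 := false) (s2 := false) (a := 1) (b := 0) (c := 1) (cn := .npn) (n1 := ndB1q1) (n2 := ndB4q1) (pc := pcB0) (cut := Cut.none) (xt := Ext.none) (P1 := 536870912) (W1 := 536870912) (P2 := 536870912) (W2 := 536870912) (P3 := 780900216) (W3 := 37827925) (N0 := 3) (En := eng) (mo := mog) (C1 := cd1q1) (C2 := cd4q1) (C3 := pd0)
    rfl (fun _ => rfl) k0_mm_101

noncomputable def f_mm_102 : ℕ → ℕ → ℕ → ℕ → Bool := onCell 536870912 536870912 1073741824 536870912 780900216 37827925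
    (rowB 3 eng mog cd1q1 cd4q2 pd0 0 false false false .npp 1 0 2 (qsf 536870912 536870912 1073741824 536870912 0) ndB1q1 ndB4q2 pcB0 Cut.none Ext.none)

def k0_mm_102 : ∃ t, chk3 f_mm_102 t 1 1 1 = true :=
  ⟨(l 3), by decide +kernel⟩

theorem c_mm_102 : CertB 536870912 536870912 1073741824 536870912 780900216 37827925 3 eng mog cd1q1 cd4q2 pd0 false false false .npp 1 0 2
    ndB1q1 ndB4q2 pcB0 Cut.none Ext.none :=
  certB0 (fam := false) (s1 := false) (s2 := false) (a := 1) (b := 0) (c := 2) (cn := .npp) (n1 := ndB1q1) (n2 := ndB4q2) (pc := pcB0) (cut := Cut.none) (xt := Ext.none) (P1 := 536870912) (W1 := 536870912) (P2 := 1073741824) (W2 := 536870912) (P3 := 780900216) (W3 := 37827925) (N0 := 3) (En := eng) (mo := mog) (C1 := cd1q1) (C2 := cd4q2) (C3 := pd0)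
    rfl k0_mm_102

noncomputable def f_mm_112 : ℕ → ℕ → ℕ → ℕ → Bool := onCell 536870912 536870912 1073741824 536870912 780900216 37827925
    (rowB 3 eng mog cd1q1 cd4q2 pd1 0 false false false .dn 1 1 2 (qsf 536870912 536870912 1073741824 536870912 1) ndB1q1 ndB4q2 pcB1 Cut.none Ext.none)

def k0_mm_112 : ∃ t, chk3 f_mm_112 t 1 1 1 = true :=
  ⟨(l 3), by decide +kernel⟩

theorem c_mm_112 : CertB 536870912 536870912 1073741824 536870912 780900216 37827925 3 eng mog cd1q1 cd4q2 pd1 false false false .dn 1 1 2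
    ndB1q1 ndB4q2 pcB1 Cut.none Ext.none :=
  certB0 (fam := false) (s1 := false) (s2 := false) (a := 1) (b := 1) (c := 2) (cn := .dn) (n1 := ndB1q1) (n2 := ndB4q2) (pc := pcB1) (cut := Cut.none) (xt := Ext.none) (P1 := 536870912) (W1 := 536870912) (P2 := 1073741824) (W2 := 536870912) (P3 := 780900216) (W3 := 37827925) (N0 := 3) (En := eng) (mo := mog) (C1 := cd1q1) (C2 := cd4q2) (C3 := pd1)
    rfl k0_mm_112

noncomputable def f_mm_113 : ℕ → ℕ → ℕ → ℕ → Bool := onCell 536870912 536870912 0 1230186008 780900216 37827925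
    (rowB 3 eng mog cd1q1 cd4q3 pd1 0 false false false .nn 1 1 3 (qsf 536870912 536870912 0 1230186008 1) ndB1q1 ndB4q3 pcB1 Cut.none Ext.none)

def k0_mm_113 : ∃ t, chk3 f_mm_113 t 1 1 1 = true :=
  ⟨(b (l 5) (l 5)), by decide +kernel⟩

theorem c_mm_113 : CertB 536870912 536870912 0 1230186008 780900216 37827925 3 eng mog cd1q1 cd4q3 pd1 false false false .nn 1 1 3
    ndB1q1 ndB4q3 pcB1 Cut.none Ext.none :=
  certB0 (fam := false) (s1 := false) (s2 := false) (a := 1) (b := 1) (c := 3) (cn := .nn) (n1 := ndB1q1) (n2 := ndB4q3) (pc := pcB1) (cut := Cut.none) (xt := Ext.none) (P1 := 536870912) (W1 := 536870912) (P2 := 0) (W2 := 1230186008) (P3 := 780900216) (W3 := 37827925) (N0 := 3) (En := eng) (mo := mog) (C1 := cd1q1) (C2 := cd4q3) (C3 := pd1)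
    rfl k0_mm_113

noncomputable def f_mm_123 : ℕ → ℕ → ℕ → ℕ → Bool := onCell 536870912 536870912 0 1230186008 780900216 37827925
    (rowB 3 eng mog cd1q1 cd4q3 pd2 0 false false false .npn 1 2 3 (qsf 536870912 536870912 0 1230186008 2) ndB1q1 ndB4q3 pcB2 Cut.none Ext.none)

def k0_mm_123 : ∃ t, chk3 f_mm_123 t 1 1 1 = true :=
  ⟨(b (l 5) (l 5)), by decide +kernel⟩

theorem c_mm_123 : CertB 536870912 536870912 0 1230186008 780900216 37827925 3 eng mog cd1q1 cd4q3 pd2 false false false .npn 1 2 3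
    ndB1q1 ndB4q3 pcB2 Cut.none Ext.none :=
  certB0 (fam := false) (s1 := false) (s2 := false) (a := 1) (b := 2) (c := 3) (cn := .npn) (n1 := ndB1q1) (n2 := ndB4q3) (pc := pcB2) (cut := Cut.none) (xt := Ext.none) (P1 := 536870912) (W1 := 536870912) (P2 := 0) (W2 := 1230186008) (P3 := 780900216) (W3 := 37827925) (N0 := 3) (En := eng) (mo := mog) (C1 := cd1q1) (C2 := cd4q3) (C3 := pd2)
    rfl k0_mm_123

noncomputable def f_mm_133 : ℕ → ℕ → ℕ → ℕ → Bool := onCell 536870912 536870912 0 1230186008 780900216 37827925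
    (rowB 3 eng mog cd1q1 cd4q3 pd3 0 false false false .dn 1 3 3 (qsf 536870912 536870912 0 1230186008 3) ndB1q1 ndB4q3 pcB3 Cut.none Ext.none)

def k0_mm_133 : ∃ t, chk3 f_mm_133 t 1 1 1 = true :=
  ⟨(b (l 5) (l 1)), by decide +kernel⟩

theorem c_mm_133 : CertB 536870912 536870912 0 1230186008 780900216 37827925 3 eng mog cd1q1 cd4q3 pd3 false false false .dn 1 3 3
    ndB1q1 ndB4q3 pcB3 Cut.none Ext.none :=
  certB0 (fam := false) (s1 := false) (s2 := false) (a := 1) (b := 3) (c := 3) (cn := .dn) (n1 := ndB1q1) (n2 := ndB4q3) (pc := pcB3) (cut := Cut.none) (xt := Ext.none) (P1 := 536870912) (W1 := 536870912) (P2 := 0) (W2 := 1230186008) (P3 := 780900216) (W3 := 37827925) (N0 := 3) (En := eng) (mo := mog) (C1 := cd1q1) (C2 := cd4q3) (C3 := pd3)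
    rfl k0_mm_133

noncomputable def f_mm_202_a : ℕ → ℕ → ℕ → ℕ → Bool := onCell 0 536870912 0 536870912 780900216 37827925
    (rowB 3 eng mog cd1q2a cd4q2 pd0 1 false false false .pp 2 0 2 (qsf 0 536870912 1073741824 536870912 0) ndB1q2a ndB4q2 pcB0 Cut.none Ext.none)

def k0_mm_202_a : ∃ t, chk3 f_mm_202_a t 1 1 1 = true :=
  ⟨(b (l 3) (l 3)), by decide +kernel⟩

theorem c_mm_202_a : CertB 0 536870912 1073741824 536870912 780900216 37827925 3 eng mog cd1q2a cd4q2 pd0 false false false .pp 2 0 2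
    ndB1q2a ndB4q2 pcB0 Cut.none Ext.none :=
  certB1 (fam := false) (s1 := false) (s2 := false) (a := 2) (b := 0) (c := 2) (cn := .pp) (n1 := ndB1q2a) (n2 := ndB4q2) (pc := pcB0) (cut := Cut.none) (xt := Ext.none) (P1 := 0) (W1 := 536870912) (P2 := 1073741824) (W2 := 536870912) (P3 := 780900216) (W3 := 37827925) (N0 := 3) (En := eng) (mo := mog) (C1 := cd1q2a) (C2 := cd4q2) (C3 := pd0)
    rfl (fun _ => rfl) k0_mm_202_a

noncomputable def f_mm_202_b : ℕ → ℕ → ℕ → ℕ → Bool := onCell 1239849684 370763052 1073741824 536870912 780900216 37827925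
    (rowB 3 eng mog cd1q2b cd4q2 pd0 0 false false false .pp 2 0 2 (qsf 1239849684 370763052 1073741824 536870912 0) ndB1q2b ndB4q2 pcB0 Cut.none Ext.none)

def k0_mm_202_b : ∃ t, chk3 f_mm_202_b t 1 1 1 = true :=
  ⟨(b (a (b (l 1) (l 3)) (l 1)) (l 3)), by decide +kernel⟩

theorem c_mm_202_b : CertB 1239849684 370763052 1073741824 536870912 780900216 37827925 3 eng mog cd1q2b cd4q2 pd0 false false false .pp 2 0 2
    ndB1q2b ndB4q2 pcB0 Cut.none Ext.none :=
  certB0 (fam := false) (s1 := false) (s2 := false) (a := 2) (b := 0) (c := 2) (cn := .pp) (n1 := ndB1q2b) (n2 := ndB4q2) (pc := pcB0) (cut := Cut.none) (xt := Ext.none) (P1 := 1239849684) (W1 := 370763052) (P2 := 1073741824) (W2 := 536870912) (P3 := 780900216) (W3 := 37827925) (N0 := 3) (En := eng) (mo := mog) (C1 := cd1q2b) (C2 := cd4q2) (C3 := pd0)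
    rfl k0_mm_202_b

noncomputable def f_mm_203_a : ℕ → ℕ → ℕ → ℕ → Bool := onCell 0 536870912 0 1230186008 780900216 37827925
    (rowB 3 eng mog cd1q2a cd4q3 pd0 0 false false false .up 2 0 3 (qsf 0 536870912 0 1230186008 0) ndB1q2a ndB4q3 pcB0 Cut.none Ext.none)

def k0_mm_203_a : ∃ t, chk3 f_mm_203_a t 1 1 1 = true :=
  ⟨(b (l 2) (l 3)), by decide +kernel⟩

theorem c_mm_203_a : CertB 0 536870912 0 1230186008 780900216 37827925 3 eng mog cd1q2a cd4q3 pd0 false false false .up 2 0 3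
    ndB1q2a ndB4q3 pcB0 Cut.none Ext.none :=
  certB0 (fam := false) (s1 := false) (s2 := false) (a := 2) (b := 0) (c := 3) (cn := .up) (n1 := ndB1q2a) (n2 := ndB4q3) (pc := pcB0) (cut := Cut.none) (xt := Ext.none) (P1 := 0) (W1 := 536870912) (P2 := 0) (W2 := 1230186008) (P3 := 780900216) (W3 := 37827925) (N0 := 3) (En := eng) (mo := mog) (C1 := cd1q2a) (C2 := cd4q3) (C3 := pd0)
    rfl k0_mm_203_a

noncomputable def f_mm_203_b : ℕ → ℕ → ℕ → ℕ → Bool := onCell 1239849684 370763052 0 1230186008 780900216 37827925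
    (rowB 3 eng mog cd1q2b cd4q3 pd0 0 false false false .up 2 0 3 (qsf 1239849684 370763052 0 1230186008 0) ndB1q2b ndB4q3 pcB0 Cut.none Ext.none)

def k0_mm_203_b : ∃ t, chk3 f_mm_203_b t 1 1 1 = true :=
  ⟨(b (l 3) (l 3)), by decide +kernel⟩

theorem c_mm_203_b : CertB 1239849684 370763052 0 1230186008 780900216 37827925 3 eng mog cd1q2b cd4q3 pd0 false false false .up 2 0 3
    ndB1q2b ndB4q3 pcB0 Cut.none Ext.none :=
  certB0 (fam := false) (s1 := false) (s2 := false) (a := 2) (b := 0) (c := 3) (cn := .up) (n1 := ndB1q2b) (n2 := ndB4q3) (pc := pcB0) (cut := Cut.none) (xt := Ext.none) (P1 := 1239849684) (W1 := 370763052) (P2 := 0) (W2 := 1230186008) (P3 := 780900216) (W3 := 37827925) (N0 := 3) (En := eng) (mo := mog) (C1 := cd1q2b) (C2 := cd4q3) (C3 := pd0)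
    rfl k0_mm_203_b

noncomputable def f_mm_213_a : ℕ → ℕ → ℕ → ℕ → Bool := onCell 0 536870912 0 1230186008 780900216 37827925
    (rowB 3 eng mog cd1q2a cd4q3 pd1 0 false false false .pnn 2 1 3 (qsf 0 536870912 0 1230186008 1) ndB1q2a ndB4q3 pcB1 Cut.none Ext.none)

def k0_mm_213_a : ∃ t, chk3 f_mm_213_a t 1 1 1 = true :=
  ⟨(b (a (l 3) (l 5)) (l 3)), by decide +kernel⟩

theorem c_mm_213_a : CertB 0 536870912 0 1230186008 780900216 37827925 3 eng mog cd1q2a cd4q3 pd1 false false false .pnn 2 1 3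
    ndB1q2a ndB4q3 pcB1 Cut.none Ext.none :=
  certB0 (fam := false) (s1 := false) (s2 := false) (a := 2) (b := 1) (c := 3) (cn := .pnn) (n1 := ndB1q2a) (n2 := ndB4q3) (pc := pcB1) (cut := Cut.none) (xt := Ext.none) (P1 := 0) (W1 := 536870912) (P2 := 0) (W2 := 1230186008) (P3 := 780900216) (W3 := 37827925) (N0 := 3) (En := eng) (mo := mog) (C1 := cd1q2a) (C2 := cd4q3) (C3 := pd1)
    rfl k0_mm_213_a

noncomputable def f_mm_213_b : ℕ → ℕ → ℕ → ℕ → Bool := onCell 1239849684 370763052 0 1230186008 780900216 37827925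
    (rowB 3 eng mog cd1q2b cd4q3 pd1 0 false false false .pnn 2 1 3 (qsf 1239849684 370763052 0 1230186008 1) ndB1q2b ndB4q3 pcB1 Cut.none Ext.none)

def k0_mm_213_b : ∃ t, chk3 f_mm_213_b t 1 1 1 = true :=
  ⟨(b (l 3) (l 3)), by decide +kernel⟩

theorem c_mm_213_b : CertB 1239849684 370763052 0 1230186008 780900216 37827925 3 eng mog cd1q2b cd4q3 pd1 false false false .pnn 2 1 3
    ndB1q2b ndB4q3 pcB1 Cut.none Ext.none :=
  certB0 (fam := false) (s1 := false) (s2 := false) (a := 2) (b := 1) (c := 3) (cn := .pnn) (n1 := ndB1q2b) (n2 := ndB4q3) (pc := pcB1) (cut := Cut.none) (xt := Ext.none) (P1 := 1239849684) (W1 := 370763052) (P2 := 0) (W2 := 1230186008) (P3 := 780900216) (W3 := 37827925) (N0 := 3) (En := eng) (mo := mog) (C1 := cd1q2b) (C2 := cd4q3) (C3 := pd1)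
    rfl k0_mm_213_b

noncomputable def f_mm_303 : ℕ → ℕ → ℕ → ℕ → Bool := onCell 0 536870912 0 1230186008 780900216 37827925
    (rowB 3 eng mog cd1q3 cd4q3 pd0 2 false false false .npn 3 0 3 (qsf 1610612736 536870912 0 1230186008 0) ndB1q3 ndB4q3 pcB0 Cut.none Ext.none)

def k0_mm_303 : ∃ t, chk3 f_mm_303 t 1 1 1 = true :=
  ⟨(b (l 3) (l 3)), by decide +kernel⟩

theorem c_mm_303 : CertB 1610612736 536870912 0 1230186008 780900216 37827925 3 eng mog cd1q3 cd4q3 pd0 false false false .npn 3 0 3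
    ndB1q3 ndB4q3 pcB0 Cut.none Ext.none :=
  certB2 (fam := false) (s1 := false) (s2 := false) (a := 3) (b := 0) (c := 3) (cn := .npn) (n1 := ndB1q3) (n2 := ndB4q3) (pc := pcB0) (cut := Cut.none) (xt := Ext.none) (P1 := 1610612736) (W1 := 536870912) (P2 := 0) (W2 := 1230186008) (P3 := 780900216) (W3 := 37827925) (N0 := 3) (En := eng) (mo := mog) (C1 := cd1q3) (C2 := cd4q3) (C3 := pd0)
    rfl (fun _ => rfl) k0_mm_303

noncomputable def f_mm_313 : ℕ → ℕ → ℕ → ℕ → Bool := onCell 1610612736 536870912 0 1230186008 780900216 37827925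
    (rowB 3 eng mog cd1q3 cd4q3 pd1 0 false false false .dn 3 1 3 (qsf 1610612736 536870912 0 1230186008 1) ndB1q3 ndB4q3 pcB1 Cut.none Ext.none)

def k0_mm_313 : ∃ t, chk3 f_mm_313 t 1 1 1 = true :=
  ⟨(b (l 3) (l 1)), by decide +kernel⟩

theorem c_mm_313 : CertB 1610612736 536870912 0 1230186008 780900216 37827925 3 eng mog cd1q3 cd4q3 pd1 false false false .dn 3 1 3
    ndB1q3 ndB4q3 pcB1 Cut.none Ext.none :=
  certB0 (fam := false) (s1 := false) (s2 := false) (a := 3) (b := 1) (c := 3) (cn := .dn) (n1 := ndB1q3) (n2 := ndB4q3) (pc := pcB1) (cut := Cut.none) (xt := Ext.none) (P1 := 1610612736) (W1 := 536870912) (P2 := 0) (W2 := 1230186008) (P3 := 780900216) (W3 := 37827925) (N0 := 3) (En := eng) (mo := mog) (C1 := cd1q3) (C2 := cd4q3) (C3 := pd1)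
    rfl k0_mm_313

end Pool.Agent.Strip051.G.I72727_7625.Tab.C.BB14

namespace Pool.Agent.Strip051.G.I72727_7625.Tab.C.BB15

open Pool.Agent.Strip051.PB Pool.Agent.Strip051.PB.T
open Pool.Agent.Strip051.G.I72727_7625.Tab

noncomputable def f_pp_001 : ℕ → ℕ → ℕ → ℕ → Bool := onCell 0 536870912 0 536870912 780900216 37827925
    (rowB 3 eng mog cd1q0 cd5q1 pd0 1 false true true .up 0 0 1 (qsf 0 536870912 536870912 536870912 0) ndB1q0 ndB5q1 pcB0 Cut.none Ext.none)

def k0_pp_001 : ∃ t, chk3 f_pp_001 t 1 1 1 = true :=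
  ⟨(l 3), by decide +kernel⟩

theorem c_pp_001 : CertB 0 536870912 536870912 536870912 780900216 37827925 3 eng mog cd1q0 cd5q1 pd0 false true true .up 0 0 1
    ndB1q0 ndB5q1 pcB0 Cut.none Ext.none :=
  certB1 (fam := false) (s1 := true) (s2 := true) (a := 0) (b := 0) (c := 1) (cn := .up) (n1 := ndB1q0) (n2 := ndB5q1) (pc := pcB0) (cut := Cut.none) (xt := Ext.none) (P1 := 0) (W1 := 536870912) (P2 := 536870912) (W2 := 536870912) (P3 := 780900216) (W3 := 37827925) (N0 := 3) (En := eng) (mo := mog) (C1 := cd1q0) (C2 := cd5q1) (C3 := pd0)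
    rfl (fun _ => rfl) k0_pp_001

noncomputable def cut_pp_011 : Cut := Cut.of [[⟨0, 0, 0, 67108864⟩, ⟨1, 1, 0, 67108864⟩, ⟨2, 1, 0, 67108864⟩]]

noncomputable def f_pp_011 : ℕ → ℕ → ℕ → ℕ → Bool := onCell 0 536870912 536870912 536870912 780900216 37827925
    (rowB 3 eng mog cd1q0 cd5q1 pd1 1 false true true .pnn 0 1 1 (qsf 0 536870912 536870912 536870912 1) ndB1q0 ndB5q1 pcB1 cut_pp_011 Ext.none)

def k0_pp_011 : ∃ t, chk3 f_pp_011 t 1 1 1 = true :=
  ⟨(b (l 3) (b (l 3) (a (b (l 3) (a (a (b (l 3) (a (l 6) (l 3))) (l 3)) (l 2))) (l 2)))), by decide +kernel⟩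

theorem c_pp_011 : CertB 0 536870912 536870912 536870912 780900216 37827925 3 eng mog cd1q0 cd5q1 pd1 false true true .pnn 0 1 1
    ndB1q0 ndB5q1 pcB1 cut_pp_011 Ext.none :=
  certB1 (fam := false) (s1 := true) (s2 := true) (a := 0) (b := 1) (c := 1) (cn := .pnn) (n1 := ndB1q0) (n2 := ndB5q1) (pc := pcB1) (cut := cut_pp_011) (xt := Ext.none) (P1 := 0) (W1 := 536870912) (P2 := 536870912) (W2 := 536870912) (P3 := 780900216) (W3 := 37827925) (N0 := 3) (En := eng) (mo := mog) (C1 := cd1q0) (C2 := cd5q1) (C3 := pd1)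
    rfl (fun _ => rfl) k0_pp_011

noncomputable def cut_pp_012 : Cut := Cut.of [[⟨0, 0, 0, 67108864⟩, ⟨1, 1, 0, 67108864⟩, ⟨2, 1, 0, 67108864⟩]]

noncomputable def f_pp_012 : ℕ → ℕ → ℕ → ℕ → Bool := onCell 0 536870912 536870912 536870912 780900216 37827925
    (rowB 3 eng mog cd1q0 cd5q2 pd1 1 false true true .pnp 0 1 2 (qsf 0 536870912 1073741824 536870912 1) ndB1q0 ndB5q2 pcB1 cut_pp_012 Ext.none)

def k0_pp_012 : ∃ t, chk3 f_pp_012 t 1 1 1 = true :=
  ⟨(b (l 3) (a (b (l 3) (a (a (a (b (l 1) (b (l 3) (l 6))) (l 3)) (l 3)) (l 3))) (l 3))), by decide +kernel⟩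

theorem c_pp_012 : CertB 0 536870912 1073741824 536870912 780900216 37827925 3 eng mog cd1q0 cd5q2 pd1 false true true .pnp 0 1 2
    ndB1q0 ndB5q2 pcB1 cut_pp_012 Ext.none :=
  certB1 (fam := false) (s1 := true) (s2 := true) (a := 0) (b := 1) (c := 2) (cn := .pnp) (n1 := ndB1q0) (n2 := ndB5q2) (pc := pcB1) (cut := cut_pp_012) (xt := Ext.none) (P1 := 0) (W1 := 536870912) (P2 := 1073741824) (W2 := 536870912) (P3 := 780900216) (W3 := 37827925) (N0 := 3) (En := eng) (mo := mog) (C1 := cd1q0) (C2 := cd5q2) (C3 := pd1)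
    rfl (fun _ => rfl) k0_pp_012

noncomputable def cut_pp_022 : Cut := Cut.of [[⟨0, 0, 0, 67108864⟩, ⟨1, 1, 0, 67108864⟩, ⟨2, 1, 0, 67108864⟩]]

noncomputable def f_pp_022 : ℕ → ℕ → ℕ → ℕ → Bool := onCell 0 536870912 1073741824 536870912 780900216 37827925
    (rowB 3 eng mog cd1q0 cd5q2 pd2 1 false true true .pp 0 2 2 (qsf 0 536870912 1073741824 536870912 2) ndB1q0 ndB5q2 pcB2 cut_pp_022 Ext.none)

def k0_pp_022 : ∃ t, chk3 f_pp_022 t 2 8 1 = true :=
  ⟨(a (a (b (a (b (l 6) (a (l 6) (b (l 6) (a (l 6) (b (l 6) (a (l 6) (l 16720024))))))) (b (l 3) (a (b (a (a (l 6) (l 3)) (l 3)) (a (b (l 202568060295) (l 16745488)) (b (l 3) (l 330343291959)))) (l 3)))) (a (a (b (a (l 6) (b (l 6) (l 16700696))) (a (b (b (l 6) (l 16653320)) (l 16638824)) (b (l 16650048) (l 16630840)))) (b (b (a (l 16727296) (b (l 16732688) (l 16725704))) (a (l 16702464) (l 16714288))) (a (b (l 16683560) (l 16664552)) (b (l 16695488) (l 16676712))))) (b (a (b (a (b (l 16737408) (l 16729656))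 (b (l 16742400) (l 16735472))) (a (l 16718888) (a (l 16721800) (l 16703168)))) (b (a (l 211157981991) (l 3)) (b (l 131164197367) (a (l 16724384) (l 16731072))))) (a (b (l 16706688) (l 16692840)) (b (a (l 16712384) (l 16717464)) (a (l 16697872) (l 16680536))))))) (b (l 3) (b (a (b (l 3) (a (b (l 3) (a (l 16736192) (l 3))) (l 3))) (l 3)) (a (b (a (c (l 164450172647) (l 169282010231)) (b (l 3) (l 380809093463))) (a (a (l 16705944) (l 16711640)) (b (l 16723840) (l 16715648)))) (b (l 3) (a (l 382956549959) (l 3))))))) (l 3)), by decide +kernel⟩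

def k1_pp_022 : ∃ t, chk3 f_pp_022 t 2 9 1 = true :=
  ⟨(a (b (a (a (a (b (a (c (l 16573520) (l 16617928)) (l 16629712)) (a (l 16589144) (l 16602328))) (b (b (l 16655136) (l 16642296)) (l 16618832))) (b (a (b (l 16675400) (l 16654320)) (b (l 16682688) (l 16662600))) (a (b (l 16633704) (l 16614160)) (l 16652920)))) (a (b (b (a (l 16669712) (b (l 16706400) (l 16696168))) (a (l 16671232) (l 16681176))) (a (b (l 16651984) (l 16632680)) (b (l 16662632) (l 16644136)))) (b (a (b (b (l 16717032) (l 16708344)) (l 16693816)) (b (l 3) (l 270213610295))) (b (a (l 16674224) (l 16687896)) (a (l 16656664) (l 16669528)))))) (a (a (b (a (b (l 16573208) (l 16557208)) (l 16583272)) (a (l 16533808) (l 16549552))) (b (b (l 16599288) (l 16581896)) (l 16557480))) (a (b (b (l 16577544) (a (l 16594464) (l 16607840))) (b (a (l 16576200) (l 16589176)) (l 16524136))) (b (b (a (l 16639176) (l 16653000)) (l 16545240)) (l 16623016))))) (b (a (b (b (l 3) (a (l 3) (l 3))) (a (b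 (a (l 16701024) (l 16712544)) (a (l 16684120) (l 16697768))) (b (l 3) (l 411947505703)))) (l 3)) (a (a (b (b (a (l 16666632) (l 16680904)) (l 16594080)) (b (l 16619096) (l 16621992))) (b (b (l 257865528871) (l 16680336)) (b (l 16663896) (l 16626024)))) (b (a (b (l 3) (l 379735219815)) (l 3)) (a (b (l 16661720) (l 16668648)) (b (l 16719144) (l 16688552))))))), by decide +kernel⟩

def k2_pp_022 : ∃ t, chk3 f_pp_022 t 2 5 1 = true :=
  ⟨(b (a (a (b (b (a (a (l 16500024) (l 16519048)) (l 16529200)) (a (b (l 16482872) (b (l 16465936) (l 16452168))) (b (l 16512208) (l 16581520)))) (a (a (l 16401592) (l 16421488)) (l 16490504))) (a (b (b (a (l 16541368) (l 16550608)) (b (l 16530928) (l 16527288))) (l 16478544)) (b (b (l 16569144) (b (l 16549632) (l 16546832))) (l 16505728)))) (b (b (a (a (l 16595640) (b (l 16629952) (l 16612536))) (b (a (l 16652192) (l 16674240)) (a (l 16636216) (l 16658296)))) (b (a (a (l 16571144) (l 16595576)) (a (l 16619368) (l 16644328)))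 (b (a (l 16573400) (l 16618800)) (a (a (l 16562600) (l 16579912)) (b (l 16612408) (l 16608744)))))) (a (a (l 16531176) (l 16549080)) (a (l 16570568) (l 16594744))))) (b (a (a (a (b (l 16360304) (l 16325008)) (l 16375680)) (a (l 16405464) (l 16432384))) (a (a (l 16457952) (l 16483888)) (a (l 16513968) (l 16543192)))) (a (a (a (l 16271496) (l 16304112)) (a (l 16333704) (l 16360784))) (a (a (l 16386560) (l 16416256)) (l 16490328))))), by decide +kernel⟩

def k3_pp_022 : ∃ t, chk3 f_pp_022 t 2 3 1 = true :=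
  ⟨(a (b (a (b (a (b (l 16201440) (l 16132816)) (b (l 16233936) (l 16165688))) (a (b (l 16066208) (l 16001656)) (b (l 16099248) (l 16035176)))) (b (a (b (l 16263784) (l 16195336)) (b (l 16290632) (l 16224240))) (b (a (l 16129912) (l 16163600)) (l 16089480)))) (a (a (b (b (l 15939720) (l 15881232)) (l 15804880)) (b (l 15990352) (l 15920664))) (a (b (l 15992432) (l 15938776)) (b (l 16167984) (l 2))))) (b (b (a (a (b (l 16319432) (l 16258120)) (l 16409584)) (b (l 16415472) (l 16368200))) (a (b (l 16226240) (l 16328224)) (a (l 16282952) (l 2)))) (b (a (a (l 16182008) (l 2)) (l 2)) (l 2)))), by decide +kernel⟩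

def k4_pp_022 : ∃ t, chk3 f_pp_022 t 3 1 1 = true :=
  ⟨(b (b (b (l 3) (a (b (l 3) (b (l 3) (a (a (b (l 3) (l 3)) (l 3)) (l 3)))) (l 3))) (b (b (b (a (a (b (a (l 16693528) (l 3)) (l 45264767383)) (b (l 3) (l 16709704))) (l 3)) (a (b (a (b (l 16676320) (l 16669304)) (a (l 16695664) (l 16706096))) (b (a (l 16662200) (l 16756432)) (a (b (l 16656184) (l 16652008)) (b (l 16690008) (l 16687472))))) (l 2))) (a (a (a (l 16617888) (l 16639808)) (a (l 16660472) (l 16679144))) (l 2))) (a (a (b (a (l 16570688) (l 16596008)) (l 16535848)) (b (l 16631984) (l 2))) (l 2)))) (a (b (b (a (b (l 16493376) (l 2)) (l 2)) (l 2)) (l 2)) (l 2))), by decide +kernel⟩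

theorem s5_pp_022 : ∃ t, chk3 f_pp_022 t 2 4 1 = true := ex3_b k0_pp_022 k1_pp_022

theorem s6_pp_022 : ∃ t, chk3 f_pp_022 t 2 2 1 = true := ex3_b s5_pp_022 k2_pp_022

theorem s7_pp_022 : ∃ t, chk3 f_pp_022 t 2 1 1 = true := ex3_b s6_pp_022 k3_pp_022

theorem s8_pp_022 : ∃ t, chk3 f_pp_022 t 1 1 1 = true := ex3_a s7_pp_022 k4_pp_022

theorem c_pp_022 : CertB 0 536870912 1073741824 536870912 780900216 37827925 3 eng mog cd1q0 cd5q2 pd2 false true true .pp 0 2 2
    ndB1q0 ndB5q2 pcB2 cut_pp_022 Ext.none :=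
  certB1 (fam := false) (s1 := true) (s2 := true) (a := 0) (b := 2) (c := 2) (cn := .pp) (n1 := ndB1q0) (n2 := ndB5q2) (pc := pcB2) (cut := cut_pp_022) (xt := Ext.none) (P1 := 0) (W1 := 536870912) (P2 := 1073741824) (W2 := 536870912) (P3 := 780900216) (W3 := 37827925) (N0 := 3) (En := eng) (mo := mog) (C1 := cd1q0) (C2 := cd5q2) (C3 := pd2)
    rfl (fun _ => rfl) s8_pp_022

noncomputable def f_pp_023 : ℕ → ℕ → ℕ → ℕ → Bool := onCell 1073741824 536870912 0 1230186008 780900216 37827925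
    (rowB 3 eng mog cd1q0 cd5q3 pd2 2 false true true .up 0 2 3 (qsf 0 536870912 0 1230186008 2) ndB1q0 ndB5q3 pcB2 Cut.none Ext.none)

def k0_pp_023 : ∃ t, chk3 f_pp_023 t 1 1 1 = true :=
  ⟨(a (a (b (l 2) (b (l 2) (l 3))) (b (l 2) (b (a (l 2) (b (l 2) (l 16836384))) (a (a (a (l 3) (b (a (b (l 2) (l 3)) (a (l 698637073591) (a (l 16926944) (l 16759024)))) (a (b (l 3) (b (l 3) (l 16710024))) (b (a (l 3) (b (l 16852448) (l 16866384))) (a (l 16791896) (a (l 16767928) (l 16702872))))))) (b (a (l 16778536) (l 16731736)) (b (l 16711784) (l 16681384)))) (b (b (l 16705256) (l 16676920)) (b (l 16638008) (l 16715392))))))) (a (b (l 2) (b (b (l 163309721063) (a (l 16701536) (l 16645288))) (b (b (l 16611936) (l 16540816)) (b (b (l 16477616) (l 16430856)) (a (l 16438896) (b (l 16292936) (l 16233456))))))) (b (b (b (l 16540928) (l 16607200)) (b (l 16629976) (l 16623072))) (b (b (l 16604072) (b (l 16561096) (l 16501144))) (b (b (l 16399640) (l 16270632)) (b (a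 (l 16212872) (l 16039280)) (b (l 16065336) (a (l 16047840) (l 15862432))))))))), by decide +kernel⟩

theorem c_pp_023 : CertB 0 536870912 0 1230186008 780900216 37827925 3 eng mog cd1q0 cd5q3 pd2 false true true .up 0 2 3
    ndB1q0 ndB5q3 pcB2 Cut.none Ext.none :=
  certB2 (fam := false) (s1 := true) (s2 := true) (a := 0) (b := 2) (c := 3) (cn := .up) (n1 := ndB1q0) (n2 := ndB5q3) (pc := pcB2) (cut := Cut.none) (xt := Ext.none) (P1 := 0) (W1 := 536870912) (P2 := 0) (W2 := 1230186008) (P3 := 780900216) (W3 := 37827925) (N0 := 3) (En := eng) (mo := mog) (C1 := cd1q0) (C2 := cd5q3) (C3 := pd2)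
    rfl (fun _ => rfl) k0_pp_023

noncomputable def f_pp_033 : ℕ → ℕ → ℕ → ℕ → Bool := onCell 1610612736 536870912 0 1230186008 780900216 37827925
    (rowB 3 eng mog cd1q0 cd5q3 pd3 2 false true true .pnn 0 3 3 (qsf 0 536870912 0 1230186008 3) ndB1q0 ndB5q3 pcB3 Cut.none Ext.none)

def k0_pp_033 : ∃ t, chk3 f_pp_033 t 1 1 1 = true :=
  ⟨(b (b (a (a (a (b (l 16555312) (l 16621928)) (l 16690616)) (a (l 16482424) (l 16397208))) (a (a (l 16302944) (b (l 4) (l 4))) (l 4))) (a (a (a (b (l 16649704) (l 16604344)) (b (l 16562152) (l 16521968))) (a (b (l 16470728) (l 16417088)) (b (l 16378688) (l 16306280)))) (b (a (a (a (l 16304592) (l 16255240)) (l 16245808)) (a (a (l 16106904) (l 4)) (l 4))) (a (a (a (l 16225264) (l 16176704)) (b (l 16366192) (l 16082168))) (a (a (l 16048280) (l 577168728087)) (a (l 577705479287) (l 1))))))) (b (a (a (b (a (l 16499496) (l 16411184)) (a (l 16317936) (l 16199624))) (a (b (l 16295040) (l 16108552)) (b (a (l 16205544) (l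 16149216)) (b (l 16032328) (l 15904984))))) (b (a (a (a (l 16094744) (l 16021496)) (b (a (l 16034920) (l 15988880)) (l 15921472))) (a (a (b (l 15947656) (l 1)) (l 1)) (l 1))) (a (a (b (l 15918904) (l 15786944)) (b (l 15805192) (l 1))) (l 1)))) (a (b (a (b (l 16073456) (a (l 16010928) (l 15853696))) (b (a (l 15860704) (l 15726352)) (a (l 15695592) (l 1)))) (a (b (a (l 15870752) (l 15697008)) (a (l 112774753015) (b (l 15573000) (l 1)))) (b (a (l 15522496) (l 1)) (l 1)))) (l 1)))), by decide +kernel⟩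

theorem c_pp_033 : CertB 0 536870912 0 1230186008 780900216 37827925 3 eng mog cd1q0 cd5q3 pd3 false true true .pnn 0 3 3
    ndB1q0 ndB5q3 pcB3 Cut.none Ext.none :=
  certB2 (fam := false) (s1 := true) (s2 := true) (a := 0) (b := 3) (c := 3) (cn := .pnn) (n1 := ndB1q0) (n2 := ndB5q3) (pc := pcB3) (cut := Cut.none) (xt := Ext.none) (P1 := 0) (W1 := 536870912) (P2 := 0) (W2 := 1230186008) (P3 := 780900216) (W3 := 37827925) (N0 := 3) (En := eng) (mo := mog) (C1 := cd1q0) (C2 := cd5q3) (C3 := pd3)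
    rfl (fun _ => rfl) k0_pp_033

noncomputable def f_pp_101 : ℕ → ℕ → ℕ → ℕ → Bool := onCell 536870912 536870912 0 536870912 780900216 37827925
    (rowB 3 eng mog cd1q1 cd5q1 pd0 1 false true true .npn 1 0 1 (qsf 536870912 536870912 536870912 536870912 0) ndB1q1 ndB5q1 pcB0 Cut.none Ext.none)

def k0_pp_101 : ∃ t, chk3 f_pp_101 t 1 1 1 = true :=
  ⟨(l 3), by decide +kernel⟩

theorem c_pp_101 : CertB 536870912 536870912 536870912 536870912 780900216 37827925 3 eng mog cd1q1 cd5q1 pd0 false true true .npn 1 0 1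
    ndB1q1 ndB5q1 pcB0 Cut.none Ext.none :=
  certB1 (fam := false) (s1 := true) (s2 := true) (a := 1) (b := 0) (c := 1) (cn := .npn) (n1 := ndB1q1) (n2 := ndB5q1) (pc := pcB0) (cut := Cut.none) (xt := Ext.none) (P1 := 536870912) (W1 := 536870912) (P2 := 536870912) (W2 := 536870912) (P3 := 780900216) (W3 := 37827925) (N0 := 3) (En := eng) (mo := mog) (C1 := cd1q1) (C2 := cd5q1) (C3 := pd0)
    rfl (fun _ => rfl) k0_pp_101

noncomputable def f_pp_102 : ℕ → ℕ → ℕ → ℕ → Bool := onCell 536870912 536870912 1073741824 536870912 780900216 37827925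
    (rowB 3 eng mog cd1q1 cd5q2 pd0 0 false true true .npp 1 0 2 (qsf 536870912 536870912 1073741824 536870912 0) ndB1q1 ndB5q2 pcB0 Cut.none Ext.none)

def k0_pp_102 : ∃ t, chk3 f_pp_102 t 1 1 1 = true :=
  ⟨(l 3), by decide +kernel⟩

theorem c_pp_102 : CertB 536870912 536870912 1073741824 536870912 780900216 37827925 3 eng mog cd1q1 cd5q2 pd0 false true true .npp 1 0 2
    ndB1q1 ndB5q2 pcB0 Cut.none Ext.none :=
  certB0 (fam := false) (s1 := true) (s2 := true) (a := 1) (b := 0) (c := 2) (cn := .npp) (n1 := ndB1q1) (n2 := ndB5q2) (pc := pcB0) (cut := Cut.none) (xt := Ext.none) (P1 := 536870912) (W1 := 536870912) (P2 := 1073741824) (W2 := 536870912) (P3 := 780900216) (W3 := 37827925) (N0 := 3) (En := eng) (mo := mog) (C1 := cd1q1) (C2 := cd5q2) (C3 := pd0)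
    rfl k0_pp_102

noncomputable def f_pp_112 : ℕ → ℕ → ℕ → ℕ → Bool := onCell 536870912 536870912 1073741824 536870912 780900216 37827925
    (rowB 3 eng mog cd1q1 cd5q2 pd1 0 false true true .dn 1 1 2 (qsf 536870912 536870912 1073741824 536870912 1) ndB1q1 ndB5q2 pcB1 Cut.none Ext.none)

def k0_pp_112 : ∃ t, chk3 f_pp_112 t 1 1 1 = true :=
  ⟨(l 3), by decide +kernel⟩

theorem c_pp_112 : CertB 536870912 536870912 1073741824 536870912 780900216 37827925 3 eng mog cd1q1 cd5q2 pd1 false true true .dn 1 1 2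
    ndB1q1 ndB5q2 pcB1 Cut.none Ext.none :=
  certB0 (fam := false) (s1 := true) (s2 := true) (a := 1) (b := 1) (c := 2) (cn := .dn) (n1 := ndB1q1) (n2 := ndB5q2) (pc := pcB1) (cut := Cut.none) (xt := Ext.none) (P1 := 536870912) (W1 := 536870912) (P2 := 1073741824) (W2 := 536870912) (P3 := 780900216) (W3 := 37827925) (N0 := 3) (En := eng) (mo := mog) (C1 := cd1q1) (C2 := cd5q2) (C3 := pd1)
    rfl k0_pp_112

noncomputable def f_pp_113 : ℕ → ℕ → ℕ → ℕ → Bool := onCell 536870912 536870912 0 1230186008 780900216 37827925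
    (rowB 3 eng mog cd1q1 cd5q3 pd1 2 false true true .nn 1 1 3 (qsf 536870912 536870912 0 1230186008 1) ndB1q1 ndB5q3 pcB1 Cut.none Ext.none)

def k0_pp_113 : ∃ t, chk3 f_pp_113 t 1 1 1 = true :=
  ⟨(b (a (l 2) (a (l 2) (b (a (l 2) (a (l 2) (a (b (l 2) (l 318531803527)) (b (l 16769560) (l 280950923431))))) (l 3)))) (a (b (l 3) (a (b (l 2) (l 3)) (l 3))) (b (l 3) (l 3)))), by decide +kernel⟩

theorem c_pp_113 : CertB 536870912 536870912 0 1230186008 780900216 37827925 3 eng mog cd1q1 cd5q3 pd1 false true true .nn 1 1 3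
    ndB1q1 ndB5q3 pcB1 Cut.none Ext.none :=
  certB2 (fam := false) (s1 := true) (s2 := true) (a := 1) (b := 1) (c := 3) (cn := .nn) (n1 := ndB1q1) (n2 := ndB5q3) (pc := pcB1) (cut := Cut.none) (xt := Ext.none) (P1 := 536870912) (W1 := 536870912) (P2 := 0) (W2 := 1230186008) (P3 := 780900216) (W3 := 37827925) (N0 := 3) (En := eng) (mo := mog) (C1 := cd1q1) (C2 := cd5q3) (C3 := pd1)
    rfl (fun _ => rfl) k0_pp_113

noncomputable def f_pp_123 : ℕ → ℕ → ℕ → ℕ → Bool := onCell 1073741824 536870912 0 1230186008 780900216 37827925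
    (rowB 3 eng mog cd1q1 cd5q3 pd2 2 false true true .npn 1 2 3 (qsf 536870912 536870912 0 1230186008 2) ndB1q1 ndB5q3 pcB2 Cut.none Ext.none)

def k0_pp_123 : ∃ t, chk3 f_pp_123 t 1 1 1 = true :=
  ⟨(a (a (b (a (b (b (b (l 16652816) (l 16686032)) (a (b (l 16754536) (l 16789376)) (l 16734728))) (b (a (b (l 461339637847) (l 3)) (b (l 16786568) (l 349133518647))) (a (l 3) (a (l 3) (l 400673251367))))) (b (b (l 16783608) (a (l 16698424) (l 16667760))) (a (b (b (l 16773432) (a (l 16770760) (l 16768280))) (a (l 371145669607) (b (l 16742488) (l 16679672)))) (b (l 16760688) (b (a (l 16737816) (l 16745896)) (a (l 16725872) (l 16726408))))))) (b (a (l 3) (a (l 3) (b (a (l 417316519399) (l 318532296919)) (l 3)))) (l 3))) (b (b (a (a (b (l 16614008) (a (l 16658120) (l 16654256))) (l 16615840)) (l 16615400)) (a (b (a (a (l 16734008) (l 16715904)) (l 16703144)) (a (a (l 16746320) (l 16781152)) (l 16756896))) (b (l 16684296) (l 16731336)))) (b (a (a (a (b (l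 16822912) (b (l 16661976) (l 454360252423))) (b (a (l 16719944) (l 16766960)) (a (l 16732232) (a (l 16714864) (a (l 16716440) (l 16738272)))))) (b (l 16744664) (l 16729600))) (b (l 16769352) (l 16891400))) (a (a (a (l 3) (b (a (b (l 16708224) (l 3)) (a (a (l 811916652183) (l 16731888)) (a (a (l 16712072) (l 16816984)) (l 102039135991)))) (l 1))) (b (b (l 16728672) (l 16716152)) (l 1))) (b (l 121903671799) (l 1)))))) (b (b (a (b (l 16579792) (l 16639512)) (b (l 16586088) (l 16656592))) (a (b (l 16654528) (l 16767440)) (b (l 16650304) (l 16655784)))) (b (a (b (a (l 16728480) (l 16696320)) (a (l 16746128) (l 16715648))) (b (l 16671672) (l 1))) (l 1)))), by decide +kernel⟩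

theorem c_pp_123 : CertB 536870912 536870912 0 1230186008 780900216 37827925 3 eng mog cd1q1 cd5q3 pd2 false true true .npn 1 2 3
    ndB1q1 ndB5q3 pcB2 Cut.none Ext.none :=
  certB2 (fam := false) (s1 := true) (s2 := true) (a := 1) (b := 2) (c := 3) (cn := .npn) (n1 := ndB1q1) (n2 := ndB5q3) (pc := pcB2) (cut := Cut.none) (xt := Ext.none) (P1 := 536870912) (W1 := 536870912) (P2 := 0) (W2 := 1230186008) (P3 := 780900216) (W3 := 37827925) (N0 := 3) (En := eng) (mo := mog) (C1 := cd1q1) (C2 := cd5q3) (C3 := pd2)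
    rfl (fun _ => rfl) k0_pp_123

noncomputable def f_pp_133 : ℕ → ℕ → ℕ → ℕ → Bool := onCell 1610612736 536870912 0 1230186008 780900216 37827925
    (rowB 3 eng mog cd1q1 cd5q3 pd3 2 false true true .dn 1 3 3 (qsf 536870912 536870912 0 1230186008 3) ndB1q1 ndB5q3 pcB3 Cut.none Ext.none)

def k0_pp_133 : ∃ t, chk3 f_pp_133 t 1 1 1 = true :=
  ⟨(b (b (a (a (a (l 2800889363255) (l 1)) (l 1)) (l 1)) (l 1)) (l 1)), by decide +kernel⟩

theorem c_pp_133 : CertB 536870912 536870912 0 1230186008 780900216 37827925 3 eng mog cd1q1 cd5q3 pd3 false true true .dn 1 3 3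
    ndB1q1 ndB5q3 pcB3 Cut.none Ext.none :=
  certB2 (fam := false) (s1 := true) (s2 := true) (a := 1) (b := 3) (c := 3) (cn := .dn) (n1 := ndB1q1) (n2 := ndB5q3) (pc := pcB3) (cut := Cut.none) (xt := Ext.none) (P1 := 536870912) (W1 := 536870912) (P2 := 0) (W2 := 1230186008) (P3 := 780900216) (W3 := 37827925) (N0 := 3) (En := eng) (mo := mog) (C1 := cd1q1) (C2 := cd5q3) (C3 := pd3)
    rfl (fun _ => rfl) k0_pp_133

noncomputable def f_pp_202_a : ℕ → ℕ → ℕ → ℕ → Bool := onCell 0 536870912 1073741824 536870912 780900216 37827925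
    (rowB 3 eng mog cd1q2a cd5q2 pd0 0 false true true .pp 2 0 2 (qsf 0 536870912 1073741824 536870912 0) ndB1q2a ndB5q2 pcB0 Cut.none Ext.none)

def k0_pp_202_a : ∃ t, chk3 f_pp_202_a t 1 1 1 = true :=
  ⟨(l 5), by decide +kernel⟩

theorem c_pp_202_a : CertB 0 536870912 1073741824 536870912 780900216 37827925 3 eng mog cd1q2a cd5q2 pd0 false true true .pp 2 0 2
    ndB1q2a ndB5q2 pcB0 Cut.none Ext.none :=
  certB0 (fam := false) (s1 := true) (s2 := true) (a := 2) (b := 0) (c := 2) (cn := .pp) (n1 := ndB1q2a) (n2 := ndB5q2) (pc := pcB0) (cut := Cut.none) (xt := Ext.none) (P1 := 0) (W1 := 536870912) (P2 := 1073741824) (W2 := 536870912) (P3 := 780900216) (W3 := 37827925) (N0 := 3) (En := eng) (mo := mog) (C1 := cd1q2a) (C2 := cd5q2) (C3 := pd0)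
    rfl k0_pp_202_a

noncomputable def f_pp_202_b : ℕ → ℕ → ℕ → ℕ → Bool := onCell 1239849684 370763052 1073741824 536870912 780900216 37827925
    (rowB 3 eng mog cd1q2b cd5q2 pd0 0 false true true .pp 2 0 2 (qsf 1239849684 370763052 1073741824 536870912 0) ndB1q2b ndB5q2 pcB0 Cut.none Ext.none)

def k0_pp_202_b : ∃ t, chk3 f_pp_202_b t 1 1 1 = true :=
  ⟨(l 5), by decide +kernel⟩

theorem c_pp_202_b : CertB 1239849684 370763052 1073741824 536870912 780900216 37827925 3 eng mog cd1q2b cd5q2 pd0 false true true .pp 2 0 2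
    ndB1q2b ndB5q2 pcB0 Cut.none Ext.none :=
  certB0 (fam := false) (s1 := true) (s2 := true) (a := 2) (b := 0) (c := 2) (cn := .pp) (n1 := ndB1q2b) (n2 := ndB5q2) (pc := pcB0) (cut := Cut.none) (xt := Ext.none) (P1 := 1239849684) (W1 := 370763052) (P2 := 1073741824) (W2 := 536870912) (P3 := 780900216) (W3 := 37827925) (N0 := 3) (En := eng) (mo := mog) (C1 := cd1q2b) (C2 := cd5q2) (C3 := pd0)
    rfl k0_pp_202_b

noncomputable def f_pp_203_a : ℕ → ℕ → ℕ → ℕ → Bool := onCell 0 536870912 0 1230186008 780900216 37827925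
    (rowB 3 eng mog cd1q2a cd5q3 pd0 0 false true true .up 2 0 3 (qsf 0 536870912 0 1230186008 0) ndB1q2a ndB5q3 pcB0 Cut.none Ext.none)

def k0_pp_203_a : ∃ t, chk3 f_pp_203_a t 1 1 1 = true :=
  ⟨(b (l 2) (a (l 5) (l 3))), by decide +kernel⟩

theorem c_pp_203_a : CertB 0 536870912 0 1230186008 780900216 37827925 3 eng mog cd1q2a cd5q3 pd0 false true true .up 2 0 3
    ndB1q2a ndB5q3 pcB0 Cut.none Ext.none :=
  certB0 (fam := false) (s1 := true) (s2 := true) (a := 2) (b := 0) (c := 3) (cn := .up) (n1 := ndB1q2a) (n2 := ndB5q3) (pc := pcB0) (cut := Cut.none) (xt := Ext.none) (P1 := 0) (W1 := 536870912) (P2 := 0) (W2 := 1230186008) (P3 := 780900216) (W3 := 37827925) (N0 := 3) (En := eng) (mo := mog) (C1 := cd1q2a) (C2 := cd5q3) (C3 := pd0)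
    rfl k0_pp_203_a

noncomputable def f_pp_203_b : ℕ → ℕ → ℕ → ℕ → Bool := onCell 1239849684 370763052 0 1230186008 780900216 37827925
    (rowB 3 eng mog cd1q2b cd5q3 pd0 0 false true true .up 2 0 3 (qsf 1239849684 370763052 0 1230186008 0) ndB1q2b ndB5q3 pcB0 Cut.none Ext.none)

def k0_pp_203_b : ∃ t, chk3 f_pp_203_b t 1 1 1 = true :=
  ⟨(b (l 3) (l 5)), by decide +kernel⟩

theorem c_pp_203_b : CertB 1239849684 370763052 0 1230186008 780900216 37827925 3 eng mog cd1q2b cd5q3 pd0 false true true .up 2 0 3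
    ndB1q2b ndB5q3 pcB0 Cut.none Ext.none :=
  certB0 (fam := false) (s1 := true) (s2 := true) (a := 2) (b := 0) (c := 3) (cn := .up) (n1 := ndB1q2b) (n2 := ndB5q3) (pc := pcB0) (cut := Cut.none) (xt := Ext.none) (P1 := 1239849684) (W1 := 370763052) (P2 := 0) (W2 := 1230186008) (P3 := 780900216) (W3 := 37827925) (N0 := 3) (En := eng) (mo := mog) (C1 := cd1q2b) (C2 := cd5q3) (C3 := pd0)
    rfl k0_pp_203_b

noncomputable def cut_pp_213_a : Cut := Cut.of [[⟨0, 1, 0, 67108864⟩, ⟨1, 1, 0, 67108864⟩, ⟨2, 2, 0, 16777216⟩]]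

noncomputable def f_pp_213_a : ℕ → ℕ → ℕ → ℕ → Bool := onCell 0 536870912 0 1230186008 780900216 37827925
    (rowB 3 eng mog cd1q2a cd5q3 pd1 0 false true true .pnn 2 1 3 (qsf 0 536870912 0 1230186008 1) ndB1q2a ndB5q3 pcB1 cut_pp_213_a Ext.none)

def k0_pp_213_a : ∃ t, chk3 f_pp_213_a t 1 1 1 = true :=
  ⟨(a (b (l 3) (l 5)) (b (b (a (l 3) (b (a (l 3) (l 6)) (l 3))) (l 3)) (l 3))), by decide +kernel⟩

theorem c_pp_213_a : CertB 0 536870912 0 1230186008 780900216 37827925 3 eng mog cd1q2a cd5q3 pd1 false true true .pnn 2 1 3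
    ndB1q2a ndB5q3 pcB1 cut_pp_213_a Ext.none :=
  certB0 (fam := false) (s1 := true) (s2 := true) (a := 2) (b := 1) (c := 3) (cn := .pnn) (n1 := ndB1q2a) (n2 := ndB5q3) (pc := pcB1) (cut := cut_pp_213_a) (xt := Ext.none) (P1 := 0) (W1 := 536870912) (P2 := 0) (W2 := 1230186008) (P3 := 780900216) (W3 := 37827925) (N0 := 3) (En := eng) (mo := mog) (C1 := cd1q2a) (C2 := cd5q3) (C3 := pd1)
    rfl k0_pp_213_a

noncomputable def cut_pp_213_b : Cut := Cut.of [[⟨0, 1, 0, 67108864⟩, ⟨1, 1, 0, 67108864⟩, ⟨2, 2, 0, 16777216⟩]]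

noncomputable def f_pp_213_b : ℕ → ℕ → ℕ → ℕ → Bool := onCell 1239849684 370763052 0 1230186008 780900216 37827925
    (rowB 3 eng mog cd1q2b cd5q3 pd1 0 false true true .pnn 2 1 3 (qsf 1239849684 370763052 0 1230186008 1) ndB1q2b ndB5q3 pcB1 cut_pp_213_b Ext.none)

def k0_pp_213_b : ∃ t, chk3 f_pp_213_b t 1 1 1 = true :=
  ⟨(b (l 3) (l 5)), by decide +kernel⟩

theorem c_pp_213_b : CertB 1239849684 370763052 0 1230186008 780900216 37827925 3 eng mog cd1q2b cd5q3 pd1 false true true .pnn 2 1 3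
    ndB1q2b ndB5q3 pcB1 cut_pp_213_b Ext.none :=
  certB0 (fam := false) (s1 := true) (s2 := true) (a := 2) (b := 1) (c := 3) (cn := .pnn) (n1 := ndB1q2b) (n2 := ndB5q3) (pc := pcB1) (cut := cut_pp_213_b) (xt := Ext.none) (P1 := 1239849684) (W1 := 370763052) (P2 := 0) (W2 := 1230186008) (P3 := 780900216) (W3 := 37827925) (N0 := 3) (En := eng) (mo := mog) (C1 := cd1q2b) (C2 := cd5q3) (C3 := pd1)
    rfl k0_pp_213_b

noncomputable def f_pp_303 : ℕ → ℕ → ℕ → ℕ → Bool := onCell 1610612736 536870912 0 1230186008 780900216 37827925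
    (rowB 3 eng mog cd1q3 cd5q3 pd0 0 false true true .npn 3 0 3 (qsf 1610612736 536870912 0 1230186008 0) ndB1q3 ndB5q3 pcB0 Cut.none Ext.none)

def k0_pp_303 : ∃ t, chk3 f_pp_303 t 1 1 1 = true :=
  ⟨(b (l 3) (l 5)), by decide +kernel⟩

theorem c_pp_303 : CertB 1610612736 536870912 0 1230186008 780900216 37827925 3 eng mog cd1q3 cd5q3 pd0 false true true .npn 3 0 3
    ndB1q3 ndB5q3 pcB0 Cut.none Ext.none :=
  certB0 (fam := false) (s1 := true) (s2 := true) (a := 3) (b := 0) (c := 3) (cn := .npn) (n1 := ndB1q3) (n2 := ndB5q3) (pc := pcB0) (cut := Cut.none) (xt := Ext.none) (P1 := 1610612736) (W1 := 536870912) (P2 := 0) (W2 := 1230186008) (P3 := 780900216) (W3 := 37827925) (N0 := 3) (En := eng) (mo := mog) (C1 := cd1q3) (C2 := cd5q3) (C3 := pd0)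
    rfl k0_pp_303

noncomputable def f_pp_313 : ℕ → ℕ → ℕ → ℕ → Bool := onCell 1610612736 536870912 0 1230186008 780900216 37827925
    (rowB 3 eng mog cd1q3 cd5q3 pd1 0 false true true .dn 3 1 3 (qsf 1610612736 536870912 0 1230186008 1) ndB1q3 ndB5q3 pcB1 Cut.none Ext.none)

def k0_pp_313 : ∃ t, chk3 f_pp_313 t 1 1 1 = true :=
  ⟨(b (l 3) (l 1)), by decide +kernel⟩

theorem c_pp_313 : CertB 1610612736 536870912 0 1230186008 780900216 37827925 3 eng mog cd1q3 cd5q3 pd1 false true true .dn 3 1 3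
    ndB1q3 ndB5q3 pcB1 Cut.none Ext.none :=
  certB0 (fam := false) (s1 := true) (s2 := true) (a := 3) (b := 1) (c := 3) (cn := .dn) (n1 := ndB1q3) (n2 := ndB5q3) (pc := pcB1) (cut := Cut.none) (xt := Ext.none) (P1 := 1610612736) (W1 := 536870912) (P2 := 0) (W2 := 1230186008) (P3 := 780900216) (W3 := 37827925) (N0 := 3) (En := eng) (mo := mog) (C1 := cd1q3) (C2 := cd5q3) (C3 := pd1)
    rfl k0_pp_313

noncomputable def f_pm_001 : ℕ → ℕ → ℕ → ℕ → Bool := onCell 0 536870912 536870912 536870912 780900216 37827925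
    (rowB 3 eng mog cd1q0 cd5q1 pd0 0 false true false .up 0 0 1 (qsf 0 536870912 536870912 536870912 0) ndB1q0 ndB5q1 pcB0 Cut.none Ext.none)

def k0_pm_001 : ∃ t, chk3 f_pm_001 t 1 1 1 = true :=
  ⟨(l 4), by decide +kernel⟩

theorem c_pm_001 : CertB 0 536870912 536870912 536870912 780900216 37827925 3 eng mog cd1q0 cd5q1 pd0 false true false .up 0 0 1
    ndB1q0 ndB5q1 pcB0 Cut.none Ext.none :=
  certB0 (fam := false) (s1 := true) (s2 := false) (a := 0) (b := 0) (c := 1) (cn := .up) (n1 := ndB1q0) (n2 := ndB5q1) (pc := pcB0) (cut := Cut.none) (xt := Ext.none) (P1 := 0) (W1 := 536870912) (P2 := 536870912) (W2 := 536870912) (P3 := 780900216) (W3 := 37827925) (N0 := 3) (En := eng) (mo := mog) (C1 := cd1q0) (C2 := cd5q1) (C3 := pd0)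
    rfl k0_pm_001

noncomputable def f_pm_011 : ℕ → ℕ → ℕ → ℕ → Bool := onCell 0 536870912 536870912 536870912 780900216 37827925
    (rowB 3 eng mog cd1q0 cd5q1 pd1 0 false true false .pnn 0 1 1 (qsf 0 536870912 536870912 536870912 1) ndB1q0 ndB5q1 pcB1 Cut.none Ext.none)

def k0_pm_011 : ∃ t, chk3 f_pm_011 t 1 1 1 = true :=
  ⟨(l 4), by decide +kernel⟩

theorem c_pm_011 : CertB 0 536870912 536870912 536870912 780900216 37827925 3 eng mog cd1q0 cd5q1 pd1 false true false .pnn 0 1 1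
    ndB1q0 ndB5q1 pcB1 Cut.none Ext.none :=
  certB0 (fam := false) (s1 := true) (s2 := false) (a := 0) (b := 1) (c := 1) (cn := .pnn) (n1 := ndB1q0) (n2 := ndB5q1) (pc := pcB1) (cut := Cut.none) (xt := Ext.none) (P1 := 0) (W1 := 536870912) (P2 := 536870912) (W2 := 536870912) (P3 := 780900216) (W3 := 37827925) (N0 := 3) (En := eng) (mo := mog) (C1 := cd1q0) (C2 := cd5q1) (C3 := pd1)
    rfl k0_pm_011

noncomputable def f_pm_012 : ℕ → ℕ → ℕ → ℕ → Bool := onCell 0 536870912 1073741824 536870912 780900216 37827925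
    (rowB 3 eng mog cd1q0 cd5q2 pd1 0 false true false .pnp 0 1 2 (qsf 0 536870912 1073741824 536870912 1) ndB1q0 ndB5q2 pcB1 Cut.none Ext.none)

def k0_pm_012 : ∃ t, chk3 f_pm_012 t 1 1 1 = true :=
  ⟨(l 4), by decide +kernel⟩

theorem c_pm_012 : CertB 0 536870912 1073741824 536870912 780900216 37827925 3 eng mog cd1q0 cd5q2 pd1 false true false .pnp 0 1 2
    ndB1q0 ndB5q2 pcB1 Cut.none Ext.none :=
  certB0 (fam := false) (s1 := true) (s2 := false) (a := 0) (b := 1) (c := 2) (cn := .pnp) (n1 := ndB1q0) (n2 := ndB5q2) (pc := pcB1) (cut := Cut.none) (xt := Ext.none) (P1 := 0) (W1 := 536870912) (P2 := 1073741824) (W2 := 536870912) (P3 := 780900216) (W3 := 37827925) (N0 := 3) (En := eng) (mo := mog) (C1 := cd1q0) (C2 := cd5q2) (C3 := pd1)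
    rfl k0_pm_012

noncomputable def f_pm_022 : ℕ → ℕ → ℕ → ℕ → Bool := onCell 0 536870912 1073741824 536870912 780900216 37827925
    (rowB 3 eng mog cd1q0 cd5q2 pd2 0 false true false .pp 0 2 2 (qsf 0 536870912 1073741824 536870912 2) ndB1q0 ndB5q2 pcB2 Cut.none Ext.none)

def k0_pm_022 : ∃ t, chk3 f_pm_022 t 1 1 1 = true :=
  ⟨(l 4), by decide +kernel⟩

theorem c_pm_022 : CertB 0 536870912 1073741824 536870912 780900216 37827925 3 eng mog cd1q0 cd5q2 pd2 false true false .pp 0 2 2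
    ndB1q0 ndB5q2 pcB2 Cut.none Ext.none :=
  certB0 (fam := false) (s1 := true) (s2 := false) (a := 0) (b := 2) (c := 2) (cn := .pp) (n1 := ndB1q0) (n2 := ndB5q2) (pc := pcB2) (cut := Cut.none) (xt := Ext.none) (P1 := 0) (W1 := 536870912) (P2 := 1073741824) (W2 := 536870912) (P3 := 780900216) (W3 := 37827925) (N0 := 3) (En := eng) (mo := mog) (C1 := cd1q0) (C2 := cd5q2) (C3 := pd2)
    rfl k0_pm_022

noncomputable def f_pm_023 : ℕ → ℕ → ℕ → ℕ → Bool := onCell 0 536870912 0 1230186008 780900216 37827925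
    (rowB 3 eng mog cd1q0 cd5q3 pd2 0 false true false .up 0 2 3 (qsf 0 536870912 0 1230186008 2) ndB1q0 ndB5q3 pcB2 Cut.none Ext.none)

def k0_pm_023 : ∃ t, chk3 f_pm_023 t 1 1 1 = true :=
  ⟨(b (b (a (l 2) (a (l 2) (a (l 2) (l 16515744)))) (l 4)) (l 4)), by decide +kernel⟩

theorem c_pm_023 : CertB 0 536870912 0 1230186008 780900216 37827925 3 eng mog cd1q0 cd5q3 pd2 false true false .up 0 2 3
    ndB1q0 ndB5q3 pcB2 Cut.none Ext.none :=
  certB0 (fam := false) (s1 := true) (s2 := false) (a := 0) (b := 2) (c := 3) (cn := .up) (n1 := ndB1q0) (n2 := ndB5q3) (pc := pcB2) (cut := Cut.none) (xt := Ext.none) (P1 := 0) (W1 := 536870912) (P2 := 0) (W2 := 1230186008) (P3 := 780900216) (W3 := 37827925) (N0 := 3) (En := eng) (mo := mog) (C1 := cd1q0) (C2 := cd5q3) (C3 := pd2)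
    rfl k0_pm_023

noncomputable def f_pm_033 : ℕ → ℕ → ℕ → ℕ → Bool := onCell 0 536870912 0 1230186008 780900216 37827925
    (rowB 3 eng mog cd1q0 cd5q3 pd3 0 false true false .pnn 0 3 3 (qsf 0 536870912 0 1230186008 3) ndB1q0 ndB5q3 pcB3 Cut.none Ext.none)

def k0_pm_033 : ∃ t, chk3 f_pm_033 t 1 1 1 = true :=
  ⟨(b (b (a (l 4) (a (a (l 4) (l 4)) (a (l 16501000) (l 16580640)))) (l 4)) (l 4)), by decide +kernel⟩

theorem c_pm_033 : CertB 0 536870912 0 1230186008 780900216 37827925 3 eng mog cd1q0 cd5q3 pd3 false true false .pnn 0 3 3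
    ndB1q0 ndB5q3 pcB3 Cut.none Ext.none :=
  certB0 (fam := false) (s1 := true) (s2 := false) (a := 0) (b := 3) (c := 3) (cn := .pnn) (n1 := ndB1q0) (n2 := ndB5q3) (pc := pcB3) (cut := Cut.none) (xt := Ext.none) (P1 := 0) (W1 := 536870912) (P2 := 0) (W2 := 1230186008) (P3 := 780900216) (W3 := 37827925) (N0 := 3) (En := eng) (mo := mog) (C1 := cd1q0) (C2 := cd5q3) (C3 := pd3)
    rfl k0_pm_033

noncomputable def f_pm_101 : ℕ → ℕ → ℕ → ℕ → Bool := onCell 536870912 536870912 536870912 536870912 780900216 37827925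
    (rowB 3 eng mog cd1q1 cd5q1 pd0 0 false true false .npn 1 0 1 (qsf 536870912 536870912 536870912 536870912 0) ndB1q1 ndB5q1 pcB0 Cut.none Ext.none)

def k0_pm_101 : ∃ t, chk3 f_pm_101 t 1 1 1 = true :=
  ⟨(l 4), by decide +kernel⟩

theorem c_pm_101 : CertB 536870912 536870912 536870912 536870912 780900216 37827925 3 eng mog cd1q1 cd5q1 pd0 false true false .npn 1 0 1
    ndB1q1 ndB5q1 pcB0 Cut.none Ext.none :=
  certB0 (fam := false) (s1 := true) (s2 := false) (a := 1) (b := 0) (c := 1) (cn := .npn) (n1 := ndB1q1) (n2 := ndB5q1) (pc := pcB0) (cut := Cut.none) (xt := Ext.none) (P1 := 536870912) (W1 := 536870912) (P2 := 536870912) (W2 := 536870912) (P3 := 780900216) (W3 := 37827925) (N0 := 3) (En := eng) (mo := mog) (C1 := cd1q1) (C2 := cd5q1) (C3 := pd0)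
    rfl k0_pm_101

noncomputable def f_pm_102 : ℕ → ℕ → ℕ → ℕ → Bool := onCell 536870912 536870912 1073741824 536870912 780900216 37827925
    (rowB 3 eng mog cd1q1 cd5q2 pd0 0 false true false .npp 1 0 2 (qsf 536870912 536870912 1073741824 536870912 0) ndB1q1 ndB5q2 pcB0 Cut.none Ext.none)

def k0_pm_102 : ∃ t, chk3 f_pm_102 t 1 1 1 = true :=
  ⟨(l 4), by decide +kernel⟩

theorem c_pm_102 : CertB 536870912 536870912 1073741824 536870912 780900216 37827925 3 eng mog cd1q1 cd5q2 pd0 false true false .npp 1 0 2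
    ndB1q1 ndB5q2 pcB0 Cut.none Ext.none :=
  certB0 (fam := false) (s1 := true) (s2 := false) (a := 1) (b := 0) (c := 2) (cn := .npp) (n1 := ndB1q1) (n2 := ndB5q2) (pc := pcB0) (cut := Cut.none) (xt := Ext.none) (P1 := 536870912) (W1 := 536870912) (P2 := 1073741824) (W2 := 536870912) (P3 := 780900216) (W3 := 37827925) (N0 := 3) (En := eng) (mo := mog) (C1 := cd1q1) (C2 := cd5q2) (C3 := pd0)
    rfl k0_pm_102

noncomputable def f_pm_112 : ℕ → ℕ → ℕ → ℕ → Bool := onCell 536870912 536870912 1073741824 536870912 780900216 37827925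
    (rowB 3 eng mog cd1q1 cd5q2 pd1 0 false true false .dn 1 1 2 (qsf 536870912 536870912 1073741824 536870912 1) ndB1q1 ndB5q2 pcB1 Cut.none Ext.none)

def k0_pm_112 : ∃ t, chk3 f_pm_112 t 1 1 1 = true :=
  ⟨(l 4), by decide +kernel⟩

theorem c_pm_112 : CertB 536870912 536870912 1073741824 536870912 780900216 37827925 3 eng mog cd1q1 cd5q2 pd1 false true false .dn 1 1 2
    ndB1q1 ndB5q2 pcB1 Cut.none Ext.none :=
  certB0 (fam := false) (s1 := true) (s2 := false) (a := 1) (b := 1) (c := 2) (cn := .dn) (n1 := ndB1q1) (n2 := ndB5q2) (pc := pcB1) (cut := Cut.none) (xt := Ext.none) (P1 := 536870912) (W1 := 536870912) (P2 := 1073741824) (W2 := 536870912) (P3 := 780900216) (W3 := 37827925) (N0 := 3) (En := eng) (mo := mog) (C1 := cd1q1) (C2 := cd5q2) (C3 := pd1)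
    rfl k0_pm_112

noncomputable def f_pm_113 : ℕ → ℕ → ℕ → ℕ → Bool := onCell 536870912 536870912 0 1230186008 780900216 37827925
    (rowB 3 eng mog cd1q1 cd5q3 pd1 0 false true false .nn 1 1 3 (qsf 536870912 536870912 0 1230186008 1) ndB1q1 ndB5q3 pcB1 Cut.none Ext.none)

def k0_pm_113 : ∃ t, chk3 f_pm_113 t 1 1 1 = true :=
  ⟨(b (a (l 2) (a (l 2) (b (a (l 2) (b (a (l 2) (l 16683608)) (l 16613344))) (b (a (l 16372256) (l 16550184)) (l 16389792))))) (b (a (l 4) (a (b (a (l 2) (l 16033528)) (l 4)) (b (a (l 16232112) (l 16426400)) (a (b (l 16228800) (l 16249704)) (b (l 16384888) (l 16411080)))))) (a (l 4) (b (a (l 4) (b (l 16357784) (l 16364168))) (l 4))))), by decide +kernel⟩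

theorem c_pm_113 : CertB 536870912 536870912 0 1230186008 780900216 37827925 3 eng mog cd1q1 cd5q3 pd1 false true false .nn 1 1 3
    ndB1q1 ndB5q3 pcB1 Cut.none Ext.none :=
  certB0 (fam := false) (s1 := true) (s2 := false) (a := 1) (b := 1) (c := 3) (cn := .nn) (n1 := ndB1q1) (n2 := ndB5q3) (pc := pcB1) (cut := Cut.none) (xt := Ext.none) (P1 := 536870912) (W1 := 536870912) (P2 := 0) (W2 := 1230186008) (P3 := 780900216) (W3 := 37827925) (N0 := 3) (En := eng) (mo := mog) (C1 := cd1q1) (C2 := cd5q3) (C3 := pd1)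
    rfl k0_pm_113

noncomputable def f_pm_123 : ℕ → ℕ → ℕ → ℕ → Bool := onCell 1073741824 536870912 0 1230186008 780900216 37827925
    (rowB 3 eng mog cd1q1 cd5q3 pd2 2 false true false .npn 1 2 3 (qsf 536870912 536870912 0 1230186008 2) ndB1q1 ndB5q3 pcB2 Cut.none Ext.none)

def k0_pm_123 : ∃ t, chk3 f_pm_123 t 1 1 1 = true :=
  ⟨(b (a (a (b (b (a (l 16619144) (l 16563768)) (a (l 16556864) (l 16491760))) (b (a (l 16289768) (l 16379936)) (a (l 16272544) (l 16213032)))) (b (b (l 16518544) (a (l 16449072) (l 16442608))) (a (b (l 16330512) (l 16198344)) (b (l 16326752) (l 16229416))))) (a (b (b (l 16525112) (a (l 16445584) (l 16452592))) (a (b (l 16350656) (l 4)) (l 16475240))) (b (a (l 16518592) (l 16553832)) (a (l 16515768) (l 4))))) (a (b (a (b (a (l 16084824) (l 16081760)) (l 4)) (l 4)) (l 4)) (l 4))), by decide +kernel⟩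

theorem c_pm_123 : CertB 536870912 536870912 0 1230186008 780900216 37827925 3 eng mog cd1q1 cd5q3 pd2 false true false .npn 1 2 3
    ndB1q1 ndB5q3 pcB2 Cut.none Ext.none :=
  certB2 (fam := false) (s1 := true) (s2 := false) (a := 1) (b := 2) (c := 3) (cn := .npn) (n1 := ndB1q1) (n2 := ndB5q3) (pc := pcB2) (cut := Cut.none) (xt := Ext.none) (P1 := 536870912) (W1 := 536870912) (P2 := 0) (W2 := 1230186008) (P3 := 780900216) (W3 := 37827925) (N0 := 3) (En := eng) (mo := mog) (C1 := cd1q1) (C2 := cd5q3) (C3 := pd2)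
    rfl (fun _ => rfl) k0_pm_123

noncomputable def f_pm_133 : ℕ → ℕ → ℕ → ℕ → Bool := onCell 1610612736 536870912 0 1230186008 780900216 37827925
    (rowB 3 eng mog cd1q1 cd5q3 pd3 2 false true false .dn 1 3 3 (qsf 536870912 536870912 0 1230186008 3) ndB1q1 ndB5q3 pcB3 Cut.none Ext.none)

def k0_pm_133 : ∃ t, chk3 f_pm_133 t 1 1 1 = true :=
  ⟨(b (a (a (b (a (l 16602000) (l 1)) (l 1)) (l 1)) (l 1)) (l 1)), by decide +kernel⟩

theorem c_pm_133 : CertB 536870912 536870912 0 1230186008 780900216 37827925 3 eng mog cd1q1 cd5q3 pd3 false true false .dn 1 3 3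
    ndB1q1 ndB5q3 pcB3 Cut.none Ext.none :=
  certB2 (fam := false) (s1 := true) (s2 := false) (a := 1) (b := 3) (c := 3) (cn := .dn) (n1 := ndB1q1) (n2 := ndB5q3) (pc := pcB3) (cut := Cut.none) (xt := Ext.none) (P1 := 536870912) (W1 := 536870912) (P2 := 0) (W2 := 1230186008) (P3 := 780900216) (W3 := 37827925) (N0 := 3) (En := eng) (mo := mog) (C1 := cd1q1) (C2 := cd5q3) (C3 := pd3)
    rfl (fun _ => rfl) k0_pm_133

noncomputable def f_pm_202_a : ℕ → ℕ → ℕ → ℕ → Bool := onCell 0 536870912 0 536870912 780900216 37827925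
    (rowB 3 eng mog cd1q2a cd5q2 pd0 1 false true false .pp 2 0 2 (qsf 0 536870912 1073741824 536870912 0) ndB1q2a ndB5q2 pcB0 Cut.none Ext.none)

def k0_pm_202_a : ∃ t, chk3 f_pm_202_a t 1 1 1 = true :=
  ⟨(a (b (a (b (b (b (l 15860872) (l 15957336)) (b (a (l 16094456) (l 16000824)) (l 16381008))) (b (b (l 16197544) (l 16267352)) (b (l 16330632) (l 16392248)))) (b (b (b (l 15598672) (l 15703048)) (b (l 15806600) (l 15904840))) (b (b (l 15998160) (l 16088888)) (b (l 16411624) (l 16245664))))) (b (b (b (a (l 16443184) (l 16289624)) (a (l 16481256) (a (l 16400056) (l 16308216)))) (a (l 16525752) (b (a (l 16438072) (l 16355776)) (a (l 16465224) (l 16396648))))) (a (l 2) (b (a (l 2) (l 16431912)) (l 2))))) (b (b (a (b (a (b (l 15356072) (l 15448672)) (l 4)) (a (l 3454262007) (l 59288509991))) (l 4)) (a (b (a (l 15810656) (l 15675560)) (a (l 15995984) (l 15829688))) (b (l 4) (a (l 15675704) (l 4))))) (b (b (a (a (b (l 16118520) (l 16190872)) (l 16006264))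 (a (l 15856584) (l 4))) (a (a (b (l 16244496) (l 16297832)) (l 16153760)) (a (l 16018008) (l 15918848)))) (a (b (a (l 16362232) (b (l 16235640) (l 16288112))) (l 2)) (b (a (l 16381976) (l 16085168)) (a (l 16282960) (l 16231088))))))), by decide +kernel⟩

theorem c_pm_202_a : CertB 0 536870912 1073741824 536870912 780900216 37827925 3 eng mog cd1q2a cd5q2 pd0 false true false .pp 2 0 2
    ndB1q2a ndB5q2 pcB0 Cut.none Ext.none :=
  certB1 (fam := false) (s1 := true) (s2 := false) (a := 2) (b := 0) (c := 2) (cn := .pp) (n1 := ndB1q2a) (n2 := ndB5q2) (pc := pcB0) (cut := Cut.none) (xt := Ext.none) (P1 := 0) (W1 := 536870912) (P2 := 1073741824) (W2 := 536870912) (P3 := 780900216) (W3 := 37827925) (N0 := 3) (En := eng) (mo := mog) (C1 := cd1q2a) (C2 := cd5q2) (C3 := pd0)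
    rfl (fun _ => rfl) k0_pm_202_a

noncomputable def f_pm_202_b : ℕ → ℕ → ℕ → ℕ → Bool := onCell 0 536870912 1073741824 536870912 780900216 37827925
    (rowB 3 eng mog cd1q2b cd5q2 pd0 2 false true false .pp 2 0 2 (qsf 1239849684 370763052 1073741824 536870912 0) ndB1q2b ndB5q2 pcB0 Cut.none Ext.none)

def k0_pm_202_b : ∃ t, chk3 f_pm_202_b t 1 1 1 = true :=
  ⟨(a (b (a (b (l 1) (b (a (a (l 401611740871) (l 376915686583)) (l 1)) (a (a (l 16080808) (l 16322312)) (b (l 339335017559) (l 16132592))))) (l 1)) (a (b (a (b (a (l 16187776) (l 16212848)) (l 16248496)) (b (l 16235224) (l 16319280))) (b (l 16262016) (a (l 16013888) (l 16167408)))) (a (b (b (l 361347102647) (l 16358320)) (b (l 16406632) (l 16354336))) (b (b (l 1) (a (l 16404240) (l 16361952))) (b (a (l 16449544) (l 16462896)) (a (l 16453504) (l 16495920))))))) (b (l 1) (a (b (l 1) (a (a (b (l 16466976) (l 16523520)) (b (l 16460552) (l 16536288))) (b (l 1) (l 16521288)))) (l 1)))), by decide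 +kernel⟩

theorem c_pm_202_b : CertB 1239849684 370763052 1073741824 536870912 780900216 37827925 3 eng mog cd1q2b cd5q2 pd0 false true false .pp 2 0 2
    ndB1q2b ndB5q2 pcB0 Cut.none Ext.none :=
  certB2 (fam := false) (s1 := true) (s2 := false) (a := 2) (b := 0) (c := 2) (cn := .pp) (n1 := ndB1q2b) (n2 := ndB5q2) (pc := pcB0) (cut := Cut.none) (xt := Ext.none) (P1 := 1239849684) (W1 := 370763052) (P2 := 1073741824) (W2 := 536870912) (P3 := 780900216) (W3 := 37827925) (N0 := 3) (En := eng) (mo := mog) (C1 := cd1q2b) (C2 := cd5q2) (C3 := pd0)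
    rfl (fun _ => rfl) k0_pm_202_b

noncomputable def f_pm_203_a : ℕ → ℕ → ℕ → ℕ → Bool := onCell 0 536870912 0 1230186008 780900216 37827925
    (rowB 3 eng mog cd1q2a cd5q3 pd0 0 false true false .up 2 0 3 (qsf 0 536870912 0 1230186008 0) ndB1q2a ndB5q3 pcB0 Cut.none Ext.none)

def k0_pm_203_a : ∃ t, chk3 f_pm_203_a t 1 1 1 = true :=
  ⟨(b (l 2) (b (l 2) (b (a (b (l 2) (a (a (l 16692208) (l 16666032)) (l 16627728))) (l 2)) (a (b (a (b (l 16645928) (l 16617384)) (l 16548680)) (a (l 16560992) (b (l 16492512) (a (l 16483504) (l 16428520))))) (a (b (a (l 16486808) (l 16453672)) (a (l 16426856) (l 16342272))) (a (b (l 16456800) (b (l 16350456) (l 16275384))) (b (l 2) (b (l 16388752) (l 16298552))))))))), by decide +kernel⟩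

theorem c_pm_203_a : CertB 0 536870912 0 1230186008 780900216 37827925 3 eng mog cd1q2a cd5q3 pd0 false true false .up 2 0 3
    ndB1q2a ndB5q3 pcB0 Cut.none Ext.none :=
  certB0 (fam := false) (s1 := true) (s2 := false) (a := 2) (b := 0) (c := 3) (cn := .up) (n1 := ndB1q2a) (n2 := ndB5q3) (pc := pcB0) (cut := Cut.none) (xt := Ext.none) (P1 := 0) (W1 := 536870912) (P2 := 0) (W2 := 1230186008) (P3 := 780900216) (W3 := 37827925) (N0 := 3) (En := eng) (mo := mog) (C1 := cd1q2a) (C2 := cd5q3) (C3 := pd0)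
    rfl k0_pm_203_a

noncomputable def f_pm_203_b : ℕ → ℕ → ℕ → ℕ → Bool := onCell 0 536870912 0 1230186008 780900216 37827925
    (rowB 3 eng mog cd1q2b cd5q3 pd0 2 false true false .up 2 0 3 (qsf 1239849684 370763052 0 1230186008 0) ndB1q2b ndB5q3 pcB0 Cut.none Ext.none)

def k0_pm_203_b : ∃ t, chk3 f_pm_203_b t 1 1 1 = true :=
  ⟨(b (l 3) (b (b (l 3) (b (l 3) (a (l 3) (a (a (l 3) (b (l 3) (l 16491608))) (a (b (l 3) (l 16574592)) (a (l 16631216) (l 16666760))))))) (a (b (a (l 2) (a (b (l 16139280) (b (l 16103168) (l 16126280))) (b (l 16274184) (b (l 16263864) (l 16282656))))) (a (b (a (l 2) (l 15981400)) (a (l 15837096) (l 16056704))) (a (b (l 16140048) (l 16237720)) (b (l 16312336) (l 16406432))))) (a (b (a (b (l 124184634471) (b (l 16407800) (l 16433232))) (b (b (l 16492544) (l 16511744)) (b (l 16534376) (l 16561672)))) (b (a (a (l 16439864) (l 16509368)) (l 16595800)) (a (l 16393360) (l 16599064)))) (b (a (b (b (l 16591544) (l 16618424)) (b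 (l 16637496) (l 16655480))) (b (b (l 16678008) (l 16686960)) (l 16707272))) (b (a (l 16661792) (l 16645560)) (l 549789240999))))))), by decide +kernel⟩

theorem c_pm_203_b : CertB 1239849684 370763052 0 1230186008 780900216 37827925 3 eng mog cd1q2b cd5q3 pd0 false true false .up 2 0 3
    ndB1q2b ndB5q3 pcB0 Cut.none Ext.none :=
  certB2 (fam := false) (s1 := true) (s2 := false) (a := 2) (b := 0) (c := 3) (cn := .up) (n1 := ndB1q2b) (n2 := ndB5q3) (pc := pcB0) (cut := Cut.none) (xt := Ext.none) (P1 := 1239849684) (W1 := 370763052) (P2 := 0) (W2 := 1230186008) (P3 := 780900216) (W3 := 37827925) (N0 := 3) (En := eng) (mo := mog) (C1 := cd1q2b) (C2 := cd5q3) (C3 := pd0)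
    rfl (fun _ => rfl) k0_pm_203_b

noncomputable def cut_pm_213_a : Cut := Cut.of [[⟨0, 1, 0, 67108864⟩, ⟨1, 1, 0, 67108864⟩, ⟨2, 2, 0, 16777216⟩]]

noncomputable def f_pm_213_a : ℕ → ℕ → ℕ → ℕ → Bool := onCell 0 536870912 0 1230186008 780900216 37827925
    (rowB 3 eng mog cd1q2a cd5q3 pd1 0 false true false .pnn 2 1 3 (qsf 0 536870912 0 1230186008 1) ndB1q2a ndB5q3 pcB1 cut_pm_213_a Ext.none)

def k0_pm_213_a : ∃ t, chk3 f_pm_213_a t 1 2 1 = true :=
  ⟨(a (b (l 3) (b (a (l 3) (a (l 3) (b (l 3) (a (l 3) (b (l 3) (l 286856826359)))))) (a (b (l 3) (a (l 3) (a (l 3) (b (l 3) (l 326585265399))))) (b (a (a (l 3) (b (l 3) (l 305647303303))) (a (b (l 289541177623) (l 253570881575)) (b (l 246591557783) (l 16759032)))) (a (a (b (l 315310977943) (a (l 275582538279) (l 240149019111))) (b (a (l 268066345991) (l 16770592)) (l 16763280))) (b (l 16753184) (l 16741576))))))) (b (a (b (l 3) (a (l 3) (b (a (l 3) (b (l 3) (l 365240020855))) (a (b (l 3) (a (l 352891948407)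 (l 312089764375))) (b (a (l 343228277991) (b (l 261623900199) (l 16773664))) (a (l 224579826807) (l 16771312))))))) (b (a (a (l 3) (l 6)) (l 6)) (a (b (a (b (a (l 3) (b (l 341080792087) (l 269676967463))) (a (b (l 310479154055) (l 235317241335)) (b (l 212768632551) (l 16774408)))) (b (a (b (l 256255192407) (l 16773600)) (l 6)) (l 16773248))) (a (b (a (l 16773912) (l 16774072)) (l 16772408)) (l 16773312))) (b (a (b (l 6) (l 16776744)) (l 16783912)) (a (l 16776720) (l 16779240)))))) (a (b (a (b (a (b (l 3) (l 329806492279)) (b (l 322290325767) (a (l 305647313095) (l 245517741559)))) (a (b (a (l 311552887479) (l 273435042743)) (l 225116626375)) (b (l 16767368) (l 16759800)))) (b (a (b (a (l 277729993191) (l 16771280)) (l 16766256)) (b (l 16768312) (l 16764552))) (a (l 16757504) (l 16754896)))) (b (a (a (l 16755024) (l 16747176)) (l 16739488)) (a (l 16728248) (l 16721928)))) (b (a (b (a (l 16770128) (l 16768504)) (l 16818584)) (b (a (l 16766096) (l 16759512))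 (l 16738936))) (a (l 16723520) (l 16724232)))))), by decide +kernel⟩

def k1_pm_213_a : ∃ t, chk3 f_pm_213_a t 1 3 1 = true :=
  ⟨(b (a (b (a (b (b (a (l 3) (a (l 341617650343) (a (l 284172470807) (l 244443980951)))) (a (l 403894674311) (a (a (l 307794811095) (l 258939584791)) (l 16767208)))) (a (b (a (l 3) (b (l 331954002647) (a (l 292762407767) (l 16776896)))) (a (a (b (l 3) (a (l 334638318887) (l 295446765847))) (b (l 316921600007) (l 16776760))) (b (l 16774240) (l 16767552)))) (a (b (l 16749608) (l 16756040)) (l 16747560)))) (b (a (b (a (l 16765704) (l 16749144)) (l 16743704)) (l 16721680)) (a (l 16721320) (l 16704320)))) (a (b (a (b (a (b (a (l 233169728919) (l 16771512)) (l 16767856)) (l 16757344)) (l 16750560)) (b (l 16733856) (l 16719328))) (a (b (l 16735856) (l 16721960)) (b (l 16711896) (l 16694352)))) (b (a (l 16704224) (l 16674864)) (a (l 16672904) (l 16642992))))) (a (b (b (a (l 16712048) (l 16696952)) (l 16676912)) (b (a (l 16655488)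 (l 16650744)) (a (l 16635792) (l 16625888)))) (b (a (l 16677296) (l 16665816)) (b (l 16637496) (l 16610024))))) (a (b (a (b (a (b (l 16711064) (l 16686840)) (l 16667552)) (a (l 16645912) (l 16611424))) (b (a (l 16632120) (l 16619280)) (a (l 16587896) (l 16561400)))) (b (a (l 1) (l 16496056)) (l 1))) (b (a (l 16689712) (b (l 16587280) (l 16547616))) (a (b (l 16438744) (l 1)) (b (a (l 16448136) (l 16498288)) (a (l 16295440) (l 16342528))))))), by decide +kernel⟩

theorem s2_pm_213_a : ∃ t, chk3 f_pm_213_a t 1 1 1 = true := ex3_b k0_pm_213_a k1_pm_213_a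

theorem c_pm_213_a : CertB 0 536870912 0 1230186008 780900216 37827925 3 eng mog cd1q2a cd5q3 pd1 false true false .pnn 2 1 3
    ndB1q2a ndB5q3 pcB1 cut_pm_213_a Ext.none :=
  certB0 (fam := false) (s1 := true) (s2 := false) (a := 2) (b := 1) (c := 3) (cn := .pnn) (n1 := ndB1q2a) (n2 := ndB5q3) (pc := pcB1) (cut := cut_pm_213_a) (xt := Ext.none) (P1 := 0) (W1 := 536870912) (P2 := 0) (W2 := 1230186008) (P3 := 780900216) (W3 := 37827925) (N0 := 3) (En := eng) (mo := mog) (C1 := cd1q2a) (C2 := cd5q3) (C3 := pd1)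
    rfl s2_pm_213_a

noncomputable def cut_pm_213_b : Cut := Cut.of [[⟨0, 1, 0, 67108864⟩, ⟨1, 1, 0, 67108864⟩, ⟨2, 2, 0, 16777216⟩]]

noncomputable def f_pm_213_b : ℕ → ℕ → ℕ → ℕ → Bool := onCell 1239849684 370763052 0 1230186008 780900216 37827925
    (rowB 3 eng mog cd1q2b cd5q3 pd1 0 false true false .pnn 2 1 3 (qsf 1239849684 370763052 0 1230186008 1) ndB1q2b ndB5q3 pcB1 cut_pm_213_b Ext.none)

def k0_pm_213_b : ∃ t, chk3 f_pm_213_b t 1 1 1 = true :=
  ⟨(b (l 3) (b (a (b (a (b (l 3) (a (l 3) (l 3))) (l 3)) (a (b (a (a (b (a (b (a (l 251423352695) (l 253033910103)) (l 16773104)) (l 275582563095)) (l 16772952)) (b (l 310479140471) (l 16753448))) (b (l 3) (l 16722560))) (b (a (l 16767544) (l 16728976)) (a (l 16756672) (l 16736112)))) (b (a (l 270750630455) (l 3)) (a (b (a (l 16693472) (l 16670496)) (l 16690520)) (l 1))))) (b (l 3) (l 1))) (a (b (a (b (a (b (l 16739072) (l 16720352)) (b (l 16743568) (l 16738896))) (l 16691840)) (l 1)) (l 1)) (l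 1)))), by decide +kernel⟩

theorem c_pm_213_b : CertB 1239849684 370763052 0 1230186008 780900216 37827925 3 eng mog cd1q2b cd5q3 pd1 false true false .pnn 2 1 3
    ndB1q2b ndB5q3 pcB1 cut_pm_213_b Ext.none :=
  certB0 (fam := false) (s1 := true) (s2 := false) (a := 2) (b := 1) (c := 3) (cn := .pnn) (n1 := ndB1q2b) (n2 := ndB5q3) (pc := pcB1) (cut := cut_pm_213_b) (xt := Ext.none) (P1 := 1239849684) (W1 := 370763052) (P2 := 0) (W2 := 1230186008) (P3 := 780900216) (W3 := 37827925) (N0 := 3) (En := eng) (mo := mog) (C1 := cd1q2b) (C2 := cd5q3) (C3 := pd1)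
    rfl k0_pm_213_b

noncomputable def f_pm_303 : ℕ → ℕ → ℕ → ℕ → Bool := onCell 0 536870912 0 1230186008 780900216 37827925
    (rowB 3 eng mog cd1q3 cd5q3 pd0 2 false true false .npn 3 0 3 (qsf 1610612736 536870912 0 1230186008 0) ndB1q3 ndB5q3 pcB0 Cut.none Ext.none)

def k0_pm_303 : ∃ t, chk3 f_pm_303 t 1 1 1 = true :=
  ⟨(b (l 3) (b (b (l 3) (a (l 3) (a (a (l 3) (b (l 3) (l 1))) (l 1)))) (a (b (a (b (a (l 15847944) (l 15974688)) (a (l 15763000) (b (l 15926616) (l 15930360)))) (a (b (l 16105104) (b (l 16074136) (l 16101104))) (b (l 16285272) (l 1)))) (a (b (a (l 15783960) (l 15961696)) (a (l 15828688) (l 16045880))) (a (b (l 16121224) (l 1)) (l 1)))) (l 1)))), by decide +kernel⟩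

theorem c_pm_303 : CertB 1610612736 536870912 0 1230186008 780900216 37827925 3 eng mog cd1q3 cd5q3 pd0 false true false .npn 3 0 3
    ndB1q3 ndB5q3 pcB0 Cut.none Ext.none :=
  certB2 (fam := false) (s1 := true) (s2 := false) (a := 3) (b := 0) (c := 3) (cn := .npn) (n1 := ndB1q3) (n2 := ndB5q3) (pc := pcB0) (cut := Cut.none) (xt := Ext.none) (P1 := 1610612736) (W1 := 536870912) (P2 := 0) (W2 := 1230186008) (P3 := 780900216) (W3 := 37827925) (N0 := 3) (En := eng) (mo := mog) (C1 := cd1q3) (C2 := cd5q3) (C3 := pd0)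
    rfl (fun _ => rfl) k0_pm_303

noncomputable def f_pm_313 : ℕ → ℕ → ℕ → ℕ → Bool := onCell 1610612736 536870912 0 1230186008 780900216 37827925
    (rowB 3 eng mog cd1q3 cd5q3 pd1 0 false true false .dn 3 1 3 (qsf 1610612736 536870912 0 1230186008 1) ndB1q3 ndB5q3 pcB1 Cut.none Ext.none)

def k0_pm_313 : ∃ t, chk3 f_pm_313 t 1 1 1 = true :=
  ⟨(b (l 3) (l 1)), by decide +kernel⟩

theorem c_pm_313 : CertB 1610612736 536870912 0 1230186008 780900216 37827925 3 eng mog cd1q3 cd5q3 pd1 false true false .dn 3 1 3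
    ndB1q3 ndB5q3 pcB1 Cut.none Ext.none :=
  certB0 (fam := false) (s1 := true) (s2 := false) (a := 3) (b := 1) (c := 3) (cn := .dn) (n1 := ndB1q3) (n2 := ndB5q3) (pc := pcB1) (cut := Cut.none) (xt := Ext.none) (P1 := 1610612736) (W1 := 536870912) (P2 := 0) (W2 := 1230186008) (P3 := 780900216) (W3 := 37827925) (N0 := 3) (En := eng) (mo := mog) (C1 := cd1q3) (C2 := cd5q3) (C3 := pd1)
    rfl k0_pm_313

noncomputable def f_mm_001 : ℕ → ℕ → ℕ → ℕ → Bool := onCell 0 536870912 0 536870912 780900216 37827925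
    (rowB 3 eng mog cd1q0 cd5q1 pd0 1 false false false .up 0 0 1 (qsf 0 536870912 536870912 536870912 0) ndB1q0 ndB5q1 pcB0 Cut.none Ext.none)

def k0_mm_001 : ∃ t, chk3 f_mm_001 t 1 1 1 = true :=
  ⟨(l 3), by decide +kernel⟩

theorem c_mm_001 : CertB 0 536870912 536870912 536870912 780900216 37827925 3 eng mog cd1q0 cd5q1 pd0 false false false .up 0 0 1
    ndB1q0 ndB5q1 pcB0 Cut.none Ext.none :=
  certB1 (fam := false) (s1 := false) (s2 := false) (a := 0) (b := 0) (c := 1) (cn := .up) (n1 := ndB1q0) (n2 := ndB5q1) (pc := pcB0) (cut := Cut.none) (xt := Ext.none) (P1 := 0) (W1 := 536870912) (P2 := 536870912) (W2 := 536870912) (P3 := 780900216) (W3 := 37827925) (N0 := 3) (En := eng) (mo := mog) (C1 := cd1q0) (C2 := cd5q1) (C3 := pd0)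
    rfl (fun _ => rfl) k0_mm_001

noncomputable def f_mm_011 : ℕ → ℕ → ℕ → ℕ → Bool := onCell 0 536870912 536870912 536870912 780900216 37827925
    (rowB 3 eng mog cd1q0 cd5q1 pd1 1 false false false .pnn 0 1 1 (qsf 0 536870912 536870912 536870912 1) ndB1q0 ndB5q1 pcB1 Cut.none Ext.none)

def k0_mm_011 : ∃ t, chk3 f_mm_011 t 1 1 1 = true :=
  ⟨(l 5), by decide +kernel⟩

theorem c_mm_011 : CertB 0 536870912 536870912 536870912 780900216 37827925 3 eng mog cd1q0 cd5q1 pd1 false false false .pnn 0 1 1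
    ndB1q0 ndB5q1 pcB1 Cut.none Ext.none :=
  certB1 (fam := false) (s1 := false) (s2 := false) (a := 0) (b := 1) (c := 1) (cn := .pnn) (n1 := ndB1q0) (n2 := ndB5q1) (pc := pcB1) (cut := Cut.none) (xt := Ext.none) (P1 := 0) (W1 := 536870912) (P2 := 536870912) (W2 := 536870912) (P3 := 780900216) (W3 := 37827925) (N0 := 3) (En := eng) (mo := mog) (C1 := cd1q0) (C2 := cd5q1) (C3 := pd1)
    rfl (fun _ => rfl) k0_mm_011

noncomputable def f_mm_012 : ℕ → ℕ → ℕ → ℕ → Bool := onCell 0 536870912 1073741824 536870912 780900216 37827925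
    (rowB 3 eng mog cd1q0 cd5q2 pd1 0 false false false .pnp 0 1 2 (qsf 0 536870912 1073741824 536870912 1) ndB1q0 ndB5q2 pcB1 Cut.none Ext.none)

def k0_mm_012 : ∃ t, chk3 f_mm_012 t 1 1 1 = true :=
  ⟨(l 5), by decide +kernel⟩

theorem c_mm_012 : CertB 0 536870912 1073741824 536870912 780900216 37827925 3 eng mog cd1q0 cd5q2 pd1 false false false .pnp 0 1 2
    ndB1q0 ndB5q2 pcB1 Cut.none Ext.none :=
  certB0 (fam := false) (s1 := false) (s2 := false) (a := 0) (b := 1) (c := 2) (cn := .pnp) (n1 := ndB1q0) (n2 := ndB5q2) (pc := pcB1) (cut := Cut.none) (xt := Ext.none) (P1 := 0) (W1 := 536870912) (P2 := 1073741824) (W2 := 536870912) (P3 := 780900216) (W3 := 37827925) (N0 := 3) (En := eng) (mo := mog) (C1 := cd1q0) (C2 := cd5q2) (C3 := pd1)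
    rfl k0_mm_012

noncomputable def f_mm_022 : ℕ → ℕ → ℕ → ℕ → Bool := onCell 0 536870912 1073741824 536870912 780900216 37827925
    (rowB 3 eng mog cd1q0 cd5q2 pd2 0 false false false .pp 0 2 2 (qsf 0 536870912 1073741824 536870912 2) ndB1q0 ndB5q2 pcB2 Cut.none Ext.none)

def k0_mm_022 : ∃ t, chk3 f_mm_022 t 1 1 1 = true :=
  ⟨(l 5), by decide +kernel⟩

theorem c_mm_022 : CertB 0 536870912 1073741824 536870912 780900216 37827925 3 eng mog cd1q0 cd5q2 pd2 false false false .pp 0 2 2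
    ndB1q0 ndB5q2 pcB2 Cut.none Ext.none :=
  certB0 (fam := false) (s1 := false) (s2 := false) (a := 0) (b := 2) (c := 2) (cn := .pp) (n1 := ndB1q0) (n2 := ndB5q2) (pc := pcB2) (cut := Cut.none) (xt := Ext.none) (P1 := 0) (W1 := 536870912) (P2 := 1073741824) (W2 := 536870912) (P3 := 780900216) (W3 := 37827925) (N0 := 3) (En := eng) (mo := mog) (C1 := cd1q0) (C2 := cd5q2) (C3 := pd2)
    rfl k0_mm_022

noncomputable def f_mm_023 : ℕ → ℕ → ℕ → ℕ → Bool := onCell 0 536870912 0 1230186008 780900216 37827925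
    (rowB 3 eng mog cd1q0 cd5q3 pd2 0 false false false .up 0 2 3 (qsf 0 536870912 0 1230186008 2) ndB1q0 ndB5q3 pcB2 Cut.none Ext.none)

def k0_mm_023 : ∃ t, chk3 f_mm_023 t 1 1 1 = true :=
  ⟨(l 5), by decide +kernel⟩

theorem c_mm_023 : CertB 0 536870912 0 1230186008 780900216 37827925 3 eng mog cd1q0 cd5q3 pd2 false false false .up 0 2 3
    ndB1q0 ndB5q3 pcB2 Cut.none Ext.none :=
  certB0 (fam := false) (s1 := false) (s2 := false) (a := 0) (b := 2) (c := 3) (cn := .up) (n1 := ndB1q0) (n2 := ndB5q3) (pc := pcB2) (cut := Cut.none) (xt := Ext.none) (P1 := 0) (W1 := 536870912) (P2 := 0) (W2 := 1230186008) (P3 := 780900216) (W3 := 37827925) (N0 := 3) (En := eng) (mo := mog) (C1 := cd1q0) (C2 := cd5q3) (C3 := pd2)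
    rfl k0_mm_023

noncomputable def f_mm_033 : ℕ → ℕ → ℕ → ℕ → Bool := onCell 0 536870912 0 1230186008 780900216 37827925
    (rowB 3 eng mog cd1q0 cd5q3 pd3 0 false false false .pnn 0 3 3 (qsf 0 536870912 0 1230186008 3) ndB1q0 ndB5q3 pcB3 Cut.none Ext.none)

def k0_mm_033 : ∃ t, chk3 f_mm_033 t 1 1 1 = true :=
  ⟨(l 5), by decide +kernel⟩

theorem c_mm_033 : CertB 0 536870912 0 1230186008 780900216 37827925 3 eng mog cd1q0 cd5q3 pd3 false false false .pnn 0 3 3
    ndB1q0 ndB5q3 pcB3 Cut.none Ext.none :=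
  certB0 (fam := false) (s1 := false) (s2 := false) (a := 0) (b := 3) (c := 3) (cn := .pnn) (n1 := ndB1q0) (n2 := ndB5q3) (pc := pcB3) (cut := Cut.none) (xt := Ext.none) (P1 := 0) (W1 := 536870912) (P2 := 0) (W2 := 1230186008) (P3 := 780900216) (W3 := 37827925) (N0 := 3) (En := eng) (mo := mog) (C1 := cd1q0) (C2 := cd5q3) (C3 := pd3)
    rfl k0_mm_033

noncomputable def f_mm_101 : ℕ → ℕ → ℕ → ℕ → Bool := onCell 536870912 536870912 0 536870912 780900216 37827925
    (rowB 3 eng mog cd1q1 cd5q1 pd0 1 false false false .npn 1 0 1 (qsf 536870912 536870912 536870912 536870912 0) ndB1q1 ndB5q1 pcB0 Cut.none Ext.none)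

def k0_mm_101 : ∃ t, chk3 f_mm_101 t 1 1 1 = true :=
  ⟨(l 3), by decide +kernel⟩

theorem c_mm_101 : CertB 536870912 536870912 536870912 536870912 780900216 37827925 3 eng mog cd1q1 cd5q1 pd0 false false false .npn 1 0 1
    ndB1q1 ndB5q1 pcB0 Cut.none Ext.none :=
  certB1 (fam := false) (s1 := false) (s2 := false) (a := 1) (b := 0) (c := 1) (cn := .npn) (n1 := ndB1q1) (n2 := ndB5q1) (pc := pcB0) (cut := Cut.none) (xt := Ext.none) (P1 := 536870912) (W1 := 536870912) (P2 := 536870912) (W2 := 536870912) (P3 := 780900216) (W3 := 37827925) (N0 := 3) (En := eng) (mo := mog) (C1 := cd1q1) (C2 := cd5q1) (C3 := pd0)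
    rfl (fun _ => rfl) k0_mm_101

noncomputable def f_mm_102 : ℕ → ℕ → ℕ → ℕ → Bool := onCell 536870912 536870912 1073741824 536870912 780900216 37827925
    (rowB 3 eng mog cd1q1 cd5q2 pd0 0 false false false .npp 1 0 2 (qsf 536870912 536870912 1073741824 536870912 0) ndB1q1 ndB5q2 pcB0 Cut.none Ext.none)

def k0_mm_102 : ∃ t, chk3 f_mm_102 t 1 1 1 = true :=
  ⟨(l 3), by decide +kernel⟩

theorem c_mm_102 : CertB 536870912 536870912 1073741824 536870912 780900216 37827925 3 eng mog cd1q1 cd5q2 pd0 false false false .npp 1 0 2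
    ndB1q1 ndB5q2 pcB0 Cut.none Ext.none :=
  certB0 (fam := false) (s1 := false) (s2 := false) (a := 1) (b := 0) (c := 2) (cn := .npp) (n1 := ndB1q1) (n2 := ndB5q2) (pc := pcB0) (cut := Cut.none) (xt := Ext.none) (P1 := 536870912) (W1 := 536870912) (P2 := 1073741824) (W2 := 536870912) (P3 := 780900216) (W3 := 37827925) (N0 := 3) (En := eng) (mo := mog) (C1 := cd1q1) (C2 := cd5q2) (C3 := pd0)
    rfl k0_mm_102

noncomputable def f_mm_112 : ℕ → ℕ → ℕ → ℕ → Bool := onCell 536870912 536870912 1073741824 536870912 780900216 37827925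
    (rowB 3 eng mog cd1q1 cd5q2 pd1 0 false false false .dn 1 1 2 (qsf 536870912 536870912 1073741824 536870912 1) ndB1q1 ndB5q2 pcB1 Cut.none Ext.none)

def k0_mm_112 : ∃ t, chk3 f_mm_112 t 1 1 1 = true :=
  ⟨(l 3), by decide +kernel⟩

theorem c_mm_112 : CertB 536870912 536870912 1073741824 536870912 780900216 37827925 3 eng mog cd1q1 cd5q2 pd1 false false false .dn 1 1 2
    ndB1q1 ndB5q2 pcB1 Cut.none Ext.none :=
  certB0 (fam := false) (s1 := false) (s2 := false) (a := 1) (b := 1) (c := 2) (cn := .dn) (n1 := ndB1q1) (n2 := ndB5q2) (pc := pcB1) (cut := Cut.none) (xt := Ext.none) (P1 := 536870912) (W1 := 536870912) (P2 := 1073741824) (W2 := 536870912) (P3 := 780900216) (W3 := 37827925) (N0 := 3) (En := eng) (mo := mog) (C1 := cd1q1) (C2 := cd5q2) (C3 := pd1)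
    rfl k0_mm_112

noncomputable def f_mm_113 : ℕ → ℕ → ℕ → ℕ → Bool := onCell 536870912 536870912 0 1230186008 780900216 37827925
    (rowB 3 eng mog cd1q1 cd5q3 pd1 0 false false false .nn 1 1 3 (qsf 536870912 536870912 0 1230186008 1) ndB1q1 ndB5q3 pcB1 Cut.none Ext.none)

def k0_mm_113 : ∃ t, chk3 f_mm_113 t 1 1 1 = true :=
  ⟨(b (l 5) (b (l 5) (a (l 5) (l 3)))), by decide +kernel⟩

theorem c_mm_113 : CertB 536870912 536870912 0 1230186008 780900216 37827925 3 eng mog cd1q1 cd5q3 pd1 false false false .nn 1 1 3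
    ndB1q1 ndB5q3 pcB1 Cut.none Ext.none :=
  certB0 (fam := false) (s1 := false) (s2 := false) (a := 1) (b := 1) (c := 3) (cn := .nn) (n1 := ndB1q1) (n2 := ndB5q3) (pc := pcB1) (cut := Cut.none) (xt := Ext.none) (P1 := 536870912) (W1 := 536870912) (P2 := 0) (W2 := 1230186008) (P3 := 780900216) (W3 := 37827925) (N0 := 3) (En := eng) (mo := mog) (C1 := cd1q1) (C2 := cd5q3) (C3 := pd1)
    rfl k0_mm_113

noncomputable def f_mm_123 : ℕ → ℕ → ℕ → ℕ → Bool := onCell 1073741824 536870912 0 1230186008 780900216 37827925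
    (rowB 3 eng mog cd1q1 cd5q3 pd2 2 false false false .npn 1 2 3 (qsf 536870912 536870912 0 1230186008 2) ndB1q1 ndB5q3 pcB2 Cut.none Ext.none)

def k0_mm_123 : ∃ t, chk3 f_mm_123 t 1 1 1 = true :=
  ⟨(b (l 5) (l 5)), by decide +kernel⟩

theorem c_mm_123 : CertB 536870912 536870912 0 1230186008 780900216 37827925 3 eng mog cd1q1 cd5q3 pd2 false false false .npn 1 2 3
    ndB1q1 ndB5q3 pcB2 Cut.none Ext.none :=
  certB2 (fam := false) (s1 := false) (s2 := false) (a := 1) (b := 2) (c := 3) (cn := .npn) (n1 := ndB1q1) (n2 := ndB5q3) (pc := pcB2) (cut := Cut.none) (xt := Ext.none) (P1 := 536870912) (W1 := 536870912) (P2 := 0) (W2 := 1230186008) (P3 := 780900216) (W3 := 37827925) (N0 := 3) (En := eng) (mo := mog) (C1 := cd1q1) (C2 := cd5q3) (C3 := pd2)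
    rfl (fun _ => rfl) k0_mm_123

noncomputable def f_mm_133 : ℕ → ℕ → ℕ → ℕ → Bool := onCell 536870912 536870912 0 1230186008 780900216 37827925
    (rowB 3 eng mog cd1q1 cd5q3 pd3 0 false false false .dn 1 3 3 (qsf 536870912 536870912 0 1230186008 3) ndB1q1 ndB5q3 pcB3 Cut.none Ext.none)

def k0_mm_133 : ∃ t, chk3 f_mm_133 t 1 1 1 = true :=
  ⟨(b (l 5) (l 1)), by decide +kernel⟩

theorem c_mm_133 : CertB 536870912 536870912 0 1230186008 780900216 37827925 3 eng mog cd1q1 cd5q3 pd3 false false false .dn 1 3 3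
    ndB1q1 ndB5q3 pcB3 Cut.none Ext.none :=
  certB0 (fam := false) (s1 := false) (s2 := false) (a := 1) (b := 3) (c := 3) (cn := .dn) (n1 := ndB1q1) (n2 := ndB5q3) (pc := pcB3) (cut := Cut.none) (xt := Ext.none) (P1 := 536870912) (W1 := 536870912) (P2 := 0) (W2 := 1230186008) (P3 := 780900216) (W3 := 37827925) (N0 := 3) (En := eng) (mo := mog) (C1 := cd1q1) (C2 := cd5q3) (C3 := pd3)
    rfl k0_mm_133

noncomputable def cut_mm_202_a : Cut := Cut.of [[⟨0, 1, 0, 67108864⟩, ⟨1, 0, 0, 67108864⟩, ⟨2, 1, 0, 67108864⟩]]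

noncomputable def f_mm_202_a : ℕ → ℕ → ℕ → ℕ → Bool := onCell 0 536870912 0 536870912 780900216 37827925
    (rowB 3 eng mog cd1q2a cd5q2 pd0 1 false false false .pp 2 0 2 (qsf 0 536870912 1073741824 536870912 0) ndB1q2a ndB5q2 pcB0 cut_mm_202_a Ext.none)

def k0_mm_202_a : ∃ t, chk3 f_mm_202_a t 2 2 1 = true :=
  ⟨(a (b (b (b (l 16274688) (a (l 16315576) (l 16578456))) (b (a (l 16463248) (l 16414768)) (a (l 16424952) (l 16460072)))) (b (b (l 16485200) (a (l 16508656) (l 16544648))) (b (a (l 16547072) (b (l 16570072) (l 16566904))) (a (l 16585112) (a (l 16606344) (l 16622672)))))) (b (b (b (a (b (l 16348112) (l 16380544)) (b (l 16393672) (l 16434568))) (a (l 16473392) (l 16462320))) (b (a (l 16455088) (l 16502784)) (a (l 16498744) (a (l 16533680) (b (l 16549648) (l 16572424)))))) (b (b (a (a (l 16530544) (l 16598000)) (a (b (l 16566784) (l 16586600)) (b (l 16593080) (l 16614056)))) (a (b (a (l 16561176) (l 16581896)) (l 16589080)) (b (a (l 16606192)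 (l 16612792)) (a (l 16624096) (l 16609152))))) (a (b (b (l 16607440) (a (l 16614816) (l 16635792))) (a (l 16641008) (b (l 16652912) (l 16669888)))) (b (a (b (l 16641896) (l 16638112)) (b (l 16647816) (l 16686312))) (a (b (l 16676496) (l 16714232)) (b (b (l 16699184) (l 174113854903)) (a (b (l 16708720) (l 16727272)) (b (l 191830603447) (l 173577007191)))))))))), by decide +kernel⟩

def k1_mm_202_a : ∃ t, chk3 f_mm_202_a t 2 3 1 = true :=
  ⟨(b (b (a (b (a (l 16618200) (a (l 16639960) (l 16655944))) (a (b (l 16642144) (l 16657048)) (a (b (l 16663248) (l 16677960)) (b (l 16679096) (l 16693296))))) (a (b (b (a (l 16665936) (l 16686216)) (a (l 16681616) (l 16733112))) (a (b (l 16696472) (a (l 16705912) (l 16735896))) (c (b (c (l 197199319543) (l 199883673815)) (a (l 210084223591) (l 256255111543))) (b (l 196125578135) (a (l 203104900775) (l 257328855159)))))) (b (a (c (b (a (l 16702736) (l 195051820247)) (a (l 200420533351) (l 234780264791))) (b (l 185925020759)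 (a (l 16732200) (l 241759587767)))) (b (a (b (l 202031150359) (l 184851295527)) (l 3)) (l 3))) (a (a (b (c (l 249275784295) (l 251423269383)) (l 3)) (l 3)) (l 3))))) (a (a (b (a (l 16671640) (b (l 16677848) (l 16691808))) (a (l 295916198503) (l 208406492663))) (b (a (b (l 16691816) (l 16705112)) (b (l 16706840) (c (l 16719232) (l 16719664)))) (b (a (l 16717624) (a (l 286252793031) (c (l 253570781879) (l 235854041911)))) (l 2)))) (a (b (c (a (b (a (l 16718520) (l 229948454615)) (a (l 248202069175) (l 273434991671))) (b (l 266455650231) (l 3))) (a (b (a (l 16719456) (l 227800970391)) (a (l 231559070727) (l 275045606807))) (b (l 266992528311) (l 3)))) (a (b (c (l 283098663735) (l 284709299495)) (l 3)) (l 3))) (l 3)))) (a (l 2) (l 3))), by decide +kernel⟩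

def k2_mm_202_a : ∃ t, chk3 f_mm_202_a t 6 2 1 = true :=
  ⟨(b (b (b (a (a (l 16473184) (l 16486856)) (a (l 16545320) (a (l 16576568) (l 16535984)))) (a (a (l 16507888) (l 16542720)) (b (a (l 16571960) (l 16615040)) (a (l 16590256) (b (l 16663872) (a (l 16627456) (l 16649160))))))) (a (b (a (l 16547424) (b (l 16571752) (b (l 16587888) (l 16597424)))) (a (b (b (l 16575552) (l 16585936)) (l 16602240)) (b (l 16613448) (a (l 16627248) (l 16644736))))) (b (a (b (b (a (l 16594704) (l 16615368)) (l 16614232)) (b (l 16623816) (l 16634392))) (a (b (l 16619224) (b (l 16655264) (l 16665648))) (b (b (l 16658768) (l 16668416)) (b (l 16677936) (l 16687472))))) (a (b (a (l 16640904) (b (l 16655064) (l 16665136))) (a (b (l 16656792) (l 16667240)) (b (l 16676024) (l 16687008)))) (b (a (b (l 16675216) (l 16686328)) (l 16724576)) (a (l 16723312) (b (l 16740400) (a (l 16724240) (l 155860273863))))))))) (b (a (b (a (b (l 16624032) (l 16582168)) (b (l 16678184) (l 16698904)))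 (a (b (l 16663712) (l 16682120)) (b (a (l 16689088) (l 16726976)) (a (l 16728224) (b (l 16735344) (l 133311695559)))))) (b (a (b (a (l 16642144) (l 16724288)) (a (l 16725784) (b (l 16739832) (l 112373731095)))) (b (a (b (l 16739456) (a (l 16723792) (l 111836855575))) (b (a (l 154786529095) (l 3)) (l 3))) (a (b (a (l 114521208615) (l 3)) (l 3)) (l 3)))) (a (b (a (b (l 135459165463) (l 124184889863)) (b (l 218674130807) (l 3))) (a (b (l 219211022071) (l 3)) (l 3))) (l 3)))) (a (b (a (b (l 169818902871) (a (l 16732560) (b (l 183240670807) (l 151565303079)))) (b (a (b (l 156397129383) (l 142975373847)) (b (l 216526667767) (l 3))) (l 3))) (a (b (a (b (l 181630057047) (l 162302719335)) (l 3)) (l 3)) (l 3))) (l 3)))), by decide +kernel⟩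

def k3_mm_202_a : ∃ t, chk3 f_mm_202_a t 7 8 1 = true :=
  ⟨(a (b (b (a (a (l 16613448) (l 16636160)) (b (a (l 16652360) (l 6)) (l 16631168))) (a (a (l 16632136) (l 16655304)) (b (a (l 16671984) (l 16694248)) (a (l 16684720) (a (l 16721704) (b (l 16707720) (l 16712144))))))) (a (b (b (l 16707960) (a (l 16659192) (b (l 16676848) (l 16681056)))) (a (b (l 16664344) (l 16673744)) (b (l 16688160) (a (l 16692128) (l 16702864))))) (b (a (b (b (l 16689360) (l 16693344)) (l 16679656)) (b (a (l 16708008) (b (l 16716936) (l 16721928))) (a (b (l 16715176) (l 16719656)) (l 16738776)))) (a (b (b (l 16687008) (l 16691160)) (a (l 16692240) (l 16724808))) (a (b (b (l 16724128) (l 16729056)) (b (l 16733848) (l 16728208))) (b (b (l 16735784) (l 16730120)) (a (l 16755440) (b (l 271287509719) (l 119353074647))))))))) (b (a (b (l 6) (a (b (l 6) (b (a (l 16718648) (l 6)) (a (l 16723656) (l 16719704)))) (l 6))) (l 6)) (a (b (a (b (a (b (l 16707696) (l 16711856)) (a (l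 16749536) (l 16745280))) (a (l 16761184) (c (a (l 16759608) (b (l 16747376) (l 91435797591))) (a (l 16759392) (b (l 16741968) (l 92509539367)))))) (b (a (b (l 16762240) (b (l 16763232) (a (l 16744352) (l 81772125479)))) (b (l 6) (b (l 6) (l 3)))) (a (b (a (b (l 273435014951) (l 95730766071)) (b (l 111300026759) (l 3))) (a (l 185388206535) (l 3))) (l 3)))) (a (b (a (a (l 16754808) (b (c (l 16740040) (l 16739856)) (l 104320694663))) (b (a (l 93046408343) (l 189146300583)) (a (l 233169713063) (l 3)))) (a (b (a (l 110763142823) (l 3)) (l 3)) (l 3))) (l 3))) (l 3)))), by decide +kernel⟩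

def k4_mm_202_a : ∃ t, chk3 f_mm_202_a t 7 9 1 = true :=
  ⟨(a (b (a (b (a (b (l 16683392) (a (l 16686216) (l 16698208))) (a (b (l 16700888) (l 16710616)) (l 16732248))) (a (l 16733360) (b (l 16747008) (a (l 16730784) (b (l 298131027783) (l 178408861351)))))) (b (a (b (l 16744440) (b (l 16751720) (a (l 16735264) (a (l 16733256) (l 292225477015))))) (b (a (a (l 16753536) (b (l 16735984) (l 290077996647))) (b (a (l 237464643399) (l 3)) (l 3))) (a (b (l 228874730215) (l 3)) (l 3)))) (a (b (a (a (l 16750312) (l 149954707831)) (l 264308210135)) (a (l 263234465431) (l 3))) (l 3)))) (a (b (a (b (l 16743656) (a (l 16726880) (b (l 16747016) (l 240149013975)))) (b (a (b (l 16748784) (l 200420568455)) (l 273435010535)) (l 3))) (a (b (a (l 166597697255) (l 3)) (l 3)) (l 3))) (l 3))) (l 3)), by decide +kernel⟩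

def k5_mm_202_a : ∃ t, chk3 f_mm_202_a t 7 5 1 = true :=
  ⟨(l 3), by decide +kernel⟩

def k6_mm_202_a : ∃ t, chk3 f_mm_202_a t 3 3 1 = true :=
  ⟨(l 3), by decide +kernel⟩

theorem s7_mm_202_a : ∃ t, chk3 f_mm_202_a t 7 4 1 = true := ex3_b k3_mm_202_a k4_mm_202_a

theorem s8_mm_202_a : ∃ t, chk3 f_mm_202_a t 7 2 1 = true := ex3_b s7_mm_202_a k5_mm_202_a

theorem s9_mm_202_a : ∃ t, chk3 f_mm_202_a t 3 2 1 = true := ex3_a k2_mm_202_a s8_mm_202_a

theorem s10_mm_202_a : ∃ t, chk3 f_mm_202_a t 3 1 1 = true := ex3_b s9_mm_202_a k6_mm_202_a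

theorem s11_mm_202_a : ∃ t, chk3 f_mm_202_a t 2 1 1 = true := ex3_b k0_mm_202_a k1_mm_202_a

theorem s12_mm_202_a : ∃ t, chk3 f_mm_202_a t 1 1 1 = true := ex3_a s11_mm_202_a s10_mm_202_a

theorem c_mm_202_a : CertB 0 536870912 1073741824 536870912 780900216 37827925 3 eng mog cd1q2a cd5q2 pd0 false false false .pp 2 0 2
    ndB1q2a ndB5q2 pcB0 cut_mm_202_a Ext.none :=
  certB1 (fam := false) (s1 := false) (s2 := false) (a := 2) (b := 0) (c := 2) (cn := .pp) (n1 := ndB1q2a) (n2 := ndB5q2) (pc := pcB0) (cut := cut_mm_202_a) (xt := Ext.none) (P1 := 0) (W1 := 536870912) (P2 := 1073741824) (W2 := 536870912) (P3 := 780900216) (W3 := 37827925) (N0 := 3) (En := eng) (mo := mog) (C1 := cd1q2a) (C2 := cd5q2) (C3 := pd0)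
    rfl (fun _ => rfl) s12_mm_202_a

noncomputable def cut_mm_202_b : Cut := Cut.of [[⟨0, 1, 0, 67108864⟩, ⟨1, 0, 0, 67108864⟩, ⟨2, 1, 0, 67108864⟩]]

noncomputable def f_mm_202_b : ℕ → ℕ → ℕ → ℕ → Bool := onCell 0 536870912 1073741824 536870912 780900216 37827925
    (rowB 3 eng mog cd1q2b cd5q2 pd0 2 false false false .pp 2 0 2 (qsf 1239849684 370763052 1073741824 536870912 0) ndB1q2b ndB5q2 pcB0 cut_mm_202_b Ext.none)

def k0_mm_202_b : ∃ t, chk3 f_mm_202_b t 1 1 1 = true :=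
  ⟨(a (b (a (b (l 1) (a (b (a (l 345777710231) (l 370473821063)) (a (l 16237112) (l 16295568))) (b (l 1) (a (l 307660042231) (b (l 1) (l 16407504)))))) (l 1)) (a (b (a (b (l 16258424) (l 16175616)) (b (b (l 278131759831) (l 16374072)) (l 16336352))) (a (b (l 16018104) (l 15763096)) (b (l 16213120) (l 16074168)))) (a (b (b (b (l 368326554199) (l 312492078599)) (l 16462960)) (b (l 16402280) (a (l 16215864) (l 16314520)))) (b (b (l 1) (a (l 363494576167) (l 383895799239))) (b (b (l 247530586887) (l 16522936)) (b (l 16482856) (l 16424496))))))) (b (l 1) (a (b (l 1) (b (a (a (l 250214723175) (b (l 1) (l 16635672))) (l 1)) (a (b (l 16612880) (l 16583552)) (b (l 551936618839) (l 409128735063))))) (l 1)))), by decide +kernel⟩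

theorem c_mm_202_b : CertB 1239849684 370763052 1073741824 536870912 780900216 37827925 3 eng mog cd1q2b cd5q2 pd0 false false false .pp 2 0 2
    ndB1q2b ndB5q2 pcB0 cut_mm_202_b Ext.none :=
  certB2 (fam := false) (s1 := false) (s2 := false) (a := 2) (b := 0) (c := 2) (cn := .pp) (n1 := ndB1q2b) (n2 := ndB5q2) (pc := pcB0) (cut := cut_mm_202_b) (xt := Ext.none) (P1 := 1239849684) (W1 := 370763052) (P2 := 1073741824) (W2 := 536870912) (P3 := 780900216) (W3 := 37827925) (N0 := 3) (En := eng) (mo := mog) (C1 := cd1q2b) (C2 := cd5q2) (C3 := pd0)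
    rfl (fun _ => rfl) k0_mm_202_b

noncomputable def f_mm_203_a : ℕ → ℕ → ℕ → ℕ → Bool := onCell 0 536870912 0 1230186008 780900216 37827925
    (rowB 3 eng mog cd1q2a cd5q3 pd0 0 false false false .up 2 0 3 (qsf 0 536870912 0 1230186008 0) ndB1q2a ndB5q3 pcB0 Cut.none Ext.none)

def k0_mm_203_a : ∃ t, chk3 f_mm_203_a t 1 1 1 = true :=
  ⟨(b (l 2) (b (l 2) (a (b (l 3) (b (a (a (b (a (b (a (b (l 3) (l 291688636871)) (l 3)) (a (c (b (l 260013264631) (l 16758624)) (b (l 255718299495) (l 16758776))) (a (c (l 290614910119) (l 291151780967)) (l 3)))) (l 3)) (a (b (b (a (l 16755184) (c (l 262697609911) (l 257328909671))) (c (l 16752800) (l 16752592))) (c (l 16746400) (l 16745448))) (b (b (l 3) (c (l 286856810647) (l 287930552647))) (c (a (b (l 261623858247) (l 16748560)) (l 298131089639)) (a (b (l 255718288471) (l 16749168)) (l 286319930311)))))) (l 3)) (l 3)) (a (b (a (b (a (l 16735232) (b (a (l 16744728) (c (l 257865764199) (l 251960184983))) (c (l 16742176)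 (l 16742328)))) (a (l 16723064) (c (l 16734656) (l 16734088)))) (a (b (a (c (l 284172437639) (l 282561826183)) (l 3)) (a (c (l 237464678759) (b (l 267529434871) (l 16739880))) (c (l 282024945831) (b (l 3) (l 273435011847))))) (l 3))) (a (a (b (l 16709672) (l 16694848)) (b (l 16722088) (l 16708200))) (a (b (b (c (l 224042908263) (l 210621136455)) (c (l 16731608) (l 16732008))) (c (l 16722552) (l 16722280))) (b (a (c (l 279340583399) (l 278803714695)) (l 3)) (a (c (l 236927797911) (b (l 261623843255) (l 16730704))) (c (b (l 277193099351) (l 267529408119)) (b (l 277729972359) (l 260013230951)))))))) (l 3)))) (l 3)))), by decide +kernel⟩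

theorem c_mm_203_a : CertB 0 536870912 0 1230186008 780900216 37827925 3 eng mog cd1q2a cd5q3 pd0 false false false .up 2 0 3
    ndB1q2a ndB5q3 pcB0 Cut.none Ext.none :=
  certB0 (fam := false) (s1 := false) (s2 := false) (a := 2) (b := 0) (c := 3) (cn := .up) (n1 := ndB1q2a) (n2 := ndB5q3) (pc := pcB0) (cut := Cut.none) (xt := Ext.none) (P1 := 0) (W1 := 536870912) (P2 := 0) (W2 := 1230186008) (P3 := 780900216) (W3 := 37827925) (N0 := 3) (En := eng) (mo := mog) (C1 := cd1q2a) (C2 := cd5q3) (C3 := pd0)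
    rfl k0_mm_203_a

noncomputable def f_mm_203_b : ℕ → ℕ → ℕ → ℕ → Bool := onCell 1239849684 370763052 0 1230186008 780900216 37827925
    (rowB 3 eng mog cd1q2b cd5q3 pd0 0 false false false .up 2 0 3 (qsf 1239849684 370763052 0 1230186008 0) ndB1q2b ndB5q3 pcB0 Cut.none Ext.none)

def k0_mm_203_b : ∃ t, chk3 f_mm_203_b t 1 1 1 = true :=
  ⟨(b (l 3) (b (l 3) (a (b (b (l 3) (l 3)) (a (b (a (b (b (b (l 3) (a (a (a (l 16760240) (l 16771880)) (l 16757752)) (l 3))) (a (c (l 16760944) (l 16761704)) (a (l 194514989095) (l 16710752)))) (b (a (c (l 16731424) (l 16732440)) (l 16692104)) (a (l 16724336) (l 16682696)))) (b (b (l 3) (a (l 219210994311) (l 3))) (b (a (l 16711560) (l 16604112)) (l 16638728)))) (b (a (b (a (l 16714392) (l 16672448)) (l 16684288)) (b (l 16607016) (l 16594728))) (a (b (l 16671808) (l 16656864)) (b (l 16581488) (l 16566400))))) (b (b (l 3) (a (b (l 16620952) (l 16562656)) (b (l 3) (l 16415688)))) (b (a (l 16499136) (b (l 16395784)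 (l 16377096))) (b (l 16602520) (a (l 16456872) (l 16336056))))))) (b (l 3) (a (a (b (b (l 3) (l 16488408)) (b (l 16287392) (b (l 16231248) (l 16207240)))) (b (b (l 3) (b (l 3) (l 3))) (b (b (l 16153016) (l 16128040)) (b (l 16097264) (l 16090448))))) (b (l 3) (b (a (b (l 16030320) (l 16015400)) (l 15910280)) (a (b (l 15972952) (l 15951624)) (l 15837488))))))))), by decide +kernel⟩

theorem c_mm_203_b : CertB 1239849684 370763052 0 1230186008 780900216 37827925 3 eng mog cd1q2b cd5q3 pd0 false false false .up 2 0 3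
    ndB1q2b ndB5q3 pcB0 Cut.none Ext.none :=
  certB0 (fam := false) (s1 := false) (s2 := false) (a := 2) (b := 0) (c := 3) (cn := .up) (n1 := ndB1q2b) (n2 := ndB5q3) (pc := pcB0) (cut := Cut.none) (xt := Ext.none) (P1 := 1239849684) (W1 := 370763052) (P2 := 0) (W2 := 1230186008) (P3 := 780900216) (W3 := 37827925) (N0 := 3) (En := eng) (mo := mog) (C1 := cd1q2b) (C2 := cd5q3) (C3 := pd0)
    rfl k0_mm_203_b

noncomputable def f_mm_213_a : ℕ → ℕ → ℕ → ℕ → Bool := onCell 0 536870912 0 1230186008 780900216 37827925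
    (rowB 3 eng mog cd1q2a cd5q3 pd1 0 false false false .pnn 2 1 3 (qsf 0 536870912 0 1230186008 1) ndB1q2a ndB5q3 pcB1 Cut.none Ext.none)

def k0_mm_213_a : ∃ t, chk3 f_mm_213_a t 1 1 1 = true :=
  ⟨(b (a (l 3) (b (l 5) (l 3))) (a (b (l 3) (b (l 3) (a (l 1) (l 3)))) (l 3))), by decide +kernel⟩

theorem c_mm_213_a : CertB 0 536870912 0 1230186008 780900216 37827925 3 eng mog cd1q2a cd5q3 pd1 false false false .pnn 2 1 3
    ndB1q2a ndB5q3 pcB1 Cut.none Ext.none :=
  certB0 (fam := false) (s1 := false) (s2 := false) (a := 2) (b := 1) (c := 3) (cn := .pnn) (n1 := ndB1q2a) (n2 := ndB5q3) (pc := pcB1) (cut := Cut.none) (xt := Ext.none) (P1 := 0) (W1 := 536870912) (P2 := 0) (W2 := 1230186008) (P3 := 780900216) (W3 := 37827925) (N0 := 3) (En := eng) (mo := mog) (C1 := cd1q2a) (C2 := cd5q3) (C3 := pd1)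
    rfl k0_mm_213_a

noncomputable def f_mm_213_b : ℕ → ℕ → ℕ → ℕ → Bool := onCell 1239849684 370763052 0 1230186008 780900216 37827925
    (rowB 3 eng mog cd1q2b cd5q3 pd1 0 false false false .pnn 2 1 3 (qsf 1239849684 370763052 0 1230186008 1) ndB1q2b ndB5q3 pcB1 Cut.none Ext.none)

def k0_mm_213_b : ∃ t, chk3 f_mm_213_b t 1 1 1 = true :=
  ⟨(b (l 3) (b (l 3) (a (b (b (l 3) (l 3)) (l 1)) (l 1)))), by decide +kernel⟩

theorem c_mm_213_b : CertB 1239849684 370763052 0 1230186008 780900216 37827925 3 eng mog cd1q2b cd5q3 pd1 false false false .pnn 2 1 3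
    ndB1q2b ndB5q3 pcB1 Cut.none Ext.none :=
  certB0 (fam := false) (s1 := false) (s2 := false) (a := 2) (b := 1) (c := 3) (cn := .pnn) (n1 := ndB1q2b) (n2 := ndB5q3) (pc := pcB1) (cut := Cut.none) (xt := Ext.none) (P1 := 1239849684) (W1 := 370763052) (P2 := 0) (W2 := 1230186008) (P3 := 780900216) (W3 := 37827925) (N0 := 3) (En := eng) (mo := mog) (C1 := cd1q2b) (C2 := cd5q3) (C3 := pd1)
    rfl k0_mm_213_b

noncomputable def f_mm_303 : ℕ → ℕ → ℕ → ℕ → Bool := onCell 0 536870912 0 1230186008 780900216 37827925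
    (rowB 3 eng mog cd1q3 cd5q3 pd0 2 false false false .npn 3 0 3 (qsf 1610612736 536870912 0 1230186008 0) ndB1q3 ndB5q3 pcB0 Cut.none Ext.none)

def k0_mm_303 : ∃ t, chk3 f_mm_303 t 1 1 1 = true :=
  ⟨(b (l 3) (b (l 3) (a (b (l 3) (a (b (a (l 97876849415) (l 3)) (a (b (l 15790192) (l 15813592)) (a (l 16048080) (l 1)))) (a (b (l 3) (l 1)) (l 1)))) (l 1)))), by decide +kernel⟩

theorem c_mm_303 : CertB 1610612736 536870912 0 1230186008 780900216 37827925 3 eng mog cd1q3 cd5q3 pd0 false false false .npn 3 0 3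
    ndB1q3 ndB5q3 pcB0 Cut.none Ext.none :=
  certB2 (fam := false) (s1 := false) (s2 := false) (a := 3) (b := 0) (c := 3) (cn := .npn) (n1 := ndB1q3) (n2 := ndB5q3) (pc := pcB0) (cut := Cut.none) (xt := Ext.none) (P1 := 1610612736) (W1 := 536870912) (P2 := 0) (W2 := 1230186008) (P3 := 780900216) (W3 := 37827925) (N0 := 3) (En := eng) (mo := mog) (C1 := cd1q3) (C2 := cd5q3) (C3 := pd0)
    rfl (fun _ => rfl) k0_mm_303

noncomputable def f_mm_313 : ℕ → ℕ → ℕ → ℕ → Bool := onCell 1610612736 536870912 0 1230186008 780900216 37827925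
    (rowB 3 eng mog cd1q3 cd5q3 pd1 0 false false false .dn 3 1 3 (qsf 1610612736 536870912 0 1230186008 1) ndB1q3 ndB5q3 pcB1 Cut.none Ext.none)

def k0_mm_313 : ∃ t, chk3 f_mm_313 t 1 1 1 = true :=
  ⟨(b (l 3) (l 1)), by decide +kernel⟩

theorem c_mm_313 : CertB 1610612736 536870912 0 1230186008 780900216 37827925 3 eng mog cd1q3 cd5q3 pd1 false false false .dn 3 1 3
    ndB1q3 ndB5q3 pcB1 Cut.none Ext.none :=
  certB0 (fam := false) (s1 := false) (s2 := false) (a := 3) (b := 1) (c := 3) (cn := .dn) (n1 := ndB1q3) (n2 := ndB5q3) (pc := pcB1) (cut := Cut.none) (xt := Ext.none) (P1 := 1610612736) (W1 := 536870912) (P2 := 0) (W2 := 1230186008) (P3 := 780900216) (W3 := 37827925) (N0 := 3) (En := eng) (mo := mog) (C1 := cd1q3) (C2 := cd5q3) (C3 := pd1)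
    rfl k0_mm_313

end Pool.Agent.Strip051.G.I72727_7625.Tab.C.BB15

namespace Pool.Agent.Strip051.G.I72727_7625.Tab.C.BB20

open Pool.Agent.Strip051.PB Pool.Agent.Strip051.PB.T
open Pool.Agent.Strip051.G.I72727_7625.Tab

noncomputable def f_pp_001 : ℕ → ℕ → ℕ → ℕ → Bool := onCell 0 536870912 0 536870912 780900216 37827925
    (rowB 3 eng mog cd2q0 cd0q1 pd0 1 false true true .up 0 0 1 (qsf 0 536870912 536870912 536870912 0) ndB2q0 ndB0q1 pcB0 Cut.none Ext.none)

def k0_pp_001 : ∃ t, chk3 f_pp_001 t 1 1 1 = true :=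
  ⟨(l 3), by decide +kernel⟩

theorem c_pp_001 : CertB 0 536870912 536870912 536870912 780900216 37827925 3 eng mog cd2q0 cd0q1 pd0 false true true .up 0 0 1
    ndB2q0 ndB0q1 pcB0 Cut.none Ext.none :=
  certB1 (fam := false) (s1 := true) (s2 := true) (a := 0) (b := 0) (c := 1) (cn := .up) (n1 := ndB2q0) (n2 := ndB0q1) (pc := pcB0) (cut := Cut.none) (xt := Ext.none) (P1 := 0) (W1 := 536870912) (P2 := 536870912) (W2 := 536870912) (P3 := 780900216) (W3 := 37827925) (N0 := 3) (En := eng) (mo := mog) (C1 := cd2q0) (C2 := cd0q1) (C3 := pd0)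
    rfl (fun _ => rfl) k0_pp_001

noncomputable def cut_pp_011 : Cut := Cut.of [[⟨0, 0, 0, 67108864⟩, ⟨1, 1, 0, 67108864⟩, ⟨2, 1, 0, 67108864⟩]]

noncomputable def f_pp_011 : ℕ → ℕ → ℕ → ℕ → Bool := onCell 0 536870912 536870912 536870912 780900216 37827925
    (rowB 3 eng mog cd2q0 cd0q1 pd1 0 false true true .pnn 0 1 1 (qsf 0 536870912 536870912 536870912 1) ndB2q0 ndB0q1 pcB1 cut_pp_011 Ext.none)

def k0_pp_011 : ∃ t, chk3 f_pp_011 t 1 1 1 = true :=
  ⟨(a (b (l 3) (b (l 3) (a (b (l 3) (a (b (l 3) (b (l 3) (a (l 6) (l 3)))) (l 3))) (l 3)))) (l 3)), by decide +kernel⟩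

theorem c_pp_011 : CertB 0 536870912 536870912 536870912 780900216 37827925 3 eng mog cd2q0 cd0q1 pd1 false true true .pnn 0 1 1
    ndB2q0 ndB0q1 pcB1 cut_pp_011 Ext.none :=
  certB0 (fam := false) (s1 := true) (s2 := true) (a := 0) (b := 1) (c := 1) (cn := .pnn) (n1 := ndB2q0) (n2 := ndB0q1) (pc := pcB1) (cut := cut_pp_011) (xt := Ext.none) (P1 := 0) (W1 := 536870912) (P2 := 536870912) (W2 := 536870912) (P3 := 780900216) (W3 := 37827925) (N0 := 3) (En := eng) (mo := mog) (C1 := cd2q0) (C2 := cd0q1) (C3 := pd1)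
    rfl k0_pp_011

noncomputable def cut_pp_012 : Cut := Cut.of [[⟨0, 0, 0, 67108864⟩, ⟨1, 1, 0, 67108864⟩, ⟨2, 1, 0, 67108864⟩]]

noncomputable def f_pp_012 : ℕ → ℕ → ℕ → ℕ → Bool := onCell 536870912 536870912 0 536870912 780900216 37827925
    (rowB 3 eng mog cd2q0 cd0q2 pd1 2 false true true .pnp 0 1 2 (qsf 0 536870912 0 536870912 1) ndB2q0 ndB0q2 pcB1 cut_pp_012 Ext.none)

def k0_pp_012 : ∃ t, chk3 f_pp_012 t 2 1 1 = true :=
  ⟨(b (a (b (l 2) (a (l 2) (b (l 2) (a (l 2) (l 16559608))))) (a (b (l 16484384) (b (l 16517240) (b (l 16546064) (l 16578912)))) (b (l 16480792) (b (l 16498128) (b (l 16536192) (l 16660648)))))) (a (b (a (l 2) (b (a (l 2) (b (l 16538456) (a (l 171966082951) (l 16597192)))) (l 3))) (l 3)) (b (a (b (a (b (l 16547296) (l 16532208)) (b (l 16556288) (l 16508400))) (b (a (l 170892164583) (a (l 162302259383) (l 16553352))) (l 3))) (b (a (l 16537336) (l 16572664)) (b (a (l 16577816) (l 16513912)) (a (l 169281593447) (b (l 16540520)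 (l 195051507319)))))) (a (l 3) (a (l 3) (b (l 3) (l 3))))))), by decide +kernel⟩

def k1_pp_012 : ∃ t, chk3 f_pp_012 t 6 1 1 = true :=
  ⟨(b (b (a (b (l 16373264) (l 16425992)) (b (l 16355288) (l 16409016))) (b (a (l 16482232) (l 16467200)) (a (a (l 16543984) (l 16539072)) (l 16574016)))) (b (a (b (a (l 16584200) (l 16613192)) (a (b (l 16525448) (a (l 16564992) (l 16575504))) (b (l 16586528) (l 16589568)))) (b (a (b (l 16583448) (l 16610448)) (b (l 16581712) (l 16613464))) (a (b (l 16624304) (l 16606872)) (b (l 16640904) (l 16640120))))) (a (b (b (a (a (l 268602873847) (b (l 266455484247) (l 3))) (b (a (l 16628352) (l 16634632)) (b (a (l 268602977687) (l 16637880)) (a (l 3) (b (l 214915913655) (l 258402463607)))))) (a (l 3) (l 3))) (l 3)) (b (a (b (a (b (l 16639304) (a (l 232632660919) (l 16670744))) (l 16670296)) (b (a (a (l 249275703543) (a (l 250349448855) (l 250886321207))) (b (a (l 16696608) (l 16696392)) (a (l 252496972759) (l 260013135495))))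 (l 3))) (b (b (l 16650760) (l 16653824)) (b (a (b (l 16696456) (a (l 16713376) (l 16713056))) (l 16705208)) (a (b (a (l 256255102887) (l 253570714279)) (l 3)) (a (l 236927752823) (l 236390881975)))))) (b (a (l 3) (b (l 3) (l 3))) (l 3)))))), by decide +kernel⟩

def k2_pp_012 : ∃ t, chk3 f_pp_012 t 7 2 1 = true :=
  ⟨(b (a (b (l 16339016) (l 16394200)) (b (a (l 16329248) (l 16326216)) (a (l 16387672) (l 16428056)))) (a (b (a (l 16456448) (l 16450552)) (a (l 16523216) (l 16517744))) (b (a (l 16446784) (l 16444336)) (a (l 16492984) (b (l 16491464) (l 16525824)))))), by decide +kernel⟩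

def k3_pp_012 : ∃ t, chk3 f_pp_012 t 7 3 1 = true :=
  ⟨(b (a (b (a (l 16638120) (l 16571088)) (a (b (l 16645264) (l 16672848)) (b (l 16644440) (l 16672936)))) (b (a (b (l 16567872) (l 16604336)) (b (l 16560504) (l 16595528))) (a (b (l 16617928) (l 16644472)) (b (l 16631360) (a (l 16661752) (l 16661120)))))) (a (b (b (a (a (l 16670984) (l 16679000)) (a (l 16698184) (l 16697112))) (a (a (b (l 16706504) (a (l 16731928) (l 16734976))) (a (l 16718608) (l 16715584))) (b (l 16665032) (a (l 16721512) (l 16717488))))) (b (a (b (a (b (a (l 248202100279) (l 264845060087)) (l 3)) (b (a (l 16750992) (l 16745992)) (a (l 252497075639) (l 257328868983)))) (a (l 3) (l 3))) (b (a (b (l 16738904) (a (l 16764304) (l 16748880))) (l 16727440)) (a (b (a (b (l 238001574647) (l 3)) (b (l 16757928) (a (l 247665239367) (l 233706597575)))) (l 3)) (b (a (a (l 16757488) (l 16755608)) (l 16753360)) (a (b (a (l 246054628631) (l 229948504599)) (l 3)) (b (a (l 16762496) (l 16761024))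 (a (l 244444019719) (l 225653542647)))))))) (a (l 3) (b (a (l 3) (l 3)) (l 3))))) (b (a (b (a (l 16692680) (l 16688352)) (a (l 16720992) (l 16696680))) (b (a (l 16684576) (l 16639960)) (a (b (l 16704656) (l 16720080)) (a (l 16708960) (b (l 16699560) (l 6)))))) (a (b (a (b (l 16735280) (a (a (b (l 16751688) (l 16762512)) (l 16777112)) (l 16775856))) (b (l 16740688) (a (l 16753560) (l 16752264)))) (b (a (b (a (b (a (l 242833412103) (l 220821710919)) (l 3)) (b (a (l 16768272) (l 16767256)) (a (l 244444030615) (l 214916138199)))) (l 3)) (a (b (a (l 16768848) (l 16767864)) (l 6)) (l 6))) (a (l 3) (l 6)))) (b (a (b (l 16736280) (l 6)) (l 6)) (l 6)))))), by decide +kernel⟩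

theorem s4_pp_012 : ∃ t, chk3 f_pp_012 t 7 1 1 = true := ex3_b k2_pp_012 k3_pp_012

theorem s5_pp_012 : ∃ t, chk3 f_pp_012 t 3 1 1 = true := ex3_a k1_pp_012 s4_pp_012

theorem s6_pp_012 : ∃ t, chk3 f_pp_012 t 1 1 1 = true := ex3_a k0_pp_012 s5_pp_012

theorem c_pp_012 : CertB 0 536870912 0 536870912 780900216 37827925 3 eng mog cd2q0 cd0q2 pd1 false true true .pnp 0 1 2
    ndB2q0 ndB0q2 pcB1 cut_pp_012 Ext.none :=
  certB2 (fam := false) (s1 := true) (s2 := true) (a := 0) (b := 1) (c := 2) (cn := .pnp) (n1 := ndB2q0) (n2 := ndB0q2) (pc := pcB1) (cut := cut_pp_012) (xt := Ext.none) (P1 := 0) (W1 := 536870912) (P2 := 0) (W2 := 536870912) (P3 := 780900216) (W3 := 37827925) (N0 := 3) (En := eng) (mo := mog) (C1 := cd2q0) (C2 := cd0q2) (C3 := pd1)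
    rfl (fun _ => rfl) s6_pp_012

noncomputable def cut_pp_022 : Cut := Cut.of [[⟨0, 0, 0, 67108864⟩, ⟨1, 1, 0, 67108864⟩, ⟨2, 1, 0, 67108864⟩]]

noncomputable def f_pp_022 : ℕ → ℕ → ℕ → ℕ → Bool := onCell 0 536870912 0 536870912 780900216 37827925
    (rowB 3 eng mog cd2q0 cd0q2 pd2 0 false true true .pp 0 2 2 (qsf 0 536870912 0 536870912 2) ndB2q0 ndB0q2 pcB2 cut_pp_022 Ext.none)

def k0_pp_022 : ∃ t, chk3 f_pp_022 t 2 2 1 = true :=
  ⟨(a (b (a (a (b (a (l 16392040) (l 16425384)) (b (l 16408280) (l 16455416))) (b (l 16471680) (l 16479888))) (a (b (l 16438968) (l 16460368)) (b (l 16386952) (l 16410736)))) (a (b (a (a (b (l 16403584) (l 16417736)) (b (l 16443856) (l 16459768))) (l 16503752)) (a (a (b (l 16436608) (a (l 16449112) (l 16472240))) (b (l 16479072) (l 16459552))) (a (l 16525296) (l 16538720)))) (b (a (l 16483352) (l 16434944)) (a (b (l 16501680) (l 16515368)) (b (l 16453528) (l 16467024)))))) (a (a (b (b (l 16325800) (l 16351952)) (b (l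 142840588023) (b (l 16438464) (l 345777878647)))) (b (b (l 1) (l 1)) (l 1))) (l 1))), by decide +kernel⟩

def k1_pp_022 : ∃ t, chk3 f_pp_022 t 2 3 1 = true :=
  ⟨(a (b (a (b (a (a (b (c (l 16558704) (l 16525600)) (b (l 16535584) (l 16573640))) (b (l 16528376) (l 16561016))) (b (l 16567128) (l 16579280))) (a (a (b (a (b (l 16538064) (l 16552048)) (b (l 16558640) (l 16573904))) (a (b (l 16567960) (l 16607232)) (b (l 16590688) (l 16567632)))) (a (b (l 16586792) (l 16622016)) (b (l 16606672) (l 16634128)))) (b (a (l 16601168) (l 16582544)) (a (l 16619992) (l 16599048))))) (b (a (b (l 16548944) (l 16581248)) (b (l 204580984311) (a (l 16503072) (l 1)))) (a (b (a (l 16561896) (l 16539008)) (a (b (l 16571768) (l 16580064)) (l 455836618535))) (b (a (l 295312176263) (l 1)) (l 1))))) (a (a (b (b (b (a (a (a (l 16621704) (l 16612728)) (l 16629864)) (l 16654240)) (a (a (b (l 16643320) (l 6)) (l 16650616)) (l 16665256))) (l 6)) (l 6)) (a (b (b (b (l 16634568)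 (l 16644648)) (l 6)) (l 6)) (b (b (b (l 16612392) (l 120292399319)) (a (l 6) (a (l 6) (l 1)))) (l 1)))) (b (b (a (a (b (l 16608960) (l 444562353719)) (l 1)) (l 1)) (l 1)) (l 1)))) (b (l 1) (l 1))), by decide +kernel⟩

def k2_pp_022 : ∃ t, chk3 f_pp_022 t 3 1 1 = true :=
  ⟨(l 1), by decide +kernel⟩

theorem s3_pp_022 : ∃ t, chk3 f_pp_022 t 2 1 1 = true := ex3_b k0_pp_022 k1_pp_022

theorem s4_pp_022 : ∃ t, chk3 f_pp_022 t 1 1 1 = true := ex3_a s3_pp_022 k2_pp_022

theorem c_pp_022 : CertB 0 536870912 0 536870912 780900216 37827925 3 eng mog cd2q0 cd0q2 pd2 false true true .pp 0 2 2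
    ndB2q0 ndB0q2 pcB2 cut_pp_022 Ext.none :=
  certB0 (fam := false) (s1 := true) (s2 := true) (a := 0) (b := 2) (c := 2) (cn := .pp) (n1 := ndB2q0) (n2 := ndB0q2) (pc := pcB2) (cut := cut_pp_022) (xt := Ext.none) (P1 := 0) (W1 := 536870912) (P2 := 0) (W2 := 536870912) (P3 := 780900216) (W3 := 37827925) (N0 := 3) (En := eng) (mo := mog) (C1 := cd2q0) (C2 := cd0q2) (C3 := pd2)
    rfl s4_pp_022

noncomputable def f_pp_101 : ℕ → ℕ → ℕ → ℕ → Bool := onCell 536870912 536870912 536870912 536870912 780900216 37827925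
    (rowB 3 eng mog cd2q1 cd0q1 pd0 0 false true true .npn 1 0 1 (qsf 536870912 536870912 536870912 536870912 0) ndB2q1 ndB0q1 pcB0 Cut.none Ext.none)

def k0_pp_101 : ∃ t, chk3 f_pp_101 t 1 1 1 = true :=
  ⟨(l 3), by decide +kernel⟩

theorem c_pp_101 : CertB 536870912 536870912 536870912 536870912 780900216 37827925 3 eng mog cd2q1 cd0q1 pd0 false true true .npn 1 0 1
    ndB2q1 ndB0q1 pcB0 Cut.none Ext.none :=
  certB0 (fam := false) (s1 := true) (s2 := true) (a := 1) (b := 0) (c := 1) (cn := .npn) (n1 := ndB2q1) (n2 := ndB0q1) (pc := pcB0) (cut := Cut.none) (xt := Ext.none) (P1 := 536870912) (W1 := 536870912) (P2 := 536870912) (W2 := 536870912) (P3 := 780900216) (W3 := 37827925) (N0 := 3) (En := eng) (mo := mog) (C1 := cd2q1) (C2 := cd0q1) (C3 := pd0)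
    rfl k0_pp_101

noncomputable def f_pp_102 : ℕ → ℕ → ℕ → ℕ → Bool := onCell 0 536870912 0 536870912 780900216 37827925
    (rowB 3 eng mog cd2q1 cd0q2 pd0 2 false true true .npp 1 0 2 (qsf 536870912 536870912 0 536870912 0) ndB2q1 ndB0q2 pcB0 Cut.none Ext.none)

def k0_pp_102 : ∃ t, chk3 f_pp_102 t 2 1 1 = true :=
  ⟨(b (a (b (l 2) (l 3)) (a (b (b (a (b (a (l 2) (b (l 16429920) (l 3))) (l 3)) (b (a (b (l 16425336) (l 16430632)) (b (l 16417816) (l 16427352))) (a (l 3) (b (l 16432424) (l 3))))) (l 3)) (l 3)) (a (b (b (b (a (l 16415704) (l 16409600)) (a (l 165523429511) (l 16430368))) (l 3)) (l 3)) (b (b (b (a (l 16406432) (l 16404504)) (l 16487984)) (b (b (l 130626840615) (l 161228463895)) (l 3))) (l 3))))) (l 3)), by decide +kernel⟩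

def k1_pp_102 : ∃ t, chk3 f_pp_102 t 3 1 1 = true :=
  ⟨(b (a (b (b (a (a (b (l 16401784) (b (l 16413616) (l 16424112))) (b (l 16398896) (l 16417224))) (b (l 16399512) (a (l 16417432) (l 16417448)))) (a (a (b (a (l 16441000) (l 16438632)) (a (l 186998235799) (l 154249150871))) (b (l 16436144) (a (l 146733011143) (l 16477080)))) (b (a (b (l 16429704) (l 16440088)) (l 16436152)) (a (a (l 16455528) (l 16455376)) (l 16455752))))) (b (a (a (l 3) (b (l 180555845271) (l 3))) (a (b (a (l 151027962535) (b (l 16470928) (l 164449706935))) (l 3)) (a (b (b (l 16470832) (l 16480616)) (l 176260854263)) (b (l 16475880) (a (l 168744722103) (l 152638602023)))))) (l 3))) (b (b (a (l 16413080) (l 16421992)) (a (b (a (l 16438936) (l 16440816)) (a (a (l 16456392) (l 16456264)) (l 16458576))) (a (l 16455528) (l 16458776)))) (a (b (b (a (c (l 16483120) (l 16468496)) (l 16476496)) (a (a (a (l 133848123575) (l 127942542887)) (a (l 122573830007) (l 112373278135))) (a (l 16493048)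 (l 16492656)))) (b (a (b (l 178408432743) (l 3)) (a (b (l 158544188295) (l 3)) (b (l 139753703671) (l 178945276583)))) (l 3))) (b (a (b (l 16477880) (l 16492648)) (b (l 16481312) (l 16494296))) (a (b (a (b (l 16501952) (l 147806773799)) (l 132774382087)) (b (a (l 3) (l 184313955799)) (l 3))) (b (a (l 16503696) (l 16503992)) (b (a (l 139753706567) (l 16507744)) (a (l 3) (l 183240244855))))))))) (a (l 3) (l 3))), by decide +kernel⟩

theorem s2_pp_102 : ∃ t, chk3 f_pp_102 t 1 1 1 = true := ex3_a k0_pp_102 k1_pp_102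

theorem c_pp_102 : CertB 536870912 536870912 0 536870912 780900216 37827925 3 eng mog cd2q1 cd0q2 pd0 false true true .npp 1 0 2
    ndB2q1 ndB0q2 pcB0 Cut.none Ext.none :=
  certB2 (fam := false) (s1 := true) (s2 := true) (a := 1) (b := 0) (c := 2) (cn := .npp) (n1 := ndB2q1) (n2 := ndB0q2) (pc := pcB0) (cut := Cut.none) (xt := Ext.none) (P1 := 536870912) (W1 := 536870912) (P2 := 0) (W2 := 536870912) (P3 := 780900216) (W3 := 37827925) (N0 := 3) (En := eng) (mo := mog) (C1 := cd2q1) (C2 := cd0q2) (C3 := pd0)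
    rfl (fun _ => rfl) s2_pp_102

noncomputable def f_pp_112 : ℕ → ℕ → ℕ → ℕ → Bool := onCell 536870912 536870912 0 536870912 780900216 37827925
    (rowB 3 eng mog cd2q1 cd0q2 pd1 2 false true true .dn 1 1 2 (qsf 536870912 536870912 0 536870912 1) ndB2q1 ndB0q2 pcB1 Cut.none Ext.none)

def k0_pp_112 : ∃ t, chk3 f_pp_112 t 1 1 1 = true :=
  ⟨(a (b (a (b (b (a (l 16368536) (l 16364032)) (a (l 16418392) (l 16413856))) (a (b (a (b (l 16452536) (l 16474192)) (l 16528216)) (a (b (l 16493032) (a (b (l 16503392) (l 119889484071)) (l 16503984))) (b (l 16491344) (l 16501600)))) (b (b (l 16447472) (l 16468008)) (b (l 16524240) (a (l 16496944) (l 16489024)))))) (a (b (l 37077316311) (b (l 16428376) (b (l 16496320) (l 16530064)))) (l 1))) (a (b (b (a (b (a (b (a (l 186998301095) (l 131163754199)) (l 3)) (b (a (l 16501848) (l 16500256)) (a (l 167670947351) (l 123647531831)))) (l 3)) (a (b (a (l 16495808) (l 16493592)) (b (l 110762569927) (l 3))) (b (l 16488872)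 (a (l 86066470151) (l 1))))) (l 3)) (l 3)) (b (l 1) (l 1)))) (l 1)), by decide +kernel⟩

theorem c_pp_112 : CertB 536870912 536870912 0 536870912 780900216 37827925 3 eng mog cd2q1 cd0q2 pd1 false true true .dn 1 1 2
    ndB2q1 ndB0q2 pcB1 Cut.none Ext.none :=
  certB2 (fam := false) (s1 := true) (s2 := true) (a := 1) (b := 1) (c := 2) (cn := .dn) (n1 := ndB2q1) (n2 := ndB0q2) (pc := pcB1) (cut := Cut.none) (xt := Ext.none) (P1 := 536870912) (W1 := 536870912) (P2 := 0) (W2 := 536870912) (P3 := 780900216) (W3 := 37827925) (N0 := 3) (En := eng) (mo := mog) (C1 := cd2q1) (C2 := cd0q2) (C3 := pd1)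
    rfl (fun _ => rfl) k0_pp_112

noncomputable def f_pp_202_a : ℕ → ℕ → ℕ → ℕ → Bool := onCell 0 536870912 0 536870912 780900216 37827925
    (rowB 3 eng mog cd2q2a cd0q2 pd0 0 false true true .pp 2 0 2 (qsf 0 536870912 0 536870912 0) ndB2q2a ndB0q2 pcB0 Cut.none Ext.none)

def k0_pp_202_a : ∃ t, chk3 f_pp_202_a t 1 1 1 = true :=
  ⟨(l 3), by decide +kernel⟩

theorem c_pp_202_a : CertB 0 536870912 0 536870912 780900216 37827925 3 eng mog cd2q2a cd0q2 pd0 false true true .pp 2 0 2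
    ndB2q2a ndB0q2 pcB0 Cut.none Ext.none :=
  certB0 (fam := false) (s1 := true) (s2 := true) (a := 2) (b := 0) (c := 2) (cn := .pp) (n1 := ndB2q2a) (n2 := ndB0q2) (pc := pcB0) (cut := Cut.none) (xt := Ext.none) (P1 := 0) (W1 := 536870912) (P2 := 0) (W2 := 536870912) (P3 := 780900216) (W3 := 37827925) (N0 := 3) (En := eng) (mo := mog) (C1 := cd2q2a) (C2 := cd0q2) (C3 := pd0)
    rfl k0_pp_202_a

noncomputable def f_pp_202_b : ℕ → ℕ → ℕ → ℕ → Bool := onCell 1239849684 370763052 0 536870912 780900216 37827925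
    (rowB 3 eng mog cd2q2b cd0q2 pd0 0 false true true .pp 2 0 2 (qsf 1239849684 370763052 0 536870912 0) ndB2q2b ndB0q2 pcB0 Cut.none Ext.none)

def k0_pp_202_b : ∃ t, chk3 f_pp_202_b t 1 1 1 = true :=
  ⟨(l 3), by decide +kernel⟩

theorem c_pp_202_b : CertB 1239849684 370763052 0 536870912 780900216 37827925 3 eng mog cd2q2b cd0q2 pd0 false true true .pp 2 0 2
    ndB2q2b ndB0q2 pcB0 Cut.none Ext.none :=
  certB0 (fam := false) (s1 := true) (s2 := true) (a := 2) (b := 0) (c := 2) (cn := .pp) (n1 := ndB2q2b) (n2 := ndB0q2) (pc := pcB0) (cut := Cut.none) (xt := Ext.none) (P1 := 1239849684) (W1 := 370763052) (P2 := 0) (W2 := 536870912) (P3 := 780900216) (W3 := 37827925) (N0 := 3) (En := eng) (mo := mog) (C1 := cd2q2b) (C2 := cd0q2) (C3 := pd0)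
    rfl k0_pp_202_b

noncomputable def f_pm_001 : ℕ → ℕ → ℕ → ℕ → Bool := onCell 0 536870912 536870912 536870912 780900216 37827925
    (rowB 3 eng mog cd2q0 cd0q1 pd0 0 false true false .up 0 0 1 (qsf 0 536870912 536870912 536870912 0) ndB2q0 ndB0q1 pcB0 Cut.none Ext.none)

def k0_pm_001 : ∃ t, chk3 f_pm_001 t 1 1 1 = true :=
  ⟨(b (l 4) (b (l 4) (b (l 4) (a (l 2) (a (l 2) (b (l 4) (a (l 2) (a (l 16431784) (l 16196448))))))))), by decide +kernel⟩

theorem c_pm_001 : CertB 0 536870912 536870912 536870912 780900216 37827925 3 eng mog cd2q0 cd0q1 pd0 false true false .up 0 0 1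
    ndB2q0 ndB0q1 pcB0 Cut.none Ext.none :=
  certB0 (fam := false) (s1 := true) (s2 := false) (a := 0) (b := 0) (c := 1) (cn := .up) (n1 := ndB2q0) (n2 := ndB0q1) (pc := pcB0) (cut := Cut.none) (xt := Ext.none) (P1 := 0) (W1 := 536870912) (P2 := 536870912) (W2 := 536870912) (P3 := 780900216) (W3 := 37827925) (N0 := 3) (En := eng) (mo := mog) (C1 := cd2q0) (C2 := cd0q1) (C3 := pd0)
    rfl k0_pm_001

noncomputable def cut_pm_011 : Cut := Cut.of [[⟨0, 0, 0, 67108864⟩, ⟨1, 1, 0, 67108864⟩, ⟨2, 1, 0, 67108864⟩]]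

noncomputable def f_pm_011 : ℕ → ℕ → ℕ → ℕ → Bool := onCell 0 536870912 536870912 536870912 780900216 37827925
    (rowB 3 eng mog cd2q0 cd0q1 pd1 0 false true false .pnn 0 1 1 (qsf 0 536870912 536870912 536870912 1) ndB2q0 ndB0q1 pcB1 cut_pm_011 Ext.none)

def k0_pm_011 : ∃ t, chk3 f_pm_011 t 1 1 1 = true :=
  ⟨(b (l 4) (b (l 4) (b (l 4) (b (a (l 4) (l 4)) (a (a (a (a (b (l 4) (l 6)) (l 4)) (l 4)) (l 4)) (a (a (l 4) (b (l 4) (l 16314384))) (a (b (l 4) (l 16251384)) (l 16271112)))))))), by decide +kernel⟩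

theorem c_pm_011 : CertB 0 536870912 536870912 536870912 780900216 37827925 3 eng mog cd2q0 cd0q1 pd1 false true false .pnn 0 1 1
    ndB2q0 ndB0q1 pcB1 cut_pm_011 Ext.none :=
  certB0 (fam := false) (s1 := true) (s2 := false) (a := 0) (b := 1) (c := 1) (cn := .pnn) (n1 := ndB2q0) (n2 := ndB0q1) (pc := pcB1) (cut := cut_pm_011) (xt := Ext.none) (P1 := 0) (W1 := 536870912) (P2 := 536870912) (W2 := 536870912) (P3 := 780900216) (W3 := 37827925) (N0 := 3) (En := eng) (mo := mog) (C1 := cd2q0) (C2 := cd0q1) (C3 := pd1)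
    rfl k0_pm_011

noncomputable def cut_pm_012 : Cut := Cut.of [[⟨0, 0, 0, 67108864⟩, ⟨1, 1, 0, 67108864⟩, ⟨2, 1, 0, 67108864⟩]]

noncomputable def f_pm_012 : ℕ → ℕ → ℕ → ℕ → Bool := onCell 536870912 536870912 0 536870912 780900216 37827925
    (rowB 3 eng mog cd2q0 cd0q2 pd1 2 false true false .pnp 0 1 2 (qsf 0 536870912 0 536870912 1) ndB2q0 ndB0q2 pcB1 cut_pm_012 Ext.none)

def k0_pm_012 : ∃ t, chk3 f_pm_012 t 1 2 1 = true :=
  ⟨(a (b (a (l 2) (a (l 16348832) (l 16321936))) (a (b (l 2) (l 16286040)) (a (l 16268584) (l 16249496)))) (a (b (a (l 16299408) (l 16280360)) (a (l 16424840) (b (l 16232672) (l 16224184)))) (a (b (b (l 16284216) (l 16245448)) (b (l 16225760) (l 16227680))) (b (a (l 16258392) (b (l 16273560) (l 16239536))) (b (a (l 16226248) (l 16228632)) (a (l 16236544) (l 16242320))))))), by decide +kernel⟩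

def k1_pm_012 : ∃ t, chk3 f_pm_012 t 1 3 1 = true :=
  ⟨(a (b (a (a (l 2) (a (l 16284280) (l 16364152))) (b (l 16329632) (a (l 16213008) (l 16287776)))) (a (b (a (l 16186936) (l 16200952)) (a (l 16184128) (l 16220392))) (b (b (a (l 16219520) (l 16247656)) (a (l 16231560) (l 16268296))) (a (b (l 16251008) (l 16280280)) (b (l 16298264) (l 16467016)))))) (a (b (a (b (l 16228000) (a (l 16239656) (l 16259280))) (b (l 16238736) (l 16282488))) (a (b (b (l 16351232) (l 16398632)) (b (l 16396832) (a (l 16391536) (l 16430408)))) (b (b (a (l 16319704) (l 16345368)) (b (l 16599864) (a (l 16370424) (l 16407872)))) (a (b (l 16408376) (a (l 16463376) (l 16487424))) (b (b (l 16436448) (l 16465336)) (b (l 16499416) (l 4))))))) (b (a (b (l 16414456) (a (l 16309960) (l 16330384))) (b (a (l 16275792) (b (l 16270904) (l 16302616))) (a (b (l 16326672) (l 16372336)) (a (l 16364048) (b (l 16347960) (l 16400520)))))) (b (a (b (a (l 16377328) (l 16403360)) (a (l 16515480)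 (l 16544224))) (b (a (l 16428624) (a (l 16449728) (l 16464256))) (a (l 16576688) (a (l 16518248) (b (l 16516904) (l 16554472)))))) (a (a (b (b (a (l 16465920) (l 16483152)) (l 16506696)) (b (a (l 16532272) (l 16554096)) (l 4))) (b (a (b (l 16600272) (l 16537216)) (b (l 16519704) (b (l 16546376) (l 16566720)))) (b (a (l 16575992) (a (l 16592240) (l 16603208))) (l 4)))) (a (b (a (b (l 16536600) (b (l 16566712) (a (l 16581680) (l 16591640)))) (b (l 16556120) (l 16596928))) (b (a (b (l 16608616) (l 16631080)) (a (b (l 16624512) (l 6)) (l 6))) (b (a (l 16657528) (l 6)) (l 4)))) (b (a (b (l 16575320) (l 6)) (l 6)) (l 6)))))))), by decide +kernel⟩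

theorem s2_pm_012 : ∃ t, chk3 f_pm_012 t 1 1 1 = true := ex3_b k0_pm_012 k1_pm_012

theorem c_pm_012 : CertB 0 536870912 0 536870912 780900216 37827925 3 eng mog cd2q0 cd0q2 pd1 false true false .pnp 0 1 2
    ndB2q0 ndB0q2 pcB1 cut_pm_012 Ext.none :=
  certB2 (fam := false) (s1 := true) (s2 := false) (a := 0) (b := 1) (c := 2) (cn := .pnp) (n1 := ndB2q0) (n2 := ndB0q2) (pc := pcB1) (cut := cut_pm_012) (xt := Ext.none) (P1 := 0) (W1 := 536870912) (P2 := 0) (W2 := 536870912) (P3 := 780900216) (W3 := 37827925) (N0 := 3) (En := eng) (mo := mog) (C1 := cd2q0) (C2 := cd0q2) (C3 := pd1)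
    rfl (fun _ => rfl) s2_pm_012

noncomputable def cut_pm_022 : Cut := Cut.of [[⟨0, 0, 0, 67108864⟩, ⟨1, 1, 0, 67108864⟩, ⟨2, 1, 0, 67108864⟩]]

noncomputable def f_pm_022 : ℕ → ℕ → ℕ → ℕ → Bool := onCell 0 536870912 0 536870912 780900216 37827925
    (rowB 3 eng mog cd2q0 cd0q2 pd2 0 false true false .pp 0 2 2 (qsf 0 536870912 0 536870912 2) ndB2q0 ndB0q2 pcB2 cut_pm_022 Ext.none)

def k0_pm_022 : ∃ t, chk3 f_pm_022 t 2 2 1 = true :=
  ⟨(a (b (a (a (b (a (b (l 16400176) (l 16408512)) (l 16435152)) (a (l 16425248) (l 16453960))) (b (l 16466288) (l 16454096))) (a (b (l 16419816) (l 16398168)) (b (l 16405032) (l 16331568)))) (a (a (b (b (l 16458104) (l 16367760)) (a (b (l 16454608) (a (l 16488168) (l 16502328))) (l 16509456))) (b (l 16452096) (b (l 16456688) (l 16462080)))) (a (b (l 16386144) (a (l 16402312) (l 16360624))) (b (l 16309160) (l 16334736))))) (a (a (b (b (l 16296696) (l 16255168)) (b (l 16222000) (l 16235136))) (b (b (l 1) (l 1)) (l 1)))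 (l 1))), by decide +kernel⟩

def k1_pm_022 : ∃ t, chk3 f_pm_022 t 2 3 1 = true :=
  ⟨(b (a (a (a (a (b (b (a (b (l 16503608) (l 16514080)) (l 16523000)) (a (b (l 16524888) (a (l 16532776) (l 16539920))) (l 16544792))) (b (c (a (a (b (l 16546224) (l 16580224)) (l 16580392)) (l 16569200)) (a (a (b (l 16543952) (l 16557224)) (l 16579344)) (l 16569792))) (b (a (a (b (l 16578968) (a (l 16573736) (l 16577344))) (l 16579216)) (l 16589816)) (a (a (a (b (l 16580984) (l 16588440)) (l 16588352)) (l 16593744)) (l 16604376))))) (a (b (l 16609168) (b (l 16576120) (l 16599000))) (b (l 16527552) (b (l 16554704) (l 16575552))))) (b (b (l 16470960) (a (l 16504960) (l 16460840))) (b (a (l 16541880) (l 16472944)) (a (l 16580624) (l 16486544))))) (b (b (a (l 16383616) (l 16284448)) (a (l 16388648) (l 16281928))) (a (b (a (l 16421712) (l 16367312)) (a (l 16431056) (l 16372320))) (b (l 16321880) (l 1))))) (l 1)) (a (a (b (b (a (a (b (a (a (b (a (l 16596152) (l 16599784))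 (a (c (l 16605056) (l 16603320)) (l 16607800))) (l 16630152)) (l 16619848)) (a (a (b (b (l 16612344) (l 6)) (l 6)) (l 16647416)) (l 16637160))) (b (l 16605104) (l 16616632))) (a (b (l 16553152) (l 16562368)) (b (l 16497672) (l 16504528)))) (a (l 6) (a (l 6) (b (l 16509880) (l 16534928))))) (a (l 6) (a (l 6) (l 1)))) (b (a (b (a (b (l 16438768) (l 16443232)) (l 1)) (l 1)) (l 1)) (l 1))) (l 1))), by decide +kernel⟩

def k2_pm_022 : ∃ t, chk3 f_pm_022 t 3 1 1 = true :=
  ⟨(l 1), by decide +kernel⟩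

theorem s3_pm_022 : ∃ t, chk3 f_pm_022 t 2 1 1 = true := ex3_b k0_pm_022 k1_pm_022

theorem s4_pm_022 : ∃ t, chk3 f_pm_022 t 1 1 1 = true := ex3_a s3_pm_022 k2_pm_022

theorem c_pm_022 : CertB 0 536870912 0 536870912 780900216 37827925 3 eng mog cd2q0 cd0q2 pd2 false true false .pp 0 2 2
    ndB2q0 ndB0q2 pcB2 cut_pm_022 Ext.none :=
  certB0 (fam := false) (s1 := true) (s2 := false) (a := 0) (b := 2) (c := 2) (cn := .pp) (n1 := ndB2q0) (n2 := ndB0q2) (pc := pcB2) (cut := cut_pm_022) (xt := Ext.none) (P1 := 0) (W1 := 536870912) (P2 := 0) (W2 := 536870912) (P3 := 780900216) (W3 := 37827925) (N0 := 3) (En := eng) (mo := mog) (C1 := cd2q0) (C2 := cd0q2) (C3 := pd2)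
    rfl s4_pm_022

noncomputable def f_pm_101 : ℕ → ℕ → ℕ → ℕ → Bool := onCell 0 536870912 536870912 536870912 780900216 37827925
    (rowB 3 eng mog cd2q1 cd0q1 pd0 2 false true false .npn 1 0 1 (qsf 536870912 536870912 536870912 536870912 0) ndB2q1 ndB0q1 pcB0 Cut.none Ext.none)

def k0_pm_101 : ∃ t, chk3 f_pm_101 t 1 1 1 = true :=
  ⟨(a (b (l 4) (b (a (a (b (l 4) (a (b (l 4) (l 15799776)) (l 4))) (l 4)) (l 4)) (a (b (a (b (a (l 15733680) (l 15754240)) (a (l 15721368) (l 15720640))) (b (a (l 15775752) (l 15837768)) (a (l 15724800) (l 15781160)))) (a (b (a (a (l 15807920) (l 15737224)) (b (l 15718512) (l 15726584))) (a (b (a (a (l 15784040) (l 15777432)) (l 15766160)) (a (b (a (a (l 15809672) (l 15805656)) (l 15798920)) (a (b (l 15822176) (l 15828128)) (b (l 15809496) (l 15822520)))) (b (l 15782648) (l 15810208)))) (b (l 15758792) (a (l 16006048) (l 15803344))))) (b (a (l 15731488) (l 15777728)) (a (a (l 15975888) (l 15798536)) (l 15815184)))))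 (b (a (b (l 15925304) (a (l 15831888) (l 15881280))) (b (l 4) (l 15953608))) (a (b (l 15838216) (a (l 15840248) (l 15867136))) (b (l 15914576) (l 15909568))))))) (b (l 4) (b (l 4) (a (b (a (b (l 4) (l 16103216)) (l 4)) (a (b (l 15987632) (l 15968448)) (b (l 16159752) (l 16021208)))) (b (l 4) (a (b (l 16114824) (l 16068960)) (b (l 4) (l 16239040)))))))), by decide +kernel⟩

theorem c_pm_101 : CertB 536870912 536870912 536870912 536870912 780900216 37827925 3 eng mog cd2q1 cd0q1 pd0 false true false .npn 1 0 1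
    ndB2q1 ndB0q1 pcB0 Cut.none Ext.none :=
  certB2 (fam := false) (s1 := true) (s2 := false) (a := 1) (b := 0) (c := 1) (cn := .npn) (n1 := ndB2q1) (n2 := ndB0q1) (pc := pcB0) (cut := Cut.none) (xt := Ext.none) (P1 := 536870912) (W1 := 536870912) (P2 := 536870912) (W2 := 536870912) (P3 := 780900216) (W3 := 37827925) (N0 := 3) (En := eng) (mo := mog) (C1 := cd2q1) (C2 := cd0q1) (C3 := pd0)
    rfl (fun _ => rfl) k0_pm_101

noncomputable def f_pm_102 : ℕ → ℕ → ℕ → ℕ → Bool := onCell 536870912 536870912 0 536870912 780900216 37827925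
    (rowB 3 eng mog cd2q1 cd0q2 pd0 0 false true false .npp 1 0 2 (qsf 536870912 536870912 0 536870912 0) ndB2q1 ndB0q2 pcB0 Cut.none Ext.none)

def k0_pm_102 : ∃ t, chk3 f_pm_102 t 2 1 1 = true :=
  ⟨(b (b (a (l 2) (b (a (l 16393632) (l 16383584)) (l 16346320))) (a (b (l 2) (l 16281576)) (a (l 16285928) (l 16292280)))) (a (b (a (l 2) (b (l 16221072) (l 16180112))) (b (a (b (l 16178824) (l 16156744)) (l 16193544)) (a (b (l 16128504) (l 16105056)) (b (l 16094840) (l 16068136))))) (b (b (a (l 16217728) (l 16236784)) (a (l 16173960) (l 16187792))) (b (a (b (l 16131536) (l 16102616)) (b (l 16134776) (a (l 16096960) (l 16091672)))) (a (b (l 16070816) (l 16032704)) (b (l 16048264) (l 15994656))))))), by decide +kernel⟩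

def k1_pm_102 : ∃ t, chk3 f_pm_102 t 3 2 1 = true :=
  ⟨(a (b (a (b (l 16377416) (l 16347256)) (b (b (l 16382672) (l 16369056)) (l 16351832))) (a (b (l 16319776) (l 16297096)) (b (a (l 16331896) (l 16333384)) (a (l 16316984) (l 16315264))))) (a (b (a (b (l 16376040) (l 16351344)) (b (b (l 16387888) (l 16372296)) (l 16352224))) (b (a (l 16328768) (a (l 16323856) (l 16322056))) (a (b (l 16310640) (l 16296616)) (b (l 16344224) (a (l 16288448) (l 16289240)))))) (b (b (a (b (a (l 16393248) (l 16399432)) (l 16379592)) (b (a (l 16404696) (a (l 16409200) (l 16412816))) (l 16391136))) (a (b (l 16365176) (l 16348024)) (b (a (l 16372664) (l 16378168)) (l 16357704)))) (b (a (l 16324936) (b (l 16339792) (l 16323576))) (a (l 16298880) (b (l 16309504) (l 16297520))))))), by decide +kernel⟩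

def k2_pm_102 : ∃ t, chk3 f_pm_102 t 3 3 1 = true :=
  ⟨(a (b (a (b (a (l 16263416) (b (l 16292960) (l 16273296))) (a (b (l 16223416) (l 16185400)) (b (l 16233248) (l 16184544)))) (b (a (b (l 16301880) (l 16272904)) (b (l 16293824) (l 16259176))) (a (b (l 16225688) (l 16173480)) (b (l 16210464) (l 16160976))))) (b (a (b (a (l 16137400) (l 16128288)) (a (l 16082184) (l 16067776))) (a (b (l 16115800) (l 16055840)) (b (l 16107152) (l 16048032)))) (a (b (l 16017280) (l 15950776)) (a (l 15959704) (b (l 15987128) (l 15906416)))))) (b (a (b (a (b (a (l 16282072) (l 16274128)) (a (l 16244608) (l 16240352))) (b (l 16273312) (l 16240216))) (a (b (a (l 16201472) (l 16199976)) (l 16155048)) (l 16240024))) (b (a (b (b (l 16282520) (l 16269720)) (l 16239968)) (b (b (l 16287160) (l 16271208)) (l 16238656))) (a (b (l 16197096) (l 16149552)) (b (l 16192704) (a (l 16144888) (l 16140760)))))) (b (a (b (a (l 16102936) (l 16100448)) (a (l 16046552) (l 16044152))) (a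 (b (l 16096608) (l 16041568)) (b (a (l 16091392) (l 16086240)) (a (l 16037264) (l 16032016))))) (a (a (b (l 15983120) (l 15895168)) (b (b (l 15998152) (l 15958112)) (l 15889144))) (b (a (b (a (l 15996480) (l 15995144)) (l 15958984)) (a (b (l 15993208) (l 15959536)) (b (l 15989976) (a (l 15959232) (l 15957856))))) (a (b (l 15913632) (l 15861800)) (a (b (l 15915312) (b (l 15877744) (l 15849392))) (b (a (l 15915008) (l 15913104)) (a (b (l 15878976) (l 15851992)) (b (l 15877704) (l 15853368))))))))))), by decide +kernel⟩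

theorem s3_pm_102 : ∃ t, chk3 f_pm_102 t 3 1 1 = true := ex3_b k1_pm_102 k2_pm_102

theorem s4_pm_102 : ∃ t, chk3 f_pm_102 t 1 1 1 = true := ex3_a k0_pm_102 s3_pm_102

theorem c_pm_102 : CertB 536870912 536870912 0 536870912 780900216 37827925 3 eng mog cd2q1 cd0q2 pd0 false true false .npp 1 0 2
    ndB2q1 ndB0q2 pcB0 Cut.none Ext.none :=
  certB0 (fam := false) (s1 := true) (s2 := false) (a := 1) (b := 0) (c := 2) (cn := .npp) (n1 := ndB2q1) (n2 := ndB0q2) (pc := pcB0) (cut := Cut.none) (xt := Ext.none) (P1 := 536870912) (W1 := 536870912) (P2 := 0) (W2 := 536870912) (P3 := 780900216) (W3 := 37827925) (N0 := 3) (En := eng) (mo := mog) (C1 := cd2q1) (C2 := cd0q2) (C3 := pd0)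
    rfl s4_pm_102

noncomputable def f_pm_112 : ℕ → ℕ → ℕ → ℕ → Bool := onCell 536870912 536870912 0 536870912 780900216 37827925
    (rowB 3 eng mog cd2q1 cd0q2 pd1 2 false true false .dn 1 1 2 (qsf 536870912 536870912 0 536870912 1) ndB2q1 ndB0q2 pcB1 Cut.none Ext.none)

def k0_pm_112 : ∃ t, chk3 f_pm_112 t 1 1 1 = true :=
  ⟨(a (b (b (a (b (l 16558200) (l 16284312)) (l 119218341111)) (a (b (l 16245160) (l 16207872)) (a (l 16188824) (l 1)))) (b (a (a (b (l 16172296) (l 16144296)) (b (l 16166208) (l 16139592))) (l 1)) (a (b (a (l 16122488) (l 16121424)) (a (l 16117664) (l 1))) (l 1)))) (l 1)), by decide +kernel⟩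

theorem c_pm_112 : CertB 536870912 536870912 0 536870912 780900216 37827925 3 eng mog cd2q1 cd0q2 pd1 false true false .dn 1 1 2
    ndB2q1 ndB0q2 pcB1 Cut.none Ext.none :=
  certB2 (fam := false) (s1 := true) (s2 := false) (a := 1) (b := 1) (c := 2) (cn := .dn) (n1 := ndB2q1) (n2 := ndB0q2) (pc := pcB1) (cut := Cut.none) (xt := Ext.none) (P1 := 536870912) (W1 := 536870912) (P2 := 0) (W2 := 536870912) (P3 := 780900216) (W3 := 37827925) (N0 := 3) (En := eng) (mo := mog) (C1 := cd2q1) (C2 := cd0q2) (C3 := pd1)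
    rfl (fun _ => rfl) k0_pm_112

noncomputable def cut_pm_202_a : Cut := Cut.of [[⟨0, 1, 0, 67108864⟩, ⟨1, 0, 0, 67108864⟩, ⟨2, 1, 0, 67108864⟩]]

noncomputable def f_pm_202_a : ℕ → ℕ → ℕ → ℕ → Bool := onCell 0 536870912 0 536870912 780900216 37827925
    (rowB 3 eng mog cd2q2a cd0q2 pd0 0 false true false .pp 2 0 2 (qsf 0 536870912 0 536870912 0) ndB2q2a ndB0q2 pcB0 cut_pm_202_a Ext.none)

def k0_pm_202_a : ∃ t, chk3 f_pm_202_a t 1 1 1 = true :=
  ⟨(a (l 3) (b (l 3) (b (l 3) (a (l 3) (b (l 3) (a (l 3) (l 6))))))), by decide +kernel⟩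

theorem c_pm_202_a : CertB 0 536870912 0 536870912 780900216 37827925 3 eng mog cd2q2a cd0q2 pd0 false true false .pp 2 0 2
    ndB2q2a ndB0q2 pcB0 cut_pm_202_a Ext.none :=
  certB0 (fam := false) (s1 := true) (s2 := false) (a := 2) (b := 0) (c := 2) (cn := .pp) (n1 := ndB2q2a) (n2 := ndB0q2) (pc := pcB0) (cut := cut_pm_202_a) (xt := Ext.none) (P1 := 0) (W1 := 536870912) (P2 := 0) (W2 := 536870912) (P3 := 780900216) (W3 := 37827925) (N0 := 3) (En := eng) (mo := mog) (C1 := cd2q2a) (C2 := cd0q2) (C3 := pd0)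
    rfl k0_pm_202_a

noncomputable def cut_pm_202_b : Cut := Cut.of [[⟨0, 1, 0, 67108864⟩, ⟨1, 0, 0, 67108864⟩, ⟨2, 1, 0, 67108864⟩]]

noncomputable def f_pm_202_b : ℕ → ℕ → ℕ → ℕ → Bool := onCell 1239849684 370763052 0 536870912 780900216 37827925
    (rowB 3 eng mog cd2q2b cd0q2 pd0 0 false true false .pp 2 0 2 (qsf 1239849684 370763052 0 536870912 0) ndB2q2b ndB0q2 pcB0 cut_pm_202_b Ext.none)

def k0_pm_202_b : ∃ t, chk3 f_pm_202_b t 1 1 1 = true :=
  ⟨(l 3), by decide +kernel⟩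

theorem c_pm_202_b : CertB 1239849684 370763052 0 536870912 780900216 37827925 3 eng mog cd2q2b cd0q2 pd0 false true false .pp 2 0 2
    ndB2q2b ndB0q2 pcB0 cut_pm_202_b Ext.none :=
  certB0 (fam := false) (s1 := true) (s2 := false) (a := 2) (b := 0) (c := 2) (cn := .pp) (n1 := ndB2q2b) (n2 := ndB0q2) (pc := pcB0) (cut := cut_pm_202_b) (xt := Ext.none) (P1 := 1239849684) (W1 := 370763052) (P2 := 0) (W2 := 536870912) (P3 := 780900216) (W3 := 37827925) (N0 := 3) (En := eng) (mo := mog) (C1 := cd2q2b) (C2 := cd0q2) (C3 := pd0)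
    rfl k0_pm_202_b

noncomputable def f_mm_001 : ℕ → ℕ → ℕ → ℕ → Bool := onCell 0 536870912 536870912 536870912 780900216 37827925
    (rowB 3 eng mog cd2q0 cd0q1 pd0 0 false false false .up 0 0 1 (qsf 0 536870912 536870912 536870912 0) ndB2q0 ndB0q1 pcB0 Cut.none Ext.none)

def k0_mm_001 : ∃ t, chk3 f_mm_001 t 1 1 1 = true :=
  ⟨(l 5), by decide +kernel⟩

theorem c_mm_001 : CertB 0 536870912 536870912 536870912 780900216 37827925 3 eng mog cd2q0 cd0q1 pd0 false false false .up 0 0 1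
    ndB2q0 ndB0q1 pcB0 Cut.none Ext.none :=
  certB0 (fam := false) (s1 := false) (s2 := false) (a := 0) (b := 0) (c := 1) (cn := .up) (n1 := ndB2q0) (n2 := ndB0q1) (pc := pcB0) (cut := Cut.none) (xt := Ext.none) (P1 := 0) (W1 := 536870912) (P2 := 536870912) (W2 := 536870912) (P3 := 780900216) (W3 := 37827925) (N0 := 3) (En := eng) (mo := mog) (C1 := cd2q0) (C2 := cd0q1) (C3 := pd0)
    rfl k0_mm_001

noncomputable def f_mm_011 : ℕ → ℕ → ℕ → ℕ → Bool := onCell 0 536870912 536870912 536870912 780900216 37827925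
    (rowB 3 eng mog cd2q0 cd0q1 pd1 0 false false false .pnn 0 1 1 (qsf 0 536870912 536870912 536870912 1) ndB2q0 ndB0q1 pcB1 Cut.none Ext.none)

def k0_mm_011 : ∃ t, chk3 f_mm_011 t 1 1 1 = true :=
  ⟨(l 5), by decide +kernel⟩

theorem c_mm_011 : CertB 0 536870912 536870912 536870912 780900216 37827925 3 eng mog cd2q0 cd0q1 pd1 false false false .pnn 0 1 1
    ndB2q0 ndB0q1 pcB1 Cut.none Ext.none :=
  certB0 (fam := false) (s1 := false) (s2 := false) (a := 0) (b := 1) (c := 1) (cn := .pnn) (n1 := ndB2q0) (n2 := ndB0q1) (pc := pcB1) (cut := Cut.none) (xt := Ext.none) (P1 := 0) (W1 := 536870912) (P2 := 536870912) (W2 := 536870912) (P3 := 780900216) (W3 := 37827925) (N0 := 3) (En := eng) (mo := mog) (C1 := cd2q0) (C2 := cd0q1) (C3 := pd1)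
    rfl k0_mm_011

noncomputable def f_mm_012 : ℕ → ℕ → ℕ → ℕ → Bool := onCell 0 536870912 0 536870912 780900216 37827925
    (rowB 3 eng mog cd2q0 cd0q2 pd1 0 false false false .pnp 0 1 2 (qsf 0 536870912 0 536870912 1) ndB2q0 ndB0q2 pcB1 Cut.none Ext.none)

def k0_mm_012 : ∃ t, chk3 f_mm_012 t 1 1 1 = true :=
  ⟨(l 5), by decide +kernel⟩

theorem c_mm_012 : CertB 0 536870912 0 536870912 780900216 37827925 3 eng mog cd2q0 cd0q2 pd1 false false false .pnp 0 1 2
    ndB2q0 ndB0q2 pcB1 Cut.none Ext.none :=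
  certB0 (fam := false) (s1 := false) (s2 := false) (a := 0) (b := 1) (c := 2) (cn := .pnp) (n1 := ndB2q0) (n2 := ndB0q2) (pc := pcB1) (cut := Cut.none) (xt := Ext.none) (P1 := 0) (W1 := 536870912) (P2 := 0) (W2 := 536870912) (P3 := 780900216) (W3 := 37827925) (N0 := 3) (En := eng) (mo := mog) (C1 := cd2q0) (C2 := cd0q2) (C3 := pd1)
    rfl k0_mm_012

noncomputable def f_mm_022 : ℕ → ℕ → ℕ → ℕ → Bool := onCell 0 536870912 0 536870912 780900216 37827925
    (rowB 3 eng mog cd2q0 cd0q2 pd2 0 false false false .pp 0 2 2 (qsf 0 536870912 0 536870912 2) ndB2q0 ndB0q2 pcB2 Cut.none Ext.none)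

def k0_mm_022 : ∃ t, chk3 f_mm_022 t 1 1 1 = true :=
  ⟨(l 5), by decide +kernel⟩

theorem c_mm_022 : CertB 0 536870912 0 536870912 780900216 37827925 3 eng mog cd2q0 cd0q2 pd2 false false false .pp 0 2 2
    ndB2q0 ndB0q2 pcB2 Cut.none Ext.none :=
  certB0 (fam := false) (s1 := false) (s2 := false) (a := 0) (b := 2) (c := 2) (cn := .pp) (n1 := ndB2q0) (n2 := ndB0q2) (pc := pcB2) (cut := Cut.none) (xt := Ext.none) (P1 := 0) (W1 := 536870912) (P2 := 0) (W2 := 536870912) (P3 := 780900216) (W3 := 37827925) (N0 := 3) (En := eng) (mo := mog) (C1 := cd2q0) (C2 := cd0q2) (C3 := pd2)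
    rfl k0_mm_022

noncomputable def f_mm_101 : ℕ → ℕ → ℕ → ℕ → Bool := onCell 536870912 536870912 536870912 536870912 780900216 37827925
    (rowB 3 eng mog cd2q1 cd0q1 pd0 0 false false false .npn 1 0 1 (qsf 536870912 536870912 536870912 536870912 0) ndB2q1 ndB0q1 pcB0 Cut.none Ext.none)

def k0_mm_101 : ∃ t, chk3 f_mm_101 t 1 1 1 = true :=
  ⟨(l 3), by decide +kernel⟩

theorem c_mm_101 : CertB 536870912 536870912 536870912 536870912 780900216 37827925 3 eng mog cd2q1 cd0q1 pd0 false false false .npn 1 0 1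
    ndB2q1 ndB0q1 pcB0 Cut.none Ext.none :=
  certB0 (fam := false) (s1 := false) (s2 := false) (a := 1) (b := 0) (c := 1) (cn := .npn) (n1 := ndB2q1) (n2 := ndB0q1) (pc := pcB0) (cut := Cut.none) (xt := Ext.none) (P1 := 536870912) (W1 := 536870912) (P2 := 536870912) (W2 := 536870912) (P3 := 780900216) (W3 := 37827925) (N0 := 3) (En := eng) (mo := mog) (C1 := cd2q1) (C2 := cd0q1) (C3 := pd0)
    rfl k0_mm_101

noncomputable def f_mm_102 : ℕ → ℕ → ℕ → ℕ → Bool := onCell 536870912 536870912 0 536870912 780900216 37827925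
    (rowB 3 eng mog cd2q1 cd0q2 pd0 0 false false false .npp 1 0 2 (qsf 536870912 536870912 0 536870912 0) ndB2q1 ndB0q2 pcB0 Cut.none Ext.none)

def k0_mm_102 : ∃ t, chk3 f_mm_102 t 1 1 1 = true :=
  ⟨(l 5), by decide +kernel⟩

theorem c_mm_102 : CertB 536870912 536870912 0 536870912 780900216 37827925 3 eng mog cd2q1 cd0q2 pd0 false false false .npp 1 0 2
    ndB2q1 ndB0q2 pcB0 Cut.none Ext.none :=
  certB0 (fam := false) (s1 := false) (s2 := false) (a := 1) (b := 0) (c := 2) (cn := .npp) (n1 := ndB2q1) (n2 := ndB0q2) (pc := pcB0) (cut := Cut.none) (xt := Ext.none) (P1 := 536870912) (W1 := 536870912) (P2 := 0) (W2 := 536870912) (P3 := 780900216) (W3 := 37827925) (N0 := 3) (En := eng) (mo := mog) (C1 := cd2q1) (C2 := cd0q2) (C3 := pd0)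
    rfl k0_mm_102

noncomputable def f_mm_112 : ℕ → ℕ → ℕ → ℕ → Bool := onCell 536870912 536870912 0 536870912 780900216 37827925
    (rowB 3 eng mog cd2q1 cd0q2 pd1 0 false false false .dn 1 1 2 (qsf 536870912 536870912 0 536870912 1) ndB2q1 ndB0q2 pcB1 Cut.none Ext.none)

def k0_mm_112 : ∃ t, chk3 f_mm_112 t 1 1 1 = true :=
  ⟨(l 5), by decide +kernel⟩

theorem c_mm_112 : CertB 536870912 536870912 0 536870912 780900216 37827925 3 eng mog cd2q1 cd0q2 pd1 false false false .dn 1 1 2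
    ndB2q1 ndB0q2 pcB1 Cut.none Ext.none :=
  certB0 (fam := false) (s1 := false) (s2 := false) (a := 1) (b := 1) (c := 2) (cn := .dn) (n1 := ndB2q1) (n2 := ndB0q2) (pc := pcB1) (cut := Cut.none) (xt := Ext.none) (P1 := 536870912) (W1 := 536870912) (P2 := 0) (W2 := 536870912) (P3 := 780900216) (W3 := 37827925) (N0 := 3) (En := eng) (mo := mog) (C1 := cd2q1) (C2 := cd0q2) (C3 := pd1)
    rfl k0_mm_112

noncomputable def f_mm_202_a : ℕ → ℕ → ℕ → ℕ → Bool := onCell 0 536870912 0 536870912 780900216 37827925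
    (rowB 3 eng mog cd2q2a cd0q2 pd0 0 false false false .pp 2 0 2 (qsf 0 536870912 0 536870912 0) ndB2q2a ndB0q2 pcB0 Cut.none Ext.none)

def k0_mm_202_a : ∃ t, chk3 f_mm_202_a t 1 1 1 = true :=
  ⟨(l 3), by decide +kernel⟩

theorem c_mm_202_a : CertB 0 536870912 0 536870912 780900216 37827925 3 eng mog cd2q2a cd0q2 pd0 false false false .pp 2 0 2
    ndB2q2a ndB0q2 pcB0 Cut.none Ext.none :=
  certB0 (fam := false) (s1 := false) (s2 := false) (a := 2) (b := 0) (c := 2) (cn := .pp) (n1 := ndB2q2a) (n2 := ndB0q2) (pc := pcB0) (cut := Cut.none) (xt := Ext.none) (P1 := 0) (W1 := 536870912) (P2 := 0) (W2 := 536870912) (P3 := 780900216) (W3 := 37827925) (N0 := 3) (En := eng) (mo := mog) (C1 := cd2q2a) (C2 := cd0q2) (C3 := pd0)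
    rfl k0_mm_202_a

noncomputable def f_mm_202_b : ℕ → ℕ → ℕ → ℕ → Bool := onCell 1239849684 370763052 0 536870912 780900216 37827925
    (rowB 3 eng mog cd2q2b cd0q2 pd0 0 false false false .pp 2 0 2 (qsf 1239849684 370763052 0 536870912 0) ndB2q2b ndB0q2 pcB0 Cut.none Ext.none)

def k0_mm_202_b : ∃ t, chk3 f_mm_202_b t 1 1 1 = true :=
  ⟨(l 3), by decide +kernel⟩

theorem c_mm_202_b : CertB 1239849684 370763052 0 536870912 780900216 37827925 3 eng mog cd2q2b cd0q2 pd0 false false false .pp 2 0 2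
    ndB2q2b ndB0q2 pcB0 Cut.none Ext.none :=
  certB0 (fam := false) (s1 := false) (s2 := false) (a := 2) (b := 0) (c := 2) (cn := .pp) (n1 := ndB2q2b) (n2 := ndB0q2) (pc := pcB0) (cut := Cut.none) (xt := Ext.none) (P1 := 1239849684) (W1 := 370763052) (P2 := 0) (W2 := 536870912) (P3 := 780900216) (W3 := 37827925) (N0 := 3) (En := eng) (mo := mog) (C1 := cd2q2b) (C2 := cd0q2) (C3 := pd0)
    rfl k0_mm_202_b

end Pool.Agent.Strip051.G.I72727_7625.Tab.C.BB20

namespace Pool.Agent.Strip051.G.I72727_7625.Tab.C.BB21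

open Pool.Agent.Strip051.PB Pool.Agent.Strip051.PB.T
open Pool.Agent.Strip051.G.I72727_7625.Tab

noncomputable def f_pp_001 : ℕ → ℕ → ℕ → ℕ → Bool := onCell 0 536870912 0 536870912 780900216 37827925
    (rowB 3 eng mog cd2q0 cd1q1 pd0 1 false true true .up 0 0 1 (qsf 0 536870912 536870912 536870912 0) ndB2q0 ndB1q1 pcB0 Cut.none Ext.none)

def k0_pp_001 : ∃ t, chk3 f_pp_001 t 1 1 1 = true :=
  ⟨(l 3), by decide +kernel⟩

theorem c_pp_001 : CertB 0 536870912 536870912 536870912 780900216 37827925 3 eng mog cd2q0 cd1q1 pd0 false true true .up 0 0 1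
    ndB2q0 ndB1q1 pcB0 Cut.none Ext.none :=
  certB1 (fam := false) (s1 := true) (s2 := true) (a := 0) (b := 0) (c := 1) (cn := .up) (n1 := ndB2q0) (n2 := ndB1q1) (pc := pcB0) (cut := Cut.none) (xt := Ext.none) (P1 := 0) (W1 := 536870912) (P2 := 536870912) (W2 := 536870912) (P3 := 780900216) (W3 := 37827925) (N0 := 3) (En := eng) (mo := mog) (C1 := cd2q0) (C2 := cd1q1) (C3 := pd0)
    rfl (fun _ => rfl) k0_pp_001

noncomputable def f_pp_011 : ℕ → ℕ → ℕ → ℕ → Bool := onCell 0 536870912 536870912 536870912 780900216 37827925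
    (rowB 3 eng mog cd2q0 cd1q1 pd1 0 false true true .pnn 0 1 1 (qsf 0 536870912 536870912 536870912 1) ndB2q0 ndB1q1 pcB1 Cut.none Ext.none)

def k0_pp_011 : ∃ t, chk3 f_pp_011 t 1 1 1 = true :=
  ⟨(a (l 3) (l 3)), by decide +kernel⟩

theorem c_pp_011 : CertB 0 536870912 536870912 536870912 780900216 37827925 3 eng mog cd2q0 cd1q1 pd1 false true true .pnn 0 1 1
    ndB2q0 ndB1q1 pcB1 Cut.none Ext.none :=
  certB0 (fam := false) (s1 := true) (s2 := true) (a := 0) (b := 1) (c := 1) (cn := .pnn) (n1 := ndB2q0) (n2 := ndB1q1) (pc := pcB1) (cut := Cut.none) (xt := Ext.none) (P1 := 0) (W1 := 536870912) (P2 := 536870912) (W2 := 536870912) (P3 := 780900216) (W3 := 37827925) (N0 := 3) (En := eng) (mo := mog) (C1 := cd2q0) (C2 := cd1q1) (C3 := pd1)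
    rfl k0_pp_011

noncomputable def cut_pp_012_a : Cut := Cut.of [[⟨0, 0, 0, 67108864⟩, ⟨1, 1, 0, 67108864⟩, ⟨2, 1, 0, 67108864⟩]]

noncomputable def f_pp_012_a : ℕ → ℕ → ℕ → ℕ → Bool := onCell 536870912 536870912 0 536870912 780900216 37827925
    (rowB 3 eng mog cd2q0 cd1q2a pd1 2 false true true .pnp 0 1 2 (qsf 0 536870912 0 536870912 1) ndB2q0 ndB1q2a pcB1 cut_pp_012_a Ext.none)

def k0_pp_012_a : ∃ t, chk3 f_pp_012_a t 2 1 1 = true :=
  ⟨(a (b (b (l 2) (a (l 2) (b (l 2) (a (l 2) (l 16551632))))) (b (a (l 2) (b (b (l 215452585159) (l 3)) (l 3))) (l 3))) (b (a (b (b (l 16485064) (l 16521992)) (b (a (l 16553288) (l 16545928)) (a (l 16557584) (l 16562976)))) (b (l 16479920) (b (l 16685048) (a (l 16566832) (l 16569448))))) (b (a (b (a (l 173039855559) (a (l 148880671703) (l 16510928))) (l 3)) (a (b (l 97341053831) (l 238537939431)) (b (l 16556576) (a (l 228874302551) (l 218673886727))))) (l 3)))), by decide +kernel⟩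

def k1_pp_012_a : ∃ t, chk3 f_pp_012_a t 6 1 1 = true :=
  ⟨(b (b (a (l 16459664) (l 16440880)) (b (a (l 16526600) (l 16510824)) (a (a (l 16569856) (l 16569488)) (a (l 16567808) (l 16563744))))) (b (a (b (a (l 16585512) (l 16605768)) (b (a (l 16550392) (l 16572336)) (a (l 299741393703) (b (l 16600936) (l 191293506263))))) (b (a (l 16615752) (l 16617664)) (a (b (l 16617608) (l 16624504)) (b (l 16650672) (l 16638744))))) (b (a (a (l 3) (b (a (l 284172238295) (l 285782871703)) (l 3))) (a (b (b (a (l 16636640) (l 16659392)) (a (l 242833236919) (l 243906979223))) (l 3)) (b (a (b (l 16661544) (l 16686864)) (l 16676288)) (b (a (l 258939429959) (l 241759547607)) (l 276119336455))))) (l 3)))), by decide +kernel⟩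

def k2_pp_012_a : ∃ t, chk3 f_pp_012_a t 7 1 1 = true :=
  ⟨(b (a (b (a (l 16427824) (l 16420576)) (b (l 16495096) (a (l 16557280) (l 16550688)))) (b (a (l 16415512) (b (l 16391800) (l 16432784))) (a (b (l 16486640) (l 16545912)) (b (l 16483280) (l 16540424))))) (a (b (b (a (l 16657024) (b (l 16597800) (l 16626440))) (a (b (l 16656744) (l 16679504)) (b (l 16653592) (l 16680064)))) (b (b (a (a (l 16679976) (l 16684840)) (a (l 16700232) (l 16701656))) (a (b (a (l 16716504) (l 16713432)) (a (l 245517714775) (l 16736432))) (a (b (l 16708024) (l 16727616)) (l 16693344)))) (b (a (b (a (l 3) (l 285783064407)) (l 3)) (b (a (a (l 279877447767) (l 16731648)) (l 16725984)) (a (l 292762412871) (a (l 283098720151) (l 275582498295))))) (l 3)))) (b (a (b (b (l 16593176) (l 16623256)) (b (l 16647888) (l 16670776))) (b (l 16600904) (a (l 16592808) (l 16675872)))) (b (a (b (a (l 16696888) (l 16692000)) (a (l 16724512) (l 16721288))) (a (b (l 16687496) (b (l 16708128)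 (l 16723144))) (b (b (l 16678128) (l 16689336)) (a (l 16711720) (l 16688296))))) (a (b (a (b (l 16738432) (a (b (l 16753584) (l 253570843815)) (l 16777768))) (b (l 16742640) (a (l 16755304) (l 16753816)))) (b (a (b (a (l 3) (l 277730024007)) (l 3)) (b (a (l 194515057575) (l 6)) (l 6))) (l 3))) (b (a (b (l 16738432) (l 6)) (l 6)) (l 6))))))), by decide +kernel⟩

theorem s3_pp_012_a : ∃ t, chk3 f_pp_012_a t 3 1 1 = true := ex3_a k1_pp_012_a k2_pp_012_a

theorem s4_pp_012_a : ∃ t, chk3 f_pp_012_a t 1 1 1 = true := ex3_a k0_pp_012_a s3_pp_012_a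

theorem c_pp_012_a : CertB 0 536870912 0 536870912 780900216 37827925 3 eng mog cd2q0 cd1q2a pd1 false true true .pnp 0 1 2
    ndB2q0 ndB1q2a pcB1 cut_pp_012_a Ext.none :=
  certB2 (fam := false) (s1 := true) (s2 := true) (a := 0) (b := 1) (c := 2) (cn := .pnp) (n1 := ndB2q0) (n2 := ndB1q2a) (pc := pcB1) (cut := cut_pp_012_a) (xt := Ext.none) (P1 := 0) (W1 := 536870912) (P2 := 0) (W2 := 536870912) (P3 := 780900216) (W3 := 37827925) (N0 := 3) (En := eng) (mo := mog) (C1 := cd2q0) (C2 := cd1q2a) (C3 := pd1)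
    rfl (fun _ => rfl) s4_pp_012_a

end Pool.Agent.Strip051.G.I72727_7625.Tab.C.BB21

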