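import Pool.Agent.Strip051.G.I72727_7625.AsmH
import Pool.Agent.Strip051.PB.GlueD2I
import Pool.Agent.Strip051.PB.MolR
import Pool.Agent.Strip051.PB.Link

/-! # Rows from certificates (generated) -/

set_option linter.all false
set_option maxRecDepth 100000

namespace Pool.Agent.Strip051.G.I72727_7625.Tab

open Pool.Agent.Strip051.PB Pool.Agent.StripNear Pool.Agent.Strip051.LC


theorem okD0 : DParOk (⟨4, 1, 1, 5, 5, 2, 24, 25, 43, 100, 1, 8⟩ : DPn).r :=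
  DPn.ok (by decide) (by decide) (by decide) (by decide) (by decide)

theorem dC0 {x : ℝ} (hx : ((780900216 : ℕ) : ℝ) / S ≤ x) (hx' : x ≤ (((780900216 : ℕ) : ℝ) + (37827925 : ℕ)) / S) :
    DC2 (⟨4, 1, 1, 5, 5, 2, 24, 25, 43, 100, 1, 8⟩ : DPn).r.th (⟨4, 1, 1, 5, 5, 2, 24, 25, 43, 100, 1, 8⟩ : DPn).r.K (4873 / 10000) (⟨4, 1, 1, 5, 5, 2, 24, 25, 43, 100, 1, 8⟩ : DPn).r.A x := by
  have h : (97612527 / 134217728 : ℝ) ≤ x := by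
    rw [S_num] at hx
    norm_num at hx ⊢
    linarith
  have h' : x ≤ (818728141 / 1073741824 : ℝ) := by
    rw [S_num] at hx'
    norm_num at hx' ⊢
    linarith
  refine DC2.intv (xa := 97612527 / 134217728) (xb := 818728141 / 1073741824) ?_ ?_ ?_ ?_ ?_ ?_ ?_ ?_ ?_ ?_ ?_ ?_ h h' <;> norm_num [DPn.r]

theorem dN0 {x : ℝ} (hx : ((780900216 : ℕ) : ℝ) / S ≤ x) (hx' : x ≤ (((780900216 : ℕ) : ℝ) + (37827925 : ℕ)) / S) :
    DN (⟨4, 1, 1, 5, 5, 2, 24, 25, 43, 100, 1, 8⟩ : DPn).r.th (17091 / 20000 / x) (117261 / 100000) (⟨4, 1, 1, 5, 5, 2, 24, 25, 43, 100, 1, 8⟩ : DPn).r.K1 (⟨4, 1, 1, 5, 5, 2, 24, 25, 43, 100, 1, 8⟩ : DPn).r.K2 (⟨4, 1, 1, 5, 5, 2, 24, 25, 43, 100, 1, 8⟩ : DPn).r.A x := by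
  have h : (97612527 / 134217728 : ℝ) ≤ x := by
    rw [S_num] at hx
    norm_num at hx ⊢
    linarith
  have h' : x ≤ (818728141 / 1073741824 : ℝ) := by
    rw [S_num] at hx'
    norm_num at hx' ⊢
    linarith
  refine DN.intv (M := 17091 / 20000) (xa := 97612527 / 134217728) (xb := 818728141 / 1073741824) ?_ ?_ ?_ ?_ ?_ ?_ ?_ ?_ ?_ ?_ ?_ ?_ ?_ h h' <;> norm_num [DPn.r]

theorem thD0 : (⟨4, 1, 1, 5, 5, 2, 24, 25, 43, 100, 1, 8⟩ : DPn).r.th = 1 / 5 := by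
  norm_num [DPn.r]

theorem xdA0 {κ x : ℝ} {j k : Fin 6} {a b c : ℕ} {s1 s2 : Bool} {cn : Con} {n1 n2 : Node}
    {c1 c2 : Fn2} (hκ : κ * h0 = ken x) (hx : ((780900216 : ℕ) : ℝ) / S ≤ x) (hx' : x ≤ (((780900216 : ℕ) : ℝ) + (37827925 : ℕ)) / S) (hc : con a b c = some cn) :
    ExtEA 3 κ (eng.v x) (1 / 20) (tnt (h0 * x) (1 / 5)) PP tK tL tC pcB (scP esg pd)
      (extD2 3 (⟨4, 1, 1, 5, 5, 2, 24, 25, 43, 100, 1, 8⟩ : DPn) eng c1 c2 (pd c) true s1 s2 cn a b c hc n1 n2 (pcB c)) n1 n2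
      (Fn2.sc esg c1) (Fn2.sc esg c2) a b c j k (sgb s1) (sgb s2) x := by
  have h := extD2_EA (D := (⟨4, 1, 1, 5, 5, 2, 24, 25, 43, 100, 1, 8⟩ : DPn)) (P := PP) (RK := tK) (RL := tL) (RC := tC) (pc := pcB) (pd := pd) (En := eng)
    (ef := esg) (o := 1 / 20) (s1 := s1) (s2 := s2) (n1 := n1) (n2 := n2) (c1 := c1) (c2 := c2) (j := j) (k := k) okD0 (dC0 hx hx') (dN0 hx hx') hκ (Mol.esn_pos' (hx1 hx) (hx2 hx')) (mun_nonneg 3 x) (esg_v x) hc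
  rw [thD0] at h
  exact h

theorem xdB0 {κ x : ℝ} {j k : Fin 6} {a b c : ℕ} {s1 s2 : Bool} {cn : Con} {n1 n2 : Node}
    {c1 c2 : Fn2} (hκ : κ * h0 = ken x) (hx : ((780900216 : ℕ) : ℝ) / S ≤ x) (hx' : x ≤ (((780900216 : ℕ) : ℝ) + (37827925 : ℕ)) / S) (hc : con a b c = some cn) :
    ExtEB 3 κ (eng.v x) (1 / 20) (tnt (h0 * x) (1 / 5)) PP tK tL tC pcB (scP esg pd)
      (extD2 3 (⟨4, 1, 1, 5, 5, 2, 24, 25, 43, 100, 1, 8⟩ : DPn) eng c1 c2 (pd b) false s1 s2 cn a b c hc n1 n2 (pcB b)) n1 n2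
      (Fn2.sc esg c1) (Fn2.sc esg c2) a b c j k (sgb s1) (sgb s2) x := by
  have h := extD2_EB (D := (⟨4, 1, 1, 5, 5, 2, 24, 25, 43, 100, 1, 8⟩ : DPn)) (P := PP) (RK := tK) (RL := tL) (RC := tC) (pc := pcB) (pd := pd) (En := eng)
    (ef := esg) (o := 1 / 20) (s1 := s1) (s2 := s2) (n1 := n1) (n2 := n2) (c1 := c1) (c2 := c2) (j := j) (k := k) okD0 (dC0 hx hx') (dN0 hx hx') hκ (Mol.esn_pos' (hx1 hx) (hx2 hx')) (mun_nonneg 3 x) (esg_v x) hc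
  rw [thD0] at h
  exact h

end Pool.Agent.Strip051.G.I72727_7625.Tab
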