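import Pool.Agent.Strip051.G.I72727_7625.Fs

/-! # Certificates at the floor (generated) -/

set_option linter.all false

namespace Pool.Agent.Strip051.G.I72727_7625.Tab

open Pool.Agent.Strip051.PB

theorem cA_m00 : CertNd 0 536870912 780900216 37827925 (ftMono true 0 mZ) [] ndB0q0 cZ :=
  certNd (T := (ftMono true 0 mZ)) (L := []) (P1 := 0) (W1 := 536870912) (P3 := 780900216) (W3 := 37827925) (n := ndB0q0) (c := cZ)
    ⟨T.a (T.l 0) (T.l 0),
      by decide +kernel⟩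
theorem cA_m01 : CertNd 536870912 536870912 780900216 37827925 (ftMono true 1 mZ) [] ndB0q1 cZ :=
  certNd (T := (ftMono true 1 mZ)) (L := []) (P1 := 536870912) (W1 := 536870912) (P3 := 780900216) (W3 := 37827925) (n := ndB0q1) (c := cZ)
    ⟨T.a (T.a (T.l 0) (T.l 0)) (T.a (T.l 0) (T.l 0)),
      by decide +kernel⟩
theorem cA_g00 : CertGe 0 67108864 780900216 37827925 true [] (((2 : ℕ) : ℝ) / ((1 : ℕ) : ℝ)) 0 ((0 : ℕ) : ℝ)
    (((2 : ℕ) : ℝ) / 2) mZ ndB0q0 cZ :=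
  certGe (z := true) (L := []) (P1 := 0) (W1 := 67108864) (P3 := 780900216) (W3 := 37827925) (oa := 2) (ob := 1)
    (q := 0) (bb := 0) (hB := 2) (M := mZ) (n := ndB0q0) (c := cZ) (sX := c1g_fs) (sK := kf0q0_fs)
    (sL := l0q0_fs) ⟨T.l 0,
      by decide +kernel⟩
theorem cA_w00a : CertNd 67108864 469762048 780900216 37827925 (ftWall true 0 mZ 1 1) [] ndB0q0 cZ :=
  certNd (T := (ftWall true 0 mZ 1 1)) (L := []) (P1 := 67108864) (W1 := 469762048) (P3 := 780900216) (W3 := 37827925) (n := ndB0q0) (c := cZ)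
    ⟨T.a (T.a (T.a (T.l 0) (T.l 0)) (T.l 0)) (T.a (T.a (T.l 0) (T.l 0)) (T.a (T.l 0) (T.l 0))),
      by decide +kernel⟩
theorem cA_w01a : CertNd 536870912 217969590 780900216 37827925 (ftWall true 1 mZ 1 1) [] ndB0q1 cZ :=
  certNd (T := (ftWall true 1 mZ 1 1)) (L := []) (P1 := 536870912) (W1 := 217969590) (P3 := 780900216) (W3 := 37827925) (n := ndB0q1) (c := cZ)
    ⟨T.a (T.a (T.l 0) (T.l 0)) (T.a (T.c (T.l 0) (T.l 0)) (T.a (T.l 0) (T.c (T.a (T.l 0) (T.l 0)) (T.l 0)))),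
      by decide +kernel⟩
theorem cA_w01b : CertNd 845034815 192199787 780900216 37827925 (ftWall true 1 mZ 1 1) [] ndB0q1 cZ :=
  certNd (T := (ftWall true 1 mZ 1 1)) (L := []) (P1 := 845034815) (W1 := 192199787) (P3 := 780900216) (W3 := 37827925) (n := ndB0q1) (c := cZ)
    ⟨T.a (T.a (T.a (T.c (T.a (T.l 0) (T.l 0)) (T.a (T.c (T.l 0) (T.c (T.l 0) (T.l 0))) (T.l 0))) (T.c (T.l 0) (T.c (T.l 0) (T.l 0)))) (T.a (T.l 0) (T.l 0))) (T.a (T.l 0) (T.l 0)),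
      by decide +kernel⟩
theorem cA_g01 : CertGe 1037234602 36507222 780900216 37827925 true [] (((2 : ℕ) : ℝ) / ((1 : ℕ) : ℝ)) 1 ((1 : ℕ) : ℝ)
    (((1 : ℕ) : ℝ) / 2) mZ ndB0q1 cZ :=
  certGe (z := true) (L := []) (P1 := 1037234602) (W1 := 36507222) (P3 := 780900216) (W3 := 37827925) (oa := 2) (ob := 1)
    (q := 1) (bb := 1) (hB := 1) (M := mZ) (n := ndB0q1) (c := cZ) (sX := c1g_fs) (sK := kf0q1_fs)
    (sL := l0q1_fs) ⟨T.l 0,
      by decide +kernel⟩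
theorem cA_tl : CertTg 754840502 90194313 780900216 37827925 (ftTf true dlg) [⟨6, 0⟩] :=
  certTg (T := (ftTf true dlg)) (L := [⟨6, 0⟩]) (P1 := 754840502) (W1 := 90194313) (P3 := 780900216) (W3 := 37827925)
    ⟨T.l 0,
      by decide +kernel⟩
theorem cA_th : CertTg 754840502 90194313 780900216 37827925 (ftTf false dlg) [⟨5, 0⟩] :=
  certTg (T := (ftTf false dlg)) (L := [⟨5, 0⟩]) (P1 := 754840502) (W1 := 90194313) (P3 := 780900216) (W3 := 37827925)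
    ⟨T.l 0,
      by decide +kernel⟩
theorem cA_m10 : CertNd 0 66571993 780900216 37827925 (ftMono true 0 mZ) [] ndB1q0 cZ :=
  certNd (T := (ftMono true 0 mZ)) (L := []) (P1 := 0) (W1 := 66571993) (P3 := 780900216) (W3 := 37827925) (n := ndB1q0) (c := cZ)
    ⟨T.l 0,
      by decide +kernel⟩
theorem cA_g10 : CertGe 0 66571993 780900216 37827925 true [] (((2 : ℕ) : ℝ) / ((1 : ℕ) : ℝ)) 0 ((0 : ℕ) : ℝ)
    (((2 : ℕ) : ℝ) / 2) mZ ndB1q0 cZ :=
  certGe (z := true) (L := []) (P1 := 0) (W1 := 66571993) (P3 := 780900216) (W3 := 37827925) (oa := 2) (ob := 1)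
    (q := 0) (bb := 0) (hB := 2) (M := mZ) (n := ndB1q0) (c := cZ) (sX := cv1m_fs) (sK := kf1q0_fs)
    (sL := l1q0_fs) ⟨T.l 0,
      by decide +kernel⟩
theorem cA_w10 : CertNd 66571993 470298919 780900216 37827925 (ftWall true 0 mZ 1 1) [] ndB1q0 cZ :=
  certNd (T := (ftWall true 0 mZ 1 1)) (L := []) (P1 := 66571993) (W1 := 470298919) (P3 := 780900216) (W3 := 37827925) (n := ndB1q0) (c := cZ)
    ⟨T.a (T.a (T.l 0) (T.l 0)) (T.l 0),
      by decide +kernel⟩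
theorem cA_w11 : CertNd 536870912 536870912 780900216 37827925 (ftWall true 1 mZ 1 1) [] ndB1q1 cZ :=
  certNd (T := (ftWall true 1 mZ 1 1)) (L := []) (P1 := 536870912) (W1 := 536870912) (P3 := 780900216) (W3 := 37827925) (n := ndB1q1) (c := cZ)
    ⟨T.a (T.a (T.l 0) (T.l 0)) (T.a (T.l 0) (T.l 0)),
      by decide +kernel⟩
theorem cA_m20 : CertNd 0 66571993 780900216 37827925 (ftMono true 0 mZ) [] ndB2q0 cZ :=
  certNd (T := (ftMono true 0 mZ)) (L := []) (P1 := 0) (W1 := 66571993) (P3 := 780900216) (W3 := 37827925) (n := ndB2q0) (c := cZ)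
    ⟨T.l 0,
      by decide +kernel⟩
theorem cA_g20 : CertGe 0 66571993 780900216 37827925 true [] (((2 : ℕ) : ℝ) / ((1 : ℕ) : ℝ)) 0 ((0 : ℕ) : ℝ)
    (((2 : ℕ) : ℝ) / 2) mZ ndB2q0 cZ :=
  certGe (z := true) (L := []) (P1 := 0) (W1 := 66571993) (P3 := 780900216) (W3 := 37827925) (oa := 2) (ob := 1)
    (q := 0) (bb := 0) (hB := 2) (M := mZ) (n := ndB2q0) (c := cZ) (sX := cv2m_fs) (sK := kf2q0_fs)
    (sL := l2q0_fs) ⟨T.l 0,
      by decide +kernel⟩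
theorem cA_w20 : CertNd 66571993 470298919 780900216 37827925 (ftWall true 0 mZ 1 1) [] ndB2q0 cZ :=
  certNd (T := (ftWall true 0 mZ 1 1)) (L := []) (P1 := 66571993) (W1 := 470298919) (P3 := 780900216) (W3 := 37827925) (n := ndB2q0) (c := cZ)
    ⟨T.a (T.a (T.l 0) (T.l 0)) (T.l 0),
      by decide +kernel⟩
theorem cA_w21 : CertNd 536870912 536870912 780900216 37827925 (ftWall true 1 mZ 1 1) [] ndB2q1 cZ :=
  certNd (T := (ftWall true 1 mZ 1 1)) (L := []) (P1 := 536870912) (W1 := 536870912) (P3 := 780900216) (W3 := 37827925) (n := ndB2q1) (c := cZ)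
    ⟨T.a (T.l 0) (T.a (T.l 0) (T.l 0)),
      by decide +kernel⟩
theorem cA_f30 : CertNd 0 37195508 780900216 37827925 (ftFlat true 0 mZ 1 1) [] ndB3q0 cZ :=
  certNd (T := (ftFlat true 0 mZ 1 1)) (L := []) (P1 := 0) (W1 := 37195508) (P3 := 780900216) (W3 := 37827925) (n := ndB3q0) (c := cZ)
    ⟨T.l 0,
      by decide +kernel⟩
theorem cA_l30 : CertNd 0 37195508 780900216 37827925 (ftWall true 0 mZ 1 1) [⟨3, 1181116007⟩] ndB3q0 cZ :=
  certNd (T := (ftWall true 0 mZ 1 1)) (L := [⟨3, 1181116007⟩]) (P1 := 0) (W1 := 37195508) (P3 := 780900216) (W3 := 37827925) (n := ndB3q0) (c := cZ)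
    ⟨T.l 0,
      by decide +kernel⟩
theorem cA_w30 : CertNd 37195507 499675405 780900216 37827925 (ftWall true 0 mZ 1 1) [] ndB3q0 cZ :=
  certNd (T := (ftWall true 0 mZ 1 1)) (L := []) (P1 := 37195507) (W1 := 499675405) (P3 := 780900216) (W3 := 37827925) (n := ndB3q0) (c := cZ)
    ⟨T.a (T.a (T.l 0) (T.a (T.l 0) (T.l 0))) (T.a (T.l 0) (T.l 0)),
      by decide +kernel⟩
theorem cA_w31 : CertNd 536870912 536870912 780900216 37827925 (ftWall true 1 mZ 1 1) [] ndB3q1 cZ :=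
  certNd (T := (ftWall true 1 mZ 1 1)) (L := []) (P1 := 536870912) (W1 := 536870912) (P3 := 780900216) (W3 := 37827925) (n := ndB3q1) (c := cZ)
    ⟨T.a (T.l 0) (T.a (T.l 0) (T.l 0)),
      by decide +kernel⟩
theorem cA_w32 : CertNd 1073741824 166215235 780900216 37827925 (ftWall true 2 mZ 1 1) [⟨4, 0⟩] ndB3q2 cZ :=
  certNd (T := (ftWall true 2 mZ 1 1)) (L := [⟨4, 0⟩]) (P1 := 1073741824) (W1 := 166215235) (P3 := 780900216) (W3 := 37827925) (n := ndB3q2) (c := cZ)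
    ⟨T.l 0,
      by decide +kernel⟩
theorem cA_f40 : CertNd 0 37195508 780900216 37827925 (ftFlat true 0 mZ 1 1) [] ndB4q0 cZ :=
  certNd (T := (ftFlat true 0 mZ 1 1)) (L := []) (P1 := 0) (W1 := 37195508) (P3 := 780900216) (W3 := 37827925) (n := ndB4q0) (c := cZ)
    ⟨T.l 0,
      by decide +kernel⟩
theorem cA_l40 : CertNd 0 37195508 780900216 37827925 (ftWall true 0 mZ 1 1) [⟨3, 1181116007⟩] ndB4q0 cZ :=
  certNd (T := (ftWall true 0 mZ 1 1)) (L := [⟨3, 1181116007⟩]) (P1 := 0) (W1 := 37195508) (P3 := 780900216) (W3 := 37827925) (n := ndB4q0) (c := cZ)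
    ⟨T.l 1,
      by decide +kernel⟩
theorem cA_w40 : CertNd 37195507 499675405 780900216 37827925 (ftWall true 0 mZ 1 1) [] ndB4q0 cZ :=
  certNd (T := (ftWall true 0 mZ 1 1)) (L := []) (P1 := 37195507) (W1 := 499675405) (P3 := 780900216) (W3 := 37827925) (n := ndB4q0) (c := cZ)
    ⟨T.a (T.a (T.l 0) (T.l 0)) (T.l 0),
      by decide +kernel⟩
theorem cA_w41 : CertNd 536870912 536870912 780900216 37827925 (ftWall true 1 mZ 1 1) [] ndB4q1 cZ :=
  certNd (T := (ftWall true 1 mZ 1 1)) (L := []) (P1 := 536870912) (W1 := 536870912) (P3 := 780900216) (W3 := 37827925) (n := ndB4q1) (c := cZ)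
    ⟨T.a (T.l 0) (T.a (T.l 0) (T.l 0)),
      by decide +kernel⟩
theorem cA_w42 : CertNd 1073741824 166215235 780900216 37827925 (ftWall true 2 mZ 1 1) [⟨4, 0⟩] ndB4q2 cZ :=
  certNd (T := (ftWall true 2 mZ 1 1)) (L := [⟨4, 0⟩]) (P1 := 1073741824) (W1 := 166215235) (P3 := 780900216) (W3 := 37827925) (n := ndB4q2) (c := cZ)
    ⟨T.l 0,
      by decide +kernel⟩
theorem cA_f50 : CertNd 0 37195508 780900216 37827925 (ftFlat true 0 mZ 1 1) [] ndB5q0 cZ :=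
  certNd (T := (ftFlat true 0 mZ 1 1)) (L := []) (P1 := 0) (W1 := 37195508) (P3 := 780900216) (W3 := 37827925) (n := ndB5q0) (c := cZ)
    ⟨T.l 0,
      by decide +kernel⟩
theorem cA_l50 : CertNd 0 37195508 780900216 37827925 (ftWall true 0 mZ 1 1) [⟨3, 1181116007⟩] ndB5q0 cZ :=
  certNd (T := (ftWall true 0 mZ 1 1)) (L := [⟨3, 1181116007⟩]) (P1 := 0) (W1 := 37195508) (P3 := 780900216) (W3 := 37827925) (n := ndB5q0) (c := cZ)
    ⟨T.l 0,
      by decide +kernel⟩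
theorem cA_w50 : CertNd 37195507 499675405 780900216 37827925 (ftWall true 0 mZ 1 1) [] ndB5q0 cZ :=
  certNd (T := (ftWall true 0 mZ 1 1)) (L := []) (P1 := 37195507) (W1 := 499675405) (P3 := 780900216) (W3 := 37827925) (n := ndB5q0) (c := cZ)
    ⟨T.a (T.l 0) (T.l 0),
      by decide +kernel⟩
theorem cA_w51 : CertNd 536870912 536870912 780900216 37827925 (ftWall true 1 mZ 1 1) [] ndB5q1 cZ :=
  certNd (T := (ftWall true 1 mZ 1 1)) (L := []) (P1 := 536870912) (W1 := 536870912) (P3 := 780900216) (W3 := 37827925) (n := ndB5q1) (c := cZ)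
    ⟨T.a (T.l 0) (T.a (T.l 0) (T.l 0)),
      by decide +kernel⟩
theorem cA_w52 : CertNd 1073741824 166215235 780900216 37827925 (ftWall true 2 mZ 1 1) [⟨4, 0⟩] ndB5q2 cZ :=
  certNd (T := (ftWall true 2 mZ 1 1)) (L := [⟨4, 0⟩]) (P1 := 1073741824) (W1 := 166215235) (P3 := 780900216) (W3 := 37827925) (n := ndB5q2) (c := cZ)
    ⟨T.l 0,
      by decide +kernel⟩
theorem cA_ll : CertSd 0 37195508 780900216 37827925 (ftWall true 0 mZ 1 1) [] idF (cnF 1100 1000) pcB0 dZ :=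
  certSd (T := (ftWall true 0 mZ 1 1)) (L := []) (P1 := 0) (W1 := 37195508) (P3 := 780900216) (W3 := 37827925) (Y := idF) (X := (cnF 1100 1000))
    (pc := pcB0) (c := dZ) ⟨T.l 0,
      by decide +kernel⟩
theorem cA_st : CertSt 1073741824 66571993 780900216 37827925 true [] (((2 : ℕ) : ℝ) / ((1 : ℕ) : ℝ)) mZ ndB2q2 cZ ndB3q2 cZ :=
  certSt (z := true) (L := []) (P1 := 1073741824) (W1 := 66571993) (P3 := 780900216) (W3 := 37827925) (oa := 2) (ob := 1)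
    (M := mZ) (n := ndB2q2) (c := cZ) (n' := ndB3q2) (c' := cZ) (sX := cv2p_fs) (sK := kf2q2_fs) (sL := l2q2_fs)
    ⟨T.l 0,
      by decide +kernel⟩
theorem cA_sm : CertSd 421526751 115344161 780900216 37827925 (ftMono true 2 mZ) [] ygF xsF pcB2 dZ :=
  certSd (T := (ftMono true 2 mZ)) (L := []) (P1 := 421526751) (W1 := 115344161) (P3 := 780900216) (W3 := 37827925) (Y := ygF) (X := xsF)
    (pc := pcB2) (c := dZ) ⟨T.l 0,
      by decide +kernel⟩
theorem cA_sw : CertSd 0 421526755 780900216 37827925 (ftWall true 2 mZ 1 1) [] ygF xsF pcB2 dZ :=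
  certSd (T := (ftWall true 2 mZ 1 1)) (L := []) (P1 := 0) (W1 := 421526755) (P3 := 780900216) (W3 := 37827925) (Y := ygF) (X := xsF)
    (pc := pcB2) (c := dZ) ⟨T.a (T.l 0) (T.a (T.l 0) (T.l 0)),
      by decide +kernel⟩
theorem cA_h0_01 : CertNd 991880209 74391017 780900216 37827925 (ftHigh true 1 mZ 1 1 80 1100) [] ndB0q1 cZ :=
  certNd (T := (ftHigh true 1 mZ 1 1 80 1100)) (L := []) (P1 := 991880209) (W1 := 74391017) (P3 := 780900216) (W3 := 37827925) (n := ndB0q1) (c := cZ)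
    ⟨T.a (T.l 0) (T.l 0),
      by decide +kernel⟩
theorem cA_h0_11 : CertNd 991880209 74391017 780900216 37827925 (ftHigh true 1 mZ 1 1 80 1100) [] ndB1q1 cZ :=
  certNd (T := (ftHigh true 1 mZ 1 1 80 1100)) (L := []) (P1 := 991880209) (W1 := 74391017) (P3 := 780900216) (W3 := 37827925) (n := ndB1q1) (c := cZ)
    ⟨T.l 0,
      by decide +kernel⟩
theorem cA_h0_21 : CertNd 991880209 74391017 780900216 37827925 (ftHigh true 1 mZ 1 1 80 1100) [] ndB2q1 cZ :=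
  certNd (T := (ftHigh true 1 mZ 1 1 80 1100)) (L := []) (P1 := 991880209) (W1 := 74391017) (P3 := 780900216) (W3 := 37827925) (n := ndB2q1) (c := cZ)
    ⟨T.l 0,
      by decide +kernel⟩
theorem cA_h0_31 : CertNd 991880209 74391017 780900216 37827925 (ftHigh true 1 mZ 1 1 80 1100) [] ndB3q1 cZ :=
  certNd (T := (ftHigh true 1 mZ 1 1 80 1100)) (L := []) (P1 := 991880209) (W1 := 74391017) (P3 := 780900216) (W3 := 37827925) (n := ndB3q1) (c := cZ)
    ⟨T.l 0,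
      by decide +kernel⟩
theorem cA_h0_41 : CertNd 991880209 74391017 780900216 37827925 (ftHigh true 1 mZ 1 1 80 1100) [] ndB4q1 cZ :=
  certNd (T := (ftHigh true 1 mZ 1 1 80 1100)) (L := []) (P1 := 991880209) (W1 := 74391017) (P3 := 780900216) (W3 := 37827925) (n := ndB4q1) (c := cZ)
    ⟨T.l 0,
      by decide +kernel⟩
theorem cA_h0_51 : CertNd 991880209 74391017 780900216 37827925 (ftHigh true 1 mZ 1 1 80 1100) [] ndB5q1 cZ :=
  certNd (T := (ftHigh true 1 mZ 1 1 80 1100)) (L := []) (P1 := 991880209) (W1 := 74391017) (P3 := 780900216) (W3 := 37827925) (n := ndB5q1) (c := cZ)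
    ⟨T.l 0,
      by decide +kernel⟩
theorem cA_h1_01 : CertNd 1029075717 44666107 780900216 37827925 (ftHigh true 1 mZ 1 1 710 1100) [] ndB0q1 cZ :=
  certNd (T := (ftHigh true 1 mZ 1 1 710 1100)) (L := []) (P1 := 1029075717) (W1 := 44666107) (P3 := 780900216) (W3 := 37827925) (n := ndB0q1) (c := cZ)
    ⟨T.a (T.l 0) (T.l 0),
      by decide +kernel⟩
theorem cA_h1_11 : CertNd 1029075717 44666107 780900216 37827925 (ftHigh true 1 mZ 1 1 710 1100) [] ndB1q1 cZ :=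
  certNd (T := (ftHigh true 1 mZ 1 1 710 1100)) (L := []) (P1 := 1029075717) (W1 := 44666107) (P3 := 780900216) (W3 := 37827925) (n := ndB1q1) (c := cZ)
    ⟨T.l 0,
      by decide +kernel⟩
theorem cA_h1_21 : CertNd 1029075717 44666107 780900216 37827925 (ftHigh true 1 mZ 1 1 710 1100) [] ndB2q1 cZ :=
  certNd (T := (ftHigh true 1 mZ 1 1 710 1100)) (L := []) (P1 := 1029075717) (W1 := 44666107) (P3 := 780900216) (W3 := 37827925) (n := ndB2q1) (c := cZ)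
    ⟨T.l 0,
      by decide +kernel⟩
theorem cA_h1_31 : CertNd 1029075717 44666107 780900216 37827925 (ftHigh true 1 mZ 1 1 710 1100) [] ndB3q1 cZ :=
  certNd (T := (ftHigh true 1 mZ 1 1 710 1100)) (L := []) (P1 := 1029075717) (W1 := 44666107) (P3 := 780900216) (W3 := 37827925) (n := ndB3q1) (c := cZ)
    ⟨T.l 0,
      by decide +kernel⟩
theorem cA_h1_41 : CertNd 1029075717 44666107 780900216 37827925 (ftHigh true 1 mZ 1 1 710 1100) [] ndB4q1 cZ :=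
  certNd (T := (ftHigh true 1 mZ 1 1 710 1100)) (L := []) (P1 := 1029075717) (W1 := 44666107) (P3 := 780900216) (W3 := 37827925) (n := ndB4q1) (c := cZ)
    ⟨T.l 0,
      by decide +kernel⟩
theorem cA_h1_51 : CertNd 1029075717 44666107 780900216 37827925 (ftHigh true 1 mZ 1 1 710 1100) [] ndB5q1 cZ :=
  certNd (T := (ftHigh true 1 mZ 1 1 710 1100)) (L := []) (P1 := 1029075717) (W1 := 44666107) (P3 := 780900216) (W3 := 37827925) (n := ndB5q1) (c := cZ)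
    ⟨T.l 0,
      by decide +kernel⟩
theorem cA_h1_02 : CertNd 0 536870912 780900216 37827925 (ftHigh true 2 mZ 1 1 710 1100) [⟨0, 1029075717⟩, ⟨1, 1171658498⟩] ndB0q2 cZ :=
  certNd (T := (ftHigh true 2 mZ 1 1 710 1100)) (L := [⟨0, 1029075717⟩, ⟨1, 1171658498⟩]) (P1 := 0) (W1 := 536870912) (P3 := 780900216) (W3 := 37827925) (n := ndB0q2) (c := cZ)
    ⟨T.a (T.l 3) (T.a (T.a (T.l 3) (T.l 0)) (T.l 0)),
      by decide +kernel⟩
theorem cA_h1_12 : CertNd 1073741824 97916674 780900216 37827925 (ftHigh true 2 mZ 1 1 710 1100) [] ndB1q2 cZ :=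
  certNd (T := (ftHigh true 2 mZ 1 1 710 1100)) (L := []) (P1 := 1073741824) (W1 := 97916674) (P3 := 780900216) (W3 := 37827925) (n := ndB1q2) (c := cZ)
    ⟨T.a (T.l 0) (T.l 0),
      by decide +kernel⟩
theorem cA_h1_22 : CertNd 1073741824 97916674 780900216 37827925 (ftHigh true 2 mZ 1 1 710 1100) [] ndB2q2 cZ :=
  certNd (T := (ftHigh true 2 mZ 1 1 710 1100)) (L := []) (P1 := 1073741824) (W1 := 97916674) (P3 := 780900216) (W3 := 37827925) (n := ndB2q2) (c := cZ)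
    ⟨T.l 0,
      by decide +kernel⟩
theorem cA_h1_32 : CertNd 1073741824 97916674 780900216 37827925 (ftHigh true 2 mZ 1 1 710 1100) [] ndB3q2 cZ :=
  certNd (T := (ftHigh true 2 mZ 1 1 710 1100)) (L := []) (P1 := 1073741824) (W1 := 97916674) (P3 := 780900216) (W3 := 37827925) (n := ndB3q2) (c := cZ)
    ⟨T.l 0,
      by decide +kernel⟩
theorem cA_h1_42 : CertNd 1073741824 97916674 780900216 37827925 (ftHigh true 2 mZ 1 1 710 1100) [] ndB4q2 cZ :=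
  certNd (T := (ftHigh true 2 mZ 1 1 710 1100)) (L := []) (P1 := 1073741824) (W1 := 97916674) (P3 := 780900216) (W3 := 37827925) (n := ndB4q2) (c := cZ)
    ⟨T.l 0,
      by decide +kernel⟩
theorem cA_h1_52 : CertNd 1073741824 97916674 780900216 37827925 (ftHigh true 2 mZ 1 1 710 1100) [] ndB5q2 cZ :=
  certNd (T := (ftHigh true 2 mZ 1 1 710 1100)) (L := []) (P1 := 1073741824) (W1 := 97916674) (P3 := 780900216) (W3 := 37827925) (n := ndB5q2) (c := cZ)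
    ⟨T.l 0,
      by decide +kernel⟩
theorem cA_h2_02 : CertNd 0 536870912 780900216 37827925 (ftHigh true 2 mZ 1 1 1050 1100) [⟨0, 1134462989⟩, ⟨1, 2144940954⟩] ndB0q2 cZ :=
  certNd (T := (ftHigh true 2 mZ 1 1 1050 1100)) (L := [⟨0, 1134462989⟩, ⟨1, 2144940954⟩]) (P1 := 0) (W1 := 536870912) (P3 := 780900216) (W3 := 37827925) (n := ndB0q2) (c := cZ)
    ⟨T.a (T.a (T.l 0) (T.l 0)) (T.a (T.l 0) (T.l 0)),
      by decide +kernel⟩
theorem cA_h2_12 : CertNd 1134462989 476149747 780900216 37827925 (ftHigh true 2 mZ 1 1 1050 1100) [] ndB1q2 cZ :=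
  certNd (T := (ftHigh true 2 mZ 1 1 1050 1100)) (L := []) (P1 := 1134462989) (W1 := 476149747) (P3 := 780900216) (W3 := 37827925) (n := ndB1q2) (c := cZ)
    ⟨T.a (T.a (T.a (T.l 0) (T.a (T.l 0) (T.a (T.l 0) (T.l 0)))) (T.l 0)) (T.l 0),
      by decide +kernel⟩
theorem cA_h2_22 : CertNd 1134462989 476149747 780900216 37827925 (ftHigh true 2 mZ 1 1 1050 1100) [] ndB2q2 cZ :=
  certNd (T := (ftHigh true 2 mZ 1 1 1050 1100)) (L := []) (P1 := 1134462989) (W1 := 476149747) (P3 := 780900216) (W3 := 37827925) (n := ndB2q2) (c := cZ)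
    ⟨T.a (T.a (T.a (T.l 0) (T.a (T.l 0) (T.a (T.l 0) (T.l 0)))) (T.l 0)) (T.l 0),
      by decide +kernel⟩
theorem cA_h2_32 : CertNd 1134462989 476149747 780900216 37827925 (ftHigh true 2 mZ 1 1 1050 1100) [] ndB3q2 cZ :=
  certNd (T := (ftHigh true 2 mZ 1 1 1050 1100)) (L := []) (P1 := 1134462989) (W1 := 476149747) (P3 := 780900216) (W3 := 37827925) (n := ndB3q2) (c := cZ)
    ⟨T.a (T.a (T.a (T.l 0) (T.l 0)) (T.l 0)) (T.l 0),
      by decide +kernel⟩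
theorem cA_h2_42 : CertNd 1134462989 476149747 780900216 37827925 (ftHigh true 2 mZ 1 1 1050 1100) [] ndB4q2 cZ :=
  certNd (T := (ftHigh true 2 mZ 1 1 1050 1100)) (L := []) (P1 := 1134462989) (W1 := 476149747) (P3 := 780900216) (W3 := 37827925) (n := ndB4q2) (c := cZ)
    ⟨T.a (T.a (T.l 0) (T.l 0)) (T.l 0),
      by decide +kernel⟩
theorem cA_h2_52 : CertNd 1134462989 476149747 780900216 37827925 (ftHigh true 2 mZ 1 1 1050 1100) [] ndB5q2 cZ :=
  certNd (T := (ftHigh true 2 mZ 1 1 1050 1100)) (L := []) (P1 := 1134462989) (W1 := 476149747) (P3 := 780900216) (W3 := 37827925) (n := ndB5q2) (c := cZ)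
    ⟨T.a (T.a (T.l 0) (T.l 0)) (T.a (T.l 0) (T.l 0)),
      by decide +kernel⟩
theorem cA_h2_13 : CertNd 1610612736 534328218 780900216 37827925 (ftHigh true 3 mZ 1 1 1050 1100) [] ndB1q3 cZ :=
  certNd (T := (ftHigh true 3 mZ 1 1 1050 1100)) (L := []) (P1 := 1610612736) (W1 := 534328218) (P3 := 780900216) (W3 := 37827925) (n := ndB1q3) (c := cZ)
    ⟨T.a (T.l 0) (T.a (T.l 0) (T.l 0)),
      by decide +kernel⟩
theorem cA_h2_23 : CertNd 1610612736 534328218 780900216 37827925 (ftHigh true 3 mZ 1 1 1050 1100) [] ndB2q3 cZ :=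
  certNd (T := (ftHigh true 3 mZ 1 1 1050 1100)) (L := []) (P1 := 1610612736) (W1 := 534328218) (P3 := 780900216) (W3 := 37827925) (n := ndB2q3) (c := cZ)
    ⟨T.a (T.a (T.l 0) (T.l 0)) (T.a (T.l 0) (T.l 0)),
      by decide +kernel⟩
theorem cA_h2_33 : CertNd 0 1230186008 780900216 37827925 (ftHigh true 3 mZ 1 1 1050 1100) [⟨0, 1134462989⟩, ⟨1, 2144940954⟩] ndB3q3 cZ :=
  certNd (T := (ftHigh true 3 mZ 1 1 1050 1100)) (L := [⟨0, 1134462989⟩, ⟨1, 2144940954⟩]) (P1 := 0) (W1 := 1230186008) (P3 := 780900216) (W3 := 37827925) (n := ndB3q3) (c := cZ)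
    ⟨T.a (T.a (T.l 0) (T.l 0)) (T.a (T.a (T.l 0) (T.a (T.l 0) (T.l 0))) (T.a (T.a (T.l 0) (T.l 0)) (T.l 0))),
      by decide +kernel⟩
theorem cA_h2_43 : CertNd 0 1230186008 780900216 37827925 (ftHigh true 3 mZ 1 1 1050 1100) [⟨0, 1134462989⟩, ⟨1, 2144940954⟩] ndB4q3 cZ :=
  certNd (T := (ftHigh true 3 mZ 1 1 1050 1100)) (L := [⟨0, 1134462989⟩, ⟨1, 2144940954⟩]) (P1 := 0) (W1 := 1230186008) (P3 := 780900216) (W3 := 37827925) (n := ndB4q3) (c := cZ)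
    ⟨T.a (T.a (T.l 0) (T.l 0)) (T.a (T.l 0) (T.a (T.l 0) (T.l 0))),
      by decide +kernel⟩
theorem cA_h2_53 : CertNd 0 1230186008 780900216 37827925 (ftHigh true 3 mZ 1 1 1050 1100) [⟨0, 1134462989⟩, ⟨1, 2144940954⟩] ndB5q3 cZ :=
  certNd (T := (ftHigh true 3 mZ 1 1 1050 1100)) (L := [⟨0, 1134462989⟩, ⟨1, 2144940954⟩]) (P1 := 0) (W1 := 1230186008) (P3 := 780900216) (W3 := 37827925) (n := ndB5q3) (c := cZ)
    ⟨T.a (T.a (T.l 0) (T.l 0)) (T.a (T.a (T.l 0) (T.l 0)) (T.a (T.l 0) (T.l 0))),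
      by decide +kernel⟩
theorem cA_r0_02 : CertNd 0 536870912 780900216 37827925 (ftFar true 2 mZ 1 1 1260 1100) [⟨0, 1091068230⟩, ⟨1, 1190256252⟩, ⟨2, 1181116006⟩] ndB0q2 cZ :=
  certNd (T := (ftFar true 2 mZ 1 1 1260 1100)) (L := [⟨0, 1091068230⟩, ⟨1, 1190256252⟩, ⟨2, 1181116006⟩]) (P1 := 0) (W1 := 536870912) (P3 := 780900216) (W3 := 37827925) (n := ndB0q2) (c := cZ)
    ⟨T.l 5,
      by decide +kernel⟩
theorem cA_r0_12 : CertNd 1091068230 99188022 780900216 37827925 (ftFar true 2 mZ 1 1 1260 1100) [⟨2, 1181116006⟩] ndB1q2 cZ :=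
  certNd (T := (ftFar true 2 mZ 1 1 1260 1100)) (L := [⟨2, 1181116006⟩]) (P1 := 1091068230) (W1 := 99188022) (P3 := 780900216) (W3 := 37827925) (n := ndB1q2) (c := cZ)
    ⟨T.l 0,
      by decide +kernel⟩
theorem cA_r0_22 : CertNd 1091068230 99188022 780900216 37827925 (ftFar true 2 mZ 1 1 1260 1100) [⟨2, 1181116006⟩] ndB2q2 cZ :=
  certNd (T := (ftFar true 2 mZ 1 1 1260 1100)) (L := [⟨2, 1181116006⟩]) (P1 := 1091068230) (W1 := 99188022) (P3 := 780900216) (W3 := 37827925) (n := ndB2q2) (c := cZ)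
    ⟨T.l 0,
      by decide +kernel⟩
theorem cA_r0_32 : CertNd 1091068230 99188022 780900216 37827925 (ftFar true 2 mZ 1 1 1260 1100) [⟨2, 1181116006⟩] ndB3q2 cZ :=
  certNd (T := (ftFar true 2 mZ 1 1 1260 1100)) (L := [⟨2, 1181116006⟩]) (P1 := 1091068230) (W1 := 99188022) (P3 := 780900216) (W3 := 37827925) (n := ndB3q2) (c := cZ)
    ⟨T.l 0,
      by decide +kernel⟩
theorem cA_r0_42 : CertNd 1091068230 99188022 780900216 37827925 (ftFar true 2 mZ 1 1 1260 1100) [⟨2, 1181116006⟩] ndB4q2 cZ :=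
  certNd (T := (ftFar true 2 mZ 1 1 1260 1100)) (L := [⟨2, 1181116006⟩]) (P1 := 1091068230) (W1 := 99188022) (P3 := 780900216) (W3 := 37827925) (n := ndB4q2) (c := cZ)
    ⟨T.l 0,
      by decide +kernel⟩
theorem cA_r0_52 : CertNd 1091068230 99188022 780900216 37827925 (ftFar true 2 mZ 1 1 1260 1100) [⟨2, 1181116006⟩] ndB5q2 cZ :=
  certNd (T := (ftFar true 2 mZ 1 1 1260 1100)) (L := [⟨2, 1181116006⟩]) (P1 := 1091068230) (W1 := 99188022) (P3 := 780900216) (W3 := 37827925) (n := ndB5q2) (c := cZ)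
    ⟨T.a (T.l 0) (T.l 0),
      by decide +kernel⟩
theorem cA_n0_02z : CertNd 0 64424509 780900216 37827925 (ftNear true 2 mZ 1 1 1260) [⟨0, 1091068230⟩, ⟨1, 1190256252⟩] ⟨ndB0q2.Y, onF, kq02, lq02⟩ cZ :=
  certNd (T := (ftNear true 2 mZ 1 1 1260)) (L := [⟨0, 1091068230⟩, ⟨1, 1190256252⟩]) (P1 := 0) (W1 := 64424509) (P3 := 780900216) (W3 := 37827925) (n := ⟨ndB0q2.Y, onF, kq02, lq02⟩) (c := cZ)
    ⟨T.l 3,
      by decide +kernel⟩
theorem cA_n0_02 : CertNd 0 536870912 780900216 37827925 (ftNear true 2 mZ 1 1 1260) [⟨0, 1091068230⟩, ⟨1, 1190256252⟩, ⟨2, 64424509⟩, ⟨3, 429496730⟩] ndB0q2 cZ :=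
  certNd (T := (ftNear true 2 mZ 1 1 1260)) (L := [⟨0, 1091068230⟩, ⟨1, 1190256252⟩, ⟨2, 64424509⟩, ⟨3, 429496730⟩]) (P1 := 0) (W1 := 536870912) (P3 := 780900216) (W3 := 37827925) (n := ndB0q2) (c := cZ)
    ⟨T.a (T.l 3) (T.a (T.a (T.a (T.a (T.l 3) (T.l 0)) (T.l 0)) (T.l 0)) (T.a (T.l 0) (T.l 0))),
      by decide +kernel⟩
theorem cA_n0_12 : CertNd 1091068230 99188022 780900216 37827925 (ftNear true 2 mZ 1 1 1260) [⟨3, 429496730⟩] ndB1q2 cZ :=
  certNd (T := (ftNear true 2 mZ 1 1 1260)) (L := [⟨3, 429496730⟩]) (P1 := 1091068230) (W1 := 99188022) (P3 := 780900216) (W3 := 37827925) (n := ndB1q2) (c := cZ)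
    ⟨T.a (T.l 0) (T.a (T.l 0) (T.l 0)),
      by decide +kernel⟩
theorem cA_n0_22 : CertNd 1091068230 99188022 780900216 37827925 (ftNear true 2 mZ 1 1 1260) [⟨3, 429496730⟩] ndB2q2 cZ :=
  certNd (T := (ftNear true 2 mZ 1 1 1260)) (L := [⟨3, 429496730⟩]) (P1 := 1091068230) (W1 := 99188022) (P3 := 780900216) (W3 := 37827925) (n := ndB2q2) (c := cZ)
    ⟨T.a (T.l 0) (T.l 0),
      by decide +kernel⟩
theorem cA_n0_32 : CertNd 1091068230 99188022 780900216 37827925 (ftNear true 2 mZ 1 1 1260) [⟨3, 429496730⟩] ndB3q2 cZ :=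
  certNd (T := (ftNear true 2 mZ 1 1 1260)) (L := [⟨3, 429496730⟩]) (P1 := 1091068230) (W1 := 99188022) (P3 := 780900216) (W3 := 37827925) (n := ndB3q2) (c := cZ)
    ⟨T.l 0,
      by decide +kernel⟩
theorem cA_n0_42 : CertNd 1091068230 99188022 780900216 37827925 (ftNear true 2 mZ 1 1 1260) [⟨3, 429496730⟩] ndB4q2 cZ :=
  certNd (T := (ftNear true 2 mZ 1 1 1260)) (L := [⟨3, 429496730⟩]) (P1 := 1091068230) (W1 := 99188022) (P3 := 780900216) (W3 := 37827925) (n := ndB4q2) (c := cZ)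
    ⟨T.l 0,
      by decide +kernel⟩
theorem cA_n0_52 : CertNd 1091068230 99188022 780900216 37827925 (ftNear true 2 mZ 1 1 1260) [⟨3, 429496730⟩] ndB5q2 cZ :=
  certNd (T := (ftNear true 2 mZ 1 1 1260)) (L := [⟨3, 429496730⟩]) (P1 := 1091068230) (W1 := 99188022) (P3 := 780900216) (W3 := 37827925) (n := ndB5q2) (c := cZ)
    ⟨T.l 0,
      by decide +kernel⟩
theorem cA_R0_2 : CertSd 1091068230 99188022 780900216 37827925 (ftFar true 2 mZ 1 1 1260 1100) [] idF (cnF 1100 1000) pcB2 dZ :=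
  certSd (T := (ftFar true 2 mZ 1 1 1260 1100)) (L := []) (P1 := 1091068230) (W1 := 99188022) (P3 := 780900216) (W3 := 37827925) (Y := idF) (X := (cnF 1100 1000))
    (pc := pcB2) (c := dZ) ⟨T.l 0,
      by decide +kernel⟩
theorem cA_N0_2 : CertSd 1136340972 53915280 780900216 37827925 (ftNear true 2 mZ 1 1 1260) [] idF (cnF 400 1000) pcB2 dZ :=
  certSd (T := (ftNear true 2 mZ 1 1 1260)) (L := []) (P1 := 1136340972) (W1 := 53915280) (P3 := 780900216) (W3 := 37827925) (Y := idF) (X := (cnF 400 1000))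
    (pc := pcB2) (c := dZ) ⟨T.a (T.l 0) (T.l 0),
      by decide +kernel⟩
theorem cA_r1_02 : CertNd 0 536870912 780900216 37827925 (ftFar true 2 mZ 1 1 1340 1100) [⟨0, 1153060743⟩, ⟨1, 1698594860⟩, ⟨2, 1181116006⟩] ndB0q2 cZ :=
  certNd (T := (ftFar true 2 mZ 1 1 1340 1100)) (L := [⟨0, 1153060743⟩, ⟨1, 1698594860⟩, ⟨2, 1181116006⟩]) (P1 := 0) (W1 := 536870912) (P3 := 780900216) (W3 := 37827925) (n := ndB0q2) (c := cZ)
    ⟨T.l 5,
      by decide +kernel⟩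
theorem cA_r1_12 : CertNd 1153060743 457551993 780900216 37827925 (ftFar true 2 mZ 1 1 1340 1100) [⟨2, 1181116006⟩] ndB1q2 cZ :=
  certNd (T := (ftFar true 2 mZ 1 1 1340 1100)) (L := [⟨2, 1181116006⟩]) (P1 := 1153060743) (W1 := 457551993) (P3 := 780900216) (W3 := 37827925) (n := ndB1q2) (c := cZ)
    ⟨T.l 1,
      by decide +kernel⟩
theorem cA_r1_22 : CertNd 1153060743 457551993 780900216 37827925 (ftFar true 2 mZ 1 1 1340 1100) [⟨2, 1181116006⟩] ndB2q2 cZ :=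
  certNd (T := (ftFar true 2 mZ 1 1 1340 1100)) (L := [⟨2, 1181116006⟩]) (P1 := 1153060743) (W1 := 457551993) (P3 := 780900216) (W3 := 37827925) (n := ndB2q2) (c := cZ)
    ⟨T.l 1,
      by decide +kernel⟩
theorem cA_r1_32 : CertNd 1153060743 457551993 780900216 37827925 (ftFar true 2 mZ 1 1 1340 1100) [⟨2, 1181116006⟩] ndB3q2 cZ :=
  certNd (T := (ftFar true 2 mZ 1 1 1340 1100)) (L := [⟨2, 1181116006⟩]) (P1 := 1153060743) (W1 := 457551993) (P3 := 780900216) (W3 := 37827925) (n := ndB3q2) (c := cZ)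
    ⟨T.l 0,
      by decide +kernel⟩
theorem cA_r1_42 : CertNd 1153060743 457551993 780900216 37827925 (ftFar true 2 mZ 1 1 1340 1100) [⟨2, 1181116006⟩] ndB4q2 cZ :=
  certNd (T := (ftFar true 2 mZ 1 1 1340 1100)) (L := [⟨2, 1181116006⟩]) (P1 := 1153060743) (W1 := 457551993) (P3 := 780900216) (W3 := 37827925) (n := ndB4q2) (c := cZ)
    ⟨T.l 0,
      by decide +kernel⟩
theorem cA_r1_52 : CertNd 1153060743 457551993 780900216 37827925 (ftFar true 2 mZ 1 1 1340 1100) [⟨2, 1181116006⟩] ndB5q2 cZ :=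
  certNd (T := (ftFar true 2 mZ 1 1 1340 1100)) (L := [⟨2, 1181116006⟩]) (P1 := 1153060743) (W1 := 457551993) (P3 := 780900216) (W3 := 37827925) (n := ndB5q2) (c := cZ)
    ⟨T.a (T.a (T.a (T.c (T.l 0) (T.l 0)) (T.l 0)) (T.l 0)) (T.l 0),
      by decide +kernel⟩
theorem cA_r1_13 : CertNd 1610612736 87982124 780900216 37827925 (ftFar true 3 mZ 1 1 1340 1100) [⟨2, 1181116006⟩] ndB1q3 cZ :=
  certNd (T := (ftFar true 3 mZ 1 1 1340 1100)) (L := [⟨2, 1181116006⟩]) (P1 := 1610612736) (W1 := 87982124) (P3 := 780900216) (W3 := 37827925) (n := ndB1q3) (c := cZ)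
    ⟨T.l 0,
      by decide +kernel⟩
theorem cA_r1_23 : CertNd 1610612736 87982124 780900216 37827925 (ftFar true 3 mZ 1 1 1340 1100) [⟨2, 1181116006⟩] ndB2q3 cZ :=
  certNd (T := (ftFar true 3 mZ 1 1 1340 1100)) (L := [⟨2, 1181116006⟩]) (P1 := 1610612736) (W1 := 87982124) (P3 := 780900216) (W3 := 37827925) (n := ndB2q3) (c := cZ)
    ⟨T.l 0,
      by decide +kernel⟩
theorem cA_r1_33 : CertNd 0 1230186008 780900216 37827925 (ftFar true 3 mZ 1 1 1340 1100) [⟨0, 1153060743⟩, ⟨1, 1698594860⟩, ⟨2, 1181116006⟩] ndB3q3 cZ :=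
  certNd (T := (ftFar true 3 mZ 1 1 1340 1100)) (L := [⟨0, 1153060743⟩, ⟨1, 1698594860⟩, ⟨2, 1181116006⟩]) (P1 := 0) (W1 := 1230186008) (P3 := 780900216) (W3 := 37827925) (n := ndB3q3) (c := cZ)
    ⟨T.l 5,
      by decide +kernel⟩
theorem cA_r1_43 : CertNd 0 1230186008 780900216 37827925 (ftFar true 3 mZ 1 1 1340 1100) [⟨0, 1153060743⟩, ⟨1, 1698594860⟩, ⟨2, 1181116006⟩] ndB4q3 cZ :=
  certNd (T := (ftFar true 3 mZ 1 1 1340 1100)) (L := [⟨0, 1153060743⟩, ⟨1, 1698594860⟩, ⟨2, 1181116006⟩]) (P1 := 0) (W1 := 1230186008) (P3 := 780900216) (W3 := 37827925) (n := ndB4q3) (c := cZ)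
    ⟨T.l 5,
      by decide +kernel⟩
theorem cA_r1_53 : CertNd 0 1230186008 780900216 37827925 (ftFar true 3 mZ 1 1 1340 1100) [⟨0, 1153060743⟩, ⟨1, 1698594860⟩, ⟨2, 1181116006⟩] ndB5q3 cZ :=
  certNd (T := (ftFar true 3 mZ 1 1 1340 1100)) (L := [⟨0, 1153060743⟩, ⟨1, 1698594860⟩, ⟨2, 1181116006⟩]) (P1 := 0) (W1 := 1230186008) (P3 := 780900216) (W3 := 37827925) (n := ndB5q3) (c := cZ)
    ⟨T.a (T.l 3) (T.a (T.l 0) (T.a (T.l 0) (T.l 0))),
      by decide +kernel⟩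
theorem cA_n1_02z : CertNd 0 64424509 780900216 37827925 (ftNear true 2 mZ 1 1 1340) [⟨0, 1153060743⟩, ⟨1, 1698594860⟩] ⟨ndB0q2.Y, onF, kq02, lq02⟩ cZ :=
  certNd (T := (ftNear true 2 mZ 1 1 1340)) (L := [⟨0, 1153060743⟩, ⟨1, 1698594860⟩]) (P1 := 0) (W1 := 64424509) (P3 := 780900216) (W3 := 37827925) (n := ⟨ndB0q2.Y, onF, kq02, lq02⟩) (c := cZ)
    ⟨T.l 0,
      by decide +kernel⟩
theorem cA_n1_02 : CertNd 0 536870912 780900216 37827925 (ftNear true 2 mZ 1 1 1340) [⟨0, 1153060743⟩, ⟨1, 1698594860⟩, ⟨2, 64424509⟩, ⟨3, 429496730⟩] ndB0q2 cZ :=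
  certNd (T := (ftNear true 2 mZ 1 1 1340)) (L := [⟨0, 1153060743⟩, ⟨1, 1698594860⟩, ⟨2, 64424509⟩, ⟨3, 429496730⟩]) (P1 := 0) (W1 := 536870912) (P3 := 780900216) (W3 := 37827925) (n := ndB0q2) (c := cZ)
    ⟨T.a (T.a (T.a (T.a (T.l 5) (T.l 0)) (T.l 0)) (T.a (T.l 0) (T.l 0))) (T.a (T.a (T.l 0) (T.l 0)) (T.l 0)),
      by decide +kernel⟩
theorem cA_n1_12 : CertNd 1153060743 457551993 780900216 37827925 (ftNear true 2 mZ 1 1 1340) [⟨3, 429496730⟩] ndB1q2 cZ :=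
  certNd (T := (ftNear true 2 mZ 1 1 1340)) (L := [⟨3, 429496730⟩]) (P1 := 1153060743) (W1 := 457551993) (P3 := 780900216) (W3 := 37827925) (n := ndB1q2) (c := cZ)
    ⟨T.a (T.a (T.a (T.c (T.l 0) (T.l 0)) (T.a (T.a (T.l 0) (T.a (T.l 0) (T.a (T.l 0) (T.l 0)))) (T.a (T.a (T.a (T.a (T.a (T.l 0) (T.a (T.a (T.a (T.a (T.l 0) (T.a (T.l 0) (T.l 0))) (T.l 0)) (T.l 0)) (T.l 0))) (T.l 0)) (T.l 0)) (T.l 0)) (T.l 0)))) (T.l 0)) (T.l 0),
      by decide +kernel⟩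
theorem cA_n1_22 : CertNd 1153060743 457551993 780900216 37827925 (ftNear true 2 mZ 1 1 1340) [⟨3, 429496730⟩] ndB2q2 cZ :=
  certNd (T := (ftNear true 2 mZ 1 1 1340)) (L := [⟨3, 429496730⟩]) (P1 := 1153060743) (W1 := 457551993) (P3 := 780900216) (W3 := 37827925) (n := ndB2q2) (c := cZ)
    ⟨T.a (T.a (T.a (T.l 0) (T.a (T.a (T.l 0) (T.l 0)) (T.c (T.l 0) (T.l 0)))) (T.l 0)) (T.l 0),
      by decide +kernel⟩
theorem cA_n1_32 : CertNd 1153060743 457551993 780900216 37827925 (ftNear true 2 mZ 1 1 1340) [⟨3, 429496730⟩] ndB3q2 cZ :=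
  certNd (T := (ftNear true 2 mZ 1 1 1340)) (L := [⟨3, 429496730⟩]) (P1 := 1153060743) (W1 := 457551993) (P3 := 780900216) (W3 := 37827925) (n := ndB3q2) (c := cZ)
    ⟨T.l 1,
      by decide +kernel⟩
theorem cA_n1_42 : CertNd 1153060743 457551993 780900216 37827925 (ftNear true 2 mZ 1 1 1340) [⟨3, 429496730⟩] ndB4q2 cZ :=
  certNd (T := (ftNear true 2 mZ 1 1 1340)) (L := [⟨3, 429496730⟩]) (P1 := 1153060743) (W1 := 457551993) (P3 := 780900216) (W3 := 37827925) (n := ndB4q2) (c := cZ)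
    ⟨T.l 1,
      by decide +kernel⟩
theorem cA_n1_52 : CertNd 1153060743 457551993 780900216 37827925 (ftNear true 2 mZ 1 1 1340) [⟨3, 429496730⟩] ndB5q2 cZ :=
  certNd (T := (ftNear true 2 mZ 1 1 1340)) (L := [⟨3, 429496730⟩]) (P1 := 1153060743) (W1 := 457551993) (P3 := 780900216) (W3 := 37827925) (n := ndB5q2) (c := cZ)
    ⟨T.l 1,
      by decide +kernel⟩
theorem cA_n1_13 : CertNd 1610612736 87982124 780900216 37827925 (ftNear true 3 mZ 1 1 1340) [⟨3, 429496730⟩] ndB1q3 cZ :=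
  certNd (T := (ftNear true 3 mZ 1 1 1340)) (L := [⟨3, 429496730⟩]) (P1 := 1610612736) (W1 := 87982124) (P3 := 780900216) (W3 := 37827925) (n := ndB1q3) (c := cZ)
    ⟨T.l 0,
      by decide +kernel⟩
theorem cA_n1_23 : CertNd 1610612736 87982124 780900216 37827925 (ftNear true 3 mZ 1 1 1340) [⟨3, 429496730⟩] ndB2q3 cZ :=
  certNd (T := (ftNear true 3 mZ 1 1 1340)) (L := [⟨3, 429496730⟩]) (P1 := 1610612736) (W1 := 87982124) (P3 := 780900216) (W3 := 37827925) (n := ndB2q3) (c := cZ)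
    ⟨T.l 0,
      by decide +kernel⟩
theorem cA_n1_33 : CertNd 0 1230186008 780900216 37827925 (ftNear true 3 mZ 1 1 1340) [⟨0, 1153060743⟩, ⟨1, 1698594860⟩, ⟨3, 429496730⟩] ndB3q3 cZ :=
  certNd (T := (ftNear true 3 mZ 1 1 1340)) (L := [⟨0, 1153060743⟩, ⟨1, 1698594860⟩, ⟨3, 429496730⟩]) (P1 := 0) (W1 := 1230186008) (P3 := 780900216) (W3 := 37827925) (n := ndB3q3) (c := cZ)
    ⟨T.a (T.l 3) (T.a (T.l 3) (T.a (T.l 3) (T.l 0))),
      by decide +kernel⟩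
theorem cA_n1_43 : CertNd 0 1230186008 780900216 37827925 (ftNear true 3 mZ 1 1 1340) [⟨0, 1153060743⟩, ⟨1, 1698594860⟩, ⟨3, 429496730⟩] ndB4q3 cZ :=
  certNd (T := (ftNear true 3 mZ 1 1 1340)) (L := [⟨0, 1153060743⟩, ⟨1, 1698594860⟩, ⟨3, 429496730⟩]) (P1 := 0) (W1 := 1230186008) (P3 := 780900216) (W3 := 37827925) (n := ndB4q3) (c := cZ)
    ⟨T.a (T.l 3) (T.a (T.l 3) (T.l 5)),
      by decide +kernel⟩
theorem cA_n1_53 : CertNd 0 1230186008 780900216 37827925 (ftNear true 3 mZ 1 1 1340) [⟨0, 1153060743⟩, ⟨1, 1698594860⟩, ⟨3, 429496730⟩] ndB5q3 cZ :=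
  certNd (T := (ftNear true 3 mZ 1 1 1340)) (L := [⟨0, 1153060743⟩, ⟨1, 1698594860⟩, ⟨3, 429496730⟩]) (P1 := 0) (W1 := 1230186008) (P3 := 780900216) (W3 := 37827925) (n := ndB5q3) (c := cZ)
    ⟨T.a (T.l 3) (T.l 5),
      by decide +kernel⟩
theorem cA_R1_2 : CertSd 1153060743 457551993 780900216 37827925 (ftFar true 2 mZ 1 1 1340 1100) [] idF (cnF 1100 1000) pcB2 dZ :=
  certSd (T := (ftFar true 2 mZ 1 1 1340 1100)) (L := []) (P1 := 1153060743) (W1 := 457551993) (P3 := 780900216) (W3 := 37827925) (Y := idF) (X := (cnF 1100 1000))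
    (pc := pcB2) (c := dZ) ⟨T.a (T.l 0) (T.l 0),
      by decide +kernel⟩
theorem cA_N1_2 : CertSd 1153060743 457551993 780900216 37827925 (ftNear true 2 mZ 1 1 1340) [] idF (cnF 400 1000) pcB2 dZ :=
  certSd (T := (ftNear true 2 mZ 1 1 1340)) (L := []) (P1 := 1153060743) (W1 := 457551993) (P3 := 780900216) (W3 := 37827925) (Y := idF) (X := (cnF 400 1000))
    (pc := pcB2) (c := dZ) ⟨T.a (T.a (T.a (T.a (T.l 0) (T.l 0)) (T.l 0)) (T.l 0)) (T.l 0),
      by decide +kernel⟩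
theorem cA_R1_3 : CertSd 1610612736 48318382 780900216 37827925 (ftFar true 3 mZ 1 1 1340 1100) [] idF (cnF 1100 1000) pcB3 dZ :=
  certSd (T := (ftFar true 3 mZ 1 1 1340 1100)) (L := []) (P1 := 1610612736) (W1 := 48318382) (P3 := 780900216) (W3 := 37827925) (Y := idF) (X := (cnF 1100 1000))
    (pc := pcB3) (c := dZ) ⟨T.l 0,
      by decide +kernel⟩
theorem cA_N1_3 : CertSd 1610612736 87982124 780900216 37827925 (ftNear true 3 mZ 1 1 1340) [] idF (cnF 400 1000) pcB3 dZ :=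
  certSd (T := (ftNear true 3 mZ 1 1 1340)) (L := []) (P1 := 1610612736) (W1 := 87982124) (P3 := 780900216) (W3 := 37827925) (Y := idF) (X := (cnF 400 1000))
    (pc := pcB3) (c := dZ) ⟨T.l 0,
      by decide +kernel⟩

end Pool.Agent.Strip051.G.I72727_7625.Tab
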