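import Pool.Agent.Strip051.G.I72727_7625.Fs

/-! # Certificates at the floor (generated) -/

set_option linter.all false

namespace Pool.Agent.Strip051.G.I72727_7625.Tab

open Pool.Agent.Strip051.PB

theorem cB_m00 : CertNd 0 536870912 780900216 37827925 (ftMono false 0 mT) [] (Node.sc eng ndB0q0) (Fn2.sc esg cd0q0) :=
  certNd (T := (ftMono false 0 mT)) (L := []) (P1 := 0) (W1 := 536870912) (P3 := 780900216) (W3 := 37827925) (n := (Node.sc eng ndB0q0)) (c := (Fn2.sc esg cd0q0))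
    ⟨T.a (T.a (T.l 0) (T.l 0)) (T.a (T.l 0) (T.l 0)),
      by decide +kernel⟩
theorem cB_m01 : CertNd 536870912 536870912 780900216 37827925 (ftMono false 1 mT) [] (Node.sc eng ndB0q1) (Fn2.sc esg cd0q1) :=
  certNd (T := (ftMono false 1 mT)) (L := []) (P1 := 536870912) (W1 := 536870912) (P3 := 780900216) (W3 := 37827925) (n := (Node.sc eng ndB0q1)) (c := (Fn2.sc esg cd0q1))
    ⟨T.a (T.a (T.l 0) (T.l 0)) (T.a (T.l 0) (T.l 0)),
      by decide +kernel⟩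
theorem cB_g00 : CertGe 0 67108864 780900216 37827925 false [] (((1 : ℕ) : ℝ) / ((5 : ℕ) : ℝ)) 0 ((0 : ℕ) : ℝ)
    (((2 : ℕ) : ℝ) / 2) mT (Node.sc eng ndB0q0) (Fn2.sc esg cd0q0) :=
  certGe (z := false) (L := []) (P1 := 0) (W1 := 67108864) (P3 := 780900216) (W3 := 37827925) (oa := 1) (ob := 5)
    (q := 0) (bb := 0) (hB := 2) (M := mT) (n := (Node.sc eng ndB0q0)) (c := (Fn2.sc esg cd0q0)) (sX := c1g_fs) (sK := (Sl2.sc eng kf0q0_fs))
    (sL := l0q0_fs) ⟨T.l 0,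
      by decide +kernel⟩
theorem cB_w00a : CertNd 67108864 469762048 780900216 37827925 (ftWall false 0 mT 1 5) [] (Node.sc eng ndB0q0) (Fn2.sc esg cd0q0) :=
  certNd (T := (ftWall false 0 mT 1 5)) (L := []) (P1 := 67108864) (W1 := 469762048) (P3 := 780900216) (W3 := 37827925) (n := (Node.sc eng ndB0q0)) (c := (Fn2.sc esg cd0q0))
    ⟨T.a (T.a (T.a (T.a (T.l 0) (T.l 0)) (T.c (T.l 0) (T.l 0))) (T.a (T.c (T.l 0) (T.l 0)) (T.a (T.l 0) (T.c (T.l 0) (T.l 0))))) (T.a (T.a (T.a (T.c (T.l 0) (T.l 0)) (T.c (T.l 0) (T.l 0))) (T.a (T.c (T.l 0) (T.l 0)) (T.c (T.a (T.a (T.c (T.c (T.l 0) (T.c (T.l 0) (T.l 0))) (T.l 0)) (T.c (T.l 0) (T.l 0))) (T.l 0)) (T.a (T.c (T.a (T.l 0) (T.l 0)) (T.l 0)) (T.c (T.l 0) (T.l 0)))))) (T.a (T.a (T.c (T.l 0) (T.l 0)) (T.c (T.l 0) (T.l 0))) (T.a (T.c (T.c (T.l 0) (T.l 0)) (T.l 0)) (T.c (T.a (T.l 0) (T.l 0)) (T.l 0))))),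
      by decide +kernel⟩
theorem cB_w01a : CertNd 536870912 217969590 780900216 37827925 (ftWall false 1 mT 1 5) [] (Node.sc eng ndB0q1) (Fn2.sc esg cd0q1) :=
  certNd (T := (ftWall false 1 mT 1 5)) (L := []) (P1 := 536870912) (W1 := 217969590) (P3 := 780900216) (W3 := 37827925) (n := (Node.sc eng ndB0q1)) (c := (Fn2.sc esg cd0q1))
    ⟨T.a (T.a (T.a (T.c (T.c (T.l 0) (T.l 0)) (T.l 0)) (T.c (T.c (T.l 0) (T.l 0)) (T.l 0))) (T.c (T.a (T.c (T.l 0) (T.l 0)) (T.c (T.l 0) (T.l 0))) (T.l 0))) (T.a (T.a (T.c (T.l 0) (T.l 0)) (T.c (T.l 0) (T.l 0))) (T.a (T.c (T.a (T.l 0) (T.l 0)) (T.l 0)) (T.c (T.a (T.l 0) (T.c (T.l 0) (T.l 0))) (T.c (T.l 0) (T.l 0))))),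
      by decide +kernel⟩
theorem cB_w01b : CertNd 845034815 203715669 780900216 37827925 (ftWall false 1 mT 1 5) [] (Node.sc eng ndB0q1) (Fn2.sc esg cd0q1) :=
  certNd (T := (ftWall false 1 mT 1 5)) (L := []) (P1 := 845034815) (W1 := 203715669) (P3 := 780900216) (W3 := 37827925) (n := (Node.sc eng ndB0q1)) (c := (Fn2.sc esg cd0q1))
    ⟨T.a (T.a (T.a (T.c (T.l 0) (T.a (T.l 0) (T.l 0))) (T.l 0)) (T.a (T.l 0) (T.l 0))) (T.a (T.l 0) (T.l 0)),
      by decide +kernel⟩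
theorem cB_g01 : CertGe 1048750484 24991340 780900216 37827925 false [] (((1 : ℕ) : ℝ) / ((5 : ℕ) : ℝ)) 1 ((1 : ℕ) : ℝ)
    (((1 : ℕ) : ℝ) / 2) mT (Node.sc eng ndB0q1) (Fn2.sc esg cd0q1) :=
  certGe (z := false) (L := []) (P1 := 1048750484) (W1 := 24991340) (P3 := 780900216) (W3 := 37827925) (oa := 1) (ob := 5)
    (q := 1) (bb := 1) (hB := 1) (M := mT) (n := (Node.sc eng ndB0q1)) (c := (Fn2.sc esg cd0q1)) (sX := c1g_fs) (sK := (Sl2.sc eng kf0q1_fs))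
    (sL := l0q1_fs) ⟨T.l 0,
      by decide +kernel⟩
theorem cB_tl : CertTg 754840502 90194313 780900216 37827925 (ftTk true mT mZ dlg 5 1) [⟨6, 0⟩] :=
  certTg (T := (ftTk true mT mZ dlg 5 1)) (L := [⟨6, 0⟩]) (P1 := 754840502) (W1 := 90194313) (P3 := 780900216) (W3 := 37827925)
    ⟨T.l 0,
      by decide +kernel⟩
theorem cB_th : CertTg 754840502 90194313 780900216 37827925 (ftTk false mT mZ dlg 1141 500) [⟨5, 0⟩] :=
  certTg (T := (ftTk false mT mZ dlg 1141 500)) (L := [⟨5, 0⟩]) (P1 := 754840502) (W1 := 90194313) (P3 := 780900216) (W3 := 37827925)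
    ⟨T.l 0,
      by decide +kernel⟩
theorem cB_m10 : CertNd 0 66571993 780900216 37827925 (ftMono false 0 mT) [] (Node.sc eng ndB1q0) (Fn2.sc esg cd1q0) :=
  certNd (T := (ftMono false 0 mT)) (L := []) (P1 := 0) (W1 := 66571993) (P3 := 780900216) (W3 := 37827925) (n := (Node.sc eng ndB1q0)) (c := (Fn2.sc esg cd1q0))
    ⟨T.l 0,
      by decide +kernel⟩
theorem cB_g10 : CertGe 0 66571993 780900216 37827925 false [] (((1 : ℕ) : ℝ) / ((5 : ℕ) : ℝ)) 0 ((0 : ℕ) : ℝ)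
    (((2 : ℕ) : ℝ) / 2) mT (Node.sc eng ndB1q0) (Fn2.sc esg cd1q0) :=
  certGe (z := false) (L := []) (P1 := 0) (W1 := 66571993) (P3 := 780900216) (W3 := 37827925) (oa := 1) (ob := 5)
    (q := 0) (bb := 0) (hB := 2) (M := mT) (n := (Node.sc eng ndB1q0)) (c := (Fn2.sc esg cd1q0)) (sX := cv1m_fs) (sK := (Sl2.sc eng kf1q0_fs))
    (sL := l1q0_fs) ⟨T.l 0,
      by decide +kernel⟩
theorem cB_w10 : CertNd 66571993 470298919 780900216 37827925 (ftWall false 0 mT 1 5) [] (Node.sc eng ndB1q0) (Fn2.sc esg cd1q0) :=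
  certNd (T := (ftWall false 0 mT 1 5)) (L := []) (P1 := 66571993) (W1 := 470298919) (P3 := 780900216) (W3 := 37827925) (n := (Node.sc eng ndB1q0)) (c := (Fn2.sc esg cd1q0))
    ⟨T.a (T.a (T.a (T.l 0) (T.l 0)) (T.l 0)) (T.a (T.l 0) (T.l 0)),
      by decide +kernel⟩
theorem cB_w11 : CertNd 536870912 536870912 780900216 37827925 (ftWall false 1 mT 1 5) [] (Node.sc eng ndB1q1) (Fn2.sc esg cd1q1) :=
  certNd (T := (ftWall false 1 mT 1 5)) (L := []) (P1 := 536870912) (W1 := 536870912) (P3 := 780900216) (W3 := 37827925) (n := (Node.sc eng ndB1q1)) (c := (Fn2.sc esg cd1q1))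
    ⟨T.a (T.a (T.l 0) (T.l 0)) (T.a (T.l 0) (T.l 0)),
      by decide +kernel⟩
theorem cB_m20 : CertNd 0 66571993 780900216 37827925 (ftMono false 0 mT) [] (Node.sc eng ndB2q0) (Fn2.sc esg cd2q0) :=
  certNd (T := (ftMono false 0 mT)) (L := []) (P1 := 0) (W1 := 66571993) (P3 := 780900216) (W3 := 37827925) (n := (Node.sc eng ndB2q0)) (c := (Fn2.sc esg cd2q0))
    ⟨T.l 0,
      by decide +kernel⟩
theorem cB_g20 : CertGe 0 66571993 780900216 37827925 false [] (((1 : ℕ) : ℝ) / ((5 : ℕ) : ℝ)) 0 ((0 : ℕ) : ℝ)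
    (((2 : ℕ) : ℝ) / 2) mT (Node.sc eng ndB2q0) (Fn2.sc esg cd2q0) :=
  certGe (z := false) (L := []) (P1 := 0) (W1 := 66571993) (P3 := 780900216) (W3 := 37827925) (oa := 1) (ob := 5)
    (q := 0) (bb := 0) (hB := 2) (M := mT) (n := (Node.sc eng ndB2q0)) (c := (Fn2.sc esg cd2q0)) (sX := cv2m_fs) (sK := (Sl2.sc eng kf2q0_fs))
    (sL := l2q0_fs) ⟨T.l 0,
      by decide +kernel⟩
theorem cB_w20 : CertNd 66571993 470298919 780900216 37827925 (ftWall false 0 mT 1 5) [] (Node.sc eng ndB2q0) (Fn2.sc esg cd2q0) :=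
  certNd (T := (ftWall false 0 mT 1 5)) (L := []) (P1 := 66571993) (W1 := 470298919) (P3 := 780900216) (W3 := 37827925) (n := (Node.sc eng ndB2q0)) (c := (Fn2.sc esg cd2q0))
    ⟨T.a (T.a (T.a (T.l 0) (T.l 0)) (T.l 0)) (T.a (T.l 0) (T.l 0)),
      by decide +kernel⟩
theorem cB_w21 : CertNd 536870912 536870912 780900216 37827925 (ftWall false 1 mT 1 5) [] (Node.sc eng ndB2q1) (Fn2.sc esg cd2q1) :=
  certNd (T := (ftWall false 1 mT 1 5)) (L := []) (P1 := 536870912) (W1 := 536870912) (P3 := 780900216) (W3 := 37827925) (n := (Node.sc eng ndB2q1)) (c := (Fn2.sc esg cd2q1))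
    ⟨T.a (T.l 0) (T.a (T.l 0) (T.l 0)),
      by decide +kernel⟩
theorem cB_f30 : CertNd 0 37195508 780900216 37827925 (ftFlat false 0 mT 1 5) [] (Node.sc eng ndB3q0) (Fn2.sc esg cd3q0) :=
  certNd (T := (ftFlat false 0 mT 1 5)) (L := []) (P1 := 0) (W1 := 37195508) (P3 := 780900216) (W3 := 37827925) (n := (Node.sc eng ndB3q0)) (c := (Fn2.sc esg cd3q0))
    ⟨T.l 0,
      by decide +kernel⟩
theorem cB_l30 : CertNd 0 37195508 780900216 37827925 (ftWall false 0 mT 1 5) [⟨3, 1181116007⟩] (Node.sc eng ndB3q0) (Fn2.sc esg cd3q0) :=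
  certNd (T := (ftWall false 0 mT 1 5)) (L := [⟨3, 1181116007⟩]) (P1 := 0) (W1 := 37195508) (P3 := 780900216) (W3 := 37827925) (n := (Node.sc eng ndB3q0)) (c := (Fn2.sc esg cd3q0))
    ⟨T.l 0,
      by decide +kernel⟩
theorem cB_w30 : CertNd 37195507 499675405 780900216 37827925 (ftWall false 0 mT 1 5) [] (Node.sc eng ndB3q0) (Fn2.sc esg cd3q0) :=
  certNd (T := (ftWall false 0 mT 1 5)) (L := []) (P1 := 37195507) (W1 := 499675405) (P3 := 780900216) (W3 := 37827925) (n := (Node.sc eng ndB3q0)) (c := (Fn2.sc esg cd3q0))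
    ⟨T.a (T.a (T.l 0) (T.a (T.l 0) (T.l 0))) (T.a (T.l 0) (T.l 0)),
      by decide +kernel⟩
theorem cB_w31 : CertNd 536870912 536870912 780900216 37827925 (ftWall false 1 mT 1 5) [] (Node.sc eng ndB3q1) (Fn2.sc esg cd3q1) :=
  certNd (T := (ftWall false 1 mT 1 5)) (L := []) (P1 := 536870912) (W1 := 536870912) (P3 := 780900216) (W3 := 37827925) (n := (Node.sc eng ndB3q1)) (c := (Fn2.sc esg cd3q1))
    ⟨T.a (T.l 0) (T.a (T.l 0) (T.l 0)),
      by decide +kernel⟩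
theorem cB_w32 : CertNd 1073741824 166215235 780900216 37827925 (ftWall false 2 mT 1 5) [⟨4, 0⟩] (Node.sc eng ndB3q2) (Fn2.sc esg cd3q2) :=
  certNd (T := (ftWall false 2 mT 1 5)) (L := [⟨4, 0⟩]) (P1 := 1073741824) (W1 := 166215235) (P3 := 780900216) (W3 := 37827925) (n := (Node.sc eng ndB3q2)) (c := (Fn2.sc esg cd3q2))
    ⟨T.l 0,
      by decide +kernel⟩
theorem cB_f40 : CertNd 0 37195508 780900216 37827925 (ftFlat false 0 mT 1 5) [] (Node.sc eng ndB4q0) (Fn2.sc esg cd4q0) :=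
  certNd (T := (ftFlat false 0 mT 1 5)) (L := []) (P1 := 0) (W1 := 37195508) (P3 := 780900216) (W3 := 37827925) (n := (Node.sc eng ndB4q0)) (c := (Fn2.sc esg cd4q0))
    ⟨T.l 0,
      by decide +kernel⟩
theorem cB_l40 : CertNd 0 37195508 780900216 37827925 (ftWall false 0 mT 1 5) [⟨3, 1181116007⟩] (Node.sc eng ndB4q0) (Fn2.sc esg cd4q0) :=
  certNd (T := (ftWall false 0 mT 1 5)) (L := [⟨3, 1181116007⟩]) (P1 := 0) (W1 := 37195508) (P3 := 780900216) (W3 := 37827925) (n := (Node.sc eng ndB4q0)) (c := (Fn2.sc esg cd4q0))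
    ⟨T.l 1,
      by decide +kernel⟩
theorem cB_w40 : CertNd 37195507 499675405 780900216 37827925 (ftWall false 0 mT 1 5) [] (Node.sc eng ndB4q0) (Fn2.sc esg cd4q0) :=
  certNd (T := (ftWall false 0 mT 1 5)) (L := []) (P1 := 37195507) (W1 := 499675405) (P3 := 780900216) (W3 := 37827925) (n := (Node.sc eng ndB4q0)) (c := (Fn2.sc esg cd4q0))
    ⟨T.a (T.a (T.a (T.a (T.a (T.c (T.l 0) (T.l 0)) (T.l 0)) (T.l 0)) (T.l 0)) (T.l 0)) (T.l 0),
      by decide +kernel⟩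
theorem cB_w41 : CertNd 536870912 536870912 780900216 37827925 (ftWall false 1 mT 1 5) [] (Node.sc eng ndB4q1) (Fn2.sc esg cd4q1) :=
  certNd (T := (ftWall false 1 mT 1 5)) (L := []) (P1 := 536870912) (W1 := 536870912) (P3 := 780900216) (W3 := 37827925) (n := (Node.sc eng ndB4q1)) (c := (Fn2.sc esg cd4q1))
    ⟨T.a (T.l 0) (T.a (T.l 0) (T.l 0)),
      by decide +kernel⟩
theorem cB_w42 : CertNd 1073741824 166215235 780900216 37827925 (ftWall false 2 mT 1 5) [⟨4, 0⟩] (Node.sc eng ndB4q2) (Fn2.sc esg cd4q2) :=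
  certNd (T := (ftWall false 2 mT 1 5)) (L := [⟨4, 0⟩]) (P1 := 1073741824) (W1 := 166215235) (P3 := 780900216) (W3 := 37827925) (n := (Node.sc eng ndB4q2)) (c := (Fn2.sc esg cd4q2))
    ⟨T.l 0,
      by decide +kernel⟩
theorem cB_f50 : CertNd 0 37195508 780900216 37827925 (ftFlat false 0 mT 1 5) [] (Node.sc eng ndB5q0) (Fn2.sc esg cd5q0) :=
  certNd (T := (ftFlat false 0 mT 1 5)) (L := []) (P1 := 0) (W1 := 37195508) (P3 := 780900216) (W3 := 37827925) (n := (Node.sc eng ndB5q0)) (c := (Fn2.sc esg cd5q0))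
    ⟨T.l 0,
      by decide +kernel⟩
theorem cB_l50 : CertNd 0 37195508 780900216 37827925 (ftWall false 0 mT 1 5) [⟨3, 1181116007⟩] (Node.sc eng ndB5q0) (Fn2.sc esg cd5q0) :=
  certNd (T := (ftWall false 0 mT 1 5)) (L := [⟨3, 1181116007⟩]) (P1 := 0) (W1 := 37195508) (P3 := 780900216) (W3 := 37827925) (n := (Node.sc eng ndB5q0)) (c := (Fn2.sc esg cd5q0))
    ⟨T.l 1,
      by decide +kernel⟩
theorem cB_w50 : CertNd 37195507 499675405 780900216 37827925 (ftWall false 0 mT 1 5) [] (Node.sc eng ndB5q0) (Fn2.sc esg cd5q0) :=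
  certNd (T := (ftWall false 0 mT 1 5)) (L := []) (P1 := 37195507) (W1 := 499675405) (P3 := 780900216) (W3 := 37827925) (n := (Node.sc eng ndB5q0)) (c := (Fn2.sc esg cd5q0))
    ⟨T.a (T.a (T.a (T.l 0) (T.l 0)) (T.l 0)) (T.l 0),
      by decide +kernel⟩
theorem cB_w51 : CertNd 536870912 536870912 780900216 37827925 (ftWall false 1 mT 1 5) [] (Node.sc eng ndB5q1) (Fn2.sc esg cd5q1) :=
  certNd (T := (ftWall false 1 mT 1 5)) (L := []) (P1 := 536870912) (W1 := 536870912) (P3 := 780900216) (W3 := 37827925) (n := (Node.sc eng ndB5q1)) (c := (Fn2.sc esg cd5q1))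
    ⟨T.a (T.l 0) (T.a (T.l 0) (T.l 0)),
      by decide +kernel⟩
theorem cB_w52 : CertNd 1073741824 166215235 780900216 37827925 (ftWall false 2 mT 1 5) [⟨4, 0⟩] (Node.sc eng ndB5q2) (Fn2.sc esg cd5q2) :=
  certNd (T := (ftWall false 2 mT 1 5)) (L := [⟨4, 0⟩]) (P1 := 1073741824) (W1 := 166215235) (P3 := 780900216) (W3 := 37827925) (n := (Node.sc eng ndB5q2)) (c := (Fn2.sc esg cd5q2))
    ⟨T.l 0,
      by decide +kernel⟩
theorem cB_ll : CertSd 0 37195508 780900216 37827925 (ftWall false 0 mT 1 5) [] idF (cnF 1100 1000) pcE0 (Fn3.sc esg pd0) :=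
  certSd (T := (ftWall false 0 mT 1 5)) (L := []) (P1 := 0) (W1 := 37195508) (P3 := 780900216) (W3 := 37827925) (Y := idF) (X := (cnF 1100 1000))
    (pc := pcE0) (c := (Fn3.sc esg pd0)) ⟨T.l 0,
      by decide +kernel⟩
theorem cB_st : CertSt 1073741824 66571993 780900216 37827925 false [] (((1 : ℕ) : ℝ) / ((5 : ℕ) : ℝ)) mT (Node.sc eng ndB2q2) (Fn2.sc esg cd2q2) (Node.sc eng ndB3q2) (Fn2.sc esg cd3q2) :=
  certSt (z := false) (L := []) (P1 := 1073741824) (W1 := 66571993) (P3 := 780900216) (W3 := 37827925) (oa := 1) (ob := 5)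
    (M := mT) (n := (Node.sc eng ndB2q2)) (c := (Fn2.sc esg cd2q2)) (n' := (Node.sc eng ndB3q2)) (c' := (Fn2.sc esg cd3q2)) (sX := cv2p_fs) (sK := (Sl2.sc eng kf2q2_fs)) (sL := l2q2_fs)
    ⟨T.l 0,
      by decide +kernel⟩
theorem cB_sm : CertSd 421526751 115344161 780900216 37827925 (ftMono false 2 mT) [] ygF xsF pcE2 (Fn3.sc esg pd2) :=
  certSd (T := (ftMono false 2 mT)) (L := []) (P1 := 421526751) (W1 := 115344161) (P3 := 780900216) (W3 := 37827925) (Y := ygF) (X := xsF)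
    (pc := pcE2) (c := (Fn3.sc esg pd2)) ⟨T.l 0,
      by decide +kernel⟩
theorem cB_sw : CertSd 0 421526755 780900216 37827925 (ftWall false 2 mT 1 5) [] ygF xsF pcE2 (Fn3.sc esg pd2) :=
  certSd (T := (ftWall false 2 mT 1 5)) (L := []) (P1 := 0) (W1 := 421526755) (P3 := 780900216) (W3 := 37827925) (Y := ygF) (X := xsF)
    (pc := pcE2) (c := (Fn3.sc esg pd2)) ⟨T.a (T.l 0) (T.a (T.l 0) (T.l 0)),
      by decide +kernel⟩
theorem cB_h0_01 : CertNd 991880209 74391017 780900216 37827925 (ftHigh false 1 mT 1 5 100 1100) [] (Node.sc eng ndB0q1) (Fn2.sc esg cd0q1) :=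
  certNd (T := (ftHigh false 1 mT 1 5 100 1100)) (L := []) (P1 := 991880209) (W1 := 74391017) (P3 := 780900216) (W3 := 37827925) (n := (Node.sc eng ndB0q1)) (c := (Fn2.sc esg cd0q1))
    ⟨T.a (T.l 0) (T.c (T.l 0) (T.l 0)),
      by decide +kernel⟩
theorem cB_h0_11 : CertNd 991880209 74391017 780900216 37827925 (ftHigh false 1 mT 1 5 100 1100) [] (Node.sc eng ndB1q1) (Fn2.sc esg cd1q1) :=
  certNd (T := (ftHigh false 1 mT 1 5 100 1100)) (L := []) (P1 := 991880209) (W1 := 74391017) (P3 := 780900216) (W3 := 37827925) (n := (Node.sc eng ndB1q1)) (c := (Fn2.sc esg cd1q1))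
    ⟨T.l 0,
      by decide +kernel⟩
theorem cB_h0_21 : CertNd 991880209 74391017 780900216 37827925 (ftHigh false 1 mT 1 5 100 1100) [] (Node.sc eng ndB2q1) (Fn2.sc esg cd2q1) :=
  certNd (T := (ftHigh false 1 mT 1 5 100 1100)) (L := []) (P1 := 991880209) (W1 := 74391017) (P3 := 780900216) (W3 := 37827925) (n := (Node.sc eng ndB2q1)) (c := (Fn2.sc esg cd2q1))
    ⟨T.l 0,
      by decide +kernel⟩
theorem cB_h0_31 : CertNd 991880209 74391017 780900216 37827925 (ftHigh false 1 mT 1 5 100 1100) [] (Node.sc eng ndB3q1) (Fn2.sc esg cd3q1) :=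
  certNd (T := (ftHigh false 1 mT 1 5 100 1100)) (L := []) (P1 := 991880209) (W1 := 74391017) (P3 := 780900216) (W3 := 37827925) (n := (Node.sc eng ndB3q1)) (c := (Fn2.sc esg cd3q1))
    ⟨T.l 0,
      by decide +kernel⟩
theorem cB_h0_41 : CertNd 991880209 74391017 780900216 37827925 (ftHigh false 1 mT 1 5 100 1100) [] (Node.sc eng ndB4q1) (Fn2.sc esg cd4q1) :=
  certNd (T := (ftHigh false 1 mT 1 5 100 1100)) (L := []) (P1 := 991880209) (W1 := 74391017) (P3 := 780900216) (W3 := 37827925) (n := (Node.sc eng ndB4q1)) (c := (Fn2.sc esg cd4q1))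
    ⟨T.l 0,
      by decide +kernel⟩
theorem cB_h0_51 : CertNd 991880209 74391017 780900216 37827925 (ftHigh false 1 mT 1 5 100 1100) [] (Node.sc eng ndB5q1) (Fn2.sc esg cd5q1) :=
  certNd (T := (ftHigh false 1 mT 1 5 100 1100)) (L := []) (P1 := 991880209) (W1 := 74391017) (P3 := 780900216) (W3 := 37827925) (n := (Node.sc eng ndB5q1)) (c := (Fn2.sc esg cd5q1))
    ⟨T.l 0,
      by decide +kernel⟩
theorem cB_h1_01 : CertNd 1029075717 44666107 780900216 37827925 (ftHigh false 1 mT 1 5 770 1100) [] (Node.sc eng ndB0q1) (Fn2.sc esg cd0q1) :=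
  certNd (T := (ftHigh false 1 mT 1 5 770 1100)) (L := []) (P1 := 1029075717) (W1 := 44666107) (P3 := 780900216) (W3 := 37827925) (n := (Node.sc eng ndB0q1)) (c := (Fn2.sc esg cd0q1))
    ⟨T.a (T.l 0) (T.l 0),
      by decide +kernel⟩
theorem cB_h1_11 : CertNd 1029075717 44666107 780900216 37827925 (ftHigh false 1 mT 1 5 770 1100) [] (Node.sc eng ndB1q1) (Fn2.sc esg cd1q1) :=
  certNd (T := (ftHigh false 1 mT 1 5 770 1100)) (L := []) (P1 := 1029075717) (W1 := 44666107) (P3 := 780900216) (W3 := 37827925) (n := (Node.sc eng ndB1q1)) (c := (Fn2.sc esg cd1q1))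
    ⟨T.c (T.l 0) (T.l 0),
      by decide +kernel⟩
theorem cB_h1_21 : CertNd 1029075717 44666107 780900216 37827925 (ftHigh false 1 mT 1 5 770 1100) [] (Node.sc eng ndB2q1) (Fn2.sc esg cd2q1) :=
  certNd (T := (ftHigh false 1 mT 1 5 770 1100)) (L := []) (P1 := 1029075717) (W1 := 44666107) (P3 := 780900216) (W3 := 37827925) (n := (Node.sc eng ndB2q1)) (c := (Fn2.sc esg cd2q1))
    ⟨T.l 0,
      by decide +kernel⟩
theorem cB_h1_31 : CertNd 1029075717 44666107 780900216 37827925 (ftHigh false 1 mT 1 5 770 1100) [] (Node.sc eng ndB3q1) (Fn2.sc esg cd3q1) :=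
  certNd (T := (ftHigh false 1 mT 1 5 770 1100)) (L := []) (P1 := 1029075717) (W1 := 44666107) (P3 := 780900216) (W3 := 37827925) (n := (Node.sc eng ndB3q1)) (c := (Fn2.sc esg cd3q1))
    ⟨T.l 0,
      by decide +kernel⟩
theorem cB_h1_41 : CertNd 1029075717 44666107 780900216 37827925 (ftHigh false 1 mT 1 5 770 1100) [] (Node.sc eng ndB4q1) (Fn2.sc esg cd4q1) :=
  certNd (T := (ftHigh false 1 mT 1 5 770 1100)) (L := []) (P1 := 1029075717) (W1 := 44666107) (P3 := 780900216) (W3 := 37827925) (n := (Node.sc eng ndB4q1)) (c := (Fn2.sc esg cd4q1))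
    ⟨T.l 0,
      by decide +kernel⟩
theorem cB_h1_51 : CertNd 1029075717 44666107 780900216 37827925 (ftHigh false 1 mT 1 5 770 1100) [] (Node.sc eng ndB5q1) (Fn2.sc esg cd5q1) :=
  certNd (T := (ftHigh false 1 mT 1 5 770 1100)) (L := []) (P1 := 1029075717) (W1 := 44666107) (P3 := 780900216) (W3 := 37827925) (n := (Node.sc eng ndB5q1)) (c := (Fn2.sc esg cd5q1))
    ⟨T.l 0,
      by decide +kernel⟩
theorem cB_h1_02 : CertNd 0 536870912 780900216 37827925 (ftHigh false 2 mT 1 5 770 1100) [⟨0, 1029075717⟩, ⟨1, 1153060744⟩] (Node.sc eng ndB0q2) (Fn2.sc esg cd0q2) :=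
  certNd (T := (ftHigh false 2 mT 1 5 770 1100)) (L := [⟨0, 1029075717⟩, ⟨1, 1153060744⟩]) (P1 := 0) (W1 := 536870912) (P3 := 780900216) (W3 := 37827925) (n := (Node.sc eng ndB0q2)) (c := (Fn2.sc esg cd0q2))
    ⟨T.a (T.l 3) (T.a (T.a (T.l 3) (T.l 0)) (T.l 0)),
      by decide +kernel⟩
theorem cB_h1_12 : CertNd 1073741824 79318920 780900216 37827925 (ftHigh false 2 mT 1 5 770 1100) [] (Node.sc eng ndB1q2) (Fn2.sc esg cd1q2) :=
  certNd (T := (ftHigh false 2 mT 1 5 770 1100)) (L := []) (P1 := 1073741824) (W1 := 79318920) (P3 := 780900216) (W3 := 37827925) (n := (Node.sc eng ndB1q2)) (c := (Fn2.sc esg cd1q2))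
    ⟨T.l 0,
      by decide +kernel⟩
theorem cB_h1_22 : CertNd 1073741824 79318920 780900216 37827925 (ftHigh false 2 mT 1 5 770 1100) [] (Node.sc eng ndB2q2) (Fn2.sc esg cd2q2) :=
  certNd (T := (ftHigh false 2 mT 1 5 770 1100)) (L := []) (P1 := 1073741824) (W1 := 79318920) (P3 := 780900216) (W3 := 37827925) (n := (Node.sc eng ndB2q2)) (c := (Fn2.sc esg cd2q2))
    ⟨T.l 0,
      by decide +kernel⟩
theorem cB_h1_32 : CertNd 1073741824 79318920 780900216 37827925 (ftHigh false 2 mT 1 5 770 1100) [] (Node.sc eng ndB3q2) (Fn2.sc esg cd3q2) :=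
  certNd (T := (ftHigh false 2 mT 1 5 770 1100)) (L := []) (P1 := 1073741824) (W1 := 79318920) (P3 := 780900216) (W3 := 37827925) (n := (Node.sc eng ndB3q2)) (c := (Fn2.sc esg cd3q2))
    ⟨T.l 0,
      by decide +kernel⟩
theorem cB_h1_42 : CertNd 1073741824 79318920 780900216 37827925 (ftHigh false 2 mT 1 5 770 1100) [] (Node.sc eng ndB4q2) (Fn2.sc esg cd4q2) :=
  certNd (T := (ftHigh false 2 mT 1 5 770 1100)) (L := []) (P1 := 1073741824) (W1 := 79318920) (P3 := 780900216) (W3 := 37827925) (n := (Node.sc eng ndB4q2)) (c := (Fn2.sc esg cd4q2))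
    ⟨T.l 0,
      by decide +kernel⟩
theorem cB_h1_52 : CertNd 1073741824 79318920 780900216 37827925 (ftHigh false 2 mT 1 5 770 1100) [] (Node.sc eng ndB5q2) (Fn2.sc esg cd5q2) :=
  certNd (T := (ftHigh false 2 mT 1 5 770 1100)) (L := []) (P1 := 1073741824) (W1 := 79318920) (P3 := 780900216) (W3 := 37827925) (n := (Node.sc eng ndB5q2)) (c := (Fn2.sc esg cd5q2))
    ⟨T.l 0,
      by decide +kernel⟩
theorem cB_h2_02 : CertNd 0 536870912 780900216 37827925 (ftHigh false 2 mT 1 5 1040 1100) [⟨0, 1115865236⟩, ⟨1, 2144940954⟩] (Node.sc eng ndB0q2) (Fn2.sc esg cd0q2) :=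
  certNd (T := (ftHigh false 2 mT 1 5 1040 1100)) (L := [⟨0, 1115865236⟩, ⟨1, 2144940954⟩]) (P1 := 0) (W1 := 536870912) (P3 := 780900216) (W3 := 37827925) (n := (Node.sc eng ndB0q2)) (c := (Fn2.sc esg cd0q2))
    ⟨T.a (T.a (T.l 0) (T.l 0)) (T.a (T.l 0) (T.l 0)),
      by decide +kernel⟩
theorem cB_h2_12 : CertNd 1115865236 494747500 780900216 37827925 (ftHigh false 2 mT 1 5 1040 1100) [] (Node.sc eng ndB1q2) (Fn2.sc esg cd1q2) :=
  certNd (T := (ftHigh false 2 mT 1 5 1040 1100)) (L := []) (P1 := 1115865236) (W1 := 494747500) (P3 := 780900216) (W3 := 37827925) (n := (Node.sc eng ndB1q2)) (c := (Fn2.sc esg cd1q2))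
    ⟨T.a (T.a (T.a (T.l 0) (T.a (T.l 0) (T.l 0))) (T.l 0)) (T.l 0),
      by decide +kernel⟩
theorem cB_h2_22 : CertNd 1115865236 494747500 780900216 37827925 (ftHigh false 2 mT 1 5 1040 1100) [] (Node.sc eng ndB2q2) (Fn2.sc esg cd2q2) :=
  certNd (T := (ftHigh false 2 mT 1 5 1040 1100)) (L := []) (P1 := 1115865236) (W1 := 494747500) (P3 := 780900216) (W3 := 37827925) (n := (Node.sc eng ndB2q2)) (c := (Fn2.sc esg cd2q2))
    ⟨T.a (T.a (T.a (T.l 0) (T.a (T.l 0) (T.l 0))) (T.l 0)) (T.a (T.l 0) (T.l 0)),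
      by decide +kernel⟩
theorem cB_h2_32 : CertNd 1115865236 494747500 780900216 37827925 (ftHigh false 2 mT 1 5 1040 1100) [] (Node.sc eng ndB3q2) (Fn2.sc esg cd3q2) :=
  certNd (T := (ftHigh false 2 mT 1 5 1040 1100)) (L := []) (P1 := 1115865236) (W1 := 494747500) (P3 := 780900216) (W3 := 37827925) (n := (Node.sc eng ndB3q2)) (c := (Fn2.sc esg cd3q2))
    ⟨T.a (T.a (T.l 0) (T.l 0)) (T.a (T.l 0) (T.l 0)),
      by decide +kernel⟩
theorem cB_h2_42 : CertNd 1115865236 494747500 780900216 37827925 (ftHigh false 2 mT 1 5 1040 1100) [] (Node.sc eng ndB4q2) (Fn2.sc esg cd4q2) :=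
  certNd (T := (ftHigh false 2 mT 1 5 1040 1100)) (L := []) (P1 := 1115865236) (W1 := 494747500) (P3 := 780900216) (W3 := 37827925) (n := (Node.sc eng ndB4q2)) (c := (Fn2.sc esg cd4q2))
    ⟨T.a (T.a (T.l 0) (T.l 0)) (T.l 0),
      by decide +kernel⟩
theorem cB_h2_52 : CertNd 1115865236 494747500 780900216 37827925 (ftHigh false 2 mT 1 5 1040 1100) [] (Node.sc eng ndB5q2) (Fn2.sc esg cd5q2) :=
  certNd (T := (ftHigh false 2 mT 1 5 1040 1100)) (L := []) (P1 := 1115865236) (W1 := 494747500) (P3 := 780900216) (W3 := 37827925) (n := (Node.sc eng ndB5q2)) (c := (Fn2.sc esg cd5q2))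
    ⟨T.a (T.a (T.l 0) (T.l 0)) (T.a (T.l 0) (T.l 0)),
      by decide +kernel⟩
theorem cB_h2_13 : CertNd 1610612736 534328218 780900216 37827925 (ftHigh false 3 mT 1 5 1040 1100) [] (Node.sc eng ndB1q3) (Fn2.sc esg cd1q3) :=
  certNd (T := (ftHigh false 3 mT 1 5 1040 1100)) (L := []) (P1 := 1610612736) (W1 := 534328218) (P3 := 780900216) (W3 := 37827925) (n := (Node.sc eng ndB1q3)) (c := (Fn2.sc esg cd1q3))
    ⟨T.a (T.l 0) (T.a (T.l 0) (T.l 0)),
      by decide +kernel⟩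
theorem cB_h2_23 : CertNd 1610612736 534328218 780900216 37827925 (ftHigh false 3 mT 1 5 1040 1100) [] (Node.sc eng ndB2q3) (Fn2.sc esg cd2q3) :=
  certNd (T := (ftHigh false 3 mT 1 5 1040 1100)) (L := []) (P1 := 1610612736) (W1 := 534328218) (P3 := 780900216) (W3 := 37827925) (n := (Node.sc eng ndB2q3)) (c := (Fn2.sc esg cd2q3))
    ⟨T.a (T.a (T.l 0) (T.l 0)) (T.a (T.l 0) (T.l 0)),
      by decide +kernel⟩
theorem cB_h2_33 : CertNd 0 1230186008 780900216 37827925 (ftHigh false 3 mT 1 5 1040 1100) [⟨0, 1115865236⟩, ⟨1, 2144940954⟩] (Node.sc eng ndB3q3) (Fn2.sc esg cd3q3) :=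
  certNd (T := (ftHigh false 3 mT 1 5 1040 1100)) (L := [⟨0, 1115865236⟩, ⟨1, 2144940954⟩]) (P1 := 0) (W1 := 1230186008) (P3 := 780900216) (W3 := 37827925) (n := (Node.sc eng ndB3q3)) (c := (Fn2.sc esg cd3q3))
    ⟨T.a (T.a (T.l 0) (T.l 0)) (T.a (T.a (T.l 0) (T.a (T.l 0) (T.l 0))) (T.a (T.a (T.l 0) (T.l 0)) (T.l 0))),
      by decide +kernel⟩
theorem cB_h2_43 : CertNd 0 1230186008 780900216 37827925 (ftHigh false 3 mT 1 5 1040 1100) [⟨0, 1115865236⟩, ⟨1, 2144940954⟩] (Node.sc eng ndB4q3) (Fn2.sc esg cd4q3) :=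
  certNd (T := (ftHigh false 3 mT 1 5 1040 1100)) (L := [⟨0, 1115865236⟩, ⟨1, 2144940954⟩]) (P1 := 0) (W1 := 1230186008) (P3 := 780900216) (W3 := 37827925) (n := (Node.sc eng ndB4q3)) (c := (Fn2.sc esg cd4q3))
    ⟨T.a (T.a (T.l 0) (T.l 0)) (T.a (T.a (T.l 0) (T.l 0)) (T.a (T.l 0) (T.l 0))),
      by decide +kernel⟩
theorem cB_h2_53 : CertNd 0 1230186008 780900216 37827925 (ftHigh false 3 mT 1 5 1040 1100) [⟨0, 1115865236⟩, ⟨1, 2144940954⟩] (Node.sc eng ndB5q3) (Fn2.sc esg cd5q3) :=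
  certNd (T := (ftHigh false 3 mT 1 5 1040 1100)) (L := [⟨0, 1115865236⟩, ⟨1, 2144940954⟩]) (P1 := 0) (W1 := 1230186008) (P3 := 780900216) (W3 := 37827925) (n := (Node.sc eng ndB5q3)) (c := (Fn2.sc esg cd5q3))
    ⟨T.a (T.a (T.l 0) (T.l 0)) (T.a (T.a (T.l 0) (T.l 0)) (T.a (T.l 0) (T.l 0))),
      by decide +kernel⟩
theorem cB_r0_02 : CertNd 0 536870912 780900216 37827925 (ftFar false 2 mT 1 5 1250 1100) [⟨0, 1091068230⟩, ⟨1, 1277045771⟩, ⟨2, 1181116006⟩] (Node.sc eng ndB0q2) (Fn2.sc esg cd0q2) :=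
  certNd (T := (ftFar false 2 mT 1 5 1250 1100)) (L := [⟨0, 1091068230⟩, ⟨1, 1277045771⟩, ⟨2, 1181116006⟩]) (P1 := 0) (W1 := 536870912) (P3 := 780900216) (W3 := 37827925) (n := (Node.sc eng ndB0q2)) (c := (Fn2.sc esg cd0q2))
    ⟨T.l 5,
      by decide +kernel⟩
theorem cB_r0_12 : CertNd 1091068230 185977541 780900216 37827925 (ftFar false 2 mT 1 5 1250 1100) [⟨2, 1181116006⟩] (Node.sc eng ndB1q2) (Fn2.sc esg cd1q2) :=
  certNd (T := (ftFar false 2 mT 1 5 1250 1100)) (L := [⟨2, 1181116006⟩]) (P1 := 1091068230) (W1 := 185977541) (P3 := 780900216) (W3 := 37827925) (n := (Node.sc eng ndB1q2)) (c := (Fn2.sc esg cd1q2))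
    ⟨T.l 1,
      by decide +kernel⟩
theorem cB_r0_22 : CertNd 1091068230 185977541 780900216 37827925 (ftFar false 2 mT 1 5 1250 1100) [⟨2, 1181116006⟩] (Node.sc eng ndB2q2) (Fn2.sc esg cd2q2) :=
  certNd (T := (ftFar false 2 mT 1 5 1250 1100)) (L := [⟨2, 1181116006⟩]) (P1 := 1091068230) (W1 := 185977541) (P3 := 780900216) (W3 := 37827925) (n := (Node.sc eng ndB2q2)) (c := (Fn2.sc esg cd2q2))
    ⟨T.l 1,
      by decide +kernel⟩
theorem cB_r0_32 : CertNd 1091068230 185977541 780900216 37827925 (ftFar false 2 mT 1 5 1250 1100) [⟨2, 1181116006⟩] (Node.sc eng ndB3q2) (Fn2.sc esg cd3q2) :=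
  certNd (T := (ftFar false 2 mT 1 5 1250 1100)) (L := [⟨2, 1181116006⟩]) (P1 := 1091068230) (W1 := 185977541) (P3 := 780900216) (W3 := 37827925) (n := (Node.sc eng ndB3q2)) (c := (Fn2.sc esg cd3q2))
    ⟨T.l 0,
      by decide +kernel⟩
theorem cB_r0_42 : CertNd 1091068230 185977541 780900216 37827925 (ftFar false 2 mT 1 5 1250 1100) [⟨2, 1181116006⟩] (Node.sc eng ndB4q2) (Fn2.sc esg cd4q2) :=
  certNd (T := (ftFar false 2 mT 1 5 1250 1100)) (L := [⟨2, 1181116006⟩]) (P1 := 1091068230) (W1 := 185977541) (P3 := 780900216) (W3 := 37827925) (n := (Node.sc eng ndB4q2)) (c := (Fn2.sc esg cd4q2))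
    ⟨T.l 0,
      by decide +kernel⟩
theorem cB_r0_52 : CertNd 1091068230 185977541 780900216 37827925 (ftFar false 2 mT 1 5 1250 1100) [⟨2, 1181116006⟩] (Node.sc eng ndB5q2) (Fn2.sc esg cd5q2) :=
  certNd (T := (ftFar false 2 mT 1 5 1250 1100)) (L := [⟨2, 1181116006⟩]) (P1 := 1091068230) (W1 := 185977541) (P3 := 780900216) (W3 := 37827925) (n := (Node.sc eng ndB5q2)) (c := (Fn2.sc esg cd5q2))
    ⟨T.a (T.a (T.l 0) (T.l 0)) (T.l 0),
      by decide +kernel⟩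
theorem cB_n0_02z : CertNd 0 64424509 780900216 37827925 (ftNear false 2 mT 1 5 1250) [⟨0, 1091068230⟩, ⟨1, 1277045771⟩] ⟨ndB0q2.Y, onF, Fn2.sc eng kq02, lq02⟩ (Fn2.sc esg cq02) :=
  certNd (T := (ftNear false 2 mT 1 5 1250)) (L := [⟨0, 1091068230⟩, ⟨1, 1277045771⟩]) (P1 := 0) (W1 := 64424509) (P3 := 780900216) (W3 := 37827925) (n := ⟨ndB0q2.Y, onF, Fn2.sc eng kq02, lq02⟩) (c := (Fn2.sc esg cq02))
    ⟨T.l 0,
      by decide +kernel⟩
theorem cB_n0_02 : CertNd 0 536870912 780900216 37827925 (ftNear false 2 mT 1 5 1250) [⟨0, 1091068230⟩, ⟨1, 1277045771⟩, ⟨2, 64424509⟩, ⟨3, 429496730⟩] (Node.sc eng ndB0q2) (Fn2.sc esg cd0q2) :=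
  certNd (T := (ftNear false 2 mT 1 5 1250)) (L := [⟨0, 1091068230⟩, ⟨1, 1277045771⟩, ⟨2, 64424509⟩, ⟨3, 429496730⟩]) (P1 := 0) (W1 := 536870912) (P3 := 780900216) (W3 := 37827925) (n := (Node.sc eng ndB0q2)) (c := (Fn2.sc esg cd0q2))
    ⟨T.a (T.a (T.a (T.a (T.l 5) (T.l 0)) (T.l 0)) (T.a (T.l 0) (T.l 0))) (T.a (T.a (T.l 0) (T.l 0)) (T.a (T.l 0) (T.l 0))),
      by decide +kernel⟩
theorem cB_n0_12 : CertNd 1091068230 185977541 780900216 37827925 (ftNear false 2 mT 1 5 1250) [⟨3, 429496730⟩] (Node.sc eng ndB1q2) (Fn2.sc esg cd1q2) :=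
  certNd (T := (ftNear false 2 mT 1 5 1250)) (L := [⟨3, 429496730⟩]) (P1 := 1091068230) (W1 := 185977541) (P3 := 780900216) (W3 := 37827925) (n := (Node.sc eng ndB1q2)) (c := (Fn2.sc esg cd1q2))
    ⟨T.a (T.a (T.l 0) (T.l 0)) (T.a (T.a (T.l 0) (T.a (T.l 0) (T.l 0))) (T.a (T.a (T.a (T.l 0) (T.a (T.a (T.l 0) (T.l 0)) (T.a (T.a (T.a (T.l 0) (T.a (T.l 0) (T.a (T.a (T.a (T.l 0) (T.l 0)) (T.l 0)) (T.l 0)))) (T.l 0)) (T.l 0)))) (T.l 0)) (T.l 0))),
      by decide +kernel⟩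
theorem cB_n0_22 : CertNd 1091068230 185977541 780900216 37827925 (ftNear false 2 mT 1 5 1250) [⟨3, 429496730⟩] (Node.sc eng ndB2q2) (Fn2.sc esg cd2q2) :=
  certNd (T := (ftNear false 2 mT 1 5 1250)) (L := [⟨3, 429496730⟩]) (P1 := 1091068230) (W1 := 185977541) (P3 := 780900216) (W3 := 37827925) (n := (Node.sc eng ndB2q2)) (c := (Fn2.sc esg cd2q2))
    ⟨T.a (T.l 0) (T.a (T.a (T.l 0) (T.l 0)) (T.a (T.a (T.a (T.l 0) (T.a (T.l 0) (T.l 0))) (T.l 0)) (T.l 0))),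
      by decide +kernel⟩
theorem cB_n0_32 : CertNd 1091068230 185977541 780900216 37827925 (ftNear false 2 mT 1 5 1250) [⟨3, 429496730⟩] (Node.sc eng ndB3q2) (Fn2.sc esg cd3q2) :=
  certNd (T := (ftNear false 2 mT 1 5 1250)) (L := [⟨3, 429496730⟩]) (P1 := 1091068230) (W1 := 185977541) (P3 := 780900216) (W3 := 37827925) (n := (Node.sc eng ndB3q2)) (c := (Fn2.sc esg cd3q2))
    ⟨T.l 0,
      by decide +kernel⟩
theorem cB_n0_42 : CertNd 1091068230 185977541 780900216 37827925 (ftNear false 2 mT 1 5 1250) [⟨3, 429496730⟩] (Node.sc eng ndB4q2) (Fn2.sc esg cd4q2) :=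
  certNd (T := (ftNear false 2 mT 1 5 1250)) (L := [⟨3, 429496730⟩]) (P1 := 1091068230) (W1 := 185977541) (P3 := 780900216) (W3 := 37827925) (n := (Node.sc eng ndB4q2)) (c := (Fn2.sc esg cd4q2))
    ⟨T.l 0,
      by decide +kernel⟩
theorem cB_n0_52 : CertNd 1091068230 185977541 780900216 37827925 (ftNear false 2 mT 1 5 1250) [⟨3, 429496730⟩] (Node.sc eng ndB5q2) (Fn2.sc esg cd5q2) :=
  certNd (T := (ftNear false 2 mT 1 5 1250)) (L := [⟨3, 429496730⟩]) (P1 := 1091068230) (W1 := 185977541) (P3 := 780900216) (W3 := 37827925) (n := (Node.sc eng ndB5q2)) (c := (Fn2.sc esg cd5q2))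
    ⟨T.l 0,
      by decide +kernel⟩
theorem cB_R0_2 : CertSd 1091068230 185977541 780900216 37827925 (ftFar false 2 mT 1 5 1250 1100) [] idF (cnF 1100 1000) pcE2 (Fn3.sc esg pd2) :=
  certSd (T := (ftFar false 2 mT 1 5 1250 1100)) (L := []) (P1 := 1091068230) (W1 := 185977541) (P3 := 780900216) (W3 := 37827925) (Y := idF) (X := (cnF 1100 1000))
    (pc := pcE2) (c := (Fn3.sc esg pd2)) ⟨T.l 0,
      by decide +kernel⟩
theorem cB_N0_2 : CertSd 1136340972 140704799 780900216 37827925 (ftNear false 2 mT 1 5 1250) [] idF (cnF 400 1000) pcE2 (Fn3.sc esg pd2) :=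
  certSd (T := (ftNear false 2 mT 1 5 1250)) (L := []) (P1 := 1136340972) (W1 := 140704799) (P3 := 780900216) (W3 := 37827925) (Y := idF) (X := (cnF 400 1000))
    (pc := pcE2) (c := (Fn3.sc esg pd2)) ⟨T.a (T.a (T.c (T.l 0) (T.l 0)) (T.l 0)) (T.a (T.a (T.l 0) (T.l 0)) (T.l 0)),
      by decide +kernel⟩
theorem cB_r1_02 : CertNd 0 536870912 780900216 37827925 (ftFar false 2 mT 1 5 1430 1100) [⟨0, 1239850262⟩, ⟨1, 1698594860⟩, ⟨2, 1181116006⟩] (Node.sc eng ndB0q2) (Fn2.sc esg cd0q2) :=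
  certNd (T := (ftFar false 2 mT 1 5 1430 1100)) (L := [⟨0, 1239850262⟩, ⟨1, 1698594860⟩, ⟨2, 1181116006⟩]) (P1 := 0) (W1 := 536870912) (P3 := 780900216) (W3 := 37827925) (n := (Node.sc eng ndB0q2)) (c := (Fn2.sc esg cd0q2))
    ⟨T.l 5,
      by decide +kernel⟩
theorem cB_r1_12 : CertNd 1239850262 370762474 780900216 37827925 (ftFar false 2 mT 1 5 1430 1100) [⟨2, 1181116006⟩] (Node.sc eng ndB1q2) (Fn2.sc esg cd1q2) :=
  certNd (T := (ftFar false 2 mT 1 5 1430 1100)) (L := [⟨2, 1181116006⟩]) (P1 := 1239850262) (W1 := 370762474) (P3 := 780900216) (W3 := 37827925) (n := (Node.sc eng ndB1q2)) (c := (Fn2.sc esg cd1q2))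
    ⟨T.l 0,
      by decide +kernel⟩
theorem cB_r1_22 : CertNd 1239850262 370762474 780900216 37827925 (ftFar false 2 mT 1 5 1430 1100) [⟨2, 1181116006⟩] (Node.sc eng ndB2q2) (Fn2.sc esg cd2q2) :=
  certNd (T := (ftFar false 2 mT 1 5 1430 1100)) (L := [⟨2, 1181116006⟩]) (P1 := 1239850262) (W1 := 370762474) (P3 := 780900216) (W3 := 37827925) (n := (Node.sc eng ndB2q2)) (c := (Fn2.sc esg cd2q2))
    ⟨T.l 0,
      by decide +kernel⟩
theorem cB_r1_32 : CertNd 1239850262 370762474 780900216 37827925 (ftFar false 2 mT 1 5 1430 1100) [⟨2, 1181116006⟩] (Node.sc eng ndB3q2) (Fn2.sc esg cd3q2) :=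
  certNd (T := (ftFar false 2 mT 1 5 1430 1100)) (L := [⟨2, 1181116006⟩]) (P1 := 1239850262) (W1 := 370762474) (P3 := 780900216) (W3 := 37827925) (n := (Node.sc eng ndB3q2)) (c := (Fn2.sc esg cd3q2))
    ⟨T.l 0,
      by decide +kernel⟩
theorem cB_r1_42 : CertNd 1239850262 370762474 780900216 37827925 (ftFar false 2 mT 1 5 1430 1100) [⟨2, 1181116006⟩] (Node.sc eng ndB4q2) (Fn2.sc esg cd4q2) :=
  certNd (T := (ftFar false 2 mT 1 5 1430 1100)) (L := [⟨2, 1181116006⟩]) (P1 := 1239850262) (W1 := 370762474) (P3 := 780900216) (W3 := 37827925) (n := (Node.sc eng ndB4q2)) (c := (Fn2.sc esg cd4q2))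
    ⟨T.l 1,
      by decide +kernel⟩
theorem cB_r1_52 : CertNd 1239850262 370762474 780900216 37827925 (ftFar false 2 mT 1 5 1430 1100) [⟨2, 1181116006⟩] (Node.sc eng ndB5q2) (Fn2.sc esg cd5q2) :=
  certNd (T := (ftFar false 2 mT 1 5 1430 1100)) (L := [⟨2, 1181116006⟩]) (P1 := 1239850262) (W1 := 370762474) (P3 := 780900216) (W3 := 37827925) (n := (Node.sc eng ndB5q2)) (c := (Fn2.sc esg cd5q2))
    ⟨T.a (T.a (T.a (T.l 0) (T.l 0)) (T.l 0)) (T.l 0),
      by decide +kernel⟩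
theorem cB_r1_13 : CertNd 1610612736 87982124 780900216 37827925 (ftFar false 3 mT 1 5 1430 1100) [⟨2, 1181116006⟩] (Node.sc eng ndB1q3) (Fn2.sc esg cd1q3) :=
  certNd (T := (ftFar false 3 mT 1 5 1430 1100)) (L := [⟨2, 1181116006⟩]) (P1 := 1610612736) (W1 := 87982124) (P3 := 780900216) (W3 := 37827925) (n := (Node.sc eng ndB1q3)) (c := (Fn2.sc esg cd1q3))
    ⟨T.l 0,
      by decide +kernel⟩
theorem cB_r1_23 : CertNd 1610612736 87982124 780900216 37827925 (ftFar false 3 mT 1 5 1430 1100) [⟨2, 1181116006⟩] (Node.sc eng ndB2q3) (Fn2.sc esg cd2q3) :=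
  certNd (T := (ftFar false 3 mT 1 5 1430 1100)) (L := [⟨2, 1181116006⟩]) (P1 := 1610612736) (W1 := 87982124) (P3 := 780900216) (W3 := 37827925) (n := (Node.sc eng ndB2q3)) (c := (Fn2.sc esg cd2q3))
    ⟨T.l 0,
      by decide +kernel⟩
theorem cB_r1_33 : CertNd 0 1230186008 780900216 37827925 (ftFar false 3 mT 1 5 1430 1100) [⟨0, 1239850262⟩, ⟨1, 1698594860⟩, ⟨2, 1181116006⟩] (Node.sc eng ndB3q3) (Fn2.sc esg cd3q3) :=
  certNd (T := (ftFar false 3 mT 1 5 1430 1100)) (L := [⟨0, 1239850262⟩, ⟨1, 1698594860⟩, ⟨2, 1181116006⟩]) (P1 := 0) (W1 := 1230186008) (P3 := 780900216) (W3 := 37827925) (n := (Node.sc eng ndB3q3)) (c := (Fn2.sc esg cd3q3))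
    ⟨T.l 5,
      by decide +kernel⟩
theorem cB_r1_43 : CertNd 0 1230186008 780900216 37827925 (ftFar false 3 mT 1 5 1430 1100) [⟨0, 1239850262⟩, ⟨1, 1698594860⟩, ⟨2, 1181116006⟩] (Node.sc eng ndB4q3) (Fn2.sc esg cd4q3) :=
  certNd (T := (ftFar false 3 mT 1 5 1430 1100)) (L := [⟨0, 1239850262⟩, ⟨1, 1698594860⟩, ⟨2, 1181116006⟩]) (P1 := 0) (W1 := 1230186008) (P3 := 780900216) (W3 := 37827925) (n := (Node.sc eng ndB4q3)) (c := (Fn2.sc esg cd4q3))
    ⟨T.l 5,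
      by decide +kernel⟩
theorem cB_r1_53 : CertNd 0 1230186008 780900216 37827925 (ftFar false 3 mT 1 5 1430 1100) [⟨0, 1239850262⟩, ⟨1, 1698594860⟩, ⟨2, 1181116006⟩] (Node.sc eng ndB5q3) (Fn2.sc esg cd5q3) :=
  certNd (T := (ftFar false 3 mT 1 5 1430 1100)) (L := [⟨0, 1239850262⟩, ⟨1, 1698594860⟩, ⟨2, 1181116006⟩]) (P1 := 0) (W1 := 1230186008) (P3 := 780900216) (W3 := 37827925) (n := (Node.sc eng ndB5q3)) (c := (Fn2.sc esg cd5q3))
    ⟨T.a (T.l 3) (T.a (T.l 0) (T.a (T.l 0) (T.l 0))),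
      by decide +kernel⟩
theorem cB_n1_02z : CertNd 0 64424509 780900216 37827925 (ftNear false 2 mT 1 5 1430) [⟨0, 1239850262⟩, ⟨1, 1698594860⟩] ⟨ndB0q2.Y, onF, Fn2.sc eng kq02, lq02⟩ (Fn2.sc esg cq02) :=
  certNd (T := (ftNear false 2 mT 1 5 1430)) (L := [⟨0, 1239850262⟩, ⟨1, 1698594860⟩]) (P1 := 0) (W1 := 64424509) (P3 := 780900216) (W3 := 37827925) (n := ⟨ndB0q2.Y, onF, Fn2.sc eng kq02, lq02⟩) (c := (Fn2.sc esg cq02))
    ⟨T.l 0,
      by decide +kernel⟩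
theorem cB_n1_02 : CertNd 0 536870912 780900216 37827925 (ftNear false 2 mT 1 5 1430) [⟨0, 1239850262⟩, ⟨1, 1698594860⟩, ⟨2, 64424509⟩, ⟨3, 429496730⟩] (Node.sc eng ndB0q2) (Fn2.sc esg cd0q2) :=
  certNd (T := (ftNear false 2 mT 1 5 1430)) (L := [⟨0, 1239850262⟩, ⟨1, 1698594860⟩, ⟨2, 64424509⟩, ⟨3, 429496730⟩]) (P1 := 0) (W1 := 536870912) (P3 := 780900216) (W3 := 37827925) (n := (Node.sc eng ndB0q2)) (c := (Fn2.sc esg cd0q2))
    ⟨T.a (T.a (T.a (T.a (T.l 5) (T.l 0)) (T.l 0)) (T.l 0)) (T.l 1),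
      by decide +kernel⟩
theorem cB_n1_12 : CertNd 1239850262 370762474 780900216 37827925 (ftNear false 2 mT 1 5 1430) [⟨3, 429496730⟩] (Node.sc eng ndB1q2) (Fn2.sc esg cd1q2) :=
  certNd (T := (ftNear false 2 mT 1 5 1430)) (L := [⟨3, 429496730⟩]) (P1 := 1239850262) (W1 := 370762474) (P3 := 780900216) (W3 := 37827925) (n := (Node.sc eng ndB1q2)) (c := (Fn2.sc esg cd1q2))
    ⟨T.a (T.a (T.a (T.l 0) (T.l 0)) (T.l 0)) (T.l 0),
      by decide +kernel⟩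
theorem cB_n1_22 : CertNd 1239850262 370762474 780900216 37827925 (ftNear false 2 mT 1 5 1430) [⟨3, 429496730⟩] (Node.sc eng ndB2q2) (Fn2.sc esg cd2q2) :=
  certNd (T := (ftNear false 2 mT 1 5 1430)) (L := [⟨3, 429496730⟩]) (P1 := 1239850262) (W1 := 370762474) (P3 := 780900216) (W3 := 37827925) (n := (Node.sc eng ndB2q2)) (c := (Fn2.sc esg cd2q2))
    ⟨T.a (T.a (T.l 0) (T.l 0)) (T.l 0),
      by decide +kernel⟩
theorem cB_n1_32 : CertNd 1239850262 370762474 780900216 37827925 (ftNear false 2 mT 1 5 1430) [⟨3, 429496730⟩] (Node.sc eng ndB3q2) (Fn2.sc esg cd3q2) :=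
  certNd (T := (ftNear false 2 mT 1 5 1430)) (L := [⟨3, 429496730⟩]) (P1 := 1239850262) (W1 := 370762474) (P3 := 780900216) (W3 := 37827925) (n := (Node.sc eng ndB3q2)) (c := (Fn2.sc esg cd3q2))
    ⟨T.l 1,
      by decide +kernel⟩
theorem cB_n1_42 : CertNd 1239850262 370762474 780900216 37827925 (ftNear false 2 mT 1 5 1430) [⟨3, 429496730⟩] (Node.sc eng ndB4q2) (Fn2.sc esg cd4q2) :=
  certNd (T := (ftNear false 2 mT 1 5 1430)) (L := [⟨3, 429496730⟩]) (P1 := 1239850262) (W1 := 370762474) (P3 := 780900216) (W3 := 37827925) (n := (Node.sc eng ndB4q2)) (c := (Fn2.sc esg cd4q2))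
    ⟨T.l 0,
      by decide +kernel⟩
theorem cB_n1_52 : CertNd 1239850262 370762474 780900216 37827925 (ftNear false 2 mT 1 5 1430) [⟨3, 429496730⟩] (Node.sc eng ndB5q2) (Fn2.sc esg cd5q2) :=
  certNd (T := (ftNear false 2 mT 1 5 1430)) (L := [⟨3, 429496730⟩]) (P1 := 1239850262) (W1 := 370762474) (P3 := 780900216) (W3 := 37827925) (n := (Node.sc eng ndB5q2)) (c := (Fn2.sc esg cd5q2))
    ⟨T.l 1,
      by decide +kernel⟩
theorem cB_n1_13 : CertNd 1610612736 87982124 780900216 37827925 (ftNear false 3 mT 1 5 1430) [⟨3, 429496730⟩] (Node.sc eng ndB1q3) (Fn2.sc esg cd1q3) :=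
  certNd (T := (ftNear false 3 mT 1 5 1430)) (L := [⟨3, 429496730⟩]) (P1 := 1610612736) (W1 := 87982124) (P3 := 780900216) (W3 := 37827925) (n := (Node.sc eng ndB1q3)) (c := (Fn2.sc esg cd1q3))
    ⟨T.l 0,
      by decide +kernel⟩
theorem cB_n1_23 : CertNd 1610612736 87982124 780900216 37827925 (ftNear false 3 mT 1 5 1430) [⟨3, 429496730⟩] (Node.sc eng ndB2q3) (Fn2.sc esg cd2q3) :=
  certNd (T := (ftNear false 3 mT 1 5 1430)) (L := [⟨3, 429496730⟩]) (P1 := 1610612736) (W1 := 87982124) (P3 := 780900216) (W3 := 37827925) (n := (Node.sc eng ndB2q3)) (c := (Fn2.sc esg cd2q3))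
    ⟨T.l 0,
      by decide +kernel⟩
theorem cB_n1_33 : CertNd 0 1230186008 780900216 37827925 (ftNear false 3 mT 1 5 1430) [⟨0, 1239850262⟩, ⟨1, 1698594860⟩, ⟨3, 429496730⟩] (Node.sc eng ndB3q3) (Fn2.sc esg cd3q3) :=
  certNd (T := (ftNear false 3 mT 1 5 1430)) (L := [⟨0, 1239850262⟩, ⟨1, 1698594860⟩, ⟨3, 429496730⟩]) (P1 := 0) (W1 := 1230186008) (P3 := 780900216) (W3 := 37827925) (n := (Node.sc eng ndB3q3)) (c := (Fn2.sc esg cd3q3))
    ⟨T.a (T.l 3) (T.a (T.l 3) (T.a (T.l 3) (T.l 0))),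
      by decide +kernel⟩
theorem cB_n1_43 : CertNd 0 1230186008 780900216 37827925 (ftNear false 3 mT 1 5 1430) [⟨0, 1239850262⟩, ⟨1, 1698594860⟩, ⟨3, 429496730⟩] (Node.sc eng ndB4q3) (Fn2.sc esg cd4q3) :=
  certNd (T := (ftNear false 3 mT 1 5 1430)) (L := [⟨0, 1239850262⟩, ⟨1, 1698594860⟩, ⟨3, 429496730⟩]) (P1 := 0) (W1 := 1230186008) (P3 := 780900216) (W3 := 37827925) (n := (Node.sc eng ndB4q3)) (c := (Fn2.sc esg cd4q3))
    ⟨T.a (T.l 3) (T.a (T.l 3) (T.l 5)),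
      by decide +kernel⟩
theorem cB_n1_53 : CertNd 0 1230186008 780900216 37827925 (ftNear false 3 mT 1 5 1430) [⟨0, 1239850262⟩, ⟨1, 1698594860⟩, ⟨3, 429496730⟩] (Node.sc eng ndB5q3) (Fn2.sc esg cd5q3) :=
  certNd (T := (ftNear false 3 mT 1 5 1430)) (L := [⟨0, 1239850262⟩, ⟨1, 1698594860⟩, ⟨3, 429496730⟩]) (P1 := 0) (W1 := 1230186008) (P3 := 780900216) (W3 := 37827925) (n := (Node.sc eng ndB5q3)) (c := (Fn2.sc esg cd5q3))
    ⟨T.a (T.l 3) (T.l 5),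
      by decide +kernel⟩
theorem cB_R1_2 : CertSd 1239850262 370762474 780900216 37827925 (ftFar false 2 mT 1 5 1430 1100) [] idF (cnF 1100 1000) pcE2 (Fn3.sc esg pd2) :=
  certSd (T := (ftFar false 2 mT 1 5 1430 1100)) (L := []) (P1 := 1239850262) (W1 := 370762474) (P3 := 780900216) (W3 := 37827925) (Y := idF) (X := (cnF 1100 1000))
    (pc := pcE2) (c := (Fn3.sc esg pd2)) ⟨T.a (T.l 0) (T.l 0),
      by decide +kernel⟩
theorem cB_N1_2 : CertSd 1239850262 370762474 780900216 37827925 (ftNear false 2 mT 1 5 1430) [] idF (cnF 400 1000) pcE2 (Fn3.sc esg pd2) :=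
  certSd (T := (ftNear false 2 mT 1 5 1430)) (L := []) (P1 := 1239850262) (W1 := 370762474) (P3 := 780900216) (W3 := 37827925) (Y := idF) (X := (cnF 400 1000))
    (pc := pcE2) (c := (Fn3.sc esg pd2)) ⟨T.a (T.l 0) (T.l 0),
      by decide +kernel⟩
theorem cB_R1_3 : CertSd 1610612736 48318382 780900216 37827925 (ftFar false 3 mT 1 5 1430 1100) [] idF (cnF 1100 1000) pcE3 (Fn3.sc esg pd3) :=
  certSd (T := (ftFar false 3 mT 1 5 1430 1100)) (L := []) (P1 := 1610612736) (W1 := 48318382) (P3 := 780900216) (W3 := 37827925) (Y := idF) (X := (cnF 1100 1000))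
    (pc := pcE3) (c := (Fn3.sc esg pd3)) ⟨T.l 0,
      by decide +kernel⟩
theorem cB_N1_3 : CertSd 1610612736 87982124 780900216 37827925 (ftNear false 3 mT 1 5 1430) [] idF (cnF 400 1000) pcE3 (Fn3.sc esg pd3) :=
  certSd (T := (ftNear false 3 mT 1 5 1430)) (L := []) (P1 := 1610612736) (W1 := 87982124) (P3 := 780900216) (W3 := 37827925) (Y := idF) (X := (cnF 400 1000))
    (pc := pcE3) (c := (Fn3.sc esg pd3)) ⟨T.l 0,
      by decide +kernel⟩

end Pool.Agent.Strip051.G.I72727_7625.Tab
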