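import Pool.Agent.Strip051.PB.FlAsmX
import Pool.Agent.Strip051.G.I72727_7625.Tab

/-! # Slopes (generated) -/

set_option linter.all false

namespace Pool.Agent.Strip051.G.I72727_7625.Tab

open Pool.Agent.Strip051.PB

attribute [local irreducible] padd psub pneg pmul psq pinv psqrt psqrtg pabs pps pmax pmin pphi
  plam pcase phf pnat prat pscale pnorm pdc pnc pone ppos pnn

noncomputable def c1g_fs : Sl1 c1g := ⟨_, fun h1 => (pr_sqrtg (pr_csub (enc_pnc _ 1) (pr_scale 3 4 (pr_sq h1))))⟩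
noncomputable def kcg_6_fs : Sl2 kcg_6 := ⟨_, fun h1 h2 => (pr_addc h1 (enc_rat _ 7 25))⟩
noncomputable def kcg_9_fs : Sl2 kcg_9 := ⟨_, fun h1 h2 => (pr_addc h1 (enc_rat _ 77 200))⟩
noncomputable def kcg_12_fs : Sl2 kcg_12 := ⟨_, fun h1 h2 => (pr_addc h1 (enc_rat _ 7 16))⟩
noncomputable def kcg_13_fs : Sl2 kcg_13 := ⟨_, fun h1 h2 => (pr_scale 19707 10000 h1)⟩
noncomputable def kcg_16_fs : Sl2 kcg_16 := ⟨_, fun h1 h2 => (pr_scale 2643 1000 h1)⟩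
noncomputable def kcg_22_fs : Sl2 kcg_22 := ⟨_, fun h1 h2 => (pr_scale 5157 20000 h1)⟩
noncomputable def kcg_27_fs : Sl2 kcg_27 := ⟨_, fun h1 h2 => (pr_scale 1061 250 h1)⟩
noncomputable def kcg_46_fs : Sl2 kcg_46 := ⟨_, fun h1 h2 => (pr_addc h1 (enc_rat _ 83 250))⟩
noncomputable def kcg_47_fs : Sl2 kcg_47 := ⟨_, fun h1 h2 => (pr_scale 30549 20000 h1)⟩
noncomputable def kcg_52_fs : Sl2 kcg_52 := ⟨_, fun h1 h2 => (pr_scale 11691 2000 h1)⟩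
noncomputable def kcg_68_fs : Sl2 kcg_68 := ⟨_, fun h1 h2 => (pr_scale 1313 4000 h1)⟩
noncomputable def kcg_73_fs : Sl2 kcg_73 := ⟨_, fun h1 h2 => (pr_scale 786 125 h1)⟩
noncomputable def kcg_93_fs : Sl2 kcg_93 := ⟨_, fun h1 h2 => (pr_addc h1 (enc_rat _ 16 125))⟩
noncomputable def kcg_97_fs : Sl2 kcg_97 := ⟨_, fun h1 h2 => (pr_scale 13963 20000 h1)⟩
noncomputable def kcg_101_fs : Sl2 kcg_101 := ⟨_, fun h1 h2 => (pr_scale 13461 2000 h1)⟩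
noncomputable def kcg_113_fs : Sl2 kcg_113 := ⟨_, fun h1 h2 => (pr_scale 14843 10000 h1)⟩
noncomputable def kcg_117_fs : Sl2 kcg_117 := ⟨_, fun h1 h2 => (pr_scale 6731 1000 h1)⟩
noncomputable def kcg_126_fs : Sl2 kcg_126 := ⟨_, fun h1 h2 => (pr_scale 5043 2500 h1)⟩
noncomputable def kcg_130_fs : Sl2 kcg_130 := ⟨_, fun h1 h2 => (pr_scale 4657 2000 h1)⟩
noncomputable def kcg_144_fs : Sl2 kcg_144 := ⟨_, fun h1 h2 => (pr_scale 25501 10000 h1)⟩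
noncomputable def kcg_148_fs : Sl2 kcg_148 := ⟨_, fun h1 h2 => (pr_cmul (enc_norm (kcg_3.enc h1.l h2)) (pr_nd (pr_scale 1037 500 h1)))⟩
noncomputable def kcg_155_fs : Sl2 kcg_155 := ⟨_, fun h1 h2 => (pr_csub (enc_rat _ 7 25) h1)⟩
noncomputable def kcg_156_fs : Sl2 kcg_156 := ⟨_, fun h1 h2 => (pr_csub (enc_rat _ 77 200) h1)⟩
noncomputable def kcg_157_fs : Sl2 kcg_157 := ⟨_, fun h1 h2 => (pr_csub (enc_rat _ 7 16) h1)⟩
noncomputable def kcg_174_fs : Sl2 kcg_174 := ⟨_, fun h1 h2 => (pr_csub (enc_rat _ 83 250) h1)⟩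
noncomputable def kcg_195_fs : Sl2 kcg_195 := ⟨_, fun h1 h2 => (pr_csub (enc_rat _ 16 125) h1)⟩
noncomputable def kcg_fs : Sl2 kcg := ⟨_, fun h1 h2 => (pr_norm (pr_case h1 (pr_case (kcg_6_fs.snd h1 h2) (pr_case (kcg_9_fs.snd h1 h2) (pr_case (kcg_12_fs.snd h1 h2) (pr_add (pr_addc (kcg_13_fs.snd h1 h2) (enc_rat _ 19931469 40000000)) (pr_cmul (enc_norm (kcg_3.enc h1.l h2)) (pr_norm (pr_subr 2997049 4000000 (kcg_16_fs.snd h1 h2))))) (pr_add (pr_add (pr_subr 4767039 10000000 (pr_neg (kcg_22_fs.snd h1 h2))) (pr_cmul (enc_norm (kcg_3.enc h1.l h2)) (pr_norm (pr_subr 195299 4000000 (kcg_27_fs.snd h1 h2))))) (pr_cmul (enc_norm (kcg_38.enc h1.l h2)) (pr_norm (pr_mul (pr_norm (kcg_12_fs.snd h1 h2)) (pr_norm (pr_csub (enc_neg (enc_rat _ 77 200)) h1))))))) (pr_case (kcg_46_fs.snd h1 h2) (pr_add (pr_add (pr_subr 9654999 10000000 (pr_neg (kcg_47_fs.snd h1 h2))) (pr_cmul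 (enc_norm (kcg_3.enc h1.l h2)) (pr_norm (pr_addc (kcg_52_fs.snd h1 h2) (enc_rat _ 2271011 4000000))))) (pr_cmul (enc_norm (kcg_63.enc h1.l h2)) (pr_norm (pr_mul (pr_norm (kcg_9_fs.snd h1 h2)) (pr_norm (pr_csub (enc_neg (enc_rat _ 83 250)) h1)))))) (pr_add (pr_add (pr_subr 1134731 2000000 (pr_neg (kcg_68_fs.snd h1 h2))) (pr_cmul (enc_norm (kcg_3.enc h1.l h2)) (pr_norm (pr_addc (kcg_73_fs.snd h1 h2) (enc_rat _ 2858651 4000000))))) (pr_cmul (enc_norm (kcg_84.enc h1.l h2)) (pr_norm (pr_mul (pr_norm (kcg_46_fs.snd h1 h2)) (pr_norm (pr_csub (enc_neg (enc_rat _ 7 25)) h1)))))))) (pr_case (kcg_93_fs.snd h1 h2) (pr_case (pr_addc h1 (enc_rat _ 227 1000)) (pr_add (pr_add (pr_subr 559947 2000000 (kcg_97_fs.snd h1 h2)) (pr_cmul (enc_norm (kcg_3.enc h1.l h2)) (pr_norm (pr_addc (kcg_101_fs.snd h1 h2) (enc_rat _ 3354251 4000000))))) (pr_cmul (enc_norm (kcg_108.enc h1.l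 h2)) (pr_norm (pr_mul (pr_norm (kcg_6_fs.snd h1 h2)) (pr_norm (pr_csub (enc_neg (enc_rat _ 227 1000)) h1)))))) (pr_add (pr_subr 2030349 20000000 (kcg_113_fs.snd h1 h2)) (pr_cmul (enc_norm (kcg_3.enc h1.l h2)) (pr_norm (pr_addc (kcg_117_fs.snd h1 h2) (enc_rat _ 670941 800000)))))) (pr_case (pr_addc h1 (enc_rat _ 1 16)) (pr_add (pr_add (pr_subr 5329 160000 (kcg_126_fs.snd h1 h2)) (pr_cmul (enc_norm (kcg_3.enc h1.l h2)) (pr_norm (pr_addc (kcg_130_fs.snd h1 h2) (enc_rat _ 1761 6400))))) (pr_cmul (enc_norm (kcg_139.enc h1.l h2)) (pr_norm (pr_mul (pr_norm (kcg_93_fs.snd h1 h2)) (pr_norm (pr_csub (enc_neg (enc_rat _ 1 16)) h1)))))) (pr_sub (kcg_144_fs.snd h1 h2) (kcg_148_fs.snd h1 h2))))) (pr_neg (pr_case (kcg_155_fs.snd h1 h2) (pr_case (kcg_156_fs.snd h1 h2) (pr_case (kcg_157_fs.snd h1 h2) (pr_add (pr_csub (enc_rat _ 19931469 40000000) (kcg_13_fs.snd h1 h2)) (pr_cmul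 (enc_norm (kcg_3.enc h1.l h2)) (pr_norm (pr_subr 2997049 4000000 (pr_neg (kcg_16_fs.snd h1 h2)))))) (pr_add (pr_add (pr_subr 4767039 10000000 (kcg_22_fs.snd h1 h2)) (pr_cmul (enc_norm (kcg_3.enc h1.l h2)) (pr_norm (pr_subr 195299 4000000 (pr_neg (kcg_27_fs.snd h1 h2)))))) (pr_cmul (enc_norm (kcg_38.enc h1.l h2)) (pr_norm (pr_mul (pr_norm (kcg_157_fs.snd h1 h2)) (pr_norm (pr_subr 77 200 h1))))))) (pr_case (kcg_174_fs.snd h1 h2) (pr_add (pr_add (pr_subr 9654999 10000000 (kcg_47_fs.snd h1 h2)) (pr_cmul (enc_norm (kcg_3.enc h1.l h2)) (pr_norm (pr_csub (enc_rat _ 2271011 4000000) (kcg_52_fs.snd h1 h2))))) (pr_cmul (enc_norm (kcg_63.enc h1.l h2)) (pr_norm (pr_mul (pr_norm (kcg_156_fs.snd h1 h2)) (pr_norm (pr_subr 83 250 h1)))))) (pr_add (pr_add (pr_subr 1134731 2000000 (kcg_68_fs.snd h1 h2)) (pr_cmul (enc_norm (kcg_3.enc h1.l h2)) (pr_norm (pr_csub (enc_rat _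 2858651 4000000) (kcg_73_fs.snd h1 h2))))) (pr_cmul (enc_norm (kcg_84.enc h1.l h2)) (pr_norm (pr_mul (pr_norm (kcg_174_fs.snd h1 h2)) (pr_norm (pr_subr 7 25 h1)))))))) (pr_case (kcg_195_fs.snd h1 h2) (pr_case (pr_csub (enc_rat _ 227 1000) h1) (pr_add (pr_add (pr_subr 559947 2000000 (pr_neg (kcg_97_fs.snd h1 h2))) (pr_cmul (enc_norm (kcg_3.enc h1.l h2)) (pr_norm (pr_csub (enc_rat _ 3354251 4000000) (kcg_101_fs.snd h1 h2))))) (pr_cmul (enc_norm (kcg_108.enc h1.l h2)) (pr_norm (pr_mul (pr_norm (kcg_155_fs.snd h1 h2)) (pr_norm (pr_subr 227 1000 h1)))))) (pr_add (pr_subr 2030349 20000000 (pr_neg (kcg_113_fs.snd h1 h2))) (pr_cmul (enc_norm (kcg_3.enc h1.l h2)) (pr_norm (pr_csub (enc_rat _ 670941 800000) (kcg_117_fs.snd h1 h2)))))) (pr_case (pr_csub (enc_rat _ 1 16) h1) (pr_add (pr_add (pr_subr 5329 160000 (pr_neg (kcg_126_fs.snd h1 h2))) (pr_cmul (enc_norm (kcg_3.enc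 h1.l h2)) (pr_norm (pr_csub (enc_rat _ 1761 6400) (kcg_130_fs.snd h1 h2))))) (pr_cmul (enc_norm (kcg_139.enc h1.l h2)) (pr_norm (pr_mul (pr_norm (kcg_195_fs.snd h1 h2)) (pr_norm (pr_subr 1 16 h1)))))) (pr_sub (kcg_148_fs.snd h1 h2) (kcg_144_fs.snd h1 h2))))))))⟩
noncomputable def kf0q0_9_fs : Sl2 kf0q0_9 := ⟨_, fun h1 h2 => (pr_scale 3 2 h1)⟩
noncomputable def kf0q0_12_fs : Sl2 kf0q0_12 := ⟨_, fun h1 h2 => (pr_cadd (enc_pnc _ 1) (c1g_fs.snd h1))⟩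
noncomputable def kf0q0_fs : Sl2 kf0q0 := ⟨_, fun h1 h2 => (pr_norm (pr_add (pr_mul (pr_norm (pr_mul (pr_norm (pr_sub (c1g_fs.snd h1) (kf0q0_9_fs.snd h1 h2))) (pr_norm (kf0q0_12_fs.snd h1 h2)))) (pr_nd (pr_inv (pr_sub (kf0q0_12_fs.snd h1 h2) (kf0q0_9_fs.snd h1 h2))))) (pr_mul h1 (kcg_fs.snd (pr_norm (pr_sub (pr_scale 3 4 h1) (pr_half (c1g_fs.snd h1)))) h2))))⟩
noncomputable def txg_6_fs : Sl3 txg_6 := ⟨_, fun h1 h2 h3 => (pr_add h1 (pr_half h2))⟩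
noncomputable def txg_26_fs : Sl3 txg_26 := ⟨_, fun h1 h2 h3 => (pr_addc h1 (enc_rat _ 1 4))⟩
noncomputable def txg_29_fs : Sl3 txg_29 := ⟨_, fun h1 h2 h3 => (pr_addc h1 (enc_rat _ 2 5))⟩
noncomputable def txg_32_fs : Sl3 txg_32 := ⟨_, fun h1 h2 h3 => (pr_addc h1 (enc_rat _ 9 20))⟩
noncomputable def txg_72_fs : Sl3 txg_72 := ⟨_, fun h1 h2 h3 => (pr_addc h1 (enc_rat _ 7 20))⟩
noncomputable def txg_94_fs : Sl3 txg_94 := ⟨_, fun h1 h2 h3 => (pr_addc h1 (enc_rat _ 3 10))⟩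
noncomputable def txg_137_fs : Sl3 txg_137 := ⟨_, fun h1 h2 h3 => (pr_addc h1 (enc_rat _ 3 20))⟩
noncomputable def txg_140_fs : Sl3 txg_140 := ⟨_, fun h1 h2 h3 => (pr_addc h1 (enc_rat _ 1 5))⟩
noncomputable def txg_178_fs : Sl3 txg_178 := ⟨_, fun h1 h2 h3 => (pr_addc h1 (enc_rat _ 1 10))⟩
noncomputable def txg_198_fs : Sl3 txg_198 := ⟨_, fun h1 h2 h3 => (pr_subr 1 10 h1)⟩
noncomputable def txg_251_fs : Sl3 txg_251 := ⟨_, fun h1 h2 h3 => (pr_subr 71 313 h1)⟩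
noncomputable def txg_252_fs : Sl3 txg_252 := ⟨_, fun h1 h2 h3 => (pr_subr 7 20 h1)⟩
noncomputable def txg_253_fs : Sl3 txg_253 := ⟨_, fun h1 h2 h3 => (pr_subr 1 4 h1)⟩
noncomputable def txg_283_fs : Sl3 txg_283 := ⟨_, fun h1 h2 h3 => (pr_subr 3 10 h1)⟩
noncomputable def txg_322_fs : Sl3 txg_322 := ⟨_, fun h1 h2 h3 => (pr_subr 2 5 h1)⟩
noncomputable def txg_343_fs : Sl3 txg_343 := ⟨_, fun h1 h2 h3 => (pr_subr 9 20 h1)⟩
noncomputable def txg_fs : Sl3 txg := ⟨_, fun h1 h2 h3 => (pr_case (pr_subr 181 1406 h1) (pr_case (txg_26_fs.snd h1 h2 h3) (pr_case (txg_29_fs.snd h1 h2 h3) (pr_case (txg_32_fs.snd h1 h2 h3) (pr_add (pr_add (pr_addc (pr_scale 12399 62500 h1) (enc_rat _ 12399 125000)) (pr_cmul (enc_norm (txg_4.enc h1.l h2.l h3)) (pr_norm (pr_addc (pr_scale 23593 25000 h1) (enc_rat _ 23593 50000))))) (pr_cmul (enc_norm (enc_subr 71937 50000 (enc_scale 8472 625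 (txg_4.enc h1.l h2.l h3)))) (pr_norm (pr_mul (pr_norm (pr_addc h1 (enc_rat _ 1 2))) (pr_norm (pr_csub (enc_neg (enc_rat _ 9 20)) h1)))))) (pr_add (pr_add (pr_addc (pr_scale 113297 500000 h1) (enc_rat _ 223773 2000000)) (pr_cmul (enc_norm (txg_4.enc h1.l h2.l h3)) (pr_norm (pr_addc (pr_scale 283 12500 h1) (enc_rat _ 28687 500000))))) (pr_cmul (enc_norm (enc_add (enc_scale 24331 5000 (txg_4.enc h1.l h2.l h3)) (enc_rat _ 2733 3125))) (pr_norm (pr_mul (pr_norm (txg_32_fs.snd h1 h2 h3)) (pr_norm (pr_csub (enc_neg (enc_rat _ 2 5)) h1))))))) (pr_case (txg_72_fs.snd h1 h2 h3) (pr_add (pr_add (pr_addc (pr_scale 18819 100000 h1) (enc_rat _ 965249 10000000)) (pr_cmul (enc_norm (txg_4.enc h1.l h2.l h3)) (pr_norm (pr_addc (pr_scale 15347 25000 h1) (enc_rat _ 29387 100000))))) (pr_cmul (enc_norm (enc_subr 2661 25000 (enc_neg (enc_scale 20863 1250 (txg_4.enc h1.l h2.l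 h3))))) (pr_norm (pr_mul (pr_norm (txg_29_fs.snd h1 h2 h3)) (pr_norm (pr_csub (enc_neg (enc_rat _ 7 20)) h1)))))) (pr_case (txg_94_fs.snd h1 h2 h3) (pr_add (pr_add (pr_addc (pr_scale 22771 100000 h1) (enc_rat _ 1103569 10000000)) (pr_cmul (enc_norm (txg_4.enc h1.l h2.l h3)) (pr_norm (pr_addc (pr_scale 5823 25000 h1) (enc_rat _ 80267 500000))))) (pr_cmul (enc_norm (enc_subr 34201 50000 (enc_scale 15193 625 (txg_4.enc h1.l h2.l h3)))) (pr_norm (pr_mul (pr_norm (txg_72_fs.snd h1 h2 h3)) (pr_norm (pr_csub (enc_neg (enc_rat _ 3 10)) h1)))))) (pr_add (pr_add (pr_addc (pr_scale 7311 25000 h1) (enc_rat _ 1297759 10000000)) (pr_cmul (enc_norm (txg_4.enc h1.l h2.l h3)) (pr_norm (pr_csub (enc_rat _ 1303 100000) (pr_scale 6469 25000 h1))))) (pr_cmul (enc_norm (enc_subr 1908 3125 (enc_neg (enc_scale 18093 1250 (txg_4.enc h1.l h2.l h3))))) (pr_norm (pr_mul (pr_norm (txg_94_fs.snd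 h1 h2 h3)) (pr_norm (pr_csub (enc_neg (enc_rat _ 1 4)) h1))))))))) (pr_case (txg_137_fs.snd h1 h2 h3) (pr_case (txg_140_fs.snd h1 h2 h3) (pr_add (pr_add (pr_addc (pr_scale 162753 500000 h1) (enc_rat _ 172553 1250000)) (pr_cmul (enc_norm (txg_4.enc h1.l h2.l h3)) (pr_norm (pr_addc (pr_scale 20731 50000 h1) (enc_rat _ 1451 8000))))) (pr_cmul (enc_norm (enc_subr 1269 25000 (enc_scale 503 500 (txg_4.enc h1.l h2.l h3)))) (pr_norm (pr_mul (pr_norm (txg_26_fs.snd h1 h2 h3)) (pr_norm (pr_csub (enc_neg (enc_rat _ 1 5)) h1)))))) (pr_add (pr_add (pr_addc (pr_scale 65129 250000 h1) (enc_rat _ 312611 2500000)) (pr_cmul (enc_norm (txg_4.enc h1.l h2.l h3)) (pr_norm (pr_csub (enc_rat _ 39011 1000000) (pr_scale 743 2500 h1))))) (pr_cmul (enc_norm (enc_add (enc_scale 13231 1000 (txg_4.enc h1.l h2.l h3)) (enc_rat _ 8441 6250))) (pr_norm (pr_mul (pr_norm (txg_140_fs.snd h1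 h2 h3)) (pr_norm (pr_csub (enc_neg (enc_rat _ 3 20)) h1))))))) (pr_case (txg_178_fs.snd h1 h2 h3) (pr_add (pr_add (pr_addc (pr_scale 4441 20000 h1) (enc_rat _ 238549 2000000)) (pr_cmul (enc_norm (txg_4.enc h1.l h2.l h3)) (pr_norm (pr_addc (pr_scale 1919 12500 h1) (enc_rat _ 106619 1000000))))) (pr_cmul (enc_norm (enc_subr 14531 25000 (enc_neg (enc_scale 222457 10000 (txg_4.enc h1.l h2.l h3))))) (pr_norm (pr_mul (pr_norm (txg_137_fs.snd h1 h2 h3)) (pr_norm (pr_csub (enc_neg (enc_rat _ 1 10)) h1)))))) (pr_case (txg_198_fs.snd h1 h2 h3) (pr_add (pr_add (pr_addc (pr_scale 5363 40000 h1) (enc_rat _ 110477 1000000)) (pr_cmul (enc_norm (txg_4.enc h1.l h2.l h3)) (pr_norm (pr_addc (pr_scale 5369 200000 h1) (enc_rat _ 187903 2000000))))) (pr_cmul (enc_norm (enc_add (enc_scale 15487 2500 (txg_4.enc h1.l h2.l h3)) (enc_rat _ 29259 50000))) (pr_norm (pr_mul (pr_norm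 (txg_178_fs.snd h1 h2 h3)) (pr_norm (pr_csub (enc_rat _ 1 10) h1)))))) (pr_add (pr_add (pr_add (pr_addc (pr_scale 300818737864574207 9983021800000000000 h1) (enc_rat _ 12066597903956425793 99830218000000000000)) (pr_cmul (enc_norm (txg_4.enc h1.l h2.l h3)) (pr_norm (pr_csub (enc_rat _ 543988651167781863 3993208720000000000) (pr_scale 158100933301861863 399320872000000000 h1))))) (pr_cmul (txg_228.enc h1.l h2.l h3) (pr_norm (pr_subr 798296727 28401200000 (pr_scale 798296727 2840120000 h1))))) (pr_cmul (enc_norm (enc_subr 45571 100000 (enc_mul (enc_norm (enc_subr 284059 10000 (enc_neg (enc_scale 4891 500 (txg_4.enc h1.l h2.l h3))))) (enc_norm (txg_4.enc h1.l h2.l h3))))) (pr_norm (pr_mul (pr_norm (txg_198_fs.snd h1 h2 h3)) (pr_norm (pr_csub (enc_rat _ 181 1406) h1)))))))))) (pr_case (txg_251_fs.snd h1 h2 h3) (pr_sub (pr_mul (pr_norm (pr_csub (enc_pnc _ 1)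 h2)) (pr_norm (pr_subn 1 (pr_nat 2 h2)))) (pr_mul (pr_norm (pr_nat 2 (pr_subc (pr_scale 4 3 (txg_6_fs.snd h1 h2 h3)) h3))) (pr_norm (pr_mul (pr_norm (pr_subn 1 (pr_add (pr_scale 2 3 (txg_6_fs.snd h1 h2 h3)) h2))) (kcg_fs.snd h1 h3))))) (pr_case (txg_252_fs.snd h1 h2 h3) (pr_case (txg_253_fs.snd h1 h2 h3) (pr_add (pr_add (pr_add (pr_csub (enc_rat _ 927278216195045643 5682202000000000000) (pr_scale 274418776304045643 1420550500000000000 h1)) (pr_cmul (enc_norm (txg_4.enc h1.l h2.l h3)) (pr_norm (pr_csub (enc_rat _ 37779657807353813 227288080000000000) (pr_scale 16183426309993813 56822020000000000 h1))))) (pr_cmul (txg_228.enc h1.l h2.l h3) (pr_norm (pr_csub (enc_rat _ 6720334413 3630800000) (pr_scale 6720334413 907700000 h1))))) (pr_cmul (enc_norm (enc_add (enc_mul (enc_norm (enc_sub (enc_rat _ 91899 10000) (enc_scale 63927 200 (txg_4.enc h1.l h2.l h3))))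 (enc_norm (txg_4.enc h1.l h2.l h3))) (enc_rat _ 84583 50000))) (pr_norm (pr_mul (pr_norm (txg_251_fs.snd h1 h2 h3)) (pr_norm (pr_csub (enc_rat _ 1 4) h1)))))) (pr_case (txg_283_fs.snd h1 h2 h3) (pr_add (pr_add (pr_csub (enc_rat _ 190697 1000000) (pr_scale 151603 500000 h1)) (pr_cmul (enc_norm (txg_4.enc h1.l h2.l h3)) (pr_norm (pr_addc (pr_scale 1123 10000 h1) (enc_rat _ 33471 500000))))) (pr_cmul (enc_norm (enc_sub (enc_rat _ 141691 100000) (enc_scale 12199 1000 (txg_4.enc h1.l h2.l h3)))) (pr_norm (pr_mul (pr_norm (txg_253_fs.snd h1 h2 h3)) (pr_norm (pr_csub (enc_rat _ 3 10) h1)))))) (pr_add (pr_add (pr_csub (enc_rat _ 71593 312500) (pr_scale 53901 125000 h1)) (pr_cmul (enc_norm (txg_4.enc h1.l h2.l h3)) (pr_norm (pr_addc (pr_scale 14773 50000 h1) (enc_rat _ 5997 500000))))) (pr_cmul (enc_norm (enc_add (enc_scale 21339 2500 (txg_4.enc h1.l h2.l h3)) (enc_rat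 _ 14289 12500))) (pr_norm (pr_mul (pr_norm (txg_283_fs.snd h1 h2 h3)) (pr_norm (pr_csub (enc_rat _ 7 20) h1)))))))) (pr_case (txg_322_fs.snd h1 h2 h3) (pr_add (pr_add (pr_csub (enc_rat _ 2623581 10000000) (pr_scale 263119 500000 h1)) (pr_cmul (enc_norm (txg_4.enc h1.l h2.l h3)) (pr_norm (pr_csub (enc_rat _ 141949 1000000) (pr_scale 237 3125 h1))))) (pr_cmul (enc_norm (enc_sub (enc_rat _ 18937 25000) (enc_scale 5549 5000 (txg_4.enc h1.l h2.l h3)))) (pr_norm (pr_mul (pr_norm (txg_252_fs.snd h1 h2 h3)) (pr_norm (pr_csub (enc_rat _ 2 5) h1)))))) (pr_case (txg_343_fs.snd h1 h2 h3) (pr_add (pr_add (pr_csub (enc_rat _ 2725653 10000000) (pr_scale 137939 250000 h1)) (pr_cmul (enc_norm (txg_4.enc h1.l h2.l h3)) (pr_norm (pr_csub (enc_rat _ 295757 1000000) (pr_scale 11509 25000 h1))))) (pr_cmul (enc_norm (enc_subr 3089 12500 (enc_scale 44003 5000 (txg_4.enc h1.l h2.l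 h3)))) (pr_norm (pr_mul (pr_norm (txg_322_fs.snd h1 h2 h3)) (pr_norm (pr_csub (enc_rat _ 9 20) h1)))))) (pr_add (pr_add (pr_csub (enc_rat _ 242751 1000000) (pr_scale 242751 500000 h1)) (pr_cmul (enc_norm (txg_4.enc h1.l h2.l h3)) (pr_norm (pr_csub (enc_rat _ 17719 20000) (pr_scale 17719 10000 h1))))) (pr_cmul (enc_norm (enc_subr 26949 25000 (enc_scale 1743 100 (txg_4.enc h1.l h2.l h3)))) (pr_norm (pr_mul (pr_norm (txg_343_fs.snd h1 h2 h3)) (pr_norm (pr_csub (enc_rat _ 1 2) h1)))))))))))⟩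
noncomputable def l0q0_fs : Sl2 l0q0 := ⟨_, fun h1 h2 => (pr_norm (txg_fs.snd (pr_norm (pr_sub (pr_scale 3 4 h1) (pr_half (c1g_fs.snd h1)))) (pr_nd (c1g_fs.snd h1)) h2))⟩
noncomputable def swg_fs : Sl1 swg := ⟨_, fun h1 => (pr_sqrt (pr_csub (enc_pnc _ 1) (pr_scale 3 4 (pr_sq (pr_norm (pr_subn 1 h1))))))⟩
noncomputable def cv1m_fs : Sl1 cv1m := ⟨_, fun h1 => (pr_norm (pr_add (pr_scale 4 5 (c1g_fs.snd h1)) (pr_scale 1 5 (pr_addc (swg_fs.snd h1) (enc_rat _ 1 2)))))⟩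
noncomputable def bf1q0_fs : Sl2 bf1q0 := ⟨_, fun h1 h2 => (pr_norm (pr_case (pr_subr 159 1000 h1) (pr_case (pr_subr 53 500 h1) (pr_sub (pr_csub (enc_pnc _ 1) (pr_scale 315 212 h1)) (pr_cmul (enc_norm (bf1q0_3.enc h1.l h2)) (pr_nd (pr_scale 108 53 h1)))) (pr_add (pr_csub (enc_rat _ 10137 10000) (pr_scale 428 265 h1)) (pr_cmul (enc_norm (bf1q0_3.enc h1.l h2)) (pr_norm (pr_subr 29 500 (pr_neg (pr_scale 79 53 h1))))))) (pr_case (pr_subr 149 500 h1) (pr_add (pr_csub (enc_rat _ 74793 69500) (pr_scale 2791 1390 h1)) (pr_cmul (enc_norm (bf1q0_3.enc h1.l h2)) (pr_norm (pr_subr 24557 69500 (pr_scale 51 139 h1))))) (pr_add (pr_csub (enc_rat _ 273891 252500) (pr_scale 2057 1010 h1)) (pr_cmul (enc_norm (bf1q0_3.enc h1.l h2)) (pr_norm (pr_subr 80817 101000 (pr_scale 377 202 h1))))))))⟩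
noncomputable def kf1q0_fs : Sl2 kf1q0 := ⟨_, fun h1 h2 => (pr_norm (pr_mul (cv1m_fs.snd h1) (bf1q0_fs.snd h1 h2)))⟩
noncomputable def bx1q0_fs : Sl2 bx1q0 := ⟨_, fun h1 h2 => (pr_norm (pr_case (pr_subr 1 16 h1) (pr_add (pr_scale 31 125 h1) (pr_cmul (enc_norm (bx1q0_3.enc h1.l h2)) (pr_nd (pr_scale 104 125 h1)))) (pr_case (pr_subr 159 1000 h1) (pr_add (pr_addc (pr_scale 239 965 h1) (enc_rat _ 1 48250)) (pr_cmul (enc_norm (bx1q0_3.enc h1.l h2)) (pr_norm (pr_addc (pr_scale 24 193 h1) (enc_rat _ 1067 24125))))) (pr_add (pr_addc (pr_scale 593 3410 h1) (enc_rat _ 40067 3410000)) (pr_cmul (enc_norm (bx1q0_3.enc h1.l h2)) (pr_norm (pr_addc (pr_scale 40 341 h1) (enc_rat _ 1933 42625))))))))⟩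
noncomputable def l1q0_fs : Sl2 l1q0 := ⟨_, fun h1 h2 => (pr_norm (pr_mul (cv1m_fs.snd h1) (bx1q0_fs.snd h1 h2)))⟩
noncomputable def cv2m_fs : Sl1 cv2m := ⟨_, fun h1 => (pr_norm (pr_add (pr_half (c1g_fs.snd h1)) (pr_half (pr_addc (swg_fs.snd h1) (enc_rat _ 1 2)))))⟩
noncomputable def bf2q0_fs : Sl2 bf2q0 := ⟨_, fun h1 h2 => (pr_norm (pr_case (pr_subr 159 1000 h1) (pr_sub (pr_csub (enc_pnc _ 1) (pr_scale 1013 530 h1)) (pr_cmul (enc_norm (bf2q0_3.enc h1.l h2)) (pr_nd (pr_scale 340 159 h1)))) (pr_add (pr_csub (enc_rat _ 3608813 3410000) (pr_scale 3884 1705 h1)) (pr_cmul (enc_norm (bf2q0_3.enc h1.l h2)) (pr_norm (pr_subr 97243 170500 (pr_scale 494 341 h1)))))))⟩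
noncomputable def kf2q0_fs : Sl2 kf2q0 := ⟨_, fun h1 h2 => (pr_norm (pr_mul (cv2m_fs.snd h1) (bf2q0_fs.snd h1 h2)))⟩
noncomputable def bx2q0_fs : Sl2 bx2q0 := ⟨_, fun h1 h2 => (pr_norm (pr_case (pr_subr 159 1000 h1) (pr_case (pr_subr 1 16 h1) (pr_add (pr_scale 243 625 h1) (pr_cmul (enc_norm (bx2q0_3.enc h1.l h2)) (pr_nd (pr_scale 144 125 h1)))) (pr_add (pr_addc (pr_scale 361 965 h1) (enc_rat _ 887 965000)) (pr_cmul (enc_norm (bx2q0_3.enc h1.l h2)) (pr_norm (pr_addc (pr_scale 18 193 h1) (enc_rat _ 12771 193000)))))) (pr_case (pr_subr 53 250 h1) (pr_add (pr_addc (pr_scale 61 530 h1) (enc_rat _ 421 10000)) (pr_cmul (enc_norm (bx2q0_3.enc h1.l h2)) (pr_norm (pr_csub (enc_rat _ 24 125) (pr_scale 37 53 h1))))) (pr_add (pr_addc (pr_scale 5 96 h1) (enc_rat _ 1331 24000)) (pr_cmul (enc_norm (bx2q0_3.enc h1.l h2)) (pr_norm (pr_addc (pr_scale 7 48 h1) (enc_rat _ 157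 12000))))))))⟩
noncomputable def l2q0_fs : Sl2 l2q0 := ⟨_, fun h1 h2 => (pr_norm (pr_mul (cv2m_fs.snd h1) (bx2q0_fs.snd h1 h2)))⟩
noncomputable def kf0q1_10_fs : Sl2 kf0q1_10 := ⟨_, fun h1 h2 => (pr_scale 3 2 h1)⟩
noncomputable def kf0q1_fs : Sl2 kf0q1 := ⟨_, fun h1 h2 => (pr_norm (pr_add (pr_mul (pr_norm (pr_mul (pr_norm (pr_cadd (enc_pnc _ 1) (pr_nat 2 (c1g_fs.snd h1)))) (pr_norm (pr_sub (kf0q1_10_fs.snd h1 h2) (c1g_fs.snd h1))))) (pr_nd (pr_inv (pr_nat 2 (pr_sub (pr_cadd (enc_pnc _ 1) (kf0q1_10_fs.snd h1 h2)) (c1g_fs.snd h1)))))) (pr_mul (pr_norm (pr_subn 1 h1)) (kcg_fs.snd (pr_norm (pr_sub (pr_scale 3 4 h1) (pr_half (c1g_fs.snd h1)))) h2))))⟩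
noncomputable def l0q1_fs : Sl2 l0q1 := ⟨_, fun h1 h2 => (pr_norm (txg_fs.snd (pr_norm (pr_sub (pr_scale 3 4 h1) (pr_half (c1g_fs.snd h1)))) (pr_nd (c1g_fs.snd h1)) h2))⟩
noncomputable def cv2p_fs : Sl1 cv2p := ⟨_, fun h1 => (pr_norm (pr_add (pr_half (c1g_fs.snd h1)) (pr_half (pr_subr 1 2 (swg_fs.snd h1)))))⟩
noncomputable def bf2q2_fs : Sl2 bf2q2 := ⟨_, fun h1 h2 => (pr_norm (pr_case (pr_subr 277 250 h1) (pr_case (pr_subr 17 16 h1) (pr_add (pr_csub (enc_rat _ 1402 625) (pr_scale 777 625 h1)) (pr_cmul (enc_norm (bf2q2_3.enc h1.l h2)) (pr_norm (pr_csub (enc_rat _ 1692 125) (pr_scale 1692 125 h1))))) (pr_add (pr_csub (enc_rat _ 4502793 910000) (pr_scale 1724 455 h1)) (pr_cmul (enc_norm (bf2q2_3.enc h1.l h2)) (pr_norm (pr_csub (enc_rat _ 88001 6500) (pr_scale 176 13 h1)))))) (pr_case (pr_subr 231 200 h1) (pr_add (pr_csub (enc_rat _ 2571777 470000) (pr_scale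 2003 470 h1)) (pr_cmul (enc_norm (bf2q2_3.enc h1.l h2)) (pr_norm (pr_subr 1455367 23500 (pr_scale 2565 47 h1))))) (pr_add (pr_csub (enc_rat _ 103239 23000) (pr_scale 1961 575 h1)) (pr_cmul (enc_norm (bf2q2_3.enc h1.l h2)) (pr_norm (pr_subr 356039 5750 (pr_scale 1255 23 h1))))))))⟩
noncomputable def kf2q2_fs : Sl2 kf2q2 := ⟨_, fun h1 h2 => (pr_norm (pr_mul (cv2p_fs.snd h1) (bf2q2_fs.snd h1 h2)))⟩
noncomputable def bx2q2_fs : Sl2 bx2q2 := ⟨_, fun h1 h2 => (pr_norm (pr_case (pr_subr 277 250 h1) (pr_case (pr_subr 17 16 h1) (pr_add (pr_csub (enc_rat _ 62 125) (pr_scale 62 125 h1)) (pr_cmul (enc_norm (bx2q2_3.enc h1.l h2)) (pr_norm (pr_csub (enc_rat _ 566 125) (pr_scale 566 125 h1))))) (pr_add (pr_csub (enc_rat _ 28127 45500) (pr_scale 278 455 h1)) (pr_cmul (enc_norm (bx2q2_3.enc h1.l h2)) (pr_norm (pr_csub (enc_rat _ 207061 45500) (pr_scale 414 91 h1)))))) (pr_case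 (pr_subr 231 200 h1) (pr_add (pr_csub (enc_rat _ 200833 58750) (pr_scale 295 94 h1)) (pr_cmul (enc_norm (bx2q2_3.enc h1.l h2)) (pr_norm (pr_subr 256937 23500 (pr_scale 443 47 h1))))) (pr_case (pr_subr 166 125 h1) (pr_add (pr_subr 3052669 1730000 (pr_scale 1167 865 h1)) (pr_cmul (enc_norm (bx2q2_3.enc h1.l h2)) (pr_norm (pr_csub (enc_rat _ 1285469 173000) (pr_scale 1120 173 h1))))) (pr_add (pr_subr 758587 430000 (pr_scale 58 43 h1)) (pr_cmul (enc_norm (bx2q2_3.enc h1.l h2)) (pr_norm (pr_subr 773941 43000 (pr_scale 545 43 h1)))))))))⟩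
noncomputable def l2q2_fs : Sl2 l2q2 := ⟨_, fun h1 h2 => (pr_norm (pr_mul (cv2p_fs.snd h1) (bx2q2_fs.snd h1 h2)))⟩
noncomputable def dlg : Fn2 := ⟨_, _, fun h1 h2 => (kcg.enc (enc_norm (enc_sub (enc_scale 3 4 h1) (enc_half (c1g.enc h1)))) h2)⟩
noncomputable def kq02_6 : Fn2 := ⟨_, _, fun h1 h2 => (enc_scale 1037 500 h2)⟩
noncomputable def kq02 : Fn2 := ⟨_, _, fun h1 h2 => (enc_norm (enc_add (enc_sub (enc_rat _ 509499149 100000000) (kq02_6.enc h1 h2)) (enc_mul (enc_norm (enc_subr 409499149 100000000 (kq02_6.enc h1 h2))) (yag.enc h1))))⟩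
noncomputable def lq02 : Fn2 := ⟨_, _, fun h1 h2 => (enc_norm (enc_sub (enc_neg (enc_rat _ 4563142487 20000000000)) (enc_scale 5369 100000 h2)))⟩
noncomputable def cq02 : Fn2 := ⟨_, _, fun h1 h2 => (enc_pnc _ 0)⟩
noncomputable def pcE0 : Piece := ⟨Fn3.sc eng rsbq0, rlq0⟩
noncomputable def pcE1 : Piece := ⟨Fn3.sc eng rsbq1, rlq1⟩
noncomputable def pcE2 : Piece := ⟨Fn3.sc eng rsbq2, rlq2⟩
noncomputable def pcE3 : Piece := ⟨Fn3.sc eng rsbq3, rlq3⟩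

end Pool.Agent.Strip051.G.I72727_7625.Tab
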