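import Pool.Agent.Strip051.G.I72727_7625.Tab
import Pool.Agent.Strip051.PB.C12G
import Pool.Agent.Strip051.PB.PairB

/-! # Slopes of the tables near the lattice heights (generated) -/

set_option linter.all false

namespace Pool.Agent.Strip051.G.I72727_7625.Tab

open Pool.Agent.Strip051.PB

attribute [local irreducible] padd psub pneg pmul psq pinv psqrt psqrtg pabs pps pmax pmin pphi plam
  pcase phf pnat prat pscale pnorm pdc pnc pone ppos pnn Enc pbad pzero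

noncomputable def idf_s : Sl1 idf := ⟨fun _ _ D => D, fun h => h⟩

theorem cv1r_two {b : ℝ} (h : b = 2) : cv1r.v b = 0 := by
  have e : swg.v = swn := by funext y; simp [swg, swn]
  subst h
  simp only [cv1r, e, swn_two]
  push_cast
  ring
theorem cv2r_two {b : ℝ} (h : b = 2) : cv2r.v b = 0 := by
  have e : swg.v = swn := by funext y; simp [swg, swn]
  subst h
  simp only [cv2r, e, swn_two]
  push_cast
  ring
noncomputable def c1g_s : Sl1 c1g := ⟨_, fun h1 => (pr_sqrtgz (pr_csub (enc_pnc _ 1) (pr_scale 3 4 (pr_sq h1))))⟩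
noncomputable def kcg_6_s : Sl2 kcg_6 := ⟨_, fun h1 h2 => (pr_addc h1 (enc_rat _ 7 25))⟩
noncomputable def kcg_9_s : Sl2 kcg_9 := ⟨_, fun h1 h2 => (pr_addc h1 (enc_rat _ 77 200))⟩
noncomputable def kcg_12_s : Sl2 kcg_12 := ⟨_, fun h1 h2 => (pr_addc h1 (enc_rat _ 7 16))⟩
noncomputable def kcg_13_s : Sl2 kcg_13 := ⟨_, fun h1 h2 => (pr_scale 19707 10000 h1)⟩
noncomputable def kcg_16_s : Sl2 kcg_16 := ⟨_, fun h1 h2 => (pr_scale 2643 1000 h1)⟩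
noncomputable def kcg_22_s : Sl2 kcg_22 := ⟨_, fun h1 h2 => (pr_scale 5157 20000 h1)⟩
noncomputable def kcg_27_s : Sl2 kcg_27 := ⟨_, fun h1 h2 => (pr_scale 1061 250 h1)⟩
noncomputable def kcg_46_s : Sl2 kcg_46 := ⟨_, fun h1 h2 => (pr_addc h1 (enc_rat _ 83 250))⟩
noncomputable def kcg_47_s : Sl2 kcg_47 := ⟨_, fun h1 h2 => (pr_scale 30549 20000 h1)⟩
noncomputable def kcg_52_s : Sl2 kcg_52 := ⟨_, fun h1 h2 => (pr_scale 11691 2000 h1)⟩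
noncomputable def kcg_68_s : Sl2 kcg_68 := ⟨_, fun h1 h2 => (pr_scale 1313 4000 h1)⟩
noncomputable def kcg_73_s : Sl2 kcg_73 := ⟨_, fun h1 h2 => (pr_scale 786 125 h1)⟩
noncomputable def kcg_93_s : Sl2 kcg_93 := ⟨_, fun h1 h2 => (pr_addc h1 (enc_rat _ 16 125))⟩
noncomputable def kcg_97_s : Sl2 kcg_97 := ⟨_, fun h1 h2 => (pr_scale 13963 20000 h1)⟩
noncomputable def kcg_101_s : Sl2 kcg_101 := ⟨_, fun h1 h2 => (pr_scale 13461 2000 h1)⟩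
noncomputable def kcg_113_s : Sl2 kcg_113 := ⟨_, fun h1 h2 => (pr_scale 14843 10000 h1)⟩
noncomputable def kcg_117_s : Sl2 kcg_117 := ⟨_, fun h1 h2 => (pr_scale 6731 1000 h1)⟩
noncomputable def kcg_126_s : Sl2 kcg_126 := ⟨_, fun h1 h2 => (pr_scale 5043 2500 h1)⟩
noncomputable def kcg_130_s : Sl2 kcg_130 := ⟨_, fun h1 h2 => (pr_scale 4657 2000 h1)⟩
noncomputable def kcg_144_s : Sl2 kcg_144 := ⟨_, fun h1 h2 => (pr_scale 25501 10000 h1)⟩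
noncomputable def kcg_148_s : Sl2 kcg_148 := ⟨_, fun h1 h2 => (pr_cmul (enc_norm (kcg_3.enc h1.l h2)) (pr_nd (pr_scale 1037 500 h1)))⟩
noncomputable def kcg_155_s : Sl2 kcg_155 := ⟨_, fun h1 h2 => (pr_csub (enc_rat _ 7 25) h1)⟩
noncomputable def kcg_156_s : Sl2 kcg_156 := ⟨_, fun h1 h2 => (pr_csub (enc_rat _ 77 200) h1)⟩
noncomputable def kcg_157_s : Sl2 kcg_157 := ⟨_, fun h1 h2 => (pr_csub (enc_rat _ 7 16) h1)⟩
noncomputable def kcg_174_s : Sl2 kcg_174 := ⟨_, fun h1 h2 => (pr_csub (enc_rat _ 83 250) h1)⟩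
noncomputable def kcg_195_s : Sl2 kcg_195 := ⟨_, fun h1 h2 => (pr_csub (enc_rat _ 16 125) h1)⟩
noncomputable def kcg_s : Sl2 kcg := ⟨_, fun h1 h2 => (pr_norm (pr_case h1 (pr_case (kcg_6_s.snd h1 h2) (pr_case (kcg_9_s.snd h1 h2) (pr_case (kcg_12_s.snd h1 h2) (pr_add (pr_addc (kcg_13_s.snd h1 h2) (enc_rat _ 19931469 40000000)) (pr_cmul (enc_norm (kcg_3.enc h1.l h2)) (pr_norm (pr_subr 2997049 4000000 (kcg_16_s.snd h1 h2))))) (pr_add (pr_add (pr_subr 4767039 10000000 (pr_neg (kcg_22_s.snd h1 h2))) (pr_cmul (enc_norm (kcg_3.enc h1.l h2)) (pr_norm (pr_subr 195299 4000000 (kcg_27_s.snd h1 h2))))) (pr_cmul (enc_norm (kcg_38.enc h1.l h2)) (pr_norm (pr_mul (pr_norm (kcg_12_s.snd h1 h2)) (pr_norm (pr_csub (enc_neg (enc_rat _ 77 200)) h1))))))) (pr_case (kcg_46_s.snd h1 h2) (pr_add (pr_add (pr_subr 9654999 10000000 (pr_neg (kcg_47_s.snd h1 h2))) (pr_cmul (enc_norm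 (kcg_3.enc h1.l h2)) (pr_norm (pr_addc (kcg_52_s.snd h1 h2) (enc_rat _ 2271011 4000000))))) (pr_cmul (enc_norm (kcg_63.enc h1.l h2)) (pr_norm (pr_mul (pr_norm (kcg_9_s.snd h1 h2)) (pr_norm (pr_csub (enc_neg (enc_rat _ 83 250)) h1)))))) (pr_add (pr_add (pr_subr 1134731 2000000 (pr_neg (kcg_68_s.snd h1 h2))) (pr_cmul (enc_norm (kcg_3.enc h1.l h2)) (pr_norm (pr_addc (kcg_73_s.snd h1 h2) (enc_rat _ 2858651 4000000))))) (pr_cmul (enc_norm (kcg_84.enc h1.l h2)) (pr_norm (pr_mul (pr_norm (kcg_46_s.snd h1 h2)) (pr_norm (pr_csub (enc_neg (enc_rat _ 7 25)) h1)))))))) (pr_case (kcg_93_s.snd h1 h2) (pr_case (pr_addc h1 (enc_rat _ 227 1000)) (pr_add (pr_add (pr_subr 559947 2000000 (kcg_97_s.snd h1 h2)) (pr_cmul (enc_norm (kcg_3.enc h1.l h2)) (pr_norm (pr_addc (kcg_101_s.snd h1 h2) (enc_rat _ 3354251 4000000))))) (pr_cmul (enc_norm (kcg_108.enc h1.l h2)) (pr_norm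 (pr_mul (pr_norm (kcg_6_s.snd h1 h2)) (pr_norm (pr_csub (enc_neg (enc_rat _ 227 1000)) h1)))))) (pr_add (pr_subr 2030349 20000000 (kcg_113_s.snd h1 h2)) (pr_cmul (enc_norm (kcg_3.enc h1.l h2)) (pr_norm (pr_addc (kcg_117_s.snd h1 h2) (enc_rat _ 670941 800000)))))) (pr_case (pr_addc h1 (enc_rat _ 1 16)) (pr_add (pr_add (pr_subr 5329 160000 (kcg_126_s.snd h1 h2)) (pr_cmul (enc_norm (kcg_3.enc h1.l h2)) (pr_norm (pr_addc (kcg_130_s.snd h1 h2) (enc_rat _ 1761 6400))))) (pr_cmul (enc_norm (kcg_139.enc h1.l h2)) (pr_norm (pr_mul (pr_norm (kcg_93_s.snd h1 h2)) (pr_norm (pr_csub (enc_neg (enc_rat _ 1 16)) h1)))))) (pr_sub (kcg_144_s.snd h1 h2) (kcg_148_s.snd h1 h2))))) (pr_neg (pr_case (kcg_155_s.snd h1 h2) (pr_case (kcg_156_s.snd h1 h2) (pr_case (kcg_157_s.snd h1 h2) (pr_add (pr_csub (enc_rat _ 19931469 40000000) (kcg_13_s.snd h1 h2)) (pr_cmul (enc_norm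 (kcg_3.enc h1.l h2)) (pr_norm (pr_subr 2997049 4000000 (pr_neg (kcg_16_s.snd h1 h2)))))) (pr_add (pr_add (pr_subr 4767039 10000000 (kcg_22_s.snd h1 h2)) (pr_cmul (enc_norm (kcg_3.enc h1.l h2)) (pr_norm (pr_subr 195299 4000000 (pr_neg (kcg_27_s.snd h1 h2)))))) (pr_cmul (enc_norm (kcg_38.enc h1.l h2)) (pr_norm (pr_mul (pr_norm (kcg_157_s.snd h1 h2)) (pr_norm (pr_subr 77 200 h1))))))) (pr_case (kcg_174_s.snd h1 h2) (pr_add (pr_add (pr_subr 9654999 10000000 (kcg_47_s.snd h1 h2)) (pr_cmul (enc_norm (kcg_3.enc h1.l h2)) (pr_norm (pr_csub (enc_rat _ 2271011 4000000) (kcg_52_s.snd h1 h2))))) (pr_cmul (enc_norm (kcg_63.enc h1.l h2)) (pr_norm (pr_mul (pr_norm (kcg_156_s.snd h1 h2)) (pr_norm (pr_subr 83 250 h1)))))) (pr_add (pr_add (pr_subr 1134731 2000000 (kcg_68_s.snd h1 h2)) (pr_cmul (enc_norm (kcg_3.enc h1.l h2)) (pr_norm (pr_csub (enc_rat _ 2858651 4000000)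 (kcg_73_s.snd h1 h2))))) (pr_cmul (enc_norm (kcg_84.enc h1.l h2)) (pr_norm (pr_mul (pr_norm (kcg_174_s.snd h1 h2)) (pr_norm (pr_subr 7 25 h1)))))))) (pr_case (kcg_195_s.snd h1 h2) (pr_case (pr_csub (enc_rat _ 227 1000) h1) (pr_add (pr_add (pr_subr 559947 2000000 (pr_neg (kcg_97_s.snd h1 h2))) (pr_cmul (enc_norm (kcg_3.enc h1.l h2)) (pr_norm (pr_csub (enc_rat _ 3354251 4000000) (kcg_101_s.snd h1 h2))))) (pr_cmul (enc_norm (kcg_108.enc h1.l h2)) (pr_norm (pr_mul (pr_norm (kcg_155_s.snd h1 h2)) (pr_norm (pr_subr 227 1000 h1)))))) (pr_add (pr_subr 2030349 20000000 (pr_neg (kcg_113_s.snd h1 h2))) (pr_cmul (enc_norm (kcg_3.enc h1.l h2)) (pr_norm (pr_csub (enc_rat _ 670941 800000) (kcg_117_s.snd h1 h2)))))) (pr_case (pr_csub (enc_rat _ 1 16) h1) (pr_add (pr_add (pr_subr 5329 160000 (pr_neg (kcg_126_s.snd h1 h2))) (pr_cmul (enc_norm (kcg_3.enc h1.l h2))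 (pr_norm (pr_csub (enc_rat _ 1761 6400) (kcg_130_s.snd h1 h2))))) (pr_cmul (enc_norm (kcg_139.enc h1.l h2)) (pr_norm (pr_mul (pr_norm (kcg_195_s.snd h1 h2)) (pr_norm (pr_subr 1 16 h1)))))) (pr_sub (kcg_148_s.snd h1 h2) (kcg_144_s.snd h1 h2))))))))⟩
noncomputable def kf0q0_9_s : Sl2 kf0q0_9 := ⟨_, fun h1 h2 => (pr_scale 3 2 h1)⟩
noncomputable def kf0q0_12_s : Sl2 kf0q0_12 := ⟨_, fun h1 h2 => (pr_cadd (enc_pnc _ 1) (c1g_s.snd h1))⟩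
noncomputable def kf0q0_s : Sl2 kf0q0 := ⟨_, fun h1 h2 => (pr_norm (pr_add (pr_mul (pr_norm (pr_mul (pr_norm (pr_sub (c1g_s.snd h1) (kf0q0_9_s.snd h1 h2))) (pr_norm (kf0q0_12_s.snd h1 h2)))) (pr_nd (pr_inv (pr_sub (kf0q0_12_s.snd h1 h2) (kf0q0_9_s.snd h1 h2))))) (pr_mul h1 (kcg_s.snd (pr_norm (pr_sub (pr_scale 3 4 h1) (pr_half (c1g_s.snd h1)))) h2))))⟩
noncomputable def txg_6_s : Sl3 txg_6 := ⟨_, fun h1 h2 h3 => (pr_add h1 (pr_half h2))⟩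
noncomputable def txg_26_s : Sl3 txg_26 := ⟨_, fun h1 h2 h3 => (pr_addc h1 (enc_rat _ 1 4))⟩
noncomputable def txg_29_s : Sl3 txg_29 := ⟨_, fun h1 h2 h3 => (pr_addc h1 (enc_rat _ 2 5))⟩
noncomputable def txg_32_s : Sl3 txg_32 := ⟨_, fun h1 h2 h3 => (pr_addc h1 (enc_rat _ 9 20))⟩
noncomputable def txg_72_s : Sl3 txg_72 := ⟨_, fun h1 h2 h3 => (pr_addc h1 (enc_rat _ 7 20))⟩
noncomputable def txg_94_s : Sl3 txg_94 := ⟨_, fun h1 h2 h3 => (pr_addc h1 (enc_rat _ 3 10))⟩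
noncomputable def txg_137_s : Sl3 txg_137 := ⟨_, fun h1 h2 h3 => (pr_addc h1 (enc_rat _ 3 20))⟩
noncomputable def txg_140_s : Sl3 txg_140 := ⟨_, fun h1 h2 h3 => (pr_addc h1 (enc_rat _ 1 5))⟩
noncomputable def txg_178_s : Sl3 txg_178 := ⟨_, fun h1 h2 h3 => (pr_addc h1 (enc_rat _ 1 10))⟩
noncomputable def txg_198_s : Sl3 txg_198 := ⟨_, fun h1 h2 h3 => (pr_subr 1 10 h1)⟩
noncomputable def txg_251_s : Sl3 txg_251 := ⟨_, fun h1 h2 h3 => (pr_subr 71 313 h1)⟩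
noncomputable def txg_252_s : Sl3 txg_252 := ⟨_, fun h1 h2 h3 => (pr_subr 7 20 h1)⟩
noncomputable def txg_253_s : Sl3 txg_253 := ⟨_, fun h1 h2 h3 => (pr_subr 1 4 h1)⟩
noncomputable def txg_283_s : Sl3 txg_283 := ⟨_, fun h1 h2 h3 => (pr_subr 3 10 h1)⟩
noncomputable def txg_322_s : Sl3 txg_322 := ⟨_, fun h1 h2 h3 => (pr_subr 2 5 h1)⟩
noncomputable def txg_343_s : Sl3 txg_343 := ⟨_, fun h1 h2 h3 => (pr_subr 9 20 h1)⟩
noncomputable def txg_s : Sl3 txg := ⟨_, fun h1 h2 h3 => (pr_case (pr_subr 181 1406 h1) (pr_case (txg_26_s.snd h1 h2 h3) (pr_case (txg_29_s.snd h1 h2 h3) (pr_case (txg_32_s.snd h1 h2 h3) (pr_add (pr_add (pr_addc (pr_scale 12399 62500 h1) (enc_rat _ 12399 125000)) (pr_cmul (enc_norm (txg_4.enc h1.l h2.l h3)) (pr_norm (pr_addc (pr_scale 23593 25000 h1) (enc_rat _ 23593 50000))))) (pr_cmul (enc_norm (enc_subr 71937 50000 (enc_scale 8472 625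 (txg_4.enc h1.l h2.l h3)))) (pr_norm (pr_mul (pr_norm (pr_addc h1 (enc_rat _ 1 2))) (pr_norm (pr_csub (enc_neg (enc_rat _ 9 20)) h1)))))) (pr_add (pr_add (pr_addc (pr_scale 113297 500000 h1) (enc_rat _ 223773 2000000)) (pr_cmul (enc_norm (txg_4.enc h1.l h2.l h3)) (pr_norm (pr_addc (pr_scale 283 12500 h1) (enc_rat _ 28687 500000))))) (pr_cmul (enc_norm (enc_add (enc_scale 24331 5000 (txg_4.enc h1.l h2.l h3)) (enc_rat _ 2733 3125))) (pr_norm (pr_mul (pr_norm (txg_32_s.snd h1 h2 h3)) (pr_norm (pr_csub (enc_neg (enc_rat _ 2 5)) h1))))))) (pr_case (txg_72_s.snd h1 h2 h3) (pr_add (pr_add (pr_addc (pr_scale 18819 100000 h1) (enc_rat _ 965249 10000000)) (pr_cmul (enc_norm (txg_4.enc h1.l h2.l h3)) (pr_norm (pr_addc (pr_scale 15347 25000 h1) (enc_rat _ 29387 100000))))) (pr_cmul (enc_norm (enc_subr 2661 25000 (enc_neg (enc_scale 20863 1250 (txg_4.enc h1.l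 h2.l h3))))) (pr_norm (pr_mul (pr_norm (txg_29_s.snd h1 h2 h3)) (pr_norm (pr_csub (enc_neg (enc_rat _ 7 20)) h1)))))) (pr_case (txg_94_s.snd h1 h2 h3) (pr_add (pr_add (pr_addc (pr_scale 22771 100000 h1) (enc_rat _ 1103569 10000000)) (pr_cmul (enc_norm (txg_4.enc h1.l h2.l h3)) (pr_norm (pr_addc (pr_scale 5823 25000 h1) (enc_rat _ 80267 500000))))) (pr_cmul (enc_norm (enc_subr 34201 50000 (enc_scale 15193 625 (txg_4.enc h1.l h2.l h3)))) (pr_norm (pr_mul (pr_norm (txg_72_s.snd h1 h2 h3)) (pr_norm (pr_csub (enc_neg (enc_rat _ 3 10)) h1)))))) (pr_add (pr_add (pr_addc (pr_scale 7311 25000 h1) (enc_rat _ 1297759 10000000)) (pr_cmul (enc_norm (txg_4.enc h1.l h2.l h3)) (pr_norm (pr_csub (enc_rat _ 1303 100000) (pr_scale 6469 25000 h1))))) (pr_cmul (enc_norm (enc_subr 1908 3125 (enc_neg (enc_scale 18093 1250 (txg_4.enc h1.l h2.l h3))))) (pr_norm (pr_mul (pr_norm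 (txg_94_s.snd h1 h2 h3)) (pr_norm (pr_csub (enc_neg (enc_rat _ 1 4)) h1))))))))) (pr_case (txg_137_s.snd h1 h2 h3) (pr_case (txg_140_s.snd h1 h2 h3) (pr_add (pr_add (pr_addc (pr_scale 162753 500000 h1) (enc_rat _ 172553 1250000)) (pr_cmul (enc_norm (txg_4.enc h1.l h2.l h3)) (pr_norm (pr_addc (pr_scale 20731 50000 h1) (enc_rat _ 1451 8000))))) (pr_cmul (enc_norm (enc_subr 1269 25000 (enc_scale 503 500 (txg_4.enc h1.l h2.l h3)))) (pr_norm (pr_mul (pr_norm (txg_26_s.snd h1 h2 h3)) (pr_norm (pr_csub (enc_neg (enc_rat _ 1 5)) h1)))))) (pr_add (pr_add (pr_addc (pr_scale 65129 250000 h1) (enc_rat _ 312611 2500000)) (pr_cmul (enc_norm (txg_4.enc h1.l h2.l h3)) (pr_norm (pr_csub (enc_rat _ 39011 1000000) (pr_scale 743 2500 h1))))) (pr_cmul (enc_norm (enc_add (enc_scale 13231 1000 (txg_4.enc h1.l h2.l h3)) (enc_rat _ 8441 6250))) (pr_norm (pr_mul (pr_norm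 (txg_140_s.snd h1 h2 h3)) (pr_norm (pr_csub (enc_neg (enc_rat _ 3 20)) h1))))))) (pr_case (txg_178_s.snd h1 h2 h3) (pr_add (pr_add (pr_addc (pr_scale 4441 20000 h1) (enc_rat _ 238549 2000000)) (pr_cmul (enc_norm (txg_4.enc h1.l h2.l h3)) (pr_norm (pr_addc (pr_scale 1919 12500 h1) (enc_rat _ 106619 1000000))))) (pr_cmul (enc_norm (enc_subr 14531 25000 (enc_neg (enc_scale 222457 10000 (txg_4.enc h1.l h2.l h3))))) (pr_norm (pr_mul (pr_norm (txg_137_s.snd h1 h2 h3)) (pr_norm (pr_csub (enc_neg (enc_rat _ 1 10)) h1)))))) (pr_case (txg_198_s.snd h1 h2 h3) (pr_add (pr_add (pr_addc (pr_scale 5363 40000 h1) (enc_rat _ 110477 1000000)) (pr_cmul (enc_norm (txg_4.enc h1.l h2.l h3)) (pr_norm (pr_addc (pr_scale 5369 200000 h1) (enc_rat _ 187903 2000000))))) (pr_cmul (enc_norm (enc_add (enc_scale 15487 2500 (txg_4.enc h1.l h2.l h3)) (enc_rat _ 29259 50000))) (pr_norm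 (pr_mul (pr_norm (txg_178_s.snd h1 h2 h3)) (pr_norm (pr_csub (enc_rat _ 1 10) h1)))))) (pr_add (pr_add (pr_add (pr_addc (pr_scale 300818737864574207 9983021800000000000 h1) (enc_rat _ 12066597903956425793 99830218000000000000)) (pr_cmul (enc_norm (txg_4.enc h1.l h2.l h3)) (pr_norm (pr_csub (enc_rat _ 543988651167781863 3993208720000000000) (pr_scale 158100933301861863 399320872000000000 h1))))) (pr_cmul (txg_228.enc h1.l h2.l h3) (pr_norm (pr_subr 798296727 28401200000 (pr_scale 798296727 2840120000 h1))))) (pr_cmul (enc_norm (enc_subr 45571 100000 (enc_mul (enc_norm (enc_subr 284059 10000 (enc_neg (enc_scale 4891 500 (txg_4.enc h1.l h2.l h3))))) (enc_norm (txg_4.enc h1.l h2.l h3))))) (pr_norm (pr_mul (pr_norm (txg_198_s.snd h1 h2 h3)) (pr_norm (pr_csub (enc_rat _ 181 1406) h1)))))))))) (pr_case (txg_251_s.snd h1 h2 h3) (pr_sub (pr_mul (pr_norm (pr_csub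 (enc_pnc _ 1) h2)) (pr_norm (pr_subn 1 (pr_nat 2 h2)))) (pr_mul (pr_norm (pr_nat 2 (pr_subc (pr_scale 4 3 (txg_6_s.snd h1 h2 h3)) h3))) (pr_norm (pr_mul (pr_norm (pr_subn 1 (pr_add (pr_scale 2 3 (txg_6_s.snd h1 h2 h3)) h2))) (kcg_s.snd h1 h3))))) (pr_case (txg_252_s.snd h1 h2 h3) (pr_case (txg_253_s.snd h1 h2 h3) (pr_add (pr_add (pr_add (pr_csub (enc_rat _ 927278216195045643 5682202000000000000) (pr_scale 274418776304045643 1420550500000000000 h1)) (pr_cmul (enc_norm (txg_4.enc h1.l h2.l h3)) (pr_norm (pr_csub (enc_rat _ 37779657807353813 227288080000000000) (pr_scale 16183426309993813 56822020000000000 h1))))) (pr_cmul (txg_228.enc h1.l h2.l h3) (pr_norm (pr_csub (enc_rat _ 6720334413 3630800000) (pr_scale 6720334413 907700000 h1))))) (pr_cmul (enc_norm (enc_add (enc_mul (enc_norm (enc_sub (enc_rat _ 91899 10000) (enc_scale 63927 200 (txg_4.enc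 h1.l h2.l h3)))) (enc_norm (txg_4.enc h1.l h2.l h3))) (enc_rat _ 84583 50000))) (pr_norm (pr_mul (pr_norm (txg_251_s.snd h1 h2 h3)) (pr_norm (pr_csub (enc_rat _ 1 4) h1)))))) (pr_case (txg_283_s.snd h1 h2 h3) (pr_add (pr_add (pr_csub (enc_rat _ 190697 1000000) (pr_scale 151603 500000 h1)) (pr_cmul (enc_norm (txg_4.enc h1.l h2.l h3)) (pr_norm (pr_addc (pr_scale 1123 10000 h1) (enc_rat _ 33471 500000))))) (pr_cmul (enc_norm (enc_sub (enc_rat _ 141691 100000) (enc_scale 12199 1000 (txg_4.enc h1.l h2.l h3)))) (pr_norm (pr_mul (pr_norm (txg_253_s.snd h1 h2 h3)) (pr_norm (pr_csub (enc_rat _ 3 10) h1)))))) (pr_add (pr_add (pr_csub (enc_rat _ 71593 312500) (pr_scale 53901 125000 h1)) (pr_cmul (enc_norm (txg_4.enc h1.l h2.l h3)) (pr_norm (pr_addc (pr_scale 14773 50000 h1) (enc_rat _ 5997 500000))))) (pr_cmul (enc_norm (enc_add (enc_scale 21339 2500 (txg_4.enc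 h1.l h2.l h3)) (enc_rat _ 14289 12500))) (pr_norm (pr_mul (pr_norm (txg_283_s.snd h1 h2 h3)) (pr_norm (pr_csub (enc_rat _ 7 20) h1)))))))) (pr_case (txg_322_s.snd h1 h2 h3) (pr_add (pr_add (pr_csub (enc_rat _ 2623581 10000000) (pr_scale 263119 500000 h1)) (pr_cmul (enc_norm (txg_4.enc h1.l h2.l h3)) (pr_norm (pr_csub (enc_rat _ 141949 1000000) (pr_scale 237 3125 h1))))) (pr_cmul (enc_norm (enc_sub (enc_rat _ 18937 25000) (enc_scale 5549 5000 (txg_4.enc h1.l h2.l h3)))) (pr_norm (pr_mul (pr_norm (txg_252_s.snd h1 h2 h3)) (pr_norm (pr_csub (enc_rat _ 2 5) h1)))))) (pr_case (txg_343_s.snd h1 h2 h3) (pr_add (pr_add (pr_csub (enc_rat _ 2725653 10000000) (pr_scale 137939 250000 h1)) (pr_cmul (enc_norm (txg_4.enc h1.l h2.l h3)) (pr_norm (pr_csub (enc_rat _ 295757 1000000) (pr_scale 11509 25000 h1))))) (pr_cmul (enc_norm (enc_subr 3089 12500 (enc_scale 44003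 5000 (txg_4.enc h1.l h2.l h3)))) (pr_norm (pr_mul (pr_norm (txg_322_s.snd h1 h2 h3)) (pr_norm (pr_csub (enc_rat _ 9 20) h1)))))) (pr_add (pr_add (pr_csub (enc_rat _ 242751 1000000) (pr_scale 242751 500000 h1)) (pr_cmul (enc_norm (txg_4.enc h1.l h2.l h3)) (pr_norm (pr_csub (enc_rat _ 17719 20000) (pr_scale 17719 10000 h1))))) (pr_cmul (enc_norm (enc_subr 26949 25000 (enc_scale 1743 100 (txg_4.enc h1.l h2.l h3)))) (pr_norm (pr_mul (pr_norm (txg_343_s.snd h1 h2 h3)) (pr_norm (pr_csub (enc_rat _ 1 2) h1)))))))))))⟩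
noncomputable def l0q0_s : Sl2 l0q0 := ⟨_, fun h1 h2 => (pr_norm (txg_s.snd (pr_norm (pr_sub (pr_scale 3 4 h1) (pr_half (c1g_s.snd h1)))) (pr_nd (c1g_s.snd h1)) h2))⟩
noncomputable def kc0q0_8_s : Sl2 kc0q0_8 := ⟨_, fun h1 h2 => (pr_sub (pr_scale 3 4 h1) (pr_half (c1g_s.snd h1)))⟩
noncomputable def kc0q0_s : Sl2 kc0q0 := ⟨_, fun h1 h2 => (pr_norm (pr_case (pr_addc (kc0q0_8_s.snd h1 h2) (enc_rat _ 167 1000)) (pr_case (pr_addc (kc0q0_8_s.snd h1 h2) (enc_rat _ 333 1000)) (pr_add (pr_addc (pr_scale 9373 1670 (kc0q0_8_s.snd h1 h2)) (enc_rat _ 9373 3340)) (pr_cmul (enc_norm (kc0q0_3.enc h1.l h2)) (pr_norm (pr_subr 2277 334 (pr_neg (pr_scale 2277 167 (kc0q0_8_s.snd h1 h2))))))) (pr_add (pr_addc (pr_scale 9317 1660 (kc0q0_8_s.snd h1 h2)) (enc_rat _ 4658479 1660000)) (pr_cmul (enc_norm (kc0q0_3.enc h1.l h2)) (pr_norm (pr_subr 22787037 83000 (pr_neg (pr_scale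 67862 83 (kc0q0_8_s.snd h1 h2)))))))) (pr_case (kc0q0_8_s.snd h1 h2) (pr_add (pr_csub (enc_rat _ 8713 5000) (pr_scale 632 835 (kc0q0_8_s.snd h1 h2))) (pr_cmul (enc_norm (kc0q0_3.enc h1.l h2)) (pr_norm (pr_addc (pr_scale 142817 167 (kc0q0_8_s.snd h1 h2)) (enc_rat _ 602 125))))) (pr_add (pr_csub (enc_rat _ 8713 5000) (pr_scale 684501849223 905000000000 (kc0q0_8_s.snd h1 h2))) (pr_cmul (enc_norm (kc0q0_3.enc h1.l h2)) (pr_norm (pr_csub (enc_rat _ 602 125) (pr_scale 17165301486289 452500000000 (kc0q0_8_s.snd h1 h2)))))))))⟩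
noncomputable def kf0q1_10_s : Sl2 kf0q1_10 := ⟨_, fun h1 h2 => (pr_scale 3 2 h1)⟩
noncomputable def kf0q1_s : Sl2 kf0q1 := ⟨_, fun h1 h2 => (pr_norm (pr_add (pr_mul (pr_norm (pr_mul (pr_norm (pr_cadd (enc_pnc _ 1) (pr_nat 2 (c1g_s.snd h1)))) (pr_norm (pr_sub (kf0q1_10_s.snd h1 h2) (c1g_s.snd h1))))) (pr_nd (pr_inv (pr_nat 2 (pr_sub (pr_cadd (enc_pnc _ 1) (kf0q1_10_s.snd h1 h2)) (c1g_s.snd h1)))))) (pr_mul (pr_norm (pr_subn 1 h1)) (kcg_s.snd (pr_norm (pr_sub (pr_scale 3 4 h1) (pr_half (c1g_s.snd h1)))) h2))))⟩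
noncomputable def l0q1_s : Sl2 l0q1 := ⟨_, fun h1 h2 => (pr_norm (txg_s.snd (pr_norm (pr_sub (pr_scale 3 4 h1) (pr_half (c1g_s.snd h1)))) (pr_nd (c1g_s.snd h1)) h2))⟩
noncomputable def gsg_s : Sl1 gsg := ⟨_, fun h1 => (pr_sqrt (pr_csub (enc_pnc _ 1) (pr_scale 3 4 (pr_sq h1))))⟩
noncomputable def gug_s : Sl1 gug := ⟨_, fun h1 => (pr_norm (pr_add (pr_scale 3 4 h1) (pr_scale 3 2 (pr_csub (enc_pnc _ 1) (gsg_s.snd h1)))))⟩
noncomputable def kc0q1_9_s : Sl2 kc0q1_9 := ⟨_, fun h1 h2 => (pr_sub (pr_scale 3 4 h1) (pr_half (c1g_s.snd h1)))⟩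
noncomputable def kc0q1_s : Sl2 kc0q1 := ⟨_, fun h1 h2 => (pr_norm (pr_case (pr_subr 181 1406 (kc0q1_9_s.snd h1 h2)) (pr_case (pr_addc (kc0q1_9_s.snd h1 h2) (enc_rat _ 167 1000)) (pr_case (pr_addc (kc0q1_9_s.snd h1 h2) (enc_rat _ 333 1000)) (pr_add (pr_addc (pr_scale 9373 1670 (kc0q1_9_s.snd h1 h2)) (enc_rat _ 9373 3340)) (pr_cmul (enc_norm (kc0q1_3.enc h1.l h2)) (pr_norm (pr_subr 2277 334 (pr_neg (pr_scale 2277 167 (kc0q1_9_s.snd h1 h2))))))) (pr_add (pr_addc (pr_scale 9317 1660 (kc0q1_9_s.snd h1 h2)) (enc_rat _ 4658479 1660000)) (pr_cmul (enc_norm (kc0q1_3.enc h1.l h2)) (pr_norm (pr_subr 22787037 83000 (pr_neg (pr_scale 67862 83 (kc0q1_9_s.snd h1 h2)))))))) (pr_case (kc0q1_9_s.snd h1 h2) (pr_add (pr_csub (enc_rat _ 8713 5000) (pr_scale 632 835 (kc0q1_9_s.snd h1 h2))) (pr_cmul (enc_norm (kc0q1_3.enc h1.l h2)) (pr_norm (pr_addc (pr_scale 142817 167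 (kc0q1_9_s.snd h1 h2)) (enc_rat _ 602 125))))) (pr_add (pr_csub (enc_rat _ 8713 5000) (pr_scale 684501849223 905000000000 (kc0q1_9_s.snd h1 h2))) (pr_cmul (enc_norm (kc0q1_3.enc h1.l h2)) (pr_norm (pr_csub (enc_rat _ 602 125) (pr_scale 17165301486289 452500000000 (kc0q1_9_s.snd h1 h2)))))))) (pr_case (pr_subr 71 313 (kc0q1_9_s.snd h1 h2)) (pr_sub (pr_add (pr_cadd (enc_rat _ 3 4) (pr_scale 3 2 h1)) (pr_scale 3 4 (pr_mul (pr_norm (pr_mul h1 (pr_nd (pr_inv (c1g_s.snd h1))))) (gug_s.snd h1)))) (pr_mul (kcg_s.snd (pr_norm (kc0q1_9_s.snd h1 h2)) h2) (pr_norm (pr_add (gug_s.snd h1) (pr_nat 2 (c1g_s.snd h1)))))) (pr_case (pr_subr 333 1000 (kc0q1_9_s.snd h1 h2)) (pr_add (pr_csub (enc_rat _ 1445169960751919 332290000000000) (pr_scale 3931621987243 332290000000 (kc0q1_9_s.snd h1 h2))) (pr_cmul (enc_norm (kc0q1_3.enc h1.l h2)) (pr_norm (pr_subr 4519329935136763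 83072500000000 (pr_scale 19304062800711 83072500000 (kc0q1_9_s.snd h1 h2)))))) (pr_add (pr_csub (enc_rat _ 4091 3340) (pr_scale 4091 1670 (kc0q1_9_s.snd h1 h2))) (pr_cmul (enc_norm (kc0q1_3.enc h1.l h2)) (pr_norm (pr_csub (enc_rat _ 22979 334) (pr_scale 22979 167 (kc0q1_9_s.snd h1 h2))))))))))⟩
noncomputable def yag_s : Sl1 yag := ⟨_, fun h1 => (pr_sqrt (pr_scale 4 3 (pr_csub (enc_pnc _ 1) (pr_sq h1))))⟩
noncomputable def kfc02_s : Sl2 kfc02 := ⟨_, fun h1 h2 => (pr_norm (pr_add h1 (pr_mul (pr_norm (pr_subn 1 (yag_s.snd h1))) (kcg_s.snd (pr_nd (pr_neg h1)) h2))))⟩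
noncomputable def lc02_7_s : Sl2 lc02_7 := ⟨_, fun h1 h2 => (pr_scale 3 4 (yag_s.snd h1))⟩
noncomputable def lc02_8_s : Sl2 lc02_8 := ⟨_, fun h1 h2 => (pr_half h1)⟩
noncomputable def lc02_s : Sl2 lc02 := ⟨_, fun h1 h2 => (pr_norm (pr_sub (txg_s.snd (pr_nd (pr_neg h1)) (pr_norm (pr_add (lc02_7_s.snd h1 h2) (lc02_8_s.snd h1 h2))) h2) (txg_s.snd h1 (pr_norm (pr_sub (lc02_7_s.snd h1 h2) (lc02_8_s.snd h1 h2))) h2)))⟩
noncomputable def kcc02_s : Sl2 kcc02 := ⟨_, fun h1 h2 => (pr_const (enc_pnc _ 0))⟩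
noncomputable def swg_s : Sl1 swg := ⟨_, fun h1 => (pr_sqrt (pr_csub (enc_pnc _ 1) (pr_scale 3 4 (pr_sq (pr_norm (pr_subn 1 h1))))))⟩
noncomputable def cv1m_s : Sl1 cv1m := ⟨_, fun h1 => (pr_norm (pr_add (pr_scale 4 5 (c1g_s.snd h1)) (pr_scale 1 5 (pr_addc (swg_s.snd h1) (enc_rat _ 1 2)))))⟩
noncomputable def bf1q0_s : Sl2 bf1q0 := ⟨_, fun h1 h2 => (pr_norm (pr_case (pr_subr 159 1000 h1) (pr_case (pr_subr 53 500 h1) (pr_sub (pr_csub (enc_pnc _ 1) (pr_scale 315 212 h1)) (pr_cmul (enc_norm (bf1q0_3.enc h1.l h2)) (pr_nd (pr_scale 108 53 h1)))) (pr_add (pr_csub (enc_rat _ 10137 10000) (pr_scale 428 265 h1)) (pr_cmul (enc_norm (bf1q0_3.enc h1.l h2)) (pr_norm (pr_subr 29 500 (pr_neg (pr_scale 79 53 h1))))))) (pr_case (pr_subr 149 500 h1) (pr_add (pr_csub (enc_rat _ 74793 69500) (pr_scale 2791 1390 h1)) (pr_cmul (enc_norm (bf1q0_3.enc h1.l h2)) (pr_norm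 (pr_subr 24557 69500 (pr_scale 51 139 h1))))) (pr_add (pr_csub (enc_rat _ 273891 252500) (pr_scale 2057 1010 h1)) (pr_cmul (enc_norm (bf1q0_3.enc h1.l h2)) (pr_norm (pr_subr 80817 101000 (pr_scale 377 202 h1))))))))⟩
noncomputable def kf1q0_s : Sl2 kf1q0 := ⟨_, fun h1 h2 => (pr_norm (pr_mul (cv1m_s.snd h1) (bf1q0_s.snd h1 h2)))⟩
noncomputable def bx1q0_s : Sl2 bx1q0 := ⟨_, fun h1 h2 => (pr_norm (pr_case (pr_subr 1 16 h1) (pr_add (pr_scale 31 125 h1) (pr_cmul (enc_norm (bx1q0_3.enc h1.l h2)) (pr_nd (pr_scale 104 125 h1)))) (pr_case (pr_subr 159 1000 h1) (pr_add (pr_addc (pr_scale 239 965 h1) (enc_rat _ 1 48250)) (pr_cmul (enc_norm (bx1q0_3.enc h1.l h2)) (pr_norm (pr_addc (pr_scale 24 193 h1) (enc_rat _ 1067 24125))))) (pr_add (pr_addc (pr_scale 593 3410 h1) (enc_rat _ 40067 3410000)) (pr_cmul (enc_norm (bx1q0_3.enc h1.l h2)) (pr_norm (pr_addc (pr_scale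 40 341 h1) (enc_rat _ 1933 42625))))))))⟩
noncomputable def l1q0_s : Sl2 l1q0 := ⟨_, fun h1 h2 => (pr_norm (pr_mul (cv1m_s.snd h1) (bx1q0_s.snd h1 h2)))⟩
noncomputable def bd1q0_s : Sl2 bd1q0 := ⟨_, fun h1 h2 => (pr_norm (pr_case (pr_subr 53 250 h1) (pr_sub (pr_scale 103 530 h1) (pr_cmul (enc_norm (bd1q0_3.enc h1.l h2)) (pr_nd (pr_scale 1217 212 h1)))) (pr_add (pr_subr 56377 120000 (pr_scale 1157 480 h1)) (pr_cmul (enc_norm (bd1q0_3.enc h1.l h2)) (pr_norm (pr_csub (enc_rat _ 94417 12000) (pr_scale 2057 48 h1)))))))⟩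
noncomputable def kc1q0_s : Sl2 kc1q0 := ⟨_, fun h1 h2 => (pr_norm (pr_mul (cv1m_s.snd h1) (bd1q0_s.snd h1 h2)))⟩
noncomputable def bf1q1_s : Sl2 bf1q1 := ⟨_, fun h1 h2 => (pr_norm (pr_add (pr_subr 2009 2500 (pr_scale 8269 5000 h1)) (pr_cmul (enc_norm (enc_subr 148977 200000 h2)) (pr_norm (pr_subr 111 125 (pr_scale 151 125 h1))))))⟩
noncomputable def kf1q1_s : Sl2 kf1q1 := ⟨_, fun h1 h2 => (pr_norm (pr_mul (cv1m_s.snd h1) (bf1q1_s.snd h1 h2)))⟩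
noncomputable def bx1q1_11_s : Sl2 bx1q1_11 := ⟨_, fun h1 h2 => (pr_scale 7 55 h1)⟩
noncomputable def bx1q1_s : Sl2 bx1q1 := ⟨_, fun h1 h2 => (pr_norm (pr_case (pr_subr 609 1000 h1) (pr_case (pr_subr 111 200 h1) (pr_add (pr_addc (pr_scale 19 110 h1) (enc_rat _ 1357 110000)) (pr_cmul (enc_norm (bx1q1_3.enc h1.l h2)) (pr_norm (pr_addc (bx1q1_11_s.snd h1 h2) (enc_rat _ 111 2750))))) (pr_add (pr_addc (pr_scale 47 270 h1) (enc_rat _ 1043 90000)) (pr_cmul (enc_norm (bx1q1_3.enc h1.l h2)) (pr_norm (pr_addc (pr_scale 1 9 h1) (enc_rat _ 37 750)))))) (pr_case (pr_subr 83 125 h1) (pr_add (pr_addc (pr_scale 29 550 h1) (enc_rat _ 47019 550000)) (pr_cmul (enc_norm (bx1q1_3.enc h1.l h2)) (pr_norm (pr_addc (bx1q1_11_s.snd h1 h2) (enc_rat _ 543 13750))))) (pr_add (pr_addc (pr_scale 59 1120 h1) (enc_rat _ 11973 140000)) (pr_cmul (enc_norm (bx1q1_3.enc h1.l h2)) (pr_norm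 (pr_csub (enc_rat _ 26041 42000) (pr_scale 251 336 h1))))))))⟩
noncomputable def l1q1_s : Sl2 l1q1 := ⟨_, fun h1 h2 => (pr_norm (pr_mul (cv1m_s.snd h1) (bx1q1_s.snd h1 h2)))⟩
noncomputable def bd1q1_s : Sl2 bd1q1 := ⟨_, fun h1 h2 => (pr_norm (pr_add (pr_subr 10473 10000 (pr_scale 17827 5000 h1)) (pr_cmul (enc_norm (enc_subr 148977 200000 h2)) (pr_norm (pr_subr 17883 500 (pr_scale 22207 500 h1))))))⟩
noncomputable def kc1q1_s : Sl2 kc1q1 := ⟨_, fun h1 h2 => (pr_norm (pr_mul (cv1m_s.snd h1) (bd1q1_s.snd h1 h2)))⟩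
noncomputable def cv1p_s : Sl1 cv1p := ⟨_, fun h1 => (pr_norm (pr_add (pr_scale 4 5 (c1g_s.snd h1)) (pr_scale 1 5 (pr_subr 1 2 (swg_s.snd h1)))))⟩
noncomputable def bf1q2_s : Sl2 bf1q2 := ⟨_, fun h1 h2 => (pr_norm (pr_case (pr_subr 277 250 h1) (pr_case (pr_subr 17 16 h1) (pr_add (pr_csub (enc_rat _ 1421 625) (pr_scale 796 625 h1)) (pr_cmul (enc_norm (bf1q2_3.enc h1.l h2)) (pr_norm (pr_csub (enc_rat _ 524 125) (pr_scale 524 125 h1))))) (pr_add (pr_csub (enc_rat _ 521277 130000) (pr_scale 189 65 h1)) (pr_cmul (enc_norm (bf1q2_3.enc h1.l h2)) (pr_norm (pr_csub (enc_rat _ 382033 91000) (pr_scale 382 91 h1)))))) (pr_case (pr_subr 577 500 h1) (pr_add (pr_csub (enc_rat _ 295745079 57500000) (pr_scale 904077 230000 h1)) (pr_cmul (enc_norm (bf1q2_3.enc h1.l h2)) (pr_norm (pr_subr 27395399 1437500 (pr_scale 193099 11500 h1))))) (pr_case (pr_subr 231 200 h1)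 (pr_add (pr_csub (enc_rat _ 35501 10000) (pr_scale 25501 10000 h1)) (pr_cmul (enc_norm (bf1q2_3.enc h1.l h2)) (pr_norm (pr_subr 1037 500 (pr_scale 1037 500 h1))))) (pr_add (pr_csub (enc_rat _ 87581 18400) (pr_scale 827423 230000 h1)) (pr_cmul (enc_norm (bf1q2_3.enc h1.l h2)) (pr_norm (pr_subr 1512473 23000 (pr_scale 657951 11500 h1)))))))))⟩
noncomputable def kf1q2_s : Sl2 kf1q2 := ⟨_, fun h1 h2 => (pr_norm (pr_mul (cv1p_s.snd h1) (bf1q2_s.snd h1 h2)))⟩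
noncomputable def bx1q2_s : Sl2 bx1q2 := ⟨_, fun h1 h2 => (pr_norm (pr_case (pr_subr 577 500 h1) (pr_case (pr_subr 17 16 h1) (pr_add (pr_csub (enc_rat _ 507 625) (pr_scale 507 625 h1)) (pr_cmul (enc_norm (bx1q2_3.enc h1.l h2)) (pr_norm (pr_csub (enc_rat _ 276 125) (pr_scale 276 125 h1))))) (pr_case (pr_subr 277 250 h1) (pr_add (pr_csub (enc_rat _ 2406113 910000) (pr_scale 1154 455 h1)) (pr_cmul (enc_norm (bx1q2_3.enc h1.l h2)) (pr_norm (pr_subr 53029 45500 (pr_scale 88 91 h1))))) (pr_add (pr_csub (enc_rat _ 263577 115000) (pr_scale 2041 920 h1)) (pr_cmul (enc_norm (bx1q2_3.enc h1.l h2)) (pr_norm (pr_subr 1224687 1150000 (pr_scale 4031 4600 h1))))))) (pr_casec1 (pr_subr 231 200 h1) (enc_sub (enc_neg (enc_rat _ 5363 20000)) (enc_scale 5369 100000 (bx1q2_3.enc h1.l h2))) (pr_case (pr_subr 1213 1000 h1) (pr_add (pr_subr 2294189 1160000 (pr_scale 1717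 1160 h1)) (pr_cmul (enc_norm (bx1q2_3.enc h1.l h2)) (pr_norm (pr_subr 391097 5800000 (pr_scale 69 5800 h1))))) (pr_add (pr_subr 405517 205000 (pr_scale 607 410 h1)) (pr_cmul (enc_norm (bx1q2_3.enc h1.l h2)) (pr_norm (pr_subr 63207 57400 (pr_scale 248 287 h1)))))))))⟩
noncomputable def l1q2_s : Sl2 l1q2 := ⟨_, fun h1 h2 => (pr_norm (pr_mul (cv1p_s.snd h1) (bx1q2_s.snd h1 h2)))⟩
noncomputable def bd1q2_s : Sl2 bd1q2 := ⟨_, fun h1 h2 => (pr_norm (pr_casec1 (pr_subr 577 500 h1) (enc_pnc _ 0) (pr_casec1 (pr_subr 231 200 h1) (enc_pnc _ 0) (pr_add (pr_subr 2758371 230000 (pr_scale 11941 1150 h1)) (pr_cmul (enc_norm (enc_subr 148977 200000 h2)) (pr_norm (pr_csub (enc_rat _ 11473 11500) (pr_scale 298 345 h1))))))))⟩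
noncomputable def kc1q2_s : Sl2 kc1q2 := ⟨_, fun h1 h2 => (pr_norm (pr_mul (cv1p_s.snd h1) (bd1q2_s.snd h1 h2)))⟩
noncomputable def cv1r_s : Sl1 cv1r := ⟨_, fun h1 => (pr_norm (pr_scale 1 5 (pr_subr 1 2 (swg_s.snd h1))))⟩
noncomputable def c3g_s : Sl1 c3g := ⟨_, fun h1 => (pr_sqrtg (pr_csub (enc_pnc _ 3) (pr_scale 3 4 (pr_sq h1))))⟩
noncomputable def kf1q3_s : Sl2 kf1q3 := ⟨_, fun h1 h2 => (pr_norm (pr_mulz (fun ht => cv1r_two (enc_two h1.r ht)) (cv1r_s.snd h1) (pr_norm (pr_case (pr_subr 851 500 h1) (pr_add (pr_subr 1226143 505000 (pr_scale 3009 2020 h1)) (pr_cmul (enc_norm (kf1q3_4.enc h1.l h2)) (pr_norm (pr_subr 658923 5050 (pr_scale 7509 101 h1))))) (pr_case (pr_subr 447 250 h1) (pr_add (pr_subr 1043141 430000 (pr_scale 64 43 h1)) (pr_cmul (enc_norm (kf1q3_4.enc h1.l h2)) (pr_norm (pr_subr 28054 215 (pr_scale 3197 43 h1))))) (pr_add (pr_subr 227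 5000 (pr_scale 280700000 776074739 (c3g_s.snd h1))) (pr_cmul (enc_norm (kf1q3_4.enc h1.l h2)) (pr_norm (pr_subr 2961 100 (pr_scale 32062000000 776074739 (c3g_s.snd h1)))))))))))⟩
noncomputable def l1q3_s : Sl2 l1q3 := ⟨_, fun h1 h2 => (pr_norm (pr_mulz (fun ht => cv1r_two (enc_two h1.r ht)) (cv1r_s.snd h1) (pr_norm (pr_case (pr_subr 851 500 h1) (pr_add (pr_subr 998737 505000 (pr_scale 299 202 h1)) (pr_cmul (enc_norm (l1q3_4.enc h1.l h2)) (pr_norm (pr_subr 22161 20200 (pr_scale 87 101 h1))))) (pr_case (pr_subr 447 250 h1) (pr_add (pr_subr 170087 86000 (pr_scale 1273 860 h1)) (pr_cmul (enc_norm (l1q3_4.enc h1.l h2)) (pr_norm (pr_subr 23979 21500 (pr_scale 75 86 h1))))) (pr_add (pr_csub (enc_rat _ 3631 5000) (pr_scale 57300000 776074739 (c3g_s.snd h1))) (pr_cmul (enc_norm (l1q3_4.enc h1.l h2)) (pr_norm (pr_csub (enc_rat _ 4797 500) (pr_scale 9150000000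 776074739 (c3g_s.snd h1)))))))))))⟩
noncomputable def kc1q3_s : Sl2 kc1q3 := ⟨_, fun h1 h2 => (pr_norm (pr_mulz (fun ht => cv1r_two (enc_two h1.r ht)) (cv1r_s.snd h1) (pr_norm (pr_case (pr_subr 851 500 h1) (pr_add (pr_subr 12113127 1010000 (pr_scale 4195 404 h1)) (pr_cmul (enc_norm (kc1q3_4.enc h1.l h2)) (pr_norm (pr_csub (enc_rat _ 50201 50500) (pr_scale 87 101 h1))))) (pr_case (pr_subr 447 250 h1) (pr_add (pr_subr 1289279 107500 (pr_scale 893 86 h1)) (pr_cmul (enc_norm (kc1q3_4.enc h1.l h2)) (pr_norm (pr_csub (enc_rat _ 43529 43000) (pr_scale 75 86 h1))))) (pr_add (pr_subr 241 250 (pr_scale 7536800000 776074739 (c3g_s.snd h1))) (pr_cmul (enc_norm (kc1q3_4.enc h1.l h2)) (pr_norm (pr_csub (enc_rat _ 21391 250) (pr_scale 86111000000 776074739 (c3g_s.snd h1)))))))))))⟩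
noncomputable def cv2m_s : Sl1 cv2m := ⟨_, fun h1 => (pr_norm (pr_add (pr_half (c1g_s.snd h1)) (pr_half (pr_addc (swg_s.snd h1) (enc_rat _ 1 2)))))⟩
noncomputable def bf2q0_s : Sl2 bf2q0 := ⟨_, fun h1 h2 => (pr_norm (pr_case (pr_subr 159 1000 h1) (pr_sub (pr_csub (enc_pnc _ 1) (pr_scale 1013 530 h1)) (pr_cmul (enc_norm (bf2q0_3.enc h1.l h2)) (pr_nd (pr_scale 340 159 h1)))) (pr_add (pr_csub (enc_rat _ 3608813 3410000) (pr_scale 3884 1705 h1)) (pr_cmul (enc_norm (bf2q0_3.enc h1.l h2)) (pr_norm (pr_subr 97243 170500 (pr_scale 494 341 h1)))))))⟩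
noncomputable def kf2q0_s : Sl2 kf2q0 := ⟨_, fun h1 h2 => (pr_norm (pr_mul (cv2m_s.snd h1) (bf2q0_s.snd h1 h2)))⟩
noncomputable def bx2q0_s : Sl2 bx2q0 := ⟨_, fun h1 h2 => (pr_norm (pr_case (pr_subr 159 1000 h1) (pr_case (pr_subr 1 16 h1) (pr_add (pr_scale 243 625 h1) (pr_cmul (enc_norm (bx2q0_3.enc h1.l h2)) (pr_nd (pr_scale 144 125 h1)))) (pr_add (pr_addc (pr_scale 361 965 h1) (enc_rat _ 887 965000)) (pr_cmul (enc_norm (bx2q0_3.enc h1.l h2)) (pr_norm (pr_addc (pr_scale 18 193 h1) (enc_rat _ 12771 193000)))))) (pr_case (pr_subr 53 250 h1) (pr_add (pr_addc (pr_scale 61 530 h1) (enc_rat _ 421 10000)) (pr_cmul (enc_norm (bx2q0_3.enc h1.l h2)) (pr_norm (pr_csub (enc_rat _ 24 125) (pr_scale 37 53 h1))))) (pr_add (pr_addc (pr_scale 5 96 h1) (enc_rat _ 1331 24000)) (pr_cmul (enc_norm (bx2q0_3.enc h1.l h2)) (pr_norm (pr_addc (pr_scale 7 48 h1) (enc_rat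 _ 157 12000))))))))⟩
noncomputable def l2q0_s : Sl2 l2q0 := ⟨_, fun h1 h2 => (pr_norm (pr_mul (cv2m_s.snd h1) (bx2q0_s.snd h1 h2)))⟩
noncomputable def bd2q0_s : Sl2 bd2q0 := ⟨_, fun h1 h2 => (pr_norm (pr_case (pr_subr 149 500 h1) (pr_sub (pr_cmul (enc_norm (bd2q0_3.enc h1.l h2)) (pr_nd (pr_scale 159 149 h1))) (pr_scale 14233 2980 h1)) (pr_add (pr_subr 546707 202000 (pr_scale 4349 1010 h1)) (pr_cmul (enc_norm (bd2q0_3.enc h1.l h2)) (pr_norm (pr_csub (enc_rat _ 112429 101000) (pr_scale 539 202 h1)))))))⟩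
noncomputable def kc2q0_s : Sl2 kc2q0 := ⟨_, fun h1 h2 => (pr_norm (pr_mul (cv2m_s.snd h1) (bd2q0_s.snd h1 h2)))⟩
noncomputable def bf2q1_s : Sl2 bf2q1 := ⟨_, fun h1 h2 => (pr_norm (pr_add (pr_subr 1097 2500 (pr_scale 6627 5000 h1)) (pr_cmul (enc_norm (enc_subr 148977 200000 h2)) (pr_norm (pr_subr 1899 1000 (pr_scale 1321 500 h1))))))⟩
noncomputable def kf2q1_s : Sl2 kf2q1 := ⟨_, fun h1 h2 => (pr_norm (pr_mul (cv2m_s.snd h1) (bf2q1_s.snd h1 h2)))⟩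
noncomputable def bx2q1_19_s : Sl2 bx2q1_19 := ⟨_, fun h1 h2 => (pr_scale 8 55 h1)⟩
noncomputable def bx2q1_s : Sl2 bx2q1 := ⟨_, fun h1 h2 => (pr_norm (pr_case (pr_subr 719 1000 h1) (pr_case (pr_subr 83 125 h1) (pr_add (pr_addc (pr_scale 17 328 h1) (enc_rat _ 2279 41000)) (pr_cmul (enc_norm (bx2q1_3.enc h1.l h2)) (pr_norm (pr_addc (pr_scale 23 164 h1) (enc_rat _ 651 41000))))) (pr_add (pr_addc (pr_scale 2 55 h1) (enc_rat _ 1811 27500)) (pr_cmul (enc_norm (bx2q1_3.enc h1.l h2)) (pr_norm (pr_addc (bx2q1_19_s.snd h1 h2) (enc_rat _ 683 55000)))))) (pr_case (pr_subr 773 1000 h1) (pr_add (pr_csub (enc_rat _ 126613 540000) (pr_scale 107 540 h1)) (pr_cmul (enc_norm (bx2q1_3.enc h1.l h2)) (pr_norm (pr_addc (pr_scale 4 27 h1) (enc_rat _ 283 27000))))) (pr_case (pr_subr 207 250 h1) (pr_add (pr_csub (enc_rat _ 154481 550000) (pr_scale 71 275 h1)) (pr_cmul (enc_norm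 (bx2q1_3.enc h1.l h2)) (pr_norm (pr_addc (bx2q1_19_s.snd h1 h2) (enc_rat _ 691 55000))))) (pr_add (pr_csub (enc_rat _ 14291 43000) (pr_scale 551 1720 h1)) (pr_cmul (enc_norm (bx2q1_3.enc h1.l h2)) (pr_norm (pr_addc (pr_scale 6 43 h1) (enc_rat _ 751 43000)))))))))⟩
noncomputable def l2q1_s : Sl2 l2q1 := ⟨_, fun h1 h2 => (pr_norm (pr_mul (cv2m_s.snd h1) (bx2q1_s.snd h1 h2)))⟩
noncomputable def bd2q1_s : Sl2 bd2q1 := ⟨_, fun h1 h2 => (pr_norm (pr_add (pr_subr 13533 5000 (pr_scale 21531 5000 h1)) (pr_cmul (enc_norm (enc_subr 148977 200000 h2)) (pr_norm (pr_csub (enc_rat _ 139 125) (pr_scale 1333 500 h1))))))⟩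
noncomputable def kc2q1_s : Sl2 kc2q1 := ⟨_, fun h1 h2 => (pr_norm (pr_mul (cv2m_s.snd h1) (bd2q1_s.snd h1 h2)))⟩
noncomputable def cv2p_s : Sl1 cv2p := ⟨_, fun h1 => (pr_norm (pr_add (pr_half (c1g_s.snd h1)) (pr_half (pr_subr 1 2 (swg_s.snd h1)))))⟩
noncomputable def bf2q2_s : Sl2 bf2q2 := ⟨_, fun h1 h2 => (pr_norm (pr_case (pr_subr 277 250 h1) (pr_case (pr_subr 17 16 h1) (pr_add (pr_csub (enc_rat _ 1402 625) (pr_scale 777 625 h1)) (pr_cmul (enc_norm (bf2q2_3.enc h1.l h2)) (pr_norm (pr_csub (enc_rat _ 1692 125) (pr_scale 1692 125 h1))))) (pr_add (pr_csub (enc_rat _ 4502793 910000) (pr_scale 1724 455 h1)) (pr_cmul (enc_norm (bf2q2_3.enc h1.l h2)) (pr_norm (pr_csub (enc_rat _ 88001 6500) (pr_scale 176 13 h1)))))) (pr_case (pr_subr 231 200 h1) (pr_add (pr_csub (enc_rat _ 2571777 470000) (pr_scale 2003 470 h1)) (pr_cmul (enc_norm (bf2q2_3.enc h1.l h2))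 (pr_norm (pr_subr 1455367 23500 (pr_scale 2565 47 h1))))) (pr_add (pr_csub (enc_rat _ 103239 23000) (pr_scale 1961 575 h1)) (pr_cmul (enc_norm (bf2q2_3.enc h1.l h2)) (pr_norm (pr_subr 356039 5750 (pr_scale 1255 23 h1))))))))⟩
noncomputable def kf2q2_s : Sl2 kf2q2 := ⟨_, fun h1 h2 => (pr_norm (pr_mul (cv2p_s.snd h1) (bf2q2_s.snd h1 h2)))⟩
noncomputable def bx2q2_s : Sl2 bx2q2 := ⟨_, fun h1 h2 => (pr_norm (pr_case (pr_subr 277 250 h1) (pr_case (pr_subr 17 16 h1) (pr_add (pr_csub (enc_rat _ 62 125) (pr_scale 62 125 h1)) (pr_cmul (enc_norm (bx2q2_3.enc h1.l h2)) (pr_norm (pr_csub (enc_rat _ 566 125) (pr_scale 566 125 h1))))) (pr_add (pr_csub (enc_rat _ 28127 45500) (pr_scale 278 455 h1)) (pr_cmul (enc_norm (bx2q2_3.enc h1.l h2)) (pr_norm (pr_csub (enc_rat _ 207061 45500) (pr_scale 414 91 h1)))))) (pr_case (pr_subr 231 200 h1) (pr_add (pr_csub (enc_rat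 _ 200833 58750) (pr_scale 295 94 h1)) (pr_cmul (enc_norm (bx2q2_3.enc h1.l h2)) (pr_norm (pr_subr 256937 23500 (pr_scale 443 47 h1))))) (pr_case (pr_subr 166 125 h1) (pr_add (pr_subr 3052669 1730000 (pr_scale 1167 865 h1)) (pr_cmul (enc_norm (bx2q2_3.enc h1.l h2)) (pr_norm (pr_csub (enc_rat _ 1285469 173000) (pr_scale 1120 173 h1))))) (pr_add (pr_subr 758587 430000 (pr_scale 58 43 h1)) (pr_cmul (enc_norm (bx2q2_3.enc h1.l h2)) (pr_norm (pr_subr 773941 43000 (pr_scale 545 43 h1)))))))))⟩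
noncomputable def l2q2_s : Sl2 l2q2 := ⟨_, fun h1 h2 => (pr_norm (pr_mul (cv2p_s.snd h1) (bx2q2_s.snd h1 h2)))⟩
noncomputable def bd2q2_s : Sl2 bd2q2 := ⟨_, fun h1 h2 => (pr_norm (pr_case (pr_subr 231 200 h1) (pr_add (pr_subr 239 1550 (pr_scale 239 1550 h1)) (pr_cmul (enc_norm (bd2q2_3.enc h1.l h2)) (pr_norm (pr_subr 1 31 (pr_scale 1 31 h1))))) (pr_add (pr_subr 136019 11500 (pr_scale 35401 3450 h1)) (pr_cmul (enc_norm (bd2q2_3.enc h1.l h2)) (pr_norm (pr_subr 501 23000 (pr_scale 8 345 h1)))))))⟩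
noncomputable def kc2q2_s : Sl2 kc2q2 := ⟨_, fun h1 h2 => (pr_norm (pr_mul (cv2p_s.snd h1) (bd2q2_s.snd h1 h2)))⟩
noncomputable def cv2r_s : Sl1 cv2r := ⟨_, fun h1 => (pr_norm (pr_half (pr_subr 1 2 (swg_s.snd h1))))⟩
noncomputable def kf2q3_s : Sl2 kf2q3 := ⟨_, fun h1 h2 => (pr_norm (pr_mulz (fun ht => cv2r_two (enc_two h1.r ht)) (cv2r_s.snd h1) (pr_norm (pr_case (pr_subr 851 500 h1) (pr_add (pr_subr 1226143 505000 (pr_scale 3009 2020 h1)) (pr_cmul (enc_norm (kf2q3_4.enc h1.l h2)) (pr_norm (pr_subr 658923 5050 (pr_scale 7509 101 h1))))) (pr_case (pr_subr 447 250 h1) (pr_add (pr_subr 1043141 430000 (pr_scale 64 43 h1)) (pr_cmul (enc_norm (kf2q3_4.enc h1.l h2)) (pr_norm (pr_subr 28054 215 (pr_scale 3197 43 h1))))) (pr_add (pr_subr 227 5000 (pr_scale 280700000 776074739 (c3g_s.snd h1))) (pr_cmul (enc_norm (kf2q3_4.enc h1.l h2)) (pr_norm (pr_subr 29609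 1000 (pr_scale 32061000000 776074739 (c3g_s.snd h1)))))))))))⟩
noncomputable def l2q3_s : Sl2 l2q3 := ⟨_, fun h1 h2 => (pr_norm (pr_mulz (fun ht => cv2r_two (enc_two h1.r ht)) (cv2r_s.snd h1) (pr_norm (pr_case (pr_subr 851 500 h1) (pr_add (pr_subr 1814309 1010000 (pr_scale 692 505 h1)) (pr_cmul (enc_norm (l2q3_4.enc h1.l h2)) (pr_norm (pr_csub (enc_rat _ 467563 101000) (pr_scale 487 202 h1))))) (pr_case (pr_subr 447 250 h1) (pr_add (pr_subr 193223 107500 (pr_scale 1179 860 h1)) (pr_cmul (enc_norm (l2q3_4.enc h1.l h2)) (pr_norm (pr_csub (enc_rat _ 7951 1720) (pr_scale 207 86 h1))))) (pr_add (pr_csub (enc_rat _ 7411 10000) (pr_scale 87300000 776074739 (c3g_s.snd h1))) (pr_cmul (enc_norm (l2q3_4.enc h1.l h2)) (pr_norm (pr_csub (enc_rat _ 2429 250) (pr_scale 9397000000 776074739 (c3g_s.snd h1)))))))))))⟩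
noncomputable def kc2q3_s : Sl2 kc2q3 := ⟨_, fun h1 h2 => (pr_norm (pr_mulz (fun ht => cv2r_two (enc_two h1.r ht)) (cv2r_s.snd h1) (pr_norm (pr_case (pr_subr 851 500 h1) (pr_add (pr_subr 615843 50500 (pr_scale 10611 1010 h1)) (pr_cmul (enc_norm (kc2q3_4.enc h1.l h2)) (pr_norm (pr_csub (enc_rat _ 1065563 101000) (pr_scale 1419 202 h1))))) (pr_case (pr_subr 447 250 h1) (pr_add (pr_subr 5243719 430000 (pr_scale 1807 172 h1)) (pr_cmul (enc_norm (kc2q3_4.enc h1.l h2)) (pr_norm (pr_csub (enc_rat _ 454397 43000) (pr_scale 605 86 h1))))) (pr_add (pr_subr 5291 5000 (pr_scale 7647900000 776074739 (c3g_s.snd h1))) (pr_cmul (enc_norm (kc2q3_4.enc h1.l h2)) (pr_norm (pr_csub (enc_rat _ 9373 100) (pr_scale 95741000000 776074739 (c3g_s.snd h1)))))))))))⟩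
noncomputable def cv3m_s : Sl1 cv3m := ⟨_, fun h1 => (pr_norm (pr_add (pr_scale 4 5 (pr_addc (swg_s.snd h1) (enc_rat _ 1 2))) (pr_scale 1 5 (c3g_s.snd h1))))⟩
noncomputable def esg_s : Sl1 esg := ⟨_, fun h1 => (pr_norm (pr_subn 1 (pr_add (pr_half h1) (gsg_s.snd h1))))⟩
noncomputable def kf3q0_42_s : Sl2 kf3q0_42 := ⟨_, fun h1 h2 => (pr_csub (enc_pnc _ 1) h1)⟩
noncomputable def kf3q0_43_s : Sl2 kf3q0_43 := ⟨_, fun h1 h2 => (gsg_s.snd (pr_norm (kf3q0_42_s.snd h1 h2)))⟩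
noncomputable def kf3q0_46_s : Sl2 kf3q0_46 := ⟨_, fun h1 h2 => (pr_sub (pr_scale 3 4 (kf3q0_42_s.snd h1 h2)) (pr_half (kf3q0_43_s.snd h1 h2)))⟩
noncomputable def kf3q0_64_s : Sl2 kf3q0_64 := ⟨_, fun h1 h2 => (pr_mul (cv2m_s.snd h1) (bf2q0_s.snd h1 h2))⟩
noncomputable def kf3q0_s : Sl2 kf3q0 := ⟨_, fun h1 h2 => (pr_norm (pr_case (pr_subr 53 250 h1) (pr_mul (cv3m_s.snd h1) (pr_norm (pr_case (pr_subr 159 1000 h1) (pr_add (pr_csub (enc_rat _ 863 1000) (pr_scale 3739 1590 h1)) (pr_cmul (enc_norm (kf3q0_4.enc h1.l h2)) (pr_norm (pr_subr 339 1000 (pr_scale 7 159 h1))))) (pr_add (pr_csub (enc_rat _ 2157384001 2500000000) (pr_scale 311544667 132500000 h1)) (pr_cmul (enc_norm (kf3q0_4.enc h1.l h2)) (pr_norm (pr_subr 1266584471 1000000000 (pr_scale 311528157 53000000 h1)))))))) (pr_case (pr_subr 149 500 h1) (pr_add (kf3q0_64_s.snd h1 h2) (pr_mul (pr_norm (pr_mul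 (pr_norm (pr_sub (pr_mul h1 (pr_norm (pr_sub (pr_mul (pr_norm (pr_sub (kf3q0_46_s.snd h1 h2) (pr_csub (enc_rat _ 1 4) (pr_scale 3 8 (pr_mul (pr_norm (kf3q0_42_s.snd h1 h2)) (pr_nd (pr_inv (kf3q0_43_s.snd h1 h2)))))))) (pr_nd (pr_inv (esg_s.snd (pr_norm (kf3q0_42_s.snd h1 h2)))))) (kcg_s.snd (pr_norm (kf3q0_46_s.snd h1 h2)) h2)))) (kf3q0_64_s.snd h1 h2))) (pr_norm (pr_sub (cv3m_s.snd h1) (cv2m_s.snd h1))))) (pr_nd (pr_inv (pr_sub (pr_addc (swg_s.snd h1) (enc_rat _ 1 2)) (cv2m_s.snd h1)))))) (pr_mul (cv3m_s.snd h1) (pr_norm (pr_add (pr_csub (enc_rat _ 4368974261 4040000000) (pr_scale 5833878261 2020000000 h1)) (pr_cmul (enc_norm (kf3q0_4.enc h1.l h2)) (pr_norm (pr_subr 14402379 101000000 (pr_scale 32178379 50500000 h1))))))))))⟩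
noncomputable def qsg_s : Sl1 qsg := ⟨_, fun h1 => (pr_norm (pr_mul (pr_norm (pr_csub (enc_pnc _ 1) (gsg_s.snd h1))) (pr_norm (pr_subn 1 (pr_nat 2 (gsg_s.snd h1))))))⟩
noncomputable def l3q0_78_s : Sl2 l3q0_78 := ⟨_, fun h1 h2 => (pr_csub (enc_pnc _ 1) h1)⟩
noncomputable def l3q0_93_s : Sl2 l3q0_93 := ⟨_, fun h1 h2 => (pr_mul (cv2m_s.snd h1) (bx2q0_s.snd h1 h2))⟩
noncomputable def l3q0_s : Sl2 l3q0 := ⟨_, fun h1 h2 => (pr_norm (pr_case (pr_subr 53 250 h1) (pr_mul (cv3m_s.snd h1) (pr_norm (pr_case (pr_subr 53 500 h1) (pr_add (pr_addc (pr_scale 31 106 h1) (enc_rat _ 159 2000)) (pr_cmul (enc_norm (l3q0_4.enc h1.l h2)) (pr_norm (pr_csub (enc_rat _ 191 1000) (pr_scale 49 106 h1))))) (pr_case (pr_subr 159 1000 h1) (pr_add (pr_addc (pr_scale 28 265 h1) (enc_rat _ 993 10000)) (pr_cmul (enc_norm (l3q0_4.enc h1.l h2)) (pr_norm (pr_csub (enc_rat _ 24 125) (pr_scale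 25 53 h1))))) (pr_add (pr_add (pr_addc (pr_scale 12645543 530000000 h1) (enc_rat _ 1123063371 10000000000)) (pr_cmul (enc_norm (l3q0_4.enc h1.l h2)) (pr_norm (pr_csub (enc_rat _ 5745807 40000000) (pr_scale 355269 2120000 h1))))) (pr_cmul (l3q0_40.enc h1.l h2) (pr_norm (pr_subr 343431 500000 (pr_scale 114477 26500 h1))))))))) (pr_case (pr_subr 149 500 h1) (pr_add (l3q0_93_s.snd h1 h2) (pr_mul (pr_norm (pr_mul (pr_norm (pr_sub (pr_sub (qsg_s.snd (pr_norm (l3q0_78_s.snd h1 h2))) (pr_mul (pr_norm (pr_nat 2 (pr_subc (l3q0_78_s.snd h1 h2) h2))) (pr_norm (pr_mul (esg_s.snd (pr_norm (l3q0_78_s.snd h1 h2))) (kcg_s.snd (pr_norm (pr_sub (pr_scale 3 4 (l3q0_78_s.snd h1 h2)) (pr_half (gsg_s.snd (pr_norm (l3q0_78_s.snd h1 h2)))))) h2))))) (l3q0_93_s.snd h1 h2))) (pr_norm (pr_sub (cv3m_s.snd h1) (cv2m_s.snd h1))))) (pr_nd (pr_inv (pr_sub (pr_addc (swg_s.snd h1)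 (enc_rat _ 1 2)) (cv2m_s.snd h1)))))) (pr_mul (cv3m_s.snd h1) (pr_norm (pr_case (pr_subr 181 500 h1) (pr_add (pr_add (pr_csub (enc_rat _ 39939004469 320000000000) (pr_scale 38027649 640000000 h1)) (pr_cmul (enc_norm (l3q0_4.enc h1.l h2)) (pr_norm (pr_csub (enc_rat _ 2152529741 6400000000) (pr_scale 11432761 12800000 h1))))) (pr_cmul (l3q0_40.enc h1.l h2) (pr_norm (pr_csub (enc_rat _ 475849 8000000) (pr_scale 2629 16000 h1))))) (pr_add (pr_csub (enc_rat _ 14323 115000) (pr_scale 27 460 h1)) (pr_cmul (enc_norm (l3q0_4.enc h1.l h2)) (pr_norm (pr_subr 6701 34500 (pr_scale 79 138 h1)))))))))))⟩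
noncomputable def kc3q0_29_s : Sl2 kc3q0_29 := ⟨_, fun h1 h2 => (pr_csub (enc_pnc _ 1) h1)⟩
noncomputable def kc3q0_30_s : Sl2 kc3q0_30 := ⟨_, fun h1 h2 => (gsg_s.snd (pr_norm (kc3q0_29_s.snd h1 h2)))⟩
noncomputable def kc3q0_34_s : Sl2 kc3q0_34 := ⟨_, fun h1 h2 => (esg_s.snd (pr_norm (kc3q0_29_s.snd h1 h2)))⟩
noncomputable def kc3q0_38_s : Sl2 kc3q0_38 := ⟨_, fun h1 h2 => (gug_s.snd (pr_norm (kc3q0_29_s.snd h1 h2)))⟩
noncomputable def kc3q0_40_s : Sl2 kc3q0_40 := ⟨_, fun h1 h2 => (pr_mul (pr_norm (kc3q0_29_s.snd h1 h2)) (pr_nd (pr_inv (kc3q0_30_s.snd h1 h2))))⟩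
noncomputable def kc3q0_41_s : Sl2 kc3q0_41 := ⟨_, fun h1 h2 => (pr_scale 3 4 (kc3q0_40_s.snd h1 h2))⟩
noncomputable def kc3q0_70_s : Sl2 kc3q0_70 := ⟨_, fun h1 h2 => (pr_mul (cv2m_s.snd h1) (bd2q0_s.snd h1 h2))⟩
noncomputable def kc3q0_s : Sl2 kc3q0 := ⟨_, fun h1 h2 => (pr_norm (pr_case (pr_subr 53 250 h1) (pr_mul (cv3m_s.snd h1) (pr_norm (pr_add (pr_subr 10801 10000 (pr_neg (pr_scale 6157390059 1060000000 h1))) (pr_cmul (enc_norm (kc3q0_4.enc h1.l h2)) (pr_norm (pr_addc (pr_scale 2205355901 212000000 h1) (enc_rat _ 203 250))))))) (pr_case (pr_subr 149 500 h1) (pr_add (kc3q0_70_s.snd h1 h2) (pr_mul (pr_norm (pr_mul (pr_norm (pr_sub (pr_add (pr_sub (pr_neg (pr_add (pr_cadd (enc_rat _ 3 4) (pr_scale 3 2 (kc3q0_29_s.snd h1 h2))) (pr_scale 3 4 (pr_mul (pr_norm (kc3q0_40_s.snd h1 h2)) (kc3q0_38_s.snd h1 h2))))) (pr_mul (pr_norm (pr_sub (pr_mul (pr_norm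 (pr_mul (pr_norm (kc3q0_41_s.snd h1 h2)) (pr_norm (pr_subn 3 (pr_nat 4 (kc3q0_30_s.snd h1 h2)))))) (kc3q0_34_s.snd h1 h2)) (pr_mul (qsg_s.snd (pr_norm (kc3q0_29_s.snd h1 h2))) (pr_norm (pr_csub (enc_rat _ 1 2) (kc3q0_41_s.snd h1 h2)))))) (pr_nd (pr_inv (pr_mul (pr_nd (pr_nat 2 (kc3q0_34_s.snd h1 h2))) (kc3q0_34_s.snd h1 h2)))))) (pr_mul (kcg_s.snd (pr_norm (pr_sub (pr_scale 3 4 (kc3q0_29_s.snd h1 h2)) (pr_half (kc3q0_30_s.snd h1 h2)))) h2) (pr_norm (pr_cadd (enc_pnc _ 1) (pr_add (kc3q0_38_s.snd h1 h2) (pr_nat 2 (kc3q0_30_s.snd h1 h2))))))) (kc3q0_70_s.snd h1 h2))) (pr_norm (pr_sub (cv3m_s.snd h1) (cv2m_s.snd h1))))) (pr_nd (pr_inv (pr_sub (pr_addc (swg_s.snd h1) (enc_rat _ 1 2)) (cv2m_s.snd h1)))))) (pr_mul (cv3m_s.snd h1) (pr_norm (pr_add (pr_subr 1314423211 505000000 (pr_scale 644439711 252500000 h1)) (pr_cmul (enc_norm (kc3q0_4.enc h1.l h2)) (pr_norm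 (pr_subr 480156141 202000000 (pr_scale 802548141 101000000 h1))))))))))⟩
noncomputable def bf3q1_s : Sl2 bf3q1 := ⟨_, fun h1 h2 => (pr_norm (pr_case (pr_subr 883 1000 h1) (pr_add (pr_subr 592377 3830000 (pr_scale 2232 1915 h1)) (pr_cmul (enc_norm (bf3q1_3.enc h1.l h2)) (pr_norm (pr_subr 60557 76600 (pr_scale 303 383 h1))))) (pr_case (pr_subr 15 16 h1) (pr_add (pr_subr 127587 1090000 (pr_scale 612 545 h1)) (pr_cmul (enc_norm (bf3q1_3.enc h1.l h2)) (pr_norm (pr_subr 42983 54500 (pr_scale 86 109 h1))))) (pr_add (pr_subr 18 625 (pr_scale 643 625 h1)) (pr_cmul (enc_norm (bf3q1_3.enc h1.l h2)) (pr_norm (pr_subr 98 125 (pr_scale 98 125 h1))))))))⟩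
noncomputable def kf3q1_s : Sl2 kf3q1 := ⟨_, fun h1 h2 => (pr_norm (pr_mul (cv3m_s.snd h1) (bf3q1_s.snd h1 h2)))⟩
noncomputable def bx3q1_s : Sl2 bx3q1 := ⟨_, fun h1 h2 => (pr_norm (pr_case (pr_subr 719 1000 h1) (pr_case (pr_subr 111 200 h1) (pr_add (pr_csub (enc_rat _ 413 2500) (pr_scale 7 50 h1)) (pr_cmul (enc_norm (bx3q1_3.enc h1.l h2)) (pr_norm (pr_addc (pr_scale 6 55 h1) (enc_rat _ 103 2750))))) (pr_add (pr_csub (enc_rat _ 64553 328000) (pr_scale 323 1640 h1)) (pr_cmul (enc_norm (bx3q1_3.enc h1.l h2)) (pr_norm (pr_addc (pr_scale 17 164 h1) (enc_rat _ 6637 164000)))))) (pr_case (pr_subr 15 16 h1) (pr_add (pr_csub (enc_rat _ 214891 1092500) (pr_scale 86 437 h1)) (pr_cmul (enc_norm (bx3q1_3.enc h1.l h2)) (pr_norm (pr_csub (enc_rat _ 84767 437000) (pr_scale 48 437 h1))))) (pr_add (pr_csub (enc_rat _ 122 625) (pr_scale 122 625 h1)) (pr_cmul (enc_norm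 (bx3q1_3.enc h1.l h2)) (pr_norm (pr_csub (enc_rat _ 182 125) (pr_scale 182 125 h1))))))))⟩
noncomputable def l3q1_s : Sl2 l3q1 := ⟨_, fun h1 h2 => (pr_norm (pr_mul (cv3m_s.snd h1) (bx3q1_s.snd h1 h2)))⟩
noncomputable def bd3q1_s : Sl2 bd3q1 := ⟨_, fun h1 h2 => (pr_norm (pr_add (pr_subr 13267 5000 (pr_scale 13267 5000 h1)) (pr_cmul (enc_norm (enc_subr 148977 200000 h2)) (pr_norm (pr_csub (enc_rat _ 399 125) (pr_scale 399 125 h1))))))⟩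
noncomputable def kc3q1_s : Sl2 kc3q1 := ⟨_, fun h1 h2 => (pr_norm (pr_mul (cv3m_s.snd h1) (bd3q1_s.snd h1 h2)))⟩
noncomputable def cv3p_s : Sl1 cv3p := ⟨_, fun h1 => (pr_norm (pr_add (pr_scale 4 5 (pr_subr 1 2 (swg_s.snd h1))) (pr_scale 1 5 (c3g_s.snd h1))))⟩
noncomputable def bf3q2_s : Sl2 bf3q2 := ⟨_, fun h1 h2 => (pr_norm (pr_case (pr_subr 1213 1000 h1) (pr_case (pr_subr 277 250 h1) (pr_add (pr_csub (enc_rat _ 323171 270000) (pr_scale 221 1080 h1)) (pr_cmul (enc_norm (bf3q2_3.enc h1.l h2)) (pr_norm (pr_csub (enc_rat _ 369517 27000) (pr_scale 1411 108 h1))))) (pr_add (pr_csub (enc_rat _ 548721 175000) (pr_scale 342 175 h1)) (pr_cmul (enc_norm (bf3q2_3.enc h1.l h2)) (pr_norm (pr_subr 22157 2100 (pr_scale 185 21 h1)))))) (pr_case (pr_subr 127 100 h1) (pr_add (pr_csub (enc_rat _ 446833 142500) (pr_scale 557 285 h1)) (pr_cmul (enc_norm (bf3q2_3.enc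 h1.l h2)) (pr_norm (pr_subr 337751 9500 (pr_scale 559 19 h1))))) (pr_add (pr_csub (enc_rat _ 720939 230000) (pr_scale 4493 2300 h1)) (pr_cmul (enc_norm (bf3q2_3.enc h1.l h2)) (pr_norm (pr_subr 1117199 23000 (pr_scale 1825 46 h1))))))))⟩
noncomputable def kf3q2_s : Sl2 kf3q2 := ⟨_, fun h1 h2 => (pr_norm (pr_mul (cv3p_s.snd h1) (bf3q2_s.snd h1 h2)))⟩
noncomputable def bx3q2_50_s : Sl2 bx3q2_50 := ⟨_, fun h1 h2 => (pr_scale 46 19 h1)⟩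
noncomputable def bx3q2_s : Sl2 bx3q2 := ⟨_, fun h1 h2 => (pr_norm (pr_case (pr_subr 1213 1000 h1) (pr_case (pr_subr 17 16 h1) (pr_add (pr_csub (enc_rat _ 843 5000) (pr_scale 34 625 h1)) (pr_cmul (enc_norm (bx3q2_3.enc h1.l h2)) (pr_norm (pr_csub (enc_rat _ 11341 1000) (pr_scale 54 5 h1))))) (pr_case (pr_subr 577 500 h1) (pr_add (pr_csub (enc_rat _ 103713 610000) (pr_scale 17 305 h1)) (pr_cmul (enc_norm (bx3q2_3.enc h1.l h2)) (pr_norm (pr_subr 1553 7625 (pr_scale 4 61 h1))))) (pr_add (pr_csub (enc_rat _ 190457 590000) (pr_scale 111 590 h1)) (pr_cmul (enc_norm (bx3q2_3.enc h1.l h2)) (pr_norm (pr_subr 287503 14750 (pr_scale 990 59 h1))))))) (pr_case (pr_subr 166 125 h1) (pr_case (pr_subr 127 100 h1) (pr_add (pr_csub (enc_rat _ 183713 570000) (pr_scale 107 570 h1)) (pr_cmul (enc_norm (bx3q2_3.enc h1.l h2)) (pr_norm (pr_subr 1971 950 (bx3q2_50_s.snd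 h1 h2))))) (pr_add (pr_subr 38317 145000 (pr_scale 159 580 h1)) (pr_cmul (enc_norm (bx3q2_3.enc h1.l h2)) (pr_norm (pr_subr 12107 5800 (pr_scale 141 58 h1)))))) (pr_case (pr_subr 1443 1000 h1) (pr_add (pr_subr 402767 575000 (pr_scale 693 1150 h1)) (pr_cmul (enc_norm (bx3q2_3.enc h1.l h2)) (pr_norm (pr_subr 239297 115000 (pr_scale 279 115 h1))))) (pr_add (pr_subr 158347 190000 (pr_scale 66 95 h1)) (pr_cmul (enc_norm (bx3q2_3.enc h1.l h2)) (pr_norm (pr_subr 19699 9500 (bx3q2_50_s.snd h1 h2)))))))))⟩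
noncomputable def l3q2_s : Sl2 l3q2 := ⟨_, fun h1 h2 => (pr_norm (pr_mul (cv3p_s.snd h1) (bx3q2_s.snd h1 h2)))⟩
noncomputable def bd3q2_s : Sl2 bd3q2 := ⟨_, fun h1 h2 => (pr_norm (pr_case (pr_subr 231 200 h1) (pr_add (pr_subr 564529 310000 (pr_scale 2767 1550 h1)) (pr_cmul (enc_norm (bd3q2_3.enc h1.l h2)) (pr_norm (pr_subr 272287 7750 (pr_scale 6297 155 h1))))) (pr_add (pr_subr 514619 115000 (pr_scale 7043 1725 h1)) (pr_cmul (enc_norm (bd3q2_3.enc h1.l h2)) (pr_norm (pr_csub (enc_rat _ 15971 920) (pr_scale 1664 345 h1)))))))⟩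
noncomputable def kc3q2_s : Sl2 kc3q2 := ⟨_, fun h1 h2 => (pr_norm (pr_mul (cv3p_s.snd h1) (bd3q2_s.snd h1 h2)))⟩
noncomputable def ycg_s : Sl1 ycg := ⟨_, fun h1 => (pr_sqrtg (pr_scale 4 3 (pr_csub (enc_pnc _ 3) (pr_sq h1))))⟩
noncomputable def xc33_s : Sl1 xc33 := ⟨_, fun h1 => (pr_norm (pr_add (pr_scale 4 5 (pr_subr 1 2 (swg_s.snd (pr_nd (ycg_s.snd h1))))) (pr_scale 1 5 h1)))⟩
noncomputable def kfc33_6_s : Sl2 kfc33_6 := ⟨_, fun h1 h2 => (pr_subr 1 2 (swg_s.snd (pr_nd (ycg_s.snd h1))))⟩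
noncomputable def kfc33_9_s : Sl2 kfc33_9 := ⟨_, fun h1 h2 => (pr_add (pr_scale 4 5 (kfc33_6_s.snd h1 h2)) (pr_scale 1 5 h1))⟩
noncomputable def kfc33_34_s : Sl2 kfc33_34 := ⟨_, fun h1 h2 => (pr_subn 1 (ycg_s.snd h1))⟩
noncomputable def kfc33_35_s : Sl2 kfc33_35 := ⟨_, fun h1 h2 => (gsg_s.snd (pr_norm (kfc33_34_s.snd h1 h2)))⟩
noncomputable def kfc33_36_s : Sl2 kfc33_36 := ⟨_, fun h1 h2 => (pr_scale 3 4 (kfc33_34_s.snd h1 h2))⟩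
noncomputable def kfc33_37_s : Sl2 kfc33_37 := ⟨_, fun h1 h2 => (pr_half (kfc33_35_s.snd h1 h2))⟩
noncomputable def kfc33_54_s : Sl2 kfc33_54 := ⟨_, fun h1 h2 => (cv2r_s.snd (pr_nd (ycg_s.snd h1)))⟩
noncomputable def kfc33_56_s : Sl2 kfc33_56 := ⟨_, fun h1 h2 => (pr_subr 851 500 (ycg_s.snd h1))⟩
noncomputable def kfc33_68_s : Sl2 kfc33_68 := ⟨_, fun h1 h2 => (pr_subr 447 250 (ycg_s.snd h1))⟩
noncomputable def kfc33_91_s : Sl2 kfc33_91 := ⟨_, fun h1 h2 => (pr_mul (kfc33_54_s.snd h1 h2) (pr_norm (pr_case (kfc33_56_s.snd h1 h2) (pr_add (pr_subr 1226143 505000 (pr_scale 3009 2020 (ycg_s.snd h1))) (pr_cmul (enc_norm (kfc33_11.enc h1.l h2)) (pr_norm (pr_subr 658923 5050 (pr_scale 7509 101 (ycg_s.snd h1)))))) (pr_case (kfc33_68_s.snd h1 h2) (pr_add (pr_subr 1043141 430000 (pr_scale 64 43 (ycg_s.snd h1))) (pr_cmul (enc_norm (kfc33_11.enc h1.l h2)) (pr_norm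 (pr_subr 28054 215 (pr_scale 3197 43 (ycg_s.snd h1)))))) (pr_add (pr_subr 227 5000 (pr_scale 280700000 776074739 h1)) (pr_cmul (enc_norm (kfc33_11.enc h1.l h2)) (pr_norm (pr_subr 29609 1000 (pr_scale 32061000000 776074739 h1)))))))))⟩
noncomputable def kfc33_s : Sl2 kfc33 := ⟨_, fun h1 h2 => (pr_norm (pr_case (kfc33_56_s.snd h1 h2) (pr_mul (pr_norm (kfc33_9_s.snd h1 h2)) (pr_norm (pr_add (pr_subr 380211417 252500000 (pr_scale 112950639 126250000 (ycg_s.snd h1))) (pr_cmul (enc_norm (kfc33_11.enc h1.l h2)) (pr_norm (pr_subr 24810551163 202000000 (pr_scale 7355123721 101000000 (ycg_s.snd h1)))))))) (pr_case (kfc33_68_s.snd h1 h2) (pr_add (kfc33_91_s.snd h1 h2) (pr_mul (pr_norm (pr_mul (pr_norm (pr_sub (pr_mul (pr_norm (pr_subn 2 (ycg_s.snd h1))) (pr_norm (pr_add (pr_mul (pr_norm (pr_sub (pr_sub (kfc33_37_s.snd h1 h2) (kfc33_36_s.snd h1 h2)) (pr_csub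 (enc_rat _ 1 4) (pr_scale 3 8 (pr_mul (pr_norm (kfc33_34_s.snd h1 h2)) (pr_nd (pr_inv (kfc33_35_s.snd h1 h2)))))))) (pr_nd (pr_inv (esg_s.snd (pr_norm (kfc33_34_s.snd h1 h2)))))) (kcg_s.snd (pr_norm (pr_sub (kfc33_36_s.snd h1 h2) (kfc33_37_s.snd h1 h2))) h2)))) (kfc33_91_s.snd h1 h2))) (pr_norm (pr_sub (kfc33_9_s.snd h1 h2) (kfc33_54_s.snd h1 h2))))) (pr_nd (pr_inv (pr_sub (kfc33_6_s.snd h1 h2) (kfc33_54_s.snd h1 h2)))))) (pr_mul (pr_norm (kfc33_9_s.snd h1 h2)) (pr_norm (pr_sub (pr_csub (enc_rat _ 1 2) (pr_scale 825998779 1552149478 h1)) (pr_cmul (enc_norm (kfc33_11.enc h1.l h2)) (pr_nd (pr_scale 1609855507 776074739 h1)))))))))⟩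
noncomputable def lc33_6_s : Sl2 lc33_6 := ⟨_, fun h1 h2 => (pr_subr 1 2 (swg_s.snd (pr_nd (ycg_s.snd h1))))⟩
noncomputable def lc33_9_s : Sl2 lc33_9 := ⟨_, fun h1 h2 => (pr_add (pr_scale 4 5 (lc33_6_s.snd h1 h2)) (pr_scale 1 5 h1))⟩
noncomputable def lc33_99_s : Sl2 lc33_99 := ⟨_, fun h1 h2 => (pr_subn 1 (ycg_s.snd h1))⟩
noncomputable def lc33_112_s : Sl2 lc33_112 := ⟨_, fun h1 h2 => (cv2r_s.snd (pr_nd (ycg_s.snd h1)))⟩
noncomputable def lc33_114_s : Sl2 lc33_114 := ⟨_, fun h1 h2 => (pr_subr 851 500 (ycg_s.snd h1))⟩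
noncomputable def lc33_126_s : Sl2 lc33_126 := ⟨_, fun h1 h2 => (pr_subr 447 250 (ycg_s.snd h1))⟩
noncomputable def lc33_149_s : Sl2 lc33_149 := ⟨_, fun h1 h2 => (pr_mul (lc33_112_s.snd h1 h2) (pr_norm (pr_case (lc33_114_s.snd h1 h2) (pr_add (pr_subr 1814309 1010000 (pr_scale 692 505 (ycg_s.snd h1))) (pr_cmul (enc_norm (lc33_11.enc h1.l h2)) (pr_norm (pr_csub (enc_rat _ 467563 101000) (pr_scale 487 202 (ycg_s.snd h1)))))) (pr_case (lc33_126_s.snd h1 h2) (pr_add (pr_subr 193223 107500 (pr_scale 1179 860 (ycg_s.snd h1))) (pr_cmul (enc_norm (lc33_11.enc h1.l h2)) (pr_norm (pr_csub (enc_rat _ 7951 1720) (pr_scale 207 86 (ycg_s.snd h1)))))) (pr_add (pr_csub (enc_rat _ 7411 10000) (pr_scale 87300000 776074739 h1)) (pr_cmul (enc_norm (lc33_11.enc h1.l h2)) (pr_norm (pr_csub (enc_rat _ 2429 250) (pr_scale 9397000000 776074739 h1)))))))))⟩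
noncomputable def lc33_s : Sl2 lc33 := ⟨_, fun h1 h2 => (pr_norm (pr_case (lc33_114_s.snd h1 h2) (pr_mul (pr_norm (lc33_9_s.snd h1 h2)) (pr_norm (pr_case (pr_subr 1601 1000 (ycg_s.snd h1)) (pr_add (pr_subr 1160213 1010000 (pr_scale 457 505 (ycg_s.snd h1))) (pr_cmul (enc_norm (lc33_11.enc h1.l h2)) (pr_norm (pr_csub (enc_rat _ 665179 50500) (pr_scale 782 101 (ycg_s.snd h1)))))) (pr_case (pr_subr 413 250 (ycg_s.snd h1)) (pr_add (pr_subr 195537 170000 (pr_scale 77 85 (ycg_s.snd h1))) (pr_cmul (enc_norm (lc33_11.enc h1.l h2)) (pr_norm (pr_csub (enc_rat _ 158089 10200) (pr_scale 469 51 (ycg_s.snd h1)))))) (pr_add (pr_add (pr_subr 143725776037 125000000000 (pr_scale 452816649 500000000 (ycg_s.snd h1))) (pr_cmul (enc_norm (lc33_11.enc h1.l h2)) (pr_norm (pr_csub (enc_rat _ 39026401363 12500000000) (pr_scale 85203151 50000000 (ycg_s.snd h1)))))) (pr_cmul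 (lc33_50.enc h1.l h2) (pr_norm (pr_subr 17448011 12500000 (pr_scale 42247 50000 (ycg_s.snd h1)))))))))) (pr_case (lc33_126_s.snd h1 h2) (pr_add (lc33_149_s.snd h1 h2) (pr_mul (pr_norm (pr_mul (pr_norm (pr_sub (pr_sub (qsg_s.snd (pr_norm (lc33_99_s.snd h1 h2))) (pr_mul (pr_norm (pr_nat 2 (pr_subc (lc33_99_s.snd h1 h2) h2))) (pr_norm (pr_mul (esg_s.snd (pr_norm (lc33_99_s.snd h1 h2))) (kcg_s.snd (pr_norm (pr_sub (pr_scale 3 4 (lc33_99_s.snd h1 h2)) (pr_half (gsg_s.snd (pr_norm (lc33_99_s.snd h1 h2)))))) h2))))) (lc33_149_s.snd h1 h2))) (pr_norm (pr_sub (lc33_9_s.snd h1 h2) (lc33_112_s.snd h1 h2))))) (pr_nd (pr_inv (pr_sub (lc33_6_s.snd h1 h2) (lc33_112_s.snd h1 h2)))))) (pr_mul (pr_norm (lc33_9_s.snd h1 h2)) (pr_norm (pr_case (pr_csub (enc_rat _ 676785971 1000000000) h1) (pr_add (pr_add (pr_csub (enc_rat _ 442154423308714283 496443840000000000) (pr_scale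 266450473 496443840 h1)) (pr_cmul (enc_norm (lc33_11.enc h1.l h2)) (pr_norm (pr_csub (enc_rat _ 56663985661361711 49644384000000000) (pr_scale 42353941 49644384 h1))))) (pr_cmul (lc33_50.enc h1.l h2) (pr_norm (pr_subr 109503293321829 16548128000000 (pr_scale 20224875 2068516 h1))))) (pr_case (pr_csub (enc_rat _ 556392847 1000000000) h1) (pr_add (pr_csub (enc_rat _ 372296331639 601965620000) (pr_scale 4050000 30098281 h1)) (pr_cmul (enc_norm (lc33_11.enc h1.l h2)) (pr_norm (pr_csub (enc_rat _ 220178565411 120393124000) (pr_scale 56250000 30098281 h1))))) (pr_add (pr_addc (pr_scale 175219500 556392847 h1) (enc_rat _ 736761 2000000)) (pr_cmul (enc_norm (lc33_11.enc h1.l h2)) (pr_norm (pr_csub (enc_rat _ 91633 50000) (pr_scale 1043660000 556392847 h1))))))))))))⟩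
noncomputable def kcc33_6_s : Sl2 kcc33_6 := ⟨_, fun h1 h2 => (pr_subr 1 2 (swg_s.snd (pr_nd (ycg_s.snd h1))))⟩
noncomputable def kcc33_9_s : Sl2 kcc33_9 := ⟨_, fun h1 h2 => (pr_add (pr_scale 4 5 (kcc33_6_s.snd h1 h2)) (pr_scale 1 5 h1))⟩
noncomputable def kcc33_34_s : Sl2 kcc33_34 := ⟨_, fun h1 h2 => (pr_subn 1 (ycg_s.snd h1))⟩
noncomputable def kcc33_35_s : Sl2 kcc33_35 := ⟨_, fun h1 h2 => (gsg_s.snd (pr_norm (kcc33_34_s.snd h1 h2)))⟩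
noncomputable def kcc33_39_s : Sl2 kcc33_39 := ⟨_, fun h1 h2 => (esg_s.snd (pr_norm (kcc33_34_s.snd h1 h2)))⟩
noncomputable def kcc33_44_s : Sl2 kcc33_44 := ⟨_, fun h1 h2 => (gug_s.snd (pr_norm (kcc33_34_s.snd h1 h2)))⟩
noncomputable def kcc33_46_s : Sl2 kcc33_46 := ⟨_, fun h1 h2 => (pr_mul (pr_norm (kcc33_34_s.snd h1 h2)) (pr_nd (pr_inv (kcc33_35_s.snd h1 h2))))⟩
noncomputable def kcc33_47_s : Sl2 kcc33_47 := ⟨_, fun h1 h2 => (pr_scale 3 4 (kcc33_46_s.snd h1 h2))⟩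
noncomputable def kcc33_72_s : Sl2 kcc33_72 := ⟨_, fun h1 h2 => (cv2r_s.snd (pr_nd (ycg_s.snd h1)))⟩
noncomputable def kcc33_74_s : Sl2 kcc33_74 := ⟨_, fun h1 h2 => (pr_subr 851 500 (ycg_s.snd h1))⟩
noncomputable def kcc33_86_s : Sl2 kcc33_86 := ⟨_, fun h1 h2 => (pr_subr 447 250 (ycg_s.snd h1))⟩
noncomputable def kcc33_109_s : Sl2 kcc33_109 := ⟨_, fun h1 h2 => (pr_mul (kcc33_72_s.snd h1 h2) (pr_norm (pr_case (kcc33_74_s.snd h1 h2) (pr_add (pr_subr 615843 50500 (pr_scale 10611 1010 (ycg_s.snd h1))) (pr_cmul (enc_norm (kcc33_11.enc h1.l h2)) (pr_norm (pr_csub (enc_rat _ 1065563 101000) (pr_scale 1419 202 (ycg_s.snd h1)))))) (pr_case (kcc33_86_s.snd h1 h2) (pr_add (pr_subr 5243719 430000 (pr_scale 1807 172 (ycg_s.snd h1))) (pr_cmul (enc_norm (kcc33_11.enc h1.l h2)) (pr_norm (pr_csub (enc_rat _ 454397 43000) (pr_scale 605 86 (ycg_s.snd h1)))))) (pr_add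 (pr_subr 5291 5000 (pr_scale 7647900000 776074739 h1)) (pr_cmul (enc_norm (kcc33_11.enc h1.l h2)) (pr_norm (pr_csub (enc_rat _ 9373 100) (pr_scale 95741000000 776074739 h1)))))))))⟩
noncomputable def kcc33_s : Sl2 kcc33 := ⟨_, fun h1 h2 => (pr_norm (pr_case (kcc33_74_s.snd h1 h2) (pr_mul (pr_norm (kcc33_9_s.snd h1 h2)) (pr_norm (pr_add (pr_subr 34470494067 4040000000 (pr_scale 13711356689 2020000000 (ycg_s.snd h1))) (pr_cmul (enc_norm (kcc33_11.enc h1.l h2)) (pr_norm (pr_csub (enc_rat _ 3384258117 40400000) (pr_scale 991736039 20200000 (ycg_s.snd h1)))))))) (pr_case (kcc33_86_s.snd h1 h2) (pr_add (kcc33_109_s.snd h1 h2) (pr_mul (pr_norm (pr_mul (pr_norm (pr_sub (pr_add (pr_sub (pr_add (pr_cadd (enc_rat _ 3 4) (pr_scale 3 2 (kcc33_34_s.snd h1 h2))) (pr_scale 3 4 (pr_mul (pr_norm (kcc33_46_s.snd h1 h2)) (kcc33_44_s.snd h1 h2)))) (pr_mul (pr_norm (pr_sub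 (pr_mul (pr_norm (pr_mul (pr_norm (kcc33_47_s.snd h1 h2)) (pr_norm (pr_subn 3 (pr_nat 4 (kcc33_35_s.snd h1 h2)))))) (kcc33_39_s.snd h1 h2)) (pr_mul (qsg_s.snd (pr_norm (kcc33_34_s.snd h1 h2))) (pr_norm (pr_csub (enc_rat _ 1 2) (kcc33_47_s.snd h1 h2)))))) (pr_nd (pr_inv (pr_mul (pr_nd (pr_nat 2 (kcc33_39_s.snd h1 h2))) (kcc33_39_s.snd h1 h2)))))) (pr_mul (kcg_s.snd (pr_norm (pr_sub (pr_scale 3 4 (kcc33_34_s.snd h1 h2)) (pr_half (kcc33_35_s.snd h1 h2)))) h2) (pr_norm (pr_csub (enc_pnc _ 1) (pr_add (kcc33_44_s.snd h1 h2) (pr_nat 2 (kcc33_35_s.snd h1 h2))))))) (kcc33_109_s.snd h1 h2))) (pr_norm (pr_sub (kcc33_9_s.snd h1 h2) (kcc33_72_s.snd h1 h2))))) (pr_nd (pr_inv (pr_sub (kcc33_6_s.snd h1 h2) (kcc33_72_s.snd h1 h2)))))) (pr_mul (pr_norm (kcc33_9_s.snd h1 h2)) (pr_norm (pr_add (pr_addc (pr_scale 2604674218491 648022407065 h1) (enc_rat _ 1951 1670))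 (pr_cmul (enc_norm (kcc33_11.enc h1.l h2)) (pr_norm (pr_csub (enc_rat _ 18451 167) (pr_scale 19288171317968 129604481413 h1))))))))))⟩
noncomputable def cv4m_s : Sl1 cv4m := ⟨_, fun h1 => (pr_norm (pr_add (pr_scale 2 5 (pr_addc (swg_s.snd h1) (enc_rat _ 1 2))) (pr_scale 3 5 (c3g_s.snd h1))))⟩
noncomputable def bf4q0_s : Sl2 bf4q0 := ⟨_, fun h1 h2 => (pr_norm (pr_case (pr_subr 149 500 h1) (pr_add (pr_csub (enc_rat _ 519 1250) (pr_scale 1951 1490 h1)) (pr_cmul (enc_norm (bf4q0_3.enc h1.l h2)) (pr_norm (pr_subr 173 1000 (pr_scale 203 298 h1))))) (pr_case (pr_subr 181 500 h1) (pr_add (pr_csub (enc_rat _ 184863 320000) (pr_scale 1187 640 h1)) (pr_cmul (enc_norm (bf4q0_3.enc h1.l h2)) (pr_norm (pr_subr 923 4000 (pr_scale 7 8 h1))))) (pr_add (pr_csub (enc_rat _ 127777 172500) (pr_scale 3181 1380 h1)) (pr_cmul (enc_norm (bf4q0_3.enc h1.l h2)) (pr_norm (pr_subr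 4037 17250 (pr_scale 61 69 h1))))))))⟩
noncomputable def kf4q0_s : Sl2 kf4q0 := ⟨_, fun h1 h2 => (pr_norm (pr_mul (cv4m_s.snd h1) (bf4q0_s.snd h1 h2)))⟩
noncomputable def bx4q0_s : Sl2 bx4q0 := ⟨_, fun h1 h2 => (pr_norm (pr_case (pr_subr 149 500 h1) (pr_add (pr_csub (enc_rat _ 1647 10000) (pr_scale 407 2980 h1)) (pr_cmul (enc_norm (bx4q0_3.enc h1.l h2)) (pr_norm (pr_csub (enc_rat _ 197 1000) (pr_scale 145 298 h1))))) (pr_case (pr_subr 181 500 h1) (pr_add (pr_csub (enc_rat _ 52643 320000) (pr_scale 87 640 h1)) (pr_cmul (enc_norm (bx4q0_3.enc h1.l h2)) (pr_norm (pr_csub (enc_rat _ 2769 16000) (pr_scale 13 32 h1))))) (pr_add (pr_csub (enc_rat _ 6952 43125) (pr_scale 35 276 h1)) (pr_cmul (enc_norm (bx4q0_3.enc h1.l h2)) (pr_norm (pr_subr 7799 69000 (pr_scale 53 138 h1))))))))⟩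
noncomputable def l4q0_s : Sl2 l4q0 := ⟨_, fun h1 h2 => (pr_norm (pr_mul (cv4m_s.snd h1) (bx4q0_s.snd h1 h2)))⟩
noncomputable def bd4q0_s : Sl2 bd4q0 := ⟨_, fun h1 h2 => (pr_norm (pr_case (pr_subr 53 250 h1) (pr_add (pr_subr 1339 500 (pr_scale 45 53 h1)) (pr_cmul (enc_norm (bd4q0_3.enc h1.l h2)) (pr_norm (pr_csub (enc_rat _ 727 250) (pr_scale 154 53 h1))))) (pr_add (pr_subr 2431751 720000 (pr_scale 11947 2880 h1)) (pr_cmul (enc_norm (bd4q0_3.enc h1.l h2)) (pr_norm (pr_csub (enc_rat _ 104719 36000) (pr_scale 419 144 h1)))))))⟩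
noncomputable def kc4q0_s : Sl2 kc4q0 := ⟨_, fun h1 h2 => (pr_norm (pr_mul (cv4m_s.snd h1) (bd4q0_s.snd h1 h2)))⟩
noncomputable def bf4q1_s : Sl2 bf4q1 := ⟨_, fun h1 h2 => (pr_norm (pr_case (pr_subr 773 1000 h1) (pr_add (pr_subr 277559 2730000 (pr_scale 1538 1365 h1)) (pr_cmul (enc_norm (bf4q1_3.enc h1.l h2)) (pr_norm (pr_subr 173599 273000 (pr_scale 149 273 h1))))) (pr_case (pr_subr 207 250 h1) (pr_add (pr_subr 42231 550000 (pr_scale 301 275 h1)) (pr_cmul (enc_norm (bf4q1_3.enc h1.l h2)) (pr_norm (pr_subr 45009 55000 (pr_scale 43 55 h1))))) (pr_add (pr_addc (pr_scale 341 344 h1) (enc_rat _ 3 344)) (pr_cmul (enc_norm (bf4q1_3.enc h1.l h2)) (pr_norm (pr_subr 171 172 (pr_scale 171 172 h1))))))))⟩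
noncomputable def kf4q1_s : Sl2 kf4q1 := ⟨_, fun h1 h2 => (pr_norm (pr_mul (cv4m_s.snd h1) (bf4q1_s.snd h1 h2)))⟩
noncomputable def bx4q1_s : Sl2 bx4q1 := ⟨_, fun h1 h2 => (pr_norm (pr_case (pr_subr 719 1000 h1) (pr_case (pr_subr 111 200 h1) (pr_add (pr_csub (enc_rat _ 8829 55000) (pr_scale 69 550 h1)) (pr_cmul (enc_norm (bx4q1_3.enc h1.l h2)) (pr_norm (pr_subr 1231 11000 (pr_scale 21 55 h1))))) (pr_add (pr_csub (enc_rat _ 160563 820000) (pr_scale 31 164 h1)) (pr_cmul (enc_norm (bx4q1_3.enc h1.l h2)) (pr_norm (pr_addc (pr_scale 13 164 h1) (enc_rat _ 1837 32800)))))) (pr_case (pr_subr 15 16 h1) (pr_add (pr_csub (enc_rat _ 946251 4370000) (pr_scale 476 2185 h1)) (pr_cmul (enc_norm (bx4q1_3.enc h1.l h2)) (pr_norm (pr_csub (enc_rat _ 81017 437000) (pr_scale 44 437 h1))))) (pr_add (pr_csub (enc_rat _ 123 625) (pr_scale 123 625 h1)) (pr_cmul (enc_norm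 (bx4q1_3.enc h1.l h2)) (pr_norm (pr_csub (enc_rat _ 182 125) (pr_scale 182 125 h1))))))))⟩
noncomputable def l4q1_s : Sl2 l4q1 := ⟨_, fun h1 h2 => (pr_norm (pr_mul (cv4m_s.snd h1) (bx4q1_s.snd h1 h2)))⟩
noncomputable def bd4q1_s : Sl2 bd4q1 := ⟨_, fun h1 h2 => (pr_norm (pr_add (pr_subr 13033 5000 (pr_scale 13033 5000 h1)) (pr_cmul (enc_norm (enc_subr 148977 200000 h2)) (pr_norm (pr_csub (enc_rat _ 727 250) (pr_scale 727 250 h1))))))⟩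
noncomputable def kc4q1_s : Sl2 kc4q1 := ⟨_, fun h1 h2 => (pr_norm (pr_mul (cv4m_s.snd h1) (bd4q1_s.snd h1 h2)))⟩
noncomputable def cv4p_s : Sl1 cv4p := ⟨_, fun h1 => (pr_norm (pr_add (pr_scale 2 5 (pr_subr 1 2 (swg_s.snd h1))) (pr_scale 3 5 (c3g_s.snd h1))))⟩
noncomputable def bf4q2_s : Sl2 bf4q2 := ⟨_, fun h1 h2 => (pr_norm (pr_case (pr_subr 231 200 h1) (pr_add (pr_csub (enc_rat _ 338133 310000) (pr_scale 129 775 h1)) (pr_cmul (enc_norm (bf4q2_3.enc h1.l h2)) (pr_norm (pr_csub (enc_rat _ 235929 31000) (pr_scale 1062 155 h1))))) (pr_case (pr_subr 1213 1000 h1) (pr_add (pr_csub (enc_rat _ 133887 58000) (pr_scale 177 145 h1)) (pr_cmul (enc_norm (bf4q2_3.enc h1.l h2)) (pr_norm (pr_subr 31887 29000 (pr_scale 20 29 h1))))) (pr_add (pr_csub (enc_rat _ 3816927 1435000) (pr_scale 867 574 h1)) (pr_cmul (enc_norm (bf4q2_3.enc h1.l h2)) (pr_norm (pr_subr 79738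 5125 (pr_scale 517 41 h1))))))))⟩
noncomputable def kf4q2_s : Sl2 kf4q2 := ⟨_, fun h1 h2 => (pr_norm (pr_mul (cv4p_s.snd h1) (bf4q2_s.snd h1 h2)))⟩
noncomputable def bx4q2_s : Sl2 bx4q2 := ⟨_, fun h1 h2 => (pr_norm (pr_case (pr_subr 127 100 h1) (pr_case (pr_subr 17 16 h1) (pr_add (pr_csub (enc_rat _ 5301 10000) (pr_scale 327 625 h1)) (pr_cmul (enc_norm (bx4q2_3.enc h1.l h2)) (pr_norm (pr_subr 251 125 (pr_scale 258 125 h1))))) (pr_case (pr_subr 277 250 h1) (pr_add (pr_csub (enc_rat _ 76397 910000) (pr_scale 47 455 h1)) (pr_cmul (enc_norm (bx4q2_3.enc h1.l h2)) (pr_norm (pr_subr 36583 18200 (pr_scale 188 91 h1))))) (pr_add (pr_subr 48707 162000 (pr_scale 79 324 h1)) (pr_cmul (enc_norm (bx4q2_3.enc h1.l h2)) (pr_norm (pr_subr 162991 81000 (pr_scale 335 162 h1))))))) (pr_case (pr_subr 277 200 h1) (pr_add (pr_subr 1381 4600 (pr_scale 28 115 h1)) (pr_cmul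 (enc_norm (bx4q2_3.enc h1.l h2)) (pr_norm (pr_csub (enc_rat _ 13411 11500) (pr_scale 10 23 h1))))) (pr_case (pr_subr 1443 1000 h1) (pr_add (pr_subr 46953 116000 (pr_scale 37 116 h1)) (pr_cmul (enc_norm (bx4q2_3.enc h1.l h2)) (pr_norm (pr_csub (enc_rat _ 67337 58000) (pr_scale 25 58 h1))))) (pr_add (pr_subr 38369 47500 (pr_scale 341 570 h1)) (pr_cmul (enc_norm (bx4q2_3.enc h1.l h2)) (pr_norm (pr_csub (enc_rat _ 11133 9500) (pr_scale 25 57 h1)))))))))⟩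
noncomputable def l4q2_s : Sl2 l4q2 := ⟨_, fun h1 h2 => (pr_norm (pr_mul (cv4p_s.snd h1) (bx4q2_s.snd h1 h2)))⟩
noncomputable def bd4q2_s : Sl2 bd4q2 := ⟨_, fun h1 h2 => (pr_norm (pr_add (pr_subr 1547 625 (pr_scale 12271 5000 h1)) (pr_cmul (enc_norm (enc_subr 148977 200000 h2)) (pr_norm (pr_subr 283 20 (pr_scale 9173 500 h1))))))⟩
noncomputable def kc4q2_s : Sl2 kc4q2 := ⟨_, fun h1 h2 => (pr_norm (pr_mul (cv4p_s.snd h1) (bd4q2_s.snd h1 h2)))⟩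
noncomputable def xc43_s : Sl1 xc43 := ⟨_, fun h1 => (pr_norm (pr_add (pr_scale 2 5 (pr_subr 1 2 (swg_s.snd (pr_nd (ycg_s.snd h1))))) (pr_scale 3 5 h1)))⟩
noncomputable def kfc43_s : Sl2 kfc43 := ⟨_, fun h1 h2 => (pr_norm (pr_mul (pr_norm (pr_add (pr_scale 2 5 (pr_subr 1 2 (swg_s.snd (pr_nd (ycg_s.snd h1))))) (pr_scale 3 5 h1))) (pr_norm (pr_case (pr_subr 447 250 (ycg_s.snd h1)) (pr_case (pr_subr 851 500 (ycg_s.snd h1)) (pr_add (pr_subr 1029267 505000 (pr_scale 239 202 (ycg_s.snd h1))) (pr_cmul (enc_norm (kfc43_11.enc h1.l h2)) (pr_norm (pr_subr 1348979 50500 (pr_scale 3071 202 (ycg_s.snd h1)))))) (pr_add (pr_subr 875959 430000 (pr_scale 1017 860 (ycg_s.snd h1))) (pr_cmul (enc_norm (kfc43_11.enc h1.l h2)) (pr_norm (pr_subr 143531 5375 (pr_scale 1307 86 (ycg_s.snd h1))))))) (pr_case (pr_csub (enc_rat _ 429616471 1000000000) h1) (pr_add (pr_csub (enc_rat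 _ 797450022427 1732291340000) (pr_scale 42750000 86614567 h1)) (pr_cmul (enc_norm (kfc43_11.enc h1.l h2)) (pr_norm (pr_csub (enc_rat _ 1029710869423 346458268000) (pr_scale 279250000 86614567 h1))))) (pr_add (pr_csub (enc_rat _ 1 2) (pr_scale 251700000 429616471 h1)) (pr_cmul (enc_norm (kfc43_11.enc h1.l h2)) (pr_nd (pr_scale 69000000 18678977 h1)))))))))⟩
noncomputable def lc43_s : Sl2 lc43 := ⟨_, fun h1 h2 => (pr_norm (pr_mul (pr_norm (pr_add (pr_scale 2 5 (pr_subr 1 2 (swg_s.snd (pr_nd (ycg_s.snd h1))))) (pr_scale 3 5 h1))) (pr_norm (pr_case (pr_subr 447 250 (ycg_s.snd h1)) (pr_case (pr_subr 851 500 (ycg_s.snd h1)) (pr_add (pr_subr 408877 505000 (pr_scale 1211 2020 (ycg_s.snd h1))) (pr_cmul (enc_norm (lc43_11.enc h1.l h2)) (pr_norm (pr_csub (enc_rat _ 154957 50500) (pr_scale 172 101 (ycg_s.snd h1)))))) (pr_add (pr_subr 21729 26875 (pr_scale 103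 172 (ycg_s.snd h1))) (pr_cmul (enc_norm (lc43_11.enc h1.l h2)) (pr_norm (pr_csub (enc_rat _ 132407 43000) (pr_scale 147 86 (ycg_s.snd h1))))))) (pr_case (pr_csub (enc_rat _ 556392847 1000000000) h1) (pr_add (pr_csub (enc_rat _ 445653808031 439363784000) (pr_scale 53225000 54920473 h1)) (pr_cmul (enc_norm (lc43_11.enc h1.l h2)) (pr_norm (pr_csub (enc_rat _ 112927072237 219681892000) (pr_scale 34750000 54920473 h1))))) (pr_case (pr_csub (enc_rat _ 429616471 1000000000) h1) (pr_add (pr_csub (enc_rat _ 230260341683 422587920000) (pr_scale 662500 5282349 h1)) (pr_cmul (enc_norm (lc43_11.enc h1.l h2)) (pr_norm (pr_csub (enc_rat _ 4258358909 3961761750) (pr_scale 26000000 15847047 h1))))) (pr_add (pr_addc (pr_scale 122619500 429616471 h1) (enc_rat _ 736761 2000000)) (pr_cmul (enc_norm (lc43_11.enc h1.l h2)) (pr_norm (pr_csub (enc_rat _ 91633 50000) (pr_scale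 1462660000 429616471 h1)))))))))))⟩
noncomputable def kcc43_s : Sl2 kcc43 := ⟨_, fun h1 h2 => (pr_norm (pr_mul (pr_norm (pr_add (pr_scale 2 5 (pr_subr 1 2 (swg_s.snd (pr_nd (ycg_s.snd h1))))) (pr_scale 3 5 h1))) (pr_norm (pr_case (pr_subr 851 500 (ycg_s.snd h1)) (pr_add (pr_subr 2500339 1010000 (pr_scale 2479 1010 (ycg_s.snd h1))) (pr_cmul (enc_norm (kcc43_11.enc h1.l h2)) (pr_norm (pr_subr 1429231 101000 (pr_scale 1853 101 (ycg_s.snd h1)))))) (pr_case (pr_subr 447 250 (ycg_s.snd h1)) (pr_add (pr_subr 266161 107500 (pr_scale 2111 860 (ycg_s.snd h1))) (pr_cmul (enc_norm (kcc43_11.enc h1.l h2)) (pr_norm (pr_subr 608653 43000 (pr_scale 789 43 (ycg_s.snd h1)))))) (pr_add (pr_addc (pr_scale 124371000000 129604481413 h1) (enc_rat _ 1951 1670)) (pr_cmul (enc_norm (kcc43_11.enc h1.l h2)) (pr_norm (pr_csub (enc_rat _ 18451 167) (pr_scale 15335949000000 129604481413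 h1))))))))))⟩
noncomputable def kf5q0_s : Sl2 kf5q0 := ⟨_, fun h1 h2 => (pr_norm (pr_sub (pr_mul h1 (kcg_s.snd (pr_nd (pr_half h1)) h2)) (pr_mul (pr_norm (pr_mul (pr_nd (pr_sq h1)) (pr_norm (pr_addc (c3g_s.snd h1) (enc_rat _ 3 2))))) (pr_nd (pr_inv (pr_mul (pr_norm (pr_csub (enc_pnc _ 1) h1)) (pr_norm (pr_cadd (enc_pnc _ 1) h1))))))))⟩
noncomputable def l5q0_6_s : Sl2 l5q0_6 := ⟨_, fun h1 h2 => (pr_half h1)⟩
noncomputable def l5q0_7_s : Sl2 l5q0_7 := ⟨_, fun h1 h2 => (pr_half (c3g_s.snd h1))⟩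
noncomputable def l5q0_8_s : Sl2 l5q0_8 := ⟨_, fun h1 h2 => (pr_scale 1 4 h1)⟩
noncomputable def l5q0_s : Sl2 l5q0 := ⟨_, fun h1 h2 => (pr_norm (pr_add (txg_s.snd (pr_nd (l5q0_6_s.snd h1 h2)) (pr_norm (pr_sub (l5q0_7_s.snd h1 h2) (l5q0_8_s.snd h1 h2))) h2) (txg_s.snd (pr_nd (pr_neg (l5q0_6_s.snd h1 h2))) (pr_norm (pr_add (l5q0_7_s.snd h1 h2) (l5q0_8_s.snd h1 h2))) h2)))⟩
noncomputable def kc5q0_6_s : Sl2 kc5q0_6 := ⟨_, fun h1 h2 => (pr_half h1)⟩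
noncomputable def kc5q0_s : Sl2 kc5q0 := ⟨_, fun h1 h2 => (pr_norm (pr_case (pr_subr 167 1000 (kc5q0_6_s.snd h1 h2)) (pr_add (pr_subr 64987 10000 (pr_scale 27791 3340 h1)) (pr_cmul (enc_norm (kc5q0_3.enc h1.l h2)) (pr_norm (pr_csub (enc_rat _ 6917 1000) (pr_scale 2777 334 h1))))) (pr_case (pr_subr 333 1000 (kc5q0_6_s.snd h1 h2)) (pr_add (pr_subr 337117 51875 (pr_scale 3453 415 h1)) (pr_cmul (enc_norm (kc5q0_3.enc h1.l h2)) (pr_norm (pr_csub (enc_rat _ 14352 2075) (pr_scale 690 83 h1))))) (pr_add (pr_subr 2393 835 (pr_scale 2393 835 h1)) (pr_cmul (enc_norm (kc5q0_3.enc h1.l h2)) (pr_norm (pr_csub (enc_rat _ 690 167) (pr_scale 690 167 h1))))))))⟩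
noncomputable def kf5q1_s : Sl2 kf5q1 := ⟨_, fun h1 h2 => (pr_norm (pr_add (pr_mul (pr_norm (pr_mul h1 (pr_norm (pr_addc (c3g_s.snd h1) (enc_rat _ 3 2))))) (pr_nd (pr_inv (pr_cadd (enc_pnc _ 1) h1)))) (pr_mul (pr_norm (pr_subn 1 h1)) (kcg_s.snd (pr_nd (pr_half h1)) h2))))⟩
noncomputable def l5q1_7_s : Sl2 l5q1_7 := ⟨_, fun h1 h2 => (pr_half h1)⟩
noncomputable def l5q1_8_s : Sl2 l5q1_8 := ⟨_, fun h1 h2 => (pr_half (c3g_s.snd h1))⟩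
noncomputable def l5q1_9_s : Sl2 l5q1_9 := ⟨_, fun h1 h2 => (pr_scale 1 4 h1)⟩
noncomputable def l5q1_s : Sl2 l5q1 := ⟨_, fun h1 h2 => (pr_norm (pr_add (txg_s.snd (pr_nd (l5q1_7_s.snd h1 h2)) (pr_norm (pr_sub (l5q1_8_s.snd h1 h2) (l5q1_9_s.snd h1 h2))) h2) (txg_s.snd (pr_nd (pr_neg (l5q1_7_s.snd h1 h2))) (pr_norm (pr_add (l5q1_8_s.snd h1 h2) (l5q1_9_s.snd h1 h2))) h2)))⟩
noncomputable def kc5q1_7_s : Sl2 kc5q1_7 := ⟨_, fun h1 h2 => (pr_half h1)⟩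
noncomputable def kc5q1_s : Sl2 kc5q1 := ⟨_, fun h1 h2 => (pr_norm (pr_case (pr_subr 167 1000 (kc5q1_7_s.snd h1 h2)) (pr_add (pr_subr 64987 10000 (pr_scale 27791 3340 h1)) (pr_cmul (enc_norm (kc5q1_3.enc h1.l h2)) (pr_norm (pr_csub (enc_rat _ 6917 1000) (pr_scale 2777 334 h1))))) (pr_case (pr_subr 333 1000 (kc5q1_7_s.snd h1 h2)) (pr_add (pr_subr 337117 51875 (pr_scale 3453 415 h1)) (pr_cmul (enc_norm (kc5q1_3.enc h1.l h2)) (pr_norm (pr_csub (enc_rat _ 14352 2075) (pr_scale 690 83 h1))))) (pr_add (pr_subr 2393 835 (pr_scale 2393 835 h1)) (pr_cmul (enc_norm (kc5q1_3.enc h1.l h2)) (pr_norm (pr_csub (enc_rat _ 690 167) (pr_scale 690 167 h1))))))))⟩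
noncomputable def kf5q2_s : Sl2 kf5q2 := ⟨_, fun h1 h2 => (pr_norm (pr_add (pr_mul (pr_norm (pr_mul (pr_norm (pr_sub (pr_nat 2 (c3g_s.snd h1)) h1)) (pr_norm (pr_sub (pr_addc (c3g_s.snd h1) (enc_pnc _ 3)) (pr_scale 3 2 h1))))) (pr_nd (pr_inv (pr_nat 4 (pr_csub (enc_pnc _ 2) h1))))) (pr_mul (pr_norm (pr_subn 1 h1)) (kcg_s.snd (pr_norm (pr_sub (pr_scale 1 4 h1) (pr_half (c3g_s.snd h1)))) h2))))⟩
noncomputable def l5q2_7_s : Sl2 l5q2_7 := ⟨_, fun h1 h2 => (pr_half (c3g_s.snd h1))⟩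
noncomputable def l5q2_8_s : Sl2 l5q2_8 := ⟨_, fun h1 h2 => (pr_scale 1 4 h1)⟩
noncomputable def l5q2_9_s : Sl2 l5q2_9 := ⟨_, fun h1 h2 => (pr_sub (l5q2_7_s.snd h1 h2) (l5q2_8_s.snd h1 h2))⟩
noncomputable def l5q2_12_s : Sl2 l5q2_12 := ⟨_, fun h1 h2 => (pr_add (pr_scale 1 4 (c3g_s.snd h1)) (pr_scale 3 8 h1))⟩
noncomputable def l5q2_14_s : Sl2 l5q2_14 := ⟨_, fun h1 h2 => (pr_half (l5q2_9_s.snd h1 h2))⟩
noncomputable def l5q2_s : Sl2 l5q2 := ⟨_, fun h1 h2 => (pr_norm (pr_sub (pr_nat 2 (txg_s.snd (pr_norm (pr_sub (l5q2_8_s.snd h1 h2) (l5q2_7_s.snd h1 h2))) (pr_norm (pr_add (l5q2_12_s.snd h1 h2) (l5q2_14_s.snd h1 h2))) h2)) (txg_s.snd (pr_norm (l5q2_9_s.snd h1 h2)) (pr_norm (pr_sub (l5q2_12_s.snd h1 h2) (l5q2_14_s.snd h1 h2))) h2)))⟩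
noncomputable def kc5q2_9_s : Sl2 kc5q2_9 := ⟨_, fun h1 h2 => (pr_sub (pr_half (c3g_s.snd h1)) (pr_scale 1 4 h1))⟩
noncomputable def kc5q2_25_s : Sl2 kc5q2_25 := ⟨_, fun h1 h2 => (pr_scale 508 415 (kc5q2_9_s.snd h1 h2))⟩
noncomputable def kc5q2_28_s : Sl2 kc5q2_28 := ⟨_, fun h1 h2 => (pr_scale 3041 83 (kc5q2_9_s.snd h1 h2))⟩
noncomputable def kc5q2_s : Sl2 kc5q2 := ⟨_, fun h1 h2 => (pr_norm (pr_case (kc5q2_9_s.snd h1 h2) (pr_case (pr_addc (kc5q2_9_s.snd h1 h2) (enc_rat _ 333 1000)) (pr_add (pr_addc (pr_scale 1951 835 (kc5q2_9_s.snd h1 h2)) (enc_rat _ 1951 1670)) (pr_cmul (enc_norm (kc5q2_3.enc h1.l h2)) (pr_norm (pr_addc (pr_scale 36902 167 (kc5q2_9_s.snd h1 h2)) (enc_rat _ 18451 167))))) (pr_case (pr_addc (kc5q2_9_s.snd h1 h2) (enc_rat _ 167 1000)) (pr_add (pr_addc (kc5q2_25_s.snd h1 h2) (enc_rat _ 331097 415000)) (pr_cmul (enc_norm (kc5q2_3.enc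 h1.l h2)) (pr_norm (pr_csub (enc_rat _ 2050213 83000) (kc5q2_28_s.snd h1 h2))))) (pr_add (pr_addc (pr_scale 409 334 (kc5q2_9_s.snd h1 h2)) (enc_rat _ 7979 10000)) (pr_cmul (enc_norm (kc5q2_3.enc h1.l h2)) (pr_norm (pr_csub (enc_rat _ 12351 500) (pr_scale 6118 167 (kc5q2_9_s.snd h1 h2)))))))) (pr_case (pr_subr 167 1000 (kc5q2_9_s.snd h1 h2)) (pr_add (pr_addc (pr_scale 1022 835 (kc5q2_9_s.snd h1 h2)) (enc_rat _ 7979 10000)) (pr_cmul (enc_norm (kc5q2_3.enc h1.l h2)) (pr_norm (pr_csub (enc_rat _ 12351 500) (pr_scale 6119 167 (kc5q2_9_s.snd h1 h2)))))) (pr_case (pr_subr 333 1000 (kc5q2_9_s.snd h1 h2)) (pr_add (pr_addc (kc5q2_25_s.snd h1 h2) (enc_rat _ 662237 830000)) (pr_cmul (enc_norm (kc5q2_3.enc h1.l h2)) (pr_norm (pr_csub (enc_rat _ 512559 20750) (kc5q2_28_s.snd h1 h2))))) (pr_add (pr_csub (enc_rat _ 2411 668) (pr_scale 2411 334 (kc5q2_9_s.snd h1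 h2))) (pr_cmul (enc_norm (kc5q2_3.enc h1.l h2)) (pr_norm (pr_csub (enc_rat _ 12501 334) (pr_scale 12501 167 (kc5q2_9_s.snd h1 h2))))))))))⟩
noncomputable def kfc53_s : Sl2 kfc53 := ⟨_, fun h1 h2 => (pr_norm (pr_sub (pr_mul (pr_norm (pr_subn 2 (ycg_s.snd h1))) (kcg_s.snd (pr_norm (pr_sub (pr_scale 1 4 (ycg_s.snd h1)) (pr_half h1))) h2)) (pr_mul (pr_norm (pr_mul (pr_norm (pr_sub (pr_nat 2 h1) (ycg_s.snd h1))) (pr_norm (pr_sub (pr_addc h1 (enc_pnc _ 3)) (pr_scale 3 2 (ycg_s.snd h1)))))) (pr_nd (pr_inv (pr_nat 4 (pr_subn 1 (ycg_s.snd h1))))))))⟩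
noncomputable def lc53_7_s : Sl2 lc53_7 := ⟨_, fun h1 h2 => (pr_half h1)⟩
noncomputable def lc53_8_s : Sl2 lc53_8 := ⟨_, fun h1 h2 => (pr_scale 1 4 (ycg_s.snd h1))⟩
noncomputable def lc53_9_s : Sl2 lc53_9 := ⟨_, fun h1 h2 => (pr_sub (lc53_7_s.snd h1 h2) (lc53_8_s.snd h1 h2))⟩
noncomputable def lc53_12_s : Sl2 lc53_12 := ⟨_, fun h1 h2 => (pr_add (pr_scale 1 4 h1) (pr_scale 3 8 (ycg_s.snd h1)))⟩
noncomputable def lc53_14_s : Sl2 lc53_14 := ⟨_, fun h1 h2 => (pr_half (lc53_9_s.snd h1 h2))⟩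
noncomputable def lc53_s : Sl2 lc53 := ⟨_, fun h1 h2 => (pr_norm (pr_sub (pr_nat 2 (txg_s.snd (pr_norm (pr_sub (lc53_8_s.snd h1 h2) (lc53_7_s.snd h1 h2))) (pr_norm (pr_add (lc53_12_s.snd h1 h2) (lc53_14_s.snd h1 h2))) h2)) (txg_s.snd (pr_norm (lc53_9_s.snd h1 h2)) (pr_norm (pr_sub (lc53_12_s.snd h1 h2) (lc53_14_s.snd h1 h2))) h2)))⟩
noncomputable def kcc53_9_s : Sl2 kcc53_9 := ⟨_, fun h1 h2 => (pr_sub (pr_half h1) (pr_scale 1 4 (ycg_s.snd h1)))⟩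
noncomputable def kcc53_25_s : Sl2 kcc53_25 := ⟨_, fun h1 h2 => (pr_scale 508 415 (kcc53_9_s.snd h1 h2))⟩
noncomputable def kcc53_28_s : Sl2 kcc53_28 := ⟨_, fun h1 h2 => (pr_scale 3041 83 (kcc53_9_s.snd h1 h2))⟩
noncomputable def kcc53_s : Sl2 kcc53 := ⟨_, fun h1 h2 => (pr_norm (pr_case (kcc53_9_s.snd h1 h2) (pr_case (pr_addc (kcc53_9_s.snd h1 h2) (enc_rat _ 333 1000)) (pr_add (pr_addc (pr_scale 1951 835 (kcc53_9_s.snd h1 h2)) (enc_rat _ 1951 1670)) (pr_cmul (enc_norm (kcc53_4.enc h1.l h2)) (pr_norm (pr_addc (pr_scale 36902 167 (kcc53_9_s.snd h1 h2)) (enc_rat _ 18451 167))))) (pr_case (pr_addc (kcc53_9_s.snd h1 h2) (enc_rat _ 167 1000)) (pr_add (pr_addc (kcc53_25_s.snd h1 h2) (enc_rat _ 331097 415000)) (pr_cmul (enc_norm (kcc53_4.enc h1.l h2)) (pr_norm (pr_csub (enc_rat _ 2050213 83000) (kcc53_28_s.snd h1 h2))))) (pr_add (pr_addc (pr_scale 409 334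 (kcc53_9_s.snd h1 h2)) (enc_rat _ 7979 10000)) (pr_cmul (enc_norm (kcc53_4.enc h1.l h2)) (pr_norm (pr_csub (enc_rat _ 12351 500) (pr_scale 6118 167 (kcc53_9_s.snd h1 h2)))))))) (pr_case (pr_subr 167 1000 (kcc53_9_s.snd h1 h2)) (pr_add (pr_addc (pr_scale 1022 835 (kcc53_9_s.snd h1 h2)) (enc_rat _ 7979 10000)) (pr_cmul (enc_norm (kcc53_4.enc h1.l h2)) (pr_norm (pr_csub (enc_rat _ 12351 500) (pr_scale 6119 167 (kcc53_9_s.snd h1 h2)))))) (pr_case (pr_subr 333 1000 (kcc53_9_s.snd h1 h2)) (pr_add (pr_addc (kcc53_25_s.snd h1 h2) (enc_rat _ 662237 830000)) (pr_cmul (enc_norm (kcc53_4.enc h1.l h2)) (pr_norm (pr_csub (enc_rat _ 512559 20750) (kcc53_28_s.snd h1 h2))))) (pr_add (pr_csub (enc_rat _ 2411 668) (pr_scale 2411 334 (kcc53_9_s.snd h1 h2))) (pr_cmul (enc_norm (kcc53_4.enc h1.l h2)) (pr_norm (pr_csub (enc_rat _ 12501 334) (pr_scale 12501 167 (kcc53_9_s.snd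 h1 h2))))))))))⟩
noncomputable def gB0q0 : Gn := ⟨ndB0q0, c1g_s, kf0q0_s, l0q0_s, false⟩
noncomputable def dB0q0 : CnW := ⟨cd0q0, kc0q0_s⟩
noncomputable def gB0q1 : Gn := ⟨ndB0q1, c1g_s, kf0q1_s, l0q1_s, false⟩
noncomputable def dB0q1 : CnW := ⟨cd0q1, kc0q1_s⟩
noncomputable def gB0q2 : Gn := ⟨ndB0q2, idf_s, kfc02_s, lc02_s, true⟩
noncomputable def dB0q2 : CnW := ⟨cd0q2, kcc02_s⟩
noncomputable def gB1q0 : Gn := ⟨ndB1q0, cv1m_s, kf1q0_s, l1q0_s, false⟩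
noncomputable def dB1q0 : CnW := ⟨cd1q0, kc1q0_s⟩
noncomputable def gB1q1 : Gn := ⟨ndB1q1, cv1m_s, kf1q1_s, l1q1_s, false⟩
noncomputable def dB1q1 : CnW := ⟨cd1q1, kc1q1_s⟩
noncomputable def gB1q2 : Gn := ⟨ndB1q2, cv1p_s, kf1q2_s, l1q2_s, false⟩
noncomputable def dB1q2 : CnW := ⟨cd1q2, kc1q2_s⟩
noncomputable def gB1q3 : Gn := ⟨ndB1q3, cv1r_s, kf1q3_s, l1q3_s, false⟩
noncomputable def dB1q3 : CnW := ⟨cd1q3, kc1q3_s⟩
noncomputable def gB2q0 : Gn := ⟨ndB2q0, cv2m_s, kf2q0_s, l2q0_s, false⟩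
noncomputable def dB2q0 : CnW := ⟨cd2q0, kc2q0_s⟩
noncomputable def gB2q1 : Gn := ⟨ndB2q1, cv2m_s, kf2q1_s, l2q1_s, false⟩
noncomputable def dB2q1 : CnW := ⟨cd2q1, kc2q1_s⟩
noncomputable def gB2q2 : Gn := ⟨ndB2q2, cv2p_s, kf2q2_s, l2q2_s, false⟩
noncomputable def dB2q2 : CnW := ⟨cd2q2, kc2q2_s⟩
noncomputable def gB2q3 : Gn := ⟨ndB2q3, cv2r_s, kf2q3_s, l2q3_s, false⟩
noncomputable def dB2q3 : CnW := ⟨cd2q3, kc2q3_s⟩
noncomputable def gB3q0 : Gn := ⟨ndB3q0, cv3m_s, kf3q0_s, l3q0_s, false⟩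
noncomputable def dB3q0 : CnW := ⟨cd3q0, kc3q0_s⟩
noncomputable def gB3q1 : Gn := ⟨ndB3q1, cv3m_s, kf3q1_s, l3q1_s, false⟩
noncomputable def dB3q1 : CnW := ⟨cd3q1, kc3q1_s⟩
noncomputable def gB3q2 : Gn := ⟨ndB3q2, cv3p_s, kf3q2_s, l3q2_s, false⟩
noncomputable def dB3q2 : CnW := ⟨cd3q2, kc3q2_s⟩
noncomputable def gB3q3 : Gn := ⟨ndB3q3, xc33_s, kfc33_s, lc33_s, false⟩
noncomputable def dB3q3 : CnW := ⟨cd3q3, kcc33_s⟩
noncomputable def gB4q0 : Gn := ⟨ndB4q0, cv4m_s, kf4q0_s, l4q0_s, false⟩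
noncomputable def dB4q0 : CnW := ⟨cd4q0, kc4q0_s⟩
noncomputable def gB4q1 : Gn := ⟨ndB4q1, cv4m_s, kf4q1_s, l4q1_s, false⟩
noncomputable def dB4q1 : CnW := ⟨cd4q1, kc4q1_s⟩
noncomputable def gB4q2 : Gn := ⟨ndB4q2, cv4p_s, kf4q2_s, l4q2_s, false⟩
noncomputable def dB4q2 : CnW := ⟨cd4q2, kc4q2_s⟩
noncomputable def gB4q3 : Gn := ⟨ndB4q3, xc43_s, kfc43_s, lc43_s, false⟩
noncomputable def dB4q3 : CnW := ⟨cd4q3, kcc43_s⟩
noncomputable def gB5q0 : Gn := ⟨ndB5q0, c3g_s, kf5q0_s, l5q0_s, false⟩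
noncomputable def dB5q0 : CnW := ⟨cd5q0, kc5q0_s⟩
noncomputable def gB5q1 : Gn := ⟨ndB5q1, c3g_s, kf5q1_s, l5q1_s, false⟩
noncomputable def dB5q1 : CnW := ⟨cd5q1, kc5q1_s⟩
noncomputable def gB5q2 : Gn := ⟨ndB5q2, c3g_s, kf5q2_s, l5q2_s, false⟩
noncomputable def dB5q2 : CnW := ⟨cd5q2, kc5q2_s⟩
noncomputable def gB5q3 : Gn := ⟨ndB5q3, idf_s, kfc53_s, lc53_s, false⟩
noncomputable def dB5q3 : CnW := ⟨cd5q3, kcc53_s⟩
noncomputable def gB0q3 : Gn := gz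
noncomputable def dB0q3 : CnW := ⟨fz2, fz2_s⟩
noncomputable def gB (j : Fin 6) (q : ℕ) : Gn :=
  match j, q with
  | 0, 0 => gB0q0
  | 0, 1 => gB0q1
  | 0, 2 => gB0q2
  | 0, 3 => gB0q3
  | 1, 0 => gB1q0
  | 1, 1 => gB1q1
  | 1, 2 => gB1q2
  | 1, 3 => gB1q3
  | 2, 0 => gB2q0
  | 2, 1 => gB2q1
  | 2, 2 => gB2q2
  | 2, 3 => gB2q3
  | 3, 0 => gB3q0
  | 3, 1 => gB3q1
  | 3, 2 => gB3q2
  | 3, 3 => gB3q3
  | 4, 0 => gB4q0
  | 4, 1 => gB4q1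
  | 4, 2 => gB4q2
  | 4, 3 => gB4q3
  | 5, 0 => gB5q0
  | 5, 1 => gB5q1
  | 5, 2 => gB5q2
  | 5, 3 => gB5q3
  | _, _ => gB0q0

noncomputable def dB (j : Fin 6) (q : ℕ) : CnW :=
  match j, q with
  | 0, 0 => dB0q0
  | 0, 1 => dB0q1
  | 0, 2 => dB0q2
  | 0, 3 => dB0q3
  | 1, 0 => dB1q0
  | 1, 1 => dB1q1
  | 1, 2 => dB1q2
  | 1, 3 => dB1q3
  | 2, 0 => dB2q0
  | 2, 1 => dB2q1
  | 2, 2 => dB2q2
  | 2, 3 => dB2q3
  | 3, 0 => dB3q0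
  | 3, 1 => dB3q1
  | 3, 2 => dB3q2
  | 3, 3 => dB3q3
  | 4, 0 => dB4q0
  | 4, 1 => dB4q1
  | 4, 2 => dB4q2
  | 4, 3 => dB4q3
  | 5, 0 => dB5q0
  | 5, 1 => dB5q1
  | 5, 2 => dB5q2
  | 5, 3 => dB5q3
  | _, _ => dB0q0

noncomputable def c0B : Fn1 := ⟨fun _ => pone, fun _ => 1, fun _ => enc_one _⟩

end Pool.Agent.Strip051.G.I72727_7625.Tab
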