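import Pool.Agent.Strip051.G.I72727_7625.StH
import Pool.Agent.Strip051.G.I72727_7625.StF

/-! # Unit strips 0 (generated) -/

set_option linter.all false
set_option maxRecDepth 100000

namespace Pool.Agent.Strip051.G.I72727_7625.Tab.St.C

open Pool.Agent.Strip051.PB Pool.Agent.Strip051.PB.T Pool.Agent.StripNear Pool.Agent.Strip051.LC
open Pool.Agent.Strip051.G.I72727_7625.Tab Pool.Agent.Strip051.G.I72727_7625.Tab.St

noncomputable def cut_A00pp_001_s1 : Cut := Cut.of [[⟨4, 0, 0, 1449551462⟩]]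

noncomputable def f_A00pp_001_s1 : ℕ → ℕ → ℕ → ℕ → Bool := onCell 0 536870912 0 536870912 780900216 37827925
    (rowF 0 true true true .up 0 0 1 (qsf 0 536870912 0 536870912 1) ndB0q0 ndB0q0 pcB1 cut_A00pp_001_s1 Ext.none)

def k0_A00pp_001_s1 : ∃ t, chk3 f_A00pp_001_s1 t 1 1 1 = true :=
  ⟨(l 4), by decide +kernel⟩

theorem c_A00pp_001_s1 : CertF 0 536870912 0 536870912 780900216 37827925 true true true .up 0 0 1
    ndB0q0 ndB0q0 pcB1 cut_A00pp_001_s1 Ext.none :=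
  certF0 (fam := true) (s1 := true) (s2 := true) (a := 0) (b := 0) (c := 1) (cn := .up) (n1 := ndB0q0) (n2 := ndB0q0) (pc := pcB1) (cut := cut_A00pp_001_s1) (xt := Ext.none) (P1 := 0) (W1 := 536870912) (P2 := 0) (W2 := 536870912) (P3 := 780900216) (W3 := 37827925)
    rfl k0_A00pp_001_s1

theorem s_A00pp_001_s1 {κ x : ℝ} (hκ : κ * h0 = ken x) (hx : ((780900216 : ℕ) : ℝ) / S ≤ x)
    (hx' : x ≤ (((780900216 : ℕ) : ℝ) + (37827925 : ℕ)) / S) :
    AltA (VFD κ) PP tK tL pcB [⟨3, 0, 0, 1449551462⟩] 0 0 1 0 0 (sgb true) (sgb true) x :=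
  strip_altAD (m := 1449551462) true rfl hκ (SH.κ0 hκ (SH.hx1 hx).le (SH.hx2 hx').le) (SH.hx1 hx).le (SH.hx2 hx') (covB00).cov (covB00).cov hx hx' c_A00pp_001_s1 cutA_nil (noExt_A)

noncomputable def cut_A00pp_001_s3 : Cut := Cut.of [[⟨3, 0, 0, 2845415833⟩]]

noncomputable def f_A00pp_001_s3 : ℕ → ℕ → ℕ → ℕ → Bool := onCell 0 536870912 0 536870912 780900216 37827925
    (rowF 0 true true true .up 0 0 1 (qsf 0 536870912 0 536870912 1) ndB0q0 ndB0q0 pcB1 cut_A00pp_001_s3 Ext.none)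

def k0_A00pp_001_s3 : ∃ t, chk3 f_A00pp_001_s3 t 1 1 1 = true :=
  ⟨(l 4), by decide +kernel⟩

theorem c_A00pp_001_s3 : CertF 0 536870912 0 536870912 780900216 37827925 true true true .up 0 0 1
    ndB0q0 ndB0q0 pcB1 cut_A00pp_001_s3 Ext.none :=
  certF0 (fam := true) (s1 := true) (s2 := true) (a := 0) (b := 0) (c := 1) (cn := .up) (n1 := ndB0q0) (n2 := ndB0q0) (pc := pcB1) (cut := cut_A00pp_001_s3) (xt := Ext.none) (P1 := 0) (W1 := 536870912) (P2 := 0) (W2 := 536870912) (P3 := 780900216) (W3 := 37827925)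
    rfl k0_A00pp_001_s3

theorem s_A00pp_001_s3 {κ x : ℝ} (hκ : κ * h0 = ken x) (hx : ((780900216 : ℕ) : ℝ) / S ≤ x)
    (hx' : x ≤ (((780900216 : ℕ) : ℝ) + (37827925 : ℕ)) / S) :
    AltA (VFD κ) PP tK tL pcB [⟨4, 0, 0, 2845415833⟩] 0 0 1 0 0 (sgb true) (sgb true) x :=
  strip_altAD (m := 2845415833) false rfl hκ (SH.κ0 hκ (SH.hx1 hx).le (SH.hx2 hx').le) (SH.hx1 hx).le (SH.hx2 hx') (covB00).cov (covB00).cov hx hx' c_A00pp_001_s3 cutA_nil (noExt_A)

noncomputable def cut_A00pp_011_s1 : Cut := Cut.of [[⟨4, 0, 0, 1449551462⟩], [⟨0, 0, 0, 67108864⟩, ⟨1, 1, 0, 67108864⟩, ⟨2, 1, 0, 67108864⟩]]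

noncomputable def f_A00pp_011_s1 : ℕ → ℕ → ℕ → ℕ → Bool := onCell 0 536870912 536870912 536870912 780900216 37827925
    (rowF 0 true true true .pnn 0 1 1 (qsf 0 536870912 536870912 536870912 1) ndB0q0 ndB0q1 pcB1 cut_A00pp_011_s1 Ext.none)

def k0_A00pp_011_s1 : ∃ t, chk3 f_A00pp_011_s1 t 1 1 1 = true :=
  ⟨(l 6), by decide +kernel⟩

theorem c_A00pp_011_s1 : CertF 0 536870912 536870912 536870912 780900216 37827925 true true true .pnn 0 1 1
    ndB0q0 ndB0q1 pcB1 cut_A00pp_011_s1 Ext.none :=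
  certF0 (fam := true) (s1 := true) (s2 := true) (a := 0) (b := 1) (c := 1) (cn := .pnn) (n1 := ndB0q0) (n2 := ndB0q1) (pc := pcB1) (cut := cut_A00pp_011_s1) (xt := Ext.none) (P1 := 0) (W1 := 536870912) (P2 := 536870912) (W2 := 536870912) (P3 := 780900216) (W3 := 37827925)
    rfl k0_A00pp_011_s1

theorem s_A00pp_011_s1 {κ x : ℝ} (hκ : κ * h0 = ken x) (hx : ((780900216 : ℕ) : ℝ) / S ≤ x)
    (hx' : x ≤ (((780900216 : ℕ) : ℝ) + (37827925 : ℕ)) / S)
    (H : CutA (VFD κ) PP tK tL pcB (Cut.of [[⟨0, 0, 0, 67108864⟩, ⟨1, 1, 0, 67108864⟩, ⟨2, 1, 0, 67108864⟩]]) 0 1 1 0 0 (sgb true) (sgb true) x) :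
    AltA (VFD κ) PP tK tL pcB [⟨3, 0, 0, 1449551462⟩] 0 1 1 0 0 (sgb true) (sgb true) x :=
  strip_altAD (m := 1449551462) true rfl hκ (SH.κ0 hκ (SH.hx1 hx).le (SH.hx2 hx').le) (SH.hx1 hx).le (SH.hx2 hx') (covB00).cov (covB01).cov hx hx' c_A00pp_011_s1 H (noExt_A)

noncomputable def cut_A00pp_011_s3 : Cut := Cut.of [[⟨3, 0, 0, 2845415833⟩], [⟨0, 0, 0, 67108864⟩, ⟨1, 1, 0, 67108864⟩, ⟨2, 1, 0, 67108864⟩]]

noncomputable def f_A00pp_011_s3 : ℕ → ℕ → ℕ → ℕ → Bool := onCell 0 536870912 536870912 536870912 780900216 37827925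
    (rowF 0 true true true .pnn 0 1 1 (qsf 0 536870912 536870912 536870912 1) ndB0q0 ndB0q1 pcB1 cut_A00pp_011_s3 Ext.none)

def k0_A00pp_011_s3 : ∃ t, chk3 f_A00pp_011_s3 t 1 1 1 = true :=
  ⟨(b (l 4) (a (b (l 4) (a (b (l 4) (a (b (l 4) (a (l 14) (l 4))) (l 4))) (l 4))) (l 4))), by decide +kernel⟩

theorem c_A00pp_011_s3 : CertF 0 536870912 536870912 536870912 780900216 37827925 true true true .pnn 0 1 1
    ndB0q0 ndB0q1 pcB1 cut_A00pp_011_s3 Ext.none :=
  certF0 (fam := true) (s1 := true) (s2 := true) (a := 0) (b := 1) (c := 1) (cn := .pnn) (n1 := ndB0q0) (n2 := ndB0q1) (pc := pcB1) (cut := cut_A00pp_011_s3) (xt := Ext.none) (P1 := 0) (W1 := 536870912) (P2 := 536870912) (W2 := 536870912) (P3 := 780900216) (W3 := 37827925)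
    rfl k0_A00pp_011_s3

theorem s_A00pp_011_s3 {κ x : ℝ} (hκ : κ * h0 = ken x) (hx : ((780900216 : ℕ) : ℝ) / S ≤ x)
    (hx' : x ≤ (((780900216 : ℕ) : ℝ) + (37827925 : ℕ)) / S)
    (H : CutA (VFD κ) PP tK tL pcB (Cut.of [[⟨0, 0, 0, 67108864⟩, ⟨1, 1, 0, 67108864⟩, ⟨2, 1, 0, 67108864⟩]]) 0 1 1 0 0 (sgb true) (sgb true) x) :
    AltA (VFD κ) PP tK tL pcB [⟨4, 0, 0, 2845415833⟩] 0 1 1 0 0 (sgb true) (sgb true) x :=
  strip_altAD (m := 2845415833) false rfl hκ (SH.κ0 hκ (SH.hx1 hx).le (SH.hx2 hx').le) (SH.hx1 hx).le (SH.hx2 hx') (covB00).cov (covB01).cov hx hx' c_A00pp_011_s3 H (noExt_A)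

noncomputable def cut_A00pp_012_s1 : Cut := Cut.of [[⟨4, 0, 0, 1449551462⟩], [⟨0, 0, 0, 67108864⟩, ⟨1, 1, 0, 67108864⟩, ⟨2, 1, 0, 67108864⟩]]

noncomputable def f_A00pp_012_s1 : ℕ → ℕ → ℕ → ℕ → Bool := onCell 0 536870912 536870912 536870912 780900216 37827925
    (rowF 0 true true true .pnp 0 1 2 (qsf 0 536870912 536870912 536870912 2) ndB0q0 ndB0q1 pcB2 cut_A00pp_012_s1 Ext.none)

def k0_A00pp_012_s1 : ∃ t, chk3 f_A00pp_012_s1 t 1 1 1 = true :=
  ⟨(l 6), by decide +kernel⟩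

theorem c_A00pp_012_s1 : CertF 0 536870912 536870912 536870912 780900216 37827925 true true true .pnp 0 1 2
    ndB0q0 ndB0q1 pcB2 cut_A00pp_012_s1 Ext.none :=
  certF0 (fam := true) (s1 := true) (s2 := true) (a := 0) (b := 1) (c := 2) (cn := .pnp) (n1 := ndB0q0) (n2 := ndB0q1) (pc := pcB2) (cut := cut_A00pp_012_s1) (xt := Ext.none) (P1 := 0) (W1 := 536870912) (P2 := 536870912) (W2 := 536870912) (P3 := 780900216) (W3 := 37827925)
    rfl k0_A00pp_012_s1

theorem s_A00pp_012_s1 {κ x : ℝ} (hκ : κ * h0 = ken x) (hx : ((780900216 : ℕ) : ℝ) / S ≤ x)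
    (hx' : x ≤ (((780900216 : ℕ) : ℝ) + (37827925 : ℕ)) / S)
    (H : CutA (VFD κ) PP tK tL pcB (Cut.of [[⟨0, 0, 0, 67108864⟩, ⟨1, 1, 0, 67108864⟩, ⟨2, 1, 0, 67108864⟩]]) 0 1 2 0 0 (sgb true) (sgb true) x) :
    AltA (VFD κ) PP tK tL pcB [⟨3, 0, 0, 1449551462⟩] 0 1 2 0 0 (sgb true) (sgb true) x :=
  strip_altAD (m := 1449551462) true rfl hκ (SH.κ0 hκ (SH.hx1 hx).le (SH.hx2 hx').le) (SH.hx1 hx).le (SH.hx2 hx') (covB00).cov (covB01).cov hx hx' c_A00pp_012_s1 H (noExt_A)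

noncomputable def cut_A00pp_012_s3 : Cut := Cut.of [[⟨3, 0, 0, 2845415833⟩], [⟨0, 0, 0, 67108864⟩, ⟨1, 1, 0, 67108864⟩, ⟨2, 1, 0, 67108864⟩]]

noncomputable def f_A00pp_012_s3 : ℕ → ℕ → ℕ → ℕ → Bool := onCell 0 536870912 536870912 536870912 780900216 37827925
    (rowF 0 true true true .pnp 0 1 2 (qsf 0 536870912 536870912 536870912 2) ndB0q0 ndB0q1 pcB2 cut_A00pp_012_s3 Ext.none)

def k0_A00pp_012_s3 : ∃ t, chk3 f_A00pp_012_s3 t 1 1 1 = true :=
  ⟨(b (l 4) (a (b (l 4) (a (a (a (b (l 1) (b (l 4) (l 14))) (l 4)) (l 4)) (l 4))) (l 4))), by decide +kernel⟩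

theorem c_A00pp_012_s3 : CertF 0 536870912 536870912 536870912 780900216 37827925 true true true .pnp 0 1 2
    ndB0q0 ndB0q1 pcB2 cut_A00pp_012_s3 Ext.none :=
  certF0 (fam := true) (s1 := true) (s2 := true) (a := 0) (b := 1) (c := 2) (cn := .pnp) (n1 := ndB0q0) (n2 := ndB0q1) (pc := pcB2) (cut := cut_A00pp_012_s3) (xt := Ext.none) (P1 := 0) (W1 := 536870912) (P2 := 536870912) (W2 := 536870912) (P3 := 780900216) (W3 := 37827925)
    rfl k0_A00pp_012_s3

theorem s_A00pp_012_s3 {κ x : ℝ} (hκ : κ * h0 = ken x) (hx : ((780900216 : ℕ) : ℝ) / S ≤ x)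
    (hx' : x ≤ (((780900216 : ℕ) : ℝ) + (37827925 : ℕ)) / S)
    (H : CutA (VFD κ) PP tK tL pcB (Cut.of [[⟨0, 0, 0, 67108864⟩, ⟨1, 1, 0, 67108864⟩, ⟨2, 1, 0, 67108864⟩]]) 0 1 2 0 0 (sgb true) (sgb true) x) :
    AltA (VFD κ) PP tK tL pcB [⟨4, 0, 0, 2845415833⟩] 0 1 2 0 0 (sgb true) (sgb true) x :=
  strip_altAD (m := 2845415833) false rfl hκ (SH.κ0 hκ (SH.hx1 hx).le (SH.hx2 hx').le) (SH.hx1 hx).le (SH.hx2 hx') (covB00).cov (covB01).cov hx hx' c_A00pp_012_s3 H (noExt_A)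

noncomputable def cut_A00pp_022_s1 : Cut := Cut.of [[⟨4, 0, 0, 1449551462⟩], [⟨0, 0, 0, 67108864⟩, ⟨1, 1, 0, 67108864⟩, ⟨2, 1, 0, 67108864⟩]]

noncomputable def f_A00pp_022_s1 : ℕ → ℕ → ℕ → ℕ → Bool := onCell 0 536870912 0 536870912 780900216 37827925
    (rowF 0 true true true .pp 0 2 2 (qsf 0 536870912 0 536870912 2) ndB0q0 ndB0q2 pcB2 cut_A00pp_022_s1 Ext.none)

def k0_A00pp_022_s1 : ∃ t, chk3 f_A00pp_022_s1 t 1 1 1 = true :=
  ⟨(l 6), by decide +kernel⟩

theorem c_A00pp_022_s1 : CertF 0 536870912 0 536870912 780900216 37827925 true true true .pp 0 2 2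
    ndB0q0 ndB0q2 pcB2 cut_A00pp_022_s1 Ext.none :=
  certF0 (fam := true) (s1 := true) (s2 := true) (a := 0) (b := 2) (c := 2) (cn := .pp) (n1 := ndB0q0) (n2 := ndB0q2) (pc := pcB2) (cut := cut_A00pp_022_s1) (xt := Ext.none) (P1 := 0) (W1 := 536870912) (P2 := 0) (W2 := 536870912) (P3 := 780900216) (W3 := 37827925)
    rfl k0_A00pp_022_s1

theorem s_A00pp_022_s1 {κ x : ℝ} (hκ : κ * h0 = ken x) (hx : ((780900216 : ℕ) : ℝ) / S ≤ x)
    (hx' : x ≤ (((780900216 : ℕ) : ℝ) + (37827925 : ℕ)) / S)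
    (H : CutA (VFD κ) PP tK tL pcB (Cut.of [[⟨0, 0, 0, 67108864⟩, ⟨1, 1, 0, 67108864⟩, ⟨2, 1, 0, 67108864⟩]]) 0 2 2 0 0 (sgb true) (sgb true) x) :
    AltA (VFD κ) PP tK tL pcB [⟨3, 0, 0, 1449551462⟩] 0 2 2 0 0 (sgb true) (sgb true) x :=
  strip_altAD (m := 1449551462) true rfl hκ (SH.κ0 hκ (SH.hx1 hx).le (SH.hx2 hx').le) (SH.hx1 hx).le (SH.hx2 hx') (covB00).cov (covB02).cov hx hx' c_A00pp_022_s1 H (noExt_A)

noncomputable def cut_A00pp_022_s3 : Cut := Cut.of [[⟨3, 0, 0, 2845415833⟩], [⟨0, 0, 0, 67108864⟩, ⟨1, 1, 0, 67108864⟩, ⟨2, 1, 0, 67108864⟩]]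

noncomputable def xt_A00pp_022_s3 : Ext := strExt dd true true true .u0 .u2 .s2 .pp 0 2 2 rfl rfl gl2 vv ndB0q0 ndB0q2

noncomputable def f_A00pp_022_s3 : ℕ → ℕ → ℕ → ℕ → Bool := onCell 0 536870912 0 536870912 780900216 37827925
    (rowF 0 true true true .pp 0 2 2 (qsf 0 536870912 0 536870912 2) ndB0q0 ndB0q2 pcB2 cut_A00pp_022_s3 xt_A00pp_022_s3)

def k0_A00pp_022_s3 : ∃ t, chk3 f_A00pp_022_s3 t 2 2 1 = true :=
  ⟨(a (b (l 6) (a (l 6) (b (l 6) (b (l 6) (a (a (l 6) (a (l 6) (l 16603968))) (a (b (l 16561856) (a (l 16573616) (l 16578392))) (b (l 16572088) (l 16628272)))))))) (b (a (l 6) (b (l 6) (a (l 6) (l 16668520)))) (a (b (a (l 6) (b (l 6) (a (l 16569104) (l 16584648)))) (a (b (a (l 16606008) (l 16620224)) (a (b (l 16584184) (l 16629992)) (b (l 16640448) (b (l 16609240) (l 16658552))))) (b (a (b (l 16587280) (l 16600376)) (b (l 16602984) (l 16616136))) (a (b (l 16656112) (b (l 16624952) (l 16674304))) (b (a (l 16626040) (l 16633968))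 (c (l 16644408) (l 16686872))))))) (b (a (b (l 16584872) (l 16628480)) (b (l 16614032) (a (l 16545840) (l 16644464)))) (a (b (b (l 16626080) (a (l 16631768) (l 16730880))) (b (a (l 533881359) (l 533358607)) (a (l 533530383) (l 16686312)))) (b (a (l 16697192) (l 16691112)) (b (a (l 16676064) (l 16691080)) (a (l 533280271) (l 533291023))))))))), by decide +kernel⟩

def k1_A00pp_022_s3 : ∃ t, chk3 f_A00pp_022_s3 t 3 2 1 = true :=
  ⟨(a (b (b (a (a (l 6) (l 16692744)) (a (l 16716928) (b (l 16646864) (l 16662296)))) (b (a (a (l 16604160) (l 16632168)) (a (l 16657168) (l 16763464))) (a (a (l 16622408) (l 16734720)) (a (a (l 16670368) (l 16682336)) (c (l 16740808) (l 16742184)))))) (a (b (a (b (l 16727256) (a (l 16659248) (l 16674152))) (b (a (l 16665200) (l 16679120)) (a (l 16688872) (l 16744984)))) (a (b (b (l 533611279) (a (l 16691808) (l 16706808))) (b (a (l 16727024) (l 533177615)) (a (l 533307919) (l 533339407)))) (b (a (c (l 16735328)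 (l 16746984)) (b (l 16764272) (l 533664015))) (c (b (a (l 533476367) (l 533535503)) (l 532585743)) (b (a (l 533535503) (l 533596687)) (l 533451535)))))) (b (a (b (a (l 16692360) (l 16704744)) (a (l 533916687) (l 533931535))) (b (l 534053135) (l 533929231))) (a (b (a (c (l 533729039) (l 533792015)) (l 533793295)) (c (a (l 532492303) (b (l 533656079) (l 4))) (a (l 533627151) (l 533668367)))) (b (l 533796367) (a (b (l 533688335) (l 4)) (l 4))))))) (b (l 2) (b (l 2) (b (l 2) (l 4))))), by decide +kernel⟩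

def k2_A00pp_022_s3 : ∃ t, chk3 f_A00pp_022_s3 t 8 12 1 = true :=
  ⟨(a (b (l 6) (b (l 6) (a (a (l 6) (b (l 6) (l 16548616))) (a (b (l 6) (l 16559224)) (b (l 16563360) (l 16569512)))))) (b (a (l 6) (b (l 6) (a (l 16568512) (l 16574696)))) (b (a (a (l 16564160) (l 16594384)) (a (a (l 16600816) (l 16562560)) (l 16588408))) (a (a (b (l 16573160) (l 16579408)) (a (l 16583424) (l 16588048))) (a (b (a (l 16589336) (l 16593624)) (l 16598008)) (b (l 16598992) (a (l 16604360) (l 16607944)))))))), by decide +kernel⟩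

def k3_A00pp_022_s3 : ∃ t, chk3 f_A00pp_022_s3 t 8 26 1 = true :=
  ⟨(a (a (a (b (b (l 16564840) (a (l 16547448) (l 16553024))) (a (c (l 16579696) (l 16577152)) (b (l 16559640) (l 16566432)))) (b (a (l 16576296) (l 16581712)) (a (b (l 16565160) (l 16571976)) (b (l 16570616) (l 16577448))))) (b (a (a (l 16587056) (l 16571360)) (c (l 16601240) (l 16598960))) (a (a (b (l 16575992) (l 16582856)) (b (l 16581296) (l 16588184))) (b (a (l 16586536) (l 16591704)) (a (l 16593448) (l 16598640)))))) (b (a (a (a (l 16607672) (l 16612600)) (a (l 16617432) (l 16622160))) (a (a (l 16626792) (l 16631320)) (b (a (l 16611288) (l 16636264)) (a (l 16618224) (l 16643520))))) (c (a (a (b (l 16600288) (l 16607248)) (b (l 16610032) (l 16617088))) (a (b (l 16619376) (l 16626544)) (b (l 16628328) (l 16635616)))) (a (a (b (l 16598320) (l 16605368)) (b (l 16608216) (l 16615368))) (a (b (l 16617712) (l 16624968)) (b (l 16626800) (l 16634176))))))), by decide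 +kernel⟩

def k4_A00pp_022_s3 : ∃ t, chk3 f_A00pp_022_s3 t 8 54 1 = true :=
  ⟨(a (a (a (a (b (l 16578200) (c (l 16575952) (l 16573656))) (b (l 16573360) (l 16590936))) (a (b (l 16578928) (l 16586048)) (b (l 16584432) (l 16591568)))) (a (b (a (l 16589856) (l 16595216)) (a (l 16597024) (l 16602400))) (b (a (l 16600504) (l 16605720)) (a (l 16607720) (l 16612968))))) (a (a (c (b (l 16614336) (l 16621600)) (a (l 16624128) (l 16629264))) (a (b (l 16620976) (l 16628320)) (b (l 16625896) (l 16633296)))) (a (a (b (l 16630720) (l 16638176)) (b (l 16635448) (l 16642968))) (a (b (l 16640080) (l 16647664)) (b (l 16644616) (l 16652256)))))), by decide +kernel⟩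

def k5_A00pp_022_s3 : ∃ t, chk3 f_A00pp_022_s3 t 16 110 2 = true :=
  ⟨(b (c (a (a (l 16584744) (l 16595872)) (a (l 16606712) (l 16617272))) (a (a (l 16583600) (l 16594800)) (a (l 16605704) (l 16616344)))) (c (a (a (l 16588400) (l 16599552)) (a (l 16610416) (l 16621008))) (c (a (a (l 16587552) (l 16598760)) (a (l 16609672) (l 16620320))) (a (a (l 16587008) (l 16598240)) (a (l 16609192) (l 16619872)))))), by decide +kernel⟩

def k6_A00pp_022_s3 : ∃ t, chk3 f_A00pp_022_s3 t 16 220 6 = true :=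
  ⟨(c (b (a (a (l 16581856) (l 16593088)) (a (l 16604040) (l 16614720))) (a (a (l 16583688) (l 16594936)) (a (l 16605896) (l 16616592)))) (b (a (a (l 16581312) (l 16592576)) (a (l 16603560) (l 16614272))) (c (b (a (a (l 16582824) (l 16594088)) (a (l 16605072) (l 16615784))) (a (a (l 16583744) (l 16595016)) (a (l 16606008) (l 16616720)))) (b (c (a (a (l 16582624) (l 16593896)) (a (l 16604896) (l 16615616))) (a (a (l 16582488) (l 16593768)) (a (l 16604776) (l 16615504)))) (c (a (a (l 16583544) (l 16594824)) (a (l 16605824) (l 16616560))) (b (a (a (l 16583184) (l 16594464)) (a (l 16605472) (l 16616208))) (a (a (l 16583640) (l 16594928)) (a (l 16605944) (l 16616680))))))))), by decide +kernel⟩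

def k7_A00pp_022_s3 : ∃ t, chk3 f_A00pp_022_s3 t 16 440 14 = true :=
  ⟨(a (a (l 16580784) (l 16592072)) (a (l 16603080) (l 16613824))), by decide +kernel⟩

def k8_A00pp_022_s3 : ∃ t, chk3 f_A00pp_022_s3 t 16 441 28 = true :=
  ⟨(b (c (b (c (a (a (l 16582160) (l 16593448)) (a (l 16604448) (l 16615184))) (a (a (l 16582096) (l 16593384)) (a (l 16604392) (l 16615128)))) (c (a (a (l 16582624) (l 16593912)) (a (l 16604920) (l 16615656))) (a (a (l 16582552) (l 16593848)) (a (l 16604856) (l 16615600))))) (b (c (a (a (l 16582032) (l 16593320)) (a (l 16604336) (l 16615080))) (a (a (l 16581960) (l 16593256)) (a (l 16604272) (l 16615024)))) (c (a (a (l 16582488) (l 16593784)) (a (l 16604800) (l 16615544))) (a (a (l 16582424) (l 16593720)) (a (l 16604744) (l 16615488)))))) (c (b (c (a (a (l 16583080) (l 16594376)) (a (l 16605384) (l 16616128))) (a (a (l 16583016) (l 16594312)) (a (l 16605328) (l 16616072)))) (c (a (a (l 16583544) (l 16594840))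 (a (l 16605856) (l 16616600))) (a (a (l 16583480) (l 16594776)) (a (l 16605792) (l 16616544))))) (b (c (a (a (l 16582952) (l 16594248)) (a (l 16605264) (l 16616016))) (a (a (l 16582888) (l 16594184)) (a (l 16605208) (l 16615960)))) (c (b (a (a (l 16583296) (l 16594600)) (a (l 16605616) (l 16616368))) (a (a (l 16583528) (l 16594832)) (a (l 16605856) (l 16616608)))) (b (a (a (l 16583232) (l 16594536)) (a (l 16605560) (l 16616312))) (a (a (l 16583464) (l 16594768)) (a (l 16605792) (l 16616552)))))))), by decide +kernel⟩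

def k9_A00pp_022_s3 : ∃ t, chk3 f_A00pp_022_s3 t 16 441 29 = true :=
  ⟨(b (c (b (c (a (a (l 16581896) (l 16593192)) (a (l 16604216) (l 16614968))) (a (a (l 16581832) (l 16593136)) (a (l 16604152) (l 16614912)))) (c (a (a (l 16582360) (l 16593656)) (a (l 16604680) (l 16615432))) (b (a (a (l 16582176) (l 16593480)) (a (l 16604504) (l 16615264))) (a (a (l 16582408) (l 16593712)) (a (l 16604736) (l 16615496)))))) (b (c (a (a (l 16581768) (l 16593072)) (a (l 16604096) (l 16614856))) (b (a (a (l 16581584) (l 16592896)) (a (l 16603920) (l 16614680))) (a (a (l 16581816) (l 16593128)) (a (l 16604152) (l 16614920))))) (c (b (a (a (l 16582112) (l 16593416)) (a (l 16604448) (l 16615208))) (a (a (l 16582344) (l 16593648)) (a (l 16604680) (l 16615440)))) (b (a (a (l 16582048) (l 16593360)) (a (l 16604392) (l 16615152))) (a (a (l 16582280) (l 16593592)) (a (l 16604624) (l 16615384))))))) (c (b (c (b (a (a (l 16582704) (l 16594008)) (a (l 16605032)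 (l 16615792))) (a (a (l 16582936) (l 16594240)) (a (l 16605264) (l 16616024)))) (b (a (a (l 16582640) (l 16593944)) (a (l 16604976) (l 16615736))) (a (a (l 16582872) (l 16594176)) (a (l 16605208) (l 16615968))))) (c (b (a (a (l 16583168) (l 16594472)) (a (l 16605504) (l 16616264))) (a (a (l 16583400) (l 16594704)) (a (l 16605736) (l 16616496)))) (b (a (a (l 16583104) (l 16594408)) (a (l 16605440) (l 16616208))) (c (a (a (l 16583352) (l 16594656)) (a (l 16605688) (l 16616456))) (a (a (l 16583320) (l 16594632)) (a (l 16605664) (l 16616424))))))) (a (a (l 16582888) (l 16594200)) (a (l 16605240) (l 16616008))))), by decide +kernel⟩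

def k10_A00pp_022_s3 : ∃ t, chk3 f_A00pp_022_s3 t 16 220 15 = true :=
  ⟨(b (a (a (l 16580256) (l 16591576)) (a (l 16602608) (l 16613376))) (c (b (c (b (c (b (a (a (l 16581520) (l 16592832)) (a (l 16603864) (l 16614624))) (a (a (l 16581752) (l 16593064)) (a (l 16604096) (l 16614864)))) (b (a (a (l 16581456) (l 16592768)) (a (l 16603800) (l 16614568))) (c (a (a (l 16581704) (l 16593016)) (a (l 16604056) (l 16614824))) (a (a (l 16581672) (l 16592984)) (a (l 16604024) (l 16614792)))))) (c (b (a (a (l 16581984) (l 16593296)) (a (l 16604328) (l 16615096))) (c (a (a (l 16582232) (l 16593544)) (a (l 16604576) (l 16615344))) (a (a (l 16582200) (l 16593512)) (a (l 16604552) (l 16615320))))) (b (c (a (a (l 16581936) (l 16593248)) (a (l 16604288) (l 16615056))) (a (a (l 16581904) (l 16593216)) (a (l 16604256) (l 16615032)))) (c (a (a (l 16582168) (l 16593480)) (a (l 16604520) (l 16615288))) (a (a (l 16582136) (l 16593448)) (a (l 16604488)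 (l 16615264))))))) (a (a (l 16581704) (l 16593024)) (a (l 16604072) (l 16614840)))) (a (a (l 16582696) (l 16594016)) (a (l 16605064) (l 16615840)))) (a (a (l 16581984) (l 16593312)) (a (l 16604368) (l 16615152))))), by decide +kernel⟩

def k11_A00pp_022_s3 : ∃ t, chk3 f_A00pp_022_s3 t 16 221 6 = true :=
  ⟨(c (b (c (a (a (l 16585664) (l 16596920)) (a (l 16607888) (l 16618584))) (a (a (l 16585400) (l 16596664)) (a (l 16607648) (l 16618360)))) (a (a (l 16587392) (l 16598664)) (a (l 16609648) (l 16620368)))) (b (c (b (a (a (l 16584672) (l 16595944)) (a (l 16606944) (l 16617664))) (a (a (l 16585592) (l 16596880)) (a (l 16607880) (l 16618608)))) (b (c (a (a (l 16584472) (l 16595752)) (a (l 16606760) (l 16617504))) (b (a (a (l 16584104) (l 16595400)) (a (l 16606408) (l 16617152))) (c (a (a (l 16584600) (l 16595896)) (a (l 16606912) (l 16617656))) (a (a (l 16584536) (l 16595832)) (a (l 16606848) (l 16617600)))))) (c (a (a (l 16585400) (l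 16596688)) (a (l 16607704) (l 16618448))) (a (a (l 16585264) (l 16596568)) (a (l 16607584) (l 16618336)))))) (c (a (a (l 16586992) (l 16598288)) (a (l 16609296) (l 16620040))) (a (a (l 16586736) (l 16598040)) (a (l 16609064) (l 16619816)))))), by decide +kernel⟩

def k12_A00pp_022_s3 : ∃ t, chk3 f_A00pp_022_s3 t 16 442 14 = true :=
  ⟨(c (b (c (b (c (a (a (l 16584008) (l 16595304)) (a (l 16606320) (l 16617072))) (b (a (a (l 16583824) (l 16595128)) (a (l 16606144) (l 16616896))) (a (a (l 16584056) (l 16595360)) (a (l 16606384) (l 16617136))))) (c (a (a (l 16584472) (l 16595768)) (a (l 16606792) (l 16617544))) (b (a (a (l 16584288) (l 16595592)) (a (l 16606616) (l 16617368))) (a (a (l 16584520) (l 16595824)) (a (l 16606848) (l 16617608)))))) (a (a (l 16584080) (l 16595384)) (a (l 16606408) (l 16617168)))) (a (a (l 16585072) (l 16596384)) (a (l 16607408) (l 16618176)))) (a (a (l 16584352) (l 16595664)) (a (l 16606712) (l 16617480)))),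 by decide +kernel⟩

def k13_A00pp_022_s3 : ∃ t, chk3 f_A00pp_022_s3 t 16 443 14 = true :=
  ⟨(c (b (a (a (l 16586008) (l 16597320)) (a (l 16608352) (l 16619120))) (c (a (a (l 16587008) (l 16598320)) (a (l 16609360) (l 16620136))) (b (c (b (c (a (a (l 16586576) (l 16597896)) (a (l 16608936) (l 16619704))) (a (a (l 16586544) (l 16597864)) (a (l 16608904) (l 16619680)))) (c (a (a (l 16586808) (l 16598128)) (a (l 16609168) (l 16619944))) (a (a (l 16586776) (l 16598096)) (a (l 16609144) (l 16619920))))) (b (c (a (a (l 16586512) (l 16597832)) (a (l 16608872) (l 16619648))) (a (a (l 16586480) (l 16597800)) (a (l 16608848) (l 16619624)))) (a (a (l 16586728) (l 16598056)) (a (l 16609096) (l 16619880))))) (a (a (l 16587112) (l 16598440)) (a (l 16609480) (l 16620264)))))) (b (c (a (a (l 16585816) (l 16597136)) (a (l 16608184) (l 16618960))) (b (c (b (c (a (a (l 16585384) (l 16596704)) (a (l 16607752) (l 16618536))) (a (a (l 16585352) (l 16596680))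 (a (l 16607728) (l 16618512)))) (a (a (l 16585600) (l 16596928)) (a (l 16607976) (l 16618760)))) (b (a (a (l 16585304) (l 16596632)) (a (l 16607680) (l 16618464))) (a (a (l 16585536) (l 16596864)) (a (l 16607920) (l 16618704))))) (a (a (l 16585920) (l 16597248)) (a (l 16608304) (l 16619088))))) (a (a (l 16586688) (l 16598016)) (a (l 16609072) (l 16619864))))), by decide +kernel⟩

def k14_A00pp_022_s3 : ∃ t, chk3 f_A00pp_022_s3 t 16 221 15 = true :=
  ⟨(b (c (b (a (a (l 16583624) (l 16594952)) (a (l 16606008) (l 16616792))) (c (a (a (l 16584624) (l 16595952)) (a (l 16607008) (l 16617792))) (b (c (b (a (a (l 16584176) (l 16595512)) (a (l 16606568) (l 16617352))) (a (a (l 16584408) (l 16595744)) (a (l 16606800) (l 16617592)))) (a (a (l 16584232) (l 16595568)) (a (l 16606624) (l 16617416)))) (a (a (l 16584728) (l 16596064)) (a (l 16607128) (l 16617920)))))) (b (c (b (c (b (a (a (l 16583120) (l 16594448)) (a (l 16605504) (l 16616296)))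 (a (a (l 16583352) (l 16594688)) (a (l 16605744) (l 16616536)))) (b (a (a (l 16583056) (l 16594392)) (a (l 16605448) (l 16616240))) (a (a (l 16583288) (l 16594624)) (a (l 16605688) (l 16616480))))) (a (a (l 16583672) (l 16595008)) (a (l 16606064) (l 16616864)))) (a (a (l 16583312) (l 16594648)) (a (l 16605720) (l 16616520)))) (a (a (l 16584312) (l 16595648)) (a (l 16606720) (l 16617520))))) (c (a (a (l 16585968) (l 16597304)) (a (l 16608376) (l 16619168))) (a (a (l 16585720) (l 16597072)) (a (l 16608144) (l 16618960))))), by decide +kernel⟩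

def k15_A00pp_022_s3 : ∃ t, chk3 f_A00pp_022_s3 t 17 110 1 = true :=
  ⟨(a (a (a (l 16625608) (l 16630752)) (a (l 16635840) (l 16640856))) (a (a (l 16656280) (l 16655888)) (a (l 16660648) (c (l 16660664) (l 16659456))))), by decide +kernel⟩

def k16_A00pp_022_s3 : ∃ t, chk3 f_A00pp_022_s3 t 16 111 2 = true :=
  ⟨(c (a (a (a (l 16591160) (l 16596824)) (l 16605192)) (a (l 16616096) (l 16626728))) (b (c (a (a (l 16591280) (l 16602504)) (a (l 16613448) (l 16624120))) (a (a (l 16590744) (l 16602000)) (a (l 16612976) (l 16623680)))) (c (a (a (l 16595064) (l 16606320)) (a (l 16617288) (l 16627984))) (a (a (l 16594536) (l 16605816)) (a (l 16616816) (l 16627544)))))), by decide +kernel⟩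

def k17_A00pp_022_s3 : ∃ t, chk3 f_A00pp_022_s3 t 16 222 3 = true :=
  ⟨(c (c (b (a (a (l 16589264) (l 16600544)) (a (l 16611544) (l 16622280))) (a (a (l 16591152) (l 16602440)) (a (l 16613456) (l 16624200)))) (b (c (a (a (l 16588872) (l 16600176)) (a (l 16611192) (l 16621952))) (a (a (l 16588616) (l 16599928)) (a (l 16610968) (l 16621736)))) (c (b (a (a (l 16590288) (l 16601592)) (a (l 16612624) (l 16623392))) (a (a (l 16591232) (l 16602552)) (a (l 16613584) (l 16624360)))) (a (a (l 16590504) (l 16601832)) (a (l 16612880) (l 16623664)))))) (c (b (c (b (c (b (c (b (c (a (a (l 16587640) (l 16598960)) (a (l 16610000) (l 16620768))) (a (a (l 16587608) (l 16598928)) (a (l 16609968) (l 16620744)))) (a (a (l 16587864) (l 16599184)) (a (l 16610224) (l 16621000)))) (b (c (a (a (l 16587576) (l 16598896)) (a (l 16609944) (l 16620720))) (a (a (l 16587544) (l 16598864)) (a (l 16609912) (l 16620688)))) (a (a (l 16587800) (l 16599120)) (a (l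 16610168) (l 16620944))))) (a (a (l 16588184) (l 16599504)) (a (l 16610552) (l 16621328)))) (a (a (l 16587824) (l 16599144)) (a (l 16610200) (l 16620984)))) (a (a (l 16588832) (l 16600160)) (a (l 16611208) (l 16622000)))) (a (a (l 16588104) (l 16599440)) (a (l 16610504) (l 16621304)))) (c (a (a (l 16590256) (l 16601592)) (a (l 16612656) (l 16623448))) (a (a (l 16590000) (l 16601352)) (a (l 16612424) (l 16623240))))) (b (c (a (a (l 16587856) (l 16599208)) (a (l 16610280) (l 16621088))) (a (a (l 16587608) (l 16598968)) (a (l 16610056) (l 16620880)))) (c (a (a (l 16589752) (l 16601112)) (a (l 16612200) (l 16623024))) (b (a (a (l 16589032) (l 16600400)) (a (l 16611496) (l 16622328))) (a (a (l 16589984) (l 16601360)) (a (l 16612464) (l 16623304)))))))), by decide +kernel⟩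

def k18_A00pp_022_s3 : ∃ t, chk3 f_A00pp_022_s3 t 16 223 3 = true :=
  ⟨(c (c (b (a (a (l 16593056) (l 16604360)) (a (l 16615384) (l 16626136))) (a (a (l 16594968) (l 16606288)) (a (l 16617320) (l 16628088)))) (b (c (a (a (l 16592664) (l 16603992)) (a (l 16615040) (l 16625816))) (a (a (l 16592416) (l 16603752)) (a (l 16614808) (l 16625600)))) (c (a (a (l 16594592) (l 16605920)) (a (l 16616984) (l 16627768))) (a (a (l 16594336) (l 16605688)) (a (l 16616752) (l 16627560)))))) (c (b (c (a (a (l 16592160) (l 16603512)) (a (l 16614584) (l 16625392))) (b (a (a (l 16591432) (l 16602792)) (a (l 16613872) (l 16624696))) (a (a (l 16592392) (l 16603760)) (a (l 16614848) (l 16625672))))) (c (b (a (a (l 16593608) (l 16604960)) (a (l 16616040) (l 16626856))) (a (a (l 16594568) (l 16605936)) (a (l 16617016) (l 16627840)))) (b (a (a (l 16593360) (l 16604728)) (a (l 16615824) (l 16626648))) (a (a (l 16594328) (l 16605696)) (a (l 16616800) (l 16627632))))))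 (b (c (b (a (a (l 16591192) (l 16602560)) (a (l 16613656) (l 16624480))) (a (a (l 16592152) (l 16603520)) (a (l 16614624) (l 16625464)))) (b (a (a (l 16590944) (l 16602328)) (a (l 16613432) (l 16624280))) (a (a (l 16591904) (l 16603296)) (a (l 16614408) (l 16625256))))) (c (b (a (a (l 16593112) (l 16604496)) (a (l 16615600) (l 16626440))) (a (a (l 16594088) (l 16605472)) (a (l 16616584) (l 16627432)))) (b (a (a (l 16592872) (l 16604264)) (a (l 16615384) (l 16626240))) (c (a (a (l 16593904) (l 16605296)) (a (l 16616416) (l 16627272))) (a (a (l 16593784) (l 16605184)) (a (l 16616312) (l 16627176))))))))), by decide +kernel⟩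

def k19_A00pp_022_s3 : ∃ t, chk3 f_A00pp_022_s3 t 17 111 1 = true :=
  ⟨(a (a (a (c (l 16634104) (l 16632464)) (b (l 16636496) (l 16640400))) (a (l 16648800) (c (l 16649336) (l 16647904)))) (a (a (c (l 16654288) (l 16652920)) (c (l 16659160) (l 16657864))) (a (c (l 16663936) (l 16662712)) (c (l 16668632) (l 16667464))))), by decide +kernel⟩

def k20_A00pp_022_s3 : ∃ t, chk3 f_A00pp_022_s3 t 9 12 1 = true :=
  ⟨(b (a (a (b (l 16569816) (l 16604568)) (b (l 16580408) (a (l 16591960) (l 16597360)))) (b (a (a (l 16588024) (l 16593008)) (a (l 16598272) (l 16603976))) (a (a (b (l 16599024) (l 16606488)) (l 16639560)) (a (l 16655440) (l 16640280))))) (a (a (b (a (l 16594680) (l 16600728)) (a (l 16609232) (l 16615592))) (b (a (l 16606544) (l 16612232)) (a (l 16642680) (l 16648680)))) (a (a (b (l 16617936) (l 16654688)) (b (b (l 16619680) (l 16648552)) (l 16650256))) (a (a (b (l 16648888) (l 533337359)) (b (l 16651736) (l 533309967))) (a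 (b (l 16654704) (l 533013263)) (b (l 16657784) (l 532986383))))))), by decide +kernel⟩

def k21_A00pp_022_s3 : ∃ t, chk3 f_A00pp_022_s3 t 18 13 1 = true :=
  ⟨(a (b (a (b (b (l 16620488) (a (l 16636928) (l 16629920))) (a (b (c (l 16645200) (l 16633280)) (l 16641496)) (b (l 16648312) (b (l 16654224) (l 16658104))))) (b (b (l 16627088) (l 16634976)) (b (l 16643016) (a (l 16659904) (l 16652912))))) (a (b (a (b (l 16649048) (l 16656752)) (b (l 16653384) (l 16671640))) (a (b (c (l 16665200) (l 16664048)) (c (l 16673232) (l 16672128))) (b (c (l 16669632) (l 16668544)) (c (l 16677728) (l 16676688))))) (b (a (b (a (l 533063695) (l 533063183)) (a (l 16664384) (l 16676992))) (b (l 16661200) (a (l 533008399) (l 533006351)))) (a (b (c (l 16673976) (l 16672936)) (c (l 16682136) (l 16681152))) (b (a (l 16676664) (l 532946959)) (c (l 16686448) (l 16685520))))))) (b (b (a (c (l 16648632) (l 16647328)) (c (l 16654928) (l 16653688))) (a (b (l 16649720)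 (l 16668536)) (b (l 16656296) (l 16670048)))) (a (b (a (b (l 16664728) (l 16673200)) (b (l 16668208) (l 16676776))) (a (b (a (l 532947215) (l 532943631)) (a (l 16694416) (l 532880399))) (b (l 16685456) (l 533144079)))) (b (a (b (l 16671672) (l 16680336)) (b (l 16675144) (l 16683904))) (a (b (l 16689112) (l 532862479)) (b (l 16692776) (l 532846351))))))), by decide +kernel⟩

def k22_A00pp_022_s3 : ∃ t, chk3 f_A00pp_022_s3 t 19 13 1 = true :=
  ⟨(a (b (a (b (b (l 16645944) (l 16654336)) (b (l 16668128) (a (l 16669872) (l 16673264)))) (b (b (l 16652240) (l 16660792)) (a (b (l 16667848) (l 16676664)) (b (l 16671184) (l 16680088))))) (b (a (a (b (l 16678616) (l 16687472)) (b (l 16682104) (l 16691048))) (a (b (l 16685600) (l 16699888)) (b (l 16694352) (l 532862735)))) (a (a (b (l 16701688) (l 532828943)) (b (l 532861199) (l 532810511))) (b (a (l 532840719) (l 532819215)) (a (l 532791055) (l 532770575)))))) (b (a (b (b (a (l 16657008) (l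 532991503)) (l 16677816)) (a (b (l 16674536) (l 16683528)) (b (l 16677912) (l 16686992)))) (b (b (a (l 532963343) (l 16677088)) (a (l 532930319) (l 532900879))) (a (b (l 16681312) (l 16695728)) (b (l 532868879) (l 16699248))))) (a (b (a (b (l 16697888) (l 532839183)) (b (l 532853007) (l 532814607))) (a (b (l 532796431) (l 532749071)) (b (l 532772879) (l 532726543)))) (b (a (b (l 532826895) (l 532789007)) (b (l 532799759) (l 532762383))) (a (b (l 532748303) (l 532702991)) (b (l 532722447) (l 532678415))))))), by decide +kernel⟩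

def k23_A00pp_022_s3 : ∃ t, chk3 f_A00pp_022_s3 t 16 28 1 = true :=
  ⟨(a (b (a (b (c (a (l 16598280) (l 16603984)) (a (l 16596216) (l 16601976))) (c (a (l 16606256) (l 16611984)) (a (l 16604272) (l 16610048)))) (a (a (b (l 16607208) (l 16615256)) (b (l 16610024) (l 16618080))) (a (b (l 16612824) (l 16620888)) (b (l 16615600) (l 16623680))))) (b (a (c (a (b (l 16612584) (l 16617032)) (l 16620536)) (a (b (l 16610664) (l 16615160)) (l 16618688))) (a (c (l 16626208) (l 16624408)) (c (l 16631808) (l 16630064)))) (a (c (b (a (l 16621648) (l 16627392)) (a (l 14) (l 16632176))) (b (a (l 16619840) (l 16625624)) (a (l 14) (l 16630472)))) (a (c (l 16635448) (l 16633768)) (c (l 16641056) (l 16639424)))))) (a (b (a (a (b (l 16618368) (l 16626456)) (b (l 16621112) (l 16629208))) (a (b (l 16623840) (l 16631952)) (b (l 16626552) (l 16634672)))) (a (a (b (l 16635088) (l 16644400)) (b (l 16637856) (l 16647160))) (a (b (l 16640600) (l 16649912))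 (b (l 16643328) (l 16652648))))) (b (a (b (c (l 16631456) (l 16629744)) (c (l 16639568) (l 16637912))) (a (b (l 16634592) (l 16642744)) (b (l 16637240) (l 16645400)))) (b (a (c (l 16648200) (l 16646624)) (c (l 16653536) (l 16652016))) (a (c (l 16657472) (l 16656000)) (c (l 16662816) (l 16661400))))))), by decide +kernel⟩

def k24_A00pp_022_s3 : ∃ t, chk3 f_A00pp_022_s3 t 16 29 1 = true :=
  ⟨(b (b (c (a (a (a (l 14) (l 16639656)) (a (c (l 16645744) (l 16644928)) (l 16650936))) (a (a (l 16656472) (l 16661944)) (a (l 16667344) (l 16672688)))) (a (a (a (l 14) (l 16638064)) (a (c (l 16644152) (l 16643424)) (l 16649432))) (a (a (l 16655024) (l 16660544)) (a (l 16666000) (l 16671400))))) (c (a (a (l 14) (a (l 16655816) (b (l 16658720) (l 16664104)))) (a (a (l 16666936) (l 16672400)) (a (l 16677800) (l 16683136)))) (a (a (l 14) (a (l 16654424) (b (l 16657336) (l 16662800)))) (a (a (l 16665640) (l 16671152)) (a (l 16676600) (l 16681992))))))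 (b (c (a (a (l 14) (a (l 14) (l 16672448))) (a (a (b (l 16675144) (l 16680784)) (l 16683408)) (a (l 16688800) (l 16699360)))) (a (a (l 14) (a (l 14) (a (l 14) (l 16672656)))) (a (a (b (l 16673960) (l 16679688)) (b (l 16679464) (l 16685184))) (a (l 16693000) (b (l 16690280) (l 16695984)))))) (a (l 14) (a (a (l 14) (a (c (l 16693592) (l 16692664)) (c (l 16696288) (l 16695384)))) (a (a (c (l 16698976) (l 16698088)) (c (l 16701640) (l 16700784))) (a (c (l 16704296) (l 16703456)) (b (l 16703552) (l 16709464)))))))), by decide +kernel⟩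

def k25_A00pp_022_s3 : ∃ t, chk3 f_A00pp_022_s3 t 34 14 1 = true :=
  ⟨(a (b (b (a (a (b (l 16639864) (l 16648048)) (b (l 16642480) (l 16650672))) (a (b (l 16645080) (l 16653288)) (b (l 16647672) (l 16655880)))) (b (a (c (l 16658808) (l 16657352)) (b (l 16661056) (l 16665576))) (a (c (l 16668096) (l 16666736)) (b (l 16670248) (l 16675072))))) (a (a (b (b (l 16678640) (c (l 16687096) (l 16685992))) (b (b (l 16694760) (l 16700416)) (b (l 16706192) (l 16712096)))) (b (b (c (l 16679280) (l 16678056)) (c (l 16689720) (l 16688640))) (b (b (l 16697392) (l 16703040)) (b (l 16708816) (l 16714712))))) (c (b (b (l 16683192) (l 16693632)) (b (c (l 16704824) (l 16704360)) (c (l 16721480) (l 16721104)))) (b (b (l 16682016) (l 16697832)) (b (c (l 16703920) (l 16703496)) (b (l 16712352) (l 16718280))))))) (b (a (b (b (b (l 16649496) (l 16653536)) (b (l 16657640) (l 16661864))) (b (c (l 16669168) (l 16667832)) (c (l 16678480) (l 16677232)))) (b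 (b (c (l 16657296) (l 16655912)) (c (l 16665536) (l 16664192))) (b (b (l 16671352) (l 16675888)) (c (l 16683576) (l 16682400))))) (c (b (a (b (l 16688360) (l 16704032)) (b (l 16693464) (b (l 16701216) (l 16706560)))) (a (b (b (l 16706936) (l 16712536)) (b (l 16718256) (l 16724088))) (b (b (l 16712032) (l 16717624)) (b (l 16723328) (l 16729160))))) (b (a (b (l 16687232) (b (l 16695096) (l 16700512))) (b (b (l 16689832) (l 16694976)) (b (l 16700256) (l 16705672)))) (a (a (b (l 16707608) (l 532223503)) (b (l 16710192) (l 531965967))) (b (b (l 16711216) (l 16716880)) (b (l 16722672) (l 16733824)))))))), by decide +kernel⟩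

def k26_A00pp_022_s3 : ∃ t, chk3 f_A00pp_022_s3 t 35 14 1 = true :=
  ⟨(b (a (a (b (b (c (l 16662288) (l 16660960)) (c (l 16670544) (l 16669272))) (b (a (b (l 16675152) (l 16679696)) (l 532729615)) (a (l 532621327) (l 532364815)))) (a (b (b (l 16665336) (l 16678888)) (b (l 532473359) (l 532377103))) (b (b (l 16667800) (l 532585999)) (b (l 532485647) (l 532389135))))) (a (a (b (b (l 16670240) (l 532598287)) (b (l 532497935) (l 532401167))) (b (b (l 16672656) (l 532610319)) (b (l 532510223) (l 532413455)))) (b (b (c (l 16676800) (l 16675680)) (c (l 16685208) (l 16689376))) (b (a (l 532522511) (l 532534543)) (a (l 532425487) (l 532437775)))))) (a (b (b (a (b (l 16695448) (l 16705800)) (a (l 532285199) (l 532296975))) (a (a (l 532175887) (l 532187407)) (a (l 532198927) (l 532210447)))) (a (b (a (l 532097039) (l 532108303)) (a (l 532027151) (l 532037903))) (b (a (l 532119311) (l 532130319)) (a (l 532048655) (l 532059151))))) (a (b (a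 (b (l 532309007) (l 532221967)) (b (l 532320783) (l 532233487))) (b (a (l 532141327) (l 532152335)) (a (l 532069903) (l 532080143)))) (b (b (a (l 532332815) (l 532344591)) (a (l 532245007) (l 532256527))) (b (a (l 532163343) (l 532174351)) (a (l 532090639) (l 532100879))))))), by decide +kernel⟩

def k27_A00pp_022_s3 : ∃ t, chk3 f_A00pp_022_s3 t 8 15 1 = true :=
  ⟨(b (a (a (l 14) (b (b (a (l 14) (a (a (b (l 16707496) (l 14)) (b (l 16710168) (l 16721512))) (a (b (l 16712824) (l 16724168)) (b (l 16715464) (l 16721560))))) (a (l 14) (a (l 14) (a (a (l 14) (l 531802127)) (a (l 531808015) (l 531813647)))))) (l 14))) (a (a (a (b (a (b (b (l 16718096) (l 16724176)) (a (l 531819535) (l 531825167))) (b (b (l 16720712) (l 16732032)) (a (l 531830799) (l 531836687)))) (b (a (a (l 14) (l 531766287)) (a (l 531772175) (l 531777807))) (l 14))) (b (a (b (b (l 16723304) (l 16734624)) (a (l 531842319) (l 531847951))) (b (b (l 16725888) (l 531899151))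 (a (l 531853327) (l 531858959)))) (a (b (a (l 531783439) (l 531789071)) (l 14)) (b (l 532065295) (a (l 531735311) (l 531740943)))))) (b (a (a (b (l 532193039) (l 531866639)) (b (l 531935503) (l 531877647))) (b (a (l 531946511) (l 531957519)) (a (l 531888655) (l 531899663)))) (a (a (b (l 531808015) (l 531748367)) (b (l 531819023) (l 531759631))) (a (b (l 531830031) (l 531770639)) (b (l 531841039) (l 531781647)))))) (a (a (b (b (a (l 531968271) (l 531979023)) (a (l 531910415) (l 531921167))) (a (b (l 531851791) (l 531792399)) (b (l 531862543) (l 531803407)))) (b (b (a (l 531989519) (l 532000015)) (a (l 531931919) (l 531942415))) (a (b (l 531873295) (l 531813903)) (l 532122383)))) (b (a (b (a (l 532010511) (l 532020751)) (a (l 531952911) (l 531963151))) (b (a (l 532030991) (l 532041231)) (a (l 531973391) (l 531983631)))) (b (a (l 532434959) (l 531918863)) (l 4)))))) (a (l 14) (a (a (l 14) (a (a (l 14) (a (l 14) (l 4))) (l 4))) (l 4)))),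 by decide +kernel⟩

def k28_A00pp_022_s3 : ∃ t, chk3 f_A00pp_022_s3 t 18 14 1 = true :=
  ⟨(a (b (a (b (a (b (c (l 16681464) (l 16680408)) (a (l 532644111) (l 532654351))) (b (c (l 16686032) (l 16685040)) (a (l 532664079) (l 532673039)))) (b (a (a (l 532546063) (l 532557071)) (a (l 532567567) (l 532577295))) (a (a (l 532449807) (l 532461839)) (a (l 532473103) (l 532483855))))) (b (b (a (c (l 16690512) (l 16694816)) (c (l 16694896) (l 16699248))) (a (a (l 532681743) (l 532689423)) (a (l 532696335) (l 532702479)))) (a (b (a (l 532586511) (l 532595215)) (l 532900623)) (b (l 532873999) (l 532514831))))) (a (a (b (b (a (l 532356623) (l 532368655)) (a (l 532268047) (l 532279567))) (b (l 532726543) (a (l 532111119) (l 532121359)))) (b (b (l 532922639) (l 532296463)) (b (l 532211983) (l 532135951)))) (a (b (a (l 532627215) (l 532638223)) (b (l 532234767) (l 532152335))) (b (b (l 532426767) (l 532341519)) (b (l 532256783) (l 532176655))))))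 (b (a (b (a (b (l 533067535) (l 532977423)) (b (l 533072399) (l 532715279))) (a (b (l 532616719) (l 532527119)) (b (l 532623887) (l 532534799)))) (b (b (a (l 533068303) (l 532786191)) (a (l 532719119) (l 532713999))) (b (a (l 532629007) (l 532631823)) (a (l 532540687) (l 532545039))))) (b (a (a (b (l 532440591) (l 532357135)) (b (l 532448783) (l 532365839))) (a (b (l 532454927) (l 532372239)) (l 532954639))) (a (a (b (l 532275983) (l 532200975)) (l 532515855)) (a (l 532254223) (l 532259599)))))), by decide +kernel⟩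

def k29_A00pp_022_s3 : ∃ t, chk3 f_A00pp_022_s3 t 19 14 1 = true :=
  ⟨(b (a (b (a (b (a (l 532769807) (l 532752399)) (a (l 532699663) (l 532683023))) (b (a (l 532733967) (l 532714511)) (a (l 532665103) (l 532646415)))) (a (b (a (l 532625935) (l 532610831)) (a (l 532547087) (l 532540175))) (b (a (l 532593423) (l 532574991)) (a (l 532524559) (l 532506383))))) (b (a (b (a (l 532694031) (l 532672783)) (a (l 532626703) (l 532606223))) (b (a (l 532650767) (l 532627471)) (a (l 532584975) (l 532562959)))) (a (b (a (l 532555791) (l 532535567)) (a (l 532487183) (l 532467215))) (b (a (l 532514575) (b (l 532510223) (l 532475663))) (a (l 532446479) (l 532424975)))))) (b (a (a (a (l 532689679) (b (l 532464143) (l 532383247))) (a (b (l 532456719) (l 532383503)) (b (l 532440335) (l 532375567)))) (a (a (l 532389391) (l 532369423)) (a (l 532348943) (l 532327439)))) (a (a (a (l 532263439) (l 532265999)) (a (l 532267279) (l 4))) (l 4)))), by decide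 +kernel⟩

def k30_A00pp_022_s3 : ∃ t, chk3 f_A00pp_022_s3 t 9 15 1 = true :=
  ⟨(b (b (a (a (a (a (b (l 532323855) (a (l 531993871) (l 532003855))) (b (l 532075279) (l 532286223))) (a (b (l 532094991) (l 532037391)) (b (l 532114191) (l 4)))) (a (b (a (l 532399887) (l 4)) (l 4)) (l 4))) (l 4)) (l 4)) (l 4)), by decide +kernel⟩

def k31_A00pp_022_s3 : ∃ t, chk3 f_A00pp_022_s3 t 10 12 1 = true :=
  ⟨(a (a (a (b (b (l 16610144) (l 16646560)) (b (c (l 16663168) (l 16662136)) (b (l 533237007) (l 533467151)))) (b (b (l 16616848) (l 533345295)) (b (b (l 16665384) (l 532973327)) (b (l 532931855) (l 533293071))))) (b (a (b (l 16666088) (l 533329423)) (b (l 16673856) (l 533058575))) (a (b (b (l 16672848) (l 532953615)) (b (l 532910351) (l 533135119))) (b (l 533239823) (b (l 532905487) (l 532861199)))))) (b (a (b (a (l 16660808) (l 16668776)) (a (l 533060111) (l 533064207))) (b (a (l 16676784) (l 16684808)) (a (l 533070351) (l 533078543))))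 (a (b (a (l 532972047) (l 532975375)) (a (b (l 532905231) (l 532860431)) (b (l 532908047) (l 532862479)))) (b (a (l 532981007) (l 532988943)) (a (b (l 532913167) (l 532867087)) (l 532897295)))))), by decide +kernel⟩

def k32_A00pp_022_s3 : ∃ t, chk3 f_A00pp_022_s3 t 20 13 1 = true :=
  ⟨(b (a (a (b (b (a (l 16680400) (l 532881423)) (a (l 532871183) (l 532844303))) (a (b (l 532838159) (l 532805903)) (b (l 532808975) (l 532774671)))) (b (b (a (l 532859919) (l 532841999)) (a (l 532820495) (l 532801039))) (b (a (l 532782863) (l 532761103)) (a (l 532745999) (l 532721935))))) (b (a (b (a (l 532828687) (l 532821007)) (a (l 532786191) (l 532777487))) (b (l 533085199) (a (l 532774415) (l 532772623)))) (a (b (a (l 532744719) (l 532734991)) (a (l 532703247) (l 532692239))) (b (a (l 532731407) (l 532729103)) (a (l 532688143) (l 532685583)))))) (a (b (a (a (b (l 532771599) (l 532734735)) (b (l 532741391) (l 532705807))) (b (a (l 532709903) (l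 532682511)) (a (l 532674575) (l 532643599)))) (a (a (b (l 532695567) (l 532652815)) (b (l 532667407) (l 532625935))) (a (b (l 532638223) (l 532598031)) (b (l 532606223) (l 532568335))))) (a (b (a (b (l 532661263) (l 532619023)) (b (l 532648719) (l 532604175))) (a (b (l 532576527) (a (l 532544527) (l 532528143))) (a (l 532807183) (l 532532751)))) (b (b (a (l 532644111) (l 532641295)) (a (l 532599055) (l 532595983))) (a (l 532797455) (l 532793871)))))), by decide +kernel⟩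

def k33_A00pp_022_s3 : ∃ t, chk3 f_A00pp_022_s3 t 21 13 1 = true :=
  ⟨(b (b (a (a (b (l 532815375) (a (l 532771599) (l 532771087))) (b (l 532816911) (l 533039887))) (a (b (l 532821007) (l 532774927)) (b (l 532827663) (l 533049359)))) (a (b (a (a (l 532727567) (l 532727055)) (a (l 532727055) (l 532727567))) (a (a (l 532683791) (l 532682767)) (a (l 532682511) (l 532682767)))) (a (b (a (l 532729103) (l 532730895)) (c (l 532690447) (l 532680463))) (b (a (l 532733711) (l 532737039)) (a (l 532687887) (l 532690703)))))) (b (a (b (a (a (l 532639247) (l 532637711)) (a (l 532637199) (l 532637199))) (a (a (l 532593423) (l 532591887)) (a (l 532590863) (l 532590607)))) (b (b (a (l 532649743) (a (l 532653071) (l 532655631))) (a (l 532626447) (c (l 532635151) (l 532628495)))) (a (l 532859407) (l 532594703)))) (a (a (a (l 532791055) (l 532789263)) (b (l 532811279) (l 532762895))) (a (a (l 532518927) (l 532519695)) (l 4))))), by decide +kernel⟩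

def k34_A00pp_022_s3 : ∃ t, chk3 f_A00pp_022_s3 t 11 6 1 = true :=
  ⟨(b (a (b (a (b (a (l 533175055) (l 533183503)) (a (l 533088271) (l 533097743))) (b (l 533188879) (a (l 533103887) (l 533104655)))) (a (b (a (l 532998671) (l 533009423)) (a (l 532906767) (l 532918031))) (b (a (l 533017615) (l 533018639)) (a (l 532929807) (l 532931087))))) (b (a (b (l 533191695) (l 533103887)) (b (l 533198095) (a (l 533106703) (l 533109007)))) (a (b (a (l 533017871) (l 533018127)) (b (l 532951311) (l 532907023))) (b (a (l 533019151) (l 533020943)) (b (l 533221391) (l 532908303)))))) (a (b (a (b (a (b (l 532836623) (l 532789519)) (l 533092367)) (a (a (b (l 532740879) (l 532694287)) (b (l 532745231) (l 532698383))) (b (l 532752911) (l 532705295)))) (b (a (a (l 532833551) (l 532841487)) (l 532841999)) (a (b (l 533301519) (l 532716815)) (b (l 533042447) (l 4))))) (b (a (a (b (c (a (b (l 532661519) (l 532638223)) (l 532652303)) (a (l 532647951) (l 532653327)))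 (a (l 532599311) (l 4))) (b (b (l 532669455) (l 4)) (l 4))) (l 4)) (l 4))) (b (b (a (a (l 532840719) (l 532840463)) (l 533109007)) (l 4)) (l 4)))), by decide +kernel⟩

def k35_A00pp_022_s3 : ∃ t, chk3 f_A00pp_022_s3 t 5 7 1 = true :=
  ⟨(a (b (a (b (a (b (a (b (a (l 532603663) (l 532578575)) (a (l 532539919) (l 532516367))) (b (a (l 532552719) (l 532525583)) (b (a (l 532509455) (l 532484367)) (l 532730127)))) (b (a (a (b (l 532487695) (a (l 532459279) (l 532447759))) (a (l 532453135) (l 532441359))) (a (l 532423183) (l 532398351))) (a (a (b (a (l 532425231) (l 532413967)) (l 532386063)) (b (c (l 532425487) (l 532367119)) (l 4))) (l 4)))) (b (a (a (b (b (l 532506895) (l 532485391)) (b (l 532457743) (l 532424463))) (a (b (b (l 532482575) (l 532463119)) (b (b (l 532447247) (l 532430863)) (l 532405263))) (b (l 532460815) (b (b (l 532430351) (a (l 532421135) (l 532415503))) (l 4))))) (b (a (l 532456719) (l 532452879)) (b (a (l 532418575)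 (l 4)) (l 4)))) (a (b (a (l 532373263) (l 4)) (l 4)) (l 4)))) (l 4)) (b (b (a (b (a (a (l 532449807) (l 532447503)) (l 4)) (l 4)) (l 4)) (l 4)) (l 4))) (l 4)) (l 4)), by decide +kernel⟩

def k36_A00pp_022_s3 : ∃ t, chk3 f_A00pp_022_s3 t 3 3 1 = true :=
  ⟨(a (b (b (a (a (b (a (b (l 533209615) (l 532843023)) (b (l 533233679) (l 533127695))) (a (b (a (l 533023247) (l 533026319)) (a (l 533202959) (l 4))) (b (l 533026831) (l 4)))) (b (c (a (l 533199119) (l 533248015)) (a (l 533258511) (l 533309711))) (l 4))) (l 4)) (l 4)) (l 4)) (l 4)), by decide +kernel⟩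

theorem t37_A00pp_022_s3 : ∃ t, chk3 f_A00pp_022_s3 t 10 13 1 = true := ex3_a k32_A00pp_022_s3 k33_A00pp_022_s3

theorem t38_A00pp_022_s3 : ∃ t, chk3 f_A00pp_022_s3 t 10 6 1 = true := ex3_b k31_A00pp_022_s3 t37_A00pp_022_s3

theorem t39_A00pp_022_s3 : ∃ t, chk3 f_A00pp_022_s3 t 5 6 1 = true := ex3_a t38_A00pp_022_s3 k34_A00pp_022_s3

theorem t40_A00pp_022_s3 : ∃ t, chk3 f_A00pp_022_s3 t 5 3 1 = true := ex3_b t39_A00pp_022_s3 k35_A00pp_022_s3

theorem t41_A00pp_022_s3 : ∃ t, chk3 f_A00pp_022_s3 t 9 14 1 = true := ex3_a k28_A00pp_022_s3 k29_A00pp_022_s3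

theorem t42_A00pp_022_s3 : ∃ t, chk3 f_A00pp_022_s3 t 9 7 1 = true := ex3_b t41_A00pp_022_s3 k30_A00pp_022_s3

theorem t43_A00pp_022_s3 : ∃ t, chk3 f_A00pp_022_s3 t 17 14 1 = true := ex3_a k25_A00pp_022_s3 k26_A00pp_022_s3

theorem t44_A00pp_022_s3 : ∃ t, chk3 f_A00pp_022_s3 t 16 14 1 = true := ex3_b k23_A00pp_022_s3 k24_A00pp_022_s3

theorem t45_A00pp_022_s3 : ∃ t, chk3 f_A00pp_022_s3 t 8 14 1 = true := ex3_a t44_A00pp_022_s3 t43_A00pp_022_s3

theorem t46_A00pp_022_s3 : ∃ t, chk3 f_A00pp_022_s3 t 8 7 1 = true := ex3_b t45_A00pp_022_s3 k27_A00pp_022_s3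

theorem t47_A00pp_022_s3 : ∃ t, chk3 f_A00pp_022_s3 t 4 7 1 = true := ex3_a t46_A00pp_022_s3 t42_A00pp_022_s3

theorem t48_A00pp_022_s3 : ∃ t, chk3 f_A00pp_022_s3 t 9 13 1 = true := ex3_a k21_A00pp_022_s3 k22_A00pp_022_s3

theorem t49_A00pp_022_s3 : ∃ t, chk3 f_A00pp_022_s3 t 9 6 1 = true := ex3_b k20_A00pp_022_s3 t48_A00pp_022_s3

theorem t50_A00pp_022_s3 : ∃ t, chk3 f_A00pp_022_s3 t 16 111 3 = true := ex3_b k17_A00pp_022_s3 k18_A00pp_022_s3

theorem t51_A00pp_022_s3 : ∃ t, chk3 f_A00pp_022_s3 t 16 111 1 = true := ex3_c k16_A00pp_022_s3 t50_A00pp_022_s3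

theorem t52_A00pp_022_s3 : ∃ t, chk3 f_A00pp_022_s3 t 8 111 1 = true := ex3_a t51_A00pp_022_s3 k19_A00pp_022_s3

theorem t53_A00pp_022_s3 : ∃ t, chk3 f_A00pp_022_s3 t 16 221 14 = true := ex3_b k12_A00pp_022_s3 k13_A00pp_022_s3

theorem t54_A00pp_022_s3 : ∃ t, chk3 f_A00pp_022_s3 t 16 221 7 = true := ex3_c t53_A00pp_022_s3 k14_A00pp_022_s3

theorem t55_A00pp_022_s3 : ∃ t, chk3 f_A00pp_022_s3 t 16 221 3 = true := ex3_c k11_A00pp_022_s3 t54_A00pp_022_s3

theorem t56_A00pp_022_s3 : ∃ t, chk3 f_A00pp_022_s3 t 16 441 14 = true := ex3_c k8_A00pp_022_s3 k9_A00pp_022_s3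

theorem t57_A00pp_022_s3 : ∃ t, chk3 f_A00pp_022_s3 t 16 220 14 = true := ex3_b k7_A00pp_022_s3 t56_A00pp_022_s3

theorem t58_A00pp_022_s3 : ∃ t, chk3 f_A00pp_022_s3 t 16 220 7 = true := ex3_c t57_A00pp_022_s3 k10_A00pp_022_s3

theorem t59_A00pp_022_s3 : ∃ t, chk3 f_A00pp_022_s3 t 16 220 3 = true := ex3_c k6_A00pp_022_s3 t58_A00pp_022_s3

theorem t60_A00pp_022_s3 : ∃ t, chk3 f_A00pp_022_s3 t 16 110 3 = true := ex3_b t59_A00pp_022_s3 t55_A00pp_022_s3

theorem t61_A00pp_022_s3 : ∃ t, chk3 f_A00pp_022_s3 t 16 110 1 = true := ex3_c k5_A00pp_022_s3 t60_A00pp_022_s3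

theorem t62_A00pp_022_s3 : ∃ t, chk3 f_A00pp_022_s3 t 8 110 1 = true := ex3_a t61_A00pp_022_s3 k15_A00pp_022_s3

theorem t63_A00pp_022_s3 : ∃ t, chk3 f_A00pp_022_s3 t 8 55 1 = true := ex3_b t62_A00pp_022_s3 t52_A00pp_022_s3

theorem t64_A00pp_022_s3 : ∃ t, chk3 f_A00pp_022_s3 t 8 27 1 = true := ex3_b k4_A00pp_022_s3 t63_A00pp_022_s3

theorem t65_A00pp_022_s3 : ∃ t, chk3 f_A00pp_022_s3 t 8 13 1 = true := ex3_b k3_A00pp_022_s3 t64_A00pp_022_s3

theorem t66_A00pp_022_s3 : ∃ t, chk3 f_A00pp_022_s3 t 8 6 1 = true := ex3_b k2_A00pp_022_s3 t65_A00pp_022_s3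

theorem t67_A00pp_022_s3 : ∃ t, chk3 f_A00pp_022_s3 t 4 6 1 = true := ex3_a t66_A00pp_022_s3 t49_A00pp_022_s3

theorem t68_A00pp_022_s3 : ∃ t, chk3 f_A00pp_022_s3 t 4 3 1 = true := ex3_b t67_A00pp_022_s3 t47_A00pp_022_s3

theorem t69_A00pp_022_s3 : ∃ t, chk3 f_A00pp_022_s3 t 2 3 1 = true := ex3_a t68_A00pp_022_s3 t40_A00pp_022_s3

theorem t70_A00pp_022_s3 : ∃ t, chk3 f_A00pp_022_s3 t 1 3 1 = true := ex3_a t69_A00pp_022_s3 k36_A00pp_022_s3

theorem t71_A00pp_022_s3 : ∃ t, chk3 f_A00pp_022_s3 t 1 2 1 = true := ex3_a k0_A00pp_022_s3 k1_A00pp_022_s3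

theorem t72_A00pp_022_s3 : ∃ t, chk3 f_A00pp_022_s3 t 1 1 1 = true := ex3_b t71_A00pp_022_s3 t70_A00pp_022_s3

theorem c_A00pp_022_s3 : CertF 0 536870912 0 536870912 780900216 37827925 true true true .pp 0 2 2
    ndB0q0 ndB0q2 pcB2 cut_A00pp_022_s3 xt_A00pp_022_s3 :=
  certF0 (fam := true) (s1 := true) (s2 := true) (a := 0) (b := 2) (c := 2) (cn := .pp) (n1 := ndB0q0) (n2 := ndB0q2) (pc := pcB2) (cut := cut_A00pp_022_s3) (xt := xt_A00pp_022_s3) (P1 := 0) (W1 := 536870912) (P2 := 0) (W2 := 536870912) (P3 := 780900216) (W3 := 37827925)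
    rfl t72_A00pp_022_s3

theorem s_A00pp_022_s3 {κ x : ℝ} (hκ : κ * h0 = ken x) (hx : ((780900216 : ℕ) : ℝ) / S ≤ x)
    (hx' : x ≤ (((780900216 : ℕ) : ℝ) + (37827925 : ℕ)) / S)
    (H : CutA (VFD κ) PP tK tL pcB (Cut.of [[⟨0, 0, 0, 67108864⟩, ⟨1, 1, 0, 67108864⟩, ⟨2, 1, 0, 67108864⟩]]) 0 2 2 0 0 (sgb true) (sgb true) x) :
    AltA (VFD κ) PP tK tL pcB [⟨4, 0, 0, 2845415833⟩] 0 2 2 0 0 (sgb true) (sgb true) x :=
  strip_altAD (m := 2845415833) false rfl hκ (SH.κ0 hκ (SH.hx1 hx).le (SH.hx2 hx').le) (SH.hx1 hx).le (SH.hx2 hx') (covB00).cov (covB02).cov hx hx' c_A00pp_022_s3 H ((okx hx hx').extA (T := tt) (sideB hx hx') hκ rfl rfl (.O 0 true) (.O 2 true) (Or.inl rfl))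

noncomputable def cut_A00pp_023_s1 : Cut := Cut.of [[⟨4, 0, 0, 1449551462⟩]]

noncomputable def f_A00pp_023_s1 : ℕ → ℕ → ℕ → ℕ → Bool := onCell 0 536870912 0 536870912 780900216 37827925
    (rowF 0 true true true .up 0 2 3 (qsf 0 536870912 0 536870912 3) ndB0q0 ndB0q2 pcB3 cut_A00pp_023_s1 Ext.none)

def k0_A00pp_023_s1 : ∃ t, chk3 f_A00pp_023_s1 t 1 1 1 = true :=
  ⟨(l 6), by decide +kernel⟩

theorem c_A00pp_023_s1 : CertF 0 536870912 0 536870912 780900216 37827925 true true true .up 0 2 3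
    ndB0q0 ndB0q2 pcB3 cut_A00pp_023_s1 Ext.none :=
  certF0 (fam := true) (s1 := true) (s2 := true) (a := 0) (b := 2) (c := 3) (cn := .up) (n1 := ndB0q0) (n2 := ndB0q2) (pc := pcB3) (cut := cut_A00pp_023_s1) (xt := Ext.none) (P1 := 0) (W1 := 536870912) (P2 := 0) (W2 := 536870912) (P3 := 780900216) (W3 := 37827925)
    rfl k0_A00pp_023_s1

theorem s_A00pp_023_s1 {κ x : ℝ} (hκ : κ * h0 = ken x) (hx : ((780900216 : ℕ) : ℝ) / S ≤ x)
    (hx' : x ≤ (((780900216 : ℕ) : ℝ) + (37827925 : ℕ)) / S) :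
    AltA (VFD κ) PP tK tL pcB [⟨3, 0, 0, 1449551462⟩] 0 2 3 0 0 (sgb true) (sgb true) x :=
  strip_altAD (m := 1449551462) true rfl hκ (SH.κ0 hκ (SH.hx1 hx).le (SH.hx2 hx').le) (SH.hx1 hx).le (SH.hx2 hx') (covB00).cov (covB02).cov hx hx' c_A00pp_023_s1 cutA_nil (noExt_A)

noncomputable def cut_A00pp_023_s3 : Cut := Cut.of [[⟨3, 0, 0, 2845415833⟩]]

noncomputable def xt_A00pp_023_s3 : Ext := strExt dd true true true .u0 .u2 .s2 .up 0 2 3 rfl rfl gl3 vv ndB0q0 ndB0q2

noncomputable def f_A00pp_023_s3 : ℕ → ℕ → ℕ → ℕ → Bool := onCell 1610612736 536870912 0 536870912 780900216 37827925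
    (rowF 2 true true true .up 0 2 3 (qsf 0 536870912 0 536870912 3) ndB0q0 ndB0q2 pcB3 cut_A00pp_023_s3 xt_A00pp_023_s3)

def k0_A00pp_023_s3 : ∃ t, chk3 f_A00pp_023_s3 t 1 1 1 = true :=
  ⟨(a (b (a (b (a (b (a (a (l 16640992) (l 16655496)) (a (l 16752696) (l 16764928))) (b (a (a (l 16671432) (l 16685240)) (a (l 16698112) (l 16752152))) (a (a (l 16779704) (l 16751192)) (b (l 534161167) (l 534084111))))) (a (b (a (l 16744768) (b (l 16693928) (l 16712136))) (b (a (l 16763664) (l 534312463)) (b (a (l 534169103) (l 534157583)) (a (l 534068495) (l 534056719))))) (b (b (l 534605583) (l 534485519)) (b (a (l 534302991) (l 534333455)) (a (l 534085391) (l 534136847)))))) (a (b (a (b (a (l 533906959) (l 533953551)) (l 533807631)) (b (b (l 534020879) (l 533962511)) (l 533870607))) (b (a (l 533676047) (l 4)) (l 4))) (b (b (a (a (l 533983759) (l 534589967)) (l 4)) (l 4)) (l 4)))) (b (a (b (a (a (l 534654223) (l 534712847)) (l 2)) (a (b (l 534458127)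 (l 534259727)) (l 2))) (l 2)) (l 4))) (l 4)) (l 2)), by decide +kernel⟩

theorem c_A00pp_023_s3 : CertF 0 536870912 0 536870912 780900216 37827925 true true true .up 0 2 3
    ndB0q0 ndB0q2 pcB3 cut_A00pp_023_s3 xt_A00pp_023_s3 :=
  certF2 (fam := true) (s1 := true) (s2 := true) (a := 0) (b := 2) (c := 3) (cn := .up) (n1 := ndB0q0) (n2 := ndB0q2) (pc := pcB3) (cut := cut_A00pp_023_s3) (xt := xt_A00pp_023_s3) (P1 := 0) (W1 := 536870912) (P2 := 0) (W2 := 536870912) (P3 := 780900216) (W3 := 37827925)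
    rfl (fun _ => rfl) k0_A00pp_023_s3

theorem s_A00pp_023_s3 {κ x : ℝ} (hκ : κ * h0 = ken x) (hx : ((780900216 : ℕ) : ℝ) / S ≤ x)
    (hx' : x ≤ (((780900216 : ℕ) : ℝ) + (37827925 : ℕ)) / S) :
    AltA (VFD κ) PP tK tL pcB [⟨4, 0, 0, 2845415833⟩] 0 2 3 0 0 (sgb true) (sgb true) x :=
  strip_altAD (m := 2845415833) false rfl hκ (SH.κ0 hκ (SH.hx1 hx).le (SH.hx2 hx').le) (SH.hx1 hx).le (SH.hx2 hx') (covB00).cov (covB02).cov hx hx' c_A00pp_023_s3 cutA_nil ((okx hx hx').extA (T := tt) (sideB hx hx') hκ rfl rfl (.O 0 true) (.O 2 true) (Or.inr rfl))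

noncomputable def cut_A00pp_101_s1 : Cut := Cut.of [[⟨4, 0, 0, 1449551462⟩]]

noncomputable def f_A00pp_101_s1 : ℕ → ℕ → ℕ → ℕ → Bool := onCell 536870912 536870912 0 536870912 780900216 37827925
    (rowF 0 true true true .npn 1 0 1 (qsf 536870912 536870912 0 536870912 1) ndB0q1 ndB0q0 pcB1 cut_A00pp_101_s1 Ext.none)

def k0_A00pp_101_s1 : ∃ t, chk3 f_A00pp_101_s1 t 1 1 1 = true :=
  ⟨(l 6), by decide +kernel⟩

theorem c_A00pp_101_s1 : CertF 536870912 536870912 0 536870912 780900216 37827925 true true true .npn 1 0 1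
    ndB0q1 ndB0q0 pcB1 cut_A00pp_101_s1 Ext.none :=
  certF0 (fam := true) (s1 := true) (s2 := true) (a := 1) (b := 0) (c := 1) (cn := .npn) (n1 := ndB0q1) (n2 := ndB0q0) (pc := pcB1) (cut := cut_A00pp_101_s1) (xt := Ext.none) (P1 := 536870912) (W1 := 536870912) (P2 := 0) (W2 := 536870912) (P3 := 780900216) (W3 := 37827925)
    rfl k0_A00pp_101_s1

theorem s_A00pp_101_s1 {κ x : ℝ} (hκ : κ * h0 = ken x) (hx : ((780900216 : ℕ) : ℝ) / S ≤ x)
    (hx' : x ≤ (((780900216 : ℕ) : ℝ) + (37827925 : ℕ)) / S) :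
    AltA (VFD κ) PP tK tL pcB [⟨3, 0, 0, 1449551462⟩] 1 0 1 0 0 (sgb true) (sgb true) x :=
  strip_altAD (m := 1449551462) true rfl hκ (SH.κ0 hκ (SH.hx1 hx).le (SH.hx2 hx').le) (SH.hx1 hx).le (SH.hx2 hx') (covB01).cov (covB00).cov hx hx' c_A00pp_101_s1 cutA_nil (noExt_A)

noncomputable def cut_A00pp_101_s3 : Cut := Cut.of [[⟨3, 0, 0, 2845415833⟩]]

noncomputable def f_A00pp_101_s3 : ℕ → ℕ → ℕ → ℕ → Bool := onCell 536870912 536870912 0 536870912 780900216 37827925
    (rowF 0 true true true .npn 1 0 1 (qsf 536870912 536870912 0 536870912 1) ndB0q1 ndB0q0 pcB1 cut_A00pp_101_s3 Ext.none)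

def k0_A00pp_101_s3 : ∃ t, chk3 f_A00pp_101_s3 t 1 1 1 = true :=
  ⟨(a (l 4) (l 5)), by decide +kernel⟩

theorem c_A00pp_101_s3 : CertF 536870912 536870912 0 536870912 780900216 37827925 true true true .npn 1 0 1
    ndB0q1 ndB0q0 pcB1 cut_A00pp_101_s3 Ext.none :=
  certF0 (fam := true) (s1 := true) (s2 := true) (a := 1) (b := 0) (c := 1) (cn := .npn) (n1 := ndB0q1) (n2 := ndB0q0) (pc := pcB1) (cut := cut_A00pp_101_s3) (xt := Ext.none) (P1 := 536870912) (W1 := 536870912) (P2 := 0) (W2 := 536870912) (P3 := 780900216) (W3 := 37827925)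
    rfl k0_A00pp_101_s3

theorem s_A00pp_101_s3 {κ x : ℝ} (hκ : κ * h0 = ken x) (hx : ((780900216 : ℕ) : ℝ) / S ≤ x)
    (hx' : x ≤ (((780900216 : ℕ) : ℝ) + (37827925 : ℕ)) / S) :
    AltA (VFD κ) PP tK tL pcB [⟨4, 0, 0, 2845415833⟩] 1 0 1 0 0 (sgb true) (sgb true) x :=
  strip_altAD (m := 2845415833) false rfl hκ (SH.κ0 hκ (SH.hx1 hx).le (SH.hx2 hx').le) (SH.hx1 hx).le (SH.hx2 hx') (covB01).cov (covB00).cov hx hx' c_A00pp_101_s3 cutA_nil (noExt_A)

noncomputable def cut_A00pp_102_s1 : Cut := Cut.of [[⟨4, 0, 0, 1449551462⟩]]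

noncomputable def f_A00pp_102_s1 : ℕ → ℕ → ℕ → ℕ → Bool := onCell 536870912 536870912 0 536870912 780900216 37827925
    (rowF 0 true true true .npp 1 0 2 (qsf 536870912 536870912 0 536870912 2) ndB0q1 ndB0q0 pcB2 cut_A00pp_102_s1 Ext.none)

def k0_A00pp_102_s1 : ∃ t, chk3 f_A00pp_102_s1 t 1 1 1 = true :=
  ⟨(l 6), by decide +kernel⟩

theorem c_A00pp_102_s1 : CertF 536870912 536870912 0 536870912 780900216 37827925 true true true .npp 1 0 2
    ndB0q1 ndB0q0 pcB2 cut_A00pp_102_s1 Ext.none :=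
  certF0 (fam := true) (s1 := true) (s2 := true) (a := 1) (b := 0) (c := 2) (cn := .npp) (n1 := ndB0q1) (n2 := ndB0q0) (pc := pcB2) (cut := cut_A00pp_102_s1) (xt := Ext.none) (P1 := 536870912) (W1 := 536870912) (P2 := 0) (W2 := 536870912) (P3 := 780900216) (W3 := 37827925)
    rfl k0_A00pp_102_s1

theorem s_A00pp_102_s1 {κ x : ℝ} (hκ : κ * h0 = ken x) (hx : ((780900216 : ℕ) : ℝ) / S ≤ x)
    (hx' : x ≤ (((780900216 : ℕ) : ℝ) + (37827925 : ℕ)) / S) :
    AltA (VFD κ) PP tK tL pcB [⟨3, 0, 0, 1449551462⟩] 1 0 2 0 0 (sgb true) (sgb true) x :=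
  strip_altAD (m := 1449551462) true rfl hκ (SH.κ0 hκ (SH.hx1 hx).le (SH.hx2 hx').le) (SH.hx1 hx).le (SH.hx2 hx') (covB01).cov (covB00).cov hx hx' c_A00pp_102_s1 cutA_nil (noExt_A)

noncomputable def cut_A00pp_102_s3 : Cut := Cut.of [[⟨3, 0, 0, 2845415833⟩]]

noncomputable def f_A00pp_102_s3 : ℕ → ℕ → ℕ → ℕ → Bool := onCell 536870912 536870912 0 536870912 780900216 37827925
    (rowF 0 true true true .npp 1 0 2 (qsf 536870912 536870912 0 536870912 2) ndB0q1 ndB0q0 pcB2 cut_A00pp_102_s3 Ext.none)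

def k0_A00pp_102_s3 : ∃ t, chk3 f_A00pp_102_s3 t 1 1 1 = true :=
  ⟨(a (l 4) (l 5)), by decide +kernel⟩

theorem c_A00pp_102_s3 : CertF 536870912 536870912 0 536870912 780900216 37827925 true true true .npp 1 0 2
    ndB0q1 ndB0q0 pcB2 cut_A00pp_102_s3 Ext.none :=
  certF0 (fam := true) (s1 := true) (s2 := true) (a := 1) (b := 0) (c := 2) (cn := .npp) (n1 := ndB0q1) (n2 := ndB0q0) (pc := pcB2) (cut := cut_A00pp_102_s3) (xt := Ext.none) (P1 := 536870912) (W1 := 536870912) (P2 := 0) (W2 := 536870912) (P3 := 780900216) (W3 := 37827925)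
    rfl k0_A00pp_102_s3

theorem s_A00pp_102_s3 {κ x : ℝ} (hκ : κ * h0 = ken x) (hx : ((780900216 : ℕ) : ℝ) / S ≤ x)
    (hx' : x ≤ (((780900216 : ℕ) : ℝ) + (37827925 : ℕ)) / S) :
    AltA (VFD κ) PP tK tL pcB [⟨4, 0, 0, 2845415833⟩] 1 0 2 0 0 (sgb true) (sgb true) x :=
  strip_altAD (m := 2845415833) false rfl hκ (SH.κ0 hκ (SH.hx1 hx).le (SH.hx2 hx').le) (SH.hx1 hx).le (SH.hx2 hx') (covB01).cov (covB00).cov hx hx' c_A00pp_102_s3 cutA_nil (noExt_A)

noncomputable def cut_A00pp_112_s1 : Cut := Cut.of [[⟨4, 0, 0, 1449551462⟩]]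

noncomputable def f_A00pp_112_s1 : ℕ → ℕ → ℕ → ℕ → Bool := onCell 536870912 536870912 536870912 536870912 780900216 37827925
    (rowF 0 true true true .dn 1 1 2 (qsf 536870912 536870912 536870912 536870912 2) ndB0q1 ndB0q1 pcB2 cut_A00pp_112_s1 Ext.none)

def k0_A00pp_112_s1 : ∃ t, chk3 f_A00pp_112_s1 t 1 1 1 = true :=
  ⟨(l 4), by decide +kernel⟩

theorem c_A00pp_112_s1 : CertF 536870912 536870912 536870912 536870912 780900216 37827925 true true true .dn 1 1 2
    ndB0q1 ndB0q1 pcB2 cut_A00pp_112_s1 Ext.none :=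
  certF0 (fam := true) (s1 := true) (s2 := true) (a := 1) (b := 1) (c := 2) (cn := .dn) (n1 := ndB0q1) (n2 := ndB0q1) (pc := pcB2) (cut := cut_A00pp_112_s1) (xt := Ext.none) (P1 := 536870912) (W1 := 536870912) (P2 := 536870912) (W2 := 536870912) (P3 := 780900216) (W3 := 37827925)
    rfl k0_A00pp_112_s1

theorem s_A00pp_112_s1 {κ x : ℝ} (hκ : κ * h0 = ken x) (hx : ((780900216 : ℕ) : ℝ) / S ≤ x)
    (hx' : x ≤ (((780900216 : ℕ) : ℝ) + (37827925 : ℕ)) / S) :
    AltA (VFD κ) PP tK tL pcB [⟨3, 0, 0, 1449551462⟩] 1 1 2 0 0 (sgb true) (sgb true) x :=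
  strip_altAD (m := 1449551462) true rfl hκ (SH.κ0 hκ (SH.hx1 hx).le (SH.hx2 hx').le) (SH.hx1 hx).le (SH.hx2 hx') (covB01).cov (covB01).cov hx hx' c_A00pp_112_s1 cutA_nil (noExt_A)

noncomputable def cut_A00pp_112_s3 : Cut := Cut.of [[⟨3, 0, 0, 2845415833⟩]]

noncomputable def f_A00pp_112_s3 : ℕ → ℕ → ℕ → ℕ → Bool := onCell 536870912 536870912 536870912 536870912 780900216 37827925
    (rowF 0 true true true .dn 1 1 2 (qsf 536870912 536870912 536870912 536870912 2) ndB0q1 ndB0q1 pcB2 cut_A00pp_112_s3 Ext.none)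

def k0_A00pp_112_s3 : ∃ t, chk3 f_A00pp_112_s3 t 1 1 1 = true :=
  ⟨(l 4), by decide +kernel⟩

theorem c_A00pp_112_s3 : CertF 536870912 536870912 536870912 536870912 780900216 37827925 true true true .dn 1 1 2
    ndB0q1 ndB0q1 pcB2 cut_A00pp_112_s3 Ext.none :=
  certF0 (fam := true) (s1 := true) (s2 := true) (a := 1) (b := 1) (c := 2) (cn := .dn) (n1 := ndB0q1) (n2 := ndB0q1) (pc := pcB2) (cut := cut_A00pp_112_s3) (xt := Ext.none) (P1 := 536870912) (W1 := 536870912) (P2 := 536870912) (W2 := 536870912) (P3 := 780900216) (W3 := 37827925)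
    rfl k0_A00pp_112_s3

theorem s_A00pp_112_s3 {κ x : ℝ} (hκ : κ * h0 = ken x) (hx : ((780900216 : ℕ) : ℝ) / S ≤ x)
    (hx' : x ≤ (((780900216 : ℕ) : ℝ) + (37827925 : ℕ)) / S) :
    AltA (VFD κ) PP tK tL pcB [⟨4, 0, 0, 2845415833⟩] 1 1 2 0 0 (sgb true) (sgb true) x :=
  strip_altAD (m := 2845415833) false rfl hκ (SH.κ0 hκ (SH.hx1 hx).le (SH.hx2 hx').le) (SH.hx1 hx).le (SH.hx2 hx') (covB01).cov (covB01).cov hx hx' c_A00pp_112_s3 cutA_nil (noExt_A)

noncomputable def cut_A00pp_113_s1 : Cut := Cut.of [[⟨4, 0, 0, 1449551462⟩]]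

noncomputable def f_A00pp_113_s1 : ℕ → ℕ → ℕ → ℕ → Bool := onCell 536870912 536870912 536870912 536870912 780900216 37827925
    (rowF 0 true true true .nn 1 1 3 (qsf 536870912 536870912 536870912 536870912 3) ndB0q1 ndB0q1 pcB3 cut_A00pp_113_s1 Ext.none)

def k0_A00pp_113_s1 : ∃ t, chk3 f_A00pp_113_s1 t 1 1 1 = true :=
  ⟨(l 4), by decide +kernel⟩

theorem c_A00pp_113_s1 : CertF 536870912 536870912 536870912 536870912 780900216 37827925 true true true .nn 1 1 3
    ndB0q1 ndB0q1 pcB3 cut_A00pp_113_s1 Ext.none :=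
  certF0 (fam := true) (s1 := true) (s2 := true) (a := 1) (b := 1) (c := 3) (cn := .nn) (n1 := ndB0q1) (n2 := ndB0q1) (pc := pcB3) (cut := cut_A00pp_113_s1) (xt := Ext.none) (P1 := 536870912) (W1 := 536870912) (P2 := 536870912) (W2 := 536870912) (P3 := 780900216) (W3 := 37827925)
    rfl k0_A00pp_113_s1

theorem s_A00pp_113_s1 {κ x : ℝ} (hκ : κ * h0 = ken x) (hx : ((780900216 : ℕ) : ℝ) / S ≤ x)
    (hx' : x ≤ (((780900216 : ℕ) : ℝ) + (37827925 : ℕ)) / S) :
    AltA (VFD κ) PP tK tL pcB [⟨3, 0, 0, 1449551462⟩] 1 1 3 0 0 (sgb true) (sgb true) x :=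
  strip_altAD (m := 1449551462) true rfl hκ (SH.κ0 hκ (SH.hx1 hx).le (SH.hx2 hx').le) (SH.hx1 hx).le (SH.hx2 hx') (covB01).cov (covB01).cov hx hx' c_A00pp_113_s1 cutA_nil (noExt_A)

noncomputable def cut_A00pp_113_s3 : Cut := Cut.of [[⟨3, 0, 0, 2845415833⟩]]

noncomputable def f_A00pp_113_s3 : ℕ → ℕ → ℕ → ℕ → Bool := onCell 536870912 536870912 536870912 536870912 780900216 37827925
    (rowF 0 true true true .nn 1 1 3 (qsf 536870912 536870912 536870912 536870912 3) ndB0q1 ndB0q1 pcB3 cut_A00pp_113_s3 Ext.none)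

def k0_A00pp_113_s3 : ∃ t, chk3 f_A00pp_113_s3 t 1 1 1 = true :=
  ⟨(l 4), by decide +kernel⟩

theorem c_A00pp_113_s3 : CertF 536870912 536870912 536870912 536870912 780900216 37827925 true true true .nn 1 1 3
    ndB0q1 ndB0q1 pcB3 cut_A00pp_113_s3 Ext.none :=
  certF0 (fam := true) (s1 := true) (s2 := true) (a := 1) (b := 1) (c := 3) (cn := .nn) (n1 := ndB0q1) (n2 := ndB0q1) (pc := pcB3) (cut := cut_A00pp_113_s3) (xt := Ext.none) (P1 := 536870912) (W1 := 536870912) (P2 := 536870912) (W2 := 536870912) (P3 := 780900216) (W3 := 37827925)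
    rfl k0_A00pp_113_s3

theorem s_A00pp_113_s3 {κ x : ℝ} (hκ : κ * h0 = ken x) (hx : ((780900216 : ℕ) : ℝ) / S ≤ x)
    (hx' : x ≤ (((780900216 : ℕ) : ℝ) + (37827925 : ℕ)) / S) :
    AltA (VFD κ) PP tK tL pcB [⟨4, 0, 0, 2845415833⟩] 1 1 3 0 0 (sgb true) (sgb true) x :=
  strip_altAD (m := 2845415833) false rfl hκ (SH.κ0 hκ (SH.hx1 hx).le (SH.hx2 hx').le) (SH.hx1 hx).le (SH.hx2 hx') (covB01).cov (covB01).cov hx hx' c_A00pp_113_s3 cutA_nil (noExt_A)

noncomputable def cut_A00pp_123_s1 : Cut := Cut.of [[⟨4, 0, 0, 1449551462⟩]]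

noncomputable def f_A00pp_123_s1 : ℕ → ℕ → ℕ → ℕ → Bool := onCell 536870912 536870912 0 536870912 780900216 37827925
    (rowF 0 true true true .npn 1 2 3 (qsf 536870912 536870912 0 536870912 3) ndB0q1 ndB0q2 pcB3 cut_A00pp_123_s1 Ext.none)

def k0_A00pp_123_s1 : ∃ t, chk3 f_A00pp_123_s1 t 1 1 1 = true :=
  ⟨(l 6), by decide +kernel⟩

theorem c_A00pp_123_s1 : CertF 536870912 536870912 0 536870912 780900216 37827925 true true true .npn 1 2 3
    ndB0q1 ndB0q2 pcB3 cut_A00pp_123_s1 Ext.none :=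
  certF0 (fam := true) (s1 := true) (s2 := true) (a := 1) (b := 2) (c := 3) (cn := .npn) (n1 := ndB0q1) (n2 := ndB0q2) (pc := pcB3) (cut := cut_A00pp_123_s1) (xt := Ext.none) (P1 := 536870912) (W1 := 536870912) (P2 := 0) (W2 := 536870912) (P3 := 780900216) (W3 := 37827925)
    rfl k0_A00pp_123_s1

theorem s_A00pp_123_s1 {κ x : ℝ} (hκ : κ * h0 = ken x) (hx : ((780900216 : ℕ) : ℝ) / S ≤ x)
    (hx' : x ≤ (((780900216 : ℕ) : ℝ) + (37827925 : ℕ)) / S) :
    AltA (VFD κ) PP tK tL pcB [⟨3, 0, 0, 1449551462⟩] 1 2 3 0 0 (sgb true) (sgb true) x :=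
  strip_altAD (m := 1449551462) true rfl hκ (SH.κ0 hκ (SH.hx1 hx).le (SH.hx2 hx').le) (SH.hx1 hx).le (SH.hx2 hx') (covB01).cov (covB02).cov hx hx' c_A00pp_123_s1 cutA_nil (noExt_A)

noncomputable def cut_A00pp_123_s3 : Cut := Cut.of [[⟨3, 0, 0, 2845415833⟩]]

noncomputable def xt_A00pp_123_s3 : Ext := strExt dd true true true .u0 .u2 .s2 .npn 1 2 3 rfl rfl gl3 vv ndB0q1 ndB0q2

noncomputable def f_A00pp_123_s3 : ℕ → ℕ → ℕ → ℕ → Bool := onCell 536870912 536870912 0 536870912 780900216 37827925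
    (rowF 0 true true true .npn 1 2 3 (qsf 536870912 536870912 0 536870912 3) ndB0q1 ndB0q2 pcB3 cut_A00pp_123_s3 xt_A00pp_123_s3)

def k0_A00pp_123_s3 : ∃ t, chk3 f_A00pp_123_s3 t 1 1 1 = true :=
  ⟨(a (b (a (b (a (b (a (l 534780943) (l 534842639)) (a (b (l 534616591) (l 4)) (l 4))) (b (a (l 534919695) (l 4)) (l 4))) (l 4)) (l 4)) (l 4)) (l 4)), by decide +kernel⟩

theorem c_A00pp_123_s3 : CertF 536870912 536870912 0 536870912 780900216 37827925 true true true .npn 1 2 3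
    ndB0q1 ndB0q2 pcB3 cut_A00pp_123_s3 xt_A00pp_123_s3 :=
  certF0 (fam := true) (s1 := true) (s2 := true) (a := 1) (b := 2) (c := 3) (cn := .npn) (n1 := ndB0q1) (n2 := ndB0q2) (pc := pcB3) (cut := cut_A00pp_123_s3) (xt := xt_A00pp_123_s3) (P1 := 536870912) (W1 := 536870912) (P2 := 0) (W2 := 536870912) (P3 := 780900216) (W3 := 37827925)
    rfl k0_A00pp_123_s3

theorem s_A00pp_123_s3 {κ x : ℝ} (hκ : κ * h0 = ken x) (hx : ((780900216 : ℕ) : ℝ) / S ≤ x)
    (hx' : x ≤ (((780900216 : ℕ) : ℝ) + (37827925 : ℕ)) / S) :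
    AltA (VFD κ) PP tK tL pcB [⟨4, 0, 0, 2845415833⟩] 1 2 3 0 0 (sgb true) (sgb true) x :=
  strip_altAD (m := 2845415833) false rfl hκ (SH.κ0 hκ (SH.hx1 hx).le (SH.hx2 hx').le) (SH.hx1 hx).le (SH.hx2 hx') (covB01).cov (covB02).cov hx hx' c_A00pp_123_s3 cutA_nil ((okx hx hx').extA (T := tt) (sideB hx hx') hκ rfl rfl (.O 1 true) (.O 2 true) (Or.inr rfl))

noncomputable def cut_A00pp_202_s1 : Cut := Cut.of [[⟨4, 0, 0, 1449551462⟩]]

noncomputable def f_A00pp_202_s1 : ℕ → ℕ → ℕ → ℕ → Bool := onCell 0 536870912 0 536870912 780900216 37827925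
    (rowF 0 true true true .pp 2 0 2 (qsf 0 536870912 0 536870912 2) ndB0q2 ndB0q0 pcB2 cut_A00pp_202_s1 Ext.none)

def k0_A00pp_202_s1 : ∃ t, chk3 f_A00pp_202_s1 t 1 1 1 = true :=
  ⟨(l 5), by decide +kernel⟩

theorem c_A00pp_202_s1 : CertF 0 536870912 0 536870912 780900216 37827925 true true true .pp 2 0 2
    ndB0q2 ndB0q0 pcB2 cut_A00pp_202_s1 Ext.none :=
  certF0 (fam := true) (s1 := true) (s2 := true) (a := 2) (b := 0) (c := 2) (cn := .pp) (n1 := ndB0q2) (n2 := ndB0q0) (pc := pcB2) (cut := cut_A00pp_202_s1) (xt := Ext.none) (P1 := 0) (W1 := 536870912) (P2 := 0) (W2 := 536870912) (P3 := 780900216) (W3 := 37827925)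
    rfl k0_A00pp_202_s1

theorem s_A00pp_202_s1 {κ x : ℝ} (hκ : κ * h0 = ken x) (hx : ((780900216 : ℕ) : ℝ) / S ≤ x)
    (hx' : x ≤ (((780900216 : ℕ) : ℝ) + (37827925 : ℕ)) / S) :
    AltA (VFD κ) PP tK tL pcB [⟨3, 0, 0, 1449551462⟩] 2 0 2 0 0 (sgb true) (sgb true) x :=
  strip_altAD (m := 1449551462) true rfl hκ (SH.κ0 hκ (SH.hx1 hx).le (SH.hx2 hx').le) (SH.hx1 hx).le (SH.hx2 hx') (covB02).cov (covB00).cov hx hx' c_A00pp_202_s1 cutA_nil (noExt_A)

noncomputable def cut_A00pp_202_s3 : Cut := Cut.of [[⟨3, 0, 0, 2845415833⟩]]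

noncomputable def f_A00pp_202_s3 : ℕ → ℕ → ℕ → ℕ → Bool := onCell 0 536870912 0 536870912 780900216 37827925
    (rowF 0 true true true .pp 2 0 2 (qsf 0 536870912 0 536870912 2) ndB0q2 ndB0q0 pcB2 cut_A00pp_202_s3 Ext.none)

def k0_A00pp_202_s3 : ∃ t, chk3 f_A00pp_202_s3 t 1 1 1 = true :=
  ⟨(l 5), by decide +kernel⟩

theorem c_A00pp_202_s3 : CertF 0 536870912 0 536870912 780900216 37827925 true true true .pp 2 0 2
    ndB0q2 ndB0q0 pcB2 cut_A00pp_202_s3 Ext.none :=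
  certF0 (fam := true) (s1 := true) (s2 := true) (a := 2) (b := 0) (c := 2) (cn := .pp) (n1 := ndB0q2) (n2 := ndB0q0) (pc := pcB2) (cut := cut_A00pp_202_s3) (xt := Ext.none) (P1 := 0) (W1 := 536870912) (P2 := 0) (W2 := 536870912) (P3 := 780900216) (W3 := 37827925)
    rfl k0_A00pp_202_s3

theorem s_A00pp_202_s3 {κ x : ℝ} (hκ : κ * h0 = ken x) (hx : ((780900216 : ℕ) : ℝ) / S ≤ x)
    (hx' : x ≤ (((780900216 : ℕ) : ℝ) + (37827925 : ℕ)) / S) :
    AltA (VFD κ) PP tK tL pcB [⟨4, 0, 0, 2845415833⟩] 2 0 2 0 0 (sgb true) (sgb true) x :=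
  strip_altAD (m := 2845415833) false rfl hκ (SH.κ0 hκ (SH.hx1 hx).le (SH.hx2 hx').le) (SH.hx1 hx).le (SH.hx2 hx') (covB02).cov (covB00).cov hx hx' c_A00pp_202_s3 cutA_nil (noExt_A)

noncomputable def cut_A00pp_203_s1 : Cut := Cut.of [[⟨4, 0, 0, 1449551462⟩]]

noncomputable def f_A00pp_203_s1 : ℕ → ℕ → ℕ → ℕ → Bool := onCell 0 536870912 0 536870912 780900216 37827925
    (rowF 0 true true true .up 2 0 3 (qsf 0 536870912 0 536870912 3) ndB0q2 ndB0q0 pcB3 cut_A00pp_203_s1 Ext.none)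

def k0_A00pp_203_s1 : ∃ t, chk3 f_A00pp_203_s1 t 1 1 1 = true :=
  ⟨(l 5), by decide +kernel⟩

theorem c_A00pp_203_s1 : CertF 0 536870912 0 536870912 780900216 37827925 true true true .up 2 0 3
    ndB0q2 ndB0q0 pcB3 cut_A00pp_203_s1 Ext.none :=
  certF0 (fam := true) (s1 := true) (s2 := true) (a := 2) (b := 0) (c := 3) (cn := .up) (n1 := ndB0q2) (n2 := ndB0q0) (pc := pcB3) (cut := cut_A00pp_203_s1) (xt := Ext.none) (P1 := 0) (W1 := 536870912) (P2 := 0) (W2 := 536870912) (P3 := 780900216) (W3 := 37827925)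
    rfl k0_A00pp_203_s1

theorem s_A00pp_203_s1 {κ x : ℝ} (hκ : κ * h0 = ken x) (hx : ((780900216 : ℕ) : ℝ) / S ≤ x)
    (hx' : x ≤ (((780900216 : ℕ) : ℝ) + (37827925 : ℕ)) / S) :
    AltA (VFD κ) PP tK tL pcB [⟨3, 0, 0, 1449551462⟩] 2 0 3 0 0 (sgb true) (sgb true) x :=
  strip_altAD (m := 1449551462) true rfl hκ (SH.κ0 hκ (SH.hx1 hx).le (SH.hx2 hx').le) (SH.hx1 hx).le (SH.hx2 hx') (covB02).cov (covB00).cov hx hx' c_A00pp_203_s1 cutA_nil (noExt_A)

noncomputable def cut_A00pp_203_s3 : Cut := Cut.of [[⟨3, 0, 0, 2845415833⟩]]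

noncomputable def f_A00pp_203_s3 : ℕ → ℕ → ℕ → ℕ → Bool := onCell 0 536870912 0 536870912 780900216 37827925
    (rowF 0 true true true .up 2 0 3 (qsf 0 536870912 0 536870912 3) ndB0q2 ndB0q0 pcB3 cut_A00pp_203_s3 Ext.none)

def k0_A00pp_203_s3 : ∃ t, chk3 f_A00pp_203_s3 t 1 1 1 = true :=
  ⟨(l 5), by decide +kernel⟩

theorem c_A00pp_203_s3 : CertF 0 536870912 0 536870912 780900216 37827925 true true true .up 2 0 3
    ndB0q2 ndB0q0 pcB3 cut_A00pp_203_s3 Ext.none :=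
  certF0 (fam := true) (s1 := true) (s2 := true) (a := 2) (b := 0) (c := 3) (cn := .up) (n1 := ndB0q2) (n2 := ndB0q0) (pc := pcB3) (cut := cut_A00pp_203_s3) (xt := Ext.none) (P1 := 0) (W1 := 536870912) (P2 := 0) (W2 := 536870912) (P3 := 780900216) (W3 := 37827925)
    rfl k0_A00pp_203_s3

theorem s_A00pp_203_s3 {κ x : ℝ} (hκ : κ * h0 = ken x) (hx : ((780900216 : ℕ) : ℝ) / S ≤ x)
    (hx' : x ≤ (((780900216 : ℕ) : ℝ) + (37827925 : ℕ)) / S) :
    AltA (VFD κ) PP tK tL pcB [⟨4, 0, 0, 2845415833⟩] 2 0 3 0 0 (sgb true) (sgb true) x :=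
  strip_altAD (m := 2845415833) false rfl hκ (SH.κ0 hκ (SH.hx1 hx).le (SH.hx2 hx').le) (SH.hx1 hx).le (SH.hx2 hx') (covB02).cov (covB00).cov hx hx' c_A00pp_203_s3 cutA_nil (noExt_A)

noncomputable def cut_A00pp_213_s1 : Cut := Cut.of [[⟨4, 0, 0, 1449551462⟩]]

noncomputable def f_A00pp_213_s1 : ℕ → ℕ → ℕ → ℕ → Bool := onCell 0 536870912 536870912 536870912 780900216 37827925
    (rowF 0 true true true .pnn 2 1 3 (qsf 0 536870912 536870912 536870912 3) ndB0q2 ndB0q1 pcB3 cut_A00pp_213_s1 Ext.none)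

def k0_A00pp_213_s1 : ∃ t, chk3 f_A00pp_213_s1 t 1 1 1 = true :=
  ⟨(l 6), by decide +kernel⟩

theorem c_A00pp_213_s1 : CertF 0 536870912 536870912 536870912 780900216 37827925 true true true .pnn 2 1 3
    ndB0q2 ndB0q1 pcB3 cut_A00pp_213_s1 Ext.none :=
  certF0 (fam := true) (s1 := true) (s2 := true) (a := 2) (b := 1) (c := 3) (cn := .pnn) (n1 := ndB0q2) (n2 := ndB0q1) (pc := pcB3) (cut := cut_A00pp_213_s1) (xt := Ext.none) (P1 := 0) (W1 := 536870912) (P2 := 536870912) (W2 := 536870912) (P3 := 780900216) (W3 := 37827925)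
    rfl k0_A00pp_213_s1

theorem s_A00pp_213_s1 {κ x : ℝ} (hκ : κ * h0 = ken x) (hx : ((780900216 : ℕ) : ℝ) / S ≤ x)
    (hx' : x ≤ (((780900216 : ℕ) : ℝ) + (37827925 : ℕ)) / S) :
    AltA (VFD κ) PP tK tL pcB [⟨3, 0, 0, 1449551462⟩] 2 1 3 0 0 (sgb true) (sgb true) x :=
  strip_altAD (m := 1449551462) true rfl hκ (SH.κ0 hκ (SH.hx1 hx).le (SH.hx2 hx').le) (SH.hx1 hx).le (SH.hx2 hx') (covB02).cov (covB01).cov hx hx' c_A00pp_213_s1 cutA_nil (noExt_A)

noncomputable def cut_A00pp_213_s3 : Cut := Cut.of [[⟨3, 0, 0, 2845415833⟩]]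

noncomputable def f_A00pp_213_s3 : ℕ → ℕ → ℕ → ℕ → Bool := onCell 0 536870912 536870912 536870912 780900216 37827925
    (rowF 0 true true true .pnn 2 1 3 (qsf 0 536870912 536870912 536870912 3) ndB0q2 ndB0q1 pcB3 cut_A00pp_213_s3 Ext.none)

def k0_A00pp_213_s3 : ∃ t, chk3 f_A00pp_213_s3 t 1 1 1 = true :=
  ⟨(a (l 5) (l 4)), by decide +kernel⟩

theorem c_A00pp_213_s3 : CertF 0 536870912 536870912 536870912 780900216 37827925 true true true .pnn 2 1 3
    ndB0q2 ndB0q1 pcB3 cut_A00pp_213_s3 Ext.none :=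
  certF0 (fam := true) (s1 := true) (s2 := true) (a := 2) (b := 1) (c := 3) (cn := .pnn) (n1 := ndB0q2) (n2 := ndB0q1) (pc := pcB3) (cut := cut_A00pp_213_s3) (xt := Ext.none) (P1 := 0) (W1 := 536870912) (P2 := 536870912) (W2 := 536870912) (P3 := 780900216) (W3 := 37827925)
    rfl k0_A00pp_213_s3

theorem s_A00pp_213_s3 {κ x : ℝ} (hκ : κ * h0 = ken x) (hx : ((780900216 : ℕ) : ℝ) / S ≤ x)
    (hx' : x ≤ (((780900216 : ℕ) : ℝ) + (37827925 : ℕ)) / S) :
    AltA (VFD κ) PP tK tL pcB [⟨4, 0, 0, 2845415833⟩] 2 1 3 0 0 (sgb true) (sgb true) x :=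
  strip_altAD (m := 2845415833) false rfl hκ (SH.κ0 hκ (SH.hx1 hx).le (SH.hx2 hx').le) (SH.hx1 hx).le (SH.hx2 hx') (covB02).cov (covB01).cov hx hx' c_A00pp_213_s3 cutA_nil (noExt_A)

noncomputable def cut_A00pm_001_s1 : Cut := Cut.of [[⟨4, 0, 0, 1449551462⟩]]

noncomputable def f_A00pm_001_s1 : ℕ → ℕ → ℕ → ℕ → Bool := onCell 0 536870912 0 536870912 780900216 37827925
    (rowF 0 true true false .up 0 0 1 (qsf 0 536870912 0 536870912 1) ndB0q0 ndB0q0 pcB1 cut_A00pm_001_s1 Ext.none)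

def k0_A00pm_001_s1 : ∃ t, chk3 f_A00pm_001_s1 t 1 1 1 = true :=
  ⟨(l 3), by decide +kernel⟩

theorem c_A00pm_001_s1 : CertF 0 536870912 0 536870912 780900216 37827925 true true false .up 0 0 1
    ndB0q0 ndB0q0 pcB1 cut_A00pm_001_s1 Ext.none :=
  certF0 (fam := true) (s1 := true) (s2 := false) (a := 0) (b := 0) (c := 1) (cn := .up) (n1 := ndB0q0) (n2 := ndB0q0) (pc := pcB1) (cut := cut_A00pm_001_s1) (xt := Ext.none) (P1 := 0) (W1 := 536870912) (P2 := 0) (W2 := 536870912) (P3 := 780900216) (W3 := 37827925)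
    rfl k0_A00pm_001_s1

theorem s_A00pm_001_s1 {κ x : ℝ} (hκ : κ * h0 = ken x) (hx : ((780900216 : ℕ) : ℝ) / S ≤ x)
    (hx' : x ≤ (((780900216 : ℕ) : ℝ) + (37827925 : ℕ)) / S) :
    AltA (VFD κ) PP tK tL pcB [⟨3, 0, 0, 1449551462⟩] 0 0 1 0 0 (sgb true) (sgb false) x :=
  strip_altAD (m := 1449551462) true rfl hκ (SH.κ0 hκ (SH.hx1 hx).le (SH.hx2 hx').le) (SH.hx1 hx).le (SH.hx2 hx') (covB00).cov (covB00).cov hx hx' c_A00pm_001_s1 cutA_nil (noExt_A)

noncomputable def cut_A00pm_001_s3 : Cut := Cut.of [[⟨3, 0, 0, 2845415833⟩]]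

noncomputable def f_A00pm_001_s3 : ℕ → ℕ → ℕ → ℕ → Bool := onCell 0 536870912 0 536870912 780900216 37827925
    (rowF 0 true true false .up 0 0 1 (qsf 0 536870912 0 536870912 1) ndB0q0 ndB0q0 pcB1 cut_A00pm_001_s3 Ext.none)

def k0_A00pm_001_s3 : ∃ t, chk3 f_A00pm_001_s3 t 1 1 1 = true :=
  ⟨(l 3), by decide +kernel⟩

theorem c_A00pm_001_s3 : CertF 0 536870912 0 536870912 780900216 37827925 true true false .up 0 0 1
    ndB0q0 ndB0q0 pcB1 cut_A00pm_001_s3 Ext.none :=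
  certF0 (fam := true) (s1 := true) (s2 := false) (a := 0) (b := 0) (c := 1) (cn := .up) (n1 := ndB0q0) (n2 := ndB0q0) (pc := pcB1) (cut := cut_A00pm_001_s3) (xt := Ext.none) (P1 := 0) (W1 := 536870912) (P2 := 0) (W2 := 536870912) (P3 := 780900216) (W3 := 37827925)
    rfl k0_A00pm_001_s3

theorem s_A00pm_001_s3 {κ x : ℝ} (hκ : κ * h0 = ken x) (hx : ((780900216 : ℕ) : ℝ) / S ≤ x)
    (hx' : x ≤ (((780900216 : ℕ) : ℝ) + (37827925 : ℕ)) / S) :
    AltA (VFD κ) PP tK tL pcB [⟨4, 0, 0, 2845415833⟩] 0 0 1 0 0 (sgb true) (sgb false) x :=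
  strip_altAD (m := 2845415833) false rfl hκ (SH.κ0 hκ (SH.hx1 hx).le (SH.hx2 hx').le) (SH.hx1 hx).le (SH.hx2 hx') (covB00).cov (covB00).cov hx hx' c_A00pm_001_s3 cutA_nil (noExt_A)

noncomputable def cut_A00pm_011_s1 : Cut := Cut.of [[⟨4, 0, 0, 1449551462⟩], [⟨0, 0, 0, 67108864⟩, ⟨1, 1, 0, 67108864⟩, ⟨2, 1, 0, 67108864⟩]]

noncomputable def f_A00pm_011_s1 : ℕ → ℕ → ℕ → ℕ → Bool := onCell 536870912 536870912 536870912 536870912 780900216 37827925
    (rowF 2 true true false .pnn 0 1 1 (qsf 0 536870912 536870912 536870912 1) ndB0q0 ndB0q1 pcB1 cut_A00pm_011_s1 Ext.none)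

def k0_A00pm_011_s1 : ∃ t, chk3 f_A00pm_011_s1 t 1 1 1 = true :=
  ⟨(a (l 3) (b (l 3) (a (l 3) (b (l 3) (a (l 3) (b (l 3) (a (l 3) (b (l 3) (l 14))))))))), by decide +kernel⟩

theorem c_A00pm_011_s1 : CertF 0 536870912 536870912 536870912 780900216 37827925 true true false .pnn 0 1 1
    ndB0q0 ndB0q1 pcB1 cut_A00pm_011_s1 Ext.none :=
  certF2 (fam := true) (s1 := true) (s2 := false) (a := 0) (b := 1) (c := 1) (cn := .pnn) (n1 := ndB0q0) (n2 := ndB0q1) (pc := pcB1) (cut := cut_A00pm_011_s1) (xt := Ext.none) (P1 := 0) (W1 := 536870912) (P2 := 536870912) (W2 := 536870912) (P3 := 780900216) (W3 := 37827925)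
    rfl (fun _ => rfl) k0_A00pm_011_s1

theorem s_A00pm_011_s1 {κ x : ℝ} (hκ : κ * h0 = ken x) (hx : ((780900216 : ℕ) : ℝ) / S ≤ x)
    (hx' : x ≤ (((780900216 : ℕ) : ℝ) + (37827925 : ℕ)) / S)
    (H : CutA (VFD κ) PP tK tL pcB (Cut.of [[⟨0, 0, 0, 67108864⟩, ⟨1, 1, 0, 67108864⟩, ⟨2, 1, 0, 67108864⟩]]) 0 1 1 0 0 (sgb true) (sgb false) x) :
    AltA (VFD κ) PP tK tL pcB [⟨3, 0, 0, 1449551462⟩] 0 1 1 0 0 (sgb true) (sgb false) x :=
  strip_altAD (m := 1449551462) true rfl hκ (SH.κ0 hκ (SH.hx1 hx).le (SH.hx2 hx').le) (SH.hx1 hx).le (SH.hx2 hx') (covB00).cov (covB01).cov hx hx' c_A00pm_011_s1 H (noExt_A)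

noncomputable def cut_A00pm_011_s3 : Cut := Cut.of [[⟨3, 0, 0, 2845415833⟩], [⟨0, 0, 0, 67108864⟩, ⟨1, 1, 0, 67108864⟩, ⟨2, 1, 0, 67108864⟩]]

noncomputable def f_A00pm_011_s3 : ℕ → ℕ → ℕ → ℕ → Bool := onCell 0 536870912 536870912 536870912 780900216 37827925
    (rowF 0 true true false .pnn 0 1 1 (qsf 0 536870912 536870912 536870912 1) ndB0q0 ndB0q1 pcB1 cut_A00pm_011_s3 Ext.none)

def k0_A00pm_011_s3 : ∃ t, chk3 f_A00pm_011_s3 t 1 1 1 = true :=
  ⟨(l 6), by decide +kernel⟩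

theorem c_A00pm_011_s3 : CertF 0 536870912 536870912 536870912 780900216 37827925 true true false .pnn 0 1 1
    ndB0q0 ndB0q1 pcB1 cut_A00pm_011_s3 Ext.none :=
  certF0 (fam := true) (s1 := true) (s2 := false) (a := 0) (b := 1) (c := 1) (cn := .pnn) (n1 := ndB0q0) (n2 := ndB0q1) (pc := pcB1) (cut := cut_A00pm_011_s3) (xt := Ext.none) (P1 := 0) (W1 := 536870912) (P2 := 536870912) (W2 := 536870912) (P3 := 780900216) (W3 := 37827925)
    rfl k0_A00pm_011_s3

theorem s_A00pm_011_s3 {κ x : ℝ} (hκ : κ * h0 = ken x) (hx : ((780900216 : ℕ) : ℝ) / S ≤ x)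
    (hx' : x ≤ (((780900216 : ℕ) : ℝ) + (37827925 : ℕ)) / S)
    (H : CutA (VFD κ) PP tK tL pcB (Cut.of [[⟨0, 0, 0, 67108864⟩, ⟨1, 1, 0, 67108864⟩, ⟨2, 1, 0, 67108864⟩]]) 0 1 1 0 0 (sgb true) (sgb false) x) :
    AltA (VFD κ) PP tK tL pcB [⟨4, 0, 0, 2845415833⟩] 0 1 1 0 0 (sgb true) (sgb false) x :=
  strip_altAD (m := 2845415833) false rfl hκ (SH.κ0 hκ (SH.hx1 hx).le (SH.hx2 hx').le) (SH.hx1 hx).le (SH.hx2 hx') (covB00).cov (covB01).cov hx hx' c_A00pm_011_s3 H (noExt_A)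

end Pool.Agent.Strip051.G.I72727_7625.Tab.St.C
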